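import Pool.Agent.Lib.MP_b520b2_co.V6.Crit

/-!
# Cells, group 3709
-/

set_option linter.all false

namespace Pool.Agent.MOS.V6.S244

/-- a cell -/
noncomputable def k_wQ_26_wN_1_rb8033094a_d43_d0fx2_0 : KC := KC.mk (nat_lit 15) [nat_lit 0, nat_lit 1, nat_lit 2, nat_lit 3, nat_lit 4, nat_lit 5, nat_lit 6, nat_lit 7, nat_lit 8, nat_lit 9, nat_lit 10, nat_lit 11, nat_lit 12, nat_lit 13] (dCus (nat_lit 15) (nat_lit 37) (nat_lit 0x59595959595959594040270e0e2740486380808080abb9e4c78e80808080801039c9c9c9c9c9c9c9c9c9c9656501012393939200707070707070707202020042727727272727265d94cc040404040484e4e4e8080b2b2e4e4b2b280808080917171716f471c5e6e6a385ab0d300f522969632c31ab9c22a596c70a08102024595958ccc033a7270e0e27404045c008e4e4e1ddd1c5beb4a7978b83776959912d2d2d2d2d8bc945438cceb6acb90222020202020202020072020393939200440400e40404040404040404040404388808080e480808080801c1c1c80808090cecfc9c9c9c9c99765330101010100213939393a0202cb939392caca020202450d0d0c02f9e8e0e1eafc040404040085f5f5f5f5f5f3d5f80a1c3e4c3a18010b6b6b6b6b6b83868debd274b6b6b0123939393939392020200707070720200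4404040404040400e4040404040404108808080801c80808080808080808084110101010100383901010101c9c901002202020202020202020072039203920042fafafafaff261e1d0c0404040404048808080808080801c80e4e4e4808080115151515150d8b038386060d8d92901239393939391d1d1d1d1d1d1d1d1d1d0468e8e8e8e8ed6bf26664da4f4239b7081c1c1c1c1ce4e4e4e4e4e4e4b2b280919d9d9d9d9d9dadc99995694510eedc22cacacacacaca013938707071393a024595959595959595940270e0e27274008808080808080808080e4e480801c8010383838383838383886aed4fd2323232139393939393b9393939392caca02004404040404040404072724040400e4008))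

/-- a cell -/
noncomputable def k_wQ_26_wN_1_rb8033094a_d43_d0ex2_0 : KC := KC.mk (nat_lit 16) [nat_lit 0, nat_lit 1, nat_lit 2, nat_lit 3, nat_lit 4, nat_lit 5, nat_lit 6, nat_lit 7, nat_lit 8, nat_lit 9, nat_lit 10, nat_lit 11, nat_lit 12, nat_lit 13, nat_lit 14] (dCus (nat_lit 16) (nat_lit 37) (nat_lit 0x404040404040404040407272400e0e4048294bd354ed41d214ed555bd89699cc7ce1b9268015010101010100383901010101c900390122caca0139393939393938713a02020202431b1c040404055dcf263c74040404040481c1ce4e4e4e4e4e4e4e4e4e4b2b2808091c9c9c9c90038383838383838390101002139393b93939393932eca66020202020242727272740405959727259594040404048a5a5a58cb0c6ae708a965b1c282040809153d4f53bb6e9164438e0aca7ac836111c471a4042acacacac666019d393870713a02022e00472727270eee8e2df5a53cbc5c1bbb4acc88080808080808080801c8080e4e4e480110101003901010101010101010101010e2202020203920202020200707072020202433b3b3f27272727265d94cc040404040084e4e4e4e4e8080b2e4e4e4b2b2808080914343434300be7a38387abf0101010100217d7d7d7d7d7d7cf57e02870f930e860044040404040405b7234c0400e0e27bf404880808080808080801c808080808080821101010101003901010101010101010108220202020202007072020202039392020042fafafafafaff250f250f250f269f24008808080808080808080801c80e480e48010bebebebebebfc987874301010101010122a2a2a2a2a2a1b1607070c0c1b1b2520247272727272723a3a3a3a3a3a3a3a3a3a08d1d1d1d1d1d1dad7e4ccc9b49e84736e10383838383839c9c9c9c9c9c9c9656501233b3b3b3b3b3b3b5b93332ad28a21ddb84595959595959594027270e0e0e27274048b2b2b2b2b2b2b2b2b2804e1c1c4e4e801101010101010101010101c9c901003900213939393939393b9393939392caca0200440404040404040404072724040400e4008))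

end Pool.Agent.MOS.V6.S244
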