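import Pool.Agent.Lib.MP_b520b2_co.V6.Crit

/-!
# Cells, group 3729
-/

set_option linter.all false

namespace Pool.Agent.MOS.V6.S244

/-- a cell -/
noncomputable def k_wQ_26_wN_1_rb8033094a_d43_d35x2_0 : KC := KC.mk (nat_lit 12) [nat_lit 0, nat_lit 1, nat_lit 2, nat_lit 3, nat_lit 4, nat_lit 5, nat_lit 6, nat_lit 7, nat_lit 8, nat_lit 9, nat_lit 10] (dCus (nat_lit 12) (nat_lit 14) (nat_lit 0xf79393930f0f0f0f0e86860241c080240a02c0c0340e03e1104a1400a3de4e4c3c3c3c3c3c3a1a18090bebfc943c943c943c9a7c9012202020202020072039203920042faff261e1d0c0404040404048a8a86c581c1c30306c6c948091c9c8e8e8e8e8e8e8e8e8e8e8233b3b3b5b93332ad28a21ddb845959594027270e0e0e27274048b2b2b2b2b2804e1c1c4e4e8011c9c9c9c7b59b754922faca8f2139393b9393939392caca02004404040404072724040400e4008))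

/-- a cell -/
noncomputable def k_wQ_26_wN_1_rb8033094a_d43_d35x2_1 : KC := KC.mk (nat_lit 13) [nat_lit 0, nat_lit 1, nat_lit 2, nat_lit 3, nat_lit 4, nat_lit 5, nat_lit 6, nat_lit 7, nat_lit 8, nat_lit 9, nat_lit 10, nat_lit 11] (dCus (nat_lit 13) (nat_lit 17) (nat_lit 0x2a4040405640f240404cd15dc048801c808080808080808080808411434343430100be387a7abebf01219b92be5602026a0202026e2e024619e9e9e9e8e1e8e1e9eafafc008e4e4d9d3cdc7c0aea08f796c5191c9b19f8d79614b2d16fae2c6b120f4f79393930f0f0f0f0e86860242fafaff250f250f250f269f24048808080808080801c80e480e48011515150d8b038386060d8d9290123939391d1d1d1d1d1d1d1d1d1d04676767676b7266655a51443bb708b2b2b2b2804e4e1c1c1c4e4e8091656565656565009c38389c9d00213939393b9393939392caca0200440404040404072724040400e4008))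

/-- a cell -/
noncomputable def k_wQ_26_wN_1_rb8033094a_d43_d35x2_2 : KC := KC.mk (nat_lit 15) [nat_lit 0, nat_lit 1, nat_lit 2, nat_lit 3, nat_lit 4, nat_lit 5, nat_lit 6, nat_lit 7, nat_lit 8, nat_lit 9, nat_lit 10, nat_lit 11, nat_lit 12, nat_lit 13] (dCus (nat_lit 15) (nat_lit 19) (nat_lit 0x180647a7a7a7a7a387a387a7abebf002390f4f4f4f4f4f470f470f4f57d7e00440405940404027270e27405959594048e4e4e4e4e4e4e4e4e4e4e4e4e4e45490a8a8a90101015903c901013345770122020200720202020202020202020210450d0d0d0d0d0c0402f8e1e9eafafc048666666e4af9580809a8080809b8b80918787867a7a7a7a387a387a7abebf0020f4f4f4f79393930f0f0f0f0e86860242fafafafaff250f250f250f269f240488080808080808080801c80e480e480115151515150d8b038386060d8d92901239393939391d1d1d1d1d1d1d1d1d1d046767676767676b7266655a51443bb708b2b2b2b2b2b2804e4e1c1c1c4e4e80916565656565656565009c38389c9d002139393939393b9393939392caca02004404040404040404072724040400e4008))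

end Pool.Agent.MOS.V6.S244
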