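import Pool.Agent.Lib.MP_b520b2_co.V6.Crit

/-!
# Cells, group 3733
-/

set_option linter.all false

namespace Pool.Agent.MOS.V6.S244

/-- a cell -/
noncomputable def k_wQ_26_wN_1_rb8033094a_d43_d36_d41_d071ax1_0 : KC := KC.mk (nat_lit 13) [nat_lit 0, nat_lit 1, nat_lit 2, nat_lit 3, nat_lit 4, nat_lit 5, nat_lit 6, nat_lit 7, nat_lit 8, nat_lit 9, nat_lit 10, nat_lit 11] (dCus (nat_lit 13) (nat_lit 24) (nat_lit 0x4ee4b2b2b2b2b2b2b2e4b2b280108fc9010109752d995d25230101211792eeeef2ee766a6a2e020202428f269e8df54cac0404347c1c0481c1c1c8080e4e4e4e4e4e4e480907a7bc9c9c9878787878743430023938767431ef6c69a5619dd9156472400e0e0e0e0e0e0e4040404008e4dad2cdc3bbb2a4958976675591656565656b06b03838385a9d0020707393939393939392caca02024404072727240400e0e404040404880801c8080808080808080808811010101010101003901c901c901207072020202020202020202022e42fafaff261e1d0c040404040404880808080801c80e4e4e480808011515150d8b038386060d8d9290123939391d1d1d1d1d1d1d1d1d1d040e0e0e7272727272727259594048cecececed6e4cccab4a288776e1165656565009c9c3838389c9d0122cacacacacaca01387071393a0042727272772727272725959404008))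

end Pool.Agent.MOS.V6.S244
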