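import Pool.Agent.Lib.MP_b520b2_co.V6.Crit

/-!
# Cells, group 3741
-/

set_option linter.all false

namespace Pool.Agent.MOS.V6.S244

/-- a cell -/
noncomputable def k_wQ_26_wN_1_rb8033094a_d43_d42x2_0 : KC := KC.mk (nat_lit 11) [nat_lit 0, nat_lit 1, nat_lit 2, nat_lit 3, nat_lit 4, nat_lit 5, nat_lit 6, nat_lit 7, nat_lit 8, nat_lit 9] (dCus (nat_lit 11) (nat_lit 14) (nat_lit 0x67e4cbcbb299808d80808010050f0dca06947ad5b701a0600480032332699d02b473c6a9b8013c9c901003838389c9c390120720202020202020202022a472400e0e0e404040404040084de4a19191808091889180903839c9c9c9c9c96565010122cacacaca01387071393a0044040404040727240400e40081c1c1c1c43576a7e9191919038383868969696c6f525252393938f6b36ea9245f5951e44040404072724040400e4008))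

/-- a cell -/
noncomputable def k_wQ_26_wN_1_rb8033094a_d43_d42x2_1 : KC := KC.mk (nat_lit 13) [nat_lit 0, nat_lit 1, nat_lit 2, nat_lit 3, nat_lit 4, nat_lit 5, nat_lit 6, nat_lit 7, nat_lit 8, nat_lit 9, nat_lit 10, nat_lit 11] (dCus (nat_lit 13) (nat_lit 15) (nat_lit 0x1c9c9c8383838383838389c9d0020f83e0f84513053168635bb7aa1992280146b9e084a449e2b4bc32ce0bd90cc8d400a676767e4cbcbb299808d80808011c9c9c9c901003838389c9c3901207070720202020202020202022a4727272400e0e0e404040404040084d4d4de4a191918080918891809038383839c9c9c9c9c96565010122cacacacacaca01387071393a00440404040404040727240400e40081c1c1c1c1c1c43576a7e91919190383838383868969696c6f5252523939393938f6b36ea9245f5951e440404040404072724040400e4008))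

/-- a cell -/
noncomputable def k_wQ_26_wN_1_rb8033094a_d43_d49x2_0 : KC := KC.mk (nat_lit 10) [nat_lit 0, nat_lit 1, nat_lit 2, nat_lit 3, nat_lit 4, nat_lit 5, nat_lit 6, nat_lit 7, nat_lit 8] (dCus (nat_lit 10) (nat_lit 16) (nat_lit 0x20200720392007203920240546c573c26574db7e4fb00243018229c93ecc7cc9aa78012151b15cf0995d36df93ec009e480808080801c1c1c8091656565009c38389c9d00220202020393920200720040e0e0e21abb53f48c8c8c81c1c344b4b4b637a929291c3c9bba3855b3904c48b239392020200720202020047272400e40404040404008e4e48080808080801c8011c9c7b59b754922faca8f220202039392020200720040e0e0e0e1d2bbabac94948))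

/-- a cell -/
noncomputable def k_wQ_26_wN_1_rb8033094a_d43_d49x2_1 : KC := KC.mk (nat_lit 12) [nat_lit 0, nat_lit 1, nat_lit 2, nat_lit 3, nat_lit 4, nat_lit 5, nat_lit 6, nat_lit 7, nat_lit 8, nat_lit 9, nat_lit 10] (dCus (nat_lit 12) (nat_lit 11) (nat_lit 0x10101010101c9c9003900390120ec421245015d5f99f701e181a43a0050e0e0e72727272725959404048282828e4e4c3c3c3e4c3c38011c9c9c9bba58567472702ca9320707070fc9d0d0d0cf8810ebe4404040400e4072400e40724048e4e4e480808080801c1c1c80916565656565009c38389c9d00220202020202039392020072004404040404072724040400e4008))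

end Pool.Agent.MOS.V6.S244
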