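import Pool.Agent.Lib.MP_b520b2_co.V6.Crit

/-!
# Cells, group 3754
-/

set_option linter.all false

namespace Pool.Agent.MOS.V6.S244

/-- a cell -/
noncomputable def k_wQ_26_wN_1_rb8033094a_d43_d4a210fx1_0 : KC := KC.mk (nat_lit 18) [nat_lit 0, nat_lit 1, nat_lit 2, nat_lit 3, nat_lit 4, nat_lit 5, nat_lit 6, nat_lit 7, nat_lit 8, nat_lit 9, nat_lit 10, nat_lit 11, nat_lit 12, nat_lit 13, nat_lit 14, nat_lit 15, nat_lit 16] (dCus (nat_lit 18) (nat_lit 36) (nat_lit 0x4e4e4e4e4ee4e4d3d3d3d3d3b2a19191808090cecfc9c997979765656533330133010101012393939393939393939393939393939393913a4727272724040400e0e0e0e0e0e400e0e404008abababababab727779985d221c6d4344807f910101010100383838383838390101c901010020c0c0c3939392ca020252020202def27a66024404040404040404040404040400e4040404108808080808080808080808080e4e4801c808090383839c9c9c9c9c9c9c9c9c9c96565650101236b6b6b69ce01d470c52e019d653c990e01e64404040404040270e0e0e0e27404059404040088585858592b4b4adb4bbc2d4e49e6e7b7b80113b3b3b3b3b3b3bc93b3b3b00543a8aa50101230f0f0f0f0f0f0cf4f4f57cf4f70c70720202459595959595959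40270e0e0e0e272727404048808080808080d080808080946c80806c1c8091a7a7a7a7a7a7c98945898988a4caf8cb44d322020202020392007070707201393a013aca02450d0d0d0d0f250af8e0e0e50d09e9e9e9ec048e4e4e4e4e4e4e4e4e4e4e4e466666666666691c9c9c9c9c9c8e6e6e6e6e6e6e6e6e6e6e6e622cacacacacacacacacacacaca013871393a024404040404040404040404040404040400e41881c1c1c1c1c1ce4e4e4e4e4e4e4b2b2b2b2809165656565656565009c9c9c38389c9c9c9d0122cacacacacacacaca66019d38d470d5399e024404040404040404040400e0e0e4072400e40088080808080808080808080e4e480801c1c80916565656565656438383838389c9c9c9c9d012393939393939393939200707070707070720046464646464646464725c5b5f54564fc5bf3808808080808080808080808080e4e480801c8010383838383838383838383886aed4fd2323232139393939393939393b9393939392caca02004404040404040404040404072724040400e4008))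

/-- a cell -/
noncomputable def k_wQ_26_wN_1_rb8033094a_d43_d4a2113x1_0 : KC := KC.mk (nat_lit 17) [nat_lit 0, nat_lit 1, nat_lit 2, nat_lit 3, nat_lit 4, nat_lit 5, nat_lit 6, nat_lit 7, nat_lit 8, nat_lit 9, nat_lit 10, nat_lit 11, nat_lit 12, nat_lit 13, nat_lit 14, nat_lit 15] (dCus (nat_lit 17) (nat_lit 38) (nat_lit 0x1393939393b2f2f2f932f2eca666666020244040404059404059405972594027404040488a8a1c1e1e31223e4341556c615e61718c11c9c9c9c9c9c9c9c9c9c8d2d2d2d2d2d2d3213939393b939393932f2ecaca666666020244040404040404040404040400e40404041488080808080808080808080e4e4801c8080903839c9c9c9c9c9c9c9c9c9c96565650101236b6b69ce01d470c52e019d653c990e01e6427a7a7bfd8db58dcf27255ed58c03fc0404880808080804e1c1c1c1c4e8080b280808011c9c9c9c90101010101010038383901c900221616164ad2d2b6d2ef0b539279b9edee0044ecececececef24ececec0150ea2a9404048c3c3c3c3c3c33d3d3d5f3d3dc31c1c808091656565656565009c383838389c9c9d010120707070720200707203939392cb920202024727272724059595959594027270e272740088080808080d080808080946c80806c1c8091a7a7a7a7a7c98945898988a4caf8cb44d322020202039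2007070707201393a013aca0241e9e9e9e9e9e9ef272727261e1d0d0c04048a1a1a1a1e4a15f1c1c1ca1a13d3d3d3d8091c9c9c9c9c9c9c9c9c9c9c8cccccccccccd239393939391cdcdcdcdcdcdcdcdcdcdcdcc4595959595959595959595940270e272740488080808080808080808080808080801c8311656565656565009c9c9c38389c9c9c9d0123939393939392007070707070707202020044040404040404040400e0e0e4072400e400880808080808080808080e4e480801c1c809165656565656438383838389c9c9c9c9d01239393939393939392007070707070707200464646464646464725c5b5f54564fc5bf38088080808080808080808080e4e480801c80103838383838383838383886aed4fd23232321393939393939393b9393939392caca020044040404040404040404072724040400e4008))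

end Pool.Agent.MOS.V6.S244
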