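import Pool.Agent.Lib.MP_b520b2_co.V6.Crit

/-!
# Cells, group 3765
-/

set_option linter.all false

namespace Pool.Agent.MOS.V6.S244

/-- a cell -/
noncomputable def k_wQ_26_wN_1_rb8033094a_d43_d4a4b0ax1_0 : KC := KC.mk (nat_lit 13) [nat_lit 0, nat_lit 1, nat_lit 2, nat_lit 3, nat_lit 4, nat_lit 5, nat_lit 6, nat_lit 7, nat_lit 8, nat_lit 9, nat_lit 10, nat_lit 11] (dCus (nat_lit 13) (nat_lit 31) (nat_lit 0x67673aa40e0e1695191dacb94008364f54452d5256560da170de582a43a00540404040400e0e59405940274048e4e4e4e4b2804e1c1c1c1c4e80916565656565656565009c389d0120cccccf93369a9a9a9a9a9a9a0240e40404040404040404040404648949494d0801c303030806c30809101010101010101c901c900390020f8f8f8fb93930e868686860202472720e0e0e0e0e0e4040404040081c1c1c44e4e4e4e4e4e480d08091c9c9c9010038383838390101002266666601947198a9d326976a0042fafafafc07250f250afaf9ec04880808080808080e4801c80e48011c9c9c9010101010101003901002307070705de198cfc7121ba620040e0e0e0e727272720e0e59724048727272e49a8a8c9eb1c38092801038383838390101010101c9c90123939393834f1aeac29a620d9536466667270ef69e1df5dd246beb688e4e4e4e4cbb2804e4e351c4e8011919191c9716d7d51593f16fce020707070739393939392caca0202459595959595940270e0e2727404880808080808080e4e480801c801038383838383886aed4fd23232322020202020203939202020072004727272727272400e0e0e0e0e4008))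

/-- a cell -/
noncomputable def k_wQ_26_wN_1_rb8033094a_d43_d4a4b0cx1_0 : KC := KC.mk (nat_lit 13) [nat_lit 0, nat_lit 1, nat_lit 2, nat_lit 3, nat_lit 4, nat_lit 5, nat_lit 6, nat_lit 7, nat_lit 8, nat_lit 9, nat_lit 10, nat_lit 11] (dCus (nat_lit 13) (nat_lit 31) (nat_lit 0x1ef2666261d0d3d3d0d0d0cdc048354f042d265055c5e999705e986649a00563e3e3d5d5cab19c8e1caab1c008966b40401c405c586a8bb2a08010eaeb590101011d010301c9010120cccccf93369a9a9a9a9a9a9a0240e4040404040404040404040464880808080808080e480e4801c80113333326a6a6ac438cf679701002070707113939393939392034202472727240400e0e0e0e0e404040085f5f5f5f80e4a1e4a15f5f3d809101010101010101c9003901c9002307070705de198cfc7121ba620044ecececef00e39a92313a2b8c048c3c3c3c3c380805f1c3da18080114343434238387abebebebf010123939393834f1aeac29a620d9536466667270ef69e1df5dd246beb688808080808080b2b2804e1c4e809101010101003901c9003839010122a2a2a2a2a2520110711111b2024595959595937c0271e8e1696c048a1a1a1a1c3a1a11c1c5f1c5f8091c9c9c9c9003838383838383901239393937f431702c28231dd7d3e4646464725c5b5f54564fc5bf3808b2b2b2b2b2b2804e1c1c4e4e809101010101010101c9c90100390022020202020203939202020072004727272727272400e0e0e0e0e4008))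

end Pool.Agent.MOS.V6.S244
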