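import Pool.Agent.Lib.MP_b520b2_co.V6.Crit

/-!
# Cells, group 3790
-/

set_option linter.all false

namespace Pool.Agent.MOS.V6.S244

/-- a cell -/
noncomputable def k_wQ_26_wN_1_rb80330930v3_0 : KC := KC.mk (nat_lit 16) [nat_lit 0, nat_lit 1, nat_lit 2, nat_lit 3, nat_lit 4, nat_lit 5, nat_lit 6, nat_lit 7, nat_lit 8, nat_lit 9, nat_lit 10, nat_lit 11, nat_lit 12, nat_lit 13, nat_lit 14] (dCus (nat_lit 16) (nat_lit 17) (nat_lit 0x594027270e0e0e0e0e0e27272727404048264b232cea4252851d66615a470de280a229468014cfc9c997976565653333010101010100217d7d7d7f93939393930f0f0e8686860244cccccc04033b3b3a71a9a8e1aa733c048b2b2928580804e1c1c1c4e4e4e80808010390101010101010101010101010101172286868602017cf4f4707070f4f4f57e02459595927272727270e0e0e272740404008a1a1a180805f5f5f3d3d1c3d3d5f80801165656501009c9c9c383838389c9c9d002070707202020202020202020202020232472727272706ce965e0da52cc443c36ab48a1a1a1a1a1a1805f5f4d3d3d1c3d5f80103838383838390101010101010101011b220202020202020202039392020200720040e0e0e0e0e0e0e0e0e0e1d2bbabac94948))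

/-- a cell -/
noncomputable def k_wQ_26_wN_1_rb8033092fx3_0 : KC := KC.mk (nat_lit 16) [nat_lit 0, nat_lit 1, nat_lit 2, nat_lit 3, nat_lit 4, nat_lit 5, nat_lit 6, nat_lit 7, nat_lit 8, nat_lit 9, nat_lit 10, nat_lit 11, nat_lit 12, nat_lit 13, nat_lit 14] (dCus (nat_lit 16) (nat_lit 19) (nat_lit 0x10101010101010101010039010101c90120972c4cf3b50c4ad4a5a58869dc67960489252a00540404040404072727240400e0e0e0e40485fe4d3c3b2b2b2b2b2a4a4a191918e8090c1c93d6f01454949816d3f31011703012197938b83837b46a69e8662020602020242a43435c5c6c62d6eb64f27253d3c74048a1805f491c1c1c1c1c3d3d3d5f5f668010cfc9c9979765656533330101010101012266666602019d9d9d38d4d470d5399e0242ff2727272727261e1e1e1d0d0d0c04008a1a1a180805f3d3d1c1c1c3d3d3d5f80914343430100bebebe7a7a387a7abf01002070707202020202020202020202020232472727272706ce965e0da52cc443c36ab48a1a1a1a1a1a1805f5f4d3d3d1c3d5f80103838383838390101010101010101011b220202020202020202039392020200720040e0e0e0e0e0e0e0e0e0e1d2bbabac94948))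

/-- a cell -/
noncomputable def k_wQ_26_wN_1_rb8033092dx3_0 : KC := KC.mk (nat_lit 16) [nat_lit 0, nat_lit 1, nat_lit 2, nat_lit 3, nat_lit 4, nat_lit 5, nat_lit 6, nat_lit 7, nat_lit 8, nat_lit 9, nat_lit 10, nat_lit 11, nat_lit 12, nat_lit 13, nat_lit 14] (dCus (nat_lit 16) (nat_lit 19) (nat_lit 0x133333300ce9c6a38387e6a9cb6cecf0120982c0cc3a1044914459184691c47920489252a0054040404040434072400e400e4040404008519797afc7c7c7c7c7cce4c7af979280914300be9238383838387a7a7abebecd01219f93932f2ecacaca666602020202020242fafafaff27272727261e1e1d0d0d0c04899999980806767674e35351c354e678090bfc9c9c9c9c9c98787878743434301002286868602017cf4f4707070f4f4f57e02459595927272727270e0e0e272740404008a1a1a180805f5f5f3d3d1c3d3d5f80801165656501009c9c9c383838389c9c9d002070707202020202020202020202020232472727272706ce965e0da52cc443c36ab48a1a1a1a1a1a1805f5f4d3d3d1c3d5f80103838383838390101010101010101011b220202020202020202039392020200720040e0e0e0e0e0e0e0e0e0e1d2bbabac94948))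

end Pool.Agent.MOS.V6.S244
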