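import Pool.Agent.Lib.MP_b520b2_co.V6.Crit

/-!
# Cells, group 3806
-/

set_option linter.all false

namespace Pool.Agent.MOS.V6.S244

/-- a cell -/
noncomputable def k_wQ_26_wN_1_rb8033094400v4_0 : KC := KC.mk (nat_lit 18) [nat_lit 0, nat_lit 1, nat_lit 2, nat_lit 3, nat_lit 4, nat_lit 5, nat_lit 6, nat_lit 7, nat_lit 8, nat_lit 9, nat_lit 10, nat_lit 11, nat_lit 12, nat_lit 13, nat_lit 14, nat_lit 15, nat_lit 16] (dCus (nat_lit 18) (nat_lit 28) (nat_lit 0x1c0701c07026499bd2ebddb11b32ddc1a86b5e73a0a2e9438390101010101c9c9c9c9c9c9c9c901010120707070707070ecececececece8e8e969ea66450d0d0d0d0c02f9e9e8e1e9e9e9e9eafc040489999999999991c1c3535354e4e67676780809101010101010101010101c9c901003901c901232b2b28d8d8d8d8d8d8d8d870d8da0202020044ecececececdae9e0e1797a1b1b32533364048c4c4c41c272d424a5555656b72858e83938011c9c9c9c90101003838383838383838383900227e7e7e7e7e326a15ed4d21a548717d899200465e5e5e5ccb39a9a8e27339b1b1a9aa733c0081c1c1c1c2929415367646a728471948d9494117373737325251cc692f89ac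e72a8387293002202020202020202020202020202007202020a44040401e9e9ec061c061c048af37c00e2740481c1c1c80808080808080808080808080808b9101010101010101c9c9c9c9c900383838390122020202020202020202020393939200720202450d0d0d0d0d0d0d0c0402faf9e8e0e1eafc0485f5f5f5f5f5f5f5f5f5f8080a1c3e4c3a18091656565656565009c9c9c9c3838389c9c9d00228686868686017cf4f4f4f470f4f4f57d7e02433b3b3b3b3b3f27265e5d959594cccc0404048a1a1a1a1a1a1a1a1805f5f4d3d3d1c3d5f80916565656565656565009c9c9c9c389c389d00217d7d7d7d7d7d7d7d7f93930f0f0e868686024404040404040404040404072724040400e4008))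

end Pool.Agent.MOS.V6.S244
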