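import Pool.Agent.Lib.MP_b520b2_co.V6.Crit

/-!
# Cells, group 3848
-/

set_option linter.all false

namespace Pool.Agent.MOS.V6.S244

/-- a cell -/
noncomputable def k_wQ_26_wN_1_rb803308130543x2_0 : KC := KC.mk (nat_lit 16) [nat_lit 0, nat_lit 1, nat_lit 2, nat_lit 3, nat_lit 4, nat_lit 5, nat_lit 6, nat_lit 7, nat_lit 8, nat_lit 9, nat_lit 10, nat_lit 11, nat_lit 12, nat_lit 13, nat_lit 14] (dCus (nat_lit 16) (nat_lit 25) (nat_lit 0x4cccd9594ccccccd4cc1222a0e8e33c0082c4c1348e33d1154d9575e1996e9db7f21d8fa8014699a6699ba73a0890a7cadaf0cfb8cf6c2922d0028ac2f0cc388f843d264f55a605a873df689252a0051a2689a4699e88aa6cabaf0ccb74edbf90ec7d400aa4a4abab8c67411c68574f6c7468868011bbbb010046464640463894d6fd00fd01207072020202020393920202020202020240e0e0e0e4040727272404040404040404880808080e480801c4e4e4e4e2d1c4e8091656565652d0101010100bc58387ce10020707070707393939393939392cacaca02461e1e1e1d0d0c02f9e8e0e1e9ec02fc0081c1c1c1c80808080e4e4e4e4e4801c8091c9c9c9c9c9c901003838383838383900229696969696960121212121235f929a004535353535353534239b98e1a8e33ccc0088080808080808080bcbc80441c30448091bbbbbbbbbbbbc9b79d7955332f0cc69922cacacacacacaca01387070713a013a00450d0d0d0d0d0d0d0d0c02f9e8e1eafc00880808080808080808080e4e4801c1c80909c9c9c9c9c9c9c9dc9c965c965656500220202020202020202039392020200720240e0e0e0e0e0e0e0e0e0e1d2bbabac94948))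

/-- a cell -/
noncomputable def k_wQ_26_wN_1_rb803308130543x2_1 : KC := KC.mk (nat_lit 16) [nat_lit 0, nat_lit 1, nat_lit 2, nat_lit 3, nat_lit 4, nat_lit 5, nat_lit 6, nat_lit 7, nat_lit 8, nat_lit 9, nat_lit 10, nat_lit 11, nat_lit 12, nat_lit 13, nat_lit 14] (dCus (nat_lit 16) (nat_lit 26) (nat_lit 0x2b6b6b6b6b6b6b60202014d4c709d4e0041b06c1b06c1cc7ea389e2b8be344e43dd0a48f400a2c4c1348e33d1154d9575e1996e9db7f21d8fa801454976669be78a1c96294b430cd5ba0fac3b25d002a4a48798a48f9b0f0f8714d39bed9ba024727272400e0e0e0e0e0e0e0e0e0e4040489999b2b29999999a998244541d1c6780914949575718ce8238d0ae9ed8e8d10d0023777602008c8c8c808c7129adfa01fa0240e0e4040404040727240404040404040481c1c1c1c8080e4e4e4808080808080809101010101c90100389c9c9c9c5a389d0122cacacaca5a020202020178b070f9c20040e0e0e0e0e727272727272725959594048c3c3c3c3a1a1805f3d1c1c3d3d805f80103838383901010101c9c9c9c9c900390123939393939392020070707070707072004535353535353534239b98e1a8e33ccc0088080808080808080bcbc80441c30448091bbbbbbbbbbbbc9b79d7955332f0cc69922cacacacacacaca01387070713a013a00450d0d0d0d0d0d0d0d0c02f9e8e1eafc00880808080808080808080e4e4801c1c80909c9c9c9c9c9c9c9dc9c965c965656500220202020202020202039392020200720240e0e0e0e0e0e0e0e0e0e1d2bbabac94948))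

end Pool.Agent.MOS.V6.S244
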