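import Pool.Agent.Lib.MP_b520b2_co.V6.Crit

/-!
# Cells, group 3850
-/

set_option linter.all false

namespace Pool.Agent.MOS.V6.S244

/-- a cell -/
noncomputable def k_wQ_26_wN_1_rb803308130550v2_0 : KC := KC.mk (nat_lit 11) [nat_lit 0, nat_lit 1, nat_lit 2, nat_lit 3, nat_lit 4, nat_lit 5, nat_lit 6, nat_lit 7, nat_lit 8, nat_lit 9] (dCus (nat_lit 11) (nat_lit 13) (nat_lit 0x39c9c9c9c9c9c9c965650120fb4653c581846a1cc7c2148e280149dc9c9c9c9979797653300239202020202007070707202472404040404040400e404008808080bcbc80441c30448091bbc9b79d7955332f0cc69922caca01387070713a013a00450d0d0d0c02f9e8e1eafc0088080808080e4e4801c1c80909c9c9dc9c965c96565650022020202039392020200720240e0e0e0e0e1d2bbabac94948))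

/-- a cell -/
noncomputable def k_wQ_26_wN_1_rb803308130550v2_1 : KC := KC.mk (nat_lit 11) [nat_lit 0, nat_lit 1, nat_lit 2, nat_lit 3, nat_lit 4, nat_lit 5, nat_lit 6, nat_lit 7, nat_lit 8, nat_lit 9] (dCus (nat_lit 11) (nat_lit 13) (nat_lit 0x277272727265e5e5d94cc0483e9084a54a5ad946f5ec86e4aa0051f48ea80b1b0cd4b9af8c2b1cd002b9202020202007070707202472404040404040400e404008808080bcbc80441c30448091bbc9b79d7955332f0cc69922caca01387070713a013a00450d0d0d0c02f9e8e1eafc0088080808080e4e4801c1c80909c9c9dc9c965c96565650022020202039392020200720240e0e0e0e0e1d2bbabac94948))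

end Pool.Agent.MOS.V6.S244
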