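import Pool.Agent.Lib.MP_b520b2_co.V6.Crit

/-!
# Cells, group 3856
-/

set_option linter.all false

namespace Pool.Agent.MOS.V6.S244

/-- a cell -/
noncomputable def k_wQ_26_wN_1_rb80330813033508x2_0 : KC := KC.mk (nat_lit 14) [nat_lit 0, nat_lit 1, nat_lit 2, nat_lit 3, nat_lit 4, nat_lit 5, nat_lit 6, nat_lit 7, nat_lit 8, nat_lit 9, nat_lit 10, nat_lit 11, nat_lit 12] (dCus (nat_lit 14) (nat_lit 19) (nat_lit 0x14d16b4b4d0d08a843884b4f5310020c2374f84513053168611a0729f487a48a0050e404040404040404040404040464880808080808080801c1c8080e4801165009c38389c9c9d01010101010022caca02020138707070713a02020040e0e0e1a1a1a2632323e3e3e3e4a486767e4e4e4cbb2b2b2999999808010383839c9c9c9c9c96565656565012212bababa01f0d202007171f12e024595959595940270e2727272727404880808080e4e4e4e4e4e4801c1c801165656565009c9d009c389c9c9d01217d7d7d7f9393930f0e8686020200471f1f1f1f1f1f266d953453d2fa2c8b2b2b2b2b2804e1c1c1c4e804e80914343434343434300be7a387abf002139393939393b9392cb92cacaca0044040404040404072724040400e4048))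

end Pool.Agent.MOS.V6.S244
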