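import Pool.Agent.Lib.MP_b520b2_co.V6.Crit

/-!
# Cells, group 3858
-/

set_option linter.all false

namespace Pool.Agent.MOS.V6.S244

/-- a cell -/
noncomputable def k_wQ_26_wN_1_rb80330813033514x2_0 : KC := KC.mk (nat_lit 14) [nat_lit 0, nat_lit 1, nat_lit 2, nat_lit 3, nat_lit 4, nat_lit 5, nat_lit 6, nat_lit 7, nat_lit 8, nat_lit 9, nat_lit 10, nat_lit 11, nat_lit 12] (dCus (nat_lit 14) (nat_lit 19) (nat_lit 0x59595959404040402740270e27400831cdc3c50b4953f56579675c17ae1b92e80140402010080b12114d0905c3862145c0093aceb3ad0547d42595886adce7c6158e68015c9c9010038383838383839010101220202020201393a02cb92ca02ca0045959595940272740270e2727274048e4e4e4e480808080801c808080801101010101010101010101c900390123939393939200707070707070720042fafafaff2727261e1d0d0c04040084c4c4c4c6d6d6d89a1b9e4a6858091c7c7c7c7c7c7c99b654d14f4be8b22cacacacaca01387070713a013a02450d0d0d0d0d0d0c02f9e8e1eafc0088080808080808080e4e4801c1c80909c9c9c9c9c9dc9c965c96565650022020202020202039392020200720240e0e0e0e0e0e0e0e1d2bbabac94948))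

/-- a cell -/
noncomputable def k_wQ_26_wN_1_rb8033081301x4_0 : KC := KC.mk (nat_lit 12) [nat_lit 0, nat_lit 1, nat_lit 2, nat_lit 3, nat_lit 4, nat_lit 5, nat_lit 6, nat_lit 7, nat_lit 8, nat_lit 9, nat_lit 10] (dCus (nat_lit 12) (nat_lit 15) (nat_lit 0x7a9f287248a22dcccb88f7c3924d0028140a06090906c482d1c914a260049da822389fac4c2b50e63e10a471400ab9b9b98055551c55476c728011c9c9c900383901003900390021393b9393939392cacaca020040e0e7272595959595959594008808080801c1c1c1c8080e48011c9c9c9003838383838383901213131b5b5b62686e7929a1602471f1f1f1f266d953453d2fa2c8b2b2b2804e1c1c1c4e804e8091434343434300be7a387abf00213939393b9392cb92cacaca0040e0e0e0e0e0e1d2bbabac94948))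

/-- a cell -/
noncomputable def k_wQ_26_wN_1_rb8033081301x4_1 : KC := KC.mk (nat_lit 12) [nat_lit 0, nat_lit 1, nat_lit 2, nat_lit 3, nat_lit 4, nat_lit 5, nat_lit 6, nat_lit 7, nat_lit 8, nat_lit 9, nat_lit 10] (dCus (nat_lit 12) (nat_lit 18) (nat_lit 0x1393b0b0b93928a02020202004000000f0f100d898623c23948c009068381e332c1f544c7764466d801225128944a4b38a5d7ce5864cf0024eb40d1b4d1555d997701ea8523ea0054040400e407240724072404048e4e4e4e480808080801c1c8011c9c9c83839010101649c390122020202007202020392020202440405972727259402727274008e4e4e4801c1c80801c801c80903839c9c96565656565656500220202020070707072020392004262636b6b6c4d0dcf25342c048e3e3e3e3e4cdb2a68a7a5f4591434343434300be7a387abf00213939393b9392cb92cacaca0040e0e0e0e0e0e1d2bbabac94948))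

end Pool.Agent.MOS.V6.S244
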