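import Pool.Agent.Lib.MP_b520b2_co.V6.Crit

/-!
# Cells, group 3871
-/

set_option linter.all false

namespace Pool.Agent.MOS.V6.S244

/-- a cell -/
noncomputable def k_wQ_26_wN_1_rb803308130414x2_0 : KC := KC.mk (nat_lit 18) [nat_lit 0, nat_lit 1, nat_lit 2, nat_lit 3, nat_lit 4, nat_lit 5, nat_lit 6, nat_lit 7, nat_lit 8, nat_lit 9, nat_lit 10, nat_lit 11, nat_lit 12, nat_lit 13, nat_lit 14, nat_lit 15, nat_lit 16] (dCus (nat_lit 18) (nat_lit 28) (nat_lit 0x3a3a3a3adbdbdbdbdadadae4d0bc9e949e80904d93650970679d482a409daacb8b1ad8baafcc3b255002883268b1320df3f1194d9545c9906b9cc7aa0889a44a0050e0e0e0e0e0e0e1b252eb8c23bbf3bbf45c8c867676767e4e4cbcbb2b2999999999999808011c9c9c90038383838383838383838383901002070720202020202020202020202020202022a44040404040404040727272727272400e0e404880808080808080e4e4e4e4e4e4801c801c80911919191872d6d6ef01005438ccb500ff010122cacacaca020139393939393938713a0202004404040404040404040400e0e40727272404008808080808080808080808080808080801c8491c9c9c9c9c9010101010101003838383839002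0d0d0d0d0d3535353535353937322c28292024595959595959404027270e0e27274040274008b2b2b2b2b2b2b2b2804e4e4e4e1c1c1c4e8091c9c9c9c9c9c9c900383838383838383839002070707072020202020202020202020202022e42fafafafafaff272727261e1e1d0d0c04040488080808080808080b2e4e4b2804e80804e8090bebebebebebebebfc9c9c987874343010101238f8f8f8f8f8f8f8f8f8f9336ca9a29e97d16459595959595959595940270e0e0e2740274048a1a1a1a1a1a1a1a1a1a1a1805f3d1c3d5f80109c9c9c9c9c9c9c9c9c9dc9c965c9656565002202020202020202020202039392020200720240e0e0e0e0e0e0e0e0e0e0e0e1d2bbabac94948))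

end Pool.Agent.MOS.V6.S244
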