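import Pool.Agent.Lib.MP_b520b2_co.V6.Crit

/-!
# Cells, group 3876
-/

set_option linter.all false

namespace Pool.Agent.MOS.V6.S244

/-- a cell -/
noncomputable def k_wQ_26_wN_1_rb8033080e35x3_0 : KC := KC.mk (nat_lit 11) [nat_lit 0, nat_lit 1, nat_lit 2, nat_lit 3, nat_lit 4, nat_lit 5, nat_lit 6, nat_lit 7, nat_lit 8, nat_lit 9] (dCus (nat_lit 11) (nat_lit 19) (nat_lit 0x1010101c901c90038bf0100203a1d12124dc935db8e1935c0090e87448493724d76e3864d70024f94492c53970649b879a15912801475c9c9918f8d8f8d571d0022020393939392007070720047272400e0e0e0e300e404008808080e480e4801c80e48010383901010101010101011b22cacac87071393939393a00467e7e3e7ccb4242b0e1e31c8b2b2b2b2804e4e4e1c4e801151515150d8b0d838b129002286868686017cf470f57e02440404040407272400e0e40484e4e4ee4e4b2e4b2b2b2801101010101c9c90101003901207070707070e95dd5d64a4a462e2e2e2e2e2e2d3c4b59bc8))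

end Pool.Agent.MOS.V6.S244
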