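import Pool.Agent.Lib.MP_b520b2_co.V6.Crit

/-!
# Cells, group 3878
-/

set_option linter.all false

namespace Pool.Agent.MOS.V6.S244

/-- a cell -/
noncomputable def k_wQ_26_wN_1_rb8033080e3206x2_0 : KC := KC.mk (nat_lit 13) [nat_lit 0, nat_lit 1, nat_lit 2, nat_lit 3, nat_lit 4, nat_lit 5, nat_lit 6, nat_lit 7, nat_lit 8, nat_lit 9, nat_lit 10, nat_lit 11] (dCus (nat_lit 13) (nat_lit 21) (nat_lit 0xe404040404040404040404044c8e4e3dad0c5bbb4a99c8a78675391858500bc7a38383a383a7cbf012202020072020202020202020210430b0b0f27244c8cccc4fc8c640483d3d3d3de4e4e4e4c3c3a1808091c9c9c7bdab91715f411efad09f22020202020392039200717e02004727270ede862dad44d453c33a8c81c1c808080808080808080808a9101010101010101c901c9003900220202020393939392007070720240e0e0e0e404040404040404046c8b2b2b2b2b21c1c4e4e4e4e4e80119f9f9f9f8f9f32d090ac3878c722cacacacacaca01393938713a00450d0d0d0d0d0c02f9e8e1eafc04880808080808080e4e4801c1c80909c9c9c9c9dc9c965c965656500220202020202039392020200720240e0e0e0e0e0e0e1d2bbabac94948))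

/-- a cell -/
noncomputable def k_wQ_26_wN_1_rb8033080e3205x2_0 : KC := KC.mk (nat_lit 12) [nat_lit 0, nat_lit 1, nat_lit 2, nat_lit 3, nat_lit 4, nat_lit 5, nat_lit 6, nat_lit 7, nat_lit 8, nat_lit 9, nat_lit 10] (dCus (nat_lit 12) (nat_lit 21) (nat_lit 0x404040725940272740272740483838e4e1d5c5b8a9999f838090383839c9c9c9c9c9c9c9010120739393939392cacacacaca0247272724040400e0e0e400e40085f5f5f3d6080a1c3e4c3a280107a7a7bc9c9c9c98787430100220202020392039200717e020247270ede862dad44d453c33a8c8808080808080e480e4801c8011010101c9c9c9c900383839012202020203920392007203920040e0e0e404040404040404046c8b2b2b2b21c1c4e4e4e4e4e80119f9f9f8f9f32d090ac3878c722cacacacaca01393938713a0045454545454362c360e2c4a4008808080808080e4e4801c1c80909c9c9c9dc9c965c9656565002202020202039392020200720240e0e0e0e0e0e1d2bbabac94948))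

/-- a cell -/
noncomputable def k_wQ_26_wN_1_rb8033080e23x3_0 : KC := KC.mk (nat_lit 19) [nat_lit 0, nat_lit 1, nat_lit 2, nat_lit 3, nat_lit 4, nat_lit 5, nat_lit 6, nat_lit 7, nat_lit 8, nat_lit 9, nat_lit 10, nat_lit 11, nat_lit 12, nat_lit 13, nat_lit 14, nat_lit 15, nat_lit 16, nat_lit 17] (dCus (nat_lit 19) (nat_lit 15) (nat_lit 0x3838383901010101c9c9c9c9c9c9c90101010121b1b1b1b1b1b39393934342a252a25252520202440404040404040404040724040724072400e40483c3c3c3c3c3c4d4d2c2c1c76694c423c5c83901101010101010165649c9c3901009c9c38390101219595959596cecececececf934ebaba92a25600472727272727240407272727272724040400e40081c1c1c1c1c1c1c1c1c1c80808080808080808d91656565656565656565656438389c9c9c9c9d0022cacacacacacacacacacacaca01393938713a00450d0d0d0d0d0d0d0d0d0d0d0c02f9e8e1eafc04880808080808080808080808080e4e4801c1c80909c9c9c9c9c9c9c9c9c9c9dc9c965c965656500220202020202020202020202039392020200720240e0e0e0e0e0e0e0e0e0e0e0e0e1d2bbabac94948))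

end Pool.Agent.MOS.V6.S244
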