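import Pool.Agent.Lib.MP_b520b2_co.V6.Crit

/-!
# Cells, group 3911
-/

set_option linter.all false

namespace Pool.Agent.MOS.V6.S244

/-- a cell -/
noncomputable def k_wQ_26_wN_1_rb8033080c0cx3_0 : KC := KC.mk (nat_lit 13) [nat_lit 0, nat_lit 1, nat_lit 2, nat_lit 3, nat_lit 4, nat_lit 5, nat_lit 6, nat_lit 7, nat_lit 8, nat_lit 9, nat_lit 10, nat_lit 11] (dCus (nat_lit 13) (nat_lit 19) (nat_lit 0xd4d4d4d48670bf2d7bc97b2d00220202007070707072020203920241e9e9e9ef272727261d0d0d0c008e4c3801c1c801c808080808080110101010101c9c9c9003901c9002393937b531ef2ba865219e99d4e4727272404040400e0e0e0e4040088080801c808080808080808089103838390101010101010101011b239393920070720202020202020045959595940270e0e0e2740274008b2b2b2b2b21c1c4e4e4e4e4e80919f9f9f9f8f9f32d090ac3878c722cacacacacaca01393938713a004545454545454362c360e2c4a4008a1a1a1a1a1a1805f3d1c3d5f809101010101010101c9c900383901220202020202039392020200720240e0e0e0e0e0e0e1d2bbabac94948))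

/-- a cell -/
noncomputable def k_wQ_26_wN_1_rb8033080c0cx3_1 : KC := KC.mk (nat_lit 13) [nat_lit 0, nat_lit 1, nat_lit 2, nat_lit 3, nat_lit 4, nat_lit 5, nat_lit 6, nat_lit 7, nat_lit 8, nat_lit 9, nat_lit 10, nat_lit 11] (dCus (nat_lit 13) (nat_lit 19) (nat_lit 0x101010101010101c9c9c900390121a9a9a9a90ce17e5af792f65a0244040400e0e0e0e0e4040407240483d3d3d3de4e4e4e4c3a1a1a18011c98700383900390101010101002202020202039393920072039200472726f6a63de5750ca433d33a9c8e4e4e4808080801c1c1c1c8080110101003901010101010101011220707072020202020202020202364727272400e0e4040404040404008b2b2b2b2804e1c1c1c4e804e8011656565656438389c9c9c9c9d01233f3f3f3f1f3e65a1215870f18e4595959595959402727270e274008a1a1a1a1a1a1805f3d1c3d5f809101010101010101c9c900383901220202020202039392020200720240e0e0e0e0e0e0e1d2bbabac94948))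

end Pool.Agent.MOS.V6.S244
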