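import Pool.Agent.Lib.MP_b520b2_co.V6.Crit

/-!
# Cells, group 3929
-/

set_option linter.all false

namespace Pool.Agent.MOS.V6.S244

/-- a cell -/
noncomputable def k_wQ_26_wN_1_rb803308023223x2_0 : KC := KC.mk (nat_lit 15) [nat_lit 0, nat_lit 1, nat_lit 2, nat_lit 3, nat_lit 4, nat_lit 5, nat_lit 6, nat_lit 7, nat_lit 8, nat_lit 9, nat_lit 10, nat_lit 11, nat_lit 12, nat_lit 13] (dCus (nat_lit 15) (nat_lit 34) (nat_lit 0x2cacaca0138707070713a0202020200472727272727272727272722b2b2b2b0892b8ce8788541c2f5f5d3f3e78778090cccd31315507bdc9b54b030537470021320202025eb66edb5f93428216ba00450cecdcbc8f2426c6c545638403ab3481c1c1c1c80e4e480808080e4e4e4809038387ec4de389adefef71db761c301221a1a1a19b68c90710519e9eacdce0247272400e0e0e0e0e0e0e404040404008e4e3ded9d3cdc1baaea39587786a5791c9bfb7ab9b8b796351392306ecd4b32072020202020202020202020202023647272726feae6615c5751cbc53d35aac87878788bc4c4d3e4ab707d33485c809038383901c9c9c9c9c9c9c9c9003901213939393a020202cb93939392ca020045959595940270e0e0e0e2727404040488080808080808080804e1c4e80b28090cececececfc90101010101011b010123939392007070707070707202020200425a5a5a5a5a5bed6d958726851c04048e4e4e4e4801c1c1c1c1c1c1c1c80801165656565009c38389d0101009d010020707070739393939392cacacacaca024272727272727727265d959594cc6c048b2b2b2b2b2b2804e1c4e4e8080808011656565656565009c3838389d009d0122cacacacacacac87071393939393a0245959595959595959402727270e274008a8a8a8a8a8a8a8a86c586c1c58948011434343434343434300be7a387abf01220202020202020202039392007072024404040404040404072724040400e4048))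

end Pool.Agent.MOS.V6.S244
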