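import Pool.Agent.Lib.MP_b520b2_co.V6.Crit

/-!
# Cells, group 3934
-/

set_option linter.all false

namespace Pool.Agent.MOS.V6.S244

/-- a cell -/
noncomputable def k_wQ_26_wN_1_rb803308114bx3_0 : KC := KC.mk (nat_lit 11) [nat_lit 0, nat_lit 1, nat_lit 2, nat_lit 3, nat_lit 4, nat_lit 5, nat_lit 6, nat_lit 7, nat_lit 8, nat_lit 9] (dCus (nat_lit 11) (nat_lit 18) (nat_lit 0x2ff2727261d0d0c0404040080b05854503b27184e8874d30024ff4713a5617d689c77b2118da80147a7bc9c9c9c9878743430020707072020202020393920047272724040400e0e0e404008e3e3e3e4d1b4a79b8a684291c9c9c9bfa579592d06c88b22cacacacaca020138713a0040e0e40404040404040404748e4e4e2decab3a5917c64479038383901c9010101010101239393920200707072020200459595959402727270e274048a8a8a8a86c586c1c5894801101010101c9c9010100390123939393920070707070720040e0e0e0e0e1d2bbabac94948))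

/-- a cell -/
noncomputable def k_wQ_26_wN_1_rb803308114bx3_1 : KC := KC.mk (nat_lit 11) [nat_lit 0, nat_lit 1, nat_lit 2, nat_lit 3, nat_lit 4, nat_lit 5, nat_lit 6, nat_lit 7, nat_lit 8, nat_lit 9] (dCus (nat_lit 11) (nat_lit 17) (nat_lit 0x3d3de4e4e4e4c3c3a1a180900f078ccb07d5131dd9119b60049f68d272ac2eece384f441d1dd0028707072020202020393920047272724040400e0e0e404008e3e3e3e4d1b4a79b8a684291c9c9c9bfa579592d06c88b22cacacacaca020138713a0040e0e40404040404040404748e4e4e2decab3a5917c64479038383901c9010101010101239393920200707072020200459595959402727270e274048a8a8a8a86c586c1c5894801101010101c9c9010100390123939393920070707070720040e0e0e0e0e1d2bbabac94948))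

/-- a cell -/
noncomputable def k_wQ_26_wN_1_rb803308114bx3_2 : KC := KC.mk (nat_lit 12) [nat_lit 0, nat_lit 1, nat_lit 2, nat_lit 3, nat_lit 4, nat_lit 5, nat_lit 6, nat_lit 7, nat_lit 8, nat_lit 9, nat_lit 10] (dCus (nat_lit 12) (nat_lit 12) (nat_lit 0x801c80808080808080808082107a9f48ea80b1b0cd4b9af8c2b1cd002872020202020202020202022e4595940270e0e0e0e0e274040083d3d3de4e4e4e4c3c3a1a18090383838390101010101c9c90023939393937f4af2b25a0d911645959595959594040270e274008e4e4e4e2decab3a5917c6447916565656565009c9c9c389d012393939393920070707070720040e0e0e0e0e0e1d2bbabac94948))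

end Pool.Agent.MOS.V6.S244
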