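import Pool.Agent.Lib.MP_b520b2_co.V6.Crit

/-!
# Cells, group 3948
-/

set_option linter.all false

namespace Pool.Agent.MOS.V6.S244

/-- a cell -/
noncomputable def k_wQ_26_wN_1_rb803308114a00v2_0 : KC := KC.mk (nat_lit 14) [nat_lit 0, nat_lit 1, nat_lit 2, nat_lit 3, nat_lit 4, nat_lit 5, nat_lit 6, nat_lit 7, nat_lit 8, nat_lit 9, nat_lit 10, nat_lit 11, nat_lit 12] (dCus (nat_lit 14) (nat_lit 23) (nat_lit 0x101010100be7a387abebf0101430020ed3b4ed41d214ed555c1906c5e083e44a005190711f88b260a52c8c0b3edebd50bc89400a3f0fc3f4fe465345416c651bd79e118ee8014739ce73a1295a9ab7b22d9baafbc331dd002874778f8f8f8f8f8f938ecacaca0047272724040404040400e0e0e4040085f5f5f5fe4e4e4c3a1a1a18080809101010101009c389d0101016501012070707070707202020202039392024595959595959404040270e0e274048e4e4e4e4e4e4dfd2bcac9683644591656565656565656501009c389d0020707070707202020202020202023a47272727272716f6559d2c8be3223c8808080808080808080801c80e4801165656565656565009c9c9c389d0122a2a2a2a2a2a2a1b161b071625200440404040404040407272400e0e40484e4e4e4e4e4ee4e4b2e4b2b2b2801101010101010101c9c9010100390123939393939393920070707070720040e0e0e0e0e0e0e0e1d2bbabac94948))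

/-- a cell -/
noncomputable def k_wQ_26_wN_1_rb803308114a00v2_1 : KC := KC.mk (nat_lit 14) [nat_lit 0, nat_lit 1, nat_lit 2, nat_lit 3, nat_lit 4, nat_lit 5, nat_lit 6, nat_lit 7, nat_lit 8, nat_lit 9, nat_lit 10, nat_lit 11, nat_lit 12] (dCus (nat_lit 14) (nat_lit 25) (nat_lit 0xe0e61e1e1e1e1e1e1e1d1515140483a8ea3a8fc4613454576671c27a20e91e8014639bc7aa1893a8ab1b0ad3b92f5c2921d002a02020202013870713a013a02ca024727240404040400e404040404040081c1c1ce4e4e4e4e4e4e4e4e4b2801101010100be7a387abebf010143012074778f8f8f8f8f8f938ecacaca0047272724040404040400e0e0e4040085f5f5f5fe4e4e4c3a1a1a18080809101010101009c389d0101016501012070707070707202020202039392024595959595959404040270e0e274048e4e4e4e4e4e4dfd2bcac9683644591656565656565656501009c389d0020707070707202020202020202023a47272727272716f6559d2c8be3223c8808080808080808080801c80e4801165656565656565009c9c9c389d0122a2a2a2a2a2a2a1b161b071625200440404040404040407272400e0e40484e4e4e4e4e4ee4e4b2e4b2b2b2801101010101010101c9c9010100390123939393939393920070707070720040e0e0e0e0e0e0e0e1d2bbabac94948))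

/-- a cell -/
noncomputable def k_wQ_26_wN_1_rb803308114a00v2_2 : KC := KC.mk (nat_lit 14) [nat_lit 0, nat_lit 1, nat_lit 2, nat_lit 3, nat_lit 4, nat_lit 5, nat_lit 6, nat_lit 7, nat_lit 8, nat_lit 9, nat_lit 10, nat_lit 11, nat_lit 12] (dCus (nat_lit 14) (nat_lit 31) (nat_lit 0x165656565650165009d009c389d0120c837cf64412c5216560da1701e585245a0050e8ef260e0e0e961616150d0d0c0489191bbbbaa9842241c556f688080903901010101010101010101010115239392ca0138707070707070713a0241f1f727272727261d150d0c0404048e480801c1c1c1c1c1c1c808080801038383987878787878787878743012070730f0f0f0f0f0f0f0e8a8a8a0244040404040270e0e274027405940481c1c1ce4e4e4e4e4e4e4e4e4b2801101010100be7a387abebf010143012074778f8f8f8f8f8f938ecacaca0047272724040404040400e0e0e4040085f5f5f5fe4e4e4c3a1a1a18080809101010101009c389d0101016501012070707070707202020202039392024595959595959404040270e0e274048e4e4e4e4e4e4dfd2bcac9683644591656565656565656501009c389d0020707070707202020202020202023a47272727272716f6559d2c8be3223c8808080808080808080801c80e4801165656565656565009c9c9c389d0122a2a2a2a2a2a2a1b161b071625200440404040404040407272400e0e40484e4e4e4e4e4ee4e4b2e4b2b2b2801101010101010101c9c9010100390123939393939393920070707070720040e0e0e0e0e0e0e0e1d2bbabac94948))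

end Pool.Agent.MOS.V6.S244
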