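import Pool.Agent.Lib.MP_b520b2_co.V6.Crit

/-!
# Cells, group 3954
-/

set_option linter.all false

namespace Pool.Agent.MOS.V6.S244

/-- a cell -/
noncomputable def k_wQ_26_wN_1_rb80330811502fx2_0 : KC := KC.mk (nat_lit 15) [nat_lit 0, nat_lit 1, nat_lit 2, nat_lit 3, nat_lit 4, nat_lit 5, nat_lit 6, nat_lit 7, nat_lit 8, nat_lit 9, nat_lit 10, nat_lit 11, nat_lit 12, nat_lit 13] (dCus (nat_lit 15) (nat_lit 28) (nat_lit 0x2cacacacacb9392cb92ca0138713a004176699d681a3699a96b5312d4394f641f20d0028e0380e03c9104b94c5a98869dc67960490a80146f1d67c20a8923e9fabebfb3edfbbeffc7f400a3b8ee3b8ee3f91c4e9585e1986eddf83a40a005182609c07fa3c9eab8bdb34dcbb2fcc3320d002b270efb9377576299da4a2a29fdc17047272725940402727272727274040400874716d698cafb2e4e4b0c7ce706a6f91c9c9c9c9c965009c9c9c9c9c9c9d0022828e9aa60d70708489c4e4c6021a50472727272400e0e0e0e0e0e0e0e0e40481c1c3d3d3d4e5f6f6f5f91a1c3b28091c9c9c9c9c901c9c90101010100390022ad9191f9f9f870f149ad9e70a59a024727272727272400e0e0e0e0e400e4008e2e2dbdaa4801c1e80808080808080110f0f16f4f6dc747e9cd23838f5312822bebe9f4f4f4f35a5fc71398d6a5d764404040404040272740405972594040084e4e4e4e4e4ee4e4cbb2b28d8d8d809165656565656565656501009c389d01239393939393938b7b2ace9645f1911e440404040404040404040400e40724008a8a8a8a8a8a8a8a86c586c1c589480109c9c9c9c9c9c9dc9c965c9656565002202020202020202039392020200720247272727272727272400e0e0e0e0e4008))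

/-- a cell -/
noncomputable def k_wQ_26_wN_1_rb80330811502fx2_1 : KC := KC.mk (nat_lit 15) [nat_lit 0, nat_lit 1, nat_lit 2, nat_lit 3, nat_lit 4, nat_lit 5, nat_lit 6, nat_lit 7, nat_lit 8, nat_lit 9, nat_lit 10, nat_lit 11, nat_lit 12, nat_lit 13] (dCus (nat_lit 15) (nat_lit 29) (nat_lit 0x1656565656565009c38389c9d009d0020d1380ef3fd104853b5757f685c3796078ee8014781e0781e07ca2a98aa4b9b32dfbcd06c89400a31cc7384fb45d3353d6b61da36fde884647a0050e0e0e0e0e7272727272727272594008b2b2b2b2b2b2804e1c1c1c1c4e4e8091c9c9c90101c9c9c90039010101010022cacacacacb9392cb92ca0138713a00464e1df726eeaec533b4945453fb82e08e4e4e4b280804e4e4e4e4e4e80808010e8e2dad3195f65c9c9618f9ce0d4df239393939392ca013939393939393a0045051d354c1ae0e1091389c98c0434a081c1c3d3d3d4e5f6f6f5f91a1c3b28091c9c9c9c9c901c9c90101010100390022ad9191f9f9f870f149ad9e70a59a024727272727272400e0e0e0e0e400e4008e2e2dbdaa4801c1e80808080808080110f0f16f4f6dc747e9cd23838f5312822bebe9f4f4f4f35a5fc71398d6a5d764404040404040272740405972594040084e4e4e4e4e4ee4e4cbb2b28d8d8d809165656565656565656501009c389d01239393939393938b7b2ace9645f1911e440404040404040404040400e40724008a8a8a8a8a8a8a8a86c586c1c589480109c9c9c9c9c9c9dc9c965c9656565002202020202020202039392020200720247272727272727272400e0e0e0e0e4008))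

/-- a cell -/
noncomputable def k_wQ_26_wN_1_rb80330811502fx2_2 : KC := KC.mk (nat_lit 16) [nat_lit 0, nat_lit 1, nat_lit 2, nat_lit 3, nat_lit 4, nat_lit 5, nat_lit 6, nat_lit 7, nat_lit 8, nat_lit 9, nat_lit 10, nat_lit 11, nat_lit 12, nat_lit 13, nat_lit 14] (dCus (nat_lit 16) (nat_lit 26) (nat_lit 0x202020202020202020202020202007236418a6298c6f1ec87250a12c4c3354e73e50b485400a3a8ea3a8ea3a9064893e5757c66dba78e0c9068014519786a9dc83a409caacba324d839cf9c31265002b939393920070707070707072039202004595959595940405959725940270e2740481c1c1c1c1c1ce4e4e4e4e4e4e4e4b2809165656565656565009c383838389c9d0123939393920203939392007202020202004595959595959727259725940270e274008c9c9c3bee4ddd5d8a676928a8a7f705c10e8e8e2dad3195f65c9c9618f9ce0d4df2393939393920070707070707070707202472727272727240727240404040400e4008abab64647e7e7e1c3c526b679c29668091c9c9c9c9c9c9c9003838383839003900221e1e1e2de9edb8e8fd39a47071ea6250457d7d7d3e9e9e9e6b4bf8e2731ad4baec8808080808080804e4e8080b2e4b28080116565656565656565656501009c389d0123939393939393938b7b2ace9645f1911e44040404040404040404040400e40724008a8a8a8a8a8a8a8a8a86c586c1c589480109c9c9c9c9c9c9c9dc9c965c96565650022020202020202020203939202020072024727272727272727272400e0e0e0e0e4008))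

end Pool.Agent.MOS.V6.S244
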