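import Pool.Agent.Lib.MP_b520b2_co.V6.Crit

/-!
# Cells, group 3987
-/

set_option linter.all false

namespace Pool.Agent.MOS.V6.S244

/-- a cell -/
noncomputable def k_wQ_26_wN_1_rb803308124100v3_0 : KC := KC.mk (nat_lit 11) [nat_lit 0, nat_lit 1, nat_lit 2, nat_lit 3, nat_lit 4, nat_lit 5, nat_lit 6, nat_lit 7, nat_lit 8, nat_lit 9] (dCus (nat_lit 11) (nat_lit 14) (nat_lit 0x8080a1c3e4e4a1803d3d80907da369dab6bdb36de3bb0747f400ae4e4b2804e4e804e1c4e8011010101010100383901c90020707203939347939202020240e40404040404040404045c81c1ce4e4e4b2e4b2b2b28091c3c9c1ad8d6b573306ca91218d8e1a1643935e055dce0240e0e40404040404040404648a8a8a8a86c586c1c5894809101010101c9c9010100390123939393920070707070720040e0e0e0e0e1d2bbabac94948))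

/-- a cell -/
noncomputable def k_wQ_26_wN_1_rb803308124100v3_1 : KC := KC.mk (nat_lit 11) [nat_lit 0, nat_lit 1, nat_lit 2, nat_lit 3, nat_lit 4, nat_lit 5, nat_lit 6, nat_lit 7, nat_lit 8, nat_lit 9] (dCus (nat_lit 11) (nat_lit 14) (nat_lit 0xb2b2804e1c1c4e4e4e8080907da369dab6bdb36de3bb0747f400a8080a1c3e4e4a1803d3d8091c9c965009c9d009c389d0022020202020200707203920040e0e40727268f272404040481c8080808080808080808b903839c9c9c965c965656501238793835b1ad6ae660d952240e0e40404040404040404648a8a8a8a86c586c1c5894809101010101c9c9010100390123939393920070707070720040e0e0e0e0e1d2bbabac94948))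

end Pool.Agent.MOS.V6.S244
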