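import Pool.Agent.Lib.MP_b520b2_co.V6.Crit

/-!
# Cells, group 3995
-/

set_option linter.all false

namespace Pool.Agent.MOS.V6.S244

/-- a cell -/
noncomputable def k_wS_32_wQ_26_wN_1_rb8033052f_d41_d10v4_0 : KC := KC.mk (nat_lit 15) [nat_lit 0, nat_lit 1, nat_lit 2, nat_lit 3, nat_lit 4, nat_lit 5, nat_lit 6, nat_lit 7, nat_lit 8, nat_lit 9, nat_lit 10, nat_lit 11, nat_lit 12, nat_lit 13] (dCus (nat_lit 15) (nat_lit 25) (nat_lit 0x16565656565010101009c9c38389d0020b1324e13e5114a5425998a6bdd47e61e93e80152d2d2d2d87432cd4ea90a8384e9101207202020202020202020202020202224595959402727270e0e2727270e274048808080d35e1c1c1c59438080808080909c9c9d010165c965656501010101012070720393920202020202020202020245959595959404040402727270e2740084e4e4e4e4e80b2e4e4e4b280808080910101010101c90039003901c901c90122868686868686017cf57cf470f57e0241e9e9ef272727272727261d0d0c04008e4e4e4e48080808080801c1c1c1c8011c9c9c9003838383839010101010100239393920202007070707070720202004666663605d7248ced4cee0cebd402b48e4e4e4e4e4801c1c1c1c1c1c1c1c8011010101010101c9c9c901003838390122cacacacaca02013a01387139393a00427272727274040595972725972594008b2b2b2b2b2b2b2804e4e4e4e1c4e80109c9c9c9c9c9c9dc9c965c9656565012202020202020202039392020200720240e0e0e0e0e0e0e0e0e1d2bbabac94948))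

end Pool.Agent.MOS.V6.S244
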