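import Pool.Agent.Lib.MP_b520b2_co.V6.Crit

/-!
# Cells, group 4010
-/

set_option linter.all false

namespace Pool.Agent.MOS.V6.S244

/-- a cell -/
noncomputable def k_wS_32_wQ_26_wN_1_rb80330500v7_0 : KC := KC.mk (nat_lit 17) [nat_lit 0, nat_lit 1, nat_lit 2, nat_lit 3, nat_lit 4, nat_lit 5, nat_lit 6, nat_lit 7, nat_lit 8, nat_lit 9, nat_lit 10, nat_lit 11, nat_lit 12, nat_lit 13, nat_lit 14, nat_lit 15] (dCus (nat_lit 17) (nat_lit 42) (nat_lit 0x13939393939393a0202cacacb92cb92ca02440404040404040400e0e0e0e4040407240081c808080808080808080808080808080889147470f0f0ef680ee7d473f57c966fe970022cacacacacacaca66019d38d470d5399e004171717171728a8a41f96970e1fa8b1c3ccc8e4e0dcd8d5c7c0b8afa89f978f82776c5d9101010100be387a6e38387abf014387430122cacacacacacaca013a0138707070713a02435353521a1a222b13b5fdef1f240de40c488aaaaaaa9d9dbdbdfe4b280624747756c7191c9c9c9c9c9c9c9c9c9c9c9c8bebebebebf21c5c5c5c5c4adc5595a0605923f927522024666462f1c2c6ca2f40118e13bab72832b648e4e4e48080801c1c1c1c1c80808080808011c9c9c9c90100383838383838383839010020f4f4f4f4f793939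393930f0f0f0e86860040e0e0e0e0e0e4040407272727272727240489e9e9f9f3b8c86a71c3e3d3d80968080821101010101010101c9c9003838390101010122020202007202020202020202020202020443636365ac0505b63f2404061d6e6c0414008b2b2b2b2808080804e4e1c4e8080804e801101010101010101009c38389c9d0165650122cacacacacaca0201387139387071393a02459595959594027270e0e27270e2740274048e4e4e4e4e4e4801c1c1c1c80801c1c1c8011010101010101009d01c96563016501010023939393920202007070707202020070720045959595959595940402727270e0e27404008a1a1a1a1a17676804c63381c2235737380909c9c9c9c9dc9c9afaf9363633133330101217d7d7d7f9393930e86868602020202020241a9a9a9a9ae5e5e5e5f1e5f265d9594cc0488080808080808080808080801c80e48080916565656565656565650101009c389c9d0020707072020202020202020202020202022a41e9e9e9e9ef272727272727261d0d0c04048e4e4e4e4e4e4e4801c1c1c1c1c1c1c1c80116565656565656501009d009c389c9c9d00213939393939393a0202cacb9392cb92ca004272727272727272727727259725959594048))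

end Pool.Agent.MOS.V6.S244
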