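import Pool.Agent.Lib.MP_b520b2_co.V6.Crit

/-!
# Cells, group 4033
-/

set_option linter.all false

namespace Pool.Agent.MOS.V6.S244

/-- a cell -/
noncomputable def k_wS_32_wQ_26_wN_1_rb8033053426x4_0 : KC := KC.mk (nat_lit 16) [nat_lit 0, nat_lit 1, nat_lit 2, nat_lit 3, nat_lit 4, nat_lit 5, nat_lit 6, nat_lit 7, nat_lit 8, nat_lit 9, nat_lit 10, nat_lit 11, nat_lit 12, nat_lit 13, nat_lit 14] (dCus (nat_lit 16) (nat_lit 15) (nat_lit 0x39010101010101010101010101010113209e2e0d23b1064813b55974649b1741f88824fa005595959595959404027274027270e2740481c808080808080808080808080808088915f5f5f5f5f00a24444389644a300af01239393876f472306e2be9e7a562df1ad6240e0e4040404040404040404040404045c85f5f5f5fe4e4e4e4e4c3c3a1a180808091c9c9c9c9c9c9003838383838383839002202020202020201387070713a0202ca02459595959595940402740270e2727274008b2b2b2b2b2b2b2b2804e4e4e4e1c4e80109c9c9c9c9c9c9c9dc9c965c965656501220202020202020202039392020200720240e0e0e0e0e0e0e0e0e0e1d2bbabac94948))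

/-- a cell -/
noncomputable def k_wS_32_wQ_26_wN_1_rb8033053426x4_1 : KC := KC.mk (nat_lit 18) [nat_lit 0, nat_lit 1, nat_lit 2, nat_lit 3, nat_lit 4, nat_lit 5, nat_lit 6, nat_lit 7, nat_lit 8, nat_lit 9, nat_lit 10, nat_lit 11, nat_lit 12, nat_lit 13, nat_lit 14, nat_lit 15, nat_lit 16] (dCus (nat_lit 18) (nat_lit 25) (nat_lit 0x7272727272404040400e0e0e0e0e0e0e4040082589f2c4ca38cfc4552e521625f1966c1ca7921893280144b13e58994719f88aa5ca42c4be32cd8394f243126500289d2749d2dcd13ad0547d3954d7565db976dfe8864ca0050fe4b95e639be7ba2094a84adaf8ceb7ef0c0712c9d400aa8a8a8a884603c2c214c1c49415f8368988011bbbbbbbbbadf0b36f9250dc8dc5046c67300219d9d9d9d9f932eca66020202020202020202441c1c1c1c1c1c1bc36a28e1faab43ec85340081c1c1c1c8080808080808080e4e4e480808091656565656565656565009c9c383838389d0122666666666664d470d53d39393939ba66020045959595940404040270e2740274040404040081c1c1c80808080808080808080808080808991656565656565656501009c9d009c9c389d0122bebebebebebebe01448888712c8946015e0247272727270ede8e460dc57d3cf4ac5be35ac481c1c1c1c808080808080808080808080808b90bebebebebebfc9c9c9c9c987874343010101239393939393939392007070707070707072004404040404040404040270e0e0e274040594048b2b2b2b2b2b2b2b280804e804e1c4e4e4e801165656565656565656565009c9c9c9c389d00213939393939393939393b9392cb92cacaca0240e0e0e0e0e0e0e0e0e0e0e0e1d2bbabac94948))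

/-- a cell -/
noncomputable def k_wS_32_wQ_26_wN_1_rb8033053426x4_2 : KC := KC.mk (nat_lit 17) [nat_lit 0, nat_lit 1, nat_lit 2, nat_lit 3, nat_lit 4, nat_lit 5, nat_lit 6, nat_lit 7, nat_lit 8, nat_lit 9, nat_lit 10, nat_lit 11, nat_lit 12, nat_lit 13, nat_lit 14, nat_lit 15] (dCus (nat_lit 17) (nat_lit 20) (nat_lit 0x20e0e0e0e0e0de1b51470fd55a1f6429a02411a5317e6c1e285a4a9fab2bd336debbf00c4726d002870707202020202020202039393920202024404040400e40407272727272727240404008b2b2b2b2b2b2b2b2804e4e1c1c1c1c4e809133333333326a386a9e9c9c9c9cdd33010022cacaca0202020138713a013a020202020040e0e404040404040404040404040404044c8b2b2b2b2b2b2b280804e4e804e4e1c4e80915f5f5f5f5f5f00a24444389644a300af0123939393876f472306e2be9e7a562df1ad6240e0e0e4040404040404040404040404045c85f5f5f5f5fe4e4e4e4e4c3c3a1a180808091c9c9c9c9c9c9c900383838383838383900220202020202020201387070713a0202ca0245959595959595940402740270e2727274008b2b2b2b2b2b2b2b2b2804e4e4e4e1c4e80109c9c9c9c9c9c9c9c9dc9c965c96565650122020202020202020202039392020200720240e0e0e0e0e0e0e0e0e0e0e1d2bbabac94948))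

end Pool.Agent.MOS.V6.S244
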