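import Pool.Agent.Lib.MP_b520b2_co.V6.Crit

/-!
# Cells, group 4188
-/

set_option linter.all false

namespace Pool.Agent.MOS.V6.S244

/-- a cell -/
noncomputable def k_wS_32_wQ_26_wN_1_rb8033061e1917x2_0 : KC := KC.mk (nat_lit 15) [nat_lit 0, nat_lit 1, nat_lit 2, nat_lit 3, nat_lit 4, nat_lit 5, nat_lit 6, nat_lit 7, nat_lit 8, nat_lit 9, nat_lit 10, nat_lit 11, nat_lit 12, nat_lit 13] (dCus (nat_lit 15) (nat_lit 17) (nat_lit 0x33b3f265d95959594cccc040404040482d4c1334e54252d54575665bd786058aa4fa005162669d283246a02babd32eda3a2f7435235002a0202013a013870713870713a02ca0047272400e0e0e0e0e0e0e0e0e0e0e40488080801c1c1c1c1c1c1c1c1c80e48090390101010101010101010101010117239200707070707070707070720392004727240400e0e0e0e0e0e0e0e0e0e40083b3b969492a8a5616180e4c5e0618091c96565009c9c383838383838389d0020f8f8fb939393938f0f0a86a286860242fafaff2727261e1e1d0d0d0d0d0c008e4e4e4e4d4c9c0b6aba29384756654909c9c9c9c9d01016565c9c965c96501213939393939393b9392cb92cacaca0240e0e0e0e0e0e0e0e0e1d2bbabac94948))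

/-- a cell -/
noncomputable def k_wS_32_wQ_26_wN_1_rb8033061e1917x2_1 : KC := KC.mk (nat_lit 15) [nat_lit 0, nat_lit 1, nat_lit 2, nat_lit 3, nat_lit 4, nat_lit 5, nat_lit 6, nat_lit 7, nat_lit 8, nat_lit 9, nat_lit 10, nat_lit 11, nat_lit 12, nat_lit 13] (dCus (nat_lit 15) (nat_lit 18) (nat_lit 0x801c80808080808080808080808085105899a74a0c91a80aeaf4cbb68e8bdd0d48d400ab68e5b20201c4e505c78787c787c80110101009d009c38389c38389d0165012393920070707070707070707070720244040400e0e0e0e0e0e0e0e0e407240481c808080808080808080808080808b91c9003838383838383838383901c9002393920200707070707070707070720041d9dcb4a495452b0b0c07262f030c048e4b2b2804e4e1c1c1c1c1c1c1c4e80107c7c7dc9c9c9c9c7878543514343012202020202039393939393939200720242fafaff2727261e1e1d0d0d0d0d0c008e4e4e4e4d4c9c0b6aba29384756654909c9c9c9c9d01016565c9c965c96501213939393939393b9392cb92cacaca0240e0e0e0e0e0e0e0e0e1d2bbabac94948))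

/-- a cell -/
noncomputable def k_wS_32_wQ_26_wN_1_rb8033061e1917x2_2 : KC := KC.mk (nat_lit 15) [nat_lit 0, nat_lit 1, nat_lit 2, nat_lit 3, nat_lit 4, nat_lit 5, nat_lit 6, nat_lit 7, nat_lit 8, nat_lit 9, nat_lit 10, nat_lit 11, nat_lit 12, nat_lit 13] (dCus (nat_lit 15) (nat_lit 21) (nat_lit 0x1010101c9c9c9010101c9c9c900390120b1334e9419235015d5e9976d1d17ba1a91a80155cc2c30094666638a4f0e310e31100207202020202020202020202020202324404040727272404040727240400e40488080801c1c1c1c1c801c80e4e4e4801039c9c9c9c9c96565656565656565012200720202020202020202020202021445b472d90100e27282e3c3c3e3c3e40088080804e804e1c1c4e1c1c4e80b28091c9c900383838383838383838383901220202007070707070707070720392024727240400e0e0e0e0e0e0e0e0e0e40083b3b969492a8a5616180e4c5e06180907c7c7dc9c9c9c9c7878543514343012202020202039393939393939200720242fafaff2727261e1e1d0d0d0d0d0c008e4e4e4e4d4c9c0b6aba29384756654909c9c9c9c9d01016565c9c965c96501213939393939393b9392cb92cacaca0240e0e0e0e0e0e0e0e0e1d2bbabac94948))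

/-- a cell -/
noncomputable def k_wS_32_wQ_26_wN_1_rb8033061e1917x2_3 : KC := KC.mk (nat_lit 15) [nat_lit 0, nat_lit 1, nat_lit 2, nat_lit 3, nat_lit 4, nat_lit 5, nat_lit 6, nat_lit 7, nat_lit 8, nat_lit 9, nat_lit 10, nat_lit 11, nat_lit 12, nat_lit 13] (dCus (nat_lit 15) (nat_lit 22) (nat_lit 0x3de4e4e4e4e4e4e4e4c3c3c3a18080905899a74a0c91a80aeaf4cbb68e8bdd0d48d400ab2b2804e1c4e1c1c4e4e4e4e804e809103733babab3aaa3a3872aaaaaaab012202020393939202020393939200720245730b0c02519998e293c38c438c440081c808080808080808080808080808c910101003838383839003901c9c9c90020739393939392cacacacacacacaca024400e4040404040404040404040404288b68e5b20201c4e505c78787c787c80110101009d009c38389c38389d0165012393920070707070707070707070720244040400e0e0e0e0e0e0e0e0e40724048e4e480801c1c1c1c1c1c1c1c1c1c80107c7c7dc9c9c9c9c7878543514343012202020202039393939393939200720242fafaff2727261e1e1d0d0d0d0d0c008e4e4e4e4d4c9c0b6aba29384756654909c9c9c9c9d01016565c9c965c96501213939393939393b9392cb92cacaca0240e0e0e0e0e0e0e0e0e1d2bbabac94948))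

end Pool.Agent.MOS.V6.S244
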