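import Pool.Agent.Lib.MP_b520b2_co.V6.Crit

/-!
# Cells, group 4194
-/

set_option linter.all false

namespace Pool.Agent.MOS.V6.S244

/-- a cell -/
noncomputable def k_wS_32_wQ_26_wN_1_rb80330603x7_0 : KC := KC.mk (nat_lit 21) [nat_lit 0, nat_lit 1, nat_lit 2, nat_lit 3, nat_lit 4, nat_lit 5, nat_lit 6, nat_lit 7, nat_lit 8, nat_lit 9, nat_lit 10, nat_lit 11, nat_lit 12, nat_lit 13, nat_lit 14, nat_lit 15, nat_lit 16, nat_lit 17, nat_lit 18, nat_lit 19] (dCus (nat_lit 21) (nat_lit 34) (nat_lit 0x3e3e3e3e3e3ee4e4e4e4e4e4c3c3c3a1a1a1a1a18090338ce3910c4d15c611bc7d22c9929eb6312d3386f040d164a5400a5f5f5f5f5f5fe4e4e4e4e4e4c3c3c3a1a1a1a1a18011c9c9c9c9c9c9003838383838383838390101010100217171717171b9ededee828686969696ff92fe6dda00466e6d649c0c0be2d2c8e1f2fa626373bab2d2f404008a1a1a1a1a1a1786f5e3d3d3d1c3d5f6780a1a1808011c9c9c901010101003838383839010101010101010023939393939202020070707070707070707202020200472723030303030303030303030303030303030304008e4e4e4e4e4e48080808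080801c1c1c1c1c1c1c1c80116565656565656565656565009c9c9c383838389d0022c2c2c2c2c2c2c2c0f0ad49347109a6160191d19200450d0d0d0d0d0d0c02f9e8e0e1eafafc0404040404008b2b2b2b2b2b2a687634e4e351c1c4e4e4e6767808011010101009c9c9c383838389c9d010165650165010122cacacacaca6666cacaca659d3938707070713a020040e0e0e0e0e0e0e404040727272727272727272724048e4e4e4e4e4e4e4e41c1c8080808080801c1c1c1c801101010101010101010100383839010101c9c9c9c90022cacacacacaca6e351c713a0202020202020202020040e0e0e0e0e0e0e0e40727272727272727272727240489a9a9a9a9ea4a95d5d272c3b464b516f801c232a99113f3f3f3f3f3f3f0d0c6a3876a89c6a9ed12701010022cacacacacacacacaca0139393939393870713a0200459595959595959594040270e0e0e0e0e0e2727404008676767676767676767e4e4cbcbb2b299999980808091c9c9c9c9c9c9c9c838383901010101003839010100237f7f7f7f7f7f5f931aa682a28aa609f1c96d7d5d7e4727272727272727270eb67615d5852ccc6c13c352c485f5f5f5f5f5f5f5f5fe4e4e4c3c3c3a1a1a1a1a1809101010101010101010101010038383838390101c900213939393939393939393939393b9392cb92cacaca0240e0e0e0e0e0e0e0e0e0e0e0e0e0e0e1d2bbabac94948))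

end Pool.Agent.MOS.V6.S244
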