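import Pool.Agent.Lib.MP_b520b2_co.V6.Crit

/-!
# Cells, group 4196
-/

set_option linter.all false

namespace Pool.Agent.MOS.V6.S244

/-- a cell -/
noncomputable def k_wS_32_wQ_26_wN_1_rb80330601_d41_d05x6_0 : KC := KC.mk (nat_lit 21) [nat_lit 0, nat_lit 1, nat_lit 2, nat_lit 3, nat_lit 4, nat_lit 5, nat_lit 6, nat_lit 7, nat_lit 8, nat_lit 9, nat_lit 10, nat_lit 11, nat_lit 12, nat_lit 13, nat_lit 14, nat_lit 15, nat_lit 16, nat_lit 17, nat_lit 18, nat_lit 19] (dCus (nat_lit 21) (nat_lit 44) (nat_lit 0x11d1d1d1d1f93939393333332cecece66666666660040a2328f2469425a99a729fa8d26eaa2e2c7b5ae5bdd08c692bd002b939392caca02013939393939393939393939393a004404040404040400e40404040404040404040404040c84444444458448094bcbca8a8a8a8a8e4bca86c8080916766c2392f2f2f2f2f2ee32f5b5aab095b2f2f030022020202020202039393920202020070720202020200440404040404040407272404040400e0e0e0e0e0e40488080808080808080804e804e4e1c4e4e4e4e80b28091010101010101010101003838383839010101c9010023939393939392007070707070707070707072020200433b3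b3b3a0b3c04040404040464646274cf24ca740485a5a5a9276c7c75a5a5a82b8bce478a43834346e80907e7e7e7e7e82db234593c9c99b9b85a1a12cfb35012070707072039393939393939393939393939393920041f1f1f1f1f1f1f1f7272727261e1e1d0d0d0d0d0c048a1a1a1a1a1a1a1a1a1a180805f5f5f5f3d1c3d5f8010bebebebebebebebfc9c9c9c9878787434343434300217171717171b9ededee828686969696ff92fe6dda02466e6d649c0c0be2d2c8e1f2fa626373bab2d2f404008a1a1a1a1a1a1786f5e3d3d3d1c3d5f6780a1a1808011c9c9c901010101003838383839010101010101010023939393939202020070707070707070707202020200472723030303030303030303030303030303030304008e4e4e4e4e4e48080808080801c1c1c1c1c1c1c1c80116565656565656565656565009c9c9c383838389d0022c2c2c2c2c2c2c2c0f0ad49347109a6160191d19200450d0d0d0d0d0d0c02f9e8e0e1eafafc0404040404008b2b2b2b2b2b2a687634e4e351c1c4e4e4e6767808011010101009c9c9c383838389c9d010165650165010122cacacacaca6666cacaca659d3938707070713a020040e0e0e0e0e0e0e404040727272727272727272724048e4e4e4e4e4e4e4e41c1c8080808080801c1c1c1c8010383838383838383901c9c9c9c9c9c9c9c9c9c9c901226a6a6a6a7a92a575749cb0ed192d45be00708caa6444fcfcfcfcfcfcfc3431a8e1daa271aa7b449c0404008b2b2b2b2b2b2b2b280804e1c1c1c1c1c1c4e4e808010cececececececececfc9c997976565333333010101237f7f7f7f7f7f5f931aa682a28aa609f1c96d7d5d7e440404040404040404059595959595959725940274008e4e4e4e4e4e4e4e4e1d6cec2bab0a5998d82786a5890bebebebebebebebebfc9c9c98787874343434343012202020202020202020202020070707070720203920040e0e0e0e0e0e0e0e0e0e0e0e0e0e0e1d2bbabac94948))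

end Pool.Agent.MOS.V6.S244
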