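import Pool.Agent.Lib.MP_b520b2_co.V6.Crit

/-!
# Cells, group 4206
-/

set_option linter.all false

namespace Pool.Agent.MOS.V6.S244

/-- a cell -/
noncomputable def k_wS_32_wQ_26_wN_1_rb8033061c_d41_d17x6_0 : KC := KC.mk (nat_lit 15) [nat_lit 0, nat_lit 1, nat_lit 2, nat_lit 3, nat_lit 4, nat_lit 5, nat_lit 6, nat_lit 7, nat_lit 8, nat_lit 9, nat_lit 10, nat_lit 11, nat_lit 12, nat_lit 13] (dCus (nat_lit 15) (nat_lit 10) (nat_lit 0x19f93932f2ecaca66666666666602004166599ac7ca389fac4c2b50e63e10a4712e50028af338ed4312b52969621a7719e58122390a801439010101c9c9c9c9c9c9c9c9c9c90022020202cacacacacacacb92ca013a024727270eb67615d5852ccc6c13c352c485f5f5fe4e4e4c3c3c3a1a1a1a1a180909c9c9c9c9d01016565c9c965c96501213939393939393b9392cb92cacaca0240e0e0e0e0e0e0e0e0e1d2bbabac94948))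

/-- a cell -/
noncomputable def k_wS_32_wQ_26_wN_1_rb8033061c_d41_d17x6_1 : KC := KC.mk (nat_lit 15) [nat_lit 0, nat_lit 1, nat_lit 2, nat_lit 3, nat_lit 4, nat_lit 5, nat_lit 6, nat_lit 7, nat_lit 8, nat_lit 9, nat_lit 10, nat_lit 11, nat_lit 12, nat_lit 13] (dCus (nat_lit 15) (nat_lit 11) (nat_lit 0xbfc9c9c9878787874343434311010020b32ccd63e51c4fd62615a8731f08523897280145919874a0c91a80aeaf4cbb68e8bdd0d48d400a67e4e4cbcbb2b299999999999980801039010101c9c9c9c9c9c9c9c9c9c90022020202cacacacacacacb92ca013a024727270eb67615d5852ccc6c13c352c485f5f5fe4e4e4c3c3c3a1a1a1a1a180909c9c9c9c9d01016565c9c965c96501213939393939393b9392cb92cacaca0240e0e0e0e0e0e0e0e0e1d2bbabac94948))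

/-- a cell -/
noncomputable def k_wS_32_wQ_26_wN_1_rb8033061c_d41_d17x6_2 : KC := KC.mk (nat_lit 15) [nat_lit 0, nat_lit 1, nat_lit 2, nat_lit 3, nat_lit 4, nat_lit 5, nat_lit 6, nat_lit 7, nat_lit 8, nat_lit 9, nat_lit 10, nat_lit 11, nat_lit 12, nat_lit 13] (dCus (nat_lit 15) (nat_lit 12) (nat_lit 0x3ec3e4e4e4e4e4c3c3a1a1a1a18080905899073a0c92a88b1b04d0b82f0c0310c83400a2ccb3358f94713f589856a1cc7c2148e25ca0052ff2727261e1e1e1d0d0d0d0c440400867e4e4cbcbb2b299999999999980801039010101c9c9c9c9c9c9c9c9c9c90022020202cacacacacacacb92ca013a024727270eb67615d5852ccc6c13c352c485f5f5fe4e4e4c3c3c3a1a1a1a1a180909c9c9c9c9d01016565c9c965c96501213939393939393b9392cb92cacaca0240e0e0e0e0e0e0e0e0e1d2bbabac94948))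

/-- a cell -/
noncomputable def k_wS_32_wQ_26_wN_1_rb8033061c_d41_d17x6_3 : KC := KC.mk (nat_lit 15) [nat_lit 0, nat_lit 1, nat_lit 2, nat_lit 3, nat_lit 4, nat_lit 5, nat_lit 6, nat_lit 7, nat_lit 8, nat_lit 9, nat_lit 10, nat_lit 11, nat_lit 12, nat_lit 13] (dCus (nat_lit 15) (nat_lit 13) (nat_lit 0x50d0d0d0d0c02fafaf9e8e1e9eafc0482c4cb3a1054893f57179659b3749f187247a005162659d082a449fab8bcb2cd9ba4f8c3923d002a02020202020202020202020200721e42ff2727261e1e1e1d0d0d0d0c440404867e4e4cbcbb2b299999999999980801039010101c9c9c9c9c9c9c9c9c9c90022020202cacacacacacacb92ca013a024727270eb67615d5852ccc6c13c352c485f5f5fe4e4e4c3c3c3a1a1a1a1a180909c9c9c9c9d01016565c9c965c96501213939393939393b9392cb92cacaca0240e0e0e0e0e0e0e0e0e1d2bbabac94948))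

/-- a cell -/
noncomputable def k_wS_32_wQ_26_wN_1_rb8033061c_d41_d17x6_4 : KC := KC.mk (nat_lit 17) [nat_lit 0, nat_lit 1, nat_lit 2, nat_lit 3, nat_lit 4, nat_lit 5, nat_lit 6, nat_lit 7, nat_lit 8, nat_lit 9, nat_lit 10, nat_lit 11, nat_lit 12, nat_lit 13, nat_lit 14, nat_lit 15] (dCus (nat_lit 17) (nat_lit 16) (nat_lit 0x3939393939393939393939393919191919241425097a6c9ea88a5aa4acac0b3adcbaaf8c3923d0028af2bcaf338ed4312b52969621a7719e58122390a801447156641ca8123e9e2b2bb326d839af5c1313c8b400a80808080e4c1c1c1c1c1c18096c1803f8091c9c9c8e6e6e6e6e6e6e6e6e6e6e6e6e6e622020202020202020139387070713a02ca0041f9f9ff06467726eef60e0e654da58d4c048676767e4e4cbcbb2b2999999999999808090383839010101c9c9c9c9c9c9c9c9c9c900220202020202cacacacacacacb92ca013a0247272727270eb67615d5852ccc6c13c352c485f5f5f5f5fe4e4e4c3c3c3a1a1a1a1a180909c9c9c9c9c9c9d01016565c9c965c965012139393939393939393b9392cb92cacaca0240e0e0e0e0e0e0e0e0e0e0e1d2bbabac94948))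

end Pool.Agent.MOS.V6.S244
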