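import Pool.Agent.Lib.MP_b520b2_co.V6.Crit

/-!
# Cells, group 4208
-/

set_option linter.all false

namespace Pool.Agent.MOS.V6.S244

/-- a cell -/
noncomputable def k_wS_32_wQ_26_wN_1_rb8033061c_d41_d141cx3_0 : KC := KC.mk (nat_lit 16) [nat_lit 0, nat_lit 1, nat_lit 2, nat_lit 3, nat_lit 4, nat_lit 5, nat_lit 6, nat_lit 7, nat_lit 8, nat_lit 9, nat_lit 10, nat_lit 11, nat_lit 12, nat_lit 13, nat_lit 14] (dCus (nat_lit 16) (nat_lit 16) (nat_lit 0x808080e4e4e4e4e4e4e4e48080801c80905315a5a1ae7d23aa02c6c3352e63e10a4712e50028a92bcc8395024813e5717a661b6751f287648a0051285698c6fa0291a8ab4316d73a2fa42f1d4bb400a5f5fe4e4e4e4c3c3c3a1a1a1a180808011212121207a5a38387a7a9ce0e101230022caca01393870713939393a0202020200433f27265e5e5d959595959594cccc040081c808080808080808080808080808089903839010101c9c9c9c9c9c9c9c9c9c9012202020202cacacacacacacb92ca013a02472727270eb67615d5852ccc6c13c352c485f5f5f5fe4e4e4c3c3c3a1a1a1a1a180909c9c9c9c9c9d01016565c9c965c9650121393939393939393b9392cb92cacaca0240e0e0e0e0e0e0e0e0e0e1d2bbabac94948))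

/-- a cell -/
noncomputable def k_wS_32_wQ_26_wN_1_rb8033061c_d41_d141cx3_1 : KC := KC.mk (nat_lit 16) [nat_lit 0, nat_lit 1, nat_lit 2, nat_lit 3, nat_lit 4, nat_lit 5, nat_lit 6, nat_lit 7, nat_lit 8, nat_lit 9, nat_lit 10, nat_lit 11, nat_lit 12, nat_lit 13, nat_lit 14] (dCus (nat_lit 16) (nat_lit 16) (nat_lit 0x801c8080808080808080808080808084104b1545f1c081248a32d0c5b5ce8be90bc752ed00287070bcd159817965b1a9e1f5cde9f64641f1f727271f1e0e0e0d0505050404040488080e4e480801c1c1c1c1c1c1c8080801039010101010101010101010101010117220202039393939393939392020200720242faff272727261e1e1d0d0d0d0c0404008909090903d2d1c1c3d3d4e707080918010cfc9c997979765656565656533330100207072020203939393939393939393920244040404059595959595959725940274048e4e4e4e1d6cec2bab0a5998d82786a5890bebebebfc9c9c98787874343434343012139393939393a0202cacb9392cb92ca0240e0e0e0e0e0e0e0e0e0e1d2bbabac94948))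

/-- a cell -/
noncomputable def k_wS_32_wQ_26_wN_1_rb8033061c_d41_d141cx3_2 : KC := KC.mk (nat_lit 17) [nat_lit 0, nat_lit 1, nat_lit 2, nat_lit 3, nat_lit 4, nat_lit 5, nat_lit 6, nat_lit 7, nat_lit 8, nat_lit 9, nat_lit 10, nat_lit 11, nat_lit 12, nat_lit 13, nat_lit 14, nat_lit 15] (dCus (nat_lit 17) (nat_lit 20) (nat_lit 0x2020202ca020201393938707139393a020241284a15a631ce84252a52d6c635ae73e1094692b5002a020203939393939392020202020072020044040405959597272725940594040272740489a9a9a5959481c2929556262506280928011010039010101010101010101010101010820707070bcd159817965b1a9e1f5cde9f64641f1f1f727271f1e0e0e0d050505040404048808080e4e480801c1c1c1c1c1c1c80808010383901010101010101010101010101011722020202039393939393939392020200720242fafaff272727261e1e1d0d0d0d0c040400890909090903d2d1c1c3d3d4e707080918010cecfc9c9979797656565656565333301002070707202020393939393939393939392024404040404059595959595959725940274048e4e4e4e4e1d6cec2bab0a5998d82786a5890bebebebebfc9c9c9878787434343434301213939393939393a0202cacb9392cb92ca0240e0e0e0e0e0e0e0e0e0e0e1d2bbabac94948))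

/-- a cell -/
noncomputable def k_wS_32_wQ_26_wN_1_rb8033061c_d41_d141cx3_3 : KC := KC.mk (nat_lit 16) [nat_lit 0, nat_lit 1, nat_lit 2, nat_lit 3, nat_lit 4, nat_lit 5, nat_lit 6, nat_lit 7, nat_lit 8, nat_lit 9, nat_lit 10, nat_lit 11, nat_lit 12, nat_lit 13, nat_lit 14] (dCus (nat_lit 16) (nat_lit 16) (nat_lit 0x8080e4e4e4e4e4e4e4e4e4e4801c1c80904b95e639c880a3c9dabcc0b48e3bd506c6129d0028fb938f8f8f8f8f0b0b0a86868622020244040727240400e0e0e0e0e0e0e404040481c80808080808080808080808080808b91010101c9c9c9c9c9c9c9c90101003901217d7f939393930f0f0e868686860202004484848481e968e0e1e9ea738384048c00867e4e4cbcbcbb2b2b2b2b2b299998080103839010101c9c9c9c9c9c9c9c9c9c9012202020202cacacacacacacb92ca013a02472727270eb67615d5852ccc6c13c352c485f5f5f5fe4e4e4c3c3c3a1a1a1a1a180909c9c9c9c9c9d01016565c9c965c9650121393939393939393b9392cb92cacaca0240e0e0e0e0e0e0e0e0e0e1d2bbabac94948))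

end Pool.Agent.MOS.V6.S244
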