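import Pool.Agent.Lib.MP_b520b2_co.V6.Crit

/-!
# Cells, group 4214
-/

set_option linter.all false

namespace Pool.Agent.MOS.V6.S244

/-- a cell -/
noncomputable def k_wS_32_wQ_26_wN_1_rb8033061c_d41_d13x6_0 : KC := KC.mk (nat_lit 19) [nat_lit 0, nat_lit 1, nat_lit 2, nat_lit 3, nat_lit 4, nat_lit 5, nat_lit 6, nat_lit 7, nat_lit 8, nat_lit 9, nat_lit 10, nat_lit 11, nat_lit 12, nat_lit 13, nat_lit 14, nat_lit 15, nat_lit 16, nat_lit 17] (dCus (nat_lit 19) (nat_lit 15) (nat_lit 0x1c9c90101010101010101010100383839010100209f27c9f27cb7354f34452f5356b625a871de68162490e80143990c4c96a689da84a4aa0abcbdb30daba4f7c1914c8d400a1c1c1c1c80e4e4e4e4e4e4e4e4e4e4e4e4e480110101010101010101009c9c9c9c38389d016500239393920200707070707070707070707072020045959595959594040402727270e0e0e270e27404867676767e4e4cbcbcbb2b2b2b2b2b299998080903838383839010101c9c9c9c9c9c9c9c9c9c9012202020202020202cacacacacacacb92ca013a02472727272727270eb67615d5852ccc6c13c352c485f5f5f5f5f5f5fe4e4e4c3c3c3a1a1a1a1a180909c9c9c9c9c9c9c9c9d01016565c9c965c9650121393939393939393939393b9392cb92cacaca0240e0e0e0e0e0e0e0e0e0e0e0e0e1d2bbabac94948))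

/-- a cell -/
noncomputable def k_wS_32_wQ_26_wN_1_rb8033061c_d41_d13x6_1 : KC := KC.mk (nat_lit 19) [nat_lit 0, nat_lit 1, nat_lit 2, nat_lit 3, nat_lit 4, nat_lit 5, nat_lit 6, nat_lit 7, nat_lit 8, nat_lit 9, nat_lit 10, nat_lit 11, nat_lit 12, nat_lit 13, nat_lit 14, nat_lit 15, nat_lit 16, nat_lit 17] (dCus (nat_lit 19) (nat_lit 14) (nat_lit 0x2868686857cf49c7070f4f4f57e01a9a97d7e004122489224e96c679d282a429eab8bdb34dcbbb00c4b26500286d2189f2e0d13a9064893e56976649ae729e68262c93e80143838383901c9c9c9c9c9c9c9c9c9c9c9c9c901220202020202020202013939393870713a02ca00472727240400e0e0e0e0e0e0e0e0e0e0e0e404008b2b2b2b2b2b28080804e4e4e1c1c1c4e1c4e8090cecececfc9c9979797656565656565333301012202020202020202cacacacacacacb92ca013a02472727272727270eb67615d5852ccc6c13c352c485f5f5f5f5f5f5fe4e4e4c3c3c3a1a1a1a1a180909c9c9c9c9c9c9c9c9d01016565c9c965c9650121393939393939393939393b9392cb92cacaca0240e0e0e0e0e0e0e0e0e0e0e0e0e1d2bbabac94948))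

end Pool.Agent.MOS.V6.S244
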