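import Pool.Agent.Lib.MP_b520b2_co.V6.Crit

/-!
# Cells, group 4234
-/

set_option linter.all false

namespace Pool.Agent.MOS.V6.S244

/-- a cell -/
noncomputable def k_wQ_26_wN_1_rb8033094a_d43_d53_d41_d31x1_0 : KC := KC.mk (nat_lit 14) [nat_lit 0, nat_lit 1, nat_lit 2, nat_lit 3, nat_lit 4, nat_lit 5, nat_lit 6, nat_lit 7, nat_lit 8, nat_lit 9, nat_lit 10, nat_lit 11, nat_lit 12] (dCus (nat_lit 14) (nat_lit 20) (nat_lit 0x808080801c1c1c801c80e4e4e48010601b27922097298b5b14d4b90f8c3526d0028f4f7939393939393930f0e86860240e40404040404040404040404044c86767e4e4cb9999b39980b28cb2809165656565009c38383838389c9d0122cacaca0202020202013938713a0044acab5acc85ededc4922d94af240484e4e4e4e80b2b2b2b2e4e4e4b28011656565009c38383838389c9d0101239393939393774aface9d712cbd46440404040404040400e4072407240088080808080e4e48080801c80e48091434343434300be7a7a7a387abf0120707070720202020202020202023a44040404027405972594059405940084e4e4e4e4ee4e4e4e4e4b2b2808090bebebebebfc9c98787874343430022020202020202039392020200720040e0e0e0e0e0e0e0e1d2bbabac94948))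

end Pool.Agent.MOS.V6.S244
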