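import Pool.Agent.Lib.MP_b520b2_co.V6.Crit

/-!
# Cells, group 4276
-/

set_option linter.all false

namespace Pool.Agent.MOS.V6.S244

/-- a cell -/
noncomputable def k_wQ_26_wN_1_rb8033094a_d43_d46_d42_d5c_d43_d2b_0 : KC := KC.mk (nat_lit 15) [nat_lit 0, nat_lit 1, nat_lit 2, nat_lit 3, nat_lit 4, nat_lit 5, nat_lit 6, nat_lit 7, nat_lit 8, nat_lit 9, nat_lit 10, nat_lit 11, nat_lit 12, nat_lit 13] (dCus (nat_lit 15) (nat_lit 26) (nat_lit 0x20202020202007202020202039392024164641bc7aa1893a88b0afcd4ba8ffc552ad0028b3314d73c50c49d44585806a9d47fa289528015010100bebebebebf014387c98743012072020202020202020202020202022244040727240400e0e0e0e0e404040404880808080adb2b2804e1c404e3580809165594d414565c9316e4272a59d6ebf220202020072020072039203920072024404040404040405940270e0e274040488080808080801c1c808080e480e48091c9bf71675d1126f8a8bcacbeaf00cf23939200707202020202007202020200450d0d0d0d0c02f9e8e0e1e9eafafc048aaaaaa7878781c4e565e91c3ba88801038390101010101010101010101011522f2f2dac6a2f1ce9f06d2c39377056641e9e9e9ef272727261e1e1e1d0d0c0481c1c1ce4e4e4e4e4e4e4e4b2b2808091b9b9b9b9b9c9ad8d6d4d3114fce0e022cacacacacaca013938707071393a004404040404040404040727240400e40081c1c1c1c1c1c1c344b4b4b637a929291c9c9c9c9c9c9c7b59b754922faca8f2139393939393b9393939392caca02004404040404040404072724040400e4008))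

end Pool.Agent.MOS.V6.S244
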