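import Pool.Agent.Lib.MP_b520b2_co.V6.Crit

/-!
# Cells, group 4296
-/

set_option linter.all false

namespace Pool.Agent.MOS.V6.S244

/-- a cell -/
noncomputable def k_wQ_26_wN_1_rb8033094a_d43_d4b_d41_d28_d43_d0c_0 : KC := KC.mk (nat_lit 16) [nat_lit 0, nat_lit 1, nat_lit 2, nat_lit 3, nat_lit 4, nat_lit 5, nat_lit 6, nat_lit 7, nat_lit 8, nat_lit 9, nat_lit 10, nat_lit 11, nat_lit 12, nat_lit 13, nat_lit 14] (dCus (nat_lit 16) (nat_lit 27) (nat_lit 0x1333332383838386a9ccececececf0101209e2e0d23b1074893d56173645b2751f68824ea0055959595959595959594027270e0e27400880804e4e4e1c4e80b2b28080b280b280115f5f50f8e2e2bc84404e388aa500f70022464646caca45bd3939bc70f6017d3a0247272727240404040400e0e0e0e0e4040088a8885c5499ea1b28fc2afc1551c7374913b3b3b3b3b3b3b3b008e388ec71d010020720202020202020202020202020202264363636727272727264d7c0404a404040086e72713f9277505426201c607bd08c9411010101010101010039003901c90039012155556471e2013141353972020eee226447272727270eeea67645dd6cec6bb33a9c8808080801c1c1c1c80e4e4e4801c808091656565656565009c3838389c9d009d012393939393876f4f22f6c6965629e5a15244040404040404040595972594027274008b2b2b2b2b2b2b2804e1c4e804e804e8011c9c9c9c9c9c9c9c90038383838383900220202020202020202020393920200720240e0e0e0e0e0e0e0e0e21abb53f48c8c8c81c1c1c1c1c1c1c1c344b4b4b637a9292909c9c9c9c9c9c9dc9c9c9c9c965650100220202020202020202039392020200720040e0e0e0e0e0e0e0e0e0e1d2bbabac94948))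

/-- a cell -/
noncomputable def k_wQ_26_wN_1_rb8033094a_d43_d4b_d41_d28_d43_d0c_1 : KC := KC.mk (nat_lit 16) [nat_lit 0, nat_lit 1, nat_lit 2, nat_lit 3, nat_lit 4, nat_lit 5, nat_lit 6, nat_lit 7, nat_lit 8, nat_lit 9, nat_lit 10, nat_lit 11, nat_lit 12, nat_lit 13, nat_lit 14] (dCus (nat_lit 16) (nat_lit 30) (nat_lit 0x3939393939393939393939393916d6d6e41405c1a47620c90274aa2e2c735ce83e90fc9b400ae3b1b17f5f605051501c1c261d1e4f8010919797c9a9a9a9a99789895f715f210022020202020201f202020203920072020244ccccc8e0e0e0e1aa733b3b3b3b3c04048b2b2b2b2b2b2b2b2b2804e4e1c1c4e801101009c9c9c389d01656501016501650022bebea1f1c5c57908809c71154a01ee00448c8c8d95948b7a727378e1ec02fa740488a8885c5499ea1b28fc2afc1551c7374913b3b3b3b3b3b3b3b008e388ec71d010020720202020202020202020202020202264363636727272727264d7c0404a404040086e72713f9277505426201c607bd08c9411010101010101010039003901c90039012155556471e2013141353972020eee226447272727270eeea67645dd6cec6bb33a9c8808080801c1c1c1c80e4e4e4801c808091656565656565009c3838389c9d009d012393939393876f4f22f6c6965629e5a15244040404040404040595972594027274008b2b2b2b2b2b2b2804e1c4e804e804e8011c9c9c9c9c9c9c9c90038383838383900220202020202020202020393920200720240e0e0e0e0e0e0e0e0e21abb53f48c8c8c81c1c1c1c1c1c1c1c344b4b4b637a9292909c9c9c9c9c9c9dc9c9c9c9c965650100220202020202020202039392020200720040e0e0e0e0e0e0e0e0e0e1d2bbabac94948))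

/-- a cell -/
noncomputable def k_wQ_26_wN_1_rb8033094a_d43_d4b_d41_d28_d43_d11_0 : KC := KC.mk (nat_lit 17) [nat_lit 0, nat_lit 1, nat_lit 2, nat_lit 3, nat_lit 4, nat_lit 5, nat_lit 6, nat_lit 7, nat_lit 8, nat_lit 9, nat_lit 10, nat_lit 11, nat_lit 12, nat_lit 13, nat_lit 14, nat_lit 15] (dCus (nat_lit 17) (nat_lit 21) (nat_lit 0x72727240400e0e0e0e0e0e0e0e0e0e4040482e8ba300c637cfb45d3353d6b61da3715e785247a0051405a9946f9e884a3c9a294b3b08d0b90f7c2d235002a767676767676767676011c711d8e3a02024404040404e72403fbfc00e18402c2bc040481c1c80808080808080808080808080808990d8d8d8d9c9c9c9c9c9935f01012901010021b9b9c9c4fe49dd415098807181ef42325044040404040404040400e400e4072400e4048555555591c78804c504d4e5c8083bb8899103838383839c9c9c9c9c9c96565656565012393939393938777533b22eeb67635d99d4e440404040400e0e0e0e40727272400e404048e4e4e4e4e4e1dbd3c8bdb1a5958a796854916565656565656565009c389d009d009d0023939393939393939392007070707070720044040404040404040404040727240400e40481c1c1c1c1c1c1c1c1c1c43576a7e9191919038383838383838383868969696c6f5252521393939393939393b9393939392caca020044040404040404040404072724040400e4008))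

end Pool.Agent.MOS.V6.S244
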