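import Pool.Agent.Lib.MP_b520b2_co.V6.Crit

/-!
# Cells, group 4305
-/

set_option linter.all false

namespace Pool.Agent.MOS.V6.S244

/-- a cell -/
noncomputable def k_wQ_26_wN_1_rb8033094a_d43_d4b_d41_d28_d43_d2118_0 : KC := KC.mk (nat_lit 13) [nat_lit 0, nat_lit 1, nat_lit 2, nat_lit 3, nat_lit 4, nat_lit 5, nat_lit 6, nat_lit 7, nat_lit 8, nat_lit 9, nat_lit 10, nat_lit 11] (dCus (nat_lit 13) (nat_lit 18) (nat_lit 0x202020200720203920202039200472706d6962deda55cdc83eb42a48b2b2b2b2b2b2b2804e4e1c4e80109c9c390163336565c96501650022625e5d4e7686d1c9c50c7139f641e9e9ef27261e1d0d0d0d0d0c048e4e2dacdc7b6aba1988a7a655591418b635d4b2cdf00fb083920e32110707098c502cf09b53570f2bc44040404040595972594027274048b2b2b2b2804e1c4e804e804e8011c9c9c9c9c90038383838383900220202020202020393920200720240e0e0e0e0e0e21abb53f48c8c8c81c1c1c1c1c344b4b4b637a9292909c9c9c9dc9c9c9c9c965650100220202020202039392020200720040e0e0e0e0e0e0e1d2bbabac94948))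

/-- a cell -/
noncomputable def k_wQ_26_wN_1_rb8033094a_d43_d4b_d41_d28_d43_d2120_0 : KC := KC.mk (nat_lit 13) [nat_lit 0, nat_lit 1, nat_lit 2, nat_lit 3, nat_lit 4, nat_lit 5, nat_lit 6, nat_lit 7, nat_lit 8, nat_lit 9, nat_lit 10, nat_lit 11] (dCus (nat_lit 13) (nat_lit 17) (nat_lit 0x50d0d0c02f9e8e1e9e9eafafc0483d0f43d10e4a14b5b999711f08724ca0051987420890a7cb0b08d63a8fe449295002870707073939392cacacacaca024404040400e0e4040727272724048a0c5b1aea5966f807d841c907191c9c9c9010100383901010101002110707098c502cf09b53570f2bc44040404040595972594027274048b2b2b2b2804e1c4e804e804e801101010101010101c9c901003901207070707070710d5da9fa46464640e0e0e0e0e1a25a5a5b1bd494948e4e4e4e4e3dacdbaa4917d6547909c9c9c9dc9c9c9c9c965650100220202020202039392020200720040e0e0e0e0e0e0e1d2bbabac94948))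

end Pool.Agent.MOS.V6.S244
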