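import Pool.Agent.Lib.MP_b520b2_co.V6.Crit

/-!
# Cells, group 4346
-/

set_option linter.all false

namespace Pool.Agent.MOS.V6.S244

/-- a cell -/
noncomputable def k_wQ_26_wN_1_rb8033094a_d43_d46_d42_d5c_d43_d06_0 : KC := KC.mk (nat_lit 17) [nat_lit 0, nat_lit 1, nat_lit 2, nat_lit 3, nat_lit 4, nat_lit 5, nat_lit 6, nat_lit 7, nat_lit 8, nat_lit 9, nat_lit 10, nat_lit 11, nat_lit 12, nat_lit 13, nat_lit 14, nat_lit 15] (dCus (nat_lit 17) (nat_lit 40) (nat_lit 0x64649cd3e4b6bdc0b8a3987e7fb18f5a7e90c4c4404040484ac664db5759639dc9790121e1e1f9ec71cde636b67b5e11fcfd61c20240e0e0e485b2c9a933e4fdce09a8fd0f1cc08b2b2b2b2b28080804e1c1c1c4e804e4e80111f1f8f571cc876cc3884c4b6dadf1518fd23920202020070707070707070707202020041e9e9ef2727272727261e1e1e1e1d0d0c048a1a1807060605f5f5f5f3d1c3d5f738080110101010101010101003901c9c9c901c90121fdfdfd79b128b4dccc7125963e1e3e122445656423d3833948e2828a7a82caa2d4040881c1ce4e4e4e4e4e4e4e4e4e4e4b2b280809039010101010101010101010101010101152286868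686868686017cf47070f4f57e0202452525244b1b1a61c0e23ae364038bd2e4008c3c3a1805f5f3d1c1c1c1c1c3d3d5f5f8011434300be7a7a38387abf01010101010100237373737a1219ea10fcad71147148fa19ca4404040404040724040404040400e0e0e40484a4a4a4b95838a8087abd2e4cecaa59886108888888888ed011f1f0115331597c9510123939393939200707070707202007072020042fafafaff272727261d0d0c040404040404880808080808080e4e48080801c1c1c1c8091c9c9c9c9c9c9c9c9c9c9c9c8bababababb228686868686868686017cf4707070f57e02440404040402fafafafafc050e1f261d0c008b2b2b2aca6a0a2b2e498b7213952ceb75f9101010101010101010165009c38389d0101239393937ee2ceba224df15179597d5e019e45e5e5e5e5b58d45e39d3e0da58726ee0acc83d3d3d3d3d3de4e4e4e4c3c3c3c3a1a18091b9b9b9b9b9b9b9c9ad8d6d4d3114fce0e022cacacacacacacaca013938707071393a0044040404040404040404040727240400e40081c1c1c1c1c1c1c1c1c1c43576a7e9191919038383838383838383868969696c6f5252521393939393939393b9393939392caca020044040404040404040404072724040400e4008))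

/-- a cell -/
noncomputable def k_wQ_26_wN_1_rb8033094a_d43_d53_d41_d3a0d_d51_d00_0 : KC := KC.mk (nat_lit 18) [nat_lit 0, nat_lit 1, nat_lit 2, nat_lit 3, nat_lit 4, nat_lit 5, nat_lit 6, nat_lit 7, nat_lit 8, nat_lit 9, nat_lit 10, nat_lit 11, nat_lit 12, nat_lit 13, nat_lit 14, nat_lit 15, nat_lit 16] (dCus (nat_lit 18) (nat_lit 34) (nat_lit 0x2caca0139393a02013870707071393a1a0200440404059597259402727272727404040404048b2804e1c1c1c1c1c1c1c1c1c1c1c4e4e8080916565009c9c38383838389c9d010101010100228686868602017d7d7d7cf470f4f4f57d7e0041f9ff272727271f170f0f0f0f0e0d0504040485f5f5f5f5f7b8f9ca2a1bec2e4c2a1a17c80903838868c8c8c8c868a8c768c868e8c7a8729213d3d3f2f2f932b2b272726c6c6c662626202427276cecece6674fd1f24540c0c1c043c040486666668bb0d8e4e4b23c5070708eaeb2928091575688387a7a7c94bc8282aaaabd00e4d70021c1c1c393936ef68242020206020202023e02426a6d9d9d9dad353d4f261c0d9c04048c04048e4e4e1dcd7d2cbc3bcb5aba2998f84776b5d91454545454502d6be7abe7a3a387abcd30100212d2f83838393674f3333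3332bebe5e5e4a024262626266957c0c0407267d5c04a4048c04048a1a1a1a1a180808080805f5f3d3d1c3d5f80110101010101c9c9c9c9c9c901010039003900228686870f0e86017cf470f57e02020202020044c4c4c4c333fc84d349b1b40a78e1aa53440483f3f3fe4e4e4e3e2e1e1e1c1c1c1c1a0a08090f2f2f32cf32767c9c8b6b6e112e100daa30120707072039393939393939393939393920202450d0d0d0d0c0352fafaf9e8e0e1e9eb5c0400860606060608585858594b9bfe4bfc5987b8091656565656565009c3838383838389c9d010022868686868686868686017cf4f4f470f57e0040e0e0e0e0e0e0e0e404040404040404040474880808080808080804e80b2e4b280b280b28010bebebebebebebebebfc9c9878787434343002202020202020202020202039392020200720040e0e0e0e0e0e0e0e0e0e0e0e1d2bbabac94948))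

end Pool.Agent.MOS.V6.S244
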