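import Pool.Agent.Lib.MP_b520b2_co.V6.Crit

/-!
# Cells, group 4391
-/

set_option linter.all false

namespace Pool.Agent.MOS.V6.S244

/-- a cell -/
noncomputable def k_wQ_26_wN_1_rb8033094424_d44_d1814_0 : KC := KC.mk (nat_lit 15) [nat_lit 0, nat_lit 1, nat_lit 2, nat_lit 3, nat_lit 4, nat_lit 5, nat_lit 6, nat_lit 7, nat_lit 8, nat_lit 9, nat_lit 10, nat_lit 11, nat_lit 12, nat_lit 13] (dCus (nat_lit 15) (nat_lit 23) (nat_lit 0x50d0d0d0bfc040af961f0e0e9f2fc0482c0c9388fb451325416e631aa721f689252a00540404040407240404040400e0e404048b2b2b2808080808080804e4e1c4e801039c9c9c9c9c9c9c9c9c9656565010120f0f0f39393577f7f2f46d70a6632024191919676766f262eee966e9db4bc0488080801c80e4808080e480e48080809039010101010101010101010101011522020202020202020392007070707202442c2c2c2ee53a50e1823a4a2bc3f4048b2b2804e1c1c1c1c1c1c4e4e4e808090909091c9c9c9979765656533333301228a8a02020178ec7111be02028a0200427272727727272727272595959404048676767e4e4cbcbb2b2b2999980808011434343434300bebe9a7a7a387abf0122cacacacaca01393939387138713a0040e0e0e0e0e40404040404040404046c8e4e4e4e4e4cec0b1aa9b857e6f605290bebebebebebfc9c9878787434343012202020202020202039392020200720040e0e0e0e0e0e0e0e0e1d2bbabac94948))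

/-- a cell -/
noncomputable def k_wQ_26_wN_1_rb8033094424_d44_d1814_1 : KC := KC.mk (nat_lit 15) [nat_lit 0, nat_lit 1, nat_lit 2, nat_lit 3, nat_lit 4, nat_lit 5, nat_lit 6, nat_lit 7, nat_lit 8, nat_lit 9, nat_lit 10, nat_lit 11, nat_lit 12, nat_lit 13] (dCus (nat_lit 15) (nat_lit 29) (nat_lit 0x1c9c90038383838383838383900390020af318dd3d5134c54f5b58b6adcc7de2294280150101c9c9c9c9c9c9c900390101010022020202020202007202010e03939200440407272727272400e0e0e0e0e404048808080804e4e1c1c1c1c4e80b280809087575757c99f7901017777c50101012286868685fe02057cb0f87074f97e02440404040407240404040400e0e404048b2b2b2808080808080804e4e1c4e801039c9c9c9c9c9c9c9c9c9656565010120f0f0f39393577f7f2f46d70a6632024191919676766f262eee966e9db4bc0488080801c80e4808080e480e48080809039010101010101010101010101011522020202020202020392007070707202442c2c2c2ee53a50e1823a4a2bc3f4048b2b2804e1c1c1c1c1c1c4e4e4e808090909091c9c9c9979765656533333301228a8a02020178ec7111be02028a0200427272727727272727272595959404048676767e4e4cbcbb2b2b2999980808011434343434300bebe9a7a7a387abf0122cacacacaca01393939387138713a0040e0e0e0e0e40404040404040404046c8e4e4e4e4e4cec0b1aa9b857e6f605290bebebebebebfc9c9878787434343012202020202020202039392020200720040e0e0e0e0e0e0e0e0e1d2bbabac94948))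

/-- a cell -/
noncomputable def k_wQ_26_wN_1_rb8033094424_d44_d1814_2 : KC := KC.mk (nat_lit 15) [nat_lit 0, nat_lit 1, nat_lit 2, nat_lit 3, nat_lit 4, nat_lit 5, nat_lit 6, nat_lit 7, nat_lit 8, nat_lit 9, nat_lit 10, nat_lit 11, nat_lit 12, nat_lit 13] (dCus (nat_lit 15) (nat_lit 31) (nat_lit 0x40404040404040400e400e40724040082b0c5378f7455335456f641b1749fa88a51a0051df27260e5d862e2e560d858404a4048b2b28080804e1c1c1c1c1c4e804e80105599997dab317993891dc945019f01239392007070707070707070720072004404072727272727272400e4040404008808080808080801c80804380e4e480110101c9c9c9c9c9003838383839010122020202013938707070713a02ca0202421d5d5d5f267de40405dddf140404048a1a1a1a17f80815f2c3e1c1d3e5f8091656565010101010101009c9c389d002073939393939393939392cacaca020241e1e1e72726aefefe5e8dae14cc64048323232cececde4c5ddd2cdd3b69780910101003901c9010101c901c90101012072020202020202020202020202022a4404040404040404072400e0e0e0e404885858585dca74a1c30474945787e80916565009c3838383838389c9c9d0101212121239393932f2ecacaca66666602427272727727272727272595959404048676767e4e4cbcbb2b2b2999980808011434343434300bebe9a7a7a387abf0122cacacacaca01393939387138713a0040e0e0e0e0e40404040404040404046c8e4e4e4e4e4cec0b1aa9b857e6f605290bebebebebebfc9c9878787434343012202020202020202039392020200720040e0e0e0e0e0e0e0e0e1d2bbabac94948))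

end Pool.Agent.MOS.V6.S244
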