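import Pool.Agent.Lib.MP_b520b2_co.V6.Crit

/-!
# Cells, group 4443
-/

set_option linter.all false

namespace Pool.Agent.MOS.V6.S244

/-- a cell -/
noncomputable def k_wQ_26_wN_1_rb8033094a_d43_d4b_d41_d28_d43_d1c14_d51_d00_0 : KC := KC.mk (nat_lit 18) [nat_lit 0, nat_lit 1, nat_lit 2, nat_lit 3, nat_lit 4, nat_lit 5, nat_lit 6, nat_lit 7, nat_lit 8, nat_lit 9, nat_lit 10, nat_lit 11, nat_lit 12, nat_lit 13, nat_lit 14, nat_lit 15, nat_lit 16] (dCus (nat_lit 18) (nat_lit 31) (nat_lit 0x16565656565656500ce9cac9cac9c389d0100220202020202020202020202020202020072064166a6c6a6a6a6a6a6a7269ef5a54d555d1404880808080808080e4e4e4e4e4e4801c1c1c8090f03c0f03c0f03c0f052b4ae63c8663ad6f1a5d2388b8d2a6e6dc118707098c4e955812e5751acc5ae024707063d7d9cfc640402cb5373d0e21a24037c8a1a1a1a1a1a1a18080805f3d1c3d5f805f8011010101010101c9c9c9c9c901010100383901222a2a2b5282aaab472311f5f20070ed1185f647272727272727272727272727272722cacacc8e4e4e4e4e4e4e4e4e4e4686868686868686890c2c2c3151515151515217377c974d8f6c101239393939393939393939393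9391797979797a421a1a1a1a1a1e56561f264e770e753cec040488080808080808080801c1c80801c80e4e480117f7f7f7f7f7ee8e86a9c9c9c9c9c38850100210d0d0e6a6a32160203930ee29602ca0602024595959594cc033a71a8e0e1aa7272733c04008c3c3c3c3a1805f3d3d1c1c1c1c3d3d5f8080109c9c9d0101010165656565c965010101010122a2a2a2a2a2a111111070c0c070c161b202024272727272737b79e8e0e2740597261f259404880808080808080808080e4801c80e4801c80116565656565656565009c3838389c9d009d002202020202020202020202cacb92ca01393a004404040404040404040404040727240400e40481c1c1c1c1c1c1c1c1c1c1c43576a7e919191903838383838383838383868969696c6f525252139393939393939393b9393939392caca02004404040404040404040404072724040400e4008))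

end Pool.Agent.MOS.V6.S244
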