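import Pool.Agent.Lib.MP_b520b2_co.V6.Crit

/-!
# Cells, group 4450
-/

set_option linter.all false

namespace Pool.Agent.MOS.V6.S244

/-- a cell -/
noncomputable def k_wS_32_wQ_26_wN_1_rb8033062247_d51_d1515_0 : KC := KC.mk (nat_lit 16) [nat_lit 0, nat_lit 1, nat_lit 2, nat_lit 3, nat_lit 4, nat_lit 5, nat_lit 6, nat_lit 7, nat_lit 8, nat_lit 9, nat_lit 10, nat_lit 11, nat_lit 12, nat_lit 13, nat_lit 14] (dCus (nat_lit 16) (nat_lit 27) (nat_lit 0x1656565010101009c383838389c9c9d00226665696938bcbc7070be059e816eb20041e9e9ef261e1e1e1f261e1e1e1d0d0c04871ccccb7d9bbccc995881c507b7e588091010101c9c9c9c9c90101010100383900219d9f932eca666666666602020202020244646463f0e22a2cdeee8e246ab36b940884c4c4ce4e0dac9c9b4aaaeaa9f95958090c55b537123b1c9c1bb93739f2b231900207202020202020202020202020202023244040404040404040400e404072404040085ae49eb8bcb6b6c4bb93809980828080910101010101010101003901003901c9002202020203939393939200707072020202433f27265d94cccccc04040404040404048808080801c8080808080808080808082107e7fc9c7c5c5c3c3c3c3c3834141010122cacaca02013939387070707071393a02443c3ccdd57d0c11f9f0e2423a7363fbf48e4e480808080801c1c1c1c1c1c1c1c8011c9c7b9a7938975614d35210cfce0d2b922868686017cf47070707070f57d7e0202459595940270e0e0e0e0e0e0e27274040084e4e4e4e4ee4e4e4e4b2b2b2b2b2b280910101010101010038383838390101c901220202020202020202039392020200720240e0e0e0e0e0e0e0e0e0e1d2bbabac94948))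

end Pool.Agent.MOS.V6.S244
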