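import Pool.Agent.Lib.MP_b520b2_co.V6.Crit

/-!
# Cells, group 4451
-/

set_option linter.all false

namespace Pool.Agent.MOS.V6.S244

end Pool.Agent.MOS.V6.S244
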