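import Pool.Agent.Lib.MP_b520b2_co.V6.Crit

/-!
# Cells, group 4475
-/

set_option linter.all false

namespace Pool.Agent.MOS.V6.S244

/-- a cell -/
noncomputable def k_wQ_26_wN_1_rb8033094a_d43_d53_d41_d39_d43_d4d_d42_d3b_d51_d0c_0 : KC := KC.mk (nat_lit 18) [nat_lit 0, nat_lit 1, nat_lit 2, nat_lit 3, nat_lit 4, nat_lit 5, nat_lit 6, nat_lit 7, nat_lit 8, nat_lit 9, nat_lit 10, nat_lit 11, nat_lit 12, nat_lit 13, nat_lit 14, nat_lit 15, nat_lit 16] (dCus (nat_lit 18) (nat_lit 32) (nat_lit 0x56e2e2e4c6c8c6afafadaab3a9a6a9929380107a7a7abebf0101435b878787c9874339430020720202020202020202020202020202020226450d0c0402f9e8e0e0e1eafc0404040404040088c8ca5a7aae2e4c8b299998068806a7f807791656500fa383838383838b701010101010100227676a2d64662627675ed0c708cad952dc20242727272727272765657265d959594cccccc0482d2d2d5d91b2e4e4e4d3c1afc1d3d3a1b280907a7a7abf01014387878787c987878723010122c2c2c2c1edee020202162a3d554071653200452d2d2d28e25332dc040403cc0403dbf403b48e4e4e4b2804e1c1c1c1c1c1c1c1c1c674e80110101010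1010101010101010039010101010922e6e47070710d0d0e018a016602016dc549d2450d0d0d0d0d0c040402f9e8e1eafafafc040485f5f5f5fe4e4e4e4e4c3a18080808080808091c9c9c90101010101010100383838390101002393939393939393939393919d9d9d9d9d9d9e4404040400e40404040404040404040404042082b2b2b2b2bd3d3d3d3e4e4d6d6d68080aa80916565656565010165009c9d009c38389c9d00217d7d7d7d7f9393939286860202028602020244040404040404040404040400e4072407240481c1c1c1c1c1c1c808080808080808080808c91656565656565656565009c383838389c9d012070707070707070720202020202020202023e440404040404040404072724040400e407240083f3f3f3f3f3f3f3fe4e1e1c1c1c1a0a0a080909c9c9c9c9c9c9c9c9dc9c9c9c9c965650101217d7d7d7d7d7d7d7d7f93930f0f0e8686860040e0e0e0e0e0e0e0e0e0e0e0e1d2bbabac94948))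

end Pool.Agent.MOS.V6.S244
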