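import Pool.Agent.Lib.MP_b520b2_co.V6.Crit

/-!
# Cells, group 4477
-/

set_option linter.all false

namespace Pool.Agent.MOS.V6.S244

/-- a cell -/
noncomputable def k_wQ_26_wN_1_rb8033094a_d43_d53_d41_d250bv1_0 : KC := KC.mk (nat_lit 16) [nat_lit 0, nat_lit 1, nat_lit 2, nat_lit 3, nat_lit 4, nat_lit 5, nat_lit 6, nat_lit 7, nat_lit 8, nat_lit 9, nat_lit 10, nat_lit 11, nat_lit 12, nat_lit 13, nat_lit 14] (dCus (nat_lit 16) (nat_lit 40) (nat_lit 0x51515151e4c7c8c8c2cdb2afb398988091010101010100383901010101c901c901239392c6a9393535bd65bdc1355c9542004494927141bc14955d3a490360e5ad2bdc83d3d3d3d3de4c3c3c3c3e4c3c3a1a18090aaaaab3e9c9ca8383e74df1f135d010121010101011f936b6b6b0b0b0aae867e02451d1d1d1cd4d513faf9e8e1d2aaebec0081c808080808080808080808080808087916f6efeee3a3848c2c301010101010100220202020202013a020392ca020202020047231b1b1b1b1b1b1b1b1b1c04040404008808080808080e4e4808080801c1c8080910d0d5b5b5b5b65b360c6787638b0dd01227e7e7e7e7e7e7e0e0e05889071098a024393939202e152950505c62f257a73ebdc8808080808080e4808080808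01c801c80912727272781815b34e680da385a66b90122cacacaca0201387070713a020202020047272724040404040404040400e0e4040081c1c1c808080e4e4e4e4e4808080808091656565656565009c38383838389c9d01220202020202039393920070707202020245f5f4327110e2a47c7d2dc52bbbcc3c0081c1c808080808080808080808080808991c9c9c9c9c9c9c9c9c8cacacacacacacb22dadadadadad928910c7070cdc69a020044040404040404040404040400e404041c8d1d1e4e1c1bfada69a958381919285731038383839c9c9c9c9c9c9c9c965650101220202020202007070720203920070720242727272727274059595959727272594008808080808080808080801c80e480e4801101010101010101c9c90101003901c9012286868686868686017cf4f4f470f57e0240e0e0e0e0e0e40404040404040404047483f3f3f3f3f3fe4e1e1c1c1c1a0a0a080909c9c9c9c9c9c9dc9c9c9c9c965650101217d7d7d7d7d7d7f93930f0f0e8686860040e0e0e0e0e0e0e0e0e0e1d2bbabac94948))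

end Pool.Agent.MOS.V6.S244
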