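import Pool.Agent.Lib.MP_b520b2_co.V6.Crit

/-!
# Cells, group 4483
-/

set_option linter.all false

namespace Pool.Agent.MOS.V6.S244

/-- a cell -/
noncomputable def k_wQ_26_wN_1_rb8033094a_d43_d53_d41_d39_d43_d4d_d42_d3b_d51_d18_0 : KC := KC.mk (nat_lit 19) [nat_lit 0, nat_lit 1, nat_lit 2, nat_lit 3, nat_lit 4, nat_lit 5, nat_lit 6, nat_lit 7, nat_lit 8, nat_lit 9, nat_lit 10, nat_lit 11, nat_lit 12, nat_lit 13, nat_lit 14, nat_lit 15, nat_lit 16, nat_lit 17] (dCus (nat_lit 19) (nat_lit 22) (nat_lit 0x393939393920202020202007070707070720200435b5b5f271de544a40c0c0c0c0c0c0c0c0c040484d4d4d4dcccccbcbcccbe4cbb3b2b29899998091878787878700be7a3838383838387abebf010020acacaf939393939393933773373737169aba0240e0e0e7272727272727272727272727259594048808080808080808080808080801c80808080841173737238383886868700c500b30100b6e2a4e922868686868686860202017cf470f57d7d7e0202472727272727272727272727233b3b3b3b3b3b3c880808080801c8080808080808080808080808411656565656565010165009c9d009c38389c9d00217d7d7d7d7d7f939393928686020202860202024404040404040404040404040400e407240724048b2b2b2b2b2b2b2b2b2b2804e1c1c1c1c4e4e80903838383838383838390101010101010101011f220202020202020202020393920202007203920041f9f9f9f9f9f9f9f9ff270f0e0e0e0d050504048cfcfcfcfcfcfcfcfcfcfe4d7cab9a693867272109c9c9c9c9c9c9c9c9c9dc9c9c9c9c965650101217d7d7d7d7d7d7d7d7d7f93930f0f0e8686860040e0e0e0e0e0e0e0e0e0e0e0e0e1d2bbabac94948))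

/-- a cell -/
noncomputable def k_wQ_26_wN_1_rb8033094a_d43_d53_d41_d39_d43_d4d_d42_d3b_d51_d18_1 : KC := KC.mk (nat_lit 19) [nat_lit 0, nat_lit 1, nat_lit 2, nat_lit 3, nat_lit 4, nat_lit 5, nat_lit 6, nat_lit 7, nat_lit 8, nat_lit 9, nat_lit 10, nat_lit 11, nat_lit 12, nat_lit 13, nat_lit 14, nat_lit 15, nat_lit 16, nat_lit 17] (dCus (nat_lit 19) (nat_lit 26) (nat_lit 0x20202020202039392020202020202039200720245d0e0e1e1e2cacacbabcc03eacaf2da432c03bc88080808080808080e4e4e4c3801c1c3d801c80907c7c7c7c7dc1c1c1c1c1c3c9c78947434341012393939393920202020202007070707070720200435b5b5f271de544a40c0c0c0c0c0c0c0c0c040484d4d4d4dcccccbcbcccbe4cbb3b2b29899998091878787878700be7a3838383838387abebf010020acacaf939393939393933773373737169aba0240e0e0e7272727272727272727272727259594048808080808080808080808080801c80808080841173737238383886868700c500b30100b6e2a4e922868686868686860202017cf470f57d7d7e0202472727272727272727272727233b3b3b3b3b3b3c880808080801c8080808080808080808080808411656565656565010165009c9d009c38389c9d00217d7d7d7d7d7f939393928686020202860202024404040404040404040404040400e407240724048b2b2b2b2b2b2b2b2b2b2804e1c1c1c1c4e4e80903838383838383838390101010101010101011f220202020202020202020393920202007203920041f9f9f9f9f9f9f9f9ff270f0e0e0e0d050504048cfcfcfcfcfcfcfcfcfcfe4d7cab9a693867272109c9c9c9c9c9c9c9c9c9dc9c9c9c9c965650101217d7d7d7d7d7d7d7d7d7f93930f0f0e8686860040e0e0e0e0e0e0e0e0e0e0e0e0e1d2bbabac94948))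

end Pool.Agent.MOS.V6.S244
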