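import Pool.Agent.Lib.MP_b520b2_co.V6.Crit

/-!
# Cells, group 4485
-/

set_option linter.all false

namespace Pool.Agent.MOS.V6.S244

/-- a cell -/
noncomputable def k_wS_32_wQ_26_wN_1_rb8033062259_d51_d2549_d51_d00_0 : KC := KC.mk (nat_lit 18) [nat_lit 0, nat_lit 1, nat_lit 2, nat_lit 3, nat_lit 4, nat_lit 5, nat_lit 6, nat_lit 7, nat_lit 8, nat_lit 9, nat_lit 10, nat_lit 11, nat_lit 12, nat_lit 13, nat_lit 14, nat_lit 15, nat_lit 16] (dCus (nat_lit 18) (nat_lit 33) (nat_lit 0xe72727272727272727272595959595959404820c9a2c4c8380f844128501585e1986e1d87e220942801501010101009c3838389c9c9d016565009d0122a2a2a2a2a2a1b1b0c0c0c07070707071620241e9e9ef2727272727261e1d0d0e1d0d0d0c0483d3d3d3de4e4e4e4e4e4e4e4c3c3a1a180809101010101c9c9c9c90038383838383838390122fefe5a5a59f5f9a20201413581b13c713a04450d0c02f9e8e0e0e0e0e1e9e9eafafc040404899995f5f44469dd3e4b06355a2617b80808010a8a9496f6f777ec525111181c908670133012202020202020202020202007200720392020045151727264c139a819baa0a4c3c3c519ba39c8c21c1c1c1c1c1c1c80808080808080808080110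10101010101010101010101c900383901012139393939393b93932f2ecacaca666602020243bbbbbbbe3e857d7d7d7d7d027a78e27184808808080808080804e4e80b2e4e4e4e4e4b2801038383838390129290101010101017b532b2a21252525260202031f1f93636736d6023a0202472727272727272727272727272722eaeaeaec8e4e4e4e4e4e4e4e4e4e4e4e4e4e46565656511c9c9c9c3bbada19785715f47311b04eed2b722cacacacacacaca0202013938707138713a00450d0d0d0d0c01e9e8e0e0e1e9e9eafc050c048b2b2b2b2b2b2b2b2b2b280804e4e1c4e80801133333333333238386a6a9c9c9ccecf01010122cacacacaca0138707070707071393a02020044040404040400e40404072400e400e40724048808080808080808080e4e4e4e48080801c80109c9c9c9c9c9c9dc9c9c9c965656565656500213939393939393939393b9392cb92cacaca024404040404040404040404072724040400e4048))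

/-- a cell -/
noncomputable def k_wS_32_wQ_26_wN_1_rb8033062259_d51_d2549_d51_d1b_0 : KC := KC.mk (nat_lit 16) [nat_lit 0, nat_lit 1, nat_lit 2, nat_lit 3, nat_lit 4, nat_lit 5, nat_lit 6, nat_lit 7, nat_lit 8, nat_lit 9, nat_lit 10, nat_lit 11, nat_lit 12, nat_lit 13, nat_lit 14] (dCus (nat_lit 16) (nat_lit 22) (nat_lit 0x20202020202020202007200720392020041445d9a876a0c8fa72a9ae2c7b5ae5be1104a1400a80808080808080808080e4801c1c8080905e683878d8ed3131011529172d01013022cacacacaca0202013938707138713a0240e40404040404040404040404040404448a1a1a1803d3d1c1c1c3d3d3d5f80a180907a7bc9c9c9c9c9878743434343434301207072020202020202020202020202022a45959595959595959404027270e27404008e4e4e4dad6c4bbafa49f948b8073675a913333333238386a6a9c9c9ccecf01010122cacaca0138707070707071393a0202004404040400e40404072400e400e4072404880808080808080e4e4e4e48080801c80103838383901010101010101010101011920f4f4f4f79393939393930f0e86860202427272727277272727259595959595940084e4e4e4e4e4e8080b2b2e4e4b2e4b280909c9c9c9c9c9c9c9dc9c965c965656501220202020202020202039392020200720240e0e0e0e0e0e0e0e0e0e1d2bbabac94948))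

end Pool.Agent.MOS.V6.S244
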