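import Pool.Agent.Lib.MP_b520b2_co.V6.Crit

/-!
# Cells, group 4508
-/

set_option linter.all false

namespace Pool.Agent.MOS.V6.S244

/-- a cell -/
noncomputable def k_wQ_26_wN_1_rb8033094a_d43_d53_d41_d39_d43_d4d_d42_d3b_d51_d1f_d51_d0a_0 : KC := KC.mk (nat_lit 15) [nat_lit 0, nat_lit 1, nat_lit 2, nat_lit 3, nat_lit 4, nat_lit 5, nat_lit 6, nat_lit 7, nat_lit 8, nat_lit 9, nat_lit 10, nat_lit 11, nat_lit 12, nat_lit 13] (dCus (nat_lit 15) (nat_lit 23) (nat_lit 0xcfc94d01010101013301010101010122cacacb9392cacacacaca0138713a004222272727272725e545454544a4a40484e4e4e4ee4e4c6a8a8a8a8b294808091c9c900383838383838383838383900219f92660202021a02660202020202024404040404040724040404072400e40081c1ce4e4e4e4e4e4e4e4e4e4b2b280914343879d9d58927c7c385092a8bf012393939393939393939189898989898a42222725e5e5e595e5dddddca4f404048b2b280804e4e4e1c1c1c1c4e4e808091c9c9c9c9c9c9c9c8cecececececece2393735747270edeb68a723e05d19d6a4400e4040404040404040404040404208b2b28080b2804e4e804e1c1c4e4e8010bebfc9c9c9c943430101014301010122020202020202020200720392039202459595959595940270e0e0e0e27274048808080808080e4e48080801c80e480107e7e7e7e7fc9c3c3838383414141012139393939393b9393939392caca020242fafafafafaff27261e1e1d0d0d0c008))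

/-- a cell -/
noncomputable def k_wQ_26_wN_1_rb8033094424_d44_d1e_d51_d21_d51_d1e_d51_d0f_d51_d14_d51_d14_0 : KC := KC.mk (nat_lit 16) [nat_lit 0, nat_lit 1, nat_lit 2, nat_lit 3, nat_lit 4, nat_lit 5, nat_lit 6, nat_lit 7, nat_lit 8, nat_lit 9, nat_lit 10, nat_lit 11, nat_lit 12, nat_lit 13, nat_lit 14] (dCus (nat_lit 16) (nat_lit 42) (nat_lit 0x20202039393939393920202007202020047272404040400e0e0e0e0e0e0e0e0e4008585858e4e4e2e3b8a185998fa78d9180107c7c7dc9c9c9c9bfbfc7858341410100207202020202020202020202020202022a42faff2727261d0d0c04040404040404048e4e4e4e4e4e4e4e4e4e4e4e45e5e5e5e91818181810eecdebae68c723a387ebb002202020202867a8574717975fd7a0202024404040404040404040404040400e4040c840404040406d94c3a4c8dad8e4ccb18091c9c3a7978d857b5f5145371d12f6d2b922caca013938707139393a020202020200431b1b1b1b1b3ced76c725d61b9bc3a4048b2b2b2b2b2804e1c1c1c1c4e4e4e4e8011c9c9c9c90038383838383838383839002202020202020202020202007202020208440404040404040404040400e407240400892929292c5c5744a4e231c403d67848090424377777777779b77c9a5a9a9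613f0121414141414143920132c1f786b785320241e9e9e9ef2727272727261e1d0d0c04048818181814f4f80b3e4b1b17f7d7f7f80103a3bc3c3c3c987878787894787470101212d2f333331b59206a7925561b6520202459595959595959594040270e0e272740086c6c6c6c30a86c6280a8e4e4d0b29480107a7a7a7bc9c9c9c9c987878743434301213939393b93932f2ecacaca6666020202459595959594027405940270e270e2740089999999999999980674e351c354e6780914343432d2d0100b4743888cb212101002286868686868602017d7cf4f470f57e02459595959594040270e0e0e0e2727274008b2b2b2b2b2b2b2b2b2804e1c1c1c4e80109c9c9c9c9dc9c9c9c9c9c96565650100219d9d9d9f93932f2ecacaca6666020200459595959595940272727270e270e2740081c1c1c1c1c1c8080808080808080808d90bebebebebebebfc9c987878743434301220202020202020202039392020200720040e0e0e0e0e0e0e0e0e0e1d2bbabac94948))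

end Pool.Agent.MOS.V6.S244
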