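import Pool.Agent.Lib.MP_b520b2_co.V6.Crit

/-!
# Cells, group 4514
-/

set_option linter.all false

namespace Pool.Agent.MOS.V6.S244

/-- a cell -/
noncomputable def k_wQ_26_wN_1_rb8033094a_d43_d46_d42_d5c_d43_d314704_0 : KC := KC.mk (nat_lit 22) [nat_lit 0, nat_lit 1, nat_lit 2, nat_lit 3, nat_lit 4, nat_lit 5, nat_lit 6, nat_lit 7, nat_lit 8, nat_lit 9, nat_lit 10, nat_lit 11, nat_lit 12, nat_lit 13, nat_lit 14, nat_lit 15, nat_lit 16, nat_lit 17, nat_lit 18, nat_lit 19, nat_lit 20] (dCus (nat_lit 22) (nat_lit 51) (nat_lit 0x929282e0e0babacad4e0e1334b4b69c94154bf24d5012059180671f8952b0c3368f14211f4d94e59983681bf779ff88a51a0050e0e4072727272727272727272727272724040404040081c1c70c3c36f7070707e7f795c808d86a99c8c808d84913a4e537cd9354cf32404e0330c1ae8982163827125d15313e2fb3fc29f9f9f9f9fdfdfdfdfdfdfca871f38b4b4605f9fde204472727240404040400e0e0e0e0e0e0e40404040724040082f2f2f2f8eb0d3c9c3c3ae94d5d5e4a7893b53533f7f910101010101010101010101010101003901c9010101012393939393939202007070707070720202020202020200454d4d4d4c23a31b1b1b232d954d3ab8e1daa9d40c04388e4e4e4e4b476383838384d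89747489756e836e838384115b5b5b5b5b5b5bb7b7b768dcb85e38805c38b900ef00220202020202020202020202020200720392020203920242dab6adab6adab6adab6adb00400e5ab305d3b1af217f4d6f14e9130a808080808080808080808080801c1c80e4e48080e48090b6b6b6b6b6b701010b1717132f3701276fc9c55301002393939393930f0e8602020202017e017d7d7cf4f57e00472727272722babababc040404040404040404040404008802008020080200802008020080200802008020080200802001c20215151515151515151545374342f4c107048038acf0eeff239393939393939393939393939393939393939393913840e0e0e0e0e0e0e0e407272727272727272727272724008c2c2c2c27f7f7f7f7f7f7f7adfdfdfdfe27e7e1c80811137373737373737373797b774de505a6a5038c6d6cafd220202020202020393920070707070707070707203920246bebebebebdf5f5952d2b9b93a3a403fbf3f260e274008e4e4e4e4e4e4e4e4b8a15b5029215056504f6a484472917f7f7f7f7fadadad432d6f45304e845638448cb500ed20707070707070707202020202020202020203939392024323232323232323231d76de6e26eccd9bc21e4f259b548afafafafafafafafb0b34c5368231c4e2b671d1c219111010101010101010101010101c9c9c90038383901010022020202020202020202020202020202007203920392004202020202020202047474747476ed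b64f2727254d4c108b2b2b2b2b2b2b2b2b2b2b2b2804e4e4e1c1c1c4e4e809101010101010101010101010101003901c9c90101010023939393939393939393939393939393917d7d7d7d7d7e463636363636363636153f25043459da326a235b1bb37c8808080808080808080804e4e4e80b2b2e4b2b280808011878787878787878786be7abe7a387a7abf42bf23010023939393939393939393939392007070707070707202004595959595959595959595959595959404027270e27400880808080808080808080801c80801c80e480e4801c8011010101010101010101010101003839010101c901c9012393939393939393937ee2ceba224df15179597d5e019e45e5e5e5e5e5e5e5e5e5b58d45e39d3e0da58726ee0acc83d3d3d3d3d3d3d3d3d3d3de4e4e4e4c3c3c3c3a1a1809038383838383838383839c9c9c9c9c9c9c9c96565010122cacacacacacacacacacacacaca013938707071393a0042727272727272727272727272772727272725959404008))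

end Pool.Agent.MOS.V6.S244
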