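import Pool.Agent.Lib.MP_b520b2_co.V6.Crit

/-!
# Cells, group 4555
-/

set_option linter.all false

namespace Pool.Agent.MOS.V6.S244

/-- a cell -/
noncomputable def k_wQ_26_wN_1_rb8033094424_d44_d1e_d51_d21_d51_d1e_d51_d0f_d51_d00_d51_d02_0 : KC := KC.mk (nat_lit 20) [nat_lit 0, nat_lit 1, nat_lit 2, nat_lit 3, nat_lit 4, nat_lit 5, nat_lit 6, nat_lit 7, nat_lit 8, nat_lit 9, nat_lit 10, nat_lit 11, nat_lit 12, nat_lit 13, nat_lit 14, nat_lit 15, nat_lit 16, nat_lit 17, nat_lit 18] (dCus (nat_lit 20) (nat_lit 47) (nat_lit 0x1656565656565656565009c9c9c9c9c3838389d012070707070707070737777777776dedede4242c22440e40404040404040404040404040404040404043c89d9d9d9d9d9dafafaf75805a2d251c4b445c7680913938d0d08c778f8f8f5156f2deec84a4389c95002286868686868686868686868686017cf470f57e00440404040407272727272727272727272400e0e400843434343845d8f8fd1b0b9af9fe48fd286804980914b4b4b4b4b4adededed6cabaa68c38a0ed59310021393939393939393a020202cacb92cacacaca0202413939393939f1f2aaa988e2b292babb7be43c84848e4e4e4e4e480808080801c1c1c1c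1c1c1c8080801100401004010040100401004010040100401000e100401004042a020202020202e2e2e122017c71210d2d21fae202431313131313163633e932f931093b957405c7240481c1c1c1c1c80808080808080808080808080808990b6b6b6b6b6b6b638e155953120e5236d5ee7010123939393939393939393939393939393917d7d7d7e45cdcdcdcdcdcdcc3c3bd3bc3bab62a8e160e28c0887b7b7b7b7b7b7b7b7b6d51a0e4b5bb8c918c8580109c9c9c9c9c9dc9c9c9979765353535351b1b1b0121f9f9f9f9f9f9f871f9fb81f964ccd9de1088da02451d1d1d1d1d1d1df4acac8ab0e1a138e1f93264048999999999999999999999a9a8167331c34334d8091656565656565656565009c383838389c9c9c9d0123939393939393939200707070707070707070720044040404040404040404040404040400e40724040089292929292929292c5c5744a4e231c403d6784809042424242424377777777779b77c9a5a9a9613f012141414141414141414143920132c1f786b785320241e9e9e9e9e9e9e9ef2727272727261e1d0d0c0404881818181818181814f4f80b3e4b1b17f7d7f7f8010969696969697999998dac90353c92ab0db29010121b1b1b1b1b1b1b1b0c2a1b18a02a3939342ca520041e9e9e9e9e9e9e9ef27272727261e1e1d0d0d0c0484e4e4e4e4e4e4e4ee4e4cbcbb2b2b2999980808091656565656565656565009d0165009c389c389d00226666666666666666666666019d38d470d5399e02450d0d0d0d0d0d0cb4b40402d1d0e2232c848404008a1a1a1a1a1a1a1a1a1a180805f5f3d3d1c3d5f809165656565656565656501009c383838389c9c9d002139393939393939393b939393939392cacaca0200433b3b3b3b3b3b3b3f27265e5d959594cccc0404008b2b2b2b2b2b2b2b2b2b2804e4e4e4e1c4e1c4e8010383838383838383838390101010101010101011b217d7d7d7d7d7d7d7d7d7d7f93930f0f0e8686860244040404040404040404040404072724040400e4008))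

end Pool.Agent.MOS.V6.S244
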