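import Pool.Agent.Lib.MP_b520b2_co.V6.Crit

/-!
# Cells, group 4602
-/

set_option linter.all false

namespace Pool.Agent.MOS.V6.S244

/-- a cell -/
noncomputable def k_wQ_26_wN_1_rb8033094424_d44_d1e_d51_d21_d51_d1e_d51_d0f_d51_d00_d51_d05_d56_d01_d51_d0b_0 : KC := KC.mk (nat_lit 20) [nat_lit 0, nat_lit 1, nat_lit 2, nat_lit 3, nat_lit 4, nat_lit 5, nat_lit 6, nat_lit 7, nat_lit 8, nat_lit 9, nat_lit 10, nat_lit 11, nat_lit 12, nat_lit 13, nat_lit 14, nat_lit 15, nat_lit 16, nat_lit 17, nat_lit 18] (dCus (nat_lit 20) (nat_lit 46) (nat_lit 0x281a0681a05e278de378ce73b1141c0701f93b6ae1380218806528a8a8f27271f1f1f06766dcd9d34f4f4fc6c040487c7c7c7c7c67d7bed7c89fb3c1e4bb98666d567891636363636300f4f49038383a3a9f029d030301002252525252517a52532aa238a5297c71c91549ce02456d6d6d6d6c02a29aa13939393938e13aa4029c0488080808080808080e4e4e4e48080808080801c80110101010101010101010101010100390101010102223a3a4106056a30f4eda4715d14dde2022d8e5a02452520e0e4040404040404040404040404040404008e4e4e4e4e4e4e4808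01c1c1c1c1c1c1c1c1c808010f0f0f0f0f0f12d2d2d97795a9b0f3eb67438cd01225656565661be72731256e229107085307d7d5a0244e4e3434231de3e3e3d455bcb7bb21290e27254048a1a1a1a1a1a1a1a1a1a1a1a1a1805f3d1c3d5f80110101010101c9c9c9c9c9c9c9c9c9c9c900383900210d0d0d0e11763e3f46c2e6be7f923f4a1a012602452d2d2d2d2d2b7b7b7b5b2aea9a30e283b564c4008e4e4e4e4e4e4e4e4e4e4e4e4e4e4e4e4e4e457579100401004010040100401004010040100401000e100401004042a020202020202e2e2e122017c71210d2d21fae202431313131313163633e932f931093b957405c724048e4e4e4e4e4e4e4e4e4e4e4e4e4e4e4e45f5f5f5f90f6f6f6f6f6f6f6f6f6daa341c96b771923190b0021f9f9f9f9f9f9f871f9fb81f964ccd9de1088da02451d1d1d1d1d1d1df4acac8ab0e1a138e1f93264048999999999999999999999a9a8167331c34334d8091656565656565656565009c383838389c9c9c9d0123939393939393939200707070707070707070720044040404040404040404040404040400e40724040089292929292929292c5c5744a4e231c403d67848090a0a0a0a0a0a0a0a0a0a1c9009960fbc35bc2990120f4f4f4f4f4f4f4f79393939393930f0e86860202425a5a5a5a5a5e6666636b240d4f24aac36ca4040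486c6c6c6c6c6c6c6c30a86c6280a8e4e4d0b29480107a7a7a7a7a7a7a7bc9c9c9c9c98787874343430121393939393939393b93932f2ecacaca666602020245959595959595959594027405940270e270e274008999999999999999999999980674e351c354e678091434343434343434343430100bebe7a7a387abf0122cacacacacacacacaca0201387070707139393a0042727272727272727277272727272725959594040086767676767676767e4e4cbcbb2b2b299998080801165656565656565656565009c9c9c9c389c389d00217d7d7d7d7d7d7d7d7d7d7f93930f0f0e8686860244040404040404040404040404072724040400e4008))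

end Pool.Agent.MOS.V6.S244
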