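import Pool.Agent.Lib.MP_b520b2_co.V6.Crit

/-!
# Cells, group 686
-/

set_option linter.all false

namespace Pool.Agent.MOS.V6.S244

/-- a cell -/
noncomputable def k_wN_1_rb801cx1_0 : KC := KC.mk (nat_lit 13) [nat_lit 0, nat_lit 1, nat_lit 2, nat_lit 3, nat_lit 4, nat_lit 5, nat_lit 6, nat_lit 7, nat_lit 8, nat_lit 9, nat_lit 10, nat_lit 11] (dCus (nat_lit 13) (nat_lit 23) (nat_lit 0x39393939392007070707202020241f083a2c92a68a7ad4c2b40ec42124500281a0d068886e4f339fd50d4805030024eb3ad0748d405757a65db47820c91a8015c9c9c9c9c9c901003838390101207070707071393acb939202ca0245cdff266ea4f929f1292c012df889090bbb9b7c7e42c524b4d3d6d91c9c9c9010101008964b129790022cacb92cacaca020139393a0200472727272724040400e0e404040081c1c1c1c1c80e480e4801c1c8091c9c9c9c9c900390101010101002393939393939202020070720200459595959594040270e2733a74048d6d6d6d6d6d7e4d3c9ae93683b91c9c9c9c9c9c9c9003838390100239393939393734b12d665f9850a4595959595959595940270e2740088080808080808080801c80e48011c9c9c9c9c9c9c900383900390022020202020202013a02cb92ca0040e0e0e0e0e0e0e1d2bbabac94948))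

/-- a cell -/
noncomputable def k_wN_1_rb8022_0 : KC := KC.mk (nat_lit 12) [nat_lit 0, nat_lit 1, nat_lit 2, nat_lit 3, nat_lit 4, nat_lit 5, nat_lit 6, nat_lit 7, nat_lit 8, nat_lit 9, nat_lit 10] (dCus (nat_lit 12) (nat_lit 22) (nat_lit 0x3939392020070707072020202403c26171993cd68752352093dc0090984c262e249910eaa6bc1285801279a1892a7cacaeac8b5aebc1120500299f939393635aca02369a02004727272724040404040400e40088888888888dc801c1c801c809038383839c9c9c9c96565650022cb92cacaca020139393a02024727272724040400e0e404040081c1c1c1c80e480e4801c1c8091c9c9c9c9c9c89c3839649d0023939393920072020202020200472727272724040400e0e404008d6d6d6d6d7e4d3c9ae93683b91c9c9c9c9c9c90038383901002393939393734b12d665f9850a45959595959595940270e27400880808080808080801c80e48011c9c9c9c9c9c9003839003900220202020202013a02cb92ca0040e0e0e0e0e0e1d2bbabac94948))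

/-- a cell -/
noncomputable def k_wN_1_rb8026_0 : KC := KC.mk (nat_lit 12) [nat_lit 0, nat_lit 1, nat_lit 2, nat_lit 3, nat_lit 4, nat_lit 5, nat_lit 6, nat_lit 7, nat_lit 8, nat_lit 9, nat_lit 10] (dCus (nat_lit 12) (nat_lit 22) (nat_lit 0x202020393920200707393920040180c1c19120bc8a5b38e213dc009e4e4801ca180808080808080103965656565656565333333002139393939393a02cb92ca020241e9e9e9e9ef261d0d0d0c040088080808080e4e4e4e4801c801038383838390101c9c933c9002246464645587181cdf5f64646440404040400e0e404072404048e4e4e4e4e4801c1c801c1c809165656501010165009c389d0123939393920072020202020202472727272724040400e0e404008e4e4e4e4808080801c80808011adadadadafc9a7935d26d077220202020202020202020072e04727272726e69625accbf30a148b2b2b2b2b2b2b2804e1c4e801101010101010101003901c9002393939393939200707200720040e0e0e0e0e0e1d2bbabac94948))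

end Pool.Agent.MOS.V6.S244
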