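import Pool.Agent.Lib.MP_b520b2_co.V6.Crit

/-!
# Cells, group 785
-/

set_option linter.all false

namespace Pool.Agent.MOS.V6.S244

/-- a cell -/
noncomputable def k_xs_42_wQ_26_wN_1_rb80330002_0 : KC := KC.mk (nat_lit 14) [nat_lit 0, nat_lit 1, nat_lit 2, nat_lit 3, nat_lit 4, nat_lit 5, nat_lit 6, nat_lit 7, nat_lit 8, nat_lit 9, nat_lit 10, nat_lit 11, nat_lit 12] (dCus (nat_lit 14) (nat_lit 22) (nat_lit 0x115151793935b5b5b26daa6962a0041e0781e08122893294b7328debcf09c8f400a2f8d93d10f4a94659d886a5ca7da2293a80150101010101c9c9c901003838390023939393920070720202020202020047272727240400e400e400e400e4008474744464496dae4c9e4d8e4807491bbbbc9bbba8a825a74425cba594423939392020202007202020202020042fafafaff2727261e1d0d0c0404008b2b2b2b2b280804e4e1c1c4e808011434343434300be38bf0101010100239393939202020070707072020200472727240404040400e0e0e4040400880808080808080801c801c80e480116565656565009c3838389d009d0122cacacaca02013a01387139393a02459595959595940272727270e2740084e4e4e4e4e4ee4e4b2e4b2b2b2809101010101010101c9c90101003901207070707070707070e95dd5d64a4a462e2e2e2e2e2e2e2e2e2d3c4b59bc8))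

/-- a cell -/
noncomputable def k_xs_42_wQ_26_wN_1_rb80330001_0 : KC := KC.mk (nat_lit 16) [nat_lit 0, nat_lit 1, nat_lit 2, nat_lit 3, nat_lit 4, nat_lit 5, nat_lit 6, nat_lit 7, nat_lit 8, nat_lit 9, nat_lit 10, nat_lit 11, nat_lit 12, nat_lit 13, nat_lit 14] (dCus (nat_lit 16) (nat_lit 25) (nat_lit 0xe0e0e0e0e0e61e1e6e1e1e1d6d0d0c048310c4310da3c1064753d5757d689c77d22193a8014761d8761d8799fa89a5ea8ae6cab6ef0c1d2150028a92f8d33a0fd4492750d5f609a573df988e4ea0054acacacacad0d4b70e21aa2ac13e2cc048e4e4e4e4e4e4e480801c1c1c1c1c1c80107a7a7a7a7a7bc9c9c987874545010100239393939393920070707070720202020040e0e0e0e40404040404040404040404648e4e4e4e4e4b2804e4e4e4e4e4e4e4e8011c9c9c9c9c9c8383838383901010101002202020202020203939392020070707202472727272727240400e400e400e400e40084747474744464496dae4c9e4d8e4807491c9c9c9c9c9010101003901010101010022cacacacacacaca0201393870713a02004727272727240404040400e0e0e40404008808080808080808080801c801c80e4801165656565656565009c3838389d009d0122cacacacacaca02013a01387139393a024595959595959595940272727270e2740084e4e4e4e4e4e4e4ee4e4b2e4b2b2b28091010101010101010101c9c901010039012070707070707070707070e95dd5d64a4a462e2e2e2e2e2e2e2e2e2e2e2d3c4b59bc8))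

end Pool.Agent.MOS.V6.S244
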