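import Pool.Agent.Lib.MP_b520b2_co.V6.Crit

/-!
# Cells, group 9
-/

set_option linter.all false

namespace Pool.Agent.MOS.V6.S244

/-- a cell -/
noncomputable def k_rb7b_0 : KC := KC.mk (nat_lit 9) [nat_lit 0, nat_lit 1, nat_lit 2, nat_lit 3, nat_lit 4, nat_lit 5, nat_lit 6, nat_lit 7] (dCus (nat_lit 9) (nat_lit 20) (nat_lit 0x1c9c9c900383901c900207a52339f122bd7e4fb0024ae572e1d532be764db00249c4e3421140bc794b30024ca65351ed1aaf7a4eb002470503420148c877cdf0026020200720203939200411e5e5f265e5ccd94008e4e4e4e4e4801c80801038383943434343430122eaeb6b9316aa3dd1ac40e0e0e595959595940081c1c8080808080e4809038390101010101011520707072039202020202440404040400e40724048e4e4e4e4801c1c1c809038383874aeeaeb252523939392ca0139393a00462e2e2e2e2d3c4b59bc8))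

/-- a cell -/
noncomputable def k_rb7b_1 : KC := KC.mk (nat_lit 9) [nat_lit 0, nat_lit 1, nat_lit 2, nat_lit 3, nat_lit 4, nat_lit 5, nat_lit 6, nat_lit 7] (dCus (nat_lit 9) (nat_lit 19) (nat_lit 0xe4e4e48080801c1c809050281a1069e5cbce5b8012582e180e48e5e3be6b80123d2b9c91aa861bae5f8013c9c9c965009c389d012393939200707203920044040400e40407272400823cbcbe4cbcb99b28011c9c9c9c9c9003901002070707286868686860245d5d6d7262d547ba35881c1c1cb2b2b2b2b2801038390101010101c9012070720202020202022a440404040400e40724048e4e4e4e4801c1c1c809038383874aeeaeb252523939392ca0139393a00462e2e2e2e2d3c4b59bc8))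

/-- a cell -/
noncomputable def k_rb69_0 : KC := KC.mk (nat_lit 9) [nat_lit 0, nat_lit 1, nat_lit 2, nat_lit 3, nat_lit 4, nat_lit 5, nat_lit 6, nat_lit 7] (dCus (nat_lit 9) (nat_lit 18) (nat_lit 0x39392007070707202024726eece3d8d244b020888080801c808080e48011010101003901c901002072020202020202023a40e404040404040724048e4e4d7c9b9a789623e90383901c9c90101010123938342febe7a15910e40e0e2734c05959594048dce4dad3c9bb996d3091010038390101c9c90023938f5f0eea9a39a0ee40e0e0e404072400e4048e4e4e4b2804e1c4e801038383965656565650122020202020072039202472727272400e0e0e4048))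

/-- a cell -/
noncomputable def k_rb68_0 : KC := KC.mk (nat_lit 10) [nat_lit 0, nat_lit 1, nat_lit 2, nat_lit 3, nat_lit 4, nat_lit 5, nat_lit 6, nat_lit 7, nat_lit 8] (dCus (nat_lit 10) (nat_lit 16) (nat_lit 0x3937f572efece8e199d0e40546c573c26574db7e4fb00247202020202020202022e40e0e274059595959594048d7d71c1c1c1c8080808010bebebe396586df42df0023939377671ec6922581064404040400e40404072400880808080801c80e48080118989c9ad936b4f1ce8da207072020202020202023a47272726be4dcd3c4b11f48e4e4e0d0bfaf9e85644391c9c9c9c965009c389d00220202020202007203920247272727272400e0e0e4048))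

/-- a cell -/
noncomputable def k_rb52_0 : KC := KC.mk (nat_lit 11) [nat_lit 0, nat_lit 1, nat_lit 2, nat_lit 3, nat_lit 4, nat_lit 5, nat_lit 6, nat_lit 7, nat_lit 8, nat_lit 9] (dCus (nat_lit 11) (nat_lit 25) (nat_lit 0xe72727259595959595940485f1c1c5f5f5f5fc3c3808011c965009c9c9c9c9d01010023937f674b16e2a66a11a52240e0e0e274059595959594048e41c1c1c1c1c1c8080808010390101010101010101012123920202020202020072020040e0e0e0e0e72727259404008e4e4e4c3a1805f3d3d5f8011c9c9c9c90101010038390023938b775732f2a26e15911e4727272725940270e27404008808080801c1c808080e48011c9c1b39d8167513b06d68f239392cacaca013939393a0044040404061f2402fafafc0485f5f5f5f1cb2c36fa16f8091c9c9c9bbb38f634912c0832202020202020072039202004626262726b64dad3c73a3688e4e4e4e4e4b2804e1c4e8011010101010101003901c90123939393939392007070720240e0e0e0e0e1d2bbabac94948))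

/-- a cell -/
noncomputable def k_rb4f_0 : KC := KC.mk (nat_lit 15) [nat_lit 0, nat_lit 1, nat_lit 2, nat_lit 3, nat_lit 4, nat_lit 5, nat_lit 6, nat_lit 7, nat_lit 8, nat_lit 9, nat_lit 10, nat_lit 11, nat_lit 12, nat_lit 13] (dCus (nat_lit 15) (nat_lit 14) (nat_lit 0xe4e4e4e4b280808080804e1c1c4e80906799e729f689260a72d8c5352e43cf03487400a380e0380f84412d52967611a16f9db82e3ca00517a6b9e285a4a9fab2b9b1ad4386ef429255002870707393939392cacacacacacaca024727272727240400e0e0e0e0e40404008e4e4e4e4e4e4b28080804e1c1c4e801038383838385856545276bec2c725822393939393938b775732f2a26e15911e47272727272706ce76059d44ec1b5a3c8808080808080808080801c80e480801189898989898989c9ad936b4f1ce8da22020202020202020202020072039202472727272727272727272400e0e0e4048))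

end Pool.Agent.MOS.V6.S244
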