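import Pool.Agent.Lib.MP_b520b2_co.Cert.S244.G0_0
import Pool.Agent.Lib.MP_b520b2_co.Cert.S244.G1_0
import Pool.Agent.Lib.MP_b520b2_co.Cert.S244.G9_0
import Pool.Agent.Lib.MP_b520b2_co.Cert.S244.G10_0
import Pool.Agent.Lib.MP_b520b2_co.Cert.S244.G11_0
import Pool.Agent.Lib.MP_b520b2_co.Cert.S244.G12_0
import Pool.Agent.Lib.MP_b520b2_co.Cert.S244.G13_0
import Pool.Agent.Lib.MP_b520b2_co.Cert.S244.G14_0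
import Pool.Agent.Lib.MP_b520b2_co.Cert.S244.G15_0
import Pool.Agent.Lib.MP_b520b2_co.Cert.S244.G333_0
import Pool.Agent.Lib.MP_b520b2_co.Cert.S244.G333_1
import Pool.Agent.Lib.MP_b520b2_co.Cert.S244.G334_0
import Pool.Agent.Lib.MP_b520b2_co.Cert.S244.G335_0
import Pool.Agent.Lib.MP_b520b2_co.Cert.S244.G336_0
import Pool.Agent.Lib.MP_b520b2_co.Cert.S244.G337_0
import Pool.Agent.Lib.MP_b520b2_co.Cert.S244.G338_0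
import Pool.Agent.Lib.MP_b520b2_co.Cert.S244.G339_0
import Pool.Agent.Lib.MP_b520b2_co.Cert.S244.G340_0
import Pool.Agent.Lib.MP_b520b2_co.Cert.S244.G341_0
import Pool.Agent.Lib.MP_b520b2_co.Cert.S244.G342_0
import Pool.Agent.Lib.MP_b520b2_co.Cert.S244.G343_0
import Pool.Agent.Lib.MP_b520b2_co.Cert.S244.G344_0
import Pool.Agent.Lib.MP_b520b2_co.Cert.S244.G345_0
import Pool.Agent.Lib.MP_b520b2_co.Cert.S244.G346_0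
import Pool.Agent.Lib.MP_b520b2_co.Cert.S244.G347_0
import Pool.Agent.Lib.MP_b520b2_co.Cert.S244.G348_0
import Pool.Agent.Lib.MP_b520b2_co.Cert.S244.G349_0
import Pool.Agent.Lib.MP_b520b2_co.Cert.S244.G350_0
import Pool.Agent.Lib.MP_b520b2_co.Cert.S244.G351_0
import Pool.Agent.Lib.MP_b520b2_co.Cert.S244.G352_0
import Pool.Agent.Lib.MP_b520b2_co.Cert.S244.G353_0
import Pool.Agent.Lib.MP_b520b2_co.Cert.S244.G354_0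
import Pool.Agent.Lib.MP_b520b2_co.Cert.S244.G355_0
import Pool.Agent.Lib.MP_b520b2_co.Cert.S244.G356_0
import Pool.Agent.Lib.MP_b520b2_co.Cert.S244.G357_0
import Pool.Agent.Lib.MP_b520b2_co.Cert.S244.G370_0
import Pool.Agent.Lib.MP_b520b2_co.Cert.S244.G373_0
import Pool.Agent.Lib.MP_b520b2_co.Cert.S244.G670_0
import Pool.Agent.Lib.MP_b520b2_co.Cert.S244.G670_1
import Pool.Agent.Lib.MP_b520b2_co.Cert.S244.G672_0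
import Pool.Agent.Lib.MP_b520b2_co.Cert.S244.G673_0
import Pool.Agent.Lib.MP_b520b2_co.Cert.S244.G674_0
import Pool.Agent.Lib.MP_b520b2_co.Cert.S244.G675_0
import Pool.Agent.Lib.MP_b520b2_co.Cert.S244.G676_0
import Pool.Agent.Lib.MP_b520b2_co.Cert.S244.G677_0
import Pool.Agent.Lib.MP_b520b2_co.Cert.S244.G683_0
import Pool.Agent.Lib.MP_b520b2_co.Cert.S244.G684_0
import Pool.Agent.Lib.MP_b520b2_co.Cert.S244.G685_0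
import Pool.Agent.Lib.MP_b520b2_co.Cert.S244.G686_0
import Pool.Agent.Lib.MP_b520b2_co.Cert.S244.G698_0
import Pool.Agent.Lib.MP_b520b2_co.Cert.S244.G699_0
import Pool.Agent.Lib.MP_b520b2_co.Cert.S244.G700_0
import Pool.Agent.Lib.MP_b520b2_co.Cert.S244.G701_0
import Pool.Agent.Lib.MP_b520b2_co.Cert.S244.G710_0
import Pool.Agent.Lib.MP_b520b2_co.Cert.S244.G739_0
import Pool.Agent.Lib.MP_b520b2_co.Cert.S244.G739_1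
import Pool.Agent.Lib.MP_b520b2_co.Cert.S244.G742_0
import Pool.Agent.Lib.MP_b520b2_co.Cert.S244.G742_1
import Pool.Agent.Lib.MP_b520b2_co.Cert.S244.G744_0
import Pool.Agent.Lib.MP_b520b2_co.Cert.S244.G750_0
import Pool.Agent.Lib.MP_b520b2_co.Cert.S244.G750_1
import Pool.Agent.Lib.MP_b520b2_co.Cert.S244.G755_0
import Pool.Agent.Lib.MP_b520b2_co.Cert.S244.G766_0
import Pool.Agent.Lib.MP_b520b2_co.Cert.S244.G776_0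
import Pool.Agent.Lib.MP_b520b2_co.Cert.S244.G784_0
import Pool.Agent.Lib.MP_b520b2_co.Cert.S244.G785_0
import Pool.Agent.Lib.MP_b520b2_co.Cert.S244.G791_0
import Pool.Agent.Lib.MP_b520b2_co.Cert.S244.G794_0
import Pool.Agent.Lib.MP_b520b2_co.Cert.S244.G794_1
import Pool.Agent.Lib.MP_b520b2_co.Cert.S244.G795_0
import Pool.Agent.Lib.MP_b520b2_co.Cert.S244.G810_0
import Pool.Agent.Lib.MP_b520b2_co.Cert.S244.G810_1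
import Pool.Agent.Lib.MP_b520b2_co.Cert.S244.G811_0
import Pool.Agent.Lib.MP_b520b2_co.Cert.S244.G812_0
import Pool.Agent.Lib.MP_b520b2_co.Cert.S244.G813_0
import Pool.Agent.Lib.MP_b520b2_co.Cert.S244.G814_0
import Pool.Agent.Lib.MP_b520b2_co.Cert.S244.G815_0
import Pool.Agent.Lib.MP_b520b2_co.Cert.S244.G816_0
import Pool.Agent.Lib.MP_b520b2_co.Cert.S244.G817_0
import Pool.Agent.Lib.MP_b520b2_co.Cert.S244.G850_0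
import Pool.Agent.Lib.MP_b520b2_co.Cert.S244.G865_0
import Pool.Agent.Lib.MP_b520b2_co.Cert.S244.G865_1
import Pool.Agent.Lib.MP_b520b2_co.Cert.S244.G1148_0
import Pool.Agent.Lib.MP_b520b2_co.Cert.S244.G1148_1
import Pool.Agent.Lib.MP_b520b2_co.Cert.S244.G1149_0
import Pool.Agent.Lib.MP_b520b2_co.Cert.S244.G1150_0
import Pool.Agent.Lib.MP_b520b2_co.Cert.S244.G1151_0
import Pool.Agent.Lib.MP_b520b2_co.Cert.S244.G1151_1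
import Pool.Agent.Lib.MP_b520b2_co.Cert.S244.G1168_0
import Pool.Agent.Lib.MP_b520b2_co.Cert.S244.G1218_0
import Pool.Agent.Lib.MP_b520b2_co.Cert.S244.G1319_0
import Pool.Agent.Lib.MP_b520b2_co.Cert.S244.G1319_1
import Pool.Agent.Lib.MP_b520b2_co.Cert.S244.G1320_0
import Pool.Agent.Lib.MP_b520b2_co.Cert.S244.G1320_1
import Pool.Agent.Lib.MP_b520b2_co.Cert.S244.G1321_0
import Pool.Agent.Lib.MP_b520b2_co.Cert.S244.G1322_0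
import Pool.Agent.Lib.MP_b520b2_co.Cert.S244.G1323_0
import Pool.Agent.Lib.MP_b520b2_co.Cert.S244.G1324_0
import Pool.Agent.Lib.MP_b520b2_co.Cert.S244.G1325_0
import Pool.Agent.Lib.MP_b520b2_co.Cert.S244.G1326_0
import Pool.Agent.Lib.MP_b520b2_co.Cert.S244.G1326_1
import Pool.Agent.Lib.MP_b520b2_co.Cert.S244.G1327_0
import Pool.Agent.Lib.MP_b520b2_co.Cert.S244.G1327_1
import Pool.Agent.Lib.MP_b520b2_co.Cert.S244.G1328_0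
import Pool.Agent.Lib.MP_b520b2_co.Cert.S244.G1329_0
import Pool.Agent.Lib.MP_b520b2_co.Cert.S244.G1330_0
import Pool.Agent.Lib.MP_b520b2_co.Cert.S244.G1331_0
import Pool.Agent.Lib.MP_b520b2_co.Cert.S244.G1332_0
import Pool.Agent.Lib.MP_b520b2_co.Cert.S244.G1333_0
import Pool.Agent.Lib.MP_b520b2_co.Cert.S244.G1334_0
import Pool.Agent.Lib.MP_b520b2_co.Cert.S244.G1335_0
import Pool.Agent.Lib.MP_b520b2_co.Cert.S244.G1340_0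
import Pool.Agent.Lib.MP_b520b2_co.Cert.S244.G1504_0
import Pool.Agent.Lib.MP_b520b2_co.Cert.S244.G1507_0
import Pool.Agent.Lib.MP_b520b2_co.Cert.S244.G1508_0
import Pool.Agent.Lib.MP_b520b2_co.Cert.S244.G1509_0
import Pool.Agent.Lib.MP_b520b2_co.Cert.S244.G1509_1
import Pool.Agent.Lib.MP_b520b2_co.Cert.S244.G1510_0
import Pool.Agent.Lib.MP_b520b2_co.Cert.S244.G1511_0
import Pool.Agent.Lib.MP_b520b2_co.Cert.S244.G1512_0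
import Pool.Agent.Lib.MP_b520b2_co.Cert.S244.G1513_0
import Pool.Agent.Lib.MP_b520b2_co.Cert.S244.G1514_0
import Pool.Agent.Lib.MP_b520b2_co.Cert.S244.G1524_0
import Pool.Agent.Lib.MP_b520b2_co.Cert.S244.G3618_0
import Pool.Agent.Lib.MP_b520b2_co.Cert.S244.G3675_0
import Pool.Agent.Lib.MP_b520b2_co.Cert.S244.G3676_0
import Pool.Agent.Lib.MP_b520b2_co.Cert.S244.G3677_0
import Pool.Agent.Lib.MP_b520b2_co.Cert.S244.G3677_1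
import Pool.Agent.Lib.MP_b520b2_co.Cert.S244.G3677_2
import Pool.Agent.Lib.MP_b520b2_co.Cert.S244.G3677_3
import Pool.Agent.Lib.MP_b520b2_co.Cert.S244.G3678_0
import Pool.Agent.Lib.MP_b520b2_co.Cert.S244.G3679_0
import Pool.Agent.Lib.MP_b520b2_co.Cert.S244.G3680_0
import Pool.Agent.Lib.MP_b520b2_co.Cert.S244.G3681_0
import Pool.Agent.Lib.MP_b520b2_co.Cert.S244.G3682_0
import Pool.Agent.Lib.MP_b520b2_co.Cert.S244.G3683_0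
import Pool.Agent.Lib.MP_b520b2_co.Cert.S244.G3684_0
import Pool.Agent.Lib.MP_b520b2_co.Cert.S244.G3685_0
import Pool.Agent.Lib.MP_b520b2_co.Cert.S244.G3687_0
import Pool.Agent.Lib.MP_b520b2_co.Cert.S244.G3688_0
import Pool.Agent.Lib.MP_b520b2_co.Cert.S244.G3689_0
import Pool.Agent.Lib.MP_b520b2_co.Cert.S244.G3690_0
import Pool.Agent.Lib.MP_b520b2_co.Cert.S244.G3691_0
import Pool.Agent.Lib.MP_b520b2_co.Cert.S244.G3692_0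
import Pool.Agent.Lib.MP_b520b2_co.Cert.S244.G3693_0
import Pool.Agent.Lib.MP_b520b2_co.Cert.S244.G3694_0
import Pool.Agent.Lib.MP_b520b2_co.Cert.S244.G3695_0
import Pool.Agent.Lib.MP_b520b2_co.Cert.S244.G3696_0
import Pool.Agent.Lib.MP_b520b2_co.Cert.S244.G3697_0
import Pool.Agent.Lib.MP_b520b2_co.Cert.S244.G3698_0
import Pool.Agent.Lib.MP_b520b2_co.Cert.S244.G3699_0
import Pool.Agent.Lib.MP_b520b2_co.Cert.S244.G3700_0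
import Pool.Agent.Lib.MP_b520b2_co.Cert.S244.G3701_0
import Pool.Agent.Lib.MP_b520b2_co.Cert.S244.G3702_0
import Pool.Agent.Lib.MP_b520b2_co.Cert.S244.G3703_0
import Pool.Agent.Lib.MP_b520b2_co.Cert.S244.G3704_0
import Pool.Agent.Lib.MP_b520b2_co.Cert.S244.G3705_0
import Pool.Agent.Lib.MP_b520b2_co.Cert.S244.G3706_0
import Pool.Agent.Lib.MP_b520b2_co.Cert.S244.G3707_0
import Pool.Agent.Lib.MP_b520b2_co.Cert.S244.G3708_0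
import Pool.Agent.Lib.MP_b520b2_co.Cert.S244.G3709_0
import Pool.Agent.Lib.MP_b520b2_co.Cert.S244.G3710_0
import Pool.Agent.Lib.MP_b520b2_co.Cert.S244.G3711_0
import Pool.Agent.Lib.MP_b520b2_co.Cert.S244.G3714_0
import Pool.Agent.Lib.MP_b520b2_co.Cert.S244.G3715_0
import Pool.Agent.Lib.MP_b520b2_co.Cert.S244.G3716_0
import Pool.Agent.Lib.MP_b520b2_co.Cert.S244.G3717_0
import Pool.Agent.Lib.MP_b520b2_co.Cert.S244.G3718_0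
import Pool.Agent.Lib.MP_b520b2_co.Cert.S244.G3719_0
import Pool.Agent.Lib.MP_b520b2_co.Cert.S244.G3720_0
import Pool.Agent.Lib.MP_b520b2_co.Cert.S244.G3721_0
import Pool.Agent.Lib.MP_b520b2_co.Cert.S244.G3722_0
import Pool.Agent.Lib.MP_b520b2_co.Cert.S244.G3723_0
import Pool.Agent.Lib.MP_b520b2_co.Cert.S244.G3724_0
import Pool.Agent.Lib.MP_b520b2_co.Cert.S244.G3725_0
import Pool.Agent.Lib.MP_b520b2_co.Cert.S244.G3726_0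
import Pool.Agent.Lib.MP_b520b2_co.Cert.S244.G3727_0
import Pool.Agent.Lib.MP_b520b2_co.Cert.S244.G3728_0
import Pool.Agent.Lib.MP_b520b2_co.Cert.S244.G3729_0
import Pool.Agent.Lib.MP_b520b2_co.Cert.S244.G3730_0
import Pool.Agent.Lib.MP_b520b2_co.Cert.S244.G3731_0
import Pool.Agent.Lib.MP_b520b2_co.Cert.S244.G3732_0
import Pool.Agent.Lib.MP_b520b2_co.Cert.S244.G3733_0
import Pool.Agent.Lib.MP_b520b2_co.Cert.S244.G3734_0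
import Pool.Agent.Lib.MP_b520b2_co.Cert.S244.G3735_0
import Pool.Agent.Lib.MP_b520b2_co.Cert.S244.G3736_0
import Pool.Agent.Lib.MP_b520b2_co.Cert.S244.G3737_0
import Pool.Agent.Lib.MP_b520b2_co.Cert.S244.G3738_0
import Pool.Agent.Lib.MP_b520b2_co.Cert.S244.G3739_0
import Pool.Agent.Lib.MP_b520b2_co.Cert.S244.G3740_0
import Pool.Agent.Lib.MP_b520b2_co.Cert.S244.G3741_0
import Pool.Agent.Lib.MP_b520b2_co.Cert.S244.G3742_0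
import Pool.Agent.Lib.MP_b520b2_co.Cert.S244.G3743_0
import Pool.Agent.Lib.MP_b520b2_co.Cert.S244.G3744_0
import Pool.Agent.Lib.MP_b520b2_co.Cert.S244.G3745_0
import Pool.Agent.Lib.MP_b520b2_co.Cert.S244.G3746_0
import Pool.Agent.Lib.MP_b520b2_co.Cert.S244.G3747_0
import Pool.Agent.Lib.MP_b520b2_co.Cert.S244.G3748_0
import Pool.Agent.Lib.MP_b520b2_co.Cert.S244.G3749_0
import Pool.Agent.Lib.MP_b520b2_co.Cert.S244.G3750_0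
import Pool.Agent.Lib.MP_b520b2_co.Cert.S244.G3751_0
import Pool.Agent.Lib.MP_b520b2_co.Cert.S244.G3752_0
import Pool.Agent.Lib.MP_b520b2_co.Cert.S244.G3753_0
import Pool.Agent.Lib.MP_b520b2_co.Cert.S244.G3754_0
import Pool.Agent.Lib.MP_b520b2_co.Cert.S244.G3755_0
import Pool.Agent.Lib.MP_b520b2_co.Cert.S244.G3756_0
import Pool.Agent.Lib.MP_b520b2_co.Cert.S244.G3757_0
import Pool.Agent.Lib.MP_b520b2_co.Cert.S244.G3758_0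
import Pool.Agent.Lib.MP_b520b2_co.Cert.S244.G3759_0
import Pool.Agent.Lib.MP_b520b2_co.Cert.S244.G3760_0
import Pool.Agent.Lib.MP_b520b2_co.Cert.S244.G3761_0
import Pool.Agent.Lib.MP_b520b2_co.Cert.S244.G3762_0
import Pool.Agent.Lib.MP_b520b2_co.Cert.S244.G3763_0
import Pool.Agent.Lib.MP_b520b2_co.Cert.S244.G3764_0
import Pool.Agent.Lib.MP_b520b2_co.Cert.S244.G3765_0
import Pool.Agent.Lib.MP_b520b2_co.Cert.S244.G3766_0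
import Pool.Agent.Lib.MP_b520b2_co.Cert.S244.G3767_0
import Pool.Agent.Lib.MP_b520b2_co.Cert.S244.G3768_0
import Pool.Agent.Lib.MP_b520b2_co.Cert.S244.G3775_0
import Pool.Agent.Lib.MP_b520b2_co.Cert.S244.G3776_0
import Pool.Agent.Lib.MP_b520b2_co.Cert.S244.G3777_0
import Pool.Agent.Lib.MP_b520b2_co.Cert.S244.G3778_0
import Pool.Agent.Lib.MP_b520b2_co.Cert.S244.G3779_0
import Pool.Agent.Lib.MP_b520b2_co.Cert.S244.G3780_0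
import Pool.Agent.Lib.MP_b520b2_co.Cert.S244.G3780_1
import Pool.Agent.Lib.MP_b520b2_co.Cert.S244.G3781_0
import Pool.Agent.Lib.MP_b520b2_co.Cert.S244.G3782_0
import Pool.Agent.Lib.MP_b520b2_co.Cert.S244.G3782_1
import Pool.Agent.Lib.MP_b520b2_co.Cert.S244.G3783_0
import Pool.Agent.Lib.MP_b520b2_co.Cert.S244.G3783_1
import Pool.Agent.Lib.MP_b520b2_co.Cert.S244.G3784_0
import Pool.Agent.Lib.MP_b520b2_co.Cert.S244.G3785_0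
import Pool.Agent.Lib.MP_b520b2_co.Cert.S244.G3786_0
import Pool.Agent.Lib.MP_b520b2_co.Cert.S244.G3787_0
import Pool.Agent.Lib.MP_b520b2_co.Cert.S244.G3787_1
import Pool.Agent.Lib.MP_b520b2_co.Cert.S244.G3788_0
import Pool.Agent.Lib.MP_b520b2_co.Cert.S244.G3789_0
import Pool.Agent.Lib.MP_b520b2_co.Cert.S244.G3790_0
import Pool.Agent.Lib.MP_b520b2_co.Cert.S244.G3791_0
import Pool.Agent.Lib.MP_b520b2_co.Cert.S244.G3792_0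
import Pool.Agent.Lib.MP_b520b2_co.Cert.S244.G3793_0
import Pool.Agent.Lib.MP_b520b2_co.Cert.S244.G3794_0
import Pool.Agent.Lib.MP_b520b2_co.Cert.S244.G3795_0
import Pool.Agent.Lib.MP_b520b2_co.Cert.S244.G3796_0
import Pool.Agent.Lib.MP_b520b2_co.Cert.S244.G3797_0
import Pool.Agent.Lib.MP_b520b2_co.Cert.S244.G3798_0
import Pool.Agent.Lib.MP_b520b2_co.Cert.S244.G3798_1
import Pool.Agent.Lib.MP_b520b2_co.Cert.S244.G3799_0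
import Pool.Agent.Lib.MP_b520b2_co.Cert.S244.G3801_0
import Pool.Agent.Lib.MP_b520b2_co.Cert.S244.G3802_0
import Pool.Agent.Lib.MP_b520b2_co.Cert.S244.G3803_0
import Pool.Agent.Lib.MP_b520b2_co.Cert.S244.G3803_1
import Pool.Agent.Lib.MP_b520b2_co.Cert.S244.G3804_0
import Pool.Agent.Lib.MP_b520b2_co.Cert.S244.G3805_0
import Pool.Agent.Lib.MP_b520b2_co.Cert.S244.G3806_0
import Pool.Agent.Lib.MP_b520b2_co.Cert.S244.G3807_0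
import Pool.Agent.Lib.MP_b520b2_co.Cert.S244.G3808_0
import Pool.Agent.Lib.MP_b520b2_co.Cert.S244.G3809_0
import Pool.Agent.Lib.MP_b520b2_co.Cert.S244.G3810_0
import Pool.Agent.Lib.MP_b520b2_co.Cert.S244.G3811_0
import Pool.Agent.Lib.MP_b520b2_co.Cert.S244.G3811_1
import Pool.Agent.Lib.MP_b520b2_co.Cert.S244.G3812_0
import Pool.Agent.Lib.MP_b520b2_co.Cert.S244.G3813_0
import Pool.Agent.Lib.MP_b520b2_co.Cert.S244.G3813_1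
import Pool.Agent.Lib.MP_b520b2_co.Cert.S244.G3814_0
import Pool.Agent.Lib.MP_b520b2_co.Cert.S244.G3815_0
import Pool.Agent.Lib.MP_b520b2_co.Cert.S244.G3815_1
import Pool.Agent.Lib.MP_b520b2_co.Cert.S244.G3816_0
import Pool.Agent.Lib.MP_b520b2_co.Cert.S244.G3816_1
import Pool.Agent.Lib.MP_b520b2_co.Cert.S244.G3817_0
import Pool.Agent.Lib.MP_b520b2_co.Cert.S244.G3818_0
import Pool.Agent.Lib.MP_b520b2_co.Cert.S244.G3819_0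
import Pool.Agent.Lib.MP_b520b2_co.Cert.S244.G3820_0
import Pool.Agent.Lib.MP_b520b2_co.Cert.S244.G3820_1
import Pool.Agent.Lib.MP_b520b2_co.Cert.S244.G3820_2
import Pool.Agent.Lib.MP_b520b2_co.Cert.S244.G3821_0
import Pool.Agent.Lib.MP_b520b2_co.Cert.S244.G3821_1
import Pool.Agent.Lib.MP_b520b2_co.Cert.S244.G3822_0
import Pool.Agent.Lib.MP_b520b2_co.Cert.S244.G3822_1
import Pool.Agent.Lib.MP_b520b2_co.Cert.S244.G3823_0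
import Pool.Agent.Lib.MP_b520b2_co.Cert.S244.G3824_0
import Pool.Agent.Lib.MP_b520b2_co.Cert.S244.G3824_1
import Pool.Agent.Lib.MP_b520b2_co.Cert.S244.G3825_0
import Pool.Agent.Lib.MP_b520b2_co.Cert.S244.G3826_0
import Pool.Agent.Lib.MP_b520b2_co.Cert.S244.G3827_0
import Pool.Agent.Lib.MP_b520b2_co.Cert.S244.G3828_0
import Pool.Agent.Lib.MP_b520b2_co.Cert.S244.G3829_0
import Pool.Agent.Lib.MP_b520b2_co.Cert.S244.G3829_1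
import Pool.Agent.Lib.MP_b520b2_co.Cert.S244.G3830_0
import Pool.Agent.Lib.MP_b520b2_co.Cert.S244.G3831_0
import Pool.Agent.Lib.MP_b520b2_co.Cert.S244.G3831_1
import Pool.Agent.Lib.MP_b520b2_co.Cert.S244.G3832_0
import Pool.Agent.Lib.MP_b520b2_co.Cert.S244.G3832_1
import Pool.Agent.Lib.MP_b520b2_co.Cert.S244.G3833_0
import Pool.Agent.Lib.MP_b520b2_co.Cert.S244.G3834_0
import Pool.Agent.Lib.MP_b520b2_co.Cert.S244.G3835_0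
import Pool.Agent.Lib.MP_b520b2_co.Cert.S244.G3836_0
import Pool.Agent.Lib.MP_b520b2_co.Cert.S244.G3837_0
import Pool.Agent.Lib.MP_b520b2_co.Cert.S244.G3838_0
import Pool.Agent.Lib.MP_b520b2_co.Cert.S244.G3839_0
import Pool.Agent.Lib.MP_b520b2_co.Cert.S244.G3840_0
import Pool.Agent.Lib.MP_b520b2_co.Cert.S244.G3841_0
import Pool.Agent.Lib.MP_b520b2_co.Cert.S244.G3842_0
import Pool.Agent.Lib.MP_b520b2_co.Cert.S244.G3843_0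
import Pool.Agent.Lib.MP_b520b2_co.Cert.S244.G3844_0
import Pool.Agent.Lib.MP_b520b2_co.Cert.S244.G3844_1
import Pool.Agent.Lib.MP_b520b2_co.Cert.S244.G3845_0
import Pool.Agent.Lib.MP_b520b2_co.Cert.S244.G3846_0
import Pool.Agent.Lib.MP_b520b2_co.Cert.S244.G3846_1
import Pool.Agent.Lib.MP_b520b2_co.Cert.S244.G3847_0
import Pool.Agent.Lib.MP_b520b2_co.Cert.S244.G3848_0
import Pool.Agent.Lib.MP_b520b2_co.Cert.S244.G3849_0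
import Pool.Agent.Lib.MP_b520b2_co.Cert.S244.G3850_0
import Pool.Agent.Lib.MP_b520b2_co.Cert.S244.G3851_0
import Pool.Agent.Lib.MP_b520b2_co.Cert.S244.G3851_1
import Pool.Agent.Lib.MP_b520b2_co.Cert.S244.G3852_0
import Pool.Agent.Lib.MP_b520b2_co.Cert.S244.G3853_0
import Pool.Agent.Lib.MP_b520b2_co.Cert.S244.G3854_0
import Pool.Agent.Lib.MP_b520b2_co.Cert.S244.G3855_0
import Pool.Agent.Lib.MP_b520b2_co.Cert.S244.G3855_1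
import Pool.Agent.Lib.MP_b520b2_co.Cert.S244.G3856_0
import Pool.Agent.Lib.MP_b520b2_co.Cert.S244.G3857_0
import Pool.Agent.Lib.MP_b520b2_co.Cert.S244.G3858_0
import Pool.Agent.Lib.MP_b520b2_co.Cert.S244.G3859_0
import Pool.Agent.Lib.MP_b520b2_co.Cert.S244.G3860_0
import Pool.Agent.Lib.MP_b520b2_co.Cert.S244.G3861_0
import Pool.Agent.Lib.MP_b520b2_co.Cert.S244.G3861_1
import Pool.Agent.Lib.MP_b520b2_co.Cert.S244.G3862_0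
import Pool.Agent.Lib.MP_b520b2_co.Cert.S244.G3862_1
import Pool.Agent.Lib.MP_b520b2_co.Cert.S244.G3863_0
import Pool.Agent.Lib.MP_b520b2_co.Cert.S244.G3864_0
import Pool.Agent.Lib.MP_b520b2_co.Cert.S244.G3865_0
import Pool.Agent.Lib.MP_b520b2_co.Cert.S244.G3866_0
import Pool.Agent.Lib.MP_b520b2_co.Cert.S244.G3867_0
import Pool.Agent.Lib.MP_b520b2_co.Cert.S244.G3868_0
import Pool.Agent.Lib.MP_b520b2_co.Cert.S244.G3869_0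
import Pool.Agent.Lib.MP_b520b2_co.Cert.S244.G3870_0
import Pool.Agent.Lib.MP_b520b2_co.Cert.S244.G3871_0
import Pool.Agent.Lib.MP_b520b2_co.Cert.S244.G3872_0
import Pool.Agent.Lib.MP_b520b2_co.Cert.S244.G3873_0
import Pool.Agent.Lib.MP_b520b2_co.Cert.S244.G3874_0
import Pool.Agent.Lib.MP_b520b2_co.Cert.S244.G3875_0
import Pool.Agent.Lib.MP_b520b2_co.Cert.S244.G3875_1
import Pool.Agent.Lib.MP_b520b2_co.Cert.S244.G3876_0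
import Pool.Agent.Lib.MP_b520b2_co.Cert.S244.G3877_0
import Pool.Agent.Lib.MP_b520b2_co.Cert.S244.G3877_1
import Pool.Agent.Lib.MP_b520b2_co.Cert.S244.G3878_0
import Pool.Agent.Lib.MP_b520b2_co.Cert.S244.G3879_0
import Pool.Agent.Lib.MP_b520b2_co.Cert.S244.G3880_0
import Pool.Agent.Lib.MP_b520b2_co.Cert.S244.G3881_0
import Pool.Agent.Lib.MP_b520b2_co.Cert.S244.G3882_0
import Pool.Agent.Lib.MP_b520b2_co.Cert.S244.G3883_0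
import Pool.Agent.Lib.MP_b520b2_co.Cert.S244.G3884_0
import Pool.Agent.Lib.MP_b520b2_co.Cert.S244.G3885_0
import Pool.Agent.Lib.MP_b520b2_co.Cert.S244.G3886_0
import Pool.Agent.Lib.MP_b520b2_co.Cert.S244.G3886_1
import Pool.Agent.Lib.MP_b520b2_co.Cert.S244.G3887_0
import Pool.Agent.Lib.MP_b520b2_co.Cert.S244.G3888_0
import Pool.Agent.Lib.MP_b520b2_co.Cert.S244.G3888_1
import Pool.Agent.Lib.MP_b520b2_co.Cert.S244.G3889_0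
import Pool.Agent.Lib.MP_b520b2_co.Cert.S244.G3889_1
import Pool.Agent.Lib.MP_b520b2_co.Cert.S244.G3890_0
import Pool.Agent.Lib.MP_b520b2_co.Cert.S244.G3891_0
import Pool.Agent.Lib.MP_b520b2_co.Cert.S244.G3892_0
import Pool.Agent.Lib.MP_b520b2_co.Cert.S244.G3893_0
import Pool.Agent.Lib.MP_b520b2_co.Cert.S244.G3894_0
import Pool.Agent.Lib.MP_b520b2_co.Cert.S244.G3895_0
import Pool.Agent.Lib.MP_b520b2_co.Cert.S244.G3896_0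
import Pool.Agent.Lib.MP_b520b2_co.Cert.S244.G3897_0
import Pool.Agent.Lib.MP_b520b2_co.Cert.S244.G3898_0
import Pool.Agent.Lib.MP_b520b2_co.Cert.S244.G3899_0
import Pool.Agent.Lib.MP_b520b2_co.Cert.S244.G3900_0
import Pool.Agent.Lib.MP_b520b2_co.Cert.S244.G3901_0
import Pool.Agent.Lib.MP_b520b2_co.Cert.S244.G3902_0
import Pool.Agent.Lib.MP_b520b2_co.Cert.S244.G3903_0
import Pool.Agent.Lib.MP_b520b2_co.Cert.S244.G3904_0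
import Pool.Agent.Lib.MP_b520b2_co.Cert.S244.G3905_0
import Pool.Agent.Lib.MP_b520b2_co.Cert.S244.G3906_0
import Pool.Agent.Lib.MP_b520b2_co.Cert.S244.G3907_0
import Pool.Agent.Lib.MP_b520b2_co.Cert.S244.G3908_0
import Pool.Agent.Lib.MP_b520b2_co.Cert.S244.G3909_0
import Pool.Agent.Lib.MP_b520b2_co.Cert.S244.G3909_1
import Pool.Agent.Lib.MP_b520b2_co.Cert.S244.G3910_0
import Pool.Agent.Lib.MP_b520b2_co.Cert.S244.G3910_1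
import Pool.Agent.Lib.MP_b520b2_co.Cert.S244.G3911_0
import Pool.Agent.Lib.MP_b520b2_co.Cert.S244.G3912_0
import Pool.Agent.Lib.MP_b520b2_co.Cert.S244.G3913_0
import Pool.Agent.Lib.MP_b520b2_co.Cert.S244.G3914_0
import Pool.Agent.Lib.MP_b520b2_co.Cert.S244.G3915_0
import Pool.Agent.Lib.MP_b520b2_co.Cert.S244.G3916_0
import Pool.Agent.Lib.MP_b520b2_co.Cert.S244.G3917_0
import Pool.Agent.Lib.MP_b520b2_co.Cert.S244.G3917_1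
import Pool.Agent.Lib.MP_b520b2_co.Cert.S244.G3918_0
import Pool.Agent.Lib.MP_b520b2_co.Cert.S244.G3919_0
import Pool.Agent.Lib.MP_b520b2_co.Cert.S244.G3920_0
import Pool.Agent.Lib.MP_b520b2_co.Cert.S244.G3921_0
import Pool.Agent.Lib.MP_b520b2_co.Cert.S244.G3922_0
import Pool.Agent.Lib.MP_b520b2_co.Cert.S244.G3923_0
import Pool.Agent.Lib.MP_b520b2_co.Cert.S244.G3924_0
import Pool.Agent.Lib.MP_b520b2_co.Cert.S244.G3925_0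
import Pool.Agent.Lib.MP_b520b2_co.Cert.S244.G3925_1
import Pool.Agent.Lib.MP_b520b2_co.Cert.S244.G3926_0
import Pool.Agent.Lib.MP_b520b2_co.Cert.S244.G3927_0
import Pool.Agent.Lib.MP_b520b2_co.Cert.S244.G3928_0
import Pool.Agent.Lib.MP_b520b2_co.Cert.S244.G3928_1
import Pool.Agent.Lib.MP_b520b2_co.Cert.S244.G3929_0
import Pool.Agent.Lib.MP_b520b2_co.Cert.S244.G3930_0
import Pool.Agent.Lib.MP_b520b2_co.Cert.S244.G3931_0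
import Pool.Agent.Lib.MP_b520b2_co.Cert.S244.G3932_0
import Pool.Agent.Lib.MP_b520b2_co.Cert.S244.G3932_1
import Pool.Agent.Lib.MP_b520b2_co.Cert.S244.G3933_0
import Pool.Agent.Lib.MP_b520b2_co.Cert.S244.G3934_0
import Pool.Agent.Lib.MP_b520b2_co.Cert.S244.G3935_0
import Pool.Agent.Lib.MP_b520b2_co.Cert.S244.G3935_1
import Pool.Agent.Lib.MP_b520b2_co.Cert.S244.G3936_0
import Pool.Agent.Lib.MP_b520b2_co.Cert.S244.G3937_0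
import Pool.Agent.Lib.MP_b520b2_co.Cert.S244.G3937_1
import Pool.Agent.Lib.MP_b520b2_co.Cert.S244.G3938_0
import Pool.Agent.Lib.MP_b520b2_co.Cert.S244.G3939_0
import Pool.Agent.Lib.MP_b520b2_co.Cert.S244.G3940_0
import Pool.Agent.Lib.MP_b520b2_co.Cert.S244.G3941_0
import Pool.Agent.Lib.MP_b520b2_co.Cert.S244.G3942_0
import Pool.Agent.Lib.MP_b520b2_co.Cert.S244.G3943_0
import Pool.Agent.Lib.MP_b520b2_co.Cert.S244.G3944_0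
import Pool.Agent.Lib.MP_b520b2_co.Cert.S244.G3945_0
import Pool.Agent.Lib.MP_b520b2_co.Cert.S244.G3945_1
import Pool.Agent.Lib.MP_b520b2_co.Cert.S244.G3946_0
import Pool.Agent.Lib.MP_b520b2_co.Cert.S244.G3947_0
import Pool.Agent.Lib.MP_b520b2_co.Cert.S244.G3948_0
import Pool.Agent.Lib.MP_b520b2_co.Cert.S244.G3949_0
import Pool.Agent.Lib.MP_b520b2_co.Cert.S244.G3950_0
import Pool.Agent.Lib.MP_b520b2_co.Cert.S244.G3951_0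
import Pool.Agent.Lib.MP_b520b2_co.Cert.S244.G3952_0
import Pool.Agent.Lib.MP_b520b2_co.Cert.S244.G3953_0
import Pool.Agent.Lib.MP_b520b2_co.Cert.S244.G3954_0
import Pool.Agent.Lib.MP_b520b2_co.Cert.S244.G3955_0
import Pool.Agent.Lib.MP_b520b2_co.Cert.S244.G3955_1
import Pool.Agent.Lib.MP_b520b2_co.Cert.S244.G3956_0
import Pool.Agent.Lib.MP_b520b2_co.Cert.S244.G3957_0
import Pool.Agent.Lib.MP_b520b2_co.Cert.S244.G3958_0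
import Pool.Agent.Lib.MP_b520b2_co.Cert.S244.G3958_1
import Pool.Agent.Lib.MP_b520b2_co.Cert.S244.G3959_0
import Pool.Agent.Lib.MP_b520b2_co.Cert.S244.G3960_0
import Pool.Agent.Lib.MP_b520b2_co.Cert.S244.G3961_0
import Pool.Agent.Lib.MP_b520b2_co.Cert.S244.G3962_0
import Pool.Agent.Lib.MP_b520b2_co.Cert.S244.G3963_0
import Pool.Agent.Lib.MP_b520b2_co.Cert.S244.G3964_0
import Pool.Agent.Lib.MP_b520b2_co.Cert.S244.G3965_0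
import Pool.Agent.Lib.MP_b520b2_co.Cert.S244.G3966_0
import Pool.Agent.Lib.MP_b520b2_co.Cert.S244.G3967_0
import Pool.Agent.Lib.MP_b520b2_co.Cert.S244.G3968_0
import Pool.Agent.Lib.MP_b520b2_co.Cert.S244.G3969_0
import Pool.Agent.Lib.MP_b520b2_co.Cert.S244.G3970_0
import Pool.Agent.Lib.MP_b520b2_co.Cert.S244.G3971_0
import Pool.Agent.Lib.MP_b520b2_co.Cert.S244.G3972_0
import Pool.Agent.Lib.MP_b520b2_co.Cert.S244.G3973_0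
import Pool.Agent.Lib.MP_b520b2_co.Cert.S244.G3974_0
import Pool.Agent.Lib.MP_b520b2_co.Cert.S244.G3975_0
import Pool.Agent.Lib.MP_b520b2_co.Cert.S244.G3976_0
import Pool.Agent.Lib.MP_b520b2_co.Cert.S244.G3977_0
import Pool.Agent.Lib.MP_b520b2_co.Cert.S244.G3978_0
import Pool.Agent.Lib.MP_b520b2_co.Cert.S244.G3979_0
import Pool.Agent.Lib.MP_b520b2_co.Cert.S244.G3980_0
import Pool.Agent.Lib.MP_b520b2_co.Cert.S244.G3981_0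
import Pool.Agent.Lib.MP_b520b2_co.Cert.S244.G3982_0
import Pool.Agent.Lib.MP_b520b2_co.Cert.S244.G3983_0
import Pool.Agent.Lib.MP_b520b2_co.Cert.S244.G3984_0
import Pool.Agent.Lib.MP_b520b2_co.Cert.S244.G3985_0
import Pool.Agent.Lib.MP_b520b2_co.Cert.S244.G3986_0
import Pool.Agent.Lib.MP_b520b2_co.Cert.S244.G3987_0
import Pool.Agent.Lib.MP_b520b2_co.Cert.S244.G3988_0
import Pool.Agent.Lib.MP_b520b2_co.Cert.S244.G3988_1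
import Pool.Agent.Lib.MP_b520b2_co.Cert.S244.G3988_2
import Pool.Agent.Lib.MP_b520b2_co.Cert.S244.G3989_0
import Pool.Agent.Lib.MP_b520b2_co.Cert.S244.G3990_0
import Pool.Agent.Lib.MP_b520b2_co.Cert.S244.G3990_1
import Pool.Agent.Lib.MP_b520b2_co.Cert.S244.G3991_0
import Pool.Agent.Lib.MP_b520b2_co.Cert.S244.G3992_0
import Pool.Agent.Lib.MP_b520b2_co.Cert.S244.G3993_0
import Pool.Agent.Lib.MP_b520b2_co.Cert.S244.G3994_0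
import Pool.Agent.Lib.MP_b520b2_co.Cert.S244.G3995_0
import Pool.Agent.Lib.MP_b520b2_co.Cert.S244.G3996_0
import Pool.Agent.Lib.MP_b520b2_co.Cert.S244.G3996_1
import Pool.Agent.Lib.MP_b520b2_co.Cert.S244.G3997_0
import Pool.Agent.Lib.MP_b520b2_co.Cert.S244.G3998_0
import Pool.Agent.Lib.MP_b520b2_co.Cert.S244.G3999_0
import Pool.Agent.Lib.MP_b520b2_co.Cert.S244.G4000_0
import Pool.Agent.Lib.MP_b520b2_co.Cert.S244.G4001_0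
import Pool.Agent.Lib.MP_b520b2_co.Cert.S244.G4002_0
import Pool.Agent.Lib.MP_b520b2_co.Cert.S244.G4003_0
import Pool.Agent.Lib.MP_b520b2_co.Cert.S244.G4004_0
import Pool.Agent.Lib.MP_b520b2_co.Cert.S244.G4005_0
import Pool.Agent.Lib.MP_b520b2_co.Cert.S244.G4006_0
import Pool.Agent.Lib.MP_b520b2_co.Cert.S244.G4007_0
import Pool.Agent.Lib.MP_b520b2_co.Cert.S244.G4008_0
import Pool.Agent.Lib.MP_b520b2_co.Cert.S244.G4009_0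
import Pool.Agent.Lib.MP_b520b2_co.Cert.S244.G4010_0
import Pool.Agent.Lib.MP_b520b2_co.Cert.S244.G4011_0
import Pool.Agent.Lib.MP_b520b2_co.Cert.S244.G4012_0
import Pool.Agent.Lib.MP_b520b2_co.Cert.S244.G4013_0
import Pool.Agent.Lib.MP_b520b2_co.Cert.S244.G4014_0
import Pool.Agent.Lib.MP_b520b2_co.Cert.S244.G4015_0
import Pool.Agent.Lib.MP_b520b2_co.Cert.S244.G4016_0
import Pool.Agent.Lib.MP_b520b2_co.Cert.S244.G4017_0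
import Pool.Agent.Lib.MP_b520b2_co.Cert.S244.G4018_0
import Pool.Agent.Lib.MP_b520b2_co.Cert.S244.G4019_0
import Pool.Agent.Lib.MP_b520b2_co.Cert.S244.G4020_0
import Pool.Agent.Lib.MP_b520b2_co.Cert.S244.G4021_0
import Pool.Agent.Lib.MP_b520b2_co.Cert.S244.G4022_0
import Pool.Agent.Lib.MP_b520b2_co.Cert.S244.G4023_0
import Pool.Agent.Lib.MP_b520b2_co.Cert.S244.G4024_0
import Pool.Agent.Lib.MP_b520b2_co.Cert.S244.G4025_0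
import Pool.Agent.Lib.MP_b520b2_co.Cert.S244.G4025_1
import Pool.Agent.Lib.MP_b520b2_co.Cert.S244.G4026_0
import Pool.Agent.Lib.MP_b520b2_co.Cert.S244.G4027_0
import Pool.Agent.Lib.MP_b520b2_co.Cert.S244.G4028_0
import Pool.Agent.Lib.MP_b520b2_co.Cert.S244.G4029_0
import Pool.Agent.Lib.MP_b520b2_co.Cert.S244.G4030_0
import Pool.Agent.Lib.MP_b520b2_co.Cert.S244.G4031_0
import Pool.Agent.Lib.MP_b520b2_co.Cert.S244.G4032_0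
import Pool.Agent.Lib.MP_b520b2_co.Cert.S244.G4033_0
import Pool.Agent.Lib.MP_b520b2_co.Cert.S244.G4034_0
import Pool.Agent.Lib.MP_b520b2_co.Cert.S244.G4034_1
import Pool.Agent.Lib.MP_b520b2_co.Cert.S244.G4035_0
import Pool.Agent.Lib.MP_b520b2_co.Cert.S244.G4036_0
import Pool.Agent.Lib.MP_b520b2_co.Cert.S244.G4159_0
import Pool.Agent.Lib.MP_b520b2_co.Cert.S244.G4165_0
import Pool.Agent.Lib.MP_b520b2_co.Cert.S244.G4166_0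
import Pool.Agent.Lib.MP_b520b2_co.Cert.S244.G4166_1
import Pool.Agent.Lib.MP_b520b2_co.Cert.S244.G4167_0
import Pool.Agent.Lib.MP_b520b2_co.Cert.S244.G4168_0
import Pool.Agent.Lib.MP_b520b2_co.Cert.S244.G4168_1
import Pool.Agent.Lib.MP_b520b2_co.Cert.S244.G4169_0
import Pool.Agent.Lib.MP_b520b2_co.Cert.S244.G4170_0
import Pool.Agent.Lib.MP_b520b2_co.Cert.S244.G4171_0
import Pool.Agent.Lib.MP_b520b2_co.Cert.S244.G4172_0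
import Pool.Agent.Lib.MP_b520b2_co.Cert.S244.G4173_0
import Pool.Agent.Lib.MP_b520b2_co.Cert.S244.G4174_0
import Pool.Agent.Lib.MP_b520b2_co.Cert.S244.G4175_0
import Pool.Agent.Lib.MP_b520b2_co.Cert.S244.G4176_0
import Pool.Agent.Lib.MP_b520b2_co.Cert.S244.G4177_0
import Pool.Agent.Lib.MP_b520b2_co.Cert.S244.G4178_0
import Pool.Agent.Lib.MP_b520b2_co.Cert.S244.G4179_0
import Pool.Agent.Lib.MP_b520b2_co.Cert.S244.G4180_0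
import Pool.Agent.Lib.MP_b520b2_co.Cert.S244.G4181_0
import Pool.Agent.Lib.MP_b520b2_co.Cert.S244.G4182_0
import Pool.Agent.Lib.MP_b520b2_co.Cert.S244.G4183_0
import Pool.Agent.Lib.MP_b520b2_co.Cert.S244.G4184_0
import Pool.Agent.Lib.MP_b520b2_co.Cert.S244.G4185_0
import Pool.Agent.Lib.MP_b520b2_co.Cert.S244.G4188_0
import Pool.Agent.Lib.MP_b520b2_co.Cert.S244.G4189_0
import Pool.Agent.Lib.MP_b520b2_co.Cert.S244.G4190_0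
import Pool.Agent.Lib.MP_b520b2_co.Cert.S244.G4191_0
import Pool.Agent.Lib.MP_b520b2_co.Cert.S244.G4192_0
import Pool.Agent.Lib.MP_b520b2_co.Cert.S244.G4193_0
import Pool.Agent.Lib.MP_b520b2_co.Cert.S244.G4194_0
import Pool.Agent.Lib.MP_b520b2_co.Cert.S244.G4195_0
import Pool.Agent.Lib.MP_b520b2_co.Cert.S244.G4196_0
import Pool.Agent.Lib.MP_b520b2_co.Cert.S244.G4197_0
import Pool.Agent.Lib.MP_b520b2_co.Cert.S244.G4198_0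
import Pool.Agent.Lib.MP_b520b2_co.Cert.S244.G4199_0
import Pool.Agent.Lib.MP_b520b2_co.Cert.S244.G4199_1
import Pool.Agent.Lib.MP_b520b2_co.Cert.S244.G4200_0
import Pool.Agent.Lib.MP_b520b2_co.Cert.S244.G4201_0
import Pool.Agent.Lib.MP_b520b2_co.Cert.S244.G4202_0
import Pool.Agent.Lib.MP_b520b2_co.Cert.S244.G4203_0
import Pool.Agent.Lib.MP_b520b2_co.Cert.S244.G4204_0
import Pool.Agent.Lib.MP_b520b2_co.Cert.S244.G4205_0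
import Pool.Agent.Lib.MP_b520b2_co.Cert.S244.G4205_1
import Pool.Agent.Lib.MP_b520b2_co.Cert.S244.G4206_0
import Pool.Agent.Lib.MP_b520b2_co.Cert.S244.G4207_0
import Pool.Agent.Lib.MP_b520b2_co.Cert.S244.G4208_0
import Pool.Agent.Lib.MP_b520b2_co.Cert.S244.G4209_0
import Pool.Agent.Lib.MP_b520b2_co.Cert.S244.G4210_0
import Pool.Agent.Lib.MP_b520b2_co.Cert.S244.G4211_0
import Pool.Agent.Lib.MP_b520b2_co.Cert.S244.G4212_0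
import Pool.Agent.Lib.MP_b520b2_co.Cert.S244.G4213_0
import Pool.Agent.Lib.MP_b520b2_co.Cert.S244.G4214_0
import Pool.Agent.Lib.MP_b520b2_co.Cert.S244.G4222_0
import Pool.Agent.Lib.MP_b520b2_co.Cert.S244.G4225_0
import Pool.Agent.Lib.MP_b520b2_co.Cert.S244.G4226_0
import Pool.Agent.Lib.MP_b520b2_co.Cert.S244.G4227_0
import Pool.Agent.Lib.MP_b520b2_co.Cert.S244.G4229_0
import Pool.Agent.Lib.MP_b520b2_co.Cert.S244.G4230_0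
import Pool.Agent.Lib.MP_b520b2_co.Cert.S244.G4231_0
import Pool.Agent.Lib.MP_b520b2_co.Cert.S244.G4232_0
import Pool.Agent.Lib.MP_b520b2_co.Cert.S244.G4233_0
import Pool.Agent.Lib.MP_b520b2_co.Cert.S244.G4234_0
import Pool.Agent.Lib.MP_b520b2_co.Cert.S244.G4235_0
import Pool.Agent.Lib.MP_b520b2_co.Cert.S244.G4236_0
import Pool.Agent.Lib.MP_b520b2_co.Cert.S244.G4237_0
import Pool.Agent.Lib.MP_b520b2_co.Cert.S244.G4238_0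
import Pool.Agent.Lib.MP_b520b2_co.Cert.S244.G4248_0
import Pool.Agent.Lib.MP_b520b2_co.Cert.S244.G4251_0
import Pool.Agent.Lib.MP_b520b2_co.Cert.S244.G4252_0
import Pool.Agent.Lib.MP_b520b2_co.Cert.S244.G4252_1
import Pool.Agent.Lib.MP_b520b2_co.Cert.S244.G4253_0
import Pool.Agent.Lib.MP_b520b2_co.Cert.S244.G4254_0
import Pool.Agent.Lib.MP_b520b2_co.Cert.S244.G4256_0
import Pool.Agent.Lib.MP_b520b2_co.Cert.S244.G4259_0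
import Pool.Agent.Lib.MP_b520b2_co.Cert.S244.G4260_0
import Pool.Agent.Lib.MP_b520b2_co.Cert.S244.G4261_0
import Pool.Agent.Lib.MP_b520b2_co.Cert.S244.G4262_0
import Pool.Agent.Lib.MP_b520b2_co.Cert.S244.G4263_0
import Pool.Agent.Lib.MP_b520b2_co.Cert.S244.G4264_0
import Pool.Agent.Lib.MP_b520b2_co.Cert.S244.G4264_1
import Pool.Agent.Lib.MP_b520b2_co.Cert.S244.G4266_0
import Pool.Agent.Lib.MP_b520b2_co.Cert.S244.G4268_0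
import Pool.Agent.Lib.MP_b520b2_co.Cert.S244.G4268_1
import Pool.Agent.Lib.MP_b520b2_co.Cert.S244.G4269_0
import Pool.Agent.Lib.MP_b520b2_co.Cert.S244.G4270_0
import Pool.Agent.Lib.MP_b520b2_co.Cert.S244.G4271_0
import Pool.Agent.Lib.MP_b520b2_co.Cert.S244.G4272_0
import Pool.Agent.Lib.MP_b520b2_co.Cert.S244.G4273_0
import Pool.Agent.Lib.MP_b520b2_co.Cert.S244.G4274_0
import Pool.Agent.Lib.MP_b520b2_co.Cert.S244.G4275_0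
import Pool.Agent.Lib.MP_b520b2_co.Cert.S244.G4276_0
import Pool.Agent.Lib.MP_b520b2_co.Cert.S244.G4278_0
import Pool.Agent.Lib.MP_b520b2_co.Cert.S244.G4279_0
import Pool.Agent.Lib.MP_b520b2_co.Cert.S244.G4280_0
import Pool.Agent.Lib.MP_b520b2_co.Cert.S244.G4281_0
import Pool.Agent.Lib.MP_b520b2_co.Cert.S244.G4282_0
import Pool.Agent.Lib.MP_b520b2_co.Cert.S244.G4283_0
import Pool.Agent.Lib.MP_b520b2_co.Cert.S244.G4284_0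
import Pool.Agent.Lib.MP_b520b2_co.Cert.S244.G4285_0
import Pool.Agent.Lib.MP_b520b2_co.Cert.S244.G4286_0
import Pool.Agent.Lib.MP_b520b2_co.Cert.S244.G4287_0
import Pool.Agent.Lib.MP_b520b2_co.Cert.S244.G4288_0
import Pool.Agent.Lib.MP_b520b2_co.Cert.S244.G4289_0
import Pool.Agent.Lib.MP_b520b2_co.Cert.S244.G4291_0
import Pool.Agent.Lib.MP_b520b2_co.Cert.S244.G4292_0
import Pool.Agent.Lib.MP_b520b2_co.Cert.S244.G4293_0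
import Pool.Agent.Lib.MP_b520b2_co.Cert.S244.G4294_0
import Pool.Agent.Lib.MP_b520b2_co.Cert.S244.G4295_0
import Pool.Agent.Lib.MP_b520b2_co.Cert.S244.G4296_0
import Pool.Agent.Lib.MP_b520b2_co.Cert.S244.G4298_0
import Pool.Agent.Lib.MP_b520b2_co.Cert.S244.G4299_0
import Pool.Agent.Lib.MP_b520b2_co.Cert.S244.G4300_0
import Pool.Agent.Lib.MP_b520b2_co.Cert.S244.G4301_0
import Pool.Agent.Lib.MP_b520b2_co.Cert.S244.G4302_0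
import Pool.Agent.Lib.MP_b520b2_co.Cert.S244.G4303_0
import Pool.Agent.Lib.MP_b520b2_co.Cert.S244.G4304_0
import Pool.Agent.Lib.MP_b520b2_co.Cert.S244.G4305_0
import Pool.Agent.Lib.MP_b520b2_co.Cert.S244.G4306_0
import Pool.Agent.Lib.MP_b520b2_co.Cert.S244.G4307_0
import Pool.Agent.Lib.MP_b520b2_co.Cert.S244.G4308_0
import Pool.Agent.Lib.MP_b520b2_co.Cert.S244.G4309_0
import Pool.Agent.Lib.MP_b520b2_co.Cert.S244.G4310_0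
import Pool.Agent.Lib.MP_b520b2_co.Cert.S244.G4311_0
import Pool.Agent.Lib.MP_b520b2_co.Cert.S244.G4312_0
import Pool.Agent.Lib.MP_b520b2_co.Cert.S244.G4313_0
import Pool.Agent.Lib.MP_b520b2_co.Cert.S244.G4314_0
import Pool.Agent.Lib.MP_b520b2_co.Cert.S244.G4314_1
import Pool.Agent.Lib.MP_b520b2_co.Cert.S244.G4315_0
import Pool.Agent.Lib.MP_b520b2_co.Cert.S244.G4316_0
import Pool.Agent.Lib.MP_b520b2_co.Cert.S244.G4317_0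
import Pool.Agent.Lib.MP_b520b2_co.Cert.S244.G4317_1
import Pool.Agent.Lib.MP_b520b2_co.Cert.S244.G4318_0
import Pool.Agent.Lib.MP_b520b2_co.Cert.S244.G4319_0
import Pool.Agent.Lib.MP_b520b2_co.Cert.S244.G4320_0
import Pool.Agent.Lib.MP_b520b2_co.Cert.S244.G4322_0
import Pool.Agent.Lib.MP_b520b2_co.Cert.S244.G4323_0
import Pool.Agent.Lib.MP_b520b2_co.Cert.S244.G4324_0
import Pool.Agent.Lib.MP_b520b2_co.Cert.S244.G4325_0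
import Pool.Agent.Lib.MP_b520b2_co.Cert.S244.G4325_1
import Pool.Agent.Lib.MP_b520b2_co.Cert.S244.G4326_0
import Pool.Agent.Lib.MP_b520b2_co.Cert.S244.G4327_0
import Pool.Agent.Lib.MP_b520b2_co.Cert.S244.G4328_0
import Pool.Agent.Lib.MP_b520b2_co.Cert.S244.G4329_0
import Pool.Agent.Lib.MP_b520b2_co.Cert.S244.G4330_0
import Pool.Agent.Lib.MP_b520b2_co.Cert.S244.G4331_0
import Pool.Agent.Lib.MP_b520b2_co.Cert.S244.G4332_0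
import Pool.Agent.Lib.MP_b520b2_co.Cert.S244.G4334_0
import Pool.Agent.Lib.MP_b520b2_co.Cert.S244.G4335_0
import Pool.Agent.Lib.MP_b520b2_co.Cert.S244.G4336_0
import Pool.Agent.Lib.MP_b520b2_co.Cert.S244.G4337_0
import Pool.Agent.Lib.MP_b520b2_co.Cert.S244.G4338_0
import Pool.Agent.Lib.MP_b520b2_co.Cert.S244.G4339_0
import Pool.Agent.Lib.MP_b520b2_co.Cert.S244.G4340_0
import Pool.Agent.Lib.MP_b520b2_co.Cert.S244.G4341_0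
import Pool.Agent.Lib.MP_b520b2_co.Cert.S244.G4342_0
import Pool.Agent.Lib.MP_b520b2_co.Cert.S244.G4343_0
import Pool.Agent.Lib.MP_b520b2_co.Cert.S244.G4344_0
import Pool.Agent.Lib.MP_b520b2_co.Cert.S244.G4345_0
import Pool.Agent.Lib.MP_b520b2_co.Cert.S244.G4346_0
import Pool.Agent.Lib.MP_b520b2_co.Cert.S244.G4347_0
import Pool.Agent.Lib.MP_b520b2_co.Cert.S244.G4347_1
import Pool.Agent.Lib.MP_b520b2_co.Cert.S244.G4348_0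
import Pool.Agent.Lib.MP_b520b2_co.Cert.S244.G4349_0
import Pool.Agent.Lib.MP_b520b2_co.Cert.S244.G4350_0
import Pool.Agent.Lib.MP_b520b2_co.Cert.S244.G4351_0
import Pool.Agent.Lib.MP_b520b2_co.Cert.S244.G4352_0
import Pool.Agent.Lib.MP_b520b2_co.Cert.S244.G4353_0
import Pool.Agent.Lib.MP_b520b2_co.Cert.S244.G4355_0
import Pool.Agent.Lib.MP_b520b2_co.Cert.S244.G4356_0
import Pool.Agent.Lib.MP_b520b2_co.Cert.S244.G4357_0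
import Pool.Agent.Lib.MP_b520b2_co.Cert.S244.G4358_0
import Pool.Agent.Lib.MP_b520b2_co.Cert.S244.G4359_0
import Pool.Agent.Lib.MP_b520b2_co.Cert.S244.G4360_0
import Pool.Agent.Lib.MP_b520b2_co.Cert.S244.G4361_0
import Pool.Agent.Lib.MP_b520b2_co.Cert.S244.G4362_0
import Pool.Agent.Lib.MP_b520b2_co.Cert.S244.G4363_0
import Pool.Agent.Lib.MP_b520b2_co.Cert.S244.G4364_0
import Pool.Agent.Lib.MP_b520b2_co.Cert.S244.G4365_0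
import Pool.Agent.Lib.MP_b520b2_co.Cert.S244.G4366_0
import Pool.Agent.Lib.MP_b520b2_co.Cert.S244.G4367_0
import Pool.Agent.Lib.MP_b520b2_co.Cert.S244.G4367_1
import Pool.Agent.Lib.MP_b520b2_co.Cert.S244.G4368_0
import Pool.Agent.Lib.MP_b520b2_co.Cert.S244.G4369_0
import Pool.Agent.Lib.MP_b520b2_co.Cert.S244.G4370_0
import Pool.Agent.Lib.MP_b520b2_co.Cert.S244.G4372_0
import Pool.Agent.Lib.MP_b520b2_co.Cert.S244.G4373_0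
import Pool.Agent.Lib.MP_b520b2_co.Cert.S244.G4374_0
import Pool.Agent.Lib.MP_b520b2_co.Cert.S244.G4375_0
import Pool.Agent.Lib.MP_b520b2_co.Cert.S244.G4376_0
import Pool.Agent.Lib.MP_b520b2_co.Cert.S244.G4377_0
import Pool.Agent.Lib.MP_b520b2_co.Cert.S244.G4379_0
import Pool.Agent.Lib.MP_b520b2_co.Cert.S244.G4380_0
import Pool.Agent.Lib.MP_b520b2_co.Cert.S244.G4381_0
import Pool.Agent.Lib.MP_b520b2_co.Cert.S244.G4382_0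
import Pool.Agent.Lib.MP_b520b2_co.Cert.S244.G4383_0
import Pool.Agent.Lib.MP_b520b2_co.Cert.S244.G4384_0
import Pool.Agent.Lib.MP_b520b2_co.Cert.S244.G4384_1
import Pool.Agent.Lib.MP_b520b2_co.Cert.S244.G4385_0
import Pool.Agent.Lib.MP_b520b2_co.Cert.S244.G4386_0
import Pool.Agent.Lib.MP_b520b2_co.Cert.S244.G4387_0
import Pool.Agent.Lib.MP_b520b2_co.Cert.S244.G4388_0
import Pool.Agent.Lib.MP_b520b2_co.Cert.S244.G4389_0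
import Pool.Agent.Lib.MP_b520b2_co.Cert.S244.G4390_0
import Pool.Agent.Lib.MP_b520b2_co.Cert.S244.G4391_0
import Pool.Agent.Lib.MP_b520b2_co.Cert.S244.G4393_0
import Pool.Agent.Lib.MP_b520b2_co.Cert.S244.G4394_0
import Pool.Agent.Lib.MP_b520b2_co.Cert.S244.G4397_0
import Pool.Agent.Lib.MP_b520b2_co.Cert.S244.G4398_0
import Pool.Agent.Lib.MP_b520b2_co.Cert.S244.G4400_0
import Pool.Agent.Lib.MP_b520b2_co.Cert.S244.G4402_0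
import Pool.Agent.Lib.MP_b520b2_co.Cert.S244.G4402_1
import Pool.Agent.Lib.MP_b520b2_co.Cert.S244.G4403_0
import Pool.Agent.Lib.MP_b520b2_co.Cert.S244.G4404_0
import Pool.Agent.Lib.MP_b520b2_co.Cert.S244.G4405_0
import Pool.Agent.Lib.MP_b520b2_co.Cert.S244.G4406_0
import Pool.Agent.Lib.MP_b520b2_co.Cert.S244.G4408_0
import Pool.Agent.Lib.MP_b520b2_co.Cert.S244.G4409_0
import Pool.Agent.Lib.MP_b520b2_co.Cert.S244.G4410_0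
import Pool.Agent.Lib.MP_b520b2_co.Cert.S244.G4411_0
import Pool.Agent.Lib.MP_b520b2_co.Cert.S244.G4412_0
import Pool.Agent.Lib.MP_b520b2_co.Cert.S244.G4413_0
import Pool.Agent.Lib.MP_b520b2_co.Cert.S244.G4414_0
import Pool.Agent.Lib.MP_b520b2_co.Cert.S244.G4415_0
import Pool.Agent.Lib.MP_b520b2_co.Cert.S244.G4416_0
import Pool.Agent.Lib.MP_b520b2_co.Cert.S244.G4418_0
import Pool.Agent.Lib.MP_b520b2_co.Cert.S244.G4419_0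
import Pool.Agent.Lib.MP_b520b2_co.Cert.S244.G4420_0
import Pool.Agent.Lib.MP_b520b2_co.Cert.S244.G4421_0
import Pool.Agent.Lib.MP_b520b2_co.Cert.S244.G4422_0
import Pool.Agent.Lib.MP_b520b2_co.Cert.S244.G4423_0
import Pool.Agent.Lib.MP_b520b2_co.Cert.S244.G4424_0
import Pool.Agent.Lib.MP_b520b2_co.Cert.S244.G4425_0
import Pool.Agent.Lib.MP_b520b2_co.Cert.S244.G4426_0
import Pool.Agent.Lib.MP_b520b2_co.Cert.S244.G4427_0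
import Pool.Agent.Lib.MP_b520b2_co.Cert.S244.G4428_0
import Pool.Agent.Lib.MP_b520b2_co.Cert.S244.G4429_0
import Pool.Agent.Lib.MP_b520b2_co.Cert.S244.G4430_0
import Pool.Agent.Lib.MP_b520b2_co.Cert.S244.G4431_0
import Pool.Agent.Lib.MP_b520b2_co.Cert.S244.G4432_0
import Pool.Agent.Lib.MP_b520b2_co.Cert.S244.G4433_0
import Pool.Agent.Lib.MP_b520b2_co.Cert.S244.G4434_0
import Pool.Agent.Lib.MP_b520b2_co.Cert.S244.G4436_0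
import Pool.Agent.Lib.MP_b520b2_co.Cert.S244.G4437_0
import Pool.Agent.Lib.MP_b520b2_co.Cert.S244.G4438_0
import Pool.Agent.Lib.MP_b520b2_co.Cert.S244.G4439_0
import Pool.Agent.Lib.MP_b520b2_co.Cert.S244.G4440_0
import Pool.Agent.Lib.MP_b520b2_co.Cert.S244.G4441_0
import Pool.Agent.Lib.MP_b520b2_co.Cert.S244.G4442_0
import Pool.Agent.Lib.MP_b520b2_co.Cert.S244.G4443_0
import Pool.Agent.Lib.MP_b520b2_co.Cert.S244.G4444_0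
import Pool.Agent.Lib.MP_b520b2_co.Cert.S244.G4445_0
import Pool.Agent.Lib.MP_b520b2_co.Cert.S244.G4446_0
import Pool.Agent.Lib.MP_b520b2_co.Cert.S244.G4447_0
import Pool.Agent.Lib.MP_b520b2_co.Cert.S244.G4448_0
import Pool.Agent.Lib.MP_b520b2_co.Cert.S244.G4449_0
import Pool.Agent.Lib.MP_b520b2_co.Cert.S244.G4449_1
import Pool.Agent.Lib.MP_b520b2_co.Cert.S244.G4450_0
import Pool.Agent.Lib.MP_b520b2_co.Cert.S244.G4451_0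
import Pool.Agent.Lib.MP_b520b2_co.Cert.S244.G4452_0
import Pool.Agent.Lib.MP_b520b2_co.Cert.S244.G4453_0
import Pool.Agent.Lib.MP_b520b2_co.Cert.S244.G4454_0
import Pool.Agent.Lib.MP_b520b2_co.Cert.S244.G4455_0
import Pool.Agent.Lib.MP_b520b2_co.Cert.S244.G4456_0
import Pool.Agent.Lib.MP_b520b2_co.Cert.S244.G4457_0
import Pool.Agent.Lib.MP_b520b2_co.Cert.S244.G4458_0
import Pool.Agent.Lib.MP_b520b2_co.Cert.S244.G4459_0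
import Pool.Agent.Lib.MP_b520b2_co.Cert.S244.G4460_0
import Pool.Agent.Lib.MP_b520b2_co.Cert.S244.G4461_0
import Pool.Agent.Lib.MP_b520b2_co.Cert.S244.G4462_0
import Pool.Agent.Lib.MP_b520b2_co.Cert.S244.G4463_0
import Pool.Agent.Lib.MP_b520b2_co.Cert.S244.G4465_0
import Pool.Agent.Lib.MP_b520b2_co.Cert.S244.G4466_0
import Pool.Agent.Lib.MP_b520b2_co.Cert.S244.G4467_0
import Pool.Agent.Lib.MP_b520b2_co.Cert.S244.G4468_0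
import Pool.Agent.Lib.MP_b520b2_co.Cert.S244.G4469_0
import Pool.Agent.Lib.MP_b520b2_co.Cert.S244.G4470_0
import Pool.Agent.Lib.MP_b520b2_co.Cert.S244.G4471_0
import Pool.Agent.Lib.MP_b520b2_co.Cert.S244.G4473_0
import Pool.Agent.Lib.MP_b520b2_co.Cert.S244.G4474_0
import Pool.Agent.Lib.MP_b520b2_co.Cert.S244.G4475_0
import Pool.Agent.Lib.MP_b520b2_co.Cert.S244.G4476_0
import Pool.Agent.Lib.MP_b520b2_co.Cert.S244.G4476_1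
import Pool.Agent.Lib.MP_b520b2_co.Cert.S244.G4477_0
import Pool.Agent.Lib.MP_b520b2_co.Cert.S244.G4479_0
import Pool.Agent.Lib.MP_b520b2_co.Cert.S244.G4480_0
import Pool.Agent.Lib.MP_b520b2_co.Cert.S244.G4481_0
import Pool.Agent.Lib.MP_b520b2_co.Cert.S244.G4482_0
import Pool.Agent.Lib.MP_b520b2_co.Cert.S244.G4483_0
import Pool.Agent.Lib.MP_b520b2_co.Cert.S244.G4484_0
import Pool.Agent.Lib.MP_b520b2_co.Cert.S244.G4485_0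
import Pool.Agent.Lib.MP_b520b2_co.Cert.S244.G4486_0
import Pool.Agent.Lib.MP_b520b2_co.Cert.S244.G4487_0
import Pool.Agent.Lib.MP_b520b2_co.Cert.S244.G4488_0
import Pool.Agent.Lib.MP_b520b2_co.Cert.S244.G4489_0
import Pool.Agent.Lib.MP_b520b2_co.Cert.S244.G4490_0
import Pool.Agent.Lib.MP_b520b2_co.Cert.S244.G4491_0
import Pool.Agent.Lib.MP_b520b2_co.Cert.S244.G4492_0
import Pool.Agent.Lib.MP_b520b2_co.Cert.S244.G4493_0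
import Pool.Agent.Lib.MP_b520b2_co.Cert.S244.G4495_0
import Pool.Agent.Lib.MP_b520b2_co.Cert.S244.G4496_0
import Pool.Agent.Lib.MP_b520b2_co.Cert.S244.G4497_0
import Pool.Agent.Lib.MP_b520b2_co.Cert.S244.G4498_0
import Pool.Agent.Lib.MP_b520b2_co.Cert.S244.G4499_0
import Pool.Agent.Lib.MP_b520b2_co.Cert.S244.G4500_0
import Pool.Agent.Lib.MP_b520b2_co.Cert.S244.G4501_0
import Pool.Agent.Lib.MP_b520b2_co.Cert.S244.G4502_0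
import Pool.Agent.Lib.MP_b520b2_co.Cert.S244.G4503_0
import Pool.Agent.Lib.MP_b520b2_co.Cert.S244.G4505_0
import Pool.Agent.Lib.MP_b520b2_co.Cert.S244.G4506_0
import Pool.Agent.Lib.MP_b520b2_co.Cert.S244.G4507_0
import Pool.Agent.Lib.MP_b520b2_co.Cert.S244.G4508_0
import Pool.Agent.Lib.MP_b520b2_co.Cert.S244.G4509_0
import Pool.Agent.Lib.MP_b520b2_co.Cert.S244.G4510_0
import Pool.Agent.Lib.MP_b520b2_co.Cert.S244.G4511_0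
import Pool.Agent.Lib.MP_b520b2_co.Cert.S244.G4512_0
import Pool.Agent.Lib.MP_b520b2_co.Cert.S244.G4513_0
import Pool.Agent.Lib.MP_b520b2_co.Cert.S244.G4514_0
import Pool.Agent.Lib.MP_b520b2_co.Cert.S244.G4515_0
import Pool.Agent.Lib.MP_b520b2_co.Cert.S244.G4517_0
import Pool.Agent.Lib.MP_b520b2_co.Cert.S244.G4518_0
import Pool.Agent.Lib.MP_b520b2_co.Cert.S244.G4519_0
import Pool.Agent.Lib.MP_b520b2_co.Cert.S244.G4520_0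
import Pool.Agent.Lib.MP_b520b2_co.Cert.S244.G4521_0
import Pool.Agent.Lib.MP_b520b2_co.Cert.S244.G4522_0
import Pool.Agent.Lib.MP_b520b2_co.Cert.S244.G4524_0
import Pool.Agent.Lib.MP_b520b2_co.Cert.S244.G4524_1
import Pool.Agent.Lib.MP_b520b2_co.Cert.S244.G4525_0
import Pool.Agent.Lib.MP_b520b2_co.Cert.S244.G4526_0
import Pool.Agent.Lib.MP_b520b2_co.Cert.S244.G4527_0
import Pool.Agent.Lib.MP_b520b2_co.Cert.S244.G4530_0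
import Pool.Agent.Lib.MP_b520b2_co.Cert.S244.G4531_0
import Pool.Agent.Lib.MP_b520b2_co.Cert.S244.G4532_0
import Pool.Agent.Lib.MP_b520b2_co.Cert.S244.G4533_0
import Pool.Agent.Lib.MP_b520b2_co.Cert.S244.G4534_0
import Pool.Agent.Lib.MP_b520b2_co.Cert.S244.G4535_0
import Pool.Agent.Lib.MP_b520b2_co.Cert.S244.G4536_0
import Pool.Agent.Lib.MP_b520b2_co.Cert.S244.G4537_0
import Pool.Agent.Lib.MP_b520b2_co.Cert.S244.G4538_0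
import Pool.Agent.Lib.MP_b520b2_co.Cert.S244.G4539_0
import Pool.Agent.Lib.MP_b520b2_co.Cert.S244.G4540_0
import Pool.Agent.Lib.MP_b520b2_co.Cert.S244.G4541_0
import Pool.Agent.Lib.MP_b520b2_co.Cert.S244.G4542_0
import Pool.Agent.Lib.MP_b520b2_co.Cert.S244.G4543_0
import Pool.Agent.Lib.MP_b520b2_co.Cert.S244.G4544_0
import Pool.Agent.Lib.MP_b520b2_co.Cert.S244.G4545_0
import Pool.Agent.Lib.MP_b520b2_co.Cert.S244.G4546_0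
import Pool.Agent.Lib.MP_b520b2_co.Cert.S244.G4547_0
import Pool.Agent.Lib.MP_b520b2_co.Cert.S244.G4548_0
import Pool.Agent.Lib.MP_b520b2_co.Cert.S244.G4549_0
import Pool.Agent.Lib.MP_b520b2_co.Cert.S244.G4550_0
import Pool.Agent.Lib.MP_b520b2_co.Cert.S244.G4551_0
import Pool.Agent.Lib.MP_b520b2_co.Cert.S244.G4552_0
import Pool.Agent.Lib.MP_b520b2_co.Cert.S244.G4553_0
import Pool.Agent.Lib.MP_b520b2_co.Cert.S244.G4554_0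
import Pool.Agent.Lib.MP_b520b2_co.Cert.S244.G4555_0
import Pool.Agent.Lib.MP_b520b2_co.Cert.S244.G4556_0
import Pool.Agent.Lib.MP_b520b2_co.Cert.S244.G4558_0
import Pool.Agent.Lib.MP_b520b2_co.Cert.S244.G4560_0
import Pool.Agent.Lib.MP_b520b2_co.Cert.S244.G4561_0
import Pool.Agent.Lib.MP_b520b2_co.Cert.S244.G4562_0
import Pool.Agent.Lib.MP_b520b2_co.Cert.S244.G4565_0
import Pool.Agent.Lib.MP_b520b2_co.Cert.S244.G4567_0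
import Pool.Agent.Lib.MP_b520b2_co.Cert.S244.G4569_0
import Pool.Agent.Lib.MP_b520b2_co.Cert.S244.G4570_0
import Pool.Agent.Lib.MP_b520b2_co.Cert.S244.G4571_0
import Pool.Agent.Lib.MP_b520b2_co.Cert.S244.G4572_0
import Pool.Agent.Lib.MP_b520b2_co.Cert.S244.G4573_0
import Pool.Agent.Lib.MP_b520b2_co.Cert.S244.G4574_0
import Pool.Agent.Lib.MP_b520b2_co.Cert.S244.G4575_0
import Pool.Agent.Lib.MP_b520b2_co.Cert.S244.G4576_0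
import Pool.Agent.Lib.MP_b520b2_co.Cert.S244.G4577_0
import Pool.Agent.Lib.MP_b520b2_co.Cert.S244.G4581_0
import Pool.Agent.Lib.MP_b520b2_co.Cert.S244.G4584_0
import Pool.Agent.Lib.MP_b520b2_co.Cert.S244.G4585_0
import Pool.Agent.Lib.MP_b520b2_co.Cert.S244.G4586_0
import Pool.Agent.Lib.MP_b520b2_co.Cert.S244.G4589_0
import Pool.Agent.Lib.MP_b520b2_co.Cert.S244.G4590_0
import Pool.Agent.Lib.MP_b520b2_co.Cert.S244.G4591_0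
import Pool.Agent.Lib.MP_b520b2_co.Cert.S244.G4592_0
import Pool.Agent.Lib.MP_b520b2_co.Cert.S244.G4593_0
import Pool.Agent.Lib.MP_b520b2_co.Cert.S244.G4594_0
import Pool.Agent.Lib.MP_b520b2_co.Cert.S244.G4595_0
import Pool.Agent.Lib.MP_b520b2_co.Cert.S244.G4597_0
import Pool.Agent.Lib.MP_b520b2_co.Cert.S244.G4598_0
import Pool.Agent.Lib.MP_b520b2_co.Cert.S244.G4599_0
import Pool.Agent.Lib.MP_b520b2_co.Cert.S244.G4600_0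
import Pool.Agent.Lib.MP_b520b2_co.Cert.S244.G4601_0
import Pool.Agent.Lib.MP_b520b2_co.Cert.S244.G4602_0
import Pool.Agent.Lib.MP_b520b2_co.Cert.S244.G4603_0
import Pool.Agent.Lib.MP_b520b2_co.Cert.S244.G4604_0
import Pool.Agent.Lib.MP_b520b2_co.Cert.S244.G4606_0
import Pool.Agent.Lib.MP_b520b2_co.Cert.S244.G4607_0
import Pool.Agent.Lib.MP_b520b2_co.Cert.S244.G4609_0
import Pool.Agent.Lib.MP_b520b2_co.Cert.S244.G4609_1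
import Pool.Agent.Lib.MP_b520b2_co.Cert.S244.G4610_0
import Pool.Agent.Lib.MP_b520b2_co.Cert.S244.G4611_0
import Pool.Agent.Lib.MP_b520b2_co.Cert.S244.G4612_0
import Pool.Agent.Lib.MP_b520b2_co.Cert.S244.G4613_0
import Pool.Agent.Lib.MP_b520b2_co.Cert.S244.G4614_0

/-!
# Certificates, the whole tree
-/

set_option linter.all false

namespace Pool.Agent.MOS.V6.S244

theorem g_rb85 : GoodKC AS c_rb85 := p_rb85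

theorem g__rb81_3 : GoodKC AS k_rb81_3 := p_rb81_3

theorem g__rb81_2 : GoodKC AS k_rb81_2 := p_rb81_2 g__rb81_3

theorem g__rb81_7 : GoodKC AS k_rb81_7 := p_rb81_7

theorem g__rb81_6 : GoodKC AS k_rb81_6 := p_rb81_6 g__rb81_7

theorem g__rb81_5 : GoodKC AS k_rb81_5 := p_rb81_5 g__rb81_6

theorem g__rb81_12 : GoodKC AS k_rb81_12 := p_rb81_12

theorem g__rb81_11 : GoodKC AS k_rb81_11 := p_rb81_11 g__rb81_12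

theorem g__rb81_10 : GoodKC AS k_rb81_10 := p_rb81_10 g__rb81_11

theorem g__rb81_13 : GoodKC AS k_rb81_13 := p_rb81_13

theorem g__rb81_9 : GoodKC AS k_rb81_9 := p_rb81_9 g__rb81_10 g__rb81_13

theorem g__rb81_8 : GoodKC AS k_rb81_8 := p_rb81_8 g__rb81_9

theorem g__rb81_4 : GoodKC AS k_rb81_4 := p_rb81_4 g__rb81_5 g__rb81_8

theorem g__rb81_15 : GoodKC AS k_rb81_15 := p_rb81_15

theorem g__rb81_14 : GoodKC AS k_rb81_14 := p_rb81_14 g__rb81_15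

theorem g__rb81_16 : GoodKC AS k_rb81_16 := p_rb81_16

theorem g__rb81_1 : GoodKC AS k_rb81_1 := p_rb81_1 g__rb81_2 g__rb81_4 g__rb81_14 g__rb81_16

theorem g__rb81_0 : GoodKC AS k_rb81_0 := p_rb81_0 g__rb81_1

theorem g_rb81 : GoodKC AS c_rb81 := p_rb81 g__rb81_0

theorem g_wQ_26_wN_1_rb8033094a_d43_d52x2 : GoodKC AS c_wQ_26_wN_1_rb8033094a_d43_d52x2 := p_wQ_26_wN_1_rb8033094a_d43_d52x2

theorem g_wQ_26_wN_1_rb8033094a_d43_d4ex2 : GoodKC AS c_wQ_26_wN_1_rb8033094a_d43_d4ex2 := p_wQ_26_wN_1_rb8033094a_d43_d4ex2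

theorem g_wQ_26_wN_1_rb8033094a_d43_d4dx2 : GoodKC AS c_wQ_26_wN_1_rb8033094a_d43_d4dx2 := p_wQ_26_wN_1_rb8033094a_d43_d4dx2

theorem g_wQ_26_wN_1_rb8033094a_d43_d4cx2 : GoodKC AS c_wQ_26_wN_1_rb8033094a_d43_d4cx2 := p_wQ_26_wN_1_rb8033094a_d43_d4cx2

theorem g__wQ_26_wN_1_rb8033094a_d43_d47x2_0 : GoodKC AS k_wQ_26_wN_1_rb8033094a_d43_d47x2_0 := p_wQ_26_wN_1_rb8033094a_d43_d47x2_0

theorem g__wQ_26_wN_1_rb8033094a_d43_d47x2_2 : GoodKC AS k_wQ_26_wN_1_rb8033094a_d43_d47x2_2 := p_wQ_26_wN_1_rb8033094a_d43_d47x2_2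

theorem g__wQ_26_wN_1_rb8033094a_d43_d47x2_3 : GoodKC AS k_wQ_26_wN_1_rb8033094a_d43_d47x2_3 := p_wQ_26_wN_1_rb8033094a_d43_d47x2_3

theorem g__wQ_26_wN_1_rb8033094a_d43_d47x2_1 : GoodKC AS k_wQ_26_wN_1_rb8033094a_d43_d47x2_1 := p_wQ_26_wN_1_rb8033094a_d43_d47x2_1 g__wQ_26_wN_1_rb8033094a_d43_d47x2_2 g__wQ_26_wN_1_rb8033094a_d43_d47x2_3

theorem g_wQ_26_wN_1_rb8033094a_d43_d47x2 : GoodKC AS c_wQ_26_wN_1_rb8033094a_d43_d47x2 := p_wQ_26_wN_1_rb8033094a_d43_d47x2 g__wQ_26_wN_1_rb8033094a_d43_d47x2_0 g__wQ_26_wN_1_rb8033094a_d43_d47x2_1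

theorem g_wQ_26_wN_1_rb8033094a_d43_d46_d42_d6cx8 : GoodKC AS c_wQ_26_wN_1_rb8033094a_d43_d46_d42_d6cx8 := p_wQ_26_wN_1_rb8033094a_d43_d46_d42_d6c

theorem g_wQ_26_wN_1_rb8033094a_d43_d46_d42_d6ax8 : GoodKC AS c_wQ_26_wN_1_rb8033094a_d43_d46_d42_d6ax8 := p_wQ_26_wN_1_rb8033094a_d43_d46_d42_d6ax3

theorem g__wQ_26_wN_1_rb8033094a_d43_d46_d42_d68x3_1 : GoodKC AS k_wQ_26_wN_1_rb8033094a_d43_d46_d42_d68x3_1 := p_wQ_26_wN_1_rb8033094a_d43_d46_d42_d68x3_1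

theorem g__wQ_26_wN_1_rb8033094a_d43_d46_d42_d68x3_0 : GoodKC AS k_wQ_26_wN_1_rb8033094a_d43_d46_d42_d68x3_0 := p_wQ_26_wN_1_rb8033094a_d43_d46_d42_d68x3_0 g__wQ_26_wN_1_rb8033094a_d43_d46_d42_d68x3_1

theorem g__wQ_26_wN_1_rb8033094a_d43_d46_d42_d68x3_2 : GoodKC AS k_wQ_26_wN_1_rb8033094a_d43_d46_d42_d68x3_2 := p_wQ_26_wN_1_rb8033094a_d43_d46_d42_d68x3_2

theorem g__wQ_26_wN_1_rb8033094a_d43_d46_d42_d68x3_5 : GoodKC AS k_wQ_26_wN_1_rb8033094a_d43_d46_d42_d68x3_5 := p_wQ_26_wN_1_rb8033094a_d43_d46_d42_d68x3_5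

theorem g__wQ_26_wN_1_rb8033094a_d43_d46_d42_d68x3_4 : GoodKC AS k_wQ_26_wN_1_rb8033094a_d43_d46_d42_d68x3_4 := p_wQ_26_wN_1_rb8033094a_d43_d46_d42_d68x3_4 g__wQ_26_wN_1_rb8033094a_d43_d46_d42_d68x3_5

theorem g__wQ_26_wN_1_rb8033094a_d43_d46_d42_d68x3_3 : GoodKC AS k_wQ_26_wN_1_rb8033094a_d43_d46_d42_d68x3_3 := p_wQ_26_wN_1_rb8033094a_d43_d46_d42_d68x3_3 g__wQ_26_wN_1_rb8033094a_d43_d46_d42_d68x3_4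

theorem g_wQ_26_wN_1_rb8033094a_d43_d46_d42_d68x8 : GoodKC AS c_wQ_26_wN_1_rb8033094a_d43_d46_d42_d68x8 := p_wQ_26_wN_1_rb8033094a_d43_d46_d42_d68x3 g__wQ_26_wN_1_rb8033094a_d43_d46_d42_d68x3_0 g__wQ_26_wN_1_rb8033094a_d43_d46_d42_d68x3_2 g__wQ_26_wN_1_rb8033094a_d43_d46_d42_d68x3_3

theorem g_wQ_26_wN_1_rb8033094a_d43_d46_d42_d67x8 : GoodKC AS c_wQ_26_wN_1_rb8033094a_d43_d46_d42_d67x8 := p_wQ_26_wN_1_rb8033094a_d43_d46_d42_d67x3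

theorem g_wQ_26_wN_1_rb8033094a_d43_d46_d42_d66x8 : GoodKC AS c_wQ_26_wN_1_rb8033094a_d43_d46_d42_d66x8 := p_wQ_26_wN_1_rb8033094a_d43_d46_d42_d66x2

theorem g__wQ_26_wN_1_rb8033094a_d43_d46_d42_d65x3_2 : GoodKC AS k_wQ_26_wN_1_rb8033094a_d43_d46_d42_d65x3_2 := p_wQ_26_wN_1_rb8033094a_d43_d46_d42_d65x3_2

theorem g__wQ_26_wN_1_rb8033094a_d43_d46_d42_d65x3_1 : GoodKC AS k_wQ_26_wN_1_rb8033094a_d43_d46_d42_d65x3_1 := p_wQ_26_wN_1_rb8033094a_d43_d46_d42_d65x3_1 g__wQ_26_wN_1_rb8033094a_d43_d46_d42_d65x3_2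

theorem g__wQ_26_wN_1_rb8033094a_d43_d46_d42_d65x3_0 : GoodKC AS k_wQ_26_wN_1_rb8033094a_d43_d46_d42_d65x3_0 := p_wQ_26_wN_1_rb8033094a_d43_d46_d42_d65x3_0 g__wQ_26_wN_1_rb8033094a_d43_d46_d42_d65x3_1

theorem g_wQ_26_wN_1_rb8033094a_d43_d46_d42_d65x8 : GoodKC AS c_wQ_26_wN_1_rb8033094a_d43_d46_d42_d65x8 := p_wQ_26_wN_1_rb8033094a_d43_d46_d42_d65x3 g__wQ_26_wN_1_rb8033094a_d43_d46_d42_d65x3_0

theorem g_wQ_26_wN_1_rb8033094a_d43_d46_d42_d64x8 : GoodKC AS c_wQ_26_wN_1_rb8033094a_d43_d46_d42_d64x8 := p_wQ_26_wN_1_rb8033094a_d43_d46_d42_d64x2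

theorem g_wQ_26_wN_1_rb8033094a_d43_d46_d42_d6323x2 : GoodKC AS c_wQ_26_wN_1_rb8033094a_d43_d46_d42_d6323x2 := p_wQ_26_wN_1_rb8033094a_d43_d46_d42_d6323

theorem g_wQ_26_wN_1_rb8033094a_d43_d46_d42_d6322x2 : GoodKC AS c_wQ_26_wN_1_rb8033094a_d43_d46_d42_d6322x2 := p_wQ_26_wN_1_rb8033094a_d43_d46_d42_d6322

theorem g_wQ_26_wN_1_rb8033094a_d43_d46_d42_d6320x2 : GoodKC AS c_wQ_26_wN_1_rb8033094a_d43_d46_d42_d6320x2 := p_wQ_26_wN_1_rb8033094a_d43_d46_d42_d6320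

theorem g__wQ_26_wN_1_rb8033094a_d43_d46_d42_d631a_3 : GoodKC AS k_wQ_26_wN_1_rb8033094a_d43_d46_d42_d631a_3 := p_wQ_26_wN_1_rb8033094a_d43_d46_d42_d631a_3

theorem g__wQ_26_wN_1_rb8033094a_d43_d46_d42_d631a_2 : GoodKC AS k_wQ_26_wN_1_rb8033094a_d43_d46_d42_d631a_2 := p_wQ_26_wN_1_rb8033094a_d43_d46_d42_d631a_2 g__wQ_26_wN_1_rb8033094a_d43_d46_d42_d631a_3

theorem g__wQ_26_wN_1_rb8033094a_d43_d46_d42_d631a_1 : GoodKC AS k_wQ_26_wN_1_rb8033094a_d43_d46_d42_d631a_1 := p_wQ_26_wN_1_rb8033094a_d43_d46_d42_d631a_1 g__wQ_26_wN_1_rb8033094a_d43_d46_d42_d631a_2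

theorem g__wQ_26_wN_1_rb8033094a_d43_d46_d42_d631a_4 : GoodKC AS k_wQ_26_wN_1_rb8033094a_d43_d46_d42_d631a_4 := p_wQ_26_wN_1_rb8033094a_d43_d46_d42_d631a_4

theorem g__wQ_26_wN_1_rb8033094a_d43_d46_d42_d631a_0 : GoodKC AS k_wQ_26_wN_1_rb8033094a_d43_d46_d42_d631a_0 := p_wQ_26_wN_1_rb8033094a_d43_d46_d42_d631a_0 g__wQ_26_wN_1_rb8033094a_d43_d46_d42_d631a_1 g__wQ_26_wN_1_rb8033094a_d43_d46_d42_d631a_4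

theorem g_wQ_26_wN_1_rb8033094a_d43_d46_d42_d631ax2 : GoodKC AS c_wQ_26_wN_1_rb8033094a_d43_d46_d42_d631ax2 := p_wQ_26_wN_1_rb8033094a_d43_d46_d42_d631a g__wQ_26_wN_1_rb8033094a_d43_d46_d42_d631a_0

theorem g__wQ_26_wN_1_rb8033094a_d43_d46_d42_d6318_1 : GoodKC AS k_wQ_26_wN_1_rb8033094a_d43_d46_d42_d6318_1 := p_wQ_26_wN_1_rb8033094a_d43_d46_d42_d6318_1

theorem g__wQ_26_wN_1_rb8033094a_d43_d46_d42_d6318_0 : GoodKC AS k_wQ_26_wN_1_rb8033094a_d43_d46_d42_d6318_0 := p_wQ_26_wN_1_rb8033094a_d43_d46_d42_d6318_0 g__wQ_26_wN_1_rb8033094a_d43_d46_d42_d6318_1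

theorem g_wQ_26_wN_1_rb8033094a_d43_d46_d42_d6318x2 : GoodKC AS c_wQ_26_wN_1_rb8033094a_d43_d46_d42_d6318x2 := p_wQ_26_wN_1_rb8033094a_d43_d46_d42_d6318 g__wQ_26_wN_1_rb8033094a_d43_d46_d42_d6318_0

theorem g_wQ_26_wN_1_rb8033094a_d43_d46_d42_d6315x2 : GoodKC AS c_wQ_26_wN_1_rb8033094a_d43_d46_d42_d6315x2 := p_wQ_26_wN_1_rb8033094a_d43_d46_d42_d6315

theorem g_wQ_26_wN_1_rb8033094a_d43_d46_d42_d6314x2 : GoodKC AS c_wQ_26_wN_1_rb8033094a_d43_d46_d42_d6314x2 := p_wQ_26_wN_1_rb8033094a_d43_d46_d42_d6314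

theorem g_wQ_26_wN_1_rb8033094a_d43_d46_d42_d6313x2 : GoodKC AS c_wQ_26_wN_1_rb8033094a_d43_d46_d42_d6313x2 := p_wQ_26_wN_1_rb8033094a_d43_d46_d42_d6313

theorem g_wQ_26_wN_1_rb8033094a_d43_d46_d42_d6312x2 : GoodKC AS c_wQ_26_wN_1_rb8033094a_d43_d46_d42_d6312x2 := p_wQ_26_wN_1_rb8033094a_d43_d46_d42_d6312

theorem g_wQ_26_wN_1_rb8033094a_d43_d46_d42_d6311x2 : GoodKC AS c_wQ_26_wN_1_rb8033094a_d43_d46_d42_d6311x2 := p_wQ_26_wN_1_rb8033094a_d43_d46_d42_d6311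

theorem g__wQ_26_wN_1_rb8033094a_d43_d46_d42_d63x2_1 : GoodKC AS k_wQ_26_wN_1_rb8033094a_d43_d46_d42_d63x2_1 := p_wQ_26_wN_1_rb8033094a_d43_d46_d42_d63x2_1

theorem g__wQ_26_wN_1_rb8033094a_d43_d46_d42_d63x2_5 : GoodKC AS k_wQ_26_wN_1_rb8033094a_d43_d46_d42_d63x2_5 := p_wQ_26_wN_1_rb8033094a_d43_d46_d42_d63x2_5

theorem g__wQ_26_wN_1_rb8033094a_d43_d46_d42_d63x2_4 : GoodKC AS k_wQ_26_wN_1_rb8033094a_d43_d46_d42_d63x2_4 := p_wQ_26_wN_1_rb8033094a_d43_d46_d42_d63x2_4 g__wQ_26_wN_1_rb8033094a_d43_d46_d42_d63x2_5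

theorem g__wQ_26_wN_1_rb8033094a_d43_d46_d42_d63x2_7 : GoodKC AS k_wQ_26_wN_1_rb8033094a_d43_d46_d42_d63x2_7 := p_wQ_26_wN_1_rb8033094a_d43_d46_d42_d63x2_7

theorem g__wQ_26_wN_1_rb8033094a_d43_d46_d42_d63x2_6 : GoodKC AS k_wQ_26_wN_1_rb8033094a_d43_d46_d42_d63x2_6 := p_wQ_26_wN_1_rb8033094a_d43_d46_d42_d63x2_6 g__wQ_26_wN_1_rb8033094a_d43_d46_d42_d63x2_7

theorem g__wQ_26_wN_1_rb8033094a_d43_d46_d42_d63x2_8 : GoodKC AS k_wQ_26_wN_1_rb8033094a_d43_d46_d42_d63x2_8 := p_wQ_26_wN_1_rb8033094a_d43_d46_d42_d63x2_8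

theorem g__wQ_26_wN_1_rb8033094a_d43_d46_d42_d63x2_3 : GoodKC AS k_wQ_26_wN_1_rb8033094a_d43_d46_d42_d63x2_3 := p_wQ_26_wN_1_rb8033094a_d43_d46_d42_d63x2_3 g__wQ_26_wN_1_rb8033094a_d43_d46_d42_d63x2_4 g__wQ_26_wN_1_rb8033094a_d43_d46_d42_d63x2_6 g__wQ_26_wN_1_rb8033094a_d43_d46_d42_d63x2_8

theorem g__wQ_26_wN_1_rb8033094a_d43_d46_d42_d63x2_9 : GoodKC AS k_wQ_26_wN_1_rb8033094a_d43_d46_d42_d63x2_9 := p_wQ_26_wN_1_rb8033094a_d43_d46_d42_d63x2_9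

theorem g__wQ_26_wN_1_rb8033094a_d43_d46_d42_d63x2_2 : GoodKC AS k_wQ_26_wN_1_rb8033094a_d43_d46_d42_d63x2_2 := p_wQ_26_wN_1_rb8033094a_d43_d46_d42_d63x2_2 g__wQ_26_wN_1_rb8033094a_d43_d46_d42_d63x2_3 g__wQ_26_wN_1_rb8033094a_d43_d46_d42_d63x2_9

theorem g__wQ_26_wN_1_rb8033094a_d43_d46_d42_d63x2_0 : GoodKC AS k_wQ_26_wN_1_rb8033094a_d43_d46_d42_d63x2_0 := p_wQ_26_wN_1_rb8033094a_d43_d46_d42_d63x2_0 g__wQ_26_wN_1_rb8033094a_d43_d46_d42_d63x2_1 g__wQ_26_wN_1_rb8033094a_d43_d46_d42_d63x2_2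

theorem g_wQ_26_wN_1_rb8033094a_d43_d46_d42_d630ex2 : GoodKC AS c_wQ_26_wN_1_rb8033094a_d43_d46_d42_d630ex2 := p_wQ_26_wN_1_rb8033094a_d43_d46_d42_d630e

theorem g__wQ_26_wN_1_rb8033094a_d43_d46_d42_d630d_0 : GoodKC AS k_wQ_26_wN_1_rb8033094a_d43_d46_d42_d630d_0 := p_wQ_26_wN_1_rb8033094a_d43_d46_d42_d630d_0

theorem g_wQ_26_wN_1_rb8033094a_d43_d46_d42_d630dx2 : GoodKC AS c_wQ_26_wN_1_rb8033094a_d43_d46_d42_d630dx2 := p_wQ_26_wN_1_rb8033094a_d43_d46_d42_d630d g__wQ_26_wN_1_rb8033094a_d43_d46_d42_d630d_0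

theorem g_wQ_26_wN_1_rb8033094a_d43_d46_d42_d630cx2 : GoodKC AS c_wQ_26_wN_1_rb8033094a_d43_d46_d42_d630cx2 := p_wQ_26_wN_1_rb8033094a_d43_d46_d42_d630c

theorem g__wQ_26_wN_1_rb8033094a_d43_d46_d42_d630b_0 : GoodKC AS k_wQ_26_wN_1_rb8033094a_d43_d46_d42_d630b_0 := p_wQ_26_wN_1_rb8033094a_d43_d46_d42_d630b_0

theorem g_wQ_26_wN_1_rb8033094a_d43_d46_d42_d630bx2 : GoodKC AS c_wQ_26_wN_1_rb8033094a_d43_d46_d42_d630bx2 := p_wQ_26_wN_1_rb8033094a_d43_d46_d42_d630b g__wQ_26_wN_1_rb8033094a_d43_d46_d42_d630b_0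

theorem g_wQ_26_wN_1_rb8033094a_d43_d46_d42_d630ax2 : GoodKC AS c_wQ_26_wN_1_rb8033094a_d43_d46_d42_d630ax2 := p_wQ_26_wN_1_rb8033094a_d43_d46_d42_d630a

theorem g_wQ_26_wN_1_rb8033094a_d43_d46_d42_d6308x2 : GoodKC AS c_wQ_26_wN_1_rb8033094a_d43_d46_d42_d6308x2 := p_wQ_26_wN_1_rb8033094a_d43_d46_d42_d6308

theorem g_wQ_26_wN_1_rb8033094a_d43_d46_d42_d6307x2 : GoodKC AS c_wQ_26_wN_1_rb8033094a_d43_d46_d42_d6307x2 := p_wQ_26_wN_1_rb8033094a_d43_d46_d42_d6307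

theorem g_wQ_26_wN_1_rb8033094a_d43_d46_d42_d6306x2 : GoodKC AS c_wQ_26_wN_1_rb8033094a_d43_d46_d42_d6306x2 := p_wQ_26_wN_1_rb8033094a_d43_d46_d42_d6306

theorem g_wQ_26_wN_1_rb8033094a_d43_d46_d42_d6305x2 : GoodKC AS c_wQ_26_wN_1_rb8033094a_d43_d46_d42_d6305x2 := p_wQ_26_wN_1_rb8033094a_d43_d46_d42_d6305

theorem g_wQ_26_wN_1_rb8033094a_d43_d46_d42_d6303x2 : GoodKC AS c_wQ_26_wN_1_rb8033094a_d43_d46_d42_d6303x2 := p_wQ_26_wN_1_rb8033094a_d43_d46_d42_d6303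

theorem g_wQ_26_wN_1_rb8033094a_d43_d46_d42_d6300x2 : GoodKC AS c_wQ_26_wN_1_rb8033094a_d43_d46_d42_d6300x2 := p_wQ_26_wN_1_rb8033094a_d43_d46_d42_d6300

theorem g_wQ_26_wN_1_rb8033094a_d43_d46_d42_d6301x2 : GoodKC AS c_wQ_26_wN_1_rb8033094a_d43_d46_d42_d6301x2 := p_wQ_26_wN_1_rb8033094a_d43_d46_d42_d6301

theorem g_wQ_26_wN_1_rb8033094a_d43_d46_d42_d6302x2 : GoodKC AS c_wQ_26_wN_1_rb8033094a_d43_d46_d42_d6302x2 := p_wQ_26_wN_1_rb8033094a_d43_d46_d42_d6302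

theorem g__wQ_26_wN_1_rb8033094a_d43_d46_d42_d63x2_12 : GoodKC AS k_wQ_26_wN_1_rb8033094a_d43_d46_d42_d63x2_12 := p_wQ_26_wN_1_rb8033094a_d43_d46_d42_d63x2_12

theorem g__wQ_26_wN_1_rb8033094a_d43_d46_d42_d63x2_11 : GoodKC AS k_wQ_26_wN_1_rb8033094a_d43_d46_d42_d63x2_11 := p_wQ_26_wN_1_rb8033094a_d43_d46_d42_d63x2_11 g__wQ_26_wN_1_rb8033094a_d43_d46_d42_d63x2_12

theorem g_wQ_26_wN_1_rb8033094a_d43_d46_d42_d6304x2 : GoodKC AS c_wQ_26_wN_1_rb8033094a_d43_d46_d42_d6304x2 := p_wQ_26_wN_1_rb8033094a_d43_d46_d42_d6304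

theorem g__wQ_26_wN_1_rb8033094a_d43_d46_d42_d63x2_10 : GoodKC AS k_wQ_26_wN_1_rb8033094a_d43_d46_d42_d63x2_10 := p_wQ_26_wN_1_rb8033094a_d43_d46_d42_d63x2_10 g_wQ_26_wN_1_rb8033094a_d43_d46_d42_d6307x2 g_wQ_26_wN_1_rb8033094a_d43_d46_d42_d6306x2 g_wQ_26_wN_1_rb8033094a_d43_d46_d42_d6305x2 g_wQ_26_wN_1_rb8033094a_d43_d46_d42_d6303x2 g_wQ_26_wN_1_rb8033094a_d43_d46_d42_d6300x2 g_wQ_26_wN_1_rb8033094a_d43_d46_d42_d6301x2 g_wQ_26_wN_1_rb8033094a_d43_d46_d42_d6302x2 g__wQ_26_wN_1_rb8033094a_d43_d46_d42_d63x2_11 g_wQ_26_wN_1_rb8033094a_d43_d46_d42_d6304x2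

theorem g__wQ_26_wN_1_rb8033094a_d43_d46_d42_d63x2_13 : GoodKC AS k_wQ_26_wN_1_rb8033094a_d43_d46_d42_d63x2_13 := p_wQ_26_wN_1_rb8033094a_d43_d46_d42_d63x2_13

theorem g__wQ_26_wN_1_rb8033094a_d43_d46_d42_d63x2_14 : GoodKC AS k_wQ_26_wN_1_rb8033094a_d43_d46_d42_d63x2_14 := p_wQ_26_wN_1_rb8033094a_d43_d46_d42_d63x2_14

theorem g_wQ_26_wN_1_rb8033094a_d43_d46_d42_d6309x2 : GoodKC AS c_wQ_26_wN_1_rb8033094a_d43_d46_d42_d6309x2 := p_wQ_26_wN_1_rb8033094a_d43_d46_d42_d6309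

theorem g_wQ_26_wN_1_rb8033094a_d43_d46_d42_d630fx2 : GoodKC AS c_wQ_26_wN_1_rb8033094a_d43_d46_d42_d630fx2 := p_wQ_26_wN_1_rb8033094a_d43_d46_d42_d630f

theorem g_wQ_26_wN_1_rb8033094a_d43_d46_d42_d6310x2 : GoodKC AS c_wQ_26_wN_1_rb8033094a_d43_d46_d42_d6310x2 := p_wQ_26_wN_1_rb8033094a_d43_d46_d42_d6310

theorem g__wQ_26_wN_1_rb8033094a_d43_d46_d42_d6316_0 : GoodKC AS k_wQ_26_wN_1_rb8033094a_d43_d46_d42_d6316_0 := p_wQ_26_wN_1_rb8033094a_d43_d46_d42_d6316_0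

theorem g_wQ_26_wN_1_rb8033094a_d43_d46_d42_d6316x2 : GoodKC AS c_wQ_26_wN_1_rb8033094a_d43_d46_d42_d6316x2 := p_wQ_26_wN_1_rb8033094a_d43_d46_d42_d6316 g__wQ_26_wN_1_rb8033094a_d43_d46_d42_d6316_0

theorem g_wQ_26_wN_1_rb8033094a_d43_d46_d42_d6317x2 : GoodKC AS c_wQ_26_wN_1_rb8033094a_d43_d46_d42_d6317x2 := p_wQ_26_wN_1_rb8033094a_d43_d46_d42_d6317

theorem g_wQ_26_wN_1_rb8033094a_d43_d46_d42_d6319x2 : GoodKC AS c_wQ_26_wN_1_rb8033094a_d43_d46_d42_d6319x2 := p_wQ_26_wN_1_rb8033094a_d43_d46_d42_d6319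

theorem g_wQ_26_wN_1_rb8033094a_d43_d46_d42_d631bx2 : GoodKC AS c_wQ_26_wN_1_rb8033094a_d43_d46_d42_d631bx2 := p_wQ_26_wN_1_rb8033094a_d43_d46_d42_d631b

theorem g_wQ_26_wN_1_rb8033094a_d43_d46_d42_d631cx2 : GoodKC AS c_wQ_26_wN_1_rb8033094a_d43_d46_d42_d631cx2 := p_wQ_26_wN_1_rb8033094a_d43_d46_d42_d631c

theorem g_wQ_26_wN_1_rb8033094a_d43_d46_d42_d631dx2 : GoodKC AS c_wQ_26_wN_1_rb8033094a_d43_d46_d42_d631dx2 := p_wQ_26_wN_1_rb8033094a_d43_d46_d42_d631d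

theorem g_wQ_26_wN_1_rb8033094a_d43_d46_d42_d631ex2 : GoodKC AS c_wQ_26_wN_1_rb8033094a_d43_d46_d42_d631ex2 := p_wQ_26_wN_1_rb8033094a_d43_d46_d42_d631e

theorem g_wQ_26_wN_1_rb8033094a_d43_d46_d42_d631fx2 : GoodKC AS c_wQ_26_wN_1_rb8033094a_d43_d46_d42_d631fx2 := p_wQ_26_wN_1_rb8033094a_d43_d46_d42_d631f

theorem g__wQ_26_wN_1_rb8033094a_d43_d46_d42_d6321_1 : GoodKC AS k_wQ_26_wN_1_rb8033094a_d43_d46_d42_d6321_1 := p_wQ_26_wN_1_rb8033094a_d43_d46_d42_d6321_1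

theorem g__wQ_26_wN_1_rb8033094a_d43_d46_d42_d6321_2 : GoodKC AS k_wQ_26_wN_1_rb8033094a_d43_d46_d42_d6321_2 := p_wQ_26_wN_1_rb8033094a_d43_d46_d42_d6321_2

theorem g__wQ_26_wN_1_rb8033094a_d43_d46_d42_d6321_5 : GoodKC AS k_wQ_26_wN_1_rb8033094a_d43_d46_d42_d6321_5 := p_wQ_26_wN_1_rb8033094a_d43_d46_d42_d6321_5

theorem g__wQ_26_wN_1_rb8033094a_d43_d46_d42_d6321_4 : GoodKC AS k_wQ_26_wN_1_rb8033094a_d43_d46_d42_d6321_4 := p_wQ_26_wN_1_rb8033094a_d43_d46_d42_d6321_4 g__wQ_26_wN_1_rb8033094a_d43_d46_d42_d6321_5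

theorem g__wQ_26_wN_1_rb8033094a_d43_d46_d42_d6321_3 : GoodKC AS k_wQ_26_wN_1_rb8033094a_d43_d46_d42_d6321_3 := p_wQ_26_wN_1_rb8033094a_d43_d46_d42_d6321_3 g__wQ_26_wN_1_rb8033094a_d43_d46_d42_d6321_4

theorem g__wQ_26_wN_1_rb8033094a_d43_d46_d42_d6321_0 : GoodKC AS k_wQ_26_wN_1_rb8033094a_d43_d46_d42_d6321_0 := p_wQ_26_wN_1_rb8033094a_d43_d46_d42_d6321_0 g__wQ_26_wN_1_rb8033094a_d43_d46_d42_d6321_1 g__wQ_26_wN_1_rb8033094a_d43_d46_d42_d6321_2 g__wQ_26_wN_1_rb8033094a_d43_d46_d42_d6321_3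

theorem g_wQ_26_wN_1_rb8033094a_d43_d46_d42_d6321x2 : GoodKC AS c_wQ_26_wN_1_rb8033094a_d43_d46_d42_d6321x2 := p_wQ_26_wN_1_rb8033094a_d43_d46_d42_d6321 g__wQ_26_wN_1_rb8033094a_d43_d46_d42_d6321_0

theorem g_wQ_26_wN_1_rb8033094a_d43_d46_d42_d63x8 : GoodKC AS c_wQ_26_wN_1_rb8033094a_d43_d46_d42_d63x8 := p_wQ_26_wN_1_rb8033094a_d43_d46_d42_d63x2 g_wQ_26_wN_1_rb8033094a_d43_d46_d42_d6323x2 g_wQ_26_wN_1_rb8033094a_d43_d46_d42_d6322x2 g_wQ_26_wN_1_rb8033094a_d43_d46_d42_d6320x2 g_wQ_26_wN_1_rb8033094a_d43_d46_d42_d631ax2 g_wQ_26_wN_1_rb8033094a_d43_d46_d42_d6318x2 g_wQ_26_wN_1_rb8033094a_d43_d46_d42_d6315x2 g_wQ_26_wN_1_rb8033094a_d43_d46_d42_d6314x2 g_wQ_26_wN_1_rb8033094a_d43_d46_d42_d6313x2 g_wQ_26_wN_1_rb8033094a_d43_d46_d42_d6312x2 g_wQ_26_wN_1_rb8033094a_d43_d46_d42_d6311x2 g__wQ_26_wN_1_rb8033094a_d43_d46_d42_d63x2_0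 g_wQ_26_wN_1_rb8033094a_d43_d46_d42_d630ex2 g_wQ_26_wN_1_rb8033094a_d43_d46_d42_d630dx2 g_wQ_26_wN_1_rb8033094a_d43_d46_d42_d630cx2 g_wQ_26_wN_1_rb8033094a_d43_d46_d42_d630bx2 g_wQ_26_wN_1_rb8033094a_d43_d46_d42_d630ax2 g_wQ_26_wN_1_rb8033094a_d43_d46_d42_d6308x2 g__wQ_26_wN_1_rb8033094a_d43_d46_d42_d63x2_10 g__wQ_26_wN_1_rb8033094a_d43_d46_d42_d63x2_13 g__wQ_26_wN_1_rb8033094a_d43_d46_d42_d63x2_14 g_wQ_26_wN_1_rb8033094a_d43_d46_d42_d6309x2 g_wQ_26_wN_1_rb8033094a_d43_d46_d42_d630fx2 g_wQ_26_wN_1_rb8033094a_d43_d46_d42_d6310x2 g_wQ_26_wN_1_rb8033094a_d43_d46_d42_d6316x2 g_wQ_26_wN_1_rb8033094a_d43_d46_d42_d6317x2 g_wQ_26_wN_1_rb8033094a_d43_d46_d42_d6319x2 g_wQ_26_wN_1_rb8033094a_d43_d46_d42_d631bx2 g_wQ_26_wN_1_rb8033094a_d43_d46_d42_d631cx2 g_wQ_26_wN_1_rb8033094a_d43_d46_d42_d631dx2 g_wQ_26_wN_1_rb8033094a_d43_d46_d42_d631ex2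 g_wQ_26_wN_1_rb8033094a_d43_d46_d42_d631fx2 g_wQ_26_wN_1_rb8033094a_d43_d46_d42_d6321x2

theorem g__wQ_26_wN_1_rb8033094a_d43_d46_d42_d62x3_1 : GoodKC AS k_wQ_26_wN_1_rb8033094a_d43_d46_d42_d62x3_1 := p_wQ_26_wN_1_rb8033094a_d43_d46_d42_d62x3_1

theorem g__wQ_26_wN_1_rb8033094a_d43_d46_d42_d62x3_0 : GoodKC AS k_wQ_26_wN_1_rb8033094a_d43_d46_d42_d62x3_0 := p_wQ_26_wN_1_rb8033094a_d43_d46_d42_d62x3_0 g__wQ_26_wN_1_rb8033094a_d43_d46_d42_d62x3_1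

theorem g_wQ_26_wN_1_rb8033094a_d43_d46_d42_d62x8 : GoodKC AS c_wQ_26_wN_1_rb8033094a_d43_d46_d42_d62x8 := p_wQ_26_wN_1_rb8033094a_d43_d46_d42_d62x3 g__wQ_26_wN_1_rb8033094a_d43_d46_d42_d62x3_0

theorem g_wQ_26_wN_1_rb8033094a_d43_d46_d42_d61x8 : GoodKC AS c_wQ_26_wN_1_rb8033094a_d43_d46_d42_d61x8 := p_wQ_26_wN_1_rb8033094a_d43_d46_d42_d61x2

theorem g__wQ_26_wN_1_rb8033094a_d43_d46_d42_d5fx3_0 : GoodKC AS k_wQ_26_wN_1_rb8033094a_d43_d46_d42_d5fx3_0 := p_wQ_26_wN_1_rb8033094a_d43_d46_d42_d5fx3_0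

theorem g__wQ_26_wN_1_rb8033094a_d43_d46_d42_d5fx3_1 : GoodKC AS k_wQ_26_wN_1_rb8033094a_d43_d46_d42_d5fx3_1 := p_wQ_26_wN_1_rb8033094a_d43_d46_d42_d5fx3_1

theorem g__wQ_26_wN_1_rb8033094a_d43_d46_d42_d5fx3_2 : GoodKC AS k_wQ_26_wN_1_rb8033094a_d43_d46_d42_d5fx3_2 := p_wQ_26_wN_1_rb8033094a_d43_d46_d42_d5fx3_2

theorem g_wQ_26_wN_1_rb8033094a_d43_d46_d42_d5fx8 : GoodKC AS c_wQ_26_wN_1_rb8033094a_d43_d46_d42_d5fx8 := p_wQ_26_wN_1_rb8033094a_d43_d46_d42_d5fx3 g__wQ_26_wN_1_rb8033094a_d43_d46_d42_d5fx3_0 g__wQ_26_wN_1_rb8033094a_d43_d46_d42_d5fx3_1 g__wQ_26_wN_1_rb8033094a_d43_d46_d42_d5fx3_2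

theorem g_wQ_26_wN_1_rb8033094a_d43_d46_d42_d5dx8 : GoodKC AS c_wQ_26_wN_1_rb8033094a_d43_d46_d42_d5dx8 := p_wQ_26_wN_1_rb8033094a_d43_d46_d42_d5dx3

theorem g_wQ_26_wN_1_rb8033094a_d43_d46_d42_d5bx8 : GoodKC AS c_wQ_26_wN_1_rb8033094a_d43_d46_d42_d5bx8 := p_wQ_26_wN_1_rb8033094a_d43_d46_d42_d5bx3

theorem g_wQ_26_wN_1_rb8033094a_d43_d46_d42_d59x8 : GoodKC AS c_wQ_26_wN_1_rb8033094a_d43_d46_d42_d59x8 := p_wQ_26_wN_1_rb8033094a_d43_d46_d42_d59x3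

theorem g_wQ_26_wN_1_rb8033094a_d43_d46_d42_d55x8 : GoodKC AS c_wQ_26_wN_1_rb8033094a_d43_d46_d42_d55x8 := p_wQ_26_wN_1_rb8033094a_d43_d46_d42_d55x3

theorem g_wQ_26_wN_1_rb8033094a_d43_d46_d42_d54x8 : GoodKC AS c_wQ_26_wN_1_rb8033094a_d43_d46_d42_d54x8 := p_wQ_26_wN_1_rb8033094a_d43_d46_d42_d54x3

theorem g__wQ_26_wN_1_rb8033094a_d43_d46_d42_d51x3_3 : GoodKC AS k_wQ_26_wN_1_rb8033094a_d43_d46_d42_d51x3_3 := p_wQ_26_wN_1_rb8033094a_d43_d46_d42_d51x3_3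

theorem g__wQ_26_wN_1_rb8033094a_d43_d46_d42_d51x3_2 : GoodKC AS k_wQ_26_wN_1_rb8033094a_d43_d46_d42_d51x3_2 := p_wQ_26_wN_1_rb8033094a_d43_d46_d42_d51x3_2 g__wQ_26_wN_1_rb8033094a_d43_d46_d42_d51x3_3

theorem g__wQ_26_wN_1_rb8033094a_d43_d46_d42_d51x3_1 : GoodKC AS k_wQ_26_wN_1_rb8033094a_d43_d46_d42_d51x3_1 := p_wQ_26_wN_1_rb8033094a_d43_d46_d42_d51x3_1 g__wQ_26_wN_1_rb8033094a_d43_d46_d42_d51x3_2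

theorem g__wQ_26_wN_1_rb8033094a_d43_d46_d42_d51x3_5 : GoodKC AS k_wQ_26_wN_1_rb8033094a_d43_d46_d42_d51x3_5 := p_wQ_26_wN_1_rb8033094a_d43_d46_d42_d51x3_5

theorem g__wQ_26_wN_1_rb8033094a_d43_d46_d42_d51x3_4 : GoodKC AS k_wQ_26_wN_1_rb8033094a_d43_d46_d42_d51x3_4 := p_wQ_26_wN_1_rb8033094a_d43_d46_d42_d51x3_4 g__wQ_26_wN_1_rb8033094a_d43_d46_d42_d51x3_5

theorem g__wQ_26_wN_1_rb8033094a_d43_d46_d42_d51x3_0 : GoodKC AS k_wQ_26_wN_1_rb8033094a_d43_d46_d42_d51x3_0 := p_wQ_26_wN_1_rb8033094a_d43_d46_d42_d51x3_0 g__wQ_26_wN_1_rb8033094a_d43_d46_d42_d51x3_1 g__wQ_26_wN_1_rb8033094a_d43_d46_d42_d51x3_4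

theorem g_wQ_26_wN_1_rb8033094a_d43_d46_d42_d51x8 : GoodKC AS c_wQ_26_wN_1_rb8033094a_d43_d46_d42_d51x8 := p_wQ_26_wN_1_rb8033094a_d43_d46_d42_d51x3 g__wQ_26_wN_1_rb8033094a_d43_d46_d42_d51x3_0

theorem g_wQ_26_wN_1_rb8033094a_d43_d46_d42_d4fx8 : GoodKC AS c_wQ_26_wN_1_rb8033094a_d43_d46_d42_d4fx8 := p_wQ_26_wN_1_rb8033094a_d43_d46_d42_d4fx2

theorem g_wQ_26_wN_1_rb8033094a_d43_d46_d42_d4ex8 : GoodKC AS c_wQ_26_wN_1_rb8033094a_d43_d46_d42_d4ex8 := p_wQ_26_wN_1_rb8033094a_d43_d46_d42_d4ex2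

theorem g_wQ_26_wN_1_rb8033094a_d43_d46_d42_d4cx8 : GoodKC AS c_wQ_26_wN_1_rb8033094a_d43_d46_d42_d4cx8 := p_wQ_26_wN_1_rb8033094a_d43_d46_d42_d4cx3

theorem g_wQ_26_wN_1_rb8033094a_d43_d46_d42_d4bx8 : GoodKC AS c_wQ_26_wN_1_rb8033094a_d43_d46_d42_d4bx8 := p_wQ_26_wN_1_rb8033094a_d43_d46_d42_d4b

theorem g_wQ_26_wN_1_rb8033094a_d43_d46_d42_d4a_d41_d09x3 : GoodKC AS c_wQ_26_wN_1_rb8033094a_d43_d46_d42_d4a_d41_d09x3 := p_wQ_26_wN_1_rb8033094a_d43_d46_d42_d4a_d41_d09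

theorem g__wQ_26_wN_1_rb8033094a_d43_d46_d42_d4ax3_3 : GoodKC AS k_wQ_26_wN_1_rb8033094a_d43_d46_d42_d4ax3_3 := p_wQ_26_wN_1_rb8033094a_d43_d46_d42_d4ax3_3

theorem g__wQ_26_wN_1_rb8033094a_d43_d46_d42_d4ax3_7 : GoodKC AS k_wQ_26_wN_1_rb8033094a_d43_d46_d42_d4ax3_7 := p_wQ_26_wN_1_rb8033094a_d43_d46_d42_d4ax3_7

theorem g__wQ_26_wN_1_rb8033094a_d43_d46_d42_d4ax3_6 : GoodKC AS k_wQ_26_wN_1_rb8033094a_d43_d46_d42_d4ax3_6 := p_wQ_26_wN_1_rb8033094a_d43_d46_d42_d4ax3_6 g__wQ_26_wN_1_rb8033094a_d43_d46_d42_d4ax3_7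

theorem g__wQ_26_wN_1_rb8033094a_d43_d46_d42_d4ax3_5 : GoodKC AS k_wQ_26_wN_1_rb8033094a_d43_d46_d42_d4ax3_5 := p_wQ_26_wN_1_rb8033094a_d43_d46_d42_d4ax3_5 g__wQ_26_wN_1_rb8033094a_d43_d46_d42_d4ax3_6

theorem g__wQ_26_wN_1_rb8033094a_d43_d46_d42_d4ax3_4 : GoodKC AS k_wQ_26_wN_1_rb8033094a_d43_d46_d42_d4ax3_4 := p_wQ_26_wN_1_rb8033094a_d43_d46_d42_d4ax3_4 g__wQ_26_wN_1_rb8033094a_d43_d46_d42_d4ax3_5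

theorem g__wQ_26_wN_1_rb8033094a_d43_d46_d42_d4ax3_2 : GoodKC AS k_wQ_26_wN_1_rb8033094a_d43_d46_d42_d4ax3_2 := p_wQ_26_wN_1_rb8033094a_d43_d46_d42_d4ax3_2 g__wQ_26_wN_1_rb8033094a_d43_d46_d42_d4ax3_3 g__wQ_26_wN_1_rb8033094a_d43_d46_d42_d4ax3_4

theorem g__wQ_26_wN_1_rb8033094a_d43_d46_d42_d4ax3_1 : GoodKC AS k_wQ_26_wN_1_rb8033094a_d43_d46_d42_d4ax3_1 := p_wQ_26_wN_1_rb8033094a_d43_d46_d42_d4ax3_1 g__wQ_26_wN_1_rb8033094a_d43_d46_d42_d4ax3_2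

theorem g__wQ_26_wN_1_rb8033094a_d43_d46_d42_d4ax3_8 : GoodKC AS k_wQ_26_wN_1_rb8033094a_d43_d46_d42_d4ax3_8 := p_wQ_26_wN_1_rb8033094a_d43_d46_d42_d4ax3_8

theorem g__wQ_26_wN_1_rb8033094a_d43_d46_d42_d4ax3_0 : GoodKC AS k_wQ_26_wN_1_rb8033094a_d43_d46_d42_d4ax3_0 := p_wQ_26_wN_1_rb8033094a_d43_d46_d42_d4ax3_0 g__wQ_26_wN_1_rb8033094a_d43_d46_d42_d4ax3_1 g__wQ_26_wN_1_rb8033094a_d43_d46_d42_d4ax3_8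

theorem g_wQ_26_wN_1_rb8033094a_d43_d46_d42_d4a_d41_d08x3 : GoodKC AS c_wQ_26_wN_1_rb8033094a_d43_d46_d42_d4a_d41_d08x3 := p_wQ_26_wN_1_rb8033094a_d43_d46_d42_d4a_d41_d08

theorem g_wQ_26_wN_1_rb8033094a_d43_d46_d42_d4a_d41_d07x3 : GoodKC AS c_wQ_26_wN_1_rb8033094a_d43_d46_d42_d4a_d41_d07x3 := p_wQ_26_wN_1_rb8033094a_d43_d46_d42_d4a_d41_d07

theorem g_wQ_26_wN_1_rb8033094a_d43_d46_d42_d4a_d41_d05x3 : GoodKC AS c_wQ_26_wN_1_rb8033094a_d43_d46_d42_d4a_d41_d05x3 := p_wQ_26_wN_1_rb8033094a_d43_d46_d42_d4a_d41_d05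

theorem g_wQ_26_wN_1_rb8033094a_d43_d46_d42_d4a_d41_d04x3 : GoodKC AS c_wQ_26_wN_1_rb8033094a_d43_d46_d42_d4a_d41_d04x3 := p_wQ_26_wN_1_rb8033094a_d43_d46_d42_d4a_d41_d04

theorem g_wQ_26_wN_1_rb8033094a_d43_d46_d42_d4a_d41_d01x3 : GoodKC AS c_wQ_26_wN_1_rb8033094a_d43_d46_d42_d4a_d41_d01x3 := p_wQ_26_wN_1_rb8033094a_d43_d46_d42_d4a_d41_d01

theorem g_wQ_26_wN_1_rb8033094a_d43_d46_d42_d4a_d41_d00x3 : GoodKC AS c_wQ_26_wN_1_rb8033094a_d43_d46_d42_d4a_d41_d00x3 := p_wQ_26_wN_1_rb8033094a_d43_d46_d42_d4a_d41_d00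

theorem g_wQ_26_wN_1_rb8033094a_d43_d46_d42_d4a_d41_d02x3 : GoodKC AS c_wQ_26_wN_1_rb8033094a_d43_d46_d42_d4a_d41_d02x3 := p_wQ_26_wN_1_rb8033094a_d43_d46_d42_d4a_d41_d02

theorem g_wQ_26_wN_1_rb8033094a_d43_d46_d42_d4a_d41_d03x3 : GoodKC AS c_wQ_26_wN_1_rb8033094a_d43_d46_d42_d4a_d41_d03x3 := p_wQ_26_wN_1_rb8033094a_d43_d46_d42_d4a_d41_d03

theorem g_wQ_26_wN_1_rb8033094a_d43_d46_d42_d4a_d41_d06x3 : GoodKC AS c_wQ_26_wN_1_rb8033094a_d43_d46_d42_d4a_d41_d06x3 := p_wQ_26_wN_1_rb8033094a_d43_d46_d42_d4a_d41_d06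

theorem g_wQ_26_wN_1_rb8033094a_d43_d46_d42_d4ax8 : GoodKC AS c_wQ_26_wN_1_rb8033094a_d43_d46_d42_d4ax8 := p_wQ_26_wN_1_rb8033094a_d43_d46_d42_d4ax3 g_wQ_26_wN_1_rb8033094a_d43_d46_d42_d4a_d41_d09x3 g__wQ_26_wN_1_rb8033094a_d43_d46_d42_d4ax3_0 g_wQ_26_wN_1_rb8033094a_d43_d46_d42_d4a_d41_d08x3 g_wQ_26_wN_1_rb8033094a_d43_d46_d42_d4a_d41_d07x3 g_wQ_26_wN_1_rb8033094a_d43_d46_d42_d4a_d41_d05x3 g_wQ_26_wN_1_rb8033094a_d43_d46_d42_d4a_d41_d04x3 g_wQ_26_wN_1_rb8033094a_d43_d46_d42_d4a_d41_d01x3 g_wQ_26_wN_1_rb8033094a_d43_d46_d42_d4a_d41_d00x3 g_wQ_26_wN_1_rb8033094a_d43_d46_d42_d4a_d41_d02x3 g_wQ_26_wN_1_rb8033094a_d43_d46_d42_d4a_d41_d03x3 g_wQ_26_wN_1_rb8033094a_d43_d46_d42_d4a_d41_d06x3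

theorem g_wQ_26_wN_1_rb8033094a_d43_d46_d42_d48x8 : GoodKC AS c_wQ_26_wN_1_rb8033094a_d43_d46_d42_d48x8 := p_wQ_26_wN_1_rb8033094a_d43_d46_d42_d48x2

theorem g__wQ_26_wN_1_rb8033094a_d43_d46_d42_d46x3_1 : GoodKC AS k_wQ_26_wN_1_rb8033094a_d43_d46_d42_d46x3_1 := p_wQ_26_wN_1_rb8033094a_d43_d46_d42_d46x3_1

theorem g__wQ_26_wN_1_rb8033094a_d43_d46_d42_d46x3_0 : GoodKC AS k_wQ_26_wN_1_rb8033094a_d43_d46_d42_d46x3_0 := p_wQ_26_wN_1_rb8033094a_d43_d46_d42_d46x3_0 g__wQ_26_wN_1_rb8033094a_d43_d46_d42_d46x3_1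

theorem g_wQ_26_wN_1_rb8033094a_d43_d46_d42_d46x8 : GoodKC AS c_wQ_26_wN_1_rb8033094a_d43_d46_d42_d46x8 := p_wQ_26_wN_1_rb8033094a_d43_d46_d42_d46x3 g__wQ_26_wN_1_rb8033094a_d43_d46_d42_d46x3_0

theorem g_wQ_26_wN_1_rb8033094a_d43_d46_d42_d45x8 : GoodKC AS c_wQ_26_wN_1_rb8033094a_d43_d46_d42_d45x8 := p_wQ_26_wN_1_rb8033094a_d43_d46_d42_d45x2

theorem g_wQ_26_wN_1_rb8033094a_d43_d46_d42_d43x8 : GoodKC AS c_wQ_26_wN_1_rb8033094a_d43_d46_d42_d43x8 := p_wQ_26_wN_1_rb8033094a_d43_d46_d42_d43x3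

theorem g__wQ_26_wN_1_rb8033094a_d43_d46_d42_d42x3_0 : GoodKC AS k_wQ_26_wN_1_rb8033094a_d43_d46_d42_d42x3_0 := p_wQ_26_wN_1_rb8033094a_d43_d46_d42_d42x3_0

theorem g_wQ_26_wN_1_rb8033094a_d43_d46_d42_d42x8 : GoodKC AS c_wQ_26_wN_1_rb8033094a_d43_d46_d42_d42x8 := p_wQ_26_wN_1_rb8033094a_d43_d46_d42_d42x3 g__wQ_26_wN_1_rb8033094a_d43_d46_d42_d42x3_0

theorem g_wQ_26_wN_1_rb8033094a_d43_d46_d42_d40x8 : GoodKC AS c_wQ_26_wN_1_rb8033094a_d43_d46_d42_d40x8 := p_wQ_26_wN_1_rb8033094a_d43_d46_d42_d40x2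

theorem g__wQ_26_wN_1_rb8033094a_d43_d46_d42_d3cx2_1 : GoodKC AS k_wQ_26_wN_1_rb8033094a_d43_d46_d42_d3cx2_1 := p_wQ_26_wN_1_rb8033094a_d43_d46_d42_d3cx2_1

theorem g__wQ_26_wN_1_rb8033094a_d43_d46_d42_d3cx2_0 : GoodKC AS k_wQ_26_wN_1_rb8033094a_d43_d46_d42_d3cx2_0 := p_wQ_26_wN_1_rb8033094a_d43_d46_d42_d3cx2_0 g__wQ_26_wN_1_rb8033094a_d43_d46_d42_d3cx2_1

theorem g_wQ_26_wN_1_rb8033094a_d43_d46_d42_d3cx8 : GoodKC AS c_wQ_26_wN_1_rb8033094a_d43_d46_d42_d3cx8 := p_wQ_26_wN_1_rb8033094a_d43_d46_d42_d3cx2 g__wQ_26_wN_1_rb8033094a_d43_d46_d42_d3cx2_0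

theorem g_wQ_26_wN_1_rb8033094a_d43_d46_d42_d3bx8 : GoodKC AS c_wQ_26_wN_1_rb8033094a_d43_d46_d42_d3bx8 := p_wQ_26_wN_1_rb8033094a_d43_d46_d42_d3b

theorem g_wQ_26_wN_1_rb8033094a_d43_d46_d42_d3ax8 : GoodKC AS c_wQ_26_wN_1_rb8033094a_d43_d46_d42_d3ax8 := p_wQ_26_wN_1_rb8033094a_d43_d46_d42_d3ax3

theorem g_wQ_26_wN_1_rb8033094a_d43_d46_d42_d39x8 : GoodKC AS c_wQ_26_wN_1_rb8033094a_d43_d46_d42_d39x8 := p_wQ_26_wN_1_rb8033094a_d43_d46_d42_d39x2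

theorem g_wQ_26_wN_1_rb8033094a_d43_d46_d42_d38x8 : GoodKC AS c_wQ_26_wN_1_rb8033094a_d43_d46_d42_d38x8 := p_wQ_26_wN_1_rb8033094a_d43_d46_d42_d38

theorem g__wQ_26_wN_1_rb8033094a_d43_d46_d42_d37x3_0 : GoodKC AS k_wQ_26_wN_1_rb8033094a_d43_d46_d42_d37x3_0 := p_wQ_26_wN_1_rb8033094a_d43_d46_d42_d37x3_0

theorem g_wQ_26_wN_1_rb8033094a_d43_d46_d42_d37x8 : GoodKC AS c_wQ_26_wN_1_rb8033094a_d43_d46_d42_d37x8 := p_wQ_26_wN_1_rb8033094a_d43_d46_d42_d37x3 g__wQ_26_wN_1_rb8033094a_d43_d46_d42_d37x3_0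

theorem g_wQ_26_wN_1_rb8033094a_d43_d46_d42_d35x8 : GoodKC AS c_wQ_26_wN_1_rb8033094a_d43_d46_d42_d35x8 := p_wQ_26_wN_1_rb8033094a_d43_d46_d42_d35x2

theorem g_wQ_26_wN_1_rb8033094a_d43_d46_d42_d34x8 : GoodKC AS c_wQ_26_wN_1_rb8033094a_d43_d46_d42_d34x8 := p_wQ_26_wN_1_rb8033094a_d43_d46_d42_d34

theorem g_wQ_26_wN_1_rb8033094a_d43_d46_d42_d33x8 : GoodKC AS c_wQ_26_wN_1_rb8033094a_d43_d46_d42_d33x8 := p_wQ_26_wN_1_rb8033094a_d43_d46_d42_d33x2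

theorem g_wQ_26_wN_1_rb8033094a_d43_d46_d42_d31x8 : GoodKC AS c_wQ_26_wN_1_rb8033094a_d43_d46_d42_d31x8 := p_wQ_26_wN_1_rb8033094a_d43_d46_d42_d31x2

theorem g_wQ_26_wN_1_rb8033094a_d43_d46_d42_d2fx8 : GoodKC AS c_wQ_26_wN_1_rb8033094a_d43_d46_d42_d2fx8 := p_wQ_26_wN_1_rb8033094a_d43_d46_d42_d2fx2

theorem g_wQ_26_wN_1_rb8033094a_d43_d46_d42_d2ex8 : GoodKC AS c_wQ_26_wN_1_rb8033094a_d43_d46_d42_d2ex8 := p_wQ_26_wN_1_rb8033094a_d43_d46_d42_d2e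

theorem g_wQ_26_wN_1_rb8033094a_d43_d46_d42_d2bx8 : GoodKC AS c_wQ_26_wN_1_rb8033094a_d43_d46_d42_d2bx8 := p_wQ_26_wN_1_rb8033094a_d43_d46_d42_d2bx2

theorem g_wQ_26_wN_1_rb8033094a_d43_d46_d42_d2ax8 : GoodKC AS c_wQ_26_wN_1_rb8033094a_d43_d46_d42_d2ax8 := p_wQ_26_wN_1_rb8033094a_d43_d46_d42_d2ax3

theorem g_wQ_26_wN_1_rb8033094a_d43_d46_d42_d29x8 : GoodKC AS c_wQ_26_wN_1_rb8033094a_d43_d46_d42_d29x8 := p_wQ_26_wN_1_rb8033094a_d43_d46_d42_d29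

theorem g_wQ_26_wN_1_rb8033094a_d43_d46_d42_d26x8 : GoodKC AS c_wQ_26_wN_1_rb8033094a_d43_d46_d42_d26x8 := p_wQ_26_wN_1_rb8033094a_d43_d46_d42_d26x2

theorem g_wQ_26_wN_1_rb8033094a_d43_d46_d42_d23x8 : GoodKC AS c_wQ_26_wN_1_rb8033094a_d43_d46_d42_d23x8 := p_wQ_26_wN_1_rb8033094a_d43_d46_d42_d23x2

theorem g_wQ_26_wN_1_rb8033094a_d43_d46_d42_d21x8 : GoodKC AS c_wQ_26_wN_1_rb8033094a_d43_d46_d42_d21x8 := p_wQ_26_wN_1_rb8033094a_d43_d46_d42_d21x3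

theorem g_wQ_26_wN_1_rb8033094a_d43_d46_d42_d1dx8 : GoodKC AS c_wQ_26_wN_1_rb8033094a_d43_d46_d42_d1dx8 := p_wQ_26_wN_1_rb8033094a_d43_d46_d42_d1d

theorem g_wQ_26_wN_1_rb8033094a_d43_d46_d42_d1cx8 : GoodKC AS c_wQ_26_wN_1_rb8033094a_d43_d46_d42_d1cx8 := p_wQ_26_wN_1_rb8033094a_d43_d46_d42_d1cx2

theorem g__wQ_26_wN_1_rb8033094a_d43_d46_d42_d1ax3_0 : GoodKC AS k_wQ_26_wN_1_rb8033094a_d43_d46_d42_d1ax3_0 := p_wQ_26_wN_1_rb8033094a_d43_d46_d42_d1ax3_0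

theorem g_wQ_26_wN_1_rb8033094a_d43_d46_d42_d1ax8 : GoodKC AS c_wQ_26_wN_1_rb8033094a_d43_d46_d42_d1ax8 := p_wQ_26_wN_1_rb8033094a_d43_d46_d42_d1ax3 g__wQ_26_wN_1_rb8033094a_d43_d46_d42_d1ax3_0

theorem g_wQ_26_wN_1_rb8033094a_d43_d46_d42_d19x8 : GoodKC AS c_wQ_26_wN_1_rb8033094a_d43_d46_d42_d19x8 := p_wQ_26_wN_1_rb8033094a_d43_d46_d42_d19x2

theorem g_wQ_26_wN_1_rb8033094a_d43_d46_d42_d17x8 : GoodKC AS c_wQ_26_wN_1_rb8033094a_d43_d46_d42_d17x8 := p_wQ_26_wN_1_rb8033094a_d43_d46_d42_d17x2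

theorem g_wQ_26_wN_1_rb8033094a_d43_d46_d42_d15x8 : GoodKC AS c_wQ_26_wN_1_rb8033094a_d43_d46_d42_d15x8 := p_wQ_26_wN_1_rb8033094a_d43_d46_d42_d15x2

theorem g_wQ_26_wN_1_rb8033094a_d43_d46_d42_d14x8 : GoodKC AS c_wQ_26_wN_1_rb8033094a_d43_d46_d42_d14x8 := p_wQ_26_wN_1_rb8033094a_d43_d46_d42_d14x2

theorem g_wQ_26_wN_1_rb8033094a_d43_d46_d42_d12x8 : GoodKC AS c_wQ_26_wN_1_rb8033094a_d43_d46_d42_d12x8 := p_wQ_26_wN_1_rb8033094a_d43_d46_d42_d12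

theorem g_wQ_26_wN_1_rb8033094a_d43_d46_d42_d11x8 : GoodKC AS c_wQ_26_wN_1_rb8033094a_d43_d46_d42_d11x8 := p_wQ_26_wN_1_rb8033094a_d43_d46_d42_d11x2

theorem g_wQ_26_wN_1_rb8033094a_d43_d46_d42_d10x8 : GoodKC AS c_wQ_26_wN_1_rb8033094a_d43_d46_d42_d10x8 := p_wQ_26_wN_1_rb8033094a_d43_d46_d42_d10x2

theorem g_wQ_26_wN_1_rb8033094a_d43_d46_d42_d0fx8 : GoodKC AS c_wQ_26_wN_1_rb8033094a_d43_d46_d42_d0fx8 := p_wQ_26_wN_1_rb8033094a_d43_d46_d42_d0fx2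

theorem g_wQ_26_wN_1_rb8033094a_d43_d46_d42_d0ex8 : GoodKC AS c_wQ_26_wN_1_rb8033094a_d43_d46_d42_d0ex8 := p_wQ_26_wN_1_rb8033094a_d43_d46_d42_d0ex2

theorem g_wQ_26_wN_1_rb8033094a_d43_d46_d42_d0dx8 : GoodKC AS c_wQ_26_wN_1_rb8033094a_d43_d46_d42_d0dx8 := p_wQ_26_wN_1_rb8033094a_d43_d46_d42_d0dx2

theorem g_wQ_26_wN_1_rb8033094a_d43_d46_d42_d0cx8 : GoodKC AS c_wQ_26_wN_1_rb8033094a_d43_d46_d42_d0cx8 := p_wQ_26_wN_1_rb8033094a_d43_d46_d42_d0cx2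

theorem g_wQ_26_wN_1_rb8033094a_d43_d46_d42_d0bx8 : GoodKC AS c_wQ_26_wN_1_rb8033094a_d43_d46_d42_d0bx8 := p_wQ_26_wN_1_rb8033094a_d43_d46_d42_d0bx2

theorem g_wQ_26_wN_1_rb8033094a_d43_d46_d42_d08x8 : GoodKC AS c_wQ_26_wN_1_rb8033094a_d43_d46_d42_d08x8 := p_wQ_26_wN_1_rb8033094a_d43_d46_d42_d08x2

theorem g_wQ_26_wN_1_rb8033094a_d43_d46_d42_d07x8 : GoodKC AS c_wQ_26_wN_1_rb8033094a_d43_d46_d42_d07x8 := p_wQ_26_wN_1_rb8033094a_d43_d46_d42_d07x2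

theorem g_wQ_26_wN_1_rb8033094a_d43_d46_d42_d06x8 : GoodKC AS c_wQ_26_wN_1_rb8033094a_d43_d46_d42_d06x8 := p_wQ_26_wN_1_rb8033094a_d43_d46_d42_d06x2

theorem g_wQ_26_wN_1_rb8033094a_d43_d46_d42_d04x8 : GoodKC AS c_wQ_26_wN_1_rb8033094a_d43_d46_d42_d04x8 := p_wQ_26_wN_1_rb8033094a_d43_d46_d42_d04x2

theorem g_wQ_26_wN_1_rb8033094a_d43_d46_d42_d03x8 : GoodKC AS c_wQ_26_wN_1_rb8033094a_d43_d46_d42_d03x8 := p_wQ_26_wN_1_rb8033094a_d43_d46_d42_d03x2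

theorem g_wQ_26_wN_1_rb8033094a_d43_d46_d42_d01x8 : GoodKC AS c_wQ_26_wN_1_rb8033094a_d43_d46_d42_d01x8 := p_wQ_26_wN_1_rb8033094a_d43_d46_d42_d01x2

theorem g_wQ_26_wN_1_rb8033094a_d43_d46_d42_d00x8 : GoodKC AS c_wQ_26_wN_1_rb8033094a_d43_d46_d42_d00x8 := p_wQ_26_wN_1_rb8033094a_d43_d46_d42_d00x3

theorem g_wQ_26_wN_1_rb8033094a_d43_d46_d42_d02x8 : GoodKC AS c_wQ_26_wN_1_rb8033094a_d43_d46_d42_d02x8 := p_wQ_26_wN_1_rb8033094a_d43_d46_d42_d02x2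

theorem g_wQ_26_wN_1_rb8033094a_d43_d46_d42_d05x8 : GoodKC AS c_wQ_26_wN_1_rb8033094a_d43_d46_d42_d05x8 := p_wQ_26_wN_1_rb8033094a_d43_d46_d42_d05

theorem g_wQ_26_wN_1_rb8033094a_d43_d46_d42_d09x8 : GoodKC AS c_wQ_26_wN_1_rb8033094a_d43_d46_d42_d09x8 := p_wQ_26_wN_1_rb8033094a_d43_d46_d42_d09x2

theorem g_wQ_26_wN_1_rb8033094a_d43_d46_d42_d0ax8 : GoodKC AS c_wQ_26_wN_1_rb8033094a_d43_d46_d42_d0ax8 := p_wQ_26_wN_1_rb8033094a_d43_d46_d42_d0ax2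

theorem g_wQ_26_wN_1_rb8033094a_d43_d46_d42_d13x8 : GoodKC AS c_wQ_26_wN_1_rb8033094a_d43_d46_d42_d13x8 := p_wQ_26_wN_1_rb8033094a_d43_d46_d42_d13x2

theorem g__wQ_26_wN_1_rb8033094a_d43_d46_d42_d16x3_1 : GoodKC AS k_wQ_26_wN_1_rb8033094a_d43_d46_d42_d16x3_1 := p_wQ_26_wN_1_rb8033094a_d43_d46_d42_d16x3_1

theorem g__wQ_26_wN_1_rb8033094a_d43_d46_d42_d16x3_0 : GoodKC AS k_wQ_26_wN_1_rb8033094a_d43_d46_d42_d16x3_0 := p_wQ_26_wN_1_rb8033094a_d43_d46_d42_d16x3_0 g__wQ_26_wN_1_rb8033094a_d43_d46_d42_d16x3_1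

theorem g_wQ_26_wN_1_rb8033094a_d43_d46_d42_d16x8 : GoodKC AS c_wQ_26_wN_1_rb8033094a_d43_d46_d42_d16x8 := p_wQ_26_wN_1_rb8033094a_d43_d46_d42_d16x3 g__wQ_26_wN_1_rb8033094a_d43_d46_d42_d16x3_0

theorem g_wQ_26_wN_1_rb8033094a_d43_d46_d42_d18x8 : GoodKC AS c_wQ_26_wN_1_rb8033094a_d43_d46_d42_d18x8 := p_wQ_26_wN_1_rb8033094a_d43_d46_d42_d18x2

theorem g_wQ_26_wN_1_rb8033094a_d43_d46_d42_d1bx8 : GoodKC AS c_wQ_26_wN_1_rb8033094a_d43_d46_d42_d1bx8 := p_wQ_26_wN_1_rb8033094a_d43_d46_d42_d1bx2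

theorem g_wQ_26_wN_1_rb8033094a_d43_d46_d42_d1ex8 : GoodKC AS c_wQ_26_wN_1_rb8033094a_d43_d46_d42_d1ex8 := p_wQ_26_wN_1_rb8033094a_d43_d46_d42_d1ex2

theorem g_wQ_26_wN_1_rb8033094a_d43_d46_d42_d1fx8 : GoodKC AS c_wQ_26_wN_1_rb8033094a_d43_d46_d42_d1fx8 := p_wQ_26_wN_1_rb8033094a_d43_d46_d42_d1fx2

theorem g_wQ_26_wN_1_rb8033094a_d43_d46_d42_d20x8 : GoodKC AS c_wQ_26_wN_1_rb8033094a_d43_d46_d42_d20x8 := p_wQ_26_wN_1_rb8033094a_d43_d46_d42_d20x2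

theorem g_wQ_26_wN_1_rb8033094a_d43_d46_d42_d22x8 : GoodKC AS c_wQ_26_wN_1_rb8033094a_d43_d46_d42_d22x8 := p_wQ_26_wN_1_rb8033094a_d43_d46_d42_d22x2

theorem g_wQ_26_wN_1_rb8033094a_d43_d46_d42_d24x8 : GoodKC AS c_wQ_26_wN_1_rb8033094a_d43_d46_d42_d24x8 := p_wQ_26_wN_1_rb8033094a_d43_d46_d42_d24x3

theorem g_wQ_26_wN_1_rb8033094a_d43_d46_d42_d25x8 : GoodKC AS c_wQ_26_wN_1_rb8033094a_d43_d46_d42_d25x8 := p_wQ_26_wN_1_rb8033094a_d43_d46_d42_d25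

theorem g_wQ_26_wN_1_rb8033094a_d43_d46_d42_d27x8 : GoodKC AS c_wQ_26_wN_1_rb8033094a_d43_d46_d42_d27x8 := p_wQ_26_wN_1_rb8033094a_d43_d46_d42_d27x2

theorem g_wQ_26_wN_1_rb8033094a_d43_d46_d42_d28x8 : GoodKC AS c_wQ_26_wN_1_rb8033094a_d43_d46_d42_d28x8 := p_wQ_26_wN_1_rb8033094a_d43_d46_d42_d28x2

theorem g_wQ_26_wN_1_rb8033094a_d43_d46_d42_d2c12x2 : GoodKC AS c_wQ_26_wN_1_rb8033094a_d43_d46_d42_d2c12x2 := p_wQ_26_wN_1_rb8033094a_d43_d46_d42_d2c12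

theorem g_wQ_26_wN_1_rb8033094a_d43_d46_d42_d2c11x2 : GoodKC AS c_wQ_26_wN_1_rb8033094a_d43_d46_d42_d2c11x2 := p_wQ_26_wN_1_rb8033094a_d43_d46_d42_d2c11

theorem g_wQ_26_wN_1_rb8033094a_d43_d46_d42_d2c10x2 : GoodKC AS c_wQ_26_wN_1_rb8033094a_d43_d46_d42_d2c10x2 := p_wQ_26_wN_1_rb8033094a_d43_d46_d42_d2c10

theorem g_wQ_26_wN_1_rb8033094a_d43_d46_d42_d2c0fx2 : GoodKC AS c_wQ_26_wN_1_rb8033094a_d43_d46_d42_d2c0fx2 := p_wQ_26_wN_1_rb8033094a_d43_d46_d42_d2c0f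

theorem g_wQ_26_wN_1_rb8033094a_d43_d46_d42_d2c0ex2 : GoodKC AS c_wQ_26_wN_1_rb8033094a_d43_d46_d42_d2c0ex2 := p_wQ_26_wN_1_rb8033094a_d43_d46_d42_d2c0e

theorem g__wQ_26_wN_1_rb8033094a_d43_d46_d42_d2c0bx2_0 : GoodKC AS k_wQ_26_wN_1_rb8033094a_d43_d46_d42_d2c0bx2_0 := p_wQ_26_wN_1_rb8033094a_d43_d46_d42_d2c0bx2_0

theorem g_wQ_26_wN_1_rb8033094a_d43_d46_d42_d2c0bx2 : GoodKC AS c_wQ_26_wN_1_rb8033094a_d43_d46_d42_d2c0bx2 := p_wQ_26_wN_1_rb8033094a_d43_d46_d42_d2c0bx2 g__wQ_26_wN_1_rb8033094a_d43_d46_d42_d2c0bx2_0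

theorem g_wQ_26_wN_1_rb8033094a_d43_d46_d42_d2c08x2 : GoodKC AS c_wQ_26_wN_1_rb8033094a_d43_d46_d42_d2c08x2 := p_wQ_26_wN_1_rb8033094a_d43_d46_d42_d2c08

theorem g__wQ_26_wN_1_rb8033094a_d43_d46_d42_d2c05_0 : GoodKC AS k_wQ_26_wN_1_rb8033094a_d43_d46_d42_d2c05_0 := p_wQ_26_wN_1_rb8033094a_d43_d46_d42_d2c05_0

theorem g_wQ_26_wN_1_rb8033094a_d43_d46_d42_d2c05x2 : GoodKC AS c_wQ_26_wN_1_rb8033094a_d43_d46_d42_d2c05x2 := p_wQ_26_wN_1_rb8033094a_d43_d46_d42_d2c05 g__wQ_26_wN_1_rb8033094a_d43_d46_d42_d2c05_0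

theorem g_wQ_26_wN_1_rb8033094a_d43_d46_d42_d2c04x2 : GoodKC AS c_wQ_26_wN_1_rb8033094a_d43_d46_d42_d2c04x2 := p_wQ_26_wN_1_rb8033094a_d43_d46_d42_d2c04

theorem g_wQ_26_wN_1_rb8033094a_d43_d46_d42_d2c03x2 : GoodKC AS c_wQ_26_wN_1_rb8033094a_d43_d46_d42_d2c03x2 := p_wQ_26_wN_1_rb8033094a_d43_d46_d42_d2c03

theorem g__wQ_26_wN_1_rb8033094a_d43_d46_d42_d2c00_2 : GoodKC AS k_wQ_26_wN_1_rb8033094a_d43_d46_d42_d2c00_2 := p_wQ_26_wN_1_rb8033094a_d43_d46_d42_d2c00_2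

theorem g__wQ_26_wN_1_rb8033094a_d43_d46_d42_d2c00_1 : GoodKC AS k_wQ_26_wN_1_rb8033094a_d43_d46_d42_d2c00_1 := p_wQ_26_wN_1_rb8033094a_d43_d46_d42_d2c00_1 g__wQ_26_wN_1_rb8033094a_d43_d46_d42_d2c00_2

theorem g__wQ_26_wN_1_rb8033094a_d43_d46_d42_d2c00_0 : GoodKC AS k_wQ_26_wN_1_rb8033094a_d43_d46_d42_d2c00_0 := p_wQ_26_wN_1_rb8033094a_d43_d46_d42_d2c00_0 g__wQ_26_wN_1_rb8033094a_d43_d46_d42_d2c00_1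

theorem g_wQ_26_wN_1_rb8033094a_d43_d46_d42_d2c00x2 : GoodKC AS c_wQ_26_wN_1_rb8033094a_d43_d46_d42_d2c00x2 := p_wQ_26_wN_1_rb8033094a_d43_d46_d42_d2c00 g__wQ_26_wN_1_rb8033094a_d43_d46_d42_d2c00_0

theorem g_wQ_26_wN_1_rb8033094a_d43_d46_d42_d2c01x2 : GoodKC AS c_wQ_26_wN_1_rb8033094a_d43_d46_d42_d2c01x2 := p_wQ_26_wN_1_rb8033094a_d43_d46_d42_d2c01

theorem g_wQ_26_wN_1_rb8033094a_d43_d46_d42_d2c02x2 : GoodKC AS c_wQ_26_wN_1_rb8033094a_d43_d46_d42_d2c02x2 := p_wQ_26_wN_1_rb8033094a_d43_d46_d42_d2c02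

theorem g__wQ_26_wN_1_rb8033094a_d43_d46_d42_d2cx2_0 : GoodKC AS k_wQ_26_wN_1_rb8033094a_d43_d46_d42_d2cx2_0 := p_wQ_26_wN_1_rb8033094a_d43_d46_d42_d2cx2_0

theorem g_wQ_26_wN_1_rb8033094a_d43_d46_d42_d2c06x2 : GoodKC AS c_wQ_26_wN_1_rb8033094a_d43_d46_d42_d2c06x2 := p_wQ_26_wN_1_rb8033094a_d43_d46_d42_d2c06

theorem g_wQ_26_wN_1_rb8033094a_d43_d46_d42_d2c07x2 : GoodKC AS c_wQ_26_wN_1_rb8033094a_d43_d46_d42_d2c07x2 := p_wQ_26_wN_1_rb8033094a_d43_d46_d42_d2c07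

theorem g__wQ_26_wN_1_rb8033094a_d43_d46_d42_d2cx2_3 : GoodKC AS k_wQ_26_wN_1_rb8033094a_d43_d46_d42_d2cx2_3 := p_wQ_26_wN_1_rb8033094a_d43_d46_d42_d2cx2_3

theorem g__wQ_26_wN_1_rb8033094a_d43_d46_d42_d2cx2_2 : GoodKC AS k_wQ_26_wN_1_rb8033094a_d43_d46_d42_d2cx2_2 := p_wQ_26_wN_1_rb8033094a_d43_d46_d42_d2cx2_2 g__wQ_26_wN_1_rb8033094a_d43_d46_d42_d2cx2_3

theorem g__wQ_26_wN_1_rb8033094a_d43_d46_d42_d2cx2_1 : GoodKC AS k_wQ_26_wN_1_rb8033094a_d43_d46_d42_d2cx2_1 := p_wQ_26_wN_1_rb8033094a_d43_d46_d42_d2cx2_1 g__wQ_26_wN_1_rb8033094a_d43_d46_d42_d2cx2_2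

theorem g__wQ_26_wN_1_rb8033094a_d43_d46_d42_d2cx2_4 : GoodKC AS k_wQ_26_wN_1_rb8033094a_d43_d46_d42_d2cx2_4 := p_wQ_26_wN_1_rb8033094a_d43_d46_d42_d2cx2_4

theorem g_wQ_26_wN_1_rb8033094a_d43_d46_d42_d2c09x2 : GoodKC AS c_wQ_26_wN_1_rb8033094a_d43_d46_d42_d2c09x2 := p_wQ_26_wN_1_rb8033094a_d43_d46_d42_d2c09

theorem g_wQ_26_wN_1_rb8033094a_d43_d46_d42_d2c0ax2 : GoodKC AS c_wQ_26_wN_1_rb8033094a_d43_d46_d42_d2c0ax2 := p_wQ_26_wN_1_rb8033094a_d43_d46_d42_d2c0ax2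

theorem g_wQ_26_wN_1_rb8033094a_d43_d46_d42_d2c0cx2 : GoodKC AS c_wQ_26_wN_1_rb8033094a_d43_d46_d42_d2c0cx2 := p_wQ_26_wN_1_rb8033094a_d43_d46_d42_d2c0cx2

theorem g_wQ_26_wN_1_rb8033094a_d43_d46_d42_d2c0dx2 : GoodKC AS c_wQ_26_wN_1_rb8033094a_d43_d46_d42_d2c0dx2 := p_wQ_26_wN_1_rb8033094a_d43_d46_d42_d2c0d

theorem g_wQ_26_wN_1_rb8033094a_d43_d46_d42_d2cx8 : GoodKC AS c_wQ_26_wN_1_rb8033094a_d43_d46_d42_d2cx8 := p_wQ_26_wN_1_rb8033094a_d43_d46_d42_d2cx2 g_wQ_26_wN_1_rb8033094a_d43_d46_d42_d2c12x2 g_wQ_26_wN_1_rb8033094a_d43_d46_d42_d2c11x2 g_wQ_26_wN_1_rb8033094a_d43_d46_d42_d2c10x2 g_wQ_26_wN_1_rb8033094a_d43_d46_d42_d2c0fx2 g_wQ_26_wN_1_rb8033094a_d43_d46_d42_d2c0ex2 g_wQ_26_wN_1_rb8033094a_d43_d46_d42_d2c0bx2 g_wQ_26_wN_1_rb8033094a_d43_d46_d42_d2c08x2 g_wQ_26_wN_1_rb8033094a_d43_d46_d42_d2c05x2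 g_wQ_26_wN_1_rb8033094a_d43_d46_d42_d2c04x2 g_wQ_26_wN_1_rb8033094a_d43_d46_d42_d2c03x2 g_wQ_26_wN_1_rb8033094a_d43_d46_d42_d2c00x2 g_wQ_26_wN_1_rb8033094a_d43_d46_d42_d2c01x2 g_wQ_26_wN_1_rb8033094a_d43_d46_d42_d2c02x2 g__wQ_26_wN_1_rb8033094a_d43_d46_d42_d2cx2_0 g_wQ_26_wN_1_rb8033094a_d43_d46_d42_d2c06x2 g_wQ_26_wN_1_rb8033094a_d43_d46_d42_d2c07x2 g__wQ_26_wN_1_rb8033094a_d43_d46_d42_d2cx2_1 g__wQ_26_wN_1_rb8033094a_d43_d46_d42_d2cx2_4 g_wQ_26_wN_1_rb8033094a_d43_d46_d42_d2c09x2 g_wQ_26_wN_1_rb8033094a_d43_d46_d42_d2c0ax2 g_wQ_26_wN_1_rb8033094a_d43_d46_d42_d2c0cx2 g_wQ_26_wN_1_rb8033094a_d43_d46_d42_d2c0dx2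

theorem g__wQ_26_wN_1_rb8033094a_d43_d46_d42_d2dx3_1 : GoodKC AS k_wQ_26_wN_1_rb8033094a_d43_d46_d42_d2dx3_1 := p_wQ_26_wN_1_rb8033094a_d43_d46_d42_d2dx3_1

theorem g__wQ_26_wN_1_rb8033094a_d43_d46_d42_d2dx3_2 : GoodKC AS k_wQ_26_wN_1_rb8033094a_d43_d46_d42_d2dx3_2 := p_wQ_26_wN_1_rb8033094a_d43_d46_d42_d2dx3_2

theorem g__wQ_26_wN_1_rb8033094a_d43_d46_d42_d2dx3_0 : GoodKC AS k_wQ_26_wN_1_rb8033094a_d43_d46_d42_d2dx3_0 := p_wQ_26_wN_1_rb8033094a_d43_d46_d42_d2dx3_0 g__wQ_26_wN_1_rb8033094a_d43_d46_d42_d2dx3_1 g__wQ_26_wN_1_rb8033094a_d43_d46_d42_d2dx3_2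

theorem g_wQ_26_wN_1_rb8033094a_d43_d46_d42_d2dx8 : GoodKC AS c_wQ_26_wN_1_rb8033094a_d43_d46_d42_d2dx8 := p_wQ_26_wN_1_rb8033094a_d43_d46_d42_d2dx3 g__wQ_26_wN_1_rb8033094a_d43_d46_d42_d2dx3_0

theorem g__wQ_26_wN_1_rb8033094a_d43_d46_d42_d30v3_2 : GoodKC AS k_wQ_26_wN_1_rb8033094a_d43_d46_d42_d30v3_2 := p_wQ_26_wN_1_rb8033094a_d43_d46_d42_d30v3_2

theorem g__wQ_26_wN_1_rb8033094a_d43_d46_d42_d30v3_1 : GoodKC AS k_wQ_26_wN_1_rb8033094a_d43_d46_d42_d30v3_1 := p_wQ_26_wN_1_rb8033094a_d43_d46_d42_d30v3_1 g__wQ_26_wN_1_rb8033094a_d43_d46_d42_d30v3_2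

theorem g__wQ_26_wN_1_rb8033094a_d43_d46_d42_d30v3_0 : GoodKC AS k_wQ_26_wN_1_rb8033094a_d43_d46_d42_d30v3_0 := p_wQ_26_wN_1_rb8033094a_d43_d46_d42_d30v3_0 g__wQ_26_wN_1_rb8033094a_d43_d46_d42_d30v3_1

theorem g_wQ_26_wN_1_rb8033094a_d43_d46_d42_d30x8 : GoodKC AS c_wQ_26_wN_1_rb8033094a_d43_d46_d42_d30x8 := p_wQ_26_wN_1_rb8033094a_d43_d46_d42_d30x3 g__wQ_26_wN_1_rb8033094a_d43_d46_d42_d30v3_0

theorem g_wQ_26_wN_1_rb8033094a_d43_d46_d42_d32x8 : GoodKC AS c_wQ_26_wN_1_rb8033094a_d43_d46_d42_d32x8 := p_wQ_26_wN_1_rb8033094a_d43_d46_d42_d32x2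

theorem g_wQ_26_wN_1_rb8033094a_d43_d46_d42_d36x8 : GoodKC AS c_wQ_26_wN_1_rb8033094a_d43_d46_d42_d36x8 := p_wQ_26_wN_1_rb8033094a_d43_d46_d42_d36

theorem g_wQ_26_wN_1_rb8033094a_d43_d46_d42_d3dx8 : GoodKC AS c_wQ_26_wN_1_rb8033094a_d43_d46_d42_d3dx8 := p_wQ_26_wN_1_rb8033094a_d43_d46_d42_d3dx2

theorem g_wQ_26_wN_1_rb8033094a_d43_d46_d42_d3ex8 : GoodKC AS c_wQ_26_wN_1_rb8033094a_d43_d46_d42_d3ex8 := p_wQ_26_wN_1_rb8033094a_d43_d46_d42_d3ex3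

theorem g_wQ_26_wN_1_rb8033094a_d43_d46_d42_d3fx8 : GoodKC AS c_wQ_26_wN_1_rb8033094a_d43_d46_d42_d3fx8 := p_wQ_26_wN_1_rb8033094a_d43_d46_d42_d3fx3

theorem g_wQ_26_wN_1_rb8033094a_d43_d46_d42_d41x8 : GoodKC AS c_wQ_26_wN_1_rb8033094a_d43_d46_d42_d41x8 := p_wQ_26_wN_1_rb8033094a_d43_d46_d42_d41x2

theorem g_wQ_26_wN_1_rb8033094a_d43_d46_d42_d44x8 : GoodKC AS c_wQ_26_wN_1_rb8033094a_d43_d46_d42_d44x8 := p_wQ_26_wN_1_rb8033094a_d43_d46_d42_d44x2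

theorem g__wQ_26_wN_1_rb8033094a_d43_d46_d42_d47x3_1 : GoodKC AS k_wQ_26_wN_1_rb8033094a_d43_d46_d42_d47x3_1 := p_wQ_26_wN_1_rb8033094a_d43_d46_d42_d47x3_1

theorem g__wQ_26_wN_1_rb8033094a_d43_d46_d42_d47x3_0 : GoodKC AS k_wQ_26_wN_1_rb8033094a_d43_d46_d42_d47x3_0 := p_wQ_26_wN_1_rb8033094a_d43_d46_d42_d47x3_0 g__wQ_26_wN_1_rb8033094a_d43_d46_d42_d47x3_1

theorem g_wQ_26_wN_1_rb8033094a_d43_d46_d42_d47x8 : GoodKC AS c_wQ_26_wN_1_rb8033094a_d43_d46_d42_d47x8 := p_wQ_26_wN_1_rb8033094a_d43_d46_d42_d47x3 g__wQ_26_wN_1_rb8033094a_d43_d46_d42_d47x3_0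

theorem g_wQ_26_wN_1_rb8033094a_d43_d46_d42_d49x8 : GoodKC AS c_wQ_26_wN_1_rb8033094a_d43_d46_d42_d49x8 := p_wQ_26_wN_1_rb8033094a_d43_d46_d42_d49

theorem g_wQ_26_wN_1_rb8033094a_d43_d46_d42_d4dx8 : GoodKC AS c_wQ_26_wN_1_rb8033094a_d43_d46_d42_d4dx8 := p_wQ_26_wN_1_rb8033094a_d43_d46_d42_d4dx3

theorem g_wQ_26_wN_1_rb8033094a_d43_d46_d42_d50x8 : GoodKC AS c_wQ_26_wN_1_rb8033094a_d43_d46_d42_d50x8 := p_wQ_26_wN_1_rb8033094a_d43_d46_d42_d50x2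

theorem g_wQ_26_wN_1_rb8033094a_d43_d46_d42_d52x8 : GoodKC AS c_wQ_26_wN_1_rb8033094a_d43_d46_d42_d52x8 := p_wQ_26_wN_1_rb8033094a_d43_d46_d42_d52x2

theorem g__wQ_26_wN_1_rb8033094a_d43_d46_d42_d53x3_0 : GoodKC AS k_wQ_26_wN_1_rb8033094a_d43_d46_d42_d53x3_0 := p_wQ_26_wN_1_rb8033094a_d43_d46_d42_d53x3_0

theorem g__wQ_26_wN_1_rb8033094a_d43_d46_d42_d53x3_4 : GoodKC AS k_wQ_26_wN_1_rb8033094a_d43_d46_d42_d53x3_4 := p_wQ_26_wN_1_rb8033094a_d43_d46_d42_d53x3_4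

theorem g__wQ_26_wN_1_rb8033094a_d43_d46_d42_d53x3_6 : GoodKC AS k_wQ_26_wN_1_rb8033094a_d43_d46_d42_d53x3_6 := p_wQ_26_wN_1_rb8033094a_d43_d46_d42_d53x3_6

theorem g__wQ_26_wN_1_rb8033094a_d43_d46_d42_d53x3_5 : GoodKC AS k_wQ_26_wN_1_rb8033094a_d43_d46_d42_d53x3_5 := p_wQ_26_wN_1_rb8033094a_d43_d46_d42_d53x3_5 g__wQ_26_wN_1_rb8033094a_d43_d46_d42_d53x3_6

theorem g__wQ_26_wN_1_rb8033094a_d43_d46_d42_d53x3_3 : GoodKC AS k_wQ_26_wN_1_rb8033094a_d43_d46_d42_d53x3_3 := p_wQ_26_wN_1_rb8033094a_d43_d46_d42_d53x3_3 g__wQ_26_wN_1_rb8033094a_d43_d46_d42_d53x3_4 g__wQ_26_wN_1_rb8033094a_d43_d46_d42_d53x3_5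

theorem g__wQ_26_wN_1_rb8033094a_d43_d46_d42_d53x3_2 : GoodKC AS k_wQ_26_wN_1_rb8033094a_d43_d46_d42_d53x3_2 := p_wQ_26_wN_1_rb8033094a_d43_d46_d42_d53x3_2 g__wQ_26_wN_1_rb8033094a_d43_d46_d42_d53x3_3

theorem g__wQ_26_wN_1_rb8033094a_d43_d46_d42_d53x3_1 : GoodKC AS k_wQ_26_wN_1_rb8033094a_d43_d46_d42_d53x3_1 := p_wQ_26_wN_1_rb8033094a_d43_d46_d42_d53x3_1 g__wQ_26_wN_1_rb8033094a_d43_d46_d42_d53x3_2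

theorem g_wQ_26_wN_1_rb8033094a_d43_d46_d42_d53x8 : GoodKC AS c_wQ_26_wN_1_rb8033094a_d43_d46_d42_d53x8 := p_wQ_26_wN_1_rb8033094a_d43_d46_d42_d53x3 g__wQ_26_wN_1_rb8033094a_d43_d46_d42_d53x3_0 g__wQ_26_wN_1_rb8033094a_d43_d46_d42_d53x3_1

theorem g_wQ_26_wN_1_rb8033094a_d43_d46_d42_d56x8 : GoodKC AS c_wQ_26_wN_1_rb8033094a_d43_d46_d42_d56x8 := p_wQ_26_wN_1_rb8033094a_d43_d46_d42_d56x2

theorem g_wQ_26_wN_1_rb8033094a_d43_d46_d42_d57x8 : GoodKC AS c_wQ_26_wN_1_rb8033094a_d43_d46_d42_d57x8 := p_wQ_26_wN_1_rb8033094a_d43_d46_d42_d57x3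

theorem g_wQ_26_wN_1_rb8033094a_d43_d46_d42_d58x8 : GoodKC AS c_wQ_26_wN_1_rb8033094a_d43_d46_d42_d58x8 := p_wQ_26_wN_1_rb8033094a_d43_d46_d42_d58x3

theorem g_wQ_26_wN_1_rb8033094a_d43_d46_d42_d5ax8 : GoodKC AS c_wQ_26_wN_1_rb8033094a_d43_d46_d42_d5ax8 := p_wQ_26_wN_1_rb8033094a_d43_d46_d42_d5a

theorem g_wQ_26_wN_1_rb8033094a_d43_d46_d42_d5c_d43_d33x3 : GoodKC AS c_wQ_26_wN_1_rb8033094a_d43_d46_d42_d5c_d43_d33x3 := p_wQ_26_wN_1_rb8033094a_d43_d46_d42_d5c_d43_d33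

theorem g_wQ_26_wN_1_rb8033094a_d43_d46_d42_d5c_d43_d32x3 : GoodKC AS c_wQ_26_wN_1_rb8033094a_d43_d46_d42_d5c_d43_d32x3 := p_wQ_26_wN_1_rb8033094a_d43_d46_d42_d5c_d43_d32

theorem g_wQ_26_wN_1_rb8033094a_d43_d46_d42_d5c_d43_d3160 : GoodKC AS c_wQ_26_wN_1_rb8033094a_d43_d46_d42_d5c_d43_d3160 := p_wQ_26_wN_1_rb8033094a_d43_d46_d42_d5c_d43_d3160

theorem g__wQ_26_wN_1_rb8033094a_d43_d46_d42_d5c_d43_d315b_4 : GoodKC AS k_wQ_26_wN_1_rb8033094a_d43_d46_d42_d5c_d43_d315b_4 := p_wQ_26_wN_1_rb8033094a_d43_d46_d42_d5c_d43_d315b_4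

theorem g__wQ_26_wN_1_rb8033094a_d43_d46_d42_d5c_d43_d315b_3 : GoodKC AS k_wQ_26_wN_1_rb8033094a_d43_d46_d42_d5c_d43_d315b_3 := p_wQ_26_wN_1_rb8033094a_d43_d46_d42_d5c_d43_d315b_3 g__wQ_26_wN_1_rb8033094a_d43_d46_d42_d5c_d43_d315b_4

theorem g__wQ_26_wN_1_rb8033094a_d43_d46_d42_d5c_d43_d315b_7 : GoodKC AS k_wQ_26_wN_1_rb8033094a_d43_d46_d42_d5c_d43_d315b_7 := p_wQ_26_wN_1_rb8033094a_d43_d46_d42_d5c_d43_d315b_7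

theorem g__wQ_26_wN_1_rb8033094a_d43_d46_d42_d5c_d43_d315b_6 : GoodKC AS k_wQ_26_wN_1_rb8033094a_d43_d46_d42_d5c_d43_d315b_6 := p_wQ_26_wN_1_rb8033094a_d43_d46_d42_d5c_d43_d315b_6 g__wQ_26_wN_1_rb8033094a_d43_d46_d42_d5c_d43_d315b_7

theorem g__wQ_26_wN_1_rb8033094a_d43_d46_d42_d5c_d43_d315b_8 : GoodKC AS k_wQ_26_wN_1_rb8033094a_d43_d46_d42_d5c_d43_d315b_8 := p_wQ_26_wN_1_rb8033094a_d43_d46_d42_d5c_d43_d315b_8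

theorem g__wQ_26_wN_1_rb8033094a_d43_d46_d42_d5c_d43_d315b_5 : GoodKC AS k_wQ_26_wN_1_rb8033094a_d43_d46_d42_d5c_d43_d315b_5 := p_wQ_26_wN_1_rb8033094a_d43_d46_d42_d5c_d43_d315b_5 g__wQ_26_wN_1_rb8033094a_d43_d46_d42_d5c_d43_d315b_6 g__wQ_26_wN_1_rb8033094a_d43_d46_d42_d5c_d43_d315b_8

theorem g__wQ_26_wN_1_rb8033094a_d43_d46_d42_d5c_d43_d315b_2 : GoodKC AS k_wQ_26_wN_1_rb8033094a_d43_d46_d42_d5c_d43_d315b_2 := p_wQ_26_wN_1_rb8033094a_d43_d46_d42_d5c_d43_d315b_2 g__wQ_26_wN_1_rb8033094a_d43_d46_d42_d5c_d43_d315b_3 g__wQ_26_wN_1_rb8033094a_d43_d46_d42_d5c_d43_d315b_5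

theorem g__wQ_26_wN_1_rb8033094a_d43_d46_d42_d5c_d43_d315b_1 : GoodKC AS k_wQ_26_wN_1_rb8033094a_d43_d46_d42_d5c_d43_d315b_1 := p_wQ_26_wN_1_rb8033094a_d43_d46_d42_d5c_d43_d315b_1 g__wQ_26_wN_1_rb8033094a_d43_d46_d42_d5c_d43_d315b_2

theorem g__wQ_26_wN_1_rb8033094a_d43_d46_d42_d5c_d43_d315b_0 : GoodKC AS k_wQ_26_wN_1_rb8033094a_d43_d46_d42_d5c_d43_d315b_0 := p_wQ_26_wN_1_rb8033094a_d43_d46_d42_d5c_d43_d315b_0 g__wQ_26_wN_1_rb8033094a_d43_d46_d42_d5c_d43_d315b_1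

theorem g_wQ_26_wN_1_rb8033094a_d43_d46_d42_d5c_d43_d315b : GoodKC AS c_wQ_26_wN_1_rb8033094a_d43_d46_d42_d5c_d43_d315b := p_wQ_26_wN_1_rb8033094a_d43_d46_d42_d5c_d43_d315b g__wQ_26_wN_1_rb8033094a_d43_d46_d42_d5c_d43_d315b_0

theorem g_wQ_26_wN_1_rb8033094a_d43_d46_d42_d5c_d43_d3159 : GoodKC AS c_wQ_26_wN_1_rb8033094a_d43_d46_d42_d5c_d43_d3159 := p_wQ_26_wN_1_rb8033094a_d43_d46_d42_d5c_d43_d3159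

theorem g_wQ_26_wN_1_rb8033094a_d43_d46_d42_d5c_d43_d3157 : GoodKC AS c_wQ_26_wN_1_rb8033094a_d43_d46_d42_d5c_d43_d3157 := p_wQ_26_wN_1_rb8033094a_d43_d46_d42_d5c_d43_d3157

theorem g_wQ_26_wN_1_rb8033094a_d43_d46_d42_d5c_d43_d3154 : GoodKC AS c_wQ_26_wN_1_rb8033094a_d43_d46_d42_d5c_d43_d3154 := p_wQ_26_wN_1_rb8033094a_d43_d46_d42_d5c_d43_d3154

theorem g_wQ_26_wN_1_rb8033094a_d43_d46_d42_d5c_d43_d3153 : GoodKC AS c_wQ_26_wN_1_rb8033094a_d43_d46_d42_d5c_d43_d3153 := p_wQ_26_wN_1_rb8033094a_d43_d46_d42_d5c_d43_d3153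

theorem g_wQ_26_wN_1_rb8033094a_d43_d46_d42_d5c_d43_d3152 : GoodKC AS c_wQ_26_wN_1_rb8033094a_d43_d46_d42_d5c_d43_d3152 := p_wQ_26_wN_1_rb8033094a_d43_d46_d42_d5c_d43_d3152

theorem g_wQ_26_wN_1_rb8033094a_d43_d46_d42_d5c_d43_d3151 : GoodKC AS c_wQ_26_wN_1_rb8033094a_d43_d46_d42_d5c_d43_d3151 := p_wQ_26_wN_1_rb8033094a_d43_d46_d42_d5c_d43_d3151

theorem g_wQ_26_wN_1_rb8033094a_d43_d46_d42_d5c_d43_d3150 : GoodKC AS c_wQ_26_wN_1_rb8033094a_d43_d46_d42_d5c_d43_d3150 := p_wQ_26_wN_1_rb8033094a_d43_d46_d42_d5c_d43_d3150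

theorem g__wQ_26_wN_1_rb8033094a_d43_d46_d42_d5c_d43_d314f_1 : GoodKC AS k_wQ_26_wN_1_rb8033094a_d43_d46_d42_d5c_d43_d314f_1 := p_wQ_26_wN_1_rb8033094a_d43_d46_d42_d5c_d43_d314f_1

theorem g__wQ_26_wN_1_rb8033094a_d43_d46_d42_d5c_d43_d314f_0 : GoodKC AS k_wQ_26_wN_1_rb8033094a_d43_d46_d42_d5c_d43_d314f_0 := p_wQ_26_wN_1_rb8033094a_d43_d46_d42_d5c_d43_d314f_0 g__wQ_26_wN_1_rb8033094a_d43_d46_d42_d5c_d43_d314f_1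

theorem g_wQ_26_wN_1_rb8033094a_d43_d46_d42_d5c_d43_d314f : GoodKC AS c_wQ_26_wN_1_rb8033094a_d43_d46_d42_d5c_d43_d314f := p_wQ_26_wN_1_rb8033094a_d43_d46_d42_d5c_d43_d314f g__wQ_26_wN_1_rb8033094a_d43_d46_d42_d5c_d43_d314f_0

theorem g_wQ_26_wN_1_rb8033094a_d43_d46_d42_d5c_d43_d314d_d51_d0c : GoodKC AS c_wQ_26_wN_1_rb8033094a_d43_d46_d42_d5c_d43_d314d_d51_d0c := p_wQ_26_wN_1_rb8033094a_d43_d46_d42_d5c_d43_d314d_d51_d0c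

theorem g_wQ_26_wN_1_rb8033094a_d43_d46_d42_d5c_d43_d314d_d51_d0b : GoodKC AS c_wQ_26_wN_1_rb8033094a_d43_d46_d42_d5c_d43_d314d_d51_d0b := p_wQ_26_wN_1_rb8033094a_d43_d46_d42_d5c_d43_d314d_d51_d0b

theorem g_wQ_26_wN_1_rb8033094a_d43_d46_d42_d5c_d43_d314d_d51_d09 : GoodKC AS c_wQ_26_wN_1_rb8033094a_d43_d46_d42_d5c_d43_d314d_d51_d09 := p_wQ_26_wN_1_rb8033094a_d43_d46_d42_d5c_d43_d314d_d51_d09

theorem g_wQ_26_wN_1_rb8033094a_d43_d46_d42_d5c_d43_d314d_d51_d08 : GoodKC AS c_wQ_26_wN_1_rb8033094a_d43_d46_d42_d5c_d43_d314d_d51_d08 := p_wQ_26_wN_1_rb8033094a_d43_d46_d42_d5c_d43_d314d_d51_d08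

theorem g_wQ_26_wN_1_rb8033094a_d43_d46_d42_d5c_d43_d314d_d51_d04 : GoodKC AS c_wQ_26_wN_1_rb8033094a_d43_d46_d42_d5c_d43_d314d_d51_d04 := p_wQ_26_wN_1_rb8033094a_d43_d46_d42_d5c_d43_d314d_d51_d04

theorem g_wQ_26_wN_1_rb8033094a_d43_d46_d42_d5c_d43_d314d_d51_d03 : GoodKC AS c_wQ_26_wN_1_rb8033094a_d43_d46_d42_d5c_d43_d314d_d51_d03 := p_wQ_26_wN_1_rb8033094a_d43_d46_d42_d5c_d43_d314d_d51_d03

theorem g__wQ_26_wN_1_rb8033094a_d43_d46_d42_d5c_d43_d314d_d51_d02_0 : GoodKC AS k_wQ_26_wN_1_rb8033094a_d43_d46_d42_d5c_d43_d314d_d51_d02_0 := p_wQ_26_wN_1_rb8033094a_d43_d46_d42_d5c_d43_d314d_d51_d02_0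

theorem g_wQ_26_wN_1_rb8033094a_d43_d46_d42_d5c_d43_d314d_d51_d02 : GoodKC AS c_wQ_26_wN_1_rb8033094a_d43_d46_d42_d5c_d43_d314d_d51_d02 := p_wQ_26_wN_1_rb8033094a_d43_d46_d42_d5c_d43_d314d_d51_d02 g__wQ_26_wN_1_rb8033094a_d43_d46_d42_d5c_d43_d314d_d51_d02_0

theorem g_wQ_26_wN_1_rb8033094a_d43_d46_d42_d5c_d43_d314d_d51_d00 : GoodKC AS c_wQ_26_wN_1_rb8033094a_d43_d46_d42_d5c_d43_d314d_d51_d00 := p_wQ_26_wN_1_rb8033094a_d43_d46_d42_d5c_d43_d314d_d51_d00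

theorem g_wQ_26_wN_1_rb8033094a_d43_d46_d42_d5c_d43_d314d_d51_d01 : GoodKC AS c_wQ_26_wN_1_rb8033094a_d43_d46_d42_d5c_d43_d314d_d51_d01 := p_wQ_26_wN_1_rb8033094a_d43_d46_d42_d5c_d43_d314d_d51_d01

theorem g__wQ_26_wN_1_rb8033094a_d43_d46_d42_d5c_d43_d314d_0 : GoodKC AS k_wQ_26_wN_1_rb8033094a_d43_d46_d42_d5c_d43_d314d_0 := p_wQ_26_wN_1_rb8033094a_d43_d46_d42_d5c_d43_d314d_0

theorem g__wQ_26_wN_1_rb8033094a_d43_d46_d42_d5c_d43_d314d_1 : GoodKC AS k_wQ_26_wN_1_rb8033094a_d43_d46_d42_d5c_d43_d314d_1 := p_wQ_26_wN_1_rb8033094a_d43_d46_d42_d5c_d43_d314d_1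

theorem g_wQ_26_wN_1_rb8033094a_d43_d46_d42_d5c_d43_d314d_d51_d05 : GoodKC AS c_wQ_26_wN_1_rb8033094a_d43_d46_d42_d5c_d43_d314d_d51_d05 := p_wQ_26_wN_1_rb8033094a_d43_d46_d42_d5c_d43_d314d_d51_d05

theorem g_wQ_26_wN_1_rb8033094a_d43_d46_d42_d5c_d43_d314d_d51_d06 : GoodKC AS c_wQ_26_wN_1_rb8033094a_d43_d46_d42_d5c_d43_d314d_d51_d06 := p_wQ_26_wN_1_rb8033094a_d43_d46_d42_d5c_d43_d314d_d51_d06

theorem g_wQ_26_wN_1_rb8033094a_d43_d46_d42_d5c_d43_d314d_d51_d07 : GoodKC AS c_wQ_26_wN_1_rb8033094a_d43_d46_d42_d5c_d43_d314d_d51_d07 := p_wQ_26_wN_1_rb8033094a_d43_d46_d42_d5c_d43_d314d_d51_d07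

theorem g__wQ_26_wN_1_rb8033094a_d43_d46_d42_d5c_d43_d314d_d51_d0a_4 : GoodKC AS k_wQ_26_wN_1_rb8033094a_d43_d46_d42_d5c_d43_d314d_d51_d0a_4 := p_wQ_26_wN_1_rb8033094a_d43_d46_d42_d5c_d43_d314d_d51_d0a_4

theorem g__wQ_26_wN_1_rb8033094a_d43_d46_d42_d5c_d43_d314d_d51_d0a_3 : GoodKC AS k_wQ_26_wN_1_rb8033094a_d43_d46_d42_d5c_d43_d314d_d51_d0a_3 := p_wQ_26_wN_1_rb8033094a_d43_d46_d42_d5c_d43_d314d_d51_d0a_3 g__wQ_26_wN_1_rb8033094a_d43_d46_d42_d5c_d43_d314d_d51_d0a_4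

theorem g__wQ_26_wN_1_rb8033094a_d43_d46_d42_d5c_d43_d314d_d51_d0a_2 : GoodKC AS k_wQ_26_wN_1_rb8033094a_d43_d46_d42_d5c_d43_d314d_d51_d0a_2 := p_wQ_26_wN_1_rb8033094a_d43_d46_d42_d5c_d43_d314d_d51_d0a_2 g__wQ_26_wN_1_rb8033094a_d43_d46_d42_d5c_d43_d314d_d51_d0a_3

theorem g__wQ_26_wN_1_rb8033094a_d43_d46_d42_d5c_d43_d314d_d51_d0a_1 : GoodKC AS k_wQ_26_wN_1_rb8033094a_d43_d46_d42_d5c_d43_d314d_d51_d0a_1 := p_wQ_26_wN_1_rb8033094a_d43_d46_d42_d5c_d43_d314d_d51_d0a_1 g__wQ_26_wN_1_rb8033094a_d43_d46_d42_d5c_d43_d314d_d51_d0a_2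

theorem g__wQ_26_wN_1_rb8033094a_d43_d46_d42_d5c_d43_d314d_d51_d0a_5 : GoodKC AS k_wQ_26_wN_1_rb8033094a_d43_d46_d42_d5c_d43_d314d_d51_d0a_5 := p_wQ_26_wN_1_rb8033094a_d43_d46_d42_d5c_d43_d314d_d51_d0a_5

theorem g__wQ_26_wN_1_rb8033094a_d43_d46_d42_d5c_d43_d314d_d51_d0a_6 : GoodKC AS k_wQ_26_wN_1_rb8033094a_d43_d46_d42_d5c_d43_d314d_d51_d0a_6 := p_wQ_26_wN_1_rb8033094a_d43_d46_d42_d5c_d43_d314d_d51_d0a_6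

theorem g__wQ_26_wN_1_rb8033094a_d43_d46_d42_d5c_d43_d314d_d51_d0a_0 : GoodKC AS k_wQ_26_wN_1_rb8033094a_d43_d46_d42_d5c_d43_d314d_d51_d0a_0 := p_wQ_26_wN_1_rb8033094a_d43_d46_d42_d5c_d43_d314d_d51_d0a_0 g__wQ_26_wN_1_rb8033094a_d43_d46_d42_d5c_d43_d314d_d51_d0a_1 g__wQ_26_wN_1_rb8033094a_d43_d46_d42_d5c_d43_d314d_d51_d0a_5 g__wQ_26_wN_1_rb8033094a_d43_d46_d42_d5c_d43_d314d_d51_d0a_6

theorem g__wQ_26_wN_1_rb8033094a_d43_d46_d42_d5c_d43_d314d_d51_d0a_7 : GoodKC AS k_wQ_26_wN_1_rb8033094a_d43_d46_d42_d5c_d43_d314d_d51_d0a_7 := p_wQ_26_wN_1_rb8033094a_d43_d46_d42_d5c_d43_d314d_d51_d0a_7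

theorem g_wQ_26_wN_1_rb8033094a_d43_d46_d42_d5c_d43_d314d_d51_d0a : GoodKC AS c_wQ_26_wN_1_rb8033094a_d43_d46_d42_d5c_d43_d314d_d51_d0a := p_wQ_26_wN_1_rb8033094a_d43_d46_d42_d5c_d43_d314d_d51_d0a g__wQ_26_wN_1_rb8033094a_d43_d46_d42_d5c_d43_d314d_d51_d0a_0 g__wQ_26_wN_1_rb8033094a_d43_d46_d42_d5c_d43_d314d_d51_d0a_7

theorem g_wQ_26_wN_1_rb8033094a_d43_d46_d42_d5c_d43_d314d : GoodKC AS c_wQ_26_wN_1_rb8033094a_d43_d46_d42_d5c_d43_d314d := p_wQ_26_wN_1_rb8033094a_d43_d46_d42_d5c_d43_d314d g_wQ_26_wN_1_rb8033094a_d43_d46_d42_d5c_d43_d314d_d51_d0c g_wQ_26_wN_1_rb8033094a_d43_d46_d42_d5c_d43_d314d_d51_d0b g_wQ_26_wN_1_rb8033094a_d43_d46_d42_d5c_d43_d314d_d51_d09 g_wQ_26_wN_1_rb8033094a_d43_d46_d42_d5c_d43_d314d_d51_d08 g_wQ_26_wN_1_rb8033094a_d43_d46_d42_d5c_d43_d314d_d51_d04 g_wQ_26_wN_1_rb8033094a_d43_d46_d42_d5c_d43_d314d_d51_d03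 g_wQ_26_wN_1_rb8033094a_d43_d46_d42_d5c_d43_d314d_d51_d02 g_wQ_26_wN_1_rb8033094a_d43_d46_d42_d5c_d43_d314d_d51_d00 g_wQ_26_wN_1_rb8033094a_d43_d46_d42_d5c_d43_d314d_d51_d01 g__wQ_26_wN_1_rb8033094a_d43_d46_d42_d5c_d43_d314d_0 g__wQ_26_wN_1_rb8033094a_d43_d46_d42_d5c_d43_d314d_1 g_wQ_26_wN_1_rb8033094a_d43_d46_d42_d5c_d43_d314d_d51_d05 g_wQ_26_wN_1_rb8033094a_d43_d46_d42_d5c_d43_d314d_d51_d06 g_wQ_26_wN_1_rb8033094a_d43_d46_d42_d5c_d43_d314d_d51_d07 g_wQ_26_wN_1_rb8033094a_d43_d46_d42_d5c_d43_d314d_d51_d0a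

theorem g_wQ_26_wN_1_rb8033094a_d43_d46_d42_d5c_d43_d314a : GoodKC AS c_wQ_26_wN_1_rb8033094a_d43_d46_d42_d5c_d43_d314a := p_wQ_26_wN_1_rb8033094a_d43_d46_d42_d5c_d43_d314a

theorem g_wQ_26_wN_1_rb8033094a_d43_d46_d42_d5c_d43_d314734 : GoodKC AS c_wQ_26_wN_1_rb8033094a_d43_d46_d42_d5c_d43_d314734 := p_wQ_26_wN_1_rb8033094a_d43_d46_d42_d5c_d43_d314734

theorem g__wQ_26_wN_1_rb8033094a_d43_d46_d42_d5c_d43_d314733_0 : GoodKC AS k_wQ_26_wN_1_rb8033094a_d43_d46_d42_d5c_d43_d314733_0 := p_wQ_26_wN_1_rb8033094a_d43_d46_d42_d5c_d43_d314733_0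

theorem g_wQ_26_wN_1_rb8033094a_d43_d46_d42_d5c_d43_d314733 : GoodKC AS c_wQ_26_wN_1_rb8033094a_d43_d46_d42_d5c_d43_d314733 := p_wQ_26_wN_1_rb8033094a_d43_d46_d42_d5c_d43_d314733 g__wQ_26_wN_1_rb8033094a_d43_d46_d42_d5c_d43_d314733_0

theorem g_wQ_26_wN_1_rb8033094a_d43_d46_d42_d5c_d43_d314731 : GoodKC AS c_wQ_26_wN_1_rb8033094a_d43_d46_d42_d5c_d43_d314731 := p_wQ_26_wN_1_rb8033094a_d43_d46_d42_d5c_d43_d314731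

theorem g_wQ_26_wN_1_rb8033094a_d43_d46_d42_d5c_d43_d314730 : GoodKC AS c_wQ_26_wN_1_rb8033094a_d43_d46_d42_d5c_d43_d314730 := p_wQ_26_wN_1_rb8033094a_d43_d46_d42_d5c_d43_d314730

theorem g_wQ_26_wN_1_rb8033094a_d43_d46_d42_d5c_d43_d31472f : GoodKC AS c_wQ_26_wN_1_rb8033094a_d43_d46_d42_d5c_d43_d31472f := p_wQ_26_wN_1_rb8033094a_d43_d46_d42_d5c_d43_d31472f

theorem g_wQ_26_wN_1_rb8033094a_d43_d46_d42_d5c_d43_d31472e : GoodKC AS c_wQ_26_wN_1_rb8033094a_d43_d46_d42_d5c_d43_d31472e := p_wQ_26_wN_1_rb8033094a_d43_d46_d42_d5c_d43_d31472e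

theorem g_wQ_26_wN_1_rb8033094a_d43_d46_d42_d5c_d43_d31472d : GoodKC AS c_wQ_26_wN_1_rb8033094a_d43_d46_d42_d5c_d43_d31472d := p_wQ_26_wN_1_rb8033094a_d43_d46_d42_d5c_d43_d31472d

theorem g_wQ_26_wN_1_rb8033094a_d43_d46_d42_d5c_d43_d31472c : GoodKC AS c_wQ_26_wN_1_rb8033094a_d43_d46_d42_d5c_d43_d31472c := p_wQ_26_wN_1_rb8033094a_d43_d46_d42_d5c_d43_d31472c

theorem g_wQ_26_wN_1_rb8033094a_d43_d46_d42_d5c_d43_d31472a : GoodKC AS c_wQ_26_wN_1_rb8033094a_d43_d46_d42_d5c_d43_d31472a := p_wQ_26_wN_1_rb8033094a_d43_d46_d42_d5c_d43_d31472a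

theorem g__wQ_26_wN_1_rb8033094a_d43_d46_d42_d5c_d43_d3147_2 : GoodKC AS k_wQ_26_wN_1_rb8033094a_d43_d46_d42_d5c_d43_d3147_2 := p_wQ_26_wN_1_rb8033094a_d43_d46_d42_d5c_d43_d3147_2

theorem g__wQ_26_wN_1_rb8033094a_d43_d46_d42_d5c_d43_d3147_6 : GoodKC AS k_wQ_26_wN_1_rb8033094a_d43_d46_d42_d5c_d43_d3147_6 := p_wQ_26_wN_1_rb8033094a_d43_d46_d42_d5c_d43_d3147_6

theorem g__wQ_26_wN_1_rb8033094a_d43_d46_d42_d5c_d43_d3147_5 : GoodKC AS k_wQ_26_wN_1_rb8033094a_d43_d46_d42_d5c_d43_d3147_5 := p_wQ_26_wN_1_rb8033094a_d43_d46_d42_d5c_d43_d3147_5 g__wQ_26_wN_1_rb8033094a_d43_d46_d42_d5c_d43_d3147_6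

theorem g__wQ_26_wN_1_rb8033094a_d43_d46_d42_d5c_d43_d3147_4 : GoodKC AS k_wQ_26_wN_1_rb8033094a_d43_d46_d42_d5c_d43_d3147_4 := p_wQ_26_wN_1_rb8033094a_d43_d46_d42_d5c_d43_d3147_4 g__wQ_26_wN_1_rb8033094a_d43_d46_d42_d5c_d43_d3147_5

theorem g__wQ_26_wN_1_rb8033094a_d43_d46_d42_d5c_d43_d3147_3 : GoodKC AS k_wQ_26_wN_1_rb8033094a_d43_d46_d42_d5c_d43_d3147_3 := p_wQ_26_wN_1_rb8033094a_d43_d46_d42_d5c_d43_d3147_3 g__wQ_26_wN_1_rb8033094a_d43_d46_d42_d5c_d43_d3147_4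

theorem g__wQ_26_wN_1_rb8033094a_d43_d46_d42_d5c_d43_d3147_1 : GoodKC AS k_wQ_26_wN_1_rb8033094a_d43_d46_d42_d5c_d43_d3147_1 := p_wQ_26_wN_1_rb8033094a_d43_d46_d42_d5c_d43_d3147_1 g__wQ_26_wN_1_rb8033094a_d43_d46_d42_d5c_d43_d3147_2 g__wQ_26_wN_1_rb8033094a_d43_d46_d42_d5c_d43_d3147_3

theorem g__wQ_26_wN_1_rb8033094a_d43_d46_d42_d5c_d43_d3147_0 : GoodKC AS k_wQ_26_wN_1_rb8033094a_d43_d46_d42_d5c_d43_d3147_0 := p_wQ_26_wN_1_rb8033094a_d43_d46_d42_d5c_d43_d3147_0 g__wQ_26_wN_1_rb8033094a_d43_d46_d42_d5c_d43_d3147_1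

theorem g_wQ_26_wN_1_rb8033094a_d43_d46_d42_d5c_d43_d314728 : GoodKC AS c_wQ_26_wN_1_rb8033094a_d43_d46_d42_d5c_d43_d314728 := p_wQ_26_wN_1_rb8033094a_d43_d46_d42_d5c_d43_d314728

theorem g_wQ_26_wN_1_rb8033094a_d43_d46_d42_d5c_d43_d314726 : GoodKC AS c_wQ_26_wN_1_rb8033094a_d43_d46_d42_d5c_d43_d314726 := p_wQ_26_wN_1_rb8033094a_d43_d46_d42_d5c_d43_d314726

theorem g_wQ_26_wN_1_rb8033094a_d43_d46_d42_d5c_d43_d314725 : GoodKC AS c_wQ_26_wN_1_rb8033094a_d43_d46_d42_d5c_d43_d314725 := p_wQ_26_wN_1_rb8033094a_d43_d46_d42_d5c_d43_d314725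

theorem g_wQ_26_wN_1_rb8033094a_d43_d46_d42_d5c_d43_d314724 : GoodKC AS c_wQ_26_wN_1_rb8033094a_d43_d46_d42_d5c_d43_d314724 := p_wQ_26_wN_1_rb8033094a_d43_d46_d42_d5c_d43_d314724

theorem g_wQ_26_wN_1_rb8033094a_d43_d46_d42_d5c_d43_d31471f : GoodKC AS c_wQ_26_wN_1_rb8033094a_d43_d46_d42_d5c_d43_d31471f := p_wQ_26_wN_1_rb8033094a_d43_d46_d42_d5c_d43_d31471f

theorem g_wQ_26_wN_1_rb8033094a_d43_d46_d42_d5c_d43_d31471e : GoodKC AS c_wQ_26_wN_1_rb8033094a_d43_d46_d42_d5c_d43_d31471e := p_wQ_26_wN_1_rb8033094a_d43_d46_d42_d5c_d43_d31471e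

theorem g_wQ_26_wN_1_rb8033094a_d43_d46_d42_d5c_d43_d31471d : GoodKC AS c_wQ_26_wN_1_rb8033094a_d43_d46_d42_d5c_d43_d31471d := p_wQ_26_wN_1_rb8033094a_d43_d46_d42_d5c_d43_d31471d

theorem g_wQ_26_wN_1_rb8033094a_d43_d46_d42_d5c_d43_d31471c : GoodKC AS c_wQ_26_wN_1_rb8033094a_d43_d46_d42_d5c_d43_d31471c := p_wQ_26_wN_1_rb8033094a_d43_d46_d42_d5c_d43_d31471c

theorem g_wQ_26_wN_1_rb8033094a_d43_d46_d42_d5c_d43_d31471a : GoodKC AS c_wQ_26_wN_1_rb8033094a_d43_d46_d42_d5c_d43_d31471a := p_wQ_26_wN_1_rb8033094a_d43_d46_d42_d5c_d43_d31471a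

theorem g_wQ_26_wN_1_rb8033094a_d43_d46_d42_d5c_d43_d314719 : GoodKC AS c_wQ_26_wN_1_rb8033094a_d43_d46_d42_d5c_d43_d314719 := p_wQ_26_wN_1_rb8033094a_d43_d46_d42_d5c_d43_d314719

theorem g_wQ_26_wN_1_rb8033094a_d43_d46_d42_d5c_d43_d314718 : GoodKC AS c_wQ_26_wN_1_rb8033094a_d43_d46_d42_d5c_d43_d314718 := p_wQ_26_wN_1_rb8033094a_d43_d46_d42_d5c_d43_d314718

theorem g__wQ_26_wN_1_rb8033094a_d43_d46_d42_d5c_d43_d3147_8 : GoodKC AS k_wQ_26_wN_1_rb8033094a_d43_d46_d42_d5c_d43_d3147_8 := p_wQ_26_wN_1_rb8033094a_d43_d46_d42_d5c_d43_d3147_8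

theorem g__wQ_26_wN_1_rb8033094a_d43_d46_d42_d5c_d43_d3147_9 : GoodKC AS k_wQ_26_wN_1_rb8033094a_d43_d46_d42_d5c_d43_d3147_9 := p_wQ_26_wN_1_rb8033094a_d43_d46_d42_d5c_d43_d3147_9

theorem g__wQ_26_wN_1_rb8033094a_d43_d46_d42_d5c_d43_d3147_7 : GoodKC AS k_wQ_26_wN_1_rb8033094a_d43_d46_d42_d5c_d43_d3147_7 := p_wQ_26_wN_1_rb8033094a_d43_d46_d42_d5c_d43_d3147_7 g__wQ_26_wN_1_rb8033094a_d43_d46_d42_d5c_d43_d3147_8 g__wQ_26_wN_1_rb8033094a_d43_d46_d42_d5c_d43_d3147_9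

theorem g_wQ_26_wN_1_rb8033094a_d43_d46_d42_d5c_d43_d314715 : GoodKC AS c_wQ_26_wN_1_rb8033094a_d43_d46_d42_d5c_d43_d314715 := p_wQ_26_wN_1_rb8033094a_d43_d46_d42_d5c_d43_d314715

theorem g_wQ_26_wN_1_rb8033094a_d43_d46_d42_d5c_d43_d314713 : GoodKC AS c_wQ_26_wN_1_rb8033094a_d43_d46_d42_d5c_d43_d314713 := p_wQ_26_wN_1_rb8033094a_d43_d46_d42_d5c_d43_d314713

theorem g_wQ_26_wN_1_rb8033094a_d43_d46_d42_d5c_d43_d31470f : GoodKC AS c_wQ_26_wN_1_rb8033094a_d43_d46_d42_d5c_d43_d31470f := p_wQ_26_wN_1_rb8033094a_d43_d46_d42_d5c_d43_d31470f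

theorem g__wQ_26_wN_1_rb8033094a_d43_d46_d42_d5c_d43_d3147_12 : GoodKC AS k_wQ_26_wN_1_rb8033094a_d43_d46_d42_d5c_d43_d3147_12 := p_wQ_26_wN_1_rb8033094a_d43_d46_d42_d5c_d43_d3147_12

theorem g__wQ_26_wN_1_rb8033094a_d43_d46_d42_d5c_d43_d3147_14 : GoodKC AS k_wQ_26_wN_1_rb8033094a_d43_d46_d42_d5c_d43_d3147_14 := p_wQ_26_wN_1_rb8033094a_d43_d46_d42_d5c_d43_d3147_14

theorem g__wQ_26_wN_1_rb8033094a_d43_d46_d42_d5c_d43_d3147_13 : GoodKC AS k_wQ_26_wN_1_rb8033094a_d43_d46_d42_d5c_d43_d3147_13 := p_wQ_26_wN_1_rb8033094a_d43_d46_d42_d5c_d43_d3147_13 g__wQ_26_wN_1_rb8033094a_d43_d46_d42_d5c_d43_d3147_14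

theorem g__wQ_26_wN_1_rb8033094a_d43_d46_d42_d5c_d43_d3147_11 : GoodKC AS k_wQ_26_wN_1_rb8033094a_d43_d46_d42_d5c_d43_d3147_11 := p_wQ_26_wN_1_rb8033094a_d43_d46_d42_d5c_d43_d3147_11 g__wQ_26_wN_1_rb8033094a_d43_d46_d42_d5c_d43_d3147_12 g__wQ_26_wN_1_rb8033094a_d43_d46_d42_d5c_d43_d3147_13

theorem g_wQ_26_wN_1_rb8033094a_d43_d46_d42_d5c_d43_d314709 : GoodKC AS c_wQ_26_wN_1_rb8033094a_d43_d46_d42_d5c_d43_d314709 := p_wQ_26_wN_1_rb8033094a_d43_d46_d42_d5c_d43_d314709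

theorem g_wQ_26_wN_1_rb8033094a_d43_d46_d42_d5c_d43_d314708 : GoodKC AS c_wQ_26_wN_1_rb8033094a_d43_d46_d42_d5c_d43_d314708 := p_wQ_26_wN_1_rb8033094a_d43_d46_d42_d5c_d43_d314708

theorem g_wQ_26_wN_1_rb8033094a_d43_d46_d42_d5c_d43_d314707 : GoodKC AS c_wQ_26_wN_1_rb8033094a_d43_d46_d42_d5c_d43_d314707 := p_wQ_26_wN_1_rb8033094a_d43_d46_d42_d5c_d43_d314707

theorem g__wQ_26_wN_1_rb8033094a_d43_d46_d42_d5c_d43_d314704_0 : GoodKC AS k_wQ_26_wN_1_rb8033094a_d43_d46_d42_d5c_d43_d314704_0 := p_wQ_26_wN_1_rb8033094a_d43_d46_d42_d5c_d43_d314704_0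

theorem g_wQ_26_wN_1_rb8033094a_d43_d46_d42_d5c_d43_d314704 : GoodKC AS c_wQ_26_wN_1_rb8033094a_d43_d46_d42_d5c_d43_d314704 := p_wQ_26_wN_1_rb8033094a_d43_d46_d42_d5c_d43_d314704 g__wQ_26_wN_1_rb8033094a_d43_d46_d42_d5c_d43_d314704_0

theorem g_wQ_26_wN_1_rb8033094a_d43_d46_d42_d5c_d43_d314700 : GoodKC AS c_wQ_26_wN_1_rb8033094a_d43_d46_d42_d5c_d43_d314700 := p_wQ_26_wN_1_rb8033094a_d43_d46_d42_d5c_d43_d314700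

theorem g_wQ_26_wN_1_rb8033094a_d43_d46_d42_d5c_d43_d314701 : GoodKC AS c_wQ_26_wN_1_rb8033094a_d43_d46_d42_d5c_d43_d314701 := p_wQ_26_wN_1_rb8033094a_d43_d46_d42_d5c_d43_d314701

theorem g_wQ_26_wN_1_rb8033094a_d43_d46_d42_d5c_d43_d314702 : GoodKC AS c_wQ_26_wN_1_rb8033094a_d43_d46_d42_d5c_d43_d314702 := p_wQ_26_wN_1_rb8033094a_d43_d46_d42_d5c_d43_d314702

theorem g_wQ_26_wN_1_rb8033094a_d43_d46_d42_d5c_d43_d314703 : GoodKC AS c_wQ_26_wN_1_rb8033094a_d43_d46_d42_d5c_d43_d314703 := p_wQ_26_wN_1_rb8033094a_d43_d46_d42_d5c_d43_d314703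

theorem g_wQ_26_wN_1_rb8033094a_d43_d46_d42_d5c_d43_d314705 : GoodKC AS c_wQ_26_wN_1_rb8033094a_d43_d46_d42_d5c_d43_d314705 := p_wQ_26_wN_1_rb8033094a_d43_d46_d42_d5c_d43_d314705

theorem g_wQ_26_wN_1_rb8033094a_d43_d46_d42_d5c_d43_d314706 : GoodKC AS c_wQ_26_wN_1_rb8033094a_d43_d46_d42_d5c_d43_d314706 := p_wQ_26_wN_1_rb8033094a_d43_d46_d42_d5c_d43_d314706

theorem g_wQ_26_wN_1_rb8033094a_d43_d46_d42_d5c_d43_d31470a : GoodKC AS c_wQ_26_wN_1_rb8033094a_d43_d46_d42_d5c_d43_d31470a := p_wQ_26_wN_1_rb8033094a_d43_d46_d42_d5c_d43_d31470a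

theorem g_wQ_26_wN_1_rb8033094a_d43_d46_d42_d5c_d43_d31470b : GoodKC AS c_wQ_26_wN_1_rb8033094a_d43_d46_d42_d5c_d43_d31470b := p_wQ_26_wN_1_rb8033094a_d43_d46_d42_d5c_d43_d31470b

theorem g_wQ_26_wN_1_rb8033094a_d43_d46_d42_d5c_d43_d31470c : GoodKC AS c_wQ_26_wN_1_rb8033094a_d43_d46_d42_d5c_d43_d31470c := p_wQ_26_wN_1_rb8033094a_d43_d46_d42_d5c_d43_d31470c

theorem g_wQ_26_wN_1_rb8033094a_d43_d46_d42_d5c_d43_d31470d : GoodKC AS c_wQ_26_wN_1_rb8033094a_d43_d46_d42_d5c_d43_d31470d := p_wQ_26_wN_1_rb8033094a_d43_d46_d42_d5c_d43_d31470d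

theorem g_wQ_26_wN_1_rb8033094a_d43_d46_d42_d5c_d43_d31470e : GoodKC AS c_wQ_26_wN_1_rb8033094a_d43_d46_d42_d5c_d43_d31470e := p_wQ_26_wN_1_rb8033094a_d43_d46_d42_d5c_d43_d31470e

theorem g_wQ_26_wN_1_rb8033094a_d43_d46_d42_d5c_d43_d314710 : GoodKC AS c_wQ_26_wN_1_rb8033094a_d43_d46_d42_d5c_d43_d314710 := p_wQ_26_wN_1_rb8033094a_d43_d46_d42_d5c_d43_d314710

theorem g_wQ_26_wN_1_rb8033094a_d43_d46_d42_d5c_d43_d314711 : GoodKC AS c_wQ_26_wN_1_rb8033094a_d43_d46_d42_d5c_d43_d314711 := p_wQ_26_wN_1_rb8033094a_d43_d46_d42_d5c_d43_d314711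

theorem g_wQ_26_wN_1_rb8033094a_d43_d46_d42_d5c_d43_d314712 : GoodKC AS c_wQ_26_wN_1_rb8033094a_d43_d46_d42_d5c_d43_d314712 := p_wQ_26_wN_1_rb8033094a_d43_d46_d42_d5c_d43_d314712

theorem g__wQ_26_wN_1_rb8033094a_d43_d46_d42_d5c_d43_d314714_3 : GoodKC AS k_wQ_26_wN_1_rb8033094a_d43_d46_d42_d5c_d43_d314714_3 := p_wQ_26_wN_1_rb8033094a_d43_d46_d42_d5c_d43_d314714_3

theorem g__wQ_26_wN_1_rb8033094a_d43_d46_d42_d5c_d43_d314714_2 : GoodKC AS k_wQ_26_wN_1_rb8033094a_d43_d46_d42_d5c_d43_d314714_2 := p_wQ_26_wN_1_rb8033094a_d43_d46_d42_d5c_d43_d314714_2 g__wQ_26_wN_1_rb8033094a_d43_d46_d42_d5c_d43_d314714_3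

theorem g__wQ_26_wN_1_rb8033094a_d43_d46_d42_d5c_d43_d314714_6 : GoodKC AS k_wQ_26_wN_1_rb8033094a_d43_d46_d42_d5c_d43_d314714_6 := p_wQ_26_wN_1_rb8033094a_d43_d46_d42_d5c_d43_d314714_6

theorem g__wQ_26_wN_1_rb8033094a_d43_d46_d42_d5c_d43_d314714_8 : GoodKC AS k_wQ_26_wN_1_rb8033094a_d43_d46_d42_d5c_d43_d314714_8 := p_wQ_26_wN_1_rb8033094a_d43_d46_d42_d5c_d43_d314714_8

theorem g__wQ_26_wN_1_rb8033094a_d43_d46_d42_d5c_d43_d314714_7 : GoodKC AS k_wQ_26_wN_1_rb8033094a_d43_d46_d42_d5c_d43_d314714_7 := p_wQ_26_wN_1_rb8033094a_d43_d46_d42_d5c_d43_d314714_7 g__wQ_26_wN_1_rb8033094a_d43_d46_d42_d5c_d43_d314714_8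

theorem g__wQ_26_wN_1_rb8033094a_d43_d46_d42_d5c_d43_d314714_11 : GoodKC AS k_wQ_26_wN_1_rb8033094a_d43_d46_d42_d5c_d43_d314714_11 := p_wQ_26_wN_1_rb8033094a_d43_d46_d42_d5c_d43_d314714_11

theorem g__wQ_26_wN_1_rb8033094a_d43_d46_d42_d5c_d43_d314714_10 : GoodKC AS k_wQ_26_wN_1_rb8033094a_d43_d46_d42_d5c_d43_d314714_10 := p_wQ_26_wN_1_rb8033094a_d43_d46_d42_d5c_d43_d314714_10 g__wQ_26_wN_1_rb8033094a_d43_d46_d42_d5c_d43_d314714_11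

theorem g__wQ_26_wN_1_rb8033094a_d43_d46_d42_d5c_d43_d314714_9 : GoodKC AS k_wQ_26_wN_1_rb8033094a_d43_d46_d42_d5c_d43_d314714_9 := p_wQ_26_wN_1_rb8033094a_d43_d46_d42_d5c_d43_d314714_9 g__wQ_26_wN_1_rb8033094a_d43_d46_d42_d5c_d43_d314714_10

theorem g__wQ_26_wN_1_rb8033094a_d43_d46_d42_d5c_d43_d314714_5 : GoodKC AS k_wQ_26_wN_1_rb8033094a_d43_d46_d42_d5c_d43_d314714_5 := p_wQ_26_wN_1_rb8033094a_d43_d46_d42_d5c_d43_d314714_5 g__wQ_26_wN_1_rb8033094a_d43_d46_d42_d5c_d43_d314714_6 g__wQ_26_wN_1_rb8033094a_d43_d46_d42_d5c_d43_d314714_7 g__wQ_26_wN_1_rb8033094a_d43_d46_d42_d5c_d43_d314714_9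

theorem g__wQ_26_wN_1_rb8033094a_d43_d46_d42_d5c_d43_d314714_4 : GoodKC AS k_wQ_26_wN_1_rb8033094a_d43_d46_d42_d5c_d43_d314714_4 := p_wQ_26_wN_1_rb8033094a_d43_d46_d42_d5c_d43_d314714_4 g__wQ_26_wN_1_rb8033094a_d43_d46_d42_d5c_d43_d314714_5

theorem g__wQ_26_wN_1_rb8033094a_d43_d46_d42_d5c_d43_d314714_1 : GoodKC AS k_wQ_26_wN_1_rb8033094a_d43_d46_d42_d5c_d43_d314714_1 := p_wQ_26_wN_1_rb8033094a_d43_d46_d42_d5c_d43_d314714_1 g__wQ_26_wN_1_rb8033094a_d43_d46_d42_d5c_d43_d314714_2 g__wQ_26_wN_1_rb8033094a_d43_d46_d42_d5c_d43_d314714_4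

theorem g__wQ_26_wN_1_rb8033094a_d43_d46_d42_d5c_d43_d314714_0 : GoodKC AS k_wQ_26_wN_1_rb8033094a_d43_d46_d42_d5c_d43_d314714_0 := p_wQ_26_wN_1_rb8033094a_d43_d46_d42_d5c_d43_d314714_0 g__wQ_26_wN_1_rb8033094a_d43_d46_d42_d5c_d43_d314714_1

theorem g_wQ_26_wN_1_rb8033094a_d43_d46_d42_d5c_d43_d314714 : GoodKC AS c_wQ_26_wN_1_rb8033094a_d43_d46_d42_d5c_d43_d314714 := p_wQ_26_wN_1_rb8033094a_d43_d46_d42_d5c_d43_d314714 g__wQ_26_wN_1_rb8033094a_d43_d46_d42_d5c_d43_d314714_0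

theorem g__wQ_26_wN_1_rb8033094a_d43_d46_d42_d5c_d43_d3147_10 : GoodKC AS k_wQ_26_wN_1_rb8033094a_d43_d46_d42_d5c_d43_d3147_10 := p_wQ_26_wN_1_rb8033094a_d43_d46_d42_d5c_d43_d3147_10 g_wQ_26_wN_1_rb8033094a_d43_d46_d42_d5c_d43_d314715 g_wQ_26_wN_1_rb8033094a_d43_d46_d42_d5c_d43_d314713 g_wQ_26_wN_1_rb8033094a_d43_d46_d42_d5c_d43_d31470f g__wQ_26_wN_1_rb8033094a_d43_d46_d42_d5c_d43_d3147_11 g_wQ_26_wN_1_rb8033094a_d43_d46_d42_d5c_d43_d314709 g_wQ_26_wN_1_rb8033094a_d43_d46_d42_d5c_d43_d314708 g_wQ_26_wN_1_rb8033094a_d43_d46_d42_d5c_d43_d314707 g_wQ_26_wN_1_rb8033094a_d43_d46_d42_d5c_d43_d314704 g_wQ_26_wN_1_rb8033094a_d43_d46_d42_d5c_d43_d314700 g_wQ_26_wN_1_rb8033094a_d43_d46_d42_d5c_d43_d314701 g_wQ_26_wN_1_rb8033094a_d43_d46_d42_d5c_d43_d314702 g_wQ_26_wN_1_rb8033094a_d43_d46_d42_d5c_d43_d314703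 g_wQ_26_wN_1_rb8033094a_d43_d46_d42_d5c_d43_d314705 g_wQ_26_wN_1_rb8033094a_d43_d46_d42_d5c_d43_d314706 g_wQ_26_wN_1_rb8033094a_d43_d46_d42_d5c_d43_d31470a g_wQ_26_wN_1_rb8033094a_d43_d46_d42_d5c_d43_d31470b g_wQ_26_wN_1_rb8033094a_d43_d46_d42_d5c_d43_d31470c g_wQ_26_wN_1_rb8033094a_d43_d46_d42_d5c_d43_d31470d g_wQ_26_wN_1_rb8033094a_d43_d46_d42_d5c_d43_d31470e g_wQ_26_wN_1_rb8033094a_d43_d46_d42_d5c_d43_d314710 g_wQ_26_wN_1_rb8033094a_d43_d46_d42_d5c_d43_d314711 g_wQ_26_wN_1_rb8033094a_d43_d46_d42_d5c_d43_d314712 g_wQ_26_wN_1_rb8033094a_d43_d46_d42_d5c_d43_d314714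

theorem g__wQ_26_wN_1_rb8033094a_d43_d46_d42_d5c_d43_d3147_17 : GoodKC AS k_wQ_26_wN_1_rb8033094a_d43_d46_d42_d5c_d43_d3147_17 := p_wQ_26_wN_1_rb8033094a_d43_d46_d42_d5c_d43_d3147_17

theorem g__wQ_26_wN_1_rb8033094a_d43_d46_d42_d5c_d43_d3147_16 : GoodKC AS k_wQ_26_wN_1_rb8033094a_d43_d46_d42_d5c_d43_d3147_16 := p_wQ_26_wN_1_rb8033094a_d43_d46_d42_d5c_d43_d3147_16 g__wQ_26_wN_1_rb8033094a_d43_d46_d42_d5c_d43_d3147_17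

theorem g__wQ_26_wN_1_rb8033094a_d43_d46_d42_d5c_d43_d3147_15 : GoodKC AS k_wQ_26_wN_1_rb8033094a_d43_d46_d42_d5c_d43_d3147_15 := p_wQ_26_wN_1_rb8033094a_d43_d46_d42_d5c_d43_d3147_15 g__wQ_26_wN_1_rb8033094a_d43_d46_d42_d5c_d43_d3147_16

theorem g_wQ_26_wN_1_rb8033094a_d43_d46_d42_d5c_d43_d314716 : GoodKC AS c_wQ_26_wN_1_rb8033094a_d43_d46_d42_d5c_d43_d314716 := p_wQ_26_wN_1_rb8033094a_d43_d46_d42_d5c_d43_d314716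

theorem g_wQ_26_wN_1_rb8033094a_d43_d46_d42_d5c_d43_d314717 : GoodKC AS c_wQ_26_wN_1_rb8033094a_d43_d46_d42_d5c_d43_d314717 := p_wQ_26_wN_1_rb8033094a_d43_d46_d42_d5c_d43_d314717

theorem g__wQ_26_wN_1_rb8033094a_d43_d46_d42_d5c_d43_d31471b_1 : GoodKC AS k_wQ_26_wN_1_rb8033094a_d43_d46_d42_d5c_d43_d31471b_1 := p_wQ_26_wN_1_rb8033094a_d43_d46_d42_d5c_d43_d31471b_1

theorem g__wQ_26_wN_1_rb8033094a_d43_d46_d42_d5c_d43_d31471b_0 : GoodKC AS k_wQ_26_wN_1_rb8033094a_d43_d46_d42_d5c_d43_d31471b_0 := p_wQ_26_wN_1_rb8033094a_d43_d46_d42_d5c_d43_d31471b_0 g__wQ_26_wN_1_rb8033094a_d43_d46_d42_d5c_d43_d31471b_1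

theorem g_wQ_26_wN_1_rb8033094a_d43_d46_d42_d5c_d43_d31471b : GoodKC AS c_wQ_26_wN_1_rb8033094a_d43_d46_d42_d5c_d43_d31471b := p_wQ_26_wN_1_rb8033094a_d43_d46_d42_d5c_d43_d31471b g__wQ_26_wN_1_rb8033094a_d43_d46_d42_d5c_d43_d31471b_0

theorem g_wQ_26_wN_1_rb8033094a_d43_d46_d42_d5c_d43_d314720 : GoodKC AS c_wQ_26_wN_1_rb8033094a_d43_d46_d42_d5c_d43_d314720 := p_wQ_26_wN_1_rb8033094a_d43_d46_d42_d5c_d43_d314720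

theorem g_wQ_26_wN_1_rb8033094a_d43_d46_d42_d5c_d43_d314721 : GoodKC AS c_wQ_26_wN_1_rb8033094a_d43_d46_d42_d5c_d43_d314721 := p_wQ_26_wN_1_rb8033094a_d43_d46_d42_d5c_d43_d314721

theorem g_wQ_26_wN_1_rb8033094a_d43_d46_d42_d5c_d43_d314722 : GoodKC AS c_wQ_26_wN_1_rb8033094a_d43_d46_d42_d5c_d43_d314722 := p_wQ_26_wN_1_rb8033094a_d43_d46_d42_d5c_d43_d314722

theorem g_wQ_26_wN_1_rb8033094a_d43_d46_d42_d5c_d43_d314723 : GoodKC AS c_wQ_26_wN_1_rb8033094a_d43_d46_d42_d5c_d43_d314723 := p_wQ_26_wN_1_rb8033094a_d43_d46_d42_d5c_d43_d314723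

theorem g_wQ_26_wN_1_rb8033094a_d43_d46_d42_d5c_d43_d314727 : GoodKC AS c_wQ_26_wN_1_rb8033094a_d43_d46_d42_d5c_d43_d314727 := p_wQ_26_wN_1_rb8033094a_d43_d46_d42_d5c_d43_d314727

theorem g_wQ_26_wN_1_rb8033094a_d43_d46_d42_d5c_d43_d314729 : GoodKC AS c_wQ_26_wN_1_rb8033094a_d43_d46_d42_d5c_d43_d314729 := p_wQ_26_wN_1_rb8033094a_d43_d46_d42_d5c_d43_d314729

theorem g_wQ_26_wN_1_rb8033094a_d43_d46_d42_d5c_d43_d31472b : GoodKC AS c_wQ_26_wN_1_rb8033094a_d43_d46_d42_d5c_d43_d31472b := p_wQ_26_wN_1_rb8033094a_d43_d46_d42_d5c_d43_d31472b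

theorem g_wQ_26_wN_1_rb8033094a_d43_d46_d42_d5c_d43_d314732 : GoodKC AS c_wQ_26_wN_1_rb8033094a_d43_d46_d42_d5c_d43_d314732 := p_wQ_26_wN_1_rb8033094a_d43_d46_d42_d5c_d43_d314732

theorem g_wQ_26_wN_1_rb8033094a_d43_d46_d42_d5c_d43_d3147 : GoodKC AS c_wQ_26_wN_1_rb8033094a_d43_d46_d42_d5c_d43_d3147 := p_wQ_26_wN_1_rb8033094a_d43_d46_d42_d5c_d43_d3147 g_wQ_26_wN_1_rb8033094a_d43_d46_d42_d5c_d43_d314734 g_wQ_26_wN_1_rb8033094a_d43_d46_d42_d5c_d43_d314733 g_wQ_26_wN_1_rb8033094a_d43_d46_d42_d5c_d43_d314731 g_wQ_26_wN_1_rb8033094a_d43_d46_d42_d5c_d43_d314730 g_wQ_26_wN_1_rb8033094a_d43_d46_d42_d5c_d43_d31472f g_wQ_26_wN_1_rb8033094a_d43_d46_d42_d5c_d43_d31472e g_wQ_26_wN_1_rb8033094a_d43_d46_d42_d5c_d43_d31472d g_wQ_26_wN_1_rb8033094a_d43_d46_d42_d5c_d43_d31472c g_wQ_26_wN_1_rb8033094a_d43_d46_d42_d5c_d43_d31472a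 g__wQ_26_wN_1_rb8033094a_d43_d46_d42_d5c_d43_d3147_0 g_wQ_26_wN_1_rb8033094a_d43_d46_d42_d5c_d43_d314728 g_wQ_26_wN_1_rb8033094a_d43_d46_d42_d5c_d43_d314726 g_wQ_26_wN_1_rb8033094a_d43_d46_d42_d5c_d43_d314725 g_wQ_26_wN_1_rb8033094a_d43_d46_d42_d5c_d43_d314724 g_wQ_26_wN_1_rb8033094a_d43_d46_d42_d5c_d43_d31471f g_wQ_26_wN_1_rb8033094a_d43_d46_d42_d5c_d43_d31471e g_wQ_26_wN_1_rb8033094a_d43_d46_d42_d5c_d43_d31471d g_wQ_26_wN_1_rb8033094a_d43_d46_d42_d5c_d43_d31471c g_wQ_26_wN_1_rb8033094a_d43_d46_d42_d5c_d43_d31471a g_wQ_26_wN_1_rb8033094a_d43_d46_d42_d5c_d43_d314719 g_wQ_26_wN_1_rb8033094a_d43_d46_d42_d5c_d43_d314718 g__wQ_26_wN_1_rb8033094a_d43_d46_d42_d5c_d43_d3147_7 g__wQ_26_wN_1_rb8033094a_d43_d46_d42_d5c_d43_d3147_10 g__wQ_26_wN_1_rb8033094a_d43_d46_d42_d5c_d43_d3147_15 g_wQ_26_wN_1_rb8033094a_d43_d46_d42_d5c_d43_d314716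 g_wQ_26_wN_1_rb8033094a_d43_d46_d42_d5c_d43_d314717 g_wQ_26_wN_1_rb8033094a_d43_d46_d42_d5c_d43_d31471b g_wQ_26_wN_1_rb8033094a_d43_d46_d42_d5c_d43_d314720 g_wQ_26_wN_1_rb8033094a_d43_d46_d42_d5c_d43_d314721 g_wQ_26_wN_1_rb8033094a_d43_d46_d42_d5c_d43_d314722 g_wQ_26_wN_1_rb8033094a_d43_d46_d42_d5c_d43_d314723 g_wQ_26_wN_1_rb8033094a_d43_d46_d42_d5c_d43_d314727 g_wQ_26_wN_1_rb8033094a_d43_d46_d42_d5c_d43_d314729 g_wQ_26_wN_1_rb8033094a_d43_d46_d42_d5c_d43_d31472b g_wQ_26_wN_1_rb8033094a_d43_d46_d42_d5c_d43_d314732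

theorem g_wQ_26_wN_1_rb8033094a_d43_d46_d42_d5c_d43_d3146 : GoodKC AS c_wQ_26_wN_1_rb8033094a_d43_d46_d42_d5c_d43_d3146 := p_wQ_26_wN_1_rb8033094a_d43_d46_d42_d5c_d43_d3146

theorem g_wQ_26_wN_1_rb8033094a_d43_d46_d42_d5c_d43_d3145 : GoodKC AS c_wQ_26_wN_1_rb8033094a_d43_d46_d42_d5c_d43_d3145 := p_wQ_26_wN_1_rb8033094a_d43_d46_d42_d5c_d43_d3145

theorem g_wQ_26_wN_1_rb8033094a_d43_d46_d42_d5c_d43_d3142 : GoodKC AS c_wQ_26_wN_1_rb8033094a_d43_d46_d42_d5c_d43_d3142 := p_wQ_26_wN_1_rb8033094a_d43_d46_d42_d5c_d43_d3142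

theorem g_wQ_26_wN_1_rb8033094a_d43_d46_d42_d5c_d43_d313a : GoodKC AS c_wQ_26_wN_1_rb8033094a_d43_d46_d42_d5c_d43_d313a := p_wQ_26_wN_1_rb8033094a_d43_d46_d42_d5c_d43_d313a

theorem g__wQ_26_wN_1_rb8033094a_d43_d46_d42_d5c_d43_d3139_0 : GoodKC AS k_wQ_26_wN_1_rb8033094a_d43_d46_d42_d5c_d43_d3139_0 := p_wQ_26_wN_1_rb8033094a_d43_d46_d42_d5c_d43_d3139_0

theorem g_wQ_26_wN_1_rb8033094a_d43_d46_d42_d5c_d43_d3139 : GoodKC AS c_wQ_26_wN_1_rb8033094a_d43_d46_d42_d5c_d43_d3139 := p_wQ_26_wN_1_rb8033094a_d43_d46_d42_d5c_d43_d3139 g__wQ_26_wN_1_rb8033094a_d43_d46_d42_d5c_d43_d3139_0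

theorem g_wQ_26_wN_1_rb8033094a_d43_d46_d42_d5c_d43_d3138 : GoodKC AS c_wQ_26_wN_1_rb8033094a_d43_d46_d42_d5c_d43_d3138 := p_wQ_26_wN_1_rb8033094a_d43_d46_d42_d5c_d43_d3138

theorem g_wQ_26_wN_1_rb8033094a_d43_d46_d42_d5c_d43_d3137 : GoodKC AS c_wQ_26_wN_1_rb8033094a_d43_d46_d42_d5c_d43_d3137 := p_wQ_26_wN_1_rb8033094a_d43_d46_d42_d5c_d43_d3137

theorem g_wQ_26_wN_1_rb8033094a_d43_d46_d42_d5c_d43_d3136 : GoodKC AS c_wQ_26_wN_1_rb8033094a_d43_d46_d42_d5c_d43_d3136 := p_wQ_26_wN_1_rb8033094a_d43_d46_d42_d5c_d43_d3136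

theorem g_wQ_26_wN_1_rb8033094a_d43_d46_d42_d5c_d43_d3134 : GoodKC AS c_wQ_26_wN_1_rb8033094a_d43_d46_d42_d5c_d43_d3134 := p_wQ_26_wN_1_rb8033094a_d43_d46_d42_d5c_d43_d3134

theorem g__wQ_26_wN_1_rb8033094a_d43_d46_d42_d5c_d43_d31_2 : GoodKC AS k_wQ_26_wN_1_rb8033094a_d43_d46_d42_d5c_d43_d31_2 := p_wQ_26_wN_1_rb8033094a_d43_d46_d42_d5c_d43_d31_2

theorem g__wQ_26_wN_1_rb8033094a_d43_d46_d42_d5c_d43_d31_11 : GoodKC AS k_wQ_26_wN_1_rb8033094a_d43_d46_d42_d5c_d43_d31_11 := p_wQ_26_wN_1_rb8033094a_d43_d46_d42_d5c_d43_d31_11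

theorem g__wQ_26_wN_1_rb8033094a_d43_d46_d42_d5c_d43_d31_12 : GoodKC AS k_wQ_26_wN_1_rb8033094a_d43_d46_d42_d5c_d43_d31_12 := p_wQ_26_wN_1_rb8033094a_d43_d46_d42_d5c_d43_d31_12

theorem g__wQ_26_wN_1_rb8033094a_d43_d46_d42_d5c_d43_d31_10 : GoodKC AS k_wQ_26_wN_1_rb8033094a_d43_d46_d42_d5c_d43_d31_10 := p_wQ_26_wN_1_rb8033094a_d43_d46_d42_d5c_d43_d31_10 g__wQ_26_wN_1_rb8033094a_d43_d46_d42_d5c_d43_d31_11 g__wQ_26_wN_1_rb8033094a_d43_d46_d42_d5c_d43_d31_12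

theorem g__wQ_26_wN_1_rb8033094a_d43_d46_d42_d5c_d43_d31_9 : GoodKC AS k_wQ_26_wN_1_rb8033094a_d43_d46_d42_d5c_d43_d31_9 := p_wQ_26_wN_1_rb8033094a_d43_d46_d42_d5c_d43_d31_9 g__wQ_26_wN_1_rb8033094a_d43_d46_d42_d5c_d43_d31_10

theorem g__wQ_26_wN_1_rb8033094a_d43_d46_d42_d5c_d43_d31_8 : GoodKC AS k_wQ_26_wN_1_rb8033094a_d43_d46_d42_d5c_d43_d31_8 := p_wQ_26_wN_1_rb8033094a_d43_d46_d42_d5c_d43_d31_8 g__wQ_26_wN_1_rb8033094a_d43_d46_d42_d5c_d43_d31_9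

theorem g__wQ_26_wN_1_rb8033094a_d43_d46_d42_d5c_d43_d31_7 : GoodKC AS k_wQ_26_wN_1_rb8033094a_d43_d46_d42_d5c_d43_d31_7 := p_wQ_26_wN_1_rb8033094a_d43_d46_d42_d5c_d43_d31_7 g__wQ_26_wN_1_rb8033094a_d43_d46_d42_d5c_d43_d31_8

theorem g__wQ_26_wN_1_rb8033094a_d43_d46_d42_d5c_d43_d31_6 : GoodKC AS k_wQ_26_wN_1_rb8033094a_d43_d46_d42_d5c_d43_d31_6 := p_wQ_26_wN_1_rb8033094a_d43_d46_d42_d5c_d43_d31_6 g__wQ_26_wN_1_rb8033094a_d43_d46_d42_d5c_d43_d31_7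

theorem g__wQ_26_wN_1_rb8033094a_d43_d46_d42_d5c_d43_d31_5 : GoodKC AS k_wQ_26_wN_1_rb8033094a_d43_d46_d42_d5c_d43_d31_5 := p_wQ_26_wN_1_rb8033094a_d43_d46_d42_d5c_d43_d31_5 g__wQ_26_wN_1_rb8033094a_d43_d46_d42_d5c_d43_d31_6

theorem g__wQ_26_wN_1_rb8033094a_d43_d46_d42_d5c_d43_d31_4 : GoodKC AS k_wQ_26_wN_1_rb8033094a_d43_d46_d42_d5c_d43_d31_4 := p_wQ_26_wN_1_rb8033094a_d43_d46_d42_d5c_d43_d31_4 g__wQ_26_wN_1_rb8033094a_d43_d46_d42_d5c_d43_d31_5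

theorem g__wQ_26_wN_1_rb8033094a_d43_d46_d42_d5c_d43_d31_3 : GoodKC AS k_wQ_26_wN_1_rb8033094a_d43_d46_d42_d5c_d43_d31_3 := p_wQ_26_wN_1_rb8033094a_d43_d46_d42_d5c_d43_d31_3 g__wQ_26_wN_1_rb8033094a_d43_d46_d42_d5c_d43_d31_4

theorem g__wQ_26_wN_1_rb8033094a_d43_d46_d42_d5c_d43_d31_1 : GoodKC AS k_wQ_26_wN_1_rb8033094a_d43_d46_d42_d5c_d43_d31_1 := p_wQ_26_wN_1_rb8033094a_d43_d46_d42_d5c_d43_d31_1 g__wQ_26_wN_1_rb8033094a_d43_d46_d42_d5c_d43_d31_2 g__wQ_26_wN_1_rb8033094a_d43_d46_d42_d5c_d43_d31_3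

theorem g_wQ_26_wN_1_rb8033094a_d43_d46_d42_d5c_d43_d3131 : GoodKC AS c_wQ_26_wN_1_rb8033094a_d43_d46_d42_d5c_d43_d3131 := p_wQ_26_wN_1_rb8033094a_d43_d46_d42_d5c_d43_d3131

theorem g_wQ_26_wN_1_rb8033094a_d43_d46_d42_d5c_d43_d3130 : GoodKC AS c_wQ_26_wN_1_rb8033094a_d43_d46_d42_d5c_d43_d3130 := p_wQ_26_wN_1_rb8033094a_d43_d46_d42_d5c_d43_d3130

theorem g_wQ_26_wN_1_rb8033094a_d43_d46_d42_d5c_d43_d312c : GoodKC AS c_wQ_26_wN_1_rb8033094a_d43_d46_d42_d5c_d43_d312c := p_wQ_26_wN_1_rb8033094a_d43_d46_d42_d5c_d43_d312c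

theorem g_wQ_26_wN_1_rb8033094a_d43_d46_d42_d5c_d43_d312b : GoodKC AS c_wQ_26_wN_1_rb8033094a_d43_d46_d42_d5c_d43_d312b := p_wQ_26_wN_1_rb8033094a_d43_d46_d42_d5c_d43_d312b

theorem g_wQ_26_wN_1_rb8033094a_d43_d46_d42_d5c_d43_d3126 : GoodKC AS c_wQ_26_wN_1_rb8033094a_d43_d46_d42_d5c_d43_d3126 := p_wQ_26_wN_1_rb8033094a_d43_d46_d42_d5c_d43_d3126

theorem g_wQ_26_wN_1_rb8033094a_d43_d46_d42_d5c_d43_d3125 : GoodKC AS c_wQ_26_wN_1_rb8033094a_d43_d46_d42_d5c_d43_d3125 := p_wQ_26_wN_1_rb8033094a_d43_d46_d42_d5c_d43_d3125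

theorem g_wQ_26_wN_1_rb8033094a_d43_d46_d42_d5c_d43_d3124 : GoodKC AS c_wQ_26_wN_1_rb8033094a_d43_d46_d42_d5c_d43_d3124 := p_wQ_26_wN_1_rb8033094a_d43_d46_d42_d5c_d43_d3124

theorem g_wQ_26_wN_1_rb8033094a_d43_d46_d42_d5c_d43_d3123 : GoodKC AS c_wQ_26_wN_1_rb8033094a_d43_d46_d42_d5c_d43_d3123 := p_wQ_26_wN_1_rb8033094a_d43_d46_d42_d5c_d43_d3123

theorem g_wQ_26_wN_1_rb8033094a_d43_d46_d42_d5c_d43_d3120 : GoodKC AS c_wQ_26_wN_1_rb8033094a_d43_d46_d42_d5c_d43_d3120 := p_wQ_26_wN_1_rb8033094a_d43_d46_d42_d5c_d43_d3120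

theorem g_wQ_26_wN_1_rb8033094a_d43_d46_d42_d5c_d43_d311e : GoodKC AS c_wQ_26_wN_1_rb8033094a_d43_d46_d42_d5c_d43_d311e := p_wQ_26_wN_1_rb8033094a_d43_d46_d42_d5c_d43_d311e

theorem g_wQ_26_wN_1_rb8033094a_d43_d46_d42_d5c_d43_d311d : GoodKC AS c_wQ_26_wN_1_rb8033094a_d43_d46_d42_d5c_d43_d311d := p_wQ_26_wN_1_rb8033094a_d43_d46_d42_d5c_d43_d311d

theorem g_wQ_26_wN_1_rb8033094a_d43_d46_d42_d5c_d43_d311b : GoodKC AS c_wQ_26_wN_1_rb8033094a_d43_d46_d42_d5c_d43_d311b := p_wQ_26_wN_1_rb8033094a_d43_d46_d42_d5c_d43_d311b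

theorem g_wQ_26_wN_1_rb8033094a_d43_d46_d42_d5c_d43_d3117 : GoodKC AS c_wQ_26_wN_1_rb8033094a_d43_d46_d42_d5c_d43_d3117 := p_wQ_26_wN_1_rb8033094a_d43_d46_d42_d5c_d43_d3117

theorem g_wQ_26_wN_1_rb8033094a_d43_d46_d42_d5c_d43_d3114 : GoodKC AS c_wQ_26_wN_1_rb8033094a_d43_d46_d42_d5c_d43_d3114 := p_wQ_26_wN_1_rb8033094a_d43_d46_d42_d5c_d43_d3114

theorem g_wQ_26_wN_1_rb8033094a_d43_d46_d42_d5c_d43_d310f : GoodKC AS c_wQ_26_wN_1_rb8033094a_d43_d46_d42_d5c_d43_d310f := p_wQ_26_wN_1_rb8033094a_d43_d46_d42_d5c_d43_d310f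

theorem g_wQ_26_wN_1_rb8033094a_d43_d46_d42_d5c_d43_d310e : GoodKC AS c_wQ_26_wN_1_rb8033094a_d43_d46_d42_d5c_d43_d310e := p_wQ_26_wN_1_rb8033094a_d43_d46_d42_d5c_d43_d310e

theorem g_wQ_26_wN_1_rb8033094a_d43_d46_d42_d5c_d43_d310c : GoodKC AS c_wQ_26_wN_1_rb8033094a_d43_d46_d42_d5c_d43_d310c := p_wQ_26_wN_1_rb8033094a_d43_d46_d42_d5c_d43_d310c

theorem g_wQ_26_wN_1_rb8033094a_d43_d46_d42_d5c_d43_d310b : GoodKC AS c_wQ_26_wN_1_rb8033094a_d43_d46_d42_d5c_d43_d310b := p_wQ_26_wN_1_rb8033094a_d43_d46_d42_d5c_d43_d310b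

theorem g_wQ_26_wN_1_rb8033094a_d43_d46_d42_d5c_d43_d310a : GoodKC AS c_wQ_26_wN_1_rb8033094a_d43_d46_d42_d5c_d43_d310a := p_wQ_26_wN_1_rb8033094a_d43_d46_d42_d5c_d43_d310a

theorem g_wQ_26_wN_1_rb8033094a_d43_d46_d42_d5c_d43_d3109 : GoodKC AS c_wQ_26_wN_1_rb8033094a_d43_d46_d42_d5c_d43_d3109 := p_wQ_26_wN_1_rb8033094a_d43_d46_d42_d5c_d43_d3109

theorem g_wQ_26_wN_1_rb8033094a_d43_d46_d42_d5c_d43_d3106 : GoodKC AS c_wQ_26_wN_1_rb8033094a_d43_d46_d42_d5c_d43_d3106 := p_wQ_26_wN_1_rb8033094a_d43_d46_d42_d5c_d43_d3106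

theorem g_wQ_26_wN_1_rb8033094a_d43_d46_d42_d5c_d43_d3105 : GoodKC AS c_wQ_26_wN_1_rb8033094a_d43_d46_d42_d5c_d43_d3105 := p_wQ_26_wN_1_rb8033094a_d43_d46_d42_d5c_d43_d3105

theorem g__wQ_26_wN_1_rb8033094a_d43_d46_d42_d5c_d43_d3104_2 : GoodKC AS k_wQ_26_wN_1_rb8033094a_d43_d46_d42_d5c_d43_d3104_2 := p_wQ_26_wN_1_rb8033094a_d43_d46_d42_d5c_d43_d3104_2

theorem g__wQ_26_wN_1_rb8033094a_d43_d46_d42_d5c_d43_d3104_1 : GoodKC AS k_wQ_26_wN_1_rb8033094a_d43_d46_d42_d5c_d43_d3104_1 := p_wQ_26_wN_1_rb8033094a_d43_d46_d42_d5c_d43_d3104_1 g__wQ_26_wN_1_rb8033094a_d43_d46_d42_d5c_d43_d3104_2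

theorem g__wQ_26_wN_1_rb8033094a_d43_d46_d42_d5c_d43_d3104_4 : GoodKC AS k_wQ_26_wN_1_rb8033094a_d43_d46_d42_d5c_d43_d3104_4 := p_wQ_26_wN_1_rb8033094a_d43_d46_d42_d5c_d43_d3104_4

theorem g__wQ_26_wN_1_rb8033094a_d43_d46_d42_d5c_d43_d3104_3 : GoodKC AS k_wQ_26_wN_1_rb8033094a_d43_d46_d42_d5c_d43_d3104_3 := p_wQ_26_wN_1_rb8033094a_d43_d46_d42_d5c_d43_d3104_3 g__wQ_26_wN_1_rb8033094a_d43_d46_d42_d5c_d43_d3104_4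

theorem g__wQ_26_wN_1_rb8033094a_d43_d46_d42_d5c_d43_d3104_6 : GoodKC AS k_wQ_26_wN_1_rb8033094a_d43_d46_d42_d5c_d43_d3104_6 := p_wQ_26_wN_1_rb8033094a_d43_d46_d42_d5c_d43_d3104_6

theorem g__wQ_26_wN_1_rb8033094a_d43_d46_d42_d5c_d43_d3104_5 : GoodKC AS k_wQ_26_wN_1_rb8033094a_d43_d46_d42_d5c_d43_d3104_5 := p_wQ_26_wN_1_rb8033094a_d43_d46_d42_d5c_d43_d3104_5 g__wQ_26_wN_1_rb8033094a_d43_d46_d42_d5c_d43_d3104_6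

theorem g__wQ_26_wN_1_rb8033094a_d43_d46_d42_d5c_d43_d3104_0 : GoodKC AS k_wQ_26_wN_1_rb8033094a_d43_d46_d42_d5c_d43_d3104_0 := p_wQ_26_wN_1_rb8033094a_d43_d46_d42_d5c_d43_d3104_0 g__wQ_26_wN_1_rb8033094a_d43_d46_d42_d5c_d43_d3104_1 g__wQ_26_wN_1_rb8033094a_d43_d46_d42_d5c_d43_d3104_3 g__wQ_26_wN_1_rb8033094a_d43_d46_d42_d5c_d43_d3104_5

theorem g_wQ_26_wN_1_rb8033094a_d43_d46_d42_d5c_d43_d3104 : GoodKC AS c_wQ_26_wN_1_rb8033094a_d43_d46_d42_d5c_d43_d3104 := p_wQ_26_wN_1_rb8033094a_d43_d46_d42_d5c_d43_d3104 g__wQ_26_wN_1_rb8033094a_d43_d46_d42_d5c_d43_d3104_0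

theorem g_wQ_26_wN_1_rb8033094a_d43_d46_d42_d5c_d43_d3103 : GoodKC AS c_wQ_26_wN_1_rb8033094a_d43_d46_d42_d5c_d43_d3103 := p_wQ_26_wN_1_rb8033094a_d43_d46_d42_d5c_d43_d3103

theorem g_wQ_26_wN_1_rb8033094a_d43_d46_d42_d5c_d43_d3102 : GoodKC AS c_wQ_26_wN_1_rb8033094a_d43_d46_d42_d5c_d43_d3102 := p_wQ_26_wN_1_rb8033094a_d43_d46_d42_d5c_d43_d3102

theorem g__wQ_26_wN_1_rb8033094a_d43_d46_d42_d5c_d43_d3100_2 : GoodKC AS k_wQ_26_wN_1_rb8033094a_d43_d46_d42_d5c_d43_d3100_2 := p_wQ_26_wN_1_rb8033094a_d43_d46_d42_d5c_d43_d3100_2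

theorem g__wQ_26_wN_1_rb8033094a_d43_d46_d42_d5c_d43_d3100_3 : GoodKC AS k_wQ_26_wN_1_rb8033094a_d43_d46_d42_d5c_d43_d3100_3 := p_wQ_26_wN_1_rb8033094a_d43_d46_d42_d5c_d43_d3100_3

theorem g__wQ_26_wN_1_rb8033094a_d43_d46_d42_d5c_d43_d3100_1 : GoodKC AS k_wQ_26_wN_1_rb8033094a_d43_d46_d42_d5c_d43_d3100_1 := p_wQ_26_wN_1_rb8033094a_d43_d46_d42_d5c_d43_d3100_1 g__wQ_26_wN_1_rb8033094a_d43_d46_d42_d5c_d43_d3100_2 g__wQ_26_wN_1_rb8033094a_d43_d46_d42_d5c_d43_d3100_3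

theorem g__wQ_26_wN_1_rb8033094a_d43_d46_d42_d5c_d43_d3100_0 : GoodKC AS k_wQ_26_wN_1_rb8033094a_d43_d46_d42_d5c_d43_d3100_0 := p_wQ_26_wN_1_rb8033094a_d43_d46_d42_d5c_d43_d3100_0 g__wQ_26_wN_1_rb8033094a_d43_d46_d42_d5c_d43_d3100_1

theorem g_wQ_26_wN_1_rb8033094a_d43_d46_d42_d5c_d43_d3100 : GoodKC AS c_wQ_26_wN_1_rb8033094a_d43_d46_d42_d5c_d43_d3100 := p_wQ_26_wN_1_rb8033094a_d43_d46_d42_d5c_d43_d3100 g__wQ_26_wN_1_rb8033094a_d43_d46_d42_d5c_d43_d3100_0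

theorem g_wQ_26_wN_1_rb8033094a_d43_d46_d42_d5c_d43_d3101 : GoodKC AS c_wQ_26_wN_1_rb8033094a_d43_d46_d42_d5c_d43_d3101 := p_wQ_26_wN_1_rb8033094a_d43_d46_d42_d5c_d43_d3101

theorem g_wQ_26_wN_1_rb8033094a_d43_d46_d42_d5c_d43_d3107 : GoodKC AS c_wQ_26_wN_1_rb8033094a_d43_d46_d42_d5c_d43_d3107 := p_wQ_26_wN_1_rb8033094a_d43_d46_d42_d5c_d43_d3107

theorem g_wQ_26_wN_1_rb8033094a_d43_d46_d42_d5c_d43_d3108 : GoodKC AS c_wQ_26_wN_1_rb8033094a_d43_d46_d42_d5c_d43_d3108 := p_wQ_26_wN_1_rb8033094a_d43_d46_d42_d5c_d43_d3108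

theorem g_wQ_26_wN_1_rb8033094a_d43_d46_d42_d5c_d43_d310d : GoodKC AS c_wQ_26_wN_1_rb8033094a_d43_d46_d42_d5c_d43_d310d := p_wQ_26_wN_1_rb8033094a_d43_d46_d42_d5c_d43_d310d

theorem g_wQ_26_wN_1_rb8033094a_d43_d46_d42_d5c_d43_d3110 : GoodKC AS c_wQ_26_wN_1_rb8033094a_d43_d46_d42_d5c_d43_d3110 := p_wQ_26_wN_1_rb8033094a_d43_d46_d42_d5c_d43_d3110

theorem g_wQ_26_wN_1_rb8033094a_d43_d46_d42_d5c_d43_d3111 : GoodKC AS c_wQ_26_wN_1_rb8033094a_d43_d46_d42_d5c_d43_d3111 := p_wQ_26_wN_1_rb8033094a_d43_d46_d42_d5c_d43_d3111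

theorem g_wQ_26_wN_1_rb8033094a_d43_d46_d42_d5c_d43_d3112 : GoodKC AS c_wQ_26_wN_1_rb8033094a_d43_d46_d42_d5c_d43_d3112 := p_wQ_26_wN_1_rb8033094a_d43_d46_d42_d5c_d43_d3112

theorem g_wQ_26_wN_1_rb8033094a_d43_d46_d42_d5c_d43_d3113 : GoodKC AS c_wQ_26_wN_1_rb8033094a_d43_d46_d42_d5c_d43_d3113 := p_wQ_26_wN_1_rb8033094a_d43_d46_d42_d5c_d43_d3113

theorem g_wQ_26_wN_1_rb8033094a_d43_d46_d42_d5c_d43_d3115 : GoodKC AS c_wQ_26_wN_1_rb8033094a_d43_d46_d42_d5c_d43_d3115 := p_wQ_26_wN_1_rb8033094a_d43_d46_d42_d5c_d43_d3115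

theorem g_wQ_26_wN_1_rb8033094a_d43_d46_d42_d5c_d43_d3116 : GoodKC AS c_wQ_26_wN_1_rb8033094a_d43_d46_d42_d5c_d43_d3116 := p_wQ_26_wN_1_rb8033094a_d43_d46_d42_d5c_d43_d3116

theorem g_wQ_26_wN_1_rb8033094a_d43_d46_d42_d5c_d43_d3118 : GoodKC AS c_wQ_26_wN_1_rb8033094a_d43_d46_d42_d5c_d43_d3118 := p_wQ_26_wN_1_rb8033094a_d43_d46_d42_d5c_d43_d3118

theorem g_wQ_26_wN_1_rb8033094a_d43_d46_d42_d5c_d43_d3119 : GoodKC AS c_wQ_26_wN_1_rb8033094a_d43_d46_d42_d5c_d43_d3119 := p_wQ_26_wN_1_rb8033094a_d43_d46_d42_d5c_d43_d3119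

theorem g_wQ_26_wN_1_rb8033094a_d43_d46_d42_d5c_d43_d311a : GoodKC AS c_wQ_26_wN_1_rb8033094a_d43_d46_d42_d5c_d43_d311a := p_wQ_26_wN_1_rb8033094a_d43_d46_d42_d5c_d43_d311a

theorem g_wQ_26_wN_1_rb8033094a_d43_d46_d42_d5c_d43_d311c : GoodKC AS c_wQ_26_wN_1_rb8033094a_d43_d46_d42_d5c_d43_d311c := p_wQ_26_wN_1_rb8033094a_d43_d46_d42_d5c_d43_d311c

theorem g_wQ_26_wN_1_rb8033094a_d43_d46_d42_d5c_d43_d311f : GoodKC AS c_wQ_26_wN_1_rb8033094a_d43_d46_d42_d5c_d43_d311f := p_wQ_26_wN_1_rb8033094a_d43_d46_d42_d5c_d43_d311f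

theorem g_wQ_26_wN_1_rb8033094a_d43_d46_d42_d5c_d43_d3121 : GoodKC AS c_wQ_26_wN_1_rb8033094a_d43_d46_d42_d5c_d43_d3121 := p_wQ_26_wN_1_rb8033094a_d43_d46_d42_d5c_d43_d3121

theorem g_wQ_26_wN_1_rb8033094a_d43_d46_d42_d5c_d43_d3122 : GoodKC AS c_wQ_26_wN_1_rb8033094a_d43_d46_d42_d5c_d43_d3122 := p_wQ_26_wN_1_rb8033094a_d43_d46_d42_d5c_d43_d3122

theorem g_wQ_26_wN_1_rb8033094a_d43_d46_d42_d5c_d43_d3127 : GoodKC AS c_wQ_26_wN_1_rb8033094a_d43_d46_d42_d5c_d43_d3127 := p_wQ_26_wN_1_rb8033094a_d43_d46_d42_d5c_d43_d3127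

theorem g_wQ_26_wN_1_rb8033094a_d43_d46_d42_d5c_d43_d3128 : GoodKC AS c_wQ_26_wN_1_rb8033094a_d43_d46_d42_d5c_d43_d3128 := p_wQ_26_wN_1_rb8033094a_d43_d46_d42_d5c_d43_d3128

theorem g_wQ_26_wN_1_rb8033094a_d43_d46_d42_d5c_d43_d3129 : GoodKC AS c_wQ_26_wN_1_rb8033094a_d43_d46_d42_d5c_d43_d3129 := p_wQ_26_wN_1_rb8033094a_d43_d46_d42_d5c_d43_d3129

theorem g_wQ_26_wN_1_rb8033094a_d43_d46_d42_d5c_d43_d312a : GoodKC AS c_wQ_26_wN_1_rb8033094a_d43_d46_d42_d5c_d43_d312a := p_wQ_26_wN_1_rb8033094a_d43_d46_d42_d5c_d43_d312a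

theorem g_wQ_26_wN_1_rb8033094a_d43_d46_d42_d5c_d43_d312d : GoodKC AS c_wQ_26_wN_1_rb8033094a_d43_d46_d42_d5c_d43_d312d := p_wQ_26_wN_1_rb8033094a_d43_d46_d42_d5c_d43_d312d

theorem g_wQ_26_wN_1_rb8033094a_d43_d46_d42_d5c_d43_d312e : GoodKC AS c_wQ_26_wN_1_rb8033094a_d43_d46_d42_d5c_d43_d312e := p_wQ_26_wN_1_rb8033094a_d43_d46_d42_d5c_d43_d312e

theorem g_wQ_26_wN_1_rb8033094a_d43_d46_d42_d5c_d43_d312f : GoodKC AS c_wQ_26_wN_1_rb8033094a_d43_d46_d42_d5c_d43_d312f := p_wQ_26_wN_1_rb8033094a_d43_d46_d42_d5c_d43_d312f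

theorem g_wQ_26_wN_1_rb8033094a_d43_d46_d42_d5c_d43_d3132 : GoodKC AS c_wQ_26_wN_1_rb8033094a_d43_d46_d42_d5c_d43_d3132 := p_wQ_26_wN_1_rb8033094a_d43_d46_d42_d5c_d43_d3132

theorem g_wQ_26_wN_1_rb8033094a_d43_d46_d42_d5c_d43_d3133 : GoodKC AS c_wQ_26_wN_1_rb8033094a_d43_d46_d42_d5c_d43_d3133 := p_wQ_26_wN_1_rb8033094a_d43_d46_d42_d5c_d43_d3133

theorem g_wQ_26_wN_1_rb8033094a_d43_d46_d42_d5c_d43_d3135 : GoodKC AS c_wQ_26_wN_1_rb8033094a_d43_d46_d42_d5c_d43_d3135 := p_wQ_26_wN_1_rb8033094a_d43_d46_d42_d5c_d43_d3135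

theorem g_wQ_26_wN_1_rb8033094a_d43_d46_d42_d5c_d43_d313b : GoodKC AS c_wQ_26_wN_1_rb8033094a_d43_d46_d42_d5c_d43_d313b := p_wQ_26_wN_1_rb8033094a_d43_d46_d42_d5c_d43_d313b

theorem g_wQ_26_wN_1_rb8033094a_d43_d46_d42_d5c_d43_d313c : GoodKC AS c_wQ_26_wN_1_rb8033094a_d43_d46_d42_d5c_d43_d313c := p_wQ_26_wN_1_rb8033094a_d43_d46_d42_d5c_d43_d313c

theorem g__wQ_26_wN_1_rb8033094a_d43_d46_d42_d5c_d43_d313d_2 : GoodKC AS k_wQ_26_wN_1_rb8033094a_d43_d46_d42_d5c_d43_d313d_2 := p_wQ_26_wN_1_rb8033094a_d43_d46_d42_d5c_d43_d313d_2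

theorem g__wQ_26_wN_1_rb8033094a_d43_d46_d42_d5c_d43_d313d_3 : GoodKC AS k_wQ_26_wN_1_rb8033094a_d43_d46_d42_d5c_d43_d313d_3 := p_wQ_26_wN_1_rb8033094a_d43_d46_d42_d5c_d43_d313d_3

theorem g__wQ_26_wN_1_rb8033094a_d43_d46_d42_d5c_d43_d313d_1 : GoodKC AS k_wQ_26_wN_1_rb8033094a_d43_d46_d42_d5c_d43_d313d_1 := p_wQ_26_wN_1_rb8033094a_d43_d46_d42_d5c_d43_d313d_1 g__wQ_26_wN_1_rb8033094a_d43_d46_d42_d5c_d43_d313d_2 g__wQ_26_wN_1_rb8033094a_d43_d46_d42_d5c_d43_d313d_3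

theorem g__wQ_26_wN_1_rb8033094a_d43_d46_d42_d5c_d43_d313d_0 : GoodKC AS k_wQ_26_wN_1_rb8033094a_d43_d46_d42_d5c_d43_d313d_0 := p_wQ_26_wN_1_rb8033094a_d43_d46_d42_d5c_d43_d313d_0 g__wQ_26_wN_1_rb8033094a_d43_d46_d42_d5c_d43_d313d_1

theorem g__wQ_26_wN_1_rb8033094a_d43_d46_d42_d5c_d43_d313d_7 : GoodKC AS k_wQ_26_wN_1_rb8033094a_d43_d46_d42_d5c_d43_d313d_7 := p_wQ_26_wN_1_rb8033094a_d43_d46_d42_d5c_d43_d313d_7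

theorem g__wQ_26_wN_1_rb8033094a_d43_d46_d42_d5c_d43_d313d_10 : GoodKC AS k_wQ_26_wN_1_rb8033094a_d43_d46_d42_d5c_d43_d313d_10 := p_wQ_26_wN_1_rb8033094a_d43_d46_d42_d5c_d43_d313d_10

theorem g__wQ_26_wN_1_rb8033094a_d43_d46_d42_d5c_d43_d313d_9 : GoodKC AS k_wQ_26_wN_1_rb8033094a_d43_d46_d42_d5c_d43_d313d_9 := p_wQ_26_wN_1_rb8033094a_d43_d46_d42_d5c_d43_d313d_9 g__wQ_26_wN_1_rb8033094a_d43_d46_d42_d5c_d43_d313d_10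

theorem g__wQ_26_wN_1_rb8033094a_d43_d46_d42_d5c_d43_d313d_8 : GoodKC AS k_wQ_26_wN_1_rb8033094a_d43_d46_d42_d5c_d43_d313d_8 := p_wQ_26_wN_1_rb8033094a_d43_d46_d42_d5c_d43_d313d_8 g__wQ_26_wN_1_rb8033094a_d43_d46_d42_d5c_d43_d313d_9

theorem g__wQ_26_wN_1_rb8033094a_d43_d46_d42_d5c_d43_d313d_6 : GoodKC AS k_wQ_26_wN_1_rb8033094a_d43_d46_d42_d5c_d43_d313d_6 := p_wQ_26_wN_1_rb8033094a_d43_d46_d42_d5c_d43_d313d_6 g__wQ_26_wN_1_rb8033094a_d43_d46_d42_d5c_d43_d313d_7 g__wQ_26_wN_1_rb8033094a_d43_d46_d42_d5c_d43_d313d_8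

theorem g__wQ_26_wN_1_rb8033094a_d43_d46_d42_d5c_d43_d313d_5 : GoodKC AS k_wQ_26_wN_1_rb8033094a_d43_d46_d42_d5c_d43_d313d_5 := p_wQ_26_wN_1_rb8033094a_d43_d46_d42_d5c_d43_d313d_5 g__wQ_26_wN_1_rb8033094a_d43_d46_d42_d5c_d43_d313d_6

theorem g__wQ_26_wN_1_rb8033094a_d43_d46_d42_d5c_d43_d313d_4 : GoodKC AS k_wQ_26_wN_1_rb8033094a_d43_d46_d42_d5c_d43_d313d_4 := p_wQ_26_wN_1_rb8033094a_d43_d46_d42_d5c_d43_d313d_4 g__wQ_26_wN_1_rb8033094a_d43_d46_d42_d5c_d43_d313d_5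

theorem g_wQ_26_wN_1_rb8033094a_d43_d46_d42_d5c_d43_d313d : GoodKC AS c_wQ_26_wN_1_rb8033094a_d43_d46_d42_d5c_d43_d313d := p_wQ_26_wN_1_rb8033094a_d43_d46_d42_d5c_d43_d313d g__wQ_26_wN_1_rb8033094a_d43_d46_d42_d5c_d43_d313d_0 g__wQ_26_wN_1_rb8033094a_d43_d46_d42_d5c_d43_d313d_4

theorem g_wQ_26_wN_1_rb8033094a_d43_d46_d42_d5c_d43_d313e : GoodKC AS c_wQ_26_wN_1_rb8033094a_d43_d46_d42_d5c_d43_d313e := p_wQ_26_wN_1_rb8033094a_d43_d46_d42_d5c_d43_d313e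

theorem g_wQ_26_wN_1_rb8033094a_d43_d46_d42_d5c_d43_d313f : GoodKC AS c_wQ_26_wN_1_rb8033094a_d43_d46_d42_d5c_d43_d313f := p_wQ_26_wN_1_rb8033094a_d43_d46_d42_d5c_d43_d313f

theorem g_wQ_26_wN_1_rb8033094a_d43_d46_d42_d5c_d43_d3140 : GoodKC AS c_wQ_26_wN_1_rb8033094a_d43_d46_d42_d5c_d43_d3140 := p_wQ_26_wN_1_rb8033094a_d43_d46_d42_d5c_d43_d3140

theorem g_wQ_26_wN_1_rb8033094a_d43_d46_d42_d5c_d43_d3141 : GoodKC AS c_wQ_26_wN_1_rb8033094a_d43_d46_d42_d5c_d43_d3141 := p_wQ_26_wN_1_rb8033094a_d43_d46_d42_d5c_d43_d3141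

theorem g_wQ_26_wN_1_rb8033094a_d43_d46_d42_d5c_d43_d3143 : GoodKC AS c_wQ_26_wN_1_rb8033094a_d43_d46_d42_d5c_d43_d3143 := p_wQ_26_wN_1_rb8033094a_d43_d46_d42_d5c_d43_d3143

theorem g_wQ_26_wN_1_rb8033094a_d43_d46_d42_d5c_d43_d3144 : GoodKC AS c_wQ_26_wN_1_rb8033094a_d43_d46_d42_d5c_d43_d3144 := p_wQ_26_wN_1_rb8033094a_d43_d46_d42_d5c_d43_d3144

theorem g_wQ_26_wN_1_rb8033094a_d43_d46_d42_d5c_d43_d3148 : GoodKC AS c_wQ_26_wN_1_rb8033094a_d43_d46_d42_d5c_d43_d3148 := p_wQ_26_wN_1_rb8033094a_d43_d46_d42_d5c_d43_d3148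

theorem g_wQ_26_wN_1_rb8033094a_d43_d46_d42_d5c_d43_d3149 : GoodKC AS c_wQ_26_wN_1_rb8033094a_d43_d46_d42_d5c_d43_d3149 := p_wQ_26_wN_1_rb8033094a_d43_d46_d42_d5c_d43_d3149

theorem g__wQ_26_wN_1_rb8033094a_d43_d46_d42_d5c_d43_d31_0 : GoodKC AS k_wQ_26_wN_1_rb8033094a_d43_d46_d42_d5c_d43_d31_0 := p_wQ_26_wN_1_rb8033094a_d43_d46_d42_d5c_d43_d31_0 g_wQ_26_wN_1_rb8033094a_d43_d46_d42_d5c_d43_d3147 g_wQ_26_wN_1_rb8033094a_d43_d46_d42_d5c_d43_d3146 g_wQ_26_wN_1_rb8033094a_d43_d46_d42_d5c_d43_d3145 g_wQ_26_wN_1_rb8033094a_d43_d46_d42_d5c_d43_d3142 g_wQ_26_wN_1_rb8033094a_d43_d46_d42_d5c_d43_d313a g_wQ_26_wN_1_rb8033094a_d43_d46_d42_d5c_d43_d3139 g_wQ_26_wN_1_rb8033094a_d43_d46_d42_d5c_d43_d3138 g_wQ_26_wN_1_rb8033094a_d43_d46_d42_d5c_d43_d3137 g_wQ_26_wN_1_rb8033094a_d43_d46_d42_d5c_d43_d3136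 g_wQ_26_wN_1_rb8033094a_d43_d46_d42_d5c_d43_d3134 g__wQ_26_wN_1_rb8033094a_d43_d46_d42_d5c_d43_d31_1 g_wQ_26_wN_1_rb8033094a_d43_d46_d42_d5c_d43_d3131 g_wQ_26_wN_1_rb8033094a_d43_d46_d42_d5c_d43_d3130 g_wQ_26_wN_1_rb8033094a_d43_d46_d42_d5c_d43_d312c g_wQ_26_wN_1_rb8033094a_d43_d46_d42_d5c_d43_d312b g_wQ_26_wN_1_rb8033094a_d43_d46_d42_d5c_d43_d3126 g_wQ_26_wN_1_rb8033094a_d43_d46_d42_d5c_d43_d3125 g_wQ_26_wN_1_rb8033094a_d43_d46_d42_d5c_d43_d3124 g_wQ_26_wN_1_rb8033094a_d43_d46_d42_d5c_d43_d3123 g_wQ_26_wN_1_rb8033094a_d43_d46_d42_d5c_d43_d3120 g_wQ_26_wN_1_rb8033094a_d43_d46_d42_d5c_d43_d311e g_wQ_26_wN_1_rb8033094a_d43_d46_d42_d5c_d43_d311d g_wQ_26_wN_1_rb8033094a_d43_d46_d42_d5c_d43_d311b g_wQ_26_wN_1_rb8033094a_d43_d46_d42_d5c_d43_d3117 g_wQ_26_wN_1_rb8033094a_d43_d46_d42_d5c_d43_d3114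 g_wQ_26_wN_1_rb8033094a_d43_d46_d42_d5c_d43_d310f g_wQ_26_wN_1_rb8033094a_d43_d46_d42_d5c_d43_d310e g_wQ_26_wN_1_rb8033094a_d43_d46_d42_d5c_d43_d310c g_wQ_26_wN_1_rb8033094a_d43_d46_d42_d5c_d43_d310b g_wQ_26_wN_1_rb8033094a_d43_d46_d42_d5c_d43_d310a g_wQ_26_wN_1_rb8033094a_d43_d46_d42_d5c_d43_d3109 g_wQ_26_wN_1_rb8033094a_d43_d46_d42_d5c_d43_d3106 g_wQ_26_wN_1_rb8033094a_d43_d46_d42_d5c_d43_d3105 g_wQ_26_wN_1_rb8033094a_d43_d46_d42_d5c_d43_d3104 g_wQ_26_wN_1_rb8033094a_d43_d46_d42_d5c_d43_d3103 g_wQ_26_wN_1_rb8033094a_d43_d46_d42_d5c_d43_d3102 g_wQ_26_wN_1_rb8033094a_d43_d46_d42_d5c_d43_d3100 g_wQ_26_wN_1_rb8033094a_d43_d46_d42_d5c_d43_d3101 g_wQ_26_wN_1_rb8033094a_d43_d46_d42_d5c_d43_d3107 g_wQ_26_wN_1_rb8033094a_d43_d46_d42_d5c_d43_d3108 g_wQ_26_wN_1_rb8033094a_d43_d46_d42_d5c_d43_d310d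 g_wQ_26_wN_1_rb8033094a_d43_d46_d42_d5c_d43_d3110 g_wQ_26_wN_1_rb8033094a_d43_d46_d42_d5c_d43_d3111 g_wQ_26_wN_1_rb8033094a_d43_d46_d42_d5c_d43_d3112 g_wQ_26_wN_1_rb8033094a_d43_d46_d42_d5c_d43_d3113 g_wQ_26_wN_1_rb8033094a_d43_d46_d42_d5c_d43_d3115 g_wQ_26_wN_1_rb8033094a_d43_d46_d42_d5c_d43_d3116 g_wQ_26_wN_1_rb8033094a_d43_d46_d42_d5c_d43_d3118 g_wQ_26_wN_1_rb8033094a_d43_d46_d42_d5c_d43_d3119 g_wQ_26_wN_1_rb8033094a_d43_d46_d42_d5c_d43_d311a g_wQ_26_wN_1_rb8033094a_d43_d46_d42_d5c_d43_d311c g_wQ_26_wN_1_rb8033094a_d43_d46_d42_d5c_d43_d311f g_wQ_26_wN_1_rb8033094a_d43_d46_d42_d5c_d43_d3121 g_wQ_26_wN_1_rb8033094a_d43_d46_d42_d5c_d43_d3122 g_wQ_26_wN_1_rb8033094a_d43_d46_d42_d5c_d43_d3127 g_wQ_26_wN_1_rb8033094a_d43_d46_d42_d5c_d43_d3128 g_wQ_26_wN_1_rb8033094a_d43_d46_d42_d5c_d43_d3129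 g_wQ_26_wN_1_rb8033094a_d43_d46_d42_d5c_d43_d312a g_wQ_26_wN_1_rb8033094a_d43_d46_d42_d5c_d43_d312d g_wQ_26_wN_1_rb8033094a_d43_d46_d42_d5c_d43_d312e g_wQ_26_wN_1_rb8033094a_d43_d46_d42_d5c_d43_d312f g_wQ_26_wN_1_rb8033094a_d43_d46_d42_d5c_d43_d3132 g_wQ_26_wN_1_rb8033094a_d43_d46_d42_d5c_d43_d3133 g_wQ_26_wN_1_rb8033094a_d43_d46_d42_d5c_d43_d3135 g_wQ_26_wN_1_rb8033094a_d43_d46_d42_d5c_d43_d313b g_wQ_26_wN_1_rb8033094a_d43_d46_d42_d5c_d43_d313c g_wQ_26_wN_1_rb8033094a_d43_d46_d42_d5c_d43_d313d g_wQ_26_wN_1_rb8033094a_d43_d46_d42_d5c_d43_d313e g_wQ_26_wN_1_rb8033094a_d43_d46_d42_d5c_d43_d313f g_wQ_26_wN_1_rb8033094a_d43_d46_d42_d5c_d43_d3140 g_wQ_26_wN_1_rb8033094a_d43_d46_d42_d5c_d43_d3141 g_wQ_26_wN_1_rb8033094a_d43_d46_d42_d5c_d43_d3143 g_wQ_26_wN_1_rb8033094a_d43_d46_d42_d5c_d43_d3144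 g_wQ_26_wN_1_rb8033094a_d43_d46_d42_d5c_d43_d3148 g_wQ_26_wN_1_rb8033094a_d43_d46_d42_d5c_d43_d3149

theorem g__wQ_26_wN_1_rb8033094a_d43_d46_d42_d5c_d43_d31_14 : GoodKC AS k_wQ_26_wN_1_rb8033094a_d43_d46_d42_d5c_d43_d31_14 := p_wQ_26_wN_1_rb8033094a_d43_d46_d42_d5c_d43_d31_14

theorem g__wQ_26_wN_1_rb8033094a_d43_d46_d42_d5c_d43_d31_15 : GoodKC AS k_wQ_26_wN_1_rb8033094a_d43_d46_d42_d5c_d43_d31_15 := p_wQ_26_wN_1_rb8033094a_d43_d46_d42_d5c_d43_d31_15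

theorem g__wQ_26_wN_1_rb8033094a_d43_d46_d42_d5c_d43_d31_18 : GoodKC AS k_wQ_26_wN_1_rb8033094a_d43_d46_d42_d5c_d43_d31_18 := p_wQ_26_wN_1_rb8033094a_d43_d46_d42_d5c_d43_d31_18

theorem g__wQ_26_wN_1_rb8033094a_d43_d46_d42_d5c_d43_d31_19 : GoodKC AS k_wQ_26_wN_1_rb8033094a_d43_d46_d42_d5c_d43_d31_19 := p_wQ_26_wN_1_rb8033094a_d43_d46_d42_d5c_d43_d31_19

theorem g__wQ_26_wN_1_rb8033094a_d43_d46_d42_d5c_d43_d31_17 : GoodKC AS k_wQ_26_wN_1_rb8033094a_d43_d46_d42_d5c_d43_d31_17 := p_wQ_26_wN_1_rb8033094a_d43_d46_d42_d5c_d43_d31_17 g__wQ_26_wN_1_rb8033094a_d43_d46_d42_d5c_d43_d31_18 g__wQ_26_wN_1_rb8033094a_d43_d46_d42_d5c_d43_d31_19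

theorem g__wQ_26_wN_1_rb8033094a_d43_d46_d42_d5c_d43_d31_16 : GoodKC AS k_wQ_26_wN_1_rb8033094a_d43_d46_d42_d5c_d43_d31_16 := p_wQ_26_wN_1_rb8033094a_d43_d46_d42_d5c_d43_d31_16 g__wQ_26_wN_1_rb8033094a_d43_d46_d42_d5c_d43_d31_17

theorem g__wQ_26_wN_1_rb8033094a_d43_d46_d42_d5c_d43_d31_13 : GoodKC AS k_wQ_26_wN_1_rb8033094a_d43_d46_d42_d5c_d43_d31_13 := p_wQ_26_wN_1_rb8033094a_d43_d46_d42_d5c_d43_d31_13 g__wQ_26_wN_1_rb8033094a_d43_d46_d42_d5c_d43_d31_14 g__wQ_26_wN_1_rb8033094a_d43_d46_d42_d5c_d43_d31_15 g__wQ_26_wN_1_rb8033094a_d43_d46_d42_d5c_d43_d31_16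

theorem g_wQ_26_wN_1_rb8033094a_d43_d46_d42_d5c_d43_d314b : GoodKC AS c_wQ_26_wN_1_rb8033094a_d43_d46_d42_d5c_d43_d314b := p_wQ_26_wN_1_rb8033094a_d43_d46_d42_d5c_d43_d314b

theorem g__wQ_26_wN_1_rb8033094a_d43_d46_d42_d5c_d43_d314c_1 : GoodKC AS k_wQ_26_wN_1_rb8033094a_d43_d46_d42_d5c_d43_d314c_1 := p_wQ_26_wN_1_rb8033094a_d43_d46_d42_d5c_d43_d314c_1

theorem g__wQ_26_wN_1_rb8033094a_d43_d46_d42_d5c_d43_d314c_0 : GoodKC AS k_wQ_26_wN_1_rb8033094a_d43_d46_d42_d5c_d43_d314c_0 := p_wQ_26_wN_1_rb8033094a_d43_d46_d42_d5c_d43_d314c_0 g__wQ_26_wN_1_rb8033094a_d43_d46_d42_d5c_d43_d314c_1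

theorem g_wQ_26_wN_1_rb8033094a_d43_d46_d42_d5c_d43_d314c : GoodKC AS c_wQ_26_wN_1_rb8033094a_d43_d46_d42_d5c_d43_d314c := p_wQ_26_wN_1_rb8033094a_d43_d46_d42_d5c_d43_d314c g__wQ_26_wN_1_rb8033094a_d43_d46_d42_d5c_d43_d314c_0

theorem g__wQ_26_wN_1_rb8033094a_d43_d46_d42_d5c_d43_d314e_2 : GoodKC AS k_wQ_26_wN_1_rb8033094a_d43_d46_d42_d5c_d43_d314e_2 := p_wQ_26_wN_1_rb8033094a_d43_d46_d42_d5c_d43_d314e_2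

theorem g__wQ_26_wN_1_rb8033094a_d43_d46_d42_d5c_d43_d314e_1 : GoodKC AS k_wQ_26_wN_1_rb8033094a_d43_d46_d42_d5c_d43_d314e_1 := p_wQ_26_wN_1_rb8033094a_d43_d46_d42_d5c_d43_d314e_1 g__wQ_26_wN_1_rb8033094a_d43_d46_d42_d5c_d43_d314e_2

theorem g__wQ_26_wN_1_rb8033094a_d43_d46_d42_d5c_d43_d314e_3 : GoodKC AS k_wQ_26_wN_1_rb8033094a_d43_d46_d42_d5c_d43_d314e_3 := p_wQ_26_wN_1_rb8033094a_d43_d46_d42_d5c_d43_d314e_3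

theorem g__wQ_26_wN_1_rb8033094a_d43_d46_d42_d5c_d43_d314e_0 : GoodKC AS k_wQ_26_wN_1_rb8033094a_d43_d46_d42_d5c_d43_d314e_0 := p_wQ_26_wN_1_rb8033094a_d43_d46_d42_d5c_d43_d314e_0 g__wQ_26_wN_1_rb8033094a_d43_d46_d42_d5c_d43_d314e_1 g__wQ_26_wN_1_rb8033094a_d43_d46_d42_d5c_d43_d314e_3

theorem g_wQ_26_wN_1_rb8033094a_d43_d46_d42_d5c_d43_d314e : GoodKC AS c_wQ_26_wN_1_rb8033094a_d43_d46_d42_d5c_d43_d314e := p_wQ_26_wN_1_rb8033094a_d43_d46_d42_d5c_d43_d314e g__wQ_26_wN_1_rb8033094a_d43_d46_d42_d5c_d43_d314e_0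

theorem g_wQ_26_wN_1_rb8033094a_d43_d46_d42_d5c_d43_d3155 : GoodKC AS c_wQ_26_wN_1_rb8033094a_d43_d46_d42_d5c_d43_d3155 := p_wQ_26_wN_1_rb8033094a_d43_d46_d42_d5c_d43_d3155

theorem g_wQ_26_wN_1_rb8033094a_d43_d46_d42_d5c_d43_d3156 : GoodKC AS c_wQ_26_wN_1_rb8033094a_d43_d46_d42_d5c_d43_d3156 := p_wQ_26_wN_1_rb8033094a_d43_d46_d42_d5c_d43_d3156

theorem g_wQ_26_wN_1_rb8033094a_d43_d46_d42_d5c_d43_d3158 : GoodKC AS c_wQ_26_wN_1_rb8033094a_d43_d46_d42_d5c_d43_d3158 := p_wQ_26_wN_1_rb8033094a_d43_d46_d42_d5c_d43_d3158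

theorem g_wQ_26_wN_1_rb8033094a_d43_d46_d42_d5c_d43_d315a : GoodKC AS c_wQ_26_wN_1_rb8033094a_d43_d46_d42_d5c_d43_d315a := p_wQ_26_wN_1_rb8033094a_d43_d46_d42_d5c_d43_d315a

theorem g_wQ_26_wN_1_rb8033094a_d43_d46_d42_d5c_d43_d315c : GoodKC AS c_wQ_26_wN_1_rb8033094a_d43_d46_d42_d5c_d43_d315c := p_wQ_26_wN_1_rb8033094a_d43_d46_d42_d5c_d43_d315c

theorem g_wQ_26_wN_1_rb8033094a_d43_d46_d42_d5c_d43_d315d : GoodKC AS c_wQ_26_wN_1_rb8033094a_d43_d46_d42_d5c_d43_d315d := p_wQ_26_wN_1_rb8033094a_d43_d46_d42_d5c_d43_d315d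

theorem g_wQ_26_wN_1_rb8033094a_d43_d46_d42_d5c_d43_d315e : GoodKC AS c_wQ_26_wN_1_rb8033094a_d43_d46_d42_d5c_d43_d315e := p_wQ_26_wN_1_rb8033094a_d43_d46_d42_d5c_d43_d315e

theorem g_wQ_26_wN_1_rb8033094a_d43_d46_d42_d5c_d43_d315f : GoodKC AS c_wQ_26_wN_1_rb8033094a_d43_d46_d42_d5c_d43_d315f := p_wQ_26_wN_1_rb8033094a_d43_d46_d42_d5c_d43_d315f

theorem g_wQ_26_wN_1_rb8033094a_d43_d46_d42_d5c_d43_d3161 : GoodKC AS c_wQ_26_wN_1_rb8033094a_d43_d46_d42_d5c_d43_d3161 := p_wQ_26_wN_1_rb8033094a_d43_d46_d42_d5c_d43_d3161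

theorem g_wQ_26_wN_1_rb8033094a_d43_d46_d42_d5c_d43_d3162 : GoodKC AS c_wQ_26_wN_1_rb8033094a_d43_d46_d42_d5c_d43_d3162 := p_wQ_26_wN_1_rb8033094a_d43_d46_d42_d5c_d43_d3162

theorem g__wQ_26_wN_1_rb8033094a_d43_d46_d42_d5c_d43_d3163_1 : GoodKC AS k_wQ_26_wN_1_rb8033094a_d43_d46_d42_d5c_d43_d3163_1 := p_wQ_26_wN_1_rb8033094a_d43_d46_d42_d5c_d43_d3163_1

theorem g__wQ_26_wN_1_rb8033094a_d43_d46_d42_d5c_d43_d3163_0 : GoodKC AS k_wQ_26_wN_1_rb8033094a_d43_d46_d42_d5c_d43_d3163_0 := p_wQ_26_wN_1_rb8033094a_d43_d46_d42_d5c_d43_d3163_0 g__wQ_26_wN_1_rb8033094a_d43_d46_d42_d5c_d43_d3163_1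

theorem g_wQ_26_wN_1_rb8033094a_d43_d46_d42_d5c_d43_d3163 : GoodKC AS c_wQ_26_wN_1_rb8033094a_d43_d46_d42_d5c_d43_d3163 := p_wQ_26_wN_1_rb8033094a_d43_d46_d42_d5c_d43_d3163 g__wQ_26_wN_1_rb8033094a_d43_d46_d42_d5c_d43_d3163_0

theorem g_wQ_26_wN_1_rb8033094a_d43_d46_d42_d5c_d43_d31x3 : GoodKC AS c_wQ_26_wN_1_rb8033094a_d43_d46_d42_d5c_d43_d31x3 := p_wQ_26_wN_1_rb8033094a_d43_d46_d42_d5c_d43_d31 g_wQ_26_wN_1_rb8033094a_d43_d46_d42_d5c_d43_d3160 g_wQ_26_wN_1_rb8033094a_d43_d46_d42_d5c_d43_d315b g_wQ_26_wN_1_rb8033094a_d43_d46_d42_d5c_d43_d3159 g_wQ_26_wN_1_rb8033094a_d43_d46_d42_d5c_d43_d3157 g_wQ_26_wN_1_rb8033094a_d43_d46_d42_d5c_d43_d3154 g_wQ_26_wN_1_rb8033094a_d43_d46_d42_d5c_d43_d3153 g_wQ_26_wN_1_rb8033094a_d43_d46_d42_d5c_d43_d3152 g_wQ_26_wN_1_rb8033094a_d43_d46_d42_d5c_d43_d3151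 g_wQ_26_wN_1_rb8033094a_d43_d46_d42_d5c_d43_d3150 g_wQ_26_wN_1_rb8033094a_d43_d46_d42_d5c_d43_d314f g_wQ_26_wN_1_rb8033094a_d43_d46_d42_d5c_d43_d314d g_wQ_26_wN_1_rb8033094a_d43_d46_d42_d5c_d43_d314a g__wQ_26_wN_1_rb8033094a_d43_d46_d42_d5c_d43_d31_0 g__wQ_26_wN_1_rb8033094a_d43_d46_d42_d5c_d43_d31_13 g_wQ_26_wN_1_rb8033094a_d43_d46_d42_d5c_d43_d314b g_wQ_26_wN_1_rb8033094a_d43_d46_d42_d5c_d43_d314c g_wQ_26_wN_1_rb8033094a_d43_d46_d42_d5c_d43_d314e g_wQ_26_wN_1_rb8033094a_d43_d46_d42_d5c_d43_d3155 g_wQ_26_wN_1_rb8033094a_d43_d46_d42_d5c_d43_d3156 g_wQ_26_wN_1_rb8033094a_d43_d46_d42_d5c_d43_d3158 g_wQ_26_wN_1_rb8033094a_d43_d46_d42_d5c_d43_d315a g_wQ_26_wN_1_rb8033094a_d43_d46_d42_d5c_d43_d315c g_wQ_26_wN_1_rb8033094a_d43_d46_d42_d5c_d43_d315d g_wQ_26_wN_1_rb8033094a_d43_d46_d42_d5c_d43_d315e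 g_wQ_26_wN_1_rb8033094a_d43_d46_d42_d5c_d43_d315f g_wQ_26_wN_1_rb8033094a_d43_d46_d42_d5c_d43_d3161 g_wQ_26_wN_1_rb8033094a_d43_d46_d42_d5c_d43_d3162 g_wQ_26_wN_1_rb8033094a_d43_d46_d42_d5c_d43_d3163

theorem g_wQ_26_wN_1_rb8033094a_d43_d46_d42_d5c_d43_d30x3 : GoodKC AS c_wQ_26_wN_1_rb8033094a_d43_d46_d42_d5c_d43_d30x3 := p_wQ_26_wN_1_rb8033094a_d43_d46_d42_d5c_d43_d30

theorem g_wQ_26_wN_1_rb8033094a_d43_d46_d42_d5c_d43_d2fx3 : GoodKC AS c_wQ_26_wN_1_rb8033094a_d43_d46_d42_d5c_d43_d2fx3 := p_wQ_26_wN_1_rb8033094a_d43_d46_d42_d5c_d43_d2f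

theorem g_wQ_26_wN_1_rb8033094a_d43_d46_d42_d5c_d43_d2ex3 : GoodKC AS c_wQ_26_wN_1_rb8033094a_d43_d46_d42_d5c_d43_d2ex3 := p_wQ_26_wN_1_rb8033094a_d43_d46_d42_d5c_d43_d2e

theorem g_wQ_26_wN_1_rb8033094a_d43_d46_d42_d5c_d43_d2dx3 : GoodKC AS c_wQ_26_wN_1_rb8033094a_d43_d46_d42_d5c_d43_d2dx3 := p_wQ_26_wN_1_rb8033094a_d43_d46_d42_d5c_d43_d2d

theorem g_wQ_26_wN_1_rb8033094a_d43_d46_d42_d5c_d43_d2cx3 : GoodKC AS c_wQ_26_wN_1_rb8033094a_d43_d46_d42_d5c_d43_d2cx3 := p_wQ_26_wN_1_rb8033094a_d43_d46_d42_d5c_d43_d2c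

theorem g__wQ_26_wN_1_rb8033094a_d43_d46_d42_d5c_d43_d2a_1 : GoodKC AS k_wQ_26_wN_1_rb8033094a_d43_d46_d42_d5c_d43_d2a_1 := p_wQ_26_wN_1_rb8033094a_d43_d46_d42_d5c_d43_d2a_1

theorem g__wQ_26_wN_1_rb8033094a_d43_d46_d42_d5c_d43_d2a_3 : GoodKC AS k_wQ_26_wN_1_rb8033094a_d43_d46_d42_d5c_d43_d2a_3 := p_wQ_26_wN_1_rb8033094a_d43_d46_d42_d5c_d43_d2a_3

theorem g__wQ_26_wN_1_rb8033094a_d43_d46_d42_d5c_d43_d2a_2 : GoodKC AS k_wQ_26_wN_1_rb8033094a_d43_d46_d42_d5c_d43_d2a_2 := p_wQ_26_wN_1_rb8033094a_d43_d46_d42_d5c_d43_d2a_2 g__wQ_26_wN_1_rb8033094a_d43_d46_d42_d5c_d43_d2a_3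

theorem g__wQ_26_wN_1_rb8033094a_d43_d46_d42_d5c_d43_d2a_0 : GoodKC AS k_wQ_26_wN_1_rb8033094a_d43_d46_d42_d5c_d43_d2a_0 := p_wQ_26_wN_1_rb8033094a_d43_d46_d42_d5c_d43_d2a_0 g__wQ_26_wN_1_rb8033094a_d43_d46_d42_d5c_d43_d2a_1 g__wQ_26_wN_1_rb8033094a_d43_d46_d42_d5c_d43_d2a_2

theorem g_wQ_26_wN_1_rb8033094a_d43_d46_d42_d5c_d43_d2ax3 : GoodKC AS c_wQ_26_wN_1_rb8033094a_d43_d46_d42_d5c_d43_d2ax3 := p_wQ_26_wN_1_rb8033094a_d43_d46_d42_d5c_d43_d2a g__wQ_26_wN_1_rb8033094a_d43_d46_d42_d5c_d43_d2a_0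

theorem g__wQ_26_wN_1_rb8033094a_d43_d46_d42_d5c_d43_d29_1 : GoodKC AS k_wQ_26_wN_1_rb8033094a_d43_d46_d42_d5c_d43_d29_1 := p_wQ_26_wN_1_rb8033094a_d43_d46_d42_d5c_d43_d29_1

theorem g__wQ_26_wN_1_rb8033094a_d43_d46_d42_d5c_d43_d29_4 : GoodKC AS k_wQ_26_wN_1_rb8033094a_d43_d46_d42_d5c_d43_d29_4 := p_wQ_26_wN_1_rb8033094a_d43_d46_d42_d5c_d43_d29_4

theorem g__wQ_26_wN_1_rb8033094a_d43_d46_d42_d5c_d43_d29_3 : GoodKC AS k_wQ_26_wN_1_rb8033094a_d43_d46_d42_d5c_d43_d29_3 := p_wQ_26_wN_1_rb8033094a_d43_d46_d42_d5c_d43_d29_3 g__wQ_26_wN_1_rb8033094a_d43_d46_d42_d5c_d43_d29_4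

theorem g__wQ_26_wN_1_rb8033094a_d43_d46_d42_d5c_d43_d29_6 : GoodKC AS k_wQ_26_wN_1_rb8033094a_d43_d46_d42_d5c_d43_d29_6 := p_wQ_26_wN_1_rb8033094a_d43_d46_d42_d5c_d43_d29_6

theorem g__wQ_26_wN_1_rb8033094a_d43_d46_d42_d5c_d43_d29_5 : GoodKC AS k_wQ_26_wN_1_rb8033094a_d43_d46_d42_d5c_d43_d29_5 := p_wQ_26_wN_1_rb8033094a_d43_d46_d42_d5c_d43_d29_5 g__wQ_26_wN_1_rb8033094a_d43_d46_d42_d5c_d43_d29_6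

theorem g__wQ_26_wN_1_rb8033094a_d43_d46_d42_d5c_d43_d29_8 : GoodKC AS k_wQ_26_wN_1_rb8033094a_d43_d46_d42_d5c_d43_d29_8 := p_wQ_26_wN_1_rb8033094a_d43_d46_d42_d5c_d43_d29_8

theorem g__wQ_26_wN_1_rb8033094a_d43_d46_d42_d5c_d43_d29_9 : GoodKC AS k_wQ_26_wN_1_rb8033094a_d43_d46_d42_d5c_d43_d29_9 := p_wQ_26_wN_1_rb8033094a_d43_d46_d42_d5c_d43_d29_9

theorem g__wQ_26_wN_1_rb8033094a_d43_d46_d42_d5c_d43_d29_7 : GoodKC AS k_wQ_26_wN_1_rb8033094a_d43_d46_d42_d5c_d43_d29_7 := p_wQ_26_wN_1_rb8033094a_d43_d46_d42_d5c_d43_d29_7 g__wQ_26_wN_1_rb8033094a_d43_d46_d42_d5c_d43_d29_8 g__wQ_26_wN_1_rb8033094a_d43_d46_d42_d5c_d43_d29_9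

theorem g__wQ_26_wN_1_rb8033094a_d43_d46_d42_d5c_d43_d29_2 : GoodKC AS k_wQ_26_wN_1_rb8033094a_d43_d46_d42_d5c_d43_d29_2 := p_wQ_26_wN_1_rb8033094a_d43_d46_d42_d5c_d43_d29_2 g__wQ_26_wN_1_rb8033094a_d43_d46_d42_d5c_d43_d29_3 g__wQ_26_wN_1_rb8033094a_d43_d46_d42_d5c_d43_d29_5 g__wQ_26_wN_1_rb8033094a_d43_d46_d42_d5c_d43_d29_7

theorem g__wQ_26_wN_1_rb8033094a_d43_d46_d42_d5c_d43_d29_0 : GoodKC AS k_wQ_26_wN_1_rb8033094a_d43_d46_d42_d5c_d43_d29_0 := p_wQ_26_wN_1_rb8033094a_d43_d46_d42_d5c_d43_d29_0 g__wQ_26_wN_1_rb8033094a_d43_d46_d42_d5c_d43_d29_1 g__wQ_26_wN_1_rb8033094a_d43_d46_d42_d5c_d43_d29_2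

theorem g_wQ_26_wN_1_rb8033094a_d43_d46_d42_d5c_d43_d29x3 : GoodKC AS c_wQ_26_wN_1_rb8033094a_d43_d46_d42_d5c_d43_d29x3 := p_wQ_26_wN_1_rb8033094a_d43_d46_d42_d5c_d43_d29 g__wQ_26_wN_1_rb8033094a_d43_d46_d42_d5c_d43_d29_0

theorem g_wQ_26_wN_1_rb8033094a_d43_d46_d42_d5c_d43_d26x3 : GoodKC AS c_wQ_26_wN_1_rb8033094a_d43_d46_d42_d5c_d43_d26x3 := p_wQ_26_wN_1_rb8033094a_d43_d46_d42_d5c_d43_d26

theorem g__wQ_26_wN_1_rb8033094a_d43_d46_d42_d5c_d43_d25_3 : GoodKC AS k_wQ_26_wN_1_rb8033094a_d43_d46_d42_d5c_d43_d25_3 := p_wQ_26_wN_1_rb8033094a_d43_d46_d42_d5c_d43_d25_3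

theorem g__wQ_26_wN_1_rb8033094a_d43_d46_d42_d5c_d43_d25_2 : GoodKC AS k_wQ_26_wN_1_rb8033094a_d43_d46_d42_d5c_d43_d25_2 := p_wQ_26_wN_1_rb8033094a_d43_d46_d42_d5c_d43_d25_2 g__wQ_26_wN_1_rb8033094a_d43_d46_d42_d5c_d43_d25_3

theorem g__wQ_26_wN_1_rb8033094a_d43_d46_d42_d5c_d43_d25_1 : GoodKC AS k_wQ_26_wN_1_rb8033094a_d43_d46_d42_d5c_d43_d25_1 := p_wQ_26_wN_1_rb8033094a_d43_d46_d42_d5c_d43_d25_1 g__wQ_26_wN_1_rb8033094a_d43_d46_d42_d5c_d43_d25_2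

theorem g__wQ_26_wN_1_rb8033094a_d43_d46_d42_d5c_d43_d25_0 : GoodKC AS k_wQ_26_wN_1_rb8033094a_d43_d46_d42_d5c_d43_d25_0 := p_wQ_26_wN_1_rb8033094a_d43_d46_d42_d5c_d43_d25_0 g__wQ_26_wN_1_rb8033094a_d43_d46_d42_d5c_d43_d25_1

theorem g_wQ_26_wN_1_rb8033094a_d43_d46_d42_d5c_d43_d25x3 : GoodKC AS c_wQ_26_wN_1_rb8033094a_d43_d46_d42_d5c_d43_d25x3 := p_wQ_26_wN_1_rb8033094a_d43_d46_d42_d5c_d43_d25 g__wQ_26_wN_1_rb8033094a_d43_d46_d42_d5c_d43_d25_0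

theorem g_wQ_26_wN_1_rb8033094a_d43_d46_d42_d5c_d43_d22x3 : GoodKC AS c_wQ_26_wN_1_rb8033094a_d43_d46_d42_d5c_d43_d22x3 := p_wQ_26_wN_1_rb8033094a_d43_d46_d42_d5c_d43_d22

theorem g__wQ_26_wN_1_rb8033094a_d43_d46_d42_d5c_d43_d20_6 : GoodKC AS k_wQ_26_wN_1_rb8033094a_d43_d46_d42_d5c_d43_d20_6 := p_wQ_26_wN_1_rb8033094a_d43_d46_d42_d5c_d43_d20_6

theorem g__wQ_26_wN_1_rb8033094a_d43_d46_d42_d5c_d43_d20_5 : GoodKC AS k_wQ_26_wN_1_rb8033094a_d43_d46_d42_d5c_d43_d20_5 := p_wQ_26_wN_1_rb8033094a_d43_d46_d42_d5c_d43_d20_5 g__wQ_26_wN_1_rb8033094a_d43_d46_d42_d5c_d43_d20_6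

theorem g__wQ_26_wN_1_rb8033094a_d43_d46_d42_d5c_d43_d20_4 : GoodKC AS k_wQ_26_wN_1_rb8033094a_d43_d46_d42_d5c_d43_d20_4 := p_wQ_26_wN_1_rb8033094a_d43_d46_d42_d5c_d43_d20_4 g__wQ_26_wN_1_rb8033094a_d43_d46_d42_d5c_d43_d20_5

theorem g__wQ_26_wN_1_rb8033094a_d43_d46_d42_d5c_d43_d20_3 : GoodKC AS k_wQ_26_wN_1_rb8033094a_d43_d46_d42_d5c_d43_d20_3 := p_wQ_26_wN_1_rb8033094a_d43_d46_d42_d5c_d43_d20_3 g__wQ_26_wN_1_rb8033094a_d43_d46_d42_d5c_d43_d20_4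

theorem g__wQ_26_wN_1_rb8033094a_d43_d46_d42_d5c_d43_d20_2 : GoodKC AS k_wQ_26_wN_1_rb8033094a_d43_d46_d42_d5c_d43_d20_2 := p_wQ_26_wN_1_rb8033094a_d43_d46_d42_d5c_d43_d20_2 g__wQ_26_wN_1_rb8033094a_d43_d46_d42_d5c_d43_d20_3

theorem g__wQ_26_wN_1_rb8033094a_d43_d46_d42_d5c_d43_d20_1 : GoodKC AS k_wQ_26_wN_1_rb8033094a_d43_d46_d42_d5c_d43_d20_1 := p_wQ_26_wN_1_rb8033094a_d43_d46_d42_d5c_d43_d20_1 g__wQ_26_wN_1_rb8033094a_d43_d46_d42_d5c_d43_d20_2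

theorem g__wQ_26_wN_1_rb8033094a_d43_d46_d42_d5c_d43_d20_0 : GoodKC AS k_wQ_26_wN_1_rb8033094a_d43_d46_d42_d5c_d43_d20_0 := p_wQ_26_wN_1_rb8033094a_d43_d46_d42_d5c_d43_d20_0 g__wQ_26_wN_1_rb8033094a_d43_d46_d42_d5c_d43_d20_1

theorem g_wQ_26_wN_1_rb8033094a_d43_d46_d42_d5c_d43_d20x3 : GoodKC AS c_wQ_26_wN_1_rb8033094a_d43_d46_d42_d5c_d43_d20x3 := p_wQ_26_wN_1_rb8033094a_d43_d46_d42_d5c_d43_d20 g__wQ_26_wN_1_rb8033094a_d43_d46_d42_d5c_d43_d20_0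

theorem g_wQ_26_wN_1_rb8033094a_d43_d46_d42_d5c_d43_d1ex3 : GoodKC AS c_wQ_26_wN_1_rb8033094a_d43_d46_d42_d5c_d43_d1ex3 := p_wQ_26_wN_1_rb8033094a_d43_d46_d42_d5c_d43_d1e

theorem g_wQ_26_wN_1_rb8033094a_d43_d46_d42_d5c_d43_d1dx3 : GoodKC AS c_wQ_26_wN_1_rb8033094a_d43_d46_d42_d5c_d43_d1dx3 := p_wQ_26_wN_1_rb8033094a_d43_d46_d42_d5c_d43_d1d

theorem g_wQ_26_wN_1_rb8033094a_d43_d46_d42_d5c_d43_d19x3 : GoodKC AS c_wQ_26_wN_1_rb8033094a_d43_d46_d42_d5c_d43_d19x3 := p_wQ_26_wN_1_rb8033094a_d43_d46_d42_d5c_d43_d19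

theorem g_wQ_26_wN_1_rb8033094a_d43_d46_d42_d5c_d43_d17x3 : GoodKC AS c_wQ_26_wN_1_rb8033094a_d43_d46_d42_d5c_d43_d17x3 := p_wQ_26_wN_1_rb8033094a_d43_d46_d42_d5c_d43_d17

theorem g_wQ_26_wN_1_rb8033094a_d43_d46_d42_d5c_d43_d14x3 : GoodKC AS c_wQ_26_wN_1_rb8033094a_d43_d46_d42_d5c_d43_d14x3 := p_wQ_26_wN_1_rb8033094a_d43_d46_d42_d5c_d43_d14

theorem g_wQ_26_wN_1_rb8033094a_d43_d46_d42_d5c_d43_d12x3 : GoodKC AS c_wQ_26_wN_1_rb8033094a_d43_d46_d42_d5c_d43_d12x3 := p_wQ_26_wN_1_rb8033094a_d43_d46_d42_d5c_d43_d12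

theorem g_wQ_26_wN_1_rb8033094a_d43_d46_d42_d5c_d43_d0fx3 : GoodKC AS c_wQ_26_wN_1_rb8033094a_d43_d46_d42_d5c_d43_d0fx3 := p_wQ_26_wN_1_rb8033094a_d43_d46_d42_d5c_d43_d0f

theorem g_wQ_26_wN_1_rb8033094a_d43_d46_d42_d5c_d43_d0ex3 : GoodKC AS c_wQ_26_wN_1_rb8033094a_d43_d46_d42_d5c_d43_d0ex3 := p_wQ_26_wN_1_rb8033094a_d43_d46_d42_d5c_d43_d0e

theorem g_wQ_26_wN_1_rb8033094a_d43_d46_d42_d5c_d43_d0dx3 : GoodKC AS c_wQ_26_wN_1_rb8033094a_d43_d46_d42_d5c_d43_d0dx3 := p_wQ_26_wN_1_rb8033094a_d43_d46_d42_d5c_d43_d0d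

theorem g__wQ_26_wN_1_rb8033094a_d43_d46_d42_d5cx3_3 : GoodKC AS k_wQ_26_wN_1_rb8033094a_d43_d46_d42_d5cx3_3 := p_wQ_26_wN_1_rb8033094a_d43_d46_d42_d5cx3_3

theorem g__wQ_26_wN_1_rb8033094a_d43_d46_d42_d5cx3_6 : GoodKC AS k_wQ_26_wN_1_rb8033094a_d43_d46_d42_d5cx3_6 := p_wQ_26_wN_1_rb8033094a_d43_d46_d42_d5cx3_6

theorem g__wQ_26_wN_1_rb8033094a_d43_d46_d42_d5cx3_5 : GoodKC AS k_wQ_26_wN_1_rb8033094a_d43_d46_d42_d5cx3_5 := p_wQ_26_wN_1_rb8033094a_d43_d46_d42_d5cx3_5 g__wQ_26_wN_1_rb8033094a_d43_d46_d42_d5cx3_6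

theorem g__wQ_26_wN_1_rb8033094a_d43_d46_d42_d5cx3_4 : GoodKC AS k_wQ_26_wN_1_rb8033094a_d43_d46_d42_d5cx3_4 := p_wQ_26_wN_1_rb8033094a_d43_d46_d42_d5cx3_4 g__wQ_26_wN_1_rb8033094a_d43_d46_d42_d5cx3_5

theorem g__wQ_26_wN_1_rb8033094a_d43_d46_d42_d5cx3_7 : GoodKC AS k_wQ_26_wN_1_rb8033094a_d43_d46_d42_d5cx3_7 := p_wQ_26_wN_1_rb8033094a_d43_d46_d42_d5cx3_7

theorem g__wQ_26_wN_1_rb8033094a_d43_d46_d42_d5cx3_2 : GoodKC AS k_wQ_26_wN_1_rb8033094a_d43_d46_d42_d5cx3_2 := p_wQ_26_wN_1_rb8033094a_d43_d46_d42_d5cx3_2 g__wQ_26_wN_1_rb8033094a_d43_d46_d42_d5cx3_3 g__wQ_26_wN_1_rb8033094a_d43_d46_d42_d5cx3_4 g__wQ_26_wN_1_rb8033094a_d43_d46_d42_d5cx3_7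

theorem g__wQ_26_wN_1_rb8033094a_d43_d46_d42_d5cx3_1 : GoodKC AS k_wQ_26_wN_1_rb8033094a_d43_d46_d42_d5cx3_1 := p_wQ_26_wN_1_rb8033094a_d43_d46_d42_d5cx3_1 g__wQ_26_wN_1_rb8033094a_d43_d46_d42_d5cx3_2

theorem g__wQ_26_wN_1_rb8033094a_d43_d46_d42_d5cx3_12 : GoodKC AS k_wQ_26_wN_1_rb8033094a_d43_d46_d42_d5cx3_12 := p_wQ_26_wN_1_rb8033094a_d43_d46_d42_d5cx3_12

theorem g__wQ_26_wN_1_rb8033094a_d43_d46_d42_d5cx3_11 : GoodKC AS k_wQ_26_wN_1_rb8033094a_d43_d46_d42_d5cx3_11 := p_wQ_26_wN_1_rb8033094a_d43_d46_d42_d5cx3_11 g__wQ_26_wN_1_rb8033094a_d43_d46_d42_d5cx3_12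

theorem g__wQ_26_wN_1_rb8033094a_d43_d46_d42_d5cx3_10 : GoodKC AS k_wQ_26_wN_1_rb8033094a_d43_d46_d42_d5cx3_10 := p_wQ_26_wN_1_rb8033094a_d43_d46_d42_d5cx3_10 g__wQ_26_wN_1_rb8033094a_d43_d46_d42_d5cx3_11

theorem g__wQ_26_wN_1_rb8033094a_d43_d46_d42_d5cx3_9 : GoodKC AS k_wQ_26_wN_1_rb8033094a_d43_d46_d42_d5cx3_9 := p_wQ_26_wN_1_rb8033094a_d43_d46_d42_d5cx3_9 g__wQ_26_wN_1_rb8033094a_d43_d46_d42_d5cx3_10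

theorem g__wQ_26_wN_1_rb8033094a_d43_d46_d42_d5cx3_8 : GoodKC AS k_wQ_26_wN_1_rb8033094a_d43_d46_d42_d5cx3_8 := p_wQ_26_wN_1_rb8033094a_d43_d46_d42_d5cx3_8 g__wQ_26_wN_1_rb8033094a_d43_d46_d42_d5cx3_9

theorem g__wQ_26_wN_1_rb8033094a_d43_d46_d42_d5cx3_0 : GoodKC AS k_wQ_26_wN_1_rb8033094a_d43_d46_d42_d5cx3_0 := p_wQ_26_wN_1_rb8033094a_d43_d46_d42_d5cx3_0 g__wQ_26_wN_1_rb8033094a_d43_d46_d42_d5cx3_1 g__wQ_26_wN_1_rb8033094a_d43_d46_d42_d5cx3_8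

theorem g_wQ_26_wN_1_rb8033094a_d43_d46_d42_d5c_d43_d09x3 : GoodKC AS c_wQ_26_wN_1_rb8033094a_d43_d46_d42_d5c_d43_d09x3 := p_wQ_26_wN_1_rb8033094a_d43_d46_d42_d5c_d43_d09

theorem g_wQ_26_wN_1_rb8033094a_d43_d46_d42_d5c_d43_d07x3 : GoodKC AS c_wQ_26_wN_1_rb8033094a_d43_d46_d42_d5c_d43_d07x3 := p_wQ_26_wN_1_rb8033094a_d43_d46_d42_d5c_d43_d07

theorem g__wQ_26_wN_1_rb8033094a_d43_d46_d42_d5c_d43_d06_0 : GoodKC AS k_wQ_26_wN_1_rb8033094a_d43_d46_d42_d5c_d43_d06_0 := p_wQ_26_wN_1_rb8033094a_d43_d46_d42_d5c_d43_d06_0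

theorem g_wQ_26_wN_1_rb8033094a_d43_d46_d42_d5c_d43_d06x3 : GoodKC AS c_wQ_26_wN_1_rb8033094a_d43_d46_d42_d5c_d43_d06x3 := p_wQ_26_wN_1_rb8033094a_d43_d46_d42_d5c_d43_d06 g__wQ_26_wN_1_rb8033094a_d43_d46_d42_d5c_d43_d06_0

theorem g_wQ_26_wN_1_rb8033094a_d43_d46_d42_d5c_d43_d03x3 : GoodKC AS c_wQ_26_wN_1_rb8033094a_d43_d46_d42_d5c_d43_d03x3 := p_wQ_26_wN_1_rb8033094a_d43_d46_d42_d5c_d43_d03

theorem g_wQ_26_wN_1_rb8033094a_d43_d46_d42_d5c_d43_d02x3 : GoodKC AS c_wQ_26_wN_1_rb8033094a_d43_d46_d42_d5c_d43_d02x3 := p_wQ_26_wN_1_rb8033094a_d43_d46_d42_d5c_d43_d02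

theorem g__wQ_26_wN_1_rb8033094a_d43_d46_d42_d5c_d43_d00_1 : GoodKC AS k_wQ_26_wN_1_rb8033094a_d43_d46_d42_d5c_d43_d00_1 := p_wQ_26_wN_1_rb8033094a_d43_d46_d42_d5c_d43_d00_1

theorem g__wQ_26_wN_1_rb8033094a_d43_d46_d42_d5c_d43_d00_0 : GoodKC AS k_wQ_26_wN_1_rb8033094a_d43_d46_d42_d5c_d43_d00_0 := p_wQ_26_wN_1_rb8033094a_d43_d46_d42_d5c_d43_d00_0 g__wQ_26_wN_1_rb8033094a_d43_d46_d42_d5c_d43_d00_1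

theorem g_wQ_26_wN_1_rb8033094a_d43_d46_d42_d5c_d43_d00x3 : GoodKC AS c_wQ_26_wN_1_rb8033094a_d43_d46_d42_d5c_d43_d00x3 := p_wQ_26_wN_1_rb8033094a_d43_d46_d42_d5c_d43_d00 g__wQ_26_wN_1_rb8033094a_d43_d46_d42_d5c_d43_d00_0

theorem g_wQ_26_wN_1_rb8033094a_d43_d46_d42_d5c_d43_d01x3 : GoodKC AS c_wQ_26_wN_1_rb8033094a_d43_d46_d42_d5c_d43_d01x3 := p_wQ_26_wN_1_rb8033094a_d43_d46_d42_d5c_d43_d01

theorem g_wQ_26_wN_1_rb8033094a_d43_d46_d42_d5c_d43_d04x3 : GoodKC AS c_wQ_26_wN_1_rb8033094a_d43_d46_d42_d5c_d43_d04x3 := p_wQ_26_wN_1_rb8033094a_d43_d46_d42_d5c_d43_d04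

theorem g_wQ_26_wN_1_rb8033094a_d43_d46_d42_d5c_d43_d05x3 : GoodKC AS c_wQ_26_wN_1_rb8033094a_d43_d46_d42_d5c_d43_d05x3 := p_wQ_26_wN_1_rb8033094a_d43_d46_d42_d5c_d43_d05

theorem g_wQ_26_wN_1_rb8033094a_d43_d46_d42_d5c_d43_d08x3 : GoodKC AS c_wQ_26_wN_1_rb8033094a_d43_d46_d42_d5c_d43_d08x3 := p_wQ_26_wN_1_rb8033094a_d43_d46_d42_d5c_d43_d08

theorem g_wQ_26_wN_1_rb8033094a_d43_d46_d42_d5c_d43_d0ax3 : GoodKC AS c_wQ_26_wN_1_rb8033094a_d43_d46_d42_d5c_d43_d0ax3 := p_wQ_26_wN_1_rb8033094a_d43_d46_d42_d5c_d43_d0a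

theorem g_wQ_26_wN_1_rb8033094a_d43_d46_d42_d5c_d43_d0bx3 : GoodKC AS c_wQ_26_wN_1_rb8033094a_d43_d46_d42_d5c_d43_d0bx3 := p_wQ_26_wN_1_rb8033094a_d43_d46_d42_d5c_d43_d0b

theorem g_wQ_26_wN_1_rb8033094a_d43_d46_d42_d5c_d43_d0cx3 : GoodKC AS c_wQ_26_wN_1_rb8033094a_d43_d46_d42_d5c_d43_d0cx3 := p_wQ_26_wN_1_rb8033094a_d43_d46_d42_d5c_d43_d0c

theorem g_wQ_26_wN_1_rb8033094a_d43_d46_d42_d5c_d43_d10x3 : GoodKC AS c_wQ_26_wN_1_rb8033094a_d43_d46_d42_d5c_d43_d10x3 := p_wQ_26_wN_1_rb8033094a_d43_d46_d42_d5c_d43_d10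

theorem g_wQ_26_wN_1_rb8033094a_d43_d46_d42_d5c_d43_d11x3 : GoodKC AS c_wQ_26_wN_1_rb8033094a_d43_d46_d42_d5c_d43_d11x3 := p_wQ_26_wN_1_rb8033094a_d43_d46_d42_d5c_d43_d11

theorem g_wQ_26_wN_1_rb8033094a_d43_d46_d42_d5c_d43_d13x3 : GoodKC AS c_wQ_26_wN_1_rb8033094a_d43_d46_d42_d5c_d43_d13x3 := p_wQ_26_wN_1_rb8033094a_d43_d46_d42_d5c_d43_d13

theorem g_wQ_26_wN_1_rb8033094a_d43_d46_d42_d5c_d43_d15x3 : GoodKC AS c_wQ_26_wN_1_rb8033094a_d43_d46_d42_d5c_d43_d15x3 := p_wQ_26_wN_1_rb8033094a_d43_d46_d42_d5c_d43_d15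

theorem g__wQ_26_wN_1_rb8033094a_d43_d46_d42_d5c_d43_d16_2 : GoodKC AS k_wQ_26_wN_1_rb8033094a_d43_d46_d42_d5c_d43_d16_2 := p_wQ_26_wN_1_rb8033094a_d43_d46_d42_d5c_d43_d16_2

theorem g__wQ_26_wN_1_rb8033094a_d43_d46_d42_d5c_d43_d16_1 : GoodKC AS k_wQ_26_wN_1_rb8033094a_d43_d46_d42_d5c_d43_d16_1 := p_wQ_26_wN_1_rb8033094a_d43_d46_d42_d5c_d43_d16_1 g__wQ_26_wN_1_rb8033094a_d43_d46_d42_d5c_d43_d16_2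

theorem g__wQ_26_wN_1_rb8033094a_d43_d46_d42_d5c_d43_d16_0 : GoodKC AS k_wQ_26_wN_1_rb8033094a_d43_d46_d42_d5c_d43_d16_0 := p_wQ_26_wN_1_rb8033094a_d43_d46_d42_d5c_d43_d16_0 g__wQ_26_wN_1_rb8033094a_d43_d46_d42_d5c_d43_d16_1

theorem g_wQ_26_wN_1_rb8033094a_d43_d46_d42_d5c_d43_d16x3 : GoodKC AS c_wQ_26_wN_1_rb8033094a_d43_d46_d42_d5c_d43_d16x3 := p_wQ_26_wN_1_rb8033094a_d43_d46_d42_d5c_d43_d16 g__wQ_26_wN_1_rb8033094a_d43_d46_d42_d5c_d43_d16_0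

theorem g_wQ_26_wN_1_rb8033094a_d43_d46_d42_d5c_d43_d18x3 : GoodKC AS c_wQ_26_wN_1_rb8033094a_d43_d46_d42_d5c_d43_d18x3 := p_wQ_26_wN_1_rb8033094a_d43_d46_d42_d5c_d43_d18

theorem g_wQ_26_wN_1_rb8033094a_d43_d46_d42_d5c_d43_d1ax3 : GoodKC AS c_wQ_26_wN_1_rb8033094a_d43_d46_d42_d5c_d43_d1ax3 := p_wQ_26_wN_1_rb8033094a_d43_d46_d42_d5c_d43_d1a

theorem g_wQ_26_wN_1_rb8033094a_d43_d46_d42_d5c_d43_d1bx3 : GoodKC AS c_wQ_26_wN_1_rb8033094a_d43_d46_d42_d5c_d43_d1bx3 := p_wQ_26_wN_1_rb8033094a_d43_d46_d42_d5c_d43_d1b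

theorem g_wQ_26_wN_1_rb8033094a_d43_d46_d42_d5c_d43_d1cx3 : GoodKC AS c_wQ_26_wN_1_rb8033094a_d43_d46_d42_d5c_d43_d1cx3 := p_wQ_26_wN_1_rb8033094a_d43_d46_d42_d5c_d43_d1c

theorem g_wQ_26_wN_1_rb8033094a_d43_d46_d42_d5c_d43_d1fx3 : GoodKC AS c_wQ_26_wN_1_rb8033094a_d43_d46_d42_d5c_d43_d1fx3 := p_wQ_26_wN_1_rb8033094a_d43_d46_d42_d5c_d43_d1f

theorem g_wQ_26_wN_1_rb8033094a_d43_d46_d42_d5c_d43_d21x3 : GoodKC AS c_wQ_26_wN_1_rb8033094a_d43_d46_d42_d5c_d43_d21x3 := p_wQ_26_wN_1_rb8033094a_d43_d46_d42_d5c_d43_d21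

theorem g__wQ_26_wN_1_rb8033094a_d43_d46_d42_d5c_d43_d23_0 : GoodKC AS k_wQ_26_wN_1_rb8033094a_d43_d46_d42_d5c_d43_d23_0 := p_wQ_26_wN_1_rb8033094a_d43_d46_d42_d5c_d43_d23_0

theorem g__wQ_26_wN_1_rb8033094a_d43_d46_d42_d5c_d43_d23_2 : GoodKC AS k_wQ_26_wN_1_rb8033094a_d43_d46_d42_d5c_d43_d23_2 := p_wQ_26_wN_1_rb8033094a_d43_d46_d42_d5c_d43_d23_2

theorem g__wQ_26_wN_1_rb8033094a_d43_d46_d42_d5c_d43_d23_3 : GoodKC AS k_wQ_26_wN_1_rb8033094a_d43_d46_d42_d5c_d43_d23_3 := p_wQ_26_wN_1_rb8033094a_d43_d46_d42_d5c_d43_d23_3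

theorem g__wQ_26_wN_1_rb8033094a_d43_d46_d42_d5c_d43_d23_1 : GoodKC AS k_wQ_26_wN_1_rb8033094a_d43_d46_d42_d5c_d43_d23_1 := p_wQ_26_wN_1_rb8033094a_d43_d46_d42_d5c_d43_d23_1 g__wQ_26_wN_1_rb8033094a_d43_d46_d42_d5c_d43_d23_2 g__wQ_26_wN_1_rb8033094a_d43_d46_d42_d5c_d43_d23_3

theorem g_wQ_26_wN_1_rb8033094a_d43_d46_d42_d5c_d43_d23x3 : GoodKC AS c_wQ_26_wN_1_rb8033094a_d43_d46_d42_d5c_d43_d23x3 := p_wQ_26_wN_1_rb8033094a_d43_d46_d42_d5c_d43_d23 g__wQ_26_wN_1_rb8033094a_d43_d46_d42_d5c_d43_d23_0 g__wQ_26_wN_1_rb8033094a_d43_d46_d42_d5c_d43_d23_1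

theorem g_wQ_26_wN_1_rb8033094a_d43_d46_d42_d5c_d43_d24x3 : GoodKC AS c_wQ_26_wN_1_rb8033094a_d43_d46_d42_d5c_d43_d24x3 := p_wQ_26_wN_1_rb8033094a_d43_d46_d42_d5c_d43_d24

theorem g_wQ_26_wN_1_rb8033094a_d43_d46_d42_d5c_d43_d27x3 : GoodKC AS c_wQ_26_wN_1_rb8033094a_d43_d46_d42_d5c_d43_d27x3 := p_wQ_26_wN_1_rb8033094a_d43_d46_d42_d5c_d43_d27

theorem g_wQ_26_wN_1_rb8033094a_d43_d46_d42_d5c_d43_d28x3 : GoodKC AS c_wQ_26_wN_1_rb8033094a_d43_d46_d42_d5c_d43_d28x3 := p_wQ_26_wN_1_rb8033094a_d43_d46_d42_d5c_d43_d28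

theorem g__wQ_26_wN_1_rb8033094a_d43_d46_d42_d5c_d43_d2b_0 : GoodKC AS k_wQ_26_wN_1_rb8033094a_d43_d46_d42_d5c_d43_d2b_0 := p_wQ_26_wN_1_rb8033094a_d43_d46_d42_d5c_d43_d2b_0

theorem g_wQ_26_wN_1_rb8033094a_d43_d46_d42_d5c_d43_d2bx3 : GoodKC AS c_wQ_26_wN_1_rb8033094a_d43_d46_d42_d5c_d43_d2bx3 := p_wQ_26_wN_1_rb8033094a_d43_d46_d42_d5c_d43_d2b g__wQ_26_wN_1_rb8033094a_d43_d46_d42_d5c_d43_d2b_0

theorem g_wQ_26_wN_1_rb8033094a_d43_d46_d42_d5cx8 : GoodKC AS c_wQ_26_wN_1_rb8033094a_d43_d46_d42_d5cx8 := p_wQ_26_wN_1_rb8033094a_d43_d46_d42_d5cx3 g_wQ_26_wN_1_rb8033094a_d43_d46_d42_d5c_d43_d33x3 g_wQ_26_wN_1_rb8033094a_d43_d46_d42_d5c_d43_d32x3 g_wQ_26_wN_1_rb8033094a_d43_d46_d42_d5c_d43_d31x3 g_wQ_26_wN_1_rb8033094a_d43_d46_d42_d5c_d43_d30x3 g_wQ_26_wN_1_rb8033094a_d43_d46_d42_d5c_d43_d2fx3 g_wQ_26_wN_1_rb8033094a_d43_d46_d42_d5c_d43_d2ex3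 g_wQ_26_wN_1_rb8033094a_d43_d46_d42_d5c_d43_d2dx3 g_wQ_26_wN_1_rb8033094a_d43_d46_d42_d5c_d43_d2cx3 g_wQ_26_wN_1_rb8033094a_d43_d46_d42_d5c_d43_d2ax3 g_wQ_26_wN_1_rb8033094a_d43_d46_d42_d5c_d43_d29x3 g_wQ_26_wN_1_rb8033094a_d43_d46_d42_d5c_d43_d26x3 g_wQ_26_wN_1_rb8033094a_d43_d46_d42_d5c_d43_d25x3 g_wQ_26_wN_1_rb8033094a_d43_d46_d42_d5c_d43_d22x3 g_wQ_26_wN_1_rb8033094a_d43_d46_d42_d5c_d43_d20x3 g_wQ_26_wN_1_rb8033094a_d43_d46_d42_d5c_d43_d1ex3 g_wQ_26_wN_1_rb8033094a_d43_d46_d42_d5c_d43_d1dx3 g_wQ_26_wN_1_rb8033094a_d43_d46_d42_d5c_d43_d19x3 g_wQ_26_wN_1_rb8033094a_d43_d46_d42_d5c_d43_d17x3 g_wQ_26_wN_1_rb8033094a_d43_d46_d42_d5c_d43_d14x3 g_wQ_26_wN_1_rb8033094a_d43_d46_d42_d5c_d43_d12x3 g_wQ_26_wN_1_rb8033094a_d43_d46_d42_d5c_d43_d0fx3 g_wQ_26_wN_1_rb8033094a_d43_d46_d42_d5c_d43_d0ex3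 g_wQ_26_wN_1_rb8033094a_d43_d46_d42_d5c_d43_d0dx3 g__wQ_26_wN_1_rb8033094a_d43_d46_d42_d5cx3_0 g_wQ_26_wN_1_rb8033094a_d43_d46_d42_d5c_d43_d09x3 g_wQ_26_wN_1_rb8033094a_d43_d46_d42_d5c_d43_d07x3 g_wQ_26_wN_1_rb8033094a_d43_d46_d42_d5c_d43_d06x3 g_wQ_26_wN_1_rb8033094a_d43_d46_d42_d5c_d43_d03x3 g_wQ_26_wN_1_rb8033094a_d43_d46_d42_d5c_d43_d02x3 g_wQ_26_wN_1_rb8033094a_d43_d46_d42_d5c_d43_d00x3 g_wQ_26_wN_1_rb8033094a_d43_d46_d42_d5c_d43_d01x3 g_wQ_26_wN_1_rb8033094a_d43_d46_d42_d5c_d43_d04x3 g_wQ_26_wN_1_rb8033094a_d43_d46_d42_d5c_d43_d05x3 g_wQ_26_wN_1_rb8033094a_d43_d46_d42_d5c_d43_d08x3 g_wQ_26_wN_1_rb8033094a_d43_d46_d42_d5c_d43_d0ax3 g_wQ_26_wN_1_rb8033094a_d43_d46_d42_d5c_d43_d0bx3 g_wQ_26_wN_1_rb8033094a_d43_d46_d42_d5c_d43_d0cx3 g_wQ_26_wN_1_rb8033094a_d43_d46_d42_d5c_d43_d10x3 g_wQ_26_wN_1_rb8033094a_d43_d46_d42_d5c_d43_d11x3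 g_wQ_26_wN_1_rb8033094a_d43_d46_d42_d5c_d43_d13x3 g_wQ_26_wN_1_rb8033094a_d43_d46_d42_d5c_d43_d15x3 g_wQ_26_wN_1_rb8033094a_d43_d46_d42_d5c_d43_d16x3 g_wQ_26_wN_1_rb8033094a_d43_d46_d42_d5c_d43_d18x3 g_wQ_26_wN_1_rb8033094a_d43_d46_d42_d5c_d43_d1ax3 g_wQ_26_wN_1_rb8033094a_d43_d46_d42_d5c_d43_d1bx3 g_wQ_26_wN_1_rb8033094a_d43_d46_d42_d5c_d43_d1cx3 g_wQ_26_wN_1_rb8033094a_d43_d46_d42_d5c_d43_d1fx3 g_wQ_26_wN_1_rb8033094a_d43_d46_d42_d5c_d43_d21x3 g_wQ_26_wN_1_rb8033094a_d43_d46_d42_d5c_d43_d23x3 g_wQ_26_wN_1_rb8033094a_d43_d46_d42_d5c_d43_d24x3 g_wQ_26_wN_1_rb8033094a_d43_d46_d42_d5c_d43_d27x3 g_wQ_26_wN_1_rb8033094a_d43_d46_d42_d5c_d43_d28x3 g_wQ_26_wN_1_rb8033094a_d43_d46_d42_d5c_d43_d2bx3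

theorem g_wQ_26_wN_1_rb8033094a_d43_d46_d42_d5ex8 : GoodKC AS c_wQ_26_wN_1_rb8033094a_d43_d46_d42_d5ex8 := p_wQ_26_wN_1_rb8033094a_d43_d46_d42_d5ex2

theorem g_wQ_26_wN_1_rb8033094a_d43_d46_d42_d60x8 : GoodKC AS c_wQ_26_wN_1_rb8033094a_d43_d46_d42_d60x8 := p_wQ_26_wN_1_rb8033094a_d43_d46_d42_d60x3

theorem g_wQ_26_wN_1_rb8033094a_d43_d46_d42_d69x8 : GoodKC AS c_wQ_26_wN_1_rb8033094a_d43_d46_d42_d69x8 := p_wQ_26_wN_1_rb8033094a_d43_d46_d42_d69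

theorem g_wQ_26_wN_1_rb8033094a_d43_d46_d42_d6bx8 : GoodKC AS c_wQ_26_wN_1_rb8033094a_d43_d46_d42_d6bx8 := p_wQ_26_wN_1_rb8033094a_d43_d46_d42_d6bx3

theorem g_wQ_26_wN_1_rb8033094a_d43_d46x2 : GoodKC AS c_wQ_26_wN_1_rb8033094a_d43_d46x2 := p_wQ_26_wN_1_rb8033094a_d43_d46x8 g_wQ_26_wN_1_rb8033094a_d43_d46_d42_d6cx8 g_wQ_26_wN_1_rb8033094a_d43_d46_d42_d6ax8 g_wQ_26_wN_1_rb8033094a_d43_d46_d42_d68x8 g_wQ_26_wN_1_rb8033094a_d43_d46_d42_d67x8 g_wQ_26_wN_1_rb8033094a_d43_d46_d42_d66x8 g_wQ_26_wN_1_rb8033094a_d43_d46_d42_d65x8 g_wQ_26_wN_1_rb8033094a_d43_d46_d42_d64x8 g_wQ_26_wN_1_rb8033094a_d43_d46_d42_d63x8 g_wQ_26_wN_1_rb8033094a_d43_d46_d42_d62x8 g_wQ_26_wN_1_rb8033094a_d43_d46_d42_d61x8 g_wQ_26_wN_1_rb8033094a_d43_d46_d42_d5fx8 g_wQ_26_wN_1_rb8033094a_d43_d46_d42_d5dx8 g_wQ_26_wN_1_rb8033094a_d43_d46_d42_d5bx8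 g_wQ_26_wN_1_rb8033094a_d43_d46_d42_d59x8 g_wQ_26_wN_1_rb8033094a_d43_d46_d42_d55x8 g_wQ_26_wN_1_rb8033094a_d43_d46_d42_d54x8 g_wQ_26_wN_1_rb8033094a_d43_d46_d42_d51x8 g_wQ_26_wN_1_rb8033094a_d43_d46_d42_d4fx8 g_wQ_26_wN_1_rb8033094a_d43_d46_d42_d4ex8 g_wQ_26_wN_1_rb8033094a_d43_d46_d42_d4cx8 g_wQ_26_wN_1_rb8033094a_d43_d46_d42_d4bx8 g_wQ_26_wN_1_rb8033094a_d43_d46_d42_d4ax8 g_wQ_26_wN_1_rb8033094a_d43_d46_d42_d48x8 g_wQ_26_wN_1_rb8033094a_d43_d46_d42_d46x8 g_wQ_26_wN_1_rb8033094a_d43_d46_d42_d45x8 g_wQ_26_wN_1_rb8033094a_d43_d46_d42_d43x8 g_wQ_26_wN_1_rb8033094a_d43_d46_d42_d42x8 g_wQ_26_wN_1_rb8033094a_d43_d46_d42_d40x8 g_wQ_26_wN_1_rb8033094a_d43_d46_d42_d3cx8 g_wQ_26_wN_1_rb8033094a_d43_d46_d42_d3bx8 g_wQ_26_wN_1_rb8033094a_d43_d46_d42_d3ax8 g_wQ_26_wN_1_rb8033094a_d43_d46_d42_d39x8 g_wQ_26_wN_1_rb8033094a_d43_d46_d42_d38x8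 g_wQ_26_wN_1_rb8033094a_d43_d46_d42_d37x8 g_wQ_26_wN_1_rb8033094a_d43_d46_d42_d35x8 g_wQ_26_wN_1_rb8033094a_d43_d46_d42_d34x8 g_wQ_26_wN_1_rb8033094a_d43_d46_d42_d33x8 g_wQ_26_wN_1_rb8033094a_d43_d46_d42_d31x8 g_wQ_26_wN_1_rb8033094a_d43_d46_d42_d2fx8 g_wQ_26_wN_1_rb8033094a_d43_d46_d42_d2ex8 g_wQ_26_wN_1_rb8033094a_d43_d46_d42_d2bx8 g_wQ_26_wN_1_rb8033094a_d43_d46_d42_d2ax8 g_wQ_26_wN_1_rb8033094a_d43_d46_d42_d29x8 g_wQ_26_wN_1_rb8033094a_d43_d46_d42_d26x8 g_wQ_26_wN_1_rb8033094a_d43_d46_d42_d23x8 g_wQ_26_wN_1_rb8033094a_d43_d46_d42_d21x8 g_wQ_26_wN_1_rb8033094a_d43_d46_d42_d1dx8 g_wQ_26_wN_1_rb8033094a_d43_d46_d42_d1cx8 g_wQ_26_wN_1_rb8033094a_d43_d46_d42_d1ax8 g_wQ_26_wN_1_rb8033094a_d43_d46_d42_d19x8 g_wQ_26_wN_1_rb8033094a_d43_d46_d42_d17x8 g_wQ_26_wN_1_rb8033094a_d43_d46_d42_d15x8 g_wQ_26_wN_1_rb8033094a_d43_d46_d42_d14x8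 g_wQ_26_wN_1_rb8033094a_d43_d46_d42_d12x8 g_wQ_26_wN_1_rb8033094a_d43_d46_d42_d11x8 g_wQ_26_wN_1_rb8033094a_d43_d46_d42_d10x8 g_wQ_26_wN_1_rb8033094a_d43_d46_d42_d0fx8 g_wQ_26_wN_1_rb8033094a_d43_d46_d42_d0ex8 g_wQ_26_wN_1_rb8033094a_d43_d46_d42_d0dx8 g_wQ_26_wN_1_rb8033094a_d43_d46_d42_d0cx8 g_wQ_26_wN_1_rb8033094a_d43_d46_d42_d0bx8 g_wQ_26_wN_1_rb8033094a_d43_d46_d42_d08x8 g_wQ_26_wN_1_rb8033094a_d43_d46_d42_d07x8 g_wQ_26_wN_1_rb8033094a_d43_d46_d42_d06x8 g_wQ_26_wN_1_rb8033094a_d43_d46_d42_d04x8 g_wQ_26_wN_1_rb8033094a_d43_d46_d42_d03x8 g_wQ_26_wN_1_rb8033094a_d43_d46_d42_d01x8 g_wQ_26_wN_1_rb8033094a_d43_d46_d42_d00x8 g_wQ_26_wN_1_rb8033094a_d43_d46_d42_d02x8 g_wQ_26_wN_1_rb8033094a_d43_d46_d42_d05x8 g_wQ_26_wN_1_rb8033094a_d43_d46_d42_d09x8 g_wQ_26_wN_1_rb8033094a_d43_d46_d42_d0ax8 g_wQ_26_wN_1_rb8033094a_d43_d46_d42_d13x8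 g_wQ_26_wN_1_rb8033094a_d43_d46_d42_d16x8 g_wQ_26_wN_1_rb8033094a_d43_d46_d42_d18x8 g_wQ_26_wN_1_rb8033094a_d43_d46_d42_d1bx8 g_wQ_26_wN_1_rb8033094a_d43_d46_d42_d1ex8 g_wQ_26_wN_1_rb8033094a_d43_d46_d42_d1fx8 g_wQ_26_wN_1_rb8033094a_d43_d46_d42_d20x8 g_wQ_26_wN_1_rb8033094a_d43_d46_d42_d22x8 g_wQ_26_wN_1_rb8033094a_d43_d46_d42_d24x8 g_wQ_26_wN_1_rb8033094a_d43_d46_d42_d25x8 g_wQ_26_wN_1_rb8033094a_d43_d46_d42_d27x8 g_wQ_26_wN_1_rb8033094a_d43_d46_d42_d28x8 g_wQ_26_wN_1_rb8033094a_d43_d46_d42_d2cx8 g_wQ_26_wN_1_rb8033094a_d43_d46_d42_d2dx8 g_wQ_26_wN_1_rb8033094a_d43_d46_d42_d30x8 g_wQ_26_wN_1_rb8033094a_d43_d46_d42_d32x8 g_wQ_26_wN_1_rb8033094a_d43_d46_d42_d36x8 g_wQ_26_wN_1_rb8033094a_d43_d46_d42_d3dx8 g_wQ_26_wN_1_rb8033094a_d43_d46_d42_d3ex8 g_wQ_26_wN_1_rb8033094a_d43_d46_d42_d3fx8 g_wQ_26_wN_1_rb8033094a_d43_d46_d42_d41x8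 g_wQ_26_wN_1_rb8033094a_d43_d46_d42_d44x8 g_wQ_26_wN_1_rb8033094a_d43_d46_d42_d47x8 g_wQ_26_wN_1_rb8033094a_d43_d46_d42_d49x8 g_wQ_26_wN_1_rb8033094a_d43_d46_d42_d4dx8 g_wQ_26_wN_1_rb8033094a_d43_d46_d42_d50x8 g_wQ_26_wN_1_rb8033094a_d43_d46_d42_d52x8 g_wQ_26_wN_1_rb8033094a_d43_d46_d42_d53x8 g_wQ_26_wN_1_rb8033094a_d43_d46_d42_d56x8 g_wQ_26_wN_1_rb8033094a_d43_d46_d42_d57x8 g_wQ_26_wN_1_rb8033094a_d43_d46_d42_d58x8 g_wQ_26_wN_1_rb8033094a_d43_d46_d42_d5ax8 g_wQ_26_wN_1_rb8033094a_d43_d46_d42_d5cx8 g_wQ_26_wN_1_rb8033094a_d43_d46_d42_d5ex8 g_wQ_26_wN_1_rb8033094a_d43_d46_d42_d60x8 g_wQ_26_wN_1_rb8033094a_d43_d46_d42_d69x8 g_wQ_26_wN_1_rb8033094a_d43_d46_d42_d6bx8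

theorem g__wQ_26_wN_1_rb8033094a_d43_d45x2_0 : GoodKC AS k_wQ_26_wN_1_rb8033094a_d43_d45x2_0 := p_wQ_26_wN_1_rb8033094a_d43_d45x2_0

theorem g_wQ_26_wN_1_rb8033094a_d43_d45x2 : GoodKC AS c_wQ_26_wN_1_rb8033094a_d43_d45x2 := p_wQ_26_wN_1_rb8033094a_d43_d45x2 g__wQ_26_wN_1_rb8033094a_d43_d45x2_0

theorem g_wQ_26_wN_1_rb8033094a_d43_d43x2 : GoodKC AS c_wQ_26_wN_1_rb8033094a_d43_d43x2 := p_wQ_26_wN_1_rb8033094a_d43_d43x2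

theorem g_wQ_26_wN_1_rb8033094a_d43_d40x2 : GoodKC AS c_wQ_26_wN_1_rb8033094a_d43_d40x2 := p_wQ_26_wN_1_rb8033094a_d43_d40x2

theorem g__wQ_26_wN_1_rb8033094a_d43_d3ex2_1 : GoodKC AS k_wQ_26_wN_1_rb8033094a_d43_d3ex2_1 := p_wQ_26_wN_1_rb8033094a_d43_d3ex2_1

theorem g__wQ_26_wN_1_rb8033094a_d43_d3ex2_0 : GoodKC AS k_wQ_26_wN_1_rb8033094a_d43_d3ex2_0 := p_wQ_26_wN_1_rb8033094a_d43_d3ex2_0 g__wQ_26_wN_1_rb8033094a_d43_d3ex2_1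

theorem g__wQ_26_wN_1_rb8033094a_d43_d3ex2_5 : GoodKC AS k_wQ_26_wN_1_rb8033094a_d43_d3ex2_5 := p_wQ_26_wN_1_rb8033094a_d43_d3ex2_5

theorem g__wQ_26_wN_1_rb8033094a_d43_d3ex2_6 : GoodKC AS k_wQ_26_wN_1_rb8033094a_d43_d3ex2_6 := p_wQ_26_wN_1_rb8033094a_d43_d3ex2_6

theorem g__wQ_26_wN_1_rb8033094a_d43_d3ex2_4 : GoodKC AS k_wQ_26_wN_1_rb8033094a_d43_d3ex2_4 := p_wQ_26_wN_1_rb8033094a_d43_d3ex2_4 g__wQ_26_wN_1_rb8033094a_d43_d3ex2_5 g__wQ_26_wN_1_rb8033094a_d43_d3ex2_6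

theorem g__wQ_26_wN_1_rb8033094a_d43_d3ex2_3 : GoodKC AS k_wQ_26_wN_1_rb8033094a_d43_d3ex2_3 := p_wQ_26_wN_1_rb8033094a_d43_d3ex2_3 g__wQ_26_wN_1_rb8033094a_d43_d3ex2_4

theorem g__wQ_26_wN_1_rb8033094a_d43_d3ex2_8 : GoodKC AS k_wQ_26_wN_1_rb8033094a_d43_d3ex2_8 := p_wQ_26_wN_1_rb8033094a_d43_d3ex2_8

theorem g__wQ_26_wN_1_rb8033094a_d43_d3ex2_7 : GoodKC AS k_wQ_26_wN_1_rb8033094a_d43_d3ex2_7 := p_wQ_26_wN_1_rb8033094a_d43_d3ex2_7 g__wQ_26_wN_1_rb8033094a_d43_d3ex2_8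

theorem g__wQ_26_wN_1_rb8033094a_d43_d3ex2_9 : GoodKC AS k_wQ_26_wN_1_rb8033094a_d43_d3ex2_9 := p_wQ_26_wN_1_rb8033094a_d43_d3ex2_9

theorem g__wQ_26_wN_1_rb8033094a_d43_d3ex2_2 : GoodKC AS k_wQ_26_wN_1_rb8033094a_d43_d3ex2_2 := p_wQ_26_wN_1_rb8033094a_d43_d3ex2_2 g__wQ_26_wN_1_rb8033094a_d43_d3ex2_3 g__wQ_26_wN_1_rb8033094a_d43_d3ex2_7 g__wQ_26_wN_1_rb8033094a_d43_d3ex2_9

theorem g__wQ_26_wN_1_rb8033094a_d43_d3ex2_14 : GoodKC AS k_wQ_26_wN_1_rb8033094a_d43_d3ex2_14 := p_wQ_26_wN_1_rb8033094a_d43_d3ex2_14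

theorem g__wQ_26_wN_1_rb8033094a_d43_d3ex2_13 : GoodKC AS k_wQ_26_wN_1_rb8033094a_d43_d3ex2_13 := p_wQ_26_wN_1_rb8033094a_d43_d3ex2_13 g__wQ_26_wN_1_rb8033094a_d43_d3ex2_14

theorem g__wQ_26_wN_1_rb8033094a_d43_d3ex2_12 : GoodKC AS k_wQ_26_wN_1_rb8033094a_d43_d3ex2_12 := p_wQ_26_wN_1_rb8033094a_d43_d3ex2_12 g__wQ_26_wN_1_rb8033094a_d43_d3ex2_13

theorem g__wQ_26_wN_1_rb8033094a_d43_d3ex2_11 : GoodKC AS k_wQ_26_wN_1_rb8033094a_d43_d3ex2_11 := p_wQ_26_wN_1_rb8033094a_d43_d3ex2_11 g__wQ_26_wN_1_rb8033094a_d43_d3ex2_12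

theorem g__wQ_26_wN_1_rb8033094a_d43_d3ex2_15 : GoodKC AS k_wQ_26_wN_1_rb8033094a_d43_d3ex2_15 := p_wQ_26_wN_1_rb8033094a_d43_d3ex2_15

theorem g__wQ_26_wN_1_rb8033094a_d43_d3ex2_10 : GoodKC AS k_wQ_26_wN_1_rb8033094a_d43_d3ex2_10 := p_wQ_26_wN_1_rb8033094a_d43_d3ex2_10 g__wQ_26_wN_1_rb8033094a_d43_d3ex2_11 g__wQ_26_wN_1_rb8033094a_d43_d3ex2_15

theorem g_wQ_26_wN_1_rb8033094a_d43_d3ex2 : GoodKC AS c_wQ_26_wN_1_rb8033094a_d43_d3ex2 := p_wQ_26_wN_1_rb8033094a_d43_d3ex2 g__wQ_26_wN_1_rb8033094a_d43_d3ex2_0 g__wQ_26_wN_1_rb8033094a_d43_d3ex2_2 g__wQ_26_wN_1_rb8033094a_d43_d3ex2_10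

theorem g_wQ_26_wN_1_rb8033094a_d43_d3b2dx13 : GoodKC AS c_wQ_26_wN_1_rb8033094a_d43_d3b2dx13 := p_wQ_26_wN_1_rb8033094a_d43_d3b2dx6

theorem g_wQ_26_wN_1_rb8033094a_d43_d3b2cx13 : GoodKC AS c_wQ_26_wN_1_rb8033094a_d43_d3b2cx13 := p_wQ_26_wN_1_rb8033094a_d43_d3b2cx6

theorem g__wQ_26_wN_1_rb8033094a_d43_d3b2ax6_0 : GoodKC AS k_wQ_26_wN_1_rb8033094a_d43_d3b2ax6_0 := p_wQ_26_wN_1_rb8033094a_d43_d3b2ax6_0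

theorem g_wQ_26_wN_1_rb8033094a_d43_d3b2ax13 : GoodKC AS c_wQ_26_wN_1_rb8033094a_d43_d3b2ax13 := p_wQ_26_wN_1_rb8033094a_d43_d3b2ax6 g__wQ_26_wN_1_rb8033094a_d43_d3b2ax6_0

theorem g__wQ_26_wN_1_rb8033094a_d43_d3b29x6_0 : GoodKC AS k_wQ_26_wN_1_rb8033094a_d43_d3b29x6_0 := p_wQ_26_wN_1_rb8033094a_d43_d3b29x6_0

theorem g_wQ_26_wN_1_rb8033094a_d43_d3b29x13 : GoodKC AS c_wQ_26_wN_1_rb8033094a_d43_d3b29x13 := p_wQ_26_wN_1_rb8033094a_d43_d3b29x6 g__wQ_26_wN_1_rb8033094a_d43_d3b29x6_0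

theorem g_wQ_26_wN_1_rb8033094a_d43_d3b27x13 : GoodKC AS c_wQ_26_wN_1_rb8033094a_d43_d3b27x13 := p_wQ_26_wN_1_rb8033094a_d43_d3b27x6

theorem g_wQ_26_wN_1_rb8033094a_d43_d3b26x13 : GoodKC AS c_wQ_26_wN_1_rb8033094a_d43_d3b26x13 := p_wQ_26_wN_1_rb8033094a_d43_d3b26x6

theorem g_wQ_26_wN_1_rb8033094a_d43_d3b21x13 : GoodKC AS c_wQ_26_wN_1_rb8033094a_d43_d3b21x13 := p_wQ_26_wN_1_rb8033094a_d43_d3b21x6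

theorem g__wQ_26_wN_1_rb8033094a_d43_d3b20v6_3 : GoodKC AS k_wQ_26_wN_1_rb8033094a_d43_d3b20v6_3 := p_wQ_26_wN_1_rb8033094a_d43_d3b20v6_3

theorem g__wQ_26_wN_1_rb8033094a_d43_d3b20v6_5 : GoodKC AS k_wQ_26_wN_1_rb8033094a_d43_d3b20v6_5 := p_wQ_26_wN_1_rb8033094a_d43_d3b20v6_5

theorem g__wQ_26_wN_1_rb8033094a_d43_d3b20v6_4 : GoodKC AS k_wQ_26_wN_1_rb8033094a_d43_d3b20v6_4 := p_wQ_26_wN_1_rb8033094a_d43_d3b20v6_4 g__wQ_26_wN_1_rb8033094a_d43_d3b20v6_5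

theorem g__wQ_26_wN_1_rb8033094a_d43_d3b20v6_7 : GoodKC AS k_wQ_26_wN_1_rb8033094a_d43_d3b20v6_7 := p_wQ_26_wN_1_rb8033094a_d43_d3b20v6_7

theorem g__wQ_26_wN_1_rb8033094a_d43_d3b20v6_6 : GoodKC AS k_wQ_26_wN_1_rb8033094a_d43_d3b20v6_6 := p_wQ_26_wN_1_rb8033094a_d43_d3b20v6_6 g__wQ_26_wN_1_rb8033094a_d43_d3b20v6_7

theorem g__wQ_26_wN_1_rb8033094a_d43_d3b20v6_2 : GoodKC AS k_wQ_26_wN_1_rb8033094a_d43_d3b20v6_2 := p_wQ_26_wN_1_rb8033094a_d43_d3b20v6_2 g__wQ_26_wN_1_rb8033094a_d43_d3b20v6_3 g__wQ_26_wN_1_rb8033094a_d43_d3b20v6_4 g__wQ_26_wN_1_rb8033094a_d43_d3b20v6_6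

theorem g__wQ_26_wN_1_rb8033094a_d43_d3b20v6_1 : GoodKC AS k_wQ_26_wN_1_rb8033094a_d43_d3b20v6_1 := p_wQ_26_wN_1_rb8033094a_d43_d3b20v6_1 g__wQ_26_wN_1_rb8033094a_d43_d3b20v6_2

theorem g__wQ_26_wN_1_rb8033094a_d43_d3b20v6_8 : GoodKC AS k_wQ_26_wN_1_rb8033094a_d43_d3b20v6_8 := p_wQ_26_wN_1_rb8033094a_d43_d3b20v6_8

theorem g__wQ_26_wN_1_rb8033094a_d43_d3b20v6_0 : GoodKC AS k_wQ_26_wN_1_rb8033094a_d43_d3b20v6_0 := p_wQ_26_wN_1_rb8033094a_d43_d3b20v6_0 g__wQ_26_wN_1_rb8033094a_d43_d3b20v6_1 g__wQ_26_wN_1_rb8033094a_d43_d3b20v6_8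

theorem g_wQ_26_wN_1_rb8033094a_d43_d3b2004x6 : GoodKC AS c_wQ_26_wN_1_rb8033094a_d43_d3b2004x6 := p_wQ_26_wN_1_rb8033094a_d43_d3b2004x2

theorem g_wQ_26_wN_1_rb8033094a_d43_d3b2001x6 : GoodKC AS c_wQ_26_wN_1_rb8033094a_d43_d3b2001x6 := p_wQ_26_wN_1_rb8033094a_d43_d3b2001x5

theorem g_wQ_26_wN_1_rb8033094a_d43_d3b2000x6 : GoodKC AS c_wQ_26_wN_1_rb8033094a_d43_d3b2000x6 := p_wQ_26_wN_1_rb8033094a_d43_d3b2000x5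

theorem g_wQ_26_wN_1_rb8033094a_d43_d3b2002x6 : GoodKC AS c_wQ_26_wN_1_rb8033094a_d43_d3b2002x6 := p_wQ_26_wN_1_rb8033094a_d43_d3b2002x1

theorem g_wQ_26_wN_1_rb8033094a_d43_d3b2003x6 : GoodKC AS c_wQ_26_wN_1_rb8033094a_d43_d3b2003x6 := p_wQ_26_wN_1_rb8033094a_d43_d3b2003x1

theorem g_wQ_26_wN_1_rb8033094a_d43_d3b2005x6 : GoodKC AS c_wQ_26_wN_1_rb8033094a_d43_d3b2005x6 := p_wQ_26_wN_1_rb8033094a_d43_d3b2005x4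

theorem g_wQ_26_wN_1_rb8033094a_d43_d3b20x13 : GoodKC AS c_wQ_26_wN_1_rb8033094a_d43_d3b20x13 := p_wQ_26_wN_1_rb8033094a_d43_d3b20x6 g__wQ_26_wN_1_rb8033094a_d43_d3b20v6_0 g_wQ_26_wN_1_rb8033094a_d43_d3b2004x6 g_wQ_26_wN_1_rb8033094a_d43_d3b2001x6 g_wQ_26_wN_1_rb8033094a_d43_d3b2000x6 g_wQ_26_wN_1_rb8033094a_d43_d3b2002x6 g_wQ_26_wN_1_rb8033094a_d43_d3b2003x6 g_wQ_26_wN_1_rb8033094a_d43_d3b2005x6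

theorem g_wQ_26_wN_1_rb8033094a_d43_d3b1fx13 : GoodKC AS c_wQ_26_wN_1_rb8033094a_d43_d3b1fx13 := p_wQ_26_wN_1_rb8033094a_d43_d3b1fx6

theorem g_wQ_26_wN_1_rb8033094a_d43_d3b1d1bx5 : GoodKC AS c_wQ_26_wN_1_rb8033094a_d43_d3b1d1bx5 := p_wQ_26_wN_1_rb8033094a_d43_d3b1d1bx4

theorem g__wQ_26_wN_1_rb8033094a_d43_d3b1d19x3_1 : GoodKC AS k_wQ_26_wN_1_rb8033094a_d43_d3b1d19x3_1 := p_wQ_26_wN_1_rb8033094a_d43_d3b1d19x3_1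

theorem g__wQ_26_wN_1_rb8033094a_d43_d3b1d19x3_4 : GoodKC AS k_wQ_26_wN_1_rb8033094a_d43_d3b1d19x3_4 := p_wQ_26_wN_1_rb8033094a_d43_d3b1d19x3_4

theorem g__wQ_26_wN_1_rb8033094a_d43_d3b1d19x3_3 : GoodKC AS k_wQ_26_wN_1_rb8033094a_d43_d3b1d19x3_3 := p_wQ_26_wN_1_rb8033094a_d43_d3b1d19x3_3 g__wQ_26_wN_1_rb8033094a_d43_d3b1d19x3_4

theorem g__wQ_26_wN_1_rb8033094a_d43_d3b1d19x3_2 : GoodKC AS k_wQ_26_wN_1_rb8033094a_d43_d3b1d19x3_2 := p_wQ_26_wN_1_rb8033094a_d43_d3b1d19x3_2 g__wQ_26_wN_1_rb8033094a_d43_d3b1d19x3_3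

theorem g__wQ_26_wN_1_rb8033094a_d43_d3b1d19x3_0 : GoodKC AS k_wQ_26_wN_1_rb8033094a_d43_d3b1d19x3_0 := p_wQ_26_wN_1_rb8033094a_d43_d3b1d19x3_0 g__wQ_26_wN_1_rb8033094a_d43_d3b1d19x3_1 g__wQ_26_wN_1_rb8033094a_d43_d3b1d19x3_2

theorem g_wQ_26_wN_1_rb8033094a_d43_d3b1d19x5 : GoodKC AS c_wQ_26_wN_1_rb8033094a_d43_d3b1d19x5 := p_wQ_26_wN_1_rb8033094a_d43_d3b1d19x3 g__wQ_26_wN_1_rb8033094a_d43_d3b1d19x3_0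

theorem g_wQ_26_wN_1_rb8033094a_d43_d3b1d18x5 : GoodKC AS c_wQ_26_wN_1_rb8033094a_d43_d3b1d18x5 := p_wQ_26_wN_1_rb8033094a_d43_d3b1d18x4

theorem g_wQ_26_wN_1_rb8033094a_d43_d3b1d17x5 : GoodKC AS c_wQ_26_wN_1_rb8033094a_d43_d3b1d17x5 := p_wQ_26_wN_1_rb8033094a_d43_d3b1d17x3

theorem g_wQ_26_wN_1_rb8033094a_d43_d3b1d15x5 : GoodKC AS c_wQ_26_wN_1_rb8033094a_d43_d3b1d15x5 := p_wQ_26_wN_1_rb8033094a_d43_d3b1d15x3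

theorem g_wQ_26_wN_1_rb8033094a_d43_d3b1d12x5 : GoodKC AS c_wQ_26_wN_1_rb8033094a_d43_d3b1d12x5 := p_wQ_26_wN_1_rb8033094a_d43_d3b1d12x4

theorem g_wQ_26_wN_1_rb8033094a_d43_d3b1d11x5 : GoodKC AS c_wQ_26_wN_1_rb8033094a_d43_d3b1d11x5 := p_wQ_26_wN_1_rb8033094a_d43_d3b1d11x4

theorem g_wQ_26_wN_1_rb8033094a_d43_d3b1d10x5 : GoodKC AS c_wQ_26_wN_1_rb8033094a_d43_d3b1d10x5 := p_wQ_26_wN_1_rb8033094a_d43_d3b1d10x4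

theorem g_wQ_26_wN_1_rb8033094a_d43_d3b1d0f23x1 : GoodKC AS c_wQ_26_wN_1_rb8033094a_d43_d3b1d0f23x1 := p_wQ_26_wN_1_rb8033094a_d43_d3b1d0f23x1

theorem g__wQ_26_wN_1_rb8033094a_d43_d3b1d0f21x1_0 : GoodKC AS k_wQ_26_wN_1_rb8033094a_d43_d3b1d0f21x1_0 := p_wQ_26_wN_1_rb8033094a_d43_d3b1d0f21x1_0

theorem g__wQ_26_wN_1_rb8033094a_d43_d3b1d0f21x1_1 : GoodKC AS k_wQ_26_wN_1_rb8033094a_d43_d3b1d0f21x1_1 := p_wQ_26_wN_1_rb8033094a_d43_d3b1d0f21x1_1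

theorem g_wQ_26_wN_1_rb8033094a_d43_d3b1d0f21x1 : GoodKC AS c_wQ_26_wN_1_rb8033094a_d43_d3b1d0f21x1 := p_wQ_26_wN_1_rb8033094a_d43_d3b1d0f21x1 g__wQ_26_wN_1_rb8033094a_d43_d3b1d0f21x1_0 g__wQ_26_wN_1_rb8033094a_d43_d3b1d0f21x1_1

theorem g_wQ_26_wN_1_rb8033094a_d43_d3b1d0f20x1 : GoodKC AS c_wQ_26_wN_1_rb8033094a_d43_d3b1d0f20x1 := p_wQ_26_wN_1_rb8033094a_d43_d3b1d0f20x1

theorem g__wQ_26_wN_1_rb8033094a_d43_d3b1d0f1dx1_0 : GoodKC AS k_wQ_26_wN_1_rb8033094a_d43_d3b1d0f1dx1_0 := p_wQ_26_wN_1_rb8033094a_d43_d3b1d0f1dx1_0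

theorem g__wQ_26_wN_1_rb8033094a_d43_d3b1d0f1dx1_1 : GoodKC AS k_wQ_26_wN_1_rb8033094a_d43_d3b1d0f1dx1_1 := p_wQ_26_wN_1_rb8033094a_d43_d3b1d0f1dx1_1

theorem g_wQ_26_wN_1_rb8033094a_d43_d3b1d0f1dx1 : GoodKC AS c_wQ_26_wN_1_rb8033094a_d43_d3b1d0f1dx1 := p_wQ_26_wN_1_rb8033094a_d43_d3b1d0f1dx1 g__wQ_26_wN_1_rb8033094a_d43_d3b1d0f1dx1_0 g__wQ_26_wN_1_rb8033094a_d43_d3b1d0f1dx1_1

theorem g_wQ_26_wN_1_rb8033094a_d43_d3b1d0f1cx1 : GoodKC AS c_wQ_26_wN_1_rb8033094a_d43_d3b1d0f1cx1 := p_wQ_26_wN_1_rb8033094a_d43_d3b1d0f1cx1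

theorem g__wQ_26_wN_1_rb8033094a_d43_d3b1d0f17x1_1 : GoodKC AS k_wQ_26_wN_1_rb8033094a_d43_d3b1d0f17x1_1 := p_wQ_26_wN_1_rb8033094a_d43_d3b1d0f17x1_1

theorem g__wQ_26_wN_1_rb8033094a_d43_d3b1d0f17x1_3 : GoodKC AS k_wQ_26_wN_1_rb8033094a_d43_d3b1d0f17x1_3 := p_wQ_26_wN_1_rb8033094a_d43_d3b1d0f17x1_3

theorem g__wQ_26_wN_1_rb8033094a_d43_d3b1d0f17x1_2 : GoodKC AS k_wQ_26_wN_1_rb8033094a_d43_d3b1d0f17x1_2 := p_wQ_26_wN_1_rb8033094a_d43_d3b1d0f17x1_2 g__wQ_26_wN_1_rb8033094a_d43_d3b1d0f17x1_3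

theorem g__wQ_26_wN_1_rb8033094a_d43_d3b1d0f17x1_4 : GoodKC AS k_wQ_26_wN_1_rb8033094a_d43_d3b1d0f17x1_4 := p_wQ_26_wN_1_rb8033094a_d43_d3b1d0f17x1_4

theorem g__wQ_26_wN_1_rb8033094a_d43_d3b1d0f17x1_0 : GoodKC AS k_wQ_26_wN_1_rb8033094a_d43_d3b1d0f17x1_0 := p_wQ_26_wN_1_rb8033094a_d43_d3b1d0f17x1_0 g__wQ_26_wN_1_rb8033094a_d43_d3b1d0f17x1_1 g__wQ_26_wN_1_rb8033094a_d43_d3b1d0f17x1_2 g__wQ_26_wN_1_rb8033094a_d43_d3b1d0f17x1_4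

theorem g_wQ_26_wN_1_rb8033094a_d43_d3b1d0f17x1 : GoodKC AS c_wQ_26_wN_1_rb8033094a_d43_d3b1d0f17x1 := p_wQ_26_wN_1_rb8033094a_d43_d3b1d0f17x1 g__wQ_26_wN_1_rb8033094a_d43_d3b1d0f17x1_0

theorem g__wQ_26_wN_1_rb8033094a_d43_d3b1d0f16x1_0 : GoodKC AS k_wQ_26_wN_1_rb8033094a_d43_d3b1d0f16x1_0 := p_wQ_26_wN_1_rb8033094a_d43_d3b1d0f16x1_0

theorem g__wQ_26_wN_1_rb8033094a_d43_d3b1d0f16x1_3 : GoodKC AS k_wQ_26_wN_1_rb8033094a_d43_d3b1d0f16x1_3 := p_wQ_26_wN_1_rb8033094a_d43_d3b1d0f16x1_3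

theorem g__wQ_26_wN_1_rb8033094a_d43_d3b1d0f16x1_2 : GoodKC AS k_wQ_26_wN_1_rb8033094a_d43_d3b1d0f16x1_2 := p_wQ_26_wN_1_rb8033094a_d43_d3b1d0f16x1_2 g__wQ_26_wN_1_rb8033094a_d43_d3b1d0f16x1_3

theorem g__wQ_26_wN_1_rb8033094a_d43_d3b1d0f16x1_1 : GoodKC AS k_wQ_26_wN_1_rb8033094a_d43_d3b1d0f16x1_1 := p_wQ_26_wN_1_rb8033094a_d43_d3b1d0f16x1_1 g__wQ_26_wN_1_rb8033094a_d43_d3b1d0f16x1_2

theorem g_wQ_26_wN_1_rb8033094a_d43_d3b1d0f16x1 : GoodKC AS c_wQ_26_wN_1_rb8033094a_d43_d3b1d0f16x1 := p_wQ_26_wN_1_rb8033094a_d43_d3b1d0f16x1 g__wQ_26_wN_1_rb8033094a_d43_d3b1d0f16x1_0 g__wQ_26_wN_1_rb8033094a_d43_d3b1d0f16x1_1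

theorem g_wQ_26_wN_1_rb8033094a_d43_d3b1d0f15x1 : GoodKC AS c_wQ_26_wN_1_rb8033094a_d43_d3b1d0f15x1 := p_wQ_26_wN_1_rb8033094a_d43_d3b1d0f15x1

theorem g_wQ_26_wN_1_rb8033094a_d43_d3b1d0f14x1 : GoodKC AS c_wQ_26_wN_1_rb8033094a_d43_d3b1d0f14x1 := p_wQ_26_wN_1_rb8033094a_d43_d3b1d0f14x1

theorem g_wQ_26_wN_1_rb8033094a_d43_d3b1d0f13x1 : GoodKC AS c_wQ_26_wN_1_rb8033094a_d43_d3b1d0f13x1 := p_wQ_26_wN_1_rb8033094a_d43_d3b1d0f13x1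

theorem g_wQ_26_wN_1_rb8033094a_d43_d3b1d0f12x1 : GoodKC AS c_wQ_26_wN_1_rb8033094a_d43_d3b1d0f12x1 := p_wQ_26_wN_1_rb8033094a_d43_d3b1d0f12x1

theorem g_wQ_26_wN_1_rb8033094a_d43_d3b1d0f11x1 : GoodKC AS c_wQ_26_wN_1_rb8033094a_d43_d3b1d0f11x1 := p_wQ_26_wN_1_rb8033094a_d43_d3b1d0f11x1

theorem g_wQ_26_wN_1_rb8033094a_d43_d3b1d0f10x1 : GoodKC AS c_wQ_26_wN_1_rb8033094a_d43_d3b1d0f10x1 := p_wQ_26_wN_1_rb8033094a_d43_d3b1d0f10x1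

theorem g_wQ_26_wN_1_rb8033094a_d43_d3b1d0f0bx1 : GoodKC AS c_wQ_26_wN_1_rb8033094a_d43_d3b1d0f0bx1 := p_wQ_26_wN_1_rb8033094a_d43_d3b1d0f0bx1

theorem g_wQ_26_wN_1_rb8033094a_d43_d3b1d0f0ax1 : GoodKC AS c_wQ_26_wN_1_rb8033094a_d43_d3b1d0f0ax1 := p_wQ_26_wN_1_rb8033094a_d43_d3b1d0f0ax1

theorem g_wQ_26_wN_1_rb8033094a_d43_d3b1d0f09x1 : GoodKC AS c_wQ_26_wN_1_rb8033094a_d43_d3b1d0f09x1 := p_wQ_26_wN_1_rb8033094a_d43_d3b1d0f09x1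

theorem g_wQ_26_wN_1_rb8033094a_d43_d3b1d0f07x1 : GoodKC AS c_wQ_26_wN_1_rb8033094a_d43_d3b1d0f07x1 := p_wQ_26_wN_1_rb8033094a_d43_d3b1d0f07x1

theorem g_wQ_26_wN_1_rb8033094a_d43_d3b1d0f06x1 : GoodKC AS c_wQ_26_wN_1_rb8033094a_d43_d3b1d0f06x1 := p_wQ_26_wN_1_rb8033094a_d43_d3b1d0f06x1

theorem g__wQ_26_wN_1_rb8033094a_d43_d3b1d0fx1_5 : GoodKC AS k_wQ_26_wN_1_rb8033094a_d43_d3b1d0fx1_5 := p_wQ_26_wN_1_rb8033094a_d43_d3b1d0fx1_5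

theorem g__wQ_26_wN_1_rb8033094a_d43_d3b1d0fx1_6 : GoodKC AS k_wQ_26_wN_1_rb8033094a_d43_d3b1d0fx1_6 := p_wQ_26_wN_1_rb8033094a_d43_d3b1d0fx1_6

theorem g__wQ_26_wN_1_rb8033094a_d43_d3b1d0fx1_4 : GoodKC AS k_wQ_26_wN_1_rb8033094a_d43_d3b1d0fx1_4 := p_wQ_26_wN_1_rb8033094a_d43_d3b1d0fx1_4 g__wQ_26_wN_1_rb8033094a_d43_d3b1d0fx1_5 g__wQ_26_wN_1_rb8033094a_d43_d3b1d0fx1_6

theorem g__wQ_26_wN_1_rb8033094a_d43_d3b1d0fx1_3 : GoodKC AS k_wQ_26_wN_1_rb8033094a_d43_d3b1d0fx1_3 := p_wQ_26_wN_1_rb8033094a_d43_d3b1d0fx1_3 g__wQ_26_wN_1_rb8033094a_d43_d3b1d0fx1_4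

theorem g__wQ_26_wN_1_rb8033094a_d43_d3b1d0fx1_2 : GoodKC AS k_wQ_26_wN_1_rb8033094a_d43_d3b1d0fx1_2 := p_wQ_26_wN_1_rb8033094a_d43_d3b1d0fx1_2 g__wQ_26_wN_1_rb8033094a_d43_d3b1d0fx1_3

theorem g__wQ_26_wN_1_rb8033094a_d43_d3b1d0fx1_1 : GoodKC AS k_wQ_26_wN_1_rb8033094a_d43_d3b1d0fx1_1 := p_wQ_26_wN_1_rb8033094a_d43_d3b1d0fx1_1 g__wQ_26_wN_1_rb8033094a_d43_d3b1d0fx1_2

theorem g__wQ_26_wN_1_rb8033094a_d43_d3b1d0fx1_8 : GoodKC AS k_wQ_26_wN_1_rb8033094a_d43_d3b1d0fx1_8 := p_wQ_26_wN_1_rb8033094a_d43_d3b1d0fx1_8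

theorem g__wQ_26_wN_1_rb8033094a_d43_d3b1d0fx1_9 : GoodKC AS k_wQ_26_wN_1_rb8033094a_d43_d3b1d0fx1_9 := p_wQ_26_wN_1_rb8033094a_d43_d3b1d0fx1_9

theorem g__wQ_26_wN_1_rb8033094a_d43_d3b1d0fx1_7 : GoodKC AS k_wQ_26_wN_1_rb8033094a_d43_d3b1d0fx1_7 := p_wQ_26_wN_1_rb8033094a_d43_d3b1d0fx1_7 g__wQ_26_wN_1_rb8033094a_d43_d3b1d0fx1_8 g__wQ_26_wN_1_rb8033094a_d43_d3b1d0fx1_9

theorem g__wQ_26_wN_1_rb8033094a_d43_d3b1d0fx1_0 : GoodKC AS k_wQ_26_wN_1_rb8033094a_d43_d3b1d0fx1_0 := p_wQ_26_wN_1_rb8033094a_d43_d3b1d0fx1_0 g__wQ_26_wN_1_rb8033094a_d43_d3b1d0fx1_1 g__wQ_26_wN_1_rb8033094a_d43_d3b1d0fx1_7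

theorem g_wQ_26_wN_1_rb8033094a_d43_d3b1d0f05x1 : GoodKC AS c_wQ_26_wN_1_rb8033094a_d43_d3b1d0f05x1 := p_wQ_26_wN_1_rb8033094a_d43_d3b1d0f05x1

theorem g_wQ_26_wN_1_rb8033094a_d43_d3b1d0f04x1 : GoodKC AS c_wQ_26_wN_1_rb8033094a_d43_d3b1d0f04x1 := p_wQ_26_wN_1_rb8033094a_d43_d3b1d0f04x1

theorem g_wQ_26_wN_1_rb8033094a_d43_d3b1d0f03x1 : GoodKC AS c_wQ_26_wN_1_rb8033094a_d43_d3b1d0f03x1 := p_wQ_26_wN_1_rb8033094a_d43_d3b1d0f03x1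

theorem g__wQ_26_wN_1_rb8033094a_d43_d3b1d0fx1_10 : GoodKC AS k_wQ_26_wN_1_rb8033094a_d43_d3b1d0fx1_10 := p_wQ_26_wN_1_rb8033094a_d43_d3b1d0fx1_10

theorem g_wQ_26_wN_1_rb8033094a_d43_d3b1d0f02x1 : GoodKC AS c_wQ_26_wN_1_rb8033094a_d43_d3b1d0f02x1 := p_wQ_26_wN_1_rb8033094a_d43_d3b1d0f02x1

theorem g_wQ_26_wN_1_rb8033094a_d43_d3b1d0f00x1 : GoodKC AS c_wQ_26_wN_1_rb8033094a_d43_d3b1d0f00x1 := p_wQ_26_wN_1_rb8033094a_d43_d3b1d0f00x1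

theorem g_wQ_26_wN_1_rb8033094a_d43_d3b1d0f01x1 : GoodKC AS c_wQ_26_wN_1_rb8033094a_d43_d3b1d0f01x1 := p_wQ_26_wN_1_rb8033094a_d43_d3b1d0f01x1

theorem g_wQ_26_wN_1_rb8033094a_d43_d3b1d0f08x1 : GoodKC AS c_wQ_26_wN_1_rb8033094a_d43_d3b1d0f08x1 := p_wQ_26_wN_1_rb8033094a_d43_d3b1d0f08x1

theorem g_wQ_26_wN_1_rb8033094a_d43_d3b1d0f0cx1 : GoodKC AS c_wQ_26_wN_1_rb8033094a_d43_d3b1d0f0cx1 := p_wQ_26_wN_1_rb8033094a_d43_d3b1d0f0cx1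

theorem g_wQ_26_wN_1_rb8033094a_d43_d3b1d0f0dx1 : GoodKC AS c_wQ_26_wN_1_rb8033094a_d43_d3b1d0f0dx1 := p_wQ_26_wN_1_rb8033094a_d43_d3b1d0f0dx1

theorem g_wQ_26_wN_1_rb8033094a_d43_d3b1d0f0ex1 : GoodKC AS c_wQ_26_wN_1_rb8033094a_d43_d3b1d0f0ex1 := p_wQ_26_wN_1_rb8033094a_d43_d3b1d0f0ex1

theorem g_wQ_26_wN_1_rb8033094a_d43_d3b1d0f0fx1 : GoodKC AS c_wQ_26_wN_1_rb8033094a_d43_d3b1d0f0fx1 := p_wQ_26_wN_1_rb8033094a_d43_d3b1d0f0fx1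

theorem g_wQ_26_wN_1_rb8033094a_d43_d3b1d0f18x1 : GoodKC AS c_wQ_26_wN_1_rb8033094a_d43_d3b1d0f18x1 := p_wQ_26_wN_1_rb8033094a_d43_d3b1d0f18x1

theorem g_wQ_26_wN_1_rb8033094a_d43_d3b1d0f19x1 : GoodKC AS c_wQ_26_wN_1_rb8033094a_d43_d3b1d0f19x1 := p_wQ_26_wN_1_rb8033094a_d43_d3b1d0f19x1

theorem g_wQ_26_wN_1_rb8033094a_d43_d3b1d0f1ax1 : GoodKC AS c_wQ_26_wN_1_rb8033094a_d43_d3b1d0f1ax1 := p_wQ_26_wN_1_rb8033094a_d43_d3b1d0f1ax1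

theorem g_wQ_26_wN_1_rb8033094a_d43_d3b1d0f1bx1 : GoodKC AS c_wQ_26_wN_1_rb8033094a_d43_d3b1d0f1bx1 := p_wQ_26_wN_1_rb8033094a_d43_d3b1d0f1bx1

theorem g_wQ_26_wN_1_rb8033094a_d43_d3b1d0f1ex1 : GoodKC AS c_wQ_26_wN_1_rb8033094a_d43_d3b1d0f1ex1 := p_wQ_26_wN_1_rb8033094a_d43_d3b1d0f1ex1

theorem g__wQ_26_wN_1_rb8033094a_d43_d3b1d0f1fx1_2 : GoodKC AS k_wQ_26_wN_1_rb8033094a_d43_d3b1d0f1fx1_2 := p_wQ_26_wN_1_rb8033094a_d43_d3b1d0f1fx1_2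

theorem g__wQ_26_wN_1_rb8033094a_d43_d3b1d0f1fx1_3 : GoodKC AS k_wQ_26_wN_1_rb8033094a_d43_d3b1d0f1fx1_3 := p_wQ_26_wN_1_rb8033094a_d43_d3b1d0f1fx1_3

theorem g__wQ_26_wN_1_rb8033094a_d43_d3b1d0f1fx1_1 : GoodKC AS k_wQ_26_wN_1_rb8033094a_d43_d3b1d0f1fx1_1 := p_wQ_26_wN_1_rb8033094a_d43_d3b1d0f1fx1_1 g__wQ_26_wN_1_rb8033094a_d43_d3b1d0f1fx1_2 g__wQ_26_wN_1_rb8033094a_d43_d3b1d0f1fx1_3

theorem g__wQ_26_wN_1_rb8033094a_d43_d3b1d0f1fx1_0 : GoodKC AS k_wQ_26_wN_1_rb8033094a_d43_d3b1d0f1fx1_0 := p_wQ_26_wN_1_rb8033094a_d43_d3b1d0f1fx1_0 g__wQ_26_wN_1_rb8033094a_d43_d3b1d0f1fx1_1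

theorem g_wQ_26_wN_1_rb8033094a_d43_d3b1d0f1fx1 : GoodKC AS c_wQ_26_wN_1_rb8033094a_d43_d3b1d0f1fx1 := p_wQ_26_wN_1_rb8033094a_d43_d3b1d0f1fx1 g__wQ_26_wN_1_rb8033094a_d43_d3b1d0f1fx1_0

theorem g_wQ_26_wN_1_rb8033094a_d43_d3b1d0f22x1 : GoodKC AS c_wQ_26_wN_1_rb8033094a_d43_d3b1d0f22x1 := p_wQ_26_wN_1_rb8033094a_d43_d3b1d0f22x1

theorem g_wQ_26_wN_1_rb8033094a_d43_d3b1d0f24x1 : GoodKC AS c_wQ_26_wN_1_rb8033094a_d43_d3b1d0f24x1 := p_wQ_26_wN_1_rb8033094a_d43_d3b1d0f24x1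

theorem g_wQ_26_wN_1_rb8033094a_d43_d3b1d0fx5 : GoodKC AS c_wQ_26_wN_1_rb8033094a_d43_d3b1d0fx5 := p_wQ_26_wN_1_rb8033094a_d43_d3b1d0fx1 g_wQ_26_wN_1_rb8033094a_d43_d3b1d0f23x1 g_wQ_26_wN_1_rb8033094a_d43_d3b1d0f21x1 g_wQ_26_wN_1_rb8033094a_d43_d3b1d0f20x1 g_wQ_26_wN_1_rb8033094a_d43_d3b1d0f1dx1 g_wQ_26_wN_1_rb8033094a_d43_d3b1d0f1cx1 g_wQ_26_wN_1_rb8033094a_d43_d3b1d0f17x1 g_wQ_26_wN_1_rb8033094a_d43_d3b1d0f16x1 g_wQ_26_wN_1_rb8033094a_d43_d3b1d0f15x1 g_wQ_26_wN_1_rb8033094a_d43_d3b1d0f14x1 g_wQ_26_wN_1_rb8033094a_d43_d3b1d0f13x1 g_wQ_26_wN_1_rb8033094a_d43_d3b1d0f12x1 g_wQ_26_wN_1_rb8033094a_d43_d3b1d0f11x1 g_wQ_26_wN_1_rb8033094a_d43_d3b1d0f10x1 g_wQ_26_wN_1_rb8033094a_d43_d3b1d0f0bx1 g_wQ_26_wN_1_rb8033094a_d43_d3b1d0f0ax1 g_wQ_26_wN_1_rb8033094a_d43_d3b1d0f09x1 g_wQ_26_wN_1_rb8033094a_d43_d3b1d0f07x1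 g_wQ_26_wN_1_rb8033094a_d43_d3b1d0f06x1 g__wQ_26_wN_1_rb8033094a_d43_d3b1d0fx1_0 g_wQ_26_wN_1_rb8033094a_d43_d3b1d0f05x1 g_wQ_26_wN_1_rb8033094a_d43_d3b1d0f04x1 g_wQ_26_wN_1_rb8033094a_d43_d3b1d0f03x1 g__wQ_26_wN_1_rb8033094a_d43_d3b1d0fx1_10 g_wQ_26_wN_1_rb8033094a_d43_d3b1d0f02x1 g_wQ_26_wN_1_rb8033094a_d43_d3b1d0f00x1 g_wQ_26_wN_1_rb8033094a_d43_d3b1d0f01x1 g_wQ_26_wN_1_rb8033094a_d43_d3b1d0f08x1 g_wQ_26_wN_1_rb8033094a_d43_d3b1d0f0cx1 g_wQ_26_wN_1_rb8033094a_d43_d3b1d0f0dx1 g_wQ_26_wN_1_rb8033094a_d43_d3b1d0f0ex1 g_wQ_26_wN_1_rb8033094a_d43_d3b1d0f0fx1 g_wQ_26_wN_1_rb8033094a_d43_d3b1d0f18x1 g_wQ_26_wN_1_rb8033094a_d43_d3b1d0f19x1 g_wQ_26_wN_1_rb8033094a_d43_d3b1d0f1ax1 g_wQ_26_wN_1_rb8033094a_d43_d3b1d0f1bx1 g_wQ_26_wN_1_rb8033094a_d43_d3b1d0f1ex1 g_wQ_26_wN_1_rb8033094a_d43_d3b1d0f1fx1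 g_wQ_26_wN_1_rb8033094a_d43_d3b1d0f22x1 g_wQ_26_wN_1_rb8033094a_d43_d3b1d0f24x1

theorem g_wQ_26_wN_1_rb8033094a_d43_d3b1d0ex5 : GoodKC AS c_wQ_26_wN_1_rb8033094a_d43_d3b1d0ex5 := p_wQ_26_wN_1_rb8033094a_d43_d3b1d0ex1

theorem g_wQ_26_wN_1_rb8033094a_d43_d3b1d0dx5 : GoodKC AS c_wQ_26_wN_1_rb8033094a_d43_d3b1d0dx5 := p_wQ_26_wN_1_rb8033094a_d43_d3b1d0dx1

theorem g_wQ_26_wN_1_rb8033094a_d43_d3b1d0bx5 : GoodKC AS c_wQ_26_wN_1_rb8033094a_d43_d3b1d0bx5 := p_wQ_26_wN_1_rb8033094a_d43_d3b1d0bx4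

theorem g__wQ_26_wN_1_rb8033094a_d43_d3b1d0ax3_0 : GoodKC AS k_wQ_26_wN_1_rb8033094a_d43_d3b1d0ax3_0 := p_wQ_26_wN_1_rb8033094a_d43_d3b1d0ax3_0

theorem g__wQ_26_wN_1_rb8033094a_d43_d3b1d0ax3_3 : GoodKC AS k_wQ_26_wN_1_rb8033094a_d43_d3b1d0ax3_3 := p_wQ_26_wN_1_rb8033094a_d43_d3b1d0ax3_3

theorem g__wQ_26_wN_1_rb8033094a_d43_d3b1d0ax3_2 : GoodKC AS k_wQ_26_wN_1_rb8033094a_d43_d3b1d0ax3_2 := p_wQ_26_wN_1_rb8033094a_d43_d3b1d0ax3_2 g__wQ_26_wN_1_rb8033094a_d43_d3b1d0ax3_3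

theorem g__wQ_26_wN_1_rb8033094a_d43_d3b1d0ax3_1 : GoodKC AS k_wQ_26_wN_1_rb8033094a_d43_d3b1d0ax3_1 := p_wQ_26_wN_1_rb8033094a_d43_d3b1d0ax3_1 g__wQ_26_wN_1_rb8033094a_d43_d3b1d0ax3_2

theorem g_wQ_26_wN_1_rb8033094a_d43_d3b1d0ax5 : GoodKC AS c_wQ_26_wN_1_rb8033094a_d43_d3b1d0ax5 := p_wQ_26_wN_1_rb8033094a_d43_d3b1d0ax3 g__wQ_26_wN_1_rb8033094a_d43_d3b1d0ax3_0 g__wQ_26_wN_1_rb8033094a_d43_d3b1d0ax3_1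

theorem g_wQ_26_wN_1_rb8033094a_d43_d3b1d05x5 : GoodKC AS c_wQ_26_wN_1_rb8033094a_d43_d3b1d05x5 := p_wQ_26_wN_1_rb8033094a_d43_d3b1d05x2

theorem g_wQ_26_wN_1_rb8033094a_d43_d3b1d03x5 : GoodKC AS c_wQ_26_wN_1_rb8033094a_d43_d3b1d03x5 := p_wQ_26_wN_1_rb8033094a_d43_d3b1d03x1

theorem g__wQ_26_wN_1_rb8033094a_d43_d3b1dx5_5 : GoodKC AS k_wQ_26_wN_1_rb8033094a_d43_d3b1dx5_5 := p_wQ_26_wN_1_rb8033094a_d43_d3b1dx5_5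

theorem g__wQ_26_wN_1_rb8033094a_d43_d3b1dx5_4 : GoodKC AS k_wQ_26_wN_1_rb8033094a_d43_d3b1dx5_4 := p_wQ_26_wN_1_rb8033094a_d43_d3b1dx5_4 g__wQ_26_wN_1_rb8033094a_d43_d3b1dx5_5

theorem g__wQ_26_wN_1_rb8033094a_d43_d3b1dx5_3 : GoodKC AS k_wQ_26_wN_1_rb8033094a_d43_d3b1dx5_3 := p_wQ_26_wN_1_rb8033094a_d43_d3b1dx5_3 g__wQ_26_wN_1_rb8033094a_d43_d3b1dx5_4

theorem g__wQ_26_wN_1_rb8033094a_d43_d3b1dx5_2 : GoodKC AS k_wQ_26_wN_1_rb8033094a_d43_d3b1dx5_2 := p_wQ_26_wN_1_rb8033094a_d43_d3b1dx5_2 g__wQ_26_wN_1_rb8033094a_d43_d3b1dx5_3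

theorem g__wQ_26_wN_1_rb8033094a_d43_d3b1dx5_1 : GoodKC AS k_wQ_26_wN_1_rb8033094a_d43_d3b1dx5_1 := p_wQ_26_wN_1_rb8033094a_d43_d3b1dx5_1 g__wQ_26_wN_1_rb8033094a_d43_d3b1dx5_2

theorem g__wQ_26_wN_1_rb8033094a_d43_d3b1dx5_10 : GoodKC AS k_wQ_26_wN_1_rb8033094a_d43_d3b1dx5_10 := p_wQ_26_wN_1_rb8033094a_d43_d3b1dx5_10

theorem g__wQ_26_wN_1_rb8033094a_d43_d3b1dx5_12 : GoodKC AS k_wQ_26_wN_1_rb8033094a_d43_d3b1dx5_12 := p_wQ_26_wN_1_rb8033094a_d43_d3b1dx5_12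

theorem g__wQ_26_wN_1_rb8033094a_d43_d3b1dx5_11 : GoodKC AS k_wQ_26_wN_1_rb8033094a_d43_d3b1dx5_11 := p_wQ_26_wN_1_rb8033094a_d43_d3b1dx5_11 g__wQ_26_wN_1_rb8033094a_d43_d3b1dx5_12

theorem g__wQ_26_wN_1_rb8033094a_d43_d3b1dx5_9 : GoodKC AS k_wQ_26_wN_1_rb8033094a_d43_d3b1dx5_9 := p_wQ_26_wN_1_rb8033094a_d43_d3b1dx5_9 g__wQ_26_wN_1_rb8033094a_d43_d3b1dx5_10 g__wQ_26_wN_1_rb8033094a_d43_d3b1dx5_11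

theorem g__wQ_26_wN_1_rb8033094a_d43_d3b1dx5_8 : GoodKC AS k_wQ_26_wN_1_rb8033094a_d43_d3b1dx5_8 := p_wQ_26_wN_1_rb8033094a_d43_d3b1dx5_8 g__wQ_26_wN_1_rb8033094a_d43_d3b1dx5_9

theorem g__wQ_26_wN_1_rb8033094a_d43_d3b1dx5_7 : GoodKC AS k_wQ_26_wN_1_rb8033094a_d43_d3b1dx5_7 := p_wQ_26_wN_1_rb8033094a_d43_d3b1dx5_7 g__wQ_26_wN_1_rb8033094a_d43_d3b1dx5_8

theorem g__wQ_26_wN_1_rb8033094a_d43_d3b1dx5_6 : GoodKC AS k_wQ_26_wN_1_rb8033094a_d43_d3b1dx5_6 := p_wQ_26_wN_1_rb8033094a_d43_d3b1dx5_6 g__wQ_26_wN_1_rb8033094a_d43_d3b1dx5_7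

theorem g__wQ_26_wN_1_rb8033094a_d43_d3b1dx5_0 : GoodKC AS k_wQ_26_wN_1_rb8033094a_d43_d3b1dx5_0 := p_wQ_26_wN_1_rb8033094a_d43_d3b1dx5_0 g__wQ_26_wN_1_rb8033094a_d43_d3b1dx5_1 g__wQ_26_wN_1_rb8033094a_d43_d3b1dx5_6

theorem g__wQ_26_wN_1_rb8033094a_d43_d3b1dx5_13 : GoodKC AS k_wQ_26_wN_1_rb8033094a_d43_d3b1dx5_13 := p_wQ_26_wN_1_rb8033094a_d43_d3b1dx5_13

theorem g_wQ_26_wN_1_rb8033094a_d43_d3b1d02x5 : GoodKC AS c_wQ_26_wN_1_rb8033094a_d43_d3b1d02x5 := p_wQ_26_wN_1_rb8033094a_d43_d3b1d02x1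

theorem g_wQ_26_wN_1_rb8033094a_d43_d3b1d00x5 : GoodKC AS c_wQ_26_wN_1_rb8033094a_d43_d3b1d00x5 := p_wQ_26_wN_1_rb8033094a_d43_d3b1d00x2

theorem g_wQ_26_wN_1_rb8033094a_d43_d3b1d01x5 : GoodKC AS c_wQ_26_wN_1_rb8033094a_d43_d3b1d01x5 := p_wQ_26_wN_1_rb8033094a_d43_d3b1d01x2

theorem g__wQ_26_wN_1_rb8033094a_d43_d3b1d04x4_1 : GoodKC AS k_wQ_26_wN_1_rb8033094a_d43_d3b1d04x4_1 := p_wQ_26_wN_1_rb8033094a_d43_d3b1d04x4_1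

theorem g__wQ_26_wN_1_rb8033094a_d43_d3b1d04x4_2 : GoodKC AS k_wQ_26_wN_1_rb8033094a_d43_d3b1d04x4_2 := p_wQ_26_wN_1_rb8033094a_d43_d3b1d04x4_2

theorem g__wQ_26_wN_1_rb8033094a_d43_d3b1d04x4_3 : GoodKC AS k_wQ_26_wN_1_rb8033094a_d43_d3b1d04x4_3 := p_wQ_26_wN_1_rb8033094a_d43_d3b1d04x4_3

theorem g__wQ_26_wN_1_rb8033094a_d43_d3b1d04x4_0 : GoodKC AS k_wQ_26_wN_1_rb8033094a_d43_d3b1d04x4_0 := p_wQ_26_wN_1_rb8033094a_d43_d3b1d04x4_0 g__wQ_26_wN_1_rb8033094a_d43_d3b1d04x4_1 g__wQ_26_wN_1_rb8033094a_d43_d3b1d04x4_2 g__wQ_26_wN_1_rb8033094a_d43_d3b1d04x4_3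

theorem g_wQ_26_wN_1_rb8033094a_d43_d3b1d04x5 : GoodKC AS c_wQ_26_wN_1_rb8033094a_d43_d3b1d04x5 := p_wQ_26_wN_1_rb8033094a_d43_d3b1d04x4 g__wQ_26_wN_1_rb8033094a_d43_d3b1d04x4_0

theorem g__wQ_26_wN_1_rb8033094a_d43_d3b1d06x3_2 : GoodKC AS k_wQ_26_wN_1_rb8033094a_d43_d3b1d06x3_2 := p_wQ_26_wN_1_rb8033094a_d43_d3b1d06x3_2

theorem g__wQ_26_wN_1_rb8033094a_d43_d3b1d06x3_1 : GoodKC AS k_wQ_26_wN_1_rb8033094a_d43_d3b1d06x3_1 := p_wQ_26_wN_1_rb8033094a_d43_d3b1d06x3_1 g__wQ_26_wN_1_rb8033094a_d43_d3b1d06x3_2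

theorem g__wQ_26_wN_1_rb8033094a_d43_d3b1d06x3_0 : GoodKC AS k_wQ_26_wN_1_rb8033094a_d43_d3b1d06x3_0 := p_wQ_26_wN_1_rb8033094a_d43_d3b1d06x3_0 g__wQ_26_wN_1_rb8033094a_d43_d3b1d06x3_1

theorem g_wQ_26_wN_1_rb8033094a_d43_d3b1d06x5 : GoodKC AS c_wQ_26_wN_1_rb8033094a_d43_d3b1d06x5 := p_wQ_26_wN_1_rb8033094a_d43_d3b1d06x3 g__wQ_26_wN_1_rb8033094a_d43_d3b1d06x3_0

theorem g__wQ_26_wN_1_rb8033094a_d43_d3b1d07x2_0 : GoodKC AS k_wQ_26_wN_1_rb8033094a_d43_d3b1d07x2_0 := p_wQ_26_wN_1_rb8033094a_d43_d3b1d07x2_0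

theorem g_wQ_26_wN_1_rb8033094a_d43_d3b1d07x5 : GoodKC AS c_wQ_26_wN_1_rb8033094a_d43_d3b1d07x5 := p_wQ_26_wN_1_rb8033094a_d43_d3b1d07x2 g__wQ_26_wN_1_rb8033094a_d43_d3b1d07x2_0

theorem g__wQ_26_wN_1_rb8033094a_d43_d3b1d08x2_3 : GoodKC AS k_wQ_26_wN_1_rb8033094a_d43_d3b1d08x2_3 := p_wQ_26_wN_1_rb8033094a_d43_d3b1d08x2_3

theorem g__wQ_26_wN_1_rb8033094a_d43_d3b1d08x2_2 : GoodKC AS k_wQ_26_wN_1_rb8033094a_d43_d3b1d08x2_2 := p_wQ_26_wN_1_rb8033094a_d43_d3b1d08x2_2 g__wQ_26_wN_1_rb8033094a_d43_d3b1d08x2_3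

theorem g__wQ_26_wN_1_rb8033094a_d43_d3b1d08x2_4 : GoodKC AS k_wQ_26_wN_1_rb8033094a_d43_d3b1d08x2_4 := p_wQ_26_wN_1_rb8033094a_d43_d3b1d08x2_4

theorem g__wQ_26_wN_1_rb8033094a_d43_d3b1d08x2_5 : GoodKC AS k_wQ_26_wN_1_rb8033094a_d43_d3b1d08x2_5 := p_wQ_26_wN_1_rb8033094a_d43_d3b1d08x2_5

theorem g__wQ_26_wN_1_rb8033094a_d43_d3b1d08x2_6 : GoodKC AS k_wQ_26_wN_1_rb8033094a_d43_d3b1d08x2_6 := p_wQ_26_wN_1_rb8033094a_d43_d3b1d08x2_6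

theorem g__wQ_26_wN_1_rb8033094a_d43_d3b1d08x2_1 : GoodKC AS k_wQ_26_wN_1_rb8033094a_d43_d3b1d08x2_1 := p_wQ_26_wN_1_rb8033094a_d43_d3b1d08x2_1 g__wQ_26_wN_1_rb8033094a_d43_d3b1d08x2_2 g__wQ_26_wN_1_rb8033094a_d43_d3b1d08x2_4 g__wQ_26_wN_1_rb8033094a_d43_d3b1d08x2_5 g__wQ_26_wN_1_rb8033094a_d43_d3b1d08x2_6

theorem g__wQ_26_wN_1_rb8033094a_d43_d3b1d08x2_7 : GoodKC AS k_wQ_26_wN_1_rb8033094a_d43_d3b1d08x2_7 := p_wQ_26_wN_1_rb8033094a_d43_d3b1d08x2_7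

theorem g__wQ_26_wN_1_rb8033094a_d43_d3b1d08x2_0 : GoodKC AS k_wQ_26_wN_1_rb8033094a_d43_d3b1d08x2_0 := p_wQ_26_wN_1_rb8033094a_d43_d3b1d08x2_0 g__wQ_26_wN_1_rb8033094a_d43_d3b1d08x2_1 g__wQ_26_wN_1_rb8033094a_d43_d3b1d08x2_7

theorem g_wQ_26_wN_1_rb8033094a_d43_d3b1d08x5 : GoodKC AS c_wQ_26_wN_1_rb8033094a_d43_d3b1d08x5 := p_wQ_26_wN_1_rb8033094a_d43_d3b1d08x2 g__wQ_26_wN_1_rb8033094a_d43_d3b1d08x2_0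

theorem g_wQ_26_wN_1_rb8033094a_d43_d3b1d09x5 : GoodKC AS c_wQ_26_wN_1_rb8033094a_d43_d3b1d09x5 := p_wQ_26_wN_1_rb8033094a_d43_d3b1d09x4

theorem g__wQ_26_wN_1_rb8033094a_d43_d3b1d0cx4_1 : GoodKC AS k_wQ_26_wN_1_rb8033094a_d43_d3b1d0cx4_1 := p_wQ_26_wN_1_rb8033094a_d43_d3b1d0cx4_1

theorem g__wQ_26_wN_1_rb8033094a_d43_d3b1d0cx4_0 : GoodKC AS k_wQ_26_wN_1_rb8033094a_d43_d3b1d0cx4_0 := p_wQ_26_wN_1_rb8033094a_d43_d3b1d0cx4_0 g__wQ_26_wN_1_rb8033094a_d43_d3b1d0cx4_1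

theorem g_wQ_26_wN_1_rb8033094a_d43_d3b1d0cx5 : GoodKC AS c_wQ_26_wN_1_rb8033094a_d43_d3b1d0cx5 := p_wQ_26_wN_1_rb8033094a_d43_d3b1d0cx4 g__wQ_26_wN_1_rb8033094a_d43_d3b1d0cx4_0

theorem g_wQ_26_wN_1_rb8033094a_d43_d3b1d13x5 : GoodKC AS c_wQ_26_wN_1_rb8033094a_d43_d3b1d13x5 := p_wQ_26_wN_1_rb8033094a_d43_d3b1d13x4

theorem g_wQ_26_wN_1_rb8033094a_d43_d3b1d14x5 : GoodKC AS c_wQ_26_wN_1_rb8033094a_d43_d3b1d14x5 := p_wQ_26_wN_1_rb8033094a_d43_d3b1d14x4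

theorem g_wQ_26_wN_1_rb8033094a_d43_d3b1d1606x2 : GoodKC AS c_wQ_26_wN_1_rb8033094a_d43_d3b1d1606x2 := p_wQ_26_wN_1_rb8033094a_d43_d3b1d1606x1

theorem g_wQ_26_wN_1_rb8033094a_d43_d3b1d1605x2 : GoodKC AS c_wQ_26_wN_1_rb8033094a_d43_d3b1d1605x2 := p_wQ_26_wN_1_rb8033094a_d43_d3b1d1605x1

theorem g__wQ_26_wN_1_rb8033094a_d43_d3b1d1604x1_1 : GoodKC AS k_wQ_26_wN_1_rb8033094a_d43_d3b1d1604x1_1 := p_wQ_26_wN_1_rb8033094a_d43_d3b1d1604x1_1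

theorem g__wQ_26_wN_1_rb8033094a_d43_d3b1d1604x1_2 : GoodKC AS k_wQ_26_wN_1_rb8033094a_d43_d3b1d1604x1_2 := p_wQ_26_wN_1_rb8033094a_d43_d3b1d1604x1_2

theorem g__wQ_26_wN_1_rb8033094a_d43_d3b1d1604x1_0 : GoodKC AS k_wQ_26_wN_1_rb8033094a_d43_d3b1d1604x1_0 := p_wQ_26_wN_1_rb8033094a_d43_d3b1d1604x1_0 g__wQ_26_wN_1_rb8033094a_d43_d3b1d1604x1_1 g__wQ_26_wN_1_rb8033094a_d43_d3b1d1604x1_2

theorem g_wQ_26_wN_1_rb8033094a_d43_d3b1d1604x2 : GoodKC AS c_wQ_26_wN_1_rb8033094a_d43_d3b1d1604x2 := p_wQ_26_wN_1_rb8033094a_d43_d3b1d1604x1 g__wQ_26_wN_1_rb8033094a_d43_d3b1d1604x1_0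

theorem g_wQ_26_wN_1_rb8033094a_d43_d3b1d1603x2 : GoodKC AS c_wQ_26_wN_1_rb8033094a_d43_d3b1d1603x2 := p_wQ_26_wN_1_rb8033094a_d43_d3b1d1603x1

theorem g_wQ_26_wN_1_rb8033094a_d43_d3b1d1602x2 : GoodKC AS c_wQ_26_wN_1_rb8033094a_d43_d3b1d1602x2 := p_wQ_26_wN_1_rb8033094a_d43_d3b1d1602x1

theorem g_wQ_26_wN_1_rb8033094a_d43_d3b1d1600x2 : GoodKC AS c_wQ_26_wN_1_rb8033094a_d43_d3b1d1600x2 := p_wQ_26_wN_1_rb8033094a_d43_d3b1d1600x1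

theorem g_wQ_26_wN_1_rb8033094a_d43_d3b1d1601x2 : GoodKC AS c_wQ_26_wN_1_rb8033094a_d43_d3b1d1601x2 := p_wQ_26_wN_1_rb8033094a_d43_d3b1d1601x1

theorem g__wQ_26_wN_1_rb8033094a_d43_d3b1d16x2_0 : GoodKC AS k_wQ_26_wN_1_rb8033094a_d43_d3b1d16x2_0 := p_wQ_26_wN_1_rb8033094a_d43_d3b1d16x2_0

theorem g__wQ_26_wN_1_rb8033094a_d43_d3b1d16x2_2 : GoodKC AS k_wQ_26_wN_1_rb8033094a_d43_d3b1d16x2_2 := p_wQ_26_wN_1_rb8033094a_d43_d3b1d16x2_2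

theorem g__wQ_26_wN_1_rb8033094a_d43_d3b1d16x2_3 : GoodKC AS k_wQ_26_wN_1_rb8033094a_d43_d3b1d16x2_3 := p_wQ_26_wN_1_rb8033094a_d43_d3b1d16x2_3

theorem g__wQ_26_wN_1_rb8033094a_d43_d3b1d16x2_8 : GoodKC AS k_wQ_26_wN_1_rb8033094a_d43_d3b1d16x2_8 := p_wQ_26_wN_1_rb8033094a_d43_d3b1d16x2_8

theorem g__wQ_26_wN_1_rb8033094a_d43_d3b1d16x2_7 : GoodKC AS k_wQ_26_wN_1_rb8033094a_d43_d3b1d16x2_7 := p_wQ_26_wN_1_rb8033094a_d43_d3b1d16x2_7 g__wQ_26_wN_1_rb8033094a_d43_d3b1d16x2_8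

theorem g__wQ_26_wN_1_rb8033094a_d43_d3b1d16x2_9 : GoodKC AS k_wQ_26_wN_1_rb8033094a_d43_d3b1d16x2_9 := p_wQ_26_wN_1_rb8033094a_d43_d3b1d16x2_9

theorem g__wQ_26_wN_1_rb8033094a_d43_d3b1d16x2_6 : GoodKC AS k_wQ_26_wN_1_rb8033094a_d43_d3b1d16x2_6 := p_wQ_26_wN_1_rb8033094a_d43_d3b1d16x2_6 g__wQ_26_wN_1_rb8033094a_d43_d3b1d16x2_7 g__wQ_26_wN_1_rb8033094a_d43_d3b1d16x2_9

theorem g__wQ_26_wN_1_rb8033094a_d43_d3b1d16x2_5 : GoodKC AS k_wQ_26_wN_1_rb8033094a_d43_d3b1d16x2_5 := p_wQ_26_wN_1_rb8033094a_d43_d3b1d16x2_5 g__wQ_26_wN_1_rb8033094a_d43_d3b1d16x2_6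

theorem g__wQ_26_wN_1_rb8033094a_d43_d3b1d16x2_4 : GoodKC AS k_wQ_26_wN_1_rb8033094a_d43_d3b1d16x2_4 := p_wQ_26_wN_1_rb8033094a_d43_d3b1d16x2_4 g__wQ_26_wN_1_rb8033094a_d43_d3b1d16x2_5

theorem g__wQ_26_wN_1_rb8033094a_d43_d3b1d16x2_1 : GoodKC AS k_wQ_26_wN_1_rb8033094a_d43_d3b1d16x2_1 := p_wQ_26_wN_1_rb8033094a_d43_d3b1d16x2_1 g__wQ_26_wN_1_rb8033094a_d43_d3b1d16x2_2 g__wQ_26_wN_1_rb8033094a_d43_d3b1d16x2_3 g__wQ_26_wN_1_rb8033094a_d43_d3b1d16x2_4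

theorem g_wQ_26_wN_1_rb8033094a_d43_d3b1d16x5 : GoodKC AS c_wQ_26_wN_1_rb8033094a_d43_d3b1d16x5 := p_wQ_26_wN_1_rb8033094a_d43_d3b1d16x2 g_wQ_26_wN_1_rb8033094a_d43_d3b1d1606x2 g_wQ_26_wN_1_rb8033094a_d43_d3b1d1605x2 g_wQ_26_wN_1_rb8033094a_d43_d3b1d1604x2 g_wQ_26_wN_1_rb8033094a_d43_d3b1d1603x2 g_wQ_26_wN_1_rb8033094a_d43_d3b1d1602x2 g_wQ_26_wN_1_rb8033094a_d43_d3b1d1600x2 g_wQ_26_wN_1_rb8033094a_d43_d3b1d1601x2 g__wQ_26_wN_1_rb8033094a_d43_d3b1d16x2_0 g__wQ_26_wN_1_rb8033094a_d43_d3b1d16x2_1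

theorem g_wQ_26_wN_1_rb8033094a_d43_d3b1d1ax5 : GoodKC AS c_wQ_26_wN_1_rb8033094a_d43_d3b1d1ax5 := p_wQ_26_wN_1_rb8033094a_d43_d3b1d1ax4

theorem g_wQ_26_wN_1_rb8033094a_d43_d3b1dx13 : GoodKC AS c_wQ_26_wN_1_rb8033094a_d43_d3b1dx13 := p_wQ_26_wN_1_rb8033094a_d43_d3b1dx5 g_wQ_26_wN_1_rb8033094a_d43_d3b1d1bx5 g_wQ_26_wN_1_rb8033094a_d43_d3b1d19x5 g_wQ_26_wN_1_rb8033094a_d43_d3b1d18x5 g_wQ_26_wN_1_rb8033094a_d43_d3b1d17x5 g_wQ_26_wN_1_rb8033094a_d43_d3b1d15x5 g_wQ_26_wN_1_rb8033094a_d43_d3b1d12x5 g_wQ_26_wN_1_rb8033094a_d43_d3b1d11x5 g_wQ_26_wN_1_rb8033094a_d43_d3b1d10x5 g_wQ_26_wN_1_rb8033094a_d43_d3b1d0fx5 g_wQ_26_wN_1_rb8033094a_d43_d3b1d0ex5 g_wQ_26_wN_1_rb8033094a_d43_d3b1d0dx5 g_wQ_26_wN_1_rb8033094a_d43_d3b1d0bx5 g_wQ_26_wN_1_rb8033094a_d43_d3b1d0ax5 g_wQ_26_wN_1_rb8033094a_d43_d3b1d05x5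 g_wQ_26_wN_1_rb8033094a_d43_d3b1d03x5 g__wQ_26_wN_1_rb8033094a_d43_d3b1dx5_0 g__wQ_26_wN_1_rb8033094a_d43_d3b1dx5_13 g_wQ_26_wN_1_rb8033094a_d43_d3b1d02x5 g_wQ_26_wN_1_rb8033094a_d43_d3b1d00x5 g_wQ_26_wN_1_rb8033094a_d43_d3b1d01x5 g_wQ_26_wN_1_rb8033094a_d43_d3b1d04x5 g_wQ_26_wN_1_rb8033094a_d43_d3b1d06x5 g_wQ_26_wN_1_rb8033094a_d43_d3b1d07x5 g_wQ_26_wN_1_rb8033094a_d43_d3b1d08x5 g_wQ_26_wN_1_rb8033094a_d43_d3b1d09x5 g_wQ_26_wN_1_rb8033094a_d43_d3b1d0cx5 g_wQ_26_wN_1_rb8033094a_d43_d3b1d13x5 g_wQ_26_wN_1_rb8033094a_d43_d3b1d14x5 g_wQ_26_wN_1_rb8033094a_d43_d3b1d16x5 g_wQ_26_wN_1_rb8033094a_d43_d3b1d1ax5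

theorem g_wQ_26_wN_1_rb8033094a_d43_d3b1c18x6 : GoodKC AS c_wQ_26_wN_1_rb8033094a_d43_d3b1c18x6 := p_wQ_26_wN_1_rb8033094a_d43_d3b1c18x5

theorem g__wQ_26_wN_1_rb8033094a_d43_d3b1c17x5_2 : GoodKC AS k_wQ_26_wN_1_rb8033094a_d43_d3b1c17x5_2 := p_wQ_26_wN_1_rb8033094a_d43_d3b1c17x5_2

theorem g__wQ_26_wN_1_rb8033094a_d43_d3b1c17x5_1 : GoodKC AS k_wQ_26_wN_1_rb8033094a_d43_d3b1c17x5_1 := p_wQ_26_wN_1_rb8033094a_d43_d3b1c17x5_1 g__wQ_26_wN_1_rb8033094a_d43_d3b1c17x5_2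

theorem g__wQ_26_wN_1_rb8033094a_d43_d3b1c17x5_0 : GoodKC AS k_wQ_26_wN_1_rb8033094a_d43_d3b1c17x5_0 := p_wQ_26_wN_1_rb8033094a_d43_d3b1c17x5_0 g__wQ_26_wN_1_rb8033094a_d43_d3b1c17x5_1

theorem g_wQ_26_wN_1_rb8033094a_d43_d3b1c17x6 : GoodKC AS c_wQ_26_wN_1_rb8033094a_d43_d3b1c17x6 := p_wQ_26_wN_1_rb8033094a_d43_d3b1c17x5 g__wQ_26_wN_1_rb8033094a_d43_d3b1c17x5_0

theorem g_wQ_26_wN_1_rb8033094a_d43_d3b1c15x6 : GoodKC AS c_wQ_26_wN_1_rb8033094a_d43_d3b1c15x6 := p_wQ_26_wN_1_rb8033094a_d43_d3b1c15x5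

theorem g_wQ_26_wN_1_rb8033094a_d43_d3b1c14x6 : GoodKC AS c_wQ_26_wN_1_rb8033094a_d43_d3b1c14x6 := p_wQ_26_wN_1_rb8033094a_d43_d3b1c14x5

theorem g_wQ_26_wN_1_rb8033094a_d43_d3b1c13x6 : GoodKC AS c_wQ_26_wN_1_rb8033094a_d43_d3b1c13x6 := p_wQ_26_wN_1_rb8033094a_d43_d3b1c13x5

theorem g_wQ_26_wN_1_rb8033094a_d43_d3b1c11x6 : GoodKC AS c_wQ_26_wN_1_rb8033094a_d43_d3b1c11x6 := p_wQ_26_wN_1_rb8033094a_d43_d3b1c11x5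

theorem g__wQ_26_wN_1_rb8033094a_d43_d3b1c0fx4_2 : GoodKC AS k_wQ_26_wN_1_rb8033094a_d43_d3b1c0fx4_2 := p_wQ_26_wN_1_rb8033094a_d43_d3b1c0fx4_2

theorem g__wQ_26_wN_1_rb8033094a_d43_d3b1c0fx4_1 : GoodKC AS k_wQ_26_wN_1_rb8033094a_d43_d3b1c0fx4_1 := p_wQ_26_wN_1_rb8033094a_d43_d3b1c0fx4_1 g__wQ_26_wN_1_rb8033094a_d43_d3b1c0fx4_2

theorem g__wQ_26_wN_1_rb8033094a_d43_d3b1c0fx4_3 : GoodKC AS k_wQ_26_wN_1_rb8033094a_d43_d3b1c0fx4_3 := p_wQ_26_wN_1_rb8033094a_d43_d3b1c0fx4_3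

theorem g__wQ_26_wN_1_rb8033094a_d43_d3b1c0fx4_0 : GoodKC AS k_wQ_26_wN_1_rb8033094a_d43_d3b1c0fx4_0 := p_wQ_26_wN_1_rb8033094a_d43_d3b1c0fx4_0 g__wQ_26_wN_1_rb8033094a_d43_d3b1c0fx4_1 g__wQ_26_wN_1_rb8033094a_d43_d3b1c0fx4_3

theorem g__wQ_26_wN_1_rb8033094a_d43_d3b1c0fx4_4 : GoodKC AS k_wQ_26_wN_1_rb8033094a_d43_d3b1c0fx4_4 := p_wQ_26_wN_1_rb8033094a_d43_d3b1c0fx4_4

theorem g_wQ_26_wN_1_rb8033094a_d43_d3b1c0fx6 : GoodKC AS c_wQ_26_wN_1_rb8033094a_d43_d3b1c0fx6 := p_wQ_26_wN_1_rb8033094a_d43_d3b1c0fx4 g__wQ_26_wN_1_rb8033094a_d43_d3b1c0fx4_0 g__wQ_26_wN_1_rb8033094a_d43_d3b1c0fx4_4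

theorem g_wQ_26_wN_1_rb8033094a_d43_d3b1c0ex6 : GoodKC AS c_wQ_26_wN_1_rb8033094a_d43_d3b1c0ex6 := p_wQ_26_wN_1_rb8033094a_d43_d3b1c0ex5

theorem g_wQ_26_wN_1_rb8033094a_d43_d3b1c0dx6 : GoodKC AS c_wQ_26_wN_1_rb8033094a_d43_d3b1c0dx6 := p_wQ_26_wN_1_rb8033094a_d43_d3b1c0dx5

theorem g__wQ_26_wN_1_rb8033094a_d43_d3b1c0bx4_1 : GoodKC AS k_wQ_26_wN_1_rb8033094a_d43_d3b1c0bx4_1 := p_wQ_26_wN_1_rb8033094a_d43_d3b1c0bx4_1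

theorem g__wQ_26_wN_1_rb8033094a_d43_d3b1c0bx4_2 : GoodKC AS k_wQ_26_wN_1_rb8033094a_d43_d3b1c0bx4_2 := p_wQ_26_wN_1_rb8033094a_d43_d3b1c0bx4_2

theorem g__wQ_26_wN_1_rb8033094a_d43_d3b1c0bx4_0 : GoodKC AS k_wQ_26_wN_1_rb8033094a_d43_d3b1c0bx4_0 := p_wQ_26_wN_1_rb8033094a_d43_d3b1c0bx4_0 g__wQ_26_wN_1_rb8033094a_d43_d3b1c0bx4_1 g__wQ_26_wN_1_rb8033094a_d43_d3b1c0bx4_2

theorem g_wQ_26_wN_1_rb8033094a_d43_d3b1c0bx6 : GoodKC AS c_wQ_26_wN_1_rb8033094a_d43_d3b1c0bx6 := p_wQ_26_wN_1_rb8033094a_d43_d3b1c0bx4 g__wQ_26_wN_1_rb8033094a_d43_d3b1c0bx4_0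

theorem g__wQ_26_wN_1_rb8033094a_d43_d3b1cx6_5 : GoodKC AS k_wQ_26_wN_1_rb8033094a_d43_d3b1cx6_5 := p_wQ_26_wN_1_rb8033094a_d43_d3b1cx6_5

theorem g__wQ_26_wN_1_rb8033094a_d43_d3b1cx6_4 : GoodKC AS k_wQ_26_wN_1_rb8033094a_d43_d3b1cx6_4 := p_wQ_26_wN_1_rb8033094a_d43_d3b1cx6_4 g__wQ_26_wN_1_rb8033094a_d43_d3b1cx6_5

theorem g__wQ_26_wN_1_rb8033094a_d43_d3b1cx6_3 : GoodKC AS k_wQ_26_wN_1_rb8033094a_d43_d3b1cx6_3 := p_wQ_26_wN_1_rb8033094a_d43_d3b1cx6_3 g__wQ_26_wN_1_rb8033094a_d43_d3b1cx6_4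

theorem g__wQ_26_wN_1_rb8033094a_d43_d3b1cx6_2 : GoodKC AS k_wQ_26_wN_1_rb8033094a_d43_d3b1cx6_2 := p_wQ_26_wN_1_rb8033094a_d43_d3b1cx6_2 g__wQ_26_wN_1_rb8033094a_d43_d3b1cx6_3

theorem g__wQ_26_wN_1_rb8033094a_d43_d3b1cx6_1 : GoodKC AS k_wQ_26_wN_1_rb8033094a_d43_d3b1cx6_1 := p_wQ_26_wN_1_rb8033094a_d43_d3b1cx6_1 g__wQ_26_wN_1_rb8033094a_d43_d3b1cx6_2

theorem g__wQ_26_wN_1_rb8033094a_d43_d3b1cx6_6 : GoodKC AS k_wQ_26_wN_1_rb8033094a_d43_d3b1cx6_6 := p_wQ_26_wN_1_rb8033094a_d43_d3b1cx6_6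

theorem g__wQ_26_wN_1_rb8033094a_d43_d3b1c0ax3_1 : GoodKC AS k_wQ_26_wN_1_rb8033094a_d43_d3b1c0ax3_1 := p_wQ_26_wN_1_rb8033094a_d43_d3b1c0ax3_1

theorem g__wQ_26_wN_1_rb8033094a_d43_d3b1c0ax3_0 : GoodKC AS k_wQ_26_wN_1_rb8033094a_d43_d3b1c0ax3_0 := p_wQ_26_wN_1_rb8033094a_d43_d3b1c0ax3_0 g__wQ_26_wN_1_rb8033094a_d43_d3b1c0ax3_1

theorem g__wQ_26_wN_1_rb8033094a_d43_d3b1c0ax3_2 : GoodKC AS k_wQ_26_wN_1_rb8033094a_d43_d3b1c0ax3_2 := p_wQ_26_wN_1_rb8033094a_d43_d3b1c0ax3_2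

theorem g_wQ_26_wN_1_rb8033094a_d43_d3b1c0ax6 : GoodKC AS c_wQ_26_wN_1_rb8033094a_d43_d3b1c0ax6 := p_wQ_26_wN_1_rb8033094a_d43_d3b1c0ax3 g__wQ_26_wN_1_rb8033094a_d43_d3b1c0ax3_0 g__wQ_26_wN_1_rb8033094a_d43_d3b1c0ax3_2

theorem g_wQ_26_wN_1_rb8033094a_d43_d3b1c08x6 : GoodKC AS c_wQ_26_wN_1_rb8033094a_d43_d3b1c08x6 := p_wQ_26_wN_1_rb8033094a_d43_d3b1c08x5

theorem g_wQ_26_wN_1_rb8033094a_d43_d3b1c07x6 : GoodKC AS c_wQ_26_wN_1_rb8033094a_d43_d3b1c07x6 := p_wQ_26_wN_1_rb8033094a_d43_d3b1c07x5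

theorem g_wQ_26_wN_1_rb8033094a_d43_d3b1c04x6 : GoodKC AS c_wQ_26_wN_1_rb8033094a_d43_d3b1c04x6 := p_wQ_26_wN_1_rb8033094a_d43_d3b1c04x5

theorem g_wQ_26_wN_1_rb8033094a_d43_d3b1c03x6 : GoodKC AS c_wQ_26_wN_1_rb8033094a_d43_d3b1c03x6 := p_wQ_26_wN_1_rb8033094a_d43_d3b1c03x5

theorem g_wQ_26_wN_1_rb8033094a_d43_d3b1c02x6 : GoodKC AS c_wQ_26_wN_1_rb8033094a_d43_d3b1c02x6 := p_wQ_26_wN_1_rb8033094a_d43_d3b1c02x5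

theorem g__wQ_26_wN_1_rb8033094a_d43_d3b1c00v4_0 : GoodKC AS k_wQ_26_wN_1_rb8033094a_d43_d3b1c00v4_0 := p_wQ_26_wN_1_rb8033094a_d43_d3b1c00v4_0

theorem g_wQ_26_wN_1_rb8033094a_d43_d3b1c00x6 : GoodKC AS c_wQ_26_wN_1_rb8033094a_d43_d3b1c00x6 := p_wQ_26_wN_1_rb8033094a_d43_d3b1c00x4 g__wQ_26_wN_1_rb8033094a_d43_d3b1c00v4_0

theorem g_wQ_26_wN_1_rb8033094a_d43_d3b1c01x6 : GoodKC AS c_wQ_26_wN_1_rb8033094a_d43_d3b1c01x6 := p_wQ_26_wN_1_rb8033094a_d43_d3b1c01x5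

theorem g_wQ_26_wN_1_rb8033094a_d43_d3b1c05x6 : GoodKC AS c_wQ_26_wN_1_rb8033094a_d43_d3b1c05x6 := p_wQ_26_wN_1_rb8033094a_d43_d3b1c05x5

theorem g_wQ_26_wN_1_rb8033094a_d43_d3b1c06x6 : GoodKC AS c_wQ_26_wN_1_rb8033094a_d43_d3b1c06x6 := p_wQ_26_wN_1_rb8033094a_d43_d3b1c06x5

theorem g_wQ_26_wN_1_rb8033094a_d43_d3b1c09x6 : GoodKC AS c_wQ_26_wN_1_rb8033094a_d43_d3b1c09x6 := p_wQ_26_wN_1_rb8033094a_d43_d3b1c09x5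

theorem g__wQ_26_wN_1_rb8033094a_d43_d3b1c0cx5_0 : GoodKC AS k_wQ_26_wN_1_rb8033094a_d43_d3b1c0cx5_0 := p_wQ_26_wN_1_rb8033094a_d43_d3b1c0cx5_0

theorem g_wQ_26_wN_1_rb8033094a_d43_d3b1c0cx6 : GoodKC AS c_wQ_26_wN_1_rb8033094a_d43_d3b1c0cx6 := p_wQ_26_wN_1_rb8033094a_d43_d3b1c0cx5 g__wQ_26_wN_1_rb8033094a_d43_d3b1c0cx5_0

theorem g__wQ_26_wN_1_rb8033094a_d43_d3b1cx6_0 : GoodKC AS k_wQ_26_wN_1_rb8033094a_d43_d3b1cx6_0 := p_wQ_26_wN_1_rb8033094a_d43_d3b1cx6_0 g_wQ_26_wN_1_rb8033094a_d43_d3b1c0ex6 g_wQ_26_wN_1_rb8033094a_d43_d3b1c0dx6 g_wQ_26_wN_1_rb8033094a_d43_d3b1c0bx6 g__wQ_26_wN_1_rb8033094a_d43_d3b1cx6_1 g__wQ_26_wN_1_rb8033094a_d43_d3b1cx6_6 g_wQ_26_wN_1_rb8033094a_d43_d3b1c0ax6 g_wQ_26_wN_1_rb8033094a_d43_d3b1c08x6 g_wQ_26_wN_1_rb8033094a_d43_d3b1c07x6 g_wQ_26_wN_1_rb8033094a_d43_d3b1c04x6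 g_wQ_26_wN_1_rb8033094a_d43_d3b1c03x6 g_wQ_26_wN_1_rb8033094a_d43_d3b1c02x6 g_wQ_26_wN_1_rb8033094a_d43_d3b1c00x6 g_wQ_26_wN_1_rb8033094a_d43_d3b1c01x6 g_wQ_26_wN_1_rb8033094a_d43_d3b1c05x6 g_wQ_26_wN_1_rb8033094a_d43_d3b1c06x6 g_wQ_26_wN_1_rb8033094a_d43_d3b1c09x6 g_wQ_26_wN_1_rb8033094a_d43_d3b1c0cx6

theorem g__wQ_26_wN_1_rb8033094a_d43_d3b1cx6_8 : GoodKC AS k_wQ_26_wN_1_rb8033094a_d43_d3b1cx6_8 := p_wQ_26_wN_1_rb8033094a_d43_d3b1cx6_8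

theorem g__wQ_26_wN_1_rb8033094a_d43_d3b1cx6_10 : GoodKC AS k_wQ_26_wN_1_rb8033094a_d43_d3b1cx6_10 := p_wQ_26_wN_1_rb8033094a_d43_d3b1cx6_10

theorem g__wQ_26_wN_1_rb8033094a_d43_d3b1cx6_9 : GoodKC AS k_wQ_26_wN_1_rb8033094a_d43_d3b1cx6_9 := p_wQ_26_wN_1_rb8033094a_d43_d3b1cx6_9 g__wQ_26_wN_1_rb8033094a_d43_d3b1cx6_10

theorem g__wQ_26_wN_1_rb8033094a_d43_d3b1cx6_7 : GoodKC AS k_wQ_26_wN_1_rb8033094a_d43_d3b1cx6_7 := p_wQ_26_wN_1_rb8033094a_d43_d3b1cx6_7 g__wQ_26_wN_1_rb8033094a_d43_d3b1cx6_8 g__wQ_26_wN_1_rb8033094a_d43_d3b1cx6_9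

theorem g__wQ_26_wN_1_rb8033094a_d43_d3b1c10v5_0 : GoodKC AS k_wQ_26_wN_1_rb8033094a_d43_d3b1c10v5_0 := p_wQ_26_wN_1_rb8033094a_d43_d3b1c10v5_0

theorem g_wQ_26_wN_1_rb8033094a_d43_d3b1c10x6 : GoodKC AS c_wQ_26_wN_1_rb8033094a_d43_d3b1c10x6 := p_wQ_26_wN_1_rb8033094a_d43_d3b1c10x5 g__wQ_26_wN_1_rb8033094a_d43_d3b1c10v5_0

theorem g_wQ_26_wN_1_rb8033094a_d43_d3b1c12x6 : GoodKC AS c_wQ_26_wN_1_rb8033094a_d43_d3b1c12x6 := p_wQ_26_wN_1_rb8033094a_d43_d3b1c12x5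

theorem g_wQ_26_wN_1_rb8033094a_d43_d3b1c16x6 : GoodKC AS c_wQ_26_wN_1_rb8033094a_d43_d3b1c16x6 := p_wQ_26_wN_1_rb8033094a_d43_d3b1c16x5

theorem g_wQ_26_wN_1_rb8033094a_d43_d3b1cx13 : GoodKC AS c_wQ_26_wN_1_rb8033094a_d43_d3b1cx13 := p_wQ_26_wN_1_rb8033094a_d43_d3b1cx6 g_wQ_26_wN_1_rb8033094a_d43_d3b1c18x6 g_wQ_26_wN_1_rb8033094a_d43_d3b1c17x6 g_wQ_26_wN_1_rb8033094a_d43_d3b1c15x6 g_wQ_26_wN_1_rb8033094a_d43_d3b1c14x6 g_wQ_26_wN_1_rb8033094a_d43_d3b1c13x6 g_wQ_26_wN_1_rb8033094a_d43_d3b1c11x6 g_wQ_26_wN_1_rb8033094a_d43_d3b1c0fx6 g__wQ_26_wN_1_rb8033094a_d43_d3b1cx6_0 g__wQ_26_wN_1_rb8033094a_d43_d3b1cx6_7 g_wQ_26_wN_1_rb8033094a_d43_d3b1c10x6 g_wQ_26_wN_1_rb8033094a_d43_d3b1c12x6 g_wQ_26_wN_1_rb8033094a_d43_d3b1c16x6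

theorem g_wQ_26_wN_1_rb8033094a_d43_d3b1bx13 : GoodKC AS c_wQ_26_wN_1_rb8033094a_d43_d3b1bx13 := p_wQ_26_wN_1_rb8033094a_d43_d3b1bx6

theorem g__wQ_26_wN_1_rb8033094a_d43_d3b19x6_4 : GoodKC AS k_wQ_26_wN_1_rb8033094a_d43_d3b19x6_4 := p_wQ_26_wN_1_rb8033094a_d43_d3b19x6_4

theorem g__wQ_26_wN_1_rb8033094a_d43_d3b19x6_3 : GoodKC AS k_wQ_26_wN_1_rb8033094a_d43_d3b19x6_3 := p_wQ_26_wN_1_rb8033094a_d43_d3b19x6_3 g__wQ_26_wN_1_rb8033094a_d43_d3b19x6_4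

theorem g__wQ_26_wN_1_rb8033094a_d43_d3b19x6_2 : GoodKC AS k_wQ_26_wN_1_rb8033094a_d43_d3b19x6_2 := p_wQ_26_wN_1_rb8033094a_d43_d3b19x6_2 g__wQ_26_wN_1_rb8033094a_d43_d3b19x6_3

theorem g__wQ_26_wN_1_rb8033094a_d43_d3b19x6_1 : GoodKC AS k_wQ_26_wN_1_rb8033094a_d43_d3b19x6_1 := p_wQ_26_wN_1_rb8033094a_d43_d3b19x6_1 g__wQ_26_wN_1_rb8033094a_d43_d3b19x6_2

theorem g__wQ_26_wN_1_rb8033094a_d43_d3b19x6_0 : GoodKC AS k_wQ_26_wN_1_rb8033094a_d43_d3b19x6_0 := p_wQ_26_wN_1_rb8033094a_d43_d3b19x6_0 g__wQ_26_wN_1_rb8033094a_d43_d3b19x6_1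

theorem g_wQ_26_wN_1_rb8033094a_d43_d3b19x13 : GoodKC AS c_wQ_26_wN_1_rb8033094a_d43_d3b19x13 := p_wQ_26_wN_1_rb8033094a_d43_d3b19x6 g__wQ_26_wN_1_rb8033094a_d43_d3b19x6_0

theorem g_wQ_26_wN_1_rb8033094a_d43_d3b1821x6 : GoodKC AS c_wQ_26_wN_1_rb8033094a_d43_d3b1821x6 := p_wQ_26_wN_1_rb8033094a_d43_d3b1821x5

theorem g_wQ_26_wN_1_rb8033094a_d43_d3b181ex6 : GoodKC AS c_wQ_26_wN_1_rb8033094a_d43_d3b181ex6 := p_wQ_26_wN_1_rb8033094a_d43_d3b181ex5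

theorem g_wQ_26_wN_1_rb8033094a_d43_d3b181dx6 : GoodKC AS c_wQ_26_wN_1_rb8033094a_d43_d3b181dx6 := p_wQ_26_wN_1_rb8033094a_d43_d3b181dx5

theorem g_wQ_26_wN_1_rb8033094a_d43_d3b181cx6 : GoodKC AS c_wQ_26_wN_1_rb8033094a_d43_d3b181cx6 := p_wQ_26_wN_1_rb8033094a_d43_d3b181cx5

theorem g_wQ_26_wN_1_rb8033094a_d43_d3b181bx6 : GoodKC AS c_wQ_26_wN_1_rb8033094a_d43_d3b181bx6 := p_wQ_26_wN_1_rb8033094a_d43_d3b181bx5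

theorem g_wQ_26_wN_1_rb8033094a_d43_d3b1818x6 : GoodKC AS c_wQ_26_wN_1_rb8033094a_d43_d3b1818x6 := p_wQ_26_wN_1_rb8033094a_d43_d3b1818x5

theorem g_wQ_26_wN_1_rb8033094a_d43_d3b1817x6 : GoodKC AS c_wQ_26_wN_1_rb8033094a_d43_d3b1817x6 := p_wQ_26_wN_1_rb8033094a_d43_d3b1817x5

theorem g_wQ_26_wN_1_rb8033094a_d43_d3b1816x6 : GoodKC AS c_wQ_26_wN_1_rb8033094a_d43_d3b1816x6 := p_wQ_26_wN_1_rb8033094a_d43_d3b1816x5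

theorem g_wQ_26_wN_1_rb8033094a_d43_d3b1814x6 : GoodKC AS c_wQ_26_wN_1_rb8033094a_d43_d3b1814x6 := p_wQ_26_wN_1_rb8033094a_d43_d3b1814x5

theorem g_wQ_26_wN_1_rb8033094a_d43_d3b1813x6 : GoodKC AS c_wQ_26_wN_1_rb8033094a_d43_d3b1813x6 := p_wQ_26_wN_1_rb8033094a_d43_d3b1813x5

theorem g_wQ_26_wN_1_rb8033094a_d43_d3b1811x6 : GoodKC AS c_wQ_26_wN_1_rb8033094a_d43_d3b1811x6 := p_wQ_26_wN_1_rb8033094a_d43_d3b1811x5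

theorem g_wQ_26_wN_1_rb8033094a_d43_d3b1810x6 : GoodKC AS c_wQ_26_wN_1_rb8033094a_d43_d3b1810x6 := p_wQ_26_wN_1_rb8033094a_d43_d3b1810x5

theorem g_wQ_26_wN_1_rb8033094a_d43_d3b180fx6 : GoodKC AS c_wQ_26_wN_1_rb8033094a_d43_d3b180fx6 := p_wQ_26_wN_1_rb8033094a_d43_d3b180fx5

theorem g_wQ_26_wN_1_rb8033094a_d43_d3b180ex6 : GoodKC AS c_wQ_26_wN_1_rb8033094a_d43_d3b180ex6 := p_wQ_26_wN_1_rb8033094a_d43_d3b180ex5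

theorem g_wQ_26_wN_1_rb8033094a_d43_d3b180dx6 : GoodKC AS c_wQ_26_wN_1_rb8033094a_d43_d3b180dx6 := p_wQ_26_wN_1_rb8033094a_d43_d3b180dx5

theorem g_wQ_26_wN_1_rb8033094a_d43_d3b180bx6 : GoodKC AS c_wQ_26_wN_1_rb8033094a_d43_d3b180bx6 := p_wQ_26_wN_1_rb8033094a_d43_d3b180bx5

theorem g_wQ_26_wN_1_rb8033094a_d43_d3b180ax6 : GoodKC AS c_wQ_26_wN_1_rb8033094a_d43_d3b180ax6 := p_wQ_26_wN_1_rb8033094a_d43_d3b180ax5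

theorem g_wQ_26_wN_1_rb8033094a_d43_d3b1809x6 : GoodKC AS c_wQ_26_wN_1_rb8033094a_d43_d3b1809x6 := p_wQ_26_wN_1_rb8033094a_d43_d3b1809x5

theorem g_wQ_26_wN_1_rb8033094a_d43_d3b1806x6 : GoodKC AS c_wQ_26_wN_1_rb8033094a_d43_d3b1806x6 := p_wQ_26_wN_1_rb8033094a_d43_d3b1806x5

theorem g_wQ_26_wN_1_rb8033094a_d43_d3b1803x6 : GoodKC AS c_wQ_26_wN_1_rb8033094a_d43_d3b1803x6 := p_wQ_26_wN_1_rb8033094a_d43_d3b1803x5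

theorem g__wQ_26_wN_1_rb8033094a_d43_d3b18x6_1 : GoodKC AS k_wQ_26_wN_1_rb8033094a_d43_d3b18x6_1 := p_wQ_26_wN_1_rb8033094a_d43_d3b18x6_1

theorem g__wQ_26_wN_1_rb8033094a_d43_d3b18x6_0 : GoodKC AS k_wQ_26_wN_1_rb8033094a_d43_d3b18x6_0 := p_wQ_26_wN_1_rb8033094a_d43_d3b18x6_0 g__wQ_26_wN_1_rb8033094a_d43_d3b18x6_1

theorem g__wQ_26_wN_1_rb8033094a_d43_d3b18x6_2 : GoodKC AS k_wQ_26_wN_1_rb8033094a_d43_d3b18x6_2 := p_wQ_26_wN_1_rb8033094a_d43_d3b18x6_2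

theorem g__wQ_26_wN_1_rb8033094a_d43_d3b18x6_3 : GoodKC AS k_wQ_26_wN_1_rb8033094a_d43_d3b18x6_3 := p_wQ_26_wN_1_rb8033094a_d43_d3b18x6_3

theorem g__wQ_26_wN_1_rb8033094a_d43_d3b18x6_4 : GoodKC AS k_wQ_26_wN_1_rb8033094a_d43_d3b18x6_4 := p_wQ_26_wN_1_rb8033094a_d43_d3b18x6_4

theorem g_wQ_26_wN_1_rb8033094a_d43_d3b1802x6 : GoodKC AS c_wQ_26_wN_1_rb8033094a_d43_d3b1802x6 := p_wQ_26_wN_1_rb8033094a_d43_d3b1802x5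

theorem g_wQ_26_wN_1_rb8033094a_d43_d3b1801x6 : GoodKC AS c_wQ_26_wN_1_rb8033094a_d43_d3b1801x6 := p_wQ_26_wN_1_rb8033094a_d43_d3b1801x5

theorem g_wQ_26_wN_1_rb8033094a_d43_d3b1800x6 : GoodKC AS c_wQ_26_wN_1_rb8033094a_d43_d3b1800x6 := p_wQ_26_wN_1_rb8033094a_d43_d3b1800x5

theorem g_wQ_26_wN_1_rb8033094a_d43_d3b1804x6 : GoodKC AS c_wQ_26_wN_1_rb8033094a_d43_d3b1804x6 := p_wQ_26_wN_1_rb8033094a_d43_d3b1804x5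

theorem g_wQ_26_wN_1_rb8033094a_d43_d3b1805x6 : GoodKC AS c_wQ_26_wN_1_rb8033094a_d43_d3b1805x6 := p_wQ_26_wN_1_rb8033094a_d43_d3b1805x5

theorem g_wQ_26_wN_1_rb8033094a_d43_d3b1807x6 : GoodKC AS c_wQ_26_wN_1_rb8033094a_d43_d3b1807x6 := p_wQ_26_wN_1_rb8033094a_d43_d3b1807x5

theorem g_wQ_26_wN_1_rb8033094a_d43_d3b1808x6 : GoodKC AS c_wQ_26_wN_1_rb8033094a_d43_d3b1808x6 := p_wQ_26_wN_1_rb8033094a_d43_d3b1808x5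

theorem g_wQ_26_wN_1_rb8033094a_d43_d3b180cx6 : GoodKC AS c_wQ_26_wN_1_rb8033094a_d43_d3b180cx6 := p_wQ_26_wN_1_rb8033094a_d43_d3b180cx5

theorem g_wQ_26_wN_1_rb8033094a_d43_d3b1812x6 : GoodKC AS c_wQ_26_wN_1_rb8033094a_d43_d3b1812x6 := p_wQ_26_wN_1_rb8033094a_d43_d3b1812x5

theorem g_wQ_26_wN_1_rb8033094a_d43_d3b1815x6 : GoodKC AS c_wQ_26_wN_1_rb8033094a_d43_d3b1815x6 := p_wQ_26_wN_1_rb8033094a_d43_d3b1815x5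

theorem g_wQ_26_wN_1_rb8033094a_d43_d3b1819x6 : GoodKC AS c_wQ_26_wN_1_rb8033094a_d43_d3b1819x6 := p_wQ_26_wN_1_rb8033094a_d43_d3b1819x5

theorem g_wQ_26_wN_1_rb8033094a_d43_d3b181ax6 : GoodKC AS c_wQ_26_wN_1_rb8033094a_d43_d3b181ax6 := p_wQ_26_wN_1_rb8033094a_d43_d3b181ax5

theorem g_wQ_26_wN_1_rb8033094a_d43_d3b181fx6 : GoodKC AS c_wQ_26_wN_1_rb8033094a_d43_d3b181fx6 := p_wQ_26_wN_1_rb8033094a_d43_d3b181fx5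

theorem g_wQ_26_wN_1_rb8033094a_d43_d3b1820x6 : GoodKC AS c_wQ_26_wN_1_rb8033094a_d43_d3b1820x6 := p_wQ_26_wN_1_rb8033094a_d43_d3b1820x5

theorem g_wQ_26_wN_1_rb8033094a_d43_d3b18x13 : GoodKC AS c_wQ_26_wN_1_rb8033094a_d43_d3b18x13 := p_wQ_26_wN_1_rb8033094a_d43_d3b18x6 g_wQ_26_wN_1_rb8033094a_d43_d3b1821x6 g_wQ_26_wN_1_rb8033094a_d43_d3b181ex6 g_wQ_26_wN_1_rb8033094a_d43_d3b181dx6 g_wQ_26_wN_1_rb8033094a_d43_d3b181cx6 g_wQ_26_wN_1_rb8033094a_d43_d3b181bx6 g_wQ_26_wN_1_rb8033094a_d43_d3b1818x6 g_wQ_26_wN_1_rb8033094a_d43_d3b1817x6 g_wQ_26_wN_1_rb8033094a_d43_d3b1816x6 g_wQ_26_wN_1_rb8033094a_d43_d3b1814x6 g_wQ_26_wN_1_rb8033094a_d43_d3b1813x6 g_wQ_26_wN_1_rb8033094a_d43_d3b1811x6 g_wQ_26_wN_1_rb8033094a_d43_d3b1810x6 g_wQ_26_wN_1_rb8033094a_d43_d3b180fx6 g_wQ_26_wN_1_rb8033094a_d43_d3b180ex6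 g_wQ_26_wN_1_rb8033094a_d43_d3b180dx6 g_wQ_26_wN_1_rb8033094a_d43_d3b180bx6 g_wQ_26_wN_1_rb8033094a_d43_d3b180ax6 g_wQ_26_wN_1_rb8033094a_d43_d3b1809x6 g_wQ_26_wN_1_rb8033094a_d43_d3b1806x6 g_wQ_26_wN_1_rb8033094a_d43_d3b1803x6 g__wQ_26_wN_1_rb8033094a_d43_d3b18x6_0 g__wQ_26_wN_1_rb8033094a_d43_d3b18x6_2 g__wQ_26_wN_1_rb8033094a_d43_d3b18x6_3 g__wQ_26_wN_1_rb8033094a_d43_d3b18x6_4 g_wQ_26_wN_1_rb8033094a_d43_d3b1802x6 g_wQ_26_wN_1_rb8033094a_d43_d3b1801x6 g_wQ_26_wN_1_rb8033094a_d43_d3b1800x6 g_wQ_26_wN_1_rb8033094a_d43_d3b1804x6 g_wQ_26_wN_1_rb8033094a_d43_d3b1805x6 g_wQ_26_wN_1_rb8033094a_d43_d3b1807x6 g_wQ_26_wN_1_rb8033094a_d43_d3b1808x6 g_wQ_26_wN_1_rb8033094a_d43_d3b180cx6 g_wQ_26_wN_1_rb8033094a_d43_d3b1812x6 g_wQ_26_wN_1_rb8033094a_d43_d3b1815x6 g_wQ_26_wN_1_rb8033094a_d43_d3b1819x6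 g_wQ_26_wN_1_rb8033094a_d43_d3b181ax6 g_wQ_26_wN_1_rb8033094a_d43_d3b181fx6 g_wQ_26_wN_1_rb8033094a_d43_d3b1820x6

theorem g_wQ_26_wN_1_rb8033094a_d43_d3b17x13 : GoodKC AS c_wQ_26_wN_1_rb8033094a_d43_d3b17x13 := p_wQ_26_wN_1_rb8033094a_d43_d3b17x6

theorem g_wQ_26_wN_1_rb8033094a_d43_d3b15x13 : GoodKC AS c_wQ_26_wN_1_rb8033094a_d43_d3b15x13 := p_wQ_26_wN_1_rb8033094a_d43_d3b15x6

theorem g__wQ_26_wN_1_rb8033094a_d43_d3b14x6_2 : GoodKC AS k_wQ_26_wN_1_rb8033094a_d43_d3b14x6_2 := p_wQ_26_wN_1_rb8033094a_d43_d3b14x6_2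

theorem g__wQ_26_wN_1_rb8033094a_d43_d3b14x6_4 : GoodKC AS k_wQ_26_wN_1_rb8033094a_d43_d3b14x6_4 := p_wQ_26_wN_1_rb8033094a_d43_d3b14x6_4

theorem g__wQ_26_wN_1_rb8033094a_d43_d3b14x6_3 : GoodKC AS k_wQ_26_wN_1_rb8033094a_d43_d3b14x6_3 := p_wQ_26_wN_1_rb8033094a_d43_d3b14x6_3 g__wQ_26_wN_1_rb8033094a_d43_d3b14x6_4

theorem g__wQ_26_wN_1_rb8033094a_d43_d3b14x6_1 : GoodKC AS k_wQ_26_wN_1_rb8033094a_d43_d3b14x6_1 := p_wQ_26_wN_1_rb8033094a_d43_d3b14x6_1 g__wQ_26_wN_1_rb8033094a_d43_d3b14x6_2 g__wQ_26_wN_1_rb8033094a_d43_d3b14x6_3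

theorem g__wQ_26_wN_1_rb8033094a_d43_d3b14x6_0 : GoodKC AS k_wQ_26_wN_1_rb8033094a_d43_d3b14x6_0 := p_wQ_26_wN_1_rb8033094a_d43_d3b14x6_0 g__wQ_26_wN_1_rb8033094a_d43_d3b14x6_1

theorem g_wQ_26_wN_1_rb8033094a_d43_d3b14x13 : GoodKC AS c_wQ_26_wN_1_rb8033094a_d43_d3b14x13 := p_wQ_26_wN_1_rb8033094a_d43_d3b14x6 g__wQ_26_wN_1_rb8033094a_d43_d3b14x6_0

theorem g_wQ_26_wN_1_rb8033094a_d43_d3b13x13 : GoodKC AS c_wQ_26_wN_1_rb8033094a_d43_d3b13x13 := p_wQ_26_wN_1_rb8033094a_d43_d3b13x6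

theorem g_wQ_26_wN_1_rb8033094a_d43_d3b10x13 : GoodKC AS c_wQ_26_wN_1_rb8033094a_d43_d3b10x13 := p_wQ_26_wN_1_rb8033094a_d43_d3b10x6

theorem g_wQ_26_wN_1_rb8033094a_d43_d3b0dx13 : GoodKC AS c_wQ_26_wN_1_rb8033094a_d43_d3b0dx13 := p_wQ_26_wN_1_rb8033094a_d43_d3b0dx6

theorem g_wQ_26_wN_1_rb8033094a_d43_d3b0cx13 : GoodKC AS c_wQ_26_wN_1_rb8033094a_d43_d3b0cx13 := p_wQ_26_wN_1_rb8033094a_d43_d3b0cx6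

theorem g__wQ_26_wN_1_rb8033094a_d43_d3b0bx6_1 : GoodKC AS k_wQ_26_wN_1_rb8033094a_d43_d3b0bx6_1 := p_wQ_26_wN_1_rb8033094a_d43_d3b0bx6_1

theorem g__wQ_26_wN_1_rb8033094a_d43_d3b0bx6_0 : GoodKC AS k_wQ_26_wN_1_rb8033094a_d43_d3b0bx6_0 := p_wQ_26_wN_1_rb8033094a_d43_d3b0bx6_0 g__wQ_26_wN_1_rb8033094a_d43_d3b0bx6_1

theorem g_wQ_26_wN_1_rb8033094a_d43_d3b0bx13 : GoodKC AS c_wQ_26_wN_1_rb8033094a_d43_d3b0bx13 := p_wQ_26_wN_1_rb8033094a_d43_d3b0bx6 g__wQ_26_wN_1_rb8033094a_d43_d3b0bx6_0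

theorem g__wQ_26_wN_1_rb8033094a_d43_d3b00v6_3 : GoodKC AS k_wQ_26_wN_1_rb8033094a_d43_d3b00v6_3 := p_wQ_26_wN_1_rb8033094a_d43_d3b00v6_3

theorem g__wQ_26_wN_1_rb8033094a_d43_d3b00v6_2 : GoodKC AS k_wQ_26_wN_1_rb8033094a_d43_d3b00v6_2 := p_wQ_26_wN_1_rb8033094a_d43_d3b00v6_2 g__wQ_26_wN_1_rb8033094a_d43_d3b00v6_3

theorem g__wQ_26_wN_1_rb8033094a_d43_d3b00v6_1 : GoodKC AS k_wQ_26_wN_1_rb8033094a_d43_d3b00v6_1 := p_wQ_26_wN_1_rb8033094a_d43_d3b00v6_1 g__wQ_26_wN_1_rb8033094a_d43_d3b00v6_2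

theorem g__wQ_26_wN_1_rb8033094a_d43_d3b00v6_6 : GoodKC AS k_wQ_26_wN_1_rb8033094a_d43_d3b00v6_6 := p_wQ_26_wN_1_rb8033094a_d43_d3b00v6_6

theorem g__wQ_26_wN_1_rb8033094a_d43_d3b00v6_5 : GoodKC AS k_wQ_26_wN_1_rb8033094a_d43_d3b00v6_5 := p_wQ_26_wN_1_rb8033094a_d43_d3b00v6_5 g__wQ_26_wN_1_rb8033094a_d43_d3b00v6_6

theorem g__wQ_26_wN_1_rb8033094a_d43_d3b00v6_4 : GoodKC AS k_wQ_26_wN_1_rb8033094a_d43_d3b00v6_4 := p_wQ_26_wN_1_rb8033094a_d43_d3b00v6_4 g__wQ_26_wN_1_rb8033094a_d43_d3b00v6_5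

theorem g__wQ_26_wN_1_rb8033094a_d43_d3b00v6_0 : GoodKC AS k_wQ_26_wN_1_rb8033094a_d43_d3b00v6_0 := p_wQ_26_wN_1_rb8033094a_d43_d3b00v6_0 g__wQ_26_wN_1_rb8033094a_d43_d3b00v6_1 g__wQ_26_wN_1_rb8033094a_d43_d3b00v6_4

theorem g_wQ_26_wN_1_rb8033094a_d43_d3b00x13 : GoodKC AS c_wQ_26_wN_1_rb8033094a_d43_d3b00x13 := p_wQ_26_wN_1_rb8033094a_d43_d3b00x6 g__wQ_26_wN_1_rb8033094a_d43_d3b00v6_0

theorem g__wQ_26_wN_1_rb8033094a_d43_d3bx13_2 : GoodKC AS k_wQ_26_wN_1_rb8033094a_d43_d3bx13_2 := p_wQ_26_wN_1_rb8033094a_d43_d3bx13_2 g_wQ_26_wN_1_rb8033094a_d43_d3b00x13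

theorem g__wQ_26_wN_1_rb8033094a_d43_d3bx13_8 : GoodKC AS k_wQ_26_wN_1_rb8033094a_d43_d3bx13_8 := p_wQ_26_wN_1_rb8033094a_d43_d3bx13_8

theorem g__wQ_26_wN_1_rb8033094a_d43_d3bx13_7 : GoodKC AS k_wQ_26_wN_1_rb8033094a_d43_d3bx13_7 := p_wQ_26_wN_1_rb8033094a_d43_d3bx13_7 g__wQ_26_wN_1_rb8033094a_d43_d3bx13_8

theorem g__wQ_26_wN_1_rb8033094a_d43_d3bx13_6 : GoodKC AS k_wQ_26_wN_1_rb8033094a_d43_d3bx13_6 := p_wQ_26_wN_1_rb8033094a_d43_d3bx13_6 g__wQ_26_wN_1_rb8033094a_d43_d3bx13_7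

theorem g__wQ_26_wN_1_rb8033094a_d43_d3bx13_5 : GoodKC AS k_wQ_26_wN_1_rb8033094a_d43_d3bx13_5 := p_wQ_26_wN_1_rb8033094a_d43_d3bx13_5 g__wQ_26_wN_1_rb8033094a_d43_d3bx13_6

theorem g__wQ_26_wN_1_rb8033094a_d43_d3bx13_4 : GoodKC AS k_wQ_26_wN_1_rb8033094a_d43_d3bx13_4 := p_wQ_26_wN_1_rb8033094a_d43_d3bx13_4 g__wQ_26_wN_1_rb8033094a_d43_d3bx13_5

theorem g__wQ_26_wN_1_rb8033094a_d43_d3bx13_23 : GoodKC AS k_wQ_26_wN_1_rb8033094a_d43_d3bx13_23 := p_wQ_26_wN_1_rb8033094a_d43_d3bx13_23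

theorem g__wQ_26_wN_1_rb8033094a_d43_d3bx13_22 : GoodKC AS k_wQ_26_wN_1_rb8033094a_d43_d3bx13_22 := p_wQ_26_wN_1_rb8033094a_d43_d3bx13_22 g__wQ_26_wN_1_rb8033094a_d43_d3bx13_23

theorem g__wQ_26_wN_1_rb8033094a_d43_d3bx13_25 : GoodKC AS k_wQ_26_wN_1_rb8033094a_d43_d3bx13_25 := p_wQ_26_wN_1_rb8033094a_d43_d3bx13_25

theorem g__wQ_26_wN_1_rb8033094a_d43_d3bx13_24 : GoodKC AS k_wQ_26_wN_1_rb8033094a_d43_d3bx13_24 := p_wQ_26_wN_1_rb8033094a_d43_d3bx13_24 g__wQ_26_wN_1_rb8033094a_d43_d3bx13_25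

theorem g__wQ_26_wN_1_rb8033094a_d43_d3bx13_21 : GoodKC AS k_wQ_26_wN_1_rb8033094a_d43_d3bx13_21 := p_wQ_26_wN_1_rb8033094a_d43_d3bx13_21 g__wQ_26_wN_1_rb8033094a_d43_d3bx13_22 g__wQ_26_wN_1_rb8033094a_d43_d3bx13_24

theorem g__wQ_26_wN_1_rb8033094a_d43_d3bx13_20 : GoodKC AS k_wQ_26_wN_1_rb8033094a_d43_d3bx13_20 := p_wQ_26_wN_1_rb8033094a_d43_d3bx13_20 g__wQ_26_wN_1_rb8033094a_d43_d3bx13_21

theorem g__wQ_26_wN_1_rb8033094a_d43_d3bx13_19 : GoodKC AS k_wQ_26_wN_1_rb8033094a_d43_d3bx13_19 := p_wQ_26_wN_1_rb8033094a_d43_d3bx13_19 g__wQ_26_wN_1_rb8033094a_d43_d3bx13_20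

theorem g__wQ_26_wN_1_rb8033094a_d43_d3bx13_18 : GoodKC AS k_wQ_26_wN_1_rb8033094a_d43_d3bx13_18 := p_wQ_26_wN_1_rb8033094a_d43_d3bx13_18 g__wQ_26_wN_1_rb8033094a_d43_d3bx13_19

theorem g__wQ_26_wN_1_rb8033094a_d43_d3bx13_17 : GoodKC AS k_wQ_26_wN_1_rb8033094a_d43_d3bx13_17 := p_wQ_26_wN_1_rb8033094a_d43_d3bx13_17 g__wQ_26_wN_1_rb8033094a_d43_d3bx13_18

theorem g__wQ_26_wN_1_rb8033094a_d43_d3bx13_16 : GoodKC AS k_wQ_26_wN_1_rb8033094a_d43_d3bx13_16 := p_wQ_26_wN_1_rb8033094a_d43_d3bx13_16 g__wQ_26_wN_1_rb8033094a_d43_d3bx13_17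

theorem g__wQ_26_wN_1_rb8033094a_d43_d3bx13_15 : GoodKC AS k_wQ_26_wN_1_rb8033094a_d43_d3bx13_15 := p_wQ_26_wN_1_rb8033094a_d43_d3bx13_15 g__wQ_26_wN_1_rb8033094a_d43_d3bx13_16

theorem g__wQ_26_wN_1_rb8033094a_d43_d3bx13_14 : GoodKC AS k_wQ_26_wN_1_rb8033094a_d43_d3bx13_14 := p_wQ_26_wN_1_rb8033094a_d43_d3bx13_14 g__wQ_26_wN_1_rb8033094a_d43_d3bx13_15

theorem g__wQ_26_wN_1_rb8033094a_d43_d3bx13_13 : GoodKC AS k_wQ_26_wN_1_rb8033094a_d43_d3bx13_13 := p_wQ_26_wN_1_rb8033094a_d43_d3bx13_13 g__wQ_26_wN_1_rb8033094a_d43_d3bx13_14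

theorem g__wQ_26_wN_1_rb8033094a_d43_d3bx13_12 : GoodKC AS k_wQ_26_wN_1_rb8033094a_d43_d3bx13_12 := p_wQ_26_wN_1_rb8033094a_d43_d3bx13_12 g__wQ_26_wN_1_rb8033094a_d43_d3bx13_13

theorem g__wQ_26_wN_1_rb8033094a_d43_d3bx13_11 : GoodKC AS k_wQ_26_wN_1_rb8033094a_d43_d3bx13_11 := p_wQ_26_wN_1_rb8033094a_d43_d3bx13_11 g__wQ_26_wN_1_rb8033094a_d43_d3bx13_12

theorem g__wQ_26_wN_1_rb8033094a_d43_d3bx13_10 : GoodKC AS k_wQ_26_wN_1_rb8033094a_d43_d3bx13_10 := p_wQ_26_wN_1_rb8033094a_d43_d3bx13_10 g__wQ_26_wN_1_rb8033094a_d43_d3bx13_11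

theorem g__wQ_26_wN_1_rb8033094a_d43_d3bx13_9 : GoodKC AS k_wQ_26_wN_1_rb8033094a_d43_d3bx13_9 := p_wQ_26_wN_1_rb8033094a_d43_d3bx13_9 g__wQ_26_wN_1_rb8033094a_d43_d3bx13_10

theorem g__wQ_26_wN_1_rb8033094a_d43_d3bx13_3 : GoodKC AS k_wQ_26_wN_1_rb8033094a_d43_d3bx13_3 := p_wQ_26_wN_1_rb8033094a_d43_d3bx13_3 g__wQ_26_wN_1_rb8033094a_d43_d3bx13_4 g__wQ_26_wN_1_rb8033094a_d43_d3bx13_9

theorem g__wQ_26_wN_1_rb8033094a_d43_d3bx13_26 : GoodKC AS k_wQ_26_wN_1_rb8033094a_d43_d3bx13_26 := p_wQ_26_wN_1_rb8033094a_d43_d3bx13_26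

theorem g__wQ_26_wN_1_rb8033094a_d43_d3bx13_1 : GoodKC AS k_wQ_26_wN_1_rb8033094a_d43_d3bx13_1 := p_wQ_26_wN_1_rb8033094a_d43_d3bx13_1 g__wQ_26_wN_1_rb8033094a_d43_d3bx13_2 g__wQ_26_wN_1_rb8033094a_d43_d3bx13_3 g__wQ_26_wN_1_rb8033094a_d43_d3bx13_26

theorem g__wQ_26_wN_1_rb8033094a_d43_d3bx13_0 : GoodKC AS k_wQ_26_wN_1_rb8033094a_d43_d3bx13_0 := p_wQ_26_wN_1_rb8033094a_d43_d3bx13_0 g__wQ_26_wN_1_rb8033094a_d43_d3bx13_1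

theorem g__wQ_26_wN_1_rb8033094a_d43_d3b0ax6_0 : GoodKC AS k_wQ_26_wN_1_rb8033094a_d43_d3b0ax6_0 := p_wQ_26_wN_1_rb8033094a_d43_d3b0ax6_0

theorem g_wQ_26_wN_1_rb8033094a_d43_d3b0ax13 : GoodKC AS c_wQ_26_wN_1_rb8033094a_d43_d3b0ax13 := p_wQ_26_wN_1_rb8033094a_d43_d3b0ax6 g__wQ_26_wN_1_rb8033094a_d43_d3b0ax6_0

theorem g_wQ_26_wN_1_rb8033094a_d43_d3b09x13 : GoodKC AS c_wQ_26_wN_1_rb8033094a_d43_d3b09x13 := p_wQ_26_wN_1_rb8033094a_d43_d3b09x6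

theorem g_wQ_26_wN_1_rb8033094a_d43_d3b06x13 : GoodKC AS c_wQ_26_wN_1_rb8033094a_d43_d3b06x13 := p_wQ_26_wN_1_rb8033094a_d43_d3b06x6

theorem g_wQ_26_wN_1_rb8033094a_d43_d3b05x13 : GoodKC AS c_wQ_26_wN_1_rb8033094a_d43_d3b05x13 := p_wQ_26_wN_1_rb8033094a_d43_d3b05x6

theorem g_wQ_26_wN_1_rb8033094a_d43_d3b03x13 : GoodKC AS c_wQ_26_wN_1_rb8033094a_d43_d3b03x13 := p_wQ_26_wN_1_rb8033094a_d43_d3b03x6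

theorem g_wQ_26_wN_1_rb8033094a_d43_d3b02x13 : GoodKC AS c_wQ_26_wN_1_rb8033094a_d43_d3b02x13 := p_wQ_26_wN_1_rb8033094a_d43_d3b02x6

theorem g_wQ_26_wN_1_rb8033094a_d43_d3b01x13 : GoodKC AS c_wQ_26_wN_1_rb8033094a_d43_d3b01x13 := p_wQ_26_wN_1_rb8033094a_d43_d3b01x6

theorem g_wQ_26_wN_1_rb8033094a_d43_d3b04x13 : GoodKC AS c_wQ_26_wN_1_rb8033094a_d43_d3b04x13 := p_wQ_26_wN_1_rb8033094a_d43_d3b04x6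

theorem g_wQ_26_wN_1_rb8033094a_d43_d3b07x13 : GoodKC AS c_wQ_26_wN_1_rb8033094a_d43_d3b07x13 := p_wQ_26_wN_1_rb8033094a_d43_d3b07x6

theorem g_wQ_26_wN_1_rb8033094a_d43_d3b08x13 : GoodKC AS c_wQ_26_wN_1_rb8033094a_d43_d3b08x13 := p_wQ_26_wN_1_rb8033094a_d43_d3b08x6

theorem g_wQ_26_wN_1_rb8033094a_d43_d3b0ex13 : GoodKC AS c_wQ_26_wN_1_rb8033094a_d43_d3b0ex13 := p_wQ_26_wN_1_rb8033094a_d43_d3b0ex6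

theorem g__wQ_26_wN_1_rb8033094a_d43_d3b0fx6_1 : GoodKC AS k_wQ_26_wN_1_rb8033094a_d43_d3b0fx6_1 := p_wQ_26_wN_1_rb8033094a_d43_d3b0fx6_1

theorem g__wQ_26_wN_1_rb8033094a_d43_d3b0fx6_5 : GoodKC AS k_wQ_26_wN_1_rb8033094a_d43_d3b0fx6_5 := p_wQ_26_wN_1_rb8033094a_d43_d3b0fx6_5

theorem g__wQ_26_wN_1_rb8033094a_d43_d3b0fx6_4 : GoodKC AS k_wQ_26_wN_1_rb8033094a_d43_d3b0fx6_4 := p_wQ_26_wN_1_rb8033094a_d43_d3b0fx6_4 g__wQ_26_wN_1_rb8033094a_d43_d3b0fx6_5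

theorem g__wQ_26_wN_1_rb8033094a_d43_d3b0fx6_3 : GoodKC AS k_wQ_26_wN_1_rb8033094a_d43_d3b0fx6_3 := p_wQ_26_wN_1_rb8033094a_d43_d3b0fx6_3 g__wQ_26_wN_1_rb8033094a_d43_d3b0fx6_4

theorem g__wQ_26_wN_1_rb8033094a_d43_d3b0fx6_2 : GoodKC AS k_wQ_26_wN_1_rb8033094a_d43_d3b0fx6_2 := p_wQ_26_wN_1_rb8033094a_d43_d3b0fx6_2 g__wQ_26_wN_1_rb8033094a_d43_d3b0fx6_3

theorem g__wQ_26_wN_1_rb8033094a_d43_d3b0fx6_0 : GoodKC AS k_wQ_26_wN_1_rb8033094a_d43_d3b0fx6_0 := p_wQ_26_wN_1_rb8033094a_d43_d3b0fx6_0 g__wQ_26_wN_1_rb8033094a_d43_d3b0fx6_1 g__wQ_26_wN_1_rb8033094a_d43_d3b0fx6_2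

theorem g_wQ_26_wN_1_rb8033094a_d43_d3b0fx13 : GoodKC AS c_wQ_26_wN_1_rb8033094a_d43_d3b0fx13 := p_wQ_26_wN_1_rb8033094a_d43_d3b0fx6 g__wQ_26_wN_1_rb8033094a_d43_d3b0fx6_0

theorem g_wQ_26_wN_1_rb8033094a_d43_d3b11x13 : GoodKC AS c_wQ_26_wN_1_rb8033094a_d43_d3b11x13 := p_wQ_26_wN_1_rb8033094a_d43_d3b11x6

theorem g_wQ_26_wN_1_rb8033094a_d43_d3b12x13 : GoodKC AS c_wQ_26_wN_1_rb8033094a_d43_d3b12x13 := p_wQ_26_wN_1_rb8033094a_d43_d3b12x6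

theorem g__wQ_26_wN_1_rb8033094a_d43_d3b16x6_3 : GoodKC AS k_wQ_26_wN_1_rb8033094a_d43_d3b16x6_3 := p_wQ_26_wN_1_rb8033094a_d43_d3b16x6_3

theorem g__wQ_26_wN_1_rb8033094a_d43_d3b16x6_2 : GoodKC AS k_wQ_26_wN_1_rb8033094a_d43_d3b16x6_2 := p_wQ_26_wN_1_rb8033094a_d43_d3b16x6_2 g__wQ_26_wN_1_rb8033094a_d43_d3b16x6_3

theorem g__wQ_26_wN_1_rb8033094a_d43_d3b16x6_1 : GoodKC AS k_wQ_26_wN_1_rb8033094a_d43_d3b16x6_1 := p_wQ_26_wN_1_rb8033094a_d43_d3b16x6_1 g__wQ_26_wN_1_rb8033094a_d43_d3b16x6_2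

theorem g__wQ_26_wN_1_rb8033094a_d43_d3b16x6_0 : GoodKC AS k_wQ_26_wN_1_rb8033094a_d43_d3b16x6_0 := p_wQ_26_wN_1_rb8033094a_d43_d3b16x6_0 g__wQ_26_wN_1_rb8033094a_d43_d3b16x6_1

theorem g_wQ_26_wN_1_rb8033094a_d43_d3b16x13 : GoodKC AS c_wQ_26_wN_1_rb8033094a_d43_d3b16x13 := p_wQ_26_wN_1_rb8033094a_d43_d3b16x6 g__wQ_26_wN_1_rb8033094a_d43_d3b16x6_0

theorem g_wQ_26_wN_1_rb8033094a_d43_d3b1a14x6 : GoodKC AS c_wQ_26_wN_1_rb8033094a_d43_d3b1a14x6 := p_wQ_26_wN_1_rb8033094a_d43_d3b1a14x5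

theorem g_wQ_26_wN_1_rb8033094a_d43_d3b1a12x6 : GoodKC AS c_wQ_26_wN_1_rb8033094a_d43_d3b1a12x6 := p_wQ_26_wN_1_rb8033094a_d43_d3b1a12x5

theorem g_wQ_26_wN_1_rb8033094a_d43_d3b1a11x6 : GoodKC AS c_wQ_26_wN_1_rb8033094a_d43_d3b1a11x6 := p_wQ_26_wN_1_rb8033094a_d43_d3b1a11x5

theorem g_wQ_26_wN_1_rb8033094a_d43_d3b1a0ex6 : GoodKC AS c_wQ_26_wN_1_rb8033094a_d43_d3b1a0ex6 := p_wQ_26_wN_1_rb8033094a_d43_d3b1a0ex5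

theorem g_wQ_26_wN_1_rb8033094a_d43_d3b1a0cx6 : GoodKC AS c_wQ_26_wN_1_rb8033094a_d43_d3b1a0cx6 := p_wQ_26_wN_1_rb8033094a_d43_d3b1a0cx5

theorem g_wQ_26_wN_1_rb8033094a_d43_d3b1a0bx6 : GoodKC AS c_wQ_26_wN_1_rb8033094a_d43_d3b1a0bx6 := p_wQ_26_wN_1_rb8033094a_d43_d3b1a0bx5

theorem g_wQ_26_wN_1_rb8033094a_d43_d3b1a09x6 : GoodKC AS c_wQ_26_wN_1_rb8033094a_d43_d3b1a09x6 := p_wQ_26_wN_1_rb8033094a_d43_d3b1a09x5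

theorem g_wQ_26_wN_1_rb8033094a_d43_d3b1a06x6 : GoodKC AS c_wQ_26_wN_1_rb8033094a_d43_d3b1a06x6 := p_wQ_26_wN_1_rb8033094a_d43_d3b1a06x5

theorem g_wQ_26_wN_1_rb8033094a_d43_d3b1a05x6 : GoodKC AS c_wQ_26_wN_1_rb8033094a_d43_d3b1a05x6 := p_wQ_26_wN_1_rb8033094a_d43_d3b1a05x5

theorem g_wQ_26_wN_1_rb8033094a_d43_d3b1a04x6 : GoodKC AS c_wQ_26_wN_1_rb8033094a_d43_d3b1a04x6 := p_wQ_26_wN_1_rb8033094a_d43_d3b1a04x5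

theorem g_wQ_26_wN_1_rb8033094a_d43_d3b1a01x6 : GoodKC AS c_wQ_26_wN_1_rb8033094a_d43_d3b1a01x6 := p_wQ_26_wN_1_rb8033094a_d43_d3b1a01x5

theorem g__wQ_26_wN_1_rb8033094a_d43_d3b1a0020v2_1 : GoodKC AS k_wQ_26_wN_1_rb8033094a_d43_d3b1a0020v2_1 := p_wQ_26_wN_1_rb8033094a_d43_d3b1a0020v2_1

theorem g__wQ_26_wN_1_rb8033094a_d43_d3b1a0020v2_0 : GoodKC AS k_wQ_26_wN_1_rb8033094a_d43_d3b1a0020v2_0 := p_wQ_26_wN_1_rb8033094a_d43_d3b1a0020v2_0 g__wQ_26_wN_1_rb8033094a_d43_d3b1a0020v2_1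

theorem g_wQ_26_wN_1_rb8033094a_d43_d3b1a0020x2 : GoodKC AS c_wQ_26_wN_1_rb8033094a_d43_d3b1a0020x2 := p_wQ_26_wN_1_rb8033094a_d43_d3b1a0020x2 g__wQ_26_wN_1_rb8033094a_d43_d3b1a0020v2_0

theorem g__wQ_26_wN_1_rb8033094a_d43_d3b1a001fx2_0 : GoodKC AS k_wQ_26_wN_1_rb8033094a_d43_d3b1a001fx2_0 := p_wQ_26_wN_1_rb8033094a_d43_d3b1a001fx2_0

theorem g_wQ_26_wN_1_rb8033094a_d43_d3b1a001fx2 : GoodKC AS c_wQ_26_wN_1_rb8033094a_d43_d3b1a001fx2 := p_wQ_26_wN_1_rb8033094a_d43_d3b1a001fx2 g__wQ_26_wN_1_rb8033094a_d43_d3b1a001fx2_0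

theorem g_wQ_26_wN_1_rb8033094a_d43_d3b1a001cx2 : GoodKC AS c_wQ_26_wN_1_rb8033094a_d43_d3b1a001cx2 := p_wQ_26_wN_1_rb8033094a_d43_d3b1a001cx2

theorem g_wQ_26_wN_1_rb8033094a_d43_d3b1a0019x2 : GoodKC AS c_wQ_26_wN_1_rb8033094a_d43_d3b1a0019x2 := p_wQ_26_wN_1_rb8033094a_d43_d3b1a0019x1

theorem g_wQ_26_wN_1_rb8033094a_d43_d3b1a0016x2 : GoodKC AS c_wQ_26_wN_1_rb8033094a_d43_d3b1a0016x2 := p_wQ_26_wN_1_rb8033094a_d43_d3b1a0016x1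

theorem g_wQ_26_wN_1_rb8033094a_d43_d3b1a0015x2 : GoodKC AS c_wQ_26_wN_1_rb8033094a_d43_d3b1a0015x2 := p_wQ_26_wN_1_rb8033094a_d43_d3b1a0015x1

theorem g_wQ_26_wN_1_rb8033094a_d43_d3b1a0014x2 : GoodKC AS c_wQ_26_wN_1_rb8033094a_d43_d3b1a0014x2 := p_wQ_26_wN_1_rb8033094a_d43_d3b1a0014x1

theorem g_wQ_26_wN_1_rb8033094a_d43_d3b1a0011x2 : GoodKC AS c_wQ_26_wN_1_rb8033094a_d43_d3b1a0011x2 := p_wQ_26_wN_1_rb8033094a_d43_d3b1a0011x2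

theorem g_wQ_26_wN_1_rb8033094a_d43_d3b1a0010x2 : GoodKC AS c_wQ_26_wN_1_rb8033094a_d43_d3b1a0010x2 := p_wQ_26_wN_1_rb8033094a_d43_d3b1a0010x1

theorem g_wQ_26_wN_1_rb8033094a_d43_d3b1a000cx2 : GoodKC AS c_wQ_26_wN_1_rb8033094a_d43_d3b1a000cx2 := p_wQ_26_wN_1_rb8033094a_d43_d3b1a000cx2

theorem g_wQ_26_wN_1_rb8033094a_d43_d3b1a000bx2 : GoodKC AS c_wQ_26_wN_1_rb8033094a_d43_d3b1a000bx2 := p_wQ_26_wN_1_rb8033094a_d43_d3b1a000bx1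

theorem g_wQ_26_wN_1_rb8033094a_d43_d3b1a0008x2 : GoodKC AS c_wQ_26_wN_1_rb8033094a_d43_d3b1a0008x2 := p_wQ_26_wN_1_rb8033094a_d43_d3b1a0008x1

theorem g_wQ_26_wN_1_rb8033094a_d43_d3b1a0007x2 : GoodKC AS c_wQ_26_wN_1_rb8033094a_d43_d3b1a0007x2 := p_wQ_26_wN_1_rb8033094a_d43_d3b1a0007x2

theorem g_wQ_26_wN_1_rb8033094a_d43_d3b1a0005x2 : GoodKC AS c_wQ_26_wN_1_rb8033094a_d43_d3b1a0005x2 := p_wQ_26_wN_1_rb8033094a_d43_d3b1a0005x2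

theorem g_wQ_26_wN_1_rb8033094a_d43_d3b1a0001x2 : GoodKC AS c_wQ_26_wN_1_rb8033094a_d43_d3b1a0001x2 := p_wQ_26_wN_1_rb8033094a_d43_d3b1a0001x1

theorem g_wQ_26_wN_1_rb8033094a_d43_d3b1a0000x2 : GoodKC AS c_wQ_26_wN_1_rb8033094a_d43_d3b1a0000x2 := p_wQ_26_wN_1_rb8033094a_d43_d3b1a0000x1

theorem g__wQ_26_wN_1_rb8033094a_d43_d3b1a00v2_1 : GoodKC AS k_wQ_26_wN_1_rb8033094a_d43_d3b1a00v2_1 := p_wQ_26_wN_1_rb8033094a_d43_d3b1a00v2_1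

theorem g__wQ_26_wN_1_rb8033094a_d43_d3b1a00v2_0 : GoodKC AS k_wQ_26_wN_1_rb8033094a_d43_d3b1a00v2_0 := p_wQ_26_wN_1_rb8033094a_d43_d3b1a00v2_0 g__wQ_26_wN_1_rb8033094a_d43_d3b1a00v2_1

theorem g_wQ_26_wN_1_rb8033094a_d43_d3b1a0002x2 : GoodKC AS c_wQ_26_wN_1_rb8033094a_d43_d3b1a0002x2 := p_wQ_26_wN_1_rb8033094a_d43_d3b1a0002x1

theorem g_wQ_26_wN_1_rb8033094a_d43_d3b1a0003x2 : GoodKC AS c_wQ_26_wN_1_rb8033094a_d43_d3b1a0003x2 := p_wQ_26_wN_1_rb8033094a_d43_d3b1a0003x1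

theorem g_wQ_26_wN_1_rb8033094a_d43_d3b1a0004x2 : GoodKC AS c_wQ_26_wN_1_rb8033094a_d43_d3b1a0004x2 := p_wQ_26_wN_1_rb8033094a_d43_d3b1a0004x1

theorem g_wQ_26_wN_1_rb8033094a_d43_d3b1a0006x2 : GoodKC AS c_wQ_26_wN_1_rb8033094a_d43_d3b1a0006x2 := p_wQ_26_wN_1_rb8033094a_d43_d3b1a0006x1

theorem g_wQ_26_wN_1_rb8033094a_d43_d3b1a0009x2 : GoodKC AS c_wQ_26_wN_1_rb8033094a_d43_d3b1a0009x2 := p_wQ_26_wN_1_rb8033094a_d43_d3b1a0009x2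

theorem g_wQ_26_wN_1_rb8033094a_d43_d3b1a000ax2 : GoodKC AS c_wQ_26_wN_1_rb8033094a_d43_d3b1a000ax2 := p_wQ_26_wN_1_rb8033094a_d43_d3b1a000ax1

theorem g_wQ_26_wN_1_rb8033094a_d43_d3b1a000dx2 : GoodKC AS c_wQ_26_wN_1_rb8033094a_d43_d3b1a000dx2 := p_wQ_26_wN_1_rb8033094a_d43_d3b1a000dx1

theorem g_wQ_26_wN_1_rb8033094a_d43_d3b1a000ex2 : GoodKC AS c_wQ_26_wN_1_rb8033094a_d43_d3b1a000ex2 := p_wQ_26_wN_1_rb8033094a_d43_d3b1a000ex1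

theorem g_wQ_26_wN_1_rb8033094a_d43_d3b1a000fx2 : GoodKC AS c_wQ_26_wN_1_rb8033094a_d43_d3b1a000fx2 := p_wQ_26_wN_1_rb8033094a_d43_d3b1a000fx1

theorem g__wQ_26_wN_1_rb8033094a_d43_d3b1a0012x1_5 : GoodKC AS k_wQ_26_wN_1_rb8033094a_d43_d3b1a0012x1_5 := p_wQ_26_wN_1_rb8033094a_d43_d3b1a0012x1_5

theorem g__wQ_26_wN_1_rb8033094a_d43_d3b1a0012x1_4 : GoodKC AS k_wQ_26_wN_1_rb8033094a_d43_d3b1a0012x1_4 := p_wQ_26_wN_1_rb8033094a_d43_d3b1a0012x1_4 g__wQ_26_wN_1_rb8033094a_d43_d3b1a0012x1_5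

theorem g__wQ_26_wN_1_rb8033094a_d43_d3b1a0012x1_3 : GoodKC AS k_wQ_26_wN_1_rb8033094a_d43_d3b1a0012x1_3 := p_wQ_26_wN_1_rb8033094a_d43_d3b1a0012x1_3 g__wQ_26_wN_1_rb8033094a_d43_d3b1a0012x1_4

theorem g__wQ_26_wN_1_rb8033094a_d43_d3b1a0012x1_2 : GoodKC AS k_wQ_26_wN_1_rb8033094a_d43_d3b1a0012x1_2 := p_wQ_26_wN_1_rb8033094a_d43_d3b1a0012x1_2 g__wQ_26_wN_1_rb8033094a_d43_d3b1a0012x1_3

theorem g__wQ_26_wN_1_rb8033094a_d43_d3b1a0012x1_1 : GoodKC AS k_wQ_26_wN_1_rb8033094a_d43_d3b1a0012x1_1 := p_wQ_26_wN_1_rb8033094a_d43_d3b1a0012x1_1 g__wQ_26_wN_1_rb8033094a_d43_d3b1a0012x1_2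

theorem g__wQ_26_wN_1_rb8033094a_d43_d3b1a0012x1_6 : GoodKC AS k_wQ_26_wN_1_rb8033094a_d43_d3b1a0012x1_6 := p_wQ_26_wN_1_rb8033094a_d43_d3b1a0012x1_6

theorem g__wQ_26_wN_1_rb8033094a_d43_d3b1a0012x1_0 : GoodKC AS k_wQ_26_wN_1_rb8033094a_d43_d3b1a0012x1_0 := p_wQ_26_wN_1_rb8033094a_d43_d3b1a0012x1_0 g__wQ_26_wN_1_rb8033094a_d43_d3b1a0012x1_1 g__wQ_26_wN_1_rb8033094a_d43_d3b1a0012x1_6

theorem g_wQ_26_wN_1_rb8033094a_d43_d3b1a0012x2 : GoodKC AS c_wQ_26_wN_1_rb8033094a_d43_d3b1a0012x2 := p_wQ_26_wN_1_rb8033094a_d43_d3b1a0012x1 g__wQ_26_wN_1_rb8033094a_d43_d3b1a0012x1_0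

theorem g_wQ_26_wN_1_rb8033094a_d43_d3b1a0013x2 : GoodKC AS c_wQ_26_wN_1_rb8033094a_d43_d3b1a0013x2 := p_wQ_26_wN_1_rb8033094a_d43_d3b1a0013x1

theorem g_wQ_26_wN_1_rb8033094a_d43_d3b1a0017x2 : GoodKC AS c_wQ_26_wN_1_rb8033094a_d43_d3b1a0017x2 := p_wQ_26_wN_1_rb8033094a_d43_d3b1a0017x1

theorem g_wQ_26_wN_1_rb8033094a_d43_d3b1a0018x2 : GoodKC AS c_wQ_26_wN_1_rb8033094a_d43_d3b1a0018x2 := p_wQ_26_wN_1_rb8033094a_d43_d3b1a0018x1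

theorem g__wQ_26_wN_1_rb8033094a_d43_d3b1a00v2_3 : GoodKC AS k_wQ_26_wN_1_rb8033094a_d43_d3b1a00v2_3 := p_wQ_26_wN_1_rb8033094a_d43_d3b1a00v2_3

theorem g__wQ_26_wN_1_rb8033094a_d43_d3b1a00v2_2 : GoodKC AS k_wQ_26_wN_1_rb8033094a_d43_d3b1a00v2_2 := p_wQ_26_wN_1_rb8033094a_d43_d3b1a00v2_2 g__wQ_26_wN_1_rb8033094a_d43_d3b1a00v2_3

theorem g_wQ_26_wN_1_rb8033094a_d43_d3b1a001ax2 : GoodKC AS c_wQ_26_wN_1_rb8033094a_d43_d3b1a001ax2 := p_wQ_26_wN_1_rb8033094a_d43_d3b1a001ax1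

theorem g_wQ_26_wN_1_rb8033094a_d43_d3b1a001bx2 : GoodKC AS c_wQ_26_wN_1_rb8033094a_d43_d3b1a001bx2 := p_wQ_26_wN_1_rb8033094a_d43_d3b1a001bx2

theorem g_wQ_26_wN_1_rb8033094a_d43_d3b1a001dx2 : GoodKC AS c_wQ_26_wN_1_rb8033094a_d43_d3b1a001dx2 := p_wQ_26_wN_1_rb8033094a_d43_d3b1a001dx2

theorem g_wQ_26_wN_1_rb8033094a_d43_d3b1a001ex2 : GoodKC AS c_wQ_26_wN_1_rb8033094a_d43_d3b1a001ex2 := p_wQ_26_wN_1_rb8033094a_d43_d3b1a001ex1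

theorem g_wQ_26_wN_1_rb8033094a_d43_d3b1a00x6 : GoodKC AS c_wQ_26_wN_1_rb8033094a_d43_d3b1a00x6 := p_wQ_26_wN_1_rb8033094a_d43_d3b1a00x2 g_wQ_26_wN_1_rb8033094a_d43_d3b1a0020x2 g_wQ_26_wN_1_rb8033094a_d43_d3b1a001fx2 g_wQ_26_wN_1_rb8033094a_d43_d3b1a001cx2 g_wQ_26_wN_1_rb8033094a_d43_d3b1a0019x2 g_wQ_26_wN_1_rb8033094a_d43_d3b1a0016x2 g_wQ_26_wN_1_rb8033094a_d43_d3b1a0015x2 g_wQ_26_wN_1_rb8033094a_d43_d3b1a0014x2 g_wQ_26_wN_1_rb8033094a_d43_d3b1a0011x2 g_wQ_26_wN_1_rb8033094a_d43_d3b1a0010x2 g_wQ_26_wN_1_rb8033094a_d43_d3b1a000cx2 g_wQ_26_wN_1_rb8033094a_d43_d3b1a000bx2 g_wQ_26_wN_1_rb8033094a_d43_d3b1a0008x2 g_wQ_26_wN_1_rb8033094a_d43_d3b1a0007x2 g_wQ_26_wN_1_rb8033094a_d43_d3b1a0005x2 g_wQ_26_wN_1_rb8033094a_d43_d3b1a0001x2 g_wQ_26_wN_1_rb8033094a_d43_d3b1a0000x2 g__wQ_26_wN_1_rb8033094a_d43_d3b1a00v2_0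 g_wQ_26_wN_1_rb8033094a_d43_d3b1a0002x2 g_wQ_26_wN_1_rb8033094a_d43_d3b1a0003x2 g_wQ_26_wN_1_rb8033094a_d43_d3b1a0004x2 g_wQ_26_wN_1_rb8033094a_d43_d3b1a0006x2 g_wQ_26_wN_1_rb8033094a_d43_d3b1a0009x2 g_wQ_26_wN_1_rb8033094a_d43_d3b1a000ax2 g_wQ_26_wN_1_rb8033094a_d43_d3b1a000dx2 g_wQ_26_wN_1_rb8033094a_d43_d3b1a000ex2 g_wQ_26_wN_1_rb8033094a_d43_d3b1a000fx2 g_wQ_26_wN_1_rb8033094a_d43_d3b1a0012x2 g_wQ_26_wN_1_rb8033094a_d43_d3b1a0013x2 g_wQ_26_wN_1_rb8033094a_d43_d3b1a0017x2 g_wQ_26_wN_1_rb8033094a_d43_d3b1a0018x2 g__wQ_26_wN_1_rb8033094a_d43_d3b1a00v2_2 g_wQ_26_wN_1_rb8033094a_d43_d3b1a001ax2 g_wQ_26_wN_1_rb8033094a_d43_d3b1a001bx2 g_wQ_26_wN_1_rb8033094a_d43_d3b1a001dx2 g_wQ_26_wN_1_rb8033094a_d43_d3b1a001ex2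

theorem g_wQ_26_wN_1_rb8033094a_d43_d3b1a02x6 : GoodKC AS c_wQ_26_wN_1_rb8033094a_d43_d3b1a02x6 := p_wQ_26_wN_1_rb8033094a_d43_d3b1a02x5

theorem g_wQ_26_wN_1_rb8033094a_d43_d3b1a03x6 : GoodKC AS c_wQ_26_wN_1_rb8033094a_d43_d3b1a03x6 := p_wQ_26_wN_1_rb8033094a_d43_d3b1a03x5

theorem g_wQ_26_wN_1_rb8033094a_d43_d3b1a07x6 : GoodKC AS c_wQ_26_wN_1_rb8033094a_d43_d3b1a07x6 := p_wQ_26_wN_1_rb8033094a_d43_d3b1a07x5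

theorem g_wQ_26_wN_1_rb8033094a_d43_d3b1a08x6 : GoodKC AS c_wQ_26_wN_1_rb8033094a_d43_d3b1a08x6 := p_wQ_26_wN_1_rb8033094a_d43_d3b1a08x5

theorem g__wQ_26_wN_1_rb8033094a_d43_d3b1ax6_7 : GoodKC AS k_wQ_26_wN_1_rb8033094a_d43_d3b1ax6_7 := p_wQ_26_wN_1_rb8033094a_d43_d3b1ax6_7

theorem g__wQ_26_wN_1_rb8033094a_d43_d3b1ax6_9 : GoodKC AS k_wQ_26_wN_1_rb8033094a_d43_d3b1ax6_9 := p_wQ_26_wN_1_rb8033094a_d43_d3b1ax6_9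

theorem g__wQ_26_wN_1_rb8033094a_d43_d3b1ax6_8 : GoodKC AS k_wQ_26_wN_1_rb8033094a_d43_d3b1ax6_8 := p_wQ_26_wN_1_rb8033094a_d43_d3b1ax6_8 g__wQ_26_wN_1_rb8033094a_d43_d3b1ax6_9

theorem g__wQ_26_wN_1_rb8033094a_d43_d3b1ax6_6 : GoodKC AS k_wQ_26_wN_1_rb8033094a_d43_d3b1ax6_6 := p_wQ_26_wN_1_rb8033094a_d43_d3b1ax6_6 g__wQ_26_wN_1_rb8033094a_d43_d3b1ax6_7 g__wQ_26_wN_1_rb8033094a_d43_d3b1ax6_8

theorem g__wQ_26_wN_1_rb8033094a_d43_d3b1ax6_5 : GoodKC AS k_wQ_26_wN_1_rb8033094a_d43_d3b1ax6_5 := p_wQ_26_wN_1_rb8033094a_d43_d3b1ax6_5 g__wQ_26_wN_1_rb8033094a_d43_d3b1ax6_6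

theorem g__wQ_26_wN_1_rb8033094a_d43_d3b1ax6_4 : GoodKC AS k_wQ_26_wN_1_rb8033094a_d43_d3b1ax6_4 := p_wQ_26_wN_1_rb8033094a_d43_d3b1ax6_4 g__wQ_26_wN_1_rb8033094a_d43_d3b1ax6_5

theorem g__wQ_26_wN_1_rb8033094a_d43_d3b1ax6_3 : GoodKC AS k_wQ_26_wN_1_rb8033094a_d43_d3b1ax6_3 := p_wQ_26_wN_1_rb8033094a_d43_d3b1ax6_3 g__wQ_26_wN_1_rb8033094a_d43_d3b1ax6_4

theorem g__wQ_26_wN_1_rb8033094a_d43_d3b1ax6_2 : GoodKC AS k_wQ_26_wN_1_rb8033094a_d43_d3b1ax6_2 := p_wQ_26_wN_1_rb8033094a_d43_d3b1ax6_2 g__wQ_26_wN_1_rb8033094a_d43_d3b1ax6_3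

theorem g__wQ_26_wN_1_rb8033094a_d43_d3b1ax6_1 : GoodKC AS k_wQ_26_wN_1_rb8033094a_d43_d3b1ax6_1 := p_wQ_26_wN_1_rb8033094a_d43_d3b1ax6_1 g__wQ_26_wN_1_rb8033094a_d43_d3b1ax6_2

theorem g__wQ_26_wN_1_rb8033094a_d43_d3b1ax6_0 : GoodKC AS k_wQ_26_wN_1_rb8033094a_d43_d3b1ax6_0 := p_wQ_26_wN_1_rb8033094a_d43_d3b1ax6_0 g__wQ_26_wN_1_rb8033094a_d43_d3b1ax6_1

theorem g__wQ_26_wN_1_rb8033094a_d43_d3b1ax6_10 : GoodKC AS k_wQ_26_wN_1_rb8033094a_d43_d3b1ax6_10 := p_wQ_26_wN_1_rb8033094a_d43_d3b1ax6_10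

theorem g_wQ_26_wN_1_rb8033094a_d43_d3b1a0ax6 : GoodKC AS c_wQ_26_wN_1_rb8033094a_d43_d3b1a0ax6 := p_wQ_26_wN_1_rb8033094a_d43_d3b1a0ax5

theorem g_wQ_26_wN_1_rb8033094a_d43_d3b1a0dx6 : GoodKC AS c_wQ_26_wN_1_rb8033094a_d43_d3b1a0dx6 := p_wQ_26_wN_1_rb8033094a_d43_d3b1a0dx5

theorem g_wQ_26_wN_1_rb8033094a_d43_d3b1a0fx6 : GoodKC AS c_wQ_26_wN_1_rb8033094a_d43_d3b1a0fx6 := p_wQ_26_wN_1_rb8033094a_d43_d3b1a0fx5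

theorem g_wQ_26_wN_1_rb8033094a_d43_d3b1a10x6 : GoodKC AS c_wQ_26_wN_1_rb8033094a_d43_d3b1a10x6 := p_wQ_26_wN_1_rb8033094a_d43_d3b1a10x5

theorem g_wQ_26_wN_1_rb8033094a_d43_d3b1a13x6 : GoodKC AS c_wQ_26_wN_1_rb8033094a_d43_d3b1a13x6 := p_wQ_26_wN_1_rb8033094a_d43_d3b1a13x5

theorem g_wQ_26_wN_1_rb8033094a_d43_d3b1a15x6 : GoodKC AS c_wQ_26_wN_1_rb8033094a_d43_d3b1a15x6 := p_wQ_26_wN_1_rb8033094a_d43_d3b1a15x5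

theorem g_wQ_26_wN_1_rb8033094a_d43_d3b1a16x6 : GoodKC AS c_wQ_26_wN_1_rb8033094a_d43_d3b1a16x6 := p_wQ_26_wN_1_rb8033094a_d43_d3b1a16x5

theorem g_wQ_26_wN_1_rb8033094a_d43_d3b1ax13 : GoodKC AS c_wQ_26_wN_1_rb8033094a_d43_d3b1ax13 := p_wQ_26_wN_1_rb8033094a_d43_d3b1ax6 g_wQ_26_wN_1_rb8033094a_d43_d3b1a14x6 g_wQ_26_wN_1_rb8033094a_d43_d3b1a12x6 g_wQ_26_wN_1_rb8033094a_d43_d3b1a11x6 g_wQ_26_wN_1_rb8033094a_d43_d3b1a0ex6 g_wQ_26_wN_1_rb8033094a_d43_d3b1a0cx6 g_wQ_26_wN_1_rb8033094a_d43_d3b1a0bx6 g_wQ_26_wN_1_rb8033094a_d43_d3b1a09x6 g_wQ_26_wN_1_rb8033094a_d43_d3b1a06x6 g_wQ_26_wN_1_rb8033094a_d43_d3b1a05x6 g_wQ_26_wN_1_rb8033094a_d43_d3b1a04x6 g_wQ_26_wN_1_rb8033094a_d43_d3b1a01x6 g_wQ_26_wN_1_rb8033094a_d43_d3b1a00x6 g_wQ_26_wN_1_rb8033094a_d43_d3b1a02x6 g_wQ_26_wN_1_rb8033094a_d43_d3b1a03x6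 g_wQ_26_wN_1_rb8033094a_d43_d3b1a07x6 g_wQ_26_wN_1_rb8033094a_d43_d3b1a08x6 g__wQ_26_wN_1_rb8033094a_d43_d3b1ax6_0 g__wQ_26_wN_1_rb8033094a_d43_d3b1ax6_10 g_wQ_26_wN_1_rb8033094a_d43_d3b1a0ax6 g_wQ_26_wN_1_rb8033094a_d43_d3b1a0dx6 g_wQ_26_wN_1_rb8033094a_d43_d3b1a0fx6 g_wQ_26_wN_1_rb8033094a_d43_d3b1a10x6 g_wQ_26_wN_1_rb8033094a_d43_d3b1a13x6 g_wQ_26_wN_1_rb8033094a_d43_d3b1a15x6 g_wQ_26_wN_1_rb8033094a_d43_d3b1a16x6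

theorem g_wQ_26_wN_1_rb8033094a_d43_d3b1ex13 : GoodKC AS c_wQ_26_wN_1_rb8033094a_d43_d3b1ex13 := p_wQ_26_wN_1_rb8033094a_d43_d3b1ex6

theorem g_wQ_26_wN_1_rb8033094a_d43_d3b22x13 : GoodKC AS c_wQ_26_wN_1_rb8033094a_d43_d3b22x13 := p_wQ_26_wN_1_rb8033094a_d43_d3b22x6

theorem g_wQ_26_wN_1_rb8033094a_d43_d3b23x13 : GoodKC AS c_wQ_26_wN_1_rb8033094a_d43_d3b23x13 := p_wQ_26_wN_1_rb8033094a_d43_d3b23x6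

theorem g_wQ_26_wN_1_rb8033094a_d43_d3b24x13 : GoodKC AS c_wQ_26_wN_1_rb8033094a_d43_d3b24x13 := p_wQ_26_wN_1_rb8033094a_d43_d3b24x6

theorem g_wQ_26_wN_1_rb8033094a_d43_d3b25x13 : GoodKC AS c_wQ_26_wN_1_rb8033094a_d43_d3b25x13 := p_wQ_26_wN_1_rb8033094a_d43_d3b25x6

theorem g_wQ_26_wN_1_rb8033094a_d43_d3b28x13 : GoodKC AS c_wQ_26_wN_1_rb8033094a_d43_d3b28x13 := p_wQ_26_wN_1_rb8033094a_d43_d3b28x6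

theorem g_wQ_26_wN_1_rb8033094a_d43_d3b2bx13 : GoodKC AS c_wQ_26_wN_1_rb8033094a_d43_d3b2bx13 := p_wQ_26_wN_1_rb8033094a_d43_d3b2bx6

theorem g_wQ_26_wN_1_rb8033094a_d43_d3bx2 : GoodKC AS c_wQ_26_wN_1_rb8033094a_d43_d3bx2 := p_wQ_26_wN_1_rb8033094a_d43_d3bx13 g_wQ_26_wN_1_rb8033094a_d43_d3b2dx13 g_wQ_26_wN_1_rb8033094a_d43_d3b2cx13 g_wQ_26_wN_1_rb8033094a_d43_d3b2ax13 g_wQ_26_wN_1_rb8033094a_d43_d3b29x13 g_wQ_26_wN_1_rb8033094a_d43_d3b27x13 g_wQ_26_wN_1_rb8033094a_d43_d3b26x13 g_wQ_26_wN_1_rb8033094a_d43_d3b21x13 g_wQ_26_wN_1_rb8033094a_d43_d3b20x13 g_wQ_26_wN_1_rb8033094a_d43_d3b1fx13 g_wQ_26_wN_1_rb8033094a_d43_d3b1dx13 g_wQ_26_wN_1_rb8033094a_d43_d3b1cx13 g_wQ_26_wN_1_rb8033094a_d43_d3b1bx13 g_wQ_26_wN_1_rb8033094a_d43_d3b19x13 g_wQ_26_wN_1_rb8033094a_d43_d3b18x13 g_wQ_26_wN_1_rb8033094a_d43_d3b17x13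 g_wQ_26_wN_1_rb8033094a_d43_d3b15x13 g_wQ_26_wN_1_rb8033094a_d43_d3b14x13 g_wQ_26_wN_1_rb8033094a_d43_d3b13x13 g_wQ_26_wN_1_rb8033094a_d43_d3b10x13 g_wQ_26_wN_1_rb8033094a_d43_d3b0dx13 g_wQ_26_wN_1_rb8033094a_d43_d3b0cx13 g_wQ_26_wN_1_rb8033094a_d43_d3b0bx13 g__wQ_26_wN_1_rb8033094a_d43_d3bx13_0 g_wQ_26_wN_1_rb8033094a_d43_d3b0ax13 g_wQ_26_wN_1_rb8033094a_d43_d3b09x13 g_wQ_26_wN_1_rb8033094a_d43_d3b06x13 g_wQ_26_wN_1_rb8033094a_d43_d3b05x13 g_wQ_26_wN_1_rb8033094a_d43_d3b03x13 g_wQ_26_wN_1_rb8033094a_d43_d3b02x13 g_wQ_26_wN_1_rb8033094a_d43_d3b01x13 g_wQ_26_wN_1_rb8033094a_d43_d3b04x13 g_wQ_26_wN_1_rb8033094a_d43_d3b07x13 g_wQ_26_wN_1_rb8033094a_d43_d3b08x13 g_wQ_26_wN_1_rb8033094a_d43_d3b0ex13 g_wQ_26_wN_1_rb8033094a_d43_d3b0fx13 g_wQ_26_wN_1_rb8033094a_d43_d3b11x13 g_wQ_26_wN_1_rb8033094a_d43_d3b12x13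 g_wQ_26_wN_1_rb8033094a_d43_d3b16x13 g_wQ_26_wN_1_rb8033094a_d43_d3b1ax13 g_wQ_26_wN_1_rb8033094a_d43_d3b1ex13 g_wQ_26_wN_1_rb8033094a_d43_d3b22x13 g_wQ_26_wN_1_rb8033094a_d43_d3b23x13 g_wQ_26_wN_1_rb8033094a_d43_d3b24x13 g_wQ_26_wN_1_rb8033094a_d43_d3b25x13 g_wQ_26_wN_1_rb8033094a_d43_d3b28x13 g_wQ_26_wN_1_rb8033094a_d43_d3b2bx13

theorem g__wQ_26_wN_1_rb8033094a_d43_d39x2_1 : GoodKC AS k_wQ_26_wN_1_rb8033094a_d43_d39x2_1 := p_wQ_26_wN_1_rb8033094a_d43_d39x2_1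

theorem g__wQ_26_wN_1_rb8033094a_d43_d39x2_0 : GoodKC AS k_wQ_26_wN_1_rb8033094a_d43_d39x2_0 := p_wQ_26_wN_1_rb8033094a_d43_d39x2_0 g__wQ_26_wN_1_rb8033094a_d43_d39x2_1

theorem g_wQ_26_wN_1_rb8033094a_d43_d39x2 : GoodKC AS c_wQ_26_wN_1_rb8033094a_d43_d39x2 := p_wQ_26_wN_1_rb8033094a_d43_d39x2 g__wQ_26_wN_1_rb8033094a_d43_d39x2_0

theorem g_wQ_26_wN_1_rb8033094a_d43_d38x2 : GoodKC AS c_wQ_26_wN_1_rb8033094a_d43_d38x2 := p_wQ_26_wN_1_rb8033094a_d43_d38x2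

theorem g_wQ_26_wN_1_rb8033094a_d43_d37x2 : GoodKC AS c_wQ_26_wN_1_rb8033094a_d43_d37x2 := p_wQ_26_wN_1_rb8033094a_d43_d37x2

theorem g_wQ_26_wN_1_rb8033094a_d43_d33x2 : GoodKC AS c_wQ_26_wN_1_rb8033094a_d43_d33x2 := p_wQ_26_wN_1_rb8033094a_d43_d33x2

theorem g_wQ_26_wN_1_rb8033094a_d43_d2ex2 : GoodKC AS c_wQ_26_wN_1_rb8033094a_d43_d2ex2 := p_wQ_26_wN_1_rb8033094a_d43_d2ex2

theorem g_wQ_26_wN_1_rb8033094a_d43_d2dx2 : GoodKC AS c_wQ_26_wN_1_rb8033094a_d43_d2dx2 := p_wQ_26_wN_1_rb8033094a_d43_d2dx2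

theorem g__wQ_26_wN_1_rb8033094a_d43_d2ax2_0 : GoodKC AS k_wQ_26_wN_1_rb8033094a_d43_d2ax2_0 := p_wQ_26_wN_1_rb8033094a_d43_d2ax2_0

theorem g_wQ_26_wN_1_rb8033094a_d43_d2ax2 : GoodKC AS c_wQ_26_wN_1_rb8033094a_d43_d2ax2 := p_wQ_26_wN_1_rb8033094a_d43_d2ax2 g__wQ_26_wN_1_rb8033094a_d43_d2ax2_0

theorem g_wQ_26_wN_1_rb8033094a_d43_d29x2 : GoodKC AS c_wQ_26_wN_1_rb8033094a_d43_d29x2 := p_wQ_26_wN_1_rb8033094a_d43_d29x2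

theorem g_wQ_26_wN_1_rb8033094a_d43_d27x2 : GoodKC AS c_wQ_26_wN_1_rb8033094a_d43_d27x2 := p_wQ_26_wN_1_rb8033094a_d43_d27x2

theorem g_wQ_26_wN_1_rb8033094a_d43_d25x2 : GoodKC AS c_wQ_26_wN_1_rb8033094a_d43_d25x2 := p_wQ_26_wN_1_rb8033094a_d43_d25x2

theorem g__wQ_26_wN_1_rb8033094a_d43_d24x2_2 : GoodKC AS k_wQ_26_wN_1_rb8033094a_d43_d24x2_2 := p_wQ_26_wN_1_rb8033094a_d43_d24x2_2

theorem g__wQ_26_wN_1_rb8033094a_d43_d24x2_1 : GoodKC AS k_wQ_26_wN_1_rb8033094a_d43_d24x2_1 := p_wQ_26_wN_1_rb8033094a_d43_d24x2_1 g__wQ_26_wN_1_rb8033094a_d43_d24x2_2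

theorem g__wQ_26_wN_1_rb8033094a_d43_d24x2_0 : GoodKC AS k_wQ_26_wN_1_rb8033094a_d43_d24x2_0 := p_wQ_26_wN_1_rb8033094a_d43_d24x2_0 g__wQ_26_wN_1_rb8033094a_d43_d24x2_1

theorem g__wQ_26_wN_1_rb8033094a_d43_d24x2_7 : GoodKC AS k_wQ_26_wN_1_rb8033094a_d43_d24x2_7 := p_wQ_26_wN_1_rb8033094a_d43_d24x2_7

theorem g__wQ_26_wN_1_rb8033094a_d43_d24x2_6 : GoodKC AS k_wQ_26_wN_1_rb8033094a_d43_d24x2_6 := p_wQ_26_wN_1_rb8033094a_d43_d24x2_6 g__wQ_26_wN_1_rb8033094a_d43_d24x2_7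

theorem g__wQ_26_wN_1_rb8033094a_d43_d24x2_5 : GoodKC AS k_wQ_26_wN_1_rb8033094a_d43_d24x2_5 := p_wQ_26_wN_1_rb8033094a_d43_d24x2_5 g__wQ_26_wN_1_rb8033094a_d43_d24x2_6

theorem g__wQ_26_wN_1_rb8033094a_d43_d24x2_4 : GoodKC AS k_wQ_26_wN_1_rb8033094a_d43_d24x2_4 := p_wQ_26_wN_1_rb8033094a_d43_d24x2_4 g__wQ_26_wN_1_rb8033094a_d43_d24x2_5

theorem g__wQ_26_wN_1_rb8033094a_d43_d24x2_3 : GoodKC AS k_wQ_26_wN_1_rb8033094a_d43_d24x2_3 := p_wQ_26_wN_1_rb8033094a_d43_d24x2_3 g__wQ_26_wN_1_rb8033094a_d43_d24x2_4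

theorem g__wQ_26_wN_1_rb8033094a_d43_d24x2_9 : GoodKC AS k_wQ_26_wN_1_rb8033094a_d43_d24x2_9 := p_wQ_26_wN_1_rb8033094a_d43_d24x2_9

theorem g__wQ_26_wN_1_rb8033094a_d43_d24x2_8 : GoodKC AS k_wQ_26_wN_1_rb8033094a_d43_d24x2_8 := p_wQ_26_wN_1_rb8033094a_d43_d24x2_8 g__wQ_26_wN_1_rb8033094a_d43_d24x2_9

theorem g_wQ_26_wN_1_rb8033094a_d43_d24x2 : GoodKC AS c_wQ_26_wN_1_rb8033094a_d43_d24x2 := p_wQ_26_wN_1_rb8033094a_d43_d24x2 g__wQ_26_wN_1_rb8033094a_d43_d24x2_0 g__wQ_26_wN_1_rb8033094a_d43_d24x2_3 g__wQ_26_wN_1_rb8033094a_d43_d24x2_8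

theorem g_wQ_26_wN_1_rb8033094a_d43_d21x2 : GoodKC AS c_wQ_26_wN_1_rb8033094a_d43_d21x2 := p_wQ_26_wN_1_rb8033094a_d43_d21x2

theorem g_wQ_26_wN_1_rb8033094a_d43_d20x2 : GoodKC AS c_wQ_26_wN_1_rb8033094a_d43_d20x2 := p_wQ_26_wN_1_rb8033094a_d43_d20x2

theorem g_wQ_26_wN_1_rb8033094a_d43_d1fx2 : GoodKC AS c_wQ_26_wN_1_rb8033094a_d43_d1fx2 := p_wQ_26_wN_1_rb8033094a_d43_d1fx2

theorem g_wQ_26_wN_1_rb8033094a_d43_d1bx2 : GoodKC AS c_wQ_26_wN_1_rb8033094a_d43_d1bx2 := p_wQ_26_wN_1_rb8033094a_d43_d1bx2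

theorem g_wQ_26_wN_1_rb8033094a_d43_d18x2 : GoodKC AS c_wQ_26_wN_1_rb8033094a_d43_d18x2 := p_wQ_26_wN_1_rb8033094a_d43_d18x2

theorem g_wQ_26_wN_1_rb8033094a_d43_d16x2 : GoodKC AS c_wQ_26_wN_1_rb8033094a_d43_d16x2 := p_wQ_26_wN_1_rb8033094a_d43_d16x2

theorem g_wQ_26_wN_1_rb8033094a_d43_d14x2 : GoodKC AS c_wQ_26_wN_1_rb8033094a_d43_d14x2 := p_wQ_26_wN_1_rb8033094a_d43_d14x2

theorem g_wQ_26_wN_1_rb8033094a_d43_d13x2 : GoodKC AS c_wQ_26_wN_1_rb8033094a_d43_d13x2 := p_wQ_26_wN_1_rb8033094a_d43_d13x2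

theorem g_wQ_26_wN_1_rb8033094a_d43_d12x2 : GoodKC AS c_wQ_26_wN_1_rb8033094a_d43_d12x2 := p_wQ_26_wN_1_rb8033094a_d43_d12x2

theorem g_wQ_26_wN_1_rb8033094a_d43_d10x2 : GoodKC AS c_wQ_26_wN_1_rb8033094a_d43_d10x2 := p_wQ_26_wN_1_rb8033094a_d43_d10x2

theorem g__wQ_26_wN_1_rb8033094a_d43_d0fx2_0 : GoodKC AS k_wQ_26_wN_1_rb8033094a_d43_d0fx2_0 := p_wQ_26_wN_1_rb8033094a_d43_d0fx2_0

theorem g_wQ_26_wN_1_rb8033094a_d43_d0fx2 : GoodKC AS c_wQ_26_wN_1_rb8033094a_d43_d0fx2 := p_wQ_26_wN_1_rb8033094a_d43_d0fx2 g__wQ_26_wN_1_rb8033094a_d43_d0fx2_0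

theorem g_wQ_26_wN_1_rb8033094a_d43_d0bx2 : GoodKC AS c_wQ_26_wN_1_rb8033094a_d43_d0bx2 := p_wQ_26_wN_1_rb8033094a_d43_d0bx2

theorem g_wQ_26_wN_1_rb8033094a_d43_d0ax2 : GoodKC AS c_wQ_26_wN_1_rb8033094a_d43_d0ax2 := p_wQ_26_wN_1_rb8033094a_d43_d0ax2

theorem g_wQ_26_wN_1_rb8033094a_d43_d09x2 : GoodKC AS c_wQ_26_wN_1_rb8033094a_d43_d09x2 := p_wQ_26_wN_1_rb8033094a_d43_d09x2

theorem g_wQ_26_wN_1_rb8033094a_d43_d06x2 : GoodKC AS c_wQ_26_wN_1_rb8033094a_d43_d06x2 := p_wQ_26_wN_1_rb8033094a_d43_d06x2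

theorem g_wQ_26_wN_1_rb8033094a_d43_d02x2 : GoodKC AS c_wQ_26_wN_1_rb8033094a_d43_d02x2 := p_wQ_26_wN_1_rb8033094a_d43_d02x2

theorem g_wQ_26_wN_1_rb8033094a_d43_d01x2 : GoodKC AS c_wQ_26_wN_1_rb8033094a_d43_d01x2 := p_wQ_26_wN_1_rb8033094a_d43_d01x2

theorem g_wQ_26_wN_1_rb8033094a_d43_d00x2 : GoodKC AS c_wQ_26_wN_1_rb8033094a_d43_d00x2 := p_wQ_26_wN_1_rb8033094a_d43_d00x2

theorem g_wQ_26_wN_1_rb8033094a_d43_d03x2 : GoodKC AS c_wQ_26_wN_1_rb8033094a_d43_d03x2 := p_wQ_26_wN_1_rb8033094a_d43_d03x2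

theorem g_wQ_26_wN_1_rb8033094a_d43_d04x2 : GoodKC AS c_wQ_26_wN_1_rb8033094a_d43_d04x2 := p_wQ_26_wN_1_rb8033094a_d43_d04x2

theorem g__wQ_26_wN_1_rb8033094ax2_1 : GoodKC AS k_wQ_26_wN_1_rb8033094ax2_1 := p_wQ_26_wN_1_rb8033094ax2_1

theorem g_wQ_26_wN_1_rb8033094a_d43_d05x2 : GoodKC AS c_wQ_26_wN_1_rb8033094a_d43_d05x2 := p_wQ_26_wN_1_rb8033094a_d43_d05x2

theorem g_wQ_26_wN_1_rb8033094a_d43_d07x2 : GoodKC AS c_wQ_26_wN_1_rb8033094a_d43_d07x2 := p_wQ_26_wN_1_rb8033094a_d43_d07x2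

theorem g_wQ_26_wN_1_rb8033094a_d43_d08x2 : GoodKC AS c_wQ_26_wN_1_rb8033094a_d43_d08x2 := p_wQ_26_wN_1_rb8033094a_d43_d08x2

theorem g__wQ_26_wN_1_rb8033094ax2_0 : GoodKC AS k_wQ_26_wN_1_rb8033094ax2_0 := p_wQ_26_wN_1_rb8033094ax2_0 g_wQ_26_wN_1_rb8033094a_d43_d0bx2 g_wQ_26_wN_1_rb8033094a_d43_d0ax2 g_wQ_26_wN_1_rb8033094a_d43_d09x2 g_wQ_26_wN_1_rb8033094a_d43_d06x2 g_wQ_26_wN_1_rb8033094a_d43_d02x2 g_wQ_26_wN_1_rb8033094a_d43_d01x2 g_wQ_26_wN_1_rb8033094a_d43_d00x2 g_wQ_26_wN_1_rb8033094a_d43_d03x2 g_wQ_26_wN_1_rb8033094a_d43_d04x2 g__wQ_26_wN_1_rb8033094ax2_1 g_wQ_26_wN_1_rb8033094a_d43_d05x2 g_wQ_26_wN_1_rb8033094a_d43_d07x2 g_wQ_26_wN_1_rb8033094a_d43_d08x2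

theorem g__wQ_26_wN_1_rb8033094ax2_2 : GoodKC AS k_wQ_26_wN_1_rb8033094ax2_2 := p_wQ_26_wN_1_rb8033094ax2_2

theorem g_wQ_26_wN_1_rb8033094a_d43_d0cx2 : GoodKC AS c_wQ_26_wN_1_rb8033094a_d43_d0cx2 := p_wQ_26_wN_1_rb8033094a_d43_d0cx2

theorem g_wQ_26_wN_1_rb8033094a_d43_d0dx2 : GoodKC AS c_wQ_26_wN_1_rb8033094a_d43_d0dx2 := p_wQ_26_wN_1_rb8033094a_d43_d0dx2

theorem g__wQ_26_wN_1_rb8033094ax2_7 : GoodKC AS k_wQ_26_wN_1_rb8033094ax2_7 := p_wQ_26_wN_1_rb8033094ax2_7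

theorem g__wQ_26_wN_1_rb8033094ax2_6 : GoodKC AS k_wQ_26_wN_1_rb8033094ax2_6 := p_wQ_26_wN_1_rb8033094ax2_6 g__wQ_26_wN_1_rb8033094ax2_7

theorem g__wQ_26_wN_1_rb8033094ax2_5 : GoodKC AS k_wQ_26_wN_1_rb8033094ax2_5 := p_wQ_26_wN_1_rb8033094ax2_5 g__wQ_26_wN_1_rb8033094ax2_6

theorem g__wQ_26_wN_1_rb8033094ax2_8 : GoodKC AS k_wQ_26_wN_1_rb8033094ax2_8 := p_wQ_26_wN_1_rb8033094ax2_8

theorem g__wQ_26_wN_1_rb8033094ax2_11 : GoodKC AS k_wQ_26_wN_1_rb8033094ax2_11 := p_wQ_26_wN_1_rb8033094ax2_11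

theorem g__wQ_26_wN_1_rb8033094ax2_12 : GoodKC AS k_wQ_26_wN_1_rb8033094ax2_12 := p_wQ_26_wN_1_rb8033094ax2_12

theorem g__wQ_26_wN_1_rb8033094ax2_10 : GoodKC AS k_wQ_26_wN_1_rb8033094ax2_10 := p_wQ_26_wN_1_rb8033094ax2_10 g__wQ_26_wN_1_rb8033094ax2_11 g__wQ_26_wN_1_rb8033094ax2_12

theorem g__wQ_26_wN_1_rb8033094ax2_16 : GoodKC AS k_wQ_26_wN_1_rb8033094ax2_16 := p_wQ_26_wN_1_rb8033094ax2_16

theorem g__wQ_26_wN_1_rb8033094ax2_15 : GoodKC AS k_wQ_26_wN_1_rb8033094ax2_15 := p_wQ_26_wN_1_rb8033094ax2_15 g__wQ_26_wN_1_rb8033094ax2_16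

theorem g__wQ_26_wN_1_rb8033094ax2_14 : GoodKC AS k_wQ_26_wN_1_rb8033094ax2_14 := p_wQ_26_wN_1_rb8033094ax2_14 g__wQ_26_wN_1_rb8033094ax2_15

theorem g__wQ_26_wN_1_rb8033094ax2_13 : GoodKC AS k_wQ_26_wN_1_rb8033094ax2_13 := p_wQ_26_wN_1_rb8033094ax2_13 g__wQ_26_wN_1_rb8033094ax2_14

theorem g__wQ_26_wN_1_rb8033094ax2_9 : GoodKC AS k_wQ_26_wN_1_rb8033094ax2_9 := p_wQ_26_wN_1_rb8033094ax2_9 g__wQ_26_wN_1_rb8033094ax2_10 g__wQ_26_wN_1_rb8033094ax2_13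

theorem g__wQ_26_wN_1_rb8033094ax2_4 : GoodKC AS k_wQ_26_wN_1_rb8033094ax2_4 := p_wQ_26_wN_1_rb8033094ax2_4 g__wQ_26_wN_1_rb8033094ax2_5 g__wQ_26_wN_1_rb8033094ax2_8 g__wQ_26_wN_1_rb8033094ax2_9

theorem g__wQ_26_wN_1_rb8033094ax2_17 : GoodKC AS k_wQ_26_wN_1_rb8033094ax2_17 := p_wQ_26_wN_1_rb8033094ax2_17

theorem g__wQ_26_wN_1_rb8033094ax2_3 : GoodKC AS k_wQ_26_wN_1_rb8033094ax2_3 := p_wQ_26_wN_1_rb8033094ax2_3 g__wQ_26_wN_1_rb8033094ax2_4 g__wQ_26_wN_1_rb8033094ax2_17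

theorem g__wQ_26_wN_1_rb8033094a_d43_d0ex2_0 : GoodKC AS k_wQ_26_wN_1_rb8033094a_d43_d0ex2_0 := p_wQ_26_wN_1_rb8033094a_d43_d0ex2_0

theorem g_wQ_26_wN_1_rb8033094a_d43_d0ex2 : GoodKC AS c_wQ_26_wN_1_rb8033094a_d43_d0ex2 := p_wQ_26_wN_1_rb8033094a_d43_d0ex2 g__wQ_26_wN_1_rb8033094a_d43_d0ex2_0

theorem g_wQ_26_wN_1_rb8033094a_d43_d11x2 : GoodKC AS c_wQ_26_wN_1_rb8033094a_d43_d11x2 := p_wQ_26_wN_1_rb8033094a_d43_d11x2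

theorem g_wQ_26_wN_1_rb8033094a_d43_d15x2 : GoodKC AS c_wQ_26_wN_1_rb8033094a_d43_d15x2 := p_wQ_26_wN_1_rb8033094a_d43_d15x2

theorem g_wQ_26_wN_1_rb8033094a_d43_d17x2 : GoodKC AS c_wQ_26_wN_1_rb8033094a_d43_d17x2 := p_wQ_26_wN_1_rb8033094a_d43_d17x2

theorem g_wQ_26_wN_1_rb8033094a_d43_d19x2 : GoodKC AS c_wQ_26_wN_1_rb8033094a_d43_d19x2 := p_wQ_26_wN_1_rb8033094a_d43_d19x2

theorem g_wQ_26_wN_1_rb8033094a_d43_d1ax2 : GoodKC AS c_wQ_26_wN_1_rb8033094a_d43_d1ax2 := p_wQ_26_wN_1_rb8033094a_d43_d1ax2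

theorem g_wQ_26_wN_1_rb8033094a_d43_d1cx2 : GoodKC AS c_wQ_26_wN_1_rb8033094a_d43_d1cx2 := p_wQ_26_wN_1_rb8033094a_d43_d1cx2

theorem g_wQ_26_wN_1_rb8033094a_d43_d1dx2 : GoodKC AS c_wQ_26_wN_1_rb8033094a_d43_d1dx2 := p_wQ_26_wN_1_rb8033094a_d43_d1dx2

theorem g_wQ_26_wN_1_rb8033094a_d43_d1ex2 : GoodKC AS c_wQ_26_wN_1_rb8033094a_d43_d1ex2 := p_wQ_26_wN_1_rb8033094a_d43_d1ex2

theorem g__wQ_26_wN_1_rb8033094a_d43_d22x2_0 : GoodKC AS k_wQ_26_wN_1_rb8033094a_d43_d22x2_0 := p_wQ_26_wN_1_rb8033094a_d43_d22x2_0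

theorem g__wQ_26_wN_1_rb8033094a_d43_d22x2_3 : GoodKC AS k_wQ_26_wN_1_rb8033094a_d43_d22x2_3 := p_wQ_26_wN_1_rb8033094a_d43_d22x2_3

theorem g__wQ_26_wN_1_rb8033094a_d43_d22x2_2 : GoodKC AS k_wQ_26_wN_1_rb8033094a_d43_d22x2_2 := p_wQ_26_wN_1_rb8033094a_d43_d22x2_2 g__wQ_26_wN_1_rb8033094a_d43_d22x2_3

theorem g__wQ_26_wN_1_rb8033094a_d43_d22x2_1 : GoodKC AS k_wQ_26_wN_1_rb8033094a_d43_d22x2_1 := p_wQ_26_wN_1_rb8033094a_d43_d22x2_1 g__wQ_26_wN_1_rb8033094a_d43_d22x2_2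

theorem g__wQ_26_wN_1_rb8033094a_d43_d22x2_8 : GoodKC AS k_wQ_26_wN_1_rb8033094a_d43_d22x2_8 := p_wQ_26_wN_1_rb8033094a_d43_d22x2_8

theorem g__wQ_26_wN_1_rb8033094a_d43_d22x2_7 : GoodKC AS k_wQ_26_wN_1_rb8033094a_d43_d22x2_7 := p_wQ_26_wN_1_rb8033094a_d43_d22x2_7 g__wQ_26_wN_1_rb8033094a_d43_d22x2_8

theorem g__wQ_26_wN_1_rb8033094a_d43_d22x2_6 : GoodKC AS k_wQ_26_wN_1_rb8033094a_d43_d22x2_6 := p_wQ_26_wN_1_rb8033094a_d43_d22x2_6 g__wQ_26_wN_1_rb8033094a_d43_d22x2_7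

theorem g__wQ_26_wN_1_rb8033094a_d43_d22x2_12 : GoodKC AS k_wQ_26_wN_1_rb8033094a_d43_d22x2_12 := p_wQ_26_wN_1_rb8033094a_d43_d22x2_12

theorem g__wQ_26_wN_1_rb8033094a_d43_d22x2_13 : GoodKC AS k_wQ_26_wN_1_rb8033094a_d43_d22x2_13 := p_wQ_26_wN_1_rb8033094a_d43_d22x2_13

theorem g__wQ_26_wN_1_rb8033094a_d43_d22x2_11 : GoodKC AS k_wQ_26_wN_1_rb8033094a_d43_d22x2_11 := p_wQ_26_wN_1_rb8033094a_d43_d22x2_11 g__wQ_26_wN_1_rb8033094a_d43_d22x2_12 g__wQ_26_wN_1_rb8033094a_d43_d22x2_13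

theorem g__wQ_26_wN_1_rb8033094a_d43_d22x2_10 : GoodKC AS k_wQ_26_wN_1_rb8033094a_d43_d22x2_10 := p_wQ_26_wN_1_rb8033094a_d43_d22x2_10 g__wQ_26_wN_1_rb8033094a_d43_d22x2_11

theorem g__wQ_26_wN_1_rb8033094a_d43_d22x2_9 : GoodKC AS k_wQ_26_wN_1_rb8033094a_d43_d22x2_9 := p_wQ_26_wN_1_rb8033094a_d43_d22x2_9 g__wQ_26_wN_1_rb8033094a_d43_d22x2_10

theorem g__wQ_26_wN_1_rb8033094a_d43_d22x2_5 : GoodKC AS k_wQ_26_wN_1_rb8033094a_d43_d22x2_5 := p_wQ_26_wN_1_rb8033094a_d43_d22x2_5 g__wQ_26_wN_1_rb8033094a_d43_d22x2_6 g__wQ_26_wN_1_rb8033094a_d43_d22x2_9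

theorem g__wQ_26_wN_1_rb8033094a_d43_d22x2_4 : GoodKC AS k_wQ_26_wN_1_rb8033094a_d43_d22x2_4 := p_wQ_26_wN_1_rb8033094a_d43_d22x2_4 g__wQ_26_wN_1_rb8033094a_d43_d22x2_5

theorem g_wQ_26_wN_1_rb8033094a_d43_d22x2 : GoodKC AS c_wQ_26_wN_1_rb8033094a_d43_d22x2 := p_wQ_26_wN_1_rb8033094a_d43_d22x2 g__wQ_26_wN_1_rb8033094a_d43_d22x2_0 g__wQ_26_wN_1_rb8033094a_d43_d22x2_1 g__wQ_26_wN_1_rb8033094a_d43_d22x2_4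

theorem g_wQ_26_wN_1_rb8033094a_d43_d23x2 : GoodKC AS c_wQ_26_wN_1_rb8033094a_d43_d23x2 := p_wQ_26_wN_1_rb8033094a_d43_d23x2

theorem g__wQ_26_wN_1_rb8033094a_d43_d26x1_0 : GoodKC AS k_wQ_26_wN_1_rb8033094a_d43_d26x1_0 := p_wQ_26_wN_1_rb8033094a_d43_d26x1_0

theorem g__wQ_26_wN_1_rb8033094a_d43_d26x1_1 : GoodKC AS k_wQ_26_wN_1_rb8033094a_d43_d26x1_1 := p_wQ_26_wN_1_rb8033094a_d43_d26x1_1

theorem g__wQ_26_wN_1_rb8033094a_d43_d26x1_2 : GoodKC AS k_wQ_26_wN_1_rb8033094a_d43_d26x1_2 := p_wQ_26_wN_1_rb8033094a_d43_d26x1_2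

theorem g__wQ_26_wN_1_rb8033094a_d43_d26x1_4 : GoodKC AS k_wQ_26_wN_1_rb8033094a_d43_d26x1_4 := p_wQ_26_wN_1_rb8033094a_d43_d26x1_4

theorem g__wQ_26_wN_1_rb8033094a_d43_d26x1_3 : GoodKC AS k_wQ_26_wN_1_rb8033094a_d43_d26x1_3 := p_wQ_26_wN_1_rb8033094a_d43_d26x1_3 g__wQ_26_wN_1_rb8033094a_d43_d26x1_4

theorem g__wQ_26_wN_1_rb8033094a_d43_d26x1_6 : GoodKC AS k_wQ_26_wN_1_rb8033094a_d43_d26x1_6 := p_wQ_26_wN_1_rb8033094a_d43_d26x1_6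

theorem g__wQ_26_wN_1_rb8033094a_d43_d26x1_5 : GoodKC AS k_wQ_26_wN_1_rb8033094a_d43_d26x1_5 := p_wQ_26_wN_1_rb8033094a_d43_d26x1_5 g__wQ_26_wN_1_rb8033094a_d43_d26x1_6

theorem g_wQ_26_wN_1_rb8033094a_d43_d26x2 : GoodKC AS c_wQ_26_wN_1_rb8033094a_d43_d26x2 := p_wQ_26_wN_1_rb8033094a_d43_d26x1 g__wQ_26_wN_1_rb8033094a_d43_d26x1_0 g__wQ_26_wN_1_rb8033094a_d43_d26x1_1 g__wQ_26_wN_1_rb8033094a_d43_d26x1_2 g__wQ_26_wN_1_rb8033094a_d43_d26x1_3 g__wQ_26_wN_1_rb8033094a_d43_d26x1_5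

theorem g_wQ_26_wN_1_rb8033094a_d43_d28_d41_d25v4 : GoodKC AS c_wQ_26_wN_1_rb8033094a_d43_d28_d41_d25v4 := p_wQ_26_wN_1_rb8033094a_d43_d28_d41_d25

theorem g_wQ_26_wN_1_rb8033094a_d43_d28_d41_d24v4 : GoodKC AS c_wQ_26_wN_1_rb8033094a_d43_d28_d41_d24v4 := p_wQ_26_wN_1_rb8033094a_d43_d28_d41_d24

theorem g__wQ_26_wN_1_rb8033094a_d43_d28_d41_d20_0 : GoodKC AS k_wQ_26_wN_1_rb8033094a_d43_d28_d41_d20_0 := p_wQ_26_wN_1_rb8033094a_d43_d28_d41_d20_0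

theorem g_wQ_26_wN_1_rb8033094a_d43_d28_d41_d20v4 : GoodKC AS c_wQ_26_wN_1_rb8033094a_d43_d28_d41_d20v4 := p_wQ_26_wN_1_rb8033094a_d43_d28_d41_d20 g__wQ_26_wN_1_rb8033094a_d43_d28_d41_d20_0

theorem g_wQ_26_wN_1_rb8033094a_d43_d28_d41_d1fv4 : GoodKC AS c_wQ_26_wN_1_rb8033094a_d43_d28_d41_d1fv4 := p_wQ_26_wN_1_rb8033094a_d43_d28_d41_d1f

theorem g_wQ_26_wN_1_rb8033094a_d43_d28_d41_d1ev4 : GoodKC AS c_wQ_26_wN_1_rb8033094a_d43_d28_d41_d1ev4 := p_wQ_26_wN_1_rb8033094a_d43_d28_d41_d1e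

theorem g_wQ_26_wN_1_rb8033094a_d43_d28_d41_d1cv4 : GoodKC AS c_wQ_26_wN_1_rb8033094a_d43_d28_d41_d1cv4 := p_wQ_26_wN_1_rb8033094a_d43_d28_d41_d1c

theorem g_wQ_26_wN_1_rb8033094a_d43_d28_d41_d19v4 : GoodKC AS c_wQ_26_wN_1_rb8033094a_d43_d28_d41_d19v4 := p_wQ_26_wN_1_rb8033094a_d43_d28_d41_d19

theorem g_wQ_26_wN_1_rb8033094a_d43_d28_d41_d17v4 : GoodKC AS c_wQ_26_wN_1_rb8033094a_d43_d28_d41_d17v4 := p_wQ_26_wN_1_rb8033094a_d43_d28_d41_d17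

theorem g_wQ_26_wN_1_rb8033094a_d43_d28_d41_d14v4 : GoodKC AS c_wQ_26_wN_1_rb8033094a_d43_d28_d41_d14v4 := p_wQ_26_wN_1_rb8033094a_d43_d28_d41_d14

theorem g_wQ_26_wN_1_rb8033094a_d43_d28_d41_d13v4 : GoodKC AS c_wQ_26_wN_1_rb8033094a_d43_d28_d41_d13v4 := p_wQ_26_wN_1_rb8033094a_d43_d28_d41_d13

theorem g_wQ_26_wN_1_rb8033094a_d43_d28_d41_d12v4 : GoodKC AS c_wQ_26_wN_1_rb8033094a_d43_d28_d41_d12v4 := p_wQ_26_wN_1_rb8033094a_d43_d28_d41_d12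

theorem g_wQ_26_wN_1_rb8033094a_d43_d28_d41_d11v4 : GoodKC AS c_wQ_26_wN_1_rb8033094a_d43_d28_d41_d11v4 := p_wQ_26_wN_1_rb8033094a_d43_d28_d41_d11

theorem g_wQ_26_wN_1_rb8033094a_d43_d28_d41_d10v4 : GoodKC AS c_wQ_26_wN_1_rb8033094a_d43_d28_d41_d10v4 := p_wQ_26_wN_1_rb8033094a_d43_d28_d41_d10

theorem g_wQ_26_wN_1_rb8033094a_d43_d28_d41_d0fv4 : GoodKC AS c_wQ_26_wN_1_rb8033094a_d43_d28_d41_d0fv4 := p_wQ_26_wN_1_rb8033094a_d43_d28_d41_d0f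

theorem g_wQ_26_wN_1_rb8033094a_d43_d28_d41_d0ev4 : GoodKC AS c_wQ_26_wN_1_rb8033094a_d43_d28_d41_d0ev4 := p_wQ_26_wN_1_rb8033094a_d43_d28_d41_d0e

theorem g__wQ_26_wN_1_rb8033094a_d43_d28_d41_d0d_2 : GoodKC AS k_wQ_26_wN_1_rb8033094a_d43_d28_d41_d0d_2 := p_wQ_26_wN_1_rb8033094a_d43_d28_d41_d0d_2

theorem g__wQ_26_wN_1_rb8033094a_d43_d28_d41_d0d_3 : GoodKC AS k_wQ_26_wN_1_rb8033094a_d43_d28_d41_d0d_3 := p_wQ_26_wN_1_rb8033094a_d43_d28_d41_d0d_3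

theorem g__wQ_26_wN_1_rb8033094a_d43_d28_d41_d0d_4 : GoodKC AS k_wQ_26_wN_1_rb8033094a_d43_d28_d41_d0d_4 := p_wQ_26_wN_1_rb8033094a_d43_d28_d41_d0d_4

theorem g__wQ_26_wN_1_rb8033094a_d43_d28_d41_d0d_1 : GoodKC AS k_wQ_26_wN_1_rb8033094a_d43_d28_d41_d0d_1 := p_wQ_26_wN_1_rb8033094a_d43_d28_d41_d0d_1 g__wQ_26_wN_1_rb8033094a_d43_d28_d41_d0d_2 g__wQ_26_wN_1_rb8033094a_d43_d28_d41_d0d_3 g__wQ_26_wN_1_rb8033094a_d43_d28_d41_d0d_4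

theorem g__wQ_26_wN_1_rb8033094a_d43_d28_d41_d0d_0 : GoodKC AS k_wQ_26_wN_1_rb8033094a_d43_d28_d41_d0d_0 := p_wQ_26_wN_1_rb8033094a_d43_d28_d41_d0d_0 g__wQ_26_wN_1_rb8033094a_d43_d28_d41_d0d_1

theorem g_wQ_26_wN_1_rb8033094a_d43_d28_d41_d0dv4 : GoodKC AS c_wQ_26_wN_1_rb8033094a_d43_d28_d41_d0dv4 := p_wQ_26_wN_1_rb8033094a_d43_d28_d41_d0d g__wQ_26_wN_1_rb8033094a_d43_d28_d41_d0d_0

theorem g_wQ_26_wN_1_rb8033094a_d43_d28_d41_d0bv4 : GoodKC AS c_wQ_26_wN_1_rb8033094a_d43_d28_d41_d0bv4 := p_wQ_26_wN_1_rb8033094a_d43_d28_d41_d0b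

theorem g__wQ_26_wN_1_rb8033094a_d43_d28_d41_d06_0 : GoodKC AS k_wQ_26_wN_1_rb8033094a_d43_d28_d41_d06_0 := p_wQ_26_wN_1_rb8033094a_d43_d28_d41_d06_0

theorem g_wQ_26_wN_1_rb8033094a_d43_d28_d41_d06v4 : GoodKC AS c_wQ_26_wN_1_rb8033094a_d43_d28_d41_d06v4 := p_wQ_26_wN_1_rb8033094a_d43_d28_d41_d06 g__wQ_26_wN_1_rb8033094a_d43_d28_d41_d06_0

theorem g_wQ_26_wN_1_rb8033094a_d43_d28_d41_d05v4 : GoodKC AS c_wQ_26_wN_1_rb8033094a_d43_d28_d41_d05v4 := p_wQ_26_wN_1_rb8033094a_d43_d28_d41_d05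

theorem g_wQ_26_wN_1_rb8033094a_d43_d28_d41_d04v4 : GoodKC AS c_wQ_26_wN_1_rb8033094a_d43_d28_d41_d04v4 := p_wQ_26_wN_1_rb8033094a_d43_d28_d41_d04

theorem g_wQ_26_wN_1_rb8033094a_d43_d28_d41_d03v4 : GoodKC AS c_wQ_26_wN_1_rb8033094a_d43_d28_d41_d03v4 := p_wQ_26_wN_1_rb8033094a_d43_d28_d41_d03

theorem g_wQ_26_wN_1_rb8033094a_d43_d28_d41_d01v4 : GoodKC AS c_wQ_26_wN_1_rb8033094a_d43_d28_d41_d01v4 := p_wQ_26_wN_1_rb8033094a_d43_d28_d41_d01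

theorem g__wQ_26_wN_1_rb8033094a_d43_d28_d41_d00_2 : GoodKC AS k_wQ_26_wN_1_rb8033094a_d43_d28_d41_d00_2 := p_wQ_26_wN_1_rb8033094a_d43_d28_d41_d00_2

theorem g__wQ_26_wN_1_rb8033094a_d43_d28_d41_d00_5 : GoodKC AS k_wQ_26_wN_1_rb8033094a_d43_d28_d41_d00_5 := p_wQ_26_wN_1_rb8033094a_d43_d28_d41_d00_5

theorem g__wQ_26_wN_1_rb8033094a_d43_d28_d41_d00_4 : GoodKC AS k_wQ_26_wN_1_rb8033094a_d43_d28_d41_d00_4 := p_wQ_26_wN_1_rb8033094a_d43_d28_d41_d00_4 g__wQ_26_wN_1_rb8033094a_d43_d28_d41_d00_5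

theorem g__wQ_26_wN_1_rb8033094a_d43_d28_d41_d00_3 : GoodKC AS k_wQ_26_wN_1_rb8033094a_d43_d28_d41_d00_3 := p_wQ_26_wN_1_rb8033094a_d43_d28_d41_d00_3 g__wQ_26_wN_1_rb8033094a_d43_d28_d41_d00_4

theorem g__wQ_26_wN_1_rb8033094a_d43_d28_d41_d00_1 : GoodKC AS k_wQ_26_wN_1_rb8033094a_d43_d28_d41_d00_1 := p_wQ_26_wN_1_rb8033094a_d43_d28_d41_d00_1 g__wQ_26_wN_1_rb8033094a_d43_d28_d41_d00_2 g__wQ_26_wN_1_rb8033094a_d43_d28_d41_d00_3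

theorem g__wQ_26_wN_1_rb8033094a_d43_d28_d41_d00_6 : GoodKC AS k_wQ_26_wN_1_rb8033094a_d43_d28_d41_d00_6 := p_wQ_26_wN_1_rb8033094a_d43_d28_d41_d00_6

theorem g__wQ_26_wN_1_rb8033094a_d43_d28_d41_d00_0 : GoodKC AS k_wQ_26_wN_1_rb8033094a_d43_d28_d41_d00_0 := p_wQ_26_wN_1_rb8033094a_d43_d28_d41_d00_0 g__wQ_26_wN_1_rb8033094a_d43_d28_d41_d00_1 g__wQ_26_wN_1_rb8033094a_d43_d28_d41_d00_6

theorem g__wQ_26_wN_1_rb8033094a_d43_d28_d41_d00_9 : GoodKC AS k_wQ_26_wN_1_rb8033094a_d43_d28_d41_d00_9 := p_wQ_26_wN_1_rb8033094a_d43_d28_d41_d00_9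

theorem g__wQ_26_wN_1_rb8033094a_d43_d28_d41_d00_8 : GoodKC AS k_wQ_26_wN_1_rb8033094a_d43_d28_d41_d00_8 := p_wQ_26_wN_1_rb8033094a_d43_d28_d41_d00_8 g__wQ_26_wN_1_rb8033094a_d43_d28_d41_d00_9

theorem g__wQ_26_wN_1_rb8033094a_d43_d28_d41_d00_7 : GoodKC AS k_wQ_26_wN_1_rb8033094a_d43_d28_d41_d00_7 := p_wQ_26_wN_1_rb8033094a_d43_d28_d41_d00_7 g__wQ_26_wN_1_rb8033094a_d43_d28_d41_d00_8

theorem g_wQ_26_wN_1_rb8033094a_d43_d28_d41_d00v4 : GoodKC AS c_wQ_26_wN_1_rb8033094a_d43_d28_d41_d00v4 := p_wQ_26_wN_1_rb8033094a_d43_d28_d41_d00 g__wQ_26_wN_1_rb8033094a_d43_d28_d41_d00_0 g__wQ_26_wN_1_rb8033094a_d43_d28_d41_d00_7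

theorem g_wQ_26_wN_1_rb8033094a_d43_d28_d41_d02v4 : GoodKC AS c_wQ_26_wN_1_rb8033094a_d43_d28_d41_d02v4 := p_wQ_26_wN_1_rb8033094a_d43_d28_d41_d02

theorem g_wQ_26_wN_1_rb8033094a_d43_d28_d41_d07v4 : GoodKC AS c_wQ_26_wN_1_rb8033094a_d43_d28_d41_d07v4 := p_wQ_26_wN_1_rb8033094a_d43_d28_d41_d07

theorem g_wQ_26_wN_1_rb8033094a_d43_d28_d41_d08v4 : GoodKC AS c_wQ_26_wN_1_rb8033094a_d43_d28_d41_d08v4 := p_wQ_26_wN_1_rb8033094a_d43_d28_d41_d08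

theorem g_wQ_26_wN_1_rb8033094a_d43_d28_d41_d09v4 : GoodKC AS c_wQ_26_wN_1_rb8033094a_d43_d28_d41_d09v4 := p_wQ_26_wN_1_rb8033094a_d43_d28_d41_d09

theorem g_wQ_26_wN_1_rb8033094a_d43_d28_d41_d0av4 : GoodKC AS c_wQ_26_wN_1_rb8033094a_d43_d28_d41_d0av4 := p_wQ_26_wN_1_rb8033094a_d43_d28_d41_d0a

theorem g_wQ_26_wN_1_rb8033094a_d43_d28_d41_d0cv4 : GoodKC AS c_wQ_26_wN_1_rb8033094a_d43_d28_d41_d0cv4 := p_wQ_26_wN_1_rb8033094a_d43_d28_d41_d0c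

theorem g_wQ_26_wN_1_rb8033094a_d43_d28_d41_d15v4 : GoodKC AS c_wQ_26_wN_1_rb8033094a_d43_d28_d41_d15v4 := p_wQ_26_wN_1_rb8033094a_d43_d28_d41_d15

theorem g_wQ_26_wN_1_rb8033094a_d43_d28_d41_d16v4 : GoodKC AS c_wQ_26_wN_1_rb8033094a_d43_d28_d41_d16v4 := p_wQ_26_wN_1_rb8033094a_d43_d28_d41_d16

theorem g_wQ_26_wN_1_rb8033094a_d43_d28_d41_d18v4 : GoodKC AS c_wQ_26_wN_1_rb8033094a_d43_d28_d41_d18v4 := p_wQ_26_wN_1_rb8033094a_d43_d28_d41_d18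

theorem g_wQ_26_wN_1_rb8033094a_d43_d28_d41_d1av4 : GoodKC AS c_wQ_26_wN_1_rb8033094a_d43_d28_d41_d1av4 := p_wQ_26_wN_1_rb8033094a_d43_d28_d41_d1a

theorem g_wQ_26_wN_1_rb8033094a_d43_d28_d41_d1bv4 : GoodKC AS c_wQ_26_wN_1_rb8033094a_d43_d28_d41_d1bv4 := p_wQ_26_wN_1_rb8033094a_d43_d28_d41_d1b

theorem g__wQ_26_wN_1_rb8033094a_d43_d28_d41_d1d_3 : GoodKC AS k_wQ_26_wN_1_rb8033094a_d43_d28_d41_d1d_3 := p_wQ_26_wN_1_rb8033094a_d43_d28_d41_d1d_3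

theorem g__wQ_26_wN_1_rb8033094a_d43_d28_d41_d1d_2 : GoodKC AS k_wQ_26_wN_1_rb8033094a_d43_d28_d41_d1d_2 := p_wQ_26_wN_1_rb8033094a_d43_d28_d41_d1d_2 g__wQ_26_wN_1_rb8033094a_d43_d28_d41_d1d_3

theorem g__wQ_26_wN_1_rb8033094a_d43_d28_d41_d1d_1 : GoodKC AS k_wQ_26_wN_1_rb8033094a_d43_d28_d41_d1d_1 := p_wQ_26_wN_1_rb8033094a_d43_d28_d41_d1d_1 g__wQ_26_wN_1_rb8033094a_d43_d28_d41_d1d_2

theorem g__wQ_26_wN_1_rb8033094a_d43_d28_d41_d1d_5 : GoodKC AS k_wQ_26_wN_1_rb8033094a_d43_d28_d41_d1d_5 := p_wQ_26_wN_1_rb8033094a_d43_d28_d41_d1d_5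

theorem g__wQ_26_wN_1_rb8033094a_d43_d28_d41_d1d_4 : GoodKC AS k_wQ_26_wN_1_rb8033094a_d43_d28_d41_d1d_4 := p_wQ_26_wN_1_rb8033094a_d43_d28_d41_d1d_4 g__wQ_26_wN_1_rb8033094a_d43_d28_d41_d1d_5

theorem g__wQ_26_wN_1_rb8033094a_d43_d28_d41_d1d_0 : GoodKC AS k_wQ_26_wN_1_rb8033094a_d43_d28_d41_d1d_0 := p_wQ_26_wN_1_rb8033094a_d43_d28_d41_d1d_0 g__wQ_26_wN_1_rb8033094a_d43_d28_d41_d1d_1 g__wQ_26_wN_1_rb8033094a_d43_d28_d41_d1d_4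

theorem g_wQ_26_wN_1_rb8033094a_d43_d28_d41_d1dv4 : GoodKC AS c_wQ_26_wN_1_rb8033094a_d43_d28_d41_d1dv4 := p_wQ_26_wN_1_rb8033094a_d43_d28_d41_d1d g__wQ_26_wN_1_rb8033094a_d43_d28_d41_d1d_0

theorem g_wQ_26_wN_1_rb8033094a_d43_d28_d41_d21v4 : GoodKC AS c_wQ_26_wN_1_rb8033094a_d43_d28_d41_d21v4 := p_wQ_26_wN_1_rb8033094a_d43_d28_d41_d21

theorem g__wQ_26_wN_1_rb8033094a_d43_d28_d41_d22_2 : GoodKC AS k_wQ_26_wN_1_rb8033094a_d43_d28_d41_d22_2 := p_wQ_26_wN_1_rb8033094a_d43_d28_d41_d22_2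

theorem g__wQ_26_wN_1_rb8033094a_d43_d28_d41_d22_5 : GoodKC AS k_wQ_26_wN_1_rb8033094a_d43_d28_d41_d22_5 := p_wQ_26_wN_1_rb8033094a_d43_d28_d41_d22_5

theorem g__wQ_26_wN_1_rb8033094a_d43_d28_d41_d22_4 : GoodKC AS k_wQ_26_wN_1_rb8033094a_d43_d28_d41_d22_4 := p_wQ_26_wN_1_rb8033094a_d43_d28_d41_d22_4 g__wQ_26_wN_1_rb8033094a_d43_d28_d41_d22_5

theorem g__wQ_26_wN_1_rb8033094a_d43_d28_d41_d22_6 : GoodKC AS k_wQ_26_wN_1_rb8033094a_d43_d28_d41_d22_6 := p_wQ_26_wN_1_rb8033094a_d43_d28_d41_d22_6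

theorem g__wQ_26_wN_1_rb8033094a_d43_d28_d41_d22_3 : GoodKC AS k_wQ_26_wN_1_rb8033094a_d43_d28_d41_d22_3 := p_wQ_26_wN_1_rb8033094a_d43_d28_d41_d22_3 g__wQ_26_wN_1_rb8033094a_d43_d28_d41_d22_4 g__wQ_26_wN_1_rb8033094a_d43_d28_d41_d22_6

theorem g__wQ_26_wN_1_rb8033094a_d43_d28_d41_d22_1 : GoodKC AS k_wQ_26_wN_1_rb8033094a_d43_d28_d41_d22_1 := p_wQ_26_wN_1_rb8033094a_d43_d28_d41_d22_1 g__wQ_26_wN_1_rb8033094a_d43_d28_d41_d22_2 g__wQ_26_wN_1_rb8033094a_d43_d28_d41_d22_3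

theorem g__wQ_26_wN_1_rb8033094a_d43_d28_d41_d22_0 : GoodKC AS k_wQ_26_wN_1_rb8033094a_d43_d28_d41_d22_0 := p_wQ_26_wN_1_rb8033094a_d43_d28_d41_d22_0 g__wQ_26_wN_1_rb8033094a_d43_d28_d41_d22_1

theorem g__wQ_26_wN_1_rb8033094a_d43_d28_d41_d22_8 : GoodKC AS k_wQ_26_wN_1_rb8033094a_d43_d28_d41_d22_8 := p_wQ_26_wN_1_rb8033094a_d43_d28_d41_d22_8

theorem g__wQ_26_wN_1_rb8033094a_d43_d28_d41_d22_7 : GoodKC AS k_wQ_26_wN_1_rb8033094a_d43_d28_d41_d22_7 := p_wQ_26_wN_1_rb8033094a_d43_d28_d41_d22_7 g__wQ_26_wN_1_rb8033094a_d43_d28_d41_d22_8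

theorem g_wQ_26_wN_1_rb8033094a_d43_d28_d41_d22v4 : GoodKC AS c_wQ_26_wN_1_rb8033094a_d43_d28_d41_d22v4 := p_wQ_26_wN_1_rb8033094a_d43_d28_d41_d22 g__wQ_26_wN_1_rb8033094a_d43_d28_d41_d22_0 g__wQ_26_wN_1_rb8033094a_d43_d28_d41_d22_7

theorem g_wQ_26_wN_1_rb8033094a_d43_d28_d41_d23v4 : GoodKC AS c_wQ_26_wN_1_rb8033094a_d43_d28_d41_d23v4 := p_wQ_26_wN_1_rb8033094a_d43_d28_d41_d23

theorem g_wQ_26_wN_1_rb8033094a_d43_d28x2 : GoodKC AS c_wQ_26_wN_1_rb8033094a_d43_d28x2 := p_wQ_26_wN_1_rb8033094a_d43_d28v4 g_wQ_26_wN_1_rb8033094a_d43_d28_d41_d25v4 g_wQ_26_wN_1_rb8033094a_d43_d28_d41_d24v4 g_wQ_26_wN_1_rb8033094a_d43_d28_d41_d20v4 g_wQ_26_wN_1_rb8033094a_d43_d28_d41_d1fv4 g_wQ_26_wN_1_rb8033094a_d43_d28_d41_d1ev4 g_wQ_26_wN_1_rb8033094a_d43_d28_d41_d1cv4 g_wQ_26_wN_1_rb8033094a_d43_d28_d41_d19v4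 g_wQ_26_wN_1_rb8033094a_d43_d28_d41_d17v4 g_wQ_26_wN_1_rb8033094a_d43_d28_d41_d14v4 g_wQ_26_wN_1_rb8033094a_d43_d28_d41_d13v4 g_wQ_26_wN_1_rb8033094a_d43_d28_d41_d12v4 g_wQ_26_wN_1_rb8033094a_d43_d28_d41_d11v4 g_wQ_26_wN_1_rb8033094a_d43_d28_d41_d10v4 g_wQ_26_wN_1_rb8033094a_d43_d28_d41_d0fv4 g_wQ_26_wN_1_rb8033094a_d43_d28_d41_d0ev4 g_wQ_26_wN_1_rb8033094a_d43_d28_d41_d0dv4 g_wQ_26_wN_1_rb8033094a_d43_d28_d41_d0bv4 g_wQ_26_wN_1_rb8033094a_d43_d28_d41_d06v4 g_wQ_26_wN_1_rb8033094a_d43_d28_d41_d05v4 g_wQ_26_wN_1_rb8033094a_d43_d28_d41_d04v4 g_wQ_26_wN_1_rb8033094a_d43_d28_d41_d03v4 g_wQ_26_wN_1_rb8033094a_d43_d28_d41_d01v4 g_wQ_26_wN_1_rb8033094a_d43_d28_d41_d00v4 g_wQ_26_wN_1_rb8033094a_d43_d28_d41_d02v4 g_wQ_26_wN_1_rb8033094a_d43_d28_d41_d07v4 g_wQ_26_wN_1_rb8033094a_d43_d28_d41_d08v4 g_wQ_26_wN_1_rb8033094a_d43_d28_d41_d09v4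 g_wQ_26_wN_1_rb8033094a_d43_d28_d41_d0av4 g_wQ_26_wN_1_rb8033094a_d43_d28_d41_d0cv4 g_wQ_26_wN_1_rb8033094a_d43_d28_d41_d15v4 g_wQ_26_wN_1_rb8033094a_d43_d28_d41_d16v4 g_wQ_26_wN_1_rb8033094a_d43_d28_d41_d18v4 g_wQ_26_wN_1_rb8033094a_d43_d28_d41_d1av4 g_wQ_26_wN_1_rb8033094a_d43_d28_d41_d1bv4 g_wQ_26_wN_1_rb8033094a_d43_d28_d41_d1dv4 g_wQ_26_wN_1_rb8033094a_d43_d28_d41_d21v4 g_wQ_26_wN_1_rb8033094a_d43_d28_d41_d22v4 g_wQ_26_wN_1_rb8033094a_d43_d28_d41_d23v4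

theorem g_wQ_26_wN_1_rb8033094a_d43_d2bx2 : GoodKC AS c_wQ_26_wN_1_rb8033094a_d43_d2bx2 := p_wQ_26_wN_1_rb8033094a_d43_d2bx2

theorem g_wQ_26_wN_1_rb8033094a_d43_d2c3ax8 : GoodKC AS c_wQ_26_wN_1_rb8033094a_d43_d2c3ax8 := p_wQ_26_wN_1_rb8033094a_d43_d2c3ax3

theorem g__wQ_26_wN_1_rb8033094a_d43_d2c39x2_4 : GoodKC AS k_wQ_26_wN_1_rb8033094a_d43_d2c39x2_4 := p_wQ_26_wN_1_rb8033094a_d43_d2c39x2_4

theorem g__wQ_26_wN_1_rb8033094a_d43_d2c39x2_3 : GoodKC AS k_wQ_26_wN_1_rb8033094a_d43_d2c39x2_3 := p_wQ_26_wN_1_rb8033094a_d43_d2c39x2_3 g__wQ_26_wN_1_rb8033094a_d43_d2c39x2_4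

theorem g__wQ_26_wN_1_rb8033094a_d43_d2c39x2_2 : GoodKC AS k_wQ_26_wN_1_rb8033094a_d43_d2c39x2_2 := p_wQ_26_wN_1_rb8033094a_d43_d2c39x2_2 g__wQ_26_wN_1_rb8033094a_d43_d2c39x2_3

theorem g__wQ_26_wN_1_rb8033094a_d43_d2c39x2_1 : GoodKC AS k_wQ_26_wN_1_rb8033094a_d43_d2c39x2_1 := p_wQ_26_wN_1_rb8033094a_d43_d2c39x2_1 g__wQ_26_wN_1_rb8033094a_d43_d2c39x2_2

theorem g__wQ_26_wN_1_rb8033094a_d43_d2c39x2_8 : GoodKC AS k_wQ_26_wN_1_rb8033094a_d43_d2c39x2_8 := p_wQ_26_wN_1_rb8033094a_d43_d2c39x2_8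

theorem g__wQ_26_wN_1_rb8033094a_d43_d2c39x2_7 : GoodKC AS k_wQ_26_wN_1_rb8033094a_d43_d2c39x2_7 := p_wQ_26_wN_1_rb8033094a_d43_d2c39x2_7 g__wQ_26_wN_1_rb8033094a_d43_d2c39x2_8

theorem g__wQ_26_wN_1_rb8033094a_d43_d2c39x2_10 : GoodKC AS k_wQ_26_wN_1_rb8033094a_d43_d2c39x2_10 := p_wQ_26_wN_1_rb8033094a_d43_d2c39x2_10

theorem g__wQ_26_wN_1_rb8033094a_d43_d2c39x2_11 : GoodKC AS k_wQ_26_wN_1_rb8033094a_d43_d2c39x2_11 := p_wQ_26_wN_1_rb8033094a_d43_d2c39x2_11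

theorem g__wQ_26_wN_1_rb8033094a_d43_d2c39x2_12 : GoodKC AS k_wQ_26_wN_1_rb8033094a_d43_d2c39x2_12 := p_wQ_26_wN_1_rb8033094a_d43_d2c39x2_12

theorem g__wQ_26_wN_1_rb8033094a_d43_d2c39x2_9 : GoodKC AS k_wQ_26_wN_1_rb8033094a_d43_d2c39x2_9 := p_wQ_26_wN_1_rb8033094a_d43_d2c39x2_9 g__wQ_26_wN_1_rb8033094a_d43_d2c39x2_10 g__wQ_26_wN_1_rb8033094a_d43_d2c39x2_11 g__wQ_26_wN_1_rb8033094a_d43_d2c39x2_12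

theorem g__wQ_26_wN_1_rb8033094a_d43_d2c39x2_6 : GoodKC AS k_wQ_26_wN_1_rb8033094a_d43_d2c39x2_6 := p_wQ_26_wN_1_rb8033094a_d43_d2c39x2_6 g__wQ_26_wN_1_rb8033094a_d43_d2c39x2_7 g__wQ_26_wN_1_rb8033094a_d43_d2c39x2_9

theorem g__wQ_26_wN_1_rb8033094a_d43_d2c39x2_5 : GoodKC AS k_wQ_26_wN_1_rb8033094a_d43_d2c39x2_5 := p_wQ_26_wN_1_rb8033094a_d43_d2c39x2_5 g__wQ_26_wN_1_rb8033094a_d43_d2c39x2_6

theorem g__wQ_26_wN_1_rb8033094a_d43_d2c39x2_15 : GoodKC AS k_wQ_26_wN_1_rb8033094a_d43_d2c39x2_15 := p_wQ_26_wN_1_rb8033094a_d43_d2c39x2_15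

theorem g__wQ_26_wN_1_rb8033094a_d43_d2c39x2_14 : GoodKC AS k_wQ_26_wN_1_rb8033094a_d43_d2c39x2_14 := p_wQ_26_wN_1_rb8033094a_d43_d2c39x2_14 g__wQ_26_wN_1_rb8033094a_d43_d2c39x2_15

theorem g__wQ_26_wN_1_rb8033094a_d43_d2c39x2_18 : GoodKC AS k_wQ_26_wN_1_rb8033094a_d43_d2c39x2_18 := p_wQ_26_wN_1_rb8033094a_d43_d2c39x2_18

theorem g__wQ_26_wN_1_rb8033094a_d43_d2c39x2_17 : GoodKC AS k_wQ_26_wN_1_rb8033094a_d43_d2c39x2_17 := p_wQ_26_wN_1_rb8033094a_d43_d2c39x2_17 g__wQ_26_wN_1_rb8033094a_d43_d2c39x2_18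

theorem g__wQ_26_wN_1_rb8033094a_d43_d2c39x2_16 : GoodKC AS k_wQ_26_wN_1_rb8033094a_d43_d2c39x2_16 := p_wQ_26_wN_1_rb8033094a_d43_d2c39x2_16 g__wQ_26_wN_1_rb8033094a_d43_d2c39x2_17

theorem g__wQ_26_wN_1_rb8033094a_d43_d2c39x2_20 : GoodKC AS k_wQ_26_wN_1_rb8033094a_d43_d2c39x2_20 := p_wQ_26_wN_1_rb8033094a_d43_d2c39x2_20

theorem g__wQ_26_wN_1_rb8033094a_d43_d2c39x2_19 : GoodKC AS k_wQ_26_wN_1_rb8033094a_d43_d2c39x2_19 := p_wQ_26_wN_1_rb8033094a_d43_d2c39x2_19 g__wQ_26_wN_1_rb8033094a_d43_d2c39x2_20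

theorem g__wQ_26_wN_1_rb8033094a_d43_d2c39x2_21 : GoodKC AS k_wQ_26_wN_1_rb8033094a_d43_d2c39x2_21 := p_wQ_26_wN_1_rb8033094a_d43_d2c39x2_21

theorem g__wQ_26_wN_1_rb8033094a_d43_d2c39x2_13 : GoodKC AS k_wQ_26_wN_1_rb8033094a_d43_d2c39x2_13 := p_wQ_26_wN_1_rb8033094a_d43_d2c39x2_13 g__wQ_26_wN_1_rb8033094a_d43_d2c39x2_14 g__wQ_26_wN_1_rb8033094a_d43_d2c39x2_16 g__wQ_26_wN_1_rb8033094a_d43_d2c39x2_19 g__wQ_26_wN_1_rb8033094a_d43_d2c39x2_21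

theorem g__wQ_26_wN_1_rb8033094a_d43_d2c39x2_0 : GoodKC AS k_wQ_26_wN_1_rb8033094a_d43_d2c39x2_0 := p_wQ_26_wN_1_rb8033094a_d43_d2c39x2_0 g__wQ_26_wN_1_rb8033094a_d43_d2c39x2_1 g__wQ_26_wN_1_rb8033094a_d43_d2c39x2_5 g__wQ_26_wN_1_rb8033094a_d43_d2c39x2_13

theorem g_wQ_26_wN_1_rb8033094a_d43_d2c39x8 : GoodKC AS c_wQ_26_wN_1_rb8033094a_d43_d2c39x8 := p_wQ_26_wN_1_rb8033094a_d43_d2c39x2 g__wQ_26_wN_1_rb8033094a_d43_d2c39x2_0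

theorem g__wQ_26_wN_1_rb8033094a_d43_d2c38x3_0 : GoodKC AS k_wQ_26_wN_1_rb8033094a_d43_d2c38x3_0 := p_wQ_26_wN_1_rb8033094a_d43_d2c38x3_0

theorem g_wQ_26_wN_1_rb8033094a_d43_d2c38x8 : GoodKC AS c_wQ_26_wN_1_rb8033094a_d43_d2c38x8 := p_wQ_26_wN_1_rb8033094a_d43_d2c38x3 g__wQ_26_wN_1_rb8033094a_d43_d2c38x3_0

theorem g_wQ_26_wN_1_rb8033094a_d43_d2c37x8 : GoodKC AS c_wQ_26_wN_1_rb8033094a_d43_d2c37x8 := p_wQ_26_wN_1_rb8033094a_d43_d2c37x3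

theorem g_wQ_26_wN_1_rb8033094a_d43_d2c33x8 : GoodKC AS c_wQ_26_wN_1_rb8033094a_d43_d2c33x8 := p_wQ_26_wN_1_rb8033094a_d43_d2c33x3

theorem g_wQ_26_wN_1_rb8033094a_d43_d2c31x8 : GoodKC AS c_wQ_26_wN_1_rb8033094a_d43_d2c31x8 := p_wQ_26_wN_1_rb8033094a_d43_d2c31x3

theorem g_wQ_26_wN_1_rb8033094a_d43_d2c30x8 : GoodKC AS c_wQ_26_wN_1_rb8033094a_d43_d2c30x8 := p_wQ_26_wN_1_rb8033094a_d43_d2c30x3

theorem g_wQ_26_wN_1_rb8033094a_d43_d2c2dx8 : GoodKC AS c_wQ_26_wN_1_rb8033094a_d43_d2c2dx8 := p_wQ_26_wN_1_rb8033094a_d43_d2c2dx3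

theorem g_wQ_26_wN_1_rb8033094a_d43_d2c2a0ex2 : GoodKC AS c_wQ_26_wN_1_rb8033094a_d43_d2c2a0ex2 := p_wQ_26_wN_1_rb8033094a_d43_d2c2a0ex1

theorem g_wQ_26_wN_1_rb8033094a_d43_d2c2a0dx2 : GoodKC AS c_wQ_26_wN_1_rb8033094a_d43_d2c2a0dx2 := p_wQ_26_wN_1_rb8033094a_d43_d2c2a0dx1

theorem g_wQ_26_wN_1_rb8033094a_d43_d2c2a0bx2 : GoodKC AS c_wQ_26_wN_1_rb8033094a_d43_d2c2a0bx2 := p_wQ_26_wN_1_rb8033094a_d43_d2c2a0bx1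

theorem g_wQ_26_wN_1_rb8033094a_d43_d2c2a0ax2 : GoodKC AS c_wQ_26_wN_1_rb8033094a_d43_d2c2a0ax2 := p_wQ_26_wN_1_rb8033094a_d43_d2c2a0ax1

theorem g_wQ_26_wN_1_rb8033094a_d43_d2c2a09x2 : GoodKC AS c_wQ_26_wN_1_rb8033094a_d43_d2c2a09x2 := p_wQ_26_wN_1_rb8033094a_d43_d2c2a09x1

theorem g_wQ_26_wN_1_rb8033094a_d43_d2c2a07x2 : GoodKC AS c_wQ_26_wN_1_rb8033094a_d43_d2c2a07x2 := p_wQ_26_wN_1_rb8033094a_d43_d2c2a07x1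

theorem g_wQ_26_wN_1_rb8033094a_d43_d2c2a05x2 : GoodKC AS c_wQ_26_wN_1_rb8033094a_d43_d2c2a05x2 := p_wQ_26_wN_1_rb8033094a_d43_d2c2a05x1

theorem g_wQ_26_wN_1_rb8033094a_d43_d2c2a03x2 : GoodKC AS c_wQ_26_wN_1_rb8033094a_d43_d2c2a03x2 := p_wQ_26_wN_1_rb8033094a_d43_d2c2a03x1

theorem g_wQ_26_wN_1_rb8033094a_d43_d2c2a01x2 : GoodKC AS c_wQ_26_wN_1_rb8033094a_d43_d2c2a01x2 := p_wQ_26_wN_1_rb8033094a_d43_d2c2a01x1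

theorem g__wQ_26_wN_1_rb8033094a_d43_d2c2a00v2_0 : GoodKC AS k_wQ_26_wN_1_rb8033094a_d43_d2c2a00v2_0 := p_wQ_26_wN_1_rb8033094a_d43_d2c2a00v2_0

theorem g_wQ_26_wN_1_rb8033094a_d43_d2c2a00x2 : GoodKC AS c_wQ_26_wN_1_rb8033094a_d43_d2c2a00x2 := p_wQ_26_wN_1_rb8033094a_d43_d2c2a00x2 g__wQ_26_wN_1_rb8033094a_d43_d2c2a00v2_0

theorem g_wQ_26_wN_1_rb8033094a_d43_d2c2a02x2 : GoodKC AS c_wQ_26_wN_1_rb8033094a_d43_d2c2a02x2 := p_wQ_26_wN_1_rb8033094a_d43_d2c2a02x1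

theorem g_wQ_26_wN_1_rb8033094a_d43_d2c2a04x2 : GoodKC AS c_wQ_26_wN_1_rb8033094a_d43_d2c2a04x2 := p_wQ_26_wN_1_rb8033094a_d43_d2c2a04x1

theorem g_wQ_26_wN_1_rb8033094a_d43_d2c2a06x2 : GoodKC AS c_wQ_26_wN_1_rb8033094a_d43_d2c2a06x2 := p_wQ_26_wN_1_rb8033094a_d43_d2c2a06x1

theorem g_wQ_26_wN_1_rb8033094a_d43_d2c2a08x2 : GoodKC AS c_wQ_26_wN_1_rb8033094a_d43_d2c2a08x2 := p_wQ_26_wN_1_rb8033094a_d43_d2c2a08x1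

theorem g_wQ_26_wN_1_rb8033094a_d43_d2c2a0cx2 : GoodKC AS c_wQ_26_wN_1_rb8033094a_d43_d2c2a0cx2 := p_wQ_26_wN_1_rb8033094a_d43_d2c2a0cx1

theorem g__wQ_26_wN_1_rb8033094a_d43_d2c2ax2_2 : GoodKC AS k_wQ_26_wN_1_rb8033094a_d43_d2c2ax2_2 := p_wQ_26_wN_1_rb8033094a_d43_d2c2ax2_2

theorem g__wQ_26_wN_1_rb8033094a_d43_d2c2ax2_1 : GoodKC AS k_wQ_26_wN_1_rb8033094a_d43_d2c2ax2_1 := p_wQ_26_wN_1_rb8033094a_d43_d2c2ax2_1 g__wQ_26_wN_1_rb8033094a_d43_d2c2ax2_2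

theorem g__wQ_26_wN_1_rb8033094a_d43_d2c2ax2_3 : GoodKC AS k_wQ_26_wN_1_rb8033094a_d43_d2c2ax2_3 := p_wQ_26_wN_1_rb8033094a_d43_d2c2ax2_3

theorem g__wQ_26_wN_1_rb8033094a_d43_d2c2ax2_0 : GoodKC AS k_wQ_26_wN_1_rb8033094a_d43_d2c2ax2_0 := p_wQ_26_wN_1_rb8033094a_d43_d2c2ax2_0 g__wQ_26_wN_1_rb8033094a_d43_d2c2ax2_1 g__wQ_26_wN_1_rb8033094a_d43_d2c2ax2_3

theorem g__wQ_26_wN_1_rb8033094a_d43_d2c2ax2_5 : GoodKC AS k_wQ_26_wN_1_rb8033094a_d43_d2c2ax2_5 := p_wQ_26_wN_1_rb8033094a_d43_d2c2ax2_5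

theorem g__wQ_26_wN_1_rb8033094a_d43_d2c2ax2_6 : GoodKC AS k_wQ_26_wN_1_rb8033094a_d43_d2c2ax2_6 := p_wQ_26_wN_1_rb8033094a_d43_d2c2ax2_6

theorem g__wQ_26_wN_1_rb8033094a_d43_d2c2ax2_8 : GoodKC AS k_wQ_26_wN_1_rb8033094a_d43_d2c2ax2_8 := p_wQ_26_wN_1_rb8033094a_d43_d2c2ax2_8

theorem g__wQ_26_wN_1_rb8033094a_d43_d2c2ax2_9 : GoodKC AS k_wQ_26_wN_1_rb8033094a_d43_d2c2ax2_9 := p_wQ_26_wN_1_rb8033094a_d43_d2c2ax2_9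

theorem g__wQ_26_wN_1_rb8033094a_d43_d2c2ax2_10 : GoodKC AS k_wQ_26_wN_1_rb8033094a_d43_d2c2ax2_10 := p_wQ_26_wN_1_rb8033094a_d43_d2c2ax2_10

theorem g__wQ_26_wN_1_rb8033094a_d43_d2c2ax2_12 : GoodKC AS k_wQ_26_wN_1_rb8033094a_d43_d2c2ax2_12 := p_wQ_26_wN_1_rb8033094a_d43_d2c2ax2_12

theorem g__wQ_26_wN_1_rb8033094a_d43_d2c2ax2_11 : GoodKC AS k_wQ_26_wN_1_rb8033094a_d43_d2c2ax2_11 := p_wQ_26_wN_1_rb8033094a_d43_d2c2ax2_11 g__wQ_26_wN_1_rb8033094a_d43_d2c2ax2_12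

theorem g__wQ_26_wN_1_rb8033094a_d43_d2c2ax2_7 : GoodKC AS k_wQ_26_wN_1_rb8033094a_d43_d2c2ax2_7 := p_wQ_26_wN_1_rb8033094a_d43_d2c2ax2_7 g__wQ_26_wN_1_rb8033094a_d43_d2c2ax2_8 g__wQ_26_wN_1_rb8033094a_d43_d2c2ax2_9 g__wQ_26_wN_1_rb8033094a_d43_d2c2ax2_10 g__wQ_26_wN_1_rb8033094a_d43_d2c2ax2_11

theorem g__wQ_26_wN_1_rb8033094a_d43_d2c2ax2_4 : GoodKC AS k_wQ_26_wN_1_rb8033094a_d43_d2c2ax2_4 := p_wQ_26_wN_1_rb8033094a_d43_d2c2ax2_4 g__wQ_26_wN_1_rb8033094a_d43_d2c2ax2_5 g__wQ_26_wN_1_rb8033094a_d43_d2c2ax2_6 g__wQ_26_wN_1_rb8033094a_d43_d2c2ax2_7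

theorem g_wQ_26_wN_1_rb8033094a_d43_d2c2ax8 : GoodKC AS c_wQ_26_wN_1_rb8033094a_d43_d2c2ax8 := p_wQ_26_wN_1_rb8033094a_d43_d2c2ax2 g_wQ_26_wN_1_rb8033094a_d43_d2c2a0ex2 g_wQ_26_wN_1_rb8033094a_d43_d2c2a0dx2 g_wQ_26_wN_1_rb8033094a_d43_d2c2a0bx2 g_wQ_26_wN_1_rb8033094a_d43_d2c2a0ax2 g_wQ_26_wN_1_rb8033094a_d43_d2c2a09x2 g_wQ_26_wN_1_rb8033094a_d43_d2c2a07x2 g_wQ_26_wN_1_rb8033094a_d43_d2c2a05x2 g_wQ_26_wN_1_rb8033094a_d43_d2c2a03x2 g_wQ_26_wN_1_rb8033094a_d43_d2c2a01x2 g_wQ_26_wN_1_rb8033094a_d43_d2c2a00x2 g_wQ_26_wN_1_rb8033094a_d43_d2c2a02x2 g_wQ_26_wN_1_rb8033094a_d43_d2c2a04x2 g_wQ_26_wN_1_rb8033094a_d43_d2c2a06x2 g_wQ_26_wN_1_rb8033094a_d43_d2c2a08x2 g_wQ_26_wN_1_rb8033094a_d43_d2c2a0cx2 g__wQ_26_wN_1_rb8033094a_d43_d2c2ax2_0 g__wQ_26_wN_1_rb8033094a_d43_d2c2ax2_4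

theorem g_wQ_26_wN_1_rb8033094a_d43_d2c29x8 : GoodKC AS c_wQ_26_wN_1_rb8033094a_d43_d2c29x8 := p_wQ_26_wN_1_rb8033094a_d43_d2c29x3

theorem g_wQ_26_wN_1_rb8033094a_d43_d2c2433x1 : GoodKC AS c_wQ_26_wN_1_rb8033094a_d43_d2c2433x1 := p_wQ_26_wN_1_rb8033094a_d43_d2c2433x1

theorem g_wQ_26_wN_1_rb8033094a_d43_d2c2431x1 : GoodKC AS c_wQ_26_wN_1_rb8033094a_d43_d2c2431x1 := p_wQ_26_wN_1_rb8033094a_d43_d2c2431x1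

theorem g_wQ_26_wN_1_rb8033094a_d43_d2c2430x1 : GoodKC AS c_wQ_26_wN_1_rb8033094a_d43_d2c2430x1 := p_wQ_26_wN_1_rb8033094a_d43_d2c2430x1

theorem g_wQ_26_wN_1_rb8033094a_d43_d2c242fx1 : GoodKC AS c_wQ_26_wN_1_rb8033094a_d43_d2c242fx1 := p_wQ_26_wN_1_rb8033094a_d43_d2c242fx1

theorem g_wQ_26_wN_1_rb8033094a_d43_d2c242ex1 : GoodKC AS c_wQ_26_wN_1_rb8033094a_d43_d2c242ex1 := p_wQ_26_wN_1_rb8033094a_d43_d2c242ex1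

theorem g_wQ_26_wN_1_rb8033094a_d43_d2c242dx1 : GoodKC AS c_wQ_26_wN_1_rb8033094a_d43_d2c242dx1 := p_wQ_26_wN_1_rb8033094a_d43_d2c242dx1

theorem g__wQ_26_wN_1_rb8033094a_d43_d2c242cx1_0 : GoodKC AS k_wQ_26_wN_1_rb8033094a_d43_d2c242cx1_0 := p_wQ_26_wN_1_rb8033094a_d43_d2c242cx1_0

theorem g_wQ_26_wN_1_rb8033094a_d43_d2c242cx1 : GoodKC AS c_wQ_26_wN_1_rb8033094a_d43_d2c242cx1 := p_wQ_26_wN_1_rb8033094a_d43_d2c242cx1 g__wQ_26_wN_1_rb8033094a_d43_d2c242cx1_0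

theorem g__wQ_26_wN_1_rb8033094a_d43_d2c242ax1_1 : GoodKC AS k_wQ_26_wN_1_rb8033094a_d43_d2c242ax1_1 := p_wQ_26_wN_1_rb8033094a_d43_d2c242ax1_1

theorem g__wQ_26_wN_1_rb8033094a_d43_d2c242ax1_3 : GoodKC AS k_wQ_26_wN_1_rb8033094a_d43_d2c242ax1_3 := p_wQ_26_wN_1_rb8033094a_d43_d2c242ax1_3

theorem g__wQ_26_wN_1_rb8033094a_d43_d2c242ax1_5 : GoodKC AS k_wQ_26_wN_1_rb8033094a_d43_d2c242ax1_5 := p_wQ_26_wN_1_rb8033094a_d43_d2c242ax1_5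

theorem g__wQ_26_wN_1_rb8033094a_d43_d2c242ax1_4 : GoodKC AS k_wQ_26_wN_1_rb8033094a_d43_d2c242ax1_4 := p_wQ_26_wN_1_rb8033094a_d43_d2c242ax1_4 g__wQ_26_wN_1_rb8033094a_d43_d2c242ax1_5

theorem g__wQ_26_wN_1_rb8033094a_d43_d2c242ax1_2 : GoodKC AS k_wQ_26_wN_1_rb8033094a_d43_d2c242ax1_2 := p_wQ_26_wN_1_rb8033094a_d43_d2c242ax1_2 g__wQ_26_wN_1_rb8033094a_d43_d2c242ax1_3 g__wQ_26_wN_1_rb8033094a_d43_d2c242ax1_4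

theorem g__wQ_26_wN_1_rb8033094a_d43_d2c242ax1_0 : GoodKC AS k_wQ_26_wN_1_rb8033094a_d43_d2c242ax1_0 := p_wQ_26_wN_1_rb8033094a_d43_d2c242ax1_0 g__wQ_26_wN_1_rb8033094a_d43_d2c242ax1_1 g__wQ_26_wN_1_rb8033094a_d43_d2c242ax1_2

theorem g_wQ_26_wN_1_rb8033094a_d43_d2c242ax1 : GoodKC AS c_wQ_26_wN_1_rb8033094a_d43_d2c242ax1 := p_wQ_26_wN_1_rb8033094a_d43_d2c242ax1 g__wQ_26_wN_1_rb8033094a_d43_d2c242ax1_0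

theorem g__wQ_26_wN_1_rb8033094a_d43_d2c2428x1_1 : GoodKC AS k_wQ_26_wN_1_rb8033094a_d43_d2c2428x1_1 := p_wQ_26_wN_1_rb8033094a_d43_d2c2428x1_1

theorem g__wQ_26_wN_1_rb8033094a_d43_d2c2428x1_3 : GoodKC AS k_wQ_26_wN_1_rb8033094a_d43_d2c2428x1_3 := p_wQ_26_wN_1_rb8033094a_d43_d2c2428x1_3

theorem g__wQ_26_wN_1_rb8033094a_d43_d2c2428x1_2 : GoodKC AS k_wQ_26_wN_1_rb8033094a_d43_d2c2428x1_2 := p_wQ_26_wN_1_rb8033094a_d43_d2c2428x1_2 g__wQ_26_wN_1_rb8033094a_d43_d2c2428x1_3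

theorem g__wQ_26_wN_1_rb8033094a_d43_d2c2428x1_4 : GoodKC AS k_wQ_26_wN_1_rb8033094a_d43_d2c2428x1_4 := p_wQ_26_wN_1_rb8033094a_d43_d2c2428x1_4

theorem g__wQ_26_wN_1_rb8033094a_d43_d2c2428x1_0 : GoodKC AS k_wQ_26_wN_1_rb8033094a_d43_d2c2428x1_0 := p_wQ_26_wN_1_rb8033094a_d43_d2c2428x1_0 g__wQ_26_wN_1_rb8033094a_d43_d2c2428x1_1 g__wQ_26_wN_1_rb8033094a_d43_d2c2428x1_2 g__wQ_26_wN_1_rb8033094a_d43_d2c2428x1_4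

theorem g_wQ_26_wN_1_rb8033094a_d43_d2c2428x1 : GoodKC AS c_wQ_26_wN_1_rb8033094a_d43_d2c2428x1 := p_wQ_26_wN_1_rb8033094a_d43_d2c2428x1 g__wQ_26_wN_1_rb8033094a_d43_d2c2428x1_0

theorem g__wQ_26_wN_1_rb8033094a_d43_d2c2427x1_0 : GoodKC AS k_wQ_26_wN_1_rb8033094a_d43_d2c2427x1_0 := p_wQ_26_wN_1_rb8033094a_d43_d2c2427x1_0

theorem g_wQ_26_wN_1_rb8033094a_d43_d2c2427x1 : GoodKC AS c_wQ_26_wN_1_rb8033094a_d43_d2c2427x1 := p_wQ_26_wN_1_rb8033094a_d43_d2c2427x1 g__wQ_26_wN_1_rb8033094a_d43_d2c2427x1_0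

theorem g_wQ_26_wN_1_rb8033094a_d43_d2c2426x1 : GoodKC AS c_wQ_26_wN_1_rb8033094a_d43_d2c2426x1 := p_wQ_26_wN_1_rb8033094a_d43_d2c2426x1

theorem g_wQ_26_wN_1_rb8033094a_d43_d2c2425x1 : GoodKC AS c_wQ_26_wN_1_rb8033094a_d43_d2c2425x1 := p_wQ_26_wN_1_rb8033094a_d43_d2c2425x1

theorem g_wQ_26_wN_1_rb8033094a_d43_d2c2423x1 : GoodKC AS c_wQ_26_wN_1_rb8033094a_d43_d2c2423x1 := p_wQ_26_wN_1_rb8033094a_d43_d2c2423x1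

theorem g_wQ_26_wN_1_rb8033094a_d43_d2c241fx1 : GoodKC AS c_wQ_26_wN_1_rb8033094a_d43_d2c241fx1 := p_wQ_26_wN_1_rb8033094a_d43_d2c241fx1

theorem g_wQ_26_wN_1_rb8033094a_d43_d2c241ex1 : GoodKC AS c_wQ_26_wN_1_rb8033094a_d43_d2c241ex1 := p_wQ_26_wN_1_rb8033094a_d43_d2c241ex1

theorem g_wQ_26_wN_1_rb8033094a_d43_d2c241dx1 : GoodKC AS c_wQ_26_wN_1_rb8033094a_d43_d2c241dx1 := p_wQ_26_wN_1_rb8033094a_d43_d2c241dx1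

theorem g__wQ_26_wN_1_rb8033094a_d43_d2c241bx1_0 : GoodKC AS k_wQ_26_wN_1_rb8033094a_d43_d2c241bx1_0 := p_wQ_26_wN_1_rb8033094a_d43_d2c241bx1_0

theorem g_wQ_26_wN_1_rb8033094a_d43_d2c241bx1 : GoodKC AS c_wQ_26_wN_1_rb8033094a_d43_d2c241bx1 := p_wQ_26_wN_1_rb8033094a_d43_d2c241bx1 g__wQ_26_wN_1_rb8033094a_d43_d2c241bx1_0

theorem g_wQ_26_wN_1_rb8033094a_d43_d2c2418x1 : GoodKC AS c_wQ_26_wN_1_rb8033094a_d43_d2c2418x1 := p_wQ_26_wN_1_rb8033094a_d43_d2c2418x1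

theorem g_wQ_26_wN_1_rb8033094a_d43_d2c2417x1 : GoodKC AS c_wQ_26_wN_1_rb8033094a_d43_d2c2417x1 := p_wQ_26_wN_1_rb8033094a_d43_d2c2417x1

theorem g_wQ_26_wN_1_rb8033094a_d43_d2c2416x1 : GoodKC AS c_wQ_26_wN_1_rb8033094a_d43_d2c2416x1 := p_wQ_26_wN_1_rb8033094a_d43_d2c2416x1

theorem g_wQ_26_wN_1_rb8033094a_d43_d2c2414x1 : GoodKC AS c_wQ_26_wN_1_rb8033094a_d43_d2c2414x1 := p_wQ_26_wN_1_rb8033094a_d43_d2c2414x1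

theorem g__wQ_26_wN_1_rb8033094a_d43_d2c2411x1_3 : GoodKC AS k_wQ_26_wN_1_rb8033094a_d43_d2c2411x1_3 := p_wQ_26_wN_1_rb8033094a_d43_d2c2411x1_3

theorem g__wQ_26_wN_1_rb8033094a_d43_d2c2411x1_5 : GoodKC AS k_wQ_26_wN_1_rb8033094a_d43_d2c2411x1_5 := p_wQ_26_wN_1_rb8033094a_d43_d2c2411x1_5

theorem g__wQ_26_wN_1_rb8033094a_d43_d2c2411x1_4 : GoodKC AS k_wQ_26_wN_1_rb8033094a_d43_d2c2411x1_4 := p_wQ_26_wN_1_rb8033094a_d43_d2c2411x1_4 g__wQ_26_wN_1_rb8033094a_d43_d2c2411x1_5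

theorem g__wQ_26_wN_1_rb8033094a_d43_d2c2411x1_2 : GoodKC AS k_wQ_26_wN_1_rb8033094a_d43_d2c2411x1_2 := p_wQ_26_wN_1_rb8033094a_d43_d2c2411x1_2 g__wQ_26_wN_1_rb8033094a_d43_d2c2411x1_3 g__wQ_26_wN_1_rb8033094a_d43_d2c2411x1_4

theorem g__wQ_26_wN_1_rb8033094a_d43_d2c2411x1_1 : GoodKC AS k_wQ_26_wN_1_rb8033094a_d43_d2c2411x1_1 := p_wQ_26_wN_1_rb8033094a_d43_d2c2411x1_1 g__wQ_26_wN_1_rb8033094a_d43_d2c2411x1_2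

theorem g__wQ_26_wN_1_rb8033094a_d43_d2c2411x1_0 : GoodKC AS k_wQ_26_wN_1_rb8033094a_d43_d2c2411x1_0 := p_wQ_26_wN_1_rb8033094a_d43_d2c2411x1_0 g__wQ_26_wN_1_rb8033094a_d43_d2c2411x1_1

theorem g_wQ_26_wN_1_rb8033094a_d43_d2c2411x1 : GoodKC AS c_wQ_26_wN_1_rb8033094a_d43_d2c2411x1 := p_wQ_26_wN_1_rb8033094a_d43_d2c2411x1 g__wQ_26_wN_1_rb8033094a_d43_d2c2411x1_0

theorem g__wQ_26_wN_1_rb8033094a_d43_d2c2410v1_0 : GoodKC AS k_wQ_26_wN_1_rb8033094a_d43_d2c2410v1_0 := p_wQ_26_wN_1_rb8033094a_d43_d2c2410v1_0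

theorem g_wQ_26_wN_1_rb8033094a_d43_d2c2410x1 : GoodKC AS c_wQ_26_wN_1_rb8033094a_d43_d2c2410x1 := p_wQ_26_wN_1_rb8033094a_d43_d2c2410x1 g__wQ_26_wN_1_rb8033094a_d43_d2c2410v1_0

theorem g_wQ_26_wN_1_rb8033094a_d43_d2c240fx1 : GoodKC AS c_wQ_26_wN_1_rb8033094a_d43_d2c240fx1 := p_wQ_26_wN_1_rb8033094a_d43_d2c240fx1

theorem g_wQ_26_wN_1_rb8033094a_d43_d2c240ex1 : GoodKC AS c_wQ_26_wN_1_rb8033094a_d43_d2c240ex1 := p_wQ_26_wN_1_rb8033094a_d43_d2c240ex1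

theorem g_wQ_26_wN_1_rb8033094a_d43_d2c240dx1 : GoodKC AS c_wQ_26_wN_1_rb8033094a_d43_d2c240dx1 := p_wQ_26_wN_1_rb8033094a_d43_d2c240dx1

theorem g_wQ_26_wN_1_rb8033094a_d43_d2c240bx1 : GoodKC AS c_wQ_26_wN_1_rb8033094a_d43_d2c240bx1 := p_wQ_26_wN_1_rb8033094a_d43_d2c240bx1

theorem g_wQ_26_wN_1_rb8033094a_d43_d2c240ax1 : GoodKC AS c_wQ_26_wN_1_rb8033094a_d43_d2c240ax1 := p_wQ_26_wN_1_rb8033094a_d43_d2c240ax1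

theorem g_wQ_26_wN_1_rb8033094a_d43_d2c2408x1 : GoodKC AS c_wQ_26_wN_1_rb8033094a_d43_d2c2408x1 := p_wQ_26_wN_1_rb8033094a_d43_d2c2408x1

theorem g__wQ_26_wN_1_rb8033094a_d43_d2c2407x1_1 : GoodKC AS k_wQ_26_wN_1_rb8033094a_d43_d2c2407x1_1 := p_wQ_26_wN_1_rb8033094a_d43_d2c2407x1_1

theorem g__wQ_26_wN_1_rb8033094a_d43_d2c2407x1_0 : GoodKC AS k_wQ_26_wN_1_rb8033094a_d43_d2c2407x1_0 := p_wQ_26_wN_1_rb8033094a_d43_d2c2407x1_0 g__wQ_26_wN_1_rb8033094a_d43_d2c2407x1_1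

theorem g_wQ_26_wN_1_rb8033094a_d43_d2c2407x1 : GoodKC AS c_wQ_26_wN_1_rb8033094a_d43_d2c2407x1 := p_wQ_26_wN_1_rb8033094a_d43_d2c2407x1 g__wQ_26_wN_1_rb8033094a_d43_d2c2407x1_0

theorem g_wQ_26_wN_1_rb8033094a_d43_d2c2406x1 : GoodKC AS c_wQ_26_wN_1_rb8033094a_d43_d2c2406x1 := p_wQ_26_wN_1_rb8033094a_d43_d2c2406x1

theorem g__wQ_26_wN_1_rb8033094a_d43_d2c2400v1_1 : GoodKC AS k_wQ_26_wN_1_rb8033094a_d43_d2c2400v1_1 := p_wQ_26_wN_1_rb8033094a_d43_d2c2400v1_1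

theorem g__wQ_26_wN_1_rb8033094a_d43_d2c2400v1_0 : GoodKC AS k_wQ_26_wN_1_rb8033094a_d43_d2c2400v1_0 := p_wQ_26_wN_1_rb8033094a_d43_d2c2400v1_0 g__wQ_26_wN_1_rb8033094a_d43_d2c2400v1_1

theorem g__wQ_26_wN_1_rb8033094a_d43_d2c2400v1_3 : GoodKC AS k_wQ_26_wN_1_rb8033094a_d43_d2c2400v1_3 := p_wQ_26_wN_1_rb8033094a_d43_d2c2400v1_3

theorem g__wQ_26_wN_1_rb8033094a_d43_d2c2400v1_4 : GoodKC AS k_wQ_26_wN_1_rb8033094a_d43_d2c2400v1_4 := p_wQ_26_wN_1_rb8033094a_d43_d2c2400v1_4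

theorem g__wQ_26_wN_1_rb8033094a_d43_d2c2400v1_6 : GoodKC AS k_wQ_26_wN_1_rb8033094a_d43_d2c2400v1_6 := p_wQ_26_wN_1_rb8033094a_d43_d2c2400v1_6

theorem g__wQ_26_wN_1_rb8033094a_d43_d2c2400v1_5 : GoodKC AS k_wQ_26_wN_1_rb8033094a_d43_d2c2400v1_5 := p_wQ_26_wN_1_rb8033094a_d43_d2c2400v1_5 g__wQ_26_wN_1_rb8033094a_d43_d2c2400v1_6

theorem g__wQ_26_wN_1_rb8033094a_d43_d2c2400v1_2 : GoodKC AS k_wQ_26_wN_1_rb8033094a_d43_d2c2400v1_2 := p_wQ_26_wN_1_rb8033094a_d43_d2c2400v1_2 g__wQ_26_wN_1_rb8033094a_d43_d2c2400v1_3 g__wQ_26_wN_1_rb8033094a_d43_d2c2400v1_4 g__wQ_26_wN_1_rb8033094a_d43_d2c2400v1_5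

theorem g_wQ_26_wN_1_rb8033094a_d43_d2c2400x1 : GoodKC AS c_wQ_26_wN_1_rb8033094a_d43_d2c2400x1 := p_wQ_26_wN_1_rb8033094a_d43_d2c2400x1 g__wQ_26_wN_1_rb8033094a_d43_d2c2400v1_0 g__wQ_26_wN_1_rb8033094a_d43_d2c2400v1_2

theorem g__wQ_26_wN_1_rb8033094a_d43_d2c24x1_1 : GoodKC AS k_wQ_26_wN_1_rb8033094a_d43_d2c24x1_1 := p_wQ_26_wN_1_rb8033094a_d43_d2c24x1_1 g_wQ_26_wN_1_rb8033094a_d43_d2c2400x1

theorem g__wQ_26_wN_1_rb8033094a_d43_d2c24x1_0 : GoodKC AS k_wQ_26_wN_1_rb8033094a_d43_d2c24x1_0 := p_wQ_26_wN_1_rb8033094a_d43_d2c24x1_0 g__wQ_26_wN_1_rb8033094a_d43_d2c24x1_1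

theorem g_wQ_26_wN_1_rb8033094a_d43_d2c2403x1 : GoodKC AS c_wQ_26_wN_1_rb8033094a_d43_d2c2403x1 := p_wQ_26_wN_1_rb8033094a_d43_d2c2403x1

theorem g_wQ_26_wN_1_rb8033094a_d43_d2c2401x1 : GoodKC AS c_wQ_26_wN_1_rb8033094a_d43_d2c2401x1 := p_wQ_26_wN_1_rb8033094a_d43_d2c2401x1

theorem g_wQ_26_wN_1_rb8033094a_d43_d2c2402x1 : GoodKC AS c_wQ_26_wN_1_rb8033094a_d43_d2c2402x1 := p_wQ_26_wN_1_rb8033094a_d43_d2c2402x1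

theorem g_wQ_26_wN_1_rb8033094a_d43_d2c2404x1 : GoodKC AS c_wQ_26_wN_1_rb8033094a_d43_d2c2404x1 := p_wQ_26_wN_1_rb8033094a_d43_d2c2404x1

theorem g_wQ_26_wN_1_rb8033094a_d43_d2c2405x1 : GoodKC AS c_wQ_26_wN_1_rb8033094a_d43_d2c2405x1 := p_wQ_26_wN_1_rb8033094a_d43_d2c2405x1

theorem g_wQ_26_wN_1_rb8033094a_d43_d2c2409x1 : GoodKC AS c_wQ_26_wN_1_rb8033094a_d43_d2c2409x1 := p_wQ_26_wN_1_rb8033094a_d43_d2c2409x1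

theorem g__wQ_26_wN_1_rb8033094a_d43_d2c240cx1_0 : GoodKC AS k_wQ_26_wN_1_rb8033094a_d43_d2c240cx1_0 := p_wQ_26_wN_1_rb8033094a_d43_d2c240cx1_0

theorem g__wQ_26_wN_1_rb8033094a_d43_d2c240cx1_1 : GoodKC AS k_wQ_26_wN_1_rb8033094a_d43_d2c240cx1_1 := p_wQ_26_wN_1_rb8033094a_d43_d2c240cx1_1

theorem g_wQ_26_wN_1_rb8033094a_d43_d2c240cx1 : GoodKC AS c_wQ_26_wN_1_rb8033094a_d43_d2c240cx1 := p_wQ_26_wN_1_rb8033094a_d43_d2c240cx1 g__wQ_26_wN_1_rb8033094a_d43_d2c240cx1_0 g__wQ_26_wN_1_rb8033094a_d43_d2c240cx1_1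

theorem g_wQ_26_wN_1_rb8033094a_d43_d2c2412x1 : GoodKC AS c_wQ_26_wN_1_rb8033094a_d43_d2c2412x1 := p_wQ_26_wN_1_rb8033094a_d43_d2c2412x1

theorem g_wQ_26_wN_1_rb8033094a_d43_d2c2413x1 : GoodKC AS c_wQ_26_wN_1_rb8033094a_d43_d2c2413x1 := p_wQ_26_wN_1_rb8033094a_d43_d2c2413x1

theorem g__wQ_26_wN_1_rb8033094a_d43_d2c2415x1_4 : GoodKC AS k_wQ_26_wN_1_rb8033094a_d43_d2c2415x1_4 := p_wQ_26_wN_1_rb8033094a_d43_d2c2415x1_4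

theorem g__wQ_26_wN_1_rb8033094a_d43_d2c2415x1_5 : GoodKC AS k_wQ_26_wN_1_rb8033094a_d43_d2c2415x1_5 := p_wQ_26_wN_1_rb8033094a_d43_d2c2415x1_5

theorem g__wQ_26_wN_1_rb8033094a_d43_d2c2415x1_3 : GoodKC AS k_wQ_26_wN_1_rb8033094a_d43_d2c2415x1_3 := p_wQ_26_wN_1_rb8033094a_d43_d2c2415x1_3 g__wQ_26_wN_1_rb8033094a_d43_d2c2415x1_4 g__wQ_26_wN_1_rb8033094a_d43_d2c2415x1_5

theorem g__wQ_26_wN_1_rb8033094a_d43_d2c2415x1_2 : GoodKC AS k_wQ_26_wN_1_rb8033094a_d43_d2c2415x1_2 := p_wQ_26_wN_1_rb8033094a_d43_d2c2415x1_2 g__wQ_26_wN_1_rb8033094a_d43_d2c2415x1_3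

theorem g__wQ_26_wN_1_rb8033094a_d43_d2c2415x1_8 : GoodKC AS k_wQ_26_wN_1_rb8033094a_d43_d2c2415x1_8 := p_wQ_26_wN_1_rb8033094a_d43_d2c2415x1_8

theorem g__wQ_26_wN_1_rb8033094a_d43_d2c2415x1_7 : GoodKC AS k_wQ_26_wN_1_rb8033094a_d43_d2c2415x1_7 := p_wQ_26_wN_1_rb8033094a_d43_d2c2415x1_7 g__wQ_26_wN_1_rb8033094a_d43_d2c2415x1_8

theorem g__wQ_26_wN_1_rb8033094a_d43_d2c2415x1_6 : GoodKC AS k_wQ_26_wN_1_rb8033094a_d43_d2c2415x1_6 := p_wQ_26_wN_1_rb8033094a_d43_d2c2415x1_6 g__wQ_26_wN_1_rb8033094a_d43_d2c2415x1_7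

theorem g__wQ_26_wN_1_rb8033094a_d43_d2c2415x1_9 : GoodKC AS k_wQ_26_wN_1_rb8033094a_d43_d2c2415x1_9 := p_wQ_26_wN_1_rb8033094a_d43_d2c2415x1_9

theorem g__wQ_26_wN_1_rb8033094a_d43_d2c2415x1_1 : GoodKC AS k_wQ_26_wN_1_rb8033094a_d43_d2c2415x1_1 := p_wQ_26_wN_1_rb8033094a_d43_d2c2415x1_1 g__wQ_26_wN_1_rb8033094a_d43_d2c2415x1_2 g__wQ_26_wN_1_rb8033094a_d43_d2c2415x1_6 g__wQ_26_wN_1_rb8033094a_d43_d2c2415x1_9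

theorem g__wQ_26_wN_1_rb8033094a_d43_d2c2415x1_0 : GoodKC AS k_wQ_26_wN_1_rb8033094a_d43_d2c2415x1_0 := p_wQ_26_wN_1_rb8033094a_d43_d2c2415x1_0 g__wQ_26_wN_1_rb8033094a_d43_d2c2415x1_1

theorem g_wQ_26_wN_1_rb8033094a_d43_d2c2415x1 : GoodKC AS c_wQ_26_wN_1_rb8033094a_d43_d2c2415x1 := p_wQ_26_wN_1_rb8033094a_d43_d2c2415x1 g__wQ_26_wN_1_rb8033094a_d43_d2c2415x1_0

theorem g_wQ_26_wN_1_rb8033094a_d43_d2c2419x1 : GoodKC AS c_wQ_26_wN_1_rb8033094a_d43_d2c2419x1 := p_wQ_26_wN_1_rb8033094a_d43_d2c2419x1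

theorem g_wQ_26_wN_1_rb8033094a_d43_d2c241ax1 : GoodKC AS c_wQ_26_wN_1_rb8033094a_d43_d2c241ax1 := p_wQ_26_wN_1_rb8033094a_d43_d2c241ax1

theorem g__wQ_26_wN_1_rb8033094a_d43_d2c241cx1_0 : GoodKC AS k_wQ_26_wN_1_rb8033094a_d43_d2c241cx1_0 := p_wQ_26_wN_1_rb8033094a_d43_d2c241cx1_0

theorem g_wQ_26_wN_1_rb8033094a_d43_d2c241cx1 : GoodKC AS c_wQ_26_wN_1_rb8033094a_d43_d2c241cx1 := p_wQ_26_wN_1_rb8033094a_d43_d2c241cx1 g__wQ_26_wN_1_rb8033094a_d43_d2c241cx1_0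

theorem g_wQ_26_wN_1_rb8033094a_d43_d2c2420x1 : GoodKC AS c_wQ_26_wN_1_rb8033094a_d43_d2c2420x1 := p_wQ_26_wN_1_rb8033094a_d43_d2c2420x1

theorem g_wQ_26_wN_1_rb8033094a_d43_d2c2421x1 : GoodKC AS c_wQ_26_wN_1_rb8033094a_d43_d2c2421x1 := p_wQ_26_wN_1_rb8033094a_d43_d2c2421x1

theorem g_wQ_26_wN_1_rb8033094a_d43_d2c2422x1 : GoodKC AS c_wQ_26_wN_1_rb8033094a_d43_d2c2422x1 := p_wQ_26_wN_1_rb8033094a_d43_d2c2422x1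

theorem g_wQ_26_wN_1_rb8033094a_d43_d2c2424x1 : GoodKC AS c_wQ_26_wN_1_rb8033094a_d43_d2c2424x1 := p_wQ_26_wN_1_rb8033094a_d43_d2c2424x1

theorem g_wQ_26_wN_1_rb8033094a_d43_d2c2429x1 : GoodKC AS c_wQ_26_wN_1_rb8033094a_d43_d2c2429x1 := p_wQ_26_wN_1_rb8033094a_d43_d2c2429x1

theorem g_wQ_26_wN_1_rb8033094a_d43_d2c242bx1 : GoodKC AS c_wQ_26_wN_1_rb8033094a_d43_d2c242bx1 := p_wQ_26_wN_1_rb8033094a_d43_d2c242bx1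

theorem g_wQ_26_wN_1_rb8033094a_d43_d2c2432x1 : GoodKC AS c_wQ_26_wN_1_rb8033094a_d43_d2c2432x1 := p_wQ_26_wN_1_rb8033094a_d43_d2c2432x1

theorem g_wQ_26_wN_1_rb8033094a_d43_d2c2434x1 : GoodKC AS c_wQ_26_wN_1_rb8033094a_d43_d2c2434x1 := p_wQ_26_wN_1_rb8033094a_d43_d2c2434x1

theorem g_wQ_26_wN_1_rb8033094a_d43_d2c24x8 : GoodKC AS c_wQ_26_wN_1_rb8033094a_d43_d2c24x8 := p_wQ_26_wN_1_rb8033094a_d43_d2c24x1 g_wQ_26_wN_1_rb8033094a_d43_d2c2433x1 g_wQ_26_wN_1_rb8033094a_d43_d2c2431x1 g_wQ_26_wN_1_rb8033094a_d43_d2c2430x1 g_wQ_26_wN_1_rb8033094a_d43_d2c242fx1 g_wQ_26_wN_1_rb8033094a_d43_d2c242ex1 g_wQ_26_wN_1_rb8033094a_d43_d2c242dx1 g_wQ_26_wN_1_rb8033094a_d43_d2c242cx1 g_wQ_26_wN_1_rb8033094a_d43_d2c242ax1 g_wQ_26_wN_1_rb8033094a_d43_d2c2428x1 g_wQ_26_wN_1_rb8033094a_d43_d2c2427x1 g_wQ_26_wN_1_rb8033094a_d43_d2c2426x1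 g_wQ_26_wN_1_rb8033094a_d43_d2c2425x1 g_wQ_26_wN_1_rb8033094a_d43_d2c2423x1 g_wQ_26_wN_1_rb8033094a_d43_d2c241fx1 g_wQ_26_wN_1_rb8033094a_d43_d2c241ex1 g_wQ_26_wN_1_rb8033094a_d43_d2c241dx1 g_wQ_26_wN_1_rb8033094a_d43_d2c241bx1 g_wQ_26_wN_1_rb8033094a_d43_d2c2418x1 g_wQ_26_wN_1_rb8033094a_d43_d2c2417x1 g_wQ_26_wN_1_rb8033094a_d43_d2c2416x1 g_wQ_26_wN_1_rb8033094a_d43_d2c2414x1 g_wQ_26_wN_1_rb8033094a_d43_d2c2411x1 g_wQ_26_wN_1_rb8033094a_d43_d2c2410x1 g_wQ_26_wN_1_rb8033094a_d43_d2c240fx1 g_wQ_26_wN_1_rb8033094a_d43_d2c240ex1 g_wQ_26_wN_1_rb8033094a_d43_d2c240dx1 g_wQ_26_wN_1_rb8033094a_d43_d2c240bx1 g_wQ_26_wN_1_rb8033094a_d43_d2c240ax1 g_wQ_26_wN_1_rb8033094a_d43_d2c2408x1 g_wQ_26_wN_1_rb8033094a_d43_d2c2407x1 g_wQ_26_wN_1_rb8033094a_d43_d2c2406x1 g__wQ_26_wN_1_rb8033094a_d43_d2c24x1_0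 g_wQ_26_wN_1_rb8033094a_d43_d2c2403x1 g_wQ_26_wN_1_rb8033094a_d43_d2c2401x1 g_wQ_26_wN_1_rb8033094a_d43_d2c2402x1 g_wQ_26_wN_1_rb8033094a_d43_d2c2404x1 g_wQ_26_wN_1_rb8033094a_d43_d2c2405x1 g_wQ_26_wN_1_rb8033094a_d43_d2c2409x1 g_wQ_26_wN_1_rb8033094a_d43_d2c240cx1 g_wQ_26_wN_1_rb8033094a_d43_d2c2412x1 g_wQ_26_wN_1_rb8033094a_d43_d2c2413x1 g_wQ_26_wN_1_rb8033094a_d43_d2c2415x1 g_wQ_26_wN_1_rb8033094a_d43_d2c2419x1 g_wQ_26_wN_1_rb8033094a_d43_d2c241ax1 g_wQ_26_wN_1_rb8033094a_d43_d2c241cx1 g_wQ_26_wN_1_rb8033094a_d43_d2c2420x1 g_wQ_26_wN_1_rb8033094a_d43_d2c2421x1 g_wQ_26_wN_1_rb8033094a_d43_d2c2422x1 g_wQ_26_wN_1_rb8033094a_d43_d2c2424x1 g_wQ_26_wN_1_rb8033094a_d43_d2c2429x1 g_wQ_26_wN_1_rb8033094a_d43_d2c242bx1 g_wQ_26_wN_1_rb8033094a_d43_d2c2432x1 g_wQ_26_wN_1_rb8033094a_d43_d2c2434x1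

theorem g_wQ_26_wN_1_rb8033094a_d43_d2c23x8 : GoodKC AS c_wQ_26_wN_1_rb8033094a_d43_d2c23x8 := p_wQ_26_wN_1_rb8033094a_d43_d2c23x3

theorem g_wQ_26_wN_1_rb8033094a_d43_d2c22x8 : GoodKC AS c_wQ_26_wN_1_rb8033094a_d43_d2c22x8 := p_wQ_26_wN_1_rb8033094a_d43_d2c22x3

theorem g_wQ_26_wN_1_rb8033094a_d43_d2c20x8 : GoodKC AS c_wQ_26_wN_1_rb8033094a_d43_d2c20x8 := p_wQ_26_wN_1_rb8033094a_d43_d2c20x3

theorem g_wQ_26_wN_1_rb8033094a_d43_d2c1fx8 : GoodKC AS c_wQ_26_wN_1_rb8033094a_d43_d2c1fx8 := p_wQ_26_wN_1_rb8033094a_d43_d2c1fx3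

theorem g__wQ_26_wN_1_rb8033094a_d43_d2c1ex3_0 : GoodKC AS k_wQ_26_wN_1_rb8033094a_d43_d2c1ex3_0 := p_wQ_26_wN_1_rb8033094a_d43_d2c1ex3_0

theorem g_wQ_26_wN_1_rb8033094a_d43_d2c1ex8 : GoodKC AS c_wQ_26_wN_1_rb8033094a_d43_d2c1ex8 := p_wQ_26_wN_1_rb8033094a_d43_d2c1ex3 g__wQ_26_wN_1_rb8033094a_d43_d2c1ex3_0

theorem g_wQ_26_wN_1_rb8033094a_d43_d2c1dx8 : GoodKC AS c_wQ_26_wN_1_rb8033094a_d43_d2c1dx8 := p_wQ_26_wN_1_rb8033094a_d43_d2c1dx3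

theorem g_wQ_26_wN_1_rb8033094a_d43_d2c1cx8 : GoodKC AS c_wQ_26_wN_1_rb8033094a_d43_d2c1cx8 := p_wQ_26_wN_1_rb8033094a_d43_d2c1cx3

theorem g_wQ_26_wN_1_rb8033094a_d43_d2c1ax8 : GoodKC AS c_wQ_26_wN_1_rb8033094a_d43_d2c1ax8 := p_wQ_26_wN_1_rb8033094a_d43_d2c1ax3

theorem g__wQ_26_wN_1_rb8033094a_d43_d2c18x3_0 : GoodKC AS k_wQ_26_wN_1_rb8033094a_d43_d2c18x3_0 := p_wQ_26_wN_1_rb8033094a_d43_d2c18x3_0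

theorem g__wQ_26_wN_1_rb8033094a_d43_d2c18x3_2 : GoodKC AS k_wQ_26_wN_1_rb8033094a_d43_d2c18x3_2 := p_wQ_26_wN_1_rb8033094a_d43_d2c18x3_2

theorem g__wQ_26_wN_1_rb8033094a_d43_d2c18x3_1 : GoodKC AS k_wQ_26_wN_1_rb8033094a_d43_d2c18x3_1 := p_wQ_26_wN_1_rb8033094a_d43_d2c18x3_1 g__wQ_26_wN_1_rb8033094a_d43_d2c18x3_2

theorem g_wQ_26_wN_1_rb8033094a_d43_d2c1800x3 : GoodKC AS c_wQ_26_wN_1_rb8033094a_d43_d2c1800x3 := p_wQ_26_wN_1_rb8033094a_d43_d2c1800x2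

theorem g__wQ_26_wN_1_rb8033094a_d43_d2c18x3_7 : GoodKC AS k_wQ_26_wN_1_rb8033094a_d43_d2c18x3_7 := p_wQ_26_wN_1_rb8033094a_d43_d2c18x3_7

theorem g__wQ_26_wN_1_rb8033094a_d43_d2c18x3_6 : GoodKC AS k_wQ_26_wN_1_rb8033094a_d43_d2c18x3_6 := p_wQ_26_wN_1_rb8033094a_d43_d2c18x3_6 g_wQ_26_wN_1_rb8033094a_d43_d2c1800x3 g__wQ_26_wN_1_rb8033094a_d43_d2c18x3_7

theorem g__wQ_26_wN_1_rb8033094a_d43_d2c18x3_5 : GoodKC AS k_wQ_26_wN_1_rb8033094a_d43_d2c18x3_5 := p_wQ_26_wN_1_rb8033094a_d43_d2c18x3_5 g__wQ_26_wN_1_rb8033094a_d43_d2c18x3_6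

theorem g__wQ_26_wN_1_rb8033094a_d43_d2c18x3_4 : GoodKC AS k_wQ_26_wN_1_rb8033094a_d43_d2c18x3_4 := p_wQ_26_wN_1_rb8033094a_d43_d2c18x3_4 g__wQ_26_wN_1_rb8033094a_d43_d2c18x3_5

theorem g__wQ_26_wN_1_rb8033094a_d43_d2c18x3_3 : GoodKC AS k_wQ_26_wN_1_rb8033094a_d43_d2c18x3_3 := p_wQ_26_wN_1_rb8033094a_d43_d2c18x3_3 g__wQ_26_wN_1_rb8033094a_d43_d2c18x3_4

theorem g_wQ_26_wN_1_rb8033094a_d43_d2c18x8 : GoodKC AS c_wQ_26_wN_1_rb8033094a_d43_d2c18x8 := p_wQ_26_wN_1_rb8033094a_d43_d2c18x3 g__wQ_26_wN_1_rb8033094a_d43_d2c18x3_0 g__wQ_26_wN_1_rb8033094a_d43_d2c18x3_1 g__wQ_26_wN_1_rb8033094a_d43_d2c18x3_3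

theorem g__wQ_26_wN_1_rb8033094a_d43_d2c17x3_2 : GoodKC AS k_wQ_26_wN_1_rb8033094a_d43_d2c17x3_2 := p_wQ_26_wN_1_rb8033094a_d43_d2c17x3_2

theorem g__wQ_26_wN_1_rb8033094a_d43_d2c17x3_1 : GoodKC AS k_wQ_26_wN_1_rb8033094a_d43_d2c17x3_1 := p_wQ_26_wN_1_rb8033094a_d43_d2c17x3_1 g__wQ_26_wN_1_rb8033094a_d43_d2c17x3_2

theorem g__wQ_26_wN_1_rb8033094a_d43_d2c17x3_0 : GoodKC AS k_wQ_26_wN_1_rb8033094a_d43_d2c17x3_0 := p_wQ_26_wN_1_rb8033094a_d43_d2c17x3_0 g__wQ_26_wN_1_rb8033094a_d43_d2c17x3_1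

theorem g_wQ_26_wN_1_rb8033094a_d43_d2c17x8 : GoodKC AS c_wQ_26_wN_1_rb8033094a_d43_d2c17x8 := p_wQ_26_wN_1_rb8033094a_d43_d2c17x3 g__wQ_26_wN_1_rb8033094a_d43_d2c17x3_0

theorem g_wQ_26_wN_1_rb8033094a_d43_d2c16x8 : GoodKC AS c_wQ_26_wN_1_rb8033094a_d43_d2c16x8 := p_wQ_26_wN_1_rb8033094a_d43_d2c16x3

theorem g_wQ_26_wN_1_rb8033094a_d43_d2c15x8 : GoodKC AS c_wQ_26_wN_1_rb8033094a_d43_d2c15x8 := p_wQ_26_wN_1_rb8033094a_d43_d2c15x3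

theorem g__wQ_26_wN_1_rb8033094a_d43_d2c14x3_0 : GoodKC AS k_wQ_26_wN_1_rb8033094a_d43_d2c14x3_0 := p_wQ_26_wN_1_rb8033094a_d43_d2c14x3_0

theorem g_wQ_26_wN_1_rb8033094a_d43_d2c14x8 : GoodKC AS c_wQ_26_wN_1_rb8033094a_d43_d2c14x8 := p_wQ_26_wN_1_rb8033094a_d43_d2c14x3 g__wQ_26_wN_1_rb8033094a_d43_d2c14x3_0

theorem g__wQ_26_wN_1_rb8033094a_d43_d2c11x2_1 : GoodKC AS k_wQ_26_wN_1_rb8033094a_d43_d2c11x2_1 := p_wQ_26_wN_1_rb8033094a_d43_d2c11x2_1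

theorem g__wQ_26_wN_1_rb8033094a_d43_d2c11x2_4 : GoodKC AS k_wQ_26_wN_1_rb8033094a_d43_d2c11x2_4 := p_wQ_26_wN_1_rb8033094a_d43_d2c11x2_4

theorem g__wQ_26_wN_1_rb8033094a_d43_d2c11x2_3 : GoodKC AS k_wQ_26_wN_1_rb8033094a_d43_d2c11x2_3 := p_wQ_26_wN_1_rb8033094a_d43_d2c11x2_3 g__wQ_26_wN_1_rb8033094a_d43_d2c11x2_4

theorem g__wQ_26_wN_1_rb8033094a_d43_d2c11x2_2 : GoodKC AS k_wQ_26_wN_1_rb8033094a_d43_d2c11x2_2 := p_wQ_26_wN_1_rb8033094a_d43_d2c11x2_2 g__wQ_26_wN_1_rb8033094a_d43_d2c11x2_3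

theorem g__wQ_26_wN_1_rb8033094a_d43_d2c11x2_5 : GoodKC AS k_wQ_26_wN_1_rb8033094a_d43_d2c11x2_5 := p_wQ_26_wN_1_rb8033094a_d43_d2c11x2_5

theorem g__wQ_26_wN_1_rb8033094a_d43_d2c11x2_0 : GoodKC AS k_wQ_26_wN_1_rb8033094a_d43_d2c11x2_0 := p_wQ_26_wN_1_rb8033094a_d43_d2c11x2_0 g__wQ_26_wN_1_rb8033094a_d43_d2c11x2_1 g__wQ_26_wN_1_rb8033094a_d43_d2c11x2_2 g__wQ_26_wN_1_rb8033094a_d43_d2c11x2_5

theorem g_wQ_26_wN_1_rb8033094a_d43_d2c11x8 : GoodKC AS c_wQ_26_wN_1_rb8033094a_d43_d2c11x8 := p_wQ_26_wN_1_rb8033094a_d43_d2c11x2 g__wQ_26_wN_1_rb8033094a_d43_d2c11x2_0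

theorem g_wQ_26_wN_1_rb8033094a_d43_d2c10x8 : GoodKC AS c_wQ_26_wN_1_rb8033094a_d43_d2c10x8 := p_wQ_26_wN_1_rb8033094a_d43_d2c10x3

theorem g_wQ_26_wN_1_rb8033094a_d43_d2c0ex8 : GoodKC AS c_wQ_26_wN_1_rb8033094a_d43_d2c0ex8 := p_wQ_26_wN_1_rb8033094a_d43_d2c0ex3

theorem g_wQ_26_wN_1_rb8033094a_d43_d2c0dx8 : GoodKC AS c_wQ_26_wN_1_rb8033094a_d43_d2c0dx8 := p_wQ_26_wN_1_rb8033094a_d43_d2c0dx3

theorem g_wQ_26_wN_1_rb8033094a_d43_d2c0cx8 : GoodKC AS c_wQ_26_wN_1_rb8033094a_d43_d2c0cx8 := p_wQ_26_wN_1_rb8033094a_d43_d2c0cx3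

theorem g__wQ_26_wN_1_rb8033094a_d43_d2c0bx3_0 : GoodKC AS k_wQ_26_wN_1_rb8033094a_d43_d2c0bx3_0 := p_wQ_26_wN_1_rb8033094a_d43_d2c0bx3_0

theorem g_wQ_26_wN_1_rb8033094a_d43_d2c0bx8 : GoodKC AS c_wQ_26_wN_1_rb8033094a_d43_d2c0bx8 := p_wQ_26_wN_1_rb8033094a_d43_d2c0bx3 g__wQ_26_wN_1_rb8033094a_d43_d2c0bx3_0

theorem g_wQ_26_wN_1_rb8033094a_d43_d2c0ax8 : GoodKC AS c_wQ_26_wN_1_rb8033094a_d43_d2c0ax8 := p_wQ_26_wN_1_rb8033094a_d43_d2c0ax3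

theorem g__wQ_26_wN_1_rb8033094a_d43_d2c09x3_0 : GoodKC AS k_wQ_26_wN_1_rb8033094a_d43_d2c09x3_0 := p_wQ_26_wN_1_rb8033094a_d43_d2c09x3_0

theorem g_wQ_26_wN_1_rb8033094a_d43_d2c09x8 : GoodKC AS c_wQ_26_wN_1_rb8033094a_d43_d2c09x8 := p_wQ_26_wN_1_rb8033094a_d43_d2c09x3 g__wQ_26_wN_1_rb8033094a_d43_d2c09x3_0

theorem g_wQ_26_wN_1_rb8033094a_d43_d2c07x8 : GoodKC AS c_wQ_26_wN_1_rb8033094a_d43_d2c07x8 := p_wQ_26_wN_1_rb8033094a_d43_d2c07x3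

theorem g_wQ_26_wN_1_rb8033094a_d43_d2c06x8 : GoodKC AS c_wQ_26_wN_1_rb8033094a_d43_d2c06x8 := p_wQ_26_wN_1_rb8033094a_d43_d2c06x3

theorem g_wQ_26_wN_1_rb8033094a_d43_d2c03x8 : GoodKC AS c_wQ_26_wN_1_rb8033094a_d43_d2c03x8 := p_wQ_26_wN_1_rb8033094a_d43_d2c03x3

theorem g_wQ_26_wN_1_rb8033094a_d43_d2c02x8 : GoodKC AS c_wQ_26_wN_1_rb8033094a_d43_d2c02x8 := p_wQ_26_wN_1_rb8033094a_d43_d2c02x3

theorem g_wQ_26_wN_1_rb8033094a_d43_d2c00x8 : GoodKC AS c_wQ_26_wN_1_rb8033094a_d43_d2c00x8 := p_wQ_26_wN_1_rb8033094a_d43_d2c00x3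

theorem g_wQ_26_wN_1_rb8033094a_d43_d2c01x8 : GoodKC AS c_wQ_26_wN_1_rb8033094a_d43_d2c01x8 := p_wQ_26_wN_1_rb8033094a_d43_d2c01x3

theorem g_wQ_26_wN_1_rb8033094a_d43_d2c04x8 : GoodKC AS c_wQ_26_wN_1_rb8033094a_d43_d2c04x8 := p_wQ_26_wN_1_rb8033094a_d43_d2c04x3

theorem g_wQ_26_wN_1_rb8033094a_d43_d2c05x8 : GoodKC AS c_wQ_26_wN_1_rb8033094a_d43_d2c05x8 := p_wQ_26_wN_1_rb8033094a_d43_d2c05x3

theorem g__wQ_26_wN_1_rb8033094a_d43_d2cx8_4 : GoodKC AS k_wQ_26_wN_1_rb8033094a_d43_d2cx8_4 := p_wQ_26_wN_1_rb8033094a_d43_d2cx8_4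

theorem g__wQ_26_wN_1_rb8033094a_d43_d2cx8_3 : GoodKC AS k_wQ_26_wN_1_rb8033094a_d43_d2cx8_3 := p_wQ_26_wN_1_rb8033094a_d43_d2cx8_3 g__wQ_26_wN_1_rb8033094a_d43_d2cx8_4

theorem g__wQ_26_wN_1_rb8033094a_d43_d2cx8_2 : GoodKC AS k_wQ_26_wN_1_rb8033094a_d43_d2cx8_2 := p_wQ_26_wN_1_rb8033094a_d43_d2cx8_2 g__wQ_26_wN_1_rb8033094a_d43_d2cx8_3

theorem g__wQ_26_wN_1_rb8033094a_d43_d2cx8_1 : GoodKC AS k_wQ_26_wN_1_rb8033094a_d43_d2cx8_1 := p_wQ_26_wN_1_rb8033094a_d43_d2cx8_1 g__wQ_26_wN_1_rb8033094a_d43_d2cx8_2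

theorem g__wQ_26_wN_1_rb8033094a_d43_d2cx8_7 : GoodKC AS k_wQ_26_wN_1_rb8033094a_d43_d2cx8_7 := p_wQ_26_wN_1_rb8033094a_d43_d2cx8_7

theorem g__wQ_26_wN_1_rb8033094a_d43_d2cx8_8 : GoodKC AS k_wQ_26_wN_1_rb8033094a_d43_d2cx8_8 := p_wQ_26_wN_1_rb8033094a_d43_d2cx8_8

theorem g__wQ_26_wN_1_rb8033094a_d43_d2cx8_6 : GoodKC AS k_wQ_26_wN_1_rb8033094a_d43_d2cx8_6 := p_wQ_26_wN_1_rb8033094a_d43_d2cx8_6 g__wQ_26_wN_1_rb8033094a_d43_d2cx8_7 g__wQ_26_wN_1_rb8033094a_d43_d2cx8_8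

theorem g__wQ_26_wN_1_rb8033094a_d43_d2cx8_5 : GoodKC AS k_wQ_26_wN_1_rb8033094a_d43_d2cx8_5 := p_wQ_26_wN_1_rb8033094a_d43_d2cx8_5 g__wQ_26_wN_1_rb8033094a_d43_d2cx8_6

theorem g_wQ_26_wN_1_rb8033094a_d43_d2c08x8 : GoodKC AS c_wQ_26_wN_1_rb8033094a_d43_d2c08x8 := p_wQ_26_wN_1_rb8033094a_d43_d2c08x3

theorem g_wQ_26_wN_1_rb8033094a_d43_d2c0fx8 : GoodKC AS c_wQ_26_wN_1_rb8033094a_d43_d2c0fx8 := p_wQ_26_wN_1_rb8033094a_d43_d2c0fx3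

theorem g_wQ_26_wN_1_rb8033094a_d43_d2c12x8 : GoodKC AS c_wQ_26_wN_1_rb8033094a_d43_d2c12x8 := p_wQ_26_wN_1_rb8033094a_d43_d2c12x3

theorem g_wQ_26_wN_1_rb8033094a_d43_d2c13x8 : GoodKC AS c_wQ_26_wN_1_rb8033094a_d43_d2c13x8 := p_wQ_26_wN_1_rb8033094a_d43_d2c13x3

theorem g_wQ_26_wN_1_rb8033094a_d43_d2c19x8 : GoodKC AS c_wQ_26_wN_1_rb8033094a_d43_d2c19x8 := p_wQ_26_wN_1_rb8033094a_d43_d2c19x3

theorem g_wQ_26_wN_1_rb8033094a_d43_d2c1bx8 : GoodKC AS c_wQ_26_wN_1_rb8033094a_d43_d2c1bx8 := p_wQ_26_wN_1_rb8033094a_d43_d2c1bx3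

theorem g_wQ_26_wN_1_rb8033094a_d43_d2c21x8 : GoodKC AS c_wQ_26_wN_1_rb8033094a_d43_d2c21x8 := p_wQ_26_wN_1_rb8033094a_d43_d2c21x3

theorem g__wQ_26_wN_1_rb8033094a_d43_d2c25x3_0 : GoodKC AS k_wQ_26_wN_1_rb8033094a_d43_d2c25x3_0 := p_wQ_26_wN_1_rb8033094a_d43_d2c25x3_0

theorem g_wQ_26_wN_1_rb8033094a_d43_d2c25x8 : GoodKC AS c_wQ_26_wN_1_rb8033094a_d43_d2c25x8 := p_wQ_26_wN_1_rb8033094a_d43_d2c25x3 g__wQ_26_wN_1_rb8033094a_d43_d2c25x3_0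

theorem g_wQ_26_wN_1_rb8033094a_d43_d2c26x8 : GoodKC AS c_wQ_26_wN_1_rb8033094a_d43_d2c26x8 := p_wQ_26_wN_1_rb8033094a_d43_d2c26x3

theorem g_wQ_26_wN_1_rb8033094a_d43_d2c27x8 : GoodKC AS c_wQ_26_wN_1_rb8033094a_d43_d2c27x8 := p_wQ_26_wN_1_rb8033094a_d43_d2c27x3

theorem g_wQ_26_wN_1_rb8033094a_d43_d2c28x8 : GoodKC AS c_wQ_26_wN_1_rb8033094a_d43_d2c28x8 := p_wQ_26_wN_1_rb8033094a_d43_d2c28x3

theorem g_wQ_26_wN_1_rb8033094a_d43_d2c2bx8 : GoodKC AS c_wQ_26_wN_1_rb8033094a_d43_d2c2bx8 := p_wQ_26_wN_1_rb8033094a_d43_d2c2bx3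

theorem g__wQ_26_wN_1_rb8033094a_d43_d2cx8_0 : GoodKC AS k_wQ_26_wN_1_rb8033094a_d43_d2cx8_0 := p_wQ_26_wN_1_rb8033094a_d43_d2cx8_0 g_wQ_26_wN_1_rb8033094a_d43_d2c2ax8 g_wQ_26_wN_1_rb8033094a_d43_d2c29x8 g_wQ_26_wN_1_rb8033094a_d43_d2c24x8 g_wQ_26_wN_1_rb8033094a_d43_d2c23x8 g_wQ_26_wN_1_rb8033094a_d43_d2c22x8 g_wQ_26_wN_1_rb8033094a_d43_d2c20x8 g_wQ_26_wN_1_rb8033094a_d43_d2c1fx8 g_wQ_26_wN_1_rb8033094a_d43_d2c1ex8 g_wQ_26_wN_1_rb8033094a_d43_d2c1dx8 g_wQ_26_wN_1_rb8033094a_d43_d2c1cx8 g_wQ_26_wN_1_rb8033094a_d43_d2c1ax8 g_wQ_26_wN_1_rb8033094a_d43_d2c18x8 g_wQ_26_wN_1_rb8033094a_d43_d2c17x8 g_wQ_26_wN_1_rb8033094a_d43_d2c16x8 g_wQ_26_wN_1_rb8033094a_d43_d2c15x8 g_wQ_26_wN_1_rb8033094a_d43_d2c14x8 g_wQ_26_wN_1_rb8033094a_d43_d2c11x8 g_wQ_26_wN_1_rb8033094a_d43_d2c10x8 g_wQ_26_wN_1_rb8033094a_d43_d2c0ex8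 g_wQ_26_wN_1_rb8033094a_d43_d2c0dx8 g_wQ_26_wN_1_rb8033094a_d43_d2c0cx8 g_wQ_26_wN_1_rb8033094a_d43_d2c0bx8 g_wQ_26_wN_1_rb8033094a_d43_d2c0ax8 g_wQ_26_wN_1_rb8033094a_d43_d2c09x8 g_wQ_26_wN_1_rb8033094a_d43_d2c07x8 g_wQ_26_wN_1_rb8033094a_d43_d2c06x8 g_wQ_26_wN_1_rb8033094a_d43_d2c03x8 g_wQ_26_wN_1_rb8033094a_d43_d2c02x8 g_wQ_26_wN_1_rb8033094a_d43_d2c00x8 g_wQ_26_wN_1_rb8033094a_d43_d2c01x8 g_wQ_26_wN_1_rb8033094a_d43_d2c04x8 g_wQ_26_wN_1_rb8033094a_d43_d2c05x8 g__wQ_26_wN_1_rb8033094a_d43_d2cx8_1 g__wQ_26_wN_1_rb8033094a_d43_d2cx8_5 g_wQ_26_wN_1_rb8033094a_d43_d2c08x8 g_wQ_26_wN_1_rb8033094a_d43_d2c0fx8 g_wQ_26_wN_1_rb8033094a_d43_d2c12x8 g_wQ_26_wN_1_rb8033094a_d43_d2c13x8 g_wQ_26_wN_1_rb8033094a_d43_d2c19x8 g_wQ_26_wN_1_rb8033094a_d43_d2c1bx8 g_wQ_26_wN_1_rb8033094a_d43_d2c21x8 g_wQ_26_wN_1_rb8033094a_d43_d2c25x8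 g_wQ_26_wN_1_rb8033094a_d43_d2c26x8 g_wQ_26_wN_1_rb8033094a_d43_d2c27x8 g_wQ_26_wN_1_rb8033094a_d43_d2c28x8 g_wQ_26_wN_1_rb8033094a_d43_d2c2bx8

theorem g__wQ_26_wN_1_rb8033094a_d43_d2c2cx3_0 : GoodKC AS k_wQ_26_wN_1_rb8033094a_d43_d2c2cx3_0 := p_wQ_26_wN_1_rb8033094a_d43_d2c2cx3_0

theorem g__wQ_26_wN_1_rb8033094a_d43_d2c2cx3_2 : GoodKC AS k_wQ_26_wN_1_rb8033094a_d43_d2c2cx3_2 := p_wQ_26_wN_1_rb8033094a_d43_d2c2cx3_2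

theorem g__wQ_26_wN_1_rb8033094a_d43_d2c2cx3_1 : GoodKC AS k_wQ_26_wN_1_rb8033094a_d43_d2c2cx3_1 := p_wQ_26_wN_1_rb8033094a_d43_d2c2cx3_1 g__wQ_26_wN_1_rb8033094a_d43_d2c2cx3_2

theorem g_wQ_26_wN_1_rb8033094a_d43_d2c2cx8 : GoodKC AS c_wQ_26_wN_1_rb8033094a_d43_d2c2cx8 := p_wQ_26_wN_1_rb8033094a_d43_d2c2cx3 g__wQ_26_wN_1_rb8033094a_d43_d2c2cx3_0 g__wQ_26_wN_1_rb8033094a_d43_d2c2cx3_1

theorem g__wQ_26_wN_1_rb8033094a_d43_d2c2ex3_2 : GoodKC AS k_wQ_26_wN_1_rb8033094a_d43_d2c2ex3_2 := p_wQ_26_wN_1_rb8033094a_d43_d2c2ex3_2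

theorem g__wQ_26_wN_1_rb8033094a_d43_d2c2ex3_5 : GoodKC AS k_wQ_26_wN_1_rb8033094a_d43_d2c2ex3_5 := p_wQ_26_wN_1_rb8033094a_d43_d2c2ex3_5

theorem g__wQ_26_wN_1_rb8033094a_d43_d2c2ex3_4 : GoodKC AS k_wQ_26_wN_1_rb8033094a_d43_d2c2ex3_4 := p_wQ_26_wN_1_rb8033094a_d43_d2c2ex3_4 g__wQ_26_wN_1_rb8033094a_d43_d2c2ex3_5

theorem g__wQ_26_wN_1_rb8033094a_d43_d2c2ex3_3 : GoodKC AS k_wQ_26_wN_1_rb8033094a_d43_d2c2ex3_3 := p_wQ_26_wN_1_rb8033094a_d43_d2c2ex3_3 g__wQ_26_wN_1_rb8033094a_d43_d2c2ex3_4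

theorem g__wQ_26_wN_1_rb8033094a_d43_d2c2ex3_1 : GoodKC AS k_wQ_26_wN_1_rb8033094a_d43_d2c2ex3_1 := p_wQ_26_wN_1_rb8033094a_d43_d2c2ex3_1 g__wQ_26_wN_1_rb8033094a_d43_d2c2ex3_2 g__wQ_26_wN_1_rb8033094a_d43_d2c2ex3_3

theorem g__wQ_26_wN_1_rb8033094a_d43_d2c2ex3_7 : GoodKC AS k_wQ_26_wN_1_rb8033094a_d43_d2c2ex3_7 := p_wQ_26_wN_1_rb8033094a_d43_d2c2ex3_7

theorem g__wQ_26_wN_1_rb8033094a_d43_d2c2ex3_6 : GoodKC AS k_wQ_26_wN_1_rb8033094a_d43_d2c2ex3_6 := p_wQ_26_wN_1_rb8033094a_d43_d2c2ex3_6 g__wQ_26_wN_1_rb8033094a_d43_d2c2ex3_7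

theorem g__wQ_26_wN_1_rb8033094a_d43_d2c2ex3_0 : GoodKC AS k_wQ_26_wN_1_rb8033094a_d43_d2c2ex3_0 := p_wQ_26_wN_1_rb8033094a_d43_d2c2ex3_0 g__wQ_26_wN_1_rb8033094a_d43_d2c2ex3_1 g__wQ_26_wN_1_rb8033094a_d43_d2c2ex3_6

theorem g_wQ_26_wN_1_rb8033094a_d43_d2c2ex8 : GoodKC AS c_wQ_26_wN_1_rb8033094a_d43_d2c2ex8 := p_wQ_26_wN_1_rb8033094a_d43_d2c2ex3 g__wQ_26_wN_1_rb8033094a_d43_d2c2ex3_0

theorem g__wQ_26_wN_1_rb8033094a_d43_d2c2fx3_0 : GoodKC AS k_wQ_26_wN_1_rb8033094a_d43_d2c2fx3_0 := p_wQ_26_wN_1_rb8033094a_d43_d2c2fx3_0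

theorem g_wQ_26_wN_1_rb8033094a_d43_d2c2fx8 : GoodKC AS c_wQ_26_wN_1_rb8033094a_d43_d2c2fx8 := p_wQ_26_wN_1_rb8033094a_d43_d2c2fx3 g__wQ_26_wN_1_rb8033094a_d43_d2c2fx3_0

theorem g_wQ_26_wN_1_rb8033094a_d43_d2c32x8 : GoodKC AS c_wQ_26_wN_1_rb8033094a_d43_d2c32x8 := p_wQ_26_wN_1_rb8033094a_d43_d2c32x3

theorem g_wQ_26_wN_1_rb8033094a_d43_d2c34x8 : GoodKC AS c_wQ_26_wN_1_rb8033094a_d43_d2c34x8 := p_wQ_26_wN_1_rb8033094a_d43_d2c34x3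

theorem g_wQ_26_wN_1_rb8033094a_d43_d2c35x8 : GoodKC AS c_wQ_26_wN_1_rb8033094a_d43_d2c35x8 := p_wQ_26_wN_1_rb8033094a_d43_d2c35x3

theorem g__wQ_26_wN_1_rb8033094a_d43_d2c36x3_2 : GoodKC AS k_wQ_26_wN_1_rb8033094a_d43_d2c36x3_2 := p_wQ_26_wN_1_rb8033094a_d43_d2c36x3_2

theorem g__wQ_26_wN_1_rb8033094a_d43_d2c36x3_1 : GoodKC AS k_wQ_26_wN_1_rb8033094a_d43_d2c36x3_1 := p_wQ_26_wN_1_rb8033094a_d43_d2c36x3_1 g__wQ_26_wN_1_rb8033094a_d43_d2c36x3_2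

theorem g__wQ_26_wN_1_rb8033094a_d43_d2c36x3_0 : GoodKC AS k_wQ_26_wN_1_rb8033094a_d43_d2c36x3_0 := p_wQ_26_wN_1_rb8033094a_d43_d2c36x3_0 g__wQ_26_wN_1_rb8033094a_d43_d2c36x3_1

theorem g_wQ_26_wN_1_rb8033094a_d43_d2c36x8 : GoodKC AS c_wQ_26_wN_1_rb8033094a_d43_d2c36x8 := p_wQ_26_wN_1_rb8033094a_d43_d2c36x3 g__wQ_26_wN_1_rb8033094a_d43_d2c36x3_0

theorem g_wQ_26_wN_1_rb8033094a_d43_d2cx2 : GoodKC AS c_wQ_26_wN_1_rb8033094a_d43_d2cx2 := p_wQ_26_wN_1_rb8033094a_d43_d2cx8 g_wQ_26_wN_1_rb8033094a_d43_d2c3ax8 g_wQ_26_wN_1_rb8033094a_d43_d2c39x8 g_wQ_26_wN_1_rb8033094a_d43_d2c38x8 g_wQ_26_wN_1_rb8033094a_d43_d2c37x8 g_wQ_26_wN_1_rb8033094a_d43_d2c33x8 g_wQ_26_wN_1_rb8033094a_d43_d2c31x8 g_wQ_26_wN_1_rb8033094a_d43_d2c30x8 g_wQ_26_wN_1_rb8033094a_d43_d2c2dx8 g__wQ_26_wN_1_rb8033094a_d43_d2cx8_0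 g_wQ_26_wN_1_rb8033094a_d43_d2c2cx8 g_wQ_26_wN_1_rb8033094a_d43_d2c2ex8 g_wQ_26_wN_1_rb8033094a_d43_d2c2fx8 g_wQ_26_wN_1_rb8033094a_d43_d2c32x8 g_wQ_26_wN_1_rb8033094a_d43_d2c34x8 g_wQ_26_wN_1_rb8033094a_d43_d2c35x8 g_wQ_26_wN_1_rb8033094a_d43_d2c36x8

theorem g__wQ_26_wN_1_rb8033094a_d43_d2fx2_0 : GoodKC AS k_wQ_26_wN_1_rb8033094a_d43_d2fx2_0 := p_wQ_26_wN_1_rb8033094a_d43_d2fx2_0

theorem g__wQ_26_wN_1_rb8033094a_d43_d2fx2_3 : GoodKC AS k_wQ_26_wN_1_rb8033094a_d43_d2fx2_3 := p_wQ_26_wN_1_rb8033094a_d43_d2fx2_3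

theorem g__wQ_26_wN_1_rb8033094a_d43_d2fx2_2 : GoodKC AS k_wQ_26_wN_1_rb8033094a_d43_d2fx2_2 := p_wQ_26_wN_1_rb8033094a_d43_d2fx2_2 g__wQ_26_wN_1_rb8033094a_d43_d2fx2_3

theorem g__wQ_26_wN_1_rb8033094a_d43_d2fx2_1 : GoodKC AS k_wQ_26_wN_1_rb8033094a_d43_d2fx2_1 := p_wQ_26_wN_1_rb8033094a_d43_d2fx2_1 g__wQ_26_wN_1_rb8033094a_d43_d2fx2_2

theorem g__wQ_26_wN_1_rb8033094a_d43_d2fx2_4 : GoodKC AS k_wQ_26_wN_1_rb8033094a_d43_d2fx2_4 := p_wQ_26_wN_1_rb8033094a_d43_d2fx2_4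

theorem g__wQ_26_wN_1_rb8033094a_d43_d2fx2_5 : GoodKC AS k_wQ_26_wN_1_rb8033094a_d43_d2fx2_5 := p_wQ_26_wN_1_rb8033094a_d43_d2fx2_5

theorem g_wQ_26_wN_1_rb8033094a_d43_d2fx2 : GoodKC AS c_wQ_26_wN_1_rb8033094a_d43_d2fx2 := p_wQ_26_wN_1_rb8033094a_d43_d2fx2 g__wQ_26_wN_1_rb8033094a_d43_d2fx2_0 g__wQ_26_wN_1_rb8033094a_d43_d2fx2_1 g__wQ_26_wN_1_rb8033094a_d43_d2fx2_4 g__wQ_26_wN_1_rb8033094a_d43_d2fx2_5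

theorem g_wQ_26_wN_1_rb8033094a_d43_d3023x4 : GoodKC AS c_wQ_26_wN_1_rb8033094a_d43_d3023x4 := p_wQ_26_wN_1_rb8033094a_d43_d3023x1

theorem g_wQ_26_wN_1_rb8033094a_d43_d3022x4 : GoodKC AS c_wQ_26_wN_1_rb8033094a_d43_d3022x4 := p_wQ_26_wN_1_rb8033094a_d43_d3022x1

theorem g_wQ_26_wN_1_rb8033094a_d43_d3021x4 : GoodKC AS c_wQ_26_wN_1_rb8033094a_d43_d3021x4 := p_wQ_26_wN_1_rb8033094a_d43_d3021x1

theorem g__wQ_26_wN_1_rb8033094a_d43_d3020v1_0 : GoodKC AS k_wQ_26_wN_1_rb8033094a_d43_d3020v1_0 := p_wQ_26_wN_1_rb8033094a_d43_d3020v1_0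

theorem g_wQ_26_wN_1_rb8033094a_d43_d3020x4 : GoodKC AS c_wQ_26_wN_1_rb8033094a_d43_d3020x4 := p_wQ_26_wN_1_rb8033094a_d43_d3020x1 g__wQ_26_wN_1_rb8033094a_d43_d3020v1_0

theorem g_wQ_26_wN_1_rb8033094a_d43_d301fx4 : GoodKC AS c_wQ_26_wN_1_rb8033094a_d43_d301fx4 := p_wQ_26_wN_1_rb8033094a_d43_d301fx1

theorem g__wQ_26_wN_1_rb8033094a_d43_d301ex1_3 : GoodKC AS k_wQ_26_wN_1_rb8033094a_d43_d301ex1_3 := p_wQ_26_wN_1_rb8033094a_d43_d301ex1_3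

theorem g__wQ_26_wN_1_rb8033094a_d43_d301ex1_2 : GoodKC AS k_wQ_26_wN_1_rb8033094a_d43_d301ex1_2 := p_wQ_26_wN_1_rb8033094a_d43_d301ex1_2 g__wQ_26_wN_1_rb8033094a_d43_d301ex1_3

theorem g__wQ_26_wN_1_rb8033094a_d43_d301ex1_1 : GoodKC AS k_wQ_26_wN_1_rb8033094a_d43_d301ex1_1 := p_wQ_26_wN_1_rb8033094a_d43_d301ex1_1 g__wQ_26_wN_1_rb8033094a_d43_d301ex1_2

theorem g__wQ_26_wN_1_rb8033094a_d43_d301ex1_0 : GoodKC AS k_wQ_26_wN_1_rb8033094a_d43_d301ex1_0 := p_wQ_26_wN_1_rb8033094a_d43_d301ex1_0 g__wQ_26_wN_1_rb8033094a_d43_d301ex1_1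

theorem g__wQ_26_wN_1_rb8033094a_d43_d301ex1_4 : GoodKC AS k_wQ_26_wN_1_rb8033094a_d43_d301ex1_4 := p_wQ_26_wN_1_rb8033094a_d43_d301ex1_4

theorem g_wQ_26_wN_1_rb8033094a_d43_d301ex4 : GoodKC AS c_wQ_26_wN_1_rb8033094a_d43_d301ex4 := p_wQ_26_wN_1_rb8033094a_d43_d301ex1 g__wQ_26_wN_1_rb8033094a_d43_d301ex1_0 g__wQ_26_wN_1_rb8033094a_d43_d301ex1_4

theorem g_wQ_26_wN_1_rb8033094a_d43_d301cx4 : GoodKC AS c_wQ_26_wN_1_rb8033094a_d43_d301cx4 := p_wQ_26_wN_1_rb8033094a_d43_d301cx1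

theorem g_wQ_26_wN_1_rb8033094a_d43_d301bx4 : GoodKC AS c_wQ_26_wN_1_rb8033094a_d43_d301bx4 := p_wQ_26_wN_1_rb8033094a_d43_d301bx1

theorem g_wQ_26_wN_1_rb8033094a_d43_d301ax4 : GoodKC AS c_wQ_26_wN_1_rb8033094a_d43_d301ax4 := p_wQ_26_wN_1_rb8033094a_d43_d301ax1

theorem g_wQ_26_wN_1_rb8033094a_d43_d3019x4 : GoodKC AS c_wQ_26_wN_1_rb8033094a_d43_d3019x4 := p_wQ_26_wN_1_rb8033094a_d43_d3019x1

theorem g_wQ_26_wN_1_rb8033094a_d43_d3018x4 : GoodKC AS c_wQ_26_wN_1_rb8033094a_d43_d3018x4 := p_wQ_26_wN_1_rb8033094a_d43_d3018x1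

theorem g_wQ_26_wN_1_rb8033094a_d43_d3015x4 : GoodKC AS c_wQ_26_wN_1_rb8033094a_d43_d3015x4 := p_wQ_26_wN_1_rb8033094a_d43_d3015x1

theorem g_wQ_26_wN_1_rb8033094a_d43_d3014x4 : GoodKC AS c_wQ_26_wN_1_rb8033094a_d43_d3014x4 := p_wQ_26_wN_1_rb8033094a_d43_d3014x1

theorem g_wQ_26_wN_1_rb8033094a_d43_d3010x4 : GoodKC AS c_wQ_26_wN_1_rb8033094a_d43_d3010x4 := p_wQ_26_wN_1_rb8033094a_d43_d3010x1

theorem g_wQ_26_wN_1_rb8033094a_d43_d300ex4 : GoodKC AS c_wQ_26_wN_1_rb8033094a_d43_d300ex4 := p_wQ_26_wN_1_rb8033094a_d43_d300ex1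

theorem g_wQ_26_wN_1_rb8033094a_d43_d300dx4 : GoodKC AS c_wQ_26_wN_1_rb8033094a_d43_d300dx4 := p_wQ_26_wN_1_rb8033094a_d43_d300dx1

theorem g_wQ_26_wN_1_rb8033094a_d43_d300cx4 : GoodKC AS c_wQ_26_wN_1_rb8033094a_d43_d300cx4 := p_wQ_26_wN_1_rb8033094a_d43_d300cx1

theorem g_wQ_26_wN_1_rb8033094a_d43_d3009x4 : GoodKC AS c_wQ_26_wN_1_rb8033094a_d43_d3009x4 := p_wQ_26_wN_1_rb8033094a_d43_d3009x1

theorem g_wQ_26_wN_1_rb8033094a_d43_d3007x4 : GoodKC AS c_wQ_26_wN_1_rb8033094a_d43_d3007x4 := p_wQ_26_wN_1_rb8033094a_d43_d3007x1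

theorem g_wQ_26_wN_1_rb8033094a_d43_d3006x4 : GoodKC AS c_wQ_26_wN_1_rb8033094a_d43_d3006x4 := p_wQ_26_wN_1_rb8033094a_d43_d3006x1

theorem g_wQ_26_wN_1_rb8033094a_d43_d3005x4 : GoodKC AS c_wQ_26_wN_1_rb8033094a_d43_d3005x4 := p_wQ_26_wN_1_rb8033094a_d43_d3005x1

theorem g_wQ_26_wN_1_rb8033094a_d43_d3004x4 : GoodKC AS c_wQ_26_wN_1_rb8033094a_d43_d3004x4 := p_wQ_26_wN_1_rb8033094a_d43_d3004x1

theorem g_wQ_26_wN_1_rb8033094a_d43_d3003x4 : GoodKC AS c_wQ_26_wN_1_rb8033094a_d43_d3003x4 := p_wQ_26_wN_1_rb8033094a_d43_d3003x1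

theorem g__wQ_26_wN_1_rb8033094a_d43_d30v4_5 : GoodKC AS k_wQ_26_wN_1_rb8033094a_d43_d30v4_5 := p_wQ_26_wN_1_rb8033094a_d43_d30v4_5

theorem g__wQ_26_wN_1_rb8033094a_d43_d30v4_4 : GoodKC AS k_wQ_26_wN_1_rb8033094a_d43_d30v4_4 := p_wQ_26_wN_1_rb8033094a_d43_d30v4_4 g__wQ_26_wN_1_rb8033094a_d43_d30v4_5

theorem g__wQ_26_wN_1_rb8033094a_d43_d30v4_3 : GoodKC AS k_wQ_26_wN_1_rb8033094a_d43_d30v4_3 := p_wQ_26_wN_1_rb8033094a_d43_d30v4_3 g__wQ_26_wN_1_rb8033094a_d43_d30v4_4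

theorem g__wQ_26_wN_1_rb8033094a_d43_d30v4_6 : GoodKC AS k_wQ_26_wN_1_rb8033094a_d43_d30v4_6 := p_wQ_26_wN_1_rb8033094a_d43_d30v4_6

theorem g__wQ_26_wN_1_rb8033094a_d43_d30v4_2 : GoodKC AS k_wQ_26_wN_1_rb8033094a_d43_d30v4_2 := p_wQ_26_wN_1_rb8033094a_d43_d30v4_2 g__wQ_26_wN_1_rb8033094a_d43_d30v4_3 g__wQ_26_wN_1_rb8033094a_d43_d30v4_6

theorem g__wQ_26_wN_1_rb8033094a_d43_d30v4_7 : GoodKC AS k_wQ_26_wN_1_rb8033094a_d43_d30v4_7 := p_wQ_26_wN_1_rb8033094a_d43_d30v4_7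

theorem g__wQ_26_wN_1_rb8033094a_d43_d30v4_1 : GoodKC AS k_wQ_26_wN_1_rb8033094a_d43_d30v4_1 := p_wQ_26_wN_1_rb8033094a_d43_d30v4_1 g__wQ_26_wN_1_rb8033094a_d43_d30v4_2 g__wQ_26_wN_1_rb8033094a_d43_d30v4_7

theorem g__wQ_26_wN_1_rb8033094a_d43_d30v4_0 : GoodKC AS k_wQ_26_wN_1_rb8033094a_d43_d30v4_0 := p_wQ_26_wN_1_rb8033094a_d43_d30v4_0 g__wQ_26_wN_1_rb8033094a_d43_d30v4_1

theorem g_wQ_26_wN_1_rb8033094a_d43_d3000x4 : GoodKC AS c_wQ_26_wN_1_rb8033094a_d43_d3000x4 := p_wQ_26_wN_1_rb8033094a_d43_d3000x1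

theorem g_wQ_26_wN_1_rb8033094a_d43_d3001x4 : GoodKC AS c_wQ_26_wN_1_rb8033094a_d43_d3001x4 := p_wQ_26_wN_1_rb8033094a_d43_d3001x1

theorem g_wQ_26_wN_1_rb8033094a_d43_d3002x4 : GoodKC AS c_wQ_26_wN_1_rb8033094a_d43_d3002x4 := p_wQ_26_wN_1_rb8033094a_d43_d3002x1

theorem g__wQ_26_wN_1_rb8033094a_d43_d3008x1_0 : GoodKC AS k_wQ_26_wN_1_rb8033094a_d43_d3008x1_0 := p_wQ_26_wN_1_rb8033094a_d43_d3008x1_0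

theorem g_wQ_26_wN_1_rb8033094a_d43_d3008x4 : GoodKC AS c_wQ_26_wN_1_rb8033094a_d43_d3008x4 := p_wQ_26_wN_1_rb8033094a_d43_d3008x1 g__wQ_26_wN_1_rb8033094a_d43_d3008x1_0

theorem g_wQ_26_wN_1_rb8033094a_d43_d300ax4 : GoodKC AS c_wQ_26_wN_1_rb8033094a_d43_d300ax4 := p_wQ_26_wN_1_rb8033094a_d43_d300ax1

theorem g__wQ_26_wN_1_rb8033094a_d43_d300bx1_1 : GoodKC AS k_wQ_26_wN_1_rb8033094a_d43_d300bx1_1 := p_wQ_26_wN_1_rb8033094a_d43_d300bx1_1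

theorem g__wQ_26_wN_1_rb8033094a_d43_d300bx1_0 : GoodKC AS k_wQ_26_wN_1_rb8033094a_d43_d300bx1_0 := p_wQ_26_wN_1_rb8033094a_d43_d300bx1_0 g__wQ_26_wN_1_rb8033094a_d43_d300bx1_1

theorem g_wQ_26_wN_1_rb8033094a_d43_d300bx4 : GoodKC AS c_wQ_26_wN_1_rb8033094a_d43_d300bx4 := p_wQ_26_wN_1_rb8033094a_d43_d300bx1 g__wQ_26_wN_1_rb8033094a_d43_d300bx1_0

theorem g_wQ_26_wN_1_rb8033094a_d43_d300fx4 : GoodKC AS c_wQ_26_wN_1_rb8033094a_d43_d300fx4 := p_wQ_26_wN_1_rb8033094a_d43_d300fx1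

theorem g_wQ_26_wN_1_rb8033094a_d43_d3011x4 : GoodKC AS c_wQ_26_wN_1_rb8033094a_d43_d3011x4 := p_wQ_26_wN_1_rb8033094a_d43_d3011x1

theorem g_wQ_26_wN_1_rb8033094a_d43_d3012x4 : GoodKC AS c_wQ_26_wN_1_rb8033094a_d43_d3012x4 := p_wQ_26_wN_1_rb8033094a_d43_d3012x1

theorem g_wQ_26_wN_1_rb8033094a_d43_d3013x4 : GoodKC AS c_wQ_26_wN_1_rb8033094a_d43_d3013x4 := p_wQ_26_wN_1_rb8033094a_d43_d3013x1

theorem g__wQ_26_wN_1_rb8033094a_d43_d3016x1_2 : GoodKC AS k_wQ_26_wN_1_rb8033094a_d43_d3016x1_2 := p_wQ_26_wN_1_rb8033094a_d43_d3016x1_2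

theorem g__wQ_26_wN_1_rb8033094a_d43_d3016x1_1 : GoodKC AS k_wQ_26_wN_1_rb8033094a_d43_d3016x1_1 := p_wQ_26_wN_1_rb8033094a_d43_d3016x1_1 g__wQ_26_wN_1_rb8033094a_d43_d3016x1_2

theorem g__wQ_26_wN_1_rb8033094a_d43_d3016x1_0 : GoodKC AS k_wQ_26_wN_1_rb8033094a_d43_d3016x1_0 := p_wQ_26_wN_1_rb8033094a_d43_d3016x1_0 g__wQ_26_wN_1_rb8033094a_d43_d3016x1_1

theorem g_wQ_26_wN_1_rb8033094a_d43_d3016x4 : GoodKC AS c_wQ_26_wN_1_rb8033094a_d43_d3016x4 := p_wQ_26_wN_1_rb8033094a_d43_d3016x1 g__wQ_26_wN_1_rb8033094a_d43_d3016x1_0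

theorem g_wQ_26_wN_1_rb8033094a_d43_d3017x4 : GoodKC AS c_wQ_26_wN_1_rb8033094a_d43_d3017x4 := p_wQ_26_wN_1_rb8033094a_d43_d3017x1

theorem g__wQ_26_wN_1_rb8033094a_d43_d301dx1_0 : GoodKC AS k_wQ_26_wN_1_rb8033094a_d43_d301dx1_0 := p_wQ_26_wN_1_rb8033094a_d43_d301dx1_0

theorem g_wQ_26_wN_1_rb8033094a_d43_d301dx4 : GoodKC AS c_wQ_26_wN_1_rb8033094a_d43_d301dx4 := p_wQ_26_wN_1_rb8033094a_d43_d301dx1 g__wQ_26_wN_1_rb8033094a_d43_d301dx1_0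

theorem g_wQ_26_wN_1_rb8033094a_d43_d30x2 : GoodKC AS c_wQ_26_wN_1_rb8033094a_d43_d30x2 := p_wQ_26_wN_1_rb8033094a_d43_d30x4 g_wQ_26_wN_1_rb8033094a_d43_d3023x4 g_wQ_26_wN_1_rb8033094a_d43_d3022x4 g_wQ_26_wN_1_rb8033094a_d43_d3021x4 g_wQ_26_wN_1_rb8033094a_d43_d3020x4 g_wQ_26_wN_1_rb8033094a_d43_d301fx4 g_wQ_26_wN_1_rb8033094a_d43_d301ex4 g_wQ_26_wN_1_rb8033094a_d43_d301cx4 g_wQ_26_wN_1_rb8033094a_d43_d301bx4 g_wQ_26_wN_1_rb8033094a_d43_d301ax4 g_wQ_26_wN_1_rb8033094a_d43_d3019x4 g_wQ_26_wN_1_rb8033094a_d43_d3018x4 g_wQ_26_wN_1_rb8033094a_d43_d3015x4 g_wQ_26_wN_1_rb8033094a_d43_d3014x4 g_wQ_26_wN_1_rb8033094a_d43_d3010x4 g_wQ_26_wN_1_rb8033094a_d43_d300ex4 g_wQ_26_wN_1_rb8033094a_d43_d300dx4 g_wQ_26_wN_1_rb8033094a_d43_d300cx4 g_wQ_26_wN_1_rb8033094a_d43_d3009x4 g_wQ_26_wN_1_rb8033094a_d43_d3007x4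 g_wQ_26_wN_1_rb8033094a_d43_d3006x4 g_wQ_26_wN_1_rb8033094a_d43_d3005x4 g_wQ_26_wN_1_rb8033094a_d43_d3004x4 g_wQ_26_wN_1_rb8033094a_d43_d3003x4 g__wQ_26_wN_1_rb8033094a_d43_d30v4_0 g_wQ_26_wN_1_rb8033094a_d43_d3000x4 g_wQ_26_wN_1_rb8033094a_d43_d3001x4 g_wQ_26_wN_1_rb8033094a_d43_d3002x4 g_wQ_26_wN_1_rb8033094a_d43_d3008x4 g_wQ_26_wN_1_rb8033094a_d43_d300ax4 g_wQ_26_wN_1_rb8033094a_d43_d300bx4 g_wQ_26_wN_1_rb8033094a_d43_d300fx4 g_wQ_26_wN_1_rb8033094a_d43_d3011x4 g_wQ_26_wN_1_rb8033094a_d43_d3012x4 g_wQ_26_wN_1_rb8033094a_d43_d3013x4 g_wQ_26_wN_1_rb8033094a_d43_d3016x4 g_wQ_26_wN_1_rb8033094a_d43_d3017x4 g_wQ_26_wN_1_rb8033094a_d43_d301dx4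

theorem g_wQ_26_wN_1_rb8033094a_d43_d31x2 : GoodKC AS c_wQ_26_wN_1_rb8033094a_d43_d31x2 := p_wQ_26_wN_1_rb8033094a_d43_d31x2

theorem g_wQ_26_wN_1_rb8033094a_d43_d32x2 : GoodKC AS c_wQ_26_wN_1_rb8033094a_d43_d32x2 := p_wQ_26_wN_1_rb8033094a_d43_d32x2

theorem g__wQ_26_wN_1_rb8033094a_d43_d34x2_1 : GoodKC AS k_wQ_26_wN_1_rb8033094a_d43_d34x2_1 := p_wQ_26_wN_1_rb8033094a_d43_d34x2_1

theorem g__wQ_26_wN_1_rb8033094a_d43_d34x2_0 : GoodKC AS k_wQ_26_wN_1_rb8033094a_d43_d34x2_0 := p_wQ_26_wN_1_rb8033094a_d43_d34x2_0 g__wQ_26_wN_1_rb8033094a_d43_d34x2_1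

theorem g_wQ_26_wN_1_rb8033094a_d43_d34x2 : GoodKC AS c_wQ_26_wN_1_rb8033094a_d43_d34x2 := p_wQ_26_wN_1_rb8033094a_d43_d34x2 g__wQ_26_wN_1_rb8033094a_d43_d34x2_0

theorem g__wQ_26_wN_1_rb8033094a_d43_d35x2_2 : GoodKC AS k_wQ_26_wN_1_rb8033094a_d43_d35x2_2 := p_wQ_26_wN_1_rb8033094a_d43_d35x2_2

theorem g__wQ_26_wN_1_rb8033094a_d43_d35x2_1 : GoodKC AS k_wQ_26_wN_1_rb8033094a_d43_d35x2_1 := p_wQ_26_wN_1_rb8033094a_d43_d35x2_1 g__wQ_26_wN_1_rb8033094a_d43_d35x2_2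

theorem g__wQ_26_wN_1_rb8033094a_d43_d35x2_0 : GoodKC AS k_wQ_26_wN_1_rb8033094a_d43_d35x2_0 := p_wQ_26_wN_1_rb8033094a_d43_d35x2_0 g__wQ_26_wN_1_rb8033094a_d43_d35x2_1

theorem g_wQ_26_wN_1_rb8033094a_d43_d35x2 : GoodKC AS c_wQ_26_wN_1_rb8033094a_d43_d35x2 := p_wQ_26_wN_1_rb8033094a_d43_d35x2 g__wQ_26_wN_1_rb8033094a_d43_d35x2_0

theorem g_wQ_26_wN_1_rb8033094a_d43_d36_d41_d1cx8 : GoodKC AS c_wQ_26_wN_1_rb8033094a_d43_d36_d41_d1cx8 := p_wQ_26_wN_1_rb8033094a_d43_d36_d41_d1cx2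

theorem g_wQ_26_wN_1_rb8033094a_d43_d36_d41_d1ax8 : GoodKC AS c_wQ_26_wN_1_rb8033094a_d43_d36_d41_d1ax8 := p_wQ_26_wN_1_rb8033094a_d43_d36_d41_d1ax1

theorem g_wQ_26_wN_1_rb8033094a_d43_d36_d41_d19x8 : GoodKC AS c_wQ_26_wN_1_rb8033094a_d43_d36_d41_d19x8 := p_wQ_26_wN_1_rb8033094a_d43_d36_d41_d19x3

theorem g__wQ_26_wN_1_rb8033094a_d43_d36_d41_d15x3_1 : GoodKC AS k_wQ_26_wN_1_rb8033094a_d43_d36_d41_d15x3_1 := p_wQ_26_wN_1_rb8033094a_d43_d36_d41_d15x3_1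

theorem g__wQ_26_wN_1_rb8033094a_d43_d36_d41_d15x3_0 : GoodKC AS k_wQ_26_wN_1_rb8033094a_d43_d36_d41_d15x3_0 := p_wQ_26_wN_1_rb8033094a_d43_d36_d41_d15x3_0 g__wQ_26_wN_1_rb8033094a_d43_d36_d41_d15x3_1

theorem g__wQ_26_wN_1_rb8033094a_d43_d36_d41_d15x3_2 : GoodKC AS k_wQ_26_wN_1_rb8033094a_d43_d36_d41_d15x3_2 := p_wQ_26_wN_1_rb8033094a_d43_d36_d41_d15x3_2

theorem g__wQ_26_wN_1_rb8033094a_d43_d36_d41_d15x3_3 : GoodKC AS k_wQ_26_wN_1_rb8033094a_d43_d36_d41_d15x3_3 := p_wQ_26_wN_1_rb8033094a_d43_d36_d41_d15x3_3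

theorem g__wQ_26_wN_1_rb8033094a_d43_d36_d41_d15x3_4 : GoodKC AS k_wQ_26_wN_1_rb8033094a_d43_d36_d41_d15x3_4 := p_wQ_26_wN_1_rb8033094a_d43_d36_d41_d15x3_4

theorem g_wQ_26_wN_1_rb8033094a_d43_d36_d41_d15x8 : GoodKC AS c_wQ_26_wN_1_rb8033094a_d43_d36_d41_d15x8 := p_wQ_26_wN_1_rb8033094a_d43_d36_d41_d15x3 g__wQ_26_wN_1_rb8033094a_d43_d36_d41_d15x3_0 g__wQ_26_wN_1_rb8033094a_d43_d36_d41_d15x3_2 g__wQ_26_wN_1_rb8033094a_d43_d36_d41_d15x3_3 g__wQ_26_wN_1_rb8033094a_d43_d36_d41_d15x3_4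

theorem g_wQ_26_wN_1_rb8033094a_d43_d36_d41_d13x8 : GoodKC AS c_wQ_26_wN_1_rb8033094a_d43_d36_d41_d13x8 := p_wQ_26_wN_1_rb8033094a_d43_d36_d41_d13x2

theorem g_wQ_26_wN_1_rb8033094a_d43_d36_d41_d0fx8 : GoodKC AS c_wQ_26_wN_1_rb8033094a_d43_d36_d41_d0fx8 := p_wQ_26_wN_1_rb8033094a_d43_d36_d41_d0fx1

theorem g_wQ_26_wN_1_rb8033094a_d43_d36_d41_d0cx8 : GoodKC AS c_wQ_26_wN_1_rb8033094a_d43_d36_d41_d0cx8 := p_wQ_26_wN_1_rb8033094a_d43_d36_d41_d0cx1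

theorem g_wQ_26_wN_1_rb8033094a_d43_d36_d41_d0bx8 : GoodKC AS c_wQ_26_wN_1_rb8033094a_d43_d36_d41_d0bx8 := p_wQ_26_wN_1_rb8033094a_d43_d36_d41_d0bx1

theorem g_wQ_26_wN_1_rb8033094a_d43_d36_d41_d09x8 : GoodKC AS c_wQ_26_wN_1_rb8033094a_d43_d36_d41_d09x8 := p_wQ_26_wN_1_rb8033094a_d43_d36_d41_d09x1

theorem g_wQ_26_wN_1_rb8033094a_d43_d36_d41_d08x8 : GoodKC AS c_wQ_26_wN_1_rb8033094a_d43_d36_d41_d08x8 := p_wQ_26_wN_1_rb8033094a_d43_d36_d41_d08x1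

theorem g_wQ_26_wN_1_rb8033094a_d43_d36_d41_d0ax8 : GoodKC AS c_wQ_26_wN_1_rb8033094a_d43_d36_d41_d0ax8 := p_wQ_26_wN_1_rb8033094a_d43_d36_d41_d0ax2

theorem g_wQ_26_wN_1_rb8033094a_d43_d36_d41_d0dx8 : GoodKC AS c_wQ_26_wN_1_rb8033094a_d43_d36_d41_d0dx8 := p_wQ_26_wN_1_rb8033094a_d43_d36_d41_d0dx1

theorem g_wQ_26_wN_1_rb8033094a_d43_d36_d41_d0ex8 : GoodKC AS c_wQ_26_wN_1_rb8033094a_d43_d36_d41_d0ex8 := p_wQ_26_wN_1_rb8033094a_d43_d36_d41_d0ex1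

theorem g_wQ_26_wN_1_rb8033094a_d43_d36_d41_d10x8 : GoodKC AS c_wQ_26_wN_1_rb8033094a_d43_d36_d41_d10x8 := p_wQ_26_wN_1_rb8033094a_d43_d36_d41_d10x2

theorem g_wQ_26_wN_1_rb8033094a_d43_d36_d41_d11x8 : GoodKC AS c_wQ_26_wN_1_rb8033094a_d43_d36_d41_d11x8 := p_wQ_26_wN_1_rb8033094a_d43_d36_d41_d11x2

theorem g_wQ_26_wN_1_rb8033094a_d43_d36_d41_d12x8 : GoodKC AS c_wQ_26_wN_1_rb8033094a_d43_d36_d41_d12x8 := p_wQ_26_wN_1_rb8033094a_d43_d36_d41_d12x1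

theorem g_wQ_26_wN_1_rb8033094a_d43_d36_d41_d14x8 : GoodKC AS c_wQ_26_wN_1_rb8033094a_d43_d36_d41_d14x8 := p_wQ_26_wN_1_rb8033094a_d43_d36_d41_d14x3

theorem g_wQ_26_wN_1_rb8033094a_d43_d36_d41_d071dx1 : GoodKC AS c_wQ_26_wN_1_rb8033094a_d43_d36_d41_d071dx1 := p_wQ_26_wN_1_rb8033094a_d43_d36_d41_d071dx1

theorem g_wQ_26_wN_1_rb8033094a_d43_d36_d41_d071bx1 : GoodKC AS c_wQ_26_wN_1_rb8033094a_d43_d36_d41_d071bx1 := p_wQ_26_wN_1_rb8033094a_d43_d36_d41_d071bx1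

theorem g__wQ_26_wN_1_rb8033094a_d43_d36_d41_d071ax1_0 : GoodKC AS k_wQ_26_wN_1_rb8033094a_d43_d36_d41_d071ax1_0 := p_wQ_26_wN_1_rb8033094a_d43_d36_d41_d071ax1_0

theorem g_wQ_26_wN_1_rb8033094a_d43_d36_d41_d071ax1 : GoodKC AS c_wQ_26_wN_1_rb8033094a_d43_d36_d41_d071ax1 := p_wQ_26_wN_1_rb8033094a_d43_d36_d41_d071ax1 g__wQ_26_wN_1_rb8033094a_d43_d36_d41_d071ax1_0

theorem g_wQ_26_wN_1_rb8033094a_d43_d36_d41_d0716x1 : GoodKC AS c_wQ_26_wN_1_rb8033094a_d43_d36_d41_d0716x1 := p_wQ_26_wN_1_rb8033094a_d43_d36_d41_d0716x1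

theorem g_wQ_26_wN_1_rb8033094a_d43_d36_d41_d0715x1 : GoodKC AS c_wQ_26_wN_1_rb8033094a_d43_d36_d41_d0715x1 := p_wQ_26_wN_1_rb8033094a_d43_d36_d41_d0715x1

theorem g__wQ_26_wN_1_rb8033094a_d43_d36_d41_d07x1_1 : GoodKC AS k_wQ_26_wN_1_rb8033094a_d43_d36_d41_d07x1_1 := p_wQ_26_wN_1_rb8033094a_d43_d36_d41_d07x1_1

theorem g__wQ_26_wN_1_rb8033094a_d43_d36_d41_d07x1_0 : GoodKC AS k_wQ_26_wN_1_rb8033094a_d43_d36_d41_d07x1_0 := p_wQ_26_wN_1_rb8033094a_d43_d36_d41_d07x1_0 g__wQ_26_wN_1_rb8033094a_d43_d36_d41_d07x1_1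

theorem g__wQ_26_wN_1_rb8033094a_d43_d36_d41_d07x1_10 : GoodKC AS k_wQ_26_wN_1_rb8033094a_d43_d36_d41_d07x1_10 := p_wQ_26_wN_1_rb8033094a_d43_d36_d41_d07x1_10

theorem g__wQ_26_wN_1_rb8033094a_d43_d36_d41_d07x1_9 : GoodKC AS k_wQ_26_wN_1_rb8033094a_d43_d36_d41_d07x1_9 := p_wQ_26_wN_1_rb8033094a_d43_d36_d41_d07x1_9 g__wQ_26_wN_1_rb8033094a_d43_d36_d41_d07x1_10

theorem g__wQ_26_wN_1_rb8033094a_d43_d36_d41_d07x1_8 : GoodKC AS k_wQ_26_wN_1_rb8033094a_d43_d36_d41_d07x1_8 := p_wQ_26_wN_1_rb8033094a_d43_d36_d41_d07x1_8 g__wQ_26_wN_1_rb8033094a_d43_d36_d41_d07x1_9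

theorem g__wQ_26_wN_1_rb8033094a_d43_d36_d41_d07x1_7 : GoodKC AS k_wQ_26_wN_1_rb8033094a_d43_d36_d41_d07x1_7 := p_wQ_26_wN_1_rb8033094a_d43_d36_d41_d07x1_7 g__wQ_26_wN_1_rb8033094a_d43_d36_d41_d07x1_8

theorem g__wQ_26_wN_1_rb8033094a_d43_d36_d41_d07x1_6 : GoodKC AS k_wQ_26_wN_1_rb8033094a_d43_d36_d41_d07x1_6 := p_wQ_26_wN_1_rb8033094a_d43_d36_d41_d07x1_6 g__wQ_26_wN_1_rb8033094a_d43_d36_d41_d07x1_7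

theorem g__wQ_26_wN_1_rb8033094a_d43_d36_d41_d07x1_14 : GoodKC AS k_wQ_26_wN_1_rb8033094a_d43_d36_d41_d07x1_14 := p_wQ_26_wN_1_rb8033094a_d43_d36_d41_d07x1_14

theorem g__wQ_26_wN_1_rb8033094a_d43_d36_d41_d07x1_15 : GoodKC AS k_wQ_26_wN_1_rb8033094a_d43_d36_d41_d07x1_15 := p_wQ_26_wN_1_rb8033094a_d43_d36_d41_d07x1_15

theorem g__wQ_26_wN_1_rb8033094a_d43_d36_d41_d07x1_13 : GoodKC AS k_wQ_26_wN_1_rb8033094a_d43_d36_d41_d07x1_13 := p_wQ_26_wN_1_rb8033094a_d43_d36_d41_d07x1_13 g__wQ_26_wN_1_rb8033094a_d43_d36_d41_d07x1_14 g__wQ_26_wN_1_rb8033094a_d43_d36_d41_d07x1_15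

theorem g__wQ_26_wN_1_rb8033094a_d43_d36_d41_d07x1_12 : GoodKC AS k_wQ_26_wN_1_rb8033094a_d43_d36_d41_d07x1_12 := p_wQ_26_wN_1_rb8033094a_d43_d36_d41_d07x1_12 g__wQ_26_wN_1_rb8033094a_d43_d36_d41_d07x1_13

theorem g__wQ_26_wN_1_rb8033094a_d43_d36_d41_d07x1_11 : GoodKC AS k_wQ_26_wN_1_rb8033094a_d43_d36_d41_d07x1_11 := p_wQ_26_wN_1_rb8033094a_d43_d36_d41_d07x1_11 g__wQ_26_wN_1_rb8033094a_d43_d36_d41_d07x1_12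

theorem g__wQ_26_wN_1_rb8033094a_d43_d36_d41_d07x1_5 : GoodKC AS k_wQ_26_wN_1_rb8033094a_d43_d36_d41_d07x1_5 := p_wQ_26_wN_1_rb8033094a_d43_d36_d41_d07x1_5 g__wQ_26_wN_1_rb8033094a_d43_d36_d41_d07x1_6 g__wQ_26_wN_1_rb8033094a_d43_d36_d41_d07x1_11

theorem g__wQ_26_wN_1_rb8033094a_d43_d36_d41_d07x1_16 : GoodKC AS k_wQ_26_wN_1_rb8033094a_d43_d36_d41_d07x1_16 := p_wQ_26_wN_1_rb8033094a_d43_d36_d41_d07x1_16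

theorem g__wQ_26_wN_1_rb8033094a_d43_d36_d41_d07x1_4 : GoodKC AS k_wQ_26_wN_1_rb8033094a_d43_d36_d41_d07x1_4 := p_wQ_26_wN_1_rb8033094a_d43_d36_d41_d07x1_4 g__wQ_26_wN_1_rb8033094a_d43_d36_d41_d07x1_5 g__wQ_26_wN_1_rb8033094a_d43_d36_d41_d07x1_16

theorem g__wQ_26_wN_1_rb8033094a_d43_d36_d41_d07x1_3 : GoodKC AS k_wQ_26_wN_1_rb8033094a_d43_d36_d41_d07x1_3 := p_wQ_26_wN_1_rb8033094a_d43_d36_d41_d07x1_3 g__wQ_26_wN_1_rb8033094a_d43_d36_d41_d07x1_4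

theorem g__wQ_26_wN_1_rb8033094a_d43_d36_d41_d07x1_2 : GoodKC AS k_wQ_26_wN_1_rb8033094a_d43_d36_d41_d07x1_2 := p_wQ_26_wN_1_rb8033094a_d43_d36_d41_d07x1_2 g__wQ_26_wN_1_rb8033094a_d43_d36_d41_d07x1_3

theorem g_wQ_26_wN_1_rb8033094a_d43_d36_d41_d0714x1 : GoodKC AS c_wQ_26_wN_1_rb8033094a_d43_d36_d41_d0714x1 := p_wQ_26_wN_1_rb8033094a_d43_d36_d41_d0714x1

theorem g_wQ_26_wN_1_rb8033094a_d43_d36_d41_d0713x1 : GoodKC AS c_wQ_26_wN_1_rb8033094a_d43_d36_d41_d0713x1 := p_wQ_26_wN_1_rb8033094a_d43_d36_d41_d0713x1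

theorem g_wQ_26_wN_1_rb8033094a_d43_d36_d41_d0712x1 : GoodKC AS c_wQ_26_wN_1_rb8033094a_d43_d36_d41_d0712x1 := p_wQ_26_wN_1_rb8033094a_d43_d36_d41_d0712x1

theorem g_wQ_26_wN_1_rb8033094a_d43_d36_d41_d0711x1 : GoodKC AS c_wQ_26_wN_1_rb8033094a_d43_d36_d41_d0711x1 := p_wQ_26_wN_1_rb8033094a_d43_d36_d41_d0711x1

theorem g_wQ_26_wN_1_rb8033094a_d43_d36_d41_d0710x1 : GoodKC AS c_wQ_26_wN_1_rb8033094a_d43_d36_d41_d0710x1 := p_wQ_26_wN_1_rb8033094a_d43_d36_d41_d0710x1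

theorem g_wQ_26_wN_1_rb8033094a_d43_d36_d41_d070ex1 : GoodKC AS c_wQ_26_wN_1_rb8033094a_d43_d36_d41_d070ex1 := p_wQ_26_wN_1_rb8033094a_d43_d36_d41_d070ex1

theorem g_wQ_26_wN_1_rb8033094a_d43_d36_d41_d070dx1 : GoodKC AS c_wQ_26_wN_1_rb8033094a_d43_d36_d41_d070dx1 := p_wQ_26_wN_1_rb8033094a_d43_d36_d41_d070dx1

theorem g_wQ_26_wN_1_rb8033094a_d43_d36_d41_d070cx1 : GoodKC AS c_wQ_26_wN_1_rb8033094a_d43_d36_d41_d070cx1 := p_wQ_26_wN_1_rb8033094a_d43_d36_d41_d070cx1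

theorem g_wQ_26_wN_1_rb8033094a_d43_d36_d41_d070ax1 : GoodKC AS c_wQ_26_wN_1_rb8033094a_d43_d36_d41_d070ax1 := p_wQ_26_wN_1_rb8033094a_d43_d36_d41_d070ax1

theorem g_wQ_26_wN_1_rb8033094a_d43_d36_d41_d0709x1 : GoodKC AS c_wQ_26_wN_1_rb8033094a_d43_d36_d41_d0709x1 := p_wQ_26_wN_1_rb8033094a_d43_d36_d41_d0709x1

theorem g_wQ_26_wN_1_rb8033094a_d43_d36_d41_d0708x1 : GoodKC AS c_wQ_26_wN_1_rb8033094a_d43_d36_d41_d0708x1 := p_wQ_26_wN_1_rb8033094a_d43_d36_d41_d0708x1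

theorem g_wQ_26_wN_1_rb8033094a_d43_d36_d41_d0707x1 : GoodKC AS c_wQ_26_wN_1_rb8033094a_d43_d36_d41_d0707x1 := p_wQ_26_wN_1_rb8033094a_d43_d36_d41_d0707x1

theorem g_wQ_26_wN_1_rb8033094a_d43_d36_d41_d0706x1 : GoodKC AS c_wQ_26_wN_1_rb8033094a_d43_d36_d41_d0706x1 := p_wQ_26_wN_1_rb8033094a_d43_d36_d41_d0706x1

theorem g_wQ_26_wN_1_rb8033094a_d43_d36_d41_d0705x1 : GoodKC AS c_wQ_26_wN_1_rb8033094a_d43_d36_d41_d0705x1 := p_wQ_26_wN_1_rb8033094a_d43_d36_d41_d0705x1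

theorem g_wQ_26_wN_1_rb8033094a_d43_d36_d41_d0703x1 : GoodKC AS c_wQ_26_wN_1_rb8033094a_d43_d36_d41_d0703x1 := p_wQ_26_wN_1_rb8033094a_d43_d36_d41_d0703x1

theorem g_wQ_26_wN_1_rb8033094a_d43_d36_d41_d0702x1 : GoodKC AS c_wQ_26_wN_1_rb8033094a_d43_d36_d41_d0702x1 := p_wQ_26_wN_1_rb8033094a_d43_d36_d41_d0702x1

theorem g_wQ_26_wN_1_rb8033094a_d43_d36_d41_d0701x1 : GoodKC AS c_wQ_26_wN_1_rb8033094a_d43_d36_d41_d0701x1 := p_wQ_26_wN_1_rb8033094a_d43_d36_d41_d0701x1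

theorem g_wQ_26_wN_1_rb8033094a_d43_d36_d41_d0700x1 : GoodKC AS c_wQ_26_wN_1_rb8033094a_d43_d36_d41_d0700x1 := p_wQ_26_wN_1_rb8033094a_d43_d36_d41_d0700x1

theorem g_wQ_26_wN_1_rb8033094a_d43_d36_d41_d0704x1 : GoodKC AS c_wQ_26_wN_1_rb8033094a_d43_d36_d41_d0704x1 := p_wQ_26_wN_1_rb8033094a_d43_d36_d41_d0704x1

theorem g_wQ_26_wN_1_rb8033094a_d43_d36_d41_d070bx1 : GoodKC AS c_wQ_26_wN_1_rb8033094a_d43_d36_d41_d070bx1 := p_wQ_26_wN_1_rb8033094a_d43_d36_d41_d070bx1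

theorem g_wQ_26_wN_1_rb8033094a_d43_d36_d41_d070fx1 : GoodKC AS c_wQ_26_wN_1_rb8033094a_d43_d36_d41_d070fx1 := p_wQ_26_wN_1_rb8033094a_d43_d36_d41_d070fx1

theorem g_wQ_26_wN_1_rb8033094a_d43_d36_d41_d0717x1 : GoodKC AS c_wQ_26_wN_1_rb8033094a_d43_d36_d41_d0717x1 := p_wQ_26_wN_1_rb8033094a_d43_d36_d41_d0717x1

theorem g_wQ_26_wN_1_rb8033094a_d43_d36_d41_d0718x1 : GoodKC AS c_wQ_26_wN_1_rb8033094a_d43_d36_d41_d0718x1 := p_wQ_26_wN_1_rb8033094a_d43_d36_d41_d0718x1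

theorem g_wQ_26_wN_1_rb8033094a_d43_d36_d41_d0719x1 : GoodKC AS c_wQ_26_wN_1_rb8033094a_d43_d36_d41_d0719x1 := p_wQ_26_wN_1_rb8033094a_d43_d36_d41_d0719x1

theorem g_wQ_26_wN_1_rb8033094a_d43_d36_d41_d071cx1 : GoodKC AS c_wQ_26_wN_1_rb8033094a_d43_d36_d41_d071cx1 := p_wQ_26_wN_1_rb8033094a_d43_d36_d41_d071cx1

theorem g_wQ_26_wN_1_rb8033094a_d43_d36_d41_d07x8 : GoodKC AS c_wQ_26_wN_1_rb8033094a_d43_d36_d41_d07x8 := p_wQ_26_wN_1_rb8033094a_d43_d36_d41_d07x1 g_wQ_26_wN_1_rb8033094a_d43_d36_d41_d071dx1 g_wQ_26_wN_1_rb8033094a_d43_d36_d41_d071bx1 g_wQ_26_wN_1_rb8033094a_d43_d36_d41_d071ax1 g_wQ_26_wN_1_rb8033094a_d43_d36_d41_d0716x1 g_wQ_26_wN_1_rb8033094a_d43_d36_d41_d0715x1 g__wQ_26_wN_1_rb8033094a_d43_d36_d41_d07x1_0 g__wQ_26_wN_1_rb8033094a_d43_d36_d41_d07x1_2 g_wQ_26_wN_1_rb8033094a_d43_d36_d41_d0714x1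 g_wQ_26_wN_1_rb8033094a_d43_d36_d41_d0713x1 g_wQ_26_wN_1_rb8033094a_d43_d36_d41_d0712x1 g_wQ_26_wN_1_rb8033094a_d43_d36_d41_d0711x1 g_wQ_26_wN_1_rb8033094a_d43_d36_d41_d0710x1 g_wQ_26_wN_1_rb8033094a_d43_d36_d41_d070ex1 g_wQ_26_wN_1_rb8033094a_d43_d36_d41_d070dx1 g_wQ_26_wN_1_rb8033094a_d43_d36_d41_d070cx1 g_wQ_26_wN_1_rb8033094a_d43_d36_d41_d070ax1 g_wQ_26_wN_1_rb8033094a_d43_d36_d41_d0709x1 g_wQ_26_wN_1_rb8033094a_d43_d36_d41_d0708x1 g_wQ_26_wN_1_rb8033094a_d43_d36_d41_d0707x1 g_wQ_26_wN_1_rb8033094a_d43_d36_d41_d0706x1 g_wQ_26_wN_1_rb8033094a_d43_d36_d41_d0705x1 g_wQ_26_wN_1_rb8033094a_d43_d36_d41_d0703x1 g_wQ_26_wN_1_rb8033094a_d43_d36_d41_d0702x1 g_wQ_26_wN_1_rb8033094a_d43_d36_d41_d0701x1 g_wQ_26_wN_1_rb8033094a_d43_d36_d41_d0700x1 g_wQ_26_wN_1_rb8033094a_d43_d36_d41_d0704x1 g_wQ_26_wN_1_rb8033094a_d43_d36_d41_d070bx1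 g_wQ_26_wN_1_rb8033094a_d43_d36_d41_d070fx1 g_wQ_26_wN_1_rb8033094a_d43_d36_d41_d0717x1 g_wQ_26_wN_1_rb8033094a_d43_d36_d41_d0718x1 g_wQ_26_wN_1_rb8033094a_d43_d36_d41_d0719x1 g_wQ_26_wN_1_rb8033094a_d43_d36_d41_d071cx1

theorem g__wQ_26_wN_1_rb8033094a_d43_d36_d41_d0507x1_1 : GoodKC AS k_wQ_26_wN_1_rb8033094a_d43_d36_d41_d0507x1_1 := p_wQ_26_wN_1_rb8033094a_d43_d36_d41_d0507x1_1

theorem g__wQ_26_wN_1_rb8033094a_d43_d36_d41_d0507x1_4 : GoodKC AS k_wQ_26_wN_1_rb8033094a_d43_d36_d41_d0507x1_4 := p_wQ_26_wN_1_rb8033094a_d43_d36_d41_d0507x1_4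

theorem g__wQ_26_wN_1_rb8033094a_d43_d36_d41_d0507x1_7 : GoodKC AS k_wQ_26_wN_1_rb8033094a_d43_d36_d41_d0507x1_7 := p_wQ_26_wN_1_rb8033094a_d43_d36_d41_d0507x1_7

theorem g__wQ_26_wN_1_rb8033094a_d43_d36_d41_d0507x1_6 : GoodKC AS k_wQ_26_wN_1_rb8033094a_d43_d36_d41_d0507x1_6 := p_wQ_26_wN_1_rb8033094a_d43_d36_d41_d0507x1_6 g__wQ_26_wN_1_rb8033094a_d43_d36_d41_d0507x1_7

theorem g__wQ_26_wN_1_rb8033094a_d43_d36_d41_d0507x1_5 : GoodKC AS k_wQ_26_wN_1_rb8033094a_d43_d36_d41_d0507x1_5 := p_wQ_26_wN_1_rb8033094a_d43_d36_d41_d0507x1_5 g__wQ_26_wN_1_rb8033094a_d43_d36_d41_d0507x1_6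

theorem g__wQ_26_wN_1_rb8033094a_d43_d36_d41_d0507x1_3 : GoodKC AS k_wQ_26_wN_1_rb8033094a_d43_d36_d41_d0507x1_3 := p_wQ_26_wN_1_rb8033094a_d43_d36_d41_d0507x1_3 g__wQ_26_wN_1_rb8033094a_d43_d36_d41_d0507x1_4 g__wQ_26_wN_1_rb8033094a_d43_d36_d41_d0507x1_5

theorem g__wQ_26_wN_1_rb8033094a_d43_d36_d41_d0507x1_2 : GoodKC AS k_wQ_26_wN_1_rb8033094a_d43_d36_d41_d0507x1_2 := p_wQ_26_wN_1_rb8033094a_d43_d36_d41_d0507x1_2 g__wQ_26_wN_1_rb8033094a_d43_d36_d41_d0507x1_3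

theorem g__wQ_26_wN_1_rb8033094a_d43_d36_d41_d0507x1_8 : GoodKC AS k_wQ_26_wN_1_rb8033094a_d43_d36_d41_d0507x1_8 := p_wQ_26_wN_1_rb8033094a_d43_d36_d41_d0507x1_8

theorem g__wQ_26_wN_1_rb8033094a_d43_d36_d41_d0507x1_0 : GoodKC AS k_wQ_26_wN_1_rb8033094a_d43_d36_d41_d0507x1_0 := p_wQ_26_wN_1_rb8033094a_d43_d36_d41_d0507x1_0 g__wQ_26_wN_1_rb8033094a_d43_d36_d41_d0507x1_1 g__wQ_26_wN_1_rb8033094a_d43_d36_d41_d0507x1_2 g__wQ_26_wN_1_rb8033094a_d43_d36_d41_d0507x1_8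

theorem g_wQ_26_wN_1_rb8033094a_d43_d36_d41_d0507x1 : GoodKC AS c_wQ_26_wN_1_rb8033094a_d43_d36_d41_d0507x1 := p_wQ_26_wN_1_rb8033094a_d43_d36_d41_d0507x1 g__wQ_26_wN_1_rb8033094a_d43_d36_d41_d0507x1_0

theorem g_wQ_26_wN_1_rb8033094a_d43_d36_d41_d0506x1 : GoodKC AS c_wQ_26_wN_1_rb8033094a_d43_d36_d41_d0506x1 := p_wQ_26_wN_1_rb8033094a_d43_d36_d41_d0506x1

theorem g__wQ_26_wN_1_rb8033094a_d43_d36_d41_d0505x1_2 : GoodKC AS k_wQ_26_wN_1_rb8033094a_d43_d36_d41_d0505x1_2 := p_wQ_26_wN_1_rb8033094a_d43_d36_d41_d0505x1_2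

theorem g__wQ_26_wN_1_rb8033094a_d43_d36_d41_d0505x1_1 : GoodKC AS k_wQ_26_wN_1_rb8033094a_d43_d36_d41_d0505x1_1 := p_wQ_26_wN_1_rb8033094a_d43_d36_d41_d0505x1_1 g__wQ_26_wN_1_rb8033094a_d43_d36_d41_d0505x1_2

theorem g__wQ_26_wN_1_rb8033094a_d43_d36_d41_d0505x1_0 : GoodKC AS k_wQ_26_wN_1_rb8033094a_d43_d36_d41_d0505x1_0 := p_wQ_26_wN_1_rb8033094a_d43_d36_d41_d0505x1_0 g__wQ_26_wN_1_rb8033094a_d43_d36_d41_d0505x1_1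

theorem g__wQ_26_wN_1_rb8033094a_d43_d36_d41_d0505x1_3 : GoodKC AS k_wQ_26_wN_1_rb8033094a_d43_d36_d41_d0505x1_3 := p_wQ_26_wN_1_rb8033094a_d43_d36_d41_d0505x1_3

theorem g_wQ_26_wN_1_rb8033094a_d43_d36_d41_d0505x1 : GoodKC AS c_wQ_26_wN_1_rb8033094a_d43_d36_d41_d0505x1 := p_wQ_26_wN_1_rb8033094a_d43_d36_d41_d0505x1 g__wQ_26_wN_1_rb8033094a_d43_d36_d41_d0505x1_0 g__wQ_26_wN_1_rb8033094a_d43_d36_d41_d0505x1_3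

theorem g__wQ_26_wN_1_rb8033094a_d43_d36_d41_d0504x1_2 : GoodKC AS k_wQ_26_wN_1_rb8033094a_d43_d36_d41_d0504x1_2 := p_wQ_26_wN_1_rb8033094a_d43_d36_d41_d0504x1_2

theorem g__wQ_26_wN_1_rb8033094a_d43_d36_d41_d0504x1_3 : GoodKC AS k_wQ_26_wN_1_rb8033094a_d43_d36_d41_d0504x1_3 := p_wQ_26_wN_1_rb8033094a_d43_d36_d41_d0504x1_3

theorem g__wQ_26_wN_1_rb8033094a_d43_d36_d41_d0504x1_1 : GoodKC AS k_wQ_26_wN_1_rb8033094a_d43_d36_d41_d0504x1_1 := p_wQ_26_wN_1_rb8033094a_d43_d36_d41_d0504x1_1 g__wQ_26_wN_1_rb8033094a_d43_d36_d41_d0504x1_2 g__wQ_26_wN_1_rb8033094a_d43_d36_d41_d0504x1_3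

theorem g__wQ_26_wN_1_rb8033094a_d43_d36_d41_d0504x1_0 : GoodKC AS k_wQ_26_wN_1_rb8033094a_d43_d36_d41_d0504x1_0 := p_wQ_26_wN_1_rb8033094a_d43_d36_d41_d0504x1_0 g__wQ_26_wN_1_rb8033094a_d43_d36_d41_d0504x1_1

theorem g_wQ_26_wN_1_rb8033094a_d43_d36_d41_d0504x1 : GoodKC AS c_wQ_26_wN_1_rb8033094a_d43_d36_d41_d0504x1 := p_wQ_26_wN_1_rb8033094a_d43_d36_d41_d0504x1 g__wQ_26_wN_1_rb8033094a_d43_d36_d41_d0504x1_0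

theorem g__wQ_26_wN_1_rb8033094a_d43_d36_d41_d05x1_4 : GoodKC AS k_wQ_26_wN_1_rb8033094a_d43_d36_d41_d05x1_4 := p_wQ_26_wN_1_rb8033094a_d43_d36_d41_d05x1_4

theorem g__wQ_26_wN_1_rb8033094a_d43_d36_d41_d05x1_3 : GoodKC AS k_wQ_26_wN_1_rb8033094a_d43_d36_d41_d05x1_3 := p_wQ_26_wN_1_rb8033094a_d43_d36_d41_d05x1_3 g__wQ_26_wN_1_rb8033094a_d43_d36_d41_d05x1_4

theorem g__wQ_26_wN_1_rb8033094a_d43_d36_d41_d05x1_2 : GoodKC AS k_wQ_26_wN_1_rb8033094a_d43_d36_d41_d05x1_2 := p_wQ_26_wN_1_rb8033094a_d43_d36_d41_d05x1_2 g__wQ_26_wN_1_rb8033094a_d43_d36_d41_d05x1_3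

theorem g__wQ_26_wN_1_rb8033094a_d43_d36_d41_d05x1_5 : GoodKC AS k_wQ_26_wN_1_rb8033094a_d43_d36_d41_d05x1_5 := p_wQ_26_wN_1_rb8033094a_d43_d36_d41_d05x1_5

theorem g__wQ_26_wN_1_rb8033094a_d43_d36_d41_d05x1_7 : GoodKC AS k_wQ_26_wN_1_rb8033094a_d43_d36_d41_d05x1_7 := p_wQ_26_wN_1_rb8033094a_d43_d36_d41_d05x1_7

theorem g__wQ_26_wN_1_rb8033094a_d43_d36_d41_d05x1_6 : GoodKC AS k_wQ_26_wN_1_rb8033094a_d43_d36_d41_d05x1_6 := p_wQ_26_wN_1_rb8033094a_d43_d36_d41_d05x1_6 g__wQ_26_wN_1_rb8033094a_d43_d36_d41_d05x1_7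

theorem g__wQ_26_wN_1_rb8033094a_d43_d36_d41_d05x1_1 : GoodKC AS k_wQ_26_wN_1_rb8033094a_d43_d36_d41_d05x1_1 := p_wQ_26_wN_1_rb8033094a_d43_d36_d41_d05x1_1 g__wQ_26_wN_1_rb8033094a_d43_d36_d41_d05x1_2 g__wQ_26_wN_1_rb8033094a_d43_d36_d41_d05x1_5 g__wQ_26_wN_1_rb8033094a_d43_d36_d41_d05x1_6

theorem g__wQ_26_wN_1_rb8033094a_d43_d36_d41_d05x1_10 : GoodKC AS k_wQ_26_wN_1_rb8033094a_d43_d36_d41_d05x1_10 := p_wQ_26_wN_1_rb8033094a_d43_d36_d41_d05x1_10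

theorem g__wQ_26_wN_1_rb8033094a_d43_d36_d41_d05x1_9 : GoodKC AS k_wQ_26_wN_1_rb8033094a_d43_d36_d41_d05x1_9 := p_wQ_26_wN_1_rb8033094a_d43_d36_d41_d05x1_9 g__wQ_26_wN_1_rb8033094a_d43_d36_d41_d05x1_10

theorem g__wQ_26_wN_1_rb8033094a_d43_d36_d41_d05x1_8 : GoodKC AS k_wQ_26_wN_1_rb8033094a_d43_d36_d41_d05x1_8 := p_wQ_26_wN_1_rb8033094a_d43_d36_d41_d05x1_8 g__wQ_26_wN_1_rb8033094a_d43_d36_d41_d05x1_9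

theorem g__wQ_26_wN_1_rb8033094a_d43_d36_d41_d05x1_11 : GoodKC AS k_wQ_26_wN_1_rb8033094a_d43_d36_d41_d05x1_11 := p_wQ_26_wN_1_rb8033094a_d43_d36_d41_d05x1_11

theorem g__wQ_26_wN_1_rb8033094a_d43_d36_d41_d05x1_0 : GoodKC AS k_wQ_26_wN_1_rb8033094a_d43_d36_d41_d05x1_0 := p_wQ_26_wN_1_rb8033094a_d43_d36_d41_d05x1_0 g__wQ_26_wN_1_rb8033094a_d43_d36_d41_d05x1_1 g__wQ_26_wN_1_rb8033094a_d43_d36_d41_d05x1_8 g__wQ_26_wN_1_rb8033094a_d43_d36_d41_d05x1_11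

theorem g__wQ_26_wN_1_rb8033094a_d43_d36_d41_d05x1_15 : GoodKC AS k_wQ_26_wN_1_rb8033094a_d43_d36_d41_d05x1_15 := p_wQ_26_wN_1_rb8033094a_d43_d36_d41_d05x1_15

theorem g__wQ_26_wN_1_rb8033094a_d43_d36_d41_d05x1_14 : GoodKC AS k_wQ_26_wN_1_rb8033094a_d43_d36_d41_d05x1_14 := p_wQ_26_wN_1_rb8033094a_d43_d36_d41_d05x1_14 g__wQ_26_wN_1_rb8033094a_d43_d36_d41_d05x1_15

theorem g__wQ_26_wN_1_rb8033094a_d43_d36_d41_d05x1_13 : GoodKC AS k_wQ_26_wN_1_rb8033094a_d43_d36_d41_d05x1_13 := p_wQ_26_wN_1_rb8033094a_d43_d36_d41_d05x1_13 g__wQ_26_wN_1_rb8033094a_d43_d36_d41_d05x1_14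

theorem g__wQ_26_wN_1_rb8033094a_d43_d36_d41_d05x1_24 : GoodKC AS k_wQ_26_wN_1_rb8033094a_d43_d36_d41_d05x1_24 := p_wQ_26_wN_1_rb8033094a_d43_d36_d41_d05x1_24

theorem g__wQ_26_wN_1_rb8033094a_d43_d36_d41_d05x1_23 : GoodKC AS k_wQ_26_wN_1_rb8033094a_d43_d36_d41_d05x1_23 := p_wQ_26_wN_1_rb8033094a_d43_d36_d41_d05x1_23 g__wQ_26_wN_1_rb8033094a_d43_d36_d41_d05x1_24

theorem g__wQ_26_wN_1_rb8033094a_d43_d36_d41_d05x1_22 : GoodKC AS k_wQ_26_wN_1_rb8033094a_d43_d36_d41_d05x1_22 := p_wQ_26_wN_1_rb8033094a_d43_d36_d41_d05x1_22 g__wQ_26_wN_1_rb8033094a_d43_d36_d41_d05x1_23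

theorem g__wQ_26_wN_1_rb8033094a_d43_d36_d41_d05x1_21 : GoodKC AS k_wQ_26_wN_1_rb8033094a_d43_d36_d41_d05x1_21 := p_wQ_26_wN_1_rb8033094a_d43_d36_d41_d05x1_21 g__wQ_26_wN_1_rb8033094a_d43_d36_d41_d05x1_22

theorem g__wQ_26_wN_1_rb8033094a_d43_d36_d41_d05x1_20 : GoodKC AS k_wQ_26_wN_1_rb8033094a_d43_d36_d41_d05x1_20 := p_wQ_26_wN_1_rb8033094a_d43_d36_d41_d05x1_20 g__wQ_26_wN_1_rb8033094a_d43_d36_d41_d05x1_21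

theorem g__wQ_26_wN_1_rb8033094a_d43_d36_d41_d05x1_19 : GoodKC AS k_wQ_26_wN_1_rb8033094a_d43_d36_d41_d05x1_19 := p_wQ_26_wN_1_rb8033094a_d43_d36_d41_d05x1_19 g__wQ_26_wN_1_rb8033094a_d43_d36_d41_d05x1_20

theorem g__wQ_26_wN_1_rb8033094a_d43_d36_d41_d05x1_18 : GoodKC AS k_wQ_26_wN_1_rb8033094a_d43_d36_d41_d05x1_18 := p_wQ_26_wN_1_rb8033094a_d43_d36_d41_d05x1_18 g__wQ_26_wN_1_rb8033094a_d43_d36_d41_d05x1_19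

theorem g__wQ_26_wN_1_rb8033094a_d43_d36_d41_d05x1_17 : GoodKC AS k_wQ_26_wN_1_rb8033094a_d43_d36_d41_d05x1_17 := p_wQ_26_wN_1_rb8033094a_d43_d36_d41_d05x1_17 g__wQ_26_wN_1_rb8033094a_d43_d36_d41_d05x1_18

theorem g__wQ_26_wN_1_rb8033094a_d43_d36_d41_d05x1_16 : GoodKC AS k_wQ_26_wN_1_rb8033094a_d43_d36_d41_d05x1_16 := p_wQ_26_wN_1_rb8033094a_d43_d36_d41_d05x1_16 g__wQ_26_wN_1_rb8033094a_d43_d36_d41_d05x1_17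

theorem g__wQ_26_wN_1_rb8033094a_d43_d36_d41_d05x1_12 : GoodKC AS k_wQ_26_wN_1_rb8033094a_d43_d36_d41_d05x1_12 := p_wQ_26_wN_1_rb8033094a_d43_d36_d41_d05x1_12 g__wQ_26_wN_1_rb8033094a_d43_d36_d41_d05x1_13 g__wQ_26_wN_1_rb8033094a_d43_d36_d41_d05x1_16

theorem g_wQ_26_wN_1_rb8033094a_d43_d36_d41_d0501x1 : GoodKC AS c_wQ_26_wN_1_rb8033094a_d43_d36_d41_d0501x1 := p_wQ_26_wN_1_rb8033094a_d43_d36_d41_d0501x1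

theorem g__wQ_26_wN_1_rb8033094a_d43_d36_d41_d0500v1_1 : GoodKC AS k_wQ_26_wN_1_rb8033094a_d43_d36_d41_d0500v1_1 := p_wQ_26_wN_1_rb8033094a_d43_d36_d41_d0500v1_1

theorem g__wQ_26_wN_1_rb8033094a_d43_d36_d41_d0500v1_0 : GoodKC AS k_wQ_26_wN_1_rb8033094a_d43_d36_d41_d0500v1_0 := p_wQ_26_wN_1_rb8033094a_d43_d36_d41_d0500v1_0 g__wQ_26_wN_1_rb8033094a_d43_d36_d41_d0500v1_1

theorem g_wQ_26_wN_1_rb8033094a_d43_d36_d41_d0500x1 : GoodKC AS c_wQ_26_wN_1_rb8033094a_d43_d36_d41_d0500x1 := p_wQ_26_wN_1_rb8033094a_d43_d36_d41_d0500x1 g__wQ_26_wN_1_rb8033094a_d43_d36_d41_d0500v1_0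

theorem g__wQ_26_wN_1_rb8033094a_d43_d36_d41_d0502x1_1 : GoodKC AS k_wQ_26_wN_1_rb8033094a_d43_d36_d41_d0502x1_1 := p_wQ_26_wN_1_rb8033094a_d43_d36_d41_d0502x1_1

theorem g__wQ_26_wN_1_rb8033094a_d43_d36_d41_d0502x1_2 : GoodKC AS k_wQ_26_wN_1_rb8033094a_d43_d36_d41_d0502x1_2 := p_wQ_26_wN_1_rb8033094a_d43_d36_d41_d0502x1_2

theorem g__wQ_26_wN_1_rb8033094a_d43_d36_d41_d0502x1_6 : GoodKC AS k_wQ_26_wN_1_rb8033094a_d43_d36_d41_d0502x1_6 := p_wQ_26_wN_1_rb8033094a_d43_d36_d41_d0502x1_6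

theorem g__wQ_26_wN_1_rb8033094a_d43_d36_d41_d0502x1_5 : GoodKC AS k_wQ_26_wN_1_rb8033094a_d43_d36_d41_d0502x1_5 := p_wQ_26_wN_1_rb8033094a_d43_d36_d41_d0502x1_5 g__wQ_26_wN_1_rb8033094a_d43_d36_d41_d0502x1_6

theorem g__wQ_26_wN_1_rb8033094a_d43_d36_d41_d0502x1_8 : GoodKC AS k_wQ_26_wN_1_rb8033094a_d43_d36_d41_d0502x1_8 := p_wQ_26_wN_1_rb8033094a_d43_d36_d41_d0502x1_8

theorem g__wQ_26_wN_1_rb8033094a_d43_d36_d41_d0502x1_7 : GoodKC AS k_wQ_26_wN_1_rb8033094a_d43_d36_d41_d0502x1_7 := p_wQ_26_wN_1_rb8033094a_d43_d36_d41_d0502x1_7 g__wQ_26_wN_1_rb8033094a_d43_d36_d41_d0502x1_8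

theorem g__wQ_26_wN_1_rb8033094a_d43_d36_d41_d0502x1_4 : GoodKC AS k_wQ_26_wN_1_rb8033094a_d43_d36_d41_d0502x1_4 := p_wQ_26_wN_1_rb8033094a_d43_d36_d41_d0502x1_4 g__wQ_26_wN_1_rb8033094a_d43_d36_d41_d0502x1_5 g__wQ_26_wN_1_rb8033094a_d43_d36_d41_d0502x1_7

theorem g__wQ_26_wN_1_rb8033094a_d43_d36_d41_d0502x1_3 : GoodKC AS k_wQ_26_wN_1_rb8033094a_d43_d36_d41_d0502x1_3 := p_wQ_26_wN_1_rb8033094a_d43_d36_d41_d0502x1_3 g__wQ_26_wN_1_rb8033094a_d43_d36_d41_d0502x1_4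

theorem g__wQ_26_wN_1_rb8033094a_d43_d36_d41_d0502x1_0 : GoodKC AS k_wQ_26_wN_1_rb8033094a_d43_d36_d41_d0502x1_0 := p_wQ_26_wN_1_rb8033094a_d43_d36_d41_d0502x1_0 g__wQ_26_wN_1_rb8033094a_d43_d36_d41_d0502x1_1 g__wQ_26_wN_1_rb8033094a_d43_d36_d41_d0502x1_2 g__wQ_26_wN_1_rb8033094a_d43_d36_d41_d0502x1_3

theorem g_wQ_26_wN_1_rb8033094a_d43_d36_d41_d0502x1 : GoodKC AS c_wQ_26_wN_1_rb8033094a_d43_d36_d41_d0502x1 := p_wQ_26_wN_1_rb8033094a_d43_d36_d41_d0502x1 g__wQ_26_wN_1_rb8033094a_d43_d36_d41_d0502x1_0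

theorem g_wQ_26_wN_1_rb8033094a_d43_d36_d41_d0503x1 : GoodKC AS c_wQ_26_wN_1_rb8033094a_d43_d36_d41_d0503x1 := p_wQ_26_wN_1_rb8033094a_d43_d36_d41_d0503x1

theorem g_wQ_26_wN_1_rb8033094a_d43_d36_d41_d0508x1 : GoodKC AS c_wQ_26_wN_1_rb8033094a_d43_d36_d41_d0508x1 := p_wQ_26_wN_1_rb8033094a_d43_d36_d41_d0508x1

theorem g_wQ_26_wN_1_rb8033094a_d43_d36_d41_d0509x1 : GoodKC AS c_wQ_26_wN_1_rb8033094a_d43_d36_d41_d0509x1 := p_wQ_26_wN_1_rb8033094a_d43_d36_d41_d0509x1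

theorem g_wQ_26_wN_1_rb8033094a_d43_d36_d41_d050ax1 : GoodKC AS c_wQ_26_wN_1_rb8033094a_d43_d36_d41_d050ax1 := p_wQ_26_wN_1_rb8033094a_d43_d36_d41_d050ax1

theorem g_wQ_26_wN_1_rb8033094a_d43_d36_d41_d05x8 : GoodKC AS c_wQ_26_wN_1_rb8033094a_d43_d36_d41_d05x8 := p_wQ_26_wN_1_rb8033094a_d43_d36_d41_d05x1 g_wQ_26_wN_1_rb8033094a_d43_d36_d41_d0507x1 g_wQ_26_wN_1_rb8033094a_d43_d36_d41_d0506x1 g_wQ_26_wN_1_rb8033094a_d43_d36_d41_d0505x1 g_wQ_26_wN_1_rb8033094a_d43_d36_d41_d0504x1 g__wQ_26_wN_1_rb8033094a_d43_d36_d41_d05x1_0 g__wQ_26_wN_1_rb8033094a_d43_d36_d41_d05x1_12 g_wQ_26_wN_1_rb8033094a_d43_d36_d41_d0501x1 g_wQ_26_wN_1_rb8033094a_d43_d36_d41_d0500x1 g_wQ_26_wN_1_rb8033094a_d43_d36_d41_d0502x1 g_wQ_26_wN_1_rb8033094a_d43_d36_d41_d0503x1 g_wQ_26_wN_1_rb8033094a_d43_d36_d41_d0508x1 g_wQ_26_wN_1_rb8033094a_d43_d36_d41_d0509x1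 g_wQ_26_wN_1_rb8033094a_d43_d36_d41_d050ax1

theorem g__wQ_26_wN_1_rb8033094a_d43_d36_d41_d03x3_3 : GoodKC AS k_wQ_26_wN_1_rb8033094a_d43_d36_d41_d03x3_3 := p_wQ_26_wN_1_rb8033094a_d43_d36_d41_d03x3_3

theorem g__wQ_26_wN_1_rb8033094a_d43_d36_d41_d03x3_5 : GoodKC AS k_wQ_26_wN_1_rb8033094a_d43_d36_d41_d03x3_5 := p_wQ_26_wN_1_rb8033094a_d43_d36_d41_d03x3_5

theorem g__wQ_26_wN_1_rb8033094a_d43_d36_d41_d03x3_6 : GoodKC AS k_wQ_26_wN_1_rb8033094a_d43_d36_d41_d03x3_6 := p_wQ_26_wN_1_rb8033094a_d43_d36_d41_d03x3_6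

theorem g__wQ_26_wN_1_rb8033094a_d43_d36_d41_d03x3_4 : GoodKC AS k_wQ_26_wN_1_rb8033094a_d43_d36_d41_d03x3_4 := p_wQ_26_wN_1_rb8033094a_d43_d36_d41_d03x3_4 g__wQ_26_wN_1_rb8033094a_d43_d36_d41_d03x3_5 g__wQ_26_wN_1_rb8033094a_d43_d36_d41_d03x3_6

theorem g__wQ_26_wN_1_rb8033094a_d43_d36_d41_d03x3_2 : GoodKC AS k_wQ_26_wN_1_rb8033094a_d43_d36_d41_d03x3_2 := p_wQ_26_wN_1_rb8033094a_d43_d36_d41_d03x3_2 g__wQ_26_wN_1_rb8033094a_d43_d36_d41_d03x3_3 g__wQ_26_wN_1_rb8033094a_d43_d36_d41_d03x3_4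

theorem g__wQ_26_wN_1_rb8033094a_d43_d36_d41_d03x3_1 : GoodKC AS k_wQ_26_wN_1_rb8033094a_d43_d36_d41_d03x3_1 := p_wQ_26_wN_1_rb8033094a_d43_d36_d41_d03x3_1 g__wQ_26_wN_1_rb8033094a_d43_d36_d41_d03x3_2

theorem g__wQ_26_wN_1_rb8033094a_d43_d36_d41_d03x3_0 : GoodKC AS k_wQ_26_wN_1_rb8033094a_d43_d36_d41_d03x3_0 := p_wQ_26_wN_1_rb8033094a_d43_d36_d41_d03x3_0 g__wQ_26_wN_1_rb8033094a_d43_d36_d41_d03x3_1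

theorem g_wQ_26_wN_1_rb8033094a_d43_d36_d41_d03x8 : GoodKC AS c_wQ_26_wN_1_rb8033094a_d43_d36_d41_d03x8 := p_wQ_26_wN_1_rb8033094a_d43_d36_d41_d03x3 g__wQ_26_wN_1_rb8033094a_d43_d36_d41_d03x3_0

theorem g__wQ_26_wN_1_rb8033094a_d43_d36x8_4 : GoodKC AS k_wQ_26_wN_1_rb8033094a_d43_d36x8_4 := p_wQ_26_wN_1_rb8033094a_d43_d36x8_4

theorem g__wQ_26_wN_1_rb8033094a_d43_d36x8_3 : GoodKC AS k_wQ_26_wN_1_rb8033094a_d43_d36x8_3 := p_wQ_26_wN_1_rb8033094a_d43_d36x8_3 g__wQ_26_wN_1_rb8033094a_d43_d36x8_4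

theorem g__wQ_26_wN_1_rb8033094a_d43_d36_d41_d02x3_7 : GoodKC AS k_wQ_26_wN_1_rb8033094a_d43_d36_d41_d02x3_7 := p_wQ_26_wN_1_rb8033094a_d43_d36_d41_d02x3_7

theorem g__wQ_26_wN_1_rb8033094a_d43_d36_d41_d02x3_6 : GoodKC AS k_wQ_26_wN_1_rb8033094a_d43_d36_d41_d02x3_6 := p_wQ_26_wN_1_rb8033094a_d43_d36_d41_d02x3_6 g__wQ_26_wN_1_rb8033094a_d43_d36_d41_d02x3_7

theorem g__wQ_26_wN_1_rb8033094a_d43_d36_d41_d02x3_5 : GoodKC AS k_wQ_26_wN_1_rb8033094a_d43_d36_d41_d02x3_5 := p_wQ_26_wN_1_rb8033094a_d43_d36_d41_d02x3_5 g__wQ_26_wN_1_rb8033094a_d43_d36_d41_d02x3_6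

theorem g__wQ_26_wN_1_rb8033094a_d43_d36_d41_d02x3_4 : GoodKC AS k_wQ_26_wN_1_rb8033094a_d43_d36_d41_d02x3_4 := p_wQ_26_wN_1_rb8033094a_d43_d36_d41_d02x3_4 g__wQ_26_wN_1_rb8033094a_d43_d36_d41_d02x3_5

theorem g__wQ_26_wN_1_rb8033094a_d43_d36_d41_d02x3_9 : GoodKC AS k_wQ_26_wN_1_rb8033094a_d43_d36_d41_d02x3_9 := p_wQ_26_wN_1_rb8033094a_d43_d36_d41_d02x3_9

theorem g__wQ_26_wN_1_rb8033094a_d43_d36_d41_d02x3_10 : GoodKC AS k_wQ_26_wN_1_rb8033094a_d43_d36_d41_d02x3_10 := p_wQ_26_wN_1_rb8033094a_d43_d36_d41_d02x3_10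

theorem g__wQ_26_wN_1_rb8033094a_d43_d36_d41_d02x3_8 : GoodKC AS k_wQ_26_wN_1_rb8033094a_d43_d36_d41_d02x3_8 := p_wQ_26_wN_1_rb8033094a_d43_d36_d41_d02x3_8 g__wQ_26_wN_1_rb8033094a_d43_d36_d41_d02x3_9 g__wQ_26_wN_1_rb8033094a_d43_d36_d41_d02x3_10

theorem g__wQ_26_wN_1_rb8033094a_d43_d36_d41_d02x3_3 : GoodKC AS k_wQ_26_wN_1_rb8033094a_d43_d36_d41_d02x3_3 := p_wQ_26_wN_1_rb8033094a_d43_d36_d41_d02x3_3 g__wQ_26_wN_1_rb8033094a_d43_d36_d41_d02x3_4 g__wQ_26_wN_1_rb8033094a_d43_d36_d41_d02x3_8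

theorem g__wQ_26_wN_1_rb8033094a_d43_d36_d41_d02x3_2 : GoodKC AS k_wQ_26_wN_1_rb8033094a_d43_d36_d41_d02x3_2 := p_wQ_26_wN_1_rb8033094a_d43_d36_d41_d02x3_2 g__wQ_26_wN_1_rb8033094a_d43_d36_d41_d02x3_3

theorem g__wQ_26_wN_1_rb8033094a_d43_d36_d41_d02x3_11 : GoodKC AS k_wQ_26_wN_1_rb8033094a_d43_d36_d41_d02x3_11 := p_wQ_26_wN_1_rb8033094a_d43_d36_d41_d02x3_11

theorem g__wQ_26_wN_1_rb8033094a_d43_d36_d41_d02x3_1 : GoodKC AS k_wQ_26_wN_1_rb8033094a_d43_d36_d41_d02x3_1 := p_wQ_26_wN_1_rb8033094a_d43_d36_d41_d02x3_1 g__wQ_26_wN_1_rb8033094a_d43_d36_d41_d02x3_2 g__wQ_26_wN_1_rb8033094a_d43_d36_d41_d02x3_11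

theorem g__wQ_26_wN_1_rb8033094a_d43_d36_d41_d02x3_0 : GoodKC AS k_wQ_26_wN_1_rb8033094a_d43_d36_d41_d02x3_0 := p_wQ_26_wN_1_rb8033094a_d43_d36_d41_d02x3_0 g__wQ_26_wN_1_rb8033094a_d43_d36_d41_d02x3_1

theorem g_wQ_26_wN_1_rb8033094a_d43_d36_d41_d02x8 : GoodKC AS c_wQ_26_wN_1_rb8033094a_d43_d36_d41_d02x8 := p_wQ_26_wN_1_rb8033094a_d43_d36_d41_d02x3 g__wQ_26_wN_1_rb8033094a_d43_d36_d41_d02x3_0

theorem g__wQ_26_wN_1_rb8033094a_d43_d36x8_2 : GoodKC AS k_wQ_26_wN_1_rb8033094a_d43_d36x8_2 := p_wQ_26_wN_1_rb8033094a_d43_d36x8_2 g__wQ_26_wN_1_rb8033094a_d43_d36x8_3 g_wQ_26_wN_1_rb8033094a_d43_d36_d41_d02x8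

theorem g__wQ_26_wN_1_rb8033094a_d43_d36_d41_d01x3_2 : GoodKC AS k_wQ_26_wN_1_rb8033094a_d43_d36_d41_d01x3_2 := p_wQ_26_wN_1_rb8033094a_d43_d36_d41_d01x3_2

theorem g__wQ_26_wN_1_rb8033094a_d43_d36_d41_d01x3_1 : GoodKC AS k_wQ_26_wN_1_rb8033094a_d43_d36_d41_d01x3_1 := p_wQ_26_wN_1_rb8033094a_d43_d36_d41_d01x3_1 g__wQ_26_wN_1_rb8033094a_d43_d36_d41_d01x3_2

theorem g__wQ_26_wN_1_rb8033094a_d43_d36_d41_d01x3_3 : GoodKC AS k_wQ_26_wN_1_rb8033094a_d43_d36_d41_d01x3_3 := p_wQ_26_wN_1_rb8033094a_d43_d36_d41_d01x3_3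

theorem g__wQ_26_wN_1_rb8033094a_d43_d36_d41_d01x3_0 : GoodKC AS k_wQ_26_wN_1_rb8033094a_d43_d36_d41_d01x3_0 := p_wQ_26_wN_1_rb8033094a_d43_d36_d41_d01x3_0 g__wQ_26_wN_1_rb8033094a_d43_d36_d41_d01x3_1 g__wQ_26_wN_1_rb8033094a_d43_d36_d41_d01x3_3

theorem g_wQ_26_wN_1_rb8033094a_d43_d36_d41_d01x8 : GoodKC AS c_wQ_26_wN_1_rb8033094a_d43_d36_d41_d01x8 := p_wQ_26_wN_1_rb8033094a_d43_d36_d41_d01x3 g__wQ_26_wN_1_rb8033094a_d43_d36_d41_d01x3_0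

theorem g__wQ_26_wN_1_rb8033094a_d43_d36_d41_d00v3_3 : GoodKC AS k_wQ_26_wN_1_rb8033094a_d43_d36_d41_d00v3_3 := p_wQ_26_wN_1_rb8033094a_d43_d36_d41_d00v3_3

theorem g__wQ_26_wN_1_rb8033094a_d43_d36_d41_d00v3_2 : GoodKC AS k_wQ_26_wN_1_rb8033094a_d43_d36_d41_d00v3_2 := p_wQ_26_wN_1_rb8033094a_d43_d36_d41_d00v3_2 g__wQ_26_wN_1_rb8033094a_d43_d36_d41_d00v3_3

theorem g__wQ_26_wN_1_rb8033094a_d43_d36_d41_d00v3_1 : GoodKC AS k_wQ_26_wN_1_rb8033094a_d43_d36_d41_d00v3_1 := p_wQ_26_wN_1_rb8033094a_d43_d36_d41_d00v3_1 g__wQ_26_wN_1_rb8033094a_d43_d36_d41_d00v3_2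

theorem g__wQ_26_wN_1_rb8033094a_d43_d36_d41_d00v3_0 : GoodKC AS k_wQ_26_wN_1_rb8033094a_d43_d36_d41_d00v3_0 := p_wQ_26_wN_1_rb8033094a_d43_d36_d41_d00v3_0 g__wQ_26_wN_1_rb8033094a_d43_d36_d41_d00v3_1

theorem g_wQ_26_wN_1_rb8033094a_d43_d36_d41_d00x8 : GoodKC AS c_wQ_26_wN_1_rb8033094a_d43_d36_d41_d00x8 := p_wQ_26_wN_1_rb8033094a_d43_d36_d41_d00x3 g__wQ_26_wN_1_rb8033094a_d43_d36_d41_d00v3_0

theorem g__wQ_26_wN_1_rb8033094a_d43_d36x8_6 : GoodKC AS k_wQ_26_wN_1_rb8033094a_d43_d36x8_6 := p_wQ_26_wN_1_rb8033094a_d43_d36x8_6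

theorem g__wQ_26_wN_1_rb8033094a_d43_d36x8_11 : GoodKC AS k_wQ_26_wN_1_rb8033094a_d43_d36x8_11 := p_wQ_26_wN_1_rb8033094a_d43_d36x8_11

theorem g__wQ_26_wN_1_rb8033094a_d43_d36x8_10 : GoodKC AS k_wQ_26_wN_1_rb8033094a_d43_d36x8_10 := p_wQ_26_wN_1_rb8033094a_d43_d36x8_10 g__wQ_26_wN_1_rb8033094a_d43_d36x8_11

theorem g__wQ_26_wN_1_rb8033094a_d43_d36x8_12 : GoodKC AS k_wQ_26_wN_1_rb8033094a_d43_d36x8_12 := p_wQ_26_wN_1_rb8033094a_d43_d36x8_12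

theorem g__wQ_26_wN_1_rb8033094a_d43_d36x8_9 : GoodKC AS k_wQ_26_wN_1_rb8033094a_d43_d36x8_9 := p_wQ_26_wN_1_rb8033094a_d43_d36x8_9 g__wQ_26_wN_1_rb8033094a_d43_d36x8_10 g__wQ_26_wN_1_rb8033094a_d43_d36x8_12

theorem g__wQ_26_wN_1_rb8033094a_d43_d36x8_8 : GoodKC AS k_wQ_26_wN_1_rb8033094a_d43_d36x8_8 := p_wQ_26_wN_1_rb8033094a_d43_d36x8_8 g__wQ_26_wN_1_rb8033094a_d43_d36x8_9

theorem g__wQ_26_wN_1_rb8033094a_d43_d36x8_7 : GoodKC AS k_wQ_26_wN_1_rb8033094a_d43_d36x8_7 := p_wQ_26_wN_1_rb8033094a_d43_d36x8_7 g__wQ_26_wN_1_rb8033094a_d43_d36x8_8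

theorem g__wQ_26_wN_1_rb8033094a_d43_d36x8_13 : GoodKC AS k_wQ_26_wN_1_rb8033094a_d43_d36x8_13 := p_wQ_26_wN_1_rb8033094a_d43_d36x8_13

theorem g__wQ_26_wN_1_rb8033094a_d43_d36x8_5 : GoodKC AS k_wQ_26_wN_1_rb8033094a_d43_d36x8_5 := p_wQ_26_wN_1_rb8033094a_d43_d36x8_5 g__wQ_26_wN_1_rb8033094a_d43_d36x8_6 g__wQ_26_wN_1_rb8033094a_d43_d36x8_7 g__wQ_26_wN_1_rb8033094a_d43_d36x8_13

theorem g__wQ_26_wN_1_rb8033094a_d43_d36x8_1 : GoodKC AS k_wQ_26_wN_1_rb8033094a_d43_d36x8_1 := p_wQ_26_wN_1_rb8033094a_d43_d36x8_1 g_wQ_26_wN_1_rb8033094a_d43_d36_d41_d03x8 g__wQ_26_wN_1_rb8033094a_d43_d36x8_2 g_wQ_26_wN_1_rb8033094a_d43_d36_d41_d01x8 g_wQ_26_wN_1_rb8033094a_d43_d36_d41_d00x8 g__wQ_26_wN_1_rb8033094a_d43_d36x8_5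

theorem g__wQ_26_wN_1_rb8033094a_d43_d36_d41_d04x3_2 : GoodKC AS k_wQ_26_wN_1_rb8033094a_d43_d36_d41_d04x3_2 := p_wQ_26_wN_1_rb8033094a_d43_d36_d41_d04x3_2

theorem g__wQ_26_wN_1_rb8033094a_d43_d36_d41_d04x3_1 : GoodKC AS k_wQ_26_wN_1_rb8033094a_d43_d36_d41_d04x3_1 := p_wQ_26_wN_1_rb8033094a_d43_d36_d41_d04x3_1 g__wQ_26_wN_1_rb8033094a_d43_d36_d41_d04x3_2

theorem g__wQ_26_wN_1_rb8033094a_d43_d36_d41_d04x3_0 : GoodKC AS k_wQ_26_wN_1_rb8033094a_d43_d36_d41_d04x3_0 := p_wQ_26_wN_1_rb8033094a_d43_d36_d41_d04x3_0 g__wQ_26_wN_1_rb8033094a_d43_d36_d41_d04x3_1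

theorem g_wQ_26_wN_1_rb8033094a_d43_d36_d41_d04x8 : GoodKC AS c_wQ_26_wN_1_rb8033094a_d43_d36_d41_d04x8 := p_wQ_26_wN_1_rb8033094a_d43_d36_d41_d04x3 g__wQ_26_wN_1_rb8033094a_d43_d36_d41_d04x3_0

theorem g_wQ_26_wN_1_rb8033094a_d43_d36_d41_d06x8 : GoodKC AS c_wQ_26_wN_1_rb8033094a_d43_d36_d41_d06x8 := p_wQ_26_wN_1_rb8033094a_d43_d36_d41_d06x3

theorem g__wQ_26_wN_1_rb8033094a_d43_d36x8_0 : GoodKC AS k_wQ_26_wN_1_rb8033094a_d43_d36x8_0 := p_wQ_26_wN_1_rb8033094a_d43_d36x8_0 g_wQ_26_wN_1_rb8033094a_d43_d36_d41_d07x8 g_wQ_26_wN_1_rb8033094a_d43_d36_d41_d05x8 g__wQ_26_wN_1_rb8033094a_d43_d36x8_1 g_wQ_26_wN_1_rb8033094a_d43_d36_d41_d04x8 g_wQ_26_wN_1_rb8033094a_d43_d36_d41_d06x8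

theorem g_wQ_26_wN_1_rb8033094a_d43_d36_d41_d16x8 : GoodKC AS c_wQ_26_wN_1_rb8033094a_d43_d36_d41_d16x8 := p_wQ_26_wN_1_rb8033094a_d43_d36_d41_d16x3

theorem g_wQ_26_wN_1_rb8033094a_d43_d36_d41_d17x8 : GoodKC AS c_wQ_26_wN_1_rb8033094a_d43_d36_d41_d17x8 := p_wQ_26_wN_1_rb8033094a_d43_d36_d41_d17x3

theorem g__wQ_26_wN_1_rb8033094a_d43_d36_d41_d18x3_0 : GoodKC AS k_wQ_26_wN_1_rb8033094a_d43_d36_d41_d18x3_0 := p_wQ_26_wN_1_rb8033094a_d43_d36_d41_d18x3_0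

theorem g_wQ_26_wN_1_rb8033094a_d43_d36_d41_d18x8 : GoodKC AS c_wQ_26_wN_1_rb8033094a_d43_d36_d41_d18x8 := p_wQ_26_wN_1_rb8033094a_d43_d36_d41_d18x3 g__wQ_26_wN_1_rb8033094a_d43_d36_d41_d18x3_0

theorem g_wQ_26_wN_1_rb8033094a_d43_d36_d41_d1bx8 : GoodKC AS c_wQ_26_wN_1_rb8033094a_d43_d36_d41_d1bx8 := p_wQ_26_wN_1_rb8033094a_d43_d36_d41_d1bx3

theorem g_wQ_26_wN_1_rb8033094a_d43_d36x2 : GoodKC AS c_wQ_26_wN_1_rb8033094a_d43_d36x2 := p_wQ_26_wN_1_rb8033094a_d43_d36x8 g_wQ_26_wN_1_rb8033094a_d43_d36_d41_d1cx8 g_wQ_26_wN_1_rb8033094a_d43_d36_d41_d1ax8 g_wQ_26_wN_1_rb8033094a_d43_d36_d41_d19x8 g_wQ_26_wN_1_rb8033094a_d43_d36_d41_d15x8 g_wQ_26_wN_1_rb8033094a_d43_d36_d41_d13x8 g_wQ_26_wN_1_rb8033094a_d43_d36_d41_d0fx8 g_wQ_26_wN_1_rb8033094a_d43_d36_d41_d0cx8 g_wQ_26_wN_1_rb8033094a_d43_d36_d41_d0bx8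 g_wQ_26_wN_1_rb8033094a_d43_d36_d41_d09x8 g_wQ_26_wN_1_rb8033094a_d43_d36_d41_d08x8 g_wQ_26_wN_1_rb8033094a_d43_d36_d41_d0ax8 g_wQ_26_wN_1_rb8033094a_d43_d36_d41_d0dx8 g_wQ_26_wN_1_rb8033094a_d43_d36_d41_d0ex8 g_wQ_26_wN_1_rb8033094a_d43_d36_d41_d10x8 g_wQ_26_wN_1_rb8033094a_d43_d36_d41_d11x8 g_wQ_26_wN_1_rb8033094a_d43_d36_d41_d12x8 g_wQ_26_wN_1_rb8033094a_d43_d36_d41_d14x8 g__wQ_26_wN_1_rb8033094a_d43_d36x8_0 g_wQ_26_wN_1_rb8033094a_d43_d36_d41_d16x8 g_wQ_26_wN_1_rb8033094a_d43_d36_d41_d17x8 g_wQ_26_wN_1_rb8033094a_d43_d36_d41_d18x8 g_wQ_26_wN_1_rb8033094a_d43_d36_d41_d1bx8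

theorem g__wQ_26_wN_1_rb8033094a_d43_d3ax2_11 : GoodKC AS k_wQ_26_wN_1_rb8033094a_d43_d3ax2_11 := p_wQ_26_wN_1_rb8033094a_d43_d3ax2_11

theorem g__wQ_26_wN_1_rb8033094a_d43_d3ax2_10 : GoodKC AS k_wQ_26_wN_1_rb8033094a_d43_d3ax2_10 := p_wQ_26_wN_1_rb8033094a_d43_d3ax2_10 g__wQ_26_wN_1_rb8033094a_d43_d3ax2_11

theorem g__wQ_26_wN_1_rb8033094a_d43_d3ax2_14 : GoodKC AS k_wQ_26_wN_1_rb8033094a_d43_d3ax2_14 := p_wQ_26_wN_1_rb8033094a_d43_d3ax2_14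

theorem g__wQ_26_wN_1_rb8033094a_d43_d3ax2_13 : GoodKC AS k_wQ_26_wN_1_rb8033094a_d43_d3ax2_13 := p_wQ_26_wN_1_rb8033094a_d43_d3ax2_13 g__wQ_26_wN_1_rb8033094a_d43_d3ax2_14

theorem g__wQ_26_wN_1_rb8033094a_d43_d3ax2_12 : GoodKC AS k_wQ_26_wN_1_rb8033094a_d43_d3ax2_12 := p_wQ_26_wN_1_rb8033094a_d43_d3ax2_12 g__wQ_26_wN_1_rb8033094a_d43_d3ax2_13

theorem g__wQ_26_wN_1_rb8033094a_d43_d3ax2_9 : GoodKC AS k_wQ_26_wN_1_rb8033094a_d43_d3ax2_9 := p_wQ_26_wN_1_rb8033094a_d43_d3ax2_9 g__wQ_26_wN_1_rb8033094a_d43_d3ax2_10 g__wQ_26_wN_1_rb8033094a_d43_d3ax2_12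

theorem g__wQ_26_wN_1_rb8033094a_d43_d3ax2_8 : GoodKC AS k_wQ_26_wN_1_rb8033094a_d43_d3ax2_8 := p_wQ_26_wN_1_rb8033094a_d43_d3ax2_8 g__wQ_26_wN_1_rb8033094a_d43_d3ax2_9

theorem g__wQ_26_wN_1_rb8033094a_d43_d3ax2_7 : GoodKC AS k_wQ_26_wN_1_rb8033094a_d43_d3ax2_7 := p_wQ_26_wN_1_rb8033094a_d43_d3ax2_7 g__wQ_26_wN_1_rb8033094a_d43_d3ax2_8

theorem g__wQ_26_wN_1_rb8033094a_d43_d3ax2_6 : GoodKC AS k_wQ_26_wN_1_rb8033094a_d43_d3ax2_6 := p_wQ_26_wN_1_rb8033094a_d43_d3ax2_6 g__wQ_26_wN_1_rb8033094a_d43_d3ax2_7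

theorem g__wQ_26_wN_1_rb8033094a_d43_d3ax2_15 : GoodKC AS k_wQ_26_wN_1_rb8033094a_d43_d3ax2_15 := p_wQ_26_wN_1_rb8033094a_d43_d3ax2_15

theorem g__wQ_26_wN_1_rb8033094a_d43_d3ax2_16 : GoodKC AS k_wQ_26_wN_1_rb8033094a_d43_d3ax2_16 := p_wQ_26_wN_1_rb8033094a_d43_d3ax2_16

theorem g__wQ_26_wN_1_rb8033094a_d43_d3ax2_5 : GoodKC AS k_wQ_26_wN_1_rb8033094a_d43_d3ax2_5 := p_wQ_26_wN_1_rb8033094a_d43_d3ax2_5 g__wQ_26_wN_1_rb8033094a_d43_d3ax2_6 g__wQ_26_wN_1_rb8033094a_d43_d3ax2_15 g__wQ_26_wN_1_rb8033094a_d43_d3ax2_16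

theorem g__wQ_26_wN_1_rb8033094a_d43_d3ax2_4 : GoodKC AS k_wQ_26_wN_1_rb8033094a_d43_d3ax2_4 := p_wQ_26_wN_1_rb8033094a_d43_d3ax2_4 g__wQ_26_wN_1_rb8033094a_d43_d3ax2_5

theorem g__wQ_26_wN_1_rb8033094a_d43_d3ax2_3 : GoodKC AS k_wQ_26_wN_1_rb8033094a_d43_d3ax2_3 := p_wQ_26_wN_1_rb8033094a_d43_d3ax2_3 g__wQ_26_wN_1_rb8033094a_d43_d3ax2_4

theorem g__wQ_26_wN_1_rb8033094a_d43_d3ax2_17 : GoodKC AS k_wQ_26_wN_1_rb8033094a_d43_d3ax2_17 := p_wQ_26_wN_1_rb8033094a_d43_d3ax2_17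

theorem g__wQ_26_wN_1_rb8033094a_d43_d3ax2_2 : GoodKC AS k_wQ_26_wN_1_rb8033094a_d43_d3ax2_2 := p_wQ_26_wN_1_rb8033094a_d43_d3ax2_2 g__wQ_26_wN_1_rb8033094a_d43_d3ax2_3 g__wQ_26_wN_1_rb8033094a_d43_d3ax2_17

theorem g__wQ_26_wN_1_rb8033094a_d43_d3ax2_1 : GoodKC AS k_wQ_26_wN_1_rb8033094a_d43_d3ax2_1 := p_wQ_26_wN_1_rb8033094a_d43_d3ax2_1 g__wQ_26_wN_1_rb8033094a_d43_d3ax2_2

theorem g__wQ_26_wN_1_rb8033094a_d43_d3ax2_0 : GoodKC AS k_wQ_26_wN_1_rb8033094a_d43_d3ax2_0 := p_wQ_26_wN_1_rb8033094a_d43_d3ax2_0 g__wQ_26_wN_1_rb8033094a_d43_d3ax2_1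

theorem g_wQ_26_wN_1_rb8033094a_d43_d3ax2 : GoodKC AS c_wQ_26_wN_1_rb8033094a_d43_d3ax2 := p_wQ_26_wN_1_rb8033094a_d43_d3ax2 g__wQ_26_wN_1_rb8033094a_d43_d3ax2_0

theorem g_wQ_26_wN_1_rb8033094a_d43_d3cx2 : GoodKC AS c_wQ_26_wN_1_rb8033094a_d43_d3cx2 := p_wQ_26_wN_1_rb8033094a_d43_d3cx2

theorem g_wQ_26_wN_1_rb8033094a_d43_d3dx2 : GoodKC AS c_wQ_26_wN_1_rb8033094a_d43_d3dx2 := p_wQ_26_wN_1_rb8033094a_d43_d3dx2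

theorem g_wQ_26_wN_1_rb8033094a_d43_d3fx2 : GoodKC AS c_wQ_26_wN_1_rb8033094a_d43_d3fx2 := p_wQ_26_wN_1_rb8033094a_d43_d3fx2

theorem g_wQ_26_wN_1_rb8033094a_d43_d41x2 : GoodKC AS c_wQ_26_wN_1_rb8033094a_d43_d41x2 := p_wQ_26_wN_1_rb8033094a_d43_d41x2

theorem g__wQ_26_wN_1_rb8033094a_d43_d42x2_1 : GoodKC AS k_wQ_26_wN_1_rb8033094a_d43_d42x2_1 := p_wQ_26_wN_1_rb8033094a_d43_d42x2_1

theorem g__wQ_26_wN_1_rb8033094a_d43_d42x2_0 : GoodKC AS k_wQ_26_wN_1_rb8033094a_d43_d42x2_0 := p_wQ_26_wN_1_rb8033094a_d43_d42x2_0 g__wQ_26_wN_1_rb8033094a_d43_d42x2_1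

theorem g_wQ_26_wN_1_rb8033094a_d43_d42x2 : GoodKC AS c_wQ_26_wN_1_rb8033094a_d43_d42x2 := p_wQ_26_wN_1_rb8033094a_d43_d42x2 g__wQ_26_wN_1_rb8033094a_d43_d42x2_0

theorem g_wQ_26_wN_1_rb8033094a_d43_d44x2 : GoodKC AS c_wQ_26_wN_1_rb8033094a_d43_d44x2 := p_wQ_26_wN_1_rb8033094a_d43_d44x2

theorem g_wQ_26_wN_1_rb8033094a_d43_d48x2 : GoodKC AS c_wQ_26_wN_1_rb8033094a_d43_d48x2 := p_wQ_26_wN_1_rb8033094a_d43_d48x2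

theorem g__wQ_26_wN_1_rb8033094a_d43_d49x2_1 : GoodKC AS k_wQ_26_wN_1_rb8033094a_d43_d49x2_1 := p_wQ_26_wN_1_rb8033094a_d43_d49x2_1

theorem g__wQ_26_wN_1_rb8033094a_d43_d49x2_0 : GoodKC AS k_wQ_26_wN_1_rb8033094a_d43_d49x2_0 := p_wQ_26_wN_1_rb8033094a_d43_d49x2_0 g__wQ_26_wN_1_rb8033094a_d43_d49x2_1

theorem g_wQ_26_wN_1_rb8033094a_d43_d49x2 : GoodKC AS c_wQ_26_wN_1_rb8033094a_d43_d49x2 := p_wQ_26_wN_1_rb8033094a_d43_d49x2 g__wQ_26_wN_1_rb8033094a_d43_d49x2_0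

theorem g__wQ_26_wN_1_rb8033094a_d43_d4a51x2_2 : GoodKC AS k_wQ_26_wN_1_rb8033094a_d43_d4a51x2_2 := p_wQ_26_wN_1_rb8033094a_d43_d4a51x2_2

theorem g__wQ_26_wN_1_rb8033094a_d43_d4a51x2_1 : GoodKC AS k_wQ_26_wN_1_rb8033094a_d43_d4a51x2_1 := p_wQ_26_wN_1_rb8033094a_d43_d4a51x2_1 g__wQ_26_wN_1_rb8033094a_d43_d4a51x2_2

theorem g__wQ_26_wN_1_rb8033094a_d43_d4a51x2_0 : GoodKC AS k_wQ_26_wN_1_rb8033094a_d43_d4a51x2_0 := p_wQ_26_wN_1_rb8033094a_d43_d4a51x2_0 g__wQ_26_wN_1_rb8033094a_d43_d4a51x2_1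

theorem g_wQ_26_wN_1_rb8033094a_d43_d4a51x8 : GoodKC AS c_wQ_26_wN_1_rb8033094a_d43_d4a51x8 := p_wQ_26_wN_1_rb8033094a_d43_d4a51x2 g__wQ_26_wN_1_rb8033094a_d43_d4a51x2_0

theorem g__wQ_26_wN_1_rb8033094a_d43_d4a50v2_2 : GoodKC AS k_wQ_26_wN_1_rb8033094a_d43_d4a50v2_2 := p_wQ_26_wN_1_rb8033094a_d43_d4a50v2_2

theorem g__wQ_26_wN_1_rb8033094a_d43_d4a50v2_4 : GoodKC AS k_wQ_26_wN_1_rb8033094a_d43_d4a50v2_4 := p_wQ_26_wN_1_rb8033094a_d43_d4a50v2_4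

theorem g__wQ_26_wN_1_rb8033094a_d43_d4a50v2_3 : GoodKC AS k_wQ_26_wN_1_rb8033094a_d43_d4a50v2_3 := p_wQ_26_wN_1_rb8033094a_d43_d4a50v2_3 g__wQ_26_wN_1_rb8033094a_d43_d4a50v2_4

theorem g__wQ_26_wN_1_rb8033094a_d43_d4a50v2_1 : GoodKC AS k_wQ_26_wN_1_rb8033094a_d43_d4a50v2_1 := p_wQ_26_wN_1_rb8033094a_d43_d4a50v2_1 g__wQ_26_wN_1_rb8033094a_d43_d4a50v2_2 g__wQ_26_wN_1_rb8033094a_d43_d4a50v2_3

theorem g__wQ_26_wN_1_rb8033094a_d43_d4a50v2_0 : GoodKC AS k_wQ_26_wN_1_rb8033094a_d43_d4a50v2_0 := p_wQ_26_wN_1_rb8033094a_d43_d4a50v2_0 g__wQ_26_wN_1_rb8033094a_d43_d4a50v2_1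

theorem g__wQ_26_wN_1_rb8033094a_d43_d4a50v2_7 : GoodKC AS k_wQ_26_wN_1_rb8033094a_d43_d4a50v2_7 := p_wQ_26_wN_1_rb8033094a_d43_d4a50v2_7

theorem g__wQ_26_wN_1_rb8033094a_d43_d4a50v2_6 : GoodKC AS k_wQ_26_wN_1_rb8033094a_d43_d4a50v2_6 := p_wQ_26_wN_1_rb8033094a_d43_d4a50v2_6 g__wQ_26_wN_1_rb8033094a_d43_d4a50v2_7

theorem g__wQ_26_wN_1_rb8033094a_d43_d4a50v2_5 : GoodKC AS k_wQ_26_wN_1_rb8033094a_d43_d4a50v2_5 := p_wQ_26_wN_1_rb8033094a_d43_d4a50v2_5 g__wQ_26_wN_1_rb8033094a_d43_d4a50v2_6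

theorem g__wQ_26_wN_1_rb8033094a_d43_d4a50v2_8 : GoodKC AS k_wQ_26_wN_1_rb8033094a_d43_d4a50v2_8 := p_wQ_26_wN_1_rb8033094a_d43_d4a50v2_8

theorem g_wQ_26_wN_1_rb8033094a_d43_d4a50x8 : GoodKC AS c_wQ_26_wN_1_rb8033094a_d43_d4a50x8 := p_wQ_26_wN_1_rb8033094a_d43_d4a50x2 g__wQ_26_wN_1_rb8033094a_d43_d4a50v2_0 g__wQ_26_wN_1_rb8033094a_d43_d4a50v2_5 g__wQ_26_wN_1_rb8033094a_d43_d4a50v2_8

theorem g_wQ_26_wN_1_rb8033094a_d43_d4a4fx8 : GoodKC AS c_wQ_26_wN_1_rb8033094a_d43_d4a4fx8 := p_wQ_26_wN_1_rb8033094a_d43_d4a4fx3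

theorem g_wQ_26_wN_1_rb8033094a_d43_d4a4cx8 : GoodKC AS c_wQ_26_wN_1_rb8033094a_d43_d4a4cx8 := p_wQ_26_wN_1_rb8033094a_d43_d4a4cx3

theorem g_wQ_26_wN_1_rb8033094a_d43_d4a4ax8 : GoodKC AS c_wQ_26_wN_1_rb8033094a_d43_d4a4ax8 := p_wQ_26_wN_1_rb8033094a_d43_d4a4ax1

theorem g_wQ_26_wN_1_rb8033094a_d43_d4a49x8 : GoodKC AS c_wQ_26_wN_1_rb8033094a_d43_d4a49x8 := p_wQ_26_wN_1_rb8033094a_d43_d4a49x1

theorem g_wQ_26_wN_1_rb8033094a_d43_d4a48x8 : GoodKC AS c_wQ_26_wN_1_rb8033094a_d43_d4a48x8 := p_wQ_26_wN_1_rb8033094a_d43_d4a48x1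

theorem g_wQ_26_wN_1_rb8033094a_d43_d4a45x8 : GoodKC AS c_wQ_26_wN_1_rb8033094a_d43_d4a45x8 := p_wQ_26_wN_1_rb8033094a_d43_d4a45x3

theorem g_wQ_26_wN_1_rb8033094a_d43_d4a43x8 : GoodKC AS c_wQ_26_wN_1_rb8033094a_d43_d4a43x8 := p_wQ_26_wN_1_rb8033094a_d43_d4a43x3

theorem g_wQ_26_wN_1_rb8033094a_d43_d4a42x8 : GoodKC AS c_wQ_26_wN_1_rb8033094a_d43_d4a42x8 := p_wQ_26_wN_1_rb8033094a_d43_d4a42x2

theorem g_wQ_26_wN_1_rb8033094a_d43_d4a41x8 : GoodKC AS c_wQ_26_wN_1_rb8033094a_d43_d4a41x8 := p_wQ_26_wN_1_rb8033094a_d43_d4a41x1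

theorem g_wQ_26_wN_1_rb8033094a_d43_d4a3fx8 : GoodKC AS c_wQ_26_wN_1_rb8033094a_d43_d4a3fx8 := p_wQ_26_wN_1_rb8033094a_d43_d4a3fx3

theorem g_wQ_26_wN_1_rb8033094a_d43_d4a3ex8 : GoodKC AS c_wQ_26_wN_1_rb8033094a_d43_d4a3ex8 := p_wQ_26_wN_1_rb8033094a_d43_d4a3ex2

theorem g_wQ_26_wN_1_rb8033094a_d43_d4a3b18x1 : GoodKC AS c_wQ_26_wN_1_rb8033094a_d43_d4a3b18x1 := p_wQ_26_wN_1_rb8033094a_d43_d4a3b18x1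

theorem g_wQ_26_wN_1_rb8033094a_d43_d4a3b14x1 : GoodKC AS c_wQ_26_wN_1_rb8033094a_d43_d4a3b14x1 := p_wQ_26_wN_1_rb8033094a_d43_d4a3b14x1

theorem g__wQ_26_wN_1_rb8033094a_d43_d4a3b13x1_1 : GoodKC AS k_wQ_26_wN_1_rb8033094a_d43_d4a3b13x1_1 := p_wQ_26_wN_1_rb8033094a_d43_d4a3b13x1_1

theorem g__wQ_26_wN_1_rb8033094a_d43_d4a3b13x1_0 : GoodKC AS k_wQ_26_wN_1_rb8033094a_d43_d4a3b13x1_0 := p_wQ_26_wN_1_rb8033094a_d43_d4a3b13x1_0 g__wQ_26_wN_1_rb8033094a_d43_d4a3b13x1_1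

theorem g_wQ_26_wN_1_rb8033094a_d43_d4a3b13x1 : GoodKC AS c_wQ_26_wN_1_rb8033094a_d43_d4a3b13x1 := p_wQ_26_wN_1_rb8033094a_d43_d4a3b13x1 g__wQ_26_wN_1_rb8033094a_d43_d4a3b13x1_0

theorem g__wQ_26_wN_1_rb8033094a_d43_d4a3b11x1_3 : GoodKC AS k_wQ_26_wN_1_rb8033094a_d43_d4a3b11x1_3 := p_wQ_26_wN_1_rb8033094a_d43_d4a3b11x1_3

theorem g__wQ_26_wN_1_rb8033094a_d43_d4a3b11x1_2 : GoodKC AS k_wQ_26_wN_1_rb8033094a_d43_d4a3b11x1_2 := p_wQ_26_wN_1_rb8033094a_d43_d4a3b11x1_2 g__wQ_26_wN_1_rb8033094a_d43_d4a3b11x1_3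

theorem g__wQ_26_wN_1_rb8033094a_d43_d4a3b11x1_1 : GoodKC AS k_wQ_26_wN_1_rb8033094a_d43_d4a3b11x1_1 := p_wQ_26_wN_1_rb8033094a_d43_d4a3b11x1_1 g__wQ_26_wN_1_rb8033094a_d43_d4a3b11x1_2

theorem g__wQ_26_wN_1_rb8033094a_d43_d4a3b11x1_0 : GoodKC AS k_wQ_26_wN_1_rb8033094a_d43_d4a3b11x1_0 := p_wQ_26_wN_1_rb8033094a_d43_d4a3b11x1_0 g__wQ_26_wN_1_rb8033094a_d43_d4a3b11x1_1

theorem g_wQ_26_wN_1_rb8033094a_d43_d4a3b11x1 : GoodKC AS c_wQ_26_wN_1_rb8033094a_d43_d4a3b11x1 := p_wQ_26_wN_1_rb8033094a_d43_d4a3b11x1 g__wQ_26_wN_1_rb8033094a_d43_d4a3b11x1_0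

theorem g__wQ_26_wN_1_rb8033094a_d43_d4a3bx1_2 : GoodKC AS k_wQ_26_wN_1_rb8033094a_d43_d4a3bx1_2 := p_wQ_26_wN_1_rb8033094a_d43_d4a3bx1_2

theorem g__wQ_26_wN_1_rb8033094a_d43_d4a3bx1_8 : GoodKC AS k_wQ_26_wN_1_rb8033094a_d43_d4a3bx1_8 := p_wQ_26_wN_1_rb8033094a_d43_d4a3bx1_8

theorem g__wQ_26_wN_1_rb8033094a_d43_d4a3bx1_7 : GoodKC AS k_wQ_26_wN_1_rb8033094a_d43_d4a3bx1_7 := p_wQ_26_wN_1_rb8033094a_d43_d4a3bx1_7 g__wQ_26_wN_1_rb8033094a_d43_d4a3bx1_8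

theorem g__wQ_26_wN_1_rb8033094a_d43_d4a3bx1_6 : GoodKC AS k_wQ_26_wN_1_rb8033094a_d43_d4a3bx1_6 := p_wQ_26_wN_1_rb8033094a_d43_d4a3bx1_6 g__wQ_26_wN_1_rb8033094a_d43_d4a3bx1_7

theorem g__wQ_26_wN_1_rb8033094a_d43_d4a3bx1_5 : GoodKC AS k_wQ_26_wN_1_rb8033094a_d43_d4a3bx1_5 := p_wQ_26_wN_1_rb8033094a_d43_d4a3bx1_5 g__wQ_26_wN_1_rb8033094a_d43_d4a3bx1_6

theorem g__wQ_26_wN_1_rb8033094a_d43_d4a3bx1_4 : GoodKC AS k_wQ_26_wN_1_rb8033094a_d43_d4a3bx1_4 := p_wQ_26_wN_1_rb8033094a_d43_d4a3bx1_4 g__wQ_26_wN_1_rb8033094a_d43_d4a3bx1_5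

theorem g__wQ_26_wN_1_rb8033094a_d43_d4a3bx1_3 : GoodKC AS k_wQ_26_wN_1_rb8033094a_d43_d4a3bx1_3 := p_wQ_26_wN_1_rb8033094a_d43_d4a3bx1_3 g__wQ_26_wN_1_rb8033094a_d43_d4a3bx1_4

theorem g__wQ_26_wN_1_rb8033094a_d43_d4a3bx1_1 : GoodKC AS k_wQ_26_wN_1_rb8033094a_d43_d4a3bx1_1 := p_wQ_26_wN_1_rb8033094a_d43_d4a3bx1_1 g__wQ_26_wN_1_rb8033094a_d43_d4a3bx1_2 g__wQ_26_wN_1_rb8033094a_d43_d4a3bx1_3

theorem g__wQ_26_wN_1_rb8033094a_d43_d4a3bx1_0 : GoodKC AS k_wQ_26_wN_1_rb8033094a_d43_d4a3bx1_0 := p_wQ_26_wN_1_rb8033094a_d43_d4a3bx1_0 g__wQ_26_wN_1_rb8033094a_d43_d4a3bx1_1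

theorem g__wQ_26_wN_1_rb8033094a_d43_d4a3bx1_9 : GoodKC AS k_wQ_26_wN_1_rb8033094a_d43_d4a3bx1_9 := p_wQ_26_wN_1_rb8033094a_d43_d4a3bx1_9

theorem g_wQ_26_wN_1_rb8033094a_d43_d4a3b0fx1 : GoodKC AS c_wQ_26_wN_1_rb8033094a_d43_d4a3b0fx1 := p_wQ_26_wN_1_rb8033094a_d43_d4a3b0fx1

theorem g_wQ_26_wN_1_rb8033094a_d43_d4a3b0ex1 : GoodKC AS c_wQ_26_wN_1_rb8033094a_d43_d4a3b0ex1 := p_wQ_26_wN_1_rb8033094a_d43_d4a3b0ex1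

theorem g_wQ_26_wN_1_rb8033094a_d43_d4a3b0cx1 : GoodKC AS c_wQ_26_wN_1_rb8033094a_d43_d4a3b0cx1 := p_wQ_26_wN_1_rb8033094a_d43_d4a3b0cx1

theorem g_wQ_26_wN_1_rb8033094a_d43_d4a3b0bx1 : GoodKC AS c_wQ_26_wN_1_rb8033094a_d43_d4a3b0bx1 := p_wQ_26_wN_1_rb8033094a_d43_d4a3b0bx1

theorem g_wQ_26_wN_1_rb8033094a_d43_d4a3b0ax1 : GoodKC AS c_wQ_26_wN_1_rb8033094a_d43_d4a3b0ax1 := p_wQ_26_wN_1_rb8033094a_d43_d4a3b0ax1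

theorem g_wQ_26_wN_1_rb8033094a_d43_d4a3b09x1 : GoodKC AS c_wQ_26_wN_1_rb8033094a_d43_d4a3b09x1 := p_wQ_26_wN_1_rb8033094a_d43_d4a3b09x1

theorem g_wQ_26_wN_1_rb8033094a_d43_d4a3b05x1 : GoodKC AS c_wQ_26_wN_1_rb8033094a_d43_d4a3b05x1 := p_wQ_26_wN_1_rb8033094a_d43_d4a3b05x1

theorem g_wQ_26_wN_1_rb8033094a_d43_d4a3b04x1 : GoodKC AS c_wQ_26_wN_1_rb8033094a_d43_d4a3b04x1 := p_wQ_26_wN_1_rb8033094a_d43_d4a3b04x1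

theorem g_wQ_26_wN_1_rb8033094a_d43_d4a3b03x1 : GoodKC AS c_wQ_26_wN_1_rb8033094a_d43_d4a3b03x1 := p_wQ_26_wN_1_rb8033094a_d43_d4a3b03x1

theorem g_wQ_26_wN_1_rb8033094a_d43_d4a3b02x1 : GoodKC AS c_wQ_26_wN_1_rb8033094a_d43_d4a3b02x1 := p_wQ_26_wN_1_rb8033094a_d43_d4a3b02x1

theorem g_wQ_26_wN_1_rb8033094a_d43_d4a3b01x1 : GoodKC AS c_wQ_26_wN_1_rb8033094a_d43_d4a3b01x1 := p_wQ_26_wN_1_rb8033094a_d43_d4a3b01x1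

theorem g__wQ_26_wN_1_rb8033094a_d43_d4a3b00v1_3 : GoodKC AS k_wQ_26_wN_1_rb8033094a_d43_d4a3b00v1_3 := p_wQ_26_wN_1_rb8033094a_d43_d4a3b00v1_3

theorem g__wQ_26_wN_1_rb8033094a_d43_d4a3b00v1_2 : GoodKC AS k_wQ_26_wN_1_rb8033094a_d43_d4a3b00v1_2 := p_wQ_26_wN_1_rb8033094a_d43_d4a3b00v1_2 g__wQ_26_wN_1_rb8033094a_d43_d4a3b00v1_3

theorem g__wQ_26_wN_1_rb8033094a_d43_d4a3b00v1_1 : GoodKC AS k_wQ_26_wN_1_rb8033094a_d43_d4a3b00v1_1 := p_wQ_26_wN_1_rb8033094a_d43_d4a3b00v1_1 g__wQ_26_wN_1_rb8033094a_d43_d4a3b00v1_2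

theorem g__wQ_26_wN_1_rb8033094a_d43_d4a3b00v1_0 : GoodKC AS k_wQ_26_wN_1_rb8033094a_d43_d4a3b00v1_0 := p_wQ_26_wN_1_rb8033094a_d43_d4a3b00v1_0 g__wQ_26_wN_1_rb8033094a_d43_d4a3b00v1_1

theorem g_wQ_26_wN_1_rb8033094a_d43_d4a3b00x1 : GoodKC AS c_wQ_26_wN_1_rb8033094a_d43_d4a3b00x1 := p_wQ_26_wN_1_rb8033094a_d43_d4a3b00x1 g__wQ_26_wN_1_rb8033094a_d43_d4a3b00v1_0

theorem g_wQ_26_wN_1_rb8033094a_d43_d4a3b06x1 : GoodKC AS c_wQ_26_wN_1_rb8033094a_d43_d4a3b06x1 := p_wQ_26_wN_1_rb8033094a_d43_d4a3b06x1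

theorem g_wQ_26_wN_1_rb8033094a_d43_d4a3b07x1 : GoodKC AS c_wQ_26_wN_1_rb8033094a_d43_d4a3b07x1 := p_wQ_26_wN_1_rb8033094a_d43_d4a3b07x1

theorem g_wQ_26_wN_1_rb8033094a_d43_d4a3b08x1 : GoodKC AS c_wQ_26_wN_1_rb8033094a_d43_d4a3b08x1 := p_wQ_26_wN_1_rb8033094a_d43_d4a3b08x1

theorem g_wQ_26_wN_1_rb8033094a_d43_d4a3b0dx1 : GoodKC AS c_wQ_26_wN_1_rb8033094a_d43_d4a3b0dx1 := p_wQ_26_wN_1_rb8033094a_d43_d4a3b0dx1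

theorem g__wQ_26_wN_1_rb8033094a_d43_d4a3bx1_10 : GoodKC AS k_wQ_26_wN_1_rb8033094a_d43_d4a3bx1_10 := p_wQ_26_wN_1_rb8033094a_d43_d4a3bx1_10

theorem g__wQ_26_wN_1_rb8033094a_d43_d4a3bx1_11 : GoodKC AS k_wQ_26_wN_1_rb8033094a_d43_d4a3bx1_11 := p_wQ_26_wN_1_rb8033094a_d43_d4a3bx1_11

theorem g__wQ_26_wN_1_rb8033094a_d43_d4a3bx1_13 : GoodKC AS k_wQ_26_wN_1_rb8033094a_d43_d4a3bx1_13 := p_wQ_26_wN_1_rb8033094a_d43_d4a3bx1_13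

theorem g__wQ_26_wN_1_rb8033094a_d43_d4a3bx1_12 : GoodKC AS k_wQ_26_wN_1_rb8033094a_d43_d4a3bx1_12 := p_wQ_26_wN_1_rb8033094a_d43_d4a3bx1_12 g__wQ_26_wN_1_rb8033094a_d43_d4a3bx1_13

theorem g__wQ_26_wN_1_rb8033094a_d43_d4a3b10v1_0 : GoodKC AS k_wQ_26_wN_1_rb8033094a_d43_d4a3b10v1_0 := p_wQ_26_wN_1_rb8033094a_d43_d4a3b10v1_0

theorem g_wQ_26_wN_1_rb8033094a_d43_d4a3b10x1 : GoodKC AS c_wQ_26_wN_1_rb8033094a_d43_d4a3b10x1 := p_wQ_26_wN_1_rb8033094a_d43_d4a3b10x1 g__wQ_26_wN_1_rb8033094a_d43_d4a3b10v1_0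

theorem g_wQ_26_wN_1_rb8033094a_d43_d4a3b12x1 : GoodKC AS c_wQ_26_wN_1_rb8033094a_d43_d4a3b12x1 := p_wQ_26_wN_1_rb8033094a_d43_d4a3b12x1

theorem g_wQ_26_wN_1_rb8033094a_d43_d4a3b15x1 : GoodKC AS c_wQ_26_wN_1_rb8033094a_d43_d4a3b15x1 := p_wQ_26_wN_1_rb8033094a_d43_d4a3b15x1

theorem g__wQ_26_wN_1_rb8033094a_d43_d4a3b16x1_5 : GoodKC AS k_wQ_26_wN_1_rb8033094a_d43_d4a3b16x1_5 := p_wQ_26_wN_1_rb8033094a_d43_d4a3b16x1_5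

theorem g__wQ_26_wN_1_rb8033094a_d43_d4a3b16x1_4 : GoodKC AS k_wQ_26_wN_1_rb8033094a_d43_d4a3b16x1_4 := p_wQ_26_wN_1_rb8033094a_d43_d4a3b16x1_4 g__wQ_26_wN_1_rb8033094a_d43_d4a3b16x1_5

theorem g__wQ_26_wN_1_rb8033094a_d43_d4a3b16x1_3 : GoodKC AS k_wQ_26_wN_1_rb8033094a_d43_d4a3b16x1_3 := p_wQ_26_wN_1_rb8033094a_d43_d4a3b16x1_3 g__wQ_26_wN_1_rb8033094a_d43_d4a3b16x1_4

theorem g__wQ_26_wN_1_rb8033094a_d43_d4a3b16x1_2 : GoodKC AS k_wQ_26_wN_1_rb8033094a_d43_d4a3b16x1_2 := p_wQ_26_wN_1_rb8033094a_d43_d4a3b16x1_2 g__wQ_26_wN_1_rb8033094a_d43_d4a3b16x1_3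

theorem g__wQ_26_wN_1_rb8033094a_d43_d4a3b16x1_7 : GoodKC AS k_wQ_26_wN_1_rb8033094a_d43_d4a3b16x1_7 := p_wQ_26_wN_1_rb8033094a_d43_d4a3b16x1_7

theorem g__wQ_26_wN_1_rb8033094a_d43_d4a3b16x1_6 : GoodKC AS k_wQ_26_wN_1_rb8033094a_d43_d4a3b16x1_6 := p_wQ_26_wN_1_rb8033094a_d43_d4a3b16x1_6 g__wQ_26_wN_1_rb8033094a_d43_d4a3b16x1_7

theorem g__wQ_26_wN_1_rb8033094a_d43_d4a3b16x1_1 : GoodKC AS k_wQ_26_wN_1_rb8033094a_d43_d4a3b16x1_1 := p_wQ_26_wN_1_rb8033094a_d43_d4a3b16x1_1 g__wQ_26_wN_1_rb8033094a_d43_d4a3b16x1_2 g__wQ_26_wN_1_rb8033094a_d43_d4a3b16x1_6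

theorem g__wQ_26_wN_1_rb8033094a_d43_d4a3b16x1_0 : GoodKC AS k_wQ_26_wN_1_rb8033094a_d43_d4a3b16x1_0 := p_wQ_26_wN_1_rb8033094a_d43_d4a3b16x1_0 g__wQ_26_wN_1_rb8033094a_d43_d4a3b16x1_1

theorem g_wQ_26_wN_1_rb8033094a_d43_d4a3b16x1 : GoodKC AS c_wQ_26_wN_1_rb8033094a_d43_d4a3b16x1 := p_wQ_26_wN_1_rb8033094a_d43_d4a3b16x1 g__wQ_26_wN_1_rb8033094a_d43_d4a3b16x1_0

theorem g__wQ_26_wN_1_rb8033094a_d43_d4a3b17x1_2 : GoodKC AS k_wQ_26_wN_1_rb8033094a_d43_d4a3b17x1_2 := p_wQ_26_wN_1_rb8033094a_d43_d4a3b17x1_2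

theorem g__wQ_26_wN_1_rb8033094a_d43_d4a3b17x1_1 : GoodKC AS k_wQ_26_wN_1_rb8033094a_d43_d4a3b17x1_1 := p_wQ_26_wN_1_rb8033094a_d43_d4a3b17x1_1 g__wQ_26_wN_1_rb8033094a_d43_d4a3b17x1_2

theorem g__wQ_26_wN_1_rb8033094a_d43_d4a3b17x1_0 : GoodKC AS k_wQ_26_wN_1_rb8033094a_d43_d4a3b17x1_0 := p_wQ_26_wN_1_rb8033094a_d43_d4a3b17x1_0 g__wQ_26_wN_1_rb8033094a_d43_d4a3b17x1_1

theorem g_wQ_26_wN_1_rb8033094a_d43_d4a3b17x1 : GoodKC AS c_wQ_26_wN_1_rb8033094a_d43_d4a3b17x1 := p_wQ_26_wN_1_rb8033094a_d43_d4a3b17x1 g__wQ_26_wN_1_rb8033094a_d43_d4a3b17x1_0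

theorem g_wQ_26_wN_1_rb8033094a_d43_d4a3b19x1 : GoodKC AS c_wQ_26_wN_1_rb8033094a_d43_d4a3b19x1 := p_wQ_26_wN_1_rb8033094a_d43_d4a3b19x1

theorem g_wQ_26_wN_1_rb8033094a_d43_d4a3b1ax1 : GoodKC AS c_wQ_26_wN_1_rb8033094a_d43_d4a3b1ax1 := p_wQ_26_wN_1_rb8033094a_d43_d4a3b1ax1

theorem g_wQ_26_wN_1_rb8033094a_d43_d4a3bx8 : GoodKC AS c_wQ_26_wN_1_rb8033094a_d43_d4a3bx8 := p_wQ_26_wN_1_rb8033094a_d43_d4a3bx1 g_wQ_26_wN_1_rb8033094a_d43_d4a3b18x1 g_wQ_26_wN_1_rb8033094a_d43_d4a3b14x1 g_wQ_26_wN_1_rb8033094a_d43_d4a3b13x1 g_wQ_26_wN_1_rb8033094a_d43_d4a3b11x1 g__wQ_26_wN_1_rb8033094a_d43_d4a3bx1_0 g__wQ_26_wN_1_rb8033094a_d43_d4a3bx1_9 g_wQ_26_wN_1_rb8033094a_d43_d4a3b0fx1 g_wQ_26_wN_1_rb8033094a_d43_d4a3b0ex1 g_wQ_26_wN_1_rb8033094a_d43_d4a3b0cx1 g_wQ_26_wN_1_rb8033094a_d43_d4a3b0bx1 g_wQ_26_wN_1_rb8033094a_d43_d4a3b0ax1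 g_wQ_26_wN_1_rb8033094a_d43_d4a3b09x1 g_wQ_26_wN_1_rb8033094a_d43_d4a3b05x1 g_wQ_26_wN_1_rb8033094a_d43_d4a3b04x1 g_wQ_26_wN_1_rb8033094a_d43_d4a3b03x1 g_wQ_26_wN_1_rb8033094a_d43_d4a3b02x1 g_wQ_26_wN_1_rb8033094a_d43_d4a3b01x1 g_wQ_26_wN_1_rb8033094a_d43_d4a3b00x1 g_wQ_26_wN_1_rb8033094a_d43_d4a3b06x1 g_wQ_26_wN_1_rb8033094a_d43_d4a3b07x1 g_wQ_26_wN_1_rb8033094a_d43_d4a3b08x1 g_wQ_26_wN_1_rb8033094a_d43_d4a3b0dx1 g__wQ_26_wN_1_rb8033094a_d43_d4a3bx1_10 g__wQ_26_wN_1_rb8033094a_d43_d4a3bx1_11 g__wQ_26_wN_1_rb8033094a_d43_d4a3bx1_12 g_wQ_26_wN_1_rb8033094a_d43_d4a3b10x1 g_wQ_26_wN_1_rb8033094a_d43_d4a3b12x1 g_wQ_26_wN_1_rb8033094a_d43_d4a3b15x1 g_wQ_26_wN_1_rb8033094a_d43_d4a3b16x1 g_wQ_26_wN_1_rb8033094a_d43_d4a3b17x1 g_wQ_26_wN_1_rb8033094a_d43_d4a3b19x1 g_wQ_26_wN_1_rb8033094a_d43_d4a3b1ax1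

theorem g__wQ_26_wN_1_rb8033094a_d43_d4a38x3_0 : GoodKC AS k_wQ_26_wN_1_rb8033094a_d43_d4a38x3_0 := p_wQ_26_wN_1_rb8033094a_d43_d4a38x3_0

theorem g_wQ_26_wN_1_rb8033094a_d43_d4a38x8 : GoodKC AS c_wQ_26_wN_1_rb8033094a_d43_d4a38x8 := p_wQ_26_wN_1_rb8033094a_d43_d4a38x3 g__wQ_26_wN_1_rb8033094a_d43_d4a38x3_0

theorem g_wQ_26_wN_1_rb8033094a_d43_d4a37x8 : GoodKC AS c_wQ_26_wN_1_rb8033094a_d43_d4a37x8 := p_wQ_26_wN_1_rb8033094a_d43_d4a37x3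

theorem g_wQ_26_wN_1_rb8033094a_d43_d4a36x8 : GoodKC AS c_wQ_26_wN_1_rb8033094a_d43_d4a36x8 := p_wQ_26_wN_1_rb8033094a_d43_d4a36x3

theorem g_wQ_26_wN_1_rb8033094a_d43_d4a3414x1 : GoodKC AS c_wQ_26_wN_1_rb8033094a_d43_d4a3414x1 := p_wQ_26_wN_1_rb8033094a_d43_d4a3414x1

theorem g_wQ_26_wN_1_rb8033094a_d43_d4a3413x1 : GoodKC AS c_wQ_26_wN_1_rb8033094a_d43_d4a3413x1 := p_wQ_26_wN_1_rb8033094a_d43_d4a3413x1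

theorem g_wQ_26_wN_1_rb8033094a_d43_d4a3412x1 : GoodKC AS c_wQ_26_wN_1_rb8033094a_d43_d4a3412x1 := p_wQ_26_wN_1_rb8033094a_d43_d4a3412x1

theorem g__wQ_26_wN_1_rb8033094a_d43_d4a3411x1_2 : GoodKC AS k_wQ_26_wN_1_rb8033094a_d43_d4a3411x1_2 := p_wQ_26_wN_1_rb8033094a_d43_d4a3411x1_2

theorem g__wQ_26_wN_1_rb8033094a_d43_d4a3411x1_4 : GoodKC AS k_wQ_26_wN_1_rb8033094a_d43_d4a3411x1_4 := p_wQ_26_wN_1_rb8033094a_d43_d4a3411x1_4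

theorem g__wQ_26_wN_1_rb8033094a_d43_d4a3411x1_3 : GoodKC AS k_wQ_26_wN_1_rb8033094a_d43_d4a3411x1_3 := p_wQ_26_wN_1_rb8033094a_d43_d4a3411x1_3 g__wQ_26_wN_1_rb8033094a_d43_d4a3411x1_4

theorem g__wQ_26_wN_1_rb8033094a_d43_d4a3411x1_1 : GoodKC AS k_wQ_26_wN_1_rb8033094a_d43_d4a3411x1_1 := p_wQ_26_wN_1_rb8033094a_d43_d4a3411x1_1 g__wQ_26_wN_1_rb8033094a_d43_d4a3411x1_2 g__wQ_26_wN_1_rb8033094a_d43_d4a3411x1_3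

theorem g__wQ_26_wN_1_rb8033094a_d43_d4a3411x1_6 : GoodKC AS k_wQ_26_wN_1_rb8033094a_d43_d4a3411x1_6 := p_wQ_26_wN_1_rb8033094a_d43_d4a3411x1_6

theorem g__wQ_26_wN_1_rb8033094a_d43_d4a3411x1_5 : GoodKC AS k_wQ_26_wN_1_rb8033094a_d43_d4a3411x1_5 := p_wQ_26_wN_1_rb8033094a_d43_d4a3411x1_5 g__wQ_26_wN_1_rb8033094a_d43_d4a3411x1_6

theorem g__wQ_26_wN_1_rb8033094a_d43_d4a3411x1_0 : GoodKC AS k_wQ_26_wN_1_rb8033094a_d43_d4a3411x1_0 := p_wQ_26_wN_1_rb8033094a_d43_d4a3411x1_0 g__wQ_26_wN_1_rb8033094a_d43_d4a3411x1_1 g__wQ_26_wN_1_rb8033094a_d43_d4a3411x1_5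

theorem g__wQ_26_wN_1_rb8033094a_d43_d4a3411x1_7 : GoodKC AS k_wQ_26_wN_1_rb8033094a_d43_d4a3411x1_7 := p_wQ_26_wN_1_rb8033094a_d43_d4a3411x1_7

theorem g__wQ_26_wN_1_rb8033094a_d43_d4a3411x1_8 : GoodKC AS k_wQ_26_wN_1_rb8033094a_d43_d4a3411x1_8 := p_wQ_26_wN_1_rb8033094a_d43_d4a3411x1_8

theorem g_wQ_26_wN_1_rb8033094a_d43_d4a3411x1 : GoodKC AS c_wQ_26_wN_1_rb8033094a_d43_d4a3411x1 := p_wQ_26_wN_1_rb8033094a_d43_d4a3411x1 g__wQ_26_wN_1_rb8033094a_d43_d4a3411x1_0 g__wQ_26_wN_1_rb8033094a_d43_d4a3411x1_7 g__wQ_26_wN_1_rb8033094a_d43_d4a3411x1_8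

theorem g_wQ_26_wN_1_rb8033094a_d43_d4a3410x1 : GoodKC AS c_wQ_26_wN_1_rb8033094a_d43_d4a3410x1 := p_wQ_26_wN_1_rb8033094a_d43_d4a3410x1

theorem g__wQ_26_wN_1_rb8033094a_d43_d4a340fx1_1 : GoodKC AS k_wQ_26_wN_1_rb8033094a_d43_d4a340fx1_1 := p_wQ_26_wN_1_rb8033094a_d43_d4a340fx1_1

theorem g__wQ_26_wN_1_rb8033094a_d43_d4a340fx1_2 : GoodKC AS k_wQ_26_wN_1_rb8033094a_d43_d4a340fx1_2 := p_wQ_26_wN_1_rb8033094a_d43_d4a340fx1_2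

theorem g__wQ_26_wN_1_rb8033094a_d43_d4a340fx1_7 : GoodKC AS k_wQ_26_wN_1_rb8033094a_d43_d4a340fx1_7 := p_wQ_26_wN_1_rb8033094a_d43_d4a340fx1_7

theorem g__wQ_26_wN_1_rb8033094a_d43_d4a340fx1_6 : GoodKC AS k_wQ_26_wN_1_rb8033094a_d43_d4a340fx1_6 := p_wQ_26_wN_1_rb8033094a_d43_d4a340fx1_6 g__wQ_26_wN_1_rb8033094a_d43_d4a340fx1_7

theorem g__wQ_26_wN_1_rb8033094a_d43_d4a340fx1_8 : GoodKC AS k_wQ_26_wN_1_rb8033094a_d43_d4a340fx1_8 := p_wQ_26_wN_1_rb8033094a_d43_d4a340fx1_8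

theorem g__wQ_26_wN_1_rb8033094a_d43_d4a340fx1_5 : GoodKC AS k_wQ_26_wN_1_rb8033094a_d43_d4a340fx1_5 := p_wQ_26_wN_1_rb8033094a_d43_d4a340fx1_5 g__wQ_26_wN_1_rb8033094a_d43_d4a340fx1_6 g__wQ_26_wN_1_rb8033094a_d43_d4a340fx1_8

theorem g__wQ_26_wN_1_rb8033094a_d43_d4a340fx1_4 : GoodKC AS k_wQ_26_wN_1_rb8033094a_d43_d4a340fx1_4 := p_wQ_26_wN_1_rb8033094a_d43_d4a340fx1_4 g__wQ_26_wN_1_rb8033094a_d43_d4a340fx1_5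

theorem g__wQ_26_wN_1_rb8033094a_d43_d4a340fx1_3 : GoodKC AS k_wQ_26_wN_1_rb8033094a_d43_d4a340fx1_3 := p_wQ_26_wN_1_rb8033094a_d43_d4a340fx1_3 g__wQ_26_wN_1_rb8033094a_d43_d4a340fx1_4

theorem g__wQ_26_wN_1_rb8033094a_d43_d4a340fx1_0 : GoodKC AS k_wQ_26_wN_1_rb8033094a_d43_d4a340fx1_0 := p_wQ_26_wN_1_rb8033094a_d43_d4a340fx1_0 g__wQ_26_wN_1_rb8033094a_d43_d4a340fx1_1 g__wQ_26_wN_1_rb8033094a_d43_d4a340fx1_2 g__wQ_26_wN_1_rb8033094a_d43_d4a340fx1_3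

theorem g_wQ_26_wN_1_rb8033094a_d43_d4a340fx1 : GoodKC AS c_wQ_26_wN_1_rb8033094a_d43_d4a340fx1 := p_wQ_26_wN_1_rb8033094a_d43_d4a340fx1 g__wQ_26_wN_1_rb8033094a_d43_d4a340fx1_0

theorem g_wQ_26_wN_1_rb8033094a_d43_d4a340ex1 : GoodKC AS c_wQ_26_wN_1_rb8033094a_d43_d4a340ex1 := p_wQ_26_wN_1_rb8033094a_d43_d4a340ex1

theorem g_wQ_26_wN_1_rb8033094a_d43_d4a340dx1 : GoodKC AS c_wQ_26_wN_1_rb8033094a_d43_d4a340dx1 := p_wQ_26_wN_1_rb8033094a_d43_d4a340dx1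

theorem g_wQ_26_wN_1_rb8033094a_d43_d4a340cx1 : GoodKC AS c_wQ_26_wN_1_rb8033094a_d43_d4a340cx1 := p_wQ_26_wN_1_rb8033094a_d43_d4a340cx1

theorem g_wQ_26_wN_1_rb8033094a_d43_d4a340bx1 : GoodKC AS c_wQ_26_wN_1_rb8033094a_d43_d4a340bx1 := p_wQ_26_wN_1_rb8033094a_d43_d4a340bx1

theorem g_wQ_26_wN_1_rb8033094a_d43_d4a3408x1 : GoodKC AS c_wQ_26_wN_1_rb8033094a_d43_d4a3408x1 := p_wQ_26_wN_1_rb8033094a_d43_d4a3408x1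

theorem g_wQ_26_wN_1_rb8033094a_d43_d4a3407x1 : GoodKC AS c_wQ_26_wN_1_rb8033094a_d43_d4a3407x1 := p_wQ_26_wN_1_rb8033094a_d43_d4a3407x1

theorem g_wQ_26_wN_1_rb8033094a_d43_d4a3406x1 : GoodKC AS c_wQ_26_wN_1_rb8033094a_d43_d4a3406x1 := p_wQ_26_wN_1_rb8033094a_d43_d4a3406x1

theorem g_wQ_26_wN_1_rb8033094a_d43_d4a3405x1 : GoodKC AS c_wQ_26_wN_1_rb8033094a_d43_d4a3405x1 := p_wQ_26_wN_1_rb8033094a_d43_d4a3405x1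

theorem g__wQ_26_wN_1_rb8033094a_d43_d4a34x1_0 : GoodKC AS k_wQ_26_wN_1_rb8033094a_d43_d4a34x1_0 := p_wQ_26_wN_1_rb8033094a_d43_d4a34x1_0

theorem g_wQ_26_wN_1_rb8033094a_d43_d4a3404x1 : GoodKC AS c_wQ_26_wN_1_rb8033094a_d43_d4a3404x1 := p_wQ_26_wN_1_rb8033094a_d43_d4a3404x1

theorem g_wQ_26_wN_1_rb8033094a_d43_d4a3403x1 : GoodKC AS c_wQ_26_wN_1_rb8033094a_d43_d4a3403x1 := p_wQ_26_wN_1_rb8033094a_d43_d4a3403x1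

theorem g_wQ_26_wN_1_rb8033094a_d43_d4a3402x1 : GoodKC AS c_wQ_26_wN_1_rb8033094a_d43_d4a3402x1 := p_wQ_26_wN_1_rb8033094a_d43_d4a3402x1

theorem g_wQ_26_wN_1_rb8033094a_d43_d4a3401x1 : GoodKC AS c_wQ_26_wN_1_rb8033094a_d43_d4a3401x1 := p_wQ_26_wN_1_rb8033094a_d43_d4a3401x1

theorem g_wQ_26_wN_1_rb8033094a_d43_d4a3400x1 : GoodKC AS c_wQ_26_wN_1_rb8033094a_d43_d4a3400x1 := p_wQ_26_wN_1_rb8033094a_d43_d4a3400x1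

theorem g_wQ_26_wN_1_rb8033094a_d43_d4a3409x1 : GoodKC AS c_wQ_26_wN_1_rb8033094a_d43_d4a3409x1 := p_wQ_26_wN_1_rb8033094a_d43_d4a3409x1

theorem g_wQ_26_wN_1_rb8033094a_d43_d4a340ax1 : GoodKC AS c_wQ_26_wN_1_rb8033094a_d43_d4a340ax1 := p_wQ_26_wN_1_rb8033094a_d43_d4a340ax1

theorem g__wQ_26_wN_1_rb8033094a_d43_d4a34x1_3 : GoodKC AS k_wQ_26_wN_1_rb8033094a_d43_d4a34x1_3 := p_wQ_26_wN_1_rb8033094a_d43_d4a34x1_3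

theorem g__wQ_26_wN_1_rb8033094a_d43_d4a34x1_5 : GoodKC AS k_wQ_26_wN_1_rb8033094a_d43_d4a34x1_5 := p_wQ_26_wN_1_rb8033094a_d43_d4a34x1_5

theorem g__wQ_26_wN_1_rb8033094a_d43_d4a34x1_7 : GoodKC AS k_wQ_26_wN_1_rb8033094a_d43_d4a34x1_7 := p_wQ_26_wN_1_rb8033094a_d43_d4a34x1_7

theorem g__wQ_26_wN_1_rb8033094a_d43_d4a34x1_6 : GoodKC AS k_wQ_26_wN_1_rb8033094a_d43_d4a34x1_6 := p_wQ_26_wN_1_rb8033094a_d43_d4a34x1_6 g__wQ_26_wN_1_rb8033094a_d43_d4a34x1_7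

theorem g__wQ_26_wN_1_rb8033094a_d43_d4a34x1_4 : GoodKC AS k_wQ_26_wN_1_rb8033094a_d43_d4a34x1_4 := p_wQ_26_wN_1_rb8033094a_d43_d4a34x1_4 g__wQ_26_wN_1_rb8033094a_d43_d4a34x1_5 g__wQ_26_wN_1_rb8033094a_d43_d4a34x1_6

theorem g__wQ_26_wN_1_rb8033094a_d43_d4a34x1_2 : GoodKC AS k_wQ_26_wN_1_rb8033094a_d43_d4a34x1_2 := p_wQ_26_wN_1_rb8033094a_d43_d4a34x1_2 g__wQ_26_wN_1_rb8033094a_d43_d4a34x1_3 g__wQ_26_wN_1_rb8033094a_d43_d4a34x1_4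

theorem g__wQ_26_wN_1_rb8033094a_d43_d4a34x1_10 : GoodKC AS k_wQ_26_wN_1_rb8033094a_d43_d4a34x1_10 := p_wQ_26_wN_1_rb8033094a_d43_d4a34x1_10

theorem g__wQ_26_wN_1_rb8033094a_d43_d4a34x1_12 : GoodKC AS k_wQ_26_wN_1_rb8033094a_d43_d4a34x1_12 := p_wQ_26_wN_1_rb8033094a_d43_d4a34x1_12

theorem g__wQ_26_wN_1_rb8033094a_d43_d4a34x1_11 : GoodKC AS k_wQ_26_wN_1_rb8033094a_d43_d4a34x1_11 := p_wQ_26_wN_1_rb8033094a_d43_d4a34x1_11 g__wQ_26_wN_1_rb8033094a_d43_d4a34x1_12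

theorem g__wQ_26_wN_1_rb8033094a_d43_d4a34x1_9 : GoodKC AS k_wQ_26_wN_1_rb8033094a_d43_d4a34x1_9 := p_wQ_26_wN_1_rb8033094a_d43_d4a34x1_9 g__wQ_26_wN_1_rb8033094a_d43_d4a34x1_10 g__wQ_26_wN_1_rb8033094a_d43_d4a34x1_11

theorem g__wQ_26_wN_1_rb8033094a_d43_d4a34x1_19 : GoodKC AS k_wQ_26_wN_1_rb8033094a_d43_d4a34x1_19 := p_wQ_26_wN_1_rb8033094a_d43_d4a34x1_19

theorem g__wQ_26_wN_1_rb8033094a_d43_d4a34x1_18 : GoodKC AS k_wQ_26_wN_1_rb8033094a_d43_d4a34x1_18 := p_wQ_26_wN_1_rb8033094a_d43_d4a34x1_18 g__wQ_26_wN_1_rb8033094a_d43_d4a34x1_19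

theorem g__wQ_26_wN_1_rb8033094a_d43_d4a34x1_17 : GoodKC AS k_wQ_26_wN_1_rb8033094a_d43_d4a34x1_17 := p_wQ_26_wN_1_rb8033094a_d43_d4a34x1_17 g__wQ_26_wN_1_rb8033094a_d43_d4a34x1_18

theorem g__wQ_26_wN_1_rb8033094a_d43_d4a34x1_22 : GoodKC AS k_wQ_26_wN_1_rb8033094a_d43_d4a34x1_22 := p_wQ_26_wN_1_rb8033094a_d43_d4a34x1_22

theorem g__wQ_26_wN_1_rb8033094a_d43_d4a34x1_21 : GoodKC AS k_wQ_26_wN_1_rb8033094a_d43_d4a34x1_21 := p_wQ_26_wN_1_rb8033094a_d43_d4a34x1_21 g__wQ_26_wN_1_rb8033094a_d43_d4a34x1_22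

theorem g__wQ_26_wN_1_rb8033094a_d43_d4a34x1_20 : GoodKC AS k_wQ_26_wN_1_rb8033094a_d43_d4a34x1_20 := p_wQ_26_wN_1_rb8033094a_d43_d4a34x1_20 g__wQ_26_wN_1_rb8033094a_d43_d4a34x1_21

theorem g__wQ_26_wN_1_rb8033094a_d43_d4a34x1_16 : GoodKC AS k_wQ_26_wN_1_rb8033094a_d43_d4a34x1_16 := p_wQ_26_wN_1_rb8033094a_d43_d4a34x1_16 g__wQ_26_wN_1_rb8033094a_d43_d4a34x1_17 g__wQ_26_wN_1_rb8033094a_d43_d4a34x1_20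

theorem g__wQ_26_wN_1_rb8033094a_d43_d4a34x1_15 : GoodKC AS k_wQ_26_wN_1_rb8033094a_d43_d4a34x1_15 := p_wQ_26_wN_1_rb8033094a_d43_d4a34x1_15 g__wQ_26_wN_1_rb8033094a_d43_d4a34x1_16

theorem g__wQ_26_wN_1_rb8033094a_d43_d4a34x1_14 : GoodKC AS k_wQ_26_wN_1_rb8033094a_d43_d4a34x1_14 := p_wQ_26_wN_1_rb8033094a_d43_d4a34x1_14 g__wQ_26_wN_1_rb8033094a_d43_d4a34x1_15

theorem g__wQ_26_wN_1_rb8033094a_d43_d4a34x1_13 : GoodKC AS k_wQ_26_wN_1_rb8033094a_d43_d4a34x1_13 := p_wQ_26_wN_1_rb8033094a_d43_d4a34x1_13 g__wQ_26_wN_1_rb8033094a_d43_d4a34x1_14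

theorem g__wQ_26_wN_1_rb8033094a_d43_d4a34x1_26 : GoodKC AS k_wQ_26_wN_1_rb8033094a_d43_d4a34x1_26 := p_wQ_26_wN_1_rb8033094a_d43_d4a34x1_26

theorem g__wQ_26_wN_1_rb8033094a_d43_d4a34x1_25 : GoodKC AS k_wQ_26_wN_1_rb8033094a_d43_d4a34x1_25 := p_wQ_26_wN_1_rb8033094a_d43_d4a34x1_25 g__wQ_26_wN_1_rb8033094a_d43_d4a34x1_26

theorem g__wQ_26_wN_1_rb8033094a_d43_d4a34x1_24 : GoodKC AS k_wQ_26_wN_1_rb8033094a_d43_d4a34x1_24 := p_wQ_26_wN_1_rb8033094a_d43_d4a34x1_24 g__wQ_26_wN_1_rb8033094a_d43_d4a34x1_25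

theorem g__wQ_26_wN_1_rb8033094a_d43_d4a34x1_23 : GoodKC AS k_wQ_26_wN_1_rb8033094a_d43_d4a34x1_23 := p_wQ_26_wN_1_rb8033094a_d43_d4a34x1_23 g__wQ_26_wN_1_rb8033094a_d43_d4a34x1_24

theorem g__wQ_26_wN_1_rb8033094a_d43_d4a34x1_8 : GoodKC AS k_wQ_26_wN_1_rb8033094a_d43_d4a34x1_8 := p_wQ_26_wN_1_rb8033094a_d43_d4a34x1_8 g__wQ_26_wN_1_rb8033094a_d43_d4a34x1_9 g__wQ_26_wN_1_rb8033094a_d43_d4a34x1_13 g__wQ_26_wN_1_rb8033094a_d43_d4a34x1_23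

theorem g__wQ_26_wN_1_rb8033094a_d43_d4a34x1_1 : GoodKC AS k_wQ_26_wN_1_rb8033094a_d43_d4a34x1_1 := p_wQ_26_wN_1_rb8033094a_d43_d4a34x1_1 g__wQ_26_wN_1_rb8033094a_d43_d4a34x1_2 g__wQ_26_wN_1_rb8033094a_d43_d4a34x1_8

theorem g_wQ_26_wN_1_rb8033094a_d43_d4a34x8 : GoodKC AS c_wQ_26_wN_1_rb8033094a_d43_d4a34x8 := p_wQ_26_wN_1_rb8033094a_d43_d4a34x1 g_wQ_26_wN_1_rb8033094a_d43_d4a3414x1 g_wQ_26_wN_1_rb8033094a_d43_d4a3413x1 g_wQ_26_wN_1_rb8033094a_d43_d4a3412x1 g_wQ_26_wN_1_rb8033094a_d43_d4a3411x1 g_wQ_26_wN_1_rb8033094a_d43_d4a3410x1 g_wQ_26_wN_1_rb8033094a_d43_d4a340fx1 g_wQ_26_wN_1_rb8033094a_d43_d4a340ex1 g_wQ_26_wN_1_rb8033094a_d43_d4a340dx1 g_wQ_26_wN_1_rb8033094a_d43_d4a340cx1 g_wQ_26_wN_1_rb8033094a_d43_d4a340bx1 g_wQ_26_wN_1_rb8033094a_d43_d4a3408x1 g_wQ_26_wN_1_rb8033094a_d43_d4a3407x1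 g_wQ_26_wN_1_rb8033094a_d43_d4a3406x1 g_wQ_26_wN_1_rb8033094a_d43_d4a3405x1 g__wQ_26_wN_1_rb8033094a_d43_d4a34x1_0 g_wQ_26_wN_1_rb8033094a_d43_d4a3404x1 g_wQ_26_wN_1_rb8033094a_d43_d4a3403x1 g_wQ_26_wN_1_rb8033094a_d43_d4a3402x1 g_wQ_26_wN_1_rb8033094a_d43_d4a3401x1 g_wQ_26_wN_1_rb8033094a_d43_d4a3400x1 g_wQ_26_wN_1_rb8033094a_d43_d4a3409x1 g_wQ_26_wN_1_rb8033094a_d43_d4a340ax1 g__wQ_26_wN_1_rb8033094a_d43_d4a34x1_1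

theorem g_wQ_26_wN_1_rb8033094a_d43_d4a30x8 : GoodKC AS c_wQ_26_wN_1_rb8033094a_d43_d4a30x8 := p_wQ_26_wN_1_rb8033094a_d43_d4a30x3

theorem g__wQ_26_wN_1_rb8033094a_d43_d4a2fx3_0 : GoodKC AS k_wQ_26_wN_1_rb8033094a_d43_d4a2fx3_0 := p_wQ_26_wN_1_rb8033094a_d43_d4a2fx3_0

theorem g_wQ_26_wN_1_rb8033094a_d43_d4a2fx8 : GoodKC AS c_wQ_26_wN_1_rb8033094a_d43_d4a2fx8 := p_wQ_26_wN_1_rb8033094a_d43_d4a2fx3 g__wQ_26_wN_1_rb8033094a_d43_d4a2fx3_0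

theorem g_wQ_26_wN_1_rb8033094a_d43_d4a2ex8 : GoodKC AS c_wQ_26_wN_1_rb8033094a_d43_d4a2ex8 := p_wQ_26_wN_1_rb8033094a_d43_d4a2ex3

theorem g_wQ_26_wN_1_rb8033094a_d43_d4a2dx8 : GoodKC AS c_wQ_26_wN_1_rb8033094a_d43_d4a2dx8 := p_wQ_26_wN_1_rb8033094a_d43_d4a2dx3

theorem g__wQ_26_wN_1_rb8033094a_d43_d4a2cx3_1 : GoodKC AS k_wQ_26_wN_1_rb8033094a_d43_d4a2cx3_1 := p_wQ_26_wN_1_rb8033094a_d43_d4a2cx3_1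

theorem g__wQ_26_wN_1_rb8033094a_d43_d4a2cx3_0 : GoodKC AS k_wQ_26_wN_1_rb8033094a_d43_d4a2cx3_0 := p_wQ_26_wN_1_rb8033094a_d43_d4a2cx3_0 g__wQ_26_wN_1_rb8033094a_d43_d4a2cx3_1

theorem g_wQ_26_wN_1_rb8033094a_d43_d4a2cx8 : GoodKC AS c_wQ_26_wN_1_rb8033094a_d43_d4a2cx8 := p_wQ_26_wN_1_rb8033094a_d43_d4a2cx3 g__wQ_26_wN_1_rb8033094a_d43_d4a2cx3_0

theorem g_wQ_26_wN_1_rb8033094a_d43_d4a2bx8 : GoodKC AS c_wQ_26_wN_1_rb8033094a_d43_d4a2bx8 := p_wQ_26_wN_1_rb8033094a_d43_d4a2bx3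

theorem g__wQ_26_wN_1_rb8033094a_d43_d4a29x3_0 : GoodKC AS k_wQ_26_wN_1_rb8033094a_d43_d4a29x3_0 := p_wQ_26_wN_1_rb8033094a_d43_d4a29x3_0

theorem g__wQ_26_wN_1_rb8033094a_d43_d4a29x3_1 : GoodKC AS k_wQ_26_wN_1_rb8033094a_d43_d4a29x3_1 := p_wQ_26_wN_1_rb8033094a_d43_d4a29x3_1

theorem g_wQ_26_wN_1_rb8033094a_d43_d4a29x8 : GoodKC AS c_wQ_26_wN_1_rb8033094a_d43_d4a29x8 := p_wQ_26_wN_1_rb8033094a_d43_d4a29x3 g__wQ_26_wN_1_rb8033094a_d43_d4a29x3_0 g__wQ_26_wN_1_rb8033094a_d43_d4a29x3_1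

theorem g_wQ_26_wN_1_rb8033094a_d43_d4a28x8 : GoodKC AS c_wQ_26_wN_1_rb8033094a_d43_d4a28x8 := p_wQ_26_wN_1_rb8033094a_d43_d4a28x2

theorem g_wQ_26_wN_1_rb8033094a_d43_d4a27x8 : GoodKC AS c_wQ_26_wN_1_rb8033094a_d43_d4a27x8 := p_wQ_26_wN_1_rb8033094a_d43_d4a27x3

theorem g_wQ_26_wN_1_rb8033094a_d43_d4a26x8 : GoodKC AS c_wQ_26_wN_1_rb8033094a_d43_d4a26x8 := p_wQ_26_wN_1_rb8033094a_d43_d4a26x3

theorem g_wQ_26_wN_1_rb8033094a_d43_d4a25x8 : GoodKC AS c_wQ_26_wN_1_rb8033094a_d43_d4a25x8 := p_wQ_26_wN_1_rb8033094a_d43_d4a25x3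

theorem g_wQ_26_wN_1_rb8033094a_d43_d4a24x8 : GoodKC AS c_wQ_26_wN_1_rb8033094a_d43_d4a24x8 := p_wQ_26_wN_1_rb8033094a_d43_d4a24x3

theorem g_wQ_26_wN_1_rb8033094a_d43_d4a23x8 : GoodKC AS c_wQ_26_wN_1_rb8033094a_d43_d4a23x8 := p_wQ_26_wN_1_rb8033094a_d43_d4a23x3

theorem g_wQ_26_wN_1_rb8033094a_d43_d4a1ex8 : GoodKC AS c_wQ_26_wN_1_rb8033094a_d43_d4a1ex8 := p_wQ_26_wN_1_rb8033094a_d43_d4a1ex3

theorem g_wQ_26_wN_1_rb8033094a_d43_d4a1dx8 : GoodKC AS c_wQ_26_wN_1_rb8033094a_d43_d4a1dx8 := p_wQ_26_wN_1_rb8033094a_d43_d4a1dx3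

theorem g_wQ_26_wN_1_rb8033094a_d43_d4a1cx8 : GoodKC AS c_wQ_26_wN_1_rb8033094a_d43_d4a1cx8 := p_wQ_26_wN_1_rb8033094a_d43_d4a1cx3

theorem g_wQ_26_wN_1_rb8033094a_d43_d4a1bx8 : GoodKC AS c_wQ_26_wN_1_rb8033094a_d43_d4a1bx8 := p_wQ_26_wN_1_rb8033094a_d43_d4a1bx3

theorem g__wQ_26_wN_1_rb8033094a_d43_d4a19x2_2 : GoodKC AS k_wQ_26_wN_1_rb8033094a_d43_d4a19x2_2 := p_wQ_26_wN_1_rb8033094a_d43_d4a19x2_2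

theorem g__wQ_26_wN_1_rb8033094a_d43_d4a19x2_1 : GoodKC AS k_wQ_26_wN_1_rb8033094a_d43_d4a19x2_1 := p_wQ_26_wN_1_rb8033094a_d43_d4a19x2_1 g__wQ_26_wN_1_rb8033094a_d43_d4a19x2_2

theorem g__wQ_26_wN_1_rb8033094a_d43_d4a19x2_4 : GoodKC AS k_wQ_26_wN_1_rb8033094a_d43_d4a19x2_4 := p_wQ_26_wN_1_rb8033094a_d43_d4a19x2_4

theorem g__wQ_26_wN_1_rb8033094a_d43_d4a19x2_3 : GoodKC AS k_wQ_26_wN_1_rb8033094a_d43_d4a19x2_3 := p_wQ_26_wN_1_rb8033094a_d43_d4a19x2_3 g__wQ_26_wN_1_rb8033094a_d43_d4a19x2_4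

theorem g__wQ_26_wN_1_rb8033094a_d43_d4a19x2_6 : GoodKC AS k_wQ_26_wN_1_rb8033094a_d43_d4a19x2_6 := p_wQ_26_wN_1_rb8033094a_d43_d4a19x2_6

theorem g__wQ_26_wN_1_rb8033094a_d43_d4a19x2_5 : GoodKC AS k_wQ_26_wN_1_rb8033094a_d43_d4a19x2_5 := p_wQ_26_wN_1_rb8033094a_d43_d4a19x2_5 g__wQ_26_wN_1_rb8033094a_d43_d4a19x2_6

theorem g__wQ_26_wN_1_rb8033094a_d43_d4a19x2_0 : GoodKC AS k_wQ_26_wN_1_rb8033094a_d43_d4a19x2_0 := p_wQ_26_wN_1_rb8033094a_d43_d4a19x2_0 g__wQ_26_wN_1_rb8033094a_d43_d4a19x2_1 g__wQ_26_wN_1_rb8033094a_d43_d4a19x2_3 g__wQ_26_wN_1_rb8033094a_d43_d4a19x2_5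

theorem g_wQ_26_wN_1_rb8033094a_d43_d4a19x8 : GoodKC AS c_wQ_26_wN_1_rb8033094a_d43_d4a19x8 := p_wQ_26_wN_1_rb8033094a_d43_d4a19x2 g__wQ_26_wN_1_rb8033094a_d43_d4a19x2_0

theorem g_wQ_26_wN_1_rb8033094a_d43_d4a18x8 : GoodKC AS c_wQ_26_wN_1_rb8033094a_d43_d4a18x8 := p_wQ_26_wN_1_rb8033094a_d43_d4a18x3

theorem g_wQ_26_wN_1_rb8033094a_d43_d4a17x8 : GoodKC AS c_wQ_26_wN_1_rb8033094a_d43_d4a17x8 := p_wQ_26_wN_1_rb8033094a_d43_d4a17x3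

theorem g_wQ_26_wN_1_rb8033094a_d43_d4a16x8 : GoodKC AS c_wQ_26_wN_1_rb8033094a_d43_d4a16x8 := p_wQ_26_wN_1_rb8033094a_d43_d4a16x3

theorem g_wQ_26_wN_1_rb8033094a_d43_d4a14x8 : GoodKC AS c_wQ_26_wN_1_rb8033094a_d43_d4a14x8 := p_wQ_26_wN_1_rb8033094a_d43_d4a14x3

theorem g_wQ_26_wN_1_rb8033094a_d43_d4a132fx2 : GoodKC AS c_wQ_26_wN_1_rb8033094a_d43_d4a132fx2 := p_wQ_26_wN_1_rb8033094a_d43_d4a132fx1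

theorem g_wQ_26_wN_1_rb8033094a_d43_d4a132ex2 : GoodKC AS c_wQ_26_wN_1_rb8033094a_d43_d4a132ex2 := p_wQ_26_wN_1_rb8033094a_d43_d4a132ex1

theorem g_wQ_26_wN_1_rb8033094a_d43_d4a132bx2 : GoodKC AS c_wQ_26_wN_1_rb8033094a_d43_d4a132bx2 := p_wQ_26_wN_1_rb8033094a_d43_d4a132bx1

theorem g_wQ_26_wN_1_rb8033094a_d43_d4a132ax2 : GoodKC AS c_wQ_26_wN_1_rb8033094a_d43_d4a132ax2 := p_wQ_26_wN_1_rb8033094a_d43_d4a132ax1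

theorem g_wQ_26_wN_1_rb8033094a_d43_d4a1328x2 : GoodKC AS c_wQ_26_wN_1_rb8033094a_d43_d4a1328x2 := p_wQ_26_wN_1_rb8033094a_d43_d4a1328x1

theorem g_wQ_26_wN_1_rb8033094a_d43_d4a1327x2 : GoodKC AS c_wQ_26_wN_1_rb8033094a_d43_d4a1327x2 := p_wQ_26_wN_1_rb8033094a_d43_d4a1327x1

theorem g_wQ_26_wN_1_rb8033094a_d43_d4a1325x2 : GoodKC AS c_wQ_26_wN_1_rb8033094a_d43_d4a1325x2 := p_wQ_26_wN_1_rb8033094a_d43_d4a1325x1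

theorem g_wQ_26_wN_1_rb8033094a_d43_d4a1323x2 : GoodKC AS c_wQ_26_wN_1_rb8033094a_d43_d4a1323x2 := p_wQ_26_wN_1_rb8033094a_d43_d4a1323x1

theorem g_wQ_26_wN_1_rb8033094a_d43_d4a1321x2 : GoodKC AS c_wQ_26_wN_1_rb8033094a_d43_d4a1321x2 := p_wQ_26_wN_1_rb8033094a_d43_d4a1321x1

theorem g_wQ_26_wN_1_rb8033094a_d43_d4a1320x2 : GoodKC AS c_wQ_26_wN_1_rb8033094a_d43_d4a1320x2 := p_wQ_26_wN_1_rb8033094a_d43_d4a1320x1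

theorem g_wQ_26_wN_1_rb8033094a_d43_d4a131ex2 : GoodKC AS c_wQ_26_wN_1_rb8033094a_d43_d4a131ex2 := p_wQ_26_wN_1_rb8033094a_d43_d4a131ex1

theorem g_wQ_26_wN_1_rb8033094a_d43_d4a131dx2 : GoodKC AS c_wQ_26_wN_1_rb8033094a_d43_d4a131dx2 := p_wQ_26_wN_1_rb8033094a_d43_d4a131dx1

theorem g__wQ_26_wN_1_rb8033094a_d43_d4a131cx1_0 : GoodKC AS k_wQ_26_wN_1_rb8033094a_d43_d4a131cx1_0 := p_wQ_26_wN_1_rb8033094a_d43_d4a131cx1_0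

theorem g_wQ_26_wN_1_rb8033094a_d43_d4a131cx2 : GoodKC AS c_wQ_26_wN_1_rb8033094a_d43_d4a131cx2 := p_wQ_26_wN_1_rb8033094a_d43_d4a131cx1 g__wQ_26_wN_1_rb8033094a_d43_d4a131cx1_0

theorem g_wQ_26_wN_1_rb8033094a_d43_d4a131ax2 : GoodKC AS c_wQ_26_wN_1_rb8033094a_d43_d4a131ax2 := p_wQ_26_wN_1_rb8033094a_d43_d4a131ax1

theorem g_wQ_26_wN_1_rb8033094a_d43_d4a1317x2 : GoodKC AS c_wQ_26_wN_1_rb8033094a_d43_d4a1317x2 := p_wQ_26_wN_1_rb8033094a_d43_d4a1317x1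

theorem g_wQ_26_wN_1_rb8033094a_d43_d4a1315x2 : GoodKC AS c_wQ_26_wN_1_rb8033094a_d43_d4a1315x2 := p_wQ_26_wN_1_rb8033094a_d43_d4a1315x1

theorem g_wQ_26_wN_1_rb8033094a_d43_d4a1314x2 : GoodKC AS c_wQ_26_wN_1_rb8033094a_d43_d4a1314x2 := p_wQ_26_wN_1_rb8033094a_d43_d4a1314x1

theorem g_wQ_26_wN_1_rb8033094a_d43_d4a1313x2 : GoodKC AS c_wQ_26_wN_1_rb8033094a_d43_d4a1313x2 := p_wQ_26_wN_1_rb8033094a_d43_d4a1313x1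

theorem g_wQ_26_wN_1_rb8033094a_d43_d4a1312x2 : GoodKC AS c_wQ_26_wN_1_rb8033094a_d43_d4a1312x2 := p_wQ_26_wN_1_rb8033094a_d43_d4a1312x1

theorem g__wQ_26_wN_1_rb8033094a_d43_d4a1311x1_0 : GoodKC AS k_wQ_26_wN_1_rb8033094a_d43_d4a1311x1_0 := p_wQ_26_wN_1_rb8033094a_d43_d4a1311x1_0

theorem g_wQ_26_wN_1_rb8033094a_d43_d4a1311x2 : GoodKC AS c_wQ_26_wN_1_rb8033094a_d43_d4a1311x2 := p_wQ_26_wN_1_rb8033094a_d43_d4a1311x1 g__wQ_26_wN_1_rb8033094a_d43_d4a1311x1_0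

theorem g_wQ_26_wN_1_rb8033094a_d43_d4a130ex2 : GoodKC AS c_wQ_26_wN_1_rb8033094a_d43_d4a130ex2 := p_wQ_26_wN_1_rb8033094a_d43_d4a130ex1

theorem g_wQ_26_wN_1_rb8033094a_d43_d4a1308x2 : GoodKC AS c_wQ_26_wN_1_rb8033094a_d43_d4a1308x2 := p_wQ_26_wN_1_rb8033094a_d43_d4a1308x1

theorem g_wQ_26_wN_1_rb8033094a_d43_d4a1305x2 : GoodKC AS c_wQ_26_wN_1_rb8033094a_d43_d4a1305x2 := p_wQ_26_wN_1_rb8033094a_d43_d4a1305x1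

theorem g_wQ_26_wN_1_rb8033094a_d43_d4a1304x2 : GoodKC AS c_wQ_26_wN_1_rb8033094a_d43_d4a1304x2 := p_wQ_26_wN_1_rb8033094a_d43_d4a1304x1

theorem g_wQ_26_wN_1_rb8033094a_d43_d4a1302x2 : GoodKC AS c_wQ_26_wN_1_rb8033094a_d43_d4a1302x2 := p_wQ_26_wN_1_rb8033094a_d43_d4a1302x1

theorem g_wQ_26_wN_1_rb8033094a_d43_d4a1301x2 : GoodKC AS c_wQ_26_wN_1_rb8033094a_d43_d4a1301x2 := p_wQ_26_wN_1_rb8033094a_d43_d4a1301x1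

theorem g_wQ_26_wN_1_rb8033094a_d43_d4a1300x2 : GoodKC AS c_wQ_26_wN_1_rb8033094a_d43_d4a1300x2 := p_wQ_26_wN_1_rb8033094a_d43_d4a1300x1

theorem g__wQ_26_wN_1_rb8033094a_d43_d4a13x2_1 : GoodKC AS k_wQ_26_wN_1_rb8033094a_d43_d4a13x2_1 := p_wQ_26_wN_1_rb8033094a_d43_d4a13x2_1

theorem g__wQ_26_wN_1_rb8033094a_d43_d4a13x2_2 : GoodKC AS k_wQ_26_wN_1_rb8033094a_d43_d4a13x2_2 := p_wQ_26_wN_1_rb8033094a_d43_d4a13x2_2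

theorem g__wQ_26_wN_1_rb8033094a_d43_d4a13x2_3 : GoodKC AS k_wQ_26_wN_1_rb8033094a_d43_d4a13x2_3 := p_wQ_26_wN_1_rb8033094a_d43_d4a13x2_3

theorem g__wQ_26_wN_1_rb8033094a_d43_d4a13x2_0 : GoodKC AS k_wQ_26_wN_1_rb8033094a_d43_d4a13x2_0 := p_wQ_26_wN_1_rb8033094a_d43_d4a13x2_0 g__wQ_26_wN_1_rb8033094a_d43_d4a13x2_1 g__wQ_26_wN_1_rb8033094a_d43_d4a13x2_2 g__wQ_26_wN_1_rb8033094a_d43_d4a13x2_3

theorem g_wQ_26_wN_1_rb8033094a_d43_d4a1303x2 : GoodKC AS c_wQ_26_wN_1_rb8033094a_d43_d4a1303x2 := p_wQ_26_wN_1_rb8033094a_d43_d4a1303x1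

theorem g_wQ_26_wN_1_rb8033094a_d43_d4a1306x2 : GoodKC AS c_wQ_26_wN_1_rb8033094a_d43_d4a1306x2 := p_wQ_26_wN_1_rb8033094a_d43_d4a1306x1

theorem g_wQ_26_wN_1_rb8033094a_d43_d4a1307x2 : GoodKC AS c_wQ_26_wN_1_rb8033094a_d43_d4a1307x2 := p_wQ_26_wN_1_rb8033094a_d43_d4a1307x1

theorem g_wQ_26_wN_1_rb8033094a_d43_d4a1309x2 : GoodKC AS c_wQ_26_wN_1_rb8033094a_d43_d4a1309x2 := p_wQ_26_wN_1_rb8033094a_d43_d4a1309x1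

theorem g_wQ_26_wN_1_rb8033094a_d43_d4a130ax2 : GoodKC AS c_wQ_26_wN_1_rb8033094a_d43_d4a130ax2 := p_wQ_26_wN_1_rb8033094a_d43_d4a130ax1

theorem g_wQ_26_wN_1_rb8033094a_d43_d4a130bx2 : GoodKC AS c_wQ_26_wN_1_rb8033094a_d43_d4a130bx2 := p_wQ_26_wN_1_rb8033094a_d43_d4a130bx1

theorem g_wQ_26_wN_1_rb8033094a_d43_d4a130cx2 : GoodKC AS c_wQ_26_wN_1_rb8033094a_d43_d4a130cx2 := p_wQ_26_wN_1_rb8033094a_d43_d4a130cx1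

theorem g_wQ_26_wN_1_rb8033094a_d43_d4a130dx2 : GoodKC AS c_wQ_26_wN_1_rb8033094a_d43_d4a130dx2 := p_wQ_26_wN_1_rb8033094a_d43_d4a130dx1

theorem g_wQ_26_wN_1_rb8033094a_d43_d4a130fx2 : GoodKC AS c_wQ_26_wN_1_rb8033094a_d43_d4a130fx2 := p_wQ_26_wN_1_rb8033094a_d43_d4a130fx1

theorem g_wQ_26_wN_1_rb8033094a_d43_d4a1310x2 : GoodKC AS c_wQ_26_wN_1_rb8033094a_d43_d4a1310x2 := p_wQ_26_wN_1_rb8033094a_d43_d4a1310x1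

theorem g_wQ_26_wN_1_rb8033094a_d43_d4a1316x2 : GoodKC AS c_wQ_26_wN_1_rb8033094a_d43_d4a1316x2 := p_wQ_26_wN_1_rb8033094a_d43_d4a1316x1

theorem g_wQ_26_wN_1_rb8033094a_d43_d4a1318x2 : GoodKC AS c_wQ_26_wN_1_rb8033094a_d43_d4a1318x2 := p_wQ_26_wN_1_rb8033094a_d43_d4a1318x1

theorem g_wQ_26_wN_1_rb8033094a_d43_d4a1319x2 : GoodKC AS c_wQ_26_wN_1_rb8033094a_d43_d4a1319x2 := p_wQ_26_wN_1_rb8033094a_d43_d4a1319x1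

theorem g_wQ_26_wN_1_rb8033094a_d43_d4a131bx2 : GoodKC AS c_wQ_26_wN_1_rb8033094a_d43_d4a131bx2 := p_wQ_26_wN_1_rb8033094a_d43_d4a131bx1

theorem g_wQ_26_wN_1_rb8033094a_d43_d4a131fx2 : GoodKC AS c_wQ_26_wN_1_rb8033094a_d43_d4a131fx2 := p_wQ_26_wN_1_rb8033094a_d43_d4a131fx1

theorem g_wQ_26_wN_1_rb8033094a_d43_d4a1322x2 : GoodKC AS c_wQ_26_wN_1_rb8033094a_d43_d4a1322x2 := p_wQ_26_wN_1_rb8033094a_d43_d4a1322x1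

theorem g_wQ_26_wN_1_rb8033094a_d43_d4a1324x2 : GoodKC AS c_wQ_26_wN_1_rb8033094a_d43_d4a1324x2 := p_wQ_26_wN_1_rb8033094a_d43_d4a1324x1

theorem g_wQ_26_wN_1_rb8033094a_d43_d4a1326x2 : GoodKC AS c_wQ_26_wN_1_rb8033094a_d43_d4a1326x2 := p_wQ_26_wN_1_rb8033094a_d43_d4a1326x1

theorem g_wQ_26_wN_1_rb8033094a_d43_d4a1329x2 : GoodKC AS c_wQ_26_wN_1_rb8033094a_d43_d4a1329x2 := p_wQ_26_wN_1_rb8033094a_d43_d4a1329x1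

theorem g_wQ_26_wN_1_rb8033094a_d43_d4a132cx2 : GoodKC AS c_wQ_26_wN_1_rb8033094a_d43_d4a132cx2 := p_wQ_26_wN_1_rb8033094a_d43_d4a132cx1

theorem g_wQ_26_wN_1_rb8033094a_d43_d4a132dx2 : GoodKC AS c_wQ_26_wN_1_rb8033094a_d43_d4a132dx2 := p_wQ_26_wN_1_rb8033094a_d43_d4a132dx1

theorem g_wQ_26_wN_1_rb8033094a_d43_d4a13x8 : GoodKC AS c_wQ_26_wN_1_rb8033094a_d43_d4a13x8 := p_wQ_26_wN_1_rb8033094a_d43_d4a13x2 g_wQ_26_wN_1_rb8033094a_d43_d4a132fx2 g_wQ_26_wN_1_rb8033094a_d43_d4a132ex2 g_wQ_26_wN_1_rb8033094a_d43_d4a132bx2 g_wQ_26_wN_1_rb8033094a_d43_d4a132ax2 g_wQ_26_wN_1_rb8033094a_d43_d4a1328x2 g_wQ_26_wN_1_rb8033094a_d43_d4a1327x2 g_wQ_26_wN_1_rb8033094a_d43_d4a1325x2 g_wQ_26_wN_1_rb8033094a_d43_d4a1323x2 g_wQ_26_wN_1_rb8033094a_d43_d4a1321x2 g_wQ_26_wN_1_rb8033094a_d43_d4a1320x2 g_wQ_26_wN_1_rb8033094a_d43_d4a131ex2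 g_wQ_26_wN_1_rb8033094a_d43_d4a131dx2 g_wQ_26_wN_1_rb8033094a_d43_d4a131cx2 g_wQ_26_wN_1_rb8033094a_d43_d4a131ax2 g_wQ_26_wN_1_rb8033094a_d43_d4a1317x2 g_wQ_26_wN_1_rb8033094a_d43_d4a1315x2 g_wQ_26_wN_1_rb8033094a_d43_d4a1314x2 g_wQ_26_wN_1_rb8033094a_d43_d4a1313x2 g_wQ_26_wN_1_rb8033094a_d43_d4a1312x2 g_wQ_26_wN_1_rb8033094a_d43_d4a1311x2 g_wQ_26_wN_1_rb8033094a_d43_d4a130ex2 g_wQ_26_wN_1_rb8033094a_d43_d4a1308x2 g_wQ_26_wN_1_rb8033094a_d43_d4a1305x2 g_wQ_26_wN_1_rb8033094a_d43_d4a1304x2 g_wQ_26_wN_1_rb8033094a_d43_d4a1302x2 g_wQ_26_wN_1_rb8033094a_d43_d4a1301x2 g_wQ_26_wN_1_rb8033094a_d43_d4a1300x2 g__wQ_26_wN_1_rb8033094a_d43_d4a13x2_0 g_wQ_26_wN_1_rb8033094a_d43_d4a1303x2 g_wQ_26_wN_1_rb8033094a_d43_d4a1306x2 g_wQ_26_wN_1_rb8033094a_d43_d4a1307x2 g_wQ_26_wN_1_rb8033094a_d43_d4a1309x2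 g_wQ_26_wN_1_rb8033094a_d43_d4a130ax2 g_wQ_26_wN_1_rb8033094a_d43_d4a130bx2 g_wQ_26_wN_1_rb8033094a_d43_d4a130cx2 g_wQ_26_wN_1_rb8033094a_d43_d4a130dx2 g_wQ_26_wN_1_rb8033094a_d43_d4a130fx2 g_wQ_26_wN_1_rb8033094a_d43_d4a1310x2 g_wQ_26_wN_1_rb8033094a_d43_d4a1316x2 g_wQ_26_wN_1_rb8033094a_d43_d4a1318x2 g_wQ_26_wN_1_rb8033094a_d43_d4a1319x2 g_wQ_26_wN_1_rb8033094a_d43_d4a131bx2 g_wQ_26_wN_1_rb8033094a_d43_d4a131fx2 g_wQ_26_wN_1_rb8033094a_d43_d4a1322x2 g_wQ_26_wN_1_rb8033094a_d43_d4a1324x2 g_wQ_26_wN_1_rb8033094a_d43_d4a1326x2 g_wQ_26_wN_1_rb8033094a_d43_d4a1329x2 g_wQ_26_wN_1_rb8033094a_d43_d4a132cx2 g_wQ_26_wN_1_rb8033094a_d43_d4a132dx2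

theorem g_wQ_26_wN_1_rb8033094a_d43_d4a12x8 : GoodKC AS c_wQ_26_wN_1_rb8033094a_d43_d4a12x8 := p_wQ_26_wN_1_rb8033094a_d43_d4a12x3

theorem g_wQ_26_wN_1_rb8033094a_d43_d4a11x8 : GoodKC AS c_wQ_26_wN_1_rb8033094a_d43_d4a11x8 := p_wQ_26_wN_1_rb8033094a_d43_d4a11x3

theorem g_wQ_26_wN_1_rb8033094a_d43_d4a0fx8 : GoodKC AS c_wQ_26_wN_1_rb8033094a_d43_d4a0fx8 := p_wQ_26_wN_1_rb8033094a_d43_d4a0fx3

theorem g_wQ_26_wN_1_rb8033094a_d43_d4a0dx8 : GoodKC AS c_wQ_26_wN_1_rb8033094a_d43_d4a0dx8 := p_wQ_26_wN_1_rb8033094a_d43_d4a0dx3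

theorem g_wQ_26_wN_1_rb8033094a_d43_d4a07x8 : GoodKC AS c_wQ_26_wN_1_rb8033094a_d43_d4a07x8 := p_wQ_26_wN_1_rb8033094a_d43_d4a07x3

theorem g_wQ_26_wN_1_rb8033094a_d43_d4a06x8 : GoodKC AS c_wQ_26_wN_1_rb8033094a_d43_d4a06x8 := p_wQ_26_wN_1_rb8033094a_d43_d4a06x3

theorem g_wQ_26_wN_1_rb8033094a_d43_d4a04x8 : GoodKC AS c_wQ_26_wN_1_rb8033094a_d43_d4a04x8 := p_wQ_26_wN_1_rb8033094a_d43_d4a04x3

theorem g_wQ_26_wN_1_rb8033094a_d43_d4a02x8 : GoodKC AS c_wQ_26_wN_1_rb8033094a_d43_d4a02x8 := p_wQ_26_wN_1_rb8033094a_d43_d4a02x3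

theorem g_wQ_26_wN_1_rb8033094a_d43_d4a01x8 : GoodKC AS c_wQ_26_wN_1_rb8033094a_d43_d4a01x8 := p_wQ_26_wN_1_rb8033094a_d43_d4a01x3

theorem g_wQ_26_wN_1_rb8033094a_d43_d4a00x8 : GoodKC AS c_wQ_26_wN_1_rb8033094a_d43_d4a00x8 := p_wQ_26_wN_1_rb8033094a_d43_d4a00x3

theorem g__wQ_26_wN_1_rb8033094a_d43_d4a03x3_1 : GoodKC AS k_wQ_26_wN_1_rb8033094a_d43_d4a03x3_1 := p_wQ_26_wN_1_rb8033094a_d43_d4a03x3_1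

theorem g__wQ_26_wN_1_rb8033094a_d43_d4a03x3_0 : GoodKC AS k_wQ_26_wN_1_rb8033094a_d43_d4a03x3_0 := p_wQ_26_wN_1_rb8033094a_d43_d4a03x3_0 g__wQ_26_wN_1_rb8033094a_d43_d4a03x3_1

theorem g_wQ_26_wN_1_rb8033094a_d43_d4a03x8 : GoodKC AS c_wQ_26_wN_1_rb8033094a_d43_d4a03x8 := p_wQ_26_wN_1_rb8033094a_d43_d4a03x3 g__wQ_26_wN_1_rb8033094a_d43_d4a03x3_0

theorem g_wQ_26_wN_1_rb8033094a_d43_d4a05x8 : GoodKC AS c_wQ_26_wN_1_rb8033094a_d43_d4a05x8 := p_wQ_26_wN_1_rb8033094a_d43_d4a05x3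

theorem g__wQ_26_wN_1_rb8033094a_d43_d4a08x3_2 : GoodKC AS k_wQ_26_wN_1_rb8033094a_d43_d4a08x3_2 := p_wQ_26_wN_1_rb8033094a_d43_d4a08x3_2

theorem g__wQ_26_wN_1_rb8033094a_d43_d4a08x3_3 : GoodKC AS k_wQ_26_wN_1_rb8033094a_d43_d4a08x3_3 := p_wQ_26_wN_1_rb8033094a_d43_d4a08x3_3

theorem g__wQ_26_wN_1_rb8033094a_d43_d4a08x3_1 : GoodKC AS k_wQ_26_wN_1_rb8033094a_d43_d4a08x3_1 := p_wQ_26_wN_1_rb8033094a_d43_d4a08x3_1 g__wQ_26_wN_1_rb8033094a_d43_d4a08x3_2 g__wQ_26_wN_1_rb8033094a_d43_d4a08x3_3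

theorem g__wQ_26_wN_1_rb8033094a_d43_d4a08x3_0 : GoodKC AS k_wQ_26_wN_1_rb8033094a_d43_d4a08x3_0 := p_wQ_26_wN_1_rb8033094a_d43_d4a08x3_0 g__wQ_26_wN_1_rb8033094a_d43_d4a08x3_1

theorem g_wQ_26_wN_1_rb8033094a_d43_d4a08x8 : GoodKC AS c_wQ_26_wN_1_rb8033094a_d43_d4a08x8 := p_wQ_26_wN_1_rb8033094a_d43_d4a08x3 g__wQ_26_wN_1_rb8033094a_d43_d4a08x3_0

theorem g_wQ_26_wN_1_rb8033094a_d43_d4a09x8 : GoodKC AS c_wQ_26_wN_1_rb8033094a_d43_d4a09x8 := p_wQ_26_wN_1_rb8033094a_d43_d4a09x3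

theorem g_wQ_26_wN_1_rb8033094a_d43_d4a0ax8 : GoodKC AS c_wQ_26_wN_1_rb8033094a_d43_d4a0ax8 := p_wQ_26_wN_1_rb8033094a_d43_d4a0ax3

theorem g_wQ_26_wN_1_rb8033094a_d43_d4a0bx8 : GoodKC AS c_wQ_26_wN_1_rb8033094a_d43_d4a0bx8 := p_wQ_26_wN_1_rb8033094a_d43_d4a0bx3

theorem g__wQ_26_wN_1_rb8033094a_d43_d4ax8_0 : GoodKC AS k_wQ_26_wN_1_rb8033094a_d43_d4ax8_0 := p_wQ_26_wN_1_rb8033094a_d43_d4ax8_0

theorem g__wQ_26_wN_1_rb8033094a_d43_d4ax8_2 : GoodKC AS k_wQ_26_wN_1_rb8033094a_d43_d4ax8_2 := p_wQ_26_wN_1_rb8033094a_d43_d4ax8_2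

theorem g__wQ_26_wN_1_rb8033094a_d43_d4ax8_7 : GoodKC AS k_wQ_26_wN_1_rb8033094a_d43_d4ax8_7 := p_wQ_26_wN_1_rb8033094a_d43_d4ax8_7

theorem g__wQ_26_wN_1_rb8033094a_d43_d4ax8_9 : GoodKC AS k_wQ_26_wN_1_rb8033094a_d43_d4ax8_9 := p_wQ_26_wN_1_rb8033094a_d43_d4ax8_9

theorem g__wQ_26_wN_1_rb8033094a_d43_d4ax8_8 : GoodKC AS k_wQ_26_wN_1_rb8033094a_d43_d4ax8_8 := p_wQ_26_wN_1_rb8033094a_d43_d4ax8_8 g__wQ_26_wN_1_rb8033094a_d43_d4ax8_9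

theorem g__wQ_26_wN_1_rb8033094a_d43_d4ax8_10 : GoodKC AS k_wQ_26_wN_1_rb8033094a_d43_d4ax8_10 := p_wQ_26_wN_1_rb8033094a_d43_d4ax8_10

theorem g__wQ_26_wN_1_rb8033094a_d43_d4ax8_6 : GoodKC AS k_wQ_26_wN_1_rb8033094a_d43_d4ax8_6 := p_wQ_26_wN_1_rb8033094a_d43_d4ax8_6 g__wQ_26_wN_1_rb8033094a_d43_d4ax8_7 g__wQ_26_wN_1_rb8033094a_d43_d4ax8_8 g__wQ_26_wN_1_rb8033094a_d43_d4ax8_10

theorem g__wQ_26_wN_1_rb8033094a_d43_d4ax8_5 : GoodKC AS k_wQ_26_wN_1_rb8033094a_d43_d4ax8_5 := p_wQ_26_wN_1_rb8033094a_d43_d4ax8_5 g__wQ_26_wN_1_rb8033094a_d43_d4ax8_6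

theorem g__wQ_26_wN_1_rb8033094a_d43_d4ax8_12 : GoodKC AS k_wQ_26_wN_1_rb8033094a_d43_d4ax8_12 := p_wQ_26_wN_1_rb8033094a_d43_d4ax8_12

theorem g__wQ_26_wN_1_rb8033094a_d43_d4ax8_18 : GoodKC AS k_wQ_26_wN_1_rb8033094a_d43_d4ax8_18 := p_wQ_26_wN_1_rb8033094a_d43_d4ax8_18

theorem g__wQ_26_wN_1_rb8033094a_d43_d4ax8_21 : GoodKC AS k_wQ_26_wN_1_rb8033094a_d43_d4ax8_21 := p_wQ_26_wN_1_rb8033094a_d43_d4ax8_21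

theorem g__wQ_26_wN_1_rb8033094a_d43_d4ax8_22 : GoodKC AS k_wQ_26_wN_1_rb8033094a_d43_d4ax8_22 := p_wQ_26_wN_1_rb8033094a_d43_d4ax8_22

theorem g__wQ_26_wN_1_rb8033094a_d43_d4ax8_20 : GoodKC AS k_wQ_26_wN_1_rb8033094a_d43_d4ax8_20 := p_wQ_26_wN_1_rb8033094a_d43_d4ax8_20 g__wQ_26_wN_1_rb8033094a_d43_d4ax8_21 g__wQ_26_wN_1_rb8033094a_d43_d4ax8_22

theorem g__wQ_26_wN_1_rb8033094a_d43_d4ax8_23 : GoodKC AS k_wQ_26_wN_1_rb8033094a_d43_d4ax8_23 := p_wQ_26_wN_1_rb8033094a_d43_d4ax8_23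

theorem g__wQ_26_wN_1_rb8033094a_d43_d4ax8_19 : GoodKC AS k_wQ_26_wN_1_rb8033094a_d43_d4ax8_19 := p_wQ_26_wN_1_rb8033094a_d43_d4ax8_19 g__wQ_26_wN_1_rb8033094a_d43_d4ax8_20 g__wQ_26_wN_1_rb8033094a_d43_d4ax8_23

theorem g__wQ_26_wN_1_rb8033094a_d43_d4ax8_17 : GoodKC AS k_wQ_26_wN_1_rb8033094a_d43_d4ax8_17 := p_wQ_26_wN_1_rb8033094a_d43_d4ax8_17 g__wQ_26_wN_1_rb8033094a_d43_d4ax8_18 g__wQ_26_wN_1_rb8033094a_d43_d4ax8_19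

theorem g__wQ_26_wN_1_rb8033094a_d43_d4ax8_16 : GoodKC AS k_wQ_26_wN_1_rb8033094a_d43_d4ax8_16 := p_wQ_26_wN_1_rb8033094a_d43_d4ax8_16 g__wQ_26_wN_1_rb8033094a_d43_d4ax8_17

theorem g__wQ_26_wN_1_rb8033094a_d43_d4ax8_15 : GoodKC AS k_wQ_26_wN_1_rb8033094a_d43_d4ax8_15 := p_wQ_26_wN_1_rb8033094a_d43_d4ax8_15 g__wQ_26_wN_1_rb8033094a_d43_d4ax8_16

theorem g__wQ_26_wN_1_rb8033094a_d43_d4ax8_14 : GoodKC AS k_wQ_26_wN_1_rb8033094a_d43_d4ax8_14 := p_wQ_26_wN_1_rb8033094a_d43_d4ax8_14 g__wQ_26_wN_1_rb8033094a_d43_d4ax8_15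

theorem g__wQ_26_wN_1_rb8033094a_d43_d4ax8_13 : GoodKC AS k_wQ_26_wN_1_rb8033094a_d43_d4ax8_13 := p_wQ_26_wN_1_rb8033094a_d43_d4ax8_13 g__wQ_26_wN_1_rb8033094a_d43_d4ax8_14

theorem g__wQ_26_wN_1_rb8033094a_d43_d4ax8_11 : GoodKC AS k_wQ_26_wN_1_rb8033094a_d43_d4ax8_11 := p_wQ_26_wN_1_rb8033094a_d43_d4ax8_11 g__wQ_26_wN_1_rb8033094a_d43_d4ax8_12 g__wQ_26_wN_1_rb8033094a_d43_d4ax8_13

theorem g__wQ_26_wN_1_rb8033094a_d43_d4ax8_4 : GoodKC AS k_wQ_26_wN_1_rb8033094a_d43_d4ax8_4 := p_wQ_26_wN_1_rb8033094a_d43_d4ax8_4 g__wQ_26_wN_1_rb8033094a_d43_d4ax8_5 g__wQ_26_wN_1_rb8033094a_d43_d4ax8_11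

theorem g__wQ_26_wN_1_rb8033094a_d43_d4ax8_3 : GoodKC AS k_wQ_26_wN_1_rb8033094a_d43_d4ax8_3 := p_wQ_26_wN_1_rb8033094a_d43_d4ax8_3 g__wQ_26_wN_1_rb8033094a_d43_d4ax8_4

theorem g__wQ_26_wN_1_rb8033094a_d43_d4ax8_1 : GoodKC AS k_wQ_26_wN_1_rb8033094a_d43_d4ax8_1 := p_wQ_26_wN_1_rb8033094a_d43_d4ax8_1 g__wQ_26_wN_1_rb8033094a_d43_d4ax8_2 g__wQ_26_wN_1_rb8033094a_d43_d4ax8_3

theorem g_wQ_26_wN_1_rb8033094a_d43_d4a0cx8 : GoodKC AS c_wQ_26_wN_1_rb8033094a_d43_d4a0cx8 := p_wQ_26_wN_1_rb8033094a_d43_d4a0cx3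

theorem g_wQ_26_wN_1_rb8033094a_d43_d4a0ex8 : GoodKC AS c_wQ_26_wN_1_rb8033094a_d43_d4a0ex8 := p_wQ_26_wN_1_rb8033094a_d43_d4a0ex3

theorem g_wQ_26_wN_1_rb8033094a_d43_d4a10x8 : GoodKC AS c_wQ_26_wN_1_rb8033094a_d43_d4a10x8 := p_wQ_26_wN_1_rb8033094a_d43_d4a10x3

theorem g_wQ_26_wN_1_rb8033094a_d43_d4a15x8 : GoodKC AS c_wQ_26_wN_1_rb8033094a_d43_d4a15x8 := p_wQ_26_wN_1_rb8033094a_d43_d4a15x3

theorem g_wQ_26_wN_1_rb8033094a_d43_d4a1ax8 : GoodKC AS c_wQ_26_wN_1_rb8033094a_d43_d4a1ax8 := p_wQ_26_wN_1_rb8033094a_d43_d4a1ax3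

theorem g_wQ_26_wN_1_rb8033094a_d43_d4a1fx8 : GoodKC AS c_wQ_26_wN_1_rb8033094a_d43_d4a1fx8 := p_wQ_26_wN_1_rb8033094a_d43_d4a1fx3

theorem g_wQ_26_wN_1_rb8033094a_d43_d4a20x8 : GoodKC AS c_wQ_26_wN_1_rb8033094a_d43_d4a20x8 := p_wQ_26_wN_1_rb8033094a_d43_d4a20x3

theorem g_wQ_26_wN_1_rb8033094a_d43_d4a2139x2 : GoodKC AS c_wQ_26_wN_1_rb8033094a_d43_d4a2139x2 := p_wQ_26_wN_1_rb8033094a_d43_d4a2139x1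

theorem g_wQ_26_wN_1_rb8033094a_d43_d4a2138x2 : GoodKC AS c_wQ_26_wN_1_rb8033094a_d43_d4a2138x2 := p_wQ_26_wN_1_rb8033094a_d43_d4a2138x1

theorem g_wQ_26_wN_1_rb8033094a_d43_d4a2136x2 : GoodKC AS c_wQ_26_wN_1_rb8033094a_d43_d4a2136x2 := p_wQ_26_wN_1_rb8033094a_d43_d4a2136x1

theorem g_wQ_26_wN_1_rb8033094a_d43_d4a2135x2 : GoodKC AS c_wQ_26_wN_1_rb8033094a_d43_d4a2135x2 := p_wQ_26_wN_1_rb8033094a_d43_d4a2135x1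

theorem g_wQ_26_wN_1_rb8033094a_d43_d4a2134x2 : GoodKC AS c_wQ_26_wN_1_rb8033094a_d43_d4a2134x2 := p_wQ_26_wN_1_rb8033094a_d43_d4a2134x1

theorem g_wQ_26_wN_1_rb8033094a_d43_d4a2133x2 : GoodKC AS c_wQ_26_wN_1_rb8033094a_d43_d4a2133x2 := p_wQ_26_wN_1_rb8033094a_d43_d4a2133x1

theorem g_wQ_26_wN_1_rb8033094a_d43_d4a2132x2 : GoodKC AS c_wQ_26_wN_1_rb8033094a_d43_d4a2132x2 := p_wQ_26_wN_1_rb8033094a_d43_d4a2132x1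

theorem g_wQ_26_wN_1_rb8033094a_d43_d4a2130x2 : GoodKC AS c_wQ_26_wN_1_rb8033094a_d43_d4a2130x2 := p_wQ_26_wN_1_rb8033094a_d43_d4a2130x1

theorem g_wQ_26_wN_1_rb8033094a_d43_d4a212fx2 : GoodKC AS c_wQ_26_wN_1_rb8033094a_d43_d4a212fx2 := p_wQ_26_wN_1_rb8033094a_d43_d4a212fx1

theorem g_wQ_26_wN_1_rb8033094a_d43_d4a212ex2 : GoodKC AS c_wQ_26_wN_1_rb8033094a_d43_d4a212ex2 := p_wQ_26_wN_1_rb8033094a_d43_d4a212ex1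

theorem g__wQ_26_wN_1_rb8033094a_d43_d4a212cx1_0 : GoodKC AS k_wQ_26_wN_1_rb8033094a_d43_d4a212cx1_0 := p_wQ_26_wN_1_rb8033094a_d43_d4a212cx1_0

theorem g_wQ_26_wN_1_rb8033094a_d43_d4a212cx2 : GoodKC AS c_wQ_26_wN_1_rb8033094a_d43_d4a212cx2 := p_wQ_26_wN_1_rb8033094a_d43_d4a212cx1 g__wQ_26_wN_1_rb8033094a_d43_d4a212cx1_0

theorem g_wQ_26_wN_1_rb8033094a_d43_d4a212ax2 : GoodKC AS c_wQ_26_wN_1_rb8033094a_d43_d4a212ax2 := p_wQ_26_wN_1_rb8033094a_d43_d4a212ax1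

theorem g_wQ_26_wN_1_rb8033094a_d43_d4a2129x2 : GoodKC AS c_wQ_26_wN_1_rb8033094a_d43_d4a2129x2 := p_wQ_26_wN_1_rb8033094a_d43_d4a2129x1

theorem g_wQ_26_wN_1_rb8033094a_d43_d4a2126x2 : GoodKC AS c_wQ_26_wN_1_rb8033094a_d43_d4a2126x2 := p_wQ_26_wN_1_rb8033094a_d43_d4a2126x1

theorem g_wQ_26_wN_1_rb8033094a_d43_d4a2125x2 : GoodKC AS c_wQ_26_wN_1_rb8033094a_d43_d4a2125x2 := p_wQ_26_wN_1_rb8033094a_d43_d4a2125x1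

theorem g_wQ_26_wN_1_rb8033094a_d43_d4a2123x2 : GoodKC AS c_wQ_26_wN_1_rb8033094a_d43_d4a2123x2 := p_wQ_26_wN_1_rb8033094a_d43_d4a2123x1

theorem g_wQ_26_wN_1_rb8033094a_d43_d4a2121x2 : GoodKC AS c_wQ_26_wN_1_rb8033094a_d43_d4a2121x2 := p_wQ_26_wN_1_rb8033094a_d43_d4a2121x1

theorem g_wQ_26_wN_1_rb8033094a_d43_d4a211ex2 : GoodKC AS c_wQ_26_wN_1_rb8033094a_d43_d4a211ex2 := p_wQ_26_wN_1_rb8033094a_d43_d4a211ex1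

theorem g_wQ_26_wN_1_rb8033094a_d43_d4a211dx2 : GoodKC AS c_wQ_26_wN_1_rb8033094a_d43_d4a211dx2 := p_wQ_26_wN_1_rb8033094a_d43_d4a211dx1

theorem g_wQ_26_wN_1_rb8033094a_d43_d4a2118x2 : GoodKC AS c_wQ_26_wN_1_rb8033094a_d43_d4a2118x2 := p_wQ_26_wN_1_rb8033094a_d43_d4a2118x1

theorem g_wQ_26_wN_1_rb8033094a_d43_d4a2117x2 : GoodKC AS c_wQ_26_wN_1_rb8033094a_d43_d4a2117x2 := p_wQ_26_wN_1_rb8033094a_d43_d4a2117x1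

theorem g_wQ_26_wN_1_rb8033094a_d43_d4a2116x2 : GoodKC AS c_wQ_26_wN_1_rb8033094a_d43_d4a2116x2 := p_wQ_26_wN_1_rb8033094a_d43_d4a2116x1

theorem g_wQ_26_wN_1_rb8033094a_d43_d4a2115x2 : GoodKC AS c_wQ_26_wN_1_rb8033094a_d43_d4a2115x2 := p_wQ_26_wN_1_rb8033094a_d43_d4a2115x1

theorem g_wQ_26_wN_1_rb8033094a_d43_d4a2114x2 : GoodKC AS c_wQ_26_wN_1_rb8033094a_d43_d4a2114x2 := p_wQ_26_wN_1_rb8033094a_d43_d4a2114x1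

theorem g_wQ_26_wN_1_rb8033094a_d43_d4a2112x2 : GoodKC AS c_wQ_26_wN_1_rb8033094a_d43_d4a2112x2 := p_wQ_26_wN_1_rb8033094a_d43_d4a2112x1

theorem g_wQ_26_wN_1_rb8033094a_d43_d4a2110x2 : GoodKC AS c_wQ_26_wN_1_rb8033094a_d43_d4a2110x2 := p_wQ_26_wN_1_rb8033094a_d43_d4a2110x1

theorem g__wQ_26_wN_1_rb8033094a_d43_d4a210fx1_0 : GoodKC AS k_wQ_26_wN_1_rb8033094a_d43_d4a210fx1_0 := p_wQ_26_wN_1_rb8033094a_d43_d4a210fx1_0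

theorem g_wQ_26_wN_1_rb8033094a_d43_d4a210fx2 : GoodKC AS c_wQ_26_wN_1_rb8033094a_d43_d4a210fx2 := p_wQ_26_wN_1_rb8033094a_d43_d4a210fx1 g__wQ_26_wN_1_rb8033094a_d43_d4a210fx1_0

theorem g_wQ_26_wN_1_rb8033094a_d43_d4a210ex2 : GoodKC AS c_wQ_26_wN_1_rb8033094a_d43_d4a210ex2 := p_wQ_26_wN_1_rb8033094a_d43_d4a210ex1

theorem g_wQ_26_wN_1_rb8033094a_d43_d4a210dx2 : GoodKC AS c_wQ_26_wN_1_rb8033094a_d43_d4a210dx2 := p_wQ_26_wN_1_rb8033094a_d43_d4a210dx1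

theorem g_wQ_26_wN_1_rb8033094a_d43_d4a210cx2 : GoodKC AS c_wQ_26_wN_1_rb8033094a_d43_d4a210cx2 := p_wQ_26_wN_1_rb8033094a_d43_d4a210cx1

theorem g_wQ_26_wN_1_rb8033094a_d43_d4a210bx2 : GoodKC AS c_wQ_26_wN_1_rb8033094a_d43_d4a210bx2 := p_wQ_26_wN_1_rb8033094a_d43_d4a210bx1

theorem g_wQ_26_wN_1_rb8033094a_d43_d4a210ax2 : GoodKC AS c_wQ_26_wN_1_rb8033094a_d43_d4a210ax2 := p_wQ_26_wN_1_rb8033094a_d43_d4a210ax1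

theorem g_wQ_26_wN_1_rb8033094a_d43_d4a2109x2 : GoodKC AS c_wQ_26_wN_1_rb8033094a_d43_d4a2109x2 := p_wQ_26_wN_1_rb8033094a_d43_d4a2109x1

theorem g_wQ_26_wN_1_rb8033094a_d43_d4a2108x2 : GoodKC AS c_wQ_26_wN_1_rb8033094a_d43_d4a2108x2 := p_wQ_26_wN_1_rb8033094a_d43_d4a2108x1

theorem g_wQ_26_wN_1_rb8033094a_d43_d4a2107x2 : GoodKC AS c_wQ_26_wN_1_rb8033094a_d43_d4a2107x2 := p_wQ_26_wN_1_rb8033094a_d43_d4a2107x1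

theorem g_wQ_26_wN_1_rb8033094a_d43_d4a2106x2 : GoodKC AS c_wQ_26_wN_1_rb8033094a_d43_d4a2106x2 := p_wQ_26_wN_1_rb8033094a_d43_d4a2106x1

theorem g_wQ_26_wN_1_rb8033094a_d43_d4a2105x2 : GoodKC AS c_wQ_26_wN_1_rb8033094a_d43_d4a2105x2 := p_wQ_26_wN_1_rb8033094a_d43_d4a2105x1

theorem g_wQ_26_wN_1_rb8033094a_d43_d4a2104x2 : GoodKC AS c_wQ_26_wN_1_rb8033094a_d43_d4a2104x2 := p_wQ_26_wN_1_rb8033094a_d43_d4a2104x1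

theorem g_wQ_26_wN_1_rb8033094a_d43_d4a2103x2 : GoodKC AS c_wQ_26_wN_1_rb8033094a_d43_d4a2103x2 := p_wQ_26_wN_1_rb8033094a_d43_d4a2103x1

theorem g_wQ_26_wN_1_rb8033094a_d43_d4a2101x2 : GoodKC AS c_wQ_26_wN_1_rb8033094a_d43_d4a2101x2 := p_wQ_26_wN_1_rb8033094a_d43_d4a2101x1

theorem g_wQ_26_wN_1_rb8033094a_d43_d4a2100x2 : GoodKC AS c_wQ_26_wN_1_rb8033094a_d43_d4a2100x2 := p_wQ_26_wN_1_rb8033094a_d43_d4a2100x1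

theorem g__wQ_26_wN_1_rb8033094a_d43_d4a21x2_1 : GoodKC AS k_wQ_26_wN_1_rb8033094a_d43_d4a21x2_1 := p_wQ_26_wN_1_rb8033094a_d43_d4a21x2_1

theorem g__wQ_26_wN_1_rb8033094a_d43_d4a21x2_0 : GoodKC AS k_wQ_26_wN_1_rb8033094a_d43_d4a21x2_0 := p_wQ_26_wN_1_rb8033094a_d43_d4a21x2_0 g__wQ_26_wN_1_rb8033094a_d43_d4a21x2_1

theorem g_wQ_26_wN_1_rb8033094a_d43_d4a2102x2 : GoodKC AS c_wQ_26_wN_1_rb8033094a_d43_d4a2102x2 := p_wQ_26_wN_1_rb8033094a_d43_d4a2102x1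

theorem g_wQ_26_wN_1_rb8033094a_d43_d4a2111x2 : GoodKC AS c_wQ_26_wN_1_rb8033094a_d43_d4a2111x2 := p_wQ_26_wN_1_rb8033094a_d43_d4a2111x1

theorem g__wQ_26_wN_1_rb8033094a_d43_d4a2113x1_0 : GoodKC AS k_wQ_26_wN_1_rb8033094a_d43_d4a2113x1_0 := p_wQ_26_wN_1_rb8033094a_d43_d4a2113x1_0

theorem g_wQ_26_wN_1_rb8033094a_d43_d4a2113x2 : GoodKC AS c_wQ_26_wN_1_rb8033094a_d43_d4a2113x2 := p_wQ_26_wN_1_rb8033094a_d43_d4a2113x1 g__wQ_26_wN_1_rb8033094a_d43_d4a2113x1_0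

theorem g__wQ_26_wN_1_rb8033094a_d43_d4a21x2_4 : GoodKC AS k_wQ_26_wN_1_rb8033094a_d43_d4a21x2_4 := p_wQ_26_wN_1_rb8033094a_d43_d4a21x2_4

theorem g__wQ_26_wN_1_rb8033094a_d43_d4a21x2_7 : GoodKC AS k_wQ_26_wN_1_rb8033094a_d43_d4a21x2_7 := p_wQ_26_wN_1_rb8033094a_d43_d4a21x2_7

theorem g__wQ_26_wN_1_rb8033094a_d43_d4a21x2_6 : GoodKC AS k_wQ_26_wN_1_rb8033094a_d43_d4a21x2_6 := p_wQ_26_wN_1_rb8033094a_d43_d4a21x2_6 g__wQ_26_wN_1_rb8033094a_d43_d4a21x2_7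

theorem g__wQ_26_wN_1_rb8033094a_d43_d4a21x2_5 : GoodKC AS k_wQ_26_wN_1_rb8033094a_d43_d4a21x2_5 := p_wQ_26_wN_1_rb8033094a_d43_d4a21x2_5 g__wQ_26_wN_1_rb8033094a_d43_d4a21x2_6

theorem g__wQ_26_wN_1_rb8033094a_d43_d4a21x2_3 : GoodKC AS k_wQ_26_wN_1_rb8033094a_d43_d4a21x2_3 := p_wQ_26_wN_1_rb8033094a_d43_d4a21x2_3 g__wQ_26_wN_1_rb8033094a_d43_d4a21x2_4 g__wQ_26_wN_1_rb8033094a_d43_d4a21x2_5

theorem g__wQ_26_wN_1_rb8033094a_d43_d4a21x2_2 : GoodKC AS k_wQ_26_wN_1_rb8033094a_d43_d4a21x2_2 := p_wQ_26_wN_1_rb8033094a_d43_d4a21x2_2 g__wQ_26_wN_1_rb8033094a_d43_d4a21x2_3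

theorem g_wQ_26_wN_1_rb8033094a_d43_d4a2119x2 : GoodKC AS c_wQ_26_wN_1_rb8033094a_d43_d4a2119x2 := p_wQ_26_wN_1_rb8033094a_d43_d4a2119x1

theorem g_wQ_26_wN_1_rb8033094a_d43_d4a211ax2 : GoodKC AS c_wQ_26_wN_1_rb8033094a_d43_d4a211ax2 := p_wQ_26_wN_1_rb8033094a_d43_d4a211ax1

theorem g_wQ_26_wN_1_rb8033094a_d43_d4a211bx2 : GoodKC AS c_wQ_26_wN_1_rb8033094a_d43_d4a211bx2 := p_wQ_26_wN_1_rb8033094a_d43_d4a211bx1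

theorem g_wQ_26_wN_1_rb8033094a_d43_d4a211cx2 : GoodKC AS c_wQ_26_wN_1_rb8033094a_d43_d4a211cx2 := p_wQ_26_wN_1_rb8033094a_d43_d4a211cx1

theorem g_wQ_26_wN_1_rb8033094a_d43_d4a211fx2 : GoodKC AS c_wQ_26_wN_1_rb8033094a_d43_d4a211fx2 := p_wQ_26_wN_1_rb8033094a_d43_d4a211fx1

theorem g_wQ_26_wN_1_rb8033094a_d43_d4a2120x2 : GoodKC AS c_wQ_26_wN_1_rb8033094a_d43_d4a2120x2 := p_wQ_26_wN_1_rb8033094a_d43_d4a2120x1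

theorem g_wQ_26_wN_1_rb8033094a_d43_d4a2122x2 : GoodKC AS c_wQ_26_wN_1_rb8033094a_d43_d4a2122x2 := p_wQ_26_wN_1_rb8033094a_d43_d4a2122x1

theorem g_wQ_26_wN_1_rb8033094a_d43_d4a2124x2 : GoodKC AS c_wQ_26_wN_1_rb8033094a_d43_d4a2124x2 := p_wQ_26_wN_1_rb8033094a_d43_d4a2124x1

theorem g_wQ_26_wN_1_rb8033094a_d43_d4a2127x2 : GoodKC AS c_wQ_26_wN_1_rb8033094a_d43_d4a2127x2 := p_wQ_26_wN_1_rb8033094a_d43_d4a2127x1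

theorem g_wQ_26_wN_1_rb8033094a_d43_d4a2128x2 : GoodKC AS c_wQ_26_wN_1_rb8033094a_d43_d4a2128x2 := p_wQ_26_wN_1_rb8033094a_d43_d4a2128x1

theorem g_wQ_26_wN_1_rb8033094a_d43_d4a212bx2 : GoodKC AS c_wQ_26_wN_1_rb8033094a_d43_d4a212bx2 := p_wQ_26_wN_1_rb8033094a_d43_d4a212bx1

theorem g_wQ_26_wN_1_rb8033094a_d43_d4a212dx2 : GoodKC AS c_wQ_26_wN_1_rb8033094a_d43_d4a212dx2 := p_wQ_26_wN_1_rb8033094a_d43_d4a212dx1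

theorem g_wQ_26_wN_1_rb8033094a_d43_d4a2131x2 : GoodKC AS c_wQ_26_wN_1_rb8033094a_d43_d4a2131x2 := p_wQ_26_wN_1_rb8033094a_d43_d4a2131x1

theorem g_wQ_26_wN_1_rb8033094a_d43_d4a2137x2 : GoodKC AS c_wQ_26_wN_1_rb8033094a_d43_d4a2137x2 := p_wQ_26_wN_1_rb8033094a_d43_d4a2137x1

theorem g_wQ_26_wN_1_rb8033094a_d43_d4a21x8 : GoodKC AS c_wQ_26_wN_1_rb8033094a_d43_d4a21x8 := p_wQ_26_wN_1_rb8033094a_d43_d4a21x2 g_wQ_26_wN_1_rb8033094a_d43_d4a2139x2 g_wQ_26_wN_1_rb8033094a_d43_d4a2138x2 g_wQ_26_wN_1_rb8033094a_d43_d4a2136x2 g_wQ_26_wN_1_rb8033094a_d43_d4a2135x2 g_wQ_26_wN_1_rb8033094a_d43_d4a2134x2 g_wQ_26_wN_1_rb8033094a_d43_d4a2133x2 g_wQ_26_wN_1_rb8033094a_d43_d4a2132x2 g_wQ_26_wN_1_rb8033094a_d43_d4a2130x2 g_wQ_26_wN_1_rb8033094a_d43_d4a212fx2 g_wQ_26_wN_1_rb8033094a_d43_d4a212ex2 g_wQ_26_wN_1_rb8033094a_d43_d4a212cx2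 g_wQ_26_wN_1_rb8033094a_d43_d4a212ax2 g_wQ_26_wN_1_rb8033094a_d43_d4a2129x2 g_wQ_26_wN_1_rb8033094a_d43_d4a2126x2 g_wQ_26_wN_1_rb8033094a_d43_d4a2125x2 g_wQ_26_wN_1_rb8033094a_d43_d4a2123x2 g_wQ_26_wN_1_rb8033094a_d43_d4a2121x2 g_wQ_26_wN_1_rb8033094a_d43_d4a211ex2 g_wQ_26_wN_1_rb8033094a_d43_d4a211dx2 g_wQ_26_wN_1_rb8033094a_d43_d4a2118x2 g_wQ_26_wN_1_rb8033094a_d43_d4a2117x2 g_wQ_26_wN_1_rb8033094a_d43_d4a2116x2 g_wQ_26_wN_1_rb8033094a_d43_d4a2115x2 g_wQ_26_wN_1_rb8033094a_d43_d4a2114x2 g_wQ_26_wN_1_rb8033094a_d43_d4a2112x2 g_wQ_26_wN_1_rb8033094a_d43_d4a2110x2 g_wQ_26_wN_1_rb8033094a_d43_d4a210fx2 g_wQ_26_wN_1_rb8033094a_d43_d4a210ex2 g_wQ_26_wN_1_rb8033094a_d43_d4a210dx2 g_wQ_26_wN_1_rb8033094a_d43_d4a210cx2 g_wQ_26_wN_1_rb8033094a_d43_d4a210bx2 g_wQ_26_wN_1_rb8033094a_d43_d4a210ax2 g_wQ_26_wN_1_rb8033094a_d43_d4a2109x2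 g_wQ_26_wN_1_rb8033094a_d43_d4a2108x2 g_wQ_26_wN_1_rb8033094a_d43_d4a2107x2 g_wQ_26_wN_1_rb8033094a_d43_d4a2106x2 g_wQ_26_wN_1_rb8033094a_d43_d4a2105x2 g_wQ_26_wN_1_rb8033094a_d43_d4a2104x2 g_wQ_26_wN_1_rb8033094a_d43_d4a2103x2 g_wQ_26_wN_1_rb8033094a_d43_d4a2101x2 g_wQ_26_wN_1_rb8033094a_d43_d4a2100x2 g__wQ_26_wN_1_rb8033094a_d43_d4a21x2_0 g_wQ_26_wN_1_rb8033094a_d43_d4a2102x2 g_wQ_26_wN_1_rb8033094a_d43_d4a2111x2 g_wQ_26_wN_1_rb8033094a_d43_d4a2113x2 g__wQ_26_wN_1_rb8033094a_d43_d4a21x2_2 g_wQ_26_wN_1_rb8033094a_d43_d4a2119x2 g_wQ_26_wN_1_rb8033094a_d43_d4a211ax2 g_wQ_26_wN_1_rb8033094a_d43_d4a211bx2 g_wQ_26_wN_1_rb8033094a_d43_d4a211cx2 g_wQ_26_wN_1_rb8033094a_d43_d4a211fx2 g_wQ_26_wN_1_rb8033094a_d43_d4a2120x2 g_wQ_26_wN_1_rb8033094a_d43_d4a2122x2 g_wQ_26_wN_1_rb8033094a_d43_d4a2124x2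 g_wQ_26_wN_1_rb8033094a_d43_d4a2127x2 g_wQ_26_wN_1_rb8033094a_d43_d4a2128x2 g_wQ_26_wN_1_rb8033094a_d43_d4a212bx2 g_wQ_26_wN_1_rb8033094a_d43_d4a212dx2 g_wQ_26_wN_1_rb8033094a_d43_d4a2131x2 g_wQ_26_wN_1_rb8033094a_d43_d4a2137x2

theorem g__wQ_26_wN_1_rb8033094a_d43_d4a22x2_3 : GoodKC AS k_wQ_26_wN_1_rb8033094a_d43_d4a22x2_3 := p_wQ_26_wN_1_rb8033094a_d43_d4a22x2_3

theorem g__wQ_26_wN_1_rb8033094a_d43_d4a22x2_2 : GoodKC AS k_wQ_26_wN_1_rb8033094a_d43_d4a22x2_2 := p_wQ_26_wN_1_rb8033094a_d43_d4a22x2_2 g__wQ_26_wN_1_rb8033094a_d43_d4a22x2_3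

theorem g__wQ_26_wN_1_rb8033094a_d43_d4a22x2_4 : GoodKC AS k_wQ_26_wN_1_rb8033094a_d43_d4a22x2_4 := p_wQ_26_wN_1_rb8033094a_d43_d4a22x2_4

theorem g__wQ_26_wN_1_rb8033094a_d43_d4a22x2_1 : GoodKC AS k_wQ_26_wN_1_rb8033094a_d43_d4a22x2_1 := p_wQ_26_wN_1_rb8033094a_d43_d4a22x2_1 g__wQ_26_wN_1_rb8033094a_d43_d4a22x2_2 g__wQ_26_wN_1_rb8033094a_d43_d4a22x2_4

theorem g__wQ_26_wN_1_rb8033094a_d43_d4a22x2_9 : GoodKC AS k_wQ_26_wN_1_rb8033094a_d43_d4a22x2_9 := p_wQ_26_wN_1_rb8033094a_d43_d4a22x2_9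

theorem g__wQ_26_wN_1_rb8033094a_d43_d4a22x2_10 : GoodKC AS k_wQ_26_wN_1_rb8033094a_d43_d4a22x2_10 := p_wQ_26_wN_1_rb8033094a_d43_d4a22x2_10

theorem g__wQ_26_wN_1_rb8033094a_d43_d4a22x2_8 : GoodKC AS k_wQ_26_wN_1_rb8033094a_d43_d4a22x2_8 := p_wQ_26_wN_1_rb8033094a_d43_d4a22x2_8 g__wQ_26_wN_1_rb8033094a_d43_d4a22x2_9 g__wQ_26_wN_1_rb8033094a_d43_d4a22x2_10

theorem g__wQ_26_wN_1_rb8033094a_d43_d4a22x2_7 : GoodKC AS k_wQ_26_wN_1_rb8033094a_d43_d4a22x2_7 := p_wQ_26_wN_1_rb8033094a_d43_d4a22x2_7 g__wQ_26_wN_1_rb8033094a_d43_d4a22x2_8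

theorem g__wQ_26_wN_1_rb8033094a_d43_d4a22x2_6 : GoodKC AS k_wQ_26_wN_1_rb8033094a_d43_d4a22x2_6 := p_wQ_26_wN_1_rb8033094a_d43_d4a22x2_6 g__wQ_26_wN_1_rb8033094a_d43_d4a22x2_7

theorem g__wQ_26_wN_1_rb8033094a_d43_d4a22x2_5 : GoodKC AS k_wQ_26_wN_1_rb8033094a_d43_d4a22x2_5 := p_wQ_26_wN_1_rb8033094a_d43_d4a22x2_5 g__wQ_26_wN_1_rb8033094a_d43_d4a22x2_6

theorem g__wQ_26_wN_1_rb8033094a_d43_d4a22x2_0 : GoodKC AS k_wQ_26_wN_1_rb8033094a_d43_d4a22x2_0 := p_wQ_26_wN_1_rb8033094a_d43_d4a22x2_0 g__wQ_26_wN_1_rb8033094a_d43_d4a22x2_1 g__wQ_26_wN_1_rb8033094a_d43_d4a22x2_5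

theorem g_wQ_26_wN_1_rb8033094a_d43_d4a22x8 : GoodKC AS c_wQ_26_wN_1_rb8033094a_d43_d4a22x8 := p_wQ_26_wN_1_rb8033094a_d43_d4a22x2 g__wQ_26_wN_1_rb8033094a_d43_d4a22x2_0

theorem g__wQ_26_wN_1_rb8033094a_d43_d4a2ax3_1 : GoodKC AS k_wQ_26_wN_1_rb8033094a_d43_d4a2ax3_1 := p_wQ_26_wN_1_rb8033094a_d43_d4a2ax3_1

theorem g__wQ_26_wN_1_rb8033094a_d43_d4a2ax3_6 : GoodKC AS k_wQ_26_wN_1_rb8033094a_d43_d4a2ax3_6 := p_wQ_26_wN_1_rb8033094a_d43_d4a2ax3_6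

theorem g__wQ_26_wN_1_rb8033094a_d43_d4a2ax3_8 : GoodKC AS k_wQ_26_wN_1_rb8033094a_d43_d4a2ax3_8 := p_wQ_26_wN_1_rb8033094a_d43_d4a2ax3_8

theorem g__wQ_26_wN_1_rb8033094a_d43_d4a2ax3_7 : GoodKC AS k_wQ_26_wN_1_rb8033094a_d43_d4a2ax3_7 := p_wQ_26_wN_1_rb8033094a_d43_d4a2ax3_7 g__wQ_26_wN_1_rb8033094a_d43_d4a2ax3_8

theorem g__wQ_26_wN_1_rb8033094a_d43_d4a2ax3_5 : GoodKC AS k_wQ_26_wN_1_rb8033094a_d43_d4a2ax3_5 := p_wQ_26_wN_1_rb8033094a_d43_d4a2ax3_5 g__wQ_26_wN_1_rb8033094a_d43_d4a2ax3_6 g__wQ_26_wN_1_rb8033094a_d43_d4a2ax3_7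

theorem g__wQ_26_wN_1_rb8033094a_d43_d4a2ax3_4 : GoodKC AS k_wQ_26_wN_1_rb8033094a_d43_d4a2ax3_4 := p_wQ_26_wN_1_rb8033094a_d43_d4a2ax3_4 g__wQ_26_wN_1_rb8033094a_d43_d4a2ax3_5

theorem g__wQ_26_wN_1_rb8033094a_d43_d4a2ax3_3 : GoodKC AS k_wQ_26_wN_1_rb8033094a_d43_d4a2ax3_3 := p_wQ_26_wN_1_rb8033094a_d43_d4a2ax3_3 g__wQ_26_wN_1_rb8033094a_d43_d4a2ax3_4

theorem g__wQ_26_wN_1_rb8033094a_d43_d4a2ax3_2 : GoodKC AS k_wQ_26_wN_1_rb8033094a_d43_d4a2ax3_2 := p_wQ_26_wN_1_rb8033094a_d43_d4a2ax3_2 g__wQ_26_wN_1_rb8033094a_d43_d4a2ax3_3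

theorem g__wQ_26_wN_1_rb8033094a_d43_d4a2ax3_0 : GoodKC AS k_wQ_26_wN_1_rb8033094a_d43_d4a2ax3_0 := p_wQ_26_wN_1_rb8033094a_d43_d4a2ax3_0 g__wQ_26_wN_1_rb8033094a_d43_d4a2ax3_1 g__wQ_26_wN_1_rb8033094a_d43_d4a2ax3_2

theorem g_wQ_26_wN_1_rb8033094a_d43_d4a2ax8 : GoodKC AS c_wQ_26_wN_1_rb8033094a_d43_d4a2ax8 := p_wQ_26_wN_1_rb8033094a_d43_d4a2ax3 g__wQ_26_wN_1_rb8033094a_d43_d4a2ax3_0

theorem g__wQ_26_wN_1_rb8033094a_d43_d4a31x3_1 : GoodKC AS k_wQ_26_wN_1_rb8033094a_d43_d4a31x3_1 := p_wQ_26_wN_1_rb8033094a_d43_d4a31x3_1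

theorem g__wQ_26_wN_1_rb8033094a_d43_d4a31x3_0 : GoodKC AS k_wQ_26_wN_1_rb8033094a_d43_d4a31x3_0 := p_wQ_26_wN_1_rb8033094a_d43_d4a31x3_0 g__wQ_26_wN_1_rb8033094a_d43_d4a31x3_1

theorem g_wQ_26_wN_1_rb8033094a_d43_d4a31x8 : GoodKC AS c_wQ_26_wN_1_rb8033094a_d43_d4a31x8 := p_wQ_26_wN_1_rb8033094a_d43_d4a31x3 g__wQ_26_wN_1_rb8033094a_d43_d4a31x3_0

theorem g__wQ_26_wN_1_rb8033094a_d43_d4a322fx1_0 : GoodKC AS k_wQ_26_wN_1_rb8033094a_d43_d4a322fx1_0 := p_wQ_26_wN_1_rb8033094a_d43_d4a322fx1_0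

theorem g_wQ_26_wN_1_rb8033094a_d43_d4a322fx1 : GoodKC AS c_wQ_26_wN_1_rb8033094a_d43_d4a322fx1 := p_wQ_26_wN_1_rb8033094a_d43_d4a322fx1 g__wQ_26_wN_1_rb8033094a_d43_d4a322fx1_0

theorem g_wQ_26_wN_1_rb8033094a_d43_d4a322dx1 : GoodKC AS c_wQ_26_wN_1_rb8033094a_d43_d4a322dx1 := p_wQ_26_wN_1_rb8033094a_d43_d4a322dx1

theorem g_wQ_26_wN_1_rb8033094a_d43_d4a322cx1 : GoodKC AS c_wQ_26_wN_1_rb8033094a_d43_d4a322cx1 := p_wQ_26_wN_1_rb8033094a_d43_d4a322cx1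

theorem g_wQ_26_wN_1_rb8033094a_d43_d4a322bx1 : GoodKC AS c_wQ_26_wN_1_rb8033094a_d43_d4a322bx1 := p_wQ_26_wN_1_rb8033094a_d43_d4a322bx1

theorem g__wQ_26_wN_1_rb8033094a_d43_d4a3228x1_0 : GoodKC AS k_wQ_26_wN_1_rb8033094a_d43_d4a3228x1_0 := p_wQ_26_wN_1_rb8033094a_d43_d4a3228x1_0

theorem g_wQ_26_wN_1_rb8033094a_d43_d4a3228x1 : GoodKC AS c_wQ_26_wN_1_rb8033094a_d43_d4a3228x1 := p_wQ_26_wN_1_rb8033094a_d43_d4a3228x1 g__wQ_26_wN_1_rb8033094a_d43_d4a3228x1_0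

theorem g_wQ_26_wN_1_rb8033094a_d43_d4a3227x1 : GoodKC AS c_wQ_26_wN_1_rb8033094a_d43_d4a3227x1 := p_wQ_26_wN_1_rb8033094a_d43_d4a3227x1

theorem g_wQ_26_wN_1_rb8033094a_d43_d4a3224x1 : GoodKC AS c_wQ_26_wN_1_rb8033094a_d43_d4a3224x1 := p_wQ_26_wN_1_rb8033094a_d43_d4a3224x1

theorem g_wQ_26_wN_1_rb8033094a_d43_d4a3223x1 : GoodKC AS c_wQ_26_wN_1_rb8033094a_d43_d4a3223x1 := p_wQ_26_wN_1_rb8033094a_d43_d4a3223x1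

theorem g_wQ_26_wN_1_rb8033094a_d43_d4a3220x1 : GoodKC AS c_wQ_26_wN_1_rb8033094a_d43_d4a3220x1 := p_wQ_26_wN_1_rb8033094a_d43_d4a3220x1

theorem g__wQ_26_wN_1_rb8033094a_d43_d4a321ex1_1 : GoodKC AS k_wQ_26_wN_1_rb8033094a_d43_d4a321ex1_1 := p_wQ_26_wN_1_rb8033094a_d43_d4a321ex1_1

theorem g__wQ_26_wN_1_rb8033094a_d43_d4a321ex1_3 : GoodKC AS k_wQ_26_wN_1_rb8033094a_d43_d4a321ex1_3 := p_wQ_26_wN_1_rb8033094a_d43_d4a321ex1_3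

theorem g__wQ_26_wN_1_rb8033094a_d43_d4a321ex1_2 : GoodKC AS k_wQ_26_wN_1_rb8033094a_d43_d4a321ex1_2 := p_wQ_26_wN_1_rb8033094a_d43_d4a321ex1_2 g__wQ_26_wN_1_rb8033094a_d43_d4a321ex1_3

theorem g__wQ_26_wN_1_rb8033094a_d43_d4a321ex1_0 : GoodKC AS k_wQ_26_wN_1_rb8033094a_d43_d4a321ex1_0 := p_wQ_26_wN_1_rb8033094a_d43_d4a321ex1_0 g__wQ_26_wN_1_rb8033094a_d43_d4a321ex1_1 g__wQ_26_wN_1_rb8033094a_d43_d4a321ex1_2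

theorem g_wQ_26_wN_1_rb8033094a_d43_d4a321ex1 : GoodKC AS c_wQ_26_wN_1_rb8033094a_d43_d4a321ex1 := p_wQ_26_wN_1_rb8033094a_d43_d4a321ex1 g__wQ_26_wN_1_rb8033094a_d43_d4a321ex1_0

theorem g_wQ_26_wN_1_rb8033094a_d43_d4a321dx1 : GoodKC AS c_wQ_26_wN_1_rb8033094a_d43_d4a321dx1 := p_wQ_26_wN_1_rb8033094a_d43_d4a321dx1

theorem g_wQ_26_wN_1_rb8033094a_d43_d4a321ax1 : GoodKC AS c_wQ_26_wN_1_rb8033094a_d43_d4a321ax1 := p_wQ_26_wN_1_rb8033094a_d43_d4a321ax1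

theorem g_wQ_26_wN_1_rb8033094a_d43_d4a3219x1 : GoodKC AS c_wQ_26_wN_1_rb8033094a_d43_d4a3219x1 := p_wQ_26_wN_1_rb8033094a_d43_d4a3219x1

theorem g_wQ_26_wN_1_rb8033094a_d43_d4a3218x1 : GoodKC AS c_wQ_26_wN_1_rb8033094a_d43_d4a3218x1 := p_wQ_26_wN_1_rb8033094a_d43_d4a3218x1

theorem g_wQ_26_wN_1_rb8033094a_d43_d4a3217x1 : GoodKC AS c_wQ_26_wN_1_rb8033094a_d43_d4a3217x1 := p_wQ_26_wN_1_rb8033094a_d43_d4a3217x1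

theorem g_wQ_26_wN_1_rb8033094a_d43_d4a3216x1 : GoodKC AS c_wQ_26_wN_1_rb8033094a_d43_d4a3216x1 := p_wQ_26_wN_1_rb8033094a_d43_d4a3216x1

theorem g_wQ_26_wN_1_rb8033094a_d43_d4a3215x1 : GoodKC AS c_wQ_26_wN_1_rb8033094a_d43_d4a3215x1 := p_wQ_26_wN_1_rb8033094a_d43_d4a3215x1

theorem g_wQ_26_wN_1_rb8033094a_d43_d4a3212x1 : GoodKC AS c_wQ_26_wN_1_rb8033094a_d43_d4a3212x1 := p_wQ_26_wN_1_rb8033094a_d43_d4a3212x1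

theorem g__wQ_26_wN_1_rb8033094a_d43_d4a3211x1_3 : GoodKC AS k_wQ_26_wN_1_rb8033094a_d43_d4a3211x1_3 := p_wQ_26_wN_1_rb8033094a_d43_d4a3211x1_3

theorem g__wQ_26_wN_1_rb8033094a_d43_d4a3211x1_2 : GoodKC AS k_wQ_26_wN_1_rb8033094a_d43_d4a3211x1_2 := p_wQ_26_wN_1_rb8033094a_d43_d4a3211x1_2 g__wQ_26_wN_1_rb8033094a_d43_d4a3211x1_3

theorem g__wQ_26_wN_1_rb8033094a_d43_d4a3211x1_1 : GoodKC AS k_wQ_26_wN_1_rb8033094a_d43_d4a3211x1_1 := p_wQ_26_wN_1_rb8033094a_d43_d4a3211x1_1 g__wQ_26_wN_1_rb8033094a_d43_d4a3211x1_2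

theorem g__wQ_26_wN_1_rb8033094a_d43_d4a3211x1_4 : GoodKC AS k_wQ_26_wN_1_rb8033094a_d43_d4a3211x1_4 := p_wQ_26_wN_1_rb8033094a_d43_d4a3211x1_4

theorem g__wQ_26_wN_1_rb8033094a_d43_d4a3211x1_0 : GoodKC AS k_wQ_26_wN_1_rb8033094a_d43_d4a3211x1_0 := p_wQ_26_wN_1_rb8033094a_d43_d4a3211x1_0 g__wQ_26_wN_1_rb8033094a_d43_d4a3211x1_1 g__wQ_26_wN_1_rb8033094a_d43_d4a3211x1_4

theorem g__wQ_26_wN_1_rb8033094a_d43_d4a3211x1_5 : GoodKC AS k_wQ_26_wN_1_rb8033094a_d43_d4a3211x1_5 := p_wQ_26_wN_1_rb8033094a_d43_d4a3211x1_5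

theorem g_wQ_26_wN_1_rb8033094a_d43_d4a3211x1 : GoodKC AS c_wQ_26_wN_1_rb8033094a_d43_d4a3211x1 := p_wQ_26_wN_1_rb8033094a_d43_d4a3211x1 g__wQ_26_wN_1_rb8033094a_d43_d4a3211x1_0 g__wQ_26_wN_1_rb8033094a_d43_d4a3211x1_5

theorem g_wQ_26_wN_1_rb8033094a_d43_d4a3210x1 : GoodKC AS c_wQ_26_wN_1_rb8033094a_d43_d4a3210x1 := p_wQ_26_wN_1_rb8033094a_d43_d4a3210x1

theorem g_wQ_26_wN_1_rb8033094a_d43_d4a320fx1 : GoodKC AS c_wQ_26_wN_1_rb8033094a_d43_d4a320fx1 := p_wQ_26_wN_1_rb8033094a_d43_d4a320fx1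

theorem g_wQ_26_wN_1_rb8033094a_d43_d4a320dx1 : GoodKC AS c_wQ_26_wN_1_rb8033094a_d43_d4a320dx1 := p_wQ_26_wN_1_rb8033094a_d43_d4a320dx1

theorem g_wQ_26_wN_1_rb8033094a_d43_d4a320cx1 : GoodKC AS c_wQ_26_wN_1_rb8033094a_d43_d4a320cx1 := p_wQ_26_wN_1_rb8033094a_d43_d4a320cx1

theorem g_wQ_26_wN_1_rb8033094a_d43_d4a320bx1 : GoodKC AS c_wQ_26_wN_1_rb8033094a_d43_d4a320bx1 := p_wQ_26_wN_1_rb8033094a_d43_d4a320bx1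

theorem g__wQ_26_wN_1_rb8033094a_d43_d4a32x1_2 : GoodKC AS k_wQ_26_wN_1_rb8033094a_d43_d4a32x1_2 := p_wQ_26_wN_1_rb8033094a_d43_d4a32x1_2

theorem g__wQ_26_wN_1_rb8033094a_d43_d4a32x1_3 : GoodKC AS k_wQ_26_wN_1_rb8033094a_d43_d4a32x1_3 := p_wQ_26_wN_1_rb8033094a_d43_d4a32x1_3

theorem g__wQ_26_wN_1_rb8033094a_d43_d4a32x1_1 : GoodKC AS k_wQ_26_wN_1_rb8033094a_d43_d4a32x1_1 := p_wQ_26_wN_1_rb8033094a_d43_d4a32x1_1 g__wQ_26_wN_1_rb8033094a_d43_d4a32x1_2 g__wQ_26_wN_1_rb8033094a_d43_d4a32x1_3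

theorem g__wQ_26_wN_1_rb8033094a_d43_d4a32x1_6 : GoodKC AS k_wQ_26_wN_1_rb8033094a_d43_d4a32x1_6 := p_wQ_26_wN_1_rb8033094a_d43_d4a32x1_6

theorem g__wQ_26_wN_1_rb8033094a_d43_d4a32x1_5 : GoodKC AS k_wQ_26_wN_1_rb8033094a_d43_d4a32x1_5 := p_wQ_26_wN_1_rb8033094a_d43_d4a32x1_5 g__wQ_26_wN_1_rb8033094a_d43_d4a32x1_6

theorem g__wQ_26_wN_1_rb8033094a_d43_d4a32x1_4 : GoodKC AS k_wQ_26_wN_1_rb8033094a_d43_d4a32x1_4 := p_wQ_26_wN_1_rb8033094a_d43_d4a32x1_4 g__wQ_26_wN_1_rb8033094a_d43_d4a32x1_5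

theorem g__wQ_26_wN_1_rb8033094a_d43_d4a32x1_0 : GoodKC AS k_wQ_26_wN_1_rb8033094a_d43_d4a32x1_0 := p_wQ_26_wN_1_rb8033094a_d43_d4a32x1_0 g__wQ_26_wN_1_rb8033094a_d43_d4a32x1_1 g__wQ_26_wN_1_rb8033094a_d43_d4a32x1_4

theorem g_wQ_26_wN_1_rb8033094a_d43_d4a320ax1 : GoodKC AS c_wQ_26_wN_1_rb8033094a_d43_d4a320ax1 := p_wQ_26_wN_1_rb8033094a_d43_d4a320ax1

theorem g_wQ_26_wN_1_rb8033094a_d43_d4a3208x1 : GoodKC AS c_wQ_26_wN_1_rb8033094a_d43_d4a3208x1 := p_wQ_26_wN_1_rb8033094a_d43_d4a3208x1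

theorem g_wQ_26_wN_1_rb8033094a_d43_d4a3207x1 : GoodKC AS c_wQ_26_wN_1_rb8033094a_d43_d4a3207x1 := p_wQ_26_wN_1_rb8033094a_d43_d4a3207x1

theorem g_wQ_26_wN_1_rb8033094a_d43_d4a3202x1 : GoodKC AS c_wQ_26_wN_1_rb8033094a_d43_d4a3202x1 := p_wQ_26_wN_1_rb8033094a_d43_d4a3202x1

theorem g_wQ_26_wN_1_rb8033094a_d43_d4a3200x1 : GoodKC AS c_wQ_26_wN_1_rb8033094a_d43_d4a3200x1 := p_wQ_26_wN_1_rb8033094a_d43_d4a3200x1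

theorem g_wQ_26_wN_1_rb8033094a_d43_d4a3201x1 : GoodKC AS c_wQ_26_wN_1_rb8033094a_d43_d4a3201x1 := p_wQ_26_wN_1_rb8033094a_d43_d4a3201x1

theorem g_wQ_26_wN_1_rb8033094a_d43_d4a3203x1 : GoodKC AS c_wQ_26_wN_1_rb8033094a_d43_d4a3203x1 := p_wQ_26_wN_1_rb8033094a_d43_d4a3203x1

theorem g_wQ_26_wN_1_rb8033094a_d43_d4a3204x1 : GoodKC AS c_wQ_26_wN_1_rb8033094a_d43_d4a3204x1 := p_wQ_26_wN_1_rb8033094a_d43_d4a3204x1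

theorem g_wQ_26_wN_1_rb8033094a_d43_d4a3205x1 : GoodKC AS c_wQ_26_wN_1_rb8033094a_d43_d4a3205x1 := p_wQ_26_wN_1_rb8033094a_d43_d4a3205x1

theorem g_wQ_26_wN_1_rb8033094a_d43_d4a3206x1 : GoodKC AS c_wQ_26_wN_1_rb8033094a_d43_d4a3206x1 := p_wQ_26_wN_1_rb8033094a_d43_d4a3206x1

theorem g_wQ_26_wN_1_rb8033094a_d43_d4a3209x1 : GoodKC AS c_wQ_26_wN_1_rb8033094a_d43_d4a3209x1 := p_wQ_26_wN_1_rb8033094a_d43_d4a3209x1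

theorem g_wQ_26_wN_1_rb8033094a_d43_d4a320ex1 : GoodKC AS c_wQ_26_wN_1_rb8033094a_d43_d4a320ex1 := p_wQ_26_wN_1_rb8033094a_d43_d4a320ex1

theorem g_wQ_26_wN_1_rb8033094a_d43_d4a3213x1 : GoodKC AS c_wQ_26_wN_1_rb8033094a_d43_d4a3213x1 := p_wQ_26_wN_1_rb8033094a_d43_d4a3213x1

theorem g_wQ_26_wN_1_rb8033094a_d43_d4a3214x1 : GoodKC AS c_wQ_26_wN_1_rb8033094a_d43_d4a3214x1 := p_wQ_26_wN_1_rb8033094a_d43_d4a3214x1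

theorem g_wQ_26_wN_1_rb8033094a_d43_d4a321bx1 : GoodKC AS c_wQ_26_wN_1_rb8033094a_d43_d4a321bx1 := p_wQ_26_wN_1_rb8033094a_d43_d4a321bx1

theorem g_wQ_26_wN_1_rb8033094a_d43_d4a321cx1 : GoodKC AS c_wQ_26_wN_1_rb8033094a_d43_d4a321cx1 := p_wQ_26_wN_1_rb8033094a_d43_d4a321cx1

theorem g_wQ_26_wN_1_rb8033094a_d43_d4a321fx1 : GoodKC AS c_wQ_26_wN_1_rb8033094a_d43_d4a321fx1 := p_wQ_26_wN_1_rb8033094a_d43_d4a321fx1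

theorem g_wQ_26_wN_1_rb8033094a_d43_d4a3221x1 : GoodKC AS c_wQ_26_wN_1_rb8033094a_d43_d4a3221x1 := p_wQ_26_wN_1_rb8033094a_d43_d4a3221x1

theorem g_wQ_26_wN_1_rb8033094a_d43_d4a3222x1 : GoodKC AS c_wQ_26_wN_1_rb8033094a_d43_d4a3222x1 := p_wQ_26_wN_1_rb8033094a_d43_d4a3222x1

theorem g__wQ_26_wN_1_rb8033094a_d43_d4a32x1_8 : GoodKC AS k_wQ_26_wN_1_rb8033094a_d43_d4a32x1_8 := p_wQ_26_wN_1_rb8033094a_d43_d4a32x1_8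

theorem g__wQ_26_wN_1_rb8033094a_d43_d4a32x1_10 : GoodKC AS k_wQ_26_wN_1_rb8033094a_d43_d4a32x1_10 := p_wQ_26_wN_1_rb8033094a_d43_d4a32x1_10

theorem g__wQ_26_wN_1_rb8033094a_d43_d4a32x1_11 : GoodKC AS k_wQ_26_wN_1_rb8033094a_d43_d4a32x1_11 := p_wQ_26_wN_1_rb8033094a_d43_d4a32x1_11

theorem g__wQ_26_wN_1_rb8033094a_d43_d4a32x1_9 : GoodKC AS k_wQ_26_wN_1_rb8033094a_d43_d4a32x1_9 := p_wQ_26_wN_1_rb8033094a_d43_d4a32x1_9 g__wQ_26_wN_1_rb8033094a_d43_d4a32x1_10 g__wQ_26_wN_1_rb8033094a_d43_d4a32x1_11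

theorem g__wQ_26_wN_1_rb8033094a_d43_d4a32x1_15 : GoodKC AS k_wQ_26_wN_1_rb8033094a_d43_d4a32x1_15 := p_wQ_26_wN_1_rb8033094a_d43_d4a32x1_15

theorem g__wQ_26_wN_1_rb8033094a_d43_d4a32x1_17 : GoodKC AS k_wQ_26_wN_1_rb8033094a_d43_d4a32x1_17 := p_wQ_26_wN_1_rb8033094a_d43_d4a32x1_17

theorem g__wQ_26_wN_1_rb8033094a_d43_d4a32x1_16 : GoodKC AS k_wQ_26_wN_1_rb8033094a_d43_d4a32x1_16 := p_wQ_26_wN_1_rb8033094a_d43_d4a32x1_16 g__wQ_26_wN_1_rb8033094a_d43_d4a32x1_17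

theorem g__wQ_26_wN_1_rb8033094a_d43_d4a32x1_14 : GoodKC AS k_wQ_26_wN_1_rb8033094a_d43_d4a32x1_14 := p_wQ_26_wN_1_rb8033094a_d43_d4a32x1_14 g__wQ_26_wN_1_rb8033094a_d43_d4a32x1_15 g__wQ_26_wN_1_rb8033094a_d43_d4a32x1_16

theorem g__wQ_26_wN_1_rb8033094a_d43_d4a32x1_13 : GoodKC AS k_wQ_26_wN_1_rb8033094a_d43_d4a32x1_13 := p_wQ_26_wN_1_rb8033094a_d43_d4a32x1_13 g__wQ_26_wN_1_rb8033094a_d43_d4a32x1_14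

theorem g__wQ_26_wN_1_rb8033094a_d43_d4a32x1_19 : GoodKC AS k_wQ_26_wN_1_rb8033094a_d43_d4a32x1_19 := p_wQ_26_wN_1_rb8033094a_d43_d4a32x1_19

theorem g__wQ_26_wN_1_rb8033094a_d43_d4a32x1_18 : GoodKC AS k_wQ_26_wN_1_rb8033094a_d43_d4a32x1_18 := p_wQ_26_wN_1_rb8033094a_d43_d4a32x1_18 g__wQ_26_wN_1_rb8033094a_d43_d4a32x1_19

theorem g__wQ_26_wN_1_rb8033094a_d43_d4a32x1_12 : GoodKC AS k_wQ_26_wN_1_rb8033094a_d43_d4a32x1_12 := p_wQ_26_wN_1_rb8033094a_d43_d4a32x1_12 g__wQ_26_wN_1_rb8033094a_d43_d4a32x1_13 g__wQ_26_wN_1_rb8033094a_d43_d4a32x1_18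

theorem g__wQ_26_wN_1_rb8033094a_d43_d4a32x1_7 : GoodKC AS k_wQ_26_wN_1_rb8033094a_d43_d4a32x1_7 := p_wQ_26_wN_1_rb8033094a_d43_d4a32x1_7 g__wQ_26_wN_1_rb8033094a_d43_d4a32x1_8 g__wQ_26_wN_1_rb8033094a_d43_d4a32x1_9 g__wQ_26_wN_1_rb8033094a_d43_d4a32x1_12

theorem g_wQ_26_wN_1_rb8033094a_d43_d4a3225x1 : GoodKC AS c_wQ_26_wN_1_rb8033094a_d43_d4a3225x1 := p_wQ_26_wN_1_rb8033094a_d43_d4a3225x1

theorem g_wQ_26_wN_1_rb8033094a_d43_d4a3226x1 : GoodKC AS c_wQ_26_wN_1_rb8033094a_d43_d4a3226x1 := p_wQ_26_wN_1_rb8033094a_d43_d4a3226x1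

theorem g_wQ_26_wN_1_rb8033094a_d43_d4a3229x1 : GoodKC AS c_wQ_26_wN_1_rb8033094a_d43_d4a3229x1 := p_wQ_26_wN_1_rb8033094a_d43_d4a3229x1

theorem g_wQ_26_wN_1_rb8033094a_d43_d4a322a0a : GoodKC AS c_wQ_26_wN_1_rb8033094a_d43_d4a322a0a := p_wQ_26_wN_1_rb8033094a_d43_d4a322a0a

theorem g_wQ_26_wN_1_rb8033094a_d43_d4a322a08 : GoodKC AS c_wQ_26_wN_1_rb8033094a_d43_d4a322a08 := p_wQ_26_wN_1_rb8033094a_d43_d4a322a08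

theorem g_wQ_26_wN_1_rb8033094a_d43_d4a322a06 : GoodKC AS c_wQ_26_wN_1_rb8033094a_d43_d4a322a06 := p_wQ_26_wN_1_rb8033094a_d43_d4a322a06

theorem g_wQ_26_wN_1_rb8033094a_d43_d4a322a05 : GoodKC AS c_wQ_26_wN_1_rb8033094a_d43_d4a322a05 := p_wQ_26_wN_1_rb8033094a_d43_d4a322a05

theorem g_wQ_26_wN_1_rb8033094a_d43_d4a322a03 : GoodKC AS c_wQ_26_wN_1_rb8033094a_d43_d4a322a03 := p_wQ_26_wN_1_rb8033094a_d43_d4a322a03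

theorem g_wQ_26_wN_1_rb8033094a_d43_d4a322a00 : GoodKC AS c_wQ_26_wN_1_rb8033094a_d43_d4a322a00 := p_wQ_26_wN_1_rb8033094a_d43_d4a322a00

theorem g_wQ_26_wN_1_rb8033094a_d43_d4a322a01 : GoodKC AS c_wQ_26_wN_1_rb8033094a_d43_d4a322a01 := p_wQ_26_wN_1_rb8033094a_d43_d4a322a01

theorem g_wQ_26_wN_1_rb8033094a_d43_d4a322a02 : GoodKC AS c_wQ_26_wN_1_rb8033094a_d43_d4a322a02 := p_wQ_26_wN_1_rb8033094a_d43_d4a322a02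

theorem g_wQ_26_wN_1_rb8033094a_d43_d4a322a04 : GoodKC AS c_wQ_26_wN_1_rb8033094a_d43_d4a322a04 := p_wQ_26_wN_1_rb8033094a_d43_d4a322a04

theorem g_wQ_26_wN_1_rb8033094a_d43_d4a322a07 : GoodKC AS c_wQ_26_wN_1_rb8033094a_d43_d4a322a07 := p_wQ_26_wN_1_rb8033094a_d43_d4a322a07

theorem g_wQ_26_wN_1_rb8033094a_d43_d4a322a09 : GoodKC AS c_wQ_26_wN_1_rb8033094a_d43_d4a322a09 := p_wQ_26_wN_1_rb8033094a_d43_d4a322a09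

theorem g__wQ_26_wN_1_rb8033094a_d43_d4a322a_0 : GoodKC AS k_wQ_26_wN_1_rb8033094a_d43_d4a322a_0 := p_wQ_26_wN_1_rb8033094a_d43_d4a322a_0

theorem g__wQ_26_wN_1_rb8033094a_d43_d4a322a_2 : GoodKC AS k_wQ_26_wN_1_rb8033094a_d43_d4a322a_2 := p_wQ_26_wN_1_rb8033094a_d43_d4a322a_2

theorem g__wQ_26_wN_1_rb8033094a_d43_d4a322a_1 : GoodKC AS k_wQ_26_wN_1_rb8033094a_d43_d4a322a_1 := p_wQ_26_wN_1_rb8033094a_d43_d4a322a_1 g__wQ_26_wN_1_rb8033094a_d43_d4a322a_2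

theorem g__wQ_26_wN_1_rb8033094a_d43_d4a322a_6 : GoodKC AS k_wQ_26_wN_1_rb8033094a_d43_d4a322a_6 := p_wQ_26_wN_1_rb8033094a_d43_d4a322a_6

theorem g__wQ_26_wN_1_rb8033094a_d43_d4a322a_5 : GoodKC AS k_wQ_26_wN_1_rb8033094a_d43_d4a322a_5 := p_wQ_26_wN_1_rb8033094a_d43_d4a322a_5 g__wQ_26_wN_1_rb8033094a_d43_d4a322a_6

theorem g__wQ_26_wN_1_rb8033094a_d43_d4a322a_8 : GoodKC AS k_wQ_26_wN_1_rb8033094a_d43_d4a322a_8 := p_wQ_26_wN_1_rb8033094a_d43_d4a322a_8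

theorem g__wQ_26_wN_1_rb8033094a_d43_d4a322a_13 : GoodKC AS k_wQ_26_wN_1_rb8033094a_d43_d4a322a_13 := p_wQ_26_wN_1_rb8033094a_d43_d4a322a_13

theorem g__wQ_26_wN_1_rb8033094a_d43_d4a322a_12 : GoodKC AS k_wQ_26_wN_1_rb8033094a_d43_d4a322a_12 := p_wQ_26_wN_1_rb8033094a_d43_d4a322a_12 g__wQ_26_wN_1_rb8033094a_d43_d4a322a_13

theorem g__wQ_26_wN_1_rb8033094a_d43_d4a322a_11 : GoodKC AS k_wQ_26_wN_1_rb8033094a_d43_d4a322a_11 := p_wQ_26_wN_1_rb8033094a_d43_d4a322a_11 g__wQ_26_wN_1_rb8033094a_d43_d4a322a_12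

theorem g__wQ_26_wN_1_rb8033094a_d43_d4a322a_10 : GoodKC AS k_wQ_26_wN_1_rb8033094a_d43_d4a322a_10 := p_wQ_26_wN_1_rb8033094a_d43_d4a322a_10 g__wQ_26_wN_1_rb8033094a_d43_d4a322a_11

theorem g__wQ_26_wN_1_rb8033094a_d43_d4a322a_9 : GoodKC AS k_wQ_26_wN_1_rb8033094a_d43_d4a322a_9 := p_wQ_26_wN_1_rb8033094a_d43_d4a322a_9 g__wQ_26_wN_1_rb8033094a_d43_d4a322a_10

theorem g__wQ_26_wN_1_rb8033094a_d43_d4a322a_7 : GoodKC AS k_wQ_26_wN_1_rb8033094a_d43_d4a322a_7 := p_wQ_26_wN_1_rb8033094a_d43_d4a322a_7 g__wQ_26_wN_1_rb8033094a_d43_d4a322a_8 g__wQ_26_wN_1_rb8033094a_d43_d4a322a_9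

theorem g__wQ_26_wN_1_rb8033094a_d43_d4a322a_4 : GoodKC AS k_wQ_26_wN_1_rb8033094a_d43_d4a322a_4 := p_wQ_26_wN_1_rb8033094a_d43_d4a322a_4 g__wQ_26_wN_1_rb8033094a_d43_d4a322a_5 g__wQ_26_wN_1_rb8033094a_d43_d4a322a_7

theorem g__wQ_26_wN_1_rb8033094a_d43_d4a322a_3 : GoodKC AS k_wQ_26_wN_1_rb8033094a_d43_d4a322a_3 := p_wQ_26_wN_1_rb8033094a_d43_d4a322a_3 g__wQ_26_wN_1_rb8033094a_d43_d4a322a_4

theorem g_wQ_26_wN_1_rb8033094a_d43_d4a322ax1 : GoodKC AS c_wQ_26_wN_1_rb8033094a_d43_d4a322ax1 := p_wQ_26_wN_1_rb8033094a_d43_d4a322a g_wQ_26_wN_1_rb8033094a_d43_d4a322a0a g_wQ_26_wN_1_rb8033094a_d43_d4a322a08 g_wQ_26_wN_1_rb8033094a_d43_d4a322a06 g_wQ_26_wN_1_rb8033094a_d43_d4a322a05 g_wQ_26_wN_1_rb8033094a_d43_d4a322a03 g_wQ_26_wN_1_rb8033094a_d43_d4a322a00 g_wQ_26_wN_1_rb8033094a_d43_d4a322a01 g_wQ_26_wN_1_rb8033094a_d43_d4a322a02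 g_wQ_26_wN_1_rb8033094a_d43_d4a322a04 g_wQ_26_wN_1_rb8033094a_d43_d4a322a07 g_wQ_26_wN_1_rb8033094a_d43_d4a322a09 g__wQ_26_wN_1_rb8033094a_d43_d4a322a_0 g__wQ_26_wN_1_rb8033094a_d43_d4a322a_1 g__wQ_26_wN_1_rb8033094a_d43_d4a322a_3

theorem g_wQ_26_wN_1_rb8033094a_d43_d4a322ex1 : GoodKC AS c_wQ_26_wN_1_rb8033094a_d43_d4a322ex1 := p_wQ_26_wN_1_rb8033094a_d43_d4a322ex1

theorem g_wQ_26_wN_1_rb8033094a_d43_d4a32x8 : GoodKC AS c_wQ_26_wN_1_rb8033094a_d43_d4a32x8 := p_wQ_26_wN_1_rb8033094a_d43_d4a32x1 g_wQ_26_wN_1_rb8033094a_d43_d4a322fx1 g_wQ_26_wN_1_rb8033094a_d43_d4a322dx1 g_wQ_26_wN_1_rb8033094a_d43_d4a322cx1 g_wQ_26_wN_1_rb8033094a_d43_d4a322bx1 g_wQ_26_wN_1_rb8033094a_d43_d4a3228x1 g_wQ_26_wN_1_rb8033094a_d43_d4a3227x1 g_wQ_26_wN_1_rb8033094a_d43_d4a3224x1 g_wQ_26_wN_1_rb8033094a_d43_d4a3223x1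 g_wQ_26_wN_1_rb8033094a_d43_d4a3220x1 g_wQ_26_wN_1_rb8033094a_d43_d4a321ex1 g_wQ_26_wN_1_rb8033094a_d43_d4a321dx1 g_wQ_26_wN_1_rb8033094a_d43_d4a321ax1 g_wQ_26_wN_1_rb8033094a_d43_d4a3219x1 g_wQ_26_wN_1_rb8033094a_d43_d4a3218x1 g_wQ_26_wN_1_rb8033094a_d43_d4a3217x1 g_wQ_26_wN_1_rb8033094a_d43_d4a3216x1 g_wQ_26_wN_1_rb8033094a_d43_d4a3215x1 g_wQ_26_wN_1_rb8033094a_d43_d4a3212x1 g_wQ_26_wN_1_rb8033094a_d43_d4a3211x1 g_wQ_26_wN_1_rb8033094a_d43_d4a3210x1 g_wQ_26_wN_1_rb8033094a_d43_d4a320fx1 g_wQ_26_wN_1_rb8033094a_d43_d4a320dx1 g_wQ_26_wN_1_rb8033094a_d43_d4a320cx1 g_wQ_26_wN_1_rb8033094a_d43_d4a320bx1 g__wQ_26_wN_1_rb8033094a_d43_d4a32x1_0 g_wQ_26_wN_1_rb8033094a_d43_d4a320ax1 g_wQ_26_wN_1_rb8033094a_d43_d4a3208x1 g_wQ_26_wN_1_rb8033094a_d43_d4a3207x1 g_wQ_26_wN_1_rb8033094a_d43_d4a3202x1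 g_wQ_26_wN_1_rb8033094a_d43_d4a3200x1 g_wQ_26_wN_1_rb8033094a_d43_d4a3201x1 g_wQ_26_wN_1_rb8033094a_d43_d4a3203x1 g_wQ_26_wN_1_rb8033094a_d43_d4a3204x1 g_wQ_26_wN_1_rb8033094a_d43_d4a3205x1 g_wQ_26_wN_1_rb8033094a_d43_d4a3206x1 g_wQ_26_wN_1_rb8033094a_d43_d4a3209x1 g_wQ_26_wN_1_rb8033094a_d43_d4a320ex1 g_wQ_26_wN_1_rb8033094a_d43_d4a3213x1 g_wQ_26_wN_1_rb8033094a_d43_d4a3214x1 g_wQ_26_wN_1_rb8033094a_d43_d4a321bx1 g_wQ_26_wN_1_rb8033094a_d43_d4a321cx1 g_wQ_26_wN_1_rb8033094a_d43_d4a321fx1 g_wQ_26_wN_1_rb8033094a_d43_d4a3221x1 g_wQ_26_wN_1_rb8033094a_d43_d4a3222x1 g__wQ_26_wN_1_rb8033094a_d43_d4a32x1_7 g_wQ_26_wN_1_rb8033094a_d43_d4a3225x1 g_wQ_26_wN_1_rb8033094a_d43_d4a3226x1 g_wQ_26_wN_1_rb8033094a_d43_d4a3229x1 g_wQ_26_wN_1_rb8033094a_d43_d4a322ax1 g_wQ_26_wN_1_rb8033094a_d43_d4a322ex1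

theorem g__wQ_26_wN_1_rb8033094a_d43_d4a33x3_2 : GoodKC AS k_wQ_26_wN_1_rb8033094a_d43_d4a33x3_2 := p_wQ_26_wN_1_rb8033094a_d43_d4a33x3_2

theorem g__wQ_26_wN_1_rb8033094a_d43_d4a33x3_1 : GoodKC AS k_wQ_26_wN_1_rb8033094a_d43_d4a33x3_1 := p_wQ_26_wN_1_rb8033094a_d43_d4a33x3_1 g__wQ_26_wN_1_rb8033094a_d43_d4a33x3_2

theorem g__wQ_26_wN_1_rb8033094a_d43_d4a33x3_0 : GoodKC AS k_wQ_26_wN_1_rb8033094a_d43_d4a33x3_0 := p_wQ_26_wN_1_rb8033094a_d43_d4a33x3_0 g__wQ_26_wN_1_rb8033094a_d43_d4a33x3_1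

theorem g_wQ_26_wN_1_rb8033094a_d43_d4a33x8 : GoodKC AS c_wQ_26_wN_1_rb8033094a_d43_d4a33x8 := p_wQ_26_wN_1_rb8033094a_d43_d4a33x3 g__wQ_26_wN_1_rb8033094a_d43_d4a33x3_0

theorem g__wQ_26_wN_1_rb8033094a_d43_d4a35x3_1 : GoodKC AS k_wQ_26_wN_1_rb8033094a_d43_d4a35x3_1 := p_wQ_26_wN_1_rb8033094a_d43_d4a35x3_1

theorem g__wQ_26_wN_1_rb8033094a_d43_d4a35x3_2 : GoodKC AS k_wQ_26_wN_1_rb8033094a_d43_d4a35x3_2 := p_wQ_26_wN_1_rb8033094a_d43_d4a35x3_2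

theorem g__wQ_26_wN_1_rb8033094a_d43_d4a35x3_0 : GoodKC AS k_wQ_26_wN_1_rb8033094a_d43_d4a35x3_0 := p_wQ_26_wN_1_rb8033094a_d43_d4a35x3_0 g__wQ_26_wN_1_rb8033094a_d43_d4a35x3_1 g__wQ_26_wN_1_rb8033094a_d43_d4a35x3_2

theorem g__wQ_26_wN_1_rb8033094a_d43_d4a35x3_4 : GoodKC AS k_wQ_26_wN_1_rb8033094a_d43_d4a35x3_4 := p_wQ_26_wN_1_rb8033094a_d43_d4a35x3_4

theorem g__wQ_26_wN_1_rb8033094a_d43_d4a35x3_3 : GoodKC AS k_wQ_26_wN_1_rb8033094a_d43_d4a35x3_3 := p_wQ_26_wN_1_rb8033094a_d43_d4a35x3_3 g__wQ_26_wN_1_rb8033094a_d43_d4a35x3_4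

theorem g_wQ_26_wN_1_rb8033094a_d43_d4a35x8 : GoodKC AS c_wQ_26_wN_1_rb8033094a_d43_d4a35x8 := p_wQ_26_wN_1_rb8033094a_d43_d4a35x3 g__wQ_26_wN_1_rb8033094a_d43_d4a35x3_0 g__wQ_26_wN_1_rb8033094a_d43_d4a35x3_3

theorem g_wQ_26_wN_1_rb8033094a_d43_d4a39x8 : GoodKC AS c_wQ_26_wN_1_rb8033094a_d43_d4a39x8 := p_wQ_26_wN_1_rb8033094a_d43_d4a39x3

theorem g__wQ_26_wN_1_rb8033094a_d43_d4a3ax2_0 : GoodKC AS k_wQ_26_wN_1_rb8033094a_d43_d4a3ax2_0 := p_wQ_26_wN_1_rb8033094a_d43_d4a3ax2_0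

theorem g__wQ_26_wN_1_rb8033094a_d43_d4a3ax2_1 : GoodKC AS k_wQ_26_wN_1_rb8033094a_d43_d4a3ax2_1 := p_wQ_26_wN_1_rb8033094a_d43_d4a3ax2_1

theorem g_wQ_26_wN_1_rb8033094a_d43_d4a3ax8 : GoodKC AS c_wQ_26_wN_1_rb8033094a_d43_d4a3ax8 := p_wQ_26_wN_1_rb8033094a_d43_d4a3ax2 g__wQ_26_wN_1_rb8033094a_d43_d4a3ax2_0 g__wQ_26_wN_1_rb8033094a_d43_d4a3ax2_1

theorem g_wQ_26_wN_1_rb8033094a_d43_d4a3cx8 : GoodKC AS c_wQ_26_wN_1_rb8033094a_d43_d4a3cx8 := p_wQ_26_wN_1_rb8033094a_d43_d4a3cx2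

theorem g_wQ_26_wN_1_rb8033094a_d43_d4a3dx8 : GoodKC AS c_wQ_26_wN_1_rb8033094a_d43_d4a3dx8 := p_wQ_26_wN_1_rb8033094a_d43_d4a3dx1

theorem g_wQ_26_wN_1_rb8033094a_d43_d4a40x8 : GoodKC AS c_wQ_26_wN_1_rb8033094a_d43_d4a40x8 := p_wQ_26_wN_1_rb8033094a_d43_d4a40x3

theorem g_wQ_26_wN_1_rb8033094a_d43_d4a44x8 : GoodKC AS c_wQ_26_wN_1_rb8033094a_d43_d4a44x8 := p_wQ_26_wN_1_rb8033094a_d43_d4a44x1

theorem g_wQ_26_wN_1_rb8033094a_d43_d4a46x8 : GoodKC AS c_wQ_26_wN_1_rb8033094a_d43_d4a46x8 := p_wQ_26_wN_1_rb8033094a_d43_d4a46x1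

theorem g__wQ_26_wN_1_rb8033094a_d43_d4a47x2_1 : GoodKC AS k_wQ_26_wN_1_rb8033094a_d43_d4a47x2_1 := p_wQ_26_wN_1_rb8033094a_d43_d4a47x2_1

theorem g__wQ_26_wN_1_rb8033094a_d43_d4a47x2_0 : GoodKC AS k_wQ_26_wN_1_rb8033094a_d43_d4a47x2_0 := p_wQ_26_wN_1_rb8033094a_d43_d4a47x2_0 g__wQ_26_wN_1_rb8033094a_d43_d4a47x2_1

theorem g_wQ_26_wN_1_rb8033094a_d43_d4a47x8 : GoodKC AS c_wQ_26_wN_1_rb8033094a_d43_d4a47x8 := p_wQ_26_wN_1_rb8033094a_d43_d4a47x2 g__wQ_26_wN_1_rb8033094a_d43_d4a47x2_0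

theorem g__wQ_26_wN_1_rb8033094a_d43_d4a4b31x1_0 : GoodKC AS k_wQ_26_wN_1_rb8033094a_d43_d4a4b31x1_0 := p_wQ_26_wN_1_rb8033094a_d43_d4a4b31x1_0

theorem g__wQ_26_wN_1_rb8033094a_d43_d4a4b31x1_3 : GoodKC AS k_wQ_26_wN_1_rb8033094a_d43_d4a4b31x1_3 := p_wQ_26_wN_1_rb8033094a_d43_d4a4b31x1_3

theorem g__wQ_26_wN_1_rb8033094a_d43_d4a4b31x1_2 : GoodKC AS k_wQ_26_wN_1_rb8033094a_d43_d4a4b31x1_2 := p_wQ_26_wN_1_rb8033094a_d43_d4a4b31x1_2 g__wQ_26_wN_1_rb8033094a_d43_d4a4b31x1_3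

theorem g__wQ_26_wN_1_rb8033094a_d43_d4a4b31x1_4 : GoodKC AS k_wQ_26_wN_1_rb8033094a_d43_d4a4b31x1_4 := p_wQ_26_wN_1_rb8033094a_d43_d4a4b31x1_4

theorem g__wQ_26_wN_1_rb8033094a_d43_d4a4b31x1_1 : GoodKC AS k_wQ_26_wN_1_rb8033094a_d43_d4a4b31x1_1 := p_wQ_26_wN_1_rb8033094a_d43_d4a4b31x1_1 g__wQ_26_wN_1_rb8033094a_d43_d4a4b31x1_2 g__wQ_26_wN_1_rb8033094a_d43_d4a4b31x1_4

theorem g__wQ_26_wN_1_rb8033094a_d43_d4a4b31x1_5 : GoodKC AS k_wQ_26_wN_1_rb8033094a_d43_d4a4b31x1_5 := p_wQ_26_wN_1_rb8033094a_d43_d4a4b31x1_5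

theorem g__wQ_26_wN_1_rb8033094a_d43_d4a4b31x1_6 : GoodKC AS k_wQ_26_wN_1_rb8033094a_d43_d4a4b31x1_6 := p_wQ_26_wN_1_rb8033094a_d43_d4a4b31x1_6

theorem g_wQ_26_wN_1_rb8033094a_d43_d4a4b31x1 : GoodKC AS c_wQ_26_wN_1_rb8033094a_d43_d4a4b31x1 := p_wQ_26_wN_1_rb8033094a_d43_d4a4b31x1 g__wQ_26_wN_1_rb8033094a_d43_d4a4b31x1_0 g__wQ_26_wN_1_rb8033094a_d43_d4a4b31x1_1 g__wQ_26_wN_1_rb8033094a_d43_d4a4b31x1_5 g__wQ_26_wN_1_rb8033094a_d43_d4a4b31x1_6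

theorem g_wQ_26_wN_1_rb8033094a_d43_d4a4b2fx1 : GoodKC AS c_wQ_26_wN_1_rb8033094a_d43_d4a4b2fx1 := p_wQ_26_wN_1_rb8033094a_d43_d4a4b2fx1

theorem g__wQ_26_wN_1_rb8033094a_d43_d4a4b2ex1_0 : GoodKC AS k_wQ_26_wN_1_rb8033094a_d43_d4a4b2ex1_0 := p_wQ_26_wN_1_rb8033094a_d43_d4a4b2ex1_0

theorem g_wQ_26_wN_1_rb8033094a_d43_d4a4b2ex1 : GoodKC AS c_wQ_26_wN_1_rb8033094a_d43_d4a4b2ex1 := p_wQ_26_wN_1_rb8033094a_d43_d4a4b2ex1 g__wQ_26_wN_1_rb8033094a_d43_d4a4b2ex1_0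

theorem g__wQ_26_wN_1_rb8033094a_d43_d4a4b2dx1_0 : GoodKC AS k_wQ_26_wN_1_rb8033094a_d43_d4a4b2dx1_0 := p_wQ_26_wN_1_rb8033094a_d43_d4a4b2dx1_0

theorem g_wQ_26_wN_1_rb8033094a_d43_d4a4b2dx1 : GoodKC AS c_wQ_26_wN_1_rb8033094a_d43_d4a4b2dx1 := p_wQ_26_wN_1_rb8033094a_d43_d4a4b2dx1 g__wQ_26_wN_1_rb8033094a_d43_d4a4b2dx1_0

theorem g_wQ_26_wN_1_rb8033094a_d43_d4a4b2cx1 : GoodKC AS c_wQ_26_wN_1_rb8033094a_d43_d4a4b2cx1 := p_wQ_26_wN_1_rb8033094a_d43_d4a4b2cx1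

theorem g_wQ_26_wN_1_rb8033094a_d43_d4a4b2ax1 : GoodKC AS c_wQ_26_wN_1_rb8033094a_d43_d4a4b2ax1 := p_wQ_26_wN_1_rb8033094a_d43_d4a4b2ax1

theorem g__wQ_26_wN_1_rb8033094a_d43_d4a4b29x1_1 : GoodKC AS k_wQ_26_wN_1_rb8033094a_d43_d4a4b29x1_1 := p_wQ_26_wN_1_rb8033094a_d43_d4a4b29x1_1

theorem g__wQ_26_wN_1_rb8033094a_d43_d4a4b29x1_0 : GoodKC AS k_wQ_26_wN_1_rb8033094a_d43_d4a4b29x1_0 := p_wQ_26_wN_1_rb8033094a_d43_d4a4b29x1_0 g__wQ_26_wN_1_rb8033094a_d43_d4a4b29x1_1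

theorem g_wQ_26_wN_1_rb8033094a_d43_d4a4b29x1 : GoodKC AS c_wQ_26_wN_1_rb8033094a_d43_d4a4b29x1 := p_wQ_26_wN_1_rb8033094a_d43_d4a4b29x1 g__wQ_26_wN_1_rb8033094a_d43_d4a4b29x1_0

theorem g_wQ_26_wN_1_rb8033094a_d43_d4a4b28x1 : GoodKC AS c_wQ_26_wN_1_rb8033094a_d43_d4a4b28x1 := p_wQ_26_wN_1_rb8033094a_d43_d4a4b28x1

theorem g_wQ_26_wN_1_rb8033094a_d43_d4a4b27x1 : GoodKC AS c_wQ_26_wN_1_rb8033094a_d43_d4a4b27x1 := p_wQ_26_wN_1_rb8033094a_d43_d4a4b27x1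

theorem g_wQ_26_wN_1_rb8033094a_d43_d4a4b25x1 : GoodKC AS c_wQ_26_wN_1_rb8033094a_d43_d4a4b25x1 := p_wQ_26_wN_1_rb8033094a_d43_d4a4b25x1

theorem g__wQ_26_wN_1_rb8033094a_d43_d4a4b24x1_1 : GoodKC AS k_wQ_26_wN_1_rb8033094a_d43_d4a4b24x1_1 := p_wQ_26_wN_1_rb8033094a_d43_d4a4b24x1_1

theorem g__wQ_26_wN_1_rb8033094a_d43_d4a4b24x1_2 : GoodKC AS k_wQ_26_wN_1_rb8033094a_d43_d4a4b24x1_2 := p_wQ_26_wN_1_rb8033094a_d43_d4a4b24x1_2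

theorem g__wQ_26_wN_1_rb8033094a_d43_d4a4b24x1_0 : GoodKC AS k_wQ_26_wN_1_rb8033094a_d43_d4a4b24x1_0 := p_wQ_26_wN_1_rb8033094a_d43_d4a4b24x1_0 g__wQ_26_wN_1_rb8033094a_d43_d4a4b24x1_1 g__wQ_26_wN_1_rb8033094a_d43_d4a4b24x1_2

theorem g__wQ_26_wN_1_rb8033094a_d43_d4a4b24x1_5 : GoodKC AS k_wQ_26_wN_1_rb8033094a_d43_d4a4b24x1_5 := p_wQ_26_wN_1_rb8033094a_d43_d4a4b24x1_5

theorem g__wQ_26_wN_1_rb8033094a_d43_d4a4b24x1_4 : GoodKC AS k_wQ_26_wN_1_rb8033094a_d43_d4a4b24x1_4 := p_wQ_26_wN_1_rb8033094a_d43_d4a4b24x1_4 g__wQ_26_wN_1_rb8033094a_d43_d4a4b24x1_5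

theorem g__wQ_26_wN_1_rb8033094a_d43_d4a4b24x1_3 : GoodKC AS k_wQ_26_wN_1_rb8033094a_d43_d4a4b24x1_3 := p_wQ_26_wN_1_rb8033094a_d43_d4a4b24x1_3 g__wQ_26_wN_1_rb8033094a_d43_d4a4b24x1_4

theorem g__wQ_26_wN_1_rb8033094a_d43_d4a4b24x1_7 : GoodKC AS k_wQ_26_wN_1_rb8033094a_d43_d4a4b24x1_7 := p_wQ_26_wN_1_rb8033094a_d43_d4a4b24x1_7

theorem g__wQ_26_wN_1_rb8033094a_d43_d4a4b24x1_8 : GoodKC AS k_wQ_26_wN_1_rb8033094a_d43_d4a4b24x1_8 := p_wQ_26_wN_1_rb8033094a_d43_d4a4b24x1_8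

theorem g__wQ_26_wN_1_rb8033094a_d43_d4a4b24x1_10 : GoodKC AS k_wQ_26_wN_1_rb8033094a_d43_d4a4b24x1_10 := p_wQ_26_wN_1_rb8033094a_d43_d4a4b24x1_10

theorem g__wQ_26_wN_1_rb8033094a_d43_d4a4b24x1_12 : GoodKC AS k_wQ_26_wN_1_rb8033094a_d43_d4a4b24x1_12 := p_wQ_26_wN_1_rb8033094a_d43_d4a4b24x1_12

theorem g__wQ_26_wN_1_rb8033094a_d43_d4a4b24x1_11 : GoodKC AS k_wQ_26_wN_1_rb8033094a_d43_d4a4b24x1_11 := p_wQ_26_wN_1_rb8033094a_d43_d4a4b24x1_11 g__wQ_26_wN_1_rb8033094a_d43_d4a4b24x1_12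

theorem g__wQ_26_wN_1_rb8033094a_d43_d4a4b24x1_9 : GoodKC AS k_wQ_26_wN_1_rb8033094a_d43_d4a4b24x1_9 := p_wQ_26_wN_1_rb8033094a_d43_d4a4b24x1_9 g__wQ_26_wN_1_rb8033094a_d43_d4a4b24x1_10 g__wQ_26_wN_1_rb8033094a_d43_d4a4b24x1_11

theorem g__wQ_26_wN_1_rb8033094a_d43_d4a4b24x1_6 : GoodKC AS k_wQ_26_wN_1_rb8033094a_d43_d4a4b24x1_6 := p_wQ_26_wN_1_rb8033094a_d43_d4a4b24x1_6 g__wQ_26_wN_1_rb8033094a_d43_d4a4b24x1_7 g__wQ_26_wN_1_rb8033094a_d43_d4a4b24x1_8 g__wQ_26_wN_1_rb8033094a_d43_d4a4b24x1_9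

theorem g__wQ_26_wN_1_rb8033094a_d43_d4a4b24x1_13 : GoodKC AS k_wQ_26_wN_1_rb8033094a_d43_d4a4b24x1_13 := p_wQ_26_wN_1_rb8033094a_d43_d4a4b24x1_13

theorem g__wQ_26_wN_1_rb8033094a_d43_d4a4b24x1_14 : GoodKC AS k_wQ_26_wN_1_rb8033094a_d43_d4a4b24x1_14 := p_wQ_26_wN_1_rb8033094a_d43_d4a4b24x1_14

theorem g__wQ_26_wN_1_rb8033094a_d43_d4a4b24x1_16 : GoodKC AS k_wQ_26_wN_1_rb8033094a_d43_d4a4b24x1_16 := p_wQ_26_wN_1_rb8033094a_d43_d4a4b24x1_16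

theorem g__wQ_26_wN_1_rb8033094a_d43_d4a4b24x1_15 : GoodKC AS k_wQ_26_wN_1_rb8033094a_d43_d4a4b24x1_15 := p_wQ_26_wN_1_rb8033094a_d43_d4a4b24x1_15 g__wQ_26_wN_1_rb8033094a_d43_d4a4b24x1_16

theorem g_wQ_26_wN_1_rb8033094a_d43_d4a4b24x1 : GoodKC AS c_wQ_26_wN_1_rb8033094a_d43_d4a4b24x1 := p_wQ_26_wN_1_rb8033094a_d43_d4a4b24x1 g__wQ_26_wN_1_rb8033094a_d43_d4a4b24x1_0 g__wQ_26_wN_1_rb8033094a_d43_d4a4b24x1_3 g__wQ_26_wN_1_rb8033094a_d43_d4a4b24x1_6 g__wQ_26_wN_1_rb8033094a_d43_d4a4b24x1_13 g__wQ_26_wN_1_rb8033094a_d43_d4a4b24x1_14 g__wQ_26_wN_1_rb8033094a_d43_d4a4b24x1_15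

theorem g_wQ_26_wN_1_rb8033094a_d43_d4a4b23x1 : GoodKC AS c_wQ_26_wN_1_rb8033094a_d43_d4a4b23x1 := p_wQ_26_wN_1_rb8033094a_d43_d4a4b23x1

theorem g_wQ_26_wN_1_rb8033094a_d43_d4a4b21x1 : GoodKC AS c_wQ_26_wN_1_rb8033094a_d43_d4a4b21x1 := p_wQ_26_wN_1_rb8033094a_d43_d4a4b21x1

theorem g_wQ_26_wN_1_rb8033094a_d43_d4a4b1fx1 : GoodKC AS c_wQ_26_wN_1_rb8033094a_d43_d4a4b1fx1 := p_wQ_26_wN_1_rb8033094a_d43_d4a4b1fx1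

theorem g_wQ_26_wN_1_rb8033094a_d43_d4a4b1bx1 : GoodKC AS c_wQ_26_wN_1_rb8033094a_d43_d4a4b1bx1 := p_wQ_26_wN_1_rb8033094a_d43_d4a4b1bx1

theorem g__wQ_26_wN_1_rb8033094a_d43_d4a4b18x1_1 : GoodKC AS k_wQ_26_wN_1_rb8033094a_d43_d4a4b18x1_1 := p_wQ_26_wN_1_rb8033094a_d43_d4a4b18x1_1

theorem g__wQ_26_wN_1_rb8033094a_d43_d4a4b18x1_2 : GoodKC AS k_wQ_26_wN_1_rb8033094a_d43_d4a4b18x1_2 := p_wQ_26_wN_1_rb8033094a_d43_d4a4b18x1_2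

theorem g__wQ_26_wN_1_rb8033094a_d43_d4a4b18x1_3 : GoodKC AS k_wQ_26_wN_1_rb8033094a_d43_d4a4b18x1_3 := p_wQ_26_wN_1_rb8033094a_d43_d4a4b18x1_3

theorem g__wQ_26_wN_1_rb8033094a_d43_d4a4b18x1_0 : GoodKC AS k_wQ_26_wN_1_rb8033094a_d43_d4a4b18x1_0 := p_wQ_26_wN_1_rb8033094a_d43_d4a4b18x1_0 g__wQ_26_wN_1_rb8033094a_d43_d4a4b18x1_1 g__wQ_26_wN_1_rb8033094a_d43_d4a4b18x1_2 g__wQ_26_wN_1_rb8033094a_d43_d4a4b18x1_3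

theorem g_wQ_26_wN_1_rb8033094a_d43_d4a4b18x1 : GoodKC AS c_wQ_26_wN_1_rb8033094a_d43_d4a4b18x1 := p_wQ_26_wN_1_rb8033094a_d43_d4a4b18x1 g__wQ_26_wN_1_rb8033094a_d43_d4a4b18x1_0

theorem g_wQ_26_wN_1_rb8033094a_d43_d4a4b17x1 : GoodKC AS c_wQ_26_wN_1_rb8033094a_d43_d4a4b17x1 := p_wQ_26_wN_1_rb8033094a_d43_d4a4b17x1

theorem g_wQ_26_wN_1_rb8033094a_d43_d4a4b14x1 : GoodKC AS c_wQ_26_wN_1_rb8033094a_d43_d4a4b14x1 := p_wQ_26_wN_1_rb8033094a_d43_d4a4b14x1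

theorem g_wQ_26_wN_1_rb8033094a_d43_d4a4b13x1 : GoodKC AS c_wQ_26_wN_1_rb8033094a_d43_d4a4b13x1 := p_wQ_26_wN_1_rb8033094a_d43_d4a4b13x1

theorem g_wQ_26_wN_1_rb8033094a_d43_d4a4b12x1 : GoodKC AS c_wQ_26_wN_1_rb8033094a_d43_d4a4b12x1 := p_wQ_26_wN_1_rb8033094a_d43_d4a4b12x1

theorem g_wQ_26_wN_1_rb8033094a_d43_d4a4b11x1 : GoodKC AS c_wQ_26_wN_1_rb8033094a_d43_d4a4b11x1 := p_wQ_26_wN_1_rb8033094a_d43_d4a4b11x1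

theorem g_wQ_26_wN_1_rb8033094a_d43_d4a4b0fx1 : GoodKC AS c_wQ_26_wN_1_rb8033094a_d43_d4a4b0fx1 := p_wQ_26_wN_1_rb8033094a_d43_d4a4b0fx1

theorem g_wQ_26_wN_1_rb8033094a_d43_d4a4b0ex1 : GoodKC AS c_wQ_26_wN_1_rb8033094a_d43_d4a4b0ex1 := p_wQ_26_wN_1_rb8033094a_d43_d4a4b0ex1

theorem g_wQ_26_wN_1_rb8033094a_d43_d4a4b0dx1 : GoodKC AS c_wQ_26_wN_1_rb8033094a_d43_d4a4b0dx1 := p_wQ_26_wN_1_rb8033094a_d43_d4a4b0dx1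

theorem g__wQ_26_wN_1_rb8033094a_d43_d4a4b0bx1_1 : GoodKC AS k_wQ_26_wN_1_rb8033094a_d43_d4a4b0bx1_1 := p_wQ_26_wN_1_rb8033094a_d43_d4a4b0bx1_1

theorem g__wQ_26_wN_1_rb8033094a_d43_d4a4b0bx1_0 : GoodKC AS k_wQ_26_wN_1_rb8033094a_d43_d4a4b0bx1_0 := p_wQ_26_wN_1_rb8033094a_d43_d4a4b0bx1_0 g__wQ_26_wN_1_rb8033094a_d43_d4a4b0bx1_1

theorem g__wQ_26_wN_1_rb8033094a_d43_d4a4b0bx1_2 : GoodKC AS k_wQ_26_wN_1_rb8033094a_d43_d4a4b0bx1_2 := p_wQ_26_wN_1_rb8033094a_d43_d4a4b0bx1_2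

theorem g_wQ_26_wN_1_rb8033094a_d43_d4a4b0bx1 : GoodKC AS c_wQ_26_wN_1_rb8033094a_d43_d4a4b0bx1 := p_wQ_26_wN_1_rb8033094a_d43_d4a4b0bx1 g__wQ_26_wN_1_rb8033094a_d43_d4a4b0bx1_0 g__wQ_26_wN_1_rb8033094a_d43_d4a4b0bx1_2

theorem g__wQ_26_wN_1_rb8033094a_d43_d4a4b08x1_2 : GoodKC AS k_wQ_26_wN_1_rb8033094a_d43_d4a4b08x1_2 := p_wQ_26_wN_1_rb8033094a_d43_d4a4b08x1_2

theorem g__wQ_26_wN_1_rb8033094a_d43_d4a4b08x1_1 : GoodKC AS k_wQ_26_wN_1_rb8033094a_d43_d4a4b08x1_1 := p_wQ_26_wN_1_rb8033094a_d43_d4a4b08x1_1 g__wQ_26_wN_1_rb8033094a_d43_d4a4b08x1_2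

theorem g__wQ_26_wN_1_rb8033094a_d43_d4a4b08x1_0 : GoodKC AS k_wQ_26_wN_1_rb8033094a_d43_d4a4b08x1_0 := p_wQ_26_wN_1_rb8033094a_d43_d4a4b08x1_0 g__wQ_26_wN_1_rb8033094a_d43_d4a4b08x1_1

theorem g_wQ_26_wN_1_rb8033094a_d43_d4a4b08x1 : GoodKC AS c_wQ_26_wN_1_rb8033094a_d43_d4a4b08x1 := p_wQ_26_wN_1_rb8033094a_d43_d4a4b08x1 g__wQ_26_wN_1_rb8033094a_d43_d4a4b08x1_0

theorem g__wQ_26_wN_1_rb8033094a_d43_d4a4b07x1_0 : GoodKC AS k_wQ_26_wN_1_rb8033094a_d43_d4a4b07x1_0 := p_wQ_26_wN_1_rb8033094a_d43_d4a4b07x1_0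

theorem g_wQ_26_wN_1_rb8033094a_d43_d4a4b07x1 : GoodKC AS c_wQ_26_wN_1_rb8033094a_d43_d4a4b07x1 := p_wQ_26_wN_1_rb8033094a_d43_d4a4b07x1 g__wQ_26_wN_1_rb8033094a_d43_d4a4b07x1_0

theorem g_wQ_26_wN_1_rb8033094a_d43_d4a4b06x1 : GoodKC AS c_wQ_26_wN_1_rb8033094a_d43_d4a4b06x1 := p_wQ_26_wN_1_rb8033094a_d43_d4a4b06x1

theorem g_wQ_26_wN_1_rb8033094a_d43_d4a4b05x1 : GoodKC AS c_wQ_26_wN_1_rb8033094a_d43_d4a4b05x1 := p_wQ_26_wN_1_rb8033094a_d43_d4a4b05x1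

theorem g__wQ_26_wN_1_rb8033094a_d43_d4a4bx1_1 : GoodKC AS k_wQ_26_wN_1_rb8033094a_d43_d4a4bx1_1 := p_wQ_26_wN_1_rb8033094a_d43_d4a4bx1_1

theorem g__wQ_26_wN_1_rb8033094a_d43_d4a4bx1_3 : GoodKC AS k_wQ_26_wN_1_rb8033094a_d43_d4a4bx1_3 := p_wQ_26_wN_1_rb8033094a_d43_d4a4bx1_3

theorem g__wQ_26_wN_1_rb8033094a_d43_d4a4bx1_6 : GoodKC AS k_wQ_26_wN_1_rb8033094a_d43_d4a4bx1_6 := p_wQ_26_wN_1_rb8033094a_d43_d4a4bx1_6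

theorem g__wQ_26_wN_1_rb8033094a_d43_d4a4bx1_7 : GoodKC AS k_wQ_26_wN_1_rb8033094a_d43_d4a4bx1_7 := p_wQ_26_wN_1_rb8033094a_d43_d4a4bx1_7

theorem g__wQ_26_wN_1_rb8033094a_d43_d4a4bx1_8 : GoodKC AS k_wQ_26_wN_1_rb8033094a_d43_d4a4bx1_8 := p_wQ_26_wN_1_rb8033094a_d43_d4a4bx1_8

theorem g__wQ_26_wN_1_rb8033094a_d43_d4a4bx1_5 : GoodKC AS k_wQ_26_wN_1_rb8033094a_d43_d4a4bx1_5 := p_wQ_26_wN_1_rb8033094a_d43_d4a4bx1_5 g__wQ_26_wN_1_rb8033094a_d43_d4a4bx1_6 g__wQ_26_wN_1_rb8033094a_d43_d4a4bx1_7 g__wQ_26_wN_1_rb8033094a_d43_d4a4bx1_8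

theorem g__wQ_26_wN_1_rb8033094a_d43_d4a4bx1_4 : GoodKC AS k_wQ_26_wN_1_rb8033094a_d43_d4a4bx1_4 := p_wQ_26_wN_1_rb8033094a_d43_d4a4bx1_4 g__wQ_26_wN_1_rb8033094a_d43_d4a4bx1_5

theorem g__wQ_26_wN_1_rb8033094a_d43_d4a4bx1_2 : GoodKC AS k_wQ_26_wN_1_rb8033094a_d43_d4a4bx1_2 := p_wQ_26_wN_1_rb8033094a_d43_d4a4bx1_2 g__wQ_26_wN_1_rb8033094a_d43_d4a4bx1_3 g__wQ_26_wN_1_rb8033094a_d43_d4a4bx1_4

theorem g__wQ_26_wN_1_rb8033094a_d43_d4a4bx1_10 : GoodKC AS k_wQ_26_wN_1_rb8033094a_d43_d4a4bx1_10 := p_wQ_26_wN_1_rb8033094a_d43_d4a4bx1_10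

theorem g__wQ_26_wN_1_rb8033094a_d43_d4a4bx1_9 : GoodKC AS k_wQ_26_wN_1_rb8033094a_d43_d4a4bx1_9 := p_wQ_26_wN_1_rb8033094a_d43_d4a4bx1_9 g__wQ_26_wN_1_rb8033094a_d43_d4a4bx1_10

theorem g__wQ_26_wN_1_rb8033094a_d43_d4a4bx1_11 : GoodKC AS k_wQ_26_wN_1_rb8033094a_d43_d4a4bx1_11 := p_wQ_26_wN_1_rb8033094a_d43_d4a4bx1_11

theorem g__wQ_26_wN_1_rb8033094a_d43_d4a4bx1_0 : GoodKC AS k_wQ_26_wN_1_rb8033094a_d43_d4a4bx1_0 := p_wQ_26_wN_1_rb8033094a_d43_d4a4bx1_0 g__wQ_26_wN_1_rb8033094a_d43_d4a4bx1_1 g__wQ_26_wN_1_rb8033094a_d43_d4a4bx1_2 g__wQ_26_wN_1_rb8033094a_d43_d4a4bx1_9 g__wQ_26_wN_1_rb8033094a_d43_d4a4bx1_11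

theorem g_wQ_26_wN_1_rb8033094a_d43_d4a4b03x1 : GoodKC AS c_wQ_26_wN_1_rb8033094a_d43_d4a4b03x1 := p_wQ_26_wN_1_rb8033094a_d43_d4a4b03x1

theorem g_wQ_26_wN_1_rb8033094a_d43_d4a4b02x1 : GoodKC AS c_wQ_26_wN_1_rb8033094a_d43_d4a4b02x1 := p_wQ_26_wN_1_rb8033094a_d43_d4a4b02x1

theorem g_wQ_26_wN_1_rb8033094a_d43_d4a4b01x1 : GoodKC AS c_wQ_26_wN_1_rb8033094a_d43_d4a4b01x1 := p_wQ_26_wN_1_rb8033094a_d43_d4a4b01x1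

theorem g_wQ_26_wN_1_rb8033094a_d43_d4a4b00x1 : GoodKC AS c_wQ_26_wN_1_rb8033094a_d43_d4a4b00x1 := p_wQ_26_wN_1_rb8033094a_d43_d4a4b00x1

theorem g_wQ_26_wN_1_rb8033094a_d43_d4a4b04x1 : GoodKC AS c_wQ_26_wN_1_rb8033094a_d43_d4a4b04x1 := p_wQ_26_wN_1_rb8033094a_d43_d4a4b04x1

theorem g_wQ_26_wN_1_rb8033094a_d43_d4a4b09x1 : GoodKC AS c_wQ_26_wN_1_rb8033094a_d43_d4a4b09x1 := p_wQ_26_wN_1_rb8033094a_d43_d4a4b09x1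

theorem g__wQ_26_wN_1_rb8033094a_d43_d4a4b0ax1_0 : GoodKC AS k_wQ_26_wN_1_rb8033094a_d43_d4a4b0ax1_0 := p_wQ_26_wN_1_rb8033094a_d43_d4a4b0ax1_0

theorem g_wQ_26_wN_1_rb8033094a_d43_d4a4b0ax1 : GoodKC AS c_wQ_26_wN_1_rb8033094a_d43_d4a4b0ax1 := p_wQ_26_wN_1_rb8033094a_d43_d4a4b0ax1 g__wQ_26_wN_1_rb8033094a_d43_d4a4b0ax1_0

theorem g__wQ_26_wN_1_rb8033094a_d43_d4a4b0cx1_0 : GoodKC AS k_wQ_26_wN_1_rb8033094a_d43_d4a4b0cx1_0 := p_wQ_26_wN_1_rb8033094a_d43_d4a4b0cx1_0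

theorem g_wQ_26_wN_1_rb8033094a_d43_d4a4b0cx1 : GoodKC AS c_wQ_26_wN_1_rb8033094a_d43_d4a4b0cx1 := p_wQ_26_wN_1_rb8033094a_d43_d4a4b0cx1 g__wQ_26_wN_1_rb8033094a_d43_d4a4b0cx1_0

theorem g__wQ_26_wN_1_rb8033094a_d43_d4a4b10v1_2 : GoodKC AS k_wQ_26_wN_1_rb8033094a_d43_d4a4b10v1_2 := p_wQ_26_wN_1_rb8033094a_d43_d4a4b10v1_2

theorem g__wQ_26_wN_1_rb8033094a_d43_d4a4b10v1_1 : GoodKC AS k_wQ_26_wN_1_rb8033094a_d43_d4a4b10v1_1 := p_wQ_26_wN_1_rb8033094a_d43_d4a4b10v1_1 g__wQ_26_wN_1_rb8033094a_d43_d4a4b10v1_2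

theorem g__wQ_26_wN_1_rb8033094a_d43_d4a4b10v1_3 : GoodKC AS k_wQ_26_wN_1_rb8033094a_d43_d4a4b10v1_3 := p_wQ_26_wN_1_rb8033094a_d43_d4a4b10v1_3

theorem g__wQ_26_wN_1_rb8033094a_d43_d4a4b10v1_4 : GoodKC AS k_wQ_26_wN_1_rb8033094a_d43_d4a4b10v1_4 := p_wQ_26_wN_1_rb8033094a_d43_d4a4b10v1_4

theorem g__wQ_26_wN_1_rb8033094a_d43_d4a4b10v1_0 : GoodKC AS k_wQ_26_wN_1_rb8033094a_d43_d4a4b10v1_0 := p_wQ_26_wN_1_rb8033094a_d43_d4a4b10v1_0 g__wQ_26_wN_1_rb8033094a_d43_d4a4b10v1_1 g__wQ_26_wN_1_rb8033094a_d43_d4a4b10v1_3 g__wQ_26_wN_1_rb8033094a_d43_d4a4b10v1_4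

theorem g__wQ_26_wN_1_rb8033094a_d43_d4a4b10v1_7 : GoodKC AS k_wQ_26_wN_1_rb8033094a_d43_d4a4b10v1_7 := p_wQ_26_wN_1_rb8033094a_d43_d4a4b10v1_7

theorem g__wQ_26_wN_1_rb8033094a_d43_d4a4b10v1_6 : GoodKC AS k_wQ_26_wN_1_rb8033094a_d43_d4a4b10v1_6 := p_wQ_26_wN_1_rb8033094a_d43_d4a4b10v1_6 g__wQ_26_wN_1_rb8033094a_d43_d4a4b10v1_7

theorem g__wQ_26_wN_1_rb8033094a_d43_d4a4b10v1_10 : GoodKC AS k_wQ_26_wN_1_rb8033094a_d43_d4a4b10v1_10 := p_wQ_26_wN_1_rb8033094a_d43_d4a4b10v1_10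

theorem g__wQ_26_wN_1_rb8033094a_d43_d4a4b10v1_9 : GoodKC AS k_wQ_26_wN_1_rb8033094a_d43_d4a4b10v1_9 := p_wQ_26_wN_1_rb8033094a_d43_d4a4b10v1_9 g__wQ_26_wN_1_rb8033094a_d43_d4a4b10v1_10

theorem g__wQ_26_wN_1_rb8033094a_d43_d4a4b10v1_8 : GoodKC AS k_wQ_26_wN_1_rb8033094a_d43_d4a4b10v1_8 := p_wQ_26_wN_1_rb8033094a_d43_d4a4b10v1_8 g__wQ_26_wN_1_rb8033094a_d43_d4a4b10v1_9

theorem g__wQ_26_wN_1_rb8033094a_d43_d4a4b10v1_13 : GoodKC AS k_wQ_26_wN_1_rb8033094a_d43_d4a4b10v1_13 := p_wQ_26_wN_1_rb8033094a_d43_d4a4b10v1_13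

theorem g__wQ_26_wN_1_rb8033094a_d43_d4a4b10v1_12 : GoodKC AS k_wQ_26_wN_1_rb8033094a_d43_d4a4b10v1_12 := p_wQ_26_wN_1_rb8033094a_d43_d4a4b10v1_12 g__wQ_26_wN_1_rb8033094a_d43_d4a4b10v1_13

theorem g__wQ_26_wN_1_rb8033094a_d43_d4a4b10v1_11 : GoodKC AS k_wQ_26_wN_1_rb8033094a_d43_d4a4b10v1_11 := p_wQ_26_wN_1_rb8033094a_d43_d4a4b10v1_11 g__wQ_26_wN_1_rb8033094a_d43_d4a4b10v1_12

theorem g__wQ_26_wN_1_rb8033094a_d43_d4a4b10v1_5 : GoodKC AS k_wQ_26_wN_1_rb8033094a_d43_d4a4b10v1_5 := p_wQ_26_wN_1_rb8033094a_d43_d4a4b10v1_5 g__wQ_26_wN_1_rb8033094a_d43_d4a4b10v1_6 g__wQ_26_wN_1_rb8033094a_d43_d4a4b10v1_8 g__wQ_26_wN_1_rb8033094a_d43_d4a4b10v1_11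

theorem g_wQ_26_wN_1_rb8033094a_d43_d4a4b10x1 : GoodKC AS c_wQ_26_wN_1_rb8033094a_d43_d4a4b10x1 := p_wQ_26_wN_1_rb8033094a_d43_d4a4b10x1 g__wQ_26_wN_1_rb8033094a_d43_d4a4b10v1_0 g__wQ_26_wN_1_rb8033094a_d43_d4a4b10v1_5

theorem g_wQ_26_wN_1_rb8033094a_d43_d4a4b15x1 : GoodKC AS c_wQ_26_wN_1_rb8033094a_d43_d4a4b15x1 := p_wQ_26_wN_1_rb8033094a_d43_d4a4b15x1

theorem g__wQ_26_wN_1_rb8033094a_d43_d4a4b16x1_1 : GoodKC AS k_wQ_26_wN_1_rb8033094a_d43_d4a4b16x1_1 := p_wQ_26_wN_1_rb8033094a_d43_d4a4b16x1_1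

theorem g__wQ_26_wN_1_rb8033094a_d43_d4a4b16x1_0 : GoodKC AS k_wQ_26_wN_1_rb8033094a_d43_d4a4b16x1_0 := p_wQ_26_wN_1_rb8033094a_d43_d4a4b16x1_0 g__wQ_26_wN_1_rb8033094a_d43_d4a4b16x1_1

theorem g_wQ_26_wN_1_rb8033094a_d43_d4a4b16x1 : GoodKC AS c_wQ_26_wN_1_rb8033094a_d43_d4a4b16x1 := p_wQ_26_wN_1_rb8033094a_d43_d4a4b16x1 g__wQ_26_wN_1_rb8033094a_d43_d4a4b16x1_0

theorem g_wQ_26_wN_1_rb8033094a_d43_d4a4b19x1 : GoodKC AS c_wQ_26_wN_1_rb8033094a_d43_d4a4b19x1 := p_wQ_26_wN_1_rb8033094a_d43_d4a4b19x1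

theorem g_wQ_26_wN_1_rb8033094a_d43_d4a4b1ax1 : GoodKC AS c_wQ_26_wN_1_rb8033094a_d43_d4a4b1ax1 := p_wQ_26_wN_1_rb8033094a_d43_d4a4b1ax1

theorem g__wQ_26_wN_1_rb8033094a_d43_d4a4b1c2a_0 : GoodKC AS k_wQ_26_wN_1_rb8033094a_d43_d4a4b1c2a_0 := p_wQ_26_wN_1_rb8033094a_d43_d4a4b1c2a_0

theorem g__wQ_26_wN_1_rb8033094a_d43_d4a4b1c2a_3 : GoodKC AS k_wQ_26_wN_1_rb8033094a_d43_d4a4b1c2a_3 := p_wQ_26_wN_1_rb8033094a_d43_d4a4b1c2a_3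

theorem g__wQ_26_wN_1_rb8033094a_d43_d4a4b1c2a_2 : GoodKC AS k_wQ_26_wN_1_rb8033094a_d43_d4a4b1c2a_2 := p_wQ_26_wN_1_rb8033094a_d43_d4a4b1c2a_2 g__wQ_26_wN_1_rb8033094a_d43_d4a4b1c2a_3

theorem g__wQ_26_wN_1_rb8033094a_d43_d4a4b1c2a_1 : GoodKC AS k_wQ_26_wN_1_rb8033094a_d43_d4a4b1c2a_1 := p_wQ_26_wN_1_rb8033094a_d43_d4a4b1c2a_1 g__wQ_26_wN_1_rb8033094a_d43_d4a4b1c2a_2

theorem g_wQ_26_wN_1_rb8033094a_d43_d4a4b1c2ax2 : GoodKC AS c_wQ_26_wN_1_rb8033094a_d43_d4a4b1c2ax2 := p_wQ_26_wN_1_rb8033094a_d43_d4a4b1c2a g__wQ_26_wN_1_rb8033094a_d43_d4a4b1c2a_0 g__wQ_26_wN_1_rb8033094a_d43_d4a4b1c2a_1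

theorem g__wQ_26_wN_1_rb8033094a_d43_d4a4b1c29_2 : GoodKC AS k_wQ_26_wN_1_rb8033094a_d43_d4a4b1c29_2 := p_wQ_26_wN_1_rb8033094a_d43_d4a4b1c29_2

theorem g__wQ_26_wN_1_rb8033094a_d43_d4a4b1c29_1 : GoodKC AS k_wQ_26_wN_1_rb8033094a_d43_d4a4b1c29_1 := p_wQ_26_wN_1_rb8033094a_d43_d4a4b1c29_1 g__wQ_26_wN_1_rb8033094a_d43_d4a4b1c29_2

theorem g__wQ_26_wN_1_rb8033094a_d43_d4a4b1c29_0 : GoodKC AS k_wQ_26_wN_1_rb8033094a_d43_d4a4b1c29_0 := p_wQ_26_wN_1_rb8033094a_d43_d4a4b1c29_0 g__wQ_26_wN_1_rb8033094a_d43_d4a4b1c29_1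

theorem g_wQ_26_wN_1_rb8033094a_d43_d4a4b1c29x2 : GoodKC AS c_wQ_26_wN_1_rb8033094a_d43_d4a4b1c29x2 := p_wQ_26_wN_1_rb8033094a_d43_d4a4b1c29 g__wQ_26_wN_1_rb8033094a_d43_d4a4b1c29_0

theorem g_wQ_26_wN_1_rb8033094a_d43_d4a4b1c28x2 : GoodKC AS c_wQ_26_wN_1_rb8033094a_d43_d4a4b1c28x2 := p_wQ_26_wN_1_rb8033094a_d43_d4a4b1c28

theorem g_wQ_26_wN_1_rb8033094a_d43_d4a4b1c27x2 : GoodKC AS c_wQ_26_wN_1_rb8033094a_d43_d4a4b1c27x2 := p_wQ_26_wN_1_rb8033094a_d43_d4a4b1c27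

theorem g_wQ_26_wN_1_rb8033094a_d43_d4a4b1c26x2 : GoodKC AS c_wQ_26_wN_1_rb8033094a_d43_d4a4b1c26x2 := p_wQ_26_wN_1_rb8033094a_d43_d4a4b1c26

theorem g_wQ_26_wN_1_rb8033094a_d43_d4a4b1c25x2 : GoodKC AS c_wQ_26_wN_1_rb8033094a_d43_d4a4b1c25x2 := p_wQ_26_wN_1_rb8033094a_d43_d4a4b1c25

theorem g_wQ_26_wN_1_rb8033094a_d43_d4a4b1c24x2 : GoodKC AS c_wQ_26_wN_1_rb8033094a_d43_d4a4b1c24x2 := p_wQ_26_wN_1_rb8033094a_d43_d4a4b1c24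

theorem g_wQ_26_wN_1_rb8033094a_d43_d4a4b1c23x2 : GoodKC AS c_wQ_26_wN_1_rb8033094a_d43_d4a4b1c23x2 := p_wQ_26_wN_1_rb8033094a_d43_d4a4b1c23

theorem g_wQ_26_wN_1_rb8033094a_d43_d4a4b1c22x2 : GoodKC AS c_wQ_26_wN_1_rb8033094a_d43_d4a4b1c22x2 := p_wQ_26_wN_1_rb8033094a_d43_d4a4b1c22

theorem g_wQ_26_wN_1_rb8033094a_d43_d4a4b1c1fx2 : GoodKC AS c_wQ_26_wN_1_rb8033094a_d43_d4a4b1c1fx2 := p_wQ_26_wN_1_rb8033094a_d43_d4a4b1c1f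

theorem g_wQ_26_wN_1_rb8033094a_d43_d4a4b1c1dx2 : GoodKC AS c_wQ_26_wN_1_rb8033094a_d43_d4a4b1c1dx2 := p_wQ_26_wN_1_rb8033094a_d43_d4a4b1c1d

theorem g_wQ_26_wN_1_rb8033094a_d43_d4a4b1c1cx2 : GoodKC AS c_wQ_26_wN_1_rb8033094a_d43_d4a4b1c1cx2 := p_wQ_26_wN_1_rb8033094a_d43_d4a4b1c1c

theorem g_wQ_26_wN_1_rb8033094a_d43_d4a4b1c1bx2 : GoodKC AS c_wQ_26_wN_1_rb8033094a_d43_d4a4b1c1bx2 := p_wQ_26_wN_1_rb8033094a_d43_d4a4b1c1b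

theorem g_wQ_26_wN_1_rb8033094a_d43_d4a4b1c1ax2 : GoodKC AS c_wQ_26_wN_1_rb8033094a_d43_d4a4b1c1ax2 := p_wQ_26_wN_1_rb8033094a_d43_d4a4b1c1a

theorem g__wQ_26_wN_1_rb8033094a_d43_d4a4b1c16_1 : GoodKC AS k_wQ_26_wN_1_rb8033094a_d43_d4a4b1c16_1 := p_wQ_26_wN_1_rb8033094a_d43_d4a4b1c16_1

theorem g__wQ_26_wN_1_rb8033094a_d43_d4a4b1c16_0 : GoodKC AS k_wQ_26_wN_1_rb8033094a_d43_d4a4b1c16_0 := p_wQ_26_wN_1_rb8033094a_d43_d4a4b1c16_0 g__wQ_26_wN_1_rb8033094a_d43_d4a4b1c16_1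

theorem g_wQ_26_wN_1_rb8033094a_d43_d4a4b1c16x2 : GoodKC AS c_wQ_26_wN_1_rb8033094a_d43_d4a4b1c16x2 := p_wQ_26_wN_1_rb8033094a_d43_d4a4b1c16 g__wQ_26_wN_1_rb8033094a_d43_d4a4b1c16_0

theorem g__wQ_26_wN_1_rb8033094a_d43_d4a4b1c10_2 : GoodKC AS k_wQ_26_wN_1_rb8033094a_d43_d4a4b1c10_2 := p_wQ_26_wN_1_rb8033094a_d43_d4a4b1c10_2

theorem g__wQ_26_wN_1_rb8033094a_d43_d4a4b1c10_1 : GoodKC AS k_wQ_26_wN_1_rb8033094a_d43_d4a4b1c10_1 := p_wQ_26_wN_1_rb8033094a_d43_d4a4b1c10_1 g__wQ_26_wN_1_rb8033094a_d43_d4a4b1c10_2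

theorem g__wQ_26_wN_1_rb8033094a_d43_d4a4b1c10_0 : GoodKC AS k_wQ_26_wN_1_rb8033094a_d43_d4a4b1c10_0 := p_wQ_26_wN_1_rb8033094a_d43_d4a4b1c10_0 g__wQ_26_wN_1_rb8033094a_d43_d4a4b1c10_1

theorem g_wQ_26_wN_1_rb8033094a_d43_d4a4b1c10x2 : GoodKC AS c_wQ_26_wN_1_rb8033094a_d43_d4a4b1c10x2 := p_wQ_26_wN_1_rb8033094a_d43_d4a4b1c10 g__wQ_26_wN_1_rb8033094a_d43_d4a4b1c10_0

theorem g_wQ_26_wN_1_rb8033094a_d43_d4a4b1c0fx2 : GoodKC AS c_wQ_26_wN_1_rb8033094a_d43_d4a4b1c0fx2 := p_wQ_26_wN_1_rb8033094a_d43_d4a4b1c0f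

theorem g_wQ_26_wN_1_rb8033094a_d43_d4a4b1c0ex2 : GoodKC AS c_wQ_26_wN_1_rb8033094a_d43_d4a4b1c0ex2 := p_wQ_26_wN_1_rb8033094a_d43_d4a4b1c0e

theorem g_wQ_26_wN_1_rb8033094a_d43_d4a4b1c0dx2 : GoodKC AS c_wQ_26_wN_1_rb8033094a_d43_d4a4b1c0dx2 := p_wQ_26_wN_1_rb8033094a_d43_d4a4b1c0d

theorem g_wQ_26_wN_1_rb8033094a_d43_d4a4b1c0cx2 : GoodKC AS c_wQ_26_wN_1_rb8033094a_d43_d4a4b1c0cx2 := p_wQ_26_wN_1_rb8033094a_d43_d4a4b1c0c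

theorem g_wQ_26_wN_1_rb8033094a_d43_d4a4b1c09x2 : GoodKC AS c_wQ_26_wN_1_rb8033094a_d43_d4a4b1c09x2 := p_wQ_26_wN_1_rb8033094a_d43_d4a4b1c09

theorem g_wQ_26_wN_1_rb8033094a_d43_d4a4b1c07x2 : GoodKC AS c_wQ_26_wN_1_rb8033094a_d43_d4a4b1c07x2 := p_wQ_26_wN_1_rb8033094a_d43_d4a4b1c07

theorem g_wQ_26_wN_1_rb8033094a_d43_d4a4b1c04x2 : GoodKC AS c_wQ_26_wN_1_rb8033094a_d43_d4a4b1c04x2 := p_wQ_26_wN_1_rb8033094a_d43_d4a4b1c04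

theorem g_wQ_26_wN_1_rb8033094a_d43_d4a4b1c03x2 : GoodKC AS c_wQ_26_wN_1_rb8033094a_d43_d4a4b1c03x2 := p_wQ_26_wN_1_rb8033094a_d43_d4a4b1c03

theorem g_wQ_26_wN_1_rb8033094a_d43_d4a4b1c02x2 : GoodKC AS c_wQ_26_wN_1_rb8033094a_d43_d4a4b1c02x2 := p_wQ_26_wN_1_rb8033094a_d43_d4a4b1c02

theorem g__wQ_26_wN_1_rb8033094a_d43_d4a4b1c00_2 : GoodKC AS k_wQ_26_wN_1_rb8033094a_d43_d4a4b1c00_2 := p_wQ_26_wN_1_rb8033094a_d43_d4a4b1c00_2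

theorem g__wQ_26_wN_1_rb8033094a_d43_d4a4b1c00_1 : GoodKC AS k_wQ_26_wN_1_rb8033094a_d43_d4a4b1c00_1 := p_wQ_26_wN_1_rb8033094a_d43_d4a4b1c00_1 g__wQ_26_wN_1_rb8033094a_d43_d4a4b1c00_2

theorem g__wQ_26_wN_1_rb8033094a_d43_d4a4b1c00_0 : GoodKC AS k_wQ_26_wN_1_rb8033094a_d43_d4a4b1c00_0 := p_wQ_26_wN_1_rb8033094a_d43_d4a4b1c00_0 g__wQ_26_wN_1_rb8033094a_d43_d4a4b1c00_1

theorem g_wQ_26_wN_1_rb8033094a_d43_d4a4b1c00x2 : GoodKC AS c_wQ_26_wN_1_rb8033094a_d43_d4a4b1c00x2 := p_wQ_26_wN_1_rb8033094a_d43_d4a4b1c00 g__wQ_26_wN_1_rb8033094a_d43_d4a4b1c00_0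

theorem g_wQ_26_wN_1_rb8033094a_d43_d4a4b1c01x2 : GoodKC AS c_wQ_26_wN_1_rb8033094a_d43_d4a4b1c01x2 := p_wQ_26_wN_1_rb8033094a_d43_d4a4b1c01

theorem g_wQ_26_wN_1_rb8033094a_d43_d4a4b1c05x2 : GoodKC AS c_wQ_26_wN_1_rb8033094a_d43_d4a4b1c05x2 := p_wQ_26_wN_1_rb8033094a_d43_d4a4b1c05

theorem g_wQ_26_wN_1_rb8033094a_d43_d4a4b1c06x2 : GoodKC AS c_wQ_26_wN_1_rb8033094a_d43_d4a4b1c06x2 := p_wQ_26_wN_1_rb8033094a_d43_d4a4b1c06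

theorem g_wQ_26_wN_1_rb8033094a_d43_d4a4b1c08x2 : GoodKC AS c_wQ_26_wN_1_rb8033094a_d43_d4a4b1c08x2 := p_wQ_26_wN_1_rb8033094a_d43_d4a4b1c08

theorem g_wQ_26_wN_1_rb8033094a_d43_d4a4b1c0ax2 : GoodKC AS c_wQ_26_wN_1_rb8033094a_d43_d4a4b1c0ax2 := p_wQ_26_wN_1_rb8033094a_d43_d4a4b1c0a

theorem g_wQ_26_wN_1_rb8033094a_d43_d4a4b1c0bx2 : GoodKC AS c_wQ_26_wN_1_rb8033094a_d43_d4a4b1c0bx2 := p_wQ_26_wN_1_rb8033094a_d43_d4a4b1c0b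

theorem g_wQ_26_wN_1_rb8033094a_d43_d4a4b1c11x2 : GoodKC AS c_wQ_26_wN_1_rb8033094a_d43_d4a4b1c11x2 := p_wQ_26_wN_1_rb8033094a_d43_d4a4b1c11

theorem g_wQ_26_wN_1_rb8033094a_d43_d4a4b1c12x2 : GoodKC AS c_wQ_26_wN_1_rb8033094a_d43_d4a4b1c12x2 := p_wQ_26_wN_1_rb8033094a_d43_d4a4b1c12

theorem g__wQ_26_wN_1_rb8033094a_d43_d4a4b1c13_0 : GoodKC AS k_wQ_26_wN_1_rb8033094a_d43_d4a4b1c13_0 := p_wQ_26_wN_1_rb8033094a_d43_d4a4b1c13_0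

theorem g_wQ_26_wN_1_rb8033094a_d43_d4a4b1c13x2 : GoodKC AS c_wQ_26_wN_1_rb8033094a_d43_d4a4b1c13x2 := p_wQ_26_wN_1_rb8033094a_d43_d4a4b1c13 g__wQ_26_wN_1_rb8033094a_d43_d4a4b1c13_0

theorem g_wQ_26_wN_1_rb8033094a_d43_d4a4b1c14x2 : GoodKC AS c_wQ_26_wN_1_rb8033094a_d43_d4a4b1c14x2 := p_wQ_26_wN_1_rb8033094a_d43_d4a4b1c14

theorem g_wQ_26_wN_1_rb8033094a_d43_d4a4b1c15x2 : GoodKC AS c_wQ_26_wN_1_rb8033094a_d43_d4a4b1c15x2 := p_wQ_26_wN_1_rb8033094a_d43_d4a4b1c15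

theorem g__wQ_26_wN_1_rb8033094a_d43_d4a4b1c17_0 : GoodKC AS k_wQ_26_wN_1_rb8033094a_d43_d4a4b1c17_0 := p_wQ_26_wN_1_rb8033094a_d43_d4a4b1c17_0

theorem g_wQ_26_wN_1_rb8033094a_d43_d4a4b1c17x2 : GoodKC AS c_wQ_26_wN_1_rb8033094a_d43_d4a4b1c17x2 := p_wQ_26_wN_1_rb8033094a_d43_d4a4b1c17 g__wQ_26_wN_1_rb8033094a_d43_d4a4b1c17_0

theorem g_wQ_26_wN_1_rb8033094a_d43_d4a4b1c18x2 : GoodKC AS c_wQ_26_wN_1_rb8033094a_d43_d4a4b1c18x2 := p_wQ_26_wN_1_rb8033094a_d43_d4a4b1c18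

theorem g_wQ_26_wN_1_rb8033094a_d43_d4a4b1c19x2 : GoodKC AS c_wQ_26_wN_1_rb8033094a_d43_d4a4b1c19x2 := p_wQ_26_wN_1_rb8033094a_d43_d4a4b1c19

theorem g_wQ_26_wN_1_rb8033094a_d43_d4a4b1c1ex2 : GoodKC AS c_wQ_26_wN_1_rb8033094a_d43_d4a4b1c1ex2 := p_wQ_26_wN_1_rb8033094a_d43_d4a4b1c1e

theorem g_wQ_26_wN_1_rb8033094a_d43_d4a4b1c20x2 : GoodKC AS c_wQ_26_wN_1_rb8033094a_d43_d4a4b1c20x2 := p_wQ_26_wN_1_rb8033094a_d43_d4a4b1c20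

theorem g_wQ_26_wN_1_rb8033094a_d43_d4a4b1c21x2 : GoodKC AS c_wQ_26_wN_1_rb8033094a_d43_d4a4b1c21x2 := p_wQ_26_wN_1_rb8033094a_d43_d4a4b1c21

theorem g__wQ_26_wN_1_rb8033094a_d43_d4a4b1cx2_6 : GoodKC AS k_wQ_26_wN_1_rb8033094a_d43_d4a4b1cx2_6 := p_wQ_26_wN_1_rb8033094a_d43_d4a4b1cx2_6

theorem g__wQ_26_wN_1_rb8033094a_d43_d4a4b1cx2_5 : GoodKC AS k_wQ_26_wN_1_rb8033094a_d43_d4a4b1cx2_5 := p_wQ_26_wN_1_rb8033094a_d43_d4a4b1cx2_5 g__wQ_26_wN_1_rb8033094a_d43_d4a4b1cx2_6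

theorem g__wQ_26_wN_1_rb8033094a_d43_d4a4b1cx2_4 : GoodKC AS k_wQ_26_wN_1_rb8033094a_d43_d4a4b1cx2_4 := p_wQ_26_wN_1_rb8033094a_d43_d4a4b1cx2_4 g__wQ_26_wN_1_rb8033094a_d43_d4a4b1cx2_5

theorem g__wQ_26_wN_1_rb8033094a_d43_d4a4b1cx2_9 : GoodKC AS k_wQ_26_wN_1_rb8033094a_d43_d4a4b1cx2_9 := p_wQ_26_wN_1_rb8033094a_d43_d4a4b1cx2_9

theorem g__wQ_26_wN_1_rb8033094a_d43_d4a4b1cx2_8 : GoodKC AS k_wQ_26_wN_1_rb8033094a_d43_d4a4b1cx2_8 := p_wQ_26_wN_1_rb8033094a_d43_d4a4b1cx2_8 g__wQ_26_wN_1_rb8033094a_d43_d4a4b1cx2_9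

theorem g__wQ_26_wN_1_rb8033094a_d43_d4a4b1cx2_7 : GoodKC AS k_wQ_26_wN_1_rb8033094a_d43_d4a4b1cx2_7 := p_wQ_26_wN_1_rb8033094a_d43_d4a4b1cx2_7 g__wQ_26_wN_1_rb8033094a_d43_d4a4b1cx2_8

theorem g__wQ_26_wN_1_rb8033094a_d43_d4a4b1cx2_3 : GoodKC AS k_wQ_26_wN_1_rb8033094a_d43_d4a4b1cx2_3 := p_wQ_26_wN_1_rb8033094a_d43_d4a4b1cx2_3 g__wQ_26_wN_1_rb8033094a_d43_d4a4b1cx2_4 g__wQ_26_wN_1_rb8033094a_d43_d4a4b1cx2_7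

theorem g__wQ_26_wN_1_rb8033094a_d43_d4a4b1cx2_10 : GoodKC AS k_wQ_26_wN_1_rb8033094a_d43_d4a4b1cx2_10 := p_wQ_26_wN_1_rb8033094a_d43_d4a4b1cx2_10

theorem g__wQ_26_wN_1_rb8033094a_d43_d4a4b1cx2_11 : GoodKC AS k_wQ_26_wN_1_rb8033094a_d43_d4a4b1cx2_11 := p_wQ_26_wN_1_rb8033094a_d43_d4a4b1cx2_11

theorem g__wQ_26_wN_1_rb8033094a_d43_d4a4b1cx2_14 : GoodKC AS k_wQ_26_wN_1_rb8033094a_d43_d4a4b1cx2_14 := p_wQ_26_wN_1_rb8033094a_d43_d4a4b1cx2_14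

theorem g__wQ_26_wN_1_rb8033094a_d43_d4a4b1cx2_13 : GoodKC AS k_wQ_26_wN_1_rb8033094a_d43_d4a4b1cx2_13 := p_wQ_26_wN_1_rb8033094a_d43_d4a4b1cx2_13 g__wQ_26_wN_1_rb8033094a_d43_d4a4b1cx2_14

theorem g__wQ_26_wN_1_rb8033094a_d43_d4a4b1cx2_16 : GoodKC AS k_wQ_26_wN_1_rb8033094a_d43_d4a4b1cx2_16 := p_wQ_26_wN_1_rb8033094a_d43_d4a4b1cx2_16

theorem g__wQ_26_wN_1_rb8033094a_d43_d4a4b1cx2_17 : GoodKC AS k_wQ_26_wN_1_rb8033094a_d43_d4a4b1cx2_17 := p_wQ_26_wN_1_rb8033094a_d43_d4a4b1cx2_17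

theorem g__wQ_26_wN_1_rb8033094a_d43_d4a4b1cx2_15 : GoodKC AS k_wQ_26_wN_1_rb8033094a_d43_d4a4b1cx2_15 := p_wQ_26_wN_1_rb8033094a_d43_d4a4b1cx2_15 g__wQ_26_wN_1_rb8033094a_d43_d4a4b1cx2_16 g__wQ_26_wN_1_rb8033094a_d43_d4a4b1cx2_17

theorem g__wQ_26_wN_1_rb8033094a_d43_d4a4b1cx2_19 : GoodKC AS k_wQ_26_wN_1_rb8033094a_d43_d4a4b1cx2_19 := p_wQ_26_wN_1_rb8033094a_d43_d4a4b1cx2_19

theorem g__wQ_26_wN_1_rb8033094a_d43_d4a4b1cx2_18 : GoodKC AS k_wQ_26_wN_1_rb8033094a_d43_d4a4b1cx2_18 := p_wQ_26_wN_1_rb8033094a_d43_d4a4b1cx2_18 g__wQ_26_wN_1_rb8033094a_d43_d4a4b1cx2_19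

theorem g__wQ_26_wN_1_rb8033094a_d43_d4a4b1cx2_12 : GoodKC AS k_wQ_26_wN_1_rb8033094a_d43_d4a4b1cx2_12 := p_wQ_26_wN_1_rb8033094a_d43_d4a4b1cx2_12 g__wQ_26_wN_1_rb8033094a_d43_d4a4b1cx2_13 g__wQ_26_wN_1_rb8033094a_d43_d4a4b1cx2_15 g__wQ_26_wN_1_rb8033094a_d43_d4a4b1cx2_18

theorem g__wQ_26_wN_1_rb8033094a_d43_d4a4b1cx2_2 : GoodKC AS k_wQ_26_wN_1_rb8033094a_d43_d4a4b1cx2_2 := p_wQ_26_wN_1_rb8033094a_d43_d4a4b1cx2_2 g__wQ_26_wN_1_rb8033094a_d43_d4a4b1cx2_3 g__wQ_26_wN_1_rb8033094a_d43_d4a4b1cx2_10 g__wQ_26_wN_1_rb8033094a_d43_d4a4b1cx2_11 g__wQ_26_wN_1_rb8033094a_d43_d4a4b1cx2_12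

theorem g__wQ_26_wN_1_rb8033094a_d43_d4a4b1cx2_21 : GoodKC AS k_wQ_26_wN_1_rb8033094a_d43_d4a4b1cx2_21 := p_wQ_26_wN_1_rb8033094a_d43_d4a4b1cx2_21

theorem g__wQ_26_wN_1_rb8033094a_d43_d4a4b1cx2_20 : GoodKC AS k_wQ_26_wN_1_rb8033094a_d43_d4a4b1cx2_20 := p_wQ_26_wN_1_rb8033094a_d43_d4a4b1cx2_20 g__wQ_26_wN_1_rb8033094a_d43_d4a4b1cx2_21

theorem g__wQ_26_wN_1_rb8033094a_d43_d4a4b1cx2_24 : GoodKC AS k_wQ_26_wN_1_rb8033094a_d43_d4a4b1cx2_24 := p_wQ_26_wN_1_rb8033094a_d43_d4a4b1cx2_24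

theorem g__wQ_26_wN_1_rb8033094a_d43_d4a4b1cx2_26 : GoodKC AS k_wQ_26_wN_1_rb8033094a_d43_d4a4b1cx2_26 := p_wQ_26_wN_1_rb8033094a_d43_d4a4b1cx2_26

theorem g__wQ_26_wN_1_rb8033094a_d43_d4a4b1cx2_25 : GoodKC AS k_wQ_26_wN_1_rb8033094a_d43_d4a4b1cx2_25 := p_wQ_26_wN_1_rb8033094a_d43_d4a4b1cx2_25 g__wQ_26_wN_1_rb8033094a_d43_d4a4b1cx2_26

theorem g__wQ_26_wN_1_rb8033094a_d43_d4a4b1cx2_31 : GoodKC AS k_wQ_26_wN_1_rb8033094a_d43_d4a4b1cx2_31 := p_wQ_26_wN_1_rb8033094a_d43_d4a4b1cx2_31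

theorem g__wQ_26_wN_1_rb8033094a_d43_d4a4b1cx2_32 : GoodKC AS k_wQ_26_wN_1_rb8033094a_d43_d4a4b1cx2_32 := p_wQ_26_wN_1_rb8033094a_d43_d4a4b1cx2_32

theorem g__wQ_26_wN_1_rb8033094a_d43_d4a4b1cx2_33 : GoodKC AS k_wQ_26_wN_1_rb8033094a_d43_d4a4b1cx2_33 := p_wQ_26_wN_1_rb8033094a_d43_d4a4b1cx2_33

theorem g__wQ_26_wN_1_rb8033094a_d43_d4a4b1cx2_30 : GoodKC AS k_wQ_26_wN_1_rb8033094a_d43_d4a4b1cx2_30 := p_wQ_26_wN_1_rb8033094a_d43_d4a4b1cx2_30 g__wQ_26_wN_1_rb8033094a_d43_d4a4b1cx2_31 g__wQ_26_wN_1_rb8033094a_d43_d4a4b1cx2_32 g__wQ_26_wN_1_rb8033094a_d43_d4a4b1cx2_33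

theorem g__wQ_26_wN_1_rb8033094a_d43_d4a4b1cx2_34 : GoodKC AS k_wQ_26_wN_1_rb8033094a_d43_d4a4b1cx2_34 := p_wQ_26_wN_1_rb8033094a_d43_d4a4b1cx2_34

theorem g__wQ_26_wN_1_rb8033094a_d43_d4a4b1cx2_29 : GoodKC AS k_wQ_26_wN_1_rb8033094a_d43_d4a4b1cx2_29 := p_wQ_26_wN_1_rb8033094a_d43_d4a4b1cx2_29 g__wQ_26_wN_1_rb8033094a_d43_d4a4b1cx2_30 g__wQ_26_wN_1_rb8033094a_d43_d4a4b1cx2_34

theorem g__wQ_26_wN_1_rb8033094a_d43_d4a4b1cx2_28 : GoodKC AS k_wQ_26_wN_1_rb8033094a_d43_d4a4b1cx2_28 := p_wQ_26_wN_1_rb8033094a_d43_d4a4b1cx2_28 g__wQ_26_wN_1_rb8033094a_d43_d4a4b1cx2_29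

theorem g__wQ_26_wN_1_rb8033094a_d43_d4a4b1cx2_27 : GoodKC AS k_wQ_26_wN_1_rb8033094a_d43_d4a4b1cx2_27 := p_wQ_26_wN_1_rb8033094a_d43_d4a4b1cx2_27 g__wQ_26_wN_1_rb8033094a_d43_d4a4b1cx2_28

theorem g__wQ_26_wN_1_rb8033094a_d43_d4a4b1cx2_23 : GoodKC AS k_wQ_26_wN_1_rb8033094a_d43_d4a4b1cx2_23 := p_wQ_26_wN_1_rb8033094a_d43_d4a4b1cx2_23 g__wQ_26_wN_1_rb8033094a_d43_d4a4b1cx2_24 g__wQ_26_wN_1_rb8033094a_d43_d4a4b1cx2_25 g__wQ_26_wN_1_rb8033094a_d43_d4a4b1cx2_27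

theorem g__wQ_26_wN_1_rb8033094a_d43_d4a4b1cx2_22 : GoodKC AS k_wQ_26_wN_1_rb8033094a_d43_d4a4b1cx2_22 := p_wQ_26_wN_1_rb8033094a_d43_d4a4b1cx2_22 g__wQ_26_wN_1_rb8033094a_d43_d4a4b1cx2_23

theorem g__wQ_26_wN_1_rb8033094a_d43_d4a4b1cx2_1 : GoodKC AS k_wQ_26_wN_1_rb8033094a_d43_d4a4b1cx2_1 := p_wQ_26_wN_1_rb8033094a_d43_d4a4b1cx2_1 g__wQ_26_wN_1_rb8033094a_d43_d4a4b1cx2_2 g__wQ_26_wN_1_rb8033094a_d43_d4a4b1cx2_20 g__wQ_26_wN_1_rb8033094a_d43_d4a4b1cx2_22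

theorem g__wQ_26_wN_1_rb8033094a_d43_d4a4b1cx2_0 : GoodKC AS k_wQ_26_wN_1_rb8033094a_d43_d4a4b1cx2_0 := p_wQ_26_wN_1_rb8033094a_d43_d4a4b1cx2_0 g__wQ_26_wN_1_rb8033094a_d43_d4a4b1cx2_1

theorem g_wQ_26_wN_1_rb8033094a_d43_d4a4b1cx1 : GoodKC AS c_wQ_26_wN_1_rb8033094a_d43_d4a4b1cx1 := p_wQ_26_wN_1_rb8033094a_d43_d4a4b1cx2 g_wQ_26_wN_1_rb8033094a_d43_d4a4b1c2ax2 g_wQ_26_wN_1_rb8033094a_d43_d4a4b1c29x2 g_wQ_26_wN_1_rb8033094a_d43_d4a4b1c28x2 g_wQ_26_wN_1_rb8033094a_d43_d4a4b1c27x2 g_wQ_26_wN_1_rb8033094a_d43_d4a4b1c26x2 g_wQ_26_wN_1_rb8033094a_d43_d4a4b1c25x2 g_wQ_26_wN_1_rb8033094a_d43_d4a4b1c24x2 g_wQ_26_wN_1_rb8033094a_d43_d4a4b1c23x2 g_wQ_26_wN_1_rb8033094a_d43_d4a4b1c22x2 g_wQ_26_wN_1_rb8033094a_d43_d4a4b1c1fx2 g_wQ_26_wN_1_rb8033094a_d43_d4a4b1c1dx2 g_wQ_26_wN_1_rb8033094a_d43_d4a4b1c1cx2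 g_wQ_26_wN_1_rb8033094a_d43_d4a4b1c1bx2 g_wQ_26_wN_1_rb8033094a_d43_d4a4b1c1ax2 g_wQ_26_wN_1_rb8033094a_d43_d4a4b1c16x2 g_wQ_26_wN_1_rb8033094a_d43_d4a4b1c10x2 g_wQ_26_wN_1_rb8033094a_d43_d4a4b1c0fx2 g_wQ_26_wN_1_rb8033094a_d43_d4a4b1c0ex2 g_wQ_26_wN_1_rb8033094a_d43_d4a4b1c0dx2 g_wQ_26_wN_1_rb8033094a_d43_d4a4b1c0cx2 g_wQ_26_wN_1_rb8033094a_d43_d4a4b1c09x2 g_wQ_26_wN_1_rb8033094a_d43_d4a4b1c07x2 g_wQ_26_wN_1_rb8033094a_d43_d4a4b1c04x2 g_wQ_26_wN_1_rb8033094a_d43_d4a4b1c03x2 g_wQ_26_wN_1_rb8033094a_d43_d4a4b1c02x2 g_wQ_26_wN_1_rb8033094a_d43_d4a4b1c00x2 g_wQ_26_wN_1_rb8033094a_d43_d4a4b1c01x2 g_wQ_26_wN_1_rb8033094a_d43_d4a4b1c05x2 g_wQ_26_wN_1_rb8033094a_d43_d4a4b1c06x2 g_wQ_26_wN_1_rb8033094a_d43_d4a4b1c08x2 g_wQ_26_wN_1_rb8033094a_d43_d4a4b1c0ax2 g_wQ_26_wN_1_rb8033094a_d43_d4a4b1c0bx2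 g_wQ_26_wN_1_rb8033094a_d43_d4a4b1c11x2 g_wQ_26_wN_1_rb8033094a_d43_d4a4b1c12x2 g_wQ_26_wN_1_rb8033094a_d43_d4a4b1c13x2 g_wQ_26_wN_1_rb8033094a_d43_d4a4b1c14x2 g_wQ_26_wN_1_rb8033094a_d43_d4a4b1c15x2 g_wQ_26_wN_1_rb8033094a_d43_d4a4b1c17x2 g_wQ_26_wN_1_rb8033094a_d43_d4a4b1c18x2 g_wQ_26_wN_1_rb8033094a_d43_d4a4b1c19x2 g_wQ_26_wN_1_rb8033094a_d43_d4a4b1c1ex2 g_wQ_26_wN_1_rb8033094a_d43_d4a4b1c20x2 g_wQ_26_wN_1_rb8033094a_d43_d4a4b1c21x2 g__wQ_26_wN_1_rb8033094a_d43_d4a4b1cx2_0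

theorem g_wQ_26_wN_1_rb8033094a_d43_d4a4b1dx1 : GoodKC AS c_wQ_26_wN_1_rb8033094a_d43_d4a4b1dx1 := p_wQ_26_wN_1_rb8033094a_d43_d4a4b1dx1

theorem g__wQ_26_wN_1_rb8033094a_d43_d4a4b1ex1_0 : GoodKC AS k_wQ_26_wN_1_rb8033094a_d43_d4a4b1ex1_0 := p_wQ_26_wN_1_rb8033094a_d43_d4a4b1ex1_0

theorem g_wQ_26_wN_1_rb8033094a_d43_d4a4b1ex1 : GoodKC AS c_wQ_26_wN_1_rb8033094a_d43_d4a4b1ex1 := p_wQ_26_wN_1_rb8033094a_d43_d4a4b1ex1 g__wQ_26_wN_1_rb8033094a_d43_d4a4b1ex1_0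

theorem g_wQ_26_wN_1_rb8033094a_d43_d4a4b20x1 : GoodKC AS c_wQ_26_wN_1_rb8033094a_d43_d4a4b20x1 := p_wQ_26_wN_1_rb8033094a_d43_d4a4b20x1

theorem g__wQ_26_wN_1_rb8033094a_d43_d4a4b22x1_1 : GoodKC AS k_wQ_26_wN_1_rb8033094a_d43_d4a4b22x1_1 := p_wQ_26_wN_1_rb8033094a_d43_d4a4b22x1_1

theorem g__wQ_26_wN_1_rb8033094a_d43_d4a4b22x1_0 : GoodKC AS k_wQ_26_wN_1_rb8033094a_d43_d4a4b22x1_0 := p_wQ_26_wN_1_rb8033094a_d43_d4a4b22x1_0 g__wQ_26_wN_1_rb8033094a_d43_d4a4b22x1_1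

theorem g_wQ_26_wN_1_rb8033094a_d43_d4a4b22x1 : GoodKC AS c_wQ_26_wN_1_rb8033094a_d43_d4a4b22x1 := p_wQ_26_wN_1_rb8033094a_d43_d4a4b22x1 g__wQ_26_wN_1_rb8033094a_d43_d4a4b22x1_0

theorem g__wQ_26_wN_1_rb8033094a_d43_d4a4b26x1_1 : GoodKC AS k_wQ_26_wN_1_rb8033094a_d43_d4a4b26x1_1 := p_wQ_26_wN_1_rb8033094a_d43_d4a4b26x1_1

theorem g__wQ_26_wN_1_rb8033094a_d43_d4a4b26x1_0 : GoodKC AS k_wQ_26_wN_1_rb8033094a_d43_d4a4b26x1_0 := p_wQ_26_wN_1_rb8033094a_d43_d4a4b26x1_0 g__wQ_26_wN_1_rb8033094a_d43_d4a4b26x1_1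

theorem g_wQ_26_wN_1_rb8033094a_d43_d4a4b26x1 : GoodKC AS c_wQ_26_wN_1_rb8033094a_d43_d4a4b26x1 := p_wQ_26_wN_1_rb8033094a_d43_d4a4b26x1 g__wQ_26_wN_1_rb8033094a_d43_d4a4b26x1_0

theorem g_wQ_26_wN_1_rb8033094a_d43_d4a4b2bx1 : GoodKC AS c_wQ_26_wN_1_rb8033094a_d43_d4a4b2bx1 := p_wQ_26_wN_1_rb8033094a_d43_d4a4b2bx1

theorem g_wQ_26_wN_1_rb8033094a_d43_d4a4b30x1 : GoodKC AS c_wQ_26_wN_1_rb8033094a_d43_d4a4b30x1 := p_wQ_26_wN_1_rb8033094a_d43_d4a4b30x1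

theorem g_wQ_26_wN_1_rb8033094a_d43_d4a4bx8 : GoodKC AS c_wQ_26_wN_1_rb8033094a_d43_d4a4bx8 := p_wQ_26_wN_1_rb8033094a_d43_d4a4bx1 g_wQ_26_wN_1_rb8033094a_d43_d4a4b31x1 g_wQ_26_wN_1_rb8033094a_d43_d4a4b2fx1 g_wQ_26_wN_1_rb8033094a_d43_d4a4b2ex1 g_wQ_26_wN_1_rb8033094a_d43_d4a4b2dx1 g_wQ_26_wN_1_rb8033094a_d43_d4a4b2cx1 g_wQ_26_wN_1_rb8033094a_d43_d4a4b2ax1 g_wQ_26_wN_1_rb8033094a_d43_d4a4b29x1 g_wQ_26_wN_1_rb8033094a_d43_d4a4b28x1 g_wQ_26_wN_1_rb8033094a_d43_d4a4b27x1 g_wQ_26_wN_1_rb8033094a_d43_d4a4b25x1 g_wQ_26_wN_1_rb8033094a_d43_d4a4b24x1 g_wQ_26_wN_1_rb8033094a_d43_d4a4b23x1 g_wQ_26_wN_1_rb8033094a_d43_d4a4b21x1 g_wQ_26_wN_1_rb8033094a_d43_d4a4b1fx1 g_wQ_26_wN_1_rb8033094a_d43_d4a4b1bx1 g_wQ_26_wN_1_rb8033094a_d43_d4a4b18x1 g_wQ_26_wN_1_rb8033094a_d43_d4a4b17x1 g_wQ_26_wN_1_rb8033094a_d43_d4a4b14x1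 g_wQ_26_wN_1_rb8033094a_d43_d4a4b13x1 g_wQ_26_wN_1_rb8033094a_d43_d4a4b12x1 g_wQ_26_wN_1_rb8033094a_d43_d4a4b11x1 g_wQ_26_wN_1_rb8033094a_d43_d4a4b0fx1 g_wQ_26_wN_1_rb8033094a_d43_d4a4b0ex1 g_wQ_26_wN_1_rb8033094a_d43_d4a4b0dx1 g_wQ_26_wN_1_rb8033094a_d43_d4a4b0bx1 g_wQ_26_wN_1_rb8033094a_d43_d4a4b08x1 g_wQ_26_wN_1_rb8033094a_d43_d4a4b07x1 g_wQ_26_wN_1_rb8033094a_d43_d4a4b06x1 g_wQ_26_wN_1_rb8033094a_d43_d4a4b05x1 g__wQ_26_wN_1_rb8033094a_d43_d4a4bx1_0 g_wQ_26_wN_1_rb8033094a_d43_d4a4b03x1 g_wQ_26_wN_1_rb8033094a_d43_d4a4b02x1 g_wQ_26_wN_1_rb8033094a_d43_d4a4b01x1 g_wQ_26_wN_1_rb8033094a_d43_d4a4b00x1 g_wQ_26_wN_1_rb8033094a_d43_d4a4b04x1 g_wQ_26_wN_1_rb8033094a_d43_d4a4b09x1 g_wQ_26_wN_1_rb8033094a_d43_d4a4b0ax1 g_wQ_26_wN_1_rb8033094a_d43_d4a4b0cx1 g_wQ_26_wN_1_rb8033094a_d43_d4a4b10x1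 g_wQ_26_wN_1_rb8033094a_d43_d4a4b15x1 g_wQ_26_wN_1_rb8033094a_d43_d4a4b16x1 g_wQ_26_wN_1_rb8033094a_d43_d4a4b19x1 g_wQ_26_wN_1_rb8033094a_d43_d4a4b1ax1 g_wQ_26_wN_1_rb8033094a_d43_d4a4b1cx1 g_wQ_26_wN_1_rb8033094a_d43_d4a4b1dx1 g_wQ_26_wN_1_rb8033094a_d43_d4a4b1ex1 g_wQ_26_wN_1_rb8033094a_d43_d4a4b20x1 g_wQ_26_wN_1_rb8033094a_d43_d4a4b22x1 g_wQ_26_wN_1_rb8033094a_d43_d4a4b26x1 g_wQ_26_wN_1_rb8033094a_d43_d4a4b2bx1 g_wQ_26_wN_1_rb8033094a_d43_d4a4b30x1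

theorem g_wQ_26_wN_1_rb8033094a_d43_d4a4dx8 : GoodKC AS c_wQ_26_wN_1_rb8033094a_d43_d4a4dx8 := p_wQ_26_wN_1_rb8033094a_d43_d4a4dx2

theorem g_wQ_26_wN_1_rb8033094a_d43_d4a4ex8 : GoodKC AS c_wQ_26_wN_1_rb8033094a_d43_d4a4ex8 := p_wQ_26_wN_1_rb8033094a_d43_d4a4ex3

theorem g__wQ_26_wN_1_rb8033094a_d43_d4a52x2_1 : GoodKC AS k_wQ_26_wN_1_rb8033094a_d43_d4a52x2_1 := p_wQ_26_wN_1_rb8033094a_d43_d4a52x2_1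

theorem g__wQ_26_wN_1_rb8033094a_d43_d4a52x2_2 : GoodKC AS k_wQ_26_wN_1_rb8033094a_d43_d4a52x2_2 := p_wQ_26_wN_1_rb8033094a_d43_d4a52x2_2

theorem g__wQ_26_wN_1_rb8033094a_d43_d4a52x2_3 : GoodKC AS k_wQ_26_wN_1_rb8033094a_d43_d4a52x2_3 := p_wQ_26_wN_1_rb8033094a_d43_d4a52x2_3

theorem g__wQ_26_wN_1_rb8033094a_d43_d4a52x2_0 : GoodKC AS k_wQ_26_wN_1_rb8033094a_d43_d4a52x2_0 := p_wQ_26_wN_1_rb8033094a_d43_d4a52x2_0 g__wQ_26_wN_1_rb8033094a_d43_d4a52x2_1 g__wQ_26_wN_1_rb8033094a_d43_d4a52x2_2 g__wQ_26_wN_1_rb8033094a_d43_d4a52x2_3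

theorem g_wQ_26_wN_1_rb8033094a_d43_d4a52x8 : GoodKC AS c_wQ_26_wN_1_rb8033094a_d43_d4a52x8 := p_wQ_26_wN_1_rb8033094a_d43_d4a52x2 g__wQ_26_wN_1_rb8033094a_d43_d4a52x2_0

theorem g_wQ_26_wN_1_rb8033094a_d43_d4ax2 : GoodKC AS c_wQ_26_wN_1_rb8033094a_d43_d4ax2 := p_wQ_26_wN_1_rb8033094a_d43_d4ax8 g_wQ_26_wN_1_rb8033094a_d43_d4a51x8 g_wQ_26_wN_1_rb8033094a_d43_d4a50x8 g_wQ_26_wN_1_rb8033094a_d43_d4a4fx8 g_wQ_26_wN_1_rb8033094a_d43_d4a4cx8 g_wQ_26_wN_1_rb8033094a_d43_d4a4ax8 g_wQ_26_wN_1_rb8033094a_d43_d4a49x8 g_wQ_26_wN_1_rb8033094a_d43_d4a48x8 g_wQ_26_wN_1_rb8033094a_d43_d4a45x8 g_wQ_26_wN_1_rb8033094a_d43_d4a43x8 g_wQ_26_wN_1_rb8033094a_d43_d4a42x8 g_wQ_26_wN_1_rb8033094a_d43_d4a41x8 g_wQ_26_wN_1_rb8033094a_d43_d4a3fx8 g_wQ_26_wN_1_rb8033094a_d43_d4a3ex8 g_wQ_26_wN_1_rb8033094a_d43_d4a3bx8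 g_wQ_26_wN_1_rb8033094a_d43_d4a38x8 g_wQ_26_wN_1_rb8033094a_d43_d4a37x8 g_wQ_26_wN_1_rb8033094a_d43_d4a36x8 g_wQ_26_wN_1_rb8033094a_d43_d4a34x8 g_wQ_26_wN_1_rb8033094a_d43_d4a30x8 g_wQ_26_wN_1_rb8033094a_d43_d4a2fx8 g_wQ_26_wN_1_rb8033094a_d43_d4a2ex8 g_wQ_26_wN_1_rb8033094a_d43_d4a2dx8 g_wQ_26_wN_1_rb8033094a_d43_d4a2cx8 g_wQ_26_wN_1_rb8033094a_d43_d4a2bx8 g_wQ_26_wN_1_rb8033094a_d43_d4a29x8 g_wQ_26_wN_1_rb8033094a_d43_d4a28x8 g_wQ_26_wN_1_rb8033094a_d43_d4a27x8 g_wQ_26_wN_1_rb8033094a_d43_d4a26x8 g_wQ_26_wN_1_rb8033094a_d43_d4a25x8 g_wQ_26_wN_1_rb8033094a_d43_d4a24x8 g_wQ_26_wN_1_rb8033094a_d43_d4a23x8 g_wQ_26_wN_1_rb8033094a_d43_d4a1ex8 g_wQ_26_wN_1_rb8033094a_d43_d4a1dx8 g_wQ_26_wN_1_rb8033094a_d43_d4a1cx8 g_wQ_26_wN_1_rb8033094a_d43_d4a1bx8 g_wQ_26_wN_1_rb8033094a_d43_d4a19x8 g_wQ_26_wN_1_rb8033094a_d43_d4a18x8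 g_wQ_26_wN_1_rb8033094a_d43_d4a17x8 g_wQ_26_wN_1_rb8033094a_d43_d4a16x8 g_wQ_26_wN_1_rb8033094a_d43_d4a14x8 g_wQ_26_wN_1_rb8033094a_d43_d4a13x8 g_wQ_26_wN_1_rb8033094a_d43_d4a12x8 g_wQ_26_wN_1_rb8033094a_d43_d4a11x8 g_wQ_26_wN_1_rb8033094a_d43_d4a0fx8 g_wQ_26_wN_1_rb8033094a_d43_d4a0dx8 g_wQ_26_wN_1_rb8033094a_d43_d4a07x8 g_wQ_26_wN_1_rb8033094a_d43_d4a06x8 g_wQ_26_wN_1_rb8033094a_d43_d4a04x8 g_wQ_26_wN_1_rb8033094a_d43_d4a02x8 g_wQ_26_wN_1_rb8033094a_d43_d4a01x8 g_wQ_26_wN_1_rb8033094a_d43_d4a00x8 g_wQ_26_wN_1_rb8033094a_d43_d4a03x8 g_wQ_26_wN_1_rb8033094a_d43_d4a05x8 g_wQ_26_wN_1_rb8033094a_d43_d4a08x8 g_wQ_26_wN_1_rb8033094a_d43_d4a09x8 g_wQ_26_wN_1_rb8033094a_d43_d4a0ax8 g_wQ_26_wN_1_rb8033094a_d43_d4a0bx8 g__wQ_26_wN_1_rb8033094a_d43_d4ax8_0 g__wQ_26_wN_1_rb8033094a_d43_d4ax8_1 g_wQ_26_wN_1_rb8033094a_d43_d4a0cx8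 g_wQ_26_wN_1_rb8033094a_d43_d4a0ex8 g_wQ_26_wN_1_rb8033094a_d43_d4a10x8 g_wQ_26_wN_1_rb8033094a_d43_d4a15x8 g_wQ_26_wN_1_rb8033094a_d43_d4a1ax8 g_wQ_26_wN_1_rb8033094a_d43_d4a1fx8 g_wQ_26_wN_1_rb8033094a_d43_d4a20x8 g_wQ_26_wN_1_rb8033094a_d43_d4a21x8 g_wQ_26_wN_1_rb8033094a_d43_d4a22x8 g_wQ_26_wN_1_rb8033094a_d43_d4a2ax8 g_wQ_26_wN_1_rb8033094a_d43_d4a31x8 g_wQ_26_wN_1_rb8033094a_d43_d4a32x8 g_wQ_26_wN_1_rb8033094a_d43_d4a33x8 g_wQ_26_wN_1_rb8033094a_d43_d4a35x8 g_wQ_26_wN_1_rb8033094a_d43_d4a39x8 g_wQ_26_wN_1_rb8033094a_d43_d4a3ax8 g_wQ_26_wN_1_rb8033094a_d43_d4a3cx8 g_wQ_26_wN_1_rb8033094a_d43_d4a3dx8 g_wQ_26_wN_1_rb8033094a_d43_d4a40x8 g_wQ_26_wN_1_rb8033094a_d43_d4a44x8 g_wQ_26_wN_1_rb8033094a_d43_d4a46x8 g_wQ_26_wN_1_rb8033094a_d43_d4a47x8 g_wQ_26_wN_1_rb8033094a_d43_d4a4bx8 g_wQ_26_wN_1_rb8033094a_d43_d4a4dx8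 g_wQ_26_wN_1_rb8033094a_d43_d4a4ex8 g_wQ_26_wN_1_rb8033094a_d43_d4a52x8

theorem g_wQ_26_wN_1_rb8033094a_d43_d4b_d41_d28_d43_d20x2 : GoodKC AS c_wQ_26_wN_1_rb8033094a_d43_d4b_d41_d28_d43_d20x2 := p_wQ_26_wN_1_rb8033094a_d43_d4b_d41_d28_d43_d20

theorem g_wQ_26_wN_1_rb8033094a_d43_d4b_d41_d28_d43_d1fx2 : GoodKC AS c_wQ_26_wN_1_rb8033094a_d43_d4b_d41_d28_d43_d1fx2 := p_wQ_26_wN_1_rb8033094a_d43_d4b_d41_d28_d43_d1f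

theorem g_wQ_26_wN_1_rb8033094a_d43_d4b_d41_d28_d43_d1ex2 : GoodKC AS c_wQ_26_wN_1_rb8033094a_d43_d4b_d41_d28_d43_d1ex2 := p_wQ_26_wN_1_rb8033094a_d43_d4b_d41_d28_d43_d1e

theorem g_wQ_26_wN_1_rb8033094a_d43_d4b_d41_d28_d43_d1dx2 : GoodKC AS c_wQ_26_wN_1_rb8033094a_d43_d4b_d41_d28_d43_d1dx2 := p_wQ_26_wN_1_rb8033094a_d43_d4b_d41_d28_d43_d1d

theorem g__wQ_26_wN_1_rb8033094a_d43_d4b_d41_d28_d43_d1c14v1_1 : GoodKC AS k_wQ_26_wN_1_rb8033094a_d43_d4b_d41_d28_d43_d1c14v1_1 := p_wQ_26_wN_1_rb8033094a_d43_d4b_d41_d28_d43_d1c14v1_1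

theorem g__wQ_26_wN_1_rb8033094a_d43_d4b_d41_d28_d43_d1c14v1_6 : GoodKC AS k_wQ_26_wN_1_rb8033094a_d43_d4b_d41_d28_d43_d1c14v1_6 := p_wQ_26_wN_1_rb8033094a_d43_d4b_d41_d28_d43_d1c14v1_6

theorem g__wQ_26_wN_1_rb8033094a_d43_d4b_d41_d28_d43_d1c14v1_8 : GoodKC AS k_wQ_26_wN_1_rb8033094a_d43_d4b_d41_d28_d43_d1c14v1_8 := p_wQ_26_wN_1_rb8033094a_d43_d4b_d41_d28_d43_d1c14v1_8

theorem g__wQ_26_wN_1_rb8033094a_d43_d4b_d41_d28_d43_d1c14v1_10 : GoodKC AS k_wQ_26_wN_1_rb8033094a_d43_d4b_d41_d28_d43_d1c14v1_10 := p_wQ_26_wN_1_rb8033094a_d43_d4b_d41_d28_d43_d1c14v1_10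

theorem g__wQ_26_wN_1_rb8033094a_d43_d4b_d41_d28_d43_d1c14v1_11 : GoodKC AS k_wQ_26_wN_1_rb8033094a_d43_d4b_d41_d28_d43_d1c14v1_11 := p_wQ_26_wN_1_rb8033094a_d43_d4b_d41_d28_d43_d1c14v1_11

theorem g__wQ_26_wN_1_rb8033094a_d43_d4b_d41_d28_d43_d1c14v1_9 : GoodKC AS k_wQ_26_wN_1_rb8033094a_d43_d4b_d41_d28_d43_d1c14v1_9 := p_wQ_26_wN_1_rb8033094a_d43_d4b_d41_d28_d43_d1c14v1_9 g__wQ_26_wN_1_rb8033094a_d43_d4b_d41_d28_d43_d1c14v1_10 g__wQ_26_wN_1_rb8033094a_d43_d4b_d41_d28_d43_d1c14v1_11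

theorem g__wQ_26_wN_1_rb8033094a_d43_d4b_d41_d28_d43_d1c14v1_7 : GoodKC AS k_wQ_26_wN_1_rb8033094a_d43_d4b_d41_d28_d43_d1c14v1_7 := p_wQ_26_wN_1_rb8033094a_d43_d4b_d41_d28_d43_d1c14v1_7 g__wQ_26_wN_1_rb8033094a_d43_d4b_d41_d28_d43_d1c14v1_8 g__wQ_26_wN_1_rb8033094a_d43_d4b_d41_d28_d43_d1c14v1_9

theorem g__wQ_26_wN_1_rb8033094a_d43_d4b_d41_d28_d43_d1c14v1_5 : GoodKC AS k_wQ_26_wN_1_rb8033094a_d43_d4b_d41_d28_d43_d1c14v1_5 := p_wQ_26_wN_1_rb8033094a_d43_d4b_d41_d28_d43_d1c14v1_5 g__wQ_26_wN_1_rb8033094a_d43_d4b_d41_d28_d43_d1c14v1_6 g__wQ_26_wN_1_rb8033094a_d43_d4b_d41_d28_d43_d1c14v1_7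

theorem g__wQ_26_wN_1_rb8033094a_d43_d4b_d41_d28_d43_d1c14v1_4 : GoodKC AS k_wQ_26_wN_1_rb8033094a_d43_d4b_d41_d28_d43_d1c14v1_4 := p_wQ_26_wN_1_rb8033094a_d43_d4b_d41_d28_d43_d1c14v1_4 g__wQ_26_wN_1_rb8033094a_d43_d4b_d41_d28_d43_d1c14v1_5

theorem g__wQ_26_wN_1_rb8033094a_d43_d4b_d41_d28_d43_d1c14v1_13 : GoodKC AS k_wQ_26_wN_1_rb8033094a_d43_d4b_d41_d28_d43_d1c14v1_13 := p_wQ_26_wN_1_rb8033094a_d43_d4b_d41_d28_d43_d1c14v1_13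

theorem g__wQ_26_wN_1_rb8033094a_d43_d4b_d41_d28_d43_d1c14v1_12 : GoodKC AS k_wQ_26_wN_1_rb8033094a_d43_d4b_d41_d28_d43_d1c14v1_12 := p_wQ_26_wN_1_rb8033094a_d43_d4b_d41_d28_d43_d1c14v1_12 g__wQ_26_wN_1_rb8033094a_d43_d4b_d41_d28_d43_d1c14v1_13

theorem g__wQ_26_wN_1_rb8033094a_d43_d4b_d41_d28_d43_d1c14v1_3 : GoodKC AS k_wQ_26_wN_1_rb8033094a_d43_d4b_d41_d28_d43_d1c14v1_3 := p_wQ_26_wN_1_rb8033094a_d43_d4b_d41_d28_d43_d1c14v1_3 g__wQ_26_wN_1_rb8033094a_d43_d4b_d41_d28_d43_d1c14v1_4 g__wQ_26_wN_1_rb8033094a_d43_d4b_d41_d28_d43_d1c14v1_12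

theorem g__wQ_26_wN_1_rb8033094a_d43_d4b_d41_d28_d43_d1c14v1_16 : GoodKC AS k_wQ_26_wN_1_rb8033094a_d43_d4b_d41_d28_d43_d1c14v1_16 := p_wQ_26_wN_1_rb8033094a_d43_d4b_d41_d28_d43_d1c14v1_16

theorem g__wQ_26_wN_1_rb8033094a_d43_d4b_d41_d28_d43_d1c14v1_15 : GoodKC AS k_wQ_26_wN_1_rb8033094a_d43_d4b_d41_d28_d43_d1c14v1_15 := p_wQ_26_wN_1_rb8033094a_d43_d4b_d41_d28_d43_d1c14v1_15 g__wQ_26_wN_1_rb8033094a_d43_d4b_d41_d28_d43_d1c14v1_16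

theorem g__wQ_26_wN_1_rb8033094a_d43_d4b_d41_d28_d43_d1c14v1_14 : GoodKC AS k_wQ_26_wN_1_rb8033094a_d43_d4b_d41_d28_d43_d1c14v1_14 := p_wQ_26_wN_1_rb8033094a_d43_d4b_d41_d28_d43_d1c14v1_14 g__wQ_26_wN_1_rb8033094a_d43_d4b_d41_d28_d43_d1c14v1_15

theorem g__wQ_26_wN_1_rb8033094a_d43_d4b_d41_d28_d43_d1c14v1_2 : GoodKC AS k_wQ_26_wN_1_rb8033094a_d43_d4b_d41_d28_d43_d1c14v1_2 := p_wQ_26_wN_1_rb8033094a_d43_d4b_d41_d28_d43_d1c14v1_2 g__wQ_26_wN_1_rb8033094a_d43_d4b_d41_d28_d43_d1c14v1_3 g__wQ_26_wN_1_rb8033094a_d43_d4b_d41_d28_d43_d1c14v1_14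

theorem g__wQ_26_wN_1_rb8033094a_d43_d4b_d41_d28_d43_d1c14v1_0 : GoodKC AS k_wQ_26_wN_1_rb8033094a_d43_d4b_d41_d28_d43_d1c14v1_0 := p_wQ_26_wN_1_rb8033094a_d43_d4b_d41_d28_d43_d1c14v1_0 g__wQ_26_wN_1_rb8033094a_d43_d4b_d41_d28_d43_d1c14v1_1 g__wQ_26_wN_1_rb8033094a_d43_d4b_d41_d28_d43_d1c14v1_2

theorem g_wQ_26_wN_1_rb8033094a_d43_d4b_d41_d28_d43_d1c14v1 : GoodKC AS c_wQ_26_wN_1_rb8033094a_d43_d4b_d41_d28_d43_d1c14v1 := p_wQ_26_wN_1_rb8033094a_d43_d4b_d41_d28_d43_d1c14v1 g__wQ_26_wN_1_rb8033094a_d43_d4b_d41_d28_d43_d1c14v1_0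

theorem g_wQ_26_wN_1_rb8033094a_d43_d4b_d41_d28_d43_d1c13v1 : GoodKC AS c_wQ_26_wN_1_rb8033094a_d43_d4b_d41_d28_d43_d1c13v1 := p_wQ_26_wN_1_rb8033094a_d43_d4b_d41_d28_d43_d1c13

theorem g_wQ_26_wN_1_rb8033094a_d43_d4b_d41_d28_d43_d1c12v1 : GoodKC AS c_wQ_26_wN_1_rb8033094a_d43_d4b_d41_d28_d43_d1c12v1 := p_wQ_26_wN_1_rb8033094a_d43_d4b_d41_d28_d43_d1c12

theorem g_wQ_26_wN_1_rb8033094a_d43_d4b_d41_d28_d43_d1c11v1 : GoodKC AS c_wQ_26_wN_1_rb8033094a_d43_d4b_d41_d28_d43_d1c11v1 := p_wQ_26_wN_1_rb8033094a_d43_d4b_d41_d28_d43_d1c11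

theorem g__wQ_26_wN_1_rb8033094a_d43_d4b_d41_d28_d43_d1c0e_0 : GoodKC AS k_wQ_26_wN_1_rb8033094a_d43_d4b_d41_d28_d43_d1c0e_0 := p_wQ_26_wN_1_rb8033094a_d43_d4b_d41_d28_d43_d1c0e_0

theorem g__wQ_26_wN_1_rb8033094a_d43_d4b_d41_d28_d43_d1c0e_1 : GoodKC AS k_wQ_26_wN_1_rb8033094a_d43_d4b_d41_d28_d43_d1c0e_1 := p_wQ_26_wN_1_rb8033094a_d43_d4b_d41_d28_d43_d1c0e_1

theorem g__wQ_26_wN_1_rb8033094a_d43_d4b_d41_d28_d43_d1c0e_2 : GoodKC AS k_wQ_26_wN_1_rb8033094a_d43_d4b_d41_d28_d43_d1c0e_2 := p_wQ_26_wN_1_rb8033094a_d43_d4b_d41_d28_d43_d1c0e_2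

theorem g_wQ_26_wN_1_rb8033094a_d43_d4b_d41_d28_d43_d1c0ev1 : GoodKC AS c_wQ_26_wN_1_rb8033094a_d43_d4b_d41_d28_d43_d1c0ev1 := p_wQ_26_wN_1_rb8033094a_d43_d4b_d41_d28_d43_d1c0e g__wQ_26_wN_1_rb8033094a_d43_d4b_d41_d28_d43_d1c0e_0 g__wQ_26_wN_1_rb8033094a_d43_d4b_d41_d28_d43_d1c0e_1 g__wQ_26_wN_1_rb8033094a_d43_d4b_d41_d28_d43_d1c0e_2

theorem g_wQ_26_wN_1_rb8033094a_d43_d4b_d41_d28_d43_d1c0dv1 : GoodKC AS c_wQ_26_wN_1_rb8033094a_d43_d4b_d41_d28_d43_d1c0dv1 := p_wQ_26_wN_1_rb8033094a_d43_d4b_d41_d28_d43_d1c0d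

theorem g__wQ_26_wN_1_rb8033094a_d43_d4b_d41_d28_d43_d1c0c_0 : GoodKC AS k_wQ_26_wN_1_rb8033094a_d43_d4b_d41_d28_d43_d1c0c_0 := p_wQ_26_wN_1_rb8033094a_d43_d4b_d41_d28_d43_d1c0c_0

theorem g_wQ_26_wN_1_rb8033094a_d43_d4b_d41_d28_d43_d1c0cv1 : GoodKC AS c_wQ_26_wN_1_rb8033094a_d43_d4b_d41_d28_d43_d1c0cv1 := p_wQ_26_wN_1_rb8033094a_d43_d4b_d41_d28_d43_d1c0c g__wQ_26_wN_1_rb8033094a_d43_d4b_d41_d28_d43_d1c0c_0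

theorem g_wQ_26_wN_1_rb8033094a_d43_d4b_d41_d28_d43_d1c0bv1 : GoodKC AS c_wQ_26_wN_1_rb8033094a_d43_d4b_d41_d28_d43_d1c0bv1 := p_wQ_26_wN_1_rb8033094a_d43_d4b_d41_d28_d43_d1c0b

theorem g_wQ_26_wN_1_rb8033094a_d43_d4b_d41_d28_d43_d1c0av1 : GoodKC AS c_wQ_26_wN_1_rb8033094a_d43_d4b_d41_d28_d43_d1c0av1 := p_wQ_26_wN_1_rb8033094a_d43_d4b_d41_d28_d43_d1c0a

theorem g_wQ_26_wN_1_rb8033094a_d43_d4b_d41_d28_d43_d1c09v1 : GoodKC AS c_wQ_26_wN_1_rb8033094a_d43_d4b_d41_d28_d43_d1c09v1 := p_wQ_26_wN_1_rb8033094a_d43_d4b_d41_d28_d43_d1c09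

theorem g_wQ_26_wN_1_rb8033094a_d43_d4b_d41_d28_d43_d1c08v1 : GoodKC AS c_wQ_26_wN_1_rb8033094a_d43_d4b_d41_d28_d43_d1c08v1 := p_wQ_26_wN_1_rb8033094a_d43_d4b_d41_d28_d43_d1c08

theorem g_wQ_26_wN_1_rb8033094a_d43_d4b_d41_d28_d43_d1c06v1 : GoodKC AS c_wQ_26_wN_1_rb8033094a_d43_d4b_d41_d28_d43_d1c06v1 := p_wQ_26_wN_1_rb8033094a_d43_d4b_d41_d28_d43_d1c06

theorem g__wQ_26_wN_1_rb8033094a_d43_d4b_d41_d28_d43_d1cv1_2 : GoodKC AS k_wQ_26_wN_1_rb8033094a_d43_d4b_d41_d28_d43_d1cv1_2 := p_wQ_26_wN_1_rb8033094a_d43_d4b_d41_d28_d43_d1cv1_2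

theorem g__wQ_26_wN_1_rb8033094a_d43_d4b_d41_d28_d43_d1cv1_3 : GoodKC AS k_wQ_26_wN_1_rb8033094a_d43_d4b_d41_d28_d43_d1cv1_3 := p_wQ_26_wN_1_rb8033094a_d43_d4b_d41_d28_d43_d1cv1_3

theorem g__wQ_26_wN_1_rb8033094a_d43_d4b_d41_d28_d43_d1cv1_1 : GoodKC AS k_wQ_26_wN_1_rb8033094a_d43_d4b_d41_d28_d43_d1cv1_1 := p_wQ_26_wN_1_rb8033094a_d43_d4b_d41_d28_d43_d1cv1_1 g__wQ_26_wN_1_rb8033094a_d43_d4b_d41_d28_d43_d1cv1_2 g__wQ_26_wN_1_rb8033094a_d43_d4b_d41_d28_d43_d1cv1_3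

theorem g_wQ_26_wN_1_rb8033094a_d43_d4b_d41_d28_d43_d1c02v1 : GoodKC AS c_wQ_26_wN_1_rb8033094a_d43_d4b_d41_d28_d43_d1c02v1 := p_wQ_26_wN_1_rb8033094a_d43_d4b_d41_d28_d43_d1c02

theorem g__wQ_26_wN_1_rb8033094a_d43_d4b_d41_d28_d43_d1c00_0 : GoodKC AS k_wQ_26_wN_1_rb8033094a_d43_d4b_d41_d28_d43_d1c00_0 := p_wQ_26_wN_1_rb8033094a_d43_d4b_d41_d28_d43_d1c00_0

theorem g_wQ_26_wN_1_rb8033094a_d43_d4b_d41_d28_d43_d1c00v1 : GoodKC AS c_wQ_26_wN_1_rb8033094a_d43_d4b_d41_d28_d43_d1c00v1 := p_wQ_26_wN_1_rb8033094a_d43_d4b_d41_d28_d43_d1c00 g__wQ_26_wN_1_rb8033094a_d43_d4b_d41_d28_d43_d1c00_0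

theorem g_wQ_26_wN_1_rb8033094a_d43_d4b_d41_d28_d43_d1c01v1 : GoodKC AS c_wQ_26_wN_1_rb8033094a_d43_d4b_d41_d28_d43_d1c01v1 := p_wQ_26_wN_1_rb8033094a_d43_d4b_d41_d28_d43_d1c01

theorem g_wQ_26_wN_1_rb8033094a_d43_d4b_d41_d28_d43_d1c03v1 : GoodKC AS c_wQ_26_wN_1_rb8033094a_d43_d4b_d41_d28_d43_d1c03v1 := p_wQ_26_wN_1_rb8033094a_d43_d4b_d41_d28_d43_d1c03

theorem g__wQ_26_wN_1_rb8033094a_d43_d4b_d41_d28_d43_d1cv1_0 : GoodKC AS k_wQ_26_wN_1_rb8033094a_d43_d4b_d41_d28_d43_d1cv1_0 := p_wQ_26_wN_1_rb8033094a_d43_d4b_d41_d28_d43_d1cv1_0 g__wQ_26_wN_1_rb8033094a_d43_d4b_d41_d28_d43_d1cv1_1 g_wQ_26_wN_1_rb8033094a_d43_d4b_d41_d28_d43_d1c02v1 g_wQ_26_wN_1_rb8033094a_d43_d4b_d41_d28_d43_d1c00v1 g_wQ_26_wN_1_rb8033094a_d43_d4b_d41_d28_d43_d1c01v1 g_wQ_26_wN_1_rb8033094a_d43_d4b_d41_d28_d43_d1c03v1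

theorem g__wQ_26_wN_1_rb8033094a_d43_d4b_d41_d28_d43_d1cv1_4 : GoodKC AS k_wQ_26_wN_1_rb8033094a_d43_d4b_d41_d28_d43_d1cv1_4 := p_wQ_26_wN_1_rb8033094a_d43_d4b_d41_d28_d43_d1cv1_4

theorem g__wQ_26_wN_1_rb8033094a_d43_d4b_d41_d28_d43_d1cv1_9 : GoodKC AS k_wQ_26_wN_1_rb8033094a_d43_d4b_d41_d28_d43_d1cv1_9 := p_wQ_26_wN_1_rb8033094a_d43_d4b_d41_d28_d43_d1cv1_9

theorem g__wQ_26_wN_1_rb8033094a_d43_d4b_d41_d28_d43_d1cv1_8 : GoodKC AS k_wQ_26_wN_1_rb8033094a_d43_d4b_d41_d28_d43_d1cv1_8 := p_wQ_26_wN_1_rb8033094a_d43_d4b_d41_d28_d43_d1cv1_8 g__wQ_26_wN_1_rb8033094a_d43_d4b_d41_d28_d43_d1cv1_9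

theorem g__wQ_26_wN_1_rb8033094a_d43_d4b_d41_d28_d43_d1cv1_11 : GoodKC AS k_wQ_26_wN_1_rb8033094a_d43_d4b_d41_d28_d43_d1cv1_11 := p_wQ_26_wN_1_rb8033094a_d43_d4b_d41_d28_d43_d1cv1_11

theorem g__wQ_26_wN_1_rb8033094a_d43_d4b_d41_d28_d43_d1cv1_13 : GoodKC AS k_wQ_26_wN_1_rb8033094a_d43_d4b_d41_d28_d43_d1cv1_13 := p_wQ_26_wN_1_rb8033094a_d43_d4b_d41_d28_d43_d1cv1_13

theorem g__wQ_26_wN_1_rb8033094a_d43_d4b_d41_d28_d43_d1cv1_12 : GoodKC AS k_wQ_26_wN_1_rb8033094a_d43_d4b_d41_d28_d43_d1cv1_12 := p_wQ_26_wN_1_rb8033094a_d43_d4b_d41_d28_d43_d1cv1_12 g__wQ_26_wN_1_rb8033094a_d43_d4b_d41_d28_d43_d1cv1_13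

theorem g__wQ_26_wN_1_rb8033094a_d43_d4b_d41_d28_d43_d1cv1_10 : GoodKC AS k_wQ_26_wN_1_rb8033094a_d43_d4b_d41_d28_d43_d1cv1_10 := p_wQ_26_wN_1_rb8033094a_d43_d4b_d41_d28_d43_d1cv1_10 g__wQ_26_wN_1_rb8033094a_d43_d4b_d41_d28_d43_d1cv1_11 g__wQ_26_wN_1_rb8033094a_d43_d4b_d41_d28_d43_d1cv1_12

theorem g__wQ_26_wN_1_rb8033094a_d43_d4b_d41_d28_d43_d1cv1_7 : GoodKC AS k_wQ_26_wN_1_rb8033094a_d43_d4b_d41_d28_d43_d1cv1_7 := p_wQ_26_wN_1_rb8033094a_d43_d4b_d41_d28_d43_d1cv1_7 g__wQ_26_wN_1_rb8033094a_d43_d4b_d41_d28_d43_d1cv1_8 g__wQ_26_wN_1_rb8033094a_d43_d4b_d41_d28_d43_d1cv1_10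

theorem g__wQ_26_wN_1_rb8033094a_d43_d4b_d41_d28_d43_d1cv1_15 : GoodKC AS k_wQ_26_wN_1_rb8033094a_d43_d4b_d41_d28_d43_d1cv1_15 := p_wQ_26_wN_1_rb8033094a_d43_d4b_d41_d28_d43_d1cv1_15

theorem g__wQ_26_wN_1_rb8033094a_d43_d4b_d41_d28_d43_d1cv1_16 : GoodKC AS k_wQ_26_wN_1_rb8033094a_d43_d4b_d41_d28_d43_d1cv1_16 := p_wQ_26_wN_1_rb8033094a_d43_d4b_d41_d28_d43_d1cv1_16

theorem g__wQ_26_wN_1_rb8033094a_d43_d4b_d41_d28_d43_d1cv1_19 : GoodKC AS k_wQ_26_wN_1_rb8033094a_d43_d4b_d41_d28_d43_d1cv1_19 := p_wQ_26_wN_1_rb8033094a_d43_d4b_d41_d28_d43_d1cv1_19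

theorem g__wQ_26_wN_1_rb8033094a_d43_d4b_d41_d28_d43_d1cv1_18 : GoodKC AS k_wQ_26_wN_1_rb8033094a_d43_d4b_d41_d28_d43_d1cv1_18 := p_wQ_26_wN_1_rb8033094a_d43_d4b_d41_d28_d43_d1cv1_18 g__wQ_26_wN_1_rb8033094a_d43_d4b_d41_d28_d43_d1cv1_19

theorem g__wQ_26_wN_1_rb8033094a_d43_d4b_d41_d28_d43_d1cv1_17 : GoodKC AS k_wQ_26_wN_1_rb8033094a_d43_d4b_d41_d28_d43_d1cv1_17 := p_wQ_26_wN_1_rb8033094a_d43_d4b_d41_d28_d43_d1cv1_17 g__wQ_26_wN_1_rb8033094a_d43_d4b_d41_d28_d43_d1cv1_18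

theorem g__wQ_26_wN_1_rb8033094a_d43_d4b_d41_d28_d43_d1cv1_14 : GoodKC AS k_wQ_26_wN_1_rb8033094a_d43_d4b_d41_d28_d43_d1cv1_14 := p_wQ_26_wN_1_rb8033094a_d43_d4b_d41_d28_d43_d1cv1_14 g__wQ_26_wN_1_rb8033094a_d43_d4b_d41_d28_d43_d1cv1_15 g__wQ_26_wN_1_rb8033094a_d43_d4b_d41_d28_d43_d1cv1_16 g__wQ_26_wN_1_rb8033094a_d43_d4b_d41_d28_d43_d1cv1_17

theorem g__wQ_26_wN_1_rb8033094a_d43_d4b_d41_d28_d43_d1cv1_6 : GoodKC AS k_wQ_26_wN_1_rb8033094a_d43_d4b_d41_d28_d43_d1cv1_6 := p_wQ_26_wN_1_rb8033094a_d43_d4b_d41_d28_d43_d1cv1_6 g__wQ_26_wN_1_rb8033094a_d43_d4b_d41_d28_d43_d1cv1_7 g__wQ_26_wN_1_rb8033094a_d43_d4b_d41_d28_d43_d1cv1_14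

theorem g__wQ_26_wN_1_rb8033094a_d43_d4b_d41_d28_d43_d1cv1_5 : GoodKC AS k_wQ_26_wN_1_rb8033094a_d43_d4b_d41_d28_d43_d1cv1_5 := p_wQ_26_wN_1_rb8033094a_d43_d4b_d41_d28_d43_d1cv1_5 g__wQ_26_wN_1_rb8033094a_d43_d4b_d41_d28_d43_d1cv1_6

theorem g_wQ_26_wN_1_rb8033094a_d43_d4b_d41_d28_d43_d1c04v1 : GoodKC AS c_wQ_26_wN_1_rb8033094a_d43_d4b_d41_d28_d43_d1c04v1 := p_wQ_26_wN_1_rb8033094a_d43_d4b_d41_d28_d43_d1c04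

theorem g_wQ_26_wN_1_rb8033094a_d43_d4b_d41_d28_d43_d1c05v1 : GoodKC AS c_wQ_26_wN_1_rb8033094a_d43_d4b_d41_d28_d43_d1c05v1 := p_wQ_26_wN_1_rb8033094a_d43_d4b_d41_d28_d43_d1c05

theorem g_wQ_26_wN_1_rb8033094a_d43_d4b_d41_d28_d43_d1c07v1 : GoodKC AS c_wQ_26_wN_1_rb8033094a_d43_d4b_d41_d28_d43_d1c07v1 := p_wQ_26_wN_1_rb8033094a_d43_d4b_d41_d28_d43_d1c07

theorem g__wQ_26_wN_1_rb8033094a_d43_d4b_d41_d28_d43_d1c0f_0 : GoodKC AS k_wQ_26_wN_1_rb8033094a_d43_d4b_d41_d28_d43_d1c0f_0 := p_wQ_26_wN_1_rb8033094a_d43_d4b_d41_d28_d43_d1c0f_0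

theorem g__wQ_26_wN_1_rb8033094a_d43_d4b_d41_d28_d43_d1c0f_3 : GoodKC AS k_wQ_26_wN_1_rb8033094a_d43_d4b_d41_d28_d43_d1c0f_3 := p_wQ_26_wN_1_rb8033094a_d43_d4b_d41_d28_d43_d1c0f_3

theorem g__wQ_26_wN_1_rb8033094a_d43_d4b_d41_d28_d43_d1c0f_2 : GoodKC AS k_wQ_26_wN_1_rb8033094a_d43_d4b_d41_d28_d43_d1c0f_2 := p_wQ_26_wN_1_rb8033094a_d43_d4b_d41_d28_d43_d1c0f_2 g__wQ_26_wN_1_rb8033094a_d43_d4b_d41_d28_d43_d1c0f_3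

theorem g__wQ_26_wN_1_rb8033094a_d43_d4b_d41_d28_d43_d1c0f_1 : GoodKC AS k_wQ_26_wN_1_rb8033094a_d43_d4b_d41_d28_d43_d1c0f_1 := p_wQ_26_wN_1_rb8033094a_d43_d4b_d41_d28_d43_d1c0f_1 g__wQ_26_wN_1_rb8033094a_d43_d4b_d41_d28_d43_d1c0f_2

theorem g_wQ_26_wN_1_rb8033094a_d43_d4b_d41_d28_d43_d1c0fv1 : GoodKC AS c_wQ_26_wN_1_rb8033094a_d43_d4b_d41_d28_d43_d1c0fv1 := p_wQ_26_wN_1_rb8033094a_d43_d4b_d41_d28_d43_d1c0f g__wQ_26_wN_1_rb8033094a_d43_d4b_d41_d28_d43_d1c0f_0 g__wQ_26_wN_1_rb8033094a_d43_d4b_d41_d28_d43_d1c0f_1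

theorem g_wQ_26_wN_1_rb8033094a_d43_d4b_d41_d28_d43_d1c10v1 : GoodKC AS c_wQ_26_wN_1_rb8033094a_d43_d4b_d41_d28_d43_d1c10v1 := p_wQ_26_wN_1_rb8033094a_d43_d4b_d41_d28_d43_d1c10

theorem g_wQ_26_wN_1_rb8033094a_d43_d4b_d41_d28_d43_d1cx2 : GoodKC AS c_wQ_26_wN_1_rb8033094a_d43_d4b_d41_d28_d43_d1cx2 := p_wQ_26_wN_1_rb8033094a_d43_d4b_d41_d28_d43_d1cv1 g_wQ_26_wN_1_rb8033094a_d43_d4b_d41_d28_d43_d1c14v1 g_wQ_26_wN_1_rb8033094a_d43_d4b_d41_d28_d43_d1c13v1 g_wQ_26_wN_1_rb8033094a_d43_d4b_d41_d28_d43_d1c12v1 g_wQ_26_wN_1_rb8033094a_d43_d4b_d41_d28_d43_d1c11v1 g_wQ_26_wN_1_rb8033094a_d43_d4b_d41_d28_d43_d1c0ev1 g_wQ_26_wN_1_rb8033094a_d43_d4b_d41_d28_d43_d1c0dv1 g_wQ_26_wN_1_rb8033094a_d43_d4b_d41_d28_d43_d1c0cv1 g_wQ_26_wN_1_rb8033094a_d43_d4b_d41_d28_d43_d1c0bv1 g_wQ_26_wN_1_rb8033094a_d43_d4b_d41_d28_d43_d1c0av1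 g_wQ_26_wN_1_rb8033094a_d43_d4b_d41_d28_d43_d1c09v1 g_wQ_26_wN_1_rb8033094a_d43_d4b_d41_d28_d43_d1c08v1 g_wQ_26_wN_1_rb8033094a_d43_d4b_d41_d28_d43_d1c06v1 g__wQ_26_wN_1_rb8033094a_d43_d4b_d41_d28_d43_d1cv1_0 g__wQ_26_wN_1_rb8033094a_d43_d4b_d41_d28_d43_d1cv1_4 g__wQ_26_wN_1_rb8033094a_d43_d4b_d41_d28_d43_d1cv1_5 g_wQ_26_wN_1_rb8033094a_d43_d4b_d41_d28_d43_d1c04v1 g_wQ_26_wN_1_rb8033094a_d43_d4b_d41_d28_d43_d1c05v1 g_wQ_26_wN_1_rb8033094a_d43_d4b_d41_d28_d43_d1c07v1 g_wQ_26_wN_1_rb8033094a_d43_d4b_d41_d28_d43_d1c0fv1 g_wQ_26_wN_1_rb8033094a_d43_d4b_d41_d28_d43_d1c10v1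

theorem g__wQ_26_wN_1_rb8033094a_d43_d4b_d41_d28_d43_d1b_d51_d19_7 : GoodKC AS k_wQ_26_wN_1_rb8033094a_d43_d4b_d41_d28_d43_d1b_d51_d19_7 := p_wQ_26_wN_1_rb8033094a_d43_d4b_d41_d28_d43_d1b_d51_d19_7

theorem g__wQ_26_wN_1_rb8033094a_d43_d4b_d41_d28_d43_d1b_d51_d19_8 : GoodKC AS k_wQ_26_wN_1_rb8033094a_d43_d4b_d41_d28_d43_d1b_d51_d19_8 := p_wQ_26_wN_1_rb8033094a_d43_d4b_d41_d28_d43_d1b_d51_d19_8

theorem g__wQ_26_wN_1_rb8033094a_d43_d4b_d41_d28_d43_d1b_d51_d19_6 : GoodKC AS k_wQ_26_wN_1_rb8033094a_d43_d4b_d41_d28_d43_d1b_d51_d19_6 := p_wQ_26_wN_1_rb8033094a_d43_d4b_d41_d28_d43_d1b_d51_d19_6 g__wQ_26_wN_1_rb8033094a_d43_d4b_d41_d28_d43_d1b_d51_d19_7 g__wQ_26_wN_1_rb8033094a_d43_d4b_d41_d28_d43_d1b_d51_d19_8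

theorem g__wQ_26_wN_1_rb8033094a_d43_d4b_d41_d28_d43_d1b_d51_d19_9 : GoodKC AS k_wQ_26_wN_1_rb8033094a_d43_d4b_d41_d28_d43_d1b_d51_d19_9 := p_wQ_26_wN_1_rb8033094a_d43_d4b_d41_d28_d43_d1b_d51_d19_9

theorem g__wQ_26_wN_1_rb8033094a_d43_d4b_d41_d28_d43_d1b_d51_d19_5 : GoodKC AS k_wQ_26_wN_1_rb8033094a_d43_d4b_d41_d28_d43_d1b_d51_d19_5 := p_wQ_26_wN_1_rb8033094a_d43_d4b_d41_d28_d43_d1b_d51_d19_5 g__wQ_26_wN_1_rb8033094a_d43_d4b_d41_d28_d43_d1b_d51_d19_6 g__wQ_26_wN_1_rb8033094a_d43_d4b_d41_d28_d43_d1b_d51_d19_9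

theorem g__wQ_26_wN_1_rb8033094a_d43_d4b_d41_d28_d43_d1b_d51_d19_4 : GoodKC AS k_wQ_26_wN_1_rb8033094a_d43_d4b_d41_d28_d43_d1b_d51_d19_4 := p_wQ_26_wN_1_rb8033094a_d43_d4b_d41_d28_d43_d1b_d51_d19_4 g__wQ_26_wN_1_rb8033094a_d43_d4b_d41_d28_d43_d1b_d51_d19_5

theorem g__wQ_26_wN_1_rb8033094a_d43_d4b_d41_d28_d43_d1b_d51_d19_12 : GoodKC AS k_wQ_26_wN_1_rb8033094a_d43_d4b_d41_d28_d43_d1b_d51_d19_12 := p_wQ_26_wN_1_rb8033094a_d43_d4b_d41_d28_d43_d1b_d51_d19_12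

theorem g__wQ_26_wN_1_rb8033094a_d43_d4b_d41_d28_d43_d1b_d51_d19_11 : GoodKC AS k_wQ_26_wN_1_rb8033094a_d43_d4b_d41_d28_d43_d1b_d51_d19_11 := p_wQ_26_wN_1_rb8033094a_d43_d4b_d41_d28_d43_d1b_d51_d19_11 g__wQ_26_wN_1_rb8033094a_d43_d4b_d41_d28_d43_d1b_d51_d19_12

theorem g__wQ_26_wN_1_rb8033094a_d43_d4b_d41_d28_d43_d1b_d51_d19_10 : GoodKC AS k_wQ_26_wN_1_rb8033094a_d43_d4b_d41_d28_d43_d1b_d51_d19_10 := p_wQ_26_wN_1_rb8033094a_d43_d4b_d41_d28_d43_d1b_d51_d19_10 g__wQ_26_wN_1_rb8033094a_d43_d4b_d41_d28_d43_d1b_d51_d19_11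

theorem g__wQ_26_wN_1_rb8033094a_d43_d4b_d41_d28_d43_d1b_d51_d19_3 : GoodKC AS k_wQ_26_wN_1_rb8033094a_d43_d4b_d41_d28_d43_d1b_d51_d19_3 := p_wQ_26_wN_1_rb8033094a_d43_d4b_d41_d28_d43_d1b_d51_d19_3 g__wQ_26_wN_1_rb8033094a_d43_d4b_d41_d28_d43_d1b_d51_d19_4 g__wQ_26_wN_1_rb8033094a_d43_d4b_d41_d28_d43_d1b_d51_d19_10

theorem g__wQ_26_wN_1_rb8033094a_d43_d4b_d41_d28_d43_d1b_d51_d19_2 : GoodKC AS k_wQ_26_wN_1_rb8033094a_d43_d4b_d41_d28_d43_d1b_d51_d19_2 := p_wQ_26_wN_1_rb8033094a_d43_d4b_d41_d28_d43_d1b_d51_d19_2 g__wQ_26_wN_1_rb8033094a_d43_d4b_d41_d28_d43_d1b_d51_d19_3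

theorem g__wQ_26_wN_1_rb8033094a_d43_d4b_d41_d28_d43_d1b_d51_d19_1 : GoodKC AS k_wQ_26_wN_1_rb8033094a_d43_d4b_d41_d28_d43_d1b_d51_d19_1 := p_wQ_26_wN_1_rb8033094a_d43_d4b_d41_d28_d43_d1b_d51_d19_1 g__wQ_26_wN_1_rb8033094a_d43_d4b_d41_d28_d43_d1b_d51_d19_2

theorem g__wQ_26_wN_1_rb8033094a_d43_d4b_d41_d28_d43_d1b_d51_d19_0 : GoodKC AS k_wQ_26_wN_1_rb8033094a_d43_d4b_d41_d28_d43_d1b_d51_d19_0 := p_wQ_26_wN_1_rb8033094a_d43_d4b_d41_d28_d43_d1b_d51_d19_0 g__wQ_26_wN_1_rb8033094a_d43_d4b_d41_d28_d43_d1b_d51_d19_1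

theorem g__wQ_26_wN_1_rb8033094a_d43_d4b_d41_d28_d43_d1b_d51_d19_16 : GoodKC AS k_wQ_26_wN_1_rb8033094a_d43_d4b_d41_d28_d43_d1b_d51_d19_16 := p_wQ_26_wN_1_rb8033094a_d43_d4b_d41_d28_d43_d1b_d51_d19_16

theorem g__wQ_26_wN_1_rb8033094a_d43_d4b_d41_d28_d43_d1b_d51_d19_15 : GoodKC AS k_wQ_26_wN_1_rb8033094a_d43_d4b_d41_d28_d43_d1b_d51_d19_15 := p_wQ_26_wN_1_rb8033094a_d43_d4b_d41_d28_d43_d1b_d51_d19_15 g__wQ_26_wN_1_rb8033094a_d43_d4b_d41_d28_d43_d1b_d51_d19_16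

theorem g__wQ_26_wN_1_rb8033094a_d43_d4b_d41_d28_d43_d1b_d51_d19_14 : GoodKC AS k_wQ_26_wN_1_rb8033094a_d43_d4b_d41_d28_d43_d1b_d51_d19_14 := p_wQ_26_wN_1_rb8033094a_d43_d4b_d41_d28_d43_d1b_d51_d19_14 g__wQ_26_wN_1_rb8033094a_d43_d4b_d41_d28_d43_d1b_d51_d19_15

theorem g__wQ_26_wN_1_rb8033094a_d43_d4b_d41_d28_d43_d1b_d51_d19_18 : GoodKC AS k_wQ_26_wN_1_rb8033094a_d43_d4b_d41_d28_d43_d1b_d51_d19_18 := p_wQ_26_wN_1_rb8033094a_d43_d4b_d41_d28_d43_d1b_d51_d19_18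

theorem g__wQ_26_wN_1_rb8033094a_d43_d4b_d41_d28_d43_d1b_d51_d19_25 : GoodKC AS k_wQ_26_wN_1_rb8033094a_d43_d4b_d41_d28_d43_d1b_d51_d19_25 := p_wQ_26_wN_1_rb8033094a_d43_d4b_d41_d28_d43_d1b_d51_d19_25

theorem g__wQ_26_wN_1_rb8033094a_d43_d4b_d41_d28_d43_d1b_d51_d19_24 : GoodKC AS k_wQ_26_wN_1_rb8033094a_d43_d4b_d41_d28_d43_d1b_d51_d19_24 := p_wQ_26_wN_1_rb8033094a_d43_d4b_d41_d28_d43_d1b_d51_d19_24 g__wQ_26_wN_1_rb8033094a_d43_d4b_d41_d28_d43_d1b_d51_d19_25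

theorem g__wQ_26_wN_1_rb8033094a_d43_d4b_d41_d28_d43_d1b_d51_d19_23 : GoodKC AS k_wQ_26_wN_1_rb8033094a_d43_d4b_d41_d28_d43_d1b_d51_d19_23 := p_wQ_26_wN_1_rb8033094a_d43_d4b_d41_d28_d43_d1b_d51_d19_23 g__wQ_26_wN_1_rb8033094a_d43_d4b_d41_d28_d43_d1b_d51_d19_24

theorem g__wQ_26_wN_1_rb8033094a_d43_d4b_d41_d28_d43_d1b_d51_d19_22 : GoodKC AS k_wQ_26_wN_1_rb8033094a_d43_d4b_d41_d28_d43_d1b_d51_d19_22 := p_wQ_26_wN_1_rb8033094a_d43_d4b_d41_d28_d43_d1b_d51_d19_22 g__wQ_26_wN_1_rb8033094a_d43_d4b_d41_d28_d43_d1b_d51_d19_23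

theorem g__wQ_26_wN_1_rb8033094a_d43_d4b_d41_d28_d43_d1b_d51_d19_21 : GoodKC AS k_wQ_26_wN_1_rb8033094a_d43_d4b_d41_d28_d43_d1b_d51_d19_21 := p_wQ_26_wN_1_rb8033094a_d43_d4b_d41_d28_d43_d1b_d51_d19_21 g__wQ_26_wN_1_rb8033094a_d43_d4b_d41_d28_d43_d1b_d51_d19_22

theorem g__wQ_26_wN_1_rb8033094a_d43_d4b_d41_d28_d43_d1b_d51_d19_20 : GoodKC AS k_wQ_26_wN_1_rb8033094a_d43_d4b_d41_d28_d43_d1b_d51_d19_20 := p_wQ_26_wN_1_rb8033094a_d43_d4b_d41_d28_d43_d1b_d51_d19_20 g__wQ_26_wN_1_rb8033094a_d43_d4b_d41_d28_d43_d1b_d51_d19_21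

theorem g__wQ_26_wN_1_rb8033094a_d43_d4b_d41_d28_d43_d1b_d51_d19_19 : GoodKC AS k_wQ_26_wN_1_rb8033094a_d43_d4b_d41_d28_d43_d1b_d51_d19_19 := p_wQ_26_wN_1_rb8033094a_d43_d4b_d41_d28_d43_d1b_d51_d19_19 g__wQ_26_wN_1_rb8033094a_d43_d4b_d41_d28_d43_d1b_d51_d19_20

theorem g__wQ_26_wN_1_rb8033094a_d43_d4b_d41_d28_d43_d1b_d51_d19_17 : GoodKC AS k_wQ_26_wN_1_rb8033094a_d43_d4b_d41_d28_d43_d1b_d51_d19_17 := p_wQ_26_wN_1_rb8033094a_d43_d4b_d41_d28_d43_d1b_d51_d19_17 g__wQ_26_wN_1_rb8033094a_d43_d4b_d41_d28_d43_d1b_d51_d19_18 g__wQ_26_wN_1_rb8033094a_d43_d4b_d41_d28_d43_d1b_d51_d19_19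

theorem g__wQ_26_wN_1_rb8033094a_d43_d4b_d41_d28_d43_d1b_d51_d19_13 : GoodKC AS k_wQ_26_wN_1_rb8033094a_d43_d4b_d41_d28_d43_d1b_d51_d19_13 := p_wQ_26_wN_1_rb8033094a_d43_d4b_d41_d28_d43_d1b_d51_d19_13 g__wQ_26_wN_1_rb8033094a_d43_d4b_d41_d28_d43_d1b_d51_d19_14 g__wQ_26_wN_1_rb8033094a_d43_d4b_d41_d28_d43_d1b_d51_d19_17

theorem g_wQ_26_wN_1_rb8033094a_d43_d4b_d41_d28_d43_d1b_d51_d19 : GoodKC AS c_wQ_26_wN_1_rb8033094a_d43_d4b_d41_d28_d43_d1b_d51_d19 := p_wQ_26_wN_1_rb8033094a_d43_d4b_d41_d28_d43_d1b_d51_d19 g__wQ_26_wN_1_rb8033094a_d43_d4b_d41_d28_d43_d1b_d51_d19_0 g__wQ_26_wN_1_rb8033094a_d43_d4b_d41_d28_d43_d1b_d51_d19_13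

theorem g_wQ_26_wN_1_rb8033094a_d43_d4b_d41_d28_d43_d1b_d51_d16 : GoodKC AS c_wQ_26_wN_1_rb8033094a_d43_d4b_d41_d28_d43_d1b_d51_d16 := p_wQ_26_wN_1_rb8033094a_d43_d4b_d41_d28_d43_d1b_d51_d16

theorem g_wQ_26_wN_1_rb8033094a_d43_d4b_d41_d28_d43_d1b_d51_d15 : GoodKC AS c_wQ_26_wN_1_rb8033094a_d43_d4b_d41_d28_d43_d1b_d51_d15 := p_wQ_26_wN_1_rb8033094a_d43_d4b_d41_d28_d43_d1b_d51_d15

theorem g_wQ_26_wN_1_rb8033094a_d43_d4b_d41_d28_d43_d1b_d51_d14 : GoodKC AS c_wQ_26_wN_1_rb8033094a_d43_d4b_d41_d28_d43_d1b_d51_d14 := p_wQ_26_wN_1_rb8033094a_d43_d4b_d41_d28_d43_d1b_d51_d14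

theorem g_wQ_26_wN_1_rb8033094a_d43_d4b_d41_d28_d43_d1b_d51_d13 : GoodKC AS c_wQ_26_wN_1_rb8033094a_d43_d4b_d41_d28_d43_d1b_d51_d13 := p_wQ_26_wN_1_rb8033094a_d43_d4b_d41_d28_d43_d1b_d51_d13

theorem g_wQ_26_wN_1_rb8033094a_d43_d4b_d41_d28_d43_d1b_d51_d11 : GoodKC AS c_wQ_26_wN_1_rb8033094a_d43_d4b_d41_d28_d43_d1b_d51_d11 := p_wQ_26_wN_1_rb8033094a_d43_d4b_d41_d28_d43_d1b_d51_d11

theorem g__wQ_26_wN_1_rb8033094a_d43_d4b_d41_d28_d43_d1b_1 : GoodKC AS k_wQ_26_wN_1_rb8033094a_d43_d4b_d41_d28_d43_d1b_1 := p_wQ_26_wN_1_rb8033094a_d43_d4b_d41_d28_d43_d1b_1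

theorem g__wQ_26_wN_1_rb8033094a_d43_d4b_d41_d28_d43_d1b_0 : GoodKC AS k_wQ_26_wN_1_rb8033094a_d43_d4b_d41_d28_d43_d1b_0 := p_wQ_26_wN_1_rb8033094a_d43_d4b_d41_d28_d43_d1b_0 g__wQ_26_wN_1_rb8033094a_d43_d4b_d41_d28_d43_d1b_1

theorem g__wQ_26_wN_1_rb8033094a_d43_d4b_d41_d28_d43_d1b_2 : GoodKC AS k_wQ_26_wN_1_rb8033094a_d43_d4b_d41_d28_d43_d1b_2 := p_wQ_26_wN_1_rb8033094a_d43_d4b_d41_d28_d43_d1b_2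

theorem g_wQ_26_wN_1_rb8033094a_d43_d4b_d41_d28_d43_d1b_d51_d10 : GoodKC AS c_wQ_26_wN_1_rb8033094a_d43_d4b_d41_d28_d43_d1b_d51_d10 := p_wQ_26_wN_1_rb8033094a_d43_d4b_d41_d28_d43_d1b_d51_d10

theorem g_wQ_26_wN_1_rb8033094a_d43_d4b_d41_d28_d43_d1b_d51_d0f : GoodKC AS c_wQ_26_wN_1_rb8033094a_d43_d4b_d41_d28_d43_d1b_d51_d0f := p_wQ_26_wN_1_rb8033094a_d43_d4b_d41_d28_d43_d1b_d51_d0f

theorem g_wQ_26_wN_1_rb8033094a_d43_d4b_d41_d28_d43_d1b_d51_d0e : GoodKC AS c_wQ_26_wN_1_rb8033094a_d43_d4b_d41_d28_d43_d1b_d51_d0e := p_wQ_26_wN_1_rb8033094a_d43_d4b_d41_d28_d43_d1b_d51_d0e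

theorem g_wQ_26_wN_1_rb8033094a_d43_d4b_d41_d28_d43_d1b_d51_d0d : GoodKC AS c_wQ_26_wN_1_rb8033094a_d43_d4b_d41_d28_d43_d1b_d51_d0d := p_wQ_26_wN_1_rb8033094a_d43_d4b_d41_d28_d43_d1b_d51_d0d

theorem g_wQ_26_wN_1_rb8033094a_d43_d4b_d41_d28_d43_d1b_d51_d0c : GoodKC AS c_wQ_26_wN_1_rb8033094a_d43_d4b_d41_d28_d43_d1b_d51_d0c := p_wQ_26_wN_1_rb8033094a_d43_d4b_d41_d28_d43_d1b_d51_d0c

theorem g_wQ_26_wN_1_rb8033094a_d43_d4b_d41_d28_d43_d1b_d51_d0b : GoodKC AS c_wQ_26_wN_1_rb8033094a_d43_d4b_d41_d28_d43_d1b_d51_d0b := p_wQ_26_wN_1_rb8033094a_d43_d4b_d41_d28_d43_d1b_d51_d0b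

theorem g_wQ_26_wN_1_rb8033094a_d43_d4b_d41_d28_d43_d1b_d51_d0a : GoodKC AS c_wQ_26_wN_1_rb8033094a_d43_d4b_d41_d28_d43_d1b_d51_d0a := p_wQ_26_wN_1_rb8033094a_d43_d4b_d41_d28_d43_d1b_d51_d0a

theorem g_wQ_26_wN_1_rb8033094a_d43_d4b_d41_d28_d43_d1b_d51_d09 : GoodKC AS c_wQ_26_wN_1_rb8033094a_d43_d4b_d41_d28_d43_d1b_d51_d09 := p_wQ_26_wN_1_rb8033094a_d43_d4b_d41_d28_d43_d1b_d51_d09

theorem g_wQ_26_wN_1_rb8033094a_d43_d4b_d41_d28_d43_d1b_d51_d08 : GoodKC AS c_wQ_26_wN_1_rb8033094a_d43_d4b_d41_d28_d43_d1b_d51_d08 := p_wQ_26_wN_1_rb8033094a_d43_d4b_d41_d28_d43_d1b_d51_d08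

theorem g_wQ_26_wN_1_rb8033094a_d43_d4b_d41_d28_d43_d1b_d51_d07 : GoodKC AS c_wQ_26_wN_1_rb8033094a_d43_d4b_d41_d28_d43_d1b_d51_d07 := p_wQ_26_wN_1_rb8033094a_d43_d4b_d41_d28_d43_d1b_d51_d07

theorem g_wQ_26_wN_1_rb8033094a_d43_d4b_d41_d28_d43_d1b_d51_d06 : GoodKC AS c_wQ_26_wN_1_rb8033094a_d43_d4b_d41_d28_d43_d1b_d51_d06 := p_wQ_26_wN_1_rb8033094a_d43_d4b_d41_d28_d43_d1b_d51_d06

theorem g_wQ_26_wN_1_rb8033094a_d43_d4b_d41_d28_d43_d1b_d51_d01 : GoodKC AS c_wQ_26_wN_1_rb8033094a_d43_d4b_d41_d28_d43_d1b_d51_d01 := p_wQ_26_wN_1_rb8033094a_d43_d4b_d41_d28_d43_d1b_d51_d01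

theorem g_wQ_26_wN_1_rb8033094a_d43_d4b_d41_d28_d43_d1b_d51_d00 : GoodKC AS c_wQ_26_wN_1_rb8033094a_d43_d4b_d41_d28_d43_d1b_d51_d00 := p_wQ_26_wN_1_rb8033094a_d43_d4b_d41_d28_d43_d1b_d51_d00

theorem g_wQ_26_wN_1_rb8033094a_d43_d4b_d41_d28_d43_d1b_d51_d02 : GoodKC AS c_wQ_26_wN_1_rb8033094a_d43_d4b_d41_d28_d43_d1b_d51_d02 := p_wQ_26_wN_1_rb8033094a_d43_d4b_d41_d28_d43_d1b_d51_d02

theorem g_wQ_26_wN_1_rb8033094a_d43_d4b_d41_d28_d43_d1b_d51_d03 : GoodKC AS c_wQ_26_wN_1_rb8033094a_d43_d4b_d41_d28_d43_d1b_d51_d03 := p_wQ_26_wN_1_rb8033094a_d43_d4b_d41_d28_d43_d1b_d51_d03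

theorem g_wQ_26_wN_1_rb8033094a_d43_d4b_d41_d28_d43_d1b_d51_d04 : GoodKC AS c_wQ_26_wN_1_rb8033094a_d43_d4b_d41_d28_d43_d1b_d51_d04 := p_wQ_26_wN_1_rb8033094a_d43_d4b_d41_d28_d43_d1b_d51_d04

theorem g_wQ_26_wN_1_rb8033094a_d43_d4b_d41_d28_d43_d1b_d51_d05 : GoodKC AS c_wQ_26_wN_1_rb8033094a_d43_d4b_d41_d28_d43_d1b_d51_d05 := p_wQ_26_wN_1_rb8033094a_d43_d4b_d41_d28_d43_d1b_d51_d05

theorem g_wQ_26_wN_1_rb8033094a_d43_d4b_d41_d28_d43_d1b_d51_d12 : GoodKC AS c_wQ_26_wN_1_rb8033094a_d43_d4b_d41_d28_d43_d1b_d51_d12 := p_wQ_26_wN_1_rb8033094a_d43_d4b_d41_d28_d43_d1b_d51_d12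

theorem g_wQ_26_wN_1_rb8033094a_d43_d4b_d41_d28_d43_d1b_d51_d17 : GoodKC AS c_wQ_26_wN_1_rb8033094a_d43_d4b_d41_d28_d43_d1b_d51_d17 := p_wQ_26_wN_1_rb8033094a_d43_d4b_d41_d28_d43_d1b_d51_d17

theorem g_wQ_26_wN_1_rb8033094a_d43_d4b_d41_d28_d43_d1b_d51_d18 : GoodKC AS c_wQ_26_wN_1_rb8033094a_d43_d4b_d41_d28_d43_d1b_d51_d18 := p_wQ_26_wN_1_rb8033094a_d43_d4b_d41_d28_d43_d1b_d51_d18

theorem g_wQ_26_wN_1_rb8033094a_d43_d4b_d41_d28_d43_d1bx2 : GoodKC AS c_wQ_26_wN_1_rb8033094a_d43_d4b_d41_d28_d43_d1bx2 := p_wQ_26_wN_1_rb8033094a_d43_d4b_d41_d28_d43_d1b g_wQ_26_wN_1_rb8033094a_d43_d4b_d41_d28_d43_d1b_d51_d19 g_wQ_26_wN_1_rb8033094a_d43_d4b_d41_d28_d43_d1b_d51_d16 g_wQ_26_wN_1_rb8033094a_d43_d4b_d41_d28_d43_d1b_d51_d15 g_wQ_26_wN_1_rb8033094a_d43_d4b_d41_d28_d43_d1b_d51_d14 g_wQ_26_wN_1_rb8033094a_d43_d4b_d41_d28_d43_d1b_d51_d13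 g_wQ_26_wN_1_rb8033094a_d43_d4b_d41_d28_d43_d1b_d51_d11 g__wQ_26_wN_1_rb8033094a_d43_d4b_d41_d28_d43_d1b_0 g__wQ_26_wN_1_rb8033094a_d43_d4b_d41_d28_d43_d1b_2 g_wQ_26_wN_1_rb8033094a_d43_d4b_d41_d28_d43_d1b_d51_d10 g_wQ_26_wN_1_rb8033094a_d43_d4b_d41_d28_d43_d1b_d51_d0f g_wQ_26_wN_1_rb8033094a_d43_d4b_d41_d28_d43_d1b_d51_d0e g_wQ_26_wN_1_rb8033094a_d43_d4b_d41_d28_d43_d1b_d51_d0d g_wQ_26_wN_1_rb8033094a_d43_d4b_d41_d28_d43_d1b_d51_d0c g_wQ_26_wN_1_rb8033094a_d43_d4b_d41_d28_d43_d1b_d51_d0b g_wQ_26_wN_1_rb8033094a_d43_d4b_d41_d28_d43_d1b_d51_d0a g_wQ_26_wN_1_rb8033094a_d43_d4b_d41_d28_d43_d1b_d51_d09 g_wQ_26_wN_1_rb8033094a_d43_d4b_d41_d28_d43_d1b_d51_d08 g_wQ_26_wN_1_rb8033094a_d43_d4b_d41_d28_d43_d1b_d51_d07 g_wQ_26_wN_1_rb8033094a_d43_d4b_d41_d28_d43_d1b_d51_d06 g_wQ_26_wN_1_rb8033094a_d43_d4b_d41_d28_d43_d1b_d51_d01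 g_wQ_26_wN_1_rb8033094a_d43_d4b_d41_d28_d43_d1b_d51_d00 g_wQ_26_wN_1_rb8033094a_d43_d4b_d41_d28_d43_d1b_d51_d02 g_wQ_26_wN_1_rb8033094a_d43_d4b_d41_d28_d43_d1b_d51_d03 g_wQ_26_wN_1_rb8033094a_d43_d4b_d41_d28_d43_d1b_d51_d04 g_wQ_26_wN_1_rb8033094a_d43_d4b_d41_d28_d43_d1b_d51_d05 g_wQ_26_wN_1_rb8033094a_d43_d4b_d41_d28_d43_d1b_d51_d12 g_wQ_26_wN_1_rb8033094a_d43_d4b_d41_d28_d43_d1b_d51_d17 g_wQ_26_wN_1_rb8033094a_d43_d4b_d41_d28_d43_d1b_d51_d18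

theorem g_wQ_26_wN_1_rb8033094a_d43_d4b_d41_d28_d43_d1ax2 : GoodKC AS c_wQ_26_wN_1_rb8033094a_d43_d4b_d41_d28_d43_d1ax2 := p_wQ_26_wN_1_rb8033094a_d43_d4b_d41_d28_d43_d1a

theorem g_wQ_26_wN_1_rb8033094a_d43_d4b_d41_d28_d43_d19x2 : GoodKC AS c_wQ_26_wN_1_rb8033094a_d43_d4b_d41_d28_d43_d19x2 := p_wQ_26_wN_1_rb8033094a_d43_d4b_d41_d28_d43_d19

theorem g__wQ_26_wN_1_rb8033094a_d43_d4b_d41_d28_d43_d18_1 : GoodKC AS k_wQ_26_wN_1_rb8033094a_d43_d4b_d41_d28_d43_d18_1 := p_wQ_26_wN_1_rb8033094a_d43_d4b_d41_d28_d43_d18_1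

theorem g__wQ_26_wN_1_rb8033094a_d43_d4b_d41_d28_d43_d18_0 : GoodKC AS k_wQ_26_wN_1_rb8033094a_d43_d4b_d41_d28_d43_d18_0 := p_wQ_26_wN_1_rb8033094a_d43_d4b_d41_d28_d43_d18_0 g__wQ_26_wN_1_rb8033094a_d43_d4b_d41_d28_d43_d18_1

theorem g_wQ_26_wN_1_rb8033094a_d43_d4b_d41_d28_d43_d18x2 : GoodKC AS c_wQ_26_wN_1_rb8033094a_d43_d4b_d41_d28_d43_d18x2 := p_wQ_26_wN_1_rb8033094a_d43_d4b_d41_d28_d43_d18 g__wQ_26_wN_1_rb8033094a_d43_d4b_d41_d28_d43_d18_0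

theorem g__wQ_26_wN_1_rb8033094a_d43_d4b_d41_d28_d43_d16v1_2 : GoodKC AS k_wQ_26_wN_1_rb8033094a_d43_d4b_d41_d28_d43_d16v1_2 := p_wQ_26_wN_1_rb8033094a_d43_d4b_d41_d28_d43_d16v1_2

theorem g__wQ_26_wN_1_rb8033094a_d43_d4b_d41_d28_d43_d16v1_1 : GoodKC AS k_wQ_26_wN_1_rb8033094a_d43_d4b_d41_d28_d43_d16v1_1 := p_wQ_26_wN_1_rb8033094a_d43_d4b_d41_d28_d43_d16v1_1 g__wQ_26_wN_1_rb8033094a_d43_d4b_d41_d28_d43_d16v1_2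

theorem g__wQ_26_wN_1_rb8033094a_d43_d4b_d41_d28_d43_d16v1_0 : GoodKC AS k_wQ_26_wN_1_rb8033094a_d43_d4b_d41_d28_d43_d16v1_0 := p_wQ_26_wN_1_rb8033094a_d43_d4b_d41_d28_d43_d16v1_0 g__wQ_26_wN_1_rb8033094a_d43_d4b_d41_d28_d43_d16v1_1

theorem g__wQ_26_wN_1_rb8033094a_d43_d4b_d41_d28_d43_d16v1_3 : GoodKC AS k_wQ_26_wN_1_rb8033094a_d43_d4b_d41_d28_d43_d16v1_3 := p_wQ_26_wN_1_rb8033094a_d43_d4b_d41_d28_d43_d16v1_3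

theorem g_wQ_26_wN_1_rb8033094a_d43_d4b_d41_d28_d43_d16x2 : GoodKC AS c_wQ_26_wN_1_rb8033094a_d43_d4b_d41_d28_d43_d16x2 := p_wQ_26_wN_1_rb8033094a_d43_d4b_d41_d28_d43_d16v1 g__wQ_26_wN_1_rb8033094a_d43_d4b_d41_d28_d43_d16v1_0 g__wQ_26_wN_1_rb8033094a_d43_d4b_d41_d28_d43_d16v1_3

theorem g_wQ_26_wN_1_rb8033094a_d43_d4b_d41_d28_d43_d13x2 : GoodKC AS c_wQ_26_wN_1_rb8033094a_d43_d4b_d41_d28_d43_d13x2 := p_wQ_26_wN_1_rb8033094a_d43_d4b_d41_d28_d43_d13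

theorem g_wQ_26_wN_1_rb8033094a_d43_d4b_d41_d28_d43_d12x2 : GoodKC AS c_wQ_26_wN_1_rb8033094a_d43_d4b_d41_d28_d43_d12x2 := p_wQ_26_wN_1_rb8033094a_d43_d4b_d41_d28_d43_d12

theorem g_wQ_26_wN_1_rb8033094a_d43_d4b_d41_d28_d43_d10x2 : GoodKC AS c_wQ_26_wN_1_rb8033094a_d43_d4b_d41_d28_d43_d10x2 := p_wQ_26_wN_1_rb8033094a_d43_d4b_d41_d28_d43_d10

theorem g_wQ_26_wN_1_rb8033094a_d43_d4b_d41_d28_d43_d0ex2 : GoodKC AS c_wQ_26_wN_1_rb8033094a_d43_d4b_d41_d28_d43_d0ex2 := p_wQ_26_wN_1_rb8033094a_d43_d4b_d41_d28_d43_d0e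

theorem g_wQ_26_wN_1_rb8033094a_d43_d4b_d41_d28_d43_d0dx2 : GoodKC AS c_wQ_26_wN_1_rb8033094a_d43_d4b_d41_d28_d43_d0dx2 := p_wQ_26_wN_1_rb8033094a_d43_d4b_d41_d28_d43_d0d

theorem g__wQ_26_wN_1_rb8033094a_d43_d4b_d41_d28_d43_d0c_1 : GoodKC AS k_wQ_26_wN_1_rb8033094a_d43_d4b_d41_d28_d43_d0c_1 := p_wQ_26_wN_1_rb8033094a_d43_d4b_d41_d28_d43_d0c_1

theorem g__wQ_26_wN_1_rb8033094a_d43_d4b_d41_d28_d43_d0c_0 : GoodKC AS k_wQ_26_wN_1_rb8033094a_d43_d4b_d41_d28_d43_d0c_0 := p_wQ_26_wN_1_rb8033094a_d43_d4b_d41_d28_d43_d0c_0 g__wQ_26_wN_1_rb8033094a_d43_d4b_d41_d28_d43_d0c_1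

theorem g_wQ_26_wN_1_rb8033094a_d43_d4b_d41_d28_d43_d0cx2 : GoodKC AS c_wQ_26_wN_1_rb8033094a_d43_d4b_d41_d28_d43_d0cx2 := p_wQ_26_wN_1_rb8033094a_d43_d4b_d41_d28_d43_d0c g__wQ_26_wN_1_rb8033094a_d43_d4b_d41_d28_d43_d0c_0

theorem g_wQ_26_wN_1_rb8033094a_d43_d4b_d41_d28_d43_d0bx2 : GoodKC AS c_wQ_26_wN_1_rb8033094a_d43_d4b_d41_d28_d43_d0bx2 := p_wQ_26_wN_1_rb8033094a_d43_d4b_d41_d28_d43_d0b

theorem g_wQ_26_wN_1_rb8033094a_d43_d4b_d41_d28_d43_d09x2 : GoodKC AS c_wQ_26_wN_1_rb8033094a_d43_d4b_d41_d28_d43_d09x2 := p_wQ_26_wN_1_rb8033094a_d43_d4b_d41_d28_d43_d09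

theorem g_wQ_26_wN_1_rb8033094a_d43_d4b_d41_d28_d43_d07x2 : GoodKC AS c_wQ_26_wN_1_rb8033094a_d43_d4b_d41_d28_d43_d07x2 := p_wQ_26_wN_1_rb8033094a_d43_d4b_d41_d28_d43_d07

theorem g_wQ_26_wN_1_rb8033094a_d43_d4b_d41_d28_d43_d05x2 : GoodKC AS c_wQ_26_wN_1_rb8033094a_d43_d4b_d41_d28_d43_d05x2 := p_wQ_26_wN_1_rb8033094a_d43_d4b_d41_d28_d43_d05

theorem g_wQ_26_wN_1_rb8033094a_d43_d4b_d41_d28_d43_d03x2 : GoodKC AS c_wQ_26_wN_1_rb8033094a_d43_d4b_d41_d28_d43_d03x2 := p_wQ_26_wN_1_rb8033094a_d43_d4b_d41_d28_d43_d03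

theorem g__wQ_26_wN_1_rb8033094a_d43_d4b_d41_d28_d43_d01_0 : GoodKC AS k_wQ_26_wN_1_rb8033094a_d43_d4b_d41_d28_d43_d01_0 := p_wQ_26_wN_1_rb8033094a_d43_d4b_d41_d28_d43_d01_0

theorem g_wQ_26_wN_1_rb8033094a_d43_d4b_d41_d28_d43_d01x2 : GoodKC AS c_wQ_26_wN_1_rb8033094a_d43_d4b_d41_d28_d43_d01x2 := p_wQ_26_wN_1_rb8033094a_d43_d4b_d41_d28_d43_d01 g__wQ_26_wN_1_rb8033094a_d43_d4b_d41_d28_d43_d01_0

theorem g__wQ_26_wN_1_rb8033094a_d43_d4b_d41_d28_d43_d00_7 : GoodKC AS k_wQ_26_wN_1_rb8033094a_d43_d4b_d41_d28_d43_d00_7 := p_wQ_26_wN_1_rb8033094a_d43_d4b_d41_d28_d43_d00_7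

theorem g__wQ_26_wN_1_rb8033094a_d43_d4b_d41_d28_d43_d00_6 : GoodKC AS k_wQ_26_wN_1_rb8033094a_d43_d4b_d41_d28_d43_d00_6 := p_wQ_26_wN_1_rb8033094a_d43_d4b_d41_d28_d43_d00_6 g__wQ_26_wN_1_rb8033094a_d43_d4b_d41_d28_d43_d00_7

theorem g__wQ_26_wN_1_rb8033094a_d43_d4b_d41_d28_d43_d00_5 : GoodKC AS k_wQ_26_wN_1_rb8033094a_d43_d4b_d41_d28_d43_d00_5 := p_wQ_26_wN_1_rb8033094a_d43_d4b_d41_d28_d43_d00_5 g__wQ_26_wN_1_rb8033094a_d43_d4b_d41_d28_d43_d00_6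

theorem g__wQ_26_wN_1_rb8033094a_d43_d4b_d41_d28_d43_d00_4 : GoodKC AS k_wQ_26_wN_1_rb8033094a_d43_d4b_d41_d28_d43_d00_4 := p_wQ_26_wN_1_rb8033094a_d43_d4b_d41_d28_d43_d00_4 g__wQ_26_wN_1_rb8033094a_d43_d4b_d41_d28_d43_d00_5

theorem g__wQ_26_wN_1_rb8033094a_d43_d4b_d41_d28_d43_d00_8 : GoodKC AS k_wQ_26_wN_1_rb8033094a_d43_d4b_d41_d28_d43_d00_8 := p_wQ_26_wN_1_rb8033094a_d43_d4b_d41_d28_d43_d00_8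

theorem g__wQ_26_wN_1_rb8033094a_d43_d4b_d41_d28_d43_d00_3 : GoodKC AS k_wQ_26_wN_1_rb8033094a_d43_d4b_d41_d28_d43_d00_3 := p_wQ_26_wN_1_rb8033094a_d43_d4b_d41_d28_d43_d00_3 g__wQ_26_wN_1_rb8033094a_d43_d4b_d41_d28_d43_d00_4 g__wQ_26_wN_1_rb8033094a_d43_d4b_d41_d28_d43_d00_8

theorem g__wQ_26_wN_1_rb8033094a_d43_d4b_d41_d28_d43_d00_2 : GoodKC AS k_wQ_26_wN_1_rb8033094a_d43_d4b_d41_d28_d43_d00_2 := p_wQ_26_wN_1_rb8033094a_d43_d4b_d41_d28_d43_d00_2 g__wQ_26_wN_1_rb8033094a_d43_d4b_d41_d28_d43_d00_3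

theorem g__wQ_26_wN_1_rb8033094a_d43_d4b_d41_d28_d43_d00_1 : GoodKC AS k_wQ_26_wN_1_rb8033094a_d43_d4b_d41_d28_d43_d00_1 := p_wQ_26_wN_1_rb8033094a_d43_d4b_d41_d28_d43_d00_1 g__wQ_26_wN_1_rb8033094a_d43_d4b_d41_d28_d43_d00_2

theorem g__wQ_26_wN_1_rb8033094a_d43_d4b_d41_d28_d43_d00_0 : GoodKC AS k_wQ_26_wN_1_rb8033094a_d43_d4b_d41_d28_d43_d00_0 := p_wQ_26_wN_1_rb8033094a_d43_d4b_d41_d28_d43_d00_0 g__wQ_26_wN_1_rb8033094a_d43_d4b_d41_d28_d43_d00_1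

theorem g_wQ_26_wN_1_rb8033094a_d43_d4b_d41_d28_d43_d00x2 : GoodKC AS c_wQ_26_wN_1_rb8033094a_d43_d4b_d41_d28_d43_d00x2 := p_wQ_26_wN_1_rb8033094a_d43_d4b_d41_d28_d43_d00 g__wQ_26_wN_1_rb8033094a_d43_d4b_d41_d28_d43_d00_0

theorem g_wQ_26_wN_1_rb8033094a_d43_d4b_d41_d28_d43_d02x2 : GoodKC AS c_wQ_26_wN_1_rb8033094a_d43_d4b_d41_d28_d43_d02x2 := p_wQ_26_wN_1_rb8033094a_d43_d4b_d41_d28_d43_d02

theorem g__wQ_26_wN_1_rb8033094a_d43_d4b_d41_d28x2_1 : GoodKC AS k_wQ_26_wN_1_rb8033094a_d43_d4b_d41_d28x2_1 := p_wQ_26_wN_1_rb8033094a_d43_d4b_d41_d28x2_1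

theorem g__wQ_26_wN_1_rb8033094a_d43_d4b_d41_d28x2_9 : GoodKC AS k_wQ_26_wN_1_rb8033094a_d43_d4b_d41_d28x2_9 := p_wQ_26_wN_1_rb8033094a_d43_d4b_d41_d28x2_9

theorem g__wQ_26_wN_1_rb8033094a_d43_d4b_d41_d28x2_8 : GoodKC AS k_wQ_26_wN_1_rb8033094a_d43_d4b_d41_d28x2_8 := p_wQ_26_wN_1_rb8033094a_d43_d4b_d41_d28x2_8 g__wQ_26_wN_1_rb8033094a_d43_d4b_d41_d28x2_9

theorem g__wQ_26_wN_1_rb8033094a_d43_d4b_d41_d28x2_7 : GoodKC AS k_wQ_26_wN_1_rb8033094a_d43_d4b_d41_d28x2_7 := p_wQ_26_wN_1_rb8033094a_d43_d4b_d41_d28x2_7 g__wQ_26_wN_1_rb8033094a_d43_d4b_d41_d28x2_8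

theorem g__wQ_26_wN_1_rb8033094a_d43_d4b_d41_d28x2_6 : GoodKC AS k_wQ_26_wN_1_rb8033094a_d43_d4b_d41_d28x2_6 := p_wQ_26_wN_1_rb8033094a_d43_d4b_d41_d28x2_6 g__wQ_26_wN_1_rb8033094a_d43_d4b_d41_d28x2_7

theorem g__wQ_26_wN_1_rb8033094a_d43_d4b_d41_d28x2_5 : GoodKC AS k_wQ_26_wN_1_rb8033094a_d43_d4b_d41_d28x2_5 := p_wQ_26_wN_1_rb8033094a_d43_d4b_d41_d28x2_5 g__wQ_26_wN_1_rb8033094a_d43_d4b_d41_d28x2_6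

theorem g__wQ_26_wN_1_rb8033094a_d43_d4b_d41_d28x2_4 : GoodKC AS k_wQ_26_wN_1_rb8033094a_d43_d4b_d41_d28x2_4 := p_wQ_26_wN_1_rb8033094a_d43_d4b_d41_d28x2_4 g__wQ_26_wN_1_rb8033094a_d43_d4b_d41_d28x2_5

theorem g__wQ_26_wN_1_rb8033094a_d43_d4b_d41_d28x2_3 : GoodKC AS k_wQ_26_wN_1_rb8033094a_d43_d4b_d41_d28x2_3 := p_wQ_26_wN_1_rb8033094a_d43_d4b_d41_d28x2_3 g__wQ_26_wN_1_rb8033094a_d43_d4b_d41_d28x2_4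

theorem g__wQ_26_wN_1_rb8033094a_d43_d4b_d41_d28x2_2 : GoodKC AS k_wQ_26_wN_1_rb8033094a_d43_d4b_d41_d28x2_2 := p_wQ_26_wN_1_rb8033094a_d43_d4b_d41_d28x2_2 g__wQ_26_wN_1_rb8033094a_d43_d4b_d41_d28x2_3

theorem g_wQ_26_wN_1_rb8033094a_d43_d4b_d41_d28_d43_d04x2 : GoodKC AS c_wQ_26_wN_1_rb8033094a_d43_d4b_d41_d28_d43_d04x2 := p_wQ_26_wN_1_rb8033094a_d43_d4b_d41_d28_d43_d04

theorem g_wQ_26_wN_1_rb8033094a_d43_d4b_d41_d28_d43_d06x2 : GoodKC AS c_wQ_26_wN_1_rb8033094a_d43_d4b_d41_d28_d43_d06x2 := p_wQ_26_wN_1_rb8033094a_d43_d4b_d41_d28_d43_d06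

theorem g_wQ_26_wN_1_rb8033094a_d43_d4b_d41_d28_d43_d08x2 : GoodKC AS c_wQ_26_wN_1_rb8033094a_d43_d4b_d41_d28_d43_d08x2 := p_wQ_26_wN_1_rb8033094a_d43_d4b_d41_d28_d43_d08

theorem g_wQ_26_wN_1_rb8033094a_d43_d4b_d41_d28_d43_d0ax2 : GoodKC AS c_wQ_26_wN_1_rb8033094a_d43_d4b_d41_d28_d43_d0ax2 := p_wQ_26_wN_1_rb8033094a_d43_d4b_d41_d28_d43_d0a

theorem g_wQ_26_wN_1_rb8033094a_d43_d4b_d41_d28_d43_d0fx2 : GoodKC AS c_wQ_26_wN_1_rb8033094a_d43_d4b_d41_d28_d43_d0fx2 := p_wQ_26_wN_1_rb8033094a_d43_d4b_d41_d28_d43_d0f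

theorem g__wQ_26_wN_1_rb8033094a_d43_d4b_d41_d28_d43_d11_0 : GoodKC AS k_wQ_26_wN_1_rb8033094a_d43_d4b_d41_d28_d43_d11_0 := p_wQ_26_wN_1_rb8033094a_d43_d4b_d41_d28_d43_d11_0

theorem g_wQ_26_wN_1_rb8033094a_d43_d4b_d41_d28_d43_d11x2 : GoodKC AS c_wQ_26_wN_1_rb8033094a_d43_d4b_d41_d28_d43_d11x2 := p_wQ_26_wN_1_rb8033094a_d43_d4b_d41_d28_d43_d11 g__wQ_26_wN_1_rb8033094a_d43_d4b_d41_d28_d43_d11_0

theorem g_wQ_26_wN_1_rb8033094a_d43_d4b_d41_d28_d43_d14x2 : GoodKC AS c_wQ_26_wN_1_rb8033094a_d43_d4b_d41_d28_d43_d14x2 := p_wQ_26_wN_1_rb8033094a_d43_d4b_d41_d28_d43_d14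

theorem g_wQ_26_wN_1_rb8033094a_d43_d4b_d41_d28_d43_d15x2 : GoodKC AS c_wQ_26_wN_1_rb8033094a_d43_d4b_d41_d28_d43_d15x2 := p_wQ_26_wN_1_rb8033094a_d43_d4b_d41_d28_d43_d15

theorem g_wQ_26_wN_1_rb8033094a_d43_d4b_d41_d28_d43_d17x2 : GoodKC AS c_wQ_26_wN_1_rb8033094a_d43_d4b_d41_d28_d43_d17x2 := p_wQ_26_wN_1_rb8033094a_d43_d4b_d41_d28_d43_d17

theorem g__wQ_26_wN_1_rb8033094a_d43_d4b_d41_d28x2_0 : GoodKC AS k_wQ_26_wN_1_rb8033094a_d43_d4b_d41_d28x2_0 := p_wQ_26_wN_1_rb8033094a_d43_d4b_d41_d28x2_0 g_wQ_26_wN_1_rb8033094a_d43_d4b_d41_d28_d43_d1dx2 g_wQ_26_wN_1_rb8033094a_d43_d4b_d41_d28_d43_d1cx2 g_wQ_26_wN_1_rb8033094a_d43_d4b_d41_d28_d43_d1bx2 g_wQ_26_wN_1_rb8033094a_d43_d4b_d41_d28_d43_d1ax2 g_wQ_26_wN_1_rb8033094a_d43_d4b_d41_d28_d43_d19x2 g_wQ_26_wN_1_rb8033094a_d43_d4b_d41_d28_d43_d18x2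 g_wQ_26_wN_1_rb8033094a_d43_d4b_d41_d28_d43_d16x2 g_wQ_26_wN_1_rb8033094a_d43_d4b_d41_d28_d43_d13x2 g_wQ_26_wN_1_rb8033094a_d43_d4b_d41_d28_d43_d12x2 g_wQ_26_wN_1_rb8033094a_d43_d4b_d41_d28_d43_d10x2 g_wQ_26_wN_1_rb8033094a_d43_d4b_d41_d28_d43_d0ex2 g_wQ_26_wN_1_rb8033094a_d43_d4b_d41_d28_d43_d0dx2 g_wQ_26_wN_1_rb8033094a_d43_d4b_d41_d28_d43_d0cx2 g_wQ_26_wN_1_rb8033094a_d43_d4b_d41_d28_d43_d0bx2 g_wQ_26_wN_1_rb8033094a_d43_d4b_d41_d28_d43_d09x2 g_wQ_26_wN_1_rb8033094a_d43_d4b_d41_d28_d43_d07x2 g_wQ_26_wN_1_rb8033094a_d43_d4b_d41_d28_d43_d05x2 g_wQ_26_wN_1_rb8033094a_d43_d4b_d41_d28_d43_d03x2 g_wQ_26_wN_1_rb8033094a_d43_d4b_d41_d28_d43_d01x2 g_wQ_26_wN_1_rb8033094a_d43_d4b_d41_d28_d43_d00x2 g_wQ_26_wN_1_rb8033094a_d43_d4b_d41_d28_d43_d02x2 g__wQ_26_wN_1_rb8033094a_d43_d4b_d41_d28x2_1 g__wQ_26_wN_1_rb8033094a_d43_d4b_d41_d28x2_2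 g_wQ_26_wN_1_rb8033094a_d43_d4b_d41_d28_d43_d04x2 g_wQ_26_wN_1_rb8033094a_d43_d4b_d41_d28_d43_d06x2 g_wQ_26_wN_1_rb8033094a_d43_d4b_d41_d28_d43_d08x2 g_wQ_26_wN_1_rb8033094a_d43_d4b_d41_d28_d43_d0ax2 g_wQ_26_wN_1_rb8033094a_d43_d4b_d41_d28_d43_d0fx2 g_wQ_26_wN_1_rb8033094a_d43_d4b_d41_d28_d43_d11x2 g_wQ_26_wN_1_rb8033094a_d43_d4b_d41_d28_d43_d14x2 g_wQ_26_wN_1_rb8033094a_d43_d4b_d41_d28_d43_d15x2 g_wQ_26_wN_1_rb8033094a_d43_d4b_d41_d28_d43_d17x2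

theorem g_wQ_26_wN_1_rb8033094a_d43_d4b_d41_d28_d43_d21_d43_d13v2 : GoodKC AS c_wQ_26_wN_1_rb8033094a_d43_d4b_d41_d28_d43_d21_d43_d13v2 := p_wQ_26_wN_1_rb8033094a_d43_d4b_d41_d28_d43_d21_d43_d13

theorem g_wQ_26_wN_1_rb8033094a_d43_d4b_d41_d28_d43_d21_d43_d11v2 : GoodKC AS c_wQ_26_wN_1_rb8033094a_d43_d4b_d41_d28_d43_d21_d43_d11v2 := p_wQ_26_wN_1_rb8033094a_d43_d4b_d41_d28_d43_d21_d43_d11

theorem g_wQ_26_wN_1_rb8033094a_d43_d4b_d41_d28_d43_d21_d43_d10v2 : GoodKC AS c_wQ_26_wN_1_rb8033094a_d43_d4b_d41_d28_d43_d21_d43_d10v2 := p_wQ_26_wN_1_rb8033094a_d43_d4b_d41_d28_d43_d21_d43_d10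

theorem g_wQ_26_wN_1_rb8033094a_d43_d4b_d41_d28_d43_d21_d43_d0ev2 : GoodKC AS c_wQ_26_wN_1_rb8033094a_d43_d4b_d41_d28_d43_d21_d43_d0ev2 := p_wQ_26_wN_1_rb8033094a_d43_d4b_d41_d28_d43_d21_d43_d0e

theorem g_wQ_26_wN_1_rb8033094a_d43_d4b_d41_d28_d43_d21_d43_d0cv2 : GoodKC AS c_wQ_26_wN_1_rb8033094a_d43_d4b_d41_d28_d43_d21_d43_d0cv2 := p_wQ_26_wN_1_rb8033094a_d43_d4b_d41_d28_d43_d21_d43_d0c

theorem g_wQ_26_wN_1_rb8033094a_d43_d4b_d41_d28_d43_d21_d43_d08v2 : GoodKC AS c_wQ_26_wN_1_rb8033094a_d43_d4b_d41_d28_d43_d21_d43_d08v2 := p_wQ_26_wN_1_rb8033094a_d43_d4b_d41_d28_d43_d21_d43_d08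

theorem g_wQ_26_wN_1_rb8033094a_d43_d4b_d41_d28_d43_d21_d43_d07v2 : GoodKC AS c_wQ_26_wN_1_rb8033094a_d43_d4b_d41_d28_d43_d21_d43_d07v2 := p_wQ_26_wN_1_rb8033094a_d43_d4b_d41_d28_d43_d21_d43_d07

theorem g_wQ_26_wN_1_rb8033094a_d43_d4b_d41_d28_d43_d21_d43_d06v2 : GoodKC AS c_wQ_26_wN_1_rb8033094a_d43_d4b_d41_d28_d43_d21_d43_d06v2 := p_wQ_26_wN_1_rb8033094a_d43_d4b_d41_d28_d43_d21_d43_d06

theorem g_wQ_26_wN_1_rb8033094a_d43_d4b_d41_d28_d43_d21_d43_d03v2 : GoodKC AS c_wQ_26_wN_1_rb8033094a_d43_d4b_d41_d28_d43_d21_d43_d03v2 := p_wQ_26_wN_1_rb8033094a_d43_d4b_d41_d28_d43_d21_d43_d03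

theorem g_wQ_26_wN_1_rb8033094a_d43_d4b_d41_d28_d43_d21_d43_d04v2 : GoodKC AS c_wQ_26_wN_1_rb8033094a_d43_d4b_d41_d28_d43_d21_d43_d04v2 := p_wQ_26_wN_1_rb8033094a_d43_d4b_d41_d28_d43_d21_d43_d04

theorem g_wQ_26_wN_1_rb8033094a_d43_d4b_d41_d28_d43_d21_d43_d05v2 : GoodKC AS c_wQ_26_wN_1_rb8033094a_d43_d4b_d41_d28_d43_d21_d43_d05v2 := p_wQ_26_wN_1_rb8033094a_d43_d4b_d41_d28_d43_d21_d43_d05

theorem g__wQ_26_wN_1_rb8033094a_d43_d4b_d41_d28_d43_d21v2_1 : GoodKC AS k_wQ_26_wN_1_rb8033094a_d43_d4b_d41_d28_d43_d21v2_1 := p_wQ_26_wN_1_rb8033094a_d43_d4b_d41_d28_d43_d21v2_1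

theorem g__wQ_26_wN_1_rb8033094a_d43_d4b_d41_d28_d43_d21v2_0 : GoodKC AS k_wQ_26_wN_1_rb8033094a_d43_d4b_d41_d28_d43_d21v2_0 := p_wQ_26_wN_1_rb8033094a_d43_d4b_d41_d28_d43_d21v2_0 g__wQ_26_wN_1_rb8033094a_d43_d4b_d41_d28_d43_d21v2_1

theorem g_wQ_26_wN_1_rb8033094a_d43_d4b_d41_d28_d43_d21_d43_d09v2 : GoodKC AS c_wQ_26_wN_1_rb8033094a_d43_d4b_d41_d28_d43_d21_d43_d09v2 := p_wQ_26_wN_1_rb8033094a_d43_d4b_d41_d28_d43_d21_d43_d09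

theorem g_wQ_26_wN_1_rb8033094a_d43_d4b_d41_d28_d43_d21_d43_d0av2 : GoodKC AS c_wQ_26_wN_1_rb8033094a_d43_d4b_d41_d28_d43_d21_d43_d0av2 := p_wQ_26_wN_1_rb8033094a_d43_d4b_d41_d28_d43_d21_d43_d0a

theorem g_wQ_26_wN_1_rb8033094a_d43_d4b_d41_d28_d43_d21_d43_d0bv2 : GoodKC AS c_wQ_26_wN_1_rb8033094a_d43_d4b_d41_d28_d43_d21_d43_d0bv2 := p_wQ_26_wN_1_rb8033094a_d43_d4b_d41_d28_d43_d21_d43_d0b

theorem g_wQ_26_wN_1_rb8033094a_d43_d4b_d41_d28_d43_d21_d43_d0dv2 : GoodKC AS c_wQ_26_wN_1_rb8033094a_d43_d4b_d41_d28_d43_d21_d43_d0dv2 := p_wQ_26_wN_1_rb8033094a_d43_d4b_d41_d28_d43_d21_d43_d0d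

theorem g__wQ_26_wN_1_rb8033094a_d43_d4b_d41_d28_d43_d21v2_4 : GoodKC AS k_wQ_26_wN_1_rb8033094a_d43_d4b_d41_d28_d43_d21v2_4 := p_wQ_26_wN_1_rb8033094a_d43_d4b_d41_d28_d43_d21v2_4

theorem g__wQ_26_wN_1_rb8033094a_d43_d4b_d41_d28_d43_d21v2_8 : GoodKC AS k_wQ_26_wN_1_rb8033094a_d43_d4b_d41_d28_d43_d21v2_8 := p_wQ_26_wN_1_rb8033094a_d43_d4b_d41_d28_d43_d21v2_8

theorem g__wQ_26_wN_1_rb8033094a_d43_d4b_d41_d28_d43_d21v2_9 : GoodKC AS k_wQ_26_wN_1_rb8033094a_d43_d4b_d41_d28_d43_d21v2_9 := p_wQ_26_wN_1_rb8033094a_d43_d4b_d41_d28_d43_d21v2_9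

theorem g__wQ_26_wN_1_rb8033094a_d43_d4b_d41_d28_d43_d21v2_7 : GoodKC AS k_wQ_26_wN_1_rb8033094a_d43_d4b_d41_d28_d43_d21v2_7 := p_wQ_26_wN_1_rb8033094a_d43_d4b_d41_d28_d43_d21v2_7 g__wQ_26_wN_1_rb8033094a_d43_d4b_d41_d28_d43_d21v2_8 g__wQ_26_wN_1_rb8033094a_d43_d4b_d41_d28_d43_d21v2_9

theorem g__wQ_26_wN_1_rb8033094a_d43_d4b_d41_d28_d43_d21v2_11 : GoodKC AS k_wQ_26_wN_1_rb8033094a_d43_d4b_d41_d28_d43_d21v2_11 := p_wQ_26_wN_1_rb8033094a_d43_d4b_d41_d28_d43_d21v2_11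

theorem g__wQ_26_wN_1_rb8033094a_d43_d4b_d41_d28_d43_d21v2_12 : GoodKC AS k_wQ_26_wN_1_rb8033094a_d43_d4b_d41_d28_d43_d21v2_12 := p_wQ_26_wN_1_rb8033094a_d43_d4b_d41_d28_d43_d21v2_12

theorem g__wQ_26_wN_1_rb8033094a_d43_d4b_d41_d28_d43_d21v2_14 : GoodKC AS k_wQ_26_wN_1_rb8033094a_d43_d4b_d41_d28_d43_d21v2_14 := p_wQ_26_wN_1_rb8033094a_d43_d4b_d41_d28_d43_d21v2_14

theorem g__wQ_26_wN_1_rb8033094a_d43_d4b_d41_d28_d43_d21v2_13 : GoodKC AS k_wQ_26_wN_1_rb8033094a_d43_d4b_d41_d28_d43_d21v2_13 := p_wQ_26_wN_1_rb8033094a_d43_d4b_d41_d28_d43_d21v2_13 g__wQ_26_wN_1_rb8033094a_d43_d4b_d41_d28_d43_d21v2_14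

theorem g__wQ_26_wN_1_rb8033094a_d43_d4b_d41_d28_d43_d21v2_10 : GoodKC AS k_wQ_26_wN_1_rb8033094a_d43_d4b_d41_d28_d43_d21v2_10 := p_wQ_26_wN_1_rb8033094a_d43_d4b_d41_d28_d43_d21v2_10 g__wQ_26_wN_1_rb8033094a_d43_d4b_d41_d28_d43_d21v2_11 g__wQ_26_wN_1_rb8033094a_d43_d4b_d41_d28_d43_d21v2_12 g__wQ_26_wN_1_rb8033094a_d43_d4b_d41_d28_d43_d21v2_13

theorem g__wQ_26_wN_1_rb8033094a_d43_d4b_d41_d28_d43_d21v2_6 : GoodKC AS k_wQ_26_wN_1_rb8033094a_d43_d4b_d41_d28_d43_d21v2_6 := p_wQ_26_wN_1_rb8033094a_d43_d4b_d41_d28_d43_d21v2_6 g__wQ_26_wN_1_rb8033094a_d43_d4b_d41_d28_d43_d21v2_7 g__wQ_26_wN_1_rb8033094a_d43_d4b_d41_d28_d43_d21v2_10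

theorem g__wQ_26_wN_1_rb8033094a_d43_d4b_d41_d28_d43_d21v2_5 : GoodKC AS k_wQ_26_wN_1_rb8033094a_d43_d4b_d41_d28_d43_d21v2_5 := p_wQ_26_wN_1_rb8033094a_d43_d4b_d41_d28_d43_d21v2_5 g__wQ_26_wN_1_rb8033094a_d43_d4b_d41_d28_d43_d21v2_6

theorem g_wQ_26_wN_1_rb8033094a_d43_d4b_d41_d28_d43_d21_d43_d00_d51_d1f : GoodKC AS c_wQ_26_wN_1_rb8033094a_d43_d4b_d41_d28_d43_d21_d43_d00_d51_d1f := p_wQ_26_wN_1_rb8033094a_d43_d4b_d41_d28_d43_d21_d43_d00_d51_d1f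

theorem g_wQ_26_wN_1_rb8033094a_d43_d4b_d41_d28_d43_d21_d43_d00_d51_d1c : GoodKC AS c_wQ_26_wN_1_rb8033094a_d43_d4b_d41_d28_d43_d21_d43_d00_d51_d1c := p_wQ_26_wN_1_rb8033094a_d43_d4b_d41_d28_d43_d21_d43_d00_d51_d1c

theorem g_wQ_26_wN_1_rb8033094a_d43_d4b_d41_d28_d43_d21_d43_d00_d51_d1a : GoodKC AS c_wQ_26_wN_1_rb8033094a_d43_d4b_d41_d28_d43_d21_d43_d00_d51_d1a := p_wQ_26_wN_1_rb8033094a_d43_d4b_d41_d28_d43_d21_d43_d00_d51_d1a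

theorem g_wQ_26_wN_1_rb8033094a_d43_d4b_d41_d28_d43_d21_d43_d00_d51_d18 : GoodKC AS c_wQ_26_wN_1_rb8033094a_d43_d4b_d41_d28_d43_d21_d43_d00_d51_d18 := p_wQ_26_wN_1_rb8033094a_d43_d4b_d41_d28_d43_d21_d43_d00_d51_d18

theorem g_wQ_26_wN_1_rb8033094a_d43_d4b_d41_d28_d43_d21_d43_d00_d51_d15 : GoodKC AS c_wQ_26_wN_1_rb8033094a_d43_d4b_d41_d28_d43_d21_d43_d00_d51_d15 := p_wQ_26_wN_1_rb8033094a_d43_d4b_d41_d28_d43_d21_d43_d00_d51_d15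

theorem g_wQ_26_wN_1_rb8033094a_d43_d4b_d41_d28_d43_d21_d43_d00_d51_d13 : GoodKC AS c_wQ_26_wN_1_rb8033094a_d43_d4b_d41_d28_d43_d21_d43_d00_d51_d13 := p_wQ_26_wN_1_rb8033094a_d43_d4b_d41_d28_d43_d21_d43_d00_d51_d13

theorem g_wQ_26_wN_1_rb8033094a_d43_d4b_d41_d28_d43_d21_d43_d00_d51_d12 : GoodKC AS c_wQ_26_wN_1_rb8033094a_d43_d4b_d41_d28_d43_d21_d43_d00_d51_d12 := p_wQ_26_wN_1_rb8033094a_d43_d4b_d41_d28_d43_d21_d43_d00_d51_d12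

theorem g__wQ_26_wN_1_rb8033094a_d43_d4b_d41_d28_d43_d21_d43_d00_d51_d0ev1_1 : GoodKC AS k_wQ_26_wN_1_rb8033094a_d43_d4b_d41_d28_d43_d21_d43_d00_d51_d0ev1_1 := p_wQ_26_wN_1_rb8033094a_d43_d4b_d41_d28_d43_d21_d43_d00_d51_d0ev1_1

theorem g__wQ_26_wN_1_rb8033094a_d43_d4b_d41_d28_d43_d21_d43_d00_d51_d0ev1_7 : GoodKC AS k_wQ_26_wN_1_rb8033094a_d43_d4b_d41_d28_d43_d21_d43_d00_d51_d0ev1_7 := p_wQ_26_wN_1_rb8033094a_d43_d4b_d41_d28_d43_d21_d43_d00_d51_d0ev1_7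

theorem g__wQ_26_wN_1_rb8033094a_d43_d4b_d41_d28_d43_d21_d43_d00_d51_d0ev1_10 : GoodKC AS k_wQ_26_wN_1_rb8033094a_d43_d4b_d41_d28_d43_d21_d43_d00_d51_d0ev1_10 := p_wQ_26_wN_1_rb8033094a_d43_d4b_d41_d28_d43_d21_d43_d00_d51_d0ev1_10

theorem g__wQ_26_wN_1_rb8033094a_d43_d4b_d41_d28_d43_d21_d43_d00_d51_d0ev1_11 : GoodKC AS k_wQ_26_wN_1_rb8033094a_d43_d4b_d41_d28_d43_d21_d43_d00_d51_d0ev1_11 := p_wQ_26_wN_1_rb8033094a_d43_d4b_d41_d28_d43_d21_d43_d00_d51_d0ev1_11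

theorem g__wQ_26_wN_1_rb8033094a_d43_d4b_d41_d28_d43_d21_d43_d00_d51_d0ev1_9 : GoodKC AS k_wQ_26_wN_1_rb8033094a_d43_d4b_d41_d28_d43_d21_d43_d00_d51_d0ev1_9 := p_wQ_26_wN_1_rb8033094a_d43_d4b_d41_d28_d43_d21_d43_d00_d51_d0ev1_9 g__wQ_26_wN_1_rb8033094a_d43_d4b_d41_d28_d43_d21_d43_d00_d51_d0ev1_10 g__wQ_26_wN_1_rb8033094a_d43_d4b_d41_d28_d43_d21_d43_d00_d51_d0ev1_11

theorem g__wQ_26_wN_1_rb8033094a_d43_d4b_d41_d28_d43_d21_d43_d00_d51_d0ev1_8 : GoodKC AS k_wQ_26_wN_1_rb8033094a_d43_d4b_d41_d28_d43_d21_d43_d00_d51_d0ev1_8 := p_wQ_26_wN_1_rb8033094a_d43_d4b_d41_d28_d43_d21_d43_d00_d51_d0ev1_8 g__wQ_26_wN_1_rb8033094a_d43_d4b_d41_d28_d43_d21_d43_d00_d51_d0ev1_9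

theorem g__wQ_26_wN_1_rb8033094a_d43_d4b_d41_d28_d43_d21_d43_d00_d51_d0ev1_6 : GoodKC AS k_wQ_26_wN_1_rb8033094a_d43_d4b_d41_d28_d43_d21_d43_d00_d51_d0ev1_6 := p_wQ_26_wN_1_rb8033094a_d43_d4b_d41_d28_d43_d21_d43_d00_d51_d0ev1_6 g__wQ_26_wN_1_rb8033094a_d43_d4b_d41_d28_d43_d21_d43_d00_d51_d0ev1_7 g__wQ_26_wN_1_rb8033094a_d43_d4b_d41_d28_d43_d21_d43_d00_d51_d0ev1_8

theorem g__wQ_26_wN_1_rb8033094a_d43_d4b_d41_d28_d43_d21_d43_d00_d51_d0ev1_5 : GoodKC AS k_wQ_26_wN_1_rb8033094a_d43_d4b_d41_d28_d43_d21_d43_d00_d51_d0ev1_5 := p_wQ_26_wN_1_rb8033094a_d43_d4b_d41_d28_d43_d21_d43_d00_d51_d0ev1_5 g__wQ_26_wN_1_rb8033094a_d43_d4b_d41_d28_d43_d21_d43_d00_d51_d0ev1_6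

theorem g__wQ_26_wN_1_rb8033094a_d43_d4b_d41_d28_d43_d21_d43_d00_d51_d0ev1_13 : GoodKC AS k_wQ_26_wN_1_rb8033094a_d43_d4b_d41_d28_d43_d21_d43_d00_d51_d0ev1_13 := p_wQ_26_wN_1_rb8033094a_d43_d4b_d41_d28_d43_d21_d43_d00_d51_d0ev1_13

theorem g__wQ_26_wN_1_rb8033094a_d43_d4b_d41_d28_d43_d21_d43_d00_d51_d0ev1_14 : GoodKC AS k_wQ_26_wN_1_rb8033094a_d43_d4b_d41_d28_d43_d21_d43_d00_d51_d0ev1_14 := p_wQ_26_wN_1_rb8033094a_d43_d4b_d41_d28_d43_d21_d43_d00_d51_d0ev1_14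

theorem g__wQ_26_wN_1_rb8033094a_d43_d4b_d41_d28_d43_d21_d43_d00_d51_d0ev1_12 : GoodKC AS k_wQ_26_wN_1_rb8033094a_d43_d4b_d41_d28_d43_d21_d43_d00_d51_d0ev1_12 := p_wQ_26_wN_1_rb8033094a_d43_d4b_d41_d28_d43_d21_d43_d00_d51_d0ev1_12 g__wQ_26_wN_1_rb8033094a_d43_d4b_d41_d28_d43_d21_d43_d00_d51_d0ev1_13 g__wQ_26_wN_1_rb8033094a_d43_d4b_d41_d28_d43_d21_d43_d00_d51_d0ev1_14

theorem g__wQ_26_wN_1_rb8033094a_d43_d4b_d41_d28_d43_d21_d43_d00_d51_d0ev1_19 : GoodKC AS k_wQ_26_wN_1_rb8033094a_d43_d4b_d41_d28_d43_d21_d43_d00_d51_d0ev1_19 := p_wQ_26_wN_1_rb8033094a_d43_d4b_d41_d28_d43_d21_d43_d00_d51_d0ev1_19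

theorem g__wQ_26_wN_1_rb8033094a_d43_d4b_d41_d28_d43_d21_d43_d00_d51_d0ev1_18 : GoodKC AS k_wQ_26_wN_1_rb8033094a_d43_d4b_d41_d28_d43_d21_d43_d00_d51_d0ev1_18 := p_wQ_26_wN_1_rb8033094a_d43_d4b_d41_d28_d43_d21_d43_d00_d51_d0ev1_18 g__wQ_26_wN_1_rb8033094a_d43_d4b_d41_d28_d43_d21_d43_d00_d51_d0ev1_19

theorem g__wQ_26_wN_1_rb8033094a_d43_d4b_d41_d28_d43_d21_d43_d00_d51_d0ev1_17 : GoodKC AS k_wQ_26_wN_1_rb8033094a_d43_d4b_d41_d28_d43_d21_d43_d00_d51_d0ev1_17 := p_wQ_26_wN_1_rb8033094a_d43_d4b_d41_d28_d43_d21_d43_d00_d51_d0ev1_17 g__wQ_26_wN_1_rb8033094a_d43_d4b_d41_d28_d43_d21_d43_d00_d51_d0ev1_18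

theorem g__wQ_26_wN_1_rb8033094a_d43_d4b_d41_d28_d43_d21_d43_d00_d51_d0ev1_16 : GoodKC AS k_wQ_26_wN_1_rb8033094a_d43_d4b_d41_d28_d43_d21_d43_d00_d51_d0ev1_16 := p_wQ_26_wN_1_rb8033094a_d43_d4b_d41_d28_d43_d21_d43_d00_d51_d0ev1_16 g__wQ_26_wN_1_rb8033094a_d43_d4b_d41_d28_d43_d21_d43_d00_d51_d0ev1_17

theorem g__wQ_26_wN_1_rb8033094a_d43_d4b_d41_d28_d43_d21_d43_d00_d51_d0ev1_21 : GoodKC AS k_wQ_26_wN_1_rb8033094a_d43_d4b_d41_d28_d43_d21_d43_d00_d51_d0ev1_21 := p_wQ_26_wN_1_rb8033094a_d43_d4b_d41_d28_d43_d21_d43_d00_d51_d0ev1_21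

theorem g__wQ_26_wN_1_rb8033094a_d43_d4b_d41_d28_d43_d21_d43_d00_d51_d0ev1_22 : GoodKC AS k_wQ_26_wN_1_rb8033094a_d43_d4b_d41_d28_d43_d21_d43_d00_d51_d0ev1_22 := p_wQ_26_wN_1_rb8033094a_d43_d4b_d41_d28_d43_d21_d43_d00_d51_d0ev1_22

theorem g__wQ_26_wN_1_rb8033094a_d43_d4b_d41_d28_d43_d21_d43_d00_d51_d0ev1_20 : GoodKC AS k_wQ_26_wN_1_rb8033094a_d43_d4b_d41_d28_d43_d21_d43_d00_d51_d0ev1_20 := p_wQ_26_wN_1_rb8033094a_d43_d4b_d41_d28_d43_d21_d43_d00_d51_d0ev1_20 g__wQ_26_wN_1_rb8033094a_d43_d4b_d41_d28_d43_d21_d43_d00_d51_d0ev1_21 g__wQ_26_wN_1_rb8033094a_d43_d4b_d41_d28_d43_d21_d43_d00_d51_d0ev1_22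

theorem g__wQ_26_wN_1_rb8033094a_d43_d4b_d41_d28_d43_d21_d43_d00_d51_d0ev1_15 : GoodKC AS k_wQ_26_wN_1_rb8033094a_d43_d4b_d41_d28_d43_d21_d43_d00_d51_d0ev1_15 := p_wQ_26_wN_1_rb8033094a_d43_d4b_d41_d28_d43_d21_d43_d00_d51_d0ev1_15 g__wQ_26_wN_1_rb8033094a_d43_d4b_d41_d28_d43_d21_d43_d00_d51_d0ev1_16 g__wQ_26_wN_1_rb8033094a_d43_d4b_d41_d28_d43_d21_d43_d00_d51_d0ev1_20

theorem g__wQ_26_wN_1_rb8033094a_d43_d4b_d41_d28_d43_d21_d43_d00_d51_d0ev1_4 : GoodKC AS k_wQ_26_wN_1_rb8033094a_d43_d4b_d41_d28_d43_d21_d43_d00_d51_d0ev1_4 := p_wQ_26_wN_1_rb8033094a_d43_d4b_d41_d28_d43_d21_d43_d00_d51_d0ev1_4 g__wQ_26_wN_1_rb8033094a_d43_d4b_d41_d28_d43_d21_d43_d00_d51_d0ev1_5 g__wQ_26_wN_1_rb8033094a_d43_d4b_d41_d28_d43_d21_d43_d00_d51_d0ev1_12 g__wQ_26_wN_1_rb8033094a_d43_d4b_d41_d28_d43_d21_d43_d00_d51_d0ev1_15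

theorem g__wQ_26_wN_1_rb8033094a_d43_d4b_d41_d28_d43_d21_d43_d00_d51_d0ev1_3 : GoodKC AS k_wQ_26_wN_1_rb8033094a_d43_d4b_d41_d28_d43_d21_d43_d00_d51_d0ev1_3 := p_wQ_26_wN_1_rb8033094a_d43_d4b_d41_d28_d43_d21_d43_d00_d51_d0ev1_3 g__wQ_26_wN_1_rb8033094a_d43_d4b_d41_d28_d43_d21_d43_d00_d51_d0ev1_4

theorem g__wQ_26_wN_1_rb8033094a_d43_d4b_d41_d28_d43_d21_d43_d00_d51_d0ev1_2 : GoodKC AS k_wQ_26_wN_1_rb8033094a_d43_d4b_d41_d28_d43_d21_d43_d00_d51_d0ev1_2 := p_wQ_26_wN_1_rb8033094a_d43_d4b_d41_d28_d43_d21_d43_d00_d51_d0ev1_2 g__wQ_26_wN_1_rb8033094a_d43_d4b_d41_d28_d43_d21_d43_d00_d51_d0ev1_3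

theorem g__wQ_26_wN_1_rb8033094a_d43_d4b_d41_d28_d43_d21_d43_d00_d51_d0ev1_0 : GoodKC AS k_wQ_26_wN_1_rb8033094a_d43_d4b_d41_d28_d43_d21_d43_d00_d51_d0ev1_0 := p_wQ_26_wN_1_rb8033094a_d43_d4b_d41_d28_d43_d21_d43_d00_d51_d0ev1_0 g__wQ_26_wN_1_rb8033094a_d43_d4b_d41_d28_d43_d21_d43_d00_d51_d0ev1_1 g__wQ_26_wN_1_rb8033094a_d43_d4b_d41_d28_d43_d21_d43_d00_d51_d0ev1_2

theorem g_wQ_26_wN_1_rb8033094a_d43_d4b_d41_d28_d43_d21_d43_d00_d51_d0e : GoodKC AS c_wQ_26_wN_1_rb8033094a_d43_d4b_d41_d28_d43_d21_d43_d00_d51_d0e := p_wQ_26_wN_1_rb8033094a_d43_d4b_d41_d28_d43_d21_d43_d00_d51_d0ev1 g__wQ_26_wN_1_rb8033094a_d43_d4b_d41_d28_d43_d21_d43_d00_d51_d0ev1_0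

theorem g_wQ_26_wN_1_rb8033094a_d43_d4b_d41_d28_d43_d21_d43_d00_d51_d0d : GoodKC AS c_wQ_26_wN_1_rb8033094a_d43_d4b_d41_d28_d43_d21_d43_d00_d51_d0d := p_wQ_26_wN_1_rb8033094a_d43_d4b_d41_d28_d43_d21_d43_d00_d51_d0d

theorem g_wQ_26_wN_1_rb8033094a_d43_d4b_d41_d28_d43_d21_d43_d00_d51_d0c : GoodKC AS c_wQ_26_wN_1_rb8033094a_d43_d4b_d41_d28_d43_d21_d43_d00_d51_d0c := p_wQ_26_wN_1_rb8033094a_d43_d4b_d41_d28_d43_d21_d43_d00_d51_d0c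

theorem g_wQ_26_wN_1_rb8033094a_d43_d4b_d41_d28_d43_d21_d43_d00_d51_d0b : GoodKC AS c_wQ_26_wN_1_rb8033094a_d43_d4b_d41_d28_d43_d21_d43_d00_d51_d0b := p_wQ_26_wN_1_rb8033094a_d43_d4b_d41_d28_d43_d21_d43_d00_d51_d0b

theorem g_wQ_26_wN_1_rb8033094a_d43_d4b_d41_d28_d43_d21_d43_d00_d51_d0a : GoodKC AS c_wQ_26_wN_1_rb8033094a_d43_d4b_d41_d28_d43_d21_d43_d00_d51_d0a := p_wQ_26_wN_1_rb8033094a_d43_d4b_d41_d28_d43_d21_d43_d00_d51_d0a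

theorem g_wQ_26_wN_1_rb8033094a_d43_d4b_d41_d28_d43_d21_d43_d00_d51_d00_d51_d0f : GoodKC AS c_wQ_26_wN_1_rb8033094a_d43_d4b_d41_d28_d43_d21_d43_d00_d51_d00_d51_d0f := p_wQ_26_wN_1_rb8033094a_d43_d4b_d41_d28_d43_d21_d43_d00_d51_d00_d51_d0f

theorem g_wQ_26_wN_1_rb8033094a_d43_d4b_d41_d28_d43_d21_d43_d00_d51_d00_d51_d0e : GoodKC AS c_wQ_26_wN_1_rb8033094a_d43_d4b_d41_d28_d43_d21_d43_d00_d51_d00_d51_d0e := p_wQ_26_wN_1_rb8033094a_d43_d4b_d41_d28_d43_d21_d43_d00_d51_d00_d51_d0e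

theorem g_wQ_26_wN_1_rb8033094a_d43_d4b_d41_d28_d43_d21_d43_d00_d51_d00_d51_d0d : GoodKC AS c_wQ_26_wN_1_rb8033094a_d43_d4b_d41_d28_d43_d21_d43_d00_d51_d00_d51_d0d := p_wQ_26_wN_1_rb8033094a_d43_d4b_d41_d28_d43_d21_d43_d00_d51_d00_d51_d0d

theorem g_wQ_26_wN_1_rb8033094a_d43_d4b_d41_d28_d43_d21_d43_d00_d51_d00_d51_d0b : GoodKC AS c_wQ_26_wN_1_rb8033094a_d43_d4b_d41_d28_d43_d21_d43_d00_d51_d00_d51_d0b := p_wQ_26_wN_1_rb8033094a_d43_d4b_d41_d28_d43_d21_d43_d00_d51_d00_d51_d0b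

theorem g_wQ_26_wN_1_rb8033094a_d43_d4b_d41_d28_d43_d21_d43_d00_d51_d00_d51_d09 : GoodKC AS c_wQ_26_wN_1_rb8033094a_d43_d4b_d41_d28_d43_d21_d43_d00_d51_d00_d51_d09 := p_wQ_26_wN_1_rb8033094a_d43_d4b_d41_d28_d43_d21_d43_d00_d51_d00_d51_d09

theorem g_wQ_26_wN_1_rb8033094a_d43_d4b_d41_d28_d43_d21_d43_d00_d51_d00_d51_d08 : GoodKC AS c_wQ_26_wN_1_rb8033094a_d43_d4b_d41_d28_d43_d21_d43_d00_d51_d00_d51_d08 := p_wQ_26_wN_1_rb8033094a_d43_d4b_d41_d28_d43_d21_d43_d00_d51_d00_d51_d08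

theorem g_wQ_26_wN_1_rb8033094a_d43_d4b_d41_d28_d43_d21_d43_d00_d51_d00_d51_d06 : GoodKC AS c_wQ_26_wN_1_rb8033094a_d43_d4b_d41_d28_d43_d21_d43_d00_d51_d00_d51_d06 := p_wQ_26_wN_1_rb8033094a_d43_d4b_d41_d28_d43_d21_d43_d00_d51_d00_d51_d06

theorem g_wQ_26_wN_1_rb8033094a_d43_d4b_d41_d28_d43_d21_d43_d00_d51_d00_d51_d02 : GoodKC AS c_wQ_26_wN_1_rb8033094a_d43_d4b_d41_d28_d43_d21_d43_d00_d51_d00_d51_d02 := p_wQ_26_wN_1_rb8033094a_d43_d4b_d41_d28_d43_d21_d43_d00_d51_d00_d51_d02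

theorem g_wQ_26_wN_1_rb8033094a_d43_d4b_d41_d28_d43_d21_d43_d00_d51_d00_d51_d00_d51_d0b : GoodKC AS c_wQ_26_wN_1_rb8033094a_d43_d4b_d41_d28_d43_d21_d43_d00_d51_d00_d51_d00_d51_d0b := p_wQ_26_wN_1_rb8033094a_d43_d4b_d41_d28_d43_d21_d43_d00_d51_d00_d51_d00_d51_d0b

theorem g_wQ_26_wN_1_rb8033094a_d43_d4b_d41_d28_d43_d21_d43_d00_d51_d00_d51_d00_d51_d09 : GoodKC AS c_wQ_26_wN_1_rb8033094a_d43_d4b_d41_d28_d43_d21_d43_d00_d51_d00_d51_d00_d51_d09 := p_wQ_26_wN_1_rb8033094a_d43_d4b_d41_d28_d43_d21_d43_d00_d51_d00_d51_d00_d51_d09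

theorem g_wQ_26_wN_1_rb8033094a_d43_d4b_d41_d28_d43_d21_d43_d00_d51_d00_d51_d00_d51_d08 : GoodKC AS c_wQ_26_wN_1_rb8033094a_d43_d4b_d41_d28_d43_d21_d43_d00_d51_d00_d51_d00_d51_d08 := p_wQ_26_wN_1_rb8033094a_d43_d4b_d41_d28_d43_d21_d43_d00_d51_d00_d51_d00_d51_d08

theorem g__wQ_26_wN_1_rb8033094a_d43_d4b_d41_d28_d43_d21_d43_d00_d51_d00_d51_d00_d51_d06_3 : GoodKC AS k_wQ_26_wN_1_rb8033094a_d43_d4b_d41_d28_d43_d21_d43_d00_d51_d00_d51_d00_d51_d06_3 := p_wQ_26_wN_1_rb8033094a_d43_d4b_d41_d28_d43_d21_d43_d00_d51_d00_d51_d00_d51_d06_3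

theorem g__wQ_26_wN_1_rb8033094a_d43_d4b_d41_d28_d43_d21_d43_d00_d51_d00_d51_d00_d51_d06_2 : GoodKC AS k_wQ_26_wN_1_rb8033094a_d43_d4b_d41_d28_d43_d21_d43_d00_d51_d00_d51_d00_d51_d06_2 := p_wQ_26_wN_1_rb8033094a_d43_d4b_d41_d28_d43_d21_d43_d00_d51_d00_d51_d00_d51_d06_2 g__wQ_26_wN_1_rb8033094a_d43_d4b_d41_d28_d43_d21_d43_d00_d51_d00_d51_d00_d51_d06_3

theorem g__wQ_26_wN_1_rb8033094a_d43_d4b_d41_d28_d43_d21_d43_d00_d51_d00_d51_d00_d51_d06_1 : GoodKC AS k_wQ_26_wN_1_rb8033094a_d43_d4b_d41_d28_d43_d21_d43_d00_d51_d00_d51_d00_d51_d06_1 := p_wQ_26_wN_1_rb8033094a_d43_d4b_d41_d28_d43_d21_d43_d00_d51_d00_d51_d00_d51_d06_1 g__wQ_26_wN_1_rb8033094a_d43_d4b_d41_d28_d43_d21_d43_d00_d51_d00_d51_d00_d51_d06_2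

theorem g__wQ_26_wN_1_rb8033094a_d43_d4b_d41_d28_d43_d21_d43_d00_d51_d00_d51_d00_d51_d06_0 : GoodKC AS k_wQ_26_wN_1_rb8033094a_d43_d4b_d41_d28_d43_d21_d43_d00_d51_d00_d51_d00_d51_d06_0 := p_wQ_26_wN_1_rb8033094a_d43_d4b_d41_d28_d43_d21_d43_d00_d51_d00_d51_d00_d51_d06_0 g__wQ_26_wN_1_rb8033094a_d43_d4b_d41_d28_d43_d21_d43_d00_d51_d00_d51_d00_d51_d06_1

theorem g_wQ_26_wN_1_rb8033094a_d43_d4b_d41_d28_d43_d21_d43_d00_d51_d00_d51_d00_d51_d06 : GoodKC AS c_wQ_26_wN_1_rb8033094a_d43_d4b_d41_d28_d43_d21_d43_d00_d51_d00_d51_d00_d51_d06 := p_wQ_26_wN_1_rb8033094a_d43_d4b_d41_d28_d43_d21_d43_d00_d51_d00_d51_d00_d51_d06 g__wQ_26_wN_1_rb8033094a_d43_d4b_d41_d28_d43_d21_d43_d00_d51_d00_d51_d00_d51_d06_0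

theorem g_wQ_26_wN_1_rb8033094a_d43_d4b_d41_d28_d43_d21_d43_d00_d51_d00_d51_d00_d51_d03 : GoodKC AS c_wQ_26_wN_1_rb8033094a_d43_d4b_d41_d28_d43_d21_d43_d00_d51_d00_d51_d00_d51_d03 := p_wQ_26_wN_1_rb8033094a_d43_d4b_d41_d28_d43_d21_d43_d00_d51_d00_d51_d00_d51_d03

theorem g_wQ_26_wN_1_rb8033094a_d43_d4b_d41_d28_d43_d21_d43_d00_d51_d00_d51_d00_d51_d01 : GoodKC AS c_wQ_26_wN_1_rb8033094a_d43_d4b_d41_d28_d43_d21_d43_d00_d51_d00_d51_d00_d51_d01 := p_wQ_26_wN_1_rb8033094a_d43_d4b_d41_d28_d43_d21_d43_d00_d51_d00_d51_d00_d51_d01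

theorem g_wQ_26_wN_1_rb8033094a_d43_d4b_d41_d28_d43_d21_d43_d00_d51_d00_d51_d00_d51_d00_d51_d04 : GoodKC AS c_wQ_26_wN_1_rb8033094a_d43_d4b_d41_d28_d43_d21_d43_d00_d51_d00_d51_d00_d51_d00_d51_d04 := p_wQ_26_wN_1_rb8033094a_d43_d4b_d41_d28_d43_d21_d43_d00_d51_d00_d51_d00_d51_d00_d51_d04

theorem g_wQ_26_wN_1_rb8033094a_d43_d4b_d41_d28_d43_d21_d43_d00_d51_d00_d51_d00_d51_d00_d51_d03 : GoodKC AS c_wQ_26_wN_1_rb8033094a_d43_d4b_d41_d28_d43_d21_d43_d00_d51_d00_d51_d00_d51_d00_d51_d03 := p_wQ_26_wN_1_rb8033094a_d43_d4b_d41_d28_d43_d21_d43_d00_d51_d00_d51_d00_d51_d00_d51_d03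

theorem g_wQ_26_wN_1_rb8033094a_d43_d4b_d41_d28_d43_d21_d43_d00_d51_d00_d51_d00_d51_d00_d51_d00_d51_d01 : GoodKC AS c_wQ_26_wN_1_rb8033094a_d43_d4b_d41_d28_d43_d21_d43_d00_d51_d00_d51_d00_d51_d00_d51_d00_d51_d01 := p_wQ_26_wN_1_rb8033094a_d43_d4b_d41_d28_d43_d21_d43_d00_d51_d00_d51_d00_d51_d00_d51_d00_d51_d01

theorem g_wQ_26_wN_1_rb8033094a_d43_d4b_d41_d28_d43_d21_d43_d00_d51_d00_d51_d00_d51_d00_d51_d00_d51_d00 : GoodKC AS c_wQ_26_wN_1_rb8033094a_d43_d4b_d41_d28_d43_d21_d43_d00_d51_d00_d51_d00_d51_d00_d51_d00_d51_d00 := p_wQ_26_wN_1_rb8033094a_d43_d4b_d41_d28_d43_d21_d43_d00_d51_d00_d51_d00_d51_d00_d51_d00_d51_d00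

theorem g_wQ_26_wN_1_rb8033094a_d43_d4b_d41_d28_d43_d21_d43_d00_d51_d00_d51_d00_d51_d00_d51_d00_d51_d02 : GoodKC AS c_wQ_26_wN_1_rb8033094a_d43_d4b_d41_d28_d43_d21_d43_d00_d51_d00_d51_d00_d51_d00_d51_d00_d51_d02 := p_wQ_26_wN_1_rb8033094a_d43_d4b_d41_d28_d43_d21_d43_d00_d51_d00_d51_d00_d51_d00_d51_d00_d51_d02

theorem g_wQ_26_wN_1_rb8033094a_d43_d4b_d41_d28_d43_d21_d43_d00_d51_d00_d51_d00_d51_d00_d51_d00_d51_d03 : GoodKC AS c_wQ_26_wN_1_rb8033094a_d43_d4b_d41_d28_d43_d21_d43_d00_d51_d00_d51_d00_d51_d00_d51_d00_d51_d03 := p_wQ_26_wN_1_rb8033094a_d43_d4b_d41_d28_d43_d21_d43_d00_d51_d00_d51_d00_d51_d00_d51_d00_d51_d03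

theorem g_wQ_26_wN_1_rb8033094a_d43_d4b_d41_d28_d43_d21_d43_d00_d51_d00_d51_d00_d51_d00_d51_d00_d51_d04 : GoodKC AS c_wQ_26_wN_1_rb8033094a_d43_d4b_d41_d28_d43_d21_d43_d00_d51_d00_d51_d00_d51_d00_d51_d00_d51_d04 := p_wQ_26_wN_1_rb8033094a_d43_d4b_d41_d28_d43_d21_d43_d00_d51_d00_d51_d00_d51_d00_d51_d00_d51_d04

theorem g_wQ_26_wN_1_rb8033094a_d43_d4b_d41_d28_d43_d21_d43_d00_d51_d00_d51_d00_d51_d00_d51_d00_d51_d05 : GoodKC AS c_wQ_26_wN_1_rb8033094a_d43_d4b_d41_d28_d43_d21_d43_d00_d51_d00_d51_d00_d51_d00_d51_d00_d51_d05 := p_wQ_26_wN_1_rb8033094a_d43_d4b_d41_d28_d43_d21_d43_d00_d51_d00_d51_d00_d51_d00_d51_d00_d51_d05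

theorem g_wQ_26_wN_1_rb8033094a_d43_d4b_d41_d28_d43_d21_d43_d00_d51_d00_d51_d00_d51_d00_d51_d00_d51_d06 : GoodKC AS c_wQ_26_wN_1_rb8033094a_d43_d4b_d41_d28_d43_d21_d43_d00_d51_d00_d51_d00_d51_d00_d51_d00_d51_d06 := p_wQ_26_wN_1_rb8033094a_d43_d4b_d41_d28_d43_d21_d43_d00_d51_d00_d51_d00_d51_d00_d51_d00_d51_d06

theorem g_wQ_26_wN_1_rb8033094a_d43_d4b_d41_d28_d43_d21_d43_d00_d51_d00_d51_d00_d51_d00_d51_d00 : GoodKC AS c_wQ_26_wN_1_rb8033094a_d43_d4b_d41_d28_d43_d21_d43_d00_d51_d00_d51_d00_d51_d00_d51_d00 := p_wQ_26_wN_1_rb8033094a_d43_d4b_d41_d28_d43_d21_d43_d00_d51_d00_d51_d00_d51_d00_d51_d00 g_wQ_26_wN_1_rb8033094a_d43_d4b_d41_d28_d43_d21_d43_d00_d51_d00_d51_d00_d51_d00_d51_d00_d51_d01 g_wQ_26_wN_1_rb8033094a_d43_d4b_d41_d28_d43_d21_d43_d00_d51_d00_d51_d00_d51_d00_d51_d00_d51_d00 g_wQ_26_wN_1_rb8033094a_d43_d4b_d41_d28_d43_d21_d43_d00_d51_d00_d51_d00_d51_d00_d51_d00_d51_d02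 g_wQ_26_wN_1_rb8033094a_d43_d4b_d41_d28_d43_d21_d43_d00_d51_d00_d51_d00_d51_d00_d51_d00_d51_d03 g_wQ_26_wN_1_rb8033094a_d43_d4b_d41_d28_d43_d21_d43_d00_d51_d00_d51_d00_d51_d00_d51_d00_d51_d04 g_wQ_26_wN_1_rb8033094a_d43_d4b_d41_d28_d43_d21_d43_d00_d51_d00_d51_d00_d51_d00_d51_d00_d51_d05 g_wQ_26_wN_1_rb8033094a_d43_d4b_d41_d28_d43_d21_d43_d00_d51_d00_d51_d00_d51_d00_d51_d00_d51_d06

theorem g_wQ_26_wN_1_rb8033094a_d43_d4b_d41_d28_d43_d21_d43_d00_d51_d00_d51_d00_d51_d00_d51_d01 : GoodKC AS c_wQ_26_wN_1_rb8033094a_d43_d4b_d41_d28_d43_d21_d43_d00_d51_d00_d51_d00_d51_d00_d51_d01 := p_wQ_26_wN_1_rb8033094a_d43_d4b_d41_d28_d43_d21_d43_d00_d51_d00_d51_d00_d51_d00_d51_d01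

theorem g__wQ_26_wN_1_rb8033094a_d43_d4b_d41_d28_d43_d21_d43_d00_d51_d00_d51_d00_d51_d00_d51_d02v1_2 : GoodKC AS k_wQ_26_wN_1_rb8033094a_d43_d4b_d41_d28_d43_d21_d43_d00_d51_d00_d51_d00_d51_d00_d51_d02v1_2 := p_wQ_26_wN_1_rb8033094a_d43_d4b_d41_d28_d43_d21_d43_d00_d51_d00_d51_d00_d51_d00_d51_d02v1_2

theorem g__wQ_26_wN_1_rb8033094a_d43_d4b_d41_d28_d43_d21_d43_d00_d51_d00_d51_d00_d51_d00_d51_d02v1_1 : GoodKC AS k_wQ_26_wN_1_rb8033094a_d43_d4b_d41_d28_d43_d21_d43_d00_d51_d00_d51_d00_d51_d00_d51_d02v1_1 := p_wQ_26_wN_1_rb8033094a_d43_d4b_d41_d28_d43_d21_d43_d00_d51_d00_d51_d00_d51_d00_d51_d02v1_1 g__wQ_26_wN_1_rb8033094a_d43_d4b_d41_d28_d43_d21_d43_d00_d51_d00_d51_d00_d51_d00_d51_d02v1_2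

theorem g__wQ_26_wN_1_rb8033094a_d43_d4b_d41_d28_d43_d21_d43_d00_d51_d00_d51_d00_d51_d00_d51_d02v1_0 : GoodKC AS k_wQ_26_wN_1_rb8033094a_d43_d4b_d41_d28_d43_d21_d43_d00_d51_d00_d51_d00_d51_d00_d51_d02v1_0 := p_wQ_26_wN_1_rb8033094a_d43_d4b_d41_d28_d43_d21_d43_d00_d51_d00_d51_d00_d51_d00_d51_d02v1_0 g__wQ_26_wN_1_rb8033094a_d43_d4b_d41_d28_d43_d21_d43_d00_d51_d00_d51_d00_d51_d00_d51_d02v1_1

theorem g_wQ_26_wN_1_rb8033094a_d43_d4b_d41_d28_d43_d21_d43_d00_d51_d00_d51_d00_d51_d00_d51_d02 : GoodKC AS c_wQ_26_wN_1_rb8033094a_d43_d4b_d41_d28_d43_d21_d43_d00_d51_d00_d51_d00_d51_d00_d51_d02 := p_wQ_26_wN_1_rb8033094a_d43_d4b_d41_d28_d43_d21_d43_d00_d51_d00_d51_d00_d51_d00_d51_d02v1 g__wQ_26_wN_1_rb8033094a_d43_d4b_d41_d28_d43_d21_d43_d00_d51_d00_d51_d00_d51_d00_d51_d02v1_0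

theorem g__wQ_26_wN_1_rb8033094a_d43_d4b_d41_d28_d43_d21_d43_d00_d51_d00_d51_d00_d51_d00_d51_d05_0 : GoodKC AS k_wQ_26_wN_1_rb8033094a_d43_d4b_d41_d28_d43_d21_d43_d00_d51_d00_d51_d00_d51_d00_d51_d05_0 := p_wQ_26_wN_1_rb8033094a_d43_d4b_d41_d28_d43_d21_d43_d00_d51_d00_d51_d00_d51_d00_d51_d05_0

theorem g_wQ_26_wN_1_rb8033094a_d43_d4b_d41_d28_d43_d21_d43_d00_d51_d00_d51_d00_d51_d00_d51_d05 : GoodKC AS c_wQ_26_wN_1_rb8033094a_d43_d4b_d41_d28_d43_d21_d43_d00_d51_d00_d51_d00_d51_d00_d51_d05 := p_wQ_26_wN_1_rb8033094a_d43_d4b_d41_d28_d43_d21_d43_d00_d51_d00_d51_d00_d51_d00_d51_d05 g__wQ_26_wN_1_rb8033094a_d43_d4b_d41_d28_d43_d21_d43_d00_d51_d00_d51_d00_d51_d00_d51_d05_0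

theorem g_wQ_26_wN_1_rb8033094a_d43_d4b_d41_d28_d43_d21_d43_d00_d51_d00_d51_d00_d51_d00_d51_d06 : GoodKC AS c_wQ_26_wN_1_rb8033094a_d43_d4b_d41_d28_d43_d21_d43_d00_d51_d00_d51_d00_d51_d00_d51_d06 := p_wQ_26_wN_1_rb8033094a_d43_d4b_d41_d28_d43_d21_d43_d00_d51_d00_d51_d00_d51_d00_d51_d06

theorem g__wQ_26_wN_1_rb8033094a_d43_d4b_d41_d28_d43_d21_d43_d00_d51_d00_d51_d00_d51_d00_d51_d07v1_4 : GoodKC AS k_wQ_26_wN_1_rb8033094a_d43_d4b_d41_d28_d43_d21_d43_d00_d51_d00_d51_d00_d51_d00_d51_d07v1_4 := p_wQ_26_wN_1_rb8033094a_d43_d4b_d41_d28_d43_d21_d43_d00_d51_d00_d51_d00_d51_d00_d51_d07v1_4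

theorem g__wQ_26_wN_1_rb8033094a_d43_d4b_d41_d28_d43_d21_d43_d00_d51_d00_d51_d00_d51_d00_d51_d07v1_5 : GoodKC AS k_wQ_26_wN_1_rb8033094a_d43_d4b_d41_d28_d43_d21_d43_d00_d51_d00_d51_d00_d51_d00_d51_d07v1_5 := p_wQ_26_wN_1_rb8033094a_d43_d4b_d41_d28_d43_d21_d43_d00_d51_d00_d51_d00_d51_d00_d51_d07v1_5

theorem g__wQ_26_wN_1_rb8033094a_d43_d4b_d41_d28_d43_d21_d43_d00_d51_d00_d51_d00_d51_d00_d51_d07v1_3 : GoodKC AS k_wQ_26_wN_1_rb8033094a_d43_d4b_d41_d28_d43_d21_d43_d00_d51_d00_d51_d00_d51_d00_d51_d07v1_3 := p_wQ_26_wN_1_rb8033094a_d43_d4b_d41_d28_d43_d21_d43_d00_d51_d00_d51_d00_d51_d00_d51_d07v1_3 g__wQ_26_wN_1_rb8033094a_d43_d4b_d41_d28_d43_d21_d43_d00_d51_d00_d51_d00_d51_d00_d51_d07v1_4 g__wQ_26_wN_1_rb8033094a_d43_d4b_d41_d28_d43_d21_d43_d00_d51_d00_d51_d00_d51_d00_d51_d07v1_5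

theorem g__wQ_26_wN_1_rb8033094a_d43_d4b_d41_d28_d43_d21_d43_d00_d51_d00_d51_d00_d51_d00_d51_d07v1_2 : GoodKC AS k_wQ_26_wN_1_rb8033094a_d43_d4b_d41_d28_d43_d21_d43_d00_d51_d00_d51_d00_d51_d00_d51_d07v1_2 := p_wQ_26_wN_1_rb8033094a_d43_d4b_d41_d28_d43_d21_d43_d00_d51_d00_d51_d00_d51_d00_d51_d07v1_2 g__wQ_26_wN_1_rb8033094a_d43_d4b_d41_d28_d43_d21_d43_d00_d51_d00_d51_d00_d51_d00_d51_d07v1_3

theorem g__wQ_26_wN_1_rb8033094a_d43_d4b_d41_d28_d43_d21_d43_d00_d51_d00_d51_d00_d51_d00_d51_d07v1_1 : GoodKC AS k_wQ_26_wN_1_rb8033094a_d43_d4b_d41_d28_d43_d21_d43_d00_d51_d00_d51_d00_d51_d00_d51_d07v1_1 := p_wQ_26_wN_1_rb8033094a_d43_d4b_d41_d28_d43_d21_d43_d00_d51_d00_d51_d00_d51_d00_d51_d07v1_1 g__wQ_26_wN_1_rb8033094a_d43_d4b_d41_d28_d43_d21_d43_d00_d51_d00_d51_d00_d51_d00_d51_d07v1_2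

theorem g__wQ_26_wN_1_rb8033094a_d43_d4b_d41_d28_d43_d21_d43_d00_d51_d00_d51_d00_d51_d00_d51_d07v1_0 : GoodKC AS k_wQ_26_wN_1_rb8033094a_d43_d4b_d41_d28_d43_d21_d43_d00_d51_d00_d51_d00_d51_d00_d51_d07v1_0 := p_wQ_26_wN_1_rb8033094a_d43_d4b_d41_d28_d43_d21_d43_d00_d51_d00_d51_d00_d51_d00_d51_d07v1_0 g__wQ_26_wN_1_rb8033094a_d43_d4b_d41_d28_d43_d21_d43_d00_d51_d00_d51_d00_d51_d00_d51_d07v1_1

theorem g_wQ_26_wN_1_rb8033094a_d43_d4b_d41_d28_d43_d21_d43_d00_d51_d00_d51_d00_d51_d00_d51_d07 : GoodKC AS c_wQ_26_wN_1_rb8033094a_d43_d4b_d41_d28_d43_d21_d43_d00_d51_d00_d51_d00_d51_d00_d51_d07 := p_wQ_26_wN_1_rb8033094a_d43_d4b_d41_d28_d43_d21_d43_d00_d51_d00_d51_d00_d51_d00_d51_d07v1 g__wQ_26_wN_1_rb8033094a_d43_d4b_d41_d28_d43_d21_d43_d00_d51_d00_d51_d00_d51_d00_d51_d07v1_0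

theorem g_wQ_26_wN_1_rb8033094a_d43_d4b_d41_d28_d43_d21_d43_d00_d51_d00_d51_d00_d51_d00_d51_d08 : GoodKC AS c_wQ_26_wN_1_rb8033094a_d43_d4b_d41_d28_d43_d21_d43_d00_d51_d00_d51_d00_d51_d00_d51_d08 := p_wQ_26_wN_1_rb8033094a_d43_d4b_d41_d28_d43_d21_d43_d00_d51_d00_d51_d00_d51_d00_d51_d08

theorem g_wQ_26_wN_1_rb8033094a_d43_d4b_d41_d28_d43_d21_d43_d00_d51_d00_d51_d00_d51_d00 : GoodKC AS c_wQ_26_wN_1_rb8033094a_d43_d4b_d41_d28_d43_d21_d43_d00_d51_d00_d51_d00_d51_d00 := p_wQ_26_wN_1_rb8033094a_d43_d4b_d41_d28_d43_d21_d43_d00_d51_d00_d51_d00_d51_d00 g_wQ_26_wN_1_rb8033094a_d43_d4b_d41_d28_d43_d21_d43_d00_d51_d00_d51_d00_d51_d00_d51_d04 g_wQ_26_wN_1_rb8033094a_d43_d4b_d41_d28_d43_d21_d43_d00_d51_d00_d51_d00_d51_d00_d51_d03 g_wQ_26_wN_1_rb8033094a_d43_d4b_d41_d28_d43_d21_d43_d00_d51_d00_d51_d00_d51_d00_d51_d00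 g_wQ_26_wN_1_rb8033094a_d43_d4b_d41_d28_d43_d21_d43_d00_d51_d00_d51_d00_d51_d00_d51_d01 g_wQ_26_wN_1_rb8033094a_d43_d4b_d41_d28_d43_d21_d43_d00_d51_d00_d51_d00_d51_d00_d51_d02 g_wQ_26_wN_1_rb8033094a_d43_d4b_d41_d28_d43_d21_d43_d00_d51_d00_d51_d00_d51_d00_d51_d05 g_wQ_26_wN_1_rb8033094a_d43_d4b_d41_d28_d43_d21_d43_d00_d51_d00_d51_d00_d51_d00_d51_d06 g_wQ_26_wN_1_rb8033094a_d43_d4b_d41_d28_d43_d21_d43_d00_d51_d00_d51_d00_d51_d00_d51_d07 g_wQ_26_wN_1_rb8033094a_d43_d4b_d41_d28_d43_d21_d43_d00_d51_d00_d51_d00_d51_d00_d51_d08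

theorem g_wQ_26_wN_1_rb8033094a_d43_d4b_d41_d28_d43_d21_d43_d00_d51_d00_d51_d00_d51_d02 : GoodKC AS c_wQ_26_wN_1_rb8033094a_d43_d4b_d41_d28_d43_d21_d43_d00_d51_d00_d51_d00_d51_d02 := p_wQ_26_wN_1_rb8033094a_d43_d4b_d41_d28_d43_d21_d43_d00_d51_d00_d51_d00_d51_d02

theorem g_wQ_26_wN_1_rb8033094a_d43_d4b_d41_d28_d43_d21_d43_d00_d51_d00_d51_d00_d51_d04 : GoodKC AS c_wQ_26_wN_1_rb8033094a_d43_d4b_d41_d28_d43_d21_d43_d00_d51_d00_d51_d00_d51_d04 := p_wQ_26_wN_1_rb8033094a_d43_d4b_d41_d28_d43_d21_d43_d00_d51_d00_d51_d00_d51_d04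

theorem g_wQ_26_wN_1_rb8033094a_d43_d4b_d41_d28_d43_d21_d43_d00_d51_d00_d51_d00_d51_d05 : GoodKC AS c_wQ_26_wN_1_rb8033094a_d43_d4b_d41_d28_d43_d21_d43_d00_d51_d00_d51_d00_d51_d05 := p_wQ_26_wN_1_rb8033094a_d43_d4b_d41_d28_d43_d21_d43_d00_d51_d00_d51_d00_d51_d05

theorem g_wQ_26_wN_1_rb8033094a_d43_d4b_d41_d28_d43_d21_d43_d00_d51_d00_d51_d00_d51_d07 : GoodKC AS c_wQ_26_wN_1_rb8033094a_d43_d4b_d41_d28_d43_d21_d43_d00_d51_d00_d51_d00_d51_d07 := p_wQ_26_wN_1_rb8033094a_d43_d4b_d41_d28_d43_d21_d43_d00_d51_d00_d51_d00_d51_d07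

theorem g_wQ_26_wN_1_rb8033094a_d43_d4b_d41_d28_d43_d21_d43_d00_d51_d00_d51_d00_d51_d0a : GoodKC AS c_wQ_26_wN_1_rb8033094a_d43_d4b_d41_d28_d43_d21_d43_d00_d51_d00_d51_d00_d51_d0a := p_wQ_26_wN_1_rb8033094a_d43_d4b_d41_d28_d43_d21_d43_d00_d51_d00_d51_d00_d51_d0a

theorem g_wQ_26_wN_1_rb8033094a_d43_d4b_d41_d28_d43_d21_d43_d00_d51_d00_d51_d00 : GoodKC AS c_wQ_26_wN_1_rb8033094a_d43_d4b_d41_d28_d43_d21_d43_d00_d51_d00_d51_d00 := p_wQ_26_wN_1_rb8033094a_d43_d4b_d41_d28_d43_d21_d43_d00_d51_d00_d51_d00 g_wQ_26_wN_1_rb8033094a_d43_d4b_d41_d28_d43_d21_d43_d00_d51_d00_d51_d00_d51_d0b g_wQ_26_wN_1_rb8033094a_d43_d4b_d41_d28_d43_d21_d43_d00_d51_d00_d51_d00_d51_d09 g_wQ_26_wN_1_rb8033094a_d43_d4b_d41_d28_d43_d21_d43_d00_d51_d00_d51_d00_d51_d08 g_wQ_26_wN_1_rb8033094a_d43_d4b_d41_d28_d43_d21_d43_d00_d51_d00_d51_d00_d51_d06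 g_wQ_26_wN_1_rb8033094a_d43_d4b_d41_d28_d43_d21_d43_d00_d51_d00_d51_d00_d51_d03 g_wQ_26_wN_1_rb8033094a_d43_d4b_d41_d28_d43_d21_d43_d00_d51_d00_d51_d00_d51_d01 g_wQ_26_wN_1_rb8033094a_d43_d4b_d41_d28_d43_d21_d43_d00_d51_d00_d51_d00_d51_d00 g_wQ_26_wN_1_rb8033094a_d43_d4b_d41_d28_d43_d21_d43_d00_d51_d00_d51_d00_d51_d02 g_wQ_26_wN_1_rb8033094a_d43_d4b_d41_d28_d43_d21_d43_d00_d51_d00_d51_d00_d51_d04 g_wQ_26_wN_1_rb8033094a_d43_d4b_d41_d28_d43_d21_d43_d00_d51_d00_d51_d00_d51_d05 g_wQ_26_wN_1_rb8033094a_d43_d4b_d41_d28_d43_d21_d43_d00_d51_d00_d51_d00_d51_d07 g_wQ_26_wN_1_rb8033094a_d43_d4b_d41_d28_d43_d21_d43_d00_d51_d00_d51_d00_d51_d0a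

theorem g_wQ_26_wN_1_rb8033094a_d43_d4b_d41_d28_d43_d21_d43_d00_d51_d00_d51_d01 : GoodKC AS c_wQ_26_wN_1_rb8033094a_d43_d4b_d41_d28_d43_d21_d43_d00_d51_d00_d51_d01 := p_wQ_26_wN_1_rb8033094a_d43_d4b_d41_d28_d43_d21_d43_d00_d51_d00_d51_d01

theorem g_wQ_26_wN_1_rb8033094a_d43_d4b_d41_d28_d43_d21_d43_d00_d51_d00_d51_d03 : GoodKC AS c_wQ_26_wN_1_rb8033094a_d43_d4b_d41_d28_d43_d21_d43_d00_d51_d00_d51_d03 := p_wQ_26_wN_1_rb8033094a_d43_d4b_d41_d28_d43_d21_d43_d00_d51_d00_d51_d03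

theorem g_wQ_26_wN_1_rb8033094a_d43_d4b_d41_d28_d43_d21_d43_d00_d51_d00_d51_d04 : GoodKC AS c_wQ_26_wN_1_rb8033094a_d43_d4b_d41_d28_d43_d21_d43_d00_d51_d00_d51_d04 := p_wQ_26_wN_1_rb8033094a_d43_d4b_d41_d28_d43_d21_d43_d00_d51_d00_d51_d04

theorem g__wQ_26_wN_1_rb8033094a_d43_d4b_d41_d28_d43_d21_d43_d00_d51_d00_d51_d05_0 : GoodKC AS k_wQ_26_wN_1_rb8033094a_d43_d4b_d41_d28_d43_d21_d43_d00_d51_d00_d51_d05_0 := p_wQ_26_wN_1_rb8033094a_d43_d4b_d41_d28_d43_d21_d43_d00_d51_d00_d51_d05_0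

theorem g_wQ_26_wN_1_rb8033094a_d43_d4b_d41_d28_d43_d21_d43_d00_d51_d00_d51_d05 : GoodKC AS c_wQ_26_wN_1_rb8033094a_d43_d4b_d41_d28_d43_d21_d43_d00_d51_d00_d51_d05 := p_wQ_26_wN_1_rb8033094a_d43_d4b_d41_d28_d43_d21_d43_d00_d51_d00_d51_d05 g__wQ_26_wN_1_rb8033094a_d43_d4b_d41_d28_d43_d21_d43_d00_d51_d00_d51_d05_0

theorem g_wQ_26_wN_1_rb8033094a_d43_d4b_d41_d28_d43_d21_d43_d00_d51_d00_d51_d07 : GoodKC AS c_wQ_26_wN_1_rb8033094a_d43_d4b_d41_d28_d43_d21_d43_d00_d51_d00_d51_d07 := p_wQ_26_wN_1_rb8033094a_d43_d4b_d41_d28_d43_d21_d43_d00_d51_d00_d51_d07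

theorem g_wQ_26_wN_1_rb8033094a_d43_d4b_d41_d28_d43_d21_d43_d00_d51_d00_d51_d0a : GoodKC AS c_wQ_26_wN_1_rb8033094a_d43_d4b_d41_d28_d43_d21_d43_d00_d51_d00_d51_d0a := p_wQ_26_wN_1_rb8033094a_d43_d4b_d41_d28_d43_d21_d43_d00_d51_d00_d51_d0a

theorem g_wQ_26_wN_1_rb8033094a_d43_d4b_d41_d28_d43_d21_d43_d00_d51_d00_d51_d0c : GoodKC AS c_wQ_26_wN_1_rb8033094a_d43_d4b_d41_d28_d43_d21_d43_d00_d51_d00_d51_d0c := p_wQ_26_wN_1_rb8033094a_d43_d4b_d41_d28_d43_d21_d43_d00_d51_d00_d51_d0c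

theorem g_wQ_26_wN_1_rb8033094a_d43_d4b_d41_d28_d43_d21_d43_d00_d51_d00 : GoodKC AS c_wQ_26_wN_1_rb8033094a_d43_d4b_d41_d28_d43_d21_d43_d00_d51_d00 := p_wQ_26_wN_1_rb8033094a_d43_d4b_d41_d28_d43_d21_d43_d00_d51_d00 g_wQ_26_wN_1_rb8033094a_d43_d4b_d41_d28_d43_d21_d43_d00_d51_d00_d51_d0f g_wQ_26_wN_1_rb8033094a_d43_d4b_d41_d28_d43_d21_d43_d00_d51_d00_d51_d0e g_wQ_26_wN_1_rb8033094a_d43_d4b_d41_d28_d43_d21_d43_d00_d51_d00_d51_d0d g_wQ_26_wN_1_rb8033094a_d43_d4b_d41_d28_d43_d21_d43_d00_d51_d00_d51_d0b g_wQ_26_wN_1_rb8033094a_d43_d4b_d41_d28_d43_d21_d43_d00_d51_d00_d51_d09 g_wQ_26_wN_1_rb8033094a_d43_d4b_d41_d28_d43_d21_d43_d00_d51_d00_d51_d08 g_wQ_26_wN_1_rb8033094a_d43_d4b_d41_d28_d43_d21_d43_d00_d51_d00_d51_d06 g_wQ_26_wN_1_rb8033094a_d43_d4b_d41_d28_d43_d21_d43_d00_d51_d00_d51_d02 g_wQ_26_wN_1_rb8033094a_d43_d4b_d41_d28_d43_d21_d43_d00_d51_d00_d51_d00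 g_wQ_26_wN_1_rb8033094a_d43_d4b_d41_d28_d43_d21_d43_d00_d51_d00_d51_d01 g_wQ_26_wN_1_rb8033094a_d43_d4b_d41_d28_d43_d21_d43_d00_d51_d00_d51_d03 g_wQ_26_wN_1_rb8033094a_d43_d4b_d41_d28_d43_d21_d43_d00_d51_d00_d51_d04 g_wQ_26_wN_1_rb8033094a_d43_d4b_d41_d28_d43_d21_d43_d00_d51_d00_d51_d05 g_wQ_26_wN_1_rb8033094a_d43_d4b_d41_d28_d43_d21_d43_d00_d51_d00_d51_d07 g_wQ_26_wN_1_rb8033094a_d43_d4b_d41_d28_d43_d21_d43_d00_d51_d00_d51_d0a g_wQ_26_wN_1_rb8033094a_d43_d4b_d41_d28_d43_d21_d43_d00_d51_d00_d51_d0c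

theorem g_wQ_26_wN_1_rb8033094a_d43_d4b_d41_d28_d43_d21_d43_d00_d51_d09 : GoodKC AS c_wQ_26_wN_1_rb8033094a_d43_d4b_d41_d28_d43_d21_d43_d00_d51_d09 := p_wQ_26_wN_1_rb8033094a_d43_d4b_d41_d28_d43_d21_d43_d00_d51_d09

theorem g_wQ_26_wN_1_rb8033094a_d43_d4b_d41_d28_d43_d21_d43_d00_d51_d07 : GoodKC AS c_wQ_26_wN_1_rb8033094a_d43_d4b_d41_d28_d43_d21_d43_d00_d51_d07 := p_wQ_26_wN_1_rb8033094a_d43_d4b_d41_d28_d43_d21_d43_d00_d51_d07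

theorem g_wQ_26_wN_1_rb8033094a_d43_d4b_d41_d28_d43_d21_d43_d00_d51_d06 : GoodKC AS c_wQ_26_wN_1_rb8033094a_d43_d4b_d41_d28_d43_d21_d43_d00_d51_d06 := p_wQ_26_wN_1_rb8033094a_d43_d4b_d41_d28_d43_d21_d43_d00_d51_d06

theorem g_wQ_26_wN_1_rb8033094a_d43_d4b_d41_d28_d43_d21_d43_d00_d51_d05 : GoodKC AS c_wQ_26_wN_1_rb8033094a_d43_d4b_d41_d28_d43_d21_d43_d00_d51_d05 := p_wQ_26_wN_1_rb8033094a_d43_d4b_d41_d28_d43_d21_d43_d00_d51_d05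

theorem g_wQ_26_wN_1_rb8033094a_d43_d4b_d41_d28_d43_d21_d43_d00_d51_d04 : GoodKC AS c_wQ_26_wN_1_rb8033094a_d43_d4b_d41_d28_d43_d21_d43_d00_d51_d04 := p_wQ_26_wN_1_rb8033094a_d43_d4b_d41_d28_d43_d21_d43_d00_d51_d04

theorem g_wQ_26_wN_1_rb8033094a_d43_d4b_d41_d28_d43_d21_d43_d00_d51_d02 : GoodKC AS c_wQ_26_wN_1_rb8033094a_d43_d4b_d41_d28_d43_d21_d43_d00_d51_d02 := p_wQ_26_wN_1_rb8033094a_d43_d4b_d41_d28_d43_d21_d43_d00_d51_d02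

theorem g__wQ_26_wN_1_rb8033094a_d43_d4b_d41_d28_d43_d21_d43_d00_d51_d01v1_4 : GoodKC AS k_wQ_26_wN_1_rb8033094a_d43_d4b_d41_d28_d43_d21_d43_d00_d51_d01v1_4 := p_wQ_26_wN_1_rb8033094a_d43_d4b_d41_d28_d43_d21_d43_d00_d51_d01v1_4

theorem g__wQ_26_wN_1_rb8033094a_d43_d4b_d41_d28_d43_d21_d43_d00_d51_d01v1_5 : GoodKC AS k_wQ_26_wN_1_rb8033094a_d43_d4b_d41_d28_d43_d21_d43_d00_d51_d01v1_5 := p_wQ_26_wN_1_rb8033094a_d43_d4b_d41_d28_d43_d21_d43_d00_d51_d01v1_5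

theorem g__wQ_26_wN_1_rb8033094a_d43_d4b_d41_d28_d43_d21_d43_d00_d51_d01v1_3 : GoodKC AS k_wQ_26_wN_1_rb8033094a_d43_d4b_d41_d28_d43_d21_d43_d00_d51_d01v1_3 := p_wQ_26_wN_1_rb8033094a_d43_d4b_d41_d28_d43_d21_d43_d00_d51_d01v1_3 g__wQ_26_wN_1_rb8033094a_d43_d4b_d41_d28_d43_d21_d43_d00_d51_d01v1_4 g__wQ_26_wN_1_rb8033094a_d43_d4b_d41_d28_d43_d21_d43_d00_d51_d01v1_5

theorem g__wQ_26_wN_1_rb8033094a_d43_d4b_d41_d28_d43_d21_d43_d00_d51_d01v1_2 : GoodKC AS k_wQ_26_wN_1_rb8033094a_d43_d4b_d41_d28_d43_d21_d43_d00_d51_d01v1_2 := p_wQ_26_wN_1_rb8033094a_d43_d4b_d41_d28_d43_d21_d43_d00_d51_d01v1_2 g__wQ_26_wN_1_rb8033094a_d43_d4b_d41_d28_d43_d21_d43_d00_d51_d01v1_3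

theorem g__wQ_26_wN_1_rb8033094a_d43_d4b_d41_d28_d43_d21_d43_d00_d51_d01v1_1 : GoodKC AS k_wQ_26_wN_1_rb8033094a_d43_d4b_d41_d28_d43_d21_d43_d00_d51_d01v1_1 := p_wQ_26_wN_1_rb8033094a_d43_d4b_d41_d28_d43_d21_d43_d00_d51_d01v1_1 g__wQ_26_wN_1_rb8033094a_d43_d4b_d41_d28_d43_d21_d43_d00_d51_d01v1_2

theorem g__wQ_26_wN_1_rb8033094a_d43_d4b_d41_d28_d43_d21_d43_d00_d51_d01v1_0 : GoodKC AS k_wQ_26_wN_1_rb8033094a_d43_d4b_d41_d28_d43_d21_d43_d00_d51_d01v1_0 := p_wQ_26_wN_1_rb8033094a_d43_d4b_d41_d28_d43_d21_d43_d00_d51_d01v1_0 g__wQ_26_wN_1_rb8033094a_d43_d4b_d41_d28_d43_d21_d43_d00_d51_d01v1_1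

theorem g_wQ_26_wN_1_rb8033094a_d43_d4b_d41_d28_d43_d21_d43_d00_d51_d01 : GoodKC AS c_wQ_26_wN_1_rb8033094a_d43_d4b_d41_d28_d43_d21_d43_d00_d51_d01 := p_wQ_26_wN_1_rb8033094a_d43_d4b_d41_d28_d43_d21_d43_d00_d51_d01v1 g__wQ_26_wN_1_rb8033094a_d43_d4b_d41_d28_d43_d21_d43_d00_d51_d01v1_0

theorem g_wQ_26_wN_1_rb8033094a_d43_d4b_d41_d28_d43_d21_d43_d00_d51_d03 : GoodKC AS c_wQ_26_wN_1_rb8033094a_d43_d4b_d41_d28_d43_d21_d43_d00_d51_d03 := p_wQ_26_wN_1_rb8033094a_d43_d4b_d41_d28_d43_d21_d43_d00_d51_d03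

theorem g_wQ_26_wN_1_rb8033094a_d43_d4b_d41_d28_d43_d21_d43_d00_d51_d08 : GoodKC AS c_wQ_26_wN_1_rb8033094a_d43_d4b_d41_d28_d43_d21_d43_d00_d51_d08 := p_wQ_26_wN_1_rb8033094a_d43_d4b_d41_d28_d43_d21_d43_d00_d51_d08

theorem g_wQ_26_wN_1_rb8033094a_d43_d4b_d41_d28_d43_d21_d43_d00_d51_d0f : GoodKC AS c_wQ_26_wN_1_rb8033094a_d43_d4b_d41_d28_d43_d21_d43_d00_d51_d0f := p_wQ_26_wN_1_rb8033094a_d43_d4b_d41_d28_d43_d21_d43_d00_d51_d0f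

theorem g__wQ_26_wN_1_rb8033094a_d43_d4b_d41_d28_d43_d21_d43_d00_d51_d10_1 : GoodKC AS k_wQ_26_wN_1_rb8033094a_d43_d4b_d41_d28_d43_d21_d43_d00_d51_d10_1 := p_wQ_26_wN_1_rb8033094a_d43_d4b_d41_d28_d43_d21_d43_d00_d51_d10_1

theorem g__wQ_26_wN_1_rb8033094a_d43_d4b_d41_d28_d43_d21_d43_d00_d51_d10_2 : GoodKC AS k_wQ_26_wN_1_rb8033094a_d43_d4b_d41_d28_d43_d21_d43_d00_d51_d10_2 := p_wQ_26_wN_1_rb8033094a_d43_d4b_d41_d28_d43_d21_d43_d00_d51_d10_2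

theorem g__wQ_26_wN_1_rb8033094a_d43_d4b_d41_d28_d43_d21_d43_d00_d51_d10_0 : GoodKC AS k_wQ_26_wN_1_rb8033094a_d43_d4b_d41_d28_d43_d21_d43_d00_d51_d10_0 := p_wQ_26_wN_1_rb8033094a_d43_d4b_d41_d28_d43_d21_d43_d00_d51_d10_0 g__wQ_26_wN_1_rb8033094a_d43_d4b_d41_d28_d43_d21_d43_d00_d51_d10_1 g__wQ_26_wN_1_rb8033094a_d43_d4b_d41_d28_d43_d21_d43_d00_d51_d10_2

theorem g__wQ_26_wN_1_rb8033094a_d43_d4b_d41_d28_d43_d21_d43_d00_d51_d10_4 : GoodKC AS k_wQ_26_wN_1_rb8033094a_d43_d4b_d41_d28_d43_d21_d43_d00_d51_d10_4 := p_wQ_26_wN_1_rb8033094a_d43_d4b_d41_d28_d43_d21_d43_d00_d51_d10_4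

theorem g__wQ_26_wN_1_rb8033094a_d43_d4b_d41_d28_d43_d21_d43_d00_d51_d10_3 : GoodKC AS k_wQ_26_wN_1_rb8033094a_d43_d4b_d41_d28_d43_d21_d43_d00_d51_d10_3 := p_wQ_26_wN_1_rb8033094a_d43_d4b_d41_d28_d43_d21_d43_d00_d51_d10_3 g__wQ_26_wN_1_rb8033094a_d43_d4b_d41_d28_d43_d21_d43_d00_d51_d10_4

theorem g_wQ_26_wN_1_rb8033094a_d43_d4b_d41_d28_d43_d21_d43_d00_d51_d10 : GoodKC AS c_wQ_26_wN_1_rb8033094a_d43_d4b_d41_d28_d43_d21_d43_d00_d51_d10 := p_wQ_26_wN_1_rb8033094a_d43_d4b_d41_d28_d43_d21_d43_d00_d51_d10 g__wQ_26_wN_1_rb8033094a_d43_d4b_d41_d28_d43_d21_d43_d00_d51_d10_0 g__wQ_26_wN_1_rb8033094a_d43_d4b_d41_d28_d43_d21_d43_d00_d51_d10_3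

theorem g_wQ_26_wN_1_rb8033094a_d43_d4b_d41_d28_d43_d21_d43_d00_d51_d11 : GoodKC AS c_wQ_26_wN_1_rb8033094a_d43_d4b_d41_d28_d43_d21_d43_d00_d51_d11 := p_wQ_26_wN_1_rb8033094a_d43_d4b_d41_d28_d43_d21_d43_d00_d51_d11

theorem g_wQ_26_wN_1_rb8033094a_d43_d4b_d41_d28_d43_d21_d43_d00_d51_d14 : GoodKC AS c_wQ_26_wN_1_rb8033094a_d43_d4b_d41_d28_d43_d21_d43_d00_d51_d14 := p_wQ_26_wN_1_rb8033094a_d43_d4b_d41_d28_d43_d21_d43_d00_d51_d14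

theorem g_wQ_26_wN_1_rb8033094a_d43_d4b_d41_d28_d43_d21_d43_d00_d51_d16 : GoodKC AS c_wQ_26_wN_1_rb8033094a_d43_d4b_d41_d28_d43_d21_d43_d00_d51_d16 := p_wQ_26_wN_1_rb8033094a_d43_d4b_d41_d28_d43_d21_d43_d00_d51_d16

theorem g_wQ_26_wN_1_rb8033094a_d43_d4b_d41_d28_d43_d21_d43_d00_d51_d17 : GoodKC AS c_wQ_26_wN_1_rb8033094a_d43_d4b_d41_d28_d43_d21_d43_d00_d51_d17 := p_wQ_26_wN_1_rb8033094a_d43_d4b_d41_d28_d43_d21_d43_d00_d51_d17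

theorem g_wQ_26_wN_1_rb8033094a_d43_d4b_d41_d28_d43_d21_d43_d00_d51_d19 : GoodKC AS c_wQ_26_wN_1_rb8033094a_d43_d4b_d41_d28_d43_d21_d43_d00_d51_d19 := p_wQ_26_wN_1_rb8033094a_d43_d4b_d41_d28_d43_d21_d43_d00_d51_d19

theorem g__wQ_26_wN_1_rb8033094a_d43_d4b_d41_d28_d43_d21_d43_d00_d51_d1b_0 : GoodKC AS k_wQ_26_wN_1_rb8033094a_d43_d4b_d41_d28_d43_d21_d43_d00_d51_d1b_0 := p_wQ_26_wN_1_rb8033094a_d43_d4b_d41_d28_d43_d21_d43_d00_d51_d1b_0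

theorem g_wQ_26_wN_1_rb8033094a_d43_d4b_d41_d28_d43_d21_d43_d00_d51_d1b : GoodKC AS c_wQ_26_wN_1_rb8033094a_d43_d4b_d41_d28_d43_d21_d43_d00_d51_d1b := p_wQ_26_wN_1_rb8033094a_d43_d4b_d41_d28_d43_d21_d43_d00_d51_d1b g__wQ_26_wN_1_rb8033094a_d43_d4b_d41_d28_d43_d21_d43_d00_d51_d1b_0

theorem g_wQ_26_wN_1_rb8033094a_d43_d4b_d41_d28_d43_d21_d43_d00_d51_d1d : GoodKC AS c_wQ_26_wN_1_rb8033094a_d43_d4b_d41_d28_d43_d21_d43_d00_d51_d1d := p_wQ_26_wN_1_rb8033094a_d43_d4b_d41_d28_d43_d21_d43_d00_d51_d1d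

theorem g_wQ_26_wN_1_rb8033094a_d43_d4b_d41_d28_d43_d21_d43_d00_d51_d1e : GoodKC AS c_wQ_26_wN_1_rb8033094a_d43_d4b_d41_d28_d43_d21_d43_d00_d51_d1e := p_wQ_26_wN_1_rb8033094a_d43_d4b_d41_d28_d43_d21_d43_d00_d51_d1e

theorem g_wQ_26_wN_1_rb8033094a_d43_d4b_d41_d28_d43_d21_d43_d00v2 : GoodKC AS c_wQ_26_wN_1_rb8033094a_d43_d4b_d41_d28_d43_d21_d43_d00v2 := p_wQ_26_wN_1_rb8033094a_d43_d4b_d41_d28_d43_d21_d43_d00 g_wQ_26_wN_1_rb8033094a_d43_d4b_d41_d28_d43_d21_d43_d00_d51_d1f g_wQ_26_wN_1_rb8033094a_d43_d4b_d41_d28_d43_d21_d43_d00_d51_d1c g_wQ_26_wN_1_rb8033094a_d43_d4b_d41_d28_d43_d21_d43_d00_d51_d1a g_wQ_26_wN_1_rb8033094a_d43_d4b_d41_d28_d43_d21_d43_d00_d51_d18 g_wQ_26_wN_1_rb8033094a_d43_d4b_d41_d28_d43_d21_d43_d00_d51_d15 g_wQ_26_wN_1_rb8033094a_d43_d4b_d41_d28_d43_d21_d43_d00_d51_d13 g_wQ_26_wN_1_rb8033094a_d43_d4b_d41_d28_d43_d21_d43_d00_d51_d12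 g_wQ_26_wN_1_rb8033094a_d43_d4b_d41_d28_d43_d21_d43_d00_d51_d0e g_wQ_26_wN_1_rb8033094a_d43_d4b_d41_d28_d43_d21_d43_d00_d51_d0d g_wQ_26_wN_1_rb8033094a_d43_d4b_d41_d28_d43_d21_d43_d00_d51_d0c g_wQ_26_wN_1_rb8033094a_d43_d4b_d41_d28_d43_d21_d43_d00_d51_d0b g_wQ_26_wN_1_rb8033094a_d43_d4b_d41_d28_d43_d21_d43_d00_d51_d0a g_wQ_26_wN_1_rb8033094a_d43_d4b_d41_d28_d43_d21_d43_d00_d51_d00 g_wQ_26_wN_1_rb8033094a_d43_d4b_d41_d28_d43_d21_d43_d00_d51_d09 g_wQ_26_wN_1_rb8033094a_d43_d4b_d41_d28_d43_d21_d43_d00_d51_d07 g_wQ_26_wN_1_rb8033094a_d43_d4b_d41_d28_d43_d21_d43_d00_d51_d06 g_wQ_26_wN_1_rb8033094a_d43_d4b_d41_d28_d43_d21_d43_d00_d51_d05 g_wQ_26_wN_1_rb8033094a_d43_d4b_d41_d28_d43_d21_d43_d00_d51_d04 g_wQ_26_wN_1_rb8033094a_d43_d4b_d41_d28_d43_d21_d43_d00_d51_d02 g_wQ_26_wN_1_rb8033094a_d43_d4b_d41_d28_d43_d21_d43_d00_d51_d01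 g_wQ_26_wN_1_rb8033094a_d43_d4b_d41_d28_d43_d21_d43_d00_d51_d03 g_wQ_26_wN_1_rb8033094a_d43_d4b_d41_d28_d43_d21_d43_d00_d51_d08 g_wQ_26_wN_1_rb8033094a_d43_d4b_d41_d28_d43_d21_d43_d00_d51_d0f g_wQ_26_wN_1_rb8033094a_d43_d4b_d41_d28_d43_d21_d43_d00_d51_d10 g_wQ_26_wN_1_rb8033094a_d43_d4b_d41_d28_d43_d21_d43_d00_d51_d11 g_wQ_26_wN_1_rb8033094a_d43_d4b_d41_d28_d43_d21_d43_d00_d51_d14 g_wQ_26_wN_1_rb8033094a_d43_d4b_d41_d28_d43_d21_d43_d00_d51_d16 g_wQ_26_wN_1_rb8033094a_d43_d4b_d41_d28_d43_d21_d43_d00_d51_d17 g_wQ_26_wN_1_rb8033094a_d43_d4b_d41_d28_d43_d21_d43_d00_d51_d19 g_wQ_26_wN_1_rb8033094a_d43_d4b_d41_d28_d43_d21_d43_d00_d51_d1b g_wQ_26_wN_1_rb8033094a_d43_d4b_d41_d28_d43_d21_d43_d00_d51_d1d g_wQ_26_wN_1_rb8033094a_d43_d4b_d41_d28_d43_d21_d43_d00_d51_d1e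

theorem g__wQ_26_wN_1_rb8033094a_d43_d4b_d41_d28_d43_d21_d43_d01_2 : GoodKC AS k_wQ_26_wN_1_rb8033094a_d43_d4b_d41_d28_d43_d21_d43_d01_2 := p_wQ_26_wN_1_rb8033094a_d43_d4b_d41_d28_d43_d21_d43_d01_2

theorem g__wQ_26_wN_1_rb8033094a_d43_d4b_d41_d28_d43_d21_d43_d01_1 : GoodKC AS k_wQ_26_wN_1_rb8033094a_d43_d4b_d41_d28_d43_d21_d43_d01_1 := p_wQ_26_wN_1_rb8033094a_d43_d4b_d41_d28_d43_d21_d43_d01_1 g__wQ_26_wN_1_rb8033094a_d43_d4b_d41_d28_d43_d21_d43_d01_2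

theorem g__wQ_26_wN_1_rb8033094a_d43_d4b_d41_d28_d43_d21_d43_d01_0 : GoodKC AS k_wQ_26_wN_1_rb8033094a_d43_d4b_d41_d28_d43_d21_d43_d01_0 := p_wQ_26_wN_1_rb8033094a_d43_d4b_d41_d28_d43_d21_d43_d01_0 g__wQ_26_wN_1_rb8033094a_d43_d4b_d41_d28_d43_d21_d43_d01_1

theorem g__wQ_26_wN_1_rb8033094a_d43_d4b_d41_d28_d43_d21_d43_d01_3 : GoodKC AS k_wQ_26_wN_1_rb8033094a_d43_d4b_d41_d28_d43_d21_d43_d01_3 := p_wQ_26_wN_1_rb8033094a_d43_d4b_d41_d28_d43_d21_d43_d01_3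

theorem g_wQ_26_wN_1_rb8033094a_d43_d4b_d41_d28_d43_d21_d43_d01v2 : GoodKC AS c_wQ_26_wN_1_rb8033094a_d43_d4b_d41_d28_d43_d21_d43_d01v2 := p_wQ_26_wN_1_rb8033094a_d43_d4b_d41_d28_d43_d21_d43_d01 g__wQ_26_wN_1_rb8033094a_d43_d4b_d41_d28_d43_d21_d43_d01_0 g__wQ_26_wN_1_rb8033094a_d43_d4b_d41_d28_d43_d21_d43_d01_3

theorem g__wQ_26_wN_1_rb8033094a_d43_d4b_d41_d28_d43_d21v2_15 : GoodKC AS k_wQ_26_wN_1_rb8033094a_d43_d4b_d41_d28_d43_d21v2_15 := p_wQ_26_wN_1_rb8033094a_d43_d4b_d41_d28_d43_d21v2_15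

theorem g__wQ_26_wN_1_rb8033094a_d43_d4b_d41_d28_d43_d21_d43_d02v1_0 : GoodKC AS k_wQ_26_wN_1_rb8033094a_d43_d4b_d41_d28_d43_d21_d43_d02v1_0 := p_wQ_26_wN_1_rb8033094a_d43_d4b_d41_d28_d43_d21_d43_d02v1_0

theorem g__wQ_26_wN_1_rb8033094a_d43_d4b_d41_d28_d43_d21_d43_d02v1_4 : GoodKC AS k_wQ_26_wN_1_rb8033094a_d43_d4b_d41_d28_d43_d21_d43_d02v1_4 := p_wQ_26_wN_1_rb8033094a_d43_d4b_d41_d28_d43_d21_d43_d02v1_4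

theorem g__wQ_26_wN_1_rb8033094a_d43_d4b_d41_d28_d43_d21_d43_d02v1_3 : GoodKC AS k_wQ_26_wN_1_rb8033094a_d43_d4b_d41_d28_d43_d21_d43_d02v1_3 := p_wQ_26_wN_1_rb8033094a_d43_d4b_d41_d28_d43_d21_d43_d02v1_3 g__wQ_26_wN_1_rb8033094a_d43_d4b_d41_d28_d43_d21_d43_d02v1_4

theorem g__wQ_26_wN_1_rb8033094a_d43_d4b_d41_d28_d43_d21_d43_d02v1_5 : GoodKC AS k_wQ_26_wN_1_rb8033094a_d43_d4b_d41_d28_d43_d21_d43_d02v1_5 := p_wQ_26_wN_1_rb8033094a_d43_d4b_d41_d28_d43_d21_d43_d02v1_5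

theorem g__wQ_26_wN_1_rb8033094a_d43_d4b_d41_d28_d43_d21_d43_d02v1_7 : GoodKC AS k_wQ_26_wN_1_rb8033094a_d43_d4b_d41_d28_d43_d21_d43_d02v1_7 := p_wQ_26_wN_1_rb8033094a_d43_d4b_d41_d28_d43_d21_d43_d02v1_7

theorem g__wQ_26_wN_1_rb8033094a_d43_d4b_d41_d28_d43_d21_d43_d02v1_6 : GoodKC AS k_wQ_26_wN_1_rb8033094a_d43_d4b_d41_d28_d43_d21_d43_d02v1_6 := p_wQ_26_wN_1_rb8033094a_d43_d4b_d41_d28_d43_d21_d43_d02v1_6 g__wQ_26_wN_1_rb8033094a_d43_d4b_d41_d28_d43_d21_d43_d02v1_7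

theorem g__wQ_26_wN_1_rb8033094a_d43_d4b_d41_d28_d43_d21_d43_d02v1_8 : GoodKC AS k_wQ_26_wN_1_rb8033094a_d43_d4b_d41_d28_d43_d21_d43_d02v1_8 := p_wQ_26_wN_1_rb8033094a_d43_d4b_d41_d28_d43_d21_d43_d02v1_8

theorem g__wQ_26_wN_1_rb8033094a_d43_d4b_d41_d28_d43_d21_d43_d02v1_2 : GoodKC AS k_wQ_26_wN_1_rb8033094a_d43_d4b_d41_d28_d43_d21_d43_d02v1_2 := p_wQ_26_wN_1_rb8033094a_d43_d4b_d41_d28_d43_d21_d43_d02v1_2 g__wQ_26_wN_1_rb8033094a_d43_d4b_d41_d28_d43_d21_d43_d02v1_3 g__wQ_26_wN_1_rb8033094a_d43_d4b_d41_d28_d43_d21_d43_d02v1_5 g__wQ_26_wN_1_rb8033094a_d43_d4b_d41_d28_d43_d21_d43_d02v1_6 g__wQ_26_wN_1_rb8033094a_d43_d4b_d41_d28_d43_d21_d43_d02v1_8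

theorem g__wQ_26_wN_1_rb8033094a_d43_d4b_d41_d28_d43_d21_d43_d02v1_1 : GoodKC AS k_wQ_26_wN_1_rb8033094a_d43_d4b_d41_d28_d43_d21_d43_d02v1_1 := p_wQ_26_wN_1_rb8033094a_d43_d4b_d41_d28_d43_d21_d43_d02v1_1 g__wQ_26_wN_1_rb8033094a_d43_d4b_d41_d28_d43_d21_d43_d02v1_2

theorem g_wQ_26_wN_1_rb8033094a_d43_d4b_d41_d28_d43_d21_d43_d02v2 : GoodKC AS c_wQ_26_wN_1_rb8033094a_d43_d4b_d41_d28_d43_d21_d43_d02v2 := p_wQ_26_wN_1_rb8033094a_d43_d4b_d41_d28_d43_d21_d43_d02v1 g__wQ_26_wN_1_rb8033094a_d43_d4b_d41_d28_d43_d21_d43_d02v1_0 g__wQ_26_wN_1_rb8033094a_d43_d4b_d41_d28_d43_d21_d43_d02v1_1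

theorem g__wQ_26_wN_1_rb8033094a_d43_d4b_d41_d28_d43_d21v2_3 : GoodKC AS k_wQ_26_wN_1_rb8033094a_d43_d4b_d41_d28_d43_d21v2_3 := p_wQ_26_wN_1_rb8033094a_d43_d4b_d41_d28_d43_d21v2_3 g__wQ_26_wN_1_rb8033094a_d43_d4b_d41_d28_d43_d21v2_4 g__wQ_26_wN_1_rb8033094a_d43_d4b_d41_d28_d43_d21v2_5 g_wQ_26_wN_1_rb8033094a_d43_d4b_d41_d28_d43_d21_d43_d00v2 g_wQ_26_wN_1_rb8033094a_d43_d4b_d41_d28_d43_d21_d43_d01v2 g__wQ_26_wN_1_rb8033094a_d43_d4b_d41_d28_d43_d21v2_15 g_wQ_26_wN_1_rb8033094a_d43_d4b_d41_d28_d43_d21_d43_d02v2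

theorem g__wQ_26_wN_1_rb8033094a_d43_d4b_d41_d28_d43_d21v2_2 : GoodKC AS k_wQ_26_wN_1_rb8033094a_d43_d4b_d41_d28_d43_d21v2_2 := p_wQ_26_wN_1_rb8033094a_d43_d4b_d41_d28_d43_d21v2_2 g__wQ_26_wN_1_rb8033094a_d43_d4b_d41_d28_d43_d21v2_3

theorem g__wQ_26_wN_1_rb8033094a_d43_d4b_d41_d28_d43_d21_d43_d0fv1_1 : GoodKC AS k_wQ_26_wN_1_rb8033094a_d43_d4b_d41_d28_d43_d21_d43_d0fv1_1 := p_wQ_26_wN_1_rb8033094a_d43_d4b_d41_d28_d43_d21_d43_d0fv1_1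

theorem g__wQ_26_wN_1_rb8033094a_d43_d4b_d41_d28_d43_d21_d43_d0fv1_5 : GoodKC AS k_wQ_26_wN_1_rb8033094a_d43_d4b_d41_d28_d43_d21_d43_d0fv1_5 := p_wQ_26_wN_1_rb8033094a_d43_d4b_d41_d28_d43_d21_d43_d0fv1_5

theorem g__wQ_26_wN_1_rb8033094a_d43_d4b_d41_d28_d43_d21_d43_d0fv1_7 : GoodKC AS k_wQ_26_wN_1_rb8033094a_d43_d4b_d41_d28_d43_d21_d43_d0fv1_7 := p_wQ_26_wN_1_rb8033094a_d43_d4b_d41_d28_d43_d21_d43_d0fv1_7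

theorem g__wQ_26_wN_1_rb8033094a_d43_d4b_d41_d28_d43_d21_d43_d0fv1_8 : GoodKC AS k_wQ_26_wN_1_rb8033094a_d43_d4b_d41_d28_d43_d21_d43_d0fv1_8 := p_wQ_26_wN_1_rb8033094a_d43_d4b_d41_d28_d43_d21_d43_d0fv1_8

theorem g__wQ_26_wN_1_rb8033094a_d43_d4b_d41_d28_d43_d21_d43_d0fv1_6 : GoodKC AS k_wQ_26_wN_1_rb8033094a_d43_d4b_d41_d28_d43_d21_d43_d0fv1_6 := p_wQ_26_wN_1_rb8033094a_d43_d4b_d41_d28_d43_d21_d43_d0fv1_6 g__wQ_26_wN_1_rb8033094a_d43_d4b_d41_d28_d43_d21_d43_d0fv1_7 g__wQ_26_wN_1_rb8033094a_d43_d4b_d41_d28_d43_d21_d43_d0fv1_8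

theorem g__wQ_26_wN_1_rb8033094a_d43_d4b_d41_d28_d43_d21_d43_d0fv1_4 : GoodKC AS k_wQ_26_wN_1_rb8033094a_d43_d4b_d41_d28_d43_d21_d43_d0fv1_4 := p_wQ_26_wN_1_rb8033094a_d43_d4b_d41_d28_d43_d21_d43_d0fv1_4 g__wQ_26_wN_1_rb8033094a_d43_d4b_d41_d28_d43_d21_d43_d0fv1_5 g__wQ_26_wN_1_rb8033094a_d43_d4b_d41_d28_d43_d21_d43_d0fv1_6

theorem g__wQ_26_wN_1_rb8033094a_d43_d4b_d41_d28_d43_d21_d43_d0fv1_3 : GoodKC AS k_wQ_26_wN_1_rb8033094a_d43_d4b_d41_d28_d43_d21_d43_d0fv1_3 := p_wQ_26_wN_1_rb8033094a_d43_d4b_d41_d28_d43_d21_d43_d0fv1_3 g__wQ_26_wN_1_rb8033094a_d43_d4b_d41_d28_d43_d21_d43_d0fv1_4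

theorem g__wQ_26_wN_1_rb8033094a_d43_d4b_d41_d28_d43_d21_d43_d0fv1_9 : GoodKC AS k_wQ_26_wN_1_rb8033094a_d43_d4b_d41_d28_d43_d21_d43_d0fv1_9 := p_wQ_26_wN_1_rb8033094a_d43_d4b_d41_d28_d43_d21_d43_d0fv1_9

theorem g__wQ_26_wN_1_rb8033094a_d43_d4b_d41_d28_d43_d21_d43_d0fv1_2 : GoodKC AS k_wQ_26_wN_1_rb8033094a_d43_d4b_d41_d28_d43_d21_d43_d0fv1_2 := p_wQ_26_wN_1_rb8033094a_d43_d4b_d41_d28_d43_d21_d43_d0fv1_2 g__wQ_26_wN_1_rb8033094a_d43_d4b_d41_d28_d43_d21_d43_d0fv1_3 g__wQ_26_wN_1_rb8033094a_d43_d4b_d41_d28_d43_d21_d43_d0fv1_9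

theorem g__wQ_26_wN_1_rb8033094a_d43_d4b_d41_d28_d43_d21_d43_d0fv1_12 : GoodKC AS k_wQ_26_wN_1_rb8033094a_d43_d4b_d41_d28_d43_d21_d43_d0fv1_12 := p_wQ_26_wN_1_rb8033094a_d43_d4b_d41_d28_d43_d21_d43_d0fv1_12

theorem g__wQ_26_wN_1_rb8033094a_d43_d4b_d41_d28_d43_d21_d43_d0fv1_13 : GoodKC AS k_wQ_26_wN_1_rb8033094a_d43_d4b_d41_d28_d43_d21_d43_d0fv1_13 := p_wQ_26_wN_1_rb8033094a_d43_d4b_d41_d28_d43_d21_d43_d0fv1_13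

theorem g__wQ_26_wN_1_rb8033094a_d43_d4b_d41_d28_d43_d21_d43_d0fv1_14 : GoodKC AS k_wQ_26_wN_1_rb8033094a_d43_d4b_d41_d28_d43_d21_d43_d0fv1_14 := p_wQ_26_wN_1_rb8033094a_d43_d4b_d41_d28_d43_d21_d43_d0fv1_14

theorem g__wQ_26_wN_1_rb8033094a_d43_d4b_d41_d28_d43_d21_d43_d0fv1_11 : GoodKC AS k_wQ_26_wN_1_rb8033094a_d43_d4b_d41_d28_d43_d21_d43_d0fv1_11 := p_wQ_26_wN_1_rb8033094a_d43_d4b_d41_d28_d43_d21_d43_d0fv1_11 g__wQ_26_wN_1_rb8033094a_d43_d4b_d41_d28_d43_d21_d43_d0fv1_12 g__wQ_26_wN_1_rb8033094a_d43_d4b_d41_d28_d43_d21_d43_d0fv1_13 g__wQ_26_wN_1_rb8033094a_d43_d4b_d41_d28_d43_d21_d43_d0fv1_14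

theorem g__wQ_26_wN_1_rb8033094a_d43_d4b_d41_d28_d43_d21_d43_d0fv1_19 : GoodKC AS k_wQ_26_wN_1_rb8033094a_d43_d4b_d41_d28_d43_d21_d43_d0fv1_19 := p_wQ_26_wN_1_rb8033094a_d43_d4b_d41_d28_d43_d21_d43_d0fv1_19

theorem g__wQ_26_wN_1_rb8033094a_d43_d4b_d41_d28_d43_d21_d43_d0fv1_18 : GoodKC AS k_wQ_26_wN_1_rb8033094a_d43_d4b_d41_d28_d43_d21_d43_d0fv1_18 := p_wQ_26_wN_1_rb8033094a_d43_d4b_d41_d28_d43_d21_d43_d0fv1_18 g__wQ_26_wN_1_rb8033094a_d43_d4b_d41_d28_d43_d21_d43_d0fv1_19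

theorem g__wQ_26_wN_1_rb8033094a_d43_d4b_d41_d28_d43_d21_d43_d0fv1_17 : GoodKC AS k_wQ_26_wN_1_rb8033094a_d43_d4b_d41_d28_d43_d21_d43_d0fv1_17 := p_wQ_26_wN_1_rb8033094a_d43_d4b_d41_d28_d43_d21_d43_d0fv1_17 g__wQ_26_wN_1_rb8033094a_d43_d4b_d41_d28_d43_d21_d43_d0fv1_18

theorem g__wQ_26_wN_1_rb8033094a_d43_d4b_d41_d28_d43_d21_d43_d0fv1_16 : GoodKC AS k_wQ_26_wN_1_rb8033094a_d43_d4b_d41_d28_d43_d21_d43_d0fv1_16 := p_wQ_26_wN_1_rb8033094a_d43_d4b_d41_d28_d43_d21_d43_d0fv1_16 g__wQ_26_wN_1_rb8033094a_d43_d4b_d41_d28_d43_d21_d43_d0fv1_17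

theorem g__wQ_26_wN_1_rb8033094a_d43_d4b_d41_d28_d43_d21_d43_d0fv1_24 : GoodKC AS k_wQ_26_wN_1_rb8033094a_d43_d4b_d41_d28_d43_d21_d43_d0fv1_24 := p_wQ_26_wN_1_rb8033094a_d43_d4b_d41_d28_d43_d21_d43_d0fv1_24

theorem g__wQ_26_wN_1_rb8033094a_d43_d4b_d41_d28_d43_d21_d43_d0fv1_26 : GoodKC AS k_wQ_26_wN_1_rb8033094a_d43_d4b_d41_d28_d43_d21_d43_d0fv1_26 := p_wQ_26_wN_1_rb8033094a_d43_d4b_d41_d28_d43_d21_d43_d0fv1_26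

theorem g__wQ_26_wN_1_rb8033094a_d43_d4b_d41_d28_d43_d21_d43_d0fv1_25 : GoodKC AS k_wQ_26_wN_1_rb8033094a_d43_d4b_d41_d28_d43_d21_d43_d0fv1_25 := p_wQ_26_wN_1_rb8033094a_d43_d4b_d41_d28_d43_d21_d43_d0fv1_25 g__wQ_26_wN_1_rb8033094a_d43_d4b_d41_d28_d43_d21_d43_d0fv1_26

theorem g__wQ_26_wN_1_rb8033094a_d43_d4b_d41_d28_d43_d21_d43_d0fv1_23 : GoodKC AS k_wQ_26_wN_1_rb8033094a_d43_d4b_d41_d28_d43_d21_d43_d0fv1_23 := p_wQ_26_wN_1_rb8033094a_d43_d4b_d41_d28_d43_d21_d43_d0fv1_23 g__wQ_26_wN_1_rb8033094a_d43_d4b_d41_d28_d43_d21_d43_d0fv1_24 g__wQ_26_wN_1_rb8033094a_d43_d4b_d41_d28_d43_d21_d43_d0fv1_25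

theorem g__wQ_26_wN_1_rb8033094a_d43_d4b_d41_d28_d43_d21_d43_d0fv1_22 : GoodKC AS k_wQ_26_wN_1_rb8033094a_d43_d4b_d41_d28_d43_d21_d43_d0fv1_22 := p_wQ_26_wN_1_rb8033094a_d43_d4b_d41_d28_d43_d21_d43_d0fv1_22 g__wQ_26_wN_1_rb8033094a_d43_d4b_d41_d28_d43_d21_d43_d0fv1_23

theorem g__wQ_26_wN_1_rb8033094a_d43_d4b_d41_d28_d43_d21_d43_d0fv1_21 : GoodKC AS k_wQ_26_wN_1_rb8033094a_d43_d4b_d41_d28_d43_d21_d43_d0fv1_21 := p_wQ_26_wN_1_rb8033094a_d43_d4b_d41_d28_d43_d21_d43_d0fv1_21 g__wQ_26_wN_1_rb8033094a_d43_d4b_d41_d28_d43_d21_d43_d0fv1_22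

theorem g__wQ_26_wN_1_rb8033094a_d43_d4b_d41_d28_d43_d21_d43_d0fv1_20 : GoodKC AS k_wQ_26_wN_1_rb8033094a_d43_d4b_d41_d28_d43_d21_d43_d0fv1_20 := p_wQ_26_wN_1_rb8033094a_d43_d4b_d41_d28_d43_d21_d43_d0fv1_20 g__wQ_26_wN_1_rb8033094a_d43_d4b_d41_d28_d43_d21_d43_d0fv1_21

theorem g__wQ_26_wN_1_rb8033094a_d43_d4b_d41_d28_d43_d21_d43_d0fv1_27 : GoodKC AS k_wQ_26_wN_1_rb8033094a_d43_d4b_d41_d28_d43_d21_d43_d0fv1_27 := p_wQ_26_wN_1_rb8033094a_d43_d4b_d41_d28_d43_d21_d43_d0fv1_27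

theorem g__wQ_26_wN_1_rb8033094a_d43_d4b_d41_d28_d43_d21_d43_d0fv1_15 : GoodKC AS k_wQ_26_wN_1_rb8033094a_d43_d4b_d41_d28_d43_d21_d43_d0fv1_15 := p_wQ_26_wN_1_rb8033094a_d43_d4b_d41_d28_d43_d21_d43_d0fv1_15 g__wQ_26_wN_1_rb8033094a_d43_d4b_d41_d28_d43_d21_d43_d0fv1_16 g__wQ_26_wN_1_rb8033094a_d43_d4b_d41_d28_d43_d21_d43_d0fv1_20 g__wQ_26_wN_1_rb8033094a_d43_d4b_d41_d28_d43_d21_d43_d0fv1_27

theorem g__wQ_26_wN_1_rb8033094a_d43_d4b_d41_d28_d43_d21_d43_d0fv1_28 : GoodKC AS k_wQ_26_wN_1_rb8033094a_d43_d4b_d41_d28_d43_d21_d43_d0fv1_28 := p_wQ_26_wN_1_rb8033094a_d43_d4b_d41_d28_d43_d21_d43_d0fv1_28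

theorem g__wQ_26_wN_1_rb8033094a_d43_d4b_d41_d28_d43_d21_d43_d0fv1_10 : GoodKC AS k_wQ_26_wN_1_rb8033094a_d43_d4b_d41_d28_d43_d21_d43_d0fv1_10 := p_wQ_26_wN_1_rb8033094a_d43_d4b_d41_d28_d43_d21_d43_d0fv1_10 g__wQ_26_wN_1_rb8033094a_d43_d4b_d41_d28_d43_d21_d43_d0fv1_11 g__wQ_26_wN_1_rb8033094a_d43_d4b_d41_d28_d43_d21_d43_d0fv1_15 g__wQ_26_wN_1_rb8033094a_d43_d4b_d41_d28_d43_d21_d43_d0fv1_28

theorem g__wQ_26_wN_1_rb8033094a_d43_d4b_d41_d28_d43_d21_d43_d0fv1_29 : GoodKC AS k_wQ_26_wN_1_rb8033094a_d43_d4b_d41_d28_d43_d21_d43_d0fv1_29 := p_wQ_26_wN_1_rb8033094a_d43_d4b_d41_d28_d43_d21_d43_d0fv1_29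

theorem g__wQ_26_wN_1_rb8033094a_d43_d4b_d41_d28_d43_d21_d43_d0fv1_0 : GoodKC AS k_wQ_26_wN_1_rb8033094a_d43_d4b_d41_d28_d43_d21_d43_d0fv1_0 := p_wQ_26_wN_1_rb8033094a_d43_d4b_d41_d28_d43_d21_d43_d0fv1_0 g__wQ_26_wN_1_rb8033094a_d43_d4b_d41_d28_d43_d21_d43_d0fv1_1 g__wQ_26_wN_1_rb8033094a_d43_d4b_d41_d28_d43_d21_d43_d0fv1_2 g__wQ_26_wN_1_rb8033094a_d43_d4b_d41_d28_d43_d21_d43_d0fv1_10 g__wQ_26_wN_1_rb8033094a_d43_d4b_d41_d28_d43_d21_d43_d0fv1_29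

theorem g_wQ_26_wN_1_rb8033094a_d43_d4b_d41_d28_d43_d21_d43_d0fv2 : GoodKC AS c_wQ_26_wN_1_rb8033094a_d43_d4b_d41_d28_d43_d21_d43_d0fv2 := p_wQ_26_wN_1_rb8033094a_d43_d4b_d41_d28_d43_d21_d43_d0fv1 g__wQ_26_wN_1_rb8033094a_d43_d4b_d41_d28_d43_d21_d43_d0fv1_0

theorem g_wQ_26_wN_1_rb8033094a_d43_d4b_d41_d28_d43_d21_d43_d12v2 : GoodKC AS c_wQ_26_wN_1_rb8033094a_d43_d4b_d41_d28_d43_d21_d43_d12v2 := p_wQ_26_wN_1_rb8033094a_d43_d4b_d41_d28_d43_d21_d43_d12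

theorem g_wQ_26_wN_1_rb8033094a_d43_d4b_d41_d28_d43_d21x2 : GoodKC AS c_wQ_26_wN_1_rb8033094a_d43_d4b_d41_d28_d43_d21x2 := p_wQ_26_wN_1_rb8033094a_d43_d4b_d41_d28_d43_d21v2 g_wQ_26_wN_1_rb8033094a_d43_d4b_d41_d28_d43_d21_d43_d13v2 g_wQ_26_wN_1_rb8033094a_d43_d4b_d41_d28_d43_d21_d43_d11v2 g_wQ_26_wN_1_rb8033094a_d43_d4b_d41_d28_d43_d21_d43_d10v2 g_wQ_26_wN_1_rb8033094a_d43_d4b_d41_d28_d43_d21_d43_d0ev2 g_wQ_26_wN_1_rb8033094a_d43_d4b_d41_d28_d43_d21_d43_d0cv2 g_wQ_26_wN_1_rb8033094a_d43_d4b_d41_d28_d43_d21_d43_d08v2 g_wQ_26_wN_1_rb8033094a_d43_d4b_d41_d28_d43_d21_d43_d07v2 g_wQ_26_wN_1_rb8033094a_d43_d4b_d41_d28_d43_d21_d43_d06v2 g_wQ_26_wN_1_rb8033094a_d43_d4b_d41_d28_d43_d21_d43_d03v2 g_wQ_26_wN_1_rb8033094a_d43_d4b_d41_d28_d43_d21_d43_d04v2 g_wQ_26_wN_1_rb8033094a_d43_d4b_d41_d28_d43_d21_d43_d05v2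 g__wQ_26_wN_1_rb8033094a_d43_d4b_d41_d28_d43_d21v2_0 g_wQ_26_wN_1_rb8033094a_d43_d4b_d41_d28_d43_d21_d43_d09v2 g_wQ_26_wN_1_rb8033094a_d43_d4b_d41_d28_d43_d21_d43_d0av2 g_wQ_26_wN_1_rb8033094a_d43_d4b_d41_d28_d43_d21_d43_d0bv2 g_wQ_26_wN_1_rb8033094a_d43_d4b_d41_d28_d43_d21_d43_d0dv2 g__wQ_26_wN_1_rb8033094a_d43_d4b_d41_d28_d43_d21v2_2 g_wQ_26_wN_1_rb8033094a_d43_d4b_d41_d28_d43_d21_d43_d0fv2 g_wQ_26_wN_1_rb8033094a_d43_d4b_d41_d28_d43_d21_d43_d12v2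

theorem g__wQ_26_wN_1_rb8033094a_d43_d4b_d41_d28_d43_d22v1_5 : GoodKC AS k_wQ_26_wN_1_rb8033094a_d43_d4b_d41_d28_d43_d22v1_5 := p_wQ_26_wN_1_rb8033094a_d43_d4b_d41_d28_d43_d22v1_5

theorem g__wQ_26_wN_1_rb8033094a_d43_d4b_d41_d28_d43_d22v1_4 : GoodKC AS k_wQ_26_wN_1_rb8033094a_d43_d4b_d41_d28_d43_d22v1_4 := p_wQ_26_wN_1_rb8033094a_d43_d4b_d41_d28_d43_d22v1_4 g__wQ_26_wN_1_rb8033094a_d43_d4b_d41_d28_d43_d22v1_5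

theorem g__wQ_26_wN_1_rb8033094a_d43_d4b_d41_d28_d43_d22v1_3 : GoodKC AS k_wQ_26_wN_1_rb8033094a_d43_d4b_d41_d28_d43_d22v1_3 := p_wQ_26_wN_1_rb8033094a_d43_d4b_d41_d28_d43_d22v1_3 g__wQ_26_wN_1_rb8033094a_d43_d4b_d41_d28_d43_d22v1_4

theorem g__wQ_26_wN_1_rb8033094a_d43_d4b_d41_d28_d43_d22v1_2 : GoodKC AS k_wQ_26_wN_1_rb8033094a_d43_d4b_d41_d28_d43_d22v1_2 := p_wQ_26_wN_1_rb8033094a_d43_d4b_d41_d28_d43_d22v1_2 g__wQ_26_wN_1_rb8033094a_d43_d4b_d41_d28_d43_d22v1_3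

theorem g__wQ_26_wN_1_rb8033094a_d43_d4b_d41_d28_d43_d22v1_6 : GoodKC AS k_wQ_26_wN_1_rb8033094a_d43_d4b_d41_d28_d43_d22v1_6 := p_wQ_26_wN_1_rb8033094a_d43_d4b_d41_d28_d43_d22v1_6

theorem g__wQ_26_wN_1_rb8033094a_d43_d4b_d41_d28_d43_d22v1_1 : GoodKC AS k_wQ_26_wN_1_rb8033094a_d43_d4b_d41_d28_d43_d22v1_1 := p_wQ_26_wN_1_rb8033094a_d43_d4b_d41_d28_d43_d22v1_1 g__wQ_26_wN_1_rb8033094a_d43_d4b_d41_d28_d43_d22v1_2 g__wQ_26_wN_1_rb8033094a_d43_d4b_d41_d28_d43_d22v1_6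

theorem g__wQ_26_wN_1_rb8033094a_d43_d4b_d41_d28_d43_d22v1_11 : GoodKC AS k_wQ_26_wN_1_rb8033094a_d43_d4b_d41_d28_d43_d22v1_11 := p_wQ_26_wN_1_rb8033094a_d43_d4b_d41_d28_d43_d22v1_11

theorem g__wQ_26_wN_1_rb8033094a_d43_d4b_d41_d28_d43_d22v1_10 : GoodKC AS k_wQ_26_wN_1_rb8033094a_d43_d4b_d41_d28_d43_d22v1_10 := p_wQ_26_wN_1_rb8033094a_d43_d4b_d41_d28_d43_d22v1_10 g__wQ_26_wN_1_rb8033094a_d43_d4b_d41_d28_d43_d22v1_11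

theorem g__wQ_26_wN_1_rb8033094a_d43_d4b_d41_d28_d43_d22v1_13 : GoodKC AS k_wQ_26_wN_1_rb8033094a_d43_d4b_d41_d28_d43_d22v1_13 := p_wQ_26_wN_1_rb8033094a_d43_d4b_d41_d28_d43_d22v1_13

theorem g__wQ_26_wN_1_rb8033094a_d43_d4b_d41_d28_d43_d22v1_12 : GoodKC AS k_wQ_26_wN_1_rb8033094a_d43_d4b_d41_d28_d43_d22v1_12 := p_wQ_26_wN_1_rb8033094a_d43_d4b_d41_d28_d43_d22v1_12 g__wQ_26_wN_1_rb8033094a_d43_d4b_d41_d28_d43_d22v1_13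

theorem g__wQ_26_wN_1_rb8033094a_d43_d4b_d41_d28_d43_d22v1_9 : GoodKC AS k_wQ_26_wN_1_rb8033094a_d43_d4b_d41_d28_d43_d22v1_9 := p_wQ_26_wN_1_rb8033094a_d43_d4b_d41_d28_d43_d22v1_9 g__wQ_26_wN_1_rb8033094a_d43_d4b_d41_d28_d43_d22v1_10 g__wQ_26_wN_1_rb8033094a_d43_d4b_d41_d28_d43_d22v1_12

theorem g__wQ_26_wN_1_rb8033094a_d43_d4b_d41_d28_d43_d22v1_15 : GoodKC AS k_wQ_26_wN_1_rb8033094a_d43_d4b_d41_d28_d43_d22v1_15 := p_wQ_26_wN_1_rb8033094a_d43_d4b_d41_d28_d43_d22v1_15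

theorem g__wQ_26_wN_1_rb8033094a_d43_d4b_d41_d28_d43_d22v1_16 : GoodKC AS k_wQ_26_wN_1_rb8033094a_d43_d4b_d41_d28_d43_d22v1_16 := p_wQ_26_wN_1_rb8033094a_d43_d4b_d41_d28_d43_d22v1_16

theorem g__wQ_26_wN_1_rb8033094a_d43_d4b_d41_d28_d43_d22v1_14 : GoodKC AS k_wQ_26_wN_1_rb8033094a_d43_d4b_d41_d28_d43_d22v1_14 := p_wQ_26_wN_1_rb8033094a_d43_d4b_d41_d28_d43_d22v1_14 g__wQ_26_wN_1_rb8033094a_d43_d4b_d41_d28_d43_d22v1_15 g__wQ_26_wN_1_rb8033094a_d43_d4b_d41_d28_d43_d22v1_16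

theorem g__wQ_26_wN_1_rb8033094a_d43_d4b_d41_d28_d43_d22v1_8 : GoodKC AS k_wQ_26_wN_1_rb8033094a_d43_d4b_d41_d28_d43_d22v1_8 := p_wQ_26_wN_1_rb8033094a_d43_d4b_d41_d28_d43_d22v1_8 g__wQ_26_wN_1_rb8033094a_d43_d4b_d41_d28_d43_d22v1_9 g__wQ_26_wN_1_rb8033094a_d43_d4b_d41_d28_d43_d22v1_14

theorem g__wQ_26_wN_1_rb8033094a_d43_d4b_d41_d28_d43_d22v1_17 : GoodKC AS k_wQ_26_wN_1_rb8033094a_d43_d4b_d41_d28_d43_d22v1_17 := p_wQ_26_wN_1_rb8033094a_d43_d4b_d41_d28_d43_d22v1_17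

theorem g__wQ_26_wN_1_rb8033094a_d43_d4b_d41_d28_d43_d22v1_7 : GoodKC AS k_wQ_26_wN_1_rb8033094a_d43_d4b_d41_d28_d43_d22v1_7 := p_wQ_26_wN_1_rb8033094a_d43_d4b_d41_d28_d43_d22v1_7 g__wQ_26_wN_1_rb8033094a_d43_d4b_d41_d28_d43_d22v1_8 g__wQ_26_wN_1_rb8033094a_d43_d4b_d41_d28_d43_d22v1_17

theorem g__wQ_26_wN_1_rb8033094a_d43_d4b_d41_d28_d43_d22_d41_d00_d51_d05_0 : GoodKC AS k_wQ_26_wN_1_rb8033094a_d43_d4b_d41_d28_d43_d22_d41_d00_d51_d05_0 := p_wQ_26_wN_1_rb8033094a_d43_d4b_d41_d28_d43_d22_d41_d00_d51_d05_0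

theorem g__wQ_26_wN_1_rb8033094a_d43_d4b_d41_d28_d43_d22_d41_d00_d51_d05_1 : GoodKC AS k_wQ_26_wN_1_rb8033094a_d43_d4b_d41_d28_d43_d22_d41_d00_d51_d05_1 := p_wQ_26_wN_1_rb8033094a_d43_d4b_d41_d28_d43_d22_d41_d00_d51_d05_1

theorem g_wQ_26_wN_1_rb8033094a_d43_d4b_d41_d28_d43_d22_d41_d00_d51_d05 : GoodKC AS c_wQ_26_wN_1_rb8033094a_d43_d4b_d41_d28_d43_d22_d41_d00_d51_d05 := p_wQ_26_wN_1_rb8033094a_d43_d4b_d41_d28_d43_d22_d41_d00_d51_d05 g__wQ_26_wN_1_rb8033094a_d43_d4b_d41_d28_d43_d22_d41_d00_d51_d05_0 g__wQ_26_wN_1_rb8033094a_d43_d4b_d41_d28_d43_d22_d41_d00_d51_d05_1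

theorem g_wQ_26_wN_1_rb8033094a_d43_d4b_d41_d28_d43_d22_d41_d00_d51_d03 : GoodKC AS c_wQ_26_wN_1_rb8033094a_d43_d4b_d41_d28_d43_d22_d41_d00_d51_d03 := p_wQ_26_wN_1_rb8033094a_d43_d4b_d41_d28_d43_d22_d41_d00_d51_d03

theorem g_wQ_26_wN_1_rb8033094a_d43_d4b_d41_d28_d43_d22_d41_d00_d51_d02 : GoodKC AS c_wQ_26_wN_1_rb8033094a_d43_d4b_d41_d28_d43_d22_d41_d00_d51_d02 := p_wQ_26_wN_1_rb8033094a_d43_d4b_d41_d28_d43_d22_d41_d00_d51_d02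

theorem g_wQ_26_wN_1_rb8033094a_d43_d4b_d41_d28_d43_d22_d41_d00_d51_d00 : GoodKC AS c_wQ_26_wN_1_rb8033094a_d43_d4b_d41_d28_d43_d22_d41_d00_d51_d00 := p_wQ_26_wN_1_rb8033094a_d43_d4b_d41_d28_d43_d22_d41_d00_d51_d00

theorem g_wQ_26_wN_1_rb8033094a_d43_d4b_d41_d28_d43_d22_d41_d00_d51_d01 : GoodKC AS c_wQ_26_wN_1_rb8033094a_d43_d4b_d41_d28_d43_d22_d41_d00_d51_d01 := p_wQ_26_wN_1_rb8033094a_d43_d4b_d41_d28_d43_d22_d41_d00_d51_d01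

theorem g__wQ_26_wN_1_rb8033094a_d43_d4b_d41_d28_d43_d22_d41_d00_d51_d04_0 : GoodKC AS k_wQ_26_wN_1_rb8033094a_d43_d4b_d41_d28_d43_d22_d41_d00_d51_d04_0 := p_wQ_26_wN_1_rb8033094a_d43_d4b_d41_d28_d43_d22_d41_d00_d51_d04_0

theorem g_wQ_26_wN_1_rb8033094a_d43_d4b_d41_d28_d43_d22_d41_d00_d51_d04 : GoodKC AS c_wQ_26_wN_1_rb8033094a_d43_d4b_d41_d28_d43_d22_d41_d00_d51_d04 := p_wQ_26_wN_1_rb8033094a_d43_d4b_d41_d28_d43_d22_d41_d00_d51_d04 g__wQ_26_wN_1_rb8033094a_d43_d4b_d41_d28_d43_d22_d41_d00_d51_d04_0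

theorem g_wQ_26_wN_1_rb8033094a_d43_d4b_d41_d28_d43_d22_d41_d00v1 : GoodKC AS c_wQ_26_wN_1_rb8033094a_d43_d4b_d41_d28_d43_d22_d41_d00v1 := p_wQ_26_wN_1_rb8033094a_d43_d4b_d41_d28_d43_d22_d41_d00 g_wQ_26_wN_1_rb8033094a_d43_d4b_d41_d28_d43_d22_d41_d00_d51_d05 g_wQ_26_wN_1_rb8033094a_d43_d4b_d41_d28_d43_d22_d41_d00_d51_d03 g_wQ_26_wN_1_rb8033094a_d43_d4b_d41_d28_d43_d22_d41_d00_d51_d02 g_wQ_26_wN_1_rb8033094a_d43_d4b_d41_d28_d43_d22_d41_d00_d51_d00 g_wQ_26_wN_1_rb8033094a_d43_d4b_d41_d28_d43_d22_d41_d00_d51_d01 g_wQ_26_wN_1_rb8033094a_d43_d4b_d41_d28_d43_d22_d41_d00_d51_d04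

theorem g__wQ_26_wN_1_rb8033094a_d43_d4b_d41_d28_d43_d22v1_0 : GoodKC AS k_wQ_26_wN_1_rb8033094a_d43_d4b_d41_d28_d43_d22v1_0 := p_wQ_26_wN_1_rb8033094a_d43_d4b_d41_d28_d43_d22v1_0 g__wQ_26_wN_1_rb8033094a_d43_d4b_d41_d28_d43_d22v1_1 g__wQ_26_wN_1_rb8033094a_d43_d4b_d41_d28_d43_d22v1_7 g_wQ_26_wN_1_rb8033094a_d43_d4b_d41_d28_d43_d22_d41_d00v1

theorem g_wQ_26_wN_1_rb8033094a_d43_d4b_d41_d28_d43_d22x2 : GoodKC AS c_wQ_26_wN_1_rb8033094a_d43_d4b_d41_d28_d43_d22x2 := p_wQ_26_wN_1_rb8033094a_d43_d4b_d41_d28_d43_d22v1 g__wQ_26_wN_1_rb8033094a_d43_d4b_d41_d28_d43_d22v1_0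

theorem g_wQ_26_wN_1_rb8033094a_d43_d4b_d41_d28x8 : GoodKC AS c_wQ_26_wN_1_rb8033094a_d43_d4b_d41_d28x8 := p_wQ_26_wN_1_rb8033094a_d43_d4b_d41_d28x2 g_wQ_26_wN_1_rb8033094a_d43_d4b_d41_d28_d43_d20x2 g_wQ_26_wN_1_rb8033094a_d43_d4b_d41_d28_d43_d1fx2 g_wQ_26_wN_1_rb8033094a_d43_d4b_d41_d28_d43_d1ex2 g__wQ_26_wN_1_rb8033094a_d43_d4b_d41_d28x2_0 g_wQ_26_wN_1_rb8033094a_d43_d4b_d41_d28_d43_d21x2 g_wQ_26_wN_1_rb8033094a_d43_d4b_d41_d28_d43_d22x2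

theorem g_wQ_26_wN_1_rb8033094a_d43_d4b_d41_d26x8 : GoodKC AS c_wQ_26_wN_1_rb8033094a_d43_d4b_d41_d26x8 := p_wQ_26_wN_1_rb8033094a_d43_d4b_d41_d26x1

theorem g_wQ_26_wN_1_rb8033094a_d43_d4b_d41_d24x8 : GoodKC AS c_wQ_26_wN_1_rb8033094a_d43_d4b_d41_d24x8 := p_wQ_26_wN_1_rb8033094a_d43_d4b_d41_d24x1

theorem g_wQ_26_wN_1_rb8033094a_d43_d4b_d41_d23x8 : GoodKC AS c_wQ_26_wN_1_rb8033094a_d43_d4b_d41_d23x8 := p_wQ_26_wN_1_rb8033094a_d43_d4b_d41_d23x1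

theorem g_wQ_26_wN_1_rb8033094a_d43_d4b_d41_d22x8 : GoodKC AS c_wQ_26_wN_1_rb8033094a_d43_d4b_d41_d22x8 := p_wQ_26_wN_1_rb8033094a_d43_d4b_d41_d22x1

theorem g_wQ_26_wN_1_rb8033094a_d43_d4b_d41_d20x8 : GoodKC AS c_wQ_26_wN_1_rb8033094a_d43_d4b_d41_d20x8 := p_wQ_26_wN_1_rb8033094a_d43_d4b_d41_d20x1

theorem g__wQ_26_wN_1_rb8033094a_d43_d4b_d41_d1ex1_0 : GoodKC AS k_wQ_26_wN_1_rb8033094a_d43_d4b_d41_d1ex1_0 := p_wQ_26_wN_1_rb8033094a_d43_d4b_d41_d1ex1_0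

theorem g__wQ_26_wN_1_rb8033094a_d43_d4b_d41_d1ex1_3 : GoodKC AS k_wQ_26_wN_1_rb8033094a_d43_d4b_d41_d1ex1_3 := p_wQ_26_wN_1_rb8033094a_d43_d4b_d41_d1ex1_3

theorem g__wQ_26_wN_1_rb8033094a_d43_d4b_d41_d1ex1_5 : GoodKC AS k_wQ_26_wN_1_rb8033094a_d43_d4b_d41_d1ex1_5 := p_wQ_26_wN_1_rb8033094a_d43_d4b_d41_d1ex1_5

theorem g__wQ_26_wN_1_rb8033094a_d43_d4b_d41_d1ex1_4 : GoodKC AS k_wQ_26_wN_1_rb8033094a_d43_d4b_d41_d1ex1_4 := p_wQ_26_wN_1_rb8033094a_d43_d4b_d41_d1ex1_4 g__wQ_26_wN_1_rb8033094a_d43_d4b_d41_d1ex1_5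

theorem g__wQ_26_wN_1_rb8033094a_d43_d4b_d41_d1ex1_6 : GoodKC AS k_wQ_26_wN_1_rb8033094a_d43_d4b_d41_d1ex1_6 := p_wQ_26_wN_1_rb8033094a_d43_d4b_d41_d1ex1_6

theorem g__wQ_26_wN_1_rb8033094a_d43_d4b_d41_d1ex1_7 : GoodKC AS k_wQ_26_wN_1_rb8033094a_d43_d4b_d41_d1ex1_7 := p_wQ_26_wN_1_rb8033094a_d43_d4b_d41_d1ex1_7

theorem g__wQ_26_wN_1_rb8033094a_d43_d4b_d41_d1ex1_2 : GoodKC AS k_wQ_26_wN_1_rb8033094a_d43_d4b_d41_d1ex1_2 := p_wQ_26_wN_1_rb8033094a_d43_d4b_d41_d1ex1_2 g__wQ_26_wN_1_rb8033094a_d43_d4b_d41_d1ex1_3 g__wQ_26_wN_1_rb8033094a_d43_d4b_d41_d1ex1_4 g__wQ_26_wN_1_rb8033094a_d43_d4b_d41_d1ex1_6 g__wQ_26_wN_1_rb8033094a_d43_d4b_d41_d1ex1_7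

theorem g__wQ_26_wN_1_rb8033094a_d43_d4b_d41_d1ex1_1 : GoodKC AS k_wQ_26_wN_1_rb8033094a_d43_d4b_d41_d1ex1_1 := p_wQ_26_wN_1_rb8033094a_d43_d4b_d41_d1ex1_1 g__wQ_26_wN_1_rb8033094a_d43_d4b_d41_d1ex1_2

theorem g_wQ_26_wN_1_rb8033094a_d43_d4b_d41_d1ex8 : GoodKC AS c_wQ_26_wN_1_rb8033094a_d43_d4b_d41_d1ex8 := p_wQ_26_wN_1_rb8033094a_d43_d4b_d41_d1ex1 g__wQ_26_wN_1_rb8033094a_d43_d4b_d41_d1ex1_0 g__wQ_26_wN_1_rb8033094a_d43_d4b_d41_d1ex1_1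

theorem g_wQ_26_wN_1_rb8033094a_d43_d4b_d41_d1ax8 : GoodKC AS c_wQ_26_wN_1_rb8033094a_d43_d4b_d41_d1ax8 := p_wQ_26_wN_1_rb8033094a_d43_d4b_d41_d1ax1

theorem g__wQ_26_wN_1_rb8033094a_d43_d4b_d41_d18x1_1 : GoodKC AS k_wQ_26_wN_1_rb8033094a_d43_d4b_d41_d18x1_1 := p_wQ_26_wN_1_rb8033094a_d43_d4b_d41_d18x1_1

theorem g__wQ_26_wN_1_rb8033094a_d43_d4b_d41_d18x1_3 : GoodKC AS k_wQ_26_wN_1_rb8033094a_d43_d4b_d41_d18x1_3 := p_wQ_26_wN_1_rb8033094a_d43_d4b_d41_d18x1_3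

theorem g__wQ_26_wN_1_rb8033094a_d43_d4b_d41_d18x1_2 : GoodKC AS k_wQ_26_wN_1_rb8033094a_d43_d4b_d41_d18x1_2 := p_wQ_26_wN_1_rb8033094a_d43_d4b_d41_d18x1_2 g__wQ_26_wN_1_rb8033094a_d43_d4b_d41_d18x1_3

theorem g__wQ_26_wN_1_rb8033094a_d43_d4b_d41_d18x1_0 : GoodKC AS k_wQ_26_wN_1_rb8033094a_d43_d4b_d41_d18x1_0 := p_wQ_26_wN_1_rb8033094a_d43_d4b_d41_d18x1_0 g__wQ_26_wN_1_rb8033094a_d43_d4b_d41_d18x1_1 g__wQ_26_wN_1_rb8033094a_d43_d4b_d41_d18x1_2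

theorem g_wQ_26_wN_1_rb8033094a_d43_d4b_d41_d18x8 : GoodKC AS c_wQ_26_wN_1_rb8033094a_d43_d4b_d41_d18x8 := p_wQ_26_wN_1_rb8033094a_d43_d4b_d41_d18x1 g__wQ_26_wN_1_rb8033094a_d43_d4b_d41_d18x1_0

theorem g__wQ_26_wN_1_rb8033094a_d43_d4b_d41_d17x1_0 : GoodKC AS k_wQ_26_wN_1_rb8033094a_d43_d4b_d41_d17x1_0 := p_wQ_26_wN_1_rb8033094a_d43_d4b_d41_d17x1_0

theorem g__wQ_26_wN_1_rb8033094a_d43_d4b_d41_d17x1_2 : GoodKC AS k_wQ_26_wN_1_rb8033094a_d43_d4b_d41_d17x1_2 := p_wQ_26_wN_1_rb8033094a_d43_d4b_d41_d17x1_2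

theorem g__wQ_26_wN_1_rb8033094a_d43_d4b_d41_d17x1_1 : GoodKC AS k_wQ_26_wN_1_rb8033094a_d43_d4b_d41_d17x1_1 := p_wQ_26_wN_1_rb8033094a_d43_d4b_d41_d17x1_1 g__wQ_26_wN_1_rb8033094a_d43_d4b_d41_d17x1_2

theorem g_wQ_26_wN_1_rb8033094a_d43_d4b_d41_d17x8 : GoodKC AS c_wQ_26_wN_1_rb8033094a_d43_d4b_d41_d17x8 := p_wQ_26_wN_1_rb8033094a_d43_d4b_d41_d17x1 g__wQ_26_wN_1_rb8033094a_d43_d4b_d41_d17x1_0 g__wQ_26_wN_1_rb8033094a_d43_d4b_d41_d17x1_1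

theorem g_wQ_26_wN_1_rb8033094a_d43_d4b_d41_d16x8 : GoodKC AS c_wQ_26_wN_1_rb8033094a_d43_d4b_d41_d16x8 := p_wQ_26_wN_1_rb8033094a_d43_d4b_d41_d16x1

theorem g__wQ_26_wN_1_rb8033094a_d43_d4b_d41_d15x1_0 : GoodKC AS k_wQ_26_wN_1_rb8033094a_d43_d4b_d41_d15x1_0 := p_wQ_26_wN_1_rb8033094a_d43_d4b_d41_d15x1_0

theorem g__wQ_26_wN_1_rb8033094a_d43_d4b_d41_d15x1_3 : GoodKC AS k_wQ_26_wN_1_rb8033094a_d43_d4b_d41_d15x1_3 := p_wQ_26_wN_1_rb8033094a_d43_d4b_d41_d15x1_3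

theorem g__wQ_26_wN_1_rb8033094a_d43_d4b_d41_d15x1_2 : GoodKC AS k_wQ_26_wN_1_rb8033094a_d43_d4b_d41_d15x1_2 := p_wQ_26_wN_1_rb8033094a_d43_d4b_d41_d15x1_2 g__wQ_26_wN_1_rb8033094a_d43_d4b_d41_d15x1_3

theorem g__wQ_26_wN_1_rb8033094a_d43_d4b_d41_d15x1_1 : GoodKC AS k_wQ_26_wN_1_rb8033094a_d43_d4b_d41_d15x1_1 := p_wQ_26_wN_1_rb8033094a_d43_d4b_d41_d15x1_1 g__wQ_26_wN_1_rb8033094a_d43_d4b_d41_d15x1_2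

theorem g__wQ_26_wN_1_rb8033094a_d43_d4b_d41_d15x1_4 : GoodKC AS k_wQ_26_wN_1_rb8033094a_d43_d4b_d41_d15x1_4 := p_wQ_26_wN_1_rb8033094a_d43_d4b_d41_d15x1_4

theorem g_wQ_26_wN_1_rb8033094a_d43_d4b_d41_d15x8 : GoodKC AS c_wQ_26_wN_1_rb8033094a_d43_d4b_d41_d15x8 := p_wQ_26_wN_1_rb8033094a_d43_d4b_d41_d15x1 g__wQ_26_wN_1_rb8033094a_d43_d4b_d41_d15x1_0 g__wQ_26_wN_1_rb8033094a_d43_d4b_d41_d15x1_1 g__wQ_26_wN_1_rb8033094a_d43_d4b_d41_d15x1_4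

theorem g__wQ_26_wN_1_rb8033094a_d43_d4b_d41_d12x1_0 : GoodKC AS k_wQ_26_wN_1_rb8033094a_d43_d4b_d41_d12x1_0 := p_wQ_26_wN_1_rb8033094a_d43_d4b_d41_d12x1_0

theorem g_wQ_26_wN_1_rb8033094a_d43_d4b_d41_d12x8 : GoodKC AS c_wQ_26_wN_1_rb8033094a_d43_d4b_d41_d12x8 := p_wQ_26_wN_1_rb8033094a_d43_d4b_d41_d12x1 g__wQ_26_wN_1_rb8033094a_d43_d4b_d41_d12x1_0

theorem g_wQ_26_wN_1_rb8033094a_d43_d4b_d41_d10x8 : GoodKC AS c_wQ_26_wN_1_rb8033094a_d43_d4b_d41_d10x8 := p_wQ_26_wN_1_rb8033094a_d43_d4b_d41_d10x1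

theorem g_wQ_26_wN_1_rb8033094a_d43_d4b_d41_d0fx8 : GoodKC AS c_wQ_26_wN_1_rb8033094a_d43_d4b_d41_d0fx8 := p_wQ_26_wN_1_rb8033094a_d43_d4b_d41_d0fx1

theorem g_wQ_26_wN_1_rb8033094a_d43_d4b_d41_d0cx8 : GoodKC AS c_wQ_26_wN_1_rb8033094a_d43_d4b_d41_d0cx8 := p_wQ_26_wN_1_rb8033094a_d43_d4b_d41_d0cx1

theorem g_wQ_26_wN_1_rb8033094a_d43_d4b_d41_d0bx8 : GoodKC AS c_wQ_26_wN_1_rb8033094a_d43_d4b_d41_d0bx8 := p_wQ_26_wN_1_rb8033094a_d43_d4b_d41_d0bx1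

theorem g_wQ_26_wN_1_rb8033094a_d43_d4b_d41_d0ax8 : GoodKC AS c_wQ_26_wN_1_rb8033094a_d43_d4b_d41_d0ax8 := p_wQ_26_wN_1_rb8033094a_d43_d4b_d41_d0ax1

theorem g_wQ_26_wN_1_rb8033094a_d43_d4b_d41_d09x8 : GoodKC AS c_wQ_26_wN_1_rb8033094a_d43_d4b_d41_d09x8 := p_wQ_26_wN_1_rb8033094a_d43_d4b_d41_d09x1

theorem g_wQ_26_wN_1_rb8033094a_d43_d4b_d41_d08x8 : GoodKC AS c_wQ_26_wN_1_rb8033094a_d43_d4b_d41_d08x8 := p_wQ_26_wN_1_rb8033094a_d43_d4b_d41_d08x1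

theorem g_wQ_26_wN_1_rb8033094a_d43_d4b_d41_d07x8 : GoodKC AS c_wQ_26_wN_1_rb8033094a_d43_d4b_d41_d07x8 := p_wQ_26_wN_1_rb8033094a_d43_d4b_d41_d07x1

theorem g_wQ_26_wN_1_rb8033094a_d43_d4b_d41_d06x8 : GoodKC AS c_wQ_26_wN_1_rb8033094a_d43_d4b_d41_d06x8 := p_wQ_26_wN_1_rb8033094a_d43_d4b_d41_d06x1

theorem g__wQ_26_wN_1_rb8033094a_d43_d4b_d41_d05x1_2 : GoodKC AS k_wQ_26_wN_1_rb8033094a_d43_d4b_d41_d05x1_2 := p_wQ_26_wN_1_rb8033094a_d43_d4b_d41_d05x1_2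

theorem g__wQ_26_wN_1_rb8033094a_d43_d4b_d41_d05x1_1 : GoodKC AS k_wQ_26_wN_1_rb8033094a_d43_d4b_d41_d05x1_1 := p_wQ_26_wN_1_rb8033094a_d43_d4b_d41_d05x1_1 g__wQ_26_wN_1_rb8033094a_d43_d4b_d41_d05x1_2

theorem g__wQ_26_wN_1_rb8033094a_d43_d4b_d41_d05x1_0 : GoodKC AS k_wQ_26_wN_1_rb8033094a_d43_d4b_d41_d05x1_0 := p_wQ_26_wN_1_rb8033094a_d43_d4b_d41_d05x1_0 g__wQ_26_wN_1_rb8033094a_d43_d4b_d41_d05x1_1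

theorem g_wQ_26_wN_1_rb8033094a_d43_d4b_d41_d05x8 : GoodKC AS c_wQ_26_wN_1_rb8033094a_d43_d4b_d41_d05x8 := p_wQ_26_wN_1_rb8033094a_d43_d4b_d41_d05x1 g__wQ_26_wN_1_rb8033094a_d43_d4b_d41_d05x1_0

theorem g_wQ_26_wN_1_rb8033094a_d43_d4b_d41_d04x8 : GoodKC AS c_wQ_26_wN_1_rb8033094a_d43_d4b_d41_d04x8 := p_wQ_26_wN_1_rb8033094a_d43_d4b_d41_d04x1

theorem g_wQ_26_wN_1_rb8033094a_d43_d4b_d41_d03x8 : GoodKC AS c_wQ_26_wN_1_rb8033094a_d43_d4b_d41_d03x8 := p_wQ_26_wN_1_rb8033094a_d43_d4b_d41_d03x1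

theorem g_wQ_26_wN_1_rb8033094a_d43_d4b_d41_d02x8 : GoodKC AS c_wQ_26_wN_1_rb8033094a_d43_d4b_d41_d02x8 := p_wQ_26_wN_1_rb8033094a_d43_d4b_d41_d02x1

theorem g__wQ_26_wN_1_rb8033094a_d43_d4bx8_2 : GoodKC AS k_wQ_26_wN_1_rb8033094a_d43_d4bx8_2 := p_wQ_26_wN_1_rb8033094a_d43_d4bx8_2

theorem g__wQ_26_wN_1_rb8033094a_d43_d4bx8_1 : GoodKC AS k_wQ_26_wN_1_rb8033094a_d43_d4bx8_1 := p_wQ_26_wN_1_rb8033094a_d43_d4bx8_1 g__wQ_26_wN_1_rb8033094a_d43_d4bx8_2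

theorem g__wQ_26_wN_1_rb8033094a_d43_d4bx8_0 : GoodKC AS k_wQ_26_wN_1_rb8033094a_d43_d4bx8_0 := p_wQ_26_wN_1_rb8033094a_d43_d4bx8_0 g__wQ_26_wN_1_rb8033094a_d43_d4bx8_1

theorem g_wQ_26_wN_1_rb8033094a_d43_d4b_d41_d00x8 : GoodKC AS c_wQ_26_wN_1_rb8033094a_d43_d4b_d41_d00x8 := p_wQ_26_wN_1_rb8033094a_d43_d4b_d41_d00x1

theorem g_wQ_26_wN_1_rb8033094a_d43_d4b_d41_d01x8 : GoodKC AS c_wQ_26_wN_1_rb8033094a_d43_d4b_d41_d01x8 := p_wQ_26_wN_1_rb8033094a_d43_d4b_d41_d01x1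

theorem g__wQ_26_wN_1_rb8033094a_d43_d4bx8_5 : GoodKC AS k_wQ_26_wN_1_rb8033094a_d43_d4bx8_5 := p_wQ_26_wN_1_rb8033094a_d43_d4bx8_5

theorem g__wQ_26_wN_1_rb8033094a_d43_d4bx8_4 : GoodKC AS k_wQ_26_wN_1_rb8033094a_d43_d4bx8_4 := p_wQ_26_wN_1_rb8033094a_d43_d4bx8_4 g__wQ_26_wN_1_rb8033094a_d43_d4bx8_5

theorem g__wQ_26_wN_1_rb8033094a_d43_d4bx8_3 : GoodKC AS k_wQ_26_wN_1_rb8033094a_d43_d4bx8_3 := p_wQ_26_wN_1_rb8033094a_d43_d4bx8_3 g__wQ_26_wN_1_rb8033094a_d43_d4bx8_4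

theorem g__wQ_26_wN_1_rb8033094a_d43_d4bx8_7 : GoodKC AS k_wQ_26_wN_1_rb8033094a_d43_d4bx8_7 := p_wQ_26_wN_1_rb8033094a_d43_d4bx8_7

theorem g__wQ_26_wN_1_rb8033094a_d43_d4bx8_6 : GoodKC AS k_wQ_26_wN_1_rb8033094a_d43_d4bx8_6 := p_wQ_26_wN_1_rb8033094a_d43_d4bx8_6 g__wQ_26_wN_1_rb8033094a_d43_d4bx8_7

theorem g_wQ_26_wN_1_rb8033094a_d43_d4b_d41_d0dx8 : GoodKC AS c_wQ_26_wN_1_rb8033094a_d43_d4b_d41_d0dx8 := p_wQ_26_wN_1_rb8033094a_d43_d4b_d41_d0dx1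

theorem g_wQ_26_wN_1_rb8033094a_d43_d4b_d41_d0ex8 : GoodKC AS c_wQ_26_wN_1_rb8033094a_d43_d4b_d41_d0ex8 := p_wQ_26_wN_1_rb8033094a_d43_d4b_d41_d0ex1

theorem g_wQ_26_wN_1_rb8033094a_d43_d4b_d41_d11x8 : GoodKC AS c_wQ_26_wN_1_rb8033094a_d43_d4b_d41_d11x8 := p_wQ_26_wN_1_rb8033094a_d43_d4b_d41_d11x1

theorem g_wQ_26_wN_1_rb8033094a_d43_d4b_d41_d13x8 : GoodKC AS c_wQ_26_wN_1_rb8033094a_d43_d4b_d41_d13x8 := p_wQ_26_wN_1_rb8033094a_d43_d4b_d41_d13x1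

theorem g__wQ_26_wN_1_rb8033094a_d43_d4b_d41_d14x1_1 : GoodKC AS k_wQ_26_wN_1_rb8033094a_d43_d4b_d41_d14x1_1 := p_wQ_26_wN_1_rb8033094a_d43_d4b_d41_d14x1_1

theorem g__wQ_26_wN_1_rb8033094a_d43_d4b_d41_d14x1_0 : GoodKC AS k_wQ_26_wN_1_rb8033094a_d43_d4b_d41_d14x1_0 := p_wQ_26_wN_1_rb8033094a_d43_d4b_d41_d14x1_0 g__wQ_26_wN_1_rb8033094a_d43_d4b_d41_d14x1_1

theorem g__wQ_26_wN_1_rb8033094a_d43_d4b_d41_d14x1_5 : GoodKC AS k_wQ_26_wN_1_rb8033094a_d43_d4b_d41_d14x1_5 := p_wQ_26_wN_1_rb8033094a_d43_d4b_d41_d14x1_5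

theorem g__wQ_26_wN_1_rb8033094a_d43_d4b_d41_d14x1_4 : GoodKC AS k_wQ_26_wN_1_rb8033094a_d43_d4b_d41_d14x1_4 := p_wQ_26_wN_1_rb8033094a_d43_d4b_d41_d14x1_4 g__wQ_26_wN_1_rb8033094a_d43_d4b_d41_d14x1_5

theorem g__wQ_26_wN_1_rb8033094a_d43_d4b_d41_d14x1_3 : GoodKC AS k_wQ_26_wN_1_rb8033094a_d43_d4b_d41_d14x1_3 := p_wQ_26_wN_1_rb8033094a_d43_d4b_d41_d14x1_3 g__wQ_26_wN_1_rb8033094a_d43_d4b_d41_d14x1_4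

theorem g__wQ_26_wN_1_rb8033094a_d43_d4b_d41_d14x1_2 : GoodKC AS k_wQ_26_wN_1_rb8033094a_d43_d4b_d41_d14x1_2 := p_wQ_26_wN_1_rb8033094a_d43_d4b_d41_d14x1_2 g__wQ_26_wN_1_rb8033094a_d43_d4b_d41_d14x1_3

theorem g_wQ_26_wN_1_rb8033094a_d43_d4b_d41_d14x8 : GoodKC AS c_wQ_26_wN_1_rb8033094a_d43_d4b_d41_d14x8 := p_wQ_26_wN_1_rb8033094a_d43_d4b_d41_d14x1 g__wQ_26_wN_1_rb8033094a_d43_d4b_d41_d14x1_0 g__wQ_26_wN_1_rb8033094a_d43_d4b_d41_d14x1_2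

theorem g_wQ_26_wN_1_rb8033094a_d43_d4b_d41_d19x8 : GoodKC AS c_wQ_26_wN_1_rb8033094a_d43_d4b_d41_d19x8 := p_wQ_26_wN_1_rb8033094a_d43_d4b_d41_d19x1

theorem g_wQ_26_wN_1_rb8033094a_d43_d4b_d41_d1bx8 : GoodKC AS c_wQ_26_wN_1_rb8033094a_d43_d4b_d41_d1bx8 := p_wQ_26_wN_1_rb8033094a_d43_d4b_d41_d1bx1

theorem g_wQ_26_wN_1_rb8033094a_d43_d4b_d41_d1cx8 : GoodKC AS c_wQ_26_wN_1_rb8033094a_d43_d4b_d41_d1cx8 := p_wQ_26_wN_1_rb8033094a_d43_d4b_d41_d1cx1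

theorem g_wQ_26_wN_1_rb8033094a_d43_d4b_d41_d1dx8 : GoodKC AS c_wQ_26_wN_1_rb8033094a_d43_d4b_d41_d1dx8 := p_wQ_26_wN_1_rb8033094a_d43_d4b_d41_d1dx1

theorem g_wQ_26_wN_1_rb8033094a_d43_d4b_d41_d1fx8 : GoodKC AS c_wQ_26_wN_1_rb8033094a_d43_d4b_d41_d1fx8 := p_wQ_26_wN_1_rb8033094a_d43_d4b_d41_d1fx1

theorem g_wQ_26_wN_1_rb8033094a_d43_d4b_d41_d21x8 : GoodKC AS c_wQ_26_wN_1_rb8033094a_d43_d4b_d41_d21x8 := p_wQ_26_wN_1_rb8033094a_d43_d4b_d41_d21x1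

theorem g_wQ_26_wN_1_rb8033094a_d43_d4b_d41_d250cx1 : GoodKC AS c_wQ_26_wN_1_rb8033094a_d43_d4b_d41_d250cx1 := p_wQ_26_wN_1_rb8033094a_d43_d4b_d41_d250cx1

theorem g_wQ_26_wN_1_rb8033094a_d43_d4b_d41_d250ax1 : GoodKC AS c_wQ_26_wN_1_rb8033094a_d43_d4b_d41_d250ax1 := p_wQ_26_wN_1_rb8033094a_d43_d4b_d41_d250ax1

theorem g_wQ_26_wN_1_rb8033094a_d43_d4b_d41_d2509x1 : GoodKC AS c_wQ_26_wN_1_rb8033094a_d43_d4b_d41_d2509x1 := p_wQ_26_wN_1_rb8033094a_d43_d4b_d41_d2509x1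

theorem g_wQ_26_wN_1_rb8033094a_d43_d4b_d41_d2508x1 : GoodKC AS c_wQ_26_wN_1_rb8033094a_d43_d4b_d41_d2508x1 := p_wQ_26_wN_1_rb8033094a_d43_d4b_d41_d2508x1

theorem g_wQ_26_wN_1_rb8033094a_d43_d4b_d41_d2507x1 : GoodKC AS c_wQ_26_wN_1_rb8033094a_d43_d4b_d41_d2507x1 := p_wQ_26_wN_1_rb8033094a_d43_d4b_d41_d2507x1

theorem g_wQ_26_wN_1_rb8033094a_d43_d4b_d41_d2506x1 : GoodKC AS c_wQ_26_wN_1_rb8033094a_d43_d4b_d41_d2506x1 := p_wQ_26_wN_1_rb8033094a_d43_d4b_d41_d2506x1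

theorem g_wQ_26_wN_1_rb8033094a_d43_d4b_d41_d2504x1 : GoodKC AS c_wQ_26_wN_1_rb8033094a_d43_d4b_d41_d2504x1 := p_wQ_26_wN_1_rb8033094a_d43_d4b_d41_d2504x1

theorem g_wQ_26_wN_1_rb8033094a_d43_d4b_d41_d2503x1 : GoodKC AS c_wQ_26_wN_1_rb8033094a_d43_d4b_d41_d2503x1 := p_wQ_26_wN_1_rb8033094a_d43_d4b_d41_d2503x1

theorem g_wQ_26_wN_1_rb8033094a_d43_d4b_d41_d2501x1 : GoodKC AS c_wQ_26_wN_1_rb8033094a_d43_d4b_d41_d2501x1 := p_wQ_26_wN_1_rb8033094a_d43_d4b_d41_d2501x1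

theorem g_wQ_26_wN_1_rb8033094a_d43_d4b_d41_d2502x1 : GoodKC AS c_wQ_26_wN_1_rb8033094a_d43_d4b_d41_d2502x1 := p_wQ_26_wN_1_rb8033094a_d43_d4b_d41_d2502x1

theorem g_wQ_26_wN_1_rb8033094a_d43_d4b_d41_d2505x1 : GoodKC AS c_wQ_26_wN_1_rb8033094a_d43_d4b_d41_d2505x1 := p_wQ_26_wN_1_rb8033094a_d43_d4b_d41_d2505x1

theorem g__wQ_26_wN_1_rb8033094a_d43_d4b_d41_d25x1_1 : GoodKC AS k_wQ_26_wN_1_rb8033094a_d43_d4b_d41_d25x1_1 := p_wQ_26_wN_1_rb8033094a_d43_d4b_d41_d25x1_1 g_wQ_26_wN_1_rb8033094a_d43_d4b_d41_d2509x1 g_wQ_26_wN_1_rb8033094a_d43_d4b_d41_d2508x1 g_wQ_26_wN_1_rb8033094a_d43_d4b_d41_d2507x1 g_wQ_26_wN_1_rb8033094a_d43_d4b_d41_d2506x1 g_wQ_26_wN_1_rb8033094a_d43_d4b_d41_d2504x1 g_wQ_26_wN_1_rb8033094a_d43_d4b_d41_d2503x1 g_wQ_26_wN_1_rb8033094a_d43_d4b_d41_d2501x1 g_wQ_26_wN_1_rb8033094a_d43_d4b_d41_d2502x1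 g_wQ_26_wN_1_rb8033094a_d43_d4b_d41_d2505x1

theorem g__wQ_26_wN_1_rb8033094a_d43_d4b_d41_d25x1_0 : GoodKC AS k_wQ_26_wN_1_rb8033094a_d43_d4b_d41_d25x1_0 := p_wQ_26_wN_1_rb8033094a_d43_d4b_d41_d25x1_0 g__wQ_26_wN_1_rb8033094a_d43_d4b_d41_d25x1_1

theorem g__wQ_26_wN_1_rb8033094a_d43_d4b_d41_d2500v1_0 : GoodKC AS k_wQ_26_wN_1_rb8033094a_d43_d4b_d41_d2500v1_0 := p_wQ_26_wN_1_rb8033094a_d43_d4b_d41_d2500v1_0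

theorem g__wQ_26_wN_1_rb8033094a_d43_d4b_d41_d2500v1_1 : GoodKC AS k_wQ_26_wN_1_rb8033094a_d43_d4b_d41_d2500v1_1 := p_wQ_26_wN_1_rb8033094a_d43_d4b_d41_d2500v1_1

theorem g__wQ_26_wN_1_rb8033094a_d43_d4b_d41_d2500v1_3 : GoodKC AS k_wQ_26_wN_1_rb8033094a_d43_d4b_d41_d2500v1_3 := p_wQ_26_wN_1_rb8033094a_d43_d4b_d41_d2500v1_3

theorem g__wQ_26_wN_1_rb8033094a_d43_d4b_d41_d2500v1_2 : GoodKC AS k_wQ_26_wN_1_rb8033094a_d43_d4b_d41_d2500v1_2 := p_wQ_26_wN_1_rb8033094a_d43_d4b_d41_d2500v1_2 g__wQ_26_wN_1_rb8033094a_d43_d4b_d41_d2500v1_3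

theorem g__wQ_26_wN_1_rb8033094a_d43_d4b_d41_d2500v1_6 : GoodKC AS k_wQ_26_wN_1_rb8033094a_d43_d4b_d41_d2500v1_6 := p_wQ_26_wN_1_rb8033094a_d43_d4b_d41_d2500v1_6

theorem g__wQ_26_wN_1_rb8033094a_d43_d4b_d41_d2500v1_5 : GoodKC AS k_wQ_26_wN_1_rb8033094a_d43_d4b_d41_d2500v1_5 := p_wQ_26_wN_1_rb8033094a_d43_d4b_d41_d2500v1_5 g__wQ_26_wN_1_rb8033094a_d43_d4b_d41_d2500v1_6

theorem g__wQ_26_wN_1_rb8033094a_d43_d4b_d41_d2500v1_11 : GoodKC AS k_wQ_26_wN_1_rb8033094a_d43_d4b_d41_d2500v1_11 := p_wQ_26_wN_1_rb8033094a_d43_d4b_d41_d2500v1_11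

theorem g__wQ_26_wN_1_rb8033094a_d43_d4b_d41_d2500v1_10 : GoodKC AS k_wQ_26_wN_1_rb8033094a_d43_d4b_d41_d2500v1_10 := p_wQ_26_wN_1_rb8033094a_d43_d4b_d41_d2500v1_10 g__wQ_26_wN_1_rb8033094a_d43_d4b_d41_d2500v1_11

theorem g__wQ_26_wN_1_rb8033094a_d43_d4b_d41_d2500v1_9 : GoodKC AS k_wQ_26_wN_1_rb8033094a_d43_d4b_d41_d2500v1_9 := p_wQ_26_wN_1_rb8033094a_d43_d4b_d41_d2500v1_9 g__wQ_26_wN_1_rb8033094a_d43_d4b_d41_d2500v1_10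

theorem g__wQ_26_wN_1_rb8033094a_d43_d4b_d41_d2500v1_12 : GoodKC AS k_wQ_26_wN_1_rb8033094a_d43_d4b_d41_d2500v1_12 := p_wQ_26_wN_1_rb8033094a_d43_d4b_d41_d2500v1_12

theorem g__wQ_26_wN_1_rb8033094a_d43_d4b_d41_d2500v1_8 : GoodKC AS k_wQ_26_wN_1_rb8033094a_d43_d4b_d41_d2500v1_8 := p_wQ_26_wN_1_rb8033094a_d43_d4b_d41_d2500v1_8 g__wQ_26_wN_1_rb8033094a_d43_d4b_d41_d2500v1_9 g__wQ_26_wN_1_rb8033094a_d43_d4b_d41_d2500v1_12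

theorem g__wQ_26_wN_1_rb8033094a_d43_d4b_d41_d2500v1_7 : GoodKC AS k_wQ_26_wN_1_rb8033094a_d43_d4b_d41_d2500v1_7 := p_wQ_26_wN_1_rb8033094a_d43_d4b_d41_d2500v1_7 g__wQ_26_wN_1_rb8033094a_d43_d4b_d41_d2500v1_8

theorem g__wQ_26_wN_1_rb8033094a_d43_d4b_d41_d2500v1_4 : GoodKC AS k_wQ_26_wN_1_rb8033094a_d43_d4b_d41_d2500v1_4 := p_wQ_26_wN_1_rb8033094a_d43_d4b_d41_d2500v1_4 g__wQ_26_wN_1_rb8033094a_d43_d4b_d41_d2500v1_5 g__wQ_26_wN_1_rb8033094a_d43_d4b_d41_d2500v1_7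

theorem g__wQ_26_wN_1_rb8033094a_d43_d4b_d41_d2500v1_16 : GoodKC AS k_wQ_26_wN_1_rb8033094a_d43_d4b_d41_d2500v1_16 := p_wQ_26_wN_1_rb8033094a_d43_d4b_d41_d2500v1_16

theorem g__wQ_26_wN_1_rb8033094a_d43_d4b_d41_d2500v1_18 : GoodKC AS k_wQ_26_wN_1_rb8033094a_d43_d4b_d41_d2500v1_18 := p_wQ_26_wN_1_rb8033094a_d43_d4b_d41_d2500v1_18

theorem g__wQ_26_wN_1_rb8033094a_d43_d4b_d41_d2500v1_17 : GoodKC AS k_wQ_26_wN_1_rb8033094a_d43_d4b_d41_d2500v1_17 := p_wQ_26_wN_1_rb8033094a_d43_d4b_d41_d2500v1_17 g__wQ_26_wN_1_rb8033094a_d43_d4b_d41_d2500v1_18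

theorem g__wQ_26_wN_1_rb8033094a_d43_d4b_d41_d2500v1_19 : GoodKC AS k_wQ_26_wN_1_rb8033094a_d43_d4b_d41_d2500v1_19 := p_wQ_26_wN_1_rb8033094a_d43_d4b_d41_d2500v1_19

theorem g__wQ_26_wN_1_rb8033094a_d43_d4b_d41_d2500v1_21 : GoodKC AS k_wQ_26_wN_1_rb8033094a_d43_d4b_d41_d2500v1_21 := p_wQ_26_wN_1_rb8033094a_d43_d4b_d41_d2500v1_21

theorem g__wQ_26_wN_1_rb8033094a_d43_d4b_d41_d2500v1_20 : GoodKC AS k_wQ_26_wN_1_rb8033094a_d43_d4b_d41_d2500v1_20 := p_wQ_26_wN_1_rb8033094a_d43_d4b_d41_d2500v1_20 g__wQ_26_wN_1_rb8033094a_d43_d4b_d41_d2500v1_21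

theorem g__wQ_26_wN_1_rb8033094a_d43_d4b_d41_d2500v1_15 : GoodKC AS k_wQ_26_wN_1_rb8033094a_d43_d4b_d41_d2500v1_15 := p_wQ_26_wN_1_rb8033094a_d43_d4b_d41_d2500v1_15 g__wQ_26_wN_1_rb8033094a_d43_d4b_d41_d2500v1_16 g__wQ_26_wN_1_rb8033094a_d43_d4b_d41_d2500v1_17 g__wQ_26_wN_1_rb8033094a_d43_d4b_d41_d2500v1_19 g__wQ_26_wN_1_rb8033094a_d43_d4b_d41_d2500v1_20

theorem g__wQ_26_wN_1_rb8033094a_d43_d4b_d41_d2500v1_14 : GoodKC AS k_wQ_26_wN_1_rb8033094a_d43_d4b_d41_d2500v1_14 := p_wQ_26_wN_1_rb8033094a_d43_d4b_d41_d2500v1_14 g__wQ_26_wN_1_rb8033094a_d43_d4b_d41_d2500v1_15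

theorem g__wQ_26_wN_1_rb8033094a_d43_d4b_d41_d2500v1_13 : GoodKC AS k_wQ_26_wN_1_rb8033094a_d43_d4b_d41_d2500v1_13 := p_wQ_26_wN_1_rb8033094a_d43_d4b_d41_d2500v1_13 g__wQ_26_wN_1_rb8033094a_d43_d4b_d41_d2500v1_14

theorem g_wQ_26_wN_1_rb8033094a_d43_d4b_d41_d2500x1 : GoodKC AS c_wQ_26_wN_1_rb8033094a_d43_d4b_d41_d2500x1 := p_wQ_26_wN_1_rb8033094a_d43_d4b_d41_d2500x1 g__wQ_26_wN_1_rb8033094a_d43_d4b_d41_d2500v1_0 g__wQ_26_wN_1_rb8033094a_d43_d4b_d41_d2500v1_1 g__wQ_26_wN_1_rb8033094a_d43_d4b_d41_d2500v1_2 g__wQ_26_wN_1_rb8033094a_d43_d4b_d41_d2500v1_4 g__wQ_26_wN_1_rb8033094a_d43_d4b_d41_d2500v1_13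

theorem g__wQ_26_wN_1_rb8033094a_d43_d4b_d41_d25x1_4 : GoodKC AS k_wQ_26_wN_1_rb8033094a_d43_d4b_d41_d25x1_4 := p_wQ_26_wN_1_rb8033094a_d43_d4b_d41_d25x1_4

theorem g__wQ_26_wN_1_rb8033094a_d43_d4b_d41_d25x1_6 : GoodKC AS k_wQ_26_wN_1_rb8033094a_d43_d4b_d41_d25x1_6 := p_wQ_26_wN_1_rb8033094a_d43_d4b_d41_d25x1_6

theorem g__wQ_26_wN_1_rb8033094a_d43_d4b_d41_d25x1_5 : GoodKC AS k_wQ_26_wN_1_rb8033094a_d43_d4b_d41_d25x1_5 := p_wQ_26_wN_1_rb8033094a_d43_d4b_d41_d25x1_5 g__wQ_26_wN_1_rb8033094a_d43_d4b_d41_d25x1_6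

theorem g__wQ_26_wN_1_rb8033094a_d43_d4b_d41_d25x1_3 : GoodKC AS k_wQ_26_wN_1_rb8033094a_d43_d4b_d41_d25x1_3 := p_wQ_26_wN_1_rb8033094a_d43_d4b_d41_d25x1_3 g__wQ_26_wN_1_rb8033094a_d43_d4b_d41_d25x1_4 g__wQ_26_wN_1_rb8033094a_d43_d4b_d41_d25x1_5

theorem g__wQ_26_wN_1_rb8033094a_d43_d4b_d41_d25x1_7 : GoodKC AS k_wQ_26_wN_1_rb8033094a_d43_d4b_d41_d25x1_7 := p_wQ_26_wN_1_rb8033094a_d43_d4b_d41_d25x1_7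

theorem g__wQ_26_wN_1_rb8033094a_d43_d4b_d41_d25x1_2 : GoodKC AS k_wQ_26_wN_1_rb8033094a_d43_d4b_d41_d25x1_2 := p_wQ_26_wN_1_rb8033094a_d43_d4b_d41_d25x1_2 g__wQ_26_wN_1_rb8033094a_d43_d4b_d41_d25x1_3 g__wQ_26_wN_1_rb8033094a_d43_d4b_d41_d25x1_7

theorem g__wQ_26_wN_1_rb8033094a_d43_d4b_d41_d25x1_9 : GoodKC AS k_wQ_26_wN_1_rb8033094a_d43_d4b_d41_d25x1_9 := p_wQ_26_wN_1_rb8033094a_d43_d4b_d41_d25x1_9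

theorem g__wQ_26_wN_1_rb8033094a_d43_d4b_d41_d25x1_11 : GoodKC AS k_wQ_26_wN_1_rb8033094a_d43_d4b_d41_d25x1_11 := p_wQ_26_wN_1_rb8033094a_d43_d4b_d41_d25x1_11

theorem g__wQ_26_wN_1_rb8033094a_d43_d4b_d41_d25x1_10 : GoodKC AS k_wQ_26_wN_1_rb8033094a_d43_d4b_d41_d25x1_10 := p_wQ_26_wN_1_rb8033094a_d43_d4b_d41_d25x1_10 g__wQ_26_wN_1_rb8033094a_d43_d4b_d41_d25x1_11

theorem g__wQ_26_wN_1_rb8033094a_d43_d4b_d41_d25x1_12 : GoodKC AS k_wQ_26_wN_1_rb8033094a_d43_d4b_d41_d25x1_12 := p_wQ_26_wN_1_rb8033094a_d43_d4b_d41_d25x1_12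

theorem g__wQ_26_wN_1_rb8033094a_d43_d4b_d41_d25x1_8 : GoodKC AS k_wQ_26_wN_1_rb8033094a_d43_d4b_d41_d25x1_8 := p_wQ_26_wN_1_rb8033094a_d43_d4b_d41_d25x1_8 g__wQ_26_wN_1_rb8033094a_d43_d4b_d41_d25x1_9 g__wQ_26_wN_1_rb8033094a_d43_d4b_d41_d25x1_10 g__wQ_26_wN_1_rb8033094a_d43_d4b_d41_d25x1_12

theorem g_wQ_26_wN_1_rb8033094a_d43_d4b_d41_d250bx1 : GoodKC AS c_wQ_26_wN_1_rb8033094a_d43_d4b_d41_d250bx1 := p_wQ_26_wN_1_rb8033094a_d43_d4b_d41_d250bx1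

theorem g_wQ_26_wN_1_rb8033094a_d43_d4b_d41_d25x8 : GoodKC AS c_wQ_26_wN_1_rb8033094a_d43_d4b_d41_d25x8 := p_wQ_26_wN_1_rb8033094a_d43_d4b_d41_d25x1 g_wQ_26_wN_1_rb8033094a_d43_d4b_d41_d250cx1 g_wQ_26_wN_1_rb8033094a_d43_d4b_d41_d250ax1 g__wQ_26_wN_1_rb8033094a_d43_d4b_d41_d25x1_0 g_wQ_26_wN_1_rb8033094a_d43_d4b_d41_d2500x1 g__wQ_26_wN_1_rb8033094a_d43_d4b_d41_d25x1_2 g__wQ_26_wN_1_rb8033094a_d43_d4b_d41_d25x1_8 g_wQ_26_wN_1_rb8033094a_d43_d4b_d41_d250bx1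

theorem g_wQ_26_wN_1_rb8033094a_d43_d4b_d41_d27x8 : GoodKC AS c_wQ_26_wN_1_rb8033094a_d43_d4b_d41_d27x8 := p_wQ_26_wN_1_rb8033094a_d43_d4b_d41_d27x1

theorem g_wQ_26_wN_1_rb8033094a_d43_d4bx2 : GoodKC AS c_wQ_26_wN_1_rb8033094a_d43_d4bx2 := p_wQ_26_wN_1_rb8033094a_d43_d4bx8 g_wQ_26_wN_1_rb8033094a_d43_d4b_d41_d28x8 g_wQ_26_wN_1_rb8033094a_d43_d4b_d41_d26x8 g_wQ_26_wN_1_rb8033094a_d43_d4b_d41_d24x8 g_wQ_26_wN_1_rb8033094a_d43_d4b_d41_d23x8 g_wQ_26_wN_1_rb8033094a_d43_d4b_d41_d22x8 g_wQ_26_wN_1_rb8033094a_d43_d4b_d41_d20x8 g_wQ_26_wN_1_rb8033094a_d43_d4b_d41_d1ex8 g_wQ_26_wN_1_rb8033094a_d43_d4b_d41_d1ax8 g_wQ_26_wN_1_rb8033094a_d43_d4b_d41_d18x8 g_wQ_26_wN_1_rb8033094a_d43_d4b_d41_d17x8 g_wQ_26_wN_1_rb8033094a_d43_d4b_d41_d16x8 g_wQ_26_wN_1_rb8033094a_d43_d4b_d41_d15x8 g_wQ_26_wN_1_rb8033094a_d43_d4b_d41_d12x8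 g_wQ_26_wN_1_rb8033094a_d43_d4b_d41_d10x8 g_wQ_26_wN_1_rb8033094a_d43_d4b_d41_d0fx8 g_wQ_26_wN_1_rb8033094a_d43_d4b_d41_d0cx8 g_wQ_26_wN_1_rb8033094a_d43_d4b_d41_d0bx8 g_wQ_26_wN_1_rb8033094a_d43_d4b_d41_d0ax8 g_wQ_26_wN_1_rb8033094a_d43_d4b_d41_d09x8 g_wQ_26_wN_1_rb8033094a_d43_d4b_d41_d08x8 g_wQ_26_wN_1_rb8033094a_d43_d4b_d41_d07x8 g_wQ_26_wN_1_rb8033094a_d43_d4b_d41_d06x8 g_wQ_26_wN_1_rb8033094a_d43_d4b_d41_d05x8 g_wQ_26_wN_1_rb8033094a_d43_d4b_d41_d04x8 g_wQ_26_wN_1_rb8033094a_d43_d4b_d41_d03x8 g_wQ_26_wN_1_rb8033094a_d43_d4b_d41_d02x8 g__wQ_26_wN_1_rb8033094a_d43_d4bx8_0 g_wQ_26_wN_1_rb8033094a_d43_d4b_d41_d00x8 g_wQ_26_wN_1_rb8033094a_d43_d4b_d41_d01x8 g__wQ_26_wN_1_rb8033094a_d43_d4bx8_3 g__wQ_26_wN_1_rb8033094a_d43_d4bx8_6 g_wQ_26_wN_1_rb8033094a_d43_d4b_d41_d0dx8 g_wQ_26_wN_1_rb8033094a_d43_d4b_d41_d0ex8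 g_wQ_26_wN_1_rb8033094a_d43_d4b_d41_d11x8 g_wQ_26_wN_1_rb8033094a_d43_d4b_d41_d13x8 g_wQ_26_wN_1_rb8033094a_d43_d4b_d41_d14x8 g_wQ_26_wN_1_rb8033094a_d43_d4b_d41_d19x8 g_wQ_26_wN_1_rb8033094a_d43_d4b_d41_d1bx8 g_wQ_26_wN_1_rb8033094a_d43_d4b_d41_d1cx8 g_wQ_26_wN_1_rb8033094a_d43_d4b_d41_d1dx8 g_wQ_26_wN_1_rb8033094a_d43_d4b_d41_d1fx8 g_wQ_26_wN_1_rb8033094a_d43_d4b_d41_d21x8 g_wQ_26_wN_1_rb8033094a_d43_d4b_d41_d25x8 g_wQ_26_wN_1_rb8033094a_d43_d4b_d41_d27x8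

theorem g_wQ_26_wN_1_rb8033094a_d43_d4fx2 : GoodKC AS c_wQ_26_wN_1_rb8033094a_d43_d4fx2 := p_wQ_26_wN_1_rb8033094a_d43_d4fx2

theorem g_wQ_26_wN_1_rb8033094a_d43_d50x2 : GoodKC AS c_wQ_26_wN_1_rb8033094a_d43_d50x2 := p_wQ_26_wN_1_rb8033094a_d43_d50x2

theorem g_wQ_26_wN_1_rb8033094a_d43_d51x2 : GoodKC AS c_wQ_26_wN_1_rb8033094a_d43_d51x2 := p_wQ_26_wN_1_rb8033094a_d43_d51x2

theorem g_wQ_26_wN_1_rb8033094a_d43_d53_d41_d42x9 : GoodKC AS c_wQ_26_wN_1_rb8033094a_d43_d53_d41_d42x9 := p_wQ_26_wN_1_rb8033094a_d43_d53_d41_d42x1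

theorem g_wQ_26_wN_1_rb8033094a_d43_d53_d41_d41x9 : GoodKC AS c_wQ_26_wN_1_rb8033094a_d43_d53_d41_d41x9 := p_wQ_26_wN_1_rb8033094a_d43_d53_d41_d41x1

theorem g_wQ_26_wN_1_rb8033094a_d43_d53_d41_d3fx9 : GoodKC AS c_wQ_26_wN_1_rb8033094a_d43_d53_d41_d3fx9 := p_wQ_26_wN_1_rb8033094a_d43_d53_d41_d3fx1

theorem g_wQ_26_wN_1_rb8033094a_d43_d53_d41_d3dx9 : GoodKC AS c_wQ_26_wN_1_rb8033094a_d43_d53_d41_d3dx9 := p_wQ_26_wN_1_rb8033094a_d43_d53_d41_d3dx1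

theorem g__wQ_26_wN_1_rb8033094a_d43_d53_d41_d3c_1 : GoodKC AS k_wQ_26_wN_1_rb8033094a_d43_d53_d41_d3c_1 := p_wQ_26_wN_1_rb8033094a_d43_d53_d41_d3c_1

theorem g__wQ_26_wN_1_rb8033094a_d43_d53_d41_d3c_0 : GoodKC AS k_wQ_26_wN_1_rb8033094a_d43_d53_d41_d3c_0 := p_wQ_26_wN_1_rb8033094a_d43_d53_d41_d3c_0 g__wQ_26_wN_1_rb8033094a_d43_d53_d41_d3c_1

theorem g__wQ_26_wN_1_rb8033094a_d43_d53_d41_d3c_2 : GoodKC AS k_wQ_26_wN_1_rb8033094a_d43_d53_d41_d3c_2 := p_wQ_26_wN_1_rb8033094a_d43_d53_d41_d3c_2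

theorem g__wQ_26_wN_1_rb8033094a_d43_d53_d41_d3c_5 : GoodKC AS k_wQ_26_wN_1_rb8033094a_d43_d53_d41_d3c_5 := p_wQ_26_wN_1_rb8033094a_d43_d53_d41_d3c_5

theorem g__wQ_26_wN_1_rb8033094a_d43_d53_d41_d3c_4 : GoodKC AS k_wQ_26_wN_1_rb8033094a_d43_d53_d41_d3c_4 := p_wQ_26_wN_1_rb8033094a_d43_d53_d41_d3c_4 g__wQ_26_wN_1_rb8033094a_d43_d53_d41_d3c_5

theorem g__wQ_26_wN_1_rb8033094a_d43_d53_d41_d3c_6 : GoodKC AS k_wQ_26_wN_1_rb8033094a_d43_d53_d41_d3c_6 := p_wQ_26_wN_1_rb8033094a_d43_d53_d41_d3c_6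

theorem g__wQ_26_wN_1_rb8033094a_d43_d53_d41_d3c_3 : GoodKC AS k_wQ_26_wN_1_rb8033094a_d43_d53_d41_d3c_3 := p_wQ_26_wN_1_rb8033094a_d43_d53_d41_d3c_3 g__wQ_26_wN_1_rb8033094a_d43_d53_d41_d3c_4 g__wQ_26_wN_1_rb8033094a_d43_d53_d41_d3c_6

theorem g__wQ_26_wN_1_rb8033094a_d43_d53_d41_d3c_8 : GoodKC AS k_wQ_26_wN_1_rb8033094a_d43_d53_d41_d3c_8 := p_wQ_26_wN_1_rb8033094a_d43_d53_d41_d3c_8

theorem g__wQ_26_wN_1_rb8033094a_d43_d53_d41_d3c_15 : GoodKC AS k_wQ_26_wN_1_rb8033094a_d43_d53_d41_d3c_15 := p_wQ_26_wN_1_rb8033094a_d43_d53_d41_d3c_15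

theorem g__wQ_26_wN_1_rb8033094a_d43_d53_d41_d3c_16 : GoodKC AS k_wQ_26_wN_1_rb8033094a_d43_d53_d41_d3c_16 := p_wQ_26_wN_1_rb8033094a_d43_d53_d41_d3c_16

theorem g__wQ_26_wN_1_rb8033094a_d43_d53_d41_d3c_17 : GoodKC AS k_wQ_26_wN_1_rb8033094a_d43_d53_d41_d3c_17 := p_wQ_26_wN_1_rb8033094a_d43_d53_d41_d3c_17

theorem g__wQ_26_wN_1_rb8033094a_d43_d53_d41_d3c_14 : GoodKC AS k_wQ_26_wN_1_rb8033094a_d43_d53_d41_d3c_14 := p_wQ_26_wN_1_rb8033094a_d43_d53_d41_d3c_14 g__wQ_26_wN_1_rb8033094a_d43_d53_d41_d3c_15 g__wQ_26_wN_1_rb8033094a_d43_d53_d41_d3c_16 g__wQ_26_wN_1_rb8033094a_d43_d53_d41_d3c_17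

theorem g__wQ_26_wN_1_rb8033094a_d43_d53_d41_d3c_13 : GoodKC AS k_wQ_26_wN_1_rb8033094a_d43_d53_d41_d3c_13 := p_wQ_26_wN_1_rb8033094a_d43_d53_d41_d3c_13 g__wQ_26_wN_1_rb8033094a_d43_d53_d41_d3c_14

theorem g__wQ_26_wN_1_rb8033094a_d43_d53_d41_d3c_12 : GoodKC AS k_wQ_26_wN_1_rb8033094a_d43_d53_d41_d3c_12 := p_wQ_26_wN_1_rb8033094a_d43_d53_d41_d3c_12 g__wQ_26_wN_1_rb8033094a_d43_d53_d41_d3c_13

theorem g__wQ_26_wN_1_rb8033094a_d43_d53_d41_d3c_11 : GoodKC AS k_wQ_26_wN_1_rb8033094a_d43_d53_d41_d3c_11 := p_wQ_26_wN_1_rb8033094a_d43_d53_d41_d3c_11 g__wQ_26_wN_1_rb8033094a_d43_d53_d41_d3c_12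

theorem g__wQ_26_wN_1_rb8033094a_d43_d53_d41_d3c_10 : GoodKC AS k_wQ_26_wN_1_rb8033094a_d43_d53_d41_d3c_10 := p_wQ_26_wN_1_rb8033094a_d43_d53_d41_d3c_10 g__wQ_26_wN_1_rb8033094a_d43_d53_d41_d3c_11

theorem g__wQ_26_wN_1_rb8033094a_d43_d53_d41_d3c_9 : GoodKC AS k_wQ_26_wN_1_rb8033094a_d43_d53_d41_d3c_9 := p_wQ_26_wN_1_rb8033094a_d43_d53_d41_d3c_9 g__wQ_26_wN_1_rb8033094a_d43_d53_d41_d3c_10

theorem g__wQ_26_wN_1_rb8033094a_d43_d53_d41_d3c_7 : GoodKC AS k_wQ_26_wN_1_rb8033094a_d43_d53_d41_d3c_7 := p_wQ_26_wN_1_rb8033094a_d43_d53_d41_d3c_7 g__wQ_26_wN_1_rb8033094a_d43_d53_d41_d3c_8 g__wQ_26_wN_1_rb8033094a_d43_d53_d41_d3c_9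

theorem g_wQ_26_wN_1_rb8033094a_d43_d53_d41_d3cx9 : GoodKC AS c_wQ_26_wN_1_rb8033094a_d43_d53_d41_d3cx9 := p_wQ_26_wN_1_rb8033094a_d43_d53_d41_d3c g__wQ_26_wN_1_rb8033094a_d43_d53_d41_d3c_0 g__wQ_26_wN_1_rb8033094a_d43_d53_d41_d3c_2 g__wQ_26_wN_1_rb8033094a_d43_d53_d41_d3c_3 g__wQ_26_wN_1_rb8033094a_d43_d53_d41_d3c_7

theorem g_wQ_26_wN_1_rb8033094a_d43_d53_d41_d3bx9 : GoodKC AS c_wQ_26_wN_1_rb8033094a_d43_d53_d41_d3bx9 := p_wQ_26_wN_1_rb8033094a_d43_d53_d41_d3bx1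

theorem g_wQ_26_wN_1_rb8033094a_d43_d53_d41_d3a0d_d51_d27 : GoodKC AS c_wQ_26_wN_1_rb8033094a_d43_d53_d41_d3a0d_d51_d27 := p_wQ_26_wN_1_rb8033094a_d43_d53_d41_d3a0d_d51_d27

theorem g_wQ_26_wN_1_rb8033094a_d43_d53_d41_d3a0d_d51_d26 : GoodKC AS c_wQ_26_wN_1_rb8033094a_d43_d53_d41_d3a0d_d51_d26 := p_wQ_26_wN_1_rb8033094a_d43_d53_d41_d3a0d_d51_d26

theorem g_wQ_26_wN_1_rb8033094a_d43_d53_d41_d3a0d_d51_d24 : GoodKC AS c_wQ_26_wN_1_rb8033094a_d43_d53_d41_d3a0d_d51_d24 := p_wQ_26_wN_1_rb8033094a_d43_d53_d41_d3a0d_d51_d24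

theorem g_wQ_26_wN_1_rb8033094a_d43_d53_d41_d3a0d_d51_d21 : GoodKC AS c_wQ_26_wN_1_rb8033094a_d43_d53_d41_d3a0d_d51_d21 := p_wQ_26_wN_1_rb8033094a_d43_d53_d41_d3a0d_d51_d21

theorem g_wQ_26_wN_1_rb8033094a_d43_d53_d41_d3a0d_d51_d1f : GoodKC AS c_wQ_26_wN_1_rb8033094a_d43_d53_d41_d3a0d_d51_d1f := p_wQ_26_wN_1_rb8033094a_d43_d53_d41_d3a0d_d51_d1f

theorem g_wQ_26_wN_1_rb8033094a_d43_d53_d41_d3a0d_d51_d1e : GoodKC AS c_wQ_26_wN_1_rb8033094a_d43_d53_d41_d3a0d_d51_d1e := p_wQ_26_wN_1_rb8033094a_d43_d53_d41_d3a0d_d51_d1e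

theorem g_wQ_26_wN_1_rb8033094a_d43_d53_d41_d3a0d_d51_d1d : GoodKC AS c_wQ_26_wN_1_rb8033094a_d43_d53_d41_d3a0d_d51_d1d := p_wQ_26_wN_1_rb8033094a_d43_d53_d41_d3a0d_d51_d1d

theorem g_wQ_26_wN_1_rb8033094a_d43_d53_d41_d3a0d_d51_d1c : GoodKC AS c_wQ_26_wN_1_rb8033094a_d43_d53_d41_d3a0d_d51_d1c := p_wQ_26_wN_1_rb8033094a_d43_d53_d41_d3a0d_d51_d1c

theorem g_wQ_26_wN_1_rb8033094a_d43_d53_d41_d3a0d_d51_d1b : GoodKC AS c_wQ_26_wN_1_rb8033094a_d43_d53_d41_d3a0d_d51_d1b := p_wQ_26_wN_1_rb8033094a_d43_d53_d41_d3a0d_d51_d1b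

theorem g_wQ_26_wN_1_rb8033094a_d43_d53_d41_d3a0d_d51_d1a : GoodKC AS c_wQ_26_wN_1_rb8033094a_d43_d53_d41_d3a0d_d51_d1a := p_wQ_26_wN_1_rb8033094a_d43_d53_d41_d3a0d_d51_d1a

theorem g_wQ_26_wN_1_rb8033094a_d43_d53_d41_d3a0d_d51_d19 : GoodKC AS c_wQ_26_wN_1_rb8033094a_d43_d53_d41_d3a0d_d51_d19 := p_wQ_26_wN_1_rb8033094a_d43_d53_d41_d3a0d_d51_d19

theorem g_wQ_26_wN_1_rb8033094a_d43_d53_d41_d3a0d_d51_d18 : GoodKC AS c_wQ_26_wN_1_rb8033094a_d43_d53_d41_d3a0d_d51_d18 := p_wQ_26_wN_1_rb8033094a_d43_d53_d41_d3a0d_d51_d18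

theorem g_wQ_26_wN_1_rb8033094a_d43_d53_d41_d3a0d_d51_d13 : GoodKC AS c_wQ_26_wN_1_rb8033094a_d43_d53_d41_d3a0d_d51_d13 := p_wQ_26_wN_1_rb8033094a_d43_d53_d41_d3a0d_d51_d13

theorem g_wQ_26_wN_1_rb8033094a_d43_d53_d41_d3a0d_d51_d11 : GoodKC AS c_wQ_26_wN_1_rb8033094a_d43_d53_d41_d3a0d_d51_d11 := p_wQ_26_wN_1_rb8033094a_d43_d53_d41_d3a0d_d51_d11

theorem g_wQ_26_wN_1_rb8033094a_d43_d53_d41_d3a0d_d51_d10 : GoodKC AS c_wQ_26_wN_1_rb8033094a_d43_d53_d41_d3a0d_d51_d10 := p_wQ_26_wN_1_rb8033094a_d43_d53_d41_d3a0d_d51_d10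

theorem g_wQ_26_wN_1_rb8033094a_d43_d53_d41_d3a0d_d51_d0e : GoodKC AS c_wQ_26_wN_1_rb8033094a_d43_d53_d41_d3a0d_d51_d0e := p_wQ_26_wN_1_rb8033094a_d43_d53_d41_d3a0d_d51_d0e

theorem g_wQ_26_wN_1_rb8033094a_d43_d53_d41_d3a0d_d51_d0d : GoodKC AS c_wQ_26_wN_1_rb8033094a_d43_d53_d41_d3a0d_d51_d0d := p_wQ_26_wN_1_rb8033094a_d43_d53_d41_d3a0d_d51_d0d

theorem g_wQ_26_wN_1_rb8033094a_d43_d53_d41_d3a0d_d51_d0c : GoodKC AS c_wQ_26_wN_1_rb8033094a_d43_d53_d41_d3a0d_d51_d0c := p_wQ_26_wN_1_rb8033094a_d43_d53_d41_d3a0d_d51_d0c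

theorem g_wQ_26_wN_1_rb8033094a_d43_d53_d41_d3a0d_d51_d0b : GoodKC AS c_wQ_26_wN_1_rb8033094a_d43_d53_d41_d3a0d_d51_d0b := p_wQ_26_wN_1_rb8033094a_d43_d53_d41_d3a0d_d51_d0b

theorem g_wQ_26_wN_1_rb8033094a_d43_d53_d41_d3a0d_d51_d09 : GoodKC AS c_wQ_26_wN_1_rb8033094a_d43_d53_d41_d3a0d_d51_d09 := p_wQ_26_wN_1_rb8033094a_d43_d53_d41_d3a0d_d51_d09

theorem g_wQ_26_wN_1_rb8033094a_d43_d53_d41_d3a0d_d51_d08 : GoodKC AS c_wQ_26_wN_1_rb8033094a_d43_d53_d41_d3a0d_d51_d08 := p_wQ_26_wN_1_rb8033094a_d43_d53_d41_d3a0d_d51_d08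

theorem g_wQ_26_wN_1_rb8033094a_d43_d53_d41_d3a0d_d51_d07 : GoodKC AS c_wQ_26_wN_1_rb8033094a_d43_d53_d41_d3a0d_d51_d07 := p_wQ_26_wN_1_rb8033094a_d43_d53_d41_d3a0d_d51_d07

theorem g_wQ_26_wN_1_rb8033094a_d43_d53_d41_d3a0d_d51_d06 : GoodKC AS c_wQ_26_wN_1_rb8033094a_d43_d53_d41_d3a0d_d51_d06 := p_wQ_26_wN_1_rb8033094a_d43_d53_d41_d3a0d_d51_d06

theorem g_wQ_26_wN_1_rb8033094a_d43_d53_d41_d3a0d_d51_d05 : GoodKC AS c_wQ_26_wN_1_rb8033094a_d43_d53_d41_d3a0d_d51_d05 := p_wQ_26_wN_1_rb8033094a_d43_d53_d41_d3a0d_d51_d05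

theorem g_wQ_26_wN_1_rb8033094a_d43_d53_d41_d3a0d_d51_d04 : GoodKC AS c_wQ_26_wN_1_rb8033094a_d43_d53_d41_d3a0d_d51_d04 := p_wQ_26_wN_1_rb8033094a_d43_d53_d41_d3a0d_d51_d04

theorem g_wQ_26_wN_1_rb8033094a_d43_d53_d41_d3a0d_d51_d01 : GoodKC AS c_wQ_26_wN_1_rb8033094a_d43_d53_d41_d3a0d_d51_d01 := p_wQ_26_wN_1_rb8033094a_d43_d53_d41_d3a0d_d51_d01

theorem g__wQ_26_wN_1_rb8033094a_d43_d53_d41_d3a0d_d51_d00_0 : GoodKC AS k_wQ_26_wN_1_rb8033094a_d43_d53_d41_d3a0d_d51_d00_0 := p_wQ_26_wN_1_rb8033094a_d43_d53_d41_d3a0d_d51_d00_0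

theorem g_wQ_26_wN_1_rb8033094a_d43_d53_d41_d3a0d_d51_d00 : GoodKC AS c_wQ_26_wN_1_rb8033094a_d43_d53_d41_d3a0d_d51_d00 := p_wQ_26_wN_1_rb8033094a_d43_d53_d41_d3a0d_d51_d00 g__wQ_26_wN_1_rb8033094a_d43_d53_d41_d3a0d_d51_d00_0

theorem g_wQ_26_wN_1_rb8033094a_d43_d53_d41_d3a0d_d51_d02 : GoodKC AS c_wQ_26_wN_1_rb8033094a_d43_d53_d41_d3a0d_d51_d02 := p_wQ_26_wN_1_rb8033094a_d43_d53_d41_d3a0d_d51_d02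

theorem g__wQ_26_wN_1_rb8033094a_d43_d53_d41_d3a0d_d51_d03_0 : GoodKC AS k_wQ_26_wN_1_rb8033094a_d43_d53_d41_d3a0d_d51_d03_0 := p_wQ_26_wN_1_rb8033094a_d43_d53_d41_d3a0d_d51_d03_0

theorem g_wQ_26_wN_1_rb8033094a_d43_d53_d41_d3a0d_d51_d03 : GoodKC AS c_wQ_26_wN_1_rb8033094a_d43_d53_d41_d3a0d_d51_d03 := p_wQ_26_wN_1_rb8033094a_d43_d53_d41_d3a0d_d51_d03 g__wQ_26_wN_1_rb8033094a_d43_d53_d41_d3a0d_d51_d03_0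

theorem g_wQ_26_wN_1_rb8033094a_d43_d53_d41_d3a0d_d51_d0a : GoodKC AS c_wQ_26_wN_1_rb8033094a_d43_d53_d41_d3a0d_d51_d0a := p_wQ_26_wN_1_rb8033094a_d43_d53_d41_d3a0d_d51_d0a

theorem g_wQ_26_wN_1_rb8033094a_d43_d53_d41_d3a0d_d51_d0f : GoodKC AS c_wQ_26_wN_1_rb8033094a_d43_d53_d41_d3a0d_d51_d0f := p_wQ_26_wN_1_rb8033094a_d43_d53_d41_d3a0d_d51_d0f

theorem g_wQ_26_wN_1_rb8033094a_d43_d53_d41_d3a0d_d51_d12 : GoodKC AS c_wQ_26_wN_1_rb8033094a_d43_d53_d41_d3a0d_d51_d12 := p_wQ_26_wN_1_rb8033094a_d43_d53_d41_d3a0d_d51_d12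

theorem g_wQ_26_wN_1_rb8033094a_d43_d53_d41_d3a0d_d51_d14 : GoodKC AS c_wQ_26_wN_1_rb8033094a_d43_d53_d41_d3a0d_d51_d14 := p_wQ_26_wN_1_rb8033094a_d43_d53_d41_d3a0d_d51_d14

theorem g_wQ_26_wN_1_rb8033094a_d43_d53_d41_d3a0d_d51_d15 : GoodKC AS c_wQ_26_wN_1_rb8033094a_d43_d53_d41_d3a0d_d51_d15 := p_wQ_26_wN_1_rb8033094a_d43_d53_d41_d3a0d_d51_d15

theorem g_wQ_26_wN_1_rb8033094a_d43_d53_d41_d3a0d_d51_d16 : GoodKC AS c_wQ_26_wN_1_rb8033094a_d43_d53_d41_d3a0d_d51_d16 := p_wQ_26_wN_1_rb8033094a_d43_d53_d41_d3a0d_d51_d16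

theorem g_wQ_26_wN_1_rb8033094a_d43_d53_d41_d3a0d_d51_d17 : GoodKC AS c_wQ_26_wN_1_rb8033094a_d43_d53_d41_d3a0d_d51_d17 := p_wQ_26_wN_1_rb8033094a_d43_d53_d41_d3a0d_d51_d17

theorem g_wQ_26_wN_1_rb8033094a_d43_d53_d41_d3a0d_d51_d20 : GoodKC AS c_wQ_26_wN_1_rb8033094a_d43_d53_d41_d3a0d_d51_d20 := p_wQ_26_wN_1_rb8033094a_d43_d53_d41_d3a0d_d51_d20

theorem g_wQ_26_wN_1_rb8033094a_d43_d53_d41_d3a0d_d51_d22 : GoodKC AS c_wQ_26_wN_1_rb8033094a_d43_d53_d41_d3a0d_d51_d22 := p_wQ_26_wN_1_rb8033094a_d43_d53_d41_d3a0d_d51_d22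

theorem g_wQ_26_wN_1_rb8033094a_d43_d53_d41_d3a0d_d51_d23 : GoodKC AS c_wQ_26_wN_1_rb8033094a_d43_d53_d41_d3a0d_d51_d23 := p_wQ_26_wN_1_rb8033094a_d43_d53_d41_d3a0d_d51_d23

theorem g__wQ_26_wN_1_rb8033094a_d43_d53_d41_d3a0d_d51_d25_2 : GoodKC AS k_wQ_26_wN_1_rb8033094a_d43_d53_d41_d3a0d_d51_d25_2 := p_wQ_26_wN_1_rb8033094a_d43_d53_d41_d3a0d_d51_d25_2

theorem g__wQ_26_wN_1_rb8033094a_d43_d53_d41_d3a0d_d51_d25_1 : GoodKC AS k_wQ_26_wN_1_rb8033094a_d43_d53_d41_d3a0d_d51_d25_1 := p_wQ_26_wN_1_rb8033094a_d43_d53_d41_d3a0d_d51_d25_1 g__wQ_26_wN_1_rb8033094a_d43_d53_d41_d3a0d_d51_d25_2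

theorem g__wQ_26_wN_1_rb8033094a_d43_d53_d41_d3a0d_d51_d25_3 : GoodKC AS k_wQ_26_wN_1_rb8033094a_d43_d53_d41_d3a0d_d51_d25_3 := p_wQ_26_wN_1_rb8033094a_d43_d53_d41_d3a0d_d51_d25_3

theorem g__wQ_26_wN_1_rb8033094a_d43_d53_d41_d3a0d_d51_d25_0 : GoodKC AS k_wQ_26_wN_1_rb8033094a_d43_d53_d41_d3a0d_d51_d25_0 := p_wQ_26_wN_1_rb8033094a_d43_d53_d41_d3a0d_d51_d25_0 g__wQ_26_wN_1_rb8033094a_d43_d53_d41_d3a0d_d51_d25_1 g__wQ_26_wN_1_rb8033094a_d43_d53_d41_d3a0d_d51_d25_3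

theorem g__wQ_26_wN_1_rb8033094a_d43_d53_d41_d3a0d_d51_d25_5 : GoodKC AS k_wQ_26_wN_1_rb8033094a_d43_d53_d41_d3a0d_d51_d25_5 := p_wQ_26_wN_1_rb8033094a_d43_d53_d41_d3a0d_d51_d25_5

theorem g__wQ_26_wN_1_rb8033094a_d43_d53_d41_d3a0d_d51_d25_6 : GoodKC AS k_wQ_26_wN_1_rb8033094a_d43_d53_d41_d3a0d_d51_d25_6 := p_wQ_26_wN_1_rb8033094a_d43_d53_d41_d3a0d_d51_d25_6

theorem g__wQ_26_wN_1_rb8033094a_d43_d53_d41_d3a0d_d51_d25_8 : GoodKC AS k_wQ_26_wN_1_rb8033094a_d43_d53_d41_d3a0d_d51_d25_8 := p_wQ_26_wN_1_rb8033094a_d43_d53_d41_d3a0d_d51_d25_8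

theorem g__wQ_26_wN_1_rb8033094a_d43_d53_d41_d3a0d_d51_d25_7 : GoodKC AS k_wQ_26_wN_1_rb8033094a_d43_d53_d41_d3a0d_d51_d25_7 := p_wQ_26_wN_1_rb8033094a_d43_d53_d41_d3a0d_d51_d25_7 g__wQ_26_wN_1_rb8033094a_d43_d53_d41_d3a0d_d51_d25_8

theorem g__wQ_26_wN_1_rb8033094a_d43_d53_d41_d3a0d_d51_d25_4 : GoodKC AS k_wQ_26_wN_1_rb8033094a_d43_d53_d41_d3a0d_d51_d25_4 := p_wQ_26_wN_1_rb8033094a_d43_d53_d41_d3a0d_d51_d25_4 g__wQ_26_wN_1_rb8033094a_d43_d53_d41_d3a0d_d51_d25_5 g__wQ_26_wN_1_rb8033094a_d43_d53_d41_d3a0d_d51_d25_6 g__wQ_26_wN_1_rb8033094a_d43_d53_d41_d3a0d_d51_d25_7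

theorem g_wQ_26_wN_1_rb8033094a_d43_d53_d41_d3a0d_d51_d25 : GoodKC AS c_wQ_26_wN_1_rb8033094a_d43_d53_d41_d3a0d_d51_d25 := p_wQ_26_wN_1_rb8033094a_d43_d53_d41_d3a0d_d51_d25 g__wQ_26_wN_1_rb8033094a_d43_d53_d41_d3a0d_d51_d25_0 g__wQ_26_wN_1_rb8033094a_d43_d53_d41_d3a0d_d51_d25_4

theorem g_wQ_26_wN_1_rb8033094a_d43_d53_d41_d3a0d_d51_d28 : GoodKC AS c_wQ_26_wN_1_rb8033094a_d43_d53_d41_d3a0d_d51_d28 := p_wQ_26_wN_1_rb8033094a_d43_d53_d41_d3a0d_d51_d28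

theorem g_wQ_26_wN_1_rb8033094a_d43_d53_d41_d3a0d : GoodKC AS c_wQ_26_wN_1_rb8033094a_d43_d53_d41_d3a0d := p_wQ_26_wN_1_rb8033094a_d43_d53_d41_d3a0d g_wQ_26_wN_1_rb8033094a_d43_d53_d41_d3a0d_d51_d27 g_wQ_26_wN_1_rb8033094a_d43_d53_d41_d3a0d_d51_d26 g_wQ_26_wN_1_rb8033094a_d43_d53_d41_d3a0d_d51_d24 g_wQ_26_wN_1_rb8033094a_d43_d53_d41_d3a0d_d51_d21 g_wQ_26_wN_1_rb8033094a_d43_d53_d41_d3a0d_d51_d1f g_wQ_26_wN_1_rb8033094a_d43_d53_d41_d3a0d_d51_d1e g_wQ_26_wN_1_rb8033094a_d43_d53_d41_d3a0d_d51_d1d g_wQ_26_wN_1_rb8033094a_d43_d53_d41_d3a0d_d51_d1c g_wQ_26_wN_1_rb8033094a_d43_d53_d41_d3a0d_d51_d1b g_wQ_26_wN_1_rb8033094a_d43_d53_d41_d3a0d_d51_d1a g_wQ_26_wN_1_rb8033094a_d43_d53_d41_d3a0d_d51_d19 g_wQ_26_wN_1_rb8033094a_d43_d53_d41_d3a0d_d51_d18 g_wQ_26_wN_1_rb8033094a_d43_d53_d41_d3a0d_d51_d13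 g_wQ_26_wN_1_rb8033094a_d43_d53_d41_d3a0d_d51_d11 g_wQ_26_wN_1_rb8033094a_d43_d53_d41_d3a0d_d51_d10 g_wQ_26_wN_1_rb8033094a_d43_d53_d41_d3a0d_d51_d0e g_wQ_26_wN_1_rb8033094a_d43_d53_d41_d3a0d_d51_d0d g_wQ_26_wN_1_rb8033094a_d43_d53_d41_d3a0d_d51_d0c g_wQ_26_wN_1_rb8033094a_d43_d53_d41_d3a0d_d51_d0b g_wQ_26_wN_1_rb8033094a_d43_d53_d41_d3a0d_d51_d09 g_wQ_26_wN_1_rb8033094a_d43_d53_d41_d3a0d_d51_d08 g_wQ_26_wN_1_rb8033094a_d43_d53_d41_d3a0d_d51_d07 g_wQ_26_wN_1_rb8033094a_d43_d53_d41_d3a0d_d51_d06 g_wQ_26_wN_1_rb8033094a_d43_d53_d41_d3a0d_d51_d05 g_wQ_26_wN_1_rb8033094a_d43_d53_d41_d3a0d_d51_d04 g_wQ_26_wN_1_rb8033094a_d43_d53_d41_d3a0d_d51_d01 g_wQ_26_wN_1_rb8033094a_d43_d53_d41_d3a0d_d51_d00 g_wQ_26_wN_1_rb8033094a_d43_d53_d41_d3a0d_d51_d02 g_wQ_26_wN_1_rb8033094a_d43_d53_d41_d3a0d_d51_d03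 g_wQ_26_wN_1_rb8033094a_d43_d53_d41_d3a0d_d51_d0a g_wQ_26_wN_1_rb8033094a_d43_d53_d41_d3a0d_d51_d0f g_wQ_26_wN_1_rb8033094a_d43_d53_d41_d3a0d_d51_d12 g_wQ_26_wN_1_rb8033094a_d43_d53_d41_d3a0d_d51_d14 g_wQ_26_wN_1_rb8033094a_d43_d53_d41_d3a0d_d51_d15 g_wQ_26_wN_1_rb8033094a_d43_d53_d41_d3a0d_d51_d16 g_wQ_26_wN_1_rb8033094a_d43_d53_d41_d3a0d_d51_d17 g_wQ_26_wN_1_rb8033094a_d43_d53_d41_d3a0d_d51_d20 g_wQ_26_wN_1_rb8033094a_d43_d53_d41_d3a0d_d51_d22 g_wQ_26_wN_1_rb8033094a_d43_d53_d41_d3a0d_d51_d23 g_wQ_26_wN_1_rb8033094a_d43_d53_d41_d3a0d_d51_d25 g_wQ_26_wN_1_rb8033094a_d43_d53_d41_d3a0d_d51_d28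

theorem g_wQ_26_wN_1_rb8033094a_d43_d53_d41_d3a0c : GoodKC AS c_wQ_26_wN_1_rb8033094a_d43_d53_d41_d3a0c := p_wQ_26_wN_1_rb8033094a_d43_d53_d41_d3a0c

theorem g_wQ_26_wN_1_rb8033094a_d43_d53_d41_d3a0a : GoodKC AS c_wQ_26_wN_1_rb8033094a_d43_d53_d41_d3a0a := p_wQ_26_wN_1_rb8033094a_d43_d53_d41_d3a0a

theorem g_wQ_26_wN_1_rb8033094a_d43_d53_d41_d3a09 : GoodKC AS c_wQ_26_wN_1_rb8033094a_d43_d53_d41_d3a09 := p_wQ_26_wN_1_rb8033094a_d43_d53_d41_d3a09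

theorem g_wQ_26_wN_1_rb8033094a_d43_d53_d41_d3a08 : GoodKC AS c_wQ_26_wN_1_rb8033094a_d43_d53_d41_d3a08 := p_wQ_26_wN_1_rb8033094a_d43_d53_d41_d3a08

theorem g__wQ_26_wN_1_rb8033094a_d43_d53_d41_d3a07_0 : GoodKC AS k_wQ_26_wN_1_rb8033094a_d43_d53_d41_d3a07_0 := p_wQ_26_wN_1_rb8033094a_d43_d53_d41_d3a07_0

theorem g_wQ_26_wN_1_rb8033094a_d43_d53_d41_d3a07 : GoodKC AS c_wQ_26_wN_1_rb8033094a_d43_d53_d41_d3a07 := p_wQ_26_wN_1_rb8033094a_d43_d53_d41_d3a07 g__wQ_26_wN_1_rb8033094a_d43_d53_d41_d3a07_0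

theorem g_wQ_26_wN_1_rb8033094a_d43_d53_d41_d3a03 : GoodKC AS c_wQ_26_wN_1_rb8033094a_d43_d53_d41_d3a03 := p_wQ_26_wN_1_rb8033094a_d43_d53_d41_d3a03

theorem g_wQ_26_wN_1_rb8033094a_d43_d53_d41_d3a02 : GoodKC AS c_wQ_26_wN_1_rb8033094a_d43_d53_d41_d3a02 := p_wQ_26_wN_1_rb8033094a_d43_d53_d41_d3a02

theorem g_wQ_26_wN_1_rb8033094a_d43_d53_d41_d3a00 : GoodKC AS c_wQ_26_wN_1_rb8033094a_d43_d53_d41_d3a00 := p_wQ_26_wN_1_rb8033094a_d43_d53_d41_d3a00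

theorem g_wQ_26_wN_1_rb8033094a_d43_d53_d41_d3a01 : GoodKC AS c_wQ_26_wN_1_rb8033094a_d43_d53_d41_d3a01 := p_wQ_26_wN_1_rb8033094a_d43_d53_d41_d3a01

theorem g__wQ_26_wN_1_rb8033094a_d43_d53_d41_d3a04_2 : GoodKC AS k_wQ_26_wN_1_rb8033094a_d43_d53_d41_d3a04_2 := p_wQ_26_wN_1_rb8033094a_d43_d53_d41_d3a04_2

theorem g__wQ_26_wN_1_rb8033094a_d43_d53_d41_d3a04_1 : GoodKC AS k_wQ_26_wN_1_rb8033094a_d43_d53_d41_d3a04_1 := p_wQ_26_wN_1_rb8033094a_d43_d53_d41_d3a04_1 g__wQ_26_wN_1_rb8033094a_d43_d53_d41_d3a04_2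

theorem g__wQ_26_wN_1_rb8033094a_d43_d53_d41_d3a04_5 : GoodKC AS k_wQ_26_wN_1_rb8033094a_d43_d53_d41_d3a04_5 := p_wQ_26_wN_1_rb8033094a_d43_d53_d41_d3a04_5

theorem g__wQ_26_wN_1_rb8033094a_d43_d53_d41_d3a04_4 : GoodKC AS k_wQ_26_wN_1_rb8033094a_d43_d53_d41_d3a04_4 := p_wQ_26_wN_1_rb8033094a_d43_d53_d41_d3a04_4 g__wQ_26_wN_1_rb8033094a_d43_d53_d41_d3a04_5

theorem g__wQ_26_wN_1_rb8033094a_d43_d53_d41_d3a04_3 : GoodKC AS k_wQ_26_wN_1_rb8033094a_d43_d53_d41_d3a04_3 := p_wQ_26_wN_1_rb8033094a_d43_d53_d41_d3a04_3 g__wQ_26_wN_1_rb8033094a_d43_d53_d41_d3a04_4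

theorem g__wQ_26_wN_1_rb8033094a_d43_d53_d41_d3a04_6 : GoodKC AS k_wQ_26_wN_1_rb8033094a_d43_d53_d41_d3a04_6 := p_wQ_26_wN_1_rb8033094a_d43_d53_d41_d3a04_6

theorem g__wQ_26_wN_1_rb8033094a_d43_d53_d41_d3a04_8 : GoodKC AS k_wQ_26_wN_1_rb8033094a_d43_d53_d41_d3a04_8 := p_wQ_26_wN_1_rb8033094a_d43_d53_d41_d3a04_8

theorem g__wQ_26_wN_1_rb8033094a_d43_d53_d41_d3a04_11 : GoodKC AS k_wQ_26_wN_1_rb8033094a_d43_d53_d41_d3a04_11 := p_wQ_26_wN_1_rb8033094a_d43_d53_d41_d3a04_11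

theorem g__wQ_26_wN_1_rb8033094a_d43_d53_d41_d3a04_10 : GoodKC AS k_wQ_26_wN_1_rb8033094a_d43_d53_d41_d3a04_10 := p_wQ_26_wN_1_rb8033094a_d43_d53_d41_d3a04_10 g__wQ_26_wN_1_rb8033094a_d43_d53_d41_d3a04_11

theorem g__wQ_26_wN_1_rb8033094a_d43_d53_d41_d3a04_12 : GoodKC AS k_wQ_26_wN_1_rb8033094a_d43_d53_d41_d3a04_12 := p_wQ_26_wN_1_rb8033094a_d43_d53_d41_d3a04_12

theorem g__wQ_26_wN_1_rb8033094a_d43_d53_d41_d3a04_18 : GoodKC AS k_wQ_26_wN_1_rb8033094a_d43_d53_d41_d3a04_18 := p_wQ_26_wN_1_rb8033094a_d43_d53_d41_d3a04_18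

theorem g__wQ_26_wN_1_rb8033094a_d43_d53_d41_d3a04_17 : GoodKC AS k_wQ_26_wN_1_rb8033094a_d43_d53_d41_d3a04_17 := p_wQ_26_wN_1_rb8033094a_d43_d53_d41_d3a04_17 g__wQ_26_wN_1_rb8033094a_d43_d53_d41_d3a04_18

theorem g__wQ_26_wN_1_rb8033094a_d43_d53_d41_d3a04_16 : GoodKC AS k_wQ_26_wN_1_rb8033094a_d43_d53_d41_d3a04_16 := p_wQ_26_wN_1_rb8033094a_d43_d53_d41_d3a04_16 g__wQ_26_wN_1_rb8033094a_d43_d53_d41_d3a04_17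

theorem g__wQ_26_wN_1_rb8033094a_d43_d53_d41_d3a04_15 : GoodKC AS k_wQ_26_wN_1_rb8033094a_d43_d53_d41_d3a04_15 := p_wQ_26_wN_1_rb8033094a_d43_d53_d41_d3a04_15 g__wQ_26_wN_1_rb8033094a_d43_d53_d41_d3a04_16

theorem g__wQ_26_wN_1_rb8033094a_d43_d53_d41_d3a04_14 : GoodKC AS k_wQ_26_wN_1_rb8033094a_d43_d53_d41_d3a04_14 := p_wQ_26_wN_1_rb8033094a_d43_d53_d41_d3a04_14 g__wQ_26_wN_1_rb8033094a_d43_d53_d41_d3a04_15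

theorem g__wQ_26_wN_1_rb8033094a_d43_d53_d41_d3a04_19 : GoodKC AS k_wQ_26_wN_1_rb8033094a_d43_d53_d41_d3a04_19 := p_wQ_26_wN_1_rb8033094a_d43_d53_d41_d3a04_19

theorem g__wQ_26_wN_1_rb8033094a_d43_d53_d41_d3a04_13 : GoodKC AS k_wQ_26_wN_1_rb8033094a_d43_d53_d41_d3a04_13 := p_wQ_26_wN_1_rb8033094a_d43_d53_d41_d3a04_13 g__wQ_26_wN_1_rb8033094a_d43_d53_d41_d3a04_14 g__wQ_26_wN_1_rb8033094a_d43_d53_d41_d3a04_19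

theorem g__wQ_26_wN_1_rb8033094a_d43_d53_d41_d3a04_9 : GoodKC AS k_wQ_26_wN_1_rb8033094a_d43_d53_d41_d3a04_9 := p_wQ_26_wN_1_rb8033094a_d43_d53_d41_d3a04_9 g__wQ_26_wN_1_rb8033094a_d43_d53_d41_d3a04_10 g__wQ_26_wN_1_rb8033094a_d43_d53_d41_d3a04_12 g__wQ_26_wN_1_rb8033094a_d43_d53_d41_d3a04_13

theorem g__wQ_26_wN_1_rb8033094a_d43_d53_d41_d3a04_7 : GoodKC AS k_wQ_26_wN_1_rb8033094a_d43_d53_d41_d3a04_7 := p_wQ_26_wN_1_rb8033094a_d43_d53_d41_d3a04_7 g__wQ_26_wN_1_rb8033094a_d43_d53_d41_d3a04_8 g__wQ_26_wN_1_rb8033094a_d43_d53_d41_d3a04_9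

theorem g__wQ_26_wN_1_rb8033094a_d43_d53_d41_d3a04_0 : GoodKC AS k_wQ_26_wN_1_rb8033094a_d43_d53_d41_d3a04_0 := p_wQ_26_wN_1_rb8033094a_d43_d53_d41_d3a04_0 g__wQ_26_wN_1_rb8033094a_d43_d53_d41_d3a04_1 g__wQ_26_wN_1_rb8033094a_d43_d53_d41_d3a04_3 g__wQ_26_wN_1_rb8033094a_d43_d53_d41_d3a04_6 g__wQ_26_wN_1_rb8033094a_d43_d53_d41_d3a04_7

theorem g_wQ_26_wN_1_rb8033094a_d43_d53_d41_d3a04 : GoodKC AS c_wQ_26_wN_1_rb8033094a_d43_d53_d41_d3a04 := p_wQ_26_wN_1_rb8033094a_d43_d53_d41_d3a04 g__wQ_26_wN_1_rb8033094a_d43_d53_d41_d3a04_0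

theorem g__wQ_26_wN_1_rb8033094a_d43_d53_d41_d3a_0 : GoodKC AS k_wQ_26_wN_1_rb8033094a_d43_d53_d41_d3a_0 := p_wQ_26_wN_1_rb8033094a_d43_d53_d41_d3a_0 g_wQ_26_wN_1_rb8033094a_d43_d53_d41_d3a03 g_wQ_26_wN_1_rb8033094a_d43_d53_d41_d3a02 g_wQ_26_wN_1_rb8033094a_d43_d53_d41_d3a00 g_wQ_26_wN_1_rb8033094a_d43_d53_d41_d3a01 g_wQ_26_wN_1_rb8033094a_d43_d53_d41_d3a04

theorem g__wQ_26_wN_1_rb8033094a_d43_d53_d41_d3a_2 : GoodKC AS k_wQ_26_wN_1_rb8033094a_d43_d53_d41_d3a_2 := p_wQ_26_wN_1_rb8033094a_d43_d53_d41_d3a_2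

theorem g__wQ_26_wN_1_rb8033094a_d43_d53_d41_d3a_3 : GoodKC AS k_wQ_26_wN_1_rb8033094a_d43_d53_d41_d3a_3 := p_wQ_26_wN_1_rb8033094a_d43_d53_d41_d3a_3

theorem g__wQ_26_wN_1_rb8033094a_d43_d53_d41_d3a_6 : GoodKC AS k_wQ_26_wN_1_rb8033094a_d43_d53_d41_d3a_6 := p_wQ_26_wN_1_rb8033094a_d43_d53_d41_d3a_6

theorem g__wQ_26_wN_1_rb8033094a_d43_d53_d41_d3a_7 : GoodKC AS k_wQ_26_wN_1_rb8033094a_d43_d53_d41_d3a_7 := p_wQ_26_wN_1_rb8033094a_d43_d53_d41_d3a_7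

theorem g__wQ_26_wN_1_rb8033094a_d43_d53_d41_d3a_8 : GoodKC AS k_wQ_26_wN_1_rb8033094a_d43_d53_d41_d3a_8 := p_wQ_26_wN_1_rb8033094a_d43_d53_d41_d3a_8

theorem g__wQ_26_wN_1_rb8033094a_d43_d53_d41_d3a_5 : GoodKC AS k_wQ_26_wN_1_rb8033094a_d43_d53_d41_d3a_5 := p_wQ_26_wN_1_rb8033094a_d43_d53_d41_d3a_5 g__wQ_26_wN_1_rb8033094a_d43_d53_d41_d3a_6 g__wQ_26_wN_1_rb8033094a_d43_d53_d41_d3a_7 g__wQ_26_wN_1_rb8033094a_d43_d53_d41_d3a_8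

theorem g__wQ_26_wN_1_rb8033094a_d43_d53_d41_d3a_4 : GoodKC AS k_wQ_26_wN_1_rb8033094a_d43_d53_d41_d3a_4 := p_wQ_26_wN_1_rb8033094a_d43_d53_d41_d3a_4 g__wQ_26_wN_1_rb8033094a_d43_d53_d41_d3a_5

theorem g__wQ_26_wN_1_rb8033094a_d43_d53_d41_d3a_1 : GoodKC AS k_wQ_26_wN_1_rb8033094a_d43_d53_d41_d3a_1 := p_wQ_26_wN_1_rb8033094a_d43_d53_d41_d3a_1 g__wQ_26_wN_1_rb8033094a_d43_d53_d41_d3a_2 g__wQ_26_wN_1_rb8033094a_d43_d53_d41_d3a_3 g__wQ_26_wN_1_rb8033094a_d43_d53_d41_d3a_4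

theorem g_wQ_26_wN_1_rb8033094a_d43_d53_d41_d3a05 : GoodKC AS c_wQ_26_wN_1_rb8033094a_d43_d53_d41_d3a05 := p_wQ_26_wN_1_rb8033094a_d43_d53_d41_d3a05

theorem g__wQ_26_wN_1_rb8033094a_d43_d53_d41_d3a06_1 : GoodKC AS k_wQ_26_wN_1_rb8033094a_d43_d53_d41_d3a06_1 := p_wQ_26_wN_1_rb8033094a_d43_d53_d41_d3a06_1

theorem g__wQ_26_wN_1_rb8033094a_d43_d53_d41_d3a06_0 : GoodKC AS k_wQ_26_wN_1_rb8033094a_d43_d53_d41_d3a06_0 := p_wQ_26_wN_1_rb8033094a_d43_d53_d41_d3a06_0 g__wQ_26_wN_1_rb8033094a_d43_d53_d41_d3a06_1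

theorem g_wQ_26_wN_1_rb8033094a_d43_d53_d41_d3a06 : GoodKC AS c_wQ_26_wN_1_rb8033094a_d43_d53_d41_d3a06 := p_wQ_26_wN_1_rb8033094a_d43_d53_d41_d3a06 g__wQ_26_wN_1_rb8033094a_d43_d53_d41_d3a06_0

theorem g_wQ_26_wN_1_rb8033094a_d43_d53_d41_d3a0b_d51_d19 : GoodKC AS c_wQ_26_wN_1_rb8033094a_d43_d53_d41_d3a0b_d51_d19 := p_wQ_26_wN_1_rb8033094a_d43_d53_d41_d3a0b_d51_d19

theorem g_wQ_26_wN_1_rb8033094a_d43_d53_d41_d3a0b_d51_d18 : GoodKC AS c_wQ_26_wN_1_rb8033094a_d43_d53_d41_d3a0b_d51_d18 := p_wQ_26_wN_1_rb8033094a_d43_d53_d41_d3a0b_d51_d18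

theorem g__wQ_26_wN_1_rb8033094a_d43_d53_d41_d3a0b_d51_d17v1_2 : GoodKC AS k_wQ_26_wN_1_rb8033094a_d43_d53_d41_d3a0b_d51_d17v1_2 := p_wQ_26_wN_1_rb8033094a_d43_d53_d41_d3a0b_d51_d17v1_2

theorem g__wQ_26_wN_1_rb8033094a_d43_d53_d41_d3a0b_d51_d17v1_4 : GoodKC AS k_wQ_26_wN_1_rb8033094a_d43_d53_d41_d3a0b_d51_d17v1_4 := p_wQ_26_wN_1_rb8033094a_d43_d53_d41_d3a0b_d51_d17v1_4

theorem g__wQ_26_wN_1_rb8033094a_d43_d53_d41_d3a0b_d51_d17v1_6 : GoodKC AS k_wQ_26_wN_1_rb8033094a_d43_d53_d41_d3a0b_d51_d17v1_6 := p_wQ_26_wN_1_rb8033094a_d43_d53_d41_d3a0b_d51_d17v1_6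

theorem g__wQ_26_wN_1_rb8033094a_d43_d53_d41_d3a0b_d51_d17v1_7 : GoodKC AS k_wQ_26_wN_1_rb8033094a_d43_d53_d41_d3a0b_d51_d17v1_7 := p_wQ_26_wN_1_rb8033094a_d43_d53_d41_d3a0b_d51_d17v1_7

theorem g__wQ_26_wN_1_rb8033094a_d43_d53_d41_d3a0b_d51_d17v1_5 : GoodKC AS k_wQ_26_wN_1_rb8033094a_d43_d53_d41_d3a0b_d51_d17v1_5 := p_wQ_26_wN_1_rb8033094a_d43_d53_d41_d3a0b_d51_d17v1_5 g__wQ_26_wN_1_rb8033094a_d43_d53_d41_d3a0b_d51_d17v1_6 g__wQ_26_wN_1_rb8033094a_d43_d53_d41_d3a0b_d51_d17v1_7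

theorem g__wQ_26_wN_1_rb8033094a_d43_d53_d41_d3a0b_d51_d17v1_16 : GoodKC AS k_wQ_26_wN_1_rb8033094a_d43_d53_d41_d3a0b_d51_d17v1_16 := p_wQ_26_wN_1_rb8033094a_d43_d53_d41_d3a0b_d51_d17v1_16

theorem g__wQ_26_wN_1_rb8033094a_d43_d53_d41_d3a0b_d51_d17v1_15 : GoodKC AS k_wQ_26_wN_1_rb8033094a_d43_d53_d41_d3a0b_d51_d17v1_15 := p_wQ_26_wN_1_rb8033094a_d43_d53_d41_d3a0b_d51_d17v1_15 g__wQ_26_wN_1_rb8033094a_d43_d53_d41_d3a0b_d51_d17v1_16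

theorem g__wQ_26_wN_1_rb8033094a_d43_d53_d41_d3a0b_d51_d17v1_14 : GoodKC AS k_wQ_26_wN_1_rb8033094a_d43_d53_d41_d3a0b_d51_d17v1_14 := p_wQ_26_wN_1_rb8033094a_d43_d53_d41_d3a0b_d51_d17v1_14 g__wQ_26_wN_1_rb8033094a_d43_d53_d41_d3a0b_d51_d17v1_15

theorem g__wQ_26_wN_1_rb8033094a_d43_d53_d41_d3a0b_d51_d17v1_13 : GoodKC AS k_wQ_26_wN_1_rb8033094a_d43_d53_d41_d3a0b_d51_d17v1_13 := p_wQ_26_wN_1_rb8033094a_d43_d53_d41_d3a0b_d51_d17v1_13 g__wQ_26_wN_1_rb8033094a_d43_d53_d41_d3a0b_d51_d17v1_14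

theorem g__wQ_26_wN_1_rb8033094a_d43_d53_d41_d3a0b_d51_d17v1_12 : GoodKC AS k_wQ_26_wN_1_rb8033094a_d43_d53_d41_d3a0b_d51_d17v1_12 := p_wQ_26_wN_1_rb8033094a_d43_d53_d41_d3a0b_d51_d17v1_12 g__wQ_26_wN_1_rb8033094a_d43_d53_d41_d3a0b_d51_d17v1_13

theorem g__wQ_26_wN_1_rb8033094a_d43_d53_d41_d3a0b_d51_d17v1_11 : GoodKC AS k_wQ_26_wN_1_rb8033094a_d43_d53_d41_d3a0b_d51_d17v1_11 := p_wQ_26_wN_1_rb8033094a_d43_d53_d41_d3a0b_d51_d17v1_11 g__wQ_26_wN_1_rb8033094a_d43_d53_d41_d3a0b_d51_d17v1_12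

theorem g__wQ_26_wN_1_rb8033094a_d43_d53_d41_d3a0b_d51_d17v1_10 : GoodKC AS k_wQ_26_wN_1_rb8033094a_d43_d53_d41_d3a0b_d51_d17v1_10 := p_wQ_26_wN_1_rb8033094a_d43_d53_d41_d3a0b_d51_d17v1_10 g__wQ_26_wN_1_rb8033094a_d43_d53_d41_d3a0b_d51_d17v1_11

theorem g__wQ_26_wN_1_rb8033094a_d43_d53_d41_d3a0b_d51_d17v1_9 : GoodKC AS k_wQ_26_wN_1_rb8033094a_d43_d53_d41_d3a0b_d51_d17v1_9 := p_wQ_26_wN_1_rb8033094a_d43_d53_d41_d3a0b_d51_d17v1_9 g__wQ_26_wN_1_rb8033094a_d43_d53_d41_d3a0b_d51_d17v1_10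

theorem g__wQ_26_wN_1_rb8033094a_d43_d53_d41_d3a0b_d51_d17v1_17 : GoodKC AS k_wQ_26_wN_1_rb8033094a_d43_d53_d41_d3a0b_d51_d17v1_17 := p_wQ_26_wN_1_rb8033094a_d43_d53_d41_d3a0b_d51_d17v1_17

theorem g__wQ_26_wN_1_rb8033094a_d43_d53_d41_d3a0b_d51_d17v1_8 : GoodKC AS k_wQ_26_wN_1_rb8033094a_d43_d53_d41_d3a0b_d51_d17v1_8 := p_wQ_26_wN_1_rb8033094a_d43_d53_d41_d3a0b_d51_d17v1_8 g__wQ_26_wN_1_rb8033094a_d43_d53_d41_d3a0b_d51_d17v1_9 g__wQ_26_wN_1_rb8033094a_d43_d53_d41_d3a0b_d51_d17v1_17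

theorem g__wQ_26_wN_1_rb8033094a_d43_d53_d41_d3a0b_d51_d17v1_3 : GoodKC AS k_wQ_26_wN_1_rb8033094a_d43_d53_d41_d3a0b_d51_d17v1_3 := p_wQ_26_wN_1_rb8033094a_d43_d53_d41_d3a0b_d51_d17v1_3 g__wQ_26_wN_1_rb8033094a_d43_d53_d41_d3a0b_d51_d17v1_4 g__wQ_26_wN_1_rb8033094a_d43_d53_d41_d3a0b_d51_d17v1_5 g__wQ_26_wN_1_rb8033094a_d43_d53_d41_d3a0b_d51_d17v1_8

theorem g__wQ_26_wN_1_rb8033094a_d43_d53_d41_d3a0b_d51_d17v1_1 : GoodKC AS k_wQ_26_wN_1_rb8033094a_d43_d53_d41_d3a0b_d51_d17v1_1 := p_wQ_26_wN_1_rb8033094a_d43_d53_d41_d3a0b_d51_d17v1_1 g__wQ_26_wN_1_rb8033094a_d43_d53_d41_d3a0b_d51_d17v1_2 g__wQ_26_wN_1_rb8033094a_d43_d53_d41_d3a0b_d51_d17v1_3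

theorem g__wQ_26_wN_1_rb8033094a_d43_d53_d41_d3a0b_d51_d17v1_18 : GoodKC AS k_wQ_26_wN_1_rb8033094a_d43_d53_d41_d3a0b_d51_d17v1_18 := p_wQ_26_wN_1_rb8033094a_d43_d53_d41_d3a0b_d51_d17v1_18

theorem g__wQ_26_wN_1_rb8033094a_d43_d53_d41_d3a0b_d51_d17v1_0 : GoodKC AS k_wQ_26_wN_1_rb8033094a_d43_d53_d41_d3a0b_d51_d17v1_0 := p_wQ_26_wN_1_rb8033094a_d43_d53_d41_d3a0b_d51_d17v1_0 g__wQ_26_wN_1_rb8033094a_d43_d53_d41_d3a0b_d51_d17v1_1 g__wQ_26_wN_1_rb8033094a_d43_d53_d41_d3a0b_d51_d17v1_18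

theorem g_wQ_26_wN_1_rb8033094a_d43_d53_d41_d3a0b_d51_d17 : GoodKC AS c_wQ_26_wN_1_rb8033094a_d43_d53_d41_d3a0b_d51_d17 := p_wQ_26_wN_1_rb8033094a_d43_d53_d41_d3a0b_d51_d17v1 g__wQ_26_wN_1_rb8033094a_d43_d53_d41_d3a0b_d51_d17v1_0

theorem g_wQ_26_wN_1_rb8033094a_d43_d53_d41_d3a0b_d51_d16 : GoodKC AS c_wQ_26_wN_1_rb8033094a_d43_d53_d41_d3a0b_d51_d16 := p_wQ_26_wN_1_rb8033094a_d43_d53_d41_d3a0b_d51_d16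

theorem g__wQ_26_wN_1_rb8033094a_d43_d53_d41_d3a0b_d51_d14_1 : GoodKC AS k_wQ_26_wN_1_rb8033094a_d43_d53_d41_d3a0b_d51_d14_1 := p_wQ_26_wN_1_rb8033094a_d43_d53_d41_d3a0b_d51_d14_1

theorem g__wQ_26_wN_1_rb8033094a_d43_d53_d41_d3a0b_d51_d14_0 : GoodKC AS k_wQ_26_wN_1_rb8033094a_d43_d53_d41_d3a0b_d51_d14_0 := p_wQ_26_wN_1_rb8033094a_d43_d53_d41_d3a0b_d51_d14_0 g__wQ_26_wN_1_rb8033094a_d43_d53_d41_d3a0b_d51_d14_1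

theorem g__wQ_26_wN_1_rb8033094a_d43_d53_d41_d3a0b_d51_d14_5 : GoodKC AS k_wQ_26_wN_1_rb8033094a_d43_d53_d41_d3a0b_d51_d14_5 := p_wQ_26_wN_1_rb8033094a_d43_d53_d41_d3a0b_d51_d14_5

theorem g__wQ_26_wN_1_rb8033094a_d43_d53_d41_d3a0b_d51_d14_4 : GoodKC AS k_wQ_26_wN_1_rb8033094a_d43_d53_d41_d3a0b_d51_d14_4 := p_wQ_26_wN_1_rb8033094a_d43_d53_d41_d3a0b_d51_d14_4 g__wQ_26_wN_1_rb8033094a_d43_d53_d41_d3a0b_d51_d14_5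

theorem g__wQ_26_wN_1_rb8033094a_d43_d53_d41_d3a0b_d51_d14_3 : GoodKC AS k_wQ_26_wN_1_rb8033094a_d43_d53_d41_d3a0b_d51_d14_3 := p_wQ_26_wN_1_rb8033094a_d43_d53_d41_d3a0b_d51_d14_3 g__wQ_26_wN_1_rb8033094a_d43_d53_d41_d3a0b_d51_d14_4

theorem g__wQ_26_wN_1_rb8033094a_d43_d53_d41_d3a0b_d51_d14_6 : GoodKC AS k_wQ_26_wN_1_rb8033094a_d43_d53_d41_d3a0b_d51_d14_6 := p_wQ_26_wN_1_rb8033094a_d43_d53_d41_d3a0b_d51_d14_6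

theorem g__wQ_26_wN_1_rb8033094a_d43_d53_d41_d3a0b_d51_d14_8 : GoodKC AS k_wQ_26_wN_1_rb8033094a_d43_d53_d41_d3a0b_d51_d14_8 := p_wQ_26_wN_1_rb8033094a_d43_d53_d41_d3a0b_d51_d14_8

theorem g__wQ_26_wN_1_rb8033094a_d43_d53_d41_d3a0b_d51_d14_7 : GoodKC AS k_wQ_26_wN_1_rb8033094a_d43_d53_d41_d3a0b_d51_d14_7 := p_wQ_26_wN_1_rb8033094a_d43_d53_d41_d3a0b_d51_d14_7 g__wQ_26_wN_1_rb8033094a_d43_d53_d41_d3a0b_d51_d14_8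

theorem g__wQ_26_wN_1_rb8033094a_d43_d53_d41_d3a0b_d51_d14_2 : GoodKC AS k_wQ_26_wN_1_rb8033094a_d43_d53_d41_d3a0b_d51_d14_2 := p_wQ_26_wN_1_rb8033094a_d43_d53_d41_d3a0b_d51_d14_2 g__wQ_26_wN_1_rb8033094a_d43_d53_d41_d3a0b_d51_d14_3 g__wQ_26_wN_1_rb8033094a_d43_d53_d41_d3a0b_d51_d14_6 g__wQ_26_wN_1_rb8033094a_d43_d53_d41_d3a0b_d51_d14_7

theorem g_wQ_26_wN_1_rb8033094a_d43_d53_d41_d3a0b_d51_d14 : GoodKC AS c_wQ_26_wN_1_rb8033094a_d43_d53_d41_d3a0b_d51_d14 := p_wQ_26_wN_1_rb8033094a_d43_d53_d41_d3a0b_d51_d14 g__wQ_26_wN_1_rb8033094a_d43_d53_d41_d3a0b_d51_d14_0 g__wQ_26_wN_1_rb8033094a_d43_d53_d41_d3a0b_d51_d14_2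

theorem g_wQ_26_wN_1_rb8033094a_d43_d53_d41_d3a0b_d51_d13 : GoodKC AS c_wQ_26_wN_1_rb8033094a_d43_d53_d41_d3a0b_d51_d13 := p_wQ_26_wN_1_rb8033094a_d43_d53_d41_d3a0b_d51_d13

theorem g_wQ_26_wN_1_rb8033094a_d43_d53_d41_d3a0b_d51_d12 : GoodKC AS c_wQ_26_wN_1_rb8033094a_d43_d53_d41_d3a0b_d51_d12 := p_wQ_26_wN_1_rb8033094a_d43_d53_d41_d3a0b_d51_d12

theorem g_wQ_26_wN_1_rb8033094a_d43_d53_d41_d3a0b_d51_d11 : GoodKC AS c_wQ_26_wN_1_rb8033094a_d43_d53_d41_d3a0b_d51_d11 := p_wQ_26_wN_1_rb8033094a_d43_d53_d41_d3a0b_d51_d11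

theorem g_wQ_26_wN_1_rb8033094a_d43_d53_d41_d3a0b_d51_d10 : GoodKC AS c_wQ_26_wN_1_rb8033094a_d43_d53_d41_d3a0b_d51_d10 := p_wQ_26_wN_1_rb8033094a_d43_d53_d41_d3a0b_d51_d10

theorem g_wQ_26_wN_1_rb8033094a_d43_d53_d41_d3a0b_d51_d0d : GoodKC AS c_wQ_26_wN_1_rb8033094a_d43_d53_d41_d3a0b_d51_d0d := p_wQ_26_wN_1_rb8033094a_d43_d53_d41_d3a0b_d51_d0d

theorem g_wQ_26_wN_1_rb8033094a_d43_d53_d41_d3a0b_d51_d0c : GoodKC AS c_wQ_26_wN_1_rb8033094a_d43_d53_d41_d3a0b_d51_d0c := p_wQ_26_wN_1_rb8033094a_d43_d53_d41_d3a0b_d51_d0c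

theorem g_wQ_26_wN_1_rb8033094a_d43_d53_d41_d3a0b_d51_d0b : GoodKC AS c_wQ_26_wN_1_rb8033094a_d43_d53_d41_d3a0b_d51_d0b := p_wQ_26_wN_1_rb8033094a_d43_d53_d41_d3a0b_d51_d0b

theorem g_wQ_26_wN_1_rb8033094a_d43_d53_d41_d3a0b_d51_d0a : GoodKC AS c_wQ_26_wN_1_rb8033094a_d43_d53_d41_d3a0b_d51_d0a := p_wQ_26_wN_1_rb8033094a_d43_d53_d41_d3a0b_d51_d0a

theorem g_wQ_26_wN_1_rb8033094a_d43_d53_d41_d3a0b_d51_d09 : GoodKC AS c_wQ_26_wN_1_rb8033094a_d43_d53_d41_d3a0b_d51_d09 := p_wQ_26_wN_1_rb8033094a_d43_d53_d41_d3a0b_d51_d09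

theorem g_wQ_26_wN_1_rb8033094a_d43_d53_d41_d3a0b_d51_d08 : GoodKC AS c_wQ_26_wN_1_rb8033094a_d43_d53_d41_d3a0b_d51_d08 := p_wQ_26_wN_1_rb8033094a_d43_d53_d41_d3a0b_d51_d08

theorem g_wQ_26_wN_1_rb8033094a_d43_d53_d41_d3a0b_d51_d06 : GoodKC AS c_wQ_26_wN_1_rb8033094a_d43_d53_d41_d3a0b_d51_d06 := p_wQ_26_wN_1_rb8033094a_d43_d53_d41_d3a0b_d51_d06

theorem g__wQ_26_wN_1_rb8033094a_d43_d53_d41_d3a0b_1 : GoodKC AS k_wQ_26_wN_1_rb8033094a_d43_d53_d41_d3a0b_1 := p_wQ_26_wN_1_rb8033094a_d43_d53_d41_d3a0b_1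

theorem g__wQ_26_wN_1_rb8033094a_d43_d53_d41_d3a0b_0 : GoodKC AS k_wQ_26_wN_1_rb8033094a_d43_d53_d41_d3a0b_0 := p_wQ_26_wN_1_rb8033094a_d43_d53_d41_d3a0b_0 g__wQ_26_wN_1_rb8033094a_d43_d53_d41_d3a0b_1

theorem g_wQ_26_wN_1_rb8033094a_d43_d53_d41_d3a0b_d51_d04 : GoodKC AS c_wQ_26_wN_1_rb8033094a_d43_d53_d41_d3a0b_d51_d04 := p_wQ_26_wN_1_rb8033094a_d43_d53_d41_d3a0b_d51_d04

theorem g_wQ_26_wN_1_rb8033094a_d43_d53_d41_d3a0b_d51_d02 : GoodKC AS c_wQ_26_wN_1_rb8033094a_d43_d53_d41_d3a0b_d51_d02 := p_wQ_26_wN_1_rb8033094a_d43_d53_d41_d3a0b_d51_d02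

theorem g_wQ_26_wN_1_rb8033094a_d43_d53_d41_d3a0b_d51_d00 : GoodKC AS c_wQ_26_wN_1_rb8033094a_d43_d53_d41_d3a0b_d51_d00 := p_wQ_26_wN_1_rb8033094a_d43_d53_d41_d3a0b_d51_d00

theorem g_wQ_26_wN_1_rb8033094a_d43_d53_d41_d3a0b_d51_d01 : GoodKC AS c_wQ_26_wN_1_rb8033094a_d43_d53_d41_d3a0b_d51_d01 := p_wQ_26_wN_1_rb8033094a_d43_d53_d41_d3a0b_d51_d01

theorem g_wQ_26_wN_1_rb8033094a_d43_d53_d41_d3a0b_d51_d03 : GoodKC AS c_wQ_26_wN_1_rb8033094a_d43_d53_d41_d3a0b_d51_d03 := p_wQ_26_wN_1_rb8033094a_d43_d53_d41_d3a0b_d51_d03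

theorem g_wQ_26_wN_1_rb8033094a_d43_d53_d41_d3a0b_d51_d05 : GoodKC AS c_wQ_26_wN_1_rb8033094a_d43_d53_d41_d3a0b_d51_d05 := p_wQ_26_wN_1_rb8033094a_d43_d53_d41_d3a0b_d51_d05

theorem g_wQ_26_wN_1_rb8033094a_d43_d53_d41_d3a0b_d51_d07 : GoodKC AS c_wQ_26_wN_1_rb8033094a_d43_d53_d41_d3a0b_d51_d07 := p_wQ_26_wN_1_rb8033094a_d43_d53_d41_d3a0b_d51_d07

theorem g_wQ_26_wN_1_rb8033094a_d43_d53_d41_d3a0b_d51_d0e : GoodKC AS c_wQ_26_wN_1_rb8033094a_d43_d53_d41_d3a0b_d51_d0e := p_wQ_26_wN_1_rb8033094a_d43_d53_d41_d3a0b_d51_d0e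

theorem g_wQ_26_wN_1_rb8033094a_d43_d53_d41_d3a0b_d51_d0f : GoodKC AS c_wQ_26_wN_1_rb8033094a_d43_d53_d41_d3a0b_d51_d0f := p_wQ_26_wN_1_rb8033094a_d43_d53_d41_d3a0b_d51_d0f

theorem g_wQ_26_wN_1_rb8033094a_d43_d53_d41_d3a0b_d51_d15 : GoodKC AS c_wQ_26_wN_1_rb8033094a_d43_d53_d41_d3a0b_d51_d15 := p_wQ_26_wN_1_rb8033094a_d43_d53_d41_d3a0b_d51_d15

theorem g_wQ_26_wN_1_rb8033094a_d43_d53_d41_d3a0b_d51_d1a : GoodKC AS c_wQ_26_wN_1_rb8033094a_d43_d53_d41_d3a0b_d51_d1a := p_wQ_26_wN_1_rb8033094a_d43_d53_d41_d3a0b_d51_d1a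

theorem g_wQ_26_wN_1_rb8033094a_d43_d53_d41_d3a0b : GoodKC AS c_wQ_26_wN_1_rb8033094a_d43_d53_d41_d3a0b := p_wQ_26_wN_1_rb8033094a_d43_d53_d41_d3a0b g_wQ_26_wN_1_rb8033094a_d43_d53_d41_d3a0b_d51_d19 g_wQ_26_wN_1_rb8033094a_d43_d53_d41_d3a0b_d51_d18 g_wQ_26_wN_1_rb8033094a_d43_d53_d41_d3a0b_d51_d17 g_wQ_26_wN_1_rb8033094a_d43_d53_d41_d3a0b_d51_d16 g_wQ_26_wN_1_rb8033094a_d43_d53_d41_d3a0b_d51_d14 g_wQ_26_wN_1_rb8033094a_d43_d53_d41_d3a0b_d51_d13 g_wQ_26_wN_1_rb8033094a_d43_d53_d41_d3a0b_d51_d12 g_wQ_26_wN_1_rb8033094a_d43_d53_d41_d3a0b_d51_d11 g_wQ_26_wN_1_rb8033094a_d43_d53_d41_d3a0b_d51_d10 g_wQ_26_wN_1_rb8033094a_d43_d53_d41_d3a0b_d51_d0d g_wQ_26_wN_1_rb8033094a_d43_d53_d41_d3a0b_d51_d0c g_wQ_26_wN_1_rb8033094a_d43_d53_d41_d3a0b_d51_d0b g_wQ_26_wN_1_rb8033094a_d43_d53_d41_d3a0b_d51_d0a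 g_wQ_26_wN_1_rb8033094a_d43_d53_d41_d3a0b_d51_d09 g_wQ_26_wN_1_rb8033094a_d43_d53_d41_d3a0b_d51_d08 g_wQ_26_wN_1_rb8033094a_d43_d53_d41_d3a0b_d51_d06 g__wQ_26_wN_1_rb8033094a_d43_d53_d41_d3a0b_0 g_wQ_26_wN_1_rb8033094a_d43_d53_d41_d3a0b_d51_d04 g_wQ_26_wN_1_rb8033094a_d43_d53_d41_d3a0b_d51_d02 g_wQ_26_wN_1_rb8033094a_d43_d53_d41_d3a0b_d51_d00 g_wQ_26_wN_1_rb8033094a_d43_d53_d41_d3a0b_d51_d01 g_wQ_26_wN_1_rb8033094a_d43_d53_d41_d3a0b_d51_d03 g_wQ_26_wN_1_rb8033094a_d43_d53_d41_d3a0b_d51_d05 g_wQ_26_wN_1_rb8033094a_d43_d53_d41_d3a0b_d51_d07 g_wQ_26_wN_1_rb8033094a_d43_d53_d41_d3a0b_d51_d0e g_wQ_26_wN_1_rb8033094a_d43_d53_d41_d3a0b_d51_d0f g_wQ_26_wN_1_rb8033094a_d43_d53_d41_d3a0b_d51_d15 g_wQ_26_wN_1_rb8033094a_d43_d53_d41_d3a0b_d51_d1a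

theorem g_wQ_26_wN_1_rb8033094a_d43_d53_d41_d3a0e : GoodKC AS c_wQ_26_wN_1_rb8033094a_d43_d53_d41_d3a0e := p_wQ_26_wN_1_rb8033094a_d43_d53_d41_d3a0e

theorem g_wQ_26_wN_1_rb8033094a_d43_d53_d41_d3ax9 : GoodKC AS c_wQ_26_wN_1_rb8033094a_d43_d53_d41_d3ax9 := p_wQ_26_wN_1_rb8033094a_d43_d53_d41_d3a g_wQ_26_wN_1_rb8033094a_d43_d53_d41_d3a0d g_wQ_26_wN_1_rb8033094a_d43_d53_d41_d3a0c g_wQ_26_wN_1_rb8033094a_d43_d53_d41_d3a0a g_wQ_26_wN_1_rb8033094a_d43_d53_d41_d3a09 g_wQ_26_wN_1_rb8033094a_d43_d53_d41_d3a08 g_wQ_26_wN_1_rb8033094a_d43_d53_d41_d3a07 g__wQ_26_wN_1_rb8033094a_d43_d53_d41_d3a_0 g__wQ_26_wN_1_rb8033094a_d43_d53_d41_d3a_1 g_wQ_26_wN_1_rb8033094a_d43_d53_d41_d3a05 g_wQ_26_wN_1_rb8033094a_d43_d53_d41_d3a06 g_wQ_26_wN_1_rb8033094a_d43_d53_d41_d3a0b g_wQ_26_wN_1_rb8033094a_d43_d53_d41_d3a0e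

theorem g_wQ_26_wN_1_rb8033094a_d43_d53_d41_d39_d43_d4fx2 : GoodKC AS c_wQ_26_wN_1_rb8033094a_d43_d53_d41_d39_d43_d4fx2 := p_wQ_26_wN_1_rb8033094a_d43_d53_d41_d39_d43_d4f

theorem g_wQ_26_wN_1_rb8033094a_d43_d53_d41_d39_d43_d4ex2 : GoodKC AS c_wQ_26_wN_1_rb8033094a_d43_d53_d41_d39_d43_d4ex2 := p_wQ_26_wN_1_rb8033094a_d43_d53_d41_d39_d43_d4e

theorem g_wQ_26_wN_1_rb8033094a_d43_d53_d41_d39_d43_d4bx2 : GoodKC AS c_wQ_26_wN_1_rb8033094a_d43_d53_d41_d39_d43_d4bx2 := p_wQ_26_wN_1_rb8033094a_d43_d53_d41_d39_d43_d4b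

theorem g__wQ_26_wN_1_rb8033094a_d43_d53_d41_d39_d43_d4a_4 : GoodKC AS k_wQ_26_wN_1_rb8033094a_d43_d53_d41_d39_d43_d4a_4 := p_wQ_26_wN_1_rb8033094a_d43_d53_d41_d39_d43_d4a_4

theorem g__wQ_26_wN_1_rb8033094a_d43_d53_d41_d39_d43_d4a_3 : GoodKC AS k_wQ_26_wN_1_rb8033094a_d43_d53_d41_d39_d43_d4a_3 := p_wQ_26_wN_1_rb8033094a_d43_d53_d41_d39_d43_d4a_3 g__wQ_26_wN_1_rb8033094a_d43_d53_d41_d39_d43_d4a_4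

theorem g__wQ_26_wN_1_rb8033094a_d43_d53_d41_d39_d43_d4a_2 : GoodKC AS k_wQ_26_wN_1_rb8033094a_d43_d53_d41_d39_d43_d4a_2 := p_wQ_26_wN_1_rb8033094a_d43_d53_d41_d39_d43_d4a_2 g__wQ_26_wN_1_rb8033094a_d43_d53_d41_d39_d43_d4a_3

theorem g__wQ_26_wN_1_rb8033094a_d43_d53_d41_d39_d43_d4a_8 : GoodKC AS k_wQ_26_wN_1_rb8033094a_d43_d53_d41_d39_d43_d4a_8 := p_wQ_26_wN_1_rb8033094a_d43_d53_d41_d39_d43_d4a_8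

theorem g__wQ_26_wN_1_rb8033094a_d43_d53_d41_d39_d43_d4a_7 : GoodKC AS k_wQ_26_wN_1_rb8033094a_d43_d53_d41_d39_d43_d4a_7 := p_wQ_26_wN_1_rb8033094a_d43_d53_d41_d39_d43_d4a_7 g__wQ_26_wN_1_rb8033094a_d43_d53_d41_d39_d43_d4a_8

theorem g__wQ_26_wN_1_rb8033094a_d43_d53_d41_d39_d43_d4a_6 : GoodKC AS k_wQ_26_wN_1_rb8033094a_d43_d53_d41_d39_d43_d4a_6 := p_wQ_26_wN_1_rb8033094a_d43_d53_d41_d39_d43_d4a_6 g__wQ_26_wN_1_rb8033094a_d43_d53_d41_d39_d43_d4a_7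

theorem g__wQ_26_wN_1_rb8033094a_d43_d53_d41_d39_d43_d4a_5 : GoodKC AS k_wQ_26_wN_1_rb8033094a_d43_d53_d41_d39_d43_d4a_5 := p_wQ_26_wN_1_rb8033094a_d43_d53_d41_d39_d43_d4a_5 g__wQ_26_wN_1_rb8033094a_d43_d53_d41_d39_d43_d4a_6

theorem g__wQ_26_wN_1_rb8033094a_d43_d53_d41_d39_d43_d4a_9 : GoodKC AS k_wQ_26_wN_1_rb8033094a_d43_d53_d41_d39_d43_d4a_9 := p_wQ_26_wN_1_rb8033094a_d43_d53_d41_d39_d43_d4a_9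

theorem g__wQ_26_wN_1_rb8033094a_d43_d53_d41_d39_d43_d4a_1 : GoodKC AS k_wQ_26_wN_1_rb8033094a_d43_d53_d41_d39_d43_d4a_1 := p_wQ_26_wN_1_rb8033094a_d43_d53_d41_d39_d43_d4a_1 g__wQ_26_wN_1_rb8033094a_d43_d53_d41_d39_d43_d4a_2 g__wQ_26_wN_1_rb8033094a_d43_d53_d41_d39_d43_d4a_5 g__wQ_26_wN_1_rb8033094a_d43_d53_d41_d39_d43_d4a_9

theorem g__wQ_26_wN_1_rb8033094a_d43_d53_d41_d39_d43_d4a_0 : GoodKC AS k_wQ_26_wN_1_rb8033094a_d43_d53_d41_d39_d43_d4a_0 := p_wQ_26_wN_1_rb8033094a_d43_d53_d41_d39_d43_d4a_0 g__wQ_26_wN_1_rb8033094a_d43_d53_d41_d39_d43_d4a_1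

theorem g_wQ_26_wN_1_rb8033094a_d43_d53_d41_d39_d43_d4ax2 : GoodKC AS c_wQ_26_wN_1_rb8033094a_d43_d53_d41_d39_d43_d4ax2 := p_wQ_26_wN_1_rb8033094a_d43_d53_d41_d39_d43_d4a g__wQ_26_wN_1_rb8033094a_d43_d53_d41_d39_d43_d4a_0

theorem g_wQ_26_wN_1_rb8033094a_d43_d53_d41_d39_d43_d48x2 : GoodKC AS c_wQ_26_wN_1_rb8033094a_d43_d53_d41_d39_d43_d48x2 := p_wQ_26_wN_1_rb8033094a_d43_d53_d41_d39_d43_d48

theorem g_wQ_26_wN_1_rb8033094a_d43_d53_d41_d39_d43_d47x2 : GoodKC AS c_wQ_26_wN_1_rb8033094a_d43_d53_d41_d39_d43_d47x2 := p_wQ_26_wN_1_rb8033094a_d43_d53_d41_d39_d43_d47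

theorem g__wQ_26_wN_1_rb8033094a_d43_d53_d41_d39_d43_d46_1 : GoodKC AS k_wQ_26_wN_1_rb8033094a_d43_d53_d41_d39_d43_d46_1 := p_wQ_26_wN_1_rb8033094a_d43_d53_d41_d39_d43_d46_1

theorem g__wQ_26_wN_1_rb8033094a_d43_d53_d41_d39_d43_d46_3 : GoodKC AS k_wQ_26_wN_1_rb8033094a_d43_d53_d41_d39_d43_d46_3 := p_wQ_26_wN_1_rb8033094a_d43_d53_d41_d39_d43_d46_3

theorem g__wQ_26_wN_1_rb8033094a_d43_d53_d41_d39_d43_d46_4 : GoodKC AS k_wQ_26_wN_1_rb8033094a_d43_d53_d41_d39_d43_d46_4 := p_wQ_26_wN_1_rb8033094a_d43_d53_d41_d39_d43_d46_4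

theorem g__wQ_26_wN_1_rb8033094a_d43_d53_d41_d39_d43_d46_2 : GoodKC AS k_wQ_26_wN_1_rb8033094a_d43_d53_d41_d39_d43_d46_2 := p_wQ_26_wN_1_rb8033094a_d43_d53_d41_d39_d43_d46_2 g__wQ_26_wN_1_rb8033094a_d43_d53_d41_d39_d43_d46_3 g__wQ_26_wN_1_rb8033094a_d43_d53_d41_d39_d43_d46_4

theorem g__wQ_26_wN_1_rb8033094a_d43_d53_d41_d39_d43_d46_7 : GoodKC AS k_wQ_26_wN_1_rb8033094a_d43_d53_d41_d39_d43_d46_7 := p_wQ_26_wN_1_rb8033094a_d43_d53_d41_d39_d43_d46_7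

theorem g__wQ_26_wN_1_rb8033094a_d43_d53_d41_d39_d43_d46_11 : GoodKC AS k_wQ_26_wN_1_rb8033094a_d43_d53_d41_d39_d43_d46_11 := p_wQ_26_wN_1_rb8033094a_d43_d53_d41_d39_d43_d46_11

theorem g__wQ_26_wN_1_rb8033094a_d43_d53_d41_d39_d43_d46_10 : GoodKC AS k_wQ_26_wN_1_rb8033094a_d43_d53_d41_d39_d43_d46_10 := p_wQ_26_wN_1_rb8033094a_d43_d53_d41_d39_d43_d46_10 g__wQ_26_wN_1_rb8033094a_d43_d53_d41_d39_d43_d46_11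

theorem g__wQ_26_wN_1_rb8033094a_d43_d53_d41_d39_d43_d46_12 : GoodKC AS k_wQ_26_wN_1_rb8033094a_d43_d53_d41_d39_d43_d46_12 := p_wQ_26_wN_1_rb8033094a_d43_d53_d41_d39_d43_d46_12

theorem g__wQ_26_wN_1_rb8033094a_d43_d53_d41_d39_d43_d46_16 : GoodKC AS k_wQ_26_wN_1_rb8033094a_d43_d53_d41_d39_d43_d46_16 := p_wQ_26_wN_1_rb8033094a_d43_d53_d41_d39_d43_d46_16

theorem g__wQ_26_wN_1_rb8033094a_d43_d53_d41_d39_d43_d46_18 : GoodKC AS k_wQ_26_wN_1_rb8033094a_d43_d53_d41_d39_d43_d46_18 := p_wQ_26_wN_1_rb8033094a_d43_d53_d41_d39_d43_d46_18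

theorem g__wQ_26_wN_1_rb8033094a_d43_d53_d41_d39_d43_d46_17 : GoodKC AS k_wQ_26_wN_1_rb8033094a_d43_d53_d41_d39_d43_d46_17 := p_wQ_26_wN_1_rb8033094a_d43_d53_d41_d39_d43_d46_17 g__wQ_26_wN_1_rb8033094a_d43_d53_d41_d39_d43_d46_18

theorem g__wQ_26_wN_1_rb8033094a_d43_d53_d41_d39_d43_d46_15 : GoodKC AS k_wQ_26_wN_1_rb8033094a_d43_d53_d41_d39_d43_d46_15 := p_wQ_26_wN_1_rb8033094a_d43_d53_d41_d39_d43_d46_15 g__wQ_26_wN_1_rb8033094a_d43_d53_d41_d39_d43_d46_16 g__wQ_26_wN_1_rb8033094a_d43_d53_d41_d39_d43_d46_17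

theorem g__wQ_26_wN_1_rb8033094a_d43_d53_d41_d39_d43_d46_14 : GoodKC AS k_wQ_26_wN_1_rb8033094a_d43_d53_d41_d39_d43_d46_14 := p_wQ_26_wN_1_rb8033094a_d43_d53_d41_d39_d43_d46_14 g__wQ_26_wN_1_rb8033094a_d43_d53_d41_d39_d43_d46_15

theorem g__wQ_26_wN_1_rb8033094a_d43_d53_d41_d39_d43_d46_13 : GoodKC AS k_wQ_26_wN_1_rb8033094a_d43_d53_d41_d39_d43_d46_13 := p_wQ_26_wN_1_rb8033094a_d43_d53_d41_d39_d43_d46_13 g__wQ_26_wN_1_rb8033094a_d43_d53_d41_d39_d43_d46_14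

theorem g__wQ_26_wN_1_rb8033094a_d43_d53_d41_d39_d43_d46_21 : GoodKC AS k_wQ_26_wN_1_rb8033094a_d43_d53_d41_d39_d43_d46_21 := p_wQ_26_wN_1_rb8033094a_d43_d53_d41_d39_d43_d46_21

theorem g__wQ_26_wN_1_rb8033094a_d43_d53_d41_d39_d43_d46_24 : GoodKC AS k_wQ_26_wN_1_rb8033094a_d43_d53_d41_d39_d43_d46_24 := p_wQ_26_wN_1_rb8033094a_d43_d53_d41_d39_d43_d46_24

theorem g__wQ_26_wN_1_rb8033094a_d43_d53_d41_d39_d43_d46_23 : GoodKC AS k_wQ_26_wN_1_rb8033094a_d43_d53_d41_d39_d43_d46_23 := p_wQ_26_wN_1_rb8033094a_d43_d53_d41_d39_d43_d46_23 g__wQ_26_wN_1_rb8033094a_d43_d53_d41_d39_d43_d46_24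

theorem g__wQ_26_wN_1_rb8033094a_d43_d53_d41_d39_d43_d46_22 : GoodKC AS k_wQ_26_wN_1_rb8033094a_d43_d53_d41_d39_d43_d46_22 := p_wQ_26_wN_1_rb8033094a_d43_d53_d41_d39_d43_d46_22 g__wQ_26_wN_1_rb8033094a_d43_d53_d41_d39_d43_d46_23

theorem g__wQ_26_wN_1_rb8033094a_d43_d53_d41_d39_d43_d46_20 : GoodKC AS k_wQ_26_wN_1_rb8033094a_d43_d53_d41_d39_d43_d46_20 := p_wQ_26_wN_1_rb8033094a_d43_d53_d41_d39_d43_d46_20 g__wQ_26_wN_1_rb8033094a_d43_d53_d41_d39_d43_d46_21 g__wQ_26_wN_1_rb8033094a_d43_d53_d41_d39_d43_d46_22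

theorem g__wQ_26_wN_1_rb8033094a_d43_d53_d41_d39_d43_d46_19 : GoodKC AS k_wQ_26_wN_1_rb8033094a_d43_d53_d41_d39_d43_d46_19 := p_wQ_26_wN_1_rb8033094a_d43_d53_d41_d39_d43_d46_19 g__wQ_26_wN_1_rb8033094a_d43_d53_d41_d39_d43_d46_20

theorem g__wQ_26_wN_1_rb8033094a_d43_d53_d41_d39_d43_d46_9 : GoodKC AS k_wQ_26_wN_1_rb8033094a_d43_d53_d41_d39_d43_d46_9 := p_wQ_26_wN_1_rb8033094a_d43_d53_d41_d39_d43_d46_9 g__wQ_26_wN_1_rb8033094a_d43_d53_d41_d39_d43_d46_10 g__wQ_26_wN_1_rb8033094a_d43_d53_d41_d39_d43_d46_12 g__wQ_26_wN_1_rb8033094a_d43_d53_d41_d39_d43_d46_13 g__wQ_26_wN_1_rb8033094a_d43_d53_d41_d39_d43_d46_19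

theorem g__wQ_26_wN_1_rb8033094a_d43_d53_d41_d39_d43_d46_8 : GoodKC AS k_wQ_26_wN_1_rb8033094a_d43_d53_d41_d39_d43_d46_8 := p_wQ_26_wN_1_rb8033094a_d43_d53_d41_d39_d43_d46_8 g__wQ_26_wN_1_rb8033094a_d43_d53_d41_d39_d43_d46_9

theorem g__wQ_26_wN_1_rb8033094a_d43_d53_d41_d39_d43_d46_6 : GoodKC AS k_wQ_26_wN_1_rb8033094a_d43_d53_d41_d39_d43_d46_6 := p_wQ_26_wN_1_rb8033094a_d43_d53_d41_d39_d43_d46_6 g__wQ_26_wN_1_rb8033094a_d43_d53_d41_d39_d43_d46_7 g__wQ_26_wN_1_rb8033094a_d43_d53_d41_d39_d43_d46_8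

theorem g__wQ_26_wN_1_rb8033094a_d43_d53_d41_d39_d43_d46_5 : GoodKC AS k_wQ_26_wN_1_rb8033094a_d43_d53_d41_d39_d43_d46_5 := p_wQ_26_wN_1_rb8033094a_d43_d53_d41_d39_d43_d46_5 g__wQ_26_wN_1_rb8033094a_d43_d53_d41_d39_d43_d46_6

theorem g__wQ_26_wN_1_rb8033094a_d43_d53_d41_d39_d43_d46_26 : GoodKC AS k_wQ_26_wN_1_rb8033094a_d43_d53_d41_d39_d43_d46_26 := p_wQ_26_wN_1_rb8033094a_d43_d53_d41_d39_d43_d46_26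

theorem g__wQ_26_wN_1_rb8033094a_d43_d53_d41_d39_d43_d46_27 : GoodKC AS k_wQ_26_wN_1_rb8033094a_d43_d53_d41_d39_d43_d46_27 := p_wQ_26_wN_1_rb8033094a_d43_d53_d41_d39_d43_d46_27

theorem g__wQ_26_wN_1_rb8033094a_d43_d53_d41_d39_d43_d46_25 : GoodKC AS k_wQ_26_wN_1_rb8033094a_d43_d53_d41_d39_d43_d46_25 := p_wQ_26_wN_1_rb8033094a_d43_d53_d41_d39_d43_d46_25 g__wQ_26_wN_1_rb8033094a_d43_d53_d41_d39_d43_d46_26 g__wQ_26_wN_1_rb8033094a_d43_d53_d41_d39_d43_d46_27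

theorem g__wQ_26_wN_1_rb8033094a_d43_d53_d41_d39_d43_d46_0 : GoodKC AS k_wQ_26_wN_1_rb8033094a_d43_d53_d41_d39_d43_d46_0 := p_wQ_26_wN_1_rb8033094a_d43_d53_d41_d39_d43_d46_0 g__wQ_26_wN_1_rb8033094a_d43_d53_d41_d39_d43_d46_1 g__wQ_26_wN_1_rb8033094a_d43_d53_d41_d39_d43_d46_2 g__wQ_26_wN_1_rb8033094a_d43_d53_d41_d39_d43_d46_5 g__wQ_26_wN_1_rb8033094a_d43_d53_d41_d39_d43_d46_25

theorem g_wQ_26_wN_1_rb8033094a_d43_d53_d41_d39_d43_d46x2 : GoodKC AS c_wQ_26_wN_1_rb8033094a_d43_d53_d41_d39_d43_d46x2 := p_wQ_26_wN_1_rb8033094a_d43_d53_d41_d39_d43_d46 g__wQ_26_wN_1_rb8033094a_d43_d53_d41_d39_d43_d46_0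

theorem g_wQ_26_wN_1_rb8033094a_d43_d53_d41_d39_d43_d45x2 : GoodKC AS c_wQ_26_wN_1_rb8033094a_d43_d53_d41_d39_d43_d45x2 := p_wQ_26_wN_1_rb8033094a_d43_d53_d41_d39_d43_d45

theorem g_wQ_26_wN_1_rb8033094a_d43_d53_d41_d39_d43_d44x2 : GoodKC AS c_wQ_26_wN_1_rb8033094a_d43_d53_d41_d39_d43_d44x2 := p_wQ_26_wN_1_rb8033094a_d43_d53_d41_d39_d43_d44

theorem g_wQ_26_wN_1_rb8033094a_d43_d53_d41_d39_d43_d42x2 : GoodKC AS c_wQ_26_wN_1_rb8033094a_d43_d53_d41_d39_d43_d42x2 := p_wQ_26_wN_1_rb8033094a_d43_d53_d41_d39_d43_d42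

theorem g__wQ_26_wN_1_rb8033094a_d43_d53_d41_d39_d43_d41_3 : GoodKC AS k_wQ_26_wN_1_rb8033094a_d43_d53_d41_d39_d43_d41_3 := p_wQ_26_wN_1_rb8033094a_d43_d53_d41_d39_d43_d41_3

theorem g__wQ_26_wN_1_rb8033094a_d43_d53_d41_d39_d43_d41_2 : GoodKC AS k_wQ_26_wN_1_rb8033094a_d43_d53_d41_d39_d43_d41_2 := p_wQ_26_wN_1_rb8033094a_d43_d53_d41_d39_d43_d41_2 g__wQ_26_wN_1_rb8033094a_d43_d53_d41_d39_d43_d41_3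

theorem g__wQ_26_wN_1_rb8033094a_d43_d53_d41_d39_d43_d41_1 : GoodKC AS k_wQ_26_wN_1_rb8033094a_d43_d53_d41_d39_d43_d41_1 := p_wQ_26_wN_1_rb8033094a_d43_d53_d41_d39_d43_d41_1 g__wQ_26_wN_1_rb8033094a_d43_d53_d41_d39_d43_d41_2

theorem g__wQ_26_wN_1_rb8033094a_d43_d53_d41_d39_d43_d41_0 : GoodKC AS k_wQ_26_wN_1_rb8033094a_d43_d53_d41_d39_d43_d41_0 := p_wQ_26_wN_1_rb8033094a_d43_d53_d41_d39_d43_d41_0 g__wQ_26_wN_1_rb8033094a_d43_d53_d41_d39_d43_d41_1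

theorem g__wQ_26_wN_1_rb8033094a_d43_d53_d41_d39_d43_d41_4 : GoodKC AS k_wQ_26_wN_1_rb8033094a_d43_d53_d41_d39_d43_d41_4 := p_wQ_26_wN_1_rb8033094a_d43_d53_d41_d39_d43_d41_4

theorem g_wQ_26_wN_1_rb8033094a_d43_d53_d41_d39_d43_d41x2 : GoodKC AS c_wQ_26_wN_1_rb8033094a_d43_d53_d41_d39_d43_d41x2 := p_wQ_26_wN_1_rb8033094a_d43_d53_d41_d39_d43_d41 g__wQ_26_wN_1_rb8033094a_d43_d53_d41_d39_d43_d41_0 g__wQ_26_wN_1_rb8033094a_d43_d53_d41_d39_d43_d41_4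

theorem g_wQ_26_wN_1_rb8033094a_d43_d53_d41_d39_d43_d40x2 : GoodKC AS c_wQ_26_wN_1_rb8033094a_d43_d53_d41_d39_d43_d40x2 := p_wQ_26_wN_1_rb8033094a_d43_d53_d41_d39_d43_d40

theorem g__wQ_26_wN_1_rb8033094a_d43_d53_d41_d39_d43_d3f_0 : GoodKC AS k_wQ_26_wN_1_rb8033094a_d43_d53_d41_d39_d43_d3f_0 := p_wQ_26_wN_1_rb8033094a_d43_d53_d41_d39_d43_d3f_0

theorem g__wQ_26_wN_1_rb8033094a_d43_d53_d41_d39_d43_d3f_1 : GoodKC AS k_wQ_26_wN_1_rb8033094a_d43_d53_d41_d39_d43_d3f_1 := p_wQ_26_wN_1_rb8033094a_d43_d53_d41_d39_d43_d3f_1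

theorem g_wQ_26_wN_1_rb8033094a_d43_d53_d41_d39_d43_d3fx2 : GoodKC AS c_wQ_26_wN_1_rb8033094a_d43_d53_d41_d39_d43_d3fx2 := p_wQ_26_wN_1_rb8033094a_d43_d53_d41_d39_d43_d3f g__wQ_26_wN_1_rb8033094a_d43_d53_d41_d39_d43_d3f_0 g__wQ_26_wN_1_rb8033094a_d43_d53_d41_d39_d43_d3f_1

theorem g__wQ_26_wN_1_rb8033094a_d43_d53_d41_d39_d43_d3c_1 : GoodKC AS k_wQ_26_wN_1_rb8033094a_d43_d53_d41_d39_d43_d3c_1 := p_wQ_26_wN_1_rb8033094a_d43_d53_d41_d39_d43_d3c_1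

theorem g__wQ_26_wN_1_rb8033094a_d43_d53_d41_d39_d43_d3c_2 : GoodKC AS k_wQ_26_wN_1_rb8033094a_d43_d53_d41_d39_d43_d3c_2 := p_wQ_26_wN_1_rb8033094a_d43_d53_d41_d39_d43_d3c_2

theorem g__wQ_26_wN_1_rb8033094a_d43_d53_d41_d39_d43_d3c_7 : GoodKC AS k_wQ_26_wN_1_rb8033094a_d43_d53_d41_d39_d43_d3c_7 := p_wQ_26_wN_1_rb8033094a_d43_d53_d41_d39_d43_d3c_7

theorem g__wQ_26_wN_1_rb8033094a_d43_d53_d41_d39_d43_d3c_6 : GoodKC AS k_wQ_26_wN_1_rb8033094a_d43_d53_d41_d39_d43_d3c_6 := p_wQ_26_wN_1_rb8033094a_d43_d53_d41_d39_d43_d3c_6 g__wQ_26_wN_1_rb8033094a_d43_d53_d41_d39_d43_d3c_7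

theorem g__wQ_26_wN_1_rb8033094a_d43_d53_d41_d39_d43_d3c_5 : GoodKC AS k_wQ_26_wN_1_rb8033094a_d43_d53_d41_d39_d43_d3c_5 := p_wQ_26_wN_1_rb8033094a_d43_d53_d41_d39_d43_d3c_5 g__wQ_26_wN_1_rb8033094a_d43_d53_d41_d39_d43_d3c_6

theorem g__wQ_26_wN_1_rb8033094a_d43_d53_d41_d39_d43_d3c_4 : GoodKC AS k_wQ_26_wN_1_rb8033094a_d43_d53_d41_d39_d43_d3c_4 := p_wQ_26_wN_1_rb8033094a_d43_d53_d41_d39_d43_d3c_4 g__wQ_26_wN_1_rb8033094a_d43_d53_d41_d39_d43_d3c_5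

theorem g__wQ_26_wN_1_rb8033094a_d43_d53_d41_d39_d43_d3c_8 : GoodKC AS k_wQ_26_wN_1_rb8033094a_d43_d53_d41_d39_d43_d3c_8 := p_wQ_26_wN_1_rb8033094a_d43_d53_d41_d39_d43_d3c_8

theorem g__wQ_26_wN_1_rb8033094a_d43_d53_d41_d39_d43_d3c_9 : GoodKC AS k_wQ_26_wN_1_rb8033094a_d43_d53_d41_d39_d43_d3c_9 := p_wQ_26_wN_1_rb8033094a_d43_d53_d41_d39_d43_d3c_9

theorem g__wQ_26_wN_1_rb8033094a_d43_d53_d41_d39_d43_d3c_3 : GoodKC AS k_wQ_26_wN_1_rb8033094a_d43_d53_d41_d39_d43_d3c_3 := p_wQ_26_wN_1_rb8033094a_d43_d53_d41_d39_d43_d3c_3 g__wQ_26_wN_1_rb8033094a_d43_d53_d41_d39_d43_d3c_4 g__wQ_26_wN_1_rb8033094a_d43_d53_d41_d39_d43_d3c_8 g__wQ_26_wN_1_rb8033094a_d43_d53_d41_d39_d43_d3c_9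

theorem g__wQ_26_wN_1_rb8033094a_d43_d53_d41_d39_d43_d3c_0 : GoodKC AS k_wQ_26_wN_1_rb8033094a_d43_d53_d41_d39_d43_d3c_0 := p_wQ_26_wN_1_rb8033094a_d43_d53_d41_d39_d43_d3c_0 g__wQ_26_wN_1_rb8033094a_d43_d53_d41_d39_d43_d3c_1 g__wQ_26_wN_1_rb8033094a_d43_d53_d41_d39_d43_d3c_2 g__wQ_26_wN_1_rb8033094a_d43_d53_d41_d39_d43_d3c_3

theorem g__wQ_26_wN_1_rb8033094a_d43_d53_d41_d39_d43_d3c_13 : GoodKC AS k_wQ_26_wN_1_rb8033094a_d43_d53_d41_d39_d43_d3c_13 := p_wQ_26_wN_1_rb8033094a_d43_d53_d41_d39_d43_d3c_13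

theorem g__wQ_26_wN_1_rb8033094a_d43_d53_d41_d39_d43_d3c_14 : GoodKC AS k_wQ_26_wN_1_rb8033094a_d43_d53_d41_d39_d43_d3c_14 := p_wQ_26_wN_1_rb8033094a_d43_d53_d41_d39_d43_d3c_14

theorem g__wQ_26_wN_1_rb8033094a_d43_d53_d41_d39_d43_d3c_12 : GoodKC AS k_wQ_26_wN_1_rb8033094a_d43_d53_d41_d39_d43_d3c_12 := p_wQ_26_wN_1_rb8033094a_d43_d53_d41_d39_d43_d3c_12 g__wQ_26_wN_1_rb8033094a_d43_d53_d41_d39_d43_d3c_13 g__wQ_26_wN_1_rb8033094a_d43_d53_d41_d39_d43_d3c_14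

theorem g__wQ_26_wN_1_rb8033094a_d43_d53_d41_d39_d43_d3c_11 : GoodKC AS k_wQ_26_wN_1_rb8033094a_d43_d53_d41_d39_d43_d3c_11 := p_wQ_26_wN_1_rb8033094a_d43_d53_d41_d39_d43_d3c_11 g__wQ_26_wN_1_rb8033094a_d43_d53_d41_d39_d43_d3c_12

theorem g__wQ_26_wN_1_rb8033094a_d43_d53_d41_d39_d43_d3c_16 : GoodKC AS k_wQ_26_wN_1_rb8033094a_d43_d53_d41_d39_d43_d3c_16 := p_wQ_26_wN_1_rb8033094a_d43_d53_d41_d39_d43_d3c_16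

theorem g__wQ_26_wN_1_rb8033094a_d43_d53_d41_d39_d43_d3c_15 : GoodKC AS k_wQ_26_wN_1_rb8033094a_d43_d53_d41_d39_d43_d3c_15 := p_wQ_26_wN_1_rb8033094a_d43_d53_d41_d39_d43_d3c_15 g__wQ_26_wN_1_rb8033094a_d43_d53_d41_d39_d43_d3c_16

theorem g__wQ_26_wN_1_rb8033094a_d43_d53_d41_d39_d43_d3c_17 : GoodKC AS k_wQ_26_wN_1_rb8033094a_d43_d53_d41_d39_d43_d3c_17 := p_wQ_26_wN_1_rb8033094a_d43_d53_d41_d39_d43_d3c_17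

theorem g__wQ_26_wN_1_rb8033094a_d43_d53_d41_d39_d43_d3c_10 : GoodKC AS k_wQ_26_wN_1_rb8033094a_d43_d53_d41_d39_d43_d3c_10 := p_wQ_26_wN_1_rb8033094a_d43_d53_d41_d39_d43_d3c_10 g__wQ_26_wN_1_rb8033094a_d43_d53_d41_d39_d43_d3c_11 g__wQ_26_wN_1_rb8033094a_d43_d53_d41_d39_d43_d3c_15 g__wQ_26_wN_1_rb8033094a_d43_d53_d41_d39_d43_d3c_17

theorem g_wQ_26_wN_1_rb8033094a_d43_d53_d41_d39_d43_d3cx2 : GoodKC AS c_wQ_26_wN_1_rb8033094a_d43_d53_d41_d39_d43_d3cx2 := p_wQ_26_wN_1_rb8033094a_d43_d53_d41_d39_d43_d3c g__wQ_26_wN_1_rb8033094a_d43_d53_d41_d39_d43_d3c_0 g__wQ_26_wN_1_rb8033094a_d43_d53_d41_d39_d43_d3c_10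

theorem g__wQ_26_wN_1_rb8033094a_d43_d53_d41_d39_d43_d3b_4 : GoodKC AS k_wQ_26_wN_1_rb8033094a_d43_d53_d41_d39_d43_d3b_4 := p_wQ_26_wN_1_rb8033094a_d43_d53_d41_d39_d43_d3b_4

theorem g__wQ_26_wN_1_rb8033094a_d43_d53_d41_d39_d43_d3b_3 : GoodKC AS k_wQ_26_wN_1_rb8033094a_d43_d53_d41_d39_d43_d3b_3 := p_wQ_26_wN_1_rb8033094a_d43_d53_d41_d39_d43_d3b_3 g__wQ_26_wN_1_rb8033094a_d43_d53_d41_d39_d43_d3b_4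

theorem g__wQ_26_wN_1_rb8033094a_d43_d53_d41_d39_d43_d3b_6 : GoodKC AS k_wQ_26_wN_1_rb8033094a_d43_d53_d41_d39_d43_d3b_6 := p_wQ_26_wN_1_rb8033094a_d43_d53_d41_d39_d43_d3b_6

theorem g__wQ_26_wN_1_rb8033094a_d43_d53_d41_d39_d43_d3b_5 : GoodKC AS k_wQ_26_wN_1_rb8033094a_d43_d53_d41_d39_d43_d3b_5 := p_wQ_26_wN_1_rb8033094a_d43_d53_d41_d39_d43_d3b_5 g__wQ_26_wN_1_rb8033094a_d43_d53_d41_d39_d43_d3b_6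

theorem g__wQ_26_wN_1_rb8033094a_d43_d53_d41_d39_d43_d3b_2 : GoodKC AS k_wQ_26_wN_1_rb8033094a_d43_d53_d41_d39_d43_d3b_2 := p_wQ_26_wN_1_rb8033094a_d43_d53_d41_d39_d43_d3b_2 g__wQ_26_wN_1_rb8033094a_d43_d53_d41_d39_d43_d3b_3 g__wQ_26_wN_1_rb8033094a_d43_d53_d41_d39_d43_d3b_5

theorem g__wQ_26_wN_1_rb8033094a_d43_d53_d41_d39_d43_d3b_7 : GoodKC AS k_wQ_26_wN_1_rb8033094a_d43_d53_d41_d39_d43_d3b_7 := p_wQ_26_wN_1_rb8033094a_d43_d53_d41_d39_d43_d3b_7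

theorem g__wQ_26_wN_1_rb8033094a_d43_d53_d41_d39_d43_d3b_9 : GoodKC AS k_wQ_26_wN_1_rb8033094a_d43_d53_d41_d39_d43_d3b_9 := p_wQ_26_wN_1_rb8033094a_d43_d53_d41_d39_d43_d3b_9

theorem g__wQ_26_wN_1_rb8033094a_d43_d53_d41_d39_d43_d3b_8 : GoodKC AS k_wQ_26_wN_1_rb8033094a_d43_d53_d41_d39_d43_d3b_8 := p_wQ_26_wN_1_rb8033094a_d43_d53_d41_d39_d43_d3b_8 g__wQ_26_wN_1_rb8033094a_d43_d53_d41_d39_d43_d3b_9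

theorem g__wQ_26_wN_1_rb8033094a_d43_d53_d41_d39_d43_d3b_1 : GoodKC AS k_wQ_26_wN_1_rb8033094a_d43_d53_d41_d39_d43_d3b_1 := p_wQ_26_wN_1_rb8033094a_d43_d53_d41_d39_d43_d3b_1 g__wQ_26_wN_1_rb8033094a_d43_d53_d41_d39_d43_d3b_2 g__wQ_26_wN_1_rb8033094a_d43_d53_d41_d39_d43_d3b_7 g__wQ_26_wN_1_rb8033094a_d43_d53_d41_d39_d43_d3b_8

theorem g__wQ_26_wN_1_rb8033094a_d43_d53_d41_d39_d43_d3b_12 : GoodKC AS k_wQ_26_wN_1_rb8033094a_d43_d53_d41_d39_d43_d3b_12 := p_wQ_26_wN_1_rb8033094a_d43_d53_d41_d39_d43_d3b_12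

theorem g__wQ_26_wN_1_rb8033094a_d43_d53_d41_d39_d43_d3b_11 : GoodKC AS k_wQ_26_wN_1_rb8033094a_d43_d53_d41_d39_d43_d3b_11 := p_wQ_26_wN_1_rb8033094a_d43_d53_d41_d39_d43_d3b_11 g__wQ_26_wN_1_rb8033094a_d43_d53_d41_d39_d43_d3b_12

theorem g__wQ_26_wN_1_rb8033094a_d43_d53_d41_d39_d43_d3b_10 : GoodKC AS k_wQ_26_wN_1_rb8033094a_d43_d53_d41_d39_d43_d3b_10 := p_wQ_26_wN_1_rb8033094a_d43_d53_d41_d39_d43_d3b_10 g__wQ_26_wN_1_rb8033094a_d43_d53_d41_d39_d43_d3b_11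

theorem g__wQ_26_wN_1_rb8033094a_d43_d53_d41_d39_d43_d3b_0 : GoodKC AS k_wQ_26_wN_1_rb8033094a_d43_d53_d41_d39_d43_d3b_0 := p_wQ_26_wN_1_rb8033094a_d43_d53_d41_d39_d43_d3b_0 g__wQ_26_wN_1_rb8033094a_d43_d53_d41_d39_d43_d3b_1 g__wQ_26_wN_1_rb8033094a_d43_d53_d41_d39_d43_d3b_10

theorem g_wQ_26_wN_1_rb8033094a_d43_d53_d41_d39_d43_d3bx2 : GoodKC AS c_wQ_26_wN_1_rb8033094a_d43_d53_d41_d39_d43_d3bx2 := p_wQ_26_wN_1_rb8033094a_d43_d53_d41_d39_d43_d3b g__wQ_26_wN_1_rb8033094a_d43_d53_d41_d39_d43_d3b_0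

theorem g_wQ_26_wN_1_rb8033094a_d43_d53_d41_d39_d43_d39x2 : GoodKC AS c_wQ_26_wN_1_rb8033094a_d43_d53_d41_d39_d43_d39x2 := p_wQ_26_wN_1_rb8033094a_d43_d53_d41_d39_d43_d39

theorem g__wQ_26_wN_1_rb8033094a_d43_d53_d41_d39_d43_d3838_2 : GoodKC AS k_wQ_26_wN_1_rb8033094a_d43_d53_d41_d39_d43_d3838_2 := p_wQ_26_wN_1_rb8033094a_d43_d53_d41_d39_d43_d3838_2

theorem g__wQ_26_wN_1_rb8033094a_d43_d53_d41_d39_d43_d3838_6 : GoodKC AS k_wQ_26_wN_1_rb8033094a_d43_d53_d41_d39_d43_d3838_6 := p_wQ_26_wN_1_rb8033094a_d43_d53_d41_d39_d43_d3838_6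

theorem g__wQ_26_wN_1_rb8033094a_d43_d53_d41_d39_d43_d3838_5 : GoodKC AS k_wQ_26_wN_1_rb8033094a_d43_d53_d41_d39_d43_d3838_5 := p_wQ_26_wN_1_rb8033094a_d43_d53_d41_d39_d43_d3838_5 g__wQ_26_wN_1_rb8033094a_d43_d53_d41_d39_d43_d3838_6

theorem g__wQ_26_wN_1_rb8033094a_d43_d53_d41_d39_d43_d3838_4 : GoodKC AS k_wQ_26_wN_1_rb8033094a_d43_d53_d41_d39_d43_d3838_4 := p_wQ_26_wN_1_rb8033094a_d43_d53_d41_d39_d43_d3838_4 g__wQ_26_wN_1_rb8033094a_d43_d53_d41_d39_d43_d3838_5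

theorem g__wQ_26_wN_1_rb8033094a_d43_d53_d41_d39_d43_d3838_3 : GoodKC AS k_wQ_26_wN_1_rb8033094a_d43_d53_d41_d39_d43_d3838_3 := p_wQ_26_wN_1_rb8033094a_d43_d53_d41_d39_d43_d3838_3 g__wQ_26_wN_1_rb8033094a_d43_d53_d41_d39_d43_d3838_4

theorem g__wQ_26_wN_1_rb8033094a_d43_d53_d41_d39_d43_d3838_9 : GoodKC AS k_wQ_26_wN_1_rb8033094a_d43_d53_d41_d39_d43_d3838_9 := p_wQ_26_wN_1_rb8033094a_d43_d53_d41_d39_d43_d3838_9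

theorem g__wQ_26_wN_1_rb8033094a_d43_d53_d41_d39_d43_d3838_8 : GoodKC AS k_wQ_26_wN_1_rb8033094a_d43_d53_d41_d39_d43_d3838_8 := p_wQ_26_wN_1_rb8033094a_d43_d53_d41_d39_d43_d3838_8 g__wQ_26_wN_1_rb8033094a_d43_d53_d41_d39_d43_d3838_9

theorem g__wQ_26_wN_1_rb8033094a_d43_d53_d41_d39_d43_d3838_7 : GoodKC AS k_wQ_26_wN_1_rb8033094a_d43_d53_d41_d39_d43_d3838_7 := p_wQ_26_wN_1_rb8033094a_d43_d53_d41_d39_d43_d3838_7 g__wQ_26_wN_1_rb8033094a_d43_d53_d41_d39_d43_d3838_8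

theorem g__wQ_26_wN_1_rb8033094a_d43_d53_d41_d39_d43_d3838_1 : GoodKC AS k_wQ_26_wN_1_rb8033094a_d43_d53_d41_d39_d43_d3838_1 := p_wQ_26_wN_1_rb8033094a_d43_d53_d41_d39_d43_d3838_1 g__wQ_26_wN_1_rb8033094a_d43_d53_d41_d39_d43_d3838_2 g__wQ_26_wN_1_rb8033094a_d43_d53_d41_d39_d43_d3838_3 g__wQ_26_wN_1_rb8033094a_d43_d53_d41_d39_d43_d3838_7

theorem g__wQ_26_wN_1_rb8033094a_d43_d53_d41_d39_d43_d3838_15 : GoodKC AS k_wQ_26_wN_1_rb8033094a_d43_d53_d41_d39_d43_d3838_15 := p_wQ_26_wN_1_rb8033094a_d43_d53_d41_d39_d43_d3838_15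

theorem g__wQ_26_wN_1_rb8033094a_d43_d53_d41_d39_d43_d3838_14 : GoodKC AS k_wQ_26_wN_1_rb8033094a_d43_d53_d41_d39_d43_d3838_14 := p_wQ_26_wN_1_rb8033094a_d43_d53_d41_d39_d43_d3838_14 g__wQ_26_wN_1_rb8033094a_d43_d53_d41_d39_d43_d3838_15

theorem g__wQ_26_wN_1_rb8033094a_d43_d53_d41_d39_d43_d3838_13 : GoodKC AS k_wQ_26_wN_1_rb8033094a_d43_d53_d41_d39_d43_d3838_13 := p_wQ_26_wN_1_rb8033094a_d43_d53_d41_d39_d43_d3838_13 g__wQ_26_wN_1_rb8033094a_d43_d53_d41_d39_d43_d3838_14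

theorem g__wQ_26_wN_1_rb8033094a_d43_d53_d41_d39_d43_d3838_12 : GoodKC AS k_wQ_26_wN_1_rb8033094a_d43_d53_d41_d39_d43_d3838_12 := p_wQ_26_wN_1_rb8033094a_d43_d53_d41_d39_d43_d3838_12 g__wQ_26_wN_1_rb8033094a_d43_d53_d41_d39_d43_d3838_13

theorem g__wQ_26_wN_1_rb8033094a_d43_d53_d41_d39_d43_d3838_11 : GoodKC AS k_wQ_26_wN_1_rb8033094a_d43_d53_d41_d39_d43_d3838_11 := p_wQ_26_wN_1_rb8033094a_d43_d53_d41_d39_d43_d3838_11 g__wQ_26_wN_1_rb8033094a_d43_d53_d41_d39_d43_d3838_12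

theorem g__wQ_26_wN_1_rb8033094a_d43_d53_d41_d39_d43_d3838_10 : GoodKC AS k_wQ_26_wN_1_rb8033094a_d43_d53_d41_d39_d43_d3838_10 := p_wQ_26_wN_1_rb8033094a_d43_d53_d41_d39_d43_d3838_10 g__wQ_26_wN_1_rb8033094a_d43_d53_d41_d39_d43_d3838_11

theorem g__wQ_26_wN_1_rb8033094a_d43_d53_d41_d39_d43_d3838_0 : GoodKC AS k_wQ_26_wN_1_rb8033094a_d43_d53_d41_d39_d43_d3838_0 := p_wQ_26_wN_1_rb8033094a_d43_d53_d41_d39_d43_d3838_0 g__wQ_26_wN_1_rb8033094a_d43_d53_d41_d39_d43_d3838_1 g__wQ_26_wN_1_rb8033094a_d43_d53_d41_d39_d43_d3838_10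

theorem g_wQ_26_wN_1_rb8033094a_d43_d53_d41_d39_d43_d3838 : GoodKC AS c_wQ_26_wN_1_rb8033094a_d43_d53_d41_d39_d43_d3838 := p_wQ_26_wN_1_rb8033094a_d43_d53_d41_d39_d43_d3838 g__wQ_26_wN_1_rb8033094a_d43_d53_d41_d39_d43_d3838_0

theorem g_wQ_26_wN_1_rb8033094a_d43_d53_d41_d39_d43_d3837 : GoodKC AS c_wQ_26_wN_1_rb8033094a_d43_d53_d41_d39_d43_d3837 := p_wQ_26_wN_1_rb8033094a_d43_d53_d41_d39_d43_d3837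

theorem g__wQ_26_wN_1_rb8033094a_d43_d53_d41_d39_d43_d3836_0 : GoodKC AS k_wQ_26_wN_1_rb8033094a_d43_d53_d41_d39_d43_d3836_0 := p_wQ_26_wN_1_rb8033094a_d43_d53_d41_d39_d43_d3836_0

theorem g_wQ_26_wN_1_rb8033094a_d43_d53_d41_d39_d43_d3836 : GoodKC AS c_wQ_26_wN_1_rb8033094a_d43_d53_d41_d39_d43_d3836 := p_wQ_26_wN_1_rb8033094a_d43_d53_d41_d39_d43_d3836 g__wQ_26_wN_1_rb8033094a_d43_d53_d41_d39_d43_d3836_0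

theorem g_wQ_26_wN_1_rb8033094a_d43_d53_d41_d39_d43_d3835 : GoodKC AS c_wQ_26_wN_1_rb8033094a_d43_d53_d41_d39_d43_d3835 := p_wQ_26_wN_1_rb8033094a_d43_d53_d41_d39_d43_d3835

theorem g_wQ_26_wN_1_rb8033094a_d43_d53_d41_d39_d43_d3833 : GoodKC AS c_wQ_26_wN_1_rb8033094a_d43_d53_d41_d39_d43_d3833 := p_wQ_26_wN_1_rb8033094a_d43_d53_d41_d39_d43_d3833

theorem g__wQ_26_wN_1_rb8033094a_d43_d53_d41_d39_d43_d3832v1_0 : GoodKC AS k_wQ_26_wN_1_rb8033094a_d43_d53_d41_d39_d43_d3832v1_0 := p_wQ_26_wN_1_rb8033094a_d43_d53_d41_d39_d43_d3832v1_0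

theorem g_wQ_26_wN_1_rb8033094a_d43_d53_d41_d39_d43_d3832 : GoodKC AS c_wQ_26_wN_1_rb8033094a_d43_d53_d41_d39_d43_d3832 := p_wQ_26_wN_1_rb8033094a_d43_d53_d41_d39_d43_d3832v1 g__wQ_26_wN_1_rb8033094a_d43_d53_d41_d39_d43_d3832v1_0

theorem g__wQ_26_wN_1_rb8033094a_d43_d53_d41_d39_d43_d3831v1_0 : GoodKC AS k_wQ_26_wN_1_rb8033094a_d43_d53_d41_d39_d43_d3831v1_0 := p_wQ_26_wN_1_rb8033094a_d43_d53_d41_d39_d43_d3831v1_0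

theorem g_wQ_26_wN_1_rb8033094a_d43_d53_d41_d39_d43_d3831 : GoodKC AS c_wQ_26_wN_1_rb8033094a_d43_d53_d41_d39_d43_d3831 := p_wQ_26_wN_1_rb8033094a_d43_d53_d41_d39_d43_d3831v1 g__wQ_26_wN_1_rb8033094a_d43_d53_d41_d39_d43_d3831v1_0

theorem g_wQ_26_wN_1_rb8033094a_d43_d53_d41_d39_d43_d382f : GoodKC AS c_wQ_26_wN_1_rb8033094a_d43_d53_d41_d39_d43_d382f := p_wQ_26_wN_1_rb8033094a_d43_d53_d41_d39_d43_d382f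

theorem g_wQ_26_wN_1_rb8033094a_d43_d53_d41_d39_d43_d3829 : GoodKC AS c_wQ_26_wN_1_rb8033094a_d43_d53_d41_d39_d43_d3829 := p_wQ_26_wN_1_rb8033094a_d43_d53_d41_d39_d43_d3829

theorem g_wQ_26_wN_1_rb8033094a_d43_d53_d41_d39_d43_d3827 : GoodKC AS c_wQ_26_wN_1_rb8033094a_d43_d53_d41_d39_d43_d3827 := p_wQ_26_wN_1_rb8033094a_d43_d53_d41_d39_d43_d3827

theorem g__wQ_26_wN_1_rb8033094a_d43_d53_d41_d39_d43_d3826_3 : GoodKC AS k_wQ_26_wN_1_rb8033094a_d43_d53_d41_d39_d43_d3826_3 := p_wQ_26_wN_1_rb8033094a_d43_d53_d41_d39_d43_d3826_3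

theorem g__wQ_26_wN_1_rb8033094a_d43_d53_d41_d39_d43_d3826_7 : GoodKC AS k_wQ_26_wN_1_rb8033094a_d43_d53_d41_d39_d43_d3826_7 := p_wQ_26_wN_1_rb8033094a_d43_d53_d41_d39_d43_d3826_7

theorem g__wQ_26_wN_1_rb8033094a_d43_d53_d41_d39_d43_d3826_6 : GoodKC AS k_wQ_26_wN_1_rb8033094a_d43_d53_d41_d39_d43_d3826_6 := p_wQ_26_wN_1_rb8033094a_d43_d53_d41_d39_d43_d3826_6 g__wQ_26_wN_1_rb8033094a_d43_d53_d41_d39_d43_d3826_7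

theorem g__wQ_26_wN_1_rb8033094a_d43_d53_d41_d39_d43_d3826_15 : GoodKC AS k_wQ_26_wN_1_rb8033094a_d43_d53_d41_d39_d43_d3826_15 := p_wQ_26_wN_1_rb8033094a_d43_d53_d41_d39_d43_d3826_15

theorem g__wQ_26_wN_1_rb8033094a_d43_d53_d41_d39_d43_d3826_14 : GoodKC AS k_wQ_26_wN_1_rb8033094a_d43_d53_d41_d39_d43_d3826_14 := p_wQ_26_wN_1_rb8033094a_d43_d53_d41_d39_d43_d3826_14 g__wQ_26_wN_1_rb8033094a_d43_d53_d41_d39_d43_d3826_15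

theorem g__wQ_26_wN_1_rb8033094a_d43_d53_d41_d39_d43_d3826_13 : GoodKC AS k_wQ_26_wN_1_rb8033094a_d43_d53_d41_d39_d43_d3826_13 := p_wQ_26_wN_1_rb8033094a_d43_d53_d41_d39_d43_d3826_13 g__wQ_26_wN_1_rb8033094a_d43_d53_d41_d39_d43_d3826_14

theorem g__wQ_26_wN_1_rb8033094a_d43_d53_d41_d39_d43_d3826_16 : GoodKC AS k_wQ_26_wN_1_rb8033094a_d43_d53_d41_d39_d43_d3826_16 := p_wQ_26_wN_1_rb8033094a_d43_d53_d41_d39_d43_d3826_16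

theorem g__wQ_26_wN_1_rb8033094a_d43_d53_d41_d39_d43_d3826_12 : GoodKC AS k_wQ_26_wN_1_rb8033094a_d43_d53_d41_d39_d43_d3826_12 := p_wQ_26_wN_1_rb8033094a_d43_d53_d41_d39_d43_d3826_12 g__wQ_26_wN_1_rb8033094a_d43_d53_d41_d39_d43_d3826_13 g__wQ_26_wN_1_rb8033094a_d43_d53_d41_d39_d43_d3826_16

theorem g__wQ_26_wN_1_rb8033094a_d43_d53_d41_d39_d43_d3826_11 : GoodKC AS k_wQ_26_wN_1_rb8033094a_d43_d53_d41_d39_d43_d3826_11 := p_wQ_26_wN_1_rb8033094a_d43_d53_d41_d39_d43_d3826_11 g__wQ_26_wN_1_rb8033094a_d43_d53_d41_d39_d43_d3826_12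

theorem g__wQ_26_wN_1_rb8033094a_d43_d53_d41_d39_d43_d3826_20 : GoodKC AS k_wQ_26_wN_1_rb8033094a_d43_d53_d41_d39_d43_d3826_20 := p_wQ_26_wN_1_rb8033094a_d43_d53_d41_d39_d43_d3826_20

theorem g__wQ_26_wN_1_rb8033094a_d43_d53_d41_d39_d43_d3826_19 : GoodKC AS k_wQ_26_wN_1_rb8033094a_d43_d53_d41_d39_d43_d3826_19 := p_wQ_26_wN_1_rb8033094a_d43_d53_d41_d39_d43_d3826_19 g__wQ_26_wN_1_rb8033094a_d43_d53_d41_d39_d43_d3826_20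

theorem g__wQ_26_wN_1_rb8033094a_d43_d53_d41_d39_d43_d3826_18 : GoodKC AS k_wQ_26_wN_1_rb8033094a_d43_d53_d41_d39_d43_d3826_18 := p_wQ_26_wN_1_rb8033094a_d43_d53_d41_d39_d43_d3826_18 g__wQ_26_wN_1_rb8033094a_d43_d53_d41_d39_d43_d3826_19

theorem g__wQ_26_wN_1_rb8033094a_d43_d53_d41_d39_d43_d3826_17 : GoodKC AS k_wQ_26_wN_1_rb8033094a_d43_d53_d41_d39_d43_d3826_17 := p_wQ_26_wN_1_rb8033094a_d43_d53_d41_d39_d43_d3826_17 g__wQ_26_wN_1_rb8033094a_d43_d53_d41_d39_d43_d3826_18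

theorem g__wQ_26_wN_1_rb8033094a_d43_d53_d41_d39_d43_d3826_10 : GoodKC AS k_wQ_26_wN_1_rb8033094a_d43_d53_d41_d39_d43_d3826_10 := p_wQ_26_wN_1_rb8033094a_d43_d53_d41_d39_d43_d3826_10 g__wQ_26_wN_1_rb8033094a_d43_d53_d41_d39_d43_d3826_11 g__wQ_26_wN_1_rb8033094a_d43_d53_d41_d39_d43_d3826_17

theorem g__wQ_26_wN_1_rb8033094a_d43_d53_d41_d39_d43_d3826_21 : GoodKC AS k_wQ_26_wN_1_rb8033094a_d43_d53_d41_d39_d43_d3826_21 := p_wQ_26_wN_1_rb8033094a_d43_d53_d41_d39_d43_d3826_21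

theorem g__wQ_26_wN_1_rb8033094a_d43_d53_d41_d39_d43_d3826_9 : GoodKC AS k_wQ_26_wN_1_rb8033094a_d43_d53_d41_d39_d43_d3826_9 := p_wQ_26_wN_1_rb8033094a_d43_d53_d41_d39_d43_d3826_9 g__wQ_26_wN_1_rb8033094a_d43_d53_d41_d39_d43_d3826_10 g__wQ_26_wN_1_rb8033094a_d43_d53_d41_d39_d43_d3826_21

theorem g__wQ_26_wN_1_rb8033094a_d43_d53_d41_d39_d43_d3826_22 : GoodKC AS k_wQ_26_wN_1_rb8033094a_d43_d53_d41_d39_d43_d3826_22 := p_wQ_26_wN_1_rb8033094a_d43_d53_d41_d39_d43_d3826_22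

theorem g__wQ_26_wN_1_rb8033094a_d43_d53_d41_d39_d43_d3826_8 : GoodKC AS k_wQ_26_wN_1_rb8033094a_d43_d53_d41_d39_d43_d3826_8 := p_wQ_26_wN_1_rb8033094a_d43_d53_d41_d39_d43_d3826_8 g__wQ_26_wN_1_rb8033094a_d43_d53_d41_d39_d43_d3826_9 g__wQ_26_wN_1_rb8033094a_d43_d53_d41_d39_d43_d3826_22

theorem g__wQ_26_wN_1_rb8033094a_d43_d53_d41_d39_d43_d3826_24 : GoodKC AS k_wQ_26_wN_1_rb8033094a_d43_d53_d41_d39_d43_d3826_24 := p_wQ_26_wN_1_rb8033094a_d43_d53_d41_d39_d43_d3826_24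

theorem g__wQ_26_wN_1_rb8033094a_d43_d53_d41_d39_d43_d3826_23 : GoodKC AS k_wQ_26_wN_1_rb8033094a_d43_d53_d41_d39_d43_d3826_23 := p_wQ_26_wN_1_rb8033094a_d43_d53_d41_d39_d43_d3826_23 g__wQ_26_wN_1_rb8033094a_d43_d53_d41_d39_d43_d3826_24

theorem g__wQ_26_wN_1_rb8033094a_d43_d53_d41_d39_d43_d3826_5 : GoodKC AS k_wQ_26_wN_1_rb8033094a_d43_d53_d41_d39_d43_d3826_5 := p_wQ_26_wN_1_rb8033094a_d43_d53_d41_d39_d43_d3826_5 g__wQ_26_wN_1_rb8033094a_d43_d53_d41_d39_d43_d3826_6 g__wQ_26_wN_1_rb8033094a_d43_d53_d41_d39_d43_d3826_8 g__wQ_26_wN_1_rb8033094a_d43_d53_d41_d39_d43_d3826_23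

theorem g__wQ_26_wN_1_rb8033094a_d43_d53_d41_d39_d43_d3826_4 : GoodKC AS k_wQ_26_wN_1_rb8033094a_d43_d53_d41_d39_d43_d3826_4 := p_wQ_26_wN_1_rb8033094a_d43_d53_d41_d39_d43_d3826_4 g__wQ_26_wN_1_rb8033094a_d43_d53_d41_d39_d43_d3826_5

theorem g__wQ_26_wN_1_rb8033094a_d43_d53_d41_d39_d43_d3826_2 : GoodKC AS k_wQ_26_wN_1_rb8033094a_d43_d53_d41_d39_d43_d3826_2 := p_wQ_26_wN_1_rb8033094a_d43_d53_d41_d39_d43_d3826_2 g__wQ_26_wN_1_rb8033094a_d43_d53_d41_d39_d43_d3826_3 g__wQ_26_wN_1_rb8033094a_d43_d53_d41_d39_d43_d3826_4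

theorem g__wQ_26_wN_1_rb8033094a_d43_d53_d41_d39_d43_d3826_1 : GoodKC AS k_wQ_26_wN_1_rb8033094a_d43_d53_d41_d39_d43_d3826_1 := p_wQ_26_wN_1_rb8033094a_d43_d53_d41_d39_d43_d3826_1 g__wQ_26_wN_1_rb8033094a_d43_d53_d41_d39_d43_d3826_2

theorem g__wQ_26_wN_1_rb8033094a_d43_d53_d41_d39_d43_d3826_0 : GoodKC AS k_wQ_26_wN_1_rb8033094a_d43_d53_d41_d39_d43_d3826_0 := p_wQ_26_wN_1_rb8033094a_d43_d53_d41_d39_d43_d3826_0 g__wQ_26_wN_1_rb8033094a_d43_d53_d41_d39_d43_d3826_1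

theorem g_wQ_26_wN_1_rb8033094a_d43_d53_d41_d39_d43_d3826 : GoodKC AS c_wQ_26_wN_1_rb8033094a_d43_d53_d41_d39_d43_d3826 := p_wQ_26_wN_1_rb8033094a_d43_d53_d41_d39_d43_d3826 g__wQ_26_wN_1_rb8033094a_d43_d53_d41_d39_d43_d3826_0

theorem g_wQ_26_wN_1_rb8033094a_d43_d53_d41_d39_d43_d3825 : GoodKC AS c_wQ_26_wN_1_rb8033094a_d43_d53_d41_d39_d43_d3825 := p_wQ_26_wN_1_rb8033094a_d43_d53_d41_d39_d43_d3825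

theorem g_wQ_26_wN_1_rb8033094a_d43_d53_d41_d39_d43_d3820 : GoodKC AS c_wQ_26_wN_1_rb8033094a_d43_d53_d41_d39_d43_d3820 := p_wQ_26_wN_1_rb8033094a_d43_d53_d41_d39_d43_d3820

theorem g_wQ_26_wN_1_rb8033094a_d43_d53_d41_d39_d43_d381f : GoodKC AS c_wQ_26_wN_1_rb8033094a_d43_d53_d41_d39_d43_d381f := p_wQ_26_wN_1_rb8033094a_d43_d53_d41_d39_d43_d381f

theorem g_wQ_26_wN_1_rb8033094a_d43_d53_d41_d39_d43_d381e : GoodKC AS c_wQ_26_wN_1_rb8033094a_d43_d53_d41_d39_d43_d381e := p_wQ_26_wN_1_rb8033094a_d43_d53_d41_d39_d43_d381ev1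

theorem g__wQ_26_wN_1_rb8033094a_d43_d53_d41_d39_d43_d381d_0 : GoodKC AS k_wQ_26_wN_1_rb8033094a_d43_d53_d41_d39_d43_d381d_0 := p_wQ_26_wN_1_rb8033094a_d43_d53_d41_d39_d43_d381d_0

theorem g__wQ_26_wN_1_rb8033094a_d43_d53_d41_d39_d43_d381d_1 : GoodKC AS k_wQ_26_wN_1_rb8033094a_d43_d53_d41_d39_d43_d381d_1 := p_wQ_26_wN_1_rb8033094a_d43_d53_d41_d39_d43_d381d_1

theorem g_wQ_26_wN_1_rb8033094a_d43_d53_d41_d39_d43_d381d : GoodKC AS c_wQ_26_wN_1_rb8033094a_d43_d53_d41_d39_d43_d381d := p_wQ_26_wN_1_rb8033094a_d43_d53_d41_d39_d43_d381d g__wQ_26_wN_1_rb8033094a_d43_d53_d41_d39_d43_d381d_0 g__wQ_26_wN_1_rb8033094a_d43_d53_d41_d39_d43_d381d_1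

theorem g__wQ_26_wN_1_rb8033094a_d43_d53_d41_d39_d43_d38_1 : GoodKC AS k_wQ_26_wN_1_rb8033094a_d43_d53_d41_d39_d43_d38_1 := p_wQ_26_wN_1_rb8033094a_d43_d53_d41_d39_d43_d38_1

theorem g__wQ_26_wN_1_rb8033094a_d43_d53_d41_d39_d43_d38_3 : GoodKC AS k_wQ_26_wN_1_rb8033094a_d43_d53_d41_d39_d43_d38_3 := p_wQ_26_wN_1_rb8033094a_d43_d53_d41_d39_d43_d38_3

theorem g__wQ_26_wN_1_rb8033094a_d43_d53_d41_d39_d43_d38_7 : GoodKC AS k_wQ_26_wN_1_rb8033094a_d43_d53_d41_d39_d43_d38_7 := p_wQ_26_wN_1_rb8033094a_d43_d53_d41_d39_d43_d38_7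

theorem g__wQ_26_wN_1_rb8033094a_d43_d53_d41_d39_d43_d38_6 : GoodKC AS k_wQ_26_wN_1_rb8033094a_d43_d53_d41_d39_d43_d38_6 := p_wQ_26_wN_1_rb8033094a_d43_d53_d41_d39_d43_d38_6 g__wQ_26_wN_1_rb8033094a_d43_d53_d41_d39_d43_d38_7

theorem g__wQ_26_wN_1_rb8033094a_d43_d53_d41_d39_d43_d38_5 : GoodKC AS k_wQ_26_wN_1_rb8033094a_d43_d53_d41_d39_d43_d38_5 := p_wQ_26_wN_1_rb8033094a_d43_d53_d41_d39_d43_d38_5 g__wQ_26_wN_1_rb8033094a_d43_d53_d41_d39_d43_d38_6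

theorem g__wQ_26_wN_1_rb8033094a_d43_d53_d41_d39_d43_d38_4 : GoodKC AS k_wQ_26_wN_1_rb8033094a_d43_d53_d41_d39_d43_d38_4 := p_wQ_26_wN_1_rb8033094a_d43_d53_d41_d39_d43_d38_4 g__wQ_26_wN_1_rb8033094a_d43_d53_d41_d39_d43_d38_5

theorem g__wQ_26_wN_1_rb8033094a_d43_d53_d41_d39_d43_d38_2 : GoodKC AS k_wQ_26_wN_1_rb8033094a_d43_d53_d41_d39_d43_d38_2 := p_wQ_26_wN_1_rb8033094a_d43_d53_d41_d39_d43_d38_2 g__wQ_26_wN_1_rb8033094a_d43_d53_d41_d39_d43_d38_3 g__wQ_26_wN_1_rb8033094a_d43_d53_d41_d39_d43_d38_4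

theorem g__wQ_26_wN_1_rb8033094a_d43_d53_d41_d39_d43_d38_0 : GoodKC AS k_wQ_26_wN_1_rb8033094a_d43_d53_d41_d39_d43_d38_0 := p_wQ_26_wN_1_rb8033094a_d43_d53_d41_d39_d43_d38_0 g__wQ_26_wN_1_rb8033094a_d43_d53_d41_d39_d43_d38_1 g__wQ_26_wN_1_rb8033094a_d43_d53_d41_d39_d43_d38_2

theorem g__wQ_26_wN_1_rb8033094a_d43_d53_d41_d39_d43_d38_8 : GoodKC AS k_wQ_26_wN_1_rb8033094a_d43_d53_d41_d39_d43_d38_8 := p_wQ_26_wN_1_rb8033094a_d43_d53_d41_d39_d43_d38_8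

theorem g_wQ_26_wN_1_rb8033094a_d43_d53_d41_d39_d43_d381b : GoodKC AS c_wQ_26_wN_1_rb8033094a_d43_d53_d41_d39_d43_d381b := p_wQ_26_wN_1_rb8033094a_d43_d53_d41_d39_d43_d381b

theorem g_wQ_26_wN_1_rb8033094a_d43_d53_d41_d39_d43_d381a : GoodKC AS c_wQ_26_wN_1_rb8033094a_d43_d53_d41_d39_d43_d381a := p_wQ_26_wN_1_rb8033094a_d43_d53_d41_d39_d43_d381a

theorem g_wQ_26_wN_1_rb8033094a_d43_d53_d41_d39_d43_d3819 : GoodKC AS c_wQ_26_wN_1_rb8033094a_d43_d53_d41_d39_d43_d3819 := p_wQ_26_wN_1_rb8033094a_d43_d53_d41_d39_d43_d3819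

theorem g_wQ_26_wN_1_rb8033094a_d43_d53_d41_d39_d43_d3818 : GoodKC AS c_wQ_26_wN_1_rb8033094a_d43_d53_d41_d39_d43_d3818 := p_wQ_26_wN_1_rb8033094a_d43_d53_d41_d39_d43_d3818

theorem g_wQ_26_wN_1_rb8033094a_d43_d53_d41_d39_d43_d3817 : GoodKC AS c_wQ_26_wN_1_rb8033094a_d43_d53_d41_d39_d43_d3817 := p_wQ_26_wN_1_rb8033094a_d43_d53_d41_d39_d43_d3817

theorem g_wQ_26_wN_1_rb8033094a_d43_d53_d41_d39_d43_d3814 : GoodKC AS c_wQ_26_wN_1_rb8033094a_d43_d53_d41_d39_d43_d3814 := p_wQ_26_wN_1_rb8033094a_d43_d53_d41_d39_d43_d3814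

theorem g__wQ_26_wN_1_rb8033094a_d43_d53_d41_d39_d43_d3813_1 : GoodKC AS k_wQ_26_wN_1_rb8033094a_d43_d53_d41_d39_d43_d3813_1 := p_wQ_26_wN_1_rb8033094a_d43_d53_d41_d39_d43_d3813_1

theorem g__wQ_26_wN_1_rb8033094a_d43_d53_d41_d39_d43_d3813_0 : GoodKC AS k_wQ_26_wN_1_rb8033094a_d43_d53_d41_d39_d43_d3813_0 := p_wQ_26_wN_1_rb8033094a_d43_d53_d41_d39_d43_d3813_0 g__wQ_26_wN_1_rb8033094a_d43_d53_d41_d39_d43_d3813_1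

theorem g_wQ_26_wN_1_rb8033094a_d43_d53_d41_d39_d43_d3813 : GoodKC AS c_wQ_26_wN_1_rb8033094a_d43_d53_d41_d39_d43_d3813 := p_wQ_26_wN_1_rb8033094a_d43_d53_d41_d39_d43_d3813 g__wQ_26_wN_1_rb8033094a_d43_d53_d41_d39_d43_d3813_0

theorem g_wQ_26_wN_1_rb8033094a_d43_d53_d41_d39_d43_d3812 : GoodKC AS c_wQ_26_wN_1_rb8033094a_d43_d53_d41_d39_d43_d3812 := p_wQ_26_wN_1_rb8033094a_d43_d53_d41_d39_d43_d3812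

theorem g_wQ_26_wN_1_rb8033094a_d43_d53_d41_d39_d43_d3811 : GoodKC AS c_wQ_26_wN_1_rb8033094a_d43_d53_d41_d39_d43_d3811 := p_wQ_26_wN_1_rb8033094a_d43_d53_d41_d39_d43_d3811

theorem g_wQ_26_wN_1_rb8033094a_d43_d53_d41_d39_d43_d380f : GoodKC AS c_wQ_26_wN_1_rb8033094a_d43_d53_d41_d39_d43_d380f := p_wQ_26_wN_1_rb8033094a_d43_d53_d41_d39_d43_d380f

theorem g__wQ_26_wN_1_rb8033094a_d43_d53_d41_d39_d43_d380e_1 : GoodKC AS k_wQ_26_wN_1_rb8033094a_d43_d53_d41_d39_d43_d380e_1 := p_wQ_26_wN_1_rb8033094a_d43_d53_d41_d39_d43_d380e_1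

theorem g__wQ_26_wN_1_rb8033094a_d43_d53_d41_d39_d43_d380e_2 : GoodKC AS k_wQ_26_wN_1_rb8033094a_d43_d53_d41_d39_d43_d380e_2 := p_wQ_26_wN_1_rb8033094a_d43_d53_d41_d39_d43_d380e_2

theorem g__wQ_26_wN_1_rb8033094a_d43_d53_d41_d39_d43_d380e_4 : GoodKC AS k_wQ_26_wN_1_rb8033094a_d43_d53_d41_d39_d43_d380e_4 := p_wQ_26_wN_1_rb8033094a_d43_d53_d41_d39_d43_d380e_4

theorem g__wQ_26_wN_1_rb8033094a_d43_d53_d41_d39_d43_d380e_7 : GoodKC AS k_wQ_26_wN_1_rb8033094a_d43_d53_d41_d39_d43_d380e_7 := p_wQ_26_wN_1_rb8033094a_d43_d53_d41_d39_d43_d380e_7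

theorem g__wQ_26_wN_1_rb8033094a_d43_d53_d41_d39_d43_d380e_6 : GoodKC AS k_wQ_26_wN_1_rb8033094a_d43_d53_d41_d39_d43_d380e_6 := p_wQ_26_wN_1_rb8033094a_d43_d53_d41_d39_d43_d380e_6 g__wQ_26_wN_1_rb8033094a_d43_d53_d41_d39_d43_d380e_7

theorem g__wQ_26_wN_1_rb8033094a_d43_d53_d41_d39_d43_d380e_8 : GoodKC AS k_wQ_26_wN_1_rb8033094a_d43_d53_d41_d39_d43_d380e_8 := p_wQ_26_wN_1_rb8033094a_d43_d53_d41_d39_d43_d380e_8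

theorem g__wQ_26_wN_1_rb8033094a_d43_d53_d41_d39_d43_d380e_5 : GoodKC AS k_wQ_26_wN_1_rb8033094a_d43_d53_d41_d39_d43_d380e_5 := p_wQ_26_wN_1_rb8033094a_d43_d53_d41_d39_d43_d380e_5 g__wQ_26_wN_1_rb8033094a_d43_d53_d41_d39_d43_d380e_6 g__wQ_26_wN_1_rb8033094a_d43_d53_d41_d39_d43_d380e_8

theorem g__wQ_26_wN_1_rb8033094a_d43_d53_d41_d39_d43_d380e_3 : GoodKC AS k_wQ_26_wN_1_rb8033094a_d43_d53_d41_d39_d43_d380e_3 := p_wQ_26_wN_1_rb8033094a_d43_d53_d41_d39_d43_d380e_3 g__wQ_26_wN_1_rb8033094a_d43_d53_d41_d39_d43_d380e_4 g__wQ_26_wN_1_rb8033094a_d43_d53_d41_d39_d43_d380e_5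

theorem g__wQ_26_wN_1_rb8033094a_d43_d53_d41_d39_d43_d380e_0 : GoodKC AS k_wQ_26_wN_1_rb8033094a_d43_d53_d41_d39_d43_d380e_0 := p_wQ_26_wN_1_rb8033094a_d43_d53_d41_d39_d43_d380e_0 g__wQ_26_wN_1_rb8033094a_d43_d53_d41_d39_d43_d380e_1 g__wQ_26_wN_1_rb8033094a_d43_d53_d41_d39_d43_d380e_2 g__wQ_26_wN_1_rb8033094a_d43_d53_d41_d39_d43_d380e_3

theorem g_wQ_26_wN_1_rb8033094a_d43_d53_d41_d39_d43_d380e : GoodKC AS c_wQ_26_wN_1_rb8033094a_d43_d53_d41_d39_d43_d380e := p_wQ_26_wN_1_rb8033094a_d43_d53_d41_d39_d43_d380e g__wQ_26_wN_1_rb8033094a_d43_d53_d41_d39_d43_d380e_0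

theorem g_wQ_26_wN_1_rb8033094a_d43_d53_d41_d39_d43_d380d : GoodKC AS c_wQ_26_wN_1_rb8033094a_d43_d53_d41_d39_d43_d380d := p_wQ_26_wN_1_rb8033094a_d43_d53_d41_d39_d43_d380d

theorem g_wQ_26_wN_1_rb8033094a_d43_d53_d41_d39_d43_d380c : GoodKC AS c_wQ_26_wN_1_rb8033094a_d43_d53_d41_d39_d43_d380c := p_wQ_26_wN_1_rb8033094a_d43_d53_d41_d39_d43_d380c

theorem g_wQ_26_wN_1_rb8033094a_d43_d53_d41_d39_d43_d380b : GoodKC AS c_wQ_26_wN_1_rb8033094a_d43_d53_d41_d39_d43_d380b := p_wQ_26_wN_1_rb8033094a_d43_d53_d41_d39_d43_d380b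

theorem g_wQ_26_wN_1_rb8033094a_d43_d53_d41_d39_d43_d3809 : GoodKC AS c_wQ_26_wN_1_rb8033094a_d43_d53_d41_d39_d43_d3809 := p_wQ_26_wN_1_rb8033094a_d43_d53_d41_d39_d43_d3809

theorem g_wQ_26_wN_1_rb8033094a_d43_d53_d41_d39_d43_d3806 : GoodKC AS c_wQ_26_wN_1_rb8033094a_d43_d53_d41_d39_d43_d3806 := p_wQ_26_wN_1_rb8033094a_d43_d53_d41_d39_d43_d3806

theorem g_wQ_26_wN_1_rb8033094a_d43_d53_d41_d39_d43_d3805 : GoodKC AS c_wQ_26_wN_1_rb8033094a_d43_d53_d41_d39_d43_d3805 := p_wQ_26_wN_1_rb8033094a_d43_d53_d41_d39_d43_d3805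

theorem g_wQ_26_wN_1_rb8033094a_d43_d53_d41_d39_d43_d3804 : GoodKC AS c_wQ_26_wN_1_rb8033094a_d43_d53_d41_d39_d43_d3804 := p_wQ_26_wN_1_rb8033094a_d43_d53_d41_d39_d43_d3804

theorem g_wQ_26_wN_1_rb8033094a_d43_d53_d41_d39_d43_d3803 : GoodKC AS c_wQ_26_wN_1_rb8033094a_d43_d53_d41_d39_d43_d3803 := p_wQ_26_wN_1_rb8033094a_d43_d53_d41_d39_d43_d3803

theorem g_wQ_26_wN_1_rb8033094a_d43_d53_d41_d39_d43_d3802 : GoodKC AS c_wQ_26_wN_1_rb8033094a_d43_d53_d41_d39_d43_d3802 := p_wQ_26_wN_1_rb8033094a_d43_d53_d41_d39_d43_d3802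

theorem g_wQ_26_wN_1_rb8033094a_d43_d53_d41_d39_d43_d3801 : GoodKC AS c_wQ_26_wN_1_rb8033094a_d43_d53_d41_d39_d43_d3801 := p_wQ_26_wN_1_rb8033094a_d43_d53_d41_d39_d43_d3801

theorem g__wQ_26_wN_1_rb8033094a_d43_d53_d41_d39_d43_d38_10 : GoodKC AS k_wQ_26_wN_1_rb8033094a_d43_d53_d41_d39_d43_d38_10 := p_wQ_26_wN_1_rb8033094a_d43_d53_d41_d39_d43_d38_10

theorem g__wQ_26_wN_1_rb8033094a_d43_d53_d41_d39_d43_d3800_0 : GoodKC AS k_wQ_26_wN_1_rb8033094a_d43_d53_d41_d39_d43_d3800_0 := p_wQ_26_wN_1_rb8033094a_d43_d53_d41_d39_d43_d3800_0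

theorem g__wQ_26_wN_1_rb8033094a_d43_d53_d41_d39_d43_d3800_4 : GoodKC AS k_wQ_26_wN_1_rb8033094a_d43_d53_d41_d39_d43_d3800_4 := p_wQ_26_wN_1_rb8033094a_d43_d53_d41_d39_d43_d3800_4

theorem g__wQ_26_wN_1_rb8033094a_d43_d53_d41_d39_d43_d3800_3 : GoodKC AS k_wQ_26_wN_1_rb8033094a_d43_d53_d41_d39_d43_d3800_3 := p_wQ_26_wN_1_rb8033094a_d43_d53_d41_d39_d43_d3800_3 g__wQ_26_wN_1_rb8033094a_d43_d53_d41_d39_d43_d3800_4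

theorem g__wQ_26_wN_1_rb8033094a_d43_d53_d41_d39_d43_d3800_5 : GoodKC AS k_wQ_26_wN_1_rb8033094a_d43_d53_d41_d39_d43_d3800_5 := p_wQ_26_wN_1_rb8033094a_d43_d53_d41_d39_d43_d3800_5

theorem g__wQ_26_wN_1_rb8033094a_d43_d53_d41_d39_d43_d3800_6 : GoodKC AS k_wQ_26_wN_1_rb8033094a_d43_d53_d41_d39_d43_d3800_6 := p_wQ_26_wN_1_rb8033094a_d43_d53_d41_d39_d43_d3800_6

theorem g__wQ_26_wN_1_rb8033094a_d43_d53_d41_d39_d43_d3800_2 : GoodKC AS k_wQ_26_wN_1_rb8033094a_d43_d53_d41_d39_d43_d3800_2 := p_wQ_26_wN_1_rb8033094a_d43_d53_d41_d39_d43_d3800_2 g__wQ_26_wN_1_rb8033094a_d43_d53_d41_d39_d43_d3800_3 g__wQ_26_wN_1_rb8033094a_d43_d53_d41_d39_d43_d3800_5 g__wQ_26_wN_1_rb8033094a_d43_d53_d41_d39_d43_d3800_6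

theorem g__wQ_26_wN_1_rb8033094a_d43_d53_d41_d39_d43_d3800_7 : GoodKC AS k_wQ_26_wN_1_rb8033094a_d43_d53_d41_d39_d43_d3800_7 := p_wQ_26_wN_1_rb8033094a_d43_d53_d41_d39_d43_d3800_7

theorem g__wQ_26_wN_1_rb8033094a_d43_d53_d41_d39_d43_d3800_1 : GoodKC AS k_wQ_26_wN_1_rb8033094a_d43_d53_d41_d39_d43_d3800_1 := p_wQ_26_wN_1_rb8033094a_d43_d53_d41_d39_d43_d3800_1 g__wQ_26_wN_1_rb8033094a_d43_d53_d41_d39_d43_d3800_2 g__wQ_26_wN_1_rb8033094a_d43_d53_d41_d39_d43_d3800_7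

theorem g_wQ_26_wN_1_rb8033094a_d43_d53_d41_d39_d43_d3800 : GoodKC AS c_wQ_26_wN_1_rb8033094a_d43_d53_d41_d39_d43_d3800 := p_wQ_26_wN_1_rb8033094a_d43_d53_d41_d39_d43_d3800 g__wQ_26_wN_1_rb8033094a_d43_d53_d41_d39_d43_d3800_0 g__wQ_26_wN_1_rb8033094a_d43_d53_d41_d39_d43_d3800_1

theorem g__wQ_26_wN_1_rb8033094a_d43_d53_d41_d39_d43_d38_11 : GoodKC AS k_wQ_26_wN_1_rb8033094a_d43_d53_d41_d39_d43_d38_11 := p_wQ_26_wN_1_rb8033094a_d43_d53_d41_d39_d43_d38_11 g_wQ_26_wN_1_rb8033094a_d43_d53_d41_d39_d43_d3800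

theorem g__wQ_26_wN_1_rb8033094a_d43_d53_d41_d39_d43_d38_9 : GoodKC AS k_wQ_26_wN_1_rb8033094a_d43_d53_d41_d39_d43_d38_9 := p_wQ_26_wN_1_rb8033094a_d43_d53_d41_d39_d43_d38_9 g__wQ_26_wN_1_rb8033094a_d43_d53_d41_d39_d43_d38_10 g__wQ_26_wN_1_rb8033094a_d43_d53_d41_d39_d43_d38_11

theorem g_wQ_26_wN_1_rb8033094a_d43_d53_d41_d39_d43_d3807 : GoodKC AS c_wQ_26_wN_1_rb8033094a_d43_d53_d41_d39_d43_d3807 := p_wQ_26_wN_1_rb8033094a_d43_d53_d41_d39_d43_d3807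

theorem g_wQ_26_wN_1_rb8033094a_d43_d53_d41_d39_d43_d3808 : GoodKC AS c_wQ_26_wN_1_rb8033094a_d43_d53_d41_d39_d43_d3808 := p_wQ_26_wN_1_rb8033094a_d43_d53_d41_d39_d43_d3808

theorem g_wQ_26_wN_1_rb8033094a_d43_d53_d41_d39_d43_d380a : GoodKC AS c_wQ_26_wN_1_rb8033094a_d43_d53_d41_d39_d43_d380a := p_wQ_26_wN_1_rb8033094a_d43_d53_d41_d39_d43_d380a

theorem g_wQ_26_wN_1_rb8033094a_d43_d53_d41_d39_d43_d3810 : GoodKC AS c_wQ_26_wN_1_rb8033094a_d43_d53_d41_d39_d43_d3810 := p_wQ_26_wN_1_rb8033094a_d43_d53_d41_d39_d43_d3810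

theorem g_wQ_26_wN_1_rb8033094a_d43_d53_d41_d39_d43_d3815 : GoodKC AS c_wQ_26_wN_1_rb8033094a_d43_d53_d41_d39_d43_d3815 := p_wQ_26_wN_1_rb8033094a_d43_d53_d41_d39_d43_d3815

theorem g_wQ_26_wN_1_rb8033094a_d43_d53_d41_d39_d43_d3816 : GoodKC AS c_wQ_26_wN_1_rb8033094a_d43_d53_d41_d39_d43_d3816 := p_wQ_26_wN_1_rb8033094a_d43_d53_d41_d39_d43_d3816

theorem g_wQ_26_wN_1_rb8033094a_d43_d53_d41_d39_d43_d381c : GoodKC AS c_wQ_26_wN_1_rb8033094a_d43_d53_d41_d39_d43_d381c := p_wQ_26_wN_1_rb8033094a_d43_d53_d41_d39_d43_d381c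

theorem g_wQ_26_wN_1_rb8033094a_d43_d53_d41_d39_d43_d3821 : GoodKC AS c_wQ_26_wN_1_rb8033094a_d43_d53_d41_d39_d43_d3821 := p_wQ_26_wN_1_rb8033094a_d43_d53_d41_d39_d43_d3821

theorem g_wQ_26_wN_1_rb8033094a_d43_d53_d41_d39_d43_d3822 : GoodKC AS c_wQ_26_wN_1_rb8033094a_d43_d53_d41_d39_d43_d3822 := p_wQ_26_wN_1_rb8033094a_d43_d53_d41_d39_d43_d3822

theorem g_wQ_26_wN_1_rb8033094a_d43_d53_d41_d39_d43_d3823 : GoodKC AS c_wQ_26_wN_1_rb8033094a_d43_d53_d41_d39_d43_d3823 := p_wQ_26_wN_1_rb8033094a_d43_d53_d41_d39_d43_d3823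

theorem g_wQ_26_wN_1_rb8033094a_d43_d53_d41_d39_d43_d3824 : GoodKC AS c_wQ_26_wN_1_rb8033094a_d43_d53_d41_d39_d43_d3824 := p_wQ_26_wN_1_rb8033094a_d43_d53_d41_d39_d43_d3824

theorem g__wQ_26_wN_1_rb8033094a_d43_d53_d41_d39_d43_d3828_1 : GoodKC AS k_wQ_26_wN_1_rb8033094a_d43_d53_d41_d39_d43_d3828_1 := p_wQ_26_wN_1_rb8033094a_d43_d53_d41_d39_d43_d3828_1

theorem g__wQ_26_wN_1_rb8033094a_d43_d53_d41_d39_d43_d3828_0 : GoodKC AS k_wQ_26_wN_1_rb8033094a_d43_d53_d41_d39_d43_d3828_0 := p_wQ_26_wN_1_rb8033094a_d43_d53_d41_d39_d43_d3828_0 g__wQ_26_wN_1_rb8033094a_d43_d53_d41_d39_d43_d3828_1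

theorem g__wQ_26_wN_1_rb8033094a_d43_d53_d41_d39_d43_d3828_7 : GoodKC AS k_wQ_26_wN_1_rb8033094a_d43_d53_d41_d39_d43_d3828_7 := p_wQ_26_wN_1_rb8033094a_d43_d53_d41_d39_d43_d3828_7

theorem g__wQ_26_wN_1_rb8033094a_d43_d53_d41_d39_d43_d3828_6 : GoodKC AS k_wQ_26_wN_1_rb8033094a_d43_d53_d41_d39_d43_d3828_6 := p_wQ_26_wN_1_rb8033094a_d43_d53_d41_d39_d43_d3828_6 g__wQ_26_wN_1_rb8033094a_d43_d53_d41_d39_d43_d3828_7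

theorem g__wQ_26_wN_1_rb8033094a_d43_d53_d41_d39_d43_d3828_5 : GoodKC AS k_wQ_26_wN_1_rb8033094a_d43_d53_d41_d39_d43_d3828_5 := p_wQ_26_wN_1_rb8033094a_d43_d53_d41_d39_d43_d3828_5 g__wQ_26_wN_1_rb8033094a_d43_d53_d41_d39_d43_d3828_6

theorem g__wQ_26_wN_1_rb8033094a_d43_d53_d41_d39_d43_d3828_4 : GoodKC AS k_wQ_26_wN_1_rb8033094a_d43_d53_d41_d39_d43_d3828_4 := p_wQ_26_wN_1_rb8033094a_d43_d53_d41_d39_d43_d3828_4 g__wQ_26_wN_1_rb8033094a_d43_d53_d41_d39_d43_d3828_5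

theorem g__wQ_26_wN_1_rb8033094a_d43_d53_d41_d39_d43_d3828_3 : GoodKC AS k_wQ_26_wN_1_rb8033094a_d43_d53_d41_d39_d43_d3828_3 := p_wQ_26_wN_1_rb8033094a_d43_d53_d41_d39_d43_d3828_3 g__wQ_26_wN_1_rb8033094a_d43_d53_d41_d39_d43_d3828_4

theorem g__wQ_26_wN_1_rb8033094a_d43_d53_d41_d39_d43_d3828_15 : GoodKC AS k_wQ_26_wN_1_rb8033094a_d43_d53_d41_d39_d43_d3828_15 := p_wQ_26_wN_1_rb8033094a_d43_d53_d41_d39_d43_d3828_15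

theorem g__wQ_26_wN_1_rb8033094a_d43_d53_d41_d39_d43_d3828_14 : GoodKC AS k_wQ_26_wN_1_rb8033094a_d43_d53_d41_d39_d43_d3828_14 := p_wQ_26_wN_1_rb8033094a_d43_d53_d41_d39_d43_d3828_14 g__wQ_26_wN_1_rb8033094a_d43_d53_d41_d39_d43_d3828_15

theorem g__wQ_26_wN_1_rb8033094a_d43_d53_d41_d39_d43_d3828_13 : GoodKC AS k_wQ_26_wN_1_rb8033094a_d43_d53_d41_d39_d43_d3828_13 := p_wQ_26_wN_1_rb8033094a_d43_d53_d41_d39_d43_d3828_13 g__wQ_26_wN_1_rb8033094a_d43_d53_d41_d39_d43_d3828_14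

theorem g__wQ_26_wN_1_rb8033094a_d43_d53_d41_d39_d43_d3828_12 : GoodKC AS k_wQ_26_wN_1_rb8033094a_d43_d53_d41_d39_d43_d3828_12 := p_wQ_26_wN_1_rb8033094a_d43_d53_d41_d39_d43_d3828_12 g__wQ_26_wN_1_rb8033094a_d43_d53_d41_d39_d43_d3828_13

theorem g__wQ_26_wN_1_rb8033094a_d43_d53_d41_d39_d43_d3828_11 : GoodKC AS k_wQ_26_wN_1_rb8033094a_d43_d53_d41_d39_d43_d3828_11 := p_wQ_26_wN_1_rb8033094a_d43_d53_d41_d39_d43_d3828_11 g__wQ_26_wN_1_rb8033094a_d43_d53_d41_d39_d43_d3828_12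

theorem g__wQ_26_wN_1_rb8033094a_d43_d53_d41_d39_d43_d3828_10 : GoodKC AS k_wQ_26_wN_1_rb8033094a_d43_d53_d41_d39_d43_d3828_10 := p_wQ_26_wN_1_rb8033094a_d43_d53_d41_d39_d43_d3828_10 g__wQ_26_wN_1_rb8033094a_d43_d53_d41_d39_d43_d3828_11

theorem g__wQ_26_wN_1_rb8033094a_d43_d53_d41_d39_d43_d3828_9 : GoodKC AS k_wQ_26_wN_1_rb8033094a_d43_d53_d41_d39_d43_d3828_9 := p_wQ_26_wN_1_rb8033094a_d43_d53_d41_d39_d43_d3828_9 g__wQ_26_wN_1_rb8033094a_d43_d53_d41_d39_d43_d3828_10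

theorem g__wQ_26_wN_1_rb8033094a_d43_d53_d41_d39_d43_d3828_8 : GoodKC AS k_wQ_26_wN_1_rb8033094a_d43_d53_d41_d39_d43_d3828_8 := p_wQ_26_wN_1_rb8033094a_d43_d53_d41_d39_d43_d3828_8 g__wQ_26_wN_1_rb8033094a_d43_d53_d41_d39_d43_d3828_9

theorem g__wQ_26_wN_1_rb8033094a_d43_d53_d41_d39_d43_d3828_2 : GoodKC AS k_wQ_26_wN_1_rb8033094a_d43_d53_d41_d39_d43_d3828_2 := p_wQ_26_wN_1_rb8033094a_d43_d53_d41_d39_d43_d3828_2 g__wQ_26_wN_1_rb8033094a_d43_d53_d41_d39_d43_d3828_3 g__wQ_26_wN_1_rb8033094a_d43_d53_d41_d39_d43_d3828_8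

theorem g_wQ_26_wN_1_rb8033094a_d43_d53_d41_d39_d43_d3828 : GoodKC AS c_wQ_26_wN_1_rb8033094a_d43_d53_d41_d39_d43_d3828 := p_wQ_26_wN_1_rb8033094a_d43_d53_d41_d39_d43_d3828 g__wQ_26_wN_1_rb8033094a_d43_d53_d41_d39_d43_d3828_0 g__wQ_26_wN_1_rb8033094a_d43_d53_d41_d39_d43_d3828_2

theorem g__wQ_26_wN_1_rb8033094a_d43_d53_d41_d39_d43_d382av1_1 : GoodKC AS k_wQ_26_wN_1_rb8033094a_d43_d53_d41_d39_d43_d382av1_1 := p_wQ_26_wN_1_rb8033094a_d43_d53_d41_d39_d43_d382av1_1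

theorem g__wQ_26_wN_1_rb8033094a_d43_d53_d41_d39_d43_d382av1_0 : GoodKC AS k_wQ_26_wN_1_rb8033094a_d43_d53_d41_d39_d43_d382av1_0 := p_wQ_26_wN_1_rb8033094a_d43_d53_d41_d39_d43_d382av1_0 g__wQ_26_wN_1_rb8033094a_d43_d53_d41_d39_d43_d382av1_1

theorem g_wQ_26_wN_1_rb8033094a_d43_d53_d41_d39_d43_d382a : GoodKC AS c_wQ_26_wN_1_rb8033094a_d43_d53_d41_d39_d43_d382a := p_wQ_26_wN_1_rb8033094a_d43_d53_d41_d39_d43_d382av1 g__wQ_26_wN_1_rb8033094a_d43_d53_d41_d39_d43_d382av1_0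

theorem g_wQ_26_wN_1_rb8033094a_d43_d53_d41_d39_d43_d382b : GoodKC AS c_wQ_26_wN_1_rb8033094a_d43_d53_d41_d39_d43_d382b := p_wQ_26_wN_1_rb8033094a_d43_d53_d41_d39_d43_d382b

theorem g_wQ_26_wN_1_rb8033094a_d43_d53_d41_d39_d43_d382c : GoodKC AS c_wQ_26_wN_1_rb8033094a_d43_d53_d41_d39_d43_d382c := p_wQ_26_wN_1_rb8033094a_d43_d53_d41_d39_d43_d382c

theorem g_wQ_26_wN_1_rb8033094a_d43_d53_d41_d39_d43_d382d : GoodKC AS c_wQ_26_wN_1_rb8033094a_d43_d53_d41_d39_d43_d382d := p_wQ_26_wN_1_rb8033094a_d43_d53_d41_d39_d43_d382d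

theorem g__wQ_26_wN_1_rb8033094a_d43_d53_d41_d39_d43_d382e_0 : GoodKC AS k_wQ_26_wN_1_rb8033094a_d43_d53_d41_d39_d43_d382e_0 := p_wQ_26_wN_1_rb8033094a_d43_d53_d41_d39_d43_d382e_0

theorem g_wQ_26_wN_1_rb8033094a_d43_d53_d41_d39_d43_d382e : GoodKC AS c_wQ_26_wN_1_rb8033094a_d43_d53_d41_d39_d43_d382e := p_wQ_26_wN_1_rb8033094a_d43_d53_d41_d39_d43_d382e g__wQ_26_wN_1_rb8033094a_d43_d53_d41_d39_d43_d382e_0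

theorem g_wQ_26_wN_1_rb8033094a_d43_d53_d41_d39_d43_d3830 : GoodKC AS c_wQ_26_wN_1_rb8033094a_d43_d53_d41_d39_d43_d3830 := p_wQ_26_wN_1_rb8033094a_d43_d53_d41_d39_d43_d3830

theorem g_wQ_26_wN_1_rb8033094a_d43_d53_d41_d39_d43_d3834 : GoodKC AS c_wQ_26_wN_1_rb8033094a_d43_d53_d41_d39_d43_d3834 := p_wQ_26_wN_1_rb8033094a_d43_d53_d41_d39_d43_d3834

theorem g_wQ_26_wN_1_rb8033094a_d43_d53_d41_d39_d43_d3839 : GoodKC AS c_wQ_26_wN_1_rb8033094a_d43_d53_d41_d39_d43_d3839 := p_wQ_26_wN_1_rb8033094a_d43_d53_d41_d39_d43_d3839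

theorem g_wQ_26_wN_1_rb8033094a_d43_d53_d41_d39_d43_d383a : GoodKC AS c_wQ_26_wN_1_rb8033094a_d43_d53_d41_d39_d43_d383a := p_wQ_26_wN_1_rb8033094a_d43_d53_d41_d39_d43_d383a

theorem g_wQ_26_wN_1_rb8033094a_d43_d53_d41_d39_d43_d38x2 : GoodKC AS c_wQ_26_wN_1_rb8033094a_d43_d53_d41_d39_d43_d38x2 := p_wQ_26_wN_1_rb8033094a_d43_d53_d41_d39_d43_d38 g_wQ_26_wN_1_rb8033094a_d43_d53_d41_d39_d43_d3838 g_wQ_26_wN_1_rb8033094a_d43_d53_d41_d39_d43_d3837 g_wQ_26_wN_1_rb8033094a_d43_d53_d41_d39_d43_d3836 g_wQ_26_wN_1_rb8033094a_d43_d53_d41_d39_d43_d3835 g_wQ_26_wN_1_rb8033094a_d43_d53_d41_d39_d43_d3833 g_wQ_26_wN_1_rb8033094a_d43_d53_d41_d39_d43_d3832 g_wQ_26_wN_1_rb8033094a_d43_d53_d41_d39_d43_d3831 g_wQ_26_wN_1_rb8033094a_d43_d53_d41_d39_d43_d382f g_wQ_26_wN_1_rb8033094a_d43_d53_d41_d39_d43_d3829 g_wQ_26_wN_1_rb8033094a_d43_d53_d41_d39_d43_d3827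 g_wQ_26_wN_1_rb8033094a_d43_d53_d41_d39_d43_d3826 g_wQ_26_wN_1_rb8033094a_d43_d53_d41_d39_d43_d3825 g_wQ_26_wN_1_rb8033094a_d43_d53_d41_d39_d43_d3820 g_wQ_26_wN_1_rb8033094a_d43_d53_d41_d39_d43_d381f g_wQ_26_wN_1_rb8033094a_d43_d53_d41_d39_d43_d381e g_wQ_26_wN_1_rb8033094a_d43_d53_d41_d39_d43_d381d g__wQ_26_wN_1_rb8033094a_d43_d53_d41_d39_d43_d38_0 g__wQ_26_wN_1_rb8033094a_d43_d53_d41_d39_d43_d38_8 g_wQ_26_wN_1_rb8033094a_d43_d53_d41_d39_d43_d381b g_wQ_26_wN_1_rb8033094a_d43_d53_d41_d39_d43_d381a g_wQ_26_wN_1_rb8033094a_d43_d53_d41_d39_d43_d3819 g_wQ_26_wN_1_rb8033094a_d43_d53_d41_d39_d43_d3818 g_wQ_26_wN_1_rb8033094a_d43_d53_d41_d39_d43_d3817 g_wQ_26_wN_1_rb8033094a_d43_d53_d41_d39_d43_d3814 g_wQ_26_wN_1_rb8033094a_d43_d53_d41_d39_d43_d3813 g_wQ_26_wN_1_rb8033094a_d43_d53_d41_d39_d43_d3812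 g_wQ_26_wN_1_rb8033094a_d43_d53_d41_d39_d43_d3811 g_wQ_26_wN_1_rb8033094a_d43_d53_d41_d39_d43_d380f g_wQ_26_wN_1_rb8033094a_d43_d53_d41_d39_d43_d380e g_wQ_26_wN_1_rb8033094a_d43_d53_d41_d39_d43_d380d g_wQ_26_wN_1_rb8033094a_d43_d53_d41_d39_d43_d380c g_wQ_26_wN_1_rb8033094a_d43_d53_d41_d39_d43_d380b g_wQ_26_wN_1_rb8033094a_d43_d53_d41_d39_d43_d3809 g_wQ_26_wN_1_rb8033094a_d43_d53_d41_d39_d43_d3806 g_wQ_26_wN_1_rb8033094a_d43_d53_d41_d39_d43_d3805 g_wQ_26_wN_1_rb8033094a_d43_d53_d41_d39_d43_d3804 g_wQ_26_wN_1_rb8033094a_d43_d53_d41_d39_d43_d3803 g_wQ_26_wN_1_rb8033094a_d43_d53_d41_d39_d43_d3802 g_wQ_26_wN_1_rb8033094a_d43_d53_d41_d39_d43_d3801 g__wQ_26_wN_1_rb8033094a_d43_d53_d41_d39_d43_d38_9 g_wQ_26_wN_1_rb8033094a_d43_d53_d41_d39_d43_d3807 g_wQ_26_wN_1_rb8033094a_d43_d53_d41_d39_d43_d3808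 g_wQ_26_wN_1_rb8033094a_d43_d53_d41_d39_d43_d380a g_wQ_26_wN_1_rb8033094a_d43_d53_d41_d39_d43_d3810 g_wQ_26_wN_1_rb8033094a_d43_d53_d41_d39_d43_d3815 g_wQ_26_wN_1_rb8033094a_d43_d53_d41_d39_d43_d3816 g_wQ_26_wN_1_rb8033094a_d43_d53_d41_d39_d43_d381c g_wQ_26_wN_1_rb8033094a_d43_d53_d41_d39_d43_d3821 g_wQ_26_wN_1_rb8033094a_d43_d53_d41_d39_d43_d3822 g_wQ_26_wN_1_rb8033094a_d43_d53_d41_d39_d43_d3823 g_wQ_26_wN_1_rb8033094a_d43_d53_d41_d39_d43_d3824 g_wQ_26_wN_1_rb8033094a_d43_d53_d41_d39_d43_d3828 g_wQ_26_wN_1_rb8033094a_d43_d53_d41_d39_d43_d382a g_wQ_26_wN_1_rb8033094a_d43_d53_d41_d39_d43_d382b g_wQ_26_wN_1_rb8033094a_d43_d53_d41_d39_d43_d382c g_wQ_26_wN_1_rb8033094a_d43_d53_d41_d39_d43_d382d g_wQ_26_wN_1_rb8033094a_d43_d53_d41_d39_d43_d382e g_wQ_26_wN_1_rb8033094a_d43_d53_d41_d39_d43_d3830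 g_wQ_26_wN_1_rb8033094a_d43_d53_d41_d39_d43_d3834 g_wQ_26_wN_1_rb8033094a_d43_d53_d41_d39_d43_d3839 g_wQ_26_wN_1_rb8033094a_d43_d53_d41_d39_d43_d383a

theorem g__wQ_26_wN_1_rb8033094a_d43_d53_d41_d39_d43_d36_3 : GoodKC AS k_wQ_26_wN_1_rb8033094a_d43_d53_d41_d39_d43_d36_3 := p_wQ_26_wN_1_rb8033094a_d43_d53_d41_d39_d43_d36_3

theorem g__wQ_26_wN_1_rb8033094a_d43_d53_d41_d39_d43_d36_2 : GoodKC AS k_wQ_26_wN_1_rb8033094a_d43_d53_d41_d39_d43_d36_2 := p_wQ_26_wN_1_rb8033094a_d43_d53_d41_d39_d43_d36_2 g__wQ_26_wN_1_rb8033094a_d43_d53_d41_d39_d43_d36_3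

theorem g__wQ_26_wN_1_rb8033094a_d43_d53_d41_d39_d43_d36_11 : GoodKC AS k_wQ_26_wN_1_rb8033094a_d43_d53_d41_d39_d43_d36_11 := p_wQ_26_wN_1_rb8033094a_d43_d53_d41_d39_d43_d36_11

theorem g__wQ_26_wN_1_rb8033094a_d43_d53_d41_d39_d43_d36_10 : GoodKC AS k_wQ_26_wN_1_rb8033094a_d43_d53_d41_d39_d43_d36_10 := p_wQ_26_wN_1_rb8033094a_d43_d53_d41_d39_d43_d36_10 g__wQ_26_wN_1_rb8033094a_d43_d53_d41_d39_d43_d36_11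

theorem g__wQ_26_wN_1_rb8033094a_d43_d53_d41_d39_d43_d36_9 : GoodKC AS k_wQ_26_wN_1_rb8033094a_d43_d53_d41_d39_d43_d36_9 := p_wQ_26_wN_1_rb8033094a_d43_d53_d41_d39_d43_d36_9 g__wQ_26_wN_1_rb8033094a_d43_d53_d41_d39_d43_d36_10

theorem g__wQ_26_wN_1_rb8033094a_d43_d53_d41_d39_d43_d36_12 : GoodKC AS k_wQ_26_wN_1_rb8033094a_d43_d53_d41_d39_d43_d36_12 := p_wQ_26_wN_1_rb8033094a_d43_d53_d41_d39_d43_d36_12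

theorem g__wQ_26_wN_1_rb8033094a_d43_d53_d41_d39_d43_d36_8 : GoodKC AS k_wQ_26_wN_1_rb8033094a_d43_d53_d41_d39_d43_d36_8 := p_wQ_26_wN_1_rb8033094a_d43_d53_d41_d39_d43_d36_8 g__wQ_26_wN_1_rb8033094a_d43_d53_d41_d39_d43_d36_9 g__wQ_26_wN_1_rb8033094a_d43_d53_d41_d39_d43_d36_12

theorem g__wQ_26_wN_1_rb8033094a_d43_d53_d41_d39_d43_d36_7 : GoodKC AS k_wQ_26_wN_1_rb8033094a_d43_d53_d41_d39_d43_d36_7 := p_wQ_26_wN_1_rb8033094a_d43_d53_d41_d39_d43_d36_7 g__wQ_26_wN_1_rb8033094a_d43_d53_d41_d39_d43_d36_8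

theorem g__wQ_26_wN_1_rb8033094a_d43_d53_d41_d39_d43_d36_6 : GoodKC AS k_wQ_26_wN_1_rb8033094a_d43_d53_d41_d39_d43_d36_6 := p_wQ_26_wN_1_rb8033094a_d43_d53_d41_d39_d43_d36_6 g__wQ_26_wN_1_rb8033094a_d43_d53_d41_d39_d43_d36_7

theorem g__wQ_26_wN_1_rb8033094a_d43_d53_d41_d39_d43_d36_5 : GoodKC AS k_wQ_26_wN_1_rb8033094a_d43_d53_d41_d39_d43_d36_5 := p_wQ_26_wN_1_rb8033094a_d43_d53_d41_d39_d43_d36_5 g__wQ_26_wN_1_rb8033094a_d43_d53_d41_d39_d43_d36_6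

theorem g__wQ_26_wN_1_rb8033094a_d43_d53_d41_d39_d43_d36_4 : GoodKC AS k_wQ_26_wN_1_rb8033094a_d43_d53_d41_d39_d43_d36_4 := p_wQ_26_wN_1_rb8033094a_d43_d53_d41_d39_d43_d36_4 g__wQ_26_wN_1_rb8033094a_d43_d53_d41_d39_d43_d36_5

theorem g__wQ_26_wN_1_rb8033094a_d43_d53_d41_d39_d43_d36_13 : GoodKC AS k_wQ_26_wN_1_rb8033094a_d43_d53_d41_d39_d43_d36_13 := p_wQ_26_wN_1_rb8033094a_d43_d53_d41_d39_d43_d36_13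

theorem g__wQ_26_wN_1_rb8033094a_d43_d53_d41_d39_d43_d36_1 : GoodKC AS k_wQ_26_wN_1_rb8033094a_d43_d53_d41_d39_d43_d36_1 := p_wQ_26_wN_1_rb8033094a_d43_d53_d41_d39_d43_d36_1 g__wQ_26_wN_1_rb8033094a_d43_d53_d41_d39_d43_d36_2 g__wQ_26_wN_1_rb8033094a_d43_d53_d41_d39_d43_d36_4 g__wQ_26_wN_1_rb8033094a_d43_d53_d41_d39_d43_d36_13

theorem g__wQ_26_wN_1_rb8033094a_d43_d53_d41_d39_d43_d36_0 : GoodKC AS k_wQ_26_wN_1_rb8033094a_d43_d53_d41_d39_d43_d36_0 := p_wQ_26_wN_1_rb8033094a_d43_d53_d41_d39_d43_d36_0 g__wQ_26_wN_1_rb8033094a_d43_d53_d41_d39_d43_d36_1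

theorem g_wQ_26_wN_1_rb8033094a_d43_d53_d41_d39_d43_d36x2 : GoodKC AS c_wQ_26_wN_1_rb8033094a_d43_d53_d41_d39_d43_d36x2 := p_wQ_26_wN_1_rb8033094a_d43_d53_d41_d39_d43_d36 g__wQ_26_wN_1_rb8033094a_d43_d53_d41_d39_d43_d36_0

theorem g_wQ_26_wN_1_rb8033094a_d43_d53_d41_d39_d43_d32x2 : GoodKC AS c_wQ_26_wN_1_rb8033094a_d43_d53_d41_d39_d43_d32x2 := p_wQ_26_wN_1_rb8033094a_d43_d53_d41_d39_d43_d32

theorem g_wQ_26_wN_1_rb8033094a_d43_d53_d41_d39_d43_d31x2 : GoodKC AS c_wQ_26_wN_1_rb8033094a_d43_d53_d41_d39_d43_d31x2 := p_wQ_26_wN_1_rb8033094a_d43_d53_d41_d39_d43_d31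

theorem g_wQ_26_wN_1_rb8033094a_d43_d53_d41_d39_d43_d30x2 : GoodKC AS c_wQ_26_wN_1_rb8033094a_d43_d53_d41_d39_d43_d30x2 := p_wQ_26_wN_1_rb8033094a_d43_d53_d41_d39_d43_d30

theorem g_wQ_26_wN_1_rb8033094a_d43_d53_d41_d39_d43_d2fx2 : GoodKC AS c_wQ_26_wN_1_rb8033094a_d43_d53_d41_d39_d43_d2fx2 := p_wQ_26_wN_1_rb8033094a_d43_d53_d41_d39_d43_d2f

theorem g_wQ_26_wN_1_rb8033094a_d43_d53_d41_d39_d43_d2ex2 : GoodKC AS c_wQ_26_wN_1_rb8033094a_d43_d53_d41_d39_d43_d2ex2 := p_wQ_26_wN_1_rb8033094a_d43_d53_d41_d39_d43_d2e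

theorem g__wQ_26_wN_1_rb8033094a_d43_d53_d41_d39_d43_d2d_1 : GoodKC AS k_wQ_26_wN_1_rb8033094a_d43_d53_d41_d39_d43_d2d_1 := p_wQ_26_wN_1_rb8033094a_d43_d53_d41_d39_d43_d2d_1

theorem g__wQ_26_wN_1_rb8033094a_d43_d53_d41_d39_d43_d2d_0 : GoodKC AS k_wQ_26_wN_1_rb8033094a_d43_d53_d41_d39_d43_d2d_0 := p_wQ_26_wN_1_rb8033094a_d43_d53_d41_d39_d43_d2d_0 g__wQ_26_wN_1_rb8033094a_d43_d53_d41_d39_d43_d2d_1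

theorem g_wQ_26_wN_1_rb8033094a_d43_d53_d41_d39_d43_d2dx2 : GoodKC AS c_wQ_26_wN_1_rb8033094a_d43_d53_d41_d39_d43_d2dx2 := p_wQ_26_wN_1_rb8033094a_d43_d53_d41_d39_d43_d2d g__wQ_26_wN_1_rb8033094a_d43_d53_d41_d39_d43_d2d_0

theorem g__wQ_26_wN_1_rb8033094a_d43_d53_d41_d39_d43_d2c_3 : GoodKC AS k_wQ_26_wN_1_rb8033094a_d43_d53_d41_d39_d43_d2c_3 := p_wQ_26_wN_1_rb8033094a_d43_d53_d41_d39_d43_d2c_3

theorem g__wQ_26_wN_1_rb8033094a_d43_d53_d41_d39_d43_d2c_2 : GoodKC AS k_wQ_26_wN_1_rb8033094a_d43_d53_d41_d39_d43_d2c_2 := p_wQ_26_wN_1_rb8033094a_d43_d53_d41_d39_d43_d2c_2 g__wQ_26_wN_1_rb8033094a_d43_d53_d41_d39_d43_d2c_3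

theorem g__wQ_26_wN_1_rb8033094a_d43_d53_d41_d39_d43_d2c_9 : GoodKC AS k_wQ_26_wN_1_rb8033094a_d43_d53_d41_d39_d43_d2c_9 := p_wQ_26_wN_1_rb8033094a_d43_d53_d41_d39_d43_d2c_9

theorem g__wQ_26_wN_1_rb8033094a_d43_d53_d41_d39_d43_d2c_11 : GoodKC AS k_wQ_26_wN_1_rb8033094a_d43_d53_d41_d39_d43_d2c_11 := p_wQ_26_wN_1_rb8033094a_d43_d53_d41_d39_d43_d2c_11

theorem g__wQ_26_wN_1_rb8033094a_d43_d53_d41_d39_d43_d2c_12 : GoodKC AS k_wQ_26_wN_1_rb8033094a_d43_d53_d41_d39_d43_d2c_12 := p_wQ_26_wN_1_rb8033094a_d43_d53_d41_d39_d43_d2c_12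

theorem g__wQ_26_wN_1_rb8033094a_d43_d53_d41_d39_d43_d2c_10 : GoodKC AS k_wQ_26_wN_1_rb8033094a_d43_d53_d41_d39_d43_d2c_10 := p_wQ_26_wN_1_rb8033094a_d43_d53_d41_d39_d43_d2c_10 g__wQ_26_wN_1_rb8033094a_d43_d53_d41_d39_d43_d2c_11 g__wQ_26_wN_1_rb8033094a_d43_d53_d41_d39_d43_d2c_12

theorem g__wQ_26_wN_1_rb8033094a_d43_d53_d41_d39_d43_d2c_14 : GoodKC AS k_wQ_26_wN_1_rb8033094a_d43_d53_d41_d39_d43_d2c_14 := p_wQ_26_wN_1_rb8033094a_d43_d53_d41_d39_d43_d2c_14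

theorem g__wQ_26_wN_1_rb8033094a_d43_d53_d41_d39_d43_d2c_13 : GoodKC AS k_wQ_26_wN_1_rb8033094a_d43_d53_d41_d39_d43_d2c_13 := p_wQ_26_wN_1_rb8033094a_d43_d53_d41_d39_d43_d2c_13 g__wQ_26_wN_1_rb8033094a_d43_d53_d41_d39_d43_d2c_14

theorem g__wQ_26_wN_1_rb8033094a_d43_d53_d41_d39_d43_d2c_16 : GoodKC AS k_wQ_26_wN_1_rb8033094a_d43_d53_d41_d39_d43_d2c_16 := p_wQ_26_wN_1_rb8033094a_d43_d53_d41_d39_d43_d2c_16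

theorem g__wQ_26_wN_1_rb8033094a_d43_d53_d41_d39_d43_d2c_15 : GoodKC AS k_wQ_26_wN_1_rb8033094a_d43_d53_d41_d39_d43_d2c_15 := p_wQ_26_wN_1_rb8033094a_d43_d53_d41_d39_d43_d2c_15 g__wQ_26_wN_1_rb8033094a_d43_d53_d41_d39_d43_d2c_16

theorem g__wQ_26_wN_1_rb8033094a_d43_d53_d41_d39_d43_d2c_8 : GoodKC AS k_wQ_26_wN_1_rb8033094a_d43_d53_d41_d39_d43_d2c_8 := p_wQ_26_wN_1_rb8033094a_d43_d53_d41_d39_d43_d2c_8 g__wQ_26_wN_1_rb8033094a_d43_d53_d41_d39_d43_d2c_9 g__wQ_26_wN_1_rb8033094a_d43_d53_d41_d39_d43_d2c_10 g__wQ_26_wN_1_rb8033094a_d43_d53_d41_d39_d43_d2c_13 g__wQ_26_wN_1_rb8033094a_d43_d53_d41_d39_d43_d2c_15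

theorem g__wQ_26_wN_1_rb8033094a_d43_d53_d41_d39_d43_d2c_7 : GoodKC AS k_wQ_26_wN_1_rb8033094a_d43_d53_d41_d39_d43_d2c_7 := p_wQ_26_wN_1_rb8033094a_d43_d53_d41_d39_d43_d2c_7 g__wQ_26_wN_1_rb8033094a_d43_d53_d41_d39_d43_d2c_8

theorem g__wQ_26_wN_1_rb8033094a_d43_d53_d41_d39_d43_d2c_6 : GoodKC AS k_wQ_26_wN_1_rb8033094a_d43_d53_d41_d39_d43_d2c_6 := p_wQ_26_wN_1_rb8033094a_d43_d53_d41_d39_d43_d2c_6 g__wQ_26_wN_1_rb8033094a_d43_d53_d41_d39_d43_d2c_7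

theorem g__wQ_26_wN_1_rb8033094a_d43_d53_d41_d39_d43_d2c_5 : GoodKC AS k_wQ_26_wN_1_rb8033094a_d43_d53_d41_d39_d43_d2c_5 := p_wQ_26_wN_1_rb8033094a_d43_d53_d41_d39_d43_d2c_5 g__wQ_26_wN_1_rb8033094a_d43_d53_d41_d39_d43_d2c_6

theorem g__wQ_26_wN_1_rb8033094a_d43_d53_d41_d39_d43_d2c_4 : GoodKC AS k_wQ_26_wN_1_rb8033094a_d43_d53_d41_d39_d43_d2c_4 := p_wQ_26_wN_1_rb8033094a_d43_d53_d41_d39_d43_d2c_4 g__wQ_26_wN_1_rb8033094a_d43_d53_d41_d39_d43_d2c_5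

theorem g__wQ_26_wN_1_rb8033094a_d43_d53_d41_d39_d43_d2c_1 : GoodKC AS k_wQ_26_wN_1_rb8033094a_d43_d53_d41_d39_d43_d2c_1 := p_wQ_26_wN_1_rb8033094a_d43_d53_d41_d39_d43_d2c_1 g__wQ_26_wN_1_rb8033094a_d43_d53_d41_d39_d43_d2c_2 g__wQ_26_wN_1_rb8033094a_d43_d53_d41_d39_d43_d2c_4

theorem g__wQ_26_wN_1_rb8033094a_d43_d53_d41_d39_d43_d2c_0 : GoodKC AS k_wQ_26_wN_1_rb8033094a_d43_d53_d41_d39_d43_d2c_0 := p_wQ_26_wN_1_rb8033094a_d43_d53_d41_d39_d43_d2c_0 g__wQ_26_wN_1_rb8033094a_d43_d53_d41_d39_d43_d2c_1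

theorem g_wQ_26_wN_1_rb8033094a_d43_d53_d41_d39_d43_d2cx2 : GoodKC AS c_wQ_26_wN_1_rb8033094a_d43_d53_d41_d39_d43_d2cx2 := p_wQ_26_wN_1_rb8033094a_d43_d53_d41_d39_d43_d2c g__wQ_26_wN_1_rb8033094a_d43_d53_d41_d39_d43_d2c_0

theorem g__wQ_26_wN_1_rb8033094a_d43_d53_d41_d39_d43_d2bv1_3 : GoodKC AS k_wQ_26_wN_1_rb8033094a_d43_d53_d41_d39_d43_d2bv1_3 := p_wQ_26_wN_1_rb8033094a_d43_d53_d41_d39_d43_d2bv1_3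

theorem g__wQ_26_wN_1_rb8033094a_d43_d53_d41_d39_d43_d2bv1_2 : GoodKC AS k_wQ_26_wN_1_rb8033094a_d43_d53_d41_d39_d43_d2bv1_2 := p_wQ_26_wN_1_rb8033094a_d43_d53_d41_d39_d43_d2bv1_2 g__wQ_26_wN_1_rb8033094a_d43_d53_d41_d39_d43_d2bv1_3

theorem g__wQ_26_wN_1_rb8033094a_d43_d53_d41_d39_d43_d2bv1_1 : GoodKC AS k_wQ_26_wN_1_rb8033094a_d43_d53_d41_d39_d43_d2bv1_1 := p_wQ_26_wN_1_rb8033094a_d43_d53_d41_d39_d43_d2bv1_1 g__wQ_26_wN_1_rb8033094a_d43_d53_d41_d39_d43_d2bv1_2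

theorem g__wQ_26_wN_1_rb8033094a_d43_d53_d41_d39_d43_d2bv1_4 : GoodKC AS k_wQ_26_wN_1_rb8033094a_d43_d53_d41_d39_d43_d2bv1_4 := p_wQ_26_wN_1_rb8033094a_d43_d53_d41_d39_d43_d2bv1_4

theorem g__wQ_26_wN_1_rb8033094a_d43_d53_d41_d39_d43_d2bv1_0 : GoodKC AS k_wQ_26_wN_1_rb8033094a_d43_d53_d41_d39_d43_d2bv1_0 := p_wQ_26_wN_1_rb8033094a_d43_d53_d41_d39_d43_d2bv1_0 g__wQ_26_wN_1_rb8033094a_d43_d53_d41_d39_d43_d2bv1_1 g__wQ_26_wN_1_rb8033094a_d43_d53_d41_d39_d43_d2bv1_4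

theorem g_wQ_26_wN_1_rb8033094a_d43_d53_d41_d39_d43_d2bx2 : GoodKC AS c_wQ_26_wN_1_rb8033094a_d43_d53_d41_d39_d43_d2bx2 := p_wQ_26_wN_1_rb8033094a_d43_d53_d41_d39_d43_d2bv1 g__wQ_26_wN_1_rb8033094a_d43_d53_d41_d39_d43_d2bv1_0

theorem g_wQ_26_wN_1_rb8033094a_d43_d53_d41_d39_d43_d29x2 : GoodKC AS c_wQ_26_wN_1_rb8033094a_d43_d53_d41_d39_d43_d29x2 := p_wQ_26_wN_1_rb8033094a_d43_d53_d41_d39_d43_d29

theorem g__wQ_26_wN_1_rb8033094a_d43_d53_d41_d39_d43_d28_0 : GoodKC AS k_wQ_26_wN_1_rb8033094a_d43_d53_d41_d39_d43_d28_0 := p_wQ_26_wN_1_rb8033094a_d43_d53_d41_d39_d43_d28_0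

theorem g_wQ_26_wN_1_rb8033094a_d43_d53_d41_d39_d43_d28x2 : GoodKC AS c_wQ_26_wN_1_rb8033094a_d43_d53_d41_d39_d43_d28x2 := p_wQ_26_wN_1_rb8033094a_d43_d53_d41_d39_d43_d28 g__wQ_26_wN_1_rb8033094a_d43_d53_d41_d39_d43_d28_0

theorem g_wQ_26_wN_1_rb8033094a_d43_d53_d41_d39_d43_d27x2 : GoodKC AS c_wQ_26_wN_1_rb8033094a_d43_d53_d41_d39_d43_d27x2 := p_wQ_26_wN_1_rb8033094a_d43_d53_d41_d39_d43_d27

theorem g_wQ_26_wN_1_rb8033094a_d43_d53_d41_d39_d43_d26x2 : GoodKC AS c_wQ_26_wN_1_rb8033094a_d43_d53_d41_d39_d43_d26x2 := p_wQ_26_wN_1_rb8033094a_d43_d53_d41_d39_d43_d26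

theorem g_wQ_26_wN_1_rb8033094a_d43_d53_d41_d39_d43_d25x2 : GoodKC AS c_wQ_26_wN_1_rb8033094a_d43_d53_d41_d39_d43_d25x2 := p_wQ_26_wN_1_rb8033094a_d43_d53_d41_d39_d43_d25

theorem g_wQ_26_wN_1_rb8033094a_d43_d53_d41_d39_d43_d23x2 : GoodKC AS c_wQ_26_wN_1_rb8033094a_d43_d53_d41_d39_d43_d23x2 := p_wQ_26_wN_1_rb8033094a_d43_d53_d41_d39_d43_d23

theorem g_wQ_26_wN_1_rb8033094a_d43_d53_d41_d39_d43_d22x2 : GoodKC AS c_wQ_26_wN_1_rb8033094a_d43_d53_d41_d39_d43_d22x2 := p_wQ_26_wN_1_rb8033094a_d43_d53_d41_d39_d43_d22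

theorem g_wQ_26_wN_1_rb8033094a_d43_d53_d41_d39_d43_d21x2 : GoodKC AS c_wQ_26_wN_1_rb8033094a_d43_d53_d41_d39_d43_d21x2 := p_wQ_26_wN_1_rb8033094a_d43_d53_d41_d39_d43_d21

theorem g__wQ_26_wN_1_rb8033094a_d43_d53_d41_d39_d43_d20_0 : GoodKC AS k_wQ_26_wN_1_rb8033094a_d43_d53_d41_d39_d43_d20_0 := p_wQ_26_wN_1_rb8033094a_d43_d53_d41_d39_d43_d20_0

theorem g_wQ_26_wN_1_rb8033094a_d43_d53_d41_d39_d43_d20x2 : GoodKC AS c_wQ_26_wN_1_rb8033094a_d43_d53_d41_d39_d43_d20x2 := p_wQ_26_wN_1_rb8033094a_d43_d53_d41_d39_d43_d20 g__wQ_26_wN_1_rb8033094a_d43_d53_d41_d39_d43_d20_0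

theorem g_wQ_26_wN_1_rb8033094a_d43_d53_d41_d39_d43_d1fx2 : GoodKC AS c_wQ_26_wN_1_rb8033094a_d43_d53_d41_d39_d43_d1fx2 := p_wQ_26_wN_1_rb8033094a_d43_d53_d41_d39_d43_d1f

theorem g__wQ_26_wN_1_rb8033094a_d43_d53_d41_d39_d43_d1d_2 : GoodKC AS k_wQ_26_wN_1_rb8033094a_d43_d53_d41_d39_d43_d1d_2 := p_wQ_26_wN_1_rb8033094a_d43_d53_d41_d39_d43_d1d_2

theorem g__wQ_26_wN_1_rb8033094a_d43_d53_d41_d39_d43_d1d_1 : GoodKC AS k_wQ_26_wN_1_rb8033094a_d43_d53_d41_d39_d43_d1d_1 := p_wQ_26_wN_1_rb8033094a_d43_d53_d41_d39_d43_d1d_1 g__wQ_26_wN_1_rb8033094a_d43_d53_d41_d39_d43_d1d_2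

theorem g__wQ_26_wN_1_rb8033094a_d43_d53_d41_d39_d43_d1d_0 : GoodKC AS k_wQ_26_wN_1_rb8033094a_d43_d53_d41_d39_d43_d1d_0 := p_wQ_26_wN_1_rb8033094a_d43_d53_d41_d39_d43_d1d_0 g__wQ_26_wN_1_rb8033094a_d43_d53_d41_d39_d43_d1d_1

theorem g_wQ_26_wN_1_rb8033094a_d43_d53_d41_d39_d43_d1dx2 : GoodKC AS c_wQ_26_wN_1_rb8033094a_d43_d53_d41_d39_d43_d1dx2 := p_wQ_26_wN_1_rb8033094a_d43_d53_d41_d39_d43_d1d g__wQ_26_wN_1_rb8033094a_d43_d53_d41_d39_d43_d1d_0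

theorem g_wQ_26_wN_1_rb8033094a_d43_d53_d41_d39_d43_d1bx2 : GoodKC AS c_wQ_26_wN_1_rb8033094a_d43_d53_d41_d39_d43_d1bx2 := p_wQ_26_wN_1_rb8033094a_d43_d53_d41_d39_d43_d1b

theorem g__wQ_26_wN_1_rb8033094a_d43_d53_d41_d39_d43_d1a_0 : GoodKC AS k_wQ_26_wN_1_rb8033094a_d43_d53_d41_d39_d43_d1a_0 := p_wQ_26_wN_1_rb8033094a_d43_d53_d41_d39_d43_d1a_0

theorem g_wQ_26_wN_1_rb8033094a_d43_d53_d41_d39_d43_d1ax2 : GoodKC AS c_wQ_26_wN_1_rb8033094a_d43_d53_d41_d39_d43_d1ax2 := p_wQ_26_wN_1_rb8033094a_d43_d53_d41_d39_d43_d1a g__wQ_26_wN_1_rb8033094a_d43_d53_d41_d39_d43_d1a_0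

theorem g_wQ_26_wN_1_rb8033094a_d43_d53_d41_d39_d43_d19x2 : GoodKC AS c_wQ_26_wN_1_rb8033094a_d43_d53_d41_d39_d43_d19x2 := p_wQ_26_wN_1_rb8033094a_d43_d53_d41_d39_d43_d19

theorem g__wQ_26_wN_1_rb8033094a_d43_d53_d41_d39_d43_d17_1 : GoodKC AS k_wQ_26_wN_1_rb8033094a_d43_d53_d41_d39_d43_d17_1 := p_wQ_26_wN_1_rb8033094a_d43_d53_d41_d39_d43_d17_1

theorem g__wQ_26_wN_1_rb8033094a_d43_d53_d41_d39_d43_d17_0 : GoodKC AS k_wQ_26_wN_1_rb8033094a_d43_d53_d41_d39_d43_d17_0 := p_wQ_26_wN_1_rb8033094a_d43_d53_d41_d39_d43_d17_0 g__wQ_26_wN_1_rb8033094a_d43_d53_d41_d39_d43_d17_1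

theorem g_wQ_26_wN_1_rb8033094a_d43_d53_d41_d39_d43_d17x2 : GoodKC AS c_wQ_26_wN_1_rb8033094a_d43_d53_d41_d39_d43_d17x2 := p_wQ_26_wN_1_rb8033094a_d43_d53_d41_d39_d43_d17 g__wQ_26_wN_1_rb8033094a_d43_d53_d41_d39_d43_d17_0

theorem g_wQ_26_wN_1_rb8033094a_d43_d53_d41_d39_d43_d16x2 : GoodKC AS c_wQ_26_wN_1_rb8033094a_d43_d53_d41_d39_d43_d16x2 := p_wQ_26_wN_1_rb8033094a_d43_d53_d41_d39_d43_d16

theorem g__wQ_26_wN_1_rb8033094a_d43_d53_d41_d39x2_0 : GoodKC AS k_wQ_26_wN_1_rb8033094a_d43_d53_d41_d39x2_0 := p_wQ_26_wN_1_rb8033094a_d43_d53_d41_d39x2_0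

theorem g_wQ_26_wN_1_rb8033094a_d43_d53_d41_d39_d43_d15x2 : GoodKC AS c_wQ_26_wN_1_rb8033094a_d43_d53_d41_d39_d43_d15x2 := p_wQ_26_wN_1_rb8033094a_d43_d53_d41_d39_d43_d15

theorem g_wQ_26_wN_1_rb8033094a_d43_d53_d41_d39_d43_d14x2 : GoodKC AS c_wQ_26_wN_1_rb8033094a_d43_d53_d41_d39_d43_d14x2 := p_wQ_26_wN_1_rb8033094a_d43_d53_d41_d39_d43_d14

theorem g_wQ_26_wN_1_rb8033094a_d43_d53_d41_d39_d43_d13x2 : GoodKC AS c_wQ_26_wN_1_rb8033094a_d43_d53_d41_d39_d43_d13x2 := p_wQ_26_wN_1_rb8033094a_d43_d53_d41_d39_d43_d13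

theorem g_wQ_26_wN_1_rb8033094a_d43_d53_d41_d39_d43_d12x2 : GoodKC AS c_wQ_26_wN_1_rb8033094a_d43_d53_d41_d39_d43_d12x2 := p_wQ_26_wN_1_rb8033094a_d43_d53_d41_d39_d43_d12

theorem g_wQ_26_wN_1_rb8033094a_d43_d53_d41_d39_d43_d10x2 : GoodKC AS c_wQ_26_wN_1_rb8033094a_d43_d53_d41_d39_d43_d10x2 := p_wQ_26_wN_1_rb8033094a_d43_d53_d41_d39_d43_d10

theorem g_wQ_26_wN_1_rb8033094a_d43_d53_d41_d39_d43_d0fx2 : GoodKC AS c_wQ_26_wN_1_rb8033094a_d43_d53_d41_d39_d43_d0fx2 := p_wQ_26_wN_1_rb8033094a_d43_d53_d41_d39_d43_d0f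

theorem g_wQ_26_wN_1_rb8033094a_d43_d53_d41_d39_d43_d0ex2 : GoodKC AS c_wQ_26_wN_1_rb8033094a_d43_d53_d41_d39_d43_d0ex2 := p_wQ_26_wN_1_rb8033094a_d43_d53_d41_d39_d43_d0e

theorem g_wQ_26_wN_1_rb8033094a_d43_d53_d41_d39_d43_d0dx2 : GoodKC AS c_wQ_26_wN_1_rb8033094a_d43_d53_d41_d39_d43_d0dx2 := p_wQ_26_wN_1_rb8033094a_d43_d53_d41_d39_d43_d0d

theorem g_wQ_26_wN_1_rb8033094a_d43_d53_d41_d39_d43_d0cx2 : GoodKC AS c_wQ_26_wN_1_rb8033094a_d43_d53_d41_d39_d43_d0cx2 := p_wQ_26_wN_1_rb8033094a_d43_d53_d41_d39_d43_d0c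

theorem g_wQ_26_wN_1_rb8033094a_d43_d53_d41_d39_d43_d0ax2 : GoodKC AS c_wQ_26_wN_1_rb8033094a_d43_d53_d41_d39_d43_d0ax2 := p_wQ_26_wN_1_rb8033094a_d43_d53_d41_d39_d43_d0a

theorem g_wQ_26_wN_1_rb8033094a_d43_d53_d41_d39_d43_d08x2 : GoodKC AS c_wQ_26_wN_1_rb8033094a_d43_d53_d41_d39_d43_d08x2 := p_wQ_26_wN_1_rb8033094a_d43_d53_d41_d39_d43_d08

theorem g_wQ_26_wN_1_rb8033094a_d43_d53_d41_d39_d43_d07x2 : GoodKC AS c_wQ_26_wN_1_rb8033094a_d43_d53_d41_d39_d43_d07x2 := p_wQ_26_wN_1_rb8033094a_d43_d53_d41_d39_d43_d07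

theorem g_wQ_26_wN_1_rb8033094a_d43_d53_d41_d39_d43_d06x2 : GoodKC AS c_wQ_26_wN_1_rb8033094a_d43_d53_d41_d39_d43_d06x2 := p_wQ_26_wN_1_rb8033094a_d43_d53_d41_d39_d43_d06

theorem g_wQ_26_wN_1_rb8033094a_d43_d53_d41_d39_d43_d05x2 : GoodKC AS c_wQ_26_wN_1_rb8033094a_d43_d53_d41_d39_d43_d05x2 := p_wQ_26_wN_1_rb8033094a_d43_d53_d41_d39_d43_d05

theorem g_wQ_26_wN_1_rb8033094a_d43_d53_d41_d39_d43_d04x2 : GoodKC AS c_wQ_26_wN_1_rb8033094a_d43_d53_d41_d39_d43_d04x2 := p_wQ_26_wN_1_rb8033094a_d43_d53_d41_d39_d43_d04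

theorem g_wQ_26_wN_1_rb8033094a_d43_d53_d41_d39_d43_d03x2 : GoodKC AS c_wQ_26_wN_1_rb8033094a_d43_d53_d41_d39_d43_d03x2 := p_wQ_26_wN_1_rb8033094a_d43_d53_d41_d39_d43_d03

theorem g_wQ_26_wN_1_rb8033094a_d43_d53_d41_d39_d43_d02x2 : GoodKC AS c_wQ_26_wN_1_rb8033094a_d43_d53_d41_d39_d43_d02x2 := p_wQ_26_wN_1_rb8033094a_d43_d53_d41_d39_d43_d02

theorem g_wQ_26_wN_1_rb8033094a_d43_d53_d41_d39_d43_d01x2 : GoodKC AS c_wQ_26_wN_1_rb8033094a_d43_d53_d41_d39_d43_d01x2 := p_wQ_26_wN_1_rb8033094a_d43_d53_d41_d39_d43_d01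

theorem g_wQ_26_wN_1_rb8033094a_d43_d53_d41_d39_d43_d00x2 : GoodKC AS c_wQ_26_wN_1_rb8033094a_d43_d53_d41_d39_d43_d00x2 := p_wQ_26_wN_1_rb8033094a_d43_d53_d41_d39_d43_d00

theorem g__wQ_26_wN_1_rb8033094a_d43_d53_d41_d39x2_3 : GoodKC AS k_wQ_26_wN_1_rb8033094a_d43_d53_d41_d39x2_3 := p_wQ_26_wN_1_rb8033094a_d43_d53_d41_d39x2_3

theorem g__wQ_26_wN_1_rb8033094a_d43_d53_d41_d39x2_5 : GoodKC AS k_wQ_26_wN_1_rb8033094a_d43_d53_d41_d39x2_5 := p_wQ_26_wN_1_rb8033094a_d43_d53_d41_d39x2_5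

theorem g__wQ_26_wN_1_rb8033094a_d43_d53_d41_d39x2_4 : GoodKC AS k_wQ_26_wN_1_rb8033094a_d43_d53_d41_d39x2_4 := p_wQ_26_wN_1_rb8033094a_d43_d53_d41_d39x2_4 g__wQ_26_wN_1_rb8033094a_d43_d53_d41_d39x2_5

theorem g__wQ_26_wN_1_rb8033094a_d43_d53_d41_d39x2_2 : GoodKC AS k_wQ_26_wN_1_rb8033094a_d43_d53_d41_d39x2_2 := p_wQ_26_wN_1_rb8033094a_d43_d53_d41_d39x2_2 g__wQ_26_wN_1_rb8033094a_d43_d53_d41_d39x2_3 g__wQ_26_wN_1_rb8033094a_d43_d53_d41_d39x2_4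

theorem g_wQ_26_wN_1_rb8033094a_d43_d53_d41_d39_d43_d09x2 : GoodKC AS c_wQ_26_wN_1_rb8033094a_d43_d53_d41_d39_d43_d09x2 := p_wQ_26_wN_1_rb8033094a_d43_d53_d41_d39_d43_d09

theorem g_wQ_26_wN_1_rb8033094a_d43_d53_d41_d39_d43_d0bx2 : GoodKC AS c_wQ_26_wN_1_rb8033094a_d43_d53_d41_d39_d43_d0bx2 := p_wQ_26_wN_1_rb8033094a_d43_d53_d41_d39_d43_d0b

theorem g_wQ_26_wN_1_rb8033094a_d43_d53_d41_d39_d43_d11x2 : GoodKC AS c_wQ_26_wN_1_rb8033094a_d43_d53_d41_d39_d43_d11x2 := p_wQ_26_wN_1_rb8033094a_d43_d53_d41_d39_d43_d11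

theorem g__wQ_26_wN_1_rb8033094a_d43_d53_d41_d39x2_1 : GoodKC AS k_wQ_26_wN_1_rb8033094a_d43_d53_d41_d39x2_1 := p_wQ_26_wN_1_rb8033094a_d43_d53_d41_d39x2_1 g_wQ_26_wN_1_rb8033094a_d43_d53_d41_d39_d43_d15x2 g_wQ_26_wN_1_rb8033094a_d43_d53_d41_d39_d43_d14x2 g_wQ_26_wN_1_rb8033094a_d43_d53_d41_d39_d43_d13x2 g_wQ_26_wN_1_rb8033094a_d43_d53_d41_d39_d43_d12x2 g_wQ_26_wN_1_rb8033094a_d43_d53_d41_d39_d43_d10x2 g_wQ_26_wN_1_rb8033094a_d43_d53_d41_d39_d43_d0fx2 g_wQ_26_wN_1_rb8033094a_d43_d53_d41_d39_d43_d0ex2 g_wQ_26_wN_1_rb8033094a_d43_d53_d41_d39_d43_d0dx2 g_wQ_26_wN_1_rb8033094a_d43_d53_d41_d39_d43_d0cx2 g_wQ_26_wN_1_rb8033094a_d43_d53_d41_d39_d43_d0ax2 g_wQ_26_wN_1_rb8033094a_d43_d53_d41_d39_d43_d08x2 g_wQ_26_wN_1_rb8033094a_d43_d53_d41_d39_d43_d07x2 g_wQ_26_wN_1_rb8033094a_d43_d53_d41_d39_d43_d06x2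 g_wQ_26_wN_1_rb8033094a_d43_d53_d41_d39_d43_d05x2 g_wQ_26_wN_1_rb8033094a_d43_d53_d41_d39_d43_d04x2 g_wQ_26_wN_1_rb8033094a_d43_d53_d41_d39_d43_d03x2 g_wQ_26_wN_1_rb8033094a_d43_d53_d41_d39_d43_d02x2 g_wQ_26_wN_1_rb8033094a_d43_d53_d41_d39_d43_d01x2 g_wQ_26_wN_1_rb8033094a_d43_d53_d41_d39_d43_d00x2 g__wQ_26_wN_1_rb8033094a_d43_d53_d41_d39x2_2 g_wQ_26_wN_1_rb8033094a_d43_d53_d41_d39_d43_d09x2 g_wQ_26_wN_1_rb8033094a_d43_d53_d41_d39_d43_d0bx2 g_wQ_26_wN_1_rb8033094a_d43_d53_d41_d39_d43_d11x2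

theorem g_wQ_26_wN_1_rb8033094a_d43_d53_d41_d39_d43_d18x2 : GoodKC AS c_wQ_26_wN_1_rb8033094a_d43_d53_d41_d39_d43_d18x2 := p_wQ_26_wN_1_rb8033094a_d43_d53_d41_d39_d43_d18

theorem g_wQ_26_wN_1_rb8033094a_d43_d53_d41_d39_d43_d1cx2 : GoodKC AS c_wQ_26_wN_1_rb8033094a_d43_d53_d41_d39_d43_d1cx2 := p_wQ_26_wN_1_rb8033094a_d43_d53_d41_d39_d43_d1c

theorem g_wQ_26_wN_1_rb8033094a_d43_d53_d41_d39_d43_d1ex2 : GoodKC AS c_wQ_26_wN_1_rb8033094a_d43_d53_d41_d39_d43_d1ex2 := p_wQ_26_wN_1_rb8033094a_d43_d53_d41_d39_d43_d1e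

theorem g_wQ_26_wN_1_rb8033094a_d43_d53_d41_d39_d43_d24x2 : GoodKC AS c_wQ_26_wN_1_rb8033094a_d43_d53_d41_d39_d43_d24x2 := p_wQ_26_wN_1_rb8033094a_d43_d53_d41_d39_d43_d24

theorem g__wQ_26_wN_1_rb8033094a_d43_d53_d41_d39_d43_d2a_4 : GoodKC AS k_wQ_26_wN_1_rb8033094a_d43_d53_d41_d39_d43_d2a_4 := p_wQ_26_wN_1_rb8033094a_d43_d53_d41_d39_d43_d2a_4

theorem g__wQ_26_wN_1_rb8033094a_d43_d53_d41_d39_d43_d2a_7 : GoodKC AS k_wQ_26_wN_1_rb8033094a_d43_d53_d41_d39_d43_d2a_7 := p_wQ_26_wN_1_rb8033094a_d43_d53_d41_d39_d43_d2a_7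

theorem g__wQ_26_wN_1_rb8033094a_d43_d53_d41_d39_d43_d2a_6 : GoodKC AS k_wQ_26_wN_1_rb8033094a_d43_d53_d41_d39_d43_d2a_6 := p_wQ_26_wN_1_rb8033094a_d43_d53_d41_d39_d43_d2a_6 g__wQ_26_wN_1_rb8033094a_d43_d53_d41_d39_d43_d2a_7

theorem g__wQ_26_wN_1_rb8033094a_d43_d53_d41_d39_d43_d2a_5 : GoodKC AS k_wQ_26_wN_1_rb8033094a_d43_d53_d41_d39_d43_d2a_5 := p_wQ_26_wN_1_rb8033094a_d43_d53_d41_d39_d43_d2a_5 g__wQ_26_wN_1_rb8033094a_d43_d53_d41_d39_d43_d2a_6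

theorem g__wQ_26_wN_1_rb8033094a_d43_d53_d41_d39_d43_d2a_10 : GoodKC AS k_wQ_26_wN_1_rb8033094a_d43_d53_d41_d39_d43_d2a_10 := p_wQ_26_wN_1_rb8033094a_d43_d53_d41_d39_d43_d2a_10

theorem g__wQ_26_wN_1_rb8033094a_d43_d53_d41_d39_d43_d2a_9 : GoodKC AS k_wQ_26_wN_1_rb8033094a_d43_d53_d41_d39_d43_d2a_9 := p_wQ_26_wN_1_rb8033094a_d43_d53_d41_d39_d43_d2a_9 g__wQ_26_wN_1_rb8033094a_d43_d53_d41_d39_d43_d2a_10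

theorem g__wQ_26_wN_1_rb8033094a_d43_d53_d41_d39_d43_d2a_16 : GoodKC AS k_wQ_26_wN_1_rb8033094a_d43_d53_d41_d39_d43_d2a_16 := p_wQ_26_wN_1_rb8033094a_d43_d53_d41_d39_d43_d2a_16

theorem g__wQ_26_wN_1_rb8033094a_d43_d53_d41_d39_d43_d2a_15 : GoodKC AS k_wQ_26_wN_1_rb8033094a_d43_d53_d41_d39_d43_d2a_15 := p_wQ_26_wN_1_rb8033094a_d43_d53_d41_d39_d43_d2a_15 g__wQ_26_wN_1_rb8033094a_d43_d53_d41_d39_d43_d2a_16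

theorem g__wQ_26_wN_1_rb8033094a_d43_d53_d41_d39_d43_d2a_19 : GoodKC AS k_wQ_26_wN_1_rb8033094a_d43_d53_d41_d39_d43_d2a_19 := p_wQ_26_wN_1_rb8033094a_d43_d53_d41_d39_d43_d2a_19

theorem g__wQ_26_wN_1_rb8033094a_d43_d53_d41_d39_d43_d2a_20 : GoodKC AS k_wQ_26_wN_1_rb8033094a_d43_d53_d41_d39_d43_d2a_20 := p_wQ_26_wN_1_rb8033094a_d43_d53_d41_d39_d43_d2a_20

theorem g__wQ_26_wN_1_rb8033094a_d43_d53_d41_d39_d43_d2a_18 : GoodKC AS k_wQ_26_wN_1_rb8033094a_d43_d53_d41_d39_d43_d2a_18 := p_wQ_26_wN_1_rb8033094a_d43_d53_d41_d39_d43_d2a_18 g__wQ_26_wN_1_rb8033094a_d43_d53_d41_d39_d43_d2a_19 g__wQ_26_wN_1_rb8033094a_d43_d53_d41_d39_d43_d2a_20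

theorem g__wQ_26_wN_1_rb8033094a_d43_d53_d41_d39_d43_d2a_17 : GoodKC AS k_wQ_26_wN_1_rb8033094a_d43_d53_d41_d39_d43_d2a_17 := p_wQ_26_wN_1_rb8033094a_d43_d53_d41_d39_d43_d2a_17 g__wQ_26_wN_1_rb8033094a_d43_d53_d41_d39_d43_d2a_18

theorem g__wQ_26_wN_1_rb8033094a_d43_d53_d41_d39_d43_d2a_14 : GoodKC AS k_wQ_26_wN_1_rb8033094a_d43_d53_d41_d39_d43_d2a_14 := p_wQ_26_wN_1_rb8033094a_d43_d53_d41_d39_d43_d2a_14 g__wQ_26_wN_1_rb8033094a_d43_d53_d41_d39_d43_d2a_15 g__wQ_26_wN_1_rb8033094a_d43_d53_d41_d39_d43_d2a_17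

theorem g__wQ_26_wN_1_rb8033094a_d43_d53_d41_d39_d43_d2a_13 : GoodKC AS k_wQ_26_wN_1_rb8033094a_d43_d53_d41_d39_d43_d2a_13 := p_wQ_26_wN_1_rb8033094a_d43_d53_d41_d39_d43_d2a_13 g__wQ_26_wN_1_rb8033094a_d43_d53_d41_d39_d43_d2a_14

theorem g__wQ_26_wN_1_rb8033094a_d43_d53_d41_d39_d43_d2a_12 : GoodKC AS k_wQ_26_wN_1_rb8033094a_d43_d53_d41_d39_d43_d2a_12 := p_wQ_26_wN_1_rb8033094a_d43_d53_d41_d39_d43_d2a_12 g__wQ_26_wN_1_rb8033094a_d43_d53_d41_d39_d43_d2a_13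

theorem g__wQ_26_wN_1_rb8033094a_d43_d53_d41_d39_d43_d2a_11 : GoodKC AS k_wQ_26_wN_1_rb8033094a_d43_d53_d41_d39_d43_d2a_11 := p_wQ_26_wN_1_rb8033094a_d43_d53_d41_d39_d43_d2a_11 g__wQ_26_wN_1_rb8033094a_d43_d53_d41_d39_d43_d2a_12

theorem g__wQ_26_wN_1_rb8033094a_d43_d53_d41_d39_d43_d2a_8 : GoodKC AS k_wQ_26_wN_1_rb8033094a_d43_d53_d41_d39_d43_d2a_8 := p_wQ_26_wN_1_rb8033094a_d43_d53_d41_d39_d43_d2a_8 g__wQ_26_wN_1_rb8033094a_d43_d53_d41_d39_d43_d2a_9 g__wQ_26_wN_1_rb8033094a_d43_d53_d41_d39_d43_d2a_11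

theorem g__wQ_26_wN_1_rb8033094a_d43_d53_d41_d39_d43_d2a_3 : GoodKC AS k_wQ_26_wN_1_rb8033094a_d43_d53_d41_d39_d43_d2a_3 := p_wQ_26_wN_1_rb8033094a_d43_d53_d41_d39_d43_d2a_3 g__wQ_26_wN_1_rb8033094a_d43_d53_d41_d39_d43_d2a_4 g__wQ_26_wN_1_rb8033094a_d43_d53_d41_d39_d43_d2a_5 g__wQ_26_wN_1_rb8033094a_d43_d53_d41_d39_d43_d2a_8

theorem g__wQ_26_wN_1_rb8033094a_d43_d53_d41_d39_d43_d2a_2 : GoodKC AS k_wQ_26_wN_1_rb8033094a_d43_d53_d41_d39_d43_d2a_2 := p_wQ_26_wN_1_rb8033094a_d43_d53_d41_d39_d43_d2a_2 g__wQ_26_wN_1_rb8033094a_d43_d53_d41_d39_d43_d2a_3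

theorem g__wQ_26_wN_1_rb8033094a_d43_d53_d41_d39_d43_d2a_1 : GoodKC AS k_wQ_26_wN_1_rb8033094a_d43_d53_d41_d39_d43_d2a_1 := p_wQ_26_wN_1_rb8033094a_d43_d53_d41_d39_d43_d2a_1 g__wQ_26_wN_1_rb8033094a_d43_d53_d41_d39_d43_d2a_2

theorem g__wQ_26_wN_1_rb8033094a_d43_d53_d41_d39_d43_d2a_0 : GoodKC AS k_wQ_26_wN_1_rb8033094a_d43_d53_d41_d39_d43_d2a_0 := p_wQ_26_wN_1_rb8033094a_d43_d53_d41_d39_d43_d2a_0 g__wQ_26_wN_1_rb8033094a_d43_d53_d41_d39_d43_d2a_1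

theorem g_wQ_26_wN_1_rb8033094a_d43_d53_d41_d39_d43_d2ax2 : GoodKC AS c_wQ_26_wN_1_rb8033094a_d43_d53_d41_d39_d43_d2ax2 := p_wQ_26_wN_1_rb8033094a_d43_d53_d41_d39_d43_d2a g__wQ_26_wN_1_rb8033094a_d43_d53_d41_d39_d43_d2a_0

theorem g__wQ_26_wN_1_rb8033094a_d43_d53_d41_d39_d43_d33_2 : GoodKC AS k_wQ_26_wN_1_rb8033094a_d43_d53_d41_d39_d43_d33_2 := p_wQ_26_wN_1_rb8033094a_d43_d53_d41_d39_d43_d33_2

theorem g__wQ_26_wN_1_rb8033094a_d43_d53_d41_d39_d43_d33_1 : GoodKC AS k_wQ_26_wN_1_rb8033094a_d43_d53_d41_d39_d43_d33_1 := p_wQ_26_wN_1_rb8033094a_d43_d53_d41_d39_d43_d33_1 g__wQ_26_wN_1_rb8033094a_d43_d53_d41_d39_d43_d33_2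

theorem g__wQ_26_wN_1_rb8033094a_d43_d53_d41_d39_d43_d33_4 : GoodKC AS k_wQ_26_wN_1_rb8033094a_d43_d53_d41_d39_d43_d33_4 := p_wQ_26_wN_1_rb8033094a_d43_d53_d41_d39_d43_d33_4

theorem g__wQ_26_wN_1_rb8033094a_d43_d53_d41_d39_d43_d33_3 : GoodKC AS k_wQ_26_wN_1_rb8033094a_d43_d53_d41_d39_d43_d33_3 := p_wQ_26_wN_1_rb8033094a_d43_d53_d41_d39_d43_d33_3 g__wQ_26_wN_1_rb8033094a_d43_d53_d41_d39_d43_d33_4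

theorem g__wQ_26_wN_1_rb8033094a_d43_d53_d41_d39_d43_d33_0 : GoodKC AS k_wQ_26_wN_1_rb8033094a_d43_d53_d41_d39_d43_d33_0 := p_wQ_26_wN_1_rb8033094a_d43_d53_d41_d39_d43_d33_0 g__wQ_26_wN_1_rb8033094a_d43_d53_d41_d39_d43_d33_1 g__wQ_26_wN_1_rb8033094a_d43_d53_d41_d39_d43_d33_3

theorem g__wQ_26_wN_1_rb8033094a_d43_d53_d41_d39_d43_d33_6 : GoodKC AS k_wQ_26_wN_1_rb8033094a_d43_d53_d41_d39_d43_d33_6 := p_wQ_26_wN_1_rb8033094a_d43_d53_d41_d39_d43_d33_6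

theorem g__wQ_26_wN_1_rb8033094a_d43_d53_d41_d39_d43_d33_9 : GoodKC AS k_wQ_26_wN_1_rb8033094a_d43_d53_d41_d39_d43_d33_9 := p_wQ_26_wN_1_rb8033094a_d43_d53_d41_d39_d43_d33_9

theorem g__wQ_26_wN_1_rb8033094a_d43_d53_d41_d39_d43_d33_11 : GoodKC AS k_wQ_26_wN_1_rb8033094a_d43_d53_d41_d39_d43_d33_11 := p_wQ_26_wN_1_rb8033094a_d43_d53_d41_d39_d43_d33_11

theorem g__wQ_26_wN_1_rb8033094a_d43_d53_d41_d39_d43_d33_10 : GoodKC AS k_wQ_26_wN_1_rb8033094a_d43_d53_d41_d39_d43_d33_10 := p_wQ_26_wN_1_rb8033094a_d43_d53_d41_d39_d43_d33_10 g__wQ_26_wN_1_rb8033094a_d43_d53_d41_d39_d43_d33_11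

theorem g__wQ_26_wN_1_rb8033094a_d43_d53_d41_d39_d43_d33_8 : GoodKC AS k_wQ_26_wN_1_rb8033094a_d43_d53_d41_d39_d43_d33_8 := p_wQ_26_wN_1_rb8033094a_d43_d53_d41_d39_d43_d33_8 g__wQ_26_wN_1_rb8033094a_d43_d53_d41_d39_d43_d33_9 g__wQ_26_wN_1_rb8033094a_d43_d53_d41_d39_d43_d33_10

theorem g__wQ_26_wN_1_rb8033094a_d43_d53_d41_d39_d43_d33_7 : GoodKC AS k_wQ_26_wN_1_rb8033094a_d43_d53_d41_d39_d43_d33_7 := p_wQ_26_wN_1_rb8033094a_d43_d53_d41_d39_d43_d33_7 g__wQ_26_wN_1_rb8033094a_d43_d53_d41_d39_d43_d33_8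

theorem g__wQ_26_wN_1_rb8033094a_d43_d53_d41_d39_d43_d33_5 : GoodKC AS k_wQ_26_wN_1_rb8033094a_d43_d53_d41_d39_d43_d33_5 := p_wQ_26_wN_1_rb8033094a_d43_d53_d41_d39_d43_d33_5 g__wQ_26_wN_1_rb8033094a_d43_d53_d41_d39_d43_d33_6 g__wQ_26_wN_1_rb8033094a_d43_d53_d41_d39_d43_d33_7

theorem g_wQ_26_wN_1_rb8033094a_d43_d53_d41_d39_d43_d33x2 : GoodKC AS c_wQ_26_wN_1_rb8033094a_d43_d53_d41_d39_d43_d33x2 := p_wQ_26_wN_1_rb8033094a_d43_d53_d41_d39_d43_d33 g__wQ_26_wN_1_rb8033094a_d43_d53_d41_d39_d43_d33_0 g__wQ_26_wN_1_rb8033094a_d43_d53_d41_d39_d43_d33_5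

theorem g_wQ_26_wN_1_rb8033094a_d43_d53_d41_d39_d43_d3420 : GoodKC AS c_wQ_26_wN_1_rb8033094a_d43_d53_d41_d39_d43_d3420 := p_wQ_26_wN_1_rb8033094a_d43_d53_d41_d39_d43_d3420

theorem g__wQ_26_wN_1_rb8033094a_d43_d53_d41_d39_d43_d341e_0 : GoodKC AS k_wQ_26_wN_1_rb8033094a_d43_d53_d41_d39_d43_d341e_0 := p_wQ_26_wN_1_rb8033094a_d43_d53_d41_d39_d43_d341e_0

theorem g_wQ_26_wN_1_rb8033094a_d43_d53_d41_d39_d43_d341e : GoodKC AS c_wQ_26_wN_1_rb8033094a_d43_d53_d41_d39_d43_d341e := p_wQ_26_wN_1_rb8033094a_d43_d53_d41_d39_d43_d341e g__wQ_26_wN_1_rb8033094a_d43_d53_d41_d39_d43_d341e_0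

theorem g_wQ_26_wN_1_rb8033094a_d43_d53_d41_d39_d43_d341c : GoodKC AS c_wQ_26_wN_1_rb8033094a_d43_d53_d41_d39_d43_d341c := p_wQ_26_wN_1_rb8033094a_d43_d53_d41_d39_d43_d341c

theorem g_wQ_26_wN_1_rb8033094a_d43_d53_d41_d39_d43_d3419 : GoodKC AS c_wQ_26_wN_1_rb8033094a_d43_d53_d41_d39_d43_d3419 := p_wQ_26_wN_1_rb8033094a_d43_d53_d41_d39_d43_d3419

theorem g__wQ_26_wN_1_rb8033094a_d43_d53_d41_d39_d43_d3418v1_2 : GoodKC AS k_wQ_26_wN_1_rb8033094a_d43_d53_d41_d39_d43_d3418v1_2 := p_wQ_26_wN_1_rb8033094a_d43_d53_d41_d39_d43_d3418v1_2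

theorem g__wQ_26_wN_1_rb8033094a_d43_d53_d41_d39_d43_d3418v1_1 : GoodKC AS k_wQ_26_wN_1_rb8033094a_d43_d53_d41_d39_d43_d3418v1_1 := p_wQ_26_wN_1_rb8033094a_d43_d53_d41_d39_d43_d3418v1_1 g__wQ_26_wN_1_rb8033094a_d43_d53_d41_d39_d43_d3418v1_2

theorem g__wQ_26_wN_1_rb8033094a_d43_d53_d41_d39_d43_d3418v1_0 : GoodKC AS k_wQ_26_wN_1_rb8033094a_d43_d53_d41_d39_d43_d3418v1_0 := p_wQ_26_wN_1_rb8033094a_d43_d53_d41_d39_d43_d3418v1_0 g__wQ_26_wN_1_rb8033094a_d43_d53_d41_d39_d43_d3418v1_1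

theorem g__wQ_26_wN_1_rb8033094a_d43_d53_d41_d39_d43_d3418v1_6 : GoodKC AS k_wQ_26_wN_1_rb8033094a_d43_d53_d41_d39_d43_d3418v1_6 := p_wQ_26_wN_1_rb8033094a_d43_d53_d41_d39_d43_d3418v1_6

theorem g__wQ_26_wN_1_rb8033094a_d43_d53_d41_d39_d43_d3418v1_5 : GoodKC AS k_wQ_26_wN_1_rb8033094a_d43_d53_d41_d39_d43_d3418v1_5 := p_wQ_26_wN_1_rb8033094a_d43_d53_d41_d39_d43_d3418v1_5 g__wQ_26_wN_1_rb8033094a_d43_d53_d41_d39_d43_d3418v1_6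

theorem g__wQ_26_wN_1_rb8033094a_d43_d53_d41_d39_d43_d3418v1_7 : GoodKC AS k_wQ_26_wN_1_rb8033094a_d43_d53_d41_d39_d43_d3418v1_7 := p_wQ_26_wN_1_rb8033094a_d43_d53_d41_d39_d43_d3418v1_7

theorem g__wQ_26_wN_1_rb8033094a_d43_d53_d41_d39_d43_d3418v1_4 : GoodKC AS k_wQ_26_wN_1_rb8033094a_d43_d53_d41_d39_d43_d3418v1_4 := p_wQ_26_wN_1_rb8033094a_d43_d53_d41_d39_d43_d3418v1_4 g__wQ_26_wN_1_rb8033094a_d43_d53_d41_d39_d43_d3418v1_5 g__wQ_26_wN_1_rb8033094a_d43_d53_d41_d39_d43_d3418v1_7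

theorem g__wQ_26_wN_1_rb8033094a_d43_d53_d41_d39_d43_d3418v1_8 : GoodKC AS k_wQ_26_wN_1_rb8033094a_d43_d53_d41_d39_d43_d3418v1_8 := p_wQ_26_wN_1_rb8033094a_d43_d53_d41_d39_d43_d3418v1_8

theorem g__wQ_26_wN_1_rb8033094a_d43_d53_d41_d39_d43_d3418v1_3 : GoodKC AS k_wQ_26_wN_1_rb8033094a_d43_d53_d41_d39_d43_d3418v1_3 := p_wQ_26_wN_1_rb8033094a_d43_d53_d41_d39_d43_d3418v1_3 g__wQ_26_wN_1_rb8033094a_d43_d53_d41_d39_d43_d3418v1_4 g__wQ_26_wN_1_rb8033094a_d43_d53_d41_d39_d43_d3418v1_8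

theorem g_wQ_26_wN_1_rb8033094a_d43_d53_d41_d39_d43_d3418 : GoodKC AS c_wQ_26_wN_1_rb8033094a_d43_d53_d41_d39_d43_d3418 := p_wQ_26_wN_1_rb8033094a_d43_d53_d41_d39_d43_d3418v1 g__wQ_26_wN_1_rb8033094a_d43_d53_d41_d39_d43_d3418v1_0 g__wQ_26_wN_1_rb8033094a_d43_d53_d41_d39_d43_d3418v1_3

theorem g_wQ_26_wN_1_rb8033094a_d43_d53_d41_d39_d43_d3417 : GoodKC AS c_wQ_26_wN_1_rb8033094a_d43_d53_d41_d39_d43_d3417 := p_wQ_26_wN_1_rb8033094a_d43_d53_d41_d39_d43_d3417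

theorem g_wQ_26_wN_1_rb8033094a_d43_d53_d41_d39_d43_d3415 : GoodKC AS c_wQ_26_wN_1_rb8033094a_d43_d53_d41_d39_d43_d3415 := p_wQ_26_wN_1_rb8033094a_d43_d53_d41_d39_d43_d3415

theorem g__wQ_26_wN_1_rb8033094a_d43_d53_d41_d39_d43_d3414_1 : GoodKC AS k_wQ_26_wN_1_rb8033094a_d43_d53_d41_d39_d43_d3414_1 := p_wQ_26_wN_1_rb8033094a_d43_d53_d41_d39_d43_d3414_1

theorem g__wQ_26_wN_1_rb8033094a_d43_d53_d41_d39_d43_d3414_4 : GoodKC AS k_wQ_26_wN_1_rb8033094a_d43_d53_d41_d39_d43_d3414_4 := p_wQ_26_wN_1_rb8033094a_d43_d53_d41_d39_d43_d3414_4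

theorem g__wQ_26_wN_1_rb8033094a_d43_d53_d41_d39_d43_d3414_5 : GoodKC AS k_wQ_26_wN_1_rb8033094a_d43_d53_d41_d39_d43_d3414_5 := p_wQ_26_wN_1_rb8033094a_d43_d53_d41_d39_d43_d3414_5

theorem g__wQ_26_wN_1_rb8033094a_d43_d53_d41_d39_d43_d3414_3 : GoodKC AS k_wQ_26_wN_1_rb8033094a_d43_d53_d41_d39_d43_d3414_3 := p_wQ_26_wN_1_rb8033094a_d43_d53_d41_d39_d43_d3414_3 g__wQ_26_wN_1_rb8033094a_d43_d53_d41_d39_d43_d3414_4 g__wQ_26_wN_1_rb8033094a_d43_d53_d41_d39_d43_d3414_5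

theorem g__wQ_26_wN_1_rb8033094a_d43_d53_d41_d39_d43_d3414_2 : GoodKC AS k_wQ_26_wN_1_rb8033094a_d43_d53_d41_d39_d43_d3414_2 := p_wQ_26_wN_1_rb8033094a_d43_d53_d41_d39_d43_d3414_2 g__wQ_26_wN_1_rb8033094a_d43_d53_d41_d39_d43_d3414_3

theorem g__wQ_26_wN_1_rb8033094a_d43_d53_d41_d39_d43_d3414_0 : GoodKC AS k_wQ_26_wN_1_rb8033094a_d43_d53_d41_d39_d43_d3414_0 := p_wQ_26_wN_1_rb8033094a_d43_d53_d41_d39_d43_d3414_0 g__wQ_26_wN_1_rb8033094a_d43_d53_d41_d39_d43_d3414_1 g__wQ_26_wN_1_rb8033094a_d43_d53_d41_d39_d43_d3414_2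

theorem g__wQ_26_wN_1_rb8033094a_d43_d53_d41_d39_d43_d3414_6 : GoodKC AS k_wQ_26_wN_1_rb8033094a_d43_d53_d41_d39_d43_d3414_6 := p_wQ_26_wN_1_rb8033094a_d43_d53_d41_d39_d43_d3414_6

theorem g_wQ_26_wN_1_rb8033094a_d43_d53_d41_d39_d43_d3414 : GoodKC AS c_wQ_26_wN_1_rb8033094a_d43_d53_d41_d39_d43_d3414 := p_wQ_26_wN_1_rb8033094a_d43_d53_d41_d39_d43_d3414 g__wQ_26_wN_1_rb8033094a_d43_d53_d41_d39_d43_d3414_0 g__wQ_26_wN_1_rb8033094a_d43_d53_d41_d39_d43_d3414_6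

theorem g__wQ_26_wN_1_rb8033094a_d43_d53_d41_d39_d43_d3413_0 : GoodKC AS k_wQ_26_wN_1_rb8033094a_d43_d53_d41_d39_d43_d3413_0 := p_wQ_26_wN_1_rb8033094a_d43_d53_d41_d39_d43_d3413_0

theorem g__wQ_26_wN_1_rb8033094a_d43_d53_d41_d39_d43_d3413_3 : GoodKC AS k_wQ_26_wN_1_rb8033094a_d43_d53_d41_d39_d43_d3413_3 := p_wQ_26_wN_1_rb8033094a_d43_d53_d41_d39_d43_d3413_3

theorem g__wQ_26_wN_1_rb8033094a_d43_d53_d41_d39_d43_d3413_2 : GoodKC AS k_wQ_26_wN_1_rb8033094a_d43_d53_d41_d39_d43_d3413_2 := p_wQ_26_wN_1_rb8033094a_d43_d53_d41_d39_d43_d3413_2 g__wQ_26_wN_1_rb8033094a_d43_d53_d41_d39_d43_d3413_3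

theorem g__wQ_26_wN_1_rb8033094a_d43_d53_d41_d39_d43_d3413_6 : GoodKC AS k_wQ_26_wN_1_rb8033094a_d43_d53_d41_d39_d43_d3413_6 := p_wQ_26_wN_1_rb8033094a_d43_d53_d41_d39_d43_d3413_6

theorem g__wQ_26_wN_1_rb8033094a_d43_d53_d41_d39_d43_d3413_7 : GoodKC AS k_wQ_26_wN_1_rb8033094a_d43_d53_d41_d39_d43_d3413_7 := p_wQ_26_wN_1_rb8033094a_d43_d53_d41_d39_d43_d3413_7

theorem g__wQ_26_wN_1_rb8033094a_d43_d53_d41_d39_d43_d3413_5 : GoodKC AS k_wQ_26_wN_1_rb8033094a_d43_d53_d41_d39_d43_d3413_5 := p_wQ_26_wN_1_rb8033094a_d43_d53_d41_d39_d43_d3413_5 g__wQ_26_wN_1_rb8033094a_d43_d53_d41_d39_d43_d3413_6 g__wQ_26_wN_1_rb8033094a_d43_d53_d41_d39_d43_d3413_7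

theorem g__wQ_26_wN_1_rb8033094a_d43_d53_d41_d39_d43_d3413_4 : GoodKC AS k_wQ_26_wN_1_rb8033094a_d43_d53_d41_d39_d43_d3413_4 := p_wQ_26_wN_1_rb8033094a_d43_d53_d41_d39_d43_d3413_4 g__wQ_26_wN_1_rb8033094a_d43_d53_d41_d39_d43_d3413_5

theorem g__wQ_26_wN_1_rb8033094a_d43_d53_d41_d39_d43_d3413_8 : GoodKC AS k_wQ_26_wN_1_rb8033094a_d43_d53_d41_d39_d43_d3413_8 := p_wQ_26_wN_1_rb8033094a_d43_d53_d41_d39_d43_d3413_8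

theorem g__wQ_26_wN_1_rb8033094a_d43_d53_d41_d39_d43_d3413_1 : GoodKC AS k_wQ_26_wN_1_rb8033094a_d43_d53_d41_d39_d43_d3413_1 := p_wQ_26_wN_1_rb8033094a_d43_d53_d41_d39_d43_d3413_1 g__wQ_26_wN_1_rb8033094a_d43_d53_d41_d39_d43_d3413_2 g__wQ_26_wN_1_rb8033094a_d43_d53_d41_d39_d43_d3413_4 g__wQ_26_wN_1_rb8033094a_d43_d53_d41_d39_d43_d3413_8

theorem g_wQ_26_wN_1_rb8033094a_d43_d53_d41_d39_d43_d3413 : GoodKC AS c_wQ_26_wN_1_rb8033094a_d43_d53_d41_d39_d43_d3413 := p_wQ_26_wN_1_rb8033094a_d43_d53_d41_d39_d43_d3413 g__wQ_26_wN_1_rb8033094a_d43_d53_d41_d39_d43_d3413_0 g__wQ_26_wN_1_rb8033094a_d43_d53_d41_d39_d43_d3413_1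

theorem g_wQ_26_wN_1_rb8033094a_d43_d53_d41_d39_d43_d3412 : GoodKC AS c_wQ_26_wN_1_rb8033094a_d43_d53_d41_d39_d43_d3412 := p_wQ_26_wN_1_rb8033094a_d43_d53_d41_d39_d43_d3412

theorem g_wQ_26_wN_1_rb8033094a_d43_d53_d41_d39_d43_d3411 : GoodKC AS c_wQ_26_wN_1_rb8033094a_d43_d53_d41_d39_d43_d3411 := p_wQ_26_wN_1_rb8033094a_d43_d53_d41_d39_d43_d3411

theorem g_wQ_26_wN_1_rb8033094a_d43_d53_d41_d39_d43_d3410 : GoodKC AS c_wQ_26_wN_1_rb8033094a_d43_d53_d41_d39_d43_d3410 := p_wQ_26_wN_1_rb8033094a_d43_d53_d41_d39_d43_d3410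

theorem g_wQ_26_wN_1_rb8033094a_d43_d53_d41_d39_d43_d340f : GoodKC AS c_wQ_26_wN_1_rb8033094a_d43_d53_d41_d39_d43_d340f := p_wQ_26_wN_1_rb8033094a_d43_d53_d41_d39_d43_d340f

theorem g__wQ_26_wN_1_rb8033094a_d43_d53_d41_d39_d43_d34_2 : GoodKC AS k_wQ_26_wN_1_rb8033094a_d43_d53_d41_d39_d43_d34_2 := p_wQ_26_wN_1_rb8033094a_d43_d53_d41_d39_d43_d34_2

theorem g__wQ_26_wN_1_rb8033094a_d43_d53_d41_d39_d43_d34_1 : GoodKC AS k_wQ_26_wN_1_rb8033094a_d43_d53_d41_d39_d43_d34_1 := p_wQ_26_wN_1_rb8033094a_d43_d53_d41_d39_d43_d34_1 g__wQ_26_wN_1_rb8033094a_d43_d53_d41_d39_d43_d34_2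

theorem g__wQ_26_wN_1_rb8033094a_d43_d53_d41_d39_d43_d34_0 : GoodKC AS k_wQ_26_wN_1_rb8033094a_d43_d53_d41_d39_d43_d34_0 := p_wQ_26_wN_1_rb8033094a_d43_d53_d41_d39_d43_d34_0 g__wQ_26_wN_1_rb8033094a_d43_d53_d41_d39_d43_d34_1

theorem g_wQ_26_wN_1_rb8033094a_d43_d53_d41_d39_d43_d340c : GoodKC AS c_wQ_26_wN_1_rb8033094a_d43_d53_d41_d39_d43_d340c := p_wQ_26_wN_1_rb8033094a_d43_d53_d41_d39_d43_d340c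

theorem g_wQ_26_wN_1_rb8033094a_d43_d53_d41_d39_d43_d340b : GoodKC AS c_wQ_26_wN_1_rb8033094a_d43_d53_d41_d39_d43_d340b := p_wQ_26_wN_1_rb8033094a_d43_d53_d41_d39_d43_d340b

theorem g_wQ_26_wN_1_rb8033094a_d43_d53_d41_d39_d43_d340a : GoodKC AS c_wQ_26_wN_1_rb8033094a_d43_d53_d41_d39_d43_d340a := p_wQ_26_wN_1_rb8033094a_d43_d53_d41_d39_d43_d340a

theorem g_wQ_26_wN_1_rb8033094a_d43_d53_d41_d39_d43_d3406 : GoodKC AS c_wQ_26_wN_1_rb8033094a_d43_d53_d41_d39_d43_d3406 := p_wQ_26_wN_1_rb8033094a_d43_d53_d41_d39_d43_d3406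

theorem g_wQ_26_wN_1_rb8033094a_d43_d53_d41_d39_d43_d3404 : GoodKC AS c_wQ_26_wN_1_rb8033094a_d43_d53_d41_d39_d43_d3404 := p_wQ_26_wN_1_rb8033094a_d43_d53_d41_d39_d43_d3404

theorem g_wQ_26_wN_1_rb8033094a_d43_d53_d41_d39_d43_d3401 : GoodKC AS c_wQ_26_wN_1_rb8033094a_d43_d53_d41_d39_d43_d3401 := p_wQ_26_wN_1_rb8033094a_d43_d53_d41_d39_d43_d3401

theorem g__wQ_26_wN_1_rb8033094a_d43_d53_d41_d39_d43_d3400_5 : GoodKC AS k_wQ_26_wN_1_rb8033094a_d43_d53_d41_d39_d43_d3400_5 := p_wQ_26_wN_1_rb8033094a_d43_d53_d41_d39_d43_d3400_5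

theorem g__wQ_26_wN_1_rb8033094a_d43_d53_d41_d39_d43_d3400_4 : GoodKC AS k_wQ_26_wN_1_rb8033094a_d43_d53_d41_d39_d43_d3400_4 := p_wQ_26_wN_1_rb8033094a_d43_d53_d41_d39_d43_d3400_4 g__wQ_26_wN_1_rb8033094a_d43_d53_d41_d39_d43_d3400_5

theorem g__wQ_26_wN_1_rb8033094a_d43_d53_d41_d39_d43_d3400_3 : GoodKC AS k_wQ_26_wN_1_rb8033094a_d43_d53_d41_d39_d43_d3400_3 := p_wQ_26_wN_1_rb8033094a_d43_d53_d41_d39_d43_d3400_3 g__wQ_26_wN_1_rb8033094a_d43_d53_d41_d39_d43_d3400_4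

theorem g__wQ_26_wN_1_rb8033094a_d43_d53_d41_d39_d43_d3400_2 : GoodKC AS k_wQ_26_wN_1_rb8033094a_d43_d53_d41_d39_d43_d3400_2 := p_wQ_26_wN_1_rb8033094a_d43_d53_d41_d39_d43_d3400_2 g__wQ_26_wN_1_rb8033094a_d43_d53_d41_d39_d43_d3400_3

theorem g__wQ_26_wN_1_rb8033094a_d43_d53_d41_d39_d43_d3400_1 : GoodKC AS k_wQ_26_wN_1_rb8033094a_d43_d53_d41_d39_d43_d3400_1 := p_wQ_26_wN_1_rb8033094a_d43_d53_d41_d39_d43_d3400_1 g__wQ_26_wN_1_rb8033094a_d43_d53_d41_d39_d43_d3400_2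

theorem g__wQ_26_wN_1_rb8033094a_d43_d53_d41_d39_d43_d3400_7 : GoodKC AS k_wQ_26_wN_1_rb8033094a_d43_d53_d41_d39_d43_d3400_7 := p_wQ_26_wN_1_rb8033094a_d43_d53_d41_d39_d43_d3400_7

theorem g__wQ_26_wN_1_rb8033094a_d43_d53_d41_d39_d43_d3400_6 : GoodKC AS k_wQ_26_wN_1_rb8033094a_d43_d53_d41_d39_d43_d3400_6 := p_wQ_26_wN_1_rb8033094a_d43_d53_d41_d39_d43_d3400_6 g__wQ_26_wN_1_rb8033094a_d43_d53_d41_d39_d43_d3400_7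

theorem g__wQ_26_wN_1_rb8033094a_d43_d53_d41_d39_d43_d3400_0 : GoodKC AS k_wQ_26_wN_1_rb8033094a_d43_d53_d41_d39_d43_d3400_0 := p_wQ_26_wN_1_rb8033094a_d43_d53_d41_d39_d43_d3400_0 g__wQ_26_wN_1_rb8033094a_d43_d53_d41_d39_d43_d3400_1 g__wQ_26_wN_1_rb8033094a_d43_d53_d41_d39_d43_d3400_6

theorem g_wQ_26_wN_1_rb8033094a_d43_d53_d41_d39_d43_d3400 : GoodKC AS c_wQ_26_wN_1_rb8033094a_d43_d53_d41_d39_d43_d3400 := p_wQ_26_wN_1_rb8033094a_d43_d53_d41_d39_d43_d3400 g__wQ_26_wN_1_rb8033094a_d43_d53_d41_d39_d43_d3400_0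

theorem g_wQ_26_wN_1_rb8033094a_d43_d53_d41_d39_d43_d3402 : GoodKC AS c_wQ_26_wN_1_rb8033094a_d43_d53_d41_d39_d43_d3402 := p_wQ_26_wN_1_rb8033094a_d43_d53_d41_d39_d43_d3402

theorem g_wQ_26_wN_1_rb8033094a_d43_d53_d41_d39_d43_d3403 : GoodKC AS c_wQ_26_wN_1_rb8033094a_d43_d53_d41_d39_d43_d3403 := p_wQ_26_wN_1_rb8033094a_d43_d53_d41_d39_d43_d3403

theorem g_wQ_26_wN_1_rb8033094a_d43_d53_d41_d39_d43_d3405 : GoodKC AS c_wQ_26_wN_1_rb8033094a_d43_d53_d41_d39_d43_d3405 := p_wQ_26_wN_1_rb8033094a_d43_d53_d41_d39_d43_d3405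

theorem g_wQ_26_wN_1_rb8033094a_d43_d53_d41_d39_d43_d3407 : GoodKC AS c_wQ_26_wN_1_rb8033094a_d43_d53_d41_d39_d43_d3407 := p_wQ_26_wN_1_rb8033094a_d43_d53_d41_d39_d43_d3407

theorem g_wQ_26_wN_1_rb8033094a_d43_d53_d41_d39_d43_d3408 : GoodKC AS c_wQ_26_wN_1_rb8033094a_d43_d53_d41_d39_d43_d3408 := p_wQ_26_wN_1_rb8033094a_d43_d53_d41_d39_d43_d3408

theorem g_wQ_26_wN_1_rb8033094a_d43_d53_d41_d39_d43_d3409 : GoodKC AS c_wQ_26_wN_1_rb8033094a_d43_d53_d41_d39_d43_d3409 := p_wQ_26_wN_1_rb8033094a_d43_d53_d41_d39_d43_d3409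

theorem g_wQ_26_wN_1_rb8033094a_d43_d53_d41_d39_d43_d340d : GoodKC AS c_wQ_26_wN_1_rb8033094a_d43_d53_d41_d39_d43_d340d := p_wQ_26_wN_1_rb8033094a_d43_d53_d41_d39_d43_d340d

theorem g_wQ_26_wN_1_rb8033094a_d43_d53_d41_d39_d43_d340e : GoodKC AS c_wQ_26_wN_1_rb8033094a_d43_d53_d41_d39_d43_d340e := p_wQ_26_wN_1_rb8033094a_d43_d53_d41_d39_d43_d340e

theorem g__wQ_26_wN_1_rb8033094a_d43_d53_d41_d39_d43_d34_7 : GoodKC AS k_wQ_26_wN_1_rb8033094a_d43_d53_d41_d39_d43_d34_7 := p_wQ_26_wN_1_rb8033094a_d43_d53_d41_d39_d43_d34_7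

theorem g__wQ_26_wN_1_rb8033094a_d43_d53_d41_d39_d43_d34_6 : GoodKC AS k_wQ_26_wN_1_rb8033094a_d43_d53_d41_d39_d43_d34_6 := p_wQ_26_wN_1_rb8033094a_d43_d53_d41_d39_d43_d34_6 g__wQ_26_wN_1_rb8033094a_d43_d53_d41_d39_d43_d34_7

theorem g__wQ_26_wN_1_rb8033094a_d43_d53_d41_d39_d43_d34_5 : GoodKC AS k_wQ_26_wN_1_rb8033094a_d43_d53_d41_d39_d43_d34_5 := p_wQ_26_wN_1_rb8033094a_d43_d53_d41_d39_d43_d34_5 g__wQ_26_wN_1_rb8033094a_d43_d53_d41_d39_d43_d34_6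

theorem g__wQ_26_wN_1_rb8033094a_d43_d53_d41_d39_d43_d34_9 : GoodKC AS k_wQ_26_wN_1_rb8033094a_d43_d53_d41_d39_d43_d34_9 := p_wQ_26_wN_1_rb8033094a_d43_d53_d41_d39_d43_d34_9

theorem g__wQ_26_wN_1_rb8033094a_d43_d53_d41_d39_d43_d34_8 : GoodKC AS k_wQ_26_wN_1_rb8033094a_d43_d53_d41_d39_d43_d34_8 := p_wQ_26_wN_1_rb8033094a_d43_d53_d41_d39_d43_d34_8 g__wQ_26_wN_1_rb8033094a_d43_d53_d41_d39_d43_d34_9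

theorem g__wQ_26_wN_1_rb8033094a_d43_d53_d41_d39_d43_d34_4 : GoodKC AS k_wQ_26_wN_1_rb8033094a_d43_d53_d41_d39_d43_d34_4 := p_wQ_26_wN_1_rb8033094a_d43_d53_d41_d39_d43_d34_4 g__wQ_26_wN_1_rb8033094a_d43_d53_d41_d39_d43_d34_5 g__wQ_26_wN_1_rb8033094a_d43_d53_d41_d39_d43_d34_8

theorem g__wQ_26_wN_1_rb8033094a_d43_d53_d41_d39_d43_d34_11 : GoodKC AS k_wQ_26_wN_1_rb8033094a_d43_d53_d41_d39_d43_d34_11 := p_wQ_26_wN_1_rb8033094a_d43_d53_d41_d39_d43_d34_11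

theorem g__wQ_26_wN_1_rb8033094a_d43_d53_d41_d39_d43_d34_10 : GoodKC AS k_wQ_26_wN_1_rb8033094a_d43_d53_d41_d39_d43_d34_10 := p_wQ_26_wN_1_rb8033094a_d43_d53_d41_d39_d43_d34_10 g__wQ_26_wN_1_rb8033094a_d43_d53_d41_d39_d43_d34_11

theorem g__wQ_26_wN_1_rb8033094a_d43_d53_d41_d39_d43_d34_18 : GoodKC AS k_wQ_26_wN_1_rb8033094a_d43_d53_d41_d39_d43_d34_18 := p_wQ_26_wN_1_rb8033094a_d43_d53_d41_d39_d43_d34_18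

theorem g__wQ_26_wN_1_rb8033094a_d43_d53_d41_d39_d43_d34_17 : GoodKC AS k_wQ_26_wN_1_rb8033094a_d43_d53_d41_d39_d43_d34_17 := p_wQ_26_wN_1_rb8033094a_d43_d53_d41_d39_d43_d34_17 g__wQ_26_wN_1_rb8033094a_d43_d53_d41_d39_d43_d34_18

theorem g__wQ_26_wN_1_rb8033094a_d43_d53_d41_d39_d43_d34_16 : GoodKC AS k_wQ_26_wN_1_rb8033094a_d43_d53_d41_d39_d43_d34_16 := p_wQ_26_wN_1_rb8033094a_d43_d53_d41_d39_d43_d34_16 g__wQ_26_wN_1_rb8033094a_d43_d53_d41_d39_d43_d34_17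

theorem g__wQ_26_wN_1_rb8033094a_d43_d53_d41_d39_d43_d34_15 : GoodKC AS k_wQ_26_wN_1_rb8033094a_d43_d53_d41_d39_d43_d34_15 := p_wQ_26_wN_1_rb8033094a_d43_d53_d41_d39_d43_d34_15 g__wQ_26_wN_1_rb8033094a_d43_d53_d41_d39_d43_d34_16

theorem g__wQ_26_wN_1_rb8033094a_d43_d53_d41_d39_d43_d34_14 : GoodKC AS k_wQ_26_wN_1_rb8033094a_d43_d53_d41_d39_d43_d34_14 := p_wQ_26_wN_1_rb8033094a_d43_d53_d41_d39_d43_d34_14 g__wQ_26_wN_1_rb8033094a_d43_d53_d41_d39_d43_d34_15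

theorem g__wQ_26_wN_1_rb8033094a_d43_d53_d41_d39_d43_d34_13 : GoodKC AS k_wQ_26_wN_1_rb8033094a_d43_d53_d41_d39_d43_d34_13 := p_wQ_26_wN_1_rb8033094a_d43_d53_d41_d39_d43_d34_13 g__wQ_26_wN_1_rb8033094a_d43_d53_d41_d39_d43_d34_14

theorem g__wQ_26_wN_1_rb8033094a_d43_d53_d41_d39_d43_d34_12 : GoodKC AS k_wQ_26_wN_1_rb8033094a_d43_d53_d41_d39_d43_d34_12 := p_wQ_26_wN_1_rb8033094a_d43_d53_d41_d39_d43_d34_12 g__wQ_26_wN_1_rb8033094a_d43_d53_d41_d39_d43_d34_13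

theorem g__wQ_26_wN_1_rb8033094a_d43_d53_d41_d39_d43_d34_22 : GoodKC AS k_wQ_26_wN_1_rb8033094a_d43_d53_d41_d39_d43_d34_22 := p_wQ_26_wN_1_rb8033094a_d43_d53_d41_d39_d43_d34_22

theorem g__wQ_26_wN_1_rb8033094a_d43_d53_d41_d39_d43_d34_21 : GoodKC AS k_wQ_26_wN_1_rb8033094a_d43_d53_d41_d39_d43_d34_21 := p_wQ_26_wN_1_rb8033094a_d43_d53_d41_d39_d43_d34_21 g__wQ_26_wN_1_rb8033094a_d43_d53_d41_d39_d43_d34_22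

theorem g__wQ_26_wN_1_rb8033094a_d43_d53_d41_d39_d43_d34_23 : GoodKC AS k_wQ_26_wN_1_rb8033094a_d43_d53_d41_d39_d43_d34_23 := p_wQ_26_wN_1_rb8033094a_d43_d53_d41_d39_d43_d34_23

theorem g__wQ_26_wN_1_rb8033094a_d43_d53_d41_d39_d43_d34_20 : GoodKC AS k_wQ_26_wN_1_rb8033094a_d43_d53_d41_d39_d43_d34_20 := p_wQ_26_wN_1_rb8033094a_d43_d53_d41_d39_d43_d34_20 g__wQ_26_wN_1_rb8033094a_d43_d53_d41_d39_d43_d34_21 g__wQ_26_wN_1_rb8033094a_d43_d53_d41_d39_d43_d34_23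

theorem g__wQ_26_wN_1_rb8033094a_d43_d53_d41_d39_d43_d34_24 : GoodKC AS k_wQ_26_wN_1_rb8033094a_d43_d53_d41_d39_d43_d34_24 := p_wQ_26_wN_1_rb8033094a_d43_d53_d41_d39_d43_d34_24

theorem g__wQ_26_wN_1_rb8033094a_d43_d53_d41_d39_d43_d34_19 : GoodKC AS k_wQ_26_wN_1_rb8033094a_d43_d53_d41_d39_d43_d34_19 := p_wQ_26_wN_1_rb8033094a_d43_d53_d41_d39_d43_d34_19 g__wQ_26_wN_1_rb8033094a_d43_d53_d41_d39_d43_d34_20 g__wQ_26_wN_1_rb8033094a_d43_d53_d41_d39_d43_d34_24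

theorem g__wQ_26_wN_1_rb8033094a_d43_d53_d41_d39_d43_d34_3 : GoodKC AS k_wQ_26_wN_1_rb8033094a_d43_d53_d41_d39_d43_d34_3 := p_wQ_26_wN_1_rb8033094a_d43_d53_d41_d39_d43_d34_3 g__wQ_26_wN_1_rb8033094a_d43_d53_d41_d39_d43_d34_4 g__wQ_26_wN_1_rb8033094a_d43_d53_d41_d39_d43_d34_10 g__wQ_26_wN_1_rb8033094a_d43_d53_d41_d39_d43_d34_12 g__wQ_26_wN_1_rb8033094a_d43_d53_d41_d39_d43_d34_19

theorem g_wQ_26_wN_1_rb8033094a_d43_d53_d41_d39_d43_d3416 : GoodKC AS c_wQ_26_wN_1_rb8033094a_d43_d53_d41_d39_d43_d3416 := p_wQ_26_wN_1_rb8033094a_d43_d53_d41_d39_d43_d3416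

theorem g_wQ_26_wN_1_rb8033094a_d43_d53_d41_d39_d43_d341a : GoodKC AS c_wQ_26_wN_1_rb8033094a_d43_d53_d41_d39_d43_d341a := p_wQ_26_wN_1_rb8033094a_d43_d53_d41_d39_d43_d341a

theorem g__wQ_26_wN_1_rb8033094a_d43_d53_d41_d39_d43_d341bv1_0 : GoodKC AS k_wQ_26_wN_1_rb8033094a_d43_d53_d41_d39_d43_d341bv1_0 := p_wQ_26_wN_1_rb8033094a_d43_d53_d41_d39_d43_d341bv1_0

theorem g_wQ_26_wN_1_rb8033094a_d43_d53_d41_d39_d43_d341b : GoodKC AS c_wQ_26_wN_1_rb8033094a_d43_d53_d41_d39_d43_d341b := p_wQ_26_wN_1_rb8033094a_d43_d53_d41_d39_d43_d341bv1 g__wQ_26_wN_1_rb8033094a_d43_d53_d41_d39_d43_d341bv1_0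

theorem g_wQ_26_wN_1_rb8033094a_d43_d53_d41_d39_d43_d341d : GoodKC AS c_wQ_26_wN_1_rb8033094a_d43_d53_d41_d39_d43_d341d := p_wQ_26_wN_1_rb8033094a_d43_d53_d41_d39_d43_d341d

theorem g__wQ_26_wN_1_rb8033094a_d43_d53_d41_d39_d43_d341f_2 : GoodKC AS k_wQ_26_wN_1_rb8033094a_d43_d53_d41_d39_d43_d341f_2 := p_wQ_26_wN_1_rb8033094a_d43_d53_d41_d39_d43_d341f_2

theorem g__wQ_26_wN_1_rb8033094a_d43_d53_d41_d39_d43_d341f_4 : GoodKC AS k_wQ_26_wN_1_rb8033094a_d43_d53_d41_d39_d43_d341f_4 := p_wQ_26_wN_1_rb8033094a_d43_d53_d41_d39_d43_d341f_4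

theorem g__wQ_26_wN_1_rb8033094a_d43_d53_d41_d39_d43_d341f_6 : GoodKC AS k_wQ_26_wN_1_rb8033094a_d43_d53_d41_d39_d43_d341f_6 := p_wQ_26_wN_1_rb8033094a_d43_d53_d41_d39_d43_d341f_6

theorem g__wQ_26_wN_1_rb8033094a_d43_d53_d41_d39_d43_d341f_7 : GoodKC AS k_wQ_26_wN_1_rb8033094a_d43_d53_d41_d39_d43_d341f_7 := p_wQ_26_wN_1_rb8033094a_d43_d53_d41_d39_d43_d341f_7

theorem g__wQ_26_wN_1_rb8033094a_d43_d53_d41_d39_d43_d341f_8 : GoodKC AS k_wQ_26_wN_1_rb8033094a_d43_d53_d41_d39_d43_d341f_8 := p_wQ_26_wN_1_rb8033094a_d43_d53_d41_d39_d43_d341f_8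

theorem g__wQ_26_wN_1_rb8033094a_d43_d53_d41_d39_d43_d341f_5 : GoodKC AS k_wQ_26_wN_1_rb8033094a_d43_d53_d41_d39_d43_d341f_5 := p_wQ_26_wN_1_rb8033094a_d43_d53_d41_d39_d43_d341f_5 g__wQ_26_wN_1_rb8033094a_d43_d53_d41_d39_d43_d341f_6 g__wQ_26_wN_1_rb8033094a_d43_d53_d41_d39_d43_d341f_7 g__wQ_26_wN_1_rb8033094a_d43_d53_d41_d39_d43_d341f_8

theorem g__wQ_26_wN_1_rb8033094a_d43_d53_d41_d39_d43_d341f_3 : GoodKC AS k_wQ_26_wN_1_rb8033094a_d43_d53_d41_d39_d43_d341f_3 := p_wQ_26_wN_1_rb8033094a_d43_d53_d41_d39_d43_d341f_3 g__wQ_26_wN_1_rb8033094a_d43_d53_d41_d39_d43_d341f_4 g__wQ_26_wN_1_rb8033094a_d43_d53_d41_d39_d43_d341f_5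

theorem g__wQ_26_wN_1_rb8033094a_d43_d53_d41_d39_d43_d341f_9 : GoodKC AS k_wQ_26_wN_1_rb8033094a_d43_d53_d41_d39_d43_d341f_9 := p_wQ_26_wN_1_rb8033094a_d43_d53_d41_d39_d43_d341f_9

theorem g__wQ_26_wN_1_rb8033094a_d43_d53_d41_d39_d43_d341f_1 : GoodKC AS k_wQ_26_wN_1_rb8033094a_d43_d53_d41_d39_d43_d341f_1 := p_wQ_26_wN_1_rb8033094a_d43_d53_d41_d39_d43_d341f_1 g__wQ_26_wN_1_rb8033094a_d43_d53_d41_d39_d43_d341f_2 g__wQ_26_wN_1_rb8033094a_d43_d53_d41_d39_d43_d341f_3 g__wQ_26_wN_1_rb8033094a_d43_d53_d41_d39_d43_d341f_9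

theorem g__wQ_26_wN_1_rb8033094a_d43_d53_d41_d39_d43_d341f_11 : GoodKC AS k_wQ_26_wN_1_rb8033094a_d43_d53_d41_d39_d43_d341f_11 := p_wQ_26_wN_1_rb8033094a_d43_d53_d41_d39_d43_d341f_11

theorem g__wQ_26_wN_1_rb8033094a_d43_d53_d41_d39_d43_d341f_10 : GoodKC AS k_wQ_26_wN_1_rb8033094a_d43_d53_d41_d39_d43_d341f_10 := p_wQ_26_wN_1_rb8033094a_d43_d53_d41_d39_d43_d341f_10 g__wQ_26_wN_1_rb8033094a_d43_d53_d41_d39_d43_d341f_11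

theorem g__wQ_26_wN_1_rb8033094a_d43_d53_d41_d39_d43_d341f_0 : GoodKC AS k_wQ_26_wN_1_rb8033094a_d43_d53_d41_d39_d43_d341f_0 := p_wQ_26_wN_1_rb8033094a_d43_d53_d41_d39_d43_d341f_0 g__wQ_26_wN_1_rb8033094a_d43_d53_d41_d39_d43_d341f_1 g__wQ_26_wN_1_rb8033094a_d43_d53_d41_d39_d43_d341f_10

theorem g_wQ_26_wN_1_rb8033094a_d43_d53_d41_d39_d43_d341f : GoodKC AS c_wQ_26_wN_1_rb8033094a_d43_d53_d41_d39_d43_d341f := p_wQ_26_wN_1_rb8033094a_d43_d53_d41_d39_d43_d341f g__wQ_26_wN_1_rb8033094a_d43_d53_d41_d39_d43_d341f_0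

theorem g_wQ_26_wN_1_rb8033094a_d43_d53_d41_d39_d43_d3421 : GoodKC AS c_wQ_26_wN_1_rb8033094a_d43_d53_d41_d39_d43_d3421 := p_wQ_26_wN_1_rb8033094a_d43_d53_d41_d39_d43_d3421

theorem g_wQ_26_wN_1_rb8033094a_d43_d53_d41_d39_d43_d3422 : GoodKC AS c_wQ_26_wN_1_rb8033094a_d43_d53_d41_d39_d43_d3422 := p_wQ_26_wN_1_rb8033094a_d43_d53_d41_d39_d43_d3422

theorem g_wQ_26_wN_1_rb8033094a_d43_d53_d41_d39_d43_d34x2 : GoodKC AS c_wQ_26_wN_1_rb8033094a_d43_d53_d41_d39_d43_d34x2 := p_wQ_26_wN_1_rb8033094a_d43_d53_d41_d39_d43_d34 g_wQ_26_wN_1_rb8033094a_d43_d53_d41_d39_d43_d3420 g_wQ_26_wN_1_rb8033094a_d43_d53_d41_d39_d43_d341e g_wQ_26_wN_1_rb8033094a_d43_d53_d41_d39_d43_d341c g_wQ_26_wN_1_rb8033094a_d43_d53_d41_d39_d43_d3419 g_wQ_26_wN_1_rb8033094a_d43_d53_d41_d39_d43_d3418 g_wQ_26_wN_1_rb8033094a_d43_d53_d41_d39_d43_d3417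 g_wQ_26_wN_1_rb8033094a_d43_d53_d41_d39_d43_d3415 g_wQ_26_wN_1_rb8033094a_d43_d53_d41_d39_d43_d3414 g_wQ_26_wN_1_rb8033094a_d43_d53_d41_d39_d43_d3413 g_wQ_26_wN_1_rb8033094a_d43_d53_d41_d39_d43_d3412 g_wQ_26_wN_1_rb8033094a_d43_d53_d41_d39_d43_d3411 g_wQ_26_wN_1_rb8033094a_d43_d53_d41_d39_d43_d3410 g_wQ_26_wN_1_rb8033094a_d43_d53_d41_d39_d43_d340f g__wQ_26_wN_1_rb8033094a_d43_d53_d41_d39_d43_d34_0 g_wQ_26_wN_1_rb8033094a_d43_d53_d41_d39_d43_d340c g_wQ_26_wN_1_rb8033094a_d43_d53_d41_d39_d43_d340b g_wQ_26_wN_1_rb8033094a_d43_d53_d41_d39_d43_d340a g_wQ_26_wN_1_rb8033094a_d43_d53_d41_d39_d43_d3406 g_wQ_26_wN_1_rb8033094a_d43_d53_d41_d39_d43_d3404 g_wQ_26_wN_1_rb8033094a_d43_d53_d41_d39_d43_d3401 g_wQ_26_wN_1_rb8033094a_d43_d53_d41_d39_d43_d3400 g_wQ_26_wN_1_rb8033094a_d43_d53_d41_d39_d43_d3402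 g_wQ_26_wN_1_rb8033094a_d43_d53_d41_d39_d43_d3403 g_wQ_26_wN_1_rb8033094a_d43_d53_d41_d39_d43_d3405 g_wQ_26_wN_1_rb8033094a_d43_d53_d41_d39_d43_d3407 g_wQ_26_wN_1_rb8033094a_d43_d53_d41_d39_d43_d3408 g_wQ_26_wN_1_rb8033094a_d43_d53_d41_d39_d43_d3409 g_wQ_26_wN_1_rb8033094a_d43_d53_d41_d39_d43_d340d g_wQ_26_wN_1_rb8033094a_d43_d53_d41_d39_d43_d340e g__wQ_26_wN_1_rb8033094a_d43_d53_d41_d39_d43_d34_3 g_wQ_26_wN_1_rb8033094a_d43_d53_d41_d39_d43_d3416 g_wQ_26_wN_1_rb8033094a_d43_d53_d41_d39_d43_d341a g_wQ_26_wN_1_rb8033094a_d43_d53_d41_d39_d43_d341b g_wQ_26_wN_1_rb8033094a_d43_d53_d41_d39_d43_d341d g_wQ_26_wN_1_rb8033094a_d43_d53_d41_d39_d43_d341f g_wQ_26_wN_1_rb8033094a_d43_d53_d41_d39_d43_d3421 g_wQ_26_wN_1_rb8033094a_d43_d53_d41_d39_d43_d3422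

theorem g__wQ_26_wN_1_rb8033094a_d43_d53_d41_d39_d43_d35_1 : GoodKC AS k_wQ_26_wN_1_rb8033094a_d43_d53_d41_d39_d43_d35_1 := p_wQ_26_wN_1_rb8033094a_d43_d53_d41_d39_d43_d35_1

theorem g__wQ_26_wN_1_rb8033094a_d43_d53_d41_d39_d43_d35_0 : GoodKC AS k_wQ_26_wN_1_rb8033094a_d43_d53_d41_d39_d43_d35_0 := p_wQ_26_wN_1_rb8033094a_d43_d53_d41_d39_d43_d35_0 g__wQ_26_wN_1_rb8033094a_d43_d53_d41_d39_d43_d35_1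

theorem g__wQ_26_wN_1_rb8033094a_d43_d53_d41_d39_d43_d35_3 : GoodKC AS k_wQ_26_wN_1_rb8033094a_d43_d53_d41_d39_d43_d35_3 := p_wQ_26_wN_1_rb8033094a_d43_d53_d41_d39_d43_d35_3

theorem g__wQ_26_wN_1_rb8033094a_d43_d53_d41_d39_d43_d35_2 : GoodKC AS k_wQ_26_wN_1_rb8033094a_d43_d53_d41_d39_d43_d35_2 := p_wQ_26_wN_1_rb8033094a_d43_d53_d41_d39_d43_d35_2 g__wQ_26_wN_1_rb8033094a_d43_d53_d41_d39_d43_d35_3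

theorem g__wQ_26_wN_1_rb8033094a_d43_d53_d41_d39_d43_d35_4 : GoodKC AS k_wQ_26_wN_1_rb8033094a_d43_d53_d41_d39_d43_d35_4 := p_wQ_26_wN_1_rb8033094a_d43_d53_d41_d39_d43_d35_4

theorem g_wQ_26_wN_1_rb8033094a_d43_d53_d41_d39_d43_d35x2 : GoodKC AS c_wQ_26_wN_1_rb8033094a_d43_d53_d41_d39_d43_d35x2 := p_wQ_26_wN_1_rb8033094a_d43_d53_d41_d39_d43_d35 g__wQ_26_wN_1_rb8033094a_d43_d53_d41_d39_d43_d35_0 g__wQ_26_wN_1_rb8033094a_d43_d53_d41_d39_d43_d35_2 g__wQ_26_wN_1_rb8033094a_d43_d53_d41_d39_d43_d35_4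

theorem g_wQ_26_wN_1_rb8033094a_d43_d53_d41_d39_d43_d37x2 : GoodKC AS c_wQ_26_wN_1_rb8033094a_d43_d53_d41_d39_d43_d37x2 := p_wQ_26_wN_1_rb8033094a_d43_d53_d41_d39_d43_d37

theorem g__wQ_26_wN_1_rb8033094a_d43_d53_d41_d39_d43_d3a_0 : GoodKC AS k_wQ_26_wN_1_rb8033094a_d43_d53_d41_d39_d43_d3a_0 := p_wQ_26_wN_1_rb8033094a_d43_d53_d41_d39_d43_d3a_0

theorem g_wQ_26_wN_1_rb8033094a_d43_d53_d41_d39_d43_d3ax2 : GoodKC AS c_wQ_26_wN_1_rb8033094a_d43_d53_d41_d39_d43_d3ax2 := p_wQ_26_wN_1_rb8033094a_d43_d53_d41_d39_d43_d3a g__wQ_26_wN_1_rb8033094a_d43_d53_d41_d39_d43_d3a_0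

theorem g__wQ_26_wN_1_rb8033094a_d43_d53_d41_d39_d43_d3d_1 : GoodKC AS k_wQ_26_wN_1_rb8033094a_d43_d53_d41_d39_d43_d3d_1 := p_wQ_26_wN_1_rb8033094a_d43_d53_d41_d39_d43_d3d_1

theorem g__wQ_26_wN_1_rb8033094a_d43_d53_d41_d39_d43_d3d_7 : GoodKC AS k_wQ_26_wN_1_rb8033094a_d43_d53_d41_d39_d43_d3d_7 := p_wQ_26_wN_1_rb8033094a_d43_d53_d41_d39_d43_d3d_7

theorem g__wQ_26_wN_1_rb8033094a_d43_d53_d41_d39_d43_d3d_6 : GoodKC AS k_wQ_26_wN_1_rb8033094a_d43_d53_d41_d39_d43_d3d_6 := p_wQ_26_wN_1_rb8033094a_d43_d53_d41_d39_d43_d3d_6 g__wQ_26_wN_1_rb8033094a_d43_d53_d41_d39_d43_d3d_7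

theorem g__wQ_26_wN_1_rb8033094a_d43_d53_d41_d39_d43_d3d_8 : GoodKC AS k_wQ_26_wN_1_rb8033094a_d43_d53_d41_d39_d43_d3d_8 := p_wQ_26_wN_1_rb8033094a_d43_d53_d41_d39_d43_d3d_8

theorem g__wQ_26_wN_1_rb8033094a_d43_d53_d41_d39_d43_d3d_5 : GoodKC AS k_wQ_26_wN_1_rb8033094a_d43_d53_d41_d39_d43_d3d_5 := p_wQ_26_wN_1_rb8033094a_d43_d53_d41_d39_d43_d3d_5 g__wQ_26_wN_1_rb8033094a_d43_d53_d41_d39_d43_d3d_6 g__wQ_26_wN_1_rb8033094a_d43_d53_d41_d39_d43_d3d_8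

theorem g__wQ_26_wN_1_rb8033094a_d43_d53_d41_d39_d43_d3d_4 : GoodKC AS k_wQ_26_wN_1_rb8033094a_d43_d53_d41_d39_d43_d3d_4 := p_wQ_26_wN_1_rb8033094a_d43_d53_d41_d39_d43_d3d_4 g__wQ_26_wN_1_rb8033094a_d43_d53_d41_d39_d43_d3d_5

theorem g__wQ_26_wN_1_rb8033094a_d43_d53_d41_d39_d43_d3d_3 : GoodKC AS k_wQ_26_wN_1_rb8033094a_d43_d53_d41_d39_d43_d3d_3 := p_wQ_26_wN_1_rb8033094a_d43_d53_d41_d39_d43_d3d_3 g__wQ_26_wN_1_rb8033094a_d43_d53_d41_d39_d43_d3d_4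

theorem g__wQ_26_wN_1_rb8033094a_d43_d53_d41_d39_d43_d3d_2 : GoodKC AS k_wQ_26_wN_1_rb8033094a_d43_d53_d41_d39_d43_d3d_2 := p_wQ_26_wN_1_rb8033094a_d43_d53_d41_d39_d43_d3d_2 g__wQ_26_wN_1_rb8033094a_d43_d53_d41_d39_d43_d3d_3

theorem g__wQ_26_wN_1_rb8033094a_d43_d53_d41_d39_d43_d3d_9 : GoodKC AS k_wQ_26_wN_1_rb8033094a_d43_d53_d41_d39_d43_d3d_9 := p_wQ_26_wN_1_rb8033094a_d43_d53_d41_d39_d43_d3d_9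

theorem g__wQ_26_wN_1_rb8033094a_d43_d53_d41_d39_d43_d3d_10 : GoodKC AS k_wQ_26_wN_1_rb8033094a_d43_d53_d41_d39_d43_d3d_10 := p_wQ_26_wN_1_rb8033094a_d43_d53_d41_d39_d43_d3d_10

theorem g__wQ_26_wN_1_rb8033094a_d43_d53_d41_d39_d43_d3d_0 : GoodKC AS k_wQ_26_wN_1_rb8033094a_d43_d53_d41_d39_d43_d3d_0 := p_wQ_26_wN_1_rb8033094a_d43_d53_d41_d39_d43_d3d_0 g__wQ_26_wN_1_rb8033094a_d43_d53_d41_d39_d43_d3d_1 g__wQ_26_wN_1_rb8033094a_d43_d53_d41_d39_d43_d3d_2 g__wQ_26_wN_1_rb8033094a_d43_d53_d41_d39_d43_d3d_9 g__wQ_26_wN_1_rb8033094a_d43_d53_d41_d39_d43_d3d_10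

theorem g__wQ_26_wN_1_rb8033094a_d43_d53_d41_d39_d43_d3d_11 : GoodKC AS k_wQ_26_wN_1_rb8033094a_d43_d53_d41_d39_d43_d3d_11 := p_wQ_26_wN_1_rb8033094a_d43_d53_d41_d39_d43_d3d_11

theorem g_wQ_26_wN_1_rb8033094a_d43_d53_d41_d39_d43_d3dx2 : GoodKC AS c_wQ_26_wN_1_rb8033094a_d43_d53_d41_d39_d43_d3dx2 := p_wQ_26_wN_1_rb8033094a_d43_d53_d41_d39_d43_d3d g__wQ_26_wN_1_rb8033094a_d43_d53_d41_d39_d43_d3d_0 g__wQ_26_wN_1_rb8033094a_d43_d53_d41_d39_d43_d3d_11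

theorem g_wQ_26_wN_1_rb8033094a_d43_d53_d41_d39_d43_d3ex2 : GoodKC AS c_wQ_26_wN_1_rb8033094a_d43_d53_d41_d39_d43_d3ex2 := p_wQ_26_wN_1_rb8033094a_d43_d53_d41_d39_d43_d3e

theorem g_wQ_26_wN_1_rb8033094a_d43_d53_d41_d39_d43_d43x2 : GoodKC AS c_wQ_26_wN_1_rb8033094a_d43_d53_d41_d39_d43_d43x2 := p_wQ_26_wN_1_rb8033094a_d43_d53_d41_d39_d43_d43

theorem g__wQ_26_wN_1_rb8033094a_d43_d53_d41_d39_d43_d49_1 : GoodKC AS k_wQ_26_wN_1_rb8033094a_d43_d53_d41_d39_d43_d49_1 := p_wQ_26_wN_1_rb8033094a_d43_d53_d41_d39_d43_d49_1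

theorem g__wQ_26_wN_1_rb8033094a_d43_d53_d41_d39_d43_d49_0 : GoodKC AS k_wQ_26_wN_1_rb8033094a_d43_d53_d41_d39_d43_d49_0 := p_wQ_26_wN_1_rb8033094a_d43_d53_d41_d39_d43_d49_0 g__wQ_26_wN_1_rb8033094a_d43_d53_d41_d39_d43_d49_1

theorem g_wQ_26_wN_1_rb8033094a_d43_d53_d41_d39_d43_d49x2 : GoodKC AS c_wQ_26_wN_1_rb8033094a_d43_d53_d41_d39_d43_d49x2 := p_wQ_26_wN_1_rb8033094a_d43_d53_d41_d39_d43_d49 g__wQ_26_wN_1_rb8033094a_d43_d53_d41_d39_d43_d49_0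

theorem g_wQ_26_wN_1_rb8033094a_d43_d53_d41_d39_d43_d4cx2 : GoodKC AS c_wQ_26_wN_1_rb8033094a_d43_d53_d41_d39_d43_d4cx2 := p_wQ_26_wN_1_rb8033094a_d43_d53_d41_d39_d43_d4c

theorem g_wQ_26_wN_1_rb8033094a_d43_d53_d41_d39_d43_d4d_d42_d3dv1 : GoodKC AS c_wQ_26_wN_1_rb8033094a_d43_d53_d41_d39_d43_d4d_d42_d3dv1 := p_wQ_26_wN_1_rb8033094a_d43_d53_d41_d39_d43_d4d_d42_d3d

theorem g_wQ_26_wN_1_rb8033094a_d43_d53_d41_d39_d43_d4d_d42_d39v1 : GoodKC AS c_wQ_26_wN_1_rb8033094a_d43_d53_d41_d39_d43_d4d_d42_d39v1 := p_wQ_26_wN_1_rb8033094a_d43_d53_d41_d39_d43_d4d_d42_d39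

theorem g__wQ_26_wN_1_rb8033094a_d43_d53_d41_d39_d43_d4d_d42_d38_1 : GoodKC AS k_wQ_26_wN_1_rb8033094a_d43_d53_d41_d39_d43_d4d_d42_d38_1 := p_wQ_26_wN_1_rb8033094a_d43_d53_d41_d39_d43_d4d_d42_d38_1

theorem g__wQ_26_wN_1_rb8033094a_d43_d53_d41_d39_d43_d4d_d42_d38_2 : GoodKC AS k_wQ_26_wN_1_rb8033094a_d43_d53_d41_d39_d43_d4d_d42_d38_2 := p_wQ_26_wN_1_rb8033094a_d43_d53_d41_d39_d43_d4d_d42_d38_2

theorem g__wQ_26_wN_1_rb8033094a_d43_d53_d41_d39_d43_d4d_d42_d38_0 : GoodKC AS k_wQ_26_wN_1_rb8033094a_d43_d53_d41_d39_d43_d4d_d42_d38_0 := p_wQ_26_wN_1_rb8033094a_d43_d53_d41_d39_d43_d4d_d42_d38_0 g__wQ_26_wN_1_rb8033094a_d43_d53_d41_d39_d43_d4d_d42_d38_1 g__wQ_26_wN_1_rb8033094a_d43_d53_d41_d39_d43_d4d_d42_d38_2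

theorem g_wQ_26_wN_1_rb8033094a_d43_d53_d41_d39_d43_d4d_d42_d38v1 : GoodKC AS c_wQ_26_wN_1_rb8033094a_d43_d53_d41_d39_d43_d4d_d42_d38v1 := p_wQ_26_wN_1_rb8033094a_d43_d53_d41_d39_d43_d4d_d42_d38 g__wQ_26_wN_1_rb8033094a_d43_d53_d41_d39_d43_d4d_d42_d38_0

theorem g__wQ_26_wN_1_rb8033094a_d43_d53_d41_d39_d43_d4d_d42_d37_3 : GoodKC AS k_wQ_26_wN_1_rb8033094a_d43_d53_d41_d39_d43_d4d_d42_d37_3 := p_wQ_26_wN_1_rb8033094a_d43_d53_d41_d39_d43_d4d_d42_d37_3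

theorem g__wQ_26_wN_1_rb8033094a_d43_d53_d41_d39_d43_d4d_d42_d37_2 : GoodKC AS k_wQ_26_wN_1_rb8033094a_d43_d53_d41_d39_d43_d4d_d42_d37_2 := p_wQ_26_wN_1_rb8033094a_d43_d53_d41_d39_d43_d4d_d42_d37_2 g__wQ_26_wN_1_rb8033094a_d43_d53_d41_d39_d43_d4d_d42_d37_3

theorem g__wQ_26_wN_1_rb8033094a_d43_d53_d41_d39_d43_d4d_d42_d37_1 : GoodKC AS k_wQ_26_wN_1_rb8033094a_d43_d53_d41_d39_d43_d4d_d42_d37_1 := p_wQ_26_wN_1_rb8033094a_d43_d53_d41_d39_d43_d4d_d42_d37_1 g__wQ_26_wN_1_rb8033094a_d43_d53_d41_d39_d43_d4d_d42_d37_2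

theorem g__wQ_26_wN_1_rb8033094a_d43_d53_d41_d39_d43_d4d_d42_d37_4 : GoodKC AS k_wQ_26_wN_1_rb8033094a_d43_d53_d41_d39_d43_d4d_d42_d37_4 := p_wQ_26_wN_1_rb8033094a_d43_d53_d41_d39_d43_d4d_d42_d37_4

theorem g__wQ_26_wN_1_rb8033094a_d43_d53_d41_d39_d43_d4d_d42_d37_0 : GoodKC AS k_wQ_26_wN_1_rb8033094a_d43_d53_d41_d39_d43_d4d_d42_d37_0 := p_wQ_26_wN_1_rb8033094a_d43_d53_d41_d39_d43_d4d_d42_d37_0 g__wQ_26_wN_1_rb8033094a_d43_d53_d41_d39_d43_d4d_d42_d37_1 g__wQ_26_wN_1_rb8033094a_d43_d53_d41_d39_d43_d4d_d42_d37_4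

theorem g_wQ_26_wN_1_rb8033094a_d43_d53_d41_d39_d43_d4d_d42_d37v1 : GoodKC AS c_wQ_26_wN_1_rb8033094a_d43_d53_d41_d39_d43_d4d_d42_d37v1 := p_wQ_26_wN_1_rb8033094a_d43_d53_d41_d39_d43_d4d_d42_d37 g__wQ_26_wN_1_rb8033094a_d43_d53_d41_d39_d43_d4d_d42_d37_0

theorem g_wQ_26_wN_1_rb8033094a_d43_d53_d41_d39_d43_d4d_d42_d35v1 : GoodKC AS c_wQ_26_wN_1_rb8033094a_d43_d53_d41_d39_d43_d4d_d42_d35v1 := p_wQ_26_wN_1_rb8033094a_d43_d53_d41_d39_d43_d4d_d42_d35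

theorem g_wQ_26_wN_1_rb8033094a_d43_d53_d41_d39_d43_d4d_d42_d34v1 : GoodKC AS c_wQ_26_wN_1_rb8033094a_d43_d53_d41_d39_d43_d4d_d42_d34v1 := p_wQ_26_wN_1_rb8033094a_d43_d53_d41_d39_d43_d4d_d42_d34

theorem g__wQ_26_wN_1_rb8033094a_d43_d53_d41_d39_d43_d4d_d42_d33v1_1 : GoodKC AS k_wQ_26_wN_1_rb8033094a_d43_d53_d41_d39_d43_d4d_d42_d33v1_1 := p_wQ_26_wN_1_rb8033094a_d43_d53_d41_d39_d43_d4d_d42_d33v1_1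

theorem g__wQ_26_wN_1_rb8033094a_d43_d53_d41_d39_d43_d4d_d42_d33v1_0 : GoodKC AS k_wQ_26_wN_1_rb8033094a_d43_d53_d41_d39_d43_d4d_d42_d33v1_0 := p_wQ_26_wN_1_rb8033094a_d43_d53_d41_d39_d43_d4d_d42_d33v1_0 g__wQ_26_wN_1_rb8033094a_d43_d53_d41_d39_d43_d4d_d42_d33v1_1

theorem g_wQ_26_wN_1_rb8033094a_d43_d53_d41_d39_d43_d4d_d42_d33v1 : GoodKC AS c_wQ_26_wN_1_rb8033094a_d43_d53_d41_d39_d43_d4d_d42_d33v1 := p_wQ_26_wN_1_rb8033094a_d43_d53_d41_d39_d43_d4d_d42_d33v1 g__wQ_26_wN_1_rb8033094a_d43_d53_d41_d39_d43_d4d_d42_d33v1_0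

theorem g_wQ_26_wN_1_rb8033094a_d43_d53_d41_d39_d43_d4d_d42_d32v1 : GoodKC AS c_wQ_26_wN_1_rb8033094a_d43_d53_d41_d39_d43_d4d_d42_d32v1 := p_wQ_26_wN_1_rb8033094a_d43_d53_d41_d39_d43_d4d_d42_d32

theorem g__wQ_26_wN_1_rb8033094a_d43_d53_d41_d39_d43_d4d_d42_d30_1 : GoodKC AS k_wQ_26_wN_1_rb8033094a_d43_d53_d41_d39_d43_d4d_d42_d30_1 := p_wQ_26_wN_1_rb8033094a_d43_d53_d41_d39_d43_d4d_d42_d30_1

theorem g__wQ_26_wN_1_rb8033094a_d43_d53_d41_d39_d43_d4d_d42_d30_0 : GoodKC AS k_wQ_26_wN_1_rb8033094a_d43_d53_d41_d39_d43_d4d_d42_d30_0 := p_wQ_26_wN_1_rb8033094a_d43_d53_d41_d39_d43_d4d_d42_d30_0 g__wQ_26_wN_1_rb8033094a_d43_d53_d41_d39_d43_d4d_d42_d30_1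

theorem g_wQ_26_wN_1_rb8033094a_d43_d53_d41_d39_d43_d4d_d42_d30v1 : GoodKC AS c_wQ_26_wN_1_rb8033094a_d43_d53_d41_d39_d43_d4d_d42_d30v1 := p_wQ_26_wN_1_rb8033094a_d43_d53_d41_d39_d43_d4d_d42_d30 g__wQ_26_wN_1_rb8033094a_d43_d53_d41_d39_d43_d4d_d42_d30_0

theorem g_wQ_26_wN_1_rb8033094a_d43_d53_d41_d39_d43_d4d_d42_d2fv1 : GoodKC AS c_wQ_26_wN_1_rb8033094a_d43_d53_d41_d39_d43_d4d_d42_d2fv1 := p_wQ_26_wN_1_rb8033094a_d43_d53_d41_d39_d43_d4d_d42_d2f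

theorem g_wQ_26_wN_1_rb8033094a_d43_d53_d41_d39_d43_d4d_d42_d2dv1 : GoodKC AS c_wQ_26_wN_1_rb8033094a_d43_d53_d41_d39_d43_d4d_d42_d2dv1 := p_wQ_26_wN_1_rb8033094a_d43_d53_d41_d39_d43_d4d_d42_d2d

theorem g_wQ_26_wN_1_rb8033094a_d43_d53_d41_d39_d43_d4d_d42_d29v1 : GoodKC AS c_wQ_26_wN_1_rb8033094a_d43_d53_d41_d39_d43_d4d_d42_d29v1 := p_wQ_26_wN_1_rb8033094a_d43_d53_d41_d39_d43_d4d_d42_d29

theorem g_wQ_26_wN_1_rb8033094a_d43_d53_d41_d39_d43_d4d_d42_d28v1 : GoodKC AS c_wQ_26_wN_1_rb8033094a_d43_d53_d41_d39_d43_d4d_d42_d28v1 := p_wQ_26_wN_1_rb8033094a_d43_d53_d41_d39_d43_d4d_d42_d28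

theorem g_wQ_26_wN_1_rb8033094a_d43_d53_d41_d39_d43_d4d_d42_d27v1 : GoodKC AS c_wQ_26_wN_1_rb8033094a_d43_d53_d41_d39_d43_d4d_d42_d27v1 := p_wQ_26_wN_1_rb8033094a_d43_d53_d41_d39_d43_d4d_d42_d27

theorem g_wQ_26_wN_1_rb8033094a_d43_d53_d41_d39_d43_d4d_d42_d26v1 : GoodKC AS c_wQ_26_wN_1_rb8033094a_d43_d53_d41_d39_d43_d4d_d42_d26v1 := p_wQ_26_wN_1_rb8033094a_d43_d53_d41_d39_d43_d4d_d42_d26

theorem g_wQ_26_wN_1_rb8033094a_d43_d53_d41_d39_d43_d4d_d42_d25v1 : GoodKC AS c_wQ_26_wN_1_rb8033094a_d43_d53_d41_d39_d43_d4d_d42_d25v1 := p_wQ_26_wN_1_rb8033094a_d43_d53_d41_d39_d43_d4d_d42_d25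

theorem g_wQ_26_wN_1_rb8033094a_d43_d53_d41_d39_d43_d4d_d42_d24v1 : GoodKC AS c_wQ_26_wN_1_rb8033094a_d43_d53_d41_d39_d43_d4d_d42_d24v1 := p_wQ_26_wN_1_rb8033094a_d43_d53_d41_d39_d43_d4d_d42_d24

theorem g_wQ_26_wN_1_rb8033094a_d43_d53_d41_d39_d43_d4d_d42_d21v1 : GoodKC AS c_wQ_26_wN_1_rb8033094a_d43_d53_d41_d39_d43_d4d_d42_d21v1 := p_wQ_26_wN_1_rb8033094a_d43_d53_d41_d39_d43_d4d_d42_d21

theorem g_wQ_26_wN_1_rb8033094a_d43_d53_d41_d39_d43_d4d_d42_d1fv1 : GoodKC AS c_wQ_26_wN_1_rb8033094a_d43_d53_d41_d39_d43_d4d_d42_d1fv1 := p_wQ_26_wN_1_rb8033094a_d43_d53_d41_d39_d43_d4d_d42_d1f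

theorem g_wQ_26_wN_1_rb8033094a_d43_d53_d41_d39_d43_d4d_d42_d1ev1 : GoodKC AS c_wQ_26_wN_1_rb8033094a_d43_d53_d41_d39_d43_d4d_d42_d1ev1 := p_wQ_26_wN_1_rb8033094a_d43_d53_d41_d39_d43_d4d_d42_d1e

theorem g__wQ_26_wN_1_rb8033094a_d43_d53_d41_d39_d43_d4d_d42_d1c_0 : GoodKC AS k_wQ_26_wN_1_rb8033094a_d43_d53_d41_d39_d43_d4d_d42_d1c_0 := p_wQ_26_wN_1_rb8033094a_d43_d53_d41_d39_d43_d4d_d42_d1c_0

theorem g_wQ_26_wN_1_rb8033094a_d43_d53_d41_d39_d43_d4d_d42_d1cv1 : GoodKC AS c_wQ_26_wN_1_rb8033094a_d43_d53_d41_d39_d43_d4d_d42_d1cv1 := p_wQ_26_wN_1_rb8033094a_d43_d53_d41_d39_d43_d4d_d42_d1c g__wQ_26_wN_1_rb8033094a_d43_d53_d41_d39_d43_d4d_d42_d1c_0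

theorem g__wQ_26_wN_1_rb8033094a_d43_d53_d41_d39_d43_d4d_d42_d1b_1 : GoodKC AS k_wQ_26_wN_1_rb8033094a_d43_d53_d41_d39_d43_d4d_d42_d1b_1 := p_wQ_26_wN_1_rb8033094a_d43_d53_d41_d39_d43_d4d_d42_d1b_1

theorem g__wQ_26_wN_1_rb8033094a_d43_d53_d41_d39_d43_d4d_d42_d1b_2 : GoodKC AS k_wQ_26_wN_1_rb8033094a_d43_d53_d41_d39_d43_d4d_d42_d1b_2 := p_wQ_26_wN_1_rb8033094a_d43_d53_d41_d39_d43_d4d_d42_d1b_2

theorem g__wQ_26_wN_1_rb8033094a_d43_d53_d41_d39_d43_d4d_d42_d1b_0 : GoodKC AS k_wQ_26_wN_1_rb8033094a_d43_d53_d41_d39_d43_d4d_d42_d1b_0 := p_wQ_26_wN_1_rb8033094a_d43_d53_d41_d39_d43_d4d_d42_d1b_0 g__wQ_26_wN_1_rb8033094a_d43_d53_d41_d39_d43_d4d_d42_d1b_1 g__wQ_26_wN_1_rb8033094a_d43_d53_d41_d39_d43_d4d_d42_d1b_2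

theorem g_wQ_26_wN_1_rb8033094a_d43_d53_d41_d39_d43_d4d_d42_d1bv1 : GoodKC AS c_wQ_26_wN_1_rb8033094a_d43_d53_d41_d39_d43_d4d_d42_d1bv1 := p_wQ_26_wN_1_rb8033094a_d43_d53_d41_d39_d43_d4d_d42_d1b g__wQ_26_wN_1_rb8033094a_d43_d53_d41_d39_d43_d4d_d42_d1b_0

theorem g_wQ_26_wN_1_rb8033094a_d43_d53_d41_d39_d43_d4d_d42_d16v1 : GoodKC AS c_wQ_26_wN_1_rb8033094a_d43_d53_d41_d39_d43_d4d_d42_d16v1 := p_wQ_26_wN_1_rb8033094a_d43_d53_d41_d39_d43_d4d_d42_d16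

theorem g_wQ_26_wN_1_rb8033094a_d43_d53_d41_d39_d43_d4d_d42_d14v1 : GoodKC AS c_wQ_26_wN_1_rb8033094a_d43_d53_d41_d39_d43_d4d_d42_d14v1 := p_wQ_26_wN_1_rb8033094a_d43_d53_d41_d39_d43_d4d_d42_d14

theorem g_wQ_26_wN_1_rb8033094a_d43_d53_d41_d39_d43_d4d_d42_d13v1 : GoodKC AS c_wQ_26_wN_1_rb8033094a_d43_d53_d41_d39_d43_d4d_d42_d13v1 := p_wQ_26_wN_1_rb8033094a_d43_d53_d41_d39_d43_d4d_d42_d13

theorem g_wQ_26_wN_1_rb8033094a_d43_d53_d41_d39_d43_d4d_d42_d11v1 : GoodKC AS c_wQ_26_wN_1_rb8033094a_d43_d53_d41_d39_d43_d4d_d42_d11v1 := p_wQ_26_wN_1_rb8033094a_d43_d53_d41_d39_d43_d4d_d42_d11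

theorem g_wQ_26_wN_1_rb8033094a_d43_d53_d41_d39_d43_d4d_d42_d10v1 : GoodKC AS c_wQ_26_wN_1_rb8033094a_d43_d53_d41_d39_d43_d4d_d42_d10v1 := p_wQ_26_wN_1_rb8033094a_d43_d53_d41_d39_d43_d4d_d42_d10

theorem g_wQ_26_wN_1_rb8033094a_d43_d53_d41_d39_d43_d4d_d42_d0ev1 : GoodKC AS c_wQ_26_wN_1_rb8033094a_d43_d53_d41_d39_d43_d4d_d42_d0ev1 := p_wQ_26_wN_1_rb8033094a_d43_d53_d41_d39_d43_d4d_d42_d0e

theorem g_wQ_26_wN_1_rb8033094a_d43_d53_d41_d39_d43_d4d_d42_d0bv1 : GoodKC AS c_wQ_26_wN_1_rb8033094a_d43_d53_d41_d39_d43_d4d_d42_d0bv1 := p_wQ_26_wN_1_rb8033094a_d43_d53_d41_d39_d43_d4d_d42_d0b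

theorem g_wQ_26_wN_1_rb8033094a_d43_d53_d41_d39_d43_d4d_d42_d0av1 : GoodKC AS c_wQ_26_wN_1_rb8033094a_d43_d53_d41_d39_d43_d4d_d42_d0av1 := p_wQ_26_wN_1_rb8033094a_d43_d53_d41_d39_d43_d4d_d42_d0a

theorem g_wQ_26_wN_1_rb8033094a_d43_d53_d41_d39_d43_d4d_d42_d09v1 : GoodKC AS c_wQ_26_wN_1_rb8033094a_d43_d53_d41_d39_d43_d4d_d42_d09v1 := p_wQ_26_wN_1_rb8033094a_d43_d53_d41_d39_d43_d4d_d42_d09

theorem g_wQ_26_wN_1_rb8033094a_d43_d53_d41_d39_d43_d4d_d42_d08v1 : GoodKC AS c_wQ_26_wN_1_rb8033094a_d43_d53_d41_d39_d43_d4d_d42_d08v1 := p_wQ_26_wN_1_rb8033094a_d43_d53_d41_d39_d43_d4d_d42_d08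

theorem g_wQ_26_wN_1_rb8033094a_d43_d53_d41_d39_d43_d4d_d42_d06v1 : GoodKC AS c_wQ_26_wN_1_rb8033094a_d43_d53_d41_d39_d43_d4d_d42_d06v1 := p_wQ_26_wN_1_rb8033094a_d43_d53_d41_d39_d43_d4d_d42_d06

theorem g_wQ_26_wN_1_rb8033094a_d43_d53_d41_d39_d43_d4d_d42_d05v1 : GoodKC AS c_wQ_26_wN_1_rb8033094a_d43_d53_d41_d39_d43_d4d_d42_d05v1 := p_wQ_26_wN_1_rb8033094a_d43_d53_d41_d39_d43_d4d_d42_d05

theorem g_wQ_26_wN_1_rb8033094a_d43_d53_d41_d39_d43_d4d_d42_d04v1 : GoodKC AS c_wQ_26_wN_1_rb8033094a_d43_d53_d41_d39_d43_d4d_d42_d04v1 := p_wQ_26_wN_1_rb8033094a_d43_d53_d41_d39_d43_d4d_d42_d04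

theorem g_wQ_26_wN_1_rb8033094a_d43_d53_d41_d39_d43_d4d_d42_d03v1 : GoodKC AS c_wQ_26_wN_1_rb8033094a_d43_d53_d41_d39_d43_d4d_d42_d03v1 := p_wQ_26_wN_1_rb8033094a_d43_d53_d41_d39_d43_d4d_d42_d03

theorem g_wQ_26_wN_1_rb8033094a_d43_d53_d41_d39_d43_d4d_d42_d01v1 : GoodKC AS c_wQ_26_wN_1_rb8033094a_d43_d53_d41_d39_d43_d4d_d42_d01v1 := p_wQ_26_wN_1_rb8033094a_d43_d53_d41_d39_d43_d4d_d42_d01

theorem g__wQ_26_wN_1_rb8033094a_d43_d53_d41_d39_d43_d4d_d42_d00_1 : GoodKC AS k_wQ_26_wN_1_rb8033094a_d43_d53_d41_d39_d43_d4d_d42_d00_1 := p_wQ_26_wN_1_rb8033094a_d43_d53_d41_d39_d43_d4d_d42_d00_1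

theorem g__wQ_26_wN_1_rb8033094a_d43_d53_d41_d39_d43_d4d_d42_d00_2 : GoodKC AS k_wQ_26_wN_1_rb8033094a_d43_d53_d41_d39_d43_d4d_d42_d00_2 := p_wQ_26_wN_1_rb8033094a_d43_d53_d41_d39_d43_d4d_d42_d00_2

theorem g__wQ_26_wN_1_rb8033094a_d43_d53_d41_d39_d43_d4d_d42_d00_7 : GoodKC AS k_wQ_26_wN_1_rb8033094a_d43_d53_d41_d39_d43_d4d_d42_d00_7 := p_wQ_26_wN_1_rb8033094a_d43_d53_d41_d39_d43_d4d_d42_d00_7

theorem g__wQ_26_wN_1_rb8033094a_d43_d53_d41_d39_d43_d4d_d42_d0001_0 : GoodKC AS k_wQ_26_wN_1_rb8033094a_d43_d53_d41_d39_d43_d4d_d42_d0001_0 := p_wQ_26_wN_1_rb8033094a_d43_d53_d41_d39_d43_d4d_d42_d0001_0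

theorem g__wQ_26_wN_1_rb8033094a_d43_d53_d41_d39_d43_d4d_d42_d0001_3 : GoodKC AS k_wQ_26_wN_1_rb8033094a_d43_d53_d41_d39_d43_d4d_d42_d0001_3 := p_wQ_26_wN_1_rb8033094a_d43_d53_d41_d39_d43_d4d_d42_d0001_3

theorem g__wQ_26_wN_1_rb8033094a_d43_d53_d41_d39_d43_d4d_d42_d0001_2 : GoodKC AS k_wQ_26_wN_1_rb8033094a_d43_d53_d41_d39_d43_d4d_d42_d0001_2 := p_wQ_26_wN_1_rb8033094a_d43_d53_d41_d39_d43_d4d_d42_d0001_2 g__wQ_26_wN_1_rb8033094a_d43_d53_d41_d39_d43_d4d_d42_d0001_3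

theorem g__wQ_26_wN_1_rb8033094a_d43_d53_d41_d39_d43_d4d_d42_d0001_4 : GoodKC AS k_wQ_26_wN_1_rb8033094a_d43_d53_d41_d39_d43_d4d_d42_d0001_4 := p_wQ_26_wN_1_rb8033094a_d43_d53_d41_d39_d43_d4d_d42_d0001_4

theorem g__wQ_26_wN_1_rb8033094a_d43_d53_d41_d39_d43_d4d_d42_d0001_1 : GoodKC AS k_wQ_26_wN_1_rb8033094a_d43_d53_d41_d39_d43_d4d_d42_d0001_1 := p_wQ_26_wN_1_rb8033094a_d43_d53_d41_d39_d43_d4d_d42_d0001_1 g__wQ_26_wN_1_rb8033094a_d43_d53_d41_d39_d43_d4d_d42_d0001_2 g__wQ_26_wN_1_rb8033094a_d43_d53_d41_d39_d43_d4d_d42_d0001_4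

theorem g_wQ_26_wN_1_rb8033094a_d43_d53_d41_d39_d43_d4d_d42_d0001 : GoodKC AS c_wQ_26_wN_1_rb8033094a_d43_d53_d41_d39_d43_d4d_d42_d0001 := p_wQ_26_wN_1_rb8033094a_d43_d53_d41_d39_d43_d4d_d42_d0001 g__wQ_26_wN_1_rb8033094a_d43_d53_d41_d39_d43_d4d_d42_d0001_0 g__wQ_26_wN_1_rb8033094a_d43_d53_d41_d39_d43_d4d_d42_d0001_1

theorem g__wQ_26_wN_1_rb8033094a_d43_d53_d41_d39_d43_d4d_d42_d0000_1 : GoodKC AS k_wQ_26_wN_1_rb8033094a_d43_d53_d41_d39_d43_d4d_d42_d0000_1 := p_wQ_26_wN_1_rb8033094a_d43_d53_d41_d39_d43_d4d_d42_d0000_1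

theorem g__wQ_26_wN_1_rb8033094a_d43_d53_d41_d39_d43_d4d_d42_d0000_0 : GoodKC AS k_wQ_26_wN_1_rb8033094a_d43_d53_d41_d39_d43_d4d_d42_d0000_0 := p_wQ_26_wN_1_rb8033094a_d43_d53_d41_d39_d43_d4d_d42_d0000_0 g__wQ_26_wN_1_rb8033094a_d43_d53_d41_d39_d43_d4d_d42_d0000_1

theorem g__wQ_26_wN_1_rb8033094a_d43_d53_d41_d39_d43_d4d_d42_d0000_2 : GoodKC AS k_wQ_26_wN_1_rb8033094a_d43_d53_d41_d39_d43_d4d_d42_d0000_2 := p_wQ_26_wN_1_rb8033094a_d43_d53_d41_d39_d43_d4d_d42_d0000_2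

theorem g__wQ_26_wN_1_rb8033094a_d43_d53_d41_d39_d43_d4d_d42_d0000_4 : GoodKC AS k_wQ_26_wN_1_rb8033094a_d43_d53_d41_d39_d43_d4d_d42_d0000_4 := p_wQ_26_wN_1_rb8033094a_d43_d53_d41_d39_d43_d4d_d42_d0000_4

theorem g__wQ_26_wN_1_rb8033094a_d43_d53_d41_d39_d43_d4d_d42_d0000_5 : GoodKC AS k_wQ_26_wN_1_rb8033094a_d43_d53_d41_d39_d43_d4d_d42_d0000_5 := p_wQ_26_wN_1_rb8033094a_d43_d53_d41_d39_d43_d4d_d42_d0000_5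

theorem g__wQ_26_wN_1_rb8033094a_d43_d53_d41_d39_d43_d4d_d42_d0000_3 : GoodKC AS k_wQ_26_wN_1_rb8033094a_d43_d53_d41_d39_d43_d4d_d42_d0000_3 := p_wQ_26_wN_1_rb8033094a_d43_d53_d41_d39_d43_d4d_d42_d0000_3 g__wQ_26_wN_1_rb8033094a_d43_d53_d41_d39_d43_d4d_d42_d0000_4 g__wQ_26_wN_1_rb8033094a_d43_d53_d41_d39_d43_d4d_d42_d0000_5

theorem g_wQ_26_wN_1_rb8033094a_d43_d53_d41_d39_d43_d4d_d42_d0000 : GoodKC AS c_wQ_26_wN_1_rb8033094a_d43_d53_d41_d39_d43_d4d_d42_d0000 := p_wQ_26_wN_1_rb8033094a_d43_d53_d41_d39_d43_d4d_d42_d0000 g__wQ_26_wN_1_rb8033094a_d43_d53_d41_d39_d43_d4d_d42_d0000_0 g__wQ_26_wN_1_rb8033094a_d43_d53_d41_d39_d43_d4d_d42_d0000_2 g__wQ_26_wN_1_rb8033094a_d43_d53_d41_d39_d43_d4d_d42_d0000_3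

theorem g__wQ_26_wN_1_rb8033094a_d43_d53_d41_d39_d43_d4d_d42_d00_19 : GoodKC AS k_wQ_26_wN_1_rb8033094a_d43_d53_d41_d39_d43_d4d_d42_d00_19 := p_wQ_26_wN_1_rb8033094a_d43_d53_d41_d39_d43_d4d_d42_d00_19

theorem g__wQ_26_wN_1_rb8033094a_d43_d53_d41_d39_d43_d4d_d42_d00_18 : GoodKC AS k_wQ_26_wN_1_rb8033094a_d43_d53_d41_d39_d43_d4d_d42_d00_18 := p_wQ_26_wN_1_rb8033094a_d43_d53_d41_d39_d43_d4d_d42_d00_18 g__wQ_26_wN_1_rb8033094a_d43_d53_d41_d39_d43_d4d_d42_d00_19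

theorem g__wQ_26_wN_1_rb8033094a_d43_d53_d41_d39_d43_d4d_d42_d00_17 : GoodKC AS k_wQ_26_wN_1_rb8033094a_d43_d53_d41_d39_d43_d4d_d42_d00_17 := p_wQ_26_wN_1_rb8033094a_d43_d53_d41_d39_d43_d4d_d42_d00_17 g__wQ_26_wN_1_rb8033094a_d43_d53_d41_d39_d43_d4d_d42_d00_18

theorem g__wQ_26_wN_1_rb8033094a_d43_d53_d41_d39_d43_d4d_d42_d00_16 : GoodKC AS k_wQ_26_wN_1_rb8033094a_d43_d53_d41_d39_d43_d4d_d42_d00_16 := p_wQ_26_wN_1_rb8033094a_d43_d53_d41_d39_d43_d4d_d42_d00_16 g__wQ_26_wN_1_rb8033094a_d43_d53_d41_d39_d43_d4d_d42_d00_17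

theorem g__wQ_26_wN_1_rb8033094a_d43_d53_d41_d39_d43_d4d_d42_d00_20 : GoodKC AS k_wQ_26_wN_1_rb8033094a_d43_d53_d41_d39_d43_d4d_d42_d00_20 := p_wQ_26_wN_1_rb8033094a_d43_d53_d41_d39_d43_d4d_d42_d00_20

theorem g__wQ_26_wN_1_rb8033094a_d43_d53_d41_d39_d43_d4d_d42_d00_15 : GoodKC AS k_wQ_26_wN_1_rb8033094a_d43_d53_d41_d39_d43_d4d_d42_d00_15 := p_wQ_26_wN_1_rb8033094a_d43_d53_d41_d39_d43_d4d_d42_d00_15 g__wQ_26_wN_1_rb8033094a_d43_d53_d41_d39_d43_d4d_d42_d00_16 g__wQ_26_wN_1_rb8033094a_d43_d53_d41_d39_d43_d4d_d42_d00_20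

theorem g__wQ_26_wN_1_rb8033094a_d43_d53_d41_d39_d43_d4d_d42_d00_21 : GoodKC AS k_wQ_26_wN_1_rb8033094a_d43_d53_d41_d39_d43_d4d_d42_d00_21 := p_wQ_26_wN_1_rb8033094a_d43_d53_d41_d39_d43_d4d_d42_d00_21

theorem g__wQ_26_wN_1_rb8033094a_d43_d53_d41_d39_d43_d4d_d42_d00_22 : GoodKC AS k_wQ_26_wN_1_rb8033094a_d43_d53_d41_d39_d43_d4d_d42_d00_22 := p_wQ_26_wN_1_rb8033094a_d43_d53_d41_d39_d43_d4d_d42_d00_22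

theorem g__wQ_26_wN_1_rb8033094a_d43_d53_d41_d39_d43_d4d_d42_d00_14 : GoodKC AS k_wQ_26_wN_1_rb8033094a_d43_d53_d41_d39_d43_d4d_d42_d00_14 := p_wQ_26_wN_1_rb8033094a_d43_d53_d41_d39_d43_d4d_d42_d00_14 g__wQ_26_wN_1_rb8033094a_d43_d53_d41_d39_d43_d4d_d42_d00_15 g__wQ_26_wN_1_rb8033094a_d43_d53_d41_d39_d43_d4d_d42_d00_21 g__wQ_26_wN_1_rb8033094a_d43_d53_d41_d39_d43_d4d_d42_d00_22

theorem g__wQ_26_wN_1_rb8033094a_d43_d53_d41_d39_d43_d4d_d42_d00_23 : GoodKC AS k_wQ_26_wN_1_rb8033094a_d43_d53_d41_d39_d43_d4d_d42_d00_23 := p_wQ_26_wN_1_rb8033094a_d43_d53_d41_d39_d43_d4d_d42_d00_23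

theorem g__wQ_26_wN_1_rb8033094a_d43_d53_d41_d39_d43_d4d_d42_d00_13 : GoodKC AS k_wQ_26_wN_1_rb8033094a_d43_d53_d41_d39_d43_d4d_d42_d00_13 := p_wQ_26_wN_1_rb8033094a_d43_d53_d41_d39_d43_d4d_d42_d00_13 g_wQ_26_wN_1_rb8033094a_d43_d53_d41_d39_d43_d4d_d42_d0000 g__wQ_26_wN_1_rb8033094a_d43_d53_d41_d39_d43_d4d_d42_d00_14 g__wQ_26_wN_1_rb8033094a_d43_d53_d41_d39_d43_d4d_d42_d00_23

theorem g__wQ_26_wN_1_rb8033094a_d43_d53_d41_d39_d43_d4d_d42_d00_12 : GoodKC AS k_wQ_26_wN_1_rb8033094a_d43_d53_d41_d39_d43_d4d_d42_d00_12 := p_wQ_26_wN_1_rb8033094a_d43_d53_d41_d39_d43_d4d_d42_d00_12 g__wQ_26_wN_1_rb8033094a_d43_d53_d41_d39_d43_d4d_d42_d00_13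

theorem g__wQ_26_wN_1_rb8033094a_d43_d53_d41_d39_d43_d4d_d42_d00_11 : GoodKC AS k_wQ_26_wN_1_rb8033094a_d43_d53_d41_d39_d43_d4d_d42_d00_11 := p_wQ_26_wN_1_rb8033094a_d43_d53_d41_d39_d43_d4d_d42_d00_11 g__wQ_26_wN_1_rb8033094a_d43_d53_d41_d39_d43_d4d_d42_d00_12

theorem g__wQ_26_wN_1_rb8033094a_d43_d53_d41_d39_d43_d4d_d42_d00_24 : GoodKC AS k_wQ_26_wN_1_rb8033094a_d43_d53_d41_d39_d43_d4d_d42_d00_24 := p_wQ_26_wN_1_rb8033094a_d43_d53_d41_d39_d43_d4d_d42_d00_24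

theorem g__wQ_26_wN_1_rb8033094a_d43_d53_d41_d39_d43_d4d_d42_d00_25 : GoodKC AS k_wQ_26_wN_1_rb8033094a_d43_d53_d41_d39_d43_d4d_d42_d00_25 := p_wQ_26_wN_1_rb8033094a_d43_d53_d41_d39_d43_d4d_d42_d00_25

theorem g__wQ_26_wN_1_rb8033094a_d43_d53_d41_d39_d43_d4d_d42_d00_10 : GoodKC AS k_wQ_26_wN_1_rb8033094a_d43_d53_d41_d39_d43_d4d_d42_d00_10 := p_wQ_26_wN_1_rb8033094a_d43_d53_d41_d39_d43_d4d_d42_d00_10 g__wQ_26_wN_1_rb8033094a_d43_d53_d41_d39_d43_d4d_d42_d00_11 g__wQ_26_wN_1_rb8033094a_d43_d53_d41_d39_d43_d4d_d42_d00_24 g__wQ_26_wN_1_rb8033094a_d43_d53_d41_d39_d43_d4d_d42_d00_25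

theorem g__wQ_26_wN_1_rb8033094a_d43_d53_d41_d39_d43_d4d_d42_d00_9 : GoodKC AS k_wQ_26_wN_1_rb8033094a_d43_d53_d41_d39_d43_d4d_d42_d00_9 := p_wQ_26_wN_1_rb8033094a_d43_d53_d41_d39_d43_d4d_d42_d00_9 g_wQ_26_wN_1_rb8033094a_d43_d53_d41_d39_d43_d4d_d42_d0001 g__wQ_26_wN_1_rb8033094a_d43_d53_d41_d39_d43_d4d_d42_d00_10

theorem g__wQ_26_wN_1_rb8033094a_d43_d53_d41_d39_d43_d4d_d42_d00_26 : GoodKC AS k_wQ_26_wN_1_rb8033094a_d43_d53_d41_d39_d43_d4d_d42_d00_26 := p_wQ_26_wN_1_rb8033094a_d43_d53_d41_d39_d43_d4d_d42_d00_26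

theorem g__wQ_26_wN_1_rb8033094a_d43_d53_d41_d39_d43_d4d_d42_d00_8 : GoodKC AS k_wQ_26_wN_1_rb8033094a_d43_d53_d41_d39_d43_d4d_d42_d00_8 := p_wQ_26_wN_1_rb8033094a_d43_d53_d41_d39_d43_d4d_d42_d00_8 g__wQ_26_wN_1_rb8033094a_d43_d53_d41_d39_d43_d4d_d42_d00_9 g__wQ_26_wN_1_rb8033094a_d43_d53_d41_d39_d43_d4d_d42_d00_26

theorem g__wQ_26_wN_1_rb8033094a_d43_d53_d41_d39_d43_d4d_d42_d00_6 : GoodKC AS k_wQ_26_wN_1_rb8033094a_d43_d53_d41_d39_d43_d4d_d42_d00_6 := p_wQ_26_wN_1_rb8033094a_d43_d53_d41_d39_d43_d4d_d42_d00_6 g__wQ_26_wN_1_rb8033094a_d43_d53_d41_d39_d43_d4d_d42_d00_7 g__wQ_26_wN_1_rb8033094a_d43_d53_d41_d39_d43_d4d_d42_d00_8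

theorem g__wQ_26_wN_1_rb8033094a_d43_d53_d41_d39_d43_d4d_d42_d00_5 : GoodKC AS k_wQ_26_wN_1_rb8033094a_d43_d53_d41_d39_d43_d4d_d42_d00_5 := p_wQ_26_wN_1_rb8033094a_d43_d53_d41_d39_d43_d4d_d42_d00_5 g__wQ_26_wN_1_rb8033094a_d43_d53_d41_d39_d43_d4d_d42_d00_6

theorem g__wQ_26_wN_1_rb8033094a_d43_d53_d41_d39_d43_d4d_d42_d00_4 : GoodKC AS k_wQ_26_wN_1_rb8033094a_d43_d53_d41_d39_d43_d4d_d42_d00_4 := p_wQ_26_wN_1_rb8033094a_d43_d53_d41_d39_d43_d4d_d42_d00_4 g__wQ_26_wN_1_rb8033094a_d43_d53_d41_d39_d43_d4d_d42_d00_5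

theorem g__wQ_26_wN_1_rb8033094a_d43_d53_d41_d39_d43_d4d_d42_d00_3 : GoodKC AS k_wQ_26_wN_1_rb8033094a_d43_d53_d41_d39_d43_d4d_d42_d00_3 := p_wQ_26_wN_1_rb8033094a_d43_d53_d41_d39_d43_d4d_d42_d00_3 g__wQ_26_wN_1_rb8033094a_d43_d53_d41_d39_d43_d4d_d42_d00_4

theorem g__wQ_26_wN_1_rb8033094a_d43_d53_d41_d39_d43_d4d_d42_d00_0 : GoodKC AS k_wQ_26_wN_1_rb8033094a_d43_d53_d41_d39_d43_d4d_d42_d00_0 := p_wQ_26_wN_1_rb8033094a_d43_d53_d41_d39_d43_d4d_d42_d00_0 g__wQ_26_wN_1_rb8033094a_d43_d53_d41_d39_d43_d4d_d42_d00_1 g__wQ_26_wN_1_rb8033094a_d43_d53_d41_d39_d43_d4d_d42_d00_2 g__wQ_26_wN_1_rb8033094a_d43_d53_d41_d39_d43_d4d_d42_d00_3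

theorem g__wQ_26_wN_1_rb8033094a_d43_d53_d41_d39_d43_d4d_d42_d00_27 : GoodKC AS k_wQ_26_wN_1_rb8033094a_d43_d53_d41_d39_d43_d4d_d42_d00_27 := p_wQ_26_wN_1_rb8033094a_d43_d53_d41_d39_d43_d4d_d42_d00_27

theorem g_wQ_26_wN_1_rb8033094a_d43_d53_d41_d39_d43_d4d_d42_d00v1 : GoodKC AS c_wQ_26_wN_1_rb8033094a_d43_d53_d41_d39_d43_d4d_d42_d00v1 := p_wQ_26_wN_1_rb8033094a_d43_d53_d41_d39_d43_d4d_d42_d00 g__wQ_26_wN_1_rb8033094a_d43_d53_d41_d39_d43_d4d_d42_d00_0 g__wQ_26_wN_1_rb8033094a_d43_d53_d41_d39_d43_d4d_d42_d00_27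

theorem g_wQ_26_wN_1_rb8033094a_d43_d53_d41_d39_d43_d4d_d42_d02v1 : GoodKC AS c_wQ_26_wN_1_rb8033094a_d43_d53_d41_d39_d43_d4d_d42_d02v1 := p_wQ_26_wN_1_rb8033094a_d43_d53_d41_d39_d43_d4d_d42_d02

theorem g_wQ_26_wN_1_rb8033094a_d43_d53_d41_d39_d43_d4d_d42_d07v1 : GoodKC AS c_wQ_26_wN_1_rb8033094a_d43_d53_d41_d39_d43_d4d_d42_d07v1 := p_wQ_26_wN_1_rb8033094a_d43_d53_d41_d39_d43_d4d_d42_d07

theorem g__wQ_26_wN_1_rb8033094a_d43_d53_d41_d39_d43_d4d_d42_d0c_1 : GoodKC AS k_wQ_26_wN_1_rb8033094a_d43_d53_d41_d39_d43_d4d_d42_d0c_1 := p_wQ_26_wN_1_rb8033094a_d43_d53_d41_d39_d43_d4d_d42_d0c_1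

theorem g__wQ_26_wN_1_rb8033094a_d43_d53_d41_d39_d43_d4d_d42_d0c_0 : GoodKC AS k_wQ_26_wN_1_rb8033094a_d43_d53_d41_d39_d43_d4d_d42_d0c_0 := p_wQ_26_wN_1_rb8033094a_d43_d53_d41_d39_d43_d4d_d42_d0c_0 g__wQ_26_wN_1_rb8033094a_d43_d53_d41_d39_d43_d4d_d42_d0c_1

theorem g_wQ_26_wN_1_rb8033094a_d43_d53_d41_d39_d43_d4d_d42_d0cv1 : GoodKC AS c_wQ_26_wN_1_rb8033094a_d43_d53_d41_d39_d43_d4d_d42_d0cv1 := p_wQ_26_wN_1_rb8033094a_d43_d53_d41_d39_d43_d4d_d42_d0c g__wQ_26_wN_1_rb8033094a_d43_d53_d41_d39_d43_d4d_d42_d0c_0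

theorem g_wQ_26_wN_1_rb8033094a_d43_d53_d41_d39_d43_d4d_d42_d0dv1 : GoodKC AS c_wQ_26_wN_1_rb8033094a_d43_d53_d41_d39_d43_d4d_d42_d0dv1 := p_wQ_26_wN_1_rb8033094a_d43_d53_d41_d39_d43_d4d_d42_d0d

theorem g_wQ_26_wN_1_rb8033094a_d43_d53_d41_d39_d43_d4d_d42_d0fv1 : GoodKC AS c_wQ_26_wN_1_rb8033094a_d43_d53_d41_d39_d43_d4d_d42_d0fv1 := p_wQ_26_wN_1_rb8033094a_d43_d53_d41_d39_d43_d4d_d42_d0f

theorem g__wQ_26_wN_1_rb8033094a_d43_d53_d41_d39_d43_d4d_d42_d12_0 : GoodKC AS k_wQ_26_wN_1_rb8033094a_d43_d53_d41_d39_d43_d4d_d42_d12_0 := p_wQ_26_wN_1_rb8033094a_d43_d53_d41_d39_d43_d4d_d42_d12_0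

theorem g_wQ_26_wN_1_rb8033094a_d43_d53_d41_d39_d43_d4d_d42_d12v1 : GoodKC AS c_wQ_26_wN_1_rb8033094a_d43_d53_d41_d39_d43_d4d_d42_d12v1 := p_wQ_26_wN_1_rb8033094a_d43_d53_d41_d39_d43_d4d_d42_d12 g__wQ_26_wN_1_rb8033094a_d43_d53_d41_d39_d43_d4d_d42_d12_0

theorem g__wQ_26_wN_1_rb8033094a_d43_d53_d41_d39_d43_d4d_d42_d15_0 : GoodKC AS k_wQ_26_wN_1_rb8033094a_d43_d53_d41_d39_d43_d4d_d42_d15_0 := p_wQ_26_wN_1_rb8033094a_d43_d53_d41_d39_d43_d4d_d42_d15_0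

theorem g_wQ_26_wN_1_rb8033094a_d43_d53_d41_d39_d43_d4d_d42_d15v1 : GoodKC AS c_wQ_26_wN_1_rb8033094a_d43_d53_d41_d39_d43_d4d_d42_d15v1 := p_wQ_26_wN_1_rb8033094a_d43_d53_d41_d39_d43_d4d_d42_d15 g__wQ_26_wN_1_rb8033094a_d43_d53_d41_d39_d43_d4d_d42_d15_0

theorem g_wQ_26_wN_1_rb8033094a_d43_d53_d41_d39_d43_d4d_d42_d17v1 : GoodKC AS c_wQ_26_wN_1_rb8033094a_d43_d53_d41_d39_d43_d4d_d42_d17v1 := p_wQ_26_wN_1_rb8033094a_d43_d53_d41_d39_d43_d4d_d42_d17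

theorem g_wQ_26_wN_1_rb8033094a_d43_d53_d41_d39_d43_d4d_d42_d18v1 : GoodKC AS c_wQ_26_wN_1_rb8033094a_d43_d53_d41_d39_d43_d4d_d42_d18v1 := p_wQ_26_wN_1_rb8033094a_d43_d53_d41_d39_d43_d4d_d42_d18

theorem g_wQ_26_wN_1_rb8033094a_d43_d53_d41_d39_d43_d4d_d42_d19v1 : GoodKC AS c_wQ_26_wN_1_rb8033094a_d43_d53_d41_d39_d43_d4d_d42_d19v1 := p_wQ_26_wN_1_rb8033094a_d43_d53_d41_d39_d43_d4d_d42_d19

theorem g_wQ_26_wN_1_rb8033094a_d43_d53_d41_d39_d43_d4d_d42_d1av1 : GoodKC AS c_wQ_26_wN_1_rb8033094a_d43_d53_d41_d39_d43_d4d_d42_d1av1 := p_wQ_26_wN_1_rb8033094a_d43_d53_d41_d39_d43_d4d_d42_d1a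

theorem g_wQ_26_wN_1_rb8033094a_d43_d53_d41_d39_d43_d4d_d42_d1dv1 : GoodKC AS c_wQ_26_wN_1_rb8033094a_d43_d53_d41_d39_d43_d4d_d42_d1dv1 := p_wQ_26_wN_1_rb8033094a_d43_d53_d41_d39_d43_d4d_d42_d1d

theorem g_wQ_26_wN_1_rb8033094a_d43_d53_d41_d39_d43_d4d_d42_d20v1 : GoodKC AS c_wQ_26_wN_1_rb8033094a_d43_d53_d41_d39_d43_d4d_d42_d20v1 := p_wQ_26_wN_1_rb8033094a_d43_d53_d41_d39_d43_d4d_d42_d20

theorem g_wQ_26_wN_1_rb8033094a_d43_d53_d41_d39_d43_d4d_d42_d22v1 : GoodKC AS c_wQ_26_wN_1_rb8033094a_d43_d53_d41_d39_d43_d4d_d42_d22v1 := p_wQ_26_wN_1_rb8033094a_d43_d53_d41_d39_d43_d4d_d42_d22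

theorem g__wQ_26_wN_1_rb8033094a_d43_d53_d41_d39_d43_d4d_d42_d23_4 : GoodKC AS k_wQ_26_wN_1_rb8033094a_d43_d53_d41_d39_d43_d4d_d42_d23_4 := p_wQ_26_wN_1_rb8033094a_d43_d53_d41_d39_d43_d4d_d42_d23_4

theorem g__wQ_26_wN_1_rb8033094a_d43_d53_d41_d39_d43_d4d_d42_d23_3 : GoodKC AS k_wQ_26_wN_1_rb8033094a_d43_d53_d41_d39_d43_d4d_d42_d23_3 := p_wQ_26_wN_1_rb8033094a_d43_d53_d41_d39_d43_d4d_d42_d23_3 g__wQ_26_wN_1_rb8033094a_d43_d53_d41_d39_d43_d4d_d42_d23_4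

theorem g__wQ_26_wN_1_rb8033094a_d43_d53_d41_d39_d43_d4d_d42_d23_2 : GoodKC AS k_wQ_26_wN_1_rb8033094a_d43_d53_d41_d39_d43_d4d_d42_d23_2 := p_wQ_26_wN_1_rb8033094a_d43_d53_d41_d39_d43_d4d_d42_d23_2 g__wQ_26_wN_1_rb8033094a_d43_d53_d41_d39_d43_d4d_d42_d23_3

theorem g__wQ_26_wN_1_rb8033094a_d43_d53_d41_d39_d43_d4d_d42_d23_1 : GoodKC AS k_wQ_26_wN_1_rb8033094a_d43_d53_d41_d39_d43_d4d_d42_d23_1 := p_wQ_26_wN_1_rb8033094a_d43_d53_d41_d39_d43_d4d_d42_d23_1 g__wQ_26_wN_1_rb8033094a_d43_d53_d41_d39_d43_d4d_d42_d23_2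

theorem g__wQ_26_wN_1_rb8033094a_d43_d53_d41_d39_d43_d4d_d42_d23_0 : GoodKC AS k_wQ_26_wN_1_rb8033094a_d43_d53_d41_d39_d43_d4d_d42_d23_0 := p_wQ_26_wN_1_rb8033094a_d43_d53_d41_d39_d43_d4d_d42_d23_0 g__wQ_26_wN_1_rb8033094a_d43_d53_d41_d39_d43_d4d_d42_d23_1

theorem g__wQ_26_wN_1_rb8033094a_d43_d53_d41_d39_d43_d4d_d42_d23_5 : GoodKC AS k_wQ_26_wN_1_rb8033094a_d43_d53_d41_d39_d43_d4d_d42_d23_5 := p_wQ_26_wN_1_rb8033094a_d43_d53_d41_d39_d43_d4d_d42_d23_5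

theorem g_wQ_26_wN_1_rb8033094a_d43_d53_d41_d39_d43_d4d_d42_d23v1 : GoodKC AS c_wQ_26_wN_1_rb8033094a_d43_d53_d41_d39_d43_d4d_d42_d23v1 := p_wQ_26_wN_1_rb8033094a_d43_d53_d41_d39_d43_d4d_d42_d23 g__wQ_26_wN_1_rb8033094a_d43_d53_d41_d39_d43_d4d_d42_d23_0 g__wQ_26_wN_1_rb8033094a_d43_d53_d41_d39_d43_d4d_d42_d23_5

theorem g__wQ_26_wN_1_rb8033094a_d43_d53_d41_d39_d43_d4d_d42_d2a_0 : GoodKC AS k_wQ_26_wN_1_rb8033094a_d43_d53_d41_d39_d43_d4d_d42_d2a_0 := p_wQ_26_wN_1_rb8033094a_d43_d53_d41_d39_d43_d4d_d42_d2a_0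

theorem g_wQ_26_wN_1_rb8033094a_d43_d53_d41_d39_d43_d4d_d42_d2av1 : GoodKC AS c_wQ_26_wN_1_rb8033094a_d43_d53_d41_d39_d43_d4d_d42_d2av1 := p_wQ_26_wN_1_rb8033094a_d43_d53_d41_d39_d43_d4d_d42_d2a g__wQ_26_wN_1_rb8033094a_d43_d53_d41_d39_d43_d4d_d42_d2a_0

theorem g_wQ_26_wN_1_rb8033094a_d43_d53_d41_d39_d43_d4d_d42_d2bv1 : GoodKC AS c_wQ_26_wN_1_rb8033094a_d43_d53_d41_d39_d43_d4d_d42_d2bv1 := p_wQ_26_wN_1_rb8033094a_d43_d53_d41_d39_d43_d4d_d42_d2b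

theorem g__wQ_26_wN_1_rb8033094a_d43_d53_d41_d39_d43_d4d_d42_d2c_2 : GoodKC AS k_wQ_26_wN_1_rb8033094a_d43_d53_d41_d39_d43_d4d_d42_d2c_2 := p_wQ_26_wN_1_rb8033094a_d43_d53_d41_d39_d43_d4d_d42_d2c_2

theorem g__wQ_26_wN_1_rb8033094a_d43_d53_d41_d39_d43_d4d_d42_d2c_1 : GoodKC AS k_wQ_26_wN_1_rb8033094a_d43_d53_d41_d39_d43_d4d_d42_d2c_1 := p_wQ_26_wN_1_rb8033094a_d43_d53_d41_d39_d43_d4d_d42_d2c_1 g__wQ_26_wN_1_rb8033094a_d43_d53_d41_d39_d43_d4d_d42_d2c_2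

theorem g__wQ_26_wN_1_rb8033094a_d43_d53_d41_d39_d43_d4d_d42_d2c_5 : GoodKC AS k_wQ_26_wN_1_rb8033094a_d43_d53_d41_d39_d43_d4d_d42_d2c_5 := p_wQ_26_wN_1_rb8033094a_d43_d53_d41_d39_d43_d4d_d42_d2c_5

theorem g__wQ_26_wN_1_rb8033094a_d43_d53_d41_d39_d43_d4d_d42_d2c_4 : GoodKC AS k_wQ_26_wN_1_rb8033094a_d43_d53_d41_d39_d43_d4d_d42_d2c_4 := p_wQ_26_wN_1_rb8033094a_d43_d53_d41_d39_d43_d4d_d42_d2c_4 g__wQ_26_wN_1_rb8033094a_d43_d53_d41_d39_d43_d4d_d42_d2c_5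

theorem g__wQ_26_wN_1_rb8033094a_d43_d53_d41_d39_d43_d4d_d42_d2c_3 : GoodKC AS k_wQ_26_wN_1_rb8033094a_d43_d53_d41_d39_d43_d4d_d42_d2c_3 := p_wQ_26_wN_1_rb8033094a_d43_d53_d41_d39_d43_d4d_d42_d2c_3 g__wQ_26_wN_1_rb8033094a_d43_d53_d41_d39_d43_d4d_d42_d2c_4

theorem g__wQ_26_wN_1_rb8033094a_d43_d53_d41_d39_d43_d4d_d42_d2c_0 : GoodKC AS k_wQ_26_wN_1_rb8033094a_d43_d53_d41_d39_d43_d4d_d42_d2c_0 := p_wQ_26_wN_1_rb8033094a_d43_d53_d41_d39_d43_d4d_d42_d2c_0 g__wQ_26_wN_1_rb8033094a_d43_d53_d41_d39_d43_d4d_d42_d2c_1 g__wQ_26_wN_1_rb8033094a_d43_d53_d41_d39_d43_d4d_d42_d2c_3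

theorem g_wQ_26_wN_1_rb8033094a_d43_d53_d41_d39_d43_d4d_d42_d2cv1 : GoodKC AS c_wQ_26_wN_1_rb8033094a_d43_d53_d41_d39_d43_d4d_d42_d2cv1 := p_wQ_26_wN_1_rb8033094a_d43_d53_d41_d39_d43_d4d_d42_d2c g__wQ_26_wN_1_rb8033094a_d43_d53_d41_d39_d43_d4d_d42_d2c_0

theorem g_wQ_26_wN_1_rb8033094a_d43_d53_d41_d39_d43_d4d_d42_d2ev1 : GoodKC AS c_wQ_26_wN_1_rb8033094a_d43_d53_d41_d39_d43_d4d_d42_d2ev1 := p_wQ_26_wN_1_rb8033094a_d43_d53_d41_d39_d43_d4d_d42_d2e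

theorem g_wQ_26_wN_1_rb8033094a_d43_d53_d41_d39_d43_d4d_d42_d31v1 : GoodKC AS c_wQ_26_wN_1_rb8033094a_d43_d53_d41_d39_d43_d4d_d42_d31v1 := p_wQ_26_wN_1_rb8033094a_d43_d53_d41_d39_d43_d4d_d42_d31

theorem g_wQ_26_wN_1_rb8033094a_d43_d53_d41_d39_d43_d4d_d42_d36_d51_d2c : GoodKC AS c_wQ_26_wN_1_rb8033094a_d43_d53_d41_d39_d43_d4d_d42_d36_d51_d2c := p_wQ_26_wN_1_rb8033094a_d43_d53_d41_d39_d43_d4d_d42_d36_d51_d2c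

theorem g_wQ_26_wN_1_rb8033094a_d43_d53_d41_d39_d43_d4d_d42_d36_d51_d2b : GoodKC AS c_wQ_26_wN_1_rb8033094a_d43_d53_d41_d39_d43_d4d_d42_d36_d51_d2b := p_wQ_26_wN_1_rb8033094a_d43_d53_d41_d39_d43_d4d_d42_d36_d51_d2b

theorem g_wQ_26_wN_1_rb8033094a_d43_d53_d41_d39_d43_d4d_d42_d36_d51_d2a : GoodKC AS c_wQ_26_wN_1_rb8033094a_d43_d53_d41_d39_d43_d4d_d42_d36_d51_d2a := p_wQ_26_wN_1_rb8033094a_d43_d53_d41_d39_d43_d4d_d42_d36_d51_d2a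

theorem g_wQ_26_wN_1_rb8033094a_d43_d53_d41_d39_d43_d4d_d42_d36_d51_d29_d51_d2a : GoodKC AS c_wQ_26_wN_1_rb8033094a_d43_d53_d41_d39_d43_d4d_d42_d36_d51_d29_d51_d2a := p_wQ_26_wN_1_rb8033094a_d43_d53_d41_d39_d43_d4d_d42_d36_d51_d29_d51_d2a

theorem g_wQ_26_wN_1_rb8033094a_d43_d53_d41_d39_d43_d4d_d42_d36_d51_d29_d51_d29 : GoodKC AS c_wQ_26_wN_1_rb8033094a_d43_d53_d41_d39_d43_d4d_d42_d36_d51_d29_d51_d29 := p_wQ_26_wN_1_rb8033094a_d43_d53_d41_d39_d43_d4d_d42_d36_d51_d29_d51_d29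

theorem g_wQ_26_wN_1_rb8033094a_d43_d53_d41_d39_d43_d4d_d42_d36_d51_d29_d51_d27 : GoodKC AS c_wQ_26_wN_1_rb8033094a_d43_d53_d41_d39_d43_d4d_d42_d36_d51_d29_d51_d27 := p_wQ_26_wN_1_rb8033094a_d43_d53_d41_d39_d43_d4d_d42_d36_d51_d29_d51_d27

theorem g__wQ_26_wN_1_rb8033094a_d43_d53_d41_d39_d43_d4d_d42_d36_d51_d29_d51_d24_2 : GoodKC AS k_wQ_26_wN_1_rb8033094a_d43_d53_d41_d39_d43_d4d_d42_d36_d51_d29_d51_d24_2 := p_wQ_26_wN_1_rb8033094a_d43_d53_d41_d39_d43_d4d_d42_d36_d51_d29_d51_d24_2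

theorem g__wQ_26_wN_1_rb8033094a_d43_d53_d41_d39_d43_d4d_d42_d36_d51_d29_d51_d24_1 : GoodKC AS k_wQ_26_wN_1_rb8033094a_d43_d53_d41_d39_d43_d4d_d42_d36_d51_d29_d51_d24_1 := p_wQ_26_wN_1_rb8033094a_d43_d53_d41_d39_d43_d4d_d42_d36_d51_d29_d51_d24_1 g__wQ_26_wN_1_rb8033094a_d43_d53_d41_d39_d43_d4d_d42_d36_d51_d29_d51_d24_2

theorem g__wQ_26_wN_1_rb8033094a_d43_d53_d41_d39_d43_d4d_d42_d36_d51_d29_d51_d24_0 : GoodKC AS k_wQ_26_wN_1_rb8033094a_d43_d53_d41_d39_d43_d4d_d42_d36_d51_d29_d51_d24_0 := p_wQ_26_wN_1_rb8033094a_d43_d53_d41_d39_d43_d4d_d42_d36_d51_d29_d51_d24_0 g__wQ_26_wN_1_rb8033094a_d43_d53_d41_d39_d43_d4d_d42_d36_d51_d29_d51_d24_1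

theorem g_wQ_26_wN_1_rb8033094a_d43_d53_d41_d39_d43_d4d_d42_d36_d51_d29_d51_d24 : GoodKC AS c_wQ_26_wN_1_rb8033094a_d43_d53_d41_d39_d43_d4d_d42_d36_d51_d29_d51_d24 := p_wQ_26_wN_1_rb8033094a_d43_d53_d41_d39_d43_d4d_d42_d36_d51_d29_d51_d24 g__wQ_26_wN_1_rb8033094a_d43_d53_d41_d39_d43_d4d_d42_d36_d51_d29_d51_d24_0

theorem g_wQ_26_wN_1_rb8033094a_d43_d53_d41_d39_d43_d4d_d42_d36_d51_d29_d51_d23 : GoodKC AS c_wQ_26_wN_1_rb8033094a_d43_d53_d41_d39_d43_d4d_d42_d36_d51_d29_d51_d23 := p_wQ_26_wN_1_rb8033094a_d43_d53_d41_d39_d43_d4d_d42_d36_d51_d29_d51_d23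

theorem g_wQ_26_wN_1_rb8033094a_d43_d53_d41_d39_d43_d4d_d42_d36_d51_d29_d51_d1f : GoodKC AS c_wQ_26_wN_1_rb8033094a_d43_d53_d41_d39_d43_d4d_d42_d36_d51_d29_d51_d1f := p_wQ_26_wN_1_rb8033094a_d43_d53_d41_d39_d43_d4d_d42_d36_d51_d29_d51_d1f

theorem g_wQ_26_wN_1_rb8033094a_d43_d53_d41_d39_d43_d4d_d42_d36_d51_d29_d51_d1e : GoodKC AS c_wQ_26_wN_1_rb8033094a_d43_d53_d41_d39_d43_d4d_d42_d36_d51_d29_d51_d1e := p_wQ_26_wN_1_rb8033094a_d43_d53_d41_d39_d43_d4d_d42_d36_d51_d29_d51_d1e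

theorem g_wQ_26_wN_1_rb8033094a_d43_d53_d41_d39_d43_d4d_d42_d36_d51_d29_d51_d1d : GoodKC AS c_wQ_26_wN_1_rb8033094a_d43_d53_d41_d39_d43_d4d_d42_d36_d51_d29_d51_d1d := p_wQ_26_wN_1_rb8033094a_d43_d53_d41_d39_d43_d4d_d42_d36_d51_d29_d51_d1d

theorem g_wQ_26_wN_1_rb8033094a_d43_d53_d41_d39_d43_d4d_d42_d36_d51_d29_d51_d1c : GoodKC AS c_wQ_26_wN_1_rb8033094a_d43_d53_d41_d39_d43_d4d_d42_d36_d51_d29_d51_d1c := p_wQ_26_wN_1_rb8033094a_d43_d53_d41_d39_d43_d4d_d42_d36_d51_d29_d51_d1c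

theorem g_wQ_26_wN_1_rb8033094a_d43_d53_d41_d39_d43_d4d_d42_d36_d51_d29_d51_d1b : GoodKC AS c_wQ_26_wN_1_rb8033094a_d43_d53_d41_d39_d43_d4d_d42_d36_d51_d29_d51_d1b := p_wQ_26_wN_1_rb8033094a_d43_d53_d41_d39_d43_d4d_d42_d36_d51_d29_d51_d1b

theorem g_wQ_26_wN_1_rb8033094a_d43_d53_d41_d39_d43_d4d_d42_d36_d51_d29_d51_d19 : GoodKC AS c_wQ_26_wN_1_rb8033094a_d43_d53_d41_d39_d43_d4d_d42_d36_d51_d29_d51_d19 := p_wQ_26_wN_1_rb8033094a_d43_d53_d41_d39_d43_d4d_d42_d36_d51_d29_d51_d19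

theorem g_wQ_26_wN_1_rb8033094a_d43_d53_d41_d39_d43_d4d_d42_d36_d51_d29_d51_d18 : GoodKC AS c_wQ_26_wN_1_rb8033094a_d43_d53_d41_d39_d43_d4d_d42_d36_d51_d29_d51_d18 := p_wQ_26_wN_1_rb8033094a_d43_d53_d41_d39_d43_d4d_d42_d36_d51_d29_d51_d18

theorem g_wQ_26_wN_1_rb8033094a_d43_d53_d41_d39_d43_d4d_d42_d36_d51_d29_d51_d17 : GoodKC AS c_wQ_26_wN_1_rb8033094a_d43_d53_d41_d39_d43_d4d_d42_d36_d51_d29_d51_d17 := p_wQ_26_wN_1_rb8033094a_d43_d53_d41_d39_d43_d4d_d42_d36_d51_d29_d51_d17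

theorem g_wQ_26_wN_1_rb8033094a_d43_d53_d41_d39_d43_d4d_d42_d36_d51_d29_d51_d16 : GoodKC AS c_wQ_26_wN_1_rb8033094a_d43_d53_d41_d39_d43_d4d_d42_d36_d51_d29_d51_d16 := p_wQ_26_wN_1_rb8033094a_d43_d53_d41_d39_d43_d4d_d42_d36_d51_d29_d51_d16

theorem g_wQ_26_wN_1_rb8033094a_d43_d53_d41_d39_d43_d4d_d42_d36_d51_d29_d51_d12 : GoodKC AS c_wQ_26_wN_1_rb8033094a_d43_d53_d41_d39_d43_d4d_d42_d36_d51_d29_d51_d12 := p_wQ_26_wN_1_rb8033094a_d43_d53_d41_d39_d43_d4d_d42_d36_d51_d29_d51_d12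

theorem g_wQ_26_wN_1_rb8033094a_d43_d53_d41_d39_d43_d4d_d42_d36_d51_d29_d51_d11 : GoodKC AS c_wQ_26_wN_1_rb8033094a_d43_d53_d41_d39_d43_d4d_d42_d36_d51_d29_d51_d11 := p_wQ_26_wN_1_rb8033094a_d43_d53_d41_d39_d43_d4d_d42_d36_d51_d29_d51_d11

theorem g__wQ_26_wN_1_rb8033094a_d43_d53_d41_d39_d43_d4d_d42_d36_d51_d29_d51_d10_6 : GoodKC AS k_wQ_26_wN_1_rb8033094a_d43_d53_d41_d39_d43_d4d_d42_d36_d51_d29_d51_d10_6 := p_wQ_26_wN_1_rb8033094a_d43_d53_d41_d39_d43_d4d_d42_d36_d51_d29_d51_d10_6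

theorem g__wQ_26_wN_1_rb8033094a_d43_d53_d41_d39_d43_d4d_d42_d36_d51_d29_d51_d10_5 : GoodKC AS k_wQ_26_wN_1_rb8033094a_d43_d53_d41_d39_d43_d4d_d42_d36_d51_d29_d51_d10_5 := p_wQ_26_wN_1_rb8033094a_d43_d53_d41_d39_d43_d4d_d42_d36_d51_d29_d51_d10_5 g__wQ_26_wN_1_rb8033094a_d43_d53_d41_d39_d43_d4d_d42_d36_d51_d29_d51_d10_6

theorem g__wQ_26_wN_1_rb8033094a_d43_d53_d41_d39_d43_d4d_d42_d36_d51_d29_d51_d10_4 : GoodKC AS k_wQ_26_wN_1_rb8033094a_d43_d53_d41_d39_d43_d4d_d42_d36_d51_d29_d51_d10_4 := p_wQ_26_wN_1_rb8033094a_d43_d53_d41_d39_d43_d4d_d42_d36_d51_d29_d51_d10_4 g__wQ_26_wN_1_rb8033094a_d43_d53_d41_d39_d43_d4d_d42_d36_d51_d29_d51_d10_5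

theorem g__wQ_26_wN_1_rb8033094a_d43_d53_d41_d39_d43_d4d_d42_d36_d51_d29_d51_d10_3 : GoodKC AS k_wQ_26_wN_1_rb8033094a_d43_d53_d41_d39_d43_d4d_d42_d36_d51_d29_d51_d10_3 := p_wQ_26_wN_1_rb8033094a_d43_d53_d41_d39_d43_d4d_d42_d36_d51_d29_d51_d10_3 g__wQ_26_wN_1_rb8033094a_d43_d53_d41_d39_d43_d4d_d42_d36_d51_d29_d51_d10_4

theorem g__wQ_26_wN_1_rb8033094a_d43_d53_d41_d39_d43_d4d_d42_d36_d51_d29_d51_d10_2 : GoodKC AS k_wQ_26_wN_1_rb8033094a_d43_d53_d41_d39_d43_d4d_d42_d36_d51_d29_d51_d10_2 := p_wQ_26_wN_1_rb8033094a_d43_d53_d41_d39_d43_d4d_d42_d36_d51_d29_d51_d10_2 g__wQ_26_wN_1_rb8033094a_d43_d53_d41_d39_d43_d4d_d42_d36_d51_d29_d51_d10_3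

theorem g__wQ_26_wN_1_rb8033094a_d43_d53_d41_d39_d43_d4d_d42_d36_d51_d29_d51_d10_1 : GoodKC AS k_wQ_26_wN_1_rb8033094a_d43_d53_d41_d39_d43_d4d_d42_d36_d51_d29_d51_d10_1 := p_wQ_26_wN_1_rb8033094a_d43_d53_d41_d39_d43_d4d_d42_d36_d51_d29_d51_d10_1 g__wQ_26_wN_1_rb8033094a_d43_d53_d41_d39_d43_d4d_d42_d36_d51_d29_d51_d10_2

theorem g__wQ_26_wN_1_rb8033094a_d43_d53_d41_d39_d43_d4d_d42_d36_d51_d29_d51_d10_0 : GoodKC AS k_wQ_26_wN_1_rb8033094a_d43_d53_d41_d39_d43_d4d_d42_d36_d51_d29_d51_d10_0 := p_wQ_26_wN_1_rb8033094a_d43_d53_d41_d39_d43_d4d_d42_d36_d51_d29_d51_d10_0 g__wQ_26_wN_1_rb8033094a_d43_d53_d41_d39_d43_d4d_d42_d36_d51_d29_d51_d10_1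

theorem g_wQ_26_wN_1_rb8033094a_d43_d53_d41_d39_d43_d4d_d42_d36_d51_d29_d51_d10 : GoodKC AS c_wQ_26_wN_1_rb8033094a_d43_d53_d41_d39_d43_d4d_d42_d36_d51_d29_d51_d10 := p_wQ_26_wN_1_rb8033094a_d43_d53_d41_d39_d43_d4d_d42_d36_d51_d29_d51_d10 g__wQ_26_wN_1_rb8033094a_d43_d53_d41_d39_d43_d4d_d42_d36_d51_d29_d51_d10_0

theorem g_wQ_26_wN_1_rb8033094a_d43_d53_d41_d39_d43_d4d_d42_d36_d51_d29_d51_d0f : GoodKC AS c_wQ_26_wN_1_rb8033094a_d43_d53_d41_d39_d43_d4d_d42_d36_d51_d29_d51_d0f := p_wQ_26_wN_1_rb8033094a_d43_d53_d41_d39_d43_d4d_d42_d36_d51_d29_d51_d0f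

theorem g_wQ_26_wN_1_rb8033094a_d43_d53_d41_d39_d43_d4d_d42_d36_d51_d29_d51_d0d : GoodKC AS c_wQ_26_wN_1_rb8033094a_d43_d53_d41_d39_d43_d4d_d42_d36_d51_d29_d51_d0d := p_wQ_26_wN_1_rb8033094a_d43_d53_d41_d39_d43_d4d_d42_d36_d51_d29_d51_d0d

theorem g__wQ_26_wN_1_rb8033094a_d43_d53_d41_d39_d43_d4d_d42_d36_d51_d29_d51_d0b_3 : GoodKC AS k_wQ_26_wN_1_rb8033094a_d43_d53_d41_d39_d43_d4d_d42_d36_d51_d29_d51_d0b_3 := p_wQ_26_wN_1_rb8033094a_d43_d53_d41_d39_d43_d4d_d42_d36_d51_d29_d51_d0b_3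

theorem g__wQ_26_wN_1_rb8033094a_d43_d53_d41_d39_d43_d4d_d42_d36_d51_d29_d51_d0b_2 : GoodKC AS k_wQ_26_wN_1_rb8033094a_d43_d53_d41_d39_d43_d4d_d42_d36_d51_d29_d51_d0b_2 := p_wQ_26_wN_1_rb8033094a_d43_d53_d41_d39_d43_d4d_d42_d36_d51_d29_d51_d0b_2 g__wQ_26_wN_1_rb8033094a_d43_d53_d41_d39_d43_d4d_d42_d36_d51_d29_d51_d0b_3

theorem g__wQ_26_wN_1_rb8033094a_d43_d53_d41_d39_d43_d4d_d42_d36_d51_d29_d51_d0b_1 : GoodKC AS k_wQ_26_wN_1_rb8033094a_d43_d53_d41_d39_d43_d4d_d42_d36_d51_d29_d51_d0b_1 := p_wQ_26_wN_1_rb8033094a_d43_d53_d41_d39_d43_d4d_d42_d36_d51_d29_d51_d0b_1 g__wQ_26_wN_1_rb8033094a_d43_d53_d41_d39_d43_d4d_d42_d36_d51_d29_d51_d0b_2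

theorem g__wQ_26_wN_1_rb8033094a_d43_d53_d41_d39_d43_d4d_d42_d36_d51_d29_d51_d0b_11 : GoodKC AS k_wQ_26_wN_1_rb8033094a_d43_d53_d41_d39_d43_d4d_d42_d36_d51_d29_d51_d0b_11 := p_wQ_26_wN_1_rb8033094a_d43_d53_d41_d39_d43_d4d_d42_d36_d51_d29_d51_d0b_11

theorem g__wQ_26_wN_1_rb8033094a_d43_d53_d41_d39_d43_d4d_d42_d36_d51_d29_d51_d0b_10 : GoodKC AS k_wQ_26_wN_1_rb8033094a_d43_d53_d41_d39_d43_d4d_d42_d36_d51_d29_d51_d0b_10 := p_wQ_26_wN_1_rb8033094a_d43_d53_d41_d39_d43_d4d_d42_d36_d51_d29_d51_d0b_10 g__wQ_26_wN_1_rb8033094a_d43_d53_d41_d39_d43_d4d_d42_d36_d51_d29_d51_d0b_11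

theorem g__wQ_26_wN_1_rb8033094a_d43_d53_d41_d39_d43_d4d_d42_d36_d51_d29_d51_d0b_9 : GoodKC AS k_wQ_26_wN_1_rb8033094a_d43_d53_d41_d39_d43_d4d_d42_d36_d51_d29_d51_d0b_9 := p_wQ_26_wN_1_rb8033094a_d43_d53_d41_d39_d43_d4d_d42_d36_d51_d29_d51_d0b_9 g__wQ_26_wN_1_rb8033094a_d43_d53_d41_d39_d43_d4d_d42_d36_d51_d29_d51_d0b_10

theorem g__wQ_26_wN_1_rb8033094a_d43_d53_d41_d39_d43_d4d_d42_d36_d51_d29_d51_d0b_8 : GoodKC AS k_wQ_26_wN_1_rb8033094a_d43_d53_d41_d39_d43_d4d_d42_d36_d51_d29_d51_d0b_8 := p_wQ_26_wN_1_rb8033094a_d43_d53_d41_d39_d43_d4d_d42_d36_d51_d29_d51_d0b_8 g__wQ_26_wN_1_rb8033094a_d43_d53_d41_d39_d43_d4d_d42_d36_d51_d29_d51_d0b_9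

theorem g__wQ_26_wN_1_rb8033094a_d43_d53_d41_d39_d43_d4d_d42_d36_d51_d29_d51_d0b_12 : GoodKC AS k_wQ_26_wN_1_rb8033094a_d43_d53_d41_d39_d43_d4d_d42_d36_d51_d29_d51_d0b_12 := p_wQ_26_wN_1_rb8033094a_d43_d53_d41_d39_d43_d4d_d42_d36_d51_d29_d51_d0b_12

theorem g__wQ_26_wN_1_rb8033094a_d43_d53_d41_d39_d43_d4d_d42_d36_d51_d29_d51_d0b_7 : GoodKC AS k_wQ_26_wN_1_rb8033094a_d43_d53_d41_d39_d43_d4d_d42_d36_d51_d29_d51_d0b_7 := p_wQ_26_wN_1_rb8033094a_d43_d53_d41_d39_d43_d4d_d42_d36_d51_d29_d51_d0b_7 g__wQ_26_wN_1_rb8033094a_d43_d53_d41_d39_d43_d4d_d42_d36_d51_d29_d51_d0b_8 g__wQ_26_wN_1_rb8033094a_d43_d53_d41_d39_d43_d4d_d42_d36_d51_d29_d51_d0b_12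

theorem g__wQ_26_wN_1_rb8033094a_d43_d53_d41_d39_d43_d4d_d42_d36_d51_d29_d51_d0b_6 : GoodKC AS k_wQ_26_wN_1_rb8033094a_d43_d53_d41_d39_d43_d4d_d42_d36_d51_d29_d51_d0b_6 := p_wQ_26_wN_1_rb8033094a_d43_d53_d41_d39_d43_d4d_d42_d36_d51_d29_d51_d0b_6 g__wQ_26_wN_1_rb8033094a_d43_d53_d41_d39_d43_d4d_d42_d36_d51_d29_d51_d0b_7

theorem g__wQ_26_wN_1_rb8033094a_d43_d53_d41_d39_d43_d4d_d42_d36_d51_d29_d51_d0b_5 : GoodKC AS k_wQ_26_wN_1_rb8033094a_d43_d53_d41_d39_d43_d4d_d42_d36_d51_d29_d51_d0b_5 := p_wQ_26_wN_1_rb8033094a_d43_d53_d41_d39_d43_d4d_d42_d36_d51_d29_d51_d0b_5 g__wQ_26_wN_1_rb8033094a_d43_d53_d41_d39_d43_d4d_d42_d36_d51_d29_d51_d0b_6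

theorem g__wQ_26_wN_1_rb8033094a_d43_d53_d41_d39_d43_d4d_d42_d36_d51_d29_d51_d0b_4 : GoodKC AS k_wQ_26_wN_1_rb8033094a_d43_d53_d41_d39_d43_d4d_d42_d36_d51_d29_d51_d0b_4 := p_wQ_26_wN_1_rb8033094a_d43_d53_d41_d39_d43_d4d_d42_d36_d51_d29_d51_d0b_4 g__wQ_26_wN_1_rb8033094a_d43_d53_d41_d39_d43_d4d_d42_d36_d51_d29_d51_d0b_5

theorem g__wQ_26_wN_1_rb8033094a_d43_d53_d41_d39_d43_d4d_d42_d36_d51_d29_d51_d0b_0 : GoodKC AS k_wQ_26_wN_1_rb8033094a_d43_d53_d41_d39_d43_d4d_d42_d36_d51_d29_d51_d0b_0 := p_wQ_26_wN_1_rb8033094a_d43_d53_d41_d39_d43_d4d_d42_d36_d51_d29_d51_d0b_0 g__wQ_26_wN_1_rb8033094a_d43_d53_d41_d39_d43_d4d_d42_d36_d51_d29_d51_d0b_1 g__wQ_26_wN_1_rb8033094a_d43_d53_d41_d39_d43_d4d_d42_d36_d51_d29_d51_d0b_4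

theorem g_wQ_26_wN_1_rb8033094a_d43_d53_d41_d39_d43_d4d_d42_d36_d51_d29_d51_d0b : GoodKC AS c_wQ_26_wN_1_rb8033094a_d43_d53_d41_d39_d43_d4d_d42_d36_d51_d29_d51_d0b := p_wQ_26_wN_1_rb8033094a_d43_d53_d41_d39_d43_d4d_d42_d36_d51_d29_d51_d0b g__wQ_26_wN_1_rb8033094a_d43_d53_d41_d39_d43_d4d_d42_d36_d51_d29_d51_d0b_0

theorem g_wQ_26_wN_1_rb8033094a_d43_d53_d41_d39_d43_d4d_d42_d36_d51_d29_d51_d0a : GoodKC AS c_wQ_26_wN_1_rb8033094a_d43_d53_d41_d39_d43_d4d_d42_d36_d51_d29_d51_d0a := p_wQ_26_wN_1_rb8033094a_d43_d53_d41_d39_d43_d4d_d42_d36_d51_d29_d51_d0a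

theorem g_wQ_26_wN_1_rb8033094a_d43_d53_d41_d39_d43_d4d_d42_d36_d51_d29_d51_d09 : GoodKC AS c_wQ_26_wN_1_rb8033094a_d43_d53_d41_d39_d43_d4d_d42_d36_d51_d29_d51_d09 := p_wQ_26_wN_1_rb8033094a_d43_d53_d41_d39_d43_d4d_d42_d36_d51_d29_d51_d09

theorem g_wQ_26_wN_1_rb8033094a_d43_d53_d41_d39_d43_d4d_d42_d36_d51_d29_d51_d08 : GoodKC AS c_wQ_26_wN_1_rb8033094a_d43_d53_d41_d39_d43_d4d_d42_d36_d51_d29_d51_d08 := p_wQ_26_wN_1_rb8033094a_d43_d53_d41_d39_d43_d4d_d42_d36_d51_d29_d51_d08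

theorem g_wQ_26_wN_1_rb8033094a_d43_d53_d41_d39_d43_d4d_d42_d36_d51_d29_d51_d06 : GoodKC AS c_wQ_26_wN_1_rb8033094a_d43_d53_d41_d39_d43_d4d_d42_d36_d51_d29_d51_d06 := p_wQ_26_wN_1_rb8033094a_d43_d53_d41_d39_d43_d4d_d42_d36_d51_d29_d51_d06

theorem g_wQ_26_wN_1_rb8033094a_d43_d53_d41_d39_d43_d4d_d42_d36_d51_d29_d51_d05 : GoodKC AS c_wQ_26_wN_1_rb8033094a_d43_d53_d41_d39_d43_d4d_d42_d36_d51_d29_d51_d05 := p_wQ_26_wN_1_rb8033094a_d43_d53_d41_d39_d43_d4d_d42_d36_d51_d29_d51_d05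

theorem g_wQ_26_wN_1_rb8033094a_d43_d53_d41_d39_d43_d4d_d42_d36_d51_d29_d51_d04 : GoodKC AS c_wQ_26_wN_1_rb8033094a_d43_d53_d41_d39_d43_d4d_d42_d36_d51_d29_d51_d04 := p_wQ_26_wN_1_rb8033094a_d43_d53_d41_d39_d43_d4d_d42_d36_d51_d29_d51_d04

theorem g_wQ_26_wN_1_rb8033094a_d43_d53_d41_d39_d43_d4d_d42_d36_d51_d29_d51_d02 : GoodKC AS c_wQ_26_wN_1_rb8033094a_d43_d53_d41_d39_d43_d4d_d42_d36_d51_d29_d51_d02 := p_wQ_26_wN_1_rb8033094a_d43_d53_d41_d39_d43_d4d_d42_d36_d51_d29_d51_d02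

theorem g_wQ_26_wN_1_rb8033094a_d43_d53_d41_d39_d43_d4d_d42_d36_d51_d29_d51_d01 : GoodKC AS c_wQ_26_wN_1_rb8033094a_d43_d53_d41_d39_d43_d4d_d42_d36_d51_d29_d51_d01 := p_wQ_26_wN_1_rb8033094a_d43_d53_d41_d39_d43_d4d_d42_d36_d51_d29_d51_d01

theorem g__wQ_26_wN_1_rb8033094a_d43_d53_d41_d39_d43_d4d_d42_d36_d51_d29_d51_d00_0 : GoodKC AS k_wQ_26_wN_1_rb8033094a_d43_d53_d41_d39_d43_d4d_d42_d36_d51_d29_d51_d00_0 := p_wQ_26_wN_1_rb8033094a_d43_d53_d41_d39_d43_d4d_d42_d36_d51_d29_d51_d00_0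

theorem g__wQ_26_wN_1_rb8033094a_d43_d53_d41_d39_d43_d4d_d42_d36_d51_d29_d51_d00_1 : GoodKC AS k_wQ_26_wN_1_rb8033094a_d43_d53_d41_d39_d43_d4d_d42_d36_d51_d29_d51_d00_1 := p_wQ_26_wN_1_rb8033094a_d43_d53_d41_d39_d43_d4d_d42_d36_d51_d29_d51_d00_1

theorem g_wQ_26_wN_1_rb8033094a_d43_d53_d41_d39_d43_d4d_d42_d36_d51_d29_d51_d00 : GoodKC AS c_wQ_26_wN_1_rb8033094a_d43_d53_d41_d39_d43_d4d_d42_d36_d51_d29_d51_d00 := p_wQ_26_wN_1_rb8033094a_d43_d53_d41_d39_d43_d4d_d42_d36_d51_d29_d51_d00 g__wQ_26_wN_1_rb8033094a_d43_d53_d41_d39_d43_d4d_d42_d36_d51_d29_d51_d00_0 g__wQ_26_wN_1_rb8033094a_d43_d53_d41_d39_d43_d4d_d42_d36_d51_d29_d51_d00_1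

theorem g_wQ_26_wN_1_rb8033094a_d43_d53_d41_d39_d43_d4d_d42_d36_d51_d29_d51_d03 : GoodKC AS c_wQ_26_wN_1_rb8033094a_d43_d53_d41_d39_d43_d4d_d42_d36_d51_d29_d51_d03 := p_wQ_26_wN_1_rb8033094a_d43_d53_d41_d39_d43_d4d_d42_d36_d51_d29_d51_d03

theorem g_wQ_26_wN_1_rb8033094a_d43_d53_d41_d39_d43_d4d_d42_d36_d51_d29_d51_d07 : GoodKC AS c_wQ_26_wN_1_rb8033094a_d43_d53_d41_d39_d43_d4d_d42_d36_d51_d29_d51_d07 := p_wQ_26_wN_1_rb8033094a_d43_d53_d41_d39_d43_d4d_d42_d36_d51_d29_d51_d07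

theorem g_wQ_26_wN_1_rb8033094a_d43_d53_d41_d39_d43_d4d_d42_d36_d51_d29_d51_d0c : GoodKC AS c_wQ_26_wN_1_rb8033094a_d43_d53_d41_d39_d43_d4d_d42_d36_d51_d29_d51_d0c := p_wQ_26_wN_1_rb8033094a_d43_d53_d41_d39_d43_d4d_d42_d36_d51_d29_d51_d0c

theorem g_wQ_26_wN_1_rb8033094a_d43_d53_d41_d39_d43_d4d_d42_d36_d51_d29_d51_d0e : GoodKC AS c_wQ_26_wN_1_rb8033094a_d43_d53_d41_d39_d43_d4d_d42_d36_d51_d29_d51_d0e := p_wQ_26_wN_1_rb8033094a_d43_d53_d41_d39_d43_d4d_d42_d36_d51_d29_d51_d0e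

theorem g_wQ_26_wN_1_rb8033094a_d43_d53_d41_d39_d43_d4d_d42_d36_d51_d29_d51_d13 : GoodKC AS c_wQ_26_wN_1_rb8033094a_d43_d53_d41_d39_d43_d4d_d42_d36_d51_d29_d51_d13 := p_wQ_26_wN_1_rb8033094a_d43_d53_d41_d39_d43_d4d_d42_d36_d51_d29_d51_d13

theorem g_wQ_26_wN_1_rb8033094a_d43_d53_d41_d39_d43_d4d_d42_d36_d51_d29_d51_d14 : GoodKC AS c_wQ_26_wN_1_rb8033094a_d43_d53_d41_d39_d43_d4d_d42_d36_d51_d29_d51_d14 := p_wQ_26_wN_1_rb8033094a_d43_d53_d41_d39_d43_d4d_d42_d36_d51_d29_d51_d14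

theorem g_wQ_26_wN_1_rb8033094a_d43_d53_d41_d39_d43_d4d_d42_d36_d51_d29_d51_d15 : GoodKC AS c_wQ_26_wN_1_rb8033094a_d43_d53_d41_d39_d43_d4d_d42_d36_d51_d29_d51_d15 := p_wQ_26_wN_1_rb8033094a_d43_d53_d41_d39_d43_d4d_d42_d36_d51_d29_d51_d15

theorem g_wQ_26_wN_1_rb8033094a_d43_d53_d41_d39_d43_d4d_d42_d36_d51_d29_d51_d1a : GoodKC AS c_wQ_26_wN_1_rb8033094a_d43_d53_d41_d39_d43_d4d_d42_d36_d51_d29_d51_d1a := p_wQ_26_wN_1_rb8033094a_d43_d53_d41_d39_d43_d4d_d42_d36_d51_d29_d51_d1a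

theorem g_wQ_26_wN_1_rb8033094a_d43_d53_d41_d39_d43_d4d_d42_d36_d51_d29_d51_d20 : GoodKC AS c_wQ_26_wN_1_rb8033094a_d43_d53_d41_d39_d43_d4d_d42_d36_d51_d29_d51_d20 := p_wQ_26_wN_1_rb8033094a_d43_d53_d41_d39_d43_d4d_d42_d36_d51_d29_d51_d20

theorem g_wQ_26_wN_1_rb8033094a_d43_d53_d41_d39_d43_d4d_d42_d36_d51_d29_d51_d21 : GoodKC AS c_wQ_26_wN_1_rb8033094a_d43_d53_d41_d39_d43_d4d_d42_d36_d51_d29_d51_d21 := p_wQ_26_wN_1_rb8033094a_d43_d53_d41_d39_d43_d4d_d42_d36_d51_d29_d51_d21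

theorem g_wQ_26_wN_1_rb8033094a_d43_d53_d41_d39_d43_d4d_d42_d36_d51_d29_d51_d22 : GoodKC AS c_wQ_26_wN_1_rb8033094a_d43_d53_d41_d39_d43_d4d_d42_d36_d51_d29_d51_d22 := p_wQ_26_wN_1_rb8033094a_d43_d53_d41_d39_d43_d4d_d42_d36_d51_d29_d51_d22

theorem g_wQ_26_wN_1_rb8033094a_d43_d53_d41_d39_d43_d4d_d42_d36_d51_d29_d51_d25 : GoodKC AS c_wQ_26_wN_1_rb8033094a_d43_d53_d41_d39_d43_d4d_d42_d36_d51_d29_d51_d25 := p_wQ_26_wN_1_rb8033094a_d43_d53_d41_d39_d43_d4d_d42_d36_d51_d29_d51_d25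

theorem g__wQ_26_wN_1_rb8033094a_d43_d53_d41_d39_d43_d4d_d42_d36_d51_d29_d51_d26_0 : GoodKC AS k_wQ_26_wN_1_rb8033094a_d43_d53_d41_d39_d43_d4d_d42_d36_d51_d29_d51_d26_0 := p_wQ_26_wN_1_rb8033094a_d43_d53_d41_d39_d43_d4d_d42_d36_d51_d29_d51_d26_0

theorem g_wQ_26_wN_1_rb8033094a_d43_d53_d41_d39_d43_d4d_d42_d36_d51_d29_d51_d26 : GoodKC AS c_wQ_26_wN_1_rb8033094a_d43_d53_d41_d39_d43_d4d_d42_d36_d51_d29_d51_d26 := p_wQ_26_wN_1_rb8033094a_d43_d53_d41_d39_d43_d4d_d42_d36_d51_d29_d51_d26 g__wQ_26_wN_1_rb8033094a_d43_d53_d41_d39_d43_d4d_d42_d36_d51_d29_d51_d26_0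

theorem g_wQ_26_wN_1_rb8033094a_d43_d53_d41_d39_d43_d4d_d42_d36_d51_d29_d51_d28 : GoodKC AS c_wQ_26_wN_1_rb8033094a_d43_d53_d41_d39_d43_d4d_d42_d36_d51_d29_d51_d28 := p_wQ_26_wN_1_rb8033094a_d43_d53_d41_d39_d43_d4d_d42_d36_d51_d29_d51_d28

theorem g_wQ_26_wN_1_rb8033094a_d43_d53_d41_d39_d43_d4d_d42_d36_d51_d29 : GoodKC AS c_wQ_26_wN_1_rb8033094a_d43_d53_d41_d39_d43_d4d_d42_d36_d51_d29 := p_wQ_26_wN_1_rb8033094a_d43_d53_d41_d39_d43_d4d_d42_d36_d51_d29 g_wQ_26_wN_1_rb8033094a_d43_d53_d41_d39_d43_d4d_d42_d36_d51_d29_d51_d2a g_wQ_26_wN_1_rb8033094a_d43_d53_d41_d39_d43_d4d_d42_d36_d51_d29_d51_d29 g_wQ_26_wN_1_rb8033094a_d43_d53_d41_d39_d43_d4d_d42_d36_d51_d29_d51_d27 g_wQ_26_wN_1_rb8033094a_d43_d53_d41_d39_d43_d4d_d42_d36_d51_d29_d51_d24 g_wQ_26_wN_1_rb8033094a_d43_d53_d41_d39_d43_d4d_d42_d36_d51_d29_d51_d23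 g_wQ_26_wN_1_rb8033094a_d43_d53_d41_d39_d43_d4d_d42_d36_d51_d29_d51_d1f g_wQ_26_wN_1_rb8033094a_d43_d53_d41_d39_d43_d4d_d42_d36_d51_d29_d51_d1e g_wQ_26_wN_1_rb8033094a_d43_d53_d41_d39_d43_d4d_d42_d36_d51_d29_d51_d1d g_wQ_26_wN_1_rb8033094a_d43_d53_d41_d39_d43_d4d_d42_d36_d51_d29_d51_d1c g_wQ_26_wN_1_rb8033094a_d43_d53_d41_d39_d43_d4d_d42_d36_d51_d29_d51_d1b g_wQ_26_wN_1_rb8033094a_d43_d53_d41_d39_d43_d4d_d42_d36_d51_d29_d51_d19 g_wQ_26_wN_1_rb8033094a_d43_d53_d41_d39_d43_d4d_d42_d36_d51_d29_d51_d18 g_wQ_26_wN_1_rb8033094a_d43_d53_d41_d39_d43_d4d_d42_d36_d51_d29_d51_d17 g_wQ_26_wN_1_rb8033094a_d43_d53_d41_d39_d43_d4d_d42_d36_d51_d29_d51_d16 g_wQ_26_wN_1_rb8033094a_d43_d53_d41_d39_d43_d4d_d42_d36_d51_d29_d51_d12 g_wQ_26_wN_1_rb8033094a_d43_d53_d41_d39_d43_d4d_d42_d36_d51_d29_d51_d11 g_wQ_26_wN_1_rb8033094a_d43_d53_d41_d39_d43_d4d_d42_d36_d51_d29_d51_d10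 g_wQ_26_wN_1_rb8033094a_d43_d53_d41_d39_d43_d4d_d42_d36_d51_d29_d51_d0f g_wQ_26_wN_1_rb8033094a_d43_d53_d41_d39_d43_d4d_d42_d36_d51_d29_d51_d0d g_wQ_26_wN_1_rb8033094a_d43_d53_d41_d39_d43_d4d_d42_d36_d51_d29_d51_d0b g_wQ_26_wN_1_rb8033094a_d43_d53_d41_d39_d43_d4d_d42_d36_d51_d29_d51_d0a g_wQ_26_wN_1_rb8033094a_d43_d53_d41_d39_d43_d4d_d42_d36_d51_d29_d51_d09 g_wQ_26_wN_1_rb8033094a_d43_d53_d41_d39_d43_d4d_d42_d36_d51_d29_d51_d08 g_wQ_26_wN_1_rb8033094a_d43_d53_d41_d39_d43_d4d_d42_d36_d51_d29_d51_d06 g_wQ_26_wN_1_rb8033094a_d43_d53_d41_d39_d43_d4d_d42_d36_d51_d29_d51_d05 g_wQ_26_wN_1_rb8033094a_d43_d53_d41_d39_d43_d4d_d42_d36_d51_d29_d51_d04 g_wQ_26_wN_1_rb8033094a_d43_d53_d41_d39_d43_d4d_d42_d36_d51_d29_d51_d02 g_wQ_26_wN_1_rb8033094a_d43_d53_d41_d39_d43_d4d_d42_d36_d51_d29_d51_d01 g_wQ_26_wN_1_rb8033094a_d43_d53_d41_d39_d43_d4d_d42_d36_d51_d29_d51_d00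 g_wQ_26_wN_1_rb8033094a_d43_d53_d41_d39_d43_d4d_d42_d36_d51_d29_d51_d03 g_wQ_26_wN_1_rb8033094a_d43_d53_d41_d39_d43_d4d_d42_d36_d51_d29_d51_d07 g_wQ_26_wN_1_rb8033094a_d43_d53_d41_d39_d43_d4d_d42_d36_d51_d29_d51_d0c g_wQ_26_wN_1_rb8033094a_d43_d53_d41_d39_d43_d4d_d42_d36_d51_d29_d51_d0e g_wQ_26_wN_1_rb8033094a_d43_d53_d41_d39_d43_d4d_d42_d36_d51_d29_d51_d13 g_wQ_26_wN_1_rb8033094a_d43_d53_d41_d39_d43_d4d_d42_d36_d51_d29_d51_d14 g_wQ_26_wN_1_rb8033094a_d43_d53_d41_d39_d43_d4d_d42_d36_d51_d29_d51_d15 g_wQ_26_wN_1_rb8033094a_d43_d53_d41_d39_d43_d4d_d42_d36_d51_d29_d51_d1a g_wQ_26_wN_1_rb8033094a_d43_d53_d41_d39_d43_d4d_d42_d36_d51_d29_d51_d20 g_wQ_26_wN_1_rb8033094a_d43_d53_d41_d39_d43_d4d_d42_d36_d51_d29_d51_d21 g_wQ_26_wN_1_rb8033094a_d43_d53_d41_d39_d43_d4d_d42_d36_d51_d29_d51_d22 g_wQ_26_wN_1_rb8033094a_d43_d53_d41_d39_d43_d4d_d42_d36_d51_d29_d51_d25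 g_wQ_26_wN_1_rb8033094a_d43_d53_d41_d39_d43_d4d_d42_d36_d51_d29_d51_d26 g_wQ_26_wN_1_rb8033094a_d43_d53_d41_d39_d43_d4d_d42_d36_d51_d29_d51_d28

theorem g_wQ_26_wN_1_rb8033094a_d43_d53_d41_d39_d43_d4d_d42_d36_d51_d27 : GoodKC AS c_wQ_26_wN_1_rb8033094a_d43_d53_d41_d39_d43_d4d_d42_d36_d51_d27 := p_wQ_26_wN_1_rb8033094a_d43_d53_d41_d39_d43_d4d_d42_d36_d51_d27

theorem g_wQ_26_wN_1_rb8033094a_d43_d53_d41_d39_d43_d4d_d42_d36_d51_d26 : GoodKC AS c_wQ_26_wN_1_rb8033094a_d43_d53_d41_d39_d43_d4d_d42_d36_d51_d26 := p_wQ_26_wN_1_rb8033094a_d43_d53_d41_d39_d43_d4d_d42_d36_d51_d26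

theorem g_wQ_26_wN_1_rb8033094a_d43_d53_d41_d39_d43_d4d_d42_d36_d51_d25 : GoodKC AS c_wQ_26_wN_1_rb8033094a_d43_d53_d41_d39_d43_d4d_d42_d36_d51_d25 := p_wQ_26_wN_1_rb8033094a_d43_d53_d41_d39_d43_d4d_d42_d36_d51_d25

theorem g__wQ_26_wN_1_rb8033094a_d43_d53_d41_d39_d43_d4d_d42_d36_d51_d22_0 : GoodKC AS k_wQ_26_wN_1_rb8033094a_d43_d53_d41_d39_d43_d4d_d42_d36_d51_d22_0 := p_wQ_26_wN_1_rb8033094a_d43_d53_d41_d39_d43_d4d_d42_d36_d51_d22_0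

theorem g_wQ_26_wN_1_rb8033094a_d43_d53_d41_d39_d43_d4d_d42_d36_d51_d22 : GoodKC AS c_wQ_26_wN_1_rb8033094a_d43_d53_d41_d39_d43_d4d_d42_d36_d51_d22 := p_wQ_26_wN_1_rb8033094a_d43_d53_d41_d39_d43_d4d_d42_d36_d51_d22 g__wQ_26_wN_1_rb8033094a_d43_d53_d41_d39_d43_d4d_d42_d36_d51_d22_0

theorem g_wQ_26_wN_1_rb8033094a_d43_d53_d41_d39_d43_d4d_d42_d36_d51_d21 : GoodKC AS c_wQ_26_wN_1_rb8033094a_d43_d53_d41_d39_d43_d4d_d42_d36_d51_d21 := p_wQ_26_wN_1_rb8033094a_d43_d53_d41_d39_d43_d4d_d42_d36_d51_d21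

theorem g_wQ_26_wN_1_rb8033094a_d43_d53_d41_d39_d43_d4d_d42_d36_d51_d20 : GoodKC AS c_wQ_26_wN_1_rb8033094a_d43_d53_d41_d39_d43_d4d_d42_d36_d51_d20 := p_wQ_26_wN_1_rb8033094a_d43_d53_d41_d39_d43_d4d_d42_d36_d51_d20

theorem g_wQ_26_wN_1_rb8033094a_d43_d53_d41_d39_d43_d4d_d42_d36_d51_d1e : GoodKC AS c_wQ_26_wN_1_rb8033094a_d43_d53_d41_d39_d43_d4d_d42_d36_d51_d1e := p_wQ_26_wN_1_rb8033094a_d43_d53_d41_d39_d43_d4d_d42_d36_d51_d1e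

theorem g__wQ_26_wN_1_rb8033094a_d43_d53_d41_d39_d43_d4d_d42_d36_d51_d1d_0 : GoodKC AS k_wQ_26_wN_1_rb8033094a_d43_d53_d41_d39_d43_d4d_d42_d36_d51_d1d_0 := p_wQ_26_wN_1_rb8033094a_d43_d53_d41_d39_d43_d4d_d42_d36_d51_d1d_0

theorem g_wQ_26_wN_1_rb8033094a_d43_d53_d41_d39_d43_d4d_d42_d36_d51_d1d : GoodKC AS c_wQ_26_wN_1_rb8033094a_d43_d53_d41_d39_d43_d4d_d42_d36_d51_d1d := p_wQ_26_wN_1_rb8033094a_d43_d53_d41_d39_d43_d4d_d42_d36_d51_d1d g__wQ_26_wN_1_rb8033094a_d43_d53_d41_d39_d43_d4d_d42_d36_d51_d1d_0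

theorem g_wQ_26_wN_1_rb8033094a_d43_d53_d41_d39_d43_d4d_d42_d36_d51_d1c : GoodKC AS c_wQ_26_wN_1_rb8033094a_d43_d53_d41_d39_d43_d4d_d42_d36_d51_d1c := p_wQ_26_wN_1_rb8033094a_d43_d53_d41_d39_d43_d4d_d42_d36_d51_d1c

theorem g_wQ_26_wN_1_rb8033094a_d43_d53_d41_d39_d43_d4d_d42_d36_d51_d1b_d51_d0b : GoodKC AS c_wQ_26_wN_1_rb8033094a_d43_d53_d41_d39_d43_d4d_d42_d36_d51_d1b_d51_d0b := p_wQ_26_wN_1_rb8033094a_d43_d53_d41_d39_d43_d4d_d42_d36_d51_d1b_d51_d0b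

theorem g__wQ_26_wN_1_rb8033094a_d43_d53_d41_d39_d43_d4d_d42_d36_d51_d1b_d51_d0a_2 : GoodKC AS k_wQ_26_wN_1_rb8033094a_d43_d53_d41_d39_d43_d4d_d42_d36_d51_d1b_d51_d0a_2 := p_wQ_26_wN_1_rb8033094a_d43_d53_d41_d39_d43_d4d_d42_d36_d51_d1b_d51_d0a_2

theorem g__wQ_26_wN_1_rb8033094a_d43_d53_d41_d39_d43_d4d_d42_d36_d51_d1b_d51_d0a_3 : GoodKC AS k_wQ_26_wN_1_rb8033094a_d43_d53_d41_d39_d43_d4d_d42_d36_d51_d1b_d51_d0a_3 := p_wQ_26_wN_1_rb8033094a_d43_d53_d41_d39_d43_d4d_d42_d36_d51_d1b_d51_d0a_3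

theorem g__wQ_26_wN_1_rb8033094a_d43_d53_d41_d39_d43_d4d_d42_d36_d51_d1b_d51_d0a_1 : GoodKC AS k_wQ_26_wN_1_rb8033094a_d43_d53_d41_d39_d43_d4d_d42_d36_d51_d1b_d51_d0a_1 := p_wQ_26_wN_1_rb8033094a_d43_d53_d41_d39_d43_d4d_d42_d36_d51_d1b_d51_d0a_1 g__wQ_26_wN_1_rb8033094a_d43_d53_d41_d39_d43_d4d_d42_d36_d51_d1b_d51_d0a_2 g__wQ_26_wN_1_rb8033094a_d43_d53_d41_d39_d43_d4d_d42_d36_d51_d1b_d51_d0a_3

theorem g__wQ_26_wN_1_rb8033094a_d43_d53_d41_d39_d43_d4d_d42_d36_d51_d1b_d51_d0a_0 : GoodKC AS k_wQ_26_wN_1_rb8033094a_d43_d53_d41_d39_d43_d4d_d42_d36_d51_d1b_d51_d0a_0 := p_wQ_26_wN_1_rb8033094a_d43_d53_d41_d39_d43_d4d_d42_d36_d51_d1b_d51_d0a_0 g__wQ_26_wN_1_rb8033094a_d43_d53_d41_d39_d43_d4d_d42_d36_d51_d1b_d51_d0a_1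

theorem g_wQ_26_wN_1_rb8033094a_d43_d53_d41_d39_d43_d4d_d42_d36_d51_d1b_d51_d0a : GoodKC AS c_wQ_26_wN_1_rb8033094a_d43_d53_d41_d39_d43_d4d_d42_d36_d51_d1b_d51_d0a := p_wQ_26_wN_1_rb8033094a_d43_d53_d41_d39_d43_d4d_d42_d36_d51_d1b_d51_d0a g__wQ_26_wN_1_rb8033094a_d43_d53_d41_d39_d43_d4d_d42_d36_d51_d1b_d51_d0a_0

theorem g_wQ_26_wN_1_rb8033094a_d43_d53_d41_d39_d43_d4d_d42_d36_d51_d1b_d51_d06 : GoodKC AS c_wQ_26_wN_1_rb8033094a_d43_d53_d41_d39_d43_d4d_d42_d36_d51_d1b_d51_d06 := p_wQ_26_wN_1_rb8033094a_d43_d53_d41_d39_d43_d4d_d42_d36_d51_d1b_d51_d06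

theorem g__wQ_26_wN_1_rb8033094a_d43_d53_d41_d39_d43_d4d_d42_d36_d51_d1b_d51_d05_0 : GoodKC AS k_wQ_26_wN_1_rb8033094a_d43_d53_d41_d39_d43_d4d_d42_d36_d51_d1b_d51_d05_0 := p_wQ_26_wN_1_rb8033094a_d43_d53_d41_d39_d43_d4d_d42_d36_d51_d1b_d51_d05_0

theorem g_wQ_26_wN_1_rb8033094a_d43_d53_d41_d39_d43_d4d_d42_d36_d51_d1b_d51_d05 : GoodKC AS c_wQ_26_wN_1_rb8033094a_d43_d53_d41_d39_d43_d4d_d42_d36_d51_d1b_d51_d05 := p_wQ_26_wN_1_rb8033094a_d43_d53_d41_d39_d43_d4d_d42_d36_d51_d1b_d51_d05 g__wQ_26_wN_1_rb8033094a_d43_d53_d41_d39_d43_d4d_d42_d36_d51_d1b_d51_d05_0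

theorem g_wQ_26_wN_1_rb8033094a_d43_d53_d41_d39_d43_d4d_d42_d36_d51_d1b_d51_d04 : GoodKC AS c_wQ_26_wN_1_rb8033094a_d43_d53_d41_d39_d43_d4d_d42_d36_d51_d1b_d51_d04 := p_wQ_26_wN_1_rb8033094a_d43_d53_d41_d39_d43_d4d_d42_d36_d51_d1b_d51_d04

theorem g_wQ_26_wN_1_rb8033094a_d43_d53_d41_d39_d43_d4d_d42_d36_d51_d1b_d51_d03 : GoodKC AS c_wQ_26_wN_1_rb8033094a_d43_d53_d41_d39_d43_d4d_d42_d36_d51_d1b_d51_d03 := p_wQ_26_wN_1_rb8033094a_d43_d53_d41_d39_d43_d4d_d42_d36_d51_d1b_d51_d03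

theorem g_wQ_26_wN_1_rb8033094a_d43_d53_d41_d39_d43_d4d_d42_d36_d51_d1b_d51_d02 : GoodKC AS c_wQ_26_wN_1_rb8033094a_d43_d53_d41_d39_d43_d4d_d42_d36_d51_d1b_d51_d02 := p_wQ_26_wN_1_rb8033094a_d43_d53_d41_d39_d43_d4d_d42_d36_d51_d1b_d51_d02

theorem g_wQ_26_wN_1_rb8033094a_d43_d53_d41_d39_d43_d4d_d42_d36_d51_d1b_d51_d01 : GoodKC AS c_wQ_26_wN_1_rb8033094a_d43_d53_d41_d39_d43_d4d_d42_d36_d51_d1b_d51_d01 := p_wQ_26_wN_1_rb8033094a_d43_d53_d41_d39_d43_d4d_d42_d36_d51_d1b_d51_d01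

theorem g__wQ_26_wN_1_rb8033094a_d43_d53_d41_d39_d43_d4d_d42_d36_d51_d1b_d51_d00v1_2 : GoodKC AS k_wQ_26_wN_1_rb8033094a_d43_d53_d41_d39_d43_d4d_d42_d36_d51_d1b_d51_d00v1_2 := p_wQ_26_wN_1_rb8033094a_d43_d53_d41_d39_d43_d4d_d42_d36_d51_d1b_d51_d00v1_2

theorem g__wQ_26_wN_1_rb8033094a_d43_d53_d41_d39_d43_d4d_d42_d36_d51_d1b_d51_d00v1_1 : GoodKC AS k_wQ_26_wN_1_rb8033094a_d43_d53_d41_d39_d43_d4d_d42_d36_d51_d1b_d51_d00v1_1 := p_wQ_26_wN_1_rb8033094a_d43_d53_d41_d39_d43_d4d_d42_d36_d51_d1b_d51_d00v1_1 g__wQ_26_wN_1_rb8033094a_d43_d53_d41_d39_d43_d4d_d42_d36_d51_d1b_d51_d00v1_2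

theorem g__wQ_26_wN_1_rb8033094a_d43_d53_d41_d39_d43_d4d_d42_d36_d51_d1b_d51_d00v1_0 : GoodKC AS k_wQ_26_wN_1_rb8033094a_d43_d53_d41_d39_d43_d4d_d42_d36_d51_d1b_d51_d00v1_0 := p_wQ_26_wN_1_rb8033094a_d43_d53_d41_d39_d43_d4d_d42_d36_d51_d1b_d51_d00v1_0 g__wQ_26_wN_1_rb8033094a_d43_d53_d41_d39_d43_d4d_d42_d36_d51_d1b_d51_d00v1_1

theorem g__wQ_26_wN_1_rb8033094a_d43_d53_d41_d39_d43_d4d_d42_d36_d51_d1b_d51_d00v1_4 : GoodKC AS k_wQ_26_wN_1_rb8033094a_d43_d53_d41_d39_d43_d4d_d42_d36_d51_d1b_d51_d00v1_4 := p_wQ_26_wN_1_rb8033094a_d43_d53_d41_d39_d43_d4d_d42_d36_d51_d1b_d51_d00v1_4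

theorem g__wQ_26_wN_1_rb8033094a_d43_d53_d41_d39_d43_d4d_d42_d36_d51_d1b_d51_d00v1_3 : GoodKC AS k_wQ_26_wN_1_rb8033094a_d43_d53_d41_d39_d43_d4d_d42_d36_d51_d1b_d51_d00v1_3 := p_wQ_26_wN_1_rb8033094a_d43_d53_d41_d39_d43_d4d_d42_d36_d51_d1b_d51_d00v1_3 g__wQ_26_wN_1_rb8033094a_d43_d53_d41_d39_d43_d4d_d42_d36_d51_d1b_d51_d00v1_4

theorem g__wQ_26_wN_1_rb8033094a_d43_d53_d41_d39_d43_d4d_d42_d36_d51_d1b_d51_d00v1_5 : GoodKC AS k_wQ_26_wN_1_rb8033094a_d43_d53_d41_d39_d43_d4d_d42_d36_d51_d1b_d51_d00v1_5 := p_wQ_26_wN_1_rb8033094a_d43_d53_d41_d39_d43_d4d_d42_d36_d51_d1b_d51_d00v1_5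

theorem g__wQ_26_wN_1_rb8033094a_d43_d53_d41_d39_d43_d4d_d42_d36_d51_d1b_d51_d00v1_10 : GoodKC AS k_wQ_26_wN_1_rb8033094a_d43_d53_d41_d39_d43_d4d_d42_d36_d51_d1b_d51_d00v1_10 := p_wQ_26_wN_1_rb8033094a_d43_d53_d41_d39_d43_d4d_d42_d36_d51_d1b_d51_d00v1_10

theorem g__wQ_26_wN_1_rb8033094a_d43_d53_d41_d39_d43_d4d_d42_d36_d51_d1b_d51_d00v1_11 : GoodKC AS k_wQ_26_wN_1_rb8033094a_d43_d53_d41_d39_d43_d4d_d42_d36_d51_d1b_d51_d00v1_11 := p_wQ_26_wN_1_rb8033094a_d43_d53_d41_d39_d43_d4d_d42_d36_d51_d1b_d51_d00v1_11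

theorem g__wQ_26_wN_1_rb8033094a_d43_d53_d41_d39_d43_d4d_d42_d36_d51_d1b_d51_d00v1_9 : GoodKC AS k_wQ_26_wN_1_rb8033094a_d43_d53_d41_d39_d43_d4d_d42_d36_d51_d1b_d51_d00v1_9 := p_wQ_26_wN_1_rb8033094a_d43_d53_d41_d39_d43_d4d_d42_d36_d51_d1b_d51_d00v1_9 g__wQ_26_wN_1_rb8033094a_d43_d53_d41_d39_d43_d4d_d42_d36_d51_d1b_d51_d00v1_10 g__wQ_26_wN_1_rb8033094a_d43_d53_d41_d39_d43_d4d_d42_d36_d51_d1b_d51_d00v1_11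

theorem g__wQ_26_wN_1_rb8033094a_d43_d53_d41_d39_d43_d4d_d42_d36_d51_d1b_d51_d00v1_8 : GoodKC AS k_wQ_26_wN_1_rb8033094a_d43_d53_d41_d39_d43_d4d_d42_d36_d51_d1b_d51_d00v1_8 := p_wQ_26_wN_1_rb8033094a_d43_d53_d41_d39_d43_d4d_d42_d36_d51_d1b_d51_d00v1_8 g__wQ_26_wN_1_rb8033094a_d43_d53_d41_d39_d43_d4d_d42_d36_d51_d1b_d51_d00v1_9

theorem g__wQ_26_wN_1_rb8033094a_d43_d53_d41_d39_d43_d4d_d42_d36_d51_d1b_d51_d00v1_7 : GoodKC AS k_wQ_26_wN_1_rb8033094a_d43_d53_d41_d39_d43_d4d_d42_d36_d51_d1b_d51_d00v1_7 := p_wQ_26_wN_1_rb8033094a_d43_d53_d41_d39_d43_d4d_d42_d36_d51_d1b_d51_d00v1_7 g__wQ_26_wN_1_rb8033094a_d43_d53_d41_d39_d43_d4d_d42_d36_d51_d1b_d51_d00v1_8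

theorem g__wQ_26_wN_1_rb8033094a_d43_d53_d41_d39_d43_d4d_d42_d36_d51_d1b_d51_d00v1_6 : GoodKC AS k_wQ_26_wN_1_rb8033094a_d43_d53_d41_d39_d43_d4d_d42_d36_d51_d1b_d51_d00v1_6 := p_wQ_26_wN_1_rb8033094a_d43_d53_d41_d39_d43_d4d_d42_d36_d51_d1b_d51_d00v1_6 g__wQ_26_wN_1_rb8033094a_d43_d53_d41_d39_d43_d4d_d42_d36_d51_d1b_d51_d00v1_7

theorem g__wQ_26_wN_1_rb8033094a_d43_d53_d41_d39_d43_d4d_d42_d36_d51_d1b_d51_d00v1_14 : GoodKC AS k_wQ_26_wN_1_rb8033094a_d43_d53_d41_d39_d43_d4d_d42_d36_d51_d1b_d51_d00v1_14 := p_wQ_26_wN_1_rb8033094a_d43_d53_d41_d39_d43_d4d_d42_d36_d51_d1b_d51_d00v1_14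

theorem g__wQ_26_wN_1_rb8033094a_d43_d53_d41_d39_d43_d4d_d42_d36_d51_d1b_d51_d00v1_15 : GoodKC AS k_wQ_26_wN_1_rb8033094a_d43_d53_d41_d39_d43_d4d_d42_d36_d51_d1b_d51_d00v1_15 := p_wQ_26_wN_1_rb8033094a_d43_d53_d41_d39_d43_d4d_d42_d36_d51_d1b_d51_d00v1_15

theorem g__wQ_26_wN_1_rb8033094a_d43_d53_d41_d39_d43_d4d_d42_d36_d51_d1b_d51_d00v1_13 : GoodKC AS k_wQ_26_wN_1_rb8033094a_d43_d53_d41_d39_d43_d4d_d42_d36_d51_d1b_d51_d00v1_13 := p_wQ_26_wN_1_rb8033094a_d43_d53_d41_d39_d43_d4d_d42_d36_d51_d1b_d51_d00v1_13 g__wQ_26_wN_1_rb8033094a_d43_d53_d41_d39_d43_d4d_d42_d36_d51_d1b_d51_d00v1_14 g__wQ_26_wN_1_rb8033094a_d43_d53_d41_d39_d43_d4d_d42_d36_d51_d1b_d51_d00v1_15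

theorem g__wQ_26_wN_1_rb8033094a_d43_d53_d41_d39_d43_d4d_d42_d36_d51_d1b_d51_d00v1_12 : GoodKC AS k_wQ_26_wN_1_rb8033094a_d43_d53_d41_d39_d43_d4d_d42_d36_d51_d1b_d51_d00v1_12 := p_wQ_26_wN_1_rb8033094a_d43_d53_d41_d39_d43_d4d_d42_d36_d51_d1b_d51_d00v1_12 g__wQ_26_wN_1_rb8033094a_d43_d53_d41_d39_d43_d4d_d42_d36_d51_d1b_d51_d00v1_13

theorem g_wQ_26_wN_1_rb8033094a_d43_d53_d41_d39_d43_d4d_d42_d36_d51_d1b_d51_d00 : GoodKC AS c_wQ_26_wN_1_rb8033094a_d43_d53_d41_d39_d43_d4d_d42_d36_d51_d1b_d51_d00 := p_wQ_26_wN_1_rb8033094a_d43_d53_d41_d39_d43_d4d_d42_d36_d51_d1b_d51_d00v1 g__wQ_26_wN_1_rb8033094a_d43_d53_d41_d39_d43_d4d_d42_d36_d51_d1b_d51_d00v1_0 g__wQ_26_wN_1_rb8033094a_d43_d53_d41_d39_d43_d4d_d42_d36_d51_d1b_d51_d00v1_3 g__wQ_26_wN_1_rb8033094a_d43_d53_d41_d39_d43_d4d_d42_d36_d51_d1b_d51_d00v1_5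 g__wQ_26_wN_1_rb8033094a_d43_d53_d41_d39_d43_d4d_d42_d36_d51_d1b_d51_d00v1_6 g__wQ_26_wN_1_rb8033094a_d43_d53_d41_d39_d43_d4d_d42_d36_d51_d1b_d51_d00v1_12

theorem g_wQ_26_wN_1_rb8033094a_d43_d53_d41_d39_d43_d4d_d42_d36_d51_d1b_d51_d07 : GoodKC AS c_wQ_26_wN_1_rb8033094a_d43_d53_d41_d39_d43_d4d_d42_d36_d51_d1b_d51_d07 := p_wQ_26_wN_1_rb8033094a_d43_d53_d41_d39_d43_d4d_d42_d36_d51_d1b_d51_d07

theorem g_wQ_26_wN_1_rb8033094a_d43_d53_d41_d39_d43_d4d_d42_d36_d51_d1b_d51_d08 : GoodKC AS c_wQ_26_wN_1_rb8033094a_d43_d53_d41_d39_d43_d4d_d42_d36_d51_d1b_d51_d08 := p_wQ_26_wN_1_rb8033094a_d43_d53_d41_d39_d43_d4d_d42_d36_d51_d1b_d51_d08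

theorem g_wQ_26_wN_1_rb8033094a_d43_d53_d41_d39_d43_d4d_d42_d36_d51_d1b_d51_d09 : GoodKC AS c_wQ_26_wN_1_rb8033094a_d43_d53_d41_d39_d43_d4d_d42_d36_d51_d1b_d51_d09 := p_wQ_26_wN_1_rb8033094a_d43_d53_d41_d39_d43_d4d_d42_d36_d51_d1b_d51_d09

theorem g__wQ_26_wN_1_rb8033094a_d43_d53_d41_d39_d43_d4d_d42_d36_d51_d1b_d51_d0cv1_0 : GoodKC AS k_wQ_26_wN_1_rb8033094a_d43_d53_d41_d39_d43_d4d_d42_d36_d51_d1b_d51_d0cv1_0 := p_wQ_26_wN_1_rb8033094a_d43_d53_d41_d39_d43_d4d_d42_d36_d51_d1b_d51_d0cv1_0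

theorem g__wQ_26_wN_1_rb8033094a_d43_d53_d41_d39_d43_d4d_d42_d36_d51_d1b_d51_d0cv1_4 : GoodKC AS k_wQ_26_wN_1_rb8033094a_d43_d53_d41_d39_d43_d4d_d42_d36_d51_d1b_d51_d0cv1_4 := p_wQ_26_wN_1_rb8033094a_d43_d53_d41_d39_d43_d4d_d42_d36_d51_d1b_d51_d0cv1_4

theorem g__wQ_26_wN_1_rb8033094a_d43_d53_d41_d39_d43_d4d_d42_d36_d51_d1b_d51_d0cv1_8 : GoodKC AS k_wQ_26_wN_1_rb8033094a_d43_d53_d41_d39_d43_d4d_d42_d36_d51_d1b_d51_d0cv1_8 := p_wQ_26_wN_1_rb8033094a_d43_d53_d41_d39_d43_d4d_d42_d36_d51_d1b_d51_d0cv1_8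

theorem g__wQ_26_wN_1_rb8033094a_d43_d53_d41_d39_d43_d4d_d42_d36_d51_d1b_d51_d0cv1_7 : GoodKC AS k_wQ_26_wN_1_rb8033094a_d43_d53_d41_d39_d43_d4d_d42_d36_d51_d1b_d51_d0cv1_7 := p_wQ_26_wN_1_rb8033094a_d43_d53_d41_d39_d43_d4d_d42_d36_d51_d1b_d51_d0cv1_7 g__wQ_26_wN_1_rb8033094a_d43_d53_d41_d39_d43_d4d_d42_d36_d51_d1b_d51_d0cv1_8

theorem g__wQ_26_wN_1_rb8033094a_d43_d53_d41_d39_d43_d4d_d42_d36_d51_d1b_d51_d0cv1_6 : GoodKC AS k_wQ_26_wN_1_rb8033094a_d43_d53_d41_d39_d43_d4d_d42_d36_d51_d1b_d51_d0cv1_6 := p_wQ_26_wN_1_rb8033094a_d43_d53_d41_d39_d43_d4d_d42_d36_d51_d1b_d51_d0cv1_6 g__wQ_26_wN_1_rb8033094a_d43_d53_d41_d39_d43_d4d_d42_d36_d51_d1b_d51_d0cv1_7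

theorem g__wQ_26_wN_1_rb8033094a_d43_d53_d41_d39_d43_d4d_d42_d36_d51_d1b_d51_d0cv1_5 : GoodKC AS k_wQ_26_wN_1_rb8033094a_d43_d53_d41_d39_d43_d4d_d42_d36_d51_d1b_d51_d0cv1_5 := p_wQ_26_wN_1_rb8033094a_d43_d53_d41_d39_d43_d4d_d42_d36_d51_d1b_d51_d0cv1_5 g__wQ_26_wN_1_rb8033094a_d43_d53_d41_d39_d43_d4d_d42_d36_d51_d1b_d51_d0cv1_6

theorem g__wQ_26_wN_1_rb8033094a_d43_d53_d41_d39_d43_d4d_d42_d36_d51_d1b_d51_d0cv1_3 : GoodKC AS k_wQ_26_wN_1_rb8033094a_d43_d53_d41_d39_d43_d4d_d42_d36_d51_d1b_d51_d0cv1_3 := p_wQ_26_wN_1_rb8033094a_d43_d53_d41_d39_d43_d4d_d42_d36_d51_d1b_d51_d0cv1_3 g__wQ_26_wN_1_rb8033094a_d43_d53_d41_d39_d43_d4d_d42_d36_d51_d1b_d51_d0cv1_4 g__wQ_26_wN_1_rb8033094a_d43_d53_d41_d39_d43_d4d_d42_d36_d51_d1b_d51_d0cv1_5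

theorem g__wQ_26_wN_1_rb8033094a_d43_d53_d41_d39_d43_d4d_d42_d36_d51_d1b_d51_d0cv1_9 : GoodKC AS k_wQ_26_wN_1_rb8033094a_d43_d53_d41_d39_d43_d4d_d42_d36_d51_d1b_d51_d0cv1_9 := p_wQ_26_wN_1_rb8033094a_d43_d53_d41_d39_d43_d4d_d42_d36_d51_d1b_d51_d0cv1_9

theorem g__wQ_26_wN_1_rb8033094a_d43_d53_d41_d39_d43_d4d_d42_d36_d51_d1b_d51_d0cv1_2 : GoodKC AS k_wQ_26_wN_1_rb8033094a_d43_d53_d41_d39_d43_d4d_d42_d36_d51_d1b_d51_d0cv1_2 := p_wQ_26_wN_1_rb8033094a_d43_d53_d41_d39_d43_d4d_d42_d36_d51_d1b_d51_d0cv1_2 g__wQ_26_wN_1_rb8033094a_d43_d53_d41_d39_d43_d4d_d42_d36_d51_d1b_d51_d0cv1_3 g__wQ_26_wN_1_rb8033094a_d43_d53_d41_d39_d43_d4d_d42_d36_d51_d1b_d51_d0cv1_9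

theorem g__wQ_26_wN_1_rb8033094a_d43_d53_d41_d39_d43_d4d_d42_d36_d51_d1b_d51_d0cv1_13 : GoodKC AS k_wQ_26_wN_1_rb8033094a_d43_d53_d41_d39_d43_d4d_d42_d36_d51_d1b_d51_d0cv1_13 := p_wQ_26_wN_1_rb8033094a_d43_d53_d41_d39_d43_d4d_d42_d36_d51_d1b_d51_d0cv1_13

theorem g__wQ_26_wN_1_rb8033094a_d43_d53_d41_d39_d43_d4d_d42_d36_d51_d1b_d51_d0cv1_12 : GoodKC AS k_wQ_26_wN_1_rb8033094a_d43_d53_d41_d39_d43_d4d_d42_d36_d51_d1b_d51_d0cv1_12 := p_wQ_26_wN_1_rb8033094a_d43_d53_d41_d39_d43_d4d_d42_d36_d51_d1b_d51_d0cv1_12 g__wQ_26_wN_1_rb8033094a_d43_d53_d41_d39_d43_d4d_d42_d36_d51_d1b_d51_d0cv1_13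

theorem g__wQ_26_wN_1_rb8033094a_d43_d53_d41_d39_d43_d4d_d42_d36_d51_d1b_d51_d0cv1_11 : GoodKC AS k_wQ_26_wN_1_rb8033094a_d43_d53_d41_d39_d43_d4d_d42_d36_d51_d1b_d51_d0cv1_11 := p_wQ_26_wN_1_rb8033094a_d43_d53_d41_d39_d43_d4d_d42_d36_d51_d1b_d51_d0cv1_11 g__wQ_26_wN_1_rb8033094a_d43_d53_d41_d39_d43_d4d_d42_d36_d51_d1b_d51_d0cv1_12

theorem g__wQ_26_wN_1_rb8033094a_d43_d53_d41_d39_d43_d4d_d42_d36_d51_d1b_d51_d0cv1_10 : GoodKC AS k_wQ_26_wN_1_rb8033094a_d43_d53_d41_d39_d43_d4d_d42_d36_d51_d1b_d51_d0cv1_10 := p_wQ_26_wN_1_rb8033094a_d43_d53_d41_d39_d43_d4d_d42_d36_d51_d1b_d51_d0cv1_10 g__wQ_26_wN_1_rb8033094a_d43_d53_d41_d39_d43_d4d_d42_d36_d51_d1b_d51_d0cv1_11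

theorem g__wQ_26_wN_1_rb8033094a_d43_d53_d41_d39_d43_d4d_d42_d36_d51_d1b_d51_d0cv1_15 : GoodKC AS k_wQ_26_wN_1_rb8033094a_d43_d53_d41_d39_d43_d4d_d42_d36_d51_d1b_d51_d0cv1_15 := p_wQ_26_wN_1_rb8033094a_d43_d53_d41_d39_d43_d4d_d42_d36_d51_d1b_d51_d0cv1_15

theorem g__wQ_26_wN_1_rb8033094a_d43_d53_d41_d39_d43_d4d_d42_d36_d51_d1b_d51_d0cv1_14 : GoodKC AS k_wQ_26_wN_1_rb8033094a_d43_d53_d41_d39_d43_d4d_d42_d36_d51_d1b_d51_d0cv1_14 := p_wQ_26_wN_1_rb8033094a_d43_d53_d41_d39_d43_d4d_d42_d36_d51_d1b_d51_d0cv1_14 g__wQ_26_wN_1_rb8033094a_d43_d53_d41_d39_d43_d4d_d42_d36_d51_d1b_d51_d0cv1_15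

theorem g__wQ_26_wN_1_rb8033094a_d43_d53_d41_d39_d43_d4d_d42_d36_d51_d1b_d51_d0cv1_1 : GoodKC AS k_wQ_26_wN_1_rb8033094a_d43_d53_d41_d39_d43_d4d_d42_d36_d51_d1b_d51_d0cv1_1 := p_wQ_26_wN_1_rb8033094a_d43_d53_d41_d39_d43_d4d_d42_d36_d51_d1b_d51_d0cv1_1 g__wQ_26_wN_1_rb8033094a_d43_d53_d41_d39_d43_d4d_d42_d36_d51_d1b_d51_d0cv1_2 g__wQ_26_wN_1_rb8033094a_d43_d53_d41_d39_d43_d4d_d42_d36_d51_d1b_d51_d0cv1_10 g__wQ_26_wN_1_rb8033094a_d43_d53_d41_d39_d43_d4d_d42_d36_d51_d1b_d51_d0cv1_14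

theorem g_wQ_26_wN_1_rb8033094a_d43_d53_d41_d39_d43_d4d_d42_d36_d51_d1b_d51_d0c : GoodKC AS c_wQ_26_wN_1_rb8033094a_d43_d53_d41_d39_d43_d4d_d42_d36_d51_d1b_d51_d0c := p_wQ_26_wN_1_rb8033094a_d43_d53_d41_d39_d43_d4d_d42_d36_d51_d1b_d51_d0cv1 g__wQ_26_wN_1_rb8033094a_d43_d53_d41_d39_d43_d4d_d42_d36_d51_d1b_d51_d0cv1_0 g__wQ_26_wN_1_rb8033094a_d43_d53_d41_d39_d43_d4d_d42_d36_d51_d1b_d51_d0cv1_1

theorem g_wQ_26_wN_1_rb8033094a_d43_d53_d41_d39_d43_d4d_d42_d36_d51_d1b : GoodKC AS c_wQ_26_wN_1_rb8033094a_d43_d53_d41_d39_d43_d4d_d42_d36_d51_d1b := p_wQ_26_wN_1_rb8033094a_d43_d53_d41_d39_d43_d4d_d42_d36_d51_d1b g_wQ_26_wN_1_rb8033094a_d43_d53_d41_d39_d43_d4d_d42_d36_d51_d1b_d51_d0b g_wQ_26_wN_1_rb8033094a_d43_d53_d41_d39_d43_d4d_d42_d36_d51_d1b_d51_d0a g_wQ_26_wN_1_rb8033094a_d43_d53_d41_d39_d43_d4d_d42_d36_d51_d1b_d51_d06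 g_wQ_26_wN_1_rb8033094a_d43_d53_d41_d39_d43_d4d_d42_d36_d51_d1b_d51_d05 g_wQ_26_wN_1_rb8033094a_d43_d53_d41_d39_d43_d4d_d42_d36_d51_d1b_d51_d04 g_wQ_26_wN_1_rb8033094a_d43_d53_d41_d39_d43_d4d_d42_d36_d51_d1b_d51_d03 g_wQ_26_wN_1_rb8033094a_d43_d53_d41_d39_d43_d4d_d42_d36_d51_d1b_d51_d02 g_wQ_26_wN_1_rb8033094a_d43_d53_d41_d39_d43_d4d_d42_d36_d51_d1b_d51_d01 g_wQ_26_wN_1_rb8033094a_d43_d53_d41_d39_d43_d4d_d42_d36_d51_d1b_d51_d00 g_wQ_26_wN_1_rb8033094a_d43_d53_d41_d39_d43_d4d_d42_d36_d51_d1b_d51_d07 g_wQ_26_wN_1_rb8033094a_d43_d53_d41_d39_d43_d4d_d42_d36_d51_d1b_d51_d08 g_wQ_26_wN_1_rb8033094a_d43_d53_d41_d39_d43_d4d_d42_d36_d51_d1b_d51_d09 g_wQ_26_wN_1_rb8033094a_d43_d53_d41_d39_d43_d4d_d42_d36_d51_d1b_d51_d0c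

theorem g_wQ_26_wN_1_rb8033094a_d43_d53_d41_d39_d43_d4d_d42_d36_d51_d19 : GoodKC AS c_wQ_26_wN_1_rb8033094a_d43_d53_d41_d39_d43_d4d_d42_d36_d51_d19 := p_wQ_26_wN_1_rb8033094a_d43_d53_d41_d39_d43_d4d_d42_d36_d51_d19

theorem g__wQ_26_wN_1_rb8033094a_d43_d53_d41_d39_d43_d4d_d42_d36_d51_d18_0 : GoodKC AS k_wQ_26_wN_1_rb8033094a_d43_d53_d41_d39_d43_d4d_d42_d36_d51_d18_0 := p_wQ_26_wN_1_rb8033094a_d43_d53_d41_d39_d43_d4d_d42_d36_d51_d18_0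

theorem g_wQ_26_wN_1_rb8033094a_d43_d53_d41_d39_d43_d4d_d42_d36_d51_d18 : GoodKC AS c_wQ_26_wN_1_rb8033094a_d43_d53_d41_d39_d43_d4d_d42_d36_d51_d18 := p_wQ_26_wN_1_rb8033094a_d43_d53_d41_d39_d43_d4d_d42_d36_d51_d18 g__wQ_26_wN_1_rb8033094a_d43_d53_d41_d39_d43_d4d_d42_d36_d51_d18_0

theorem g_wQ_26_wN_1_rb8033094a_d43_d53_d41_d39_d43_d4d_d42_d36_d51_d15 : GoodKC AS c_wQ_26_wN_1_rb8033094a_d43_d53_d41_d39_d43_d4d_d42_d36_d51_d15 := p_wQ_26_wN_1_rb8033094a_d43_d53_d41_d39_d43_d4d_d42_d36_d51_d15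

theorem g_wQ_26_wN_1_rb8033094a_d43_d53_d41_d39_d43_d4d_d42_d36_d51_d14 : GoodKC AS c_wQ_26_wN_1_rb8033094a_d43_d53_d41_d39_d43_d4d_d42_d36_d51_d14 := p_wQ_26_wN_1_rb8033094a_d43_d53_d41_d39_d43_d4d_d42_d36_d51_d14

theorem g_wQ_26_wN_1_rb8033094a_d43_d53_d41_d39_d43_d4d_d42_d36_d51_d12 : GoodKC AS c_wQ_26_wN_1_rb8033094a_d43_d53_d41_d39_d43_d4d_d42_d36_d51_d12 := p_wQ_26_wN_1_rb8033094a_d43_d53_d41_d39_d43_d4d_d42_d36_d51_d12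

theorem g_wQ_26_wN_1_rb8033094a_d43_d53_d41_d39_d43_d4d_d42_d36_d51_d10 : GoodKC AS c_wQ_26_wN_1_rb8033094a_d43_d53_d41_d39_d43_d4d_d42_d36_d51_d10 := p_wQ_26_wN_1_rb8033094a_d43_d53_d41_d39_d43_d4d_d42_d36_d51_d10

theorem g_wQ_26_wN_1_rb8033094a_d43_d53_d41_d39_d43_d4d_d42_d36_d51_d0e : GoodKC AS c_wQ_26_wN_1_rb8033094a_d43_d53_d41_d39_d43_d4d_d42_d36_d51_d0e := p_wQ_26_wN_1_rb8033094a_d43_d53_d41_d39_d43_d4d_d42_d36_d51_d0e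

theorem g_wQ_26_wN_1_rb8033094a_d43_d53_d41_d39_d43_d4d_d42_d36_d51_d0d : GoodKC AS c_wQ_26_wN_1_rb8033094a_d43_d53_d41_d39_d43_d4d_d42_d36_d51_d0d := p_wQ_26_wN_1_rb8033094a_d43_d53_d41_d39_d43_d4d_d42_d36_d51_d0d

theorem g_wQ_26_wN_1_rb8033094a_d43_d53_d41_d39_d43_d4d_d42_d36_d51_d0c : GoodKC AS c_wQ_26_wN_1_rb8033094a_d43_d53_d41_d39_d43_d4d_d42_d36_d51_d0c := p_wQ_26_wN_1_rb8033094a_d43_d53_d41_d39_d43_d4d_d42_d36_d51_d0c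

theorem g_wQ_26_wN_1_rb8033094a_d43_d53_d41_d39_d43_d4d_d42_d36_d51_d0b : GoodKC AS c_wQ_26_wN_1_rb8033094a_d43_d53_d41_d39_d43_d4d_d42_d36_d51_d0b := p_wQ_26_wN_1_rb8033094a_d43_d53_d41_d39_d43_d4d_d42_d36_d51_d0b

theorem g_wQ_26_wN_1_rb8033094a_d43_d53_d41_d39_d43_d4d_d42_d36_d51_d0a : GoodKC AS c_wQ_26_wN_1_rb8033094a_d43_d53_d41_d39_d43_d4d_d42_d36_d51_d0a := p_wQ_26_wN_1_rb8033094a_d43_d53_d41_d39_d43_d4d_d42_d36_d51_d0a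

theorem g_wQ_26_wN_1_rb8033094a_d43_d53_d41_d39_d43_d4d_d42_d36_d51_d09 : GoodKC AS c_wQ_26_wN_1_rb8033094a_d43_d53_d41_d39_d43_d4d_d42_d36_d51_d09 := p_wQ_26_wN_1_rb8033094a_d43_d53_d41_d39_d43_d4d_d42_d36_d51_d09

theorem g_wQ_26_wN_1_rb8033094a_d43_d53_d41_d39_d43_d4d_d42_d36_d51_d08 : GoodKC AS c_wQ_26_wN_1_rb8033094a_d43_d53_d41_d39_d43_d4d_d42_d36_d51_d08 := p_wQ_26_wN_1_rb8033094a_d43_d53_d41_d39_d43_d4d_d42_d36_d51_d08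

theorem g_wQ_26_wN_1_rb8033094a_d43_d53_d41_d39_d43_d4d_d42_d36_d51_d07 : GoodKC AS c_wQ_26_wN_1_rb8033094a_d43_d53_d41_d39_d43_d4d_d42_d36_d51_d07 := p_wQ_26_wN_1_rb8033094a_d43_d53_d41_d39_d43_d4d_d42_d36_d51_d07

theorem g_wQ_26_wN_1_rb8033094a_d43_d53_d41_d39_d43_d4d_d42_d36_d51_d05 : GoodKC AS c_wQ_26_wN_1_rb8033094a_d43_d53_d41_d39_d43_d4d_d42_d36_d51_d05 := p_wQ_26_wN_1_rb8033094a_d43_d53_d41_d39_d43_d4d_d42_d36_d51_d05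

theorem g_wQ_26_wN_1_rb8033094a_d43_d53_d41_d39_d43_d4d_d42_d36_d51_d04 : GoodKC AS c_wQ_26_wN_1_rb8033094a_d43_d53_d41_d39_d43_d4d_d42_d36_d51_d04 := p_wQ_26_wN_1_rb8033094a_d43_d53_d41_d39_d43_d4d_d42_d36_d51_d04

theorem g_wQ_26_wN_1_rb8033094a_d43_d53_d41_d39_d43_d4d_d42_d36_d51_d02 : GoodKC AS c_wQ_26_wN_1_rb8033094a_d43_d53_d41_d39_d43_d4d_d42_d36_d51_d02 := p_wQ_26_wN_1_rb8033094a_d43_d53_d41_d39_d43_d4d_d42_d36_d51_d02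

theorem g_wQ_26_wN_1_rb8033094a_d43_d53_d41_d39_d43_d4d_d42_d36_d51_d01 : GoodKC AS c_wQ_26_wN_1_rb8033094a_d43_d53_d41_d39_d43_d4d_d42_d36_d51_d01 := p_wQ_26_wN_1_rb8033094a_d43_d53_d41_d39_d43_d4d_d42_d36_d51_d01

theorem g__wQ_26_wN_1_rb8033094a_d43_d53_d41_d39_d43_d4d_d42_d36_d51_d00_5 : GoodKC AS k_wQ_26_wN_1_rb8033094a_d43_d53_d41_d39_d43_d4d_d42_d36_d51_d00_5 := p_wQ_26_wN_1_rb8033094a_d43_d53_d41_d39_d43_d4d_d42_d36_d51_d00_5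

theorem g__wQ_26_wN_1_rb8033094a_d43_d53_d41_d39_d43_d4d_d42_d36_d51_d00_4 : GoodKC AS k_wQ_26_wN_1_rb8033094a_d43_d53_d41_d39_d43_d4d_d42_d36_d51_d00_4 := p_wQ_26_wN_1_rb8033094a_d43_d53_d41_d39_d43_d4d_d42_d36_d51_d00_4 g__wQ_26_wN_1_rb8033094a_d43_d53_d41_d39_d43_d4d_d42_d36_d51_d00_5

theorem g__wQ_26_wN_1_rb8033094a_d43_d53_d41_d39_d43_d4d_d42_d36_d51_d00_3 : GoodKC AS k_wQ_26_wN_1_rb8033094a_d43_d53_d41_d39_d43_d4d_d42_d36_d51_d00_3 := p_wQ_26_wN_1_rb8033094a_d43_d53_d41_d39_d43_d4d_d42_d36_d51_d00_3 g__wQ_26_wN_1_rb8033094a_d43_d53_d41_d39_d43_d4d_d42_d36_d51_d00_4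

theorem g__wQ_26_wN_1_rb8033094a_d43_d53_d41_d39_d43_d4d_d42_d36_d51_d00_2 : GoodKC AS k_wQ_26_wN_1_rb8033094a_d43_d53_d41_d39_d43_d4d_d42_d36_d51_d00_2 := p_wQ_26_wN_1_rb8033094a_d43_d53_d41_d39_d43_d4d_d42_d36_d51_d00_2 g__wQ_26_wN_1_rb8033094a_d43_d53_d41_d39_d43_d4d_d42_d36_d51_d00_3

theorem g__wQ_26_wN_1_rb8033094a_d43_d53_d41_d39_d43_d4d_d42_d36_d51_d00_1 : GoodKC AS k_wQ_26_wN_1_rb8033094a_d43_d53_d41_d39_d43_d4d_d42_d36_d51_d00_1 := p_wQ_26_wN_1_rb8033094a_d43_d53_d41_d39_d43_d4d_d42_d36_d51_d00_1 g__wQ_26_wN_1_rb8033094a_d43_d53_d41_d39_d43_d4d_d42_d36_d51_d00_2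

theorem g__wQ_26_wN_1_rb8033094a_d43_d53_d41_d39_d43_d4d_d42_d36_d51_d00_0 : GoodKC AS k_wQ_26_wN_1_rb8033094a_d43_d53_d41_d39_d43_d4d_d42_d36_d51_d00_0 := p_wQ_26_wN_1_rb8033094a_d43_d53_d41_d39_d43_d4d_d42_d36_d51_d00_0 g__wQ_26_wN_1_rb8033094a_d43_d53_d41_d39_d43_d4d_d42_d36_d51_d00_1

theorem g_wQ_26_wN_1_rb8033094a_d43_d53_d41_d39_d43_d4d_d42_d36_d51_d00 : GoodKC AS c_wQ_26_wN_1_rb8033094a_d43_d53_d41_d39_d43_d4d_d42_d36_d51_d00 := p_wQ_26_wN_1_rb8033094a_d43_d53_d41_d39_d43_d4d_d42_d36_d51_d00 g__wQ_26_wN_1_rb8033094a_d43_d53_d41_d39_d43_d4d_d42_d36_d51_d00_0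

theorem g_wQ_26_wN_1_rb8033094a_d43_d53_d41_d39_d43_d4d_d42_d36_d51_d03 : GoodKC AS c_wQ_26_wN_1_rb8033094a_d43_d53_d41_d39_d43_d4d_d42_d36_d51_d03 := p_wQ_26_wN_1_rb8033094a_d43_d53_d41_d39_d43_d4d_d42_d36_d51_d03

theorem g_wQ_26_wN_1_rb8033094a_d43_d53_d41_d39_d43_d4d_d42_d36_d51_d06 : GoodKC AS c_wQ_26_wN_1_rb8033094a_d43_d53_d41_d39_d43_d4d_d42_d36_d51_d06 := p_wQ_26_wN_1_rb8033094a_d43_d53_d41_d39_d43_d4d_d42_d36_d51_d06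

theorem g__wQ_26_wN_1_rb8033094a_d43_d53_d41_d39_d43_d4d_d42_d36_d51_d0f_1 : GoodKC AS k_wQ_26_wN_1_rb8033094a_d43_d53_d41_d39_d43_d4d_d42_d36_d51_d0f_1 := p_wQ_26_wN_1_rb8033094a_d43_d53_d41_d39_d43_d4d_d42_d36_d51_d0f_1

theorem g__wQ_26_wN_1_rb8033094a_d43_d53_d41_d39_d43_d4d_d42_d36_d51_d0f_0 : GoodKC AS k_wQ_26_wN_1_rb8033094a_d43_d53_d41_d39_d43_d4d_d42_d36_d51_d0f_0 := p_wQ_26_wN_1_rb8033094a_d43_d53_d41_d39_d43_d4d_d42_d36_d51_d0f_0 g__wQ_26_wN_1_rb8033094a_d43_d53_d41_d39_d43_d4d_d42_d36_d51_d0f_1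

theorem g_wQ_26_wN_1_rb8033094a_d43_d53_d41_d39_d43_d4d_d42_d36_d51_d0f : GoodKC AS c_wQ_26_wN_1_rb8033094a_d43_d53_d41_d39_d43_d4d_d42_d36_d51_d0f := p_wQ_26_wN_1_rb8033094a_d43_d53_d41_d39_d43_d4d_d42_d36_d51_d0f g__wQ_26_wN_1_rb8033094a_d43_d53_d41_d39_d43_d4d_d42_d36_d51_d0f_0

theorem g__wQ_26_wN_1_rb8033094a_d43_d53_d41_d39_d43_d4d_d42_d36_d51_d11_7 : GoodKC AS k_wQ_26_wN_1_rb8033094a_d43_d53_d41_d39_d43_d4d_d42_d36_d51_d11_7 := p_wQ_26_wN_1_rb8033094a_d43_d53_d41_d39_d43_d4d_d42_d36_d51_d11_7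

theorem g__wQ_26_wN_1_rb8033094a_d43_d53_d41_d39_d43_d4d_d42_d36_d51_d11_6 : GoodKC AS k_wQ_26_wN_1_rb8033094a_d43_d53_d41_d39_d43_d4d_d42_d36_d51_d11_6 := p_wQ_26_wN_1_rb8033094a_d43_d53_d41_d39_d43_d4d_d42_d36_d51_d11_6 g__wQ_26_wN_1_rb8033094a_d43_d53_d41_d39_d43_d4d_d42_d36_d51_d11_7

theorem g__wQ_26_wN_1_rb8033094a_d43_d53_d41_d39_d43_d4d_d42_d36_d51_d11_5 : GoodKC AS k_wQ_26_wN_1_rb8033094a_d43_d53_d41_d39_d43_d4d_d42_d36_d51_d11_5 := p_wQ_26_wN_1_rb8033094a_d43_d53_d41_d39_d43_d4d_d42_d36_d51_d11_5 g__wQ_26_wN_1_rb8033094a_d43_d53_d41_d39_d43_d4d_d42_d36_d51_d11_6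

theorem g__wQ_26_wN_1_rb8033094a_d43_d53_d41_d39_d43_d4d_d42_d36_d51_d11_4 : GoodKC AS k_wQ_26_wN_1_rb8033094a_d43_d53_d41_d39_d43_d4d_d42_d36_d51_d11_4 := p_wQ_26_wN_1_rb8033094a_d43_d53_d41_d39_d43_d4d_d42_d36_d51_d11_4 g__wQ_26_wN_1_rb8033094a_d43_d53_d41_d39_d43_d4d_d42_d36_d51_d11_5

theorem g__wQ_26_wN_1_rb8033094a_d43_d53_d41_d39_d43_d4d_d42_d36_d51_d11_8 : GoodKC AS k_wQ_26_wN_1_rb8033094a_d43_d53_d41_d39_d43_d4d_d42_d36_d51_d11_8 := p_wQ_26_wN_1_rb8033094a_d43_d53_d41_d39_d43_d4d_d42_d36_d51_d11_8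

theorem g__wQ_26_wN_1_rb8033094a_d43_d53_d41_d39_d43_d4d_d42_d36_d51_d11_3 : GoodKC AS k_wQ_26_wN_1_rb8033094a_d43_d53_d41_d39_d43_d4d_d42_d36_d51_d11_3 := p_wQ_26_wN_1_rb8033094a_d43_d53_d41_d39_d43_d4d_d42_d36_d51_d11_3 g__wQ_26_wN_1_rb8033094a_d43_d53_d41_d39_d43_d4d_d42_d36_d51_d11_4 g__wQ_26_wN_1_rb8033094a_d43_d53_d41_d39_d43_d4d_d42_d36_d51_d11_8

theorem g__wQ_26_wN_1_rb8033094a_d43_d53_d41_d39_d43_d4d_d42_d36_d51_d11_2 : GoodKC AS k_wQ_26_wN_1_rb8033094a_d43_d53_d41_d39_d43_d4d_d42_d36_d51_d11_2 := p_wQ_26_wN_1_rb8033094a_d43_d53_d41_d39_d43_d4d_d42_d36_d51_d11_2 g__wQ_26_wN_1_rb8033094a_d43_d53_d41_d39_d43_d4d_d42_d36_d51_d11_3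

theorem g__wQ_26_wN_1_rb8033094a_d43_d53_d41_d39_d43_d4d_d42_d36_d51_d11_1 : GoodKC AS k_wQ_26_wN_1_rb8033094a_d43_d53_d41_d39_d43_d4d_d42_d36_d51_d11_1 := p_wQ_26_wN_1_rb8033094a_d43_d53_d41_d39_d43_d4d_d42_d36_d51_d11_1 g__wQ_26_wN_1_rb8033094a_d43_d53_d41_d39_d43_d4d_d42_d36_d51_d11_2

theorem g__wQ_26_wN_1_rb8033094a_d43_d53_d41_d39_d43_d4d_d42_d36_d51_d11_0 : GoodKC AS k_wQ_26_wN_1_rb8033094a_d43_d53_d41_d39_d43_d4d_d42_d36_d51_d11_0 := p_wQ_26_wN_1_rb8033094a_d43_d53_d41_d39_d43_d4d_d42_d36_d51_d11_0 g__wQ_26_wN_1_rb8033094a_d43_d53_d41_d39_d43_d4d_d42_d36_d51_d11_1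

theorem g_wQ_26_wN_1_rb8033094a_d43_d53_d41_d39_d43_d4d_d42_d36_d51_d11 : GoodKC AS c_wQ_26_wN_1_rb8033094a_d43_d53_d41_d39_d43_d4d_d42_d36_d51_d11 := p_wQ_26_wN_1_rb8033094a_d43_d53_d41_d39_d43_d4d_d42_d36_d51_d11 g__wQ_26_wN_1_rb8033094a_d43_d53_d41_d39_d43_d4d_d42_d36_d51_d11_0

theorem g_wQ_26_wN_1_rb8033094a_d43_d53_d41_d39_d43_d4d_d42_d36_d51_d13 : GoodKC AS c_wQ_26_wN_1_rb8033094a_d43_d53_d41_d39_d43_d4d_d42_d36_d51_d13 := p_wQ_26_wN_1_rb8033094a_d43_d53_d41_d39_d43_d4d_d42_d36_d51_d13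

theorem g_wQ_26_wN_1_rb8033094a_d43_d53_d41_d39_d43_d4d_d42_d36_d51_d16 : GoodKC AS c_wQ_26_wN_1_rb8033094a_d43_d53_d41_d39_d43_d4d_d42_d36_d51_d16 := p_wQ_26_wN_1_rb8033094a_d43_d53_d41_d39_d43_d4d_d42_d36_d51_d16

theorem g_wQ_26_wN_1_rb8033094a_d43_d53_d41_d39_d43_d4d_d42_d36_d51_d17 : GoodKC AS c_wQ_26_wN_1_rb8033094a_d43_d53_d41_d39_d43_d4d_d42_d36_d51_d17 := p_wQ_26_wN_1_rb8033094a_d43_d53_d41_d39_d43_d4d_d42_d36_d51_d17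

theorem g__wQ_26_wN_1_rb8033094a_d43_d53_d41_d39_d43_d4d_d42_d36_d51_d1a_3 : GoodKC AS k_wQ_26_wN_1_rb8033094a_d43_d53_d41_d39_d43_d4d_d42_d36_d51_d1a_3 := p_wQ_26_wN_1_rb8033094a_d43_d53_d41_d39_d43_d4d_d42_d36_d51_d1a_3

theorem g__wQ_26_wN_1_rb8033094a_d43_d53_d41_d39_d43_d4d_d42_d36_d51_d1a_2 : GoodKC AS k_wQ_26_wN_1_rb8033094a_d43_d53_d41_d39_d43_d4d_d42_d36_d51_d1a_2 := p_wQ_26_wN_1_rb8033094a_d43_d53_d41_d39_d43_d4d_d42_d36_d51_d1a_2 g__wQ_26_wN_1_rb8033094a_d43_d53_d41_d39_d43_d4d_d42_d36_d51_d1a_3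

theorem g__wQ_26_wN_1_rb8033094a_d43_d53_d41_d39_d43_d4d_d42_d36_d51_d1a_4 : GoodKC AS k_wQ_26_wN_1_rb8033094a_d43_d53_d41_d39_d43_d4d_d42_d36_d51_d1a_4 := p_wQ_26_wN_1_rb8033094a_d43_d53_d41_d39_d43_d4d_d42_d36_d51_d1a_4

theorem g__wQ_26_wN_1_rb8033094a_d43_d53_d41_d39_d43_d4d_d42_d36_d51_d1a_1 : GoodKC AS k_wQ_26_wN_1_rb8033094a_d43_d53_d41_d39_d43_d4d_d42_d36_d51_d1a_1 := p_wQ_26_wN_1_rb8033094a_d43_d53_d41_d39_d43_d4d_d42_d36_d51_d1a_1 g__wQ_26_wN_1_rb8033094a_d43_d53_d41_d39_d43_d4d_d42_d36_d51_d1a_2 g__wQ_26_wN_1_rb8033094a_d43_d53_d41_d39_d43_d4d_d42_d36_d51_d1a_4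

theorem g__wQ_26_wN_1_rb8033094a_d43_d53_d41_d39_d43_d4d_d42_d36_d51_d1a_0 : GoodKC AS k_wQ_26_wN_1_rb8033094a_d43_d53_d41_d39_d43_d4d_d42_d36_d51_d1a_0 := p_wQ_26_wN_1_rb8033094a_d43_d53_d41_d39_d43_d4d_d42_d36_d51_d1a_0 g__wQ_26_wN_1_rb8033094a_d43_d53_d41_d39_d43_d4d_d42_d36_d51_d1a_1

theorem g_wQ_26_wN_1_rb8033094a_d43_d53_d41_d39_d43_d4d_d42_d36_d51_d1a : GoodKC AS c_wQ_26_wN_1_rb8033094a_d43_d53_d41_d39_d43_d4d_d42_d36_d51_d1a := p_wQ_26_wN_1_rb8033094a_d43_d53_d41_d39_d43_d4d_d42_d36_d51_d1a g__wQ_26_wN_1_rb8033094a_d43_d53_d41_d39_d43_d4d_d42_d36_d51_d1a_0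

theorem g_wQ_26_wN_1_rb8033094a_d43_d53_d41_d39_d43_d4d_d42_d36_d51_d1f : GoodKC AS c_wQ_26_wN_1_rb8033094a_d43_d53_d41_d39_d43_d4d_d42_d36_d51_d1f := p_wQ_26_wN_1_rb8033094a_d43_d53_d41_d39_d43_d4d_d42_d36_d51_d1f

theorem g__wQ_26_wN_1_rb8033094a_d43_d53_d41_d39_d43_d4d_d42_d36_d51_d23_2 : GoodKC AS k_wQ_26_wN_1_rb8033094a_d43_d53_d41_d39_d43_d4d_d42_d36_d51_d23_2 := p_wQ_26_wN_1_rb8033094a_d43_d53_d41_d39_d43_d4d_d42_d36_d51_d23_2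

theorem g__wQ_26_wN_1_rb8033094a_d43_d53_d41_d39_d43_d4d_d42_d36_d51_d23_5 : GoodKC AS k_wQ_26_wN_1_rb8033094a_d43_d53_d41_d39_d43_d4d_d42_d36_d51_d23_5 := p_wQ_26_wN_1_rb8033094a_d43_d53_d41_d39_d43_d4d_d42_d36_d51_d23_5

theorem g__wQ_26_wN_1_rb8033094a_d43_d53_d41_d39_d43_d4d_d42_d36_d51_d23_4 : GoodKC AS k_wQ_26_wN_1_rb8033094a_d43_d53_d41_d39_d43_d4d_d42_d36_d51_d23_4 := p_wQ_26_wN_1_rb8033094a_d43_d53_d41_d39_d43_d4d_d42_d36_d51_d23_4 g__wQ_26_wN_1_rb8033094a_d43_d53_d41_d39_d43_d4d_d42_d36_d51_d23_5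

theorem g__wQ_26_wN_1_rb8033094a_d43_d53_d41_d39_d43_d4d_d42_d36_d51_d23_3 : GoodKC AS k_wQ_26_wN_1_rb8033094a_d43_d53_d41_d39_d43_d4d_d42_d36_d51_d23_3 := p_wQ_26_wN_1_rb8033094a_d43_d53_d41_d39_d43_d4d_d42_d36_d51_d23_3 g__wQ_26_wN_1_rb8033094a_d43_d53_d41_d39_d43_d4d_d42_d36_d51_d23_4

theorem g__wQ_26_wN_1_rb8033094a_d43_d53_d41_d39_d43_d4d_d42_d36_d51_d23_1 : GoodKC AS k_wQ_26_wN_1_rb8033094a_d43_d53_d41_d39_d43_d4d_d42_d36_d51_d23_1 := p_wQ_26_wN_1_rb8033094a_d43_d53_d41_d39_d43_d4d_d42_d36_d51_d23_1 g__wQ_26_wN_1_rb8033094a_d43_d53_d41_d39_d43_d4d_d42_d36_d51_d23_2 g__wQ_26_wN_1_rb8033094a_d43_d53_d41_d39_d43_d4d_d42_d36_d51_d23_3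

theorem g__wQ_26_wN_1_rb8033094a_d43_d53_d41_d39_d43_d4d_d42_d36_d51_d23_0 : GoodKC AS k_wQ_26_wN_1_rb8033094a_d43_d53_d41_d39_d43_d4d_d42_d36_d51_d23_0 := p_wQ_26_wN_1_rb8033094a_d43_d53_d41_d39_d43_d4d_d42_d36_d51_d23_0 g__wQ_26_wN_1_rb8033094a_d43_d53_d41_d39_d43_d4d_d42_d36_d51_d23_1

theorem g_wQ_26_wN_1_rb8033094a_d43_d53_d41_d39_d43_d4d_d42_d36_d51_d23 : GoodKC AS c_wQ_26_wN_1_rb8033094a_d43_d53_d41_d39_d43_d4d_d42_d36_d51_d23 := p_wQ_26_wN_1_rb8033094a_d43_d53_d41_d39_d43_d4d_d42_d36_d51_d23 g__wQ_26_wN_1_rb8033094a_d43_d53_d41_d39_d43_d4d_d42_d36_d51_d23_0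

theorem g_wQ_26_wN_1_rb8033094a_d43_d53_d41_d39_d43_d4d_d42_d36_d51_d24_d51_d25 : GoodKC AS c_wQ_26_wN_1_rb8033094a_d43_d53_d41_d39_d43_d4d_d42_d36_d51_d24_d51_d25 := p_wQ_26_wN_1_rb8033094a_d43_d53_d41_d39_d43_d4d_d42_d36_d51_d24_d51_d25

theorem g_wQ_26_wN_1_rb8033094a_d43_d53_d41_d39_d43_d4d_d42_d36_d51_d24_d51_d23 : GoodKC AS c_wQ_26_wN_1_rb8033094a_d43_d53_d41_d39_d43_d4d_d42_d36_d51_d24_d51_d23 := p_wQ_26_wN_1_rb8033094a_d43_d53_d41_d39_d43_d4d_d42_d36_d51_d24_d51_d23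

theorem g_wQ_26_wN_1_rb8033094a_d43_d53_d41_d39_d43_d4d_d42_d36_d51_d24_d51_d22 : GoodKC AS c_wQ_26_wN_1_rb8033094a_d43_d53_d41_d39_d43_d4d_d42_d36_d51_d24_d51_d22 := p_wQ_26_wN_1_rb8033094a_d43_d53_d41_d39_d43_d4d_d42_d36_d51_d24_d51_d22

theorem g_wQ_26_wN_1_rb8033094a_d43_d53_d41_d39_d43_d4d_d42_d36_d51_d24_d51_d21 : GoodKC AS c_wQ_26_wN_1_rb8033094a_d43_d53_d41_d39_d43_d4d_d42_d36_d51_d24_d51_d21 := p_wQ_26_wN_1_rb8033094a_d43_d53_d41_d39_d43_d4d_d42_d36_d51_d24_d51_d21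

theorem g__wQ_26_wN_1_rb8033094a_d43_d53_d41_d39_d43_d4d_d42_d36_d51_d24_d51_d20v1_3 : GoodKC AS k_wQ_26_wN_1_rb8033094a_d43_d53_d41_d39_d43_d4d_d42_d36_d51_d24_d51_d20v1_3 := p_wQ_26_wN_1_rb8033094a_d43_d53_d41_d39_d43_d4d_d42_d36_d51_d24_d51_d20v1_3

theorem g__wQ_26_wN_1_rb8033094a_d43_d53_d41_d39_d43_d4d_d42_d36_d51_d24_d51_d20v1_2 : GoodKC AS k_wQ_26_wN_1_rb8033094a_d43_d53_d41_d39_d43_d4d_d42_d36_d51_d24_d51_d20v1_2 := p_wQ_26_wN_1_rb8033094a_d43_d53_d41_d39_d43_d4d_d42_d36_d51_d24_d51_d20v1_2 g__wQ_26_wN_1_rb8033094a_d43_d53_d41_d39_d43_d4d_d42_d36_d51_d24_d51_d20v1_3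

theorem g__wQ_26_wN_1_rb8033094a_d43_d53_d41_d39_d43_d4d_d42_d36_d51_d24_d51_d20v1_5 : GoodKC AS k_wQ_26_wN_1_rb8033094a_d43_d53_d41_d39_d43_d4d_d42_d36_d51_d24_d51_d20v1_5 := p_wQ_26_wN_1_rb8033094a_d43_d53_d41_d39_d43_d4d_d42_d36_d51_d24_d51_d20v1_5

theorem g__wQ_26_wN_1_rb8033094a_d43_d53_d41_d39_d43_d4d_d42_d36_d51_d24_d51_d20v1_4 : GoodKC AS k_wQ_26_wN_1_rb8033094a_d43_d53_d41_d39_d43_d4d_d42_d36_d51_d24_d51_d20v1_4 := p_wQ_26_wN_1_rb8033094a_d43_d53_d41_d39_d43_d4d_d42_d36_d51_d24_d51_d20v1_4 g__wQ_26_wN_1_rb8033094a_d43_d53_d41_d39_d43_d4d_d42_d36_d51_d24_d51_d20v1_5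

theorem g__wQ_26_wN_1_rb8033094a_d43_d53_d41_d39_d43_d4d_d42_d36_d51_d24_d51_d20v1_1 : GoodKC AS k_wQ_26_wN_1_rb8033094a_d43_d53_d41_d39_d43_d4d_d42_d36_d51_d24_d51_d20v1_1 := p_wQ_26_wN_1_rb8033094a_d43_d53_d41_d39_d43_d4d_d42_d36_d51_d24_d51_d20v1_1 g__wQ_26_wN_1_rb8033094a_d43_d53_d41_d39_d43_d4d_d42_d36_d51_d24_d51_d20v1_2 g__wQ_26_wN_1_rb8033094a_d43_d53_d41_d39_d43_d4d_d42_d36_d51_d24_d51_d20v1_4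

theorem g__wQ_26_wN_1_rb8033094a_d43_d53_d41_d39_d43_d4d_d42_d36_d51_d24_d51_d20v1_0 : GoodKC AS k_wQ_26_wN_1_rb8033094a_d43_d53_d41_d39_d43_d4d_d42_d36_d51_d24_d51_d20v1_0 := p_wQ_26_wN_1_rb8033094a_d43_d53_d41_d39_d43_d4d_d42_d36_d51_d24_d51_d20v1_0 g__wQ_26_wN_1_rb8033094a_d43_d53_d41_d39_d43_d4d_d42_d36_d51_d24_d51_d20v1_1

theorem g_wQ_26_wN_1_rb8033094a_d43_d53_d41_d39_d43_d4d_d42_d36_d51_d24_d51_d20 : GoodKC AS c_wQ_26_wN_1_rb8033094a_d43_d53_d41_d39_d43_d4d_d42_d36_d51_d24_d51_d20 := p_wQ_26_wN_1_rb8033094a_d43_d53_d41_d39_d43_d4d_d42_d36_d51_d24_d51_d20v1 g__wQ_26_wN_1_rb8033094a_d43_d53_d41_d39_d43_d4d_d42_d36_d51_d24_d51_d20v1_0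

theorem g_wQ_26_wN_1_rb8033094a_d43_d53_d41_d39_d43_d4d_d42_d36_d51_d24_d51_d1f : GoodKC AS c_wQ_26_wN_1_rb8033094a_d43_d53_d41_d39_d43_d4d_d42_d36_d51_d24_d51_d1f := p_wQ_26_wN_1_rb8033094a_d43_d53_d41_d39_d43_d4d_d42_d36_d51_d24_d51_d1f

theorem g_wQ_26_wN_1_rb8033094a_d43_d53_d41_d39_d43_d4d_d42_d36_d51_d24_d51_d1e : GoodKC AS c_wQ_26_wN_1_rb8033094a_d43_d53_d41_d39_d43_d4d_d42_d36_d51_d24_d51_d1e := p_wQ_26_wN_1_rb8033094a_d43_d53_d41_d39_d43_d4d_d42_d36_d51_d24_d51_d1e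

theorem g_wQ_26_wN_1_rb8033094a_d43_d53_d41_d39_d43_d4d_d42_d36_d51_d24_d51_d1d : GoodKC AS c_wQ_26_wN_1_rb8033094a_d43_d53_d41_d39_d43_d4d_d42_d36_d51_d24_d51_d1d := p_wQ_26_wN_1_rb8033094a_d43_d53_d41_d39_d43_d4d_d42_d36_d51_d24_d51_d1d

theorem g_wQ_26_wN_1_rb8033094a_d43_d53_d41_d39_d43_d4d_d42_d36_d51_d24_d51_d1c : GoodKC AS c_wQ_26_wN_1_rb8033094a_d43_d53_d41_d39_d43_d4d_d42_d36_d51_d24_d51_d1c := p_wQ_26_wN_1_rb8033094a_d43_d53_d41_d39_d43_d4d_d42_d36_d51_d24_d51_d1c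

theorem g__wQ_26_wN_1_rb8033094a_d43_d53_d41_d39_d43_d4d_d42_d36_d51_d24_d51_d1a_0 : GoodKC AS k_wQ_26_wN_1_rb8033094a_d43_d53_d41_d39_d43_d4d_d42_d36_d51_d24_d51_d1a_0 := p_wQ_26_wN_1_rb8033094a_d43_d53_d41_d39_d43_d4d_d42_d36_d51_d24_d51_d1a_0

theorem g__wQ_26_wN_1_rb8033094a_d43_d53_d41_d39_d43_d4d_d42_d36_d51_d24_d51_d1a_6 : GoodKC AS k_wQ_26_wN_1_rb8033094a_d43_d53_d41_d39_d43_d4d_d42_d36_d51_d24_d51_d1a_6 := p_wQ_26_wN_1_rb8033094a_d43_d53_d41_d39_d43_d4d_d42_d36_d51_d24_d51_d1a_6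

theorem g__wQ_26_wN_1_rb8033094a_d43_d53_d41_d39_d43_d4d_d42_d36_d51_d24_d51_d1a_5 : GoodKC AS k_wQ_26_wN_1_rb8033094a_d43_d53_d41_d39_d43_d4d_d42_d36_d51_d24_d51_d1a_5 := p_wQ_26_wN_1_rb8033094a_d43_d53_d41_d39_d43_d4d_d42_d36_d51_d24_d51_d1a_5 g__wQ_26_wN_1_rb8033094a_d43_d53_d41_d39_d43_d4d_d42_d36_d51_d24_d51_d1a_6

theorem g__wQ_26_wN_1_rb8033094a_d43_d53_d41_d39_d43_d4d_d42_d36_d51_d24_d51_d1a_4 : GoodKC AS k_wQ_26_wN_1_rb8033094a_d43_d53_d41_d39_d43_d4d_d42_d36_d51_d24_d51_d1a_4 := p_wQ_26_wN_1_rb8033094a_d43_d53_d41_d39_d43_d4d_d42_d36_d51_d24_d51_d1a_4 g__wQ_26_wN_1_rb8033094a_d43_d53_d41_d39_d43_d4d_d42_d36_d51_d24_d51_d1a_5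

theorem g__wQ_26_wN_1_rb8033094a_d43_d53_d41_d39_d43_d4d_d42_d36_d51_d24_d51_d1a_7 : GoodKC AS k_wQ_26_wN_1_rb8033094a_d43_d53_d41_d39_d43_d4d_d42_d36_d51_d24_d51_d1a_7 := p_wQ_26_wN_1_rb8033094a_d43_d53_d41_d39_d43_d4d_d42_d36_d51_d24_d51_d1a_7

theorem g__wQ_26_wN_1_rb8033094a_d43_d53_d41_d39_d43_d4d_d42_d36_d51_d24_d51_d1a_3 : GoodKC AS k_wQ_26_wN_1_rb8033094a_d43_d53_d41_d39_d43_d4d_d42_d36_d51_d24_d51_d1a_3 := p_wQ_26_wN_1_rb8033094a_d43_d53_d41_d39_d43_d4d_d42_d36_d51_d24_d51_d1a_3 g__wQ_26_wN_1_rb8033094a_d43_d53_d41_d39_d43_d4d_d42_d36_d51_d24_d51_d1a_4 g__wQ_26_wN_1_rb8033094a_d43_d53_d41_d39_d43_d4d_d42_d36_d51_d24_d51_d1a_7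

theorem g__wQ_26_wN_1_rb8033094a_d43_d53_d41_d39_d43_d4d_d42_d36_d51_d24_d51_d1a_2 : GoodKC AS k_wQ_26_wN_1_rb8033094a_d43_d53_d41_d39_d43_d4d_d42_d36_d51_d24_d51_d1a_2 := p_wQ_26_wN_1_rb8033094a_d43_d53_d41_d39_d43_d4d_d42_d36_d51_d24_d51_d1a_2 g__wQ_26_wN_1_rb8033094a_d43_d53_d41_d39_d43_d4d_d42_d36_d51_d24_d51_d1a_3

theorem g__wQ_26_wN_1_rb8033094a_d43_d53_d41_d39_d43_d4d_d42_d36_d51_d24_d51_d1a_1 : GoodKC AS k_wQ_26_wN_1_rb8033094a_d43_d53_d41_d39_d43_d4d_d42_d36_d51_d24_d51_d1a_1 := p_wQ_26_wN_1_rb8033094a_d43_d53_d41_d39_d43_d4d_d42_d36_d51_d24_d51_d1a_1 g__wQ_26_wN_1_rb8033094a_d43_d53_d41_d39_d43_d4d_d42_d36_d51_d24_d51_d1a_2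

theorem g_wQ_26_wN_1_rb8033094a_d43_d53_d41_d39_d43_d4d_d42_d36_d51_d24_d51_d1a : GoodKC AS c_wQ_26_wN_1_rb8033094a_d43_d53_d41_d39_d43_d4d_d42_d36_d51_d24_d51_d1a := p_wQ_26_wN_1_rb8033094a_d43_d53_d41_d39_d43_d4d_d42_d36_d51_d24_d51_d1a g__wQ_26_wN_1_rb8033094a_d43_d53_d41_d39_d43_d4d_d42_d36_d51_d24_d51_d1a_0 g__wQ_26_wN_1_rb8033094a_d43_d53_d41_d39_d43_d4d_d42_d36_d51_d24_d51_d1a_1

theorem g_wQ_26_wN_1_rb8033094a_d43_d53_d41_d39_d43_d4d_d42_d36_d51_d24_d51_d19 : GoodKC AS c_wQ_26_wN_1_rb8033094a_d43_d53_d41_d39_d43_d4d_d42_d36_d51_d24_d51_d19 := p_wQ_26_wN_1_rb8033094a_d43_d53_d41_d39_d43_d4d_d42_d36_d51_d24_d51_d19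

theorem g_wQ_26_wN_1_rb8033094a_d43_d53_d41_d39_d43_d4d_d42_d36_d51_d24_d51_d18 : GoodKC AS c_wQ_26_wN_1_rb8033094a_d43_d53_d41_d39_d43_d4d_d42_d36_d51_d24_d51_d18 := p_wQ_26_wN_1_rb8033094a_d43_d53_d41_d39_d43_d4d_d42_d36_d51_d24_d51_d18

theorem g_wQ_26_wN_1_rb8033094a_d43_d53_d41_d39_d43_d4d_d42_d36_d51_d24_d51_d17 : GoodKC AS c_wQ_26_wN_1_rb8033094a_d43_d53_d41_d39_d43_d4d_d42_d36_d51_d24_d51_d17 := p_wQ_26_wN_1_rb8033094a_d43_d53_d41_d39_d43_d4d_d42_d36_d51_d24_d51_d17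

theorem g_wQ_26_wN_1_rb8033094a_d43_d53_d41_d39_d43_d4d_d42_d36_d51_d24_d51_d15 : GoodKC AS c_wQ_26_wN_1_rb8033094a_d43_d53_d41_d39_d43_d4d_d42_d36_d51_d24_d51_d15 := p_wQ_26_wN_1_rb8033094a_d43_d53_d41_d39_d43_d4d_d42_d36_d51_d24_d51_d15

theorem g__wQ_26_wN_1_rb8033094a_d43_d53_d41_d39_d43_d4d_d42_d36_d51_d24_d51_d14_3 : GoodKC AS k_wQ_26_wN_1_rb8033094a_d43_d53_d41_d39_d43_d4d_d42_d36_d51_d24_d51_d14_3 := p_wQ_26_wN_1_rb8033094a_d43_d53_d41_d39_d43_d4d_d42_d36_d51_d24_d51_d14_3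

theorem g__wQ_26_wN_1_rb8033094a_d43_d53_d41_d39_d43_d4d_d42_d36_d51_d24_d51_d14_2 : GoodKC AS k_wQ_26_wN_1_rb8033094a_d43_d53_d41_d39_d43_d4d_d42_d36_d51_d24_d51_d14_2 := p_wQ_26_wN_1_rb8033094a_d43_d53_d41_d39_d43_d4d_d42_d36_d51_d24_d51_d14_2 g__wQ_26_wN_1_rb8033094a_d43_d53_d41_d39_d43_d4d_d42_d36_d51_d24_d51_d14_3

theorem g__wQ_26_wN_1_rb8033094a_d43_d53_d41_d39_d43_d4d_d42_d36_d51_d24_d51_d14_1 : GoodKC AS k_wQ_26_wN_1_rb8033094a_d43_d53_d41_d39_d43_d4d_d42_d36_d51_d24_d51_d14_1 := p_wQ_26_wN_1_rb8033094a_d43_d53_d41_d39_d43_d4d_d42_d36_d51_d24_d51_d14_1 g__wQ_26_wN_1_rb8033094a_d43_d53_d41_d39_d43_d4d_d42_d36_d51_d24_d51_d14_2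

theorem g__wQ_26_wN_1_rb8033094a_d43_d53_d41_d39_d43_d4d_d42_d36_d51_d24_d51_d14_0 : GoodKC AS k_wQ_26_wN_1_rb8033094a_d43_d53_d41_d39_d43_d4d_d42_d36_d51_d24_d51_d14_0 := p_wQ_26_wN_1_rb8033094a_d43_d53_d41_d39_d43_d4d_d42_d36_d51_d24_d51_d14_0 g__wQ_26_wN_1_rb8033094a_d43_d53_d41_d39_d43_d4d_d42_d36_d51_d24_d51_d14_1

theorem g_wQ_26_wN_1_rb8033094a_d43_d53_d41_d39_d43_d4d_d42_d36_d51_d24_d51_d14 : GoodKC AS c_wQ_26_wN_1_rb8033094a_d43_d53_d41_d39_d43_d4d_d42_d36_d51_d24_d51_d14 := p_wQ_26_wN_1_rb8033094a_d43_d53_d41_d39_d43_d4d_d42_d36_d51_d24_d51_d14 g__wQ_26_wN_1_rb8033094a_d43_d53_d41_d39_d43_d4d_d42_d36_d51_d24_d51_d14_0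

theorem g_wQ_26_wN_1_rb8033094a_d43_d53_d41_d39_d43_d4d_d42_d36_d51_d24_d51_d13 : GoodKC AS c_wQ_26_wN_1_rb8033094a_d43_d53_d41_d39_d43_d4d_d42_d36_d51_d24_d51_d13 := p_wQ_26_wN_1_rb8033094a_d43_d53_d41_d39_d43_d4d_d42_d36_d51_d24_d51_d13

theorem g__wQ_26_wN_1_rb8033094a_d43_d53_d41_d39_d43_d4d_d42_d36_d51_d24_d51_d10_0 : GoodKC AS k_wQ_26_wN_1_rb8033094a_d43_d53_d41_d39_d43_d4d_d42_d36_d51_d24_d51_d10_0 := p_wQ_26_wN_1_rb8033094a_d43_d53_d41_d39_d43_d4d_d42_d36_d51_d24_d51_d10_0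

theorem g_wQ_26_wN_1_rb8033094a_d43_d53_d41_d39_d43_d4d_d42_d36_d51_d24_d51_d10 : GoodKC AS c_wQ_26_wN_1_rb8033094a_d43_d53_d41_d39_d43_d4d_d42_d36_d51_d24_d51_d10 := p_wQ_26_wN_1_rb8033094a_d43_d53_d41_d39_d43_d4d_d42_d36_d51_d24_d51_d10 g__wQ_26_wN_1_rb8033094a_d43_d53_d41_d39_d43_d4d_d42_d36_d51_d24_d51_d10_0

theorem g_wQ_26_wN_1_rb8033094a_d43_d53_d41_d39_d43_d4d_d42_d36_d51_d24_d51_d0f : GoodKC AS c_wQ_26_wN_1_rb8033094a_d43_d53_d41_d39_d43_d4d_d42_d36_d51_d24_d51_d0f := p_wQ_26_wN_1_rb8033094a_d43_d53_d41_d39_d43_d4d_d42_d36_d51_d24_d51_d0f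

theorem g__wQ_26_wN_1_rb8033094a_d43_d53_d41_d39_d43_d4d_d42_d36_d51_d24_d51_d0e_1 : GoodKC AS k_wQ_26_wN_1_rb8033094a_d43_d53_d41_d39_d43_d4d_d42_d36_d51_d24_d51_d0e_1 := p_wQ_26_wN_1_rb8033094a_d43_d53_d41_d39_d43_d4d_d42_d36_d51_d24_d51_d0e_1

theorem g__wQ_26_wN_1_rb8033094a_d43_d53_d41_d39_d43_d4d_d42_d36_d51_d24_d51_d0e_0 : GoodKC AS k_wQ_26_wN_1_rb8033094a_d43_d53_d41_d39_d43_d4d_d42_d36_d51_d24_d51_d0e_0 := p_wQ_26_wN_1_rb8033094a_d43_d53_d41_d39_d43_d4d_d42_d36_d51_d24_d51_d0e_0 g__wQ_26_wN_1_rb8033094a_d43_d53_d41_d39_d43_d4d_d42_d36_d51_d24_d51_d0e_1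

theorem g_wQ_26_wN_1_rb8033094a_d43_d53_d41_d39_d43_d4d_d42_d36_d51_d24_d51_d0e : GoodKC AS c_wQ_26_wN_1_rb8033094a_d43_d53_d41_d39_d43_d4d_d42_d36_d51_d24_d51_d0e := p_wQ_26_wN_1_rb8033094a_d43_d53_d41_d39_d43_d4d_d42_d36_d51_d24_d51_d0e g__wQ_26_wN_1_rb8033094a_d43_d53_d41_d39_d43_d4d_d42_d36_d51_d24_d51_d0e_0

theorem g_wQ_26_wN_1_rb8033094a_d43_d53_d41_d39_d43_d4d_d42_d36_d51_d24_d51_d0d : GoodKC AS c_wQ_26_wN_1_rb8033094a_d43_d53_d41_d39_d43_d4d_d42_d36_d51_d24_d51_d0d := p_wQ_26_wN_1_rb8033094a_d43_d53_d41_d39_d43_d4d_d42_d36_d51_d24_d51_d0d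

theorem g_wQ_26_wN_1_rb8033094a_d43_d53_d41_d39_d43_d4d_d42_d36_d51_d24_d51_d0b : GoodKC AS c_wQ_26_wN_1_rb8033094a_d43_d53_d41_d39_d43_d4d_d42_d36_d51_d24_d51_d0b := p_wQ_26_wN_1_rb8033094a_d43_d53_d41_d39_d43_d4d_d42_d36_d51_d24_d51_d0b

theorem g_wQ_26_wN_1_rb8033094a_d43_d53_d41_d39_d43_d4d_d42_d36_d51_d24_d51_d0a : GoodKC AS c_wQ_26_wN_1_rb8033094a_d43_d53_d41_d39_d43_d4d_d42_d36_d51_d24_d51_d0a := p_wQ_26_wN_1_rb8033094a_d43_d53_d41_d39_d43_d4d_d42_d36_d51_d24_d51_d0a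

theorem g_wQ_26_wN_1_rb8033094a_d43_d53_d41_d39_d43_d4d_d42_d36_d51_d24_d51_d09 : GoodKC AS c_wQ_26_wN_1_rb8033094a_d43_d53_d41_d39_d43_d4d_d42_d36_d51_d24_d51_d09 := p_wQ_26_wN_1_rb8033094a_d43_d53_d41_d39_d43_d4d_d42_d36_d51_d24_d51_d09

theorem g_wQ_26_wN_1_rb8033094a_d43_d53_d41_d39_d43_d4d_d42_d36_d51_d24_d51_d07 : GoodKC AS c_wQ_26_wN_1_rb8033094a_d43_d53_d41_d39_d43_d4d_d42_d36_d51_d24_d51_d07 := p_wQ_26_wN_1_rb8033094a_d43_d53_d41_d39_d43_d4d_d42_d36_d51_d24_d51_d07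

theorem g_wQ_26_wN_1_rb8033094a_d43_d53_d41_d39_d43_d4d_d42_d36_d51_d24_d51_d06 : GoodKC AS c_wQ_26_wN_1_rb8033094a_d43_d53_d41_d39_d43_d4d_d42_d36_d51_d24_d51_d06 := p_wQ_26_wN_1_rb8033094a_d43_d53_d41_d39_d43_d4d_d42_d36_d51_d24_d51_d06

theorem g_wQ_26_wN_1_rb8033094a_d43_d53_d41_d39_d43_d4d_d42_d36_d51_d24_d51_d05 : GoodKC AS c_wQ_26_wN_1_rb8033094a_d43_d53_d41_d39_d43_d4d_d42_d36_d51_d24_d51_d05 := p_wQ_26_wN_1_rb8033094a_d43_d53_d41_d39_d43_d4d_d42_d36_d51_d24_d51_d05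

theorem g_wQ_26_wN_1_rb8033094a_d43_d53_d41_d39_d43_d4d_d42_d36_d51_d24_d51_d04 : GoodKC AS c_wQ_26_wN_1_rb8033094a_d43_d53_d41_d39_d43_d4d_d42_d36_d51_d24_d51_d04 := p_wQ_26_wN_1_rb8033094a_d43_d53_d41_d39_d43_d4d_d42_d36_d51_d24_d51_d04

theorem g_wQ_26_wN_1_rb8033094a_d43_d53_d41_d39_d43_d4d_d42_d36_d51_d24_d51_d02 : GoodKC AS c_wQ_26_wN_1_rb8033094a_d43_d53_d41_d39_d43_d4d_d42_d36_d51_d24_d51_d02 := p_wQ_26_wN_1_rb8033094a_d43_d53_d41_d39_d43_d4d_d42_d36_d51_d24_d51_d02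

theorem g_wQ_26_wN_1_rb8033094a_d43_d53_d41_d39_d43_d4d_d42_d36_d51_d24_d51_d01 : GoodKC AS c_wQ_26_wN_1_rb8033094a_d43_d53_d41_d39_d43_d4d_d42_d36_d51_d24_d51_d01 := p_wQ_26_wN_1_rb8033094a_d43_d53_d41_d39_d43_d4d_d42_d36_d51_d24_d51_d01

theorem g_wQ_26_wN_1_rb8033094a_d43_d53_d41_d39_d43_d4d_d42_d36_d51_d24_d51_d00 : GoodKC AS c_wQ_26_wN_1_rb8033094a_d43_d53_d41_d39_d43_d4d_d42_d36_d51_d24_d51_d00 := p_wQ_26_wN_1_rb8033094a_d43_d53_d41_d39_d43_d4d_d42_d36_d51_d24_d51_d00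

theorem g_wQ_26_wN_1_rb8033094a_d43_d53_d41_d39_d43_d4d_d42_d36_d51_d24_d51_d03 : GoodKC AS c_wQ_26_wN_1_rb8033094a_d43_d53_d41_d39_d43_d4d_d42_d36_d51_d24_d51_d03 := p_wQ_26_wN_1_rb8033094a_d43_d53_d41_d39_d43_d4d_d42_d36_d51_d24_d51_d03

theorem g_wQ_26_wN_1_rb8033094a_d43_d53_d41_d39_d43_d4d_d42_d36_d51_d24_d51_d08 : GoodKC AS c_wQ_26_wN_1_rb8033094a_d43_d53_d41_d39_d43_d4d_d42_d36_d51_d24_d51_d08 := p_wQ_26_wN_1_rb8033094a_d43_d53_d41_d39_d43_d4d_d42_d36_d51_d24_d51_d08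

theorem g_wQ_26_wN_1_rb8033094a_d43_d53_d41_d39_d43_d4d_d42_d36_d51_d24_d51_d0c : GoodKC AS c_wQ_26_wN_1_rb8033094a_d43_d53_d41_d39_d43_d4d_d42_d36_d51_d24_d51_d0c := p_wQ_26_wN_1_rb8033094a_d43_d53_d41_d39_d43_d4d_d42_d36_d51_d24_d51_d0c

theorem g_wQ_26_wN_1_rb8033094a_d43_d53_d41_d39_d43_d4d_d42_d36_d51_d24_d51_d11 : GoodKC AS c_wQ_26_wN_1_rb8033094a_d43_d53_d41_d39_d43_d4d_d42_d36_d51_d24_d51_d11 := p_wQ_26_wN_1_rb8033094a_d43_d53_d41_d39_d43_d4d_d42_d36_d51_d24_d51_d11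

theorem g_wQ_26_wN_1_rb8033094a_d43_d53_d41_d39_d43_d4d_d42_d36_d51_d24_d51_d12 : GoodKC AS c_wQ_26_wN_1_rb8033094a_d43_d53_d41_d39_d43_d4d_d42_d36_d51_d24_d51_d12 := p_wQ_26_wN_1_rb8033094a_d43_d53_d41_d39_d43_d4d_d42_d36_d51_d24_d51_d12

theorem g_wQ_26_wN_1_rb8033094a_d43_d53_d41_d39_d43_d4d_d42_d36_d51_d24_d51_d16 : GoodKC AS c_wQ_26_wN_1_rb8033094a_d43_d53_d41_d39_d43_d4d_d42_d36_d51_d24_d51_d16 := p_wQ_26_wN_1_rb8033094a_d43_d53_d41_d39_d43_d4d_d42_d36_d51_d24_d51_d16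

theorem g_wQ_26_wN_1_rb8033094a_d43_d53_d41_d39_d43_d4d_d42_d36_d51_d24_d51_d1b : GoodKC AS c_wQ_26_wN_1_rb8033094a_d43_d53_d41_d39_d43_d4d_d42_d36_d51_d24_d51_d1b := p_wQ_26_wN_1_rb8033094a_d43_d53_d41_d39_d43_d4d_d42_d36_d51_d24_d51_d1b

theorem g_wQ_26_wN_1_rb8033094a_d43_d53_d41_d39_d43_d4d_d42_d36_d51_d24_d51_d24 : GoodKC AS c_wQ_26_wN_1_rb8033094a_d43_d53_d41_d39_d43_d4d_d42_d36_d51_d24_d51_d24 := p_wQ_26_wN_1_rb8033094a_d43_d53_d41_d39_d43_d4d_d42_d36_d51_d24_d51_d24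

theorem g__wQ_26_wN_1_rb8033094a_d43_d53_d41_d39_d43_d4d_d42_d36_d51_d24_d51_d26_d51_d26_0 : GoodKC AS k_wQ_26_wN_1_rb8033094a_d43_d53_d41_d39_d43_d4d_d42_d36_d51_d24_d51_d26_d51_d26_0 := p_wQ_26_wN_1_rb8033094a_d43_d53_d41_d39_d43_d4d_d42_d36_d51_d24_d51_d26_d51_d26_0

theorem g_wQ_26_wN_1_rb8033094a_d43_d53_d41_d39_d43_d4d_d42_d36_d51_d24_d51_d26_d51_d26 : GoodKC AS c_wQ_26_wN_1_rb8033094a_d43_d53_d41_d39_d43_d4d_d42_d36_d51_d24_d51_d26_d51_d26 := p_wQ_26_wN_1_rb8033094a_d43_d53_d41_d39_d43_d4d_d42_d36_d51_d24_d51_d26_d51_d26 g__wQ_26_wN_1_rb8033094a_d43_d53_d41_d39_d43_d4d_d42_d36_d51_d24_d51_d26_d51_d26_0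

theorem g_wQ_26_wN_1_rb8033094a_d43_d53_d41_d39_d43_d4d_d42_d36_d51_d24_d51_d26_d51_d25 : GoodKC AS c_wQ_26_wN_1_rb8033094a_d43_d53_d41_d39_d43_d4d_d42_d36_d51_d24_d51_d26_d51_d25 := p_wQ_26_wN_1_rb8033094a_d43_d53_d41_d39_d43_d4d_d42_d36_d51_d24_d51_d26_d51_d25

theorem g_wQ_26_wN_1_rb8033094a_d43_d53_d41_d39_d43_d4d_d42_d36_d51_d24_d51_d26_d51_d23 : GoodKC AS c_wQ_26_wN_1_rb8033094a_d43_d53_d41_d39_d43_d4d_d42_d36_d51_d24_d51_d26_d51_d23 := p_wQ_26_wN_1_rb8033094a_d43_d53_d41_d39_d43_d4d_d42_d36_d51_d24_d51_d26_d51_d23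

theorem g_wQ_26_wN_1_rb8033094a_d43_d53_d41_d39_d43_d4d_d42_d36_d51_d24_d51_d26_d51_d22 : GoodKC AS c_wQ_26_wN_1_rb8033094a_d43_d53_d41_d39_d43_d4d_d42_d36_d51_d24_d51_d26_d51_d22 := p_wQ_26_wN_1_rb8033094a_d43_d53_d41_d39_d43_d4d_d42_d36_d51_d24_d51_d26_d51_d22

theorem g_wQ_26_wN_1_rb8033094a_d43_d53_d41_d39_d43_d4d_d42_d36_d51_d24_d51_d26_d51_d21 : GoodKC AS c_wQ_26_wN_1_rb8033094a_d43_d53_d41_d39_d43_d4d_d42_d36_d51_d24_d51_d26_d51_d21 := p_wQ_26_wN_1_rb8033094a_d43_d53_d41_d39_d43_d4d_d42_d36_d51_d24_d51_d26_d51_d21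

theorem g_wQ_26_wN_1_rb8033094a_d43_d53_d41_d39_d43_d4d_d42_d36_d51_d24_d51_d26_d51_d1f : GoodKC AS c_wQ_26_wN_1_rb8033094a_d43_d53_d41_d39_d43_d4d_d42_d36_d51_d24_d51_d26_d51_d1f := p_wQ_26_wN_1_rb8033094a_d43_d53_d41_d39_d43_d4d_d42_d36_d51_d24_d51_d26_d51_d1f

theorem g__wQ_26_wN_1_rb8033094a_d43_d53_d41_d39_d43_d4d_d42_d36_d51_d24_d51_d26_d51_d1e_4 : GoodKC AS k_wQ_26_wN_1_rb8033094a_d43_d53_d41_d39_d43_d4d_d42_d36_d51_d24_d51_d26_d51_d1e_4 := p_wQ_26_wN_1_rb8033094a_d43_d53_d41_d39_d43_d4d_d42_d36_d51_d24_d51_d26_d51_d1e_4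

theorem g__wQ_26_wN_1_rb8033094a_d43_d53_d41_d39_d43_d4d_d42_d36_d51_d24_d51_d26_d51_d1e_3 : GoodKC AS k_wQ_26_wN_1_rb8033094a_d43_d53_d41_d39_d43_d4d_d42_d36_d51_d24_d51_d26_d51_d1e_3 := p_wQ_26_wN_1_rb8033094a_d43_d53_d41_d39_d43_d4d_d42_d36_d51_d24_d51_d26_d51_d1e_3 g__wQ_26_wN_1_rb8033094a_d43_d53_d41_d39_d43_d4d_d42_d36_d51_d24_d51_d26_d51_d1e_4

theorem g__wQ_26_wN_1_rb8033094a_d43_d53_d41_d39_d43_d4d_d42_d36_d51_d24_d51_d26_d51_d1e_2 : GoodKC AS k_wQ_26_wN_1_rb8033094a_d43_d53_d41_d39_d43_d4d_d42_d36_d51_d24_d51_d26_d51_d1e_2 := p_wQ_26_wN_1_rb8033094a_d43_d53_d41_d39_d43_d4d_d42_d36_d51_d24_d51_d26_d51_d1e_2 g__wQ_26_wN_1_rb8033094a_d43_d53_d41_d39_d43_d4d_d42_d36_d51_d24_d51_d26_d51_d1e_3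

theorem g__wQ_26_wN_1_rb8033094a_d43_d53_d41_d39_d43_d4d_d42_d36_d51_d24_d51_d26_d51_d1e_6 : GoodKC AS k_wQ_26_wN_1_rb8033094a_d43_d53_d41_d39_d43_d4d_d42_d36_d51_d24_d51_d26_d51_d1e_6 := p_wQ_26_wN_1_rb8033094a_d43_d53_d41_d39_d43_d4d_d42_d36_d51_d24_d51_d26_d51_d1e_6

theorem g__wQ_26_wN_1_rb8033094a_d43_d53_d41_d39_d43_d4d_d42_d36_d51_d24_d51_d26_d51_d1e_7 : GoodKC AS k_wQ_26_wN_1_rb8033094a_d43_d53_d41_d39_d43_d4d_d42_d36_d51_d24_d51_d26_d51_d1e_7 := p_wQ_26_wN_1_rb8033094a_d43_d53_d41_d39_d43_d4d_d42_d36_d51_d24_d51_d26_d51_d1e_7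

theorem g__wQ_26_wN_1_rb8033094a_d43_d53_d41_d39_d43_d4d_d42_d36_d51_d24_d51_d26_d51_d1e_5 : GoodKC AS k_wQ_26_wN_1_rb8033094a_d43_d53_d41_d39_d43_d4d_d42_d36_d51_d24_d51_d26_d51_d1e_5 := p_wQ_26_wN_1_rb8033094a_d43_d53_d41_d39_d43_d4d_d42_d36_d51_d24_d51_d26_d51_d1e_5 g__wQ_26_wN_1_rb8033094a_d43_d53_d41_d39_d43_d4d_d42_d36_d51_d24_d51_d26_d51_d1e_6 g__wQ_26_wN_1_rb8033094a_d43_d53_d41_d39_d43_d4d_d42_d36_d51_d24_d51_d26_d51_d1e_7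

theorem g__wQ_26_wN_1_rb8033094a_d43_d53_d41_d39_d43_d4d_d42_d36_d51_d24_d51_d26_d51_d1e_1 : GoodKC AS k_wQ_26_wN_1_rb8033094a_d43_d53_d41_d39_d43_d4d_d42_d36_d51_d24_d51_d26_d51_d1e_1 := p_wQ_26_wN_1_rb8033094a_d43_d53_d41_d39_d43_d4d_d42_d36_d51_d24_d51_d26_d51_d1e_1 g__wQ_26_wN_1_rb8033094a_d43_d53_d41_d39_d43_d4d_d42_d36_d51_d24_d51_d26_d51_d1e_2 g__wQ_26_wN_1_rb8033094a_d43_d53_d41_d39_d43_d4d_d42_d36_d51_d24_d51_d26_d51_d1e_5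

theorem g__wQ_26_wN_1_rb8033094a_d43_d53_d41_d39_d43_d4d_d42_d36_d51_d24_d51_d26_d51_d1e_0 : GoodKC AS k_wQ_26_wN_1_rb8033094a_d43_d53_d41_d39_d43_d4d_d42_d36_d51_d24_d51_d26_d51_d1e_0 := p_wQ_26_wN_1_rb8033094a_d43_d53_d41_d39_d43_d4d_d42_d36_d51_d24_d51_d26_d51_d1e_0 g__wQ_26_wN_1_rb8033094a_d43_d53_d41_d39_d43_d4d_d42_d36_d51_d24_d51_d26_d51_d1e_1

theorem g_wQ_26_wN_1_rb8033094a_d43_d53_d41_d39_d43_d4d_d42_d36_d51_d24_d51_d26_d51_d1e : GoodKC AS c_wQ_26_wN_1_rb8033094a_d43_d53_d41_d39_d43_d4d_d42_d36_d51_d24_d51_d26_d51_d1e := p_wQ_26_wN_1_rb8033094a_d43_d53_d41_d39_d43_d4d_d42_d36_d51_d24_d51_d26_d51_d1e g__wQ_26_wN_1_rb8033094a_d43_d53_d41_d39_d43_d4d_d42_d36_d51_d24_d51_d26_d51_d1e_0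

theorem g_wQ_26_wN_1_rb8033094a_d43_d53_d41_d39_d43_d4d_d42_d36_d51_d24_d51_d26_d51_d1c : GoodKC AS c_wQ_26_wN_1_rb8033094a_d43_d53_d41_d39_d43_d4d_d42_d36_d51_d24_d51_d26_d51_d1c := p_wQ_26_wN_1_rb8033094a_d43_d53_d41_d39_d43_d4d_d42_d36_d51_d24_d51_d26_d51_d1c

theorem g_wQ_26_wN_1_rb8033094a_d43_d53_d41_d39_d43_d4d_d42_d36_d51_d24_d51_d26_d51_d1b : GoodKC AS c_wQ_26_wN_1_rb8033094a_d43_d53_d41_d39_d43_d4d_d42_d36_d51_d24_d51_d26_d51_d1b := p_wQ_26_wN_1_rb8033094a_d43_d53_d41_d39_d43_d4d_d42_d36_d51_d24_d51_d26_d51_d1b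

theorem g_wQ_26_wN_1_rb8033094a_d43_d53_d41_d39_d43_d4d_d42_d36_d51_d24_d51_d26_d51_d1a : GoodKC AS c_wQ_26_wN_1_rb8033094a_d43_d53_d41_d39_d43_d4d_d42_d36_d51_d24_d51_d26_d51_d1a := p_wQ_26_wN_1_rb8033094a_d43_d53_d41_d39_d43_d4d_d42_d36_d51_d24_d51_d26_d51_d1av1

theorem g_wQ_26_wN_1_rb8033094a_d43_d53_d41_d39_d43_d4d_d42_d36_d51_d24_d51_d26_d51_d18 : GoodKC AS c_wQ_26_wN_1_rb8033094a_d43_d53_d41_d39_d43_d4d_d42_d36_d51_d24_d51_d26_d51_d18 := p_wQ_26_wN_1_rb8033094a_d43_d53_d41_d39_d43_d4d_d42_d36_d51_d24_d51_d26_d51_d18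

theorem g_wQ_26_wN_1_rb8033094a_d43_d53_d41_d39_d43_d4d_d42_d36_d51_d24_d51_d26_d51_d17 : GoodKC AS c_wQ_26_wN_1_rb8033094a_d43_d53_d41_d39_d43_d4d_d42_d36_d51_d24_d51_d26_d51_d17 := p_wQ_26_wN_1_rb8033094a_d43_d53_d41_d39_d43_d4d_d42_d36_d51_d24_d51_d26_d51_d17

theorem g_wQ_26_wN_1_rb8033094a_d43_d53_d41_d39_d43_d4d_d42_d36_d51_d24_d51_d26_d51_d16 : GoodKC AS c_wQ_26_wN_1_rb8033094a_d43_d53_d41_d39_d43_d4d_d42_d36_d51_d24_d51_d26_d51_d16 := p_wQ_26_wN_1_rb8033094a_d43_d53_d41_d39_d43_d4d_d42_d36_d51_d24_d51_d26_d51_d16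

theorem g_wQ_26_wN_1_rb8033094a_d43_d53_d41_d39_d43_d4d_d42_d36_d51_d24_d51_d26_d51_d15 : GoodKC AS c_wQ_26_wN_1_rb8033094a_d43_d53_d41_d39_d43_d4d_d42_d36_d51_d24_d51_d26_d51_d15 := p_wQ_26_wN_1_rb8033094a_d43_d53_d41_d39_d43_d4d_d42_d36_d51_d24_d51_d26_d51_d15

theorem g_wQ_26_wN_1_rb8033094a_d43_d53_d41_d39_d43_d4d_d42_d36_d51_d24_d51_d26_d51_d13 : GoodKC AS c_wQ_26_wN_1_rb8033094a_d43_d53_d41_d39_d43_d4d_d42_d36_d51_d24_d51_d26_d51_d13 := p_wQ_26_wN_1_rb8033094a_d43_d53_d41_d39_d43_d4d_d42_d36_d51_d24_d51_d26_d51_d13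

theorem g_wQ_26_wN_1_rb8033094a_d43_d53_d41_d39_d43_d4d_d42_d36_d51_d24_d51_d26_d51_d12 : GoodKC AS c_wQ_26_wN_1_rb8033094a_d43_d53_d41_d39_d43_d4d_d42_d36_d51_d24_d51_d26_d51_d12 := p_wQ_26_wN_1_rb8033094a_d43_d53_d41_d39_d43_d4d_d42_d36_d51_d24_d51_d26_d51_d12

theorem g_wQ_26_wN_1_rb8033094a_d43_d53_d41_d39_d43_d4d_d42_d36_d51_d24_d51_d26_d51_d10 : GoodKC AS c_wQ_26_wN_1_rb8033094a_d43_d53_d41_d39_d43_d4d_d42_d36_d51_d24_d51_d26_d51_d10 := p_wQ_26_wN_1_rb8033094a_d43_d53_d41_d39_d43_d4d_d42_d36_d51_d24_d51_d26_d51_d10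

theorem g_wQ_26_wN_1_rb8033094a_d43_d53_d41_d39_d43_d4d_d42_d36_d51_d24_d51_d26_d51_d0f : GoodKC AS c_wQ_26_wN_1_rb8033094a_d43_d53_d41_d39_d43_d4d_d42_d36_d51_d24_d51_d26_d51_d0f := p_wQ_26_wN_1_rb8033094a_d43_d53_d41_d39_d43_d4d_d42_d36_d51_d24_d51_d26_d51_d0f

theorem g_wQ_26_wN_1_rb8033094a_d43_d53_d41_d39_d43_d4d_d42_d36_d51_d24_d51_d26_d51_d0c : GoodKC AS c_wQ_26_wN_1_rb8033094a_d43_d53_d41_d39_d43_d4d_d42_d36_d51_d24_d51_d26_d51_d0c := p_wQ_26_wN_1_rb8033094a_d43_d53_d41_d39_d43_d4d_d42_d36_d51_d24_d51_d26_d51_d0c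

theorem g_wQ_26_wN_1_rb8033094a_d43_d53_d41_d39_d43_d4d_d42_d36_d51_d24_d51_d26_d51_d0a : GoodKC AS c_wQ_26_wN_1_rb8033094a_d43_d53_d41_d39_d43_d4d_d42_d36_d51_d24_d51_d26_d51_d0a := p_wQ_26_wN_1_rb8033094a_d43_d53_d41_d39_d43_d4d_d42_d36_d51_d24_d51_d26_d51_d0a

theorem g__wQ_26_wN_1_rb8033094a_d43_d53_d41_d39_d43_d4d_d42_d36_d51_d24_d51_d26_d51_d09_1 : GoodKC AS k_wQ_26_wN_1_rb8033094a_d43_d53_d41_d39_d43_d4d_d42_d36_d51_d24_d51_d26_d51_d09_1 := p_wQ_26_wN_1_rb8033094a_d43_d53_d41_d39_d43_d4d_d42_d36_d51_d24_d51_d26_d51_d09_1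

theorem g__wQ_26_wN_1_rb8033094a_d43_d53_d41_d39_d43_d4d_d42_d36_d51_d24_d51_d26_d51_d09_4 : GoodKC AS k_wQ_26_wN_1_rb8033094a_d43_d53_d41_d39_d43_d4d_d42_d36_d51_d24_d51_d26_d51_d09_4 := p_wQ_26_wN_1_rb8033094a_d43_d53_d41_d39_d43_d4d_d42_d36_d51_d24_d51_d26_d51_d09_4

theorem g__wQ_26_wN_1_rb8033094a_d43_d53_d41_d39_d43_d4d_d42_d36_d51_d24_d51_d26_d51_d09_3 : GoodKC AS k_wQ_26_wN_1_rb8033094a_d43_d53_d41_d39_d43_d4d_d42_d36_d51_d24_d51_d26_d51_d09_3 := p_wQ_26_wN_1_rb8033094a_d43_d53_d41_d39_d43_d4d_d42_d36_d51_d24_d51_d26_d51_d09_3 g__wQ_26_wN_1_rb8033094a_d43_d53_d41_d39_d43_d4d_d42_d36_d51_d24_d51_d26_d51_d09_4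

theorem g__wQ_26_wN_1_rb8033094a_d43_d53_d41_d39_d43_d4d_d42_d36_d51_d24_d51_d26_d51_d09_5 : GoodKC AS k_wQ_26_wN_1_rb8033094a_d43_d53_d41_d39_d43_d4d_d42_d36_d51_d24_d51_d26_d51_d09_5 := p_wQ_26_wN_1_rb8033094a_d43_d53_d41_d39_d43_d4d_d42_d36_d51_d24_d51_d26_d51_d09_5

theorem g__wQ_26_wN_1_rb8033094a_d43_d53_d41_d39_d43_d4d_d42_d36_d51_d24_d51_d26_d51_d09_2 : GoodKC AS k_wQ_26_wN_1_rb8033094a_d43_d53_d41_d39_d43_d4d_d42_d36_d51_d24_d51_d26_d51_d09_2 := p_wQ_26_wN_1_rb8033094a_d43_d53_d41_d39_d43_d4d_d42_d36_d51_d24_d51_d26_d51_d09_2 g__wQ_26_wN_1_rb8033094a_d43_d53_d41_d39_d43_d4d_d42_d36_d51_d24_d51_d26_d51_d09_3 g__wQ_26_wN_1_rb8033094a_d43_d53_d41_d39_d43_d4d_d42_d36_d51_d24_d51_d26_d51_d09_5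

theorem g__wQ_26_wN_1_rb8033094a_d43_d53_d41_d39_d43_d4d_d42_d36_d51_d24_d51_d26_d51_d09_0 : GoodKC AS k_wQ_26_wN_1_rb8033094a_d43_d53_d41_d39_d43_d4d_d42_d36_d51_d24_d51_d26_d51_d09_0 := p_wQ_26_wN_1_rb8033094a_d43_d53_d41_d39_d43_d4d_d42_d36_d51_d24_d51_d26_d51_d09_0 g__wQ_26_wN_1_rb8033094a_d43_d53_d41_d39_d43_d4d_d42_d36_d51_d24_d51_d26_d51_d09_1 g__wQ_26_wN_1_rb8033094a_d43_d53_d41_d39_d43_d4d_d42_d36_d51_d24_d51_d26_d51_d09_2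

theorem g_wQ_26_wN_1_rb8033094a_d43_d53_d41_d39_d43_d4d_d42_d36_d51_d24_d51_d26_d51_d09 : GoodKC AS c_wQ_26_wN_1_rb8033094a_d43_d53_d41_d39_d43_d4d_d42_d36_d51_d24_d51_d26_d51_d09 := p_wQ_26_wN_1_rb8033094a_d43_d53_d41_d39_d43_d4d_d42_d36_d51_d24_d51_d26_d51_d09 g__wQ_26_wN_1_rb8033094a_d43_d53_d41_d39_d43_d4d_d42_d36_d51_d24_d51_d26_d51_d09_0

theorem g_wQ_26_wN_1_rb8033094a_d43_d53_d41_d39_d43_d4d_d42_d36_d51_d24_d51_d26_d51_d08 : GoodKC AS c_wQ_26_wN_1_rb8033094a_d43_d53_d41_d39_d43_d4d_d42_d36_d51_d24_d51_d26_d51_d08 := p_wQ_26_wN_1_rb8033094a_d43_d53_d41_d39_d43_d4d_d42_d36_d51_d24_d51_d26_d51_d08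

theorem g_wQ_26_wN_1_rb8033094a_d43_d53_d41_d39_d43_d4d_d42_d36_d51_d24_d51_d26_d51_d07 : GoodKC AS c_wQ_26_wN_1_rb8033094a_d43_d53_d41_d39_d43_d4d_d42_d36_d51_d24_d51_d26_d51_d07 := p_wQ_26_wN_1_rb8033094a_d43_d53_d41_d39_d43_d4d_d42_d36_d51_d24_d51_d26_d51_d07

theorem g_wQ_26_wN_1_rb8033094a_d43_d53_d41_d39_d43_d4d_d42_d36_d51_d24_d51_d26_d51_d01 : GoodKC AS c_wQ_26_wN_1_rb8033094a_d43_d53_d41_d39_d43_d4d_d42_d36_d51_d24_d51_d26_d51_d01 := p_wQ_26_wN_1_rb8033094a_d43_d53_d41_d39_d43_d4d_d42_d36_d51_d24_d51_d26_d51_d01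

theorem g__wQ_26_wN_1_rb8033094a_d43_d53_d41_d39_d43_d4d_d42_d36_d51_d24_d51_d26_d51_d00v1_2 : GoodKC AS k_wQ_26_wN_1_rb8033094a_d43_d53_d41_d39_d43_d4d_d42_d36_d51_d24_d51_d26_d51_d00v1_2 := p_wQ_26_wN_1_rb8033094a_d43_d53_d41_d39_d43_d4d_d42_d36_d51_d24_d51_d26_d51_d00v1_2

theorem g__wQ_26_wN_1_rb8033094a_d43_d53_d41_d39_d43_d4d_d42_d36_d51_d24_d51_d26_d51_d00v1_1 : GoodKC AS k_wQ_26_wN_1_rb8033094a_d43_d53_d41_d39_d43_d4d_d42_d36_d51_d24_d51_d26_d51_d00v1_1 := p_wQ_26_wN_1_rb8033094a_d43_d53_d41_d39_d43_d4d_d42_d36_d51_d24_d51_d26_d51_d00v1_1 g__wQ_26_wN_1_rb8033094a_d43_d53_d41_d39_d43_d4d_d42_d36_d51_d24_d51_d26_d51_d00v1_2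

theorem g__wQ_26_wN_1_rb8033094a_d43_d53_d41_d39_d43_d4d_d42_d36_d51_d24_d51_d26_d51_d00v1_6 : GoodKC AS k_wQ_26_wN_1_rb8033094a_d43_d53_d41_d39_d43_d4d_d42_d36_d51_d24_d51_d26_d51_d00v1_6 := p_wQ_26_wN_1_rb8033094a_d43_d53_d41_d39_d43_d4d_d42_d36_d51_d24_d51_d26_d51_d00v1_6

theorem g__wQ_26_wN_1_rb8033094a_d43_d53_d41_d39_d43_d4d_d42_d36_d51_d24_d51_d26_d51_d00v1_5 : GoodKC AS k_wQ_26_wN_1_rb8033094a_d43_d53_d41_d39_d43_d4d_d42_d36_d51_d24_d51_d26_d51_d00v1_5 := p_wQ_26_wN_1_rb8033094a_d43_d53_d41_d39_d43_d4d_d42_d36_d51_d24_d51_d26_d51_d00v1_5 g__wQ_26_wN_1_rb8033094a_d43_d53_d41_d39_d43_d4d_d42_d36_d51_d24_d51_d26_d51_d00v1_6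

theorem g__wQ_26_wN_1_rb8033094a_d43_d53_d41_d39_d43_d4d_d42_d36_d51_d24_d51_d26_d51_d00v1_4 : GoodKC AS k_wQ_26_wN_1_rb8033094a_d43_d53_d41_d39_d43_d4d_d42_d36_d51_d24_d51_d26_d51_d00v1_4 := p_wQ_26_wN_1_rb8033094a_d43_d53_d41_d39_d43_d4d_d42_d36_d51_d24_d51_d26_d51_d00v1_4 g__wQ_26_wN_1_rb8033094a_d43_d53_d41_d39_d43_d4d_d42_d36_d51_d24_d51_d26_d51_d00v1_5

theorem g__wQ_26_wN_1_rb8033094a_d43_d53_d41_d39_d43_d4d_d42_d36_d51_d24_d51_d26_d51_d00v1_10 : GoodKC AS k_wQ_26_wN_1_rb8033094a_d43_d53_d41_d39_d43_d4d_d42_d36_d51_d24_d51_d26_d51_d00v1_10 := p_wQ_26_wN_1_rb8033094a_d43_d53_d41_d39_d43_d4d_d42_d36_d51_d24_d51_d26_d51_d00v1_10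

theorem g__wQ_26_wN_1_rb8033094a_d43_d53_d41_d39_d43_d4d_d42_d36_d51_d24_d51_d26_d51_d00v1_9 : GoodKC AS k_wQ_26_wN_1_rb8033094a_d43_d53_d41_d39_d43_d4d_d42_d36_d51_d24_d51_d26_d51_d00v1_9 := p_wQ_26_wN_1_rb8033094a_d43_d53_d41_d39_d43_d4d_d42_d36_d51_d24_d51_d26_d51_d00v1_9 g__wQ_26_wN_1_rb8033094a_d43_d53_d41_d39_d43_d4d_d42_d36_d51_d24_d51_d26_d51_d00v1_10

theorem g__wQ_26_wN_1_rb8033094a_d43_d53_d41_d39_d43_d4d_d42_d36_d51_d24_d51_d26_d51_d00v1_11 : GoodKC AS k_wQ_26_wN_1_rb8033094a_d43_d53_d41_d39_d43_d4d_d42_d36_d51_d24_d51_d26_d51_d00v1_11 := p_wQ_26_wN_1_rb8033094a_d43_d53_d41_d39_d43_d4d_d42_d36_d51_d24_d51_d26_d51_d00v1_11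

theorem g__wQ_26_wN_1_rb8033094a_d43_d53_d41_d39_d43_d4d_d42_d36_d51_d24_d51_d26_d51_d00v1_14 : GoodKC AS k_wQ_26_wN_1_rb8033094a_d43_d53_d41_d39_d43_d4d_d42_d36_d51_d24_d51_d26_d51_d00v1_14 := p_wQ_26_wN_1_rb8033094a_d43_d53_d41_d39_d43_d4d_d42_d36_d51_d24_d51_d26_d51_d00v1_14

theorem g__wQ_26_wN_1_rb8033094a_d43_d53_d41_d39_d43_d4d_d42_d36_d51_d24_d51_d26_d51_d00v1_15 : GoodKC AS k_wQ_26_wN_1_rb8033094a_d43_d53_d41_d39_d43_d4d_d42_d36_d51_d24_d51_d26_d51_d00v1_15 := p_wQ_26_wN_1_rb8033094a_d43_d53_d41_d39_d43_d4d_d42_d36_d51_d24_d51_d26_d51_d00v1_15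

theorem g__wQ_26_wN_1_rb8033094a_d43_d53_d41_d39_d43_d4d_d42_d36_d51_d24_d51_d26_d51_d00v1_13 : GoodKC AS k_wQ_26_wN_1_rb8033094a_d43_d53_d41_d39_d43_d4d_d42_d36_d51_d24_d51_d26_d51_d00v1_13 := p_wQ_26_wN_1_rb8033094a_d43_d53_d41_d39_d43_d4d_d42_d36_d51_d24_d51_d26_d51_d00v1_13 g__wQ_26_wN_1_rb8033094a_d43_d53_d41_d39_d43_d4d_d42_d36_d51_d24_d51_d26_d51_d00v1_14 g__wQ_26_wN_1_rb8033094a_d43_d53_d41_d39_d43_d4d_d42_d36_d51_d24_d51_d26_d51_d00v1_15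

theorem g__wQ_26_wN_1_rb8033094a_d43_d53_d41_d39_d43_d4d_d42_d36_d51_d24_d51_d26_d51_d00v1_12 : GoodKC AS k_wQ_26_wN_1_rb8033094a_d43_d53_d41_d39_d43_d4d_d42_d36_d51_d24_d51_d26_d51_d00v1_12 := p_wQ_26_wN_1_rb8033094a_d43_d53_d41_d39_d43_d4d_d42_d36_d51_d24_d51_d26_d51_d00v1_12 g__wQ_26_wN_1_rb8033094a_d43_d53_d41_d39_d43_d4d_d42_d36_d51_d24_d51_d26_d51_d00v1_13

theorem g__wQ_26_wN_1_rb8033094a_d43_d53_d41_d39_d43_d4d_d42_d36_d51_d24_d51_d26_d51_d00v1_17 : GoodKC AS k_wQ_26_wN_1_rb8033094a_d43_d53_d41_d39_d43_d4d_d42_d36_d51_d24_d51_d26_d51_d00v1_17 := p_wQ_26_wN_1_rb8033094a_d43_d53_d41_d39_d43_d4d_d42_d36_d51_d24_d51_d26_d51_d00v1_17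

theorem g__wQ_26_wN_1_rb8033094a_d43_d53_d41_d39_d43_d4d_d42_d36_d51_d24_d51_d26_d51_d00v1_16 : GoodKC AS k_wQ_26_wN_1_rb8033094a_d43_d53_d41_d39_d43_d4d_d42_d36_d51_d24_d51_d26_d51_d00v1_16 := p_wQ_26_wN_1_rb8033094a_d43_d53_d41_d39_d43_d4d_d42_d36_d51_d24_d51_d26_d51_d00v1_16 g__wQ_26_wN_1_rb8033094a_d43_d53_d41_d39_d43_d4d_d42_d36_d51_d24_d51_d26_d51_d00v1_17

theorem g__wQ_26_wN_1_rb8033094a_d43_d53_d41_d39_d43_d4d_d42_d36_d51_d24_d51_d26_d51_d00v1_8 : GoodKC AS k_wQ_26_wN_1_rb8033094a_d43_d53_d41_d39_d43_d4d_d42_d36_d51_d24_d51_d26_d51_d00v1_8 := p_wQ_26_wN_1_rb8033094a_d43_d53_d41_d39_d43_d4d_d42_d36_d51_d24_d51_d26_d51_d00v1_8 g__wQ_26_wN_1_rb8033094a_d43_d53_d41_d39_d43_d4d_d42_d36_d51_d24_d51_d26_d51_d00v1_9 g__wQ_26_wN_1_rb8033094a_d43_d53_d41_d39_d43_d4d_d42_d36_d51_d24_d51_d26_d51_d00v1_11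 g__wQ_26_wN_1_rb8033094a_d43_d53_d41_d39_d43_d4d_d42_d36_d51_d24_d51_d26_d51_d00v1_12 g__wQ_26_wN_1_rb8033094a_d43_d53_d41_d39_d43_d4d_d42_d36_d51_d24_d51_d26_d51_d00v1_16

theorem g__wQ_26_wN_1_rb8033094a_d43_d53_d41_d39_d43_d4d_d42_d36_d51_d24_d51_d26_d51_d00v1_7 : GoodKC AS k_wQ_26_wN_1_rb8033094a_d43_d53_d41_d39_d43_d4d_d42_d36_d51_d24_d51_d26_d51_d00v1_7 := p_wQ_26_wN_1_rb8033094a_d43_d53_d41_d39_d43_d4d_d42_d36_d51_d24_d51_d26_d51_d00v1_7 g__wQ_26_wN_1_rb8033094a_d43_d53_d41_d39_d43_d4d_d42_d36_d51_d24_d51_d26_d51_d00v1_8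

theorem g__wQ_26_wN_1_rb8033094a_d43_d53_d41_d39_d43_d4d_d42_d36_d51_d24_d51_d26_d51_d00v1_3 : GoodKC AS k_wQ_26_wN_1_rb8033094a_d43_d53_d41_d39_d43_d4d_d42_d36_d51_d24_d51_d26_d51_d00v1_3 := p_wQ_26_wN_1_rb8033094a_d43_d53_d41_d39_d43_d4d_d42_d36_d51_d24_d51_d26_d51_d00v1_3 g__wQ_26_wN_1_rb8033094a_d43_d53_d41_d39_d43_d4d_d42_d36_d51_d24_d51_d26_d51_d00v1_4 g__wQ_26_wN_1_rb8033094a_d43_d53_d41_d39_d43_d4d_d42_d36_d51_d24_d51_d26_d51_d00v1_7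

theorem g__wQ_26_wN_1_rb8033094a_d43_d53_d41_d39_d43_d4d_d42_d36_d51_d24_d51_d26_d51_d00v1_0 : GoodKC AS k_wQ_26_wN_1_rb8033094a_d43_d53_d41_d39_d43_d4d_d42_d36_d51_d24_d51_d26_d51_d00v1_0 := p_wQ_26_wN_1_rb8033094a_d43_d53_d41_d39_d43_d4d_d42_d36_d51_d24_d51_d26_d51_d00v1_0 g__wQ_26_wN_1_rb8033094a_d43_d53_d41_d39_d43_d4d_d42_d36_d51_d24_d51_d26_d51_d00v1_1 g__wQ_26_wN_1_rb8033094a_d43_d53_d41_d39_d43_d4d_d42_d36_d51_d24_d51_d26_d51_d00v1_3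

theorem g_wQ_26_wN_1_rb8033094a_d43_d53_d41_d39_d43_d4d_d42_d36_d51_d24_d51_d26_d51_d00 : GoodKC AS c_wQ_26_wN_1_rb8033094a_d43_d53_d41_d39_d43_d4d_d42_d36_d51_d24_d51_d26_d51_d00 := p_wQ_26_wN_1_rb8033094a_d43_d53_d41_d39_d43_d4d_d42_d36_d51_d24_d51_d26_d51_d00v1 g__wQ_26_wN_1_rb8033094a_d43_d53_d41_d39_d43_d4d_d42_d36_d51_d24_d51_d26_d51_d00v1_0

theorem g_wQ_26_wN_1_rb8033094a_d43_d53_d41_d39_d43_d4d_d42_d36_d51_d24_d51_d26_d51_d02 : GoodKC AS c_wQ_26_wN_1_rb8033094a_d43_d53_d41_d39_d43_d4d_d42_d36_d51_d24_d51_d26_d51_d02 := p_wQ_26_wN_1_rb8033094a_d43_d53_d41_d39_d43_d4d_d42_d36_d51_d24_d51_d26_d51_d02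

theorem g_wQ_26_wN_1_rb8033094a_d43_d53_d41_d39_d43_d4d_d42_d36_d51_d24_d51_d26_d51_d03 : GoodKC AS c_wQ_26_wN_1_rb8033094a_d43_d53_d41_d39_d43_d4d_d42_d36_d51_d24_d51_d26_d51_d03 := p_wQ_26_wN_1_rb8033094a_d43_d53_d41_d39_d43_d4d_d42_d36_d51_d24_d51_d26_d51_d03

theorem g_wQ_26_wN_1_rb8033094a_d43_d53_d41_d39_d43_d4d_d42_d36_d51_d24_d51_d26_d51_d04 : GoodKC AS c_wQ_26_wN_1_rb8033094a_d43_d53_d41_d39_d43_d4d_d42_d36_d51_d24_d51_d26_d51_d04 := p_wQ_26_wN_1_rb8033094a_d43_d53_d41_d39_d43_d4d_d42_d36_d51_d24_d51_d26_d51_d04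

theorem g_wQ_26_wN_1_rb8033094a_d43_d53_d41_d39_d43_d4d_d42_d36_d51_d24_d51_d26_d51_d05_d51_d01 : GoodKC AS c_wQ_26_wN_1_rb8033094a_d43_d53_d41_d39_d43_d4d_d42_d36_d51_d24_d51_d26_d51_d05_d51_d01 := p_wQ_26_wN_1_rb8033094a_d43_d53_d41_d39_d43_d4d_d42_d36_d51_d24_d51_d26_d51_d05_d51_d01

theorem g_wQ_26_wN_1_rb8033094a_d43_d53_d41_d39_d43_d4d_d42_d36_d51_d24_d51_d26_d51_d05_d51_d00 : GoodKC AS c_wQ_26_wN_1_rb8033094a_d43_d53_d41_d39_d43_d4d_d42_d36_d51_d24_d51_d26_d51_d05_d51_d00 := p_wQ_26_wN_1_rb8033094a_d43_d53_d41_d39_d43_d4d_d42_d36_d51_d24_d51_d26_d51_d05_d51_d00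

theorem g_wQ_26_wN_1_rb8033094a_d43_d53_d41_d39_d43_d4d_d42_d36_d51_d24_d51_d26_d51_d05_d51_d02 : GoodKC AS c_wQ_26_wN_1_rb8033094a_d43_d53_d41_d39_d43_d4d_d42_d36_d51_d24_d51_d26_d51_d05_d51_d02 := p_wQ_26_wN_1_rb8033094a_d43_d53_d41_d39_d43_d4d_d42_d36_d51_d24_d51_d26_d51_d05_d51_d02

theorem g__wQ_26_wN_1_rb8033094a_d43_d53_d41_d39_d43_d4d_d42_d36_d51_d24_d51_d26_d51_d05_1 : GoodKC AS k_wQ_26_wN_1_rb8033094a_d43_d53_d41_d39_d43_d4d_d42_d36_d51_d24_d51_d26_d51_d05_1 := p_wQ_26_wN_1_rb8033094a_d43_d53_d41_d39_d43_d4d_d42_d36_d51_d24_d51_d26_d51_d05_1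

theorem g__wQ_26_wN_1_rb8033094a_d43_d53_d41_d39_d43_d4d_d42_d36_d51_d24_d51_d26_d51_d05_0 : GoodKC AS k_wQ_26_wN_1_rb8033094a_d43_d53_d41_d39_d43_d4d_d42_d36_d51_d24_d51_d26_d51_d05_0 := p_wQ_26_wN_1_rb8033094a_d43_d53_d41_d39_d43_d4d_d42_d36_d51_d24_d51_d26_d51_d05_0 g__wQ_26_wN_1_rb8033094a_d43_d53_d41_d39_d43_d4d_d42_d36_d51_d24_d51_d26_d51_d05_1

theorem g_wQ_26_wN_1_rb8033094a_d43_d53_d41_d39_d43_d4d_d42_d36_d51_d24_d51_d26_d51_d05 : GoodKC AS c_wQ_26_wN_1_rb8033094a_d43_d53_d41_d39_d43_d4d_d42_d36_d51_d24_d51_d26_d51_d05 := p_wQ_26_wN_1_rb8033094a_d43_d53_d41_d39_d43_d4d_d42_d36_d51_d24_d51_d26_d51_d05 g_wQ_26_wN_1_rb8033094a_d43_d53_d41_d39_d43_d4d_d42_d36_d51_d24_d51_d26_d51_d05_d51_d01 g_wQ_26_wN_1_rb8033094a_d43_d53_d41_d39_d43_d4d_d42_d36_d51_d24_d51_d26_d51_d05_d51_d00 g_wQ_26_wN_1_rb8033094a_d43_d53_d41_d39_d43_d4d_d42_d36_d51_d24_d51_d26_d51_d05_d51_d02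 g__wQ_26_wN_1_rb8033094a_d43_d53_d41_d39_d43_d4d_d42_d36_d51_d24_d51_d26_d51_d05_0

theorem g_wQ_26_wN_1_rb8033094a_d43_d53_d41_d39_d43_d4d_d42_d36_d51_d24_d51_d26_d51_d06 : GoodKC AS c_wQ_26_wN_1_rb8033094a_d43_d53_d41_d39_d43_d4d_d42_d36_d51_d24_d51_d26_d51_d06 := p_wQ_26_wN_1_rb8033094a_d43_d53_d41_d39_d43_d4d_d42_d36_d51_d24_d51_d26_d51_d06

theorem g_wQ_26_wN_1_rb8033094a_d43_d53_d41_d39_d43_d4d_d42_d36_d51_d24_d51_d26_d51_d0b : GoodKC AS c_wQ_26_wN_1_rb8033094a_d43_d53_d41_d39_d43_d4d_d42_d36_d51_d24_d51_d26_d51_d0b := p_wQ_26_wN_1_rb8033094a_d43_d53_d41_d39_d43_d4d_d42_d36_d51_d24_d51_d26_d51_d0b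

theorem g_wQ_26_wN_1_rb8033094a_d43_d53_d41_d39_d43_d4d_d42_d36_d51_d24_d51_d26_d51_d0d : GoodKC AS c_wQ_26_wN_1_rb8033094a_d43_d53_d41_d39_d43_d4d_d42_d36_d51_d24_d51_d26_d51_d0d := p_wQ_26_wN_1_rb8033094a_d43_d53_d41_d39_d43_d4d_d42_d36_d51_d24_d51_d26_d51_d0d

theorem g_wQ_26_wN_1_rb8033094a_d43_d53_d41_d39_d43_d4d_d42_d36_d51_d24_d51_d26_d51_d0e : GoodKC AS c_wQ_26_wN_1_rb8033094a_d43_d53_d41_d39_d43_d4d_d42_d36_d51_d24_d51_d26_d51_d0e := p_wQ_26_wN_1_rb8033094a_d43_d53_d41_d39_d43_d4d_d42_d36_d51_d24_d51_d26_d51_d0e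

theorem g_wQ_26_wN_1_rb8033094a_d43_d53_d41_d39_d43_d4d_d42_d36_d51_d24_d51_d26_d51_d11 : GoodKC AS c_wQ_26_wN_1_rb8033094a_d43_d53_d41_d39_d43_d4d_d42_d36_d51_d24_d51_d26_d51_d11 := p_wQ_26_wN_1_rb8033094a_d43_d53_d41_d39_d43_d4d_d42_d36_d51_d24_d51_d26_d51_d11

theorem g_wQ_26_wN_1_rb8033094a_d43_d53_d41_d39_d43_d4d_d42_d36_d51_d24_d51_d26_d51_d14 : GoodKC AS c_wQ_26_wN_1_rb8033094a_d43_d53_d41_d39_d43_d4d_d42_d36_d51_d24_d51_d26_d51_d14 := p_wQ_26_wN_1_rb8033094a_d43_d53_d41_d39_d43_d4d_d42_d36_d51_d24_d51_d26_d51_d14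

theorem g_wQ_26_wN_1_rb8033094a_d43_d53_d41_d39_d43_d4d_d42_d36_d51_d24_d51_d26_d51_d19 : GoodKC AS c_wQ_26_wN_1_rb8033094a_d43_d53_d41_d39_d43_d4d_d42_d36_d51_d24_d51_d26_d51_d19 := p_wQ_26_wN_1_rb8033094a_d43_d53_d41_d39_d43_d4d_d42_d36_d51_d24_d51_d26_d51_d19

theorem g_wQ_26_wN_1_rb8033094a_d43_d53_d41_d39_d43_d4d_d42_d36_d51_d24_d51_d26_d51_d1d : GoodKC AS c_wQ_26_wN_1_rb8033094a_d43_d53_d41_d39_d43_d4d_d42_d36_d51_d24_d51_d26_d51_d1d := p_wQ_26_wN_1_rb8033094a_d43_d53_d41_d39_d43_d4d_d42_d36_d51_d24_d51_d26_d51_d1d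

theorem g_wQ_26_wN_1_rb8033094a_d43_d53_d41_d39_d43_d4d_d42_d36_d51_d24_d51_d26_d51_d20 : GoodKC AS c_wQ_26_wN_1_rb8033094a_d43_d53_d41_d39_d43_d4d_d42_d36_d51_d24_d51_d26_d51_d20 := p_wQ_26_wN_1_rb8033094a_d43_d53_d41_d39_d43_d4d_d42_d36_d51_d24_d51_d26_d51_d20

theorem g_wQ_26_wN_1_rb8033094a_d43_d53_d41_d39_d43_d4d_d42_d36_d51_d24_d51_d26_d51_d24 : GoodKC AS c_wQ_26_wN_1_rb8033094a_d43_d53_d41_d39_d43_d4d_d42_d36_d51_d24_d51_d26_d51_d24 := p_wQ_26_wN_1_rb8033094a_d43_d53_d41_d39_d43_d4d_d42_d36_d51_d24_d51_d26_d51_d24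

theorem g_wQ_26_wN_1_rb8033094a_d43_d53_d41_d39_d43_d4d_d42_d36_d51_d24_d51_d26 : GoodKC AS c_wQ_26_wN_1_rb8033094a_d43_d53_d41_d39_d43_d4d_d42_d36_d51_d24_d51_d26 := p_wQ_26_wN_1_rb8033094a_d43_d53_d41_d39_d43_d4d_d42_d36_d51_d24_d51_d26 g_wQ_26_wN_1_rb8033094a_d43_d53_d41_d39_d43_d4d_d42_d36_d51_d24_d51_d26_d51_d26 g_wQ_26_wN_1_rb8033094a_d43_d53_d41_d39_d43_d4d_d42_d36_d51_d24_d51_d26_d51_d25 g_wQ_26_wN_1_rb8033094a_d43_d53_d41_d39_d43_d4d_d42_d36_d51_d24_d51_d26_d51_d23 g_wQ_26_wN_1_rb8033094a_d43_d53_d41_d39_d43_d4d_d42_d36_d51_d24_d51_d26_d51_d22 g_wQ_26_wN_1_rb8033094a_d43_d53_d41_d39_d43_d4d_d42_d36_d51_d24_d51_d26_d51_d21 g_wQ_26_wN_1_rb8033094a_d43_d53_d41_d39_d43_d4d_d42_d36_d51_d24_d51_d26_d51_d1f g_wQ_26_wN_1_rb8033094a_d43_d53_d41_d39_d43_d4d_d42_d36_d51_d24_d51_d26_d51_d1e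 g_wQ_26_wN_1_rb8033094a_d43_d53_d41_d39_d43_d4d_d42_d36_d51_d24_d51_d26_d51_d1c g_wQ_26_wN_1_rb8033094a_d43_d53_d41_d39_d43_d4d_d42_d36_d51_d24_d51_d26_d51_d1b g_wQ_26_wN_1_rb8033094a_d43_d53_d41_d39_d43_d4d_d42_d36_d51_d24_d51_d26_d51_d1a g_wQ_26_wN_1_rb8033094a_d43_d53_d41_d39_d43_d4d_d42_d36_d51_d24_d51_d26_d51_d18 g_wQ_26_wN_1_rb8033094a_d43_d53_d41_d39_d43_d4d_d42_d36_d51_d24_d51_d26_d51_d17 g_wQ_26_wN_1_rb8033094a_d43_d53_d41_d39_d43_d4d_d42_d36_d51_d24_d51_d26_d51_d16 g_wQ_26_wN_1_rb8033094a_d43_d53_d41_d39_d43_d4d_d42_d36_d51_d24_d51_d26_d51_d15 g_wQ_26_wN_1_rb8033094a_d43_d53_d41_d39_d43_d4d_d42_d36_d51_d24_d51_d26_d51_d13 g_wQ_26_wN_1_rb8033094a_d43_d53_d41_d39_d43_d4d_d42_d36_d51_d24_d51_d26_d51_d12 g_wQ_26_wN_1_rb8033094a_d43_d53_d41_d39_d43_d4d_d42_d36_d51_d24_d51_d26_d51_d10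 g_wQ_26_wN_1_rb8033094a_d43_d53_d41_d39_d43_d4d_d42_d36_d51_d24_d51_d26_d51_d0f g_wQ_26_wN_1_rb8033094a_d43_d53_d41_d39_d43_d4d_d42_d36_d51_d24_d51_d26_d51_d0c g_wQ_26_wN_1_rb8033094a_d43_d53_d41_d39_d43_d4d_d42_d36_d51_d24_d51_d26_d51_d0a g_wQ_26_wN_1_rb8033094a_d43_d53_d41_d39_d43_d4d_d42_d36_d51_d24_d51_d26_d51_d09 g_wQ_26_wN_1_rb8033094a_d43_d53_d41_d39_d43_d4d_d42_d36_d51_d24_d51_d26_d51_d08 g_wQ_26_wN_1_rb8033094a_d43_d53_d41_d39_d43_d4d_d42_d36_d51_d24_d51_d26_d51_d07 g_wQ_26_wN_1_rb8033094a_d43_d53_d41_d39_d43_d4d_d42_d36_d51_d24_d51_d26_d51_d01 g_wQ_26_wN_1_rb8033094a_d43_d53_d41_d39_d43_d4d_d42_d36_d51_d24_d51_d26_d51_d00 g_wQ_26_wN_1_rb8033094a_d43_d53_d41_d39_d43_d4d_d42_d36_d51_d24_d51_d26_d51_d02 g_wQ_26_wN_1_rb8033094a_d43_d53_d41_d39_d43_d4d_d42_d36_d51_d24_d51_d26_d51_d03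 g_wQ_26_wN_1_rb8033094a_d43_d53_d41_d39_d43_d4d_d42_d36_d51_d24_d51_d26_d51_d04 g_wQ_26_wN_1_rb8033094a_d43_d53_d41_d39_d43_d4d_d42_d36_d51_d24_d51_d26_d51_d05 g_wQ_26_wN_1_rb8033094a_d43_d53_d41_d39_d43_d4d_d42_d36_d51_d24_d51_d26_d51_d06 g_wQ_26_wN_1_rb8033094a_d43_d53_d41_d39_d43_d4d_d42_d36_d51_d24_d51_d26_d51_d0b g_wQ_26_wN_1_rb8033094a_d43_d53_d41_d39_d43_d4d_d42_d36_d51_d24_d51_d26_d51_d0d g_wQ_26_wN_1_rb8033094a_d43_d53_d41_d39_d43_d4d_d42_d36_d51_d24_d51_d26_d51_d0e g_wQ_26_wN_1_rb8033094a_d43_d53_d41_d39_d43_d4d_d42_d36_d51_d24_d51_d26_d51_d11 g_wQ_26_wN_1_rb8033094a_d43_d53_d41_d39_d43_d4d_d42_d36_d51_d24_d51_d26_d51_d14 g_wQ_26_wN_1_rb8033094a_d43_d53_d41_d39_d43_d4d_d42_d36_d51_d24_d51_d26_d51_d19 g_wQ_26_wN_1_rb8033094a_d43_d53_d41_d39_d43_d4d_d42_d36_d51_d24_d51_d26_d51_d1d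 g_wQ_26_wN_1_rb8033094a_d43_d53_d41_d39_d43_d4d_d42_d36_d51_d24_d51_d26_d51_d20 g_wQ_26_wN_1_rb8033094a_d43_d53_d41_d39_d43_d4d_d42_d36_d51_d24_d51_d26_d51_d24

theorem g_wQ_26_wN_1_rb8033094a_d43_d53_d41_d39_d43_d4d_d42_d36_d51_d24 : GoodKC AS c_wQ_26_wN_1_rb8033094a_d43_d53_d41_d39_d43_d4d_d42_d36_d51_d24 := p_wQ_26_wN_1_rb8033094a_d43_d53_d41_d39_d43_d4d_d42_d36_d51_d24 g_wQ_26_wN_1_rb8033094a_d43_d53_d41_d39_d43_d4d_d42_d36_d51_d24_d51_d25 g_wQ_26_wN_1_rb8033094a_d43_d53_d41_d39_d43_d4d_d42_d36_d51_d24_d51_d23 g_wQ_26_wN_1_rb8033094a_d43_d53_d41_d39_d43_d4d_d42_d36_d51_d24_d51_d22 g_wQ_26_wN_1_rb8033094a_d43_d53_d41_d39_d43_d4d_d42_d36_d51_d24_d51_d21 g_wQ_26_wN_1_rb8033094a_d43_d53_d41_d39_d43_d4d_d42_d36_d51_d24_d51_d20 g_wQ_26_wN_1_rb8033094a_d43_d53_d41_d39_d43_d4d_d42_d36_d51_d24_d51_d1f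 g_wQ_26_wN_1_rb8033094a_d43_d53_d41_d39_d43_d4d_d42_d36_d51_d24_d51_d1e g_wQ_26_wN_1_rb8033094a_d43_d53_d41_d39_d43_d4d_d42_d36_d51_d24_d51_d1d g_wQ_26_wN_1_rb8033094a_d43_d53_d41_d39_d43_d4d_d42_d36_d51_d24_d51_d1c g_wQ_26_wN_1_rb8033094a_d43_d53_d41_d39_d43_d4d_d42_d36_d51_d24_d51_d1a g_wQ_26_wN_1_rb8033094a_d43_d53_d41_d39_d43_d4d_d42_d36_d51_d24_d51_d19 g_wQ_26_wN_1_rb8033094a_d43_d53_d41_d39_d43_d4d_d42_d36_d51_d24_d51_d18 g_wQ_26_wN_1_rb8033094a_d43_d53_d41_d39_d43_d4d_d42_d36_d51_d24_d51_d17 g_wQ_26_wN_1_rb8033094a_d43_d53_d41_d39_d43_d4d_d42_d36_d51_d24_d51_d15 g_wQ_26_wN_1_rb8033094a_d43_d53_d41_d39_d43_d4d_d42_d36_d51_d24_d51_d14 g_wQ_26_wN_1_rb8033094a_d43_d53_d41_d39_d43_d4d_d42_d36_d51_d24_d51_d13 g_wQ_26_wN_1_rb8033094a_d43_d53_d41_d39_d43_d4d_d42_d36_d51_d24_d51_d10 g_wQ_26_wN_1_rb8033094a_d43_d53_d41_d39_d43_d4d_d42_d36_d51_d24_d51_d0f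 g_wQ_26_wN_1_rb8033094a_d43_d53_d41_d39_d43_d4d_d42_d36_d51_d24_d51_d0e g_wQ_26_wN_1_rb8033094a_d43_d53_d41_d39_d43_d4d_d42_d36_d51_d24_d51_d0d g_wQ_26_wN_1_rb8033094a_d43_d53_d41_d39_d43_d4d_d42_d36_d51_d24_d51_d0b g_wQ_26_wN_1_rb8033094a_d43_d53_d41_d39_d43_d4d_d42_d36_d51_d24_d51_d0a g_wQ_26_wN_1_rb8033094a_d43_d53_d41_d39_d43_d4d_d42_d36_d51_d24_d51_d09 g_wQ_26_wN_1_rb8033094a_d43_d53_d41_d39_d43_d4d_d42_d36_d51_d24_d51_d07 g_wQ_26_wN_1_rb8033094a_d43_d53_d41_d39_d43_d4d_d42_d36_d51_d24_d51_d06 g_wQ_26_wN_1_rb8033094a_d43_d53_d41_d39_d43_d4d_d42_d36_d51_d24_d51_d05 g_wQ_26_wN_1_rb8033094a_d43_d53_d41_d39_d43_d4d_d42_d36_d51_d24_d51_d04 g_wQ_26_wN_1_rb8033094a_d43_d53_d41_d39_d43_d4d_d42_d36_d51_d24_d51_d02 g_wQ_26_wN_1_rb8033094a_d43_d53_d41_d39_d43_d4d_d42_d36_d51_d24_d51_d01 g_wQ_26_wN_1_rb8033094a_d43_d53_d41_d39_d43_d4d_d42_d36_d51_d24_d51_d00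 g_wQ_26_wN_1_rb8033094a_d43_d53_d41_d39_d43_d4d_d42_d36_d51_d24_d51_d03 g_wQ_26_wN_1_rb8033094a_d43_d53_d41_d39_d43_d4d_d42_d36_d51_d24_d51_d08 g_wQ_26_wN_1_rb8033094a_d43_d53_d41_d39_d43_d4d_d42_d36_d51_d24_d51_d0c g_wQ_26_wN_1_rb8033094a_d43_d53_d41_d39_d43_d4d_d42_d36_d51_d24_d51_d11 g_wQ_26_wN_1_rb8033094a_d43_d53_d41_d39_d43_d4d_d42_d36_d51_d24_d51_d12 g_wQ_26_wN_1_rb8033094a_d43_d53_d41_d39_d43_d4d_d42_d36_d51_d24_d51_d16 g_wQ_26_wN_1_rb8033094a_d43_d53_d41_d39_d43_d4d_d42_d36_d51_d24_d51_d1b g_wQ_26_wN_1_rb8033094a_d43_d53_d41_d39_d43_d4d_d42_d36_d51_d24_d51_d24 g_wQ_26_wN_1_rb8033094a_d43_d53_d41_d39_d43_d4d_d42_d36_d51_d24_d51_d26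

theorem g__wQ_26_wN_1_rb8033094a_d43_d53_d41_d39_d43_d4d_d42_d36_d51_d28_1 : GoodKC AS k_wQ_26_wN_1_rb8033094a_d43_d53_d41_d39_d43_d4d_d42_d36_d51_d28_1 := p_wQ_26_wN_1_rb8033094a_d43_d53_d41_d39_d43_d4d_d42_d36_d51_d28_1

theorem g__wQ_26_wN_1_rb8033094a_d43_d53_d41_d39_d43_d4d_d42_d36_d51_d28_0 : GoodKC AS k_wQ_26_wN_1_rb8033094a_d43_d53_d41_d39_d43_d4d_d42_d36_d51_d28_0 := p_wQ_26_wN_1_rb8033094a_d43_d53_d41_d39_d43_d4d_d42_d36_d51_d28_0 g__wQ_26_wN_1_rb8033094a_d43_d53_d41_d39_d43_d4d_d42_d36_d51_d28_1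

theorem g_wQ_26_wN_1_rb8033094a_d43_d53_d41_d39_d43_d4d_d42_d36_d51_d28 : GoodKC AS c_wQ_26_wN_1_rb8033094a_d43_d53_d41_d39_d43_d4d_d42_d36_d51_d28 := p_wQ_26_wN_1_rb8033094a_d43_d53_d41_d39_d43_d4d_d42_d36_d51_d28 g__wQ_26_wN_1_rb8033094a_d43_d53_d41_d39_d43_d4d_d42_d36_d51_d28_0

theorem g_wQ_26_wN_1_rb8033094a_d43_d53_d41_d39_d43_d4d_d42_d36v1 : GoodKC AS c_wQ_26_wN_1_rb8033094a_d43_d53_d41_d39_d43_d4d_d42_d36v1 := p_wQ_26_wN_1_rb8033094a_d43_d53_d41_d39_d43_d4d_d42_d36 g_wQ_26_wN_1_rb8033094a_d43_d53_d41_d39_d43_d4d_d42_d36_d51_d2c g_wQ_26_wN_1_rb8033094a_d43_d53_d41_d39_d43_d4d_d42_d36_d51_d2b g_wQ_26_wN_1_rb8033094a_d43_d53_d41_d39_d43_d4d_d42_d36_d51_d2a g_wQ_26_wN_1_rb8033094a_d43_d53_d41_d39_d43_d4d_d42_d36_d51_d29 g_wQ_26_wN_1_rb8033094a_d43_d53_d41_d39_d43_d4d_d42_d36_d51_d27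 g_wQ_26_wN_1_rb8033094a_d43_d53_d41_d39_d43_d4d_d42_d36_d51_d26 g_wQ_26_wN_1_rb8033094a_d43_d53_d41_d39_d43_d4d_d42_d36_d51_d25 g_wQ_26_wN_1_rb8033094a_d43_d53_d41_d39_d43_d4d_d42_d36_d51_d22 g_wQ_26_wN_1_rb8033094a_d43_d53_d41_d39_d43_d4d_d42_d36_d51_d21 g_wQ_26_wN_1_rb8033094a_d43_d53_d41_d39_d43_d4d_d42_d36_d51_d20 g_wQ_26_wN_1_rb8033094a_d43_d53_d41_d39_d43_d4d_d42_d36_d51_d1e g_wQ_26_wN_1_rb8033094a_d43_d53_d41_d39_d43_d4d_d42_d36_d51_d1d g_wQ_26_wN_1_rb8033094a_d43_d53_d41_d39_d43_d4d_d42_d36_d51_d1c g_wQ_26_wN_1_rb8033094a_d43_d53_d41_d39_d43_d4d_d42_d36_d51_d1b g_wQ_26_wN_1_rb8033094a_d43_d53_d41_d39_d43_d4d_d42_d36_d51_d19 g_wQ_26_wN_1_rb8033094a_d43_d53_d41_d39_d43_d4d_d42_d36_d51_d18 g_wQ_26_wN_1_rb8033094a_d43_d53_d41_d39_d43_d4d_d42_d36_d51_d15 g_wQ_26_wN_1_rb8033094a_d43_d53_d41_d39_d43_d4d_d42_d36_d51_d14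 g_wQ_26_wN_1_rb8033094a_d43_d53_d41_d39_d43_d4d_d42_d36_d51_d12 g_wQ_26_wN_1_rb8033094a_d43_d53_d41_d39_d43_d4d_d42_d36_d51_d10 g_wQ_26_wN_1_rb8033094a_d43_d53_d41_d39_d43_d4d_d42_d36_d51_d0e g_wQ_26_wN_1_rb8033094a_d43_d53_d41_d39_d43_d4d_d42_d36_d51_d0d g_wQ_26_wN_1_rb8033094a_d43_d53_d41_d39_d43_d4d_d42_d36_d51_d0c g_wQ_26_wN_1_rb8033094a_d43_d53_d41_d39_d43_d4d_d42_d36_d51_d0b g_wQ_26_wN_1_rb8033094a_d43_d53_d41_d39_d43_d4d_d42_d36_d51_d0a g_wQ_26_wN_1_rb8033094a_d43_d53_d41_d39_d43_d4d_d42_d36_d51_d09 g_wQ_26_wN_1_rb8033094a_d43_d53_d41_d39_d43_d4d_d42_d36_d51_d08 g_wQ_26_wN_1_rb8033094a_d43_d53_d41_d39_d43_d4d_d42_d36_d51_d07 g_wQ_26_wN_1_rb8033094a_d43_d53_d41_d39_d43_d4d_d42_d36_d51_d05 g_wQ_26_wN_1_rb8033094a_d43_d53_d41_d39_d43_d4d_d42_d36_d51_d04 g_wQ_26_wN_1_rb8033094a_d43_d53_d41_d39_d43_d4d_d42_d36_d51_d02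 g_wQ_26_wN_1_rb8033094a_d43_d53_d41_d39_d43_d4d_d42_d36_d51_d01 g_wQ_26_wN_1_rb8033094a_d43_d53_d41_d39_d43_d4d_d42_d36_d51_d00 g_wQ_26_wN_1_rb8033094a_d43_d53_d41_d39_d43_d4d_d42_d36_d51_d03 g_wQ_26_wN_1_rb8033094a_d43_d53_d41_d39_d43_d4d_d42_d36_d51_d06 g_wQ_26_wN_1_rb8033094a_d43_d53_d41_d39_d43_d4d_d42_d36_d51_d0f g_wQ_26_wN_1_rb8033094a_d43_d53_d41_d39_d43_d4d_d42_d36_d51_d11 g_wQ_26_wN_1_rb8033094a_d43_d53_d41_d39_d43_d4d_d42_d36_d51_d13 g_wQ_26_wN_1_rb8033094a_d43_d53_d41_d39_d43_d4d_d42_d36_d51_d16 g_wQ_26_wN_1_rb8033094a_d43_d53_d41_d39_d43_d4d_d42_d36_d51_d17 g_wQ_26_wN_1_rb8033094a_d43_d53_d41_d39_d43_d4d_d42_d36_d51_d1a g_wQ_26_wN_1_rb8033094a_d43_d53_d41_d39_d43_d4d_d42_d36_d51_d1f g_wQ_26_wN_1_rb8033094a_d43_d53_d41_d39_d43_d4d_d42_d36_d51_d23 g_wQ_26_wN_1_rb8033094a_d43_d53_d41_d39_d43_d4d_d42_d36_d51_d24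 g_wQ_26_wN_1_rb8033094a_d43_d53_d41_d39_d43_d4d_d42_d36_d51_d28

theorem g_wQ_26_wN_1_rb8033094a_d43_d53_d41_d39_d43_d4d_d42_d3av1 : GoodKC AS c_wQ_26_wN_1_rb8033094a_d43_d53_d41_d39_d43_d4d_d42_d3av1 := p_wQ_26_wN_1_rb8033094a_d43_d53_d41_d39_d43_d4d_d42_d3a

theorem g_wQ_26_wN_1_rb8033094a_d43_d53_d41_d39_d43_d4d_d42_d3b_d51_d27 : GoodKC AS c_wQ_26_wN_1_rb8033094a_d43_d53_d41_d39_d43_d4d_d42_d3b_d51_d27 := p_wQ_26_wN_1_rb8033094a_d43_d53_d41_d39_d43_d4d_d42_d3b_d51_d27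

theorem g__wQ_26_wN_1_rb8033094a_d43_d53_d41_d39_d43_d4d_d42_d3b_d51_d26_0 : GoodKC AS k_wQ_26_wN_1_rb8033094a_d43_d53_d41_d39_d43_d4d_d42_d3b_d51_d26_0 := p_wQ_26_wN_1_rb8033094a_d43_d53_d41_d39_d43_d4d_d42_d3b_d51_d26_0

theorem g_wQ_26_wN_1_rb8033094a_d43_d53_d41_d39_d43_d4d_d42_d3b_d51_d26 : GoodKC AS c_wQ_26_wN_1_rb8033094a_d43_d53_d41_d39_d43_d4d_d42_d3b_d51_d26 := p_wQ_26_wN_1_rb8033094a_d43_d53_d41_d39_d43_d4d_d42_d3b_d51_d26 g__wQ_26_wN_1_rb8033094a_d43_d53_d41_d39_d43_d4d_d42_d3b_d51_d26_0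

theorem g_wQ_26_wN_1_rb8033094a_d43_d53_d41_d39_d43_d4d_d42_d3b_d51_d25 : GoodKC AS c_wQ_26_wN_1_rb8033094a_d43_d53_d41_d39_d43_d4d_d42_d3b_d51_d25 := p_wQ_26_wN_1_rb8033094a_d43_d53_d41_d39_d43_d4d_d42_d3b_d51_d25

theorem g_wQ_26_wN_1_rb8033094a_d43_d53_d41_d39_d43_d4d_d42_d3b_d51_d23 : GoodKC AS c_wQ_26_wN_1_rb8033094a_d43_d53_d41_d39_d43_d4d_d42_d3b_d51_d23 := p_wQ_26_wN_1_rb8033094a_d43_d53_d41_d39_d43_d4d_d42_d3b_d51_d23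

theorem g_wQ_26_wN_1_rb8033094a_d43_d53_d41_d39_d43_d4d_d42_d3b_d51_d21 : GoodKC AS c_wQ_26_wN_1_rb8033094a_d43_d53_d41_d39_d43_d4d_d42_d3b_d51_d21 := p_wQ_26_wN_1_rb8033094a_d43_d53_d41_d39_d43_d4d_d42_d3b_d51_d21

theorem g_wQ_26_wN_1_rb8033094a_d43_d53_d41_d39_d43_d4d_d42_d3b_d51_d20 : GoodKC AS c_wQ_26_wN_1_rb8033094a_d43_d53_d41_d39_d43_d4d_d42_d3b_d51_d20 := p_wQ_26_wN_1_rb8033094a_d43_d53_d41_d39_d43_d4d_d42_d3b_d51_d20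

theorem g__wQ_26_wN_1_rb8033094a_d43_d53_d41_d39_d43_d4d_d42_d3b_d51_d1fv1_2 : GoodKC AS k_wQ_26_wN_1_rb8033094a_d43_d53_d41_d39_d43_d4d_d42_d3b_d51_d1fv1_2 := p_wQ_26_wN_1_rb8033094a_d43_d53_d41_d39_d43_d4d_d42_d3b_d51_d1fv1_2

theorem g__wQ_26_wN_1_rb8033094a_d43_d53_d41_d39_d43_d4d_d42_d3b_d51_d1fv1_3 : GoodKC AS k_wQ_26_wN_1_rb8033094a_d43_d53_d41_d39_d43_d4d_d42_d3b_d51_d1fv1_3 := p_wQ_26_wN_1_rb8033094a_d43_d53_d41_d39_d43_d4d_d42_d3b_d51_d1fv1_3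

theorem g__wQ_26_wN_1_rb8033094a_d43_d53_d41_d39_d43_d4d_d42_d3b_d51_d1fv1_1 : GoodKC AS k_wQ_26_wN_1_rb8033094a_d43_d53_d41_d39_d43_d4d_d42_d3b_d51_d1fv1_1 := p_wQ_26_wN_1_rb8033094a_d43_d53_d41_d39_d43_d4d_d42_d3b_d51_d1fv1_1 g__wQ_26_wN_1_rb8033094a_d43_d53_d41_d39_d43_d4d_d42_d3b_d51_d1fv1_2 g__wQ_26_wN_1_rb8033094a_d43_d53_d41_d39_d43_d4d_d42_d3b_d51_d1fv1_3

theorem g__wQ_26_wN_1_rb8033094a_d43_d53_d41_d39_d43_d4d_d42_d3b_d51_d1fv1_6 : GoodKC AS k_wQ_26_wN_1_rb8033094a_d43_d53_d41_d39_d43_d4d_d42_d3b_d51_d1fv1_6 := p_wQ_26_wN_1_rb8033094a_d43_d53_d41_d39_d43_d4d_d42_d3b_d51_d1fv1_6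

theorem g__wQ_26_wN_1_rb8033094a_d43_d53_d41_d39_d43_d4d_d42_d3b_d51_d1fv1_5 : GoodKC AS k_wQ_26_wN_1_rb8033094a_d43_d53_d41_d39_d43_d4d_d42_d3b_d51_d1fv1_5 := p_wQ_26_wN_1_rb8033094a_d43_d53_d41_d39_d43_d4d_d42_d3b_d51_d1fv1_5 g__wQ_26_wN_1_rb8033094a_d43_d53_d41_d39_d43_d4d_d42_d3b_d51_d1fv1_6

theorem g__wQ_26_wN_1_rb8033094a_d43_d53_d41_d39_d43_d4d_d42_d3b_d51_d1fv1_4 : GoodKC AS k_wQ_26_wN_1_rb8033094a_d43_d53_d41_d39_d43_d4d_d42_d3b_d51_d1fv1_4 := p_wQ_26_wN_1_rb8033094a_d43_d53_d41_d39_d43_d4d_d42_d3b_d51_d1fv1_4 g__wQ_26_wN_1_rb8033094a_d43_d53_d41_d39_d43_d4d_d42_d3b_d51_d1fv1_5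

theorem g__wQ_26_wN_1_rb8033094a_d43_d53_d41_d39_d43_d4d_d42_d3b_d51_d1fv1_0 : GoodKC AS k_wQ_26_wN_1_rb8033094a_d43_d53_d41_d39_d43_d4d_d42_d3b_d51_d1fv1_0 := p_wQ_26_wN_1_rb8033094a_d43_d53_d41_d39_d43_d4d_d42_d3b_d51_d1fv1_0 g__wQ_26_wN_1_rb8033094a_d43_d53_d41_d39_d43_d4d_d42_d3b_d51_d1fv1_1 g__wQ_26_wN_1_rb8033094a_d43_d53_d41_d39_d43_d4d_d42_d3b_d51_d1fv1_4

theorem g_wQ_26_wN_1_rb8033094a_d43_d53_d41_d39_d43_d4d_d42_d3b_d51_d1f : GoodKC AS c_wQ_26_wN_1_rb8033094a_d43_d53_d41_d39_d43_d4d_d42_d3b_d51_d1f := p_wQ_26_wN_1_rb8033094a_d43_d53_d41_d39_d43_d4d_d42_d3b_d51_d1fv1 g__wQ_26_wN_1_rb8033094a_d43_d53_d41_d39_d43_d4d_d42_d3b_d51_d1fv1_0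

theorem g_wQ_26_wN_1_rb8033094a_d43_d53_d41_d39_d43_d4d_d42_d3b_d51_d1e : GoodKC AS c_wQ_26_wN_1_rb8033094a_d43_d53_d41_d39_d43_d4d_d42_d3b_d51_d1e := p_wQ_26_wN_1_rb8033094a_d43_d53_d41_d39_d43_d4d_d42_d3b_d51_d1e

theorem g_wQ_26_wN_1_rb8033094a_d43_d53_d41_d39_d43_d4d_d42_d3b_d51_d1c : GoodKC AS c_wQ_26_wN_1_rb8033094a_d43_d53_d41_d39_d43_d4d_d42_d3b_d51_d1c := p_wQ_26_wN_1_rb8033094a_d43_d53_d41_d39_d43_d4d_d42_d3b_d51_d1c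

theorem g__wQ_26_wN_1_rb8033094a_d43_d53_d41_d39_d43_d4d_d42_d3b_d51_d1b_5 : GoodKC AS k_wQ_26_wN_1_rb8033094a_d43_d53_d41_d39_d43_d4d_d42_d3b_d51_d1b_5 := p_wQ_26_wN_1_rb8033094a_d43_d53_d41_d39_d43_d4d_d42_d3b_d51_d1b_5

theorem g__wQ_26_wN_1_rb8033094a_d43_d53_d41_d39_d43_d4d_d42_d3b_d51_d1b_4 : GoodKC AS k_wQ_26_wN_1_rb8033094a_d43_d53_d41_d39_d43_d4d_d42_d3b_d51_d1b_4 := p_wQ_26_wN_1_rb8033094a_d43_d53_d41_d39_d43_d4d_d42_d3b_d51_d1b_4 g__wQ_26_wN_1_rb8033094a_d43_d53_d41_d39_d43_d4d_d42_d3b_d51_d1b_5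

theorem g__wQ_26_wN_1_rb8033094a_d43_d53_d41_d39_d43_d4d_d42_d3b_d51_d1b_3 : GoodKC AS k_wQ_26_wN_1_rb8033094a_d43_d53_d41_d39_d43_d4d_d42_d3b_d51_d1b_3 := p_wQ_26_wN_1_rb8033094a_d43_d53_d41_d39_d43_d4d_d42_d3b_d51_d1b_3 g__wQ_26_wN_1_rb8033094a_d43_d53_d41_d39_d43_d4d_d42_d3b_d51_d1b_4

theorem g__wQ_26_wN_1_rb8033094a_d43_d53_d41_d39_d43_d4d_d42_d3b_d51_d1b_6 : GoodKC AS k_wQ_26_wN_1_rb8033094a_d43_d53_d41_d39_d43_d4d_d42_d3b_d51_d1b_6 := p_wQ_26_wN_1_rb8033094a_d43_d53_d41_d39_d43_d4d_d42_d3b_d51_d1b_6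

theorem g__wQ_26_wN_1_rb8033094a_d43_d53_d41_d39_d43_d4d_d42_d3b_d51_d1b_2 : GoodKC AS k_wQ_26_wN_1_rb8033094a_d43_d53_d41_d39_d43_d4d_d42_d3b_d51_d1b_2 := p_wQ_26_wN_1_rb8033094a_d43_d53_d41_d39_d43_d4d_d42_d3b_d51_d1b_2 g__wQ_26_wN_1_rb8033094a_d43_d53_d41_d39_d43_d4d_d42_d3b_d51_d1b_3 g__wQ_26_wN_1_rb8033094a_d43_d53_d41_d39_d43_d4d_d42_d3b_d51_d1b_6

theorem g__wQ_26_wN_1_rb8033094a_d43_d53_d41_d39_d43_d4d_d42_d3b_d51_d1b_1 : GoodKC AS k_wQ_26_wN_1_rb8033094a_d43_d53_d41_d39_d43_d4d_d42_d3b_d51_d1b_1 := p_wQ_26_wN_1_rb8033094a_d43_d53_d41_d39_d43_d4d_d42_d3b_d51_d1b_1 g__wQ_26_wN_1_rb8033094a_d43_d53_d41_d39_d43_d4d_d42_d3b_d51_d1b_2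

theorem g__wQ_26_wN_1_rb8033094a_d43_d53_d41_d39_d43_d4d_d42_d3b_d51_d1b_7 : GoodKC AS k_wQ_26_wN_1_rb8033094a_d43_d53_d41_d39_d43_d4d_d42_d3b_d51_d1b_7 := p_wQ_26_wN_1_rb8033094a_d43_d53_d41_d39_d43_d4d_d42_d3b_d51_d1b_7

theorem g__wQ_26_wN_1_rb8033094a_d43_d53_d41_d39_d43_d4d_d42_d3b_d51_d1b_0 : GoodKC AS k_wQ_26_wN_1_rb8033094a_d43_d53_d41_d39_d43_d4d_d42_d3b_d51_d1b_0 := p_wQ_26_wN_1_rb8033094a_d43_d53_d41_d39_d43_d4d_d42_d3b_d51_d1b_0 g__wQ_26_wN_1_rb8033094a_d43_d53_d41_d39_d43_d4d_d42_d3b_d51_d1b_1 g__wQ_26_wN_1_rb8033094a_d43_d53_d41_d39_d43_d4d_d42_d3b_d51_d1b_7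

theorem g_wQ_26_wN_1_rb8033094a_d43_d53_d41_d39_d43_d4d_d42_d3b_d51_d1b : GoodKC AS c_wQ_26_wN_1_rb8033094a_d43_d53_d41_d39_d43_d4d_d42_d3b_d51_d1b := p_wQ_26_wN_1_rb8033094a_d43_d53_d41_d39_d43_d4d_d42_d3b_d51_d1b g__wQ_26_wN_1_rb8033094a_d43_d53_d41_d39_d43_d4d_d42_d3b_d51_d1b_0

theorem g_wQ_26_wN_1_rb8033094a_d43_d53_d41_d39_d43_d4d_d42_d3b_d51_d1a : GoodKC AS c_wQ_26_wN_1_rb8033094a_d43_d53_d41_d39_d43_d4d_d42_d3b_d51_d1a := p_wQ_26_wN_1_rb8033094a_d43_d53_d41_d39_d43_d4d_d42_d3b_d51_d1a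

theorem g_wQ_26_wN_1_rb8033094a_d43_d53_d41_d39_d43_d4d_d42_d3b_d51_d19 : GoodKC AS c_wQ_26_wN_1_rb8033094a_d43_d53_d41_d39_d43_d4d_d42_d3b_d51_d19 := p_wQ_26_wN_1_rb8033094a_d43_d53_d41_d39_d43_d4d_d42_d3b_d51_d19

theorem g__wQ_26_wN_1_rb8033094a_d43_d53_d41_d39_d43_d4d_d42_d3b_d51_d18_1 : GoodKC AS k_wQ_26_wN_1_rb8033094a_d43_d53_d41_d39_d43_d4d_d42_d3b_d51_d18_1 := p_wQ_26_wN_1_rb8033094a_d43_d53_d41_d39_d43_d4d_d42_d3b_d51_d18_1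

theorem g__wQ_26_wN_1_rb8033094a_d43_d53_d41_d39_d43_d4d_d42_d3b_d51_d18_0 : GoodKC AS k_wQ_26_wN_1_rb8033094a_d43_d53_d41_d39_d43_d4d_d42_d3b_d51_d18_0 := p_wQ_26_wN_1_rb8033094a_d43_d53_d41_d39_d43_d4d_d42_d3b_d51_d18_0 g__wQ_26_wN_1_rb8033094a_d43_d53_d41_d39_d43_d4d_d42_d3b_d51_d18_1

theorem g_wQ_26_wN_1_rb8033094a_d43_d53_d41_d39_d43_d4d_d42_d3b_d51_d18 : GoodKC AS c_wQ_26_wN_1_rb8033094a_d43_d53_d41_d39_d43_d4d_d42_d3b_d51_d18 := p_wQ_26_wN_1_rb8033094a_d43_d53_d41_d39_d43_d4d_d42_d3b_d51_d18 g__wQ_26_wN_1_rb8033094a_d43_d53_d41_d39_d43_d4d_d42_d3b_d51_d18_0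

theorem g_wQ_26_wN_1_rb8033094a_d43_d53_d41_d39_d43_d4d_d42_d3b_d51_d16 : GoodKC AS c_wQ_26_wN_1_rb8033094a_d43_d53_d41_d39_d43_d4d_d42_d3b_d51_d16 := p_wQ_26_wN_1_rb8033094a_d43_d53_d41_d39_d43_d4d_d42_d3b_d51_d16

theorem g_wQ_26_wN_1_rb8033094a_d43_d53_d41_d39_d43_d4d_d42_d3b_d51_d14 : GoodKC AS c_wQ_26_wN_1_rb8033094a_d43_d53_d41_d39_d43_d4d_d42_d3b_d51_d14 := p_wQ_26_wN_1_rb8033094a_d43_d53_d41_d39_d43_d4d_d42_d3b_d51_d14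

theorem g_wQ_26_wN_1_rb8033094a_d43_d53_d41_d39_d43_d4d_d42_d3b_d51_d13 : GoodKC AS c_wQ_26_wN_1_rb8033094a_d43_d53_d41_d39_d43_d4d_d42_d3b_d51_d13 := p_wQ_26_wN_1_rb8033094a_d43_d53_d41_d39_d43_d4d_d42_d3b_d51_d13

theorem g_wQ_26_wN_1_rb8033094a_d43_d53_d41_d39_d43_d4d_d42_d3b_d51_d12 : GoodKC AS c_wQ_26_wN_1_rb8033094a_d43_d53_d41_d39_d43_d4d_d42_d3b_d51_d12 := p_wQ_26_wN_1_rb8033094a_d43_d53_d41_d39_d43_d4d_d42_d3b_d51_d12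

theorem g_wQ_26_wN_1_rb8033094a_d43_d53_d41_d39_d43_d4d_d42_d3b_d51_d11 : GoodKC AS c_wQ_26_wN_1_rb8033094a_d43_d53_d41_d39_d43_d4d_d42_d3b_d51_d11 := p_wQ_26_wN_1_rb8033094a_d43_d53_d41_d39_d43_d4d_d42_d3b_d51_d11

theorem g_wQ_26_wN_1_rb8033094a_d43_d53_d41_d39_d43_d4d_d42_d3b_d51_d0f : GoodKC AS c_wQ_26_wN_1_rb8033094a_d43_d53_d41_d39_d43_d4d_d42_d3b_d51_d0f := p_wQ_26_wN_1_rb8033094a_d43_d53_d41_d39_d43_d4d_d42_d3b_d51_d0f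

theorem g_wQ_26_wN_1_rb8033094a_d43_d53_d41_d39_d43_d4d_d42_d3b_d51_d0d : GoodKC AS c_wQ_26_wN_1_rb8033094a_d43_d53_d41_d39_d43_d4d_d42_d3b_d51_d0d := p_wQ_26_wN_1_rb8033094a_d43_d53_d41_d39_d43_d4d_d42_d3b_d51_d0d

theorem g__wQ_26_wN_1_rb8033094a_d43_d53_d41_d39_d43_d4d_d42_d3b_d51_d0c_0 : GoodKC AS k_wQ_26_wN_1_rb8033094a_d43_d53_d41_d39_d43_d4d_d42_d3b_d51_d0c_0 := p_wQ_26_wN_1_rb8033094a_d43_d53_d41_d39_d43_d4d_d42_d3b_d51_d0c_0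

theorem g_wQ_26_wN_1_rb8033094a_d43_d53_d41_d39_d43_d4d_d42_d3b_d51_d0c : GoodKC AS c_wQ_26_wN_1_rb8033094a_d43_d53_d41_d39_d43_d4d_d42_d3b_d51_d0c := p_wQ_26_wN_1_rb8033094a_d43_d53_d41_d39_d43_d4d_d42_d3b_d51_d0c g__wQ_26_wN_1_rb8033094a_d43_d53_d41_d39_d43_d4d_d42_d3b_d51_d0c_0

theorem g_wQ_26_wN_1_rb8033094a_d43_d53_d41_d39_d43_d4d_d42_d3b_d51_d05 : GoodKC AS c_wQ_26_wN_1_rb8033094a_d43_d53_d41_d39_d43_d4d_d42_d3b_d51_d05 := p_wQ_26_wN_1_rb8033094a_d43_d53_d41_d39_d43_d4d_d42_d3b_d51_d05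

theorem g_wQ_26_wN_1_rb8033094a_d43_d53_d41_d39_d43_d4d_d42_d3b_d51_d04 : GoodKC AS c_wQ_26_wN_1_rb8033094a_d43_d53_d41_d39_d43_d4d_d42_d3b_d51_d04 := p_wQ_26_wN_1_rb8033094a_d43_d53_d41_d39_d43_d4d_d42_d3b_d51_d04

theorem g_wQ_26_wN_1_rb8033094a_d43_d53_d41_d39_d43_d4d_d42_d3b_d51_d03 : GoodKC AS c_wQ_26_wN_1_rb8033094a_d43_d53_d41_d39_d43_d4d_d42_d3b_d51_d03 := p_wQ_26_wN_1_rb8033094a_d43_d53_d41_d39_d43_d4d_d42_d3b_d51_d03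

theorem g_wQ_26_wN_1_rb8033094a_d43_d53_d41_d39_d43_d4d_d42_d3b_d51_d02 : GoodKC AS c_wQ_26_wN_1_rb8033094a_d43_d53_d41_d39_d43_d4d_d42_d3b_d51_d02 := p_wQ_26_wN_1_rb8033094a_d43_d53_d41_d39_d43_d4d_d42_d3b_d51_d02

theorem g_wQ_26_wN_1_rb8033094a_d43_d53_d41_d39_d43_d4d_d42_d3b_d51_d01 : GoodKC AS c_wQ_26_wN_1_rb8033094a_d43_d53_d41_d39_d43_d4d_d42_d3b_d51_d01 := p_wQ_26_wN_1_rb8033094a_d43_d53_d41_d39_d43_d4d_d42_d3b_d51_d01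

theorem g_wQ_26_wN_1_rb8033094a_d43_d53_d41_d39_d43_d4d_d42_d3b_d51_d00_d51_d11 : GoodKC AS c_wQ_26_wN_1_rb8033094a_d43_d53_d41_d39_d43_d4d_d42_d3b_d51_d00_d51_d11 := p_wQ_26_wN_1_rb8033094a_d43_d53_d41_d39_d43_d4d_d42_d3b_d51_d00_d51_d11

theorem g_wQ_26_wN_1_rb8033094a_d43_d53_d41_d39_d43_d4d_d42_d3b_d51_d00_d51_d10 : GoodKC AS c_wQ_26_wN_1_rb8033094a_d43_d53_d41_d39_d43_d4d_d42_d3b_d51_d00_d51_d10 := p_wQ_26_wN_1_rb8033094a_d43_d53_d41_d39_d43_d4d_d42_d3b_d51_d00_d51_d10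

theorem g_wQ_26_wN_1_rb8033094a_d43_d53_d41_d39_d43_d4d_d42_d3b_d51_d00_d51_d0f : GoodKC AS c_wQ_26_wN_1_rb8033094a_d43_d53_d41_d39_d43_d4d_d42_d3b_d51_d00_d51_d0f := p_wQ_26_wN_1_rb8033094a_d43_d53_d41_d39_d43_d4d_d42_d3b_d51_d00_d51_d0f

theorem g_wQ_26_wN_1_rb8033094a_d43_d53_d41_d39_d43_d4d_d42_d3b_d51_d00_d51_d0e : GoodKC AS c_wQ_26_wN_1_rb8033094a_d43_d53_d41_d39_d43_d4d_d42_d3b_d51_d00_d51_d0e := p_wQ_26_wN_1_rb8033094a_d43_d53_d41_d39_d43_d4d_d42_d3b_d51_d00_d51_d0e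

theorem g_wQ_26_wN_1_rb8033094a_d43_d53_d41_d39_d43_d4d_d42_d3b_d51_d00_d51_d0b : GoodKC AS c_wQ_26_wN_1_rb8033094a_d43_d53_d41_d39_d43_d4d_d42_d3b_d51_d00_d51_d0b := p_wQ_26_wN_1_rb8033094a_d43_d53_d41_d39_d43_d4d_d42_d3b_d51_d00_d51_d0b

theorem g_wQ_26_wN_1_rb8033094a_d43_d53_d41_d39_d43_d4d_d42_d3b_d51_d00_d51_d0a : GoodKC AS c_wQ_26_wN_1_rb8033094a_d43_d53_d41_d39_d43_d4d_d42_d3b_d51_d00_d51_d0a := p_wQ_26_wN_1_rb8033094a_d43_d53_d41_d39_d43_d4d_d42_d3b_d51_d00_d51_d0a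

theorem g_wQ_26_wN_1_rb8033094a_d43_d53_d41_d39_d43_d4d_d42_d3b_d51_d00_d51_d08 : GoodKC AS c_wQ_26_wN_1_rb8033094a_d43_d53_d41_d39_d43_d4d_d42_d3b_d51_d00_d51_d08 := p_wQ_26_wN_1_rb8033094a_d43_d53_d41_d39_d43_d4d_d42_d3b_d51_d00_d51_d08

theorem g_wQ_26_wN_1_rb8033094a_d43_d53_d41_d39_d43_d4d_d42_d3b_d51_d00_d51_d06 : GoodKC AS c_wQ_26_wN_1_rb8033094a_d43_d53_d41_d39_d43_d4d_d42_d3b_d51_d00_d51_d06 := p_wQ_26_wN_1_rb8033094a_d43_d53_d41_d39_d43_d4d_d42_d3b_d51_d00_d51_d06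

theorem g_wQ_26_wN_1_rb8033094a_d43_d53_d41_d39_d43_d4d_d42_d3b_d51_d00_d51_d04 : GoodKC AS c_wQ_26_wN_1_rb8033094a_d43_d53_d41_d39_d43_d4d_d42_d3b_d51_d00_d51_d04 := p_wQ_26_wN_1_rb8033094a_d43_d53_d41_d39_d43_d4d_d42_d3b_d51_d00_d51_d04

theorem g_wQ_26_wN_1_rb8033094a_d43_d53_d41_d39_d43_d4d_d42_d3b_d51_d00_d51_d03 : GoodKC AS c_wQ_26_wN_1_rb8033094a_d43_d53_d41_d39_d43_d4d_d42_d3b_d51_d00_d51_d03 := p_wQ_26_wN_1_rb8033094a_d43_d53_d41_d39_d43_d4d_d42_d3b_d51_d00_d51_d03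

theorem g_wQ_26_wN_1_rb8033094a_d43_d53_d41_d39_d43_d4d_d42_d3b_d51_d00_d51_d01 : GoodKC AS c_wQ_26_wN_1_rb8033094a_d43_d53_d41_d39_d43_d4d_d42_d3b_d51_d00_d51_d01 := p_wQ_26_wN_1_rb8033094a_d43_d53_d41_d39_d43_d4d_d42_d3b_d51_d00_d51_d01

theorem g__wQ_26_wN_1_rb8033094a_d43_d53_d41_d39_d43_d4d_d42_d3b_d51_d00_d51_d00_5 : GoodKC AS k_wQ_26_wN_1_rb8033094a_d43_d53_d41_d39_d43_d4d_d42_d3b_d51_d00_d51_d00_5 := p_wQ_26_wN_1_rb8033094a_d43_d53_d41_d39_d43_d4d_d42_d3b_d51_d00_d51_d00_5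

theorem g__wQ_26_wN_1_rb8033094a_d43_d53_d41_d39_d43_d4d_d42_d3b_d51_d00_d51_d00_4 : GoodKC AS k_wQ_26_wN_1_rb8033094a_d43_d53_d41_d39_d43_d4d_d42_d3b_d51_d00_d51_d00_4 := p_wQ_26_wN_1_rb8033094a_d43_d53_d41_d39_d43_d4d_d42_d3b_d51_d00_d51_d00_4 g__wQ_26_wN_1_rb8033094a_d43_d53_d41_d39_d43_d4d_d42_d3b_d51_d00_d51_d00_5

theorem g__wQ_26_wN_1_rb8033094a_d43_d53_d41_d39_d43_d4d_d42_d3b_d51_d00_d51_d00_3 : GoodKC AS k_wQ_26_wN_1_rb8033094a_d43_d53_d41_d39_d43_d4d_d42_d3b_d51_d00_d51_d00_3 := p_wQ_26_wN_1_rb8033094a_d43_d53_d41_d39_d43_d4d_d42_d3b_d51_d00_d51_d00_3 g__wQ_26_wN_1_rb8033094a_d43_d53_d41_d39_d43_d4d_d42_d3b_d51_d00_d51_d00_4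

theorem g__wQ_26_wN_1_rb8033094a_d43_d53_d41_d39_d43_d4d_d42_d3b_d51_d00_d51_d00_2 : GoodKC AS k_wQ_26_wN_1_rb8033094a_d43_d53_d41_d39_d43_d4d_d42_d3b_d51_d00_d51_d00_2 := p_wQ_26_wN_1_rb8033094a_d43_d53_d41_d39_d43_d4d_d42_d3b_d51_d00_d51_d00_2 g__wQ_26_wN_1_rb8033094a_d43_d53_d41_d39_d43_d4d_d42_d3b_d51_d00_d51_d00_3

theorem g__wQ_26_wN_1_rb8033094a_d43_d53_d41_d39_d43_d4d_d42_d3b_d51_d00_d51_d00_1 : GoodKC AS k_wQ_26_wN_1_rb8033094a_d43_d53_d41_d39_d43_d4d_d42_d3b_d51_d00_d51_d00_1 := p_wQ_26_wN_1_rb8033094a_d43_d53_d41_d39_d43_d4d_d42_d3b_d51_d00_d51_d00_1 g__wQ_26_wN_1_rb8033094a_d43_d53_d41_d39_d43_d4d_d42_d3b_d51_d00_d51_d00_2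

theorem g__wQ_26_wN_1_rb8033094a_d43_d53_d41_d39_d43_d4d_d42_d3b_d51_d00_d51_d00_7 : GoodKC AS k_wQ_26_wN_1_rb8033094a_d43_d53_d41_d39_d43_d4d_d42_d3b_d51_d00_d51_d00_7 := p_wQ_26_wN_1_rb8033094a_d43_d53_d41_d39_d43_d4d_d42_d3b_d51_d00_d51_d00_7

theorem g__wQ_26_wN_1_rb8033094a_d43_d53_d41_d39_d43_d4d_d42_d3b_d51_d00_d51_d00_8 : GoodKC AS k_wQ_26_wN_1_rb8033094a_d43_d53_d41_d39_d43_d4d_d42_d3b_d51_d00_d51_d00_8 := p_wQ_26_wN_1_rb8033094a_d43_d53_d41_d39_d43_d4d_d42_d3b_d51_d00_d51_d00_8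

theorem g__wQ_26_wN_1_rb8033094a_d43_d53_d41_d39_d43_d4d_d42_d3b_d51_d00_d51_d00_6 : GoodKC AS k_wQ_26_wN_1_rb8033094a_d43_d53_d41_d39_d43_d4d_d42_d3b_d51_d00_d51_d00_6 := p_wQ_26_wN_1_rb8033094a_d43_d53_d41_d39_d43_d4d_d42_d3b_d51_d00_d51_d00_6 g__wQ_26_wN_1_rb8033094a_d43_d53_d41_d39_d43_d4d_d42_d3b_d51_d00_d51_d00_7 g__wQ_26_wN_1_rb8033094a_d43_d53_d41_d39_d43_d4d_d42_d3b_d51_d00_d51_d00_8

theorem g__wQ_26_wN_1_rb8033094a_d43_d53_d41_d39_d43_d4d_d42_d3b_d51_d00_d51_d00_0 : GoodKC AS k_wQ_26_wN_1_rb8033094a_d43_d53_d41_d39_d43_d4d_d42_d3b_d51_d00_d51_d00_0 := p_wQ_26_wN_1_rb8033094a_d43_d53_d41_d39_d43_d4d_d42_d3b_d51_d00_d51_d00_0 g__wQ_26_wN_1_rb8033094a_d43_d53_d41_d39_d43_d4d_d42_d3b_d51_d00_d51_d00_1 g__wQ_26_wN_1_rb8033094a_d43_d53_d41_d39_d43_d4d_d42_d3b_d51_d00_d51_d00_6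

theorem g__wQ_26_wN_1_rb8033094a_d43_d53_d41_d39_d43_d4d_d42_d3b_d51_d00_d51_d00_9 : GoodKC AS k_wQ_26_wN_1_rb8033094a_d43_d53_d41_d39_d43_d4d_d42_d3b_d51_d00_d51_d00_9 := p_wQ_26_wN_1_rb8033094a_d43_d53_d41_d39_d43_d4d_d42_d3b_d51_d00_d51_d00_9

theorem g_wQ_26_wN_1_rb8033094a_d43_d53_d41_d39_d43_d4d_d42_d3b_d51_d00_d51_d00 : GoodKC AS c_wQ_26_wN_1_rb8033094a_d43_d53_d41_d39_d43_d4d_d42_d3b_d51_d00_d51_d00 := p_wQ_26_wN_1_rb8033094a_d43_d53_d41_d39_d43_d4d_d42_d3b_d51_d00_d51_d00 g__wQ_26_wN_1_rb8033094a_d43_d53_d41_d39_d43_d4d_d42_d3b_d51_d00_d51_d00_0 g__wQ_26_wN_1_rb8033094a_d43_d53_d41_d39_d43_d4d_d42_d3b_d51_d00_d51_d00_9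

theorem g_wQ_26_wN_1_rb8033094a_d43_d53_d41_d39_d43_d4d_d42_d3b_d51_d00_d51_d02 : GoodKC AS c_wQ_26_wN_1_rb8033094a_d43_d53_d41_d39_d43_d4d_d42_d3b_d51_d00_d51_d02 := p_wQ_26_wN_1_rb8033094a_d43_d53_d41_d39_d43_d4d_d42_d3b_d51_d00_d51_d02

theorem g_wQ_26_wN_1_rb8033094a_d43_d53_d41_d39_d43_d4d_d42_d3b_d51_d00_d51_d05 : GoodKC AS c_wQ_26_wN_1_rb8033094a_d43_d53_d41_d39_d43_d4d_d42_d3b_d51_d00_d51_d05 := p_wQ_26_wN_1_rb8033094a_d43_d53_d41_d39_d43_d4d_d42_d3b_d51_d00_d51_d05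

theorem g_wQ_26_wN_1_rb8033094a_d43_d53_d41_d39_d43_d4d_d42_d3b_d51_d00_d51_d07 : GoodKC AS c_wQ_26_wN_1_rb8033094a_d43_d53_d41_d39_d43_d4d_d42_d3b_d51_d00_d51_d07 := p_wQ_26_wN_1_rb8033094a_d43_d53_d41_d39_d43_d4d_d42_d3b_d51_d00_d51_d07

theorem g_wQ_26_wN_1_rb8033094a_d43_d53_d41_d39_d43_d4d_d42_d3b_d51_d00_d51_d09 : GoodKC AS c_wQ_26_wN_1_rb8033094a_d43_d53_d41_d39_d43_d4d_d42_d3b_d51_d00_d51_d09 := p_wQ_26_wN_1_rb8033094a_d43_d53_d41_d39_d43_d4d_d42_d3b_d51_d00_d51_d09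

theorem g_wQ_26_wN_1_rb8033094a_d43_d53_d41_d39_d43_d4d_d42_d3b_d51_d00_d51_d0c : GoodKC AS c_wQ_26_wN_1_rb8033094a_d43_d53_d41_d39_d43_d4d_d42_d3b_d51_d00_d51_d0c := p_wQ_26_wN_1_rb8033094a_d43_d53_d41_d39_d43_d4d_d42_d3b_d51_d00_d51_d0c

theorem g_wQ_26_wN_1_rb8033094a_d43_d53_d41_d39_d43_d4d_d42_d3b_d51_d00_d51_d0d : GoodKC AS c_wQ_26_wN_1_rb8033094a_d43_d53_d41_d39_d43_d4d_d42_d3b_d51_d00_d51_d0d := p_wQ_26_wN_1_rb8033094a_d43_d53_d41_d39_d43_d4d_d42_d3b_d51_d00_d51_d0d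

theorem g_wQ_26_wN_1_rb8033094a_d43_d53_d41_d39_d43_d4d_d42_d3b_d51_d00 : GoodKC AS c_wQ_26_wN_1_rb8033094a_d43_d53_d41_d39_d43_d4d_d42_d3b_d51_d00 := p_wQ_26_wN_1_rb8033094a_d43_d53_d41_d39_d43_d4d_d42_d3b_d51_d00 g_wQ_26_wN_1_rb8033094a_d43_d53_d41_d39_d43_d4d_d42_d3b_d51_d00_d51_d11 g_wQ_26_wN_1_rb8033094a_d43_d53_d41_d39_d43_d4d_d42_d3b_d51_d00_d51_d10 g_wQ_26_wN_1_rb8033094a_d43_d53_d41_d39_d43_d4d_d42_d3b_d51_d00_d51_d0f g_wQ_26_wN_1_rb8033094a_d43_d53_d41_d39_d43_d4d_d42_d3b_d51_d00_d51_d0e g_wQ_26_wN_1_rb8033094a_d43_d53_d41_d39_d43_d4d_d42_d3b_d51_d00_d51_d0b g_wQ_26_wN_1_rb8033094a_d43_d53_d41_d39_d43_d4d_d42_d3b_d51_d00_d51_d0a g_wQ_26_wN_1_rb8033094a_d43_d53_d41_d39_d43_d4d_d42_d3b_d51_d00_d51_d08 g_wQ_26_wN_1_rb8033094a_d43_d53_d41_d39_d43_d4d_d42_d3b_d51_d00_d51_d06 g_wQ_26_wN_1_rb8033094a_d43_d53_d41_d39_d43_d4d_d42_d3b_d51_d00_d51_d04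 g_wQ_26_wN_1_rb8033094a_d43_d53_d41_d39_d43_d4d_d42_d3b_d51_d00_d51_d03 g_wQ_26_wN_1_rb8033094a_d43_d53_d41_d39_d43_d4d_d42_d3b_d51_d00_d51_d01 g_wQ_26_wN_1_rb8033094a_d43_d53_d41_d39_d43_d4d_d42_d3b_d51_d00_d51_d00 g_wQ_26_wN_1_rb8033094a_d43_d53_d41_d39_d43_d4d_d42_d3b_d51_d00_d51_d02 g_wQ_26_wN_1_rb8033094a_d43_d53_d41_d39_d43_d4d_d42_d3b_d51_d00_d51_d05 g_wQ_26_wN_1_rb8033094a_d43_d53_d41_d39_d43_d4d_d42_d3b_d51_d00_d51_d07 g_wQ_26_wN_1_rb8033094a_d43_d53_d41_d39_d43_d4d_d42_d3b_d51_d00_d51_d09 g_wQ_26_wN_1_rb8033094a_d43_d53_d41_d39_d43_d4d_d42_d3b_d51_d00_d51_d0c g_wQ_26_wN_1_rb8033094a_d43_d53_d41_d39_d43_d4d_d42_d3b_d51_d00_d51_d0d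

theorem g_wQ_26_wN_1_rb8033094a_d43_d53_d41_d39_d43_d4d_d42_d3b_d51_d06 : GoodKC AS c_wQ_26_wN_1_rb8033094a_d43_d53_d41_d39_d43_d4d_d42_d3b_d51_d06 := p_wQ_26_wN_1_rb8033094a_d43_d53_d41_d39_d43_d4d_d42_d3b_d51_d06

theorem g_wQ_26_wN_1_rb8033094a_d43_d53_d41_d39_d43_d4d_d42_d3b_d51_d07 : GoodKC AS c_wQ_26_wN_1_rb8033094a_d43_d53_d41_d39_d43_d4d_d42_d3b_d51_d07 := p_wQ_26_wN_1_rb8033094a_d43_d53_d41_d39_d43_d4d_d42_d3b_d51_d07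

theorem g_wQ_26_wN_1_rb8033094a_d43_d53_d41_d39_d43_d4d_d42_d3b_d51_d08 : GoodKC AS c_wQ_26_wN_1_rb8033094a_d43_d53_d41_d39_d43_d4d_d42_d3b_d51_d08 := p_wQ_26_wN_1_rb8033094a_d43_d53_d41_d39_d43_d4d_d42_d3b_d51_d08

theorem g_wQ_26_wN_1_rb8033094a_d43_d53_d41_d39_d43_d4d_d42_d3b_d51_d09 : GoodKC AS c_wQ_26_wN_1_rb8033094a_d43_d53_d41_d39_d43_d4d_d42_d3b_d51_d09 := p_wQ_26_wN_1_rb8033094a_d43_d53_d41_d39_d43_d4d_d42_d3b_d51_d09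

theorem g_wQ_26_wN_1_rb8033094a_d43_d53_d41_d39_d43_d4d_d42_d3b_d51_d0a : GoodKC AS c_wQ_26_wN_1_rb8033094a_d43_d53_d41_d39_d43_d4d_d42_d3b_d51_d0a := p_wQ_26_wN_1_rb8033094a_d43_d53_d41_d39_d43_d4d_d42_d3b_d51_d0a

theorem g_wQ_26_wN_1_rb8033094a_d43_d53_d41_d39_d43_d4d_d42_d3b_d51_d0b : GoodKC AS c_wQ_26_wN_1_rb8033094a_d43_d53_d41_d39_d43_d4d_d42_d3b_d51_d0b := p_wQ_26_wN_1_rb8033094a_d43_d53_d41_d39_d43_d4d_d42_d3b_d51_d0b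

theorem g_wQ_26_wN_1_rb8033094a_d43_d53_d41_d39_d43_d4d_d42_d3b_d51_d0e : GoodKC AS c_wQ_26_wN_1_rb8033094a_d43_d53_d41_d39_d43_d4d_d42_d3b_d51_d0e := p_wQ_26_wN_1_rb8033094a_d43_d53_d41_d39_d43_d4d_d42_d3b_d51_d0e

theorem g_wQ_26_wN_1_rb8033094a_d43_d53_d41_d39_d43_d4d_d42_d3b_d51_d10 : GoodKC AS c_wQ_26_wN_1_rb8033094a_d43_d53_d41_d39_d43_d4d_d42_d3b_d51_d10 := p_wQ_26_wN_1_rb8033094a_d43_d53_d41_d39_d43_d4d_d42_d3b_d51_d10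

theorem g_wQ_26_wN_1_rb8033094a_d43_d53_d41_d39_d43_d4d_d42_d3b_d51_d15 : GoodKC AS c_wQ_26_wN_1_rb8033094a_d43_d53_d41_d39_d43_d4d_d42_d3b_d51_d15 := p_wQ_26_wN_1_rb8033094a_d43_d53_d41_d39_d43_d4d_d42_d3b_d51_d15

theorem g_wQ_26_wN_1_rb8033094a_d43_d53_d41_d39_d43_d4d_d42_d3b_d51_d17 : GoodKC AS c_wQ_26_wN_1_rb8033094a_d43_d53_d41_d39_d43_d4d_d42_d3b_d51_d17 := p_wQ_26_wN_1_rb8033094a_d43_d53_d41_d39_d43_d4d_d42_d3b_d51_d17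

theorem g_wQ_26_wN_1_rb8033094a_d43_d53_d41_d39_d43_d4d_d42_d3b_d51_d1d : GoodKC AS c_wQ_26_wN_1_rb8033094a_d43_d53_d41_d39_d43_d4d_d42_d3b_d51_d1d := p_wQ_26_wN_1_rb8033094a_d43_d53_d41_d39_d43_d4d_d42_d3b_d51_d1d

theorem g__wQ_26_wN_1_rb8033094a_d43_d53_d41_d39_d43_d4d_d42_d3b_d51_d22_0 : GoodKC AS k_wQ_26_wN_1_rb8033094a_d43_d53_d41_d39_d43_d4d_d42_d3b_d51_d22_0 := p_wQ_26_wN_1_rb8033094a_d43_d53_d41_d39_d43_d4d_d42_d3b_d51_d22_0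

theorem g_wQ_26_wN_1_rb8033094a_d43_d53_d41_d39_d43_d4d_d42_d3b_d51_d22 : GoodKC AS c_wQ_26_wN_1_rb8033094a_d43_d53_d41_d39_d43_d4d_d42_d3b_d51_d22 := p_wQ_26_wN_1_rb8033094a_d43_d53_d41_d39_d43_d4d_d42_d3b_d51_d22 g__wQ_26_wN_1_rb8033094a_d43_d53_d41_d39_d43_d4d_d42_d3b_d51_d22_0

theorem g__wQ_26_wN_1_rb8033094a_d43_d53_d41_d39_d43_d4d_d42_d3b_d51_d24v1_2 : GoodKC AS k_wQ_26_wN_1_rb8033094a_d43_d53_d41_d39_d43_d4d_d42_d3b_d51_d24v1_2 := p_wQ_26_wN_1_rb8033094a_d43_d53_d41_d39_d43_d4d_d42_d3b_d51_d24v1_2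

theorem g__wQ_26_wN_1_rb8033094a_d43_d53_d41_d39_d43_d4d_d42_d3b_d51_d24v1_1 : GoodKC AS k_wQ_26_wN_1_rb8033094a_d43_d53_d41_d39_d43_d4d_d42_d3b_d51_d24v1_1 := p_wQ_26_wN_1_rb8033094a_d43_d53_d41_d39_d43_d4d_d42_d3b_d51_d24v1_1 g__wQ_26_wN_1_rb8033094a_d43_d53_d41_d39_d43_d4d_d42_d3b_d51_d24v1_2

theorem g__wQ_26_wN_1_rb8033094a_d43_d53_d41_d39_d43_d4d_d42_d3b_d51_d24v1_0 : GoodKC AS k_wQ_26_wN_1_rb8033094a_d43_d53_d41_d39_d43_d4d_d42_d3b_d51_d24v1_0 := p_wQ_26_wN_1_rb8033094a_d43_d53_d41_d39_d43_d4d_d42_d3b_d51_d24v1_0 g__wQ_26_wN_1_rb8033094a_d43_d53_d41_d39_d43_d4d_d42_d3b_d51_d24v1_1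

theorem g__wQ_26_wN_1_rb8033094a_d43_d53_d41_d39_d43_d4d_d42_d3b_d51_d24v1_3 : GoodKC AS k_wQ_26_wN_1_rb8033094a_d43_d53_d41_d39_d43_d4d_d42_d3b_d51_d24v1_3 := p_wQ_26_wN_1_rb8033094a_d43_d53_d41_d39_d43_d4d_d42_d3b_d51_d24v1_3

theorem g_wQ_26_wN_1_rb8033094a_d43_d53_d41_d39_d43_d4d_d42_d3b_d51_d24 : GoodKC AS c_wQ_26_wN_1_rb8033094a_d43_d53_d41_d39_d43_d4d_d42_d3b_d51_d24 := p_wQ_26_wN_1_rb8033094a_d43_d53_d41_d39_d43_d4d_d42_d3b_d51_d24v1 g__wQ_26_wN_1_rb8033094a_d43_d53_d41_d39_d43_d4d_d42_d3b_d51_d24v1_0 g__wQ_26_wN_1_rb8033094a_d43_d53_d41_d39_d43_d4d_d42_d3b_d51_d24v1_3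

theorem g_wQ_26_wN_1_rb8033094a_d43_d53_d41_d39_d43_d4d_d42_d3bv1 : GoodKC AS c_wQ_26_wN_1_rb8033094a_d43_d53_d41_d39_d43_d4d_d42_d3bv1 := p_wQ_26_wN_1_rb8033094a_d43_d53_d41_d39_d43_d4d_d42_d3b g_wQ_26_wN_1_rb8033094a_d43_d53_d41_d39_d43_d4d_d42_d3b_d51_d27 g_wQ_26_wN_1_rb8033094a_d43_d53_d41_d39_d43_d4d_d42_d3b_d51_d26 g_wQ_26_wN_1_rb8033094a_d43_d53_d41_d39_d43_d4d_d42_d3b_d51_d25 g_wQ_26_wN_1_rb8033094a_d43_d53_d41_d39_d43_d4d_d42_d3b_d51_d23 g_wQ_26_wN_1_rb8033094a_d43_d53_d41_d39_d43_d4d_d42_d3b_d51_d21 g_wQ_26_wN_1_rb8033094a_d43_d53_d41_d39_d43_d4d_d42_d3b_d51_d20 g_wQ_26_wN_1_rb8033094a_d43_d53_d41_d39_d43_d4d_d42_d3b_d51_d1f g_wQ_26_wN_1_rb8033094a_d43_d53_d41_d39_d43_d4d_d42_d3b_d51_d1e g_wQ_26_wN_1_rb8033094a_d43_d53_d41_d39_d43_d4d_d42_d3b_d51_d1c g_wQ_26_wN_1_rb8033094a_d43_d53_d41_d39_d43_d4d_d42_d3b_d51_d1b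 g_wQ_26_wN_1_rb8033094a_d43_d53_d41_d39_d43_d4d_d42_d3b_d51_d1a g_wQ_26_wN_1_rb8033094a_d43_d53_d41_d39_d43_d4d_d42_d3b_d51_d19 g_wQ_26_wN_1_rb8033094a_d43_d53_d41_d39_d43_d4d_d42_d3b_d51_d18 g_wQ_26_wN_1_rb8033094a_d43_d53_d41_d39_d43_d4d_d42_d3b_d51_d16 g_wQ_26_wN_1_rb8033094a_d43_d53_d41_d39_d43_d4d_d42_d3b_d51_d14 g_wQ_26_wN_1_rb8033094a_d43_d53_d41_d39_d43_d4d_d42_d3b_d51_d13 g_wQ_26_wN_1_rb8033094a_d43_d53_d41_d39_d43_d4d_d42_d3b_d51_d12 g_wQ_26_wN_1_rb8033094a_d43_d53_d41_d39_d43_d4d_d42_d3b_d51_d11 g_wQ_26_wN_1_rb8033094a_d43_d53_d41_d39_d43_d4d_d42_d3b_d51_d0f g_wQ_26_wN_1_rb8033094a_d43_d53_d41_d39_d43_d4d_d42_d3b_d51_d0d g_wQ_26_wN_1_rb8033094a_d43_d53_d41_d39_d43_d4d_d42_d3b_d51_d0c g_wQ_26_wN_1_rb8033094a_d43_d53_d41_d39_d43_d4d_d42_d3b_d51_d05 g_wQ_26_wN_1_rb8033094a_d43_d53_d41_d39_d43_d4d_d42_d3b_d51_d04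 g_wQ_26_wN_1_rb8033094a_d43_d53_d41_d39_d43_d4d_d42_d3b_d51_d03 g_wQ_26_wN_1_rb8033094a_d43_d53_d41_d39_d43_d4d_d42_d3b_d51_d02 g_wQ_26_wN_1_rb8033094a_d43_d53_d41_d39_d43_d4d_d42_d3b_d51_d01 g_wQ_26_wN_1_rb8033094a_d43_d53_d41_d39_d43_d4d_d42_d3b_d51_d00 g_wQ_26_wN_1_rb8033094a_d43_d53_d41_d39_d43_d4d_d42_d3b_d51_d06 g_wQ_26_wN_1_rb8033094a_d43_d53_d41_d39_d43_d4d_d42_d3b_d51_d07 g_wQ_26_wN_1_rb8033094a_d43_d53_d41_d39_d43_d4d_d42_d3b_d51_d08 g_wQ_26_wN_1_rb8033094a_d43_d53_d41_d39_d43_d4d_d42_d3b_d51_d09 g_wQ_26_wN_1_rb8033094a_d43_d53_d41_d39_d43_d4d_d42_d3b_d51_d0a g_wQ_26_wN_1_rb8033094a_d43_d53_d41_d39_d43_d4d_d42_d3b_d51_d0b g_wQ_26_wN_1_rb8033094a_d43_d53_d41_d39_d43_d4d_d42_d3b_d51_d0e g_wQ_26_wN_1_rb8033094a_d43_d53_d41_d39_d43_d4d_d42_d3b_d51_d10 g_wQ_26_wN_1_rb8033094a_d43_d53_d41_d39_d43_d4d_d42_d3b_d51_d15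 g_wQ_26_wN_1_rb8033094a_d43_d53_d41_d39_d43_d4d_d42_d3b_d51_d17 g_wQ_26_wN_1_rb8033094a_d43_d53_d41_d39_d43_d4d_d42_d3b_d51_d1d g_wQ_26_wN_1_rb8033094a_d43_d53_d41_d39_d43_d4d_d42_d3b_d51_d22 g_wQ_26_wN_1_rb8033094a_d43_d53_d41_d39_d43_d4d_d42_d3b_d51_d24

theorem g_wQ_26_wN_1_rb8033094a_d43_d53_d41_d39_d43_d4d_d42_d3cv1 : GoodKC AS c_wQ_26_wN_1_rb8033094a_d43_d53_d41_d39_d43_d4d_d42_d3cv1 := p_wQ_26_wN_1_rb8033094a_d43_d53_d41_d39_d43_d4d_d42_d3c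

theorem g_wQ_26_wN_1_rb8033094a_d43_d53_d41_d39_d43_d4dx2 : GoodKC AS c_wQ_26_wN_1_rb8033094a_d43_d53_d41_d39_d43_d4dx2 := p_wQ_26_wN_1_rb8033094a_d43_d53_d41_d39_d43_d4dv1 g_wQ_26_wN_1_rb8033094a_d43_d53_d41_d39_d43_d4d_d42_d3dv1 g_wQ_26_wN_1_rb8033094a_d43_d53_d41_d39_d43_d4d_d42_d39v1 g_wQ_26_wN_1_rb8033094a_d43_d53_d41_d39_d43_d4d_d42_d38v1 g_wQ_26_wN_1_rb8033094a_d43_d53_d41_d39_d43_d4d_d42_d37v1 g_wQ_26_wN_1_rb8033094a_d43_d53_d41_d39_d43_d4d_d42_d35v1 g_wQ_26_wN_1_rb8033094a_d43_d53_d41_d39_d43_d4d_d42_d34v1 g_wQ_26_wN_1_rb8033094a_d43_d53_d41_d39_d43_d4d_d42_d33v1 g_wQ_26_wN_1_rb8033094a_d43_d53_d41_d39_d43_d4d_d42_d32v1 g_wQ_26_wN_1_rb8033094a_d43_d53_d41_d39_d43_d4d_d42_d30v1 g_wQ_26_wN_1_rb8033094a_d43_d53_d41_d39_d43_d4d_d42_d2fv1 g_wQ_26_wN_1_rb8033094a_d43_d53_d41_d39_d43_d4d_d42_d2dv1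 g_wQ_26_wN_1_rb8033094a_d43_d53_d41_d39_d43_d4d_d42_d29v1 g_wQ_26_wN_1_rb8033094a_d43_d53_d41_d39_d43_d4d_d42_d28v1 g_wQ_26_wN_1_rb8033094a_d43_d53_d41_d39_d43_d4d_d42_d27v1 g_wQ_26_wN_1_rb8033094a_d43_d53_d41_d39_d43_d4d_d42_d26v1 g_wQ_26_wN_1_rb8033094a_d43_d53_d41_d39_d43_d4d_d42_d25v1 g_wQ_26_wN_1_rb8033094a_d43_d53_d41_d39_d43_d4d_d42_d24v1 g_wQ_26_wN_1_rb8033094a_d43_d53_d41_d39_d43_d4d_d42_d21v1 g_wQ_26_wN_1_rb8033094a_d43_d53_d41_d39_d43_d4d_d42_d1fv1 g_wQ_26_wN_1_rb8033094a_d43_d53_d41_d39_d43_d4d_d42_d1ev1 g_wQ_26_wN_1_rb8033094a_d43_d53_d41_d39_d43_d4d_d42_d1cv1 g_wQ_26_wN_1_rb8033094a_d43_d53_d41_d39_d43_d4d_d42_d1bv1 g_wQ_26_wN_1_rb8033094a_d43_d53_d41_d39_d43_d4d_d42_d16v1 g_wQ_26_wN_1_rb8033094a_d43_d53_d41_d39_d43_d4d_d42_d14v1 g_wQ_26_wN_1_rb8033094a_d43_d53_d41_d39_d43_d4d_d42_d13v1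 g_wQ_26_wN_1_rb8033094a_d43_d53_d41_d39_d43_d4d_d42_d11v1 g_wQ_26_wN_1_rb8033094a_d43_d53_d41_d39_d43_d4d_d42_d10v1 g_wQ_26_wN_1_rb8033094a_d43_d53_d41_d39_d43_d4d_d42_d0ev1 g_wQ_26_wN_1_rb8033094a_d43_d53_d41_d39_d43_d4d_d42_d0bv1 g_wQ_26_wN_1_rb8033094a_d43_d53_d41_d39_d43_d4d_d42_d0av1 g_wQ_26_wN_1_rb8033094a_d43_d53_d41_d39_d43_d4d_d42_d09v1 g_wQ_26_wN_1_rb8033094a_d43_d53_d41_d39_d43_d4d_d42_d08v1 g_wQ_26_wN_1_rb8033094a_d43_d53_d41_d39_d43_d4d_d42_d06v1 g_wQ_26_wN_1_rb8033094a_d43_d53_d41_d39_d43_d4d_d42_d05v1 g_wQ_26_wN_1_rb8033094a_d43_d53_d41_d39_d43_d4d_d42_d04v1 g_wQ_26_wN_1_rb8033094a_d43_d53_d41_d39_d43_d4d_d42_d03v1 g_wQ_26_wN_1_rb8033094a_d43_d53_d41_d39_d43_d4d_d42_d01v1 g_wQ_26_wN_1_rb8033094a_d43_d53_d41_d39_d43_d4d_d42_d00v1 g_wQ_26_wN_1_rb8033094a_d43_d53_d41_d39_d43_d4d_d42_d02v1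 g_wQ_26_wN_1_rb8033094a_d43_d53_d41_d39_d43_d4d_d42_d07v1 g_wQ_26_wN_1_rb8033094a_d43_d53_d41_d39_d43_d4d_d42_d0cv1 g_wQ_26_wN_1_rb8033094a_d43_d53_d41_d39_d43_d4d_d42_d0dv1 g_wQ_26_wN_1_rb8033094a_d43_d53_d41_d39_d43_d4d_d42_d0fv1 g_wQ_26_wN_1_rb8033094a_d43_d53_d41_d39_d43_d4d_d42_d12v1 g_wQ_26_wN_1_rb8033094a_d43_d53_d41_d39_d43_d4d_d42_d15v1 g_wQ_26_wN_1_rb8033094a_d43_d53_d41_d39_d43_d4d_d42_d17v1 g_wQ_26_wN_1_rb8033094a_d43_d53_d41_d39_d43_d4d_d42_d18v1 g_wQ_26_wN_1_rb8033094a_d43_d53_d41_d39_d43_d4d_d42_d19v1 g_wQ_26_wN_1_rb8033094a_d43_d53_d41_d39_d43_d4d_d42_d1av1 g_wQ_26_wN_1_rb8033094a_d43_d53_d41_d39_d43_d4d_d42_d1dv1 g_wQ_26_wN_1_rb8033094a_d43_d53_d41_d39_d43_d4d_d42_d20v1 g_wQ_26_wN_1_rb8033094a_d43_d53_d41_d39_d43_d4d_d42_d22v1 g_wQ_26_wN_1_rb8033094a_d43_d53_d41_d39_d43_d4d_d42_d23v1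 g_wQ_26_wN_1_rb8033094a_d43_d53_d41_d39_d43_d4d_d42_d2av1 g_wQ_26_wN_1_rb8033094a_d43_d53_d41_d39_d43_d4d_d42_d2bv1 g_wQ_26_wN_1_rb8033094a_d43_d53_d41_d39_d43_d4d_d42_d2cv1 g_wQ_26_wN_1_rb8033094a_d43_d53_d41_d39_d43_d4d_d42_d2ev1 g_wQ_26_wN_1_rb8033094a_d43_d53_d41_d39_d43_d4d_d42_d31v1 g_wQ_26_wN_1_rb8033094a_d43_d53_d41_d39_d43_d4d_d42_d36v1 g_wQ_26_wN_1_rb8033094a_d43_d53_d41_d39_d43_d4d_d42_d3av1 g_wQ_26_wN_1_rb8033094a_d43_d53_d41_d39_d43_d4d_d42_d3bv1 g_wQ_26_wN_1_rb8033094a_d43_d53_d41_d39_d43_d4d_d42_d3cv1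

theorem g_wQ_26_wN_1_rb8033094a_d43_d53_d41_d39x9 : GoodKC AS c_wQ_26_wN_1_rb8033094a_d43_d53_d41_d39x9 := p_wQ_26_wN_1_rb8033094a_d43_d53_d41_d39x2 g_wQ_26_wN_1_rb8033094a_d43_d53_d41_d39_d43_d4fx2 g_wQ_26_wN_1_rb8033094a_d43_d53_d41_d39_d43_d4ex2 g_wQ_26_wN_1_rb8033094a_d43_d53_d41_d39_d43_d4bx2 g_wQ_26_wN_1_rb8033094a_d43_d53_d41_d39_d43_d4ax2 g_wQ_26_wN_1_rb8033094a_d43_d53_d41_d39_d43_d48x2 g_wQ_26_wN_1_rb8033094a_d43_d53_d41_d39_d43_d47x2 g_wQ_26_wN_1_rb8033094a_d43_d53_d41_d39_d43_d46x2 g_wQ_26_wN_1_rb8033094a_d43_d53_d41_d39_d43_d45x2 g_wQ_26_wN_1_rb8033094a_d43_d53_d41_d39_d43_d44x2 g_wQ_26_wN_1_rb8033094a_d43_d53_d41_d39_d43_d42x2 g_wQ_26_wN_1_rb8033094a_d43_d53_d41_d39_d43_d41x2 g_wQ_26_wN_1_rb8033094a_d43_d53_d41_d39_d43_d40x2 g_wQ_26_wN_1_rb8033094a_d43_d53_d41_d39_d43_d3fx2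 g_wQ_26_wN_1_rb8033094a_d43_d53_d41_d39_d43_d3cx2 g_wQ_26_wN_1_rb8033094a_d43_d53_d41_d39_d43_d3bx2 g_wQ_26_wN_1_rb8033094a_d43_d53_d41_d39_d43_d39x2 g_wQ_26_wN_1_rb8033094a_d43_d53_d41_d39_d43_d38x2 g_wQ_26_wN_1_rb8033094a_d43_d53_d41_d39_d43_d36x2 g_wQ_26_wN_1_rb8033094a_d43_d53_d41_d39_d43_d32x2 g_wQ_26_wN_1_rb8033094a_d43_d53_d41_d39_d43_d31x2 g_wQ_26_wN_1_rb8033094a_d43_d53_d41_d39_d43_d30x2 g_wQ_26_wN_1_rb8033094a_d43_d53_d41_d39_d43_d2fx2 g_wQ_26_wN_1_rb8033094a_d43_d53_d41_d39_d43_d2ex2 g_wQ_26_wN_1_rb8033094a_d43_d53_d41_d39_d43_d2dx2 g_wQ_26_wN_1_rb8033094a_d43_d53_d41_d39_d43_d2cx2 g_wQ_26_wN_1_rb8033094a_d43_d53_d41_d39_d43_d2bx2 g_wQ_26_wN_1_rb8033094a_d43_d53_d41_d39_d43_d29x2 g_wQ_26_wN_1_rb8033094a_d43_d53_d41_d39_d43_d28x2 g_wQ_26_wN_1_rb8033094a_d43_d53_d41_d39_d43_d27x2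 g_wQ_26_wN_1_rb8033094a_d43_d53_d41_d39_d43_d26x2 g_wQ_26_wN_1_rb8033094a_d43_d53_d41_d39_d43_d25x2 g_wQ_26_wN_1_rb8033094a_d43_d53_d41_d39_d43_d23x2 g_wQ_26_wN_1_rb8033094a_d43_d53_d41_d39_d43_d22x2 g_wQ_26_wN_1_rb8033094a_d43_d53_d41_d39_d43_d21x2 g_wQ_26_wN_1_rb8033094a_d43_d53_d41_d39_d43_d20x2 g_wQ_26_wN_1_rb8033094a_d43_d53_d41_d39_d43_d1fx2 g_wQ_26_wN_1_rb8033094a_d43_d53_d41_d39_d43_d1dx2 g_wQ_26_wN_1_rb8033094a_d43_d53_d41_d39_d43_d1bx2 g_wQ_26_wN_1_rb8033094a_d43_d53_d41_d39_d43_d1ax2 g_wQ_26_wN_1_rb8033094a_d43_d53_d41_d39_d43_d19x2 g_wQ_26_wN_1_rb8033094a_d43_d53_d41_d39_d43_d17x2 g_wQ_26_wN_1_rb8033094a_d43_d53_d41_d39_d43_d16x2 g__wQ_26_wN_1_rb8033094a_d43_d53_d41_d39x2_0 g__wQ_26_wN_1_rb8033094a_d43_d53_d41_d39x2_1 g_wQ_26_wN_1_rb8033094a_d43_d53_d41_d39_d43_d18x2 g_wQ_26_wN_1_rb8033094a_d43_d53_d41_d39_d43_d1cx2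 g_wQ_26_wN_1_rb8033094a_d43_d53_d41_d39_d43_d1ex2 g_wQ_26_wN_1_rb8033094a_d43_d53_d41_d39_d43_d24x2 g_wQ_26_wN_1_rb8033094a_d43_d53_d41_d39_d43_d2ax2 g_wQ_26_wN_1_rb8033094a_d43_d53_d41_d39_d43_d33x2 g_wQ_26_wN_1_rb8033094a_d43_d53_d41_d39_d43_d34x2 g_wQ_26_wN_1_rb8033094a_d43_d53_d41_d39_d43_d35x2 g_wQ_26_wN_1_rb8033094a_d43_d53_d41_d39_d43_d37x2 g_wQ_26_wN_1_rb8033094a_d43_d53_d41_d39_d43_d3ax2 g_wQ_26_wN_1_rb8033094a_d43_d53_d41_d39_d43_d3dx2 g_wQ_26_wN_1_rb8033094a_d43_d53_d41_d39_d43_d3ex2 g_wQ_26_wN_1_rb8033094a_d43_d53_d41_d39_d43_d43x2 g_wQ_26_wN_1_rb8033094a_d43_d53_d41_d39_d43_d49x2 g_wQ_26_wN_1_rb8033094a_d43_d53_d41_d39_d43_d4cx2 g_wQ_26_wN_1_rb8033094a_d43_d53_d41_d39_d43_d4dx2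

theorem g_wQ_26_wN_1_rb8033094a_d43_d53_d41_d36x9 : GoodKC AS c_wQ_26_wN_1_rb8033094a_d43_d53_d41_d36x9 := p_wQ_26_wN_1_rb8033094a_d43_d53_d41_d36x1

theorem g_wQ_26_wN_1_rb8033094a_d43_d53_d41_d35x9 : GoodKC AS c_wQ_26_wN_1_rb8033094a_d43_d53_d41_d35x9 := p_wQ_26_wN_1_rb8033094a_d43_d53_d41_d35x1

theorem g_wQ_26_wN_1_rb8033094a_d43_d53_d41_d34_d51_d19v1 : GoodKC AS c_wQ_26_wN_1_rb8033094a_d43_d53_d41_d34_d51_d19v1 := p_wQ_26_wN_1_rb8033094a_d43_d53_d41_d34_d51_d19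

theorem g_wQ_26_wN_1_rb8033094a_d43_d53_d41_d34_d51_d18v1 : GoodKC AS c_wQ_26_wN_1_rb8033094a_d43_d53_d41_d34_d51_d18v1 := p_wQ_26_wN_1_rb8033094a_d43_d53_d41_d34_d51_d18

theorem g__wQ_26_wN_1_rb8033094a_d43_d53_d41_d34_d51_d17_1 : GoodKC AS k_wQ_26_wN_1_rb8033094a_d43_d53_d41_d34_d51_d17_1 := p_wQ_26_wN_1_rb8033094a_d43_d53_d41_d34_d51_d17_1

theorem g__wQ_26_wN_1_rb8033094a_d43_d53_d41_d34_d51_d17_0 : GoodKC AS k_wQ_26_wN_1_rb8033094a_d43_d53_d41_d34_d51_d17_0 := p_wQ_26_wN_1_rb8033094a_d43_d53_d41_d34_d51_d17_0 g__wQ_26_wN_1_rb8033094a_d43_d53_d41_d34_d51_d17_1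

theorem g_wQ_26_wN_1_rb8033094a_d43_d53_d41_d34_d51_d17v1 : GoodKC AS c_wQ_26_wN_1_rb8033094a_d43_d53_d41_d34_d51_d17v1 := p_wQ_26_wN_1_rb8033094a_d43_d53_d41_d34_d51_d17 g__wQ_26_wN_1_rb8033094a_d43_d53_d41_d34_d51_d17_0

theorem g__wQ_26_wN_1_rb8033094a_d43_d53_d41_d34_d51_d15v2_2 : GoodKC AS k_wQ_26_wN_1_rb8033094a_d43_d53_d41_d34_d51_d15v2_2 := p_wQ_26_wN_1_rb8033094a_d43_d53_d41_d34_d51_d15v2_2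

theorem g__wQ_26_wN_1_rb8033094a_d43_d53_d41_d34_d51_d15v2_4 : GoodKC AS k_wQ_26_wN_1_rb8033094a_d43_d53_d41_d34_d51_d15v2_4 := p_wQ_26_wN_1_rb8033094a_d43_d53_d41_d34_d51_d15v2_4

theorem g__wQ_26_wN_1_rb8033094a_d43_d53_d41_d34_d51_d15v2_3 : GoodKC AS k_wQ_26_wN_1_rb8033094a_d43_d53_d41_d34_d51_d15v2_3 := p_wQ_26_wN_1_rb8033094a_d43_d53_d41_d34_d51_d15v2_3 g__wQ_26_wN_1_rb8033094a_d43_d53_d41_d34_d51_d15v2_4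

theorem g__wQ_26_wN_1_rb8033094a_d43_d53_d41_d34_d51_d15v2_5 : GoodKC AS k_wQ_26_wN_1_rb8033094a_d43_d53_d41_d34_d51_d15v2_5 := p_wQ_26_wN_1_rb8033094a_d43_d53_d41_d34_d51_d15v2_5

theorem g__wQ_26_wN_1_rb8033094a_d43_d53_d41_d34_d51_d15v2_7 : GoodKC AS k_wQ_26_wN_1_rb8033094a_d43_d53_d41_d34_d51_d15v2_7 := p_wQ_26_wN_1_rb8033094a_d43_d53_d41_d34_d51_d15v2_7

theorem g__wQ_26_wN_1_rb8033094a_d43_d53_d41_d34_d51_d15v2_6 : GoodKC AS k_wQ_26_wN_1_rb8033094a_d43_d53_d41_d34_d51_d15v2_6 := p_wQ_26_wN_1_rb8033094a_d43_d53_d41_d34_d51_d15v2_6 g__wQ_26_wN_1_rb8033094a_d43_d53_d41_d34_d51_d15v2_7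

theorem g__wQ_26_wN_1_rb8033094a_d43_d53_d41_d34_d51_d15v2_1 : GoodKC AS k_wQ_26_wN_1_rb8033094a_d43_d53_d41_d34_d51_d15v2_1 := p_wQ_26_wN_1_rb8033094a_d43_d53_d41_d34_d51_d15v2_1 g__wQ_26_wN_1_rb8033094a_d43_d53_d41_d34_d51_d15v2_2 g__wQ_26_wN_1_rb8033094a_d43_d53_d41_d34_d51_d15v2_3 g__wQ_26_wN_1_rb8033094a_d43_d53_d41_d34_d51_d15v2_5 g__wQ_26_wN_1_rb8033094a_d43_d53_d41_d34_d51_d15v2_6

theorem g__wQ_26_wN_1_rb8033094a_d43_d53_d41_d34_d51_d15v2_10 : GoodKC AS k_wQ_26_wN_1_rb8033094a_d43_d53_d41_d34_d51_d15v2_10 := p_wQ_26_wN_1_rb8033094a_d43_d53_d41_d34_d51_d15v2_10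

theorem g__wQ_26_wN_1_rb8033094a_d43_d53_d41_d34_d51_d15v2_11 : GoodKC AS k_wQ_26_wN_1_rb8033094a_d43_d53_d41_d34_d51_d15v2_11 := p_wQ_26_wN_1_rb8033094a_d43_d53_d41_d34_d51_d15v2_11

theorem g__wQ_26_wN_1_rb8033094a_d43_d53_d41_d34_d51_d15v2_9 : GoodKC AS k_wQ_26_wN_1_rb8033094a_d43_d53_d41_d34_d51_d15v2_9 := p_wQ_26_wN_1_rb8033094a_d43_d53_d41_d34_d51_d15v2_9 g__wQ_26_wN_1_rb8033094a_d43_d53_d41_d34_d51_d15v2_10 g__wQ_26_wN_1_rb8033094a_d43_d53_d41_d34_d51_d15v2_11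

theorem g__wQ_26_wN_1_rb8033094a_d43_d53_d41_d34_d51_d15v2_14 : GoodKC AS k_wQ_26_wN_1_rb8033094a_d43_d53_d41_d34_d51_d15v2_14 := p_wQ_26_wN_1_rb8033094a_d43_d53_d41_d34_d51_d15v2_14

theorem g__wQ_26_wN_1_rb8033094a_d43_d53_d41_d34_d51_d15v2_13 : GoodKC AS k_wQ_26_wN_1_rb8033094a_d43_d53_d41_d34_d51_d15v2_13 := p_wQ_26_wN_1_rb8033094a_d43_d53_d41_d34_d51_d15v2_13 g__wQ_26_wN_1_rb8033094a_d43_d53_d41_d34_d51_d15v2_14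

theorem g__wQ_26_wN_1_rb8033094a_d43_d53_d41_d34_d51_d15v2_12 : GoodKC AS k_wQ_26_wN_1_rb8033094a_d43_d53_d41_d34_d51_d15v2_12 := p_wQ_26_wN_1_rb8033094a_d43_d53_d41_d34_d51_d15v2_12 g__wQ_26_wN_1_rb8033094a_d43_d53_d41_d34_d51_d15v2_13

theorem g__wQ_26_wN_1_rb8033094a_d43_d53_d41_d34_d51_d15v2_8 : GoodKC AS k_wQ_26_wN_1_rb8033094a_d43_d53_d41_d34_d51_d15v2_8 := p_wQ_26_wN_1_rb8033094a_d43_d53_d41_d34_d51_d15v2_8 g__wQ_26_wN_1_rb8033094a_d43_d53_d41_d34_d51_d15v2_9 g__wQ_26_wN_1_rb8033094a_d43_d53_d41_d34_d51_d15v2_12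

theorem g__wQ_26_wN_1_rb8033094a_d43_d53_d41_d34_d51_d15v2_0 : GoodKC AS k_wQ_26_wN_1_rb8033094a_d43_d53_d41_d34_d51_d15v2_0 := p_wQ_26_wN_1_rb8033094a_d43_d53_d41_d34_d51_d15v2_0 g__wQ_26_wN_1_rb8033094a_d43_d53_d41_d34_d51_d15v2_1 g__wQ_26_wN_1_rb8033094a_d43_d53_d41_d34_d51_d15v2_8

theorem g_wQ_26_wN_1_rb8033094a_d43_d53_d41_d34_d51_d15v1 : GoodKC AS c_wQ_26_wN_1_rb8033094a_d43_d53_d41_d34_d51_d15v1 := p_wQ_26_wN_1_rb8033094a_d43_d53_d41_d34_d51_d15v2 g__wQ_26_wN_1_rb8033094a_d43_d53_d41_d34_d51_d15v2_0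

theorem g_wQ_26_wN_1_rb8033094a_d43_d53_d41_d34_d51_d14v1 : GoodKC AS c_wQ_26_wN_1_rb8033094a_d43_d53_d41_d34_d51_d14v1 := p_wQ_26_wN_1_rb8033094a_d43_d53_d41_d34_d51_d14

theorem g_wQ_26_wN_1_rb8033094a_d43_d53_d41_d34_d51_d13v1 : GoodKC AS c_wQ_26_wN_1_rb8033094a_d43_d53_d41_d34_d51_d13v1 := p_wQ_26_wN_1_rb8033094a_d43_d53_d41_d34_d51_d13

theorem g_wQ_26_wN_1_rb8033094a_d43_d53_d41_d34_d51_d12v1 : GoodKC AS c_wQ_26_wN_1_rb8033094a_d43_d53_d41_d34_d51_d12v1 := p_wQ_26_wN_1_rb8033094a_d43_d53_d41_d34_d51_d12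

theorem g_wQ_26_wN_1_rb8033094a_d43_d53_d41_d34_d51_d11v1 : GoodKC AS c_wQ_26_wN_1_rb8033094a_d43_d53_d41_d34_d51_d11v1 := p_wQ_26_wN_1_rb8033094a_d43_d53_d41_d34_d51_d11

theorem g_wQ_26_wN_1_rb8033094a_d43_d53_d41_d34_d51_d10v1 : GoodKC AS c_wQ_26_wN_1_rb8033094a_d43_d53_d41_d34_d51_d10v1 := p_wQ_26_wN_1_rb8033094a_d43_d53_d41_d34_d51_d10

theorem g_wQ_26_wN_1_rb8033094a_d43_d53_d41_d34_d51_d0fv1 : GoodKC AS c_wQ_26_wN_1_rb8033094a_d43_d53_d41_d34_d51_d0fv1 := p_wQ_26_wN_1_rb8033094a_d43_d53_d41_d34_d51_d0f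

theorem g__wQ_26_wN_1_rb8033094a_d43_d53_d41_d34_d51_d0ev1_1 : GoodKC AS k_wQ_26_wN_1_rb8033094a_d43_d53_d41_d34_d51_d0ev1_1 := p_wQ_26_wN_1_rb8033094a_d43_d53_d41_d34_d51_d0ev1_1

theorem g__wQ_26_wN_1_rb8033094a_d43_d53_d41_d34_d51_d0ev1_4 : GoodKC AS k_wQ_26_wN_1_rb8033094a_d43_d53_d41_d34_d51_d0ev1_4 := p_wQ_26_wN_1_rb8033094a_d43_d53_d41_d34_d51_d0ev1_4

theorem g__wQ_26_wN_1_rb8033094a_d43_d53_d41_d34_d51_d0ev1_3 : GoodKC AS k_wQ_26_wN_1_rb8033094a_d43_d53_d41_d34_d51_d0ev1_3 := p_wQ_26_wN_1_rb8033094a_d43_d53_d41_d34_d51_d0ev1_3 g__wQ_26_wN_1_rb8033094a_d43_d53_d41_d34_d51_d0ev1_4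

theorem g__wQ_26_wN_1_rb8033094a_d43_d53_d41_d34_d51_d0ev1_2 : GoodKC AS k_wQ_26_wN_1_rb8033094a_d43_d53_d41_d34_d51_d0ev1_2 := p_wQ_26_wN_1_rb8033094a_d43_d53_d41_d34_d51_d0ev1_2 g__wQ_26_wN_1_rb8033094a_d43_d53_d41_d34_d51_d0ev1_3

theorem g__wQ_26_wN_1_rb8033094a_d43_d53_d41_d34_d51_d0ev1_0 : GoodKC AS k_wQ_26_wN_1_rb8033094a_d43_d53_d41_d34_d51_d0ev1_0 := p_wQ_26_wN_1_rb8033094a_d43_d53_d41_d34_d51_d0ev1_0 g__wQ_26_wN_1_rb8033094a_d43_d53_d41_d34_d51_d0ev1_1 g__wQ_26_wN_1_rb8033094a_d43_d53_d41_d34_d51_d0ev1_2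

theorem g__wQ_26_wN_1_rb8033094a_d43_d53_d41_d34_d51_d0ev1_5 : GoodKC AS k_wQ_26_wN_1_rb8033094a_d43_d53_d41_d34_d51_d0ev1_5 := p_wQ_26_wN_1_rb8033094a_d43_d53_d41_d34_d51_d0ev1_5

theorem g_wQ_26_wN_1_rb8033094a_d43_d53_d41_d34_d51_d0ev1 : GoodKC AS c_wQ_26_wN_1_rb8033094a_d43_d53_d41_d34_d51_d0ev1 := p_wQ_26_wN_1_rb8033094a_d43_d53_d41_d34_d51_d0ev1 g__wQ_26_wN_1_rb8033094a_d43_d53_d41_d34_d51_d0ev1_0 g__wQ_26_wN_1_rb8033094a_d43_d53_d41_d34_d51_d0ev1_5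

theorem g_wQ_26_wN_1_rb8033094a_d43_d53_d41_d34_d51_d0cv1 : GoodKC AS c_wQ_26_wN_1_rb8033094a_d43_d53_d41_d34_d51_d0cv1 := p_wQ_26_wN_1_rb8033094a_d43_d53_d41_d34_d51_d0c

theorem g__wQ_26_wN_1_rb8033094a_d43_d53_d41_d34_d51_d0b_1 : GoodKC AS k_wQ_26_wN_1_rb8033094a_d43_d53_d41_d34_d51_d0b_1 := p_wQ_26_wN_1_rb8033094a_d43_d53_d41_d34_d51_d0b_1

theorem g__wQ_26_wN_1_rb8033094a_d43_d53_d41_d34_d51_d0b_0 : GoodKC AS k_wQ_26_wN_1_rb8033094a_d43_d53_d41_d34_d51_d0b_0 := p_wQ_26_wN_1_rb8033094a_d43_d53_d41_d34_d51_d0b_0 g__wQ_26_wN_1_rb8033094a_d43_d53_d41_d34_d51_d0b_1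

theorem g__wQ_26_wN_1_rb8033094a_d43_d53_d41_d34_d51_d0b_3 : GoodKC AS k_wQ_26_wN_1_rb8033094a_d43_d53_d41_d34_d51_d0b_3 := p_wQ_26_wN_1_rb8033094a_d43_d53_d41_d34_d51_d0b_3

theorem g__wQ_26_wN_1_rb8033094a_d43_d53_d41_d34_d51_d0b_6 : GoodKC AS k_wQ_26_wN_1_rb8033094a_d43_d53_d41_d34_d51_d0b_6 := p_wQ_26_wN_1_rb8033094a_d43_d53_d41_d34_d51_d0b_6

theorem g__wQ_26_wN_1_rb8033094a_d43_d53_d41_d34_d51_d0b_5 : GoodKC AS k_wQ_26_wN_1_rb8033094a_d43_d53_d41_d34_d51_d0b_5 := p_wQ_26_wN_1_rb8033094a_d43_d53_d41_d34_d51_d0b_5 g__wQ_26_wN_1_rb8033094a_d43_d53_d41_d34_d51_d0b_6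

theorem g__wQ_26_wN_1_rb8033094a_d43_d53_d41_d34_d51_d0b_4 : GoodKC AS k_wQ_26_wN_1_rb8033094a_d43_d53_d41_d34_d51_d0b_4 := p_wQ_26_wN_1_rb8033094a_d43_d53_d41_d34_d51_d0b_4 g__wQ_26_wN_1_rb8033094a_d43_d53_d41_d34_d51_d0b_5

theorem g__wQ_26_wN_1_rb8033094a_d43_d53_d41_d34_d51_d0b_2 : GoodKC AS k_wQ_26_wN_1_rb8033094a_d43_d53_d41_d34_d51_d0b_2 := p_wQ_26_wN_1_rb8033094a_d43_d53_d41_d34_d51_d0b_2 g__wQ_26_wN_1_rb8033094a_d43_d53_d41_d34_d51_d0b_3 g__wQ_26_wN_1_rb8033094a_d43_d53_d41_d34_d51_d0b_4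

theorem g_wQ_26_wN_1_rb8033094a_d43_d53_d41_d34_d51_d0bv1 : GoodKC AS c_wQ_26_wN_1_rb8033094a_d43_d53_d41_d34_d51_d0bv1 := p_wQ_26_wN_1_rb8033094a_d43_d53_d41_d34_d51_d0b g__wQ_26_wN_1_rb8033094a_d43_d53_d41_d34_d51_d0b_0 g__wQ_26_wN_1_rb8033094a_d43_d53_d41_d34_d51_d0b_2

theorem g__wQ_26_wN_1_rb8033094a_d43_d53_d41_d34_d51_d0a_5 : GoodKC AS k_wQ_26_wN_1_rb8033094a_d43_d53_d41_d34_d51_d0a_5 := p_wQ_26_wN_1_rb8033094a_d43_d53_d41_d34_d51_d0a_5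

theorem g__wQ_26_wN_1_rb8033094a_d43_d53_d41_d34_d51_d0a_4 : GoodKC AS k_wQ_26_wN_1_rb8033094a_d43_d53_d41_d34_d51_d0a_4 := p_wQ_26_wN_1_rb8033094a_d43_d53_d41_d34_d51_d0a_4 g__wQ_26_wN_1_rb8033094a_d43_d53_d41_d34_d51_d0a_5

theorem g__wQ_26_wN_1_rb8033094a_d43_d53_d41_d34_d51_d0a_3 : GoodKC AS k_wQ_26_wN_1_rb8033094a_d43_d53_d41_d34_d51_d0a_3 := p_wQ_26_wN_1_rb8033094a_d43_d53_d41_d34_d51_d0a_3 g__wQ_26_wN_1_rb8033094a_d43_d53_d41_d34_d51_d0a_4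

theorem g__wQ_26_wN_1_rb8033094a_d43_d53_d41_d34_d51_d0a_7 : GoodKC AS k_wQ_26_wN_1_rb8033094a_d43_d53_d41_d34_d51_d0a_7 := p_wQ_26_wN_1_rb8033094a_d43_d53_d41_d34_d51_d0a_7

theorem g__wQ_26_wN_1_rb8033094a_d43_d53_d41_d34_d51_d0a_6 : GoodKC AS k_wQ_26_wN_1_rb8033094a_d43_d53_d41_d34_d51_d0a_6 := p_wQ_26_wN_1_rb8033094a_d43_d53_d41_d34_d51_d0a_6 g__wQ_26_wN_1_rb8033094a_d43_d53_d41_d34_d51_d0a_7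

theorem g__wQ_26_wN_1_rb8033094a_d43_d53_d41_d34_d51_d0a_12 : GoodKC AS k_wQ_26_wN_1_rb8033094a_d43_d53_d41_d34_d51_d0a_12 := p_wQ_26_wN_1_rb8033094a_d43_d53_d41_d34_d51_d0a_12

theorem g__wQ_26_wN_1_rb8033094a_d43_d53_d41_d34_d51_d0a_11 : GoodKC AS k_wQ_26_wN_1_rb8033094a_d43_d53_d41_d34_d51_d0a_11 := p_wQ_26_wN_1_rb8033094a_d43_d53_d41_d34_d51_d0a_11 g__wQ_26_wN_1_rb8033094a_d43_d53_d41_d34_d51_d0a_12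

theorem g__wQ_26_wN_1_rb8033094a_d43_d53_d41_d34_d51_d0a_20 : GoodKC AS k_wQ_26_wN_1_rb8033094a_d43_d53_d41_d34_d51_d0a_20 := p_wQ_26_wN_1_rb8033094a_d43_d53_d41_d34_d51_d0a_20

theorem g__wQ_26_wN_1_rb8033094a_d43_d53_d41_d34_d51_d0a_22 : GoodKC AS k_wQ_26_wN_1_rb8033094a_d43_d53_d41_d34_d51_d0a_22 := p_wQ_26_wN_1_rb8033094a_d43_d53_d41_d34_d51_d0a_22

theorem g__wQ_26_wN_1_rb8033094a_d43_d53_d41_d34_d51_d0a_21 : GoodKC AS k_wQ_26_wN_1_rb8033094a_d43_d53_d41_d34_d51_d0a_21 := p_wQ_26_wN_1_rb8033094a_d43_d53_d41_d34_d51_d0a_21 g__wQ_26_wN_1_rb8033094a_d43_d53_d41_d34_d51_d0a_22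

theorem g__wQ_26_wN_1_rb8033094a_d43_d53_d41_d34_d51_d0a_19 : GoodKC AS k_wQ_26_wN_1_rb8033094a_d43_d53_d41_d34_d51_d0a_19 := p_wQ_26_wN_1_rb8033094a_d43_d53_d41_d34_d51_d0a_19 g__wQ_26_wN_1_rb8033094a_d43_d53_d41_d34_d51_d0a_20 g__wQ_26_wN_1_rb8033094a_d43_d53_d41_d34_d51_d0a_21

theorem g__wQ_26_wN_1_rb8033094a_d43_d53_d41_d34_d51_d0a_23 : GoodKC AS k_wQ_26_wN_1_rb8033094a_d43_d53_d41_d34_d51_d0a_23 := p_wQ_26_wN_1_rb8033094a_d43_d53_d41_d34_d51_d0a_23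

theorem g__wQ_26_wN_1_rb8033094a_d43_d53_d41_d34_d51_d0a_18 : GoodKC AS k_wQ_26_wN_1_rb8033094a_d43_d53_d41_d34_d51_d0a_18 := p_wQ_26_wN_1_rb8033094a_d43_d53_d41_d34_d51_d0a_18 g__wQ_26_wN_1_rb8033094a_d43_d53_d41_d34_d51_d0a_19 g__wQ_26_wN_1_rb8033094a_d43_d53_d41_d34_d51_d0a_23

theorem g__wQ_26_wN_1_rb8033094a_d43_d53_d41_d34_d51_d0a_24 : GoodKC AS k_wQ_26_wN_1_rb8033094a_d43_d53_d41_d34_d51_d0a_24 := p_wQ_26_wN_1_rb8033094a_d43_d53_d41_d34_d51_d0a_24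

theorem g__wQ_26_wN_1_rb8033094a_d43_d53_d41_d34_d51_d0a_17 : GoodKC AS k_wQ_26_wN_1_rb8033094a_d43_d53_d41_d34_d51_d0a_17 := p_wQ_26_wN_1_rb8033094a_d43_d53_d41_d34_d51_d0a_17 g__wQ_26_wN_1_rb8033094a_d43_d53_d41_d34_d51_d0a_18 g__wQ_26_wN_1_rb8033094a_d43_d53_d41_d34_d51_d0a_24

theorem g__wQ_26_wN_1_rb8033094a_d43_d53_d41_d34_d51_d0a_16 : GoodKC AS k_wQ_26_wN_1_rb8033094a_d43_d53_d41_d34_d51_d0a_16 := p_wQ_26_wN_1_rb8033094a_d43_d53_d41_d34_d51_d0a_16 g__wQ_26_wN_1_rb8033094a_d43_d53_d41_d34_d51_d0a_17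

theorem g__wQ_26_wN_1_rb8033094a_d43_d53_d41_d34_d51_d0a_15 : GoodKC AS k_wQ_26_wN_1_rb8033094a_d43_d53_d41_d34_d51_d0a_15 := p_wQ_26_wN_1_rb8033094a_d43_d53_d41_d34_d51_d0a_15 g__wQ_26_wN_1_rb8033094a_d43_d53_d41_d34_d51_d0a_16

theorem g__wQ_26_wN_1_rb8033094a_d43_d53_d41_d34_d51_d0a_14 : GoodKC AS k_wQ_26_wN_1_rb8033094a_d43_d53_d41_d34_d51_d0a_14 := p_wQ_26_wN_1_rb8033094a_d43_d53_d41_d34_d51_d0a_14 g__wQ_26_wN_1_rb8033094a_d43_d53_d41_d34_d51_d0a_15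

theorem g__wQ_26_wN_1_rb8033094a_d43_d53_d41_d34_d51_d0a_13 : GoodKC AS k_wQ_26_wN_1_rb8033094a_d43_d53_d41_d34_d51_d0a_13 := p_wQ_26_wN_1_rb8033094a_d43_d53_d41_d34_d51_d0a_13 g__wQ_26_wN_1_rb8033094a_d43_d53_d41_d34_d51_d0a_14

theorem g__wQ_26_wN_1_rb8033094a_d43_d53_d41_d34_d51_d0a_10 : GoodKC AS k_wQ_26_wN_1_rb8033094a_d43_d53_d41_d34_d51_d0a_10 := p_wQ_26_wN_1_rb8033094a_d43_d53_d41_d34_d51_d0a_10 g__wQ_26_wN_1_rb8033094a_d43_d53_d41_d34_d51_d0a_11 g__wQ_26_wN_1_rb8033094a_d43_d53_d41_d34_d51_d0a_13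

theorem g__wQ_26_wN_1_rb8033094a_d43_d53_d41_d34_d51_d0a_9 : GoodKC AS k_wQ_26_wN_1_rb8033094a_d43_d53_d41_d34_d51_d0a_9 := p_wQ_26_wN_1_rb8033094a_d43_d53_d41_d34_d51_d0a_9 g__wQ_26_wN_1_rb8033094a_d43_d53_d41_d34_d51_d0a_10

theorem g__wQ_26_wN_1_rb8033094a_d43_d53_d41_d34_d51_d0a_26 : GoodKC AS k_wQ_26_wN_1_rb8033094a_d43_d53_d41_d34_d51_d0a_26 := p_wQ_26_wN_1_rb8033094a_d43_d53_d41_d34_d51_d0a_26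

theorem g__wQ_26_wN_1_rb8033094a_d43_d53_d41_d34_d51_d0a_25 : GoodKC AS k_wQ_26_wN_1_rb8033094a_d43_d53_d41_d34_d51_d0a_25 := p_wQ_26_wN_1_rb8033094a_d43_d53_d41_d34_d51_d0a_25 g__wQ_26_wN_1_rb8033094a_d43_d53_d41_d34_d51_d0a_26

theorem g__wQ_26_wN_1_rb8033094a_d43_d53_d41_d34_d51_d0a_8 : GoodKC AS k_wQ_26_wN_1_rb8033094a_d43_d53_d41_d34_d51_d0a_8 := p_wQ_26_wN_1_rb8033094a_d43_d53_d41_d34_d51_d0a_8 g__wQ_26_wN_1_rb8033094a_d43_d53_d41_d34_d51_d0a_9 g__wQ_26_wN_1_rb8033094a_d43_d53_d41_d34_d51_d0a_25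

theorem g__wQ_26_wN_1_rb8033094a_d43_d53_d41_d34_d51_d0a_2 : GoodKC AS k_wQ_26_wN_1_rb8033094a_d43_d53_d41_d34_d51_d0a_2 := p_wQ_26_wN_1_rb8033094a_d43_d53_d41_d34_d51_d0a_2 g__wQ_26_wN_1_rb8033094a_d43_d53_d41_d34_d51_d0a_3 g__wQ_26_wN_1_rb8033094a_d43_d53_d41_d34_d51_d0a_6 g__wQ_26_wN_1_rb8033094a_d43_d53_d41_d34_d51_d0a_8

theorem g__wQ_26_wN_1_rb8033094a_d43_d53_d41_d34_d51_d0a_1 : GoodKC AS k_wQ_26_wN_1_rb8033094a_d43_d53_d41_d34_d51_d0a_1 := p_wQ_26_wN_1_rb8033094a_d43_d53_d41_d34_d51_d0a_1 g__wQ_26_wN_1_rb8033094a_d43_d53_d41_d34_d51_d0a_2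

theorem g__wQ_26_wN_1_rb8033094a_d43_d53_d41_d34_d51_d0a_0 : GoodKC AS k_wQ_26_wN_1_rb8033094a_d43_d53_d41_d34_d51_d0a_0 := p_wQ_26_wN_1_rb8033094a_d43_d53_d41_d34_d51_d0a_0 g__wQ_26_wN_1_rb8033094a_d43_d53_d41_d34_d51_d0a_1

theorem g_wQ_26_wN_1_rb8033094a_d43_d53_d41_d34_d51_d0av1 : GoodKC AS c_wQ_26_wN_1_rb8033094a_d43_d53_d41_d34_d51_d0av1 := p_wQ_26_wN_1_rb8033094a_d43_d53_d41_d34_d51_d0a g__wQ_26_wN_1_rb8033094a_d43_d53_d41_d34_d51_d0a_0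

theorem g_wQ_26_wN_1_rb8033094a_d43_d53_d41_d34_d51_d08v1 : GoodKC AS c_wQ_26_wN_1_rb8033094a_d43_d53_d41_d34_d51_d08v1 := p_wQ_26_wN_1_rb8033094a_d43_d53_d41_d34_d51_d08

theorem g_wQ_26_wN_1_rb8033094a_d43_d53_d41_d34_d51_d06v1 : GoodKC AS c_wQ_26_wN_1_rb8033094a_d43_d53_d41_d34_d51_d06v1 := p_wQ_26_wN_1_rb8033094a_d43_d53_d41_d34_d51_d06

theorem g__wQ_26_wN_1_rb8033094a_d43_d53_d41_d34_d51_d04_1 : GoodKC AS k_wQ_26_wN_1_rb8033094a_d43_d53_d41_d34_d51_d04_1 := p_wQ_26_wN_1_rb8033094a_d43_d53_d41_d34_d51_d04_1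

theorem g__wQ_26_wN_1_rb8033094a_d43_d53_d41_d34_d51_d04_0 : GoodKC AS k_wQ_26_wN_1_rb8033094a_d43_d53_d41_d34_d51_d04_0 := p_wQ_26_wN_1_rb8033094a_d43_d53_d41_d34_d51_d04_0 g__wQ_26_wN_1_rb8033094a_d43_d53_d41_d34_d51_d04_1

theorem g_wQ_26_wN_1_rb8033094a_d43_d53_d41_d34_d51_d04v1 : GoodKC AS c_wQ_26_wN_1_rb8033094a_d43_d53_d41_d34_d51_d04v1 := p_wQ_26_wN_1_rb8033094a_d43_d53_d41_d34_d51_d04 g__wQ_26_wN_1_rb8033094a_d43_d53_d41_d34_d51_d04_0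

theorem g_wQ_26_wN_1_rb8033094a_d43_d53_d41_d34_d51_d03v1 : GoodKC AS c_wQ_26_wN_1_rb8033094a_d43_d53_d41_d34_d51_d03v1 := p_wQ_26_wN_1_rb8033094a_d43_d53_d41_d34_d51_d03

theorem g__wQ_26_wN_1_rb8033094a_d43_d53_d41_d34v1_0 : GoodKC AS k_wQ_26_wN_1_rb8033094a_d43_d53_d41_d34v1_0 := p_wQ_26_wN_1_rb8033094a_d43_d53_d41_d34v1_0

theorem g__wQ_26_wN_1_rb8033094a_d43_d53_d41_d34v1_1 : GoodKC AS k_wQ_26_wN_1_rb8033094a_d43_d53_d41_d34v1_1 := p_wQ_26_wN_1_rb8033094a_d43_d53_d41_d34v1_1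

theorem g_wQ_26_wN_1_rb8033094a_d43_d53_d41_d34_d51_d01v1 : GoodKC AS c_wQ_26_wN_1_rb8033094a_d43_d53_d41_d34_d51_d01v1 := p_wQ_26_wN_1_rb8033094a_d43_d53_d41_d34_d51_d01

theorem g_wQ_26_wN_1_rb8033094a_d43_d53_d41_d34_d51_d00v1 : GoodKC AS c_wQ_26_wN_1_rb8033094a_d43_d53_d41_d34_d51_d00v1 := p_wQ_26_wN_1_rb8033094a_d43_d53_d41_d34_d51_d00

theorem g_wQ_26_wN_1_rb8033094a_d43_d53_d41_d34_d51_d02v1 : GoodKC AS c_wQ_26_wN_1_rb8033094a_d43_d53_d41_d34_d51_d02v1 := p_wQ_26_wN_1_rb8033094a_d43_d53_d41_d34_d51_d02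

theorem g_wQ_26_wN_1_rb8033094a_d43_d53_d41_d34_d51_d05v1 : GoodKC AS c_wQ_26_wN_1_rb8033094a_d43_d53_d41_d34_d51_d05v1 := p_wQ_26_wN_1_rb8033094a_d43_d53_d41_d34_d51_d05

theorem g_wQ_26_wN_1_rb8033094a_d43_d53_d41_d34_d51_d07v1 : GoodKC AS c_wQ_26_wN_1_rb8033094a_d43_d53_d41_d34_d51_d07v1 := p_wQ_26_wN_1_rb8033094a_d43_d53_d41_d34_d51_d07

theorem g_wQ_26_wN_1_rb8033094a_d43_d53_d41_d34_d51_d09v1 : GoodKC AS c_wQ_26_wN_1_rb8033094a_d43_d53_d41_d34_d51_d09v1 := p_wQ_26_wN_1_rb8033094a_d43_d53_d41_d34_d51_d09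

theorem g_wQ_26_wN_1_rb8033094a_d43_d53_d41_d34_d51_d0dv1 : GoodKC AS c_wQ_26_wN_1_rb8033094a_d43_d53_d41_d34_d51_d0dv1 := p_wQ_26_wN_1_rb8033094a_d43_d53_d41_d34_d51_d0d

theorem g_wQ_26_wN_1_rb8033094a_d43_d53_d41_d34_d51_d16v1 : GoodKC AS c_wQ_26_wN_1_rb8033094a_d43_d53_d41_d34_d51_d16v1 := p_wQ_26_wN_1_rb8033094a_d43_d53_d41_d34_d51_d16

theorem g_wQ_26_wN_1_rb8033094a_d43_d53_d41_d34_d51_d1av1 : GoodKC AS c_wQ_26_wN_1_rb8033094a_d43_d53_d41_d34_d51_d1av1 := p_wQ_26_wN_1_rb8033094a_d43_d53_d41_d34_d51_d1a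

theorem g_wQ_26_wN_1_rb8033094a_d43_d53_d41_d34_d51_d1bv1 : GoodKC AS c_wQ_26_wN_1_rb8033094a_d43_d53_d41_d34_d51_d1bv1 := p_wQ_26_wN_1_rb8033094a_d43_d53_d41_d34_d51_d1b

theorem g_wQ_26_wN_1_rb8033094a_d43_d53_d41_d34_d51_d1cv1 : GoodKC AS c_wQ_26_wN_1_rb8033094a_d43_d53_d41_d34_d51_d1cv1 := p_wQ_26_wN_1_rb8033094a_d43_d53_d41_d34_d51_d1c

theorem g_wQ_26_wN_1_rb8033094a_d43_d53_d41_d34x9 : GoodKC AS c_wQ_26_wN_1_rb8033094a_d43_d53_d41_d34x9 := p_wQ_26_wN_1_rb8033094a_d43_d53_d41_d34v1 g_wQ_26_wN_1_rb8033094a_d43_d53_d41_d34_d51_d19v1 g_wQ_26_wN_1_rb8033094a_d43_d53_d41_d34_d51_d18v1 g_wQ_26_wN_1_rb8033094a_d43_d53_d41_d34_d51_d17v1 g_wQ_26_wN_1_rb8033094a_d43_d53_d41_d34_d51_d15v1 g_wQ_26_wN_1_rb8033094a_d43_d53_d41_d34_d51_d14v1 g_wQ_26_wN_1_rb8033094a_d43_d53_d41_d34_d51_d13v1 g_wQ_26_wN_1_rb8033094a_d43_d53_d41_d34_d51_d12v1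 g_wQ_26_wN_1_rb8033094a_d43_d53_d41_d34_d51_d11v1 g_wQ_26_wN_1_rb8033094a_d43_d53_d41_d34_d51_d10v1 g_wQ_26_wN_1_rb8033094a_d43_d53_d41_d34_d51_d0fv1 g_wQ_26_wN_1_rb8033094a_d43_d53_d41_d34_d51_d0ev1 g_wQ_26_wN_1_rb8033094a_d43_d53_d41_d34_d51_d0cv1 g_wQ_26_wN_1_rb8033094a_d43_d53_d41_d34_d51_d0bv1 g_wQ_26_wN_1_rb8033094a_d43_d53_d41_d34_d51_d0av1 g_wQ_26_wN_1_rb8033094a_d43_d53_d41_d34_d51_d08v1 g_wQ_26_wN_1_rb8033094a_d43_d53_d41_d34_d51_d06v1 g_wQ_26_wN_1_rb8033094a_d43_d53_d41_d34_d51_d04v1 g_wQ_26_wN_1_rb8033094a_d43_d53_d41_d34_d51_d03v1 g__wQ_26_wN_1_rb8033094a_d43_d53_d41_d34v1_0 g__wQ_26_wN_1_rb8033094a_d43_d53_d41_d34v1_1 g_wQ_26_wN_1_rb8033094a_d43_d53_d41_d34_d51_d01v1 g_wQ_26_wN_1_rb8033094a_d43_d53_d41_d34_d51_d00v1 g_wQ_26_wN_1_rb8033094a_d43_d53_d41_d34_d51_d02v1 g_wQ_26_wN_1_rb8033094a_d43_d53_d41_d34_d51_d05v1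 g_wQ_26_wN_1_rb8033094a_d43_d53_d41_d34_d51_d07v1 g_wQ_26_wN_1_rb8033094a_d43_d53_d41_d34_d51_d09v1 g_wQ_26_wN_1_rb8033094a_d43_d53_d41_d34_d51_d0dv1 g_wQ_26_wN_1_rb8033094a_d43_d53_d41_d34_d51_d16v1 g_wQ_26_wN_1_rb8033094a_d43_d53_d41_d34_d51_d1av1 g_wQ_26_wN_1_rb8033094a_d43_d53_d41_d34_d51_d1bv1 g_wQ_26_wN_1_rb8033094a_d43_d53_d41_d34_d51_d1cv1

theorem g_wQ_26_wN_1_rb8033094a_d43_d53_d41_d33x9 : GoodKC AS c_wQ_26_wN_1_rb8033094a_d43_d53_d41_d33x9 := p_wQ_26_wN_1_rb8033094a_d43_d53_d41_d33x1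

theorem g__wQ_26_wN_1_rb8033094a_d43_d53_d41_d30_0 : GoodKC AS k_wQ_26_wN_1_rb8033094a_d43_d53_d41_d30_0 := p_wQ_26_wN_1_rb8033094a_d43_d53_d41_d30_0

theorem g__wQ_26_wN_1_rb8033094a_d43_d53_d41_d30_2 : GoodKC AS k_wQ_26_wN_1_rb8033094a_d43_d53_d41_d30_2 := p_wQ_26_wN_1_rb8033094a_d43_d53_d41_d30_2

theorem g__wQ_26_wN_1_rb8033094a_d43_d53_d41_d30_5 : GoodKC AS k_wQ_26_wN_1_rb8033094a_d43_d53_d41_d30_5 := p_wQ_26_wN_1_rb8033094a_d43_d53_d41_d30_5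

theorem g__wQ_26_wN_1_rb8033094a_d43_d53_d41_d30_7 : GoodKC AS k_wQ_26_wN_1_rb8033094a_d43_d53_d41_d30_7 := p_wQ_26_wN_1_rb8033094a_d43_d53_d41_d30_7

theorem g__wQ_26_wN_1_rb8033094a_d43_d53_d41_d30_6 : GoodKC AS k_wQ_26_wN_1_rb8033094a_d43_d53_d41_d30_6 := p_wQ_26_wN_1_rb8033094a_d43_d53_d41_d30_6 g__wQ_26_wN_1_rb8033094a_d43_d53_d41_d30_7

theorem g__wQ_26_wN_1_rb8033094a_d43_d53_d41_d30_4 : GoodKC AS k_wQ_26_wN_1_rb8033094a_d43_d53_d41_d30_4 := p_wQ_26_wN_1_rb8033094a_d43_d53_d41_d30_4 g__wQ_26_wN_1_rb8033094a_d43_d53_d41_d30_5 g__wQ_26_wN_1_rb8033094a_d43_d53_d41_d30_6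

theorem g__wQ_26_wN_1_rb8033094a_d43_d53_d41_d30_9 : GoodKC AS k_wQ_26_wN_1_rb8033094a_d43_d53_d41_d30_9 := p_wQ_26_wN_1_rb8033094a_d43_d53_d41_d30_9

theorem g__wQ_26_wN_1_rb8033094a_d43_d53_d41_d30_8 : GoodKC AS k_wQ_26_wN_1_rb8033094a_d43_d53_d41_d30_8 := p_wQ_26_wN_1_rb8033094a_d43_d53_d41_d30_8 g__wQ_26_wN_1_rb8033094a_d43_d53_d41_d30_9

theorem g__wQ_26_wN_1_rb8033094a_d43_d53_d41_d30_3 : GoodKC AS k_wQ_26_wN_1_rb8033094a_d43_d53_d41_d30_3 := p_wQ_26_wN_1_rb8033094a_d43_d53_d41_d30_3 g__wQ_26_wN_1_rb8033094a_d43_d53_d41_d30_4 g__wQ_26_wN_1_rb8033094a_d43_d53_d41_d30_8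

theorem g__wQ_26_wN_1_rb8033094a_d43_d53_d41_d30_1 : GoodKC AS k_wQ_26_wN_1_rb8033094a_d43_d53_d41_d30_1 := p_wQ_26_wN_1_rb8033094a_d43_d53_d41_d30_1 g__wQ_26_wN_1_rb8033094a_d43_d53_d41_d30_2 g__wQ_26_wN_1_rb8033094a_d43_d53_d41_d30_3

theorem g_wQ_26_wN_1_rb8033094a_d43_d53_d41_d30x9 : GoodKC AS c_wQ_26_wN_1_rb8033094a_d43_d53_d41_d30x9 := p_wQ_26_wN_1_rb8033094a_d43_d53_d41_d30 g__wQ_26_wN_1_rb8033094a_d43_d53_d41_d30_0 g__wQ_26_wN_1_rb8033094a_d43_d53_d41_d30_1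

theorem g_wQ_26_wN_1_rb8033094a_d43_d53_d41_d2fx9 : GoodKC AS c_wQ_26_wN_1_rb8033094a_d43_d53_d41_d2fx9 := p_wQ_26_wN_1_rb8033094a_d43_d53_d41_d2fx1

theorem g_wQ_26_wN_1_rb8033094a_d43_d53_d41_d2dx9 : GoodKC AS c_wQ_26_wN_1_rb8033094a_d43_d53_d41_d2dx9 := p_wQ_26_wN_1_rb8033094a_d43_d53_d41_d2dx1

theorem g__wQ_26_wN_1_rb8033094a_d43_d53_d41_d29_0 : GoodKC AS k_wQ_26_wN_1_rb8033094a_d43_d53_d41_d29_0 := p_wQ_26_wN_1_rb8033094a_d43_d53_d41_d29_0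

theorem g__wQ_26_wN_1_rb8033094a_d43_d53_d41_d29_3 : GoodKC AS k_wQ_26_wN_1_rb8033094a_d43_d53_d41_d29_3 := p_wQ_26_wN_1_rb8033094a_d43_d53_d41_d29_3

theorem g__wQ_26_wN_1_rb8033094a_d43_d53_d41_d29_5 : GoodKC AS k_wQ_26_wN_1_rb8033094a_d43_d53_d41_d29_5 := p_wQ_26_wN_1_rb8033094a_d43_d53_d41_d29_5

theorem g__wQ_26_wN_1_rb8033094a_d43_d53_d41_d29_7 : GoodKC AS k_wQ_26_wN_1_rb8033094a_d43_d53_d41_d29_7 := p_wQ_26_wN_1_rb8033094a_d43_d53_d41_d29_7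

theorem g__wQ_26_wN_1_rb8033094a_d43_d53_d41_d29_6 : GoodKC AS k_wQ_26_wN_1_rb8033094a_d43_d53_d41_d29_6 := p_wQ_26_wN_1_rb8033094a_d43_d53_d41_d29_6 g__wQ_26_wN_1_rb8033094a_d43_d53_d41_d29_7

theorem g__wQ_26_wN_1_rb8033094a_d43_d53_d41_d29_4 : GoodKC AS k_wQ_26_wN_1_rb8033094a_d43_d53_d41_d29_4 := p_wQ_26_wN_1_rb8033094a_d43_d53_d41_d29_4 g__wQ_26_wN_1_rb8033094a_d43_d53_d41_d29_5 g__wQ_26_wN_1_rb8033094a_d43_d53_d41_d29_6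

theorem g__wQ_26_wN_1_rb8033094a_d43_d53_d41_d29_2 : GoodKC AS k_wQ_26_wN_1_rb8033094a_d43_d53_d41_d29_2 := p_wQ_26_wN_1_rb8033094a_d43_d53_d41_d29_2 g__wQ_26_wN_1_rb8033094a_d43_d53_d41_d29_3 g__wQ_26_wN_1_rb8033094a_d43_d53_d41_d29_4

theorem g__wQ_26_wN_1_rb8033094a_d43_d53_d41_d29_9 : GoodKC AS k_wQ_26_wN_1_rb8033094a_d43_d53_d41_d29_9 := p_wQ_26_wN_1_rb8033094a_d43_d53_d41_d29_9

theorem g__wQ_26_wN_1_rb8033094a_d43_d53_d41_d29_8 : GoodKC AS k_wQ_26_wN_1_rb8033094a_d43_d53_d41_d29_8 := p_wQ_26_wN_1_rb8033094a_d43_d53_d41_d29_8 g__wQ_26_wN_1_rb8033094a_d43_d53_d41_d29_9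

theorem g__wQ_26_wN_1_rb8033094a_d43_d53_d41_d29_11 : GoodKC AS k_wQ_26_wN_1_rb8033094a_d43_d53_d41_d29_11 := p_wQ_26_wN_1_rb8033094a_d43_d53_d41_d29_11

theorem g__wQ_26_wN_1_rb8033094a_d43_d53_d41_d29_18 : GoodKC AS k_wQ_26_wN_1_rb8033094a_d43_d53_d41_d29_18 := p_wQ_26_wN_1_rb8033094a_d43_d53_d41_d29_18

theorem g__wQ_26_wN_1_rb8033094a_d43_d53_d41_d29_17 : GoodKC AS k_wQ_26_wN_1_rb8033094a_d43_d53_d41_d29_17 := p_wQ_26_wN_1_rb8033094a_d43_d53_d41_d29_17 g__wQ_26_wN_1_rb8033094a_d43_d53_d41_d29_18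

theorem g__wQ_26_wN_1_rb8033094a_d43_d53_d41_d29_16 : GoodKC AS k_wQ_26_wN_1_rb8033094a_d43_d53_d41_d29_16 := p_wQ_26_wN_1_rb8033094a_d43_d53_d41_d29_16 g__wQ_26_wN_1_rb8033094a_d43_d53_d41_d29_17

theorem g__wQ_26_wN_1_rb8033094a_d43_d53_d41_d29_15 : GoodKC AS k_wQ_26_wN_1_rb8033094a_d43_d53_d41_d29_15 := p_wQ_26_wN_1_rb8033094a_d43_d53_d41_d29_15 g__wQ_26_wN_1_rb8033094a_d43_d53_d41_d29_16

theorem g__wQ_26_wN_1_rb8033094a_d43_d53_d41_d29_14 : GoodKC AS k_wQ_26_wN_1_rb8033094a_d43_d53_d41_d29_14 := p_wQ_26_wN_1_rb8033094a_d43_d53_d41_d29_14 g__wQ_26_wN_1_rb8033094a_d43_d53_d41_d29_15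

theorem g__wQ_26_wN_1_rb8033094a_d43_d53_d41_d29_13 : GoodKC AS k_wQ_26_wN_1_rb8033094a_d43_d53_d41_d29_13 := p_wQ_26_wN_1_rb8033094a_d43_d53_d41_d29_13 g__wQ_26_wN_1_rb8033094a_d43_d53_d41_d29_14

theorem g__wQ_26_wN_1_rb8033094a_d43_d53_d41_d29_12 : GoodKC AS k_wQ_26_wN_1_rb8033094a_d43_d53_d41_d29_12 := p_wQ_26_wN_1_rb8033094a_d43_d53_d41_d29_12 g__wQ_26_wN_1_rb8033094a_d43_d53_d41_d29_13

theorem g__wQ_26_wN_1_rb8033094a_d43_d53_d41_d29_10 : GoodKC AS k_wQ_26_wN_1_rb8033094a_d43_d53_d41_d29_10 := p_wQ_26_wN_1_rb8033094a_d43_d53_d41_d29_10 g__wQ_26_wN_1_rb8033094a_d43_d53_d41_d29_11 g__wQ_26_wN_1_rb8033094a_d43_d53_d41_d29_12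

theorem g__wQ_26_wN_1_rb8033094a_d43_d53_d41_d29_1 : GoodKC AS k_wQ_26_wN_1_rb8033094a_d43_d53_d41_d29_1 := p_wQ_26_wN_1_rb8033094a_d43_d53_d41_d29_1 g__wQ_26_wN_1_rb8033094a_d43_d53_d41_d29_2 g__wQ_26_wN_1_rb8033094a_d43_d53_d41_d29_8 g__wQ_26_wN_1_rb8033094a_d43_d53_d41_d29_10

theorem g_wQ_26_wN_1_rb8033094a_d43_d53_d41_d29x9 : GoodKC AS c_wQ_26_wN_1_rb8033094a_d43_d53_d41_d29x9 := p_wQ_26_wN_1_rb8033094a_d43_d53_d41_d29 g__wQ_26_wN_1_rb8033094a_d43_d53_d41_d29_0 g__wQ_26_wN_1_rb8033094a_d43_d53_d41_d29_1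

theorem g__wQ_26_wN_1_rb8033094a_d43_d53_d41_d27_2 : GoodKC AS k_wQ_26_wN_1_rb8033094a_d43_d53_d41_d27_2 := p_wQ_26_wN_1_rb8033094a_d43_d53_d41_d27_2

theorem g__wQ_26_wN_1_rb8033094a_d43_d53_d41_d27_5 : GoodKC AS k_wQ_26_wN_1_rb8033094a_d43_d53_d41_d27_5 := p_wQ_26_wN_1_rb8033094a_d43_d53_d41_d27_5

theorem g__wQ_26_wN_1_rb8033094a_d43_d53_d41_d27_8 : GoodKC AS k_wQ_26_wN_1_rb8033094a_d43_d53_d41_d27_8 := p_wQ_26_wN_1_rb8033094a_d43_d53_d41_d27_8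

theorem g__wQ_26_wN_1_rb8033094a_d43_d53_d41_d27_9 : GoodKC AS k_wQ_26_wN_1_rb8033094a_d43_d53_d41_d27_9 := p_wQ_26_wN_1_rb8033094a_d43_d53_d41_d27_9

theorem g__wQ_26_wN_1_rb8033094a_d43_d53_d41_d27_10 : GoodKC AS k_wQ_26_wN_1_rb8033094a_d43_d53_d41_d27_10 := p_wQ_26_wN_1_rb8033094a_d43_d53_d41_d27_10

theorem g__wQ_26_wN_1_rb8033094a_d43_d53_d41_d27_7 : GoodKC AS k_wQ_26_wN_1_rb8033094a_d43_d53_d41_d27_7 := p_wQ_26_wN_1_rb8033094a_d43_d53_d41_d27_7 g__wQ_26_wN_1_rb8033094a_d43_d53_d41_d27_8 g__wQ_26_wN_1_rb8033094a_d43_d53_d41_d27_9 g__wQ_26_wN_1_rb8033094a_d43_d53_d41_d27_10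

theorem g__wQ_26_wN_1_rb8033094a_d43_d53_d41_d27_6 : GoodKC AS k_wQ_26_wN_1_rb8033094a_d43_d53_d41_d27_6 := p_wQ_26_wN_1_rb8033094a_d43_d53_d41_d27_6 g__wQ_26_wN_1_rb8033094a_d43_d53_d41_d27_7

theorem g__wQ_26_wN_1_rb8033094a_d43_d53_d41_d27_4 : GoodKC AS k_wQ_26_wN_1_rb8033094a_d43_d53_d41_d27_4 := p_wQ_26_wN_1_rb8033094a_d43_d53_d41_d27_4 g__wQ_26_wN_1_rb8033094a_d43_d53_d41_d27_5 g__wQ_26_wN_1_rb8033094a_d43_d53_d41_d27_6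

theorem g__wQ_26_wN_1_rb8033094a_d43_d53_d41_d27_3 : GoodKC AS k_wQ_26_wN_1_rb8033094a_d43_d53_d41_d27_3 := p_wQ_26_wN_1_rb8033094a_d43_d53_d41_d27_3 g__wQ_26_wN_1_rb8033094a_d43_d53_d41_d27_4

theorem g__wQ_26_wN_1_rb8033094a_d43_d53_d41_d27_1 : GoodKC AS k_wQ_26_wN_1_rb8033094a_d43_d53_d41_d27_1 := p_wQ_26_wN_1_rb8033094a_d43_d53_d41_d27_1 g__wQ_26_wN_1_rb8033094a_d43_d53_d41_d27_2 g__wQ_26_wN_1_rb8033094a_d43_d53_d41_d27_3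

theorem g__wQ_26_wN_1_rb8033094a_d43_d53_d41_d27_0 : GoodKC AS k_wQ_26_wN_1_rb8033094a_d43_d53_d41_d27_0 := p_wQ_26_wN_1_rb8033094a_d43_d53_d41_d27_0 g__wQ_26_wN_1_rb8033094a_d43_d53_d41_d27_1

theorem g__wQ_26_wN_1_rb8033094a_d43_d53_d41_d27_14 : GoodKC AS k_wQ_26_wN_1_rb8033094a_d43_d53_d41_d27_14 := p_wQ_26_wN_1_rb8033094a_d43_d53_d41_d27_14

theorem g__wQ_26_wN_1_rb8033094a_d43_d53_d41_d27_13 : GoodKC AS k_wQ_26_wN_1_rb8033094a_d43_d53_d41_d27_13 := p_wQ_26_wN_1_rb8033094a_d43_d53_d41_d27_13 g__wQ_26_wN_1_rb8033094a_d43_d53_d41_d27_14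

theorem g__wQ_26_wN_1_rb8033094a_d43_d53_d41_d27_15 : GoodKC AS k_wQ_26_wN_1_rb8033094a_d43_d53_d41_d27_15 := p_wQ_26_wN_1_rb8033094a_d43_d53_d41_d27_15

theorem g__wQ_26_wN_1_rb8033094a_d43_d53_d41_d27_12 : GoodKC AS k_wQ_26_wN_1_rb8033094a_d43_d53_d41_d27_12 := p_wQ_26_wN_1_rb8033094a_d43_d53_d41_d27_12 g__wQ_26_wN_1_rb8033094a_d43_d53_d41_d27_13 g__wQ_26_wN_1_rb8033094a_d43_d53_d41_d27_15

theorem g__wQ_26_wN_1_rb8033094a_d43_d53_d41_d27_16 : GoodKC AS k_wQ_26_wN_1_rb8033094a_d43_d53_d41_d27_16 := p_wQ_26_wN_1_rb8033094a_d43_d53_d41_d27_16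

theorem g__wQ_26_wN_1_rb8033094a_d43_d53_d41_d27_11 : GoodKC AS k_wQ_26_wN_1_rb8033094a_d43_d53_d41_d27_11 := p_wQ_26_wN_1_rb8033094a_d43_d53_d41_d27_11 g__wQ_26_wN_1_rb8033094a_d43_d53_d41_d27_12 g__wQ_26_wN_1_rb8033094a_d43_d53_d41_d27_16

theorem g_wQ_26_wN_1_rb8033094a_d43_d53_d41_d27x9 : GoodKC AS c_wQ_26_wN_1_rb8033094a_d43_d53_d41_d27x9 := p_wQ_26_wN_1_rb8033094a_d43_d53_d41_d27 g__wQ_26_wN_1_rb8033094a_d43_d53_d41_d27_0 g__wQ_26_wN_1_rb8033094a_d43_d53_d41_d27_11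

theorem g_wQ_26_wN_1_rb8033094a_d43_d53_d41_d26x9 : GoodKC AS c_wQ_26_wN_1_rb8033094a_d43_d53_d41_d26x9 := p_wQ_26_wN_1_rb8033094a_d43_d53_d41_d26x1

theorem g_wQ_26_wN_1_rb8033094a_d43_d53_d41_d22x9 : GoodKC AS c_wQ_26_wN_1_rb8033094a_d43_d53_d41_d22x9 := p_wQ_26_wN_1_rb8033094a_d43_d53_d41_d22

theorem g_wQ_26_wN_1_rb8033094a_d43_d53_d41_d20x9 : GoodKC AS c_wQ_26_wN_1_rb8033094a_d43_d53_d41_d20x9 := p_wQ_26_wN_1_rb8033094a_d43_d53_d41_d20x1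

theorem g_wQ_26_wN_1_rb8033094a_d43_d53_d41_d1ex9 : GoodKC AS c_wQ_26_wN_1_rb8033094a_d43_d53_d41_d1ex9 := p_wQ_26_wN_1_rb8033094a_d43_d53_d41_d1ex1

theorem g_wQ_26_wN_1_rb8033094a_d43_d53_d41_d1cx9 : GoodKC AS c_wQ_26_wN_1_rb8033094a_d43_d53_d41_d1cx9 := p_wQ_26_wN_1_rb8033094a_d43_d53_d41_d1cx1

theorem g__wQ_26_wN_1_rb8033094a_d43_d53_d41_d1b_6 : GoodKC AS k_wQ_26_wN_1_rb8033094a_d43_d53_d41_d1b_6 := p_wQ_26_wN_1_rb8033094a_d43_d53_d41_d1b_6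

theorem g__wQ_26_wN_1_rb8033094a_d43_d53_d41_d1b_8 : GoodKC AS k_wQ_26_wN_1_rb8033094a_d43_d53_d41_d1b_8 := p_wQ_26_wN_1_rb8033094a_d43_d53_d41_d1b_8

theorem g__wQ_26_wN_1_rb8033094a_d43_d53_d41_d1b_7 : GoodKC AS k_wQ_26_wN_1_rb8033094a_d43_d53_d41_d1b_7 := p_wQ_26_wN_1_rb8033094a_d43_d53_d41_d1b_7 g__wQ_26_wN_1_rb8033094a_d43_d53_d41_d1b_8

theorem g__wQ_26_wN_1_rb8033094a_d43_d53_d41_d1b_5 : GoodKC AS k_wQ_26_wN_1_rb8033094a_d43_d53_d41_d1b_5 := p_wQ_26_wN_1_rb8033094a_d43_d53_d41_d1b_5 g__wQ_26_wN_1_rb8033094a_d43_d53_d41_d1b_6 g__wQ_26_wN_1_rb8033094a_d43_d53_d41_d1b_7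

theorem g__wQ_26_wN_1_rb8033094a_d43_d53_d41_d1b_4 : GoodKC AS k_wQ_26_wN_1_rb8033094a_d43_d53_d41_d1b_4 := p_wQ_26_wN_1_rb8033094a_d43_d53_d41_d1b_4 g__wQ_26_wN_1_rb8033094a_d43_d53_d41_d1b_5

theorem g__wQ_26_wN_1_rb8033094a_d43_d53_d41_d1b_3 : GoodKC AS k_wQ_26_wN_1_rb8033094a_d43_d53_d41_d1b_3 := p_wQ_26_wN_1_rb8033094a_d43_d53_d41_d1b_3 g__wQ_26_wN_1_rb8033094a_d43_d53_d41_d1b_4

theorem g__wQ_26_wN_1_rb8033094a_d43_d53_d41_d1b_2 : GoodKC AS k_wQ_26_wN_1_rb8033094a_d43_d53_d41_d1b_2 := p_wQ_26_wN_1_rb8033094a_d43_d53_d41_d1b_2 g__wQ_26_wN_1_rb8033094a_d43_d53_d41_d1b_3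

theorem g__wQ_26_wN_1_rb8033094a_d43_d53_d41_d1b_9 : GoodKC AS k_wQ_26_wN_1_rb8033094a_d43_d53_d41_d1b_9 := p_wQ_26_wN_1_rb8033094a_d43_d53_d41_d1b_9

theorem g__wQ_26_wN_1_rb8033094a_d43_d53_d41_d1b_13 : GoodKC AS k_wQ_26_wN_1_rb8033094a_d43_d53_d41_d1b_13 := p_wQ_26_wN_1_rb8033094a_d43_d53_d41_d1b_13

theorem g__wQ_26_wN_1_rb8033094a_d43_d53_d41_d1b_12 : GoodKC AS k_wQ_26_wN_1_rb8033094a_d43_d53_d41_d1b_12 := p_wQ_26_wN_1_rb8033094a_d43_d53_d41_d1b_12 g__wQ_26_wN_1_rb8033094a_d43_d53_d41_d1b_13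

theorem g__wQ_26_wN_1_rb8033094a_d43_d53_d41_d1b_11 : GoodKC AS k_wQ_26_wN_1_rb8033094a_d43_d53_d41_d1b_11 := p_wQ_26_wN_1_rb8033094a_d43_d53_d41_d1b_11 g__wQ_26_wN_1_rb8033094a_d43_d53_d41_d1b_12

theorem g__wQ_26_wN_1_rb8033094a_d43_d53_d41_d1b_10 : GoodKC AS k_wQ_26_wN_1_rb8033094a_d43_d53_d41_d1b_10 := p_wQ_26_wN_1_rb8033094a_d43_d53_d41_d1b_10 g__wQ_26_wN_1_rb8033094a_d43_d53_d41_d1b_11

theorem g__wQ_26_wN_1_rb8033094a_d43_d53_d41_d1b_14 : GoodKC AS k_wQ_26_wN_1_rb8033094a_d43_d53_d41_d1b_14 := p_wQ_26_wN_1_rb8033094a_d43_d53_d41_d1b_14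

theorem g__wQ_26_wN_1_rb8033094a_d43_d53_d41_d1b_1 : GoodKC AS k_wQ_26_wN_1_rb8033094a_d43_d53_d41_d1b_1 := p_wQ_26_wN_1_rb8033094a_d43_d53_d41_d1b_1 g__wQ_26_wN_1_rb8033094a_d43_d53_d41_d1b_2 g__wQ_26_wN_1_rb8033094a_d43_d53_d41_d1b_9 g__wQ_26_wN_1_rb8033094a_d43_d53_d41_d1b_10 g__wQ_26_wN_1_rb8033094a_d43_d53_d41_d1b_14

theorem g__wQ_26_wN_1_rb8033094a_d43_d53_d41_d1b_0 : GoodKC AS k_wQ_26_wN_1_rb8033094a_d43_d53_d41_d1b_0 := p_wQ_26_wN_1_rb8033094a_d43_d53_d41_d1b_0 g__wQ_26_wN_1_rb8033094a_d43_d53_d41_d1b_1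

theorem g__wQ_26_wN_1_rb8033094a_d43_d53_d41_d1b_19 : GoodKC AS k_wQ_26_wN_1_rb8033094a_d43_d53_d41_d1b_19 := p_wQ_26_wN_1_rb8033094a_d43_d53_d41_d1b_19

theorem g__wQ_26_wN_1_rb8033094a_d43_d53_d41_d1b_25 : GoodKC AS k_wQ_26_wN_1_rb8033094a_d43_d53_d41_d1b_25 := p_wQ_26_wN_1_rb8033094a_d43_d53_d41_d1b_25

theorem g__wQ_26_wN_1_rb8033094a_d43_d53_d41_d1b_27 : GoodKC AS k_wQ_26_wN_1_rb8033094a_d43_d53_d41_d1b_27 := p_wQ_26_wN_1_rb8033094a_d43_d53_d41_d1b_27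

theorem g__wQ_26_wN_1_rb8033094a_d43_d53_d41_d1b_29 : GoodKC AS k_wQ_26_wN_1_rb8033094a_d43_d53_d41_d1b_29 := p_wQ_26_wN_1_rb8033094a_d43_d53_d41_d1b_29

theorem g__wQ_26_wN_1_rb8033094a_d43_d53_d41_d1b_31 : GoodKC AS k_wQ_26_wN_1_rb8033094a_d43_d53_d41_d1b_31 := p_wQ_26_wN_1_rb8033094a_d43_d53_d41_d1b_31

theorem g__wQ_26_wN_1_rb8033094a_d43_d53_d41_d1b_30 : GoodKC AS k_wQ_26_wN_1_rb8033094a_d43_d53_d41_d1b_30 := p_wQ_26_wN_1_rb8033094a_d43_d53_d41_d1b_30 g__wQ_26_wN_1_rb8033094a_d43_d53_d41_d1b_31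

theorem g__wQ_26_wN_1_rb8033094a_d43_d53_d41_d1b_28 : GoodKC AS k_wQ_26_wN_1_rb8033094a_d43_d53_d41_d1b_28 := p_wQ_26_wN_1_rb8033094a_d43_d53_d41_d1b_28 g__wQ_26_wN_1_rb8033094a_d43_d53_d41_d1b_29 g__wQ_26_wN_1_rb8033094a_d43_d53_d41_d1b_30

theorem g__wQ_26_wN_1_rb8033094a_d43_d53_d41_d1b_26 : GoodKC AS k_wQ_26_wN_1_rb8033094a_d43_d53_d41_d1b_26 := p_wQ_26_wN_1_rb8033094a_d43_d53_d41_d1b_26 g__wQ_26_wN_1_rb8033094a_d43_d53_d41_d1b_27 g__wQ_26_wN_1_rb8033094a_d43_d53_d41_d1b_28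

theorem g__wQ_26_wN_1_rb8033094a_d43_d53_d41_d1b_24 : GoodKC AS k_wQ_26_wN_1_rb8033094a_d43_d53_d41_d1b_24 := p_wQ_26_wN_1_rb8033094a_d43_d53_d41_d1b_24 g__wQ_26_wN_1_rb8033094a_d43_d53_d41_d1b_25 g__wQ_26_wN_1_rb8033094a_d43_d53_d41_d1b_26

theorem g__wQ_26_wN_1_rb8033094a_d43_d53_d41_d1b_23 : GoodKC AS k_wQ_26_wN_1_rb8033094a_d43_d53_d41_d1b_23 := p_wQ_26_wN_1_rb8033094a_d43_d53_d41_d1b_23 g__wQ_26_wN_1_rb8033094a_d43_d53_d41_d1b_24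

theorem g__wQ_26_wN_1_rb8033094a_d43_d53_d41_d1b_22 : GoodKC AS k_wQ_26_wN_1_rb8033094a_d43_d53_d41_d1b_22 := p_wQ_26_wN_1_rb8033094a_d43_d53_d41_d1b_22 g__wQ_26_wN_1_rb8033094a_d43_d53_d41_d1b_23

theorem g__wQ_26_wN_1_rb8033094a_d43_d53_d41_d1b_32 : GoodKC AS k_wQ_26_wN_1_rb8033094a_d43_d53_d41_d1b_32 := p_wQ_26_wN_1_rb8033094a_d43_d53_d41_d1b_32

theorem g__wQ_26_wN_1_rb8033094a_d43_d53_d41_d1b_21 : GoodKC AS k_wQ_26_wN_1_rb8033094a_d43_d53_d41_d1b_21 := p_wQ_26_wN_1_rb8033094a_d43_d53_d41_d1b_21 g__wQ_26_wN_1_rb8033094a_d43_d53_d41_d1b_22 g__wQ_26_wN_1_rb8033094a_d43_d53_d41_d1b_32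

theorem g__wQ_26_wN_1_rb8033094a_d43_d53_d41_d1b_20 : GoodKC AS k_wQ_26_wN_1_rb8033094a_d43_d53_d41_d1b_20 := p_wQ_26_wN_1_rb8033094a_d43_d53_d41_d1b_20 g__wQ_26_wN_1_rb8033094a_d43_d53_d41_d1b_21

theorem g__wQ_26_wN_1_rb8033094a_d43_d53_d41_d1b_18 : GoodKC AS k_wQ_26_wN_1_rb8033094a_d43_d53_d41_d1b_18 := p_wQ_26_wN_1_rb8033094a_d43_d53_d41_d1b_18 g__wQ_26_wN_1_rb8033094a_d43_d53_d41_d1b_19 g__wQ_26_wN_1_rb8033094a_d43_d53_d41_d1b_20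

theorem g__wQ_26_wN_1_rb8033094a_d43_d53_d41_d1b_17 : GoodKC AS k_wQ_26_wN_1_rb8033094a_d43_d53_d41_d1b_17 := p_wQ_26_wN_1_rb8033094a_d43_d53_d41_d1b_17 g__wQ_26_wN_1_rb8033094a_d43_d53_d41_d1b_18

theorem g__wQ_26_wN_1_rb8033094a_d43_d53_d41_d1b_16 : GoodKC AS k_wQ_26_wN_1_rb8033094a_d43_d53_d41_d1b_16 := p_wQ_26_wN_1_rb8033094a_d43_d53_d41_d1b_16 g__wQ_26_wN_1_rb8033094a_d43_d53_d41_d1b_17

theorem g__wQ_26_wN_1_rb8033094a_d43_d53_d41_d1b_34 : GoodKC AS k_wQ_26_wN_1_rb8033094a_d43_d53_d41_d1b_34 := p_wQ_26_wN_1_rb8033094a_d43_d53_d41_d1b_34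

theorem g__wQ_26_wN_1_rb8033094a_d43_d53_d41_d1b_35 : GoodKC AS k_wQ_26_wN_1_rb8033094a_d43_d53_d41_d1b_35 := p_wQ_26_wN_1_rb8033094a_d43_d53_d41_d1b_35

theorem g__wQ_26_wN_1_rb8033094a_d43_d53_d41_d1b_33 : GoodKC AS k_wQ_26_wN_1_rb8033094a_d43_d53_d41_d1b_33 := p_wQ_26_wN_1_rb8033094a_d43_d53_d41_d1b_33 g__wQ_26_wN_1_rb8033094a_d43_d53_d41_d1b_34 g__wQ_26_wN_1_rb8033094a_d43_d53_d41_d1b_35

theorem g__wQ_26_wN_1_rb8033094a_d43_d53_d41_d1b_15 : GoodKC AS k_wQ_26_wN_1_rb8033094a_d43_d53_d41_d1b_15 := p_wQ_26_wN_1_rb8033094a_d43_d53_d41_d1b_15 g__wQ_26_wN_1_rb8033094a_d43_d53_d41_d1b_16 g__wQ_26_wN_1_rb8033094a_d43_d53_d41_d1b_33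

theorem g_wQ_26_wN_1_rb8033094a_d43_d53_d41_d1bx9 : GoodKC AS c_wQ_26_wN_1_rb8033094a_d43_d53_d41_d1bx9 := p_wQ_26_wN_1_rb8033094a_d43_d53_d41_d1b g__wQ_26_wN_1_rb8033094a_d43_d53_d41_d1b_0 g__wQ_26_wN_1_rb8033094a_d43_d53_d41_d1b_15

theorem g__wQ_26_wN_1_rb8033094a_d43_d53x9_3 : GoodKC AS k_wQ_26_wN_1_rb8033094a_d43_d53x9_3 := p_wQ_26_wN_1_rb8033094a_d43_d53x9_3

theorem g__wQ_26_wN_1_rb8033094a_d43_d53x9_2 : GoodKC AS k_wQ_26_wN_1_rb8033094a_d43_d53x9_2 := p_wQ_26_wN_1_rb8033094a_d43_d53x9_2 g__wQ_26_wN_1_rb8033094a_d43_d53x9_3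

theorem g__wQ_26_wN_1_rb8033094a_d43_d53x9_1 : GoodKC AS k_wQ_26_wN_1_rb8033094a_d43_d53x9_1 := p_wQ_26_wN_1_rb8033094a_d43_d53x9_1 g__wQ_26_wN_1_rb8033094a_d43_d53x9_2

theorem g__wQ_26_wN_1_rb8033094a_d43_d53x9_0 : GoodKC AS k_wQ_26_wN_1_rb8033094a_d43_d53x9_0 := p_wQ_26_wN_1_rb8033094a_d43_d53x9_0 g__wQ_26_wN_1_rb8033094a_d43_d53x9_1

theorem g__wQ_26_wN_1_rb8033094a_d43_d53x9_4 : GoodKC AS k_wQ_26_wN_1_rb8033094a_d43_d53x9_4 := p_wQ_26_wN_1_rb8033094a_d43_d53x9_4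

theorem g_wQ_26_wN_1_rb8033094a_d43_d53_d41_d18x9 : GoodKC AS c_wQ_26_wN_1_rb8033094a_d43_d53_d41_d18x9 := p_wQ_26_wN_1_rb8033094a_d43_d53_d41_d18x1

theorem g_wQ_26_wN_1_rb8033094a_d43_d53_d41_d17x9 : GoodKC AS c_wQ_26_wN_1_rb8033094a_d43_d53_d41_d17x9 := p_wQ_26_wN_1_rb8033094a_d43_d53_d41_d17x1

theorem g__wQ_26_wN_1_rb8033094a_d43_d53_d41_d14x1_1 : GoodKC AS k_wQ_26_wN_1_rb8033094a_d43_d53_d41_d14x1_1 := p_wQ_26_wN_1_rb8033094a_d43_d53_d41_d14x1_1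

theorem g__wQ_26_wN_1_rb8033094a_d43_d53_d41_d14x1_0 : GoodKC AS k_wQ_26_wN_1_rb8033094a_d43_d53_d41_d14x1_0 := p_wQ_26_wN_1_rb8033094a_d43_d53_d41_d14x1_0 g__wQ_26_wN_1_rb8033094a_d43_d53_d41_d14x1_1

theorem g_wQ_26_wN_1_rb8033094a_d43_d53_d41_d14x9 : GoodKC AS c_wQ_26_wN_1_rb8033094a_d43_d53_d41_d14x9 := p_wQ_26_wN_1_rb8033094a_d43_d53_d41_d14x1 g__wQ_26_wN_1_rb8033094a_d43_d53_d41_d14x1_0

theorem g_wQ_26_wN_1_rb8033094a_d43_d53_d41_d13x9 : GoodKC AS c_wQ_26_wN_1_rb8033094a_d43_d53_d41_d13x9 := p_wQ_26_wN_1_rb8033094a_d43_d53_d41_d13x1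

theorem g_wQ_26_wN_1_rb8033094a_d43_d53_d41_d11x9 : GoodKC AS c_wQ_26_wN_1_rb8033094a_d43_d53_d41_d11x9 := p_wQ_26_wN_1_rb8033094a_d43_d53_d41_d11x1

theorem g_wQ_26_wN_1_rb8033094a_d43_d53_d41_d10x9 : GoodKC AS c_wQ_26_wN_1_rb8033094a_d43_d53_d41_d10x9 := p_wQ_26_wN_1_rb8033094a_d43_d53_d41_d10x1

theorem g_wQ_26_wN_1_rb8033094a_d43_d53_d41_d0ex9 : GoodKC AS c_wQ_26_wN_1_rb8033094a_d43_d53_d41_d0ex9 := p_wQ_26_wN_1_rb8033094a_d43_d53_d41_d0ex1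

theorem g_wQ_26_wN_1_rb8033094a_d43_d53_d41_d0dx9 : GoodKC AS c_wQ_26_wN_1_rb8033094a_d43_d53_d41_d0dx9 := p_wQ_26_wN_1_rb8033094a_d43_d53_d41_d0dx1

theorem g_wQ_26_wN_1_rb8033094a_d43_d53_d41_d0cx9 : GoodKC AS c_wQ_26_wN_1_rb8033094a_d43_d53_d41_d0cx9 := p_wQ_26_wN_1_rb8033094a_d43_d53_d41_d0cx1

theorem g_wQ_26_wN_1_rb8033094a_d43_d53_d41_d0bx9 : GoodKC AS c_wQ_26_wN_1_rb8033094a_d43_d53_d41_d0bx9 := p_wQ_26_wN_1_rb8033094a_d43_d53_d41_d0bx1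

theorem g_wQ_26_wN_1_rb8033094a_d43_d53_d41_d0ax9 : GoodKC AS c_wQ_26_wN_1_rb8033094a_d43_d53_d41_d0ax9 := p_wQ_26_wN_1_rb8033094a_d43_d53_d41_d0ax1

theorem g_wQ_26_wN_1_rb8033094a_d43_d53_d41_d09x9 : GoodKC AS c_wQ_26_wN_1_rb8033094a_d43_d53_d41_d09x9 := p_wQ_26_wN_1_rb8033094a_d43_d53_d41_d09x1

theorem g_wQ_26_wN_1_rb8033094a_d43_d53_d41_d08x9 : GoodKC AS c_wQ_26_wN_1_rb8033094a_d43_d53_d41_d08x9 := p_wQ_26_wN_1_rb8033094a_d43_d53_d41_d08x1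

theorem g__wQ_26_wN_1_rb8033094a_d43_d53_d41_d02x1_2 : GoodKC AS k_wQ_26_wN_1_rb8033094a_d43_d53_d41_d02x1_2 := p_wQ_26_wN_1_rb8033094a_d43_d53_d41_d02x1_2

theorem g__wQ_26_wN_1_rb8033094a_d43_d53_d41_d02x1_3 : GoodKC AS k_wQ_26_wN_1_rb8033094a_d43_d53_d41_d02x1_3 := p_wQ_26_wN_1_rb8033094a_d43_d53_d41_d02x1_3

theorem g__wQ_26_wN_1_rb8033094a_d43_d53_d41_d02x1_1 : GoodKC AS k_wQ_26_wN_1_rb8033094a_d43_d53_d41_d02x1_1 := p_wQ_26_wN_1_rb8033094a_d43_d53_d41_d02x1_1 g__wQ_26_wN_1_rb8033094a_d43_d53_d41_d02x1_2 g__wQ_26_wN_1_rb8033094a_d43_d53_d41_d02x1_3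

theorem g__wQ_26_wN_1_rb8033094a_d43_d53_d41_d02x1_0 : GoodKC AS k_wQ_26_wN_1_rb8033094a_d43_d53_d41_d02x1_0 := p_wQ_26_wN_1_rb8033094a_d43_d53_d41_d02x1_0 g__wQ_26_wN_1_rb8033094a_d43_d53_d41_d02x1_1

theorem g_wQ_26_wN_1_rb8033094a_d43_d53_d41_d02x9 : GoodKC AS c_wQ_26_wN_1_rb8033094a_d43_d53_d41_d02x9 := p_wQ_26_wN_1_rb8033094a_d43_d53_d41_d02x1 g__wQ_26_wN_1_rb8033094a_d43_d53_d41_d02x1_0

theorem g__wQ_26_wN_1_rb8033094a_d43_d53_d41_d00_1 : GoodKC AS k_wQ_26_wN_1_rb8033094a_d43_d53_d41_d00_1 := p_wQ_26_wN_1_rb8033094a_d43_d53_d41_d00_1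

theorem g__wQ_26_wN_1_rb8033094a_d43_d53_d41_d00_0 : GoodKC AS k_wQ_26_wN_1_rb8033094a_d43_d53_d41_d00_0 := p_wQ_26_wN_1_rb8033094a_d43_d53_d41_d00_0 g__wQ_26_wN_1_rb8033094a_d43_d53_d41_d00_1

theorem g_wQ_26_wN_1_rb8033094a_d43_d53_d41_d00x9 : GoodKC AS c_wQ_26_wN_1_rb8033094a_d43_d53_d41_d00x9 := p_wQ_26_wN_1_rb8033094a_d43_d53_d41_d00 g__wQ_26_wN_1_rb8033094a_d43_d53_d41_d00_0

theorem g_wQ_26_wN_1_rb8033094a_d43_d53_d41_d01x9 : GoodKC AS c_wQ_26_wN_1_rb8033094a_d43_d53_d41_d01x9 := p_wQ_26_wN_1_rb8033094a_d43_d53_d41_d01x1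

theorem g_wQ_26_wN_1_rb8033094a_d43_d53_d41_d03x9 : GoodKC AS c_wQ_26_wN_1_rb8033094a_d43_d53_d41_d03x9 := p_wQ_26_wN_1_rb8033094a_d43_d53_d41_d03x1

theorem g_wQ_26_wN_1_rb8033094a_d43_d53_d41_d04x9 : GoodKC AS c_wQ_26_wN_1_rb8033094a_d43_d53_d41_d04x9 := p_wQ_26_wN_1_rb8033094a_d43_d53_d41_d04x1

theorem g_wQ_26_wN_1_rb8033094a_d43_d53_d41_d05x9 : GoodKC AS c_wQ_26_wN_1_rb8033094a_d43_d53_d41_d05x9 := p_wQ_26_wN_1_rb8033094a_d43_d53_d41_d05x1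

theorem g_wQ_26_wN_1_rb8033094a_d43_d53_d41_d06x9 : GoodKC AS c_wQ_26_wN_1_rb8033094a_d43_d53_d41_d06x9 := p_wQ_26_wN_1_rb8033094a_d43_d53_d41_d06x1

theorem g_wQ_26_wN_1_rb8033094a_d43_d53_d41_d07x9 : GoodKC AS c_wQ_26_wN_1_rb8033094a_d43_d53_d41_d07x9 := p_wQ_26_wN_1_rb8033094a_d43_d53_d41_d07x1

theorem g_wQ_26_wN_1_rb8033094a_d43_d53_d41_d0fx9 : GoodKC AS c_wQ_26_wN_1_rb8033094a_d43_d53_d41_d0fx9 := p_wQ_26_wN_1_rb8033094a_d43_d53_d41_d0fx1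

theorem g_wQ_26_wN_1_rb8033094a_d43_d53_d41_d12x9 : GoodKC AS c_wQ_26_wN_1_rb8033094a_d43_d53_d41_d12x9 := p_wQ_26_wN_1_rb8033094a_d43_d53_d41_d12x1

theorem g_wQ_26_wN_1_rb8033094a_d43_d53_d41_d15x9 : GoodKC AS c_wQ_26_wN_1_rb8033094a_d43_d53_d41_d15x9 := p_wQ_26_wN_1_rb8033094a_d43_d53_d41_d15x1

theorem g_wQ_26_wN_1_rb8033094a_d43_d53_d41_d16x9 : GoodKC AS c_wQ_26_wN_1_rb8033094a_d43_d53_d41_d16x9 := p_wQ_26_wN_1_rb8033094a_d43_d53_d41_d16x1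

theorem g_wQ_26_wN_1_rb8033094a_d43_d53_d41_d19x9 : GoodKC AS c_wQ_26_wN_1_rb8033094a_d43_d53_d41_d19x9 := p_wQ_26_wN_1_rb8033094a_d43_d53_d41_d19x1

theorem g__wQ_26_wN_1_rb8033094a_d43_d53_d41_d1a_3 : GoodKC AS k_wQ_26_wN_1_rb8033094a_d43_d53_d41_d1a_3 := p_wQ_26_wN_1_rb8033094a_d43_d53_d41_d1a_3

theorem g__wQ_26_wN_1_rb8033094a_d43_d53_d41_d1a_2 : GoodKC AS k_wQ_26_wN_1_rb8033094a_d43_d53_d41_d1a_2 := p_wQ_26_wN_1_rb8033094a_d43_d53_d41_d1a_2 g__wQ_26_wN_1_rb8033094a_d43_d53_d41_d1a_3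

theorem g__wQ_26_wN_1_rb8033094a_d43_d53_d41_d1a_6 : GoodKC AS k_wQ_26_wN_1_rb8033094a_d43_d53_d41_d1a_6 := p_wQ_26_wN_1_rb8033094a_d43_d53_d41_d1a_6

theorem g__wQ_26_wN_1_rb8033094a_d43_d53_d41_d1a_14 : GoodKC AS k_wQ_26_wN_1_rb8033094a_d43_d53_d41_d1a_14 := p_wQ_26_wN_1_rb8033094a_d43_d53_d41_d1a_14

theorem g__wQ_26_wN_1_rb8033094a_d43_d53_d41_d1a_13 : GoodKC AS k_wQ_26_wN_1_rb8033094a_d43_d53_d41_d1a_13 := p_wQ_26_wN_1_rb8033094a_d43_d53_d41_d1a_13 g__wQ_26_wN_1_rb8033094a_d43_d53_d41_d1a_14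

theorem g__wQ_26_wN_1_rb8033094a_d43_d53_d41_d1a_12 : GoodKC AS k_wQ_26_wN_1_rb8033094a_d43_d53_d41_d1a_12 := p_wQ_26_wN_1_rb8033094a_d43_d53_d41_d1a_12 g__wQ_26_wN_1_rb8033094a_d43_d53_d41_d1a_13

theorem g__wQ_26_wN_1_rb8033094a_d43_d53_d41_d1a_11 : GoodKC AS k_wQ_26_wN_1_rb8033094a_d43_d53_d41_d1a_11 := p_wQ_26_wN_1_rb8033094a_d43_d53_d41_d1a_11 g__wQ_26_wN_1_rb8033094a_d43_d53_d41_d1a_12

theorem g__wQ_26_wN_1_rb8033094a_d43_d53_d41_d1a_10 : GoodKC AS k_wQ_26_wN_1_rb8033094a_d43_d53_d41_d1a_10 := p_wQ_26_wN_1_rb8033094a_d43_d53_d41_d1a_10 g__wQ_26_wN_1_rb8033094a_d43_d53_d41_d1a_11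

theorem g__wQ_26_wN_1_rb8033094a_d43_d53_d41_d1a_9 : GoodKC AS k_wQ_26_wN_1_rb8033094a_d43_d53_d41_d1a_9 := p_wQ_26_wN_1_rb8033094a_d43_d53_d41_d1a_9 g__wQ_26_wN_1_rb8033094a_d43_d53_d41_d1a_10

theorem g__wQ_26_wN_1_rb8033094a_d43_d53_d41_d1a_8 : GoodKC AS k_wQ_26_wN_1_rb8033094a_d43_d53_d41_d1a_8 := p_wQ_26_wN_1_rb8033094a_d43_d53_d41_d1a_8 g__wQ_26_wN_1_rb8033094a_d43_d53_d41_d1a_9

theorem g__wQ_26_wN_1_rb8033094a_d43_d53_d41_d1a_15 : GoodKC AS k_wQ_26_wN_1_rb8033094a_d43_d53_d41_d1a_15 := p_wQ_26_wN_1_rb8033094a_d43_d53_d41_d1a_15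

theorem g__wQ_26_wN_1_rb8033094a_d43_d53_d41_d1a_7 : GoodKC AS k_wQ_26_wN_1_rb8033094a_d43_d53_d41_d1a_7 := p_wQ_26_wN_1_rb8033094a_d43_d53_d41_d1a_7 g__wQ_26_wN_1_rb8033094a_d43_d53_d41_d1a_8 g__wQ_26_wN_1_rb8033094a_d43_d53_d41_d1a_15

theorem g__wQ_26_wN_1_rb8033094a_d43_d53_d41_d1a_5 : GoodKC AS k_wQ_26_wN_1_rb8033094a_d43_d53_d41_d1a_5 := p_wQ_26_wN_1_rb8033094a_d43_d53_d41_d1a_5 g__wQ_26_wN_1_rb8033094a_d43_d53_d41_d1a_6 g__wQ_26_wN_1_rb8033094a_d43_d53_d41_d1a_7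

theorem g__wQ_26_wN_1_rb8033094a_d43_d53_d41_d1a_4 : GoodKC AS k_wQ_26_wN_1_rb8033094a_d43_d53_d41_d1a_4 := p_wQ_26_wN_1_rb8033094a_d43_d53_d41_d1a_4 g__wQ_26_wN_1_rb8033094a_d43_d53_d41_d1a_5

theorem g__wQ_26_wN_1_rb8033094a_d43_d53_d41_d1a_1 : GoodKC AS k_wQ_26_wN_1_rb8033094a_d43_d53_d41_d1a_1 := p_wQ_26_wN_1_rb8033094a_d43_d53_d41_d1a_1 g__wQ_26_wN_1_rb8033094a_d43_d53_d41_d1a_2 g__wQ_26_wN_1_rb8033094a_d43_d53_d41_d1a_4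

theorem g__wQ_26_wN_1_rb8033094a_d43_d53_d41_d1a_0 : GoodKC AS k_wQ_26_wN_1_rb8033094a_d43_d53_d41_d1a_0 := p_wQ_26_wN_1_rb8033094a_d43_d53_d41_d1a_0 g__wQ_26_wN_1_rb8033094a_d43_d53_d41_d1a_1

theorem g_wQ_26_wN_1_rb8033094a_d43_d53_d41_d1ax9 : GoodKC AS c_wQ_26_wN_1_rb8033094a_d43_d53_d41_d1ax9 := p_wQ_26_wN_1_rb8033094a_d43_d53_d41_d1a g__wQ_26_wN_1_rb8033094a_d43_d53_d41_d1a_0

theorem g_wQ_26_wN_1_rb8033094a_d43_d53_d41_d1dx9 : GoodKC AS c_wQ_26_wN_1_rb8033094a_d43_d53_d41_d1dx9 := p_wQ_26_wN_1_rb8033094a_d43_d53_d41_d1dx1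

theorem g_wQ_26_wN_1_rb8033094a_d43_d53_d41_d1fx9 : GoodKC AS c_wQ_26_wN_1_rb8033094a_d43_d53_d41_d1fx9 := p_wQ_26_wN_1_rb8033094a_d43_d53_d41_d1fx1

theorem g__wQ_26_wN_1_rb8033094a_d43_d53_d41_d21x1_0 : GoodKC AS k_wQ_26_wN_1_rb8033094a_d43_d53_d41_d21x1_0 := p_wQ_26_wN_1_rb8033094a_d43_d53_d41_d21x1_0

theorem g__wQ_26_wN_1_rb8033094a_d43_d53_d41_d21x1_2 : GoodKC AS k_wQ_26_wN_1_rb8033094a_d43_d53_d41_d21x1_2 := p_wQ_26_wN_1_rb8033094a_d43_d53_d41_d21x1_2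

theorem g__wQ_26_wN_1_rb8033094a_d43_d53_d41_d21x1_3 : GoodKC AS k_wQ_26_wN_1_rb8033094a_d43_d53_d41_d21x1_3 := p_wQ_26_wN_1_rb8033094a_d43_d53_d41_d21x1_3

theorem g__wQ_26_wN_1_rb8033094a_d43_d53_d41_d21x1_1 : GoodKC AS k_wQ_26_wN_1_rb8033094a_d43_d53_d41_d21x1_1 := p_wQ_26_wN_1_rb8033094a_d43_d53_d41_d21x1_1 g__wQ_26_wN_1_rb8033094a_d43_d53_d41_d21x1_2 g__wQ_26_wN_1_rb8033094a_d43_d53_d41_d21x1_3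

theorem g_wQ_26_wN_1_rb8033094a_d43_d53_d41_d21x9 : GoodKC AS c_wQ_26_wN_1_rb8033094a_d43_d53_d41_d21x9 := p_wQ_26_wN_1_rb8033094a_d43_d53_d41_d21x1 g__wQ_26_wN_1_rb8033094a_d43_d53_d41_d21x1_0 g__wQ_26_wN_1_rb8033094a_d43_d53_d41_d21x1_1

theorem g_wQ_26_wN_1_rb8033094a_d43_d53_d41_d23x9 : GoodKC AS c_wQ_26_wN_1_rb8033094a_d43_d53_d41_d23x9 := p_wQ_26_wN_1_rb8033094a_d43_d53_d41_d23x1

theorem g_wQ_26_wN_1_rb8033094a_d43_d53_d41_d24_d51_d18 : GoodKC AS c_wQ_26_wN_1_rb8033094a_d43_d53_d41_d24_d51_d18 := p_wQ_26_wN_1_rb8033094a_d43_d53_d41_d24_d51_d18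

theorem g__wQ_26_wN_1_rb8033094a_d43_d53_d41_d24_d51_d15_2 : GoodKC AS k_wQ_26_wN_1_rb8033094a_d43_d53_d41_d24_d51_d15_2 := p_wQ_26_wN_1_rb8033094a_d43_d53_d41_d24_d51_d15_2

theorem g__wQ_26_wN_1_rb8033094a_d43_d53_d41_d24_d51_d15_4 : GoodKC AS k_wQ_26_wN_1_rb8033094a_d43_d53_d41_d24_d51_d15_4 := p_wQ_26_wN_1_rb8033094a_d43_d53_d41_d24_d51_d15_4

theorem g__wQ_26_wN_1_rb8033094a_d43_d53_d41_d24_d51_d15_3 : GoodKC AS k_wQ_26_wN_1_rb8033094a_d43_d53_d41_d24_d51_d15_3 := p_wQ_26_wN_1_rb8033094a_d43_d53_d41_d24_d51_d15_3 g__wQ_26_wN_1_rb8033094a_d43_d53_d41_d24_d51_d15_4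

theorem g__wQ_26_wN_1_rb8033094a_d43_d53_d41_d24_d51_d15_1 : GoodKC AS k_wQ_26_wN_1_rb8033094a_d43_d53_d41_d24_d51_d15_1 := p_wQ_26_wN_1_rb8033094a_d43_d53_d41_d24_d51_d15_1 g__wQ_26_wN_1_rb8033094a_d43_d53_d41_d24_d51_d15_2 g__wQ_26_wN_1_rb8033094a_d43_d53_d41_d24_d51_d15_3

theorem g__wQ_26_wN_1_rb8033094a_d43_d53_d41_d24_d51_d15_6 : GoodKC AS k_wQ_26_wN_1_rb8033094a_d43_d53_d41_d24_d51_d15_6 := p_wQ_26_wN_1_rb8033094a_d43_d53_d41_d24_d51_d15_6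

theorem g__wQ_26_wN_1_rb8033094a_d43_d53_d41_d24_d51_d15_7 : GoodKC AS k_wQ_26_wN_1_rb8033094a_d43_d53_d41_d24_d51_d15_7 := p_wQ_26_wN_1_rb8033094a_d43_d53_d41_d24_d51_d15_7

theorem g__wQ_26_wN_1_rb8033094a_d43_d53_d41_d24_d51_d15_8 : GoodKC AS k_wQ_26_wN_1_rb8033094a_d43_d53_d41_d24_d51_d15_8 := p_wQ_26_wN_1_rb8033094a_d43_d53_d41_d24_d51_d15_8

theorem g__wQ_26_wN_1_rb8033094a_d43_d53_d41_d24_d51_d15_5 : GoodKC AS k_wQ_26_wN_1_rb8033094a_d43_d53_d41_d24_d51_d15_5 := p_wQ_26_wN_1_rb8033094a_d43_d53_d41_d24_d51_d15_5 g__wQ_26_wN_1_rb8033094a_d43_d53_d41_d24_d51_d15_6 g__wQ_26_wN_1_rb8033094a_d43_d53_d41_d24_d51_d15_7 g__wQ_26_wN_1_rb8033094a_d43_d53_d41_d24_d51_d15_8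

theorem g__wQ_26_wN_1_rb8033094a_d43_d53_d41_d24_d51_d15_0 : GoodKC AS k_wQ_26_wN_1_rb8033094a_d43_d53_d41_d24_d51_d15_0 := p_wQ_26_wN_1_rb8033094a_d43_d53_d41_d24_d51_d15_0 g__wQ_26_wN_1_rb8033094a_d43_d53_d41_d24_d51_d15_1 g__wQ_26_wN_1_rb8033094a_d43_d53_d41_d24_d51_d15_5

theorem g_wQ_26_wN_1_rb8033094a_d43_d53_d41_d24_d51_d15 : GoodKC AS c_wQ_26_wN_1_rb8033094a_d43_d53_d41_d24_d51_d15 := p_wQ_26_wN_1_rb8033094a_d43_d53_d41_d24_d51_d15 g__wQ_26_wN_1_rb8033094a_d43_d53_d41_d24_d51_d15_0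

theorem g__wQ_26_wN_1_rb8033094a_d43_d53_d41_d24_d51_d11_1 : GoodKC AS k_wQ_26_wN_1_rb8033094a_d43_d53_d41_d24_d51_d11_1 := p_wQ_26_wN_1_rb8033094a_d43_d53_d41_d24_d51_d11_1

theorem g__wQ_26_wN_1_rb8033094a_d43_d53_d41_d24_d51_d11_0 : GoodKC AS k_wQ_26_wN_1_rb8033094a_d43_d53_d41_d24_d51_d11_0 := p_wQ_26_wN_1_rb8033094a_d43_d53_d41_d24_d51_d11_0 g__wQ_26_wN_1_rb8033094a_d43_d53_d41_d24_d51_d11_1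

theorem g_wQ_26_wN_1_rb8033094a_d43_d53_d41_d24_d51_d11 : GoodKC AS c_wQ_26_wN_1_rb8033094a_d43_d53_d41_d24_d51_d11 := p_wQ_26_wN_1_rb8033094a_d43_d53_d41_d24_d51_d11 g__wQ_26_wN_1_rb8033094a_d43_d53_d41_d24_d51_d11_0

theorem g_wQ_26_wN_1_rb8033094a_d43_d53_d41_d24_d51_d10 : GoodKC AS c_wQ_26_wN_1_rb8033094a_d43_d53_d41_d24_d51_d10 := p_wQ_26_wN_1_rb8033094a_d43_d53_d41_d24_d51_d10

theorem g__wQ_26_wN_1_rb8033094a_d43_d53_d41_d24_d51_d0ev1_4 : GoodKC AS k_wQ_26_wN_1_rb8033094a_d43_d53_d41_d24_d51_d0ev1_4 := p_wQ_26_wN_1_rb8033094a_d43_d53_d41_d24_d51_d0ev1_4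

theorem g__wQ_26_wN_1_rb8033094a_d43_d53_d41_d24_d51_d0ev1_3 : GoodKC AS k_wQ_26_wN_1_rb8033094a_d43_d53_d41_d24_d51_d0ev1_3 := p_wQ_26_wN_1_rb8033094a_d43_d53_d41_d24_d51_d0ev1_3 g__wQ_26_wN_1_rb8033094a_d43_d53_d41_d24_d51_d0ev1_4

theorem g__wQ_26_wN_1_rb8033094a_d43_d53_d41_d24_d51_d0ev1_2 : GoodKC AS k_wQ_26_wN_1_rb8033094a_d43_d53_d41_d24_d51_d0ev1_2 := p_wQ_26_wN_1_rb8033094a_d43_d53_d41_d24_d51_d0ev1_2 g__wQ_26_wN_1_rb8033094a_d43_d53_d41_d24_d51_d0ev1_3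

theorem g__wQ_26_wN_1_rb8033094a_d43_d53_d41_d24_d51_d0ev1_1 : GoodKC AS k_wQ_26_wN_1_rb8033094a_d43_d53_d41_d24_d51_d0ev1_1 := p_wQ_26_wN_1_rb8033094a_d43_d53_d41_d24_d51_d0ev1_1 g__wQ_26_wN_1_rb8033094a_d43_d53_d41_d24_d51_d0ev1_2

theorem g__wQ_26_wN_1_rb8033094a_d43_d53_d41_d24_d51_d0ev1_6 : GoodKC AS k_wQ_26_wN_1_rb8033094a_d43_d53_d41_d24_d51_d0ev1_6 := p_wQ_26_wN_1_rb8033094a_d43_d53_d41_d24_d51_d0ev1_6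

theorem g__wQ_26_wN_1_rb8033094a_d43_d53_d41_d24_d51_d0ev1_5 : GoodKC AS k_wQ_26_wN_1_rb8033094a_d43_d53_d41_d24_d51_d0ev1_5 := p_wQ_26_wN_1_rb8033094a_d43_d53_d41_d24_d51_d0ev1_5 g__wQ_26_wN_1_rb8033094a_d43_d53_d41_d24_d51_d0ev1_6

theorem g__wQ_26_wN_1_rb8033094a_d43_d53_d41_d24_d51_d0ev1_0 : GoodKC AS k_wQ_26_wN_1_rb8033094a_d43_d53_d41_d24_d51_d0ev1_0 := p_wQ_26_wN_1_rb8033094a_d43_d53_d41_d24_d51_d0ev1_0 g__wQ_26_wN_1_rb8033094a_d43_d53_d41_d24_d51_d0ev1_1 g__wQ_26_wN_1_rb8033094a_d43_d53_d41_d24_d51_d0ev1_5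

theorem g_wQ_26_wN_1_rb8033094a_d43_d53_d41_d24_d51_d0e : GoodKC AS c_wQ_26_wN_1_rb8033094a_d43_d53_d41_d24_d51_d0e := p_wQ_26_wN_1_rb8033094a_d43_d53_d41_d24_d51_d0ev1 g__wQ_26_wN_1_rb8033094a_d43_d53_d41_d24_d51_d0ev1_0

theorem g_wQ_26_wN_1_rb8033094a_d43_d53_d41_d24_d51_d0d : GoodKC AS c_wQ_26_wN_1_rb8033094a_d43_d53_d41_d24_d51_d0d := p_wQ_26_wN_1_rb8033094a_d43_d53_d41_d24_d51_d0d

theorem g_wQ_26_wN_1_rb8033094a_d43_d53_d41_d24_d51_d0c : GoodKC AS c_wQ_26_wN_1_rb8033094a_d43_d53_d41_d24_d51_d0c := p_wQ_26_wN_1_rb8033094a_d43_d53_d41_d24_d51_d0c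

theorem g_wQ_26_wN_1_rb8033094a_d43_d53_d41_d24_d51_d0b : GoodKC AS c_wQ_26_wN_1_rb8033094a_d43_d53_d41_d24_d51_d0b := p_wQ_26_wN_1_rb8033094a_d43_d53_d41_d24_d51_d0b

theorem g__wQ_26_wN_1_rb8033094a_d43_d53_d41_d24_d51_d08_0 : GoodKC AS k_wQ_26_wN_1_rb8033094a_d43_d53_d41_d24_d51_d08_0 := p_wQ_26_wN_1_rb8033094a_d43_d53_d41_d24_d51_d08_0

theorem g_wQ_26_wN_1_rb8033094a_d43_d53_d41_d24_d51_d08 : GoodKC AS c_wQ_26_wN_1_rb8033094a_d43_d53_d41_d24_d51_d08 := p_wQ_26_wN_1_rb8033094a_d43_d53_d41_d24_d51_d08 g__wQ_26_wN_1_rb8033094a_d43_d53_d41_d24_d51_d08_0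

theorem g_wQ_26_wN_1_rb8033094a_d43_d53_d41_d24_d51_d06 : GoodKC AS c_wQ_26_wN_1_rb8033094a_d43_d53_d41_d24_d51_d06 := p_wQ_26_wN_1_rb8033094a_d43_d53_d41_d24_d51_d06

theorem g_wQ_26_wN_1_rb8033094a_d43_d53_d41_d24_d51_d04 : GoodKC AS c_wQ_26_wN_1_rb8033094a_d43_d53_d41_d24_d51_d04 := p_wQ_26_wN_1_rb8033094a_d43_d53_d41_d24_d51_d04

theorem g__wQ_26_wN_1_rb8033094a_d43_d53_d41_d24_d51_d03_2 : GoodKC AS k_wQ_26_wN_1_rb8033094a_d43_d53_d41_d24_d51_d03_2 := p_wQ_26_wN_1_rb8033094a_d43_d53_d41_d24_d51_d03_2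

theorem g__wQ_26_wN_1_rb8033094a_d43_d53_d41_d24_d51_d03_3 : GoodKC AS k_wQ_26_wN_1_rb8033094a_d43_d53_d41_d24_d51_d03_3 := p_wQ_26_wN_1_rb8033094a_d43_d53_d41_d24_d51_d03_3

theorem g__wQ_26_wN_1_rb8033094a_d43_d53_d41_d24_d51_d03_1 : GoodKC AS k_wQ_26_wN_1_rb8033094a_d43_d53_d41_d24_d51_d03_1 := p_wQ_26_wN_1_rb8033094a_d43_d53_d41_d24_d51_d03_1 g__wQ_26_wN_1_rb8033094a_d43_d53_d41_d24_d51_d03_2 g__wQ_26_wN_1_rb8033094a_d43_d53_d41_d24_d51_d03_3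

theorem g__wQ_26_wN_1_rb8033094a_d43_d53_d41_d24_d51_d03_0 : GoodKC AS k_wQ_26_wN_1_rb8033094a_d43_d53_d41_d24_d51_d03_0 := p_wQ_26_wN_1_rb8033094a_d43_d53_d41_d24_d51_d03_0 g__wQ_26_wN_1_rb8033094a_d43_d53_d41_d24_d51_d03_1

theorem g_wQ_26_wN_1_rb8033094a_d43_d53_d41_d24_d51_d03 : GoodKC AS c_wQ_26_wN_1_rb8033094a_d43_d53_d41_d24_d51_d03 := p_wQ_26_wN_1_rb8033094a_d43_d53_d41_d24_d51_d03 g__wQ_26_wN_1_rb8033094a_d43_d53_d41_d24_d51_d03_0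

theorem g_wQ_26_wN_1_rb8033094a_d43_d53_d41_d24_d51_d02 : GoodKC AS c_wQ_26_wN_1_rb8033094a_d43_d53_d41_d24_d51_d02 := p_wQ_26_wN_1_rb8033094a_d43_d53_d41_d24_d51_d02

theorem g__wQ_26_wN_1_rb8033094a_d43_d53_d41_d24_d51_d01_1 : GoodKC AS k_wQ_26_wN_1_rb8033094a_d43_d53_d41_d24_d51_d01_1 := p_wQ_26_wN_1_rb8033094a_d43_d53_d41_d24_d51_d01_1

theorem g__wQ_26_wN_1_rb8033094a_d43_d53_d41_d24_d51_d01_0 : GoodKC AS k_wQ_26_wN_1_rb8033094a_d43_d53_d41_d24_d51_d01_0 := p_wQ_26_wN_1_rb8033094a_d43_d53_d41_d24_d51_d01_0 g__wQ_26_wN_1_rb8033094a_d43_d53_d41_d24_d51_d01_1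

theorem g_wQ_26_wN_1_rb8033094a_d43_d53_d41_d24_d51_d01 : GoodKC AS c_wQ_26_wN_1_rb8033094a_d43_d53_d41_d24_d51_d01 := p_wQ_26_wN_1_rb8033094a_d43_d53_d41_d24_d51_d01 g__wQ_26_wN_1_rb8033094a_d43_d53_d41_d24_d51_d01_0

theorem g__wQ_26_wN_1_rb8033094a_d43_d53_d41_d24_d51_d00_1 : GoodKC AS k_wQ_26_wN_1_rb8033094a_d43_d53_d41_d24_d51_d00_1 := p_wQ_26_wN_1_rb8033094a_d43_d53_d41_d24_d51_d00_1

theorem g__wQ_26_wN_1_rb8033094a_d43_d53_d41_d24_d51_d00_5 : GoodKC AS k_wQ_26_wN_1_rb8033094a_d43_d53_d41_d24_d51_d00_5 := p_wQ_26_wN_1_rb8033094a_d43_d53_d41_d24_d51_d00_5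

theorem g__wQ_26_wN_1_rb8033094a_d43_d53_d41_d24_d51_d00_7 : GoodKC AS k_wQ_26_wN_1_rb8033094a_d43_d53_d41_d24_d51_d00_7 := p_wQ_26_wN_1_rb8033094a_d43_d53_d41_d24_d51_d00_7

theorem g__wQ_26_wN_1_rb8033094a_d43_d53_d41_d24_d51_d00_10 : GoodKC AS k_wQ_26_wN_1_rb8033094a_d43_d53_d41_d24_d51_d00_10 := p_wQ_26_wN_1_rb8033094a_d43_d53_d41_d24_d51_d00_10

theorem g__wQ_26_wN_1_rb8033094a_d43_d53_d41_d24_d51_d0001_2 : GoodKC AS k_wQ_26_wN_1_rb8033094a_d43_d53_d41_d24_d51_d0001_2 := p_wQ_26_wN_1_rb8033094a_d43_d53_d41_d24_d51_d0001_2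

theorem g__wQ_26_wN_1_rb8033094a_d43_d53_d41_d24_d51_d0001_4 : GoodKC AS k_wQ_26_wN_1_rb8033094a_d43_d53_d41_d24_d51_d0001_4 := p_wQ_26_wN_1_rb8033094a_d43_d53_d41_d24_d51_d0001_4

theorem g__wQ_26_wN_1_rb8033094a_d43_d53_d41_d24_d51_d0001_3 : GoodKC AS k_wQ_26_wN_1_rb8033094a_d43_d53_d41_d24_d51_d0001_3 := p_wQ_26_wN_1_rb8033094a_d43_d53_d41_d24_d51_d0001_3 g__wQ_26_wN_1_rb8033094a_d43_d53_d41_d24_d51_d0001_4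

theorem g__wQ_26_wN_1_rb8033094a_d43_d53_d41_d24_d51_d0001_1 : GoodKC AS k_wQ_26_wN_1_rb8033094a_d43_d53_d41_d24_d51_d0001_1 := p_wQ_26_wN_1_rb8033094a_d43_d53_d41_d24_d51_d0001_1 g__wQ_26_wN_1_rb8033094a_d43_d53_d41_d24_d51_d0001_2 g__wQ_26_wN_1_rb8033094a_d43_d53_d41_d24_d51_d0001_3

theorem g__wQ_26_wN_1_rb8033094a_d43_d53_d41_d24_d51_d0001_0 : GoodKC AS k_wQ_26_wN_1_rb8033094a_d43_d53_d41_d24_d51_d0001_0 := p_wQ_26_wN_1_rb8033094a_d43_d53_d41_d24_d51_d0001_0 g__wQ_26_wN_1_rb8033094a_d43_d53_d41_d24_d51_d0001_1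

theorem g__wQ_26_wN_1_rb8033094a_d43_d53_d41_d24_d51_d0001_5 : GoodKC AS k_wQ_26_wN_1_rb8033094a_d43_d53_d41_d24_d51_d0001_5 := p_wQ_26_wN_1_rb8033094a_d43_d53_d41_d24_d51_d0001_5

theorem g_wQ_26_wN_1_rb8033094a_d43_d53_d41_d24_d51_d0001 : GoodKC AS c_wQ_26_wN_1_rb8033094a_d43_d53_d41_d24_d51_d0001 := p_wQ_26_wN_1_rb8033094a_d43_d53_d41_d24_d51_d0001 g__wQ_26_wN_1_rb8033094a_d43_d53_d41_d24_d51_d0001_0 g__wQ_26_wN_1_rb8033094a_d43_d53_d41_d24_d51_d0001_5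

theorem g__wQ_26_wN_1_rb8033094a_d43_d53_d41_d24_d51_d00_14 : GoodKC AS k_wQ_26_wN_1_rb8033094a_d43_d53_d41_d24_d51_d00_14 := p_wQ_26_wN_1_rb8033094a_d43_d53_d41_d24_d51_d00_14

theorem g__wQ_26_wN_1_rb8033094a_d43_d53_d41_d24_d51_d00_13 : GoodKC AS k_wQ_26_wN_1_rb8033094a_d43_d53_d41_d24_d51_d00_13 := p_wQ_26_wN_1_rb8033094a_d43_d53_d41_d24_d51_d00_13 g__wQ_26_wN_1_rb8033094a_d43_d53_d41_d24_d51_d00_14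

theorem g__wQ_26_wN_1_rb8033094a_d43_d53_d41_d24_d51_d00_18 : GoodKC AS k_wQ_26_wN_1_rb8033094a_d43_d53_d41_d24_d51_d00_18 := p_wQ_26_wN_1_rb8033094a_d43_d53_d41_d24_d51_d00_18

theorem g__wQ_26_wN_1_rb8033094a_d43_d53_d41_d24_d51_d00_17 : GoodKC AS k_wQ_26_wN_1_rb8033094a_d43_d53_d41_d24_d51_d00_17 := p_wQ_26_wN_1_rb8033094a_d43_d53_d41_d24_d51_d00_17 g__wQ_26_wN_1_rb8033094a_d43_d53_d41_d24_d51_d00_18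

theorem g__wQ_26_wN_1_rb8033094a_d43_d53_d41_d24_d51_d00_16 : GoodKC AS k_wQ_26_wN_1_rb8033094a_d43_d53_d41_d24_d51_d00_16 := p_wQ_26_wN_1_rb8033094a_d43_d53_d41_d24_d51_d00_16 g__wQ_26_wN_1_rb8033094a_d43_d53_d41_d24_d51_d00_17

theorem g__wQ_26_wN_1_rb8033094a_d43_d53_d41_d24_d51_d00_19 : GoodKC AS k_wQ_26_wN_1_rb8033094a_d43_d53_d41_d24_d51_d00_19 := p_wQ_26_wN_1_rb8033094a_d43_d53_d41_d24_d51_d00_19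

theorem g__wQ_26_wN_1_rb8033094a_d43_d53_d41_d24_d51_d00_15 : GoodKC AS k_wQ_26_wN_1_rb8033094a_d43_d53_d41_d24_d51_d00_15 := p_wQ_26_wN_1_rb8033094a_d43_d53_d41_d24_d51_d00_15 g__wQ_26_wN_1_rb8033094a_d43_d53_d41_d24_d51_d00_16 g__wQ_26_wN_1_rb8033094a_d43_d53_d41_d24_d51_d00_19

theorem g__wQ_26_wN_1_rb8033094a_d43_d53_d41_d24_d51_d00_12 : GoodKC AS k_wQ_26_wN_1_rb8033094a_d43_d53_d41_d24_d51_d00_12 := p_wQ_26_wN_1_rb8033094a_d43_d53_d41_d24_d51_d00_12 g__wQ_26_wN_1_rb8033094a_d43_d53_d41_d24_d51_d00_13 g__wQ_26_wN_1_rb8033094a_d43_d53_d41_d24_d51_d00_15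

theorem g__wQ_26_wN_1_rb8033094a_d43_d53_d41_d24_d51_d0000_0 : GoodKC AS k_wQ_26_wN_1_rb8033094a_d43_d53_d41_d24_d51_d0000_0 := p_wQ_26_wN_1_rb8033094a_d43_d53_d41_d24_d51_d0000_0

theorem g_wQ_26_wN_1_rb8033094a_d43_d53_d41_d24_d51_d0000 : GoodKC AS c_wQ_26_wN_1_rb8033094a_d43_d53_d41_d24_d51_d0000 := p_wQ_26_wN_1_rb8033094a_d43_d53_d41_d24_d51_d0000 g__wQ_26_wN_1_rb8033094a_d43_d53_d41_d24_d51_d0000_0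

theorem g__wQ_26_wN_1_rb8033094a_d43_d53_d41_d24_d51_d00_21 : GoodKC AS k_wQ_26_wN_1_rb8033094a_d43_d53_d41_d24_d51_d00_21 := p_wQ_26_wN_1_rb8033094a_d43_d53_d41_d24_d51_d00_21 g_wQ_26_wN_1_rb8033094a_d43_d53_d41_d24_d51_d0000

theorem g__wQ_26_wN_1_rb8033094a_d43_d53_d41_d24_d51_d00_20 : GoodKC AS k_wQ_26_wN_1_rb8033094a_d43_d53_d41_d24_d51_d00_20 := p_wQ_26_wN_1_rb8033094a_d43_d53_d41_d24_d51_d00_20 g__wQ_26_wN_1_rb8033094a_d43_d53_d41_d24_d51_d00_21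

theorem g__wQ_26_wN_1_rb8033094a_d43_d53_d41_d24_d51_d00_22 : GoodKC AS k_wQ_26_wN_1_rb8033094a_d43_d53_d41_d24_d51_d00_22 := p_wQ_26_wN_1_rb8033094a_d43_d53_d41_d24_d51_d00_22

theorem g_wQ_26_wN_1_rb8033094a_d43_d53_d41_d24_d51_d0002 : GoodKC AS c_wQ_26_wN_1_rb8033094a_d43_d53_d41_d24_d51_d0002 := p_wQ_26_wN_1_rb8033094a_d43_d53_d41_d24_d51_d0002v1

theorem g__wQ_26_wN_1_rb8033094a_d43_d53_d41_d24_d51_d00_11 : GoodKC AS k_wQ_26_wN_1_rb8033094a_d43_d53_d41_d24_d51_d00_11 := p_wQ_26_wN_1_rb8033094a_d43_d53_d41_d24_d51_d00_11 g_wQ_26_wN_1_rb8033094a_d43_d53_d41_d24_d51_d0001 g__wQ_26_wN_1_rb8033094a_d43_d53_d41_d24_d51_d00_12 g__wQ_26_wN_1_rb8033094a_d43_d53_d41_d24_d51_d00_20 g__wQ_26_wN_1_rb8033094a_d43_d53_d41_d24_d51_d00_22 g_wQ_26_wN_1_rb8033094a_d43_d53_d41_d24_d51_d0002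

theorem g__wQ_26_wN_1_rb8033094a_d43_d53_d41_d24_d51_d00_9 : GoodKC AS k_wQ_26_wN_1_rb8033094a_d43_d53_d41_d24_d51_d00_9 := p_wQ_26_wN_1_rb8033094a_d43_d53_d41_d24_d51_d00_9 g__wQ_26_wN_1_rb8033094a_d43_d53_d41_d24_d51_d00_10 g__wQ_26_wN_1_rb8033094a_d43_d53_d41_d24_d51_d00_11

theorem g__wQ_26_wN_1_rb8033094a_d43_d53_d41_d24_d51_d00_8 : GoodKC AS k_wQ_26_wN_1_rb8033094a_d43_d53_d41_d24_d51_d00_8 := p_wQ_26_wN_1_rb8033094a_d43_d53_d41_d24_d51_d00_8 g__wQ_26_wN_1_rb8033094a_d43_d53_d41_d24_d51_d00_9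

theorem g__wQ_26_wN_1_rb8033094a_d43_d53_d41_d24_d51_d00_23 : GoodKC AS k_wQ_26_wN_1_rb8033094a_d43_d53_d41_d24_d51_d00_23 := p_wQ_26_wN_1_rb8033094a_d43_d53_d41_d24_d51_d00_23

theorem g__wQ_26_wN_1_rb8033094a_d43_d53_d41_d24_d51_d00_6 : GoodKC AS k_wQ_26_wN_1_rb8033094a_d43_d53_d41_d24_d51_d00_6 := p_wQ_26_wN_1_rb8033094a_d43_d53_d41_d24_d51_d00_6 g__wQ_26_wN_1_rb8033094a_d43_d53_d41_d24_d51_d00_7 g__wQ_26_wN_1_rb8033094a_d43_d53_d41_d24_d51_d00_8 g__wQ_26_wN_1_rb8033094a_d43_d53_d41_d24_d51_d00_23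

theorem g__wQ_26_wN_1_rb8033094a_d43_d53_d41_d24_d51_d00_4 : GoodKC AS k_wQ_26_wN_1_rb8033094a_d43_d53_d41_d24_d51_d00_4 := p_wQ_26_wN_1_rb8033094a_d43_d53_d41_d24_d51_d00_4 g__wQ_26_wN_1_rb8033094a_d43_d53_d41_d24_d51_d00_5 g__wQ_26_wN_1_rb8033094a_d43_d53_d41_d24_d51_d00_6

theorem g__wQ_26_wN_1_rb8033094a_d43_d53_d41_d24_d51_d00_3 : GoodKC AS k_wQ_26_wN_1_rb8033094a_d43_d53_d41_d24_d51_d00_3 := p_wQ_26_wN_1_rb8033094a_d43_d53_d41_d24_d51_d00_3 g__wQ_26_wN_1_rb8033094a_d43_d53_d41_d24_d51_d00_4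

theorem g__wQ_26_wN_1_rb8033094a_d43_d53_d41_d24_d51_d00_2 : GoodKC AS k_wQ_26_wN_1_rb8033094a_d43_d53_d41_d24_d51_d00_2 := p_wQ_26_wN_1_rb8033094a_d43_d53_d41_d24_d51_d00_2 g__wQ_26_wN_1_rb8033094a_d43_d53_d41_d24_d51_d00_3

theorem g__wQ_26_wN_1_rb8033094a_d43_d53_d41_d24_d51_d00_0 : GoodKC AS k_wQ_26_wN_1_rb8033094a_d43_d53_d41_d24_d51_d00_0 := p_wQ_26_wN_1_rb8033094a_d43_d53_d41_d24_d51_d00_0 g__wQ_26_wN_1_rb8033094a_d43_d53_d41_d24_d51_d00_1 g__wQ_26_wN_1_rb8033094a_d43_d53_d41_d24_d51_d00_2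

theorem g_wQ_26_wN_1_rb8033094a_d43_d53_d41_d24_d51_d00 : GoodKC AS c_wQ_26_wN_1_rb8033094a_d43_d53_d41_d24_d51_d00 := p_wQ_26_wN_1_rb8033094a_d43_d53_d41_d24_d51_d00 g__wQ_26_wN_1_rb8033094a_d43_d53_d41_d24_d51_d00_0

theorem g__wQ_26_wN_1_rb8033094a_d43_d53_d41_d24_d51_d05_2 : GoodKC AS k_wQ_26_wN_1_rb8033094a_d43_d53_d41_d24_d51_d05_2 := p_wQ_26_wN_1_rb8033094a_d43_d53_d41_d24_d51_d05_2

theorem g__wQ_26_wN_1_rb8033094a_d43_d53_d41_d24_d51_d05_1 : GoodKC AS k_wQ_26_wN_1_rb8033094a_d43_d53_d41_d24_d51_d05_1 := p_wQ_26_wN_1_rb8033094a_d43_d53_d41_d24_d51_d05_1 g__wQ_26_wN_1_rb8033094a_d43_d53_d41_d24_d51_d05_2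

theorem g__wQ_26_wN_1_rb8033094a_d43_d53_d41_d24_d51_d05_7 : GoodKC AS k_wQ_26_wN_1_rb8033094a_d43_d53_d41_d24_d51_d05_7 := p_wQ_26_wN_1_rb8033094a_d43_d53_d41_d24_d51_d05_7

theorem g__wQ_26_wN_1_rb8033094a_d43_d53_d41_d24_d51_d05_6 : GoodKC AS k_wQ_26_wN_1_rb8033094a_d43_d53_d41_d24_d51_d05_6 := p_wQ_26_wN_1_rb8033094a_d43_d53_d41_d24_d51_d05_6 g__wQ_26_wN_1_rb8033094a_d43_d53_d41_d24_d51_d05_7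

theorem g__wQ_26_wN_1_rb8033094a_d43_d53_d41_d24_d51_d05_5 : GoodKC AS k_wQ_26_wN_1_rb8033094a_d43_d53_d41_d24_d51_d05_5 := p_wQ_26_wN_1_rb8033094a_d43_d53_d41_d24_d51_d05_5 g__wQ_26_wN_1_rb8033094a_d43_d53_d41_d24_d51_d05_6

theorem g__wQ_26_wN_1_rb8033094a_d43_d53_d41_d24_d51_d05_4 : GoodKC AS k_wQ_26_wN_1_rb8033094a_d43_d53_d41_d24_d51_d05_4 := p_wQ_26_wN_1_rb8033094a_d43_d53_d41_d24_d51_d05_4 g__wQ_26_wN_1_rb8033094a_d43_d53_d41_d24_d51_d05_5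

theorem g__wQ_26_wN_1_rb8033094a_d43_d53_d41_d24_d51_d05_3 : GoodKC AS k_wQ_26_wN_1_rb8033094a_d43_d53_d41_d24_d51_d05_3 := p_wQ_26_wN_1_rb8033094a_d43_d53_d41_d24_d51_d05_3 g__wQ_26_wN_1_rb8033094a_d43_d53_d41_d24_d51_d05_4

theorem g__wQ_26_wN_1_rb8033094a_d43_d53_d41_d24_d51_d05_0 : GoodKC AS k_wQ_26_wN_1_rb8033094a_d43_d53_d41_d24_d51_d05_0 := p_wQ_26_wN_1_rb8033094a_d43_d53_d41_d24_d51_d05_0 g__wQ_26_wN_1_rb8033094a_d43_d53_d41_d24_d51_d05_1 g__wQ_26_wN_1_rb8033094a_d43_d53_d41_d24_d51_d05_3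

theorem g_wQ_26_wN_1_rb8033094a_d43_d53_d41_d24_d51_d05 : GoodKC AS c_wQ_26_wN_1_rb8033094a_d43_d53_d41_d24_d51_d05 := p_wQ_26_wN_1_rb8033094a_d43_d53_d41_d24_d51_d05 g__wQ_26_wN_1_rb8033094a_d43_d53_d41_d24_d51_d05_0

theorem g_wQ_26_wN_1_rb8033094a_d43_d53_d41_d24_d51_d07 : GoodKC AS c_wQ_26_wN_1_rb8033094a_d43_d53_d41_d24_d51_d07 := p_wQ_26_wN_1_rb8033094a_d43_d53_d41_d24_d51_d07

theorem g_wQ_26_wN_1_rb8033094a_d43_d53_d41_d24_d51_d09 : GoodKC AS c_wQ_26_wN_1_rb8033094a_d43_d53_d41_d24_d51_d09 := p_wQ_26_wN_1_rb8033094a_d43_d53_d41_d24_d51_d09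

theorem g_wQ_26_wN_1_rb8033094a_d43_d53_d41_d24_d51_d0a : GoodKC AS c_wQ_26_wN_1_rb8033094a_d43_d53_d41_d24_d51_d0a := p_wQ_26_wN_1_rb8033094a_d43_d53_d41_d24_d51_d0a

theorem g_wQ_26_wN_1_rb8033094a_d43_d53_d41_d24_d51_d0f : GoodKC AS c_wQ_26_wN_1_rb8033094a_d43_d53_d41_d24_d51_d0f := p_wQ_26_wN_1_rb8033094a_d43_d53_d41_d24_d51_d0f

theorem g_wQ_26_wN_1_rb8033094a_d43_d53_d41_d24_d51_d12 : GoodKC AS c_wQ_26_wN_1_rb8033094a_d43_d53_d41_d24_d51_d12 := p_wQ_26_wN_1_rb8033094a_d43_d53_d41_d24_d51_d12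

theorem g_wQ_26_wN_1_rb8033094a_d43_d53_d41_d24_d51_d13 : GoodKC AS c_wQ_26_wN_1_rb8033094a_d43_d53_d41_d24_d51_d13 := p_wQ_26_wN_1_rb8033094a_d43_d53_d41_d24_d51_d13

theorem g_wQ_26_wN_1_rb8033094a_d43_d53_d41_d24_d51_d14 : GoodKC AS c_wQ_26_wN_1_rb8033094a_d43_d53_d41_d24_d51_d14 := p_wQ_26_wN_1_rb8033094a_d43_d53_d41_d24_d51_d14

theorem g__wQ_26_wN_1_rb8033094a_d43_d53_d41_d24_d51_d16_0 : GoodKC AS k_wQ_26_wN_1_rb8033094a_d43_d53_d41_d24_d51_d16_0 := p_wQ_26_wN_1_rb8033094a_d43_d53_d41_d24_d51_d16_0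

theorem g_wQ_26_wN_1_rb8033094a_d43_d53_d41_d24_d51_d16 : GoodKC AS c_wQ_26_wN_1_rb8033094a_d43_d53_d41_d24_d51_d16 := p_wQ_26_wN_1_rb8033094a_d43_d53_d41_d24_d51_d16 g__wQ_26_wN_1_rb8033094a_d43_d53_d41_d24_d51_d16_0

theorem g_wQ_26_wN_1_rb8033094a_d43_d53_d41_d24_d51_d17 : GoodKC AS c_wQ_26_wN_1_rb8033094a_d43_d53_d41_d24_d51_d17 := p_wQ_26_wN_1_rb8033094a_d43_d53_d41_d24_d51_d17

theorem g_wQ_26_wN_1_rb8033094a_d43_d53_d41_d24_d51_d19 : GoodKC AS c_wQ_26_wN_1_rb8033094a_d43_d53_d41_d24_d51_d19 := p_wQ_26_wN_1_rb8033094a_d43_d53_d41_d24_d51_d19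

theorem g_wQ_26_wN_1_rb8033094a_d43_d53_d41_d24x9 : GoodKC AS c_wQ_26_wN_1_rb8033094a_d43_d53_d41_d24x9 := p_wQ_26_wN_1_rb8033094a_d43_d53_d41_d24 g_wQ_26_wN_1_rb8033094a_d43_d53_d41_d24_d51_d18 g_wQ_26_wN_1_rb8033094a_d43_d53_d41_d24_d51_d15 g_wQ_26_wN_1_rb8033094a_d43_d53_d41_d24_d51_d11 g_wQ_26_wN_1_rb8033094a_d43_d53_d41_d24_d51_d10 g_wQ_26_wN_1_rb8033094a_d43_d53_d41_d24_d51_d0e g_wQ_26_wN_1_rb8033094a_d43_d53_d41_d24_d51_d0d g_wQ_26_wN_1_rb8033094a_d43_d53_d41_d24_d51_d0c g_wQ_26_wN_1_rb8033094a_d43_d53_d41_d24_d51_d0b g_wQ_26_wN_1_rb8033094a_d43_d53_d41_d24_d51_d08 g_wQ_26_wN_1_rb8033094a_d43_d53_d41_d24_d51_d06 g_wQ_26_wN_1_rb8033094a_d43_d53_d41_d24_d51_d04 g_wQ_26_wN_1_rb8033094a_d43_d53_d41_d24_d51_d03 g_wQ_26_wN_1_rb8033094a_d43_d53_d41_d24_d51_d02 g_wQ_26_wN_1_rb8033094a_d43_d53_d41_d24_d51_d01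 g_wQ_26_wN_1_rb8033094a_d43_d53_d41_d24_d51_d00 g_wQ_26_wN_1_rb8033094a_d43_d53_d41_d24_d51_d05 g_wQ_26_wN_1_rb8033094a_d43_d53_d41_d24_d51_d07 g_wQ_26_wN_1_rb8033094a_d43_d53_d41_d24_d51_d09 g_wQ_26_wN_1_rb8033094a_d43_d53_d41_d24_d51_d0a g_wQ_26_wN_1_rb8033094a_d43_d53_d41_d24_d51_d0f g_wQ_26_wN_1_rb8033094a_d43_d53_d41_d24_d51_d12 g_wQ_26_wN_1_rb8033094a_d43_d53_d41_d24_d51_d13 g_wQ_26_wN_1_rb8033094a_d43_d53_d41_d24_d51_d14 g_wQ_26_wN_1_rb8033094a_d43_d53_d41_d24_d51_d16 g_wQ_26_wN_1_rb8033094a_d43_d53_d41_d24_d51_d17 g_wQ_26_wN_1_rb8033094a_d43_d53_d41_d24_d51_d19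

theorem g_wQ_26_wN_1_rb8033094a_d43_d53_d41_d2523 : GoodKC AS c_wQ_26_wN_1_rb8033094a_d43_d53_d41_d2523 := p_wQ_26_wN_1_rb8033094a_d43_d53_d41_d2523

theorem g__wQ_26_wN_1_rb8033094a_d43_d53_d41_d2521_3 : GoodKC AS k_wQ_26_wN_1_rb8033094a_d43_d53_d41_d2521_3 := p_wQ_26_wN_1_rb8033094a_d43_d53_d41_d2521_3

theorem g__wQ_26_wN_1_rb8033094a_d43_d53_d41_d2521_2 : GoodKC AS k_wQ_26_wN_1_rb8033094a_d43_d53_d41_d2521_2 := p_wQ_26_wN_1_rb8033094a_d43_d53_d41_d2521_2 g__wQ_26_wN_1_rb8033094a_d43_d53_d41_d2521_3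

theorem g__wQ_26_wN_1_rb8033094a_d43_d53_d41_d2521_1 : GoodKC AS k_wQ_26_wN_1_rb8033094a_d43_d53_d41_d2521_1 := p_wQ_26_wN_1_rb8033094a_d43_d53_d41_d2521_1 g__wQ_26_wN_1_rb8033094a_d43_d53_d41_d2521_2

theorem g__wQ_26_wN_1_rb8033094a_d43_d53_d41_d2521_0 : GoodKC AS k_wQ_26_wN_1_rb8033094a_d43_d53_d41_d2521_0 := p_wQ_26_wN_1_rb8033094a_d43_d53_d41_d2521_0 g__wQ_26_wN_1_rb8033094a_d43_d53_d41_d2521_1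

theorem g_wQ_26_wN_1_rb8033094a_d43_d53_d41_d2521 : GoodKC AS c_wQ_26_wN_1_rb8033094a_d43_d53_d41_d2521 := p_wQ_26_wN_1_rb8033094a_d43_d53_d41_d2521 g__wQ_26_wN_1_rb8033094a_d43_d53_d41_d2521_0

theorem g_wQ_26_wN_1_rb8033094a_d43_d53_d41_d2520 : GoodKC AS c_wQ_26_wN_1_rb8033094a_d43_d53_d41_d2520 := p_wQ_26_wN_1_rb8033094a_d43_d53_d41_d2520

theorem g_wQ_26_wN_1_rb8033094a_d43_d53_d41_d251f : GoodKC AS c_wQ_26_wN_1_rb8033094a_d43_d53_d41_d251f := p_wQ_26_wN_1_rb8033094a_d43_d53_d41_d251f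

theorem g_wQ_26_wN_1_rb8033094a_d43_d53_d41_d251c : GoodKC AS c_wQ_26_wN_1_rb8033094a_d43_d53_d41_d251c := p_wQ_26_wN_1_rb8033094a_d43_d53_d41_d251c

theorem g__wQ_26_wN_1_rb8033094a_d43_d53_d41_d251b_1 : GoodKC AS k_wQ_26_wN_1_rb8033094a_d43_d53_d41_d251b_1 := p_wQ_26_wN_1_rb8033094a_d43_d53_d41_d251b_1

theorem g__wQ_26_wN_1_rb8033094a_d43_d53_d41_d251b_0 : GoodKC AS k_wQ_26_wN_1_rb8033094a_d43_d53_d41_d251b_0 := p_wQ_26_wN_1_rb8033094a_d43_d53_d41_d251b_0 g__wQ_26_wN_1_rb8033094a_d43_d53_d41_d251b_1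

theorem g_wQ_26_wN_1_rb8033094a_d43_d53_d41_d251b : GoodKC AS c_wQ_26_wN_1_rb8033094a_d43_d53_d41_d251b := p_wQ_26_wN_1_rb8033094a_d43_d53_d41_d251b g__wQ_26_wN_1_rb8033094a_d43_d53_d41_d251b_0

theorem g__wQ_26_wN_1_rb8033094a_d43_d53_d41_d251a_0 : GoodKC AS k_wQ_26_wN_1_rb8033094a_d43_d53_d41_d251a_0 := p_wQ_26_wN_1_rb8033094a_d43_d53_d41_d251a_0

theorem g_wQ_26_wN_1_rb8033094a_d43_d53_d41_d251a : GoodKC AS c_wQ_26_wN_1_rb8033094a_d43_d53_d41_d251a := p_wQ_26_wN_1_rb8033094a_d43_d53_d41_d251a g__wQ_26_wN_1_rb8033094a_d43_d53_d41_d251a_0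

theorem g__wQ_26_wN_1_rb8033094a_d43_d53_d41_d2519_0 : GoodKC AS k_wQ_26_wN_1_rb8033094a_d43_d53_d41_d2519_0 := p_wQ_26_wN_1_rb8033094a_d43_d53_d41_d2519_0

theorem g_wQ_26_wN_1_rb8033094a_d43_d53_d41_d2519 : GoodKC AS c_wQ_26_wN_1_rb8033094a_d43_d53_d41_d2519 := p_wQ_26_wN_1_rb8033094a_d43_d53_d41_d2519 g__wQ_26_wN_1_rb8033094a_d43_d53_d41_d2519_0

theorem g_wQ_26_wN_1_rb8033094a_d43_d53_d41_d2518 : GoodKC AS c_wQ_26_wN_1_rb8033094a_d43_d53_d41_d2518 := p_wQ_26_wN_1_rb8033094a_d43_d53_d41_d2518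

theorem g__wQ_26_wN_1_rb8033094a_d43_d53_d41_d2517_2 : GoodKC AS k_wQ_26_wN_1_rb8033094a_d43_d53_d41_d2517_2 := p_wQ_26_wN_1_rb8033094a_d43_d53_d41_d2517_2

theorem g__wQ_26_wN_1_rb8033094a_d43_d53_d41_d2517_1 : GoodKC AS k_wQ_26_wN_1_rb8033094a_d43_d53_d41_d2517_1 := p_wQ_26_wN_1_rb8033094a_d43_d53_d41_d2517_1 g__wQ_26_wN_1_rb8033094a_d43_d53_d41_d2517_2

theorem g__wQ_26_wN_1_rb8033094a_d43_d53_d41_d2517_3 : GoodKC AS k_wQ_26_wN_1_rb8033094a_d43_d53_d41_d2517_3 := p_wQ_26_wN_1_rb8033094a_d43_d53_d41_d2517_3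

theorem g__wQ_26_wN_1_rb8033094a_d43_d53_d41_d2517_0 : GoodKC AS k_wQ_26_wN_1_rb8033094a_d43_d53_d41_d2517_0 := p_wQ_26_wN_1_rb8033094a_d43_d53_d41_d2517_0 g__wQ_26_wN_1_rb8033094a_d43_d53_d41_d2517_1 g__wQ_26_wN_1_rb8033094a_d43_d53_d41_d2517_3

theorem g_wQ_26_wN_1_rb8033094a_d43_d53_d41_d2517 : GoodKC AS c_wQ_26_wN_1_rb8033094a_d43_d53_d41_d2517 := p_wQ_26_wN_1_rb8033094a_d43_d53_d41_d2517 g__wQ_26_wN_1_rb8033094a_d43_d53_d41_d2517_0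

theorem g_wQ_26_wN_1_rb8033094a_d43_d53_d41_d2514 : GoodKC AS c_wQ_26_wN_1_rb8033094a_d43_d53_d41_d2514 := p_wQ_26_wN_1_rb8033094a_d43_d53_d41_d2514

theorem g_wQ_26_wN_1_rb8033094a_d43_d53_d41_d2511 : GoodKC AS c_wQ_26_wN_1_rb8033094a_d43_d53_d41_d2511 := p_wQ_26_wN_1_rb8033094a_d43_d53_d41_d2511

theorem g_wQ_26_wN_1_rb8033094a_d43_d53_d41_d2510 : GoodKC AS c_wQ_26_wN_1_rb8033094a_d43_d53_d41_d2510 := p_wQ_26_wN_1_rb8033094a_d43_d53_d41_d2510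

theorem g_wQ_26_wN_1_rb8033094a_d43_d53_d41_d250f : GoodKC AS c_wQ_26_wN_1_rb8033094a_d43_d53_d41_d250f := p_wQ_26_wN_1_rb8033094a_d43_d53_d41_d250f

theorem g_wQ_26_wN_1_rb8033094a_d43_d53_d41_d250e : GoodKC AS c_wQ_26_wN_1_rb8033094a_d43_d53_d41_d250e := p_wQ_26_wN_1_rb8033094a_d43_d53_d41_d250e

theorem g__wQ_26_wN_1_rb8033094a_d43_d53_d41_d250d_0 : GoodKC AS k_wQ_26_wN_1_rb8033094a_d43_d53_d41_d250d_0 := p_wQ_26_wN_1_rb8033094a_d43_d53_d41_d250d_0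

theorem g_wQ_26_wN_1_rb8033094a_d43_d53_d41_d250d : GoodKC AS c_wQ_26_wN_1_rb8033094a_d43_d53_d41_d250d := p_wQ_26_wN_1_rb8033094a_d43_d53_d41_d250d g__wQ_26_wN_1_rb8033094a_d43_d53_d41_d250d_0

theorem g_wQ_26_wN_1_rb8033094a_d43_d53_d41_d2506 : GoodKC AS c_wQ_26_wN_1_rb8033094a_d43_d53_d41_d2506 := p_wQ_26_wN_1_rb8033094a_d43_d53_d41_d2506

theorem g_wQ_26_wN_1_rb8033094a_d43_d53_d41_d2503 : GoodKC AS c_wQ_26_wN_1_rb8033094a_d43_d53_d41_d2503 := p_wQ_26_wN_1_rb8033094a_d43_d53_d41_d2503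

theorem g__wQ_26_wN_1_rb8033094a_d43_d53_d41_d2502_5 : GoodKC AS k_wQ_26_wN_1_rb8033094a_d43_d53_d41_d2502_5 := p_wQ_26_wN_1_rb8033094a_d43_d53_d41_d2502_5

theorem g__wQ_26_wN_1_rb8033094a_d43_d53_d41_d2502_4 : GoodKC AS k_wQ_26_wN_1_rb8033094a_d43_d53_d41_d2502_4 := p_wQ_26_wN_1_rb8033094a_d43_d53_d41_d2502_4 g__wQ_26_wN_1_rb8033094a_d43_d53_d41_d2502_5

theorem g__wQ_26_wN_1_rb8033094a_d43_d53_d41_d2502_3 : GoodKC AS k_wQ_26_wN_1_rb8033094a_d43_d53_d41_d2502_3 := p_wQ_26_wN_1_rb8033094a_d43_d53_d41_d2502_3 g__wQ_26_wN_1_rb8033094a_d43_d53_d41_d2502_4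

theorem g__wQ_26_wN_1_rb8033094a_d43_d53_d41_d2502_6 : GoodKC AS k_wQ_26_wN_1_rb8033094a_d43_d53_d41_d2502_6 := p_wQ_26_wN_1_rb8033094a_d43_d53_d41_d2502_6

theorem g__wQ_26_wN_1_rb8033094a_d43_d53_d41_d2502_2 : GoodKC AS k_wQ_26_wN_1_rb8033094a_d43_d53_d41_d2502_2 := p_wQ_26_wN_1_rb8033094a_d43_d53_d41_d2502_2 g__wQ_26_wN_1_rb8033094a_d43_d53_d41_d2502_3 g__wQ_26_wN_1_rb8033094a_d43_d53_d41_d2502_6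

theorem g__wQ_26_wN_1_rb8033094a_d43_d53_d41_d2502_1 : GoodKC AS k_wQ_26_wN_1_rb8033094a_d43_d53_d41_d2502_1 := p_wQ_26_wN_1_rb8033094a_d43_d53_d41_d2502_1 g__wQ_26_wN_1_rb8033094a_d43_d53_d41_d2502_2

theorem g__wQ_26_wN_1_rb8033094a_d43_d53_d41_d2502_8 : GoodKC AS k_wQ_26_wN_1_rb8033094a_d43_d53_d41_d2502_8 := p_wQ_26_wN_1_rb8033094a_d43_d53_d41_d2502_8

theorem g__wQ_26_wN_1_rb8033094a_d43_d53_d41_d2502_7 : GoodKC AS k_wQ_26_wN_1_rb8033094a_d43_d53_d41_d2502_7 := p_wQ_26_wN_1_rb8033094a_d43_d53_d41_d2502_7 g__wQ_26_wN_1_rb8033094a_d43_d53_d41_d2502_8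

theorem g__wQ_26_wN_1_rb8033094a_d43_d53_d41_d2502_0 : GoodKC AS k_wQ_26_wN_1_rb8033094a_d43_d53_d41_d2502_0 := p_wQ_26_wN_1_rb8033094a_d43_d53_d41_d2502_0 g__wQ_26_wN_1_rb8033094a_d43_d53_d41_d2502_1 g__wQ_26_wN_1_rb8033094a_d43_d53_d41_d2502_7

theorem g_wQ_26_wN_1_rb8033094a_d43_d53_d41_d2502 : GoodKC AS c_wQ_26_wN_1_rb8033094a_d43_d53_d41_d2502 := p_wQ_26_wN_1_rb8033094a_d43_d53_d41_d2502 g__wQ_26_wN_1_rb8033094a_d43_d53_d41_d2502_0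

theorem g__wQ_26_wN_1_rb8033094a_d43_d53_d41_d2501v1_1 : GoodKC AS k_wQ_26_wN_1_rb8033094a_d43_d53_d41_d2501v1_1 := p_wQ_26_wN_1_rb8033094a_d43_d53_d41_d2501v1_1

theorem g__wQ_26_wN_1_rb8033094a_d43_d53_d41_d2501v1_2 : GoodKC AS k_wQ_26_wN_1_rb8033094a_d43_d53_d41_d2501v1_2 := p_wQ_26_wN_1_rb8033094a_d43_d53_d41_d2501v1_2

theorem g__wQ_26_wN_1_rb8033094a_d43_d53_d41_d2501v1_0 : GoodKC AS k_wQ_26_wN_1_rb8033094a_d43_d53_d41_d2501v1_0 := p_wQ_26_wN_1_rb8033094a_d43_d53_d41_d2501v1_0 g__wQ_26_wN_1_rb8033094a_d43_d53_d41_d2501v1_1 g__wQ_26_wN_1_rb8033094a_d43_d53_d41_d2501v1_2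

theorem g__wQ_26_wN_1_rb8033094a_d43_d53_d41_d2501v1_5 : GoodKC AS k_wQ_26_wN_1_rb8033094a_d43_d53_d41_d2501v1_5 := p_wQ_26_wN_1_rb8033094a_d43_d53_d41_d2501v1_5

theorem g__wQ_26_wN_1_rb8033094a_d43_d53_d41_d2501v1_4 : GoodKC AS k_wQ_26_wN_1_rb8033094a_d43_d53_d41_d2501v1_4 := p_wQ_26_wN_1_rb8033094a_d43_d53_d41_d2501v1_4 g__wQ_26_wN_1_rb8033094a_d43_d53_d41_d2501v1_5

theorem g__wQ_26_wN_1_rb8033094a_d43_d53_d41_d2501v1_3 : GoodKC AS k_wQ_26_wN_1_rb8033094a_d43_d53_d41_d2501v1_3 := p_wQ_26_wN_1_rb8033094a_d43_d53_d41_d2501v1_3 g__wQ_26_wN_1_rb8033094a_d43_d53_d41_d2501v1_4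

theorem g_wQ_26_wN_1_rb8033094a_d43_d53_d41_d2501 : GoodKC AS c_wQ_26_wN_1_rb8033094a_d43_d53_d41_d2501 := p_wQ_26_wN_1_rb8033094a_d43_d53_d41_d2501v1 g__wQ_26_wN_1_rb8033094a_d43_d53_d41_d2501v1_0 g__wQ_26_wN_1_rb8033094a_d43_d53_d41_d2501v1_3

theorem g_wQ_26_wN_1_rb8033094a_d43_d53_d41_d2504 : GoodKC AS c_wQ_26_wN_1_rb8033094a_d43_d53_d41_d2504 := p_wQ_26_wN_1_rb8033094a_d43_d53_d41_d2504

theorem g_wQ_26_wN_1_rb8033094a_d43_d53_d41_d2505 : GoodKC AS c_wQ_26_wN_1_rb8033094a_d43_d53_d41_d2505 := p_wQ_26_wN_1_rb8033094a_d43_d53_d41_d2505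

theorem g_wQ_26_wN_1_rb8033094a_d43_d53_d41_d2507 : GoodKC AS c_wQ_26_wN_1_rb8033094a_d43_d53_d41_d2507 := p_wQ_26_wN_1_rb8033094a_d43_d53_d41_d2507

theorem g_wQ_26_wN_1_rb8033094a_d43_d53_d41_d2508 : GoodKC AS c_wQ_26_wN_1_rb8033094a_d43_d53_d41_d2508 := p_wQ_26_wN_1_rb8033094a_d43_d53_d41_d2508

theorem g_wQ_26_wN_1_rb8033094a_d43_d53_d41_d2509 : GoodKC AS c_wQ_26_wN_1_rb8033094a_d43_d53_d41_d2509 := p_wQ_26_wN_1_rb8033094a_d43_d53_d41_d2509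

theorem g_wQ_26_wN_1_rb8033094a_d43_d53_d41_d250a : GoodKC AS c_wQ_26_wN_1_rb8033094a_d43_d53_d41_d250a := p_wQ_26_wN_1_rb8033094a_d43_d53_d41_d250a

theorem g__wQ_26_wN_1_rb8033094a_d43_d53_d41_d250bv1_0 : GoodKC AS k_wQ_26_wN_1_rb8033094a_d43_d53_d41_d250bv1_0 := p_wQ_26_wN_1_rb8033094a_d43_d53_d41_d250bv1_0

theorem g_wQ_26_wN_1_rb8033094a_d43_d53_d41_d250b : GoodKC AS c_wQ_26_wN_1_rb8033094a_d43_d53_d41_d250b := p_wQ_26_wN_1_rb8033094a_d43_d53_d41_d250bv1 g__wQ_26_wN_1_rb8033094a_d43_d53_d41_d250bv1_0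

theorem g_wQ_26_wN_1_rb8033094a_d43_d53_d41_d250c : GoodKC AS c_wQ_26_wN_1_rb8033094a_d43_d53_d41_d250c := p_wQ_26_wN_1_rb8033094a_d43_d53_d41_d250c

theorem g__wQ_26_wN_1_rb8033094a_d43_d53_d41_d25_1 : GoodKC AS k_wQ_26_wN_1_rb8033094a_d43_d53_d41_d25_1 := p_wQ_26_wN_1_rb8033094a_d43_d53_d41_d25_1

theorem g__wQ_26_wN_1_rb8033094a_d43_d53_d41_d25_0 : GoodKC AS k_wQ_26_wN_1_rb8033094a_d43_d53_d41_d25_0 := p_wQ_26_wN_1_rb8033094a_d43_d53_d41_d25_0 g__wQ_26_wN_1_rb8033094a_d43_d53_d41_d25_1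

theorem g__wQ_26_wN_1_rb8033094a_d43_d53_d41_d25_8 : GoodKC AS k_wQ_26_wN_1_rb8033094a_d43_d53_d41_d25_8 := p_wQ_26_wN_1_rb8033094a_d43_d53_d41_d25_8

theorem g__wQ_26_wN_1_rb8033094a_d43_d53_d41_d25_10 : GoodKC AS k_wQ_26_wN_1_rb8033094a_d43_d53_d41_d25_10 := p_wQ_26_wN_1_rb8033094a_d43_d53_d41_d25_10

theorem g__wQ_26_wN_1_rb8033094a_d43_d53_d41_d25_13 : GoodKC AS k_wQ_26_wN_1_rb8033094a_d43_d53_d41_d25_13 := p_wQ_26_wN_1_rb8033094a_d43_d53_d41_d25_13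

theorem g__wQ_26_wN_1_rb8033094a_d43_d53_d41_d2500_0 : GoodKC AS k_wQ_26_wN_1_rb8033094a_d43_d53_d41_d2500_0 := p_wQ_26_wN_1_rb8033094a_d43_d53_d41_d2500_0

theorem g_wQ_26_wN_1_rb8033094a_d43_d53_d41_d2500 : GoodKC AS c_wQ_26_wN_1_rb8033094a_d43_d53_d41_d2500 := p_wQ_26_wN_1_rb8033094a_d43_d53_d41_d2500 g__wQ_26_wN_1_rb8033094a_d43_d53_d41_d2500_0

theorem g__wQ_26_wN_1_rb8033094a_d43_d53_d41_d25_12 : GoodKC AS k_wQ_26_wN_1_rb8033094a_d43_d53_d41_d25_12 := p_wQ_26_wN_1_rb8033094a_d43_d53_d41_d25_12 g__wQ_26_wN_1_rb8033094a_d43_d53_d41_d25_13 g_wQ_26_wN_1_rb8033094a_d43_d53_d41_d2500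

theorem g__wQ_26_wN_1_rb8033094a_d43_d53_d41_d25_11 : GoodKC AS k_wQ_26_wN_1_rb8033094a_d43_d53_d41_d25_11 := p_wQ_26_wN_1_rb8033094a_d43_d53_d41_d25_11 g__wQ_26_wN_1_rb8033094a_d43_d53_d41_d25_12

theorem g__wQ_26_wN_1_rb8033094a_d43_d53_d41_d25_9 : GoodKC AS k_wQ_26_wN_1_rb8033094a_d43_d53_d41_d25_9 := p_wQ_26_wN_1_rb8033094a_d43_d53_d41_d25_9 g__wQ_26_wN_1_rb8033094a_d43_d53_d41_d25_10 g__wQ_26_wN_1_rb8033094a_d43_d53_d41_d25_11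

theorem g__wQ_26_wN_1_rb8033094a_d43_d53_d41_d25_7 : GoodKC AS k_wQ_26_wN_1_rb8033094a_d43_d53_d41_d25_7 := p_wQ_26_wN_1_rb8033094a_d43_d53_d41_d25_7 g__wQ_26_wN_1_rb8033094a_d43_d53_d41_d25_8 g__wQ_26_wN_1_rb8033094a_d43_d53_d41_d25_9

theorem g__wQ_26_wN_1_rb8033094a_d43_d53_d41_d25_6 : GoodKC AS k_wQ_26_wN_1_rb8033094a_d43_d53_d41_d25_6 := p_wQ_26_wN_1_rb8033094a_d43_d53_d41_d25_6 g__wQ_26_wN_1_rb8033094a_d43_d53_d41_d25_7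

theorem g__wQ_26_wN_1_rb8033094a_d43_d53_d41_d25_5 : GoodKC AS k_wQ_26_wN_1_rb8033094a_d43_d53_d41_d25_5 := p_wQ_26_wN_1_rb8033094a_d43_d53_d41_d25_5 g__wQ_26_wN_1_rb8033094a_d43_d53_d41_d25_6

theorem g__wQ_26_wN_1_rb8033094a_d43_d53_d41_d25_4 : GoodKC AS k_wQ_26_wN_1_rb8033094a_d43_d53_d41_d25_4 := p_wQ_26_wN_1_rb8033094a_d43_d53_d41_d25_4 g__wQ_26_wN_1_rb8033094a_d43_d53_d41_d25_5

theorem g__wQ_26_wN_1_rb8033094a_d43_d53_d41_d25_3 : GoodKC AS k_wQ_26_wN_1_rb8033094a_d43_d53_d41_d25_3 := p_wQ_26_wN_1_rb8033094a_d43_d53_d41_d25_3 g__wQ_26_wN_1_rb8033094a_d43_d53_d41_d25_4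

theorem g__wQ_26_wN_1_rb8033094a_d43_d53_d41_d25_17 : GoodKC AS k_wQ_26_wN_1_rb8033094a_d43_d53_d41_d25_17 := p_wQ_26_wN_1_rb8033094a_d43_d53_d41_d25_17

theorem g__wQ_26_wN_1_rb8033094a_d43_d53_d41_d25_19 : GoodKC AS k_wQ_26_wN_1_rb8033094a_d43_d53_d41_d25_19 := p_wQ_26_wN_1_rb8033094a_d43_d53_d41_d25_19

theorem g__wQ_26_wN_1_rb8033094a_d43_d53_d41_d25_18 : GoodKC AS k_wQ_26_wN_1_rb8033094a_d43_d53_d41_d25_18 := p_wQ_26_wN_1_rb8033094a_d43_d53_d41_d25_18 g__wQ_26_wN_1_rb8033094a_d43_d53_d41_d25_19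

theorem g__wQ_26_wN_1_rb8033094a_d43_d53_d41_d25_16 : GoodKC AS k_wQ_26_wN_1_rb8033094a_d43_d53_d41_d25_16 := p_wQ_26_wN_1_rb8033094a_d43_d53_d41_d25_16 g__wQ_26_wN_1_rb8033094a_d43_d53_d41_d25_17 g__wQ_26_wN_1_rb8033094a_d43_d53_d41_d25_18

theorem g__wQ_26_wN_1_rb8033094a_d43_d53_d41_d25_15 : GoodKC AS k_wQ_26_wN_1_rb8033094a_d43_d53_d41_d25_15 := p_wQ_26_wN_1_rb8033094a_d43_d53_d41_d25_15 g__wQ_26_wN_1_rb8033094a_d43_d53_d41_d25_16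

theorem g__wQ_26_wN_1_rb8033094a_d43_d53_d41_d25_21 : GoodKC AS k_wQ_26_wN_1_rb8033094a_d43_d53_d41_d25_21 := p_wQ_26_wN_1_rb8033094a_d43_d53_d41_d25_21

theorem g__wQ_26_wN_1_rb8033094a_d43_d53_d41_d25_22 : GoodKC AS k_wQ_26_wN_1_rb8033094a_d43_d53_d41_d25_22 := p_wQ_26_wN_1_rb8033094a_d43_d53_d41_d25_22

theorem g__wQ_26_wN_1_rb8033094a_d43_d53_d41_d25_20 : GoodKC AS k_wQ_26_wN_1_rb8033094a_d43_d53_d41_d25_20 := p_wQ_26_wN_1_rb8033094a_d43_d53_d41_d25_20 g__wQ_26_wN_1_rb8033094a_d43_d53_d41_d25_21 g__wQ_26_wN_1_rb8033094a_d43_d53_d41_d25_22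

theorem g__wQ_26_wN_1_rb8033094a_d43_d53_d41_d25_14 : GoodKC AS k_wQ_26_wN_1_rb8033094a_d43_d53_d41_d25_14 := p_wQ_26_wN_1_rb8033094a_d43_d53_d41_d25_14 g__wQ_26_wN_1_rb8033094a_d43_d53_d41_d25_15 g__wQ_26_wN_1_rb8033094a_d43_d53_d41_d25_20

theorem g__wQ_26_wN_1_rb8033094a_d43_d53_d41_d25_2 : GoodKC AS k_wQ_26_wN_1_rb8033094a_d43_d53_d41_d25_2 := p_wQ_26_wN_1_rb8033094a_d43_d53_d41_d25_2 g__wQ_26_wN_1_rb8033094a_d43_d53_d41_d25_3 g__wQ_26_wN_1_rb8033094a_d43_d53_d41_d25_14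

theorem g_wQ_26_wN_1_rb8033094a_d43_d53_d41_d2512 : GoodKC AS c_wQ_26_wN_1_rb8033094a_d43_d53_d41_d2512 := p_wQ_26_wN_1_rb8033094a_d43_d53_d41_d2512

theorem g__wQ_26_wN_1_rb8033094a_d43_d53_d41_d2513_2 : GoodKC AS k_wQ_26_wN_1_rb8033094a_d43_d53_d41_d2513_2 := p_wQ_26_wN_1_rb8033094a_d43_d53_d41_d2513_2

theorem g__wQ_26_wN_1_rb8033094a_d43_d53_d41_d2513_1 : GoodKC AS k_wQ_26_wN_1_rb8033094a_d43_d53_d41_d2513_1 := p_wQ_26_wN_1_rb8033094a_d43_d53_d41_d2513_1 g__wQ_26_wN_1_rb8033094a_d43_d53_d41_d2513_2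

theorem g__wQ_26_wN_1_rb8033094a_d43_d53_d41_d2513_7 : GoodKC AS k_wQ_26_wN_1_rb8033094a_d43_d53_d41_d2513_7 := p_wQ_26_wN_1_rb8033094a_d43_d53_d41_d2513_7

theorem g__wQ_26_wN_1_rb8033094a_d43_d53_d41_d2513_6 : GoodKC AS k_wQ_26_wN_1_rb8033094a_d43_d53_d41_d2513_6 := p_wQ_26_wN_1_rb8033094a_d43_d53_d41_d2513_6 g__wQ_26_wN_1_rb8033094a_d43_d53_d41_d2513_7

theorem g__wQ_26_wN_1_rb8033094a_d43_d53_d41_d2513_10 : GoodKC AS k_wQ_26_wN_1_rb8033094a_d43_d53_d41_d2513_10 := p_wQ_26_wN_1_rb8033094a_d43_d53_d41_d2513_10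

theorem g__wQ_26_wN_1_rb8033094a_d43_d53_d41_d2513_14 : GoodKC AS k_wQ_26_wN_1_rb8033094a_d43_d53_d41_d2513_14 := p_wQ_26_wN_1_rb8033094a_d43_d53_d41_d2513_14

theorem g__wQ_26_wN_1_rb8033094a_d43_d53_d41_d2513_13 : GoodKC AS k_wQ_26_wN_1_rb8033094a_d43_d53_d41_d2513_13 := p_wQ_26_wN_1_rb8033094a_d43_d53_d41_d2513_13 g__wQ_26_wN_1_rb8033094a_d43_d53_d41_d2513_14

theorem g__wQ_26_wN_1_rb8033094a_d43_d53_d41_d2513_12 : GoodKC AS k_wQ_26_wN_1_rb8033094a_d43_d53_d41_d2513_12 := p_wQ_26_wN_1_rb8033094a_d43_d53_d41_d2513_12 g__wQ_26_wN_1_rb8033094a_d43_d53_d41_d2513_13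

theorem g__wQ_26_wN_1_rb8033094a_d43_d53_d41_d2513_11 : GoodKC AS k_wQ_26_wN_1_rb8033094a_d43_d53_d41_d2513_11 := p_wQ_26_wN_1_rb8033094a_d43_d53_d41_d2513_11 g__wQ_26_wN_1_rb8033094a_d43_d53_d41_d2513_12

theorem g__wQ_26_wN_1_rb8033094a_d43_d53_d41_d2513_9 : GoodKC AS k_wQ_26_wN_1_rb8033094a_d43_d53_d41_d2513_9 := p_wQ_26_wN_1_rb8033094a_d43_d53_d41_d2513_9 g__wQ_26_wN_1_rb8033094a_d43_d53_d41_d2513_10 g__wQ_26_wN_1_rb8033094a_d43_d53_d41_d2513_11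

theorem g__wQ_26_wN_1_rb8033094a_d43_d53_d41_d2513_8 : GoodKC AS k_wQ_26_wN_1_rb8033094a_d43_d53_d41_d2513_8 := p_wQ_26_wN_1_rb8033094a_d43_d53_d41_d2513_8 g__wQ_26_wN_1_rb8033094a_d43_d53_d41_d2513_9

theorem g__wQ_26_wN_1_rb8033094a_d43_d53_d41_d2513_5 : GoodKC AS k_wQ_26_wN_1_rb8033094a_d43_d53_d41_d2513_5 := p_wQ_26_wN_1_rb8033094a_d43_d53_d41_d2513_5 g__wQ_26_wN_1_rb8033094a_d43_d53_d41_d2513_6 g__wQ_26_wN_1_rb8033094a_d43_d53_d41_d2513_8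

theorem g__wQ_26_wN_1_rb8033094a_d43_d53_d41_d2513_4 : GoodKC AS k_wQ_26_wN_1_rb8033094a_d43_d53_d41_d2513_4 := p_wQ_26_wN_1_rb8033094a_d43_d53_d41_d2513_4 g__wQ_26_wN_1_rb8033094a_d43_d53_d41_d2513_5

theorem g__wQ_26_wN_1_rb8033094a_d43_d53_d41_d2513_3 : GoodKC AS k_wQ_26_wN_1_rb8033094a_d43_d53_d41_d2513_3 := p_wQ_26_wN_1_rb8033094a_d43_d53_d41_d2513_3 g__wQ_26_wN_1_rb8033094a_d43_d53_d41_d2513_4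

theorem g__wQ_26_wN_1_rb8033094a_d43_d53_d41_d2513_0 : GoodKC AS k_wQ_26_wN_1_rb8033094a_d43_d53_d41_d2513_0 := p_wQ_26_wN_1_rb8033094a_d43_d53_d41_d2513_0 g__wQ_26_wN_1_rb8033094a_d43_d53_d41_d2513_1 g__wQ_26_wN_1_rb8033094a_d43_d53_d41_d2513_3

theorem g_wQ_26_wN_1_rb8033094a_d43_d53_d41_d2513 : GoodKC AS c_wQ_26_wN_1_rb8033094a_d43_d53_d41_d2513 := p_wQ_26_wN_1_rb8033094a_d43_d53_d41_d2513 g__wQ_26_wN_1_rb8033094a_d43_d53_d41_d2513_0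

theorem g_wQ_26_wN_1_rb8033094a_d43_d53_d41_d2515_d51_d12 : GoodKC AS c_wQ_26_wN_1_rb8033094a_d43_d53_d41_d2515_d51_d12 := p_wQ_26_wN_1_rb8033094a_d43_d53_d41_d2515_d51_d12

theorem g_wQ_26_wN_1_rb8033094a_d43_d53_d41_d2515_d51_d11 : GoodKC AS c_wQ_26_wN_1_rb8033094a_d43_d53_d41_d2515_d51_d11 := p_wQ_26_wN_1_rb8033094a_d43_d53_d41_d2515_d51_d11

theorem g__wQ_26_wN_1_rb8033094a_d43_d53_d41_d2515_d51_d10_0 : GoodKC AS k_wQ_26_wN_1_rb8033094a_d43_d53_d41_d2515_d51_d10_0 := p_wQ_26_wN_1_rb8033094a_d43_d53_d41_d2515_d51_d10_0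

theorem g_wQ_26_wN_1_rb8033094a_d43_d53_d41_d2515_d51_d10 : GoodKC AS c_wQ_26_wN_1_rb8033094a_d43_d53_d41_d2515_d51_d10 := p_wQ_26_wN_1_rb8033094a_d43_d53_d41_d2515_d51_d10 g__wQ_26_wN_1_rb8033094a_d43_d53_d41_d2515_d51_d10_0

theorem g_wQ_26_wN_1_rb8033094a_d43_d53_d41_d2515_d51_d0e : GoodKC AS c_wQ_26_wN_1_rb8033094a_d43_d53_d41_d2515_d51_d0e := p_wQ_26_wN_1_rb8033094a_d43_d53_d41_d2515_d51_d0e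

theorem g_wQ_26_wN_1_rb8033094a_d43_d53_d41_d2515_d51_d0d : GoodKC AS c_wQ_26_wN_1_rb8033094a_d43_d53_d41_d2515_d51_d0d := p_wQ_26_wN_1_rb8033094a_d43_d53_d41_d2515_d51_d0d

theorem g_wQ_26_wN_1_rb8033094a_d43_d53_d41_d2515_d51_d0c : GoodKC AS c_wQ_26_wN_1_rb8033094a_d43_d53_d41_d2515_d51_d0c := p_wQ_26_wN_1_rb8033094a_d43_d53_d41_d2515_d51_d0c

theorem g_wQ_26_wN_1_rb8033094a_d43_d53_d41_d2515_d51_d09 : GoodKC AS c_wQ_26_wN_1_rb8033094a_d43_d53_d41_d2515_d51_d09 := p_wQ_26_wN_1_rb8033094a_d43_d53_d41_d2515_d51_d09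

theorem g_wQ_26_wN_1_rb8033094a_d43_d53_d41_d2515_d51_d08 : GoodKC AS c_wQ_26_wN_1_rb8033094a_d43_d53_d41_d2515_d51_d08 := p_wQ_26_wN_1_rb8033094a_d43_d53_d41_d2515_d51_d08

theorem g_wQ_26_wN_1_rb8033094a_d43_d53_d41_d2515_d51_d07 : GoodKC AS c_wQ_26_wN_1_rb8033094a_d43_d53_d41_d2515_d51_d07 := p_wQ_26_wN_1_rb8033094a_d43_d53_d41_d2515_d51_d07

theorem g_wQ_26_wN_1_rb8033094a_d43_d53_d41_d2515_d51_d04 : GoodKC AS c_wQ_26_wN_1_rb8033094a_d43_d53_d41_d2515_d51_d04 := p_wQ_26_wN_1_rb8033094a_d43_d53_d41_d2515_d51_d04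

theorem g__wQ_26_wN_1_rb8033094a_d43_d53_d41_d2515_d51_d02v1_3 : GoodKC AS k_wQ_26_wN_1_rb8033094a_d43_d53_d41_d2515_d51_d02v1_3 := p_wQ_26_wN_1_rb8033094a_d43_d53_d41_d2515_d51_d02v1_3

theorem g__wQ_26_wN_1_rb8033094a_d43_d53_d41_d2515_d51_d02v1_2 : GoodKC AS k_wQ_26_wN_1_rb8033094a_d43_d53_d41_d2515_d51_d02v1_2 := p_wQ_26_wN_1_rb8033094a_d43_d53_d41_d2515_d51_d02v1_2 g__wQ_26_wN_1_rb8033094a_d43_d53_d41_d2515_d51_d02v1_3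

theorem g__wQ_26_wN_1_rb8033094a_d43_d53_d41_d2515_d51_d02v1_5 : GoodKC AS k_wQ_26_wN_1_rb8033094a_d43_d53_d41_d2515_d51_d02v1_5 := p_wQ_26_wN_1_rb8033094a_d43_d53_d41_d2515_d51_d02v1_5

theorem g__wQ_26_wN_1_rb8033094a_d43_d53_d41_d2515_d51_d02v1_4 : GoodKC AS k_wQ_26_wN_1_rb8033094a_d43_d53_d41_d2515_d51_d02v1_4 := p_wQ_26_wN_1_rb8033094a_d43_d53_d41_d2515_d51_d02v1_4 g__wQ_26_wN_1_rb8033094a_d43_d53_d41_d2515_d51_d02v1_5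

theorem g__wQ_26_wN_1_rb8033094a_d43_d53_d41_d2515_d51_d02v1_1 : GoodKC AS k_wQ_26_wN_1_rb8033094a_d43_d53_d41_d2515_d51_d02v1_1 := p_wQ_26_wN_1_rb8033094a_d43_d53_d41_d2515_d51_d02v1_1 g__wQ_26_wN_1_rb8033094a_d43_d53_d41_d2515_d51_d02v1_2 g__wQ_26_wN_1_rb8033094a_d43_d53_d41_d2515_d51_d02v1_4

theorem g__wQ_26_wN_1_rb8033094a_d43_d53_d41_d2515_d51_d02v1_0 : GoodKC AS k_wQ_26_wN_1_rb8033094a_d43_d53_d41_d2515_d51_d02v1_0 := p_wQ_26_wN_1_rb8033094a_d43_d53_d41_d2515_d51_d02v1_0 g__wQ_26_wN_1_rb8033094a_d43_d53_d41_d2515_d51_d02v1_1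

theorem g__wQ_26_wN_1_rb8033094a_d43_d53_d41_d2515_d51_d02v1_9 : GoodKC AS k_wQ_26_wN_1_rb8033094a_d43_d53_d41_d2515_d51_d02v1_9 := p_wQ_26_wN_1_rb8033094a_d43_d53_d41_d2515_d51_d02v1_9

theorem g__wQ_26_wN_1_rb8033094a_d43_d53_d41_d2515_d51_d02v1_8 : GoodKC AS k_wQ_26_wN_1_rb8033094a_d43_d53_d41_d2515_d51_d02v1_8 := p_wQ_26_wN_1_rb8033094a_d43_d53_d41_d2515_d51_d02v1_8 g__wQ_26_wN_1_rb8033094a_d43_d53_d41_d2515_d51_d02v1_9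

theorem g__wQ_26_wN_1_rb8033094a_d43_d53_d41_d2515_d51_d02v1_12 : GoodKC AS k_wQ_26_wN_1_rb8033094a_d43_d53_d41_d2515_d51_d02v1_12 := p_wQ_26_wN_1_rb8033094a_d43_d53_d41_d2515_d51_d02v1_12

theorem g__wQ_26_wN_1_rb8033094a_d43_d53_d41_d2515_d51_d02v1_11 : GoodKC AS k_wQ_26_wN_1_rb8033094a_d43_d53_d41_d2515_d51_d02v1_11 := p_wQ_26_wN_1_rb8033094a_d43_d53_d41_d2515_d51_d02v1_11 g__wQ_26_wN_1_rb8033094a_d43_d53_d41_d2515_d51_d02v1_12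

theorem g__wQ_26_wN_1_rb8033094a_d43_d53_d41_d2515_d51_d02v1_10 : GoodKC AS k_wQ_26_wN_1_rb8033094a_d43_d53_d41_d2515_d51_d02v1_10 := p_wQ_26_wN_1_rb8033094a_d43_d53_d41_d2515_d51_d02v1_10 g__wQ_26_wN_1_rb8033094a_d43_d53_d41_d2515_d51_d02v1_11

theorem g__wQ_26_wN_1_rb8033094a_d43_d53_d41_d2515_d51_d02v1_7 : GoodKC AS k_wQ_26_wN_1_rb8033094a_d43_d53_d41_d2515_d51_d02v1_7 := p_wQ_26_wN_1_rb8033094a_d43_d53_d41_d2515_d51_d02v1_7 g__wQ_26_wN_1_rb8033094a_d43_d53_d41_d2515_d51_d02v1_8 g__wQ_26_wN_1_rb8033094a_d43_d53_d41_d2515_d51_d02v1_10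

theorem g__wQ_26_wN_1_rb8033094a_d43_d53_d41_d2515_d51_d02v1_14 : GoodKC AS k_wQ_26_wN_1_rb8033094a_d43_d53_d41_d2515_d51_d02v1_14 := p_wQ_26_wN_1_rb8033094a_d43_d53_d41_d2515_d51_d02v1_14

theorem g__wQ_26_wN_1_rb8033094a_d43_d53_d41_d2515_d51_d02v1_20 : GoodKC AS k_wQ_26_wN_1_rb8033094a_d43_d53_d41_d2515_d51_d02v1_20 := p_wQ_26_wN_1_rb8033094a_d43_d53_d41_d2515_d51_d02v1_20

theorem g__wQ_26_wN_1_rb8033094a_d43_d53_d41_d2515_d51_d02v1_19 : GoodKC AS k_wQ_26_wN_1_rb8033094a_d43_d53_d41_d2515_d51_d02v1_19 := p_wQ_26_wN_1_rb8033094a_d43_d53_d41_d2515_d51_d02v1_19 g__wQ_26_wN_1_rb8033094a_d43_d53_d41_d2515_d51_d02v1_20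

theorem g__wQ_26_wN_1_rb8033094a_d43_d53_d41_d2515_d51_d02v1_18 : GoodKC AS k_wQ_26_wN_1_rb8033094a_d43_d53_d41_d2515_d51_d02v1_18 := p_wQ_26_wN_1_rb8033094a_d43_d53_d41_d2515_d51_d02v1_18 g__wQ_26_wN_1_rb8033094a_d43_d53_d41_d2515_d51_d02v1_19

theorem g__wQ_26_wN_1_rb8033094a_d43_d53_d41_d2515_d51_d02v1_17 : GoodKC AS k_wQ_26_wN_1_rb8033094a_d43_d53_d41_d2515_d51_d02v1_17 := p_wQ_26_wN_1_rb8033094a_d43_d53_d41_d2515_d51_d02v1_17 g__wQ_26_wN_1_rb8033094a_d43_d53_d41_d2515_d51_d02v1_18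

theorem g__wQ_26_wN_1_rb8033094a_d43_d53_d41_d2515_d51_d02v1_22 : GoodKC AS k_wQ_26_wN_1_rb8033094a_d43_d53_d41_d2515_d51_d02v1_22 := p_wQ_26_wN_1_rb8033094a_d43_d53_d41_d2515_d51_d02v1_22

theorem g__wQ_26_wN_1_rb8033094a_d43_d53_d41_d2515_d51_d02v1_21 : GoodKC AS k_wQ_26_wN_1_rb8033094a_d43_d53_d41_d2515_d51_d02v1_21 := p_wQ_26_wN_1_rb8033094a_d43_d53_d41_d2515_d51_d02v1_21 g__wQ_26_wN_1_rb8033094a_d43_d53_d41_d2515_d51_d02v1_22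

theorem g__wQ_26_wN_1_rb8033094a_d43_d53_d41_d2515_d51_d02v1_16 : GoodKC AS k_wQ_26_wN_1_rb8033094a_d43_d53_d41_d2515_d51_d02v1_16 := p_wQ_26_wN_1_rb8033094a_d43_d53_d41_d2515_d51_d02v1_16 g__wQ_26_wN_1_rb8033094a_d43_d53_d41_d2515_d51_d02v1_17 g__wQ_26_wN_1_rb8033094a_d43_d53_d41_d2515_d51_d02v1_21

theorem g__wQ_26_wN_1_rb8033094a_d43_d53_d41_d2515_d51_d02v1_28 : GoodKC AS k_wQ_26_wN_1_rb8033094a_d43_d53_d41_d2515_d51_d02v1_28 := p_wQ_26_wN_1_rb8033094a_d43_d53_d41_d2515_d51_d02v1_28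

theorem g__wQ_26_wN_1_rb8033094a_d43_d53_d41_d2515_d51_d02v1_27 : GoodKC AS k_wQ_26_wN_1_rb8033094a_d43_d53_d41_d2515_d51_d02v1_27 := p_wQ_26_wN_1_rb8033094a_d43_d53_d41_d2515_d51_d02v1_27 g__wQ_26_wN_1_rb8033094a_d43_d53_d41_d2515_d51_d02v1_28

theorem g__wQ_26_wN_1_rb8033094a_d43_d53_d41_d2515_d51_d02v1_26 : GoodKC AS k_wQ_26_wN_1_rb8033094a_d43_d53_d41_d2515_d51_d02v1_26 := p_wQ_26_wN_1_rb8033094a_d43_d53_d41_d2515_d51_d02v1_26 g__wQ_26_wN_1_rb8033094a_d43_d53_d41_d2515_d51_d02v1_27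

theorem g__wQ_26_wN_1_rb8033094a_d43_d53_d41_d2515_d51_d02v1_25 : GoodKC AS k_wQ_26_wN_1_rb8033094a_d43_d53_d41_d2515_d51_d02v1_25 := p_wQ_26_wN_1_rb8033094a_d43_d53_d41_d2515_d51_d02v1_25 g__wQ_26_wN_1_rb8033094a_d43_d53_d41_d2515_d51_d02v1_26

theorem g__wQ_26_wN_1_rb8033094a_d43_d53_d41_d2515_d51_d02v1_24 : GoodKC AS k_wQ_26_wN_1_rb8033094a_d43_d53_d41_d2515_d51_d02v1_24 := p_wQ_26_wN_1_rb8033094a_d43_d53_d41_d2515_d51_d02v1_24 g__wQ_26_wN_1_rb8033094a_d43_d53_d41_d2515_d51_d02v1_25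

theorem g__wQ_26_wN_1_rb8033094a_d43_d53_d41_d2515_d51_d02v1_23 : GoodKC AS k_wQ_26_wN_1_rb8033094a_d43_d53_d41_d2515_d51_d02v1_23 := p_wQ_26_wN_1_rb8033094a_d43_d53_d41_d2515_d51_d02v1_23 g__wQ_26_wN_1_rb8033094a_d43_d53_d41_d2515_d51_d02v1_24

theorem g__wQ_26_wN_1_rb8033094a_d43_d53_d41_d2515_d51_d02v1_15 : GoodKC AS k_wQ_26_wN_1_rb8033094a_d43_d53_d41_d2515_d51_d02v1_15 := p_wQ_26_wN_1_rb8033094a_d43_d53_d41_d2515_d51_d02v1_15 g__wQ_26_wN_1_rb8033094a_d43_d53_d41_d2515_d51_d02v1_16 g__wQ_26_wN_1_rb8033094a_d43_d53_d41_d2515_d51_d02v1_23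

theorem g__wQ_26_wN_1_rb8033094a_d43_d53_d41_d2515_d51_d02v1_13 : GoodKC AS k_wQ_26_wN_1_rb8033094a_d43_d53_d41_d2515_d51_d02v1_13 := p_wQ_26_wN_1_rb8033094a_d43_d53_d41_d2515_d51_d02v1_13 g__wQ_26_wN_1_rb8033094a_d43_d53_d41_d2515_d51_d02v1_14 g__wQ_26_wN_1_rb8033094a_d43_d53_d41_d2515_d51_d02v1_15

theorem g__wQ_26_wN_1_rb8033094a_d43_d53_d41_d2515_d51_d02v1_6 : GoodKC AS k_wQ_26_wN_1_rb8033094a_d43_d53_d41_d2515_d51_d02v1_6 := p_wQ_26_wN_1_rb8033094a_d43_d53_d41_d2515_d51_d02v1_6 g__wQ_26_wN_1_rb8033094a_d43_d53_d41_d2515_d51_d02v1_7 g__wQ_26_wN_1_rb8033094a_d43_d53_d41_d2515_d51_d02v1_13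

theorem g_wQ_26_wN_1_rb8033094a_d43_d53_d41_d2515_d51_d02 : GoodKC AS c_wQ_26_wN_1_rb8033094a_d43_d53_d41_d2515_d51_d02 := p_wQ_26_wN_1_rb8033094a_d43_d53_d41_d2515_d51_d02v1 g__wQ_26_wN_1_rb8033094a_d43_d53_d41_d2515_d51_d02v1_0 g__wQ_26_wN_1_rb8033094a_d43_d53_d41_d2515_d51_d02v1_6

theorem g__wQ_26_wN_1_rb8033094a_d43_d53_d41_d2515_d51_d00_3 : GoodKC AS k_wQ_26_wN_1_rb8033094a_d43_d53_d41_d2515_d51_d00_3 := p_wQ_26_wN_1_rb8033094a_d43_d53_d41_d2515_d51_d00_3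

theorem g__wQ_26_wN_1_rb8033094a_d43_d53_d41_d2515_d51_d00_10 : GoodKC AS k_wQ_26_wN_1_rb8033094a_d43_d53_d41_d2515_d51_d00_10 := p_wQ_26_wN_1_rb8033094a_d43_d53_d41_d2515_d51_d00_10

theorem g__wQ_26_wN_1_rb8033094a_d43_d53_d41_d2515_d51_d00_9 : GoodKC AS k_wQ_26_wN_1_rb8033094a_d43_d53_d41_d2515_d51_d00_9 := p_wQ_26_wN_1_rb8033094a_d43_d53_d41_d2515_d51_d00_9 g__wQ_26_wN_1_rb8033094a_d43_d53_d41_d2515_d51_d00_10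

theorem g__wQ_26_wN_1_rb8033094a_d43_d53_d41_d2515_d51_d00_8 : GoodKC AS k_wQ_26_wN_1_rb8033094a_d43_d53_d41_d2515_d51_d00_8 := p_wQ_26_wN_1_rb8033094a_d43_d53_d41_d2515_d51_d00_8 g__wQ_26_wN_1_rb8033094a_d43_d53_d41_d2515_d51_d00_9

theorem g__wQ_26_wN_1_rb8033094a_d43_d53_d41_d2515_d51_d00_7 : GoodKC AS k_wQ_26_wN_1_rb8033094a_d43_d53_d41_d2515_d51_d00_7 := p_wQ_26_wN_1_rb8033094a_d43_d53_d41_d2515_d51_d00_7 g__wQ_26_wN_1_rb8033094a_d43_d53_d41_d2515_d51_d00_8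

theorem g__wQ_26_wN_1_rb8033094a_d43_d53_d41_d2515_d51_d00_6 : GoodKC AS k_wQ_26_wN_1_rb8033094a_d43_d53_d41_d2515_d51_d00_6 := p_wQ_26_wN_1_rb8033094a_d43_d53_d41_d2515_d51_d00_6 g__wQ_26_wN_1_rb8033094a_d43_d53_d41_d2515_d51_d00_7

theorem g__wQ_26_wN_1_rb8033094a_d43_d53_d41_d2515_d51_d00_5 : GoodKC AS k_wQ_26_wN_1_rb8033094a_d43_d53_d41_d2515_d51_d00_5 := p_wQ_26_wN_1_rb8033094a_d43_d53_d41_d2515_d51_d00_5 g__wQ_26_wN_1_rb8033094a_d43_d53_d41_d2515_d51_d00_6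

theorem g__wQ_26_wN_1_rb8033094a_d43_d53_d41_d2515_d51_d00_11 : GoodKC AS k_wQ_26_wN_1_rb8033094a_d43_d53_d41_d2515_d51_d00_11 := p_wQ_26_wN_1_rb8033094a_d43_d53_d41_d2515_d51_d00_11

theorem g__wQ_26_wN_1_rb8033094a_d43_d53_d41_d2515_d51_d00_4 : GoodKC AS k_wQ_26_wN_1_rb8033094a_d43_d53_d41_d2515_d51_d00_4 := p_wQ_26_wN_1_rb8033094a_d43_d53_d41_d2515_d51_d00_4 g__wQ_26_wN_1_rb8033094a_d43_d53_d41_d2515_d51_d00_5 g__wQ_26_wN_1_rb8033094a_d43_d53_d41_d2515_d51_d00_11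

theorem g__wQ_26_wN_1_rb8033094a_d43_d53_d41_d2515_d51_d00_2 : GoodKC AS k_wQ_26_wN_1_rb8033094a_d43_d53_d41_d2515_d51_d00_2 := p_wQ_26_wN_1_rb8033094a_d43_d53_d41_d2515_d51_d00_2 g__wQ_26_wN_1_rb8033094a_d43_d53_d41_d2515_d51_d00_3 g__wQ_26_wN_1_rb8033094a_d43_d53_d41_d2515_d51_d00_4

theorem g__wQ_26_wN_1_rb8033094a_d43_d53_d41_d2515_d51_d00_1 : GoodKC AS k_wQ_26_wN_1_rb8033094a_d43_d53_d41_d2515_d51_d00_1 := p_wQ_26_wN_1_rb8033094a_d43_d53_d41_d2515_d51_d00_1 g__wQ_26_wN_1_rb8033094a_d43_d53_d41_d2515_d51_d00_2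

theorem g__wQ_26_wN_1_rb8033094a_d43_d53_d41_d2515_d51_d00_0 : GoodKC AS k_wQ_26_wN_1_rb8033094a_d43_d53_d41_d2515_d51_d00_0 := p_wQ_26_wN_1_rb8033094a_d43_d53_d41_d2515_d51_d00_0 g__wQ_26_wN_1_rb8033094a_d43_d53_d41_d2515_d51_d00_1

theorem g_wQ_26_wN_1_rb8033094a_d43_d53_d41_d2515_d51_d00 : GoodKC AS c_wQ_26_wN_1_rb8033094a_d43_d53_d41_d2515_d51_d00 := p_wQ_26_wN_1_rb8033094a_d43_d53_d41_d2515_d51_d00 g__wQ_26_wN_1_rb8033094a_d43_d53_d41_d2515_d51_d00_0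

theorem g_wQ_26_wN_1_rb8033094a_d43_d53_d41_d2515_d51_d01 : GoodKC AS c_wQ_26_wN_1_rb8033094a_d43_d53_d41_d2515_d51_d01 := p_wQ_26_wN_1_rb8033094a_d43_d53_d41_d2515_d51_d01

theorem g_wQ_26_wN_1_rb8033094a_d43_d53_d41_d2515_d51_d03 : GoodKC AS c_wQ_26_wN_1_rb8033094a_d43_d53_d41_d2515_d51_d03 := p_wQ_26_wN_1_rb8033094a_d43_d53_d41_d2515_d51_d03

theorem g_wQ_26_wN_1_rb8033094a_d43_d53_d41_d2515_d51_d05 : GoodKC AS c_wQ_26_wN_1_rb8033094a_d43_d53_d41_d2515_d51_d05 := p_wQ_26_wN_1_rb8033094a_d43_d53_d41_d2515_d51_d05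

theorem g_wQ_26_wN_1_rb8033094a_d43_d53_d41_d2515_d51_d06 : GoodKC AS c_wQ_26_wN_1_rb8033094a_d43_d53_d41_d2515_d51_d06 := p_wQ_26_wN_1_rb8033094a_d43_d53_d41_d2515_d51_d06

theorem g_wQ_26_wN_1_rb8033094a_d43_d53_d41_d2515_d51_d0a : GoodKC AS c_wQ_26_wN_1_rb8033094a_d43_d53_d41_d2515_d51_d0a := p_wQ_26_wN_1_rb8033094a_d43_d53_d41_d2515_d51_d0a

theorem g_wQ_26_wN_1_rb8033094a_d43_d53_d41_d2515_d51_d0b : GoodKC AS c_wQ_26_wN_1_rb8033094a_d43_d53_d41_d2515_d51_d0b := p_wQ_26_wN_1_rb8033094a_d43_d53_d41_d2515_d51_d0b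

theorem g_wQ_26_wN_1_rb8033094a_d43_d53_d41_d2515_d51_d0f : GoodKC AS c_wQ_26_wN_1_rb8033094a_d43_d53_d41_d2515_d51_d0f := p_wQ_26_wN_1_rb8033094a_d43_d53_d41_d2515_d51_d0f

theorem g_wQ_26_wN_1_rb8033094a_d43_d53_d41_d2515 : GoodKC AS c_wQ_26_wN_1_rb8033094a_d43_d53_d41_d2515 := p_wQ_26_wN_1_rb8033094a_d43_d53_d41_d2515 g_wQ_26_wN_1_rb8033094a_d43_d53_d41_d2515_d51_d12 g_wQ_26_wN_1_rb8033094a_d43_d53_d41_d2515_d51_d11 g_wQ_26_wN_1_rb8033094a_d43_d53_d41_d2515_d51_d10 g_wQ_26_wN_1_rb8033094a_d43_d53_d41_d2515_d51_d0e g_wQ_26_wN_1_rb8033094a_d43_d53_d41_d2515_d51_d0d g_wQ_26_wN_1_rb8033094a_d43_d53_d41_d2515_d51_d0c g_wQ_26_wN_1_rb8033094a_d43_d53_d41_d2515_d51_d09 g_wQ_26_wN_1_rb8033094a_d43_d53_d41_d2515_d51_d08 g_wQ_26_wN_1_rb8033094a_d43_d53_d41_d2515_d51_d07 g_wQ_26_wN_1_rb8033094a_d43_d53_d41_d2515_d51_d04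 g_wQ_26_wN_1_rb8033094a_d43_d53_d41_d2515_d51_d02 g_wQ_26_wN_1_rb8033094a_d43_d53_d41_d2515_d51_d00 g_wQ_26_wN_1_rb8033094a_d43_d53_d41_d2515_d51_d01 g_wQ_26_wN_1_rb8033094a_d43_d53_d41_d2515_d51_d03 g_wQ_26_wN_1_rb8033094a_d43_d53_d41_d2515_d51_d05 g_wQ_26_wN_1_rb8033094a_d43_d53_d41_d2515_d51_d06 g_wQ_26_wN_1_rb8033094a_d43_d53_d41_d2515_d51_d0a g_wQ_26_wN_1_rb8033094a_d43_d53_d41_d2515_d51_d0b g_wQ_26_wN_1_rb8033094a_d43_d53_d41_d2515_d51_d0f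

theorem g_wQ_26_wN_1_rb8033094a_d43_d53_d41_d2516 : GoodKC AS c_wQ_26_wN_1_rb8033094a_d43_d53_d41_d2516 := p_wQ_26_wN_1_rb8033094a_d43_d53_d41_d2516

theorem g_wQ_26_wN_1_rb8033094a_d43_d53_d41_d251d : GoodKC AS c_wQ_26_wN_1_rb8033094a_d43_d53_d41_d251d := p_wQ_26_wN_1_rb8033094a_d43_d53_d41_d251d

theorem g_wQ_26_wN_1_rb8033094a_d43_d53_d41_d251e : GoodKC AS c_wQ_26_wN_1_rb8033094a_d43_d53_d41_d251e := p_wQ_26_wN_1_rb8033094a_d43_d53_d41_d251e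

theorem g_wQ_26_wN_1_rb8033094a_d43_d53_d41_d2522 : GoodKC AS c_wQ_26_wN_1_rb8033094a_d43_d53_d41_d2522 := p_wQ_26_wN_1_rb8033094a_d43_d53_d41_d2522

theorem g_wQ_26_wN_1_rb8033094a_d43_d53_d41_d25x9 : GoodKC AS c_wQ_26_wN_1_rb8033094a_d43_d53_d41_d25x9 := p_wQ_26_wN_1_rb8033094a_d43_d53_d41_d25 g_wQ_26_wN_1_rb8033094a_d43_d53_d41_d2523 g_wQ_26_wN_1_rb8033094a_d43_d53_d41_d2521 g_wQ_26_wN_1_rb8033094a_d43_d53_d41_d2520 g_wQ_26_wN_1_rb8033094a_d43_d53_d41_d251f g_wQ_26_wN_1_rb8033094a_d43_d53_d41_d251c g_wQ_26_wN_1_rb8033094a_d43_d53_d41_d251b g_wQ_26_wN_1_rb8033094a_d43_d53_d41_d251a g_wQ_26_wN_1_rb8033094a_d43_d53_d41_d2519 g_wQ_26_wN_1_rb8033094a_d43_d53_d41_d2518 g_wQ_26_wN_1_rb8033094a_d43_d53_d41_d2517 g_wQ_26_wN_1_rb8033094a_d43_d53_d41_d2514 g_wQ_26_wN_1_rb8033094a_d43_d53_d41_d2511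 g_wQ_26_wN_1_rb8033094a_d43_d53_d41_d2510 g_wQ_26_wN_1_rb8033094a_d43_d53_d41_d250f g_wQ_26_wN_1_rb8033094a_d43_d53_d41_d250e g_wQ_26_wN_1_rb8033094a_d43_d53_d41_d250d g_wQ_26_wN_1_rb8033094a_d43_d53_d41_d2506 g_wQ_26_wN_1_rb8033094a_d43_d53_d41_d2503 g_wQ_26_wN_1_rb8033094a_d43_d53_d41_d2502 g_wQ_26_wN_1_rb8033094a_d43_d53_d41_d2501 g_wQ_26_wN_1_rb8033094a_d43_d53_d41_d2504 g_wQ_26_wN_1_rb8033094a_d43_d53_d41_d2505 g_wQ_26_wN_1_rb8033094a_d43_d53_d41_d2507 g_wQ_26_wN_1_rb8033094a_d43_d53_d41_d2508 g_wQ_26_wN_1_rb8033094a_d43_d53_d41_d2509 g_wQ_26_wN_1_rb8033094a_d43_d53_d41_d250a g_wQ_26_wN_1_rb8033094a_d43_d53_d41_d250b g_wQ_26_wN_1_rb8033094a_d43_d53_d41_d250c g__wQ_26_wN_1_rb8033094a_d43_d53_d41_d25_0 g__wQ_26_wN_1_rb8033094a_d43_d53_d41_d25_2 g_wQ_26_wN_1_rb8033094a_d43_d53_d41_d2512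 g_wQ_26_wN_1_rb8033094a_d43_d53_d41_d2513 g_wQ_26_wN_1_rb8033094a_d43_d53_d41_d2515 g_wQ_26_wN_1_rb8033094a_d43_d53_d41_d2516 g_wQ_26_wN_1_rb8033094a_d43_d53_d41_d251d g_wQ_26_wN_1_rb8033094a_d43_d53_d41_d251e g_wQ_26_wN_1_rb8033094a_d43_d53_d41_d2522

theorem g_wQ_26_wN_1_rb8033094a_d43_d53_d41_d28x9 : GoodKC AS c_wQ_26_wN_1_rb8033094a_d43_d53_d41_d28x9 := p_wQ_26_wN_1_rb8033094a_d43_d53_d41_d28x1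

theorem g_wQ_26_wN_1_rb8033094a_d43_d53_d41_d2ax9 : GoodKC AS c_wQ_26_wN_1_rb8033094a_d43_d53_d41_d2ax9 := p_wQ_26_wN_1_rb8033094a_d43_d53_d41_d2ax1

theorem g__wQ_26_wN_1_rb8033094a_d43_d53_d41_d2b_0 : GoodKC AS k_wQ_26_wN_1_rb8033094a_d43_d53_d41_d2b_0 := p_wQ_26_wN_1_rb8033094a_d43_d53_d41_d2b_0

theorem g_wQ_26_wN_1_rb8033094a_d43_d53_d41_d2bx9 : GoodKC AS c_wQ_26_wN_1_rb8033094a_d43_d53_d41_d2bx9 := p_wQ_26_wN_1_rb8033094a_d43_d53_d41_d2b g__wQ_26_wN_1_rb8033094a_d43_d53_d41_d2b_0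

theorem g_wQ_26_wN_1_rb8033094a_d43_d53_d41_d2cx9 : GoodKC AS c_wQ_26_wN_1_rb8033094a_d43_d53_d41_d2cx9 := p_wQ_26_wN_1_rb8033094a_d43_d53_d41_d2cx1

theorem g_wQ_26_wN_1_rb8033094a_d43_d53_d41_d2ex9 : GoodKC AS c_wQ_26_wN_1_rb8033094a_d43_d53_d41_d2ex9 := p_wQ_26_wN_1_rb8033094a_d43_d53_d41_d2ex1

theorem g__wQ_26_wN_1_rb8033094a_d43_d53_d41_d31x1_0 : GoodKC AS k_wQ_26_wN_1_rb8033094a_d43_d53_d41_d31x1_0 := p_wQ_26_wN_1_rb8033094a_d43_d53_d41_d31x1_0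

theorem g_wQ_26_wN_1_rb8033094a_d43_d53_d41_d31x9 : GoodKC AS c_wQ_26_wN_1_rb8033094a_d43_d53_d41_d31x9 := p_wQ_26_wN_1_rb8033094a_d43_d53_d41_d31x1 g__wQ_26_wN_1_rb8033094a_d43_d53_d41_d31x1_0

theorem g__wQ_26_wN_1_rb8033094a_d43_d53_d41_d32_1 : GoodKC AS k_wQ_26_wN_1_rb8033094a_d43_d53_d41_d32_1 := p_wQ_26_wN_1_rb8033094a_d43_d53_d41_d32_1

theorem g__wQ_26_wN_1_rb8033094a_d43_d53_d41_d32_3 : GoodKC AS k_wQ_26_wN_1_rb8033094a_d43_d53_d41_d32_3 := p_wQ_26_wN_1_rb8033094a_d43_d53_d41_d32_3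

theorem g__wQ_26_wN_1_rb8033094a_d43_d53_d41_d32_4 : GoodKC AS k_wQ_26_wN_1_rb8033094a_d43_d53_d41_d32_4 := p_wQ_26_wN_1_rb8033094a_d43_d53_d41_d32_4

theorem g__wQ_26_wN_1_rb8033094a_d43_d53_d41_d32_2 : GoodKC AS k_wQ_26_wN_1_rb8033094a_d43_d53_d41_d32_2 := p_wQ_26_wN_1_rb8033094a_d43_d53_d41_d32_2 g__wQ_26_wN_1_rb8033094a_d43_d53_d41_d32_3 g__wQ_26_wN_1_rb8033094a_d43_d53_d41_d32_4

theorem g__wQ_26_wN_1_rb8033094a_d43_d53_d41_d32_8 : GoodKC AS k_wQ_26_wN_1_rb8033094a_d43_d53_d41_d32_8 := p_wQ_26_wN_1_rb8033094a_d43_d53_d41_d32_8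

theorem g__wQ_26_wN_1_rb8033094a_d43_d53_d41_d32_7 : GoodKC AS k_wQ_26_wN_1_rb8033094a_d43_d53_d41_d32_7 := p_wQ_26_wN_1_rb8033094a_d43_d53_d41_d32_7 g__wQ_26_wN_1_rb8033094a_d43_d53_d41_d32_8

theorem g__wQ_26_wN_1_rb8033094a_d43_d53_d41_d32_12 : GoodKC AS k_wQ_26_wN_1_rb8033094a_d43_d53_d41_d32_12 := p_wQ_26_wN_1_rb8033094a_d43_d53_d41_d32_12

theorem g__wQ_26_wN_1_rb8033094a_d43_d53_d41_d32_11 : GoodKC AS k_wQ_26_wN_1_rb8033094a_d43_d53_d41_d32_11 := p_wQ_26_wN_1_rb8033094a_d43_d53_d41_d32_11 g__wQ_26_wN_1_rb8033094a_d43_d53_d41_d32_12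

theorem g__wQ_26_wN_1_rb8033094a_d43_d53_d41_d32_13 : GoodKC AS k_wQ_26_wN_1_rb8033094a_d43_d53_d41_d32_13 := p_wQ_26_wN_1_rb8033094a_d43_d53_d41_d32_13

theorem g__wQ_26_wN_1_rb8033094a_d43_d53_d41_d32_10 : GoodKC AS k_wQ_26_wN_1_rb8033094a_d43_d53_d41_d32_10 := p_wQ_26_wN_1_rb8033094a_d43_d53_d41_d32_10 g__wQ_26_wN_1_rb8033094a_d43_d53_d41_d32_11 g__wQ_26_wN_1_rb8033094a_d43_d53_d41_d32_13

theorem g__wQ_26_wN_1_rb8033094a_d43_d53_d41_d32_16 : GoodKC AS k_wQ_26_wN_1_rb8033094a_d43_d53_d41_d32_16 := p_wQ_26_wN_1_rb8033094a_d43_d53_d41_d32_16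

theorem g__wQ_26_wN_1_rb8033094a_d43_d53_d41_d32_15 : GoodKC AS k_wQ_26_wN_1_rb8033094a_d43_d53_d41_d32_15 := p_wQ_26_wN_1_rb8033094a_d43_d53_d41_d32_15 g__wQ_26_wN_1_rb8033094a_d43_d53_d41_d32_16

theorem g__wQ_26_wN_1_rb8033094a_d43_d53_d41_d32_14 : GoodKC AS k_wQ_26_wN_1_rb8033094a_d43_d53_d41_d32_14 := p_wQ_26_wN_1_rb8033094a_d43_d53_d41_d32_14 g__wQ_26_wN_1_rb8033094a_d43_d53_d41_d32_15

theorem g__wQ_26_wN_1_rb8033094a_d43_d53_d41_d32_18 : GoodKC AS k_wQ_26_wN_1_rb8033094a_d43_d53_d41_d32_18 := p_wQ_26_wN_1_rb8033094a_d43_d53_d41_d32_18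

theorem g__wQ_26_wN_1_rb8033094a_d43_d53_d41_d32_17 : GoodKC AS k_wQ_26_wN_1_rb8033094a_d43_d53_d41_d32_17 := p_wQ_26_wN_1_rb8033094a_d43_d53_d41_d32_17 g__wQ_26_wN_1_rb8033094a_d43_d53_d41_d32_18

theorem g__wQ_26_wN_1_rb8033094a_d43_d53_d41_d32_9 : GoodKC AS k_wQ_26_wN_1_rb8033094a_d43_d53_d41_d32_9 := p_wQ_26_wN_1_rb8033094a_d43_d53_d41_d32_9 g__wQ_26_wN_1_rb8033094a_d43_d53_d41_d32_10 g__wQ_26_wN_1_rb8033094a_d43_d53_d41_d32_14 g__wQ_26_wN_1_rb8033094a_d43_d53_d41_d32_17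

theorem g__wQ_26_wN_1_rb8033094a_d43_d53_d41_d32_19 : GoodKC AS k_wQ_26_wN_1_rb8033094a_d43_d53_d41_d32_19 := p_wQ_26_wN_1_rb8033094a_d43_d53_d41_d32_19

theorem g__wQ_26_wN_1_rb8033094a_d43_d53_d41_d32_6 : GoodKC AS k_wQ_26_wN_1_rb8033094a_d43_d53_d41_d32_6 := p_wQ_26_wN_1_rb8033094a_d43_d53_d41_d32_6 g__wQ_26_wN_1_rb8033094a_d43_d53_d41_d32_7 g__wQ_26_wN_1_rb8033094a_d43_d53_d41_d32_9 g__wQ_26_wN_1_rb8033094a_d43_d53_d41_d32_19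

theorem g__wQ_26_wN_1_rb8033094a_d43_d53_d41_d32_5 : GoodKC AS k_wQ_26_wN_1_rb8033094a_d43_d53_d41_d32_5 := p_wQ_26_wN_1_rb8033094a_d43_d53_d41_d32_5 g__wQ_26_wN_1_rb8033094a_d43_d53_d41_d32_6

theorem g__wQ_26_wN_1_rb8033094a_d43_d53_d41_d32_0 : GoodKC AS k_wQ_26_wN_1_rb8033094a_d43_d53_d41_d32_0 := p_wQ_26_wN_1_rb8033094a_d43_d53_d41_d32_0 g__wQ_26_wN_1_rb8033094a_d43_d53_d41_d32_1 g__wQ_26_wN_1_rb8033094a_d43_d53_d41_d32_2 g__wQ_26_wN_1_rb8033094a_d43_d53_d41_d32_5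

theorem g_wQ_26_wN_1_rb8033094a_d43_d53_d41_d32x9 : GoodKC AS c_wQ_26_wN_1_rb8033094a_d43_d53_d41_d32x9 := p_wQ_26_wN_1_rb8033094a_d43_d53_d41_d32 g__wQ_26_wN_1_rb8033094a_d43_d53_d41_d32_0

theorem g_wQ_26_wN_1_rb8033094a_d43_d53_d41_d37x9 : GoodKC AS c_wQ_26_wN_1_rb8033094a_d43_d53_d41_d37x9 := p_wQ_26_wN_1_rb8033094a_d43_d53_d41_d37x1

theorem g_wQ_26_wN_1_rb8033094a_d43_d53_d41_d38_d42_d07x1 : GoodKC AS c_wQ_26_wN_1_rb8033094a_d43_d53_d41_d38_d42_d07x1 := p_wQ_26_wN_1_rb8033094a_d43_d53_d41_d38_d42_d07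

theorem g_wQ_26_wN_1_rb8033094a_d43_d53_d41_d38_d42_d06x1 : GoodKC AS c_wQ_26_wN_1_rb8033094a_d43_d53_d41_d38_d42_d06x1 := p_wQ_26_wN_1_rb8033094a_d43_d53_d41_d38_d42_d06

theorem g_wQ_26_wN_1_rb8033094a_d43_d53_d41_d38_d42_d05x1 : GoodKC AS c_wQ_26_wN_1_rb8033094a_d43_d53_d41_d38_d42_d05x1 := p_wQ_26_wN_1_rb8033094a_d43_d53_d41_d38_d42_d05

theorem g_wQ_26_wN_1_rb8033094a_d43_d53_d41_d38_d42_d04x1 : GoodKC AS c_wQ_26_wN_1_rb8033094a_d43_d53_d41_d38_d42_d04x1 := p_wQ_26_wN_1_rb8033094a_d43_d53_d41_d38_d42_d04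

theorem g__wQ_26_wN_1_rb8033094a_d43_d53_d41_d38x1_3 : GoodKC AS k_wQ_26_wN_1_rb8033094a_d43_d53_d41_d38x1_3 := p_wQ_26_wN_1_rb8033094a_d43_d53_d41_d38x1_3

theorem g__wQ_26_wN_1_rb8033094a_d43_d53_d41_d38x1_5 : GoodKC AS k_wQ_26_wN_1_rb8033094a_d43_d53_d41_d38x1_5 := p_wQ_26_wN_1_rb8033094a_d43_d53_d41_d38x1_5

theorem g__wQ_26_wN_1_rb8033094a_d43_d53_d41_d38x1_7 : GoodKC AS k_wQ_26_wN_1_rb8033094a_d43_d53_d41_d38x1_7 := p_wQ_26_wN_1_rb8033094a_d43_d53_d41_d38x1_7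

theorem g__wQ_26_wN_1_rb8033094a_d43_d53_d41_d38x1_6 : GoodKC AS k_wQ_26_wN_1_rb8033094a_d43_d53_d41_d38x1_6 := p_wQ_26_wN_1_rb8033094a_d43_d53_d41_d38x1_6 g__wQ_26_wN_1_rb8033094a_d43_d53_d41_d38x1_7

theorem g__wQ_26_wN_1_rb8033094a_d43_d53_d41_d38x1_4 : GoodKC AS k_wQ_26_wN_1_rb8033094a_d43_d53_d41_d38x1_4 := p_wQ_26_wN_1_rb8033094a_d43_d53_d41_d38x1_4 g__wQ_26_wN_1_rb8033094a_d43_d53_d41_d38x1_5 g__wQ_26_wN_1_rb8033094a_d43_d53_d41_d38x1_6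

theorem g__wQ_26_wN_1_rb8033094a_d43_d53_d41_d38x1_2 : GoodKC AS k_wQ_26_wN_1_rb8033094a_d43_d53_d41_d38x1_2 := p_wQ_26_wN_1_rb8033094a_d43_d53_d41_d38x1_2 g__wQ_26_wN_1_rb8033094a_d43_d53_d41_d38x1_3 g__wQ_26_wN_1_rb8033094a_d43_d53_d41_d38x1_4

theorem g__wQ_26_wN_1_rb8033094a_d43_d53_d41_d38x1_14 : GoodKC AS k_wQ_26_wN_1_rb8033094a_d43_d53_d41_d38x1_14 := p_wQ_26_wN_1_rb8033094a_d43_d53_d41_d38x1_14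

theorem g__wQ_26_wN_1_rb8033094a_d43_d53_d41_d38x1_13 : GoodKC AS k_wQ_26_wN_1_rb8033094a_d43_d53_d41_d38x1_13 := p_wQ_26_wN_1_rb8033094a_d43_d53_d41_d38x1_13 g__wQ_26_wN_1_rb8033094a_d43_d53_d41_d38x1_14

theorem g__wQ_26_wN_1_rb8033094a_d43_d53_d41_d38x1_12 : GoodKC AS k_wQ_26_wN_1_rb8033094a_d43_d53_d41_d38x1_12 := p_wQ_26_wN_1_rb8033094a_d43_d53_d41_d38x1_12 g__wQ_26_wN_1_rb8033094a_d43_d53_d41_d38x1_13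

theorem g__wQ_26_wN_1_rb8033094a_d43_d53_d41_d38x1_18 : GoodKC AS k_wQ_26_wN_1_rb8033094a_d43_d53_d41_d38x1_18 := p_wQ_26_wN_1_rb8033094a_d43_d53_d41_d38x1_18

theorem g__wQ_26_wN_1_rb8033094a_d43_d53_d41_d38x1_17 : GoodKC AS k_wQ_26_wN_1_rb8033094a_d43_d53_d41_d38x1_17 := p_wQ_26_wN_1_rb8033094a_d43_d53_d41_d38x1_17 g__wQ_26_wN_1_rb8033094a_d43_d53_d41_d38x1_18

theorem g__wQ_26_wN_1_rb8033094a_d43_d53_d41_d38x1_16 : GoodKC AS k_wQ_26_wN_1_rb8033094a_d43_d53_d41_d38x1_16 := p_wQ_26_wN_1_rb8033094a_d43_d53_d41_d38x1_16 g__wQ_26_wN_1_rb8033094a_d43_d53_d41_d38x1_17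

theorem g__wQ_26_wN_1_rb8033094a_d43_d53_d41_d38x1_15 : GoodKC AS k_wQ_26_wN_1_rb8033094a_d43_d53_d41_d38x1_15 := p_wQ_26_wN_1_rb8033094a_d43_d53_d41_d38x1_15 g__wQ_26_wN_1_rb8033094a_d43_d53_d41_d38x1_16

theorem g__wQ_26_wN_1_rb8033094a_d43_d53_d41_d38x1_11 : GoodKC AS k_wQ_26_wN_1_rb8033094a_d43_d53_d41_d38x1_11 := p_wQ_26_wN_1_rb8033094a_d43_d53_d41_d38x1_11 g__wQ_26_wN_1_rb8033094a_d43_d53_d41_d38x1_12 g__wQ_26_wN_1_rb8033094a_d43_d53_d41_d38x1_15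

theorem g__wQ_26_wN_1_rb8033094a_d43_d53_d41_d38x1_10 : GoodKC AS k_wQ_26_wN_1_rb8033094a_d43_d53_d41_d38x1_10 := p_wQ_26_wN_1_rb8033094a_d43_d53_d41_d38x1_10 g__wQ_26_wN_1_rb8033094a_d43_d53_d41_d38x1_11

theorem g__wQ_26_wN_1_rb8033094a_d43_d53_d41_d38x1_9 : GoodKC AS k_wQ_26_wN_1_rb8033094a_d43_d53_d41_d38x1_9 := p_wQ_26_wN_1_rb8033094a_d43_d53_d41_d38x1_9 g__wQ_26_wN_1_rb8033094a_d43_d53_d41_d38x1_10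

theorem g__wQ_26_wN_1_rb8033094a_d43_d53_d41_d38x1_8 : GoodKC AS k_wQ_26_wN_1_rb8033094a_d43_d53_d41_d38x1_8 := p_wQ_26_wN_1_rb8033094a_d43_d53_d41_d38x1_8 g__wQ_26_wN_1_rb8033094a_d43_d53_d41_d38x1_9

theorem g__wQ_26_wN_1_rb8033094a_d43_d53_d41_d38x1_1 : GoodKC AS k_wQ_26_wN_1_rb8033094a_d43_d53_d41_d38x1_1 := p_wQ_26_wN_1_rb8033094a_d43_d53_d41_d38x1_1 g__wQ_26_wN_1_rb8033094a_d43_d53_d41_d38x1_2 g__wQ_26_wN_1_rb8033094a_d43_d53_d41_d38x1_8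

theorem g__wQ_26_wN_1_rb8033094a_d43_d53_d41_d38x1_0 : GoodKC AS k_wQ_26_wN_1_rb8033094a_d43_d53_d41_d38x1_0 := p_wQ_26_wN_1_rb8033094a_d43_d53_d41_d38x1_0 g__wQ_26_wN_1_rb8033094a_d43_d53_d41_d38x1_1

theorem g_wQ_26_wN_1_rb8033094a_d43_d53_d41_d38_d42_d03x1 : GoodKC AS c_wQ_26_wN_1_rb8033094a_d43_d53_d41_d38_d42_d03x1 := p_wQ_26_wN_1_rb8033094a_d43_d53_d41_d38_d42_d03

theorem g__wQ_26_wN_1_rb8033094a_d43_d53_d41_d38_d42_d02_0 : GoodKC AS k_wQ_26_wN_1_rb8033094a_d43_d53_d41_d38_d42_d02_0 := p_wQ_26_wN_1_rb8033094a_d43_d53_d41_d38_d42_d02_0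

theorem g_wQ_26_wN_1_rb8033094a_d43_d53_d41_d38_d42_d02x1 : GoodKC AS c_wQ_26_wN_1_rb8033094a_d43_d53_d41_d38_d42_d02x1 := p_wQ_26_wN_1_rb8033094a_d43_d53_d41_d38_d42_d02 g__wQ_26_wN_1_rb8033094a_d43_d53_d41_d38_d42_d02_0

theorem g__wQ_26_wN_1_rb8033094a_d43_d53_d41_d38x1_20 : GoodKC AS k_wQ_26_wN_1_rb8033094a_d43_d53_d41_d38x1_20 := p_wQ_26_wN_1_rb8033094a_d43_d53_d41_d38x1_20

theorem g__wQ_26_wN_1_rb8033094a_d43_d53_d41_d38x1_23 : GoodKC AS k_wQ_26_wN_1_rb8033094a_d43_d53_d41_d38x1_23 := p_wQ_26_wN_1_rb8033094a_d43_d53_d41_d38x1_23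

theorem g__wQ_26_wN_1_rb8033094a_d43_d53_d41_d38x1_22 : GoodKC AS k_wQ_26_wN_1_rb8033094a_d43_d53_d41_d38x1_22 := p_wQ_26_wN_1_rb8033094a_d43_d53_d41_d38x1_22 g__wQ_26_wN_1_rb8033094a_d43_d53_d41_d38x1_23

theorem g__wQ_26_wN_1_rb8033094a_d43_d53_d41_d38x1_21 : GoodKC AS k_wQ_26_wN_1_rb8033094a_d43_d53_d41_d38x1_21 := p_wQ_26_wN_1_rb8033094a_d43_d53_d41_d38x1_21 g__wQ_26_wN_1_rb8033094a_d43_d53_d41_d38x1_22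

theorem g__wQ_26_wN_1_rb8033094a_d43_d53_d41_d38x1_19 : GoodKC AS k_wQ_26_wN_1_rb8033094a_d43_d53_d41_d38x1_19 := p_wQ_26_wN_1_rb8033094a_d43_d53_d41_d38x1_19 g__wQ_26_wN_1_rb8033094a_d43_d53_d41_d38x1_20 g__wQ_26_wN_1_rb8033094a_d43_d53_d41_d38x1_21

theorem g__wQ_26_wN_1_rb8033094a_d43_d53_d41_d38x1_24 : GoodKC AS k_wQ_26_wN_1_rb8033094a_d43_d53_d41_d38x1_24 := p_wQ_26_wN_1_rb8033094a_d43_d53_d41_d38x1_24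

theorem g_wQ_26_wN_1_rb8033094a_d43_d53_d41_d38_d42_d01x1 : GoodKC AS c_wQ_26_wN_1_rb8033094a_d43_d53_d41_d38_d42_d01x1 := p_wQ_26_wN_1_rb8033094a_d43_d53_d41_d38_d42_d01

theorem g_wQ_26_wN_1_rb8033094a_d43_d53_d41_d38_d42_d00x1 : GoodKC AS c_wQ_26_wN_1_rb8033094a_d43_d53_d41_d38_d42_d00x1 := p_wQ_26_wN_1_rb8033094a_d43_d53_d41_d38_d42_d00

theorem g__wQ_26_wN_1_rb8033094a_d43_d53_d41_d38x1_25 : GoodKC AS k_wQ_26_wN_1_rb8033094a_d43_d53_d41_d38x1_25 := p_wQ_26_wN_1_rb8033094a_d43_d53_d41_d38x1_25 g_wQ_26_wN_1_rb8033094a_d43_d53_d41_d38_d42_d01x1 g_wQ_26_wN_1_rb8033094a_d43_d53_d41_d38_d42_d00x1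

theorem g_wQ_26_wN_1_rb8033094a_d43_d53_d41_d38x9 : GoodKC AS c_wQ_26_wN_1_rb8033094a_d43_d53_d41_d38x9 := p_wQ_26_wN_1_rb8033094a_d43_d53_d41_d38x1 g_wQ_26_wN_1_rb8033094a_d43_d53_d41_d38_d42_d07x1 g_wQ_26_wN_1_rb8033094a_d43_d53_d41_d38_d42_d06x1 g_wQ_26_wN_1_rb8033094a_d43_d53_d41_d38_d42_d05x1 g_wQ_26_wN_1_rb8033094a_d43_d53_d41_d38_d42_d04x1 g__wQ_26_wN_1_rb8033094a_d43_d53_d41_d38x1_0 g_wQ_26_wN_1_rb8033094a_d43_d53_d41_d38_d42_d03x1 g_wQ_26_wN_1_rb8033094a_d43_d53_d41_d38_d42_d02x1 g__wQ_26_wN_1_rb8033094a_d43_d53_d41_d38x1_19 g__wQ_26_wN_1_rb8033094a_d43_d53_d41_d38x1_24 g__wQ_26_wN_1_rb8033094a_d43_d53_d41_d38x1_25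

theorem g_wQ_26_wN_1_rb8033094a_d43_d53_d41_d3ex9 : GoodKC AS c_wQ_26_wN_1_rb8033094a_d43_d53_d41_d3ex9 := p_wQ_26_wN_1_rb8033094a_d43_d53_d41_d3ex1

theorem g__wQ_26_wN_1_rb8033094a_d43_d53_d41_d40_3 : GoodKC AS k_wQ_26_wN_1_rb8033094a_d43_d53_d41_d40_3 := p_wQ_26_wN_1_rb8033094a_d43_d53_d41_d40_3

theorem g__wQ_26_wN_1_rb8033094a_d43_d53_d41_d40_7 : GoodKC AS k_wQ_26_wN_1_rb8033094a_d43_d53_d41_d40_7 := p_wQ_26_wN_1_rb8033094a_d43_d53_d41_d40_7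

theorem g__wQ_26_wN_1_rb8033094a_d43_d53_d41_d40_6 : GoodKC AS k_wQ_26_wN_1_rb8033094a_d43_d53_d41_d40_6 := p_wQ_26_wN_1_rb8033094a_d43_d53_d41_d40_6 g__wQ_26_wN_1_rb8033094a_d43_d53_d41_d40_7

theorem g__wQ_26_wN_1_rb8033094a_d43_d53_d41_d40_8 : GoodKC AS k_wQ_26_wN_1_rb8033094a_d43_d53_d41_d40_8 := p_wQ_26_wN_1_rb8033094a_d43_d53_d41_d40_8

theorem g__wQ_26_wN_1_rb8033094a_d43_d53_d41_d40_5 : GoodKC AS k_wQ_26_wN_1_rb8033094a_d43_d53_d41_d40_5 := p_wQ_26_wN_1_rb8033094a_d43_d53_d41_d40_5 g__wQ_26_wN_1_rb8033094a_d43_d53_d41_d40_6 g__wQ_26_wN_1_rb8033094a_d43_d53_d41_d40_8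

theorem g__wQ_26_wN_1_rb8033094a_d43_d53_d41_d40_4 : GoodKC AS k_wQ_26_wN_1_rb8033094a_d43_d53_d41_d40_4 := p_wQ_26_wN_1_rb8033094a_d43_d53_d41_d40_4 g__wQ_26_wN_1_rb8033094a_d43_d53_d41_d40_5

theorem g__wQ_26_wN_1_rb8033094a_d43_d53_d41_d40_2 : GoodKC AS k_wQ_26_wN_1_rb8033094a_d43_d53_d41_d40_2 := p_wQ_26_wN_1_rb8033094a_d43_d53_d41_d40_2 g__wQ_26_wN_1_rb8033094a_d43_d53_d41_d40_3 g__wQ_26_wN_1_rb8033094a_d43_d53_d41_d40_4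

theorem g__wQ_26_wN_1_rb8033094a_d43_d53_d41_d40_1 : GoodKC AS k_wQ_26_wN_1_rb8033094a_d43_d53_d41_d40_1 := p_wQ_26_wN_1_rb8033094a_d43_d53_d41_d40_1 g__wQ_26_wN_1_rb8033094a_d43_d53_d41_d40_2

theorem g__wQ_26_wN_1_rb8033094a_d43_d53_d41_d40_0 : GoodKC AS k_wQ_26_wN_1_rb8033094a_d43_d53_d41_d40_0 := p_wQ_26_wN_1_rb8033094a_d43_d53_d41_d40_0 g__wQ_26_wN_1_rb8033094a_d43_d53_d41_d40_1

theorem g__wQ_26_wN_1_rb8033094a_d43_d53_d41_d40_10 : GoodKC AS k_wQ_26_wN_1_rb8033094a_d43_d53_d41_d40_10 := p_wQ_26_wN_1_rb8033094a_d43_d53_d41_d40_10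

theorem g__wQ_26_wN_1_rb8033094a_d43_d53_d41_d40_11 : GoodKC AS k_wQ_26_wN_1_rb8033094a_d43_d53_d41_d40_11 := p_wQ_26_wN_1_rb8033094a_d43_d53_d41_d40_11

theorem g__wQ_26_wN_1_rb8033094a_d43_d53_d41_d40_12 : GoodKC AS k_wQ_26_wN_1_rb8033094a_d43_d53_d41_d40_12 := p_wQ_26_wN_1_rb8033094a_d43_d53_d41_d40_12

theorem g__wQ_26_wN_1_rb8033094a_d43_d53_d41_d40_9 : GoodKC AS k_wQ_26_wN_1_rb8033094a_d43_d53_d41_d40_9 := p_wQ_26_wN_1_rb8033094a_d43_d53_d41_d40_9 g__wQ_26_wN_1_rb8033094a_d43_d53_d41_d40_10 g__wQ_26_wN_1_rb8033094a_d43_d53_d41_d40_11 g__wQ_26_wN_1_rb8033094a_d43_d53_d41_d40_12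

theorem g_wQ_26_wN_1_rb8033094a_d43_d53_d41_d40x9 : GoodKC AS c_wQ_26_wN_1_rb8033094a_d43_d53_d41_d40x9 := p_wQ_26_wN_1_rb8033094a_d43_d53_d41_d40 g__wQ_26_wN_1_rb8033094a_d43_d53_d41_d40_0 g__wQ_26_wN_1_rb8033094a_d43_d53_d41_d40_9

theorem g_wQ_26_wN_1_rb8033094a_d43_d53_d41_d43x9 : GoodKC AS c_wQ_26_wN_1_rb8033094a_d43_d53_d41_d43x9 := p_wQ_26_wN_1_rb8033094a_d43_d53_d41_d43x1

theorem g_wQ_26_wN_1_rb8033094a_d43_d53x2 : GoodKC AS c_wQ_26_wN_1_rb8033094a_d43_d53x2 := p_wQ_26_wN_1_rb8033094a_d43_d53x9 g_wQ_26_wN_1_rb8033094a_d43_d53_d41_d42x9 g_wQ_26_wN_1_rb8033094a_d43_d53_d41_d41x9 g_wQ_26_wN_1_rb8033094a_d43_d53_d41_d3fx9 g_wQ_26_wN_1_rb8033094a_d43_d53_d41_d3dx9 g_wQ_26_wN_1_rb8033094a_d43_d53_d41_d3cx9 g_wQ_26_wN_1_rb8033094a_d43_d53_d41_d3bx9 g_wQ_26_wN_1_rb8033094a_d43_d53_d41_d3ax9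 g_wQ_26_wN_1_rb8033094a_d43_d53_d41_d39x9 g_wQ_26_wN_1_rb8033094a_d43_d53_d41_d36x9 g_wQ_26_wN_1_rb8033094a_d43_d53_d41_d35x9 g_wQ_26_wN_1_rb8033094a_d43_d53_d41_d34x9 g_wQ_26_wN_1_rb8033094a_d43_d53_d41_d33x9 g_wQ_26_wN_1_rb8033094a_d43_d53_d41_d30x9 g_wQ_26_wN_1_rb8033094a_d43_d53_d41_d2fx9 g_wQ_26_wN_1_rb8033094a_d43_d53_d41_d2dx9 g_wQ_26_wN_1_rb8033094a_d43_d53_d41_d29x9 g_wQ_26_wN_1_rb8033094a_d43_d53_d41_d27x9 g_wQ_26_wN_1_rb8033094a_d43_d53_d41_d26x9 g_wQ_26_wN_1_rb8033094a_d43_d53_d41_d22x9 g_wQ_26_wN_1_rb8033094a_d43_d53_d41_d20x9 g_wQ_26_wN_1_rb8033094a_d43_d53_d41_d1ex9 g_wQ_26_wN_1_rb8033094a_d43_d53_d41_d1cx9 g_wQ_26_wN_1_rb8033094a_d43_d53_d41_d1bx9 g__wQ_26_wN_1_rb8033094a_d43_d53x9_0 g__wQ_26_wN_1_rb8033094a_d43_d53x9_4 g_wQ_26_wN_1_rb8033094a_d43_d53_d41_d18x9 g_wQ_26_wN_1_rb8033094a_d43_d53_d41_d17x9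 g_wQ_26_wN_1_rb8033094a_d43_d53_d41_d14x9 g_wQ_26_wN_1_rb8033094a_d43_d53_d41_d13x9 g_wQ_26_wN_1_rb8033094a_d43_d53_d41_d11x9 g_wQ_26_wN_1_rb8033094a_d43_d53_d41_d10x9 g_wQ_26_wN_1_rb8033094a_d43_d53_d41_d0ex9 g_wQ_26_wN_1_rb8033094a_d43_d53_d41_d0dx9 g_wQ_26_wN_1_rb8033094a_d43_d53_d41_d0cx9 g_wQ_26_wN_1_rb8033094a_d43_d53_d41_d0bx9 g_wQ_26_wN_1_rb8033094a_d43_d53_d41_d0ax9 g_wQ_26_wN_1_rb8033094a_d43_d53_d41_d09x9 g_wQ_26_wN_1_rb8033094a_d43_d53_d41_d08x9 g_wQ_26_wN_1_rb8033094a_d43_d53_d41_d02x9 g_wQ_26_wN_1_rb8033094a_d43_d53_d41_d00x9 g_wQ_26_wN_1_rb8033094a_d43_d53_d41_d01x9 g_wQ_26_wN_1_rb8033094a_d43_d53_d41_d03x9 g_wQ_26_wN_1_rb8033094a_d43_d53_d41_d04x9 g_wQ_26_wN_1_rb8033094a_d43_d53_d41_d05x9 g_wQ_26_wN_1_rb8033094a_d43_d53_d41_d06x9 g_wQ_26_wN_1_rb8033094a_d43_d53_d41_d07x9 g_wQ_26_wN_1_rb8033094a_d43_d53_d41_d0fx9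 g_wQ_26_wN_1_rb8033094a_d43_d53_d41_d12x9 g_wQ_26_wN_1_rb8033094a_d43_d53_d41_d15x9 g_wQ_26_wN_1_rb8033094a_d43_d53_d41_d16x9 g_wQ_26_wN_1_rb8033094a_d43_d53_d41_d19x9 g_wQ_26_wN_1_rb8033094a_d43_d53_d41_d1ax9 g_wQ_26_wN_1_rb8033094a_d43_d53_d41_d1dx9 g_wQ_26_wN_1_rb8033094a_d43_d53_d41_d1fx9 g_wQ_26_wN_1_rb8033094a_d43_d53_d41_d21x9 g_wQ_26_wN_1_rb8033094a_d43_d53_d41_d23x9 g_wQ_26_wN_1_rb8033094a_d43_d53_d41_d24x9 g_wQ_26_wN_1_rb8033094a_d43_d53_d41_d25x9 g_wQ_26_wN_1_rb8033094a_d43_d53_d41_d28x9 g_wQ_26_wN_1_rb8033094a_d43_d53_d41_d2ax9 g_wQ_26_wN_1_rb8033094a_d43_d53_d41_d2bx9 g_wQ_26_wN_1_rb8033094a_d43_d53_d41_d2cx9 g_wQ_26_wN_1_rb8033094a_d43_d53_d41_d2ex9 g_wQ_26_wN_1_rb8033094a_d43_d53_d41_d31x9 g_wQ_26_wN_1_rb8033094a_d43_d53_d41_d32x9 g_wQ_26_wN_1_rb8033094a_d43_d53_d41_d37x9 g_wQ_26_wN_1_rb8033094a_d43_d53_d41_d38x9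 g_wQ_26_wN_1_rb8033094a_d43_d53_d41_d3ex9 g_wQ_26_wN_1_rb8033094a_d43_d53_d41_d40x9 g_wQ_26_wN_1_rb8033094a_d43_d53_d41_d43x9

theorem g_wQ_26_wN_1_rb8033094ax7 : GoodKC AS c_wQ_26_wN_1_rb8033094ax7 := p_wQ_26_wN_1_rb8033094ax2 g_wQ_26_wN_1_rb8033094a_d43_d52x2 g_wQ_26_wN_1_rb8033094a_d43_d4ex2 g_wQ_26_wN_1_rb8033094a_d43_d4dx2 g_wQ_26_wN_1_rb8033094a_d43_d4cx2 g_wQ_26_wN_1_rb8033094a_d43_d47x2 g_wQ_26_wN_1_rb8033094a_d43_d46x2 g_wQ_26_wN_1_rb8033094a_d43_d45x2 g_wQ_26_wN_1_rb8033094a_d43_d43x2 g_wQ_26_wN_1_rb8033094a_d43_d40x2 g_wQ_26_wN_1_rb8033094a_d43_d3ex2 g_wQ_26_wN_1_rb8033094a_d43_d3bx2 g_wQ_26_wN_1_rb8033094a_d43_d39x2 g_wQ_26_wN_1_rb8033094a_d43_d38x2 g_wQ_26_wN_1_rb8033094a_d43_d37x2 g_wQ_26_wN_1_rb8033094a_d43_d33x2 g_wQ_26_wN_1_rb8033094a_d43_d2ex2 g_wQ_26_wN_1_rb8033094a_d43_d2dx2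 g_wQ_26_wN_1_rb8033094a_d43_d2ax2 g_wQ_26_wN_1_rb8033094a_d43_d29x2 g_wQ_26_wN_1_rb8033094a_d43_d27x2 g_wQ_26_wN_1_rb8033094a_d43_d25x2 g_wQ_26_wN_1_rb8033094a_d43_d24x2 g_wQ_26_wN_1_rb8033094a_d43_d21x2 g_wQ_26_wN_1_rb8033094a_d43_d20x2 g_wQ_26_wN_1_rb8033094a_d43_d1fx2 g_wQ_26_wN_1_rb8033094a_d43_d1bx2 g_wQ_26_wN_1_rb8033094a_d43_d18x2 g_wQ_26_wN_1_rb8033094a_d43_d16x2 g_wQ_26_wN_1_rb8033094a_d43_d14x2 g_wQ_26_wN_1_rb8033094a_d43_d13x2 g_wQ_26_wN_1_rb8033094a_d43_d12x2 g_wQ_26_wN_1_rb8033094a_d43_d10x2 g_wQ_26_wN_1_rb8033094a_d43_d0fx2 g__wQ_26_wN_1_rb8033094ax2_0 g__wQ_26_wN_1_rb8033094ax2_2 g_wQ_26_wN_1_rb8033094a_d43_d0cx2 g_wQ_26_wN_1_rb8033094a_d43_d0dx2 g__wQ_26_wN_1_rb8033094ax2_3 g_wQ_26_wN_1_rb8033094a_d43_d0ex2 g_wQ_26_wN_1_rb8033094a_d43_d11x2 g_wQ_26_wN_1_rb8033094a_d43_d15x2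 g_wQ_26_wN_1_rb8033094a_d43_d17x2 g_wQ_26_wN_1_rb8033094a_d43_d19x2 g_wQ_26_wN_1_rb8033094a_d43_d1ax2 g_wQ_26_wN_1_rb8033094a_d43_d1cx2 g_wQ_26_wN_1_rb8033094a_d43_d1dx2 g_wQ_26_wN_1_rb8033094a_d43_d1ex2 g_wQ_26_wN_1_rb8033094a_d43_d22x2 g_wQ_26_wN_1_rb8033094a_d43_d23x2 g_wQ_26_wN_1_rb8033094a_d43_d26x2 g_wQ_26_wN_1_rb8033094a_d43_d28x2 g_wQ_26_wN_1_rb8033094a_d43_d2bx2 g_wQ_26_wN_1_rb8033094a_d43_d2cx2 g_wQ_26_wN_1_rb8033094a_d43_d2fx2 g_wQ_26_wN_1_rb8033094a_d43_d30x2 g_wQ_26_wN_1_rb8033094a_d43_d31x2 g_wQ_26_wN_1_rb8033094a_d43_d32x2 g_wQ_26_wN_1_rb8033094a_d43_d34x2 g_wQ_26_wN_1_rb8033094a_d43_d35x2 g_wQ_26_wN_1_rb8033094a_d43_d36x2 g_wQ_26_wN_1_rb8033094a_d43_d3ax2 g_wQ_26_wN_1_rb8033094a_d43_d3cx2 g_wQ_26_wN_1_rb8033094a_d43_d3dx2 g_wQ_26_wN_1_rb8033094a_d43_d3fx2 g_wQ_26_wN_1_rb8033094a_d43_d41x2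 g_wQ_26_wN_1_rb8033094a_d43_d42x2 g_wQ_26_wN_1_rb8033094a_d43_d44x2 g_wQ_26_wN_1_rb8033094a_d43_d48x2 g_wQ_26_wN_1_rb8033094a_d43_d49x2 g_wQ_26_wN_1_rb8033094a_d43_d4ax2 g_wQ_26_wN_1_rb8033094a_d43_d4bx2 g_wQ_26_wN_1_rb8033094a_d43_d4fx2 g_wQ_26_wN_1_rb8033094a_d43_d50x2 g_wQ_26_wN_1_rb8033094a_d43_d51x2 g_wQ_26_wN_1_rb8033094a_d43_d53x2

theorem g_wQ_26_wN_1_rb80330949x7 : GoodKC AS c_wQ_26_wN_1_rb80330949x7 := p_wQ_26_wN_1_rb80330949x3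

theorem g_wQ_26_wN_1_rb80330947x7 : GoodKC AS c_wQ_26_wN_1_rb80330947x7 := p_wQ_26_wN_1_rb80330947x3

theorem g_wQ_26_wN_1_rb80330946x7 : GoodKC AS c_wQ_26_wN_1_rb80330946x7 := p_wQ_26_wN_1_rb80330946x3

theorem g_wQ_26_wN_1_rb80330943x7 : GoodKC AS c_wQ_26_wN_1_rb80330943x7 := p_wQ_26_wN_1_rb80330943x3

theorem g__wQ_26_wN_1_rb80330942x3_4 : GoodKC AS k_wQ_26_wN_1_rb80330942x3_4 := p_wQ_26_wN_1_rb80330942x3_4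

theorem g__wQ_26_wN_1_rb80330942x3_5 : GoodKC AS k_wQ_26_wN_1_rb80330942x3_5 := p_wQ_26_wN_1_rb80330942x3_5

theorem g__wQ_26_wN_1_rb80330942x3_3 : GoodKC AS k_wQ_26_wN_1_rb80330942x3_3 := p_wQ_26_wN_1_rb80330942x3_3 g__wQ_26_wN_1_rb80330942x3_4 g__wQ_26_wN_1_rb80330942x3_5

theorem g__wQ_26_wN_1_rb80330942x3_9 : GoodKC AS k_wQ_26_wN_1_rb80330942x3_9 := p_wQ_26_wN_1_rb80330942x3_9

theorem g__wQ_26_wN_1_rb80330942x3_8 : GoodKC AS k_wQ_26_wN_1_rb80330942x3_8 := p_wQ_26_wN_1_rb80330942x3_8 g__wQ_26_wN_1_rb80330942x3_9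

theorem g__wQ_26_wN_1_rb80330942x3_7 : GoodKC AS k_wQ_26_wN_1_rb80330942x3_7 := p_wQ_26_wN_1_rb80330942x3_7 g__wQ_26_wN_1_rb80330942x3_8

theorem g__wQ_26_wN_1_rb80330942x3_6 : GoodKC AS k_wQ_26_wN_1_rb80330942x3_6 := p_wQ_26_wN_1_rb80330942x3_6 g__wQ_26_wN_1_rb80330942x3_7

theorem g__wQ_26_wN_1_rb80330942x3_12 : GoodKC AS k_wQ_26_wN_1_rb80330942x3_12 := p_wQ_26_wN_1_rb80330942x3_12

theorem g__wQ_26_wN_1_rb80330942x3_11 : GoodKC AS k_wQ_26_wN_1_rb80330942x3_11 := p_wQ_26_wN_1_rb80330942x3_11 g__wQ_26_wN_1_rb80330942x3_12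

theorem g__wQ_26_wN_1_rb80330942x3_10 : GoodKC AS k_wQ_26_wN_1_rb80330942x3_10 := p_wQ_26_wN_1_rb80330942x3_10 g__wQ_26_wN_1_rb80330942x3_11

theorem g__wQ_26_wN_1_rb80330942x3_2 : GoodKC AS k_wQ_26_wN_1_rb80330942x3_2 := p_wQ_26_wN_1_rb80330942x3_2 g__wQ_26_wN_1_rb80330942x3_3 g__wQ_26_wN_1_rb80330942x3_6 g__wQ_26_wN_1_rb80330942x3_10

theorem g__wQ_26_wN_1_rb80330942x3_13 : GoodKC AS k_wQ_26_wN_1_rb80330942x3_13 := p_wQ_26_wN_1_rb80330942x3_13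

theorem g__wQ_26_wN_1_rb80330942x3_14 : GoodKC AS k_wQ_26_wN_1_rb80330942x3_14 := p_wQ_26_wN_1_rb80330942x3_14

theorem g__wQ_26_wN_1_rb80330942x3_1 : GoodKC AS k_wQ_26_wN_1_rb80330942x3_1 := p_wQ_26_wN_1_rb80330942x3_1 g__wQ_26_wN_1_rb80330942x3_2 g__wQ_26_wN_1_rb80330942x3_13 g__wQ_26_wN_1_rb80330942x3_14

theorem g__wQ_26_wN_1_rb80330942x3_0 : GoodKC AS k_wQ_26_wN_1_rb80330942x3_0 := p_wQ_26_wN_1_rb80330942x3_0 g__wQ_26_wN_1_rb80330942x3_1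

theorem g_wQ_26_wN_1_rb803309423ax3 : GoodKC AS c_wQ_26_wN_1_rb803309423ax3 := p_wQ_26_wN_1_rb803309423ax2

theorem g_wQ_26_wN_1_rb8033094238x3 : GoodKC AS c_wQ_26_wN_1_rb8033094238x3 := p_wQ_26_wN_1_rb8033094238x2

theorem g_wQ_26_wN_1_rb8033094237x3 : GoodKC AS c_wQ_26_wN_1_rb8033094237x3 := p_wQ_26_wN_1_rb8033094237x2

theorem g_wQ_26_wN_1_rb8033094236x3 : GoodKC AS c_wQ_26_wN_1_rb8033094236x3 := p_wQ_26_wN_1_rb8033094236x2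

theorem g_wQ_26_wN_1_rb8033094234x3 : GoodKC AS c_wQ_26_wN_1_rb8033094234x3 := p_wQ_26_wN_1_rb8033094234x2

theorem g__wQ_26_wN_1_rb8033094233x2_0 : GoodKC AS k_wQ_26_wN_1_rb8033094233x2_0 := p_wQ_26_wN_1_rb8033094233x2_0

theorem g_wQ_26_wN_1_rb8033094233x3 : GoodKC AS c_wQ_26_wN_1_rb8033094233x3 := p_wQ_26_wN_1_rb8033094233x2 g__wQ_26_wN_1_rb8033094233x2_0

theorem g_wQ_26_wN_1_rb8033094232x3 : GoodKC AS c_wQ_26_wN_1_rb8033094232x3 := p_wQ_26_wN_1_rb8033094232x2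

theorem g__wQ_26_wN_1_rb8033094231x2_0 : GoodKC AS k_wQ_26_wN_1_rb8033094231x2_0 := p_wQ_26_wN_1_rb8033094231x2_0

theorem g__wQ_26_wN_1_rb8033094231x2_3 : GoodKC AS k_wQ_26_wN_1_rb8033094231x2_3 := p_wQ_26_wN_1_rb8033094231x2_3

theorem g__wQ_26_wN_1_rb8033094231x2_2 : GoodKC AS k_wQ_26_wN_1_rb8033094231x2_2 := p_wQ_26_wN_1_rb8033094231x2_2 g__wQ_26_wN_1_rb8033094231x2_3

theorem g__wQ_26_wN_1_rb8033094231x2_1 : GoodKC AS k_wQ_26_wN_1_rb8033094231x2_1 := p_wQ_26_wN_1_rb8033094231x2_1 g__wQ_26_wN_1_rb8033094231x2_2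

theorem g_wQ_26_wN_1_rb8033094231x3 : GoodKC AS c_wQ_26_wN_1_rb8033094231x3 := p_wQ_26_wN_1_rb8033094231x2 g__wQ_26_wN_1_rb8033094231x2_0 g__wQ_26_wN_1_rb8033094231x2_1

theorem g__wQ_26_wN_1_rb8033094230v2_8 : GoodKC AS k_wQ_26_wN_1_rb8033094230v2_8 := p_wQ_26_wN_1_rb8033094230v2_8

theorem g__wQ_26_wN_1_rb8033094230v2_7 : GoodKC AS k_wQ_26_wN_1_rb8033094230v2_7 := p_wQ_26_wN_1_rb8033094230v2_7 g__wQ_26_wN_1_rb8033094230v2_8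

theorem g__wQ_26_wN_1_rb8033094230v2_6 : GoodKC AS k_wQ_26_wN_1_rb8033094230v2_6 := p_wQ_26_wN_1_rb8033094230v2_6 g__wQ_26_wN_1_rb8033094230v2_7

theorem g__wQ_26_wN_1_rb8033094230v2_9 : GoodKC AS k_wQ_26_wN_1_rb8033094230v2_9 := p_wQ_26_wN_1_rb8033094230v2_9

theorem g__wQ_26_wN_1_rb8033094230v2_5 : GoodKC AS k_wQ_26_wN_1_rb8033094230v2_5 := p_wQ_26_wN_1_rb8033094230v2_5 g__wQ_26_wN_1_rb8033094230v2_6 g__wQ_26_wN_1_rb8033094230v2_9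

theorem g__wQ_26_wN_1_rb8033094230v2_4 : GoodKC AS k_wQ_26_wN_1_rb8033094230v2_4 := p_wQ_26_wN_1_rb8033094230v2_4 g__wQ_26_wN_1_rb8033094230v2_5

theorem g__wQ_26_wN_1_rb8033094230v2_3 : GoodKC AS k_wQ_26_wN_1_rb8033094230v2_3 := p_wQ_26_wN_1_rb8033094230v2_3 g__wQ_26_wN_1_rb8033094230v2_4

theorem g__wQ_26_wN_1_rb8033094230v2_2 : GoodKC AS k_wQ_26_wN_1_rb8033094230v2_2 := p_wQ_26_wN_1_rb8033094230v2_2 g__wQ_26_wN_1_rb8033094230v2_3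

theorem g__wQ_26_wN_1_rb8033094230v2_13 : GoodKC AS k_wQ_26_wN_1_rb8033094230v2_13 := p_wQ_26_wN_1_rb8033094230v2_13

theorem g__wQ_26_wN_1_rb8033094230v2_14 : GoodKC AS k_wQ_26_wN_1_rb8033094230v2_14 := p_wQ_26_wN_1_rb8033094230v2_14

theorem g__wQ_26_wN_1_rb8033094230v2_12 : GoodKC AS k_wQ_26_wN_1_rb8033094230v2_12 := p_wQ_26_wN_1_rb8033094230v2_12 g__wQ_26_wN_1_rb8033094230v2_13 g__wQ_26_wN_1_rb8033094230v2_14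

theorem g__wQ_26_wN_1_rb8033094230v2_21 : GoodKC AS k_wQ_26_wN_1_rb8033094230v2_21 := p_wQ_26_wN_1_rb8033094230v2_21

theorem g__wQ_26_wN_1_rb8033094230v2_20 : GoodKC AS k_wQ_26_wN_1_rb8033094230v2_20 := p_wQ_26_wN_1_rb8033094230v2_20 g__wQ_26_wN_1_rb8033094230v2_21

theorem g__wQ_26_wN_1_rb8033094230v2_19 : GoodKC AS k_wQ_26_wN_1_rb8033094230v2_19 := p_wQ_26_wN_1_rb8033094230v2_19 g__wQ_26_wN_1_rb8033094230v2_20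

theorem g__wQ_26_wN_1_rb8033094230v2_18 : GoodKC AS k_wQ_26_wN_1_rb8033094230v2_18 := p_wQ_26_wN_1_rb8033094230v2_18 g__wQ_26_wN_1_rb8033094230v2_19

theorem g__wQ_26_wN_1_rb8033094230v2_22 : GoodKC AS k_wQ_26_wN_1_rb8033094230v2_22 := p_wQ_26_wN_1_rb8033094230v2_22

theorem g__wQ_26_wN_1_rb8033094230v2_17 : GoodKC AS k_wQ_26_wN_1_rb8033094230v2_17 := p_wQ_26_wN_1_rb8033094230v2_17 g__wQ_26_wN_1_rb8033094230v2_18 g__wQ_26_wN_1_rb8033094230v2_22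

theorem g__wQ_26_wN_1_rb8033094230v2_16 : GoodKC AS k_wQ_26_wN_1_rb8033094230v2_16 := p_wQ_26_wN_1_rb8033094230v2_16 g__wQ_26_wN_1_rb8033094230v2_17

theorem g__wQ_26_wN_1_rb8033094230v2_15 : GoodKC AS k_wQ_26_wN_1_rb8033094230v2_15 := p_wQ_26_wN_1_rb8033094230v2_15 g__wQ_26_wN_1_rb8033094230v2_16

theorem g__wQ_26_wN_1_rb8033094230v2_11 : GoodKC AS k_wQ_26_wN_1_rb8033094230v2_11 := p_wQ_26_wN_1_rb8033094230v2_11 g__wQ_26_wN_1_rb8033094230v2_12 g__wQ_26_wN_1_rb8033094230v2_15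

theorem g__wQ_26_wN_1_rb8033094230v2_24 : GoodKC AS k_wQ_26_wN_1_rb8033094230v2_24 := p_wQ_26_wN_1_rb8033094230v2_24

theorem g__wQ_26_wN_1_rb8033094230v2_23 : GoodKC AS k_wQ_26_wN_1_rb8033094230v2_23 := p_wQ_26_wN_1_rb8033094230v2_23 g__wQ_26_wN_1_rb8033094230v2_24

theorem g__wQ_26_wN_1_rb8033094230v2_10 : GoodKC AS k_wQ_26_wN_1_rb8033094230v2_10 := p_wQ_26_wN_1_rb8033094230v2_10 g__wQ_26_wN_1_rb8033094230v2_11 g__wQ_26_wN_1_rb8033094230v2_23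

theorem g__wQ_26_wN_1_rb8033094230v2_1 : GoodKC AS k_wQ_26_wN_1_rb8033094230v2_1 := p_wQ_26_wN_1_rb8033094230v2_1 g__wQ_26_wN_1_rb8033094230v2_2 g__wQ_26_wN_1_rb8033094230v2_10

theorem g__wQ_26_wN_1_rb8033094230v2_25 : GoodKC AS k_wQ_26_wN_1_rb8033094230v2_25 := p_wQ_26_wN_1_rb8033094230v2_25

theorem g__wQ_26_wN_1_rb8033094230v2_27 : GoodKC AS k_wQ_26_wN_1_rb8033094230v2_27 := p_wQ_26_wN_1_rb8033094230v2_27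

theorem g__wQ_26_wN_1_rb8033094230v2_32 : GoodKC AS k_wQ_26_wN_1_rb8033094230v2_32 := p_wQ_26_wN_1_rb8033094230v2_32

theorem g__wQ_26_wN_1_rb8033094230v2_34 : GoodKC AS k_wQ_26_wN_1_rb8033094230v2_34 := p_wQ_26_wN_1_rb8033094230v2_34

theorem g__wQ_26_wN_1_rb8033094230v2_33 : GoodKC AS k_wQ_26_wN_1_rb8033094230v2_33 := p_wQ_26_wN_1_rb8033094230v2_33 g__wQ_26_wN_1_rb8033094230v2_34

theorem g__wQ_26_wN_1_rb8033094230v2_31 : GoodKC AS k_wQ_26_wN_1_rb8033094230v2_31 := p_wQ_26_wN_1_rb8033094230v2_31 g__wQ_26_wN_1_rb8033094230v2_32 g__wQ_26_wN_1_rb8033094230v2_33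

theorem g__wQ_26_wN_1_rb8033094230v2_30 : GoodKC AS k_wQ_26_wN_1_rb8033094230v2_30 := p_wQ_26_wN_1_rb8033094230v2_30 g__wQ_26_wN_1_rb8033094230v2_31

theorem g__wQ_26_wN_1_rb8033094230v2_29 : GoodKC AS k_wQ_26_wN_1_rb8033094230v2_29 := p_wQ_26_wN_1_rb8033094230v2_29 g__wQ_26_wN_1_rb8033094230v2_30

theorem g__wQ_26_wN_1_rb8033094230v2_28 : GoodKC AS k_wQ_26_wN_1_rb8033094230v2_28 := p_wQ_26_wN_1_rb8033094230v2_28 g__wQ_26_wN_1_rb8033094230v2_29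

theorem g__wQ_26_wN_1_rb8033094230v2_26 : GoodKC AS k_wQ_26_wN_1_rb8033094230v2_26 := p_wQ_26_wN_1_rb8033094230v2_26 g__wQ_26_wN_1_rb8033094230v2_27 g__wQ_26_wN_1_rb8033094230v2_28

theorem g__wQ_26_wN_1_rb8033094230v2_0 : GoodKC AS k_wQ_26_wN_1_rb8033094230v2_0 := p_wQ_26_wN_1_rb8033094230v2_0 g__wQ_26_wN_1_rb8033094230v2_1 g__wQ_26_wN_1_rb8033094230v2_25 g__wQ_26_wN_1_rb8033094230v2_26

theorem g_wQ_26_wN_1_rb8033094230x3 : GoodKC AS c_wQ_26_wN_1_rb8033094230x3 := p_wQ_26_wN_1_rb8033094230x2 g__wQ_26_wN_1_rb8033094230v2_0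

theorem g__wQ_26_wN_1_rb803309422fx2_4 : GoodKC AS k_wQ_26_wN_1_rb803309422fx2_4 := p_wQ_26_wN_1_rb803309422fx2_4

theorem g__wQ_26_wN_1_rb803309422fx2_7 : GoodKC AS k_wQ_26_wN_1_rb803309422fx2_7 := p_wQ_26_wN_1_rb803309422fx2_7

theorem g__wQ_26_wN_1_rb803309422fx2_6 : GoodKC AS k_wQ_26_wN_1_rb803309422fx2_6 := p_wQ_26_wN_1_rb803309422fx2_6 g__wQ_26_wN_1_rb803309422fx2_7

theorem g__wQ_26_wN_1_rb803309422fx2_5 : GoodKC AS k_wQ_26_wN_1_rb803309422fx2_5 := p_wQ_26_wN_1_rb803309422fx2_5 g__wQ_26_wN_1_rb803309422fx2_6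

theorem g__wQ_26_wN_1_rb803309422fx2_3 : GoodKC AS k_wQ_26_wN_1_rb803309422fx2_3 := p_wQ_26_wN_1_rb803309422fx2_3 g__wQ_26_wN_1_rb803309422fx2_4 g__wQ_26_wN_1_rb803309422fx2_5

theorem g__wQ_26_wN_1_rb803309422fx2_2 : GoodKC AS k_wQ_26_wN_1_rb803309422fx2_2 := p_wQ_26_wN_1_rb803309422fx2_2 g__wQ_26_wN_1_rb803309422fx2_3

theorem g__wQ_26_wN_1_rb803309422fx2_1 : GoodKC AS k_wQ_26_wN_1_rb803309422fx2_1 := p_wQ_26_wN_1_rb803309422fx2_1 g__wQ_26_wN_1_rb803309422fx2_2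

theorem g__wQ_26_wN_1_rb803309422fx2_13 : GoodKC AS k_wQ_26_wN_1_rb803309422fx2_13 := p_wQ_26_wN_1_rb803309422fx2_13

theorem g__wQ_26_wN_1_rb803309422fx2_12 : GoodKC AS k_wQ_26_wN_1_rb803309422fx2_12 := p_wQ_26_wN_1_rb803309422fx2_12 g__wQ_26_wN_1_rb803309422fx2_13

theorem g__wQ_26_wN_1_rb803309422fx2_11 : GoodKC AS k_wQ_26_wN_1_rb803309422fx2_11 := p_wQ_26_wN_1_rb803309422fx2_11 g__wQ_26_wN_1_rb803309422fx2_12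

theorem g__wQ_26_wN_1_rb803309422fx2_10 : GoodKC AS k_wQ_26_wN_1_rb803309422fx2_10 := p_wQ_26_wN_1_rb803309422fx2_10 g__wQ_26_wN_1_rb803309422fx2_11

theorem g__wQ_26_wN_1_rb803309422fx2_9 : GoodKC AS k_wQ_26_wN_1_rb803309422fx2_9 := p_wQ_26_wN_1_rb803309422fx2_9 g__wQ_26_wN_1_rb803309422fx2_10

theorem g__wQ_26_wN_1_rb803309422fx2_8 : GoodKC AS k_wQ_26_wN_1_rb803309422fx2_8 := p_wQ_26_wN_1_rb803309422fx2_8 g__wQ_26_wN_1_rb803309422fx2_9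

theorem g__wQ_26_wN_1_rb803309422fx2_0 : GoodKC AS k_wQ_26_wN_1_rb803309422fx2_0 := p_wQ_26_wN_1_rb803309422fx2_0 g__wQ_26_wN_1_rb803309422fx2_1 g__wQ_26_wN_1_rb803309422fx2_8

theorem g__wQ_26_wN_1_rb803309422fx2_19 : GoodKC AS k_wQ_26_wN_1_rb803309422fx2_19 := p_wQ_26_wN_1_rb803309422fx2_19

theorem g__wQ_26_wN_1_rb803309422fx2_18 : GoodKC AS k_wQ_26_wN_1_rb803309422fx2_18 := p_wQ_26_wN_1_rb803309422fx2_18 g__wQ_26_wN_1_rb803309422fx2_19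

theorem g__wQ_26_wN_1_rb803309422fx2_17 : GoodKC AS k_wQ_26_wN_1_rb803309422fx2_17 := p_wQ_26_wN_1_rb803309422fx2_17 g__wQ_26_wN_1_rb803309422fx2_18

theorem g__wQ_26_wN_1_rb803309422fx2_16 : GoodKC AS k_wQ_26_wN_1_rb803309422fx2_16 := p_wQ_26_wN_1_rb803309422fx2_16 g__wQ_26_wN_1_rb803309422fx2_17

theorem g__wQ_26_wN_1_rb803309422fx2_20 : GoodKC AS k_wQ_26_wN_1_rb803309422fx2_20 := p_wQ_26_wN_1_rb803309422fx2_20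

theorem g__wQ_26_wN_1_rb803309422fx2_15 : GoodKC AS k_wQ_26_wN_1_rb803309422fx2_15 := p_wQ_26_wN_1_rb803309422fx2_15 g__wQ_26_wN_1_rb803309422fx2_16 g__wQ_26_wN_1_rb803309422fx2_20

theorem g__wQ_26_wN_1_rb803309422fx2_14 : GoodKC AS k_wQ_26_wN_1_rb803309422fx2_14 := p_wQ_26_wN_1_rb803309422fx2_14 g__wQ_26_wN_1_rb803309422fx2_15

theorem g__wQ_26_wN_1_rb803309422fx2_21 : GoodKC AS k_wQ_26_wN_1_rb803309422fx2_21 := p_wQ_26_wN_1_rb803309422fx2_21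

theorem g__wQ_26_wN_1_rb803309422fx2_23 : GoodKC AS k_wQ_26_wN_1_rb803309422fx2_23 := p_wQ_26_wN_1_rb803309422fx2_23

theorem g__wQ_26_wN_1_rb803309422fx2_24 : GoodKC AS k_wQ_26_wN_1_rb803309422fx2_24 := p_wQ_26_wN_1_rb803309422fx2_24

theorem g__wQ_26_wN_1_rb803309422fx2_26 : GoodKC AS k_wQ_26_wN_1_rb803309422fx2_26 := p_wQ_26_wN_1_rb803309422fx2_26

theorem g__wQ_26_wN_1_rb803309422fx2_25 : GoodKC AS k_wQ_26_wN_1_rb803309422fx2_25 := p_wQ_26_wN_1_rb803309422fx2_25 g__wQ_26_wN_1_rb803309422fx2_26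

theorem g__wQ_26_wN_1_rb803309422fx2_22 : GoodKC AS k_wQ_26_wN_1_rb803309422fx2_22 := p_wQ_26_wN_1_rb803309422fx2_22 g__wQ_26_wN_1_rb803309422fx2_23 g__wQ_26_wN_1_rb803309422fx2_24 g__wQ_26_wN_1_rb803309422fx2_25

theorem g_wQ_26_wN_1_rb803309422fx3 : GoodKC AS c_wQ_26_wN_1_rb803309422fx3 := p_wQ_26_wN_1_rb803309422fx2 g__wQ_26_wN_1_rb803309422fx2_0 g__wQ_26_wN_1_rb803309422fx2_14 g__wQ_26_wN_1_rb803309422fx2_21 g__wQ_26_wN_1_rb803309422fx2_22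

theorem g_wQ_26_wN_1_rb803309422ex3 : GoodKC AS c_wQ_26_wN_1_rb803309422ex3 := p_wQ_26_wN_1_rb803309422ex2

theorem g_wQ_26_wN_1_rb803309422dx3 : GoodKC AS c_wQ_26_wN_1_rb803309422dx3 := p_wQ_26_wN_1_rb803309422dx2

theorem g_wQ_26_wN_1_rb803309422bx3 : GoodKC AS c_wQ_26_wN_1_rb803309422bx3 := p_wQ_26_wN_1_rb803309422bx2

theorem g__wQ_26_wN_1_rb803309422ax2_3 : GoodKC AS k_wQ_26_wN_1_rb803309422ax2_3 := p_wQ_26_wN_1_rb803309422ax2_3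

theorem g__wQ_26_wN_1_rb803309422ax2_2 : GoodKC AS k_wQ_26_wN_1_rb803309422ax2_2 := p_wQ_26_wN_1_rb803309422ax2_2 g__wQ_26_wN_1_rb803309422ax2_3

theorem g__wQ_26_wN_1_rb803309422ax2_1 : GoodKC AS k_wQ_26_wN_1_rb803309422ax2_1 := p_wQ_26_wN_1_rb803309422ax2_1 g__wQ_26_wN_1_rb803309422ax2_2

theorem g__wQ_26_wN_1_rb803309422ax2_0 : GoodKC AS k_wQ_26_wN_1_rb803309422ax2_0 := p_wQ_26_wN_1_rb803309422ax2_0 g__wQ_26_wN_1_rb803309422ax2_1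

theorem g_wQ_26_wN_1_rb803309422ax3 : GoodKC AS c_wQ_26_wN_1_rb803309422ax3 := p_wQ_26_wN_1_rb803309422ax2 g__wQ_26_wN_1_rb803309422ax2_0

theorem g_wQ_26_wN_1_rb8033094229x3 : GoodKC AS c_wQ_26_wN_1_rb8033094229x3 := p_wQ_26_wN_1_rb8033094229x2

theorem g_wQ_26_wN_1_rb8033094227x3 : GoodKC AS c_wQ_26_wN_1_rb8033094227x3 := p_wQ_26_wN_1_rb8033094227x2

theorem g_wQ_26_wN_1_rb8033094226x3 : GoodKC AS c_wQ_26_wN_1_rb8033094226x3 := p_wQ_26_wN_1_rb8033094226x2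

theorem g_wQ_26_wN_1_rb8033094225x3 : GoodKC AS c_wQ_26_wN_1_rb8033094225x3 := p_wQ_26_wN_1_rb8033094225x2

theorem g_wQ_26_wN_1_rb8033094224x3 : GoodKC AS c_wQ_26_wN_1_rb8033094224x3 := p_wQ_26_wN_1_rb8033094224x2

theorem g_wQ_26_wN_1_rb8033094223x3 : GoodKC AS c_wQ_26_wN_1_rb8033094223x3 := p_wQ_26_wN_1_rb8033094223x2

theorem g_wQ_26_wN_1_rb8033094222x3 : GoodKC AS c_wQ_26_wN_1_rb8033094222x3 := p_wQ_26_wN_1_rb8033094222x2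

theorem g_wQ_26_wN_1_rb8033094220x3 : GoodKC AS c_wQ_26_wN_1_rb8033094220x3 := p_wQ_26_wN_1_rb8033094220x2

theorem g_wQ_26_wN_1_rb803309421fx3 : GoodKC AS c_wQ_26_wN_1_rb803309421fx3 := p_wQ_26_wN_1_rb803309421fx2

theorem g_wQ_26_wN_1_rb803309421ex3 : GoodKC AS c_wQ_26_wN_1_rb803309421ex3 := p_wQ_26_wN_1_rb803309421ex2

theorem g_wQ_26_wN_1_rb803309421cx3 : GoodKC AS c_wQ_26_wN_1_rb803309421cx3 := p_wQ_26_wN_1_rb803309421cx2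

theorem g__wQ_26_wN_1_rb80330942x3_20 : GoodKC AS k_wQ_26_wN_1_rb80330942x3_20 := p_wQ_26_wN_1_rb80330942x3_20

theorem g__wQ_26_wN_1_rb80330942x3_22 : GoodKC AS k_wQ_26_wN_1_rb80330942x3_22 := p_wQ_26_wN_1_rb80330942x3_22

theorem g__wQ_26_wN_1_rb80330942x3_21 : GoodKC AS k_wQ_26_wN_1_rb80330942x3_21 := p_wQ_26_wN_1_rb80330942x3_21 g__wQ_26_wN_1_rb80330942x3_22

theorem g__wQ_26_wN_1_rb80330942x3_19 : GoodKC AS k_wQ_26_wN_1_rb80330942x3_19 := p_wQ_26_wN_1_rb80330942x3_19 g__wQ_26_wN_1_rb80330942x3_20 g__wQ_26_wN_1_rb80330942x3_21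

theorem g__wQ_26_wN_1_rb80330942x3_24 : GoodKC AS k_wQ_26_wN_1_rb80330942x3_24 := p_wQ_26_wN_1_rb80330942x3_24

theorem g__wQ_26_wN_1_rb80330942x3_29 : GoodKC AS k_wQ_26_wN_1_rb80330942x3_29 := p_wQ_26_wN_1_rb80330942x3_29

theorem g__wQ_26_wN_1_rb8033094201x2_0 : GoodKC AS k_wQ_26_wN_1_rb8033094201x2_0 := p_wQ_26_wN_1_rb8033094201x2_0

theorem g_wQ_26_wN_1_rb8033094201x3 : GoodKC AS c_wQ_26_wN_1_rb8033094201x3 := p_wQ_26_wN_1_rb8033094201x2 g__wQ_26_wN_1_rb8033094201x2_0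

theorem g__wQ_26_wN_1_rb8033094202x2_2 : GoodKC AS k_wQ_26_wN_1_rb8033094202x2_2 := p_wQ_26_wN_1_rb8033094202x2_2

theorem g__wQ_26_wN_1_rb8033094202x2_3 : GoodKC AS k_wQ_26_wN_1_rb8033094202x2_3 := p_wQ_26_wN_1_rb8033094202x2_3

theorem g__wQ_26_wN_1_rb8033094202x2_1 : GoodKC AS k_wQ_26_wN_1_rb8033094202x2_1 := p_wQ_26_wN_1_rb8033094202x2_1 g__wQ_26_wN_1_rb8033094202x2_2 g__wQ_26_wN_1_rb8033094202x2_3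

theorem g__wQ_26_wN_1_rb8033094202x2_0 : GoodKC AS k_wQ_26_wN_1_rb8033094202x2_0 := p_wQ_26_wN_1_rb8033094202x2_0 g__wQ_26_wN_1_rb8033094202x2_1

theorem g_wQ_26_wN_1_rb8033094202x3 : GoodKC AS c_wQ_26_wN_1_rb8033094202x3 := p_wQ_26_wN_1_rb8033094202x2 g__wQ_26_wN_1_rb8033094202x2_0

theorem g__wQ_26_wN_1_rb8033094200v2_2 : GoodKC AS k_wQ_26_wN_1_rb8033094200v2_2 := p_wQ_26_wN_1_rb8033094200v2_2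

theorem g__wQ_26_wN_1_rb8033094200v2_1 : GoodKC AS k_wQ_26_wN_1_rb8033094200v2_1 := p_wQ_26_wN_1_rb8033094200v2_1 g__wQ_26_wN_1_rb8033094200v2_2

theorem g__wQ_26_wN_1_rb8033094200v2_0 : GoodKC AS k_wQ_26_wN_1_rb8033094200v2_0 := p_wQ_26_wN_1_rb8033094200v2_0 g__wQ_26_wN_1_rb8033094200v2_1

theorem g_wQ_26_wN_1_rb8033094200x3 : GoodKC AS c_wQ_26_wN_1_rb8033094200x3 := p_wQ_26_wN_1_rb8033094200x2 g__wQ_26_wN_1_rb8033094200v2_0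

theorem g__wQ_26_wN_1_rb80330942x3_28 : GoodKC AS k_wQ_26_wN_1_rb80330942x3_28 := p_wQ_26_wN_1_rb80330942x3_28 g__wQ_26_wN_1_rb80330942x3_29 g_wQ_26_wN_1_rb8033094201x3 g_wQ_26_wN_1_rb8033094202x3 g_wQ_26_wN_1_rb8033094200x3

theorem g__wQ_26_wN_1_rb80330942x3_27 : GoodKC AS k_wQ_26_wN_1_rb80330942x3_27 := p_wQ_26_wN_1_rb80330942x3_27 g__wQ_26_wN_1_rb80330942x3_28

theorem g__wQ_26_wN_1_rb80330942x3_26 : GoodKC AS k_wQ_26_wN_1_rb80330942x3_26 := p_wQ_26_wN_1_rb80330942x3_26 g__wQ_26_wN_1_rb80330942x3_27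

theorem g__wQ_26_wN_1_rb80330942x3_25 : GoodKC AS k_wQ_26_wN_1_rb80330942x3_25 := p_wQ_26_wN_1_rb80330942x3_25 g__wQ_26_wN_1_rb80330942x3_26

theorem g__wQ_26_wN_1_rb80330942x3_23 : GoodKC AS k_wQ_26_wN_1_rb80330942x3_23 := p_wQ_26_wN_1_rb80330942x3_23 g__wQ_26_wN_1_rb80330942x3_24 g__wQ_26_wN_1_rb80330942x3_25

theorem g__wQ_26_wN_1_rb80330942x3_18 : GoodKC AS k_wQ_26_wN_1_rb80330942x3_18 := p_wQ_26_wN_1_rb80330942x3_18 g__wQ_26_wN_1_rb80330942x3_19 g__wQ_26_wN_1_rb80330942x3_23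

theorem g__wQ_26_wN_1_rb80330942x3_17 : GoodKC AS k_wQ_26_wN_1_rb80330942x3_17 := p_wQ_26_wN_1_rb80330942x3_17 g__wQ_26_wN_1_rb80330942x3_18

theorem g__wQ_26_wN_1_rb80330942x3_16 : GoodKC AS k_wQ_26_wN_1_rb80330942x3_16 := p_wQ_26_wN_1_rb80330942x3_16 g__wQ_26_wN_1_rb80330942x3_17

theorem g_wQ_26_wN_1_rb803309421bx3 : GoodKC AS c_wQ_26_wN_1_rb803309421bx3 := p_wQ_26_wN_1_rb803309421bx2

theorem g_wQ_26_wN_1_rb8033094219x3 : GoodKC AS c_wQ_26_wN_1_rb8033094219x3 := p_wQ_26_wN_1_rb8033094219x2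

theorem g_wQ_26_wN_1_rb8033094216x3 : GoodKC AS c_wQ_26_wN_1_rb8033094216x3 := p_wQ_26_wN_1_rb8033094216x2

theorem g_wQ_26_wN_1_rb8033094212x3 : GoodKC AS c_wQ_26_wN_1_rb8033094212x3 := p_wQ_26_wN_1_rb8033094212x2

theorem g_wQ_26_wN_1_rb8033094211x3 : GoodKC AS c_wQ_26_wN_1_rb8033094211x3 := p_wQ_26_wN_1_rb8033094211x2

theorem g_wQ_26_wN_1_rb8033094210x3 : GoodKC AS c_wQ_26_wN_1_rb8033094210x3 := p_wQ_26_wN_1_rb8033094210x2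

theorem g_wQ_26_wN_1_rb803309420fx3 : GoodKC AS c_wQ_26_wN_1_rb803309420fx3 := p_wQ_26_wN_1_rb803309420fx2

theorem g_wQ_26_wN_1_rb803309420dx3 : GoodKC AS c_wQ_26_wN_1_rb803309420dx3 := p_wQ_26_wN_1_rb803309420dx2

theorem g_wQ_26_wN_1_rb803309420bx3 : GoodKC AS c_wQ_26_wN_1_rb803309420bx3 := p_wQ_26_wN_1_rb803309420bx2

theorem g_wQ_26_wN_1_rb8033094209x3 : GoodKC AS c_wQ_26_wN_1_rb8033094209x3 := p_wQ_26_wN_1_rb8033094209x2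

theorem g_wQ_26_wN_1_rb8033094205x3 : GoodKC AS c_wQ_26_wN_1_rb8033094205x3 := p_wQ_26_wN_1_rb8033094205x2

theorem g_wQ_26_wN_1_rb8033094204x3 : GoodKC AS c_wQ_26_wN_1_rb8033094204x3 := p_wQ_26_wN_1_rb8033094204x2

theorem g__wQ_26_wN_1_rb8033094203x2_5 : GoodKC AS k_wQ_26_wN_1_rb8033094203x2_5 := p_wQ_26_wN_1_rb8033094203x2_5

theorem g__wQ_26_wN_1_rb8033094203x2_6 : GoodKC AS k_wQ_26_wN_1_rb8033094203x2_6 := p_wQ_26_wN_1_rb8033094203x2_6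

theorem g__wQ_26_wN_1_rb8033094203x2_4 : GoodKC AS k_wQ_26_wN_1_rb8033094203x2_4 := p_wQ_26_wN_1_rb8033094203x2_4 g__wQ_26_wN_1_rb8033094203x2_5 g__wQ_26_wN_1_rb8033094203x2_6

theorem g__wQ_26_wN_1_rb8033094203x2_3 : GoodKC AS k_wQ_26_wN_1_rb8033094203x2_3 := p_wQ_26_wN_1_rb8033094203x2_3 g__wQ_26_wN_1_rb8033094203x2_4

theorem g__wQ_26_wN_1_rb8033094203x2_2 : GoodKC AS k_wQ_26_wN_1_rb8033094203x2_2 := p_wQ_26_wN_1_rb8033094203x2_2 g__wQ_26_wN_1_rb8033094203x2_3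

theorem g__wQ_26_wN_1_rb8033094203x2_1 : GoodKC AS k_wQ_26_wN_1_rb8033094203x2_1 := p_wQ_26_wN_1_rb8033094203x2_1 g__wQ_26_wN_1_rb8033094203x2_2

theorem g__wQ_26_wN_1_rb8033094203x2_0 : GoodKC AS k_wQ_26_wN_1_rb8033094203x2_0 := p_wQ_26_wN_1_rb8033094203x2_0 g__wQ_26_wN_1_rb8033094203x2_1

theorem g_wQ_26_wN_1_rb8033094203x3 : GoodKC AS c_wQ_26_wN_1_rb8033094203x3 := p_wQ_26_wN_1_rb8033094203x2 g__wQ_26_wN_1_rb8033094203x2_0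

theorem g_wQ_26_wN_1_rb8033094206x3 : GoodKC AS c_wQ_26_wN_1_rb8033094206x3 := p_wQ_26_wN_1_rb8033094206x2

theorem g_wQ_26_wN_1_rb8033094207x3 : GoodKC AS c_wQ_26_wN_1_rb8033094207x3 := p_wQ_26_wN_1_rb8033094207x2

theorem g_wQ_26_wN_1_rb8033094208x3 : GoodKC AS c_wQ_26_wN_1_rb8033094208x3 := p_wQ_26_wN_1_rb8033094208x2

theorem g_wQ_26_wN_1_rb803309420ax3 : GoodKC AS c_wQ_26_wN_1_rb803309420ax3 := p_wQ_26_wN_1_rb803309420ax2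

theorem g_wQ_26_wN_1_rb803309420cx3 : GoodKC AS c_wQ_26_wN_1_rb803309420cx3 := p_wQ_26_wN_1_rb803309420cx2

theorem g_wQ_26_wN_1_rb803309420ex3 : GoodKC AS c_wQ_26_wN_1_rb803309420ex3 := p_wQ_26_wN_1_rb803309420ex2

theorem g_wQ_26_wN_1_rb8033094213x3 : GoodKC AS c_wQ_26_wN_1_rb8033094213x3 := p_wQ_26_wN_1_rb8033094213x2

theorem g_wQ_26_wN_1_rb8033094214x3 : GoodKC AS c_wQ_26_wN_1_rb8033094214x3 := p_wQ_26_wN_1_rb8033094214x2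

theorem g_wQ_26_wN_1_rb8033094215x3 : GoodKC AS c_wQ_26_wN_1_rb8033094215x3 := p_wQ_26_wN_1_rb8033094215x2

theorem g_wQ_26_wN_1_rb8033094217x3 : GoodKC AS c_wQ_26_wN_1_rb8033094217x3 := p_wQ_26_wN_1_rb8033094217x2

theorem g_wQ_26_wN_1_rb8033094218x3 : GoodKC AS c_wQ_26_wN_1_rb8033094218x3 := p_wQ_26_wN_1_rb8033094218x2

theorem g_wQ_26_wN_1_rb803309421ax3 : GoodKC AS c_wQ_26_wN_1_rb803309421ax3 := p_wQ_26_wN_1_rb803309421ax2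

theorem g_wQ_26_wN_1_rb803309421dx3 : GoodKC AS c_wQ_26_wN_1_rb803309421dx3 := p_wQ_26_wN_1_rb803309421dx2

theorem g_wQ_26_wN_1_rb8033094221x3 : GoodKC AS c_wQ_26_wN_1_rb8033094221x3 := p_wQ_26_wN_1_rb8033094221x2

theorem g__wQ_26_wN_1_rb8033094228x2_3 : GoodKC AS k_wQ_26_wN_1_rb8033094228x2_3 := p_wQ_26_wN_1_rb8033094228x2_3

theorem g__wQ_26_wN_1_rb8033094228x2_2 : GoodKC AS k_wQ_26_wN_1_rb8033094228x2_2 := p_wQ_26_wN_1_rb8033094228x2_2 g__wQ_26_wN_1_rb8033094228x2_3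

theorem g__wQ_26_wN_1_rb8033094228x2_4 : GoodKC AS k_wQ_26_wN_1_rb8033094228x2_4 := p_wQ_26_wN_1_rb8033094228x2_4

theorem g__wQ_26_wN_1_rb8033094228x2_8 : GoodKC AS k_wQ_26_wN_1_rb8033094228x2_8 := p_wQ_26_wN_1_rb8033094228x2_8

theorem g__wQ_26_wN_1_rb8033094228x2_7 : GoodKC AS k_wQ_26_wN_1_rb8033094228x2_7 := p_wQ_26_wN_1_rb8033094228x2_7 g__wQ_26_wN_1_rb8033094228x2_8

theorem g__wQ_26_wN_1_rb8033094228x2_6 : GoodKC AS k_wQ_26_wN_1_rb8033094228x2_6 := p_wQ_26_wN_1_rb8033094228x2_6 g__wQ_26_wN_1_rb8033094228x2_7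

theorem g__wQ_26_wN_1_rb8033094228x2_5 : GoodKC AS k_wQ_26_wN_1_rb8033094228x2_5 := p_wQ_26_wN_1_rb8033094228x2_5 g__wQ_26_wN_1_rb8033094228x2_6

theorem g__wQ_26_wN_1_rb8033094228x2_1 : GoodKC AS k_wQ_26_wN_1_rb8033094228x2_1 := p_wQ_26_wN_1_rb8033094228x2_1 g__wQ_26_wN_1_rb8033094228x2_2 g__wQ_26_wN_1_rb8033094228x2_4 g__wQ_26_wN_1_rb8033094228x2_5

theorem g__wQ_26_wN_1_rb8033094228x2_0 : GoodKC AS k_wQ_26_wN_1_rb8033094228x2_0 := p_wQ_26_wN_1_rb8033094228x2_0 g__wQ_26_wN_1_rb8033094228x2_1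

theorem g_wQ_26_wN_1_rb8033094228x3 : GoodKC AS c_wQ_26_wN_1_rb8033094228x3 := p_wQ_26_wN_1_rb8033094228x2 g__wQ_26_wN_1_rb8033094228x2_0

theorem g_wQ_26_wN_1_rb803309422cx3 : GoodKC AS c_wQ_26_wN_1_rb803309422cx3 := p_wQ_26_wN_1_rb803309422cx2

theorem g_wQ_26_wN_1_rb8033094235x3 : GoodKC AS c_wQ_26_wN_1_rb8033094235x3 := p_wQ_26_wN_1_rb8033094235x2

theorem g_wQ_26_wN_1_rb8033094239x3 : GoodKC AS c_wQ_26_wN_1_rb8033094239x3 := p_wQ_26_wN_1_rb8033094239x2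

theorem g__wQ_26_wN_1_rb80330942x3_15 : GoodKC AS k_wQ_26_wN_1_rb80330942x3_15 := p_wQ_26_wN_1_rb80330942x3_15 g_wQ_26_wN_1_rb803309423ax3 g_wQ_26_wN_1_rb8033094238x3 g_wQ_26_wN_1_rb8033094237x3 g_wQ_26_wN_1_rb8033094236x3 g_wQ_26_wN_1_rb8033094234x3 g_wQ_26_wN_1_rb8033094233x3 g_wQ_26_wN_1_rb8033094232x3 g_wQ_26_wN_1_rb8033094231x3 g_wQ_26_wN_1_rb8033094230x3 g_wQ_26_wN_1_rb803309422fx3 g_wQ_26_wN_1_rb803309422ex3 g_wQ_26_wN_1_rb803309422dx3 g_wQ_26_wN_1_rb803309422bx3 g_wQ_26_wN_1_rb803309422ax3 g_wQ_26_wN_1_rb8033094229x3 g_wQ_26_wN_1_rb8033094227x3 g_wQ_26_wN_1_rb8033094226x3 g_wQ_26_wN_1_rb8033094225x3 g_wQ_26_wN_1_rb8033094224x3 g_wQ_26_wN_1_rb8033094223x3 g_wQ_26_wN_1_rb8033094222x3 g_wQ_26_wN_1_rb8033094220x3 g_wQ_26_wN_1_rb803309421fx3 g_wQ_26_wN_1_rb803309421ex3 g_wQ_26_wN_1_rb803309421cx3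 g__wQ_26_wN_1_rb80330942x3_16 g_wQ_26_wN_1_rb803309421bx3 g_wQ_26_wN_1_rb8033094219x3 g_wQ_26_wN_1_rb8033094216x3 g_wQ_26_wN_1_rb8033094212x3 g_wQ_26_wN_1_rb8033094211x3 g_wQ_26_wN_1_rb8033094210x3 g_wQ_26_wN_1_rb803309420fx3 g_wQ_26_wN_1_rb803309420dx3 g_wQ_26_wN_1_rb803309420bx3 g_wQ_26_wN_1_rb8033094209x3 g_wQ_26_wN_1_rb8033094205x3 g_wQ_26_wN_1_rb8033094204x3 g_wQ_26_wN_1_rb8033094203x3 g_wQ_26_wN_1_rb8033094206x3 g_wQ_26_wN_1_rb8033094207x3 g_wQ_26_wN_1_rb8033094208x3 g_wQ_26_wN_1_rb803309420ax3 g_wQ_26_wN_1_rb803309420cx3 g_wQ_26_wN_1_rb803309420ex3 g_wQ_26_wN_1_rb8033094213x3 g_wQ_26_wN_1_rb8033094214x3 g_wQ_26_wN_1_rb8033094215x3 g_wQ_26_wN_1_rb8033094217x3 g_wQ_26_wN_1_rb8033094218x3 g_wQ_26_wN_1_rb803309421ax3 g_wQ_26_wN_1_rb803309421dx3 g_wQ_26_wN_1_rb8033094221x3 g_wQ_26_wN_1_rb8033094228x3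 g_wQ_26_wN_1_rb803309422cx3 g_wQ_26_wN_1_rb8033094235x3 g_wQ_26_wN_1_rb8033094239x3

theorem g_wQ_26_wN_1_rb803309423bx3 : GoodKC AS c_wQ_26_wN_1_rb803309423bx3 := p_wQ_26_wN_1_rb803309423bx2

theorem g_wQ_26_wN_1_rb803309423cx3 : GoodKC AS c_wQ_26_wN_1_rb803309423cx3 := p_wQ_26_wN_1_rb803309423cx2

theorem g_wQ_26_wN_1_rb803309423d1bx2 : GoodKC AS c_wQ_26_wN_1_rb803309423d1bx2 := p_wQ_26_wN_1_rb803309423d1bx1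

theorem g_wQ_26_wN_1_rb803309423d19x2 : GoodKC AS c_wQ_26_wN_1_rb803309423d19x2 := p_wQ_26_wN_1_rb803309423d19x1

theorem g__wQ_26_wN_1_rb803309423dx2_3 : GoodKC AS k_wQ_26_wN_1_rb803309423dx2_3 := p_wQ_26_wN_1_rb803309423dx2_3

theorem g__wQ_26_wN_1_rb803309423dx2_4 : GoodKC AS k_wQ_26_wN_1_rb803309423dx2_4 := p_wQ_26_wN_1_rb803309423dx2_4

theorem g__wQ_26_wN_1_rb803309423dx2_8 : GoodKC AS k_wQ_26_wN_1_rb803309423dx2_8 := p_wQ_26_wN_1_rb803309423dx2_8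

theorem g__wQ_26_wN_1_rb803309423dx2_7 : GoodKC AS k_wQ_26_wN_1_rb803309423dx2_7 := p_wQ_26_wN_1_rb803309423dx2_7 g__wQ_26_wN_1_rb803309423dx2_8

theorem g__wQ_26_wN_1_rb803309423dx2_11 : GoodKC AS k_wQ_26_wN_1_rb803309423dx2_11 := p_wQ_26_wN_1_rb803309423dx2_11

theorem g__wQ_26_wN_1_rb803309423dx2_10 : GoodKC AS k_wQ_26_wN_1_rb803309423dx2_10 := p_wQ_26_wN_1_rb803309423dx2_10 g__wQ_26_wN_1_rb803309423dx2_11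

theorem g__wQ_26_wN_1_rb803309423dx2_9 : GoodKC AS k_wQ_26_wN_1_rb803309423dx2_9 := p_wQ_26_wN_1_rb803309423dx2_9 g__wQ_26_wN_1_rb803309423dx2_10

theorem g__wQ_26_wN_1_rb803309423dx2_6 : GoodKC AS k_wQ_26_wN_1_rb803309423dx2_6 := p_wQ_26_wN_1_rb803309423dx2_6 g__wQ_26_wN_1_rb803309423dx2_7 g__wQ_26_wN_1_rb803309423dx2_9

theorem g__wQ_26_wN_1_rb803309423dx2_5 : GoodKC AS k_wQ_26_wN_1_rb803309423dx2_5 := p_wQ_26_wN_1_rb803309423dx2_5 g__wQ_26_wN_1_rb803309423dx2_6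

theorem g__wQ_26_wN_1_rb803309423dx2_2 : GoodKC AS k_wQ_26_wN_1_rb803309423dx2_2 := p_wQ_26_wN_1_rb803309423dx2_2 g__wQ_26_wN_1_rb803309423dx2_3 g__wQ_26_wN_1_rb803309423dx2_4 g__wQ_26_wN_1_rb803309423dx2_5

theorem g__wQ_26_wN_1_rb803309423dx2_13 : GoodKC AS k_wQ_26_wN_1_rb803309423dx2_13 := p_wQ_26_wN_1_rb803309423dx2_13

theorem g__wQ_26_wN_1_rb803309423dx2_12 : GoodKC AS k_wQ_26_wN_1_rb803309423dx2_12 := p_wQ_26_wN_1_rb803309423dx2_12 g__wQ_26_wN_1_rb803309423dx2_13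

theorem g__wQ_26_wN_1_rb803309423dx2_15 : GoodKC AS k_wQ_26_wN_1_rb803309423dx2_15 := p_wQ_26_wN_1_rb803309423dx2_15

theorem g__wQ_26_wN_1_rb803309423dx2_14 : GoodKC AS k_wQ_26_wN_1_rb803309423dx2_14 := p_wQ_26_wN_1_rb803309423dx2_14 g__wQ_26_wN_1_rb803309423dx2_15

theorem g__wQ_26_wN_1_rb803309423dx2_1 : GoodKC AS k_wQ_26_wN_1_rb803309423dx2_1 := p_wQ_26_wN_1_rb803309423dx2_1 g__wQ_26_wN_1_rb803309423dx2_2 g__wQ_26_wN_1_rb803309423dx2_12 g__wQ_26_wN_1_rb803309423dx2_14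

theorem g__wQ_26_wN_1_rb803309423dx2_16 : GoodKC AS k_wQ_26_wN_1_rb803309423dx2_16 := p_wQ_26_wN_1_rb803309423dx2_16

theorem g__wQ_26_wN_1_rb803309423dx2_19 : GoodKC AS k_wQ_26_wN_1_rb803309423dx2_19 := p_wQ_26_wN_1_rb803309423dx2_19

theorem g__wQ_26_wN_1_rb803309423dx2_18 : GoodKC AS k_wQ_26_wN_1_rb803309423dx2_18 := p_wQ_26_wN_1_rb803309423dx2_18 g__wQ_26_wN_1_rb803309423dx2_19

theorem g__wQ_26_wN_1_rb803309423dx2_21 : GoodKC AS k_wQ_26_wN_1_rb803309423dx2_21 := p_wQ_26_wN_1_rb803309423dx2_21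

theorem g__wQ_26_wN_1_rb803309423dx2_24 : GoodKC AS k_wQ_26_wN_1_rb803309423dx2_24 := p_wQ_26_wN_1_rb803309423dx2_24

theorem g__wQ_26_wN_1_rb803309423dx2_23 : GoodKC AS k_wQ_26_wN_1_rb803309423dx2_23 := p_wQ_26_wN_1_rb803309423dx2_23 g__wQ_26_wN_1_rb803309423dx2_24

theorem g__wQ_26_wN_1_rb803309423dx2_31 : GoodKC AS k_wQ_26_wN_1_rb803309423dx2_31 := p_wQ_26_wN_1_rb803309423dx2_31

theorem g__wQ_26_wN_1_rb803309423dx2_30 : GoodKC AS k_wQ_26_wN_1_rb803309423dx2_30 := p_wQ_26_wN_1_rb803309423dx2_30 g__wQ_26_wN_1_rb803309423dx2_31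

theorem g__wQ_26_wN_1_rb803309423dx2_29 : GoodKC AS k_wQ_26_wN_1_rb803309423dx2_29 := p_wQ_26_wN_1_rb803309423dx2_29 g__wQ_26_wN_1_rb803309423dx2_30

theorem g__wQ_26_wN_1_rb803309423dx2_28 : GoodKC AS k_wQ_26_wN_1_rb803309423dx2_28 := p_wQ_26_wN_1_rb803309423dx2_28 g__wQ_26_wN_1_rb803309423dx2_29

theorem g__wQ_26_wN_1_rb803309423dx2_27 : GoodKC AS k_wQ_26_wN_1_rb803309423dx2_27 := p_wQ_26_wN_1_rb803309423dx2_27 g__wQ_26_wN_1_rb803309423dx2_28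

theorem g__wQ_26_wN_1_rb803309423dx2_33 : GoodKC AS k_wQ_26_wN_1_rb803309423dx2_33 := p_wQ_26_wN_1_rb803309423dx2_33

theorem g__wQ_26_wN_1_rb803309423dx2_32 : GoodKC AS k_wQ_26_wN_1_rb803309423dx2_32 := p_wQ_26_wN_1_rb803309423dx2_32 g__wQ_26_wN_1_rb803309423dx2_33

theorem g__wQ_26_wN_1_rb803309423dx2_26 : GoodKC AS k_wQ_26_wN_1_rb803309423dx2_26 := p_wQ_26_wN_1_rb803309423dx2_26 g__wQ_26_wN_1_rb803309423dx2_27 g__wQ_26_wN_1_rb803309423dx2_32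

theorem g__wQ_26_wN_1_rb803309423dx2_25 : GoodKC AS k_wQ_26_wN_1_rb803309423dx2_25 := p_wQ_26_wN_1_rb803309423dx2_25 g__wQ_26_wN_1_rb803309423dx2_26

theorem g__wQ_26_wN_1_rb803309423dx2_22 : GoodKC AS k_wQ_26_wN_1_rb803309423dx2_22 := p_wQ_26_wN_1_rb803309423dx2_22 g__wQ_26_wN_1_rb803309423dx2_23 g__wQ_26_wN_1_rb803309423dx2_25

theorem g__wQ_26_wN_1_rb803309423dx2_20 : GoodKC AS k_wQ_26_wN_1_rb803309423dx2_20 := p_wQ_26_wN_1_rb803309423dx2_20 g__wQ_26_wN_1_rb803309423dx2_21 g__wQ_26_wN_1_rb803309423dx2_22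

theorem g__wQ_26_wN_1_rb803309423dx2_34 : GoodKC AS k_wQ_26_wN_1_rb803309423dx2_34 := p_wQ_26_wN_1_rb803309423dx2_34

theorem g__wQ_26_wN_1_rb803309423dx2_17 : GoodKC AS k_wQ_26_wN_1_rb803309423dx2_17 := p_wQ_26_wN_1_rb803309423dx2_17 g__wQ_26_wN_1_rb803309423dx2_18 g__wQ_26_wN_1_rb803309423dx2_20 g__wQ_26_wN_1_rb803309423dx2_34

theorem g__wQ_26_wN_1_rb803309423dx2_36 : GoodKC AS k_wQ_26_wN_1_rb803309423dx2_36 := p_wQ_26_wN_1_rb803309423dx2_36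

theorem g__wQ_26_wN_1_rb803309423dx2_41 : GoodKC AS k_wQ_26_wN_1_rb803309423dx2_41 := p_wQ_26_wN_1_rb803309423dx2_41

theorem g__wQ_26_wN_1_rb803309423dx2_40 : GoodKC AS k_wQ_26_wN_1_rb803309423dx2_40 := p_wQ_26_wN_1_rb803309423dx2_40 g__wQ_26_wN_1_rb803309423dx2_41

theorem g__wQ_26_wN_1_rb803309423dx2_39 : GoodKC AS k_wQ_26_wN_1_rb803309423dx2_39 := p_wQ_26_wN_1_rb803309423dx2_39 g__wQ_26_wN_1_rb803309423dx2_40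

theorem g__wQ_26_wN_1_rb803309423dx2_42 : GoodKC AS k_wQ_26_wN_1_rb803309423dx2_42 := p_wQ_26_wN_1_rb803309423dx2_42

theorem g__wQ_26_wN_1_rb803309423dx2_43 : GoodKC AS k_wQ_26_wN_1_rb803309423dx2_43 := p_wQ_26_wN_1_rb803309423dx2_43

theorem g__wQ_26_wN_1_rb803309423dx2_38 : GoodKC AS k_wQ_26_wN_1_rb803309423dx2_38 := p_wQ_26_wN_1_rb803309423dx2_38 g__wQ_26_wN_1_rb803309423dx2_39 g__wQ_26_wN_1_rb803309423dx2_42 g__wQ_26_wN_1_rb803309423dx2_43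

theorem g__wQ_26_wN_1_rb803309423dx2_44 : GoodKC AS k_wQ_26_wN_1_rb803309423dx2_44 := p_wQ_26_wN_1_rb803309423dx2_44

theorem g__wQ_26_wN_1_rb803309423dx2_37 : GoodKC AS k_wQ_26_wN_1_rb803309423dx2_37 := p_wQ_26_wN_1_rb803309423dx2_37 g__wQ_26_wN_1_rb803309423dx2_38 g__wQ_26_wN_1_rb803309423dx2_44

theorem g__wQ_26_wN_1_rb803309423dx2_35 : GoodKC AS k_wQ_26_wN_1_rb803309423dx2_35 := p_wQ_26_wN_1_rb803309423dx2_35 g__wQ_26_wN_1_rb803309423dx2_36 g__wQ_26_wN_1_rb803309423dx2_37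

theorem g__wQ_26_wN_1_rb803309423dx2_46 : GoodKC AS k_wQ_26_wN_1_rb803309423dx2_46 := p_wQ_26_wN_1_rb803309423dx2_46

theorem g__wQ_26_wN_1_rb803309423dx2_45 : GoodKC AS k_wQ_26_wN_1_rb803309423dx2_45 := p_wQ_26_wN_1_rb803309423dx2_45 g__wQ_26_wN_1_rb803309423dx2_46

theorem g__wQ_26_wN_1_rb803309423dx2_0 : GoodKC AS k_wQ_26_wN_1_rb803309423dx2_0 := p_wQ_26_wN_1_rb803309423dx2_0 g__wQ_26_wN_1_rb803309423dx2_1 g__wQ_26_wN_1_rb803309423dx2_16 g__wQ_26_wN_1_rb803309423dx2_17 g__wQ_26_wN_1_rb803309423dx2_35 g__wQ_26_wN_1_rb803309423dx2_45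

theorem g__wQ_26_wN_1_rb803309423d18x1_4 : GoodKC AS k_wQ_26_wN_1_rb803309423d18x1_4 := p_wQ_26_wN_1_rb803309423d18x1_4

theorem g__wQ_26_wN_1_rb803309423d18x1_6 : GoodKC AS k_wQ_26_wN_1_rb803309423d18x1_6 := p_wQ_26_wN_1_rb803309423d18x1_6

theorem g__wQ_26_wN_1_rb803309423d18x1_7 : GoodKC AS k_wQ_26_wN_1_rb803309423d18x1_7 := p_wQ_26_wN_1_rb803309423d18x1_7

theorem g__wQ_26_wN_1_rb803309423d18x1_5 : GoodKC AS k_wQ_26_wN_1_rb803309423d18x1_5 := p_wQ_26_wN_1_rb803309423d18x1_5 g__wQ_26_wN_1_rb803309423d18x1_6 g__wQ_26_wN_1_rb803309423d18x1_7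

theorem g__wQ_26_wN_1_rb803309423d18x1_3 : GoodKC AS k_wQ_26_wN_1_rb803309423d18x1_3 := p_wQ_26_wN_1_rb803309423d18x1_3 g__wQ_26_wN_1_rb803309423d18x1_4 g__wQ_26_wN_1_rb803309423d18x1_5

theorem g__wQ_26_wN_1_rb803309423d18x1_12 : GoodKC AS k_wQ_26_wN_1_rb803309423d18x1_12 := p_wQ_26_wN_1_rb803309423d18x1_12

theorem g__wQ_26_wN_1_rb803309423d18x1_11 : GoodKC AS k_wQ_26_wN_1_rb803309423d18x1_11 := p_wQ_26_wN_1_rb803309423d18x1_11 g__wQ_26_wN_1_rb803309423d18x1_12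

theorem g__wQ_26_wN_1_rb803309423d18x1_10 : GoodKC AS k_wQ_26_wN_1_rb803309423d18x1_10 := p_wQ_26_wN_1_rb803309423d18x1_10 g__wQ_26_wN_1_rb803309423d18x1_11

theorem g__wQ_26_wN_1_rb803309423d18x1_9 : GoodKC AS k_wQ_26_wN_1_rb803309423d18x1_9 := p_wQ_26_wN_1_rb803309423d18x1_9 g__wQ_26_wN_1_rb803309423d18x1_10

theorem g__wQ_26_wN_1_rb803309423d18x1_8 : GoodKC AS k_wQ_26_wN_1_rb803309423d18x1_8 := p_wQ_26_wN_1_rb803309423d18x1_8 g__wQ_26_wN_1_rb803309423d18x1_9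

theorem g__wQ_26_wN_1_rb803309423d18x1_2 : GoodKC AS k_wQ_26_wN_1_rb803309423d18x1_2 := p_wQ_26_wN_1_rb803309423d18x1_2 g__wQ_26_wN_1_rb803309423d18x1_3 g__wQ_26_wN_1_rb803309423d18x1_8

theorem g__wQ_26_wN_1_rb803309423d18x1_1 : GoodKC AS k_wQ_26_wN_1_rb803309423d18x1_1 := p_wQ_26_wN_1_rb803309423d18x1_1 g__wQ_26_wN_1_rb803309423d18x1_2

theorem g__wQ_26_wN_1_rb803309423d18x1_0 : GoodKC AS k_wQ_26_wN_1_rb803309423d18x1_0 := p_wQ_26_wN_1_rb803309423d18x1_0 g__wQ_26_wN_1_rb803309423d18x1_1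

theorem g_wQ_26_wN_1_rb803309423d18x2 : GoodKC AS c_wQ_26_wN_1_rb803309423d18x2 := p_wQ_26_wN_1_rb803309423d18x1 g__wQ_26_wN_1_rb803309423d18x1_0

theorem g_wQ_26_wN_1_rb803309423d16x2 : GoodKC AS c_wQ_26_wN_1_rb803309423d16x2 := p_wQ_26_wN_1_rb803309423d16x1

theorem g_wQ_26_wN_1_rb803309423d15x2 : GoodKC AS c_wQ_26_wN_1_rb803309423d15x2 := p_wQ_26_wN_1_rb803309423d15x1

theorem g_wQ_26_wN_1_rb803309423d14x2 : GoodKC AS c_wQ_26_wN_1_rb803309423d14x2 := p_wQ_26_wN_1_rb803309423d14x1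

theorem g_wQ_26_wN_1_rb803309423d13x2 : GoodKC AS c_wQ_26_wN_1_rb803309423d13x2 := p_wQ_26_wN_1_rb803309423d13x1

theorem g_wQ_26_wN_1_rb803309423d12x2 : GoodKC AS c_wQ_26_wN_1_rb803309423d12x2 := p_wQ_26_wN_1_rb803309423d12x1

theorem g_wQ_26_wN_1_rb803309423d10x2 : GoodKC AS c_wQ_26_wN_1_rb803309423d10x2 := p_wQ_26_wN_1_rb803309423d10x1

theorem g_wQ_26_wN_1_rb803309423d0fx2 : GoodKC AS c_wQ_26_wN_1_rb803309423d0fx2 := p_wQ_26_wN_1_rb803309423d0fx1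

theorem g_wQ_26_wN_1_rb803309423d0ex2 : GoodKC AS c_wQ_26_wN_1_rb803309423d0ex2 := p_wQ_26_wN_1_rb803309423d0ex1

theorem g__wQ_26_wN_1_rb803309423dx2_51 : GoodKC AS k_wQ_26_wN_1_rb803309423dx2_51 := p_wQ_26_wN_1_rb803309423dx2_51

theorem g__wQ_26_wN_1_rb803309423dx2_50 : GoodKC AS k_wQ_26_wN_1_rb803309423dx2_50 := p_wQ_26_wN_1_rb803309423dx2_50 g__wQ_26_wN_1_rb803309423dx2_51

theorem g__wQ_26_wN_1_rb803309423dx2_49 : GoodKC AS k_wQ_26_wN_1_rb803309423dx2_49 := p_wQ_26_wN_1_rb803309423dx2_49 g__wQ_26_wN_1_rb803309423dx2_50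

theorem g__wQ_26_wN_1_rb803309423dx2_48 : GoodKC AS k_wQ_26_wN_1_rb803309423dx2_48 := p_wQ_26_wN_1_rb803309423dx2_48 g__wQ_26_wN_1_rb803309423dx2_49

theorem g__wQ_26_wN_1_rb803309423dx2_47 : GoodKC AS k_wQ_26_wN_1_rb803309423dx2_47 := p_wQ_26_wN_1_rb803309423dx2_47 g__wQ_26_wN_1_rb803309423dx2_48

theorem g_wQ_26_wN_1_rb803309423d0dx2 : GoodKC AS c_wQ_26_wN_1_rb803309423d0dx2 := p_wQ_26_wN_1_rb803309423d0dx1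

theorem g_wQ_26_wN_1_rb803309423d0cx2 : GoodKC AS c_wQ_26_wN_1_rb803309423d0cx2 := p_wQ_26_wN_1_rb803309423d0cx1

theorem g_wQ_26_wN_1_rb803309423d0bx2 : GoodKC AS c_wQ_26_wN_1_rb803309423d0bx2 := p_wQ_26_wN_1_rb803309423d0bx1

theorem g_wQ_26_wN_1_rb803309423d0ax2 : GoodKC AS c_wQ_26_wN_1_rb803309423d0ax2 := p_wQ_26_wN_1_rb803309423d0ax1

theorem g_wQ_26_wN_1_rb803309423d07x2 : GoodKC AS c_wQ_26_wN_1_rb803309423d07x2 := p_wQ_26_wN_1_rb803309423d07x1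

theorem g_wQ_26_wN_1_rb803309423d06x2 : GoodKC AS c_wQ_26_wN_1_rb803309423d06x2 := p_wQ_26_wN_1_rb803309423d06x1

theorem g_wQ_26_wN_1_rb803309423d05x2 : GoodKC AS c_wQ_26_wN_1_rb803309423d05x2 := p_wQ_26_wN_1_rb803309423d05x1

theorem g_wQ_26_wN_1_rb803309423d04x2 : GoodKC AS c_wQ_26_wN_1_rb803309423d04x2 := p_wQ_26_wN_1_rb803309423d04x1

theorem g_wQ_26_wN_1_rb803309423d03x2 : GoodKC AS c_wQ_26_wN_1_rb803309423d03x2 := p_wQ_26_wN_1_rb803309423d03x1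

theorem g_wQ_26_wN_1_rb803309423d00x2 : GoodKC AS c_wQ_26_wN_1_rb803309423d00x2 := p_wQ_26_wN_1_rb803309423d00x1

theorem g_wQ_26_wN_1_rb803309423d01x2 : GoodKC AS c_wQ_26_wN_1_rb803309423d01x2 := p_wQ_26_wN_1_rb803309423d01x1

theorem g_wQ_26_wN_1_rb803309423d02x2 : GoodKC AS c_wQ_26_wN_1_rb803309423d02x2 := p_wQ_26_wN_1_rb803309423d02x1

theorem g_wQ_26_wN_1_rb803309423d08x2 : GoodKC AS c_wQ_26_wN_1_rb803309423d08x2 := p_wQ_26_wN_1_rb803309423d08x1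

theorem g_wQ_26_wN_1_rb803309423d09x2 : GoodKC AS c_wQ_26_wN_1_rb803309423d09x2 := p_wQ_26_wN_1_rb803309423d09x1

theorem g_wQ_26_wN_1_rb803309423d1104x1 : GoodKC AS c_wQ_26_wN_1_rb803309423d1104x1 := p_wQ_26_wN_1_rb803309423d1104x1

theorem g_wQ_26_wN_1_rb803309423d1102x1 : GoodKC AS c_wQ_26_wN_1_rb803309423d1102x1 := p_wQ_26_wN_1_rb803309423d1102x1

theorem g_wQ_26_wN_1_rb803309423d1101x1 : GoodKC AS c_wQ_26_wN_1_rb803309423d1101x1 := p_wQ_26_wN_1_rb803309423d1101x1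

theorem g_wQ_26_wN_1_rb803309423d1100x1 : GoodKC AS c_wQ_26_wN_1_rb803309423d1100x1 := p_wQ_26_wN_1_rb803309423d1100x1

theorem g_wQ_26_wN_1_rb803309423d1103x1 : GoodKC AS c_wQ_26_wN_1_rb803309423d1103x1 := p_wQ_26_wN_1_rb803309423d1103x1

theorem g__wQ_26_wN_1_rb803309423d11x1_3 : GoodKC AS k_wQ_26_wN_1_rb803309423d11x1_3 := p_wQ_26_wN_1_rb803309423d11x1_3

theorem g__wQ_26_wN_1_rb803309423d11x1_6 : GoodKC AS k_wQ_26_wN_1_rb803309423d11x1_6 := p_wQ_26_wN_1_rb803309423d11x1_6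

theorem g__wQ_26_wN_1_rb803309423d11x1_7 : GoodKC AS k_wQ_26_wN_1_rb803309423d11x1_7 := p_wQ_26_wN_1_rb803309423d11x1_7

theorem g__wQ_26_wN_1_rb803309423d11x1_5 : GoodKC AS k_wQ_26_wN_1_rb803309423d11x1_5 := p_wQ_26_wN_1_rb803309423d11x1_5 g__wQ_26_wN_1_rb803309423d11x1_6 g__wQ_26_wN_1_rb803309423d11x1_7

theorem g__wQ_26_wN_1_rb803309423d11x1_4 : GoodKC AS k_wQ_26_wN_1_rb803309423d11x1_4 := p_wQ_26_wN_1_rb803309423d11x1_4 g__wQ_26_wN_1_rb803309423d11x1_5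

theorem g__wQ_26_wN_1_rb803309423d11x1_11 : GoodKC AS k_wQ_26_wN_1_rb803309423d11x1_11 := p_wQ_26_wN_1_rb803309423d11x1_11

theorem g__wQ_26_wN_1_rb803309423d11x1_12 : GoodKC AS k_wQ_26_wN_1_rb803309423d11x1_12 := p_wQ_26_wN_1_rb803309423d11x1_12

theorem g__wQ_26_wN_1_rb803309423d11x1_10 : GoodKC AS k_wQ_26_wN_1_rb803309423d11x1_10 := p_wQ_26_wN_1_rb803309423d11x1_10 g__wQ_26_wN_1_rb803309423d11x1_11 g__wQ_26_wN_1_rb803309423d11x1_12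

theorem g__wQ_26_wN_1_rb803309423d11x1_13 : GoodKC AS k_wQ_26_wN_1_rb803309423d11x1_13 := p_wQ_26_wN_1_rb803309423d11x1_13

theorem g__wQ_26_wN_1_rb803309423d11x1_9 : GoodKC AS k_wQ_26_wN_1_rb803309423d11x1_9 := p_wQ_26_wN_1_rb803309423d11x1_9 g__wQ_26_wN_1_rb803309423d11x1_10 g__wQ_26_wN_1_rb803309423d11x1_13

theorem g__wQ_26_wN_1_rb803309423d11x1_8 : GoodKC AS k_wQ_26_wN_1_rb803309423d11x1_8 := p_wQ_26_wN_1_rb803309423d11x1_8 g__wQ_26_wN_1_rb803309423d11x1_9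

theorem g__wQ_26_wN_1_rb803309423d11x1_2 : GoodKC AS k_wQ_26_wN_1_rb803309423d11x1_2 := p_wQ_26_wN_1_rb803309423d11x1_2 g__wQ_26_wN_1_rb803309423d11x1_3 g__wQ_26_wN_1_rb803309423d11x1_4 g__wQ_26_wN_1_rb803309423d11x1_8

theorem g__wQ_26_wN_1_rb803309423d11x1_14 : GoodKC AS k_wQ_26_wN_1_rb803309423d11x1_14 := p_wQ_26_wN_1_rb803309423d11x1_14

theorem g__wQ_26_wN_1_rb803309423d11x1_17 : GoodKC AS k_wQ_26_wN_1_rb803309423d11x1_17 := p_wQ_26_wN_1_rb803309423d11x1_17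

theorem g__wQ_26_wN_1_rb803309423d11x1_16 : GoodKC AS k_wQ_26_wN_1_rb803309423d11x1_16 := p_wQ_26_wN_1_rb803309423d11x1_16 g__wQ_26_wN_1_rb803309423d11x1_17

theorem g__wQ_26_wN_1_rb803309423d11x1_15 : GoodKC AS k_wQ_26_wN_1_rb803309423d11x1_15 := p_wQ_26_wN_1_rb803309423d11x1_15 g__wQ_26_wN_1_rb803309423d11x1_16

theorem g__wQ_26_wN_1_rb803309423d11x1_1 : GoodKC AS k_wQ_26_wN_1_rb803309423d11x1_1 := p_wQ_26_wN_1_rb803309423d11x1_1 g__wQ_26_wN_1_rb803309423d11x1_2 g__wQ_26_wN_1_rb803309423d11x1_14 g__wQ_26_wN_1_rb803309423d11x1_15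

theorem g__wQ_26_wN_1_rb803309423d11x1_0 : GoodKC AS k_wQ_26_wN_1_rb803309423d11x1_0 := p_wQ_26_wN_1_rb803309423d11x1_0 g__wQ_26_wN_1_rb803309423d11x1_1

theorem g_wQ_26_wN_1_rb803309423d11x2 : GoodKC AS c_wQ_26_wN_1_rb803309423d11x2 := p_wQ_26_wN_1_rb803309423d11x1 g_wQ_26_wN_1_rb803309423d1104x1 g_wQ_26_wN_1_rb803309423d1102x1 g_wQ_26_wN_1_rb803309423d1101x1 g_wQ_26_wN_1_rb803309423d1100x1 g_wQ_26_wN_1_rb803309423d1103x1 g__wQ_26_wN_1_rb803309423d11x1_0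

theorem g_wQ_26_wN_1_rb803309423d17x2 : GoodKC AS c_wQ_26_wN_1_rb803309423d17x2 := p_wQ_26_wN_1_rb803309423d17x1

theorem g_wQ_26_wN_1_rb803309423d1ax2 : GoodKC AS c_wQ_26_wN_1_rb803309423d1ax2 := p_wQ_26_wN_1_rb803309423d1ax1

theorem g_wQ_26_wN_1_rb803309423dx3 : GoodKC AS c_wQ_26_wN_1_rb803309423dx3 := p_wQ_26_wN_1_rb803309423dx2 g_wQ_26_wN_1_rb803309423d1bx2 g_wQ_26_wN_1_rb803309423d19x2 g__wQ_26_wN_1_rb803309423dx2_0 g_wQ_26_wN_1_rb803309423d18x2 g_wQ_26_wN_1_rb803309423d16x2 g_wQ_26_wN_1_rb803309423d15x2 g_wQ_26_wN_1_rb803309423d14x2 g_wQ_26_wN_1_rb803309423d13x2 g_wQ_26_wN_1_rb803309423d12x2 g_wQ_26_wN_1_rb803309423d10x2 g_wQ_26_wN_1_rb803309423d0fx2 g_wQ_26_wN_1_rb803309423d0ex2 g__wQ_26_wN_1_rb803309423dx2_47 g_wQ_26_wN_1_rb803309423d0dx2 g_wQ_26_wN_1_rb803309423d0cx2 g_wQ_26_wN_1_rb803309423d0bx2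 g_wQ_26_wN_1_rb803309423d0ax2 g_wQ_26_wN_1_rb803309423d07x2 g_wQ_26_wN_1_rb803309423d06x2 g_wQ_26_wN_1_rb803309423d05x2 g_wQ_26_wN_1_rb803309423d04x2 g_wQ_26_wN_1_rb803309423d03x2 g_wQ_26_wN_1_rb803309423d00x2 g_wQ_26_wN_1_rb803309423d01x2 g_wQ_26_wN_1_rb803309423d02x2 g_wQ_26_wN_1_rb803309423d08x2 g_wQ_26_wN_1_rb803309423d09x2 g_wQ_26_wN_1_rb803309423d11x2 g_wQ_26_wN_1_rb803309423d17x2 g_wQ_26_wN_1_rb803309423d1ax2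

theorem g_wQ_26_wN_1_rb80330942x7 : GoodKC AS c_wQ_26_wN_1_rb80330942x7 := p_wQ_26_wN_1_rb80330942x3 g__wQ_26_wN_1_rb80330942x3_0 g__wQ_26_wN_1_rb80330942x3_15 g_wQ_26_wN_1_rb803309423bx3 g_wQ_26_wN_1_rb803309423cx3 g_wQ_26_wN_1_rb803309423dx3

theorem g_wQ_26_wN_1_rb80330941x7 : GoodKC AS c_wQ_26_wN_1_rb80330941x7 := p_wQ_26_wN_1_rb80330941x3

theorem g_wQ_26_wN_1_rb8033093fx7 : GoodKC AS c_wQ_26_wN_1_rb8033093fx7 := p_wQ_26_wN_1_rb8033093fx3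

theorem g_wQ_26_wN_1_rb8033093ex7 : GoodKC AS c_wQ_26_wN_1_rb8033093ex7 := p_wQ_26_wN_1_rb8033093ex3

theorem g_wQ_26_wN_1_rb8033093dx7 : GoodKC AS c_wQ_26_wN_1_rb8033093dx7 := p_wQ_26_wN_1_rb8033093dx3

theorem g_wQ_26_wN_1_rb8033093ax7 : GoodKC AS c_wQ_26_wN_1_rb8033093ax7 := p_wQ_26_wN_1_rb8033093ax3

theorem g_wQ_26_wN_1_rb80330935x7 : GoodKC AS c_wQ_26_wN_1_rb80330935x7 := p_wQ_26_wN_1_rb80330935x3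

theorem g_wQ_26_wN_1_rb80330934x7 : GoodKC AS c_wQ_26_wN_1_rb80330934x7 := p_wQ_26_wN_1_rb80330934x3

theorem g__wQ_26_wN_1_rb803309x7_3 : GoodKC AS k_wQ_26_wN_1_rb803309x7_3 := p_wQ_26_wN_1_rb803309x7_3

theorem g__wQ_26_wN_1_rb803309x7_4 : GoodKC AS k_wQ_26_wN_1_rb803309x7_4 := p_wQ_26_wN_1_rb803309x7_4

theorem g__wQ_26_wN_1_rb803309x7_5 : GoodKC AS k_wQ_26_wN_1_rb803309x7_5 := p_wQ_26_wN_1_rb803309x7_5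

theorem g__wQ_26_wN_1_rb803309x7_2 : GoodKC AS k_wQ_26_wN_1_rb803309x7_2 := p_wQ_26_wN_1_rb803309x7_2 g__wQ_26_wN_1_rb803309x7_3 g__wQ_26_wN_1_rb803309x7_4 g__wQ_26_wN_1_rb803309x7_5

theorem g__wQ_26_wN_1_rb803309x7_6 : GoodKC AS k_wQ_26_wN_1_rb803309x7_6 := p_wQ_26_wN_1_rb803309x7_6

theorem g__wQ_26_wN_1_rb803309x7_1 : GoodKC AS k_wQ_26_wN_1_rb803309x7_1 := p_wQ_26_wN_1_rb803309x7_1 g__wQ_26_wN_1_rb803309x7_2 g__wQ_26_wN_1_rb803309x7_6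

theorem g__wQ_26_wN_1_rb803309x7_9 : GoodKC AS k_wQ_26_wN_1_rb803309x7_9 := p_wQ_26_wN_1_rb803309x7_9

theorem g__wQ_26_wN_1_rb803309x7_10 : GoodKC AS k_wQ_26_wN_1_rb803309x7_10 := p_wQ_26_wN_1_rb803309x7_10

theorem g__wQ_26_wN_1_rb803309x7_12 : GoodKC AS k_wQ_26_wN_1_rb803309x7_12 := p_wQ_26_wN_1_rb803309x7_12

theorem g__wQ_26_wN_1_rb803309x7_11 : GoodKC AS k_wQ_26_wN_1_rb803309x7_11 := p_wQ_26_wN_1_rb803309x7_11 g__wQ_26_wN_1_rb803309x7_12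

theorem g__wQ_26_wN_1_rb803309x7_17 : GoodKC AS k_wQ_26_wN_1_rb803309x7_17 := p_wQ_26_wN_1_rb803309x7_17

theorem g__wQ_26_wN_1_rb803309x7_16 : GoodKC AS k_wQ_26_wN_1_rb803309x7_16 := p_wQ_26_wN_1_rb803309x7_16 g__wQ_26_wN_1_rb803309x7_17

theorem g__wQ_26_wN_1_rb803309x7_19 : GoodKC AS k_wQ_26_wN_1_rb803309x7_19 := p_wQ_26_wN_1_rb803309x7_19

theorem g__wQ_26_wN_1_rb803309x7_22 : GoodKC AS k_wQ_26_wN_1_rb803309x7_22 := p_wQ_26_wN_1_rb803309x7_22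

theorem g__wQ_26_wN_1_rb803309x7_21 : GoodKC AS k_wQ_26_wN_1_rb803309x7_21 := p_wQ_26_wN_1_rb803309x7_21 g__wQ_26_wN_1_rb803309x7_22

theorem g__wQ_26_wN_1_rb803309x7_20 : GoodKC AS k_wQ_26_wN_1_rb803309x7_20 := p_wQ_26_wN_1_rb803309x7_20 g__wQ_26_wN_1_rb803309x7_21

theorem g__wQ_26_wN_1_rb803309x7_18 : GoodKC AS k_wQ_26_wN_1_rb803309x7_18 := p_wQ_26_wN_1_rb803309x7_18 g__wQ_26_wN_1_rb803309x7_19 g__wQ_26_wN_1_rb803309x7_20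

theorem g__wQ_26_wN_1_rb803309x7_29 : GoodKC AS k_wQ_26_wN_1_rb803309x7_29 := p_wQ_26_wN_1_rb803309x7_29

theorem g__wQ_26_wN_1_rb803309x7_28 : GoodKC AS k_wQ_26_wN_1_rb803309x7_28 := p_wQ_26_wN_1_rb803309x7_28 g__wQ_26_wN_1_rb803309x7_29

theorem g__wQ_26_wN_1_rb803309x7_30 : GoodKC AS k_wQ_26_wN_1_rb803309x7_30 := p_wQ_26_wN_1_rb803309x7_30

theorem g__wQ_26_wN_1_rb803309x7_27 : GoodKC AS k_wQ_26_wN_1_rb803309x7_27 := p_wQ_26_wN_1_rb803309x7_27 g__wQ_26_wN_1_rb803309x7_28 g__wQ_26_wN_1_rb803309x7_30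

theorem g__wQ_26_wN_1_rb803309x7_26 : GoodKC AS k_wQ_26_wN_1_rb803309x7_26 := p_wQ_26_wN_1_rb803309x7_26 g__wQ_26_wN_1_rb803309x7_27

theorem g__wQ_26_wN_1_rb803309x7_25 : GoodKC AS k_wQ_26_wN_1_rb803309x7_25 := p_wQ_26_wN_1_rb803309x7_25 g__wQ_26_wN_1_rb803309x7_26

theorem g__wQ_26_wN_1_rb803309x7_24 : GoodKC AS k_wQ_26_wN_1_rb803309x7_24 := p_wQ_26_wN_1_rb803309x7_24 g__wQ_26_wN_1_rb803309x7_25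

theorem g__wQ_26_wN_1_rb803309x7_23 : GoodKC AS k_wQ_26_wN_1_rb803309x7_23 := p_wQ_26_wN_1_rb803309x7_23 g__wQ_26_wN_1_rb803309x7_24

theorem g__wQ_26_wN_1_rb803309x7_15 : GoodKC AS k_wQ_26_wN_1_rb803309x7_15 := p_wQ_26_wN_1_rb803309x7_15 g__wQ_26_wN_1_rb803309x7_16 g__wQ_26_wN_1_rb803309x7_18 g__wQ_26_wN_1_rb803309x7_23

theorem g__wQ_26_wN_1_rb803309x7_32 : GoodKC AS k_wQ_26_wN_1_rb803309x7_32 := p_wQ_26_wN_1_rb803309x7_32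

theorem g__wQ_26_wN_1_rb803309x7_33 : GoodKC AS k_wQ_26_wN_1_rb803309x7_33 := p_wQ_26_wN_1_rb803309x7_33

theorem g__wQ_26_wN_1_rb803309x7_31 : GoodKC AS k_wQ_26_wN_1_rb803309x7_31 := p_wQ_26_wN_1_rb803309x7_31 g__wQ_26_wN_1_rb803309x7_32 g__wQ_26_wN_1_rb803309x7_33

theorem g__wQ_26_wN_1_rb803309x7_14 : GoodKC AS k_wQ_26_wN_1_rb803309x7_14 := p_wQ_26_wN_1_rb803309x7_14 g__wQ_26_wN_1_rb803309x7_15 g__wQ_26_wN_1_rb803309x7_31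

theorem g__wQ_26_wN_1_rb803309x7_13 : GoodKC AS k_wQ_26_wN_1_rb803309x7_13 := p_wQ_26_wN_1_rb803309x7_13 g__wQ_26_wN_1_rb803309x7_14

theorem g__wQ_26_wN_1_rb803309x7_8 : GoodKC AS k_wQ_26_wN_1_rb803309x7_8 := p_wQ_26_wN_1_rb803309x7_8 g__wQ_26_wN_1_rb803309x7_9 g__wQ_26_wN_1_rb803309x7_10 g__wQ_26_wN_1_rb803309x7_11 g__wQ_26_wN_1_rb803309x7_13

theorem g__wQ_26_wN_1_rb803309x7_7 : GoodKC AS k_wQ_26_wN_1_rb803309x7_7 := p_wQ_26_wN_1_rb803309x7_7 g__wQ_26_wN_1_rb803309x7_8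

theorem g__wQ_26_wN_1_rb803309x7_0 : GoodKC AS k_wQ_26_wN_1_rb803309x7_0 := p_wQ_26_wN_1_rb803309x7_0 g__wQ_26_wN_1_rb803309x7_1 g__wQ_26_wN_1_rb803309x7_7

theorem g_wQ_26_wN_1_rb80330933x7 : GoodKC AS c_wQ_26_wN_1_rb80330933x7 := p_wQ_26_wN_1_rb80330933x3

theorem g__wQ_26_wN_1_rb803309x7_35 : GoodKC AS k_wQ_26_wN_1_rb803309x7_35 := p_wQ_26_wN_1_rb803309x7_35

theorem g__wQ_26_wN_1_rb803309x7_36 : GoodKC AS k_wQ_26_wN_1_rb803309x7_36 := p_wQ_26_wN_1_rb803309x7_36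

theorem g__wQ_26_wN_1_rb803309x7_39 : GoodKC AS k_wQ_26_wN_1_rb803309x7_39 := p_wQ_26_wN_1_rb803309x7_39

theorem g__wQ_26_wN_1_rb803309x7_38 : GoodKC AS k_wQ_26_wN_1_rb803309x7_38 := p_wQ_26_wN_1_rb803309x7_38 g__wQ_26_wN_1_rb803309x7_39

theorem g__wQ_26_wN_1_rb803309x7_40 : GoodKC AS k_wQ_26_wN_1_rb803309x7_40 := p_wQ_26_wN_1_rb803309x7_40

theorem g__wQ_26_wN_1_rb803309x7_37 : GoodKC AS k_wQ_26_wN_1_rb803309x7_37 := p_wQ_26_wN_1_rb803309x7_37 g__wQ_26_wN_1_rb803309x7_38 g__wQ_26_wN_1_rb803309x7_40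

theorem g__wQ_26_wN_1_rb803309x7_45 : GoodKC AS k_wQ_26_wN_1_rb803309x7_45 := p_wQ_26_wN_1_rb803309x7_45

theorem g__wQ_26_wN_1_rb803309x7_44 : GoodKC AS k_wQ_26_wN_1_rb803309x7_44 := p_wQ_26_wN_1_rb803309x7_44 g__wQ_26_wN_1_rb803309x7_45

theorem g__wQ_26_wN_1_rb803309x7_43 : GoodKC AS k_wQ_26_wN_1_rb803309x7_43 := p_wQ_26_wN_1_rb803309x7_43 g__wQ_26_wN_1_rb803309x7_44

theorem g__wQ_26_wN_1_rb803309x7_49 : GoodKC AS k_wQ_26_wN_1_rb803309x7_49 := p_wQ_26_wN_1_rb803309x7_49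

theorem g__wQ_26_wN_1_rb803309x7_57 : GoodKC AS k_wQ_26_wN_1_rb803309x7_57 := p_wQ_26_wN_1_rb803309x7_57

theorem g__wQ_26_wN_1_rb803309x7_56 : GoodKC AS k_wQ_26_wN_1_rb803309x7_56 := p_wQ_26_wN_1_rb803309x7_56 g__wQ_26_wN_1_rb803309x7_57

theorem g__wQ_26_wN_1_rb803309x7_55 : GoodKC AS k_wQ_26_wN_1_rb803309x7_55 := p_wQ_26_wN_1_rb803309x7_55 g__wQ_26_wN_1_rb803309x7_56

theorem g__wQ_26_wN_1_rb803309x7_54 : GoodKC AS k_wQ_26_wN_1_rb803309x7_54 := p_wQ_26_wN_1_rb803309x7_54 g__wQ_26_wN_1_rb803309x7_55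

theorem g__wQ_26_wN_1_rb803309x7_58 : GoodKC AS k_wQ_26_wN_1_rb803309x7_58 := p_wQ_26_wN_1_rb803309x7_58

theorem g__wQ_26_wN_1_rb803309x7_59 : GoodKC AS k_wQ_26_wN_1_rb803309x7_59 := p_wQ_26_wN_1_rb803309x7_59

theorem g__wQ_26_wN_1_rb803309x7_53 : GoodKC AS k_wQ_26_wN_1_rb803309x7_53 := p_wQ_26_wN_1_rb803309x7_53 g__wQ_26_wN_1_rb803309x7_54 g__wQ_26_wN_1_rb803309x7_58 g__wQ_26_wN_1_rb803309x7_59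

theorem g__wQ_26_wN_1_rb803309x7_52 : GoodKC AS k_wQ_26_wN_1_rb803309x7_52 := p_wQ_26_wN_1_rb803309x7_52 g__wQ_26_wN_1_rb803309x7_53

theorem g__wQ_26_wN_1_rb803309x7_51 : GoodKC AS k_wQ_26_wN_1_rb803309x7_51 := p_wQ_26_wN_1_rb803309x7_51 g__wQ_26_wN_1_rb803309x7_52

theorem g__wQ_26_wN_1_rb803309x7_50 : GoodKC AS k_wQ_26_wN_1_rb803309x7_50 := p_wQ_26_wN_1_rb803309x7_50 g__wQ_26_wN_1_rb803309x7_51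

theorem g__wQ_26_wN_1_rb803309x7_48 : GoodKC AS k_wQ_26_wN_1_rb803309x7_48 := p_wQ_26_wN_1_rb803309x7_48 g__wQ_26_wN_1_rb803309x7_49 g__wQ_26_wN_1_rb803309x7_50

theorem g__wQ_26_wN_1_rb803309x7_47 : GoodKC AS k_wQ_26_wN_1_rb803309x7_47 := p_wQ_26_wN_1_rb803309x7_47 g__wQ_26_wN_1_rb803309x7_48

theorem g__wQ_26_wN_1_rb803309x7_46 : GoodKC AS k_wQ_26_wN_1_rb803309x7_46 := p_wQ_26_wN_1_rb803309x7_46 g__wQ_26_wN_1_rb803309x7_47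

theorem g__wQ_26_wN_1_rb803309x7_42 : GoodKC AS k_wQ_26_wN_1_rb803309x7_42 := p_wQ_26_wN_1_rb803309x7_42 g__wQ_26_wN_1_rb803309x7_43 g__wQ_26_wN_1_rb803309x7_46

theorem g__wQ_26_wN_1_rb803309x7_61 : GoodKC AS k_wQ_26_wN_1_rb803309x7_61 := p_wQ_26_wN_1_rb803309x7_61

theorem g__wQ_26_wN_1_rb803309x7_60 : GoodKC AS k_wQ_26_wN_1_rb803309x7_60 := p_wQ_26_wN_1_rb803309x7_60 g__wQ_26_wN_1_rb803309x7_61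

theorem g__wQ_26_wN_1_rb803309x7_64 : GoodKC AS k_wQ_26_wN_1_rb803309x7_64 := p_wQ_26_wN_1_rb803309x7_64

theorem g__wQ_26_wN_1_rb803309x7_63 : GoodKC AS k_wQ_26_wN_1_rb803309x7_63 := p_wQ_26_wN_1_rb803309x7_63 g__wQ_26_wN_1_rb803309x7_64

theorem g__wQ_26_wN_1_rb803309x7_65 : GoodKC AS k_wQ_26_wN_1_rb803309x7_65 := p_wQ_26_wN_1_rb803309x7_65

theorem g__wQ_26_wN_1_rb803309x7_62 : GoodKC AS k_wQ_26_wN_1_rb803309x7_62 := p_wQ_26_wN_1_rb803309x7_62 g__wQ_26_wN_1_rb803309x7_63 g__wQ_26_wN_1_rb803309x7_65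

theorem g__wQ_26_wN_1_rb803309x7_66 : GoodKC AS k_wQ_26_wN_1_rb803309x7_66 := p_wQ_26_wN_1_rb803309x7_66

theorem g__wQ_26_wN_1_rb803309x7_68 : GoodKC AS k_wQ_26_wN_1_rb803309x7_68 := p_wQ_26_wN_1_rb803309x7_68

theorem g__wQ_26_wN_1_rb803309x7_70 : GoodKC AS k_wQ_26_wN_1_rb803309x7_70 := p_wQ_26_wN_1_rb803309x7_70

theorem g__wQ_26_wN_1_rb803309x7_69 : GoodKC AS k_wQ_26_wN_1_rb803309x7_69 := p_wQ_26_wN_1_rb803309x7_69 g__wQ_26_wN_1_rb803309x7_70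

theorem g__wQ_26_wN_1_rb803309x7_67 : GoodKC AS k_wQ_26_wN_1_rb803309x7_67 := p_wQ_26_wN_1_rb803309x7_67 g__wQ_26_wN_1_rb803309x7_68 g__wQ_26_wN_1_rb803309x7_69

theorem g__wQ_26_wN_1_rb803309x7_74 : GoodKC AS k_wQ_26_wN_1_rb803309x7_74 := p_wQ_26_wN_1_rb803309x7_74

theorem g__wQ_26_wN_1_rb803309x7_73 : GoodKC AS k_wQ_26_wN_1_rb803309x7_73 := p_wQ_26_wN_1_rb803309x7_73 g__wQ_26_wN_1_rb803309x7_74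

theorem g__wQ_26_wN_1_rb803309x7_77 : GoodKC AS k_wQ_26_wN_1_rb803309x7_77 := p_wQ_26_wN_1_rb803309x7_77

theorem g__wQ_26_wN_1_rb803309x7_76 : GoodKC AS k_wQ_26_wN_1_rb803309x7_76 := p_wQ_26_wN_1_rb803309x7_76 g__wQ_26_wN_1_rb803309x7_77

theorem g__wQ_26_wN_1_rb803309x7_78 : GoodKC AS k_wQ_26_wN_1_rb803309x7_78 := p_wQ_26_wN_1_rb803309x7_78

theorem g__wQ_26_wN_1_rb803309x7_75 : GoodKC AS k_wQ_26_wN_1_rb803309x7_75 := p_wQ_26_wN_1_rb803309x7_75 g__wQ_26_wN_1_rb803309x7_76 g__wQ_26_wN_1_rb803309x7_78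

theorem g__wQ_26_wN_1_rb803309x7_79 : GoodKC AS k_wQ_26_wN_1_rb803309x7_79 := p_wQ_26_wN_1_rb803309x7_79

theorem g__wQ_26_wN_1_rb803309x7_80 : GoodKC AS k_wQ_26_wN_1_rb803309x7_80 := p_wQ_26_wN_1_rb803309x7_80

theorem g__wQ_26_wN_1_rb803309x7_72 : GoodKC AS k_wQ_26_wN_1_rb803309x7_72 := p_wQ_26_wN_1_rb803309x7_72 g__wQ_26_wN_1_rb803309x7_73 g__wQ_26_wN_1_rb803309x7_75 g__wQ_26_wN_1_rb803309x7_79 g__wQ_26_wN_1_rb803309x7_80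

theorem g__wQ_26_wN_1_rb803309x7_71 : GoodKC AS k_wQ_26_wN_1_rb803309x7_71 := p_wQ_26_wN_1_rb803309x7_71 g__wQ_26_wN_1_rb803309x7_72

theorem g__wQ_26_wN_1_rb803309x7_41 : GoodKC AS k_wQ_26_wN_1_rb803309x7_41 := p_wQ_26_wN_1_rb803309x7_41 g__wQ_26_wN_1_rb803309x7_42 g__wQ_26_wN_1_rb803309x7_60 g__wQ_26_wN_1_rb803309x7_62 g__wQ_26_wN_1_rb803309x7_66 g__wQ_26_wN_1_rb803309x7_67 g__wQ_26_wN_1_rb803309x7_71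

theorem g__wQ_26_wN_1_rb80330930v3_0 : GoodKC AS k_wQ_26_wN_1_rb80330930v3_0 := p_wQ_26_wN_1_rb80330930v3_0

theorem g_wQ_26_wN_1_rb80330930x7 : GoodKC AS c_wQ_26_wN_1_rb80330930x7 := p_wQ_26_wN_1_rb80330930x3 g__wQ_26_wN_1_rb80330930v3_0

theorem g__wQ_26_wN_1_rb8033092fx3_0 : GoodKC AS k_wQ_26_wN_1_rb8033092fx3_0 := p_wQ_26_wN_1_rb8033092fx3_0

theorem g_wQ_26_wN_1_rb8033092fx7 : GoodKC AS c_wQ_26_wN_1_rb8033092fx7 := p_wQ_26_wN_1_rb8033092fx3 g__wQ_26_wN_1_rb8033092fx3_0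

theorem g_wQ_26_wN_1_rb8033092ex7 : GoodKC AS c_wQ_26_wN_1_rb8033092ex7 := p_wQ_26_wN_1_rb8033092ex3

theorem g__wQ_26_wN_1_rb8033092dx3_0 : GoodKC AS k_wQ_26_wN_1_rb8033092dx3_0 := p_wQ_26_wN_1_rb8033092dx3_0

theorem g_wQ_26_wN_1_rb8033092dx7 : GoodKC AS c_wQ_26_wN_1_rb8033092dx7 := p_wQ_26_wN_1_rb8033092dx3 g__wQ_26_wN_1_rb8033092dx3_0

theorem g_wQ_26_wN_1_rb8033092cx7 : GoodKC AS c_wQ_26_wN_1_rb8033092cx7 := p_wQ_26_wN_1_rb8033092cx3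

theorem g_wQ_26_wN_1_rb8033092bx7 : GoodKC AS c_wQ_26_wN_1_rb8033092bx7 := p_wQ_26_wN_1_rb8033092bx3

theorem g_wQ_26_wN_1_rb8033092ax7 : GoodKC AS c_wQ_26_wN_1_rb8033092ax7 := p_wQ_26_wN_1_rb8033092ax3

theorem g_wQ_26_wN_1_rb80330926x7 : GoodKC AS c_wQ_26_wN_1_rb80330926x7 := p_wQ_26_wN_1_rb80330926x3

theorem g_wQ_26_wN_1_rb80330925x7 : GoodKC AS c_wQ_26_wN_1_rb80330925x7 := p_wQ_26_wN_1_rb80330925x3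

theorem g_wQ_26_wN_1_rb80330924x7 : GoodKC AS c_wQ_26_wN_1_rb80330924x7 := p_wQ_26_wN_1_rb80330924x3

theorem g_wQ_26_wN_1_rb80330922x7 : GoodKC AS c_wQ_26_wN_1_rb80330922x7 := p_wQ_26_wN_1_rb80330922x3

theorem g_wQ_26_wN_1_rb80330921x7 : GoodKC AS c_wQ_26_wN_1_rb80330921x7 := p_wQ_26_wN_1_rb80330921x3

theorem g_wQ_26_wN_1_rb8033091fx7 : GoodKC AS c_wQ_26_wN_1_rb8033091fx7 := p_wQ_26_wN_1_rb8033091fx3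

theorem g_wQ_26_wN_1_rb8033091ex7 : GoodKC AS c_wQ_26_wN_1_rb8033091ex7 := p_wQ_26_wN_1_rb8033091ex3

theorem g_wQ_26_wN_1_rb8033091dx7 : GoodKC AS c_wQ_26_wN_1_rb8033091dx7 := p_wQ_26_wN_1_rb8033091dx3

theorem g_wQ_26_wN_1_rb8033091ax7 : GoodKC AS c_wQ_26_wN_1_rb8033091ax7 := p_wQ_26_wN_1_rb8033091ax3

theorem g_wQ_26_wN_1_rb80330916x7 : GoodKC AS c_wQ_26_wN_1_rb80330916x7 := p_wQ_26_wN_1_rb80330916x3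

theorem g_wQ_26_wN_1_rb80330914x7 : GoodKC AS c_wQ_26_wN_1_rb80330914x7 := p_wQ_26_wN_1_rb80330914x3

theorem g_wQ_26_wN_1_rb8033090fx7 : GoodKC AS c_wQ_26_wN_1_rb8033090fx7 := p_wQ_26_wN_1_rb8033090fx3

theorem g_wQ_26_wN_1_rb8033090ex7 : GoodKC AS c_wQ_26_wN_1_rb8033090ex7 := p_wQ_26_wN_1_rb8033090ex3

theorem g_wQ_26_wN_1_rb8033090cx7 : GoodKC AS c_wQ_26_wN_1_rb8033090cx7 := p_wQ_26_wN_1_rb8033090cx3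

theorem g_wQ_26_wN_1_rb80330908x7 : GoodKC AS c_wQ_26_wN_1_rb80330908x7 := p_wQ_26_wN_1_rb80330908x3

theorem g_wQ_26_wN_1_rb80330906x7 : GoodKC AS c_wQ_26_wN_1_rb80330906x7 := p_wQ_26_wN_1_rb80330906x3

theorem g_wQ_26_wN_1_rb80330903x7 : GoodKC AS c_wQ_26_wN_1_rb80330903x7 := p_wQ_26_wN_1_rb80330903x3

theorem g_wQ_26_wN_1_rb803309001cx3 : GoodKC AS c_wQ_26_wN_1_rb803309001cx3 := p_wQ_26_wN_1_rb803309001cx2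

theorem g_wQ_26_wN_1_rb803309001bx3 : GoodKC AS c_wQ_26_wN_1_rb803309001bx3 := p_wQ_26_wN_1_rb803309001bx2

theorem g_wQ_26_wN_1_rb8033090018x3 : GoodKC AS c_wQ_26_wN_1_rb8033090018x3 := p_wQ_26_wN_1_rb8033090018x2

theorem g__wQ_26_wN_1_rb8033090017x2_3 : GoodKC AS k_wQ_26_wN_1_rb8033090017x2_3 := p_wQ_26_wN_1_rb8033090017x2_3

theorem g__wQ_26_wN_1_rb8033090017x2_2 : GoodKC AS k_wQ_26_wN_1_rb8033090017x2_2 := p_wQ_26_wN_1_rb8033090017x2_2 g__wQ_26_wN_1_rb8033090017x2_3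

theorem g__wQ_26_wN_1_rb8033090017x2_5 : GoodKC AS k_wQ_26_wN_1_rb8033090017x2_5 := p_wQ_26_wN_1_rb8033090017x2_5

theorem g__wQ_26_wN_1_rb8033090017x2_4 : GoodKC AS k_wQ_26_wN_1_rb8033090017x2_4 := p_wQ_26_wN_1_rb8033090017x2_4 g__wQ_26_wN_1_rb8033090017x2_5

theorem g__wQ_26_wN_1_rb8033090017x2_1 : GoodKC AS k_wQ_26_wN_1_rb8033090017x2_1 := p_wQ_26_wN_1_rb8033090017x2_1 g__wQ_26_wN_1_rb8033090017x2_2 g__wQ_26_wN_1_rb8033090017x2_4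

theorem g__wQ_26_wN_1_rb8033090017x2_0 : GoodKC AS k_wQ_26_wN_1_rb8033090017x2_0 := p_wQ_26_wN_1_rb8033090017x2_0 g__wQ_26_wN_1_rb8033090017x2_1

theorem g_wQ_26_wN_1_rb8033090017x3 : GoodKC AS c_wQ_26_wN_1_rb8033090017x3 := p_wQ_26_wN_1_rb8033090017x2 g__wQ_26_wN_1_rb8033090017x2_0

theorem g_wQ_26_wN_1_rb8033090015x3 : GoodKC AS c_wQ_26_wN_1_rb8033090015x3 := p_wQ_26_wN_1_rb8033090015x2

theorem g_wQ_26_wN_1_rb8033090014x3 : GoodKC AS c_wQ_26_wN_1_rb8033090014x3 := p_wQ_26_wN_1_rb8033090014x2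

theorem g_wQ_26_wN_1_rb8033090013x3 : GoodKC AS c_wQ_26_wN_1_rb8033090013x3 := p_wQ_26_wN_1_rb8033090013x2

theorem g_wQ_26_wN_1_rb8033090011x3 : GoodKC AS c_wQ_26_wN_1_rb8033090011x3 := p_wQ_26_wN_1_rb8033090011x2

theorem g_wQ_26_wN_1_rb8033090010x3 : GoodKC AS c_wQ_26_wN_1_rb8033090010x3 := p_wQ_26_wN_1_rb8033090010x2

theorem g_wQ_26_wN_1_rb803309000fx3 : GoodKC AS c_wQ_26_wN_1_rb803309000fx3 := p_wQ_26_wN_1_rb803309000fx2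

theorem g_wQ_26_wN_1_rb803309000ex3 : GoodKC AS c_wQ_26_wN_1_rb803309000ex3 := p_wQ_26_wN_1_rb803309000ex2

theorem g_wQ_26_wN_1_rb803309000dx3 : GoodKC AS c_wQ_26_wN_1_rb803309000dx3 := p_wQ_26_wN_1_rb803309000dx2

theorem g_wQ_26_wN_1_rb803309000ax3 : GoodKC AS c_wQ_26_wN_1_rb803309000ax3 := p_wQ_26_wN_1_rb803309000ax2

theorem g__wQ_26_wN_1_rb80330900v3_4 : GoodKC AS k_wQ_26_wN_1_rb80330900v3_4 := p_wQ_26_wN_1_rb80330900v3_4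

theorem g__wQ_26_wN_1_rb80330900v3_3 : GoodKC AS k_wQ_26_wN_1_rb80330900v3_3 := p_wQ_26_wN_1_rb80330900v3_3 g__wQ_26_wN_1_rb80330900v3_4

theorem g__wQ_26_wN_1_rb80330900v3_2 : GoodKC AS k_wQ_26_wN_1_rb80330900v3_2 := p_wQ_26_wN_1_rb80330900v3_2 g__wQ_26_wN_1_rb80330900v3_3

theorem g__wQ_26_wN_1_rb80330900v3_1 : GoodKC AS k_wQ_26_wN_1_rb80330900v3_1 := p_wQ_26_wN_1_rb80330900v3_1 g__wQ_26_wN_1_rb80330900v3_2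

theorem g__wQ_26_wN_1_rb80330900v3_5 : GoodKC AS k_wQ_26_wN_1_rb80330900v3_5 := p_wQ_26_wN_1_rb80330900v3_5

theorem g__wQ_26_wN_1_rb80330900v3_11 : GoodKC AS k_wQ_26_wN_1_rb80330900v3_11 := p_wQ_26_wN_1_rb80330900v3_11

theorem g__wQ_26_wN_1_rb80330900v3_10 : GoodKC AS k_wQ_26_wN_1_rb80330900v3_10 := p_wQ_26_wN_1_rb80330900v3_10 g__wQ_26_wN_1_rb80330900v3_11

theorem g__wQ_26_wN_1_rb80330900v3_9 : GoodKC AS k_wQ_26_wN_1_rb80330900v3_9 := p_wQ_26_wN_1_rb80330900v3_9 g__wQ_26_wN_1_rb80330900v3_10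

theorem g__wQ_26_wN_1_rb80330900v3_8 : GoodKC AS k_wQ_26_wN_1_rb80330900v3_8 := p_wQ_26_wN_1_rb80330900v3_8 g__wQ_26_wN_1_rb80330900v3_9

theorem g__wQ_26_wN_1_rb80330900v3_7 : GoodKC AS k_wQ_26_wN_1_rb80330900v3_7 := p_wQ_26_wN_1_rb80330900v3_7 g__wQ_26_wN_1_rb80330900v3_8

theorem g__wQ_26_wN_1_rb80330900v3_6 : GoodKC AS k_wQ_26_wN_1_rb80330900v3_6 := p_wQ_26_wN_1_rb80330900v3_6 g__wQ_26_wN_1_rb80330900v3_7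

theorem g__wQ_26_wN_1_rb80330900v3_0 : GoodKC AS k_wQ_26_wN_1_rb80330900v3_0 := p_wQ_26_wN_1_rb80330900v3_0 g__wQ_26_wN_1_rb80330900v3_1 g__wQ_26_wN_1_rb80330900v3_5 g__wQ_26_wN_1_rb80330900v3_6

theorem g_wQ_26_wN_1_rb8033090009x3 : GoodKC AS c_wQ_26_wN_1_rb8033090009x3 := p_wQ_26_wN_1_rb8033090009x2

theorem g_wQ_26_wN_1_rb8033090007x3 : GoodKC AS c_wQ_26_wN_1_rb8033090007x3 := p_wQ_26_wN_1_rb8033090007x2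

theorem g__wQ_26_wN_1_rb8033090000v2_1 : GoodKC AS k_wQ_26_wN_1_rb8033090000v2_1 := p_wQ_26_wN_1_rb8033090000v2_1

theorem g__wQ_26_wN_1_rb8033090000v2_2 : GoodKC AS k_wQ_26_wN_1_rb8033090000v2_2 := p_wQ_26_wN_1_rb8033090000v2_2

theorem g__wQ_26_wN_1_rb8033090000v2_0 : GoodKC AS k_wQ_26_wN_1_rb8033090000v2_0 := p_wQ_26_wN_1_rb8033090000v2_0 g__wQ_26_wN_1_rb8033090000v2_1 g__wQ_26_wN_1_rb8033090000v2_2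

theorem g_wQ_26_wN_1_rb8033090000x3 : GoodKC AS c_wQ_26_wN_1_rb8033090000x3 := p_wQ_26_wN_1_rb8033090000x2 g__wQ_26_wN_1_rb8033090000v2_0

theorem g_wQ_26_wN_1_rb8033090001x3 : GoodKC AS c_wQ_26_wN_1_rb8033090001x3 := p_wQ_26_wN_1_rb8033090001x2

theorem g__wQ_26_wN_1_rb80330900v3_14 : GoodKC AS k_wQ_26_wN_1_rb80330900v3_14 := p_wQ_26_wN_1_rb80330900v3_14

theorem g__wQ_26_wN_1_rb80330900v3_13 : GoodKC AS k_wQ_26_wN_1_rb80330900v3_13 := p_wQ_26_wN_1_rb80330900v3_13 g_wQ_26_wN_1_rb8033090001x3 g__wQ_26_wN_1_rb80330900v3_14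

theorem g__wQ_26_wN_1_rb80330900v3_15 : GoodKC AS k_wQ_26_wN_1_rb80330900v3_15 := p_wQ_26_wN_1_rb80330900v3_15

theorem g__wQ_26_wN_1_rb80330900v3_12 : GoodKC AS k_wQ_26_wN_1_rb80330900v3_12 := p_wQ_26_wN_1_rb80330900v3_12 g__wQ_26_wN_1_rb80330900v3_13 g__wQ_26_wN_1_rb80330900v3_15

theorem g_wQ_26_wN_1_rb8033090004x3 : GoodKC AS c_wQ_26_wN_1_rb8033090004x3 := p_wQ_26_wN_1_rb8033090004x2

theorem g_wQ_26_wN_1_rb8033090003x3 : GoodKC AS c_wQ_26_wN_1_rb8033090003x3 := p_wQ_26_wN_1_rb8033090003x2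

theorem g_wQ_26_wN_1_rb8033090002x3 : GoodKC AS c_wQ_26_wN_1_rb8033090002x3 := p_wQ_26_wN_1_rb8033090002x2

theorem g_wQ_26_wN_1_rb8033090005x3 : GoodKC AS c_wQ_26_wN_1_rb8033090005x3 := p_wQ_26_wN_1_rb8033090005x2

theorem g_wQ_26_wN_1_rb8033090006x3 : GoodKC AS c_wQ_26_wN_1_rb8033090006x3 := p_wQ_26_wN_1_rb8033090006x2

theorem g_wQ_26_wN_1_rb8033090008x3 : GoodKC AS c_wQ_26_wN_1_rb8033090008x3 := p_wQ_26_wN_1_rb8033090008x2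

theorem g_wQ_26_wN_1_rb803309000bx3 : GoodKC AS c_wQ_26_wN_1_rb803309000bx3 := p_wQ_26_wN_1_rb803309000bx2

theorem g__wQ_26_wN_1_rb803309000cx2_1 : GoodKC AS k_wQ_26_wN_1_rb803309000cx2_1 := p_wQ_26_wN_1_rb803309000cx2_1

theorem g__wQ_26_wN_1_rb803309000cx2_0 : GoodKC AS k_wQ_26_wN_1_rb803309000cx2_0 := p_wQ_26_wN_1_rb803309000cx2_0 g__wQ_26_wN_1_rb803309000cx2_1

theorem g_wQ_26_wN_1_rb803309000cx3 : GoodKC AS c_wQ_26_wN_1_rb803309000cx3 := p_wQ_26_wN_1_rb803309000cx2 g__wQ_26_wN_1_rb803309000cx2_0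

theorem g_wQ_26_wN_1_rb8033090012x3 : GoodKC AS c_wQ_26_wN_1_rb8033090012x3 := p_wQ_26_wN_1_rb8033090012x2

theorem g_wQ_26_wN_1_rb8033090016x3 : GoodKC AS c_wQ_26_wN_1_rb8033090016x3 := p_wQ_26_wN_1_rb8033090016x2

theorem g_wQ_26_wN_1_rb8033090019x3 : GoodKC AS c_wQ_26_wN_1_rb8033090019x3 := p_wQ_26_wN_1_rb8033090019x2

theorem g_wQ_26_wN_1_rb803309001ax3 : GoodKC AS c_wQ_26_wN_1_rb803309001ax3 := p_wQ_26_wN_1_rb803309001ax2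

theorem g_wQ_26_wN_1_rb803309001dx3 : GoodKC AS c_wQ_26_wN_1_rb803309001dx3 := p_wQ_26_wN_1_rb803309001dx2

theorem g_wQ_26_wN_1_rb803309001ex3 : GoodKC AS c_wQ_26_wN_1_rb803309001ex3 := p_wQ_26_wN_1_rb803309001ex2

theorem g_wQ_26_wN_1_rb80330900x7 : GoodKC AS c_wQ_26_wN_1_rb80330900x7 := p_wQ_26_wN_1_rb80330900x3 g_wQ_26_wN_1_rb803309001cx3 g_wQ_26_wN_1_rb803309001bx3 g_wQ_26_wN_1_rb8033090018x3 g_wQ_26_wN_1_rb8033090017x3 g_wQ_26_wN_1_rb8033090015x3 g_wQ_26_wN_1_rb8033090014x3 g_wQ_26_wN_1_rb8033090013x3 g_wQ_26_wN_1_rb8033090011x3 g_wQ_26_wN_1_rb8033090010x3 g_wQ_26_wN_1_rb803309000fx3 g_wQ_26_wN_1_rb803309000ex3 g_wQ_26_wN_1_rb803309000dx3 g_wQ_26_wN_1_rb803309000ax3 g__wQ_26_wN_1_rb80330900v3_0 g_wQ_26_wN_1_rb8033090009x3 g_wQ_26_wN_1_rb8033090007x3 g_wQ_26_wN_1_rb8033090000x3 g__wQ_26_wN_1_rb80330900v3_12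 g_wQ_26_wN_1_rb8033090004x3 g_wQ_26_wN_1_rb8033090003x3 g_wQ_26_wN_1_rb8033090002x3 g_wQ_26_wN_1_rb8033090005x3 g_wQ_26_wN_1_rb8033090006x3 g_wQ_26_wN_1_rb8033090008x3 g_wQ_26_wN_1_rb803309000bx3 g_wQ_26_wN_1_rb803309000cx3 g_wQ_26_wN_1_rb8033090012x3 g_wQ_26_wN_1_rb8033090016x3 g_wQ_26_wN_1_rb8033090019x3 g_wQ_26_wN_1_rb803309001ax3 g_wQ_26_wN_1_rb803309001dx3 g_wQ_26_wN_1_rb803309001ex3

theorem g_wQ_26_wN_1_rb80330901x7 : GoodKC AS c_wQ_26_wN_1_rb80330901x7 := p_wQ_26_wN_1_rb80330901x3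

theorem g_wQ_26_wN_1_rb80330902x7 : GoodKC AS c_wQ_26_wN_1_rb80330902x7 := p_wQ_26_wN_1_rb80330902x3

theorem g_wQ_26_wN_1_rb80330904x7 : GoodKC AS c_wQ_26_wN_1_rb80330904x7 := p_wQ_26_wN_1_rb80330904x3

theorem g_wQ_26_wN_1_rb80330905x7 : GoodKC AS c_wQ_26_wN_1_rb80330905x7 := p_wQ_26_wN_1_rb80330905x3

theorem g__wQ_26_wN_1_rb80330907x3_2 : GoodKC AS k_wQ_26_wN_1_rb80330907x3_2 := p_wQ_26_wN_1_rb80330907x3_2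

theorem g__wQ_26_wN_1_rb80330907x3_1 : GoodKC AS k_wQ_26_wN_1_rb80330907x3_1 := p_wQ_26_wN_1_rb80330907x3_1 g__wQ_26_wN_1_rb80330907x3_2

theorem g__wQ_26_wN_1_rb80330907x3_0 : GoodKC AS k_wQ_26_wN_1_rb80330907x3_0 := p_wQ_26_wN_1_rb80330907x3_0 g__wQ_26_wN_1_rb80330907x3_1

theorem g_wQ_26_wN_1_rb80330907x7 : GoodKC AS c_wQ_26_wN_1_rb80330907x7 := p_wQ_26_wN_1_rb80330907x3 g__wQ_26_wN_1_rb80330907x3_0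

theorem g_wQ_26_wN_1_rb80330909x7 : GoodKC AS c_wQ_26_wN_1_rb80330909x7 := p_wQ_26_wN_1_rb80330909x3

theorem g_wQ_26_wN_1_rb8033090ax7 : GoodKC AS c_wQ_26_wN_1_rb8033090ax7 := p_wQ_26_wN_1_rb8033090ax3

theorem g_wQ_26_wN_1_rb8033090bx7 : GoodKC AS c_wQ_26_wN_1_rb8033090bx7 := p_wQ_26_wN_1_rb8033090bx3

theorem g_wQ_26_wN_1_rb8033090dx7 : GoodKC AS c_wQ_26_wN_1_rb8033090dx7 := p_wQ_26_wN_1_rb8033090dx3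

theorem g_wQ_26_wN_1_rb80330910x7 : GoodKC AS c_wQ_26_wN_1_rb80330910x7 := p_wQ_26_wN_1_rb80330910x3

theorem g_wQ_26_wN_1_rb80330911x7 : GoodKC AS c_wQ_26_wN_1_rb80330911x7 := p_wQ_26_wN_1_rb80330911x3

theorem g_wQ_26_wN_1_rb80330912x7 : GoodKC AS c_wQ_26_wN_1_rb80330912x7 := p_wQ_26_wN_1_rb80330912x3

theorem g_wQ_26_wN_1_rb80330913x7 : GoodKC AS c_wQ_26_wN_1_rb80330913x7 := p_wQ_26_wN_1_rb80330913x3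

theorem g_wQ_26_wN_1_rb80330915x7 : GoodKC AS c_wQ_26_wN_1_rb80330915x7 := p_wQ_26_wN_1_rb80330915x3

theorem g_wQ_26_wN_1_rb80330917x7 : GoodKC AS c_wQ_26_wN_1_rb80330917x7 := p_wQ_26_wN_1_rb80330917x3

theorem g_wQ_26_wN_1_rb80330918x7 : GoodKC AS c_wQ_26_wN_1_rb80330918x7 := p_wQ_26_wN_1_rb80330918x3

theorem g_wQ_26_wN_1_rb80330919x7 : GoodKC AS c_wQ_26_wN_1_rb80330919x7 := p_wQ_26_wN_1_rb80330919x3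

theorem g_wQ_26_wN_1_rb8033091bx7 : GoodKC AS c_wQ_26_wN_1_rb8033091bx7 := p_wQ_26_wN_1_rb8033091bx3

theorem g_wQ_26_wN_1_rb8033091cx7 : GoodKC AS c_wQ_26_wN_1_rb8033091cx7 := p_wQ_26_wN_1_rb8033091cx3

theorem g__wQ_26_wN_1_rb803309x7_82 : GoodKC AS k_wQ_26_wN_1_rb803309x7_82 := p_wQ_26_wN_1_rb803309x7_82

theorem g__wQ_26_wN_1_rb803309x7_81 : GoodKC AS k_wQ_26_wN_1_rb803309x7_81 := p_wQ_26_wN_1_rb803309x7_81 g__wQ_26_wN_1_rb803309x7_82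

theorem g_wQ_26_wN_1_rb80330920x7 : GoodKC AS c_wQ_26_wN_1_rb80330920x7 := p_wQ_26_wN_1_rb80330920x3

theorem g_wQ_26_wN_1_rb80330923x7 : GoodKC AS c_wQ_26_wN_1_rb80330923x7 := p_wQ_26_wN_1_rb80330923x3

theorem g_wQ_26_wN_1_rb80330927x7 : GoodKC AS c_wQ_26_wN_1_rb80330927x7 := p_wQ_26_wN_1_rb80330927x3

theorem g_wQ_26_wN_1_rb80330928x7 : GoodKC AS c_wQ_26_wN_1_rb80330928x7 := p_wQ_26_wN_1_rb80330928x3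

theorem g__wQ_26_wN_1_rb80330929x3_1 : GoodKC AS k_wQ_26_wN_1_rb80330929x3_1 := p_wQ_26_wN_1_rb80330929x3_1

theorem g__wQ_26_wN_1_rb80330929x3_0 : GoodKC AS k_wQ_26_wN_1_rb80330929x3_0 := p_wQ_26_wN_1_rb80330929x3_0 g__wQ_26_wN_1_rb80330929x3_1

theorem g_wQ_26_wN_1_rb80330929x7 : GoodKC AS c_wQ_26_wN_1_rb80330929x7 := p_wQ_26_wN_1_rb80330929x3 g__wQ_26_wN_1_rb80330929x3_0

theorem g__wQ_26_wN_1_rb80330931x3_2 : GoodKC AS k_wQ_26_wN_1_rb80330931x3_2 := p_wQ_26_wN_1_rb80330931x3_2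

theorem g__wQ_26_wN_1_rb80330931x3_1 : GoodKC AS k_wQ_26_wN_1_rb80330931x3_1 := p_wQ_26_wN_1_rb80330931x3_1 g__wQ_26_wN_1_rb80330931x3_2

theorem g__wQ_26_wN_1_rb80330931x3_0 : GoodKC AS k_wQ_26_wN_1_rb80330931x3_0 := p_wQ_26_wN_1_rb80330931x3_0 g__wQ_26_wN_1_rb80330931x3_1

theorem g__wQ_26_wN_1_rb80330931x3_7 : GoodKC AS k_wQ_26_wN_1_rb80330931x3_7 := p_wQ_26_wN_1_rb80330931x3_7

theorem g__wQ_26_wN_1_rb80330931x3_6 : GoodKC AS k_wQ_26_wN_1_rb80330931x3_6 := p_wQ_26_wN_1_rb80330931x3_6 g__wQ_26_wN_1_rb80330931x3_7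

theorem g__wQ_26_wN_1_rb80330931x3_5 : GoodKC AS k_wQ_26_wN_1_rb80330931x3_5 := p_wQ_26_wN_1_rb80330931x3_5 g__wQ_26_wN_1_rb80330931x3_6

theorem g__wQ_26_wN_1_rb80330931x3_4 : GoodKC AS k_wQ_26_wN_1_rb80330931x3_4 := p_wQ_26_wN_1_rb80330931x3_4 g__wQ_26_wN_1_rb80330931x3_5

theorem g__wQ_26_wN_1_rb80330931x3_3 : GoodKC AS k_wQ_26_wN_1_rb80330931x3_3 := p_wQ_26_wN_1_rb80330931x3_3 g__wQ_26_wN_1_rb80330931x3_4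

theorem g__wQ_26_wN_1_rb80330931x3_10 : GoodKC AS k_wQ_26_wN_1_rb80330931x3_10 := p_wQ_26_wN_1_rb80330931x3_10

theorem g__wQ_26_wN_1_rb80330931x3_9 : GoodKC AS k_wQ_26_wN_1_rb80330931x3_9 := p_wQ_26_wN_1_rb80330931x3_9 g__wQ_26_wN_1_rb80330931x3_10

theorem g__wQ_26_wN_1_rb80330931x3_13 : GoodKC AS k_wQ_26_wN_1_rb80330931x3_13 := p_wQ_26_wN_1_rb80330931x3_13

theorem g__wQ_26_wN_1_rb80330931x3_12 : GoodKC AS k_wQ_26_wN_1_rb80330931x3_12 := p_wQ_26_wN_1_rb80330931x3_12 g__wQ_26_wN_1_rb80330931x3_13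

theorem g__wQ_26_wN_1_rb80330931x3_21 : GoodKC AS k_wQ_26_wN_1_rb80330931x3_21 := p_wQ_26_wN_1_rb80330931x3_21

theorem g__wQ_26_wN_1_rb80330931x3_23 : GoodKC AS k_wQ_26_wN_1_rb80330931x3_23 := p_wQ_26_wN_1_rb80330931x3_23

theorem g__wQ_26_wN_1_rb80330931x3_22 : GoodKC AS k_wQ_26_wN_1_rb80330931x3_22 := p_wQ_26_wN_1_rb80330931x3_22 g__wQ_26_wN_1_rb80330931x3_23

theorem g__wQ_26_wN_1_rb80330931x3_20 : GoodKC AS k_wQ_26_wN_1_rb80330931x3_20 := p_wQ_26_wN_1_rb80330931x3_20 g__wQ_26_wN_1_rb80330931x3_21 g__wQ_26_wN_1_rb80330931x3_22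

theorem g__wQ_26_wN_1_rb80330931x3_19 : GoodKC AS k_wQ_26_wN_1_rb80330931x3_19 := p_wQ_26_wN_1_rb80330931x3_19 g__wQ_26_wN_1_rb80330931x3_20

theorem g__wQ_26_wN_1_rb80330931x3_26 : GoodKC AS k_wQ_26_wN_1_rb80330931x3_26 := p_wQ_26_wN_1_rb80330931x3_26

theorem g__wQ_26_wN_1_rb80330931x3_25 : GoodKC AS k_wQ_26_wN_1_rb80330931x3_25 := p_wQ_26_wN_1_rb80330931x3_25 g__wQ_26_wN_1_rb80330931x3_26

theorem g__wQ_26_wN_1_rb80330931x3_24 : GoodKC AS k_wQ_26_wN_1_rb80330931x3_24 := p_wQ_26_wN_1_rb80330931x3_24 g__wQ_26_wN_1_rb80330931x3_25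

theorem g__wQ_26_wN_1_rb80330931x3_18 : GoodKC AS k_wQ_26_wN_1_rb80330931x3_18 := p_wQ_26_wN_1_rb80330931x3_18 g__wQ_26_wN_1_rb80330931x3_19 g__wQ_26_wN_1_rb80330931x3_24

theorem g__wQ_26_wN_1_rb80330931x3_17 : GoodKC AS k_wQ_26_wN_1_rb80330931x3_17 := p_wQ_26_wN_1_rb80330931x3_17 g__wQ_26_wN_1_rb80330931x3_18

theorem g__wQ_26_wN_1_rb80330931x3_27 : GoodKC AS k_wQ_26_wN_1_rb80330931x3_27 := p_wQ_26_wN_1_rb80330931x3_27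

theorem g__wQ_26_wN_1_rb80330931x3_16 : GoodKC AS k_wQ_26_wN_1_rb80330931x3_16 := p_wQ_26_wN_1_rb80330931x3_16 g__wQ_26_wN_1_rb80330931x3_17 g__wQ_26_wN_1_rb80330931x3_27

theorem g__wQ_26_wN_1_rb80330931x3_15 : GoodKC AS k_wQ_26_wN_1_rb80330931x3_15 := p_wQ_26_wN_1_rb80330931x3_15 g__wQ_26_wN_1_rb80330931x3_16

theorem g__wQ_26_wN_1_rb80330931x3_14 : GoodKC AS k_wQ_26_wN_1_rb80330931x3_14 := p_wQ_26_wN_1_rb80330931x3_14 g__wQ_26_wN_1_rb80330931x3_15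

theorem g__wQ_26_wN_1_rb80330931x3_11 : GoodKC AS k_wQ_26_wN_1_rb80330931x3_11 := p_wQ_26_wN_1_rb80330931x3_11 g__wQ_26_wN_1_rb80330931x3_12 g__wQ_26_wN_1_rb80330931x3_14

theorem g__wQ_26_wN_1_rb80330931x3_8 : GoodKC AS k_wQ_26_wN_1_rb80330931x3_8 := p_wQ_26_wN_1_rb80330931x3_8 g__wQ_26_wN_1_rb80330931x3_9 g__wQ_26_wN_1_rb80330931x3_11

theorem g_wQ_26_wN_1_rb80330931x7 : GoodKC AS c_wQ_26_wN_1_rb80330931x7 := p_wQ_26_wN_1_rb80330931x3 g__wQ_26_wN_1_rb80330931x3_0 g__wQ_26_wN_1_rb80330931x3_3 g__wQ_26_wN_1_rb80330931x3_8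

theorem g_wQ_26_wN_1_rb80330932x7 : GoodKC AS c_wQ_26_wN_1_rb80330932x7 := p_wQ_26_wN_1_rb80330932x3

theorem g__wQ_26_wN_1_rb803309x7_34 : GoodKC AS k_wQ_26_wN_1_rb803309x7_34 := p_wQ_26_wN_1_rb803309x7_34 g_wQ_26_wN_1_rb80330933x7 g__wQ_26_wN_1_rb803309x7_35 g__wQ_26_wN_1_rb803309x7_36 g__wQ_26_wN_1_rb803309x7_37 g__wQ_26_wN_1_rb803309x7_41 g_wQ_26_wN_1_rb80330930x7 g_wQ_26_wN_1_rb8033092fx7 g_wQ_26_wN_1_rb8033092ex7 g_wQ_26_wN_1_rb8033092dx7 g_wQ_26_wN_1_rb8033092cx7 g_wQ_26_wN_1_rb8033092bx7 g_wQ_26_wN_1_rb8033092ax7 g_wQ_26_wN_1_rb80330926x7 g_wQ_26_wN_1_rb80330925x7 g_wQ_26_wN_1_rb80330924x7 g_wQ_26_wN_1_rb80330922x7 g_wQ_26_wN_1_rb80330921x7 g_wQ_26_wN_1_rb8033091fx7 g_wQ_26_wN_1_rb8033091ex7 g_wQ_26_wN_1_rb8033091dx7 g_wQ_26_wN_1_rb8033091ax7 g_wQ_26_wN_1_rb80330916x7 g_wQ_26_wN_1_rb80330914x7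 g_wQ_26_wN_1_rb8033090fx7 g_wQ_26_wN_1_rb8033090ex7 g_wQ_26_wN_1_rb8033090cx7 g_wQ_26_wN_1_rb80330908x7 g_wQ_26_wN_1_rb80330906x7 g_wQ_26_wN_1_rb80330903x7 g_wQ_26_wN_1_rb80330900x7 g_wQ_26_wN_1_rb80330901x7 g_wQ_26_wN_1_rb80330902x7 g_wQ_26_wN_1_rb80330904x7 g_wQ_26_wN_1_rb80330905x7 g_wQ_26_wN_1_rb80330907x7 g_wQ_26_wN_1_rb80330909x7 g_wQ_26_wN_1_rb8033090ax7 g_wQ_26_wN_1_rb8033090bx7 g_wQ_26_wN_1_rb8033090dx7 g_wQ_26_wN_1_rb80330910x7 g_wQ_26_wN_1_rb80330911x7 g_wQ_26_wN_1_rb80330912x7 g_wQ_26_wN_1_rb80330913x7 g_wQ_26_wN_1_rb80330915x7 g_wQ_26_wN_1_rb80330917x7 g_wQ_26_wN_1_rb80330918x7 g_wQ_26_wN_1_rb80330919x7 g_wQ_26_wN_1_rb8033091bx7 g_wQ_26_wN_1_rb8033091cx7 g__wQ_26_wN_1_rb803309x7_81 g_wQ_26_wN_1_rb80330920x7 g_wQ_26_wN_1_rb80330923x7 g_wQ_26_wN_1_rb80330927x7 g_wQ_26_wN_1_rb80330928x7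 g_wQ_26_wN_1_rb80330929x7 g_wQ_26_wN_1_rb80330931x7 g_wQ_26_wN_1_rb80330932x7

theorem g_wQ_26_wN_1_rb80330936x7 : GoodKC AS c_wQ_26_wN_1_rb80330936x7 := p_wQ_26_wN_1_rb80330936x3

theorem g__wQ_26_wN_1_rb80330937x3_1 : GoodKC AS k_wQ_26_wN_1_rb80330937x3_1 := p_wQ_26_wN_1_rb80330937x3_1

theorem g__wQ_26_wN_1_rb80330937x3_2 : GoodKC AS k_wQ_26_wN_1_rb80330937x3_2 := p_wQ_26_wN_1_rb80330937x3_2

theorem g__wQ_26_wN_1_rb80330937x3_4 : GoodKC AS k_wQ_26_wN_1_rb80330937x3_4 := p_wQ_26_wN_1_rb80330937x3_4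

theorem g__wQ_26_wN_1_rb80330937x3_3 : GoodKC AS k_wQ_26_wN_1_rb80330937x3_3 := p_wQ_26_wN_1_rb80330937x3_3 g__wQ_26_wN_1_rb80330937x3_4

theorem g__wQ_26_wN_1_rb80330937x3_0 : GoodKC AS k_wQ_26_wN_1_rb80330937x3_0 := p_wQ_26_wN_1_rb80330937x3_0 g__wQ_26_wN_1_rb80330937x3_1 g__wQ_26_wN_1_rb80330937x3_2 g__wQ_26_wN_1_rb80330937x3_3

theorem g__wQ_26_wN_1_rb80330937x3_8 : GoodKC AS k_wQ_26_wN_1_rb80330937x3_8 := p_wQ_26_wN_1_rb80330937x3_8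

theorem g__wQ_26_wN_1_rb80330937x3_10 : GoodKC AS k_wQ_26_wN_1_rb80330937x3_10 := p_wQ_26_wN_1_rb80330937x3_10

theorem g__wQ_26_wN_1_rb80330937x3_11 : GoodKC AS k_wQ_26_wN_1_rb80330937x3_11 := p_wQ_26_wN_1_rb80330937x3_11

theorem g__wQ_26_wN_1_rb80330937x3_9 : GoodKC AS k_wQ_26_wN_1_rb80330937x3_9 := p_wQ_26_wN_1_rb80330937x3_9 g__wQ_26_wN_1_rb80330937x3_10 g__wQ_26_wN_1_rb80330937x3_11

theorem g__wQ_26_wN_1_rb80330937x3_13 : GoodKC AS k_wQ_26_wN_1_rb80330937x3_13 := p_wQ_26_wN_1_rb80330937x3_13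

theorem g__wQ_26_wN_1_rb80330937x3_12 : GoodKC AS k_wQ_26_wN_1_rb80330937x3_12 := p_wQ_26_wN_1_rb80330937x3_12 g__wQ_26_wN_1_rb80330937x3_13

theorem g__wQ_26_wN_1_rb80330937x3_7 : GoodKC AS k_wQ_26_wN_1_rb80330937x3_7 := p_wQ_26_wN_1_rb80330937x3_7 g__wQ_26_wN_1_rb80330937x3_8 g__wQ_26_wN_1_rb80330937x3_9 g__wQ_26_wN_1_rb80330937x3_12

theorem g__wQ_26_wN_1_rb80330937x3_6 : GoodKC AS k_wQ_26_wN_1_rb80330937x3_6 := p_wQ_26_wN_1_rb80330937x3_6 g__wQ_26_wN_1_rb80330937x3_7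

theorem g__wQ_26_wN_1_rb80330937x3_5 : GoodKC AS k_wQ_26_wN_1_rb80330937x3_5 := p_wQ_26_wN_1_rb80330937x3_5 g__wQ_26_wN_1_rb80330937x3_6

theorem g_wQ_26_wN_1_rb80330937x7 : GoodKC AS c_wQ_26_wN_1_rb80330937x7 := p_wQ_26_wN_1_rb80330937x3 g__wQ_26_wN_1_rb80330937x3_0 g__wQ_26_wN_1_rb80330937x3_5

theorem g__wQ_26_wN_1_rb80330938x3_0 : GoodKC AS k_wQ_26_wN_1_rb80330938x3_0 := p_wQ_26_wN_1_rb80330938x3_0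

theorem g__wQ_26_wN_1_rb80330938x3_6 : GoodKC AS k_wQ_26_wN_1_rb80330938x3_6 := p_wQ_26_wN_1_rb80330938x3_6

theorem g__wQ_26_wN_1_rb80330938x3_8 : GoodKC AS k_wQ_26_wN_1_rb80330938x3_8 := p_wQ_26_wN_1_rb80330938x3_8

theorem g__wQ_26_wN_1_rb80330938x3_10 : GoodKC AS k_wQ_26_wN_1_rb80330938x3_10 := p_wQ_26_wN_1_rb80330938x3_10

theorem g__wQ_26_wN_1_rb80330938x3_9 : GoodKC AS k_wQ_26_wN_1_rb80330938x3_9 := p_wQ_26_wN_1_rb80330938x3_9 g__wQ_26_wN_1_rb80330938x3_10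

theorem g__wQ_26_wN_1_rb80330938x3_7 : GoodKC AS k_wQ_26_wN_1_rb80330938x3_7 := p_wQ_26_wN_1_rb80330938x3_7 g__wQ_26_wN_1_rb80330938x3_8 g__wQ_26_wN_1_rb80330938x3_9

theorem g__wQ_26_wN_1_rb80330938x3_5 : GoodKC AS k_wQ_26_wN_1_rb80330938x3_5 := p_wQ_26_wN_1_rb80330938x3_5 g__wQ_26_wN_1_rb80330938x3_6 g__wQ_26_wN_1_rb80330938x3_7

theorem g__wQ_26_wN_1_rb80330938x3_4 : GoodKC AS k_wQ_26_wN_1_rb80330938x3_4 := p_wQ_26_wN_1_rb80330938x3_4 g__wQ_26_wN_1_rb80330938x3_5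

theorem g__wQ_26_wN_1_rb80330938x3_3 : GoodKC AS k_wQ_26_wN_1_rb80330938x3_3 := p_wQ_26_wN_1_rb80330938x3_3 g__wQ_26_wN_1_rb80330938x3_4

theorem g__wQ_26_wN_1_rb80330938x3_11 : GoodKC AS k_wQ_26_wN_1_rb80330938x3_11 := p_wQ_26_wN_1_rb80330938x3_11

theorem g__wQ_26_wN_1_rb80330938x3_12 : GoodKC AS k_wQ_26_wN_1_rb80330938x3_12 := p_wQ_26_wN_1_rb80330938x3_12

theorem g__wQ_26_wN_1_rb80330938x3_2 : GoodKC AS k_wQ_26_wN_1_rb80330938x3_2 := p_wQ_26_wN_1_rb80330938x3_2 g__wQ_26_wN_1_rb80330938x3_3 g__wQ_26_wN_1_rb80330938x3_11 g__wQ_26_wN_1_rb80330938x3_12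

theorem g__wQ_26_wN_1_rb80330938x3_15 : GoodKC AS k_wQ_26_wN_1_rb80330938x3_15 := p_wQ_26_wN_1_rb80330938x3_15

theorem g__wQ_26_wN_1_rb80330938x3_14 : GoodKC AS k_wQ_26_wN_1_rb80330938x3_14 := p_wQ_26_wN_1_rb80330938x3_14 g__wQ_26_wN_1_rb80330938x3_15

theorem g__wQ_26_wN_1_rb80330938x3_18 : GoodKC AS k_wQ_26_wN_1_rb80330938x3_18 := p_wQ_26_wN_1_rb80330938x3_18

theorem g__wQ_26_wN_1_rb80330938x3_17 : GoodKC AS k_wQ_26_wN_1_rb80330938x3_17 := p_wQ_26_wN_1_rb80330938x3_17 g__wQ_26_wN_1_rb80330938x3_18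

theorem g__wQ_26_wN_1_rb80330938x3_16 : GoodKC AS k_wQ_26_wN_1_rb80330938x3_16 := p_wQ_26_wN_1_rb80330938x3_16 g__wQ_26_wN_1_rb80330938x3_17

theorem g__wQ_26_wN_1_rb80330938x3_13 : GoodKC AS k_wQ_26_wN_1_rb80330938x3_13 := p_wQ_26_wN_1_rb80330938x3_13 g__wQ_26_wN_1_rb80330938x3_14 g__wQ_26_wN_1_rb80330938x3_16

theorem g__wQ_26_wN_1_rb80330938x3_1 : GoodKC AS k_wQ_26_wN_1_rb80330938x3_1 := p_wQ_26_wN_1_rb80330938x3_1 g__wQ_26_wN_1_rb80330938x3_2 g__wQ_26_wN_1_rb80330938x3_13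

theorem g_wQ_26_wN_1_rb80330938x7 : GoodKC AS c_wQ_26_wN_1_rb80330938x7 := p_wQ_26_wN_1_rb80330938x3 g__wQ_26_wN_1_rb80330938x3_0 g__wQ_26_wN_1_rb80330938x3_1

theorem g__wQ_26_wN_1_rb80330939x3_1 : GoodKC AS k_wQ_26_wN_1_rb80330939x3_1 := p_wQ_26_wN_1_rb80330939x3_1

theorem g__wQ_26_wN_1_rb80330939x3_0 : GoodKC AS k_wQ_26_wN_1_rb80330939x3_0 := p_wQ_26_wN_1_rb80330939x3_0 g__wQ_26_wN_1_rb80330939x3_1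

theorem g__wQ_26_wN_1_rb80330939x3_5 : GoodKC AS k_wQ_26_wN_1_rb80330939x3_5 := p_wQ_26_wN_1_rb80330939x3_5

theorem g__wQ_26_wN_1_rb80330939x3_4 : GoodKC AS k_wQ_26_wN_1_rb80330939x3_4 := p_wQ_26_wN_1_rb80330939x3_4 g__wQ_26_wN_1_rb80330939x3_5

theorem g__wQ_26_wN_1_rb80330939x3_6 : GoodKC AS k_wQ_26_wN_1_rb80330939x3_6 := p_wQ_26_wN_1_rb80330939x3_6

theorem g__wQ_26_wN_1_rb80330939x3_3 : GoodKC AS k_wQ_26_wN_1_rb80330939x3_3 := p_wQ_26_wN_1_rb80330939x3_3 g__wQ_26_wN_1_rb80330939x3_4 g__wQ_26_wN_1_rb80330939x3_6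

theorem g__wQ_26_wN_1_rb80330939x3_7 : GoodKC AS k_wQ_26_wN_1_rb80330939x3_7 := p_wQ_26_wN_1_rb80330939x3_7

theorem g__wQ_26_wN_1_rb80330939x3_2 : GoodKC AS k_wQ_26_wN_1_rb80330939x3_2 := p_wQ_26_wN_1_rb80330939x3_2 g__wQ_26_wN_1_rb80330939x3_3 g__wQ_26_wN_1_rb80330939x3_7

theorem g_wQ_26_wN_1_rb80330939x7 : GoodKC AS c_wQ_26_wN_1_rb80330939x7 := p_wQ_26_wN_1_rb80330939x3 g__wQ_26_wN_1_rb80330939x3_0 g__wQ_26_wN_1_rb80330939x3_2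

theorem g_wQ_26_wN_1_rb8033093bx7 : GoodKC AS c_wQ_26_wN_1_rb8033093bx7 := p_wQ_26_wN_1_rb8033093bx3

theorem g_wQ_26_wN_1_rb8033093cx7 : GoodKC AS c_wQ_26_wN_1_rb8033093cx7 := p_wQ_26_wN_1_rb8033093cx3

theorem g_wQ_26_wN_1_rb80330940x7 : GoodKC AS c_wQ_26_wN_1_rb80330940x7 := p_wQ_26_wN_1_rb80330940x3

theorem g_wQ_26_wN_1_rb8033094425x13 : GoodKC AS c_wQ_26_wN_1_rb8033094425x13 := p_wQ_26_wN_1_rb8033094425x4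

theorem g_wQ_26_wN_1_rb8033094424_d44_d20x7 : GoodKC AS c_wQ_26_wN_1_rb8033094424_d44_d20x7 := p_wQ_26_wN_1_rb8033094424_d44_d20

theorem g_wQ_26_wN_1_rb8033094424_d44_d1fx7 : GoodKC AS c_wQ_26_wN_1_rb8033094424_d44_d1fx7 := p_wQ_26_wN_1_rb8033094424_d44_d1f

theorem g_wQ_26_wN_1_rb8033094424_d44_d1e_d51_d24 : GoodKC AS c_wQ_26_wN_1_rb8033094424_d44_d1e_d51_d24 := p_wQ_26_wN_1_rb8033094424_d44_d1e_d51_d24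

theorem g__wQ_26_wN_1_rb8033094424_d44_d1e_d51_d21_d51_d28v1_2 : GoodKC AS k_wQ_26_wN_1_rb8033094424_d44_d1e_d51_d21_d51_d28v1_2 := p_wQ_26_wN_1_rb8033094424_d44_d1e_d51_d21_d51_d28v1_2

theorem g__wQ_26_wN_1_rb8033094424_d44_d1e_d51_d21_d51_d28v1_3 : GoodKC AS k_wQ_26_wN_1_rb8033094424_d44_d1e_d51_d21_d51_d28v1_3 := p_wQ_26_wN_1_rb8033094424_d44_d1e_d51_d21_d51_d28v1_3

theorem g__wQ_26_wN_1_rb8033094424_d44_d1e_d51_d21_d51_d28v1_6 : GoodKC AS k_wQ_26_wN_1_rb8033094424_d44_d1e_d51_d21_d51_d28v1_6 := p_wQ_26_wN_1_rb8033094424_d44_d1e_d51_d21_d51_d28v1_6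

theorem g__wQ_26_wN_1_rb8033094424_d44_d1e_d51_d21_d51_d28v1_5 : GoodKC AS k_wQ_26_wN_1_rb8033094424_d44_d1e_d51_d21_d51_d28v1_5 := p_wQ_26_wN_1_rb8033094424_d44_d1e_d51_d21_d51_d28v1_5 g__wQ_26_wN_1_rb8033094424_d44_d1e_d51_d21_d51_d28v1_6

theorem g__wQ_26_wN_1_rb8033094424_d44_d1e_d51_d21_d51_d28v1_8 : GoodKC AS k_wQ_26_wN_1_rb8033094424_d44_d1e_d51_d21_d51_d28v1_8 := p_wQ_26_wN_1_rb8033094424_d44_d1e_d51_d21_d51_d28v1_8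

theorem g__wQ_26_wN_1_rb8033094424_d44_d1e_d51_d21_d51_d28v1_10 : GoodKC AS k_wQ_26_wN_1_rb8033094424_d44_d1e_d51_d21_d51_d28v1_10 := p_wQ_26_wN_1_rb8033094424_d44_d1e_d51_d21_d51_d28v1_10

theorem g__wQ_26_wN_1_rb8033094424_d44_d1e_d51_d21_d51_d28v1_13 : GoodKC AS k_wQ_26_wN_1_rb8033094424_d44_d1e_d51_d21_d51_d28v1_13 := p_wQ_26_wN_1_rb8033094424_d44_d1e_d51_d21_d51_d28v1_13

theorem g__wQ_26_wN_1_rb8033094424_d44_d1e_d51_d21_d51_d28v1_12 : GoodKC AS k_wQ_26_wN_1_rb8033094424_d44_d1e_d51_d21_d51_d28v1_12 := p_wQ_26_wN_1_rb8033094424_d44_d1e_d51_d21_d51_d28v1_12 g__wQ_26_wN_1_rb8033094424_d44_d1e_d51_d21_d51_d28v1_13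

theorem g__wQ_26_wN_1_rb8033094424_d44_d1e_d51_d21_d51_d28v1_11 : GoodKC AS k_wQ_26_wN_1_rb8033094424_d44_d1e_d51_d21_d51_d28v1_11 := p_wQ_26_wN_1_rb8033094424_d44_d1e_d51_d21_d51_d28v1_11 g__wQ_26_wN_1_rb8033094424_d44_d1e_d51_d21_d51_d28v1_12

theorem g__wQ_26_wN_1_rb8033094424_d44_d1e_d51_d21_d51_d28v1_9 : GoodKC AS k_wQ_26_wN_1_rb8033094424_d44_d1e_d51_d21_d51_d28v1_9 := p_wQ_26_wN_1_rb8033094424_d44_d1e_d51_d21_d51_d28v1_9 g__wQ_26_wN_1_rb8033094424_d44_d1e_d51_d21_d51_d28v1_10 g__wQ_26_wN_1_rb8033094424_d44_d1e_d51_d21_d51_d28v1_11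

theorem g__wQ_26_wN_1_rb8033094424_d44_d1e_d51_d21_d51_d28v1_7 : GoodKC AS k_wQ_26_wN_1_rb8033094424_d44_d1e_d51_d21_d51_d28v1_7 := p_wQ_26_wN_1_rb8033094424_d44_d1e_d51_d21_d51_d28v1_7 g__wQ_26_wN_1_rb8033094424_d44_d1e_d51_d21_d51_d28v1_8 g__wQ_26_wN_1_rb8033094424_d44_d1e_d51_d21_d51_d28v1_9

theorem g__wQ_26_wN_1_rb8033094424_d44_d1e_d51_d21_d51_d28v1_4 : GoodKC AS k_wQ_26_wN_1_rb8033094424_d44_d1e_d51_d21_d51_d28v1_4 := p_wQ_26_wN_1_rb8033094424_d44_d1e_d51_d21_d51_d28v1_4 g__wQ_26_wN_1_rb8033094424_d44_d1e_d51_d21_d51_d28v1_5 g__wQ_26_wN_1_rb8033094424_d44_d1e_d51_d21_d51_d28v1_7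

theorem g__wQ_26_wN_1_rb8033094424_d44_d1e_d51_d21_d51_d28v1_1 : GoodKC AS k_wQ_26_wN_1_rb8033094424_d44_d1e_d51_d21_d51_d28v1_1 := p_wQ_26_wN_1_rb8033094424_d44_d1e_d51_d21_d51_d28v1_1 g__wQ_26_wN_1_rb8033094424_d44_d1e_d51_d21_d51_d28v1_2 g__wQ_26_wN_1_rb8033094424_d44_d1e_d51_d21_d51_d28v1_3 g__wQ_26_wN_1_rb8033094424_d44_d1e_d51_d21_d51_d28v1_4

theorem g__wQ_26_wN_1_rb8033094424_d44_d1e_d51_d21_d51_d28v1_0 : GoodKC AS k_wQ_26_wN_1_rb8033094424_d44_d1e_d51_d21_d51_d28v1_0 := p_wQ_26_wN_1_rb8033094424_d44_d1e_d51_d21_d51_d28v1_0 g__wQ_26_wN_1_rb8033094424_d44_d1e_d51_d21_d51_d28v1_1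

theorem g_wQ_26_wN_1_rb8033094424_d44_d1e_d51_d21_d51_d28 : GoodKC AS c_wQ_26_wN_1_rb8033094424_d44_d1e_d51_d21_d51_d28 := p_wQ_26_wN_1_rb8033094424_d44_d1e_d51_d21_d51_d28v1 g__wQ_26_wN_1_rb8033094424_d44_d1e_d51_d21_d51_d28v1_0

theorem g_wQ_26_wN_1_rb8033094424_d44_d1e_d51_d21_d51_d24 : GoodKC AS c_wQ_26_wN_1_rb8033094424_d44_d1e_d51_d21_d51_d24 := p_wQ_26_wN_1_rb8033094424_d44_d1e_d51_d21_d51_d24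

theorem g_wQ_26_wN_1_rb8033094424_d44_d1e_d51_d21_d51_d22 : GoodKC AS c_wQ_26_wN_1_rb8033094424_d44_d1e_d51_d21_d51_d22 := p_wQ_26_wN_1_rb8033094424_d44_d1e_d51_d21_d51_d22

theorem g_wQ_26_wN_1_rb8033094424_d44_d1e_d51_d21_d51_d20 : GoodKC AS c_wQ_26_wN_1_rb8033094424_d44_d1e_d51_d21_d51_d20 := p_wQ_26_wN_1_rb8033094424_d44_d1e_d51_d21_d51_d20

theorem g__wQ_26_wN_1_rb8033094424_d44_d1e_d51_d21_d51_d1f_0 : GoodKC AS k_wQ_26_wN_1_rb8033094424_d44_d1e_d51_d21_d51_d1f_0 := p_wQ_26_wN_1_rb8033094424_d44_d1e_d51_d21_d51_d1f_0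

theorem g_wQ_26_wN_1_rb8033094424_d44_d1e_d51_d21_d51_d1f : GoodKC AS c_wQ_26_wN_1_rb8033094424_d44_d1e_d51_d21_d51_d1f := p_wQ_26_wN_1_rb8033094424_d44_d1e_d51_d21_d51_d1f g__wQ_26_wN_1_rb8033094424_d44_d1e_d51_d21_d51_d1f_0

theorem g__wQ_26_wN_1_rb8033094424_d44_d1e_d51_d21_d51_d1e_d51_d1b_0 : GoodKC AS k_wQ_26_wN_1_rb8033094424_d44_d1e_d51_d21_d51_d1e_d51_d1b_0 := p_wQ_26_wN_1_rb8033094424_d44_d1e_d51_d21_d51_d1e_d51_d1b_0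

theorem g__wQ_26_wN_1_rb8033094424_d44_d1e_d51_d21_d51_d1e_d51_d1b_1 : GoodKC AS k_wQ_26_wN_1_rb8033094424_d44_d1e_d51_d21_d51_d1e_d51_d1b_1 := p_wQ_26_wN_1_rb8033094424_d44_d1e_d51_d21_d51_d1e_d51_d1b_1

theorem g__wQ_26_wN_1_rb8033094424_d44_d1e_d51_d21_d51_d1e_d51_d1b_2 : GoodKC AS k_wQ_26_wN_1_rb8033094424_d44_d1e_d51_d21_d51_d1e_d51_d1b_2 := p_wQ_26_wN_1_rb8033094424_d44_d1e_d51_d21_d51_d1e_d51_d1b_2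

theorem g_wQ_26_wN_1_rb8033094424_d44_d1e_d51_d21_d51_d1e_d51_d1b : GoodKC AS c_wQ_26_wN_1_rb8033094424_d44_d1e_d51_d21_d51_d1e_d51_d1b := p_wQ_26_wN_1_rb8033094424_d44_d1e_d51_d21_d51_d1e_d51_d1b g__wQ_26_wN_1_rb8033094424_d44_d1e_d51_d21_d51_d1e_d51_d1b_0 g__wQ_26_wN_1_rb8033094424_d44_d1e_d51_d21_d51_d1e_d51_d1b_1 g__wQ_26_wN_1_rb8033094424_d44_d1e_d51_d21_d51_d1e_d51_d1b_2

theorem g__wQ_26_wN_1_rb8033094424_d44_d1e_d51_d21_d51_d1e_d51_d1a_1 : GoodKC AS k_wQ_26_wN_1_rb8033094424_d44_d1e_d51_d21_d51_d1e_d51_d1a_1 := p_wQ_26_wN_1_rb8033094424_d44_d1e_d51_d21_d51_d1e_d51_d1a_1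

theorem g__wQ_26_wN_1_rb8033094424_d44_d1e_d51_d21_d51_d1e_d51_d1a_0 : GoodKC AS k_wQ_26_wN_1_rb8033094424_d44_d1e_d51_d21_d51_d1e_d51_d1a_0 := p_wQ_26_wN_1_rb8033094424_d44_d1e_d51_d21_d51_d1e_d51_d1a_0 g__wQ_26_wN_1_rb8033094424_d44_d1e_d51_d21_d51_d1e_d51_d1a_1

theorem g_wQ_26_wN_1_rb8033094424_d44_d1e_d51_d21_d51_d1e_d51_d1a : GoodKC AS c_wQ_26_wN_1_rb8033094424_d44_d1e_d51_d21_d51_d1e_d51_d1a := p_wQ_26_wN_1_rb8033094424_d44_d1e_d51_d21_d51_d1e_d51_d1a g__wQ_26_wN_1_rb8033094424_d44_d1e_d51_d21_d51_d1e_d51_d1a_0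

theorem g_wQ_26_wN_1_rb8033094424_d44_d1e_d51_d21_d51_d1e_d51_d17 : GoodKC AS c_wQ_26_wN_1_rb8033094424_d44_d1e_d51_d21_d51_d1e_d51_d17 := p_wQ_26_wN_1_rb8033094424_d44_d1e_d51_d21_d51_d1e_d51_d17

theorem g_wQ_26_wN_1_rb8033094424_d44_d1e_d51_d21_d51_d1e_d51_d16 : GoodKC AS c_wQ_26_wN_1_rb8033094424_d44_d1e_d51_d21_d51_d1e_d51_d16 := p_wQ_26_wN_1_rb8033094424_d44_d1e_d51_d21_d51_d1e_d51_d16

theorem g_wQ_26_wN_1_rb8033094424_d44_d1e_d51_d21_d51_d1e_d51_d14 : GoodKC AS c_wQ_26_wN_1_rb8033094424_d44_d1e_d51_d21_d51_d1e_d51_d14 := p_wQ_26_wN_1_rb8033094424_d44_d1e_d51_d21_d51_d1e_d51_d14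

theorem g__wQ_26_wN_1_rb8033094424_d44_d1e_d51_d21_d51_d1e_d51_d13_2 : GoodKC AS k_wQ_26_wN_1_rb8033094424_d44_d1e_d51_d21_d51_d1e_d51_d13_2 := p_wQ_26_wN_1_rb8033094424_d44_d1e_d51_d21_d51_d1e_d51_d13_2

theorem g__wQ_26_wN_1_rb8033094424_d44_d1e_d51_d21_d51_d1e_d51_d13_1 : GoodKC AS k_wQ_26_wN_1_rb8033094424_d44_d1e_d51_d21_d51_d1e_d51_d13_1 := p_wQ_26_wN_1_rb8033094424_d44_d1e_d51_d21_d51_d1e_d51_d13_1 g__wQ_26_wN_1_rb8033094424_d44_d1e_d51_d21_d51_d1e_d51_d13_2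

theorem g__wQ_26_wN_1_rb8033094424_d44_d1e_d51_d21_d51_d1e_d51_d13_3 : GoodKC AS k_wQ_26_wN_1_rb8033094424_d44_d1e_d51_d21_d51_d1e_d51_d13_3 := p_wQ_26_wN_1_rb8033094424_d44_d1e_d51_d21_d51_d1e_d51_d13_3

theorem g__wQ_26_wN_1_rb8033094424_d44_d1e_d51_d21_d51_d1e_d51_d13_5 : GoodKC AS k_wQ_26_wN_1_rb8033094424_d44_d1e_d51_d21_d51_d1e_d51_d13_5 := p_wQ_26_wN_1_rb8033094424_d44_d1e_d51_d21_d51_d1e_d51_d13_5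

theorem g__wQ_26_wN_1_rb8033094424_d44_d1e_d51_d21_d51_d1e_d51_d13_4 : GoodKC AS k_wQ_26_wN_1_rb8033094424_d44_d1e_d51_d21_d51_d1e_d51_d13_4 := p_wQ_26_wN_1_rb8033094424_d44_d1e_d51_d21_d51_d1e_d51_d13_4 g__wQ_26_wN_1_rb8033094424_d44_d1e_d51_d21_d51_d1e_d51_d13_5

theorem g__wQ_26_wN_1_rb8033094424_d44_d1e_d51_d21_d51_d1e_d51_d13_6 : GoodKC AS k_wQ_26_wN_1_rb8033094424_d44_d1e_d51_d21_d51_d1e_d51_d13_6 := p_wQ_26_wN_1_rb8033094424_d44_d1e_d51_d21_d51_d1e_d51_d13_6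

theorem g__wQ_26_wN_1_rb8033094424_d44_d1e_d51_d21_d51_d1e_d51_d13_0 : GoodKC AS k_wQ_26_wN_1_rb8033094424_d44_d1e_d51_d21_d51_d1e_d51_d13_0 := p_wQ_26_wN_1_rb8033094424_d44_d1e_d51_d21_d51_d1e_d51_d13_0 g__wQ_26_wN_1_rb8033094424_d44_d1e_d51_d21_d51_d1e_d51_d13_1 g__wQ_26_wN_1_rb8033094424_d44_d1e_d51_d21_d51_d1e_d51_d13_3 g__wQ_26_wN_1_rb8033094424_d44_d1e_d51_d21_d51_d1e_d51_d13_4 g__wQ_26_wN_1_rb8033094424_d44_d1e_d51_d21_d51_d1e_d51_d13_6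

theorem g_wQ_26_wN_1_rb8033094424_d44_d1e_d51_d21_d51_d1e_d51_d13 : GoodKC AS c_wQ_26_wN_1_rb8033094424_d44_d1e_d51_d21_d51_d1e_d51_d13 := p_wQ_26_wN_1_rb8033094424_d44_d1e_d51_d21_d51_d1e_d51_d13 g__wQ_26_wN_1_rb8033094424_d44_d1e_d51_d21_d51_d1e_d51_d13_0

theorem g_wQ_26_wN_1_rb8033094424_d44_d1e_d51_d21_d51_d1e_d51_d12 : GoodKC AS c_wQ_26_wN_1_rb8033094424_d44_d1e_d51_d21_d51_d1e_d51_d12 := p_wQ_26_wN_1_rb8033094424_d44_d1e_d51_d21_d51_d1e_d51_d12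

theorem g_wQ_26_wN_1_rb8033094424_d44_d1e_d51_d21_d51_d1e_d51_d11 : GoodKC AS c_wQ_26_wN_1_rb8033094424_d44_d1e_d51_d21_d51_d1e_d51_d11 := p_wQ_26_wN_1_rb8033094424_d44_d1e_d51_d21_d51_d1e_d51_d11

theorem g_wQ_26_wN_1_rb8033094424_d44_d1e_d51_d21_d51_d1e_d51_d10 : GoodKC AS c_wQ_26_wN_1_rb8033094424_d44_d1e_d51_d21_d51_d1e_d51_d10 := p_wQ_26_wN_1_rb8033094424_d44_d1e_d51_d21_d51_d1e_d51_d10

theorem g_wQ_26_wN_1_rb8033094424_d44_d1e_d51_d21_d51_d1e_d51_d0f_d51_d16 : GoodKC AS c_wQ_26_wN_1_rb8033094424_d44_d1e_d51_d21_d51_d1e_d51_d0f_d51_d16 := p_wQ_26_wN_1_rb8033094424_d44_d1e_d51_d21_d51_d1e_d51_d0f_d51_d16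

theorem g_wQ_26_wN_1_rb8033094424_d44_d1e_d51_d21_d51_d1e_d51_d0f_d51_d15 : GoodKC AS c_wQ_26_wN_1_rb8033094424_d44_d1e_d51_d21_d51_d1e_d51_d0f_d51_d15 := p_wQ_26_wN_1_rb8033094424_d44_d1e_d51_d21_d51_d1e_d51_d0f_d51_d15

theorem g_wQ_26_wN_1_rb8033094424_d44_d1e_d51_d21_d51_d1e_d51_d0f_d51_d14_d51_d1f : GoodKC AS c_wQ_26_wN_1_rb8033094424_d44_d1e_d51_d21_d51_d1e_d51_d0f_d51_d14_d51_d1f := p_wQ_26_wN_1_rb8033094424_d44_d1e_d51_d21_d51_d1e_d51_d0f_d51_d14_d51_d1f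

theorem g_wQ_26_wN_1_rb8033094424_d44_d1e_d51_d21_d51_d1e_d51_d0f_d51_d14_d51_d1d : GoodKC AS c_wQ_26_wN_1_rb8033094424_d44_d1e_d51_d21_d51_d1e_d51_d0f_d51_d14_d51_d1d := p_wQ_26_wN_1_rb8033094424_d44_d1e_d51_d21_d51_d1e_d51_d0f_d51_d14_d51_d1d

theorem g_wQ_26_wN_1_rb8033094424_d44_d1e_d51_d21_d51_d1e_d51_d0f_d51_d14_d51_d1c : GoodKC AS c_wQ_26_wN_1_rb8033094424_d44_d1e_d51_d21_d51_d1e_d51_d0f_d51_d14_d51_d1c := p_wQ_26_wN_1_rb8033094424_d44_d1e_d51_d21_d51_d1e_d51_d0f_d51_d14_d51_d1c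

theorem g_wQ_26_wN_1_rb8033094424_d44_d1e_d51_d21_d51_d1e_d51_d0f_d51_d14_d51_d1b : GoodKC AS c_wQ_26_wN_1_rb8033094424_d44_d1e_d51_d21_d51_d1e_d51_d0f_d51_d14_d51_d1b := p_wQ_26_wN_1_rb8033094424_d44_d1e_d51_d21_d51_d1e_d51_d0f_d51_d14_d51_d1b

theorem g__wQ_26_wN_1_rb8033094424_d44_d1e_d51_d21_d51_d1e_d51_d0f_d51_d14_d51_d1a_1 : GoodKC AS k_wQ_26_wN_1_rb8033094424_d44_d1e_d51_d21_d51_d1e_d51_d0f_d51_d14_d51_d1a_1 := p_wQ_26_wN_1_rb8033094424_d44_d1e_d51_d21_d51_d1e_d51_d0f_d51_d14_d51_d1a_1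

theorem g__wQ_26_wN_1_rb8033094424_d44_d1e_d51_d21_d51_d1e_d51_d0f_d51_d14_d51_d1a_0 : GoodKC AS k_wQ_26_wN_1_rb8033094424_d44_d1e_d51_d21_d51_d1e_d51_d0f_d51_d14_d51_d1a_0 := p_wQ_26_wN_1_rb8033094424_d44_d1e_d51_d21_d51_d1e_d51_d0f_d51_d14_d51_d1a_0 g__wQ_26_wN_1_rb8033094424_d44_d1e_d51_d21_d51_d1e_d51_d0f_d51_d14_d51_d1a_1

theorem g__wQ_26_wN_1_rb8033094424_d44_d1e_d51_d21_d51_d1e_d51_d0f_d51_d14_d51_d1a_4 : GoodKC AS k_wQ_26_wN_1_rb8033094424_d44_d1e_d51_d21_d51_d1e_d51_d0f_d51_d14_d51_d1a_4 := p_wQ_26_wN_1_rb8033094424_d44_d1e_d51_d21_d51_d1e_d51_d0f_d51_d14_d51_d1a_4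

theorem g__wQ_26_wN_1_rb8033094424_d44_d1e_d51_d21_d51_d1e_d51_d0f_d51_d14_d51_d1a_3 : GoodKC AS k_wQ_26_wN_1_rb8033094424_d44_d1e_d51_d21_d51_d1e_d51_d0f_d51_d14_d51_d1a_3 := p_wQ_26_wN_1_rb8033094424_d44_d1e_d51_d21_d51_d1e_d51_d0f_d51_d14_d51_d1a_3 g__wQ_26_wN_1_rb8033094424_d44_d1e_d51_d21_d51_d1e_d51_d0f_d51_d14_d51_d1a_4

theorem g__wQ_26_wN_1_rb8033094424_d44_d1e_d51_d21_d51_d1e_d51_d0f_d51_d14_d51_d1a_2 : GoodKC AS k_wQ_26_wN_1_rb8033094424_d44_d1e_d51_d21_d51_d1e_d51_d0f_d51_d14_d51_d1a_2 := p_wQ_26_wN_1_rb8033094424_d44_d1e_d51_d21_d51_d1e_d51_d0f_d51_d14_d51_d1a_2 g__wQ_26_wN_1_rb8033094424_d44_d1e_d51_d21_d51_d1e_d51_d0f_d51_d14_d51_d1a_3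

theorem g_wQ_26_wN_1_rb8033094424_d44_d1e_d51_d21_d51_d1e_d51_d0f_d51_d14_d51_d1a : GoodKC AS c_wQ_26_wN_1_rb8033094424_d44_d1e_d51_d21_d51_d1e_d51_d0f_d51_d14_d51_d1a := p_wQ_26_wN_1_rb8033094424_d44_d1e_d51_d21_d51_d1e_d51_d0f_d51_d14_d51_d1a g__wQ_26_wN_1_rb8033094424_d44_d1e_d51_d21_d51_d1e_d51_d0f_d51_d14_d51_d1a_0 g__wQ_26_wN_1_rb8033094424_d44_d1e_d51_d21_d51_d1e_d51_d0f_d51_d14_d51_d1a_2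

theorem g_wQ_26_wN_1_rb8033094424_d44_d1e_d51_d21_d51_d1e_d51_d0f_d51_d14_d51_d19 : GoodKC AS c_wQ_26_wN_1_rb8033094424_d44_d1e_d51_d21_d51_d1e_d51_d0f_d51_d14_d51_d19 := p_wQ_26_wN_1_rb8033094424_d44_d1e_d51_d21_d51_d1e_d51_d0f_d51_d14_d51_d19

theorem g__wQ_26_wN_1_rb8033094424_d44_d1e_d51_d21_d51_d1e_d51_d0f_d51_d14_d51_d17_4 : GoodKC AS k_wQ_26_wN_1_rb8033094424_d44_d1e_d51_d21_d51_d1e_d51_d0f_d51_d14_d51_d17_4 := p_wQ_26_wN_1_rb8033094424_d44_d1e_d51_d21_d51_d1e_d51_d0f_d51_d14_d51_d17_4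

theorem g__wQ_26_wN_1_rb8033094424_d44_d1e_d51_d21_d51_d1e_d51_d0f_d51_d14_d51_d17_3 : GoodKC AS k_wQ_26_wN_1_rb8033094424_d44_d1e_d51_d21_d51_d1e_d51_d0f_d51_d14_d51_d17_3 := p_wQ_26_wN_1_rb8033094424_d44_d1e_d51_d21_d51_d1e_d51_d0f_d51_d14_d51_d17_3 g__wQ_26_wN_1_rb8033094424_d44_d1e_d51_d21_d51_d1e_d51_d0f_d51_d14_d51_d17_4

theorem g__wQ_26_wN_1_rb8033094424_d44_d1e_d51_d21_d51_d1e_d51_d0f_d51_d14_d51_d17_2 : GoodKC AS k_wQ_26_wN_1_rb8033094424_d44_d1e_d51_d21_d51_d1e_d51_d0f_d51_d14_d51_d17_2 := p_wQ_26_wN_1_rb8033094424_d44_d1e_d51_d21_d51_d1e_d51_d0f_d51_d14_d51_d17_2 g__wQ_26_wN_1_rb8033094424_d44_d1e_d51_d21_d51_d1e_d51_d0f_d51_d14_d51_d17_3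

theorem g__wQ_26_wN_1_rb8033094424_d44_d1e_d51_d21_d51_d1e_d51_d0f_d51_d14_d51_d17_1 : GoodKC AS k_wQ_26_wN_1_rb8033094424_d44_d1e_d51_d21_d51_d1e_d51_d0f_d51_d14_d51_d17_1 := p_wQ_26_wN_1_rb8033094424_d44_d1e_d51_d21_d51_d1e_d51_d0f_d51_d14_d51_d17_1 g__wQ_26_wN_1_rb8033094424_d44_d1e_d51_d21_d51_d1e_d51_d0f_d51_d14_d51_d17_2

theorem g__wQ_26_wN_1_rb8033094424_d44_d1e_d51_d21_d51_d1e_d51_d0f_d51_d14_d51_d17_0 : GoodKC AS k_wQ_26_wN_1_rb8033094424_d44_d1e_d51_d21_d51_d1e_d51_d0f_d51_d14_d51_d17_0 := p_wQ_26_wN_1_rb8033094424_d44_d1e_d51_d21_d51_d1e_d51_d0f_d51_d14_d51_d17_0 g__wQ_26_wN_1_rb8033094424_d44_d1e_d51_d21_d51_d1e_d51_d0f_d51_d14_d51_d17_1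

theorem g_wQ_26_wN_1_rb8033094424_d44_d1e_d51_d21_d51_d1e_d51_d0f_d51_d14_d51_d17 : GoodKC AS c_wQ_26_wN_1_rb8033094424_d44_d1e_d51_d21_d51_d1e_d51_d0f_d51_d14_d51_d17 := p_wQ_26_wN_1_rb8033094424_d44_d1e_d51_d21_d51_d1e_d51_d0f_d51_d14_d51_d17 g__wQ_26_wN_1_rb8033094424_d44_d1e_d51_d21_d51_d1e_d51_d0f_d51_d14_d51_d17_0

theorem g_wQ_26_wN_1_rb8033094424_d44_d1e_d51_d21_d51_d1e_d51_d0f_d51_d14_d51_d16 : GoodKC AS c_wQ_26_wN_1_rb8033094424_d44_d1e_d51_d21_d51_d1e_d51_d0f_d51_d14_d51_d16 := p_wQ_26_wN_1_rb8033094424_d44_d1e_d51_d21_d51_d1e_d51_d0f_d51_d14_d51_d16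

theorem g_wQ_26_wN_1_rb8033094424_d44_d1e_d51_d21_d51_d1e_d51_d0f_d51_d14_d51_d15 : GoodKC AS c_wQ_26_wN_1_rb8033094424_d44_d1e_d51_d21_d51_d1e_d51_d0f_d51_d14_d51_d15 := p_wQ_26_wN_1_rb8033094424_d44_d1e_d51_d21_d51_d1e_d51_d0f_d51_d14_d51_d15

theorem g__wQ_26_wN_1_rb8033094424_d44_d1e_d51_d21_d51_d1e_d51_d0f_d51_d14_d51_d14_0 : GoodKC AS k_wQ_26_wN_1_rb8033094424_d44_d1e_d51_d21_d51_d1e_d51_d0f_d51_d14_d51_d14_0 := p_wQ_26_wN_1_rb8033094424_d44_d1e_d51_d21_d51_d1e_d51_d0f_d51_d14_d51_d14_0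

theorem g_wQ_26_wN_1_rb8033094424_d44_d1e_d51_d21_d51_d1e_d51_d0f_d51_d14_d51_d14 : GoodKC AS c_wQ_26_wN_1_rb8033094424_d44_d1e_d51_d21_d51_d1e_d51_d0f_d51_d14_d51_d14 := p_wQ_26_wN_1_rb8033094424_d44_d1e_d51_d21_d51_d1e_d51_d0f_d51_d14_d51_d14 g__wQ_26_wN_1_rb8033094424_d44_d1e_d51_d21_d51_d1e_d51_d0f_d51_d14_d51_d14_0

theorem g_wQ_26_wN_1_rb8033094424_d44_d1e_d51_d21_d51_d1e_d51_d0f_d51_d14_d51_d13 : GoodKC AS c_wQ_26_wN_1_rb8033094424_d44_d1e_d51_d21_d51_d1e_d51_d0f_d51_d14_d51_d13 := p_wQ_26_wN_1_rb8033094424_d44_d1e_d51_d21_d51_d1e_d51_d0f_d51_d14_d51_d13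

theorem g_wQ_26_wN_1_rb8033094424_d44_d1e_d51_d21_d51_d1e_d51_d0f_d51_d14_d51_d11 : GoodKC AS c_wQ_26_wN_1_rb8033094424_d44_d1e_d51_d21_d51_d1e_d51_d0f_d51_d14_d51_d11 := p_wQ_26_wN_1_rb8033094424_d44_d1e_d51_d21_d51_d1e_d51_d0f_d51_d14_d51_d11

theorem g_wQ_26_wN_1_rb8033094424_d44_d1e_d51_d21_d51_d1e_d51_d0f_d51_d14_d51_d0f : GoodKC AS c_wQ_26_wN_1_rb8033094424_d44_d1e_d51_d21_d51_d1e_d51_d0f_d51_d14_d51_d0f := p_wQ_26_wN_1_rb8033094424_d44_d1e_d51_d21_d51_d1e_d51_d0f_d51_d14_d51_d0f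

theorem g_wQ_26_wN_1_rb8033094424_d44_d1e_d51_d21_d51_d1e_d51_d0f_d51_d14_d51_d0e : GoodKC AS c_wQ_26_wN_1_rb8033094424_d44_d1e_d51_d21_d51_d1e_d51_d0f_d51_d14_d51_d0e := p_wQ_26_wN_1_rb8033094424_d44_d1e_d51_d21_d51_d1e_d51_d0f_d51_d14_d51_d0e

theorem g_wQ_26_wN_1_rb8033094424_d44_d1e_d51_d21_d51_d1e_d51_d0f_d51_d14_d51_d0c : GoodKC AS c_wQ_26_wN_1_rb8033094424_d44_d1e_d51_d21_d51_d1e_d51_d0f_d51_d14_d51_d0c := p_wQ_26_wN_1_rb8033094424_d44_d1e_d51_d21_d51_d1e_d51_d0f_d51_d14_d51_d0c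

theorem g_wQ_26_wN_1_rb8033094424_d44_d1e_d51_d21_d51_d1e_d51_d0f_d51_d14_d51_d0a : GoodKC AS c_wQ_26_wN_1_rb8033094424_d44_d1e_d51_d21_d51_d1e_d51_d0f_d51_d14_d51_d0a := p_wQ_26_wN_1_rb8033094424_d44_d1e_d51_d21_d51_d1e_d51_d0f_d51_d14_d51_d0a

theorem g_wQ_26_wN_1_rb8033094424_d44_d1e_d51_d21_d51_d1e_d51_d0f_d51_d14_d51_d09 : GoodKC AS c_wQ_26_wN_1_rb8033094424_d44_d1e_d51_d21_d51_d1e_d51_d0f_d51_d14_d51_d09 := p_wQ_26_wN_1_rb8033094424_d44_d1e_d51_d21_d51_d1e_d51_d0f_d51_d14_d51_d09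

theorem g_wQ_26_wN_1_rb8033094424_d44_d1e_d51_d21_d51_d1e_d51_d0f_d51_d14_d51_d07 : GoodKC AS c_wQ_26_wN_1_rb8033094424_d44_d1e_d51_d21_d51_d1e_d51_d0f_d51_d14_d51_d07 := p_wQ_26_wN_1_rb8033094424_d44_d1e_d51_d21_d51_d1e_d51_d0f_d51_d14_d51_d07

theorem g_wQ_26_wN_1_rb8033094424_d44_d1e_d51_d21_d51_d1e_d51_d0f_d51_d14_d51_d06 : GoodKC AS c_wQ_26_wN_1_rb8033094424_d44_d1e_d51_d21_d51_d1e_d51_d0f_d51_d14_d51_d06 := p_wQ_26_wN_1_rb8033094424_d44_d1e_d51_d21_d51_d1e_d51_d0f_d51_d14_d51_d06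

theorem g__wQ_26_wN_1_rb8033094424_d44_d1e_d51_d21_d51_d1e_d51_d0f_d51_d14_d51_d04_0 : GoodKC AS k_wQ_26_wN_1_rb8033094424_d44_d1e_d51_d21_d51_d1e_d51_d0f_d51_d14_d51_d04_0 := p_wQ_26_wN_1_rb8033094424_d44_d1e_d51_d21_d51_d1e_d51_d0f_d51_d14_d51_d04_0

theorem g_wQ_26_wN_1_rb8033094424_d44_d1e_d51_d21_d51_d1e_d51_d0f_d51_d14_d51_d04 : GoodKC AS c_wQ_26_wN_1_rb8033094424_d44_d1e_d51_d21_d51_d1e_d51_d0f_d51_d14_d51_d04 := p_wQ_26_wN_1_rb8033094424_d44_d1e_d51_d21_d51_d1e_d51_d0f_d51_d14_d51_d04 g__wQ_26_wN_1_rb8033094424_d44_d1e_d51_d21_d51_d1e_d51_d0f_d51_d14_d51_d04_0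

theorem g_wQ_26_wN_1_rb8033094424_d44_d1e_d51_d21_d51_d1e_d51_d0f_d51_d14_d51_d03 : GoodKC AS c_wQ_26_wN_1_rb8033094424_d44_d1e_d51_d21_d51_d1e_d51_d0f_d51_d14_d51_d03 := p_wQ_26_wN_1_rb8033094424_d44_d1e_d51_d21_d51_d1e_d51_d0f_d51_d14_d51_d03

theorem g__wQ_26_wN_1_rb8033094424_d44_d1e_d51_d21_d51_d1e_d51_d0f_d51_d14_d51_d01_0 : GoodKC AS k_wQ_26_wN_1_rb8033094424_d44_d1e_d51_d21_d51_d1e_d51_d0f_d51_d14_d51_d01_0 := p_wQ_26_wN_1_rb8033094424_d44_d1e_d51_d21_d51_d1e_d51_d0f_d51_d14_d51_d01_0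

theorem g_wQ_26_wN_1_rb8033094424_d44_d1e_d51_d21_d51_d1e_d51_d0f_d51_d14_d51_d01 : GoodKC AS c_wQ_26_wN_1_rb8033094424_d44_d1e_d51_d21_d51_d1e_d51_d0f_d51_d14_d51_d01 := p_wQ_26_wN_1_rb8033094424_d44_d1e_d51_d21_d51_d1e_d51_d0f_d51_d14_d51_d01 g__wQ_26_wN_1_rb8033094424_d44_d1e_d51_d21_d51_d1e_d51_d0f_d51_d14_d51_d01_0

theorem g__wQ_26_wN_1_rb8033094424_d44_d1e_d51_d21_d51_d1e_d51_d0f_d51_d14_d51_d00_4 : GoodKC AS k_wQ_26_wN_1_rb8033094424_d44_d1e_d51_d21_d51_d1e_d51_d0f_d51_d14_d51_d00_4 := p_wQ_26_wN_1_rb8033094424_d44_d1e_d51_d21_d51_d1e_d51_d0f_d51_d14_d51_d00_4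

theorem g__wQ_26_wN_1_rb8033094424_d44_d1e_d51_d21_d51_d1e_d51_d0f_d51_d14_d51_d0000_0 : GoodKC AS k_wQ_26_wN_1_rb8033094424_d44_d1e_d51_d21_d51_d1e_d51_d0f_d51_d14_d51_d0000_0 := p_wQ_26_wN_1_rb8033094424_d44_d1e_d51_d21_d51_d1e_d51_d0f_d51_d14_d51_d0000_0

theorem g_wQ_26_wN_1_rb8033094424_d44_d1e_d51_d21_d51_d1e_d51_d0f_d51_d14_d51_d0000 : GoodKC AS c_wQ_26_wN_1_rb8033094424_d44_d1e_d51_d21_d51_d1e_d51_d0f_d51_d14_d51_d0000 := p_wQ_26_wN_1_rb8033094424_d44_d1e_d51_d21_d51_d1e_d51_d0f_d51_d14_d51_d0000 g__wQ_26_wN_1_rb8033094424_d44_d1e_d51_d21_d51_d1e_d51_d0f_d51_d14_d51_d0000_0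

theorem g__wQ_26_wN_1_rb8033094424_d44_d1e_d51_d21_d51_d1e_d51_d0f_d51_d14_d51_d0001_0 : GoodKC AS k_wQ_26_wN_1_rb8033094424_d44_d1e_d51_d21_d51_d1e_d51_d0f_d51_d14_d51_d0001_0 := p_wQ_26_wN_1_rb8033094424_d44_d1e_d51_d21_d51_d1e_d51_d0f_d51_d14_d51_d0001_0

theorem g_wQ_26_wN_1_rb8033094424_d44_d1e_d51_d21_d51_d1e_d51_d0f_d51_d14_d51_d0001 : GoodKC AS c_wQ_26_wN_1_rb8033094424_d44_d1e_d51_d21_d51_d1e_d51_d0f_d51_d14_d51_d0001 := p_wQ_26_wN_1_rb8033094424_d44_d1e_d51_d21_d51_d1e_d51_d0f_d51_d14_d51_d0001 g__wQ_26_wN_1_rb8033094424_d44_d1e_d51_d21_d51_d1e_d51_d0f_d51_d14_d51_d0001_0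

theorem g__wQ_26_wN_1_rb8033094424_d44_d1e_d51_d21_d51_d1e_d51_d0f_d51_d14_d51_d00_11 : GoodKC AS k_wQ_26_wN_1_rb8033094424_d44_d1e_d51_d21_d51_d1e_d51_d0f_d51_d14_d51_d00_11 := p_wQ_26_wN_1_rb8033094424_d44_d1e_d51_d21_d51_d1e_d51_d0f_d51_d14_d51_d00_11 g_wQ_26_wN_1_rb8033094424_d44_d1e_d51_d21_d51_d1e_d51_d0f_d51_d14_d51_d0000 g_wQ_26_wN_1_rb8033094424_d44_d1e_d51_d21_d51_d1e_d51_d0f_d51_d14_d51_d0001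

theorem g__wQ_26_wN_1_rb8033094424_d44_d1e_d51_d21_d51_d1e_d51_d0f_d51_d14_d51_d00_10 : GoodKC AS k_wQ_26_wN_1_rb8033094424_d44_d1e_d51_d21_d51_d1e_d51_d0f_d51_d14_d51_d00_10 := p_wQ_26_wN_1_rb8033094424_d44_d1e_d51_d21_d51_d1e_d51_d0f_d51_d14_d51_d00_10 g__wQ_26_wN_1_rb8033094424_d44_d1e_d51_d21_d51_d1e_d51_d0f_d51_d14_d51_d00_11

theorem g__wQ_26_wN_1_rb8033094424_d44_d1e_d51_d21_d51_d1e_d51_d0f_d51_d14_d51_d00_9 : GoodKC AS k_wQ_26_wN_1_rb8033094424_d44_d1e_d51_d21_d51_d1e_d51_d0f_d51_d14_d51_d00_9 := p_wQ_26_wN_1_rb8033094424_d44_d1e_d51_d21_d51_d1e_d51_d0f_d51_d14_d51_d00_9 g__wQ_26_wN_1_rb8033094424_d44_d1e_d51_d21_d51_d1e_d51_d0f_d51_d14_d51_d00_10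

theorem g__wQ_26_wN_1_rb8033094424_d44_d1e_d51_d21_d51_d1e_d51_d0f_d51_d14_d51_d00_8 : GoodKC AS k_wQ_26_wN_1_rb8033094424_d44_d1e_d51_d21_d51_d1e_d51_d0f_d51_d14_d51_d00_8 := p_wQ_26_wN_1_rb8033094424_d44_d1e_d51_d21_d51_d1e_d51_d0f_d51_d14_d51_d00_8 g__wQ_26_wN_1_rb8033094424_d44_d1e_d51_d21_d51_d1e_d51_d0f_d51_d14_d51_d00_9

theorem g__wQ_26_wN_1_rb8033094424_d44_d1e_d51_d21_d51_d1e_d51_d0f_d51_d14_d51_d00_15 : GoodKC AS k_wQ_26_wN_1_rb8033094424_d44_d1e_d51_d21_d51_d1e_d51_d0f_d51_d14_d51_d00_15 := p_wQ_26_wN_1_rb8033094424_d44_d1e_d51_d21_d51_d1e_d51_d0f_d51_d14_d51_d00_15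

theorem g__wQ_26_wN_1_rb8033094424_d44_d1e_d51_d21_d51_d1e_d51_d0f_d51_d14_d51_d00_14 : GoodKC AS k_wQ_26_wN_1_rb8033094424_d44_d1e_d51_d21_d51_d1e_d51_d0f_d51_d14_d51_d00_14 := p_wQ_26_wN_1_rb8033094424_d44_d1e_d51_d21_d51_d1e_d51_d0f_d51_d14_d51_d00_14 g__wQ_26_wN_1_rb8033094424_d44_d1e_d51_d21_d51_d1e_d51_d0f_d51_d14_d51_d00_15

theorem g__wQ_26_wN_1_rb8033094424_d44_d1e_d51_d21_d51_d1e_d51_d0f_d51_d14_d51_d00_13 : GoodKC AS k_wQ_26_wN_1_rb8033094424_d44_d1e_d51_d21_d51_d1e_d51_d0f_d51_d14_d51_d00_13 := p_wQ_26_wN_1_rb8033094424_d44_d1e_d51_d21_d51_d1e_d51_d0f_d51_d14_d51_d00_13 g__wQ_26_wN_1_rb8033094424_d44_d1e_d51_d21_d51_d1e_d51_d0f_d51_d14_d51_d00_14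

theorem g__wQ_26_wN_1_rb8033094424_d44_d1e_d51_d21_d51_d1e_d51_d0f_d51_d14_d51_d00_12 : GoodKC AS k_wQ_26_wN_1_rb8033094424_d44_d1e_d51_d21_d51_d1e_d51_d0f_d51_d14_d51_d00_12 := p_wQ_26_wN_1_rb8033094424_d44_d1e_d51_d21_d51_d1e_d51_d0f_d51_d14_d51_d00_12 g__wQ_26_wN_1_rb8033094424_d44_d1e_d51_d21_d51_d1e_d51_d0f_d51_d14_d51_d00_13

theorem g__wQ_26_wN_1_rb8033094424_d44_d1e_d51_d21_d51_d1e_d51_d0f_d51_d14_d51_d00_17 : GoodKC AS k_wQ_26_wN_1_rb8033094424_d44_d1e_d51_d21_d51_d1e_d51_d0f_d51_d14_d51_d00_17 := p_wQ_26_wN_1_rb8033094424_d44_d1e_d51_d21_d51_d1e_d51_d0f_d51_d14_d51_d00_17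

theorem g__wQ_26_wN_1_rb8033094424_d44_d1e_d51_d21_d51_d1e_d51_d0f_d51_d14_d51_d00_16 : GoodKC AS k_wQ_26_wN_1_rb8033094424_d44_d1e_d51_d21_d51_d1e_d51_d0f_d51_d14_d51_d00_16 := p_wQ_26_wN_1_rb8033094424_d44_d1e_d51_d21_d51_d1e_d51_d0f_d51_d14_d51_d00_16 g__wQ_26_wN_1_rb8033094424_d44_d1e_d51_d21_d51_d1e_d51_d0f_d51_d14_d51_d00_17

theorem g__wQ_26_wN_1_rb8033094424_d44_d1e_d51_d21_d51_d1e_d51_d0f_d51_d14_d51_d00_7 : GoodKC AS k_wQ_26_wN_1_rb8033094424_d44_d1e_d51_d21_d51_d1e_d51_d0f_d51_d14_d51_d00_7 := p_wQ_26_wN_1_rb8033094424_d44_d1e_d51_d21_d51_d1e_d51_d0f_d51_d14_d51_d00_7 g__wQ_26_wN_1_rb8033094424_d44_d1e_d51_d21_d51_d1e_d51_d0f_d51_d14_d51_d00_8 g__wQ_26_wN_1_rb8033094424_d44_d1e_d51_d21_d51_d1e_d51_d0f_d51_d14_d51_d00_12 g__wQ_26_wN_1_rb8033094424_d44_d1e_d51_d21_d51_d1e_d51_d0f_d51_d14_d51_d00_16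

theorem g__wQ_26_wN_1_rb8033094424_d44_d1e_d51_d21_d51_d1e_d51_d0f_d51_d14_d51_d00_6 : GoodKC AS k_wQ_26_wN_1_rb8033094424_d44_d1e_d51_d21_d51_d1e_d51_d0f_d51_d14_d51_d00_6 := p_wQ_26_wN_1_rb8033094424_d44_d1e_d51_d21_d51_d1e_d51_d0f_d51_d14_d51_d00_6 g__wQ_26_wN_1_rb8033094424_d44_d1e_d51_d21_d51_d1e_d51_d0f_d51_d14_d51_d00_7

theorem g__wQ_26_wN_1_rb8033094424_d44_d1e_d51_d21_d51_d1e_d51_d0f_d51_d14_d51_d00_18 : GoodKC AS k_wQ_26_wN_1_rb8033094424_d44_d1e_d51_d21_d51_d1e_d51_d0f_d51_d14_d51_d00_18 := p_wQ_26_wN_1_rb8033094424_d44_d1e_d51_d21_d51_d1e_d51_d0f_d51_d14_d51_d00_18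

theorem g__wQ_26_wN_1_rb8033094424_d44_d1e_d51_d21_d51_d1e_d51_d0f_d51_d14_d51_d00_5 : GoodKC AS k_wQ_26_wN_1_rb8033094424_d44_d1e_d51_d21_d51_d1e_d51_d0f_d51_d14_d51_d00_5 := p_wQ_26_wN_1_rb8033094424_d44_d1e_d51_d21_d51_d1e_d51_d0f_d51_d14_d51_d00_5 g__wQ_26_wN_1_rb8033094424_d44_d1e_d51_d21_d51_d1e_d51_d0f_d51_d14_d51_d00_6 g__wQ_26_wN_1_rb8033094424_d44_d1e_d51_d21_d51_d1e_d51_d0f_d51_d14_d51_d00_18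

theorem g__wQ_26_wN_1_rb8033094424_d44_d1e_d51_d21_d51_d1e_d51_d0f_d51_d14_d51_d00_19 : GoodKC AS k_wQ_26_wN_1_rb8033094424_d44_d1e_d51_d21_d51_d1e_d51_d0f_d51_d14_d51_d00_19 := p_wQ_26_wN_1_rb8033094424_d44_d1e_d51_d21_d51_d1e_d51_d0f_d51_d14_d51_d00_19

theorem g__wQ_26_wN_1_rb8033094424_d44_d1e_d51_d21_d51_d1e_d51_d0f_d51_d14_d51_d00_20 : GoodKC AS k_wQ_26_wN_1_rb8033094424_d44_d1e_d51_d21_d51_d1e_d51_d0f_d51_d14_d51_d00_20 := p_wQ_26_wN_1_rb8033094424_d44_d1e_d51_d21_d51_d1e_d51_d0f_d51_d14_d51_d00_20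

theorem g__wQ_26_wN_1_rb8033094424_d44_d1e_d51_d21_d51_d1e_d51_d0f_d51_d14_d51_d00_3 : GoodKC AS k_wQ_26_wN_1_rb8033094424_d44_d1e_d51_d21_d51_d1e_d51_d0f_d51_d14_d51_d00_3 := p_wQ_26_wN_1_rb8033094424_d44_d1e_d51_d21_d51_d1e_d51_d0f_d51_d14_d51_d00_3 g__wQ_26_wN_1_rb8033094424_d44_d1e_d51_d21_d51_d1e_d51_d0f_d51_d14_d51_d00_4 g__wQ_26_wN_1_rb8033094424_d44_d1e_d51_d21_d51_d1e_d51_d0f_d51_d14_d51_d00_5 g__wQ_26_wN_1_rb8033094424_d44_d1e_d51_d21_d51_d1e_d51_d0f_d51_d14_d51_d00_19 g__wQ_26_wN_1_rb8033094424_d44_d1e_d51_d21_d51_d1e_d51_d0f_d51_d14_d51_d00_20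

theorem g__wQ_26_wN_1_rb8033094424_d44_d1e_d51_d21_d51_d1e_d51_d0f_d51_d14_d51_d00_2 : GoodKC AS k_wQ_26_wN_1_rb8033094424_d44_d1e_d51_d21_d51_d1e_d51_d0f_d51_d14_d51_d00_2 := p_wQ_26_wN_1_rb8033094424_d44_d1e_d51_d21_d51_d1e_d51_d0f_d51_d14_d51_d00_2 g__wQ_26_wN_1_rb8033094424_d44_d1e_d51_d21_d51_d1e_d51_d0f_d51_d14_d51_d00_3

theorem g__wQ_26_wN_1_rb8033094424_d44_d1e_d51_d21_d51_d1e_d51_d0f_d51_d14_d51_d00_1 : GoodKC AS k_wQ_26_wN_1_rb8033094424_d44_d1e_d51_d21_d51_d1e_d51_d0f_d51_d14_d51_d00_1 := p_wQ_26_wN_1_rb8033094424_d44_d1e_d51_d21_d51_d1e_d51_d0f_d51_d14_d51_d00_1 g__wQ_26_wN_1_rb8033094424_d44_d1e_d51_d21_d51_d1e_d51_d0f_d51_d14_d51_d00_2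

theorem g__wQ_26_wN_1_rb8033094424_d44_d1e_d51_d21_d51_d1e_d51_d0f_d51_d14_d51_d00_0 : GoodKC AS k_wQ_26_wN_1_rb8033094424_d44_d1e_d51_d21_d51_d1e_d51_d0f_d51_d14_d51_d00_0 := p_wQ_26_wN_1_rb8033094424_d44_d1e_d51_d21_d51_d1e_d51_d0f_d51_d14_d51_d00_0 g__wQ_26_wN_1_rb8033094424_d44_d1e_d51_d21_d51_d1e_d51_d0f_d51_d14_d51_d00_1

theorem g_wQ_26_wN_1_rb8033094424_d44_d1e_d51_d21_d51_d1e_d51_d0f_d51_d14_d51_d00 : GoodKC AS c_wQ_26_wN_1_rb8033094424_d44_d1e_d51_d21_d51_d1e_d51_d0f_d51_d14_d51_d00 := p_wQ_26_wN_1_rb8033094424_d44_d1e_d51_d21_d51_d1e_d51_d0f_d51_d14_d51_d00 g__wQ_26_wN_1_rb8033094424_d44_d1e_d51_d21_d51_d1e_d51_d0f_d51_d14_d51_d00_0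

theorem g__wQ_26_wN_1_rb8033094424_d44_d1e_d51_d21_d51_d1e_d51_d0f_d51_d14_d51_d02_1 : GoodKC AS k_wQ_26_wN_1_rb8033094424_d44_d1e_d51_d21_d51_d1e_d51_d0f_d51_d14_d51_d02_1 := p_wQ_26_wN_1_rb8033094424_d44_d1e_d51_d21_d51_d1e_d51_d0f_d51_d14_d51_d02_1

theorem g__wQ_26_wN_1_rb8033094424_d44_d1e_d51_d21_d51_d1e_d51_d0f_d51_d14_d51_d02_0 : GoodKC AS k_wQ_26_wN_1_rb8033094424_d44_d1e_d51_d21_d51_d1e_d51_d0f_d51_d14_d51_d02_0 := p_wQ_26_wN_1_rb8033094424_d44_d1e_d51_d21_d51_d1e_d51_d0f_d51_d14_d51_d02_0 g__wQ_26_wN_1_rb8033094424_d44_d1e_d51_d21_d51_d1e_d51_d0f_d51_d14_d51_d02_1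

theorem g_wQ_26_wN_1_rb8033094424_d44_d1e_d51_d21_d51_d1e_d51_d0f_d51_d14_d51_d02 : GoodKC AS c_wQ_26_wN_1_rb8033094424_d44_d1e_d51_d21_d51_d1e_d51_d0f_d51_d14_d51_d02 := p_wQ_26_wN_1_rb8033094424_d44_d1e_d51_d21_d51_d1e_d51_d0f_d51_d14_d51_d02 g__wQ_26_wN_1_rb8033094424_d44_d1e_d51_d21_d51_d1e_d51_d0f_d51_d14_d51_d02_0

theorem g_wQ_26_wN_1_rb8033094424_d44_d1e_d51_d21_d51_d1e_d51_d0f_d51_d14_d51_d05 : GoodKC AS c_wQ_26_wN_1_rb8033094424_d44_d1e_d51_d21_d51_d1e_d51_d0f_d51_d14_d51_d05 := p_wQ_26_wN_1_rb8033094424_d44_d1e_d51_d21_d51_d1e_d51_d0f_d51_d14_d51_d05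

theorem g_wQ_26_wN_1_rb8033094424_d44_d1e_d51_d21_d51_d1e_d51_d0f_d51_d14_d51_d08 : GoodKC AS c_wQ_26_wN_1_rb8033094424_d44_d1e_d51_d21_d51_d1e_d51_d0f_d51_d14_d51_d08 := p_wQ_26_wN_1_rb8033094424_d44_d1e_d51_d21_d51_d1e_d51_d0f_d51_d14_d51_d08

theorem g_wQ_26_wN_1_rb8033094424_d44_d1e_d51_d21_d51_d1e_d51_d0f_d51_d14_d51_d0b : GoodKC AS c_wQ_26_wN_1_rb8033094424_d44_d1e_d51_d21_d51_d1e_d51_d0f_d51_d14_d51_d0b := p_wQ_26_wN_1_rb8033094424_d44_d1e_d51_d21_d51_d1e_d51_d0f_d51_d14_d51_d0b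

theorem g_wQ_26_wN_1_rb8033094424_d44_d1e_d51_d21_d51_d1e_d51_d0f_d51_d14_d51_d0d : GoodKC AS c_wQ_26_wN_1_rb8033094424_d44_d1e_d51_d21_d51_d1e_d51_d0f_d51_d14_d51_d0d := p_wQ_26_wN_1_rb8033094424_d44_d1e_d51_d21_d51_d1e_d51_d0f_d51_d14_d51_d0d

theorem g_wQ_26_wN_1_rb8033094424_d44_d1e_d51_d21_d51_d1e_d51_d0f_d51_d14_d51_d10 : GoodKC AS c_wQ_26_wN_1_rb8033094424_d44_d1e_d51_d21_d51_d1e_d51_d0f_d51_d14_d51_d10 := p_wQ_26_wN_1_rb8033094424_d44_d1e_d51_d21_d51_d1e_d51_d0f_d51_d14_d51_d10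

theorem g_wQ_26_wN_1_rb8033094424_d44_d1e_d51_d21_d51_d1e_d51_d0f_d51_d14_d51_d12 : GoodKC AS c_wQ_26_wN_1_rb8033094424_d44_d1e_d51_d21_d51_d1e_d51_d0f_d51_d14_d51_d12 := p_wQ_26_wN_1_rb8033094424_d44_d1e_d51_d21_d51_d1e_d51_d0f_d51_d14_d51_d12

theorem g_wQ_26_wN_1_rb8033094424_d44_d1e_d51_d21_d51_d1e_d51_d0f_d51_d14_d51_d18 : GoodKC AS c_wQ_26_wN_1_rb8033094424_d44_d1e_d51_d21_d51_d1e_d51_d0f_d51_d14_d51_d18 := p_wQ_26_wN_1_rb8033094424_d44_d1e_d51_d21_d51_d1e_d51_d0f_d51_d14_d51_d18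

theorem g_wQ_26_wN_1_rb8033094424_d44_d1e_d51_d21_d51_d1e_d51_d0f_d51_d14_d51_d1e : GoodKC AS c_wQ_26_wN_1_rb8033094424_d44_d1e_d51_d21_d51_d1e_d51_d0f_d51_d14_d51_d1e := p_wQ_26_wN_1_rb8033094424_d44_d1e_d51_d21_d51_d1e_d51_d0f_d51_d14_d51_d1e

theorem g_wQ_26_wN_1_rb8033094424_d44_d1e_d51_d21_d51_d1e_d51_d0f_d51_d14 : GoodKC AS c_wQ_26_wN_1_rb8033094424_d44_d1e_d51_d21_d51_d1e_d51_d0f_d51_d14 := p_wQ_26_wN_1_rb8033094424_d44_d1e_d51_d21_d51_d1e_d51_d0f_d51_d14 g_wQ_26_wN_1_rb8033094424_d44_d1e_d51_d21_d51_d1e_d51_d0f_d51_d14_d51_d1f g_wQ_26_wN_1_rb8033094424_d44_d1e_d51_d21_d51_d1e_d51_d0f_d51_d14_d51_d1d g_wQ_26_wN_1_rb8033094424_d44_d1e_d51_d21_d51_d1e_d51_d0f_d51_d14_d51_d1c g_wQ_26_wN_1_rb8033094424_d44_d1e_d51_d21_d51_d1e_d51_d0f_d51_d14_d51_d1b g_wQ_26_wN_1_rb8033094424_d44_d1e_d51_d21_d51_d1e_d51_d0f_d51_d14_d51_d1a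 g_wQ_26_wN_1_rb8033094424_d44_d1e_d51_d21_d51_d1e_d51_d0f_d51_d14_d51_d19 g_wQ_26_wN_1_rb8033094424_d44_d1e_d51_d21_d51_d1e_d51_d0f_d51_d14_d51_d17 g_wQ_26_wN_1_rb8033094424_d44_d1e_d51_d21_d51_d1e_d51_d0f_d51_d14_d51_d16 g_wQ_26_wN_1_rb8033094424_d44_d1e_d51_d21_d51_d1e_d51_d0f_d51_d14_d51_d15 g_wQ_26_wN_1_rb8033094424_d44_d1e_d51_d21_d51_d1e_d51_d0f_d51_d14_d51_d14 g_wQ_26_wN_1_rb8033094424_d44_d1e_d51_d21_d51_d1e_d51_d0f_d51_d14_d51_d13 g_wQ_26_wN_1_rb8033094424_d44_d1e_d51_d21_d51_d1e_d51_d0f_d51_d14_d51_d11 g_wQ_26_wN_1_rb8033094424_d44_d1e_d51_d21_d51_d1e_d51_d0f_d51_d14_d51_d0f g_wQ_26_wN_1_rb8033094424_d44_d1e_d51_d21_d51_d1e_d51_d0f_d51_d14_d51_d0e g_wQ_26_wN_1_rb8033094424_d44_d1e_d51_d21_d51_d1e_d51_d0f_d51_d14_d51_d0c g_wQ_26_wN_1_rb8033094424_d44_d1e_d51_d21_d51_d1e_d51_d0f_d51_d14_d51_d0a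 g_wQ_26_wN_1_rb8033094424_d44_d1e_d51_d21_d51_d1e_d51_d0f_d51_d14_d51_d09 g_wQ_26_wN_1_rb8033094424_d44_d1e_d51_d21_d51_d1e_d51_d0f_d51_d14_d51_d07 g_wQ_26_wN_1_rb8033094424_d44_d1e_d51_d21_d51_d1e_d51_d0f_d51_d14_d51_d06 g_wQ_26_wN_1_rb8033094424_d44_d1e_d51_d21_d51_d1e_d51_d0f_d51_d14_d51_d04 g_wQ_26_wN_1_rb8033094424_d44_d1e_d51_d21_d51_d1e_d51_d0f_d51_d14_d51_d03 g_wQ_26_wN_1_rb8033094424_d44_d1e_d51_d21_d51_d1e_d51_d0f_d51_d14_d51_d01 g_wQ_26_wN_1_rb8033094424_d44_d1e_d51_d21_d51_d1e_d51_d0f_d51_d14_d51_d00 g_wQ_26_wN_1_rb8033094424_d44_d1e_d51_d21_d51_d1e_d51_d0f_d51_d14_d51_d02 g_wQ_26_wN_1_rb8033094424_d44_d1e_d51_d21_d51_d1e_d51_d0f_d51_d14_d51_d05 g_wQ_26_wN_1_rb8033094424_d44_d1e_d51_d21_d51_d1e_d51_d0f_d51_d14_d51_d08 g_wQ_26_wN_1_rb8033094424_d44_d1e_d51_d21_d51_d1e_d51_d0f_d51_d14_d51_d0b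 g_wQ_26_wN_1_rb8033094424_d44_d1e_d51_d21_d51_d1e_d51_d0f_d51_d14_d51_d0d g_wQ_26_wN_1_rb8033094424_d44_d1e_d51_d21_d51_d1e_d51_d0f_d51_d14_d51_d10 g_wQ_26_wN_1_rb8033094424_d44_d1e_d51_d21_d51_d1e_d51_d0f_d51_d14_d51_d12 g_wQ_26_wN_1_rb8033094424_d44_d1e_d51_d21_d51_d1e_d51_d0f_d51_d14_d51_d18 g_wQ_26_wN_1_rb8033094424_d44_d1e_d51_d21_d51_d1e_d51_d0f_d51_d14_d51_d1e

theorem g_wQ_26_wN_1_rb8033094424_d44_d1e_d51_d21_d51_d1e_d51_d0f_d51_d13 : GoodKC AS c_wQ_26_wN_1_rb8033094424_d44_d1e_d51_d21_d51_d1e_d51_d0f_d51_d13 := p_wQ_26_wN_1_rb8033094424_d44_d1e_d51_d21_d51_d1e_d51_d0f_d51_d13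

theorem g_wQ_26_wN_1_rb8033094424_d44_d1e_d51_d21_d51_d1e_d51_d0f_d51_d12 : GoodKC AS c_wQ_26_wN_1_rb8033094424_d44_d1e_d51_d21_d51_d1e_d51_d0f_d51_d12 := p_wQ_26_wN_1_rb8033094424_d44_d1e_d51_d21_d51_d1e_d51_d0f_d51_d12

theorem g_wQ_26_wN_1_rb8033094424_d44_d1e_d51_d21_d51_d1e_d51_d0f_d51_d11 : GoodKC AS c_wQ_26_wN_1_rb8033094424_d44_d1e_d51_d21_d51_d1e_d51_d0f_d51_d11 := p_wQ_26_wN_1_rb8033094424_d44_d1e_d51_d21_d51_d1e_d51_d0f_d51_d11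

theorem g_wQ_26_wN_1_rb8033094424_d44_d1e_d51_d21_d51_d1e_d51_d0f_d51_d10 : GoodKC AS c_wQ_26_wN_1_rb8033094424_d44_d1e_d51_d21_d51_d1e_d51_d0f_d51_d10 := p_wQ_26_wN_1_rb8033094424_d44_d1e_d51_d21_d51_d1e_d51_d0f_d51_d10

theorem g_wQ_26_wN_1_rb8033094424_d44_d1e_d51_d21_d51_d1e_d51_d0f_d51_d0f : GoodKC AS c_wQ_26_wN_1_rb8033094424_d44_d1e_d51_d21_d51_d1e_d51_d0f_d51_d0f := p_wQ_26_wN_1_rb8033094424_d44_d1e_d51_d21_d51_d1e_d51_d0f_d51_d0f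

theorem g_wQ_26_wN_1_rb8033094424_d44_d1e_d51_d21_d51_d1e_d51_d0f_d51_d0e : GoodKC AS c_wQ_26_wN_1_rb8033094424_d44_d1e_d51_d21_d51_d1e_d51_d0f_d51_d0e := p_wQ_26_wN_1_rb8033094424_d44_d1e_d51_d21_d51_d1e_d51_d0f_d51_d0e

theorem g_wQ_26_wN_1_rb8033094424_d44_d1e_d51_d21_d51_d1e_d51_d0f_d51_d0d : GoodKC AS c_wQ_26_wN_1_rb8033094424_d44_d1e_d51_d21_d51_d1e_d51_d0f_d51_d0d := p_wQ_26_wN_1_rb8033094424_d44_d1e_d51_d21_d51_d1e_d51_d0f_d51_d0d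

theorem g__wQ_26_wN_1_rb8033094424_d44_d1e_d51_d21_d51_d1e_d51_d0f_d51_d09_7 : GoodKC AS k_wQ_26_wN_1_rb8033094424_d44_d1e_d51_d21_d51_d1e_d51_d0f_d51_d09_7 := p_wQ_26_wN_1_rb8033094424_d44_d1e_d51_d21_d51_d1e_d51_d0f_d51_d09_7

theorem g__wQ_26_wN_1_rb8033094424_d44_d1e_d51_d21_d51_d1e_d51_d0f_d51_d09_6 : GoodKC AS k_wQ_26_wN_1_rb8033094424_d44_d1e_d51_d21_d51_d1e_d51_d0f_d51_d09_6 := p_wQ_26_wN_1_rb8033094424_d44_d1e_d51_d21_d51_d1e_d51_d0f_d51_d09_6 g__wQ_26_wN_1_rb8033094424_d44_d1e_d51_d21_d51_d1e_d51_d0f_d51_d09_7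

theorem g__wQ_26_wN_1_rb8033094424_d44_d1e_d51_d21_d51_d1e_d51_d0f_d51_d09_5 : GoodKC AS k_wQ_26_wN_1_rb8033094424_d44_d1e_d51_d21_d51_d1e_d51_d0f_d51_d09_5 := p_wQ_26_wN_1_rb8033094424_d44_d1e_d51_d21_d51_d1e_d51_d0f_d51_d09_5 g__wQ_26_wN_1_rb8033094424_d44_d1e_d51_d21_d51_d1e_d51_d0f_d51_d09_6

theorem g__wQ_26_wN_1_rb8033094424_d44_d1e_d51_d21_d51_d1e_d51_d0f_d51_d09_4 : GoodKC AS k_wQ_26_wN_1_rb8033094424_d44_d1e_d51_d21_d51_d1e_d51_d0f_d51_d09_4 := p_wQ_26_wN_1_rb8033094424_d44_d1e_d51_d21_d51_d1e_d51_d0f_d51_d09_4 g__wQ_26_wN_1_rb8033094424_d44_d1e_d51_d21_d51_d1e_d51_d0f_d51_d09_5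

theorem g__wQ_26_wN_1_rb8033094424_d44_d1e_d51_d21_d51_d1e_d51_d0f_d51_d09_3 : GoodKC AS k_wQ_26_wN_1_rb8033094424_d44_d1e_d51_d21_d51_d1e_d51_d0f_d51_d09_3 := p_wQ_26_wN_1_rb8033094424_d44_d1e_d51_d21_d51_d1e_d51_d0f_d51_d09_3 g__wQ_26_wN_1_rb8033094424_d44_d1e_d51_d21_d51_d1e_d51_d0f_d51_d09_4

theorem g__wQ_26_wN_1_rb8033094424_d44_d1e_d51_d21_d51_d1e_d51_d0f_d51_d09_2 : GoodKC AS k_wQ_26_wN_1_rb8033094424_d44_d1e_d51_d21_d51_d1e_d51_d0f_d51_d09_2 := p_wQ_26_wN_1_rb8033094424_d44_d1e_d51_d21_d51_d1e_d51_d0f_d51_d09_2 g__wQ_26_wN_1_rb8033094424_d44_d1e_d51_d21_d51_d1e_d51_d0f_d51_d09_3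

theorem g__wQ_26_wN_1_rb8033094424_d44_d1e_d51_d21_d51_d1e_d51_d0f_d51_d09_1 : GoodKC AS k_wQ_26_wN_1_rb8033094424_d44_d1e_d51_d21_d51_d1e_d51_d0f_d51_d09_1 := p_wQ_26_wN_1_rb8033094424_d44_d1e_d51_d21_d51_d1e_d51_d0f_d51_d09_1 g__wQ_26_wN_1_rb8033094424_d44_d1e_d51_d21_d51_d1e_d51_d0f_d51_d09_2

theorem g__wQ_26_wN_1_rb8033094424_d44_d1e_d51_d21_d51_d1e_d51_d0f_d51_d09_0 : GoodKC AS k_wQ_26_wN_1_rb8033094424_d44_d1e_d51_d21_d51_d1e_d51_d0f_d51_d09_0 := p_wQ_26_wN_1_rb8033094424_d44_d1e_d51_d21_d51_d1e_d51_d0f_d51_d09_0 g__wQ_26_wN_1_rb8033094424_d44_d1e_d51_d21_d51_d1e_d51_d0f_d51_d09_1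

theorem g_wQ_26_wN_1_rb8033094424_d44_d1e_d51_d21_d51_d1e_d51_d0f_d51_d09 : GoodKC AS c_wQ_26_wN_1_rb8033094424_d44_d1e_d51_d21_d51_d1e_d51_d0f_d51_d09 := p_wQ_26_wN_1_rb8033094424_d44_d1e_d51_d21_d51_d1e_d51_d0f_d51_d09 g__wQ_26_wN_1_rb8033094424_d44_d1e_d51_d21_d51_d1e_d51_d0f_d51_d09_0

theorem g_wQ_26_wN_1_rb8033094424_d44_d1e_d51_d21_d51_d1e_d51_d0f_d51_d08 : GoodKC AS c_wQ_26_wN_1_rb8033094424_d44_d1e_d51_d21_d51_d1e_d51_d0f_d51_d08 := p_wQ_26_wN_1_rb8033094424_d44_d1e_d51_d21_d51_d1e_d51_d0f_d51_d08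

theorem g_wQ_26_wN_1_rb8033094424_d44_d1e_d51_d21_d51_d1e_d51_d0f_d51_d06 : GoodKC AS c_wQ_26_wN_1_rb8033094424_d44_d1e_d51_d21_d51_d1e_d51_d0f_d51_d06 := p_wQ_26_wN_1_rb8033094424_d44_d1e_d51_d21_d51_d1e_d51_d0f_d51_d06

theorem g_wQ_26_wN_1_rb8033094424_d44_d1e_d51_d21_d51_d1e_d51_d0f_d51_d05 : GoodKC AS c_wQ_26_wN_1_rb8033094424_d44_d1e_d51_d21_d51_d1e_d51_d0f_d51_d05 := p_wQ_26_wN_1_rb8033094424_d44_d1e_d51_d21_d51_d1e_d51_d0f_d51_d05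

theorem g_wQ_26_wN_1_rb8033094424_d44_d1e_d51_d21_d51_d1e_d51_d0f_d51_d04 : GoodKC AS c_wQ_26_wN_1_rb8033094424_d44_d1e_d51_d21_d51_d1e_d51_d0f_d51_d04 := p_wQ_26_wN_1_rb8033094424_d44_d1e_d51_d21_d51_d1e_d51_d0f_d51_d04

theorem g_wQ_26_wN_1_rb8033094424_d44_d1e_d51_d21_d51_d1e_d51_d0f_d51_d02 : GoodKC AS c_wQ_26_wN_1_rb8033094424_d44_d1e_d51_d21_d51_d1e_d51_d0f_d51_d02 := p_wQ_26_wN_1_rb8033094424_d44_d1e_d51_d21_d51_d1e_d51_d0f_d51_d02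

theorem g__wQ_26_wN_1_rb8033094424_d44_d1e_d51_d21_d51_d1e_d51_d0f_d51_d00_d51_d0f_1 : GoodKC AS k_wQ_26_wN_1_rb8033094424_d44_d1e_d51_d21_d51_d1e_d51_d0f_d51_d00_d51_d0f_1 := p_wQ_26_wN_1_rb8033094424_d44_d1e_d51_d21_d51_d1e_d51_d0f_d51_d00_d51_d0f_1

theorem g__wQ_26_wN_1_rb8033094424_d44_d1e_d51_d21_d51_d1e_d51_d0f_d51_d00_d51_d0f_3 : GoodKC AS k_wQ_26_wN_1_rb8033094424_d44_d1e_d51_d21_d51_d1e_d51_d0f_d51_d00_d51_d0f_3 := p_wQ_26_wN_1_rb8033094424_d44_d1e_d51_d21_d51_d1e_d51_d0f_d51_d00_d51_d0f_3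

theorem g__wQ_26_wN_1_rb8033094424_d44_d1e_d51_d21_d51_d1e_d51_d0f_d51_d00_d51_d0f_2 : GoodKC AS k_wQ_26_wN_1_rb8033094424_d44_d1e_d51_d21_d51_d1e_d51_d0f_d51_d00_d51_d0f_2 := p_wQ_26_wN_1_rb8033094424_d44_d1e_d51_d21_d51_d1e_d51_d0f_d51_d00_d51_d0f_2 g__wQ_26_wN_1_rb8033094424_d44_d1e_d51_d21_d51_d1e_d51_d0f_d51_d00_d51_d0f_3

theorem g__wQ_26_wN_1_rb8033094424_d44_d1e_d51_d21_d51_d1e_d51_d0f_d51_d00_d51_d0f_0 : GoodKC AS k_wQ_26_wN_1_rb8033094424_d44_d1e_d51_d21_d51_d1e_d51_d0f_d51_d00_d51_d0f_0 := p_wQ_26_wN_1_rb8033094424_d44_d1e_d51_d21_d51_d1e_d51_d0f_d51_d00_d51_d0f_0 g__wQ_26_wN_1_rb8033094424_d44_d1e_d51_d21_d51_d1e_d51_d0f_d51_d00_d51_d0f_1 g__wQ_26_wN_1_rb8033094424_d44_d1e_d51_d21_d51_d1e_d51_d0f_d51_d00_d51_d0f_2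

theorem g_wQ_26_wN_1_rb8033094424_d44_d1e_d51_d21_d51_d1e_d51_d0f_d51_d00_d51_d0f : GoodKC AS c_wQ_26_wN_1_rb8033094424_d44_d1e_d51_d21_d51_d1e_d51_d0f_d51_d00_d51_d0f := p_wQ_26_wN_1_rb8033094424_d44_d1e_d51_d21_d51_d1e_d51_d0f_d51_d00_d51_d0f g__wQ_26_wN_1_rb8033094424_d44_d1e_d51_d21_d51_d1e_d51_d0f_d51_d00_d51_d0f_0

theorem g_wQ_26_wN_1_rb8033094424_d44_d1e_d51_d21_d51_d1e_d51_d0f_d51_d00_d51_d0e : GoodKC AS c_wQ_26_wN_1_rb8033094424_d44_d1e_d51_d21_d51_d1e_d51_d0f_d51_d00_d51_d0e := p_wQ_26_wN_1_rb8033094424_d44_d1e_d51_d21_d51_d1e_d51_d0f_d51_d00_d51_d0e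

theorem g_wQ_26_wN_1_rb8033094424_d44_d1e_d51_d21_d51_d1e_d51_d0f_d51_d00_d51_d0c : GoodKC AS c_wQ_26_wN_1_rb8033094424_d44_d1e_d51_d21_d51_d1e_d51_d0f_d51_d00_d51_d0c := p_wQ_26_wN_1_rb8033094424_d44_d1e_d51_d21_d51_d1e_d51_d0f_d51_d00_d51_d0c

theorem g_wQ_26_wN_1_rb8033094424_d44_d1e_d51_d21_d51_d1e_d51_d0f_d51_d00_d51_d0a : GoodKC AS c_wQ_26_wN_1_rb8033094424_d44_d1e_d51_d21_d51_d1e_d51_d0f_d51_d00_d51_d0a := p_wQ_26_wN_1_rb8033094424_d44_d1e_d51_d21_d51_d1e_d51_d0f_d51_d00_d51_d0a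

theorem g_wQ_26_wN_1_rb8033094424_d44_d1e_d51_d21_d51_d1e_d51_d0f_d51_d00_d51_d08 : GoodKC AS c_wQ_26_wN_1_rb8033094424_d44_d1e_d51_d21_d51_d1e_d51_d0f_d51_d00_d51_d08 := p_wQ_26_wN_1_rb8033094424_d44_d1e_d51_d21_d51_d1e_d51_d0f_d51_d00_d51_d08

theorem g_wQ_26_wN_1_rb8033094424_d44_d1e_d51_d21_d51_d1e_d51_d0f_d51_d00_d51_d04 : GoodKC AS c_wQ_26_wN_1_rb8033094424_d44_d1e_d51_d21_d51_d1e_d51_d0f_d51_d00_d51_d04 := p_wQ_26_wN_1_rb8033094424_d44_d1e_d51_d21_d51_d1e_d51_d0f_d51_d00_d51_d04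

theorem g_wQ_26_wN_1_rb8033094424_d44_d1e_d51_d21_d51_d1e_d51_d0f_d51_d00_d51_d03 : GoodKC AS c_wQ_26_wN_1_rb8033094424_d44_d1e_d51_d21_d51_d1e_d51_d0f_d51_d00_d51_d03 := p_wQ_26_wN_1_rb8033094424_d44_d1e_d51_d21_d51_d1e_d51_d0f_d51_d00_d51_d03

theorem g__wQ_26_wN_1_rb8033094424_d44_d1e_d51_d21_d51_d1e_d51_d0f_d51_d00_d51_d02_0 : GoodKC AS k_wQ_26_wN_1_rb8033094424_d44_d1e_d51_d21_d51_d1e_d51_d0f_d51_d00_d51_d02_0 := p_wQ_26_wN_1_rb8033094424_d44_d1e_d51_d21_d51_d1e_d51_d0f_d51_d00_d51_d02_0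

theorem g_wQ_26_wN_1_rb8033094424_d44_d1e_d51_d21_d51_d1e_d51_d0f_d51_d00_d51_d02 : GoodKC AS c_wQ_26_wN_1_rb8033094424_d44_d1e_d51_d21_d51_d1e_d51_d0f_d51_d00_d51_d02 := p_wQ_26_wN_1_rb8033094424_d44_d1e_d51_d21_d51_d1e_d51_d0f_d51_d00_d51_d02 g__wQ_26_wN_1_rb8033094424_d44_d1e_d51_d21_d51_d1e_d51_d0f_d51_d00_d51_d02_0

theorem g_wQ_26_wN_1_rb8033094424_d44_d1e_d51_d21_d51_d1e_d51_d0f_d51_d00_d51_d00_d51_d08v1 : GoodKC AS c_wQ_26_wN_1_rb8033094424_d44_d1e_d51_d21_d51_d1e_d51_d0f_d51_d00_d51_d00_d51_d08v1 := p_wQ_26_wN_1_rb8033094424_d44_d1e_d51_d21_d51_d1e_d51_d0f_d51_d00_d51_d00_d51_d08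

theorem g_wQ_26_wN_1_rb8033094424_d44_d1e_d51_d21_d51_d1e_d51_d0f_d51_d00_d51_d00_d51_d05v1 : GoodKC AS c_wQ_26_wN_1_rb8033094424_d44_d1e_d51_d21_d51_d1e_d51_d0f_d51_d00_d51_d00_d51_d05v1 := p_wQ_26_wN_1_rb8033094424_d44_d1e_d51_d21_d51_d1e_d51_d0f_d51_d00_d51_d00_d51_d05

theorem g_wQ_26_wN_1_rb8033094424_d44_d1e_d51_d21_d51_d1e_d51_d0f_d51_d00_d51_d00_d51_d04v1 : GoodKC AS c_wQ_26_wN_1_rb8033094424_d44_d1e_d51_d21_d51_d1e_d51_d0f_d51_d00_d51_d00_d51_d04v1 := p_wQ_26_wN_1_rb8033094424_d44_d1e_d51_d21_d51_d1e_d51_d0f_d51_d00_d51_d00_d51_d04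

theorem g_wQ_26_wN_1_rb8033094424_d44_d1e_d51_d21_d51_d1e_d51_d0f_d51_d00_d51_d00_d51_d03v1 : GoodKC AS c_wQ_26_wN_1_rb8033094424_d44_d1e_d51_d21_d51_d1e_d51_d0f_d51_d00_d51_d00_d51_d03v1 := p_wQ_26_wN_1_rb8033094424_d44_d1e_d51_d21_d51_d1e_d51_d0f_d51_d00_d51_d00_d51_d03

theorem g_wQ_26_wN_1_rb8033094424_d44_d1e_d51_d21_d51_d1e_d51_d0f_d51_d00_d51_d00_d51_d01v1 : GoodKC AS c_wQ_26_wN_1_rb8033094424_d44_d1e_d51_d21_d51_d1e_d51_d0f_d51_d00_d51_d00_d51_d01v1 := p_wQ_26_wN_1_rb8033094424_d44_d1e_d51_d21_d51_d1e_d51_d0f_d51_d00_d51_d00_d51_d01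

theorem g__wQ_26_wN_1_rb8033094424_d44_d1e_d51_d21_d51_d1e_d51_d0f_d51_d00_d51_d00_d51_d00_d56_d0f_0 : GoodKC AS k_wQ_26_wN_1_rb8033094424_d44_d1e_d51_d21_d51_d1e_d51_d0f_d51_d00_d51_d00_d51_d00_d56_d0f_0 := p_wQ_26_wN_1_rb8033094424_d44_d1e_d51_d21_d51_d1e_d51_d0f_d51_d00_d51_d00_d51_d00_d56_d0f_0

theorem g_wQ_26_wN_1_rb8033094424_d44_d1e_d51_d21_d51_d1e_d51_d0f_d51_d00_d51_d00_d51_d00_d56_d0fv2 : GoodKC AS c_wQ_26_wN_1_rb8033094424_d44_d1e_d51_d21_d51_d1e_d51_d0f_d51_d00_d51_d00_d51_d00_d56_d0fv2 := p_wQ_26_wN_1_rb8033094424_d44_d1e_d51_d21_d51_d1e_d51_d0f_d51_d00_d51_d00_d51_d00_d56_d0f g__wQ_26_wN_1_rb8033094424_d44_d1e_d51_d21_d51_d1e_d51_d0f_d51_d00_d51_d00_d51_d00_d56_d0f_0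

theorem g_wQ_26_wN_1_rb8033094424_d44_d1e_d51_d21_d51_d1e_d51_d0f_d51_d00_d51_d00_d51_d00_d56_d0ev2 : GoodKC AS c_wQ_26_wN_1_rb8033094424_d44_d1e_d51_d21_d51_d1e_d51_d0f_d51_d00_d51_d00_d51_d00_d56_d0ev2 := p_wQ_26_wN_1_rb8033094424_d44_d1e_d51_d21_d51_d1e_d51_d0f_d51_d00_d51_d00_d51_d00_d56_d0e

theorem g_wQ_26_wN_1_rb8033094424_d44_d1e_d51_d21_d51_d1e_d51_d0f_d51_d00_d51_d00_d51_d00_d56_d0dv2 : GoodKC AS c_wQ_26_wN_1_rb8033094424_d44_d1e_d51_d21_d51_d1e_d51_d0f_d51_d00_d51_d00_d51_d00_d56_d0dv2 := p_wQ_26_wN_1_rb8033094424_d44_d1e_d51_d21_d51_d1e_d51_d0f_d51_d00_d51_d00_d51_d00_d56_d0d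

theorem g_wQ_26_wN_1_rb8033094424_d44_d1e_d51_d21_d51_d1e_d51_d0f_d51_d00_d51_d00_d51_d00_d56_d0cv2 : GoodKC AS c_wQ_26_wN_1_rb8033094424_d44_d1e_d51_d21_d51_d1e_d51_d0f_d51_d00_d51_d00_d51_d00_d56_d0cv2 := p_wQ_26_wN_1_rb8033094424_d44_d1e_d51_d21_d51_d1e_d51_d0f_d51_d00_d51_d00_d51_d00_d56_d0c

theorem g_wQ_26_wN_1_rb8033094424_d44_d1e_d51_d21_d51_d1e_d51_d0f_d51_d00_d51_d00_d51_d00_d56_d0av2 : GoodKC AS c_wQ_26_wN_1_rb8033094424_d44_d1e_d51_d21_d51_d1e_d51_d0f_d51_d00_d51_d00_d51_d00_d56_d0av2 := p_wQ_26_wN_1_rb8033094424_d44_d1e_d51_d21_d51_d1e_d51_d0f_d51_d00_d51_d00_d51_d00_d56_d0a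

theorem g_wQ_26_wN_1_rb8033094424_d44_d1e_d51_d21_d51_d1e_d51_d0f_d51_d00_d51_d00_d51_d00_d56_d07v2 : GoodKC AS c_wQ_26_wN_1_rb8033094424_d44_d1e_d51_d21_d51_d1e_d51_d0f_d51_d00_d51_d00_d51_d00_d56_d07v2 := p_wQ_26_wN_1_rb8033094424_d44_d1e_d51_d21_d51_d1e_d51_d0f_d51_d00_d51_d00_d51_d00_d56_d07

theorem g_wQ_26_wN_1_rb8033094424_d44_d1e_d51_d21_d51_d1e_d51_d0f_d51_d00_d51_d00_d51_d00_d56_d06v2 : GoodKC AS c_wQ_26_wN_1_rb8033094424_d44_d1e_d51_d21_d51_d1e_d51_d0f_d51_d00_d51_d00_d51_d00_d56_d06v2 := p_wQ_26_wN_1_rb8033094424_d44_d1e_d51_d21_d51_d1e_d51_d0f_d51_d00_d51_d00_d51_d00_d56_d06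

theorem g_wQ_26_wN_1_rb8033094424_d44_d1e_d51_d21_d51_d1e_d51_d0f_d51_d00_d51_d00_d51_d00_d56_d05v2 : GoodKC AS c_wQ_26_wN_1_rb8033094424_d44_d1e_d51_d21_d51_d1e_d51_d0f_d51_d00_d51_d00_d51_d00_d56_d05v2 := p_wQ_26_wN_1_rb8033094424_d44_d1e_d51_d21_d51_d1e_d51_d0f_d51_d00_d51_d00_d51_d00_d56_d05

theorem g_wQ_26_wN_1_rb8033094424_d44_d1e_d51_d21_d51_d1e_d51_d0f_d51_d00_d51_d00_d51_d00_d56_d04v2 : GoodKC AS c_wQ_26_wN_1_rb8033094424_d44_d1e_d51_d21_d51_d1e_d51_d0f_d51_d00_d51_d00_d51_d00_d56_d04v2 := p_wQ_26_wN_1_rb8033094424_d44_d1e_d51_d21_d51_d1e_d51_d0f_d51_d00_d51_d00_d51_d00_d56_d04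

theorem g__wQ_26_wN_1_rb8033094424_d44_d1e_d51_d21_d51_d1e_d51_d0f_d51_d00_d51_d00_d51_d00v2_1 : GoodKC AS k_wQ_26_wN_1_rb8033094424_d44_d1e_d51_d21_d51_d1e_d51_d0f_d51_d00_d51_d00_d51_d00v2_1 := p_wQ_26_wN_1_rb8033094424_d44_d1e_d51_d21_d51_d1e_d51_d0f_d51_d00_d51_d00_d51_d00v2_1

theorem g__wQ_26_wN_1_rb8033094424_d44_d1e_d51_d21_d51_d1e_d51_d0f_d51_d00_d51_d00_d51_d00v2_4 : GoodKC AS k_wQ_26_wN_1_rb8033094424_d44_d1e_d51_d21_d51_d1e_d51_d0f_d51_d00_d51_d00_d51_d00v2_4 := p_wQ_26_wN_1_rb8033094424_d44_d1e_d51_d21_d51_d1e_d51_d0f_d51_d00_d51_d00_d51_d00v2_4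

theorem g__wQ_26_wN_1_rb8033094424_d44_d1e_d51_d21_d51_d1e_d51_d0f_d51_d00_d51_d00_d51_d00v2_6 : GoodKC AS k_wQ_26_wN_1_rb8033094424_d44_d1e_d51_d21_d51_d1e_d51_d0f_d51_d00_d51_d00_d51_d00v2_6 := p_wQ_26_wN_1_rb8033094424_d44_d1e_d51_d21_d51_d1e_d51_d0f_d51_d00_d51_d00_d51_d00v2_6

theorem g__wQ_26_wN_1_rb8033094424_d44_d1e_d51_d21_d51_d1e_d51_d0f_d51_d00_d51_d00_d51_d00v2_5 : GoodKC AS k_wQ_26_wN_1_rb8033094424_d44_d1e_d51_d21_d51_d1e_d51_d0f_d51_d00_d51_d00_d51_d00v2_5 := p_wQ_26_wN_1_rb8033094424_d44_d1e_d51_d21_d51_d1e_d51_d0f_d51_d00_d51_d00_d51_d00v2_5 g__wQ_26_wN_1_rb8033094424_d44_d1e_d51_d21_d51_d1e_d51_d0f_d51_d00_d51_d00_d51_d00v2_6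

theorem g__wQ_26_wN_1_rb8033094424_d44_d1e_d51_d21_d51_d1e_d51_d0f_d51_d00_d51_d00_d51_d00v2_3 : GoodKC AS k_wQ_26_wN_1_rb8033094424_d44_d1e_d51_d21_d51_d1e_d51_d0f_d51_d00_d51_d00_d51_d00v2_3 := p_wQ_26_wN_1_rb8033094424_d44_d1e_d51_d21_d51_d1e_d51_d0f_d51_d00_d51_d00_d51_d00v2_3 g__wQ_26_wN_1_rb8033094424_d44_d1e_d51_d21_d51_d1e_d51_d0f_d51_d00_d51_d00_d51_d00v2_4 g__wQ_26_wN_1_rb8033094424_d44_d1e_d51_d21_d51_d1e_d51_d0f_d51_d00_d51_d00_d51_d00v2_5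

theorem g__wQ_26_wN_1_rb8033094424_d44_d1e_d51_d21_d51_d1e_d51_d0f_d51_d00_d51_d00_d51_d00v2_2 : GoodKC AS k_wQ_26_wN_1_rb8033094424_d44_d1e_d51_d21_d51_d1e_d51_d0f_d51_d00_d51_d00_d51_d00v2_2 := p_wQ_26_wN_1_rb8033094424_d44_d1e_d51_d21_d51_d1e_d51_d0f_d51_d00_d51_d00_d51_d00v2_2 g__wQ_26_wN_1_rb8033094424_d44_d1e_d51_d21_d51_d1e_d51_d0f_d51_d00_d51_d00_d51_d00v2_3

theorem g__wQ_26_wN_1_rb8033094424_d44_d1e_d51_d21_d51_d1e_d51_d0f_d51_d00_d51_d00_d51_d00v2_0 : GoodKC AS k_wQ_26_wN_1_rb8033094424_d44_d1e_d51_d21_d51_d1e_d51_d0f_d51_d00_d51_d00_d51_d00v2_0 := p_wQ_26_wN_1_rb8033094424_d44_d1e_d51_d21_d51_d1e_d51_d0f_d51_d00_d51_d00_d51_d00v2_0 g__wQ_26_wN_1_rb8033094424_d44_d1e_d51_d21_d51_d1e_d51_d0f_d51_d00_d51_d00_d51_d00v2_1 g__wQ_26_wN_1_rb8033094424_d44_d1e_d51_d21_d51_d1e_d51_d0f_d51_d00_d51_d00_d51_d00v2_2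

theorem g__wQ_26_wN_1_rb8033094424_d44_d1e_d51_d21_d51_d1e_d51_d0f_d51_d00_d51_d00_d51_d00v2_7 : GoodKC AS k_wQ_26_wN_1_rb8033094424_d44_d1e_d51_d21_d51_d1e_d51_d0f_d51_d00_d51_d00_d51_d00v2_7 := p_wQ_26_wN_1_rb8033094424_d44_d1e_d51_d21_d51_d1e_d51_d0f_d51_d00_d51_d00_d51_d00v2_7

theorem g_wQ_26_wN_1_rb8033094424_d44_d1e_d51_d21_d51_d1e_d51_d0f_d51_d00_d51_d00_d51_d00_d56_d02v2 : GoodKC AS c_wQ_26_wN_1_rb8033094424_d44_d1e_d51_d21_d51_d1e_d51_d0f_d51_d00_d51_d00_d51_d00_d56_d02v2 := p_wQ_26_wN_1_rb8033094424_d44_d1e_d51_d21_d51_d1e_d51_d0f_d51_d00_d51_d00_d51_d00_d56_d02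

theorem g_wQ_26_wN_1_rb8033094424_d44_d1e_d51_d21_d51_d1e_d51_d0f_d51_d00_d51_d00_d51_d00_d56_d01v2 : GoodKC AS c_wQ_26_wN_1_rb8033094424_d44_d1e_d51_d21_d51_d1e_d51_d0f_d51_d00_d51_d00_d51_d00_d56_d01v2 := p_wQ_26_wN_1_rb8033094424_d44_d1e_d51_d21_d51_d1e_d51_d0f_d51_d00_d51_d00_d51_d00_d56_d01

theorem g_wQ_26_wN_1_rb8033094424_d44_d1e_d51_d21_d51_d1e_d51_d0f_d51_d00_d51_d00_d51_d00_d56_d00v2 : GoodKC AS c_wQ_26_wN_1_rb8033094424_d44_d1e_d51_d21_d51_d1e_d51_d0f_d51_d00_d51_d00_d51_d00_d56_d00v2 := p_wQ_26_wN_1_rb8033094424_d44_d1e_d51_d21_d51_d1e_d51_d0f_d51_d00_d51_d00_d51_d00_d56_d00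

theorem g_wQ_26_wN_1_rb8033094424_d44_d1e_d51_d21_d51_d1e_d51_d0f_d51_d00_d51_d00_d51_d00_d56_d03v2 : GoodKC AS c_wQ_26_wN_1_rb8033094424_d44_d1e_d51_d21_d51_d1e_d51_d0f_d51_d00_d51_d00_d51_d00_d56_d03v2 := p_wQ_26_wN_1_rb8033094424_d44_d1e_d51_d21_d51_d1e_d51_d0f_d51_d00_d51_d00_d51_d00_d56_d03

theorem g_wQ_26_wN_1_rb8033094424_d44_d1e_d51_d21_d51_d1e_d51_d0f_d51_d00_d51_d00_d51_d00_d56_d08v2 : GoodKC AS c_wQ_26_wN_1_rb8033094424_d44_d1e_d51_d21_d51_d1e_d51_d0f_d51_d00_d51_d00_d51_d00_d56_d08v2 := p_wQ_26_wN_1_rb8033094424_d44_d1e_d51_d21_d51_d1e_d51_d0f_d51_d00_d51_d00_d51_d00_d56_d08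

theorem g_wQ_26_wN_1_rb8033094424_d44_d1e_d51_d21_d51_d1e_d51_d0f_d51_d00_d51_d00_d51_d00_d56_d09v2 : GoodKC AS c_wQ_26_wN_1_rb8033094424_d44_d1e_d51_d21_d51_d1e_d51_d0f_d51_d00_d51_d00_d51_d00_d56_d09v2 := p_wQ_26_wN_1_rb8033094424_d44_d1e_d51_d21_d51_d1e_d51_d0f_d51_d00_d51_d00_d51_d00_d56_d09

theorem g__wQ_26_wN_1_rb8033094424_d44_d1e_d51_d21_d51_d1e_d51_d0f_d51_d00_d51_d00_d51_d00v2_8 : GoodKC AS k_wQ_26_wN_1_rb8033094424_d44_d1e_d51_d21_d51_d1e_d51_d0f_d51_d00_d51_d00_d51_d00v2_8 := p_wQ_26_wN_1_rb8033094424_d44_d1e_d51_d21_d51_d1e_d51_d0f_d51_d00_d51_d00_d51_d00v2_8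

theorem g_wQ_26_wN_1_rb8033094424_d44_d1e_d51_d21_d51_d1e_d51_d0f_d51_d00_d51_d00_d51_d00_d56_d0bv2 : GoodKC AS c_wQ_26_wN_1_rb8033094424_d44_d1e_d51_d21_d51_d1e_d51_d0f_d51_d00_d51_d00_d51_d00_d56_d0bv2 := p_wQ_26_wN_1_rb8033094424_d44_d1e_d51_d21_d51_d1e_d51_d0f_d51_d00_d51_d00_d51_d00_d56_d0b

theorem g_wQ_26_wN_1_rb8033094424_d44_d1e_d51_d21_d51_d1e_d51_d0f_d51_d00_d51_d00_d51_d00v1 : GoodKC AS c_wQ_26_wN_1_rb8033094424_d44_d1e_d51_d21_d51_d1e_d51_d0f_d51_d00_d51_d00_d51_d00v1 := p_wQ_26_wN_1_rb8033094424_d44_d1e_d51_d21_d51_d1e_d51_d0f_d51_d00_d51_d00_d51_d00v2 g_wQ_26_wN_1_rb8033094424_d44_d1e_d51_d21_d51_d1e_d51_d0f_d51_d00_d51_d00_d51_d00_d56_d0fv2 g_wQ_26_wN_1_rb8033094424_d44_d1e_d51_d21_d51_d1e_d51_d0f_d51_d00_d51_d00_d51_d00_d56_d0ev2 g_wQ_26_wN_1_rb8033094424_d44_d1e_d51_d21_d51_d1e_d51_d0f_d51_d00_d51_d00_d51_d00_d56_d0dv2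 g_wQ_26_wN_1_rb8033094424_d44_d1e_d51_d21_d51_d1e_d51_d0f_d51_d00_d51_d00_d51_d00_d56_d0cv2 g_wQ_26_wN_1_rb8033094424_d44_d1e_d51_d21_d51_d1e_d51_d0f_d51_d00_d51_d00_d51_d00_d56_d0av2 g_wQ_26_wN_1_rb8033094424_d44_d1e_d51_d21_d51_d1e_d51_d0f_d51_d00_d51_d00_d51_d00_d56_d07v2 g_wQ_26_wN_1_rb8033094424_d44_d1e_d51_d21_d51_d1e_d51_d0f_d51_d00_d51_d00_d51_d00_d56_d06v2 g_wQ_26_wN_1_rb8033094424_d44_d1e_d51_d21_d51_d1e_d51_d0f_d51_d00_d51_d00_d51_d00_d56_d05v2 g_wQ_26_wN_1_rb8033094424_d44_d1e_d51_d21_d51_d1e_d51_d0f_d51_d00_d51_d00_d51_d00_d56_d04v2 g__wQ_26_wN_1_rb8033094424_d44_d1e_d51_d21_d51_d1e_d51_d0f_d51_d00_d51_d00_d51_d00v2_0 g__wQ_26_wN_1_rb8033094424_d44_d1e_d51_d21_d51_d1e_d51_d0f_d51_d00_d51_d00_d51_d00v2_7 g_wQ_26_wN_1_rb8033094424_d44_d1e_d51_d21_d51_d1e_d51_d0f_d51_d00_d51_d00_d51_d00_d56_d02v2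 g_wQ_26_wN_1_rb8033094424_d44_d1e_d51_d21_d51_d1e_d51_d0f_d51_d00_d51_d00_d51_d00_d56_d01v2 g_wQ_26_wN_1_rb8033094424_d44_d1e_d51_d21_d51_d1e_d51_d0f_d51_d00_d51_d00_d51_d00_d56_d00v2 g_wQ_26_wN_1_rb8033094424_d44_d1e_d51_d21_d51_d1e_d51_d0f_d51_d00_d51_d00_d51_d00_d56_d03v2 g_wQ_26_wN_1_rb8033094424_d44_d1e_d51_d21_d51_d1e_d51_d0f_d51_d00_d51_d00_d51_d00_d56_d08v2 g_wQ_26_wN_1_rb8033094424_d44_d1e_d51_d21_d51_d1e_d51_d0f_d51_d00_d51_d00_d51_d00_d56_d09v2 g__wQ_26_wN_1_rb8033094424_d44_d1e_d51_d21_d51_d1e_d51_d0f_d51_d00_d51_d00_d51_d00v2_8 g_wQ_26_wN_1_rb8033094424_d44_d1e_d51_d21_d51_d1e_d51_d0f_d51_d00_d51_d00_d51_d00_d56_d0bv2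

theorem g_wQ_26_wN_1_rb8033094424_d44_d1e_d51_d21_d51_d1e_d51_d0f_d51_d00_d51_d00_d51_d02v1 : GoodKC AS c_wQ_26_wN_1_rb8033094424_d44_d1e_d51_d21_d51_d1e_d51_d0f_d51_d00_d51_d00_d51_d02v1 := p_wQ_26_wN_1_rb8033094424_d44_d1e_d51_d21_d51_d1e_d51_d0f_d51_d00_d51_d00_d51_d02v1

theorem g_wQ_26_wN_1_rb8033094424_d44_d1e_d51_d21_d51_d1e_d51_d0f_d51_d00_d51_d00_d51_d06v1 : GoodKC AS c_wQ_26_wN_1_rb8033094424_d44_d1e_d51_d21_d51_d1e_d51_d0f_d51_d00_d51_d00_d51_d06v1 := p_wQ_26_wN_1_rb8033094424_d44_d1e_d51_d21_d51_d1e_d51_d0f_d51_d00_d51_d00_d51_d06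

theorem g_wQ_26_wN_1_rb8033094424_d44_d1e_d51_d21_d51_d1e_d51_d0f_d51_d00_d51_d00_d51_d07v1 : GoodKC AS c_wQ_26_wN_1_rb8033094424_d44_d1e_d51_d21_d51_d1e_d51_d0f_d51_d00_d51_d00_d51_d07v1 := p_wQ_26_wN_1_rb8033094424_d44_d1e_d51_d21_d51_d1e_d51_d0f_d51_d00_d51_d00_d51_d07

theorem g_wQ_26_wN_1_rb8033094424_d44_d1e_d51_d21_d51_d1e_d51_d0f_d51_d00_d51_d00 : GoodKC AS c_wQ_26_wN_1_rb8033094424_d44_d1e_d51_d21_d51_d1e_d51_d0f_d51_d00_d51_d00 := p_wQ_26_wN_1_rb8033094424_d44_d1e_d51_d21_d51_d1e_d51_d0f_d51_d00_d51_d00v1 g_wQ_26_wN_1_rb8033094424_d44_d1e_d51_d21_d51_d1e_d51_d0f_d51_d00_d51_d00_d51_d08v1 g_wQ_26_wN_1_rb8033094424_d44_d1e_d51_d21_d51_d1e_d51_d0f_d51_d00_d51_d00_d51_d05v1 g_wQ_26_wN_1_rb8033094424_d44_d1e_d51_d21_d51_d1e_d51_d0f_d51_d00_d51_d00_d51_d04v1 g_wQ_26_wN_1_rb8033094424_d44_d1e_d51_d21_d51_d1e_d51_d0f_d51_d00_d51_d00_d51_d03v1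 g_wQ_26_wN_1_rb8033094424_d44_d1e_d51_d21_d51_d1e_d51_d0f_d51_d00_d51_d00_d51_d01v1 g_wQ_26_wN_1_rb8033094424_d44_d1e_d51_d21_d51_d1e_d51_d0f_d51_d00_d51_d00_d51_d00v1 g_wQ_26_wN_1_rb8033094424_d44_d1e_d51_d21_d51_d1e_d51_d0f_d51_d00_d51_d00_d51_d02v1 g_wQ_26_wN_1_rb8033094424_d44_d1e_d51_d21_d51_d1e_d51_d0f_d51_d00_d51_d00_d51_d06v1 g_wQ_26_wN_1_rb8033094424_d44_d1e_d51_d21_d51_d1e_d51_d0f_d51_d00_d51_d00_d51_d07v1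

theorem g_wQ_26_wN_1_rb8033094424_d44_d1e_d51_d21_d51_d1e_d51_d0f_d51_d00_d51_d01 : GoodKC AS c_wQ_26_wN_1_rb8033094424_d44_d1e_d51_d21_d51_d1e_d51_d0f_d51_d00_d51_d01 := p_wQ_26_wN_1_rb8033094424_d44_d1e_d51_d21_d51_d1e_d51_d0f_d51_d00_d51_d01

theorem g_wQ_26_wN_1_rb8033094424_d44_d1e_d51_d21_d51_d1e_d51_d0f_d51_d00_d51_d05_d56_d0bv1 : GoodKC AS c_wQ_26_wN_1_rb8033094424_d44_d1e_d51_d21_d51_d1e_d51_d0f_d51_d00_d51_d05_d56_d0bv1 := p_wQ_26_wN_1_rb8033094424_d44_d1e_d51_d21_d51_d1e_d51_d0f_d51_d00_d51_d05_d56_d0b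

theorem g_wQ_26_wN_1_rb8033094424_d44_d1e_d51_d21_d51_d1e_d51_d0f_d51_d00_d51_d05_d56_d08v1 : GoodKC AS c_wQ_26_wN_1_rb8033094424_d44_d1e_d51_d21_d51_d1e_d51_d0f_d51_d00_d51_d05_d56_d08v1 := p_wQ_26_wN_1_rb8033094424_d44_d1e_d51_d21_d51_d1e_d51_d0f_d51_d00_d51_d05_d56_d08

theorem g_wQ_26_wN_1_rb8033094424_d44_d1e_d51_d21_d51_d1e_d51_d0f_d51_d00_d51_d05_d56_d06v1 : GoodKC AS c_wQ_26_wN_1_rb8033094424_d44_d1e_d51_d21_d51_d1e_d51_d0f_d51_d00_d51_d05_d56_d06v1 := p_wQ_26_wN_1_rb8033094424_d44_d1e_d51_d21_d51_d1e_d51_d0f_d51_d00_d51_d05_d56_d06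

theorem g_wQ_26_wN_1_rb8033094424_d44_d1e_d51_d21_d51_d1e_d51_d0f_d51_d00_d51_d05_d56_d05v1 : GoodKC AS c_wQ_26_wN_1_rb8033094424_d44_d1e_d51_d21_d51_d1e_d51_d0f_d51_d00_d51_d05_d56_d05v1 := p_wQ_26_wN_1_rb8033094424_d44_d1e_d51_d21_d51_d1e_d51_d0f_d51_d00_d51_d05_d56_d05

theorem g_wQ_26_wN_1_rb8033094424_d44_d1e_d51_d21_d51_d1e_d51_d0f_d51_d00_d51_d05_d56_d02v1 : GoodKC AS c_wQ_26_wN_1_rb8033094424_d44_d1e_d51_d21_d51_d1e_d51_d0f_d51_d00_d51_d05_d56_d02v1 := p_wQ_26_wN_1_rb8033094424_d44_d1e_d51_d21_d51_d1e_d51_d0f_d51_d00_d51_d05_d56_d02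

theorem g_wQ_26_wN_1_rb8033094424_d44_d1e_d51_d21_d51_d1e_d51_d0f_d51_d00_d51_d05_d56_d01_d51_d1av2 : GoodKC AS c_wQ_26_wN_1_rb8033094424_d44_d1e_d51_d21_d51_d1e_d51_d0f_d51_d00_d51_d05_d56_d01_d51_d1av2 := p_wQ_26_wN_1_rb8033094424_d44_d1e_d51_d21_d51_d1e_d51_d0f_d51_d00_d51_d05_d56_d01_d51_d1a

theorem g_wQ_26_wN_1_rb8033094424_d44_d1e_d51_d21_d51_d1e_d51_d0f_d51_d00_d51_d05_d56_d01_d51_d19v2 : GoodKC AS c_wQ_26_wN_1_rb8033094424_d44_d1e_d51_d21_d51_d1e_d51_d0f_d51_d00_d51_d05_d56_d01_d51_d19v2 := p_wQ_26_wN_1_rb8033094424_d44_d1e_d51_d21_d51_d1e_d51_d0f_d51_d00_d51_d05_d56_d01_d51_d19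

theorem g_wQ_26_wN_1_rb8033094424_d44_d1e_d51_d21_d51_d1e_d51_d0f_d51_d00_d51_d05_d56_d01_d51_d18v2 : GoodKC AS c_wQ_26_wN_1_rb8033094424_d44_d1e_d51_d21_d51_d1e_d51_d0f_d51_d00_d51_d05_d56_d01_d51_d18v2 := p_wQ_26_wN_1_rb8033094424_d44_d1e_d51_d21_d51_d1e_d51_d0f_d51_d00_d51_d05_d56_d01_d51_d18

theorem g_wQ_26_wN_1_rb8033094424_d44_d1e_d51_d21_d51_d1e_d51_d0f_d51_d00_d51_d05_d56_d01_d51_d15v2 : GoodKC AS c_wQ_26_wN_1_rb8033094424_d44_d1e_d51_d21_d51_d1e_d51_d0f_d51_d00_d51_d05_d56_d01_d51_d15v2 := p_wQ_26_wN_1_rb8033094424_d44_d1e_d51_d21_d51_d1e_d51_d0f_d51_d00_d51_d05_d56_d01_d51_d15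

theorem g_wQ_26_wN_1_rb8033094424_d44_d1e_d51_d21_d51_d1e_d51_d0f_d51_d00_d51_d05_d56_d01_d51_d13v2 : GoodKC AS c_wQ_26_wN_1_rb8033094424_d44_d1e_d51_d21_d51_d1e_d51_d0f_d51_d00_d51_d05_d56_d01_d51_d13v2 := p_wQ_26_wN_1_rb8033094424_d44_d1e_d51_d21_d51_d1e_d51_d0f_d51_d00_d51_d05_d56_d01_d51_d13

theorem g_wQ_26_wN_1_rb8033094424_d44_d1e_d51_d21_d51_d1e_d51_d0f_d51_d00_d51_d05_d56_d01_d51_d11v2 : GoodKC AS c_wQ_26_wN_1_rb8033094424_d44_d1e_d51_d21_d51_d1e_d51_d0f_d51_d00_d51_d05_d56_d01_d51_d11v2 := p_wQ_26_wN_1_rb8033094424_d44_d1e_d51_d21_d51_d1e_d51_d0f_d51_d00_d51_d05_d56_d01_d51_d11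

theorem g_wQ_26_wN_1_rb8033094424_d44_d1e_d51_d21_d51_d1e_d51_d0f_d51_d00_d51_d05_d56_d01_d51_d10v2 : GoodKC AS c_wQ_26_wN_1_rb8033094424_d44_d1e_d51_d21_d51_d1e_d51_d0f_d51_d00_d51_d05_d56_d01_d51_d10v2 := p_wQ_26_wN_1_rb8033094424_d44_d1e_d51_d21_d51_d1e_d51_d0f_d51_d00_d51_d05_d56_d01_d51_d10

theorem g_wQ_26_wN_1_rb8033094424_d44_d1e_d51_d21_d51_d1e_d51_d0f_d51_d00_d51_d05_d56_d01_d51_d0fv2 : GoodKC AS c_wQ_26_wN_1_rb8033094424_d44_d1e_d51_d21_d51_d1e_d51_d0f_d51_d00_d51_d05_d56_d01_d51_d0fv2 := p_wQ_26_wN_1_rb8033094424_d44_d1e_d51_d21_d51_d1e_d51_d0f_d51_d00_d51_d05_d56_d01_d51_d0f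

theorem g_wQ_26_wN_1_rb8033094424_d44_d1e_d51_d21_d51_d1e_d51_d0f_d51_d00_d51_d05_d56_d01_d51_d0ev2 : GoodKC AS c_wQ_26_wN_1_rb8033094424_d44_d1e_d51_d21_d51_d1e_d51_d0f_d51_d00_d51_d05_d56_d01_d51_d0ev2 := p_wQ_26_wN_1_rb8033094424_d44_d1e_d51_d21_d51_d1e_d51_d0f_d51_d00_d51_d05_d56_d01_d51_d0e

theorem g_wQ_26_wN_1_rb8033094424_d44_d1e_d51_d21_d51_d1e_d51_d0f_d51_d00_d51_d05_d56_d01_d51_d0cv2 : GoodKC AS c_wQ_26_wN_1_rb8033094424_d44_d1e_d51_d21_d51_d1e_d51_d0f_d51_d00_d51_d05_d56_d01_d51_d0cv2 := p_wQ_26_wN_1_rb8033094424_d44_d1e_d51_d21_d51_d1e_d51_d0f_d51_d00_d51_d05_d56_d01_d51_d0c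

theorem g_wQ_26_wN_1_rb8033094424_d44_d1e_d51_d21_d51_d1e_d51_d0f_d51_d00_d51_d05_d56_d01_d51_d0av2 : GoodKC AS c_wQ_26_wN_1_rb8033094424_d44_d1e_d51_d21_d51_d1e_d51_d0f_d51_d00_d51_d05_d56_d01_d51_d0av2 := p_wQ_26_wN_1_rb8033094424_d44_d1e_d51_d21_d51_d1e_d51_d0f_d51_d00_d51_d05_d56_d01_d51_d0a

theorem g_wQ_26_wN_1_rb8033094424_d44_d1e_d51_d21_d51_d1e_d51_d0f_d51_d00_d51_d05_d56_d01_d51_d08v2 : GoodKC AS c_wQ_26_wN_1_rb8033094424_d44_d1e_d51_d21_d51_d1e_d51_d0f_d51_d00_d51_d05_d56_d01_d51_d08v2 := p_wQ_26_wN_1_rb8033094424_d44_d1e_d51_d21_d51_d1e_d51_d0f_d51_d00_d51_d05_d56_d01_d51_d08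

theorem g_wQ_26_wN_1_rb8033094424_d44_d1e_d51_d21_d51_d1e_d51_d0f_d51_d00_d51_d05_d56_d01_d51_d07v2 : GoodKC AS c_wQ_26_wN_1_rb8033094424_d44_d1e_d51_d21_d51_d1e_d51_d0f_d51_d00_d51_d05_d56_d01_d51_d07v2 := p_wQ_26_wN_1_rb8033094424_d44_d1e_d51_d21_d51_d1e_d51_d0f_d51_d00_d51_d05_d56_d01_d51_d07

theorem g_wQ_26_wN_1_rb8033094424_d44_d1e_d51_d21_d51_d1e_d51_d0f_d51_d00_d51_d05_d56_d01_d51_d05v2 : GoodKC AS c_wQ_26_wN_1_rb8033094424_d44_d1e_d51_d21_d51_d1e_d51_d0f_d51_d00_d51_d05_d56_d01_d51_d05v2 := p_wQ_26_wN_1_rb8033094424_d44_d1e_d51_d21_d51_d1e_d51_d0f_d51_d00_d51_d05_d56_d01_d51_d05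

theorem g_wQ_26_wN_1_rb8033094424_d44_d1e_d51_d21_d51_d1e_d51_d0f_d51_d00_d51_d05_d56_d01_d51_d03v2 : GoodKC AS c_wQ_26_wN_1_rb8033094424_d44_d1e_d51_d21_d51_d1e_d51_d0f_d51_d00_d51_d05_d56_d01_d51_d03v2 := p_wQ_26_wN_1_rb8033094424_d44_d1e_d51_d21_d51_d1e_d51_d0f_d51_d00_d51_d05_d56_d01_d51_d03

theorem g_wQ_26_wN_1_rb8033094424_d44_d1e_d51_d21_d51_d1e_d51_d0f_d51_d00_d51_d05_d56_d01_d51_d01v2 : GoodKC AS c_wQ_26_wN_1_rb8033094424_d44_d1e_d51_d21_d51_d1e_d51_d0f_d51_d00_d51_d05_d56_d01_d51_d01v2 := p_wQ_26_wN_1_rb8033094424_d44_d1e_d51_d21_d51_d1e_d51_d0f_d51_d00_d51_d05_d56_d01_d51_d01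

theorem g_wQ_26_wN_1_rb8033094424_d44_d1e_d51_d21_d51_d1e_d51_d0f_d51_d00_d51_d05_d56_d01_d51_d00v2 : GoodKC AS c_wQ_26_wN_1_rb8033094424_d44_d1e_d51_d21_d51_d1e_d51_d0f_d51_d00_d51_d05_d56_d01_d51_d00v2 := p_wQ_26_wN_1_rb8033094424_d44_d1e_d51_d21_d51_d1e_d51_d0f_d51_d00_d51_d05_d56_d01_d51_d00

theorem g__wQ_26_wN_1_rb8033094424_d44_d1e_d51_d21_d51_d1e_d51_d0f_d51_d00_d51_d05_d56_d01v2_3 : GoodKC AS k_wQ_26_wN_1_rb8033094424_d44_d1e_d51_d21_d51_d1e_d51_d0f_d51_d00_d51_d05_d56_d01v2_3 := p_wQ_26_wN_1_rb8033094424_d44_d1e_d51_d21_d51_d1e_d51_d0f_d51_d00_d51_d05_d56_d01v2_3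

theorem g__wQ_26_wN_1_rb8033094424_d44_d1e_d51_d21_d51_d1e_d51_d0f_d51_d00_d51_d05_d56_d01v2_2 : GoodKC AS k_wQ_26_wN_1_rb8033094424_d44_d1e_d51_d21_d51_d1e_d51_d0f_d51_d00_d51_d05_d56_d01v2_2 := p_wQ_26_wN_1_rb8033094424_d44_d1e_d51_d21_d51_d1e_d51_d0f_d51_d00_d51_d05_d56_d01v2_2 g__wQ_26_wN_1_rb8033094424_d44_d1e_d51_d21_d51_d1e_d51_d0f_d51_d00_d51_d05_d56_d01v2_3

theorem g__wQ_26_wN_1_rb8033094424_d44_d1e_d51_d21_d51_d1e_d51_d0f_d51_d00_d51_d05_d56_d01v2_1 : GoodKC AS k_wQ_26_wN_1_rb8033094424_d44_d1e_d51_d21_d51_d1e_d51_d0f_d51_d00_d51_d05_d56_d01v2_1 := p_wQ_26_wN_1_rb8033094424_d44_d1e_d51_d21_d51_d1e_d51_d0f_d51_d00_d51_d05_d56_d01v2_1 g__wQ_26_wN_1_rb8033094424_d44_d1e_d51_d21_d51_d1e_d51_d0f_d51_d00_d51_d05_d56_d01v2_2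

theorem g__wQ_26_wN_1_rb8033094424_d44_d1e_d51_d21_d51_d1e_d51_d0f_d51_d00_d51_d05_d56_d01v2_0 : GoodKC AS k_wQ_26_wN_1_rb8033094424_d44_d1e_d51_d21_d51_d1e_d51_d0f_d51_d00_d51_d05_d56_d01v2_0 := p_wQ_26_wN_1_rb8033094424_d44_d1e_d51_d21_d51_d1e_d51_d0f_d51_d00_d51_d05_d56_d01v2_0 g__wQ_26_wN_1_rb8033094424_d44_d1e_d51_d21_d51_d1e_d51_d0f_d51_d00_d51_d05_d56_d01v2_1

theorem g_wQ_26_wN_1_rb8033094424_d44_d1e_d51_d21_d51_d1e_d51_d0f_d51_d00_d51_d05_d56_d01_d51_d02v2 : GoodKC AS c_wQ_26_wN_1_rb8033094424_d44_d1e_d51_d21_d51_d1e_d51_d0f_d51_d00_d51_d05_d56_d01_d51_d02v2 := p_wQ_26_wN_1_rb8033094424_d44_d1e_d51_d21_d51_d1e_d51_d0f_d51_d00_d51_d05_d56_d01_d51_d02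

theorem g_wQ_26_wN_1_rb8033094424_d44_d1e_d51_d21_d51_d1e_d51_d0f_d51_d00_d51_d05_d56_d01_d51_d04v2 : GoodKC AS c_wQ_26_wN_1_rb8033094424_d44_d1e_d51_d21_d51_d1e_d51_d0f_d51_d00_d51_d05_d56_d01_d51_d04v2 := p_wQ_26_wN_1_rb8033094424_d44_d1e_d51_d21_d51_d1e_d51_d0f_d51_d00_d51_d05_d56_d01_d51_d04

theorem g_wQ_26_wN_1_rb8033094424_d44_d1e_d51_d21_d51_d1e_d51_d0f_d51_d00_d51_d05_d56_d01_d51_d06v2 : GoodKC AS c_wQ_26_wN_1_rb8033094424_d44_d1e_d51_d21_d51_d1e_d51_d0f_d51_d00_d51_d05_d56_d01_d51_d06v2 := p_wQ_26_wN_1_rb8033094424_d44_d1e_d51_d21_d51_d1e_d51_d0f_d51_d00_d51_d05_d56_d01_d51_d06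

theorem g_wQ_26_wN_1_rb8033094424_d44_d1e_d51_d21_d51_d1e_d51_d0f_d51_d00_d51_d05_d56_d01_d51_d09v2 : GoodKC AS c_wQ_26_wN_1_rb8033094424_d44_d1e_d51_d21_d51_d1e_d51_d0f_d51_d00_d51_d05_d56_d01_d51_d09v2 := p_wQ_26_wN_1_rb8033094424_d44_d1e_d51_d21_d51_d1e_d51_d0f_d51_d00_d51_d05_d56_d01_d51_d09

theorem g__wQ_26_wN_1_rb8033094424_d44_d1e_d51_d21_d51_d1e_d51_d0f_d51_d00_d51_d05_d56_d01_d51_d0b_0 : GoodKC AS k_wQ_26_wN_1_rb8033094424_d44_d1e_d51_d21_d51_d1e_d51_d0f_d51_d00_d51_d05_d56_d01_d51_d0b_0 := p_wQ_26_wN_1_rb8033094424_d44_d1e_d51_d21_d51_d1e_d51_d0f_d51_d00_d51_d05_d56_d01_d51_d0b_0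

theorem g_wQ_26_wN_1_rb8033094424_d44_d1e_d51_d21_d51_d1e_d51_d0f_d51_d00_d51_d05_d56_d01_d51_d0bv2 : GoodKC AS c_wQ_26_wN_1_rb8033094424_d44_d1e_d51_d21_d51_d1e_d51_d0f_d51_d00_d51_d05_d56_d01_d51_d0bv2 := p_wQ_26_wN_1_rb8033094424_d44_d1e_d51_d21_d51_d1e_d51_d0f_d51_d00_d51_d05_d56_d01_d51_d0b g__wQ_26_wN_1_rb8033094424_d44_d1e_d51_d21_d51_d1e_d51_d0f_d51_d00_d51_d05_d56_d01_d51_d0b_0

theorem g_wQ_26_wN_1_rb8033094424_d44_d1e_d51_d21_d51_d1e_d51_d0f_d51_d00_d51_d05_d56_d01_d51_d0dv2 : GoodKC AS c_wQ_26_wN_1_rb8033094424_d44_d1e_d51_d21_d51_d1e_d51_d0f_d51_d00_d51_d05_d56_d01_d51_d0dv2 := p_wQ_26_wN_1_rb8033094424_d44_d1e_d51_d21_d51_d1e_d51_d0f_d51_d00_d51_d05_d56_d01_d51_d0d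

theorem g_wQ_26_wN_1_rb8033094424_d44_d1e_d51_d21_d51_d1e_d51_d0f_d51_d00_d51_d05_d56_d01_d51_d12v2 : GoodKC AS c_wQ_26_wN_1_rb8033094424_d44_d1e_d51_d21_d51_d1e_d51_d0f_d51_d00_d51_d05_d56_d01_d51_d12v2 := p_wQ_26_wN_1_rb8033094424_d44_d1e_d51_d21_d51_d1e_d51_d0f_d51_d00_d51_d05_d56_d01_d51_d12

theorem g__wQ_26_wN_1_rb8033094424_d44_d1e_d51_d21_d51_d1e_d51_d0f_d51_d00_d51_d05_d56_d01_d51_d14_2 : GoodKC AS k_wQ_26_wN_1_rb8033094424_d44_d1e_d51_d21_d51_d1e_d51_d0f_d51_d00_d51_d05_d56_d01_d51_d14_2 := p_wQ_26_wN_1_rb8033094424_d44_d1e_d51_d21_d51_d1e_d51_d0f_d51_d00_d51_d05_d56_d01_d51_d14_2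

theorem g__wQ_26_wN_1_rb8033094424_d44_d1e_d51_d21_d51_d1e_d51_d0f_d51_d00_d51_d05_d56_d01_d51_d14_1 : GoodKC AS k_wQ_26_wN_1_rb8033094424_d44_d1e_d51_d21_d51_d1e_d51_d0f_d51_d00_d51_d05_d56_d01_d51_d14_1 := p_wQ_26_wN_1_rb8033094424_d44_d1e_d51_d21_d51_d1e_d51_d0f_d51_d00_d51_d05_d56_d01_d51_d14_1 g__wQ_26_wN_1_rb8033094424_d44_d1e_d51_d21_d51_d1e_d51_d0f_d51_d00_d51_d05_d56_d01_d51_d14_2

theorem g__wQ_26_wN_1_rb8033094424_d44_d1e_d51_d21_d51_d1e_d51_d0f_d51_d00_d51_d05_d56_d01_d51_d14_0 : GoodKC AS k_wQ_26_wN_1_rb8033094424_d44_d1e_d51_d21_d51_d1e_d51_d0f_d51_d00_d51_d05_d56_d01_d51_d14_0 := p_wQ_26_wN_1_rb8033094424_d44_d1e_d51_d21_d51_d1e_d51_d0f_d51_d00_d51_d05_d56_d01_d51_d14_0 g__wQ_26_wN_1_rb8033094424_d44_d1e_d51_d21_d51_d1e_d51_d0f_d51_d00_d51_d05_d56_d01_d51_d14_1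

theorem g__wQ_26_wN_1_rb8033094424_d44_d1e_d51_d21_d51_d1e_d51_d0f_d51_d00_d51_d05_d56_d01_d51_d14_3 : GoodKC AS k_wQ_26_wN_1_rb8033094424_d44_d1e_d51_d21_d51_d1e_d51_d0f_d51_d00_d51_d05_d56_d01_d51_d14_3 := p_wQ_26_wN_1_rb8033094424_d44_d1e_d51_d21_d51_d1e_d51_d0f_d51_d00_d51_d05_d56_d01_d51_d14_3

theorem g__wQ_26_wN_1_rb8033094424_d44_d1e_d51_d21_d51_d1e_d51_d0f_d51_d00_d51_d05_d56_d01_d51_d14_5 : GoodKC AS k_wQ_26_wN_1_rb8033094424_d44_d1e_d51_d21_d51_d1e_d51_d0f_d51_d00_d51_d05_d56_d01_d51_d14_5 := p_wQ_26_wN_1_rb8033094424_d44_d1e_d51_d21_d51_d1e_d51_d0f_d51_d00_d51_d05_d56_d01_d51_d14_5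

theorem g__wQ_26_wN_1_rb8033094424_d44_d1e_d51_d21_d51_d1e_d51_d0f_d51_d00_d51_d05_d56_d01_d51_d14_4 : GoodKC AS k_wQ_26_wN_1_rb8033094424_d44_d1e_d51_d21_d51_d1e_d51_d0f_d51_d00_d51_d05_d56_d01_d51_d14_4 := p_wQ_26_wN_1_rb8033094424_d44_d1e_d51_d21_d51_d1e_d51_d0f_d51_d00_d51_d05_d56_d01_d51_d14_4 g__wQ_26_wN_1_rb8033094424_d44_d1e_d51_d21_d51_d1e_d51_d0f_d51_d00_d51_d05_d56_d01_d51_d14_5

theorem g_wQ_26_wN_1_rb8033094424_d44_d1e_d51_d21_d51_d1e_d51_d0f_d51_d00_d51_d05_d56_d01_d51_d14v2 : GoodKC AS c_wQ_26_wN_1_rb8033094424_d44_d1e_d51_d21_d51_d1e_d51_d0f_d51_d00_d51_d05_d56_d01_d51_d14v2 := p_wQ_26_wN_1_rb8033094424_d44_d1e_d51_d21_d51_d1e_d51_d0f_d51_d00_d51_d05_d56_d01_d51_d14 g__wQ_26_wN_1_rb8033094424_d44_d1e_d51_d21_d51_d1e_d51_d0f_d51_d00_d51_d05_d56_d01_d51_d14_0 g__wQ_26_wN_1_rb8033094424_d44_d1e_d51_d21_d51_d1e_d51_d0f_d51_d00_d51_d05_d56_d01_d51_d14_3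 g__wQ_26_wN_1_rb8033094424_d44_d1e_d51_d21_d51_d1e_d51_d0f_d51_d00_d51_d05_d56_d01_d51_d14_4

theorem g_wQ_26_wN_1_rb8033094424_d44_d1e_d51_d21_d51_d1e_d51_d0f_d51_d00_d51_d05_d56_d01_d51_d16v2 : GoodKC AS c_wQ_26_wN_1_rb8033094424_d44_d1e_d51_d21_d51_d1e_d51_d0f_d51_d00_d51_d05_d56_d01_d51_d16v2 := p_wQ_26_wN_1_rb8033094424_d44_d1e_d51_d21_d51_d1e_d51_d0f_d51_d00_d51_d05_d56_d01_d51_d16

theorem g_wQ_26_wN_1_rb8033094424_d44_d1e_d51_d21_d51_d1e_d51_d0f_d51_d00_d51_d05_d56_d01_d51_d17v2 : GoodKC AS c_wQ_26_wN_1_rb8033094424_d44_d1e_d51_d21_d51_d1e_d51_d0f_d51_d00_d51_d05_d56_d01_d51_d17v2 := p_wQ_26_wN_1_rb8033094424_d44_d1e_d51_d21_d51_d1e_d51_d0f_d51_d00_d51_d05_d56_d01_d51_d17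

theorem g_wQ_26_wN_1_rb8033094424_d44_d1e_d51_d21_d51_d1e_d51_d0f_d51_d00_d51_d05_d56_d01v1 : GoodKC AS c_wQ_26_wN_1_rb8033094424_d44_d1e_d51_d21_d51_d1e_d51_d0f_d51_d00_d51_d05_d56_d01v1 := p_wQ_26_wN_1_rb8033094424_d44_d1e_d51_d21_d51_d1e_d51_d0f_d51_d00_d51_d05_d56_d01v2 g_wQ_26_wN_1_rb8033094424_d44_d1e_d51_d21_d51_d1e_d51_d0f_d51_d00_d51_d05_d56_d01_d51_d1av2 g_wQ_26_wN_1_rb8033094424_d44_d1e_d51_d21_d51_d1e_d51_d0f_d51_d00_d51_d05_d56_d01_d51_d19v2 g_wQ_26_wN_1_rb8033094424_d44_d1e_d51_d21_d51_d1e_d51_d0f_d51_d00_d51_d05_d56_d01_d51_d18v2 g_wQ_26_wN_1_rb8033094424_d44_d1e_d51_d21_d51_d1e_d51_d0f_d51_d00_d51_d05_d56_d01_d51_d15v2 g_wQ_26_wN_1_rb8033094424_d44_d1e_d51_d21_d51_d1e_d51_d0f_d51_d00_d51_d05_d56_d01_d51_d13v2 g_wQ_26_wN_1_rb8033094424_d44_d1e_d51_d21_d51_d1e_d51_d0f_d51_d00_d51_d05_d56_d01_d51_d11v2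 g_wQ_26_wN_1_rb8033094424_d44_d1e_d51_d21_d51_d1e_d51_d0f_d51_d00_d51_d05_d56_d01_d51_d10v2 g_wQ_26_wN_1_rb8033094424_d44_d1e_d51_d21_d51_d1e_d51_d0f_d51_d00_d51_d05_d56_d01_d51_d0fv2 g_wQ_26_wN_1_rb8033094424_d44_d1e_d51_d21_d51_d1e_d51_d0f_d51_d00_d51_d05_d56_d01_d51_d0ev2 g_wQ_26_wN_1_rb8033094424_d44_d1e_d51_d21_d51_d1e_d51_d0f_d51_d00_d51_d05_d56_d01_d51_d0cv2 g_wQ_26_wN_1_rb8033094424_d44_d1e_d51_d21_d51_d1e_d51_d0f_d51_d00_d51_d05_d56_d01_d51_d0av2 g_wQ_26_wN_1_rb8033094424_d44_d1e_d51_d21_d51_d1e_d51_d0f_d51_d00_d51_d05_d56_d01_d51_d08v2 g_wQ_26_wN_1_rb8033094424_d44_d1e_d51_d21_d51_d1e_d51_d0f_d51_d00_d51_d05_d56_d01_d51_d07v2 g_wQ_26_wN_1_rb8033094424_d44_d1e_d51_d21_d51_d1e_d51_d0f_d51_d00_d51_d05_d56_d01_d51_d05v2 g_wQ_26_wN_1_rb8033094424_d44_d1e_d51_d21_d51_d1e_d51_d0f_d51_d00_d51_d05_d56_d01_d51_d03v2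 g_wQ_26_wN_1_rb8033094424_d44_d1e_d51_d21_d51_d1e_d51_d0f_d51_d00_d51_d05_d56_d01_d51_d01v2 g_wQ_26_wN_1_rb8033094424_d44_d1e_d51_d21_d51_d1e_d51_d0f_d51_d00_d51_d05_d56_d01_d51_d00v2 g__wQ_26_wN_1_rb8033094424_d44_d1e_d51_d21_d51_d1e_d51_d0f_d51_d00_d51_d05_d56_d01v2_0 g_wQ_26_wN_1_rb8033094424_d44_d1e_d51_d21_d51_d1e_d51_d0f_d51_d00_d51_d05_d56_d01_d51_d02v2 g_wQ_26_wN_1_rb8033094424_d44_d1e_d51_d21_d51_d1e_d51_d0f_d51_d00_d51_d05_d56_d01_d51_d04v2 g_wQ_26_wN_1_rb8033094424_d44_d1e_d51_d21_d51_d1e_d51_d0f_d51_d00_d51_d05_d56_d01_d51_d06v2 g_wQ_26_wN_1_rb8033094424_d44_d1e_d51_d21_d51_d1e_d51_d0f_d51_d00_d51_d05_d56_d01_d51_d09v2 g_wQ_26_wN_1_rb8033094424_d44_d1e_d51_d21_d51_d1e_d51_d0f_d51_d00_d51_d05_d56_d01_d51_d0bv2 g_wQ_26_wN_1_rb8033094424_d44_d1e_d51_d21_d51_d1e_d51_d0f_d51_d00_d51_d05_d56_d01_d51_d0dv2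 g_wQ_26_wN_1_rb8033094424_d44_d1e_d51_d21_d51_d1e_d51_d0f_d51_d00_d51_d05_d56_d01_d51_d12v2 g_wQ_26_wN_1_rb8033094424_d44_d1e_d51_d21_d51_d1e_d51_d0f_d51_d00_d51_d05_d56_d01_d51_d14v2 g_wQ_26_wN_1_rb8033094424_d44_d1e_d51_d21_d51_d1e_d51_d0f_d51_d00_d51_d05_d56_d01_d51_d16v2 g_wQ_26_wN_1_rb8033094424_d44_d1e_d51_d21_d51_d1e_d51_d0f_d51_d00_d51_d05_d56_d01_d51_d17v2

theorem g_wQ_26_wN_1_rb8033094424_d44_d1e_d51_d21_d51_d1e_d51_d0f_d51_d00_d51_d05_d56_d00v1 : GoodKC AS c_wQ_26_wN_1_rb8033094424_d44_d1e_d51_d21_d51_d1e_d51_d0f_d51_d00_d51_d05_d56_d00v1 := p_wQ_26_wN_1_rb8033094424_d44_d1e_d51_d21_d51_d1e_d51_d0f_d51_d00_d51_d05_d56_d00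

theorem g_wQ_26_wN_1_rb8033094424_d44_d1e_d51_d21_d51_d1e_d51_d0f_d51_d00_d51_d05_d56_d03v1 : GoodKC AS c_wQ_26_wN_1_rb8033094424_d44_d1e_d51_d21_d51_d1e_d51_d0f_d51_d00_d51_d05_d56_d03v1 := p_wQ_26_wN_1_rb8033094424_d44_d1e_d51_d21_d51_d1e_d51_d0f_d51_d00_d51_d05_d56_d03

theorem g_wQ_26_wN_1_rb8033094424_d44_d1e_d51_d21_d51_d1e_d51_d0f_d51_d00_d51_d05_d56_d04v1 : GoodKC AS c_wQ_26_wN_1_rb8033094424_d44_d1e_d51_d21_d51_d1e_d51_d0f_d51_d00_d51_d05_d56_d04v1 := p_wQ_26_wN_1_rb8033094424_d44_d1e_d51_d21_d51_d1e_d51_d0f_d51_d00_d51_d05_d56_d04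

theorem g_wQ_26_wN_1_rb8033094424_d44_d1e_d51_d21_d51_d1e_d51_d0f_d51_d00_d51_d05_d56_d07v1 : GoodKC AS c_wQ_26_wN_1_rb8033094424_d44_d1e_d51_d21_d51_d1e_d51_d0f_d51_d00_d51_d05_d56_d07v1 := p_wQ_26_wN_1_rb8033094424_d44_d1e_d51_d21_d51_d1e_d51_d0f_d51_d00_d51_d05_d56_d07

theorem g_wQ_26_wN_1_rb8033094424_d44_d1e_d51_d21_d51_d1e_d51_d0f_d51_d00_d51_d05_d56_d09v1 : GoodKC AS c_wQ_26_wN_1_rb8033094424_d44_d1e_d51_d21_d51_d1e_d51_d0f_d51_d00_d51_d05_d56_d09v1 := p_wQ_26_wN_1_rb8033094424_d44_d1e_d51_d21_d51_d1e_d51_d0f_d51_d00_d51_d05_d56_d09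

theorem g_wQ_26_wN_1_rb8033094424_d44_d1e_d51_d21_d51_d1e_d51_d0f_d51_d00_d51_d05_d56_d0av1 : GoodKC AS c_wQ_26_wN_1_rb8033094424_d44_d1e_d51_d21_d51_d1e_d51_d0f_d51_d00_d51_d05_d56_d0av1 := p_wQ_26_wN_1_rb8033094424_d44_d1e_d51_d21_d51_d1e_d51_d0f_d51_d00_d51_d05_d56_d0a

theorem g_wQ_26_wN_1_rb8033094424_d44_d1e_d51_d21_d51_d1e_d51_d0f_d51_d00_d51_d05 : GoodKC AS c_wQ_26_wN_1_rb8033094424_d44_d1e_d51_d21_d51_d1e_d51_d0f_d51_d00_d51_d05 := p_wQ_26_wN_1_rb8033094424_d44_d1e_d51_d21_d51_d1e_d51_d0f_d51_d00_d51_d05v1 g_wQ_26_wN_1_rb8033094424_d44_d1e_d51_d21_d51_d1e_d51_d0f_d51_d00_d51_d05_d56_d0bv1 g_wQ_26_wN_1_rb8033094424_d44_d1e_d51_d21_d51_d1e_d51_d0f_d51_d00_d51_d05_d56_d08v1 g_wQ_26_wN_1_rb8033094424_d44_d1e_d51_d21_d51_d1e_d51_d0f_d51_d00_d51_d05_d56_d06v1 g_wQ_26_wN_1_rb8033094424_d44_d1e_d51_d21_d51_d1e_d51_d0f_d51_d00_d51_d05_d56_d05v1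 g_wQ_26_wN_1_rb8033094424_d44_d1e_d51_d21_d51_d1e_d51_d0f_d51_d00_d51_d05_d56_d02v1 g_wQ_26_wN_1_rb8033094424_d44_d1e_d51_d21_d51_d1e_d51_d0f_d51_d00_d51_d05_d56_d01v1 g_wQ_26_wN_1_rb8033094424_d44_d1e_d51_d21_d51_d1e_d51_d0f_d51_d00_d51_d05_d56_d00v1 g_wQ_26_wN_1_rb8033094424_d44_d1e_d51_d21_d51_d1e_d51_d0f_d51_d00_d51_d05_d56_d03v1 g_wQ_26_wN_1_rb8033094424_d44_d1e_d51_d21_d51_d1e_d51_d0f_d51_d00_d51_d05_d56_d04v1 g_wQ_26_wN_1_rb8033094424_d44_d1e_d51_d21_d51_d1e_d51_d0f_d51_d00_d51_d05_d56_d07v1 g_wQ_26_wN_1_rb8033094424_d44_d1e_d51_d21_d51_d1e_d51_d0f_d51_d00_d51_d05_d56_d09v1 g_wQ_26_wN_1_rb8033094424_d44_d1e_d51_d21_d51_d1e_d51_d0f_d51_d00_d51_d05_d56_d0av1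

theorem g__wQ_26_wN_1_rb8033094424_d44_d1e_d51_d21_d51_d1e_d51_d0f_d51_d00_d51_d06_4 : GoodKC AS k_wQ_26_wN_1_rb8033094424_d44_d1e_d51_d21_d51_d1e_d51_d0f_d51_d00_d51_d06_4 := p_wQ_26_wN_1_rb8033094424_d44_d1e_d51_d21_d51_d1e_d51_d0f_d51_d00_d51_d06_4

theorem g__wQ_26_wN_1_rb8033094424_d44_d1e_d51_d21_d51_d1e_d51_d0f_d51_d00_d51_d06_3 : GoodKC AS k_wQ_26_wN_1_rb8033094424_d44_d1e_d51_d21_d51_d1e_d51_d0f_d51_d00_d51_d06_3 := p_wQ_26_wN_1_rb8033094424_d44_d1e_d51_d21_d51_d1e_d51_d0f_d51_d00_d51_d06_3 g__wQ_26_wN_1_rb8033094424_d44_d1e_d51_d21_d51_d1e_d51_d0f_d51_d00_d51_d06_4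

theorem g__wQ_26_wN_1_rb8033094424_d44_d1e_d51_d21_d51_d1e_d51_d0f_d51_d00_d51_d06_2 : GoodKC AS k_wQ_26_wN_1_rb8033094424_d44_d1e_d51_d21_d51_d1e_d51_d0f_d51_d00_d51_d06_2 := p_wQ_26_wN_1_rb8033094424_d44_d1e_d51_d21_d51_d1e_d51_d0f_d51_d00_d51_d06_2 g__wQ_26_wN_1_rb8033094424_d44_d1e_d51_d21_d51_d1e_d51_d0f_d51_d00_d51_d06_3

theorem g__wQ_26_wN_1_rb8033094424_d44_d1e_d51_d21_d51_d1e_d51_d0f_d51_d00_d51_d06_1 : GoodKC AS k_wQ_26_wN_1_rb8033094424_d44_d1e_d51_d21_d51_d1e_d51_d0f_d51_d00_d51_d06_1 := p_wQ_26_wN_1_rb8033094424_d44_d1e_d51_d21_d51_d1e_d51_d0f_d51_d00_d51_d06_1 g__wQ_26_wN_1_rb8033094424_d44_d1e_d51_d21_d51_d1e_d51_d0f_d51_d00_d51_d06_2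

theorem g__wQ_26_wN_1_rb8033094424_d44_d1e_d51_d21_d51_d1e_d51_d0f_d51_d00_d51_d06_0 : GoodKC AS k_wQ_26_wN_1_rb8033094424_d44_d1e_d51_d21_d51_d1e_d51_d0f_d51_d00_d51_d06_0 := p_wQ_26_wN_1_rb8033094424_d44_d1e_d51_d21_d51_d1e_d51_d0f_d51_d00_d51_d06_0 g__wQ_26_wN_1_rb8033094424_d44_d1e_d51_d21_d51_d1e_d51_d0f_d51_d00_d51_d06_1

theorem g_wQ_26_wN_1_rb8033094424_d44_d1e_d51_d21_d51_d1e_d51_d0f_d51_d00_d51_d06 : GoodKC AS c_wQ_26_wN_1_rb8033094424_d44_d1e_d51_d21_d51_d1e_d51_d0f_d51_d00_d51_d06 := p_wQ_26_wN_1_rb8033094424_d44_d1e_d51_d21_d51_d1e_d51_d0f_d51_d00_d51_d06 g__wQ_26_wN_1_rb8033094424_d44_d1e_d51_d21_d51_d1e_d51_d0f_d51_d00_d51_d06_0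

theorem g_wQ_26_wN_1_rb8033094424_d44_d1e_d51_d21_d51_d1e_d51_d0f_d51_d00_d51_d07 : GoodKC AS c_wQ_26_wN_1_rb8033094424_d44_d1e_d51_d21_d51_d1e_d51_d0f_d51_d00_d51_d07 := p_wQ_26_wN_1_rb8033094424_d44_d1e_d51_d21_d51_d1e_d51_d0f_d51_d00_d51_d07

theorem g_wQ_26_wN_1_rb8033094424_d44_d1e_d51_d21_d51_d1e_d51_d0f_d51_d00_d51_d09 : GoodKC AS c_wQ_26_wN_1_rb8033094424_d44_d1e_d51_d21_d51_d1e_d51_d0f_d51_d00_d51_d09 := p_wQ_26_wN_1_rb8033094424_d44_d1e_d51_d21_d51_d1e_d51_d0f_d51_d00_d51_d09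

theorem g_wQ_26_wN_1_rb8033094424_d44_d1e_d51_d21_d51_d1e_d51_d0f_d51_d00_d51_d0b : GoodKC AS c_wQ_26_wN_1_rb8033094424_d44_d1e_d51_d21_d51_d1e_d51_d0f_d51_d00_d51_d0b := p_wQ_26_wN_1_rb8033094424_d44_d1e_d51_d21_d51_d1e_d51_d0f_d51_d00_d51_d0bv1

theorem g_wQ_26_wN_1_rb8033094424_d44_d1e_d51_d21_d51_d1e_d51_d0f_d51_d00_d51_d0d : GoodKC AS c_wQ_26_wN_1_rb8033094424_d44_d1e_d51_d21_d51_d1e_d51_d0f_d51_d00_d51_d0d := p_wQ_26_wN_1_rb8033094424_d44_d1e_d51_d21_d51_d1e_d51_d0f_d51_d00_d51_d0d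

theorem g_wQ_26_wN_1_rb8033094424_d44_d1e_d51_d21_d51_d1e_d51_d0f_d51_d00 : GoodKC AS c_wQ_26_wN_1_rb8033094424_d44_d1e_d51_d21_d51_d1e_d51_d0f_d51_d00 := p_wQ_26_wN_1_rb8033094424_d44_d1e_d51_d21_d51_d1e_d51_d0f_d51_d00 g_wQ_26_wN_1_rb8033094424_d44_d1e_d51_d21_d51_d1e_d51_d0f_d51_d00_d51_d0f g_wQ_26_wN_1_rb8033094424_d44_d1e_d51_d21_d51_d1e_d51_d0f_d51_d00_d51_d0e g_wQ_26_wN_1_rb8033094424_d44_d1e_d51_d21_d51_d1e_d51_d0f_d51_d00_d51_d0c g_wQ_26_wN_1_rb8033094424_d44_d1e_d51_d21_d51_d1e_d51_d0f_d51_d00_d51_d0a g_wQ_26_wN_1_rb8033094424_d44_d1e_d51_d21_d51_d1e_d51_d0f_d51_d00_d51_d08 g_wQ_26_wN_1_rb8033094424_d44_d1e_d51_d21_d51_d1e_d51_d0f_d51_d00_d51_d04 g_wQ_26_wN_1_rb8033094424_d44_d1e_d51_d21_d51_d1e_d51_d0f_d51_d00_d51_d03 g_wQ_26_wN_1_rb8033094424_d44_d1e_d51_d21_d51_d1e_d51_d0f_d51_d00_d51_d02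 g_wQ_26_wN_1_rb8033094424_d44_d1e_d51_d21_d51_d1e_d51_d0f_d51_d00_d51_d00 g_wQ_26_wN_1_rb8033094424_d44_d1e_d51_d21_d51_d1e_d51_d0f_d51_d00_d51_d01 g_wQ_26_wN_1_rb8033094424_d44_d1e_d51_d21_d51_d1e_d51_d0f_d51_d00_d51_d05 g_wQ_26_wN_1_rb8033094424_d44_d1e_d51_d21_d51_d1e_d51_d0f_d51_d00_d51_d06 g_wQ_26_wN_1_rb8033094424_d44_d1e_d51_d21_d51_d1e_d51_d0f_d51_d00_d51_d07 g_wQ_26_wN_1_rb8033094424_d44_d1e_d51_d21_d51_d1e_d51_d0f_d51_d00_d51_d09 g_wQ_26_wN_1_rb8033094424_d44_d1e_d51_d21_d51_d1e_d51_d0f_d51_d00_d51_d0b g_wQ_26_wN_1_rb8033094424_d44_d1e_d51_d21_d51_d1e_d51_d0f_d51_d00_d51_d0d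

theorem g_wQ_26_wN_1_rb8033094424_d44_d1e_d51_d21_d51_d1e_d51_d0f_d51_d01 : GoodKC AS c_wQ_26_wN_1_rb8033094424_d44_d1e_d51_d21_d51_d1e_d51_d0f_d51_d01 := p_wQ_26_wN_1_rb8033094424_d44_d1e_d51_d21_d51_d1e_d51_d0f_d51_d01

theorem g_wQ_26_wN_1_rb8033094424_d44_d1e_d51_d21_d51_d1e_d51_d0f_d51_d030cv1 : GoodKC AS c_wQ_26_wN_1_rb8033094424_d44_d1e_d51_d21_d51_d1e_d51_d0f_d51_d030cv1 := p_wQ_26_wN_1_rb8033094424_d44_d1e_d51_d21_d51_d1e_d51_d0f_d51_d030c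

theorem g_wQ_26_wN_1_rb8033094424_d44_d1e_d51_d21_d51_d1e_d51_d0f_d51_d0309v1 : GoodKC AS c_wQ_26_wN_1_rb8033094424_d44_d1e_d51_d21_d51_d1e_d51_d0f_d51_d0309v1 := p_wQ_26_wN_1_rb8033094424_d44_d1e_d51_d21_d51_d1e_d51_d0f_d51_d0309

theorem g_wQ_26_wN_1_rb8033094424_d44_d1e_d51_d21_d51_d1e_d51_d0f_d51_d0308v1 : GoodKC AS c_wQ_26_wN_1_rb8033094424_d44_d1e_d51_d21_d51_d1e_d51_d0f_d51_d0308v1 := p_wQ_26_wN_1_rb8033094424_d44_d1e_d51_d21_d51_d1e_d51_d0f_d51_d0308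

theorem g_wQ_26_wN_1_rb8033094424_d44_d1e_d51_d21_d51_d1e_d51_d0f_d51_d0306v1 : GoodKC AS c_wQ_26_wN_1_rb8033094424_d44_d1e_d51_d21_d51_d1e_d51_d0f_d51_d0306v1 := p_wQ_26_wN_1_rb8033094424_d44_d1e_d51_d21_d51_d1e_d51_d0f_d51_d0306

theorem g_wQ_26_wN_1_rb8033094424_d44_d1e_d51_d21_d51_d1e_d51_d0f_d51_d0304v1 : GoodKC AS c_wQ_26_wN_1_rb8033094424_d44_d1e_d51_d21_d51_d1e_d51_d0f_d51_d0304v1 := p_wQ_26_wN_1_rb8033094424_d44_d1e_d51_d21_d51_d1e_d51_d0f_d51_d0304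

theorem g_wQ_26_wN_1_rb8033094424_d44_d1e_d51_d21_d51_d1e_d51_d0f_d51_d0303v1 : GoodKC AS c_wQ_26_wN_1_rb8033094424_d44_d1e_d51_d21_d51_d1e_d51_d0f_d51_d0303v1 := p_wQ_26_wN_1_rb8033094424_d44_d1e_d51_d21_d51_d1e_d51_d0f_d51_d0303

theorem g_wQ_26_wN_1_rb8033094424_d44_d1e_d51_d21_d51_d1e_d51_d0f_d51_d0305v1 : GoodKC AS c_wQ_26_wN_1_rb8033094424_d44_d1e_d51_d21_d51_d1e_d51_d0f_d51_d0305v1 := p_wQ_26_wN_1_rb8033094424_d44_d1e_d51_d21_d51_d1e_d51_d0f_d51_d0305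

theorem g_wQ_26_wN_1_rb8033094424_d44_d1e_d51_d21_d51_d1e_d51_d0f_d51_d0307v1 : GoodKC AS c_wQ_26_wN_1_rb8033094424_d44_d1e_d51_d21_d51_d1e_d51_d0f_d51_d0307v1 := p_wQ_26_wN_1_rb8033094424_d44_d1e_d51_d21_d51_d1e_d51_d0f_d51_d0307

theorem g_wQ_26_wN_1_rb8033094424_d44_d1e_d51_d21_d51_d1e_d51_d0f_d51_d030av1 : GoodKC AS c_wQ_26_wN_1_rb8033094424_d44_d1e_d51_d21_d51_d1e_d51_d0f_d51_d030av1 := p_wQ_26_wN_1_rb8033094424_d44_d1e_d51_d21_d51_d1e_d51_d0f_d51_d030a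

theorem g_wQ_26_wN_1_rb8033094424_d44_d1e_d51_d21_d51_d1e_d51_d0f_d51_d030bv1 : GoodKC AS c_wQ_26_wN_1_rb8033094424_d44_d1e_d51_d21_d51_d1e_d51_d0f_d51_d030bv1 := p_wQ_26_wN_1_rb8033094424_d44_d1e_d51_d21_d51_d1e_d51_d0f_d51_d030b

theorem g_wQ_26_wN_1_rb8033094424_d44_d1e_d51_d21_d51_d1e_d51_d0f_d51_d030dv1 : GoodKC AS c_wQ_26_wN_1_rb8033094424_d44_d1e_d51_d21_d51_d1e_d51_d0f_d51_d030dv1 := p_wQ_26_wN_1_rb8033094424_d44_d1e_d51_d21_d51_d1e_d51_d0f_d51_d030d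

theorem g_wQ_26_wN_1_rb8033094424_d44_d1e_d51_d21_d51_d1e_d51_d0f_d51_d030ev1 : GoodKC AS c_wQ_26_wN_1_rb8033094424_d44_d1e_d51_d21_d51_d1e_d51_d0f_d51_d030ev1 := p_wQ_26_wN_1_rb8033094424_d44_d1e_d51_d21_d51_d1e_d51_d0f_d51_d030e

theorem g_wQ_26_wN_1_rb8033094424_d44_d1e_d51_d21_d51_d1e_d51_d0f_d51_d030fv1 : GoodKC AS c_wQ_26_wN_1_rb8033094424_d44_d1e_d51_d21_d51_d1e_d51_d0f_d51_d030fv1 := p_wQ_26_wN_1_rb8033094424_d44_d1e_d51_d21_d51_d1e_d51_d0f_d51_d030f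

theorem g_wQ_26_wN_1_rb8033094424_d44_d1e_d51_d21_d51_d1e_d51_d0f_d51_d0310v1 : GoodKC AS c_wQ_26_wN_1_rb8033094424_d44_d1e_d51_d21_d51_d1e_d51_d0f_d51_d0310v1 := p_wQ_26_wN_1_rb8033094424_d44_d1e_d51_d21_d51_d1e_d51_d0f_d51_d0310

theorem g_wQ_26_wN_1_rb8033094424_d44_d1e_d51_d21_d51_d1e_d51_d0f_d51_d0311v1 : GoodKC AS c_wQ_26_wN_1_rb8033094424_d44_d1e_d51_d21_d51_d1e_d51_d0f_d51_d0311v1 := p_wQ_26_wN_1_rb8033094424_d44_d1e_d51_d21_d51_d1e_d51_d0f_d51_d0311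

theorem g__wQ_26_wN_1_rb8033094424_d44_d1e_d51_d21_d51_d1e_d51_d0f_d51_d03v1_1 : GoodKC AS k_wQ_26_wN_1_rb8033094424_d44_d1e_d51_d21_d51_d1e_d51_d0f_d51_d03v1_1 := p_wQ_26_wN_1_rb8033094424_d44_d1e_d51_d21_d51_d1e_d51_d0f_d51_d03v1_1

theorem g__wQ_26_wN_1_rb8033094424_d44_d1e_d51_d21_d51_d1e_d51_d0f_d51_d03v1_6 : GoodKC AS k_wQ_26_wN_1_rb8033094424_d44_d1e_d51_d21_d51_d1e_d51_d0f_d51_d03v1_6 := p_wQ_26_wN_1_rb8033094424_d44_d1e_d51_d21_d51_d1e_d51_d0f_d51_d03v1_6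

theorem g__wQ_26_wN_1_rb8033094424_d44_d1e_d51_d21_d51_d1e_d51_d0f_d51_d03v1_7 : GoodKC AS k_wQ_26_wN_1_rb8033094424_d44_d1e_d51_d21_d51_d1e_d51_d0f_d51_d03v1_7 := p_wQ_26_wN_1_rb8033094424_d44_d1e_d51_d21_d51_d1e_d51_d0f_d51_d03v1_7

theorem g__wQ_26_wN_1_rb8033094424_d44_d1e_d51_d21_d51_d1e_d51_d0f_d51_d03v1_5 : GoodKC AS k_wQ_26_wN_1_rb8033094424_d44_d1e_d51_d21_d51_d1e_d51_d0f_d51_d03v1_5 := p_wQ_26_wN_1_rb8033094424_d44_d1e_d51_d21_d51_d1e_d51_d0f_d51_d03v1_5 g__wQ_26_wN_1_rb8033094424_d44_d1e_d51_d21_d51_d1e_d51_d0f_d51_d03v1_6 g__wQ_26_wN_1_rb8033094424_d44_d1e_d51_d21_d51_d1e_d51_d0f_d51_d03v1_7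

theorem g__wQ_26_wN_1_rb8033094424_d44_d1e_d51_d21_d51_d1e_d51_d0f_d51_d0302v1_0 : GoodKC AS k_wQ_26_wN_1_rb8033094424_d44_d1e_d51_d21_d51_d1e_d51_d0f_d51_d0302v1_0 := p_wQ_26_wN_1_rb8033094424_d44_d1e_d51_d21_d51_d1e_d51_d0f_d51_d0302v1_0

theorem g__wQ_26_wN_1_rb8033094424_d44_d1e_d51_d21_d51_d1e_d51_d0f_d51_d0302_d82_d00_0 : GoodKC AS k_wQ_26_wN_1_rb8033094424_d44_d1e_d51_d21_d51_d1e_d51_d0f_d51_d0302_d82_d00_0 := p_wQ_26_wN_1_rb8033094424_d44_d1e_d51_d21_d51_d1e_d51_d0f_d51_d0302_d82_d00_0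

theorem g_wQ_26_wN_1_rb8033094424_d44_d1e_d51_d21_d51_d1e_d51_d0f_d51_d0302_d82_d00v1 : GoodKC AS c_wQ_26_wN_1_rb8033094424_d44_d1e_d51_d21_d51_d1e_d51_d0f_d51_d0302_d82_d00v1 := p_wQ_26_wN_1_rb8033094424_d44_d1e_d51_d21_d51_d1e_d51_d0f_d51_d0302_d82_d00 g__wQ_26_wN_1_rb8033094424_d44_d1e_d51_d21_d51_d1e_d51_d0f_d51_d0302_d82_d00_0

theorem g__wQ_26_wN_1_rb8033094424_d44_d1e_d51_d21_d51_d1e_d51_d0f_d51_d0302v1_1 : GoodKC AS k_wQ_26_wN_1_rb8033094424_d44_d1e_d51_d21_d51_d1e_d51_d0f_d51_d0302v1_1 := p_wQ_26_wN_1_rb8033094424_d44_d1e_d51_d21_d51_d1e_d51_d0f_d51_d0302v1_1 g_wQ_26_wN_1_rb8033094424_d44_d1e_d51_d21_d51_d1e_d51_d0f_d51_d0302_d82_d00v1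

theorem g_wQ_26_wN_1_rb8033094424_d44_d1e_d51_d21_d51_d1e_d51_d0f_d51_d0302v1 : GoodKC AS c_wQ_26_wN_1_rb8033094424_d44_d1e_d51_d21_d51_d1e_d51_d0f_d51_d0302v1 := p_wQ_26_wN_1_rb8033094424_d44_d1e_d51_d21_d51_d1e_d51_d0f_d51_d0302v1 g__wQ_26_wN_1_rb8033094424_d44_d1e_d51_d21_d51_d1e_d51_d0f_d51_d0302v1_0 g__wQ_26_wN_1_rb8033094424_d44_d1e_d51_d21_d51_d1e_d51_d0f_d51_d0302v1_1

theorem g__wQ_26_wN_1_rb8033094424_d44_d1e_d51_d21_d51_d1e_d51_d0f_d51_d03v1_15 : GoodKC AS k_wQ_26_wN_1_rb8033094424_d44_d1e_d51_d21_d51_d1e_d51_d0f_d51_d03v1_15 := p_wQ_26_wN_1_rb8033094424_d44_d1e_d51_d21_d51_d1e_d51_d0f_d51_d03v1_15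

theorem g__wQ_26_wN_1_rb8033094424_d44_d1e_d51_d21_d51_d1e_d51_d0f_d51_d03v1_17 : GoodKC AS k_wQ_26_wN_1_rb8033094424_d44_d1e_d51_d21_d51_d1e_d51_d0f_d51_d03v1_17 := p_wQ_26_wN_1_rb8033094424_d44_d1e_d51_d21_d51_d1e_d51_d0f_d51_d03v1_17

theorem g__wQ_26_wN_1_rb8033094424_d44_d1e_d51_d21_d51_d1e_d51_d0f_d51_d0300_0 : GoodKC AS k_wQ_26_wN_1_rb8033094424_d44_d1e_d51_d21_d51_d1e_d51_d0f_d51_d0300_0 := p_wQ_26_wN_1_rb8033094424_d44_d1e_d51_d21_d51_d1e_d51_d0f_d51_d0300_0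

theorem g_wQ_26_wN_1_rb8033094424_d44_d1e_d51_d21_d51_d1e_d51_d0f_d51_d0300v1 : GoodKC AS c_wQ_26_wN_1_rb8033094424_d44_d1e_d51_d21_d51_d1e_d51_d0f_d51_d0300v1 := p_wQ_26_wN_1_rb8033094424_d44_d1e_d51_d21_d51_d1e_d51_d0f_d51_d0300 g__wQ_26_wN_1_rb8033094424_d44_d1e_d51_d21_d51_d1e_d51_d0f_d51_d0300_0

theorem g__wQ_26_wN_1_rb8033094424_d44_d1e_d51_d21_d51_d1e_d51_d0f_d51_d03v1_20 : GoodKC AS k_wQ_26_wN_1_rb8033094424_d44_d1e_d51_d21_d51_d1e_d51_d0f_d51_d03v1_20 := p_wQ_26_wN_1_rb8033094424_d44_d1e_d51_d21_d51_d1e_d51_d0f_d51_d03v1_20 g_wQ_26_wN_1_rb8033094424_d44_d1e_d51_d21_d51_d1e_d51_d0f_d51_d0300v1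

theorem g__wQ_26_wN_1_rb8033094424_d44_d1e_d51_d21_d51_d1e_d51_d0f_d51_d03v1_19 : GoodKC AS k_wQ_26_wN_1_rb8033094424_d44_d1e_d51_d21_d51_d1e_d51_d0f_d51_d03v1_19 := p_wQ_26_wN_1_rb8033094424_d44_d1e_d51_d21_d51_d1e_d51_d0f_d51_d03v1_19 g__wQ_26_wN_1_rb8033094424_d44_d1e_d51_d21_d51_d1e_d51_d0f_d51_d03v1_20

theorem g__wQ_26_wN_1_rb8033094424_d44_d1e_d51_d21_d51_d1e_d51_d0f_d51_d03v1_18 : GoodKC AS k_wQ_26_wN_1_rb8033094424_d44_d1e_d51_d21_d51_d1e_d51_d0f_d51_d03v1_18 := p_wQ_26_wN_1_rb8033094424_d44_d1e_d51_d21_d51_d1e_d51_d0f_d51_d03v1_18 g__wQ_26_wN_1_rb8033094424_d44_d1e_d51_d21_d51_d1e_d51_d0f_d51_d03v1_19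

theorem g__wQ_26_wN_1_rb8033094424_d44_d1e_d51_d21_d51_d1e_d51_d0f_d51_d03v1_16 : GoodKC AS k_wQ_26_wN_1_rb8033094424_d44_d1e_d51_d21_d51_d1e_d51_d0f_d51_d03v1_16 := p_wQ_26_wN_1_rb8033094424_d44_d1e_d51_d21_d51_d1e_d51_d0f_d51_d03v1_16 g__wQ_26_wN_1_rb8033094424_d44_d1e_d51_d21_d51_d1e_d51_d0f_d51_d03v1_17 g__wQ_26_wN_1_rb8033094424_d44_d1e_d51_d21_d51_d1e_d51_d0f_d51_d03v1_18

theorem g__wQ_26_wN_1_rb8033094424_d44_d1e_d51_d21_d51_d1e_d51_d0f_d51_d03v1_14 : GoodKC AS k_wQ_26_wN_1_rb8033094424_d44_d1e_d51_d21_d51_d1e_d51_d0f_d51_d03v1_14 := p_wQ_26_wN_1_rb8033094424_d44_d1e_d51_d21_d51_d1e_d51_d0f_d51_d03v1_14 g__wQ_26_wN_1_rb8033094424_d44_d1e_d51_d21_d51_d1e_d51_d0f_d51_d03v1_15 g__wQ_26_wN_1_rb8033094424_d44_d1e_d51_d21_d51_d1e_d51_d0f_d51_d03v1_16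

theorem g__wQ_26_wN_1_rb8033094424_d44_d1e_d51_d21_d51_d1e_d51_d0f_d51_d0301v1_0 : GoodKC AS k_wQ_26_wN_1_rb8033094424_d44_d1e_d51_d21_d51_d1e_d51_d0f_d51_d0301v1_0 := p_wQ_26_wN_1_rb8033094424_d44_d1e_d51_d21_d51_d1e_d51_d0f_d51_d0301v1_0

theorem g__wQ_26_wN_1_rb8033094424_d44_d1e_d51_d21_d51_d1e_d51_d0f_d51_d0301v1_1 : GoodKC AS k_wQ_26_wN_1_rb8033094424_d44_d1e_d51_d21_d51_d1e_d51_d0f_d51_d0301v1_1 := p_wQ_26_wN_1_rb8033094424_d44_d1e_d51_d21_d51_d1e_d51_d0f_d51_d0301v1_1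

theorem g_wQ_26_wN_1_rb8033094424_d44_d1e_d51_d21_d51_d1e_d51_d0f_d51_d0301v1 : GoodKC AS c_wQ_26_wN_1_rb8033094424_d44_d1e_d51_d21_d51_d1e_d51_d0f_d51_d0301v1 := p_wQ_26_wN_1_rb8033094424_d44_d1e_d51_d21_d51_d1e_d51_d0f_d51_d0301v1 g__wQ_26_wN_1_rb8033094424_d44_d1e_d51_d21_d51_d1e_d51_d0f_d51_d0301v1_0 g__wQ_26_wN_1_rb8033094424_d44_d1e_d51_d21_d51_d1e_d51_d0f_d51_d0301v1_1

theorem g__wQ_26_wN_1_rb8033094424_d44_d1e_d51_d21_d51_d1e_d51_d0f_d51_d03v1_13 : GoodKC AS k_wQ_26_wN_1_rb8033094424_d44_d1e_d51_d21_d51_d1e_d51_d0f_d51_d03v1_13 := p_wQ_26_wN_1_rb8033094424_d44_d1e_d51_d21_d51_d1e_d51_d0f_d51_d03v1_13 g_wQ_26_wN_1_rb8033094424_d44_d1e_d51_d21_d51_d1e_d51_d0f_d51_d0302v1 g__wQ_26_wN_1_rb8033094424_d44_d1e_d51_d21_d51_d1e_d51_d0f_d51_d03v1_14 g_wQ_26_wN_1_rb8033094424_d44_d1e_d51_d21_d51_d1e_d51_d0f_d51_d0301v1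

theorem g__wQ_26_wN_1_rb8033094424_d44_d1e_d51_d21_d51_d1e_d51_d0f_d51_d03v1_12 : GoodKC AS k_wQ_26_wN_1_rb8033094424_d44_d1e_d51_d21_d51_d1e_d51_d0f_d51_d03v1_12 := p_wQ_26_wN_1_rb8033094424_d44_d1e_d51_d21_d51_d1e_d51_d0f_d51_d03v1_12 g__wQ_26_wN_1_rb8033094424_d44_d1e_d51_d21_d51_d1e_d51_d0f_d51_d03v1_13

theorem g__wQ_26_wN_1_rb8033094424_d44_d1e_d51_d21_d51_d1e_d51_d0f_d51_d03v1_11 : GoodKC AS k_wQ_26_wN_1_rb8033094424_d44_d1e_d51_d21_d51_d1e_d51_d0f_d51_d03v1_11 := p_wQ_26_wN_1_rb8033094424_d44_d1e_d51_d21_d51_d1e_d51_d0f_d51_d03v1_11 g__wQ_26_wN_1_rb8033094424_d44_d1e_d51_d21_d51_d1e_d51_d0f_d51_d03v1_12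

theorem g__wQ_26_wN_1_rb8033094424_d44_d1e_d51_d21_d51_d1e_d51_d0f_d51_d03v1_10 : GoodKC AS k_wQ_26_wN_1_rb8033094424_d44_d1e_d51_d21_d51_d1e_d51_d0f_d51_d03v1_10 := p_wQ_26_wN_1_rb8033094424_d44_d1e_d51_d21_d51_d1e_d51_d0f_d51_d03v1_10 g__wQ_26_wN_1_rb8033094424_d44_d1e_d51_d21_d51_d1e_d51_d0f_d51_d03v1_11

theorem g__wQ_26_wN_1_rb8033094424_d44_d1e_d51_d21_d51_d1e_d51_d0f_d51_d03v1_9 : GoodKC AS k_wQ_26_wN_1_rb8033094424_d44_d1e_d51_d21_d51_d1e_d51_d0f_d51_d03v1_9 := p_wQ_26_wN_1_rb8033094424_d44_d1e_d51_d21_d51_d1e_d51_d0f_d51_d03v1_9 g__wQ_26_wN_1_rb8033094424_d44_d1e_d51_d21_d51_d1e_d51_d0f_d51_d03v1_10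

theorem g__wQ_26_wN_1_rb8033094424_d44_d1e_d51_d21_d51_d1e_d51_d0f_d51_d03v1_8 : GoodKC AS k_wQ_26_wN_1_rb8033094424_d44_d1e_d51_d21_d51_d1e_d51_d0f_d51_d03v1_8 := p_wQ_26_wN_1_rb8033094424_d44_d1e_d51_d21_d51_d1e_d51_d0f_d51_d03v1_8 g__wQ_26_wN_1_rb8033094424_d44_d1e_d51_d21_d51_d1e_d51_d0f_d51_d03v1_9

theorem g__wQ_26_wN_1_rb8033094424_d44_d1e_d51_d21_d51_d1e_d51_d0f_d51_d03v1_4 : GoodKC AS k_wQ_26_wN_1_rb8033094424_d44_d1e_d51_d21_d51_d1e_d51_d0f_d51_d03v1_4 := p_wQ_26_wN_1_rb8033094424_d44_d1e_d51_d21_d51_d1e_d51_d0f_d51_d03v1_4 g__wQ_26_wN_1_rb8033094424_d44_d1e_d51_d21_d51_d1e_d51_d0f_d51_d03v1_5 g__wQ_26_wN_1_rb8033094424_d44_d1e_d51_d21_d51_d1e_d51_d0f_d51_d03v1_8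

theorem g__wQ_26_wN_1_rb8033094424_d44_d1e_d51_d21_d51_d1e_d51_d0f_d51_d03v1_3 : GoodKC AS k_wQ_26_wN_1_rb8033094424_d44_d1e_d51_d21_d51_d1e_d51_d0f_d51_d03v1_3 := p_wQ_26_wN_1_rb8033094424_d44_d1e_d51_d21_d51_d1e_d51_d0f_d51_d03v1_3 g__wQ_26_wN_1_rb8033094424_d44_d1e_d51_d21_d51_d1e_d51_d0f_d51_d03v1_4

theorem g__wQ_26_wN_1_rb8033094424_d44_d1e_d51_d21_d51_d1e_d51_d0f_d51_d03v1_2 : GoodKC AS k_wQ_26_wN_1_rb8033094424_d44_d1e_d51_d21_d51_d1e_d51_d0f_d51_d03v1_2 := p_wQ_26_wN_1_rb8033094424_d44_d1e_d51_d21_d51_d1e_d51_d0f_d51_d03v1_2 g__wQ_26_wN_1_rb8033094424_d44_d1e_d51_d21_d51_d1e_d51_d0f_d51_d03v1_3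

theorem g__wQ_26_wN_1_rb8033094424_d44_d1e_d51_d21_d51_d1e_d51_d0f_d51_d03v1_0 : GoodKC AS k_wQ_26_wN_1_rb8033094424_d44_d1e_d51_d21_d51_d1e_d51_d0f_d51_d03v1_0 := p_wQ_26_wN_1_rb8033094424_d44_d1e_d51_d21_d51_d1e_d51_d0f_d51_d03v1_0 g__wQ_26_wN_1_rb8033094424_d44_d1e_d51_d21_d51_d1e_d51_d0f_d51_d03v1_1 g__wQ_26_wN_1_rb8033094424_d44_d1e_d51_d21_d51_d1e_d51_d0f_d51_d03v1_2

theorem g_wQ_26_wN_1_rb8033094424_d44_d1e_d51_d21_d51_d1e_d51_d0f_d51_d03 : GoodKC AS c_wQ_26_wN_1_rb8033094424_d44_d1e_d51_d21_d51_d1e_d51_d0f_d51_d03 := p_wQ_26_wN_1_rb8033094424_d44_d1e_d51_d21_d51_d1e_d51_d0f_d51_d03v1 g_wQ_26_wN_1_rb8033094424_d44_d1e_d51_d21_d51_d1e_d51_d0f_d51_d030cv1 g_wQ_26_wN_1_rb8033094424_d44_d1e_d51_d21_d51_d1e_d51_d0f_d51_d0309v1 g_wQ_26_wN_1_rb8033094424_d44_d1e_d51_d21_d51_d1e_d51_d0f_d51_d0308v1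 g_wQ_26_wN_1_rb8033094424_d44_d1e_d51_d21_d51_d1e_d51_d0f_d51_d0306v1 g_wQ_26_wN_1_rb8033094424_d44_d1e_d51_d21_d51_d1e_d51_d0f_d51_d0304v1 g_wQ_26_wN_1_rb8033094424_d44_d1e_d51_d21_d51_d1e_d51_d0f_d51_d0303v1 g_wQ_26_wN_1_rb8033094424_d44_d1e_d51_d21_d51_d1e_d51_d0f_d51_d0305v1 g_wQ_26_wN_1_rb8033094424_d44_d1e_d51_d21_d51_d1e_d51_d0f_d51_d0307v1 g_wQ_26_wN_1_rb8033094424_d44_d1e_d51_d21_d51_d1e_d51_d0f_d51_d030av1 g_wQ_26_wN_1_rb8033094424_d44_d1e_d51_d21_d51_d1e_d51_d0f_d51_d030bv1 g_wQ_26_wN_1_rb8033094424_d44_d1e_d51_d21_d51_d1e_d51_d0f_d51_d030dv1 g_wQ_26_wN_1_rb8033094424_d44_d1e_d51_d21_d51_d1e_d51_d0f_d51_d030ev1 g_wQ_26_wN_1_rb8033094424_d44_d1e_d51_d21_d51_d1e_d51_d0f_d51_d030fv1 g_wQ_26_wN_1_rb8033094424_d44_d1e_d51_d21_d51_d1e_d51_d0f_d51_d0310v1 g_wQ_26_wN_1_rb8033094424_d44_d1e_d51_d21_d51_d1e_d51_d0f_d51_d0311v1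 g__wQ_26_wN_1_rb8033094424_d44_d1e_d51_d21_d51_d1e_d51_d0f_d51_d03v1_0

theorem g_wQ_26_wN_1_rb8033094424_d44_d1e_d51_d21_d51_d1e_d51_d0f_d51_d07 : GoodKC AS c_wQ_26_wN_1_rb8033094424_d44_d1e_d51_d21_d51_d1e_d51_d0f_d51_d07 := p_wQ_26_wN_1_rb8033094424_d44_d1e_d51_d21_d51_d1e_d51_d0f_d51_d07

theorem g_wQ_26_wN_1_rb8033094424_d44_d1e_d51_d21_d51_d1e_d51_d0f_d51_d0a : GoodKC AS c_wQ_26_wN_1_rb8033094424_d44_d1e_d51_d21_d51_d1e_d51_d0f_d51_d0a := p_wQ_26_wN_1_rb8033094424_d44_d1e_d51_d21_d51_d1e_d51_d0f_d51_d0a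

theorem g_wQ_26_wN_1_rb8033094424_d44_d1e_d51_d21_d51_d1e_d51_d0f_d51_d0b : GoodKC AS c_wQ_26_wN_1_rb8033094424_d44_d1e_d51_d21_d51_d1e_d51_d0f_d51_d0b := p_wQ_26_wN_1_rb8033094424_d44_d1e_d51_d21_d51_d1e_d51_d0f_d51_d0b

theorem g_wQ_26_wN_1_rb8033094424_d44_d1e_d51_d21_d51_d1e_d51_d0f_d51_d0c : GoodKC AS c_wQ_26_wN_1_rb8033094424_d44_d1e_d51_d21_d51_d1e_d51_d0f_d51_d0c := p_wQ_26_wN_1_rb8033094424_d44_d1e_d51_d21_d51_d1e_d51_d0f_d51_d0c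

theorem g_wQ_26_wN_1_rb8033094424_d44_d1e_d51_d21_d51_d1e_d51_d0f_d51_d17 : GoodKC AS c_wQ_26_wN_1_rb8033094424_d44_d1e_d51_d21_d51_d1e_d51_d0f_d51_d17 := p_wQ_26_wN_1_rb8033094424_d44_d1e_d51_d21_d51_d1e_d51_d0f_d51_d17

theorem g_wQ_26_wN_1_rb8033094424_d44_d1e_d51_d21_d51_d1e_d51_d0f_d51_d18 : GoodKC AS c_wQ_26_wN_1_rb8033094424_d44_d1e_d51_d21_d51_d1e_d51_d0f_d51_d18 := p_wQ_26_wN_1_rb8033094424_d44_d1e_d51_d21_d51_d1e_d51_d0f_d51_d18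

theorem g__wQ_26_wN_1_rb8033094424_d44_d1e_d51_d21_d51_d1e_d51_d0f_d51_d19v1_2 : GoodKC AS k_wQ_26_wN_1_rb8033094424_d44_d1e_d51_d21_d51_d1e_d51_d0f_d51_d19v1_2 := p_wQ_26_wN_1_rb8033094424_d44_d1e_d51_d21_d51_d1e_d51_d0f_d51_d19v1_2

theorem g__wQ_26_wN_1_rb8033094424_d44_d1e_d51_d21_d51_d1e_d51_d0f_d51_d19v1_4 : GoodKC AS k_wQ_26_wN_1_rb8033094424_d44_d1e_d51_d21_d51_d1e_d51_d0f_d51_d19v1_4 := p_wQ_26_wN_1_rb8033094424_d44_d1e_d51_d21_d51_d1e_d51_d0f_d51_d19v1_4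

theorem g__wQ_26_wN_1_rb8033094424_d44_d1e_d51_d21_d51_d1e_d51_d0f_d51_d19v1_3 : GoodKC AS k_wQ_26_wN_1_rb8033094424_d44_d1e_d51_d21_d51_d1e_d51_d0f_d51_d19v1_3 := p_wQ_26_wN_1_rb8033094424_d44_d1e_d51_d21_d51_d1e_d51_d0f_d51_d19v1_3 g__wQ_26_wN_1_rb8033094424_d44_d1e_d51_d21_d51_d1e_d51_d0f_d51_d19v1_4

theorem g__wQ_26_wN_1_rb8033094424_d44_d1e_d51_d21_d51_d1e_d51_d0f_d51_d19v1_1 : GoodKC AS k_wQ_26_wN_1_rb8033094424_d44_d1e_d51_d21_d51_d1e_d51_d0f_d51_d19v1_1 := p_wQ_26_wN_1_rb8033094424_d44_d1e_d51_d21_d51_d1e_d51_d0f_d51_d19v1_1 g__wQ_26_wN_1_rb8033094424_d44_d1e_d51_d21_d51_d1e_d51_d0f_d51_d19v1_2 g__wQ_26_wN_1_rb8033094424_d44_d1e_d51_d21_d51_d1e_d51_d0f_d51_d19v1_3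

theorem g__wQ_26_wN_1_rb8033094424_d44_d1e_d51_d21_d51_d1e_d51_d0f_d51_d19v1_0 : GoodKC AS k_wQ_26_wN_1_rb8033094424_d44_d1e_d51_d21_d51_d1e_d51_d0f_d51_d19v1_0 := p_wQ_26_wN_1_rb8033094424_d44_d1e_d51_d21_d51_d1e_d51_d0f_d51_d19v1_0 g__wQ_26_wN_1_rb8033094424_d44_d1e_d51_d21_d51_d1e_d51_d0f_d51_d19v1_1

theorem g__wQ_26_wN_1_rb8033094424_d44_d1e_d51_d21_d51_d1e_d51_d0f_d51_d19v1_6 : GoodKC AS k_wQ_26_wN_1_rb8033094424_d44_d1e_d51_d21_d51_d1e_d51_d0f_d51_d19v1_6 := p_wQ_26_wN_1_rb8033094424_d44_d1e_d51_d21_d51_d1e_d51_d0f_d51_d19v1_6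

theorem g__wQ_26_wN_1_rb8033094424_d44_d1e_d51_d21_d51_d1e_d51_d0f_d51_d19v1_5 : GoodKC AS k_wQ_26_wN_1_rb8033094424_d44_d1e_d51_d21_d51_d1e_d51_d0f_d51_d19v1_5 := p_wQ_26_wN_1_rb8033094424_d44_d1e_d51_d21_d51_d1e_d51_d0f_d51_d19v1_5 g__wQ_26_wN_1_rb8033094424_d44_d1e_d51_d21_d51_d1e_d51_d0f_d51_d19v1_6

theorem g__wQ_26_wN_1_rb8033094424_d44_d1e_d51_d21_d51_d1e_d51_d0f_d51_d19v1_7 : GoodKC AS k_wQ_26_wN_1_rb8033094424_d44_d1e_d51_d21_d51_d1e_d51_d0f_d51_d19v1_7 := p_wQ_26_wN_1_rb8033094424_d44_d1e_d51_d21_d51_d1e_d51_d0f_d51_d19v1_7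

theorem g_wQ_26_wN_1_rb8033094424_d44_d1e_d51_d21_d51_d1e_d51_d0f_d51_d19 : GoodKC AS c_wQ_26_wN_1_rb8033094424_d44_d1e_d51_d21_d51_d1e_d51_d0f_d51_d19 := p_wQ_26_wN_1_rb8033094424_d44_d1e_d51_d21_d51_d1e_d51_d0f_d51_d19v1 g__wQ_26_wN_1_rb8033094424_d44_d1e_d51_d21_d51_d1e_d51_d0f_d51_d19v1_0 g__wQ_26_wN_1_rb8033094424_d44_d1e_d51_d21_d51_d1e_d51_d0f_d51_d19v1_5 g__wQ_26_wN_1_rb8033094424_d44_d1e_d51_d21_d51_d1e_d51_d0f_d51_d19v1_7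

theorem g_wQ_26_wN_1_rb8033094424_d44_d1e_d51_d21_d51_d1e_d51_d0f : GoodKC AS c_wQ_26_wN_1_rb8033094424_d44_d1e_d51_d21_d51_d1e_d51_d0f := p_wQ_26_wN_1_rb8033094424_d44_d1e_d51_d21_d51_d1e_d51_d0f g_wQ_26_wN_1_rb8033094424_d44_d1e_d51_d21_d51_d1e_d51_d0f_d51_d16 g_wQ_26_wN_1_rb8033094424_d44_d1e_d51_d21_d51_d1e_d51_d0f_d51_d15 g_wQ_26_wN_1_rb8033094424_d44_d1e_d51_d21_d51_d1e_d51_d0f_d51_d14 g_wQ_26_wN_1_rb8033094424_d44_d1e_d51_d21_d51_d1e_d51_d0f_d51_d13 g_wQ_26_wN_1_rb8033094424_d44_d1e_d51_d21_d51_d1e_d51_d0f_d51_d12 g_wQ_26_wN_1_rb8033094424_d44_d1e_d51_d21_d51_d1e_d51_d0f_d51_d11 g_wQ_26_wN_1_rb8033094424_d44_d1e_d51_d21_d51_d1e_d51_d0f_d51_d10 g_wQ_26_wN_1_rb8033094424_d44_d1e_d51_d21_d51_d1e_d51_d0f_d51_d0f g_wQ_26_wN_1_rb8033094424_d44_d1e_d51_d21_d51_d1e_d51_d0f_d51_d0e g_wQ_26_wN_1_rb8033094424_d44_d1e_d51_d21_d51_d1e_d51_d0f_d51_d0d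 g_wQ_26_wN_1_rb8033094424_d44_d1e_d51_d21_d51_d1e_d51_d0f_d51_d09 g_wQ_26_wN_1_rb8033094424_d44_d1e_d51_d21_d51_d1e_d51_d0f_d51_d08 g_wQ_26_wN_1_rb8033094424_d44_d1e_d51_d21_d51_d1e_d51_d0f_d51_d06 g_wQ_26_wN_1_rb8033094424_d44_d1e_d51_d21_d51_d1e_d51_d0f_d51_d05 g_wQ_26_wN_1_rb8033094424_d44_d1e_d51_d21_d51_d1e_d51_d0f_d51_d04 g_wQ_26_wN_1_rb8033094424_d44_d1e_d51_d21_d51_d1e_d51_d0f_d51_d02 g_wQ_26_wN_1_rb8033094424_d44_d1e_d51_d21_d51_d1e_d51_d0f_d51_d00 g_wQ_26_wN_1_rb8033094424_d44_d1e_d51_d21_d51_d1e_d51_d0f_d51_d01 g_wQ_26_wN_1_rb8033094424_d44_d1e_d51_d21_d51_d1e_d51_d0f_d51_d03 g_wQ_26_wN_1_rb8033094424_d44_d1e_d51_d21_d51_d1e_d51_d0f_d51_d07 g_wQ_26_wN_1_rb8033094424_d44_d1e_d51_d21_d51_d1e_d51_d0f_d51_d0a g_wQ_26_wN_1_rb8033094424_d44_d1e_d51_d21_d51_d1e_d51_d0f_d51_d0b g_wQ_26_wN_1_rb8033094424_d44_d1e_d51_d21_d51_d1e_d51_d0f_d51_d0c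 g_wQ_26_wN_1_rb8033094424_d44_d1e_d51_d21_d51_d1e_d51_d0f_d51_d17 g_wQ_26_wN_1_rb8033094424_d44_d1e_d51_d21_d51_d1e_d51_d0f_d51_d18 g_wQ_26_wN_1_rb8033094424_d44_d1e_d51_d21_d51_d1e_d51_d0f_d51_d19

theorem g_wQ_26_wN_1_rb8033094424_d44_d1e_d51_d21_d51_d1e_d51_d0e : GoodKC AS c_wQ_26_wN_1_rb8033094424_d44_d1e_d51_d21_d51_d1e_d51_d0e := p_wQ_26_wN_1_rb8033094424_d44_d1e_d51_d21_d51_d1e_d51_d0e

theorem g_wQ_26_wN_1_rb8033094424_d44_d1e_d51_d21_d51_d1e_d51_d0c : GoodKC AS c_wQ_26_wN_1_rb8033094424_d44_d1e_d51_d21_d51_d1e_d51_d0c := p_wQ_26_wN_1_rb8033094424_d44_d1e_d51_d21_d51_d1e_d51_d0c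

theorem g_wQ_26_wN_1_rb8033094424_d44_d1e_d51_d21_d51_d1e_d51_d08 : GoodKC AS c_wQ_26_wN_1_rb8033094424_d44_d1e_d51_d21_d51_d1e_d51_d08 := p_wQ_26_wN_1_rb8033094424_d44_d1e_d51_d21_d51_d1e_d51_d08

theorem g__wQ_26_wN_1_rb8033094424_d44_d1e_d51_d21_d51_d1e_d51_d07_1 : GoodKC AS k_wQ_26_wN_1_rb8033094424_d44_d1e_d51_d21_d51_d1e_d51_d07_1 := p_wQ_26_wN_1_rb8033094424_d44_d1e_d51_d21_d51_d1e_d51_d07_1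

theorem g__wQ_26_wN_1_rb8033094424_d44_d1e_d51_d21_d51_d1e_d51_d07_3 : GoodKC AS k_wQ_26_wN_1_rb8033094424_d44_d1e_d51_d21_d51_d1e_d51_d07_3 := p_wQ_26_wN_1_rb8033094424_d44_d1e_d51_d21_d51_d1e_d51_d07_3

theorem g__wQ_26_wN_1_rb8033094424_d44_d1e_d51_d21_d51_d1e_d51_d07_2 : GoodKC AS k_wQ_26_wN_1_rb8033094424_d44_d1e_d51_d21_d51_d1e_d51_d07_2 := p_wQ_26_wN_1_rb8033094424_d44_d1e_d51_d21_d51_d1e_d51_d07_2 g__wQ_26_wN_1_rb8033094424_d44_d1e_d51_d21_d51_d1e_d51_d07_3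

theorem g__wQ_26_wN_1_rb8033094424_d44_d1e_d51_d21_d51_d1e_d51_d07_0 : GoodKC AS k_wQ_26_wN_1_rb8033094424_d44_d1e_d51_d21_d51_d1e_d51_d07_0 := p_wQ_26_wN_1_rb8033094424_d44_d1e_d51_d21_d51_d1e_d51_d07_0 g__wQ_26_wN_1_rb8033094424_d44_d1e_d51_d21_d51_d1e_d51_d07_1 g__wQ_26_wN_1_rb8033094424_d44_d1e_d51_d21_d51_d1e_d51_d07_2

theorem g_wQ_26_wN_1_rb8033094424_d44_d1e_d51_d21_d51_d1e_d51_d07 : GoodKC AS c_wQ_26_wN_1_rb8033094424_d44_d1e_d51_d21_d51_d1e_d51_d07 := p_wQ_26_wN_1_rb8033094424_d44_d1e_d51_d21_d51_d1e_d51_d07 g__wQ_26_wN_1_rb8033094424_d44_d1e_d51_d21_d51_d1e_d51_d07_0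

theorem g_wQ_26_wN_1_rb8033094424_d44_d1e_d51_d21_d51_d1e_d51_d05 : GoodKC AS c_wQ_26_wN_1_rb8033094424_d44_d1e_d51_d21_d51_d1e_d51_d05 := p_wQ_26_wN_1_rb8033094424_d44_d1e_d51_d21_d51_d1e_d51_d05

theorem g_wQ_26_wN_1_rb8033094424_d44_d1e_d51_d21_d51_d1e_d51_d04 : GoodKC AS c_wQ_26_wN_1_rb8033094424_d44_d1e_d51_d21_d51_d1e_d51_d04 := p_wQ_26_wN_1_rb8033094424_d44_d1e_d51_d21_d51_d1e_d51_d04

theorem g_wQ_26_wN_1_rb8033094424_d44_d1e_d51_d21_d51_d1e_d51_d03 : GoodKC AS c_wQ_26_wN_1_rb8033094424_d44_d1e_d51_d21_d51_d1e_d51_d03 := p_wQ_26_wN_1_rb8033094424_d44_d1e_d51_d21_d51_d1e_d51_d03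

theorem g_wQ_26_wN_1_rb8033094424_d44_d1e_d51_d21_d51_d1e_d51_d02 : GoodKC AS c_wQ_26_wN_1_rb8033094424_d44_d1e_d51_d21_d51_d1e_d51_d02 := p_wQ_26_wN_1_rb8033094424_d44_d1e_d51_d21_d51_d1e_d51_d02

theorem g_wQ_26_wN_1_rb8033094424_d44_d1e_d51_d21_d51_d1e_d51_d00 : GoodKC AS c_wQ_26_wN_1_rb8033094424_d44_d1e_d51_d21_d51_d1e_d51_d00 := p_wQ_26_wN_1_rb8033094424_d44_d1e_d51_d21_d51_d1e_d51_d00

theorem g_wQ_26_wN_1_rb8033094424_d44_d1e_d51_d21_d51_d1e_d51_d01 : GoodKC AS c_wQ_26_wN_1_rb8033094424_d44_d1e_d51_d21_d51_d1e_d51_d01 := p_wQ_26_wN_1_rb8033094424_d44_d1e_d51_d21_d51_d1e_d51_d01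

theorem g__wQ_26_wN_1_rb8033094424_d44_d1e_d51_d21_d51_d1e_1 : GoodKC AS k_wQ_26_wN_1_rb8033094424_d44_d1e_d51_d21_d51_d1e_1 := p_wQ_26_wN_1_rb8033094424_d44_d1e_d51_d21_d51_d1e_1

theorem g__wQ_26_wN_1_rb8033094424_d44_d1e_d51_d21_d51_d1e_0 : GoodKC AS k_wQ_26_wN_1_rb8033094424_d44_d1e_d51_d21_d51_d1e_0 := p_wQ_26_wN_1_rb8033094424_d44_d1e_d51_d21_d51_d1e_0 g__wQ_26_wN_1_rb8033094424_d44_d1e_d51_d21_d51_d1e_1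

theorem g_wQ_26_wN_1_rb8033094424_d44_d1e_d51_d21_d51_d1e_d51_d06 : GoodKC AS c_wQ_26_wN_1_rb8033094424_d44_d1e_d51_d21_d51_d1e_d51_d06 := p_wQ_26_wN_1_rb8033094424_d44_d1e_d51_d21_d51_d1e_d51_d06

theorem g__wQ_26_wN_1_rb8033094424_d44_d1e_d51_d21_d51_d1e_d51_d09_0 : GoodKC AS k_wQ_26_wN_1_rb8033094424_d44_d1e_d51_d21_d51_d1e_d51_d09_0 := p_wQ_26_wN_1_rb8033094424_d44_d1e_d51_d21_d51_d1e_d51_d09_0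

theorem g_wQ_26_wN_1_rb8033094424_d44_d1e_d51_d21_d51_d1e_d51_d09 : GoodKC AS c_wQ_26_wN_1_rb8033094424_d44_d1e_d51_d21_d51_d1e_d51_d09 := p_wQ_26_wN_1_rb8033094424_d44_d1e_d51_d21_d51_d1e_d51_d09 g__wQ_26_wN_1_rb8033094424_d44_d1e_d51_d21_d51_d1e_d51_d09_0

theorem g__wQ_26_wN_1_rb8033094424_d44_d1e_d51_d21_d51_d1e_d51_d0a_1 : GoodKC AS k_wQ_26_wN_1_rb8033094424_d44_d1e_d51_d21_d51_d1e_d51_d0a_1 := p_wQ_26_wN_1_rb8033094424_d44_d1e_d51_d21_d51_d1e_d51_d0a_1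

theorem g__wQ_26_wN_1_rb8033094424_d44_d1e_d51_d21_d51_d1e_d51_d0a_0 : GoodKC AS k_wQ_26_wN_1_rb8033094424_d44_d1e_d51_d21_d51_d1e_d51_d0a_0 := p_wQ_26_wN_1_rb8033094424_d44_d1e_d51_d21_d51_d1e_d51_d0a_0 g__wQ_26_wN_1_rb8033094424_d44_d1e_d51_d21_d51_d1e_d51_d0a_1

theorem g_wQ_26_wN_1_rb8033094424_d44_d1e_d51_d21_d51_d1e_d51_d0a : GoodKC AS c_wQ_26_wN_1_rb8033094424_d44_d1e_d51_d21_d51_d1e_d51_d0a := p_wQ_26_wN_1_rb8033094424_d44_d1e_d51_d21_d51_d1e_d51_d0a g__wQ_26_wN_1_rb8033094424_d44_d1e_d51_d21_d51_d1e_d51_d0a_0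

theorem g_wQ_26_wN_1_rb8033094424_d44_d1e_d51_d21_d51_d1e_d51_d0b : GoodKC AS c_wQ_26_wN_1_rb8033094424_d44_d1e_d51_d21_d51_d1e_d51_d0b := p_wQ_26_wN_1_rb8033094424_d44_d1e_d51_d21_d51_d1e_d51_d0b

theorem g_wQ_26_wN_1_rb8033094424_d44_d1e_d51_d21_d51_d1e_d51_d0d : GoodKC AS c_wQ_26_wN_1_rb8033094424_d44_d1e_d51_d21_d51_d1e_d51_d0d := p_wQ_26_wN_1_rb8033094424_d44_d1e_d51_d21_d51_d1e_d51_d0d

theorem g__wQ_26_wN_1_rb8033094424_d44_d1e_d51_d21_d51_d1e_d51_d15v1_1 : GoodKC AS k_wQ_26_wN_1_rb8033094424_d44_d1e_d51_d21_d51_d1e_d51_d15v1_1 := p_wQ_26_wN_1_rb8033094424_d44_d1e_d51_d21_d51_d1e_d51_d15v1_1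

theorem g__wQ_26_wN_1_rb8033094424_d44_d1e_d51_d21_d51_d1e_d51_d15v1_3 : GoodKC AS k_wQ_26_wN_1_rb8033094424_d44_d1e_d51_d21_d51_d1e_d51_d15v1_3 := p_wQ_26_wN_1_rb8033094424_d44_d1e_d51_d21_d51_d1e_d51_d15v1_3

theorem g__wQ_26_wN_1_rb8033094424_d44_d1e_d51_d21_d51_d1e_d51_d15v1_2 : GoodKC AS k_wQ_26_wN_1_rb8033094424_d44_d1e_d51_d21_d51_d1e_d51_d15v1_2 := p_wQ_26_wN_1_rb8033094424_d44_d1e_d51_d21_d51_d1e_d51_d15v1_2 g__wQ_26_wN_1_rb8033094424_d44_d1e_d51_d21_d51_d1e_d51_d15v1_3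

theorem g__wQ_26_wN_1_rb8033094424_d44_d1e_d51_d21_d51_d1e_d51_d15v1_0 : GoodKC AS k_wQ_26_wN_1_rb8033094424_d44_d1e_d51_d21_d51_d1e_d51_d15v1_0 := p_wQ_26_wN_1_rb8033094424_d44_d1e_d51_d21_d51_d1e_d51_d15v1_0 g__wQ_26_wN_1_rb8033094424_d44_d1e_d51_d21_d51_d1e_d51_d15v1_1 g__wQ_26_wN_1_rb8033094424_d44_d1e_d51_d21_d51_d1e_d51_d15v1_2

theorem g_wQ_26_wN_1_rb8033094424_d44_d1e_d51_d21_d51_d1e_d51_d15 : GoodKC AS c_wQ_26_wN_1_rb8033094424_d44_d1e_d51_d21_d51_d1e_d51_d15 := p_wQ_26_wN_1_rb8033094424_d44_d1e_d51_d21_d51_d1e_d51_d15v1 g__wQ_26_wN_1_rb8033094424_d44_d1e_d51_d21_d51_d1e_d51_d15v1_0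

theorem g_wQ_26_wN_1_rb8033094424_d44_d1e_d51_d21_d51_d1e_d51_d18 : GoodKC AS c_wQ_26_wN_1_rb8033094424_d44_d1e_d51_d21_d51_d1e_d51_d18 := p_wQ_26_wN_1_rb8033094424_d44_d1e_d51_d21_d51_d1e_d51_d18

theorem g_wQ_26_wN_1_rb8033094424_d44_d1e_d51_d21_d51_d1e_d51_d19 : GoodKC AS c_wQ_26_wN_1_rb8033094424_d44_d1e_d51_d21_d51_d1e_d51_d19 := p_wQ_26_wN_1_rb8033094424_d44_d1e_d51_d21_d51_d1e_d51_d19

theorem g_wQ_26_wN_1_rb8033094424_d44_d1e_d51_d21_d51_d1e : GoodKC AS c_wQ_26_wN_1_rb8033094424_d44_d1e_d51_d21_d51_d1e := p_wQ_26_wN_1_rb8033094424_d44_d1e_d51_d21_d51_d1e g_wQ_26_wN_1_rb8033094424_d44_d1e_d51_d21_d51_d1e_d51_d1b g_wQ_26_wN_1_rb8033094424_d44_d1e_d51_d21_d51_d1e_d51_d1a g_wQ_26_wN_1_rb8033094424_d44_d1e_d51_d21_d51_d1e_d51_d17 g_wQ_26_wN_1_rb8033094424_d44_d1e_d51_d21_d51_d1e_d51_d16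 g_wQ_26_wN_1_rb8033094424_d44_d1e_d51_d21_d51_d1e_d51_d14 g_wQ_26_wN_1_rb8033094424_d44_d1e_d51_d21_d51_d1e_d51_d13 g_wQ_26_wN_1_rb8033094424_d44_d1e_d51_d21_d51_d1e_d51_d12 g_wQ_26_wN_1_rb8033094424_d44_d1e_d51_d21_d51_d1e_d51_d11 g_wQ_26_wN_1_rb8033094424_d44_d1e_d51_d21_d51_d1e_d51_d10 g_wQ_26_wN_1_rb8033094424_d44_d1e_d51_d21_d51_d1e_d51_d0f g_wQ_26_wN_1_rb8033094424_d44_d1e_d51_d21_d51_d1e_d51_d0e g_wQ_26_wN_1_rb8033094424_d44_d1e_d51_d21_d51_d1e_d51_d0c g_wQ_26_wN_1_rb8033094424_d44_d1e_d51_d21_d51_d1e_d51_d08 g_wQ_26_wN_1_rb8033094424_d44_d1e_d51_d21_d51_d1e_d51_d07 g_wQ_26_wN_1_rb8033094424_d44_d1e_d51_d21_d51_d1e_d51_d05 g_wQ_26_wN_1_rb8033094424_d44_d1e_d51_d21_d51_d1e_d51_d04 g_wQ_26_wN_1_rb8033094424_d44_d1e_d51_d21_d51_d1e_d51_d03 g_wQ_26_wN_1_rb8033094424_d44_d1e_d51_d21_d51_d1e_d51_d02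 g_wQ_26_wN_1_rb8033094424_d44_d1e_d51_d21_d51_d1e_d51_d00 g_wQ_26_wN_1_rb8033094424_d44_d1e_d51_d21_d51_d1e_d51_d01 g__wQ_26_wN_1_rb8033094424_d44_d1e_d51_d21_d51_d1e_0 g_wQ_26_wN_1_rb8033094424_d44_d1e_d51_d21_d51_d1e_d51_d06 g_wQ_26_wN_1_rb8033094424_d44_d1e_d51_d21_d51_d1e_d51_d09 g_wQ_26_wN_1_rb8033094424_d44_d1e_d51_d21_d51_d1e_d51_d0a g_wQ_26_wN_1_rb8033094424_d44_d1e_d51_d21_d51_d1e_d51_d0b g_wQ_26_wN_1_rb8033094424_d44_d1e_d51_d21_d51_d1e_d51_d0d g_wQ_26_wN_1_rb8033094424_d44_d1e_d51_d21_d51_d1e_d51_d15 g_wQ_26_wN_1_rb8033094424_d44_d1e_d51_d21_d51_d1e_d51_d18 g_wQ_26_wN_1_rb8033094424_d44_d1e_d51_d21_d51_d1e_d51_d19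

theorem g_wQ_26_wN_1_rb8033094424_d44_d1e_d51_d21_d51_d1c : GoodKC AS c_wQ_26_wN_1_rb8033094424_d44_d1e_d51_d21_d51_d1c := p_wQ_26_wN_1_rb8033094424_d44_d1e_d51_d21_d51_d1c

theorem g_wQ_26_wN_1_rb8033094424_d44_d1e_d51_d21_d51_d1b : GoodKC AS c_wQ_26_wN_1_rb8033094424_d44_d1e_d51_d21_d51_d1b := p_wQ_26_wN_1_rb8033094424_d44_d1e_d51_d21_d51_d1b

theorem g_wQ_26_wN_1_rb8033094424_d44_d1e_d51_d21_d51_d19 : GoodKC AS c_wQ_26_wN_1_rb8033094424_d44_d1e_d51_d21_d51_d19 := p_wQ_26_wN_1_rb8033094424_d44_d1e_d51_d21_d51_d19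

theorem g_wQ_26_wN_1_rb8033094424_d44_d1e_d51_d21_d51_d18 : GoodKC AS c_wQ_26_wN_1_rb8033094424_d44_d1e_d51_d21_d51_d18 := p_wQ_26_wN_1_rb8033094424_d44_d1e_d51_d21_d51_d18

theorem g_wQ_26_wN_1_rb8033094424_d44_d1e_d51_d21_d51_d17 : GoodKC AS c_wQ_26_wN_1_rb8033094424_d44_d1e_d51_d21_d51_d17 := p_wQ_26_wN_1_rb8033094424_d44_d1e_d51_d21_d51_d17

theorem g_wQ_26_wN_1_rb8033094424_d44_d1e_d51_d21_d51_d15 : GoodKC AS c_wQ_26_wN_1_rb8033094424_d44_d1e_d51_d21_d51_d15 := p_wQ_26_wN_1_rb8033094424_d44_d1e_d51_d21_d51_d15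

theorem g_wQ_26_wN_1_rb8033094424_d44_d1e_d51_d21_d51_d14 : GoodKC AS c_wQ_26_wN_1_rb8033094424_d44_d1e_d51_d21_d51_d14 := p_wQ_26_wN_1_rb8033094424_d44_d1e_d51_d21_d51_d14

theorem g__wQ_26_wN_1_rb8033094424_d44_d1e_d51_d21_d51_d13_0 : GoodKC AS k_wQ_26_wN_1_rb8033094424_d44_d1e_d51_d21_d51_d13_0 := p_wQ_26_wN_1_rb8033094424_d44_d1e_d51_d21_d51_d13_0

theorem g_wQ_26_wN_1_rb8033094424_d44_d1e_d51_d21_d51_d13 : GoodKC AS c_wQ_26_wN_1_rb8033094424_d44_d1e_d51_d21_d51_d13 := p_wQ_26_wN_1_rb8033094424_d44_d1e_d51_d21_d51_d13 g__wQ_26_wN_1_rb8033094424_d44_d1e_d51_d21_d51_d13_0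

theorem g_wQ_26_wN_1_rb8033094424_d44_d1e_d51_d21_d51_d12 : GoodKC AS c_wQ_26_wN_1_rb8033094424_d44_d1e_d51_d21_d51_d12 := p_wQ_26_wN_1_rb8033094424_d44_d1e_d51_d21_d51_d12

theorem g_wQ_26_wN_1_rb8033094424_d44_d1e_d51_d21_d51_d0f : GoodKC AS c_wQ_26_wN_1_rb8033094424_d44_d1e_d51_d21_d51_d0f := p_wQ_26_wN_1_rb8033094424_d44_d1e_d51_d21_d51_d0f

theorem g_wQ_26_wN_1_rb8033094424_d44_d1e_d51_d21_d51_d0e : GoodKC AS c_wQ_26_wN_1_rb8033094424_d44_d1e_d51_d21_d51_d0e := p_wQ_26_wN_1_rb8033094424_d44_d1e_d51_d21_d51_d0e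

theorem g_wQ_26_wN_1_rb8033094424_d44_d1e_d51_d21_d51_d0d : GoodKC AS c_wQ_26_wN_1_rb8033094424_d44_d1e_d51_d21_d51_d0d := p_wQ_26_wN_1_rb8033094424_d44_d1e_d51_d21_d51_d0d

theorem g_wQ_26_wN_1_rb8033094424_d44_d1e_d51_d21_d51_d0c : GoodKC AS c_wQ_26_wN_1_rb8033094424_d44_d1e_d51_d21_d51_d0c := p_wQ_26_wN_1_rb8033094424_d44_d1e_d51_d21_d51_d0c

theorem g_wQ_26_wN_1_rb8033094424_d44_d1e_d51_d21_d51_d0b : GoodKC AS c_wQ_26_wN_1_rb8033094424_d44_d1e_d51_d21_d51_d0b := p_wQ_26_wN_1_rb8033094424_d44_d1e_d51_d21_d51_d0b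

theorem g_wQ_26_wN_1_rb8033094424_d44_d1e_d51_d21_d51_d0a : GoodKC AS c_wQ_26_wN_1_rb8033094424_d44_d1e_d51_d21_d51_d0a := p_wQ_26_wN_1_rb8033094424_d44_d1e_d51_d21_d51_d0a

theorem g_wQ_26_wN_1_rb8033094424_d44_d1e_d51_d21_d51_d09 : GoodKC AS c_wQ_26_wN_1_rb8033094424_d44_d1e_d51_d21_d51_d09 := p_wQ_26_wN_1_rb8033094424_d44_d1e_d51_d21_d51_d09

theorem g_wQ_26_wN_1_rb8033094424_d44_d1e_d51_d21_d51_d06 : GoodKC AS c_wQ_26_wN_1_rb8033094424_d44_d1e_d51_d21_d51_d06 := p_wQ_26_wN_1_rb8033094424_d44_d1e_d51_d21_d51_d06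

theorem g_wQ_26_wN_1_rb8033094424_d44_d1e_d51_d21_d51_d04 : GoodKC AS c_wQ_26_wN_1_rb8033094424_d44_d1e_d51_d21_d51_d04 := p_wQ_26_wN_1_rb8033094424_d44_d1e_d51_d21_d51_d04

theorem g_wQ_26_wN_1_rb8033094424_d44_d1e_d51_d21_d51_d00 : GoodKC AS c_wQ_26_wN_1_rb8033094424_d44_d1e_d51_d21_d51_d00 := p_wQ_26_wN_1_rb8033094424_d44_d1e_d51_d21_d51_d00

theorem g_wQ_26_wN_1_rb8033094424_d44_d1e_d51_d21_d51_d01 : GoodKC AS c_wQ_26_wN_1_rb8033094424_d44_d1e_d51_d21_d51_d01 := p_wQ_26_wN_1_rb8033094424_d44_d1e_d51_d21_d51_d01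

theorem g_wQ_26_wN_1_rb8033094424_d44_d1e_d51_d21_d51_d02 : GoodKC AS c_wQ_26_wN_1_rb8033094424_d44_d1e_d51_d21_d51_d02 := p_wQ_26_wN_1_rb8033094424_d44_d1e_d51_d21_d51_d02

theorem g_wQ_26_wN_1_rb8033094424_d44_d1e_d51_d21_d51_d03 : GoodKC AS c_wQ_26_wN_1_rb8033094424_d44_d1e_d51_d21_d51_d03 := p_wQ_26_wN_1_rb8033094424_d44_d1e_d51_d21_d51_d03

theorem g_wQ_26_wN_1_rb8033094424_d44_d1e_d51_d21_d51_d05 : GoodKC AS c_wQ_26_wN_1_rb8033094424_d44_d1e_d51_d21_d51_d05 := p_wQ_26_wN_1_rb8033094424_d44_d1e_d51_d21_d51_d05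

theorem g__wQ_26_wN_1_rb8033094424_d44_d1e_d51_d21_d51_d07_0 : GoodKC AS k_wQ_26_wN_1_rb8033094424_d44_d1e_d51_d21_d51_d07_0 := p_wQ_26_wN_1_rb8033094424_d44_d1e_d51_d21_d51_d07_0

theorem g__wQ_26_wN_1_rb8033094424_d44_d1e_d51_d21_d51_d07_3 : GoodKC AS k_wQ_26_wN_1_rb8033094424_d44_d1e_d51_d21_d51_d07_3 := p_wQ_26_wN_1_rb8033094424_d44_d1e_d51_d21_d51_d07_3

theorem g__wQ_26_wN_1_rb8033094424_d44_d1e_d51_d21_d51_d07_5 : GoodKC AS k_wQ_26_wN_1_rb8033094424_d44_d1e_d51_d21_d51_d07_5 := p_wQ_26_wN_1_rb8033094424_d44_d1e_d51_d21_d51_d07_5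

theorem g__wQ_26_wN_1_rb8033094424_d44_d1e_d51_d21_d51_d07_8 : GoodKC AS k_wQ_26_wN_1_rb8033094424_d44_d1e_d51_d21_d51_d07_8 := p_wQ_26_wN_1_rb8033094424_d44_d1e_d51_d21_d51_d07_8

theorem g__wQ_26_wN_1_rb8033094424_d44_d1e_d51_d21_d51_d07_9 : GoodKC AS k_wQ_26_wN_1_rb8033094424_d44_d1e_d51_d21_d51_d07_9 := p_wQ_26_wN_1_rb8033094424_d44_d1e_d51_d21_d51_d07_9

theorem g__wQ_26_wN_1_rb8033094424_d44_d1e_d51_d21_d51_d07_14 : GoodKC AS k_wQ_26_wN_1_rb8033094424_d44_d1e_d51_d21_d51_d07_14 := p_wQ_26_wN_1_rb8033094424_d44_d1e_d51_d21_d51_d07_14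

theorem g__wQ_26_wN_1_rb8033094424_d44_d1e_d51_d21_d51_d07_13 : GoodKC AS k_wQ_26_wN_1_rb8033094424_d44_d1e_d51_d21_d51_d07_13 := p_wQ_26_wN_1_rb8033094424_d44_d1e_d51_d21_d51_d07_13 g__wQ_26_wN_1_rb8033094424_d44_d1e_d51_d21_d51_d07_14

theorem g__wQ_26_wN_1_rb8033094424_d44_d1e_d51_d21_d51_d07_12 : GoodKC AS k_wQ_26_wN_1_rb8033094424_d44_d1e_d51_d21_d51_d07_12 := p_wQ_26_wN_1_rb8033094424_d44_d1e_d51_d21_d51_d07_12 g__wQ_26_wN_1_rb8033094424_d44_d1e_d51_d21_d51_d07_13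

theorem g__wQ_26_wN_1_rb8033094424_d44_d1e_d51_d21_d51_d07_18 : GoodKC AS k_wQ_26_wN_1_rb8033094424_d44_d1e_d51_d21_d51_d07_18 := p_wQ_26_wN_1_rb8033094424_d44_d1e_d51_d21_d51_d07_18

theorem g__wQ_26_wN_1_rb8033094424_d44_d1e_d51_d21_d51_d07_19 : GoodKC AS k_wQ_26_wN_1_rb8033094424_d44_d1e_d51_d21_d51_d07_19 := p_wQ_26_wN_1_rb8033094424_d44_d1e_d51_d21_d51_d07_19

theorem g__wQ_26_wN_1_rb8033094424_d44_d1e_d51_d21_d51_d07_17 : GoodKC AS k_wQ_26_wN_1_rb8033094424_d44_d1e_d51_d21_d51_d07_17 := p_wQ_26_wN_1_rb8033094424_d44_d1e_d51_d21_d51_d07_17 g__wQ_26_wN_1_rb8033094424_d44_d1e_d51_d21_d51_d07_18 g__wQ_26_wN_1_rb8033094424_d44_d1e_d51_d21_d51_d07_19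

theorem g__wQ_26_wN_1_rb8033094424_d44_d1e_d51_d21_d51_d07_16 : GoodKC AS k_wQ_26_wN_1_rb8033094424_d44_d1e_d51_d21_d51_d07_16 := p_wQ_26_wN_1_rb8033094424_d44_d1e_d51_d21_d51_d07_16 g__wQ_26_wN_1_rb8033094424_d44_d1e_d51_d21_d51_d07_17

theorem g__wQ_26_wN_1_rb8033094424_d44_d1e_d51_d21_d51_d07_15 : GoodKC AS k_wQ_26_wN_1_rb8033094424_d44_d1e_d51_d21_d51_d07_15 := p_wQ_26_wN_1_rb8033094424_d44_d1e_d51_d21_d51_d07_15 g__wQ_26_wN_1_rb8033094424_d44_d1e_d51_d21_d51_d07_16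

theorem g__wQ_26_wN_1_rb8033094424_d44_d1e_d51_d21_d51_d07_11 : GoodKC AS k_wQ_26_wN_1_rb8033094424_d44_d1e_d51_d21_d51_d07_11 := p_wQ_26_wN_1_rb8033094424_d44_d1e_d51_d21_d51_d07_11 g__wQ_26_wN_1_rb8033094424_d44_d1e_d51_d21_d51_d07_12 g__wQ_26_wN_1_rb8033094424_d44_d1e_d51_d21_d51_d07_15

theorem g__wQ_26_wN_1_rb8033094424_d44_d1e_d51_d21_d51_d07_10 : GoodKC AS k_wQ_26_wN_1_rb8033094424_d44_d1e_d51_d21_d51_d07_10 := p_wQ_26_wN_1_rb8033094424_d44_d1e_d51_d21_d51_d07_10 g__wQ_26_wN_1_rb8033094424_d44_d1e_d51_d21_d51_d07_11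

theorem g__wQ_26_wN_1_rb8033094424_d44_d1e_d51_d21_d51_d07_7 : GoodKC AS k_wQ_26_wN_1_rb8033094424_d44_d1e_d51_d21_d51_d07_7 := p_wQ_26_wN_1_rb8033094424_d44_d1e_d51_d21_d51_d07_7 g__wQ_26_wN_1_rb8033094424_d44_d1e_d51_d21_d51_d07_8 g__wQ_26_wN_1_rb8033094424_d44_d1e_d51_d21_d51_d07_9 g__wQ_26_wN_1_rb8033094424_d44_d1e_d51_d21_d51_d07_10

theorem g__wQ_26_wN_1_rb8033094424_d44_d1e_d51_d21_d51_d07_6 : GoodKC AS k_wQ_26_wN_1_rb8033094424_d44_d1e_d51_d21_d51_d07_6 := p_wQ_26_wN_1_rb8033094424_d44_d1e_d51_d21_d51_d07_6 g__wQ_26_wN_1_rb8033094424_d44_d1e_d51_d21_d51_d07_7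

theorem g__wQ_26_wN_1_rb8033094424_d44_d1e_d51_d21_d51_d07_23 : GoodKC AS k_wQ_26_wN_1_rb8033094424_d44_d1e_d51_d21_d51_d07_23 := p_wQ_26_wN_1_rb8033094424_d44_d1e_d51_d21_d51_d07_23

theorem g__wQ_26_wN_1_rb8033094424_d44_d1e_d51_d21_d51_d07_22 : GoodKC AS k_wQ_26_wN_1_rb8033094424_d44_d1e_d51_d21_d51_d07_22 := p_wQ_26_wN_1_rb8033094424_d44_d1e_d51_d21_d51_d07_22 g__wQ_26_wN_1_rb8033094424_d44_d1e_d51_d21_d51_d07_23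

theorem g__wQ_26_wN_1_rb8033094424_d44_d1e_d51_d21_d51_d07_21 : GoodKC AS k_wQ_26_wN_1_rb8033094424_d44_d1e_d51_d21_d51_d07_21 := p_wQ_26_wN_1_rb8033094424_d44_d1e_d51_d21_d51_d07_21 g__wQ_26_wN_1_rb8033094424_d44_d1e_d51_d21_d51_d07_22

theorem g__wQ_26_wN_1_rb8033094424_d44_d1e_d51_d21_d51_d07_20 : GoodKC AS k_wQ_26_wN_1_rb8033094424_d44_d1e_d51_d21_d51_d07_20 := p_wQ_26_wN_1_rb8033094424_d44_d1e_d51_d21_d51_d07_20 g__wQ_26_wN_1_rb8033094424_d44_d1e_d51_d21_d51_d07_21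

theorem g__wQ_26_wN_1_rb8033094424_d44_d1e_d51_d21_d51_d07_4 : GoodKC AS k_wQ_26_wN_1_rb8033094424_d44_d1e_d51_d21_d51_d07_4 := p_wQ_26_wN_1_rb8033094424_d44_d1e_d51_d21_d51_d07_4 g__wQ_26_wN_1_rb8033094424_d44_d1e_d51_d21_d51_d07_5 g__wQ_26_wN_1_rb8033094424_d44_d1e_d51_d21_d51_d07_6 g__wQ_26_wN_1_rb8033094424_d44_d1e_d51_d21_d51_d07_20

theorem g__wQ_26_wN_1_rb8033094424_d44_d1e_d51_d21_d51_d07_2 : GoodKC AS k_wQ_26_wN_1_rb8033094424_d44_d1e_d51_d21_d51_d07_2 := p_wQ_26_wN_1_rb8033094424_d44_d1e_d51_d21_d51_d07_2 g__wQ_26_wN_1_rb8033094424_d44_d1e_d51_d21_d51_d07_3 g__wQ_26_wN_1_rb8033094424_d44_d1e_d51_d21_d51_d07_4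

theorem g__wQ_26_wN_1_rb8033094424_d44_d1e_d51_d21_d51_d07_1 : GoodKC AS k_wQ_26_wN_1_rb8033094424_d44_d1e_d51_d21_d51_d07_1 := p_wQ_26_wN_1_rb8033094424_d44_d1e_d51_d21_d51_d07_1 g__wQ_26_wN_1_rb8033094424_d44_d1e_d51_d21_d51_d07_2

theorem g_wQ_26_wN_1_rb8033094424_d44_d1e_d51_d21_d51_d07 : GoodKC AS c_wQ_26_wN_1_rb8033094424_d44_d1e_d51_d21_d51_d07 := p_wQ_26_wN_1_rb8033094424_d44_d1e_d51_d21_d51_d07 g__wQ_26_wN_1_rb8033094424_d44_d1e_d51_d21_d51_d07_0 g__wQ_26_wN_1_rb8033094424_d44_d1e_d51_d21_d51_d07_1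

theorem g_wQ_26_wN_1_rb8033094424_d44_d1e_d51_d21_d51_d08 : GoodKC AS c_wQ_26_wN_1_rb8033094424_d44_d1e_d51_d21_d51_d08 := p_wQ_26_wN_1_rb8033094424_d44_d1e_d51_d21_d51_d08

theorem g__wQ_26_wN_1_rb8033094424_d44_d1e_d51_d21_0 : GoodKC AS k_wQ_26_wN_1_rb8033094424_d44_d1e_d51_d21_0 := p_wQ_26_wN_1_rb8033094424_d44_d1e_d51_d21_0 g_wQ_26_wN_1_rb8033094424_d44_d1e_d51_d21_d51_d0b g_wQ_26_wN_1_rb8033094424_d44_d1e_d51_d21_d51_d0a g_wQ_26_wN_1_rb8033094424_d44_d1e_d51_d21_d51_d09 g_wQ_26_wN_1_rb8033094424_d44_d1e_d51_d21_d51_d06 g_wQ_26_wN_1_rb8033094424_d44_d1e_d51_d21_d51_d04 g_wQ_26_wN_1_rb8033094424_d44_d1e_d51_d21_d51_d00 g_wQ_26_wN_1_rb8033094424_d44_d1e_d51_d21_d51_d01 g_wQ_26_wN_1_rb8033094424_d44_d1e_d51_d21_d51_d02 g_wQ_26_wN_1_rb8033094424_d44_d1e_d51_d21_d51_d03 g_wQ_26_wN_1_rb8033094424_d44_d1e_d51_d21_d51_d05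 g_wQ_26_wN_1_rb8033094424_d44_d1e_d51_d21_d51_d07 g_wQ_26_wN_1_rb8033094424_d44_d1e_d51_d21_d51_d08

theorem g_wQ_26_wN_1_rb8033094424_d44_d1e_d51_d21_d51_d10 : GoodKC AS c_wQ_26_wN_1_rb8033094424_d44_d1e_d51_d21_d51_d10 := p_wQ_26_wN_1_rb8033094424_d44_d1e_d51_d21_d51_d10

theorem g_wQ_26_wN_1_rb8033094424_d44_d1e_d51_d21_d51_d11 : GoodKC AS c_wQ_26_wN_1_rb8033094424_d44_d1e_d51_d21_d51_d11 := p_wQ_26_wN_1_rb8033094424_d44_d1e_d51_d21_d51_d11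

theorem g_wQ_26_wN_1_rb8033094424_d44_d1e_d51_d21_d51_d16 : GoodKC AS c_wQ_26_wN_1_rb8033094424_d44_d1e_d51_d21_d51_d16 := p_wQ_26_wN_1_rb8033094424_d44_d1e_d51_d21_d51_d16

theorem g_wQ_26_wN_1_rb8033094424_d44_d1e_d51_d21_d51_d1a : GoodKC AS c_wQ_26_wN_1_rb8033094424_d44_d1e_d51_d21_d51_d1a := p_wQ_26_wN_1_rb8033094424_d44_d1e_d51_d21_d51_d1a

theorem g__wQ_26_wN_1_rb8033094424_d44_d1e_d51_d21_d51_d1d_0 : GoodKC AS k_wQ_26_wN_1_rb8033094424_d44_d1e_d51_d21_d51_d1d_0 := p_wQ_26_wN_1_rb8033094424_d44_d1e_d51_d21_d51_d1d_0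

theorem g_wQ_26_wN_1_rb8033094424_d44_d1e_d51_d21_d51_d1d : GoodKC AS c_wQ_26_wN_1_rb8033094424_d44_d1e_d51_d21_d51_d1d := p_wQ_26_wN_1_rb8033094424_d44_d1e_d51_d21_d51_d1d g__wQ_26_wN_1_rb8033094424_d44_d1e_d51_d21_d51_d1d_0

theorem g_wQ_26_wN_1_rb8033094424_d44_d1e_d51_d21_d51_d21 : GoodKC AS c_wQ_26_wN_1_rb8033094424_d44_d1e_d51_d21_d51_d21 := p_wQ_26_wN_1_rb8033094424_d44_d1e_d51_d21_d51_d21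

theorem g_wQ_26_wN_1_rb8033094424_d44_d1e_d51_d21_d51_d23 : GoodKC AS c_wQ_26_wN_1_rb8033094424_d44_d1e_d51_d21_d51_d23 := p_wQ_26_wN_1_rb8033094424_d44_d1e_d51_d21_d51_d23

theorem g_wQ_26_wN_1_rb8033094424_d44_d1e_d51_d21_d51_d25 : GoodKC AS c_wQ_26_wN_1_rb8033094424_d44_d1e_d51_d21_d51_d25 := p_wQ_26_wN_1_rb8033094424_d44_d1e_d51_d21_d51_d25

theorem g_wQ_26_wN_1_rb8033094424_d44_d1e_d51_d21_d51_d26 : GoodKC AS c_wQ_26_wN_1_rb8033094424_d44_d1e_d51_d21_d51_d26 := p_wQ_26_wN_1_rb8033094424_d44_d1e_d51_d21_d51_d26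

theorem g_wQ_26_wN_1_rb8033094424_d44_d1e_d51_d21_d51_d27 : GoodKC AS c_wQ_26_wN_1_rb8033094424_d44_d1e_d51_d21_d51_d27 := p_wQ_26_wN_1_rb8033094424_d44_d1e_d51_d21_d51_d27

theorem g_wQ_26_wN_1_rb8033094424_d44_d1e_d51_d21_d51_d29 : GoodKC AS c_wQ_26_wN_1_rb8033094424_d44_d1e_d51_d21_d51_d29 := p_wQ_26_wN_1_rb8033094424_d44_d1e_d51_d21_d51_d29

theorem g_wQ_26_wN_1_rb8033094424_d44_d1e_d51_d21 : GoodKC AS c_wQ_26_wN_1_rb8033094424_d44_d1e_d51_d21 := p_wQ_26_wN_1_rb8033094424_d44_d1e_d51_d21 g_wQ_26_wN_1_rb8033094424_d44_d1e_d51_d21_d51_d28 g_wQ_26_wN_1_rb8033094424_d44_d1e_d51_d21_d51_d24 g_wQ_26_wN_1_rb8033094424_d44_d1e_d51_d21_d51_d22 g_wQ_26_wN_1_rb8033094424_d44_d1e_d51_d21_d51_d20 g_wQ_26_wN_1_rb8033094424_d44_d1e_d51_d21_d51_d1f g_wQ_26_wN_1_rb8033094424_d44_d1e_d51_d21_d51_d1e g_wQ_26_wN_1_rb8033094424_d44_d1e_d51_d21_d51_d1c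 g_wQ_26_wN_1_rb8033094424_d44_d1e_d51_d21_d51_d1b g_wQ_26_wN_1_rb8033094424_d44_d1e_d51_d21_d51_d19 g_wQ_26_wN_1_rb8033094424_d44_d1e_d51_d21_d51_d18 g_wQ_26_wN_1_rb8033094424_d44_d1e_d51_d21_d51_d17 g_wQ_26_wN_1_rb8033094424_d44_d1e_d51_d21_d51_d15 g_wQ_26_wN_1_rb8033094424_d44_d1e_d51_d21_d51_d14 g_wQ_26_wN_1_rb8033094424_d44_d1e_d51_d21_d51_d13 g_wQ_26_wN_1_rb8033094424_d44_d1e_d51_d21_d51_d12 g_wQ_26_wN_1_rb8033094424_d44_d1e_d51_d21_d51_d0f g_wQ_26_wN_1_rb8033094424_d44_d1e_d51_d21_d51_d0e g_wQ_26_wN_1_rb8033094424_d44_d1e_d51_d21_d51_d0d g_wQ_26_wN_1_rb8033094424_d44_d1e_d51_d21_d51_d0c g__wQ_26_wN_1_rb8033094424_d44_d1e_d51_d21_0 g_wQ_26_wN_1_rb8033094424_d44_d1e_d51_d21_d51_d10 g_wQ_26_wN_1_rb8033094424_d44_d1e_d51_d21_d51_d11 g_wQ_26_wN_1_rb8033094424_d44_d1e_d51_d21_d51_d16 g_wQ_26_wN_1_rb8033094424_d44_d1e_d51_d21_d51_d1a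 g_wQ_26_wN_1_rb8033094424_d44_d1e_d51_d21_d51_d1d g_wQ_26_wN_1_rb8033094424_d44_d1e_d51_d21_d51_d21 g_wQ_26_wN_1_rb8033094424_d44_d1e_d51_d21_d51_d23 g_wQ_26_wN_1_rb8033094424_d44_d1e_d51_d21_d51_d25 g_wQ_26_wN_1_rb8033094424_d44_d1e_d51_d21_d51_d26 g_wQ_26_wN_1_rb8033094424_d44_d1e_d51_d21_d51_d27 g_wQ_26_wN_1_rb8033094424_d44_d1e_d51_d21_d51_d29

theorem g_wQ_26_wN_1_rb8033094424_d44_d1e_d51_d20 : GoodKC AS c_wQ_26_wN_1_rb8033094424_d44_d1e_d51_d20 := p_wQ_26_wN_1_rb8033094424_d44_d1e_d51_d20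

theorem g_wQ_26_wN_1_rb8033094424_d44_d1e_d51_d1f : GoodKC AS c_wQ_26_wN_1_rb8033094424_d44_d1e_d51_d1f := p_wQ_26_wN_1_rb8033094424_d44_d1e_d51_d1f

theorem g__wQ_26_wN_1_rb8033094424_d44_d1e_d51_d1d_0 : GoodKC AS k_wQ_26_wN_1_rb8033094424_d44_d1e_d51_d1d_0 := p_wQ_26_wN_1_rb8033094424_d44_d1e_d51_d1d_0

theorem g__wQ_26_wN_1_rb8033094424_d44_d1e_d51_d1d_1 : GoodKC AS k_wQ_26_wN_1_rb8033094424_d44_d1e_d51_d1d_1 := p_wQ_26_wN_1_rb8033094424_d44_d1e_d51_d1d_1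

theorem g_wQ_26_wN_1_rb8033094424_d44_d1e_d51_d1d : GoodKC AS c_wQ_26_wN_1_rb8033094424_d44_d1e_d51_d1d := p_wQ_26_wN_1_rb8033094424_d44_d1e_d51_d1d g__wQ_26_wN_1_rb8033094424_d44_d1e_d51_d1d_0 g__wQ_26_wN_1_rb8033094424_d44_d1e_d51_d1d_1

theorem g__wQ_26_wN_1_rb8033094424_d44_d1e_d51_d1b_0 : GoodKC AS k_wQ_26_wN_1_rb8033094424_d44_d1e_d51_d1b_0 := p_wQ_26_wN_1_rb8033094424_d44_d1e_d51_d1b_0

theorem g__wQ_26_wN_1_rb8033094424_d44_d1e_d51_d1b_1 : GoodKC AS k_wQ_26_wN_1_rb8033094424_d44_d1e_d51_d1b_1 := p_wQ_26_wN_1_rb8033094424_d44_d1e_d51_d1b_1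

theorem g_wQ_26_wN_1_rb8033094424_d44_d1e_d51_d1b : GoodKC AS c_wQ_26_wN_1_rb8033094424_d44_d1e_d51_d1b := p_wQ_26_wN_1_rb8033094424_d44_d1e_d51_d1b g__wQ_26_wN_1_rb8033094424_d44_d1e_d51_d1b_0 g__wQ_26_wN_1_rb8033094424_d44_d1e_d51_d1b_1

theorem g__wQ_26_wN_1_rb8033094424_d44_d1e_d51_d1a_1 : GoodKC AS k_wQ_26_wN_1_rb8033094424_d44_d1e_d51_d1a_1 := p_wQ_26_wN_1_rb8033094424_d44_d1e_d51_d1a_1

theorem g__wQ_26_wN_1_rb8033094424_d44_d1e_d51_d1a_0 : GoodKC AS k_wQ_26_wN_1_rb8033094424_d44_d1e_d51_d1a_0 := p_wQ_26_wN_1_rb8033094424_d44_d1e_d51_d1a_0 g__wQ_26_wN_1_rb8033094424_d44_d1e_d51_d1a_1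

theorem g_wQ_26_wN_1_rb8033094424_d44_d1e_d51_d1a : GoodKC AS c_wQ_26_wN_1_rb8033094424_d44_d1e_d51_d1a := p_wQ_26_wN_1_rb8033094424_d44_d1e_d51_d1a g__wQ_26_wN_1_rb8033094424_d44_d1e_d51_d1a_0

theorem g__wQ_26_wN_1_rb8033094424_d44_d1e_d51_d18_1 : GoodKC AS k_wQ_26_wN_1_rb8033094424_d44_d1e_d51_d18_1 := p_wQ_26_wN_1_rb8033094424_d44_d1e_d51_d18_1

theorem g__wQ_26_wN_1_rb8033094424_d44_d1e_d51_d18_0 : GoodKC AS k_wQ_26_wN_1_rb8033094424_d44_d1e_d51_d18_0 := p_wQ_26_wN_1_rb8033094424_d44_d1e_d51_d18_0 g__wQ_26_wN_1_rb8033094424_d44_d1e_d51_d18_1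

theorem g_wQ_26_wN_1_rb8033094424_d44_d1e_d51_d18 : GoodKC AS c_wQ_26_wN_1_rb8033094424_d44_d1e_d51_d18 := p_wQ_26_wN_1_rb8033094424_d44_d1e_d51_d18 g__wQ_26_wN_1_rb8033094424_d44_d1e_d51_d18_0

theorem g_wQ_26_wN_1_rb8033094424_d44_d1e_d51_d16 : GoodKC AS c_wQ_26_wN_1_rb8033094424_d44_d1e_d51_d16 := p_wQ_26_wN_1_rb8033094424_d44_d1e_d51_d16

theorem g_wQ_26_wN_1_rb8033094424_d44_d1e_d51_d14 : GoodKC AS c_wQ_26_wN_1_rb8033094424_d44_d1e_d51_d14 := p_wQ_26_wN_1_rb8033094424_d44_d1e_d51_d14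

theorem g_wQ_26_wN_1_rb8033094424_d44_d1e_d51_d10 : GoodKC AS c_wQ_26_wN_1_rb8033094424_d44_d1e_d51_d10 := p_wQ_26_wN_1_rb8033094424_d44_d1e_d51_d10

theorem g__wQ_26_wN_1_rb8033094424_d44_d1e_d51_d0f_0 : GoodKC AS k_wQ_26_wN_1_rb8033094424_d44_d1e_d51_d0f_0 := p_wQ_26_wN_1_rb8033094424_d44_d1e_d51_d0f_0

theorem g_wQ_26_wN_1_rb8033094424_d44_d1e_d51_d0f : GoodKC AS c_wQ_26_wN_1_rb8033094424_d44_d1e_d51_d0f := p_wQ_26_wN_1_rb8033094424_d44_d1e_d51_d0f g__wQ_26_wN_1_rb8033094424_d44_d1e_d51_d0f_0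

theorem g__wQ_26_wN_1_rb8033094424_d44_d1e_d51_d0ev2_0 : GoodKC AS k_wQ_26_wN_1_rb8033094424_d44_d1e_d51_d0ev2_0 := p_wQ_26_wN_1_rb8033094424_d44_d1e_d51_d0ev2_0

theorem g__wQ_26_wN_1_rb8033094424_d44_d1e_d51_d0ev2_1 : GoodKC AS k_wQ_26_wN_1_rb8033094424_d44_d1e_d51_d0ev2_1 := p_wQ_26_wN_1_rb8033094424_d44_d1e_d51_d0ev2_1

theorem g__wQ_26_wN_1_rb8033094424_d44_d1e_d51_d0ev2_5 : GoodKC AS k_wQ_26_wN_1_rb8033094424_d44_d1e_d51_d0ev2_5 := p_wQ_26_wN_1_rb8033094424_d44_d1e_d51_d0ev2_5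

theorem g__wQ_26_wN_1_rb8033094424_d44_d1e_d51_d0ev2_4 : GoodKC AS k_wQ_26_wN_1_rb8033094424_d44_d1e_d51_d0ev2_4 := p_wQ_26_wN_1_rb8033094424_d44_d1e_d51_d0ev2_4 g__wQ_26_wN_1_rb8033094424_d44_d1e_d51_d0ev2_5

theorem g__wQ_26_wN_1_rb8033094424_d44_d1e_d51_d0ev2_9 : GoodKC AS k_wQ_26_wN_1_rb8033094424_d44_d1e_d51_d0ev2_9 := p_wQ_26_wN_1_rb8033094424_d44_d1e_d51_d0ev2_9

theorem g__wQ_26_wN_1_rb8033094424_d44_d1e_d51_d0ev2_8 : GoodKC AS k_wQ_26_wN_1_rb8033094424_d44_d1e_d51_d0ev2_8 := p_wQ_26_wN_1_rb8033094424_d44_d1e_d51_d0ev2_8 g__wQ_26_wN_1_rb8033094424_d44_d1e_d51_d0ev2_9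

theorem g__wQ_26_wN_1_rb8033094424_d44_d1e_d51_d0ev2_7 : GoodKC AS k_wQ_26_wN_1_rb8033094424_d44_d1e_d51_d0ev2_7 := p_wQ_26_wN_1_rb8033094424_d44_d1e_d51_d0ev2_7 g__wQ_26_wN_1_rb8033094424_d44_d1e_d51_d0ev2_8

theorem g__wQ_26_wN_1_rb8033094424_d44_d1e_d51_d0ev2_6 : GoodKC AS k_wQ_26_wN_1_rb8033094424_d44_d1e_d51_d0ev2_6 := p_wQ_26_wN_1_rb8033094424_d44_d1e_d51_d0ev2_6 g__wQ_26_wN_1_rb8033094424_d44_d1e_d51_d0ev2_7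

theorem g__wQ_26_wN_1_rb8033094424_d44_d1e_d51_d0ev2_3 : GoodKC AS k_wQ_26_wN_1_rb8033094424_d44_d1e_d51_d0ev2_3 := p_wQ_26_wN_1_rb8033094424_d44_d1e_d51_d0ev2_3 g__wQ_26_wN_1_rb8033094424_d44_d1e_d51_d0ev2_4 g__wQ_26_wN_1_rb8033094424_d44_d1e_d51_d0ev2_6

theorem g__wQ_26_wN_1_rb8033094424_d44_d1e_d51_d0ev2_2 : GoodKC AS k_wQ_26_wN_1_rb8033094424_d44_d1e_d51_d0ev2_2 := p_wQ_26_wN_1_rb8033094424_d44_d1e_d51_d0ev2_2 g__wQ_26_wN_1_rb8033094424_d44_d1e_d51_d0ev2_3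

theorem g__wQ_26_wN_1_rb8033094424_d44_d1e_d51_d0ev2_11 : GoodKC AS k_wQ_26_wN_1_rb8033094424_d44_d1e_d51_d0ev2_11 := p_wQ_26_wN_1_rb8033094424_d44_d1e_d51_d0ev2_11

theorem g__wQ_26_wN_1_rb8033094424_d44_d1e_d51_d0ev2_10 : GoodKC AS k_wQ_26_wN_1_rb8033094424_d44_d1e_d51_d0ev2_10 := p_wQ_26_wN_1_rb8033094424_d44_d1e_d51_d0ev2_10 g__wQ_26_wN_1_rb8033094424_d44_d1e_d51_d0ev2_11

theorem g__wQ_26_wN_1_rb8033094424_d44_d1e_d51_d0ev2_13 : GoodKC AS k_wQ_26_wN_1_rb8033094424_d44_d1e_d51_d0ev2_13 := p_wQ_26_wN_1_rb8033094424_d44_d1e_d51_d0ev2_13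

theorem g__wQ_26_wN_1_rb8033094424_d44_d1e_d51_d0ev2_12 : GoodKC AS k_wQ_26_wN_1_rb8033094424_d44_d1e_d51_d0ev2_12 := p_wQ_26_wN_1_rb8033094424_d44_d1e_d51_d0ev2_12 g__wQ_26_wN_1_rb8033094424_d44_d1e_d51_d0ev2_13

theorem g_wQ_26_wN_1_rb8033094424_d44_d1e_d51_d0e : GoodKC AS c_wQ_26_wN_1_rb8033094424_d44_d1e_d51_d0e := p_wQ_26_wN_1_rb8033094424_d44_d1e_d51_d0ev2 g__wQ_26_wN_1_rb8033094424_d44_d1e_d51_d0ev2_0 g__wQ_26_wN_1_rb8033094424_d44_d1e_d51_d0ev2_1 g__wQ_26_wN_1_rb8033094424_d44_d1e_d51_d0ev2_2 g__wQ_26_wN_1_rb8033094424_d44_d1e_d51_d0ev2_10 g__wQ_26_wN_1_rb8033094424_d44_d1e_d51_d0ev2_12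

theorem g__wQ_26_wN_1_rb8033094424_d44_d1e_d51_d0d_4 : GoodKC AS k_wQ_26_wN_1_rb8033094424_d44_d1e_d51_d0d_4 := p_wQ_26_wN_1_rb8033094424_d44_d1e_d51_d0d_4

theorem g__wQ_26_wN_1_rb8033094424_d44_d1e_d51_d0d_3 : GoodKC AS k_wQ_26_wN_1_rb8033094424_d44_d1e_d51_d0d_3 := p_wQ_26_wN_1_rb8033094424_d44_d1e_d51_d0d_3 g__wQ_26_wN_1_rb8033094424_d44_d1e_d51_d0d_4

theorem g__wQ_26_wN_1_rb8033094424_d44_d1e_d51_d0d_2 : GoodKC AS k_wQ_26_wN_1_rb8033094424_d44_d1e_d51_d0d_2 := p_wQ_26_wN_1_rb8033094424_d44_d1e_d51_d0d_2 g__wQ_26_wN_1_rb8033094424_d44_d1e_d51_d0d_3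

theorem g__wQ_26_wN_1_rb8033094424_d44_d1e_d51_d0d_1 : GoodKC AS k_wQ_26_wN_1_rb8033094424_d44_d1e_d51_d0d_1 := p_wQ_26_wN_1_rb8033094424_d44_d1e_d51_d0d_1 g__wQ_26_wN_1_rb8033094424_d44_d1e_d51_d0d_2

theorem g__wQ_26_wN_1_rb8033094424_d44_d1e_d51_d0d_0 : GoodKC AS k_wQ_26_wN_1_rb8033094424_d44_d1e_d51_d0d_0 := p_wQ_26_wN_1_rb8033094424_d44_d1e_d51_d0d_0 g__wQ_26_wN_1_rb8033094424_d44_d1e_d51_d0d_1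

theorem g_wQ_26_wN_1_rb8033094424_d44_d1e_d51_d0d : GoodKC AS c_wQ_26_wN_1_rb8033094424_d44_d1e_d51_d0d := p_wQ_26_wN_1_rb8033094424_d44_d1e_d51_d0d g__wQ_26_wN_1_rb8033094424_d44_d1e_d51_d0d_0

theorem g_wQ_26_wN_1_rb8033094424_d44_d1e_d51_d0c : GoodKC AS c_wQ_26_wN_1_rb8033094424_d44_d1e_d51_d0c := p_wQ_26_wN_1_rb8033094424_d44_d1e_d51_d0c

theorem g__wQ_26_wN_1_rb8033094424_d44_d1e_d51_d0b_0 : GoodKC AS k_wQ_26_wN_1_rb8033094424_d44_d1e_d51_d0b_0 := p_wQ_26_wN_1_rb8033094424_d44_d1e_d51_d0b_0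

theorem g__wQ_26_wN_1_rb8033094424_d44_d1e_d51_d0b_1 : GoodKC AS k_wQ_26_wN_1_rb8033094424_d44_d1e_d51_d0b_1 := p_wQ_26_wN_1_rb8033094424_d44_d1e_d51_d0b_1

theorem g_wQ_26_wN_1_rb8033094424_d44_d1e_d51_d0b : GoodKC AS c_wQ_26_wN_1_rb8033094424_d44_d1e_d51_d0b := p_wQ_26_wN_1_rb8033094424_d44_d1e_d51_d0b g__wQ_26_wN_1_rb8033094424_d44_d1e_d51_d0b_0 g__wQ_26_wN_1_rb8033094424_d44_d1e_d51_d0b_1

theorem g_wQ_26_wN_1_rb8033094424_d44_d1e_d51_d0a : GoodKC AS c_wQ_26_wN_1_rb8033094424_d44_d1e_d51_d0a := p_wQ_26_wN_1_rb8033094424_d44_d1e_d51_d0a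

theorem g_wQ_26_wN_1_rb8033094424_d44_d1e_d51_d09 : GoodKC AS c_wQ_26_wN_1_rb8033094424_d44_d1e_d51_d09 := p_wQ_26_wN_1_rb8033094424_d44_d1e_d51_d09

theorem g__wQ_26_wN_1_rb8033094424_d44_d1e_d51_d00v1_2 : GoodKC AS k_wQ_26_wN_1_rb8033094424_d44_d1e_d51_d00v1_2 := p_wQ_26_wN_1_rb8033094424_d44_d1e_d51_d00v1_2

theorem g__wQ_26_wN_1_rb8033094424_d44_d1e_d51_d00v1_1 : GoodKC AS k_wQ_26_wN_1_rb8033094424_d44_d1e_d51_d00v1_1 := p_wQ_26_wN_1_rb8033094424_d44_d1e_d51_d00v1_1 g__wQ_26_wN_1_rb8033094424_d44_d1e_d51_d00v1_2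

theorem g__wQ_26_wN_1_rb8033094424_d44_d1e_d51_d00v1_0 : GoodKC AS k_wQ_26_wN_1_rb8033094424_d44_d1e_d51_d00v1_0 := p_wQ_26_wN_1_rb8033094424_d44_d1e_d51_d00v1_0 g__wQ_26_wN_1_rb8033094424_d44_d1e_d51_d00v1_1

theorem g__wQ_26_wN_1_rb8033094424_d44_d1e_d51_d00v1_4 : GoodKC AS k_wQ_26_wN_1_rb8033094424_d44_d1e_d51_d00v1_4 := p_wQ_26_wN_1_rb8033094424_d44_d1e_d51_d00v1_4

theorem g__wQ_26_wN_1_rb8033094424_d44_d1e_d51_d00v1_6 : GoodKC AS k_wQ_26_wN_1_rb8033094424_d44_d1e_d51_d00v1_6 := p_wQ_26_wN_1_rb8033094424_d44_d1e_d51_d00v1_6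

theorem g__wQ_26_wN_1_rb8033094424_d44_d1e_d51_d00v1_7 : GoodKC AS k_wQ_26_wN_1_rb8033094424_d44_d1e_d51_d00v1_7 := p_wQ_26_wN_1_rb8033094424_d44_d1e_d51_d00v1_7

theorem g__wQ_26_wN_1_rb8033094424_d44_d1e_d51_d00v1_5 : GoodKC AS k_wQ_26_wN_1_rb8033094424_d44_d1e_d51_d00v1_5 := p_wQ_26_wN_1_rb8033094424_d44_d1e_d51_d00v1_5 g__wQ_26_wN_1_rb8033094424_d44_d1e_d51_d00v1_6 g__wQ_26_wN_1_rb8033094424_d44_d1e_d51_d00v1_7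

theorem g__wQ_26_wN_1_rb8033094424_d44_d1e_d51_d00v1_11 : GoodKC AS k_wQ_26_wN_1_rb8033094424_d44_d1e_d51_d00v1_11 := p_wQ_26_wN_1_rb8033094424_d44_d1e_d51_d00v1_11

theorem g__wQ_26_wN_1_rb8033094424_d44_d1e_d51_d00v1_12 : GoodKC AS k_wQ_26_wN_1_rb8033094424_d44_d1e_d51_d00v1_12 := p_wQ_26_wN_1_rb8033094424_d44_d1e_d51_d00v1_12

theorem g__wQ_26_wN_1_rb8033094424_d44_d1e_d51_d00v1_10 : GoodKC AS k_wQ_26_wN_1_rb8033094424_d44_d1e_d51_d00v1_10 := p_wQ_26_wN_1_rb8033094424_d44_d1e_d51_d00v1_10 g__wQ_26_wN_1_rb8033094424_d44_d1e_d51_d00v1_11 g__wQ_26_wN_1_rb8033094424_d44_d1e_d51_d00v1_12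

theorem g__wQ_26_wN_1_rb8033094424_d44_d1e_d51_d00v1_9 : GoodKC AS k_wQ_26_wN_1_rb8033094424_d44_d1e_d51_d00v1_9 := p_wQ_26_wN_1_rb8033094424_d44_d1e_d51_d00v1_9 g__wQ_26_wN_1_rb8033094424_d44_d1e_d51_d00v1_10

theorem g__wQ_26_wN_1_rb8033094424_d44_d1e_d51_d00v1_8 : GoodKC AS k_wQ_26_wN_1_rb8033094424_d44_d1e_d51_d00v1_8 := p_wQ_26_wN_1_rb8033094424_d44_d1e_d51_d00v1_8 g__wQ_26_wN_1_rb8033094424_d44_d1e_d51_d00v1_9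

theorem g__wQ_26_wN_1_rb8033094424_d44_d1e_d51_d00v1_3 : GoodKC AS k_wQ_26_wN_1_rb8033094424_d44_d1e_d51_d00v1_3 := p_wQ_26_wN_1_rb8033094424_d44_d1e_d51_d00v1_3 g__wQ_26_wN_1_rb8033094424_d44_d1e_d51_d00v1_4 g__wQ_26_wN_1_rb8033094424_d44_d1e_d51_d00v1_5 g__wQ_26_wN_1_rb8033094424_d44_d1e_d51_d00v1_8

theorem g_wQ_26_wN_1_rb8033094424_d44_d1e_d51_d00 : GoodKC AS c_wQ_26_wN_1_rb8033094424_d44_d1e_d51_d00 := p_wQ_26_wN_1_rb8033094424_d44_d1e_d51_d00v1 g__wQ_26_wN_1_rb8033094424_d44_d1e_d51_d00v1_0 g__wQ_26_wN_1_rb8033094424_d44_d1e_d51_d00v1_3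

theorem g_wQ_26_wN_1_rb8033094424_d44_d1e_d51_d06 : GoodKC AS c_wQ_26_wN_1_rb8033094424_d44_d1e_d51_d06 := p_wQ_26_wN_1_rb8033094424_d44_d1e_d51_d06

theorem g_wQ_26_wN_1_rb8033094424_d44_d1e_d51_d05 : GoodKC AS c_wQ_26_wN_1_rb8033094424_d44_d1e_d51_d05 := p_wQ_26_wN_1_rb8033094424_d44_d1e_d51_d05

theorem g_wQ_26_wN_1_rb8033094424_d44_d1e_d51_d04 : GoodKC AS c_wQ_26_wN_1_rb8033094424_d44_d1e_d51_d04 := p_wQ_26_wN_1_rb8033094424_d44_d1e_d51_d04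

theorem g_wQ_26_wN_1_rb8033094424_d44_d1e_d51_d03 : GoodKC AS c_wQ_26_wN_1_rb8033094424_d44_d1e_d51_d03 := p_wQ_26_wN_1_rb8033094424_d44_d1e_d51_d03

theorem g_wQ_26_wN_1_rb8033094424_d44_d1e_d51_d02 : GoodKC AS c_wQ_26_wN_1_rb8033094424_d44_d1e_d51_d02 := p_wQ_26_wN_1_rb8033094424_d44_d1e_d51_d02

theorem g_wQ_26_wN_1_rb8033094424_d44_d1e_d51_d01 : GoodKC AS c_wQ_26_wN_1_rb8033094424_d44_d1e_d51_d01 := p_wQ_26_wN_1_rb8033094424_d44_d1e_d51_d01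

theorem g_wQ_26_wN_1_rb8033094424_d44_d1e_d51_d07 : GoodKC AS c_wQ_26_wN_1_rb8033094424_d44_d1e_d51_d07 := p_wQ_26_wN_1_rb8033094424_d44_d1e_d51_d07

theorem g_wQ_26_wN_1_rb8033094424_d44_d1e_d51_d08 : GoodKC AS c_wQ_26_wN_1_rb8033094424_d44_d1e_d51_d08 := p_wQ_26_wN_1_rb8033094424_d44_d1e_d51_d08

theorem g_wQ_26_wN_1_rb8033094424_d44_d1e_d51_d11 : GoodKC AS c_wQ_26_wN_1_rb8033094424_d44_d1e_d51_d11 := p_wQ_26_wN_1_rb8033094424_d44_d1e_d51_d11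

theorem g_wQ_26_wN_1_rb8033094424_d44_d1e_d51_d12 : GoodKC AS c_wQ_26_wN_1_rb8033094424_d44_d1e_d51_d12 := p_wQ_26_wN_1_rb8033094424_d44_d1e_d51_d12

theorem g_wQ_26_wN_1_rb8033094424_d44_d1e_d51_d13 : GoodKC AS c_wQ_26_wN_1_rb8033094424_d44_d1e_d51_d13 := p_wQ_26_wN_1_rb8033094424_d44_d1e_d51_d13

theorem g__wQ_26_wN_1_rb8033094424_d44_d1e_d51_d15_1 : GoodKC AS k_wQ_26_wN_1_rb8033094424_d44_d1e_d51_d15_1 := p_wQ_26_wN_1_rb8033094424_d44_d1e_d51_d15_1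

theorem g__wQ_26_wN_1_rb8033094424_d44_d1e_d51_d15_0 : GoodKC AS k_wQ_26_wN_1_rb8033094424_d44_d1e_d51_d15_0 := p_wQ_26_wN_1_rb8033094424_d44_d1e_d51_d15_0 g__wQ_26_wN_1_rb8033094424_d44_d1e_d51_d15_1

theorem g__wQ_26_wN_1_rb8033094424_d44_d1e_d51_d15_2 : GoodKC AS k_wQ_26_wN_1_rb8033094424_d44_d1e_d51_d15_2 := p_wQ_26_wN_1_rb8033094424_d44_d1e_d51_d15_2

theorem g__wQ_26_wN_1_rb8033094424_d44_d1e_d51_d15_3 : GoodKC AS k_wQ_26_wN_1_rb8033094424_d44_d1e_d51_d15_3 := p_wQ_26_wN_1_rb8033094424_d44_d1e_d51_d15_3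

theorem g_wQ_26_wN_1_rb8033094424_d44_d1e_d51_d15 : GoodKC AS c_wQ_26_wN_1_rb8033094424_d44_d1e_d51_d15 := p_wQ_26_wN_1_rb8033094424_d44_d1e_d51_d15 g__wQ_26_wN_1_rb8033094424_d44_d1e_d51_d15_0 g__wQ_26_wN_1_rb8033094424_d44_d1e_d51_d15_2 g__wQ_26_wN_1_rb8033094424_d44_d1e_d51_d15_3

theorem g_wQ_26_wN_1_rb8033094424_d44_d1e_d51_d17 : GoodKC AS c_wQ_26_wN_1_rb8033094424_d44_d1e_d51_d17 := p_wQ_26_wN_1_rb8033094424_d44_d1e_d51_d17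

theorem g_wQ_26_wN_1_rb8033094424_d44_d1e_d51_d19 : GoodKC AS c_wQ_26_wN_1_rb8033094424_d44_d1e_d51_d19 := p_wQ_26_wN_1_rb8033094424_d44_d1e_d51_d19

theorem g_wQ_26_wN_1_rb8033094424_d44_d1e_d51_d1c : GoodKC AS c_wQ_26_wN_1_rb8033094424_d44_d1e_d51_d1c := p_wQ_26_wN_1_rb8033094424_d44_d1e_d51_d1c

theorem g_wQ_26_wN_1_rb8033094424_d44_d1e_d51_d1e : GoodKC AS c_wQ_26_wN_1_rb8033094424_d44_d1e_d51_d1e := p_wQ_26_wN_1_rb8033094424_d44_d1e_d51_d1e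

theorem g_wQ_26_wN_1_rb8033094424_d44_d1e_d51_d22 : GoodKC AS c_wQ_26_wN_1_rb8033094424_d44_d1e_d51_d22 := p_wQ_26_wN_1_rb8033094424_d44_d1e_d51_d22

theorem g__wQ_26_wN_1_rb8033094424_d44_d1e_d51_d23_2 : GoodKC AS k_wQ_26_wN_1_rb8033094424_d44_d1e_d51_d23_2 := p_wQ_26_wN_1_rb8033094424_d44_d1e_d51_d23_2

theorem g__wQ_26_wN_1_rb8033094424_d44_d1e_d51_d23_1 : GoodKC AS k_wQ_26_wN_1_rb8033094424_d44_d1e_d51_d23_1 := p_wQ_26_wN_1_rb8033094424_d44_d1e_d51_d23_1 g__wQ_26_wN_1_rb8033094424_d44_d1e_d51_d23_2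

theorem g__wQ_26_wN_1_rb8033094424_d44_d1e_d51_d23_4 : GoodKC AS k_wQ_26_wN_1_rb8033094424_d44_d1e_d51_d23_4 := p_wQ_26_wN_1_rb8033094424_d44_d1e_d51_d23_4

theorem g__wQ_26_wN_1_rb8033094424_d44_d1e_d51_d23_3 : GoodKC AS k_wQ_26_wN_1_rb8033094424_d44_d1e_d51_d23_3 := p_wQ_26_wN_1_rb8033094424_d44_d1e_d51_d23_3 g__wQ_26_wN_1_rb8033094424_d44_d1e_d51_d23_4

theorem g__wQ_26_wN_1_rb8033094424_d44_d1e_d51_d23_11 : GoodKC AS k_wQ_26_wN_1_rb8033094424_d44_d1e_d51_d23_11 := p_wQ_26_wN_1_rb8033094424_d44_d1e_d51_d23_11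

theorem g__wQ_26_wN_1_rb8033094424_d44_d1e_d51_d23_10 : GoodKC AS k_wQ_26_wN_1_rb8033094424_d44_d1e_d51_d23_10 := p_wQ_26_wN_1_rb8033094424_d44_d1e_d51_d23_10 g__wQ_26_wN_1_rb8033094424_d44_d1e_d51_d23_11

theorem g__wQ_26_wN_1_rb8033094424_d44_d1e_d51_d23_9 : GoodKC AS k_wQ_26_wN_1_rb8033094424_d44_d1e_d51_d23_9 := p_wQ_26_wN_1_rb8033094424_d44_d1e_d51_d23_9 g__wQ_26_wN_1_rb8033094424_d44_d1e_d51_d23_10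

theorem g__wQ_26_wN_1_rb8033094424_d44_d1e_d51_d23_8 : GoodKC AS k_wQ_26_wN_1_rb8033094424_d44_d1e_d51_d23_8 := p_wQ_26_wN_1_rb8033094424_d44_d1e_d51_d23_8 g__wQ_26_wN_1_rb8033094424_d44_d1e_d51_d23_9

theorem g__wQ_26_wN_1_rb8033094424_d44_d1e_d51_d23_7 : GoodKC AS k_wQ_26_wN_1_rb8033094424_d44_d1e_d51_d23_7 := p_wQ_26_wN_1_rb8033094424_d44_d1e_d51_d23_7 g__wQ_26_wN_1_rb8033094424_d44_d1e_d51_d23_8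

theorem g__wQ_26_wN_1_rb8033094424_d44_d1e_d51_d23_6 : GoodKC AS k_wQ_26_wN_1_rb8033094424_d44_d1e_d51_d23_6 := p_wQ_26_wN_1_rb8033094424_d44_d1e_d51_d23_6 g__wQ_26_wN_1_rb8033094424_d44_d1e_d51_d23_7

theorem g__wQ_26_wN_1_rb8033094424_d44_d1e_d51_d23_13 : GoodKC AS k_wQ_26_wN_1_rb8033094424_d44_d1e_d51_d23_13 := p_wQ_26_wN_1_rb8033094424_d44_d1e_d51_d23_13

theorem g__wQ_26_wN_1_rb8033094424_d44_d1e_d51_d23_12 : GoodKC AS k_wQ_26_wN_1_rb8033094424_d44_d1e_d51_d23_12 := p_wQ_26_wN_1_rb8033094424_d44_d1e_d51_d23_12 g__wQ_26_wN_1_rb8033094424_d44_d1e_d51_d23_13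

theorem g__wQ_26_wN_1_rb8033094424_d44_d1e_d51_d23_5 : GoodKC AS k_wQ_26_wN_1_rb8033094424_d44_d1e_d51_d23_5 := p_wQ_26_wN_1_rb8033094424_d44_d1e_d51_d23_5 g__wQ_26_wN_1_rb8033094424_d44_d1e_d51_d23_6 g__wQ_26_wN_1_rb8033094424_d44_d1e_d51_d23_12

theorem g__wQ_26_wN_1_rb8033094424_d44_d1e_d51_d23_0 : GoodKC AS k_wQ_26_wN_1_rb8033094424_d44_d1e_d51_d23_0 := p_wQ_26_wN_1_rb8033094424_d44_d1e_d51_d23_0 g__wQ_26_wN_1_rb8033094424_d44_d1e_d51_d23_1 g__wQ_26_wN_1_rb8033094424_d44_d1e_d51_d23_3 g__wQ_26_wN_1_rb8033094424_d44_d1e_d51_d23_5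

theorem g_wQ_26_wN_1_rb8033094424_d44_d1e_d51_d23 : GoodKC AS c_wQ_26_wN_1_rb8033094424_d44_d1e_d51_d23 := p_wQ_26_wN_1_rb8033094424_d44_d1e_d51_d23 g__wQ_26_wN_1_rb8033094424_d44_d1e_d51_d23_0

theorem g_wQ_26_wN_1_rb8033094424_d44_d1ex7 : GoodKC AS c_wQ_26_wN_1_rb8033094424_d44_d1ex7 := p_wQ_26_wN_1_rb8033094424_d44_d1e g_wQ_26_wN_1_rb8033094424_d44_d1e_d51_d24 g_wQ_26_wN_1_rb8033094424_d44_d1e_d51_d21 g_wQ_26_wN_1_rb8033094424_d44_d1e_d51_d20 g_wQ_26_wN_1_rb8033094424_d44_d1e_d51_d1f g_wQ_26_wN_1_rb8033094424_d44_d1e_d51_d1d g_wQ_26_wN_1_rb8033094424_d44_d1e_d51_d1b g_wQ_26_wN_1_rb8033094424_d44_d1e_d51_d1a g_wQ_26_wN_1_rb8033094424_d44_d1e_d51_d18 g_wQ_26_wN_1_rb8033094424_d44_d1e_d51_d16 g_wQ_26_wN_1_rb8033094424_d44_d1e_d51_d14 g_wQ_26_wN_1_rb8033094424_d44_d1e_d51_d10 g_wQ_26_wN_1_rb8033094424_d44_d1e_d51_d0f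 g_wQ_26_wN_1_rb8033094424_d44_d1e_d51_d0e g_wQ_26_wN_1_rb8033094424_d44_d1e_d51_d0d g_wQ_26_wN_1_rb8033094424_d44_d1e_d51_d0c g_wQ_26_wN_1_rb8033094424_d44_d1e_d51_d0b g_wQ_26_wN_1_rb8033094424_d44_d1e_d51_d0a g_wQ_26_wN_1_rb8033094424_d44_d1e_d51_d09 g_wQ_26_wN_1_rb8033094424_d44_d1e_d51_d00 g_wQ_26_wN_1_rb8033094424_d44_d1e_d51_d06 g_wQ_26_wN_1_rb8033094424_d44_d1e_d51_d05 g_wQ_26_wN_1_rb8033094424_d44_d1e_d51_d04 g_wQ_26_wN_1_rb8033094424_d44_d1e_d51_d03 g_wQ_26_wN_1_rb8033094424_d44_d1e_d51_d02 g_wQ_26_wN_1_rb8033094424_d44_d1e_d51_d01 g_wQ_26_wN_1_rb8033094424_d44_d1e_d51_d07 g_wQ_26_wN_1_rb8033094424_d44_d1e_d51_d08 g_wQ_26_wN_1_rb8033094424_d44_d1e_d51_d11 g_wQ_26_wN_1_rb8033094424_d44_d1e_d51_d12 g_wQ_26_wN_1_rb8033094424_d44_d1e_d51_d13 g_wQ_26_wN_1_rb8033094424_d44_d1e_d51_d15 g_wQ_26_wN_1_rb8033094424_d44_d1e_d51_d17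 g_wQ_26_wN_1_rb8033094424_d44_d1e_d51_d19 g_wQ_26_wN_1_rb8033094424_d44_d1e_d51_d1c g_wQ_26_wN_1_rb8033094424_d44_d1e_d51_d1e g_wQ_26_wN_1_rb8033094424_d44_d1e_d51_d22 g_wQ_26_wN_1_rb8033094424_d44_d1e_d51_d23

theorem g_wQ_26_wN_1_rb8033094424_d44_d1ax7 : GoodKC AS c_wQ_26_wN_1_rb8033094424_d44_d1ax7 := p_wQ_26_wN_1_rb8033094424_d44_d1a

theorem g__wQ_26_wN_1_rb8033094424_d44_d19_0 : GoodKC AS k_wQ_26_wN_1_rb8033094424_d44_d19_0 := p_wQ_26_wN_1_rb8033094424_d44_d19_0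

theorem g__wQ_26_wN_1_rb8033094424_d44_d19_1 : GoodKC AS k_wQ_26_wN_1_rb8033094424_d44_d19_1 := p_wQ_26_wN_1_rb8033094424_d44_d19_1

theorem g_wQ_26_wN_1_rb8033094424_d44_d19x7 : GoodKC AS c_wQ_26_wN_1_rb8033094424_d44_d19x7 := p_wQ_26_wN_1_rb8033094424_d44_d19 g__wQ_26_wN_1_rb8033094424_d44_d19_0 g__wQ_26_wN_1_rb8033094424_d44_d19_1

theorem g_wQ_26_wN_1_rb8033094424_d44_d17x7 : GoodKC AS c_wQ_26_wN_1_rb8033094424_d44_d17x7 := p_wQ_26_wN_1_rb8033094424_d44_d17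

theorem g_wQ_26_wN_1_rb8033094424_d44_d16x7 : GoodKC AS c_wQ_26_wN_1_rb8033094424_d44_d16x7 := p_wQ_26_wN_1_rb8033094424_d44_d16

theorem g_wQ_26_wN_1_rb8033094424_d44_d15x7 : GoodKC AS c_wQ_26_wN_1_rb8033094424_d44_d15x7 := p_wQ_26_wN_1_rb8033094424_d44_d15

theorem g_wQ_26_wN_1_rb8033094424_d44_d14x7 : GoodKC AS c_wQ_26_wN_1_rb8033094424_d44_d14x7 := p_wQ_26_wN_1_rb8033094424_d44_d14

theorem g_wQ_26_wN_1_rb8033094424_d44_d13x7 : GoodKC AS c_wQ_26_wN_1_rb8033094424_d44_d13x7 := p_wQ_26_wN_1_rb8033094424_d44_d13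

theorem g_wQ_26_wN_1_rb8033094424_d44_d12x7 : GoodKC AS c_wQ_26_wN_1_rb8033094424_d44_d12x7 := p_wQ_26_wN_1_rb8033094424_d44_d12

theorem g_wQ_26_wN_1_rb8033094424_d44_d11x7 : GoodKC AS c_wQ_26_wN_1_rb8033094424_d44_d11x7 := p_wQ_26_wN_1_rb8033094424_d44_d11

theorem g_wQ_26_wN_1_rb8033094424_d44_d0bx7 : GoodKC AS c_wQ_26_wN_1_rb8033094424_d44_d0bx7 := p_wQ_26_wN_1_rb8033094424_d44_d0b

theorem g_wQ_26_wN_1_rb8033094424_d44_d0ax7 : GoodKC AS c_wQ_26_wN_1_rb8033094424_d44_d0ax7 := p_wQ_26_wN_1_rb8033094424_d44_d0a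

theorem g_wQ_26_wN_1_rb8033094424_d44_d08x7 : GoodKC AS c_wQ_26_wN_1_rb8033094424_d44_d08x7 := p_wQ_26_wN_1_rb8033094424_d44_d08

theorem g_wQ_26_wN_1_rb8033094424_d44_d07x7 : GoodKC AS c_wQ_26_wN_1_rb8033094424_d44_d07x7 := p_wQ_26_wN_1_rb8033094424_d44_d07

theorem g_wQ_26_wN_1_rb8033094424_d44_d06x7 : GoodKC AS c_wQ_26_wN_1_rb8033094424_d44_d06x7 := p_wQ_26_wN_1_rb8033094424_d44_d06

theorem g_wQ_26_wN_1_rb8033094424_d44_d05x7 : GoodKC AS c_wQ_26_wN_1_rb8033094424_d44_d05x7 := p_wQ_26_wN_1_rb8033094424_d44_d05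

theorem g_wQ_26_wN_1_rb8033094424_d44_d03x7 : GoodKC AS c_wQ_26_wN_1_rb8033094424_d44_d03x7 := p_wQ_26_wN_1_rb8033094424_d44_d03

theorem g_wQ_26_wN_1_rb8033094424_d44_d00x7 : GoodKC AS c_wQ_26_wN_1_rb8033094424_d44_d00x7 := p_wQ_26_wN_1_rb8033094424_d44_d00

theorem g_wQ_26_wN_1_rb8033094424_d44_d01x7 : GoodKC AS c_wQ_26_wN_1_rb8033094424_d44_d01x7 := p_wQ_26_wN_1_rb8033094424_d44_d01

theorem g_wQ_26_wN_1_rb8033094424_d44_d02x7 : GoodKC AS c_wQ_26_wN_1_rb8033094424_d44_d02x7 := p_wQ_26_wN_1_rb8033094424_d44_d02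

theorem g_wQ_26_wN_1_rb8033094424_d44_d04x7 : GoodKC AS c_wQ_26_wN_1_rb8033094424_d44_d04x7 := p_wQ_26_wN_1_rb8033094424_d44_d04

theorem g_wQ_26_wN_1_rb8033094424_d44_d09x7 : GoodKC AS c_wQ_26_wN_1_rb8033094424_d44_d09x7 := p_wQ_26_wN_1_rb8033094424_d44_d09

theorem g__wQ_26_wN_1_rb8033094424x7_2 : GoodKC AS k_wQ_26_wN_1_rb8033094424x7_2 := p_wQ_26_wN_1_rb8033094424x7_2

theorem g__wQ_26_wN_1_rb8033094424x7_1 : GoodKC AS k_wQ_26_wN_1_rb8033094424x7_1 := p_wQ_26_wN_1_rb8033094424x7_1 g__wQ_26_wN_1_rb8033094424x7_2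

theorem g__wQ_26_wN_1_rb8033094424x7_3 : GoodKC AS k_wQ_26_wN_1_rb8033094424x7_3 := p_wQ_26_wN_1_rb8033094424x7_3

theorem g__wQ_26_wN_1_rb8033094424x7_0 : GoodKC AS k_wQ_26_wN_1_rb8033094424x7_0 := p_wQ_26_wN_1_rb8033094424x7_0 g__wQ_26_wN_1_rb8033094424x7_1 g__wQ_26_wN_1_rb8033094424x7_3

theorem g__wQ_26_wN_1_rb8033094424x7_4 : GoodKC AS k_wQ_26_wN_1_rb8033094424x7_4 := p_wQ_26_wN_1_rb8033094424x7_4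

theorem g__wQ_26_wN_1_rb8033094424x7_7 : GoodKC AS k_wQ_26_wN_1_rb8033094424x7_7 := p_wQ_26_wN_1_rb8033094424x7_7

theorem g__wQ_26_wN_1_rb8033094424x7_6 : GoodKC AS k_wQ_26_wN_1_rb8033094424x7_6 := p_wQ_26_wN_1_rb8033094424x7_6 g__wQ_26_wN_1_rb8033094424x7_7

theorem g__wQ_26_wN_1_rb8033094424x7_9 : GoodKC AS k_wQ_26_wN_1_rb8033094424x7_9 := p_wQ_26_wN_1_rb8033094424x7_9

theorem g__wQ_26_wN_1_rb8033094424x7_8 : GoodKC AS k_wQ_26_wN_1_rb8033094424x7_8 := p_wQ_26_wN_1_rb8033094424x7_8 g__wQ_26_wN_1_rb8033094424x7_9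

theorem g__wQ_26_wN_1_rb8033094424x7_5 : GoodKC AS k_wQ_26_wN_1_rb8033094424x7_5 := p_wQ_26_wN_1_rb8033094424x7_5 g__wQ_26_wN_1_rb8033094424x7_6 g__wQ_26_wN_1_rb8033094424x7_8

theorem g__wQ_26_wN_1_rb8033094424_d44_d0c_3 : GoodKC AS k_wQ_26_wN_1_rb8033094424_d44_d0c_3 := p_wQ_26_wN_1_rb8033094424_d44_d0c_3

theorem g__wQ_26_wN_1_rb8033094424_d44_d0c_2 : GoodKC AS k_wQ_26_wN_1_rb8033094424_d44_d0c_2 := p_wQ_26_wN_1_rb8033094424_d44_d0c_2 g__wQ_26_wN_1_rb8033094424_d44_d0c_3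

theorem g__wQ_26_wN_1_rb8033094424_d44_d0c_1 : GoodKC AS k_wQ_26_wN_1_rb8033094424_d44_d0c_1 := p_wQ_26_wN_1_rb8033094424_d44_d0c_1 g__wQ_26_wN_1_rb8033094424_d44_d0c_2

theorem g__wQ_26_wN_1_rb8033094424_d44_d0c_0 : GoodKC AS k_wQ_26_wN_1_rb8033094424_d44_d0c_0 := p_wQ_26_wN_1_rb8033094424_d44_d0c_0 g__wQ_26_wN_1_rb8033094424_d44_d0c_1

theorem g_wQ_26_wN_1_rb8033094424_d44_d0cx7 : GoodKC AS c_wQ_26_wN_1_rb8033094424_d44_d0cx7 := p_wQ_26_wN_1_rb8033094424_d44_d0c g__wQ_26_wN_1_rb8033094424_d44_d0c_0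

theorem g__wQ_26_wN_1_rb8033094424_d44_d0d_1 : GoodKC AS k_wQ_26_wN_1_rb8033094424_d44_d0d_1 := p_wQ_26_wN_1_rb8033094424_d44_d0d_1

theorem g__wQ_26_wN_1_rb8033094424_d44_d0d_0 : GoodKC AS k_wQ_26_wN_1_rb8033094424_d44_d0d_0 := p_wQ_26_wN_1_rb8033094424_d44_d0d_0 g__wQ_26_wN_1_rb8033094424_d44_d0d_1

theorem g_wQ_26_wN_1_rb8033094424_d44_d0dx7 : GoodKC AS c_wQ_26_wN_1_rb8033094424_d44_d0dx7 := p_wQ_26_wN_1_rb8033094424_d44_d0d g__wQ_26_wN_1_rb8033094424_d44_d0d_0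

theorem g__wQ_26_wN_1_rb8033094424_d44_d0e_0 : GoodKC AS k_wQ_26_wN_1_rb8033094424_d44_d0e_0 := p_wQ_26_wN_1_rb8033094424_d44_d0e_0

theorem g_wQ_26_wN_1_rb8033094424_d44_d0ex7 : GoodKC AS c_wQ_26_wN_1_rb8033094424_d44_d0ex7 := p_wQ_26_wN_1_rb8033094424_d44_d0e g__wQ_26_wN_1_rb8033094424_d44_d0e_0

theorem g__wQ_26_wN_1_rb8033094424_d44_d0f_0 : GoodKC AS k_wQ_26_wN_1_rb8033094424_d44_d0f_0 := p_wQ_26_wN_1_rb8033094424_d44_d0f_0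

theorem g_wQ_26_wN_1_rb8033094424_d44_d0fx7 : GoodKC AS c_wQ_26_wN_1_rb8033094424_d44_d0fx7 := p_wQ_26_wN_1_rb8033094424_d44_d0f g__wQ_26_wN_1_rb8033094424_d44_d0f_0

theorem g__wQ_26_wN_1_rb8033094424_d44_d10_2 : GoodKC AS k_wQ_26_wN_1_rb8033094424_d44_d10_2 := p_wQ_26_wN_1_rb8033094424_d44_d10_2

theorem g__wQ_26_wN_1_rb8033094424_d44_d10_4 : GoodKC AS k_wQ_26_wN_1_rb8033094424_d44_d10_4 := p_wQ_26_wN_1_rb8033094424_d44_d10_4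

theorem g__wQ_26_wN_1_rb8033094424_d44_d10_8 : GoodKC AS k_wQ_26_wN_1_rb8033094424_d44_d10_8 := p_wQ_26_wN_1_rb8033094424_d44_d10_8

theorem g__wQ_26_wN_1_rb8033094424_d44_d10_7 : GoodKC AS k_wQ_26_wN_1_rb8033094424_d44_d10_7 := p_wQ_26_wN_1_rb8033094424_d44_d10_7 g__wQ_26_wN_1_rb8033094424_d44_d10_8

theorem g__wQ_26_wN_1_rb8033094424_d44_d10_6 : GoodKC AS k_wQ_26_wN_1_rb8033094424_d44_d10_6 := p_wQ_26_wN_1_rb8033094424_d44_d10_6 g__wQ_26_wN_1_rb8033094424_d44_d10_7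

theorem g__wQ_26_wN_1_rb8033094424_d44_d10_11 : GoodKC AS k_wQ_26_wN_1_rb8033094424_d44_d10_11 := p_wQ_26_wN_1_rb8033094424_d44_d10_11

theorem g__wQ_26_wN_1_rb8033094424_d44_d10_13 : GoodKC AS k_wQ_26_wN_1_rb8033094424_d44_d10_13 := p_wQ_26_wN_1_rb8033094424_d44_d10_13

theorem g__wQ_26_wN_1_rb8033094424_d44_d10_12 : GoodKC AS k_wQ_26_wN_1_rb8033094424_d44_d10_12 := p_wQ_26_wN_1_rb8033094424_d44_d10_12 g__wQ_26_wN_1_rb8033094424_d44_d10_13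

theorem g__wQ_26_wN_1_rb8033094424_d44_d10_10 : GoodKC AS k_wQ_26_wN_1_rb8033094424_d44_d10_10 := p_wQ_26_wN_1_rb8033094424_d44_d10_10 g__wQ_26_wN_1_rb8033094424_d44_d10_11 g__wQ_26_wN_1_rb8033094424_d44_d10_12

theorem g__wQ_26_wN_1_rb8033094424_d44_d10_16 : GoodKC AS k_wQ_26_wN_1_rb8033094424_d44_d10_16 := p_wQ_26_wN_1_rb8033094424_d44_d10_16

theorem g__wQ_26_wN_1_rb8033094424_d44_d10_15 : GoodKC AS k_wQ_26_wN_1_rb8033094424_d44_d10_15 := p_wQ_26_wN_1_rb8033094424_d44_d10_15 g__wQ_26_wN_1_rb8033094424_d44_d10_16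

theorem g__wQ_26_wN_1_rb8033094424_d44_d10_17 : GoodKC AS k_wQ_26_wN_1_rb8033094424_d44_d10_17 := p_wQ_26_wN_1_rb8033094424_d44_d10_17

theorem g__wQ_26_wN_1_rb8033094424_d44_d10_14 : GoodKC AS k_wQ_26_wN_1_rb8033094424_d44_d10_14 := p_wQ_26_wN_1_rb8033094424_d44_d10_14 g__wQ_26_wN_1_rb8033094424_d44_d10_15 g__wQ_26_wN_1_rb8033094424_d44_d10_17

theorem g__wQ_26_wN_1_rb8033094424_d44_d10_9 : GoodKC AS k_wQ_26_wN_1_rb8033094424_d44_d10_9 := p_wQ_26_wN_1_rb8033094424_d44_d10_9 g__wQ_26_wN_1_rb8033094424_d44_d10_10 g__wQ_26_wN_1_rb8033094424_d44_d10_14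

theorem g__wQ_26_wN_1_rb8033094424_d44_d10_5 : GoodKC AS k_wQ_26_wN_1_rb8033094424_d44_d10_5 := p_wQ_26_wN_1_rb8033094424_d44_d10_5 g__wQ_26_wN_1_rb8033094424_d44_d10_6 g__wQ_26_wN_1_rb8033094424_d44_d10_9

theorem g__wQ_26_wN_1_rb8033094424_d44_d10_3 : GoodKC AS k_wQ_26_wN_1_rb8033094424_d44_d10_3 := p_wQ_26_wN_1_rb8033094424_d44_d10_3 g__wQ_26_wN_1_rb8033094424_d44_d10_4 g__wQ_26_wN_1_rb8033094424_d44_d10_5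

theorem g__wQ_26_wN_1_rb8033094424_d44_d10_1 : GoodKC AS k_wQ_26_wN_1_rb8033094424_d44_d10_1 := p_wQ_26_wN_1_rb8033094424_d44_d10_1 g__wQ_26_wN_1_rb8033094424_d44_d10_2 g__wQ_26_wN_1_rb8033094424_d44_d10_3

theorem g__wQ_26_wN_1_rb8033094424_d44_d10_0 : GoodKC AS k_wQ_26_wN_1_rb8033094424_d44_d10_0 := p_wQ_26_wN_1_rb8033094424_d44_d10_0 g__wQ_26_wN_1_rb8033094424_d44_d10_1

theorem g_wQ_26_wN_1_rb8033094424_d44_d10x7 : GoodKC AS c_wQ_26_wN_1_rb8033094424_d44_d10x7 := p_wQ_26_wN_1_rb8033094424_d44_d10 g__wQ_26_wN_1_rb8033094424_d44_d10_0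

theorem g_wQ_26_wN_1_rb8033094424_d44_d1818 : GoodKC AS c_wQ_26_wN_1_rb8033094424_d44_d1818 := p_wQ_26_wN_1_rb8033094424_d44_d1818

theorem g_wQ_26_wN_1_rb8033094424_d44_d1817 : GoodKC AS c_wQ_26_wN_1_rb8033094424_d44_d1817 := p_wQ_26_wN_1_rb8033094424_d44_d1817

theorem g_wQ_26_wN_1_rb8033094424_d44_d1816 : GoodKC AS c_wQ_26_wN_1_rb8033094424_d44_d1816 := p_wQ_26_wN_1_rb8033094424_d44_d1816

theorem g_wQ_26_wN_1_rb8033094424_d44_d1815 : GoodKC AS c_wQ_26_wN_1_rb8033094424_d44_d1815 := p_wQ_26_wN_1_rb8033094424_d44_d1815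

theorem g_wQ_26_wN_1_rb8033094424_d44_d1812 : GoodKC AS c_wQ_26_wN_1_rb8033094424_d44_d1812 := p_wQ_26_wN_1_rb8033094424_d44_d1812

theorem g_wQ_26_wN_1_rb8033094424_d44_d1811 : GoodKC AS c_wQ_26_wN_1_rb8033094424_d44_d1811 := p_wQ_26_wN_1_rb8033094424_d44_d1811

theorem g_wQ_26_wN_1_rb8033094424_d44_d180f : GoodKC AS c_wQ_26_wN_1_rb8033094424_d44_d180f := p_wQ_26_wN_1_rb8033094424_d44_d180f

theorem g__wQ_26_wN_1_rb8033094424_d44_d18_1 : GoodKC AS k_wQ_26_wN_1_rb8033094424_d44_d18_1 := p_wQ_26_wN_1_rb8033094424_d44_d18_1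

theorem g__wQ_26_wN_1_rb8033094424_d44_d18_2 : GoodKC AS k_wQ_26_wN_1_rb8033094424_d44_d18_2 := p_wQ_26_wN_1_rb8033094424_d44_d18_2

theorem g__wQ_26_wN_1_rb8033094424_d44_d18_0 : GoodKC AS k_wQ_26_wN_1_rb8033094424_d44_d18_0 := p_wQ_26_wN_1_rb8033094424_d44_d18_0 g__wQ_26_wN_1_rb8033094424_d44_d18_1 g__wQ_26_wN_1_rb8033094424_d44_d18_2

theorem g__wQ_26_wN_1_rb8033094424_d44_d18_5 : GoodKC AS k_wQ_26_wN_1_rb8033094424_d44_d18_5 := p_wQ_26_wN_1_rb8033094424_d44_d18_5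

theorem g__wQ_26_wN_1_rb8033094424_d44_d18_4 : GoodKC AS k_wQ_26_wN_1_rb8033094424_d44_d18_4 := p_wQ_26_wN_1_rb8033094424_d44_d18_4 g__wQ_26_wN_1_rb8033094424_d44_d18_5

theorem g__wQ_26_wN_1_rb8033094424_d44_d18_8 : GoodKC AS k_wQ_26_wN_1_rb8033094424_d44_d18_8 := p_wQ_26_wN_1_rb8033094424_d44_d18_8

theorem g__wQ_26_wN_1_rb8033094424_d44_d18_10 : GoodKC AS k_wQ_26_wN_1_rb8033094424_d44_d18_10 := p_wQ_26_wN_1_rb8033094424_d44_d18_10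

theorem g__wQ_26_wN_1_rb8033094424_d44_d18_9 : GoodKC AS k_wQ_26_wN_1_rb8033094424_d44_d18_9 := p_wQ_26_wN_1_rb8033094424_d44_d18_9 g__wQ_26_wN_1_rb8033094424_d44_d18_10

theorem g__wQ_26_wN_1_rb8033094424_d44_d18_13 : GoodKC AS k_wQ_26_wN_1_rb8033094424_d44_d18_13 := p_wQ_26_wN_1_rb8033094424_d44_d18_13

theorem g__wQ_26_wN_1_rb8033094424_d44_d18_15 : GoodKC AS k_wQ_26_wN_1_rb8033094424_d44_d18_15 := p_wQ_26_wN_1_rb8033094424_d44_d18_15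

theorem g__wQ_26_wN_1_rb8033094424_d44_d18_14 : GoodKC AS k_wQ_26_wN_1_rb8033094424_d44_d18_14 := p_wQ_26_wN_1_rb8033094424_d44_d18_14 g__wQ_26_wN_1_rb8033094424_d44_d18_15

theorem g__wQ_26_wN_1_rb8033094424_d44_d18_12 : GoodKC AS k_wQ_26_wN_1_rb8033094424_d44_d18_12 := p_wQ_26_wN_1_rb8033094424_d44_d18_12 g__wQ_26_wN_1_rb8033094424_d44_d18_13 g__wQ_26_wN_1_rb8033094424_d44_d18_14

theorem g__wQ_26_wN_1_rb8033094424_d44_d18_11 : GoodKC AS k_wQ_26_wN_1_rb8033094424_d44_d18_11 := p_wQ_26_wN_1_rb8033094424_d44_d18_11 g__wQ_26_wN_1_rb8033094424_d44_d18_12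

theorem g__wQ_26_wN_1_rb8033094424_d44_d18_7 : GoodKC AS k_wQ_26_wN_1_rb8033094424_d44_d18_7 := p_wQ_26_wN_1_rb8033094424_d44_d18_7 g__wQ_26_wN_1_rb8033094424_d44_d18_8 g__wQ_26_wN_1_rb8033094424_d44_d18_9 g__wQ_26_wN_1_rb8033094424_d44_d18_11

theorem g__wQ_26_wN_1_rb8033094424_d44_d18_20 : GoodKC AS k_wQ_26_wN_1_rb8033094424_d44_d18_20 := p_wQ_26_wN_1_rb8033094424_d44_d18_20

theorem g__wQ_26_wN_1_rb8033094424_d44_d18_19 : GoodKC AS k_wQ_26_wN_1_rb8033094424_d44_d18_19 := p_wQ_26_wN_1_rb8033094424_d44_d18_19 g__wQ_26_wN_1_rb8033094424_d44_d18_20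

theorem g__wQ_26_wN_1_rb8033094424_d44_d18_18 : GoodKC AS k_wQ_26_wN_1_rb8033094424_d44_d18_18 := p_wQ_26_wN_1_rb8033094424_d44_d18_18 g__wQ_26_wN_1_rb8033094424_d44_d18_19

theorem g__wQ_26_wN_1_rb8033094424_d44_d18_23 : GoodKC AS k_wQ_26_wN_1_rb8033094424_d44_d18_23 := p_wQ_26_wN_1_rb8033094424_d44_d18_23

theorem g__wQ_26_wN_1_rb8033094424_d44_d18_22 : GoodKC AS k_wQ_26_wN_1_rb8033094424_d44_d18_22 := p_wQ_26_wN_1_rb8033094424_d44_d18_22 g__wQ_26_wN_1_rb8033094424_d44_d18_23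

theorem g__wQ_26_wN_1_rb8033094424_d44_d18_21 : GoodKC AS k_wQ_26_wN_1_rb8033094424_d44_d18_21 := p_wQ_26_wN_1_rb8033094424_d44_d18_21 g__wQ_26_wN_1_rb8033094424_d44_d18_22

theorem g__wQ_26_wN_1_rb8033094424_d44_d18_17 : GoodKC AS k_wQ_26_wN_1_rb8033094424_d44_d18_17 := p_wQ_26_wN_1_rb8033094424_d44_d18_17 g__wQ_26_wN_1_rb8033094424_d44_d18_18 g__wQ_26_wN_1_rb8033094424_d44_d18_21

theorem g__wQ_26_wN_1_rb8033094424_d44_d18_16 : GoodKC AS k_wQ_26_wN_1_rb8033094424_d44_d18_16 := p_wQ_26_wN_1_rb8033094424_d44_d18_16 g__wQ_26_wN_1_rb8033094424_d44_d18_17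

theorem g__wQ_26_wN_1_rb8033094424_d44_d18_27 : GoodKC AS k_wQ_26_wN_1_rb8033094424_d44_d18_27 := p_wQ_26_wN_1_rb8033094424_d44_d18_27

theorem g__wQ_26_wN_1_rb8033094424_d44_d18_26 : GoodKC AS k_wQ_26_wN_1_rb8033094424_d44_d18_26 := p_wQ_26_wN_1_rb8033094424_d44_d18_26 g__wQ_26_wN_1_rb8033094424_d44_d18_27

theorem g__wQ_26_wN_1_rb8033094424_d44_d18_29 : GoodKC AS k_wQ_26_wN_1_rb8033094424_d44_d18_29 := p_wQ_26_wN_1_rb8033094424_d44_d18_29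

theorem g__wQ_26_wN_1_rb8033094424_d44_d18_28 : GoodKC AS k_wQ_26_wN_1_rb8033094424_d44_d18_28 := p_wQ_26_wN_1_rb8033094424_d44_d18_28 g__wQ_26_wN_1_rb8033094424_d44_d18_29

theorem g__wQ_26_wN_1_rb8033094424_d44_d18_30 : GoodKC AS k_wQ_26_wN_1_rb8033094424_d44_d18_30 := p_wQ_26_wN_1_rb8033094424_d44_d18_30

theorem g__wQ_26_wN_1_rb8033094424_d44_d18_25 : GoodKC AS k_wQ_26_wN_1_rb8033094424_d44_d18_25 := p_wQ_26_wN_1_rb8033094424_d44_d18_25 g__wQ_26_wN_1_rb8033094424_d44_d18_26 g__wQ_26_wN_1_rb8033094424_d44_d18_28 g__wQ_26_wN_1_rb8033094424_d44_d18_30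

theorem g__wQ_26_wN_1_rb8033094424_d44_d18_24 : GoodKC AS k_wQ_26_wN_1_rb8033094424_d44_d18_24 := p_wQ_26_wN_1_rb8033094424_d44_d18_24 g__wQ_26_wN_1_rb8033094424_d44_d18_25

theorem g__wQ_26_wN_1_rb8033094424_d44_d18_6 : GoodKC AS k_wQ_26_wN_1_rb8033094424_d44_d18_6 := p_wQ_26_wN_1_rb8033094424_d44_d18_6 g__wQ_26_wN_1_rb8033094424_d44_d18_7 g__wQ_26_wN_1_rb8033094424_d44_d18_16 g__wQ_26_wN_1_rb8033094424_d44_d18_24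

theorem g__wQ_26_wN_1_rb8033094424_d44_d18_37 : GoodKC AS k_wQ_26_wN_1_rb8033094424_d44_d18_37 := p_wQ_26_wN_1_rb8033094424_d44_d18_37

theorem g__wQ_26_wN_1_rb8033094424_d44_d18_36 : GoodKC AS k_wQ_26_wN_1_rb8033094424_d44_d18_36 := p_wQ_26_wN_1_rb8033094424_d44_d18_36 g__wQ_26_wN_1_rb8033094424_d44_d18_37

theorem g__wQ_26_wN_1_rb8033094424_d44_d18_35 : GoodKC AS k_wQ_26_wN_1_rb8033094424_d44_d18_35 := p_wQ_26_wN_1_rb8033094424_d44_d18_35 g__wQ_26_wN_1_rb8033094424_d44_d18_36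

theorem g__wQ_26_wN_1_rb8033094424_d44_d18_34 : GoodKC AS k_wQ_26_wN_1_rb8033094424_d44_d18_34 := p_wQ_26_wN_1_rb8033094424_d44_d18_34 g__wQ_26_wN_1_rb8033094424_d44_d18_35

theorem g__wQ_26_wN_1_rb8033094424_d44_d18_33 : GoodKC AS k_wQ_26_wN_1_rb8033094424_d44_d18_33 := p_wQ_26_wN_1_rb8033094424_d44_d18_33 g__wQ_26_wN_1_rb8033094424_d44_d18_34

theorem g__wQ_26_wN_1_rb8033094424_d44_d18_32 : GoodKC AS k_wQ_26_wN_1_rb8033094424_d44_d18_32 := p_wQ_26_wN_1_rb8033094424_d44_d18_32 g__wQ_26_wN_1_rb8033094424_d44_d18_33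

theorem g__wQ_26_wN_1_rb8033094424_d44_d18_31 : GoodKC AS k_wQ_26_wN_1_rb8033094424_d44_d18_31 := p_wQ_26_wN_1_rb8033094424_d44_d18_31 g__wQ_26_wN_1_rb8033094424_d44_d18_32

theorem g__wQ_26_wN_1_rb8033094424_d44_d18_3 : GoodKC AS k_wQ_26_wN_1_rb8033094424_d44_d18_3 := p_wQ_26_wN_1_rb8033094424_d44_d18_3 g__wQ_26_wN_1_rb8033094424_d44_d18_4 g__wQ_26_wN_1_rb8033094424_d44_d18_6 g__wQ_26_wN_1_rb8033094424_d44_d18_31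

theorem g_wQ_26_wN_1_rb8033094424_d44_d180b : GoodKC AS c_wQ_26_wN_1_rb8033094424_d44_d180b := p_wQ_26_wN_1_rb8033094424_d44_d180b

theorem g_wQ_26_wN_1_rb8033094424_d44_d180a : GoodKC AS c_wQ_26_wN_1_rb8033094424_d44_d180a := p_wQ_26_wN_1_rb8033094424_d44_d180a

theorem g_wQ_26_wN_1_rb8033094424_d44_d1809 : GoodKC AS c_wQ_26_wN_1_rb8033094424_d44_d1809 := p_wQ_26_wN_1_rb8033094424_d44_d1809

theorem g__wQ_26_wN_1_rb8033094424_d44_d1807_0 : GoodKC AS k_wQ_26_wN_1_rb8033094424_d44_d1807_0 := p_wQ_26_wN_1_rb8033094424_d44_d1807_0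

theorem g_wQ_26_wN_1_rb8033094424_d44_d1807 : GoodKC AS c_wQ_26_wN_1_rb8033094424_d44_d1807 := p_wQ_26_wN_1_rb8033094424_d44_d1807 g__wQ_26_wN_1_rb8033094424_d44_d1807_0

theorem g_wQ_26_wN_1_rb8033094424_d44_d1806 : GoodKC AS c_wQ_26_wN_1_rb8033094424_d44_d1806 := p_wQ_26_wN_1_rb8033094424_d44_d1806

theorem g__wQ_26_wN_1_rb8033094424_d44_d1805_0 : GoodKC AS k_wQ_26_wN_1_rb8033094424_d44_d1805_0 := p_wQ_26_wN_1_rb8033094424_d44_d1805_0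

theorem g_wQ_26_wN_1_rb8033094424_d44_d1805 : GoodKC AS c_wQ_26_wN_1_rb8033094424_d44_d1805 := p_wQ_26_wN_1_rb8033094424_d44_d1805 g__wQ_26_wN_1_rb8033094424_d44_d1805_0

theorem g_wQ_26_wN_1_rb8033094424_d44_d1804 : GoodKC AS c_wQ_26_wN_1_rb8033094424_d44_d1804 := p_wQ_26_wN_1_rb8033094424_d44_d1804

theorem g_wQ_26_wN_1_rb8033094424_d44_d1803 : GoodKC AS c_wQ_26_wN_1_rb8033094424_d44_d1803 := p_wQ_26_wN_1_rb8033094424_d44_d1803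

theorem g_wQ_26_wN_1_rb8033094424_d44_d1800 : GoodKC AS c_wQ_26_wN_1_rb8033094424_d44_d1800 := p_wQ_26_wN_1_rb8033094424_d44_d1800

theorem g_wQ_26_wN_1_rb8033094424_d44_d1801 : GoodKC AS c_wQ_26_wN_1_rb8033094424_d44_d1801 := p_wQ_26_wN_1_rb8033094424_d44_d1801

theorem g_wQ_26_wN_1_rb8033094424_d44_d1802 : GoodKC AS c_wQ_26_wN_1_rb8033094424_d44_d1802 := p_wQ_26_wN_1_rb8033094424_d44_d1802

theorem g__wQ_26_wN_1_rb8033094424_d44_d18_38 : GoodKC AS k_wQ_26_wN_1_rb8033094424_d44_d18_38 := p_wQ_26_wN_1_rb8033094424_d44_d18_38 g_wQ_26_wN_1_rb8033094424_d44_d1804 g_wQ_26_wN_1_rb8033094424_d44_d1803 g_wQ_26_wN_1_rb8033094424_d44_d1800 g_wQ_26_wN_1_rb8033094424_d44_d1801 g_wQ_26_wN_1_rb8033094424_d44_d1802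

theorem g__wQ_26_wN_1_rb8033094424_d44_d18_41 : GoodKC AS k_wQ_26_wN_1_rb8033094424_d44_d18_41 := p_wQ_26_wN_1_rb8033094424_d44_d18_41

theorem g__wQ_26_wN_1_rb8033094424_d44_d18_40 : GoodKC AS k_wQ_26_wN_1_rb8033094424_d44_d18_40 := p_wQ_26_wN_1_rb8033094424_d44_d18_40 g__wQ_26_wN_1_rb8033094424_d44_d18_41

theorem g__wQ_26_wN_1_rb8033094424_d44_d18_39 : GoodKC AS k_wQ_26_wN_1_rb8033094424_d44_d18_39 := p_wQ_26_wN_1_rb8033094424_d44_d18_39 g__wQ_26_wN_1_rb8033094424_d44_d18_40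

theorem g_wQ_26_wN_1_rb8033094424_d44_d1808 : GoodKC AS c_wQ_26_wN_1_rb8033094424_d44_d1808 := p_wQ_26_wN_1_rb8033094424_d44_d1808

theorem g__wQ_26_wN_1_rb8033094424_d44_d180c_2 : GoodKC AS k_wQ_26_wN_1_rb8033094424_d44_d180c_2 := p_wQ_26_wN_1_rb8033094424_d44_d180c_2

theorem g__wQ_26_wN_1_rb8033094424_d44_d180c_1 : GoodKC AS k_wQ_26_wN_1_rb8033094424_d44_d180c_1 := p_wQ_26_wN_1_rb8033094424_d44_d180c_1 g__wQ_26_wN_1_rb8033094424_d44_d180c_2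

theorem g__wQ_26_wN_1_rb8033094424_d44_d180c_0 : GoodKC AS k_wQ_26_wN_1_rb8033094424_d44_d180c_0 := p_wQ_26_wN_1_rb8033094424_d44_d180c_0 g__wQ_26_wN_1_rb8033094424_d44_d180c_1

theorem g_wQ_26_wN_1_rb8033094424_d44_d180c : GoodKC AS c_wQ_26_wN_1_rb8033094424_d44_d180c := p_wQ_26_wN_1_rb8033094424_d44_d180c g__wQ_26_wN_1_rb8033094424_d44_d180c_0

theorem g__wQ_26_wN_1_rb8033094424_d44_d180d_5 : GoodKC AS k_wQ_26_wN_1_rb8033094424_d44_d180d_5 := p_wQ_26_wN_1_rb8033094424_d44_d180d_5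

theorem g__wQ_26_wN_1_rb8033094424_d44_d180d_8 : GoodKC AS k_wQ_26_wN_1_rb8033094424_d44_d180d_8 := p_wQ_26_wN_1_rb8033094424_d44_d180d_8

theorem g__wQ_26_wN_1_rb8033094424_d44_d180d_7 : GoodKC AS k_wQ_26_wN_1_rb8033094424_d44_d180d_7 := p_wQ_26_wN_1_rb8033094424_d44_d180d_7 g__wQ_26_wN_1_rb8033094424_d44_d180d_8

theorem g__wQ_26_wN_1_rb8033094424_d44_d180d_9 : GoodKC AS k_wQ_26_wN_1_rb8033094424_d44_d180d_9 := p_wQ_26_wN_1_rb8033094424_d44_d180d_9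

theorem g__wQ_26_wN_1_rb8033094424_d44_d180d_6 : GoodKC AS k_wQ_26_wN_1_rb8033094424_d44_d180d_6 := p_wQ_26_wN_1_rb8033094424_d44_d180d_6 g__wQ_26_wN_1_rb8033094424_d44_d180d_7 g__wQ_26_wN_1_rb8033094424_d44_d180d_9

theorem g__wQ_26_wN_1_rb8033094424_d44_d180d_4 : GoodKC AS k_wQ_26_wN_1_rb8033094424_d44_d180d_4 := p_wQ_26_wN_1_rb8033094424_d44_d180d_4 g__wQ_26_wN_1_rb8033094424_d44_d180d_5 g__wQ_26_wN_1_rb8033094424_d44_d180d_6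

theorem g__wQ_26_wN_1_rb8033094424_d44_d180d_15 : GoodKC AS k_wQ_26_wN_1_rb8033094424_d44_d180d_15 := p_wQ_26_wN_1_rb8033094424_d44_d180d_15

theorem g__wQ_26_wN_1_rb8033094424_d44_d180d_16 : GoodKC AS k_wQ_26_wN_1_rb8033094424_d44_d180d_16 := p_wQ_26_wN_1_rb8033094424_d44_d180d_16

theorem g__wQ_26_wN_1_rb8033094424_d44_d180d_14 : GoodKC AS k_wQ_26_wN_1_rb8033094424_d44_d180d_14 := p_wQ_26_wN_1_rb8033094424_d44_d180d_14 g__wQ_26_wN_1_rb8033094424_d44_d180d_15 g__wQ_26_wN_1_rb8033094424_d44_d180d_16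

theorem g__wQ_26_wN_1_rb8033094424_d44_d180d_13 : GoodKC AS k_wQ_26_wN_1_rb8033094424_d44_d180d_13 := p_wQ_26_wN_1_rb8033094424_d44_d180d_13 g__wQ_26_wN_1_rb8033094424_d44_d180d_14

theorem g__wQ_26_wN_1_rb8033094424_d44_d180d_12 : GoodKC AS k_wQ_26_wN_1_rb8033094424_d44_d180d_12 := p_wQ_26_wN_1_rb8033094424_d44_d180d_12 g__wQ_26_wN_1_rb8033094424_d44_d180d_13

theorem g__wQ_26_wN_1_rb8033094424_d44_d180d_11 : GoodKC AS k_wQ_26_wN_1_rb8033094424_d44_d180d_11 := p_wQ_26_wN_1_rb8033094424_d44_d180d_11 g__wQ_26_wN_1_rb8033094424_d44_d180d_12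

theorem g__wQ_26_wN_1_rb8033094424_d44_d180d_17 : GoodKC AS k_wQ_26_wN_1_rb8033094424_d44_d180d_17 := p_wQ_26_wN_1_rb8033094424_d44_d180d_17

theorem g__wQ_26_wN_1_rb8033094424_d44_d180d_18 : GoodKC AS k_wQ_26_wN_1_rb8033094424_d44_d180d_18 := p_wQ_26_wN_1_rb8033094424_d44_d180d_18

theorem g__wQ_26_wN_1_rb8033094424_d44_d180d_10 : GoodKC AS k_wQ_26_wN_1_rb8033094424_d44_d180d_10 := p_wQ_26_wN_1_rb8033094424_d44_d180d_10 g__wQ_26_wN_1_rb8033094424_d44_d180d_11 g__wQ_26_wN_1_rb8033094424_d44_d180d_17 g__wQ_26_wN_1_rb8033094424_d44_d180d_18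

theorem g__wQ_26_wN_1_rb8033094424_d44_d180d_21 : GoodKC AS k_wQ_26_wN_1_rb8033094424_d44_d180d_21 := p_wQ_26_wN_1_rb8033094424_d44_d180d_21

theorem g__wQ_26_wN_1_rb8033094424_d44_d180d_20 : GoodKC AS k_wQ_26_wN_1_rb8033094424_d44_d180d_20 := p_wQ_26_wN_1_rb8033094424_d44_d180d_20 g__wQ_26_wN_1_rb8033094424_d44_d180d_21

theorem g__wQ_26_wN_1_rb8033094424_d44_d180d_19 : GoodKC AS k_wQ_26_wN_1_rb8033094424_d44_d180d_19 := p_wQ_26_wN_1_rb8033094424_d44_d180d_19 g__wQ_26_wN_1_rb8033094424_d44_d180d_20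

theorem g__wQ_26_wN_1_rb8033094424_d44_d180d_3 : GoodKC AS k_wQ_26_wN_1_rb8033094424_d44_d180d_3 := p_wQ_26_wN_1_rb8033094424_d44_d180d_3 g__wQ_26_wN_1_rb8033094424_d44_d180d_4 g__wQ_26_wN_1_rb8033094424_d44_d180d_10 g__wQ_26_wN_1_rb8033094424_d44_d180d_19

theorem g__wQ_26_wN_1_rb8033094424_d44_d180d_2 : GoodKC AS k_wQ_26_wN_1_rb8033094424_d44_d180d_2 := p_wQ_26_wN_1_rb8033094424_d44_d180d_2 g__wQ_26_wN_1_rb8033094424_d44_d180d_3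

theorem g__wQ_26_wN_1_rb8033094424_d44_d180d_1 : GoodKC AS k_wQ_26_wN_1_rb8033094424_d44_d180d_1 := p_wQ_26_wN_1_rb8033094424_d44_d180d_1 g__wQ_26_wN_1_rb8033094424_d44_d180d_2

theorem g__wQ_26_wN_1_rb8033094424_d44_d180d_0 : GoodKC AS k_wQ_26_wN_1_rb8033094424_d44_d180d_0 := p_wQ_26_wN_1_rb8033094424_d44_d180d_0 g__wQ_26_wN_1_rb8033094424_d44_d180d_1

theorem g_wQ_26_wN_1_rb8033094424_d44_d180d : GoodKC AS c_wQ_26_wN_1_rb8033094424_d44_d180d := p_wQ_26_wN_1_rb8033094424_d44_d180d g__wQ_26_wN_1_rb8033094424_d44_d180d_0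

theorem g_wQ_26_wN_1_rb8033094424_d44_d180e : GoodKC AS c_wQ_26_wN_1_rb8033094424_d44_d180e := p_wQ_26_wN_1_rb8033094424_d44_d180e

theorem g__wQ_26_wN_1_rb8033094424_d44_d1810_1 : GoodKC AS k_wQ_26_wN_1_rb8033094424_d44_d1810_1 := p_wQ_26_wN_1_rb8033094424_d44_d1810_1

theorem g__wQ_26_wN_1_rb8033094424_d44_d1810_2 : GoodKC AS k_wQ_26_wN_1_rb8033094424_d44_d1810_2 := p_wQ_26_wN_1_rb8033094424_d44_d1810_2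

theorem g__wQ_26_wN_1_rb8033094424_d44_d1810_3 : GoodKC AS k_wQ_26_wN_1_rb8033094424_d44_d1810_3 := p_wQ_26_wN_1_rb8033094424_d44_d1810_3

theorem g__wQ_26_wN_1_rb8033094424_d44_d1810_0 : GoodKC AS k_wQ_26_wN_1_rb8033094424_d44_d1810_0 := p_wQ_26_wN_1_rb8033094424_d44_d1810_0 g__wQ_26_wN_1_rb8033094424_d44_d1810_1 g__wQ_26_wN_1_rb8033094424_d44_d1810_2 g__wQ_26_wN_1_rb8033094424_d44_d1810_3

theorem g__wQ_26_wN_1_rb8033094424_d44_d1810_5 : GoodKC AS k_wQ_26_wN_1_rb8033094424_d44_d1810_5 := p_wQ_26_wN_1_rb8033094424_d44_d1810_5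

theorem g__wQ_26_wN_1_rb8033094424_d44_d1810_4 : GoodKC AS k_wQ_26_wN_1_rb8033094424_d44_d1810_4 := p_wQ_26_wN_1_rb8033094424_d44_d1810_4 g__wQ_26_wN_1_rb8033094424_d44_d1810_5

theorem g__wQ_26_wN_1_rb8033094424_d44_d1810_6 : GoodKC AS k_wQ_26_wN_1_rb8033094424_d44_d1810_6 := p_wQ_26_wN_1_rb8033094424_d44_d1810_6

theorem g__wQ_26_wN_1_rb8033094424_d44_d1810_9 : GoodKC AS k_wQ_26_wN_1_rb8033094424_d44_d1810_9 := p_wQ_26_wN_1_rb8033094424_d44_d1810_9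

theorem g__wQ_26_wN_1_rb8033094424_d44_d1810_8 : GoodKC AS k_wQ_26_wN_1_rb8033094424_d44_d1810_8 := p_wQ_26_wN_1_rb8033094424_d44_d1810_8 g__wQ_26_wN_1_rb8033094424_d44_d1810_9

theorem g__wQ_26_wN_1_rb8033094424_d44_d1810_10 : GoodKC AS k_wQ_26_wN_1_rb8033094424_d44_d1810_10 := p_wQ_26_wN_1_rb8033094424_d44_d1810_10

theorem g__wQ_26_wN_1_rb8033094424_d44_d1810_7 : GoodKC AS k_wQ_26_wN_1_rb8033094424_d44_d1810_7 := p_wQ_26_wN_1_rb8033094424_d44_d1810_7 g__wQ_26_wN_1_rb8033094424_d44_d1810_8 g__wQ_26_wN_1_rb8033094424_d44_d1810_10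

theorem g_wQ_26_wN_1_rb8033094424_d44_d1810 : GoodKC AS c_wQ_26_wN_1_rb8033094424_d44_d1810 := p_wQ_26_wN_1_rb8033094424_d44_d1810 g__wQ_26_wN_1_rb8033094424_d44_d1810_0 g__wQ_26_wN_1_rb8033094424_d44_d1810_4 g__wQ_26_wN_1_rb8033094424_d44_d1810_6 g__wQ_26_wN_1_rb8033094424_d44_d1810_7

theorem g__wQ_26_wN_1_rb8033094424_d44_d1813v3_1 : GoodKC AS k_wQ_26_wN_1_rb8033094424_d44_d1813v3_1 := p_wQ_26_wN_1_rb8033094424_d44_d1813v3_1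

theorem g__wQ_26_wN_1_rb8033094424_d44_d1813v3_7 : GoodKC AS k_wQ_26_wN_1_rb8033094424_d44_d1813v3_7 := p_wQ_26_wN_1_rb8033094424_d44_d1813v3_7

theorem g__wQ_26_wN_1_rb8033094424_d44_d1813v3_6 : GoodKC AS k_wQ_26_wN_1_rb8033094424_d44_d1813v3_6 := p_wQ_26_wN_1_rb8033094424_d44_d1813v3_6 g__wQ_26_wN_1_rb8033094424_d44_d1813v3_7

theorem g__wQ_26_wN_1_rb8033094424_d44_d1813v3_5 : GoodKC AS k_wQ_26_wN_1_rb8033094424_d44_d1813v3_5 := p_wQ_26_wN_1_rb8033094424_d44_d1813v3_5 g__wQ_26_wN_1_rb8033094424_d44_d1813v3_6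

theorem g__wQ_26_wN_1_rb8033094424_d44_d1813v3_4 : GoodKC AS k_wQ_26_wN_1_rb8033094424_d44_d1813v3_4 := p_wQ_26_wN_1_rb8033094424_d44_d1813v3_4 g__wQ_26_wN_1_rb8033094424_d44_d1813v3_5

theorem g__wQ_26_wN_1_rb8033094424_d44_d1813v3_3 : GoodKC AS k_wQ_26_wN_1_rb8033094424_d44_d1813v3_3 := p_wQ_26_wN_1_rb8033094424_d44_d1813v3_3 g__wQ_26_wN_1_rb8033094424_d44_d1813v3_4

theorem g__wQ_26_wN_1_rb8033094424_d44_d1813v3_2 : GoodKC AS k_wQ_26_wN_1_rb8033094424_d44_d1813v3_2 := p_wQ_26_wN_1_rb8033094424_d44_d1813v3_2 g__wQ_26_wN_1_rb8033094424_d44_d1813v3_3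

theorem g__wQ_26_wN_1_rb8033094424_d44_d1813v3_8 : GoodKC AS k_wQ_26_wN_1_rb8033094424_d44_d1813v3_8 := p_wQ_26_wN_1_rb8033094424_d44_d1813v3_8

theorem g__wQ_26_wN_1_rb8033094424_d44_d1813v3_0 : GoodKC AS k_wQ_26_wN_1_rb8033094424_d44_d1813v3_0 := p_wQ_26_wN_1_rb8033094424_d44_d1813v3_0 g__wQ_26_wN_1_rb8033094424_d44_d1813v3_1 g__wQ_26_wN_1_rb8033094424_d44_d1813v3_2 g__wQ_26_wN_1_rb8033094424_d44_d1813v3_8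

theorem g_wQ_26_wN_1_rb8033094424_d44_d1813 : GoodKC AS c_wQ_26_wN_1_rb8033094424_d44_d1813 := p_wQ_26_wN_1_rb8033094424_d44_d1813v3 g__wQ_26_wN_1_rb8033094424_d44_d1813v3_0

theorem g__wQ_26_wN_1_rb8033094424_d44_d1814_2 : GoodKC AS k_wQ_26_wN_1_rb8033094424_d44_d1814_2 := p_wQ_26_wN_1_rb8033094424_d44_d1814_2

theorem g__wQ_26_wN_1_rb8033094424_d44_d1814_1 : GoodKC AS k_wQ_26_wN_1_rb8033094424_d44_d1814_1 := p_wQ_26_wN_1_rb8033094424_d44_d1814_1 g__wQ_26_wN_1_rb8033094424_d44_d1814_2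

theorem g__wQ_26_wN_1_rb8033094424_d44_d1814_0 : GoodKC AS k_wQ_26_wN_1_rb8033094424_d44_d1814_0 := p_wQ_26_wN_1_rb8033094424_d44_d1814_0 g__wQ_26_wN_1_rb8033094424_d44_d1814_1

theorem g_wQ_26_wN_1_rb8033094424_d44_d1814 : GoodKC AS c_wQ_26_wN_1_rb8033094424_d44_d1814 := p_wQ_26_wN_1_rb8033094424_d44_d1814 g__wQ_26_wN_1_rb8033094424_d44_d1814_0

theorem g_wQ_26_wN_1_rb8033094424_d44_d18x7 : GoodKC AS c_wQ_26_wN_1_rb8033094424_d44_d18x7 := p_wQ_26_wN_1_rb8033094424_d44_d18 g_wQ_26_wN_1_rb8033094424_d44_d1818 g_wQ_26_wN_1_rb8033094424_d44_d1817 g_wQ_26_wN_1_rb8033094424_d44_d1816 g_wQ_26_wN_1_rb8033094424_d44_d1815 g_wQ_26_wN_1_rb8033094424_d44_d1812 g_wQ_26_wN_1_rb8033094424_d44_d1811 g_wQ_26_wN_1_rb8033094424_d44_d180f g__wQ_26_wN_1_rb8033094424_d44_d18_0 g__wQ_26_wN_1_rb8033094424_d44_d18_3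 g_wQ_26_wN_1_rb8033094424_d44_d180b g_wQ_26_wN_1_rb8033094424_d44_d180a g_wQ_26_wN_1_rb8033094424_d44_d1809 g_wQ_26_wN_1_rb8033094424_d44_d1807 g_wQ_26_wN_1_rb8033094424_d44_d1806 g_wQ_26_wN_1_rb8033094424_d44_d1805 g__wQ_26_wN_1_rb8033094424_d44_d18_38 g__wQ_26_wN_1_rb8033094424_d44_d18_39 g_wQ_26_wN_1_rb8033094424_d44_d1808 g_wQ_26_wN_1_rb8033094424_d44_d180c g_wQ_26_wN_1_rb8033094424_d44_d180d g_wQ_26_wN_1_rb8033094424_d44_d180e g_wQ_26_wN_1_rb8033094424_d44_d1810 g_wQ_26_wN_1_rb8033094424_d44_d1813 g_wQ_26_wN_1_rb8033094424_d44_d1814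

theorem g_wQ_26_wN_1_rb8033094424_d44_d1bx7 : GoodKC AS c_wQ_26_wN_1_rb8033094424_d44_d1bx7 := p_wQ_26_wN_1_rb8033094424_d44_d1b

theorem g_wQ_26_wN_1_rb8033094424_d44_d1cx7 : GoodKC AS c_wQ_26_wN_1_rb8033094424_d44_d1cx7 := p_wQ_26_wN_1_rb8033094424_d44_d1c

theorem g_wQ_26_wN_1_rb8033094424_d44_d1dx7 : GoodKC AS c_wQ_26_wN_1_rb8033094424_d44_d1dx7 := p_wQ_26_wN_1_rb8033094424_d44_d1d

theorem g_wQ_26_wN_1_rb8033094424x13 : GoodKC AS c_wQ_26_wN_1_rb8033094424x13 := p_wQ_26_wN_1_rb8033094424x7 g_wQ_26_wN_1_rb8033094424_d44_d20x7 g_wQ_26_wN_1_rb8033094424_d44_d1fx7 g_wQ_26_wN_1_rb8033094424_d44_d1ex7 g_wQ_26_wN_1_rb8033094424_d44_d1ax7 g_wQ_26_wN_1_rb8033094424_d44_d19x7 g_wQ_26_wN_1_rb8033094424_d44_d17x7 g_wQ_26_wN_1_rb8033094424_d44_d16x7 g_wQ_26_wN_1_rb8033094424_d44_d15x7 g_wQ_26_wN_1_rb8033094424_d44_d14x7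 g_wQ_26_wN_1_rb8033094424_d44_d13x7 g_wQ_26_wN_1_rb8033094424_d44_d12x7 g_wQ_26_wN_1_rb8033094424_d44_d11x7 g_wQ_26_wN_1_rb8033094424_d44_d0bx7 g_wQ_26_wN_1_rb8033094424_d44_d0ax7 g_wQ_26_wN_1_rb8033094424_d44_d08x7 g_wQ_26_wN_1_rb8033094424_d44_d07x7 g_wQ_26_wN_1_rb8033094424_d44_d06x7 g_wQ_26_wN_1_rb8033094424_d44_d05x7 g_wQ_26_wN_1_rb8033094424_d44_d03x7 g_wQ_26_wN_1_rb8033094424_d44_d00x7 g_wQ_26_wN_1_rb8033094424_d44_d01x7 g_wQ_26_wN_1_rb8033094424_d44_d02x7 g_wQ_26_wN_1_rb8033094424_d44_d04x7 g_wQ_26_wN_1_rb8033094424_d44_d09x7 g__wQ_26_wN_1_rb8033094424x7_0 g__wQ_26_wN_1_rb8033094424x7_4 g__wQ_26_wN_1_rb8033094424x7_5 g_wQ_26_wN_1_rb8033094424_d44_d0cx7 g_wQ_26_wN_1_rb8033094424_d44_d0dx7 g_wQ_26_wN_1_rb8033094424_d44_d0ex7 g_wQ_26_wN_1_rb8033094424_d44_d0fx7 g_wQ_26_wN_1_rb8033094424_d44_d10x7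 g_wQ_26_wN_1_rb8033094424_d44_d18x7 g_wQ_26_wN_1_rb8033094424_d44_d1bx7 g_wQ_26_wN_1_rb8033094424_d44_d1cx7 g_wQ_26_wN_1_rb8033094424_d44_d1dx7

theorem g_wQ_26_wN_1_rb8033094423x13 : GoodKC AS c_wQ_26_wN_1_rb8033094423x13 := p_wQ_26_wN_1_rb8033094423x4

theorem g__wQ_26_wN_1_rb8033094422x4_3 : GoodKC AS k_wQ_26_wN_1_rb8033094422x4_3 := p_wQ_26_wN_1_rb8033094422x4_3

theorem g__wQ_26_wN_1_rb8033094422x4_2 : GoodKC AS k_wQ_26_wN_1_rb8033094422x4_2 := p_wQ_26_wN_1_rb8033094422x4_2 g__wQ_26_wN_1_rb8033094422x4_3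

theorem g__wQ_26_wN_1_rb8033094422x4_7 : GoodKC AS k_wQ_26_wN_1_rb8033094422x4_7 := p_wQ_26_wN_1_rb8033094422x4_7

theorem g__wQ_26_wN_1_rb8033094422x4_6 : GoodKC AS k_wQ_26_wN_1_rb8033094422x4_6 := p_wQ_26_wN_1_rb8033094422x4_6 g__wQ_26_wN_1_rb8033094422x4_7

theorem g__wQ_26_wN_1_rb8033094422x4_8 : GoodKC AS k_wQ_26_wN_1_rb8033094422x4_8 := p_wQ_26_wN_1_rb8033094422x4_8

theorem g__wQ_26_wN_1_rb8033094422x4_5 : GoodKC AS k_wQ_26_wN_1_rb8033094422x4_5 := p_wQ_26_wN_1_rb8033094422x4_5 g__wQ_26_wN_1_rb8033094422x4_6 g__wQ_26_wN_1_rb8033094422x4_8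

theorem g__wQ_26_wN_1_rb8033094422x4_12 : GoodKC AS k_wQ_26_wN_1_rb8033094422x4_12 := p_wQ_26_wN_1_rb8033094422x4_12

theorem g__wQ_26_wN_1_rb8033094422x4_11 : GoodKC AS k_wQ_26_wN_1_rb8033094422x4_11 := p_wQ_26_wN_1_rb8033094422x4_11 g__wQ_26_wN_1_rb8033094422x4_12

theorem g__wQ_26_wN_1_rb8033094422x4_10 : GoodKC AS k_wQ_26_wN_1_rb8033094422x4_10 := p_wQ_26_wN_1_rb8033094422x4_10 g__wQ_26_wN_1_rb8033094422x4_11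

theorem g__wQ_26_wN_1_rb8033094422x4_9 : GoodKC AS k_wQ_26_wN_1_rb8033094422x4_9 := p_wQ_26_wN_1_rb8033094422x4_9 g__wQ_26_wN_1_rb8033094422x4_10

theorem g__wQ_26_wN_1_rb8033094422x4_4 : GoodKC AS k_wQ_26_wN_1_rb8033094422x4_4 := p_wQ_26_wN_1_rb8033094422x4_4 g__wQ_26_wN_1_rb8033094422x4_5 g__wQ_26_wN_1_rb8033094422x4_9

theorem g__wQ_26_wN_1_rb8033094422x4_1 : GoodKC AS k_wQ_26_wN_1_rb8033094422x4_1 := p_wQ_26_wN_1_rb8033094422x4_1 g__wQ_26_wN_1_rb8033094422x4_2 g__wQ_26_wN_1_rb8033094422x4_4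

theorem g__wQ_26_wN_1_rb8033094422x4_13 : GoodKC AS k_wQ_26_wN_1_rb8033094422x4_13 := p_wQ_26_wN_1_rb8033094422x4_13

theorem g__wQ_26_wN_1_rb8033094422x4_17 : GoodKC AS k_wQ_26_wN_1_rb8033094422x4_17 := p_wQ_26_wN_1_rb8033094422x4_17

theorem g__wQ_26_wN_1_rb8033094422x4_16 : GoodKC AS k_wQ_26_wN_1_rb8033094422x4_16 := p_wQ_26_wN_1_rb8033094422x4_16 g__wQ_26_wN_1_rb8033094422x4_17

theorem g__wQ_26_wN_1_rb8033094422x4_18 : GoodKC AS k_wQ_26_wN_1_rb8033094422x4_18 := p_wQ_26_wN_1_rb8033094422x4_18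

theorem g__wQ_26_wN_1_rb8033094422x4_15 : GoodKC AS k_wQ_26_wN_1_rb8033094422x4_15 := p_wQ_26_wN_1_rb8033094422x4_15 g__wQ_26_wN_1_rb8033094422x4_16 g__wQ_26_wN_1_rb8033094422x4_18

theorem g__wQ_26_wN_1_rb8033094422x4_14 : GoodKC AS k_wQ_26_wN_1_rb8033094422x4_14 := p_wQ_26_wN_1_rb8033094422x4_14 g__wQ_26_wN_1_rb8033094422x4_15

theorem g__wQ_26_wN_1_rb8033094422x4_0 : GoodKC AS k_wQ_26_wN_1_rb8033094422x4_0 := p_wQ_26_wN_1_rb8033094422x4_0 g__wQ_26_wN_1_rb8033094422x4_1 g__wQ_26_wN_1_rb8033094422x4_13 g__wQ_26_wN_1_rb8033094422x4_14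

theorem g_wQ_26_wN_1_rb8033094422x13 : GoodKC AS c_wQ_26_wN_1_rb8033094422x13 := p_wQ_26_wN_1_rb8033094422x4 g__wQ_26_wN_1_rb8033094422x4_0

theorem g__wQ_26_wN_1_rb8033094420v4_2 : GoodKC AS k_wQ_26_wN_1_rb8033094420v4_2 := p_wQ_26_wN_1_rb8033094420v4_2

theorem g__wQ_26_wN_1_rb8033094420v4_4 : GoodKC AS k_wQ_26_wN_1_rb8033094420v4_4 := p_wQ_26_wN_1_rb8033094420v4_4

theorem g__wQ_26_wN_1_rb8033094420v4_7 : GoodKC AS k_wQ_26_wN_1_rb8033094420v4_7 := p_wQ_26_wN_1_rb8033094420v4_7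

theorem g__wQ_26_wN_1_rb8033094420v4_6 : GoodKC AS k_wQ_26_wN_1_rb8033094420v4_6 := p_wQ_26_wN_1_rb8033094420v4_6 g__wQ_26_wN_1_rb8033094420v4_7

theorem g__wQ_26_wN_1_rb8033094420v4_9 : GoodKC AS k_wQ_26_wN_1_rb8033094420v4_9 := p_wQ_26_wN_1_rb8033094420v4_9

theorem g__wQ_26_wN_1_rb8033094420v4_8 : GoodKC AS k_wQ_26_wN_1_rb8033094420v4_8 := p_wQ_26_wN_1_rb8033094420v4_8 g__wQ_26_wN_1_rb8033094420v4_9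

theorem g__wQ_26_wN_1_rb8033094420v4_5 : GoodKC AS k_wQ_26_wN_1_rb8033094420v4_5 := p_wQ_26_wN_1_rb8033094420v4_5 g__wQ_26_wN_1_rb8033094420v4_6 g__wQ_26_wN_1_rb8033094420v4_8

theorem g__wQ_26_wN_1_rb8033094420v4_12 : GoodKC AS k_wQ_26_wN_1_rb8033094420v4_12 := p_wQ_26_wN_1_rb8033094420v4_12

theorem g__wQ_26_wN_1_rb8033094420v4_11 : GoodKC AS k_wQ_26_wN_1_rb8033094420v4_11 := p_wQ_26_wN_1_rb8033094420v4_11 g__wQ_26_wN_1_rb8033094420v4_12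

theorem g__wQ_26_wN_1_rb8033094420v4_10 : GoodKC AS k_wQ_26_wN_1_rb8033094420v4_10 := p_wQ_26_wN_1_rb8033094420v4_10 g__wQ_26_wN_1_rb8033094420v4_11

theorem g__wQ_26_wN_1_rb8033094420v4_3 : GoodKC AS k_wQ_26_wN_1_rb8033094420v4_3 := p_wQ_26_wN_1_rb8033094420v4_3 g__wQ_26_wN_1_rb8033094420v4_4 g__wQ_26_wN_1_rb8033094420v4_5 g__wQ_26_wN_1_rb8033094420v4_10

theorem g__wQ_26_wN_1_rb8033094420v4_1 : GoodKC AS k_wQ_26_wN_1_rb8033094420v4_1 := p_wQ_26_wN_1_rb8033094420v4_1 g__wQ_26_wN_1_rb8033094420v4_2 g__wQ_26_wN_1_rb8033094420v4_3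

theorem g__wQ_26_wN_1_rb8033094420v4_14 : GoodKC AS k_wQ_26_wN_1_rb8033094420v4_14 := p_wQ_26_wN_1_rb8033094420v4_14

theorem g__wQ_26_wN_1_rb8033094420v4_13 : GoodKC AS k_wQ_26_wN_1_rb8033094420v4_13 := p_wQ_26_wN_1_rb8033094420v4_13 g__wQ_26_wN_1_rb8033094420v4_14

theorem g__wQ_26_wN_1_rb8033094420v4_21 : GoodKC AS k_wQ_26_wN_1_rb8033094420v4_21 := p_wQ_26_wN_1_rb8033094420v4_21

theorem g__wQ_26_wN_1_rb8033094420v4_23 : GoodKC AS k_wQ_26_wN_1_rb8033094420v4_23 := p_wQ_26_wN_1_rb8033094420v4_23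

theorem g__wQ_26_wN_1_rb8033094420v4_22 : GoodKC AS k_wQ_26_wN_1_rb8033094420v4_22 := p_wQ_26_wN_1_rb8033094420v4_22 g__wQ_26_wN_1_rb8033094420v4_23

theorem g__wQ_26_wN_1_rb8033094420v4_24 : GoodKC AS k_wQ_26_wN_1_rb8033094420v4_24 := p_wQ_26_wN_1_rb8033094420v4_24

theorem g__wQ_26_wN_1_rb8033094420v4_20 : GoodKC AS k_wQ_26_wN_1_rb8033094420v4_20 := p_wQ_26_wN_1_rb8033094420v4_20 g__wQ_26_wN_1_rb8033094420v4_21 g__wQ_26_wN_1_rb8033094420v4_22 g__wQ_26_wN_1_rb8033094420v4_24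

theorem g__wQ_26_wN_1_rb8033094420v4_19 : GoodKC AS k_wQ_26_wN_1_rb8033094420v4_19 := p_wQ_26_wN_1_rb8033094420v4_19 g__wQ_26_wN_1_rb8033094420v4_20

theorem g__wQ_26_wN_1_rb8033094420v4_18 : GoodKC AS k_wQ_26_wN_1_rb8033094420v4_18 := p_wQ_26_wN_1_rb8033094420v4_18 g__wQ_26_wN_1_rb8033094420v4_19

theorem g__wQ_26_wN_1_rb8033094420v4_26 : GoodKC AS k_wQ_26_wN_1_rb8033094420v4_26 := p_wQ_26_wN_1_rb8033094420v4_26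

theorem g__wQ_26_wN_1_rb8033094420v4_25 : GoodKC AS k_wQ_26_wN_1_rb8033094420v4_25 := p_wQ_26_wN_1_rb8033094420v4_25 g__wQ_26_wN_1_rb8033094420v4_26

theorem g__wQ_26_wN_1_rb8033094420v4_30 : GoodKC AS k_wQ_26_wN_1_rb8033094420v4_30 := p_wQ_26_wN_1_rb8033094420v4_30

theorem g__wQ_26_wN_1_rb8033094420v4_29 : GoodKC AS k_wQ_26_wN_1_rb8033094420v4_29 := p_wQ_26_wN_1_rb8033094420v4_29 g__wQ_26_wN_1_rb8033094420v4_30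

theorem g__wQ_26_wN_1_rb8033094420v4_33 : GoodKC AS k_wQ_26_wN_1_rb8033094420v4_33 := p_wQ_26_wN_1_rb8033094420v4_33

theorem g__wQ_26_wN_1_rb8033094420v4_34 : GoodKC AS k_wQ_26_wN_1_rb8033094420v4_34 := p_wQ_26_wN_1_rb8033094420v4_34

theorem g__wQ_26_wN_1_rb8033094420v4_32 : GoodKC AS k_wQ_26_wN_1_rb8033094420v4_32 := p_wQ_26_wN_1_rb8033094420v4_32 g__wQ_26_wN_1_rb8033094420v4_33 g__wQ_26_wN_1_rb8033094420v4_34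

theorem g__wQ_26_wN_1_rb8033094420v4_31 : GoodKC AS k_wQ_26_wN_1_rb8033094420v4_31 := p_wQ_26_wN_1_rb8033094420v4_31 g__wQ_26_wN_1_rb8033094420v4_32

theorem g__wQ_26_wN_1_rb8033094420v4_28 : GoodKC AS k_wQ_26_wN_1_rb8033094420v4_28 := p_wQ_26_wN_1_rb8033094420v4_28 g__wQ_26_wN_1_rb8033094420v4_29 g__wQ_26_wN_1_rb8033094420v4_31

theorem g__wQ_26_wN_1_rb8033094420v4_27 : GoodKC AS k_wQ_26_wN_1_rb8033094420v4_27 := p_wQ_26_wN_1_rb8033094420v4_27 g__wQ_26_wN_1_rb8033094420v4_28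

theorem g__wQ_26_wN_1_rb8033094420v4_17 : GoodKC AS k_wQ_26_wN_1_rb8033094420v4_17 := p_wQ_26_wN_1_rb8033094420v4_17 g__wQ_26_wN_1_rb8033094420v4_18 g__wQ_26_wN_1_rb8033094420v4_25 g__wQ_26_wN_1_rb8033094420v4_27

theorem g__wQ_26_wN_1_rb8033094420v4_16 : GoodKC AS k_wQ_26_wN_1_rb8033094420v4_16 := p_wQ_26_wN_1_rb8033094420v4_16 g__wQ_26_wN_1_rb8033094420v4_17

theorem g__wQ_26_wN_1_rb8033094420v4_15 : GoodKC AS k_wQ_26_wN_1_rb8033094420v4_15 := p_wQ_26_wN_1_rb8033094420v4_15 g__wQ_26_wN_1_rb8033094420v4_16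

theorem g__wQ_26_wN_1_rb8033094420v4_0 : GoodKC AS k_wQ_26_wN_1_rb8033094420v4_0 := p_wQ_26_wN_1_rb8033094420v4_0 g__wQ_26_wN_1_rb8033094420v4_1 g__wQ_26_wN_1_rb8033094420v4_13 g__wQ_26_wN_1_rb8033094420v4_15

theorem g_wQ_26_wN_1_rb8033094420x13 : GoodKC AS c_wQ_26_wN_1_rb8033094420x13 := p_wQ_26_wN_1_rb8033094420x4 g__wQ_26_wN_1_rb8033094420v4_0

theorem g_wQ_26_wN_1_rb803309441fx13 : GoodKC AS c_wQ_26_wN_1_rb803309441fx13 := p_wQ_26_wN_1_rb803309441fx4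

theorem g_wQ_26_wN_1_rb803309441cx13 : GoodKC AS c_wQ_26_wN_1_rb803309441cx13 := p_wQ_26_wN_1_rb803309441cx4

theorem g_wQ_26_wN_1_rb803309441ax13 : GoodKC AS c_wQ_26_wN_1_rb803309441ax13 := p_wQ_26_wN_1_rb803309441ax4

theorem g_wQ_26_wN_1_rb8033094418x13 : GoodKC AS c_wQ_26_wN_1_rb8033094418x13 := p_wQ_26_wN_1_rb8033094418x4

theorem g__wQ_26_wN_1_rb8033094416x4_2 : GoodKC AS k_wQ_26_wN_1_rb8033094416x4_2 := p_wQ_26_wN_1_rb8033094416x4_2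

theorem g__wQ_26_wN_1_rb8033094416x4_1 : GoodKC AS k_wQ_26_wN_1_rb8033094416x4_1 := p_wQ_26_wN_1_rb8033094416x4_1 g__wQ_26_wN_1_rb8033094416x4_2

theorem g__wQ_26_wN_1_rb8033094416x4_3 : GoodKC AS k_wQ_26_wN_1_rb8033094416x4_3 := p_wQ_26_wN_1_rb8033094416x4_3

theorem g__wQ_26_wN_1_rb8033094416x4_5 : GoodKC AS k_wQ_26_wN_1_rb8033094416x4_5 := p_wQ_26_wN_1_rb8033094416x4_5

theorem g__wQ_26_wN_1_rb8033094416x4_4 : GoodKC AS k_wQ_26_wN_1_rb8033094416x4_4 := p_wQ_26_wN_1_rb8033094416x4_4 g__wQ_26_wN_1_rb8033094416x4_5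

theorem g__wQ_26_wN_1_rb8033094416x4_7 : GoodKC AS k_wQ_26_wN_1_rb8033094416x4_7 := p_wQ_26_wN_1_rb8033094416x4_7

theorem g__wQ_26_wN_1_rb8033094416x4_9 : GoodKC AS k_wQ_26_wN_1_rb8033094416x4_9 := p_wQ_26_wN_1_rb8033094416x4_9

theorem g__wQ_26_wN_1_rb8033094416x4_11 : GoodKC AS k_wQ_26_wN_1_rb8033094416x4_11 := p_wQ_26_wN_1_rb8033094416x4_11

theorem g__wQ_26_wN_1_rb8033094416x4_10 : GoodKC AS k_wQ_26_wN_1_rb8033094416x4_10 := p_wQ_26_wN_1_rb8033094416x4_10 g__wQ_26_wN_1_rb8033094416x4_11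

theorem g__wQ_26_wN_1_rb8033094416x4_8 : GoodKC AS k_wQ_26_wN_1_rb8033094416x4_8 := p_wQ_26_wN_1_rb8033094416x4_8 g__wQ_26_wN_1_rb8033094416x4_9 g__wQ_26_wN_1_rb8033094416x4_10

theorem g__wQ_26_wN_1_rb8033094416x4_6 : GoodKC AS k_wQ_26_wN_1_rb8033094416x4_6 := p_wQ_26_wN_1_rb8033094416x4_6 g__wQ_26_wN_1_rb8033094416x4_7 g__wQ_26_wN_1_rb8033094416x4_8

theorem g__wQ_26_wN_1_rb8033094416x4_0 : GoodKC AS k_wQ_26_wN_1_rb8033094416x4_0 := p_wQ_26_wN_1_rb8033094416x4_0 g__wQ_26_wN_1_rb8033094416x4_1 g__wQ_26_wN_1_rb8033094416x4_3 g__wQ_26_wN_1_rb8033094416x4_4 g__wQ_26_wN_1_rb8033094416x4_6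

theorem g_wQ_26_wN_1_rb8033094416x13 : GoodKC AS c_wQ_26_wN_1_rb8033094416x13 := p_wQ_26_wN_1_rb8033094416x4 g__wQ_26_wN_1_rb8033094416x4_0

theorem g__wQ_26_wN_1_rb80330944x13_7 : GoodKC AS k_wQ_26_wN_1_rb80330944x13_7 := p_wQ_26_wN_1_rb80330944x13_7

theorem g__wQ_26_wN_1_rb80330944x13_6 : GoodKC AS k_wQ_26_wN_1_rb80330944x13_6 := p_wQ_26_wN_1_rb80330944x13_6 g__wQ_26_wN_1_rb80330944x13_7

theorem g__wQ_26_wN_1_rb80330944x13_8 : GoodKC AS k_wQ_26_wN_1_rb80330944x13_8 := p_wQ_26_wN_1_rb80330944x13_8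

theorem g__wQ_26_wN_1_rb80330944x13_5 : GoodKC AS k_wQ_26_wN_1_rb80330944x13_5 := p_wQ_26_wN_1_rb80330944x13_5 g__wQ_26_wN_1_rb80330944x13_6 g__wQ_26_wN_1_rb80330944x13_8

theorem g__wQ_26_wN_1_rb80330944x13_4 : GoodKC AS k_wQ_26_wN_1_rb80330944x13_4 := p_wQ_26_wN_1_rb80330944x13_4 g__wQ_26_wN_1_rb80330944x13_5

theorem g__wQ_26_wN_1_rb80330944x13_3 : GoodKC AS k_wQ_26_wN_1_rb80330944x13_3 := p_wQ_26_wN_1_rb80330944x13_3 g__wQ_26_wN_1_rb80330944x13_4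

theorem g__wQ_26_wN_1_rb80330944x13_10 : GoodKC AS k_wQ_26_wN_1_rb80330944x13_10 := p_wQ_26_wN_1_rb80330944x13_10

theorem g__wQ_26_wN_1_rb80330944x13_9 : GoodKC AS k_wQ_26_wN_1_rb80330944x13_9 := p_wQ_26_wN_1_rb80330944x13_9 g__wQ_26_wN_1_rb80330944x13_10

theorem g__wQ_26_wN_1_rb80330944x13_2 : GoodKC AS k_wQ_26_wN_1_rb80330944x13_2 := p_wQ_26_wN_1_rb80330944x13_2 g__wQ_26_wN_1_rb80330944x13_3 g__wQ_26_wN_1_rb80330944x13_9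

theorem g__wQ_26_wN_1_rb80330944x13_1 : GoodKC AS k_wQ_26_wN_1_rb80330944x13_1 := p_wQ_26_wN_1_rb80330944x13_1 g__wQ_26_wN_1_rb80330944x13_2

theorem g__wQ_26_wN_1_rb80330944x13_0 : GoodKC AS k_wQ_26_wN_1_rb80330944x13_0 := p_wQ_26_wN_1_rb80330944x13_0 g__wQ_26_wN_1_rb80330944x13_1

theorem g__wQ_26_wN_1_rb80330944x13_15 : GoodKC AS k_wQ_26_wN_1_rb80330944x13_15 := p_wQ_26_wN_1_rb80330944x13_15

theorem g__wQ_26_wN_1_rb80330944x13_14 : GoodKC AS k_wQ_26_wN_1_rb80330944x13_14 := p_wQ_26_wN_1_rb80330944x13_14 g__wQ_26_wN_1_rb80330944x13_15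

theorem g__wQ_26_wN_1_rb80330944x13_13 : GoodKC AS k_wQ_26_wN_1_rb80330944x13_13 := p_wQ_26_wN_1_rb80330944x13_13 g__wQ_26_wN_1_rb80330944x13_14

theorem g__wQ_26_wN_1_rb80330944x13_12 : GoodKC AS k_wQ_26_wN_1_rb80330944x13_12 := p_wQ_26_wN_1_rb80330944x13_12 g__wQ_26_wN_1_rb80330944x13_13

theorem g__wQ_26_wN_1_rb80330944x13_16 : GoodKC AS k_wQ_26_wN_1_rb80330944x13_16 := p_wQ_26_wN_1_rb80330944x13_16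

theorem g__wQ_26_wN_1_rb80330944x13_18 : GoodKC AS k_wQ_26_wN_1_rb80330944x13_18 := p_wQ_26_wN_1_rb80330944x13_18

theorem g__wQ_26_wN_1_rb80330944x13_17 : GoodKC AS k_wQ_26_wN_1_rb80330944x13_17 := p_wQ_26_wN_1_rb80330944x13_17 g__wQ_26_wN_1_rb80330944x13_18

theorem g__wQ_26_wN_1_rb80330944x13_23 : GoodKC AS k_wQ_26_wN_1_rb80330944x13_23 := p_wQ_26_wN_1_rb80330944x13_23

theorem g__wQ_26_wN_1_rb80330944x13_22 : GoodKC AS k_wQ_26_wN_1_rb80330944x13_22 := p_wQ_26_wN_1_rb80330944x13_22 g__wQ_26_wN_1_rb80330944x13_23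

theorem g__wQ_26_wN_1_rb80330944x13_21 : GoodKC AS k_wQ_26_wN_1_rb80330944x13_21 := p_wQ_26_wN_1_rb80330944x13_21 g__wQ_26_wN_1_rb80330944x13_22

theorem g__wQ_26_wN_1_rb80330944x13_24 : GoodKC AS k_wQ_26_wN_1_rb80330944x13_24 := p_wQ_26_wN_1_rb80330944x13_24

theorem g__wQ_26_wN_1_rb80330944x13_20 : GoodKC AS k_wQ_26_wN_1_rb80330944x13_20 := p_wQ_26_wN_1_rb80330944x13_20 g__wQ_26_wN_1_rb80330944x13_21 g__wQ_26_wN_1_rb80330944x13_24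

theorem g__wQ_26_wN_1_rb80330944x13_30 : GoodKC AS k_wQ_26_wN_1_rb80330944x13_30 := p_wQ_26_wN_1_rb80330944x13_30

theorem g__wQ_26_wN_1_rb80330944x13_29 : GoodKC AS k_wQ_26_wN_1_rb80330944x13_29 := p_wQ_26_wN_1_rb80330944x13_29 g__wQ_26_wN_1_rb80330944x13_30

theorem g__wQ_26_wN_1_rb80330944x13_28 : GoodKC AS k_wQ_26_wN_1_rb80330944x13_28 := p_wQ_26_wN_1_rb80330944x13_28 g__wQ_26_wN_1_rb80330944x13_29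

theorem g__wQ_26_wN_1_rb80330944x13_27 : GoodKC AS k_wQ_26_wN_1_rb80330944x13_27 := p_wQ_26_wN_1_rb80330944x13_27 g__wQ_26_wN_1_rb80330944x13_28

theorem g__wQ_26_wN_1_rb80330944x13_26 : GoodKC AS k_wQ_26_wN_1_rb80330944x13_26 := p_wQ_26_wN_1_rb80330944x13_26 g__wQ_26_wN_1_rb80330944x13_27

theorem g__wQ_26_wN_1_rb80330944x13_25 : GoodKC AS k_wQ_26_wN_1_rb80330944x13_25 := p_wQ_26_wN_1_rb80330944x13_25 g__wQ_26_wN_1_rb80330944x13_26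

theorem g__wQ_26_wN_1_rb80330944x13_32 : GoodKC AS k_wQ_26_wN_1_rb80330944x13_32 := p_wQ_26_wN_1_rb80330944x13_32

theorem g__wQ_26_wN_1_rb80330944x13_31 : GoodKC AS k_wQ_26_wN_1_rb80330944x13_31 := p_wQ_26_wN_1_rb80330944x13_31 g__wQ_26_wN_1_rb80330944x13_32

theorem g__wQ_26_wN_1_rb80330944x13_19 : GoodKC AS k_wQ_26_wN_1_rb80330944x13_19 := p_wQ_26_wN_1_rb80330944x13_19 g__wQ_26_wN_1_rb80330944x13_20 g__wQ_26_wN_1_rb80330944x13_25 g__wQ_26_wN_1_rb80330944x13_31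

theorem g__wQ_26_wN_1_rb80330944x13_11 : GoodKC AS k_wQ_26_wN_1_rb80330944x13_11 := p_wQ_26_wN_1_rb80330944x13_11 g__wQ_26_wN_1_rb80330944x13_12 g__wQ_26_wN_1_rb80330944x13_16 g__wQ_26_wN_1_rb80330944x13_17 g__wQ_26_wN_1_rb80330944x13_19

theorem g__wQ_26_wN_1_rb80330944x13_34 : GoodKC AS k_wQ_26_wN_1_rb80330944x13_34 := p_wQ_26_wN_1_rb80330944x13_34

theorem g__wQ_26_wN_1_rb80330944x13_33 : GoodKC AS k_wQ_26_wN_1_rb80330944x13_33 := p_wQ_26_wN_1_rb80330944x13_33 g__wQ_26_wN_1_rb80330944x13_34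

theorem g_wQ_26_wN_1_rb8033094414x13 : GoodKC AS c_wQ_26_wN_1_rb8033094414x13 := p_wQ_26_wN_1_rb8033094414x4

theorem g_wQ_26_wN_1_rb8033094411x13 : GoodKC AS c_wQ_26_wN_1_rb8033094411x13 := p_wQ_26_wN_1_rb8033094411x4

theorem g_wQ_26_wN_1_rb803309440ex13 : GoodKC AS c_wQ_26_wN_1_rb803309440ex13 := p_wQ_26_wN_1_rb803309440ex4

theorem g__wQ_26_wN_1_rb803309440dx4_4 : GoodKC AS k_wQ_26_wN_1_rb803309440dx4_4 := p_wQ_26_wN_1_rb803309440dx4_4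

theorem g__wQ_26_wN_1_rb803309440dx4_5 : GoodKC AS k_wQ_26_wN_1_rb803309440dx4_5 := p_wQ_26_wN_1_rb803309440dx4_5

theorem g__wQ_26_wN_1_rb803309440dx4_3 : GoodKC AS k_wQ_26_wN_1_rb803309440dx4_3 := p_wQ_26_wN_1_rb803309440dx4_3 g__wQ_26_wN_1_rb803309440dx4_4 g__wQ_26_wN_1_rb803309440dx4_5

theorem g__wQ_26_wN_1_rb803309440dx4_2 : GoodKC AS k_wQ_26_wN_1_rb803309440dx4_2 := p_wQ_26_wN_1_rb803309440dx4_2 g__wQ_26_wN_1_rb803309440dx4_3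

theorem g__wQ_26_wN_1_rb803309440dx4_1 : GoodKC AS k_wQ_26_wN_1_rb803309440dx4_1 := p_wQ_26_wN_1_rb803309440dx4_1 g__wQ_26_wN_1_rb803309440dx4_2

theorem g__wQ_26_wN_1_rb803309440dx4_9 : GoodKC AS k_wQ_26_wN_1_rb803309440dx4_9 := p_wQ_26_wN_1_rb803309440dx4_9

theorem g__wQ_26_wN_1_rb803309440dx4_8 : GoodKC AS k_wQ_26_wN_1_rb803309440dx4_8 := p_wQ_26_wN_1_rb803309440dx4_8 g__wQ_26_wN_1_rb803309440dx4_9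

theorem g__wQ_26_wN_1_rb803309440dx4_7 : GoodKC AS k_wQ_26_wN_1_rb803309440dx4_7 := p_wQ_26_wN_1_rb803309440dx4_7 g__wQ_26_wN_1_rb803309440dx4_8

theorem g__wQ_26_wN_1_rb803309440dx4_6 : GoodKC AS k_wQ_26_wN_1_rb803309440dx4_6 := p_wQ_26_wN_1_rb803309440dx4_6 g__wQ_26_wN_1_rb803309440dx4_7

theorem g__wQ_26_wN_1_rb803309440dx4_0 : GoodKC AS k_wQ_26_wN_1_rb803309440dx4_0 := p_wQ_26_wN_1_rb803309440dx4_0 g__wQ_26_wN_1_rb803309440dx4_1 g__wQ_26_wN_1_rb803309440dx4_6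

theorem g_wQ_26_wN_1_rb803309440dx13 : GoodKC AS c_wQ_26_wN_1_rb803309440dx13 := p_wQ_26_wN_1_rb803309440dx4 g__wQ_26_wN_1_rb803309440dx4_0

theorem g__wQ_26_wN_1_rb8033094406x4_0 : GoodKC AS k_wQ_26_wN_1_rb8033094406x4_0 := p_wQ_26_wN_1_rb8033094406x4_0

theorem g__wQ_26_wN_1_rb8033094406x4_2 : GoodKC AS k_wQ_26_wN_1_rb8033094406x4_2 := p_wQ_26_wN_1_rb8033094406x4_2

theorem g__wQ_26_wN_1_rb8033094406x4_1 : GoodKC AS k_wQ_26_wN_1_rb8033094406x4_1 := p_wQ_26_wN_1_rb8033094406x4_1 g__wQ_26_wN_1_rb8033094406x4_2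

theorem g_wQ_26_wN_1_rb8033094406x13 : GoodKC AS c_wQ_26_wN_1_rb8033094406x13 := p_wQ_26_wN_1_rb8033094406x4 g__wQ_26_wN_1_rb8033094406x4_0 g__wQ_26_wN_1_rb8033094406x4_1

theorem g__wQ_26_wN_1_rb8033094404x4_1 : GoodKC AS k_wQ_26_wN_1_rb8033094404x4_1 := p_wQ_26_wN_1_rb8033094404x4_1

theorem g__wQ_26_wN_1_rb8033094404x4_0 : GoodKC AS k_wQ_26_wN_1_rb8033094404x4_0 := p_wQ_26_wN_1_rb8033094404x4_0 g__wQ_26_wN_1_rb8033094404x4_1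

theorem g_wQ_26_wN_1_rb8033094404x13 : GoodKC AS c_wQ_26_wN_1_rb8033094404x13 := p_wQ_26_wN_1_rb8033094404x4 g__wQ_26_wN_1_rb8033094404x4_0

theorem g_wQ_26_wN_1_rb8033094403x13 : GoodKC AS c_wQ_26_wN_1_rb8033094403x13 := p_wQ_26_wN_1_rb8033094403x4

theorem g_wQ_26_wN_1_rb8033094402x13 : GoodKC AS c_wQ_26_wN_1_rb8033094402x13 := p_wQ_26_wN_1_rb8033094402x4

theorem g_wQ_26_wN_1_rb8033094401x13 : GoodKC AS c_wQ_26_wN_1_rb8033094401x13 := p_wQ_26_wN_1_rb8033094401x4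

theorem g__wQ_26_wN_1_rb8033094400v4_0 : GoodKC AS k_wQ_26_wN_1_rb8033094400v4_0 := p_wQ_26_wN_1_rb8033094400v4_0

theorem g_wQ_26_wN_1_rb8033094400x13 : GoodKC AS c_wQ_26_wN_1_rb8033094400x13 := p_wQ_26_wN_1_rb8033094400x4 g__wQ_26_wN_1_rb8033094400v4_0

theorem g_wQ_26_wN_1_rb8033094405x13 : GoodKC AS c_wQ_26_wN_1_rb8033094405x13 := p_wQ_26_wN_1_rb8033094405x4

theorem g_wQ_26_wN_1_rb8033094407x13 : GoodKC AS c_wQ_26_wN_1_rb8033094407x13 := p_wQ_26_wN_1_rb8033094407x4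

theorem g_wQ_26_wN_1_rb8033094408x13 : GoodKC AS c_wQ_26_wN_1_rb8033094408x13 := p_wQ_26_wN_1_rb8033094408x4

theorem g_wQ_26_wN_1_rb8033094409x13 : GoodKC AS c_wQ_26_wN_1_rb8033094409x13 := p_wQ_26_wN_1_rb8033094409x4

theorem g_wQ_26_wN_1_rb803309440ax13 : GoodKC AS c_wQ_26_wN_1_rb803309440ax13 := p_wQ_26_wN_1_rb803309440ax4

theorem g__wQ_26_wN_1_rb80330944x13_37 : GoodKC AS k_wQ_26_wN_1_rb80330944x13_37 := p_wQ_26_wN_1_rb80330944x13_37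

theorem g__wQ_26_wN_1_rb80330944x13_40 : GoodKC AS k_wQ_26_wN_1_rb80330944x13_40 := p_wQ_26_wN_1_rb80330944x13_40

theorem g__wQ_26_wN_1_rb80330944x13_42 : GoodKC AS k_wQ_26_wN_1_rb80330944x13_42 := p_wQ_26_wN_1_rb80330944x13_42

theorem g__wQ_26_wN_1_rb80330944x13_41 : GoodKC AS k_wQ_26_wN_1_rb80330944x13_41 := p_wQ_26_wN_1_rb80330944x13_41 g__wQ_26_wN_1_rb80330944x13_42

theorem g__wQ_26_wN_1_rb80330944x13_39 : GoodKC AS k_wQ_26_wN_1_rb80330944x13_39 := p_wQ_26_wN_1_rb80330944x13_39 g__wQ_26_wN_1_rb80330944x13_40 g__wQ_26_wN_1_rb80330944x13_41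

theorem g__wQ_26_wN_1_rb80330944x13_38 : GoodKC AS k_wQ_26_wN_1_rb80330944x13_38 := p_wQ_26_wN_1_rb80330944x13_38 g__wQ_26_wN_1_rb80330944x13_39

theorem g__wQ_26_wN_1_rb80330944x13_36 : GoodKC AS k_wQ_26_wN_1_rb80330944x13_36 := p_wQ_26_wN_1_rb80330944x13_36 g__wQ_26_wN_1_rb80330944x13_37 g__wQ_26_wN_1_rb80330944x13_38

theorem g__wQ_26_wN_1_rb80330944x13_44 : GoodKC AS k_wQ_26_wN_1_rb80330944x13_44 := p_wQ_26_wN_1_rb80330944x13_44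

theorem g__wQ_26_wN_1_rb80330944x13_43 : GoodKC AS k_wQ_26_wN_1_rb80330944x13_43 := p_wQ_26_wN_1_rb80330944x13_43 g__wQ_26_wN_1_rb80330944x13_44

theorem g_wQ_26_wN_1_rb803309440bx13 : GoodKC AS c_wQ_26_wN_1_rb803309440bx13 := p_wQ_26_wN_1_rb803309440bx4

theorem g_wQ_26_wN_1_rb803309440cx13 : GoodKC AS c_wQ_26_wN_1_rb803309440cx13 := p_wQ_26_wN_1_rb803309440cx4

theorem g_wQ_26_wN_1_rb803309440fx13 : GoodKC AS c_wQ_26_wN_1_rb803309440fx13 := p_wQ_26_wN_1_rb803309440fx4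

theorem g_wQ_26_wN_1_rb8033094410x13 : GoodKC AS c_wQ_26_wN_1_rb8033094410x13 := p_wQ_26_wN_1_rb8033094410x4

theorem g_wQ_26_wN_1_rb8033094412x13 : GoodKC AS c_wQ_26_wN_1_rb8033094412x13 := p_wQ_26_wN_1_rb8033094412x4

theorem g_wQ_26_wN_1_rb8033094413x13 : GoodKC AS c_wQ_26_wN_1_rb8033094413x13 := p_wQ_26_wN_1_rb8033094413x4

theorem g__wQ_26_wN_1_rb80330944x13_35 : GoodKC AS k_wQ_26_wN_1_rb80330944x13_35 := p_wQ_26_wN_1_rb80330944x13_35 g_wQ_26_wN_1_rb8033094414x13 g_wQ_26_wN_1_rb8033094411x13 g_wQ_26_wN_1_rb803309440ex13 g_wQ_26_wN_1_rb803309440dx13 g_wQ_26_wN_1_rb8033094406x13 g_wQ_26_wN_1_rb8033094404x13 g_wQ_26_wN_1_rb8033094403x13 g_wQ_26_wN_1_rb8033094402x13 g_wQ_26_wN_1_rb8033094401x13 g_wQ_26_wN_1_rb8033094400x13 g_wQ_26_wN_1_rb8033094405x13 g_wQ_26_wN_1_rb8033094407x13 g_wQ_26_wN_1_rb8033094408x13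 g_wQ_26_wN_1_rb8033094409x13 g_wQ_26_wN_1_rb803309440ax13 g__wQ_26_wN_1_rb80330944x13_36 g__wQ_26_wN_1_rb80330944x13_43 g_wQ_26_wN_1_rb803309440bx13 g_wQ_26_wN_1_rb803309440cx13 g_wQ_26_wN_1_rb803309440fx13 g_wQ_26_wN_1_rb8033094410x13 g_wQ_26_wN_1_rb8033094412x13 g_wQ_26_wN_1_rb8033094413x13

theorem g_wQ_26_wN_1_rb8033094415x13 : GoodKC AS c_wQ_26_wN_1_rb8033094415x13 := p_wQ_26_wN_1_rb8033094415x4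

theorem g_wQ_26_wN_1_rb8033094417x13 : GoodKC AS c_wQ_26_wN_1_rb8033094417x13 := p_wQ_26_wN_1_rb8033094417x4

theorem g_wQ_26_wN_1_rb8033094419x13 : GoodKC AS c_wQ_26_wN_1_rb8033094419x13 := p_wQ_26_wN_1_rb8033094419x4

theorem g_wQ_26_wN_1_rb803309441bx13 : GoodKC AS c_wQ_26_wN_1_rb803309441bx13 := p_wQ_26_wN_1_rb803309441bx4

theorem g_wQ_26_wN_1_rb803309441dx13 : GoodKC AS c_wQ_26_wN_1_rb803309441dx13 := p_wQ_26_wN_1_rb803309441dx4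

theorem g_wQ_26_wN_1_rb803309441ex13 : GoodKC AS c_wQ_26_wN_1_rb803309441ex13 := p_wQ_26_wN_1_rb803309441ex4

theorem g__wQ_26_wN_1_rb8033094421x3_3 : GoodKC AS k_wQ_26_wN_1_rb8033094421x3_3 := p_wQ_26_wN_1_rb8033094421x3_3

theorem g__wQ_26_wN_1_rb8033094421x3_2 : GoodKC AS k_wQ_26_wN_1_rb8033094421x3_2 := p_wQ_26_wN_1_rb8033094421x3_2 g__wQ_26_wN_1_rb8033094421x3_3

theorem g__wQ_26_wN_1_rb8033094421x3_1 : GoodKC AS k_wQ_26_wN_1_rb8033094421x3_1 := p_wQ_26_wN_1_rb8033094421x3_1 g__wQ_26_wN_1_rb8033094421x3_2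

theorem g__wQ_26_wN_1_rb8033094421x3_0 : GoodKC AS k_wQ_26_wN_1_rb8033094421x3_0 := p_wQ_26_wN_1_rb8033094421x3_0 g__wQ_26_wN_1_rb8033094421x3_1

theorem g_wQ_26_wN_1_rb803309442144x3 : GoodKC AS c_wQ_26_wN_1_rb803309442144x3 := p_wQ_26_wN_1_rb803309442144x1

theorem g_wQ_26_wN_1_rb803309442140x3 : GoodKC AS c_wQ_26_wN_1_rb803309442140x3 := p_wQ_26_wN_1_rb803309442140x1

theorem g_wQ_26_wN_1_rb80330944213fx3 : GoodKC AS c_wQ_26_wN_1_rb80330944213fx3 := p_wQ_26_wN_1_rb80330944213fx1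

theorem g_wQ_26_wN_1_rb80330944213ex3 : GoodKC AS c_wQ_26_wN_1_rb80330944213ex3 := p_wQ_26_wN_1_rb80330944213ex1

theorem g_wQ_26_wN_1_rb80330944213dx3 : GoodKC AS c_wQ_26_wN_1_rb80330944213dx3 := p_wQ_26_wN_1_rb80330944213dx1

theorem g_wQ_26_wN_1_rb80330944213cx3 : GoodKC AS c_wQ_26_wN_1_rb80330944213cx3 := p_wQ_26_wN_1_rb80330944213cx1

theorem g_wQ_26_wN_1_rb80330944213bx3 : GoodKC AS c_wQ_26_wN_1_rb80330944213bx3 := p_wQ_26_wN_1_rb80330944213bx1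

theorem g_wQ_26_wN_1_rb80330944213ax3 : GoodKC AS c_wQ_26_wN_1_rb80330944213ax3 := p_wQ_26_wN_1_rb80330944213ax1

theorem g_wQ_26_wN_1_rb803309442138x3 : GoodKC AS c_wQ_26_wN_1_rb803309442138x3 := p_wQ_26_wN_1_rb803309442138x1

theorem g_wQ_26_wN_1_rb803309442137x3 : GoodKC AS c_wQ_26_wN_1_rb803309442137x3 := p_wQ_26_wN_1_rb803309442137x1

theorem g_wQ_26_wN_1_rb803309442135x3 : GoodKC AS c_wQ_26_wN_1_rb803309442135x3 := p_wQ_26_wN_1_rb803309442135x1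

theorem g_wQ_26_wN_1_rb803309442134x3 : GoodKC AS c_wQ_26_wN_1_rb803309442134x3 := p_wQ_26_wN_1_rb803309442134x1

theorem g__wQ_26_wN_1_rb803309442133x1_0 : GoodKC AS k_wQ_26_wN_1_rb803309442133x1_0 := p_wQ_26_wN_1_rb803309442133x1_0

theorem g_wQ_26_wN_1_rb803309442133x3 : GoodKC AS c_wQ_26_wN_1_rb803309442133x3 := p_wQ_26_wN_1_rb803309442133x1 g__wQ_26_wN_1_rb803309442133x1_0

theorem g_wQ_26_wN_1_rb803309442132x3 : GoodKC AS c_wQ_26_wN_1_rb803309442132x3 := p_wQ_26_wN_1_rb803309442132x1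

theorem g_wQ_26_wN_1_rb803309442131x3 : GoodKC AS c_wQ_26_wN_1_rb803309442131x3 := p_wQ_26_wN_1_rb803309442131x1

theorem g_wQ_26_wN_1_rb803309442130x3 : GoodKC AS c_wQ_26_wN_1_rb803309442130x3 := p_wQ_26_wN_1_rb803309442130x1

theorem g_wQ_26_wN_1_rb80330944212ex3 : GoodKC AS c_wQ_26_wN_1_rb80330944212ex3 := p_wQ_26_wN_1_rb80330944212ex1

theorem g_wQ_26_wN_1_rb80330944212dx3 : GoodKC AS c_wQ_26_wN_1_rb80330944212dx3 := p_wQ_26_wN_1_rb80330944212dx1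

theorem g_wQ_26_wN_1_rb80330944212cx3 : GoodKC AS c_wQ_26_wN_1_rb80330944212cx3 := p_wQ_26_wN_1_rb80330944212cx1

theorem g_wQ_26_wN_1_rb803309442129x3 : GoodKC AS c_wQ_26_wN_1_rb803309442129x3 := p_wQ_26_wN_1_rb803309442129x1

theorem g_wQ_26_wN_1_rb803309442128x3 : GoodKC AS c_wQ_26_wN_1_rb803309442128x3 := p_wQ_26_wN_1_rb803309442128x1

theorem g_wQ_26_wN_1_rb803309442126x3 : GoodKC AS c_wQ_26_wN_1_rb803309442126x3 := p_wQ_26_wN_1_rb803309442126x1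

theorem g_wQ_26_wN_1_rb803309442125x3 : GoodKC AS c_wQ_26_wN_1_rb803309442125x3 := p_wQ_26_wN_1_rb803309442125x1

theorem g_wQ_26_wN_1_rb803309442124x3 : GoodKC AS c_wQ_26_wN_1_rb803309442124x3 := p_wQ_26_wN_1_rb803309442124x1

theorem g_wQ_26_wN_1_rb803309442123x3 : GoodKC AS c_wQ_26_wN_1_rb803309442123x3 := p_wQ_26_wN_1_rb803309442123x1

theorem g_wQ_26_wN_1_rb803309442122x3 : GoodKC AS c_wQ_26_wN_1_rb803309442122x3 := p_wQ_26_wN_1_rb803309442122x1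

theorem g_wQ_26_wN_1_rb80330944211fx3 : GoodKC AS c_wQ_26_wN_1_rb80330944211fx3 := p_wQ_26_wN_1_rb80330944211fx1

theorem g_wQ_26_wN_1_rb80330944211ex3 : GoodKC AS c_wQ_26_wN_1_rb80330944211ex3 := p_wQ_26_wN_1_rb80330944211ex1

theorem g_wQ_26_wN_1_rb80330944211dx3 : GoodKC AS c_wQ_26_wN_1_rb80330944211dx3 := p_wQ_26_wN_1_rb80330944211dx1

theorem g_wQ_26_wN_1_rb80330944211cx3 : GoodKC AS c_wQ_26_wN_1_rb80330944211cx3 := p_wQ_26_wN_1_rb80330944211cx1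

theorem g_wQ_26_wN_1_rb80330944211bx3 : GoodKC AS c_wQ_26_wN_1_rb80330944211bx3 := p_wQ_26_wN_1_rb80330944211bx1

theorem g_wQ_26_wN_1_rb80330944211ax3 : GoodKC AS c_wQ_26_wN_1_rb80330944211ax3 := p_wQ_26_wN_1_rb80330944211ax1

theorem g__wQ_26_wN_1_rb803309442119x1_0 : GoodKC AS k_wQ_26_wN_1_rb803309442119x1_0 := p_wQ_26_wN_1_rb803309442119x1_0

theorem g_wQ_26_wN_1_rb803309442119x3 : GoodKC AS c_wQ_26_wN_1_rb803309442119x3 := p_wQ_26_wN_1_rb803309442119x1 g__wQ_26_wN_1_rb803309442119x1_0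

theorem g_wQ_26_wN_1_rb803309442118x3 : GoodKC AS c_wQ_26_wN_1_rb803309442118x3 := p_wQ_26_wN_1_rb803309442118x1

theorem g__wQ_26_wN_1_rb803309442116x1_1 : GoodKC AS k_wQ_26_wN_1_rb803309442116x1_1 := p_wQ_26_wN_1_rb803309442116x1_1

theorem g__wQ_26_wN_1_rb803309442116x1_0 : GoodKC AS k_wQ_26_wN_1_rb803309442116x1_0 := p_wQ_26_wN_1_rb803309442116x1_0 g__wQ_26_wN_1_rb803309442116x1_1

theorem g_wQ_26_wN_1_rb803309442116x3 : GoodKC AS c_wQ_26_wN_1_rb803309442116x3 := p_wQ_26_wN_1_rb803309442116x1 g__wQ_26_wN_1_rb803309442116x1_0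

theorem g_wQ_26_wN_1_rb803309442115x3 : GoodKC AS c_wQ_26_wN_1_rb803309442115x3 := p_wQ_26_wN_1_rb803309442115x1

theorem g_wQ_26_wN_1_rb803309442114x3 : GoodKC AS c_wQ_26_wN_1_rb803309442114x3 := p_wQ_26_wN_1_rb803309442114x1

theorem g_wQ_26_wN_1_rb803309442112x3 : GoodKC AS c_wQ_26_wN_1_rb803309442112x3 := p_wQ_26_wN_1_rb803309442112x1

theorem g__wQ_26_wN_1_rb803309442111x1_3 : GoodKC AS k_wQ_26_wN_1_rb803309442111x1_3 := p_wQ_26_wN_1_rb803309442111x1_3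

theorem g__wQ_26_wN_1_rb803309442111x1_2 : GoodKC AS k_wQ_26_wN_1_rb803309442111x1_2 := p_wQ_26_wN_1_rb803309442111x1_2 g__wQ_26_wN_1_rb803309442111x1_3

theorem g__wQ_26_wN_1_rb803309442111x1_1 : GoodKC AS k_wQ_26_wN_1_rb803309442111x1_1 := p_wQ_26_wN_1_rb803309442111x1_1 g__wQ_26_wN_1_rb803309442111x1_2

theorem g__wQ_26_wN_1_rb803309442111x1_0 : GoodKC AS k_wQ_26_wN_1_rb803309442111x1_0 := p_wQ_26_wN_1_rb803309442111x1_0 g__wQ_26_wN_1_rb803309442111x1_1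

theorem g_wQ_26_wN_1_rb803309442111x3 : GoodKC AS c_wQ_26_wN_1_rb803309442111x3 := p_wQ_26_wN_1_rb803309442111x1 g__wQ_26_wN_1_rb803309442111x1_0

theorem g_wQ_26_wN_1_rb803309442110x3 : GoodKC AS c_wQ_26_wN_1_rb803309442110x3 := p_wQ_26_wN_1_rb803309442110x1

theorem g_wQ_26_wN_1_rb80330944210dx3 : GoodKC AS c_wQ_26_wN_1_rb80330944210dx3 := p_wQ_26_wN_1_rb80330944210dx1

theorem g_wQ_26_wN_1_rb80330944210ax3 : GoodKC AS c_wQ_26_wN_1_rb80330944210ax3 := p_wQ_26_wN_1_rb80330944210ax1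

theorem g_wQ_26_wN_1_rb803309442109x3 : GoodKC AS c_wQ_26_wN_1_rb803309442109x3 := p_wQ_26_wN_1_rb803309442109x1

theorem g_wQ_26_wN_1_rb803309442106x3 : GoodKC AS c_wQ_26_wN_1_rb803309442106x3 := p_wQ_26_wN_1_rb803309442106x1

theorem g_wQ_26_wN_1_rb803309442103x3 : GoodKC AS c_wQ_26_wN_1_rb803309442103x3 := p_wQ_26_wN_1_rb803309442103x1

theorem g__wQ_26_wN_1_rb803309442102x1_0 : GoodKC AS k_wQ_26_wN_1_rb803309442102x1_0 := p_wQ_26_wN_1_rb803309442102x1_0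

theorem g_wQ_26_wN_1_rb803309442102x3 : GoodKC AS c_wQ_26_wN_1_rb803309442102x3 := p_wQ_26_wN_1_rb803309442102x1 g__wQ_26_wN_1_rb803309442102x1_0

theorem g_wQ_26_wN_1_rb803309442104x3 : GoodKC AS c_wQ_26_wN_1_rb803309442104x3 := p_wQ_26_wN_1_rb803309442104x1

theorem g_wQ_26_wN_1_rb803309442105x3 : GoodKC AS c_wQ_26_wN_1_rb803309442105x3 := p_wQ_26_wN_1_rb803309442105x1

theorem g_wQ_26_wN_1_rb803309442107x3 : GoodKC AS c_wQ_26_wN_1_rb803309442107x3 := p_wQ_26_wN_1_rb803309442107x1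

theorem g_wQ_26_wN_1_rb803309442108x3 : GoodKC AS c_wQ_26_wN_1_rb803309442108x3 := p_wQ_26_wN_1_rb803309442108x1

theorem g_wQ_26_wN_1_rb80330944210bx3 : GoodKC AS c_wQ_26_wN_1_rb80330944210bx3 := p_wQ_26_wN_1_rb80330944210bx1

theorem g_wQ_26_wN_1_rb80330944210003x1 : GoodKC AS c_wQ_26_wN_1_rb80330944210003x1 := p_wQ_26_wN_1_rb80330944210003x1

theorem g_wQ_26_wN_1_rb80330944210001x1 : GoodKC AS c_wQ_26_wN_1_rb80330944210001x1 := p_wQ_26_wN_1_rb80330944210001x1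

theorem g_wQ_26_wN_1_rb80330944210002x1 : GoodKC AS c_wQ_26_wN_1_rb80330944210002x1 := p_wQ_26_wN_1_rb80330944210002x1

theorem g_wQ_26_wN_1_rb80330944210004x1 : GoodKC AS c_wQ_26_wN_1_rb80330944210004x1 := p_wQ_26_wN_1_rb80330944210004x1

theorem g_wQ_26_wN_1_rb80330944210000_d51_d00x1 : GoodKC AS c_wQ_26_wN_1_rb80330944210000_d51_d00x1 := p_wQ_26_wN_1_rb80330944210000_d51_d00

theorem g_wQ_26_wN_1_rb80330944210000x1 : GoodKC AS c_wQ_26_wN_1_rb80330944210000x1 := p_wQ_26_wN_1_rb80330944210000x1 g_wQ_26_wN_1_rb80330944210000_d51_d00x1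

theorem g__wQ_26_wN_1_rb803309442100v1_0 : GoodKC AS k_wQ_26_wN_1_rb803309442100v1_0 := p_wQ_26_wN_1_rb803309442100v1_0 g_wQ_26_wN_1_rb80330944210000x1

theorem g_wQ_26_wN_1_rb80330944210005x1 : GoodKC AS c_wQ_26_wN_1_rb80330944210005x1 := p_wQ_26_wN_1_rb80330944210005x1

theorem g_wQ_26_wN_1_rb803309442100x3 : GoodKC AS c_wQ_26_wN_1_rb803309442100x3 := p_wQ_26_wN_1_rb803309442100x1 g_wQ_26_wN_1_rb80330944210003x1 g_wQ_26_wN_1_rb80330944210001x1 g_wQ_26_wN_1_rb80330944210002x1 g_wQ_26_wN_1_rb80330944210004x1 g__wQ_26_wN_1_rb803309442100v1_0 g_wQ_26_wN_1_rb80330944210005x1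

theorem g__wQ_26_wN_1_rb8033094421x3_11 : GoodKC AS k_wQ_26_wN_1_rb8033094421x3_11 := p_wQ_26_wN_1_rb8033094421x3_11

theorem g__wQ_26_wN_1_rb8033094421x3_10 : GoodKC AS k_wQ_26_wN_1_rb8033094421x3_10 := p_wQ_26_wN_1_rb8033094421x3_10 g_wQ_26_wN_1_rb803309442100x3 g__wQ_26_wN_1_rb8033094421x3_11

theorem g__wQ_26_wN_1_rb803309442101x1_1 : GoodKC AS k_wQ_26_wN_1_rb803309442101x1_1 := p_wQ_26_wN_1_rb803309442101x1_1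

theorem g__wQ_26_wN_1_rb803309442101x1_0 : GoodKC AS k_wQ_26_wN_1_rb803309442101x1_0 := p_wQ_26_wN_1_rb803309442101x1_0 g__wQ_26_wN_1_rb803309442101x1_1

theorem g_wQ_26_wN_1_rb803309442101x3 : GoodKC AS c_wQ_26_wN_1_rb803309442101x3 := p_wQ_26_wN_1_rb803309442101x1 g__wQ_26_wN_1_rb803309442101x1_0

theorem g__wQ_26_wN_1_rb8033094421x3_12 : GoodKC AS k_wQ_26_wN_1_rb8033094421x3_12 := p_wQ_26_wN_1_rb8033094421x3_12 g_wQ_26_wN_1_rb803309442101x3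

theorem g__wQ_26_wN_1_rb8033094421x3_9 : GoodKC AS k_wQ_26_wN_1_rb8033094421x3_9 := p_wQ_26_wN_1_rb8033094421x3_9 g__wQ_26_wN_1_rb8033094421x3_10 g__wQ_26_wN_1_rb8033094421x3_12

theorem g__wQ_26_wN_1_rb8033094421x3_8 : GoodKC AS k_wQ_26_wN_1_rb8033094421x3_8 := p_wQ_26_wN_1_rb8033094421x3_8 g__wQ_26_wN_1_rb8033094421x3_9

theorem g__wQ_26_wN_1_rb8033094421x3_7 : GoodKC AS k_wQ_26_wN_1_rb8033094421x3_7 := p_wQ_26_wN_1_rb8033094421x3_7 g__wQ_26_wN_1_rb8033094421x3_8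

theorem g__wQ_26_wN_1_rb8033094421x3_6 : GoodKC AS k_wQ_26_wN_1_rb8033094421x3_6 := p_wQ_26_wN_1_rb8033094421x3_6 g__wQ_26_wN_1_rb8033094421x3_7

theorem g__wQ_26_wN_1_rb8033094421x3_5 : GoodKC AS k_wQ_26_wN_1_rb8033094421x3_5 := p_wQ_26_wN_1_rb8033094421x3_5 g__wQ_26_wN_1_rb8033094421x3_6

theorem g__wQ_26_wN_1_rb8033094421x3_4 : GoodKC AS k_wQ_26_wN_1_rb8033094421x3_4 := p_wQ_26_wN_1_rb8033094421x3_4 g__wQ_26_wN_1_rb8033094421x3_5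

theorem g_wQ_26_wN_1_rb80330944210cx3 : GoodKC AS c_wQ_26_wN_1_rb80330944210cx3 := p_wQ_26_wN_1_rb80330944210cx1

theorem g__wQ_26_wN_1_rb80330944210ex1_1 : GoodKC AS k_wQ_26_wN_1_rb80330944210ex1_1 := p_wQ_26_wN_1_rb80330944210ex1_1

theorem g__wQ_26_wN_1_rb80330944210ex1_0 : GoodKC AS k_wQ_26_wN_1_rb80330944210ex1_0 := p_wQ_26_wN_1_rb80330944210ex1_0 g__wQ_26_wN_1_rb80330944210ex1_1

theorem g__wQ_26_wN_1_rb80330944210ex1_2 : GoodKC AS k_wQ_26_wN_1_rb80330944210ex1_2 := p_wQ_26_wN_1_rb80330944210ex1_2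

theorem g_wQ_26_wN_1_rb80330944210ex3 : GoodKC AS c_wQ_26_wN_1_rb80330944210ex3 := p_wQ_26_wN_1_rb80330944210ex1 g__wQ_26_wN_1_rb80330944210ex1_0 g__wQ_26_wN_1_rb80330944210ex1_2

theorem g_wQ_26_wN_1_rb80330944210fx3 : GoodKC AS c_wQ_26_wN_1_rb80330944210fx3 := p_wQ_26_wN_1_rb80330944210fx1

theorem g__wQ_26_wN_1_rb803309442113x1_0 : GoodKC AS k_wQ_26_wN_1_rb803309442113x1_0 := p_wQ_26_wN_1_rb803309442113x1_0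

theorem g_wQ_26_wN_1_rb803309442113x3 : GoodKC AS c_wQ_26_wN_1_rb803309442113x3 := p_wQ_26_wN_1_rb803309442113x1 g__wQ_26_wN_1_rb803309442113x1_0

theorem g_wQ_26_wN_1_rb803309442117x3 : GoodKC AS c_wQ_26_wN_1_rb803309442117x3 := p_wQ_26_wN_1_rb803309442117x1

theorem g_wQ_26_wN_1_rb803309442120x3 : GoodKC AS c_wQ_26_wN_1_rb803309442120x3 := p_wQ_26_wN_1_rb803309442120x1

theorem g_wQ_26_wN_1_rb803309442121x3 : GoodKC AS c_wQ_26_wN_1_rb803309442121x3 := p_wQ_26_wN_1_rb803309442121x1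

theorem g_wQ_26_wN_1_rb803309442127x3 : GoodKC AS c_wQ_26_wN_1_rb803309442127x3 := p_wQ_26_wN_1_rb803309442127x1

theorem g_wQ_26_wN_1_rb80330944212ax3 : GoodKC AS c_wQ_26_wN_1_rb80330944212ax3 := p_wQ_26_wN_1_rb80330944212ax1

theorem g_wQ_26_wN_1_rb80330944212bx3 : GoodKC AS c_wQ_26_wN_1_rb80330944212bx3 := p_wQ_26_wN_1_rb80330944212bx1

theorem g__wQ_26_wN_1_rb80330944212fx1_2 : GoodKC AS k_wQ_26_wN_1_rb80330944212fx1_2 := p_wQ_26_wN_1_rb80330944212fx1_2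

theorem g__wQ_26_wN_1_rb80330944212fx1_1 : GoodKC AS k_wQ_26_wN_1_rb80330944212fx1_1 := p_wQ_26_wN_1_rb80330944212fx1_1 g__wQ_26_wN_1_rb80330944212fx1_2

theorem g__wQ_26_wN_1_rb80330944212fx1_0 : GoodKC AS k_wQ_26_wN_1_rb80330944212fx1_0 := p_wQ_26_wN_1_rb80330944212fx1_0 g__wQ_26_wN_1_rb80330944212fx1_1

theorem g_wQ_26_wN_1_rb80330944212fx3 : GoodKC AS c_wQ_26_wN_1_rb80330944212fx3 := p_wQ_26_wN_1_rb80330944212fx1 g__wQ_26_wN_1_rb80330944212fx1_0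

theorem g_wQ_26_wN_1_rb803309442136x3 : GoodKC AS c_wQ_26_wN_1_rb803309442136x3 := p_wQ_26_wN_1_rb803309442136x1

theorem g_wQ_26_wN_1_rb803309442139x3 : GoodKC AS c_wQ_26_wN_1_rb803309442139x3 := p_wQ_26_wN_1_rb803309442139x1

theorem g__wQ_26_wN_1_rb803309442141x1_0 : GoodKC AS k_wQ_26_wN_1_rb803309442141x1_0 := p_wQ_26_wN_1_rb803309442141x1_0

theorem g__wQ_26_wN_1_rb803309442141x1_4 : GoodKC AS k_wQ_26_wN_1_rb803309442141x1_4 := p_wQ_26_wN_1_rb803309442141x1_4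

theorem g__wQ_26_wN_1_rb803309442141x1_3 : GoodKC AS k_wQ_26_wN_1_rb803309442141x1_3 := p_wQ_26_wN_1_rb803309442141x1_3 g__wQ_26_wN_1_rb803309442141x1_4

theorem g__wQ_26_wN_1_rb803309442141x1_2 : GoodKC AS k_wQ_26_wN_1_rb803309442141x1_2 := p_wQ_26_wN_1_rb803309442141x1_2 g__wQ_26_wN_1_rb803309442141x1_3

theorem g__wQ_26_wN_1_rb803309442141x1_1 : GoodKC AS k_wQ_26_wN_1_rb803309442141x1_1 := p_wQ_26_wN_1_rb803309442141x1_1 g__wQ_26_wN_1_rb803309442141x1_2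

theorem g_wQ_26_wN_1_rb803309442141x3 : GoodKC AS c_wQ_26_wN_1_rb803309442141x3 := p_wQ_26_wN_1_rb803309442141x1 g__wQ_26_wN_1_rb803309442141x1_0 g__wQ_26_wN_1_rb803309442141x1_1

theorem g__wQ_26_wN_1_rb803309442142x1_4 : GoodKC AS k_wQ_26_wN_1_rb803309442142x1_4 := p_wQ_26_wN_1_rb803309442142x1_4

theorem g__wQ_26_wN_1_rb803309442142x1_3 : GoodKC AS k_wQ_26_wN_1_rb803309442142x1_3 := p_wQ_26_wN_1_rb803309442142x1_3 g__wQ_26_wN_1_rb803309442142x1_4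

theorem g__wQ_26_wN_1_rb803309442142x1_2 : GoodKC AS k_wQ_26_wN_1_rb803309442142x1_2 := p_wQ_26_wN_1_rb803309442142x1_2 g__wQ_26_wN_1_rb803309442142x1_3

theorem g__wQ_26_wN_1_rb803309442142x1_1 : GoodKC AS k_wQ_26_wN_1_rb803309442142x1_1 := p_wQ_26_wN_1_rb803309442142x1_1 g__wQ_26_wN_1_rb803309442142x1_2

theorem g__wQ_26_wN_1_rb803309442142x1_0 : GoodKC AS k_wQ_26_wN_1_rb803309442142x1_0 := p_wQ_26_wN_1_rb803309442142x1_0 g__wQ_26_wN_1_rb803309442142x1_1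

theorem g_wQ_26_wN_1_rb803309442142x3 : GoodKC AS c_wQ_26_wN_1_rb803309442142x3 := p_wQ_26_wN_1_rb803309442142x1 g__wQ_26_wN_1_rb803309442142x1_0

theorem g_wQ_26_wN_1_rb803309442143x3 : GoodKC AS c_wQ_26_wN_1_rb803309442143x3 := p_wQ_26_wN_1_rb803309442143x1

theorem g_wQ_26_wN_1_rb8033094421x13 : GoodKC AS c_wQ_26_wN_1_rb8033094421x13 := p_wQ_26_wN_1_rb8033094421x3 g__wQ_26_wN_1_rb8033094421x3_0 g_wQ_26_wN_1_rb803309442144x3 g_wQ_26_wN_1_rb803309442140x3 g_wQ_26_wN_1_rb80330944213fx3 g_wQ_26_wN_1_rb80330944213ex3 g_wQ_26_wN_1_rb80330944213dx3 g_wQ_26_wN_1_rb80330944213cx3 g_wQ_26_wN_1_rb80330944213bx3 g_wQ_26_wN_1_rb80330944213ax3 g_wQ_26_wN_1_rb803309442138x3 g_wQ_26_wN_1_rb803309442137x3 g_wQ_26_wN_1_rb803309442135x3 g_wQ_26_wN_1_rb803309442134x3 g_wQ_26_wN_1_rb803309442133x3 g_wQ_26_wN_1_rb803309442132x3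 g_wQ_26_wN_1_rb803309442131x3 g_wQ_26_wN_1_rb803309442130x3 g_wQ_26_wN_1_rb80330944212ex3 g_wQ_26_wN_1_rb80330944212dx3 g_wQ_26_wN_1_rb80330944212cx3 g_wQ_26_wN_1_rb803309442129x3 g_wQ_26_wN_1_rb803309442128x3 g_wQ_26_wN_1_rb803309442126x3 g_wQ_26_wN_1_rb803309442125x3 g_wQ_26_wN_1_rb803309442124x3 g_wQ_26_wN_1_rb803309442123x3 g_wQ_26_wN_1_rb803309442122x3 g_wQ_26_wN_1_rb80330944211fx3 g_wQ_26_wN_1_rb80330944211ex3 g_wQ_26_wN_1_rb80330944211dx3 g_wQ_26_wN_1_rb80330944211cx3 g_wQ_26_wN_1_rb80330944211bx3 g_wQ_26_wN_1_rb80330944211ax3 g_wQ_26_wN_1_rb803309442119x3 g_wQ_26_wN_1_rb803309442118x3 g_wQ_26_wN_1_rb803309442116x3 g_wQ_26_wN_1_rb803309442115x3 g_wQ_26_wN_1_rb803309442114x3 g_wQ_26_wN_1_rb803309442112x3 g_wQ_26_wN_1_rb803309442111x3 g_wQ_26_wN_1_rb803309442110x3 g_wQ_26_wN_1_rb80330944210dx3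 g_wQ_26_wN_1_rb80330944210ax3 g_wQ_26_wN_1_rb803309442109x3 g_wQ_26_wN_1_rb803309442106x3 g_wQ_26_wN_1_rb803309442103x3 g_wQ_26_wN_1_rb803309442102x3 g_wQ_26_wN_1_rb803309442104x3 g_wQ_26_wN_1_rb803309442105x3 g_wQ_26_wN_1_rb803309442107x3 g_wQ_26_wN_1_rb803309442108x3 g_wQ_26_wN_1_rb80330944210bx3 g__wQ_26_wN_1_rb8033094421x3_4 g_wQ_26_wN_1_rb80330944210cx3 g_wQ_26_wN_1_rb80330944210ex3 g_wQ_26_wN_1_rb80330944210fx3 g_wQ_26_wN_1_rb803309442113x3 g_wQ_26_wN_1_rb803309442117x3 g_wQ_26_wN_1_rb803309442120x3 g_wQ_26_wN_1_rb803309442121x3 g_wQ_26_wN_1_rb803309442127x3 g_wQ_26_wN_1_rb80330944212ax3 g_wQ_26_wN_1_rb80330944212bx3 g_wQ_26_wN_1_rb80330944212fx3 g_wQ_26_wN_1_rb803309442136x3 g_wQ_26_wN_1_rb803309442139x3 g_wQ_26_wN_1_rb803309442141x3 g_wQ_26_wN_1_rb803309442142x3 g_wQ_26_wN_1_rb803309442143x3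

theorem g_wQ_26_wN_1_rb8033094426x13 : GoodKC AS c_wQ_26_wN_1_rb8033094426x13 := p_wQ_26_wN_1_rb8033094426x4

theorem g_wQ_26_wN_1_rb80330944x7 : GoodKC AS c_wQ_26_wN_1_rb80330944x7 := p_wQ_26_wN_1_rb80330944x13 g_wQ_26_wN_1_rb8033094425x13 g_wQ_26_wN_1_rb8033094424x13 g_wQ_26_wN_1_rb8033094423x13 g_wQ_26_wN_1_rb8033094422x13 g_wQ_26_wN_1_rb8033094420x13 g_wQ_26_wN_1_rb803309441fx13 g_wQ_26_wN_1_rb803309441cx13 g_wQ_26_wN_1_rb803309441ax13 g_wQ_26_wN_1_rb8033094418x13 g_wQ_26_wN_1_rb8033094416x13 g__wQ_26_wN_1_rb80330944x13_0 g__wQ_26_wN_1_rb80330944x13_11 g__wQ_26_wN_1_rb80330944x13_33 g__wQ_26_wN_1_rb80330944x13_35 g_wQ_26_wN_1_rb8033094415x13 g_wQ_26_wN_1_rb8033094417x13 g_wQ_26_wN_1_rb8033094419x13 g_wQ_26_wN_1_rb803309441bx13 g_wQ_26_wN_1_rb803309441dx13 g_wQ_26_wN_1_rb803309441ex13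 g_wQ_26_wN_1_rb8033094421x13 g_wQ_26_wN_1_rb8033094426x13

theorem g_wQ_26_wN_1_rb803309451cx5 : GoodKC AS c_wQ_26_wN_1_rb803309451cx5 := p_wQ_26_wN_1_rb803309451cx2

theorem g_wQ_26_wN_1_rb803309451bx5 : GoodKC AS c_wQ_26_wN_1_rb803309451bx5 := p_wQ_26_wN_1_rb803309451bx2

theorem g_wQ_26_wN_1_rb803309451ax5 : GoodKC AS c_wQ_26_wN_1_rb803309451ax5 := p_wQ_26_wN_1_rb803309451ax2

theorem g__wQ_26_wN_1_rb8033094518x2_5 : GoodKC AS k_wQ_26_wN_1_rb8033094518x2_5 := p_wQ_26_wN_1_rb8033094518x2_5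

theorem g__wQ_26_wN_1_rb8033094518x2_4 : GoodKC AS k_wQ_26_wN_1_rb8033094518x2_4 := p_wQ_26_wN_1_rb8033094518x2_4 g__wQ_26_wN_1_rb8033094518x2_5

theorem g__wQ_26_wN_1_rb8033094518x2_3 : GoodKC AS k_wQ_26_wN_1_rb8033094518x2_3 := p_wQ_26_wN_1_rb8033094518x2_3 g__wQ_26_wN_1_rb8033094518x2_4

theorem g__wQ_26_wN_1_rb8033094518x2_6 : GoodKC AS k_wQ_26_wN_1_rb8033094518x2_6 := p_wQ_26_wN_1_rb8033094518x2_6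

theorem g__wQ_26_wN_1_rb8033094518x2_2 : GoodKC AS k_wQ_26_wN_1_rb8033094518x2_2 := p_wQ_26_wN_1_rb8033094518x2_2 g__wQ_26_wN_1_rb8033094518x2_3 g__wQ_26_wN_1_rb8033094518x2_6

theorem g__wQ_26_wN_1_rb8033094518x2_10 : GoodKC AS k_wQ_26_wN_1_rb8033094518x2_10 := p_wQ_26_wN_1_rb8033094518x2_10

theorem g__wQ_26_wN_1_rb8033094518x2_9 : GoodKC AS k_wQ_26_wN_1_rb8033094518x2_9 := p_wQ_26_wN_1_rb8033094518x2_9 g__wQ_26_wN_1_rb8033094518x2_10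

theorem g__wQ_26_wN_1_rb8033094518x2_8 : GoodKC AS k_wQ_26_wN_1_rb8033094518x2_8 := p_wQ_26_wN_1_rb8033094518x2_8 g__wQ_26_wN_1_rb8033094518x2_9

theorem g__wQ_26_wN_1_rb8033094518x2_7 : GoodKC AS k_wQ_26_wN_1_rb8033094518x2_7 := p_wQ_26_wN_1_rb8033094518x2_7 g__wQ_26_wN_1_rb8033094518x2_8

theorem g__wQ_26_wN_1_rb8033094518x2_12 : GoodKC AS k_wQ_26_wN_1_rb8033094518x2_12 := p_wQ_26_wN_1_rb8033094518x2_12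

theorem g__wQ_26_wN_1_rb8033094518x2_11 : GoodKC AS k_wQ_26_wN_1_rb8033094518x2_11 := p_wQ_26_wN_1_rb8033094518x2_11 g__wQ_26_wN_1_rb8033094518x2_12

theorem g__wQ_26_wN_1_rb8033094518x2_1 : GoodKC AS k_wQ_26_wN_1_rb8033094518x2_1 := p_wQ_26_wN_1_rb8033094518x2_1 g__wQ_26_wN_1_rb8033094518x2_2 g__wQ_26_wN_1_rb8033094518x2_7 g__wQ_26_wN_1_rb8033094518x2_11

theorem g__wQ_26_wN_1_rb8033094518x2_13 : GoodKC AS k_wQ_26_wN_1_rb8033094518x2_13 := p_wQ_26_wN_1_rb8033094518x2_13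

theorem g__wQ_26_wN_1_rb8033094518x2_14 : GoodKC AS k_wQ_26_wN_1_rb8033094518x2_14 := p_wQ_26_wN_1_rb8033094518x2_14

theorem g__wQ_26_wN_1_rb8033094518x2_16 : GoodKC AS k_wQ_26_wN_1_rb8033094518x2_16 := p_wQ_26_wN_1_rb8033094518x2_16

theorem g__wQ_26_wN_1_rb8033094518x2_17 : GoodKC AS k_wQ_26_wN_1_rb8033094518x2_17 := p_wQ_26_wN_1_rb8033094518x2_17

theorem g__wQ_26_wN_1_rb8033094518x2_15 : GoodKC AS k_wQ_26_wN_1_rb8033094518x2_15 := p_wQ_26_wN_1_rb8033094518x2_15 g__wQ_26_wN_1_rb8033094518x2_16 g__wQ_26_wN_1_rb8033094518x2_17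

theorem g__wQ_26_wN_1_rb8033094518x2_19 : GoodKC AS k_wQ_26_wN_1_rb8033094518x2_19 := p_wQ_26_wN_1_rb8033094518x2_19

theorem g__wQ_26_wN_1_rb8033094518x2_18 : GoodKC AS k_wQ_26_wN_1_rb8033094518x2_18 := p_wQ_26_wN_1_rb8033094518x2_18 g__wQ_26_wN_1_rb8033094518x2_19

theorem g__wQ_26_wN_1_rb8033094518x2_21 : GoodKC AS k_wQ_26_wN_1_rb8033094518x2_21 := p_wQ_26_wN_1_rb8033094518x2_21

theorem g__wQ_26_wN_1_rb8033094518x2_22 : GoodKC AS k_wQ_26_wN_1_rb8033094518x2_22 := p_wQ_26_wN_1_rb8033094518x2_22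

theorem g__wQ_26_wN_1_rb8033094518x2_24 : GoodKC AS k_wQ_26_wN_1_rb8033094518x2_24 := p_wQ_26_wN_1_rb8033094518x2_24

theorem g__wQ_26_wN_1_rb8033094518x2_23 : GoodKC AS k_wQ_26_wN_1_rb8033094518x2_23 := p_wQ_26_wN_1_rb8033094518x2_23 g__wQ_26_wN_1_rb8033094518x2_24

theorem g__wQ_26_wN_1_rb8033094518x2_20 : GoodKC AS k_wQ_26_wN_1_rb8033094518x2_20 := p_wQ_26_wN_1_rb8033094518x2_20 g__wQ_26_wN_1_rb8033094518x2_21 g__wQ_26_wN_1_rb8033094518x2_22 g__wQ_26_wN_1_rb8033094518x2_23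

theorem g__wQ_26_wN_1_rb8033094518x2_26 : GoodKC AS k_wQ_26_wN_1_rb8033094518x2_26 := p_wQ_26_wN_1_rb8033094518x2_26

theorem g__wQ_26_wN_1_rb8033094518x2_25 : GoodKC AS k_wQ_26_wN_1_rb8033094518x2_25 := p_wQ_26_wN_1_rb8033094518x2_25 g__wQ_26_wN_1_rb8033094518x2_26

theorem g__wQ_26_wN_1_rb8033094518x2_0 : GoodKC AS k_wQ_26_wN_1_rb8033094518x2_0 := p_wQ_26_wN_1_rb8033094518x2_0 g__wQ_26_wN_1_rb8033094518x2_1 g__wQ_26_wN_1_rb8033094518x2_13 g__wQ_26_wN_1_rb8033094518x2_14 g__wQ_26_wN_1_rb8033094518x2_15 g__wQ_26_wN_1_rb8033094518x2_18 g__wQ_26_wN_1_rb8033094518x2_20 g__wQ_26_wN_1_rb8033094518x2_25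

theorem g_wQ_26_wN_1_rb8033094518x5 : GoodKC AS c_wQ_26_wN_1_rb8033094518x5 := p_wQ_26_wN_1_rb8033094518x2 g__wQ_26_wN_1_rb8033094518x2_0

theorem g_wQ_26_wN_1_rb8033094517x5 : GoodKC AS c_wQ_26_wN_1_rb8033094517x5 := p_wQ_26_wN_1_rb8033094517x2

theorem g_wQ_26_wN_1_rb8033094512x5 : GoodKC AS c_wQ_26_wN_1_rb8033094512x5 := p_wQ_26_wN_1_rb8033094512x2

theorem g_wQ_26_wN_1_rb803309450fx5 : GoodKC AS c_wQ_26_wN_1_rb803309450fx5 := p_wQ_26_wN_1_rb803309450fx2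

theorem g_wQ_26_wN_1_rb803309450ex5 : GoodKC AS c_wQ_26_wN_1_rb803309450ex5 := p_wQ_26_wN_1_rb803309450ex2

theorem g_wQ_26_wN_1_rb803309450dx5 : GoodKC AS c_wQ_26_wN_1_rb803309450dx5 := p_wQ_26_wN_1_rb803309450dx2

theorem g_wQ_26_wN_1_rb803309450bx5 : GoodKC AS c_wQ_26_wN_1_rb803309450bx5 := p_wQ_26_wN_1_rb803309450bx2

theorem g_wQ_26_wN_1_rb803309450ax5 : GoodKC AS c_wQ_26_wN_1_rb803309450ax5 := p_wQ_26_wN_1_rb803309450ax2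

theorem g_wQ_26_wN_1_rb8033094508x5 : GoodKC AS c_wQ_26_wN_1_rb8033094508x5 := p_wQ_26_wN_1_rb8033094508x2

theorem g_wQ_26_wN_1_rb8033094507x5 : GoodKC AS c_wQ_26_wN_1_rb8033094507x5 := p_wQ_26_wN_1_rb8033094507x2

theorem g_wQ_26_wN_1_rb8033094506x5 : GoodKC AS c_wQ_26_wN_1_rb8033094506x5 := p_wQ_26_wN_1_rb8033094506x2

theorem g_wQ_26_wN_1_rb8033094505x5 : GoodKC AS c_wQ_26_wN_1_rb8033094505x5 := p_wQ_26_wN_1_rb8033094505x2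

theorem g_wQ_26_wN_1_rb8033094503x5 : GoodKC AS c_wQ_26_wN_1_rb8033094503x5 := p_wQ_26_wN_1_rb8033094503x2

theorem g_wQ_26_wN_1_rb8033094502x5 : GoodKC AS c_wQ_26_wN_1_rb8033094502x5 := p_wQ_26_wN_1_rb8033094502x2

theorem g__wQ_26_wN_1_rb8033094501x2_4 : GoodKC AS k_wQ_26_wN_1_rb8033094501x2_4 := p_wQ_26_wN_1_rb8033094501x2_4

theorem g__wQ_26_wN_1_rb8033094501x2_3 : GoodKC AS k_wQ_26_wN_1_rb8033094501x2_3 := p_wQ_26_wN_1_rb8033094501x2_3 g__wQ_26_wN_1_rb8033094501x2_4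

theorem g__wQ_26_wN_1_rb8033094501x2_2 : GoodKC AS k_wQ_26_wN_1_rb8033094501x2_2 := p_wQ_26_wN_1_rb8033094501x2_2 g__wQ_26_wN_1_rb8033094501x2_3

theorem g__wQ_26_wN_1_rb8033094501x2_1 : GoodKC AS k_wQ_26_wN_1_rb8033094501x2_1 := p_wQ_26_wN_1_rb8033094501x2_1 g__wQ_26_wN_1_rb8033094501x2_2

theorem g__wQ_26_wN_1_rb8033094501x2_0 : GoodKC AS k_wQ_26_wN_1_rb8033094501x2_0 := p_wQ_26_wN_1_rb8033094501x2_0 g__wQ_26_wN_1_rb8033094501x2_1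

theorem g_wQ_26_wN_1_rb8033094501x5 : GoodKC AS c_wQ_26_wN_1_rb8033094501x5 := p_wQ_26_wN_1_rb8033094501x2 g__wQ_26_wN_1_rb8033094501x2_0

theorem g_wQ_26_wN_1_rb8033094504x5 : GoodKC AS c_wQ_26_wN_1_rb8033094504x5 := p_wQ_26_wN_1_rb8033094504x2

theorem g_wQ_26_wN_1_rb8033094509x5 : GoodKC AS c_wQ_26_wN_1_rb8033094509x5 := p_wQ_26_wN_1_rb8033094509x2

theorem g_wQ_26_wN_1_rb803309450cx5 : GoodKC AS c_wQ_26_wN_1_rb803309450cx5 := p_wQ_26_wN_1_rb803309450cx2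

theorem g_wQ_26_wN_1_rb8033094510x5 : GoodKC AS c_wQ_26_wN_1_rb8033094510x5 := p_wQ_26_wN_1_rb8033094510x2

theorem g_wQ_26_wN_1_rb8033094511x5 : GoodKC AS c_wQ_26_wN_1_rb8033094511x5 := p_wQ_26_wN_1_rb8033094511x2

theorem g__wQ_26_wN_1_rb8033094513x2_0 : GoodKC AS k_wQ_26_wN_1_rb8033094513x2_0 := p_wQ_26_wN_1_rb8033094513x2_0

theorem g__wQ_26_wN_1_rb8033094513x2_1 : GoodKC AS k_wQ_26_wN_1_rb8033094513x2_1 := p_wQ_26_wN_1_rb8033094513x2_1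

theorem g_wQ_26_wN_1_rb8033094513x5 : GoodKC AS c_wQ_26_wN_1_rb8033094513x5 := p_wQ_26_wN_1_rb8033094513x2 g__wQ_26_wN_1_rb8033094513x2_0 g__wQ_26_wN_1_rb8033094513x2_1

theorem g_wQ_26_wN_1_rb8033094514x5 : GoodKC AS c_wQ_26_wN_1_rb8033094514x5 := p_wQ_26_wN_1_rb8033094514x2

theorem g__wQ_26_wN_1_rb8033094515x2_0 : GoodKC AS k_wQ_26_wN_1_rb8033094515x2_0 := p_wQ_26_wN_1_rb8033094515x2_0

theorem g_wQ_26_wN_1_rb8033094515x5 : GoodKC AS c_wQ_26_wN_1_rb8033094515x5 := p_wQ_26_wN_1_rb8033094515x2 g__wQ_26_wN_1_rb8033094515x2_0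

theorem g__wQ_26_wN_1_rb80330945x5_0 : GoodKC AS k_wQ_26_wN_1_rb80330945x5_0 := p_wQ_26_wN_1_rb80330945x5_0

theorem g__wQ_26_wN_1_rb80330945x5_2 : GoodKC AS k_wQ_26_wN_1_rb80330945x5_2 := p_wQ_26_wN_1_rb80330945x5_2

theorem g__wQ_26_wN_1_rb80330945x5_1 : GoodKC AS k_wQ_26_wN_1_rb80330945x5_1 := p_wQ_26_wN_1_rb80330945x5_1 g__wQ_26_wN_1_rb80330945x5_2

theorem g__wQ_26_wN_1_rb80330945x5_3 : GoodKC AS k_wQ_26_wN_1_rb80330945x5_3 := p_wQ_26_wN_1_rb80330945x5_3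

theorem g__wQ_26_wN_1_rb80330945x5_7 : GoodKC AS k_wQ_26_wN_1_rb80330945x5_7 := p_wQ_26_wN_1_rb80330945x5_7

theorem g__wQ_26_wN_1_rb80330945x5_6 : GoodKC AS k_wQ_26_wN_1_rb80330945x5_6 := p_wQ_26_wN_1_rb80330945x5_6 g__wQ_26_wN_1_rb80330945x5_7

theorem g__wQ_26_wN_1_rb80330945x5_9 : GoodKC AS k_wQ_26_wN_1_rb80330945x5_9 := p_wQ_26_wN_1_rb80330945x5_9

theorem g__wQ_26_wN_1_rb80330945x5_10 : GoodKC AS k_wQ_26_wN_1_rb80330945x5_10 := p_wQ_26_wN_1_rb80330945x5_10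

theorem g__wQ_26_wN_1_rb80330945x5_11 : GoodKC AS k_wQ_26_wN_1_rb80330945x5_11 := p_wQ_26_wN_1_rb80330945x5_11

theorem g__wQ_26_wN_1_rb80330945x5_18 : GoodKC AS k_wQ_26_wN_1_rb80330945x5_18 := p_wQ_26_wN_1_rb80330945x5_18

theorem g__wQ_26_wN_1_rb80330945x5_17 : GoodKC AS k_wQ_26_wN_1_rb80330945x5_17 := p_wQ_26_wN_1_rb80330945x5_17 g__wQ_26_wN_1_rb80330945x5_18

theorem g__wQ_26_wN_1_rb80330945x5_16 : GoodKC AS k_wQ_26_wN_1_rb80330945x5_16 := p_wQ_26_wN_1_rb80330945x5_16 g__wQ_26_wN_1_rb80330945x5_17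

theorem g__wQ_26_wN_1_rb80330945x5_15 : GoodKC AS k_wQ_26_wN_1_rb80330945x5_15 := p_wQ_26_wN_1_rb80330945x5_15 g__wQ_26_wN_1_rb80330945x5_16

theorem g__wQ_26_wN_1_rb80330945x5_14 : GoodKC AS k_wQ_26_wN_1_rb80330945x5_14 := p_wQ_26_wN_1_rb80330945x5_14 g__wQ_26_wN_1_rb80330945x5_15

theorem g__wQ_26_wN_1_rb80330945x5_13 : GoodKC AS k_wQ_26_wN_1_rb80330945x5_13 := p_wQ_26_wN_1_rb80330945x5_13 g__wQ_26_wN_1_rb80330945x5_14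

theorem g__wQ_26_wN_1_rb80330945x5_21 : GoodKC AS k_wQ_26_wN_1_rb80330945x5_21 := p_wQ_26_wN_1_rb80330945x5_21

theorem g__wQ_26_wN_1_rb80330945x5_23 : GoodKC AS k_wQ_26_wN_1_rb80330945x5_23 := p_wQ_26_wN_1_rb80330945x5_23

theorem g__wQ_26_wN_1_rb80330945x5_26 : GoodKC AS k_wQ_26_wN_1_rb80330945x5_26 := p_wQ_26_wN_1_rb80330945x5_26

theorem g__wQ_26_wN_1_rb80330945x5_25 : GoodKC AS k_wQ_26_wN_1_rb80330945x5_25 := p_wQ_26_wN_1_rb80330945x5_25 g__wQ_26_wN_1_rb80330945x5_26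

theorem g__wQ_26_wN_1_rb80330945x5_24 : GoodKC AS k_wQ_26_wN_1_rb80330945x5_24 := p_wQ_26_wN_1_rb80330945x5_24 g__wQ_26_wN_1_rb80330945x5_25

theorem g__wQ_26_wN_1_rb80330945x5_27 : GoodKC AS k_wQ_26_wN_1_rb80330945x5_27 := p_wQ_26_wN_1_rb80330945x5_27

theorem g__wQ_26_wN_1_rb80330945x5_22 : GoodKC AS k_wQ_26_wN_1_rb80330945x5_22 := p_wQ_26_wN_1_rb80330945x5_22 g__wQ_26_wN_1_rb80330945x5_23 g__wQ_26_wN_1_rb80330945x5_24 g__wQ_26_wN_1_rb80330945x5_27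

theorem g__wQ_26_wN_1_rb80330945x5_20 : GoodKC AS k_wQ_26_wN_1_rb80330945x5_20 := p_wQ_26_wN_1_rb80330945x5_20 g__wQ_26_wN_1_rb80330945x5_21 g__wQ_26_wN_1_rb80330945x5_22

theorem g__wQ_26_wN_1_rb80330945x5_28 : GoodKC AS k_wQ_26_wN_1_rb80330945x5_28 := p_wQ_26_wN_1_rb80330945x5_28

theorem g__wQ_26_wN_1_rb80330945x5_33 : GoodKC AS k_wQ_26_wN_1_rb80330945x5_33 := p_wQ_26_wN_1_rb80330945x5_33

theorem g__wQ_26_wN_1_rb80330945x5_32 : GoodKC AS k_wQ_26_wN_1_rb80330945x5_32 := p_wQ_26_wN_1_rb80330945x5_32 g__wQ_26_wN_1_rb80330945x5_33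

theorem g__wQ_26_wN_1_rb80330945x5_35 : GoodKC AS k_wQ_26_wN_1_rb80330945x5_35 := p_wQ_26_wN_1_rb80330945x5_35

theorem g__wQ_26_wN_1_rb80330945x5_34 : GoodKC AS k_wQ_26_wN_1_rb80330945x5_34 := p_wQ_26_wN_1_rb80330945x5_34 g__wQ_26_wN_1_rb80330945x5_35

theorem g__wQ_26_wN_1_rb80330945x5_31 : GoodKC AS k_wQ_26_wN_1_rb80330945x5_31 := p_wQ_26_wN_1_rb80330945x5_31 g__wQ_26_wN_1_rb80330945x5_32 g__wQ_26_wN_1_rb80330945x5_34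

theorem g__wQ_26_wN_1_rb80330945x5_30 : GoodKC AS k_wQ_26_wN_1_rb80330945x5_30 := p_wQ_26_wN_1_rb80330945x5_30 g__wQ_26_wN_1_rb80330945x5_31

theorem g__wQ_26_wN_1_rb80330945x5_29 : GoodKC AS k_wQ_26_wN_1_rb80330945x5_29 := p_wQ_26_wN_1_rb80330945x5_29 g__wQ_26_wN_1_rb80330945x5_30

theorem g__wQ_26_wN_1_rb80330945x5_19 : GoodKC AS k_wQ_26_wN_1_rb80330945x5_19 := p_wQ_26_wN_1_rb80330945x5_19 g__wQ_26_wN_1_rb80330945x5_20 g__wQ_26_wN_1_rb80330945x5_28 g__wQ_26_wN_1_rb80330945x5_29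

theorem g__wQ_26_wN_1_rb80330945x5_38 : GoodKC AS k_wQ_26_wN_1_rb80330945x5_38 := p_wQ_26_wN_1_rb80330945x5_38

theorem g__wQ_26_wN_1_rb80330945x5_37 : GoodKC AS k_wQ_26_wN_1_rb80330945x5_37 := p_wQ_26_wN_1_rb80330945x5_37 g__wQ_26_wN_1_rb80330945x5_38

theorem g__wQ_26_wN_1_rb80330945x5_39 : GoodKC AS k_wQ_26_wN_1_rb80330945x5_39 := p_wQ_26_wN_1_rb80330945x5_39

theorem g__wQ_26_wN_1_rb80330945x5_36 : GoodKC AS k_wQ_26_wN_1_rb80330945x5_36 := p_wQ_26_wN_1_rb80330945x5_36 g__wQ_26_wN_1_rb80330945x5_37 g__wQ_26_wN_1_rb80330945x5_39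

theorem g__wQ_26_wN_1_rb80330945x5_40 : GoodKC AS k_wQ_26_wN_1_rb80330945x5_40 := p_wQ_26_wN_1_rb80330945x5_40

theorem g__wQ_26_wN_1_rb80330945x5_41 : GoodKC AS k_wQ_26_wN_1_rb80330945x5_41 := p_wQ_26_wN_1_rb80330945x5_41

theorem g__wQ_26_wN_1_rb80330945x5_12 : GoodKC AS k_wQ_26_wN_1_rb80330945x5_12 := p_wQ_26_wN_1_rb80330945x5_12 g__wQ_26_wN_1_rb80330945x5_13 g__wQ_26_wN_1_rb80330945x5_19 g__wQ_26_wN_1_rb80330945x5_36 g__wQ_26_wN_1_rb80330945x5_40 g__wQ_26_wN_1_rb80330945x5_41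

theorem g__wQ_26_wN_1_rb80330945x5_8 : GoodKC AS k_wQ_26_wN_1_rb80330945x5_8 := p_wQ_26_wN_1_rb80330945x5_8 g__wQ_26_wN_1_rb80330945x5_9 g__wQ_26_wN_1_rb80330945x5_10 g__wQ_26_wN_1_rb80330945x5_11 g__wQ_26_wN_1_rb80330945x5_12

theorem g__wQ_26_wN_1_rb80330945x5_5 : GoodKC AS k_wQ_26_wN_1_rb80330945x5_5 := p_wQ_26_wN_1_rb80330945x5_5 g__wQ_26_wN_1_rb80330945x5_6 g__wQ_26_wN_1_rb80330945x5_8

theorem g__wQ_26_wN_1_rb80330945x5_44 : GoodKC AS k_wQ_26_wN_1_rb80330945x5_44 := p_wQ_26_wN_1_rb80330945x5_44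

theorem g__wQ_26_wN_1_rb80330945x5_45 : GoodKC AS k_wQ_26_wN_1_rb80330945x5_45 := p_wQ_26_wN_1_rb80330945x5_45

theorem g__wQ_26_wN_1_rb80330945x5_43 : GoodKC AS k_wQ_26_wN_1_rb80330945x5_43 := p_wQ_26_wN_1_rb80330945x5_43 g__wQ_26_wN_1_rb80330945x5_44 g__wQ_26_wN_1_rb80330945x5_45

theorem g__wQ_26_wN_1_rb80330945x5_46 : GoodKC AS k_wQ_26_wN_1_rb80330945x5_46 := p_wQ_26_wN_1_rb80330945x5_46

theorem g__wQ_26_wN_1_rb80330945x5_42 : GoodKC AS k_wQ_26_wN_1_rb80330945x5_42 := p_wQ_26_wN_1_rb80330945x5_42 g__wQ_26_wN_1_rb80330945x5_43 g__wQ_26_wN_1_rb80330945x5_46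

theorem g__wQ_26_wN_1_rb80330945x5_4 : GoodKC AS k_wQ_26_wN_1_rb80330945x5_4 := p_wQ_26_wN_1_rb80330945x5_4 g__wQ_26_wN_1_rb80330945x5_5 g__wQ_26_wN_1_rb80330945x5_42

theorem g__wQ_26_wN_1_rb8033094500v2_0 : GoodKC AS k_wQ_26_wN_1_rb8033094500v2_0 := p_wQ_26_wN_1_rb8033094500v2_0

theorem g__wQ_26_wN_1_rb8033094500v2_2 : GoodKC AS k_wQ_26_wN_1_rb8033094500v2_2 := p_wQ_26_wN_1_rb8033094500v2_2

theorem g__wQ_26_wN_1_rb8033094500v2_3 : GoodKC AS k_wQ_26_wN_1_rb8033094500v2_3 := p_wQ_26_wN_1_rb8033094500v2_3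

theorem g__wQ_26_wN_1_rb8033094500v2_1 : GoodKC AS k_wQ_26_wN_1_rb8033094500v2_1 := p_wQ_26_wN_1_rb8033094500v2_1 g__wQ_26_wN_1_rb8033094500v2_2 g__wQ_26_wN_1_rb8033094500v2_3

theorem g__wQ_26_wN_1_rb8033094500v2_4 : GoodKC AS k_wQ_26_wN_1_rb8033094500v2_4 := p_wQ_26_wN_1_rb8033094500v2_4

theorem g__wQ_26_wN_1_rb8033094500v2_5 : GoodKC AS k_wQ_26_wN_1_rb8033094500v2_5 := p_wQ_26_wN_1_rb8033094500v2_5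

theorem g__wQ_26_wN_1_rb8033094500v2_9 : GoodKC AS k_wQ_26_wN_1_rb8033094500v2_9 := p_wQ_26_wN_1_rb8033094500v2_9

theorem g__wQ_26_wN_1_rb8033094500v2_8 : GoodKC AS k_wQ_26_wN_1_rb8033094500v2_8 := p_wQ_26_wN_1_rb8033094500v2_8 g__wQ_26_wN_1_rb8033094500v2_9

theorem g__wQ_26_wN_1_rb8033094500v2_10 : GoodKC AS k_wQ_26_wN_1_rb8033094500v2_10 := p_wQ_26_wN_1_rb8033094500v2_10

theorem g__wQ_26_wN_1_rb8033094500v2_16 : GoodKC AS k_wQ_26_wN_1_rb8033094500v2_16 := p_wQ_26_wN_1_rb8033094500v2_16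

theorem g__wQ_26_wN_1_rb8033094500v2_18 : GoodKC AS k_wQ_26_wN_1_rb8033094500v2_18 := p_wQ_26_wN_1_rb8033094500v2_18

theorem g__wQ_26_wN_1_rb8033094500v2_21 : GoodKC AS k_wQ_26_wN_1_rb8033094500v2_21 := p_wQ_26_wN_1_rb8033094500v2_21

theorem g__wQ_26_wN_1_rb8033094500v2_22 : GoodKC AS k_wQ_26_wN_1_rb8033094500v2_22 := p_wQ_26_wN_1_rb8033094500v2_22

theorem g__wQ_26_wN_1_rb8033094500v2_20 : GoodKC AS k_wQ_26_wN_1_rb8033094500v2_20 := p_wQ_26_wN_1_rb8033094500v2_20 g__wQ_26_wN_1_rb8033094500v2_21 g__wQ_26_wN_1_rb8033094500v2_22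

theorem g__wQ_26_wN_1_rb8033094500v2_19 : GoodKC AS k_wQ_26_wN_1_rb8033094500v2_19 := p_wQ_26_wN_1_rb8033094500v2_19 g__wQ_26_wN_1_rb8033094500v2_20

theorem g__wQ_26_wN_1_rb8033094500v2_23 : GoodKC AS k_wQ_26_wN_1_rb8033094500v2_23 := p_wQ_26_wN_1_rb8033094500v2_23

theorem g__wQ_26_wN_1_rb8033094500v2_17 : GoodKC AS k_wQ_26_wN_1_rb8033094500v2_17 := p_wQ_26_wN_1_rb8033094500v2_17 g__wQ_26_wN_1_rb8033094500v2_18 g__wQ_26_wN_1_rb8033094500v2_19 g__wQ_26_wN_1_rb8033094500v2_23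

theorem g__wQ_26_wN_1_rb8033094500v2_15 : GoodKC AS k_wQ_26_wN_1_rb8033094500v2_15 := p_wQ_26_wN_1_rb8033094500v2_15 g__wQ_26_wN_1_rb8033094500v2_16 g__wQ_26_wN_1_rb8033094500v2_17

theorem g__wQ_26_wN_1_rb8033094500v2_14 : GoodKC AS k_wQ_26_wN_1_rb8033094500v2_14 := p_wQ_26_wN_1_rb8033094500v2_14 g__wQ_26_wN_1_rb8033094500v2_15

theorem g__wQ_26_wN_1_rb8033094500v2_27 : GoodKC AS k_wQ_26_wN_1_rb8033094500v2_27 := p_wQ_26_wN_1_rb8033094500v2_27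

theorem g__wQ_26_wN_1_rb8033094500v2_26 : GoodKC AS k_wQ_26_wN_1_rb8033094500v2_26 := p_wQ_26_wN_1_rb8033094500v2_26 g__wQ_26_wN_1_rb8033094500v2_27

theorem g__wQ_26_wN_1_rb8033094500v2_29 : GoodKC AS k_wQ_26_wN_1_rb8033094500v2_29 := p_wQ_26_wN_1_rb8033094500v2_29

theorem g__wQ_26_wN_1_rb8033094500v2_30 : GoodKC AS k_wQ_26_wN_1_rb8033094500v2_30 := p_wQ_26_wN_1_rb8033094500v2_30

theorem g__wQ_26_wN_1_rb8033094500v2_28 : GoodKC AS k_wQ_26_wN_1_rb8033094500v2_28 := p_wQ_26_wN_1_rb8033094500v2_28 g__wQ_26_wN_1_rb8033094500v2_29 g__wQ_26_wN_1_rb8033094500v2_30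

theorem g__wQ_26_wN_1_rb8033094500v2_36 : GoodKC AS k_wQ_26_wN_1_rb8033094500v2_36 := p_wQ_26_wN_1_rb8033094500v2_36

theorem g__wQ_26_wN_1_rb8033094500v2_35 : GoodKC AS k_wQ_26_wN_1_rb8033094500v2_35 := p_wQ_26_wN_1_rb8033094500v2_35 g__wQ_26_wN_1_rb8033094500v2_36

theorem g__wQ_26_wN_1_rb8033094500v2_34 : GoodKC AS k_wQ_26_wN_1_rb8033094500v2_34 := p_wQ_26_wN_1_rb8033094500v2_34 g__wQ_26_wN_1_rb8033094500v2_35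

theorem g__wQ_26_wN_1_rb8033094500v2_33 : GoodKC AS k_wQ_26_wN_1_rb8033094500v2_33 := p_wQ_26_wN_1_rb8033094500v2_33 g__wQ_26_wN_1_rb8033094500v2_34

theorem g__wQ_26_wN_1_rb8033094500v2_32 : GoodKC AS k_wQ_26_wN_1_rb8033094500v2_32 := p_wQ_26_wN_1_rb8033094500v2_32 g__wQ_26_wN_1_rb8033094500v2_33

theorem g__wQ_26_wN_1_rb8033094500v2_31 : GoodKC AS k_wQ_26_wN_1_rb8033094500v2_31 := p_wQ_26_wN_1_rb8033094500v2_31 g__wQ_26_wN_1_rb8033094500v2_32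

theorem g__wQ_26_wN_1_rb8033094500v2_25 : GoodKC AS k_wQ_26_wN_1_rb8033094500v2_25 := p_wQ_26_wN_1_rb8033094500v2_25 g__wQ_26_wN_1_rb8033094500v2_26 g__wQ_26_wN_1_rb8033094500v2_28 g__wQ_26_wN_1_rb8033094500v2_31

theorem g__wQ_26_wN_1_rb8033094500v2_24 : GoodKC AS k_wQ_26_wN_1_rb8033094500v2_24 := p_wQ_26_wN_1_rb8033094500v2_24 g__wQ_26_wN_1_rb8033094500v2_25

theorem g__wQ_26_wN_1_rb8033094500v2_13 : GoodKC AS k_wQ_26_wN_1_rb8033094500v2_13 := p_wQ_26_wN_1_rb8033094500v2_13 g__wQ_26_wN_1_rb8033094500v2_14 g__wQ_26_wN_1_rb8033094500v2_24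

theorem g__wQ_26_wN_1_rb8033094500v2_12 : GoodKC AS k_wQ_26_wN_1_rb8033094500v2_12 := p_wQ_26_wN_1_rb8033094500v2_12 g__wQ_26_wN_1_rb8033094500v2_13

theorem g__wQ_26_wN_1_rb8033094500v2_11 : GoodKC AS k_wQ_26_wN_1_rb8033094500v2_11 := p_wQ_26_wN_1_rb8033094500v2_11 g__wQ_26_wN_1_rb8033094500v2_12

theorem g__wQ_26_wN_1_rb8033094500v2_7 : GoodKC AS k_wQ_26_wN_1_rb8033094500v2_7 := p_wQ_26_wN_1_rb8033094500v2_7 g__wQ_26_wN_1_rb8033094500v2_8 g__wQ_26_wN_1_rb8033094500v2_10 g__wQ_26_wN_1_rb8033094500v2_11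

theorem g__wQ_26_wN_1_rb8033094500v2_6 : GoodKC AS k_wQ_26_wN_1_rb8033094500v2_6 := p_wQ_26_wN_1_rb8033094500v2_6 g__wQ_26_wN_1_rb8033094500v2_7

theorem g_wQ_26_wN_1_rb8033094500x5 : GoodKC AS c_wQ_26_wN_1_rb8033094500x5 := p_wQ_26_wN_1_rb8033094500x2 g__wQ_26_wN_1_rb8033094500v2_0 g__wQ_26_wN_1_rb8033094500v2_1 g__wQ_26_wN_1_rb8033094500v2_4 g__wQ_26_wN_1_rb8033094500v2_5 g__wQ_26_wN_1_rb8033094500v2_6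

theorem g_wQ_26_wN_1_rb80330945162dx2 : GoodKC AS c_wQ_26_wN_1_rb80330945162dx2 := p_wQ_26_wN_1_rb80330945162dx1

theorem g_wQ_26_wN_1_rb803309451627x2 : GoodKC AS c_wQ_26_wN_1_rb803309451627x2 := p_wQ_26_wN_1_rb803309451627x1

theorem g_wQ_26_wN_1_rb803309451625x2 : GoodKC AS c_wQ_26_wN_1_rb803309451625x2 := p_wQ_26_wN_1_rb803309451625x1

theorem g_wQ_26_wN_1_rb803309451624x2 : GoodKC AS c_wQ_26_wN_1_rb803309451624x2 := p_wQ_26_wN_1_rb803309451624x1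

theorem g_wQ_26_wN_1_rb803309451623x2 : GoodKC AS c_wQ_26_wN_1_rb803309451623x2 := p_wQ_26_wN_1_rb803309451623x1

theorem g_wQ_26_wN_1_rb803309451621x2 : GoodKC AS c_wQ_26_wN_1_rb803309451621x2 := p_wQ_26_wN_1_rb803309451621x1

theorem g_wQ_26_wN_1_rb80330945161ex2 : GoodKC AS c_wQ_26_wN_1_rb80330945161ex2 := p_wQ_26_wN_1_rb80330945161ex1

theorem g_wQ_26_wN_1_rb80330945161bx2 : GoodKC AS c_wQ_26_wN_1_rb80330945161bx2 := p_wQ_26_wN_1_rb80330945161bx1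

theorem g_wQ_26_wN_1_rb80330945161ax2 : GoodKC AS c_wQ_26_wN_1_rb80330945161ax2 := p_wQ_26_wN_1_rb80330945161ax2

theorem g_wQ_26_wN_1_rb803309451619x2 : GoodKC AS c_wQ_26_wN_1_rb803309451619x2 := p_wQ_26_wN_1_rb803309451619x1

theorem g_wQ_26_wN_1_rb803309451618x2 : GoodKC AS c_wQ_26_wN_1_rb803309451618x2 := p_wQ_26_wN_1_rb803309451618x1

theorem g_wQ_26_wN_1_rb803309451617x2 : GoodKC AS c_wQ_26_wN_1_rb803309451617x2 := p_wQ_26_wN_1_rb803309451617x1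

theorem g_wQ_26_wN_1_rb803309451616x2 : GoodKC AS c_wQ_26_wN_1_rb803309451616x2 := p_wQ_26_wN_1_rb803309451616x1

theorem g_wQ_26_wN_1_rb803309451615x2 : GoodKC AS c_wQ_26_wN_1_rb803309451615x2 := p_wQ_26_wN_1_rb803309451615x1

theorem g_wQ_26_wN_1_rb803309451614x2 : GoodKC AS c_wQ_26_wN_1_rb803309451614x2 := p_wQ_26_wN_1_rb803309451614x1

theorem g_wQ_26_wN_1_rb803309451613x2 : GoodKC AS c_wQ_26_wN_1_rb803309451613x2 := p_wQ_26_wN_1_rb803309451613x1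

theorem g_wQ_26_wN_1_rb803309451611x2 : GoodKC AS c_wQ_26_wN_1_rb803309451611x2 := p_wQ_26_wN_1_rb803309451611x1

theorem g_wQ_26_wN_1_rb803309451610x2 : GoodKC AS c_wQ_26_wN_1_rb803309451610x2 := p_wQ_26_wN_1_rb803309451610x1

theorem g_wQ_26_wN_1_rb80330945160fx2 : GoodKC AS c_wQ_26_wN_1_rb80330945160fx2 := p_wQ_26_wN_1_rb80330945160fx1

theorem g_wQ_26_wN_1_rb80330945160ex2 : GoodKC AS c_wQ_26_wN_1_rb80330945160ex2 := p_wQ_26_wN_1_rb80330945160ex1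

theorem g_wQ_26_wN_1_rb80330945160dx2 : GoodKC AS c_wQ_26_wN_1_rb80330945160dx2 := p_wQ_26_wN_1_rb80330945160dx1

theorem g_wQ_26_wN_1_rb80330945160cx2 : GoodKC AS c_wQ_26_wN_1_rb80330945160cx2 := p_wQ_26_wN_1_rb80330945160cx1

theorem g_wQ_26_wN_1_rb80330945160bx2 : GoodKC AS c_wQ_26_wN_1_rb80330945160bx2 := p_wQ_26_wN_1_rb80330945160bx1

theorem g_wQ_26_wN_1_rb80330945160ax2 : GoodKC AS c_wQ_26_wN_1_rb80330945160ax2 := p_wQ_26_wN_1_rb80330945160ax2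

theorem g_wQ_26_wN_1_rb803309451609x2 : GoodKC AS c_wQ_26_wN_1_rb803309451609x2 := p_wQ_26_wN_1_rb803309451609x1

theorem g_wQ_26_wN_1_rb803309451608x2 : GoodKC AS c_wQ_26_wN_1_rb803309451608x2 := p_wQ_26_wN_1_rb803309451608x1

theorem g_wQ_26_wN_1_rb803309451606x2 : GoodKC AS c_wQ_26_wN_1_rb803309451606x2 := p_wQ_26_wN_1_rb803309451606x1

theorem g_wQ_26_wN_1_rb803309451604x2 : GoodKC AS c_wQ_26_wN_1_rb803309451604x2 := p_wQ_26_wN_1_rb803309451604x1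

theorem g_wQ_26_wN_1_rb803309451602x2 : GoodKC AS c_wQ_26_wN_1_rb803309451602x2 := p_wQ_26_wN_1_rb803309451602x1

theorem g_wQ_26_wN_1_rb803309451601x2 : GoodKC AS c_wQ_26_wN_1_rb803309451601x2 := p_wQ_26_wN_1_rb803309451601x1

theorem g_wQ_26_wN_1_rb803309451600x2 : GoodKC AS c_wQ_26_wN_1_rb803309451600x2 := p_wQ_26_wN_1_rb803309451600x2

theorem g_wQ_26_wN_1_rb803309451603x2 : GoodKC AS c_wQ_26_wN_1_rb803309451603x2 := p_wQ_26_wN_1_rb803309451603x1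

theorem g_wQ_26_wN_1_rb803309451605x2 : GoodKC AS c_wQ_26_wN_1_rb803309451605x2 := p_wQ_26_wN_1_rb803309451605x1

theorem g_wQ_26_wN_1_rb803309451607x2 : GoodKC AS c_wQ_26_wN_1_rb803309451607x2 := p_wQ_26_wN_1_rb803309451607x1

theorem g_wQ_26_wN_1_rb803309451612x2 : GoodKC AS c_wQ_26_wN_1_rb803309451612x2 := p_wQ_26_wN_1_rb803309451612x1

theorem g_wQ_26_wN_1_rb80330945161cx2 : GoodKC AS c_wQ_26_wN_1_rb80330945161cx2 := p_wQ_26_wN_1_rb80330945161cx1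

theorem g_wQ_26_wN_1_rb80330945161dx2 : GoodKC AS c_wQ_26_wN_1_rb80330945161dx2 := p_wQ_26_wN_1_rb80330945161dx2

theorem g_wQ_26_wN_1_rb80330945161fx2 : GoodKC AS c_wQ_26_wN_1_rb80330945161fx2 := p_wQ_26_wN_1_rb80330945161fx1

theorem g_wQ_26_wN_1_rb803309451620x2 : GoodKC AS c_wQ_26_wN_1_rb803309451620x2 := p_wQ_26_wN_1_rb803309451620x1

theorem g_wQ_26_wN_1_rb803309451622x2 : GoodKC AS c_wQ_26_wN_1_rb803309451622x2 := p_wQ_26_wN_1_rb803309451622x1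

theorem g_wQ_26_wN_1_rb803309451626x2 : GoodKC AS c_wQ_26_wN_1_rb803309451626x2 := p_wQ_26_wN_1_rb803309451626x1

theorem g_wQ_26_wN_1_rb803309451628x2 : GoodKC AS c_wQ_26_wN_1_rb803309451628x2 := p_wQ_26_wN_1_rb803309451628x1

theorem g__wQ_26_wN_1_rb8033094516x2_1 : GoodKC AS k_wQ_26_wN_1_rb8033094516x2_1 := p_wQ_26_wN_1_rb8033094516x2_1

theorem g__wQ_26_wN_1_rb8033094516x2_4 : GoodKC AS k_wQ_26_wN_1_rb8033094516x2_4 := p_wQ_26_wN_1_rb8033094516x2_4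

theorem g__wQ_26_wN_1_rb8033094516x2_6 : GoodKC AS k_wQ_26_wN_1_rb8033094516x2_6 := p_wQ_26_wN_1_rb8033094516x2_6

theorem g__wQ_26_wN_1_rb8033094516x2_5 : GoodKC AS k_wQ_26_wN_1_rb8033094516x2_5 := p_wQ_26_wN_1_rb8033094516x2_5 g__wQ_26_wN_1_rb8033094516x2_6

theorem g__wQ_26_wN_1_rb8033094516x2_3 : GoodKC AS k_wQ_26_wN_1_rb8033094516x2_3 := p_wQ_26_wN_1_rb8033094516x2_3 g__wQ_26_wN_1_rb8033094516x2_4 g__wQ_26_wN_1_rb8033094516x2_5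

theorem g__wQ_26_wN_1_rb8033094516x2_2 : GoodKC AS k_wQ_26_wN_1_rb8033094516x2_2 := p_wQ_26_wN_1_rb8033094516x2_2 g__wQ_26_wN_1_rb8033094516x2_3

theorem g__wQ_26_wN_1_rb8033094516x2_9 : GoodKC AS k_wQ_26_wN_1_rb8033094516x2_9 := p_wQ_26_wN_1_rb8033094516x2_9

theorem g__wQ_26_wN_1_rb8033094516x2_8 : GoodKC AS k_wQ_26_wN_1_rb8033094516x2_8 := p_wQ_26_wN_1_rb8033094516x2_8 g__wQ_26_wN_1_rb8033094516x2_9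

theorem g__wQ_26_wN_1_rb8033094516x2_7 : GoodKC AS k_wQ_26_wN_1_rb8033094516x2_7 := p_wQ_26_wN_1_rb8033094516x2_7 g__wQ_26_wN_1_rb8033094516x2_8

theorem g__wQ_26_wN_1_rb8033094516x2_19 : GoodKC AS k_wQ_26_wN_1_rb8033094516x2_19 := p_wQ_26_wN_1_rb8033094516x2_19

theorem g__wQ_26_wN_1_rb8033094516x2_18 : GoodKC AS k_wQ_26_wN_1_rb8033094516x2_18 := p_wQ_26_wN_1_rb8033094516x2_18 g__wQ_26_wN_1_rb8033094516x2_19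

theorem g__wQ_26_wN_1_rb8033094516x2_17 : GoodKC AS k_wQ_26_wN_1_rb8033094516x2_17 := p_wQ_26_wN_1_rb8033094516x2_17 g__wQ_26_wN_1_rb8033094516x2_18

theorem g__wQ_26_wN_1_rb8033094516x2_16 : GoodKC AS k_wQ_26_wN_1_rb8033094516x2_16 := p_wQ_26_wN_1_rb8033094516x2_16 g__wQ_26_wN_1_rb8033094516x2_17

theorem g__wQ_26_wN_1_rb8033094516x2_15 : GoodKC AS k_wQ_26_wN_1_rb8033094516x2_15 := p_wQ_26_wN_1_rb8033094516x2_15 g__wQ_26_wN_1_rb8033094516x2_16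

theorem g__wQ_26_wN_1_rb8033094516x2_14 : GoodKC AS k_wQ_26_wN_1_rb8033094516x2_14 := p_wQ_26_wN_1_rb8033094516x2_14 g__wQ_26_wN_1_rb8033094516x2_15

theorem g__wQ_26_wN_1_rb8033094516x2_13 : GoodKC AS k_wQ_26_wN_1_rb8033094516x2_13 := p_wQ_26_wN_1_rb8033094516x2_13 g__wQ_26_wN_1_rb8033094516x2_14

theorem g__wQ_26_wN_1_rb8033094516x2_12 : GoodKC AS k_wQ_26_wN_1_rb8033094516x2_12 := p_wQ_26_wN_1_rb8033094516x2_12 g__wQ_26_wN_1_rb8033094516x2_13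

theorem g__wQ_26_wN_1_rb8033094516x2_11 : GoodKC AS k_wQ_26_wN_1_rb8033094516x2_11 := p_wQ_26_wN_1_rb8033094516x2_11 g__wQ_26_wN_1_rb8033094516x2_12

theorem g__wQ_26_wN_1_rb8033094516x2_10 : GoodKC AS k_wQ_26_wN_1_rb8033094516x2_10 := p_wQ_26_wN_1_rb8033094516x2_10 g__wQ_26_wN_1_rb8033094516x2_11

theorem g__wQ_26_wN_1_rb8033094516x2_20 : GoodKC AS k_wQ_26_wN_1_rb8033094516x2_20 := p_wQ_26_wN_1_rb8033094516x2_20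

theorem g__wQ_26_wN_1_rb8033094516x2_0 : GoodKC AS k_wQ_26_wN_1_rb8033094516x2_0 := p_wQ_26_wN_1_rb8033094516x2_0 g__wQ_26_wN_1_rb8033094516x2_1 g__wQ_26_wN_1_rb8033094516x2_2 g__wQ_26_wN_1_rb8033094516x2_7 g__wQ_26_wN_1_rb8033094516x2_10 g__wQ_26_wN_1_rb8033094516x2_20

theorem g__wQ_26_wN_1_rb8033094516x2_24 : GoodKC AS k_wQ_26_wN_1_rb8033094516x2_24 := p_wQ_26_wN_1_rb8033094516x2_24

theorem g__wQ_26_wN_1_rb8033094516x2_27 : GoodKC AS k_wQ_26_wN_1_rb8033094516x2_27 := p_wQ_26_wN_1_rb8033094516x2_27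

theorem g__wQ_26_wN_1_rb8033094516x2_26 : GoodKC AS k_wQ_26_wN_1_rb8033094516x2_26 := p_wQ_26_wN_1_rb8033094516x2_26 g__wQ_26_wN_1_rb8033094516x2_27

theorem g__wQ_26_wN_1_rb8033094516x2_25 : GoodKC AS k_wQ_26_wN_1_rb8033094516x2_25 := p_wQ_26_wN_1_rb8033094516x2_25 g__wQ_26_wN_1_rb8033094516x2_26

theorem g__wQ_26_wN_1_rb8033094516x2_29 : GoodKC AS k_wQ_26_wN_1_rb8033094516x2_29 := p_wQ_26_wN_1_rb8033094516x2_29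

theorem g__wQ_26_wN_1_rb8033094516x2_31 : GoodKC AS k_wQ_26_wN_1_rb8033094516x2_31 := p_wQ_26_wN_1_rb8033094516x2_31

theorem g__wQ_26_wN_1_rb8033094516x2_30 : GoodKC AS k_wQ_26_wN_1_rb8033094516x2_30 := p_wQ_26_wN_1_rb8033094516x2_30 g__wQ_26_wN_1_rb8033094516x2_31

theorem g__wQ_26_wN_1_rb8033094516x2_34 : GoodKC AS k_wQ_26_wN_1_rb8033094516x2_34 := p_wQ_26_wN_1_rb8033094516x2_34

theorem g__wQ_26_wN_1_rb8033094516x2_37 : GoodKC AS k_wQ_26_wN_1_rb8033094516x2_37 := p_wQ_26_wN_1_rb8033094516x2_37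

theorem g__wQ_26_wN_1_rb8033094516x2_39 : GoodKC AS k_wQ_26_wN_1_rb8033094516x2_39 := p_wQ_26_wN_1_rb8033094516x2_39

theorem g__wQ_26_wN_1_rb8033094516x2_40 : GoodKC AS k_wQ_26_wN_1_rb8033094516x2_40 := p_wQ_26_wN_1_rb8033094516x2_40

theorem g__wQ_26_wN_1_rb8033094516x2_38 : GoodKC AS k_wQ_26_wN_1_rb8033094516x2_38 := p_wQ_26_wN_1_rb8033094516x2_38 g__wQ_26_wN_1_rb8033094516x2_39 g__wQ_26_wN_1_rb8033094516x2_40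

theorem g__wQ_26_wN_1_rb8033094516x2_36 : GoodKC AS k_wQ_26_wN_1_rb8033094516x2_36 := p_wQ_26_wN_1_rb8033094516x2_36 g__wQ_26_wN_1_rb8033094516x2_37 g__wQ_26_wN_1_rb8033094516x2_38

theorem g__wQ_26_wN_1_rb8033094516x2_35 : GoodKC AS k_wQ_26_wN_1_rb8033094516x2_35 := p_wQ_26_wN_1_rb8033094516x2_35 g__wQ_26_wN_1_rb8033094516x2_36

theorem g__wQ_26_wN_1_rb8033094516x2_33 : GoodKC AS k_wQ_26_wN_1_rb8033094516x2_33 := p_wQ_26_wN_1_rb8033094516x2_33 g__wQ_26_wN_1_rb8033094516x2_34 g__wQ_26_wN_1_rb8033094516x2_35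

theorem g__wQ_26_wN_1_rb8033094516x2_32 : GoodKC AS k_wQ_26_wN_1_rb8033094516x2_32 := p_wQ_26_wN_1_rb8033094516x2_32 g__wQ_26_wN_1_rb8033094516x2_33

theorem g__wQ_26_wN_1_rb8033094516x2_28 : GoodKC AS k_wQ_26_wN_1_rb8033094516x2_28 := p_wQ_26_wN_1_rb8033094516x2_28 g__wQ_26_wN_1_rb8033094516x2_29 g__wQ_26_wN_1_rb8033094516x2_30 g__wQ_26_wN_1_rb8033094516x2_32

theorem g__wQ_26_wN_1_rb8033094516x2_23 : GoodKC AS k_wQ_26_wN_1_rb8033094516x2_23 := p_wQ_26_wN_1_rb8033094516x2_23 g__wQ_26_wN_1_rb8033094516x2_24 g__wQ_26_wN_1_rb8033094516x2_25 g__wQ_26_wN_1_rb8033094516x2_28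

theorem g__wQ_26_wN_1_rb8033094516x2_22 : GoodKC AS k_wQ_26_wN_1_rb8033094516x2_22 := p_wQ_26_wN_1_rb8033094516x2_22 g__wQ_26_wN_1_rb8033094516x2_23

theorem g__wQ_26_wN_1_rb8033094516x2_21 : GoodKC AS k_wQ_26_wN_1_rb8033094516x2_21 := p_wQ_26_wN_1_rb8033094516x2_21 g__wQ_26_wN_1_rb8033094516x2_22

theorem g_wQ_26_wN_1_rb803309451629x2 : GoodKC AS c_wQ_26_wN_1_rb803309451629x2 := p_wQ_26_wN_1_rb803309451629x2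

theorem g_wQ_26_wN_1_rb80330945162ax2 : GoodKC AS c_wQ_26_wN_1_rb80330945162ax2 := p_wQ_26_wN_1_rb80330945162ax2

theorem g_wQ_26_wN_1_rb80330945162bx2 : GoodKC AS c_wQ_26_wN_1_rb80330945162bx2 := p_wQ_26_wN_1_rb80330945162bx2

theorem g_wQ_26_wN_1_rb80330945162cx2 : GoodKC AS c_wQ_26_wN_1_rb80330945162cx2 := p_wQ_26_wN_1_rb80330945162cx2

theorem g_wQ_26_wN_1_rb80330945162ex2 : GoodKC AS c_wQ_26_wN_1_rb80330945162ex2 := p_wQ_26_wN_1_rb80330945162ex1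

theorem g_wQ_26_wN_1_rb8033094516x5 : GoodKC AS c_wQ_26_wN_1_rb8033094516x5 := p_wQ_26_wN_1_rb8033094516x2 g_wQ_26_wN_1_rb80330945162dx2 g_wQ_26_wN_1_rb803309451627x2 g_wQ_26_wN_1_rb803309451625x2 g_wQ_26_wN_1_rb803309451624x2 g_wQ_26_wN_1_rb803309451623x2 g_wQ_26_wN_1_rb803309451621x2 g_wQ_26_wN_1_rb80330945161ex2 g_wQ_26_wN_1_rb80330945161bx2 g_wQ_26_wN_1_rb80330945161ax2 g_wQ_26_wN_1_rb803309451619x2 g_wQ_26_wN_1_rb803309451618x2 g_wQ_26_wN_1_rb803309451617x2 g_wQ_26_wN_1_rb803309451616x2 g_wQ_26_wN_1_rb803309451615x2 g_wQ_26_wN_1_rb803309451614x2 g_wQ_26_wN_1_rb803309451613x2 g_wQ_26_wN_1_rb803309451611x2 g_wQ_26_wN_1_rb803309451610x2 g_wQ_26_wN_1_rb80330945160fx2 g_wQ_26_wN_1_rb80330945160ex2 g_wQ_26_wN_1_rb80330945160dx2 g_wQ_26_wN_1_rb80330945160cx2 g_wQ_26_wN_1_rb80330945160bx2 g_wQ_26_wN_1_rb80330945160ax2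 g_wQ_26_wN_1_rb803309451609x2 g_wQ_26_wN_1_rb803309451608x2 g_wQ_26_wN_1_rb803309451606x2 g_wQ_26_wN_1_rb803309451604x2 g_wQ_26_wN_1_rb803309451602x2 g_wQ_26_wN_1_rb803309451601x2 g_wQ_26_wN_1_rb803309451600x2 g_wQ_26_wN_1_rb803309451603x2 g_wQ_26_wN_1_rb803309451605x2 g_wQ_26_wN_1_rb803309451607x2 g_wQ_26_wN_1_rb803309451612x2 g_wQ_26_wN_1_rb80330945161cx2 g_wQ_26_wN_1_rb80330945161dx2 g_wQ_26_wN_1_rb80330945161fx2 g_wQ_26_wN_1_rb803309451620x2 g_wQ_26_wN_1_rb803309451622x2 g_wQ_26_wN_1_rb803309451626x2 g_wQ_26_wN_1_rb803309451628x2 g__wQ_26_wN_1_rb8033094516x2_0 g__wQ_26_wN_1_rb8033094516x2_21 g_wQ_26_wN_1_rb803309451629x2 g_wQ_26_wN_1_rb80330945162ax2 g_wQ_26_wN_1_rb80330945162bx2 g_wQ_26_wN_1_rb80330945162cx2 g_wQ_26_wN_1_rb80330945162ex2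

theorem g_wQ_26_wN_1_rb8033094519x5 : GoodKC AS c_wQ_26_wN_1_rb8033094519x5 := p_wQ_26_wN_1_rb8033094519x2

theorem g_wQ_26_wN_1_rb803309451dx5 : GoodKC AS c_wQ_26_wN_1_rb803309451dx5 := p_wQ_26_wN_1_rb803309451dx2

theorem g_wQ_26_wN_1_rb803309451e0ax1 : GoodKC AS c_wQ_26_wN_1_rb803309451e0ax1 := p_wQ_26_wN_1_rb803309451e0a

theorem g_wQ_26_wN_1_rb803309451e07x1 : GoodKC AS c_wQ_26_wN_1_rb803309451e07x1 := p_wQ_26_wN_1_rb803309451e07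

theorem g__wQ_26_wN_1_rb803309451e06_0 : GoodKC AS k_wQ_26_wN_1_rb803309451e06_0 := p_wQ_26_wN_1_rb803309451e06_0

theorem g_wQ_26_wN_1_rb803309451e06x1 : GoodKC AS c_wQ_26_wN_1_rb803309451e06x1 := p_wQ_26_wN_1_rb803309451e06 g__wQ_26_wN_1_rb803309451e06_0

theorem g__wQ_26_wN_1_rb803309451e05_7 : GoodKC AS k_wQ_26_wN_1_rb803309451e05_7 := p_wQ_26_wN_1_rb803309451e05_7

theorem g__wQ_26_wN_1_rb803309451e05_6 : GoodKC AS k_wQ_26_wN_1_rb803309451e05_6 := p_wQ_26_wN_1_rb803309451e05_6 g__wQ_26_wN_1_rb803309451e05_7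

theorem g__wQ_26_wN_1_rb803309451e05_5 : GoodKC AS k_wQ_26_wN_1_rb803309451e05_5 := p_wQ_26_wN_1_rb803309451e05_5 g__wQ_26_wN_1_rb803309451e05_6

theorem g__wQ_26_wN_1_rb803309451e05_4 : GoodKC AS k_wQ_26_wN_1_rb803309451e05_4 := p_wQ_26_wN_1_rb803309451e05_4 g__wQ_26_wN_1_rb803309451e05_5

theorem g__wQ_26_wN_1_rb803309451e05_3 : GoodKC AS k_wQ_26_wN_1_rb803309451e05_3 := p_wQ_26_wN_1_rb803309451e05_3 g__wQ_26_wN_1_rb803309451e05_4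

theorem g__wQ_26_wN_1_rb803309451e05_9 : GoodKC AS k_wQ_26_wN_1_rb803309451e05_9 := p_wQ_26_wN_1_rb803309451e05_9

theorem g__wQ_26_wN_1_rb803309451e05_8 : GoodKC AS k_wQ_26_wN_1_rb803309451e05_8 := p_wQ_26_wN_1_rb803309451e05_8 g__wQ_26_wN_1_rb803309451e05_9

theorem g__wQ_26_wN_1_rb803309451e05_11 : GoodKC AS k_wQ_26_wN_1_rb803309451e05_11 := p_wQ_26_wN_1_rb803309451e05_11

theorem g__wQ_26_wN_1_rb803309451e05_10 : GoodKC AS k_wQ_26_wN_1_rb803309451e05_10 := p_wQ_26_wN_1_rb803309451e05_10 g__wQ_26_wN_1_rb803309451e05_11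

theorem g__wQ_26_wN_1_rb803309451e05_15 : GoodKC AS k_wQ_26_wN_1_rb803309451e05_15 := p_wQ_26_wN_1_rb803309451e05_15

theorem g__wQ_26_wN_1_rb803309451e05_14 : GoodKC AS k_wQ_26_wN_1_rb803309451e05_14 := p_wQ_26_wN_1_rb803309451e05_14 g__wQ_26_wN_1_rb803309451e05_15

theorem g__wQ_26_wN_1_rb803309451e05_13 : GoodKC AS k_wQ_26_wN_1_rb803309451e05_13 := p_wQ_26_wN_1_rb803309451e05_13 g__wQ_26_wN_1_rb803309451e05_14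

theorem g__wQ_26_wN_1_rb803309451e05_12 : GoodKC AS k_wQ_26_wN_1_rb803309451e05_12 := p_wQ_26_wN_1_rb803309451e05_12 g__wQ_26_wN_1_rb803309451e05_13

theorem g__wQ_26_wN_1_rb803309451e05_2 : GoodKC AS k_wQ_26_wN_1_rb803309451e05_2 := p_wQ_26_wN_1_rb803309451e05_2 g__wQ_26_wN_1_rb803309451e05_3 g__wQ_26_wN_1_rb803309451e05_8 g__wQ_26_wN_1_rb803309451e05_10 g__wQ_26_wN_1_rb803309451e05_12

theorem g__wQ_26_wN_1_rb803309451e05_1 : GoodKC AS k_wQ_26_wN_1_rb803309451e05_1 := p_wQ_26_wN_1_rb803309451e05_1 g__wQ_26_wN_1_rb803309451e05_2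

theorem g__wQ_26_wN_1_rb803309451e05_16 : GoodKC AS k_wQ_26_wN_1_rb803309451e05_16 := p_wQ_26_wN_1_rb803309451e05_16

theorem g__wQ_26_wN_1_rb803309451e05_0 : GoodKC AS k_wQ_26_wN_1_rb803309451e05_0 := p_wQ_26_wN_1_rb803309451e05_0 g__wQ_26_wN_1_rb803309451e05_1 g__wQ_26_wN_1_rb803309451e05_16

theorem g_wQ_26_wN_1_rb803309451e05x1 : GoodKC AS c_wQ_26_wN_1_rb803309451e05x1 := p_wQ_26_wN_1_rb803309451e05 g__wQ_26_wN_1_rb803309451e05_0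

theorem g_wQ_26_wN_1_rb803309451e04x1 : GoodKC AS c_wQ_26_wN_1_rb803309451e04x1 := p_wQ_26_wN_1_rb803309451e04

theorem g_wQ_26_wN_1_rb803309451e03x1 : GoodKC AS c_wQ_26_wN_1_rb803309451e03x1 := p_wQ_26_wN_1_rb803309451e03

theorem g__wQ_26_wN_1_rb803309451ex1_1 : GoodKC AS k_wQ_26_wN_1_rb803309451ex1_1 := p_wQ_26_wN_1_rb803309451ex1_1

theorem g__wQ_26_wN_1_rb803309451ex1_3 : GoodKC AS k_wQ_26_wN_1_rb803309451ex1_3 := p_wQ_26_wN_1_rb803309451ex1_3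

theorem g__wQ_26_wN_1_rb803309451ex1_5 : GoodKC AS k_wQ_26_wN_1_rb803309451ex1_5 := p_wQ_26_wN_1_rb803309451ex1_5

theorem g__wQ_26_wN_1_rb803309451ex1_4 : GoodKC AS k_wQ_26_wN_1_rb803309451ex1_4 := p_wQ_26_wN_1_rb803309451ex1_4 g__wQ_26_wN_1_rb803309451ex1_5

theorem g__wQ_26_wN_1_rb803309451ex1_9 : GoodKC AS k_wQ_26_wN_1_rb803309451ex1_9 := p_wQ_26_wN_1_rb803309451ex1_9

theorem g__wQ_26_wN_1_rb803309451ex1_8 : GoodKC AS k_wQ_26_wN_1_rb803309451ex1_8 := p_wQ_26_wN_1_rb803309451ex1_8 g__wQ_26_wN_1_rb803309451ex1_9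

theorem g__wQ_26_wN_1_rb803309451ex1_7 : GoodKC AS k_wQ_26_wN_1_rb803309451ex1_7 := p_wQ_26_wN_1_rb803309451ex1_7 g__wQ_26_wN_1_rb803309451ex1_8

theorem g__wQ_26_wN_1_rb803309451ex1_6 : GoodKC AS k_wQ_26_wN_1_rb803309451ex1_6 := p_wQ_26_wN_1_rb803309451ex1_6 g__wQ_26_wN_1_rb803309451ex1_7

theorem g__wQ_26_wN_1_rb803309451ex1_2 : GoodKC AS k_wQ_26_wN_1_rb803309451ex1_2 := p_wQ_26_wN_1_rb803309451ex1_2 g__wQ_26_wN_1_rb803309451ex1_3 g__wQ_26_wN_1_rb803309451ex1_4 g__wQ_26_wN_1_rb803309451ex1_6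

theorem g__wQ_26_wN_1_rb803309451ex1_12 : GoodKC AS k_wQ_26_wN_1_rb803309451ex1_12 := p_wQ_26_wN_1_rb803309451ex1_12

theorem g__wQ_26_wN_1_rb803309451ex1_11 : GoodKC AS k_wQ_26_wN_1_rb803309451ex1_11 := p_wQ_26_wN_1_rb803309451ex1_11 g__wQ_26_wN_1_rb803309451ex1_12

theorem g__wQ_26_wN_1_rb803309451ex1_15 : GoodKC AS k_wQ_26_wN_1_rb803309451ex1_15 := p_wQ_26_wN_1_rb803309451ex1_15

theorem g__wQ_26_wN_1_rb803309451ex1_14 : GoodKC AS k_wQ_26_wN_1_rb803309451ex1_14 := p_wQ_26_wN_1_rb803309451ex1_14 g__wQ_26_wN_1_rb803309451ex1_15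

theorem g__wQ_26_wN_1_rb803309451ex1_13 : GoodKC AS k_wQ_26_wN_1_rb803309451ex1_13 := p_wQ_26_wN_1_rb803309451ex1_13 g__wQ_26_wN_1_rb803309451ex1_14

theorem g__wQ_26_wN_1_rb803309451ex1_10 : GoodKC AS k_wQ_26_wN_1_rb803309451ex1_10 := p_wQ_26_wN_1_rb803309451ex1_10 g__wQ_26_wN_1_rb803309451ex1_11 g__wQ_26_wN_1_rb803309451ex1_13

theorem g__wQ_26_wN_1_rb803309451ex1_0 : GoodKC AS k_wQ_26_wN_1_rb803309451ex1_0 := p_wQ_26_wN_1_rb803309451ex1_0 g__wQ_26_wN_1_rb803309451ex1_1 g__wQ_26_wN_1_rb803309451ex1_2 g__wQ_26_wN_1_rb803309451ex1_10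

theorem g__wQ_26_wN_1_rb803309451e00_1 : GoodKC AS k_wQ_26_wN_1_rb803309451e00_1 := p_wQ_26_wN_1_rb803309451e00_1

theorem g__wQ_26_wN_1_rb803309451e00_0 : GoodKC AS k_wQ_26_wN_1_rb803309451e00_0 := p_wQ_26_wN_1_rb803309451e00_0 g__wQ_26_wN_1_rb803309451e00_1

theorem g__wQ_26_wN_1_rb803309451e00_2 : GoodKC AS k_wQ_26_wN_1_rb803309451e00_2 := p_wQ_26_wN_1_rb803309451e00_2

theorem g_wQ_26_wN_1_rb803309451e00x1 : GoodKC AS c_wQ_26_wN_1_rb803309451e00x1 := p_wQ_26_wN_1_rb803309451e00 g__wQ_26_wN_1_rb803309451e00_0 g__wQ_26_wN_1_rb803309451e00_2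

theorem g_wQ_26_wN_1_rb803309451e01x1 : GoodKC AS c_wQ_26_wN_1_rb803309451e01x1 := p_wQ_26_wN_1_rb803309451e01

theorem g_wQ_26_wN_1_rb803309451e0242 : GoodKC AS c_wQ_26_wN_1_rb803309451e0242 := p_wQ_26_wN_1_rb803309451e0242

theorem g_wQ_26_wN_1_rb803309451e0241 : GoodKC AS c_wQ_26_wN_1_rb803309451e0241 := p_wQ_26_wN_1_rb803309451e0241

theorem g_wQ_26_wN_1_rb803309451e0240 : GoodKC AS c_wQ_26_wN_1_rb803309451e0240 := p_wQ_26_wN_1_rb803309451e0240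

theorem g__wQ_26_wN_1_rb803309451e023e_1 : GoodKC AS k_wQ_26_wN_1_rb803309451e023e_1 := p_wQ_26_wN_1_rb803309451e023e_1

theorem g__wQ_26_wN_1_rb803309451e023e_0 : GoodKC AS k_wQ_26_wN_1_rb803309451e023e_0 := p_wQ_26_wN_1_rb803309451e023e_0 g__wQ_26_wN_1_rb803309451e023e_1

theorem g__wQ_26_wN_1_rb803309451e023e_3 : GoodKC AS k_wQ_26_wN_1_rb803309451e023e_3 := p_wQ_26_wN_1_rb803309451e023e_3

theorem g__wQ_26_wN_1_rb803309451e023e_2 : GoodKC AS k_wQ_26_wN_1_rb803309451e023e_2 := p_wQ_26_wN_1_rb803309451e023e_2 g__wQ_26_wN_1_rb803309451e023e_3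

theorem g_wQ_26_wN_1_rb803309451e023e : GoodKC AS c_wQ_26_wN_1_rb803309451e023e := p_wQ_26_wN_1_rb803309451e023e g__wQ_26_wN_1_rb803309451e023e_0 g__wQ_26_wN_1_rb803309451e023e_2

theorem g__wQ_26_wN_1_rb803309451e023d_d51_d0e_6 : GoodKC AS k_wQ_26_wN_1_rb803309451e023d_d51_d0e_6 := p_wQ_26_wN_1_rb803309451e023d_d51_d0e_6

theorem g__wQ_26_wN_1_rb803309451e023d_d51_d0e_5 : GoodKC AS k_wQ_26_wN_1_rb803309451e023d_d51_d0e_5 := p_wQ_26_wN_1_rb803309451e023d_d51_d0e_5 g__wQ_26_wN_1_rb803309451e023d_d51_d0e_6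

theorem g__wQ_26_wN_1_rb803309451e023d_d51_d0e_4 : GoodKC AS k_wQ_26_wN_1_rb803309451e023d_d51_d0e_4 := p_wQ_26_wN_1_rb803309451e023d_d51_d0e_4 g__wQ_26_wN_1_rb803309451e023d_d51_d0e_5

theorem g__wQ_26_wN_1_rb803309451e023d_d51_d0e_3 : GoodKC AS k_wQ_26_wN_1_rb803309451e023d_d51_d0e_3 := p_wQ_26_wN_1_rb803309451e023d_d51_d0e_3 g__wQ_26_wN_1_rb803309451e023d_d51_d0e_4

theorem g__wQ_26_wN_1_rb803309451e023d_d51_d0e_2 : GoodKC AS k_wQ_26_wN_1_rb803309451e023d_d51_d0e_2 := p_wQ_26_wN_1_rb803309451e023d_d51_d0e_2 g__wQ_26_wN_1_rb803309451e023d_d51_d0e_3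

theorem g__wQ_26_wN_1_rb803309451e023d_d51_d0e_1 : GoodKC AS k_wQ_26_wN_1_rb803309451e023d_d51_d0e_1 := p_wQ_26_wN_1_rb803309451e023d_d51_d0e_1 g__wQ_26_wN_1_rb803309451e023d_d51_d0e_2

theorem g__wQ_26_wN_1_rb803309451e023d_d51_d0e_8 : GoodKC AS k_wQ_26_wN_1_rb803309451e023d_d51_d0e_8 := p_wQ_26_wN_1_rb803309451e023d_d51_d0e_8

theorem g__wQ_26_wN_1_rb803309451e023d_d51_d0e_7 : GoodKC AS k_wQ_26_wN_1_rb803309451e023d_d51_d0e_7 := p_wQ_26_wN_1_rb803309451e023d_d51_d0e_7 g__wQ_26_wN_1_rb803309451e023d_d51_d0e_8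

theorem g__wQ_26_wN_1_rb803309451e023d_d51_d0e_9 : GoodKC AS k_wQ_26_wN_1_rb803309451e023d_d51_d0e_9 := p_wQ_26_wN_1_rb803309451e023d_d51_d0e_9

theorem g__wQ_26_wN_1_rb803309451e023d_d51_d0e_10 : GoodKC AS k_wQ_26_wN_1_rb803309451e023d_d51_d0e_10 := p_wQ_26_wN_1_rb803309451e023d_d51_d0e_10

theorem g__wQ_26_wN_1_rb803309451e023d_d51_d0e_0 : GoodKC AS k_wQ_26_wN_1_rb803309451e023d_d51_d0e_0 := p_wQ_26_wN_1_rb803309451e023d_d51_d0e_0 g__wQ_26_wN_1_rb803309451e023d_d51_d0e_1 g__wQ_26_wN_1_rb803309451e023d_d51_d0e_7 g__wQ_26_wN_1_rb803309451e023d_d51_d0e_9 g__wQ_26_wN_1_rb803309451e023d_d51_d0e_10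

theorem g_wQ_26_wN_1_rb803309451e023d_d51_d0e : GoodKC AS c_wQ_26_wN_1_rb803309451e023d_d51_d0e := p_wQ_26_wN_1_rb803309451e023d_d51_d0e g__wQ_26_wN_1_rb803309451e023d_d51_d0e_0

theorem g_wQ_26_wN_1_rb803309451e023d_d51_d0d : GoodKC AS c_wQ_26_wN_1_rb803309451e023d_d51_d0d := p_wQ_26_wN_1_rb803309451e023d_d51_d0d

theorem g_wQ_26_wN_1_rb803309451e023d_d51_d0b : GoodKC AS c_wQ_26_wN_1_rb803309451e023d_d51_d0b := p_wQ_26_wN_1_rb803309451e023d_d51_d0b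

theorem g__wQ_26_wN_1_rb803309451e023d_d51_d08_2 : GoodKC AS k_wQ_26_wN_1_rb803309451e023d_d51_d08_2 := p_wQ_26_wN_1_rb803309451e023d_d51_d08_2

theorem g__wQ_26_wN_1_rb803309451e023d_d51_d08_1 : GoodKC AS k_wQ_26_wN_1_rb803309451e023d_d51_d08_1 := p_wQ_26_wN_1_rb803309451e023d_d51_d08_1 g__wQ_26_wN_1_rb803309451e023d_d51_d08_2

theorem g__wQ_26_wN_1_rb803309451e023d_d51_d08_0 : GoodKC AS k_wQ_26_wN_1_rb803309451e023d_d51_d08_0 := p_wQ_26_wN_1_rb803309451e023d_d51_d08_0 g__wQ_26_wN_1_rb803309451e023d_d51_d08_1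

theorem g_wQ_26_wN_1_rb803309451e023d_d51_d08 : GoodKC AS c_wQ_26_wN_1_rb803309451e023d_d51_d08 := p_wQ_26_wN_1_rb803309451e023d_d51_d08 g__wQ_26_wN_1_rb803309451e023d_d51_d08_0

theorem g_wQ_26_wN_1_rb803309451e023d_d51_d07 : GoodKC AS c_wQ_26_wN_1_rb803309451e023d_d51_d07 := p_wQ_26_wN_1_rb803309451e023d_d51_d07

theorem g_wQ_26_wN_1_rb803309451e023d_d51_d01 : GoodKC AS c_wQ_26_wN_1_rb803309451e023d_d51_d01 := p_wQ_26_wN_1_rb803309451e023d_d51_d01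

theorem g__wQ_26_wN_1_rb803309451e023d_d51_d00_0 : GoodKC AS k_wQ_26_wN_1_rb803309451e023d_d51_d00_0 := p_wQ_26_wN_1_rb803309451e023d_d51_d00_0

theorem g_wQ_26_wN_1_rb803309451e023d_d51_d00 : GoodKC AS c_wQ_26_wN_1_rb803309451e023d_d51_d00 := p_wQ_26_wN_1_rb803309451e023d_d51_d00 g__wQ_26_wN_1_rb803309451e023d_d51_d00_0

theorem g_wQ_26_wN_1_rb803309451e023d_d51_d02 : GoodKC AS c_wQ_26_wN_1_rb803309451e023d_d51_d02 := p_wQ_26_wN_1_rb803309451e023d_d51_d02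

theorem g_wQ_26_wN_1_rb803309451e023d_d51_d03 : GoodKC AS c_wQ_26_wN_1_rb803309451e023d_d51_d03 := p_wQ_26_wN_1_rb803309451e023d_d51_d03

theorem g__wQ_26_wN_1_rb803309451e023d_1 : GoodKC AS k_wQ_26_wN_1_rb803309451e023d_1 := p_wQ_26_wN_1_rb803309451e023d_1

theorem g__wQ_26_wN_1_rb803309451e023d_0 : GoodKC AS k_wQ_26_wN_1_rb803309451e023d_0 := p_wQ_26_wN_1_rb803309451e023d_0 g__wQ_26_wN_1_rb803309451e023d_1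

theorem g_wQ_26_wN_1_rb803309451e023d_d51_d04 : GoodKC AS c_wQ_26_wN_1_rb803309451e023d_d51_d04 := p_wQ_26_wN_1_rb803309451e023d_d51_d04

theorem g_wQ_26_wN_1_rb803309451e023d_d51_d05 : GoodKC AS c_wQ_26_wN_1_rb803309451e023d_d51_d05 := p_wQ_26_wN_1_rb803309451e023d_d51_d05

theorem g_wQ_26_wN_1_rb803309451e023d_d51_d06 : GoodKC AS c_wQ_26_wN_1_rb803309451e023d_d51_d06 := p_wQ_26_wN_1_rb803309451e023d_d51_d06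

theorem g__wQ_26_wN_1_rb803309451e023d_d51_d09_3 : GoodKC AS k_wQ_26_wN_1_rb803309451e023d_d51_d09_3 := p_wQ_26_wN_1_rb803309451e023d_d51_d09_3

theorem g__wQ_26_wN_1_rb803309451e023d_d51_d09_2 : GoodKC AS k_wQ_26_wN_1_rb803309451e023d_d51_d09_2 := p_wQ_26_wN_1_rb803309451e023d_d51_d09_2 g__wQ_26_wN_1_rb803309451e023d_d51_d09_3

theorem g__wQ_26_wN_1_rb803309451e023d_d51_d09_1 : GoodKC AS k_wQ_26_wN_1_rb803309451e023d_d51_d09_1 := p_wQ_26_wN_1_rb803309451e023d_d51_d09_1 g__wQ_26_wN_1_rb803309451e023d_d51_d09_2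

theorem g__wQ_26_wN_1_rb803309451e023d_d51_d09_0 : GoodKC AS k_wQ_26_wN_1_rb803309451e023d_d51_d09_0 := p_wQ_26_wN_1_rb803309451e023d_d51_d09_0 g__wQ_26_wN_1_rb803309451e023d_d51_d09_1

theorem g_wQ_26_wN_1_rb803309451e023d_d51_d09 : GoodKC AS c_wQ_26_wN_1_rb803309451e023d_d51_d09 := p_wQ_26_wN_1_rb803309451e023d_d51_d09 g__wQ_26_wN_1_rb803309451e023d_d51_d09_0

theorem g_wQ_26_wN_1_rb803309451e023d_d51_d0a : GoodKC AS c_wQ_26_wN_1_rb803309451e023d_d51_d0a := p_wQ_26_wN_1_rb803309451e023d_d51_d0a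

theorem g_wQ_26_wN_1_rb803309451e023d_d51_d0c : GoodKC AS c_wQ_26_wN_1_rb803309451e023d_d51_d0c := p_wQ_26_wN_1_rb803309451e023d_d51_d0c

theorem g_wQ_26_wN_1_rb803309451e023d : GoodKC AS c_wQ_26_wN_1_rb803309451e023d := p_wQ_26_wN_1_rb803309451e023d g_wQ_26_wN_1_rb803309451e023d_d51_d0e g_wQ_26_wN_1_rb803309451e023d_d51_d0d g_wQ_26_wN_1_rb803309451e023d_d51_d0b g_wQ_26_wN_1_rb803309451e023d_d51_d08 g_wQ_26_wN_1_rb803309451e023d_d51_d07 g_wQ_26_wN_1_rb803309451e023d_d51_d01 g_wQ_26_wN_1_rb803309451e023d_d51_d00 g_wQ_26_wN_1_rb803309451e023d_d51_d02 g_wQ_26_wN_1_rb803309451e023d_d51_d03 g__wQ_26_wN_1_rb803309451e023d_0 g_wQ_26_wN_1_rb803309451e023d_d51_d04 g_wQ_26_wN_1_rb803309451e023d_d51_d05 g_wQ_26_wN_1_rb803309451e023d_d51_d06 g_wQ_26_wN_1_rb803309451e023d_d51_d09 g_wQ_26_wN_1_rb803309451e023d_d51_d0a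 g_wQ_26_wN_1_rb803309451e023d_d51_d0c

theorem g__wQ_26_wN_1_rb803309451e023b_0 : GoodKC AS k_wQ_26_wN_1_rb803309451e023b_0 := p_wQ_26_wN_1_rb803309451e023b_0

theorem g__wQ_26_wN_1_rb803309451e023b_2 : GoodKC AS k_wQ_26_wN_1_rb803309451e023b_2 := p_wQ_26_wN_1_rb803309451e023b_2

theorem g__wQ_26_wN_1_rb803309451e023b_1 : GoodKC AS k_wQ_26_wN_1_rb803309451e023b_1 := p_wQ_26_wN_1_rb803309451e023b_1 g__wQ_26_wN_1_rb803309451e023b_2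

theorem g_wQ_26_wN_1_rb803309451e023b : GoodKC AS c_wQ_26_wN_1_rb803309451e023b := p_wQ_26_wN_1_rb803309451e023b g__wQ_26_wN_1_rb803309451e023b_0 g__wQ_26_wN_1_rb803309451e023b_1

theorem g__wQ_26_wN_1_rb803309451e0239_2 : GoodKC AS k_wQ_26_wN_1_rb803309451e0239_2 := p_wQ_26_wN_1_rb803309451e0239_2

theorem g__wQ_26_wN_1_rb803309451e0239_1 : GoodKC AS k_wQ_26_wN_1_rb803309451e0239_1 := p_wQ_26_wN_1_rb803309451e0239_1 g__wQ_26_wN_1_rb803309451e0239_2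

theorem g__wQ_26_wN_1_rb803309451e0239_3 : GoodKC AS k_wQ_26_wN_1_rb803309451e0239_3 := p_wQ_26_wN_1_rb803309451e0239_3

theorem g__wQ_26_wN_1_rb803309451e0239_9 : GoodKC AS k_wQ_26_wN_1_rb803309451e0239_9 := p_wQ_26_wN_1_rb803309451e0239_9

theorem g__wQ_26_wN_1_rb803309451e0239_8 : GoodKC AS k_wQ_26_wN_1_rb803309451e0239_8 := p_wQ_26_wN_1_rb803309451e0239_8 g__wQ_26_wN_1_rb803309451e0239_9

theorem g__wQ_26_wN_1_rb803309451e0239_7 : GoodKC AS k_wQ_26_wN_1_rb803309451e0239_7 := p_wQ_26_wN_1_rb803309451e0239_7 g__wQ_26_wN_1_rb803309451e0239_8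

theorem g__wQ_26_wN_1_rb803309451e0239_6 : GoodKC AS k_wQ_26_wN_1_rb803309451e0239_6 := p_wQ_26_wN_1_rb803309451e0239_6 g__wQ_26_wN_1_rb803309451e0239_7

theorem g__wQ_26_wN_1_rb803309451e0239_5 : GoodKC AS k_wQ_26_wN_1_rb803309451e0239_5 := p_wQ_26_wN_1_rb803309451e0239_5 g__wQ_26_wN_1_rb803309451e0239_6

theorem g__wQ_26_wN_1_rb803309451e0239_4 : GoodKC AS k_wQ_26_wN_1_rb803309451e0239_4 := p_wQ_26_wN_1_rb803309451e0239_4 g__wQ_26_wN_1_rb803309451e0239_5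

theorem g__wQ_26_wN_1_rb803309451e0239_0 : GoodKC AS k_wQ_26_wN_1_rb803309451e0239_0 := p_wQ_26_wN_1_rb803309451e0239_0 g__wQ_26_wN_1_rb803309451e0239_1 g__wQ_26_wN_1_rb803309451e0239_3 g__wQ_26_wN_1_rb803309451e0239_4

theorem g_wQ_26_wN_1_rb803309451e0239 : GoodKC AS c_wQ_26_wN_1_rb803309451e0239 := p_wQ_26_wN_1_rb803309451e0239 g__wQ_26_wN_1_rb803309451e0239_0

theorem g_wQ_26_wN_1_rb803309451e0238 : GoodKC AS c_wQ_26_wN_1_rb803309451e0238 := p_wQ_26_wN_1_rb803309451e0238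

theorem g_wQ_26_wN_1_rb803309451e0237 : GoodKC AS c_wQ_26_wN_1_rb803309451e0237 := p_wQ_26_wN_1_rb803309451e0237

theorem g_wQ_26_wN_1_rb803309451e0233 : GoodKC AS c_wQ_26_wN_1_rb803309451e0233 := p_wQ_26_wN_1_rb803309451e0233

theorem g_wQ_26_wN_1_rb803309451e0231 : GoodKC AS c_wQ_26_wN_1_rb803309451e0231 := p_wQ_26_wN_1_rb803309451e0231

theorem g_wQ_26_wN_1_rb803309451e0230 : GoodKC AS c_wQ_26_wN_1_rb803309451e0230 := p_wQ_26_wN_1_rb803309451e0230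

theorem g_wQ_26_wN_1_rb803309451e022f : GoodKC AS c_wQ_26_wN_1_rb803309451e022f := p_wQ_26_wN_1_rb803309451e022f

theorem g_wQ_26_wN_1_rb803309451e022e : GoodKC AS c_wQ_26_wN_1_rb803309451e022e := p_wQ_26_wN_1_rb803309451e022e

theorem g__wQ_26_wN_1_rb803309451e02_2 : GoodKC AS k_wQ_26_wN_1_rb803309451e02_2 := p_wQ_26_wN_1_rb803309451e02_2

theorem g__wQ_26_wN_1_rb803309451e02_1 : GoodKC AS k_wQ_26_wN_1_rb803309451e02_1 := p_wQ_26_wN_1_rb803309451e02_1 g__wQ_26_wN_1_rb803309451e02_2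

theorem g__wQ_26_wN_1_rb803309451e02_5 : GoodKC AS k_wQ_26_wN_1_rb803309451e02_5 := p_wQ_26_wN_1_rb803309451e02_5

theorem g__wQ_26_wN_1_rb803309451e02_4 : GoodKC AS k_wQ_26_wN_1_rb803309451e02_4 := p_wQ_26_wN_1_rb803309451e02_4 g__wQ_26_wN_1_rb803309451e02_5

theorem g__wQ_26_wN_1_rb803309451e02_6 : GoodKC AS k_wQ_26_wN_1_rb803309451e02_6 := p_wQ_26_wN_1_rb803309451e02_6

theorem g__wQ_26_wN_1_rb803309451e02_3 : GoodKC AS k_wQ_26_wN_1_rb803309451e02_3 := p_wQ_26_wN_1_rb803309451e02_3 g__wQ_26_wN_1_rb803309451e02_4 g__wQ_26_wN_1_rb803309451e02_6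

theorem g__wQ_26_wN_1_rb803309451e02_0 : GoodKC AS k_wQ_26_wN_1_rb803309451e02_0 := p_wQ_26_wN_1_rb803309451e02_0 g__wQ_26_wN_1_rb803309451e02_1 g__wQ_26_wN_1_rb803309451e02_3

theorem g_wQ_26_wN_1_rb803309451e022c : GoodKC AS c_wQ_26_wN_1_rb803309451e022c := p_wQ_26_wN_1_rb803309451e022c

theorem g__wQ_26_wN_1_rb803309451e0229_3 : GoodKC AS k_wQ_26_wN_1_rb803309451e0229_3 := p_wQ_26_wN_1_rb803309451e0229_3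

theorem g__wQ_26_wN_1_rb803309451e0229_2 : GoodKC AS k_wQ_26_wN_1_rb803309451e0229_2 := p_wQ_26_wN_1_rb803309451e0229_2 g__wQ_26_wN_1_rb803309451e0229_3

theorem g__wQ_26_wN_1_rb803309451e0229_1 : GoodKC AS k_wQ_26_wN_1_rb803309451e0229_1 := p_wQ_26_wN_1_rb803309451e0229_1 g__wQ_26_wN_1_rb803309451e0229_2

theorem g__wQ_26_wN_1_rb803309451e0229_0 : GoodKC AS k_wQ_26_wN_1_rb803309451e0229_0 := p_wQ_26_wN_1_rb803309451e0229_0 g__wQ_26_wN_1_rb803309451e0229_1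

theorem g_wQ_26_wN_1_rb803309451e0229 : GoodKC AS c_wQ_26_wN_1_rb803309451e0229 := p_wQ_26_wN_1_rb803309451e0229 g__wQ_26_wN_1_rb803309451e0229_0

theorem g_wQ_26_wN_1_rb803309451e0226 : GoodKC AS c_wQ_26_wN_1_rb803309451e0226 := p_wQ_26_wN_1_rb803309451e0226

theorem g_wQ_26_wN_1_rb803309451e0225 : GoodKC AS c_wQ_26_wN_1_rb803309451e0225 := p_wQ_26_wN_1_rb803309451e0225

theorem g_wQ_26_wN_1_rb803309451e0224 : GoodKC AS c_wQ_26_wN_1_rb803309451e0224 := p_wQ_26_wN_1_rb803309451e0224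

theorem g_wQ_26_wN_1_rb803309451e0223 : GoodKC AS c_wQ_26_wN_1_rb803309451e0223 := p_wQ_26_wN_1_rb803309451e0223

theorem g_wQ_26_wN_1_rb803309451e0221 : GoodKC AS c_wQ_26_wN_1_rb803309451e0221 := p_wQ_26_wN_1_rb803309451e0221

theorem g_wQ_26_wN_1_rb803309451e021d : GoodKC AS c_wQ_26_wN_1_rb803309451e021d := p_wQ_26_wN_1_rb803309451e021d

theorem g_wQ_26_wN_1_rb803309451e021c : GoodKC AS c_wQ_26_wN_1_rb803309451e021c := p_wQ_26_wN_1_rb803309451e021c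

theorem g_wQ_26_wN_1_rb803309451e0218 : GoodKC AS c_wQ_26_wN_1_rb803309451e0218 := p_wQ_26_wN_1_rb803309451e0218

theorem g_wQ_26_wN_1_rb803309451e0215 : GoodKC AS c_wQ_26_wN_1_rb803309451e0215 := p_wQ_26_wN_1_rb803309451e0215

theorem g_wQ_26_wN_1_rb803309451e0214 : GoodKC AS c_wQ_26_wN_1_rb803309451e0214 := p_wQ_26_wN_1_rb803309451e0214

theorem g_wQ_26_wN_1_rb803309451e020f : GoodKC AS c_wQ_26_wN_1_rb803309451e020f := p_wQ_26_wN_1_rb803309451e020f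

theorem g_wQ_26_wN_1_rb803309451e020e : GoodKC AS c_wQ_26_wN_1_rb803309451e020e := p_wQ_26_wN_1_rb803309451e020e

theorem g_wQ_26_wN_1_rb803309451e020c : GoodKC AS c_wQ_26_wN_1_rb803309451e020c := p_wQ_26_wN_1_rb803309451e020c

theorem g_wQ_26_wN_1_rb803309451e020b : GoodKC AS c_wQ_26_wN_1_rb803309451e020b := p_wQ_26_wN_1_rb803309451e020b

theorem g_wQ_26_wN_1_rb803309451e020a : GoodKC AS c_wQ_26_wN_1_rb803309451e020a := p_wQ_26_wN_1_rb803309451e020a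

theorem g_wQ_26_wN_1_rb803309451e0209 : GoodKC AS c_wQ_26_wN_1_rb803309451e0209 := p_wQ_26_wN_1_rb803309451e0209

theorem g_wQ_26_wN_1_rb803309451e0208 : GoodKC AS c_wQ_26_wN_1_rb803309451e0208 := p_wQ_26_wN_1_rb803309451e0208

theorem g_wQ_26_wN_1_rb803309451e0207 : GoodKC AS c_wQ_26_wN_1_rb803309451e0207 := p_wQ_26_wN_1_rb803309451e0207

theorem g_wQ_26_wN_1_rb803309451e0206 : GoodKC AS c_wQ_26_wN_1_rb803309451e0206 := p_wQ_26_wN_1_rb803309451e0206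

theorem g__wQ_26_wN_1_rb803309451e0205_7 : GoodKC AS k_wQ_26_wN_1_rb803309451e0205_7 := p_wQ_26_wN_1_rb803309451e0205_7

theorem g__wQ_26_wN_1_rb803309451e0205_9 : GoodKC AS k_wQ_26_wN_1_rb803309451e0205_9 := p_wQ_26_wN_1_rb803309451e0205_9

theorem g__wQ_26_wN_1_rb803309451e0205_8 : GoodKC AS k_wQ_26_wN_1_rb803309451e0205_8 := p_wQ_26_wN_1_rb803309451e0205_8 g__wQ_26_wN_1_rb803309451e0205_9

theorem g__wQ_26_wN_1_rb803309451e0205_6 : GoodKC AS k_wQ_26_wN_1_rb803309451e0205_6 := p_wQ_26_wN_1_rb803309451e0205_6 g__wQ_26_wN_1_rb803309451e0205_7 g__wQ_26_wN_1_rb803309451e0205_8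

theorem g__wQ_26_wN_1_rb803309451e0205_5 : GoodKC AS k_wQ_26_wN_1_rb803309451e0205_5 := p_wQ_26_wN_1_rb803309451e0205_5 g__wQ_26_wN_1_rb803309451e0205_6

theorem g__wQ_26_wN_1_rb803309451e0205_4 : GoodKC AS k_wQ_26_wN_1_rb803309451e0205_4 := p_wQ_26_wN_1_rb803309451e0205_4 g__wQ_26_wN_1_rb803309451e0205_5

theorem g__wQ_26_wN_1_rb803309451e0205_3 : GoodKC AS k_wQ_26_wN_1_rb803309451e0205_3 := p_wQ_26_wN_1_rb803309451e0205_3 g__wQ_26_wN_1_rb803309451e0205_4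

theorem g__wQ_26_wN_1_rb803309451e0205_2 : GoodKC AS k_wQ_26_wN_1_rb803309451e0205_2 := p_wQ_26_wN_1_rb803309451e0205_2 g__wQ_26_wN_1_rb803309451e0205_3

theorem g__wQ_26_wN_1_rb803309451e0205_1 : GoodKC AS k_wQ_26_wN_1_rb803309451e0205_1 := p_wQ_26_wN_1_rb803309451e0205_1 g__wQ_26_wN_1_rb803309451e0205_2

theorem g__wQ_26_wN_1_rb803309451e0205_0 : GoodKC AS k_wQ_26_wN_1_rb803309451e0205_0 := p_wQ_26_wN_1_rb803309451e0205_0 g__wQ_26_wN_1_rb803309451e0205_1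

theorem g_wQ_26_wN_1_rb803309451e0205 : GoodKC AS c_wQ_26_wN_1_rb803309451e0205 := p_wQ_26_wN_1_rb803309451e0205 g__wQ_26_wN_1_rb803309451e0205_0

theorem g_wQ_26_wN_1_rb803309451e0203 : GoodKC AS c_wQ_26_wN_1_rb803309451e0203 := p_wQ_26_wN_1_rb803309451e0203

theorem g_wQ_26_wN_1_rb803309451e0202 : GoodKC AS c_wQ_26_wN_1_rb803309451e0202 := p_wQ_26_wN_1_rb803309451e0202

theorem g_wQ_26_wN_1_rb803309451e0201 : GoodKC AS c_wQ_26_wN_1_rb803309451e0201 := p_wQ_26_wN_1_rb803309451e0201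

theorem g__wQ_26_wN_1_rb803309451e02_9 : GoodKC AS k_wQ_26_wN_1_rb803309451e02_9 := p_wQ_26_wN_1_rb803309451e02_9

theorem g__wQ_26_wN_1_rb803309451e02_10 : GoodKC AS k_wQ_26_wN_1_rb803309451e02_10 := p_wQ_26_wN_1_rb803309451e02_10

theorem g__wQ_26_wN_1_rb803309451e02_8 : GoodKC AS k_wQ_26_wN_1_rb803309451e02_8 := p_wQ_26_wN_1_rb803309451e02_8 g__wQ_26_wN_1_rb803309451e02_9 g__wQ_26_wN_1_rb803309451e02_10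

theorem g__wQ_26_wN_1_rb803309451e02_12 : GoodKC AS k_wQ_26_wN_1_rb803309451e02_12 := p_wQ_26_wN_1_rb803309451e02_12

theorem g__wQ_26_wN_1_rb803309451e02_11 : GoodKC AS k_wQ_26_wN_1_rb803309451e02_11 := p_wQ_26_wN_1_rb803309451e02_11 g__wQ_26_wN_1_rb803309451e02_12

theorem g_wQ_26_wN_1_rb803309451e0204 : GoodKC AS c_wQ_26_wN_1_rb803309451e0204 := p_wQ_26_wN_1_rb803309451e0204

theorem g_wQ_26_wN_1_rb803309451e020d : GoodKC AS c_wQ_26_wN_1_rb803309451e020d := p_wQ_26_wN_1_rb803309451e020d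

theorem g_wQ_26_wN_1_rb803309451e0210 : GoodKC AS c_wQ_26_wN_1_rb803309451e0210 := p_wQ_26_wN_1_rb803309451e0210

theorem g__wQ_26_wN_1_rb803309451e02_7 : GoodKC AS k_wQ_26_wN_1_rb803309451e02_7 := p_wQ_26_wN_1_rb803309451e02_7 g_wQ_26_wN_1_rb803309451e020f g_wQ_26_wN_1_rb803309451e020e g_wQ_26_wN_1_rb803309451e020c g_wQ_26_wN_1_rb803309451e020b g_wQ_26_wN_1_rb803309451e020a g_wQ_26_wN_1_rb803309451e0209 g_wQ_26_wN_1_rb803309451e0208 g_wQ_26_wN_1_rb803309451e0207 g_wQ_26_wN_1_rb803309451e0206 g_wQ_26_wN_1_rb803309451e0205 g_wQ_26_wN_1_rb803309451e0203 g_wQ_26_wN_1_rb803309451e0202 g_wQ_26_wN_1_rb803309451e0201 g__wQ_26_wN_1_rb803309451e02_8 g__wQ_26_wN_1_rb803309451e02_11 g_wQ_26_wN_1_rb803309451e0204 g_wQ_26_wN_1_rb803309451e020d g_wQ_26_wN_1_rb803309451e0210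

theorem g__wQ_26_wN_1_rb803309451e0200_d51_d00_4 : GoodKC AS k_wQ_26_wN_1_rb803309451e0200_d51_d00_4 := p_wQ_26_wN_1_rb803309451e0200_d51_d00_4

theorem g__wQ_26_wN_1_rb803309451e0200_d51_d00_3 : GoodKC AS k_wQ_26_wN_1_rb803309451e0200_d51_d00_3 := p_wQ_26_wN_1_rb803309451e0200_d51_d00_3 g__wQ_26_wN_1_rb803309451e0200_d51_d00_4

theorem g__wQ_26_wN_1_rb803309451e0200_d51_d00_2 : GoodKC AS k_wQ_26_wN_1_rb803309451e0200_d51_d00_2 := p_wQ_26_wN_1_rb803309451e0200_d51_d00_2 g__wQ_26_wN_1_rb803309451e0200_d51_d00_3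

theorem g__wQ_26_wN_1_rb803309451e0200_d51_d00_1 : GoodKC AS k_wQ_26_wN_1_rb803309451e0200_d51_d00_1 := p_wQ_26_wN_1_rb803309451e0200_d51_d00_1 g__wQ_26_wN_1_rb803309451e0200_d51_d00_2

theorem g__wQ_26_wN_1_rb803309451e0200_d51_d00_0 : GoodKC AS k_wQ_26_wN_1_rb803309451e0200_d51_d00_0 := p_wQ_26_wN_1_rb803309451e0200_d51_d00_0 g__wQ_26_wN_1_rb803309451e0200_d51_d00_1

theorem g_wQ_26_wN_1_rb803309451e0200_d51_d00 : GoodKC AS c_wQ_26_wN_1_rb803309451e0200_d51_d00 := p_wQ_26_wN_1_rb803309451e0200_d51_d00 g__wQ_26_wN_1_rb803309451e0200_d51_d00_0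

theorem g_wQ_26_wN_1_rb803309451e0200 : GoodKC AS c_wQ_26_wN_1_rb803309451e0200 := p_wQ_26_wN_1_rb803309451e0200 g_wQ_26_wN_1_rb803309451e0200_d51_d00

theorem g__wQ_26_wN_1_rb803309451e02_19 : GoodKC AS k_wQ_26_wN_1_rb803309451e02_19 := p_wQ_26_wN_1_rb803309451e02_19 g_wQ_26_wN_1_rb803309451e0200

theorem g__wQ_26_wN_1_rb803309451e02_18 : GoodKC AS k_wQ_26_wN_1_rb803309451e02_18 := p_wQ_26_wN_1_rb803309451e02_18 g__wQ_26_wN_1_rb803309451e02_19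

theorem g__wQ_26_wN_1_rb803309451e02_17 : GoodKC AS k_wQ_26_wN_1_rb803309451e02_17 := p_wQ_26_wN_1_rb803309451e02_17 g__wQ_26_wN_1_rb803309451e02_18

theorem g__wQ_26_wN_1_rb803309451e02_16 : GoodKC AS k_wQ_26_wN_1_rb803309451e02_16 := p_wQ_26_wN_1_rb803309451e02_16 g__wQ_26_wN_1_rb803309451e02_17

theorem g__wQ_26_wN_1_rb803309451e02_15 : GoodKC AS k_wQ_26_wN_1_rb803309451e02_15 := p_wQ_26_wN_1_rb803309451e02_15 g__wQ_26_wN_1_rb803309451e02_16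

theorem g__wQ_26_wN_1_rb803309451e02_14 : GoodKC AS k_wQ_26_wN_1_rb803309451e02_14 := p_wQ_26_wN_1_rb803309451e02_14 g__wQ_26_wN_1_rb803309451e02_15

theorem g__wQ_26_wN_1_rb803309451e02_13 : GoodKC AS k_wQ_26_wN_1_rb803309451e02_13 := p_wQ_26_wN_1_rb803309451e02_13 g__wQ_26_wN_1_rb803309451e02_14

theorem g_wQ_26_wN_1_rb803309451e0211 : GoodKC AS c_wQ_26_wN_1_rb803309451e0211 := p_wQ_26_wN_1_rb803309451e0211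

theorem g_wQ_26_wN_1_rb803309451e0212 : GoodKC AS c_wQ_26_wN_1_rb803309451e0212 := p_wQ_26_wN_1_rb803309451e0212

theorem g_wQ_26_wN_1_rb803309451e0213 : GoodKC AS c_wQ_26_wN_1_rb803309451e0213 := p_wQ_26_wN_1_rb803309451e0213

theorem g_wQ_26_wN_1_rb803309451e0216 : GoodKC AS c_wQ_26_wN_1_rb803309451e0216 := p_wQ_26_wN_1_rb803309451e0216

theorem g_wQ_26_wN_1_rb803309451e0217 : GoodKC AS c_wQ_26_wN_1_rb803309451e0217 := p_wQ_26_wN_1_rb803309451e0217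

theorem g_wQ_26_wN_1_rb803309451e0219 : GoodKC AS c_wQ_26_wN_1_rb803309451e0219 := p_wQ_26_wN_1_rb803309451e0219

theorem g_wQ_26_wN_1_rb803309451e021a : GoodKC AS c_wQ_26_wN_1_rb803309451e021a := p_wQ_26_wN_1_rb803309451e021av1

theorem g_wQ_26_wN_1_rb803309451e021b : GoodKC AS c_wQ_26_wN_1_rb803309451e021b := p_wQ_26_wN_1_rb803309451e021b

theorem g_wQ_26_wN_1_rb803309451e021e : GoodKC AS c_wQ_26_wN_1_rb803309451e021e := p_wQ_26_wN_1_rb803309451e021e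

theorem g_wQ_26_wN_1_rb803309451e021f : GoodKC AS c_wQ_26_wN_1_rb803309451e021f := p_wQ_26_wN_1_rb803309451e021f

theorem g_wQ_26_wN_1_rb803309451e0220 : GoodKC AS c_wQ_26_wN_1_rb803309451e0220 := p_wQ_26_wN_1_rb803309451e0220

theorem g_wQ_26_wN_1_rb803309451e0222 : GoodKC AS c_wQ_26_wN_1_rb803309451e0222 := p_wQ_26_wN_1_rb803309451e0222

theorem g_wQ_26_wN_1_rb803309451e0227 : GoodKC AS c_wQ_26_wN_1_rb803309451e0227 := p_wQ_26_wN_1_rb803309451e0227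

theorem g_wQ_26_wN_1_rb803309451e0228 : GoodKC AS c_wQ_26_wN_1_rb803309451e0228 := p_wQ_26_wN_1_rb803309451e0228

theorem g_wQ_26_wN_1_rb803309451e022a : GoodKC AS c_wQ_26_wN_1_rb803309451e022a := p_wQ_26_wN_1_rb803309451e022a

theorem g_wQ_26_wN_1_rb803309451e022b : GoodKC AS c_wQ_26_wN_1_rb803309451e022b := p_wQ_26_wN_1_rb803309451e022b

theorem g_wQ_26_wN_1_rb803309451e022d : GoodKC AS c_wQ_26_wN_1_rb803309451e022d := p_wQ_26_wN_1_rb803309451e022d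

theorem g__wQ_26_wN_1_rb803309451e0232_1 : GoodKC AS k_wQ_26_wN_1_rb803309451e0232_1 := p_wQ_26_wN_1_rb803309451e0232_1

theorem g__wQ_26_wN_1_rb803309451e0232_0 : GoodKC AS k_wQ_26_wN_1_rb803309451e0232_0 := p_wQ_26_wN_1_rb803309451e0232_0 g__wQ_26_wN_1_rb803309451e0232_1

theorem g_wQ_26_wN_1_rb803309451e0232 : GoodKC AS c_wQ_26_wN_1_rb803309451e0232 := p_wQ_26_wN_1_rb803309451e0232 g__wQ_26_wN_1_rb803309451e0232_0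

theorem g_wQ_26_wN_1_rb803309451e0234 : GoodKC AS c_wQ_26_wN_1_rb803309451e0234 := p_wQ_26_wN_1_rb803309451e0234

theorem g__wQ_26_wN_1_rb803309451e0235_1 : GoodKC AS k_wQ_26_wN_1_rb803309451e0235_1 := p_wQ_26_wN_1_rb803309451e0235_1

theorem g__wQ_26_wN_1_rb803309451e0235_2 : GoodKC AS k_wQ_26_wN_1_rb803309451e0235_2 := p_wQ_26_wN_1_rb803309451e0235_2

theorem g__wQ_26_wN_1_rb803309451e0235_3 : GoodKC AS k_wQ_26_wN_1_rb803309451e0235_3 := p_wQ_26_wN_1_rb803309451e0235_3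

theorem g__wQ_26_wN_1_rb803309451e0235_8 : GoodKC AS k_wQ_26_wN_1_rb803309451e0235_8 := p_wQ_26_wN_1_rb803309451e0235_8

theorem g__wQ_26_wN_1_rb803309451e0235_7 : GoodKC AS k_wQ_26_wN_1_rb803309451e0235_7 := p_wQ_26_wN_1_rb803309451e0235_7 g__wQ_26_wN_1_rb803309451e0235_8

theorem g__wQ_26_wN_1_rb803309451e0235_6 : GoodKC AS k_wQ_26_wN_1_rb803309451e0235_6 := p_wQ_26_wN_1_rb803309451e0235_6 g__wQ_26_wN_1_rb803309451e0235_7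

theorem g__wQ_26_wN_1_rb803309451e0235_10 : GoodKC AS k_wQ_26_wN_1_rb803309451e0235_10 := p_wQ_26_wN_1_rb803309451e0235_10

theorem g__wQ_26_wN_1_rb803309451e0235_9 : GoodKC AS k_wQ_26_wN_1_rb803309451e0235_9 := p_wQ_26_wN_1_rb803309451e0235_9 g__wQ_26_wN_1_rb803309451e0235_10

theorem g__wQ_26_wN_1_rb803309451e0235_11 : GoodKC AS k_wQ_26_wN_1_rb803309451e0235_11 := p_wQ_26_wN_1_rb803309451e0235_11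

theorem g__wQ_26_wN_1_rb803309451e0235_5 : GoodKC AS k_wQ_26_wN_1_rb803309451e0235_5 := p_wQ_26_wN_1_rb803309451e0235_5 g__wQ_26_wN_1_rb803309451e0235_6 g__wQ_26_wN_1_rb803309451e0235_9 g__wQ_26_wN_1_rb803309451e0235_11

theorem g__wQ_26_wN_1_rb803309451e0235_12 : GoodKC AS k_wQ_26_wN_1_rb803309451e0235_12 := p_wQ_26_wN_1_rb803309451e0235_12

theorem g__wQ_26_wN_1_rb803309451e0235_4 : GoodKC AS k_wQ_26_wN_1_rb803309451e0235_4 := p_wQ_26_wN_1_rb803309451e0235_4 g__wQ_26_wN_1_rb803309451e0235_5 g__wQ_26_wN_1_rb803309451e0235_12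

theorem g__wQ_26_wN_1_rb803309451e0235_0 : GoodKC AS k_wQ_26_wN_1_rb803309451e0235_0 := p_wQ_26_wN_1_rb803309451e0235_0 g__wQ_26_wN_1_rb803309451e0235_1 g__wQ_26_wN_1_rb803309451e0235_2 g__wQ_26_wN_1_rb803309451e0235_3 g__wQ_26_wN_1_rb803309451e0235_4

theorem g_wQ_26_wN_1_rb803309451e0235 : GoodKC AS c_wQ_26_wN_1_rb803309451e0235 := p_wQ_26_wN_1_rb803309451e0235 g__wQ_26_wN_1_rb803309451e0235_0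

theorem g_wQ_26_wN_1_rb803309451e0236 : GoodKC AS c_wQ_26_wN_1_rb803309451e0236 := p_wQ_26_wN_1_rb803309451e0236

theorem g_wQ_26_wN_1_rb803309451e023a : GoodKC AS c_wQ_26_wN_1_rb803309451e023a := p_wQ_26_wN_1_rb803309451e023a

theorem g_wQ_26_wN_1_rb803309451e023c : GoodKC AS c_wQ_26_wN_1_rb803309451e023c := p_wQ_26_wN_1_rb803309451e023c

theorem g__wQ_26_wN_1_rb803309451e023f_0 : GoodKC AS k_wQ_26_wN_1_rb803309451e023f_0 := p_wQ_26_wN_1_rb803309451e023f_0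

theorem g_wQ_26_wN_1_rb803309451e023f : GoodKC AS c_wQ_26_wN_1_rb803309451e023f := p_wQ_26_wN_1_rb803309451e023f g__wQ_26_wN_1_rb803309451e023f_0

theorem g_wQ_26_wN_1_rb803309451e02x1 : GoodKC AS c_wQ_26_wN_1_rb803309451e02x1 := p_wQ_26_wN_1_rb803309451e02 g_wQ_26_wN_1_rb803309451e0242 g_wQ_26_wN_1_rb803309451e0241 g_wQ_26_wN_1_rb803309451e0240 g_wQ_26_wN_1_rb803309451e023e g_wQ_26_wN_1_rb803309451e023d g_wQ_26_wN_1_rb803309451e023b g_wQ_26_wN_1_rb803309451e0239 g_wQ_26_wN_1_rb803309451e0238 g_wQ_26_wN_1_rb803309451e0237 g_wQ_26_wN_1_rb803309451e0233 g_wQ_26_wN_1_rb803309451e0231 g_wQ_26_wN_1_rb803309451e0230 g_wQ_26_wN_1_rb803309451e022f g_wQ_26_wN_1_rb803309451e022e g__wQ_26_wN_1_rb803309451e02_0 g_wQ_26_wN_1_rb803309451e022c g_wQ_26_wN_1_rb803309451e0229 g_wQ_26_wN_1_rb803309451e0226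 g_wQ_26_wN_1_rb803309451e0225 g_wQ_26_wN_1_rb803309451e0224 g_wQ_26_wN_1_rb803309451e0223 g_wQ_26_wN_1_rb803309451e0221 g_wQ_26_wN_1_rb803309451e021d g_wQ_26_wN_1_rb803309451e021c g_wQ_26_wN_1_rb803309451e0218 g_wQ_26_wN_1_rb803309451e0215 g_wQ_26_wN_1_rb803309451e0214 g__wQ_26_wN_1_rb803309451e02_7 g__wQ_26_wN_1_rb803309451e02_13 g_wQ_26_wN_1_rb803309451e0211 g_wQ_26_wN_1_rb803309451e0212 g_wQ_26_wN_1_rb803309451e0213 g_wQ_26_wN_1_rb803309451e0216 g_wQ_26_wN_1_rb803309451e0217 g_wQ_26_wN_1_rb803309451e0219 g_wQ_26_wN_1_rb803309451e021a g_wQ_26_wN_1_rb803309451e021b g_wQ_26_wN_1_rb803309451e021e g_wQ_26_wN_1_rb803309451e021f g_wQ_26_wN_1_rb803309451e0220 g_wQ_26_wN_1_rb803309451e0222 g_wQ_26_wN_1_rb803309451e0227 g_wQ_26_wN_1_rb803309451e0228 g_wQ_26_wN_1_rb803309451e022a g_wQ_26_wN_1_rb803309451e022b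 g_wQ_26_wN_1_rb803309451e022d g_wQ_26_wN_1_rb803309451e0232 g_wQ_26_wN_1_rb803309451e0234 g_wQ_26_wN_1_rb803309451e0235 g_wQ_26_wN_1_rb803309451e0236 g_wQ_26_wN_1_rb803309451e023a g_wQ_26_wN_1_rb803309451e023c g_wQ_26_wN_1_rb803309451e023f

theorem g_wQ_26_wN_1_rb803309451e08x1 : GoodKC AS c_wQ_26_wN_1_rb803309451e08x1 := p_wQ_26_wN_1_rb803309451e08

theorem g_wQ_26_wN_1_rb803309451e09_d42_d0bx1 : GoodKC AS c_wQ_26_wN_1_rb803309451e09_d42_d0bx1 := p_wQ_26_wN_1_rb803309451e09_d42_d0b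

theorem g_wQ_26_wN_1_rb803309451e09_d42_d0ax1 : GoodKC AS c_wQ_26_wN_1_rb803309451e09_d42_d0ax1 := p_wQ_26_wN_1_rb803309451e09_d42_d0a

theorem g_wQ_26_wN_1_rb803309451e09_d42_d09x1 : GoodKC AS c_wQ_26_wN_1_rb803309451e09_d42_d09x1 := p_wQ_26_wN_1_rb803309451e09_d42_d09

theorem g__wQ_26_wN_1_rb803309451e09_d42_d08_1 : GoodKC AS k_wQ_26_wN_1_rb803309451e09_d42_d08_1 := p_wQ_26_wN_1_rb803309451e09_d42_d08_1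

theorem g__wQ_26_wN_1_rb803309451e09_d42_d08_5 : GoodKC AS k_wQ_26_wN_1_rb803309451e09_d42_d08_5 := p_wQ_26_wN_1_rb803309451e09_d42_d08_5

theorem g__wQ_26_wN_1_rb803309451e09_d42_d08_6 : GoodKC AS k_wQ_26_wN_1_rb803309451e09_d42_d08_6 := p_wQ_26_wN_1_rb803309451e09_d42_d08_6

theorem g__wQ_26_wN_1_rb803309451e09_d42_d08_4 : GoodKC AS k_wQ_26_wN_1_rb803309451e09_d42_d08_4 := p_wQ_26_wN_1_rb803309451e09_d42_d08_4 g__wQ_26_wN_1_rb803309451e09_d42_d08_5 g__wQ_26_wN_1_rb803309451e09_d42_d08_6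

theorem g__wQ_26_wN_1_rb803309451e09_d42_d08_3 : GoodKC AS k_wQ_26_wN_1_rb803309451e09_d42_d08_3 := p_wQ_26_wN_1_rb803309451e09_d42_d08_3 g__wQ_26_wN_1_rb803309451e09_d42_d08_4

theorem g__wQ_26_wN_1_rb803309451e09_d42_d08_2 : GoodKC AS k_wQ_26_wN_1_rb803309451e09_d42_d08_2 := p_wQ_26_wN_1_rb803309451e09_d42_d08_2 g__wQ_26_wN_1_rb803309451e09_d42_d08_3

theorem g__wQ_26_wN_1_rb803309451e09_d42_d08_0 : GoodKC AS k_wQ_26_wN_1_rb803309451e09_d42_d08_0 := p_wQ_26_wN_1_rb803309451e09_d42_d08_0 g__wQ_26_wN_1_rb803309451e09_d42_d08_1 g__wQ_26_wN_1_rb803309451e09_d42_d08_2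

theorem g__wQ_26_wN_1_rb803309451e09_d42_d08_10 : GoodKC AS k_wQ_26_wN_1_rb803309451e09_d42_d08_10 := p_wQ_26_wN_1_rb803309451e09_d42_d08_10

theorem g__wQ_26_wN_1_rb803309451e09_d42_d08_9 : GoodKC AS k_wQ_26_wN_1_rb803309451e09_d42_d08_9 := p_wQ_26_wN_1_rb803309451e09_d42_d08_9 g__wQ_26_wN_1_rb803309451e09_d42_d08_10

theorem g__wQ_26_wN_1_rb803309451e09_d42_d08_12 : GoodKC AS k_wQ_26_wN_1_rb803309451e09_d42_d08_12 := p_wQ_26_wN_1_rb803309451e09_d42_d08_12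

theorem g__wQ_26_wN_1_rb803309451e09_d42_d08_11 : GoodKC AS k_wQ_26_wN_1_rb803309451e09_d42_d08_11 := p_wQ_26_wN_1_rb803309451e09_d42_d08_11 g__wQ_26_wN_1_rb803309451e09_d42_d08_12

theorem g__wQ_26_wN_1_rb803309451e09_d42_d08_8 : GoodKC AS k_wQ_26_wN_1_rb803309451e09_d42_d08_8 := p_wQ_26_wN_1_rb803309451e09_d42_d08_8 g__wQ_26_wN_1_rb803309451e09_d42_d08_9 g__wQ_26_wN_1_rb803309451e09_d42_d08_11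

theorem g__wQ_26_wN_1_rb803309451e09_d42_d08_16 : GoodKC AS k_wQ_26_wN_1_rb803309451e09_d42_d08_16 := p_wQ_26_wN_1_rb803309451e09_d42_d08_16

theorem g__wQ_26_wN_1_rb803309451e09_d42_d08_15 : GoodKC AS k_wQ_26_wN_1_rb803309451e09_d42_d08_15 := p_wQ_26_wN_1_rb803309451e09_d42_d08_15 g__wQ_26_wN_1_rb803309451e09_d42_d08_16

theorem g__wQ_26_wN_1_rb803309451e09_d42_d08_14 : GoodKC AS k_wQ_26_wN_1_rb803309451e09_d42_d08_14 := p_wQ_26_wN_1_rb803309451e09_d42_d08_14 g__wQ_26_wN_1_rb803309451e09_d42_d08_15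

theorem g__wQ_26_wN_1_rb803309451e09_d42_d08_13 : GoodKC AS k_wQ_26_wN_1_rb803309451e09_d42_d08_13 := p_wQ_26_wN_1_rb803309451e09_d42_d08_13 g__wQ_26_wN_1_rb803309451e09_d42_d08_14

theorem g__wQ_26_wN_1_rb803309451e09_d42_d08_7 : GoodKC AS k_wQ_26_wN_1_rb803309451e09_d42_d08_7 := p_wQ_26_wN_1_rb803309451e09_d42_d08_7 g__wQ_26_wN_1_rb803309451e09_d42_d08_8 g__wQ_26_wN_1_rb803309451e09_d42_d08_13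

theorem g_wQ_26_wN_1_rb803309451e09_d42_d08x1 : GoodKC AS c_wQ_26_wN_1_rb803309451e09_d42_d08x1 := p_wQ_26_wN_1_rb803309451e09_d42_d08 g__wQ_26_wN_1_rb803309451e09_d42_d08_0 g__wQ_26_wN_1_rb803309451e09_d42_d08_7

theorem g__wQ_26_wN_1_rb803309451e09_d42_d07_2 : GoodKC AS k_wQ_26_wN_1_rb803309451e09_d42_d07_2 := p_wQ_26_wN_1_rb803309451e09_d42_d07_2

theorem g__wQ_26_wN_1_rb803309451e09_d42_d07_1 : GoodKC AS k_wQ_26_wN_1_rb803309451e09_d42_d07_1 := p_wQ_26_wN_1_rb803309451e09_d42_d07_1 g__wQ_26_wN_1_rb803309451e09_d42_d07_2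

theorem g__wQ_26_wN_1_rb803309451e09_d42_d07_0 : GoodKC AS k_wQ_26_wN_1_rb803309451e09_d42_d07_0 := p_wQ_26_wN_1_rb803309451e09_d42_d07_0 g__wQ_26_wN_1_rb803309451e09_d42_d07_1

theorem g_wQ_26_wN_1_rb803309451e09_d42_d07x1 : GoodKC AS c_wQ_26_wN_1_rb803309451e09_d42_d07x1 := p_wQ_26_wN_1_rb803309451e09_d42_d07 g__wQ_26_wN_1_rb803309451e09_d42_d07_0

theorem g_wQ_26_wN_1_rb803309451e09_d42_d05x1 : GoodKC AS c_wQ_26_wN_1_rb803309451e09_d42_d05x1 := p_wQ_26_wN_1_rb803309451e09_d42_d05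

theorem g__wQ_26_wN_1_rb803309451e09x1_2 : GoodKC AS k_wQ_26_wN_1_rb803309451e09x1_2 := p_wQ_26_wN_1_rb803309451e09x1_2

theorem g__wQ_26_wN_1_rb803309451e09x1_5 : GoodKC AS k_wQ_26_wN_1_rb803309451e09x1_5 := p_wQ_26_wN_1_rb803309451e09x1_5

theorem g__wQ_26_wN_1_rb803309451e09x1_4 : GoodKC AS k_wQ_26_wN_1_rb803309451e09x1_4 := p_wQ_26_wN_1_rb803309451e09x1_4 g__wQ_26_wN_1_rb803309451e09x1_5

theorem g__wQ_26_wN_1_rb803309451e09x1_6 : GoodKC AS k_wQ_26_wN_1_rb803309451e09x1_6 := p_wQ_26_wN_1_rb803309451e09x1_6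

theorem g__wQ_26_wN_1_rb803309451e09x1_3 : GoodKC AS k_wQ_26_wN_1_rb803309451e09x1_3 := p_wQ_26_wN_1_rb803309451e09x1_3 g__wQ_26_wN_1_rb803309451e09x1_4 g__wQ_26_wN_1_rb803309451e09x1_6

theorem g__wQ_26_wN_1_rb803309451e09x1_1 : GoodKC AS k_wQ_26_wN_1_rb803309451e09x1_1 := p_wQ_26_wN_1_rb803309451e09x1_1 g__wQ_26_wN_1_rb803309451e09x1_2 g__wQ_26_wN_1_rb803309451e09x1_3

theorem g__wQ_26_wN_1_rb803309451e09x1_0 : GoodKC AS k_wQ_26_wN_1_rb803309451e09x1_0 := p_wQ_26_wN_1_rb803309451e09x1_0 g__wQ_26_wN_1_rb803309451e09x1_1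

theorem g_wQ_26_wN_1_rb803309451e09_d42_d04x1 : GoodKC AS c_wQ_26_wN_1_rb803309451e09_d42_d04x1 := p_wQ_26_wN_1_rb803309451e09_d42_d04

theorem g_wQ_26_wN_1_rb803309451e09_d42_d01x1 : GoodKC AS c_wQ_26_wN_1_rb803309451e09_d42_d01x1 := p_wQ_26_wN_1_rb803309451e09_d42_d01

theorem g__wQ_26_wN_1_rb803309451e09_d42_d00_0 : GoodKC AS k_wQ_26_wN_1_rb803309451e09_d42_d00_0 := p_wQ_26_wN_1_rb803309451e09_d42_d00_0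

theorem g_wQ_26_wN_1_rb803309451e09_d42_d00x1 : GoodKC AS c_wQ_26_wN_1_rb803309451e09_d42_d00x1 := p_wQ_26_wN_1_rb803309451e09_d42_d00 g__wQ_26_wN_1_rb803309451e09_d42_d00_0

theorem g_wQ_26_wN_1_rb803309451e09_d42_d02x1 : GoodKC AS c_wQ_26_wN_1_rb803309451e09_d42_d02x1 := p_wQ_26_wN_1_rb803309451e09_d42_d02

theorem g_wQ_26_wN_1_rb803309451e09_d42_d03x1 : GoodKC AS c_wQ_26_wN_1_rb803309451e09_d42_d03x1 := p_wQ_26_wN_1_rb803309451e09_d42_d03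

theorem g_wQ_26_wN_1_rb803309451e09_d42_d06x1 : GoodKC AS c_wQ_26_wN_1_rb803309451e09_d42_d06x1 := p_wQ_26_wN_1_rb803309451e09_d42_d06

theorem g__wQ_26_wN_1_rb803309451e09x1_9 : GoodKC AS k_wQ_26_wN_1_rb803309451e09x1_9 := p_wQ_26_wN_1_rb803309451e09x1_9

theorem g__wQ_26_wN_1_rb803309451e09x1_8 : GoodKC AS k_wQ_26_wN_1_rb803309451e09x1_8 := p_wQ_26_wN_1_rb803309451e09x1_8 g__wQ_26_wN_1_rb803309451e09x1_9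

theorem g__wQ_26_wN_1_rb803309451e09x1_12 : GoodKC AS k_wQ_26_wN_1_rb803309451e09x1_12 := p_wQ_26_wN_1_rb803309451e09x1_12

theorem g__wQ_26_wN_1_rb803309451e09x1_13 : GoodKC AS k_wQ_26_wN_1_rb803309451e09x1_13 := p_wQ_26_wN_1_rb803309451e09x1_13

theorem g__wQ_26_wN_1_rb803309451e09x1_11 : GoodKC AS k_wQ_26_wN_1_rb803309451e09x1_11 := p_wQ_26_wN_1_rb803309451e09x1_11 g__wQ_26_wN_1_rb803309451e09x1_12 g__wQ_26_wN_1_rb803309451e09x1_13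

theorem g__wQ_26_wN_1_rb803309451e09x1_15 : GoodKC AS k_wQ_26_wN_1_rb803309451e09x1_15 := p_wQ_26_wN_1_rb803309451e09x1_15

theorem g__wQ_26_wN_1_rb803309451e09x1_17 : GoodKC AS k_wQ_26_wN_1_rb803309451e09x1_17 := p_wQ_26_wN_1_rb803309451e09x1_17

theorem g__wQ_26_wN_1_rb803309451e09x1_18 : GoodKC AS k_wQ_26_wN_1_rb803309451e09x1_18 := p_wQ_26_wN_1_rb803309451e09x1_18

theorem g__wQ_26_wN_1_rb803309451e09x1_20 : GoodKC AS k_wQ_26_wN_1_rb803309451e09x1_20 := p_wQ_26_wN_1_rb803309451e09x1_20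

theorem g__wQ_26_wN_1_rb803309451e09x1_19 : GoodKC AS k_wQ_26_wN_1_rb803309451e09x1_19 := p_wQ_26_wN_1_rb803309451e09x1_19 g__wQ_26_wN_1_rb803309451e09x1_20

theorem g__wQ_26_wN_1_rb803309451e09x1_16 : GoodKC AS k_wQ_26_wN_1_rb803309451e09x1_16 := p_wQ_26_wN_1_rb803309451e09x1_16 g__wQ_26_wN_1_rb803309451e09x1_17 g__wQ_26_wN_1_rb803309451e09x1_18 g__wQ_26_wN_1_rb803309451e09x1_19

theorem g__wQ_26_wN_1_rb803309451e09x1_14 : GoodKC AS k_wQ_26_wN_1_rb803309451e09x1_14 := p_wQ_26_wN_1_rb803309451e09x1_14 g__wQ_26_wN_1_rb803309451e09x1_15 g__wQ_26_wN_1_rb803309451e09x1_16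

theorem g__wQ_26_wN_1_rb803309451e09x1_10 : GoodKC AS k_wQ_26_wN_1_rb803309451e09x1_10 := p_wQ_26_wN_1_rb803309451e09x1_10 g__wQ_26_wN_1_rb803309451e09x1_11 g__wQ_26_wN_1_rb803309451e09x1_14

theorem g__wQ_26_wN_1_rb803309451e09x1_21 : GoodKC AS k_wQ_26_wN_1_rb803309451e09x1_21 := p_wQ_26_wN_1_rb803309451e09x1_21

theorem g__wQ_26_wN_1_rb803309451e09x1_22 : GoodKC AS k_wQ_26_wN_1_rb803309451e09x1_22 := p_wQ_26_wN_1_rb803309451e09x1_22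

theorem g__wQ_26_wN_1_rb803309451e09x1_7 : GoodKC AS k_wQ_26_wN_1_rb803309451e09x1_7 := p_wQ_26_wN_1_rb803309451e09x1_7 g__wQ_26_wN_1_rb803309451e09x1_8 g__wQ_26_wN_1_rb803309451e09x1_10 g__wQ_26_wN_1_rb803309451e09x1_21 g__wQ_26_wN_1_rb803309451e09x1_22

theorem g_wQ_26_wN_1_rb803309451e09x1 : GoodKC AS c_wQ_26_wN_1_rb803309451e09x1 := p_wQ_26_wN_1_rb803309451e09x1 g_wQ_26_wN_1_rb803309451e09_d42_d0bx1 g_wQ_26_wN_1_rb803309451e09_d42_d0ax1 g_wQ_26_wN_1_rb803309451e09_d42_d09x1 g_wQ_26_wN_1_rb803309451e09_d42_d08x1 g_wQ_26_wN_1_rb803309451e09_d42_d07x1 g_wQ_26_wN_1_rb803309451e09_d42_d05x1 g__wQ_26_wN_1_rb803309451e09x1_0 g_wQ_26_wN_1_rb803309451e09_d42_d04x1 g_wQ_26_wN_1_rb803309451e09_d42_d01x1 g_wQ_26_wN_1_rb803309451e09_d42_d00x1 g_wQ_26_wN_1_rb803309451e09_d42_d02x1 g_wQ_26_wN_1_rb803309451e09_d42_d03x1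 g_wQ_26_wN_1_rb803309451e09_d42_d06x1 g__wQ_26_wN_1_rb803309451e09x1_7

theorem g_wQ_26_wN_1_rb803309451e0b1av1 : GoodKC AS c_wQ_26_wN_1_rb803309451e0b1av1 := p_wQ_26_wN_1_rb803309451e0b1a

theorem g__wQ_26_wN_1_rb803309451e0b18_1 : GoodKC AS k_wQ_26_wN_1_rb803309451e0b18_1 := p_wQ_26_wN_1_rb803309451e0b18_1

theorem g__wQ_26_wN_1_rb803309451e0b18_0 : GoodKC AS k_wQ_26_wN_1_rb803309451e0b18_0 := p_wQ_26_wN_1_rb803309451e0b18_0 g__wQ_26_wN_1_rb803309451e0b18_1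

theorem g_wQ_26_wN_1_rb803309451e0b18v1 : GoodKC AS c_wQ_26_wN_1_rb803309451e0b18v1 := p_wQ_26_wN_1_rb803309451e0b18 g__wQ_26_wN_1_rb803309451e0b18_0

theorem g_wQ_26_wN_1_rb803309451e0b15v1 : GoodKC AS c_wQ_26_wN_1_rb803309451e0b15v1 := p_wQ_26_wN_1_rb803309451e0b15

theorem g_wQ_26_wN_1_rb803309451e0b14v1 : GoodKC AS c_wQ_26_wN_1_rb803309451e0b14v1 := p_wQ_26_wN_1_rb803309451e0b14

theorem g_wQ_26_wN_1_rb803309451e0b13v1 : GoodKC AS c_wQ_26_wN_1_rb803309451e0b13v1 := p_wQ_26_wN_1_rb803309451e0b13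

theorem g__wQ_26_wN_1_rb803309451e0b10_1 : GoodKC AS k_wQ_26_wN_1_rb803309451e0b10_1 := p_wQ_26_wN_1_rb803309451e0b10_1

theorem g__wQ_26_wN_1_rb803309451e0b10_0 : GoodKC AS k_wQ_26_wN_1_rb803309451e0b10_0 := p_wQ_26_wN_1_rb803309451e0b10_0 g__wQ_26_wN_1_rb803309451e0b10_1

theorem g_wQ_26_wN_1_rb803309451e0b10v1 : GoodKC AS c_wQ_26_wN_1_rb803309451e0b10v1 := p_wQ_26_wN_1_rb803309451e0b10 g__wQ_26_wN_1_rb803309451e0b10_0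

theorem g_wQ_26_wN_1_rb803309451e0b0fv1 : GoodKC AS c_wQ_26_wN_1_rb803309451e0b0fv1 := p_wQ_26_wN_1_rb803309451e0b0f

theorem g_wQ_26_wN_1_rb803309451e0b0ev1 : GoodKC AS c_wQ_26_wN_1_rb803309451e0b0ev1 := p_wQ_26_wN_1_rb803309451e0b0e

theorem g_wQ_26_wN_1_rb803309451e0b0dv1 : GoodKC AS c_wQ_26_wN_1_rb803309451e0b0dv1 := p_wQ_26_wN_1_rb803309451e0b0d

theorem g_wQ_26_wN_1_rb803309451e0b0cv1 : GoodKC AS c_wQ_26_wN_1_rb803309451e0b0cv1 := p_wQ_26_wN_1_rb803309451e0b0c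

theorem g_wQ_26_wN_1_rb803309451e0b0bv1 : GoodKC AS c_wQ_26_wN_1_rb803309451e0b0bv1 := p_wQ_26_wN_1_rb803309451e0b0b

theorem g_wQ_26_wN_1_rb803309451e0b09v1 : GoodKC AS c_wQ_26_wN_1_rb803309451e0b09v1 := p_wQ_26_wN_1_rb803309451e0b09

theorem g_wQ_26_wN_1_rb803309451e0b08v1 : GoodKC AS c_wQ_26_wN_1_rb803309451e0b08v1 := p_wQ_26_wN_1_rb803309451e0b08

theorem g_wQ_26_wN_1_rb803309451e0b05v1 : GoodKC AS c_wQ_26_wN_1_rb803309451e0b05v1 := p_wQ_26_wN_1_rb803309451e0b05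

theorem g_wQ_26_wN_1_rb803309451e0b03v1 : GoodKC AS c_wQ_26_wN_1_rb803309451e0b03v1 := p_wQ_26_wN_1_rb803309451e0b03

theorem g_wQ_26_wN_1_rb803309451e0b01v1 : GoodKC AS c_wQ_26_wN_1_rb803309451e0b01v1 := p_wQ_26_wN_1_rb803309451e0b01

theorem g_wQ_26_wN_1_rb803309451e0b00v1 : GoodKC AS c_wQ_26_wN_1_rb803309451e0b00v1 := p_wQ_26_wN_1_rb803309451e0b00

theorem g_wQ_26_wN_1_rb803309451e0b02v1 : GoodKC AS c_wQ_26_wN_1_rb803309451e0b02v1 := p_wQ_26_wN_1_rb803309451e0b02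

theorem g_wQ_26_wN_1_rb803309451e0b04v1 : GoodKC AS c_wQ_26_wN_1_rb803309451e0b04v1 := p_wQ_26_wN_1_rb803309451e0b04

theorem g_wQ_26_wN_1_rb803309451e0b06v1 : GoodKC AS c_wQ_26_wN_1_rb803309451e0b06v1 := p_wQ_26_wN_1_rb803309451e0b06

theorem g_wQ_26_wN_1_rb803309451e0b07v1 : GoodKC AS c_wQ_26_wN_1_rb803309451e0b07v1 := p_wQ_26_wN_1_rb803309451e0b07

theorem g_wQ_26_wN_1_rb803309451e0b0av1 : GoodKC AS c_wQ_26_wN_1_rb803309451e0b0av1 := p_wQ_26_wN_1_rb803309451e0b0a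

theorem g_wQ_26_wN_1_rb803309451e0b11v1 : GoodKC AS c_wQ_26_wN_1_rb803309451e0b11v1 := p_wQ_26_wN_1_rb803309451e0b11

theorem g_wQ_26_wN_1_rb803309451e0b12v1 : GoodKC AS c_wQ_26_wN_1_rb803309451e0b12v1 := p_wQ_26_wN_1_rb803309451e0b12

theorem g__wQ_26_wN_1_rb803309451e0b16_0 : GoodKC AS k_wQ_26_wN_1_rb803309451e0b16_0 := p_wQ_26_wN_1_rb803309451e0b16_0

theorem g_wQ_26_wN_1_rb803309451e0b16v1 : GoodKC AS c_wQ_26_wN_1_rb803309451e0b16v1 := p_wQ_26_wN_1_rb803309451e0b16 g__wQ_26_wN_1_rb803309451e0b16_0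

theorem g_wQ_26_wN_1_rb803309451e0b17v1 : GoodKC AS c_wQ_26_wN_1_rb803309451e0b17v1 := p_wQ_26_wN_1_rb803309451e0b17

theorem g__wQ_26_wN_1_rb803309451e0b19_0 : GoodKC AS k_wQ_26_wN_1_rb803309451e0b19_0 := p_wQ_26_wN_1_rb803309451e0b19_0

theorem g_wQ_26_wN_1_rb803309451e0b19v1 : GoodKC AS c_wQ_26_wN_1_rb803309451e0b19v1 := p_wQ_26_wN_1_rb803309451e0b19 g__wQ_26_wN_1_rb803309451e0b19_0

theorem g__wQ_26_wN_1_rb803309451e0b1b_0 : GoodKC AS k_wQ_26_wN_1_rb803309451e0b1b_0 := p_wQ_26_wN_1_rb803309451e0b1b_0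

theorem g_wQ_26_wN_1_rb803309451e0b1bv1 : GoodKC AS c_wQ_26_wN_1_rb803309451e0b1bv1 := p_wQ_26_wN_1_rb803309451e0b1b g__wQ_26_wN_1_rb803309451e0b1b_0

theorem g__wQ_26_wN_1_rb803309451e0bv1_0 : GoodKC AS k_wQ_26_wN_1_rb803309451e0bv1_0 := p_wQ_26_wN_1_rb803309451e0bv1_0

theorem g__wQ_26_wN_1_rb803309451e0bv1_8 : GoodKC AS k_wQ_26_wN_1_rb803309451e0bv1_8 := p_wQ_26_wN_1_rb803309451e0bv1_8

theorem g__wQ_26_wN_1_rb803309451e0bv1_7 : GoodKC AS k_wQ_26_wN_1_rb803309451e0bv1_7 := p_wQ_26_wN_1_rb803309451e0bv1_7 g__wQ_26_wN_1_rb803309451e0bv1_8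

theorem g__wQ_26_wN_1_rb803309451e0bv1_9 : GoodKC AS k_wQ_26_wN_1_rb803309451e0bv1_9 := p_wQ_26_wN_1_rb803309451e0bv1_9

theorem g__wQ_26_wN_1_rb803309451e0bv1_10 : GoodKC AS k_wQ_26_wN_1_rb803309451e0bv1_10 := p_wQ_26_wN_1_rb803309451e0bv1_10

theorem g__wQ_26_wN_1_rb803309451e0bv1_6 : GoodKC AS k_wQ_26_wN_1_rb803309451e0bv1_6 := p_wQ_26_wN_1_rb803309451e0bv1_6 g__wQ_26_wN_1_rb803309451e0bv1_7 g__wQ_26_wN_1_rb803309451e0bv1_9 g__wQ_26_wN_1_rb803309451e0bv1_10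

theorem g__wQ_26_wN_1_rb803309451e0bv1_5 : GoodKC AS k_wQ_26_wN_1_rb803309451e0bv1_5 := p_wQ_26_wN_1_rb803309451e0bv1_5 g__wQ_26_wN_1_rb803309451e0bv1_6

theorem g__wQ_26_wN_1_rb803309451e0bv1_4 : GoodKC AS k_wQ_26_wN_1_rb803309451e0bv1_4 := p_wQ_26_wN_1_rb803309451e0bv1_4 g__wQ_26_wN_1_rb803309451e0bv1_5

theorem g__wQ_26_wN_1_rb803309451e0bv1_11 : GoodKC AS k_wQ_26_wN_1_rb803309451e0bv1_11 := p_wQ_26_wN_1_rb803309451e0bv1_11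

theorem g__wQ_26_wN_1_rb803309451e0bv1_3 : GoodKC AS k_wQ_26_wN_1_rb803309451e0bv1_3 := p_wQ_26_wN_1_rb803309451e0bv1_3 g__wQ_26_wN_1_rb803309451e0bv1_4 g__wQ_26_wN_1_rb803309451e0bv1_11

theorem g__wQ_26_wN_1_rb803309451e0bv1_15 : GoodKC AS k_wQ_26_wN_1_rb803309451e0bv1_15 := p_wQ_26_wN_1_rb803309451e0bv1_15

theorem g__wQ_26_wN_1_rb803309451e0bv1_14 : GoodKC AS k_wQ_26_wN_1_rb803309451e0bv1_14 := p_wQ_26_wN_1_rb803309451e0bv1_14 g__wQ_26_wN_1_rb803309451e0bv1_15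

theorem g__wQ_26_wN_1_rb803309451e0bv1_17 : GoodKC AS k_wQ_26_wN_1_rb803309451e0bv1_17 := p_wQ_26_wN_1_rb803309451e0bv1_17

theorem g__wQ_26_wN_1_rb803309451e0bv1_18 : GoodKC AS k_wQ_26_wN_1_rb803309451e0bv1_18 := p_wQ_26_wN_1_rb803309451e0bv1_18

theorem g__wQ_26_wN_1_rb803309451e0bv1_16 : GoodKC AS k_wQ_26_wN_1_rb803309451e0bv1_16 := p_wQ_26_wN_1_rb803309451e0bv1_16 g__wQ_26_wN_1_rb803309451e0bv1_17 g__wQ_26_wN_1_rb803309451e0bv1_18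

theorem g__wQ_26_wN_1_rb803309451e0bv1_13 : GoodKC AS k_wQ_26_wN_1_rb803309451e0bv1_13 := p_wQ_26_wN_1_rb803309451e0bv1_13 g__wQ_26_wN_1_rb803309451e0bv1_14 g__wQ_26_wN_1_rb803309451e0bv1_16

theorem g__wQ_26_wN_1_rb803309451e0bv1_12 : GoodKC AS k_wQ_26_wN_1_rb803309451e0bv1_12 := p_wQ_26_wN_1_rb803309451e0bv1_12 g__wQ_26_wN_1_rb803309451e0bv1_13

theorem g__wQ_26_wN_1_rb803309451e0bv1_2 : GoodKC AS k_wQ_26_wN_1_rb803309451e0bv1_2 := p_wQ_26_wN_1_rb803309451e0bv1_2 g__wQ_26_wN_1_rb803309451e0bv1_3 g__wQ_26_wN_1_rb803309451e0bv1_12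

theorem g__wQ_26_wN_1_rb803309451e0bv1_1 : GoodKC AS k_wQ_26_wN_1_rb803309451e0bv1_1 := p_wQ_26_wN_1_rb803309451e0bv1_1 g__wQ_26_wN_1_rb803309451e0bv1_2

theorem g__wQ_26_wN_1_rb803309451e0bv1_19 : GoodKC AS k_wQ_26_wN_1_rb803309451e0bv1_19 := p_wQ_26_wN_1_rb803309451e0bv1_19

theorem g_wQ_26_wN_1_rb803309451e0bx1 : GoodKC AS c_wQ_26_wN_1_rb803309451e0bx1 := p_wQ_26_wN_1_rb803309451e0bv1 g_wQ_26_wN_1_rb803309451e0b1av1 g_wQ_26_wN_1_rb803309451e0b18v1 g_wQ_26_wN_1_rb803309451e0b15v1 g_wQ_26_wN_1_rb803309451e0b14v1 g_wQ_26_wN_1_rb803309451e0b13v1 g_wQ_26_wN_1_rb803309451e0b10v1 g_wQ_26_wN_1_rb803309451e0b0fv1 g_wQ_26_wN_1_rb803309451e0b0ev1 g_wQ_26_wN_1_rb803309451e0b0dv1 g_wQ_26_wN_1_rb803309451e0b0cv1 g_wQ_26_wN_1_rb803309451e0b0bv1 g_wQ_26_wN_1_rb803309451e0b09v1 g_wQ_26_wN_1_rb803309451e0b08v1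 g_wQ_26_wN_1_rb803309451e0b05v1 g_wQ_26_wN_1_rb803309451e0b03v1 g_wQ_26_wN_1_rb803309451e0b01v1 g_wQ_26_wN_1_rb803309451e0b00v1 g_wQ_26_wN_1_rb803309451e0b02v1 g_wQ_26_wN_1_rb803309451e0b04v1 g_wQ_26_wN_1_rb803309451e0b06v1 g_wQ_26_wN_1_rb803309451e0b07v1 g_wQ_26_wN_1_rb803309451e0b0av1 g_wQ_26_wN_1_rb803309451e0b11v1 g_wQ_26_wN_1_rb803309451e0b12v1 g_wQ_26_wN_1_rb803309451e0b16v1 g_wQ_26_wN_1_rb803309451e0b17v1 g_wQ_26_wN_1_rb803309451e0b19v1 g_wQ_26_wN_1_rb803309451e0b1bv1 g__wQ_26_wN_1_rb803309451e0bv1_0 g__wQ_26_wN_1_rb803309451e0bv1_1 g__wQ_26_wN_1_rb803309451e0bv1_19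

theorem g_wQ_26_wN_1_rb803309451ex5 : GoodKC AS c_wQ_26_wN_1_rb803309451ex5 := p_wQ_26_wN_1_rb803309451ex1 g_wQ_26_wN_1_rb803309451e0ax1 g_wQ_26_wN_1_rb803309451e07x1 g_wQ_26_wN_1_rb803309451e06x1 g_wQ_26_wN_1_rb803309451e05x1 g_wQ_26_wN_1_rb803309451e04x1 g_wQ_26_wN_1_rb803309451e03x1 g__wQ_26_wN_1_rb803309451ex1_0 g_wQ_26_wN_1_rb803309451e00x1 g_wQ_26_wN_1_rb803309451e01x1 g_wQ_26_wN_1_rb803309451e02x1 g_wQ_26_wN_1_rb803309451e08x1 g_wQ_26_wN_1_rb803309451e09x1 g_wQ_26_wN_1_rb803309451e0bx1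

theorem g_wQ_26_wN_1_rb80330945x7 : GoodKC AS c_wQ_26_wN_1_rb80330945x7 := p_wQ_26_wN_1_rb80330945x5 g_wQ_26_wN_1_rb803309451cx5 g_wQ_26_wN_1_rb803309451bx5 g_wQ_26_wN_1_rb803309451ax5 g_wQ_26_wN_1_rb8033094518x5 g_wQ_26_wN_1_rb8033094517x5 g_wQ_26_wN_1_rb8033094512x5 g_wQ_26_wN_1_rb803309450fx5 g_wQ_26_wN_1_rb803309450ex5 g_wQ_26_wN_1_rb803309450dx5 g_wQ_26_wN_1_rb803309450bx5 g_wQ_26_wN_1_rb803309450ax5 g_wQ_26_wN_1_rb8033094508x5 g_wQ_26_wN_1_rb8033094507x5 g_wQ_26_wN_1_rb8033094506x5 g_wQ_26_wN_1_rb8033094505x5 g_wQ_26_wN_1_rb8033094503x5 g_wQ_26_wN_1_rb8033094502x5 g_wQ_26_wN_1_rb8033094501x5 g_wQ_26_wN_1_rb8033094504x5 g_wQ_26_wN_1_rb8033094509x5 g_wQ_26_wN_1_rb803309450cx5 g_wQ_26_wN_1_rb8033094510x5 g_wQ_26_wN_1_rb8033094511x5 g_wQ_26_wN_1_rb8033094513x5 g_wQ_26_wN_1_rb8033094514x5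 g_wQ_26_wN_1_rb8033094515x5 g__wQ_26_wN_1_rb80330945x5_0 g__wQ_26_wN_1_rb80330945x5_1 g__wQ_26_wN_1_rb80330945x5_3 g__wQ_26_wN_1_rb80330945x5_4 g_wQ_26_wN_1_rb8033094500x5 g_wQ_26_wN_1_rb8033094516x5 g_wQ_26_wN_1_rb8033094519x5 g_wQ_26_wN_1_rb803309451dx5 g_wQ_26_wN_1_rb803309451ex5

theorem g_wQ_26_wN_1_rb80330948x7 : GoodKC AS c_wQ_26_wN_1_rb80330948x7 := p_wQ_26_wN_1_rb80330948x3

theorem g_wQ_26_wN_1_rb803309x2 : GoodKC AS c_wQ_26_wN_1_rb803309x2 := p_wQ_26_wN_1_rb803309x7 g_wQ_26_wN_1_rb8033094ax7 g_wQ_26_wN_1_rb80330949x7 g_wQ_26_wN_1_rb80330947x7 g_wQ_26_wN_1_rb80330946x7 g_wQ_26_wN_1_rb80330943x7 g_wQ_26_wN_1_rb80330942x7 g_wQ_26_wN_1_rb80330941x7 g_wQ_26_wN_1_rb8033093fx7 g_wQ_26_wN_1_rb8033093ex7 g_wQ_26_wN_1_rb8033093dx7 g_wQ_26_wN_1_rb8033093ax7 g_wQ_26_wN_1_rb80330935x7 g_wQ_26_wN_1_rb80330934x7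 g__wQ_26_wN_1_rb803309x7_0 g__wQ_26_wN_1_rb803309x7_34 g_wQ_26_wN_1_rb80330936x7 g_wQ_26_wN_1_rb80330937x7 g_wQ_26_wN_1_rb80330938x7 g_wQ_26_wN_1_rb80330939x7 g_wQ_26_wN_1_rb8033093bx7 g_wQ_26_wN_1_rb8033093cx7 g_wQ_26_wN_1_rb80330940x7 g_wQ_26_wN_1_rb80330944x7 g_wQ_26_wN_1_rb80330945x7 g_wQ_26_wN_1_rb80330948x7

theorem g__wQ_26_wN_1_rb8033081431x2_0 : GoodKC AS k_wQ_26_wN_1_rb8033081431x2_0 := p_wQ_26_wN_1_rb8033081431x2_0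

theorem g__wQ_26_wN_1_rb8033081431x2_3 : GoodKC AS k_wQ_26_wN_1_rb8033081431x2_3 := p_wQ_26_wN_1_rb8033081431x2_3

theorem g__wQ_26_wN_1_rb8033081431x2_2 : GoodKC AS k_wQ_26_wN_1_rb8033081431x2_2 := p_wQ_26_wN_1_rb8033081431x2_2 g__wQ_26_wN_1_rb8033081431x2_3

theorem g__wQ_26_wN_1_rb8033081431x2_1 : GoodKC AS k_wQ_26_wN_1_rb8033081431x2_1 := p_wQ_26_wN_1_rb8033081431x2_1 g__wQ_26_wN_1_rb8033081431x2_2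

theorem g__wQ_26_wN_1_rb8033081431x2_9 : GoodKC AS k_wQ_26_wN_1_rb8033081431x2_9 := p_wQ_26_wN_1_rb8033081431x2_9

theorem g__wQ_26_wN_1_rb8033081431x2_8 : GoodKC AS k_wQ_26_wN_1_rb8033081431x2_8 := p_wQ_26_wN_1_rb8033081431x2_8 g__wQ_26_wN_1_rb8033081431x2_9

theorem g__wQ_26_wN_1_rb8033081431x2_10 : GoodKC AS k_wQ_26_wN_1_rb8033081431x2_10 := p_wQ_26_wN_1_rb8033081431x2_10

theorem g__wQ_26_wN_1_rb8033081431x2_7 : GoodKC AS k_wQ_26_wN_1_rb8033081431x2_7 := p_wQ_26_wN_1_rb8033081431x2_7 g__wQ_26_wN_1_rb8033081431x2_8 g__wQ_26_wN_1_rb8033081431x2_10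

theorem g__wQ_26_wN_1_rb8033081431x2_11 : GoodKC AS k_wQ_26_wN_1_rb8033081431x2_11 := p_wQ_26_wN_1_rb8033081431x2_11

theorem g__wQ_26_wN_1_rb8033081431x2_14 : GoodKC AS k_wQ_26_wN_1_rb8033081431x2_14 := p_wQ_26_wN_1_rb8033081431x2_14

theorem g__wQ_26_wN_1_rb8033081431x2_13 : GoodKC AS k_wQ_26_wN_1_rb8033081431x2_13 := p_wQ_26_wN_1_rb8033081431x2_13 g__wQ_26_wN_1_rb8033081431x2_14

theorem g__wQ_26_wN_1_rb8033081431x2_18 : GoodKC AS k_wQ_26_wN_1_rb8033081431x2_18 := p_wQ_26_wN_1_rb8033081431x2_18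

theorem g__wQ_26_wN_1_rb8033081431x2_17 : GoodKC AS k_wQ_26_wN_1_rb8033081431x2_17 := p_wQ_26_wN_1_rb8033081431x2_17 g__wQ_26_wN_1_rb8033081431x2_18

theorem g__wQ_26_wN_1_rb8033081431x2_22 : GoodKC AS k_wQ_26_wN_1_rb8033081431x2_22 := p_wQ_26_wN_1_rb8033081431x2_22

theorem g__wQ_26_wN_1_rb8033081431x2_21 : GoodKC AS k_wQ_26_wN_1_rb8033081431x2_21 := p_wQ_26_wN_1_rb8033081431x2_21 g__wQ_26_wN_1_rb8033081431x2_22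

theorem g__wQ_26_wN_1_rb8033081431x2_20 : GoodKC AS k_wQ_26_wN_1_rb8033081431x2_20 := p_wQ_26_wN_1_rb8033081431x2_20 g__wQ_26_wN_1_rb8033081431x2_21

theorem g__wQ_26_wN_1_rb8033081431x2_19 : GoodKC AS k_wQ_26_wN_1_rb8033081431x2_19 := p_wQ_26_wN_1_rb8033081431x2_19 g__wQ_26_wN_1_rb8033081431x2_20

theorem g__wQ_26_wN_1_rb8033081431x2_23 : GoodKC AS k_wQ_26_wN_1_rb8033081431x2_23 := p_wQ_26_wN_1_rb8033081431x2_23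

theorem g__wQ_26_wN_1_rb8033081431x2_16 : GoodKC AS k_wQ_26_wN_1_rb8033081431x2_16 := p_wQ_26_wN_1_rb8033081431x2_16 g__wQ_26_wN_1_rb8033081431x2_17 g__wQ_26_wN_1_rb8033081431x2_19 g__wQ_26_wN_1_rb8033081431x2_23

theorem g__wQ_26_wN_1_rb8033081431x2_15 : GoodKC AS k_wQ_26_wN_1_rb8033081431x2_15 := p_wQ_26_wN_1_rb8033081431x2_15 g__wQ_26_wN_1_rb8033081431x2_16

theorem g__wQ_26_wN_1_rb8033081431x2_24 : GoodKC AS k_wQ_26_wN_1_rb8033081431x2_24 := p_wQ_26_wN_1_rb8033081431x2_24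

theorem g__wQ_26_wN_1_rb8033081431x2_12 : GoodKC AS k_wQ_26_wN_1_rb8033081431x2_12 := p_wQ_26_wN_1_rb8033081431x2_12 g__wQ_26_wN_1_rb8033081431x2_13 g__wQ_26_wN_1_rb8033081431x2_15 g__wQ_26_wN_1_rb8033081431x2_24

theorem g__wQ_26_wN_1_rb8033081431x2_25 : GoodKC AS k_wQ_26_wN_1_rb8033081431x2_25 := p_wQ_26_wN_1_rb8033081431x2_25

theorem g__wQ_26_wN_1_rb8033081431x2_6 : GoodKC AS k_wQ_26_wN_1_rb8033081431x2_6 := p_wQ_26_wN_1_rb8033081431x2_6 g__wQ_26_wN_1_rb8033081431x2_7 g__wQ_26_wN_1_rb8033081431x2_11 g__wQ_26_wN_1_rb8033081431x2_12 g__wQ_26_wN_1_rb8033081431x2_25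

theorem g__wQ_26_wN_1_rb8033081431x2_27 : GoodKC AS k_wQ_26_wN_1_rb8033081431x2_27 := p_wQ_26_wN_1_rb8033081431x2_27

theorem g__wQ_26_wN_1_rb8033081431x2_29 : GoodKC AS k_wQ_26_wN_1_rb8033081431x2_29 := p_wQ_26_wN_1_rb8033081431x2_29

theorem g__wQ_26_wN_1_rb8033081431x2_28 : GoodKC AS k_wQ_26_wN_1_rb8033081431x2_28 := p_wQ_26_wN_1_rb8033081431x2_28 g__wQ_26_wN_1_rb8033081431x2_29

theorem g__wQ_26_wN_1_rb8033081431x2_26 : GoodKC AS k_wQ_26_wN_1_rb8033081431x2_26 := p_wQ_26_wN_1_rb8033081431x2_26 g__wQ_26_wN_1_rb8033081431x2_27 g__wQ_26_wN_1_rb8033081431x2_28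

theorem g__wQ_26_wN_1_rb8033081431x2_30 : GoodKC AS k_wQ_26_wN_1_rb8033081431x2_30 := p_wQ_26_wN_1_rb8033081431x2_30

theorem g__wQ_26_wN_1_rb8033081431x2_5 : GoodKC AS k_wQ_26_wN_1_rb8033081431x2_5 := p_wQ_26_wN_1_rb8033081431x2_5 g__wQ_26_wN_1_rb8033081431x2_6 g__wQ_26_wN_1_rb8033081431x2_26 g__wQ_26_wN_1_rb8033081431x2_30

theorem g__wQ_26_wN_1_rb8033081431x2_4 : GoodKC AS k_wQ_26_wN_1_rb8033081431x2_4 := p_wQ_26_wN_1_rb8033081431x2_4 g__wQ_26_wN_1_rb8033081431x2_5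

theorem g__wQ_26_wN_1_rb803308143100v2_0 : GoodKC AS k_wQ_26_wN_1_rb803308143100v2_0 := p_wQ_26_wN_1_rb803308143100v2_0

theorem g__wQ_26_wN_1_rb803308143100v2_1 : GoodKC AS k_wQ_26_wN_1_rb803308143100v2_1 := p_wQ_26_wN_1_rb803308143100v2_1

theorem g_wQ_26_wN_1_rb803308143100x2 : GoodKC AS c_wQ_26_wN_1_rb803308143100x2 := p_wQ_26_wN_1_rb803308143100x2 g__wQ_26_wN_1_rb803308143100v2_0 g__wQ_26_wN_1_rb803308143100v2_1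

theorem g_wQ_26_wN_1_rb8033081431x3 : GoodKC AS c_wQ_26_wN_1_rb8033081431x3 := p_wQ_26_wN_1_rb8033081431x2 g__wQ_26_wN_1_rb8033081431x2_0 g__wQ_26_wN_1_rb8033081431x2_1 g__wQ_26_wN_1_rb8033081431x2_4 g_wQ_26_wN_1_rb803308143100x2

theorem g__wQ_26_wN_1_rb803308142fx3_3 : GoodKC AS k_wQ_26_wN_1_rb803308142fx3_3 := p_wQ_26_wN_1_rb803308142fx3_3

theorem g__wQ_26_wN_1_rb803308142fx3_2 : GoodKC AS k_wQ_26_wN_1_rb803308142fx3_2 := p_wQ_26_wN_1_rb803308142fx3_2 g__wQ_26_wN_1_rb803308142fx3_3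

theorem g__wQ_26_wN_1_rb803308142fx3_1 : GoodKC AS k_wQ_26_wN_1_rb803308142fx3_1 := p_wQ_26_wN_1_rb803308142fx3_1 g__wQ_26_wN_1_rb803308142fx3_2

theorem g__wQ_26_wN_1_rb803308142fx3_0 : GoodKC AS k_wQ_26_wN_1_rb803308142fx3_0 := p_wQ_26_wN_1_rb803308142fx3_0 g__wQ_26_wN_1_rb803308142fx3_1

theorem g_wQ_26_wN_1_rb803308142fx3 : GoodKC AS c_wQ_26_wN_1_rb803308142fx3 := p_wQ_26_wN_1_rb803308142fx3 g__wQ_26_wN_1_rb803308142fx3_0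

theorem g_wQ_26_wN_1_rb803308142ex3 : GoodKC AS c_wQ_26_wN_1_rb803308142ex3 := p_wQ_26_wN_1_rb803308142ex3

theorem g_wQ_26_wN_1_rb803308142cx3 : GoodKC AS c_wQ_26_wN_1_rb803308142cx3 := p_wQ_26_wN_1_rb803308142cx3

theorem g_wQ_26_wN_1_rb803308142ax3 : GoodKC AS c_wQ_26_wN_1_rb803308142ax3 := p_wQ_26_wN_1_rb803308142ax3

theorem g_wQ_26_wN_1_rb8033081429x3 : GoodKC AS c_wQ_26_wN_1_rb8033081429x3 := p_wQ_26_wN_1_rb8033081429x3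

theorem g_wQ_26_wN_1_rb8033081426x3 : GoodKC AS c_wQ_26_wN_1_rb8033081426x3 := p_wQ_26_wN_1_rb8033081426x3

theorem g_wQ_26_wN_1_rb8033081424x3 : GoodKC AS c_wQ_26_wN_1_rb8033081424x3 := p_wQ_26_wN_1_rb8033081424x3

theorem g__wQ_26_wN_1_rb8033081423x3_0 : GoodKC AS k_wQ_26_wN_1_rb8033081423x3_0 := p_wQ_26_wN_1_rb8033081423x3_0

theorem g_wQ_26_wN_1_rb8033081423x3 : GoodKC AS c_wQ_26_wN_1_rb8033081423x3 := p_wQ_26_wN_1_rb8033081423x3 g__wQ_26_wN_1_rb8033081423x3_0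

theorem g_wQ_26_wN_1_rb8033081422x3 : GoodKC AS c_wQ_26_wN_1_rb8033081422x3 := p_wQ_26_wN_1_rb8033081422x3

theorem g__wQ_26_wN_1_rb8033081421x2_2 : GoodKC AS k_wQ_26_wN_1_rb8033081421x2_2 := p_wQ_26_wN_1_rb8033081421x2_2

theorem g__wQ_26_wN_1_rb8033081421x2_1 : GoodKC AS k_wQ_26_wN_1_rb8033081421x2_1 := p_wQ_26_wN_1_rb8033081421x2_1 g__wQ_26_wN_1_rb8033081421x2_2

theorem g__wQ_26_wN_1_rb8033081421x2_4 : GoodKC AS k_wQ_26_wN_1_rb8033081421x2_4 := p_wQ_26_wN_1_rb8033081421x2_4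

theorem g__wQ_26_wN_1_rb8033081421x2_7 : GoodKC AS k_wQ_26_wN_1_rb8033081421x2_7 := p_wQ_26_wN_1_rb8033081421x2_7

theorem g__wQ_26_wN_1_rb8033081421x2_6 : GoodKC AS k_wQ_26_wN_1_rb8033081421x2_6 := p_wQ_26_wN_1_rb8033081421x2_6 g__wQ_26_wN_1_rb8033081421x2_7

theorem g__wQ_26_wN_1_rb8033081421x2_5 : GoodKC AS k_wQ_26_wN_1_rb8033081421x2_5 := p_wQ_26_wN_1_rb8033081421x2_5 g__wQ_26_wN_1_rb8033081421x2_6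

theorem g__wQ_26_wN_1_rb8033081421x2_3 : GoodKC AS k_wQ_26_wN_1_rb8033081421x2_3 := p_wQ_26_wN_1_rb8033081421x2_3 g__wQ_26_wN_1_rb8033081421x2_4 g__wQ_26_wN_1_rb8033081421x2_5

theorem g__wQ_26_wN_1_rb8033081421x2_10 : GoodKC AS k_wQ_26_wN_1_rb8033081421x2_10 := p_wQ_26_wN_1_rb8033081421x2_10

theorem g__wQ_26_wN_1_rb8033081421x2_15 : GoodKC AS k_wQ_26_wN_1_rb8033081421x2_15 := p_wQ_26_wN_1_rb8033081421x2_15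

theorem g__wQ_26_wN_1_rb8033081421x2_14 : GoodKC AS k_wQ_26_wN_1_rb8033081421x2_14 := p_wQ_26_wN_1_rb8033081421x2_14 g__wQ_26_wN_1_rb8033081421x2_15

theorem g__wQ_26_wN_1_rb8033081421x2_13 : GoodKC AS k_wQ_26_wN_1_rb8033081421x2_13 := p_wQ_26_wN_1_rb8033081421x2_13 g__wQ_26_wN_1_rb8033081421x2_14

theorem g__wQ_26_wN_1_rb8033081421x2_12 : GoodKC AS k_wQ_26_wN_1_rb8033081421x2_12 := p_wQ_26_wN_1_rb8033081421x2_12 g__wQ_26_wN_1_rb8033081421x2_13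

theorem g__wQ_26_wN_1_rb8033081421x2_19 : GoodKC AS k_wQ_26_wN_1_rb8033081421x2_19 := p_wQ_26_wN_1_rb8033081421x2_19

theorem g__wQ_26_wN_1_rb8033081421x2_18 : GoodKC AS k_wQ_26_wN_1_rb8033081421x2_18 := p_wQ_26_wN_1_rb8033081421x2_18 g__wQ_26_wN_1_rb8033081421x2_19

theorem g__wQ_26_wN_1_rb8033081421x2_17 : GoodKC AS k_wQ_26_wN_1_rb8033081421x2_17 := p_wQ_26_wN_1_rb8033081421x2_17 g__wQ_26_wN_1_rb8033081421x2_18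

theorem g__wQ_26_wN_1_rb8033081421x2_16 : GoodKC AS k_wQ_26_wN_1_rb8033081421x2_16 := p_wQ_26_wN_1_rb8033081421x2_16 g__wQ_26_wN_1_rb8033081421x2_17

theorem g__wQ_26_wN_1_rb8033081421x2_11 : GoodKC AS k_wQ_26_wN_1_rb8033081421x2_11 := p_wQ_26_wN_1_rb8033081421x2_11 g__wQ_26_wN_1_rb8033081421x2_12 g__wQ_26_wN_1_rb8033081421x2_16

theorem g__wQ_26_wN_1_rb8033081421x2_9 : GoodKC AS k_wQ_26_wN_1_rb8033081421x2_9 := p_wQ_26_wN_1_rb8033081421x2_9 g__wQ_26_wN_1_rb8033081421x2_10 g__wQ_26_wN_1_rb8033081421x2_11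

theorem g__wQ_26_wN_1_rb8033081421x2_26 : GoodKC AS k_wQ_26_wN_1_rb8033081421x2_26 := p_wQ_26_wN_1_rb8033081421x2_26

theorem g__wQ_26_wN_1_rb8033081421x2_25 : GoodKC AS k_wQ_26_wN_1_rb8033081421x2_25 := p_wQ_26_wN_1_rb8033081421x2_25 g__wQ_26_wN_1_rb8033081421x2_26

theorem g__wQ_26_wN_1_rb8033081421x2_24 : GoodKC AS k_wQ_26_wN_1_rb8033081421x2_24 := p_wQ_26_wN_1_rb8033081421x2_24 g__wQ_26_wN_1_rb8033081421x2_25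

theorem g__wQ_26_wN_1_rb8033081421x2_33 : GoodKC AS k_wQ_26_wN_1_rb8033081421x2_33 := p_wQ_26_wN_1_rb8033081421x2_33

theorem g__wQ_26_wN_1_rb8033081421x2_32 : GoodKC AS k_wQ_26_wN_1_rb8033081421x2_32 := p_wQ_26_wN_1_rb8033081421x2_32 g__wQ_26_wN_1_rb8033081421x2_33

theorem g__wQ_26_wN_1_rb8033081421x2_31 : GoodKC AS k_wQ_26_wN_1_rb8033081421x2_31 := p_wQ_26_wN_1_rb8033081421x2_31 g__wQ_26_wN_1_rb8033081421x2_32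

theorem g__wQ_26_wN_1_rb8033081421x2_30 : GoodKC AS k_wQ_26_wN_1_rb8033081421x2_30 := p_wQ_26_wN_1_rb8033081421x2_30 g__wQ_26_wN_1_rb8033081421x2_31

theorem g__wQ_26_wN_1_rb8033081421x2_29 : GoodKC AS k_wQ_26_wN_1_rb8033081421x2_29 := p_wQ_26_wN_1_rb8033081421x2_29 g__wQ_26_wN_1_rb8033081421x2_30

theorem g__wQ_26_wN_1_rb8033081421x2_28 : GoodKC AS k_wQ_26_wN_1_rb8033081421x2_28 := p_wQ_26_wN_1_rb8033081421x2_28 g__wQ_26_wN_1_rb8033081421x2_29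

theorem g__wQ_26_wN_1_rb8033081421x2_27 : GoodKC AS k_wQ_26_wN_1_rb8033081421x2_27 := p_wQ_26_wN_1_rb8033081421x2_27 g__wQ_26_wN_1_rb8033081421x2_28

theorem g__wQ_26_wN_1_rb8033081421x2_23 : GoodKC AS k_wQ_26_wN_1_rb8033081421x2_23 := p_wQ_26_wN_1_rb8033081421x2_23 g__wQ_26_wN_1_rb8033081421x2_24 g__wQ_26_wN_1_rb8033081421x2_27

theorem g__wQ_26_wN_1_rb8033081421x2_36 : GoodKC AS k_wQ_26_wN_1_rb8033081421x2_36 := p_wQ_26_wN_1_rb8033081421x2_36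

theorem g__wQ_26_wN_1_rb8033081421x2_35 : GoodKC AS k_wQ_26_wN_1_rb8033081421x2_35 := p_wQ_26_wN_1_rb8033081421x2_35 g__wQ_26_wN_1_rb8033081421x2_36

theorem g__wQ_26_wN_1_rb8033081421x2_37 : GoodKC AS k_wQ_26_wN_1_rb8033081421x2_37 := p_wQ_26_wN_1_rb8033081421x2_37

theorem g__wQ_26_wN_1_rb8033081421x2_34 : GoodKC AS k_wQ_26_wN_1_rb8033081421x2_34 := p_wQ_26_wN_1_rb8033081421x2_34 g__wQ_26_wN_1_rb8033081421x2_35 g__wQ_26_wN_1_rb8033081421x2_37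

theorem g__wQ_26_wN_1_rb8033081421x2_22 : GoodKC AS k_wQ_26_wN_1_rb8033081421x2_22 := p_wQ_26_wN_1_rb8033081421x2_22 g__wQ_26_wN_1_rb8033081421x2_23 g__wQ_26_wN_1_rb8033081421x2_34

theorem g__wQ_26_wN_1_rb8033081421x2_21 : GoodKC AS k_wQ_26_wN_1_rb8033081421x2_21 := p_wQ_26_wN_1_rb8033081421x2_21 g__wQ_26_wN_1_rb8033081421x2_22

theorem g__wQ_26_wN_1_rb8033081421x2_20 : GoodKC AS k_wQ_26_wN_1_rb8033081421x2_20 := p_wQ_26_wN_1_rb8033081421x2_20 g__wQ_26_wN_1_rb8033081421x2_21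

theorem g__wQ_26_wN_1_rb8033081421x2_8 : GoodKC AS k_wQ_26_wN_1_rb8033081421x2_8 := p_wQ_26_wN_1_rb8033081421x2_8 g__wQ_26_wN_1_rb8033081421x2_9 g__wQ_26_wN_1_rb8033081421x2_20

theorem g__wQ_26_wN_1_rb8033081421x2_38 : GoodKC AS k_wQ_26_wN_1_rb8033081421x2_38 := p_wQ_26_wN_1_rb8033081421x2_38

theorem g__wQ_26_wN_1_rb8033081421x2_0 : GoodKC AS k_wQ_26_wN_1_rb8033081421x2_0 := p_wQ_26_wN_1_rb8033081421x2_0 g__wQ_26_wN_1_rb8033081421x2_1 g__wQ_26_wN_1_rb8033081421x2_3 g__wQ_26_wN_1_rb8033081421x2_8 g__wQ_26_wN_1_rb8033081421x2_38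

theorem g_wQ_26_wN_1_rb8033081421x3 : GoodKC AS c_wQ_26_wN_1_rb8033081421x3 := p_wQ_26_wN_1_rb8033081421x2 g__wQ_26_wN_1_rb8033081421x2_0

theorem g__wQ_26_wN_1_rb8033081420v3_0 : GoodKC AS k_wQ_26_wN_1_rb8033081420v3_0 := p_wQ_26_wN_1_rb8033081420v3_0

theorem g_wQ_26_wN_1_rb8033081420x3 : GoodKC AS c_wQ_26_wN_1_rb8033081420x3 := p_wQ_26_wN_1_rb8033081420x3 g__wQ_26_wN_1_rb8033081420v3_0

theorem g_wQ_26_wN_1_rb803308141fx3 : GoodKC AS c_wQ_26_wN_1_rb803308141fx3 := p_wQ_26_wN_1_rb803308141fx3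

theorem g__wQ_26_wN_1_rb803308141ex3_1 : GoodKC AS k_wQ_26_wN_1_rb803308141ex3_1 := p_wQ_26_wN_1_rb803308141ex3_1

theorem g__wQ_26_wN_1_rb803308141ex3_3 : GoodKC AS k_wQ_26_wN_1_rb803308141ex3_3 := p_wQ_26_wN_1_rb803308141ex3_3

theorem g__wQ_26_wN_1_rb803308141ex3_2 : GoodKC AS k_wQ_26_wN_1_rb803308141ex3_2 := p_wQ_26_wN_1_rb803308141ex3_2 g__wQ_26_wN_1_rb803308141ex3_3

theorem g__wQ_26_wN_1_rb803308141ex3_0 : GoodKC AS k_wQ_26_wN_1_rb803308141ex3_0 := p_wQ_26_wN_1_rb803308141ex3_0 g__wQ_26_wN_1_rb803308141ex3_1 g__wQ_26_wN_1_rb803308141ex3_2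

theorem g_wQ_26_wN_1_rb803308141ex3 : GoodKC AS c_wQ_26_wN_1_rb803308141ex3 := p_wQ_26_wN_1_rb803308141ex3 g__wQ_26_wN_1_rb803308141ex3_0

theorem g_wQ_26_wN_1_rb803308141dx3 : GoodKC AS c_wQ_26_wN_1_rb803308141dx3 := p_wQ_26_wN_1_rb803308141dx3

theorem g_wQ_26_wN_1_rb803308141cx3 : GoodKC AS c_wQ_26_wN_1_rb803308141cx3 := p_wQ_26_wN_1_rb803308141cx3

theorem g_wQ_26_wN_1_rb803308141bx3 : GoodKC AS c_wQ_26_wN_1_rb803308141bx3 := p_wQ_26_wN_1_rb803308141bx3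

theorem g__wQ_26_wN_1_rb8033081416x3_4 : GoodKC AS k_wQ_26_wN_1_rb8033081416x3_4 := p_wQ_26_wN_1_rb8033081416x3_4

theorem g__wQ_26_wN_1_rb8033081416x3_3 : GoodKC AS k_wQ_26_wN_1_rb8033081416x3_3 := p_wQ_26_wN_1_rb8033081416x3_3 g__wQ_26_wN_1_rb8033081416x3_4

theorem g__wQ_26_wN_1_rb8033081416x3_2 : GoodKC AS k_wQ_26_wN_1_rb8033081416x3_2 := p_wQ_26_wN_1_rb8033081416x3_2 g__wQ_26_wN_1_rb8033081416x3_3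

theorem g__wQ_26_wN_1_rb8033081416x3_1 : GoodKC AS k_wQ_26_wN_1_rb8033081416x3_1 := p_wQ_26_wN_1_rb8033081416x3_1 g__wQ_26_wN_1_rb8033081416x3_2

theorem g__wQ_26_wN_1_rb8033081416x3_6 : GoodKC AS k_wQ_26_wN_1_rb8033081416x3_6 := p_wQ_26_wN_1_rb8033081416x3_6

theorem g__wQ_26_wN_1_rb8033081416x3_5 : GoodKC AS k_wQ_26_wN_1_rb8033081416x3_5 := p_wQ_26_wN_1_rb8033081416x3_5 g__wQ_26_wN_1_rb8033081416x3_6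

theorem g__wQ_26_wN_1_rb8033081416x3_0 : GoodKC AS k_wQ_26_wN_1_rb8033081416x3_0 := p_wQ_26_wN_1_rb8033081416x3_0 g__wQ_26_wN_1_rb8033081416x3_1 g__wQ_26_wN_1_rb8033081416x3_5

theorem g__wQ_26_wN_1_rb8033081416x3_7 : GoodKC AS k_wQ_26_wN_1_rb8033081416x3_7 := p_wQ_26_wN_1_rb8033081416x3_7

theorem g_wQ_26_wN_1_rb8033081416x3 : GoodKC AS c_wQ_26_wN_1_rb8033081416x3 := p_wQ_26_wN_1_rb8033081416x3 g__wQ_26_wN_1_rb8033081416x3_0 g__wQ_26_wN_1_rb8033081416x3_7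

theorem g__wQ_26_wN_1_rb8033081415x3_0 : GoodKC AS k_wQ_26_wN_1_rb8033081415x3_0 := p_wQ_26_wN_1_rb8033081415x3_0

theorem g_wQ_26_wN_1_rb8033081415x3 : GoodKC AS c_wQ_26_wN_1_rb8033081415x3 := p_wQ_26_wN_1_rb8033081415x3 g__wQ_26_wN_1_rb8033081415x3_0

theorem g_wQ_26_wN_1_rb8033081414x3 : GoodKC AS c_wQ_26_wN_1_rb8033081414x3 := p_wQ_26_wN_1_rb8033081414x3

theorem g__wQ_26_wN_1_rb8033081413x3_5 : GoodKC AS k_wQ_26_wN_1_rb8033081413x3_5 := p_wQ_26_wN_1_rb8033081413x3_5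

theorem g__wQ_26_wN_1_rb8033081413x3_6 : GoodKC AS k_wQ_26_wN_1_rb8033081413x3_6 := p_wQ_26_wN_1_rb8033081413x3_6

theorem g__wQ_26_wN_1_rb8033081413x3_7 : GoodKC AS k_wQ_26_wN_1_rb8033081413x3_7 := p_wQ_26_wN_1_rb8033081413x3_7

theorem g__wQ_26_wN_1_rb8033081413x3_8 : GoodKC AS k_wQ_26_wN_1_rb8033081413x3_8 := p_wQ_26_wN_1_rb8033081413x3_8

theorem g__wQ_26_wN_1_rb8033081413x3_4 : GoodKC AS k_wQ_26_wN_1_rb8033081413x3_4 := p_wQ_26_wN_1_rb8033081413x3_4 g__wQ_26_wN_1_rb8033081413x3_5 g__wQ_26_wN_1_rb8033081413x3_6 g__wQ_26_wN_1_rb8033081413x3_7 g__wQ_26_wN_1_rb8033081413x3_8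

theorem g__wQ_26_wN_1_rb8033081413x3_14 : GoodKC AS k_wQ_26_wN_1_rb8033081413x3_14 := p_wQ_26_wN_1_rb8033081413x3_14

theorem g__wQ_26_wN_1_rb8033081413x3_13 : GoodKC AS k_wQ_26_wN_1_rb8033081413x3_13 := p_wQ_26_wN_1_rb8033081413x3_13 g__wQ_26_wN_1_rb8033081413x3_14

theorem g__wQ_26_wN_1_rb8033081413x3_15 : GoodKC AS k_wQ_26_wN_1_rb8033081413x3_15 := p_wQ_26_wN_1_rb8033081413x3_15

theorem g__wQ_26_wN_1_rb8033081413x3_16 : GoodKC AS k_wQ_26_wN_1_rb8033081413x3_16 := p_wQ_26_wN_1_rb8033081413x3_16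

theorem g__wQ_26_wN_1_rb8033081413x3_12 : GoodKC AS k_wQ_26_wN_1_rb8033081413x3_12 := p_wQ_26_wN_1_rb8033081413x3_12 g__wQ_26_wN_1_rb8033081413x3_13 g__wQ_26_wN_1_rb8033081413x3_15 g__wQ_26_wN_1_rb8033081413x3_16

theorem g__wQ_26_wN_1_rb8033081413x3_11 : GoodKC AS k_wQ_26_wN_1_rb8033081413x3_11 := p_wQ_26_wN_1_rb8033081413x3_11 g__wQ_26_wN_1_rb8033081413x3_12

theorem g__wQ_26_wN_1_rb8033081413x3_10 : GoodKC AS k_wQ_26_wN_1_rb8033081413x3_10 := p_wQ_26_wN_1_rb8033081413x3_10 g__wQ_26_wN_1_rb8033081413x3_11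

theorem g__wQ_26_wN_1_rb8033081413x3_9 : GoodKC AS k_wQ_26_wN_1_rb8033081413x3_9 := p_wQ_26_wN_1_rb8033081413x3_9 g__wQ_26_wN_1_rb8033081413x3_10

theorem g__wQ_26_wN_1_rb8033081413x3_3 : GoodKC AS k_wQ_26_wN_1_rb8033081413x3_3 := p_wQ_26_wN_1_rb8033081413x3_3 g__wQ_26_wN_1_rb8033081413x3_4 g__wQ_26_wN_1_rb8033081413x3_9

theorem g__wQ_26_wN_1_rb8033081413x3_2 : GoodKC AS k_wQ_26_wN_1_rb8033081413x3_2 := p_wQ_26_wN_1_rb8033081413x3_2 g__wQ_26_wN_1_rb8033081413x3_3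

theorem g__wQ_26_wN_1_rb8033081413x3_1 : GoodKC AS k_wQ_26_wN_1_rb8033081413x3_1 := p_wQ_26_wN_1_rb8033081413x3_1 g__wQ_26_wN_1_rb8033081413x3_2

theorem g__wQ_26_wN_1_rb8033081413x3_0 : GoodKC AS k_wQ_26_wN_1_rb8033081413x3_0 := p_wQ_26_wN_1_rb8033081413x3_0 g__wQ_26_wN_1_rb8033081413x3_1

theorem g_wQ_26_wN_1_rb8033081413x3 : GoodKC AS c_wQ_26_wN_1_rb8033081413x3 := p_wQ_26_wN_1_rb8033081413x3 g__wQ_26_wN_1_rb8033081413x3_0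

theorem g_wQ_26_wN_1_rb8033081411x3 : GoodKC AS c_wQ_26_wN_1_rb8033081411x3 := p_wQ_26_wN_1_rb8033081411x3

theorem g_wQ_26_wN_1_rb803308140ex3 : GoodKC AS c_wQ_26_wN_1_rb803308140ex3 := p_wQ_26_wN_1_rb803308140ex3

theorem g_wQ_26_wN_1_rb803308140dx3 : GoodKC AS c_wQ_26_wN_1_rb803308140dx3 := p_wQ_26_wN_1_rb803308140dx3

theorem g_wQ_26_wN_1_rb803308140bx3 : GoodKC AS c_wQ_26_wN_1_rb803308140bx3 := p_wQ_26_wN_1_rb803308140bx3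

theorem g_wQ_26_wN_1_rb803308140ax3 : GoodKC AS c_wQ_26_wN_1_rb803308140ax3 := p_wQ_26_wN_1_rb803308140ax3

theorem g_wQ_26_wN_1_rb8033081408x3 : GoodKC AS c_wQ_26_wN_1_rb8033081408x3 := p_wQ_26_wN_1_rb8033081408x3

theorem g_wQ_26_wN_1_rb8033081405x3 : GoodKC AS c_wQ_26_wN_1_rb8033081405x3 := p_wQ_26_wN_1_rb8033081405x3

theorem g_wQ_26_wN_1_rb8033081402x3 : GoodKC AS c_wQ_26_wN_1_rb8033081402x3 := p_wQ_26_wN_1_rb8033081402x3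

theorem g_wQ_26_wN_1_rb8033081400x3 : GoodKC AS c_wQ_26_wN_1_rb8033081400x3 := p_wQ_26_wN_1_rb8033081400x3

theorem g_wQ_26_wN_1_rb8033081401x3 : GoodKC AS c_wQ_26_wN_1_rb8033081401x3 := p_wQ_26_wN_1_rb8033081401x3

theorem g__wQ_26_wN_1_rb80330814x3_6 : GoodKC AS k_wQ_26_wN_1_rb80330814x3_6 := p_wQ_26_wN_1_rb80330814x3_6

theorem g__wQ_26_wN_1_rb80330814x3_5 : GoodKC AS k_wQ_26_wN_1_rb80330814x3_5 := p_wQ_26_wN_1_rb80330814x3_5 g__wQ_26_wN_1_rb80330814x3_6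

theorem g__wQ_26_wN_1_rb80330814x3_4 : GoodKC AS k_wQ_26_wN_1_rb80330814x3_4 := p_wQ_26_wN_1_rb80330814x3_4 g__wQ_26_wN_1_rb80330814x3_5

theorem g__wQ_26_wN_1_rb80330814x3_3 : GoodKC AS k_wQ_26_wN_1_rb80330814x3_3 := p_wQ_26_wN_1_rb80330814x3_3 g__wQ_26_wN_1_rb80330814x3_4

theorem g__wQ_26_wN_1_rb80330814x3_2 : GoodKC AS k_wQ_26_wN_1_rb80330814x3_2 := p_wQ_26_wN_1_rb80330814x3_2 g__wQ_26_wN_1_rb80330814x3_3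

theorem g__wQ_26_wN_1_rb80330814x3_1 : GoodKC AS k_wQ_26_wN_1_rb80330814x3_1 := p_wQ_26_wN_1_rb80330814x3_1 g__wQ_26_wN_1_rb80330814x3_2

theorem g__wQ_26_wN_1_rb8033081403x3_0 : GoodKC AS k_wQ_26_wN_1_rb8033081403x3_0 := p_wQ_26_wN_1_rb8033081403x3_0

theorem g_wQ_26_wN_1_rb8033081403x3 : GoodKC AS c_wQ_26_wN_1_rb8033081403x3 := p_wQ_26_wN_1_rb8033081403x3 g__wQ_26_wN_1_rb8033081403x3_0

theorem g_wQ_26_wN_1_rb8033081404x3 : GoodKC AS c_wQ_26_wN_1_rb8033081404x3 := p_wQ_26_wN_1_rb8033081404x3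

theorem g__wQ_26_wN_1_rb8033081406x3_0 : GoodKC AS k_wQ_26_wN_1_rb8033081406x3_0 := p_wQ_26_wN_1_rb8033081406x3_0

theorem g__wQ_26_wN_1_rb8033081406x3_1 : GoodKC AS k_wQ_26_wN_1_rb8033081406x3_1 := p_wQ_26_wN_1_rb8033081406x3_1

theorem g_wQ_26_wN_1_rb8033081406x3 : GoodKC AS c_wQ_26_wN_1_rb8033081406x3 := p_wQ_26_wN_1_rb8033081406x3 g__wQ_26_wN_1_rb8033081406x3_0 g__wQ_26_wN_1_rb8033081406x3_1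

theorem g_wQ_26_wN_1_rb8033081407x3 : GoodKC AS c_wQ_26_wN_1_rb8033081407x3 := p_wQ_26_wN_1_rb8033081407x3

theorem g_wQ_26_wN_1_rb8033081409x3 : GoodKC AS c_wQ_26_wN_1_rb8033081409x3 := p_wQ_26_wN_1_rb8033081409x3

theorem g_wQ_26_wN_1_rb803308140cx3 : GoodKC AS c_wQ_26_wN_1_rb803308140cx3 := p_wQ_26_wN_1_rb803308140cx3

theorem g_wQ_26_wN_1_rb803308140fx3 : GoodKC AS c_wQ_26_wN_1_rb803308140fx3 := p_wQ_26_wN_1_rb803308140fx3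

theorem g_wQ_26_wN_1_rb8033081410x3 : GoodKC AS c_wQ_26_wN_1_rb8033081410x3 := p_wQ_26_wN_1_rb8033081410x3

theorem g__wQ_26_wN_1_rb8033081412x3_0 : GoodKC AS k_wQ_26_wN_1_rb8033081412x3_0 := p_wQ_26_wN_1_rb8033081412x3_0

theorem g_wQ_26_wN_1_rb8033081412x3 : GoodKC AS c_wQ_26_wN_1_rb8033081412x3 := p_wQ_26_wN_1_rb8033081412x3 g__wQ_26_wN_1_rb8033081412x3_0

theorem g__wQ_26_wN_1_rb80330814x3_13 : GoodKC AS k_wQ_26_wN_1_rb80330814x3_13 := p_wQ_26_wN_1_rb80330814x3_13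

theorem g__wQ_26_wN_1_rb80330814x3_14 : GoodKC AS k_wQ_26_wN_1_rb80330814x3_14 := p_wQ_26_wN_1_rb80330814x3_14

theorem g__wQ_26_wN_1_rb80330814x3_15 : GoodKC AS k_wQ_26_wN_1_rb80330814x3_15 := p_wQ_26_wN_1_rb80330814x3_15

theorem g__wQ_26_wN_1_rb80330814x3_12 : GoodKC AS k_wQ_26_wN_1_rb80330814x3_12 := p_wQ_26_wN_1_rb80330814x3_12 g__wQ_26_wN_1_rb80330814x3_13 g__wQ_26_wN_1_rb80330814x3_14 g__wQ_26_wN_1_rb80330814x3_15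

theorem g__wQ_26_wN_1_rb80330814x3_11 : GoodKC AS k_wQ_26_wN_1_rb80330814x3_11 := p_wQ_26_wN_1_rb80330814x3_11 g__wQ_26_wN_1_rb80330814x3_12

theorem g__wQ_26_wN_1_rb80330814x3_10 : GoodKC AS k_wQ_26_wN_1_rb80330814x3_10 := p_wQ_26_wN_1_rb80330814x3_10 g__wQ_26_wN_1_rb80330814x3_11

theorem g__wQ_26_wN_1_rb80330814x3_9 : GoodKC AS k_wQ_26_wN_1_rb80330814x3_9 := p_wQ_26_wN_1_rb80330814x3_9 g__wQ_26_wN_1_rb80330814x3_10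

theorem g__wQ_26_wN_1_rb80330814x3_8 : GoodKC AS k_wQ_26_wN_1_rb80330814x3_8 := p_wQ_26_wN_1_rb80330814x3_8 g__wQ_26_wN_1_rb80330814x3_9

theorem g__wQ_26_wN_1_rb80330814x3_7 : GoodKC AS k_wQ_26_wN_1_rb80330814x3_7 := p_wQ_26_wN_1_rb80330814x3_7 g__wQ_26_wN_1_rb80330814x3_8

theorem g__wQ_26_wN_1_rb80330814x3_16 : GoodKC AS k_wQ_26_wN_1_rb80330814x3_16 := p_wQ_26_wN_1_rb80330814x3_16

theorem g__wQ_26_wN_1_rb80330814x3_19 : GoodKC AS k_wQ_26_wN_1_rb80330814x3_19 := p_wQ_26_wN_1_rb80330814x3_19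

theorem g__wQ_26_wN_1_rb80330814x3_18 : GoodKC AS k_wQ_26_wN_1_rb80330814x3_18 := p_wQ_26_wN_1_rb80330814x3_18 g__wQ_26_wN_1_rb80330814x3_19

theorem g__wQ_26_wN_1_rb80330814x3_17 : GoodKC AS k_wQ_26_wN_1_rb80330814x3_17 := p_wQ_26_wN_1_rb80330814x3_17 g__wQ_26_wN_1_rb80330814x3_18

theorem g__wQ_26_wN_1_rb80330814x3_20 : GoodKC AS k_wQ_26_wN_1_rb80330814x3_20 := p_wQ_26_wN_1_rb80330814x3_20

theorem g__wQ_26_wN_1_rb80330814x3_21 : GoodKC AS k_wQ_26_wN_1_rb80330814x3_21 := p_wQ_26_wN_1_rb80330814x3_21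

theorem g__wQ_26_wN_1_rb80330814x3_0 : GoodKC AS k_wQ_26_wN_1_rb80330814x3_0 := p_wQ_26_wN_1_rb80330814x3_0 g_wQ_26_wN_1_rb8033081414x3 g_wQ_26_wN_1_rb8033081413x3 g_wQ_26_wN_1_rb8033081411x3 g_wQ_26_wN_1_rb803308140ex3 g_wQ_26_wN_1_rb803308140dx3 g_wQ_26_wN_1_rb803308140bx3 g_wQ_26_wN_1_rb803308140ax3 g_wQ_26_wN_1_rb8033081408x3 g_wQ_26_wN_1_rb8033081405x3 g_wQ_26_wN_1_rb8033081402x3 g_wQ_26_wN_1_rb8033081400x3 g_wQ_26_wN_1_rb8033081401x3 g__wQ_26_wN_1_rb80330814x3_1 g_wQ_26_wN_1_rb8033081403x3 g_wQ_26_wN_1_rb8033081404x3 g_wQ_26_wN_1_rb8033081406x3 g_wQ_26_wN_1_rb8033081407x3 g_wQ_26_wN_1_rb8033081409x3 g_wQ_26_wN_1_rb803308140cx3 g_wQ_26_wN_1_rb803308140fx3 g_wQ_26_wN_1_rb8033081410x3 g_wQ_26_wN_1_rb8033081412x3 g__wQ_26_wN_1_rb80330814x3_7 g__wQ_26_wN_1_rb80330814x3_16 g__wQ_26_wN_1_rb80330814x3_17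 g__wQ_26_wN_1_rb80330814x3_20 g__wQ_26_wN_1_rb80330814x3_21

theorem g__wQ_26_wN_1_rb80330814x3_22 : GoodKC AS k_wQ_26_wN_1_rb80330814x3_22 := p_wQ_26_wN_1_rb80330814x3_22

theorem g__wQ_26_wN_1_rb80330814x3_27 : GoodKC AS k_wQ_26_wN_1_rb80330814x3_27 := p_wQ_26_wN_1_rb80330814x3_27

theorem g__wQ_26_wN_1_rb80330814x3_26 : GoodKC AS k_wQ_26_wN_1_rb80330814x3_26 := p_wQ_26_wN_1_rb80330814x3_26 g__wQ_26_wN_1_rb80330814x3_27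

theorem g__wQ_26_wN_1_rb80330814x3_32 : GoodKC AS k_wQ_26_wN_1_rb80330814x3_32 := p_wQ_26_wN_1_rb80330814x3_32

theorem g__wQ_26_wN_1_rb80330814x3_31 : GoodKC AS k_wQ_26_wN_1_rb80330814x3_31 := p_wQ_26_wN_1_rb80330814x3_31 g__wQ_26_wN_1_rb80330814x3_32

theorem g__wQ_26_wN_1_rb80330814x3_30 : GoodKC AS k_wQ_26_wN_1_rb80330814x3_30 := p_wQ_26_wN_1_rb80330814x3_30 g__wQ_26_wN_1_rb80330814x3_31

theorem g__wQ_26_wN_1_rb80330814x3_29 : GoodKC AS k_wQ_26_wN_1_rb80330814x3_29 := p_wQ_26_wN_1_rb80330814x3_29 g__wQ_26_wN_1_rb80330814x3_30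

theorem g__wQ_26_wN_1_rb80330814x3_28 : GoodKC AS k_wQ_26_wN_1_rb80330814x3_28 := p_wQ_26_wN_1_rb80330814x3_28 g__wQ_26_wN_1_rb80330814x3_29

theorem g__wQ_26_wN_1_rb80330814x3_34 : GoodKC AS k_wQ_26_wN_1_rb80330814x3_34 := p_wQ_26_wN_1_rb80330814x3_34

theorem g__wQ_26_wN_1_rb80330814x3_33 : GoodKC AS k_wQ_26_wN_1_rb80330814x3_33 := p_wQ_26_wN_1_rb80330814x3_33 g__wQ_26_wN_1_rb80330814x3_34

theorem g__wQ_26_wN_1_rb80330814x3_25 : GoodKC AS k_wQ_26_wN_1_rb80330814x3_25 := p_wQ_26_wN_1_rb80330814x3_25 g__wQ_26_wN_1_rb80330814x3_26 g__wQ_26_wN_1_rb80330814x3_28 g__wQ_26_wN_1_rb80330814x3_33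

theorem g__wQ_26_wN_1_rb80330814x3_24 : GoodKC AS k_wQ_26_wN_1_rb80330814x3_24 := p_wQ_26_wN_1_rb80330814x3_24 g__wQ_26_wN_1_rb80330814x3_25

theorem g__wQ_26_wN_1_rb80330814x3_23 : GoodKC AS k_wQ_26_wN_1_rb80330814x3_23 := p_wQ_26_wN_1_rb80330814x3_23 g__wQ_26_wN_1_rb80330814x3_24

theorem g__wQ_26_wN_1_rb80330814x3_36 : GoodKC AS k_wQ_26_wN_1_rb80330814x3_36 := p_wQ_26_wN_1_rb80330814x3_36

theorem g__wQ_26_wN_1_rb80330814x3_37 : GoodKC AS k_wQ_26_wN_1_rb80330814x3_37 := p_wQ_26_wN_1_rb80330814x3_37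

theorem g__wQ_26_wN_1_rb80330814x3_35 : GoodKC AS k_wQ_26_wN_1_rb80330814x3_35 := p_wQ_26_wN_1_rb80330814x3_35 g__wQ_26_wN_1_rb80330814x3_36 g__wQ_26_wN_1_rb80330814x3_37

theorem g_wQ_26_wN_1_rb8033081417x3 : GoodKC AS c_wQ_26_wN_1_rb8033081417x3 := p_wQ_26_wN_1_rb8033081417x3

theorem g_wQ_26_wN_1_rb8033081418x3 : GoodKC AS c_wQ_26_wN_1_rb8033081418x3 := p_wQ_26_wN_1_rb8033081418x3

theorem g_wQ_26_wN_1_rb8033081419x3 : GoodKC AS c_wQ_26_wN_1_rb8033081419x3 := p_wQ_26_wN_1_rb8033081419x3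

theorem g__wQ_26_wN_1_rb803308141ax3_3 : GoodKC AS k_wQ_26_wN_1_rb803308141ax3_3 := p_wQ_26_wN_1_rb803308141ax3_3

theorem g__wQ_26_wN_1_rb803308141ax3_2 : GoodKC AS k_wQ_26_wN_1_rb803308141ax3_2 := p_wQ_26_wN_1_rb803308141ax3_2 g__wQ_26_wN_1_rb803308141ax3_3

theorem g__wQ_26_wN_1_rb803308141ax3_1 : GoodKC AS k_wQ_26_wN_1_rb803308141ax3_1 := p_wQ_26_wN_1_rb803308141ax3_1 g__wQ_26_wN_1_rb803308141ax3_2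

theorem g__wQ_26_wN_1_rb803308141ax3_7 : GoodKC AS k_wQ_26_wN_1_rb803308141ax3_7 := p_wQ_26_wN_1_rb803308141ax3_7

theorem g__wQ_26_wN_1_rb803308141ax3_6 : GoodKC AS k_wQ_26_wN_1_rb803308141ax3_6 := p_wQ_26_wN_1_rb803308141ax3_6 g__wQ_26_wN_1_rb803308141ax3_7

theorem g__wQ_26_wN_1_rb803308141ax3_5 : GoodKC AS k_wQ_26_wN_1_rb803308141ax3_5 := p_wQ_26_wN_1_rb803308141ax3_5 g__wQ_26_wN_1_rb803308141ax3_6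

theorem g__wQ_26_wN_1_rb803308141ax3_8 : GoodKC AS k_wQ_26_wN_1_rb803308141ax3_8 := p_wQ_26_wN_1_rb803308141ax3_8

theorem g__wQ_26_wN_1_rb803308141ax3_4 : GoodKC AS k_wQ_26_wN_1_rb803308141ax3_4 := p_wQ_26_wN_1_rb803308141ax3_4 g__wQ_26_wN_1_rb803308141ax3_5 g__wQ_26_wN_1_rb803308141ax3_8

theorem g__wQ_26_wN_1_rb803308141ax3_0 : GoodKC AS k_wQ_26_wN_1_rb803308141ax3_0 := p_wQ_26_wN_1_rb803308141ax3_0 g__wQ_26_wN_1_rb803308141ax3_1 g__wQ_26_wN_1_rb803308141ax3_4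

theorem g__wQ_26_wN_1_rb803308141ax3_9 : GoodKC AS k_wQ_26_wN_1_rb803308141ax3_9 := p_wQ_26_wN_1_rb803308141ax3_9

theorem g_wQ_26_wN_1_rb803308141ax3 : GoodKC AS c_wQ_26_wN_1_rb803308141ax3 := p_wQ_26_wN_1_rb803308141ax3 g__wQ_26_wN_1_rb803308141ax3_0 g__wQ_26_wN_1_rb803308141ax3_9

theorem g__wQ_26_wN_1_rb8033081425x3_0 : GoodKC AS k_wQ_26_wN_1_rb8033081425x3_0 := p_wQ_26_wN_1_rb8033081425x3_0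

theorem g_wQ_26_wN_1_rb8033081425x3 : GoodKC AS c_wQ_26_wN_1_rb8033081425x3 := p_wQ_26_wN_1_rb8033081425x3 g__wQ_26_wN_1_rb8033081425x3_0

theorem g_wQ_26_wN_1_rb8033081427x3 : GoodKC AS c_wQ_26_wN_1_rb8033081427x3 := p_wQ_26_wN_1_rb8033081427x3

theorem g_wQ_26_wN_1_rb8033081428x3 : GoodKC AS c_wQ_26_wN_1_rb8033081428x3 := p_wQ_26_wN_1_rb8033081428x3

theorem g_wQ_26_wN_1_rb803308142bx3 : GoodKC AS c_wQ_26_wN_1_rb803308142bx3 := p_wQ_26_wN_1_rb803308142bx3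

theorem g_wQ_26_wN_1_rb803308142dx3 : GoodKC AS c_wQ_26_wN_1_rb803308142dx3 := p_wQ_26_wN_1_rb803308142dx3

theorem g_wQ_26_wN_1_rb8033081430x3 : GoodKC AS c_wQ_26_wN_1_rb8033081430x3 := p_wQ_26_wN_1_rb8033081430x3

theorem g__wQ_26_wN_1_rb803308143200v2_2 : GoodKC AS k_wQ_26_wN_1_rb803308143200v2_2 := p_wQ_26_wN_1_rb803308143200v2_2

theorem g__wQ_26_wN_1_rb803308143200v2_1 : GoodKC AS k_wQ_26_wN_1_rb803308143200v2_1 := p_wQ_26_wN_1_rb803308143200v2_1 g__wQ_26_wN_1_rb803308143200v2_2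

theorem g__wQ_26_wN_1_rb803308143200v2_3 : GoodKC AS k_wQ_26_wN_1_rb803308143200v2_3 := p_wQ_26_wN_1_rb803308143200v2_3

theorem g__wQ_26_wN_1_rb803308143200v2_0 : GoodKC AS k_wQ_26_wN_1_rb803308143200v2_0 := p_wQ_26_wN_1_rb803308143200v2_0 g__wQ_26_wN_1_rb803308143200v2_1 g__wQ_26_wN_1_rb803308143200v2_3

theorem g__wQ_26_wN_1_rb803308143200v2_5 : GoodKC AS k_wQ_26_wN_1_rb803308143200v2_5 := p_wQ_26_wN_1_rb803308143200v2_5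

theorem g__wQ_26_wN_1_rb803308143200v2_6 : GoodKC AS k_wQ_26_wN_1_rb803308143200v2_6 := p_wQ_26_wN_1_rb803308143200v2_6

theorem g__wQ_26_wN_1_rb803308143200v2_4 : GoodKC AS k_wQ_26_wN_1_rb803308143200v2_4 := p_wQ_26_wN_1_rb803308143200v2_4 g__wQ_26_wN_1_rb803308143200v2_5 g__wQ_26_wN_1_rb803308143200v2_6

theorem g__wQ_26_wN_1_rb803308143200v2_7 : GoodKC AS k_wQ_26_wN_1_rb803308143200v2_7 := p_wQ_26_wN_1_rb803308143200v2_7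

theorem g_wQ_26_wN_1_rb803308143200x2 : GoodKC AS c_wQ_26_wN_1_rb803308143200x2 := p_wQ_26_wN_1_rb803308143200x2 g__wQ_26_wN_1_rb803308143200v2_0 g__wQ_26_wN_1_rb803308143200v2_4 g__wQ_26_wN_1_rb803308143200v2_7

theorem g__wQ_26_wN_1_rb8033081432x2_0 : GoodKC AS k_wQ_26_wN_1_rb8033081432x2_0 := p_wQ_26_wN_1_rb8033081432x2_0

theorem g__wQ_26_wN_1_rb8033081432x2_4 : GoodKC AS k_wQ_26_wN_1_rb8033081432x2_4 := p_wQ_26_wN_1_rb8033081432x2_4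

theorem g__wQ_26_wN_1_rb8033081432x2_3 : GoodKC AS k_wQ_26_wN_1_rb8033081432x2_3 := p_wQ_26_wN_1_rb8033081432x2_3 g__wQ_26_wN_1_rb8033081432x2_4

theorem g__wQ_26_wN_1_rb8033081432x2_2 : GoodKC AS k_wQ_26_wN_1_rb8033081432x2_2 := p_wQ_26_wN_1_rb8033081432x2_2 g__wQ_26_wN_1_rb8033081432x2_3

theorem g__wQ_26_wN_1_rb8033081432x2_1 : GoodKC AS k_wQ_26_wN_1_rb8033081432x2_1 := p_wQ_26_wN_1_rb8033081432x2_1 g__wQ_26_wN_1_rb8033081432x2_2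

theorem g__wQ_26_wN_1_rb8033081432x2_5 : GoodKC AS k_wQ_26_wN_1_rb8033081432x2_5 := p_wQ_26_wN_1_rb8033081432x2_5

theorem g__wQ_26_wN_1_rb8033081432x2_9 : GoodKC AS k_wQ_26_wN_1_rb8033081432x2_9 := p_wQ_26_wN_1_rb8033081432x2_9

theorem g__wQ_26_wN_1_rb8033081432x2_11 : GoodKC AS k_wQ_26_wN_1_rb8033081432x2_11 := p_wQ_26_wN_1_rb8033081432x2_11

theorem g__wQ_26_wN_1_rb8033081432x2_10 : GoodKC AS k_wQ_26_wN_1_rb8033081432x2_10 := p_wQ_26_wN_1_rb8033081432x2_10 g__wQ_26_wN_1_rb8033081432x2_11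

theorem g__wQ_26_wN_1_rb8033081432x2_12 : GoodKC AS k_wQ_26_wN_1_rb8033081432x2_12 := p_wQ_26_wN_1_rb8033081432x2_12

theorem g__wQ_26_wN_1_rb8033081432x2_8 : GoodKC AS k_wQ_26_wN_1_rb8033081432x2_8 := p_wQ_26_wN_1_rb8033081432x2_8 g__wQ_26_wN_1_rb8033081432x2_9 g__wQ_26_wN_1_rb8033081432x2_10 g__wQ_26_wN_1_rb8033081432x2_12

theorem g__wQ_26_wN_1_rb8033081432x2_17 : GoodKC AS k_wQ_26_wN_1_rb8033081432x2_17 := p_wQ_26_wN_1_rb8033081432x2_17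

theorem g__wQ_26_wN_1_rb8033081432x2_16 : GoodKC AS k_wQ_26_wN_1_rb8033081432x2_16 := p_wQ_26_wN_1_rb8033081432x2_16 g__wQ_26_wN_1_rb8033081432x2_17

theorem g__wQ_26_wN_1_rb8033081432x2_21 : GoodKC AS k_wQ_26_wN_1_rb8033081432x2_21 := p_wQ_26_wN_1_rb8033081432x2_21

theorem g__wQ_26_wN_1_rb8033081432x2_23 : GoodKC AS k_wQ_26_wN_1_rb8033081432x2_23 := p_wQ_26_wN_1_rb8033081432x2_23

theorem g__wQ_26_wN_1_rb8033081432x2_22 : GoodKC AS k_wQ_26_wN_1_rb8033081432x2_22 := p_wQ_26_wN_1_rb8033081432x2_22 g__wQ_26_wN_1_rb8033081432x2_23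

theorem g__wQ_26_wN_1_rb8033081432x2_20 : GoodKC AS k_wQ_26_wN_1_rb8033081432x2_20 := p_wQ_26_wN_1_rb8033081432x2_20 g__wQ_26_wN_1_rb8033081432x2_21 g__wQ_26_wN_1_rb8033081432x2_22

theorem g__wQ_26_wN_1_rb8033081432x2_19 : GoodKC AS k_wQ_26_wN_1_rb8033081432x2_19 := p_wQ_26_wN_1_rb8033081432x2_19 g__wQ_26_wN_1_rb8033081432x2_20

theorem g__wQ_26_wN_1_rb8033081432x2_26 : GoodKC AS k_wQ_26_wN_1_rb8033081432x2_26 := p_wQ_26_wN_1_rb8033081432x2_26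

theorem g__wQ_26_wN_1_rb8033081432x2_25 : GoodKC AS k_wQ_26_wN_1_rb8033081432x2_25 := p_wQ_26_wN_1_rb8033081432x2_25 g__wQ_26_wN_1_rb8033081432x2_26

theorem g__wQ_26_wN_1_rb8033081432x2_24 : GoodKC AS k_wQ_26_wN_1_rb8033081432x2_24 := p_wQ_26_wN_1_rb8033081432x2_24 g__wQ_26_wN_1_rb8033081432x2_25

theorem g__wQ_26_wN_1_rb8033081432x2_18 : GoodKC AS k_wQ_26_wN_1_rb8033081432x2_18 := p_wQ_26_wN_1_rb8033081432x2_18 g__wQ_26_wN_1_rb8033081432x2_19 g__wQ_26_wN_1_rb8033081432x2_24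

theorem g__wQ_26_wN_1_rb8033081432x2_15 : GoodKC AS k_wQ_26_wN_1_rb8033081432x2_15 := p_wQ_26_wN_1_rb8033081432x2_15 g__wQ_26_wN_1_rb8033081432x2_16 g__wQ_26_wN_1_rb8033081432x2_18

theorem g__wQ_26_wN_1_rb8033081432x2_14 : GoodKC AS k_wQ_26_wN_1_rb8033081432x2_14 := p_wQ_26_wN_1_rb8033081432x2_14 g__wQ_26_wN_1_rb8033081432x2_15

theorem g__wQ_26_wN_1_rb8033081432x2_13 : GoodKC AS k_wQ_26_wN_1_rb8033081432x2_13 := p_wQ_26_wN_1_rb8033081432x2_13 g__wQ_26_wN_1_rb8033081432x2_14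

theorem g__wQ_26_wN_1_rb8033081432x2_7 : GoodKC AS k_wQ_26_wN_1_rb8033081432x2_7 := p_wQ_26_wN_1_rb8033081432x2_7 g__wQ_26_wN_1_rb8033081432x2_8 g__wQ_26_wN_1_rb8033081432x2_13

theorem g__wQ_26_wN_1_rb8033081432x2_29 : GoodKC AS k_wQ_26_wN_1_rb8033081432x2_29 := p_wQ_26_wN_1_rb8033081432x2_29

theorem g__wQ_26_wN_1_rb8033081432x2_30 : GoodKC AS k_wQ_26_wN_1_rb8033081432x2_30 := p_wQ_26_wN_1_rb8033081432x2_30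

theorem g__wQ_26_wN_1_rb8033081432x2_28 : GoodKC AS k_wQ_26_wN_1_rb8033081432x2_28 := p_wQ_26_wN_1_rb8033081432x2_28 g__wQ_26_wN_1_rb8033081432x2_29 g__wQ_26_wN_1_rb8033081432x2_30

theorem g__wQ_26_wN_1_rb8033081432x2_32 : GoodKC AS k_wQ_26_wN_1_rb8033081432x2_32 := p_wQ_26_wN_1_rb8033081432x2_32

theorem g__wQ_26_wN_1_rb8033081432x2_31 : GoodKC AS k_wQ_26_wN_1_rb8033081432x2_31 := p_wQ_26_wN_1_rb8033081432x2_31 g__wQ_26_wN_1_rb8033081432x2_32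

theorem g__wQ_26_wN_1_rb8033081432x2_35 : GoodKC AS k_wQ_26_wN_1_rb8033081432x2_35 := p_wQ_26_wN_1_rb8033081432x2_35

theorem g__wQ_26_wN_1_rb8033081432x2_34 : GoodKC AS k_wQ_26_wN_1_rb8033081432x2_34 := p_wQ_26_wN_1_rb8033081432x2_34 g__wQ_26_wN_1_rb8033081432x2_35

theorem g__wQ_26_wN_1_rb8033081432x2_33 : GoodKC AS k_wQ_26_wN_1_rb8033081432x2_33 := p_wQ_26_wN_1_rb8033081432x2_33 g__wQ_26_wN_1_rb8033081432x2_34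

theorem g__wQ_26_wN_1_rb8033081432x2_36 : GoodKC AS k_wQ_26_wN_1_rb8033081432x2_36 := p_wQ_26_wN_1_rb8033081432x2_36

theorem g__wQ_26_wN_1_rb8033081432x2_38 : GoodKC AS k_wQ_26_wN_1_rb8033081432x2_38 := p_wQ_26_wN_1_rb8033081432x2_38

theorem g__wQ_26_wN_1_rb8033081432x2_39 : GoodKC AS k_wQ_26_wN_1_rb8033081432x2_39 := p_wQ_26_wN_1_rb8033081432x2_39

theorem g__wQ_26_wN_1_rb8033081432x2_37 : GoodKC AS k_wQ_26_wN_1_rb8033081432x2_37 := p_wQ_26_wN_1_rb8033081432x2_37 g__wQ_26_wN_1_rb8033081432x2_38 g__wQ_26_wN_1_rb8033081432x2_39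

theorem g__wQ_26_wN_1_rb8033081432x2_27 : GoodKC AS k_wQ_26_wN_1_rb8033081432x2_27 := p_wQ_26_wN_1_rb8033081432x2_27 g__wQ_26_wN_1_rb8033081432x2_28 g__wQ_26_wN_1_rb8033081432x2_31 g__wQ_26_wN_1_rb8033081432x2_33 g__wQ_26_wN_1_rb8033081432x2_36 g__wQ_26_wN_1_rb8033081432x2_37

theorem g__wQ_26_wN_1_rb8033081432x2_6 : GoodKC AS k_wQ_26_wN_1_rb8033081432x2_6 := p_wQ_26_wN_1_rb8033081432x2_6 g__wQ_26_wN_1_rb8033081432x2_7 g__wQ_26_wN_1_rb8033081432x2_27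

theorem g_wQ_26_wN_1_rb8033081432x3 : GoodKC AS c_wQ_26_wN_1_rb8033081432x3 := p_wQ_26_wN_1_rb8033081432x2 g_wQ_26_wN_1_rb803308143200x2 g__wQ_26_wN_1_rb8033081432x2_0 g__wQ_26_wN_1_rb8033081432x2_1 g__wQ_26_wN_1_rb8033081432x2_5 g__wQ_26_wN_1_rb8033081432x2_6

theorem g_wQ_26_wN_1_rb80330814x15 : GoodKC AS c_wQ_26_wN_1_rb80330814x15 := p_wQ_26_wN_1_rb80330814x3 g_wQ_26_wN_1_rb8033081431x3 g_wQ_26_wN_1_rb803308142fx3 g_wQ_26_wN_1_rb803308142ex3 g_wQ_26_wN_1_rb803308142cx3 g_wQ_26_wN_1_rb803308142ax3 g_wQ_26_wN_1_rb8033081429x3 g_wQ_26_wN_1_rb8033081426x3 g_wQ_26_wN_1_rb8033081424x3 g_wQ_26_wN_1_rb8033081423x3 g_wQ_26_wN_1_rb8033081422x3 g_wQ_26_wN_1_rb8033081421x3 g_wQ_26_wN_1_rb8033081420x3 g_wQ_26_wN_1_rb803308141fx3 g_wQ_26_wN_1_rb803308141ex3 g_wQ_26_wN_1_rb803308141dx3 g_wQ_26_wN_1_rb803308141cx3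 g_wQ_26_wN_1_rb803308141bx3 g_wQ_26_wN_1_rb8033081416x3 g_wQ_26_wN_1_rb8033081415x3 g__wQ_26_wN_1_rb80330814x3_0 g__wQ_26_wN_1_rb80330814x3_22 g__wQ_26_wN_1_rb80330814x3_23 g__wQ_26_wN_1_rb80330814x3_35 g_wQ_26_wN_1_rb8033081417x3 g_wQ_26_wN_1_rb8033081418x3 g_wQ_26_wN_1_rb8033081419x3 g_wQ_26_wN_1_rb803308141ax3 g_wQ_26_wN_1_rb8033081425x3 g_wQ_26_wN_1_rb8033081427x3 g_wQ_26_wN_1_rb8033081428x3 g_wQ_26_wN_1_rb803308142bx3 g_wQ_26_wN_1_rb803308142dx3 g_wQ_26_wN_1_rb8033081430x3 g_wQ_26_wN_1_rb8033081432x3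

theorem g_wQ_26_wN_1_rb803308130553x2 : GoodKC AS c_wQ_26_wN_1_rb803308130553x2 := p_wQ_26_wN_1_rb803308130553x2

theorem g__wQ_26_wN_1_rb803308130552x2_0 : GoodKC AS k_wQ_26_wN_1_rb803308130552x2_0 := p_wQ_26_wN_1_rb803308130552x2_0

theorem g__wQ_26_wN_1_rb803308130552x2_2 : GoodKC AS k_wQ_26_wN_1_rb803308130552x2_2 := p_wQ_26_wN_1_rb803308130552x2_2

theorem g__wQ_26_wN_1_rb803308130552x2_4 : GoodKC AS k_wQ_26_wN_1_rb803308130552x2_4 := p_wQ_26_wN_1_rb803308130552x2_4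

theorem g__wQ_26_wN_1_rb803308130552x2_5 : GoodKC AS k_wQ_26_wN_1_rb803308130552x2_5 := p_wQ_26_wN_1_rb803308130552x2_5

theorem g__wQ_26_wN_1_rb803308130552x2_3 : GoodKC AS k_wQ_26_wN_1_rb803308130552x2_3 := p_wQ_26_wN_1_rb803308130552x2_3 g__wQ_26_wN_1_rb803308130552x2_4 g__wQ_26_wN_1_rb803308130552x2_5

theorem g__wQ_26_wN_1_rb803308130552x2_1 : GoodKC AS k_wQ_26_wN_1_rb803308130552x2_1 := p_wQ_26_wN_1_rb803308130552x2_1 g__wQ_26_wN_1_rb803308130552x2_2 g__wQ_26_wN_1_rb803308130552x2_3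

theorem g_wQ_26_wN_1_rb803308130552x2 : GoodKC AS c_wQ_26_wN_1_rb803308130552x2 := p_wQ_26_wN_1_rb803308130552x2 g__wQ_26_wN_1_rb803308130552x2_0 g__wQ_26_wN_1_rb803308130552x2_1

theorem g_wQ_26_wN_1_rb80330813054ax2 : GoodKC AS c_wQ_26_wN_1_rb80330813054ax2 := p_wQ_26_wN_1_rb80330813054ax2

theorem g__wQ_26_wN_1_rb803308130548x2_0 : GoodKC AS k_wQ_26_wN_1_rb803308130548x2_0 := p_wQ_26_wN_1_rb803308130548x2_0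

theorem g__wQ_26_wN_1_rb803308130548x2_2 : GoodKC AS k_wQ_26_wN_1_rb803308130548x2_2 := p_wQ_26_wN_1_rb803308130548x2_2

theorem g__wQ_26_wN_1_rb803308130548x2_3 : GoodKC AS k_wQ_26_wN_1_rb803308130548x2_3 := p_wQ_26_wN_1_rb803308130548x2_3

theorem g__wQ_26_wN_1_rb803308130548x2_1 : GoodKC AS k_wQ_26_wN_1_rb803308130548x2_1 := p_wQ_26_wN_1_rb803308130548x2_1 g__wQ_26_wN_1_rb803308130548x2_2 g__wQ_26_wN_1_rb803308130548x2_3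

theorem g_wQ_26_wN_1_rb803308130548x2 : GoodKC AS c_wQ_26_wN_1_rb803308130548x2 := p_wQ_26_wN_1_rb803308130548x2 g__wQ_26_wN_1_rb803308130548x2_0 g__wQ_26_wN_1_rb803308130548x2_1

theorem g_wQ_26_wN_1_rb803308130546x2 : GoodKC AS c_wQ_26_wN_1_rb803308130546x2 := p_wQ_26_wN_1_rb803308130546x2

theorem g_wQ_26_wN_1_rb803308130545x2 : GoodKC AS c_wQ_26_wN_1_rb803308130545x2 := p_wQ_26_wN_1_rb803308130545x2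

theorem g__wQ_26_wN_1_rb803308130544x2_0 : GoodKC AS k_wQ_26_wN_1_rb803308130544x2_0 := p_wQ_26_wN_1_rb803308130544x2_0

theorem g_wQ_26_wN_1_rb803308130544x2 : GoodKC AS c_wQ_26_wN_1_rb803308130544x2 := p_wQ_26_wN_1_rb803308130544x2 g__wQ_26_wN_1_rb803308130544x2_0

theorem g_wQ_26_wN_1_rb80330813053dx2 : GoodKC AS c_wQ_26_wN_1_rb80330813053dx2 := p_wQ_26_wN_1_rb80330813053dx2

theorem g_wQ_26_wN_1_rb80330813053cx2 : GoodKC AS c_wQ_26_wN_1_rb80330813053cx2 := p_wQ_26_wN_1_rb80330813053cx2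

theorem g_wQ_26_wN_1_rb80330813053ax2 : GoodKC AS c_wQ_26_wN_1_rb80330813053ax2 := p_wQ_26_wN_1_rb80330813053ax2

theorem g__wQ_26_wN_1_rb803308130536x2_1 : GoodKC AS k_wQ_26_wN_1_rb803308130536x2_1 := p_wQ_26_wN_1_rb803308130536x2_1

theorem g__wQ_26_wN_1_rb803308130536x2_2 : GoodKC AS k_wQ_26_wN_1_rb803308130536x2_2 := p_wQ_26_wN_1_rb803308130536x2_2

theorem g__wQ_26_wN_1_rb803308130536x2_4 : GoodKC AS k_wQ_26_wN_1_rb803308130536x2_4 := p_wQ_26_wN_1_rb803308130536x2_4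

theorem g__wQ_26_wN_1_rb803308130536x2_3 : GoodKC AS k_wQ_26_wN_1_rb803308130536x2_3 := p_wQ_26_wN_1_rb803308130536x2_3 g__wQ_26_wN_1_rb803308130536x2_4

theorem g__wQ_26_wN_1_rb803308130536x2_0 : GoodKC AS k_wQ_26_wN_1_rb803308130536x2_0 := p_wQ_26_wN_1_rb803308130536x2_0 g__wQ_26_wN_1_rb803308130536x2_1 g__wQ_26_wN_1_rb803308130536x2_2 g__wQ_26_wN_1_rb803308130536x2_3

theorem g__wQ_26_wN_1_rb803308130536x2_5 : GoodKC AS k_wQ_26_wN_1_rb803308130536x2_5 := p_wQ_26_wN_1_rb803308130536x2_5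

theorem g__wQ_26_wN_1_rb803308130536x2_6 : GoodKC AS k_wQ_26_wN_1_rb803308130536x2_6 := p_wQ_26_wN_1_rb803308130536x2_6

theorem g__wQ_26_wN_1_rb803308130536x2_7 : GoodKC AS k_wQ_26_wN_1_rb803308130536x2_7 := p_wQ_26_wN_1_rb803308130536x2_7

theorem g__wQ_26_wN_1_rb803308130536x2_8 : GoodKC AS k_wQ_26_wN_1_rb803308130536x2_8 := p_wQ_26_wN_1_rb803308130536x2_8

theorem g_wQ_26_wN_1_rb803308130536x2 : GoodKC AS c_wQ_26_wN_1_rb803308130536x2 := p_wQ_26_wN_1_rb803308130536x2 g__wQ_26_wN_1_rb803308130536x2_0 g__wQ_26_wN_1_rb803308130536x2_5 g__wQ_26_wN_1_rb803308130536x2_6 g__wQ_26_wN_1_rb803308130536x2_7 g__wQ_26_wN_1_rb803308130536x2_8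

theorem g_wQ_26_wN_1_rb803308130535x2 : GoodKC AS c_wQ_26_wN_1_rb803308130535x2 := p_wQ_26_wN_1_rb803308130535x2

theorem g_wQ_26_wN_1_rb803308130532x2 : GoodKC AS c_wQ_26_wN_1_rb803308130532x2 := p_wQ_26_wN_1_rb803308130532x2

theorem g__wQ_26_wN_1_rb803308130530v2_1 : GoodKC AS k_wQ_26_wN_1_rb803308130530v2_1 := p_wQ_26_wN_1_rb803308130530v2_1

theorem g__wQ_26_wN_1_rb803308130530v2_2 : GoodKC AS k_wQ_26_wN_1_rb803308130530v2_2 := p_wQ_26_wN_1_rb803308130530v2_2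

theorem g__wQ_26_wN_1_rb803308130530v2_0 : GoodKC AS k_wQ_26_wN_1_rb803308130530v2_0 := p_wQ_26_wN_1_rb803308130530v2_0 g__wQ_26_wN_1_rb803308130530v2_1 g__wQ_26_wN_1_rb803308130530v2_2

theorem g__wQ_26_wN_1_rb803308130530v2_4 : GoodKC AS k_wQ_26_wN_1_rb803308130530v2_4 := p_wQ_26_wN_1_rb803308130530v2_4

theorem g__wQ_26_wN_1_rb803308130530v2_5 : GoodKC AS k_wQ_26_wN_1_rb803308130530v2_5 := p_wQ_26_wN_1_rb803308130530v2_5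

theorem g__wQ_26_wN_1_rb803308130530v2_3 : GoodKC AS k_wQ_26_wN_1_rb803308130530v2_3 := p_wQ_26_wN_1_rb803308130530v2_3 g__wQ_26_wN_1_rb803308130530v2_4 g__wQ_26_wN_1_rb803308130530v2_5

theorem g_wQ_26_wN_1_rb803308130530x2 : GoodKC AS c_wQ_26_wN_1_rb803308130530x2 := p_wQ_26_wN_1_rb803308130530x2 g__wQ_26_wN_1_rb803308130530v2_0 g__wQ_26_wN_1_rb803308130530v2_3

theorem g__wQ_26_wN_1_rb80330813052fx2_0 : GoodKC AS k_wQ_26_wN_1_rb80330813052fx2_0 := p_wQ_26_wN_1_rb80330813052fx2_0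

theorem g_wQ_26_wN_1_rb80330813052fx2 : GoodKC AS c_wQ_26_wN_1_rb80330813052fx2 := p_wQ_26_wN_1_rb80330813052fx2 g__wQ_26_wN_1_rb80330813052fx2_0

theorem g__wQ_26_wN_1_rb80330813052ex2_0 : GoodKC AS k_wQ_26_wN_1_rb80330813052ex2_0 := p_wQ_26_wN_1_rb80330813052ex2_0

theorem g_wQ_26_wN_1_rb80330813052ex2 : GoodKC AS c_wQ_26_wN_1_rb80330813052ex2 := p_wQ_26_wN_1_rb80330813052ex2 g__wQ_26_wN_1_rb80330813052ex2_0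

theorem g__wQ_26_wN_1_rb80330813052cx2_0 : GoodKC AS k_wQ_26_wN_1_rb80330813052cx2_0 := p_wQ_26_wN_1_rb80330813052cx2_0

theorem g_wQ_26_wN_1_rb80330813052cx2 : GoodKC AS c_wQ_26_wN_1_rb80330813052cx2 := p_wQ_26_wN_1_rb80330813052cx2 g__wQ_26_wN_1_rb80330813052cx2_0

theorem g_wQ_26_wN_1_rb80330813052ax2 : GoodKC AS c_wQ_26_wN_1_rb80330813052ax2 := p_wQ_26_wN_1_rb80330813052ax2

theorem g__wQ_26_wN_1_rb803308130529x2_0 : GoodKC AS k_wQ_26_wN_1_rb803308130529x2_0 := p_wQ_26_wN_1_rb803308130529x2_0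

theorem g_wQ_26_wN_1_rb803308130529x2 : GoodKC AS c_wQ_26_wN_1_rb803308130529x2 := p_wQ_26_wN_1_rb803308130529x2 g__wQ_26_wN_1_rb803308130529x2_0

theorem g_wQ_26_wN_1_rb803308130527x2 : GoodKC AS c_wQ_26_wN_1_rb803308130527x2 := p_wQ_26_wN_1_rb803308130527x2

theorem g_wQ_26_wN_1_rb80330813052620x2 : GoodKC AS c_wQ_26_wN_1_rb80330813052620x2 := p_wQ_26_wN_1_rb80330813052620x2

theorem g__wQ_26_wN_1_rb8033081305261ex2_0 : GoodKC AS k_wQ_26_wN_1_rb8033081305261ex2_0 := p_wQ_26_wN_1_rb8033081305261ex2_0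

theorem g_wQ_26_wN_1_rb8033081305261ex2 : GoodKC AS c_wQ_26_wN_1_rb8033081305261ex2 := p_wQ_26_wN_1_rb8033081305261ex2 g__wQ_26_wN_1_rb8033081305261ex2_0

theorem g_wQ_26_wN_1_rb8033081305261dx2 : GoodKC AS c_wQ_26_wN_1_rb8033081305261dx2 := p_wQ_26_wN_1_rb8033081305261dx2

theorem g_wQ_26_wN_1_rb8033081305261cx2 : GoodKC AS c_wQ_26_wN_1_rb8033081305261cx2 := p_wQ_26_wN_1_rb8033081305261cx2

theorem g_wQ_26_wN_1_rb8033081305261bx2 : GoodKC AS c_wQ_26_wN_1_rb8033081305261bx2 := p_wQ_26_wN_1_rb8033081305261bx2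

theorem g_wQ_26_wN_1_rb8033081305261ax2 : GoodKC AS c_wQ_26_wN_1_rb8033081305261ax2 := p_wQ_26_wN_1_rb8033081305261ax2

theorem g_wQ_26_wN_1_rb80330813052619x2 : GoodKC AS c_wQ_26_wN_1_rb80330813052619x2 := p_wQ_26_wN_1_rb80330813052619x2

theorem g_wQ_26_wN_1_rb80330813052618x2 : GoodKC AS c_wQ_26_wN_1_rb80330813052618x2 := p_wQ_26_wN_1_rb80330813052618x2

theorem g_wQ_26_wN_1_rb80330813052615x2 : GoodKC AS c_wQ_26_wN_1_rb80330813052615x2 := p_wQ_26_wN_1_rb80330813052615x2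

theorem g_wQ_26_wN_1_rb80330813052614x2 : GoodKC AS c_wQ_26_wN_1_rb80330813052614x2 := p_wQ_26_wN_1_rb80330813052614x2

theorem g_wQ_26_wN_1_rb80330813052610x2 : GoodKC AS c_wQ_26_wN_1_rb80330813052610x2 := p_wQ_26_wN_1_rb80330813052610x2

theorem g_wQ_26_wN_1_rb8033081305260ax2 : GoodKC AS c_wQ_26_wN_1_rb8033081305260ax2 := p_wQ_26_wN_1_rb8033081305260ax2

theorem g_wQ_26_wN_1_rb80330813052609x2 : GoodKC AS c_wQ_26_wN_1_rb80330813052609x2 := p_wQ_26_wN_1_rb80330813052609x2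

theorem g__wQ_26_wN_1_rb80330813052606x2_0 : GoodKC AS k_wQ_26_wN_1_rb80330813052606x2_0 := p_wQ_26_wN_1_rb80330813052606x2_0

theorem g__wQ_26_wN_1_rb80330813052606x2_2 : GoodKC AS k_wQ_26_wN_1_rb80330813052606x2_2 := p_wQ_26_wN_1_rb80330813052606x2_2

theorem g__wQ_26_wN_1_rb80330813052606x2_3 : GoodKC AS k_wQ_26_wN_1_rb80330813052606x2_3 := p_wQ_26_wN_1_rb80330813052606x2_3

theorem g__wQ_26_wN_1_rb80330813052606x2_6 : GoodKC AS k_wQ_26_wN_1_rb80330813052606x2_6 := p_wQ_26_wN_1_rb80330813052606x2_6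

theorem g__wQ_26_wN_1_rb80330813052606x2_5 : GoodKC AS k_wQ_26_wN_1_rb80330813052606x2_5 := p_wQ_26_wN_1_rb80330813052606x2_5 g__wQ_26_wN_1_rb80330813052606x2_6

theorem g__wQ_26_wN_1_rb80330813052606x2_4 : GoodKC AS k_wQ_26_wN_1_rb80330813052606x2_4 := p_wQ_26_wN_1_rb80330813052606x2_4 g__wQ_26_wN_1_rb80330813052606x2_5

theorem g__wQ_26_wN_1_rb80330813052606x2_1 : GoodKC AS k_wQ_26_wN_1_rb80330813052606x2_1 := p_wQ_26_wN_1_rb80330813052606x2_1 g__wQ_26_wN_1_rb80330813052606x2_2 g__wQ_26_wN_1_rb80330813052606x2_3 g__wQ_26_wN_1_rb80330813052606x2_4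

theorem g_wQ_26_wN_1_rb80330813052606x2 : GoodKC AS c_wQ_26_wN_1_rb80330813052606x2 := p_wQ_26_wN_1_rb80330813052606x2 g__wQ_26_wN_1_rb80330813052606x2_0 g__wQ_26_wN_1_rb80330813052606x2_1

theorem g__wQ_26_wN_1_rb80330813052605x2_1 : GoodKC AS k_wQ_26_wN_1_rb80330813052605x2_1 := p_wQ_26_wN_1_rb80330813052605x2_1

theorem g__wQ_26_wN_1_rb80330813052605x2_0 : GoodKC AS k_wQ_26_wN_1_rb80330813052605x2_0 := p_wQ_26_wN_1_rb80330813052605x2_0 g__wQ_26_wN_1_rb80330813052605x2_1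

theorem g_wQ_26_wN_1_rb80330813052605x2 : GoodKC AS c_wQ_26_wN_1_rb80330813052605x2 := p_wQ_26_wN_1_rb80330813052605x2 g__wQ_26_wN_1_rb80330813052605x2_0

theorem g_wQ_26_wN_1_rb80330813052604x2 : GoodKC AS c_wQ_26_wN_1_rb80330813052604x2 := p_wQ_26_wN_1_rb80330813052604x2

theorem g_wQ_26_wN_1_rb80330813052603x2 : GoodKC AS c_wQ_26_wN_1_rb80330813052603x2 := p_wQ_26_wN_1_rb80330813052603x2

theorem g__wQ_26_wN_1_rb803308130526x2_0 : GoodKC AS k_wQ_26_wN_1_rb803308130526x2_0 := p_wQ_26_wN_1_rb803308130526x2_0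

theorem g__wQ_26_wN_1_rb803308130526x2_4 : GoodKC AS k_wQ_26_wN_1_rb803308130526x2_4 := p_wQ_26_wN_1_rb803308130526x2_4

theorem g__wQ_26_wN_1_rb803308130526x2_5 : GoodKC AS k_wQ_26_wN_1_rb803308130526x2_5 := p_wQ_26_wN_1_rb803308130526x2_5

theorem g__wQ_26_wN_1_rb803308130526x2_3 : GoodKC AS k_wQ_26_wN_1_rb803308130526x2_3 := p_wQ_26_wN_1_rb803308130526x2_3 g__wQ_26_wN_1_rb803308130526x2_4 g__wQ_26_wN_1_rb803308130526x2_5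

theorem g__wQ_26_wN_1_rb803308130526x2_6 : GoodKC AS k_wQ_26_wN_1_rb803308130526x2_6 := p_wQ_26_wN_1_rb803308130526x2_6

theorem g__wQ_26_wN_1_rb803308130526x2_7 : GoodKC AS k_wQ_26_wN_1_rb803308130526x2_7 := p_wQ_26_wN_1_rb803308130526x2_7

theorem g__wQ_26_wN_1_rb803308130526x2_2 : GoodKC AS k_wQ_26_wN_1_rb803308130526x2_2 := p_wQ_26_wN_1_rb803308130526x2_2 g__wQ_26_wN_1_rb803308130526x2_3 g__wQ_26_wN_1_rb803308130526x2_6 g__wQ_26_wN_1_rb803308130526x2_7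

theorem g__wQ_26_wN_1_rb803308130526x2_14 : GoodKC AS k_wQ_26_wN_1_rb803308130526x2_14 := p_wQ_26_wN_1_rb803308130526x2_14

theorem g__wQ_26_wN_1_rb803308130526x2_13 : GoodKC AS k_wQ_26_wN_1_rb803308130526x2_13 := p_wQ_26_wN_1_rb803308130526x2_13 g__wQ_26_wN_1_rb803308130526x2_14

theorem g__wQ_26_wN_1_rb803308130526x2_12 : GoodKC AS k_wQ_26_wN_1_rb803308130526x2_12 := p_wQ_26_wN_1_rb803308130526x2_12 g__wQ_26_wN_1_rb803308130526x2_13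

theorem g__wQ_26_wN_1_rb803308130526x2_16 : GoodKC AS k_wQ_26_wN_1_rb803308130526x2_16 := p_wQ_26_wN_1_rb803308130526x2_16

theorem g__wQ_26_wN_1_rb803308130526x2_17 : GoodKC AS k_wQ_26_wN_1_rb803308130526x2_17 := p_wQ_26_wN_1_rb803308130526x2_17

theorem g__wQ_26_wN_1_rb803308130526x2_15 : GoodKC AS k_wQ_26_wN_1_rb803308130526x2_15 := p_wQ_26_wN_1_rb803308130526x2_15 g__wQ_26_wN_1_rb803308130526x2_16 g__wQ_26_wN_1_rb803308130526x2_17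

theorem g__wQ_26_wN_1_rb803308130526x2_11 : GoodKC AS k_wQ_26_wN_1_rb803308130526x2_11 := p_wQ_26_wN_1_rb803308130526x2_11 g__wQ_26_wN_1_rb803308130526x2_12 g__wQ_26_wN_1_rb803308130526x2_15

theorem g__wQ_26_wN_1_rb803308130526x2_10 : GoodKC AS k_wQ_26_wN_1_rb803308130526x2_10 := p_wQ_26_wN_1_rb803308130526x2_10 g__wQ_26_wN_1_rb803308130526x2_11

theorem g__wQ_26_wN_1_rb803308130526x2_9 : GoodKC AS k_wQ_26_wN_1_rb803308130526x2_9 := p_wQ_26_wN_1_rb803308130526x2_9 g__wQ_26_wN_1_rb803308130526x2_10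

theorem g__wQ_26_wN_1_rb803308130526x2_18 : GoodKC AS k_wQ_26_wN_1_rb803308130526x2_18 := p_wQ_26_wN_1_rb803308130526x2_18

theorem g__wQ_26_wN_1_rb803308130526x2_8 : GoodKC AS k_wQ_26_wN_1_rb803308130526x2_8 := p_wQ_26_wN_1_rb803308130526x2_8 g__wQ_26_wN_1_rb803308130526x2_9 g__wQ_26_wN_1_rb803308130526x2_18

theorem g__wQ_26_wN_1_rb803308130526x2_1 : GoodKC AS k_wQ_26_wN_1_rb803308130526x2_1 := p_wQ_26_wN_1_rb803308130526x2_1 g__wQ_26_wN_1_rb803308130526x2_2 g__wQ_26_wN_1_rb803308130526x2_8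

theorem g_wQ_26_wN_1_rb80330813052602x2 : GoodKC AS c_wQ_26_wN_1_rb80330813052602x2 := p_wQ_26_wN_1_rb80330813052602x2

theorem g_wQ_26_wN_1_rb80330813052601x2 : GoodKC AS c_wQ_26_wN_1_rb80330813052601x2 := p_wQ_26_wN_1_rb80330813052601x2

theorem g__wQ_26_wN_1_rb80330813052600v2_0 : GoodKC AS k_wQ_26_wN_1_rb80330813052600v2_0 := p_wQ_26_wN_1_rb80330813052600v2_0

theorem g__wQ_26_wN_1_rb80330813052600v2_2 : GoodKC AS k_wQ_26_wN_1_rb80330813052600v2_2 := p_wQ_26_wN_1_rb80330813052600v2_2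

theorem g__wQ_26_wN_1_rb80330813052600v2_3 : GoodKC AS k_wQ_26_wN_1_rb80330813052600v2_3 := p_wQ_26_wN_1_rb80330813052600v2_3

theorem g__wQ_26_wN_1_rb80330813052600v2_9 : GoodKC AS k_wQ_26_wN_1_rb80330813052600v2_9 := p_wQ_26_wN_1_rb80330813052600v2_9

theorem g__wQ_26_wN_1_rb80330813052600v2_14 : GoodKC AS k_wQ_26_wN_1_rb80330813052600v2_14 := p_wQ_26_wN_1_rb80330813052600v2_14

theorem g__wQ_26_wN_1_rb80330813052600v2_13 : GoodKC AS k_wQ_26_wN_1_rb80330813052600v2_13 := p_wQ_26_wN_1_rb80330813052600v2_13 g__wQ_26_wN_1_rb80330813052600v2_14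

theorem g__wQ_26_wN_1_rb80330813052600v2_12 : GoodKC AS k_wQ_26_wN_1_rb80330813052600v2_12 := p_wQ_26_wN_1_rb80330813052600v2_12 g__wQ_26_wN_1_rb80330813052600v2_13

theorem g__wQ_26_wN_1_rb80330813052600v2_11 : GoodKC AS k_wQ_26_wN_1_rb80330813052600v2_11 := p_wQ_26_wN_1_rb80330813052600v2_11 g__wQ_26_wN_1_rb80330813052600v2_12

theorem g__wQ_26_wN_1_rb80330813052600v2_10 : GoodKC AS k_wQ_26_wN_1_rb80330813052600v2_10 := p_wQ_26_wN_1_rb80330813052600v2_10 g__wQ_26_wN_1_rb80330813052600v2_11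

theorem g__wQ_26_wN_1_rb80330813052600v2_8 : GoodKC AS k_wQ_26_wN_1_rb80330813052600v2_8 := p_wQ_26_wN_1_rb80330813052600v2_8 g__wQ_26_wN_1_rb80330813052600v2_9 g__wQ_26_wN_1_rb80330813052600v2_10

theorem g__wQ_26_wN_1_rb80330813052600v2_7 : GoodKC AS k_wQ_26_wN_1_rb80330813052600v2_7 := p_wQ_26_wN_1_rb80330813052600v2_7 g__wQ_26_wN_1_rb80330813052600v2_8

theorem g__wQ_26_wN_1_rb80330813052600v2_6 : GoodKC AS k_wQ_26_wN_1_rb80330813052600v2_6 := p_wQ_26_wN_1_rb80330813052600v2_6 g__wQ_26_wN_1_rb80330813052600v2_7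

theorem g__wQ_26_wN_1_rb80330813052600v2_16 : GoodKC AS k_wQ_26_wN_1_rb80330813052600v2_16 := p_wQ_26_wN_1_rb80330813052600v2_16

theorem g__wQ_26_wN_1_rb80330813052600v2_15 : GoodKC AS k_wQ_26_wN_1_rb80330813052600v2_15 := p_wQ_26_wN_1_rb80330813052600v2_15 g__wQ_26_wN_1_rb80330813052600v2_16

theorem g__wQ_26_wN_1_rb80330813052600v2_5 : GoodKC AS k_wQ_26_wN_1_rb80330813052600v2_5 := p_wQ_26_wN_1_rb80330813052600v2_5 g__wQ_26_wN_1_rb80330813052600v2_6 g__wQ_26_wN_1_rb80330813052600v2_15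

theorem g__wQ_26_wN_1_rb80330813052600v2_20 : GoodKC AS k_wQ_26_wN_1_rb80330813052600v2_20 := p_wQ_26_wN_1_rb80330813052600v2_20

theorem g__wQ_26_wN_1_rb80330813052600v2_19 : GoodKC AS k_wQ_26_wN_1_rb80330813052600v2_19 := p_wQ_26_wN_1_rb80330813052600v2_19 g__wQ_26_wN_1_rb80330813052600v2_20

theorem g__wQ_26_wN_1_rb80330813052600v2_18 : GoodKC AS k_wQ_26_wN_1_rb80330813052600v2_18 := p_wQ_26_wN_1_rb80330813052600v2_18 g__wQ_26_wN_1_rb80330813052600v2_19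

theorem g__wQ_26_wN_1_rb80330813052600v2_17 : GoodKC AS k_wQ_26_wN_1_rb80330813052600v2_17 := p_wQ_26_wN_1_rb80330813052600v2_17 g__wQ_26_wN_1_rb80330813052600v2_18

theorem g__wQ_26_wN_1_rb80330813052600v2_4 : GoodKC AS k_wQ_26_wN_1_rb80330813052600v2_4 := p_wQ_26_wN_1_rb80330813052600v2_4 g__wQ_26_wN_1_rb80330813052600v2_5 g__wQ_26_wN_1_rb80330813052600v2_17

theorem g__wQ_26_wN_1_rb80330813052600v2_1 : GoodKC AS k_wQ_26_wN_1_rb80330813052600v2_1 := p_wQ_26_wN_1_rb80330813052600v2_1 g__wQ_26_wN_1_rb80330813052600v2_2 g__wQ_26_wN_1_rb80330813052600v2_3 g__wQ_26_wN_1_rb80330813052600v2_4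

theorem g_wQ_26_wN_1_rb80330813052600x2 : GoodKC AS c_wQ_26_wN_1_rb80330813052600x2 := p_wQ_26_wN_1_rb80330813052600x2 g__wQ_26_wN_1_rb80330813052600v2_0 g__wQ_26_wN_1_rb80330813052600v2_1

theorem g__wQ_26_wN_1_rb803308130526x2_22 : GoodKC AS k_wQ_26_wN_1_rb803308130526x2_22 := p_wQ_26_wN_1_rb803308130526x2_22

theorem g__wQ_26_wN_1_rb803308130526x2_21 : GoodKC AS k_wQ_26_wN_1_rb803308130526x2_21 := p_wQ_26_wN_1_rb803308130526x2_21 g__wQ_26_wN_1_rb803308130526x2_22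

theorem g__wQ_26_wN_1_rb803308130526x2_23 : GoodKC AS k_wQ_26_wN_1_rb803308130526x2_23 := p_wQ_26_wN_1_rb803308130526x2_23

theorem g__wQ_26_wN_1_rb803308130526x2_20 : GoodKC AS k_wQ_26_wN_1_rb803308130526x2_20 := p_wQ_26_wN_1_rb803308130526x2_20 g__wQ_26_wN_1_rb803308130526x2_21 g__wQ_26_wN_1_rb803308130526x2_23

theorem g__wQ_26_wN_1_rb803308130526x2_19 : GoodKC AS k_wQ_26_wN_1_rb803308130526x2_19 := p_wQ_26_wN_1_rb803308130526x2_19 g_wQ_26_wN_1_rb80330813052602x2 g_wQ_26_wN_1_rb80330813052601x2 g_wQ_26_wN_1_rb80330813052600x2 g__wQ_26_wN_1_rb803308130526x2_20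

theorem g_wQ_26_wN_1_rb80330813052607x2 : GoodKC AS c_wQ_26_wN_1_rb80330813052607x2 := p_wQ_26_wN_1_rb80330813052607x2

theorem g_wQ_26_wN_1_rb80330813052608x2 : GoodKC AS c_wQ_26_wN_1_rb80330813052608x2 := p_wQ_26_wN_1_rb80330813052608x2

theorem g_wQ_26_wN_1_rb8033081305260bx2 : GoodKC AS c_wQ_26_wN_1_rb8033081305260bx2 := p_wQ_26_wN_1_rb8033081305260bx2

theorem g_wQ_26_wN_1_rb8033081305260cx2 : GoodKC AS c_wQ_26_wN_1_rb8033081305260cx2 := p_wQ_26_wN_1_rb8033081305260cx2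

theorem g__wQ_26_wN_1_rb8033081305260dx2_7 : GoodKC AS k_wQ_26_wN_1_rb8033081305260dx2_7 := p_wQ_26_wN_1_rb8033081305260dx2_7

theorem g__wQ_26_wN_1_rb8033081305260dx2_6 : GoodKC AS k_wQ_26_wN_1_rb8033081305260dx2_6 := p_wQ_26_wN_1_rb8033081305260dx2_6 g__wQ_26_wN_1_rb8033081305260dx2_7

theorem g__wQ_26_wN_1_rb8033081305260dx2_5 : GoodKC AS k_wQ_26_wN_1_rb8033081305260dx2_5 := p_wQ_26_wN_1_rb8033081305260dx2_5 g__wQ_26_wN_1_rb8033081305260dx2_6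

theorem g__wQ_26_wN_1_rb8033081305260dx2_4 : GoodKC AS k_wQ_26_wN_1_rb8033081305260dx2_4 := p_wQ_26_wN_1_rb8033081305260dx2_4 g__wQ_26_wN_1_rb8033081305260dx2_5

theorem g__wQ_26_wN_1_rb8033081305260dx2_3 : GoodKC AS k_wQ_26_wN_1_rb8033081305260dx2_3 := p_wQ_26_wN_1_rb8033081305260dx2_3 g__wQ_26_wN_1_rb8033081305260dx2_4

theorem g__wQ_26_wN_1_rb8033081305260dx2_2 : GoodKC AS k_wQ_26_wN_1_rb8033081305260dx2_2 := p_wQ_26_wN_1_rb8033081305260dx2_2 g__wQ_26_wN_1_rb8033081305260dx2_3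

theorem g__wQ_26_wN_1_rb8033081305260dx2_1 : GoodKC AS k_wQ_26_wN_1_rb8033081305260dx2_1 := p_wQ_26_wN_1_rb8033081305260dx2_1 g__wQ_26_wN_1_rb8033081305260dx2_2

theorem g__wQ_26_wN_1_rb8033081305260dx2_8 : GoodKC AS k_wQ_26_wN_1_rb8033081305260dx2_8 := p_wQ_26_wN_1_rb8033081305260dx2_8

theorem g__wQ_26_wN_1_rb8033081305260dx2_0 : GoodKC AS k_wQ_26_wN_1_rb8033081305260dx2_0 := p_wQ_26_wN_1_rb8033081305260dx2_0 g__wQ_26_wN_1_rb8033081305260dx2_1 g__wQ_26_wN_1_rb8033081305260dx2_8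

theorem g_wQ_26_wN_1_rb8033081305260dx2 : GoodKC AS c_wQ_26_wN_1_rb8033081305260dx2 := p_wQ_26_wN_1_rb8033081305260dx2 g__wQ_26_wN_1_rb8033081305260dx2_0

theorem g__wQ_26_wN_1_rb8033081305260ex2_0 : GoodKC AS k_wQ_26_wN_1_rb8033081305260ex2_0 := p_wQ_26_wN_1_rb8033081305260ex2_0

theorem g_wQ_26_wN_1_rb8033081305260ex2 : GoodKC AS c_wQ_26_wN_1_rb8033081305260ex2 := p_wQ_26_wN_1_rb8033081305260ex2 g__wQ_26_wN_1_rb8033081305260ex2_0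

theorem g_wQ_26_wN_1_rb8033081305260fx2 : GoodKC AS c_wQ_26_wN_1_rb8033081305260fx2 := p_wQ_26_wN_1_rb8033081305260fx2

theorem g_wQ_26_wN_1_rb80330813052611x2 : GoodKC AS c_wQ_26_wN_1_rb80330813052611x2 := p_wQ_26_wN_1_rb80330813052611x2

theorem g_wQ_26_wN_1_rb80330813052612x2 : GoodKC AS c_wQ_26_wN_1_rb80330813052612x2 := p_wQ_26_wN_1_rb80330813052612x2

theorem g_wQ_26_wN_1_rb80330813052613x2 : GoodKC AS c_wQ_26_wN_1_rb80330813052613x2 := p_wQ_26_wN_1_rb80330813052613x2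

theorem g_wQ_26_wN_1_rb80330813052616x2 : GoodKC AS c_wQ_26_wN_1_rb80330813052616x2 := p_wQ_26_wN_1_rb80330813052616x2

theorem g_wQ_26_wN_1_rb80330813052617x2 : GoodKC AS c_wQ_26_wN_1_rb80330813052617x2 := p_wQ_26_wN_1_rb80330813052617x2

theorem g_wQ_26_wN_1_rb8033081305261fx2 : GoodKC AS c_wQ_26_wN_1_rb8033081305261fx2 := p_wQ_26_wN_1_rb8033081305261fx2

theorem g__wQ_26_wN_1_rb80330813052621x2_2 : GoodKC AS k_wQ_26_wN_1_rb80330813052621x2_2 := p_wQ_26_wN_1_rb80330813052621x2_2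

theorem g__wQ_26_wN_1_rb80330813052621x2_1 : GoodKC AS k_wQ_26_wN_1_rb80330813052621x2_1 := p_wQ_26_wN_1_rb80330813052621x2_1 g__wQ_26_wN_1_rb80330813052621x2_2

theorem g__wQ_26_wN_1_rb80330813052621x2_0 : GoodKC AS k_wQ_26_wN_1_rb80330813052621x2_0 := p_wQ_26_wN_1_rb80330813052621x2_0 g__wQ_26_wN_1_rb80330813052621x2_1

theorem g_wQ_26_wN_1_rb80330813052621x2 : GoodKC AS c_wQ_26_wN_1_rb80330813052621x2 := p_wQ_26_wN_1_rb80330813052621x2 g__wQ_26_wN_1_rb80330813052621x2_0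

theorem g_wQ_26_wN_1_rb803308130526x2 : GoodKC AS c_wQ_26_wN_1_rb803308130526x2 := p_wQ_26_wN_1_rb803308130526x2 g_wQ_26_wN_1_rb80330813052620x2 g_wQ_26_wN_1_rb8033081305261ex2 g_wQ_26_wN_1_rb8033081305261dx2 g_wQ_26_wN_1_rb8033081305261cx2 g_wQ_26_wN_1_rb8033081305261bx2 g_wQ_26_wN_1_rb8033081305261ax2 g_wQ_26_wN_1_rb80330813052619x2 g_wQ_26_wN_1_rb80330813052618x2 g_wQ_26_wN_1_rb80330813052615x2 g_wQ_26_wN_1_rb80330813052614x2 g_wQ_26_wN_1_rb80330813052610x2 g_wQ_26_wN_1_rb8033081305260ax2 g_wQ_26_wN_1_rb80330813052609x2 g_wQ_26_wN_1_rb80330813052606x2 g_wQ_26_wN_1_rb80330813052605x2 g_wQ_26_wN_1_rb80330813052604x2 g_wQ_26_wN_1_rb80330813052603x2 g__wQ_26_wN_1_rb803308130526x2_0 g__wQ_26_wN_1_rb803308130526x2_1 g__wQ_26_wN_1_rb803308130526x2_19 g_wQ_26_wN_1_rb80330813052607x2 g_wQ_26_wN_1_rb80330813052608x2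 g_wQ_26_wN_1_rb8033081305260bx2 g_wQ_26_wN_1_rb8033081305260cx2 g_wQ_26_wN_1_rb8033081305260dx2 g_wQ_26_wN_1_rb8033081305260ex2 g_wQ_26_wN_1_rb8033081305260fx2 g_wQ_26_wN_1_rb80330813052611x2 g_wQ_26_wN_1_rb80330813052612x2 g_wQ_26_wN_1_rb80330813052613x2 g_wQ_26_wN_1_rb80330813052616x2 g_wQ_26_wN_1_rb80330813052617x2 g_wQ_26_wN_1_rb8033081305261fx2 g_wQ_26_wN_1_rb80330813052621x2

theorem g_wQ_26_wN_1_rb803308130525x2 : GoodKC AS c_wQ_26_wN_1_rb803308130525x2 := p_wQ_26_wN_1_rb803308130525x2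

theorem g_wQ_26_wN_1_rb80330813052422x2 : GoodKC AS c_wQ_26_wN_1_rb80330813052422x2 := p_wQ_26_wN_1_rb80330813052422x2

theorem g_wQ_26_wN_1_rb8033081305241fx2 : GoodKC AS c_wQ_26_wN_1_rb8033081305241fx2 := p_wQ_26_wN_1_rb8033081305241fx2

theorem g__wQ_26_wN_1_rb803308130524x2_1 : GoodKC AS k_wQ_26_wN_1_rb803308130524x2_1 := p_wQ_26_wN_1_rb803308130524x2_1

theorem g_wQ_26_wN_1_rb8033081305241dx2 : GoodKC AS c_wQ_26_wN_1_rb8033081305241dx2 := p_wQ_26_wN_1_rb8033081305241dx2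

theorem g_wQ_26_wN_1_rb8033081305241bx2 : GoodKC AS c_wQ_26_wN_1_rb8033081305241bx2 := p_wQ_26_wN_1_rb8033081305241bx2

theorem g_wQ_26_wN_1_rb80330813052419x2 : GoodKC AS c_wQ_26_wN_1_rb80330813052419x2 := p_wQ_26_wN_1_rb80330813052419x2

theorem g_wQ_26_wN_1_rb80330813052418x2 : GoodKC AS c_wQ_26_wN_1_rb80330813052418x2 := p_wQ_26_wN_1_rb80330813052418x2

theorem g_wQ_26_wN_1_rb80330813052416x2 : GoodKC AS c_wQ_26_wN_1_rb80330813052416x2 := p_wQ_26_wN_1_rb80330813052416x2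

theorem g_wQ_26_wN_1_rb80330813052415x2 : GoodKC AS c_wQ_26_wN_1_rb80330813052415x2 := p_wQ_26_wN_1_rb80330813052415x2

theorem g_wQ_26_wN_1_rb80330813052414x2 : GoodKC AS c_wQ_26_wN_1_rb80330813052414x2 := p_wQ_26_wN_1_rb80330813052414x2

theorem g_wQ_26_wN_1_rb80330813052413x2 : GoodKC AS c_wQ_26_wN_1_rb80330813052413x2 := p_wQ_26_wN_1_rb80330813052413x2

theorem g_wQ_26_wN_1_rb80330813052412x2 : GoodKC AS c_wQ_26_wN_1_rb80330813052412x2 := p_wQ_26_wN_1_rb80330813052412x2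

theorem g_wQ_26_wN_1_rb80330813052411x2 : GoodKC AS c_wQ_26_wN_1_rb80330813052411x2 := p_wQ_26_wN_1_rb80330813052411x2

theorem g_wQ_26_wN_1_rb8033081305240ex2 : GoodKC AS c_wQ_26_wN_1_rb8033081305240ex2 := p_wQ_26_wN_1_rb8033081305240ex2

theorem g_wQ_26_wN_1_rb8033081305240cx2 : GoodKC AS c_wQ_26_wN_1_rb8033081305240cx2 := p_wQ_26_wN_1_rb8033081305240cx2

theorem g_wQ_26_wN_1_rb8033081305240bx2 : GoodKC AS c_wQ_26_wN_1_rb8033081305240bx2 := p_wQ_26_wN_1_rb8033081305240bx2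

theorem g_wQ_26_wN_1_rb8033081305240ax2 : GoodKC AS c_wQ_26_wN_1_rb8033081305240ax2 := p_wQ_26_wN_1_rb8033081305240ax2

theorem g_wQ_26_wN_1_rb80330813052409x2 : GoodKC AS c_wQ_26_wN_1_rb80330813052409x2 := p_wQ_26_wN_1_rb80330813052409x2

theorem g_wQ_26_wN_1_rb80330813052407x2 : GoodKC AS c_wQ_26_wN_1_rb80330813052407x2 := p_wQ_26_wN_1_rb80330813052407x2

theorem g_wQ_26_wN_1_rb80330813052406x2 : GoodKC AS c_wQ_26_wN_1_rb80330813052406x2 := p_wQ_26_wN_1_rb80330813052406x2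

theorem g_wQ_26_wN_1_rb80330813052404x2 : GoodKC AS c_wQ_26_wN_1_rb80330813052404x2 := p_wQ_26_wN_1_rb80330813052404x2

theorem g_wQ_26_wN_1_rb80330813052403x2 : GoodKC AS c_wQ_26_wN_1_rb80330813052403x2 := p_wQ_26_wN_1_rb80330813052403x2

theorem g_wQ_26_wN_1_rb80330813052402x2 : GoodKC AS c_wQ_26_wN_1_rb80330813052402x2 := p_wQ_26_wN_1_rb80330813052402x2

theorem g_wQ_26_wN_1_rb80330813052400x2 : GoodKC AS c_wQ_26_wN_1_rb80330813052400x2 := p_wQ_26_wN_1_rb80330813052400x2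

theorem g_wQ_26_wN_1_rb80330813052401x2 : GoodKC AS c_wQ_26_wN_1_rb80330813052401x2 := p_wQ_26_wN_1_rb80330813052401x2

theorem g_wQ_26_wN_1_rb80330813052405x2 : GoodKC AS c_wQ_26_wN_1_rb80330813052405x2 := p_wQ_26_wN_1_rb80330813052405x2

theorem g_wQ_26_wN_1_rb80330813052408x2 : GoodKC AS c_wQ_26_wN_1_rb80330813052408x2 := p_wQ_26_wN_1_rb80330813052408x2

theorem g_wQ_26_wN_1_rb8033081305240dx2 : GoodKC AS c_wQ_26_wN_1_rb8033081305240dx2 := p_wQ_26_wN_1_rb8033081305240dx2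

theorem g_wQ_26_wN_1_rb8033081305240fx2 : GoodKC AS c_wQ_26_wN_1_rb8033081305240fx2 := p_wQ_26_wN_1_rb8033081305240fx2

theorem g_wQ_26_wN_1_rb80330813052410x2 : GoodKC AS c_wQ_26_wN_1_rb80330813052410x2 := p_wQ_26_wN_1_rb80330813052410x2

theorem g_wQ_26_wN_1_rb80330813052417x2 : GoodKC AS c_wQ_26_wN_1_rb80330813052417x2 := p_wQ_26_wN_1_rb80330813052417x2

theorem g_wQ_26_wN_1_rb8033081305241ax2 : GoodKC AS c_wQ_26_wN_1_rb8033081305241ax2 := p_wQ_26_wN_1_rb8033081305241ax2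

theorem g_wQ_26_wN_1_rb8033081305241cx2 : GoodKC AS c_wQ_26_wN_1_rb8033081305241cx2 := p_wQ_26_wN_1_rb8033081305241cx2

theorem g__wQ_26_wN_1_rb803308130524x2_6 : GoodKC AS k_wQ_26_wN_1_rb803308130524x2_6 := p_wQ_26_wN_1_rb803308130524x2_6

theorem g__wQ_26_wN_1_rb803308130524x2_5 : GoodKC AS k_wQ_26_wN_1_rb803308130524x2_5 := p_wQ_26_wN_1_rb803308130524x2_5 g__wQ_26_wN_1_rb803308130524x2_6

theorem g__wQ_26_wN_1_rb803308130524x2_7 : GoodKC AS k_wQ_26_wN_1_rb803308130524x2_7 := p_wQ_26_wN_1_rb803308130524x2_7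

theorem g__wQ_26_wN_1_rb803308130524x2_9 : GoodKC AS k_wQ_26_wN_1_rb803308130524x2_9 := p_wQ_26_wN_1_rb803308130524x2_9

theorem g__wQ_26_wN_1_rb803308130524x2_8 : GoodKC AS k_wQ_26_wN_1_rb803308130524x2_8 := p_wQ_26_wN_1_rb803308130524x2_8 g__wQ_26_wN_1_rb803308130524x2_9

theorem g__wQ_26_wN_1_rb803308130524x2_4 : GoodKC AS k_wQ_26_wN_1_rb803308130524x2_4 := p_wQ_26_wN_1_rb803308130524x2_4 g__wQ_26_wN_1_rb803308130524x2_5 g__wQ_26_wN_1_rb803308130524x2_7 g__wQ_26_wN_1_rb803308130524x2_8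

theorem g__wQ_26_wN_1_rb803308130524x2_3 : GoodKC AS k_wQ_26_wN_1_rb803308130524x2_3 := p_wQ_26_wN_1_rb803308130524x2_3 g__wQ_26_wN_1_rb803308130524x2_4

theorem g__wQ_26_wN_1_rb803308130524x2_2 : GoodKC AS k_wQ_26_wN_1_rb803308130524x2_2 := p_wQ_26_wN_1_rb803308130524x2_2 g__wQ_26_wN_1_rb803308130524x2_3

theorem g_wQ_26_wN_1_rb8033081305241ex2 : GoodKC AS c_wQ_26_wN_1_rb8033081305241ex2 := p_wQ_26_wN_1_rb8033081305241ex2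

theorem g_wQ_26_wN_1_rb80330813052420x2 : GoodKC AS c_wQ_26_wN_1_rb80330813052420x2 := p_wQ_26_wN_1_rb80330813052420x2

theorem g__wQ_26_wN_1_rb803308130524x2_0 : GoodKC AS k_wQ_26_wN_1_rb803308130524x2_0 := p_wQ_26_wN_1_rb803308130524x2_0 g_wQ_26_wN_1_rb8033081305241fx2 g__wQ_26_wN_1_rb803308130524x2_1 g_wQ_26_wN_1_rb8033081305241dx2 g_wQ_26_wN_1_rb8033081305241bx2 g_wQ_26_wN_1_rb80330813052419x2 g_wQ_26_wN_1_rb80330813052418x2 g_wQ_26_wN_1_rb80330813052416x2 g_wQ_26_wN_1_rb80330813052415x2 g_wQ_26_wN_1_rb80330813052414x2 g_wQ_26_wN_1_rb80330813052413x2 g_wQ_26_wN_1_rb80330813052412x2 g_wQ_26_wN_1_rb80330813052411x2 g_wQ_26_wN_1_rb8033081305240ex2 g_wQ_26_wN_1_rb8033081305240cx2 g_wQ_26_wN_1_rb8033081305240bx2 g_wQ_26_wN_1_rb8033081305240ax2 g_wQ_26_wN_1_rb80330813052409x2 g_wQ_26_wN_1_rb80330813052407x2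 g_wQ_26_wN_1_rb80330813052406x2 g_wQ_26_wN_1_rb80330813052404x2 g_wQ_26_wN_1_rb80330813052403x2 g_wQ_26_wN_1_rb80330813052402x2 g_wQ_26_wN_1_rb80330813052400x2 g_wQ_26_wN_1_rb80330813052401x2 g_wQ_26_wN_1_rb80330813052405x2 g_wQ_26_wN_1_rb80330813052408x2 g_wQ_26_wN_1_rb8033081305240dx2 g_wQ_26_wN_1_rb8033081305240fx2 g_wQ_26_wN_1_rb80330813052410x2 g_wQ_26_wN_1_rb80330813052417x2 g_wQ_26_wN_1_rb8033081305241ax2 g_wQ_26_wN_1_rb8033081305241cx2 g__wQ_26_wN_1_rb803308130524x2_2 g_wQ_26_wN_1_rb8033081305241ex2 g_wQ_26_wN_1_rb80330813052420x2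

theorem g__wQ_26_wN_1_rb803308130524x2_10 : GoodKC AS k_wQ_26_wN_1_rb803308130524x2_10 := p_wQ_26_wN_1_rb803308130524x2_10

theorem g_wQ_26_wN_1_rb80330813052421x2 : GoodKC AS c_wQ_26_wN_1_rb80330813052421x2 := p_wQ_26_wN_1_rb80330813052421x2

theorem g_wQ_26_wN_1_rb803308130524x2 : GoodKC AS c_wQ_26_wN_1_rb803308130524x2 := p_wQ_26_wN_1_rb803308130524x2 g_wQ_26_wN_1_rb80330813052422x2 g__wQ_26_wN_1_rb803308130524x2_0 g__wQ_26_wN_1_rb803308130524x2_10 g_wQ_26_wN_1_rb80330813052421x2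

theorem g__wQ_26_wN_1_rb803308130523x2_0 : GoodKC AS k_wQ_26_wN_1_rb803308130523x2_0 := p_wQ_26_wN_1_rb803308130523x2_0

theorem g_wQ_26_wN_1_rb803308130523x2 : GoodKC AS c_wQ_26_wN_1_rb803308130523x2 := p_wQ_26_wN_1_rb803308130523x2 g__wQ_26_wN_1_rb803308130523x2_0

theorem g_wQ_26_wN_1_rb803308130522x2 : GoodKC AS c_wQ_26_wN_1_rb803308130522x2 := p_wQ_26_wN_1_rb803308130522x2

theorem g_wQ_26_wN_1_rb803308130521x2 : GoodKC AS c_wQ_26_wN_1_rb803308130521x2 := p_wQ_26_wN_1_rb803308130521x2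

theorem g_wQ_26_wN_1_rb803308130520x2 : GoodKC AS c_wQ_26_wN_1_rb803308130520x2 := p_wQ_26_wN_1_rb803308130520x2

theorem g_wQ_26_wN_1_rb80330813051fx2 : GoodKC AS c_wQ_26_wN_1_rb80330813051fx2 := p_wQ_26_wN_1_rb80330813051fx2

theorem g_wQ_26_wN_1_rb80330813051ex2 : GoodKC AS c_wQ_26_wN_1_rb80330813051ex2 := p_wQ_26_wN_1_rb80330813051ex2

theorem g_wQ_26_wN_1_rb80330813051dx2 : GoodKC AS c_wQ_26_wN_1_rb80330813051dx2 := p_wQ_26_wN_1_rb80330813051dx2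

theorem g_wQ_26_wN_1_rb80330813051cx2 : GoodKC AS c_wQ_26_wN_1_rb80330813051cx2 := p_wQ_26_wN_1_rb80330813051cx2

theorem g_wQ_26_wN_1_rb80330813051bx2 : GoodKC AS c_wQ_26_wN_1_rb80330813051bx2 := p_wQ_26_wN_1_rb80330813051bx2

theorem g_wQ_26_wN_1_rb80330813051ax2 : GoodKC AS c_wQ_26_wN_1_rb80330813051ax2 := p_wQ_26_wN_1_rb80330813051ax2

theorem g_wQ_26_wN_1_rb803308130518x2 : GoodKC AS c_wQ_26_wN_1_rb803308130518x2 := p_wQ_26_wN_1_rb803308130518x2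

theorem g_wQ_26_wN_1_rb803308130517x2 : GoodKC AS c_wQ_26_wN_1_rb803308130517x2 := p_wQ_26_wN_1_rb803308130517x2

theorem g_wQ_26_wN_1_rb803308130516x2 : GoodKC AS c_wQ_26_wN_1_rb803308130516x2 := p_wQ_26_wN_1_rb803308130516x2

theorem g_wQ_26_wN_1_rb803308130515x2 : GoodKC AS c_wQ_26_wN_1_rb803308130515x2 := p_wQ_26_wN_1_rb803308130515x2

theorem g_wQ_26_wN_1_rb803308130514x2 : GoodKC AS c_wQ_26_wN_1_rb803308130514x2 := p_wQ_26_wN_1_rb803308130514x2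

theorem g_wQ_26_wN_1_rb803308130513x2 : GoodKC AS c_wQ_26_wN_1_rb803308130513x2 := p_wQ_26_wN_1_rb803308130513x2

theorem g_wQ_26_wN_1_rb803308130512x2 : GoodKC AS c_wQ_26_wN_1_rb803308130512x2 := p_wQ_26_wN_1_rb803308130512x2

theorem g_wQ_26_wN_1_rb803308130510x2 : GoodKC AS c_wQ_26_wN_1_rb803308130510x2 := p_wQ_26_wN_1_rb803308130510x2

theorem g_wQ_26_wN_1_rb80330813050fx2 : GoodKC AS c_wQ_26_wN_1_rb80330813050fx2 := p_wQ_26_wN_1_rb80330813050fx2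

theorem g_wQ_26_wN_1_rb80330813050cx2 : GoodKC AS c_wQ_26_wN_1_rb80330813050cx2 := p_wQ_26_wN_1_rb80330813050cx2

theorem g_wQ_26_wN_1_rb80330813050bx2 : GoodKC AS c_wQ_26_wN_1_rb80330813050bx2 := p_wQ_26_wN_1_rb80330813050bx2

theorem g_wQ_26_wN_1_rb803308130509x2 : GoodKC AS c_wQ_26_wN_1_rb803308130509x2 := p_wQ_26_wN_1_rb803308130509x2

theorem g_wQ_26_wN_1_rb803308130508x2 : GoodKC AS c_wQ_26_wN_1_rb803308130508x2 := p_wQ_26_wN_1_rb803308130508x2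

theorem g_wQ_26_wN_1_rb803308130507x2 : GoodKC AS c_wQ_26_wN_1_rb803308130507x2 := p_wQ_26_wN_1_rb803308130507x2

theorem g_wQ_26_wN_1_rb803308130506x2 : GoodKC AS c_wQ_26_wN_1_rb803308130506x2 := p_wQ_26_wN_1_rb803308130506x2

theorem g_wQ_26_wN_1_rb803308130505x2 : GoodKC AS c_wQ_26_wN_1_rb803308130505x2 := p_wQ_26_wN_1_rb803308130505x2

theorem g_wQ_26_wN_1_rb803308130504x2 : GoodKC AS c_wQ_26_wN_1_rb803308130504x2 := p_wQ_26_wN_1_rb803308130504x2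

theorem g_wQ_26_wN_1_rb803308130503x2 : GoodKC AS c_wQ_26_wN_1_rb803308130503x2 := p_wQ_26_wN_1_rb803308130503x2

theorem g_wQ_26_wN_1_rb803308130502x2 : GoodKC AS c_wQ_26_wN_1_rb803308130502x2 := p_wQ_26_wN_1_rb803308130502x2

theorem g_wQ_26_wN_1_rb803308130501x2 : GoodKC AS c_wQ_26_wN_1_rb803308130501x2 := p_wQ_26_wN_1_rb803308130501x2

theorem g_wQ_26_wN_1_rb80330813050ax2 : GoodKC AS c_wQ_26_wN_1_rb80330813050ax2 := p_wQ_26_wN_1_rb80330813050ax2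

theorem g_wQ_26_wN_1_rb80330813050dx2 : GoodKC AS c_wQ_26_wN_1_rb80330813050dx2 := p_wQ_26_wN_1_rb80330813050dx2

theorem g_wQ_26_wN_1_rb80330813050ex2 : GoodKC AS c_wQ_26_wN_1_rb80330813050ex2 := p_wQ_26_wN_1_rb80330813050ex2

theorem g_wQ_26_wN_1_rb803308130511x2 : GoodKC AS c_wQ_26_wN_1_rb803308130511x2 := p_wQ_26_wN_1_rb803308130511x2

theorem g_wQ_26_wN_1_rb803308130519x2 : GoodKC AS c_wQ_26_wN_1_rb803308130519x2 := p_wQ_26_wN_1_rb803308130519x2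

theorem g__wQ_26_wN_1_rb8033081305x2_3 : GoodKC AS k_wQ_26_wN_1_rb8033081305x2_3 := p_wQ_26_wN_1_rb8033081305x2_3

theorem g__wQ_26_wN_1_rb8033081305x2_9 : GoodKC AS k_wQ_26_wN_1_rb8033081305x2_9 := p_wQ_26_wN_1_rb8033081305x2_9

theorem g__wQ_26_wN_1_rb8033081305x2_8 : GoodKC AS k_wQ_26_wN_1_rb8033081305x2_8 := p_wQ_26_wN_1_rb8033081305x2_8 g__wQ_26_wN_1_rb8033081305x2_9

theorem g__wQ_26_wN_1_rb8033081305x2_7 : GoodKC AS k_wQ_26_wN_1_rb8033081305x2_7 := p_wQ_26_wN_1_rb8033081305x2_7 g__wQ_26_wN_1_rb8033081305x2_8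

theorem g__wQ_26_wN_1_rb8033081305x2_6 : GoodKC AS k_wQ_26_wN_1_rb8033081305x2_6 := p_wQ_26_wN_1_rb8033081305x2_6 g__wQ_26_wN_1_rb8033081305x2_7

theorem g__wQ_26_wN_1_rb8033081305x2_14 : GoodKC AS k_wQ_26_wN_1_rb8033081305x2_14 := p_wQ_26_wN_1_rb8033081305x2_14

theorem g__wQ_26_wN_1_rb8033081305x2_13 : GoodKC AS k_wQ_26_wN_1_rb8033081305x2_13 := p_wQ_26_wN_1_rb8033081305x2_13 g__wQ_26_wN_1_rb8033081305x2_14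

theorem g__wQ_26_wN_1_rb8033081305x2_16 : GoodKC AS k_wQ_26_wN_1_rb8033081305x2_16 := p_wQ_26_wN_1_rb8033081305x2_16

theorem g__wQ_26_wN_1_rb8033081305x2_17 : GoodKC AS k_wQ_26_wN_1_rb8033081305x2_17 := p_wQ_26_wN_1_rb8033081305x2_17

theorem g__wQ_26_wN_1_rb8033081305x2_15 : GoodKC AS k_wQ_26_wN_1_rb8033081305x2_15 := p_wQ_26_wN_1_rb8033081305x2_15 g__wQ_26_wN_1_rb8033081305x2_16 g__wQ_26_wN_1_rb8033081305x2_17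

theorem g__wQ_26_wN_1_rb8033081305x2_12 : GoodKC AS k_wQ_26_wN_1_rb8033081305x2_12 := p_wQ_26_wN_1_rb8033081305x2_12 g__wQ_26_wN_1_rb8033081305x2_13 g__wQ_26_wN_1_rb8033081305x2_15

theorem g__wQ_26_wN_1_rb8033081305x2_19 : GoodKC AS k_wQ_26_wN_1_rb8033081305x2_19 := p_wQ_26_wN_1_rb8033081305x2_19

theorem g__wQ_26_wN_1_rb8033081305x2_18 : GoodKC AS k_wQ_26_wN_1_rb8033081305x2_18 := p_wQ_26_wN_1_rb8033081305x2_18 g__wQ_26_wN_1_rb8033081305x2_19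

theorem g__wQ_26_wN_1_rb8033081305x2_11 : GoodKC AS k_wQ_26_wN_1_rb8033081305x2_11 := p_wQ_26_wN_1_rb8033081305x2_11 g__wQ_26_wN_1_rb8033081305x2_12 g__wQ_26_wN_1_rb8033081305x2_18

theorem g__wQ_26_wN_1_rb8033081305x2_10 : GoodKC AS k_wQ_26_wN_1_rb8033081305x2_10 := p_wQ_26_wN_1_rb8033081305x2_10 g__wQ_26_wN_1_rb8033081305x2_11

theorem g__wQ_26_wN_1_rb8033081305x2_5 : GoodKC AS k_wQ_26_wN_1_rb8033081305x2_5 := p_wQ_26_wN_1_rb8033081305x2_5 g__wQ_26_wN_1_rb8033081305x2_6 g__wQ_26_wN_1_rb8033081305x2_10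

theorem g__wQ_26_wN_1_rb8033081305x2_23 : GoodKC AS k_wQ_26_wN_1_rb8033081305x2_23 := p_wQ_26_wN_1_rb8033081305x2_23

theorem g__wQ_26_wN_1_rb8033081305x2_22 : GoodKC AS k_wQ_26_wN_1_rb8033081305x2_22 := p_wQ_26_wN_1_rb8033081305x2_22 g__wQ_26_wN_1_rb8033081305x2_23

theorem g__wQ_26_wN_1_rb803308130500v2_0 : GoodKC AS k_wQ_26_wN_1_rb803308130500v2_0 := p_wQ_26_wN_1_rb803308130500v2_0

theorem g_wQ_26_wN_1_rb803308130500x2 : GoodKC AS c_wQ_26_wN_1_rb803308130500x2 := p_wQ_26_wN_1_rb803308130500x2 g__wQ_26_wN_1_rb803308130500v2_0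

theorem g__wQ_26_wN_1_rb8033081305x2_26 : GoodKC AS k_wQ_26_wN_1_rb8033081305x2_26 := p_wQ_26_wN_1_rb8033081305x2_26 g_wQ_26_wN_1_rb803308130500x2

theorem g__wQ_26_wN_1_rb8033081305x2_25 : GoodKC AS k_wQ_26_wN_1_rb8033081305x2_25 := p_wQ_26_wN_1_rb8033081305x2_25 g__wQ_26_wN_1_rb8033081305x2_26

theorem g__wQ_26_wN_1_rb8033081305x2_24 : GoodKC AS k_wQ_26_wN_1_rb8033081305x2_24 := p_wQ_26_wN_1_rb8033081305x2_24 g__wQ_26_wN_1_rb8033081305x2_25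

theorem g__wQ_26_wN_1_rb8033081305x2_21 : GoodKC AS k_wQ_26_wN_1_rb8033081305x2_21 := p_wQ_26_wN_1_rb8033081305x2_21 g__wQ_26_wN_1_rb8033081305x2_22 g__wQ_26_wN_1_rb8033081305x2_24

theorem g__wQ_26_wN_1_rb8033081305x2_20 : GoodKC AS k_wQ_26_wN_1_rb8033081305x2_20 := p_wQ_26_wN_1_rb8033081305x2_20 g__wQ_26_wN_1_rb8033081305x2_21

theorem g__wQ_26_wN_1_rb8033081305x2_4 : GoodKC AS k_wQ_26_wN_1_rb8033081305x2_4 := p_wQ_26_wN_1_rb8033081305x2_4 g__wQ_26_wN_1_rb8033081305x2_5 g__wQ_26_wN_1_rb8033081305x2_20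

theorem g__wQ_26_wN_1_rb8033081305x2_2 : GoodKC AS k_wQ_26_wN_1_rb8033081305x2_2 := p_wQ_26_wN_1_rb8033081305x2_2 g__wQ_26_wN_1_rb8033081305x2_3 g__wQ_26_wN_1_rb8033081305x2_4

theorem g__wQ_26_wN_1_rb8033081305x2_1 : GoodKC AS k_wQ_26_wN_1_rb8033081305x2_1 := p_wQ_26_wN_1_rb8033081305x2_1 g__wQ_26_wN_1_rb8033081305x2_2

theorem g__wQ_26_wN_1_rb8033081305x2_27 : GoodKC AS k_wQ_26_wN_1_rb8033081305x2_27 := p_wQ_26_wN_1_rb8033081305x2_27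

theorem g__wQ_26_wN_1_rb8033081305x2_29 : GoodKC AS k_wQ_26_wN_1_rb8033081305x2_29 := p_wQ_26_wN_1_rb8033081305x2_29

theorem g__wQ_26_wN_1_rb8033081305x2_28 : GoodKC AS k_wQ_26_wN_1_rb8033081305x2_28 := p_wQ_26_wN_1_rb8033081305x2_28 g__wQ_26_wN_1_rb8033081305x2_29

theorem g__wQ_26_wN_1_rb8033081305x2_0 : GoodKC AS k_wQ_26_wN_1_rb8033081305x2_0 := p_wQ_26_wN_1_rb8033081305x2_0 g__wQ_26_wN_1_rb8033081305x2_1 g__wQ_26_wN_1_rb8033081305x2_27 g__wQ_26_wN_1_rb8033081305x2_28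

theorem g_wQ_26_wN_1_rb803308130528x2 : GoodKC AS c_wQ_26_wN_1_rb803308130528x2 := p_wQ_26_wN_1_rb803308130528x2

theorem g_wQ_26_wN_1_rb80330813052bx2 : GoodKC AS c_wQ_26_wN_1_rb80330813052bx2 := p_wQ_26_wN_1_rb80330813052bx2

theorem g__wQ_26_wN_1_rb80330813052dx2_4 : GoodKC AS k_wQ_26_wN_1_rb80330813052dx2_4 := p_wQ_26_wN_1_rb80330813052dx2_4

theorem g__wQ_26_wN_1_rb80330813052dx2_3 : GoodKC AS k_wQ_26_wN_1_rb80330813052dx2_3 := p_wQ_26_wN_1_rb80330813052dx2_3 g__wQ_26_wN_1_rb80330813052dx2_4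

theorem g__wQ_26_wN_1_rb80330813052dx2_7 : GoodKC AS k_wQ_26_wN_1_rb80330813052dx2_7 := p_wQ_26_wN_1_rb80330813052dx2_7

theorem g__wQ_26_wN_1_rb80330813052dx2_6 : GoodKC AS k_wQ_26_wN_1_rb80330813052dx2_6 := p_wQ_26_wN_1_rb80330813052dx2_6 g__wQ_26_wN_1_rb80330813052dx2_7

theorem g__wQ_26_wN_1_rb80330813052dx2_5 : GoodKC AS k_wQ_26_wN_1_rb80330813052dx2_5 := p_wQ_26_wN_1_rb80330813052dx2_5 g__wQ_26_wN_1_rb80330813052dx2_6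

theorem g__wQ_26_wN_1_rb80330813052dx2_2 : GoodKC AS k_wQ_26_wN_1_rb80330813052dx2_2 := p_wQ_26_wN_1_rb80330813052dx2_2 g__wQ_26_wN_1_rb80330813052dx2_3 g__wQ_26_wN_1_rb80330813052dx2_5

theorem g__wQ_26_wN_1_rb80330813052dx2_1 : GoodKC AS k_wQ_26_wN_1_rb80330813052dx2_1 := p_wQ_26_wN_1_rb80330813052dx2_1 g__wQ_26_wN_1_rb80330813052dx2_2

theorem g__wQ_26_wN_1_rb80330813052dx2_0 : GoodKC AS k_wQ_26_wN_1_rb80330813052dx2_0 := p_wQ_26_wN_1_rb80330813052dx2_0 g__wQ_26_wN_1_rb80330813052dx2_1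

theorem g_wQ_26_wN_1_rb80330813052dx2 : GoodKC AS c_wQ_26_wN_1_rb80330813052dx2 := p_wQ_26_wN_1_rb80330813052dx2 g__wQ_26_wN_1_rb80330813052dx2_0

theorem g__wQ_26_wN_1_rb803308130531x2_0 : GoodKC AS k_wQ_26_wN_1_rb803308130531x2_0 := p_wQ_26_wN_1_rb803308130531x2_0

theorem g_wQ_26_wN_1_rb803308130531x2 : GoodKC AS c_wQ_26_wN_1_rb803308130531x2 := p_wQ_26_wN_1_rb803308130531x2 g__wQ_26_wN_1_rb803308130531x2_0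

theorem g__wQ_26_wN_1_rb803308130533x2_3 : GoodKC AS k_wQ_26_wN_1_rb803308130533x2_3 := p_wQ_26_wN_1_rb803308130533x2_3

theorem g__wQ_26_wN_1_rb803308130533x2_2 : GoodKC AS k_wQ_26_wN_1_rb803308130533x2_2 := p_wQ_26_wN_1_rb803308130533x2_2 g__wQ_26_wN_1_rb803308130533x2_3

theorem g__wQ_26_wN_1_rb803308130533x2_1 : GoodKC AS k_wQ_26_wN_1_rb803308130533x2_1 := p_wQ_26_wN_1_rb803308130533x2_1 g__wQ_26_wN_1_rb803308130533x2_2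

theorem g__wQ_26_wN_1_rb803308130533x2_7 : GoodKC AS k_wQ_26_wN_1_rb803308130533x2_7 := p_wQ_26_wN_1_rb803308130533x2_7

theorem g__wQ_26_wN_1_rb803308130533x2_6 : GoodKC AS k_wQ_26_wN_1_rb803308130533x2_6 := p_wQ_26_wN_1_rb803308130533x2_6 g__wQ_26_wN_1_rb803308130533x2_7

theorem g__wQ_26_wN_1_rb803308130533x2_8 : GoodKC AS k_wQ_26_wN_1_rb803308130533x2_8 := p_wQ_26_wN_1_rb803308130533x2_8

theorem g__wQ_26_wN_1_rb803308130533x2_5 : GoodKC AS k_wQ_26_wN_1_rb803308130533x2_5 := p_wQ_26_wN_1_rb803308130533x2_5 g__wQ_26_wN_1_rb803308130533x2_6 g__wQ_26_wN_1_rb803308130533x2_8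

theorem g__wQ_26_wN_1_rb803308130533x2_4 : GoodKC AS k_wQ_26_wN_1_rb803308130533x2_4 := p_wQ_26_wN_1_rb803308130533x2_4 g__wQ_26_wN_1_rb803308130533x2_5

theorem g__wQ_26_wN_1_rb803308130533x2_0 : GoodKC AS k_wQ_26_wN_1_rb803308130533x2_0 := p_wQ_26_wN_1_rb803308130533x2_0 g__wQ_26_wN_1_rb803308130533x2_1 g__wQ_26_wN_1_rb803308130533x2_4

theorem g_wQ_26_wN_1_rb803308130533x2 : GoodKC AS c_wQ_26_wN_1_rb803308130533x2 := p_wQ_26_wN_1_rb803308130533x2 g__wQ_26_wN_1_rb803308130533x2_0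

theorem g_wQ_26_wN_1_rb803308130534x2 : GoodKC AS c_wQ_26_wN_1_rb803308130534x2 := p_wQ_26_wN_1_rb803308130534x2

theorem g_wQ_26_wN_1_rb803308130537x2 : GoodKC AS c_wQ_26_wN_1_rb803308130537x2 := p_wQ_26_wN_1_rb803308130537x2

theorem g__wQ_26_wN_1_rb803308130538x2_2 : GoodKC AS k_wQ_26_wN_1_rb803308130538x2_2 := p_wQ_26_wN_1_rb803308130538x2_2

theorem g__wQ_26_wN_1_rb803308130538x2_3 : GoodKC AS k_wQ_26_wN_1_rb803308130538x2_3 := p_wQ_26_wN_1_rb803308130538x2_3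

theorem g__wQ_26_wN_1_rb803308130538x2_1 : GoodKC AS k_wQ_26_wN_1_rb803308130538x2_1 := p_wQ_26_wN_1_rb803308130538x2_1 g__wQ_26_wN_1_rb803308130538x2_2 g__wQ_26_wN_1_rb803308130538x2_3

theorem g__wQ_26_wN_1_rb803308130538x2_4 : GoodKC AS k_wQ_26_wN_1_rb803308130538x2_4 := p_wQ_26_wN_1_rb803308130538x2_4

theorem g__wQ_26_wN_1_rb803308130538x2_7 : GoodKC AS k_wQ_26_wN_1_rb803308130538x2_7 := p_wQ_26_wN_1_rb803308130538x2_7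

theorem g__wQ_26_wN_1_rb803308130538x2_8 : GoodKC AS k_wQ_26_wN_1_rb803308130538x2_8 := p_wQ_26_wN_1_rb803308130538x2_8

theorem g__wQ_26_wN_1_rb803308130538x2_6 : GoodKC AS k_wQ_26_wN_1_rb803308130538x2_6 := p_wQ_26_wN_1_rb803308130538x2_6 g__wQ_26_wN_1_rb803308130538x2_7 g__wQ_26_wN_1_rb803308130538x2_8

theorem g__wQ_26_wN_1_rb803308130538x2_13 : GoodKC AS k_wQ_26_wN_1_rb803308130538x2_13 := p_wQ_26_wN_1_rb803308130538x2_13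

theorem g__wQ_26_wN_1_rb803308130538x2_12 : GoodKC AS k_wQ_26_wN_1_rb803308130538x2_12 := p_wQ_26_wN_1_rb803308130538x2_12 g__wQ_26_wN_1_rb803308130538x2_13

theorem g__wQ_26_wN_1_rb803308130538x2_11 : GoodKC AS k_wQ_26_wN_1_rb803308130538x2_11 := p_wQ_26_wN_1_rb803308130538x2_11 g__wQ_26_wN_1_rb803308130538x2_12

theorem g__wQ_26_wN_1_rb803308130538x2_10 : GoodKC AS k_wQ_26_wN_1_rb803308130538x2_10 := p_wQ_26_wN_1_rb803308130538x2_10 g__wQ_26_wN_1_rb803308130538x2_11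

theorem g__wQ_26_wN_1_rb803308130538x2_15 : GoodKC AS k_wQ_26_wN_1_rb803308130538x2_15 := p_wQ_26_wN_1_rb803308130538x2_15

theorem g__wQ_26_wN_1_rb803308130538x2_14 : GoodKC AS k_wQ_26_wN_1_rb803308130538x2_14 := p_wQ_26_wN_1_rb803308130538x2_14 g__wQ_26_wN_1_rb803308130538x2_15

theorem g__wQ_26_wN_1_rb803308130538x2_9 : GoodKC AS k_wQ_26_wN_1_rb803308130538x2_9 := p_wQ_26_wN_1_rb803308130538x2_9 g__wQ_26_wN_1_rb803308130538x2_10 g__wQ_26_wN_1_rb803308130538x2_14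

theorem g__wQ_26_wN_1_rb803308130538x2_5 : GoodKC AS k_wQ_26_wN_1_rb803308130538x2_5 := p_wQ_26_wN_1_rb803308130538x2_5 g__wQ_26_wN_1_rb803308130538x2_6 g__wQ_26_wN_1_rb803308130538x2_9

theorem g__wQ_26_wN_1_rb803308130538x2_17 : GoodKC AS k_wQ_26_wN_1_rb803308130538x2_17 := p_wQ_26_wN_1_rb803308130538x2_17

theorem g__wQ_26_wN_1_rb803308130538x2_16 : GoodKC AS k_wQ_26_wN_1_rb803308130538x2_16 := p_wQ_26_wN_1_rb803308130538x2_16 g__wQ_26_wN_1_rb803308130538x2_17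

theorem g__wQ_26_wN_1_rb803308130538x2_20 : GoodKC AS k_wQ_26_wN_1_rb803308130538x2_20 := p_wQ_26_wN_1_rb803308130538x2_20

theorem g__wQ_26_wN_1_rb803308130538x2_23 : GoodKC AS k_wQ_26_wN_1_rb803308130538x2_23 := p_wQ_26_wN_1_rb803308130538x2_23

theorem g__wQ_26_wN_1_rb803308130538x2_27 : GoodKC AS k_wQ_26_wN_1_rb803308130538x2_27 := p_wQ_26_wN_1_rb803308130538x2_27

theorem g__wQ_26_wN_1_rb803308130538x2_29 : GoodKC AS k_wQ_26_wN_1_rb803308130538x2_29 := p_wQ_26_wN_1_rb803308130538x2_29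

theorem g__wQ_26_wN_1_rb803308130538x2_32 : GoodKC AS k_wQ_26_wN_1_rb803308130538x2_32 := p_wQ_26_wN_1_rb803308130538x2_32

theorem g__wQ_26_wN_1_rb803308130538x2_31 : GoodKC AS k_wQ_26_wN_1_rb803308130538x2_31 := p_wQ_26_wN_1_rb803308130538x2_31 g__wQ_26_wN_1_rb803308130538x2_32

theorem g__wQ_26_wN_1_rb803308130538x2_30 : GoodKC AS k_wQ_26_wN_1_rb803308130538x2_30 := p_wQ_26_wN_1_rb803308130538x2_30 g__wQ_26_wN_1_rb803308130538x2_31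

theorem g__wQ_26_wN_1_rb803308130538x2_28 : GoodKC AS k_wQ_26_wN_1_rb803308130538x2_28 := p_wQ_26_wN_1_rb803308130538x2_28 g__wQ_26_wN_1_rb803308130538x2_29 g__wQ_26_wN_1_rb803308130538x2_30

theorem g__wQ_26_wN_1_rb803308130538x2_26 : GoodKC AS k_wQ_26_wN_1_rb803308130538x2_26 := p_wQ_26_wN_1_rb803308130538x2_26 g__wQ_26_wN_1_rb803308130538x2_27 g__wQ_26_wN_1_rb803308130538x2_28

theorem g__wQ_26_wN_1_rb803308130538x2_25 : GoodKC AS k_wQ_26_wN_1_rb803308130538x2_25 := p_wQ_26_wN_1_rb803308130538x2_25 g__wQ_26_wN_1_rb803308130538x2_26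

theorem g__wQ_26_wN_1_rb803308130538x2_24 : GoodKC AS k_wQ_26_wN_1_rb803308130538x2_24 := p_wQ_26_wN_1_rb803308130538x2_24 g__wQ_26_wN_1_rb803308130538x2_25

theorem g__wQ_26_wN_1_rb803308130538x2_22 : GoodKC AS k_wQ_26_wN_1_rb803308130538x2_22 := p_wQ_26_wN_1_rb803308130538x2_22 g__wQ_26_wN_1_rb803308130538x2_23 g__wQ_26_wN_1_rb803308130538x2_24

theorem g__wQ_26_wN_1_rb803308130538x2_21 : GoodKC AS k_wQ_26_wN_1_rb803308130538x2_21 := p_wQ_26_wN_1_rb803308130538x2_21 g__wQ_26_wN_1_rb803308130538x2_22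

theorem g__wQ_26_wN_1_rb803308130538x2_19 : GoodKC AS k_wQ_26_wN_1_rb803308130538x2_19 := p_wQ_26_wN_1_rb803308130538x2_19 g__wQ_26_wN_1_rb803308130538x2_20 g__wQ_26_wN_1_rb803308130538x2_21

theorem g__wQ_26_wN_1_rb803308130538x2_33 : GoodKC AS k_wQ_26_wN_1_rb803308130538x2_33 := p_wQ_26_wN_1_rb803308130538x2_33

theorem g__wQ_26_wN_1_rb803308130538x2_18 : GoodKC AS k_wQ_26_wN_1_rb803308130538x2_18 := p_wQ_26_wN_1_rb803308130538x2_18 g__wQ_26_wN_1_rb803308130538x2_19 g__wQ_26_wN_1_rb803308130538x2_33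

theorem g__wQ_26_wN_1_rb803308130538x2_0 : GoodKC AS k_wQ_26_wN_1_rb803308130538x2_0 := p_wQ_26_wN_1_rb803308130538x2_0 g__wQ_26_wN_1_rb803308130538x2_1 g__wQ_26_wN_1_rb803308130538x2_4 g__wQ_26_wN_1_rb803308130538x2_5 g__wQ_26_wN_1_rb803308130538x2_16 g__wQ_26_wN_1_rb803308130538x2_18

theorem g_wQ_26_wN_1_rb803308130538x2 : GoodKC AS c_wQ_26_wN_1_rb803308130538x2 := p_wQ_26_wN_1_rb803308130538x2 g__wQ_26_wN_1_rb803308130538x2_0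

theorem g__wQ_26_wN_1_rb803308130539x2_0 : GoodKC AS k_wQ_26_wN_1_rb803308130539x2_0 := p_wQ_26_wN_1_rb803308130539x2_0

theorem g__wQ_26_wN_1_rb803308130539x2_1 : GoodKC AS k_wQ_26_wN_1_rb803308130539x2_1 := p_wQ_26_wN_1_rb803308130539x2_1

theorem g__wQ_26_wN_1_rb803308130539x2_2 : GoodKC AS k_wQ_26_wN_1_rb803308130539x2_2 := p_wQ_26_wN_1_rb803308130539x2_2

theorem g__wQ_26_wN_1_rb803308130539x2_4 : GoodKC AS k_wQ_26_wN_1_rb803308130539x2_4 := p_wQ_26_wN_1_rb803308130539x2_4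

theorem g__wQ_26_wN_1_rb803308130539x2_3 : GoodKC AS k_wQ_26_wN_1_rb803308130539x2_3 := p_wQ_26_wN_1_rb803308130539x2_3 g__wQ_26_wN_1_rb803308130539x2_4

theorem g_wQ_26_wN_1_rb803308130539x2 : GoodKC AS c_wQ_26_wN_1_rb803308130539x2 := p_wQ_26_wN_1_rb803308130539x2 g__wQ_26_wN_1_rb803308130539x2_0 g__wQ_26_wN_1_rb803308130539x2_1 g__wQ_26_wN_1_rb803308130539x2_2 g__wQ_26_wN_1_rb803308130539x2_3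

theorem g_wQ_26_wN_1_rb80330813053bx2 : GoodKC AS c_wQ_26_wN_1_rb80330813053bx2 := p_wQ_26_wN_1_rb80330813053bx2

theorem g__wQ_26_wN_1_rb80330813053ex2_1 : GoodKC AS k_wQ_26_wN_1_rb80330813053ex2_1 := p_wQ_26_wN_1_rb80330813053ex2_1

theorem g__wQ_26_wN_1_rb80330813053ex2_0 : GoodKC AS k_wQ_26_wN_1_rb80330813053ex2_0 := p_wQ_26_wN_1_rb80330813053ex2_0 g__wQ_26_wN_1_rb80330813053ex2_1

theorem g__wQ_26_wN_1_rb80330813053ex2_3 : GoodKC AS k_wQ_26_wN_1_rb80330813053ex2_3 := p_wQ_26_wN_1_rb80330813053ex2_3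

theorem g__wQ_26_wN_1_rb80330813053ex2_4 : GoodKC AS k_wQ_26_wN_1_rb80330813053ex2_4 := p_wQ_26_wN_1_rb80330813053ex2_4

theorem g__wQ_26_wN_1_rb80330813053ex2_2 : GoodKC AS k_wQ_26_wN_1_rb80330813053ex2_2 := p_wQ_26_wN_1_rb80330813053ex2_2 g__wQ_26_wN_1_rb80330813053ex2_3 g__wQ_26_wN_1_rb80330813053ex2_4

theorem g_wQ_26_wN_1_rb80330813053ex2 : GoodKC AS c_wQ_26_wN_1_rb80330813053ex2 := p_wQ_26_wN_1_rb80330813053ex2 g__wQ_26_wN_1_rb80330813053ex2_0 g__wQ_26_wN_1_rb80330813053ex2_2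

theorem g_wQ_26_wN_1_rb80330813053fx2 : GoodKC AS c_wQ_26_wN_1_rb80330813053fx2 := p_wQ_26_wN_1_rb80330813053fx2

theorem g_wQ_26_wN_1_rb8033081305401dx2 : GoodKC AS c_wQ_26_wN_1_rb8033081305401dx2 := p_wQ_26_wN_1_rb8033081305401dx2

theorem g__wQ_26_wN_1_rb803308130540v2_4 : GoodKC AS k_wQ_26_wN_1_rb803308130540v2_4 := p_wQ_26_wN_1_rb803308130540v2_4

theorem g__wQ_26_wN_1_rb803308130540v2_3 : GoodKC AS k_wQ_26_wN_1_rb803308130540v2_3 := p_wQ_26_wN_1_rb803308130540v2_3 g__wQ_26_wN_1_rb803308130540v2_4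

theorem g__wQ_26_wN_1_rb803308130540v2_2 : GoodKC AS k_wQ_26_wN_1_rb803308130540v2_2 := p_wQ_26_wN_1_rb803308130540v2_2 g__wQ_26_wN_1_rb803308130540v2_3

theorem g__wQ_26_wN_1_rb803308130540v2_7 : GoodKC AS k_wQ_26_wN_1_rb803308130540v2_7 := p_wQ_26_wN_1_rb803308130540v2_7

theorem g__wQ_26_wN_1_rb803308130540v2_6 : GoodKC AS k_wQ_26_wN_1_rb803308130540v2_6 := p_wQ_26_wN_1_rb803308130540v2_6 g__wQ_26_wN_1_rb803308130540v2_7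

theorem g__wQ_26_wN_1_rb803308130540v2_5 : GoodKC AS k_wQ_26_wN_1_rb803308130540v2_5 := p_wQ_26_wN_1_rb803308130540v2_5 g__wQ_26_wN_1_rb803308130540v2_6

theorem g__wQ_26_wN_1_rb803308130540v2_1 : GoodKC AS k_wQ_26_wN_1_rb803308130540v2_1 := p_wQ_26_wN_1_rb803308130540v2_1 g__wQ_26_wN_1_rb803308130540v2_2 g__wQ_26_wN_1_rb803308130540v2_5

theorem g__wQ_26_wN_1_rb803308130540v2_0 : GoodKC AS k_wQ_26_wN_1_rb803308130540v2_0 := p_wQ_26_wN_1_rb803308130540v2_0 g__wQ_26_wN_1_rb803308130540v2_1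

theorem g__wQ_26_wN_1_rb803308130540v2_11 : GoodKC AS k_wQ_26_wN_1_rb803308130540v2_11 := p_wQ_26_wN_1_rb803308130540v2_11

theorem g__wQ_26_wN_1_rb803308130540v2_10 : GoodKC AS k_wQ_26_wN_1_rb803308130540v2_10 := p_wQ_26_wN_1_rb803308130540v2_10 g__wQ_26_wN_1_rb803308130540v2_11

theorem g__wQ_26_wN_1_rb803308130540v2_9 : GoodKC AS k_wQ_26_wN_1_rb803308130540v2_9 := p_wQ_26_wN_1_rb803308130540v2_9 g__wQ_26_wN_1_rb803308130540v2_10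

theorem g__wQ_26_wN_1_rb803308130540v2_13 : GoodKC AS k_wQ_26_wN_1_rb803308130540v2_13 := p_wQ_26_wN_1_rb803308130540v2_13

theorem g__wQ_26_wN_1_rb803308130540v2_12 : GoodKC AS k_wQ_26_wN_1_rb803308130540v2_12 := p_wQ_26_wN_1_rb803308130540v2_12 g__wQ_26_wN_1_rb803308130540v2_13

theorem g__wQ_26_wN_1_rb803308130540v2_17 : GoodKC AS k_wQ_26_wN_1_rb803308130540v2_17 := p_wQ_26_wN_1_rb803308130540v2_17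

theorem g__wQ_26_wN_1_rb803308130540v2_18 : GoodKC AS k_wQ_26_wN_1_rb803308130540v2_18 := p_wQ_26_wN_1_rb803308130540v2_18

theorem g__wQ_26_wN_1_rb803308130540v2_16 : GoodKC AS k_wQ_26_wN_1_rb803308130540v2_16 := p_wQ_26_wN_1_rb803308130540v2_16 g__wQ_26_wN_1_rb803308130540v2_17 g__wQ_26_wN_1_rb803308130540v2_18

theorem g__wQ_26_wN_1_rb803308130540v2_15 : GoodKC AS k_wQ_26_wN_1_rb803308130540v2_15 := p_wQ_26_wN_1_rb803308130540v2_15 g__wQ_26_wN_1_rb803308130540v2_16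

theorem g__wQ_26_wN_1_rb803308130540v2_25 : GoodKC AS k_wQ_26_wN_1_rb803308130540v2_25 := p_wQ_26_wN_1_rb803308130540v2_25

theorem g__wQ_26_wN_1_rb803308130540v2_24 : GoodKC AS k_wQ_26_wN_1_rb803308130540v2_24 := p_wQ_26_wN_1_rb803308130540v2_24 g__wQ_26_wN_1_rb803308130540v2_25

theorem g__wQ_26_wN_1_rb803308130540v2_23 : GoodKC AS k_wQ_26_wN_1_rb803308130540v2_23 := p_wQ_26_wN_1_rb803308130540v2_23 g__wQ_26_wN_1_rb803308130540v2_24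

theorem g__wQ_26_wN_1_rb803308130540v2_22 : GoodKC AS k_wQ_26_wN_1_rb803308130540v2_22 := p_wQ_26_wN_1_rb803308130540v2_22 g__wQ_26_wN_1_rb803308130540v2_23

theorem g__wQ_26_wN_1_rb803308130540v2_21 : GoodKC AS k_wQ_26_wN_1_rb803308130540v2_21 := p_wQ_26_wN_1_rb803308130540v2_21 g__wQ_26_wN_1_rb803308130540v2_22

theorem g__wQ_26_wN_1_rb803308130540v2_20 : GoodKC AS k_wQ_26_wN_1_rb803308130540v2_20 := p_wQ_26_wN_1_rb803308130540v2_20 g__wQ_26_wN_1_rb803308130540v2_21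

theorem g__wQ_26_wN_1_rb803308130540v2_26 : GoodKC AS k_wQ_26_wN_1_rb803308130540v2_26 := p_wQ_26_wN_1_rb803308130540v2_26

theorem g__wQ_26_wN_1_rb803308130540v2_19 : GoodKC AS k_wQ_26_wN_1_rb803308130540v2_19 := p_wQ_26_wN_1_rb803308130540v2_19 g__wQ_26_wN_1_rb803308130540v2_20 g__wQ_26_wN_1_rb803308130540v2_26

theorem g__wQ_26_wN_1_rb803308130540v2_27 : GoodKC AS k_wQ_26_wN_1_rb803308130540v2_27 := p_wQ_26_wN_1_rb803308130540v2_27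

theorem g__wQ_26_wN_1_rb803308130540v2_14 : GoodKC AS k_wQ_26_wN_1_rb803308130540v2_14 := p_wQ_26_wN_1_rb803308130540v2_14 g__wQ_26_wN_1_rb803308130540v2_15 g__wQ_26_wN_1_rb803308130540v2_19 g__wQ_26_wN_1_rb803308130540v2_27

theorem g__wQ_26_wN_1_rb803308130540v2_8 : GoodKC AS k_wQ_26_wN_1_rb803308130540v2_8 := p_wQ_26_wN_1_rb803308130540v2_8 g__wQ_26_wN_1_rb803308130540v2_9 g__wQ_26_wN_1_rb803308130540v2_12 g__wQ_26_wN_1_rb803308130540v2_14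

theorem g_wQ_26_wN_1_rb8033081305401bx2 : GoodKC AS c_wQ_26_wN_1_rb8033081305401bx2 := p_wQ_26_wN_1_rb8033081305401bx2

theorem g_wQ_26_wN_1_rb8033081305401ax2 : GoodKC AS c_wQ_26_wN_1_rb8033081305401ax2 := p_wQ_26_wN_1_rb8033081305401ax2

theorem g_wQ_26_wN_1_rb80330813054019x2 : GoodKC AS c_wQ_26_wN_1_rb80330813054019x2 := p_wQ_26_wN_1_rb80330813054019x2

theorem g_wQ_26_wN_1_rb80330813054018x2 : GoodKC AS c_wQ_26_wN_1_rb80330813054018x2 := p_wQ_26_wN_1_rb80330813054018x2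

theorem g_wQ_26_wN_1_rb80330813054017x2 : GoodKC AS c_wQ_26_wN_1_rb80330813054017x2 := p_wQ_26_wN_1_rb80330813054017x2

theorem g_wQ_26_wN_1_rb80330813054015x2 : GoodKC AS c_wQ_26_wN_1_rb80330813054015x2 := p_wQ_26_wN_1_rb80330813054015x2

theorem g_wQ_26_wN_1_rb80330813054014x2 : GoodKC AS c_wQ_26_wN_1_rb80330813054014x2 := p_wQ_26_wN_1_rb80330813054014x2

theorem g_wQ_26_wN_1_rb80330813054013x2 : GoodKC AS c_wQ_26_wN_1_rb80330813054013x2 := p_wQ_26_wN_1_rb80330813054013x2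

theorem g_wQ_26_wN_1_rb80330813054012x2 : GoodKC AS c_wQ_26_wN_1_rb80330813054012x2 := p_wQ_26_wN_1_rb80330813054012x2

theorem g_wQ_26_wN_1_rb80330813054011x2 : GoodKC AS c_wQ_26_wN_1_rb80330813054011x2 := p_wQ_26_wN_1_rb80330813054011x2

theorem g_wQ_26_wN_1_rb80330813054010x2 : GoodKC AS c_wQ_26_wN_1_rb80330813054010x2 := p_wQ_26_wN_1_rb80330813054010x2

theorem g_wQ_26_wN_1_rb8033081305400ex2 : GoodKC AS c_wQ_26_wN_1_rb8033081305400ex2 := p_wQ_26_wN_1_rb8033081305400ex2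

theorem g_wQ_26_wN_1_rb8033081305400dx2 : GoodKC AS c_wQ_26_wN_1_rb8033081305400dx2 := p_wQ_26_wN_1_rb8033081305400dx2

theorem g_wQ_26_wN_1_rb8033081305400cx2 : GoodKC AS c_wQ_26_wN_1_rb8033081305400cx2 := p_wQ_26_wN_1_rb8033081305400cx2

theorem g_wQ_26_wN_1_rb8033081305400bx2 : GoodKC AS c_wQ_26_wN_1_rb8033081305400bx2 := p_wQ_26_wN_1_rb8033081305400bx2

theorem g_wQ_26_wN_1_rb8033081305400ax2 : GoodKC AS c_wQ_26_wN_1_rb8033081305400ax2 := p_wQ_26_wN_1_rb8033081305400ax2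

theorem g_wQ_26_wN_1_rb80330813054009x2 : GoodKC AS c_wQ_26_wN_1_rb80330813054009x2 := p_wQ_26_wN_1_rb80330813054009x2

theorem g_wQ_26_wN_1_rb80330813054008x2 : GoodKC AS c_wQ_26_wN_1_rb80330813054008x2 := p_wQ_26_wN_1_rb80330813054008x2

theorem g_wQ_26_wN_1_rb80330813054004x2 : GoodKC AS c_wQ_26_wN_1_rb80330813054004x2 := p_wQ_26_wN_1_rb80330813054004x2

theorem g_wQ_26_wN_1_rb80330813054003x2 : GoodKC AS c_wQ_26_wN_1_rb80330813054003x2 := p_wQ_26_wN_1_rb80330813054003x2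

theorem g_wQ_26_wN_1_rb80330813054001x2 : GoodKC AS c_wQ_26_wN_1_rb80330813054001x2 := p_wQ_26_wN_1_rb80330813054001x2

theorem g__wQ_26_wN_1_rb80330813054000v2_4 : GoodKC AS k_wQ_26_wN_1_rb80330813054000v2_4 := p_wQ_26_wN_1_rb80330813054000v2_4

theorem g__wQ_26_wN_1_rb80330813054000v2_6 : GoodKC AS k_wQ_26_wN_1_rb80330813054000v2_6 := p_wQ_26_wN_1_rb80330813054000v2_6

theorem g__wQ_26_wN_1_rb80330813054000v2_5 : GoodKC AS k_wQ_26_wN_1_rb80330813054000v2_5 := p_wQ_26_wN_1_rb80330813054000v2_5 g__wQ_26_wN_1_rb80330813054000v2_6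

theorem g__wQ_26_wN_1_rb80330813054000v2_3 : GoodKC AS k_wQ_26_wN_1_rb80330813054000v2_3 := p_wQ_26_wN_1_rb80330813054000v2_3 g__wQ_26_wN_1_rb80330813054000v2_4 g__wQ_26_wN_1_rb80330813054000v2_5

theorem g__wQ_26_wN_1_rb80330813054000v2_2 : GoodKC AS k_wQ_26_wN_1_rb80330813054000v2_2 := p_wQ_26_wN_1_rb80330813054000v2_2 g__wQ_26_wN_1_rb80330813054000v2_3

theorem g__wQ_26_wN_1_rb80330813054000v2_1 : GoodKC AS k_wQ_26_wN_1_rb80330813054000v2_1 := p_wQ_26_wN_1_rb80330813054000v2_1 g__wQ_26_wN_1_rb80330813054000v2_2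

theorem g__wQ_26_wN_1_rb80330813054000v2_7 : GoodKC AS k_wQ_26_wN_1_rb80330813054000v2_7 := p_wQ_26_wN_1_rb80330813054000v2_7

theorem g__wQ_26_wN_1_rb80330813054000v2_0 : GoodKC AS k_wQ_26_wN_1_rb80330813054000v2_0 := p_wQ_26_wN_1_rb80330813054000v2_0 g__wQ_26_wN_1_rb80330813054000v2_1 g__wQ_26_wN_1_rb80330813054000v2_7

theorem g_wQ_26_wN_1_rb80330813054000x2 : GoodKC AS c_wQ_26_wN_1_rb80330813054000x2 := p_wQ_26_wN_1_rb80330813054000x2 g__wQ_26_wN_1_rb80330813054000v2_0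

theorem g_wQ_26_wN_1_rb80330813054002x2 : GoodKC AS c_wQ_26_wN_1_rb80330813054002x2 := p_wQ_26_wN_1_rb80330813054002x2

theorem g_wQ_26_wN_1_rb80330813054005x2 : GoodKC AS c_wQ_26_wN_1_rb80330813054005x2 := p_wQ_26_wN_1_rb80330813054005x2

theorem g_wQ_26_wN_1_rb80330813054006x2 : GoodKC AS c_wQ_26_wN_1_rb80330813054006x2 := p_wQ_26_wN_1_rb80330813054006x2

theorem g_wQ_26_wN_1_rb80330813054007x2 : GoodKC AS c_wQ_26_wN_1_rb80330813054007x2 := p_wQ_26_wN_1_rb80330813054007x2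

theorem g_wQ_26_wN_1_rb8033081305400fx2 : GoodKC AS c_wQ_26_wN_1_rb8033081305400fx2 := p_wQ_26_wN_1_rb8033081305400fx2

theorem g_wQ_26_wN_1_rb80330813054016x2 : GoodKC AS c_wQ_26_wN_1_rb80330813054016x2 := p_wQ_26_wN_1_rb80330813054016x2

theorem g_wQ_26_wN_1_rb8033081305401cx2 : GoodKC AS c_wQ_26_wN_1_rb8033081305401cx2 := p_wQ_26_wN_1_rb8033081305401cx1

theorem g_wQ_26_wN_1_rb803308130540x2 : GoodKC AS c_wQ_26_wN_1_rb803308130540x2 := p_wQ_26_wN_1_rb803308130540x2 g_wQ_26_wN_1_rb8033081305401dx2 g__wQ_26_wN_1_rb803308130540v2_0 g__wQ_26_wN_1_rb803308130540v2_8 g_wQ_26_wN_1_rb8033081305401bx2 g_wQ_26_wN_1_rb8033081305401ax2 g_wQ_26_wN_1_rb80330813054019x2 g_wQ_26_wN_1_rb80330813054018x2 g_wQ_26_wN_1_rb80330813054017x2 g_wQ_26_wN_1_rb80330813054015x2 g_wQ_26_wN_1_rb80330813054014x2 g_wQ_26_wN_1_rb80330813054013x2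 g_wQ_26_wN_1_rb80330813054012x2 g_wQ_26_wN_1_rb80330813054011x2 g_wQ_26_wN_1_rb80330813054010x2 g_wQ_26_wN_1_rb8033081305400ex2 g_wQ_26_wN_1_rb8033081305400dx2 g_wQ_26_wN_1_rb8033081305400cx2 g_wQ_26_wN_1_rb8033081305400bx2 g_wQ_26_wN_1_rb8033081305400ax2 g_wQ_26_wN_1_rb80330813054009x2 g_wQ_26_wN_1_rb80330813054008x2 g_wQ_26_wN_1_rb80330813054004x2 g_wQ_26_wN_1_rb80330813054003x2 g_wQ_26_wN_1_rb80330813054001x2 g_wQ_26_wN_1_rb80330813054000x2 g_wQ_26_wN_1_rb80330813054002x2 g_wQ_26_wN_1_rb80330813054005x2 g_wQ_26_wN_1_rb80330813054006x2 g_wQ_26_wN_1_rb80330813054007x2 g_wQ_26_wN_1_rb8033081305400fx2 g_wQ_26_wN_1_rb80330813054016x2 g_wQ_26_wN_1_rb8033081305401cx2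

theorem g_wQ_26_wN_1_rb803308130541x2 : GoodKC AS c_wQ_26_wN_1_rb803308130541x2 := p_wQ_26_wN_1_rb803308130541x2

theorem g_wQ_26_wN_1_rb803308130542x2 : GoodKC AS c_wQ_26_wN_1_rb803308130542x2 := p_wQ_26_wN_1_rb803308130542x2

theorem g__wQ_26_wN_1_rb803308130543x2_0 : GoodKC AS k_wQ_26_wN_1_rb803308130543x2_0 := p_wQ_26_wN_1_rb803308130543x2_0

theorem g__wQ_26_wN_1_rb803308130543x2_1 : GoodKC AS k_wQ_26_wN_1_rb803308130543x2_1 := p_wQ_26_wN_1_rb803308130543x2_1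

theorem g_wQ_26_wN_1_rb803308130543x2 : GoodKC AS c_wQ_26_wN_1_rb803308130543x2 := p_wQ_26_wN_1_rb803308130543x2 g__wQ_26_wN_1_rb803308130543x2_0 g__wQ_26_wN_1_rb803308130543x2_1

theorem g_wQ_26_wN_1_rb803308130547x2 : GoodKC AS c_wQ_26_wN_1_rb803308130547x2 := p_wQ_26_wN_1_rb803308130547x2

theorem g_wQ_26_wN_1_rb803308130549x2 : GoodKC AS c_wQ_26_wN_1_rb803308130549x2 := p_wQ_26_wN_1_rb803308130549x2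

theorem g_wQ_26_wN_1_rb80330813054bx2 : GoodKC AS c_wQ_26_wN_1_rb80330813054bx2 := p_wQ_26_wN_1_rb80330813054bx2

theorem g__wQ_26_wN_1_rb80330813054cx2_3 : GoodKC AS k_wQ_26_wN_1_rb80330813054cx2_3 := p_wQ_26_wN_1_rb80330813054cx2_3

theorem g__wQ_26_wN_1_rb80330813054cx2_2 : GoodKC AS k_wQ_26_wN_1_rb80330813054cx2_2 := p_wQ_26_wN_1_rb80330813054cx2_2 g__wQ_26_wN_1_rb80330813054cx2_3

theorem g__wQ_26_wN_1_rb80330813054cx2_1 : GoodKC AS k_wQ_26_wN_1_rb80330813054cx2_1 := p_wQ_26_wN_1_rb80330813054cx2_1 g__wQ_26_wN_1_rb80330813054cx2_2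

theorem g__wQ_26_wN_1_rb80330813054cx2_5 : GoodKC AS k_wQ_26_wN_1_rb80330813054cx2_5 := p_wQ_26_wN_1_rb80330813054cx2_5

theorem g__wQ_26_wN_1_rb80330813054cx2_6 : GoodKC AS k_wQ_26_wN_1_rb80330813054cx2_6 := p_wQ_26_wN_1_rb80330813054cx2_6

theorem g__wQ_26_wN_1_rb80330813054cx2_8 : GoodKC AS k_wQ_26_wN_1_rb80330813054cx2_8 := p_wQ_26_wN_1_rb80330813054cx2_8

theorem g__wQ_26_wN_1_rb80330813054cx2_7 : GoodKC AS k_wQ_26_wN_1_rb80330813054cx2_7 := p_wQ_26_wN_1_rb80330813054cx2_7 g__wQ_26_wN_1_rb80330813054cx2_8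

theorem g__wQ_26_wN_1_rb80330813054cx2_4 : GoodKC AS k_wQ_26_wN_1_rb80330813054cx2_4 := p_wQ_26_wN_1_rb80330813054cx2_4 g__wQ_26_wN_1_rb80330813054cx2_5 g__wQ_26_wN_1_rb80330813054cx2_6 g__wQ_26_wN_1_rb80330813054cx2_7

theorem g__wQ_26_wN_1_rb80330813054cx2_10 : GoodKC AS k_wQ_26_wN_1_rb80330813054cx2_10 := p_wQ_26_wN_1_rb80330813054cx2_10

theorem g__wQ_26_wN_1_rb80330813054cx2_9 : GoodKC AS k_wQ_26_wN_1_rb80330813054cx2_9 := p_wQ_26_wN_1_rb80330813054cx2_9 g__wQ_26_wN_1_rb80330813054cx2_10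

theorem g__wQ_26_wN_1_rb80330813054cx2_0 : GoodKC AS k_wQ_26_wN_1_rb80330813054cx2_0 := p_wQ_26_wN_1_rb80330813054cx2_0 g__wQ_26_wN_1_rb80330813054cx2_1 g__wQ_26_wN_1_rb80330813054cx2_4 g__wQ_26_wN_1_rb80330813054cx2_9

theorem g__wQ_26_wN_1_rb80330813054cx2_12 : GoodKC AS k_wQ_26_wN_1_rb80330813054cx2_12 := p_wQ_26_wN_1_rb80330813054cx2_12

theorem g__wQ_26_wN_1_rb80330813054cx2_11 : GoodKC AS k_wQ_26_wN_1_rb80330813054cx2_11 := p_wQ_26_wN_1_rb80330813054cx2_11 g__wQ_26_wN_1_rb80330813054cx2_12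

theorem g__wQ_26_wN_1_rb80330813054cx2_13 : GoodKC AS k_wQ_26_wN_1_rb80330813054cx2_13 := p_wQ_26_wN_1_rb80330813054cx2_13

theorem g__wQ_26_wN_1_rb80330813054cx2_16 : GoodKC AS k_wQ_26_wN_1_rb80330813054cx2_16 := p_wQ_26_wN_1_rb80330813054cx2_16

theorem g__wQ_26_wN_1_rb80330813054cx2_19 : GoodKC AS k_wQ_26_wN_1_rb80330813054cx2_19 := p_wQ_26_wN_1_rb80330813054cx2_19

theorem g__wQ_26_wN_1_rb80330813054cx2_20 : GoodKC AS k_wQ_26_wN_1_rb80330813054cx2_20 := p_wQ_26_wN_1_rb80330813054cx2_20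

theorem g__wQ_26_wN_1_rb80330813054cx2_18 : GoodKC AS k_wQ_26_wN_1_rb80330813054cx2_18 := p_wQ_26_wN_1_rb80330813054cx2_18 g__wQ_26_wN_1_rb80330813054cx2_19 g__wQ_26_wN_1_rb80330813054cx2_20

theorem g__wQ_26_wN_1_rb80330813054cx2_17 : GoodKC AS k_wQ_26_wN_1_rb80330813054cx2_17 := p_wQ_26_wN_1_rb80330813054cx2_17 g__wQ_26_wN_1_rb80330813054cx2_18

theorem g__wQ_26_wN_1_rb80330813054cx2_15 : GoodKC AS k_wQ_26_wN_1_rb80330813054cx2_15 := p_wQ_26_wN_1_rb80330813054cx2_15 g__wQ_26_wN_1_rb80330813054cx2_16 g__wQ_26_wN_1_rb80330813054cx2_17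

theorem g__wQ_26_wN_1_rb80330813054cx2_14 : GoodKC AS k_wQ_26_wN_1_rb80330813054cx2_14 := p_wQ_26_wN_1_rb80330813054cx2_14 g__wQ_26_wN_1_rb80330813054cx2_15

theorem g_wQ_26_wN_1_rb80330813054cx2 : GoodKC AS c_wQ_26_wN_1_rb80330813054cx2 := p_wQ_26_wN_1_rb80330813054cx2 g__wQ_26_wN_1_rb80330813054cx2_0 g__wQ_26_wN_1_rb80330813054cx2_11 g__wQ_26_wN_1_rb80330813054cx2_13 g__wQ_26_wN_1_rb80330813054cx2_14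

theorem g_wQ_26_wN_1_rb80330813054dx2 : GoodKC AS c_wQ_26_wN_1_rb80330813054dx2 := p_wQ_26_wN_1_rb80330813054dx2

theorem g_wQ_26_wN_1_rb80330813054ex2 : GoodKC AS c_wQ_26_wN_1_rb80330813054ex2 := p_wQ_26_wN_1_rb80330813054ex2

theorem g_wQ_26_wN_1_rb80330813054fx2 : GoodKC AS c_wQ_26_wN_1_rb80330813054fx2 := p_wQ_26_wN_1_rb80330813054fx2

theorem g__wQ_26_wN_1_rb803308130550v2_0 : GoodKC AS k_wQ_26_wN_1_rb803308130550v2_0 := p_wQ_26_wN_1_rb803308130550v2_0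

theorem g__wQ_26_wN_1_rb803308130550v2_1 : GoodKC AS k_wQ_26_wN_1_rb803308130550v2_1 := p_wQ_26_wN_1_rb803308130550v2_1

theorem g_wQ_26_wN_1_rb803308130550x2 : GoodKC AS c_wQ_26_wN_1_rb803308130550x2 := p_wQ_26_wN_1_rb803308130550x2 g__wQ_26_wN_1_rb803308130550v2_0 g__wQ_26_wN_1_rb803308130550v2_1

theorem g_wQ_26_wN_1_rb803308130551x2 : GoodKC AS c_wQ_26_wN_1_rb803308130551x2 := p_wQ_26_wN_1_rb803308130551x2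

theorem g_wQ_26_wN_1_rb8033081305x4 : GoodKC AS c_wQ_26_wN_1_rb8033081305x4 := p_wQ_26_wN_1_rb8033081305x2 g_wQ_26_wN_1_rb803308130553x2 g_wQ_26_wN_1_rb803308130552x2 g_wQ_26_wN_1_rb80330813054ax2 g_wQ_26_wN_1_rb803308130548x2 g_wQ_26_wN_1_rb803308130546x2 g_wQ_26_wN_1_rb803308130545x2 g_wQ_26_wN_1_rb803308130544x2 g_wQ_26_wN_1_rb80330813053dx2 g_wQ_26_wN_1_rb80330813053cx2 g_wQ_26_wN_1_rb80330813053ax2 g_wQ_26_wN_1_rb803308130536x2 g_wQ_26_wN_1_rb803308130535x2 g_wQ_26_wN_1_rb803308130532x2 g_wQ_26_wN_1_rb803308130530x2 g_wQ_26_wN_1_rb80330813052fx2 g_wQ_26_wN_1_rb80330813052ex2 g_wQ_26_wN_1_rb80330813052cx2 g_wQ_26_wN_1_rb80330813052ax2 g_wQ_26_wN_1_rb803308130529x2 g_wQ_26_wN_1_rb803308130527x2 g_wQ_26_wN_1_rb803308130526x2 g_wQ_26_wN_1_rb803308130525x2 g_wQ_26_wN_1_rb803308130524x2 g_wQ_26_wN_1_rb803308130523x2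 g_wQ_26_wN_1_rb803308130522x2 g_wQ_26_wN_1_rb803308130521x2 g_wQ_26_wN_1_rb803308130520x2 g_wQ_26_wN_1_rb80330813051fx2 g_wQ_26_wN_1_rb80330813051ex2 g_wQ_26_wN_1_rb80330813051dx2 g_wQ_26_wN_1_rb80330813051cx2 g_wQ_26_wN_1_rb80330813051bx2 g_wQ_26_wN_1_rb80330813051ax2 g_wQ_26_wN_1_rb803308130518x2 g_wQ_26_wN_1_rb803308130517x2 g_wQ_26_wN_1_rb803308130516x2 g_wQ_26_wN_1_rb803308130515x2 g_wQ_26_wN_1_rb803308130514x2 g_wQ_26_wN_1_rb803308130513x2 g_wQ_26_wN_1_rb803308130512x2 g_wQ_26_wN_1_rb803308130510x2 g_wQ_26_wN_1_rb80330813050fx2 g_wQ_26_wN_1_rb80330813050cx2 g_wQ_26_wN_1_rb80330813050bx2 g_wQ_26_wN_1_rb803308130509x2 g_wQ_26_wN_1_rb803308130508x2 g_wQ_26_wN_1_rb803308130507x2 g_wQ_26_wN_1_rb803308130506x2 g_wQ_26_wN_1_rb803308130505x2 g_wQ_26_wN_1_rb803308130504x2 g_wQ_26_wN_1_rb803308130503x2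 g_wQ_26_wN_1_rb803308130502x2 g_wQ_26_wN_1_rb803308130501x2 g_wQ_26_wN_1_rb80330813050ax2 g_wQ_26_wN_1_rb80330813050dx2 g_wQ_26_wN_1_rb80330813050ex2 g_wQ_26_wN_1_rb803308130511x2 g_wQ_26_wN_1_rb803308130519x2 g__wQ_26_wN_1_rb8033081305x2_0 g_wQ_26_wN_1_rb803308130528x2 g_wQ_26_wN_1_rb80330813052bx2 g_wQ_26_wN_1_rb80330813052dx2 g_wQ_26_wN_1_rb803308130531x2 g_wQ_26_wN_1_rb803308130533x2 g_wQ_26_wN_1_rb803308130534x2 g_wQ_26_wN_1_rb803308130537x2 g_wQ_26_wN_1_rb803308130538x2 g_wQ_26_wN_1_rb803308130539x2 g_wQ_26_wN_1_rb80330813053bx2 g_wQ_26_wN_1_rb80330813053ex2 g_wQ_26_wN_1_rb80330813053fx2 g_wQ_26_wN_1_rb803308130540x2 g_wQ_26_wN_1_rb803308130541x2 g_wQ_26_wN_1_rb803308130542x2 g_wQ_26_wN_1_rb803308130543x2 g_wQ_26_wN_1_rb803308130547x2 g_wQ_26_wN_1_rb803308130549x2 g_wQ_26_wN_1_rb80330813054bx2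 g_wQ_26_wN_1_rb80330813054cx2 g_wQ_26_wN_1_rb80330813054dx2 g_wQ_26_wN_1_rb80330813054ex2 g_wQ_26_wN_1_rb80330813054fx2 g_wQ_26_wN_1_rb803308130550x2 g_wQ_26_wN_1_rb803308130551x2

theorem g__wQ_26_wN_1_rb803308130337x2_0 : GoodKC AS k_wQ_26_wN_1_rb803308130337x2_0 := p_wQ_26_wN_1_rb803308130337x2_0

theorem g_wQ_26_wN_1_rb803308130337x2 : GoodKC AS c_wQ_26_wN_1_rb803308130337x2 := p_wQ_26_wN_1_rb803308130337x2 g__wQ_26_wN_1_rb803308130337x2_0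

theorem g_wQ_26_wN_1_rb803308130334x2 : GoodKC AS c_wQ_26_wN_1_rb803308130334x2 := p_wQ_26_wN_1_rb803308130334x2

theorem g_wQ_26_wN_1_rb803308130332x2 : GoodKC AS c_wQ_26_wN_1_rb803308130332x2 := p_wQ_26_wN_1_rb803308130332x2

theorem g_wQ_26_wN_1_rb803308130331x2 : GoodKC AS c_wQ_26_wN_1_rb803308130331x2 := p_wQ_26_wN_1_rb803308130331x2

theorem g_wQ_26_wN_1_rb803308130330x2 : GoodKC AS c_wQ_26_wN_1_rb803308130330x2 := p_wQ_26_wN_1_rb803308130330x2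

theorem g_wQ_26_wN_1_rb80330813032ex2 : GoodKC AS c_wQ_26_wN_1_rb80330813032ex2 := p_wQ_26_wN_1_rb80330813032ex2

theorem g_wQ_26_wN_1_rb80330813032cx2 : GoodKC AS c_wQ_26_wN_1_rb80330813032cx2 := p_wQ_26_wN_1_rb80330813032cx2

theorem g_wQ_26_wN_1_rb803308130329x2 : GoodKC AS c_wQ_26_wN_1_rb803308130329x2 := p_wQ_26_wN_1_rb803308130329x2

theorem g_wQ_26_wN_1_rb803308130328x2 : GoodKC AS c_wQ_26_wN_1_rb803308130328x2 := p_wQ_26_wN_1_rb803308130328x2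

theorem g_wQ_26_wN_1_rb803308130327x2 : GoodKC AS c_wQ_26_wN_1_rb803308130327x2 := p_wQ_26_wN_1_rb803308130327x2

theorem g_wQ_26_wN_1_rb803308130326x2 : GoodKC AS c_wQ_26_wN_1_rb803308130326x2 := p_wQ_26_wN_1_rb803308130326x2

theorem g_wQ_26_wN_1_rb803308130325x2 : GoodKC AS c_wQ_26_wN_1_rb803308130325x2 := p_wQ_26_wN_1_rb803308130325x2

theorem g__wQ_26_wN_1_rb803308130324x2_1 : GoodKC AS k_wQ_26_wN_1_rb803308130324x2_1 := p_wQ_26_wN_1_rb803308130324x2_1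

theorem g__wQ_26_wN_1_rb803308130324x2_4 : GoodKC AS k_wQ_26_wN_1_rb803308130324x2_4 := p_wQ_26_wN_1_rb803308130324x2_4

theorem g__wQ_26_wN_1_rb803308130324x2_3 : GoodKC AS k_wQ_26_wN_1_rb803308130324x2_3 := p_wQ_26_wN_1_rb803308130324x2_3 g__wQ_26_wN_1_rb803308130324x2_4

theorem g__wQ_26_wN_1_rb803308130324x2_2 : GoodKC AS k_wQ_26_wN_1_rb803308130324x2_2 := p_wQ_26_wN_1_rb803308130324x2_2 g__wQ_26_wN_1_rb803308130324x2_3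

theorem g__wQ_26_wN_1_rb803308130324x2_0 : GoodKC AS k_wQ_26_wN_1_rb803308130324x2_0 := p_wQ_26_wN_1_rb803308130324x2_0 g__wQ_26_wN_1_rb803308130324x2_1 g__wQ_26_wN_1_rb803308130324x2_2

theorem g_wQ_26_wN_1_rb803308130324x2 : GoodKC AS c_wQ_26_wN_1_rb803308130324x2 := p_wQ_26_wN_1_rb803308130324x2 g__wQ_26_wN_1_rb803308130324x2_0

theorem g_wQ_26_wN_1_rb803308130323x2 : GoodKC AS c_wQ_26_wN_1_rb803308130323x2 := p_wQ_26_wN_1_rb803308130323x2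

theorem g__wQ_26_wN_1_rb8033081303x2_1 : GoodKC AS k_wQ_26_wN_1_rb8033081303x2_1 := p_wQ_26_wN_1_rb8033081303x2_1

theorem g__wQ_26_wN_1_rb8033081303x2_3 : GoodKC AS k_wQ_26_wN_1_rb8033081303x2_3 := p_wQ_26_wN_1_rb8033081303x2_3

theorem g__wQ_26_wN_1_rb8033081303x2_4 : GoodKC AS k_wQ_26_wN_1_rb8033081303x2_4 := p_wQ_26_wN_1_rb8033081303x2_4

theorem g__wQ_26_wN_1_rb8033081303x2_2 : GoodKC AS k_wQ_26_wN_1_rb8033081303x2_2 := p_wQ_26_wN_1_rb8033081303x2_2 g__wQ_26_wN_1_rb8033081303x2_3 g__wQ_26_wN_1_rb8033081303x2_4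

theorem g__wQ_26_wN_1_rb8033081303x2_8 : GoodKC AS k_wQ_26_wN_1_rb8033081303x2_8 := p_wQ_26_wN_1_rb8033081303x2_8

theorem g__wQ_26_wN_1_rb8033081303x2_11 : GoodKC AS k_wQ_26_wN_1_rb8033081303x2_11 := p_wQ_26_wN_1_rb8033081303x2_11

theorem g__wQ_26_wN_1_rb8033081303x2_10 : GoodKC AS k_wQ_26_wN_1_rb8033081303x2_10 := p_wQ_26_wN_1_rb8033081303x2_10 g__wQ_26_wN_1_rb8033081303x2_11

theorem g__wQ_26_wN_1_rb8033081303x2_14 : GoodKC AS k_wQ_26_wN_1_rb8033081303x2_14 := p_wQ_26_wN_1_rb8033081303x2_14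

theorem g__wQ_26_wN_1_rb8033081303x2_13 : GoodKC AS k_wQ_26_wN_1_rb8033081303x2_13 := p_wQ_26_wN_1_rb8033081303x2_13 g__wQ_26_wN_1_rb8033081303x2_14

theorem g__wQ_26_wN_1_rb8033081303x2_15 : GoodKC AS k_wQ_26_wN_1_rb8033081303x2_15 := p_wQ_26_wN_1_rb8033081303x2_15

theorem g__wQ_26_wN_1_rb8033081303x2_12 : GoodKC AS k_wQ_26_wN_1_rb8033081303x2_12 := p_wQ_26_wN_1_rb8033081303x2_12 g__wQ_26_wN_1_rb8033081303x2_13 g__wQ_26_wN_1_rb8033081303x2_15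

theorem g__wQ_26_wN_1_rb8033081303x2_19 : GoodKC AS k_wQ_26_wN_1_rb8033081303x2_19 := p_wQ_26_wN_1_rb8033081303x2_19

theorem g__wQ_26_wN_1_rb8033081303x2_18 : GoodKC AS k_wQ_26_wN_1_rb8033081303x2_18 := p_wQ_26_wN_1_rb8033081303x2_18 g__wQ_26_wN_1_rb8033081303x2_19

theorem g__wQ_26_wN_1_rb8033081303x2_17 : GoodKC AS k_wQ_26_wN_1_rb8033081303x2_17 := p_wQ_26_wN_1_rb8033081303x2_17 g__wQ_26_wN_1_rb8033081303x2_18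

theorem g__wQ_26_wN_1_rb8033081303x2_16 : GoodKC AS k_wQ_26_wN_1_rb8033081303x2_16 := p_wQ_26_wN_1_rb8033081303x2_16 g__wQ_26_wN_1_rb8033081303x2_17

theorem g__wQ_26_wN_1_rb8033081303x2_9 : GoodKC AS k_wQ_26_wN_1_rb8033081303x2_9 := p_wQ_26_wN_1_rb8033081303x2_9 g__wQ_26_wN_1_rb8033081303x2_10 g__wQ_26_wN_1_rb8033081303x2_12 g__wQ_26_wN_1_rb8033081303x2_16

theorem g__wQ_26_wN_1_rb8033081303x2_7 : GoodKC AS k_wQ_26_wN_1_rb8033081303x2_7 := p_wQ_26_wN_1_rb8033081303x2_7 g__wQ_26_wN_1_rb8033081303x2_8 g__wQ_26_wN_1_rb8033081303x2_9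

theorem g__wQ_26_wN_1_rb8033081303x2_6 : GoodKC AS k_wQ_26_wN_1_rb8033081303x2_6 := p_wQ_26_wN_1_rb8033081303x2_6 g__wQ_26_wN_1_rb8033081303x2_7

theorem g__wQ_26_wN_1_rb8033081303x2_21 : GoodKC AS k_wQ_26_wN_1_rb8033081303x2_21 := p_wQ_26_wN_1_rb8033081303x2_21

theorem g__wQ_26_wN_1_rb8033081303x2_22 : GoodKC AS k_wQ_26_wN_1_rb8033081303x2_22 := p_wQ_26_wN_1_rb8033081303x2_22

theorem g__wQ_26_wN_1_rb8033081303x2_20 : GoodKC AS k_wQ_26_wN_1_rb8033081303x2_20 := p_wQ_26_wN_1_rb8033081303x2_20 g__wQ_26_wN_1_rb8033081303x2_21 g__wQ_26_wN_1_rb8033081303x2_22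

theorem g__wQ_26_wN_1_rb8033081303x2_5 : GoodKC AS k_wQ_26_wN_1_rb8033081303x2_5 := p_wQ_26_wN_1_rb8033081303x2_5 g__wQ_26_wN_1_rb8033081303x2_6 g__wQ_26_wN_1_rb8033081303x2_20

theorem g__wQ_26_wN_1_rb8033081303x2_23 : GoodKC AS k_wQ_26_wN_1_rb8033081303x2_23 := p_wQ_26_wN_1_rb8033081303x2_23

theorem g__wQ_26_wN_1_rb8033081303x2_0 : GoodKC AS k_wQ_26_wN_1_rb8033081303x2_0 := p_wQ_26_wN_1_rb8033081303x2_0 g__wQ_26_wN_1_rb8033081303x2_1 g__wQ_26_wN_1_rb8033081303x2_2 g__wQ_26_wN_1_rb8033081303x2_5 g__wQ_26_wN_1_rb8033081303x2_23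

theorem g_wQ_26_wN_1_rb803308130322x2 : GoodKC AS c_wQ_26_wN_1_rb803308130322x2 := p_wQ_26_wN_1_rb803308130322x2

theorem g_wQ_26_wN_1_rb803308130321x2 : GoodKC AS c_wQ_26_wN_1_rb803308130321x2 := p_wQ_26_wN_1_rb803308130321x2

theorem g_wQ_26_wN_1_rb803308130320x2 : GoodKC AS c_wQ_26_wN_1_rb803308130320x2 := p_wQ_26_wN_1_rb803308130320x2

theorem g_wQ_26_wN_1_rb80330813031ex2 : GoodKC AS c_wQ_26_wN_1_rb80330813031ex2 := p_wQ_26_wN_1_rb80330813031ex2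

theorem g_wQ_26_wN_1_rb80330813031dx2 : GoodKC AS c_wQ_26_wN_1_rb80330813031dx2 := p_wQ_26_wN_1_rb80330813031dx2

theorem g_wQ_26_wN_1_rb80330813031bx2 : GoodKC AS c_wQ_26_wN_1_rb80330813031bx2 := p_wQ_26_wN_1_rb80330813031bx2

theorem g_wQ_26_wN_1_rb80330813031ax2 : GoodKC AS c_wQ_26_wN_1_rb80330813031ax2 := p_wQ_26_wN_1_rb80330813031ax2

theorem g_wQ_26_wN_1_rb803308130319x2 : GoodKC AS c_wQ_26_wN_1_rb803308130319x2 := p_wQ_26_wN_1_rb803308130319x2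

theorem g_wQ_26_wN_1_rb803308130318x2 : GoodKC AS c_wQ_26_wN_1_rb803308130318x2 := p_wQ_26_wN_1_rb803308130318x2

theorem g_wQ_26_wN_1_rb803308130317x2 : GoodKC AS c_wQ_26_wN_1_rb803308130317x2 := p_wQ_26_wN_1_rb803308130317x2

theorem g_wQ_26_wN_1_rb803308130316x2 : GoodKC AS c_wQ_26_wN_1_rb803308130316x2 := p_wQ_26_wN_1_rb803308130316x2

theorem g_wQ_26_wN_1_rb803308130315x2 : GoodKC AS c_wQ_26_wN_1_rb803308130315x2 := p_wQ_26_wN_1_rb803308130315x2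

theorem g_wQ_26_wN_1_rb803308130313x2 : GoodKC AS c_wQ_26_wN_1_rb803308130313x2 := p_wQ_26_wN_1_rb803308130313x2

theorem g_wQ_26_wN_1_rb803308130312x2 : GoodKC AS c_wQ_26_wN_1_rb803308130312x2 := p_wQ_26_wN_1_rb803308130312x2

theorem g_wQ_26_wN_1_rb803308130311x2 : GoodKC AS c_wQ_26_wN_1_rb803308130311x2 := p_wQ_26_wN_1_rb803308130311x2

theorem g_wQ_26_wN_1_rb803308130310x2 : GoodKC AS c_wQ_26_wN_1_rb803308130310x2 := p_wQ_26_wN_1_rb803308130310x2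

theorem g_wQ_26_wN_1_rb80330813030cx2 : GoodKC AS c_wQ_26_wN_1_rb80330813030cx2 := p_wQ_26_wN_1_rb80330813030cx2

theorem g_wQ_26_wN_1_rb80330813030ax2 : GoodKC AS c_wQ_26_wN_1_rb80330813030ax2 := p_wQ_26_wN_1_rb80330813030ax2

theorem g_wQ_26_wN_1_rb803308130309x2 : GoodKC AS c_wQ_26_wN_1_rb803308130309x2 := p_wQ_26_wN_1_rb803308130309x2

theorem g_wQ_26_wN_1_rb803308130308x2 : GoodKC AS c_wQ_26_wN_1_rb803308130308x2 := p_wQ_26_wN_1_rb803308130308x2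

theorem g__wQ_26_wN_1_rb8033081303x2_27 : GoodKC AS k_wQ_26_wN_1_rb8033081303x2_27 := p_wQ_26_wN_1_rb8033081303x2_27

theorem g__wQ_26_wN_1_rb8033081303x2_26 : GoodKC AS k_wQ_26_wN_1_rb8033081303x2_26 := p_wQ_26_wN_1_rb8033081303x2_26 g__wQ_26_wN_1_rb8033081303x2_27

theorem g__wQ_26_wN_1_rb8033081303x2_25 : GoodKC AS k_wQ_26_wN_1_rb8033081303x2_25 := p_wQ_26_wN_1_rb8033081303x2_25 g__wQ_26_wN_1_rb8033081303x2_26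

theorem g__wQ_26_wN_1_rb8033081303x2_24 : GoodKC AS k_wQ_26_wN_1_rb8033081303x2_24 := p_wQ_26_wN_1_rb8033081303x2_24 g__wQ_26_wN_1_rb8033081303x2_25

theorem g_wQ_26_wN_1_rb803308130306x2 : GoodKC AS c_wQ_26_wN_1_rb803308130306x2 := p_wQ_26_wN_1_rb803308130306x2

theorem g_wQ_26_wN_1_rb803308130305x2 : GoodKC AS c_wQ_26_wN_1_rb803308130305x2 := p_wQ_26_wN_1_rb803308130305x2

theorem g_wQ_26_wN_1_rb803308130304x2 : GoodKC AS c_wQ_26_wN_1_rb803308130304x2 := p_wQ_26_wN_1_rb803308130304x2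

theorem g_wQ_26_wN_1_rb803308130301x2 : GoodKC AS c_wQ_26_wN_1_rb803308130301x2 := p_wQ_26_wN_1_rb803308130301x2

theorem g_wQ_26_wN_1_rb803308130300x2 : GoodKC AS c_wQ_26_wN_1_rb803308130300x2 := p_wQ_26_wN_1_rb803308130300x2

theorem g_wQ_26_wN_1_rb803308130302x2 : GoodKC AS c_wQ_26_wN_1_rb803308130302x2 := p_wQ_26_wN_1_rb803308130302x2

theorem g_wQ_26_wN_1_rb803308130303x2 : GoodKC AS c_wQ_26_wN_1_rb803308130303x2 := p_wQ_26_wN_1_rb803308130303x2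

theorem g_wQ_26_wN_1_rb803308130307x2 : GoodKC AS c_wQ_26_wN_1_rb803308130307x2 := p_wQ_26_wN_1_rb803308130307x2

theorem g_wQ_26_wN_1_rb80330813030bx2 : GoodKC AS c_wQ_26_wN_1_rb80330813030bx2 := p_wQ_26_wN_1_rb80330813030bx2

theorem g_wQ_26_wN_1_rb80330813030dx2 : GoodKC AS c_wQ_26_wN_1_rb80330813030dx2 := p_wQ_26_wN_1_rb80330813030dx2

theorem g_wQ_26_wN_1_rb80330813030ex2 : GoodKC AS c_wQ_26_wN_1_rb80330813030ex2 := p_wQ_26_wN_1_rb80330813030ex2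

theorem g_wQ_26_wN_1_rb80330813030fx2 : GoodKC AS c_wQ_26_wN_1_rb80330813030fx2 := p_wQ_26_wN_1_rb80330813030fx2

theorem g_wQ_26_wN_1_rb803308130314x2 : GoodKC AS c_wQ_26_wN_1_rb803308130314x2 := p_wQ_26_wN_1_rb803308130314x2

theorem g_wQ_26_wN_1_rb80330813031cx2 : GoodKC AS c_wQ_26_wN_1_rb80330813031cx2 := p_wQ_26_wN_1_rb80330813031cx2

theorem g_wQ_26_wN_1_rb80330813031fx2 : GoodKC AS c_wQ_26_wN_1_rb80330813031fx2 := p_wQ_26_wN_1_rb80330813031fx2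

theorem g__wQ_26_wN_1_rb8033081303x2_30 : GoodKC AS k_wQ_26_wN_1_rb8033081303x2_30 := p_wQ_26_wN_1_rb8033081303x2_30

theorem g__wQ_26_wN_1_rb8033081303x2_35 : GoodKC AS k_wQ_26_wN_1_rb8033081303x2_35 := p_wQ_26_wN_1_rb8033081303x2_35

theorem g__wQ_26_wN_1_rb8033081303x2_34 : GoodKC AS k_wQ_26_wN_1_rb8033081303x2_34 := p_wQ_26_wN_1_rb8033081303x2_34 g__wQ_26_wN_1_rb8033081303x2_35

theorem g__wQ_26_wN_1_rb8033081303x2_33 : GoodKC AS k_wQ_26_wN_1_rb8033081303x2_33 := p_wQ_26_wN_1_rb8033081303x2_33 g__wQ_26_wN_1_rb8033081303x2_34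

theorem g__wQ_26_wN_1_rb8033081303x2_32 : GoodKC AS k_wQ_26_wN_1_rb8033081303x2_32 := p_wQ_26_wN_1_rb8033081303x2_32 g__wQ_26_wN_1_rb8033081303x2_33

theorem g__wQ_26_wN_1_rb8033081303x2_31 : GoodKC AS k_wQ_26_wN_1_rb8033081303x2_31 := p_wQ_26_wN_1_rb8033081303x2_31 g__wQ_26_wN_1_rb8033081303x2_32

theorem g__wQ_26_wN_1_rb8033081303x2_38 : GoodKC AS k_wQ_26_wN_1_rb8033081303x2_38 := p_wQ_26_wN_1_rb8033081303x2_38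

theorem g__wQ_26_wN_1_rb8033081303x2_37 : GoodKC AS k_wQ_26_wN_1_rb8033081303x2_37 := p_wQ_26_wN_1_rb8033081303x2_37 g__wQ_26_wN_1_rb8033081303x2_38

theorem g__wQ_26_wN_1_rb8033081303x2_36 : GoodKC AS k_wQ_26_wN_1_rb8033081303x2_36 := p_wQ_26_wN_1_rb8033081303x2_36 g__wQ_26_wN_1_rb8033081303x2_37

theorem g__wQ_26_wN_1_rb8033081303x2_40 : GoodKC AS k_wQ_26_wN_1_rb8033081303x2_40 := p_wQ_26_wN_1_rb8033081303x2_40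

theorem g__wQ_26_wN_1_rb8033081303x2_39 : GoodKC AS k_wQ_26_wN_1_rb8033081303x2_39 := p_wQ_26_wN_1_rb8033081303x2_39 g__wQ_26_wN_1_rb8033081303x2_40

theorem g__wQ_26_wN_1_rb8033081303x2_29 : GoodKC AS k_wQ_26_wN_1_rb8033081303x2_29 := p_wQ_26_wN_1_rb8033081303x2_29 g__wQ_26_wN_1_rb8033081303x2_30 g__wQ_26_wN_1_rb8033081303x2_31 g__wQ_26_wN_1_rb8033081303x2_36 g__wQ_26_wN_1_rb8033081303x2_39

theorem g__wQ_26_wN_1_rb8033081303x2_28 : GoodKC AS k_wQ_26_wN_1_rb8033081303x2_28 := p_wQ_26_wN_1_rb8033081303x2_28 g__wQ_26_wN_1_rb8033081303x2_29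

theorem g__wQ_26_wN_1_rb80330813032ax2_2 : GoodKC AS k_wQ_26_wN_1_rb80330813032ax2_2 := p_wQ_26_wN_1_rb80330813032ax2_2

theorem g__wQ_26_wN_1_rb80330813032ax2_3 : GoodKC AS k_wQ_26_wN_1_rb80330813032ax2_3 := p_wQ_26_wN_1_rb80330813032ax2_3

theorem g__wQ_26_wN_1_rb80330813032ax2_5 : GoodKC AS k_wQ_26_wN_1_rb80330813032ax2_5 := p_wQ_26_wN_1_rb80330813032ax2_5

theorem g__wQ_26_wN_1_rb80330813032ax2_4 : GoodKC AS k_wQ_26_wN_1_rb80330813032ax2_4 := p_wQ_26_wN_1_rb80330813032ax2_4 g__wQ_26_wN_1_rb80330813032ax2_5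

theorem g__wQ_26_wN_1_rb80330813032ax2_10 : GoodKC AS k_wQ_26_wN_1_rb80330813032ax2_10 := p_wQ_26_wN_1_rb80330813032ax2_10

theorem g__wQ_26_wN_1_rb80330813032ax2_9 : GoodKC AS k_wQ_26_wN_1_rb80330813032ax2_9 := p_wQ_26_wN_1_rb80330813032ax2_9 g__wQ_26_wN_1_rb80330813032ax2_10

theorem g__wQ_26_wN_1_rb80330813032ax2_8 : GoodKC AS k_wQ_26_wN_1_rb80330813032ax2_8 := p_wQ_26_wN_1_rb80330813032ax2_8 g__wQ_26_wN_1_rb80330813032ax2_9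

theorem g__wQ_26_wN_1_rb80330813032ax2_7 : GoodKC AS k_wQ_26_wN_1_rb80330813032ax2_7 := p_wQ_26_wN_1_rb80330813032ax2_7 g__wQ_26_wN_1_rb80330813032ax2_8

theorem g__wQ_26_wN_1_rb80330813032ax2_6 : GoodKC AS k_wQ_26_wN_1_rb80330813032ax2_6 := p_wQ_26_wN_1_rb80330813032ax2_6 g__wQ_26_wN_1_rb80330813032ax2_7

theorem g__wQ_26_wN_1_rb80330813032ax2_1 : GoodKC AS k_wQ_26_wN_1_rb80330813032ax2_1 := p_wQ_26_wN_1_rb80330813032ax2_1 g__wQ_26_wN_1_rb80330813032ax2_2 g__wQ_26_wN_1_rb80330813032ax2_3 g__wQ_26_wN_1_rb80330813032ax2_4 g__wQ_26_wN_1_rb80330813032ax2_6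

theorem g__wQ_26_wN_1_rb80330813032ax2_11 : GoodKC AS k_wQ_26_wN_1_rb80330813032ax2_11 := p_wQ_26_wN_1_rb80330813032ax2_11

theorem g__wQ_26_wN_1_rb80330813032ax2_0 : GoodKC AS k_wQ_26_wN_1_rb80330813032ax2_0 := p_wQ_26_wN_1_rb80330813032ax2_0 g__wQ_26_wN_1_rb80330813032ax2_1 g__wQ_26_wN_1_rb80330813032ax2_11

theorem g_wQ_26_wN_1_rb80330813032ax2 : GoodKC AS c_wQ_26_wN_1_rb80330813032ax2 := p_wQ_26_wN_1_rb80330813032ax2 g__wQ_26_wN_1_rb80330813032ax2_0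

theorem g__wQ_26_wN_1_rb80330813032bx2_4 : GoodKC AS k_wQ_26_wN_1_rb80330813032bx2_4 := p_wQ_26_wN_1_rb80330813032bx2_4

theorem g__wQ_26_wN_1_rb80330813032bx2_3 : GoodKC AS k_wQ_26_wN_1_rb80330813032bx2_3 := p_wQ_26_wN_1_rb80330813032bx2_3 g__wQ_26_wN_1_rb80330813032bx2_4

theorem g__wQ_26_wN_1_rb80330813032bx2_5 : GoodKC AS k_wQ_26_wN_1_rb80330813032bx2_5 := p_wQ_26_wN_1_rb80330813032bx2_5

theorem g__wQ_26_wN_1_rb80330813032bx2_2 : GoodKC AS k_wQ_26_wN_1_rb80330813032bx2_2 := p_wQ_26_wN_1_rb80330813032bx2_2 g__wQ_26_wN_1_rb80330813032bx2_3 g__wQ_26_wN_1_rb80330813032bx2_5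

theorem g__wQ_26_wN_1_rb80330813032bx2_1 : GoodKC AS k_wQ_26_wN_1_rb80330813032bx2_1 := p_wQ_26_wN_1_rb80330813032bx2_1 g__wQ_26_wN_1_rb80330813032bx2_2

theorem g__wQ_26_wN_1_rb80330813032bx2_0 : GoodKC AS k_wQ_26_wN_1_rb80330813032bx2_0 := p_wQ_26_wN_1_rb80330813032bx2_0 g__wQ_26_wN_1_rb80330813032bx2_1

theorem g__wQ_26_wN_1_rb80330813032bx2_7 : GoodKC AS k_wQ_26_wN_1_rb80330813032bx2_7 := p_wQ_26_wN_1_rb80330813032bx2_7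

theorem g__wQ_26_wN_1_rb80330813032bx2_6 : GoodKC AS k_wQ_26_wN_1_rb80330813032bx2_6 := p_wQ_26_wN_1_rb80330813032bx2_6 g__wQ_26_wN_1_rb80330813032bx2_7

theorem g_wQ_26_wN_1_rb80330813032bx2 : GoodKC AS c_wQ_26_wN_1_rb80330813032bx2 := p_wQ_26_wN_1_rb80330813032bx2 g__wQ_26_wN_1_rb80330813032bx2_0 g__wQ_26_wN_1_rb80330813032bx2_6

theorem g_wQ_26_wN_1_rb80330813032dx2 : GoodKC AS c_wQ_26_wN_1_rb80330813032dx2 := p_wQ_26_wN_1_rb80330813032dx2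

theorem g_wQ_26_wN_1_rb80330813032fx2 : GoodKC AS c_wQ_26_wN_1_rb80330813032fx2 := p_wQ_26_wN_1_rb80330813032fx2

theorem g__wQ_26_wN_1_rb803308130333x2_0 : GoodKC AS k_wQ_26_wN_1_rb803308130333x2_0 := p_wQ_26_wN_1_rb803308130333x2_0

theorem g_wQ_26_wN_1_rb803308130333x2 : GoodKC AS c_wQ_26_wN_1_rb803308130333x2 := p_wQ_26_wN_1_rb803308130333x2 g__wQ_26_wN_1_rb803308130333x2_0

theorem g_wQ_26_wN_1_rb80330813033512x2 : GoodKC AS c_wQ_26_wN_1_rb80330813033512x2 := p_wQ_26_wN_1_rb80330813033512x2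

theorem g_wQ_26_wN_1_rb80330813033511x2 : GoodKC AS c_wQ_26_wN_1_rb80330813033511x2 := p_wQ_26_wN_1_rb80330813033511x2

theorem g_wQ_26_wN_1_rb80330813033510x2 : GoodKC AS c_wQ_26_wN_1_rb80330813033510x2 := p_wQ_26_wN_1_rb80330813033510x2

theorem g__wQ_26_wN_1_rb803308130335x2_0 : GoodKC AS k_wQ_26_wN_1_rb803308130335x2_0 := p_wQ_26_wN_1_rb803308130335x2_0

theorem g__wQ_26_wN_1_rb803308130335x2_8 : GoodKC AS k_wQ_26_wN_1_rb803308130335x2_8 := p_wQ_26_wN_1_rb803308130335x2_8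

theorem g__wQ_26_wN_1_rb803308130335x2_7 : GoodKC AS k_wQ_26_wN_1_rb803308130335x2_7 := p_wQ_26_wN_1_rb803308130335x2_7 g__wQ_26_wN_1_rb803308130335x2_8

theorem g__wQ_26_wN_1_rb803308130335x2_6 : GoodKC AS k_wQ_26_wN_1_rb803308130335x2_6 := p_wQ_26_wN_1_rb803308130335x2_6 g__wQ_26_wN_1_rb803308130335x2_7

theorem g__wQ_26_wN_1_rb803308130335x2_5 : GoodKC AS k_wQ_26_wN_1_rb803308130335x2_5 := p_wQ_26_wN_1_rb803308130335x2_5 g__wQ_26_wN_1_rb803308130335x2_6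

theorem g__wQ_26_wN_1_rb803308130335x2_4 : GoodKC AS k_wQ_26_wN_1_rb803308130335x2_4 := p_wQ_26_wN_1_rb803308130335x2_4 g__wQ_26_wN_1_rb803308130335x2_5

theorem g__wQ_26_wN_1_rb803308130335x2_10 : GoodKC AS k_wQ_26_wN_1_rb803308130335x2_10 := p_wQ_26_wN_1_rb803308130335x2_10

theorem g__wQ_26_wN_1_rb803308130335x2_9 : GoodKC AS k_wQ_26_wN_1_rb803308130335x2_9 := p_wQ_26_wN_1_rb803308130335x2_9 g__wQ_26_wN_1_rb803308130335x2_10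

theorem g__wQ_26_wN_1_rb803308130335x2_3 : GoodKC AS k_wQ_26_wN_1_rb803308130335x2_3 := p_wQ_26_wN_1_rb803308130335x2_3 g__wQ_26_wN_1_rb803308130335x2_4 g__wQ_26_wN_1_rb803308130335x2_9

theorem g__wQ_26_wN_1_rb803308130335x2_14 : GoodKC AS k_wQ_26_wN_1_rb803308130335x2_14 := p_wQ_26_wN_1_rb803308130335x2_14

theorem g__wQ_26_wN_1_rb803308130335x2_13 : GoodKC AS k_wQ_26_wN_1_rb803308130335x2_13 := p_wQ_26_wN_1_rb803308130335x2_13 g__wQ_26_wN_1_rb803308130335x2_14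

theorem g__wQ_26_wN_1_rb803308130335x2_12 : GoodKC AS k_wQ_26_wN_1_rb803308130335x2_12 := p_wQ_26_wN_1_rb803308130335x2_12 g__wQ_26_wN_1_rb803308130335x2_13

theorem g__wQ_26_wN_1_rb803308130335x2_11 : GoodKC AS k_wQ_26_wN_1_rb803308130335x2_11 := p_wQ_26_wN_1_rb803308130335x2_11 g__wQ_26_wN_1_rb803308130335x2_12

theorem g__wQ_26_wN_1_rb803308130335x2_2 : GoodKC AS k_wQ_26_wN_1_rb803308130335x2_2 := p_wQ_26_wN_1_rb803308130335x2_2 g__wQ_26_wN_1_rb803308130335x2_3 g__wQ_26_wN_1_rb803308130335x2_11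

theorem g__wQ_26_wN_1_rb803308130335x2_17 : GoodKC AS k_wQ_26_wN_1_rb803308130335x2_17 := p_wQ_26_wN_1_rb803308130335x2_17

theorem g__wQ_26_wN_1_rb803308130335x2_16 : GoodKC AS k_wQ_26_wN_1_rb803308130335x2_16 := p_wQ_26_wN_1_rb803308130335x2_16 g__wQ_26_wN_1_rb803308130335x2_17

theorem g__wQ_26_wN_1_rb803308130335x2_15 : GoodKC AS k_wQ_26_wN_1_rb803308130335x2_15 := p_wQ_26_wN_1_rb803308130335x2_15 g__wQ_26_wN_1_rb803308130335x2_16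

theorem g__wQ_26_wN_1_rb803308130335x2_1 : GoodKC AS k_wQ_26_wN_1_rb803308130335x2_1 := p_wQ_26_wN_1_rb803308130335x2_1 g__wQ_26_wN_1_rb803308130335x2_2 g__wQ_26_wN_1_rb803308130335x2_15

theorem g_wQ_26_wN_1_rb8033081303350fx2 : GoodKC AS c_wQ_26_wN_1_rb8033081303350fx2 := p_wQ_26_wN_1_rb8033081303350fx2

theorem g_wQ_26_wN_1_rb8033081303350ex2 : GoodKC AS c_wQ_26_wN_1_rb8033081303350ex2 := p_wQ_26_wN_1_rb8033081303350ex2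

theorem g_wQ_26_wN_1_rb8033081303350dx2 : GoodKC AS c_wQ_26_wN_1_rb8033081303350dx2 := p_wQ_26_wN_1_rb8033081303350dx2

theorem g_wQ_26_wN_1_rb8033081303350ax2 : GoodKC AS c_wQ_26_wN_1_rb8033081303350ax2 := p_wQ_26_wN_1_rb8033081303350ax2

theorem g_wQ_26_wN_1_rb80330813033509x2 : GoodKC AS c_wQ_26_wN_1_rb80330813033509x2 := p_wQ_26_wN_1_rb80330813033509x2

theorem g__wQ_26_wN_1_rb80330813033508x2_0 : GoodKC AS k_wQ_26_wN_1_rb80330813033508x2_0 := p_wQ_26_wN_1_rb80330813033508x2_0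

theorem g_wQ_26_wN_1_rb80330813033508x2 : GoodKC AS c_wQ_26_wN_1_rb80330813033508x2 := p_wQ_26_wN_1_rb80330813033508x2 g__wQ_26_wN_1_rb80330813033508x2_0

theorem g_wQ_26_wN_1_rb80330813033506x2 : GoodKC AS c_wQ_26_wN_1_rb80330813033506x2 := p_wQ_26_wN_1_rb80330813033506x2

theorem g_wQ_26_wN_1_rb80330813033505x2 : GoodKC AS c_wQ_26_wN_1_rb80330813033505x2 := p_wQ_26_wN_1_rb80330813033505x2

theorem g_wQ_26_wN_1_rb80330813033503x2 : GoodKC AS c_wQ_26_wN_1_rb80330813033503x2 := p_wQ_26_wN_1_rb80330813033503x2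

theorem g_wQ_26_wN_1_rb80330813033502x2 : GoodKC AS c_wQ_26_wN_1_rb80330813033502x2 := p_wQ_26_wN_1_rb80330813033502x2

theorem g_wQ_26_wN_1_rb80330813033501x2 : GoodKC AS c_wQ_26_wN_1_rb80330813033501x2 := p_wQ_26_wN_1_rb80330813033501x2

theorem g_wQ_26_wN_1_rb80330813033500x2 : GoodKC AS c_wQ_26_wN_1_rb80330813033500x2 := p_wQ_26_wN_1_rb80330813033500x2

theorem g_wQ_26_wN_1_rb80330813033504x2 : GoodKC AS c_wQ_26_wN_1_rb80330813033504x2 := p_wQ_26_wN_1_rb80330813033504x2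

theorem g__wQ_26_wN_1_rb803308130335x2_21 : GoodKC AS k_wQ_26_wN_1_rb803308130335x2_21 := p_wQ_26_wN_1_rb803308130335x2_21

theorem g__wQ_26_wN_1_rb803308130335x2_20 : GoodKC AS k_wQ_26_wN_1_rb803308130335x2_20 := p_wQ_26_wN_1_rb803308130335x2_20 g__wQ_26_wN_1_rb803308130335x2_21

theorem g__wQ_26_wN_1_rb803308130335x2_24 : GoodKC AS k_wQ_26_wN_1_rb803308130335x2_24 := p_wQ_26_wN_1_rb803308130335x2_24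

theorem g__wQ_26_wN_1_rb803308130335x2_23 : GoodKC AS k_wQ_26_wN_1_rb803308130335x2_23 := p_wQ_26_wN_1_rb803308130335x2_23 g__wQ_26_wN_1_rb803308130335x2_24

theorem g__wQ_26_wN_1_rb803308130335x2_26 : GoodKC AS k_wQ_26_wN_1_rb803308130335x2_26 := p_wQ_26_wN_1_rb803308130335x2_26

theorem g__wQ_26_wN_1_rb803308130335x2_25 : GoodKC AS k_wQ_26_wN_1_rb803308130335x2_25 := p_wQ_26_wN_1_rb803308130335x2_25 g__wQ_26_wN_1_rb803308130335x2_26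

theorem g__wQ_26_wN_1_rb803308130335x2_22 : GoodKC AS k_wQ_26_wN_1_rb803308130335x2_22 := p_wQ_26_wN_1_rb803308130335x2_22 g__wQ_26_wN_1_rb803308130335x2_23 g__wQ_26_wN_1_rb803308130335x2_25

theorem g__wQ_26_wN_1_rb803308130335x2_28 : GoodKC AS k_wQ_26_wN_1_rb803308130335x2_28 := p_wQ_26_wN_1_rb803308130335x2_28

theorem g__wQ_26_wN_1_rb803308130335x2_27 : GoodKC AS k_wQ_26_wN_1_rb803308130335x2_27 := p_wQ_26_wN_1_rb803308130335x2_27 g__wQ_26_wN_1_rb803308130335x2_28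

theorem g__wQ_26_wN_1_rb803308130335x2_19 : GoodKC AS k_wQ_26_wN_1_rb803308130335x2_19 := p_wQ_26_wN_1_rb803308130335x2_19 g__wQ_26_wN_1_rb803308130335x2_20 g__wQ_26_wN_1_rb803308130335x2_22 g__wQ_26_wN_1_rb803308130335x2_27

theorem g__wQ_26_wN_1_rb803308130335x2_29 : GoodKC AS k_wQ_26_wN_1_rb803308130335x2_29 := p_wQ_26_wN_1_rb803308130335x2_29

theorem g__wQ_26_wN_1_rb803308130335x2_18 : GoodKC AS k_wQ_26_wN_1_rb803308130335x2_18 := p_wQ_26_wN_1_rb803308130335x2_18 g_wQ_26_wN_1_rb80330813033505x2 g_wQ_26_wN_1_rb80330813033503x2 g_wQ_26_wN_1_rb80330813033502x2 g_wQ_26_wN_1_rb80330813033501x2 g_wQ_26_wN_1_rb80330813033500x2 g_wQ_26_wN_1_rb80330813033504x2 g__wQ_26_wN_1_rb803308130335x2_19 g__wQ_26_wN_1_rb803308130335x2_29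

theorem g__wQ_26_wN_1_rb803308130335x2_33 : GoodKC AS k_wQ_26_wN_1_rb803308130335x2_33 := p_wQ_26_wN_1_rb803308130335x2_33

theorem g__wQ_26_wN_1_rb803308130335x2_32 : GoodKC AS k_wQ_26_wN_1_rb803308130335x2_32 := p_wQ_26_wN_1_rb803308130335x2_32 g__wQ_26_wN_1_rb803308130335x2_33

theorem g__wQ_26_wN_1_rb803308130335x2_31 : GoodKC AS k_wQ_26_wN_1_rb803308130335x2_31 := p_wQ_26_wN_1_rb803308130335x2_31 g__wQ_26_wN_1_rb803308130335x2_32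

theorem g__wQ_26_wN_1_rb803308130335x2_36 : GoodKC AS k_wQ_26_wN_1_rb803308130335x2_36 := p_wQ_26_wN_1_rb803308130335x2_36

theorem g__wQ_26_wN_1_rb803308130335x2_38 : GoodKC AS k_wQ_26_wN_1_rb803308130335x2_38 := p_wQ_26_wN_1_rb803308130335x2_38

theorem g__wQ_26_wN_1_rb803308130335x2_37 : GoodKC AS k_wQ_26_wN_1_rb803308130335x2_37 := p_wQ_26_wN_1_rb803308130335x2_37 g__wQ_26_wN_1_rb803308130335x2_38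

theorem g__wQ_26_wN_1_rb803308130335x2_39 : GoodKC AS k_wQ_26_wN_1_rb803308130335x2_39 := p_wQ_26_wN_1_rb803308130335x2_39

theorem g__wQ_26_wN_1_rb803308130335x2_35 : GoodKC AS k_wQ_26_wN_1_rb803308130335x2_35 := p_wQ_26_wN_1_rb803308130335x2_35 g__wQ_26_wN_1_rb803308130335x2_36 g__wQ_26_wN_1_rb803308130335x2_37 g__wQ_26_wN_1_rb803308130335x2_39

theorem g__wQ_26_wN_1_rb803308130335x2_34 : GoodKC AS k_wQ_26_wN_1_rb803308130335x2_34 := p_wQ_26_wN_1_rb803308130335x2_34 g__wQ_26_wN_1_rb803308130335x2_35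

theorem g__wQ_26_wN_1_rb803308130335x2_30 : GoodKC AS k_wQ_26_wN_1_rb803308130335x2_30 := p_wQ_26_wN_1_rb803308130335x2_30 g__wQ_26_wN_1_rb803308130335x2_31 g__wQ_26_wN_1_rb803308130335x2_34

theorem g_wQ_26_wN_1_rb80330813033507x2 : GoodKC AS c_wQ_26_wN_1_rb80330813033507x2 := p_wQ_26_wN_1_rb80330813033507x2

theorem g_wQ_26_wN_1_rb8033081303350bx2 : GoodKC AS c_wQ_26_wN_1_rb8033081303350bx2 := p_wQ_26_wN_1_rb8033081303350bx2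

theorem g_wQ_26_wN_1_rb8033081303350cx2 : GoodKC AS c_wQ_26_wN_1_rb8033081303350cx2 := p_wQ_26_wN_1_rb8033081303350cx2

theorem g__wQ_26_wN_1_rb80330813033513x2_7 : GoodKC AS k_wQ_26_wN_1_rb80330813033513x2_7 := p_wQ_26_wN_1_rb80330813033513x2_7

theorem g__wQ_26_wN_1_rb80330813033513x2_9 : GoodKC AS k_wQ_26_wN_1_rb80330813033513x2_9 := p_wQ_26_wN_1_rb80330813033513x2_9

theorem g__wQ_26_wN_1_rb80330813033513x2_8 : GoodKC AS k_wQ_26_wN_1_rb80330813033513x2_8 := p_wQ_26_wN_1_rb80330813033513x2_8 g__wQ_26_wN_1_rb80330813033513x2_9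

theorem g__wQ_26_wN_1_rb80330813033513x2_6 : GoodKC AS k_wQ_26_wN_1_rb80330813033513x2_6 := p_wQ_26_wN_1_rb80330813033513x2_6 g__wQ_26_wN_1_rb80330813033513x2_7 g__wQ_26_wN_1_rb80330813033513x2_8

theorem g__wQ_26_wN_1_rb80330813033513x2_5 : GoodKC AS k_wQ_26_wN_1_rb80330813033513x2_5 := p_wQ_26_wN_1_rb80330813033513x2_5 g__wQ_26_wN_1_rb80330813033513x2_6

theorem g__wQ_26_wN_1_rb80330813033513x2_4 : GoodKC AS k_wQ_26_wN_1_rb80330813033513x2_4 := p_wQ_26_wN_1_rb80330813033513x2_4 g__wQ_26_wN_1_rb80330813033513x2_5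

theorem g__wQ_26_wN_1_rb80330813033513x2_10 : GoodKC AS k_wQ_26_wN_1_rb80330813033513x2_10 := p_wQ_26_wN_1_rb80330813033513x2_10

theorem g__wQ_26_wN_1_rb80330813033513x2_3 : GoodKC AS k_wQ_26_wN_1_rb80330813033513x2_3 := p_wQ_26_wN_1_rb80330813033513x2_3 g__wQ_26_wN_1_rb80330813033513x2_4 g__wQ_26_wN_1_rb80330813033513x2_10

theorem g__wQ_26_wN_1_rb80330813033513x2_2 : GoodKC AS k_wQ_26_wN_1_rb80330813033513x2_2 := p_wQ_26_wN_1_rb80330813033513x2_2 g__wQ_26_wN_1_rb80330813033513x2_3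

theorem g__wQ_26_wN_1_rb80330813033513x2_1 : GoodKC AS k_wQ_26_wN_1_rb80330813033513x2_1 := p_wQ_26_wN_1_rb80330813033513x2_1 g__wQ_26_wN_1_rb80330813033513x2_2

theorem g__wQ_26_wN_1_rb80330813033513x2_12 : GoodKC AS k_wQ_26_wN_1_rb80330813033513x2_12 := p_wQ_26_wN_1_rb80330813033513x2_12

theorem g__wQ_26_wN_1_rb80330813033513x2_13 : GoodKC AS k_wQ_26_wN_1_rb80330813033513x2_13 := p_wQ_26_wN_1_rb80330813033513x2_13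

theorem g__wQ_26_wN_1_rb80330813033513x2_11 : GoodKC AS k_wQ_26_wN_1_rb80330813033513x2_11 := p_wQ_26_wN_1_rb80330813033513x2_11 g__wQ_26_wN_1_rb80330813033513x2_12 g__wQ_26_wN_1_rb80330813033513x2_13

theorem g__wQ_26_wN_1_rb80330813033513x2_14 : GoodKC AS k_wQ_26_wN_1_rb80330813033513x2_14 := p_wQ_26_wN_1_rb80330813033513x2_14

theorem g__wQ_26_wN_1_rb80330813033513x2_0 : GoodKC AS k_wQ_26_wN_1_rb80330813033513x2_0 := p_wQ_26_wN_1_rb80330813033513x2_0 g__wQ_26_wN_1_rb80330813033513x2_1 g__wQ_26_wN_1_rb80330813033513x2_11 g__wQ_26_wN_1_rb80330813033513x2_14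

theorem g_wQ_26_wN_1_rb80330813033513x2 : GoodKC AS c_wQ_26_wN_1_rb80330813033513x2 := p_wQ_26_wN_1_rb80330813033513x2 g__wQ_26_wN_1_rb80330813033513x2_0

theorem g__wQ_26_wN_1_rb80330813033514x2_0 : GoodKC AS k_wQ_26_wN_1_rb80330813033514x2_0 := p_wQ_26_wN_1_rb80330813033514x2_0

theorem g_wQ_26_wN_1_rb80330813033514x2 : GoodKC AS c_wQ_26_wN_1_rb80330813033514x2 := p_wQ_26_wN_1_rb80330813033514x2 g__wQ_26_wN_1_rb80330813033514x2_0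

theorem g_wQ_26_wN_1_rb80330813033515x2 : GoodKC AS c_wQ_26_wN_1_rb80330813033515x2 := p_wQ_26_wN_1_rb80330813033515x2

theorem g_wQ_26_wN_1_rb803308130335x2 : GoodKC AS c_wQ_26_wN_1_rb803308130335x2 := p_wQ_26_wN_1_rb803308130335x2 g_wQ_26_wN_1_rb80330813033512x2 g_wQ_26_wN_1_rb80330813033511x2 g_wQ_26_wN_1_rb80330813033510x2 g__wQ_26_wN_1_rb803308130335x2_0 g__wQ_26_wN_1_rb803308130335x2_1 g_wQ_26_wN_1_rb8033081303350fx2 g_wQ_26_wN_1_rb8033081303350ex2 g_wQ_26_wN_1_rb8033081303350dx2 g_wQ_26_wN_1_rb8033081303350ax2 g_wQ_26_wN_1_rb80330813033509x2 g_wQ_26_wN_1_rb80330813033508x2 g_wQ_26_wN_1_rb80330813033506x2 g__wQ_26_wN_1_rb803308130335x2_18 g__wQ_26_wN_1_rb803308130335x2_30 g_wQ_26_wN_1_rb80330813033507x2 g_wQ_26_wN_1_rb8033081303350bx2 g_wQ_26_wN_1_rb8033081303350cx2 g_wQ_26_wN_1_rb80330813033513x2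 g_wQ_26_wN_1_rb80330813033514x2 g_wQ_26_wN_1_rb80330813033515x2

theorem g_wQ_26_wN_1_rb803308130336x2 : GoodKC AS c_wQ_26_wN_1_rb803308130336x2 := p_wQ_26_wN_1_rb803308130336x2

theorem g_wQ_26_wN_1_rb8033081303x4 : GoodKC AS c_wQ_26_wN_1_rb8033081303x4 := p_wQ_26_wN_1_rb8033081303x2 g_wQ_26_wN_1_rb803308130337x2 g_wQ_26_wN_1_rb803308130334x2 g_wQ_26_wN_1_rb803308130332x2 g_wQ_26_wN_1_rb803308130331x2 g_wQ_26_wN_1_rb803308130330x2 g_wQ_26_wN_1_rb80330813032ex2 g_wQ_26_wN_1_rb80330813032cx2 g_wQ_26_wN_1_rb803308130329x2 g_wQ_26_wN_1_rb803308130328x2 g_wQ_26_wN_1_rb803308130327x2 g_wQ_26_wN_1_rb803308130326x2 g_wQ_26_wN_1_rb803308130325x2 g_wQ_26_wN_1_rb803308130324x2 g_wQ_26_wN_1_rb803308130323x2 g__wQ_26_wN_1_rb8033081303x2_0 g_wQ_26_wN_1_rb803308130322x2 g_wQ_26_wN_1_rb803308130321x2 g_wQ_26_wN_1_rb803308130320x2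 g_wQ_26_wN_1_rb80330813031ex2 g_wQ_26_wN_1_rb80330813031dx2 g_wQ_26_wN_1_rb80330813031bx2 g_wQ_26_wN_1_rb80330813031ax2 g_wQ_26_wN_1_rb803308130319x2 g_wQ_26_wN_1_rb803308130318x2 g_wQ_26_wN_1_rb803308130317x2 g_wQ_26_wN_1_rb803308130316x2 g_wQ_26_wN_1_rb803308130315x2 g_wQ_26_wN_1_rb803308130313x2 g_wQ_26_wN_1_rb803308130312x2 g_wQ_26_wN_1_rb803308130311x2 g_wQ_26_wN_1_rb803308130310x2 g_wQ_26_wN_1_rb80330813030cx2 g_wQ_26_wN_1_rb80330813030ax2 g_wQ_26_wN_1_rb803308130309x2 g_wQ_26_wN_1_rb803308130308x2 g__wQ_26_wN_1_rb8033081303x2_24 g_wQ_26_wN_1_rb803308130306x2 g_wQ_26_wN_1_rb803308130305x2 g_wQ_26_wN_1_rb803308130304x2 g_wQ_26_wN_1_rb803308130301x2 g_wQ_26_wN_1_rb803308130300x2 g_wQ_26_wN_1_rb803308130302x2 g_wQ_26_wN_1_rb803308130303x2 g_wQ_26_wN_1_rb803308130307x2 g_wQ_26_wN_1_rb80330813030bx2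 g_wQ_26_wN_1_rb80330813030dx2 g_wQ_26_wN_1_rb80330813030ex2 g_wQ_26_wN_1_rb80330813030fx2 g_wQ_26_wN_1_rb803308130314x2 g_wQ_26_wN_1_rb80330813031cx2 g_wQ_26_wN_1_rb80330813031fx2 g__wQ_26_wN_1_rb8033081303x2_28 g_wQ_26_wN_1_rb80330813032ax2 g_wQ_26_wN_1_rb80330813032bx2 g_wQ_26_wN_1_rb80330813032dx2 g_wQ_26_wN_1_rb80330813032fx2 g_wQ_26_wN_1_rb803308130333x2 g_wQ_26_wN_1_rb803308130335x2 g_wQ_26_wN_1_rb803308130336x2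

theorem g__wQ_26_wN_1_rb8033081301x4_0 : GoodKC AS k_wQ_26_wN_1_rb8033081301x4_0 := p_wQ_26_wN_1_rb8033081301x4_0

theorem g__wQ_26_wN_1_rb8033081301x4_1 : GoodKC AS k_wQ_26_wN_1_rb8033081301x4_1 := p_wQ_26_wN_1_rb8033081301x4_1

theorem g_wQ_26_wN_1_rb8033081301x4 : GoodKC AS c_wQ_26_wN_1_rb8033081301x4 := p_wQ_26_wN_1_rb8033081301x4 g__wQ_26_wN_1_rb8033081301x4_0 g__wQ_26_wN_1_rb8033081301x4_1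

theorem g__wQ_26_wN_1_rb80330813x4_0 : GoodKC AS k_wQ_26_wN_1_rb80330813x4_0 := p_wQ_26_wN_1_rb80330813x4_0

theorem g__wQ_26_wN_1_rb80330813x4_4 : GoodKC AS k_wQ_26_wN_1_rb80330813x4_4 := p_wQ_26_wN_1_rb80330813x4_4

theorem g__wQ_26_wN_1_rb80330813x4_12 : GoodKC AS k_wQ_26_wN_1_rb80330813x4_12 := p_wQ_26_wN_1_rb80330813x4_12

theorem g__wQ_26_wN_1_rb80330813x4_11 : GoodKC AS k_wQ_26_wN_1_rb80330813x4_11 := p_wQ_26_wN_1_rb80330813x4_11 g__wQ_26_wN_1_rb80330813x4_12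

theorem g__wQ_26_wN_1_rb80330813x4_10 : GoodKC AS k_wQ_26_wN_1_rb80330813x4_10 := p_wQ_26_wN_1_rb80330813x4_10 g__wQ_26_wN_1_rb80330813x4_11

theorem g__wQ_26_wN_1_rb80330813x4_9 : GoodKC AS k_wQ_26_wN_1_rb80330813x4_9 := p_wQ_26_wN_1_rb80330813x4_9 g__wQ_26_wN_1_rb80330813x4_10

theorem g__wQ_26_wN_1_rb80330813x4_13 : GoodKC AS k_wQ_26_wN_1_rb80330813x4_13 := p_wQ_26_wN_1_rb80330813x4_13

theorem g__wQ_26_wN_1_rb80330813x4_14 : GoodKC AS k_wQ_26_wN_1_rb80330813x4_14 := p_wQ_26_wN_1_rb80330813x4_14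

theorem g__wQ_26_wN_1_rb80330813x4_15 : GoodKC AS k_wQ_26_wN_1_rb80330813x4_15 := p_wQ_26_wN_1_rb80330813x4_15

theorem g__wQ_26_wN_1_rb80330813x4_17 : GoodKC AS k_wQ_26_wN_1_rb80330813x4_17 := p_wQ_26_wN_1_rb80330813x4_17

theorem g__wQ_26_wN_1_rb80330813x4_19 : GoodKC AS k_wQ_26_wN_1_rb80330813x4_19 := p_wQ_26_wN_1_rb80330813x4_19

theorem g__wQ_26_wN_1_rb80330813x4_20 : GoodKC AS k_wQ_26_wN_1_rb80330813x4_20 := p_wQ_26_wN_1_rb80330813x4_20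

theorem g__wQ_26_wN_1_rb80330813x4_18 : GoodKC AS k_wQ_26_wN_1_rb80330813x4_18 := p_wQ_26_wN_1_rb80330813x4_18 g__wQ_26_wN_1_rb80330813x4_19 g__wQ_26_wN_1_rb80330813x4_20

theorem g__wQ_26_wN_1_rb80330813x4_16 : GoodKC AS k_wQ_26_wN_1_rb80330813x4_16 := p_wQ_26_wN_1_rb80330813x4_16 g__wQ_26_wN_1_rb80330813x4_17 g__wQ_26_wN_1_rb80330813x4_18

theorem g__wQ_26_wN_1_rb8033081300v3_5 : GoodKC AS k_wQ_26_wN_1_rb8033081300v3_5 := p_wQ_26_wN_1_rb8033081300v3_5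

theorem g__wQ_26_wN_1_rb8033081300v3_4 : GoodKC AS k_wQ_26_wN_1_rb8033081300v3_4 := p_wQ_26_wN_1_rb8033081300v3_4 g__wQ_26_wN_1_rb8033081300v3_5

theorem g__wQ_26_wN_1_rb8033081300v3_3 : GoodKC AS k_wQ_26_wN_1_rb8033081300v3_3 := p_wQ_26_wN_1_rb8033081300v3_3 g__wQ_26_wN_1_rb8033081300v3_4

theorem g__wQ_26_wN_1_rb8033081300v3_2 : GoodKC AS k_wQ_26_wN_1_rb8033081300v3_2 := p_wQ_26_wN_1_rb8033081300v3_2 g__wQ_26_wN_1_rb8033081300v3_3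

theorem g__wQ_26_wN_1_rb8033081300v3_1 : GoodKC AS k_wQ_26_wN_1_rb8033081300v3_1 := p_wQ_26_wN_1_rb8033081300v3_1 g__wQ_26_wN_1_rb8033081300v3_2

theorem g__wQ_26_wN_1_rb8033081300v3_9 : GoodKC AS k_wQ_26_wN_1_rb8033081300v3_9 := p_wQ_26_wN_1_rb8033081300v3_9

theorem g__wQ_26_wN_1_rb8033081300v3_8 : GoodKC AS k_wQ_26_wN_1_rb8033081300v3_8 := p_wQ_26_wN_1_rb8033081300v3_8 g__wQ_26_wN_1_rb8033081300v3_9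

theorem g__wQ_26_wN_1_rb8033081300v3_7 : GoodKC AS k_wQ_26_wN_1_rb8033081300v3_7 := p_wQ_26_wN_1_rb8033081300v3_7 g__wQ_26_wN_1_rb8033081300v3_8

theorem g__wQ_26_wN_1_rb8033081300v3_10 : GoodKC AS k_wQ_26_wN_1_rb8033081300v3_10 := p_wQ_26_wN_1_rb8033081300v3_10

theorem g__wQ_26_wN_1_rb8033081300v3_11 : GoodKC AS k_wQ_26_wN_1_rb8033081300v3_11 := p_wQ_26_wN_1_rb8033081300v3_11

theorem g__wQ_26_wN_1_rb8033081300v3_6 : GoodKC AS k_wQ_26_wN_1_rb8033081300v3_6 := p_wQ_26_wN_1_rb8033081300v3_6 g__wQ_26_wN_1_rb8033081300v3_7 g__wQ_26_wN_1_rb8033081300v3_10 g__wQ_26_wN_1_rb8033081300v3_11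

theorem g__wQ_26_wN_1_rb8033081300v3_0 : GoodKC AS k_wQ_26_wN_1_rb8033081300v3_0 := p_wQ_26_wN_1_rb8033081300v3_0 g__wQ_26_wN_1_rb8033081300v3_1 g__wQ_26_wN_1_rb8033081300v3_6

theorem g_wQ_26_wN_1_rb8033081300x4 : GoodKC AS c_wQ_26_wN_1_rb8033081300x4 := p_wQ_26_wN_1_rb8033081300x3 g__wQ_26_wN_1_rb8033081300v3_0

theorem g__wQ_26_wN_1_rb80330813x4_8 : GoodKC AS k_wQ_26_wN_1_rb80330813x4_8 := p_wQ_26_wN_1_rb80330813x4_8 g__wQ_26_wN_1_rb80330813x4_9 g__wQ_26_wN_1_rb80330813x4_13 g__wQ_26_wN_1_rb80330813x4_14 g__wQ_26_wN_1_rb80330813x4_15 g__wQ_26_wN_1_rb80330813x4_16 g_wQ_26_wN_1_rb8033081300x4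

theorem g__wQ_26_wN_1_rb80330813x4_7 : GoodKC AS k_wQ_26_wN_1_rb80330813x4_7 := p_wQ_26_wN_1_rb80330813x4_7 g__wQ_26_wN_1_rb80330813x4_8

theorem g__wQ_26_wN_1_rb80330813x4_21 : GoodKC AS k_wQ_26_wN_1_rb80330813x4_21 := p_wQ_26_wN_1_rb80330813x4_21

theorem g__wQ_26_wN_1_rb80330813x4_6 : GoodKC AS k_wQ_26_wN_1_rb80330813x4_6 := p_wQ_26_wN_1_rb80330813x4_6 g__wQ_26_wN_1_rb80330813x4_7 g__wQ_26_wN_1_rb80330813x4_21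

theorem g__wQ_26_wN_1_rb80330813x4_5 : GoodKC AS k_wQ_26_wN_1_rb80330813x4_5 := p_wQ_26_wN_1_rb80330813x4_5 g__wQ_26_wN_1_rb80330813x4_6

theorem g__wQ_26_wN_1_rb80330813x4_3 : GoodKC AS k_wQ_26_wN_1_rb80330813x4_3 := p_wQ_26_wN_1_rb80330813x4_3 g__wQ_26_wN_1_rb80330813x4_4 g__wQ_26_wN_1_rb80330813x4_5

theorem g__wQ_26_wN_1_rb80330813x4_31 : GoodKC AS k_wQ_26_wN_1_rb80330813x4_31 := p_wQ_26_wN_1_rb80330813x4_31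

theorem g__wQ_26_wN_1_rb80330813x4_30 : GoodKC AS k_wQ_26_wN_1_rb80330813x4_30 := p_wQ_26_wN_1_rb80330813x4_30 g__wQ_26_wN_1_rb80330813x4_31

theorem g__wQ_26_wN_1_rb80330813x4_29 : GoodKC AS k_wQ_26_wN_1_rb80330813x4_29 := p_wQ_26_wN_1_rb80330813x4_29 g__wQ_26_wN_1_rb80330813x4_30

theorem g__wQ_26_wN_1_rb80330813x4_32 : GoodKC AS k_wQ_26_wN_1_rb80330813x4_32 := p_wQ_26_wN_1_rb80330813x4_32

theorem g__wQ_26_wN_1_rb80330813x4_28 : GoodKC AS k_wQ_26_wN_1_rb80330813x4_28 := p_wQ_26_wN_1_rb80330813x4_28 g__wQ_26_wN_1_rb80330813x4_29 g__wQ_26_wN_1_rb80330813x4_32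

theorem g__wQ_26_wN_1_rb80330813x4_27 : GoodKC AS k_wQ_26_wN_1_rb80330813x4_27 := p_wQ_26_wN_1_rb80330813x4_27 g__wQ_26_wN_1_rb80330813x4_28

theorem g__wQ_26_wN_1_rb80330813x4_26 : GoodKC AS k_wQ_26_wN_1_rb80330813x4_26 := p_wQ_26_wN_1_rb80330813x4_26 g__wQ_26_wN_1_rb80330813x4_27

theorem g__wQ_26_wN_1_rb80330813x4_25 : GoodKC AS k_wQ_26_wN_1_rb80330813x4_25 := p_wQ_26_wN_1_rb80330813x4_25 g__wQ_26_wN_1_rb80330813x4_26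

theorem g__wQ_26_wN_1_rb80330813x4_24 : GoodKC AS k_wQ_26_wN_1_rb80330813x4_24 := p_wQ_26_wN_1_rb80330813x4_24 g__wQ_26_wN_1_rb80330813x4_25

theorem g__wQ_26_wN_1_rb80330813x4_23 : GoodKC AS k_wQ_26_wN_1_rb80330813x4_23 := p_wQ_26_wN_1_rb80330813x4_23 g__wQ_26_wN_1_rb80330813x4_24

theorem g__wQ_26_wN_1_rb80330813x4_34 : GoodKC AS k_wQ_26_wN_1_rb80330813x4_34 := p_wQ_26_wN_1_rb80330813x4_34

theorem g__wQ_26_wN_1_rb80330813x4_33 : GoodKC AS k_wQ_26_wN_1_rb80330813x4_33 := p_wQ_26_wN_1_rb80330813x4_33 g__wQ_26_wN_1_rb80330813x4_34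

theorem g__wQ_26_wN_1_rb80330813x4_36 : GoodKC AS k_wQ_26_wN_1_rb80330813x4_36 := p_wQ_26_wN_1_rb80330813x4_36

theorem g__wQ_26_wN_1_rb80330813x4_35 : GoodKC AS k_wQ_26_wN_1_rb80330813x4_35 := p_wQ_26_wN_1_rb80330813x4_35 g__wQ_26_wN_1_rb80330813x4_36

theorem g__wQ_26_wN_1_rb80330813x4_22 : GoodKC AS k_wQ_26_wN_1_rb80330813x4_22 := p_wQ_26_wN_1_rb80330813x4_22 g__wQ_26_wN_1_rb80330813x4_23 g__wQ_26_wN_1_rb80330813x4_33 g__wQ_26_wN_1_rb80330813x4_35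

theorem g__wQ_26_wN_1_rb80330813x4_2 : GoodKC AS k_wQ_26_wN_1_rb80330813x4_2 := p_wQ_26_wN_1_rb80330813x4_2 g__wQ_26_wN_1_rb80330813x4_3 g__wQ_26_wN_1_rb80330813x4_22

theorem g__wQ_26_wN_1_rb80330813x4_1 : GoodKC AS k_wQ_26_wN_1_rb80330813x4_1 := p_wQ_26_wN_1_rb80330813x4_1 g__wQ_26_wN_1_rb80330813x4_2

theorem g__wQ_26_wN_1_rb8033081302x3_1 : GoodKC AS k_wQ_26_wN_1_rb8033081302x3_1 := p_wQ_26_wN_1_rb8033081302x3_1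

theorem g__wQ_26_wN_1_rb8033081302x3_4 : GoodKC AS k_wQ_26_wN_1_rb8033081302x3_4 := p_wQ_26_wN_1_rb8033081302x3_4

theorem g__wQ_26_wN_1_rb8033081302x3_5 : GoodKC AS k_wQ_26_wN_1_rb8033081302x3_5 := p_wQ_26_wN_1_rb8033081302x3_5

theorem g__wQ_26_wN_1_rb8033081302x3_3 : GoodKC AS k_wQ_26_wN_1_rb8033081302x3_3 := p_wQ_26_wN_1_rb8033081302x3_3 g__wQ_26_wN_1_rb8033081302x3_4 g__wQ_26_wN_1_rb8033081302x3_5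

theorem g__wQ_26_wN_1_rb8033081302x3_2 : GoodKC AS k_wQ_26_wN_1_rb8033081302x3_2 := p_wQ_26_wN_1_rb8033081302x3_2 g__wQ_26_wN_1_rb8033081302x3_3

theorem g__wQ_26_wN_1_rb8033081302x3_0 : GoodKC AS k_wQ_26_wN_1_rb8033081302x3_0 := p_wQ_26_wN_1_rb8033081302x3_0 g__wQ_26_wN_1_rb8033081302x3_1 g__wQ_26_wN_1_rb8033081302x3_2

theorem g__wQ_26_wN_1_rb8033081302x3_6 : GoodKC AS k_wQ_26_wN_1_rb8033081302x3_6 := p_wQ_26_wN_1_rb8033081302x3_6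

theorem g__wQ_26_wN_1_rb8033081302x3_9 : GoodKC AS k_wQ_26_wN_1_rb8033081302x3_9 := p_wQ_26_wN_1_rb8033081302x3_9

theorem g__wQ_26_wN_1_rb8033081302x3_8 : GoodKC AS k_wQ_26_wN_1_rb8033081302x3_8 := p_wQ_26_wN_1_rb8033081302x3_8 g__wQ_26_wN_1_rb8033081302x3_9

theorem g__wQ_26_wN_1_rb8033081302x3_7 : GoodKC AS k_wQ_26_wN_1_rb8033081302x3_7 := p_wQ_26_wN_1_rb8033081302x3_7 g__wQ_26_wN_1_rb8033081302x3_8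

theorem g__wQ_26_wN_1_rb8033081302x3_11 : GoodKC AS k_wQ_26_wN_1_rb8033081302x3_11 := p_wQ_26_wN_1_rb8033081302x3_11

theorem g__wQ_26_wN_1_rb8033081302x3_13 : GoodKC AS k_wQ_26_wN_1_rb8033081302x3_13 := p_wQ_26_wN_1_rb8033081302x3_13

theorem g__wQ_26_wN_1_rb8033081302x3_14 : GoodKC AS k_wQ_26_wN_1_rb8033081302x3_14 := p_wQ_26_wN_1_rb8033081302x3_14

theorem g__wQ_26_wN_1_rb8033081302x3_19 : GoodKC AS k_wQ_26_wN_1_rb8033081302x3_19 := p_wQ_26_wN_1_rb8033081302x3_19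

theorem g__wQ_26_wN_1_rb8033081302x3_20 : GoodKC AS k_wQ_26_wN_1_rb8033081302x3_20 := p_wQ_26_wN_1_rb8033081302x3_20

theorem g__wQ_26_wN_1_rb8033081302x3_18 : GoodKC AS k_wQ_26_wN_1_rb8033081302x3_18 := p_wQ_26_wN_1_rb8033081302x3_18 g__wQ_26_wN_1_rb8033081302x3_19 g__wQ_26_wN_1_rb8033081302x3_20

theorem g__wQ_26_wN_1_rb8033081302x3_17 : GoodKC AS k_wQ_26_wN_1_rb8033081302x3_17 := p_wQ_26_wN_1_rb8033081302x3_17 g__wQ_26_wN_1_rb8033081302x3_18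

theorem g__wQ_26_wN_1_rb8033081302x3_16 : GoodKC AS k_wQ_26_wN_1_rb8033081302x3_16 := p_wQ_26_wN_1_rb8033081302x3_16 g__wQ_26_wN_1_rb8033081302x3_17

theorem g__wQ_26_wN_1_rb8033081302x3_21 : GoodKC AS k_wQ_26_wN_1_rb8033081302x3_21 := p_wQ_26_wN_1_rb8033081302x3_21

theorem g__wQ_26_wN_1_rb8033081302x3_15 : GoodKC AS k_wQ_26_wN_1_rb8033081302x3_15 := p_wQ_26_wN_1_rb8033081302x3_15 g__wQ_26_wN_1_rb8033081302x3_16 g__wQ_26_wN_1_rb8033081302x3_21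

theorem g__wQ_26_wN_1_rb8033081302x3_12 : GoodKC AS k_wQ_26_wN_1_rb8033081302x3_12 := p_wQ_26_wN_1_rb8033081302x3_12 g__wQ_26_wN_1_rb8033081302x3_13 g__wQ_26_wN_1_rb8033081302x3_14 g__wQ_26_wN_1_rb8033081302x3_15

theorem g__wQ_26_wN_1_rb8033081302x3_10 : GoodKC AS k_wQ_26_wN_1_rb8033081302x3_10 := p_wQ_26_wN_1_rb8033081302x3_10 g__wQ_26_wN_1_rb8033081302x3_11 g__wQ_26_wN_1_rb8033081302x3_12

theorem g__wQ_26_wN_1_rb8033081302x3_25 : GoodKC AS k_wQ_26_wN_1_rb8033081302x3_25 := p_wQ_26_wN_1_rb8033081302x3_25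

theorem g__wQ_26_wN_1_rb8033081302x3_24 : GoodKC AS k_wQ_26_wN_1_rb8033081302x3_24 := p_wQ_26_wN_1_rb8033081302x3_24 g__wQ_26_wN_1_rb8033081302x3_25

theorem g__wQ_26_wN_1_rb8033081302x3_23 : GoodKC AS k_wQ_26_wN_1_rb8033081302x3_23 := p_wQ_26_wN_1_rb8033081302x3_23 g__wQ_26_wN_1_rb8033081302x3_24

theorem g__wQ_26_wN_1_rb8033081302x3_22 : GoodKC AS k_wQ_26_wN_1_rb8033081302x3_22 := p_wQ_26_wN_1_rb8033081302x3_22 g__wQ_26_wN_1_rb8033081302x3_23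

theorem g_wQ_26_wN_1_rb8033081302x4 : GoodKC AS c_wQ_26_wN_1_rb8033081302x4 := p_wQ_26_wN_1_rb8033081302x3 g__wQ_26_wN_1_rb8033081302x3_0 g__wQ_26_wN_1_rb8033081302x3_6 g__wQ_26_wN_1_rb8033081302x3_7 g__wQ_26_wN_1_rb8033081302x3_10 g__wQ_26_wN_1_rb8033081302x3_22

theorem g__wQ_26_wN_1_rb80330813042ax2_2 : GoodKC AS k_wQ_26_wN_1_rb80330813042ax2_2 := p_wQ_26_wN_1_rb80330813042ax2_2

theorem g__wQ_26_wN_1_rb80330813042ax2_1 : GoodKC AS k_wQ_26_wN_1_rb80330813042ax2_1 := p_wQ_26_wN_1_rb80330813042ax2_1 g__wQ_26_wN_1_rb80330813042ax2_2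

theorem g__wQ_26_wN_1_rb80330813042ax2_4 : GoodKC AS k_wQ_26_wN_1_rb80330813042ax2_4 := p_wQ_26_wN_1_rb80330813042ax2_4

theorem g__wQ_26_wN_1_rb80330813042ax2_6 : GoodKC AS k_wQ_26_wN_1_rb80330813042ax2_6 := p_wQ_26_wN_1_rb80330813042ax2_6

theorem g__wQ_26_wN_1_rb80330813042ax2_7 : GoodKC AS k_wQ_26_wN_1_rb80330813042ax2_7 := p_wQ_26_wN_1_rb80330813042ax2_7

theorem g__wQ_26_wN_1_rb80330813042ax2_8 : GoodKC AS k_wQ_26_wN_1_rb80330813042ax2_8 := p_wQ_26_wN_1_rb80330813042ax2_8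

theorem g__wQ_26_wN_1_rb80330813042ax2_5 : GoodKC AS k_wQ_26_wN_1_rb80330813042ax2_5 := p_wQ_26_wN_1_rb80330813042ax2_5 g__wQ_26_wN_1_rb80330813042ax2_6 g__wQ_26_wN_1_rb80330813042ax2_7 g__wQ_26_wN_1_rb80330813042ax2_8

theorem g__wQ_26_wN_1_rb80330813042ax2_9 : GoodKC AS k_wQ_26_wN_1_rb80330813042ax2_9 := p_wQ_26_wN_1_rb80330813042ax2_9

theorem g__wQ_26_wN_1_rb80330813042ax2_18 : GoodKC AS k_wQ_26_wN_1_rb80330813042ax2_18 := p_wQ_26_wN_1_rb80330813042ax2_18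

theorem g__wQ_26_wN_1_rb80330813042ax2_17 : GoodKC AS k_wQ_26_wN_1_rb80330813042ax2_17 := p_wQ_26_wN_1_rb80330813042ax2_17 g__wQ_26_wN_1_rb80330813042ax2_18

theorem g__wQ_26_wN_1_rb80330813042ax2_16 : GoodKC AS k_wQ_26_wN_1_rb80330813042ax2_16 := p_wQ_26_wN_1_rb80330813042ax2_16 g__wQ_26_wN_1_rb80330813042ax2_17

theorem g__wQ_26_wN_1_rb80330813042ax2_15 : GoodKC AS k_wQ_26_wN_1_rb80330813042ax2_15 := p_wQ_26_wN_1_rb80330813042ax2_15 g__wQ_26_wN_1_rb80330813042ax2_16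

theorem g__wQ_26_wN_1_rb80330813042ax2_14 : GoodKC AS k_wQ_26_wN_1_rb80330813042ax2_14 := p_wQ_26_wN_1_rb80330813042ax2_14 g__wQ_26_wN_1_rb80330813042ax2_15

theorem g__wQ_26_wN_1_rb80330813042ax2_13 : GoodKC AS k_wQ_26_wN_1_rb80330813042ax2_13 := p_wQ_26_wN_1_rb80330813042ax2_13 g__wQ_26_wN_1_rb80330813042ax2_14

theorem g__wQ_26_wN_1_rb80330813042ax2_12 : GoodKC AS k_wQ_26_wN_1_rb80330813042ax2_12 := p_wQ_26_wN_1_rb80330813042ax2_12 g__wQ_26_wN_1_rb80330813042ax2_13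

theorem g__wQ_26_wN_1_rb80330813042ax2_23 : GoodKC AS k_wQ_26_wN_1_rb80330813042ax2_23 := p_wQ_26_wN_1_rb80330813042ax2_23

theorem g__wQ_26_wN_1_rb80330813042ax2_22 : GoodKC AS k_wQ_26_wN_1_rb80330813042ax2_22 := p_wQ_26_wN_1_rb80330813042ax2_22 g__wQ_26_wN_1_rb80330813042ax2_23

theorem g__wQ_26_wN_1_rb80330813042ax2_21 : GoodKC AS k_wQ_26_wN_1_rb80330813042ax2_21 := p_wQ_26_wN_1_rb80330813042ax2_21 g__wQ_26_wN_1_rb80330813042ax2_22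

theorem g__wQ_26_wN_1_rb80330813042ax2_25 : GoodKC AS k_wQ_26_wN_1_rb80330813042ax2_25 := p_wQ_26_wN_1_rb80330813042ax2_25

theorem g__wQ_26_wN_1_rb80330813042ax2_28 : GoodKC AS k_wQ_26_wN_1_rb80330813042ax2_28 := p_wQ_26_wN_1_rb80330813042ax2_28

theorem g__wQ_26_wN_1_rb80330813042ax2_27 : GoodKC AS k_wQ_26_wN_1_rb80330813042ax2_27 := p_wQ_26_wN_1_rb80330813042ax2_27 g__wQ_26_wN_1_rb80330813042ax2_28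

theorem g__wQ_26_wN_1_rb80330813042ax2_26 : GoodKC AS k_wQ_26_wN_1_rb80330813042ax2_26 := p_wQ_26_wN_1_rb80330813042ax2_26 g__wQ_26_wN_1_rb80330813042ax2_27

theorem g__wQ_26_wN_1_rb80330813042ax2_24 : GoodKC AS k_wQ_26_wN_1_rb80330813042ax2_24 := p_wQ_26_wN_1_rb80330813042ax2_24 g__wQ_26_wN_1_rb80330813042ax2_25 g__wQ_26_wN_1_rb80330813042ax2_26

theorem g__wQ_26_wN_1_rb80330813042ax2_20 : GoodKC AS k_wQ_26_wN_1_rb80330813042ax2_20 := p_wQ_26_wN_1_rb80330813042ax2_20 g__wQ_26_wN_1_rb80330813042ax2_21 g__wQ_26_wN_1_rb80330813042ax2_24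

theorem g__wQ_26_wN_1_rb80330813042ax2_29 : GoodKC AS k_wQ_26_wN_1_rb80330813042ax2_29 := p_wQ_26_wN_1_rb80330813042ax2_29

theorem g__wQ_26_wN_1_rb80330813042ax2_19 : GoodKC AS k_wQ_26_wN_1_rb80330813042ax2_19 := p_wQ_26_wN_1_rb80330813042ax2_19 g__wQ_26_wN_1_rb80330813042ax2_20 g__wQ_26_wN_1_rb80330813042ax2_29

theorem g__wQ_26_wN_1_rb80330813042ax2_11 : GoodKC AS k_wQ_26_wN_1_rb80330813042ax2_11 := p_wQ_26_wN_1_rb80330813042ax2_11 g__wQ_26_wN_1_rb80330813042ax2_12 g__wQ_26_wN_1_rb80330813042ax2_19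

theorem g__wQ_26_wN_1_rb80330813042ax2_33 : GoodKC AS k_wQ_26_wN_1_rb80330813042ax2_33 := p_wQ_26_wN_1_rb80330813042ax2_33

theorem g__wQ_26_wN_1_rb80330813042ax2_32 : GoodKC AS k_wQ_26_wN_1_rb80330813042ax2_32 := p_wQ_26_wN_1_rb80330813042ax2_32 g__wQ_26_wN_1_rb80330813042ax2_33

theorem g__wQ_26_wN_1_rb80330813042ax2_31 : GoodKC AS k_wQ_26_wN_1_rb80330813042ax2_31 := p_wQ_26_wN_1_rb80330813042ax2_31 g__wQ_26_wN_1_rb80330813042ax2_32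

theorem g__wQ_26_wN_1_rb80330813042ax2_30 : GoodKC AS k_wQ_26_wN_1_rb80330813042ax2_30 := p_wQ_26_wN_1_rb80330813042ax2_30 g__wQ_26_wN_1_rb80330813042ax2_31

theorem g__wQ_26_wN_1_rb80330813042ax2_10 : GoodKC AS k_wQ_26_wN_1_rb80330813042ax2_10 := p_wQ_26_wN_1_rb80330813042ax2_10 g__wQ_26_wN_1_rb80330813042ax2_11 g__wQ_26_wN_1_rb80330813042ax2_30

theorem g__wQ_26_wN_1_rb80330813042ax2_3 : GoodKC AS k_wQ_26_wN_1_rb80330813042ax2_3 := p_wQ_26_wN_1_rb80330813042ax2_3 g__wQ_26_wN_1_rb80330813042ax2_4 g__wQ_26_wN_1_rb80330813042ax2_5 g__wQ_26_wN_1_rb80330813042ax2_9 g__wQ_26_wN_1_rb80330813042ax2_10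

theorem g__wQ_26_wN_1_rb80330813042ax2_0 : GoodKC AS k_wQ_26_wN_1_rb80330813042ax2_0 := p_wQ_26_wN_1_rb80330813042ax2_0 g__wQ_26_wN_1_rb80330813042ax2_1 g__wQ_26_wN_1_rb80330813042ax2_3

theorem g_wQ_26_wN_1_rb80330813042ax2 : GoodKC AS c_wQ_26_wN_1_rb80330813042ax2 := p_wQ_26_wN_1_rb80330813042ax2 g__wQ_26_wN_1_rb80330813042ax2_0

theorem g_wQ_26_wN_1_rb803308130428x2 : GoodKC AS c_wQ_26_wN_1_rb803308130428x2 := p_wQ_26_wN_1_rb803308130428x2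

theorem g_wQ_26_wN_1_rb8033081304252b29x2 : GoodKC AS c_wQ_26_wN_1_rb8033081304252b29x2 := p_wQ_26_wN_1_rb8033081304252b29x2

theorem g_wQ_26_wN_1_rb8033081304252b28x2 : GoodKC AS c_wQ_26_wN_1_rb8033081304252b28x2 := p_wQ_26_wN_1_rb8033081304252b28x2

theorem g_wQ_26_wN_1_rb8033081304252b27x2 : GoodKC AS c_wQ_26_wN_1_rb8033081304252b27x2 := p_wQ_26_wN_1_rb8033081304252b27x2

theorem g_wQ_26_wN_1_rb8033081304252b26x2 : GoodKC AS c_wQ_26_wN_1_rb8033081304252b26x2 := p_wQ_26_wN_1_rb8033081304252b26x2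

theorem g_wQ_26_wN_1_rb8033081304252b25x2 : GoodKC AS c_wQ_26_wN_1_rb8033081304252b25x2 := p_wQ_26_wN_1_rb8033081304252b25x2

theorem g_wQ_26_wN_1_rb8033081304252b22x2 : GoodKC AS c_wQ_26_wN_1_rb8033081304252b22x2 := p_wQ_26_wN_1_rb8033081304252b22x2

theorem g__wQ_26_wN_1_rb8033081304252bx2_2 : GoodKC AS k_wQ_26_wN_1_rb8033081304252bx2_2 := p_wQ_26_wN_1_rb8033081304252bx2_2

theorem g__wQ_26_wN_1_rb8033081304252bx2_5 : GoodKC AS k_wQ_26_wN_1_rb8033081304252bx2_5 := p_wQ_26_wN_1_rb8033081304252bx2_5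

theorem g__wQ_26_wN_1_rb8033081304252bx2_4 : GoodKC AS k_wQ_26_wN_1_rb8033081304252bx2_4 := p_wQ_26_wN_1_rb8033081304252bx2_4 g__wQ_26_wN_1_rb8033081304252bx2_5

theorem g__wQ_26_wN_1_rb8033081304252bx2_3 : GoodKC AS k_wQ_26_wN_1_rb8033081304252bx2_3 := p_wQ_26_wN_1_rb8033081304252bx2_3 g__wQ_26_wN_1_rb8033081304252bx2_4

theorem g__wQ_26_wN_1_rb8033081304252bx2_1 : GoodKC AS k_wQ_26_wN_1_rb8033081304252bx2_1 := p_wQ_26_wN_1_rb8033081304252bx2_1 g__wQ_26_wN_1_rb8033081304252bx2_2 g__wQ_26_wN_1_rb8033081304252bx2_3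

theorem g__wQ_26_wN_1_rb8033081304252bx2_0 : GoodKC AS k_wQ_26_wN_1_rb8033081304252bx2_0 := p_wQ_26_wN_1_rb8033081304252bx2_0 g__wQ_26_wN_1_rb8033081304252bx2_1

theorem g__wQ_26_wN_1_rb8033081304252b20v2_4 : GoodKC AS k_wQ_26_wN_1_rb8033081304252b20v2_4 := p_wQ_26_wN_1_rb8033081304252b20v2_4

theorem g__wQ_26_wN_1_rb8033081304252b20v2_3 : GoodKC AS k_wQ_26_wN_1_rb8033081304252b20v2_3 := p_wQ_26_wN_1_rb8033081304252b20v2_3 g__wQ_26_wN_1_rb8033081304252b20v2_4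

theorem g__wQ_26_wN_1_rb8033081304252b20v2_2 : GoodKC AS k_wQ_26_wN_1_rb8033081304252b20v2_2 := p_wQ_26_wN_1_rb8033081304252b20v2_2 g__wQ_26_wN_1_rb8033081304252b20v2_3

theorem g__wQ_26_wN_1_rb8033081304252b20v2_6 : GoodKC AS k_wQ_26_wN_1_rb8033081304252b20v2_6 := p_wQ_26_wN_1_rb8033081304252b20v2_6

theorem g__wQ_26_wN_1_rb8033081304252b20v2_5 : GoodKC AS k_wQ_26_wN_1_rb8033081304252b20v2_5 := p_wQ_26_wN_1_rb8033081304252b20v2_5 g__wQ_26_wN_1_rb8033081304252b20v2_6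

theorem g__wQ_26_wN_1_rb8033081304252b20v2_1 : GoodKC AS k_wQ_26_wN_1_rb8033081304252b20v2_1 := p_wQ_26_wN_1_rb8033081304252b20v2_1 g__wQ_26_wN_1_rb8033081304252b20v2_2 g__wQ_26_wN_1_rb8033081304252b20v2_5

theorem g__wQ_26_wN_1_rb8033081304252b20v2_0 : GoodKC AS k_wQ_26_wN_1_rb8033081304252b20v2_0 := p_wQ_26_wN_1_rb8033081304252b20v2_0 g__wQ_26_wN_1_rb8033081304252b20v2_1

theorem g_wQ_26_wN_1_rb8033081304252b20x2 : GoodKC AS c_wQ_26_wN_1_rb8033081304252b20x2 := p_wQ_26_wN_1_rb8033081304252b20x2 g__wQ_26_wN_1_rb8033081304252b20v2_0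

theorem g_wQ_26_wN_1_rb8033081304252b1fx2 : GoodKC AS c_wQ_26_wN_1_rb8033081304252b1fx2 := p_wQ_26_wN_1_rb8033081304252b1fx2

theorem g_wQ_26_wN_1_rb8033081304252b1ex2 : GoodKC AS c_wQ_26_wN_1_rb8033081304252b1ex2 := p_wQ_26_wN_1_rb8033081304252b1ex2

theorem g_wQ_26_wN_1_rb8033081304252b1bx2 : GoodKC AS c_wQ_26_wN_1_rb8033081304252b1bx2 := p_wQ_26_wN_1_rb8033081304252b1bx2

theorem g_wQ_26_wN_1_rb8033081304252b19x2 : GoodKC AS c_wQ_26_wN_1_rb8033081304252b19x2 := p_wQ_26_wN_1_rb8033081304252b19x2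

theorem g_wQ_26_wN_1_rb8033081304252b17x2 : GoodKC AS c_wQ_26_wN_1_rb8033081304252b17x2 := p_wQ_26_wN_1_rb8033081304252b17x2

theorem g_wQ_26_wN_1_rb8033081304252b15x2 : GoodKC AS c_wQ_26_wN_1_rb8033081304252b15x2 := p_wQ_26_wN_1_rb8033081304252b15x2

theorem g_wQ_26_wN_1_rb8033081304252b14x2 : GoodKC AS c_wQ_26_wN_1_rb8033081304252b14x2 := p_wQ_26_wN_1_rb8033081304252b14x2

theorem g_wQ_26_wN_1_rb8033081304252b13x2 : GoodKC AS c_wQ_26_wN_1_rb8033081304252b13x2 := p_wQ_26_wN_1_rb8033081304252b13x2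

theorem g_wQ_26_wN_1_rb8033081304252b12x2 : GoodKC AS c_wQ_26_wN_1_rb8033081304252b12x2 := p_wQ_26_wN_1_rb8033081304252b12x2

theorem g_wQ_26_wN_1_rb8033081304252b11x2 : GoodKC AS c_wQ_26_wN_1_rb8033081304252b11x2 := p_wQ_26_wN_1_rb8033081304252b11x2

theorem g_wQ_26_wN_1_rb8033081304252b10x2 : GoodKC AS c_wQ_26_wN_1_rb8033081304252b10x2 := p_wQ_26_wN_1_rb8033081304252b10x2

theorem g_wQ_26_wN_1_rb8033081304252b0fx2 : GoodKC AS c_wQ_26_wN_1_rb8033081304252b0fx2 := p_wQ_26_wN_1_rb8033081304252b0fx2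

theorem g_wQ_26_wN_1_rb8033081304252b0ex2 : GoodKC AS c_wQ_26_wN_1_rb8033081304252b0ex2 := p_wQ_26_wN_1_rb8033081304252b0ex2

theorem g_wQ_26_wN_1_rb8033081304252b0dx2 : GoodKC AS c_wQ_26_wN_1_rb8033081304252b0dx2 := p_wQ_26_wN_1_rb8033081304252b0dx2

theorem g_wQ_26_wN_1_rb8033081304252b0cx2 : GoodKC AS c_wQ_26_wN_1_rb8033081304252b0cx2 := p_wQ_26_wN_1_rb8033081304252b0cx2

theorem g_wQ_26_wN_1_rb8033081304252b0bx2 : GoodKC AS c_wQ_26_wN_1_rb8033081304252b0bx2 := p_wQ_26_wN_1_rb8033081304252b0bx2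

theorem g_wQ_26_wN_1_rb8033081304252b0ax2 : GoodKC AS c_wQ_26_wN_1_rb8033081304252b0ax2 := p_wQ_26_wN_1_rb8033081304252b0ax2

theorem g_wQ_26_wN_1_rb8033081304252b07x2 : GoodKC AS c_wQ_26_wN_1_rb8033081304252b07x2 := p_wQ_26_wN_1_rb8033081304252b07x2

theorem g_wQ_26_wN_1_rb8033081304252b06x2 : GoodKC AS c_wQ_26_wN_1_rb8033081304252b06x2 := p_wQ_26_wN_1_rb8033081304252b06x2

theorem g_wQ_26_wN_1_rb8033081304252b05x2 : GoodKC AS c_wQ_26_wN_1_rb8033081304252b05x2 := p_wQ_26_wN_1_rb8033081304252b05x2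

theorem g__wQ_26_wN_1_rb8033081304252bx2_10 : GoodKC AS k_wQ_26_wN_1_rb8033081304252bx2_10 := p_wQ_26_wN_1_rb8033081304252bx2_10

theorem g__wQ_26_wN_1_rb8033081304252bx2_9 : GoodKC AS k_wQ_26_wN_1_rb8033081304252bx2_9 := p_wQ_26_wN_1_rb8033081304252bx2_9 g__wQ_26_wN_1_rb8033081304252bx2_10

theorem g__wQ_26_wN_1_rb8033081304252bx2_8 : GoodKC AS k_wQ_26_wN_1_rb8033081304252bx2_8 := p_wQ_26_wN_1_rb8033081304252bx2_8 g__wQ_26_wN_1_rb8033081304252bx2_9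

theorem g__wQ_26_wN_1_rb8033081304252bx2_15 : GoodKC AS k_wQ_26_wN_1_rb8033081304252bx2_15 := p_wQ_26_wN_1_rb8033081304252bx2_15

theorem g__wQ_26_wN_1_rb8033081304252bx2_14 : GoodKC AS k_wQ_26_wN_1_rb8033081304252bx2_14 := p_wQ_26_wN_1_rb8033081304252bx2_14 g__wQ_26_wN_1_rb8033081304252bx2_15

theorem g__wQ_26_wN_1_rb8033081304252b01x2_0 : GoodKC AS k_wQ_26_wN_1_rb8033081304252b01x2_0 := p_wQ_26_wN_1_rb8033081304252b01x2_0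

theorem g_wQ_26_wN_1_rb8033081304252b01x2 : GoodKC AS c_wQ_26_wN_1_rb8033081304252b01x2 := p_wQ_26_wN_1_rb8033081304252b01x2 g__wQ_26_wN_1_rb8033081304252b01x2_0

theorem g_wQ_26_wN_1_rb8033081304252b02x2 : GoodKC AS c_wQ_26_wN_1_rb8033081304252b02x2 := p_wQ_26_wN_1_rb8033081304252b02x2

theorem g__wQ_26_wN_1_rb8033081304252bx2_17 : GoodKC AS k_wQ_26_wN_1_rb8033081304252bx2_17 := p_wQ_26_wN_1_rb8033081304252bx2_17 g_wQ_26_wN_1_rb8033081304252b01x2 g_wQ_26_wN_1_rb8033081304252b02x2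

theorem g__wQ_26_wN_1_rb8033081304252bx2_20 : GoodKC AS k_wQ_26_wN_1_rb8033081304252bx2_20 := p_wQ_26_wN_1_rb8033081304252bx2_20

theorem g__wQ_26_wN_1_rb8033081304252bx2_19 : GoodKC AS k_wQ_26_wN_1_rb8033081304252bx2_19 := p_wQ_26_wN_1_rb8033081304252bx2_19 g__wQ_26_wN_1_rb8033081304252bx2_20

theorem g_wQ_26_wN_1_rb8033081304252b00x2 : GoodKC AS c_wQ_26_wN_1_rb8033081304252b00x2 := p_wQ_26_wN_1_rb8033081304252b00x2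

theorem g__wQ_26_wN_1_rb8033081304252bx2_21 : GoodKC AS k_wQ_26_wN_1_rb8033081304252bx2_21 := p_wQ_26_wN_1_rb8033081304252bx2_21 g_wQ_26_wN_1_rb8033081304252b00x2

theorem g__wQ_26_wN_1_rb8033081304252bx2_22 : GoodKC AS k_wQ_26_wN_1_rb8033081304252bx2_22 := p_wQ_26_wN_1_rb8033081304252bx2_22

theorem g__wQ_26_wN_1_rb8033081304252bx2_18 : GoodKC AS k_wQ_26_wN_1_rb8033081304252bx2_18 := p_wQ_26_wN_1_rb8033081304252bx2_18 g__wQ_26_wN_1_rb8033081304252bx2_19 g__wQ_26_wN_1_rb8033081304252bx2_21 g__wQ_26_wN_1_rb8033081304252bx2_22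

theorem g__wQ_26_wN_1_rb8033081304252bx2_16 : GoodKC AS k_wQ_26_wN_1_rb8033081304252bx2_16 := p_wQ_26_wN_1_rb8033081304252bx2_16 g__wQ_26_wN_1_rb8033081304252bx2_17 g__wQ_26_wN_1_rb8033081304252bx2_18

theorem g__wQ_26_wN_1_rb8033081304252bx2_13 : GoodKC AS k_wQ_26_wN_1_rb8033081304252bx2_13 := p_wQ_26_wN_1_rb8033081304252bx2_13 g__wQ_26_wN_1_rb8033081304252bx2_14 g__wQ_26_wN_1_rb8033081304252bx2_16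

theorem g__wQ_26_wN_1_rb8033081304252bx2_12 : GoodKC AS k_wQ_26_wN_1_rb8033081304252bx2_12 := p_wQ_26_wN_1_rb8033081304252bx2_12 g__wQ_26_wN_1_rb8033081304252bx2_13

theorem g__wQ_26_wN_1_rb8033081304252b03x2_0 : GoodKC AS k_wQ_26_wN_1_rb8033081304252b03x2_0 := p_wQ_26_wN_1_rb8033081304252b03x2_0

theorem g_wQ_26_wN_1_rb8033081304252b03x2 : GoodKC AS c_wQ_26_wN_1_rb8033081304252b03x2 := p_wQ_26_wN_1_rb8033081304252b03x2 g__wQ_26_wN_1_rb8033081304252b03x2_0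

theorem g__wQ_26_wN_1_rb8033081304252bx2_26 : GoodKC AS k_wQ_26_wN_1_rb8033081304252bx2_26 := p_wQ_26_wN_1_rb8033081304252bx2_26 g_wQ_26_wN_1_rb8033081304252b03x2

theorem g__wQ_26_wN_1_rb8033081304252bx2_25 : GoodKC AS k_wQ_26_wN_1_rb8033081304252bx2_25 := p_wQ_26_wN_1_rb8033081304252bx2_25 g__wQ_26_wN_1_rb8033081304252bx2_26

theorem g__wQ_26_wN_1_rb8033081304252bx2_24 : GoodKC AS k_wQ_26_wN_1_rb8033081304252bx2_24 := p_wQ_26_wN_1_rb8033081304252bx2_24 g__wQ_26_wN_1_rb8033081304252bx2_25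

theorem g__wQ_26_wN_1_rb8033081304252bx2_23 : GoodKC AS k_wQ_26_wN_1_rb8033081304252bx2_23 := p_wQ_26_wN_1_rb8033081304252bx2_23 g__wQ_26_wN_1_rb8033081304252bx2_24

theorem g__wQ_26_wN_1_rb8033081304252bx2_11 : GoodKC AS k_wQ_26_wN_1_rb8033081304252bx2_11 := p_wQ_26_wN_1_rb8033081304252bx2_11 g__wQ_26_wN_1_rb8033081304252bx2_12 g__wQ_26_wN_1_rb8033081304252bx2_23

theorem g__wQ_26_wN_1_rb8033081304252bx2_7 : GoodKC AS k_wQ_26_wN_1_rb8033081304252bx2_7 := p_wQ_26_wN_1_rb8033081304252bx2_7 g__wQ_26_wN_1_rb8033081304252bx2_8 g__wQ_26_wN_1_rb8033081304252bx2_11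

theorem g_wQ_26_wN_1_rb8033081304252b04x2 : GoodKC AS c_wQ_26_wN_1_rb8033081304252b04x2 := p_wQ_26_wN_1_rb8033081304252b04x2

theorem g_wQ_26_wN_1_rb8033081304252b08x2 : GoodKC AS c_wQ_26_wN_1_rb8033081304252b08x2 := p_wQ_26_wN_1_rb8033081304252b08x2

theorem g_wQ_26_wN_1_rb8033081304252b09x2 : GoodKC AS c_wQ_26_wN_1_rb8033081304252b09x2 := p_wQ_26_wN_1_rb8033081304252b09x2

theorem g_wQ_26_wN_1_rb8033081304252b16x2 : GoodKC AS c_wQ_26_wN_1_rb8033081304252b16x2 := p_wQ_26_wN_1_rb8033081304252b16x2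

theorem g_wQ_26_wN_1_rb8033081304252b18x2 : GoodKC AS c_wQ_26_wN_1_rb8033081304252b18x2 := p_wQ_26_wN_1_rb8033081304252b18x2

theorem g_wQ_26_wN_1_rb8033081304252b1ax2 : GoodKC AS c_wQ_26_wN_1_rb8033081304252b1ax2 := p_wQ_26_wN_1_rb8033081304252b1ax2

theorem g__wQ_26_wN_1_rb8033081304252b1cx2_0 : GoodKC AS k_wQ_26_wN_1_rb8033081304252b1cx2_0 := p_wQ_26_wN_1_rb8033081304252b1cx2_0

theorem g_wQ_26_wN_1_rb8033081304252b1cx2 : GoodKC AS c_wQ_26_wN_1_rb8033081304252b1cx2 := p_wQ_26_wN_1_rb8033081304252b1cx2 g__wQ_26_wN_1_rb8033081304252b1cx2_0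

theorem g__wQ_26_wN_1_rb8033081304252b1dx2_1 : GoodKC AS k_wQ_26_wN_1_rb8033081304252b1dx2_1 := p_wQ_26_wN_1_rb8033081304252b1dx2_1

theorem g__wQ_26_wN_1_rb8033081304252b1dx2_0 : GoodKC AS k_wQ_26_wN_1_rb8033081304252b1dx2_0 := p_wQ_26_wN_1_rb8033081304252b1dx2_0 g__wQ_26_wN_1_rb8033081304252b1dx2_1

theorem g_wQ_26_wN_1_rb8033081304252b1dx2 : GoodKC AS c_wQ_26_wN_1_rb8033081304252b1dx2 := p_wQ_26_wN_1_rb8033081304252b1dx2 g__wQ_26_wN_1_rb8033081304252b1dx2_0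

theorem g__wQ_26_wN_1_rb8033081304252bx2_6 : GoodKC AS k_wQ_26_wN_1_rb8033081304252bx2_6 := p_wQ_26_wN_1_rb8033081304252bx2_6 g_wQ_26_wN_1_rb8033081304252b20x2 g_wQ_26_wN_1_rb8033081304252b1fx2 g_wQ_26_wN_1_rb8033081304252b1ex2 g_wQ_26_wN_1_rb8033081304252b1bx2 g_wQ_26_wN_1_rb8033081304252b19x2 g_wQ_26_wN_1_rb8033081304252b17x2 g_wQ_26_wN_1_rb8033081304252b15x2 g_wQ_26_wN_1_rb8033081304252b14x2 g_wQ_26_wN_1_rb8033081304252b13x2 g_wQ_26_wN_1_rb8033081304252b12x2 g_wQ_26_wN_1_rb8033081304252b11x2 g_wQ_26_wN_1_rb8033081304252b10x2 g_wQ_26_wN_1_rb8033081304252b0fx2 g_wQ_26_wN_1_rb8033081304252b0ex2 g_wQ_26_wN_1_rb8033081304252b0dx2 g_wQ_26_wN_1_rb8033081304252b0cx2 g_wQ_26_wN_1_rb8033081304252b0bx2 g_wQ_26_wN_1_rb8033081304252b0ax2 g_wQ_26_wN_1_rb8033081304252b07x2 g_wQ_26_wN_1_rb8033081304252b06x2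 g_wQ_26_wN_1_rb8033081304252b05x2 g__wQ_26_wN_1_rb8033081304252bx2_7 g_wQ_26_wN_1_rb8033081304252b04x2 g_wQ_26_wN_1_rb8033081304252b08x2 g_wQ_26_wN_1_rb8033081304252b09x2 g_wQ_26_wN_1_rb8033081304252b16x2 g_wQ_26_wN_1_rb8033081304252b18x2 g_wQ_26_wN_1_rb8033081304252b1ax2 g_wQ_26_wN_1_rb8033081304252b1cx2 g_wQ_26_wN_1_rb8033081304252b1dx2

theorem g__wQ_26_wN_1_rb8033081304252b21x2_0 : GoodKC AS k_wQ_26_wN_1_rb8033081304252b21x2_0 := p_wQ_26_wN_1_rb8033081304252b21x2_0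

theorem g_wQ_26_wN_1_rb8033081304252b21x2 : GoodKC AS c_wQ_26_wN_1_rb8033081304252b21x2 := p_wQ_26_wN_1_rb8033081304252b21x2 g__wQ_26_wN_1_rb8033081304252b21x2_0

theorem g_wQ_26_wN_1_rb8033081304252b23x2 : GoodKC AS c_wQ_26_wN_1_rb8033081304252b23x2 := p_wQ_26_wN_1_rb8033081304252b23x2

theorem g_wQ_26_wN_1_rb8033081304252b24x2 : GoodKC AS c_wQ_26_wN_1_rb8033081304252b24x2 := p_wQ_26_wN_1_rb8033081304252b24x2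

theorem g_wQ_26_wN_1_rb8033081304252b2ax2 : GoodKC AS c_wQ_26_wN_1_rb8033081304252b2ax2 := p_wQ_26_wN_1_rb8033081304252b2ax2

theorem g_wQ_26_wN_1_rb8033081304252b2bx2 : GoodKC AS c_wQ_26_wN_1_rb8033081304252b2bx2 := p_wQ_26_wN_1_rb8033081304252b2bx2

theorem g_wQ_26_wN_1_rb8033081304252b2cx2 : GoodKC AS c_wQ_26_wN_1_rb8033081304252b2cx2 := p_wQ_26_wN_1_rb8033081304252b2cx2

theorem g_wQ_26_wN_1_rb8033081304252b2dx2 : GoodKC AS c_wQ_26_wN_1_rb8033081304252b2dx2 := p_wQ_26_wN_1_rb8033081304252b2dx2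

theorem g_wQ_26_wN_1_rb8033081304252bx2 : GoodKC AS c_wQ_26_wN_1_rb8033081304252bx2 := p_wQ_26_wN_1_rb8033081304252bx2 g_wQ_26_wN_1_rb8033081304252b29x2 g_wQ_26_wN_1_rb8033081304252b28x2 g_wQ_26_wN_1_rb8033081304252b27x2 g_wQ_26_wN_1_rb8033081304252b26x2 g_wQ_26_wN_1_rb8033081304252b25x2 g_wQ_26_wN_1_rb8033081304252b22x2 g__wQ_26_wN_1_rb8033081304252bx2_0 g__wQ_26_wN_1_rb8033081304252bx2_6 g_wQ_26_wN_1_rb8033081304252b21x2 g_wQ_26_wN_1_rb8033081304252b23x2 g_wQ_26_wN_1_rb8033081304252b24x2 g_wQ_26_wN_1_rb8033081304252b2ax2 g_wQ_26_wN_1_rb8033081304252b2bx2 g_wQ_26_wN_1_rb8033081304252b2cx2 g_wQ_26_wN_1_rb8033081304252b2dx2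

theorem g_wQ_26_wN_1_rb8033081304252ax2 : GoodKC AS c_wQ_26_wN_1_rb8033081304252ax2 := p_wQ_26_wN_1_rb8033081304252ax2

theorem g__wQ_26_wN_1_rb80330813042529x2_2 : GoodKC AS k_wQ_26_wN_1_rb80330813042529x2_2 := p_wQ_26_wN_1_rb80330813042529x2_2

theorem g__wQ_26_wN_1_rb80330813042529x2_1 : GoodKC AS k_wQ_26_wN_1_rb80330813042529x2_1 := p_wQ_26_wN_1_rb80330813042529x2_1 g__wQ_26_wN_1_rb80330813042529x2_2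

theorem g__wQ_26_wN_1_rb80330813042529x2_0 : GoodKC AS k_wQ_26_wN_1_rb80330813042529x2_0 := p_wQ_26_wN_1_rb80330813042529x2_0 g__wQ_26_wN_1_rb80330813042529x2_1

theorem g_wQ_26_wN_1_rb80330813042529x2 : GoodKC AS c_wQ_26_wN_1_rb80330813042529x2 := p_wQ_26_wN_1_rb80330813042529x2 g__wQ_26_wN_1_rb80330813042529x2_0

theorem g_wQ_26_wN_1_rb80330813042528x2 : GoodKC AS c_wQ_26_wN_1_rb80330813042528x2 := p_wQ_26_wN_1_rb80330813042528x2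

theorem g_wQ_26_wN_1_rb80330813042523x2 : GoodKC AS c_wQ_26_wN_1_rb80330813042523x2 := p_wQ_26_wN_1_rb80330813042523x2

theorem g_wQ_26_wN_1_rb80330813042522x2 : GoodKC AS c_wQ_26_wN_1_rb80330813042522x2 := p_wQ_26_wN_1_rb80330813042522x2

theorem g__wQ_26_wN_1_rb8033081304251fx2_1 : GoodKC AS k_wQ_26_wN_1_rb8033081304251fx2_1 := p_wQ_26_wN_1_rb8033081304251fx2_1

theorem g__wQ_26_wN_1_rb8033081304251fx2_0 : GoodKC AS k_wQ_26_wN_1_rb8033081304251fx2_0 := p_wQ_26_wN_1_rb8033081304251fx2_0 g__wQ_26_wN_1_rb8033081304251fx2_1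

theorem g_wQ_26_wN_1_rb8033081304251fx2 : GoodKC AS c_wQ_26_wN_1_rb8033081304251fx2 := p_wQ_26_wN_1_rb8033081304251fx2 g__wQ_26_wN_1_rb8033081304251fx2_0

theorem g_wQ_26_wN_1_rb8033081304251ex2 : GoodKC AS c_wQ_26_wN_1_rb8033081304251ex2 := p_wQ_26_wN_1_rb8033081304251ex2

theorem g_wQ_26_wN_1_rb8033081304251cx2 : GoodKC AS c_wQ_26_wN_1_rb8033081304251cx2 := p_wQ_26_wN_1_rb8033081304251cx2

theorem g_wQ_26_wN_1_rb80330813042514x2 : GoodKC AS c_wQ_26_wN_1_rb80330813042514x2 := p_wQ_26_wN_1_rb80330813042514x2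

theorem g_wQ_26_wN_1_rb80330813042513x2 : GoodKC AS c_wQ_26_wN_1_rb80330813042513x2 := p_wQ_26_wN_1_rb80330813042513x2

theorem g_wQ_26_wN_1_rb80330813042512x2 : GoodKC AS c_wQ_26_wN_1_rb80330813042512x2 := p_wQ_26_wN_1_rb80330813042512x2

theorem g_wQ_26_wN_1_rb80330813042510x2 : GoodKC AS c_wQ_26_wN_1_rb80330813042510x2 := p_wQ_26_wN_1_rb80330813042510x2

theorem g_wQ_26_wN_1_rb8033081304250ex2 : GoodKC AS c_wQ_26_wN_1_rb8033081304250ex2 := p_wQ_26_wN_1_rb8033081304250ex2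

theorem g_wQ_26_wN_1_rb8033081304250cx2 : GoodKC AS c_wQ_26_wN_1_rb8033081304250cx2 := p_wQ_26_wN_1_rb8033081304250cx2

theorem g_wQ_26_wN_1_rb8033081304250ax2 : GoodKC AS c_wQ_26_wN_1_rb8033081304250ax2 := p_wQ_26_wN_1_rb8033081304250ax2

theorem g_wQ_26_wN_1_rb80330813042509x2 : GoodKC AS c_wQ_26_wN_1_rb80330813042509x2 := p_wQ_26_wN_1_rb80330813042509x2

theorem g_wQ_26_wN_1_rb80330813042508x2 : GoodKC AS c_wQ_26_wN_1_rb80330813042508x2 := p_wQ_26_wN_1_rb80330813042508x2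

theorem g_wQ_26_wN_1_rb80330813042507x2 : GoodKC AS c_wQ_26_wN_1_rb80330813042507x2 := p_wQ_26_wN_1_rb80330813042507x2

theorem g_wQ_26_wN_1_rb80330813042506x2 : GoodKC AS c_wQ_26_wN_1_rb80330813042506x2 := p_wQ_26_wN_1_rb80330813042506x2

theorem g_wQ_26_wN_1_rb80330813042504x2 : GoodKC AS c_wQ_26_wN_1_rb80330813042504x2 := p_wQ_26_wN_1_rb80330813042504x2

theorem g_wQ_26_wN_1_rb80330813042502x2 : GoodKC AS c_wQ_26_wN_1_rb80330813042502x2 := p_wQ_26_wN_1_rb80330813042502x2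

theorem g_wQ_26_wN_1_rb80330813042503x2 : GoodKC AS c_wQ_26_wN_1_rb80330813042503x2 := p_wQ_26_wN_1_rb80330813042503x2

theorem g__wQ_26_wN_1_rb80330813042505x2_0 : GoodKC AS k_wQ_26_wN_1_rb80330813042505x2_0 := p_wQ_26_wN_1_rb80330813042505x2_0

theorem g__wQ_26_wN_1_rb80330813042505x2_1 : GoodKC AS k_wQ_26_wN_1_rb80330813042505x2_1 := p_wQ_26_wN_1_rb80330813042505x2_1

theorem g_wQ_26_wN_1_rb80330813042505x2 : GoodKC AS c_wQ_26_wN_1_rb80330813042505x2 := p_wQ_26_wN_1_rb80330813042505x2 g__wQ_26_wN_1_rb80330813042505x2_0 g__wQ_26_wN_1_rb80330813042505x2_1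

theorem g_wQ_26_wN_1_rb8033081304250bx2 : GoodKC AS c_wQ_26_wN_1_rb8033081304250bx2 := p_wQ_26_wN_1_rb8033081304250bx2

theorem g_wQ_26_wN_1_rb8033081304250dx2 : GoodKC AS c_wQ_26_wN_1_rb8033081304250dx2 := p_wQ_26_wN_1_rb8033081304250dx2

theorem g__wQ_26_wN_1_rb803308130425x2_0 : GoodKC AS k_wQ_26_wN_1_rb803308130425x2_0 := p_wQ_26_wN_1_rb803308130425x2_0

theorem g__wQ_26_wN_1_rb803308130425x2_1 : GoodKC AS k_wQ_26_wN_1_rb803308130425x2_1 := p_wQ_26_wN_1_rb803308130425x2_1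

theorem g__wQ_26_wN_1_rb803308130425x2_4 : GoodKC AS k_wQ_26_wN_1_rb803308130425x2_4 := p_wQ_26_wN_1_rb803308130425x2_4

theorem g__wQ_26_wN_1_rb803308130425x2_5 : GoodKC AS k_wQ_26_wN_1_rb803308130425x2_5 := p_wQ_26_wN_1_rb803308130425x2_5

theorem g__wQ_26_wN_1_rb803308130425x2_3 : GoodKC AS k_wQ_26_wN_1_rb803308130425x2_3 := p_wQ_26_wN_1_rb803308130425x2_3 g__wQ_26_wN_1_rb803308130425x2_4 g__wQ_26_wN_1_rb803308130425x2_5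

theorem g__wQ_26_wN_1_rb803308130425x2_9 : GoodKC AS k_wQ_26_wN_1_rb803308130425x2_9 := p_wQ_26_wN_1_rb803308130425x2_9

theorem g__wQ_26_wN_1_rb803308130425x2_8 : GoodKC AS k_wQ_26_wN_1_rb803308130425x2_8 := p_wQ_26_wN_1_rb803308130425x2_8 g__wQ_26_wN_1_rb803308130425x2_9

theorem g__wQ_26_wN_1_rb803308130425x2_12 : GoodKC AS k_wQ_26_wN_1_rb803308130425x2_12 := p_wQ_26_wN_1_rb803308130425x2_12

theorem g__wQ_26_wN_1_rb803308130425x2_13 : GoodKC AS k_wQ_26_wN_1_rb803308130425x2_13 := p_wQ_26_wN_1_rb803308130425x2_13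

theorem g__wQ_26_wN_1_rb803308130425x2_11 : GoodKC AS k_wQ_26_wN_1_rb803308130425x2_11 := p_wQ_26_wN_1_rb803308130425x2_11 g__wQ_26_wN_1_rb803308130425x2_12 g__wQ_26_wN_1_rb803308130425x2_13

theorem g__wQ_26_wN_1_rb803308130425x2_10 : GoodKC AS k_wQ_26_wN_1_rb803308130425x2_10 := p_wQ_26_wN_1_rb803308130425x2_10 g__wQ_26_wN_1_rb803308130425x2_11

theorem g__wQ_26_wN_1_rb803308130425x2_7 : GoodKC AS k_wQ_26_wN_1_rb803308130425x2_7 := p_wQ_26_wN_1_rb803308130425x2_7 g__wQ_26_wN_1_rb803308130425x2_8 g__wQ_26_wN_1_rb803308130425x2_10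

theorem g__wQ_26_wN_1_rb80330813042500v2_2 : GoodKC AS k_wQ_26_wN_1_rb80330813042500v2_2 := p_wQ_26_wN_1_rb80330813042500v2_2

theorem g__wQ_26_wN_1_rb80330813042500v2_1 : GoodKC AS k_wQ_26_wN_1_rb80330813042500v2_1 := p_wQ_26_wN_1_rb80330813042500v2_1 g__wQ_26_wN_1_rb80330813042500v2_2

theorem g__wQ_26_wN_1_rb80330813042500v2_0 : GoodKC AS k_wQ_26_wN_1_rb80330813042500v2_0 := p_wQ_26_wN_1_rb80330813042500v2_0 g__wQ_26_wN_1_rb80330813042500v2_1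

theorem g__wQ_26_wN_1_rb80330813042500v2_3 : GoodKC AS k_wQ_26_wN_1_rb80330813042500v2_3 := p_wQ_26_wN_1_rb80330813042500v2_3

theorem g_wQ_26_wN_1_rb80330813042500x2 : GoodKC AS c_wQ_26_wN_1_rb80330813042500x2 := p_wQ_26_wN_1_rb80330813042500x2 g__wQ_26_wN_1_rb80330813042500v2_0 g__wQ_26_wN_1_rb80330813042500v2_3

theorem g__wQ_26_wN_1_rb80330813042501x2_1 : GoodKC AS k_wQ_26_wN_1_rb80330813042501x2_1 := p_wQ_26_wN_1_rb80330813042501x2_1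

theorem g__wQ_26_wN_1_rb80330813042501x2_0 : GoodKC AS k_wQ_26_wN_1_rb80330813042501x2_0 := p_wQ_26_wN_1_rb80330813042501x2_0 g__wQ_26_wN_1_rb80330813042501x2_1

theorem g__wQ_26_wN_1_rb80330813042501x2_3 : GoodKC AS k_wQ_26_wN_1_rb80330813042501x2_3 := p_wQ_26_wN_1_rb80330813042501x2_3

theorem g__wQ_26_wN_1_rb80330813042501x2_2 : GoodKC AS k_wQ_26_wN_1_rb80330813042501x2_2 := p_wQ_26_wN_1_rb80330813042501x2_2 g__wQ_26_wN_1_rb80330813042501x2_3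

theorem g_wQ_26_wN_1_rb80330813042501x2 : GoodKC AS c_wQ_26_wN_1_rb80330813042501x2 := p_wQ_26_wN_1_rb80330813042501x2 g__wQ_26_wN_1_rb80330813042501x2_0 g__wQ_26_wN_1_rb80330813042501x2_2

theorem g__wQ_26_wN_1_rb803308130425x2_20 : GoodKC AS k_wQ_26_wN_1_rb803308130425x2_20 := p_wQ_26_wN_1_rb803308130425x2_20

theorem g__wQ_26_wN_1_rb803308130425x2_22 : GoodKC AS k_wQ_26_wN_1_rb803308130425x2_22 := p_wQ_26_wN_1_rb803308130425x2_22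

theorem g__wQ_26_wN_1_rb803308130425x2_21 : GoodKC AS k_wQ_26_wN_1_rb803308130425x2_21 := p_wQ_26_wN_1_rb803308130425x2_21 g__wQ_26_wN_1_rb803308130425x2_22

theorem g__wQ_26_wN_1_rb803308130425x2_19 : GoodKC AS k_wQ_26_wN_1_rb803308130425x2_19 := p_wQ_26_wN_1_rb803308130425x2_19 g__wQ_26_wN_1_rb803308130425x2_20 g__wQ_26_wN_1_rb803308130425x2_21

theorem g__wQ_26_wN_1_rb803308130425x2_18 : GoodKC AS k_wQ_26_wN_1_rb803308130425x2_18 := p_wQ_26_wN_1_rb803308130425x2_18 g__wQ_26_wN_1_rb803308130425x2_19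

theorem g__wQ_26_wN_1_rb803308130425x2_17 : GoodKC AS k_wQ_26_wN_1_rb803308130425x2_17 := p_wQ_26_wN_1_rb803308130425x2_17 g__wQ_26_wN_1_rb803308130425x2_18

theorem g__wQ_26_wN_1_rb803308130425x2_16 : GoodKC AS k_wQ_26_wN_1_rb803308130425x2_16 := p_wQ_26_wN_1_rb803308130425x2_16 g__wQ_26_wN_1_rb803308130425x2_17

theorem g__wQ_26_wN_1_rb803308130425x2_15 : GoodKC AS k_wQ_26_wN_1_rb803308130425x2_15 := p_wQ_26_wN_1_rb803308130425x2_15 g_wQ_26_wN_1_rb80330813042500x2 g_wQ_26_wN_1_rb80330813042501x2 g__wQ_26_wN_1_rb803308130425x2_16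

theorem g__wQ_26_wN_1_rb803308130425x2_14 : GoodKC AS k_wQ_26_wN_1_rb803308130425x2_14 := p_wQ_26_wN_1_rb803308130425x2_14 g__wQ_26_wN_1_rb803308130425x2_15

theorem g__wQ_26_wN_1_rb803308130425x2_6 : GoodKC AS k_wQ_26_wN_1_rb803308130425x2_6 := p_wQ_26_wN_1_rb803308130425x2_6 g__wQ_26_wN_1_rb803308130425x2_7 g__wQ_26_wN_1_rb803308130425x2_14

theorem g__wQ_26_wN_1_rb803308130425x2_2 : GoodKC AS k_wQ_26_wN_1_rb803308130425x2_2 := p_wQ_26_wN_1_rb803308130425x2_2 g__wQ_26_wN_1_rb803308130425x2_3 g__wQ_26_wN_1_rb803308130425x2_6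

theorem g__wQ_26_wN_1_rb8033081304250fx2_0 : GoodKC AS k_wQ_26_wN_1_rb8033081304250fx2_0 := p_wQ_26_wN_1_rb8033081304250fx2_0

theorem g_wQ_26_wN_1_rb8033081304250fx2 : GoodKC AS c_wQ_26_wN_1_rb8033081304250fx2 := p_wQ_26_wN_1_rb8033081304250fx2 g__wQ_26_wN_1_rb8033081304250fx2_0

theorem g_wQ_26_wN_1_rb80330813042511x2 : GoodKC AS c_wQ_26_wN_1_rb80330813042511x2 := p_wQ_26_wN_1_rb80330813042511x2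

theorem g_wQ_26_wN_1_rb80330813042515x2 : GoodKC AS c_wQ_26_wN_1_rb80330813042515x2 := p_wQ_26_wN_1_rb80330813042515x2

theorem g__wQ_26_wN_1_rb80330813042516x2_0 : GoodKC AS k_wQ_26_wN_1_rb80330813042516x2_0 := p_wQ_26_wN_1_rb80330813042516x2_0

theorem g_wQ_26_wN_1_rb80330813042516x2 : GoodKC AS c_wQ_26_wN_1_rb80330813042516x2 := p_wQ_26_wN_1_rb80330813042516x2 g__wQ_26_wN_1_rb80330813042516x2_0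

theorem g_wQ_26_wN_1_rb80330813042517x2 : GoodKC AS c_wQ_26_wN_1_rb80330813042517x2 := p_wQ_26_wN_1_rb80330813042517x2

theorem g_wQ_26_wN_1_rb80330813042518x2 : GoodKC AS c_wQ_26_wN_1_rb80330813042518x2 := p_wQ_26_wN_1_rb80330813042518x2

theorem g__wQ_26_wN_1_rb80330813042519x2_0 : GoodKC AS k_wQ_26_wN_1_rb80330813042519x2_0 := p_wQ_26_wN_1_rb80330813042519x2_0

theorem g__wQ_26_wN_1_rb80330813042519x2_1 : GoodKC AS k_wQ_26_wN_1_rb80330813042519x2_1 := p_wQ_26_wN_1_rb80330813042519x2_1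

theorem g__wQ_26_wN_1_rb80330813042519x2_3 : GoodKC AS k_wQ_26_wN_1_rb80330813042519x2_3 := p_wQ_26_wN_1_rb80330813042519x2_3

theorem g__wQ_26_wN_1_rb80330813042519x2_2 : GoodKC AS k_wQ_26_wN_1_rb80330813042519x2_2 := p_wQ_26_wN_1_rb80330813042519x2_2 g__wQ_26_wN_1_rb80330813042519x2_3

theorem g_wQ_26_wN_1_rb80330813042519x2 : GoodKC AS c_wQ_26_wN_1_rb80330813042519x2 := p_wQ_26_wN_1_rb80330813042519x2 g__wQ_26_wN_1_rb80330813042519x2_0 g__wQ_26_wN_1_rb80330813042519x2_1 g__wQ_26_wN_1_rb80330813042519x2_2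

theorem g__wQ_26_wN_1_rb8033081304251ax2_0 : GoodKC AS k_wQ_26_wN_1_rb8033081304251ax2_0 := p_wQ_26_wN_1_rb8033081304251ax2_0

theorem g_wQ_26_wN_1_rb8033081304251ax2 : GoodKC AS c_wQ_26_wN_1_rb8033081304251ax2 := p_wQ_26_wN_1_rb8033081304251ax2 g__wQ_26_wN_1_rb8033081304251ax2_0

theorem g_wQ_26_wN_1_rb8033081304251bx2 : GoodKC AS c_wQ_26_wN_1_rb8033081304251bx2 := p_wQ_26_wN_1_rb8033081304251bx2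

theorem g_wQ_26_wN_1_rb8033081304251dx2 : GoodKC AS c_wQ_26_wN_1_rb8033081304251dx2 := p_wQ_26_wN_1_rb8033081304251dx2

theorem g_wQ_26_wN_1_rb80330813042520x2 : GoodKC AS c_wQ_26_wN_1_rb80330813042520x2 := p_wQ_26_wN_1_rb80330813042520x2

theorem g_wQ_26_wN_1_rb80330813042521x2 : GoodKC AS c_wQ_26_wN_1_rb80330813042521x2 := p_wQ_26_wN_1_rb80330813042521x2

theorem g_wQ_26_wN_1_rb80330813042524x2 : GoodKC AS c_wQ_26_wN_1_rb80330813042524x2 := p_wQ_26_wN_1_rb80330813042524x2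

theorem g_wQ_26_wN_1_rb80330813042525x2 : GoodKC AS c_wQ_26_wN_1_rb80330813042525x2 := p_wQ_26_wN_1_rb80330813042525x2

theorem g_wQ_26_wN_1_rb80330813042526x2 : GoodKC AS c_wQ_26_wN_1_rb80330813042526x2 := p_wQ_26_wN_1_rb80330813042526x2

theorem g_wQ_26_wN_1_rb80330813042527x2 : GoodKC AS c_wQ_26_wN_1_rb80330813042527x2 := p_wQ_26_wN_1_rb80330813042527x2

theorem g_wQ_26_wN_1_rb803308130425x2 : GoodKC AS c_wQ_26_wN_1_rb803308130425x2 := p_wQ_26_wN_1_rb803308130425x2 g_wQ_26_wN_1_rb8033081304252bx2 g_wQ_26_wN_1_rb8033081304252ax2 g_wQ_26_wN_1_rb80330813042529x2 g_wQ_26_wN_1_rb80330813042528x2 g_wQ_26_wN_1_rb80330813042523x2 g_wQ_26_wN_1_rb80330813042522x2 g_wQ_26_wN_1_rb8033081304251fx2 g_wQ_26_wN_1_rb8033081304251ex2 g_wQ_26_wN_1_rb8033081304251cx2 g_wQ_26_wN_1_rb80330813042514x2 g_wQ_26_wN_1_rb80330813042513x2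 g_wQ_26_wN_1_rb80330813042512x2 g_wQ_26_wN_1_rb80330813042510x2 g_wQ_26_wN_1_rb8033081304250ex2 g_wQ_26_wN_1_rb8033081304250cx2 g_wQ_26_wN_1_rb8033081304250ax2 g_wQ_26_wN_1_rb80330813042509x2 g_wQ_26_wN_1_rb80330813042508x2 g_wQ_26_wN_1_rb80330813042507x2 g_wQ_26_wN_1_rb80330813042506x2 g_wQ_26_wN_1_rb80330813042504x2 g_wQ_26_wN_1_rb80330813042502x2 g_wQ_26_wN_1_rb80330813042503x2 g_wQ_26_wN_1_rb80330813042505x2 g_wQ_26_wN_1_rb8033081304250bx2 g_wQ_26_wN_1_rb8033081304250dx2 g__wQ_26_wN_1_rb803308130425x2_0 g__wQ_26_wN_1_rb803308130425x2_1 g__wQ_26_wN_1_rb803308130425x2_2 g_wQ_26_wN_1_rb8033081304250fx2 g_wQ_26_wN_1_rb80330813042511x2 g_wQ_26_wN_1_rb80330813042515x2 g_wQ_26_wN_1_rb80330813042516x2 g_wQ_26_wN_1_rb80330813042517x2 g_wQ_26_wN_1_rb80330813042518x2 g_wQ_26_wN_1_rb80330813042519x2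 g_wQ_26_wN_1_rb8033081304251ax2 g_wQ_26_wN_1_rb8033081304251bx2 g_wQ_26_wN_1_rb8033081304251dx2 g_wQ_26_wN_1_rb80330813042520x2 g_wQ_26_wN_1_rb80330813042521x2 g_wQ_26_wN_1_rb80330813042524x2 g_wQ_26_wN_1_rb80330813042525x2 g_wQ_26_wN_1_rb80330813042526x2 g_wQ_26_wN_1_rb80330813042527x2

theorem g_wQ_26_wN_1_rb803308130424x2 : GoodKC AS c_wQ_26_wN_1_rb803308130424x2 := p_wQ_26_wN_1_rb803308130424x2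

theorem g__wQ_26_wN_1_rb803308130422x2_1 : GoodKC AS k_wQ_26_wN_1_rb803308130422x2_1 := p_wQ_26_wN_1_rb803308130422x2_1

theorem g__wQ_26_wN_1_rb803308130422x2_0 : GoodKC AS k_wQ_26_wN_1_rb803308130422x2_0 := p_wQ_26_wN_1_rb803308130422x2_0 g__wQ_26_wN_1_rb803308130422x2_1

theorem g__wQ_26_wN_1_rb803308130422x2_7 : GoodKC AS k_wQ_26_wN_1_rb803308130422x2_7 := p_wQ_26_wN_1_rb803308130422x2_7

theorem g__wQ_26_wN_1_rb803308130422x2_6 : GoodKC AS k_wQ_26_wN_1_rb803308130422x2_6 := p_wQ_26_wN_1_rb803308130422x2_6 g__wQ_26_wN_1_rb803308130422x2_7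

theorem g__wQ_26_wN_1_rb803308130422x2_5 : GoodKC AS k_wQ_26_wN_1_rb803308130422x2_5 := p_wQ_26_wN_1_rb803308130422x2_5 g__wQ_26_wN_1_rb803308130422x2_6

theorem g__wQ_26_wN_1_rb803308130422x2_4 : GoodKC AS k_wQ_26_wN_1_rb803308130422x2_4 := p_wQ_26_wN_1_rb803308130422x2_4 g__wQ_26_wN_1_rb803308130422x2_5

theorem g__wQ_26_wN_1_rb803308130422x2_3 : GoodKC AS k_wQ_26_wN_1_rb803308130422x2_3 := p_wQ_26_wN_1_rb803308130422x2_3 g__wQ_26_wN_1_rb803308130422x2_4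

theorem g__wQ_26_wN_1_rb803308130422x2_9 : GoodKC AS k_wQ_26_wN_1_rb803308130422x2_9 := p_wQ_26_wN_1_rb803308130422x2_9

theorem g__wQ_26_wN_1_rb803308130422x2_8 : GoodKC AS k_wQ_26_wN_1_rb803308130422x2_8 := p_wQ_26_wN_1_rb803308130422x2_8 g__wQ_26_wN_1_rb803308130422x2_9

theorem g__wQ_26_wN_1_rb803308130422x2_10 : GoodKC AS k_wQ_26_wN_1_rb803308130422x2_10 := p_wQ_26_wN_1_rb803308130422x2_10

theorem g__wQ_26_wN_1_rb803308130422x2_2 : GoodKC AS k_wQ_26_wN_1_rb803308130422x2_2 := p_wQ_26_wN_1_rb803308130422x2_2 g__wQ_26_wN_1_rb803308130422x2_3 g__wQ_26_wN_1_rb803308130422x2_8 g__wQ_26_wN_1_rb803308130422x2_10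

theorem g__wQ_26_wN_1_rb803308130422x2_12 : GoodKC AS k_wQ_26_wN_1_rb803308130422x2_12 := p_wQ_26_wN_1_rb803308130422x2_12

theorem g__wQ_26_wN_1_rb803308130422x2_18 : GoodKC AS k_wQ_26_wN_1_rb803308130422x2_18 := p_wQ_26_wN_1_rb803308130422x2_18

theorem g__wQ_26_wN_1_rb803308130422x2_19 : GoodKC AS k_wQ_26_wN_1_rb803308130422x2_19 := p_wQ_26_wN_1_rb803308130422x2_19

theorem g__wQ_26_wN_1_rb803308130422x2_17 : GoodKC AS k_wQ_26_wN_1_rb803308130422x2_17 := p_wQ_26_wN_1_rb803308130422x2_17 g__wQ_26_wN_1_rb803308130422x2_18 g__wQ_26_wN_1_rb803308130422x2_19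

theorem g__wQ_26_wN_1_rb803308130422x2_16 : GoodKC AS k_wQ_26_wN_1_rb803308130422x2_16 := p_wQ_26_wN_1_rb803308130422x2_16 g__wQ_26_wN_1_rb803308130422x2_17

theorem g__wQ_26_wN_1_rb803308130422x2_15 : GoodKC AS k_wQ_26_wN_1_rb803308130422x2_15 := p_wQ_26_wN_1_rb803308130422x2_15 g__wQ_26_wN_1_rb803308130422x2_16

theorem g__wQ_26_wN_1_rb803308130422x2_14 : GoodKC AS k_wQ_26_wN_1_rb803308130422x2_14 := p_wQ_26_wN_1_rb803308130422x2_14 g__wQ_26_wN_1_rb803308130422x2_15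

theorem g__wQ_26_wN_1_rb803308130422x2_13 : GoodKC AS k_wQ_26_wN_1_rb803308130422x2_13 := p_wQ_26_wN_1_rb803308130422x2_13 g__wQ_26_wN_1_rb803308130422x2_14

theorem g__wQ_26_wN_1_rb803308130422x2_11 : GoodKC AS k_wQ_26_wN_1_rb803308130422x2_11 := p_wQ_26_wN_1_rb803308130422x2_11 g__wQ_26_wN_1_rb803308130422x2_12 g__wQ_26_wN_1_rb803308130422x2_13

theorem g_wQ_26_wN_1_rb803308130422x2 : GoodKC AS c_wQ_26_wN_1_rb803308130422x2 := p_wQ_26_wN_1_rb803308130422x2 g__wQ_26_wN_1_rb803308130422x2_0 g__wQ_26_wN_1_rb803308130422x2_2 g__wQ_26_wN_1_rb803308130422x2_11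

theorem g_wQ_26_wN_1_rb80330813041fx2 : GoodKC AS c_wQ_26_wN_1_rb80330813041fx2 := p_wQ_26_wN_1_rb80330813041fx2

theorem g_wQ_26_wN_1_rb80330813041dx2 : GoodKC AS c_wQ_26_wN_1_rb80330813041dx2 := p_wQ_26_wN_1_rb80330813041dx2

theorem g_wQ_26_wN_1_rb80330813041ax2 : GoodKC AS c_wQ_26_wN_1_rb80330813041ax2 := p_wQ_26_wN_1_rb80330813041ax2

theorem g_wQ_26_wN_1_rb803308130419x2 : GoodKC AS c_wQ_26_wN_1_rb803308130419x2 := p_wQ_26_wN_1_rb803308130419x2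

theorem g_wQ_26_wN_1_rb803308130418x2 : GoodKC AS c_wQ_26_wN_1_rb803308130418x2 := p_wQ_26_wN_1_rb803308130418x2

theorem g_wQ_26_wN_1_rb803308130417x2 : GoodKC AS c_wQ_26_wN_1_rb803308130417x2 := p_wQ_26_wN_1_rb803308130417x2

theorem g_wQ_26_wN_1_rb803308130416x2 : GoodKC AS c_wQ_26_wN_1_rb803308130416x2 := p_wQ_26_wN_1_rb803308130416x2

theorem g__wQ_26_wN_1_rb803308130414x2_0 : GoodKC AS k_wQ_26_wN_1_rb803308130414x2_0 := p_wQ_26_wN_1_rb803308130414x2_0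

theorem g_wQ_26_wN_1_rb803308130414x2 : GoodKC AS c_wQ_26_wN_1_rb803308130414x2 := p_wQ_26_wN_1_rb803308130414x2 g__wQ_26_wN_1_rb803308130414x2_0

theorem g_wQ_26_wN_1_rb803308130411x2 : GoodKC AS c_wQ_26_wN_1_rb803308130411x2 := p_wQ_26_wN_1_rb803308130411x2

theorem g__wQ_26_wN_1_rb8033081304x2_7 : GoodKC AS k_wQ_26_wN_1_rb8033081304x2_7 := p_wQ_26_wN_1_rb8033081304x2_7

theorem g__wQ_26_wN_1_rb8033081304x2_10 : GoodKC AS k_wQ_26_wN_1_rb8033081304x2_10 := p_wQ_26_wN_1_rb8033081304x2_10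

theorem g__wQ_26_wN_1_rb8033081304x2_9 : GoodKC AS k_wQ_26_wN_1_rb8033081304x2_9 := p_wQ_26_wN_1_rb8033081304x2_9 g__wQ_26_wN_1_rb8033081304x2_10

theorem g__wQ_26_wN_1_rb8033081304x2_8 : GoodKC AS k_wQ_26_wN_1_rb8033081304x2_8 := p_wQ_26_wN_1_rb8033081304x2_8 g__wQ_26_wN_1_rb8033081304x2_9

theorem g__wQ_26_wN_1_rb8033081304x2_6 : GoodKC AS k_wQ_26_wN_1_rb8033081304x2_6 := p_wQ_26_wN_1_rb8033081304x2_6 g__wQ_26_wN_1_rb8033081304x2_7 g__wQ_26_wN_1_rb8033081304x2_8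

theorem g__wQ_26_wN_1_rb8033081304x2_5 : GoodKC AS k_wQ_26_wN_1_rb8033081304x2_5 := p_wQ_26_wN_1_rb8033081304x2_5 g__wQ_26_wN_1_rb8033081304x2_6

theorem g__wQ_26_wN_1_rb8033081304x2_4 : GoodKC AS k_wQ_26_wN_1_rb8033081304x2_4 := p_wQ_26_wN_1_rb8033081304x2_4 g__wQ_26_wN_1_rb8033081304x2_5

theorem g__wQ_26_wN_1_rb8033081304x2_13 : GoodKC AS k_wQ_26_wN_1_rb8033081304x2_13 := p_wQ_26_wN_1_rb8033081304x2_13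

theorem g__wQ_26_wN_1_rb8033081304x2_12 : GoodKC AS k_wQ_26_wN_1_rb8033081304x2_12 := p_wQ_26_wN_1_rb8033081304x2_12 g__wQ_26_wN_1_rb8033081304x2_13

theorem g__wQ_26_wN_1_rb8033081304x2_11 : GoodKC AS k_wQ_26_wN_1_rb8033081304x2_11 := p_wQ_26_wN_1_rb8033081304x2_11 g__wQ_26_wN_1_rb8033081304x2_12

theorem g__wQ_26_wN_1_rb8033081304x2_3 : GoodKC AS k_wQ_26_wN_1_rb8033081304x2_3 := p_wQ_26_wN_1_rb8033081304x2_3 g__wQ_26_wN_1_rb8033081304x2_4 g__wQ_26_wN_1_rb8033081304x2_11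

theorem g__wQ_26_wN_1_rb8033081304x2_2 : GoodKC AS k_wQ_26_wN_1_rb8033081304x2_2 := p_wQ_26_wN_1_rb8033081304x2_2 g__wQ_26_wN_1_rb8033081304x2_3

theorem g_wQ_26_wN_1_rb80330813040cx2 : GoodKC AS c_wQ_26_wN_1_rb80330813040cx2 := p_wQ_26_wN_1_rb80330813040cx2

theorem g_wQ_26_wN_1_rb80330813040bx2 : GoodKC AS c_wQ_26_wN_1_rb80330813040bx2 := p_wQ_26_wN_1_rb80330813040bx2

theorem g_wQ_26_wN_1_rb803308130409x2 : GoodKC AS c_wQ_26_wN_1_rb803308130409x2 := p_wQ_26_wN_1_rb803308130409x2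

theorem g__wQ_26_wN_1_rb8033081304x2_14 : GoodKC AS k_wQ_26_wN_1_rb8033081304x2_14 := p_wQ_26_wN_1_rb8033081304x2_14

theorem g_wQ_26_wN_1_rb803308130404x2 : GoodKC AS c_wQ_26_wN_1_rb803308130404x2 := p_wQ_26_wN_1_rb803308130404x2

theorem g_wQ_26_wN_1_rb803308130403x2 : GoodKC AS c_wQ_26_wN_1_rb803308130403x2 := p_wQ_26_wN_1_rb803308130403x2

theorem g_wQ_26_wN_1_rb803308130400x2 : GoodKC AS c_wQ_26_wN_1_rb803308130400x2 := p_wQ_26_wN_1_rb803308130400x2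

theorem g_wQ_26_wN_1_rb803308130401x2 : GoodKC AS c_wQ_26_wN_1_rb803308130401x2 := p_wQ_26_wN_1_rb803308130401x2

theorem g_wQ_26_wN_1_rb803308130402x2 : GoodKC AS c_wQ_26_wN_1_rb803308130402x2 := p_wQ_26_wN_1_rb803308130402x2

theorem g_wQ_26_wN_1_rb803308130405x2 : GoodKC AS c_wQ_26_wN_1_rb803308130405x2 := p_wQ_26_wN_1_rb803308130405x2

theorem g_wQ_26_wN_1_rb803308130406x2 : GoodKC AS c_wQ_26_wN_1_rb803308130406x2 := p_wQ_26_wN_1_rb803308130406x2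

theorem g_wQ_26_wN_1_rb803308130407x2 : GoodKC AS c_wQ_26_wN_1_rb803308130407x2 := p_wQ_26_wN_1_rb803308130407x2

theorem g__wQ_26_wN_1_rb8033081304x2_15 : GoodKC AS k_wQ_26_wN_1_rb8033081304x2_15 := p_wQ_26_wN_1_rb8033081304x2_15 g_wQ_26_wN_1_rb803308130404x2 g_wQ_26_wN_1_rb803308130403x2 g_wQ_26_wN_1_rb803308130400x2 g_wQ_26_wN_1_rb803308130401x2 g_wQ_26_wN_1_rb803308130402x2 g_wQ_26_wN_1_rb803308130405x2 g_wQ_26_wN_1_rb803308130406x2 g_wQ_26_wN_1_rb803308130407x2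

theorem g_wQ_26_wN_1_rb803308130408x2 : GoodKC AS c_wQ_26_wN_1_rb803308130408x2 := p_wQ_26_wN_1_rb803308130408x2

theorem g_wQ_26_wN_1_rb80330813040ax2 : GoodKC AS c_wQ_26_wN_1_rb80330813040ax2 := p_wQ_26_wN_1_rb80330813040ax2

theorem g_wQ_26_wN_1_rb80330813040dx2 : GoodKC AS c_wQ_26_wN_1_rb80330813040dx2 := p_wQ_26_wN_1_rb80330813040dx2

theorem g_wQ_26_wN_1_rb80330813040ex2 : GoodKC AS c_wQ_26_wN_1_rb80330813040ex2 := p_wQ_26_wN_1_rb80330813040ex2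

theorem g_wQ_26_wN_1_rb80330813040fx2 : GoodKC AS c_wQ_26_wN_1_rb80330813040fx2 := p_wQ_26_wN_1_rb80330813040fx2

theorem g_wQ_26_wN_1_rb803308130410x2 : GoodKC AS c_wQ_26_wN_1_rb803308130410x2 := p_wQ_26_wN_1_rb803308130410x2

theorem g_wQ_26_wN_1_rb803308130412x2 : GoodKC AS c_wQ_26_wN_1_rb803308130412x2 := p_wQ_26_wN_1_rb803308130412x2

theorem g_wQ_26_wN_1_rb803308130413x2 : GoodKC AS c_wQ_26_wN_1_rb803308130413x2 := p_wQ_26_wN_1_rb803308130413x2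

theorem g_wQ_26_wN_1_rb803308130415x2 : GoodKC AS c_wQ_26_wN_1_rb803308130415x2 := p_wQ_26_wN_1_rb803308130415x2

theorem g__wQ_26_wN_1_rb8033081304x2_1 : GoodKC AS k_wQ_26_wN_1_rb8033081304x2_1 := p_wQ_26_wN_1_rb8033081304x2_1 g_wQ_26_wN_1_rb803308130419x2 g_wQ_26_wN_1_rb803308130418x2 g_wQ_26_wN_1_rb803308130417x2 g_wQ_26_wN_1_rb803308130416x2 g_wQ_26_wN_1_rb803308130414x2 g_wQ_26_wN_1_rb803308130411x2 g__wQ_26_wN_1_rb8033081304x2_2 g_wQ_26_wN_1_rb80330813040cx2 g_wQ_26_wN_1_rb80330813040bx2 g_wQ_26_wN_1_rb803308130409x2 g__wQ_26_wN_1_rb8033081304x2_14 g__wQ_26_wN_1_rb8033081304x2_15 g_wQ_26_wN_1_rb803308130408x2 g_wQ_26_wN_1_rb80330813040ax2 g_wQ_26_wN_1_rb80330813040dx2 g_wQ_26_wN_1_rb80330813040ex2 g_wQ_26_wN_1_rb80330813040fx2 g_wQ_26_wN_1_rb803308130410x2 g_wQ_26_wN_1_rb803308130412x2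 g_wQ_26_wN_1_rb803308130413x2 g_wQ_26_wN_1_rb803308130415x2

theorem g_wQ_26_wN_1_rb80330813041bx2 : GoodKC AS c_wQ_26_wN_1_rb80330813041bx2 := p_wQ_26_wN_1_rb80330813041bx2

theorem g__wQ_26_wN_1_rb80330813041cx2_0 : GoodKC AS k_wQ_26_wN_1_rb80330813041cx2_0 := p_wQ_26_wN_1_rb80330813041cx2_0

theorem g__wQ_26_wN_1_rb80330813041cx2_2 : GoodKC AS k_wQ_26_wN_1_rb80330813041cx2_2 := p_wQ_26_wN_1_rb80330813041cx2_2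

theorem g__wQ_26_wN_1_rb80330813041cx2_1 : GoodKC AS k_wQ_26_wN_1_rb80330813041cx2_1 := p_wQ_26_wN_1_rb80330813041cx2_1 g__wQ_26_wN_1_rb80330813041cx2_2

theorem g__wQ_26_wN_1_rb80330813041cx2_8 : GoodKC AS k_wQ_26_wN_1_rb80330813041cx2_8 := p_wQ_26_wN_1_rb80330813041cx2_8

theorem g__wQ_26_wN_1_rb80330813041cx2_7 : GoodKC AS k_wQ_26_wN_1_rb80330813041cx2_7 := p_wQ_26_wN_1_rb80330813041cx2_7 g__wQ_26_wN_1_rb80330813041cx2_8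

theorem g__wQ_26_wN_1_rb80330813041cx2_6 : GoodKC AS k_wQ_26_wN_1_rb80330813041cx2_6 := p_wQ_26_wN_1_rb80330813041cx2_6 g__wQ_26_wN_1_rb80330813041cx2_7

theorem g__wQ_26_wN_1_rb80330813041cx2_5 : GoodKC AS k_wQ_26_wN_1_rb80330813041cx2_5 := p_wQ_26_wN_1_rb80330813041cx2_5 g__wQ_26_wN_1_rb80330813041cx2_6

theorem g__wQ_26_wN_1_rb80330813041cx2_4 : GoodKC AS k_wQ_26_wN_1_rb80330813041cx2_4 := p_wQ_26_wN_1_rb80330813041cx2_4 g__wQ_26_wN_1_rb80330813041cx2_5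

theorem g__wQ_26_wN_1_rb80330813041cx2_9 : GoodKC AS k_wQ_26_wN_1_rb80330813041cx2_9 := p_wQ_26_wN_1_rb80330813041cx2_9

theorem g__wQ_26_wN_1_rb80330813041cx2_3 : GoodKC AS k_wQ_26_wN_1_rb80330813041cx2_3 := p_wQ_26_wN_1_rb80330813041cx2_3 g__wQ_26_wN_1_rb80330813041cx2_4 g__wQ_26_wN_1_rb80330813041cx2_9

theorem g_wQ_26_wN_1_rb80330813041cx2 : GoodKC AS c_wQ_26_wN_1_rb80330813041cx2 := p_wQ_26_wN_1_rb80330813041cx2 g__wQ_26_wN_1_rb80330813041cx2_0 g__wQ_26_wN_1_rb80330813041cx2_1 g__wQ_26_wN_1_rb80330813041cx2_3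

theorem g_wQ_26_wN_1_rb80330813041ex2 : GoodKC AS c_wQ_26_wN_1_rb80330813041ex2 := p_wQ_26_wN_1_rb80330813041ex2

theorem g_wQ_26_wN_1_rb803308130420x2 : GoodKC AS c_wQ_26_wN_1_rb803308130420x2 := p_wQ_26_wN_1_rb803308130420x2

theorem g__wQ_26_wN_1_rb8033081304x2_16 : GoodKC AS k_wQ_26_wN_1_rb8033081304x2_16 := p_wQ_26_wN_1_rb8033081304x2_16

theorem g__wQ_26_wN_1_rb8033081304x2_18 : GoodKC AS k_wQ_26_wN_1_rb8033081304x2_18 := p_wQ_26_wN_1_rb8033081304x2_18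

theorem g__wQ_26_wN_1_rb8033081304x2_23 : GoodKC AS k_wQ_26_wN_1_rb8033081304x2_23 := p_wQ_26_wN_1_rb8033081304x2_23

theorem g__wQ_26_wN_1_rb8033081304x2_22 : GoodKC AS k_wQ_26_wN_1_rb8033081304x2_22 := p_wQ_26_wN_1_rb8033081304x2_22 g__wQ_26_wN_1_rb8033081304x2_23

theorem g__wQ_26_wN_1_rb8033081304x2_21 : GoodKC AS k_wQ_26_wN_1_rb8033081304x2_21 := p_wQ_26_wN_1_rb8033081304x2_21 g__wQ_26_wN_1_rb8033081304x2_22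

theorem g__wQ_26_wN_1_rb8033081304x2_27 : GoodKC AS k_wQ_26_wN_1_rb8033081304x2_27 := p_wQ_26_wN_1_rb8033081304x2_27

theorem g__wQ_26_wN_1_rb8033081304x2_26 : GoodKC AS k_wQ_26_wN_1_rb8033081304x2_26 := p_wQ_26_wN_1_rb8033081304x2_26 g__wQ_26_wN_1_rb8033081304x2_27

theorem g__wQ_26_wN_1_rb8033081304x2_29 : GoodKC AS k_wQ_26_wN_1_rb8033081304x2_29 := p_wQ_26_wN_1_rb8033081304x2_29

theorem g__wQ_26_wN_1_rb8033081304x2_28 : GoodKC AS k_wQ_26_wN_1_rb8033081304x2_28 := p_wQ_26_wN_1_rb8033081304x2_28 g__wQ_26_wN_1_rb8033081304x2_29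

theorem g__wQ_26_wN_1_rb8033081304x2_25 : GoodKC AS k_wQ_26_wN_1_rb8033081304x2_25 := p_wQ_26_wN_1_rb8033081304x2_25 g__wQ_26_wN_1_rb8033081304x2_26 g__wQ_26_wN_1_rb8033081304x2_28

theorem g__wQ_26_wN_1_rb8033081304x2_24 : GoodKC AS k_wQ_26_wN_1_rb8033081304x2_24 := p_wQ_26_wN_1_rb8033081304x2_24 g__wQ_26_wN_1_rb8033081304x2_25

theorem g__wQ_26_wN_1_rb8033081304x2_20 : GoodKC AS k_wQ_26_wN_1_rb8033081304x2_20 := p_wQ_26_wN_1_rb8033081304x2_20 g__wQ_26_wN_1_rb8033081304x2_21 g__wQ_26_wN_1_rb8033081304x2_24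

theorem g__wQ_26_wN_1_rb8033081304x2_19 : GoodKC AS k_wQ_26_wN_1_rb8033081304x2_19 := p_wQ_26_wN_1_rb8033081304x2_19 g__wQ_26_wN_1_rb8033081304x2_20

theorem g__wQ_26_wN_1_rb8033081304x2_17 : GoodKC AS k_wQ_26_wN_1_rb8033081304x2_17 := p_wQ_26_wN_1_rb8033081304x2_17 g__wQ_26_wN_1_rb8033081304x2_18 g__wQ_26_wN_1_rb8033081304x2_19

theorem g_wQ_26_wN_1_rb803308130421x2 : GoodKC AS c_wQ_26_wN_1_rb803308130421x2 := p_wQ_26_wN_1_rb803308130421x2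

theorem g__wQ_26_wN_1_rb803308130423x2_1 : GoodKC AS k_wQ_26_wN_1_rb803308130423x2_1 := p_wQ_26_wN_1_rb803308130423x2_1

theorem g__wQ_26_wN_1_rb803308130423x2_6 : GoodKC AS k_wQ_26_wN_1_rb803308130423x2_6 := p_wQ_26_wN_1_rb803308130423x2_6

theorem g__wQ_26_wN_1_rb803308130423x2_5 : GoodKC AS k_wQ_26_wN_1_rb803308130423x2_5 := p_wQ_26_wN_1_rb803308130423x2_5 g__wQ_26_wN_1_rb803308130423x2_6

theorem g__wQ_26_wN_1_rb803308130423x2_4 : GoodKC AS k_wQ_26_wN_1_rb803308130423x2_4 := p_wQ_26_wN_1_rb803308130423x2_4 g__wQ_26_wN_1_rb803308130423x2_5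

theorem g__wQ_26_wN_1_rb803308130423x2_3 : GoodKC AS k_wQ_26_wN_1_rb803308130423x2_3 := p_wQ_26_wN_1_rb803308130423x2_3 g__wQ_26_wN_1_rb803308130423x2_4

theorem g__wQ_26_wN_1_rb803308130423x2_7 : GoodKC AS k_wQ_26_wN_1_rb803308130423x2_7 := p_wQ_26_wN_1_rb803308130423x2_7

theorem g__wQ_26_wN_1_rb803308130423x2_9 : GoodKC AS k_wQ_26_wN_1_rb803308130423x2_9 := p_wQ_26_wN_1_rb803308130423x2_9

theorem g__wQ_26_wN_1_rb803308130423x2_8 : GoodKC AS k_wQ_26_wN_1_rb803308130423x2_8 := p_wQ_26_wN_1_rb803308130423x2_8 g__wQ_26_wN_1_rb803308130423x2_9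

theorem g__wQ_26_wN_1_rb803308130423x2_12 : GoodKC AS k_wQ_26_wN_1_rb803308130423x2_12 := p_wQ_26_wN_1_rb803308130423x2_12

theorem g__wQ_26_wN_1_rb803308130423x2_13 : GoodKC AS k_wQ_26_wN_1_rb803308130423x2_13 := p_wQ_26_wN_1_rb803308130423x2_13

theorem g__wQ_26_wN_1_rb803308130423x2_11 : GoodKC AS k_wQ_26_wN_1_rb803308130423x2_11 := p_wQ_26_wN_1_rb803308130423x2_11 g__wQ_26_wN_1_rb803308130423x2_12 g__wQ_26_wN_1_rb803308130423x2_13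

theorem g__wQ_26_wN_1_rb803308130423x2_10 : GoodKC AS k_wQ_26_wN_1_rb803308130423x2_10 := p_wQ_26_wN_1_rb803308130423x2_10 g__wQ_26_wN_1_rb803308130423x2_11

theorem g__wQ_26_wN_1_rb803308130423x2_2 : GoodKC AS k_wQ_26_wN_1_rb803308130423x2_2 := p_wQ_26_wN_1_rb803308130423x2_2 g__wQ_26_wN_1_rb803308130423x2_3 g__wQ_26_wN_1_rb803308130423x2_7 g__wQ_26_wN_1_rb803308130423x2_8 g__wQ_26_wN_1_rb803308130423x2_10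

theorem g__wQ_26_wN_1_rb803308130423x2_15 : GoodKC AS k_wQ_26_wN_1_rb803308130423x2_15 := p_wQ_26_wN_1_rb803308130423x2_15

theorem g__wQ_26_wN_1_rb803308130423x2_14 : GoodKC AS k_wQ_26_wN_1_rb803308130423x2_14 := p_wQ_26_wN_1_rb803308130423x2_14 g__wQ_26_wN_1_rb803308130423x2_15

theorem g__wQ_26_wN_1_rb803308130423x2_0 : GoodKC AS k_wQ_26_wN_1_rb803308130423x2_0 := p_wQ_26_wN_1_rb803308130423x2_0 g__wQ_26_wN_1_rb803308130423x2_1 g__wQ_26_wN_1_rb803308130423x2_2 g__wQ_26_wN_1_rb803308130423x2_14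

theorem g_wQ_26_wN_1_rb803308130423x2 : GoodKC AS c_wQ_26_wN_1_rb803308130423x2 := p_wQ_26_wN_1_rb803308130423x2 g__wQ_26_wN_1_rb803308130423x2_0

theorem g__wQ_26_wN_1_rb8033081304x2_0 : GoodKC AS k_wQ_26_wN_1_rb8033081304x2_0 := p_wQ_26_wN_1_rb8033081304x2_0 g_wQ_26_wN_1_rb803308130422x2 g_wQ_26_wN_1_rb80330813041fx2 g_wQ_26_wN_1_rb80330813041dx2 g_wQ_26_wN_1_rb80330813041ax2 g__wQ_26_wN_1_rb8033081304x2_1 g_wQ_26_wN_1_rb80330813041bx2 g_wQ_26_wN_1_rb80330813041cx2 g_wQ_26_wN_1_rb80330813041ex2 g_wQ_26_wN_1_rb803308130420x2 g__wQ_26_wN_1_rb8033081304x2_16 g__wQ_26_wN_1_rb8033081304x2_17 g_wQ_26_wN_1_rb803308130421x2 g_wQ_26_wN_1_rb803308130423x2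

theorem g_wQ_26_wN_1_rb803308130426x2 : GoodKC AS c_wQ_26_wN_1_rb803308130426x2 := p_wQ_26_wN_1_rb803308130426x2

theorem g_wQ_26_wN_1_rb803308130427x2 : GoodKC AS c_wQ_26_wN_1_rb803308130427x2 := p_wQ_26_wN_1_rb803308130427x2

theorem g_wQ_26_wN_1_rb803308130429x2 : GoodKC AS c_wQ_26_wN_1_rb803308130429x2 := p_wQ_26_wN_1_rb803308130429x2

theorem g_wQ_26_wN_1_rb80330813042bx2 : GoodKC AS c_wQ_26_wN_1_rb80330813042bx2 := p_wQ_26_wN_1_rb80330813042bx2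

theorem g_wQ_26_wN_1_rb80330813042cx2 : GoodKC AS c_wQ_26_wN_1_rb80330813042cx2 := p_wQ_26_wN_1_rb80330813042cx2

theorem g_wQ_26_wN_1_rb8033081304x4 : GoodKC AS c_wQ_26_wN_1_rb8033081304x4 := p_wQ_26_wN_1_rb8033081304x2 g_wQ_26_wN_1_rb80330813042ax2 g_wQ_26_wN_1_rb803308130428x2 g_wQ_26_wN_1_rb803308130425x2 g_wQ_26_wN_1_rb803308130424x2 g__wQ_26_wN_1_rb8033081304x2_0 g_wQ_26_wN_1_rb803308130426x2 g_wQ_26_wN_1_rb803308130427x2 g_wQ_26_wN_1_rb803308130429x2 g_wQ_26_wN_1_rb80330813042bx2 g_wQ_26_wN_1_rb80330813042cx2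

theorem g_wQ_26_wN_1_rb80330813x15 : GoodKC AS c_wQ_26_wN_1_rb80330813x15 := p_wQ_26_wN_1_rb80330813x4 g_wQ_26_wN_1_rb8033081305x4 g_wQ_26_wN_1_rb8033081303x4 g_wQ_26_wN_1_rb8033081301x4 g__wQ_26_wN_1_rb80330813x4_0 g__wQ_26_wN_1_rb80330813x4_1 g_wQ_26_wN_1_rb8033081302x4 g_wQ_26_wN_1_rb8033081304x4

theorem g_wQ_26_wN_1_rb80330810x15 : GoodKC AS c_wQ_26_wN_1_rb80330810x15 := p_wQ_26_wN_1_rb80330810x5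

theorem g_wQ_26_wN_1_rb8033080e38x3 : GoodKC AS c_wQ_26_wN_1_rb8033080e38x3 := p_wQ_26_wN_1_rb8033080e38x3

theorem g__wQ_26_wN_1_rb8033080e35x3_0 : GoodKC AS k_wQ_26_wN_1_rb8033080e35x3_0 := p_wQ_26_wN_1_rb8033080e35x3_0

theorem g_wQ_26_wN_1_rb8033080e35x3 : GoodKC AS c_wQ_26_wN_1_rb8033080e35x3 := p_wQ_26_wN_1_rb8033080e35x3 g__wQ_26_wN_1_rb8033080e35x3_0

theorem g_wQ_26_wN_1_rb8033080e320bx2 : GoodKC AS c_wQ_26_wN_1_rb8033080e320bx2 := p_wQ_26_wN_1_rb8033080e320bx2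

theorem g_wQ_26_wN_1_rb8033080e3209x2 : GoodKC AS c_wQ_26_wN_1_rb8033080e3209x2 := p_wQ_26_wN_1_rb8033080e3209x2

theorem g_wQ_26_wN_1_rb8033080e3207x2 : GoodKC AS c_wQ_26_wN_1_rb8033080e3207x2 := p_wQ_26_wN_1_rb8033080e3207x2

theorem g__wQ_26_wN_1_rb8033080e3206x2_0 : GoodKC AS k_wQ_26_wN_1_rb8033080e3206x2_0 := p_wQ_26_wN_1_rb8033080e3206x2_0

theorem g_wQ_26_wN_1_rb8033080e3206x2 : GoodKC AS c_wQ_26_wN_1_rb8033080e3206x2 := p_wQ_26_wN_1_rb8033080e3206x2 g__wQ_26_wN_1_rb8033080e3206x2_0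

theorem g__wQ_26_wN_1_rb8033080e3205x2_0 : GoodKC AS k_wQ_26_wN_1_rb8033080e3205x2_0 := p_wQ_26_wN_1_rb8033080e3205x2_0

theorem g_wQ_26_wN_1_rb8033080e3205x2 : GoodKC AS c_wQ_26_wN_1_rb8033080e3205x2 := p_wQ_26_wN_1_rb8033080e3205x2 g__wQ_26_wN_1_rb8033080e3205x2_0

theorem g__wQ_26_wN_1_rb8033080e32x2_5 : GoodKC AS k_wQ_26_wN_1_rb8033080e32x2_5 := p_wQ_26_wN_1_rb8033080e32x2_5

theorem g__wQ_26_wN_1_rb8033080e32x2_8 : GoodKC AS k_wQ_26_wN_1_rb8033080e32x2_8 := p_wQ_26_wN_1_rb8033080e32x2_8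

theorem g__wQ_26_wN_1_rb8033080e32x2_12 : GoodKC AS k_wQ_26_wN_1_rb8033080e32x2_12 := p_wQ_26_wN_1_rb8033080e32x2_12

theorem g__wQ_26_wN_1_rb8033080e32x2_13 : GoodKC AS k_wQ_26_wN_1_rb8033080e32x2_13 := p_wQ_26_wN_1_rb8033080e32x2_13

theorem g__wQ_26_wN_1_rb8033080e32x2_11 : GoodKC AS k_wQ_26_wN_1_rb8033080e32x2_11 := p_wQ_26_wN_1_rb8033080e32x2_11 g__wQ_26_wN_1_rb8033080e32x2_12 g__wQ_26_wN_1_rb8033080e32x2_13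

theorem g__wQ_26_wN_1_rb8033080e32x2_10 : GoodKC AS k_wQ_26_wN_1_rb8033080e32x2_10 := p_wQ_26_wN_1_rb8033080e32x2_10 g__wQ_26_wN_1_rb8033080e32x2_11

theorem g__wQ_26_wN_1_rb8033080e32x2_14 : GoodKC AS k_wQ_26_wN_1_rb8033080e32x2_14 := p_wQ_26_wN_1_rb8033080e32x2_14

theorem g__wQ_26_wN_1_rb8033080e32x2_9 : GoodKC AS k_wQ_26_wN_1_rb8033080e32x2_9 := p_wQ_26_wN_1_rb8033080e32x2_9 g__wQ_26_wN_1_rb8033080e32x2_10 g__wQ_26_wN_1_rb8033080e32x2_14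

theorem g__wQ_26_wN_1_rb8033080e32x2_7 : GoodKC AS k_wQ_26_wN_1_rb8033080e32x2_7 := p_wQ_26_wN_1_rb8033080e32x2_7 g__wQ_26_wN_1_rb8033080e32x2_8 g__wQ_26_wN_1_rb8033080e32x2_9

theorem g__wQ_26_wN_1_rb8033080e32x2_6 : GoodKC AS k_wQ_26_wN_1_rb8033080e32x2_6 := p_wQ_26_wN_1_rb8033080e32x2_6 g__wQ_26_wN_1_rb8033080e32x2_7

theorem g__wQ_26_wN_1_rb8033080e32x2_15 : GoodKC AS k_wQ_26_wN_1_rb8033080e32x2_15 := p_wQ_26_wN_1_rb8033080e32x2_15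

theorem g__wQ_26_wN_1_rb8033080e32x2_4 : GoodKC AS k_wQ_26_wN_1_rb8033080e32x2_4 := p_wQ_26_wN_1_rb8033080e32x2_4 g__wQ_26_wN_1_rb8033080e32x2_5 g__wQ_26_wN_1_rb8033080e32x2_6 g__wQ_26_wN_1_rb8033080e32x2_15

theorem g__wQ_26_wN_1_rb8033080e32x2_3 : GoodKC AS k_wQ_26_wN_1_rb8033080e32x2_3 := p_wQ_26_wN_1_rb8033080e32x2_3 g__wQ_26_wN_1_rb8033080e32x2_4

theorem g__wQ_26_wN_1_rb8033080e32x2_2 : GoodKC AS k_wQ_26_wN_1_rb8033080e32x2_2 := p_wQ_26_wN_1_rb8033080e32x2_2 g__wQ_26_wN_1_rb8033080e32x2_3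

theorem g__wQ_26_wN_1_rb8033080e32x2_16 : GoodKC AS k_wQ_26_wN_1_rb8033080e32x2_16 := p_wQ_26_wN_1_rb8033080e32x2_16

theorem g__wQ_26_wN_1_rb8033080e32x2_1 : GoodKC AS k_wQ_26_wN_1_rb8033080e32x2_1 := p_wQ_26_wN_1_rb8033080e32x2_1 g__wQ_26_wN_1_rb8033080e32x2_2 g__wQ_26_wN_1_rb8033080e32x2_16

theorem g__wQ_26_wN_1_rb8033080e32x2_0 : GoodKC AS k_wQ_26_wN_1_rb8033080e32x2_0 := p_wQ_26_wN_1_rb8033080e32x2_0 g__wQ_26_wN_1_rb8033080e32x2_1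

theorem g__wQ_26_wN_1_rb8033080e32x2_18 : GoodKC AS k_wQ_26_wN_1_rb8033080e32x2_18 := p_wQ_26_wN_1_rb8033080e32x2_18

theorem g__wQ_26_wN_1_rb8033080e32x2_23 : GoodKC AS k_wQ_26_wN_1_rb8033080e32x2_23 := p_wQ_26_wN_1_rb8033080e32x2_23

theorem g__wQ_26_wN_1_rb8033080e32x2_22 : GoodKC AS k_wQ_26_wN_1_rb8033080e32x2_22 := p_wQ_26_wN_1_rb8033080e32x2_22 g__wQ_26_wN_1_rb8033080e32x2_23

theorem g__wQ_26_wN_1_rb8033080e32x2_21 : GoodKC AS k_wQ_26_wN_1_rb8033080e32x2_21 := p_wQ_26_wN_1_rb8033080e32x2_21 g__wQ_26_wN_1_rb8033080e32x2_22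

theorem g__wQ_26_wN_1_rb8033080e32x2_26 : GoodKC AS k_wQ_26_wN_1_rb8033080e32x2_26 := p_wQ_26_wN_1_rb8033080e32x2_26

theorem g__wQ_26_wN_1_rb8033080e32x2_28 : GoodKC AS k_wQ_26_wN_1_rb8033080e32x2_28 := p_wQ_26_wN_1_rb8033080e32x2_28

theorem g__wQ_26_wN_1_rb8033080e32x2_27 : GoodKC AS k_wQ_26_wN_1_rb8033080e32x2_27 := p_wQ_26_wN_1_rb8033080e32x2_27 g__wQ_26_wN_1_rb8033080e32x2_28

theorem g__wQ_26_wN_1_rb8033080e32x2_25 : GoodKC AS k_wQ_26_wN_1_rb8033080e32x2_25 := p_wQ_26_wN_1_rb8033080e32x2_25 g__wQ_26_wN_1_rb8033080e32x2_26 g__wQ_26_wN_1_rb8033080e32x2_27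

theorem g__wQ_26_wN_1_rb8033080e32x2_24 : GoodKC AS k_wQ_26_wN_1_rb8033080e32x2_24 := p_wQ_26_wN_1_rb8033080e32x2_24 g__wQ_26_wN_1_rb8033080e32x2_25

theorem g__wQ_26_wN_1_rb8033080e32x2_20 : GoodKC AS k_wQ_26_wN_1_rb8033080e32x2_20 := p_wQ_26_wN_1_rb8033080e32x2_20 g__wQ_26_wN_1_rb8033080e32x2_21 g__wQ_26_wN_1_rb8033080e32x2_24

theorem g__wQ_26_wN_1_rb8033080e32x2_29 : GoodKC AS k_wQ_26_wN_1_rb8033080e32x2_29 := p_wQ_26_wN_1_rb8033080e32x2_29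

theorem g__wQ_26_wN_1_rb8033080e32x2_19 : GoodKC AS k_wQ_26_wN_1_rb8033080e32x2_19 := p_wQ_26_wN_1_rb8033080e32x2_19 g__wQ_26_wN_1_rb8033080e32x2_20 g__wQ_26_wN_1_rb8033080e32x2_29

theorem g__wQ_26_wN_1_rb8033080e32x2_31 : GoodKC AS k_wQ_26_wN_1_rb8033080e32x2_31 := p_wQ_26_wN_1_rb8033080e32x2_31

theorem g__wQ_26_wN_1_rb8033080e32x2_30 : GoodKC AS k_wQ_26_wN_1_rb8033080e32x2_30 := p_wQ_26_wN_1_rb8033080e32x2_30 g__wQ_26_wN_1_rb8033080e32x2_31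

theorem g__wQ_26_wN_1_rb8033080e32x2_17 : GoodKC AS k_wQ_26_wN_1_rb8033080e32x2_17 := p_wQ_26_wN_1_rb8033080e32x2_17 g__wQ_26_wN_1_rb8033080e32x2_18 g__wQ_26_wN_1_rb8033080e32x2_19 g__wQ_26_wN_1_rb8033080e32x2_30

theorem g_wQ_26_wN_1_rb8033080e3201x2 : GoodKC AS c_wQ_26_wN_1_rb8033080e3201x2 := p_wQ_26_wN_1_rb8033080e3201x2

theorem g_wQ_26_wN_1_rb8033080e3200x2 : GoodKC AS c_wQ_26_wN_1_rb8033080e3200x2 := p_wQ_26_wN_1_rb8033080e3200x2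

theorem g__wQ_26_wN_1_rb8033080e32x2_32 : GoodKC AS k_wQ_26_wN_1_rb8033080e32x2_32 := p_wQ_26_wN_1_rb8033080e32x2_32

theorem g_wQ_26_wN_1_rb8033080e3202x2 : GoodKC AS c_wQ_26_wN_1_rb8033080e3202x2 := p_wQ_26_wN_1_rb8033080e3202x2

theorem g_wQ_26_wN_1_rb8033080e3203x2 : GoodKC AS c_wQ_26_wN_1_rb8033080e3203x2 := p_wQ_26_wN_1_rb8033080e3203x2

theorem g_wQ_26_wN_1_rb8033080e3204x2 : GoodKC AS c_wQ_26_wN_1_rb8033080e3204x2 := p_wQ_26_wN_1_rb8033080e3204x2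

theorem g_wQ_26_wN_1_rb8033080e3208x2 : GoodKC AS c_wQ_26_wN_1_rb8033080e3208x2 := p_wQ_26_wN_1_rb8033080e3208x2

theorem g_wQ_26_wN_1_rb8033080e320ax2 : GoodKC AS c_wQ_26_wN_1_rb8033080e320ax2 := p_wQ_26_wN_1_rb8033080e320ax2

theorem g_wQ_26_wN_1_rb8033080e32x3 : GoodKC AS c_wQ_26_wN_1_rb8033080e32x3 := p_wQ_26_wN_1_rb8033080e32x2 g_wQ_26_wN_1_rb8033080e320bx2 g_wQ_26_wN_1_rb8033080e3209x2 g_wQ_26_wN_1_rb8033080e3207x2 g_wQ_26_wN_1_rb8033080e3206x2 g_wQ_26_wN_1_rb8033080e3205x2 g__wQ_26_wN_1_rb8033080e32x2_0 g__wQ_26_wN_1_rb8033080e32x2_17 g_wQ_26_wN_1_rb8033080e3201x2 g_wQ_26_wN_1_rb8033080e3200x2 g__wQ_26_wN_1_rb8033080e32x2_32 g_wQ_26_wN_1_rb8033080e3202x2 g_wQ_26_wN_1_rb8033080e3203x2 g_wQ_26_wN_1_rb8033080e3204x2 g_wQ_26_wN_1_rb8033080e3208x2 g_wQ_26_wN_1_rb8033080e320ax2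

theorem g_wQ_26_wN_1_rb8033080e30x3 : GoodKC AS c_wQ_26_wN_1_rb8033080e30x3 := p_wQ_26_wN_1_rb8033080e30x3

theorem g_wQ_26_wN_1_rb8033080e27x3 : GoodKC AS c_wQ_26_wN_1_rb8033080e27x3 := p_wQ_26_wN_1_rb8033080e27x3

theorem g_wQ_26_wN_1_rb8033080e26x3 : GoodKC AS c_wQ_26_wN_1_rb8033080e26x3 := p_wQ_26_wN_1_rb8033080e26x3

theorem g__wQ_26_wN_1_rb8033080e23x3_0 : GoodKC AS k_wQ_26_wN_1_rb8033080e23x3_0 := p_wQ_26_wN_1_rb8033080e23x3_0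

theorem g_wQ_26_wN_1_rb8033080e23x3 : GoodKC AS c_wQ_26_wN_1_rb8033080e23x3 := p_wQ_26_wN_1_rb8033080e23x3 g__wQ_26_wN_1_rb8033080e23x3_0

theorem g__wQ_26_wN_1_rb8033080e2051x2_1 : GoodKC AS k_wQ_26_wN_1_rb8033080e2051x2_1 := p_wQ_26_wN_1_rb8033080e2051x2_1

theorem g__wQ_26_wN_1_rb8033080e2051x2_0 : GoodKC AS k_wQ_26_wN_1_rb8033080e2051x2_0 := p_wQ_26_wN_1_rb8033080e2051x2_0 g__wQ_26_wN_1_rb8033080e2051x2_1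

theorem g__wQ_26_wN_1_rb8033080e2051x2_4 : GoodKC AS k_wQ_26_wN_1_rb8033080e2051x2_4 := p_wQ_26_wN_1_rb8033080e2051x2_4

theorem g__wQ_26_wN_1_rb8033080e2051x2_3 : GoodKC AS k_wQ_26_wN_1_rb8033080e2051x2_3 := p_wQ_26_wN_1_rb8033080e2051x2_3 g__wQ_26_wN_1_rb8033080e2051x2_4

theorem g__wQ_26_wN_1_rb8033080e2051x2_2 : GoodKC AS k_wQ_26_wN_1_rb8033080e2051x2_2 := p_wQ_26_wN_1_rb8033080e2051x2_2 g__wQ_26_wN_1_rb8033080e2051x2_3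

theorem g_wQ_26_wN_1_rb8033080e2051x2 : GoodKC AS c_wQ_26_wN_1_rb8033080e2051x2 := p_wQ_26_wN_1_rb8033080e2051x2 g__wQ_26_wN_1_rb8033080e2051x2_0 g__wQ_26_wN_1_rb8033080e2051x2_2

theorem g_wQ_26_wN_1_rb8033080e2047x2 : GoodKC AS c_wQ_26_wN_1_rb8033080e2047x2 := p_wQ_26_wN_1_rb8033080e2047x2

theorem g__wQ_26_wN_1_rb8033080e2046x2_0 : GoodKC AS k_wQ_26_wN_1_rb8033080e2046x2_0 := p_wQ_26_wN_1_rb8033080e2046x2_0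

theorem g_wQ_26_wN_1_rb8033080e2046x2 : GoodKC AS c_wQ_26_wN_1_rb8033080e2046x2 := p_wQ_26_wN_1_rb8033080e2046x2 g__wQ_26_wN_1_rb8033080e2046x2_0

theorem g_wQ_26_wN_1_rb8033080e2044x2 : GoodKC AS c_wQ_26_wN_1_rb8033080e2044x2 := p_wQ_26_wN_1_rb8033080e2044x2

theorem g__wQ_26_wN_1_rb8033080e2043x2_1 : GoodKC AS k_wQ_26_wN_1_rb8033080e2043x2_1 := p_wQ_26_wN_1_rb8033080e2043x2_1

theorem g__wQ_26_wN_1_rb8033080e2043x2_0 : GoodKC AS k_wQ_26_wN_1_rb8033080e2043x2_0 := p_wQ_26_wN_1_rb8033080e2043x2_0 g__wQ_26_wN_1_rb8033080e2043x2_1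

theorem g_wQ_26_wN_1_rb8033080e2043x2 : GoodKC AS c_wQ_26_wN_1_rb8033080e2043x2 := p_wQ_26_wN_1_rb8033080e2043x2 g__wQ_26_wN_1_rb8033080e2043x2_0

theorem g_wQ_26_wN_1_rb8033080e2040x2 : GoodKC AS c_wQ_26_wN_1_rb8033080e2040x2 := p_wQ_26_wN_1_rb8033080e2040x2

theorem g_wQ_26_wN_1_rb8033080e203fx2 : GoodKC AS c_wQ_26_wN_1_rb8033080e203fx2 := p_wQ_26_wN_1_rb8033080e203fx2

theorem g_wQ_26_wN_1_rb8033080e203ex2 : GoodKC AS c_wQ_26_wN_1_rb8033080e203ex2 := p_wQ_26_wN_1_rb8033080e203ex2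

theorem g_wQ_26_wN_1_rb8033080e203bx2 : GoodKC AS c_wQ_26_wN_1_rb8033080e203bx2 := p_wQ_26_wN_1_rb8033080e203bx2

theorem g_wQ_26_wN_1_rb8033080e203ax2 : GoodKC AS c_wQ_26_wN_1_rb8033080e203ax2 := p_wQ_26_wN_1_rb8033080e203ax2

theorem g__wQ_26_wN_1_rb8033080e2039x2_1 : GoodKC AS k_wQ_26_wN_1_rb8033080e2039x2_1 := p_wQ_26_wN_1_rb8033080e2039x2_1

theorem g__wQ_26_wN_1_rb8033080e2039x2_0 : GoodKC AS k_wQ_26_wN_1_rb8033080e2039x2_0 := p_wQ_26_wN_1_rb8033080e2039x2_0 g__wQ_26_wN_1_rb8033080e2039x2_1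

theorem g_wQ_26_wN_1_rb8033080e2039x2 : GoodKC AS c_wQ_26_wN_1_rb8033080e2039x2 := p_wQ_26_wN_1_rb8033080e2039x2 g__wQ_26_wN_1_rb8033080e2039x2_0

theorem g_wQ_26_wN_1_rb8033080e2038x2 : GoodKC AS c_wQ_26_wN_1_rb8033080e2038x2 := p_wQ_26_wN_1_rb8033080e2038x2

theorem g_wQ_26_wN_1_rb8033080e2037x2 : GoodKC AS c_wQ_26_wN_1_rb8033080e2037x2 := p_wQ_26_wN_1_rb8033080e2037x2

theorem g_wQ_26_wN_1_rb8033080e2036x2 : GoodKC AS c_wQ_26_wN_1_rb8033080e2036x2 := p_wQ_26_wN_1_rb8033080e2036x2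

theorem g_wQ_26_wN_1_rb8033080e2034x2 : GoodKC AS c_wQ_26_wN_1_rb8033080e2034x2 := p_wQ_26_wN_1_rb8033080e2034x2

theorem g_wQ_26_wN_1_rb8033080e2032x2 : GoodKC AS c_wQ_26_wN_1_rb8033080e2032x2 := p_wQ_26_wN_1_rb8033080e2032x2

theorem g_wQ_26_wN_1_rb8033080e2030x2 : GoodKC AS c_wQ_26_wN_1_rb8033080e2030x2 := p_wQ_26_wN_1_rb8033080e2030x2

theorem g_wQ_26_wN_1_rb8033080e202dx2 : GoodKC AS c_wQ_26_wN_1_rb8033080e202dx2 := p_wQ_26_wN_1_rb8033080e202dx2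

theorem g_wQ_26_wN_1_rb8033080e202bx2 : GoodKC AS c_wQ_26_wN_1_rb8033080e202bx2 := p_wQ_26_wN_1_rb8033080e202bx2

theorem g_wQ_26_wN_1_rb8033080e202ax2 : GoodKC AS c_wQ_26_wN_1_rb8033080e202ax2 := p_wQ_26_wN_1_rb8033080e202ax2

theorem g__wQ_26_wN_1_rb8033080e2029x2_2 : GoodKC AS k_wQ_26_wN_1_rb8033080e2029x2_2 := p_wQ_26_wN_1_rb8033080e2029x2_2

theorem g__wQ_26_wN_1_rb8033080e2029x2_1 : GoodKC AS k_wQ_26_wN_1_rb8033080e2029x2_1 := p_wQ_26_wN_1_rb8033080e2029x2_1 g__wQ_26_wN_1_rb8033080e2029x2_2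

theorem g__wQ_26_wN_1_rb8033080e2029x2_5 : GoodKC AS k_wQ_26_wN_1_rb8033080e2029x2_5 := p_wQ_26_wN_1_rb8033080e2029x2_5

theorem g__wQ_26_wN_1_rb8033080e2029x2_4 : GoodKC AS k_wQ_26_wN_1_rb8033080e2029x2_4 := p_wQ_26_wN_1_rb8033080e2029x2_4 g__wQ_26_wN_1_rb8033080e2029x2_5

theorem g__wQ_26_wN_1_rb8033080e2029x2_3 : GoodKC AS k_wQ_26_wN_1_rb8033080e2029x2_3 := p_wQ_26_wN_1_rb8033080e2029x2_3 g__wQ_26_wN_1_rb8033080e2029x2_4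

theorem g__wQ_26_wN_1_rb8033080e2029x2_0 : GoodKC AS k_wQ_26_wN_1_rb8033080e2029x2_0 := p_wQ_26_wN_1_rb8033080e2029x2_0 g__wQ_26_wN_1_rb8033080e2029x2_1 g__wQ_26_wN_1_rb8033080e2029x2_3

theorem g_wQ_26_wN_1_rb8033080e2029x2 : GoodKC AS c_wQ_26_wN_1_rb8033080e2029x2 := p_wQ_26_wN_1_rb8033080e2029x2 g__wQ_26_wN_1_rb8033080e2029x2_0

theorem g_wQ_26_wN_1_rb8033080e2026x2 : GoodKC AS c_wQ_26_wN_1_rb8033080e2026x2 := p_wQ_26_wN_1_rb8033080e2026x2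

theorem g_wQ_26_wN_1_rb8033080e2021x2 : GoodKC AS c_wQ_26_wN_1_rb8033080e2021x2 := p_wQ_26_wN_1_rb8033080e2021x2

theorem g_wQ_26_wN_1_rb8033080e2020x2 : GoodKC AS c_wQ_26_wN_1_rb8033080e2020x2 := p_wQ_26_wN_1_rb8033080e2020x2

theorem g_wQ_26_wN_1_rb8033080e201dx2 : GoodKC AS c_wQ_26_wN_1_rb8033080e201dx2 := p_wQ_26_wN_1_rb8033080e201dx2

theorem g_wQ_26_wN_1_rb8033080e201bx2 : GoodKC AS c_wQ_26_wN_1_rb8033080e201bx2 := p_wQ_26_wN_1_rb8033080e201bx2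

theorem g_wQ_26_wN_1_rb8033080e201ax2 : GoodKC AS c_wQ_26_wN_1_rb8033080e201ax2 := p_wQ_26_wN_1_rb8033080e201ax2

theorem g__wQ_26_wN_1_rb8033080e2019x2_0 : GoodKC AS k_wQ_26_wN_1_rb8033080e2019x2_0 := p_wQ_26_wN_1_rb8033080e2019x2_0

theorem g_wQ_26_wN_1_rb8033080e2019x2 : GoodKC AS c_wQ_26_wN_1_rb8033080e2019x2 := p_wQ_26_wN_1_rb8033080e2019x2 g__wQ_26_wN_1_rb8033080e2019x2_0

theorem g_wQ_26_wN_1_rb8033080e2016x2 : GoodKC AS c_wQ_26_wN_1_rb8033080e2016x2 := p_wQ_26_wN_1_rb8033080e2016x2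

theorem g_wQ_26_wN_1_rb8033080e2015x2 : GoodKC AS c_wQ_26_wN_1_rb8033080e2015x2 := p_wQ_26_wN_1_rb8033080e2015x2

theorem g_wQ_26_wN_1_rb8033080e2014x2 : GoodKC AS c_wQ_26_wN_1_rb8033080e2014x2 := p_wQ_26_wN_1_rb8033080e2014x2

theorem g_wQ_26_wN_1_rb8033080e2011x2 : GoodKC AS c_wQ_26_wN_1_rb8033080e2011x2 := p_wQ_26_wN_1_rb8033080e2011x2

theorem g_wQ_26_wN_1_rb8033080e2010x2 : GoodKC AS c_wQ_26_wN_1_rb8033080e2010x2 := p_wQ_26_wN_1_rb8033080e2010x2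

theorem g_wQ_26_wN_1_rb8033080e200fx2 : GoodKC AS c_wQ_26_wN_1_rb8033080e200fx2 := p_wQ_26_wN_1_rb8033080e200fx2

theorem g_wQ_26_wN_1_rb8033080e200ex2 : GoodKC AS c_wQ_26_wN_1_rb8033080e200ex2 := p_wQ_26_wN_1_rb8033080e200ex2

theorem g_wQ_26_wN_1_rb8033080e200dx2 : GoodKC AS c_wQ_26_wN_1_rb8033080e200dx2 := p_wQ_26_wN_1_rb8033080e200dx2

theorem g_wQ_26_wN_1_rb8033080e200bx2 : GoodKC AS c_wQ_26_wN_1_rb8033080e200bx2 := p_wQ_26_wN_1_rb8033080e200bx2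

theorem g_wQ_26_wN_1_rb8033080e2005x2 : GoodKC AS c_wQ_26_wN_1_rb8033080e2005x2 := p_wQ_26_wN_1_rb8033080e2005x2

theorem g_wQ_26_wN_1_rb8033080e2003x2 : GoodKC AS c_wQ_26_wN_1_rb8033080e2003x2 := p_wQ_26_wN_1_rb8033080e2003x2

theorem g_wQ_26_wN_1_rb8033080e2002x2 : GoodKC AS c_wQ_26_wN_1_rb8033080e2002x2 := p_wQ_26_wN_1_rb8033080e2002x2

theorem g_wQ_26_wN_1_rb8033080e2000x2 : GoodKC AS c_wQ_26_wN_1_rb8033080e2000x2 := p_wQ_26_wN_1_rb8033080e2000x2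

theorem g_wQ_26_wN_1_rb8033080e2001x2 : GoodKC AS c_wQ_26_wN_1_rb8033080e2001x2 := p_wQ_26_wN_1_rb8033080e2001x2

theorem g_wQ_26_wN_1_rb8033080e2004x2 : GoodKC AS c_wQ_26_wN_1_rb8033080e2004x2 := p_wQ_26_wN_1_rb8033080e2004x2

theorem g_wQ_26_wN_1_rb8033080e2006x2 : GoodKC AS c_wQ_26_wN_1_rb8033080e2006x2 := p_wQ_26_wN_1_rb8033080e2006x2

theorem g_wQ_26_wN_1_rb8033080e2007x2 : GoodKC AS c_wQ_26_wN_1_rb8033080e2007x2 := p_wQ_26_wN_1_rb8033080e2007x2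

theorem g_wQ_26_wN_1_rb8033080e2008x2 : GoodKC AS c_wQ_26_wN_1_rb8033080e2008x2 := p_wQ_26_wN_1_rb8033080e2008x2

theorem g_wQ_26_wN_1_rb8033080e2009x2 : GoodKC AS c_wQ_26_wN_1_rb8033080e2009x2 := p_wQ_26_wN_1_rb8033080e2009x2

theorem g__wQ_26_wN_1_rb8033080e200ax2_0 : GoodKC AS k_wQ_26_wN_1_rb8033080e200ax2_0 := p_wQ_26_wN_1_rb8033080e200ax2_0

theorem g_wQ_26_wN_1_rb8033080e200ax2 : GoodKC AS c_wQ_26_wN_1_rb8033080e200ax2 := p_wQ_26_wN_1_rb8033080e200ax2 g__wQ_26_wN_1_rb8033080e200ax2_0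

theorem g_wQ_26_wN_1_rb8033080e200cx2 : GoodKC AS c_wQ_26_wN_1_rb8033080e200cx2 := p_wQ_26_wN_1_rb8033080e200cx2

theorem g_wQ_26_wN_1_rb8033080e2012x2 : GoodKC AS c_wQ_26_wN_1_rb8033080e2012x2 := p_wQ_26_wN_1_rb8033080e2012x2

theorem g_wQ_26_wN_1_rb8033080e2013x2 : GoodKC AS c_wQ_26_wN_1_rb8033080e2013x2 := p_wQ_26_wN_1_rb8033080e2013x2

theorem g__wQ_26_wN_1_rb8033080e2017x2_1 : GoodKC AS k_wQ_26_wN_1_rb8033080e2017x2_1 := p_wQ_26_wN_1_rb8033080e2017x2_1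

theorem g__wQ_26_wN_1_rb8033080e2017x2_0 : GoodKC AS k_wQ_26_wN_1_rb8033080e2017x2_0 := p_wQ_26_wN_1_rb8033080e2017x2_0 g__wQ_26_wN_1_rb8033080e2017x2_1

theorem g_wQ_26_wN_1_rb8033080e2017x2 : GoodKC AS c_wQ_26_wN_1_rb8033080e2017x2 := p_wQ_26_wN_1_rb8033080e2017x2 g__wQ_26_wN_1_rb8033080e2017x2_0

theorem g__wQ_26_wN_1_rb8033080e2018x2_0 : GoodKC AS k_wQ_26_wN_1_rb8033080e2018x2_0 := p_wQ_26_wN_1_rb8033080e2018x2_0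

theorem g_wQ_26_wN_1_rb8033080e2018x2 : GoodKC AS c_wQ_26_wN_1_rb8033080e2018x2 := p_wQ_26_wN_1_rb8033080e2018x2 g__wQ_26_wN_1_rb8033080e2018x2_0

theorem g_wQ_26_wN_1_rb8033080e201cx2 : GoodKC AS c_wQ_26_wN_1_rb8033080e201cx2 := p_wQ_26_wN_1_rb8033080e201cx2

theorem g_wQ_26_wN_1_rb8033080e201ex2 : GoodKC AS c_wQ_26_wN_1_rb8033080e201ex2 := p_wQ_26_wN_1_rb8033080e201ex2

theorem g_wQ_26_wN_1_rb8033080e201fx2 : GoodKC AS c_wQ_26_wN_1_rb8033080e201fx2 := p_wQ_26_wN_1_rb8033080e201fx2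

theorem g_wQ_26_wN_1_rb8033080e2022x2 : GoodKC AS c_wQ_26_wN_1_rb8033080e2022x2 := p_wQ_26_wN_1_rb8033080e2022x2

theorem g_wQ_26_wN_1_rb8033080e2023x2 : GoodKC AS c_wQ_26_wN_1_rb8033080e2023x2 := p_wQ_26_wN_1_rb8033080e2023x2

theorem g_wQ_26_wN_1_rb8033080e2024x2 : GoodKC AS c_wQ_26_wN_1_rb8033080e2024x2 := p_wQ_26_wN_1_rb8033080e2024x2

theorem g_wQ_26_wN_1_rb8033080e2025x2 : GoodKC AS c_wQ_26_wN_1_rb8033080e2025x2 := p_wQ_26_wN_1_rb8033080e2025x2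

theorem g_wQ_26_wN_1_rb8033080e2027x2 : GoodKC AS c_wQ_26_wN_1_rb8033080e2027x2 := p_wQ_26_wN_1_rb8033080e2027x2

theorem g_wQ_26_wN_1_rb8033080e2028x2 : GoodKC AS c_wQ_26_wN_1_rb8033080e2028x2 := p_wQ_26_wN_1_rb8033080e2028x2

theorem g_wQ_26_wN_1_rb8033080e202cx2 : GoodKC AS c_wQ_26_wN_1_rb8033080e202cx2 := p_wQ_26_wN_1_rb8033080e202cx2

theorem g_wQ_26_wN_1_rb8033080e202ex2 : GoodKC AS c_wQ_26_wN_1_rb8033080e202ex2 := p_wQ_26_wN_1_rb8033080e202ex2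

theorem g_wQ_26_wN_1_rb8033080e202fx2 : GoodKC AS c_wQ_26_wN_1_rb8033080e202fx2 := p_wQ_26_wN_1_rb8033080e202fx2

theorem g_wQ_26_wN_1_rb8033080e2031x2 : GoodKC AS c_wQ_26_wN_1_rb8033080e2031x2 := p_wQ_26_wN_1_rb8033080e2031x2

theorem g_wQ_26_wN_1_rb8033080e2033x2 : GoodKC AS c_wQ_26_wN_1_rb8033080e2033x2 := p_wQ_26_wN_1_rb8033080e2033x2

theorem g__wQ_26_wN_1_rb8033080e20v2_4 : GoodKC AS k_wQ_26_wN_1_rb8033080e20v2_4 := p_wQ_26_wN_1_rb8033080e20v2_4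

theorem g__wQ_26_wN_1_rb8033080e20v2_8 : GoodKC AS k_wQ_26_wN_1_rb8033080e20v2_8 := p_wQ_26_wN_1_rb8033080e20v2_8

theorem g__wQ_26_wN_1_rb8033080e20v2_13 : GoodKC AS k_wQ_26_wN_1_rb8033080e20v2_13 := p_wQ_26_wN_1_rb8033080e20v2_13

theorem g__wQ_26_wN_1_rb8033080e20v2_15 : GoodKC AS k_wQ_26_wN_1_rb8033080e20v2_15 := p_wQ_26_wN_1_rb8033080e20v2_15

theorem g__wQ_26_wN_1_rb8033080e20v2_14 : GoodKC AS k_wQ_26_wN_1_rb8033080e20v2_14 := p_wQ_26_wN_1_rb8033080e20v2_14 g__wQ_26_wN_1_rb8033080e20v2_15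

theorem g__wQ_26_wN_1_rb8033080e20v2_12 : GoodKC AS k_wQ_26_wN_1_rb8033080e20v2_12 := p_wQ_26_wN_1_rb8033080e20v2_12 g__wQ_26_wN_1_rb8033080e20v2_13 g__wQ_26_wN_1_rb8033080e20v2_14

theorem g__wQ_26_wN_1_rb8033080e20v2_11 : GoodKC AS k_wQ_26_wN_1_rb8033080e20v2_11 := p_wQ_26_wN_1_rb8033080e20v2_11 g__wQ_26_wN_1_rb8033080e20v2_12

theorem g__wQ_26_wN_1_rb8033080e20v2_10 : GoodKC AS k_wQ_26_wN_1_rb8033080e20v2_10 := p_wQ_26_wN_1_rb8033080e20v2_10 g__wQ_26_wN_1_rb8033080e20v2_11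

theorem g__wQ_26_wN_1_rb8033080e20v2_9 : GoodKC AS k_wQ_26_wN_1_rb8033080e20v2_9 := p_wQ_26_wN_1_rb8033080e20v2_9 g__wQ_26_wN_1_rb8033080e20v2_10

theorem g__wQ_26_wN_1_rb8033080e20v2_7 : GoodKC AS k_wQ_26_wN_1_rb8033080e20v2_7 := p_wQ_26_wN_1_rb8033080e20v2_7 g__wQ_26_wN_1_rb8033080e20v2_8 g__wQ_26_wN_1_rb8033080e20v2_9

theorem g__wQ_26_wN_1_rb8033080e20v2_6 : GoodKC AS k_wQ_26_wN_1_rb8033080e20v2_6 := p_wQ_26_wN_1_rb8033080e20v2_6 g__wQ_26_wN_1_rb8033080e20v2_7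

theorem g__wQ_26_wN_1_rb8033080e20v2_17 : GoodKC AS k_wQ_26_wN_1_rb8033080e20v2_17 := p_wQ_26_wN_1_rb8033080e20v2_17

theorem g__wQ_26_wN_1_rb8033080e20v2_16 : GoodKC AS k_wQ_26_wN_1_rb8033080e20v2_16 := p_wQ_26_wN_1_rb8033080e20v2_16 g__wQ_26_wN_1_rb8033080e20v2_17

theorem g__wQ_26_wN_1_rb8033080e20v2_5 : GoodKC AS k_wQ_26_wN_1_rb8033080e20v2_5 := p_wQ_26_wN_1_rb8033080e20v2_5 g__wQ_26_wN_1_rb8033080e20v2_6 g__wQ_26_wN_1_rb8033080e20v2_16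

theorem g__wQ_26_wN_1_rb8033080e20v2_3 : GoodKC AS k_wQ_26_wN_1_rb8033080e20v2_3 := p_wQ_26_wN_1_rb8033080e20v2_3 g__wQ_26_wN_1_rb8033080e20v2_4 g__wQ_26_wN_1_rb8033080e20v2_5

theorem g__wQ_26_wN_1_rb8033080e20v2_2 : GoodKC AS k_wQ_26_wN_1_rb8033080e20v2_2 := p_wQ_26_wN_1_rb8033080e20v2_2 g__wQ_26_wN_1_rb8033080e20v2_3

theorem g__wQ_26_wN_1_rb8033080e20v2_1 : GoodKC AS k_wQ_26_wN_1_rb8033080e20v2_1 := p_wQ_26_wN_1_rb8033080e20v2_1 g__wQ_26_wN_1_rb8033080e20v2_2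

theorem g__wQ_26_wN_1_rb8033080e20v2_0 : GoodKC AS k_wQ_26_wN_1_rb8033080e20v2_0 := p_wQ_26_wN_1_rb8033080e20v2_0 g__wQ_26_wN_1_rb8033080e20v2_1

theorem g_wQ_26_wN_1_rb8033080e2035x2 : GoodKC AS c_wQ_26_wN_1_rb8033080e2035x2 := p_wQ_26_wN_1_rb8033080e2035x2

theorem g_wQ_26_wN_1_rb8033080e203cx2 : GoodKC AS c_wQ_26_wN_1_rb8033080e203cx2 := p_wQ_26_wN_1_rb8033080e203cx2

theorem g_wQ_26_wN_1_rb8033080e203dx2 : GoodKC AS c_wQ_26_wN_1_rb8033080e203dx2 := p_wQ_26_wN_1_rb8033080e203dx2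

theorem g_wQ_26_wN_1_rb8033080e204138x2 : GoodKC AS c_wQ_26_wN_1_rb8033080e204138x2 := p_wQ_26_wN_1_rb8033080e204138x1

theorem g_wQ_26_wN_1_rb8033080e204137x2 : GoodKC AS c_wQ_26_wN_1_rb8033080e204137x2 := p_wQ_26_wN_1_rb8033080e204137x1

theorem g_wQ_26_wN_1_rb8033080e204136x2 : GoodKC AS c_wQ_26_wN_1_rb8033080e204136x2 := p_wQ_26_wN_1_rb8033080e204136x1

theorem g_wQ_26_wN_1_rb8033080e204134x2 : GoodKC AS c_wQ_26_wN_1_rb8033080e204134x2 := p_wQ_26_wN_1_rb8033080e204134x1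

theorem g_wQ_26_wN_1_rb8033080e204133x2 : GoodKC AS c_wQ_26_wN_1_rb8033080e204133x2 := p_wQ_26_wN_1_rb8033080e204133x1

theorem g__wQ_26_wN_1_rb8033080e204132x1_0 : GoodKC AS k_wQ_26_wN_1_rb8033080e204132x1_0 := p_wQ_26_wN_1_rb8033080e204132x1_0

theorem g_wQ_26_wN_1_rb8033080e204132x2 : GoodKC AS c_wQ_26_wN_1_rb8033080e204132x2 := p_wQ_26_wN_1_rb8033080e204132x1 g__wQ_26_wN_1_rb8033080e204132x1_0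

theorem g_wQ_26_wN_1_rb8033080e204131x2 : GoodKC AS c_wQ_26_wN_1_rb8033080e204131x2 := p_wQ_26_wN_1_rb8033080e204131x1

theorem g_wQ_26_wN_1_rb8033080e204130x2 : GoodKC AS c_wQ_26_wN_1_rb8033080e204130x2 := p_wQ_26_wN_1_rb8033080e204130x1

theorem g_wQ_26_wN_1_rb8033080e20412ex2 : GoodKC AS c_wQ_26_wN_1_rb8033080e20412ex2 := p_wQ_26_wN_1_rb8033080e20412ex1

theorem g_wQ_26_wN_1_rb8033080e20412dx2 : GoodKC AS c_wQ_26_wN_1_rb8033080e20412dx2 := p_wQ_26_wN_1_rb8033080e20412dx1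

theorem g_wQ_26_wN_1_rb8033080e20412cx2 : GoodKC AS c_wQ_26_wN_1_rb8033080e20412cx2 := p_wQ_26_wN_1_rb8033080e20412cx1

theorem g__wQ_26_wN_1_rb8033080e20412bx1_0 : GoodKC AS k_wQ_26_wN_1_rb8033080e20412bx1_0 := p_wQ_26_wN_1_rb8033080e20412bx1_0

theorem g_wQ_26_wN_1_rb8033080e20412bx2 : GoodKC AS c_wQ_26_wN_1_rb8033080e20412bx2 := p_wQ_26_wN_1_rb8033080e20412bx1 g__wQ_26_wN_1_rb8033080e20412bx1_0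

theorem g_wQ_26_wN_1_rb8033080e204129x2 : GoodKC AS c_wQ_26_wN_1_rb8033080e204129x2 := p_wQ_26_wN_1_rb8033080e204129x1

theorem g__wQ_26_wN_1_rb8033080e204124x1_0 : GoodKC AS k_wQ_26_wN_1_rb8033080e204124x1_0 := p_wQ_26_wN_1_rb8033080e204124x1_0

theorem g_wQ_26_wN_1_rb8033080e204124x2 : GoodKC AS c_wQ_26_wN_1_rb8033080e204124x2 := p_wQ_26_wN_1_rb8033080e204124x1 g__wQ_26_wN_1_rb8033080e204124x1_0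

theorem g_wQ_26_wN_1_rb8033080e204123x2 : GoodKC AS c_wQ_26_wN_1_rb8033080e204123x2 := p_wQ_26_wN_1_rb8033080e204123x1

theorem g_wQ_26_wN_1_rb8033080e204122x2 : GoodKC AS c_wQ_26_wN_1_rb8033080e204122x2 := p_wQ_26_wN_1_rb8033080e204122x1

theorem g_wQ_26_wN_1_rb8033080e204120x2 : GoodKC AS c_wQ_26_wN_1_rb8033080e204120x2 := p_wQ_26_wN_1_rb8033080e204120x2

theorem g_wQ_26_wN_1_rb8033080e204118x2 : GoodKC AS c_wQ_26_wN_1_rb8033080e204118x2 := p_wQ_26_wN_1_rb8033080e204118x2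

theorem g_wQ_26_wN_1_rb8033080e204116x2 : GoodKC AS c_wQ_26_wN_1_rb8033080e204116x2 := p_wQ_26_wN_1_rb8033080e204116x2

theorem g_wQ_26_wN_1_rb8033080e204113x2 : GoodKC AS c_wQ_26_wN_1_rb8033080e204113x2 := p_wQ_26_wN_1_rb8033080e204113x2

theorem g__wQ_26_wN_1_rb8033080e204112x2_0 : GoodKC AS k_wQ_26_wN_1_rb8033080e204112x2_0 := p_wQ_26_wN_1_rb8033080e204112x2_0

theorem g_wQ_26_wN_1_rb8033080e204112x2 : GoodKC AS c_wQ_26_wN_1_rb8033080e204112x2 := p_wQ_26_wN_1_rb8033080e204112x2 g__wQ_26_wN_1_rb8033080e204112x2_0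

theorem g__wQ_26_wN_1_rb8033080e204111x2_0 : GoodKC AS k_wQ_26_wN_1_rb8033080e204111x2_0 := p_wQ_26_wN_1_rb8033080e204111x2_0

theorem g_wQ_26_wN_1_rb8033080e204111x2 : GoodKC AS c_wQ_26_wN_1_rb8033080e204111x2 := p_wQ_26_wN_1_rb8033080e204111x2 g__wQ_26_wN_1_rb8033080e204111x2_0

theorem g__wQ_26_wN_1_rb8033080e204110v2_3 : GoodKC AS k_wQ_26_wN_1_rb8033080e204110v2_3 := p_wQ_26_wN_1_rb8033080e204110v2_3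

theorem g__wQ_26_wN_1_rb8033080e204110v2_2 : GoodKC AS k_wQ_26_wN_1_rb8033080e204110v2_2 := p_wQ_26_wN_1_rb8033080e204110v2_2 g__wQ_26_wN_1_rb8033080e204110v2_3

theorem g__wQ_26_wN_1_rb8033080e204110v2_1 : GoodKC AS k_wQ_26_wN_1_rb8033080e204110v2_1 := p_wQ_26_wN_1_rb8033080e204110v2_1 g__wQ_26_wN_1_rb8033080e204110v2_2

theorem g__wQ_26_wN_1_rb8033080e204110v2_0 : GoodKC AS k_wQ_26_wN_1_rb8033080e204110v2_0 := p_wQ_26_wN_1_rb8033080e204110v2_0 g__wQ_26_wN_1_rb8033080e204110v2_1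

theorem g_wQ_26_wN_1_rb8033080e204110x2 : GoodKC AS c_wQ_26_wN_1_rb8033080e204110x2 := p_wQ_26_wN_1_rb8033080e204110x2 g__wQ_26_wN_1_rb8033080e204110v2_0

theorem g_wQ_26_wN_1_rb8033080e20410fx2 : GoodKC AS c_wQ_26_wN_1_rb8033080e20410fx2 := p_wQ_26_wN_1_rb8033080e20410fx2

theorem g_wQ_26_wN_1_rb8033080e20410ex2 : GoodKC AS c_wQ_26_wN_1_rb8033080e20410ex2 := p_wQ_26_wN_1_rb8033080e20410ex2

theorem g_wQ_26_wN_1_rb8033080e20410cx2 : GoodKC AS c_wQ_26_wN_1_rb8033080e20410cx2 := p_wQ_26_wN_1_rb8033080e20410cx2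

theorem g_wQ_26_wN_1_rb8033080e20410ax2 : GoodKC AS c_wQ_26_wN_1_rb8033080e20410ax2 := p_wQ_26_wN_1_rb8033080e20410ax2

theorem g_wQ_26_wN_1_rb8033080e204107x2 : GoodKC AS c_wQ_26_wN_1_rb8033080e204107x2 := p_wQ_26_wN_1_rb8033080e204107x2

theorem g_wQ_26_wN_1_rb8033080e204104x2 : GoodKC AS c_wQ_26_wN_1_rb8033080e204104x2 := p_wQ_26_wN_1_rb8033080e204104x2

theorem g_wQ_26_wN_1_rb8033080e204101x2 : GoodKC AS c_wQ_26_wN_1_rb8033080e204101x2 := p_wQ_26_wN_1_rb8033080e204101x2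

theorem g__wQ_26_wN_1_rb8033080e204100v2_1 : GoodKC AS k_wQ_26_wN_1_rb8033080e204100v2_1 := p_wQ_26_wN_1_rb8033080e204100v2_1

theorem g__wQ_26_wN_1_rb8033080e204100v2_0 : GoodKC AS k_wQ_26_wN_1_rb8033080e204100v2_0 := p_wQ_26_wN_1_rb8033080e204100v2_0 g__wQ_26_wN_1_rb8033080e204100v2_1

theorem g_wQ_26_wN_1_rb8033080e204100x2 : GoodKC AS c_wQ_26_wN_1_rb8033080e204100x2 := p_wQ_26_wN_1_rb8033080e204100x2 g__wQ_26_wN_1_rb8033080e204100v2_0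

theorem g_wQ_26_wN_1_rb8033080e204102x2 : GoodKC AS c_wQ_26_wN_1_rb8033080e204102x2 := p_wQ_26_wN_1_rb8033080e204102x2

theorem g_wQ_26_wN_1_rb8033080e204103x2 : GoodKC AS c_wQ_26_wN_1_rb8033080e204103x2 := p_wQ_26_wN_1_rb8033080e204103x2

theorem g_wQ_26_wN_1_rb8033080e204105x2 : GoodKC AS c_wQ_26_wN_1_rb8033080e204105x2 := p_wQ_26_wN_1_rb8033080e204105x2

theorem g_wQ_26_wN_1_rb8033080e204106x2 : GoodKC AS c_wQ_26_wN_1_rb8033080e204106x2 := p_wQ_26_wN_1_rb8033080e204106x2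

theorem g_wQ_26_wN_1_rb8033080e204108x2 : GoodKC AS c_wQ_26_wN_1_rb8033080e204108x2 := p_wQ_26_wN_1_rb8033080e204108x2

theorem g_wQ_26_wN_1_rb8033080e204109x2 : GoodKC AS c_wQ_26_wN_1_rb8033080e204109x2 := p_wQ_26_wN_1_rb8033080e204109x2

theorem g_wQ_26_wN_1_rb8033080e20410bx2 : GoodKC AS c_wQ_26_wN_1_rb8033080e20410bx2 := p_wQ_26_wN_1_rb8033080e20410bx2

theorem g_wQ_26_wN_1_rb8033080e20410dx2 : GoodKC AS c_wQ_26_wN_1_rb8033080e20410dx2 := p_wQ_26_wN_1_rb8033080e20410dx2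

theorem g__wQ_26_wN_1_rb8033080e2041x2_1 : GoodKC AS k_wQ_26_wN_1_rb8033080e2041x2_1 := p_wQ_26_wN_1_rb8033080e2041x2_1

theorem g__wQ_26_wN_1_rb8033080e2041x2_2 : GoodKC AS k_wQ_26_wN_1_rb8033080e2041x2_2 := p_wQ_26_wN_1_rb8033080e2041x2_2

theorem g__wQ_26_wN_1_rb8033080e2041x2_4 : GoodKC AS k_wQ_26_wN_1_rb8033080e2041x2_4 := p_wQ_26_wN_1_rb8033080e2041x2_4

theorem g__wQ_26_wN_1_rb8033080e2041x2_7 : GoodKC AS k_wQ_26_wN_1_rb8033080e2041x2_7 := p_wQ_26_wN_1_rb8033080e2041x2_7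

theorem g__wQ_26_wN_1_rb8033080e2041x2_6 : GoodKC AS k_wQ_26_wN_1_rb8033080e2041x2_6 := p_wQ_26_wN_1_rb8033080e2041x2_6 g__wQ_26_wN_1_rb8033080e2041x2_7

theorem g__wQ_26_wN_1_rb8033080e2041x2_8 : GoodKC AS k_wQ_26_wN_1_rb8033080e2041x2_8 := p_wQ_26_wN_1_rb8033080e2041x2_8

theorem g__wQ_26_wN_1_rb8033080e2041x2_5 : GoodKC AS k_wQ_26_wN_1_rb8033080e2041x2_5 := p_wQ_26_wN_1_rb8033080e2041x2_5 g__wQ_26_wN_1_rb8033080e2041x2_6 g__wQ_26_wN_1_rb8033080e2041x2_8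

theorem g__wQ_26_wN_1_rb8033080e2041x2_10 : GoodKC AS k_wQ_26_wN_1_rb8033080e2041x2_10 := p_wQ_26_wN_1_rb8033080e2041x2_10

theorem g__wQ_26_wN_1_rb8033080e2041x2_9 : GoodKC AS k_wQ_26_wN_1_rb8033080e2041x2_9 := p_wQ_26_wN_1_rb8033080e2041x2_9 g__wQ_26_wN_1_rb8033080e2041x2_10

theorem g__wQ_26_wN_1_rb8033080e2041x2_3 : GoodKC AS k_wQ_26_wN_1_rb8033080e2041x2_3 := p_wQ_26_wN_1_rb8033080e2041x2_3 g__wQ_26_wN_1_rb8033080e2041x2_4 g__wQ_26_wN_1_rb8033080e2041x2_5 g__wQ_26_wN_1_rb8033080e2041x2_9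

theorem g_wQ_26_wN_1_rb8033080e204114x2 : GoodKC AS c_wQ_26_wN_1_rb8033080e204114x2 := p_wQ_26_wN_1_rb8033080e204114x2

theorem g__wQ_26_wN_1_rb8033080e204115x2_0 : GoodKC AS k_wQ_26_wN_1_rb8033080e204115x2_0 := p_wQ_26_wN_1_rb8033080e204115x2_0

theorem g_wQ_26_wN_1_rb8033080e20411509x2 : GoodKC AS c_wQ_26_wN_1_rb8033080e20411509x2 := p_wQ_26_wN_1_rb8033080e20411509x1

theorem g_wQ_26_wN_1_rb8033080e20411506x2 : GoodKC AS c_wQ_26_wN_1_rb8033080e20411506x2 := p_wQ_26_wN_1_rb8033080e20411506x1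

theorem g__wQ_26_wN_1_rb8033080e204115x2_4 : GoodKC AS k_wQ_26_wN_1_rb8033080e204115x2_4 := p_wQ_26_wN_1_rb8033080e204115x2_4

theorem g__wQ_26_wN_1_rb8033080e204115x2_3 : GoodKC AS k_wQ_26_wN_1_rb8033080e204115x2_3 := p_wQ_26_wN_1_rb8033080e204115x2_3 g__wQ_26_wN_1_rb8033080e204115x2_4

theorem g__wQ_26_wN_1_rb8033080e204115x2_9 : GoodKC AS k_wQ_26_wN_1_rb8033080e204115x2_9 := p_wQ_26_wN_1_rb8033080e204115x2_9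

theorem g__wQ_26_wN_1_rb8033080e204115x2_13 : GoodKC AS k_wQ_26_wN_1_rb8033080e204115x2_13 := p_wQ_26_wN_1_rb8033080e204115x2_13

theorem g__wQ_26_wN_1_rb8033080e204115x2_12 : GoodKC AS k_wQ_26_wN_1_rb8033080e204115x2_12 := p_wQ_26_wN_1_rb8033080e204115x2_12 g__wQ_26_wN_1_rb8033080e204115x2_13

theorem g__wQ_26_wN_1_rb8033080e204115x2_11 : GoodKC AS k_wQ_26_wN_1_rb8033080e204115x2_11 := p_wQ_26_wN_1_rb8033080e204115x2_11 g__wQ_26_wN_1_rb8033080e204115x2_12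

theorem g__wQ_26_wN_1_rb8033080e204115x2_10 : GoodKC AS k_wQ_26_wN_1_rb8033080e204115x2_10 := p_wQ_26_wN_1_rb8033080e204115x2_10 g__wQ_26_wN_1_rb8033080e204115x2_11

theorem g__wQ_26_wN_1_rb8033080e204115x2_17 : GoodKC AS k_wQ_26_wN_1_rb8033080e204115x2_17 := p_wQ_26_wN_1_rb8033080e204115x2_17

theorem g__wQ_26_wN_1_rb8033080e204115x2_16 : GoodKC AS k_wQ_26_wN_1_rb8033080e204115x2_16 := p_wQ_26_wN_1_rb8033080e204115x2_16 g__wQ_26_wN_1_rb8033080e204115x2_17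

theorem g__wQ_26_wN_1_rb8033080e204115x2_15 : GoodKC AS k_wQ_26_wN_1_rb8033080e204115x2_15 := p_wQ_26_wN_1_rb8033080e204115x2_15 g__wQ_26_wN_1_rb8033080e204115x2_16

theorem g__wQ_26_wN_1_rb8033080e204115x2_14 : GoodKC AS k_wQ_26_wN_1_rb8033080e204115x2_14 := p_wQ_26_wN_1_rb8033080e204115x2_14 g__wQ_26_wN_1_rb8033080e204115x2_15

theorem g__wQ_26_wN_1_rb8033080e204115x2_21 : GoodKC AS k_wQ_26_wN_1_rb8033080e204115x2_21 := p_wQ_26_wN_1_rb8033080e204115x2_21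

theorem g__wQ_26_wN_1_rb8033080e204115x2_20 : GoodKC AS k_wQ_26_wN_1_rb8033080e204115x2_20 := p_wQ_26_wN_1_rb8033080e204115x2_20 g__wQ_26_wN_1_rb8033080e204115x2_21

theorem g__wQ_26_wN_1_rb8033080e204115x2_19 : GoodKC AS k_wQ_26_wN_1_rb8033080e204115x2_19 := p_wQ_26_wN_1_rb8033080e204115x2_19 g__wQ_26_wN_1_rb8033080e204115x2_20

theorem g__wQ_26_wN_1_rb8033080e204115x2_18 : GoodKC AS k_wQ_26_wN_1_rb8033080e204115x2_18 := p_wQ_26_wN_1_rb8033080e204115x2_18 g__wQ_26_wN_1_rb8033080e204115x2_19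

theorem g__wQ_26_wN_1_rb8033080e204115x2_8 : GoodKC AS k_wQ_26_wN_1_rb8033080e204115x2_8 := p_wQ_26_wN_1_rb8033080e204115x2_8 g__wQ_26_wN_1_rb8033080e204115x2_9 g__wQ_26_wN_1_rb8033080e204115x2_10 g__wQ_26_wN_1_rb8033080e204115x2_14 g__wQ_26_wN_1_rb8033080e204115x2_18

theorem g__wQ_26_wN_1_rb8033080e204115x2_25 : GoodKC AS k_wQ_26_wN_1_rb8033080e204115x2_25 := p_wQ_26_wN_1_rb8033080e204115x2_25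

theorem g__wQ_26_wN_1_rb8033080e204115x2_24 : GoodKC AS k_wQ_26_wN_1_rb8033080e204115x2_24 := p_wQ_26_wN_1_rb8033080e204115x2_24 g__wQ_26_wN_1_rb8033080e204115x2_25

theorem g__wQ_26_wN_1_rb8033080e204115x2_23 : GoodKC AS k_wQ_26_wN_1_rb8033080e204115x2_23 := p_wQ_26_wN_1_rb8033080e204115x2_23 g__wQ_26_wN_1_rb8033080e204115x2_24

theorem g__wQ_26_wN_1_rb8033080e204115x2_22 : GoodKC AS k_wQ_26_wN_1_rb8033080e204115x2_22 := p_wQ_26_wN_1_rb8033080e204115x2_22 g__wQ_26_wN_1_rb8033080e204115x2_23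

theorem g__wQ_26_wN_1_rb8033080e204115x2_7 : GoodKC AS k_wQ_26_wN_1_rb8033080e204115x2_7 := p_wQ_26_wN_1_rb8033080e204115x2_7 g__wQ_26_wN_1_rb8033080e204115x2_8 g__wQ_26_wN_1_rb8033080e204115x2_22

theorem g__wQ_26_wN_1_rb8033080e204115x2_6 : GoodKC AS k_wQ_26_wN_1_rb8033080e204115x2_6 := p_wQ_26_wN_1_rb8033080e204115x2_6 g__wQ_26_wN_1_rb8033080e204115x2_7

theorem g__wQ_26_wN_1_rb8033080e204115x2_5 : GoodKC AS k_wQ_26_wN_1_rb8033080e204115x2_5 := p_wQ_26_wN_1_rb8033080e204115x2_5 g__wQ_26_wN_1_rb8033080e204115x2_6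

theorem g__wQ_26_wN_1_rb8033080e204115x2_2 : GoodKC AS k_wQ_26_wN_1_rb8033080e204115x2_2 := p_wQ_26_wN_1_rb8033080e204115x2_2 g__wQ_26_wN_1_rb8033080e204115x2_3 g__wQ_26_wN_1_rb8033080e204115x2_5

theorem g_wQ_26_wN_1_rb8033080e20411503x2 : GoodKC AS c_wQ_26_wN_1_rb8033080e20411503x2 := p_wQ_26_wN_1_rb8033080e20411503x1

theorem g_wQ_26_wN_1_rb8033080e20411501x2 : GoodKC AS c_wQ_26_wN_1_rb8033080e20411501x2 := p_wQ_26_wN_1_rb8033080e20411501x1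

theorem g_wQ_26_wN_1_rb8033080e20411500x2 : GoodKC AS c_wQ_26_wN_1_rb8033080e20411500x2 := p_wQ_26_wN_1_rb8033080e20411500x1

theorem g__wQ_26_wN_1_rb8033080e204115x2_27 : GoodKC AS k_wQ_26_wN_1_rb8033080e204115x2_27 := p_wQ_26_wN_1_rb8033080e204115x2_27

theorem g_wQ_26_wN_1_rb8033080e20411502x2 : GoodKC AS c_wQ_26_wN_1_rb8033080e20411502x2 := p_wQ_26_wN_1_rb8033080e20411502x1

theorem g__wQ_26_wN_1_rb8033080e204115x2_26 : GoodKC AS k_wQ_26_wN_1_rb8033080e204115x2_26 := p_wQ_26_wN_1_rb8033080e204115x2_26 g_wQ_26_wN_1_rb8033080e20411503x2 g_wQ_26_wN_1_rb8033080e20411501x2 g_wQ_26_wN_1_rb8033080e20411500x2 g__wQ_26_wN_1_rb8033080e204115x2_27 g_wQ_26_wN_1_rb8033080e20411502x2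

theorem g_wQ_26_wN_1_rb8033080e20411504x2 : GoodKC AS c_wQ_26_wN_1_rb8033080e20411504x2 := p_wQ_26_wN_1_rb8033080e20411504x1

theorem g_wQ_26_wN_1_rb8033080e20411505x2 : GoodKC AS c_wQ_26_wN_1_rb8033080e20411505x2 := p_wQ_26_wN_1_rb8033080e20411505x1

theorem g_wQ_26_wN_1_rb8033080e20411507x2 : GoodKC AS c_wQ_26_wN_1_rb8033080e20411507x2 := p_wQ_26_wN_1_rb8033080e20411507x1

theorem g_wQ_26_wN_1_rb8033080e20411508x2 : GoodKC AS c_wQ_26_wN_1_rb8033080e20411508x2 := p_wQ_26_wN_1_rb8033080e20411508x1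

theorem g__wQ_26_wN_1_rb8033080e204115x2_1 : GoodKC AS k_wQ_26_wN_1_rb8033080e204115x2_1 := p_wQ_26_wN_1_rb8033080e204115x2_1 g_wQ_26_wN_1_rb8033080e20411509x2 g_wQ_26_wN_1_rb8033080e20411506x2 g__wQ_26_wN_1_rb8033080e204115x2_2 g__wQ_26_wN_1_rb8033080e204115x2_26 g_wQ_26_wN_1_rb8033080e20411504x2 g_wQ_26_wN_1_rb8033080e20411505x2 g_wQ_26_wN_1_rb8033080e20411507x2 g_wQ_26_wN_1_rb8033080e20411508x2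

theorem g_wQ_26_wN_1_rb8033080e204115x2 : GoodKC AS c_wQ_26_wN_1_rb8033080e204115x2 := p_wQ_26_wN_1_rb8033080e204115x2 g__wQ_26_wN_1_rb8033080e204115x2_0 g__wQ_26_wN_1_rb8033080e204115x2_1

theorem g_wQ_26_wN_1_rb8033080e204117x2 : GoodKC AS c_wQ_26_wN_1_rb8033080e204117x2 := p_wQ_26_wN_1_rb8033080e204117x2

theorem g_wQ_26_wN_1_rb8033080e204119x2 : GoodKC AS c_wQ_26_wN_1_rb8033080e204119x2 := p_wQ_26_wN_1_rb8033080e204119x2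

theorem g_wQ_26_wN_1_rb8033080e20411ax2 : GoodKC AS c_wQ_26_wN_1_rb8033080e20411ax2 := p_wQ_26_wN_1_rb8033080e20411ax2

theorem g_wQ_26_wN_1_rb8033080e20411bx2 : GoodKC AS c_wQ_26_wN_1_rb8033080e20411bx2 := p_wQ_26_wN_1_rb8033080e20411bx2

theorem g_wQ_26_wN_1_rb8033080e20411cx2 : GoodKC AS c_wQ_26_wN_1_rb8033080e20411cx2 := p_wQ_26_wN_1_rb8033080e20411cx2

theorem g_wQ_26_wN_1_rb8033080e20411dx2 : GoodKC AS c_wQ_26_wN_1_rb8033080e20411dx2 := p_wQ_26_wN_1_rb8033080e20411dx2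

theorem g_wQ_26_wN_1_rb8033080e20411ex2 : GoodKC AS c_wQ_26_wN_1_rb8033080e20411ex2 := p_wQ_26_wN_1_rb8033080e20411ex2

theorem g_wQ_26_wN_1_rb8033080e20411fx2 : GoodKC AS c_wQ_26_wN_1_rb8033080e20411fx2 := p_wQ_26_wN_1_rb8033080e20411fx2

theorem g__wQ_26_wN_1_rb8033080e2041x2_0 : GoodKC AS k_wQ_26_wN_1_rb8033080e2041x2_0 := p_wQ_26_wN_1_rb8033080e2041x2_0 g_wQ_26_wN_1_rb8033080e204120x2 g_wQ_26_wN_1_rb8033080e204118x2 g_wQ_26_wN_1_rb8033080e204116x2 g_wQ_26_wN_1_rb8033080e204113x2 g_wQ_26_wN_1_rb8033080e204112x2 g_wQ_26_wN_1_rb8033080e204111x2 g_wQ_26_wN_1_rb8033080e204110x2 g_wQ_26_wN_1_rb8033080e20410fx2 g_wQ_26_wN_1_rb8033080e20410ex2 g_wQ_26_wN_1_rb8033080e20410cx2 g_wQ_26_wN_1_rb8033080e20410ax2 g_wQ_26_wN_1_rb8033080e204107x2 g_wQ_26_wN_1_rb8033080e204104x2 g_wQ_26_wN_1_rb8033080e204101x2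 g_wQ_26_wN_1_rb8033080e204100x2 g_wQ_26_wN_1_rb8033080e204102x2 g_wQ_26_wN_1_rb8033080e204103x2 g_wQ_26_wN_1_rb8033080e204105x2 g_wQ_26_wN_1_rb8033080e204106x2 g_wQ_26_wN_1_rb8033080e204108x2 g_wQ_26_wN_1_rb8033080e204109x2 g_wQ_26_wN_1_rb8033080e20410bx2 g_wQ_26_wN_1_rb8033080e20410dx2 g__wQ_26_wN_1_rb8033080e2041x2_1 g__wQ_26_wN_1_rb8033080e2041x2_2 g__wQ_26_wN_1_rb8033080e2041x2_3 g_wQ_26_wN_1_rb8033080e204114x2 g_wQ_26_wN_1_rb8033080e204115x2 g_wQ_26_wN_1_rb8033080e204117x2 g_wQ_26_wN_1_rb8033080e204119x2 g_wQ_26_wN_1_rb8033080e20411ax2 g_wQ_26_wN_1_rb8033080e20411bx2 g_wQ_26_wN_1_rb8033080e20411cx2 g_wQ_26_wN_1_rb8033080e20411dx2 g_wQ_26_wN_1_rb8033080e20411ex2 g_wQ_26_wN_1_rb8033080e20411fx2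

theorem g__wQ_26_wN_1_rb8033080e2041x2_11 : GoodKC AS k_wQ_26_wN_1_rb8033080e2041x2_11 := p_wQ_26_wN_1_rb8033080e2041x2_11

theorem g_wQ_26_wN_1_rb8033080e204121x2 : GoodKC AS c_wQ_26_wN_1_rb8033080e204121x2 := p_wQ_26_wN_1_rb8033080e204121x1

theorem g__wQ_26_wN_1_rb8033080e204125x1_0 : GoodKC AS k_wQ_26_wN_1_rb8033080e204125x1_0 := p_wQ_26_wN_1_rb8033080e204125x1_0

theorem g_wQ_26_wN_1_rb8033080e204125x2 : GoodKC AS c_wQ_26_wN_1_rb8033080e204125x2 := p_wQ_26_wN_1_rb8033080e204125x1 g__wQ_26_wN_1_rb8033080e204125x1_0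

theorem g__wQ_26_wN_1_rb8033080e204126x1_0 : GoodKC AS k_wQ_26_wN_1_rb8033080e204126x1_0 := p_wQ_26_wN_1_rb8033080e204126x1_0

theorem g_wQ_26_wN_1_rb8033080e204126x2 : GoodKC AS c_wQ_26_wN_1_rb8033080e204126x2 := p_wQ_26_wN_1_rb8033080e204126x1 g__wQ_26_wN_1_rb8033080e204126x1_0

theorem g_wQ_26_wN_1_rb8033080e204127x2 : GoodKC AS c_wQ_26_wN_1_rb8033080e204127x2 := p_wQ_26_wN_1_rb8033080e204127x1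

theorem g_wQ_26_wN_1_rb8033080e204128x2 : GoodKC AS c_wQ_26_wN_1_rb8033080e204128x2 := p_wQ_26_wN_1_rb8033080e204128x1

theorem g_wQ_26_wN_1_rb8033080e20412ax2 : GoodKC AS c_wQ_26_wN_1_rb8033080e20412ax2 := p_wQ_26_wN_1_rb8033080e20412ax1

theorem g_wQ_26_wN_1_rb8033080e20412fx2 : GoodKC AS c_wQ_26_wN_1_rb8033080e20412fx2 := p_wQ_26_wN_1_rb8033080e20412fx1

theorem g_wQ_26_wN_1_rb8033080e204135x2 : GoodKC AS c_wQ_26_wN_1_rb8033080e204135x2 := p_wQ_26_wN_1_rb8033080e204135x1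

theorem g_wQ_26_wN_1_rb8033080e2041x2 : GoodKC AS c_wQ_26_wN_1_rb8033080e2041x2 := p_wQ_26_wN_1_rb8033080e2041x2 g_wQ_26_wN_1_rb8033080e204138x2 g_wQ_26_wN_1_rb8033080e204137x2 g_wQ_26_wN_1_rb8033080e204136x2 g_wQ_26_wN_1_rb8033080e204134x2 g_wQ_26_wN_1_rb8033080e204133x2 g_wQ_26_wN_1_rb8033080e204132x2 g_wQ_26_wN_1_rb8033080e204131x2 g_wQ_26_wN_1_rb8033080e204130x2 g_wQ_26_wN_1_rb8033080e20412ex2 g_wQ_26_wN_1_rb8033080e20412dx2 g_wQ_26_wN_1_rb8033080e20412cx2 g_wQ_26_wN_1_rb8033080e20412bx2 g_wQ_26_wN_1_rb8033080e204129x2 g_wQ_26_wN_1_rb8033080e204124x2 g_wQ_26_wN_1_rb8033080e204123x2 g_wQ_26_wN_1_rb8033080e204122x2 g__wQ_26_wN_1_rb8033080e2041x2_0 g__wQ_26_wN_1_rb8033080e2041x2_11 g_wQ_26_wN_1_rb8033080e204121x2 g_wQ_26_wN_1_rb8033080e204125x2 g_wQ_26_wN_1_rb8033080e204126x2 g_wQ_26_wN_1_rb8033080e204127x2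 g_wQ_26_wN_1_rb8033080e204128x2 g_wQ_26_wN_1_rb8033080e20412ax2 g_wQ_26_wN_1_rb8033080e20412fx2 g_wQ_26_wN_1_rb8033080e204135x2

theorem g_wQ_26_wN_1_rb8033080e2042x2 : GoodKC AS c_wQ_26_wN_1_rb8033080e2042x2 := p_wQ_26_wN_1_rb8033080e2042x2

theorem g__wQ_26_wN_1_rb8033080e2045x2_0 : GoodKC AS k_wQ_26_wN_1_rb8033080e2045x2_0 := p_wQ_26_wN_1_rb8033080e2045x2_0

theorem g__wQ_26_wN_1_rb8033080e2045x2_1 : GoodKC AS k_wQ_26_wN_1_rb8033080e2045x2_1 := p_wQ_26_wN_1_rb8033080e2045x2_1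

theorem g_wQ_26_wN_1_rb8033080e2045x2 : GoodKC AS c_wQ_26_wN_1_rb8033080e2045x2 := p_wQ_26_wN_1_rb8033080e2045x2 g__wQ_26_wN_1_rb8033080e2045x2_0 g__wQ_26_wN_1_rb8033080e2045x2_1

theorem g_wQ_26_wN_1_rb8033080e2048x2 : GoodKC AS c_wQ_26_wN_1_rb8033080e2048x2 := p_wQ_26_wN_1_rb8033080e2048x2

theorem g_wQ_26_wN_1_rb8033080e2049x2 : GoodKC AS c_wQ_26_wN_1_rb8033080e2049x2 := p_wQ_26_wN_1_rb8033080e2049x2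

theorem g__wQ_26_wN_1_rb8033080e204ax2_0 : GoodKC AS k_wQ_26_wN_1_rb8033080e204ax2_0 := p_wQ_26_wN_1_rb8033080e204ax2_0

theorem g__wQ_26_wN_1_rb8033080e204ax2_2 : GoodKC AS k_wQ_26_wN_1_rb8033080e204ax2_2 := p_wQ_26_wN_1_rb8033080e204ax2_2

theorem g__wQ_26_wN_1_rb8033080e204ax2_6 : GoodKC AS k_wQ_26_wN_1_rb8033080e204ax2_6 := p_wQ_26_wN_1_rb8033080e204ax2_6

theorem g__wQ_26_wN_1_rb8033080e204ax2_7 : GoodKC AS k_wQ_26_wN_1_rb8033080e204ax2_7 := p_wQ_26_wN_1_rb8033080e204ax2_7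

theorem g__wQ_26_wN_1_rb8033080e204ax2_8 : GoodKC AS k_wQ_26_wN_1_rb8033080e204ax2_8 := p_wQ_26_wN_1_rb8033080e204ax2_8

theorem g__wQ_26_wN_1_rb8033080e204ax2_9 : GoodKC AS k_wQ_26_wN_1_rb8033080e204ax2_9 := p_wQ_26_wN_1_rb8033080e204ax2_9

theorem g__wQ_26_wN_1_rb8033080e204a00v2_3 : GoodKC AS k_wQ_26_wN_1_rb8033080e204a00v2_3 := p_wQ_26_wN_1_rb8033080e204a00v2_3

theorem g__wQ_26_wN_1_rb8033080e204a00v2_2 : GoodKC AS k_wQ_26_wN_1_rb8033080e204a00v2_2 := p_wQ_26_wN_1_rb8033080e204a00v2_2 g__wQ_26_wN_1_rb8033080e204a00v2_3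

theorem g__wQ_26_wN_1_rb8033080e204a00v2_13 : GoodKC AS k_wQ_26_wN_1_rb8033080e204a00v2_13 := p_wQ_26_wN_1_rb8033080e204a00v2_13

theorem g__wQ_26_wN_1_rb8033080e204a00v2_12 : GoodKC AS k_wQ_26_wN_1_rb8033080e204a00v2_12 := p_wQ_26_wN_1_rb8033080e204a00v2_12 g__wQ_26_wN_1_rb8033080e204a00v2_13

theorem g__wQ_26_wN_1_rb8033080e204a00v2_15 : GoodKC AS k_wQ_26_wN_1_rb8033080e204a00v2_15 := p_wQ_26_wN_1_rb8033080e204a00v2_15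

theorem g__wQ_26_wN_1_rb8033080e204a00v2_14 : GoodKC AS k_wQ_26_wN_1_rb8033080e204a00v2_14 := p_wQ_26_wN_1_rb8033080e204a00v2_14 g__wQ_26_wN_1_rb8033080e204a00v2_15

theorem g__wQ_26_wN_1_rb8033080e204a00v2_11 : GoodKC AS k_wQ_26_wN_1_rb8033080e204a00v2_11 := p_wQ_26_wN_1_rb8033080e204a00v2_11 g__wQ_26_wN_1_rb8033080e204a00v2_12 g__wQ_26_wN_1_rb8033080e204a00v2_14

theorem g__wQ_26_wN_1_rb8033080e204a00v2_10 : GoodKC AS k_wQ_26_wN_1_rb8033080e204a00v2_10 := p_wQ_26_wN_1_rb8033080e204a00v2_10 g__wQ_26_wN_1_rb8033080e204a00v2_11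

theorem g__wQ_26_wN_1_rb8033080e204a00v2_9 : GoodKC AS k_wQ_26_wN_1_rb8033080e204a00v2_9 := p_wQ_26_wN_1_rb8033080e204a00v2_9 g__wQ_26_wN_1_rb8033080e204a00v2_10

theorem g__wQ_26_wN_1_rb8033080e204a00v2_8 : GoodKC AS k_wQ_26_wN_1_rb8033080e204a00v2_8 := p_wQ_26_wN_1_rb8033080e204a00v2_8 g__wQ_26_wN_1_rb8033080e204a00v2_9

theorem g__wQ_26_wN_1_rb8033080e204a00v2_7 : GoodKC AS k_wQ_26_wN_1_rb8033080e204a00v2_7 := p_wQ_26_wN_1_rb8033080e204a00v2_7 g__wQ_26_wN_1_rb8033080e204a00v2_8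

theorem g__wQ_26_wN_1_rb8033080e204a00v2_6 : GoodKC AS k_wQ_26_wN_1_rb8033080e204a00v2_6 := p_wQ_26_wN_1_rb8033080e204a00v2_6 g__wQ_26_wN_1_rb8033080e204a00v2_7

theorem g__wQ_26_wN_1_rb8033080e204a00v2_5 : GoodKC AS k_wQ_26_wN_1_rb8033080e204a00v2_5 := p_wQ_26_wN_1_rb8033080e204a00v2_5 g__wQ_26_wN_1_rb8033080e204a00v2_6

theorem g__wQ_26_wN_1_rb8033080e204a00v2_4 : GoodKC AS k_wQ_26_wN_1_rb8033080e204a00v2_4 := p_wQ_26_wN_1_rb8033080e204a00v2_4 g__wQ_26_wN_1_rb8033080e204a00v2_5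

theorem g__wQ_26_wN_1_rb8033080e204a00v2_1 : GoodKC AS k_wQ_26_wN_1_rb8033080e204a00v2_1 := p_wQ_26_wN_1_rb8033080e204a00v2_1 g__wQ_26_wN_1_rb8033080e204a00v2_2 g__wQ_26_wN_1_rb8033080e204a00v2_4

theorem g__wQ_26_wN_1_rb8033080e204a00v2_0 : GoodKC AS k_wQ_26_wN_1_rb8033080e204a00v2_0 := p_wQ_26_wN_1_rb8033080e204a00v2_0 g__wQ_26_wN_1_rb8033080e204a00v2_1

theorem g__wQ_26_wN_1_rb8033080e204a00v2_16 : GoodKC AS k_wQ_26_wN_1_rb8033080e204a00v2_16 := p_wQ_26_wN_1_rb8033080e204a00v2_16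

theorem g__wQ_26_wN_1_rb8033080e204a00v2_18 : GoodKC AS k_wQ_26_wN_1_rb8033080e204a00v2_18 := p_wQ_26_wN_1_rb8033080e204a00v2_18

theorem g__wQ_26_wN_1_rb8033080e204a00v2_22 : GoodKC AS k_wQ_26_wN_1_rb8033080e204a00v2_22 := p_wQ_26_wN_1_rb8033080e204a00v2_22

theorem g__wQ_26_wN_1_rb8033080e204a00v2_24 : GoodKC AS k_wQ_26_wN_1_rb8033080e204a00v2_24 := p_wQ_26_wN_1_rb8033080e204a00v2_24

theorem g__wQ_26_wN_1_rb8033080e204a00v2_23 : GoodKC AS k_wQ_26_wN_1_rb8033080e204a00v2_23 := p_wQ_26_wN_1_rb8033080e204a00v2_23 g__wQ_26_wN_1_rb8033080e204a00v2_24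

theorem g__wQ_26_wN_1_rb8033080e204a00v2_21 : GoodKC AS k_wQ_26_wN_1_rb8033080e204a00v2_21 := p_wQ_26_wN_1_rb8033080e204a00v2_21 g__wQ_26_wN_1_rb8033080e204a00v2_22 g__wQ_26_wN_1_rb8033080e204a00v2_23

theorem g__wQ_26_wN_1_rb8033080e204a00v2_27 : GoodKC AS k_wQ_26_wN_1_rb8033080e204a00v2_27 := p_wQ_26_wN_1_rb8033080e204a00v2_27

theorem g__wQ_26_wN_1_rb8033080e204a00v2_26 : GoodKC AS k_wQ_26_wN_1_rb8033080e204a00v2_26 := p_wQ_26_wN_1_rb8033080e204a00v2_26 g__wQ_26_wN_1_rb8033080e204a00v2_27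

theorem g__wQ_26_wN_1_rb8033080e204a00v2_25 : GoodKC AS k_wQ_26_wN_1_rb8033080e204a00v2_25 := p_wQ_26_wN_1_rb8033080e204a00v2_25 g__wQ_26_wN_1_rb8033080e204a00v2_26

theorem g__wQ_26_wN_1_rb8033080e204a00v2_20 : GoodKC AS k_wQ_26_wN_1_rb8033080e204a00v2_20 := p_wQ_26_wN_1_rb8033080e204a00v2_20 g__wQ_26_wN_1_rb8033080e204a00v2_21 g__wQ_26_wN_1_rb8033080e204a00v2_25

theorem g__wQ_26_wN_1_rb8033080e204a00v2_19 : GoodKC AS k_wQ_26_wN_1_rb8033080e204a00v2_19 := p_wQ_26_wN_1_rb8033080e204a00v2_19 g__wQ_26_wN_1_rb8033080e204a00v2_20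

theorem g__wQ_26_wN_1_rb8033080e204a00v2_28 : GoodKC AS k_wQ_26_wN_1_rb8033080e204a00v2_28 := p_wQ_26_wN_1_rb8033080e204a00v2_28

theorem g__wQ_26_wN_1_rb8033080e204a00v2_17 : GoodKC AS k_wQ_26_wN_1_rb8033080e204a00v2_17 := p_wQ_26_wN_1_rb8033080e204a00v2_17 g__wQ_26_wN_1_rb8033080e204a00v2_18 g__wQ_26_wN_1_rb8033080e204a00v2_19 g__wQ_26_wN_1_rb8033080e204a00v2_28

theorem g_wQ_26_wN_1_rb8033080e204a00x2 : GoodKC AS c_wQ_26_wN_1_rb8033080e204a00x2 := p_wQ_26_wN_1_rb8033080e204a00x2 g__wQ_26_wN_1_rb8033080e204a00v2_0 g__wQ_26_wN_1_rb8033080e204a00v2_16 g__wQ_26_wN_1_rb8033080e204a00v2_17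

theorem g__wQ_26_wN_1_rb8033080e204ax2_12 : GoodKC AS k_wQ_26_wN_1_rb8033080e204ax2_12 := p_wQ_26_wN_1_rb8033080e204ax2_12

theorem g__wQ_26_wN_1_rb8033080e204ax2_15 : GoodKC AS k_wQ_26_wN_1_rb8033080e204ax2_15 := p_wQ_26_wN_1_rb8033080e204ax2_15

theorem g__wQ_26_wN_1_rb8033080e204ax2_14 : GoodKC AS k_wQ_26_wN_1_rb8033080e204ax2_14 := p_wQ_26_wN_1_rb8033080e204ax2_14 g__wQ_26_wN_1_rb8033080e204ax2_15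

theorem g__wQ_26_wN_1_rb8033080e204ax2_18 : GoodKC AS k_wQ_26_wN_1_rb8033080e204ax2_18 := p_wQ_26_wN_1_rb8033080e204ax2_18

theorem g__wQ_26_wN_1_rb8033080e204ax2_19 : GoodKC AS k_wQ_26_wN_1_rb8033080e204ax2_19 := p_wQ_26_wN_1_rb8033080e204ax2_19

theorem g__wQ_26_wN_1_rb8033080e204ax2_17 : GoodKC AS k_wQ_26_wN_1_rb8033080e204ax2_17 := p_wQ_26_wN_1_rb8033080e204ax2_17 g__wQ_26_wN_1_rb8033080e204ax2_18 g__wQ_26_wN_1_rb8033080e204ax2_19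

theorem g__wQ_26_wN_1_rb8033080e204ax2_16 : GoodKC AS k_wQ_26_wN_1_rb8033080e204ax2_16 := p_wQ_26_wN_1_rb8033080e204ax2_16 g__wQ_26_wN_1_rb8033080e204ax2_17

theorem g__wQ_26_wN_1_rb8033080e204ax2_20 : GoodKC AS k_wQ_26_wN_1_rb8033080e204ax2_20 := p_wQ_26_wN_1_rb8033080e204ax2_20

theorem g__wQ_26_wN_1_rb8033080e204ax2_13 : GoodKC AS k_wQ_26_wN_1_rb8033080e204ax2_13 := p_wQ_26_wN_1_rb8033080e204ax2_13 g__wQ_26_wN_1_rb8033080e204ax2_14 g__wQ_26_wN_1_rb8033080e204ax2_16 g__wQ_26_wN_1_rb8033080e204ax2_20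

theorem g__wQ_26_wN_1_rb8033080e204ax2_11 : GoodKC AS k_wQ_26_wN_1_rb8033080e204ax2_11 := p_wQ_26_wN_1_rb8033080e204ax2_11 g__wQ_26_wN_1_rb8033080e204ax2_12 g__wQ_26_wN_1_rb8033080e204ax2_13

theorem g__wQ_26_wN_1_rb8033080e204ax2_22 : GoodKC AS k_wQ_26_wN_1_rb8033080e204ax2_22 := p_wQ_26_wN_1_rb8033080e204ax2_22

theorem g__wQ_26_wN_1_rb8033080e204ax2_26 : GoodKC AS k_wQ_26_wN_1_rb8033080e204ax2_26 := p_wQ_26_wN_1_rb8033080e204ax2_26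

theorem g__wQ_26_wN_1_rb8033080e204ax2_25 : GoodKC AS k_wQ_26_wN_1_rb8033080e204ax2_25 := p_wQ_26_wN_1_rb8033080e204ax2_25 g__wQ_26_wN_1_rb8033080e204ax2_26

theorem g__wQ_26_wN_1_rb8033080e204ax2_24 : GoodKC AS k_wQ_26_wN_1_rb8033080e204ax2_24 := p_wQ_26_wN_1_rb8033080e204ax2_24 g__wQ_26_wN_1_rb8033080e204ax2_25

theorem g__wQ_26_wN_1_rb8033080e204ax2_23 : GoodKC AS k_wQ_26_wN_1_rb8033080e204ax2_23 := p_wQ_26_wN_1_rb8033080e204ax2_23 g__wQ_26_wN_1_rb8033080e204ax2_24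

theorem g__wQ_26_wN_1_rb8033080e204ax2_29 : GoodKC AS k_wQ_26_wN_1_rb8033080e204ax2_29 := p_wQ_26_wN_1_rb8033080e204ax2_29

theorem g__wQ_26_wN_1_rb8033080e204ax2_30 : GoodKC AS k_wQ_26_wN_1_rb8033080e204ax2_30 := p_wQ_26_wN_1_rb8033080e204ax2_30

theorem g__wQ_26_wN_1_rb8033080e204ax2_28 : GoodKC AS k_wQ_26_wN_1_rb8033080e204ax2_28 := p_wQ_26_wN_1_rb8033080e204ax2_28 g__wQ_26_wN_1_rb8033080e204ax2_29 g__wQ_26_wN_1_rb8033080e204ax2_30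

theorem g__wQ_26_wN_1_rb8033080e204ax2_27 : GoodKC AS k_wQ_26_wN_1_rb8033080e204ax2_27 := p_wQ_26_wN_1_rb8033080e204ax2_27 g__wQ_26_wN_1_rb8033080e204ax2_28

theorem g__wQ_26_wN_1_rb8033080e204ax2_21 : GoodKC AS k_wQ_26_wN_1_rb8033080e204ax2_21 := p_wQ_26_wN_1_rb8033080e204ax2_21 g__wQ_26_wN_1_rb8033080e204ax2_22 g__wQ_26_wN_1_rb8033080e204ax2_23 g__wQ_26_wN_1_rb8033080e204ax2_27

theorem g__wQ_26_wN_1_rb8033080e204ax2_10 : GoodKC AS k_wQ_26_wN_1_rb8033080e204ax2_10 := p_wQ_26_wN_1_rb8033080e204ax2_10 g_wQ_26_wN_1_rb8033080e204a00x2 g__wQ_26_wN_1_rb8033080e204ax2_11 g__wQ_26_wN_1_rb8033080e204ax2_21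

theorem g__wQ_26_wN_1_rb8033080e204ax2_5 : GoodKC AS k_wQ_26_wN_1_rb8033080e204ax2_5 := p_wQ_26_wN_1_rb8033080e204ax2_5 g__wQ_26_wN_1_rb8033080e204ax2_6 g__wQ_26_wN_1_rb8033080e204ax2_7 g__wQ_26_wN_1_rb8033080e204ax2_8 g__wQ_26_wN_1_rb8033080e204ax2_9 g__wQ_26_wN_1_rb8033080e204ax2_10

theorem g__wQ_26_wN_1_rb8033080e204ax2_4 : GoodKC AS k_wQ_26_wN_1_rb8033080e204ax2_4 := p_wQ_26_wN_1_rb8033080e204ax2_4 g__wQ_26_wN_1_rb8033080e204ax2_5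

theorem g__wQ_26_wN_1_rb8033080e204ax2_3 : GoodKC AS k_wQ_26_wN_1_rb8033080e204ax2_3 := p_wQ_26_wN_1_rb8033080e204ax2_3 g__wQ_26_wN_1_rb8033080e204ax2_4

theorem g__wQ_26_wN_1_rb8033080e204ax2_1 : GoodKC AS k_wQ_26_wN_1_rb8033080e204ax2_1 := p_wQ_26_wN_1_rb8033080e204ax2_1 g__wQ_26_wN_1_rb8033080e204ax2_2 g__wQ_26_wN_1_rb8033080e204ax2_3

theorem g_wQ_26_wN_1_rb8033080e204ax2 : GoodKC AS c_wQ_26_wN_1_rb8033080e204ax2 := p_wQ_26_wN_1_rb8033080e204ax2 g__wQ_26_wN_1_rb8033080e204ax2_0 g__wQ_26_wN_1_rb8033080e204ax2_1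

theorem g_wQ_26_wN_1_rb8033080e204bx2 : GoodKC AS c_wQ_26_wN_1_rb8033080e204bx2 := p_wQ_26_wN_1_rb8033080e204bx2

theorem g_wQ_26_wN_1_rb8033080e204cx2 : GoodKC AS c_wQ_26_wN_1_rb8033080e204cx2 := p_wQ_26_wN_1_rb8033080e204cx2

theorem g_wQ_26_wN_1_rb8033080e204dx2 : GoodKC AS c_wQ_26_wN_1_rb8033080e204dx2 := p_wQ_26_wN_1_rb8033080e204dx2

theorem g_wQ_26_wN_1_rb8033080e204ex2 : GoodKC AS c_wQ_26_wN_1_rb8033080e204ex2 := p_wQ_26_wN_1_rb8033080e204ex2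

theorem g_wQ_26_wN_1_rb8033080e204fx2 : GoodKC AS c_wQ_26_wN_1_rb8033080e204fx2 := p_wQ_26_wN_1_rb8033080e204fx2

theorem g_wQ_26_wN_1_rb8033080e2050x2 : GoodKC AS c_wQ_26_wN_1_rb8033080e2050x2 := p_wQ_26_wN_1_rb8033080e2050x2

theorem g_wQ_26_wN_1_rb8033080e2052x2 : GoodKC AS c_wQ_26_wN_1_rb8033080e2052x2 := p_wQ_26_wN_1_rb8033080e2052x2

theorem g_wQ_26_wN_1_rb8033080e20x3 : GoodKC AS c_wQ_26_wN_1_rb8033080e20x3 := p_wQ_26_wN_1_rb8033080e20x2 g_wQ_26_wN_1_rb8033080e2051x2 g_wQ_26_wN_1_rb8033080e2047x2 g_wQ_26_wN_1_rb8033080e2046x2 g_wQ_26_wN_1_rb8033080e2044x2 g_wQ_26_wN_1_rb8033080e2043x2 g_wQ_26_wN_1_rb8033080e2040x2 g_wQ_26_wN_1_rb8033080e203fx2 g_wQ_26_wN_1_rb8033080e203ex2 g_wQ_26_wN_1_rb8033080e203bx2 g_wQ_26_wN_1_rb8033080e203ax2 g_wQ_26_wN_1_rb8033080e2039x2 g_wQ_26_wN_1_rb8033080e2038x2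 g_wQ_26_wN_1_rb8033080e2037x2 g_wQ_26_wN_1_rb8033080e2036x2 g_wQ_26_wN_1_rb8033080e2034x2 g_wQ_26_wN_1_rb8033080e2032x2 g_wQ_26_wN_1_rb8033080e2030x2 g_wQ_26_wN_1_rb8033080e202dx2 g_wQ_26_wN_1_rb8033080e202bx2 g_wQ_26_wN_1_rb8033080e202ax2 g_wQ_26_wN_1_rb8033080e2029x2 g_wQ_26_wN_1_rb8033080e2026x2 g_wQ_26_wN_1_rb8033080e2021x2 g_wQ_26_wN_1_rb8033080e2020x2 g_wQ_26_wN_1_rb8033080e201dx2 g_wQ_26_wN_1_rb8033080e201bx2 g_wQ_26_wN_1_rb8033080e201ax2 g_wQ_26_wN_1_rb8033080e2019x2 g_wQ_26_wN_1_rb8033080e2016x2 g_wQ_26_wN_1_rb8033080e2015x2 g_wQ_26_wN_1_rb8033080e2014x2 g_wQ_26_wN_1_rb8033080e2011x2 g_wQ_26_wN_1_rb8033080e2010x2 g_wQ_26_wN_1_rb8033080e200fx2 g_wQ_26_wN_1_rb8033080e200ex2 g_wQ_26_wN_1_rb8033080e200dx2 g_wQ_26_wN_1_rb8033080e200bx2 g_wQ_26_wN_1_rb8033080e2005x2 g_wQ_26_wN_1_rb8033080e2003x2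 g_wQ_26_wN_1_rb8033080e2002x2 g_wQ_26_wN_1_rb8033080e2000x2 g_wQ_26_wN_1_rb8033080e2001x2 g_wQ_26_wN_1_rb8033080e2004x2 g_wQ_26_wN_1_rb8033080e2006x2 g_wQ_26_wN_1_rb8033080e2007x2 g_wQ_26_wN_1_rb8033080e2008x2 g_wQ_26_wN_1_rb8033080e2009x2 g_wQ_26_wN_1_rb8033080e200ax2 g_wQ_26_wN_1_rb8033080e200cx2 g_wQ_26_wN_1_rb8033080e2012x2 g_wQ_26_wN_1_rb8033080e2013x2 g_wQ_26_wN_1_rb8033080e2017x2 g_wQ_26_wN_1_rb8033080e2018x2 g_wQ_26_wN_1_rb8033080e201cx2 g_wQ_26_wN_1_rb8033080e201ex2 g_wQ_26_wN_1_rb8033080e201fx2 g_wQ_26_wN_1_rb8033080e2022x2 g_wQ_26_wN_1_rb8033080e2023x2 g_wQ_26_wN_1_rb8033080e2024x2 g_wQ_26_wN_1_rb8033080e2025x2 g_wQ_26_wN_1_rb8033080e2027x2 g_wQ_26_wN_1_rb8033080e2028x2 g_wQ_26_wN_1_rb8033080e202cx2 g_wQ_26_wN_1_rb8033080e202ex2 g_wQ_26_wN_1_rb8033080e202fx2 g_wQ_26_wN_1_rb8033080e2031x2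 g_wQ_26_wN_1_rb8033080e2033x2 g__wQ_26_wN_1_rb8033080e20v2_0 g_wQ_26_wN_1_rb8033080e2035x2 g_wQ_26_wN_1_rb8033080e203cx2 g_wQ_26_wN_1_rb8033080e203dx2 g_wQ_26_wN_1_rb8033080e2041x2 g_wQ_26_wN_1_rb8033080e2042x2 g_wQ_26_wN_1_rb8033080e2045x2 g_wQ_26_wN_1_rb8033080e2048x2 g_wQ_26_wN_1_rb8033080e2049x2 g_wQ_26_wN_1_rb8033080e204ax2 g_wQ_26_wN_1_rb8033080e204bx2 g_wQ_26_wN_1_rb8033080e204cx2 g_wQ_26_wN_1_rb8033080e204dx2 g_wQ_26_wN_1_rb8033080e204ex2 g_wQ_26_wN_1_rb8033080e204fx2 g_wQ_26_wN_1_rb8033080e2050x2 g_wQ_26_wN_1_rb8033080e2052x2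

theorem g__wQ_26_wN_1_rb8033080e1dx3_1 : GoodKC AS k_wQ_26_wN_1_rb8033080e1dx3_1 := p_wQ_26_wN_1_rb8033080e1dx3_1

theorem g__wQ_26_wN_1_rb8033080e1dx3_2 : GoodKC AS k_wQ_26_wN_1_rb8033080e1dx3_2 := p_wQ_26_wN_1_rb8033080e1dx3_2

theorem g__wQ_26_wN_1_rb8033080e1dx3_0 : GoodKC AS k_wQ_26_wN_1_rb8033080e1dx3_0 := p_wQ_26_wN_1_rb8033080e1dx3_0 g__wQ_26_wN_1_rb8033080e1dx3_1 g__wQ_26_wN_1_rb8033080e1dx3_2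

theorem g__wQ_26_wN_1_rb8033080e1dx3_3 : GoodKC AS k_wQ_26_wN_1_rb8033080e1dx3_3 := p_wQ_26_wN_1_rb8033080e1dx3_3

theorem g__wQ_26_wN_1_rb8033080e1dx3_4 : GoodKC AS k_wQ_26_wN_1_rb8033080e1dx3_4 := p_wQ_26_wN_1_rb8033080e1dx3_4

theorem g_wQ_26_wN_1_rb8033080e1dx3 : GoodKC AS c_wQ_26_wN_1_rb8033080e1dx3 := p_wQ_26_wN_1_rb8033080e1dx3 g__wQ_26_wN_1_rb8033080e1dx3_0 g__wQ_26_wN_1_rb8033080e1dx3_3 g__wQ_26_wN_1_rb8033080e1dx3_4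

theorem g__wQ_26_wN_1_rb8033080e19x3_1 : GoodKC AS k_wQ_26_wN_1_rb8033080e19x3_1 := p_wQ_26_wN_1_rb8033080e19x3_1

theorem g__wQ_26_wN_1_rb8033080e19x3_0 : GoodKC AS k_wQ_26_wN_1_rb8033080e19x3_0 := p_wQ_26_wN_1_rb8033080e19x3_0 g__wQ_26_wN_1_rb8033080e19x3_1

theorem g__wQ_26_wN_1_rb8033080e19x3_5 : GoodKC AS k_wQ_26_wN_1_rb8033080e19x3_5 := p_wQ_26_wN_1_rb8033080e19x3_5

theorem g__wQ_26_wN_1_rb8033080e19x3_4 : GoodKC AS k_wQ_26_wN_1_rb8033080e19x3_4 := p_wQ_26_wN_1_rb8033080e19x3_4 g__wQ_26_wN_1_rb8033080e19x3_5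

theorem g__wQ_26_wN_1_rb8033080e19x3_3 : GoodKC AS k_wQ_26_wN_1_rb8033080e19x3_3 := p_wQ_26_wN_1_rb8033080e19x3_3 g__wQ_26_wN_1_rb8033080e19x3_4

theorem g__wQ_26_wN_1_rb8033080e19x3_2 : GoodKC AS k_wQ_26_wN_1_rb8033080e19x3_2 := p_wQ_26_wN_1_rb8033080e19x3_2 g__wQ_26_wN_1_rb8033080e19x3_3

theorem g_wQ_26_wN_1_rb8033080e19x3 : GoodKC AS c_wQ_26_wN_1_rb8033080e19x3 := p_wQ_26_wN_1_rb8033080e19x3 g__wQ_26_wN_1_rb8033080e19x3_0 g__wQ_26_wN_1_rb8033080e19x3_2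

theorem g_wQ_26_wN_1_rb8033080e1886x2 : GoodKC AS c_wQ_26_wN_1_rb8033080e1886x2 := p_wQ_26_wN_1_rb8033080e1886x2

theorem g_wQ_26_wN_1_rb8033080e1885x2 : GoodKC AS c_wQ_26_wN_1_rb8033080e1885x2 := p_wQ_26_wN_1_rb8033080e1885x2

theorem g_wQ_26_wN_1_rb8033080e1883x2 : GoodKC AS c_wQ_26_wN_1_rb8033080e1883x2 := p_wQ_26_wN_1_rb8033080e1883x2

theorem g_wQ_26_wN_1_rb8033080e1882x2 : GoodKC AS c_wQ_26_wN_1_rb8033080e1882x2 := p_wQ_26_wN_1_rb8033080e1882x2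

theorem g_wQ_26_wN_1_rb8033080e1881x2 : GoodKC AS c_wQ_26_wN_1_rb8033080e1881x2 := p_wQ_26_wN_1_rb8033080e1881x2

theorem g_wQ_26_wN_1_rb8033080e187bx2 : GoodKC AS c_wQ_26_wN_1_rb8033080e187bx2 := p_wQ_26_wN_1_rb8033080e187bx2

theorem g__wQ_26_wN_1_rb8033080e187ax2_1 : GoodKC AS k_wQ_26_wN_1_rb8033080e187ax2_1 := p_wQ_26_wN_1_rb8033080e187ax2_1

theorem g__wQ_26_wN_1_rb8033080e187ax2_2 : GoodKC AS k_wQ_26_wN_1_rb8033080e187ax2_2 := p_wQ_26_wN_1_rb8033080e187ax2_2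

theorem g__wQ_26_wN_1_rb8033080e187ax2_0 : GoodKC AS k_wQ_26_wN_1_rb8033080e187ax2_0 := p_wQ_26_wN_1_rb8033080e187ax2_0 g__wQ_26_wN_1_rb8033080e187ax2_1 g__wQ_26_wN_1_rb8033080e187ax2_2

theorem g_wQ_26_wN_1_rb8033080e187ax2 : GoodKC AS c_wQ_26_wN_1_rb8033080e187ax2 := p_wQ_26_wN_1_rb8033080e187ax2 g__wQ_26_wN_1_rb8033080e187ax2_0

theorem g__wQ_26_wN_1_rb8033080e1879x2_0 : GoodKC AS k_wQ_26_wN_1_rb8033080e1879x2_0 := p_wQ_26_wN_1_rb8033080e1879x2_0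

theorem g_wQ_26_wN_1_rb8033080e1879x2 : GoodKC AS c_wQ_26_wN_1_rb8033080e1879x2 := p_wQ_26_wN_1_rb8033080e1879x2 g__wQ_26_wN_1_rb8033080e1879x2_0

theorem g_wQ_26_wN_1_rb8033080e1875x2 : GoodKC AS c_wQ_26_wN_1_rb8033080e1875x2 := p_wQ_26_wN_1_rb8033080e1875x2

theorem g_wQ_26_wN_1_rb8033080e1873x2 : GoodKC AS c_wQ_26_wN_1_rb8033080e1873x2 := p_wQ_26_wN_1_rb8033080e1873x2

theorem g_wQ_26_wN_1_rb8033080e1872x2 : GoodKC AS c_wQ_26_wN_1_rb8033080e1872x2 := p_wQ_26_wN_1_rb8033080e1872x2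

theorem g__wQ_26_wN_1_rb8033080e186fx2_0 : GoodKC AS k_wQ_26_wN_1_rb8033080e186fx2_0 := p_wQ_26_wN_1_rb8033080e186fx2_0

theorem g__wQ_26_wN_1_rb8033080e186fx2_2 : GoodKC AS k_wQ_26_wN_1_rb8033080e186fx2_2 := p_wQ_26_wN_1_rb8033080e186fx2_2

theorem g__wQ_26_wN_1_rb8033080e186fx2_1 : GoodKC AS k_wQ_26_wN_1_rb8033080e186fx2_1 := p_wQ_26_wN_1_rb8033080e186fx2_1 g__wQ_26_wN_1_rb8033080e186fx2_2

theorem g_wQ_26_wN_1_rb8033080e186fx2 : GoodKC AS c_wQ_26_wN_1_rb8033080e186fx2 := p_wQ_26_wN_1_rb8033080e186fx2 g__wQ_26_wN_1_rb8033080e186fx2_0 g__wQ_26_wN_1_rb8033080e186fx2_1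

theorem g_wQ_26_wN_1_rb8033080e186ex2 : GoodKC AS c_wQ_26_wN_1_rb8033080e186ex2 := p_wQ_26_wN_1_rb8033080e186ex2

theorem g__wQ_26_wN_1_rb8033080e186dx2_0 : GoodKC AS k_wQ_26_wN_1_rb8033080e186dx2_0 := p_wQ_26_wN_1_rb8033080e186dx2_0

theorem g_wQ_26_wN_1_rb8033080e186dx2 : GoodKC AS c_wQ_26_wN_1_rb8033080e186dx2 := p_wQ_26_wN_1_rb8033080e186dx2 g__wQ_26_wN_1_rb8033080e186dx2_0

theorem g_wQ_26_wN_1_rb8033080e186cx2 : GoodKC AS c_wQ_26_wN_1_rb8033080e186cx2 := p_wQ_26_wN_1_rb8033080e186cx2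

theorem g_wQ_26_wN_1_rb8033080e186bx2 : GoodKC AS c_wQ_26_wN_1_rb8033080e186bx2 := p_wQ_26_wN_1_rb8033080e186bx2

theorem g_wQ_26_wN_1_rb8033080e1868x2 : GoodKC AS c_wQ_26_wN_1_rb8033080e1868x2 := p_wQ_26_wN_1_rb8033080e1868x2

theorem g__wQ_26_wN_1_rb8033080e1867x2_1 : GoodKC AS k_wQ_26_wN_1_rb8033080e1867x2_1 := p_wQ_26_wN_1_rb8033080e1867x2_1

theorem g__wQ_26_wN_1_rb8033080e1867x2_0 : GoodKC AS k_wQ_26_wN_1_rb8033080e1867x2_0 := p_wQ_26_wN_1_rb8033080e1867x2_0 g__wQ_26_wN_1_rb8033080e1867x2_1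

theorem g_wQ_26_wN_1_rb8033080e1867x2 : GoodKC AS c_wQ_26_wN_1_rb8033080e1867x2 := p_wQ_26_wN_1_rb8033080e1867x2 g__wQ_26_wN_1_rb8033080e1867x2_0

theorem g_wQ_26_wN_1_rb8033080e1866x2 : GoodKC AS c_wQ_26_wN_1_rb8033080e1866x2 := p_wQ_26_wN_1_rb8033080e1866x2

theorem g_wQ_26_wN_1_rb8033080e1865x2 : GoodKC AS c_wQ_26_wN_1_rb8033080e1865x2 := p_wQ_26_wN_1_rb8033080e1865x2

theorem g_wQ_26_wN_1_rb8033080e1864x2 : GoodKC AS c_wQ_26_wN_1_rb8033080e1864x2 := p_wQ_26_wN_1_rb8033080e1864x2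

theorem g_wQ_26_wN_1_rb8033080e1862x2 : GoodKC AS c_wQ_26_wN_1_rb8033080e1862x2 := p_wQ_26_wN_1_rb8033080e1862x2

theorem g_wQ_26_wN_1_rb8033080e1861x2 : GoodKC AS c_wQ_26_wN_1_rb8033080e1861x2 := p_wQ_26_wN_1_rb8033080e1861x2

theorem g_wQ_26_wN_1_rb8033080e1860x2 : GoodKC AS c_wQ_26_wN_1_rb8033080e1860x2 := p_wQ_26_wN_1_rb8033080e1860x2

theorem g_wQ_26_wN_1_rb8033080e185fx2 : GoodKC AS c_wQ_26_wN_1_rb8033080e185fx2 := p_wQ_26_wN_1_rb8033080e185fx2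

theorem g_wQ_26_wN_1_rb8033080e185ex2 : GoodKC AS c_wQ_26_wN_1_rb8033080e185ex2 := p_wQ_26_wN_1_rb8033080e185ex2

theorem g_wQ_26_wN_1_rb8033080e185cx2 : GoodKC AS c_wQ_26_wN_1_rb8033080e185cx2 := p_wQ_26_wN_1_rb8033080e185cx2

theorem g_wQ_26_wN_1_rb8033080e185ax2 : GoodKC AS c_wQ_26_wN_1_rb8033080e185ax2 := p_wQ_26_wN_1_rb8033080e185ax2

theorem g_wQ_26_wN_1_rb8033080e1859x2 : GoodKC AS c_wQ_26_wN_1_rb8033080e1859x2 := p_wQ_26_wN_1_rb8033080e1859x2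

theorem g_wQ_26_wN_1_rb8033080e1855x2 : GoodKC AS c_wQ_26_wN_1_rb8033080e1855x2 := p_wQ_26_wN_1_rb8033080e1855x2

theorem g__wQ_26_wN_1_rb8033080e1852x2_0 : GoodKC AS k_wQ_26_wN_1_rb8033080e1852x2_0 := p_wQ_26_wN_1_rb8033080e1852x2_0

theorem g_wQ_26_wN_1_rb8033080e1852x2 : GoodKC AS c_wQ_26_wN_1_rb8033080e1852x2 := p_wQ_26_wN_1_rb8033080e1852x2 g__wQ_26_wN_1_rb8033080e1852x2_0

theorem g_wQ_26_wN_1_rb8033080e1851x2 : GoodKC AS c_wQ_26_wN_1_rb8033080e1851x2 := p_wQ_26_wN_1_rb8033080e1851x2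

theorem g_wQ_26_wN_1_rb8033080e184fx2 : GoodKC AS c_wQ_26_wN_1_rb8033080e184fx2 := p_wQ_26_wN_1_rb8033080e184fx2

theorem g_wQ_26_wN_1_rb8033080e184ex2 : GoodKC AS c_wQ_26_wN_1_rb8033080e184ex2 := p_wQ_26_wN_1_rb8033080e184ex2

theorem g_wQ_26_wN_1_rb8033080e184dx2 : GoodKC AS c_wQ_26_wN_1_rb8033080e184dx2 := p_wQ_26_wN_1_rb8033080e184dx2

theorem g_wQ_26_wN_1_rb8033080e184ax2 : GoodKC AS c_wQ_26_wN_1_rb8033080e184ax2 := p_wQ_26_wN_1_rb8033080e184ax2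

theorem g_wQ_26_wN_1_rb8033080e1848x2 : GoodKC AS c_wQ_26_wN_1_rb8033080e1848x2 := p_wQ_26_wN_1_rb8033080e1848x2

theorem g_wQ_26_wN_1_rb8033080e1847x2 : GoodKC AS c_wQ_26_wN_1_rb8033080e1847x2 := p_wQ_26_wN_1_rb8033080e1847x2

theorem g_wQ_26_wN_1_rb8033080e1846x2 : GoodKC AS c_wQ_26_wN_1_rb8033080e1846x2 := p_wQ_26_wN_1_rb8033080e1846x2

theorem g_wQ_26_wN_1_rb8033080e1845x2 : GoodKC AS c_wQ_26_wN_1_rb8033080e1845x2 := p_wQ_26_wN_1_rb8033080e1845x2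

theorem g_wQ_26_wN_1_rb8033080e1844x2 : GoodKC AS c_wQ_26_wN_1_rb8033080e1844x2 := p_wQ_26_wN_1_rb8033080e1844x2

theorem g__wQ_26_wN_1_rb8033080e1841x2_1 : GoodKC AS k_wQ_26_wN_1_rb8033080e1841x2_1 := p_wQ_26_wN_1_rb8033080e1841x2_1

theorem g__wQ_26_wN_1_rb8033080e1841x2_2 : GoodKC AS k_wQ_26_wN_1_rb8033080e1841x2_2 := p_wQ_26_wN_1_rb8033080e1841x2_2

theorem g__wQ_26_wN_1_rb8033080e1841x2_0 : GoodKC AS k_wQ_26_wN_1_rb8033080e1841x2_0 := p_wQ_26_wN_1_rb8033080e1841x2_0 g__wQ_26_wN_1_rb8033080e1841x2_1 g__wQ_26_wN_1_rb8033080e1841x2_2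

theorem g_wQ_26_wN_1_rb8033080e1841x2 : GoodKC AS c_wQ_26_wN_1_rb8033080e1841x2 := p_wQ_26_wN_1_rb8033080e1841x2 g__wQ_26_wN_1_rb8033080e1841x2_0

theorem g_wQ_26_wN_1_rb8033080e1840x2 : GoodKC AS c_wQ_26_wN_1_rb8033080e1840x2 := p_wQ_26_wN_1_rb8033080e1840x2

theorem g__wQ_26_wN_1_rb8033080e183fx2_1 : GoodKC AS k_wQ_26_wN_1_rb8033080e183fx2_1 := p_wQ_26_wN_1_rb8033080e183fx2_1

theorem g__wQ_26_wN_1_rb8033080e183fx2_0 : GoodKC AS k_wQ_26_wN_1_rb8033080e183fx2_0 := p_wQ_26_wN_1_rb8033080e183fx2_0 g__wQ_26_wN_1_rb8033080e183fx2_1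

theorem g_wQ_26_wN_1_rb8033080e183fx2 : GoodKC AS c_wQ_26_wN_1_rb8033080e183fx2 := p_wQ_26_wN_1_rb8033080e183fx2 g__wQ_26_wN_1_rb8033080e183fx2_0

theorem g_wQ_26_wN_1_rb8033080e183ex2 : GoodKC AS c_wQ_26_wN_1_rb8033080e183ex2 := p_wQ_26_wN_1_rb8033080e183ex2

theorem g_wQ_26_wN_1_rb8033080e183cx2 : GoodKC AS c_wQ_26_wN_1_rb8033080e183cx2 := p_wQ_26_wN_1_rb8033080e183cx2

theorem g__wQ_26_wN_1_rb8033080e183bx2_0 : GoodKC AS k_wQ_26_wN_1_rb8033080e183bx2_0 := p_wQ_26_wN_1_rb8033080e183bx2_0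

theorem g__wQ_26_wN_1_rb8033080e183bx2_3 : GoodKC AS k_wQ_26_wN_1_rb8033080e183bx2_3 := p_wQ_26_wN_1_rb8033080e183bx2_3

theorem g__wQ_26_wN_1_rb8033080e183bx2_2 : GoodKC AS k_wQ_26_wN_1_rb8033080e183bx2_2 := p_wQ_26_wN_1_rb8033080e183bx2_2 g__wQ_26_wN_1_rb8033080e183bx2_3

theorem g__wQ_26_wN_1_rb8033080e183bx2_4 : GoodKC AS k_wQ_26_wN_1_rb8033080e183bx2_4 := p_wQ_26_wN_1_rb8033080e183bx2_4

theorem g__wQ_26_wN_1_rb8033080e183bx2_1 : GoodKC AS k_wQ_26_wN_1_rb8033080e183bx2_1 := p_wQ_26_wN_1_rb8033080e183bx2_1 g__wQ_26_wN_1_rb8033080e183bx2_2 g__wQ_26_wN_1_rb8033080e183bx2_4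

theorem g_wQ_26_wN_1_rb8033080e183bx2 : GoodKC AS c_wQ_26_wN_1_rb8033080e183bx2 := p_wQ_26_wN_1_rb8033080e183bx2 g__wQ_26_wN_1_rb8033080e183bx2_0 g__wQ_26_wN_1_rb8033080e183bx2_1

theorem g_wQ_26_wN_1_rb8033080e183ax2 : GoodKC AS c_wQ_26_wN_1_rb8033080e183ax2 := p_wQ_26_wN_1_rb8033080e183ax2

theorem g_wQ_26_wN_1_rb8033080e1839x2 : GoodKC AS c_wQ_26_wN_1_rb8033080e1839x2 := p_wQ_26_wN_1_rb8033080e1839x2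

theorem g_wQ_26_wN_1_rb8033080e1837x2 : GoodKC AS c_wQ_26_wN_1_rb8033080e1837x2 := p_wQ_26_wN_1_rb8033080e1837x2

theorem g_wQ_26_wN_1_rb8033080e1835x2 : GoodKC AS c_wQ_26_wN_1_rb8033080e1835x2 := p_wQ_26_wN_1_rb8033080e1835x2

theorem g_wQ_26_wN_1_rb8033080e1833x2 : GoodKC AS c_wQ_26_wN_1_rb8033080e1833x2 := p_wQ_26_wN_1_rb8033080e1833x2

theorem g_wQ_26_wN_1_rb8033080e1832x2 : GoodKC AS c_wQ_26_wN_1_rb8033080e1832x2 := p_wQ_26_wN_1_rb8033080e1832x2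

theorem g_wQ_26_wN_1_rb8033080e182fx2 : GoodKC AS c_wQ_26_wN_1_rb8033080e182fx2 := p_wQ_26_wN_1_rb8033080e182fx2

theorem g_wQ_26_wN_1_rb8033080e182ex2 : GoodKC AS c_wQ_26_wN_1_rb8033080e182ex2 := p_wQ_26_wN_1_rb8033080e182ex2

theorem g_wQ_26_wN_1_rb8033080e182dx2 : GoodKC AS c_wQ_26_wN_1_rb8033080e182dx2 := p_wQ_26_wN_1_rb8033080e182dx2

theorem g_wQ_26_wN_1_rb8033080e182cx2 : GoodKC AS c_wQ_26_wN_1_rb8033080e182cx2 := p_wQ_26_wN_1_rb8033080e182cx2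

theorem g_wQ_26_wN_1_rb8033080e182bx2 : GoodKC AS c_wQ_26_wN_1_rb8033080e182bx2 := p_wQ_26_wN_1_rb8033080e182bx2

theorem g_wQ_26_wN_1_rb8033080e182ax2 : GoodKC AS c_wQ_26_wN_1_rb8033080e182ax2 := p_wQ_26_wN_1_rb8033080e182ax2

theorem g_wQ_26_wN_1_rb8033080e1829x2 : GoodKC AS c_wQ_26_wN_1_rb8033080e1829x2 := p_wQ_26_wN_1_rb8033080e1829x2

theorem g_wQ_26_wN_1_rb8033080e1828x2 : GoodKC AS c_wQ_26_wN_1_rb8033080e1828x2 := p_wQ_26_wN_1_rb8033080e1828x2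

theorem g_wQ_26_wN_1_rb8033080e1827x2 : GoodKC AS c_wQ_26_wN_1_rb8033080e1827x2 := p_wQ_26_wN_1_rb8033080e1827x2

theorem g_wQ_26_wN_1_rb8033080e1826x2 : GoodKC AS c_wQ_26_wN_1_rb8033080e1826x2 := p_wQ_26_wN_1_rb8033080e1826x2

theorem g_wQ_26_wN_1_rb8033080e1825x2 : GoodKC AS c_wQ_26_wN_1_rb8033080e1825x2 := p_wQ_26_wN_1_rb8033080e1825x2

theorem g_wQ_26_wN_1_rb8033080e1824x2 : GoodKC AS c_wQ_26_wN_1_rb8033080e1824x2 := p_wQ_26_wN_1_rb8033080e1824x2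

theorem g_wQ_26_wN_1_rb8033080e1823x2 : GoodKC AS c_wQ_26_wN_1_rb8033080e1823x2 := p_wQ_26_wN_1_rb8033080e1823x2

theorem g__wQ_26_wN_1_rb8033080e1822x2_0 : GoodKC AS k_wQ_26_wN_1_rb8033080e1822x2_0 := p_wQ_26_wN_1_rb8033080e1822x2_0

theorem g_wQ_26_wN_1_rb8033080e1822x2 : GoodKC AS c_wQ_26_wN_1_rb8033080e1822x2 := p_wQ_26_wN_1_rb8033080e1822x2 g__wQ_26_wN_1_rb8033080e1822x2_0

theorem g_wQ_26_wN_1_rb8033080e1821x2 : GoodKC AS c_wQ_26_wN_1_rb8033080e1821x2 := p_wQ_26_wN_1_rb8033080e1821x2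

theorem g__wQ_26_wN_1_rb8033080e1820v2_1 : GoodKC AS k_wQ_26_wN_1_rb8033080e1820v2_1 := p_wQ_26_wN_1_rb8033080e1820v2_1

theorem g__wQ_26_wN_1_rb8033080e1820v2_0 : GoodKC AS k_wQ_26_wN_1_rb8033080e1820v2_0 := p_wQ_26_wN_1_rb8033080e1820v2_0 g__wQ_26_wN_1_rb8033080e1820v2_1

theorem g_wQ_26_wN_1_rb8033080e1820x2 : GoodKC AS c_wQ_26_wN_1_rb8033080e1820x2 := p_wQ_26_wN_1_rb8033080e1820x2 g__wQ_26_wN_1_rb8033080e1820v2_0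

theorem g_wQ_26_wN_1_rb8033080e181dx2 : GoodKC AS c_wQ_26_wN_1_rb8033080e181dx2 := p_wQ_26_wN_1_rb8033080e181dx2

theorem g_wQ_26_wN_1_rb8033080e181cx2 : GoodKC AS c_wQ_26_wN_1_rb8033080e181cx2 := p_wQ_26_wN_1_rb8033080e181cx2

theorem g_wQ_26_wN_1_rb8033080e181bx2 : GoodKC AS c_wQ_26_wN_1_rb8033080e181bx2 := p_wQ_26_wN_1_rb8033080e181bx2

theorem g_wQ_26_wN_1_rb8033080e181ax2 : GoodKC AS c_wQ_26_wN_1_rb8033080e181ax2 := p_wQ_26_wN_1_rb8033080e181ax2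

theorem g_wQ_26_wN_1_rb8033080e1819x2 : GoodKC AS c_wQ_26_wN_1_rb8033080e1819x2 := p_wQ_26_wN_1_rb8033080e1819x2

theorem g_wQ_26_wN_1_rb8033080e1817x2 : GoodKC AS c_wQ_26_wN_1_rb8033080e1817x2 := p_wQ_26_wN_1_rb8033080e1817x2

theorem g_wQ_26_wN_1_rb8033080e1816x2 : GoodKC AS c_wQ_26_wN_1_rb8033080e1816x2 := p_wQ_26_wN_1_rb8033080e1816x2

theorem g_wQ_26_wN_1_rb8033080e1814x2 : GoodKC AS c_wQ_26_wN_1_rb8033080e1814x2 := p_wQ_26_wN_1_rb8033080e1814x2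

theorem g_wQ_26_wN_1_rb8033080e1813x2 : GoodKC AS c_wQ_26_wN_1_rb8033080e1813x2 := p_wQ_26_wN_1_rb8033080e1813x2

theorem g_wQ_26_wN_1_rb8033080e1812x2 : GoodKC AS c_wQ_26_wN_1_rb8033080e1812x2 := p_wQ_26_wN_1_rb8033080e1812x2

theorem g_wQ_26_wN_1_rb8033080e1811x2 : GoodKC AS c_wQ_26_wN_1_rb8033080e1811x2 := p_wQ_26_wN_1_rb8033080e1811x2

theorem g_wQ_26_wN_1_rb8033080e1810x2 : GoodKC AS c_wQ_26_wN_1_rb8033080e1810x2 := p_wQ_26_wN_1_rb8033080e1810x2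

theorem g_wQ_26_wN_1_rb8033080e180fx2 : GoodKC AS c_wQ_26_wN_1_rb8033080e180fx2 := p_wQ_26_wN_1_rb8033080e180fx2

theorem g_wQ_26_wN_1_rb8033080e180ex2 : GoodKC AS c_wQ_26_wN_1_rb8033080e180ex2 := p_wQ_26_wN_1_rb8033080e180ex2

theorem g_wQ_26_wN_1_rb8033080e180dx2 : GoodKC AS c_wQ_26_wN_1_rb8033080e180dx2 := p_wQ_26_wN_1_rb8033080e180dx2

theorem g_wQ_26_wN_1_rb8033080e180cx2 : GoodKC AS c_wQ_26_wN_1_rb8033080e180cx2 := p_wQ_26_wN_1_rb8033080e180cx2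

theorem g__wQ_26_wN_1_rb8033080e1800v2_1 : GoodKC AS k_wQ_26_wN_1_rb8033080e1800v2_1 := p_wQ_26_wN_1_rb8033080e1800v2_1

theorem g__wQ_26_wN_1_rb8033080e1800v2_3 : GoodKC AS k_wQ_26_wN_1_rb8033080e1800v2_3 := p_wQ_26_wN_1_rb8033080e1800v2_3

theorem g__wQ_26_wN_1_rb8033080e1800v2_2 : GoodKC AS k_wQ_26_wN_1_rb8033080e1800v2_2 := p_wQ_26_wN_1_rb8033080e1800v2_2 g__wQ_26_wN_1_rb8033080e1800v2_3

theorem g__wQ_26_wN_1_rb8033080e1800v2_0 : GoodKC AS k_wQ_26_wN_1_rb8033080e1800v2_0 := p_wQ_26_wN_1_rb8033080e1800v2_0 g__wQ_26_wN_1_rb8033080e1800v2_1 g__wQ_26_wN_1_rb8033080e1800v2_2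

theorem g_wQ_26_wN_1_rb8033080e1800x2 : GoodKC AS c_wQ_26_wN_1_rb8033080e1800x2 := p_wQ_26_wN_1_rb8033080e1800x2 g__wQ_26_wN_1_rb8033080e1800v2_0

theorem g__wQ_26_wN_1_rb8033080e18x2_2 : GoodKC AS k_wQ_26_wN_1_rb8033080e18x2_2 := p_wQ_26_wN_1_rb8033080e18x2_2 g_wQ_26_wN_1_rb8033080e1800x2

theorem g__wQ_26_wN_1_rb8033080e18x2_1 : GoodKC AS k_wQ_26_wN_1_rb8033080e18x2_1 := p_wQ_26_wN_1_rb8033080e18x2_1 g__wQ_26_wN_1_rb8033080e18x2_2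

theorem g__wQ_26_wN_1_rb8033080e18x2_0 : GoodKC AS k_wQ_26_wN_1_rb8033080e18x2_0 := p_wQ_26_wN_1_rb8033080e18x2_0 g__wQ_26_wN_1_rb8033080e18x2_1

theorem g__wQ_26_wN_1_rb8033080e1801x2_0 : GoodKC AS k_wQ_26_wN_1_rb8033080e1801x2_0 := p_wQ_26_wN_1_rb8033080e1801x2_0

theorem g_wQ_26_wN_1_rb8033080e1801x2 : GoodKC AS c_wQ_26_wN_1_rb8033080e1801x2 := p_wQ_26_wN_1_rb8033080e1801x2 g__wQ_26_wN_1_rb8033080e1801x2_0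

theorem g_wQ_26_wN_1_rb8033080e1809x2 : GoodKC AS c_wQ_26_wN_1_rb8033080e1809x2 := p_wQ_26_wN_1_rb8033080e1809x2

theorem g_wQ_26_wN_1_rb8033080e1808x2 : GoodKC AS c_wQ_26_wN_1_rb8033080e1808x2 := p_wQ_26_wN_1_rb8033080e1808x2

theorem g_wQ_26_wN_1_rb8033080e1806x2 : GoodKC AS c_wQ_26_wN_1_rb8033080e1806x2 := p_wQ_26_wN_1_rb8033080e1806x2

theorem g_wQ_26_wN_1_rb8033080e1805x2 : GoodKC AS c_wQ_26_wN_1_rb8033080e1805x2 := p_wQ_26_wN_1_rb8033080e1805x2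

theorem g_wQ_26_wN_1_rb8033080e1804x2 : GoodKC AS c_wQ_26_wN_1_rb8033080e1804x2 := p_wQ_26_wN_1_rb8033080e1804x2

theorem g__wQ_26_wN_1_rb8033080e1803x2_0 : GoodKC AS k_wQ_26_wN_1_rb8033080e1803x2_0 := p_wQ_26_wN_1_rb8033080e1803x2_0

theorem g_wQ_26_wN_1_rb8033080e1803x2 : GoodKC AS c_wQ_26_wN_1_rb8033080e1803x2 := p_wQ_26_wN_1_rb8033080e1803x2 g__wQ_26_wN_1_rb8033080e1803x2_0

theorem g_wQ_26_wN_1_rb8033080e1802x2 : GoodKC AS c_wQ_26_wN_1_rb8033080e1802x2 := p_wQ_26_wN_1_rb8033080e1802x2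

theorem g_wQ_26_wN_1_rb8033080e1807x2 : GoodKC AS c_wQ_26_wN_1_rb8033080e1807x2 := p_wQ_26_wN_1_rb8033080e1807x2

theorem g_wQ_26_wN_1_rb8033080e180ax2 : GoodKC AS c_wQ_26_wN_1_rb8033080e180ax2 := p_wQ_26_wN_1_rb8033080e180ax2

theorem g_wQ_26_wN_1_rb8033080e180bx2 : GoodKC AS c_wQ_26_wN_1_rb8033080e180bx2 := p_wQ_26_wN_1_rb8033080e180bx2

theorem g_wQ_26_wN_1_rb8033080e1815x2 : GoodKC AS c_wQ_26_wN_1_rb8033080e1815x2 := p_wQ_26_wN_1_rb8033080e1815x2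

theorem g_wQ_26_wN_1_rb8033080e1818x2 : GoodKC AS c_wQ_26_wN_1_rb8033080e1818x2 := p_wQ_26_wN_1_rb8033080e1818x2

theorem g_wQ_26_wN_1_rb8033080e181ex2 : GoodKC AS c_wQ_26_wN_1_rb8033080e181ex2 := p_wQ_26_wN_1_rb8033080e181ex2

theorem g_wQ_26_wN_1_rb8033080e181fx2 : GoodKC AS c_wQ_26_wN_1_rb8033080e181fx2 := p_wQ_26_wN_1_rb8033080e181fx2

theorem g_wQ_26_wN_1_rb8033080e1830x2 : GoodKC AS c_wQ_26_wN_1_rb8033080e1830x2 := p_wQ_26_wN_1_rb8033080e1830x2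

theorem g_wQ_26_wN_1_rb8033080e1831x2 : GoodKC AS c_wQ_26_wN_1_rb8033080e1831x2 := p_wQ_26_wN_1_rb8033080e1831x2

theorem g_wQ_26_wN_1_rb8033080e1834x2 : GoodKC AS c_wQ_26_wN_1_rb8033080e1834x2 := p_wQ_26_wN_1_rb8033080e1834x2

theorem g_wQ_26_wN_1_rb8033080e1836x2 : GoodKC AS c_wQ_26_wN_1_rb8033080e1836x2 := p_wQ_26_wN_1_rb8033080e1836x2

theorem g_wQ_26_wN_1_rb8033080e1838x2 : GoodKC AS c_wQ_26_wN_1_rb8033080e1838x2 := p_wQ_26_wN_1_rb8033080e1838x2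

theorem g_wQ_26_wN_1_rb8033080e183dx2 : GoodKC AS c_wQ_26_wN_1_rb8033080e183dx2 := p_wQ_26_wN_1_rb8033080e183dx2

theorem g_wQ_26_wN_1_rb8033080e1842x2 : GoodKC AS c_wQ_26_wN_1_rb8033080e1842x2 := p_wQ_26_wN_1_rb8033080e1842x2

theorem g_wQ_26_wN_1_rb8033080e1843x2 : GoodKC AS c_wQ_26_wN_1_rb8033080e1843x2 := p_wQ_26_wN_1_rb8033080e1843x2

theorem g_wQ_26_wN_1_rb8033080e1849x2 : GoodKC AS c_wQ_26_wN_1_rb8033080e1849x2 := p_wQ_26_wN_1_rb8033080e1849x2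

theorem g_wQ_26_wN_1_rb8033080e184bx2 : GoodKC AS c_wQ_26_wN_1_rb8033080e184bx2 := p_wQ_26_wN_1_rb8033080e184bx2

theorem g_wQ_26_wN_1_rb8033080e184cx2 : GoodKC AS c_wQ_26_wN_1_rb8033080e184cx2 := p_wQ_26_wN_1_rb8033080e184cx2

theorem g_wQ_26_wN_1_rb8033080e1850x2 : GoodKC AS c_wQ_26_wN_1_rb8033080e1850x2 := p_wQ_26_wN_1_rb8033080e1850x2

theorem g_wQ_26_wN_1_rb8033080e1853x2 : GoodKC AS c_wQ_26_wN_1_rb8033080e1853x2 := p_wQ_26_wN_1_rb8033080e1853x2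

theorem g_wQ_26_wN_1_rb8033080e1854x2 : GoodKC AS c_wQ_26_wN_1_rb8033080e1854x2 := p_wQ_26_wN_1_rb8033080e1854x2

theorem g_wQ_26_wN_1_rb8033080e1856x2 : GoodKC AS c_wQ_26_wN_1_rb8033080e1856x2 := p_wQ_26_wN_1_rb8033080e1856x2

theorem g_wQ_26_wN_1_rb8033080e1857x2 : GoodKC AS c_wQ_26_wN_1_rb8033080e1857x2 := p_wQ_26_wN_1_rb8033080e1857x2

theorem g_wQ_26_wN_1_rb8033080e1858x2 : GoodKC AS c_wQ_26_wN_1_rb8033080e1858x2 := p_wQ_26_wN_1_rb8033080e1858x2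

theorem g_wQ_26_wN_1_rb8033080e185bx2 : GoodKC AS c_wQ_26_wN_1_rb8033080e185bx2 := p_wQ_26_wN_1_rb8033080e185bx2

theorem g_wQ_26_wN_1_rb8033080e185dx2 : GoodKC AS c_wQ_26_wN_1_rb8033080e185dx2 := p_wQ_26_wN_1_rb8033080e185dx2

theorem g_wQ_26_wN_1_rb8033080e1863x2 : GoodKC AS c_wQ_26_wN_1_rb8033080e1863x2 := p_wQ_26_wN_1_rb8033080e1863x2

theorem g_wQ_26_wN_1_rb8033080e1869x2 : GoodKC AS c_wQ_26_wN_1_rb8033080e1869x2 := p_wQ_26_wN_1_rb8033080e1869x2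

theorem g_wQ_26_wN_1_rb8033080e186ax2 : GoodKC AS c_wQ_26_wN_1_rb8033080e186ax2 := p_wQ_26_wN_1_rb8033080e186ax2

theorem g_wQ_26_wN_1_rb8033080e1870x2 : GoodKC AS c_wQ_26_wN_1_rb8033080e1870x2 := p_wQ_26_wN_1_rb8033080e1870x2

theorem g_wQ_26_wN_1_rb8033080e1871x2 : GoodKC AS c_wQ_26_wN_1_rb8033080e1871x2 := p_wQ_26_wN_1_rb8033080e1871x2

theorem g_wQ_26_wN_1_rb8033080e1874x2 : GoodKC AS c_wQ_26_wN_1_rb8033080e1874x2 := p_wQ_26_wN_1_rb8033080e1874x2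

theorem g_wQ_26_wN_1_rb8033080e1876x2 : GoodKC AS c_wQ_26_wN_1_rb8033080e1876x2 := p_wQ_26_wN_1_rb8033080e1876x2

theorem g_wQ_26_wN_1_rb8033080e1877x2 : GoodKC AS c_wQ_26_wN_1_rb8033080e1877x2 := p_wQ_26_wN_1_rb8033080e1877x2

theorem g_wQ_26_wN_1_rb8033080e1878x2 : GoodKC AS c_wQ_26_wN_1_rb8033080e1878x2 := p_wQ_26_wN_1_rb8033080e1878x2

theorem g_wQ_26_wN_1_rb8033080e187cx2 : GoodKC AS c_wQ_26_wN_1_rb8033080e187cx2 := p_wQ_26_wN_1_rb8033080e187cx2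

theorem g_wQ_26_wN_1_rb8033080e187dx2 : GoodKC AS c_wQ_26_wN_1_rb8033080e187dx2 := p_wQ_26_wN_1_rb8033080e187dx2

theorem g_wQ_26_wN_1_rb8033080e187ex2 : GoodKC AS c_wQ_26_wN_1_rb8033080e187ex2 := p_wQ_26_wN_1_rb8033080e187ex2

theorem g_wQ_26_wN_1_rb8033080e187fx2 : GoodKC AS c_wQ_26_wN_1_rb8033080e187fx2 := p_wQ_26_wN_1_rb8033080e187fx2

theorem g_wQ_26_wN_1_rb8033080e1880x2 : GoodKC AS c_wQ_26_wN_1_rb8033080e1880x2 := p_wQ_26_wN_1_rb8033080e1880x2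

theorem g_wQ_26_wN_1_rb8033080e1884x2 : GoodKC AS c_wQ_26_wN_1_rb8033080e1884x2 := p_wQ_26_wN_1_rb8033080e1884x2

theorem g_wQ_26_wN_1_rb8033080e1887x2 : GoodKC AS c_wQ_26_wN_1_rb8033080e1887x2 := p_wQ_26_wN_1_rb8033080e1887x2

theorem g_wQ_26_wN_1_rb8033080e18x3 : GoodKC AS c_wQ_26_wN_1_rb8033080e18x3 := p_wQ_26_wN_1_rb8033080e18x2 g_wQ_26_wN_1_rb8033080e1886x2 g_wQ_26_wN_1_rb8033080e1885x2 g_wQ_26_wN_1_rb8033080e1883x2 g_wQ_26_wN_1_rb8033080e1882x2 g_wQ_26_wN_1_rb8033080e1881x2 g_wQ_26_wN_1_rb8033080e187bx2 g_wQ_26_wN_1_rb8033080e187ax2 g_wQ_26_wN_1_rb8033080e1879x2 g_wQ_26_wN_1_rb8033080e1875x2 g_wQ_26_wN_1_rb8033080e1873x2 g_wQ_26_wN_1_rb8033080e1872x2 g_wQ_26_wN_1_rb8033080e186fx2 g_wQ_26_wN_1_rb8033080e186ex2 g_wQ_26_wN_1_rb8033080e186dx2 g_wQ_26_wN_1_rb8033080e186cx2 g_wQ_26_wN_1_rb8033080e186bx2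 g_wQ_26_wN_1_rb8033080e1868x2 g_wQ_26_wN_1_rb8033080e1867x2 g_wQ_26_wN_1_rb8033080e1866x2 g_wQ_26_wN_1_rb8033080e1865x2 g_wQ_26_wN_1_rb8033080e1864x2 g_wQ_26_wN_1_rb8033080e1862x2 g_wQ_26_wN_1_rb8033080e1861x2 g_wQ_26_wN_1_rb8033080e1860x2 g_wQ_26_wN_1_rb8033080e185fx2 g_wQ_26_wN_1_rb8033080e185ex2 g_wQ_26_wN_1_rb8033080e185cx2 g_wQ_26_wN_1_rb8033080e185ax2 g_wQ_26_wN_1_rb8033080e1859x2 g_wQ_26_wN_1_rb8033080e1855x2 g_wQ_26_wN_1_rb8033080e1852x2 g_wQ_26_wN_1_rb8033080e1851x2 g_wQ_26_wN_1_rb8033080e184fx2 g_wQ_26_wN_1_rb8033080e184ex2 g_wQ_26_wN_1_rb8033080e184dx2 g_wQ_26_wN_1_rb8033080e184ax2 g_wQ_26_wN_1_rb8033080e1848x2 g_wQ_26_wN_1_rb8033080e1847x2 g_wQ_26_wN_1_rb8033080e1846x2 g_wQ_26_wN_1_rb8033080e1845x2 g_wQ_26_wN_1_rb8033080e1844x2 g_wQ_26_wN_1_rb8033080e1841x2 g_wQ_26_wN_1_rb8033080e1840x2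 g_wQ_26_wN_1_rb8033080e183fx2 g_wQ_26_wN_1_rb8033080e183ex2 g_wQ_26_wN_1_rb8033080e183cx2 g_wQ_26_wN_1_rb8033080e183bx2 g_wQ_26_wN_1_rb8033080e183ax2 g_wQ_26_wN_1_rb8033080e1839x2 g_wQ_26_wN_1_rb8033080e1837x2 g_wQ_26_wN_1_rb8033080e1835x2 g_wQ_26_wN_1_rb8033080e1833x2 g_wQ_26_wN_1_rb8033080e1832x2 g_wQ_26_wN_1_rb8033080e182fx2 g_wQ_26_wN_1_rb8033080e182ex2 g_wQ_26_wN_1_rb8033080e182dx2 g_wQ_26_wN_1_rb8033080e182cx2 g_wQ_26_wN_1_rb8033080e182bx2 g_wQ_26_wN_1_rb8033080e182ax2 g_wQ_26_wN_1_rb8033080e1829x2 g_wQ_26_wN_1_rb8033080e1828x2 g_wQ_26_wN_1_rb8033080e1827x2 g_wQ_26_wN_1_rb8033080e1826x2 g_wQ_26_wN_1_rb8033080e1825x2 g_wQ_26_wN_1_rb8033080e1824x2 g_wQ_26_wN_1_rb8033080e1823x2 g_wQ_26_wN_1_rb8033080e1822x2 g_wQ_26_wN_1_rb8033080e1821x2 g_wQ_26_wN_1_rb8033080e1820x2 g_wQ_26_wN_1_rb8033080e181dx2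 g_wQ_26_wN_1_rb8033080e181cx2 g_wQ_26_wN_1_rb8033080e181bx2 g_wQ_26_wN_1_rb8033080e181ax2 g_wQ_26_wN_1_rb8033080e1819x2 g_wQ_26_wN_1_rb8033080e1817x2 g_wQ_26_wN_1_rb8033080e1816x2 g_wQ_26_wN_1_rb8033080e1814x2 g_wQ_26_wN_1_rb8033080e1813x2 g_wQ_26_wN_1_rb8033080e1812x2 g_wQ_26_wN_1_rb8033080e1811x2 g_wQ_26_wN_1_rb8033080e1810x2 g_wQ_26_wN_1_rb8033080e180fx2 g_wQ_26_wN_1_rb8033080e180ex2 g_wQ_26_wN_1_rb8033080e180dx2 g_wQ_26_wN_1_rb8033080e180cx2 g__wQ_26_wN_1_rb8033080e18x2_0 g_wQ_26_wN_1_rb8033080e1801x2 g_wQ_26_wN_1_rb8033080e1809x2 g_wQ_26_wN_1_rb8033080e1808x2 g_wQ_26_wN_1_rb8033080e1806x2 g_wQ_26_wN_1_rb8033080e1805x2 g_wQ_26_wN_1_rb8033080e1804x2 g_wQ_26_wN_1_rb8033080e1803x2 g_wQ_26_wN_1_rb8033080e1802x2 g_wQ_26_wN_1_rb8033080e1807x2 g_wQ_26_wN_1_rb8033080e180ax2 g_wQ_26_wN_1_rb8033080e180bx2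 g_wQ_26_wN_1_rb8033080e1815x2 g_wQ_26_wN_1_rb8033080e1818x2 g_wQ_26_wN_1_rb8033080e181ex2 g_wQ_26_wN_1_rb8033080e181fx2 g_wQ_26_wN_1_rb8033080e1830x2 g_wQ_26_wN_1_rb8033080e1831x2 g_wQ_26_wN_1_rb8033080e1834x2 g_wQ_26_wN_1_rb8033080e1836x2 g_wQ_26_wN_1_rb8033080e1838x2 g_wQ_26_wN_1_rb8033080e183dx2 g_wQ_26_wN_1_rb8033080e1842x2 g_wQ_26_wN_1_rb8033080e1843x2 g_wQ_26_wN_1_rb8033080e1849x2 g_wQ_26_wN_1_rb8033080e184bx2 g_wQ_26_wN_1_rb8033080e184cx2 g_wQ_26_wN_1_rb8033080e1850x2 g_wQ_26_wN_1_rb8033080e1853x2 g_wQ_26_wN_1_rb8033080e1854x2 g_wQ_26_wN_1_rb8033080e1856x2 g_wQ_26_wN_1_rb8033080e1857x2 g_wQ_26_wN_1_rb8033080e1858x2 g_wQ_26_wN_1_rb8033080e185bx2 g_wQ_26_wN_1_rb8033080e185dx2 g_wQ_26_wN_1_rb8033080e1863x2 g_wQ_26_wN_1_rb8033080e1869x2 g_wQ_26_wN_1_rb8033080e186ax2 g_wQ_26_wN_1_rb8033080e1870x2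 g_wQ_26_wN_1_rb8033080e1871x2 g_wQ_26_wN_1_rb8033080e1874x2 g_wQ_26_wN_1_rb8033080e1876x2 g_wQ_26_wN_1_rb8033080e1877x2 g_wQ_26_wN_1_rb8033080e1878x2 g_wQ_26_wN_1_rb8033080e187cx2 g_wQ_26_wN_1_rb8033080e187dx2 g_wQ_26_wN_1_rb8033080e187ex2 g_wQ_26_wN_1_rb8033080e187fx2 g_wQ_26_wN_1_rb8033080e1880x2 g_wQ_26_wN_1_rb8033080e1884x2 g_wQ_26_wN_1_rb8033080e1887x2

theorem g_wQ_26_wN_1_rb8033080e16x3 : GoodKC AS c_wQ_26_wN_1_rb8033080e16x3 := p_wQ_26_wN_1_rb8033080e16x3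

theorem g_wQ_26_wN_1_rb8033080e17x3 : GoodKC AS c_wQ_26_wN_1_rb8033080e17x3 := p_wQ_26_wN_1_rb8033080e17x3

theorem g__wQ_26_wN_1_rb8033080e14x3_2 : GoodKC AS k_wQ_26_wN_1_rb8033080e14x3_2 := p_wQ_26_wN_1_rb8033080e14x3_2

theorem g__wQ_26_wN_1_rb8033080e14x3_6 : GoodKC AS k_wQ_26_wN_1_rb8033080e14x3_6 := p_wQ_26_wN_1_rb8033080e14x3_6

theorem g__wQ_26_wN_1_rb8033080e14x3_5 : GoodKC AS k_wQ_26_wN_1_rb8033080e14x3_5 := p_wQ_26_wN_1_rb8033080e14x3_5 g__wQ_26_wN_1_rb8033080e14x3_6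

theorem g__wQ_26_wN_1_rb8033080e14x3_4 : GoodKC AS k_wQ_26_wN_1_rb8033080e14x3_4 := p_wQ_26_wN_1_rb8033080e14x3_4 g__wQ_26_wN_1_rb8033080e14x3_5

theorem g__wQ_26_wN_1_rb8033080e14x3_3 : GoodKC AS k_wQ_26_wN_1_rb8033080e14x3_3 := p_wQ_26_wN_1_rb8033080e14x3_3 g__wQ_26_wN_1_rb8033080e14x3_4

theorem g__wQ_26_wN_1_rb8033080e14x3_8 : GoodKC AS k_wQ_26_wN_1_rb8033080e14x3_8 := p_wQ_26_wN_1_rb8033080e14x3_8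

theorem g__wQ_26_wN_1_rb8033080e14x3_7 : GoodKC AS k_wQ_26_wN_1_rb8033080e14x3_7 := p_wQ_26_wN_1_rb8033080e14x3_7 g__wQ_26_wN_1_rb8033080e14x3_8

theorem g__wQ_26_wN_1_rb8033080e14x3_1 : GoodKC AS k_wQ_26_wN_1_rb8033080e14x3_1 := p_wQ_26_wN_1_rb8033080e14x3_1 g__wQ_26_wN_1_rb8033080e14x3_2 g__wQ_26_wN_1_rb8033080e14x3_3 g__wQ_26_wN_1_rb8033080e14x3_7

theorem g__wQ_26_wN_1_rb8033080e14x3_0 : GoodKC AS k_wQ_26_wN_1_rb8033080e14x3_0 := p_wQ_26_wN_1_rb8033080e14x3_0 g__wQ_26_wN_1_rb8033080e14x3_1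

theorem g_wQ_26_wN_1_rb8033080e14x3 : GoodKC AS c_wQ_26_wN_1_rb8033080e14x3 := p_wQ_26_wN_1_rb8033080e14x3 g__wQ_26_wN_1_rb8033080e14x3_0

theorem g__wQ_26_wN_1_rb8033080e13x2_3 : GoodKC AS k_wQ_26_wN_1_rb8033080e13x2_3 := p_wQ_26_wN_1_rb8033080e13x2_3

theorem g__wQ_26_wN_1_rb8033080e13x2_2 : GoodKC AS k_wQ_26_wN_1_rb8033080e13x2_2 := p_wQ_26_wN_1_rb8033080e13x2_2 g__wQ_26_wN_1_rb8033080e13x2_3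

theorem g__wQ_26_wN_1_rb8033080e13x2_9 : GoodKC AS k_wQ_26_wN_1_rb8033080e13x2_9 := p_wQ_26_wN_1_rb8033080e13x2_9

theorem g__wQ_26_wN_1_rb8033080e13x2_8 : GoodKC AS k_wQ_26_wN_1_rb8033080e13x2_8 := p_wQ_26_wN_1_rb8033080e13x2_8 g__wQ_26_wN_1_rb8033080e13x2_9

theorem g__wQ_26_wN_1_rb8033080e13x2_7 : GoodKC AS k_wQ_26_wN_1_rb8033080e13x2_7 := p_wQ_26_wN_1_rb8033080e13x2_7 g__wQ_26_wN_1_rb8033080e13x2_8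

theorem g__wQ_26_wN_1_rb8033080e13x2_11 : GoodKC AS k_wQ_26_wN_1_rb8033080e13x2_11 := p_wQ_26_wN_1_rb8033080e13x2_11

theorem g__wQ_26_wN_1_rb8033080e13x2_10 : GoodKC AS k_wQ_26_wN_1_rb8033080e13x2_10 := p_wQ_26_wN_1_rb8033080e13x2_10 g__wQ_26_wN_1_rb8033080e13x2_11

theorem g__wQ_26_wN_1_rb8033080e13x2_6 : GoodKC AS k_wQ_26_wN_1_rb8033080e13x2_6 := p_wQ_26_wN_1_rb8033080e13x2_6 g__wQ_26_wN_1_rb8033080e13x2_7 g__wQ_26_wN_1_rb8033080e13x2_10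

theorem g__wQ_26_wN_1_rb8033080e13x2_5 : GoodKC AS k_wQ_26_wN_1_rb8033080e13x2_5 := p_wQ_26_wN_1_rb8033080e13x2_5 g__wQ_26_wN_1_rb8033080e13x2_6

theorem g__wQ_26_wN_1_rb8033080e13x2_4 : GoodKC AS k_wQ_26_wN_1_rb8033080e13x2_4 := p_wQ_26_wN_1_rb8033080e13x2_4 g__wQ_26_wN_1_rb8033080e13x2_5

theorem g__wQ_26_wN_1_rb8033080e13x2_1 : GoodKC AS k_wQ_26_wN_1_rb8033080e13x2_1 := p_wQ_26_wN_1_rb8033080e13x2_1 g__wQ_26_wN_1_rb8033080e13x2_2 g__wQ_26_wN_1_rb8033080e13x2_4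

theorem g__wQ_26_wN_1_rb8033080e13x2_0 : GoodKC AS k_wQ_26_wN_1_rb8033080e13x2_0 := p_wQ_26_wN_1_rb8033080e13x2_0 g__wQ_26_wN_1_rb8033080e13x2_1

theorem g__wQ_26_wN_1_rb8033080e13x2_13 : GoodKC AS k_wQ_26_wN_1_rb8033080e13x2_13 := p_wQ_26_wN_1_rb8033080e13x2_13

theorem g__wQ_26_wN_1_rb8033080e13x2_15 : GoodKC AS k_wQ_26_wN_1_rb8033080e13x2_15 := p_wQ_26_wN_1_rb8033080e13x2_15

theorem g__wQ_26_wN_1_rb8033080e13x2_14 : GoodKC AS k_wQ_26_wN_1_rb8033080e13x2_14 := p_wQ_26_wN_1_rb8033080e13x2_14 g__wQ_26_wN_1_rb8033080e13x2_15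

theorem g__wQ_26_wN_1_rb8033080e13x2_17 : GoodKC AS k_wQ_26_wN_1_rb8033080e13x2_17 := p_wQ_26_wN_1_rb8033080e13x2_17

theorem g__wQ_26_wN_1_rb8033080e13x2_16 : GoodKC AS k_wQ_26_wN_1_rb8033080e13x2_16 := p_wQ_26_wN_1_rb8033080e13x2_16 g__wQ_26_wN_1_rb8033080e13x2_17

theorem g__wQ_26_wN_1_rb8033080e13x2_12 : GoodKC AS k_wQ_26_wN_1_rb8033080e13x2_12 := p_wQ_26_wN_1_rb8033080e13x2_12 g__wQ_26_wN_1_rb8033080e13x2_13 g__wQ_26_wN_1_rb8033080e13x2_14 g__wQ_26_wN_1_rb8033080e13x2_16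

theorem g__wQ_26_wN_1_rb8033080e13x2_20 : GoodKC AS k_wQ_26_wN_1_rb8033080e13x2_20 := p_wQ_26_wN_1_rb8033080e13x2_20

theorem g__wQ_26_wN_1_rb8033080e13x2_19 : GoodKC AS k_wQ_26_wN_1_rb8033080e13x2_19 := p_wQ_26_wN_1_rb8033080e13x2_19 g__wQ_26_wN_1_rb8033080e13x2_20

theorem g__wQ_26_wN_1_rb8033080e13x2_18 : GoodKC AS k_wQ_26_wN_1_rb8033080e13x2_18 := p_wQ_26_wN_1_rb8033080e13x2_18 g__wQ_26_wN_1_rb8033080e13x2_19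

theorem g_wQ_26_wN_1_rb8033080e13x3 : GoodKC AS c_wQ_26_wN_1_rb8033080e13x3 := p_wQ_26_wN_1_rb8033080e13x2 g__wQ_26_wN_1_rb8033080e13x2_0 g__wQ_26_wN_1_rb8033080e13x2_12 g__wQ_26_wN_1_rb8033080e13x2_18

theorem g__wQ_26_wN_1_rb8033080e12x3_0 : GoodKC AS k_wQ_26_wN_1_rb8033080e12x3_0 := p_wQ_26_wN_1_rb8033080e12x3_0

theorem g__wQ_26_wN_1_rb8033080e12x3_2 : GoodKC AS k_wQ_26_wN_1_rb8033080e12x3_2 := p_wQ_26_wN_1_rb8033080e12x3_2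

theorem g__wQ_26_wN_1_rb8033080e12x3_1 : GoodKC AS k_wQ_26_wN_1_rb8033080e12x3_1 := p_wQ_26_wN_1_rb8033080e12x3_1 g__wQ_26_wN_1_rb8033080e12x3_2

theorem g_wQ_26_wN_1_rb8033080e12x3 : GoodKC AS c_wQ_26_wN_1_rb8033080e12x3 := p_wQ_26_wN_1_rb8033080e12x3 g__wQ_26_wN_1_rb8033080e12x3_0 g__wQ_26_wN_1_rb8033080e12x3_1

theorem g__wQ_26_wN_1_rb8033080ex3_1 : GoodKC AS k_wQ_26_wN_1_rb8033080ex3_1 := p_wQ_26_wN_1_rb8033080ex3_1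

theorem g__wQ_26_wN_1_rb8033080e0ex3_0 : GoodKC AS k_wQ_26_wN_1_rb8033080e0ex3_0 := p_wQ_26_wN_1_rb8033080e0ex3_0

theorem g_wQ_26_wN_1_rb8033080e0ex3 : GoodKC AS c_wQ_26_wN_1_rb8033080e0ex3 := p_wQ_26_wN_1_rb8033080e0ex3 g__wQ_26_wN_1_rb8033080e0ex3_0

theorem g__wQ_26_wN_1_rb8033080e0cx3_2 : GoodKC AS k_wQ_26_wN_1_rb8033080e0cx3_2 := p_wQ_26_wN_1_rb8033080e0cx3_2

theorem g__wQ_26_wN_1_rb8033080e0cx3_1 : GoodKC AS k_wQ_26_wN_1_rb8033080e0cx3_1 := p_wQ_26_wN_1_rb8033080e0cx3_1 g__wQ_26_wN_1_rb8033080e0cx3_2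

theorem g__wQ_26_wN_1_rb8033080e0cx3_0 : GoodKC AS k_wQ_26_wN_1_rb8033080e0cx3_0 := p_wQ_26_wN_1_rb8033080e0cx3_0 g__wQ_26_wN_1_rb8033080e0cx3_1

theorem g_wQ_26_wN_1_rb8033080e0cx3 : GoodKC AS c_wQ_26_wN_1_rb8033080e0cx3 := p_wQ_26_wN_1_rb8033080e0cx3 g__wQ_26_wN_1_rb8033080e0cx3_0

theorem g__wQ_26_wN_1_rb8033080e0ax3_0 : GoodKC AS k_wQ_26_wN_1_rb8033080e0ax3_0 := p_wQ_26_wN_1_rb8033080e0ax3_0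

theorem g_wQ_26_wN_1_rb8033080e0ax3 : GoodKC AS c_wQ_26_wN_1_rb8033080e0ax3 := p_wQ_26_wN_1_rb8033080e0ax3 g__wQ_26_wN_1_rb8033080e0ax3_0

theorem g__wQ_26_wN_1_rb8033080e09x3_4 : GoodKC AS k_wQ_26_wN_1_rb8033080e09x3_4 := p_wQ_26_wN_1_rb8033080e09x3_4

theorem g__wQ_26_wN_1_rb8033080e09x3_3 : GoodKC AS k_wQ_26_wN_1_rb8033080e09x3_3 := p_wQ_26_wN_1_rb8033080e09x3_3 g__wQ_26_wN_1_rb8033080e09x3_4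

theorem g__wQ_26_wN_1_rb8033080e09x3_5 : GoodKC AS k_wQ_26_wN_1_rb8033080e09x3_5 := p_wQ_26_wN_1_rb8033080e09x3_5

theorem g__wQ_26_wN_1_rb8033080e09x3_2 : GoodKC AS k_wQ_26_wN_1_rb8033080e09x3_2 := p_wQ_26_wN_1_rb8033080e09x3_2 g__wQ_26_wN_1_rb8033080e09x3_3 g__wQ_26_wN_1_rb8033080e09x3_5

theorem g__wQ_26_wN_1_rb8033080e09x3_10 : GoodKC AS k_wQ_26_wN_1_rb8033080e09x3_10 := p_wQ_26_wN_1_rb8033080e09x3_10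

theorem g__wQ_26_wN_1_rb8033080e09x3_11 : GoodKC AS k_wQ_26_wN_1_rb8033080e09x3_11 := p_wQ_26_wN_1_rb8033080e09x3_11

theorem g__wQ_26_wN_1_rb8033080e09x3_13 : GoodKC AS k_wQ_26_wN_1_rb8033080e09x3_13 := p_wQ_26_wN_1_rb8033080e09x3_13

theorem g__wQ_26_wN_1_rb8033080e09x3_12 : GoodKC AS k_wQ_26_wN_1_rb8033080e09x3_12 := p_wQ_26_wN_1_rb8033080e09x3_12 g__wQ_26_wN_1_rb8033080e09x3_13

theorem g__wQ_26_wN_1_rb8033080e09x3_9 : GoodKC AS k_wQ_26_wN_1_rb8033080e09x3_9 := p_wQ_26_wN_1_rb8033080e09x3_9 g__wQ_26_wN_1_rb8033080e09x3_10 g__wQ_26_wN_1_rb8033080e09x3_11 g__wQ_26_wN_1_rb8033080e09x3_12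

theorem g__wQ_26_wN_1_rb8033080e09x3_8 : GoodKC AS k_wQ_26_wN_1_rb8033080e09x3_8 := p_wQ_26_wN_1_rb8033080e09x3_8 g__wQ_26_wN_1_rb8033080e09x3_9

theorem g__wQ_26_wN_1_rb8033080e09x3_7 : GoodKC AS k_wQ_26_wN_1_rb8033080e09x3_7 := p_wQ_26_wN_1_rb8033080e09x3_7 g__wQ_26_wN_1_rb8033080e09x3_8

theorem g__wQ_26_wN_1_rb8033080e09x3_6 : GoodKC AS k_wQ_26_wN_1_rb8033080e09x3_6 := p_wQ_26_wN_1_rb8033080e09x3_6 g__wQ_26_wN_1_rb8033080e09x3_7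

theorem g__wQ_26_wN_1_rb8033080e09x3_1 : GoodKC AS k_wQ_26_wN_1_rb8033080e09x3_1 := p_wQ_26_wN_1_rb8033080e09x3_1 g__wQ_26_wN_1_rb8033080e09x3_2 g__wQ_26_wN_1_rb8033080e09x3_6

theorem g__wQ_26_wN_1_rb8033080e09x3_0 : GoodKC AS k_wQ_26_wN_1_rb8033080e09x3_0 := p_wQ_26_wN_1_rb8033080e09x3_0 g__wQ_26_wN_1_rb8033080e09x3_1

theorem g_wQ_26_wN_1_rb8033080e09x3 : GoodKC AS c_wQ_26_wN_1_rb8033080e09x3 := p_wQ_26_wN_1_rb8033080e09x3 g__wQ_26_wN_1_rb8033080e09x3_0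

theorem g_wQ_26_wN_1_rb8033080e06x3 : GoodKC AS c_wQ_26_wN_1_rb8033080e06x3 := p_wQ_26_wN_1_rb8033080e06x3

theorem g_wQ_26_wN_1_rb8033080e05x3 : GoodKC AS c_wQ_26_wN_1_rb8033080e05x3 := p_wQ_26_wN_1_rb8033080e05x3

theorem g_wQ_26_wN_1_rb8033080e0422x2 : GoodKC AS c_wQ_26_wN_1_rb8033080e0422x2 := p_wQ_26_wN_1_rb8033080e0422x2

theorem g__wQ_26_wN_1_rb8033080e0420v2_2 : GoodKC AS k_wQ_26_wN_1_rb8033080e0420v2_2 := p_wQ_26_wN_1_rb8033080e0420v2_2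

theorem g__wQ_26_wN_1_rb8033080e0420v2_1 : GoodKC AS k_wQ_26_wN_1_rb8033080e0420v2_1 := p_wQ_26_wN_1_rb8033080e0420v2_1 g__wQ_26_wN_1_rb8033080e0420v2_2

theorem g__wQ_26_wN_1_rb8033080e0420v2_0 : GoodKC AS k_wQ_26_wN_1_rb8033080e0420v2_0 := p_wQ_26_wN_1_rb8033080e0420v2_0 g__wQ_26_wN_1_rb8033080e0420v2_1

theorem g__wQ_26_wN_1_rb8033080e0420v2_4 : GoodKC AS k_wQ_26_wN_1_rb8033080e0420v2_4 := p_wQ_26_wN_1_rb8033080e0420v2_4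

theorem g__wQ_26_wN_1_rb8033080e0420v2_6 : GoodKC AS k_wQ_26_wN_1_rb8033080e0420v2_6 := p_wQ_26_wN_1_rb8033080e0420v2_6

theorem g__wQ_26_wN_1_rb8033080e0420v2_5 : GoodKC AS k_wQ_26_wN_1_rb8033080e0420v2_5 := p_wQ_26_wN_1_rb8033080e0420v2_5 g__wQ_26_wN_1_rb8033080e0420v2_6

theorem g__wQ_26_wN_1_rb8033080e0420v2_3 : GoodKC AS k_wQ_26_wN_1_rb8033080e0420v2_3 := p_wQ_26_wN_1_rb8033080e0420v2_3 g__wQ_26_wN_1_rb8033080e0420v2_4 g__wQ_26_wN_1_rb8033080e0420v2_5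

theorem g_wQ_26_wN_1_rb8033080e0420x2 : GoodKC AS c_wQ_26_wN_1_rb8033080e0420x2 := p_wQ_26_wN_1_rb8033080e0420x2 g__wQ_26_wN_1_rb8033080e0420v2_0 g__wQ_26_wN_1_rb8033080e0420v2_3

theorem g_wQ_26_wN_1_rb8033080e041dx2 : GoodKC AS c_wQ_26_wN_1_rb8033080e041dx2 := p_wQ_26_wN_1_rb8033080e041dx2

theorem g_wQ_26_wN_1_rb8033080e041bx2 : GoodKC AS c_wQ_26_wN_1_rb8033080e041bx2 := p_wQ_26_wN_1_rb8033080e041bx2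

theorem g_wQ_26_wN_1_rb8033080e041ax2 : GoodKC AS c_wQ_26_wN_1_rb8033080e041ax2 := p_wQ_26_wN_1_rb8033080e041ax2

theorem g_wQ_26_wN_1_rb8033080e0419x2 : GoodKC AS c_wQ_26_wN_1_rb8033080e0419x2 := p_wQ_26_wN_1_rb8033080e0419x2

theorem g_wQ_26_wN_1_rb8033080e0418x2 : GoodKC AS c_wQ_26_wN_1_rb8033080e0418x2 := p_wQ_26_wN_1_rb8033080e0418x2

theorem g_wQ_26_wN_1_rb8033080e0417x2 : GoodKC AS c_wQ_26_wN_1_rb8033080e0417x2 := p_wQ_26_wN_1_rb8033080e0417x2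

theorem g_wQ_26_wN_1_rb8033080e0416x2 : GoodKC AS c_wQ_26_wN_1_rb8033080e0416x2 := p_wQ_26_wN_1_rb8033080e0416x2

theorem g__wQ_26_wN_1_rb8033080e0415x2_1 : GoodKC AS k_wQ_26_wN_1_rb8033080e0415x2_1 := p_wQ_26_wN_1_rb8033080e0415x2_1

theorem g__wQ_26_wN_1_rb8033080e0415x2_0 : GoodKC AS k_wQ_26_wN_1_rb8033080e0415x2_0 := p_wQ_26_wN_1_rb8033080e0415x2_0 g__wQ_26_wN_1_rb8033080e0415x2_1

theorem g_wQ_26_wN_1_rb8033080e0415x2 : GoodKC AS c_wQ_26_wN_1_rb8033080e0415x2 := p_wQ_26_wN_1_rb8033080e0415x2 g__wQ_26_wN_1_rb8033080e0415x2_0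

theorem g_wQ_26_wN_1_rb8033080e0413x2 : GoodKC AS c_wQ_26_wN_1_rb8033080e0413x2 := p_wQ_26_wN_1_rb8033080e0413x2

theorem g_wQ_26_wN_1_rb8033080e0412x2 : GoodKC AS c_wQ_26_wN_1_rb8033080e0412x2 := p_wQ_26_wN_1_rb8033080e0412x2

theorem g_wQ_26_wN_1_rb8033080e0411x2 : GoodKC AS c_wQ_26_wN_1_rb8033080e0411x2 := p_wQ_26_wN_1_rb8033080e0411x2

theorem g__wQ_26_wN_1_rb8033080e040ex2_1 : GoodKC AS k_wQ_26_wN_1_rb8033080e040ex2_1 := p_wQ_26_wN_1_rb8033080e040ex2_1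

theorem g__wQ_26_wN_1_rb8033080e040ex2_0 : GoodKC AS k_wQ_26_wN_1_rb8033080e040ex2_0 := p_wQ_26_wN_1_rb8033080e040ex2_0 g__wQ_26_wN_1_rb8033080e040ex2_1

theorem g_wQ_26_wN_1_rb8033080e040ex2 : GoodKC AS c_wQ_26_wN_1_rb8033080e040ex2 := p_wQ_26_wN_1_rb8033080e040ex2 g__wQ_26_wN_1_rb8033080e040ex2_0

theorem g_wQ_26_wN_1_rb8033080e040dx2 : GoodKC AS c_wQ_26_wN_1_rb8033080e040dx2 := p_wQ_26_wN_1_rb8033080e040dx2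

theorem g_wQ_26_wN_1_rb8033080e040bx2 : GoodKC AS c_wQ_26_wN_1_rb8033080e040bx2 := p_wQ_26_wN_1_rb8033080e040bx2

theorem g_wQ_26_wN_1_rb8033080e0408x2 : GoodKC AS c_wQ_26_wN_1_rb8033080e0408x2 := p_wQ_26_wN_1_rb8033080e0408x2

theorem g_wQ_26_wN_1_rb8033080e0407x2 : GoodKC AS c_wQ_26_wN_1_rb8033080e0407x2 := p_wQ_26_wN_1_rb8033080e0407x2

theorem g_wQ_26_wN_1_rb8033080e0406x2 : GoodKC AS c_wQ_26_wN_1_rb8033080e0406x2 := p_wQ_26_wN_1_rb8033080e0406x2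

theorem g_wQ_26_wN_1_rb8033080e0404x2 : GoodKC AS c_wQ_26_wN_1_rb8033080e0404x2 := p_wQ_26_wN_1_rb8033080e0404x2

theorem g_wQ_26_wN_1_rb8033080e0403x2 : GoodKC AS c_wQ_26_wN_1_rb8033080e0403x2 := p_wQ_26_wN_1_rb8033080e0403x2

theorem g_wQ_26_wN_1_rb8033080e0402x2 : GoodKC AS c_wQ_26_wN_1_rb8033080e0402x2 := p_wQ_26_wN_1_rb8033080e0402x2

theorem g_wQ_26_wN_1_rb8033080e0401x2 : GoodKC AS c_wQ_26_wN_1_rb8033080e0401x2 := p_wQ_26_wN_1_rb8033080e0401x2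

theorem g_wQ_26_wN_1_rb8033080e0405x2 : GoodKC AS c_wQ_26_wN_1_rb8033080e0405x2 := p_wQ_26_wN_1_rb8033080e0405x2

theorem g_wQ_26_wN_1_rb8033080e0409x2 : GoodKC AS c_wQ_26_wN_1_rb8033080e0409x2 := p_wQ_26_wN_1_rb8033080e0409x2

theorem g_wQ_26_wN_1_rb8033080e040ax2 : GoodKC AS c_wQ_26_wN_1_rb8033080e040ax2 := p_wQ_26_wN_1_rb8033080e040ax2

theorem g_wQ_26_wN_1_rb8033080e040cx2 : GoodKC AS c_wQ_26_wN_1_rb8033080e040cx2 := p_wQ_26_wN_1_rb8033080e040cx2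

theorem g__wQ_26_wN_1_rb8033080e04x2_0 : GoodKC AS k_wQ_26_wN_1_rb8033080e04x2_0 := p_wQ_26_wN_1_rb8033080e04x2_0

theorem g_wQ_26_wN_1_rb8033080e040002x2 : GoodKC AS c_wQ_26_wN_1_rb8033080e040002x2 := p_wQ_26_wN_1_rb8033080e040002x2

theorem g__wQ_26_wN_1_rb8033080e040001x2_1 : GoodKC AS k_wQ_26_wN_1_rb8033080e040001x2_1 := p_wQ_26_wN_1_rb8033080e040001x2_1

theorem g__wQ_26_wN_1_rb8033080e040001x2_2 : GoodKC AS k_wQ_26_wN_1_rb8033080e040001x2_2 := p_wQ_26_wN_1_rb8033080e040001x2_2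

theorem g__wQ_26_wN_1_rb8033080e040001x2_0 : GoodKC AS k_wQ_26_wN_1_rb8033080e040001x2_0 := p_wQ_26_wN_1_rb8033080e040001x2_0 g__wQ_26_wN_1_rb8033080e040001x2_1 g__wQ_26_wN_1_rb8033080e040001x2_2

theorem g_wQ_26_wN_1_rb8033080e04000100x2 : GoodKC AS c_wQ_26_wN_1_rb8033080e04000100x2 := p_wQ_26_wN_1_rb8033080e04000100x2

theorem g_wQ_26_wN_1_rb8033080e040001x2 : GoodKC AS c_wQ_26_wN_1_rb8033080e040001x2 := p_wQ_26_wN_1_rb8033080e040001x2 g__wQ_26_wN_1_rb8033080e040001x2_0 g_wQ_26_wN_1_rb8033080e04000100x2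

theorem g__wQ_26_wN_1_rb8033080e0400v2_8 : GoodKC AS k_wQ_26_wN_1_rb8033080e0400v2_8 := p_wQ_26_wN_1_rb8033080e0400v2_8

theorem g__wQ_26_wN_1_rb8033080e0400v2_7 : GoodKC AS k_wQ_26_wN_1_rb8033080e0400v2_7 := p_wQ_26_wN_1_rb8033080e0400v2_7 g__wQ_26_wN_1_rb8033080e0400v2_8

theorem g__wQ_26_wN_1_rb8033080e0400v2_6 : GoodKC AS k_wQ_26_wN_1_rb8033080e0400v2_6 := p_wQ_26_wN_1_rb8033080e0400v2_6 g__wQ_26_wN_1_rb8033080e0400v2_7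

theorem g__wQ_26_wN_1_rb8033080e0400v2_10 : GoodKC AS k_wQ_26_wN_1_rb8033080e0400v2_10 := p_wQ_26_wN_1_rb8033080e0400v2_10

theorem g__wQ_26_wN_1_rb8033080e0400v2_9 : GoodKC AS k_wQ_26_wN_1_rb8033080e0400v2_9 := p_wQ_26_wN_1_rb8033080e0400v2_9 g__wQ_26_wN_1_rb8033080e0400v2_10

theorem g__wQ_26_wN_1_rb8033080e0400v2_5 : GoodKC AS k_wQ_26_wN_1_rb8033080e0400v2_5 := p_wQ_26_wN_1_rb8033080e0400v2_5 g__wQ_26_wN_1_rb8033080e0400v2_6 g__wQ_26_wN_1_rb8033080e0400v2_9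

theorem g__wQ_26_wN_1_rb8033080e0400v2_4 : GoodKC AS k_wQ_26_wN_1_rb8033080e0400v2_4 := p_wQ_26_wN_1_rb8033080e0400v2_4 g__wQ_26_wN_1_rb8033080e0400v2_5

theorem g__wQ_26_wN_1_rb8033080e0400v2_3 : GoodKC AS k_wQ_26_wN_1_rb8033080e0400v2_3 := p_wQ_26_wN_1_rb8033080e0400v2_3 g__wQ_26_wN_1_rb8033080e0400v2_4

theorem g__wQ_26_wN_1_rb8033080e040000v2_2 : GoodKC AS k_wQ_26_wN_1_rb8033080e040000v2_2 := p_wQ_26_wN_1_rb8033080e040000v2_2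

theorem g__wQ_26_wN_1_rb8033080e040000v2_4 : GoodKC AS k_wQ_26_wN_1_rb8033080e040000v2_4 := p_wQ_26_wN_1_rb8033080e040000v2_4

theorem g__wQ_26_wN_1_rb8033080e040000v2_6 : GoodKC AS k_wQ_26_wN_1_rb8033080e040000v2_6 := p_wQ_26_wN_1_rb8033080e040000v2_6

theorem g__wQ_26_wN_1_rb8033080e040000v2_8 : GoodKC AS k_wQ_26_wN_1_rb8033080e040000v2_8 := p_wQ_26_wN_1_rb8033080e040000v2_8

theorem g__wQ_26_wN_1_rb8033080e040000v2_9 : GoodKC AS k_wQ_26_wN_1_rb8033080e040000v2_9 := p_wQ_26_wN_1_rb8033080e040000v2_9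

theorem g__wQ_26_wN_1_rb8033080e040000v2_10 : GoodKC AS k_wQ_26_wN_1_rb8033080e040000v2_10 := p_wQ_26_wN_1_rb8033080e040000v2_10

theorem g__wQ_26_wN_1_rb8033080e040000v2_7 : GoodKC AS k_wQ_26_wN_1_rb8033080e040000v2_7 := p_wQ_26_wN_1_rb8033080e040000v2_7 g__wQ_26_wN_1_rb8033080e040000v2_8 g__wQ_26_wN_1_rb8033080e040000v2_9 g__wQ_26_wN_1_rb8033080e040000v2_10

theorem g__wQ_26_wN_1_rb8033080e040000v2_13 : GoodKC AS k_wQ_26_wN_1_rb8033080e040000v2_13 := p_wQ_26_wN_1_rb8033080e040000v2_13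

theorem g__wQ_26_wN_1_rb8033080e040000v2_12 : GoodKC AS k_wQ_26_wN_1_rb8033080e040000v2_12 := p_wQ_26_wN_1_rb8033080e040000v2_12 g__wQ_26_wN_1_rb8033080e040000v2_13

theorem g__wQ_26_wN_1_rb8033080e040000v2_11 : GoodKC AS k_wQ_26_wN_1_rb8033080e040000v2_11 := p_wQ_26_wN_1_rb8033080e040000v2_11 g__wQ_26_wN_1_rb8033080e040000v2_12

theorem g__wQ_26_wN_1_rb8033080e040000v2_5 : GoodKC AS k_wQ_26_wN_1_rb8033080e040000v2_5 := p_wQ_26_wN_1_rb8033080e040000v2_5 g__wQ_26_wN_1_rb8033080e040000v2_6 g__wQ_26_wN_1_rb8033080e040000v2_7 g__wQ_26_wN_1_rb8033080e040000v2_11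

theorem g__wQ_26_wN_1_rb8033080e040000v2_3 : GoodKC AS k_wQ_26_wN_1_rb8033080e040000v2_3 := p_wQ_26_wN_1_rb8033080e040000v2_3 g__wQ_26_wN_1_rb8033080e040000v2_4 g__wQ_26_wN_1_rb8033080e040000v2_5

theorem g__wQ_26_wN_1_rb8033080e040000v2_1 : GoodKC AS k_wQ_26_wN_1_rb8033080e040000v2_1 := p_wQ_26_wN_1_rb8033080e040000v2_1 g__wQ_26_wN_1_rb8033080e040000v2_2 g__wQ_26_wN_1_rb8033080e040000v2_3

theorem g__wQ_26_wN_1_rb8033080e040000v2_0 : GoodKC AS k_wQ_26_wN_1_rb8033080e040000v2_0 := p_wQ_26_wN_1_rb8033080e040000v2_0 g__wQ_26_wN_1_rb8033080e040000v2_1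

theorem g_wQ_26_wN_1_rb8033080e040000x2 : GoodKC AS c_wQ_26_wN_1_rb8033080e040000x2 := p_wQ_26_wN_1_rb8033080e040000x2 g__wQ_26_wN_1_rb8033080e040000v2_0

theorem g__wQ_26_wN_1_rb8033080e0400v2_2 : GoodKC AS k_wQ_26_wN_1_rb8033080e0400v2_2 := p_wQ_26_wN_1_rb8033080e0400v2_2 g_wQ_26_wN_1_rb8033080e040001x2 g__wQ_26_wN_1_rb8033080e0400v2_3 g_wQ_26_wN_1_rb8033080e040000x2

theorem g__wQ_26_wN_1_rb8033080e0400v2_11 : GoodKC AS k_wQ_26_wN_1_rb8033080e0400v2_11 := p_wQ_26_wN_1_rb8033080e0400v2_11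

theorem g__wQ_26_wN_1_rb8033080e0400v2_1 : GoodKC AS k_wQ_26_wN_1_rb8033080e0400v2_1 := p_wQ_26_wN_1_rb8033080e0400v2_1 g__wQ_26_wN_1_rb8033080e0400v2_2 g__wQ_26_wN_1_rb8033080e0400v2_11

theorem g__wQ_26_wN_1_rb8033080e0400v2_0 : GoodKC AS k_wQ_26_wN_1_rb8033080e0400v2_0 := p_wQ_26_wN_1_rb8033080e0400v2_0 g__wQ_26_wN_1_rb8033080e0400v2_1

theorem g_wQ_26_wN_1_rb8033080e0400x2 : GoodKC AS c_wQ_26_wN_1_rb8033080e0400x2 := p_wQ_26_wN_1_rb8033080e0400x2 g_wQ_26_wN_1_rb8033080e040002x2 g__wQ_26_wN_1_rb8033080e0400v2_0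

theorem g__wQ_26_wN_1_rb8033080e04x2_3 : GoodKC AS k_wQ_26_wN_1_rb8033080e04x2_3 := p_wQ_26_wN_1_rb8033080e04x2_3 g_wQ_26_wN_1_rb8033080e0400x2

theorem g__wQ_26_wN_1_rb8033080e04x2_2 : GoodKC AS k_wQ_26_wN_1_rb8033080e04x2_2 := p_wQ_26_wN_1_rb8033080e04x2_2 g__wQ_26_wN_1_rb8033080e04x2_3

theorem g__wQ_26_wN_1_rb8033080e04x2_1 : GoodKC AS k_wQ_26_wN_1_rb8033080e04x2_1 := p_wQ_26_wN_1_rb8033080e04x2_1 g__wQ_26_wN_1_rb8033080e04x2_2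

theorem g_wQ_26_wN_1_rb8033080e040fx2 : GoodKC AS c_wQ_26_wN_1_rb8033080e040fx2 := p_wQ_26_wN_1_rb8033080e040fx2

theorem g_wQ_26_wN_1_rb8033080e0410x2 : GoodKC AS c_wQ_26_wN_1_rb8033080e0410x2 := p_wQ_26_wN_1_rb8033080e0410x2

theorem g_wQ_26_wN_1_rb8033080e0414x2 : GoodKC AS c_wQ_26_wN_1_rb8033080e0414x2 := p_wQ_26_wN_1_rb8033080e0414x2

theorem g_wQ_26_wN_1_rb8033080e041cx2 : GoodKC AS c_wQ_26_wN_1_rb8033080e041cx2 := p_wQ_26_wN_1_rb8033080e041cx2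

theorem g__wQ_26_wN_1_rb8033080e04x2_8 : GoodKC AS k_wQ_26_wN_1_rb8033080e04x2_8 := p_wQ_26_wN_1_rb8033080e04x2_8

theorem g__wQ_26_wN_1_rb8033080e04x2_7 : GoodKC AS k_wQ_26_wN_1_rb8033080e04x2_7 := p_wQ_26_wN_1_rb8033080e04x2_7 g__wQ_26_wN_1_rb8033080e04x2_8

theorem g__wQ_26_wN_1_rb8033080e04x2_6 : GoodKC AS k_wQ_26_wN_1_rb8033080e04x2_6 := p_wQ_26_wN_1_rb8033080e04x2_6 g__wQ_26_wN_1_rb8033080e04x2_7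

theorem g__wQ_26_wN_1_rb8033080e04x2_5 : GoodKC AS k_wQ_26_wN_1_rb8033080e04x2_5 := p_wQ_26_wN_1_rb8033080e04x2_5 g__wQ_26_wN_1_rb8033080e04x2_6

theorem g__wQ_26_wN_1_rb8033080e04x2_4 : GoodKC AS k_wQ_26_wN_1_rb8033080e04x2_4 := p_wQ_26_wN_1_rb8033080e04x2_4 g__wQ_26_wN_1_rb8033080e04x2_5

theorem g_wQ_26_wN_1_rb8033080e041ex2 : GoodKC AS c_wQ_26_wN_1_rb8033080e041ex2 := p_wQ_26_wN_1_rb8033080e041ex2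

theorem g_wQ_26_wN_1_rb8033080e041fx2 : GoodKC AS c_wQ_26_wN_1_rb8033080e041fx2 := p_wQ_26_wN_1_rb8033080e041fx2

theorem g_wQ_26_wN_1_rb8033080e0421x2 : GoodKC AS c_wQ_26_wN_1_rb8033080e0421x2 := p_wQ_26_wN_1_rb8033080e0421x2

theorem g__wQ_26_wN_1_rb8033080e04x2_11 : GoodKC AS k_wQ_26_wN_1_rb8033080e04x2_11 := p_wQ_26_wN_1_rb8033080e04x2_11

theorem g__wQ_26_wN_1_rb8033080e04x2_15 : GoodKC AS k_wQ_26_wN_1_rb8033080e04x2_15 := p_wQ_26_wN_1_rb8033080e04x2_15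

theorem g__wQ_26_wN_1_rb8033080e04x2_14 : GoodKC AS k_wQ_26_wN_1_rb8033080e04x2_14 := p_wQ_26_wN_1_rb8033080e04x2_14 g__wQ_26_wN_1_rb8033080e04x2_15

theorem g__wQ_26_wN_1_rb8033080e04x2_16 : GoodKC AS k_wQ_26_wN_1_rb8033080e04x2_16 := p_wQ_26_wN_1_rb8033080e04x2_16

theorem g__wQ_26_wN_1_rb8033080e04x2_13 : GoodKC AS k_wQ_26_wN_1_rb8033080e04x2_13 := p_wQ_26_wN_1_rb8033080e04x2_13 g__wQ_26_wN_1_rb8033080e04x2_14 g__wQ_26_wN_1_rb8033080e04x2_16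

theorem g__wQ_26_wN_1_rb8033080e04x2_19 : GoodKC AS k_wQ_26_wN_1_rb8033080e04x2_19 := p_wQ_26_wN_1_rb8033080e04x2_19

theorem g__wQ_26_wN_1_rb8033080e04x2_18 : GoodKC AS k_wQ_26_wN_1_rb8033080e04x2_18 := p_wQ_26_wN_1_rb8033080e04x2_18 g__wQ_26_wN_1_rb8033080e04x2_19

theorem g__wQ_26_wN_1_rb8033080e04x2_17 : GoodKC AS k_wQ_26_wN_1_rb8033080e04x2_17 := p_wQ_26_wN_1_rb8033080e04x2_17 g__wQ_26_wN_1_rb8033080e04x2_18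

theorem g__wQ_26_wN_1_rb8033080e04x2_12 : GoodKC AS k_wQ_26_wN_1_rb8033080e04x2_12 := p_wQ_26_wN_1_rb8033080e04x2_12 g__wQ_26_wN_1_rb8033080e04x2_13 g__wQ_26_wN_1_rb8033080e04x2_17

theorem g__wQ_26_wN_1_rb8033080e04x2_10 : GoodKC AS k_wQ_26_wN_1_rb8033080e04x2_10 := p_wQ_26_wN_1_rb8033080e04x2_10 g__wQ_26_wN_1_rb8033080e04x2_11 g__wQ_26_wN_1_rb8033080e04x2_12

theorem g__wQ_26_wN_1_rb8033080e04x2_22 : GoodKC AS k_wQ_26_wN_1_rb8033080e04x2_22 := p_wQ_26_wN_1_rb8033080e04x2_22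

theorem g__wQ_26_wN_1_rb8033080e04x2_24 : GoodKC AS k_wQ_26_wN_1_rb8033080e04x2_24 := p_wQ_26_wN_1_rb8033080e04x2_24

theorem g__wQ_26_wN_1_rb8033080e04x2_25 : GoodKC AS k_wQ_26_wN_1_rb8033080e04x2_25 := p_wQ_26_wN_1_rb8033080e04x2_25

theorem g__wQ_26_wN_1_rb8033080e04x2_26 : GoodKC AS k_wQ_26_wN_1_rb8033080e04x2_26 := p_wQ_26_wN_1_rb8033080e04x2_26

theorem g__wQ_26_wN_1_rb8033080e04x2_23 : GoodKC AS k_wQ_26_wN_1_rb8033080e04x2_23 := p_wQ_26_wN_1_rb8033080e04x2_23 g__wQ_26_wN_1_rb8033080e04x2_24 g__wQ_26_wN_1_rb8033080e04x2_25 g__wQ_26_wN_1_rb8033080e04x2_26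

theorem g__wQ_26_wN_1_rb8033080e04x2_21 : GoodKC AS k_wQ_26_wN_1_rb8033080e04x2_21 := p_wQ_26_wN_1_rb8033080e04x2_21 g__wQ_26_wN_1_rb8033080e04x2_22 g__wQ_26_wN_1_rb8033080e04x2_23

theorem g__wQ_26_wN_1_rb8033080e04x2_20 : GoodKC AS k_wQ_26_wN_1_rb8033080e04x2_20 := p_wQ_26_wN_1_rb8033080e04x2_20 g__wQ_26_wN_1_rb8033080e04x2_21

theorem g__wQ_26_wN_1_rb8033080e04x2_9 : GoodKC AS k_wQ_26_wN_1_rb8033080e04x2_9 := p_wQ_26_wN_1_rb8033080e04x2_9 g__wQ_26_wN_1_rb8033080e04x2_10 g__wQ_26_wN_1_rb8033080e04x2_20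

theorem g_wQ_26_wN_1_rb8033080e0423x2 : GoodKC AS c_wQ_26_wN_1_rb8033080e0423x2 := p_wQ_26_wN_1_rb8033080e0423x2

theorem g_wQ_26_wN_1_rb8033080e04x3 : GoodKC AS c_wQ_26_wN_1_rb8033080e04x3 := p_wQ_26_wN_1_rb8033080e04x2 g_wQ_26_wN_1_rb8033080e0422x2 g_wQ_26_wN_1_rb8033080e0420x2 g_wQ_26_wN_1_rb8033080e041dx2 g_wQ_26_wN_1_rb8033080e041bx2 g_wQ_26_wN_1_rb8033080e041ax2 g_wQ_26_wN_1_rb8033080e0419x2 g_wQ_26_wN_1_rb8033080e0418x2 g_wQ_26_wN_1_rb8033080e0417x2 g_wQ_26_wN_1_rb8033080e0416x2 g_wQ_26_wN_1_rb8033080e0415x2 g_wQ_26_wN_1_rb8033080e0413x2 g_wQ_26_wN_1_rb8033080e0412x2 g_wQ_26_wN_1_rb8033080e0411x2 g_wQ_26_wN_1_rb8033080e040ex2 g_wQ_26_wN_1_rb8033080e040dx2 g_wQ_26_wN_1_rb8033080e040bx2 g_wQ_26_wN_1_rb8033080e0408x2 g_wQ_26_wN_1_rb8033080e0407x2 g_wQ_26_wN_1_rb8033080e0406x2 g_wQ_26_wN_1_rb8033080e0404x2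 g_wQ_26_wN_1_rb8033080e0403x2 g_wQ_26_wN_1_rb8033080e0402x2 g_wQ_26_wN_1_rb8033080e0401x2 g_wQ_26_wN_1_rb8033080e0405x2 g_wQ_26_wN_1_rb8033080e0409x2 g_wQ_26_wN_1_rb8033080e040ax2 g_wQ_26_wN_1_rb8033080e040cx2 g__wQ_26_wN_1_rb8033080e04x2_0 g__wQ_26_wN_1_rb8033080e04x2_1 g_wQ_26_wN_1_rb8033080e040fx2 g_wQ_26_wN_1_rb8033080e0410x2 g_wQ_26_wN_1_rb8033080e0414x2 g_wQ_26_wN_1_rb8033080e041cx2 g__wQ_26_wN_1_rb8033080e04x2_4 g_wQ_26_wN_1_rb8033080e041ex2 g_wQ_26_wN_1_rb8033080e041fx2 g_wQ_26_wN_1_rb8033080e0421x2 g__wQ_26_wN_1_rb8033080e04x2_9 g_wQ_26_wN_1_rb8033080e0423x2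

theorem g__wQ_26_wN_1_rb8033080e03x3_1 : GoodKC AS k_wQ_26_wN_1_rb8033080e03x3_1 := p_wQ_26_wN_1_rb8033080e03x3_1

theorem g__wQ_26_wN_1_rb8033080e03x3_0 : GoodKC AS k_wQ_26_wN_1_rb8033080e03x3_0 := p_wQ_26_wN_1_rb8033080e03x3_0 g__wQ_26_wN_1_rb8033080e03x3_1

theorem g__wQ_26_wN_1_rb8033080e03x3_2 : GoodKC AS k_wQ_26_wN_1_rb8033080e03x3_2 := p_wQ_26_wN_1_rb8033080e03x3_2

theorem g_wQ_26_wN_1_rb8033080e03x3 : GoodKC AS c_wQ_26_wN_1_rb8033080e03x3 := p_wQ_26_wN_1_rb8033080e03x3 g__wQ_26_wN_1_rb8033080e03x3_0 g__wQ_26_wN_1_rb8033080e03x3_2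

theorem g_wQ_26_wN_1_rb8033080e02x3 : GoodKC AS c_wQ_26_wN_1_rb8033080e02x3 := p_wQ_26_wN_1_rb8033080e02x3

theorem g__wQ_26_wN_1_rb8033080e00v2_0 : GoodKC AS k_wQ_26_wN_1_rb8033080e00v2_0 := p_wQ_26_wN_1_rb8033080e00v2_0

theorem g__wQ_26_wN_1_rb8033080e00v2_2 : GoodKC AS k_wQ_26_wN_1_rb8033080e00v2_2 := p_wQ_26_wN_1_rb8033080e00v2_2

theorem g__wQ_26_wN_1_rb8033080e00v2_1 : GoodKC AS k_wQ_26_wN_1_rb8033080e00v2_1 := p_wQ_26_wN_1_rb8033080e00v2_1 g__wQ_26_wN_1_rb8033080e00v2_2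

theorem g__wQ_26_wN_1_rb8033080e00v2_7 : GoodKC AS k_wQ_26_wN_1_rb8033080e00v2_7 := p_wQ_26_wN_1_rb8033080e00v2_7

theorem g__wQ_26_wN_1_rb8033080e00v2_10 : GoodKC AS k_wQ_26_wN_1_rb8033080e00v2_10 := p_wQ_26_wN_1_rb8033080e00v2_10

theorem g__wQ_26_wN_1_rb8033080e00v2_9 : GoodKC AS k_wQ_26_wN_1_rb8033080e00v2_9 := p_wQ_26_wN_1_rb8033080e00v2_9 g__wQ_26_wN_1_rb8033080e00v2_10

theorem g__wQ_26_wN_1_rb8033080e00v2_8 : GoodKC AS k_wQ_26_wN_1_rb8033080e00v2_8 := p_wQ_26_wN_1_rb8033080e00v2_8 g__wQ_26_wN_1_rb8033080e00v2_9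

theorem g__wQ_26_wN_1_rb8033080e00v2_6 : GoodKC AS k_wQ_26_wN_1_rb8033080e00v2_6 := p_wQ_26_wN_1_rb8033080e00v2_6 g__wQ_26_wN_1_rb8033080e00v2_7 g__wQ_26_wN_1_rb8033080e00v2_8

theorem g__wQ_26_wN_1_rb8033080e00v2_5 : GoodKC AS k_wQ_26_wN_1_rb8033080e00v2_5 := p_wQ_26_wN_1_rb8033080e00v2_5 g__wQ_26_wN_1_rb8033080e00v2_6

theorem g__wQ_26_wN_1_rb8033080e00v2_4 : GoodKC AS k_wQ_26_wN_1_rb8033080e00v2_4 := p_wQ_26_wN_1_rb8033080e00v2_4 g__wQ_26_wN_1_rb8033080e00v2_5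

theorem g__wQ_26_wN_1_rb8033080e00v2_3 : GoodKC AS k_wQ_26_wN_1_rb8033080e00v2_3 := p_wQ_26_wN_1_rb8033080e00v2_3 g__wQ_26_wN_1_rb8033080e00v2_4

theorem g_wQ_26_wN_1_rb8033080e00x3 : GoodKC AS c_wQ_26_wN_1_rb8033080e00x3 := p_wQ_26_wN_1_rb8033080e00x2 g__wQ_26_wN_1_rb8033080e00v2_0 g__wQ_26_wN_1_rb8033080e00v2_1 g__wQ_26_wN_1_rb8033080e00v2_3

theorem g__wQ_26_wN_1_rb8033080ex3_3 : GoodKC AS k_wQ_26_wN_1_rb8033080ex3_3 := p_wQ_26_wN_1_rb8033080ex3_3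

theorem g__wQ_26_wN_1_rb8033080ex3_4 : GoodKC AS k_wQ_26_wN_1_rb8033080ex3_4 := p_wQ_26_wN_1_rb8033080ex3_4

theorem g__wQ_26_wN_1_rb8033080ex3_7 : GoodKC AS k_wQ_26_wN_1_rb8033080ex3_7 := p_wQ_26_wN_1_rb8033080ex3_7

theorem g__wQ_26_wN_1_rb8033080ex3_6 : GoodKC AS k_wQ_26_wN_1_rb8033080ex3_6 := p_wQ_26_wN_1_rb8033080ex3_6 g__wQ_26_wN_1_rb8033080ex3_7

theorem g__wQ_26_wN_1_rb8033080ex3_5 : GoodKC AS k_wQ_26_wN_1_rb8033080ex3_5 := p_wQ_26_wN_1_rb8033080ex3_5 g__wQ_26_wN_1_rb8033080ex3_6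

theorem g__wQ_26_wN_1_rb8033080ex3_11 : GoodKC AS k_wQ_26_wN_1_rb8033080ex3_11 := p_wQ_26_wN_1_rb8033080ex3_11

theorem g__wQ_26_wN_1_rb8033080ex3_10 : GoodKC AS k_wQ_26_wN_1_rb8033080ex3_10 := p_wQ_26_wN_1_rb8033080ex3_10 g__wQ_26_wN_1_rb8033080ex3_11

theorem g__wQ_26_wN_1_rb8033080ex3_9 : GoodKC AS k_wQ_26_wN_1_rb8033080ex3_9 := p_wQ_26_wN_1_rb8033080ex3_9 g__wQ_26_wN_1_rb8033080ex3_10

theorem g__wQ_26_wN_1_rb8033080ex3_17 : GoodKC AS k_wQ_26_wN_1_rb8033080ex3_17 := p_wQ_26_wN_1_rb8033080ex3_17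

theorem g__wQ_26_wN_1_rb8033080ex3_20 : GoodKC AS k_wQ_26_wN_1_rb8033080ex3_20 := p_wQ_26_wN_1_rb8033080ex3_20

theorem g__wQ_26_wN_1_rb8033080ex3_23 : GoodKC AS k_wQ_26_wN_1_rb8033080ex3_23 := p_wQ_26_wN_1_rb8033080ex3_23

theorem g__wQ_26_wN_1_rb8033080ex3_22 : GoodKC AS k_wQ_26_wN_1_rb8033080ex3_22 := p_wQ_26_wN_1_rb8033080ex3_22 g__wQ_26_wN_1_rb8033080ex3_23

theorem g__wQ_26_wN_1_rb8033080ex3_21 : GoodKC AS k_wQ_26_wN_1_rb8033080ex3_21 := p_wQ_26_wN_1_rb8033080ex3_21 g__wQ_26_wN_1_rb8033080ex3_22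

theorem g__wQ_26_wN_1_rb8033080ex3_19 : GoodKC AS k_wQ_26_wN_1_rb8033080ex3_19 := p_wQ_26_wN_1_rb8033080ex3_19 g__wQ_26_wN_1_rb8033080ex3_20 g__wQ_26_wN_1_rb8033080ex3_21

theorem g__wQ_26_wN_1_rb8033080ex3_18 : GoodKC AS k_wQ_26_wN_1_rb8033080ex3_18 := p_wQ_26_wN_1_rb8033080ex3_18 g__wQ_26_wN_1_rb8033080ex3_19

theorem g__wQ_26_wN_1_rb8033080ex3_16 : GoodKC AS k_wQ_26_wN_1_rb8033080ex3_16 := p_wQ_26_wN_1_rb8033080ex3_16 g__wQ_26_wN_1_rb8033080ex3_17 g__wQ_26_wN_1_rb8033080ex3_18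

theorem g__wQ_26_wN_1_rb8033080ex3_15 : GoodKC AS k_wQ_26_wN_1_rb8033080ex3_15 := p_wQ_26_wN_1_rb8033080ex3_15 g__wQ_26_wN_1_rb8033080ex3_16

theorem g__wQ_26_wN_1_rb8033080ex3_14 : GoodKC AS k_wQ_26_wN_1_rb8033080ex3_14 := p_wQ_26_wN_1_rb8033080ex3_14 g__wQ_26_wN_1_rb8033080ex3_15

theorem g__wQ_26_wN_1_rb8033080ex3_13 : GoodKC AS k_wQ_26_wN_1_rb8033080ex3_13 := p_wQ_26_wN_1_rb8033080ex3_13 g__wQ_26_wN_1_rb8033080ex3_14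

theorem g__wQ_26_wN_1_rb8033080ex3_26 : GoodKC AS k_wQ_26_wN_1_rb8033080ex3_26 := p_wQ_26_wN_1_rb8033080ex3_26

theorem g__wQ_26_wN_1_rb8033080ex3_25 : GoodKC AS k_wQ_26_wN_1_rb8033080ex3_25 := p_wQ_26_wN_1_rb8033080ex3_25 g__wQ_26_wN_1_rb8033080ex3_26

theorem g__wQ_26_wN_1_rb8033080ex3_24 : GoodKC AS k_wQ_26_wN_1_rb8033080ex3_24 := p_wQ_26_wN_1_rb8033080ex3_24 g__wQ_26_wN_1_rb8033080ex3_25

theorem g__wQ_26_wN_1_rb8033080ex3_12 : GoodKC AS k_wQ_26_wN_1_rb8033080ex3_12 := p_wQ_26_wN_1_rb8033080ex3_12 g__wQ_26_wN_1_rb8033080ex3_13 g__wQ_26_wN_1_rb8033080ex3_24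

theorem g__wQ_26_wN_1_rb8033080ex3_8 : GoodKC AS k_wQ_26_wN_1_rb8033080ex3_8 := p_wQ_26_wN_1_rb8033080ex3_8 g__wQ_26_wN_1_rb8033080ex3_9 g__wQ_26_wN_1_rb8033080ex3_12

theorem g_wQ_26_wN_1_rb8033080e01x3 : GoodKC AS c_wQ_26_wN_1_rb8033080e01x3 := p_wQ_26_wN_1_rb8033080e01x3

theorem g__wQ_26_wN_1_rb8033080ex3_2 : GoodKC AS k_wQ_26_wN_1_rb8033080ex3_2 := p_wQ_26_wN_1_rb8033080ex3_2 g_wQ_26_wN_1_rb8033080e05x3 g_wQ_26_wN_1_rb8033080e04x3 g_wQ_26_wN_1_rb8033080e03x3 g_wQ_26_wN_1_rb8033080e02x3 g_wQ_26_wN_1_rb8033080e00x3 g__wQ_26_wN_1_rb8033080ex3_3 g__wQ_26_wN_1_rb8033080ex3_4 g__wQ_26_wN_1_rb8033080ex3_5 g__wQ_26_wN_1_rb8033080ex3_8 g_wQ_26_wN_1_rb8033080e01x3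

theorem g_wQ_26_wN_1_rb8033080e07x3 : GoodKC AS c_wQ_26_wN_1_rb8033080e07x3 := p_wQ_26_wN_1_rb8033080e07x3

theorem g__wQ_26_wN_1_rb8033080ex3_27 : GoodKC AS k_wQ_26_wN_1_rb8033080ex3_27 := p_wQ_26_wN_1_rb8033080ex3_27

theorem g_wQ_26_wN_1_rb8033080e08x3 : GoodKC AS c_wQ_26_wN_1_rb8033080e08x3 := p_wQ_26_wN_1_rb8033080e08x3

theorem g_wQ_26_wN_1_rb8033080e0bx3 : GoodKC AS c_wQ_26_wN_1_rb8033080e0bx3 := p_wQ_26_wN_1_rb8033080e0bx3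

theorem g_wQ_26_wN_1_rb8033080e0dx3 : GoodKC AS c_wQ_26_wN_1_rb8033080e0dx3 := p_wQ_26_wN_1_rb8033080e0dx3

theorem g_wQ_26_wN_1_rb8033080e0fx3 : GoodKC AS c_wQ_26_wN_1_rb8033080e0fx3 := p_wQ_26_wN_1_rb8033080e0fx3

theorem g_wQ_26_wN_1_rb8033080e10x3 : GoodKC AS c_wQ_26_wN_1_rb8033080e10x3 := p_wQ_26_wN_1_rb8033080e10x3

theorem g__wQ_26_wN_1_rb8033080e11x3_4 : GoodKC AS k_wQ_26_wN_1_rb8033080e11x3_4 := p_wQ_26_wN_1_rb8033080e11x3_4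

theorem g__wQ_26_wN_1_rb8033080e11x3_3 : GoodKC AS k_wQ_26_wN_1_rb8033080e11x3_3 := p_wQ_26_wN_1_rb8033080e11x3_3 g__wQ_26_wN_1_rb8033080e11x3_4

theorem g__wQ_26_wN_1_rb8033080e11x3_6 : GoodKC AS k_wQ_26_wN_1_rb8033080e11x3_6 := p_wQ_26_wN_1_rb8033080e11x3_6

theorem g__wQ_26_wN_1_rb8033080e11x3_5 : GoodKC AS k_wQ_26_wN_1_rb8033080e11x3_5 := p_wQ_26_wN_1_rb8033080e11x3_5 g__wQ_26_wN_1_rb8033080e11x3_6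

theorem g__wQ_26_wN_1_rb8033080e11x3_7 : GoodKC AS k_wQ_26_wN_1_rb8033080e11x3_7 := p_wQ_26_wN_1_rb8033080e11x3_7

theorem g__wQ_26_wN_1_rb8033080e11x3_8 : GoodKC AS k_wQ_26_wN_1_rb8033080e11x3_8 := p_wQ_26_wN_1_rb8033080e11x3_8

theorem g__wQ_26_wN_1_rb8033080e11x3_2 : GoodKC AS k_wQ_26_wN_1_rb8033080e11x3_2 := p_wQ_26_wN_1_rb8033080e11x3_2 g__wQ_26_wN_1_rb8033080e11x3_3 g__wQ_26_wN_1_rb8033080e11x3_5 g__wQ_26_wN_1_rb8033080e11x3_7 g__wQ_26_wN_1_rb8033080e11x3_8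

theorem g__wQ_26_wN_1_rb8033080e11x3_1 : GoodKC AS k_wQ_26_wN_1_rb8033080e11x3_1 := p_wQ_26_wN_1_rb8033080e11x3_1 g__wQ_26_wN_1_rb8033080e11x3_2

theorem g__wQ_26_wN_1_rb8033080e11x3_9 : GoodKC AS k_wQ_26_wN_1_rb8033080e11x3_9 := p_wQ_26_wN_1_rb8033080e11x3_9

theorem g__wQ_26_wN_1_rb8033080e11x3_0 : GoodKC AS k_wQ_26_wN_1_rb8033080e11x3_0 := p_wQ_26_wN_1_rb8033080e11x3_0 g__wQ_26_wN_1_rb8033080e11x3_1 g__wQ_26_wN_1_rb8033080e11x3_9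

theorem g_wQ_26_wN_1_rb8033080e11x3 : GoodKC AS c_wQ_26_wN_1_rb8033080e11x3 := p_wQ_26_wN_1_rb8033080e11x3 g__wQ_26_wN_1_rb8033080e11x3_0

theorem g__wQ_26_wN_1_rb8033080ex3_0 : GoodKC AS k_wQ_26_wN_1_rb8033080ex3_0 := p_wQ_26_wN_1_rb8033080ex3_0 g_wQ_26_wN_1_rb8033080e12x3 g__wQ_26_wN_1_rb8033080ex3_1 g_wQ_26_wN_1_rb8033080e0ex3 g_wQ_26_wN_1_rb8033080e0cx3 g_wQ_26_wN_1_rb8033080e0ax3 g_wQ_26_wN_1_rb8033080e09x3 g_wQ_26_wN_1_rb8033080e06x3 g__wQ_26_wN_1_rb8033080ex3_2 g_wQ_26_wN_1_rb8033080e07x3 g__wQ_26_wN_1_rb8033080ex3_27 g_wQ_26_wN_1_rb8033080e08x3 g_wQ_26_wN_1_rb8033080e0bx3 g_wQ_26_wN_1_rb8033080e0dx3 g_wQ_26_wN_1_rb8033080e0fx3 g_wQ_26_wN_1_rb8033080e10x3 g_wQ_26_wN_1_rb8033080e11x3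

theorem g__wQ_26_wN_1_rb8033080ex3_28 : GoodKC AS k_wQ_26_wN_1_rb8033080ex3_28 := p_wQ_26_wN_1_rb8033080ex3_28

theorem g__wQ_26_wN_1_rb8033080e15x3_0 : GoodKC AS k_wQ_26_wN_1_rb8033080e15x3_0 := p_wQ_26_wN_1_rb8033080e15x3_0

theorem g_wQ_26_wN_1_rb8033080e15x3 : GoodKC AS c_wQ_26_wN_1_rb8033080e15x3 := p_wQ_26_wN_1_rb8033080e15x3 g__wQ_26_wN_1_rb8033080e15x3_0

theorem g_wQ_26_wN_1_rb8033080e1ax3 : GoodKC AS c_wQ_26_wN_1_rb8033080e1ax3 := p_wQ_26_wN_1_rb8033080e1ax3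

theorem g__wQ_26_wN_1_rb8033080e1bx3_0 : GoodKC AS k_wQ_26_wN_1_rb8033080e1bx3_0 := p_wQ_26_wN_1_rb8033080e1bx3_0

theorem g_wQ_26_wN_1_rb8033080e1bx3 : GoodKC AS c_wQ_26_wN_1_rb8033080e1bx3 := p_wQ_26_wN_1_rb8033080e1bx3 g__wQ_26_wN_1_rb8033080e1bx3_0

theorem g_wQ_26_wN_1_rb8033080e1cx3 : GoodKC AS c_wQ_26_wN_1_rb8033080e1cx3 := p_wQ_26_wN_1_rb8033080e1cx3

theorem g__wQ_26_wN_1_rb8033080e1ex3_1 : GoodKC AS k_wQ_26_wN_1_rb8033080e1ex3_1 := p_wQ_26_wN_1_rb8033080e1ex3_1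

theorem g__wQ_26_wN_1_rb8033080e1ex3_0 : GoodKC AS k_wQ_26_wN_1_rb8033080e1ex3_0 := p_wQ_26_wN_1_rb8033080e1ex3_0 g__wQ_26_wN_1_rb8033080e1ex3_1

theorem g__wQ_26_wN_1_rb8033080e1ex3_3 : GoodKC AS k_wQ_26_wN_1_rb8033080e1ex3_3 := p_wQ_26_wN_1_rb8033080e1ex3_3

theorem g__wQ_26_wN_1_rb8033080e1ex3_2 : GoodKC AS k_wQ_26_wN_1_rb8033080e1ex3_2 := p_wQ_26_wN_1_rb8033080e1ex3_2 g__wQ_26_wN_1_rb8033080e1ex3_3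

theorem g__wQ_26_wN_1_rb8033080e1ex3_4 : GoodKC AS k_wQ_26_wN_1_rb8033080e1ex3_4 := p_wQ_26_wN_1_rb8033080e1ex3_4

theorem g_wQ_26_wN_1_rb8033080e1ex3 : GoodKC AS c_wQ_26_wN_1_rb8033080e1ex3 := p_wQ_26_wN_1_rb8033080e1ex3 g__wQ_26_wN_1_rb8033080e1ex3_0 g__wQ_26_wN_1_rb8033080e1ex3_2 g__wQ_26_wN_1_rb8033080e1ex3_4

theorem g_wQ_26_wN_1_rb8033080e1fx3 : GoodKC AS c_wQ_26_wN_1_rb8033080e1fx3 := p_wQ_26_wN_1_rb8033080e1fx3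

theorem g_wQ_26_wN_1_rb8033080e21x3 : GoodKC AS c_wQ_26_wN_1_rb8033080e21x3 := p_wQ_26_wN_1_rb8033080e21x3

theorem g__wQ_26_wN_1_rb8033080e22x3_0 : GoodKC AS k_wQ_26_wN_1_rb8033080e22x3_0 := p_wQ_26_wN_1_rb8033080e22x3_0

theorem g__wQ_26_wN_1_rb8033080e22x3_2 : GoodKC AS k_wQ_26_wN_1_rb8033080e22x3_2 := p_wQ_26_wN_1_rb8033080e22x3_2

theorem g__wQ_26_wN_1_rb8033080e22x3_4 : GoodKC AS k_wQ_26_wN_1_rb8033080e22x3_4 := p_wQ_26_wN_1_rb8033080e22x3_4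

theorem g__wQ_26_wN_1_rb8033080e22x3_5 : GoodKC AS k_wQ_26_wN_1_rb8033080e22x3_5 := p_wQ_26_wN_1_rb8033080e22x3_5

theorem g__wQ_26_wN_1_rb8033080e22x3_3 : GoodKC AS k_wQ_26_wN_1_rb8033080e22x3_3 := p_wQ_26_wN_1_rb8033080e22x3_3 g__wQ_26_wN_1_rb8033080e22x3_4 g__wQ_26_wN_1_rb8033080e22x3_5

theorem g__wQ_26_wN_1_rb8033080e22x3_6 : GoodKC AS k_wQ_26_wN_1_rb8033080e22x3_6 := p_wQ_26_wN_1_rb8033080e22x3_6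

theorem g__wQ_26_wN_1_rb8033080e22x3_7 : GoodKC AS k_wQ_26_wN_1_rb8033080e22x3_7 := p_wQ_26_wN_1_rb8033080e22x3_7

theorem g__wQ_26_wN_1_rb8033080e22x3_8 : GoodKC AS k_wQ_26_wN_1_rb8033080e22x3_8 := p_wQ_26_wN_1_rb8033080e22x3_8

theorem g__wQ_26_wN_1_rb8033080e22x3_9 : GoodKC AS k_wQ_26_wN_1_rb8033080e22x3_9 := p_wQ_26_wN_1_rb8033080e22x3_9

theorem g__wQ_26_wN_1_rb8033080e22x3_1 : GoodKC AS k_wQ_26_wN_1_rb8033080e22x3_1 := p_wQ_26_wN_1_rb8033080e22x3_1 g__wQ_26_wN_1_rb8033080e22x3_2 g__wQ_26_wN_1_rb8033080e22x3_3 g__wQ_26_wN_1_rb8033080e22x3_6 g__wQ_26_wN_1_rb8033080e22x3_7 g__wQ_26_wN_1_rb8033080e22x3_8 g__wQ_26_wN_1_rb8033080e22x3_9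

theorem g_wQ_26_wN_1_rb8033080e22x3 : GoodKC AS c_wQ_26_wN_1_rb8033080e22x3 := p_wQ_26_wN_1_rb8033080e22x3 g__wQ_26_wN_1_rb8033080e22x3_0 g__wQ_26_wN_1_rb8033080e22x3_1

theorem g_wQ_26_wN_1_rb8033080e24x3 : GoodKC AS c_wQ_26_wN_1_rb8033080e24x3 := p_wQ_26_wN_1_rb8033080e24x3

theorem g_wQ_26_wN_1_rb8033080e25x3 : GoodKC AS c_wQ_26_wN_1_rb8033080e25x3 := p_wQ_26_wN_1_rb8033080e25x3

theorem g__wQ_26_wN_1_rb8033080e28x3_0 : GoodKC AS k_wQ_26_wN_1_rb8033080e28x3_0 := p_wQ_26_wN_1_rb8033080e28x3_0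

theorem g_wQ_26_wN_1_rb8033080e28x3 : GoodKC AS c_wQ_26_wN_1_rb8033080e28x3 := p_wQ_26_wN_1_rb8033080e28x3 g__wQ_26_wN_1_rb8033080e28x3_0

theorem g__wQ_26_wN_1_rb8033080e29x3_0 : GoodKC AS k_wQ_26_wN_1_rb8033080e29x3_0 := p_wQ_26_wN_1_rb8033080e29x3_0

theorem g_wQ_26_wN_1_rb8033080e29x3 : GoodKC AS c_wQ_26_wN_1_rb8033080e29x3 := p_wQ_26_wN_1_rb8033080e29x3 g__wQ_26_wN_1_rb8033080e29x3_0

theorem g_wQ_26_wN_1_rb8033080e2ax3 : GoodKC AS c_wQ_26_wN_1_rb8033080e2ax3 := p_wQ_26_wN_1_rb8033080e2ax3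

theorem g_wQ_26_wN_1_rb8033080e2bx3 : GoodKC AS c_wQ_26_wN_1_rb8033080e2bx3 := p_wQ_26_wN_1_rb8033080e2bx3

theorem g_wQ_26_wN_1_rb8033080e2cx3 : GoodKC AS c_wQ_26_wN_1_rb8033080e2cx3 := p_wQ_26_wN_1_rb8033080e2cx3

theorem g_wQ_26_wN_1_rb8033080e2dx3 : GoodKC AS c_wQ_26_wN_1_rb8033080e2dx3 := p_wQ_26_wN_1_rb8033080e2dx3

theorem g_wQ_26_wN_1_rb8033080e2ex3 : GoodKC AS c_wQ_26_wN_1_rb8033080e2ex3 := p_wQ_26_wN_1_rb8033080e2ex3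

theorem g_wQ_26_wN_1_rb8033080e2fx3 : GoodKC AS c_wQ_26_wN_1_rb8033080e2fx3 := p_wQ_26_wN_1_rb8033080e2fx3

theorem g_wQ_26_wN_1_rb8033080e31x3 : GoodKC AS c_wQ_26_wN_1_rb8033080e31x3 := p_wQ_26_wN_1_rb8033080e31x3

theorem g_wQ_26_wN_1_rb8033080e33x3 : GoodKC AS c_wQ_26_wN_1_rb8033080e33x3 := p_wQ_26_wN_1_rb8033080e33x3

theorem g_wQ_26_wN_1_rb8033080e34x3 : GoodKC AS c_wQ_26_wN_1_rb8033080e34x3 := p_wQ_26_wN_1_rb8033080e34x3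

theorem g_wQ_26_wN_1_rb8033080e36x3 : GoodKC AS c_wQ_26_wN_1_rb8033080e36x3 := p_wQ_26_wN_1_rb8033080e36x3

theorem g__wQ_26_wN_1_rb8033080e37x2_5 : GoodKC AS k_wQ_26_wN_1_rb8033080e37x2_5 := p_wQ_26_wN_1_rb8033080e37x2_5

theorem g__wQ_26_wN_1_rb8033080e37x2_4 : GoodKC AS k_wQ_26_wN_1_rb8033080e37x2_4 := p_wQ_26_wN_1_rb8033080e37x2_4 g__wQ_26_wN_1_rb8033080e37x2_5

theorem g__wQ_26_wN_1_rb8033080e37x2_6 : GoodKC AS k_wQ_26_wN_1_rb8033080e37x2_6 := p_wQ_26_wN_1_rb8033080e37x2_6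

theorem g__wQ_26_wN_1_rb8033080e37x2_7 : GoodKC AS k_wQ_26_wN_1_rb8033080e37x2_7 := p_wQ_26_wN_1_rb8033080e37x2_7

theorem g__wQ_26_wN_1_rb8033080e37x2_11 : GoodKC AS k_wQ_26_wN_1_rb8033080e37x2_11 := p_wQ_26_wN_1_rb8033080e37x2_11

theorem g__wQ_26_wN_1_rb8033080e37x2_10 : GoodKC AS k_wQ_26_wN_1_rb8033080e37x2_10 := p_wQ_26_wN_1_rb8033080e37x2_10 g__wQ_26_wN_1_rb8033080e37x2_11

theorem g__wQ_26_wN_1_rb8033080e37x2_9 : GoodKC AS k_wQ_26_wN_1_rb8033080e37x2_9 := p_wQ_26_wN_1_rb8033080e37x2_9 g__wQ_26_wN_1_rb8033080e37x2_10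

theorem g__wQ_26_wN_1_rb8033080e37x2_8 : GoodKC AS k_wQ_26_wN_1_rb8033080e37x2_8 := p_wQ_26_wN_1_rb8033080e37x2_8 g__wQ_26_wN_1_rb8033080e37x2_9

theorem g__wQ_26_wN_1_rb8033080e37x2_3 : GoodKC AS k_wQ_26_wN_1_rb8033080e37x2_3 := p_wQ_26_wN_1_rb8033080e37x2_3 g__wQ_26_wN_1_rb8033080e37x2_4 g__wQ_26_wN_1_rb8033080e37x2_6 g__wQ_26_wN_1_rb8033080e37x2_7 g__wQ_26_wN_1_rb8033080e37x2_8

theorem g__wQ_26_wN_1_rb8033080e37x2_2 : GoodKC AS k_wQ_26_wN_1_rb8033080e37x2_2 := p_wQ_26_wN_1_rb8033080e37x2_2 g__wQ_26_wN_1_rb8033080e37x2_3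

theorem g__wQ_26_wN_1_rb8033080e37x2_1 : GoodKC AS k_wQ_26_wN_1_rb8033080e37x2_1 := p_wQ_26_wN_1_rb8033080e37x2_1 g__wQ_26_wN_1_rb8033080e37x2_2

theorem g__wQ_26_wN_1_rb8033080e37x2_16 : GoodKC AS k_wQ_26_wN_1_rb8033080e37x2_16 := p_wQ_26_wN_1_rb8033080e37x2_16

theorem g__wQ_26_wN_1_rb8033080e37x2_15 : GoodKC AS k_wQ_26_wN_1_rb8033080e37x2_15 := p_wQ_26_wN_1_rb8033080e37x2_15 g__wQ_26_wN_1_rb8033080e37x2_16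

theorem g__wQ_26_wN_1_rb8033080e37x2_14 : GoodKC AS k_wQ_26_wN_1_rb8033080e37x2_14 := p_wQ_26_wN_1_rb8033080e37x2_14 g__wQ_26_wN_1_rb8033080e37x2_15

theorem g__wQ_26_wN_1_rb8033080e37x2_17 : GoodKC AS k_wQ_26_wN_1_rb8033080e37x2_17 := p_wQ_26_wN_1_rb8033080e37x2_17

theorem g__wQ_26_wN_1_rb8033080e37x2_13 : GoodKC AS k_wQ_26_wN_1_rb8033080e37x2_13 := p_wQ_26_wN_1_rb8033080e37x2_13 g__wQ_26_wN_1_rb8033080e37x2_14 g__wQ_26_wN_1_rb8033080e37x2_17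

theorem g__wQ_26_wN_1_rb8033080e37x2_12 : GoodKC AS k_wQ_26_wN_1_rb8033080e37x2_12 := p_wQ_26_wN_1_rb8033080e37x2_12 g__wQ_26_wN_1_rb8033080e37x2_13

theorem g__wQ_26_wN_1_rb8033080e37x2_19 : GoodKC AS k_wQ_26_wN_1_rb8033080e37x2_19 := p_wQ_26_wN_1_rb8033080e37x2_19

theorem g__wQ_26_wN_1_rb8033080e37x2_24 : GoodKC AS k_wQ_26_wN_1_rb8033080e37x2_24 := p_wQ_26_wN_1_rb8033080e37x2_24

theorem g__wQ_26_wN_1_rb8033080e37x2_23 : GoodKC AS k_wQ_26_wN_1_rb8033080e37x2_23 := p_wQ_26_wN_1_rb8033080e37x2_23 g__wQ_26_wN_1_rb8033080e37x2_24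

theorem g__wQ_26_wN_1_rb8033080e37x2_22 : GoodKC AS k_wQ_26_wN_1_rb8033080e37x2_22 := p_wQ_26_wN_1_rb8033080e37x2_22 g__wQ_26_wN_1_rb8033080e37x2_23

theorem g__wQ_26_wN_1_rb8033080e37x2_21 : GoodKC AS k_wQ_26_wN_1_rb8033080e37x2_21 := p_wQ_26_wN_1_rb8033080e37x2_21 g__wQ_26_wN_1_rb8033080e37x2_22

theorem g__wQ_26_wN_1_rb8033080e37x2_20 : GoodKC AS k_wQ_26_wN_1_rb8033080e37x2_20 := p_wQ_26_wN_1_rb8033080e37x2_20 g__wQ_26_wN_1_rb8033080e37x2_21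

theorem g__wQ_26_wN_1_rb8033080e37x2_18 : GoodKC AS k_wQ_26_wN_1_rb8033080e37x2_18 := p_wQ_26_wN_1_rb8033080e37x2_18 g__wQ_26_wN_1_rb8033080e37x2_19 g__wQ_26_wN_1_rb8033080e37x2_20

theorem g__wQ_26_wN_1_rb8033080e37x2_26 : GoodKC AS k_wQ_26_wN_1_rb8033080e37x2_26 := p_wQ_26_wN_1_rb8033080e37x2_26

theorem g__wQ_26_wN_1_rb8033080e37x2_25 : GoodKC AS k_wQ_26_wN_1_rb8033080e37x2_25 := p_wQ_26_wN_1_rb8033080e37x2_25 g__wQ_26_wN_1_rb8033080e37x2_26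

theorem g__wQ_26_wN_1_rb8033080e37x2_0 : GoodKC AS k_wQ_26_wN_1_rb8033080e37x2_0 := p_wQ_26_wN_1_rb8033080e37x2_0 g__wQ_26_wN_1_rb8033080e37x2_1 g__wQ_26_wN_1_rb8033080e37x2_12 g__wQ_26_wN_1_rb8033080e37x2_18 g__wQ_26_wN_1_rb8033080e37x2_25

theorem g_wQ_26_wN_1_rb8033080e37x3 : GoodKC AS c_wQ_26_wN_1_rb8033080e37x3 := p_wQ_26_wN_1_rb8033080e37x2 g__wQ_26_wN_1_rb8033080e37x2_0

theorem g_wQ_26_wN_1_rb8033080ex15 : GoodKC AS c_wQ_26_wN_1_rb8033080ex15 := p_wQ_26_wN_1_rb8033080ex3 g_wQ_26_wN_1_rb8033080e38x3 g_wQ_26_wN_1_rb8033080e35x3 g_wQ_26_wN_1_rb8033080e32x3 g_wQ_26_wN_1_rb8033080e30x3 g_wQ_26_wN_1_rb8033080e27x3 g_wQ_26_wN_1_rb8033080e26x3 g_wQ_26_wN_1_rb8033080e23x3 g_wQ_26_wN_1_rb8033080e20x3 g_wQ_26_wN_1_rb8033080e1dx3 g_wQ_26_wN_1_rb8033080e19x3 g_wQ_26_wN_1_rb8033080e18x3 g_wQ_26_wN_1_rb8033080e16x3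 g_wQ_26_wN_1_rb8033080e17x3 g_wQ_26_wN_1_rb8033080e14x3 g_wQ_26_wN_1_rb8033080e13x3 g__wQ_26_wN_1_rb8033080ex3_0 g__wQ_26_wN_1_rb8033080ex3_28 g_wQ_26_wN_1_rb8033080e15x3 g_wQ_26_wN_1_rb8033080e1ax3 g_wQ_26_wN_1_rb8033080e1bx3 g_wQ_26_wN_1_rb8033080e1cx3 g_wQ_26_wN_1_rb8033080e1ex3 g_wQ_26_wN_1_rb8033080e1fx3 g_wQ_26_wN_1_rb8033080e21x3 g_wQ_26_wN_1_rb8033080e22x3 g_wQ_26_wN_1_rb8033080e24x3 g_wQ_26_wN_1_rb8033080e25x3 g_wQ_26_wN_1_rb8033080e28x3 g_wQ_26_wN_1_rb8033080e29x3 g_wQ_26_wN_1_rb8033080e2ax3 g_wQ_26_wN_1_rb8033080e2bx3 g_wQ_26_wN_1_rb8033080e2cx3 g_wQ_26_wN_1_rb8033080e2dx3 g_wQ_26_wN_1_rb8033080e2ex3 g_wQ_26_wN_1_rb8033080e2fx3 g_wQ_26_wN_1_rb8033080e31x3 g_wQ_26_wN_1_rb8033080e33x3 g_wQ_26_wN_1_rb8033080e34x3 g_wQ_26_wN_1_rb8033080e36x3 g_wQ_26_wN_1_rb8033080e37x3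

theorem g_wQ_26_wN_1_rb8033080c12x3 : GoodKC AS c_wQ_26_wN_1_rb8033080c12x3 := p_wQ_26_wN_1_rb8033080c12x3

theorem g_wQ_26_wN_1_rb8033080c0fx3 : GoodKC AS c_wQ_26_wN_1_rb8033080c0fx3 := p_wQ_26_wN_1_rb8033080c0fx3

theorem g__wQ_26_wN_1_rb8033080c0cx3_0 : GoodKC AS k_wQ_26_wN_1_rb8033080c0cx3_0 := p_wQ_26_wN_1_rb8033080c0cx3_0

theorem g__wQ_26_wN_1_rb8033080c0cx3_1 : GoodKC AS k_wQ_26_wN_1_rb8033080c0cx3_1 := p_wQ_26_wN_1_rb8033080c0cx3_1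

theorem g_wQ_26_wN_1_rb8033080c0cx3 : GoodKC AS c_wQ_26_wN_1_rb8033080c0cx3 := p_wQ_26_wN_1_rb8033080c0cx3 g__wQ_26_wN_1_rb8033080c0cx3_0 g__wQ_26_wN_1_rb8033080c0cx3_1

theorem g__wQ_26_wN_1_rb8033080c0bx3_1 : GoodKC AS k_wQ_26_wN_1_rb8033080c0bx3_1 := p_wQ_26_wN_1_rb8033080c0bx3_1

theorem g__wQ_26_wN_1_rb8033080c0bx3_2 : GoodKC AS k_wQ_26_wN_1_rb8033080c0bx3_2 := p_wQ_26_wN_1_rb8033080c0bx3_2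

theorem g__wQ_26_wN_1_rb8033080c0bx3_5 : GoodKC AS k_wQ_26_wN_1_rb8033080c0bx3_5 := p_wQ_26_wN_1_rb8033080c0bx3_5

theorem g__wQ_26_wN_1_rb8033080c0bx3_7 : GoodKC AS k_wQ_26_wN_1_rb8033080c0bx3_7 := p_wQ_26_wN_1_rb8033080c0bx3_7

theorem g__wQ_26_wN_1_rb8033080c0bx3_6 : GoodKC AS k_wQ_26_wN_1_rb8033080c0bx3_6 := p_wQ_26_wN_1_rb8033080c0bx3_6 g__wQ_26_wN_1_rb8033080c0bx3_7

theorem g__wQ_26_wN_1_rb8033080c0bx3_11 : GoodKC AS k_wQ_26_wN_1_rb8033080c0bx3_11 := p_wQ_26_wN_1_rb8033080c0bx3_11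

theorem g__wQ_26_wN_1_rb8033080c0bx3_12 : GoodKC AS k_wQ_26_wN_1_rb8033080c0bx3_12 := p_wQ_26_wN_1_rb8033080c0bx3_12

theorem g__wQ_26_wN_1_rb8033080c0bx3_10 : GoodKC AS k_wQ_26_wN_1_rb8033080c0bx3_10 := p_wQ_26_wN_1_rb8033080c0bx3_10 g__wQ_26_wN_1_rb8033080c0bx3_11 g__wQ_26_wN_1_rb8033080c0bx3_12

theorem g__wQ_26_wN_1_rb8033080c0bx3_14 : GoodKC AS k_wQ_26_wN_1_rb8033080c0bx3_14 := p_wQ_26_wN_1_rb8033080c0bx3_14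

theorem g__wQ_26_wN_1_rb8033080c0bx3_13 : GoodKC AS k_wQ_26_wN_1_rb8033080c0bx3_13 := p_wQ_26_wN_1_rb8033080c0bx3_13 g__wQ_26_wN_1_rb8033080c0bx3_14

theorem g__wQ_26_wN_1_rb8033080c0bx3_17 : GoodKC AS k_wQ_26_wN_1_rb8033080c0bx3_17 := p_wQ_26_wN_1_rb8033080c0bx3_17

theorem g__wQ_26_wN_1_rb8033080c0bx3_16 : GoodKC AS k_wQ_26_wN_1_rb8033080c0bx3_16 := p_wQ_26_wN_1_rb8033080c0bx3_16 g__wQ_26_wN_1_rb8033080c0bx3_17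

theorem g__wQ_26_wN_1_rb8033080c0bx3_19 : GoodKC AS k_wQ_26_wN_1_rb8033080c0bx3_19 := p_wQ_26_wN_1_rb8033080c0bx3_19

theorem g__wQ_26_wN_1_rb8033080c0bx3_18 : GoodKC AS k_wQ_26_wN_1_rb8033080c0bx3_18 := p_wQ_26_wN_1_rb8033080c0bx3_18 g__wQ_26_wN_1_rb8033080c0bx3_19

theorem g__wQ_26_wN_1_rb8033080c0bx3_15 : GoodKC AS k_wQ_26_wN_1_rb8033080c0bx3_15 := p_wQ_26_wN_1_rb8033080c0bx3_15 g__wQ_26_wN_1_rb8033080c0bx3_16 g__wQ_26_wN_1_rb8033080c0bx3_18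

theorem g__wQ_26_wN_1_rb8033080c0bx3_9 : GoodKC AS k_wQ_26_wN_1_rb8033080c0bx3_9 := p_wQ_26_wN_1_rb8033080c0bx3_9 g__wQ_26_wN_1_rb8033080c0bx3_10 g__wQ_26_wN_1_rb8033080c0bx3_13 g__wQ_26_wN_1_rb8033080c0bx3_15

theorem g__wQ_26_wN_1_rb8033080c0bx3_8 : GoodKC AS k_wQ_26_wN_1_rb8033080c0bx3_8 := p_wQ_26_wN_1_rb8033080c0bx3_8 g__wQ_26_wN_1_rb8033080c0bx3_9

theorem g__wQ_26_wN_1_rb8033080c0bx3_22 : GoodKC AS k_wQ_26_wN_1_rb8033080c0bx3_22 := p_wQ_26_wN_1_rb8033080c0bx3_22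

theorem g__wQ_26_wN_1_rb8033080c0bx3_23 : GoodKC AS k_wQ_26_wN_1_rb8033080c0bx3_23 := p_wQ_26_wN_1_rb8033080c0bx3_23

theorem g__wQ_26_wN_1_rb8033080c0bx3_21 : GoodKC AS k_wQ_26_wN_1_rb8033080c0bx3_21 := p_wQ_26_wN_1_rb8033080c0bx3_21 g__wQ_26_wN_1_rb8033080c0bx3_22 g__wQ_26_wN_1_rb8033080c0bx3_23

theorem g__wQ_26_wN_1_rb8033080c0bx3_20 : GoodKC AS k_wQ_26_wN_1_rb8033080c0bx3_20 := p_wQ_26_wN_1_rb8033080c0bx3_20 g__wQ_26_wN_1_rb8033080c0bx3_21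

theorem g__wQ_26_wN_1_rb8033080c0bx3_4 : GoodKC AS k_wQ_26_wN_1_rb8033080c0bx3_4 := p_wQ_26_wN_1_rb8033080c0bx3_4 g__wQ_26_wN_1_rb8033080c0bx3_5 g__wQ_26_wN_1_rb8033080c0bx3_6 g__wQ_26_wN_1_rb8033080c0bx3_8 g__wQ_26_wN_1_rb8033080c0bx3_20

theorem g__wQ_26_wN_1_rb8033080c0bx3_3 : GoodKC AS k_wQ_26_wN_1_rb8033080c0bx3_3 := p_wQ_26_wN_1_rb8033080c0bx3_3 g__wQ_26_wN_1_rb8033080c0bx3_4

theorem g__wQ_26_wN_1_rb8033080c0bx3_0 : GoodKC AS k_wQ_26_wN_1_rb8033080c0bx3_0 := p_wQ_26_wN_1_rb8033080c0bx3_0 g__wQ_26_wN_1_rb8033080c0bx3_1 g__wQ_26_wN_1_rb8033080c0bx3_2 g__wQ_26_wN_1_rb8033080c0bx3_3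

theorem g_wQ_26_wN_1_rb8033080c0bx3 : GoodKC AS c_wQ_26_wN_1_rb8033080c0bx3 := p_wQ_26_wN_1_rb8033080c0bx3 g__wQ_26_wN_1_rb8033080c0bx3_0

theorem g_wQ_26_wN_1_rb8033080c0ax3 : GoodKC AS c_wQ_26_wN_1_rb8033080c0ax3 := p_wQ_26_wN_1_rb8033080c0ax3

theorem g__wQ_26_wN_1_rb8033080c09x2_1 : GoodKC AS k_wQ_26_wN_1_rb8033080c09x2_1 := p_wQ_26_wN_1_rb8033080c09x2_1

theorem g__wQ_26_wN_1_rb8033080c09x2_0 : GoodKC AS k_wQ_26_wN_1_rb8033080c09x2_0 := p_wQ_26_wN_1_rb8033080c09x2_0 g__wQ_26_wN_1_rb8033080c09x2_1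

theorem g__wQ_26_wN_1_rb8033080c09x2_4 : GoodKC AS k_wQ_26_wN_1_rb8033080c09x2_4 := p_wQ_26_wN_1_rb8033080c09x2_4

theorem g__wQ_26_wN_1_rb8033080c09x2_8 : GoodKC AS k_wQ_26_wN_1_rb8033080c09x2_8 := p_wQ_26_wN_1_rb8033080c09x2_8

theorem g__wQ_26_wN_1_rb8033080c09x2_7 : GoodKC AS k_wQ_26_wN_1_rb8033080c09x2_7 := p_wQ_26_wN_1_rb8033080c09x2_7 g__wQ_26_wN_1_rb8033080c09x2_8

theorem g__wQ_26_wN_1_rb8033080c09x2_6 : GoodKC AS k_wQ_26_wN_1_rb8033080c09x2_6 := p_wQ_26_wN_1_rb8033080c09x2_6 g__wQ_26_wN_1_rb8033080c09x2_7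

theorem g__wQ_26_wN_1_rb8033080c09x2_5 : GoodKC AS k_wQ_26_wN_1_rb8033080c09x2_5 := p_wQ_26_wN_1_rb8033080c09x2_5 g__wQ_26_wN_1_rb8033080c09x2_6

theorem g__wQ_26_wN_1_rb8033080c09x2_3 : GoodKC AS k_wQ_26_wN_1_rb8033080c09x2_3 := p_wQ_26_wN_1_rb8033080c09x2_3 g__wQ_26_wN_1_rb8033080c09x2_4 g__wQ_26_wN_1_rb8033080c09x2_5

theorem g__wQ_26_wN_1_rb8033080c09x2_11 : GoodKC AS k_wQ_26_wN_1_rb8033080c09x2_11 := p_wQ_26_wN_1_rb8033080c09x2_11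

theorem g__wQ_26_wN_1_rb8033080c09x2_12 : GoodKC AS k_wQ_26_wN_1_rb8033080c09x2_12 := p_wQ_26_wN_1_rb8033080c09x2_12

theorem g__wQ_26_wN_1_rb8033080c09x2_10 : GoodKC AS k_wQ_26_wN_1_rb8033080c09x2_10 := p_wQ_26_wN_1_rb8033080c09x2_10 g__wQ_26_wN_1_rb8033080c09x2_11 g__wQ_26_wN_1_rb8033080c09x2_12

theorem g__wQ_26_wN_1_rb8033080c09x2_18 : GoodKC AS k_wQ_26_wN_1_rb8033080c09x2_18 := p_wQ_26_wN_1_rb8033080c09x2_18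

theorem g__wQ_26_wN_1_rb8033080c09x2_17 : GoodKC AS k_wQ_26_wN_1_rb8033080c09x2_17 := p_wQ_26_wN_1_rb8033080c09x2_17 g__wQ_26_wN_1_rb8033080c09x2_18

theorem g__wQ_26_wN_1_rb8033080c09x2_16 : GoodKC AS k_wQ_26_wN_1_rb8033080c09x2_16 := p_wQ_26_wN_1_rb8033080c09x2_16 g__wQ_26_wN_1_rb8033080c09x2_17

theorem g__wQ_26_wN_1_rb8033080c09x2_21 : GoodKC AS k_wQ_26_wN_1_rb8033080c09x2_21 := p_wQ_26_wN_1_rb8033080c09x2_21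

theorem g__wQ_26_wN_1_rb8033080c09x2_20 : GoodKC AS k_wQ_26_wN_1_rb8033080c09x2_20 := p_wQ_26_wN_1_rb8033080c09x2_20 g__wQ_26_wN_1_rb8033080c09x2_21

theorem g__wQ_26_wN_1_rb8033080c09x2_19 : GoodKC AS k_wQ_26_wN_1_rb8033080c09x2_19 := p_wQ_26_wN_1_rb8033080c09x2_19 g__wQ_26_wN_1_rb8033080c09x2_20

theorem g__wQ_26_wN_1_rb8033080c09x2_24 : GoodKC AS k_wQ_26_wN_1_rb8033080c09x2_24 := p_wQ_26_wN_1_rb8033080c09x2_24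

theorem g__wQ_26_wN_1_rb8033080c09x2_23 : GoodKC AS k_wQ_26_wN_1_rb8033080c09x2_23 := p_wQ_26_wN_1_rb8033080c09x2_23 g__wQ_26_wN_1_rb8033080c09x2_24

theorem g__wQ_26_wN_1_rb8033080c09x2_26 : GoodKC AS k_wQ_26_wN_1_rb8033080c09x2_26 := p_wQ_26_wN_1_rb8033080c09x2_26

theorem g__wQ_26_wN_1_rb8033080c09x2_25 : GoodKC AS k_wQ_26_wN_1_rb8033080c09x2_25 := p_wQ_26_wN_1_rb8033080c09x2_25 g__wQ_26_wN_1_rb8033080c09x2_26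

theorem g__wQ_26_wN_1_rb8033080c09x2_22 : GoodKC AS k_wQ_26_wN_1_rb8033080c09x2_22 := p_wQ_26_wN_1_rb8033080c09x2_22 g__wQ_26_wN_1_rb8033080c09x2_23 g__wQ_26_wN_1_rb8033080c09x2_25

theorem g__wQ_26_wN_1_rb8033080c09x2_15 : GoodKC AS k_wQ_26_wN_1_rb8033080c09x2_15 := p_wQ_26_wN_1_rb8033080c09x2_15 g__wQ_26_wN_1_rb8033080c09x2_16 g__wQ_26_wN_1_rb8033080c09x2_19 g__wQ_26_wN_1_rb8033080c09x2_22

theorem g__wQ_26_wN_1_rb8033080c09x2_14 : GoodKC AS k_wQ_26_wN_1_rb8033080c09x2_14 := p_wQ_26_wN_1_rb8033080c09x2_14 g__wQ_26_wN_1_rb8033080c09x2_15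

theorem g__wQ_26_wN_1_rb8033080c09x2_13 : GoodKC AS k_wQ_26_wN_1_rb8033080c09x2_13 := p_wQ_26_wN_1_rb8033080c09x2_13 g__wQ_26_wN_1_rb8033080c09x2_14

theorem g__wQ_26_wN_1_rb8033080c09x2_9 : GoodKC AS k_wQ_26_wN_1_rb8033080c09x2_9 := p_wQ_26_wN_1_rb8033080c09x2_9 g__wQ_26_wN_1_rb8033080c09x2_10 g__wQ_26_wN_1_rb8033080c09x2_13

theorem g__wQ_26_wN_1_rb8033080c09x2_2 : GoodKC AS k_wQ_26_wN_1_rb8033080c09x2_2 := p_wQ_26_wN_1_rb8033080c09x2_2 g__wQ_26_wN_1_rb8033080c09x2_3 g__wQ_26_wN_1_rb8033080c09x2_9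

theorem g_wQ_26_wN_1_rb8033080c09x3 : GoodKC AS c_wQ_26_wN_1_rb8033080c09x3 := p_wQ_26_wN_1_rb8033080c09x2 g__wQ_26_wN_1_rb8033080c09x2_0 g__wQ_26_wN_1_rb8033080c09x2_2

theorem g_wQ_26_wN_1_rb8033080c08x3 : GoodKC AS c_wQ_26_wN_1_rb8033080c08x3 := p_wQ_26_wN_1_rb8033080c08x3

theorem g_wQ_26_wN_1_rb8033080c06x3 : GoodKC AS c_wQ_26_wN_1_rb8033080c06x3 := p_wQ_26_wN_1_rb8033080c06x3

theorem g_wQ_26_wN_1_rb8033080c04x3 : GoodKC AS c_wQ_26_wN_1_rb8033080c04x3 := p_wQ_26_wN_1_rb8033080c04x3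

theorem g_wQ_26_wN_1_rb8033080c02x3 : GoodKC AS c_wQ_26_wN_1_rb8033080c02x3 := p_wQ_26_wN_1_rb8033080c02x3

theorem g_wQ_26_wN_1_rb8033080c00x3 : GoodKC AS c_wQ_26_wN_1_rb8033080c00x3 := p_wQ_26_wN_1_rb8033080c00x3

theorem g_wQ_26_wN_1_rb8033080c01x3 : GoodKC AS c_wQ_26_wN_1_rb8033080c01x3 := p_wQ_26_wN_1_rb8033080c01x3

theorem g__wQ_26_wN_1_rb8033080cx3_2 : GoodKC AS k_wQ_26_wN_1_rb8033080cx3_2 := p_wQ_26_wN_1_rb8033080cx3_2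

theorem g__wQ_26_wN_1_rb8033080cx3_1 : GoodKC AS k_wQ_26_wN_1_rb8033080cx3_1 := p_wQ_26_wN_1_rb8033080cx3_1 g__wQ_26_wN_1_rb8033080cx3_2

theorem g__wQ_26_wN_1_rb8033080cx3_0 : GoodKC AS k_wQ_26_wN_1_rb8033080cx3_0 := p_wQ_26_wN_1_rb8033080cx3_0 g__wQ_26_wN_1_rb8033080cx3_1

theorem g_wQ_26_wN_1_rb8033080c03x3 : GoodKC AS c_wQ_26_wN_1_rb8033080c03x3 := p_wQ_26_wN_1_rb8033080c03x3

theorem g__wQ_26_wN_1_rb8033080cx3_6 : GoodKC AS k_wQ_26_wN_1_rb8033080cx3_6 := p_wQ_26_wN_1_rb8033080cx3_6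

theorem g__wQ_26_wN_1_rb8033080cx3_5 : GoodKC AS k_wQ_26_wN_1_rb8033080cx3_5 := p_wQ_26_wN_1_rb8033080cx3_5 g__wQ_26_wN_1_rb8033080cx3_6

theorem g__wQ_26_wN_1_rb8033080cx3_12 : GoodKC AS k_wQ_26_wN_1_rb8033080cx3_12 := p_wQ_26_wN_1_rb8033080cx3_12

theorem g__wQ_26_wN_1_rb8033080cx3_14 : GoodKC AS k_wQ_26_wN_1_rb8033080cx3_14 := p_wQ_26_wN_1_rb8033080cx3_14

theorem g__wQ_26_wN_1_rb8033080cx3_13 : GoodKC AS k_wQ_26_wN_1_rb8033080cx3_13 := p_wQ_26_wN_1_rb8033080cx3_13 g__wQ_26_wN_1_rb8033080cx3_14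

theorem g__wQ_26_wN_1_rb8033080cx3_11 : GoodKC AS k_wQ_26_wN_1_rb8033080cx3_11 := p_wQ_26_wN_1_rb8033080cx3_11 g__wQ_26_wN_1_rb8033080cx3_12 g__wQ_26_wN_1_rb8033080cx3_13

theorem g__wQ_26_wN_1_rb8033080cx3_16 : GoodKC AS k_wQ_26_wN_1_rb8033080cx3_16 := p_wQ_26_wN_1_rb8033080cx3_16

theorem g__wQ_26_wN_1_rb8033080cx3_15 : GoodKC AS k_wQ_26_wN_1_rb8033080cx3_15 := p_wQ_26_wN_1_rb8033080cx3_15 g__wQ_26_wN_1_rb8033080cx3_16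

theorem g__wQ_26_wN_1_rb8033080cx3_10 : GoodKC AS k_wQ_26_wN_1_rb8033080cx3_10 := p_wQ_26_wN_1_rb8033080cx3_10 g__wQ_26_wN_1_rb8033080cx3_11 g__wQ_26_wN_1_rb8033080cx3_15

theorem g__wQ_26_wN_1_rb8033080cx3_22 : GoodKC AS k_wQ_26_wN_1_rb8033080cx3_22 := p_wQ_26_wN_1_rb8033080cx3_22

theorem g__wQ_26_wN_1_rb8033080cx3_21 : GoodKC AS k_wQ_26_wN_1_rb8033080cx3_21 := p_wQ_26_wN_1_rb8033080cx3_21 g__wQ_26_wN_1_rb8033080cx3_22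

theorem g__wQ_26_wN_1_rb8033080cx3_23 : GoodKC AS k_wQ_26_wN_1_rb8033080cx3_23 := p_wQ_26_wN_1_rb8033080cx3_23

theorem g__wQ_26_wN_1_rb8033080cx3_20 : GoodKC AS k_wQ_26_wN_1_rb8033080cx3_20 := p_wQ_26_wN_1_rb8033080cx3_20 g__wQ_26_wN_1_rb8033080cx3_21 g__wQ_26_wN_1_rb8033080cx3_23

theorem g__wQ_26_wN_1_rb8033080cx3_19 : GoodKC AS k_wQ_26_wN_1_rb8033080cx3_19 := p_wQ_26_wN_1_rb8033080cx3_19 g__wQ_26_wN_1_rb8033080cx3_20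

theorem g__wQ_26_wN_1_rb8033080cx3_26 : GoodKC AS k_wQ_26_wN_1_rb8033080cx3_26 := p_wQ_26_wN_1_rb8033080cx3_26

theorem g__wQ_26_wN_1_rb8033080cx3_25 : GoodKC AS k_wQ_26_wN_1_rb8033080cx3_25 := p_wQ_26_wN_1_rb8033080cx3_25 g__wQ_26_wN_1_rb8033080cx3_26

theorem g__wQ_26_wN_1_rb8033080cx3_24 : GoodKC AS k_wQ_26_wN_1_rb8033080cx3_24 := p_wQ_26_wN_1_rb8033080cx3_24 g__wQ_26_wN_1_rb8033080cx3_25

theorem g__wQ_26_wN_1_rb8033080cx3_18 : GoodKC AS k_wQ_26_wN_1_rb8033080cx3_18 := p_wQ_26_wN_1_rb8033080cx3_18 g__wQ_26_wN_1_rb8033080cx3_19 g__wQ_26_wN_1_rb8033080cx3_24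

theorem g__wQ_26_wN_1_rb8033080cx3_17 : GoodKC AS k_wQ_26_wN_1_rb8033080cx3_17 := p_wQ_26_wN_1_rb8033080cx3_17 g__wQ_26_wN_1_rb8033080cx3_18

theorem g__wQ_26_wN_1_rb8033080cx3_9 : GoodKC AS k_wQ_26_wN_1_rb8033080cx3_9 := p_wQ_26_wN_1_rb8033080cx3_9 g__wQ_26_wN_1_rb8033080cx3_10 g__wQ_26_wN_1_rb8033080cx3_17

theorem g__wQ_26_wN_1_rb8033080cx3_8 : GoodKC AS k_wQ_26_wN_1_rb8033080cx3_8 := p_wQ_26_wN_1_rb8033080cx3_8 g__wQ_26_wN_1_rb8033080cx3_9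

theorem g__wQ_26_wN_1_rb8033080cx3_28 : GoodKC AS k_wQ_26_wN_1_rb8033080cx3_28 := p_wQ_26_wN_1_rb8033080cx3_28

theorem g__wQ_26_wN_1_rb8033080cx3_29 : GoodKC AS k_wQ_26_wN_1_rb8033080cx3_29 := p_wQ_26_wN_1_rb8033080cx3_29

theorem g__wQ_26_wN_1_rb8033080cx3_27 : GoodKC AS k_wQ_26_wN_1_rb8033080cx3_27 := p_wQ_26_wN_1_rb8033080cx3_27 g__wQ_26_wN_1_rb8033080cx3_28 g__wQ_26_wN_1_rb8033080cx3_29

theorem g__wQ_26_wN_1_rb8033080cx3_32 : GoodKC AS k_wQ_26_wN_1_rb8033080cx3_32 := p_wQ_26_wN_1_rb8033080cx3_32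

theorem g__wQ_26_wN_1_rb8033080cx3_31 : GoodKC AS k_wQ_26_wN_1_rb8033080cx3_31 := p_wQ_26_wN_1_rb8033080cx3_31 g__wQ_26_wN_1_rb8033080cx3_32

theorem g__wQ_26_wN_1_rb8033080cx3_30 : GoodKC AS k_wQ_26_wN_1_rb8033080cx3_30 := p_wQ_26_wN_1_rb8033080cx3_30 g__wQ_26_wN_1_rb8033080cx3_31

theorem g__wQ_26_wN_1_rb8033080cx3_33 : GoodKC AS k_wQ_26_wN_1_rb8033080cx3_33 := p_wQ_26_wN_1_rb8033080cx3_33

theorem g__wQ_26_wN_1_rb8033080cx3_7 : GoodKC AS k_wQ_26_wN_1_rb8033080cx3_7 := p_wQ_26_wN_1_rb8033080cx3_7 g__wQ_26_wN_1_rb8033080cx3_8 g__wQ_26_wN_1_rb8033080cx3_27 g__wQ_26_wN_1_rb8033080cx3_30 g__wQ_26_wN_1_rb8033080cx3_33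

theorem g__wQ_26_wN_1_rb8033080cx3_34 : GoodKC AS k_wQ_26_wN_1_rb8033080cx3_34 := p_wQ_26_wN_1_rb8033080cx3_34

theorem g__wQ_26_wN_1_rb8033080cx3_4 : GoodKC AS k_wQ_26_wN_1_rb8033080cx3_4 := p_wQ_26_wN_1_rb8033080cx3_4 g__wQ_26_wN_1_rb8033080cx3_5 g__wQ_26_wN_1_rb8033080cx3_7 g__wQ_26_wN_1_rb8033080cx3_34

theorem g__wQ_26_wN_1_rb8033080cx3_3 : GoodKC AS k_wQ_26_wN_1_rb8033080cx3_3 := p_wQ_26_wN_1_rb8033080cx3_3 g__wQ_26_wN_1_rb8033080cx3_4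

theorem g__wQ_26_wN_1_rb8033080c05x3_1 : GoodKC AS k_wQ_26_wN_1_rb8033080c05x3_1 := p_wQ_26_wN_1_rb8033080c05x3_1

theorem g__wQ_26_wN_1_rb8033080c05x3_2 : GoodKC AS k_wQ_26_wN_1_rb8033080c05x3_2 := p_wQ_26_wN_1_rb8033080c05x3_2

theorem g__wQ_26_wN_1_rb8033080c05x3_3 : GoodKC AS k_wQ_26_wN_1_rb8033080c05x3_3 := p_wQ_26_wN_1_rb8033080c05x3_3

theorem g__wQ_26_wN_1_rb8033080c05x3_0 : GoodKC AS k_wQ_26_wN_1_rb8033080c05x3_0 := p_wQ_26_wN_1_rb8033080c05x3_0 g__wQ_26_wN_1_rb8033080c05x3_1 g__wQ_26_wN_1_rb8033080c05x3_2 g__wQ_26_wN_1_rb8033080c05x3_3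

theorem g_wQ_26_wN_1_rb8033080c05x3 : GoodKC AS c_wQ_26_wN_1_rb8033080c05x3 := p_wQ_26_wN_1_rb8033080c05x3 g__wQ_26_wN_1_rb8033080c05x3_0

theorem g_wQ_26_wN_1_rb8033080c07x3 : GoodKC AS c_wQ_26_wN_1_rb8033080c07x3 := p_wQ_26_wN_1_rb8033080c07x3

theorem g_wQ_26_wN_1_rb8033080c0dx3 : GoodKC AS c_wQ_26_wN_1_rb8033080c0dx3 := p_wQ_26_wN_1_rb8033080c0dx3

theorem g__wQ_26_wN_1_rb8033080c0ex3_1 : GoodKC AS k_wQ_26_wN_1_rb8033080c0ex3_1 := p_wQ_26_wN_1_rb8033080c0ex3_1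

theorem g__wQ_26_wN_1_rb8033080c0ex3_2 : GoodKC AS k_wQ_26_wN_1_rb8033080c0ex3_2 := p_wQ_26_wN_1_rb8033080c0ex3_2

theorem g__wQ_26_wN_1_rb8033080c0ex3_0 : GoodKC AS k_wQ_26_wN_1_rb8033080c0ex3_0 := p_wQ_26_wN_1_rb8033080c0ex3_0 g__wQ_26_wN_1_rb8033080c0ex3_1 g__wQ_26_wN_1_rb8033080c0ex3_2

theorem g_wQ_26_wN_1_rb8033080c0ex3 : GoodKC AS c_wQ_26_wN_1_rb8033080c0ex3 := p_wQ_26_wN_1_rb8033080c0ex3 g__wQ_26_wN_1_rb8033080c0ex3_0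

theorem g_wQ_26_wN_1_rb8033080c10x3 : GoodKC AS c_wQ_26_wN_1_rb8033080c10x3 := p_wQ_26_wN_1_rb8033080c10x3

theorem g__wQ_26_wN_1_rb8033080c11x3_1 : GoodKC AS k_wQ_26_wN_1_rb8033080c11x3_1 := p_wQ_26_wN_1_rb8033080c11x3_1

theorem g__wQ_26_wN_1_rb8033080c11x3_0 : GoodKC AS k_wQ_26_wN_1_rb8033080c11x3_0 := p_wQ_26_wN_1_rb8033080c11x3_0 g__wQ_26_wN_1_rb8033080c11x3_1

theorem g_wQ_26_wN_1_rb8033080c11x3 : GoodKC AS c_wQ_26_wN_1_rb8033080c11x3 := p_wQ_26_wN_1_rb8033080c11x3 g__wQ_26_wN_1_rb8033080c11x3_0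

theorem g_wQ_26_wN_1_rb8033080c13x3 : GoodKC AS c_wQ_26_wN_1_rb8033080c13x3 := p_wQ_26_wN_1_rb8033080c13x3

theorem g_wQ_26_wN_1_rb8033080cx15 : GoodKC AS c_wQ_26_wN_1_rb8033080cx15 := p_wQ_26_wN_1_rb8033080cx3 g_wQ_26_wN_1_rb8033080c12x3 g_wQ_26_wN_1_rb8033080c0fx3 g_wQ_26_wN_1_rb8033080c0cx3 g_wQ_26_wN_1_rb8033080c0bx3 g_wQ_26_wN_1_rb8033080c0ax3 g_wQ_26_wN_1_rb8033080c09x3 g_wQ_26_wN_1_rb8033080c08x3 g_wQ_26_wN_1_rb8033080c06x3 g_wQ_26_wN_1_rb8033080c04x3 g_wQ_26_wN_1_rb8033080c02x3 g_wQ_26_wN_1_rb8033080c00x3 g_wQ_26_wN_1_rb8033080c01x3 g__wQ_26_wN_1_rb8033080cx3_0 g_wQ_26_wN_1_rb8033080c03x3 g__wQ_26_wN_1_rb8033080cx3_3 g_wQ_26_wN_1_rb8033080c05x3 g_wQ_26_wN_1_rb8033080c07x3 g_wQ_26_wN_1_rb8033080c0dx3 g_wQ_26_wN_1_rb8033080c0ex3 g_wQ_26_wN_1_rb8033080c10x3 g_wQ_26_wN_1_rb8033080c11x3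 g_wQ_26_wN_1_rb8033080c13x3

theorem g__wQ_26_wN_1_rb8033080ax4_3 : GoodKC AS k_wQ_26_wN_1_rb8033080ax4_3 := p_wQ_26_wN_1_rb8033080ax4_3

theorem g__wQ_26_wN_1_rb8033080ax4_4 : GoodKC AS k_wQ_26_wN_1_rb8033080ax4_4 := p_wQ_26_wN_1_rb8033080ax4_4

theorem g__wQ_26_wN_1_rb8033080ax4_2 : GoodKC AS k_wQ_26_wN_1_rb8033080ax4_2 := p_wQ_26_wN_1_rb8033080ax4_2 g__wQ_26_wN_1_rb8033080ax4_3 g__wQ_26_wN_1_rb8033080ax4_4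

theorem g__wQ_26_wN_1_rb8033080ax4_6 : GoodKC AS k_wQ_26_wN_1_rb8033080ax4_6 := p_wQ_26_wN_1_rb8033080ax4_6

theorem g__wQ_26_wN_1_rb8033080ax4_7 : GoodKC AS k_wQ_26_wN_1_rb8033080ax4_7 := p_wQ_26_wN_1_rb8033080ax4_7

theorem g__wQ_26_wN_1_rb8033080ax4_5 : GoodKC AS k_wQ_26_wN_1_rb8033080ax4_5 := p_wQ_26_wN_1_rb8033080ax4_5 g__wQ_26_wN_1_rb8033080ax4_6 g__wQ_26_wN_1_rb8033080ax4_7

theorem g__wQ_26_wN_1_rb8033080ax4_8 : GoodKC AS k_wQ_26_wN_1_rb8033080ax4_8 := p_wQ_26_wN_1_rb8033080ax4_8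

theorem g__wQ_26_wN_1_rb8033080ax4_1 : GoodKC AS k_wQ_26_wN_1_rb8033080ax4_1 := p_wQ_26_wN_1_rb8033080ax4_1 g__wQ_26_wN_1_rb8033080ax4_2 g__wQ_26_wN_1_rb8033080ax4_5 g__wQ_26_wN_1_rb8033080ax4_8

theorem g__wQ_26_wN_1_rb8033080ax4_11 : GoodKC AS k_wQ_26_wN_1_rb8033080ax4_11 := p_wQ_26_wN_1_rb8033080ax4_11

theorem g__wQ_26_wN_1_rb8033080ax4_12 : GoodKC AS k_wQ_26_wN_1_rb8033080ax4_12 := p_wQ_26_wN_1_rb8033080ax4_12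

theorem g__wQ_26_wN_1_rb8033080ax4_10 : GoodKC AS k_wQ_26_wN_1_rb8033080ax4_10 := p_wQ_26_wN_1_rb8033080ax4_10 g__wQ_26_wN_1_rb8033080ax4_11 g__wQ_26_wN_1_rb8033080ax4_12

theorem g__wQ_26_wN_1_rb8033080ax4_9 : GoodKC AS k_wQ_26_wN_1_rb8033080ax4_9 := p_wQ_26_wN_1_rb8033080ax4_9 g__wQ_26_wN_1_rb8033080ax4_10

theorem g__wQ_26_wN_1_rb8033080ax4_0 : GoodKC AS k_wQ_26_wN_1_rb8033080ax4_0 := p_wQ_26_wN_1_rb8033080ax4_0 g__wQ_26_wN_1_rb8033080ax4_1 g__wQ_26_wN_1_rb8033080ax4_9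

theorem g_wQ_26_wN_1_rb8033080ax15 : GoodKC AS c_wQ_26_wN_1_rb8033080ax15 := p_wQ_26_wN_1_rb8033080ax4 g__wQ_26_wN_1_rb8033080ax4_0

theorem g_wQ_26_wN_1_rb8033080824x3 : GoodKC AS c_wQ_26_wN_1_rb8033080824x3 := p_wQ_26_wN_1_rb8033080824x3

theorem g_wQ_26_wN_1_rb8033080821x3 : GoodKC AS c_wQ_26_wN_1_rb8033080821x3 := p_wQ_26_wN_1_rb8033080821x3

theorem g_wQ_26_wN_1_rb803308081fx3 : GoodKC AS c_wQ_26_wN_1_rb803308081fx3 := p_wQ_26_wN_1_rb803308081fx3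

theorem g_wQ_26_wN_1_rb803308081bx3 : GoodKC AS c_wQ_26_wN_1_rb803308081bx3 := p_wQ_26_wN_1_rb803308081bx3

theorem g__wQ_26_wN_1_rb803308081ax3_2 : GoodKC AS k_wQ_26_wN_1_rb803308081ax3_2 := p_wQ_26_wN_1_rb803308081ax3_2

theorem g__wQ_26_wN_1_rb803308081ax3_1 : GoodKC AS k_wQ_26_wN_1_rb803308081ax3_1 := p_wQ_26_wN_1_rb803308081ax3_1 g__wQ_26_wN_1_rb803308081ax3_2

theorem g__wQ_26_wN_1_rb803308081ax3_3 : GoodKC AS k_wQ_26_wN_1_rb803308081ax3_3 := p_wQ_26_wN_1_rb803308081ax3_3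

theorem g__wQ_26_wN_1_rb803308081ax3_0 : GoodKC AS k_wQ_26_wN_1_rb803308081ax3_0 := p_wQ_26_wN_1_rb803308081ax3_0 g__wQ_26_wN_1_rb803308081ax3_1 g__wQ_26_wN_1_rb803308081ax3_3

theorem g_wQ_26_wN_1_rb803308081ax3 : GoodKC AS c_wQ_26_wN_1_rb803308081ax3 := p_wQ_26_wN_1_rb803308081ax3 g__wQ_26_wN_1_rb803308081ax3_0

theorem g_wQ_26_wN_1_rb8033080819x3 : GoodKC AS c_wQ_26_wN_1_rb8033080819x3 := p_wQ_26_wN_1_rb8033080819x3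

theorem g_wQ_26_wN_1_rb8033080817x3 : GoodKC AS c_wQ_26_wN_1_rb8033080817x3 := p_wQ_26_wN_1_rb8033080817x3

theorem g_wQ_26_wN_1_rb8033080816x3 : GoodKC AS c_wQ_26_wN_1_rb8033080816x3 := p_wQ_26_wN_1_rb8033080816x3

theorem g_wQ_26_wN_1_rb8033080814x3 : GoodKC AS c_wQ_26_wN_1_rb8033080814x3 := p_wQ_26_wN_1_rb8033080814x3

theorem g_wQ_26_wN_1_rb8033080813x3 : GoodKC AS c_wQ_26_wN_1_rb8033080813x3 := p_wQ_26_wN_1_rb8033080813x3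

theorem g_wQ_26_wN_1_rb8033080812x3 : GoodKC AS c_wQ_26_wN_1_rb8033080812x3 := p_wQ_26_wN_1_rb8033080812x3

theorem g_wQ_26_wN_1_rb8033080811x3 : GoodKC AS c_wQ_26_wN_1_rb8033080811x3 := p_wQ_26_wN_1_rb8033080811x3

theorem g__wQ_26_wN_1_rb8033080810v3_0 : GoodKC AS k_wQ_26_wN_1_rb8033080810v3_0 := p_wQ_26_wN_1_rb8033080810v3_0

theorem g__wQ_26_wN_1_rb8033080810v3_1 : GoodKC AS k_wQ_26_wN_1_rb8033080810v3_1 := p_wQ_26_wN_1_rb8033080810v3_1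

theorem g_wQ_26_wN_1_rb8033080810x3 : GoodKC AS c_wQ_26_wN_1_rb8033080810x3 := p_wQ_26_wN_1_rb8033080810x3 g__wQ_26_wN_1_rb8033080810v3_0 g__wQ_26_wN_1_rb8033080810v3_1

theorem g__wQ_26_wN_1_rb80330808x3_3 : GoodKC AS k_wQ_26_wN_1_rb80330808x3_3 := p_wQ_26_wN_1_rb80330808x3_3

theorem g__wQ_26_wN_1_rb80330808x3_7 : GoodKC AS k_wQ_26_wN_1_rb80330808x3_7 := p_wQ_26_wN_1_rb80330808x3_7

theorem g__wQ_26_wN_1_rb80330808x3_6 : GoodKC AS k_wQ_26_wN_1_rb80330808x3_6 := p_wQ_26_wN_1_rb80330808x3_6 g__wQ_26_wN_1_rb80330808x3_7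

theorem g__wQ_26_wN_1_rb80330808x3_5 : GoodKC AS k_wQ_26_wN_1_rb80330808x3_5 := p_wQ_26_wN_1_rb80330808x3_5 g__wQ_26_wN_1_rb80330808x3_6

theorem g__wQ_26_wN_1_rb80330808x3_4 : GoodKC AS k_wQ_26_wN_1_rb80330808x3_4 := p_wQ_26_wN_1_rb80330808x3_4 g__wQ_26_wN_1_rb80330808x3_5

theorem g__wQ_26_wN_1_rb80330808x3_2 : GoodKC AS k_wQ_26_wN_1_rb80330808x3_2 := p_wQ_26_wN_1_rb80330808x3_2 g__wQ_26_wN_1_rb80330808x3_3 g__wQ_26_wN_1_rb80330808x3_4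

theorem g__wQ_26_wN_1_rb80330808x3_1 : GoodKC AS k_wQ_26_wN_1_rb80330808x3_1 := p_wQ_26_wN_1_rb80330808x3_1 g__wQ_26_wN_1_rb80330808x3_2

theorem g__wQ_26_wN_1_rb80330808x3_8 : GoodKC AS k_wQ_26_wN_1_rb80330808x3_8 := p_wQ_26_wN_1_rb80330808x3_8

theorem g__wQ_26_wN_1_rb80330808x3_0 : GoodKC AS k_wQ_26_wN_1_rb80330808x3_0 := p_wQ_26_wN_1_rb80330808x3_0 g__wQ_26_wN_1_rb80330808x3_1 g__wQ_26_wN_1_rb80330808x3_8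

theorem g_wQ_26_wN_1_rb803308080fx3 : GoodKC AS c_wQ_26_wN_1_rb803308080fx3 := p_wQ_26_wN_1_rb803308080fx3

theorem g_wQ_26_wN_1_rb803308080dx3 : GoodKC AS c_wQ_26_wN_1_rb803308080dx3 := p_wQ_26_wN_1_rb803308080dx3

theorem g_wQ_26_wN_1_rb803308080cx3 : GoodKC AS c_wQ_26_wN_1_rb803308080cx3 := p_wQ_26_wN_1_rb803308080cx3

theorem g_wQ_26_wN_1_rb803308080ax3 : GoodKC AS c_wQ_26_wN_1_rb803308080ax3 := p_wQ_26_wN_1_rb803308080ax3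

theorem g_wQ_26_wN_1_rb8033080809x3 : GoodKC AS c_wQ_26_wN_1_rb8033080809x3 := p_wQ_26_wN_1_rb8033080809x3

theorem g_wQ_26_wN_1_rb8033080808x3 : GoodKC AS c_wQ_26_wN_1_rb8033080808x3 := p_wQ_26_wN_1_rb8033080808x3

theorem g_wQ_26_wN_1_rb8033080804x3 : GoodKC AS c_wQ_26_wN_1_rb8033080804x3 := p_wQ_26_wN_1_rb8033080804x3

theorem g_wQ_26_wN_1_rb8033080803x3 : GoodKC AS c_wQ_26_wN_1_rb8033080803x3 := p_wQ_26_wN_1_rb8033080803x3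

theorem g_wQ_26_wN_1_rb8033080802x3 : GoodKC AS c_wQ_26_wN_1_rb8033080802x3 := p_wQ_26_wN_1_rb8033080802x3

theorem g_wQ_26_wN_1_rb8033080801x3 : GoodKC AS c_wQ_26_wN_1_rb8033080801x3 := p_wQ_26_wN_1_rb8033080801x3

theorem g_wQ_26_wN_1_rb8033080800x3 : GoodKC AS c_wQ_26_wN_1_rb8033080800x3 := p_wQ_26_wN_1_rb8033080800x3

theorem g_wQ_26_wN_1_rb8033080805x3 : GoodKC AS c_wQ_26_wN_1_rb8033080805x3 := p_wQ_26_wN_1_rb8033080805x3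

theorem g__wQ_26_wN_1_rb80330808x3_10 : GoodKC AS k_wQ_26_wN_1_rb80330808x3_10 := p_wQ_26_wN_1_rb80330808x3_10

theorem g__wQ_26_wN_1_rb80330808x3_12 : GoodKC AS k_wQ_26_wN_1_rb80330808x3_12 := p_wQ_26_wN_1_rb80330808x3_12

theorem g__wQ_26_wN_1_rb80330808x3_11 : GoodKC AS k_wQ_26_wN_1_rb80330808x3_11 := p_wQ_26_wN_1_rb80330808x3_11 g__wQ_26_wN_1_rb80330808x3_12

theorem g__wQ_26_wN_1_rb80330808x3_16 : GoodKC AS k_wQ_26_wN_1_rb80330808x3_16 := p_wQ_26_wN_1_rb80330808x3_16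

theorem g__wQ_26_wN_1_rb80330808x3_15 : GoodKC AS k_wQ_26_wN_1_rb80330808x3_15 := p_wQ_26_wN_1_rb80330808x3_15 g__wQ_26_wN_1_rb80330808x3_16

theorem g__wQ_26_wN_1_rb80330808x3_20 : GoodKC AS k_wQ_26_wN_1_rb80330808x3_20 := p_wQ_26_wN_1_rb80330808x3_20

theorem g__wQ_26_wN_1_rb80330808x3_19 : GoodKC AS k_wQ_26_wN_1_rb80330808x3_19 := p_wQ_26_wN_1_rb80330808x3_19 g__wQ_26_wN_1_rb80330808x3_20

theorem g__wQ_26_wN_1_rb80330808x3_18 : GoodKC AS k_wQ_26_wN_1_rb80330808x3_18 := p_wQ_26_wN_1_rb80330808x3_18 g__wQ_26_wN_1_rb80330808x3_19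

theorem g__wQ_26_wN_1_rb80330808x3_17 : GoodKC AS k_wQ_26_wN_1_rb80330808x3_17 := p_wQ_26_wN_1_rb80330808x3_17 g__wQ_26_wN_1_rb80330808x3_18

theorem g__wQ_26_wN_1_rb80330808x3_14 : GoodKC AS k_wQ_26_wN_1_rb80330808x3_14 := p_wQ_26_wN_1_rb80330808x3_14 g__wQ_26_wN_1_rb80330808x3_15 g__wQ_26_wN_1_rb80330808x3_17

theorem g__wQ_26_wN_1_rb80330808x3_22 : GoodKC AS k_wQ_26_wN_1_rb80330808x3_22 := p_wQ_26_wN_1_rb80330808x3_22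

theorem g__wQ_26_wN_1_rb80330808x3_21 : GoodKC AS k_wQ_26_wN_1_rb80330808x3_21 := p_wQ_26_wN_1_rb80330808x3_21 g__wQ_26_wN_1_rb80330808x3_22

theorem g__wQ_26_wN_1_rb80330808x3_13 : GoodKC AS k_wQ_26_wN_1_rb80330808x3_13 := p_wQ_26_wN_1_rb80330808x3_13 g__wQ_26_wN_1_rb80330808x3_14 g__wQ_26_wN_1_rb80330808x3_21

theorem g_wQ_26_wN_1_rb8033080806x3 : GoodKC AS c_wQ_26_wN_1_rb8033080806x3 := p_wQ_26_wN_1_rb8033080806x3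

theorem g_wQ_26_wN_1_rb8033080807x3 : GoodKC AS c_wQ_26_wN_1_rb8033080807x3 := p_wQ_26_wN_1_rb8033080807x3

theorem g__wQ_26_wN_1_rb803308080bx3_2 : GoodKC AS k_wQ_26_wN_1_rb803308080bx3_2 := p_wQ_26_wN_1_rb803308080bx3_2

theorem g__wQ_26_wN_1_rb803308080bx3_3 : GoodKC AS k_wQ_26_wN_1_rb803308080bx3_3 := p_wQ_26_wN_1_rb803308080bx3_3

theorem g__wQ_26_wN_1_rb803308080bx3_1 : GoodKC AS k_wQ_26_wN_1_rb803308080bx3_1 := p_wQ_26_wN_1_rb803308080bx3_1 g__wQ_26_wN_1_rb803308080bx3_2 g__wQ_26_wN_1_rb803308080bx3_3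

theorem g__wQ_26_wN_1_rb803308080bx3_0 : GoodKC AS k_wQ_26_wN_1_rb803308080bx3_0 := p_wQ_26_wN_1_rb803308080bx3_0 g__wQ_26_wN_1_rb803308080bx3_1

theorem g_wQ_26_wN_1_rb803308080bx3 : GoodKC AS c_wQ_26_wN_1_rb803308080bx3 := p_wQ_26_wN_1_rb803308080bx3 g__wQ_26_wN_1_rb803308080bx3_0

theorem g_wQ_26_wN_1_rb803308080ex3 : GoodKC AS c_wQ_26_wN_1_rb803308080ex3 := p_wQ_26_wN_1_rb803308080ex3

theorem g__wQ_26_wN_1_rb80330808x3_9 : GoodKC AS k_wQ_26_wN_1_rb80330808x3_9 := p_wQ_26_wN_1_rb80330808x3_9 g_wQ_26_wN_1_rb803308080dx3 g_wQ_26_wN_1_rb803308080cx3 g_wQ_26_wN_1_rb803308080ax3 g_wQ_26_wN_1_rb8033080809x3 g_wQ_26_wN_1_rb8033080808x3 g_wQ_26_wN_1_rb8033080804x3 g_wQ_26_wN_1_rb8033080803x3 g_wQ_26_wN_1_rb8033080802x3 g_wQ_26_wN_1_rb8033080801x3 g_wQ_26_wN_1_rb8033080800x3 g_wQ_26_wN_1_rb8033080805x3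 g__wQ_26_wN_1_rb80330808x3_10 g__wQ_26_wN_1_rb80330808x3_11 g__wQ_26_wN_1_rb80330808x3_13 g_wQ_26_wN_1_rb8033080806x3 g_wQ_26_wN_1_rb8033080807x3 g_wQ_26_wN_1_rb803308080bx3 g_wQ_26_wN_1_rb803308080ex3

theorem g__wQ_26_wN_1_rb80330808x3_23 : GoodKC AS k_wQ_26_wN_1_rb80330808x3_23 := p_wQ_26_wN_1_rb80330808x3_23

theorem g__wQ_26_wN_1_rb80330808x3_25 : GoodKC AS k_wQ_26_wN_1_rb80330808x3_25 := p_wQ_26_wN_1_rb80330808x3_25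

theorem g__wQ_26_wN_1_rb80330808x3_24 : GoodKC AS k_wQ_26_wN_1_rb80330808x3_24 := p_wQ_26_wN_1_rb80330808x3_24 g__wQ_26_wN_1_rb80330808x3_25

theorem g__wQ_26_wN_1_rb8033080815x3_2 : GoodKC AS k_wQ_26_wN_1_rb8033080815x3_2 := p_wQ_26_wN_1_rb8033080815x3_2

theorem g__wQ_26_wN_1_rb8033080815x3_1 : GoodKC AS k_wQ_26_wN_1_rb8033080815x3_1 := p_wQ_26_wN_1_rb8033080815x3_1 g__wQ_26_wN_1_rb8033080815x3_2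

theorem g__wQ_26_wN_1_rb8033080815x3_5 : GoodKC AS k_wQ_26_wN_1_rb8033080815x3_5 := p_wQ_26_wN_1_rb8033080815x3_5

theorem g__wQ_26_wN_1_rb8033080815x3_4 : GoodKC AS k_wQ_26_wN_1_rb8033080815x3_4 := p_wQ_26_wN_1_rb8033080815x3_4 g__wQ_26_wN_1_rb8033080815x3_5

theorem g__wQ_26_wN_1_rb8033080815x3_11 : GoodKC AS k_wQ_26_wN_1_rb8033080815x3_11 := p_wQ_26_wN_1_rb8033080815x3_11

theorem g__wQ_26_wN_1_rb8033080815x3_10 : GoodKC AS k_wQ_26_wN_1_rb8033080815x3_10 := p_wQ_26_wN_1_rb8033080815x3_10 g__wQ_26_wN_1_rb8033080815x3_11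

theorem g__wQ_26_wN_1_rb8033080815x3_9 : GoodKC AS k_wQ_26_wN_1_rb8033080815x3_9 := p_wQ_26_wN_1_rb8033080815x3_9 g__wQ_26_wN_1_rb8033080815x3_10

theorem g__wQ_26_wN_1_rb8033080815x3_8 : GoodKC AS k_wQ_26_wN_1_rb8033080815x3_8 := p_wQ_26_wN_1_rb8033080815x3_8 g__wQ_26_wN_1_rb8033080815x3_9

theorem g__wQ_26_wN_1_rb8033080815x3_7 : GoodKC AS k_wQ_26_wN_1_rb8033080815x3_7 := p_wQ_26_wN_1_rb8033080815x3_7 g__wQ_26_wN_1_rb8033080815x3_8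

theorem g__wQ_26_wN_1_rb8033080815x3_6 : GoodKC AS k_wQ_26_wN_1_rb8033080815x3_6 := p_wQ_26_wN_1_rb8033080815x3_6 g__wQ_26_wN_1_rb8033080815x3_7

theorem g__wQ_26_wN_1_rb8033080815x3_12 : GoodKC AS k_wQ_26_wN_1_rb8033080815x3_12 := p_wQ_26_wN_1_rb8033080815x3_12

theorem g__wQ_26_wN_1_rb8033080815x3_3 : GoodKC AS k_wQ_26_wN_1_rb8033080815x3_3 := p_wQ_26_wN_1_rb8033080815x3_3 g__wQ_26_wN_1_rb8033080815x3_4 g__wQ_26_wN_1_rb8033080815x3_6 g__wQ_26_wN_1_rb8033080815x3_12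

theorem g__wQ_26_wN_1_rb8033080815x3_16 : GoodKC AS k_wQ_26_wN_1_rb8033080815x3_16 := p_wQ_26_wN_1_rb8033080815x3_16

theorem g__wQ_26_wN_1_rb8033080815x3_15 : GoodKC AS k_wQ_26_wN_1_rb8033080815x3_15 := p_wQ_26_wN_1_rb8033080815x3_15 g__wQ_26_wN_1_rb8033080815x3_16

theorem g__wQ_26_wN_1_rb8033080815x3_14 : GoodKC AS k_wQ_26_wN_1_rb8033080815x3_14 := p_wQ_26_wN_1_rb8033080815x3_14 g__wQ_26_wN_1_rb8033080815x3_15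

theorem g__wQ_26_wN_1_rb8033080815x3_13 : GoodKC AS k_wQ_26_wN_1_rb8033080815x3_13 := p_wQ_26_wN_1_rb8033080815x3_13 g__wQ_26_wN_1_rb8033080815x3_14

theorem g__wQ_26_wN_1_rb8033080815x3_0 : GoodKC AS k_wQ_26_wN_1_rb8033080815x3_0 := p_wQ_26_wN_1_rb8033080815x3_0 g__wQ_26_wN_1_rb8033080815x3_1 g__wQ_26_wN_1_rb8033080815x3_3 g__wQ_26_wN_1_rb8033080815x3_13

theorem g_wQ_26_wN_1_rb8033080815x3 : GoodKC AS c_wQ_26_wN_1_rb8033080815x3 := p_wQ_26_wN_1_rb8033080815x3 g__wQ_26_wN_1_rb8033080815x3_0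

theorem g__wQ_26_wN_1_rb8033080818x3_2 : GoodKC AS k_wQ_26_wN_1_rb8033080818x3_2 := p_wQ_26_wN_1_rb8033080818x3_2

theorem g__wQ_26_wN_1_rb8033080818x3_1 : GoodKC AS k_wQ_26_wN_1_rb8033080818x3_1 := p_wQ_26_wN_1_rb8033080818x3_1 g__wQ_26_wN_1_rb8033080818x3_2

theorem g__wQ_26_wN_1_rb8033080818x3_4 : GoodKC AS k_wQ_26_wN_1_rb8033080818x3_4 := p_wQ_26_wN_1_rb8033080818x3_4

theorem g__wQ_26_wN_1_rb8033080818x3_6 : GoodKC AS k_wQ_26_wN_1_rb8033080818x3_6 := p_wQ_26_wN_1_rb8033080818x3_6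

theorem g__wQ_26_wN_1_rb8033080818x3_8 : GoodKC AS k_wQ_26_wN_1_rb8033080818x3_8 := p_wQ_26_wN_1_rb8033080818x3_8

theorem g__wQ_26_wN_1_rb8033080818x3_7 : GoodKC AS k_wQ_26_wN_1_rb8033080818x3_7 := p_wQ_26_wN_1_rb8033080818x3_7 g__wQ_26_wN_1_rb8033080818x3_8

theorem g__wQ_26_wN_1_rb8033080818x3_5 : GoodKC AS k_wQ_26_wN_1_rb8033080818x3_5 := p_wQ_26_wN_1_rb8033080818x3_5 g__wQ_26_wN_1_rb8033080818x3_6 g__wQ_26_wN_1_rb8033080818x3_7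

theorem g__wQ_26_wN_1_rb8033080818x3_3 : GoodKC AS k_wQ_26_wN_1_rb8033080818x3_3 := p_wQ_26_wN_1_rb8033080818x3_3 g__wQ_26_wN_1_rb8033080818x3_4 g__wQ_26_wN_1_rb8033080818x3_5

theorem g__wQ_26_wN_1_rb8033080818x3_0 : GoodKC AS k_wQ_26_wN_1_rb8033080818x3_0 := p_wQ_26_wN_1_rb8033080818x3_0 g__wQ_26_wN_1_rb8033080818x3_1 g__wQ_26_wN_1_rb8033080818x3_3

theorem g__wQ_26_wN_1_rb8033080818x3_9 : GoodKC AS k_wQ_26_wN_1_rb8033080818x3_9 := p_wQ_26_wN_1_rb8033080818x3_9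

theorem g_wQ_26_wN_1_rb8033080818x3 : GoodKC AS c_wQ_26_wN_1_rb8033080818x3 := p_wQ_26_wN_1_rb8033080818x3 g__wQ_26_wN_1_rb8033080818x3_0 g__wQ_26_wN_1_rb8033080818x3_9

theorem g_wQ_26_wN_1_rb803308081cx3 : GoodKC AS c_wQ_26_wN_1_rb803308081cx3 := p_wQ_26_wN_1_rb803308081cx3

theorem g_wQ_26_wN_1_rb803308081dx3 : GoodKC AS c_wQ_26_wN_1_rb803308081dx3 := p_wQ_26_wN_1_rb803308081dx3

theorem g_wQ_26_wN_1_rb803308081ex3 : GoodKC AS c_wQ_26_wN_1_rb803308081ex3 := p_wQ_26_wN_1_rb803308081ex3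

theorem g_wQ_26_wN_1_rb8033080820x3 : GoodKC AS c_wQ_26_wN_1_rb8033080820x3 := p_wQ_26_wN_1_rb8033080820x3

theorem g_wQ_26_wN_1_rb8033080822x3 : GoodKC AS c_wQ_26_wN_1_rb8033080822x3 := p_wQ_26_wN_1_rb8033080822x3

theorem g_wQ_26_wN_1_rb8033080823x3 : GoodKC AS c_wQ_26_wN_1_rb8033080823x3 := p_wQ_26_wN_1_rb8033080823x3

theorem g_wQ_26_wN_1_rb80330808x15 : GoodKC AS c_wQ_26_wN_1_rb80330808x15 := p_wQ_26_wN_1_rb80330808x3 g_wQ_26_wN_1_rb8033080824x3 g_wQ_26_wN_1_rb8033080821x3 g_wQ_26_wN_1_rb803308081fx3 g_wQ_26_wN_1_rb803308081bx3 g_wQ_26_wN_1_rb803308081ax3 g_wQ_26_wN_1_rb8033080819x3 g_wQ_26_wN_1_rb8033080817x3 g_wQ_26_wN_1_rb8033080816x3 g_wQ_26_wN_1_rb8033080814x3 g_wQ_26_wN_1_rb8033080813x3 g_wQ_26_wN_1_rb8033080812x3 g_wQ_26_wN_1_rb8033080811x3 g_wQ_26_wN_1_rb8033080810x3 g__wQ_26_wN_1_rb80330808x3_0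 g_wQ_26_wN_1_rb803308080fx3 g__wQ_26_wN_1_rb80330808x3_9 g__wQ_26_wN_1_rb80330808x3_23 g__wQ_26_wN_1_rb80330808x3_24 g_wQ_26_wN_1_rb8033080815x3 g_wQ_26_wN_1_rb8033080818x3 g_wQ_26_wN_1_rb803308081cx3 g_wQ_26_wN_1_rb803308081dx3 g_wQ_26_wN_1_rb803308081ex3 g_wQ_26_wN_1_rb8033080820x3 g_wQ_26_wN_1_rb8033080822x3 g_wQ_26_wN_1_rb8033080823x3

theorem g_wQ_26_wN_1_rb80330807x15 : GoodKC AS c_wQ_26_wN_1_rb80330807x15 := p_wQ_26_wN_1_rb80330807x5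

theorem g__wQ_26_wN_1_rb80330805x5_1 : GoodKC AS k_wQ_26_wN_1_rb80330805x5_1 := p_wQ_26_wN_1_rb80330805x5_1

theorem g__wQ_26_wN_1_rb80330805x5_2 : GoodKC AS k_wQ_26_wN_1_rb80330805x5_2 := p_wQ_26_wN_1_rb80330805x5_2

theorem g__wQ_26_wN_1_rb80330805x5_0 : GoodKC AS k_wQ_26_wN_1_rb80330805x5_0 := p_wQ_26_wN_1_rb80330805x5_0 g__wQ_26_wN_1_rb80330805x5_1 g__wQ_26_wN_1_rb80330805x5_2

theorem g_wQ_26_wN_1_rb80330805x15 : GoodKC AS c_wQ_26_wN_1_rb80330805x15 := p_wQ_26_wN_1_rb80330805x5 g__wQ_26_wN_1_rb80330805x5_0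

theorem g__wQ_26_wN_1_rb80330804x4_3 : GoodKC AS k_wQ_26_wN_1_rb80330804x4_3 := p_wQ_26_wN_1_rb80330804x4_3

theorem g__wQ_26_wN_1_rb80330804x4_4 : GoodKC AS k_wQ_26_wN_1_rb80330804x4_4 := p_wQ_26_wN_1_rb80330804x4_4

theorem g__wQ_26_wN_1_rb80330804x4_2 : GoodKC AS k_wQ_26_wN_1_rb80330804x4_2 := p_wQ_26_wN_1_rb80330804x4_2 g__wQ_26_wN_1_rb80330804x4_3 g__wQ_26_wN_1_rb80330804x4_4

theorem g__wQ_26_wN_1_rb80330804x4_1 : GoodKC AS k_wQ_26_wN_1_rb80330804x4_1 := p_wQ_26_wN_1_rb80330804x4_1 g__wQ_26_wN_1_rb80330804x4_2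

theorem g__wQ_26_wN_1_rb80330804x4_8 : GoodKC AS k_wQ_26_wN_1_rb80330804x4_8 := p_wQ_26_wN_1_rb80330804x4_8

theorem g__wQ_26_wN_1_rb80330804x4_7 : GoodKC AS k_wQ_26_wN_1_rb80330804x4_7 := p_wQ_26_wN_1_rb80330804x4_7 g__wQ_26_wN_1_rb80330804x4_8

theorem g__wQ_26_wN_1_rb80330804x4_9 : GoodKC AS k_wQ_26_wN_1_rb80330804x4_9 := p_wQ_26_wN_1_rb80330804x4_9

theorem g__wQ_26_wN_1_rb80330804x4_6 : GoodKC AS k_wQ_26_wN_1_rb80330804x4_6 := p_wQ_26_wN_1_rb80330804x4_6 g__wQ_26_wN_1_rb80330804x4_7 g__wQ_26_wN_1_rb80330804x4_9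

theorem g__wQ_26_wN_1_rb80330804x4_5 : GoodKC AS k_wQ_26_wN_1_rb80330804x4_5 := p_wQ_26_wN_1_rb80330804x4_5 g__wQ_26_wN_1_rb80330804x4_6

theorem g__wQ_26_wN_1_rb80330804x4_10 : GoodKC AS k_wQ_26_wN_1_rb80330804x4_10 := p_wQ_26_wN_1_rb80330804x4_10

theorem g__wQ_26_wN_1_rb80330804x4_0 : GoodKC AS k_wQ_26_wN_1_rb80330804x4_0 := p_wQ_26_wN_1_rb80330804x4_0 g__wQ_26_wN_1_rb80330804x4_1 g__wQ_26_wN_1_rb80330804x4_5 g__wQ_26_wN_1_rb80330804x4_10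

theorem g_wQ_26_wN_1_rb80330804x15 : GoodKC AS c_wQ_26_wN_1_rb80330804x15 := p_wQ_26_wN_1_rb80330804x4 g__wQ_26_wN_1_rb80330804x4_0

theorem g__wQ_26_wN_1_rb80330803x5_2 : GoodKC AS k_wQ_26_wN_1_rb80330803x5_2 := p_wQ_26_wN_1_rb80330803x5_2

theorem g__wQ_26_wN_1_rb80330803x5_1 : GoodKC AS k_wQ_26_wN_1_rb80330803x5_1 := p_wQ_26_wN_1_rb80330803x5_1 g__wQ_26_wN_1_rb80330803x5_2

theorem g__wQ_26_wN_1_rb80330803x5_0 : GoodKC AS k_wQ_26_wN_1_rb80330803x5_0 := p_wQ_26_wN_1_rb80330803x5_0 g__wQ_26_wN_1_rb80330803x5_1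

theorem g__wQ_26_wN_1_rb80330803x5_4 : GoodKC AS k_wQ_26_wN_1_rb80330803x5_4 := p_wQ_26_wN_1_rb80330803x5_4

theorem g__wQ_26_wN_1_rb80330803x5_3 : GoodKC AS k_wQ_26_wN_1_rb80330803x5_3 := p_wQ_26_wN_1_rb80330803x5_3 g__wQ_26_wN_1_rb80330803x5_4

theorem g_wQ_26_wN_1_rb80330803x15 : GoodKC AS c_wQ_26_wN_1_rb80330803x15 := p_wQ_26_wN_1_rb80330803x5 g__wQ_26_wN_1_rb80330803x5_0 g__wQ_26_wN_1_rb80330803x5_3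

theorem g__wQ_26_wN_1_rb803308x15_3 : GoodKC AS k_wQ_26_wN_1_rb803308x15_3 := p_wQ_26_wN_1_rb803308x15_3

theorem g__wQ_26_wN_1_rb803308x15_9 : GoodKC AS k_wQ_26_wN_1_rb803308x15_9 := p_wQ_26_wN_1_rb803308x15_9

theorem g__wQ_26_wN_1_rb803308x15_8 : GoodKC AS k_wQ_26_wN_1_rb803308x15_8 := p_wQ_26_wN_1_rb803308x15_8 g__wQ_26_wN_1_rb803308x15_9

theorem g__wQ_26_wN_1_rb803308x15_7 : GoodKC AS k_wQ_26_wN_1_rb803308x15_7 := p_wQ_26_wN_1_rb803308x15_7 g__wQ_26_wN_1_rb803308x15_8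

theorem g__wQ_26_wN_1_rb803308x15_14 : GoodKC AS k_wQ_26_wN_1_rb803308x15_14 := p_wQ_26_wN_1_rb803308x15_14

theorem g__wQ_26_wN_1_rb803308x15_13 : GoodKC AS k_wQ_26_wN_1_rb803308x15_13 := p_wQ_26_wN_1_rb803308x15_13 g__wQ_26_wN_1_rb803308x15_14

theorem g__wQ_26_wN_1_rb803308x15_16 : GoodKC AS k_wQ_26_wN_1_rb803308x15_16 := p_wQ_26_wN_1_rb803308x15_16

theorem g__wQ_26_wN_1_rb803308x15_17 : GoodKC AS k_wQ_26_wN_1_rb803308x15_17 := p_wQ_26_wN_1_rb803308x15_17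

theorem g__wQ_26_wN_1_rb803308x15_15 : GoodKC AS k_wQ_26_wN_1_rb803308x15_15 := p_wQ_26_wN_1_rb803308x15_15 g__wQ_26_wN_1_rb803308x15_16 g__wQ_26_wN_1_rb803308x15_17

theorem g__wQ_26_wN_1_rb803308x15_12 : GoodKC AS k_wQ_26_wN_1_rb803308x15_12 := p_wQ_26_wN_1_rb803308x15_12 g__wQ_26_wN_1_rb803308x15_13 g__wQ_26_wN_1_rb803308x15_15

theorem g__wQ_26_wN_1_rb803308x15_11 : GoodKC AS k_wQ_26_wN_1_rb803308x15_11 := p_wQ_26_wN_1_rb803308x15_11 g__wQ_26_wN_1_rb803308x15_12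

theorem g__wQ_26_wN_1_rb803308x15_10 : GoodKC AS k_wQ_26_wN_1_rb803308x15_10 := p_wQ_26_wN_1_rb803308x15_10 g__wQ_26_wN_1_rb803308x15_11

theorem g__wQ_26_wN_1_rb803308x15_18 : GoodKC AS k_wQ_26_wN_1_rb803308x15_18 := p_wQ_26_wN_1_rb803308x15_18

theorem g__wQ_26_wN_1_rb803308x15_6 : GoodKC AS k_wQ_26_wN_1_rb803308x15_6 := p_wQ_26_wN_1_rb803308x15_6 g__wQ_26_wN_1_rb803308x15_7 g__wQ_26_wN_1_rb803308x15_10 g__wQ_26_wN_1_rb803308x15_18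

theorem g__wQ_26_wN_1_rb803308x15_20 : GoodKC AS k_wQ_26_wN_1_rb803308x15_20 := p_wQ_26_wN_1_rb803308x15_20

theorem g__wQ_26_wN_1_rb803308x15_19 : GoodKC AS k_wQ_26_wN_1_rb803308x15_19 := p_wQ_26_wN_1_rb803308x15_19 g__wQ_26_wN_1_rb803308x15_20

theorem g__wQ_26_wN_1_rb803308x15_22 : GoodKC AS k_wQ_26_wN_1_rb803308x15_22 := p_wQ_26_wN_1_rb803308x15_22

theorem g__wQ_26_wN_1_rb803308x15_26 : GoodKC AS k_wQ_26_wN_1_rb803308x15_26 := p_wQ_26_wN_1_rb803308x15_26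

theorem g__wQ_26_wN_1_rb803308x15_29 : GoodKC AS k_wQ_26_wN_1_rb803308x15_29 := p_wQ_26_wN_1_rb803308x15_29

theorem g__wQ_26_wN_1_rb803308x15_28 : GoodKC AS k_wQ_26_wN_1_rb803308x15_28 := p_wQ_26_wN_1_rb803308x15_28 g__wQ_26_wN_1_rb803308x15_29

theorem g__wQ_26_wN_1_rb803308x15_27 : GoodKC AS k_wQ_26_wN_1_rb803308x15_27 := p_wQ_26_wN_1_rb803308x15_27 g__wQ_26_wN_1_rb803308x15_28

theorem g__wQ_26_wN_1_rb803308x15_25 : GoodKC AS k_wQ_26_wN_1_rb803308x15_25 := p_wQ_26_wN_1_rb803308x15_25 g__wQ_26_wN_1_rb803308x15_26 g__wQ_26_wN_1_rb803308x15_27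

theorem g__wQ_26_wN_1_rb803308x15_24 : GoodKC AS k_wQ_26_wN_1_rb803308x15_24 := p_wQ_26_wN_1_rb803308x15_24 g__wQ_26_wN_1_rb803308x15_25

theorem g__wQ_26_wN_1_rb803308x15_23 : GoodKC AS k_wQ_26_wN_1_rb803308x15_23 := p_wQ_26_wN_1_rb803308x15_23 g__wQ_26_wN_1_rb803308x15_24

theorem g__wQ_26_wN_1_rb803308x15_30 : GoodKC AS k_wQ_26_wN_1_rb803308x15_30 := p_wQ_26_wN_1_rb803308x15_30

theorem g__wQ_26_wN_1_rb803308x15_34 : GoodKC AS k_wQ_26_wN_1_rb803308x15_34 := p_wQ_26_wN_1_rb803308x15_34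

theorem g__wQ_26_wN_1_rb803308x15_33 : GoodKC AS k_wQ_26_wN_1_rb803308x15_33 := p_wQ_26_wN_1_rb803308x15_33 g__wQ_26_wN_1_rb803308x15_34

theorem g__wQ_26_wN_1_rb803308x15_39 : GoodKC AS k_wQ_26_wN_1_rb803308x15_39 := p_wQ_26_wN_1_rb803308x15_39

theorem g__wQ_26_wN_1_rb803308x15_38 : GoodKC AS k_wQ_26_wN_1_rb803308x15_38 := p_wQ_26_wN_1_rb803308x15_38 g__wQ_26_wN_1_rb803308x15_39

theorem g__wQ_26_wN_1_rb803308x15_40 : GoodKC AS k_wQ_26_wN_1_rb803308x15_40 := p_wQ_26_wN_1_rb803308x15_40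

theorem g__wQ_26_wN_1_rb803308x15_37 : GoodKC AS k_wQ_26_wN_1_rb803308x15_37 := p_wQ_26_wN_1_rb803308x15_37 g__wQ_26_wN_1_rb803308x15_38 g__wQ_26_wN_1_rb803308x15_40

theorem g__wQ_26_wN_1_rb803308x15_36 : GoodKC AS k_wQ_26_wN_1_rb803308x15_36 := p_wQ_26_wN_1_rb803308x15_36 g__wQ_26_wN_1_rb803308x15_37

theorem g__wQ_26_wN_1_rb803308x15_35 : GoodKC AS k_wQ_26_wN_1_rb803308x15_35 := p_wQ_26_wN_1_rb803308x15_35 g__wQ_26_wN_1_rb803308x15_36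

theorem g__wQ_26_wN_1_rb803308x15_32 : GoodKC AS k_wQ_26_wN_1_rb803308x15_32 := p_wQ_26_wN_1_rb803308x15_32 g__wQ_26_wN_1_rb803308x15_33 g__wQ_26_wN_1_rb803308x15_35

theorem g__wQ_26_wN_1_rb803308x15_31 : GoodKC AS k_wQ_26_wN_1_rb803308x15_31 := p_wQ_26_wN_1_rb803308x15_31 g__wQ_26_wN_1_rb803308x15_32

theorem g__wQ_26_wN_1_rb803308x15_21 : GoodKC AS k_wQ_26_wN_1_rb803308x15_21 := p_wQ_26_wN_1_rb803308x15_21 g__wQ_26_wN_1_rb803308x15_22 g__wQ_26_wN_1_rb803308x15_23 g__wQ_26_wN_1_rb803308x15_30 g__wQ_26_wN_1_rb803308x15_31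

theorem g__wQ_26_wN_1_rb803308x15_44 : GoodKC AS k_wQ_26_wN_1_rb803308x15_44 := p_wQ_26_wN_1_rb803308x15_44

theorem g__wQ_26_wN_1_rb803308x15_43 : GoodKC AS k_wQ_26_wN_1_rb803308x15_43 := p_wQ_26_wN_1_rb803308x15_43 g__wQ_26_wN_1_rb803308x15_44

theorem g__wQ_26_wN_1_rb803308x15_47 : GoodKC AS k_wQ_26_wN_1_rb803308x15_47 := p_wQ_26_wN_1_rb803308x15_47

theorem g__wQ_26_wN_1_rb803308x15_50 : GoodKC AS k_wQ_26_wN_1_rb803308x15_50 := p_wQ_26_wN_1_rb803308x15_50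

theorem g__wQ_26_wN_1_rb803308x15_49 : GoodKC AS k_wQ_26_wN_1_rb803308x15_49 := p_wQ_26_wN_1_rb803308x15_49 g__wQ_26_wN_1_rb803308x15_50

theorem g__wQ_26_wN_1_rb803308x15_51 : GoodKC AS k_wQ_26_wN_1_rb803308x15_51 := p_wQ_26_wN_1_rb803308x15_51

theorem g__wQ_26_wN_1_rb803308x15_48 : GoodKC AS k_wQ_26_wN_1_rb803308x15_48 := p_wQ_26_wN_1_rb803308x15_48 g__wQ_26_wN_1_rb803308x15_49 g__wQ_26_wN_1_rb803308x15_51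

theorem g__wQ_26_wN_1_rb803308x15_55 : GoodKC AS k_wQ_26_wN_1_rb803308x15_55 := p_wQ_26_wN_1_rb803308x15_55

theorem g__wQ_26_wN_1_rb803308x15_54 : GoodKC AS k_wQ_26_wN_1_rb803308x15_54 := p_wQ_26_wN_1_rb803308x15_54 g__wQ_26_wN_1_rb803308x15_55

theorem g__wQ_26_wN_1_rb803308x15_53 : GoodKC AS k_wQ_26_wN_1_rb803308x15_53 := p_wQ_26_wN_1_rb803308x15_53 g__wQ_26_wN_1_rb803308x15_54

theorem g__wQ_26_wN_1_rb803308x15_52 : GoodKC AS k_wQ_26_wN_1_rb803308x15_52 := p_wQ_26_wN_1_rb803308x15_52 g__wQ_26_wN_1_rb803308x15_53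

theorem g__wQ_26_wN_1_rb803308x15_46 : GoodKC AS k_wQ_26_wN_1_rb803308x15_46 := p_wQ_26_wN_1_rb803308x15_46 g__wQ_26_wN_1_rb803308x15_47 g__wQ_26_wN_1_rb803308x15_48 g__wQ_26_wN_1_rb803308x15_52

theorem g__wQ_26_wN_1_rb803308x15_45 : GoodKC AS k_wQ_26_wN_1_rb803308x15_45 := p_wQ_26_wN_1_rb803308x15_45 g__wQ_26_wN_1_rb803308x15_46

theorem g__wQ_26_wN_1_rb803308x15_42 : GoodKC AS k_wQ_26_wN_1_rb803308x15_42 := p_wQ_26_wN_1_rb803308x15_42 g__wQ_26_wN_1_rb803308x15_43 g__wQ_26_wN_1_rb803308x15_45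

theorem g__wQ_26_wN_1_rb803308x15_41 : GoodKC AS k_wQ_26_wN_1_rb803308x15_41 := p_wQ_26_wN_1_rb803308x15_41 g__wQ_26_wN_1_rb803308x15_42

theorem g__wQ_26_wN_1_rb803308x15_60 : GoodKC AS k_wQ_26_wN_1_rb803308x15_60 := p_wQ_26_wN_1_rb803308x15_60

theorem g__wQ_26_wN_1_rb803308x15_59 : GoodKC AS k_wQ_26_wN_1_rb803308x15_59 := p_wQ_26_wN_1_rb803308x15_59 g__wQ_26_wN_1_rb803308x15_60

theorem g__wQ_26_wN_1_rb803308x15_58 : GoodKC AS k_wQ_26_wN_1_rb803308x15_58 := p_wQ_26_wN_1_rb803308x15_58 g__wQ_26_wN_1_rb803308x15_59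

theorem g__wQ_26_wN_1_rb803308x15_57 : GoodKC AS k_wQ_26_wN_1_rb803308x15_57 := p_wQ_26_wN_1_rb803308x15_57 g__wQ_26_wN_1_rb803308x15_58

theorem g__wQ_26_wN_1_rb803308x15_56 : GoodKC AS k_wQ_26_wN_1_rb803308x15_56 := p_wQ_26_wN_1_rb803308x15_56 g__wQ_26_wN_1_rb803308x15_57

theorem g__wQ_26_wN_1_rb80330800v5_2 : GoodKC AS k_wQ_26_wN_1_rb80330800v5_2 := p_wQ_26_wN_1_rb80330800v5_2

theorem g__wQ_26_wN_1_rb80330800v5_4 : GoodKC AS k_wQ_26_wN_1_rb80330800v5_4 := p_wQ_26_wN_1_rb80330800v5_4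

theorem g__wQ_26_wN_1_rb80330800v5_3 : GoodKC AS k_wQ_26_wN_1_rb80330800v5_3 := p_wQ_26_wN_1_rb80330800v5_3 g__wQ_26_wN_1_rb80330800v5_4

theorem g__wQ_26_wN_1_rb80330800v5_1 : GoodKC AS k_wQ_26_wN_1_rb80330800v5_1 := p_wQ_26_wN_1_rb80330800v5_1 g__wQ_26_wN_1_rb80330800v5_2 g__wQ_26_wN_1_rb80330800v5_3

theorem g__wQ_26_wN_1_rb80330800v5_0 : GoodKC AS k_wQ_26_wN_1_rb80330800v5_0 := p_wQ_26_wN_1_rb80330800v5_0 g__wQ_26_wN_1_rb80330800v5_1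

theorem g_wQ_26_wN_1_rb80330800x15 : GoodKC AS c_wQ_26_wN_1_rb80330800x15 := p_wQ_26_wN_1_rb80330800x5 g__wQ_26_wN_1_rb80330800v5_0

theorem g__wQ_26_wN_1_rb803308x15_5 : GoodKC AS k_wQ_26_wN_1_rb803308x15_5 := p_wQ_26_wN_1_rb803308x15_5 g__wQ_26_wN_1_rb803308x15_6 g__wQ_26_wN_1_rb803308x15_19 g__wQ_26_wN_1_rb803308x15_21 g__wQ_26_wN_1_rb803308x15_41 g__wQ_26_wN_1_rb803308x15_56 g_wQ_26_wN_1_rb80330800x15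

theorem g__wQ_26_wN_1_rb80330801x4_3 : GoodKC AS k_wQ_26_wN_1_rb80330801x4_3 := p_wQ_26_wN_1_rb80330801x4_3

theorem g__wQ_26_wN_1_rb80330801x4_5 : GoodKC AS k_wQ_26_wN_1_rb80330801x4_5 := p_wQ_26_wN_1_rb80330801x4_5

theorem g__wQ_26_wN_1_rb80330801x4_7 : GoodKC AS k_wQ_26_wN_1_rb80330801x4_7 := p_wQ_26_wN_1_rb80330801x4_7

theorem g__wQ_26_wN_1_rb80330801x4_6 : GoodKC AS k_wQ_26_wN_1_rb80330801x4_6 := p_wQ_26_wN_1_rb80330801x4_6 g__wQ_26_wN_1_rb80330801x4_7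

theorem g__wQ_26_wN_1_rb80330801x4_4 : GoodKC AS k_wQ_26_wN_1_rb80330801x4_4 := p_wQ_26_wN_1_rb80330801x4_4 g__wQ_26_wN_1_rb80330801x4_5 g__wQ_26_wN_1_rb80330801x4_6

theorem g__wQ_26_wN_1_rb80330801x4_9 : GoodKC AS k_wQ_26_wN_1_rb80330801x4_9 := p_wQ_26_wN_1_rb80330801x4_9

theorem g__wQ_26_wN_1_rb80330801x4_8 : GoodKC AS k_wQ_26_wN_1_rb80330801x4_8 := p_wQ_26_wN_1_rb80330801x4_8 g__wQ_26_wN_1_rb80330801x4_9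

theorem g__wQ_26_wN_1_rb80330801x4_2 : GoodKC AS k_wQ_26_wN_1_rb80330801x4_2 := p_wQ_26_wN_1_rb80330801x4_2 g__wQ_26_wN_1_rb80330801x4_3 g__wQ_26_wN_1_rb80330801x4_4 g__wQ_26_wN_1_rb80330801x4_8

theorem g__wQ_26_wN_1_rb80330801x4_1 : GoodKC AS k_wQ_26_wN_1_rb80330801x4_1 := p_wQ_26_wN_1_rb80330801x4_1 g__wQ_26_wN_1_rb80330801x4_2

theorem g__wQ_26_wN_1_rb80330801x4_13 : GoodKC AS k_wQ_26_wN_1_rb80330801x4_13 := p_wQ_26_wN_1_rb80330801x4_13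

theorem g__wQ_26_wN_1_rb80330801x4_12 : GoodKC AS k_wQ_26_wN_1_rb80330801x4_12 := p_wQ_26_wN_1_rb80330801x4_12 g__wQ_26_wN_1_rb80330801x4_13

theorem g__wQ_26_wN_1_rb80330801x4_11 : GoodKC AS k_wQ_26_wN_1_rb80330801x4_11 := p_wQ_26_wN_1_rb80330801x4_11 g__wQ_26_wN_1_rb80330801x4_12

theorem g__wQ_26_wN_1_rb80330801x4_14 : GoodKC AS k_wQ_26_wN_1_rb80330801x4_14 := p_wQ_26_wN_1_rb80330801x4_14

theorem g__wQ_26_wN_1_rb80330801x4_10 : GoodKC AS k_wQ_26_wN_1_rb80330801x4_10 := p_wQ_26_wN_1_rb80330801x4_10 g__wQ_26_wN_1_rb80330801x4_11 g__wQ_26_wN_1_rb80330801x4_14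

theorem g__wQ_26_wN_1_rb80330801x4_0 : GoodKC AS k_wQ_26_wN_1_rb80330801x4_0 := p_wQ_26_wN_1_rb80330801x4_0 g__wQ_26_wN_1_rb80330801x4_1 g__wQ_26_wN_1_rb80330801x4_10

theorem g_wQ_26_wN_1_rb80330801x15 : GoodKC AS c_wQ_26_wN_1_rb80330801x15 := p_wQ_26_wN_1_rb80330801x4 g__wQ_26_wN_1_rb80330801x4_0

theorem g_wQ_26_wN_1_rb8033080230x4 : GoodKC AS c_wQ_26_wN_1_rb8033080230x4 := p_wQ_26_wN_1_rb8033080230x3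

theorem g_wQ_26_wN_1_rb803308022fx4 : GoodKC AS c_wQ_26_wN_1_rb803308022fx4 := p_wQ_26_wN_1_rb803308022fx3

theorem g__wQ_26_wN_1_rb803308022ex3_0 : GoodKC AS k_wQ_26_wN_1_rb803308022ex3_0 := p_wQ_26_wN_1_rb803308022ex3_0

theorem g_wQ_26_wN_1_rb803308022ex4 : GoodKC AS c_wQ_26_wN_1_rb803308022ex4 := p_wQ_26_wN_1_rb803308022ex3 g__wQ_26_wN_1_rb803308022ex3_0

theorem g__wQ_26_wN_1_rb803308022dx3_0 : GoodKC AS k_wQ_26_wN_1_rb803308022dx3_0 := p_wQ_26_wN_1_rb803308022dx3_0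

theorem g_wQ_26_wN_1_rb803308022dx4 : GoodKC AS c_wQ_26_wN_1_rb803308022dx4 := p_wQ_26_wN_1_rb803308022dx3 g__wQ_26_wN_1_rb803308022dx3_0

theorem g_wQ_26_wN_1_rb803308022cx4 : GoodKC AS c_wQ_26_wN_1_rb803308022cx4 := p_wQ_26_wN_1_rb803308022cx3

theorem g__wQ_26_wN_1_rb80330802x4_12 : GoodKC AS k_wQ_26_wN_1_rb80330802x4_12 := p_wQ_26_wN_1_rb80330802x4_12

theorem g__wQ_26_wN_1_rb80330802x4_11 : GoodKC AS k_wQ_26_wN_1_rb80330802x4_11 := p_wQ_26_wN_1_rb80330802x4_11 g__wQ_26_wN_1_rb80330802x4_12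

theorem g__wQ_26_wN_1_rb80330802x4_10 : GoodKC AS k_wQ_26_wN_1_rb80330802x4_10 := p_wQ_26_wN_1_rb80330802x4_10 g__wQ_26_wN_1_rb80330802x4_11

theorem g__wQ_26_wN_1_rb80330802x4_9 : GoodKC AS k_wQ_26_wN_1_rb80330802x4_9 := p_wQ_26_wN_1_rb80330802x4_9 g__wQ_26_wN_1_rb80330802x4_10

theorem g__wQ_26_wN_1_rb80330802x4_17 : GoodKC AS k_wQ_26_wN_1_rb80330802x4_17 := p_wQ_26_wN_1_rb80330802x4_17

theorem g__wQ_26_wN_1_rb80330802x4_16 : GoodKC AS k_wQ_26_wN_1_rb80330802x4_16 := p_wQ_26_wN_1_rb80330802x4_16 g__wQ_26_wN_1_rb80330802x4_17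

theorem g__wQ_26_wN_1_rb80330802x4_19 : GoodKC AS k_wQ_26_wN_1_rb80330802x4_19 := p_wQ_26_wN_1_rb80330802x4_19

theorem g__wQ_26_wN_1_rb80330802x4_18 : GoodKC AS k_wQ_26_wN_1_rb80330802x4_18 := p_wQ_26_wN_1_rb80330802x4_18 g__wQ_26_wN_1_rb80330802x4_19

theorem g__wQ_26_wN_1_rb80330802x4_15 : GoodKC AS k_wQ_26_wN_1_rb80330802x4_15 := p_wQ_26_wN_1_rb80330802x4_15 g__wQ_26_wN_1_rb80330802x4_16 g__wQ_26_wN_1_rb80330802x4_18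

theorem g__wQ_26_wN_1_rb80330802x4_14 : GoodKC AS k_wQ_26_wN_1_rb80330802x4_14 := p_wQ_26_wN_1_rb80330802x4_14 g__wQ_26_wN_1_rb80330802x4_15

theorem g__wQ_26_wN_1_rb80330802x4_13 : GoodKC AS k_wQ_26_wN_1_rb80330802x4_13 := p_wQ_26_wN_1_rb80330802x4_13 g__wQ_26_wN_1_rb80330802x4_14

theorem g__wQ_26_wN_1_rb80330802x4_8 : GoodKC AS k_wQ_26_wN_1_rb80330802x4_8 := p_wQ_26_wN_1_rb80330802x4_8 g__wQ_26_wN_1_rb80330802x4_9 g__wQ_26_wN_1_rb80330802x4_13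

theorem g__wQ_26_wN_1_rb80330802x4_7 : GoodKC AS k_wQ_26_wN_1_rb80330802x4_7 := p_wQ_26_wN_1_rb80330802x4_7 g__wQ_26_wN_1_rb80330802x4_8

theorem g__wQ_26_wN_1_rb80330802x4_6 : GoodKC AS k_wQ_26_wN_1_rb80330802x4_6 := p_wQ_26_wN_1_rb80330802x4_6 g__wQ_26_wN_1_rb80330802x4_7

theorem g__wQ_26_wN_1_rb80330802x4_5 : GoodKC AS k_wQ_26_wN_1_rb80330802x4_5 := p_wQ_26_wN_1_rb80330802x4_5 g__wQ_26_wN_1_rb80330802x4_6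

theorem g__wQ_26_wN_1_rb80330802x4_4 : GoodKC AS k_wQ_26_wN_1_rb80330802x4_4 := p_wQ_26_wN_1_rb80330802x4_4 g__wQ_26_wN_1_rb80330802x4_5

theorem g__wQ_26_wN_1_rb80330802x4_3 : GoodKC AS k_wQ_26_wN_1_rb80330802x4_3 := p_wQ_26_wN_1_rb80330802x4_3 g__wQ_26_wN_1_rb80330802x4_4

theorem g__wQ_26_wN_1_rb80330802x4_2 : GoodKC AS k_wQ_26_wN_1_rb80330802x4_2 := p_wQ_26_wN_1_rb80330802x4_2 g__wQ_26_wN_1_rb80330802x4_3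

theorem g__wQ_26_wN_1_rb80330802x4_22 : GoodKC AS k_wQ_26_wN_1_rb80330802x4_22 := p_wQ_26_wN_1_rb80330802x4_22

theorem g__wQ_26_wN_1_rb80330802x4_23 : GoodKC AS k_wQ_26_wN_1_rb80330802x4_23 := p_wQ_26_wN_1_rb80330802x4_23

theorem g__wQ_26_wN_1_rb80330802x4_24 : GoodKC AS k_wQ_26_wN_1_rb80330802x4_24 := p_wQ_26_wN_1_rb80330802x4_24

theorem g__wQ_26_wN_1_rb80330802x4_21 : GoodKC AS k_wQ_26_wN_1_rb80330802x4_21 := p_wQ_26_wN_1_rb80330802x4_21 g__wQ_26_wN_1_rb80330802x4_22 g__wQ_26_wN_1_rb80330802x4_23 g__wQ_26_wN_1_rb80330802x4_24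

theorem g__wQ_26_wN_1_rb80330802x4_20 : GoodKC AS k_wQ_26_wN_1_rb80330802x4_20 := p_wQ_26_wN_1_rb80330802x4_20 g__wQ_26_wN_1_rb80330802x4_21

theorem g__wQ_26_wN_1_rb80330802x4_1 : GoodKC AS k_wQ_26_wN_1_rb80330802x4_1 := p_wQ_26_wN_1_rb80330802x4_1 g__wQ_26_wN_1_rb80330802x4_2 g__wQ_26_wN_1_rb80330802x4_20

theorem g__wQ_26_wN_1_rb80330802x4_27 : GoodKC AS k_wQ_26_wN_1_rb80330802x4_27 := p_wQ_26_wN_1_rb80330802x4_27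

theorem g__wQ_26_wN_1_rb80330802x4_26 : GoodKC AS k_wQ_26_wN_1_rb80330802x4_26 := p_wQ_26_wN_1_rb80330802x4_26 g__wQ_26_wN_1_rb80330802x4_27

theorem g__wQ_26_wN_1_rb80330802x4_28 : GoodKC AS k_wQ_26_wN_1_rb80330802x4_28 := p_wQ_26_wN_1_rb80330802x4_28

theorem g__wQ_26_wN_1_rb80330802x4_29 : GoodKC AS k_wQ_26_wN_1_rb80330802x4_29 := p_wQ_26_wN_1_rb80330802x4_29

theorem g__wQ_26_wN_1_rb80330802x4_25 : GoodKC AS k_wQ_26_wN_1_rb80330802x4_25 := p_wQ_26_wN_1_rb80330802x4_25 g__wQ_26_wN_1_rb80330802x4_26 g__wQ_26_wN_1_rb80330802x4_28 g__wQ_26_wN_1_rb80330802x4_29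

theorem g__wQ_26_wN_1_rb80330802x4_0 : GoodKC AS k_wQ_26_wN_1_rb80330802x4_0 := p_wQ_26_wN_1_rb80330802x4_0 g__wQ_26_wN_1_rb80330802x4_1 g__wQ_26_wN_1_rb80330802x4_25

theorem g_wQ_26_wN_1_rb803308022bx4 : GoodKC AS c_wQ_26_wN_1_rb803308022bx4 := p_wQ_26_wN_1_rb803308022bx3

theorem g_wQ_26_wN_1_rb803308022ax4 : GoodKC AS c_wQ_26_wN_1_rb803308022ax4 := p_wQ_26_wN_1_rb803308022ax3

theorem g_wQ_26_wN_1_rb8033080228x4 : GoodKC AS c_wQ_26_wN_1_rb8033080228x4 := p_wQ_26_wN_1_rb8033080228x3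

theorem g_wQ_26_wN_1_rb8033080227x4 : GoodKC AS c_wQ_26_wN_1_rb8033080227x4 := p_wQ_26_wN_1_rb8033080227x3

theorem g__wQ_26_wN_1_rb8033080225x3_1 : GoodKC AS k_wQ_26_wN_1_rb8033080225x3_1 := p_wQ_26_wN_1_rb8033080225x3_1

theorem g__wQ_26_wN_1_rb8033080225x3_0 : GoodKC AS k_wQ_26_wN_1_rb8033080225x3_0 := p_wQ_26_wN_1_rb8033080225x3_0 g__wQ_26_wN_1_rb8033080225x3_1

theorem g__wQ_26_wN_1_rb8033080225x3_5 : GoodKC AS k_wQ_26_wN_1_rb8033080225x3_5 := p_wQ_26_wN_1_rb8033080225x3_5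

theorem g__wQ_26_wN_1_rb8033080225x3_4 : GoodKC AS k_wQ_26_wN_1_rb8033080225x3_4 := p_wQ_26_wN_1_rb8033080225x3_4 g__wQ_26_wN_1_rb8033080225x3_5

theorem g__wQ_26_wN_1_rb8033080225x3_3 : GoodKC AS k_wQ_26_wN_1_rb8033080225x3_3 := p_wQ_26_wN_1_rb8033080225x3_3 g__wQ_26_wN_1_rb8033080225x3_4

theorem g__wQ_26_wN_1_rb8033080225x3_2 : GoodKC AS k_wQ_26_wN_1_rb8033080225x3_2 := p_wQ_26_wN_1_rb8033080225x3_2 g__wQ_26_wN_1_rb8033080225x3_3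

theorem g_wQ_26_wN_1_rb8033080225x4 : GoodKC AS c_wQ_26_wN_1_rb8033080225x4 := p_wQ_26_wN_1_rb8033080225x3 g__wQ_26_wN_1_rb8033080225x3_0 g__wQ_26_wN_1_rb8033080225x3_2

theorem g__wQ_26_wN_1_rb8033080222x3_1 : GoodKC AS k_wQ_26_wN_1_rb8033080222x3_1 := p_wQ_26_wN_1_rb8033080222x3_1

theorem g__wQ_26_wN_1_rb8033080222x3_0 : GoodKC AS k_wQ_26_wN_1_rb8033080222x3_0 := p_wQ_26_wN_1_rb8033080222x3_0 g__wQ_26_wN_1_rb8033080222x3_1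

theorem g_wQ_26_wN_1_rb8033080222x4 : GoodKC AS c_wQ_26_wN_1_rb8033080222x4 := p_wQ_26_wN_1_rb8033080222x3 g__wQ_26_wN_1_rb8033080222x3_0

theorem g_wQ_26_wN_1_rb8033080221x4 : GoodKC AS c_wQ_26_wN_1_rb8033080221x4 := p_wQ_26_wN_1_rb8033080221x3

theorem g_wQ_26_wN_1_rb8033080220x4 : GoodKC AS c_wQ_26_wN_1_rb8033080220x4 := p_wQ_26_wN_1_rb8033080220x3

theorem g_wQ_26_wN_1_rb803308021fx4 : GoodKC AS c_wQ_26_wN_1_rb803308021fx4 := p_wQ_26_wN_1_rb803308021fx3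

theorem g_wQ_26_wN_1_rb803308021dx4 : GoodKC AS c_wQ_26_wN_1_rb803308021dx4 := p_wQ_26_wN_1_rb803308021dx3

theorem g_wQ_26_wN_1_rb803308021ax4 : GoodKC AS c_wQ_26_wN_1_rb803308021ax4 := p_wQ_26_wN_1_rb803308021ax3

theorem g_wQ_26_wN_1_rb8033080219x4 : GoodKC AS c_wQ_26_wN_1_rb8033080219x4 := p_wQ_26_wN_1_rb8033080219x3

theorem g_wQ_26_wN_1_rb8033080217x4 : GoodKC AS c_wQ_26_wN_1_rb8033080217x4 := p_wQ_26_wN_1_rb8033080217x3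

theorem g_wQ_26_wN_1_rb8033080216x4 : GoodKC AS c_wQ_26_wN_1_rb8033080216x4 := p_wQ_26_wN_1_rb8033080216x3

theorem g_wQ_26_wN_1_rb8033080215x4 : GoodKC AS c_wQ_26_wN_1_rb8033080215x4 := p_wQ_26_wN_1_rb8033080215x3

theorem g_wQ_26_wN_1_rb8033080213x4 : GoodKC AS c_wQ_26_wN_1_rb8033080213x4 := p_wQ_26_wN_1_rb8033080213x3

theorem g_wQ_26_wN_1_rb8033080212x4 : GoodKC AS c_wQ_26_wN_1_rb8033080212x4 := p_wQ_26_wN_1_rb8033080212x3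

theorem g_wQ_26_wN_1_rb8033080211x4 : GoodKC AS c_wQ_26_wN_1_rb8033080211x4 := p_wQ_26_wN_1_rb8033080211x3

theorem g_wQ_26_wN_1_rb8033080210x4 : GoodKC AS c_wQ_26_wN_1_rb8033080210x4 := p_wQ_26_wN_1_rb8033080210x3

theorem g_wQ_26_wN_1_rb803308020fx4 : GoodKC AS c_wQ_26_wN_1_rb803308020fx4 := p_wQ_26_wN_1_rb803308020fx3

theorem g_wQ_26_wN_1_rb803308020ex4 : GoodKC AS c_wQ_26_wN_1_rb803308020ex4 := p_wQ_26_wN_1_rb803308020ex3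

theorem g_wQ_26_wN_1_rb803308020dx4 : GoodKC AS c_wQ_26_wN_1_rb803308020dx4 := p_wQ_26_wN_1_rb803308020dx3

theorem g_wQ_26_wN_1_rb803308020cx4 : GoodKC AS c_wQ_26_wN_1_rb803308020cx4 := p_wQ_26_wN_1_rb803308020cx3

theorem g_wQ_26_wN_1_rb8033080209x4 : GoodKC AS c_wQ_26_wN_1_rb8033080209x4 := p_wQ_26_wN_1_rb8033080209x3

theorem g_wQ_26_wN_1_rb8033080208x4 : GoodKC AS c_wQ_26_wN_1_rb8033080208x4 := p_wQ_26_wN_1_rb8033080208x4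

theorem g_wQ_26_wN_1_rb8033080207x4 : GoodKC AS c_wQ_26_wN_1_rb8033080207x4 := p_wQ_26_wN_1_rb8033080207x4

theorem g_wQ_26_wN_1_rb8033080206x4 : GoodKC AS c_wQ_26_wN_1_rb8033080206x4 := p_wQ_26_wN_1_rb8033080206x4

theorem g_wQ_26_wN_1_rb8033080202x4 : GoodKC AS c_wQ_26_wN_1_rb8033080202x4 := p_wQ_26_wN_1_rb8033080202x3

theorem g_wQ_26_wN_1_rb8033080201x4 : GoodKC AS c_wQ_26_wN_1_rb8033080201x4 := p_wQ_26_wN_1_rb8033080201x4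

theorem g__wQ_26_wN_1_rb8033080200v3_0 : GoodKC AS k_wQ_26_wN_1_rb8033080200v3_0 := p_wQ_26_wN_1_rb8033080200v3_0

theorem g_wQ_26_wN_1_rb8033080200x4 : GoodKC AS c_wQ_26_wN_1_rb8033080200x4 := p_wQ_26_wN_1_rb8033080200x3 g__wQ_26_wN_1_rb8033080200v3_0

theorem g_wQ_26_wN_1_rb8033080203x4 : GoodKC AS c_wQ_26_wN_1_rb8033080203x4 := p_wQ_26_wN_1_rb8033080203x4

theorem g__wQ_26_wN_1_rb80330802x4_31 : GoodKC AS k_wQ_26_wN_1_rb80330802x4_31 := p_wQ_26_wN_1_rb80330802x4_31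

theorem g__wQ_26_wN_1_rb80330802x4_30 : GoodKC AS k_wQ_26_wN_1_rb80330802x4_30 := p_wQ_26_wN_1_rb80330802x4_30 g__wQ_26_wN_1_rb80330802x4_31

theorem g__wQ_26_wN_1_rb80330802x4_32 : GoodKC AS k_wQ_26_wN_1_rb80330802x4_32 := p_wQ_26_wN_1_rb80330802x4_32

theorem g_wQ_26_wN_1_rb8033080204x4 : GoodKC AS c_wQ_26_wN_1_rb8033080204x4 := p_wQ_26_wN_1_rb8033080204x4

theorem g_wQ_26_wN_1_rb8033080205x4 : GoodKC AS c_wQ_26_wN_1_rb8033080205x4 := p_wQ_26_wN_1_rb8033080205x4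

theorem g_wQ_26_wN_1_rb803308020ax4 : GoodKC AS c_wQ_26_wN_1_rb803308020ax4 := p_wQ_26_wN_1_rb803308020ax3

theorem g_wQ_26_wN_1_rb803308020bx4 : GoodKC AS c_wQ_26_wN_1_rb803308020bx4 := p_wQ_26_wN_1_rb803308020bx3

theorem g__wQ_26_wN_1_rb80330802x4_35 : GoodKC AS k_wQ_26_wN_1_rb80330802x4_35 := p_wQ_26_wN_1_rb80330802x4_35

theorem g__wQ_26_wN_1_rb80330802x4_34 : GoodKC AS k_wQ_26_wN_1_rb80330802x4_34 := p_wQ_26_wN_1_rb80330802x4_34 g__wQ_26_wN_1_rb80330802x4_35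

theorem g__wQ_26_wN_1_rb80330802x4_36 : GoodKC AS k_wQ_26_wN_1_rb80330802x4_36 := p_wQ_26_wN_1_rb80330802x4_36

theorem g__wQ_26_wN_1_rb80330802x4_33 : GoodKC AS k_wQ_26_wN_1_rb80330802x4_33 := p_wQ_26_wN_1_rb80330802x4_33 g__wQ_26_wN_1_rb80330802x4_34 g__wQ_26_wN_1_rb80330802x4_36

theorem g_wQ_26_wN_1_rb8033080214x4 : GoodKC AS c_wQ_26_wN_1_rb8033080214x4 := p_wQ_26_wN_1_rb8033080214x3

theorem g_wQ_26_wN_1_rb8033080218x4 : GoodKC AS c_wQ_26_wN_1_rb8033080218x4 := p_wQ_26_wN_1_rb8033080218x3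

theorem g__wQ_26_wN_1_rb803308021bx3_1 : GoodKC AS k_wQ_26_wN_1_rb803308021bx3_1 := p_wQ_26_wN_1_rb803308021bx3_1

theorem g__wQ_26_wN_1_rb803308021bx3_0 : GoodKC AS k_wQ_26_wN_1_rb803308021bx3_0 := p_wQ_26_wN_1_rb803308021bx3_0 g__wQ_26_wN_1_rb803308021bx3_1

theorem g_wQ_26_wN_1_rb803308021bx4 : GoodKC AS c_wQ_26_wN_1_rb803308021bx4 := p_wQ_26_wN_1_rb803308021bx3 g__wQ_26_wN_1_rb803308021bx3_0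

theorem g_wQ_26_wN_1_rb803308021cx4 : GoodKC AS c_wQ_26_wN_1_rb803308021cx4 := p_wQ_26_wN_1_rb803308021cx3

theorem g__wQ_26_wN_1_rb803308021ex3_3 : GoodKC AS k_wQ_26_wN_1_rb803308021ex3_3 := p_wQ_26_wN_1_rb803308021ex3_3

theorem g__wQ_26_wN_1_rb803308021ex3_2 : GoodKC AS k_wQ_26_wN_1_rb803308021ex3_2 := p_wQ_26_wN_1_rb803308021ex3_2 g__wQ_26_wN_1_rb803308021ex3_3

theorem g__wQ_26_wN_1_rb803308021ex3_1 : GoodKC AS k_wQ_26_wN_1_rb803308021ex3_1 := p_wQ_26_wN_1_rb803308021ex3_1 g__wQ_26_wN_1_rb803308021ex3_2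

theorem g__wQ_26_wN_1_rb803308021ex3_0 : GoodKC AS k_wQ_26_wN_1_rb803308021ex3_0 := p_wQ_26_wN_1_rb803308021ex3_0 g__wQ_26_wN_1_rb803308021ex3_1

theorem g_wQ_26_wN_1_rb803308021ex4 : GoodKC AS c_wQ_26_wN_1_rb803308021ex4 := p_wQ_26_wN_1_rb803308021ex3 g__wQ_26_wN_1_rb803308021ex3_0

theorem g_wQ_26_wN_1_rb8033080223x4 : GoodKC AS c_wQ_26_wN_1_rb8033080223x4 := p_wQ_26_wN_1_rb8033080223x3

theorem g_wQ_26_wN_1_rb8033080224x4 : GoodKC AS c_wQ_26_wN_1_rb8033080224x4 := p_wQ_26_wN_1_rb8033080224x3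

theorem g__wQ_26_wN_1_rb8033080226x3_1 : GoodKC AS k_wQ_26_wN_1_rb8033080226x3_1 := p_wQ_26_wN_1_rb8033080226x3_1

theorem g__wQ_26_wN_1_rb8033080226x3_0 : GoodKC AS k_wQ_26_wN_1_rb8033080226x3_0 := p_wQ_26_wN_1_rb8033080226x3_0 g__wQ_26_wN_1_rb8033080226x3_1

theorem g__wQ_26_wN_1_rb8033080226x3_3 : GoodKC AS k_wQ_26_wN_1_rb8033080226x3_3 := p_wQ_26_wN_1_rb8033080226x3_3

theorem g__wQ_26_wN_1_rb8033080226x3_4 : GoodKC AS k_wQ_26_wN_1_rb8033080226x3_4 := p_wQ_26_wN_1_rb8033080226x3_4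

theorem g__wQ_26_wN_1_rb8033080226x3_2 : GoodKC AS k_wQ_26_wN_1_rb8033080226x3_2 := p_wQ_26_wN_1_rb8033080226x3_2 g__wQ_26_wN_1_rb8033080226x3_3 g__wQ_26_wN_1_rb8033080226x3_4

theorem g_wQ_26_wN_1_rb8033080226x4 : GoodKC AS c_wQ_26_wN_1_rb8033080226x4 := p_wQ_26_wN_1_rb8033080226x3 g__wQ_26_wN_1_rb8033080226x3_0 g__wQ_26_wN_1_rb8033080226x3_2

theorem g_wQ_26_wN_1_rb8033080229x4 : GoodKC AS c_wQ_26_wN_1_rb8033080229x4 := p_wQ_26_wN_1_rb8033080229x3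

theorem g_wQ_26_wN_1_rb8033080231x4 : GoodKC AS c_wQ_26_wN_1_rb8033080231x4 := p_wQ_26_wN_1_rb8033080231x3

theorem g_wQ_26_wN_1_rb803308023236x2 : GoodKC AS c_wQ_26_wN_1_rb803308023236x2 := p_wQ_26_wN_1_rb803308023236x2

theorem g_wQ_26_wN_1_rb803308023233x2 : GoodKC AS c_wQ_26_wN_1_rb803308023233x2 := p_wQ_26_wN_1_rb803308023233x2

theorem g_wQ_26_wN_1_rb803308023232x2 : GoodKC AS c_wQ_26_wN_1_rb803308023232x2 := p_wQ_26_wN_1_rb803308023232x2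

theorem g_wQ_26_wN_1_rb803308023230x2 : GoodKC AS c_wQ_26_wN_1_rb803308023230x2 := p_wQ_26_wN_1_rb803308023230x2

theorem g_wQ_26_wN_1_rb80330802322fx2 : GoodKC AS c_wQ_26_wN_1_rb80330802322fx2 := p_wQ_26_wN_1_rb80330802322fx2

theorem g_wQ_26_wN_1_rb80330802322ex2 : GoodKC AS c_wQ_26_wN_1_rb80330802322ex2 := p_wQ_26_wN_1_rb80330802322ex2

theorem g_wQ_26_wN_1_rb80330802322dx2 : GoodKC AS c_wQ_26_wN_1_rb80330802322dx2 := p_wQ_26_wN_1_rb80330802322dx2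

theorem g_wQ_26_wN_1_rb80330802322cx2 : GoodKC AS c_wQ_26_wN_1_rb80330802322cx2 := p_wQ_26_wN_1_rb80330802322cx2

theorem g_wQ_26_wN_1_rb80330802322ax2 : GoodKC AS c_wQ_26_wN_1_rb80330802322ax2 := p_wQ_26_wN_1_rb80330802322ax2

theorem g_wQ_26_wN_1_rb803308023229x2 : GoodKC AS c_wQ_26_wN_1_rb803308023229x2 := p_wQ_26_wN_1_rb803308023229x2

theorem g_wQ_26_wN_1_rb803308023228x2 : GoodKC AS c_wQ_26_wN_1_rb803308023228x2 := p_wQ_26_wN_1_rb803308023228x2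

theorem g_wQ_26_wN_1_rb803308023227x2 : GoodKC AS c_wQ_26_wN_1_rb803308023227x2 := p_wQ_26_wN_1_rb803308023227x2

theorem g_wQ_26_wN_1_rb803308023224x2 : GoodKC AS c_wQ_26_wN_1_rb803308023224x2 := p_wQ_26_wN_1_rb803308023224x2

theorem g__wQ_26_wN_1_rb803308023223x2_0 : GoodKC AS k_wQ_26_wN_1_rb803308023223x2_0 := p_wQ_26_wN_1_rb803308023223x2_0

theorem g_wQ_26_wN_1_rb803308023223x2 : GoodKC AS c_wQ_26_wN_1_rb803308023223x2 := p_wQ_26_wN_1_rb803308023223x2 g__wQ_26_wN_1_rb803308023223x2_0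

theorem g_wQ_26_wN_1_rb803308023222x2 : GoodKC AS c_wQ_26_wN_1_rb803308023222x2 := p_wQ_26_wN_1_rb803308023222x2

theorem g_wQ_26_wN_1_rb803308023221x2 : GoodKC AS c_wQ_26_wN_1_rb803308023221x2 := p_wQ_26_wN_1_rb803308023221x2

theorem g_wQ_26_wN_1_rb803308023220x2 : GoodKC AS c_wQ_26_wN_1_rb803308023220x2 := p_wQ_26_wN_1_rb803308023220x2

theorem g_wQ_26_wN_1_rb80330802321fx2 : GoodKC AS c_wQ_26_wN_1_rb80330802321fx2 := p_wQ_26_wN_1_rb80330802321fx2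

theorem g_wQ_26_wN_1_rb80330802321ex2 : GoodKC AS c_wQ_26_wN_1_rb80330802321ex2 := p_wQ_26_wN_1_rb80330802321ex2

theorem g_wQ_26_wN_1_rb80330802321cx2 : GoodKC AS c_wQ_26_wN_1_rb80330802321cx2 := p_wQ_26_wN_1_rb80330802321cx2

theorem g_wQ_26_wN_1_rb80330802321bx2 : GoodKC AS c_wQ_26_wN_1_rb80330802321bx2 := p_wQ_26_wN_1_rb80330802321bx2

theorem g_wQ_26_wN_1_rb803308023218x2 : GoodKC AS c_wQ_26_wN_1_rb803308023218x2 := p_wQ_26_wN_1_rb803308023218x2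

theorem g_wQ_26_wN_1_rb803308023215x2 : GoodKC AS c_wQ_26_wN_1_rb803308023215x2 := p_wQ_26_wN_1_rb803308023215x2

theorem g_wQ_26_wN_1_rb803308023214x2 : GoodKC AS c_wQ_26_wN_1_rb803308023214x2 := p_wQ_26_wN_1_rb803308023214x2

theorem g_wQ_26_wN_1_rb803308023212x2 : GoodKC AS c_wQ_26_wN_1_rb803308023212x2 := p_wQ_26_wN_1_rb803308023212x2

theorem g_wQ_26_wN_1_rb803308023211x2 : GoodKC AS c_wQ_26_wN_1_rb803308023211x2 := p_wQ_26_wN_1_rb803308023211x2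

theorem g_wQ_26_wN_1_rb80330802320ex2 : GoodKC AS c_wQ_26_wN_1_rb80330802320ex2 := p_wQ_26_wN_1_rb80330802320ex2

theorem g_wQ_26_wN_1_rb80330802320dx2 : GoodKC AS c_wQ_26_wN_1_rb80330802320dx2 := p_wQ_26_wN_1_rb80330802320dx2

theorem g_wQ_26_wN_1_rb80330802320cx2 : GoodKC AS c_wQ_26_wN_1_rb80330802320cx2 := p_wQ_26_wN_1_rb80330802320cx2

theorem g_wQ_26_wN_1_rb80330802320bx2 : GoodKC AS c_wQ_26_wN_1_rb80330802320bx2 := p_wQ_26_wN_1_rb80330802320bx2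

theorem g_wQ_26_wN_1_rb803308023209x2 : GoodKC AS c_wQ_26_wN_1_rb803308023209x2 := p_wQ_26_wN_1_rb803308023209x2

theorem g_wQ_26_wN_1_rb803308023208x2 : GoodKC AS c_wQ_26_wN_1_rb803308023208x2 := p_wQ_26_wN_1_rb803308023208x2

theorem g_wQ_26_wN_1_rb803308023207x2 : GoodKC AS c_wQ_26_wN_1_rb803308023207x2 := p_wQ_26_wN_1_rb803308023207x2

theorem g_wQ_26_wN_1_rb803308023206x2 : GoodKC AS c_wQ_26_wN_1_rb803308023206x2 := p_wQ_26_wN_1_rb803308023206x2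

theorem g_wQ_26_wN_1_rb803308023205x2 : GoodKC AS c_wQ_26_wN_1_rb803308023205x2 := p_wQ_26_wN_1_rb803308023205x2

theorem g_wQ_26_wN_1_rb803308023204x2 : GoodKC AS c_wQ_26_wN_1_rb803308023204x2 := p_wQ_26_wN_1_rb803308023204x2

theorem g_wQ_26_wN_1_rb803308023202x2 : GoodKC AS c_wQ_26_wN_1_rb803308023202x2 := p_wQ_26_wN_1_rb803308023202x2

theorem g__wQ_26_wN_1_rb803308023200v2_1 : GoodKC AS k_wQ_26_wN_1_rb803308023200v2_1 := p_wQ_26_wN_1_rb803308023200v2_1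

theorem g__wQ_26_wN_1_rb803308023200v2_7 : GoodKC AS k_wQ_26_wN_1_rb803308023200v2_7 := p_wQ_26_wN_1_rb803308023200v2_7

theorem g__wQ_26_wN_1_rb803308023200v2_8 : GoodKC AS k_wQ_26_wN_1_rb803308023200v2_8 := p_wQ_26_wN_1_rb803308023200v2_8

theorem g__wQ_26_wN_1_rb803308023200v2_6 : GoodKC AS k_wQ_26_wN_1_rb803308023200v2_6 := p_wQ_26_wN_1_rb803308023200v2_6 g__wQ_26_wN_1_rb803308023200v2_7 g__wQ_26_wN_1_rb803308023200v2_8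

theorem g__wQ_26_wN_1_rb803308023200v2_5 : GoodKC AS k_wQ_26_wN_1_rb803308023200v2_5 := p_wQ_26_wN_1_rb803308023200v2_5 g__wQ_26_wN_1_rb803308023200v2_6

theorem g__wQ_26_wN_1_rb803308023200v2_4 : GoodKC AS k_wQ_26_wN_1_rb803308023200v2_4 := p_wQ_26_wN_1_rb803308023200v2_4 g__wQ_26_wN_1_rb803308023200v2_5

theorem g__wQ_26_wN_1_rb803308023200v2_12 : GoodKC AS k_wQ_26_wN_1_rb803308023200v2_12 := p_wQ_26_wN_1_rb803308023200v2_12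

theorem g__wQ_26_wN_1_rb803308023200v2_11 : GoodKC AS k_wQ_26_wN_1_rb803308023200v2_11 := p_wQ_26_wN_1_rb803308023200v2_11 g__wQ_26_wN_1_rb803308023200v2_12

theorem g__wQ_26_wN_1_rb803308023200v2_10 : GoodKC AS k_wQ_26_wN_1_rb803308023200v2_10 := p_wQ_26_wN_1_rb803308023200v2_10 g__wQ_26_wN_1_rb803308023200v2_11

theorem g__wQ_26_wN_1_rb803308023200v2_13 : GoodKC AS k_wQ_26_wN_1_rb803308023200v2_13 := p_wQ_26_wN_1_rb803308023200v2_13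

theorem g__wQ_26_wN_1_rb803308023200v2_15 : GoodKC AS k_wQ_26_wN_1_rb803308023200v2_15 := p_wQ_26_wN_1_rb803308023200v2_15

theorem g__wQ_26_wN_1_rb803308023200v2_16 : GoodKC AS k_wQ_26_wN_1_rb803308023200v2_16 := p_wQ_26_wN_1_rb803308023200v2_16

theorem g__wQ_26_wN_1_rb803308023200v2_17 : GoodKC AS k_wQ_26_wN_1_rb803308023200v2_17 := p_wQ_26_wN_1_rb803308023200v2_17

theorem g__wQ_26_wN_1_rb803308023200v2_20 : GoodKC AS k_wQ_26_wN_1_rb803308023200v2_20 := p_wQ_26_wN_1_rb803308023200v2_20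

theorem g__wQ_26_wN_1_rb803308023200v2_21 : GoodKC AS k_wQ_26_wN_1_rb803308023200v2_21 := p_wQ_26_wN_1_rb803308023200v2_21

theorem g__wQ_26_wN_1_rb803308023200v2_19 : GoodKC AS k_wQ_26_wN_1_rb803308023200v2_19 := p_wQ_26_wN_1_rb803308023200v2_19 g__wQ_26_wN_1_rb803308023200v2_20 g__wQ_26_wN_1_rb803308023200v2_21

theorem g__wQ_26_wN_1_rb803308023200v2_18 : GoodKC AS k_wQ_26_wN_1_rb803308023200v2_18 := p_wQ_26_wN_1_rb803308023200v2_18 g__wQ_26_wN_1_rb803308023200v2_19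

theorem g__wQ_26_wN_1_rb803308023200v2_14 : GoodKC AS k_wQ_26_wN_1_rb803308023200v2_14 := p_wQ_26_wN_1_rb803308023200v2_14 g__wQ_26_wN_1_rb803308023200v2_15 g__wQ_26_wN_1_rb803308023200v2_16 g__wQ_26_wN_1_rb803308023200v2_17 g__wQ_26_wN_1_rb803308023200v2_18

theorem g__wQ_26_wN_1_rb803308023200v2_9 : GoodKC AS k_wQ_26_wN_1_rb803308023200v2_9 := p_wQ_26_wN_1_rb803308023200v2_9 g__wQ_26_wN_1_rb803308023200v2_10 g__wQ_26_wN_1_rb803308023200v2_13 g__wQ_26_wN_1_rb803308023200v2_14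

theorem g__wQ_26_wN_1_rb803308023200v2_3 : GoodKC AS k_wQ_26_wN_1_rb803308023200v2_3 := p_wQ_26_wN_1_rb803308023200v2_3 g__wQ_26_wN_1_rb803308023200v2_4 g__wQ_26_wN_1_rb803308023200v2_9

theorem g__wQ_26_wN_1_rb803308023200v2_2 : GoodKC AS k_wQ_26_wN_1_rb803308023200v2_2 := p_wQ_26_wN_1_rb803308023200v2_2 g__wQ_26_wN_1_rb803308023200v2_3

theorem g__wQ_26_wN_1_rb803308023200v2_0 : GoodKC AS k_wQ_26_wN_1_rb803308023200v2_0 := p_wQ_26_wN_1_rb803308023200v2_0 g__wQ_26_wN_1_rb803308023200v2_1 g__wQ_26_wN_1_rb803308023200v2_2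

theorem g_wQ_26_wN_1_rb803308023200x2 : GoodKC AS c_wQ_26_wN_1_rb803308023200x2 := p_wQ_26_wN_1_rb803308023200x2 g__wQ_26_wN_1_rb803308023200v2_0

theorem g_wQ_26_wN_1_rb803308023201x2 : GoodKC AS c_wQ_26_wN_1_rb803308023201x2 := p_wQ_26_wN_1_rb803308023201x2

theorem g_wQ_26_wN_1_rb803308023203x2 : GoodKC AS c_wQ_26_wN_1_rb803308023203x2 := p_wQ_26_wN_1_rb803308023203x2

theorem g_wQ_26_wN_1_rb80330802320ax2 : GoodKC AS c_wQ_26_wN_1_rb80330802320ax2 := p_wQ_26_wN_1_rb80330802320ax2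

theorem g_wQ_26_wN_1_rb80330802320fx2 : GoodKC AS c_wQ_26_wN_1_rb80330802320fx2 := p_wQ_26_wN_1_rb80330802320fx2

theorem g_wQ_26_wN_1_rb803308023210x2 : GoodKC AS c_wQ_26_wN_1_rb803308023210x2 := p_wQ_26_wN_1_rb803308023210x2

theorem g_wQ_26_wN_1_rb803308023213x2 : GoodKC AS c_wQ_26_wN_1_rb803308023213x2 := p_wQ_26_wN_1_rb803308023213x2

theorem g_wQ_26_wN_1_rb803308023216x2 : GoodKC AS c_wQ_26_wN_1_rb803308023216x2 := p_wQ_26_wN_1_rb803308023216x2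

theorem g_wQ_26_wN_1_rb803308023217x2 : GoodKC AS c_wQ_26_wN_1_rb803308023217x2 := p_wQ_26_wN_1_rb803308023217x2

theorem g_wQ_26_wN_1_rb803308023219x2 : GoodKC AS c_wQ_26_wN_1_rb803308023219x2 := p_wQ_26_wN_1_rb803308023219x2

theorem g__wQ_26_wN_1_rb80330802321ax2_2 : GoodKC AS k_wQ_26_wN_1_rb80330802321ax2_2 := p_wQ_26_wN_1_rb80330802321ax2_2

theorem g__wQ_26_wN_1_rb80330802321ax2_1 : GoodKC AS k_wQ_26_wN_1_rb80330802321ax2_1 := p_wQ_26_wN_1_rb80330802321ax2_1 g__wQ_26_wN_1_rb80330802321ax2_2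

theorem g__wQ_26_wN_1_rb80330802321ax2_0 : GoodKC AS k_wQ_26_wN_1_rb80330802321ax2_0 := p_wQ_26_wN_1_rb80330802321ax2_0 g__wQ_26_wN_1_rb80330802321ax2_1

theorem g_wQ_26_wN_1_rb80330802321ax2 : GoodKC AS c_wQ_26_wN_1_rb80330802321ax2 := p_wQ_26_wN_1_rb80330802321ax2 g__wQ_26_wN_1_rb80330802321ax2_0

theorem g_wQ_26_wN_1_rb80330802321dx2 : GoodKC AS c_wQ_26_wN_1_rb80330802321dx2 := p_wQ_26_wN_1_rb80330802321dx2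

theorem g_wQ_26_wN_1_rb803308023225x2 : GoodKC AS c_wQ_26_wN_1_rb803308023225x2 := p_wQ_26_wN_1_rb803308023225x2

theorem g_wQ_26_wN_1_rb803308023226x2 : GoodKC AS c_wQ_26_wN_1_rb803308023226x2 := p_wQ_26_wN_1_rb803308023226x2

theorem g_wQ_26_wN_1_rb80330802322bx2 : GoodKC AS c_wQ_26_wN_1_rb80330802322bx2 := p_wQ_26_wN_1_rb80330802322bx2

theorem g__wQ_26_wN_1_rb8033080232x2_3 : GoodKC AS k_wQ_26_wN_1_rb8033080232x2_3 := p_wQ_26_wN_1_rb8033080232x2_3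

theorem g__wQ_26_wN_1_rb8033080232x2_6 : GoodKC AS k_wQ_26_wN_1_rb8033080232x2_6 := p_wQ_26_wN_1_rb8033080232x2_6

theorem g__wQ_26_wN_1_rb8033080232x2_5 : GoodKC AS k_wQ_26_wN_1_rb8033080232x2_5 := p_wQ_26_wN_1_rb8033080232x2_5 g__wQ_26_wN_1_rb8033080232x2_6

theorem g__wQ_26_wN_1_rb8033080232x2_13 : GoodKC AS k_wQ_26_wN_1_rb8033080232x2_13 := p_wQ_26_wN_1_rb8033080232x2_13

theorem g__wQ_26_wN_1_rb8033080232x2_12 : GoodKC AS k_wQ_26_wN_1_rb8033080232x2_12 := p_wQ_26_wN_1_rb8033080232x2_12 g__wQ_26_wN_1_rb8033080232x2_13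

theorem g__wQ_26_wN_1_rb8033080232x2_11 : GoodKC AS k_wQ_26_wN_1_rb8033080232x2_11 := p_wQ_26_wN_1_rb8033080232x2_11 g__wQ_26_wN_1_rb8033080232x2_12

theorem g__wQ_26_wN_1_rb8033080232x2_10 : GoodKC AS k_wQ_26_wN_1_rb8033080232x2_10 := p_wQ_26_wN_1_rb8033080232x2_10 g__wQ_26_wN_1_rb8033080232x2_11

theorem g__wQ_26_wN_1_rb8033080232x2_9 : GoodKC AS k_wQ_26_wN_1_rb8033080232x2_9 := p_wQ_26_wN_1_rb8033080232x2_9 g__wQ_26_wN_1_rb8033080232x2_10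

theorem g__wQ_26_wN_1_rb8033080232x2_8 : GoodKC AS k_wQ_26_wN_1_rb8033080232x2_8 := p_wQ_26_wN_1_rb8033080232x2_8 g__wQ_26_wN_1_rb8033080232x2_9

theorem g__wQ_26_wN_1_rb8033080232x2_14 : GoodKC AS k_wQ_26_wN_1_rb8033080232x2_14 := p_wQ_26_wN_1_rb8033080232x2_14

theorem g__wQ_26_wN_1_rb8033080232x2_16 : GoodKC AS k_wQ_26_wN_1_rb8033080232x2_16 := p_wQ_26_wN_1_rb8033080232x2_16

theorem g__wQ_26_wN_1_rb8033080232x2_15 : GoodKC AS k_wQ_26_wN_1_rb8033080232x2_15 := p_wQ_26_wN_1_rb8033080232x2_15 g__wQ_26_wN_1_rb8033080232x2_16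

theorem g__wQ_26_wN_1_rb8033080232x2_7 : GoodKC AS k_wQ_26_wN_1_rb8033080232x2_7 := p_wQ_26_wN_1_rb8033080232x2_7 g__wQ_26_wN_1_rb8033080232x2_8 g__wQ_26_wN_1_rb8033080232x2_14 g__wQ_26_wN_1_rb8033080232x2_15

theorem g__wQ_26_wN_1_rb8033080232x2_4 : GoodKC AS k_wQ_26_wN_1_rb8033080232x2_4 := p_wQ_26_wN_1_rb8033080232x2_4 g__wQ_26_wN_1_rb8033080232x2_5 g__wQ_26_wN_1_rb8033080232x2_7

theorem g__wQ_26_wN_1_rb8033080232x2_2 : GoodKC AS k_wQ_26_wN_1_rb8033080232x2_2 := p_wQ_26_wN_1_rb8033080232x2_2 g__wQ_26_wN_1_rb8033080232x2_3 g__wQ_26_wN_1_rb8033080232x2_4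

theorem g__wQ_26_wN_1_rb8033080232x2_21 : GoodKC AS k_wQ_26_wN_1_rb8033080232x2_21 := p_wQ_26_wN_1_rb8033080232x2_21

theorem g__wQ_26_wN_1_rb8033080232x2_20 : GoodKC AS k_wQ_26_wN_1_rb8033080232x2_20 := p_wQ_26_wN_1_rb8033080232x2_20 g__wQ_26_wN_1_rb8033080232x2_21

theorem g__wQ_26_wN_1_rb8033080232x2_23 : GoodKC AS k_wQ_26_wN_1_rb8033080232x2_23 := p_wQ_26_wN_1_rb8033080232x2_23

theorem g__wQ_26_wN_1_rb8033080232x2_22 : GoodKC AS k_wQ_26_wN_1_rb8033080232x2_22 := p_wQ_26_wN_1_rb8033080232x2_22 g__wQ_26_wN_1_rb8033080232x2_23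

theorem g__wQ_26_wN_1_rb8033080232x2_19 : GoodKC AS k_wQ_26_wN_1_rb8033080232x2_19 := p_wQ_26_wN_1_rb8033080232x2_19 g__wQ_26_wN_1_rb8033080232x2_20 g__wQ_26_wN_1_rb8033080232x2_22

theorem g__wQ_26_wN_1_rb8033080232x2_18 : GoodKC AS k_wQ_26_wN_1_rb8033080232x2_18 := p_wQ_26_wN_1_rb8033080232x2_18 g__wQ_26_wN_1_rb8033080232x2_19

theorem g__wQ_26_wN_1_rb8033080232x2_17 : GoodKC AS k_wQ_26_wN_1_rb8033080232x2_17 := p_wQ_26_wN_1_rb8033080232x2_17 g__wQ_26_wN_1_rb8033080232x2_18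

theorem g__wQ_26_wN_1_rb8033080232x2_1 : GoodKC AS k_wQ_26_wN_1_rb8033080232x2_1 := p_wQ_26_wN_1_rb8033080232x2_1 g__wQ_26_wN_1_rb8033080232x2_2 g__wQ_26_wN_1_rb8033080232x2_17

theorem g__wQ_26_wN_1_rb8033080232x2_25 : GoodKC AS k_wQ_26_wN_1_rb8033080232x2_25 := p_wQ_26_wN_1_rb8033080232x2_25

theorem g__wQ_26_wN_1_rb8033080232x2_26 : GoodKC AS k_wQ_26_wN_1_rb8033080232x2_26 := p_wQ_26_wN_1_rb8033080232x2_26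

theorem g__wQ_26_wN_1_rb8033080232x2_28 : GoodKC AS k_wQ_26_wN_1_rb8033080232x2_28 := p_wQ_26_wN_1_rb8033080232x2_28

theorem g__wQ_26_wN_1_rb8033080232x2_30 : GoodKC AS k_wQ_26_wN_1_rb8033080232x2_30 := p_wQ_26_wN_1_rb8033080232x2_30

theorem g__wQ_26_wN_1_rb8033080232x2_29 : GoodKC AS k_wQ_26_wN_1_rb8033080232x2_29 := p_wQ_26_wN_1_rb8033080232x2_29 g__wQ_26_wN_1_rb8033080232x2_30

theorem g__wQ_26_wN_1_rb8033080232x2_27 : GoodKC AS k_wQ_26_wN_1_rb8033080232x2_27 := p_wQ_26_wN_1_rb8033080232x2_27 g__wQ_26_wN_1_rb8033080232x2_28 g__wQ_26_wN_1_rb8033080232x2_29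

theorem g__wQ_26_wN_1_rb8033080232x2_24 : GoodKC AS k_wQ_26_wN_1_rb8033080232x2_24 := p_wQ_26_wN_1_rb8033080232x2_24 g__wQ_26_wN_1_rb8033080232x2_25 g__wQ_26_wN_1_rb8033080232x2_26 g__wQ_26_wN_1_rb8033080232x2_27

theorem g__wQ_26_wN_1_rb8033080232x2_0 : GoodKC AS k_wQ_26_wN_1_rb8033080232x2_0 := p_wQ_26_wN_1_rb8033080232x2_0 g__wQ_26_wN_1_rb8033080232x2_1 g__wQ_26_wN_1_rb8033080232x2_24

theorem g_wQ_26_wN_1_rb803308023231x2 : GoodKC AS c_wQ_26_wN_1_rb803308023231x2 := p_wQ_26_wN_1_rb803308023231x2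

theorem g_wQ_26_wN_1_rb803308023234x2 : GoodKC AS c_wQ_26_wN_1_rb803308023234x2 := p_wQ_26_wN_1_rb803308023234x2

theorem g_wQ_26_wN_1_rb803308023235x2 : GoodKC AS c_wQ_26_wN_1_rb803308023235x2 := p_wQ_26_wN_1_rb803308023235x2

theorem g_wQ_26_wN_1_rb8033080232x4 : GoodKC AS c_wQ_26_wN_1_rb8033080232x4 := p_wQ_26_wN_1_rb8033080232x2 g_wQ_26_wN_1_rb803308023236x2 g_wQ_26_wN_1_rb803308023233x2 g_wQ_26_wN_1_rb803308023232x2 g_wQ_26_wN_1_rb803308023230x2 g_wQ_26_wN_1_rb80330802322fx2 g_wQ_26_wN_1_rb80330802322ex2 g_wQ_26_wN_1_rb80330802322dx2 g_wQ_26_wN_1_rb80330802322cx2 g_wQ_26_wN_1_rb80330802322ax2 g_wQ_26_wN_1_rb803308023229x2 g_wQ_26_wN_1_rb803308023228x2 g_wQ_26_wN_1_rb803308023227x2 g_wQ_26_wN_1_rb803308023224x2 g_wQ_26_wN_1_rb803308023223x2 g_wQ_26_wN_1_rb803308023222x2 g_wQ_26_wN_1_rb803308023221x2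 g_wQ_26_wN_1_rb803308023220x2 g_wQ_26_wN_1_rb80330802321fx2 g_wQ_26_wN_1_rb80330802321ex2 g_wQ_26_wN_1_rb80330802321cx2 g_wQ_26_wN_1_rb80330802321bx2 g_wQ_26_wN_1_rb803308023218x2 g_wQ_26_wN_1_rb803308023215x2 g_wQ_26_wN_1_rb803308023214x2 g_wQ_26_wN_1_rb803308023212x2 g_wQ_26_wN_1_rb803308023211x2 g_wQ_26_wN_1_rb80330802320ex2 g_wQ_26_wN_1_rb80330802320dx2 g_wQ_26_wN_1_rb80330802320cx2 g_wQ_26_wN_1_rb80330802320bx2 g_wQ_26_wN_1_rb803308023209x2 g_wQ_26_wN_1_rb803308023208x2 g_wQ_26_wN_1_rb803308023207x2 g_wQ_26_wN_1_rb803308023206x2 g_wQ_26_wN_1_rb803308023205x2 g_wQ_26_wN_1_rb803308023204x2 g_wQ_26_wN_1_rb803308023202x2 g_wQ_26_wN_1_rb803308023200x2 g_wQ_26_wN_1_rb803308023201x2 g_wQ_26_wN_1_rb803308023203x2 g_wQ_26_wN_1_rb80330802320ax2 g_wQ_26_wN_1_rb80330802320fx2 g_wQ_26_wN_1_rb803308023210x2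 g_wQ_26_wN_1_rb803308023213x2 g_wQ_26_wN_1_rb803308023216x2 g_wQ_26_wN_1_rb803308023217x2 g_wQ_26_wN_1_rb803308023219x2 g_wQ_26_wN_1_rb80330802321ax2 g_wQ_26_wN_1_rb80330802321dx2 g_wQ_26_wN_1_rb803308023225x2 g_wQ_26_wN_1_rb803308023226x2 g_wQ_26_wN_1_rb80330802322bx2 g__wQ_26_wN_1_rb8033080232x2_0 g_wQ_26_wN_1_rb803308023231x2 g_wQ_26_wN_1_rb803308023234x2 g_wQ_26_wN_1_rb803308023235x2

theorem g_wQ_26_wN_1_rb80330802x15 : GoodKC AS c_wQ_26_wN_1_rb80330802x15 := p_wQ_26_wN_1_rb80330802x4 g_wQ_26_wN_1_rb8033080230x4 g_wQ_26_wN_1_rb803308022fx4 g_wQ_26_wN_1_rb803308022ex4 g_wQ_26_wN_1_rb803308022dx4 g_wQ_26_wN_1_rb803308022cx4 g__wQ_26_wN_1_rb80330802x4_0 g_wQ_26_wN_1_rb803308022bx4 g_wQ_26_wN_1_rb803308022ax4 g_wQ_26_wN_1_rb8033080228x4 g_wQ_26_wN_1_rb8033080227x4 g_wQ_26_wN_1_rb8033080225x4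 g_wQ_26_wN_1_rb8033080222x4 g_wQ_26_wN_1_rb8033080221x4 g_wQ_26_wN_1_rb8033080220x4 g_wQ_26_wN_1_rb803308021fx4 g_wQ_26_wN_1_rb803308021dx4 g_wQ_26_wN_1_rb803308021ax4 g_wQ_26_wN_1_rb8033080219x4 g_wQ_26_wN_1_rb8033080217x4 g_wQ_26_wN_1_rb8033080216x4 g_wQ_26_wN_1_rb8033080215x4 g_wQ_26_wN_1_rb8033080213x4 g_wQ_26_wN_1_rb8033080212x4 g_wQ_26_wN_1_rb8033080211x4 g_wQ_26_wN_1_rb8033080210x4 g_wQ_26_wN_1_rb803308020fx4 g_wQ_26_wN_1_rb803308020ex4 g_wQ_26_wN_1_rb803308020dx4 g_wQ_26_wN_1_rb803308020cx4 g_wQ_26_wN_1_rb8033080209x4 g_wQ_26_wN_1_rb8033080208x4 g_wQ_26_wN_1_rb8033080207x4 g_wQ_26_wN_1_rb8033080206x4 g_wQ_26_wN_1_rb8033080202x4 g_wQ_26_wN_1_rb8033080201x4 g_wQ_26_wN_1_rb8033080200x4 g_wQ_26_wN_1_rb8033080203x4 g__wQ_26_wN_1_rb80330802x4_30 g__wQ_26_wN_1_rb80330802x4_32 g_wQ_26_wN_1_rb8033080204x4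 g_wQ_26_wN_1_rb8033080205x4 g_wQ_26_wN_1_rb803308020ax4 g_wQ_26_wN_1_rb803308020bx4 g__wQ_26_wN_1_rb80330802x4_33 g_wQ_26_wN_1_rb8033080214x4 g_wQ_26_wN_1_rb8033080218x4 g_wQ_26_wN_1_rb803308021bx4 g_wQ_26_wN_1_rb803308021cx4 g_wQ_26_wN_1_rb803308021ex4 g_wQ_26_wN_1_rb8033080223x4 g_wQ_26_wN_1_rb8033080224x4 g_wQ_26_wN_1_rb8033080226x4 g_wQ_26_wN_1_rb8033080229x4 g_wQ_26_wN_1_rb8033080231x4 g_wQ_26_wN_1_rb8033080232x4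

theorem g__wQ_26_wN_1_rb803308x15_4 : GoodKC AS k_wQ_26_wN_1_rb803308x15_4 := p_wQ_26_wN_1_rb803308x15_4 g__wQ_26_wN_1_rb803308x15_5 g_wQ_26_wN_1_rb80330801x15 g_wQ_26_wN_1_rb80330802x15

theorem g__wQ_26_wN_1_rb803308x15_2 : GoodKC AS k_wQ_26_wN_1_rb803308x15_2 := p_wQ_26_wN_1_rb803308x15_2 g__wQ_26_wN_1_rb803308x15_3 g__wQ_26_wN_1_rb803308x15_4

theorem g__wQ_26_wN_1_rb803308x15_61 : GoodKC AS k_wQ_26_wN_1_rb803308x15_61 := p_wQ_26_wN_1_rb803308x15_61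

theorem g__wQ_26_wN_1_rb803308x15_1 : GoodKC AS k_wQ_26_wN_1_rb803308x15_1 := p_wQ_26_wN_1_rb803308x15_1 g_wQ_26_wN_1_rb80330803x15 g__wQ_26_wN_1_rb803308x15_2 g__wQ_26_wN_1_rb803308x15_61

theorem g__wQ_26_wN_1_rb803308x15_0 : GoodKC AS k_wQ_26_wN_1_rb803308x15_0 := p_wQ_26_wN_1_rb803308x15_0 g_wQ_26_wN_1_rb80330805x15 g_wQ_26_wN_1_rb80330804x15 g__wQ_26_wN_1_rb803308x15_1

theorem g_wQ_26_wN_1_rb80330806x15 : GoodKC AS c_wQ_26_wN_1_rb80330806x15 := p_wQ_26_wN_1_rb80330806x5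

theorem g_wQ_26_wN_1_rb80330809x15 : GoodKC AS c_wQ_26_wN_1_rb80330809x15 := p_wQ_26_wN_1_rb80330809x5

theorem g_wQ_26_wN_1_rb8033080bx15 : GoodKC AS c_wQ_26_wN_1_rb8033080bx15 := p_wQ_26_wN_1_rb8033080bx5

theorem g__wQ_26_wN_1_rb8033080dx4_0 : GoodKC AS k_wQ_26_wN_1_rb8033080dx4_0 := p_wQ_26_wN_1_rb8033080dx4_0

theorem g__wQ_26_wN_1_rb8033080dx4_4 : GoodKC AS k_wQ_26_wN_1_rb8033080dx4_4 := p_wQ_26_wN_1_rb8033080dx4_4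

theorem g__wQ_26_wN_1_rb8033080dx4_3 : GoodKC AS k_wQ_26_wN_1_rb8033080dx4_3 := p_wQ_26_wN_1_rb8033080dx4_3 g__wQ_26_wN_1_rb8033080dx4_4

theorem g__wQ_26_wN_1_rb8033080dx4_2 : GoodKC AS k_wQ_26_wN_1_rb8033080dx4_2 := p_wQ_26_wN_1_rb8033080dx4_2 g__wQ_26_wN_1_rb8033080dx4_3

theorem g__wQ_26_wN_1_rb8033080dx4_1 : GoodKC AS k_wQ_26_wN_1_rb8033080dx4_1 := p_wQ_26_wN_1_rb8033080dx4_1 g__wQ_26_wN_1_rb8033080dx4_2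

theorem g_wQ_26_wN_1_rb8033080dx15 : GoodKC AS c_wQ_26_wN_1_rb8033080dx15 := p_wQ_26_wN_1_rb8033080dx4 g__wQ_26_wN_1_rb8033080dx4_0 g__wQ_26_wN_1_rb8033080dx4_1

theorem g_wQ_26_wN_1_rb8033080fx15 : GoodKC AS c_wQ_26_wN_1_rb8033080fx15 := p_wQ_26_wN_1_rb8033080fx5

theorem g_wQ_26_wN_1_rb8033081153x3 : GoodKC AS c_wQ_26_wN_1_rb8033081153x3 := p_wQ_26_wN_1_rb8033081153x3

theorem g_wQ_26_wN_1_rb8033081152x3 : GoodKC AS c_wQ_26_wN_1_rb8033081152x3 := p_wQ_26_wN_1_rb8033081152x3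

theorem g_wQ_26_wN_1_rb8033081151x3 : GoodKC AS c_wQ_26_wN_1_rb8033081151x3 := p_wQ_26_wN_1_rb8033081151x3

theorem g_wQ_26_wN_1_rb803308114fx3 : GoodKC AS c_wQ_26_wN_1_rb803308114fx3 := p_wQ_26_wN_1_rb803308114fx3

theorem g_wQ_26_wN_1_rb803308114ex3 : GoodKC AS c_wQ_26_wN_1_rb803308114ex3 := p_wQ_26_wN_1_rb803308114ex3

theorem g__wQ_26_wN_1_rb803308114dx3_3 : GoodKC AS k_wQ_26_wN_1_rb803308114dx3_3 := p_wQ_26_wN_1_rb803308114dx3_3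

theorem g__wQ_26_wN_1_rb803308114dx3_2 : GoodKC AS k_wQ_26_wN_1_rb803308114dx3_2 := p_wQ_26_wN_1_rb803308114dx3_2 g__wQ_26_wN_1_rb803308114dx3_3

theorem g__wQ_26_wN_1_rb803308114dx3_4 : GoodKC AS k_wQ_26_wN_1_rb803308114dx3_4 := p_wQ_26_wN_1_rb803308114dx3_4

theorem g__wQ_26_wN_1_rb803308114dx3_5 : GoodKC AS k_wQ_26_wN_1_rb803308114dx3_5 := p_wQ_26_wN_1_rb803308114dx3_5

theorem g__wQ_26_wN_1_rb803308114dx3_1 : GoodKC AS k_wQ_26_wN_1_rb803308114dx3_1 := p_wQ_26_wN_1_rb803308114dx3_1 g__wQ_26_wN_1_rb803308114dx3_2 g__wQ_26_wN_1_rb803308114dx3_4 g__wQ_26_wN_1_rb803308114dx3_5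

theorem g__wQ_26_wN_1_rb803308114dx3_0 : GoodKC AS k_wQ_26_wN_1_rb803308114dx3_0 := p_wQ_26_wN_1_rb803308114dx3_0 g__wQ_26_wN_1_rb803308114dx3_1

theorem g__wQ_26_wN_1_rb803308114dx3_9 : GoodKC AS k_wQ_26_wN_1_rb803308114dx3_9 := p_wQ_26_wN_1_rb803308114dx3_9

theorem g__wQ_26_wN_1_rb803308114dx3_8 : GoodKC AS k_wQ_26_wN_1_rb803308114dx3_8 := p_wQ_26_wN_1_rb803308114dx3_8 g__wQ_26_wN_1_rb803308114dx3_9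

theorem g__wQ_26_wN_1_rb803308114dx3_7 : GoodKC AS k_wQ_26_wN_1_rb803308114dx3_7 := p_wQ_26_wN_1_rb803308114dx3_7 g__wQ_26_wN_1_rb803308114dx3_8

theorem g__wQ_26_wN_1_rb803308114dx3_10 : GoodKC AS k_wQ_26_wN_1_rb803308114dx3_10 := p_wQ_26_wN_1_rb803308114dx3_10

theorem g__wQ_26_wN_1_rb803308114dx3_13 : GoodKC AS k_wQ_26_wN_1_rb803308114dx3_13 := p_wQ_26_wN_1_rb803308114dx3_13

theorem g__wQ_26_wN_1_rb803308114dx3_12 : GoodKC AS k_wQ_26_wN_1_rb803308114dx3_12 := p_wQ_26_wN_1_rb803308114dx3_12 g__wQ_26_wN_1_rb803308114dx3_13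

theorem g__wQ_26_wN_1_rb803308114dx3_11 : GoodKC AS k_wQ_26_wN_1_rb803308114dx3_11 := p_wQ_26_wN_1_rb803308114dx3_11 g__wQ_26_wN_1_rb803308114dx3_12

theorem g__wQ_26_wN_1_rb803308114dx3_6 : GoodKC AS k_wQ_26_wN_1_rb803308114dx3_6 := p_wQ_26_wN_1_rb803308114dx3_6 g__wQ_26_wN_1_rb803308114dx3_7 g__wQ_26_wN_1_rb803308114dx3_10 g__wQ_26_wN_1_rb803308114dx3_11

theorem g_wQ_26_wN_1_rb803308114dx3 : GoodKC AS c_wQ_26_wN_1_rb803308114dx3 := p_wQ_26_wN_1_rb803308114dx3 g__wQ_26_wN_1_rb803308114dx3_0 g__wQ_26_wN_1_rb803308114dx3_6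

theorem g__wQ_26_wN_1_rb803308114bx3_0 : GoodKC AS k_wQ_26_wN_1_rb803308114bx3_0 := p_wQ_26_wN_1_rb803308114bx3_0

theorem g__wQ_26_wN_1_rb803308114bx3_2 : GoodKC AS k_wQ_26_wN_1_rb803308114bx3_2 := p_wQ_26_wN_1_rb803308114bx3_2

theorem g__wQ_26_wN_1_rb803308114bx3_1 : GoodKC AS k_wQ_26_wN_1_rb803308114bx3_1 := p_wQ_26_wN_1_rb803308114bx3_1 g__wQ_26_wN_1_rb803308114bx3_2

theorem g_wQ_26_wN_1_rb803308114bx3 : GoodKC AS c_wQ_26_wN_1_rb803308114bx3 := p_wQ_26_wN_1_rb803308114bx3 g__wQ_26_wN_1_rb803308114bx3_0 g__wQ_26_wN_1_rb803308114bx3_1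

theorem g__wQ_26_wN_1_rb8033081144x3_1 : GoodKC AS k_wQ_26_wN_1_rb8033081144x3_1 := p_wQ_26_wN_1_rb8033081144x3_1

theorem g__wQ_26_wN_1_rb8033081144x3_2 : GoodKC AS k_wQ_26_wN_1_rb8033081144x3_2 := p_wQ_26_wN_1_rb8033081144x3_2

theorem g__wQ_26_wN_1_rb8033081144x3_6 : GoodKC AS k_wQ_26_wN_1_rb8033081144x3_6 := p_wQ_26_wN_1_rb8033081144x3_6

theorem g__wQ_26_wN_1_rb8033081144x3_7 : GoodKC AS k_wQ_26_wN_1_rb8033081144x3_7 := p_wQ_26_wN_1_rb8033081144x3_7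

theorem g__wQ_26_wN_1_rb8033081144x3_5 : GoodKC AS k_wQ_26_wN_1_rb8033081144x3_5 := p_wQ_26_wN_1_rb8033081144x3_5 g__wQ_26_wN_1_rb8033081144x3_6 g__wQ_26_wN_1_rb8033081144x3_7

theorem g__wQ_26_wN_1_rb8033081144x3_4 : GoodKC AS k_wQ_26_wN_1_rb8033081144x3_4 := p_wQ_26_wN_1_rb8033081144x3_4 g__wQ_26_wN_1_rb8033081144x3_5

theorem g__wQ_26_wN_1_rb8033081144x3_9 : GoodKC AS k_wQ_26_wN_1_rb8033081144x3_9 := p_wQ_26_wN_1_rb8033081144x3_9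

theorem g__wQ_26_wN_1_rb8033081144x3_10 : GoodKC AS k_wQ_26_wN_1_rb8033081144x3_10 := p_wQ_26_wN_1_rb8033081144x3_10

theorem g__wQ_26_wN_1_rb8033081144x3_11 : GoodKC AS k_wQ_26_wN_1_rb8033081144x3_11 := p_wQ_26_wN_1_rb8033081144x3_11

theorem g__wQ_26_wN_1_rb8033081144x3_15 : GoodKC AS k_wQ_26_wN_1_rb8033081144x3_15 := p_wQ_26_wN_1_rb8033081144x3_15

theorem g__wQ_26_wN_1_rb8033081144x3_14 : GoodKC AS k_wQ_26_wN_1_rb8033081144x3_14 := p_wQ_26_wN_1_rb8033081144x3_14 g__wQ_26_wN_1_rb8033081144x3_15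

theorem g__wQ_26_wN_1_rb8033081144x3_13 : GoodKC AS k_wQ_26_wN_1_rb8033081144x3_13 := p_wQ_26_wN_1_rb8033081144x3_13 g__wQ_26_wN_1_rb8033081144x3_14

theorem g__wQ_26_wN_1_rb8033081144x3_12 : GoodKC AS k_wQ_26_wN_1_rb8033081144x3_12 := p_wQ_26_wN_1_rb8033081144x3_12 g__wQ_26_wN_1_rb8033081144x3_13

theorem g__wQ_26_wN_1_rb8033081144x3_8 : GoodKC AS k_wQ_26_wN_1_rb8033081144x3_8 := p_wQ_26_wN_1_rb8033081144x3_8 g__wQ_26_wN_1_rb8033081144x3_9 g__wQ_26_wN_1_rb8033081144x3_10 g__wQ_26_wN_1_rb8033081144x3_11 g__wQ_26_wN_1_rb8033081144x3_12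

theorem g__wQ_26_wN_1_rb8033081144x3_18 : GoodKC AS k_wQ_26_wN_1_rb8033081144x3_18 := p_wQ_26_wN_1_rb8033081144x3_18

theorem g__wQ_26_wN_1_rb8033081144x3_19 : GoodKC AS k_wQ_26_wN_1_rb8033081144x3_19 := p_wQ_26_wN_1_rb8033081144x3_19

theorem g__wQ_26_wN_1_rb8033081144x3_17 : GoodKC AS k_wQ_26_wN_1_rb8033081144x3_17 := p_wQ_26_wN_1_rb8033081144x3_17 g__wQ_26_wN_1_rb8033081144x3_18 g__wQ_26_wN_1_rb8033081144x3_19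

theorem g__wQ_26_wN_1_rb8033081144x3_23 : GoodKC AS k_wQ_26_wN_1_rb8033081144x3_23 := p_wQ_26_wN_1_rb8033081144x3_23

theorem g__wQ_26_wN_1_rb8033081144x3_22 : GoodKC AS k_wQ_26_wN_1_rb8033081144x3_22 := p_wQ_26_wN_1_rb8033081144x3_22 g__wQ_26_wN_1_rb8033081144x3_23

theorem g__wQ_26_wN_1_rb8033081144x3_21 : GoodKC AS k_wQ_26_wN_1_rb8033081144x3_21 := p_wQ_26_wN_1_rb8033081144x3_21 g__wQ_26_wN_1_rb8033081144x3_22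

theorem g__wQ_26_wN_1_rb8033081144x3_27 : GoodKC AS k_wQ_26_wN_1_rb8033081144x3_27 := p_wQ_26_wN_1_rb8033081144x3_27

theorem g__wQ_26_wN_1_rb8033081144x3_26 : GoodKC AS k_wQ_26_wN_1_rb8033081144x3_26 := p_wQ_26_wN_1_rb8033081144x3_26 g__wQ_26_wN_1_rb8033081144x3_27

theorem g__wQ_26_wN_1_rb8033081144x3_25 : GoodKC AS k_wQ_26_wN_1_rb8033081144x3_25 := p_wQ_26_wN_1_rb8033081144x3_25 g__wQ_26_wN_1_rb8033081144x3_26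

theorem g__wQ_26_wN_1_rb8033081144x3_24 : GoodKC AS k_wQ_26_wN_1_rb8033081144x3_24 := p_wQ_26_wN_1_rb8033081144x3_24 g__wQ_26_wN_1_rb8033081144x3_25

theorem g__wQ_26_wN_1_rb8033081144x3_28 : GoodKC AS k_wQ_26_wN_1_rb8033081144x3_28 := p_wQ_26_wN_1_rb8033081144x3_28

theorem g__wQ_26_wN_1_rb8033081144x3_20 : GoodKC AS k_wQ_26_wN_1_rb8033081144x3_20 := p_wQ_26_wN_1_rb8033081144x3_20 g__wQ_26_wN_1_rb8033081144x3_21 g__wQ_26_wN_1_rb8033081144x3_24 g__wQ_26_wN_1_rb8033081144x3_28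

theorem g__wQ_26_wN_1_rb8033081144x3_16 : GoodKC AS k_wQ_26_wN_1_rb8033081144x3_16 := p_wQ_26_wN_1_rb8033081144x3_16 g__wQ_26_wN_1_rb8033081144x3_17 g__wQ_26_wN_1_rb8033081144x3_20

theorem g__wQ_26_wN_1_rb8033081144x3_3 : GoodKC AS k_wQ_26_wN_1_rb8033081144x3_3 := p_wQ_26_wN_1_rb8033081144x3_3 g__wQ_26_wN_1_rb8033081144x3_4 g__wQ_26_wN_1_rb8033081144x3_8 g__wQ_26_wN_1_rb8033081144x3_16

theorem g__wQ_26_wN_1_rb8033081144x3_0 : GoodKC AS k_wQ_26_wN_1_rb8033081144x3_0 := p_wQ_26_wN_1_rb8033081144x3_0 g__wQ_26_wN_1_rb8033081144x3_1 g__wQ_26_wN_1_rb8033081144x3_2 g__wQ_26_wN_1_rb8033081144x3_3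

theorem g_wQ_26_wN_1_rb8033081144x3 : GoodKC AS c_wQ_26_wN_1_rb8033081144x3 := p_wQ_26_wN_1_rb8033081144x3 g__wQ_26_wN_1_rb8033081144x3_0

theorem g_wQ_26_wN_1_rb8033081143x3 : GoodKC AS c_wQ_26_wN_1_rb8033081143x3 := p_wQ_26_wN_1_rb8033081143x3

theorem g__wQ_26_wN_1_rb8033081142x3_3 : GoodKC AS k_wQ_26_wN_1_rb8033081142x3_3 := p_wQ_26_wN_1_rb8033081142x3_3

theorem g__wQ_26_wN_1_rb8033081142x3_2 : GoodKC AS k_wQ_26_wN_1_rb8033081142x3_2 := p_wQ_26_wN_1_rb8033081142x3_2 g__wQ_26_wN_1_rb8033081142x3_3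

theorem g__wQ_26_wN_1_rb8033081142x3_1 : GoodKC AS k_wQ_26_wN_1_rb8033081142x3_1 := p_wQ_26_wN_1_rb8033081142x3_1 g__wQ_26_wN_1_rb8033081142x3_2

theorem g__wQ_26_wN_1_rb8033081142x3_4 : GoodKC AS k_wQ_26_wN_1_rb8033081142x3_4 := p_wQ_26_wN_1_rb8033081142x3_4

theorem g__wQ_26_wN_1_rb8033081142x3_0 : GoodKC AS k_wQ_26_wN_1_rb8033081142x3_0 := p_wQ_26_wN_1_rb8033081142x3_0 g__wQ_26_wN_1_rb8033081142x3_1 g__wQ_26_wN_1_rb8033081142x3_4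

theorem g_wQ_26_wN_1_rb8033081142x3 : GoodKC AS c_wQ_26_wN_1_rb8033081142x3 := p_wQ_26_wN_1_rb8033081142x3 g__wQ_26_wN_1_rb8033081142x3_0

theorem g__wQ_26_wN_1_rb803308114100v2_2 : GoodKC AS k_wQ_26_wN_1_rb803308114100v2_2 := p_wQ_26_wN_1_rb803308114100v2_2

theorem g__wQ_26_wN_1_rb803308114100v2_4 : GoodKC AS k_wQ_26_wN_1_rb803308114100v2_4 := p_wQ_26_wN_1_rb803308114100v2_4

theorem g__wQ_26_wN_1_rb803308114100v2_3 : GoodKC AS k_wQ_26_wN_1_rb803308114100v2_3 := p_wQ_26_wN_1_rb803308114100v2_3 g__wQ_26_wN_1_rb803308114100v2_4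

theorem g__wQ_26_wN_1_rb803308114100v2_1 : GoodKC AS k_wQ_26_wN_1_rb803308114100v2_1 := p_wQ_26_wN_1_rb803308114100v2_1 g__wQ_26_wN_1_rb803308114100v2_2 g__wQ_26_wN_1_rb803308114100v2_3

theorem g__wQ_26_wN_1_rb803308114100v2_7 : GoodKC AS k_wQ_26_wN_1_rb803308114100v2_7 := p_wQ_26_wN_1_rb803308114100v2_7

theorem g__wQ_26_wN_1_rb803308114100v2_8 : GoodKC AS k_wQ_26_wN_1_rb803308114100v2_8 := p_wQ_26_wN_1_rb803308114100v2_8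

theorem g__wQ_26_wN_1_rb803308114100v2_13 : GoodKC AS k_wQ_26_wN_1_rb803308114100v2_13 := p_wQ_26_wN_1_rb803308114100v2_13

theorem g__wQ_26_wN_1_rb803308114100v2_12 : GoodKC AS k_wQ_26_wN_1_rb803308114100v2_12 := p_wQ_26_wN_1_rb803308114100v2_12 g__wQ_26_wN_1_rb803308114100v2_13

theorem g__wQ_26_wN_1_rb803308114100v2_14 : GoodKC AS k_wQ_26_wN_1_rb803308114100v2_14 := p_wQ_26_wN_1_rb803308114100v2_14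

theorem g__wQ_26_wN_1_rb803308114100v2_11 : GoodKC AS k_wQ_26_wN_1_rb803308114100v2_11 := p_wQ_26_wN_1_rb803308114100v2_11 g__wQ_26_wN_1_rb803308114100v2_12 g__wQ_26_wN_1_rb803308114100v2_14

theorem g__wQ_26_wN_1_rb803308114100v2_10 : GoodKC AS k_wQ_26_wN_1_rb803308114100v2_10 := p_wQ_26_wN_1_rb803308114100v2_10 g__wQ_26_wN_1_rb803308114100v2_11

theorem g__wQ_26_wN_1_rb803308114100v2_9 : GoodKC AS k_wQ_26_wN_1_rb803308114100v2_9 := p_wQ_26_wN_1_rb803308114100v2_9 g__wQ_26_wN_1_rb803308114100v2_10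

theorem g__wQ_26_wN_1_rb803308114100v2_6 : GoodKC AS k_wQ_26_wN_1_rb803308114100v2_6 := p_wQ_26_wN_1_rb803308114100v2_6 g__wQ_26_wN_1_rb803308114100v2_7 g__wQ_26_wN_1_rb803308114100v2_8 g__wQ_26_wN_1_rb803308114100v2_9

theorem g__wQ_26_wN_1_rb803308114100v2_5 : GoodKC AS k_wQ_26_wN_1_rb803308114100v2_5 := p_wQ_26_wN_1_rb803308114100v2_5 g__wQ_26_wN_1_rb803308114100v2_6

theorem g__wQ_26_wN_1_rb803308114100v2_15 : GoodKC AS k_wQ_26_wN_1_rb803308114100v2_15 := p_wQ_26_wN_1_rb803308114100v2_15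

theorem g__wQ_26_wN_1_rb803308114100v2_0 : GoodKC AS k_wQ_26_wN_1_rb803308114100v2_0 := p_wQ_26_wN_1_rb803308114100v2_0 g__wQ_26_wN_1_rb803308114100v2_1 g__wQ_26_wN_1_rb803308114100v2_5 g__wQ_26_wN_1_rb803308114100v2_15

theorem g_wQ_26_wN_1_rb803308114100x2 : GoodKC AS c_wQ_26_wN_1_rb803308114100x2 := p_wQ_26_wN_1_rb803308114100x2 g__wQ_26_wN_1_rb803308114100v2_0

theorem g__wQ_26_wN_1_rb8033081141x2_2 : GoodKC AS k_wQ_26_wN_1_rb8033081141x2_2 := p_wQ_26_wN_1_rb8033081141x2_2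

theorem g__wQ_26_wN_1_rb8033081141x2_3 : GoodKC AS k_wQ_26_wN_1_rb8033081141x2_3 := p_wQ_26_wN_1_rb8033081141x2_3

theorem g__wQ_26_wN_1_rb8033081141x2_5 : GoodKC AS k_wQ_26_wN_1_rb8033081141x2_5 := p_wQ_26_wN_1_rb8033081141x2_5

theorem g__wQ_26_wN_1_rb8033081141x2_4 : GoodKC AS k_wQ_26_wN_1_rb8033081141x2_4 := p_wQ_26_wN_1_rb8033081141x2_4 g__wQ_26_wN_1_rb8033081141x2_5

theorem g__wQ_26_wN_1_rb8033081141x2_9 : GoodKC AS k_wQ_26_wN_1_rb8033081141x2_9 := p_wQ_26_wN_1_rb8033081141x2_9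

theorem g__wQ_26_wN_1_rb8033081141x2_8 : GoodKC AS k_wQ_26_wN_1_rb8033081141x2_8 := p_wQ_26_wN_1_rb8033081141x2_8 g__wQ_26_wN_1_rb8033081141x2_9

theorem g__wQ_26_wN_1_rb8033081141x2_7 : GoodKC AS k_wQ_26_wN_1_rb8033081141x2_7 := p_wQ_26_wN_1_rb8033081141x2_7 g__wQ_26_wN_1_rb8033081141x2_8

theorem g__wQ_26_wN_1_rb8033081141x2_6 : GoodKC AS k_wQ_26_wN_1_rb8033081141x2_6 := p_wQ_26_wN_1_rb8033081141x2_6 g__wQ_26_wN_1_rb8033081141x2_7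

theorem g__wQ_26_wN_1_rb8033081141x2_1 : GoodKC AS k_wQ_26_wN_1_rb8033081141x2_1 := p_wQ_26_wN_1_rb8033081141x2_1 g__wQ_26_wN_1_rb8033081141x2_2 g__wQ_26_wN_1_rb8033081141x2_3 g__wQ_26_wN_1_rb8033081141x2_4 g__wQ_26_wN_1_rb8033081141x2_6

theorem g__wQ_26_wN_1_rb8033081141x2_11 : GoodKC AS k_wQ_26_wN_1_rb8033081141x2_11 := p_wQ_26_wN_1_rb8033081141x2_11

theorem g__wQ_26_wN_1_rb8033081141x2_10 : GoodKC AS k_wQ_26_wN_1_rb8033081141x2_10 := p_wQ_26_wN_1_rb8033081141x2_10 g__wQ_26_wN_1_rb8033081141x2_11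

theorem g__wQ_26_wN_1_rb8033081141x2_0 : GoodKC AS k_wQ_26_wN_1_rb8033081141x2_0 := p_wQ_26_wN_1_rb8033081141x2_0 g__wQ_26_wN_1_rb8033081141x2_1 g__wQ_26_wN_1_rb8033081141x2_10

theorem g__wQ_26_wN_1_rb8033081141x2_14 : GoodKC AS k_wQ_26_wN_1_rb8033081141x2_14 := p_wQ_26_wN_1_rb8033081141x2_14

theorem g__wQ_26_wN_1_rb8033081141x2_13 : GoodKC AS k_wQ_26_wN_1_rb8033081141x2_13 := p_wQ_26_wN_1_rb8033081141x2_13 g__wQ_26_wN_1_rb8033081141x2_14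

theorem g__wQ_26_wN_1_rb8033081141x2_12 : GoodKC AS k_wQ_26_wN_1_rb8033081141x2_12 := p_wQ_26_wN_1_rb8033081141x2_12 g__wQ_26_wN_1_rb8033081141x2_13

theorem g__wQ_26_wN_1_rb8033081141x2_16 : GoodKC AS k_wQ_26_wN_1_rb8033081141x2_16 := p_wQ_26_wN_1_rb8033081141x2_16

theorem g__wQ_26_wN_1_rb8033081141x2_19 : GoodKC AS k_wQ_26_wN_1_rb8033081141x2_19 := p_wQ_26_wN_1_rb8033081141x2_19

theorem g__wQ_26_wN_1_rb8033081141x2_18 : GoodKC AS k_wQ_26_wN_1_rb8033081141x2_18 := p_wQ_26_wN_1_rb8033081141x2_18 g__wQ_26_wN_1_rb8033081141x2_19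

theorem g__wQ_26_wN_1_rb8033081141x2_17 : GoodKC AS k_wQ_26_wN_1_rb8033081141x2_17 := p_wQ_26_wN_1_rb8033081141x2_17 g__wQ_26_wN_1_rb8033081141x2_18

theorem g__wQ_26_wN_1_rb8033081141x2_22 : GoodKC AS k_wQ_26_wN_1_rb8033081141x2_22 := p_wQ_26_wN_1_rb8033081141x2_22

theorem g__wQ_26_wN_1_rb8033081141x2_24 : GoodKC AS k_wQ_26_wN_1_rb8033081141x2_24 := p_wQ_26_wN_1_rb8033081141x2_24

theorem g__wQ_26_wN_1_rb8033081141x2_23 : GoodKC AS k_wQ_26_wN_1_rb8033081141x2_23 := p_wQ_26_wN_1_rb8033081141x2_23 g__wQ_26_wN_1_rb8033081141x2_24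

theorem g__wQ_26_wN_1_rb8033081141x2_21 : GoodKC AS k_wQ_26_wN_1_rb8033081141x2_21 := p_wQ_26_wN_1_rb8033081141x2_21 g__wQ_26_wN_1_rb8033081141x2_22 g__wQ_26_wN_1_rb8033081141x2_23

theorem g__wQ_26_wN_1_rb8033081141x2_25 : GoodKC AS k_wQ_26_wN_1_rb8033081141x2_25 := p_wQ_26_wN_1_rb8033081141x2_25

theorem g__wQ_26_wN_1_rb8033081141x2_20 : GoodKC AS k_wQ_26_wN_1_rb8033081141x2_20 := p_wQ_26_wN_1_rb8033081141x2_20 g__wQ_26_wN_1_rb8033081141x2_21 g__wQ_26_wN_1_rb8033081141x2_25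

theorem g__wQ_26_wN_1_rb8033081141x2_26 : GoodKC AS k_wQ_26_wN_1_rb8033081141x2_26 := p_wQ_26_wN_1_rb8033081141x2_26

theorem g__wQ_26_wN_1_rb8033081141x2_15 : GoodKC AS k_wQ_26_wN_1_rb8033081141x2_15 := p_wQ_26_wN_1_rb8033081141x2_15 g__wQ_26_wN_1_rb8033081141x2_16 g__wQ_26_wN_1_rb8033081141x2_17 g__wQ_26_wN_1_rb8033081141x2_20 g__wQ_26_wN_1_rb8033081141x2_26

theorem g_wQ_26_wN_1_rb8033081141x3 : GoodKC AS c_wQ_26_wN_1_rb8033081141x3 := p_wQ_26_wN_1_rb8033081141x2 g_wQ_26_wN_1_rb803308114100x2 g__wQ_26_wN_1_rb8033081141x2_0 g__wQ_26_wN_1_rb8033081141x2_12 g__wQ_26_wN_1_rb8033081141x2_15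

theorem g_wQ_26_wN_1_rb8033081140x3 : GoodKC AS c_wQ_26_wN_1_rb8033081140x3 := p_wQ_26_wN_1_rb8033081140x3

theorem g_wQ_26_wN_1_rb803308113ex3 : GoodKC AS c_wQ_26_wN_1_rb803308113ex3 := p_wQ_26_wN_1_rb803308113ex3

theorem g_wQ_26_wN_1_rb803308113dx3 : GoodKC AS c_wQ_26_wN_1_rb803308113dx3 := p_wQ_26_wN_1_rb803308113dx3

theorem g_wQ_26_wN_1_rb803308113cx3 : GoodKC AS c_wQ_26_wN_1_rb803308113cx3 := p_wQ_26_wN_1_rb803308113cx3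

theorem g_wQ_26_wN_1_rb803308113bx3 : GoodKC AS c_wQ_26_wN_1_rb803308113bx3 := p_wQ_26_wN_1_rb803308113bx3

theorem g_wQ_26_wN_1_rb803308113ax3 : GoodKC AS c_wQ_26_wN_1_rb803308113ax3 := p_wQ_26_wN_1_rb803308113ax3

theorem g_wQ_26_wN_1_rb8033081139x3 : GoodKC AS c_wQ_26_wN_1_rb8033081139x3 := p_wQ_26_wN_1_rb8033081139x3

theorem g_wQ_26_wN_1_rb8033081138x3 : GoodKC AS c_wQ_26_wN_1_rb8033081138x3 := p_wQ_26_wN_1_rb8033081138x3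

theorem g__wQ_26_wN_1_rb8033081137x3_2 : GoodKC AS k_wQ_26_wN_1_rb8033081137x3_2 := p_wQ_26_wN_1_rb8033081137x3_2

theorem g__wQ_26_wN_1_rb8033081137x3_1 : GoodKC AS k_wQ_26_wN_1_rb8033081137x3_1 := p_wQ_26_wN_1_rb8033081137x3_1 g__wQ_26_wN_1_rb8033081137x3_2

theorem g__wQ_26_wN_1_rb8033081137x3_3 : GoodKC AS k_wQ_26_wN_1_rb8033081137x3_3 := p_wQ_26_wN_1_rb8033081137x3_3

theorem g__wQ_26_wN_1_rb8033081137x3_5 : GoodKC AS k_wQ_26_wN_1_rb8033081137x3_5 := p_wQ_26_wN_1_rb8033081137x3_5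

theorem g__wQ_26_wN_1_rb8033081137x3_4 : GoodKC AS k_wQ_26_wN_1_rb8033081137x3_4 := p_wQ_26_wN_1_rb8033081137x3_4 g__wQ_26_wN_1_rb8033081137x3_5

theorem g__wQ_26_wN_1_rb8033081137x3_0 : GoodKC AS k_wQ_26_wN_1_rb8033081137x3_0 := p_wQ_26_wN_1_rb8033081137x3_0 g__wQ_26_wN_1_rb8033081137x3_1 g__wQ_26_wN_1_rb8033081137x3_3 g__wQ_26_wN_1_rb8033081137x3_4

theorem g__wQ_26_wN_1_rb8033081137x3_6 : GoodKC AS k_wQ_26_wN_1_rb8033081137x3_6 := p_wQ_26_wN_1_rb8033081137x3_6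

theorem g__wQ_26_wN_1_rb8033081137x3_7 : GoodKC AS k_wQ_26_wN_1_rb8033081137x3_7 := p_wQ_26_wN_1_rb8033081137x3_7

theorem g_wQ_26_wN_1_rb8033081137x3 : GoodKC AS c_wQ_26_wN_1_rb8033081137x3 := p_wQ_26_wN_1_rb8033081137x3 g__wQ_26_wN_1_rb8033081137x3_0 g__wQ_26_wN_1_rb8033081137x3_6 g__wQ_26_wN_1_rb8033081137x3_7

theorem g__wQ_26_wN_1_rb8033081136x3_1 : GoodKC AS k_wQ_26_wN_1_rb8033081136x3_1 := p_wQ_26_wN_1_rb8033081136x3_1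

theorem g__wQ_26_wN_1_rb8033081136x3_0 : GoodKC AS k_wQ_26_wN_1_rb8033081136x3_0 := p_wQ_26_wN_1_rb8033081136x3_0 g__wQ_26_wN_1_rb8033081136x3_1

theorem g__wQ_26_wN_1_rb8033081136x3_3 : GoodKC AS k_wQ_26_wN_1_rb8033081136x3_3 := p_wQ_26_wN_1_rb8033081136x3_3

theorem g__wQ_26_wN_1_rb8033081136x3_6 : GoodKC AS k_wQ_26_wN_1_rb8033081136x3_6 := p_wQ_26_wN_1_rb8033081136x3_6

theorem g__wQ_26_wN_1_rb8033081136x3_7 : GoodKC AS k_wQ_26_wN_1_rb8033081136x3_7 := p_wQ_26_wN_1_rb8033081136x3_7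

theorem g__wQ_26_wN_1_rb8033081136x3_5 : GoodKC AS k_wQ_26_wN_1_rb8033081136x3_5 := p_wQ_26_wN_1_rb8033081136x3_5 g__wQ_26_wN_1_rb8033081136x3_6 g__wQ_26_wN_1_rb8033081136x3_7

theorem g__wQ_26_wN_1_rb8033081136x3_4 : GoodKC AS k_wQ_26_wN_1_rb8033081136x3_4 := p_wQ_26_wN_1_rb8033081136x3_4 g__wQ_26_wN_1_rb8033081136x3_5

theorem g__wQ_26_wN_1_rb8033081136x3_2 : GoodKC AS k_wQ_26_wN_1_rb8033081136x3_2 := p_wQ_26_wN_1_rb8033081136x3_2 g__wQ_26_wN_1_rb8033081136x3_3 g__wQ_26_wN_1_rb8033081136x3_4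

theorem g_wQ_26_wN_1_rb8033081136x3 : GoodKC AS c_wQ_26_wN_1_rb8033081136x3 := p_wQ_26_wN_1_rb8033081136x3 g__wQ_26_wN_1_rb8033081136x3_0 g__wQ_26_wN_1_rb8033081136x3_2

theorem g__wQ_26_wN_1_rb8033081135x3_0 : GoodKC AS k_wQ_26_wN_1_rb8033081135x3_0 := p_wQ_26_wN_1_rb8033081135x3_0

theorem g_wQ_26_wN_1_rb8033081135x3 : GoodKC AS c_wQ_26_wN_1_rb8033081135x3 := p_wQ_26_wN_1_rb8033081135x3 g__wQ_26_wN_1_rb8033081135x3_0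

theorem g_wQ_26_wN_1_rb8033081134x3 : GoodKC AS c_wQ_26_wN_1_rb8033081134x3 := p_wQ_26_wN_1_rb8033081134x3

theorem g_wQ_26_wN_1_rb8033081131x3 : GoodKC AS c_wQ_26_wN_1_rb8033081131x3 := p_wQ_26_wN_1_rb8033081131x3

theorem g_wQ_26_wN_1_rb803308112ex3 : GoodKC AS c_wQ_26_wN_1_rb803308112ex3 := p_wQ_26_wN_1_rb803308112ex3

theorem g_wQ_26_wN_1_rb803308112dx3 : GoodKC AS c_wQ_26_wN_1_rb803308112dx3 := p_wQ_26_wN_1_rb803308112dx3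

theorem g__wQ_26_wN_1_rb803308112cx3_0 : GoodKC AS k_wQ_26_wN_1_rb803308112cx3_0 := p_wQ_26_wN_1_rb803308112cx3_0

theorem g_wQ_26_wN_1_rb803308112cx3 : GoodKC AS c_wQ_26_wN_1_rb803308112cx3 := p_wQ_26_wN_1_rb803308112cx3 g__wQ_26_wN_1_rb803308112cx3_0

theorem g_wQ_26_wN_1_rb803308112bx3 : GoodKC AS c_wQ_26_wN_1_rb803308112bx3 := p_wQ_26_wN_1_rb803308112bx3

theorem g__wQ_26_wN_1_rb803308112ax3_2 : GoodKC AS k_wQ_26_wN_1_rb803308112ax3_2 := p_wQ_26_wN_1_rb803308112ax3_2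

theorem g__wQ_26_wN_1_rb803308112ax3_1 : GoodKC AS k_wQ_26_wN_1_rb803308112ax3_1 := p_wQ_26_wN_1_rb803308112ax3_1 g__wQ_26_wN_1_rb803308112ax3_2

theorem g__wQ_26_wN_1_rb803308112ax3_3 : GoodKC AS k_wQ_26_wN_1_rb803308112ax3_3 := p_wQ_26_wN_1_rb803308112ax3_3

theorem g__wQ_26_wN_1_rb803308112ax3_0 : GoodKC AS k_wQ_26_wN_1_rb803308112ax3_0 := p_wQ_26_wN_1_rb803308112ax3_0 g__wQ_26_wN_1_rb803308112ax3_1 g__wQ_26_wN_1_rb803308112ax3_3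

theorem g_wQ_26_wN_1_rb803308112ax3 : GoodKC AS c_wQ_26_wN_1_rb803308112ax3 := p_wQ_26_wN_1_rb803308112ax3 g__wQ_26_wN_1_rb803308112ax3_0

theorem g_wQ_26_wN_1_rb8033081128x3 : GoodKC AS c_wQ_26_wN_1_rb8033081128x3 := p_wQ_26_wN_1_rb8033081128x3

theorem g_wQ_26_wN_1_rb8033081126x3 : GoodKC AS c_wQ_26_wN_1_rb8033081126x3 := p_wQ_26_wN_1_rb8033081126x3

theorem g__wQ_26_wN_1_rb8033081123x3_3 : GoodKC AS k_wQ_26_wN_1_rb8033081123x3_3 := p_wQ_26_wN_1_rb8033081123x3_3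

theorem g__wQ_26_wN_1_rb8033081123x3_2 : GoodKC AS k_wQ_26_wN_1_rb8033081123x3_2 := p_wQ_26_wN_1_rb8033081123x3_2 g__wQ_26_wN_1_rb8033081123x3_3

theorem g__wQ_26_wN_1_rb8033081123x3_1 : GoodKC AS k_wQ_26_wN_1_rb8033081123x3_1 := p_wQ_26_wN_1_rb8033081123x3_1 g__wQ_26_wN_1_rb8033081123x3_2

theorem g__wQ_26_wN_1_rb8033081123x3_0 : GoodKC AS k_wQ_26_wN_1_rb8033081123x3_0 := p_wQ_26_wN_1_rb8033081123x3_0 g__wQ_26_wN_1_rb8033081123x3_1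

theorem g_wQ_26_wN_1_rb8033081123x3 : GoodKC AS c_wQ_26_wN_1_rb8033081123x3 := p_wQ_26_wN_1_rb8033081123x3 g__wQ_26_wN_1_rb8033081123x3_0

theorem g_wQ_26_wN_1_rb8033081121x3 : GoodKC AS c_wQ_26_wN_1_rb8033081121x3 := p_wQ_26_wN_1_rb8033081121x3

theorem g_wQ_26_wN_1_rb803308111fx3 : GoodKC AS c_wQ_26_wN_1_rb803308111fx3 := p_wQ_26_wN_1_rb803308111fx3

theorem g_wQ_26_wN_1_rb803308111ex3 : GoodKC AS c_wQ_26_wN_1_rb803308111ex3 := p_wQ_26_wN_1_rb803308111ex3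

theorem g_wQ_26_wN_1_rb803308111dx3 : GoodKC AS c_wQ_26_wN_1_rb803308111dx3 := p_wQ_26_wN_1_rb803308111dx3

theorem g_wQ_26_wN_1_rb803308111cx3 : GoodKC AS c_wQ_26_wN_1_rb803308111cx3 := p_wQ_26_wN_1_rb803308111cx3

theorem g_wQ_26_wN_1_rb803308111bx3 : GoodKC AS c_wQ_26_wN_1_rb803308111bx3 := p_wQ_26_wN_1_rb803308111bx3

theorem g__wQ_26_wN_1_rb803308111ax3_3 : GoodKC AS k_wQ_26_wN_1_rb803308111ax3_3 := p_wQ_26_wN_1_rb803308111ax3_3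

theorem g__wQ_26_wN_1_rb803308111ax3_4 : GoodKC AS k_wQ_26_wN_1_rb803308111ax3_4 := p_wQ_26_wN_1_rb803308111ax3_4

theorem g__wQ_26_wN_1_rb803308111ax3_2 : GoodKC AS k_wQ_26_wN_1_rb803308111ax3_2 := p_wQ_26_wN_1_rb803308111ax3_2 g__wQ_26_wN_1_rb803308111ax3_3 g__wQ_26_wN_1_rb803308111ax3_4

theorem g__wQ_26_wN_1_rb803308111ax3_1 : GoodKC AS k_wQ_26_wN_1_rb803308111ax3_1 := p_wQ_26_wN_1_rb803308111ax3_1 g__wQ_26_wN_1_rb803308111ax3_2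

theorem g__wQ_26_wN_1_rb803308111ax3_0 : GoodKC AS k_wQ_26_wN_1_rb803308111ax3_0 := p_wQ_26_wN_1_rb803308111ax3_0 g__wQ_26_wN_1_rb803308111ax3_1

theorem g_wQ_26_wN_1_rb803308111ax3 : GoodKC AS c_wQ_26_wN_1_rb803308111ax3 := p_wQ_26_wN_1_rb803308111ax3 g__wQ_26_wN_1_rb803308111ax3_0

theorem g_wQ_26_wN_1_rb8033081117x3 : GoodKC AS c_wQ_26_wN_1_rb8033081117x3 := p_wQ_26_wN_1_rb8033081117x3

theorem g_wQ_26_wN_1_rb8033081114x3 : GoodKC AS c_wQ_26_wN_1_rb8033081114x3 := p_wQ_26_wN_1_rb8033081114x3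

theorem g_wQ_26_wN_1_rb8033081113x3 : GoodKC AS c_wQ_26_wN_1_rb8033081113x3 := p_wQ_26_wN_1_rb8033081113x3

theorem g_wQ_26_wN_1_rb8033081112x3 : GoodKC AS c_wQ_26_wN_1_rb8033081112x3 := p_wQ_26_wN_1_rb8033081112x3

theorem g_wQ_26_wN_1_rb8033081111x3 : GoodKC AS c_wQ_26_wN_1_rb8033081111x3 := p_wQ_26_wN_1_rb8033081111x3

theorem g_wQ_26_wN_1_rb803308110ex3 : GoodKC AS c_wQ_26_wN_1_rb803308110ex3 := p_wQ_26_wN_1_rb803308110ex3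

theorem g_wQ_26_wN_1_rb803308110dx3 : GoodKC AS c_wQ_26_wN_1_rb803308110dx3 := p_wQ_26_wN_1_rb803308110dx3

theorem g__wQ_26_wN_1_rb803308110cx3_0 : GoodKC AS k_wQ_26_wN_1_rb803308110cx3_0 := p_wQ_26_wN_1_rb803308110cx3_0

theorem g_wQ_26_wN_1_rb803308110cx3 : GoodKC AS c_wQ_26_wN_1_rb803308110cx3 := p_wQ_26_wN_1_rb803308110cx3 g__wQ_26_wN_1_rb803308110cx3_0

theorem g_wQ_26_wN_1_rb8033081108x3 : GoodKC AS c_wQ_26_wN_1_rb8033081108x3 := p_wQ_26_wN_1_rb8033081108x3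

theorem g_wQ_26_wN_1_rb8033081107x3 : GoodKC AS c_wQ_26_wN_1_rb8033081107x3 := p_wQ_26_wN_1_rb8033081107x3

theorem g_wQ_26_wN_1_rb8033081106x3 : GoodKC AS c_wQ_26_wN_1_rb8033081106x3 := p_wQ_26_wN_1_rb8033081106x3

theorem g_wQ_26_wN_1_rb8033081105x3 : GoodKC AS c_wQ_26_wN_1_rb8033081105x3 := p_wQ_26_wN_1_rb8033081105x3

theorem g_wQ_26_wN_1_rb8033081103x3 : GoodKC AS c_wQ_26_wN_1_rb8033081103x3 := p_wQ_26_wN_1_rb8033081103x3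

theorem g_wQ_26_wN_1_rb8033081102x3 : GoodKC AS c_wQ_26_wN_1_rb8033081102x3 := p_wQ_26_wN_1_rb8033081102x3

theorem g__wQ_26_wN_1_rb8033081100v2_2 : GoodKC AS k_wQ_26_wN_1_rb8033081100v2_2 := p_wQ_26_wN_1_rb8033081100v2_2

theorem g__wQ_26_wN_1_rb8033081100v2_1 : GoodKC AS k_wQ_26_wN_1_rb8033081100v2_1 := p_wQ_26_wN_1_rb8033081100v2_1 g__wQ_26_wN_1_rb8033081100v2_2

theorem g__wQ_26_wN_1_rb8033081100v2_15 : GoodKC AS k_wQ_26_wN_1_rb8033081100v2_15 := p_wQ_26_wN_1_rb8033081100v2_15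

theorem g__wQ_26_wN_1_rb8033081100v2_14 : GoodKC AS k_wQ_26_wN_1_rb8033081100v2_14 := p_wQ_26_wN_1_rb8033081100v2_14 g__wQ_26_wN_1_rb8033081100v2_15

theorem g__wQ_26_wN_1_rb8033081100v2_13 : GoodKC AS k_wQ_26_wN_1_rb8033081100v2_13 := p_wQ_26_wN_1_rb8033081100v2_13 g__wQ_26_wN_1_rb8033081100v2_14

theorem g__wQ_26_wN_1_rb8033081100v2_16 : GoodKC AS k_wQ_26_wN_1_rb8033081100v2_16 := p_wQ_26_wN_1_rb8033081100v2_16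

theorem g__wQ_26_wN_1_rb8033081100v2_12 : GoodKC AS k_wQ_26_wN_1_rb8033081100v2_12 := p_wQ_26_wN_1_rb8033081100v2_12 g__wQ_26_wN_1_rb8033081100v2_13 g__wQ_26_wN_1_rb8033081100v2_16

theorem g__wQ_26_wN_1_rb8033081100v2_11 : GoodKC AS k_wQ_26_wN_1_rb8033081100v2_11 := p_wQ_26_wN_1_rb8033081100v2_11 g__wQ_26_wN_1_rb8033081100v2_12

theorem g__wQ_26_wN_1_rb8033081100v2_10 : GoodKC AS k_wQ_26_wN_1_rb8033081100v2_10 := p_wQ_26_wN_1_rb8033081100v2_10 g__wQ_26_wN_1_rb8033081100v2_11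

theorem g__wQ_26_wN_1_rb8033081100v2_17 : GoodKC AS k_wQ_26_wN_1_rb8033081100v2_17 := p_wQ_26_wN_1_rb8033081100v2_17

theorem g__wQ_26_wN_1_rb8033081100v2_9 : GoodKC AS k_wQ_26_wN_1_rb8033081100v2_9 := p_wQ_26_wN_1_rb8033081100v2_9 g__wQ_26_wN_1_rb8033081100v2_10 g__wQ_26_wN_1_rb8033081100v2_17

theorem g__wQ_26_wN_1_rb8033081100v2_8 : GoodKC AS k_wQ_26_wN_1_rb8033081100v2_8 := p_wQ_26_wN_1_rb8033081100v2_8 g__wQ_26_wN_1_rb8033081100v2_9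

theorem g__wQ_26_wN_1_rb8033081100v2_7 : GoodKC AS k_wQ_26_wN_1_rb8033081100v2_7 := p_wQ_26_wN_1_rb8033081100v2_7 g__wQ_26_wN_1_rb8033081100v2_8

theorem g__wQ_26_wN_1_rb8033081100v2_6 : GoodKC AS k_wQ_26_wN_1_rb8033081100v2_6 := p_wQ_26_wN_1_rb8033081100v2_6 g__wQ_26_wN_1_rb8033081100v2_7

theorem g__wQ_26_wN_1_rb8033081100v2_5 : GoodKC AS k_wQ_26_wN_1_rb8033081100v2_5 := p_wQ_26_wN_1_rb8033081100v2_5 g__wQ_26_wN_1_rb8033081100v2_6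

theorem g__wQ_26_wN_1_rb8033081100v2_4 : GoodKC AS k_wQ_26_wN_1_rb8033081100v2_4 := p_wQ_26_wN_1_rb8033081100v2_4 g__wQ_26_wN_1_rb8033081100v2_5

theorem g__wQ_26_wN_1_rb8033081100v2_3 : GoodKC AS k_wQ_26_wN_1_rb8033081100v2_3 := p_wQ_26_wN_1_rb8033081100v2_3 g__wQ_26_wN_1_rb8033081100v2_4

theorem g__wQ_26_wN_1_rb8033081100v2_18 : GoodKC AS k_wQ_26_wN_1_rb8033081100v2_18 := p_wQ_26_wN_1_rb8033081100v2_18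

theorem g__wQ_26_wN_1_rb8033081100v2_0 : GoodKC AS k_wQ_26_wN_1_rb8033081100v2_0 := p_wQ_26_wN_1_rb8033081100v2_0 g__wQ_26_wN_1_rb8033081100v2_1 g__wQ_26_wN_1_rb8033081100v2_3 g__wQ_26_wN_1_rb8033081100v2_18

theorem g_wQ_26_wN_1_rb8033081100x3 : GoodKC AS c_wQ_26_wN_1_rb8033081100x3 := p_wQ_26_wN_1_rb8033081100x2 g__wQ_26_wN_1_rb8033081100v2_0

theorem g_wQ_26_wN_1_rb8033081101x3 : GoodKC AS c_wQ_26_wN_1_rb8033081101x3 := p_wQ_26_wN_1_rb8033081101x3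

theorem g_wQ_26_wN_1_rb8033081104x3 : GoodKC AS c_wQ_26_wN_1_rb8033081104x3 := p_wQ_26_wN_1_rb8033081104x3

theorem g_wQ_26_wN_1_rb8033081109x3 : GoodKC AS c_wQ_26_wN_1_rb8033081109x3 := p_wQ_26_wN_1_rb8033081109x3

theorem g_wQ_26_wN_1_rb803308110ax3 : GoodKC AS c_wQ_26_wN_1_rb803308110ax3 := p_wQ_26_wN_1_rb803308110ax3

theorem g__wQ_26_wN_1_rb803308110bx3_5 : GoodKC AS k_wQ_26_wN_1_rb803308110bx3_5 := p_wQ_26_wN_1_rb803308110bx3_5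

theorem g__wQ_26_wN_1_rb803308110bx3_4 : GoodKC AS k_wQ_26_wN_1_rb803308110bx3_4 := p_wQ_26_wN_1_rb803308110bx3_4 g__wQ_26_wN_1_rb803308110bx3_5

theorem g__wQ_26_wN_1_rb803308110bx3_3 : GoodKC AS k_wQ_26_wN_1_rb803308110bx3_3 := p_wQ_26_wN_1_rb803308110bx3_3 g__wQ_26_wN_1_rb803308110bx3_4

theorem g__wQ_26_wN_1_rb803308110bx3_2 : GoodKC AS k_wQ_26_wN_1_rb803308110bx3_2 := p_wQ_26_wN_1_rb803308110bx3_2 g__wQ_26_wN_1_rb803308110bx3_3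

theorem g__wQ_26_wN_1_rb803308110bx3_1 : GoodKC AS k_wQ_26_wN_1_rb803308110bx3_1 := p_wQ_26_wN_1_rb803308110bx3_1 g__wQ_26_wN_1_rb803308110bx3_2

theorem g__wQ_26_wN_1_rb803308110bx3_6 : GoodKC AS k_wQ_26_wN_1_rb803308110bx3_6 := p_wQ_26_wN_1_rb803308110bx3_6

theorem g__wQ_26_wN_1_rb803308110bx3_0 : GoodKC AS k_wQ_26_wN_1_rb803308110bx3_0 := p_wQ_26_wN_1_rb803308110bx3_0 g__wQ_26_wN_1_rb803308110bx3_1 g__wQ_26_wN_1_rb803308110bx3_6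

theorem g_wQ_26_wN_1_rb803308110bx3 : GoodKC AS c_wQ_26_wN_1_rb803308110bx3 := p_wQ_26_wN_1_rb803308110bx3 g__wQ_26_wN_1_rb803308110bx3_0

theorem g_wQ_26_wN_1_rb803308110fx3 : GoodKC AS c_wQ_26_wN_1_rb803308110fx3 := p_wQ_26_wN_1_rb803308110fx3

theorem g_wQ_26_wN_1_rb8033081110x3 : GoodKC AS c_wQ_26_wN_1_rb8033081110x3 := p_wQ_26_wN_1_rb8033081110x3

theorem g__wQ_26_wN_1_rb8033081115x3_2 : GoodKC AS k_wQ_26_wN_1_rb8033081115x3_2 := p_wQ_26_wN_1_rb8033081115x3_2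

theorem g__wQ_26_wN_1_rb8033081115x3_1 : GoodKC AS k_wQ_26_wN_1_rb8033081115x3_1 := p_wQ_26_wN_1_rb8033081115x3_1 g__wQ_26_wN_1_rb8033081115x3_2

theorem g__wQ_26_wN_1_rb8033081115x3_0 : GoodKC AS k_wQ_26_wN_1_rb8033081115x3_0 := p_wQ_26_wN_1_rb8033081115x3_0 g__wQ_26_wN_1_rb8033081115x3_1

theorem g_wQ_26_wN_1_rb8033081115x3 : GoodKC AS c_wQ_26_wN_1_rb8033081115x3 := p_wQ_26_wN_1_rb8033081115x3 g__wQ_26_wN_1_rb8033081115x3_0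

theorem g_wQ_26_wN_1_rb8033081116x3 : GoodKC AS c_wQ_26_wN_1_rb8033081116x3 := p_wQ_26_wN_1_rb8033081116x3

theorem g_wQ_26_wN_1_rb8033081118x3 : GoodKC AS c_wQ_26_wN_1_rb8033081118x3 := p_wQ_26_wN_1_rb8033081118x3

theorem g_wQ_26_wN_1_rb8033081119x3 : GoodKC AS c_wQ_26_wN_1_rb8033081119x3 := p_wQ_26_wN_1_rb8033081119x3

theorem g_wQ_26_wN_1_rb8033081120x3 : GoodKC AS c_wQ_26_wN_1_rb8033081120x3 := p_wQ_26_wN_1_rb8033081120x3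

theorem g_wQ_26_wN_1_rb8033081122x3 : GoodKC AS c_wQ_26_wN_1_rb8033081122x3 := p_wQ_26_wN_1_rb8033081122x3

theorem g_wQ_26_wN_1_rb8033081124x3 : GoodKC AS c_wQ_26_wN_1_rb8033081124x3 := p_wQ_26_wN_1_rb8033081124x3

theorem g_wQ_26_wN_1_rb8033081125x3 : GoodKC AS c_wQ_26_wN_1_rb8033081125x3 := p_wQ_26_wN_1_rb8033081125x3

theorem g_wQ_26_wN_1_rb8033081127x3 : GoodKC AS c_wQ_26_wN_1_rb8033081127x3 := p_wQ_26_wN_1_rb8033081127x3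

theorem g_wQ_26_wN_1_rb8033081129x3 : GoodKC AS c_wQ_26_wN_1_rb8033081129x3 := p_wQ_26_wN_1_rb8033081129x3

theorem g__wQ_26_wN_1_rb80330811x3_2 : GoodKC AS k_wQ_26_wN_1_rb80330811x3_2 := p_wQ_26_wN_1_rb80330811x3_2

theorem g__wQ_26_wN_1_rb80330811x3_4 : GoodKC AS k_wQ_26_wN_1_rb80330811x3_4 := p_wQ_26_wN_1_rb80330811x3_4

theorem g__wQ_26_wN_1_rb80330811x3_7 : GoodKC AS k_wQ_26_wN_1_rb80330811x3_7 := p_wQ_26_wN_1_rb80330811x3_7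

theorem g__wQ_26_wN_1_rb80330811x3_9 : GoodKC AS k_wQ_26_wN_1_rb80330811x3_9 := p_wQ_26_wN_1_rb80330811x3_9

theorem g__wQ_26_wN_1_rb80330811x3_12 : GoodKC AS k_wQ_26_wN_1_rb80330811x3_12 := p_wQ_26_wN_1_rb80330811x3_12

theorem g__wQ_26_wN_1_rb80330811x3_11 : GoodKC AS k_wQ_26_wN_1_rb80330811x3_11 := p_wQ_26_wN_1_rb80330811x3_11 g__wQ_26_wN_1_rb80330811x3_12

theorem g__wQ_26_wN_1_rb80330811x3_14 : GoodKC AS k_wQ_26_wN_1_rb80330811x3_14 := p_wQ_26_wN_1_rb80330811x3_14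

theorem g__wQ_26_wN_1_rb80330811x3_19 : GoodKC AS k_wQ_26_wN_1_rb80330811x3_19 := p_wQ_26_wN_1_rb80330811x3_19

theorem g__wQ_26_wN_1_rb80330811x3_18 : GoodKC AS k_wQ_26_wN_1_rb80330811x3_18 := p_wQ_26_wN_1_rb80330811x3_18 g__wQ_26_wN_1_rb80330811x3_19

theorem g__wQ_26_wN_1_rb80330811x3_17 : GoodKC AS k_wQ_26_wN_1_rb80330811x3_17 := p_wQ_26_wN_1_rb80330811x3_17 g__wQ_26_wN_1_rb80330811x3_18

theorem g__wQ_26_wN_1_rb80330811x3_16 : GoodKC AS k_wQ_26_wN_1_rb80330811x3_16 := p_wQ_26_wN_1_rb80330811x3_16 g__wQ_26_wN_1_rb80330811x3_17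

theorem g__wQ_26_wN_1_rb80330811x3_15 : GoodKC AS k_wQ_26_wN_1_rb80330811x3_15 := p_wQ_26_wN_1_rb80330811x3_15 g__wQ_26_wN_1_rb80330811x3_16

theorem g__wQ_26_wN_1_rb80330811x3_13 : GoodKC AS k_wQ_26_wN_1_rb80330811x3_13 := p_wQ_26_wN_1_rb80330811x3_13 g__wQ_26_wN_1_rb80330811x3_14 g__wQ_26_wN_1_rb80330811x3_15

theorem g__wQ_26_wN_1_rb80330811x3_10 : GoodKC AS k_wQ_26_wN_1_rb80330811x3_10 := p_wQ_26_wN_1_rb80330811x3_10 g__wQ_26_wN_1_rb80330811x3_11 g__wQ_26_wN_1_rb80330811x3_13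

theorem g__wQ_26_wN_1_rb80330811x3_8 : GoodKC AS k_wQ_26_wN_1_rb80330811x3_8 := p_wQ_26_wN_1_rb80330811x3_8 g__wQ_26_wN_1_rb80330811x3_9 g__wQ_26_wN_1_rb80330811x3_10

theorem g__wQ_26_wN_1_rb80330811x3_6 : GoodKC AS k_wQ_26_wN_1_rb80330811x3_6 := p_wQ_26_wN_1_rb80330811x3_6 g__wQ_26_wN_1_rb80330811x3_7 g__wQ_26_wN_1_rb80330811x3_8

theorem g__wQ_26_wN_1_rb80330811x3_5 : GoodKC AS k_wQ_26_wN_1_rb80330811x3_5 := p_wQ_26_wN_1_rb80330811x3_5 g__wQ_26_wN_1_rb80330811x3_6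

theorem g__wQ_26_wN_1_rb80330811x3_20 : GoodKC AS k_wQ_26_wN_1_rb80330811x3_20 := p_wQ_26_wN_1_rb80330811x3_20

theorem g__wQ_26_wN_1_rb80330811x3_3 : GoodKC AS k_wQ_26_wN_1_rb80330811x3_3 := p_wQ_26_wN_1_rb80330811x3_3 g__wQ_26_wN_1_rb80330811x3_4 g__wQ_26_wN_1_rb80330811x3_5 g__wQ_26_wN_1_rb80330811x3_20

theorem g__wQ_26_wN_1_rb80330811x3_24 : GoodKC AS k_wQ_26_wN_1_rb80330811x3_24 := p_wQ_26_wN_1_rb80330811x3_24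

theorem g__wQ_26_wN_1_rb80330811x3_23 : GoodKC AS k_wQ_26_wN_1_rb80330811x3_23 := p_wQ_26_wN_1_rb80330811x3_23 g__wQ_26_wN_1_rb80330811x3_24

theorem g__wQ_26_wN_1_rb80330811x3_22 : GoodKC AS k_wQ_26_wN_1_rb80330811x3_22 := p_wQ_26_wN_1_rb80330811x3_22 g__wQ_26_wN_1_rb80330811x3_23

theorem g__wQ_26_wN_1_rb80330811x3_27 : GoodKC AS k_wQ_26_wN_1_rb80330811x3_27 := p_wQ_26_wN_1_rb80330811x3_27

theorem g__wQ_26_wN_1_rb80330811x3_26 : GoodKC AS k_wQ_26_wN_1_rb80330811x3_26 := p_wQ_26_wN_1_rb80330811x3_26 g__wQ_26_wN_1_rb80330811x3_27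

theorem g__wQ_26_wN_1_rb80330811x3_25 : GoodKC AS k_wQ_26_wN_1_rb80330811x3_25 := p_wQ_26_wN_1_rb80330811x3_25 g__wQ_26_wN_1_rb80330811x3_26

theorem g__wQ_26_wN_1_rb80330811x3_33 : GoodKC AS k_wQ_26_wN_1_rb80330811x3_33 := p_wQ_26_wN_1_rb80330811x3_33

theorem g__wQ_26_wN_1_rb80330811x3_32 : GoodKC AS k_wQ_26_wN_1_rb80330811x3_32 := p_wQ_26_wN_1_rb80330811x3_32 g__wQ_26_wN_1_rb80330811x3_33

theorem g__wQ_26_wN_1_rb80330811x3_31 : GoodKC AS k_wQ_26_wN_1_rb80330811x3_31 := p_wQ_26_wN_1_rb80330811x3_31 g__wQ_26_wN_1_rb80330811x3_32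

theorem g__wQ_26_wN_1_rb80330811x3_30 : GoodKC AS k_wQ_26_wN_1_rb80330811x3_30 := p_wQ_26_wN_1_rb80330811x3_30 g__wQ_26_wN_1_rb80330811x3_31

theorem g__wQ_26_wN_1_rb80330811x3_29 : GoodKC AS k_wQ_26_wN_1_rb80330811x3_29 := p_wQ_26_wN_1_rb80330811x3_29 g__wQ_26_wN_1_rb80330811x3_30

theorem g__wQ_26_wN_1_rb80330811x3_28 : GoodKC AS k_wQ_26_wN_1_rb80330811x3_28 := p_wQ_26_wN_1_rb80330811x3_28 g__wQ_26_wN_1_rb80330811x3_29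

theorem g__wQ_26_wN_1_rb80330811x3_34 : GoodKC AS k_wQ_26_wN_1_rb80330811x3_34 := p_wQ_26_wN_1_rb80330811x3_34

theorem g__wQ_26_wN_1_rb80330811x3_21 : GoodKC AS k_wQ_26_wN_1_rb80330811x3_21 := p_wQ_26_wN_1_rb80330811x3_21 g__wQ_26_wN_1_rb80330811x3_22 g__wQ_26_wN_1_rb80330811x3_25 g__wQ_26_wN_1_rb80330811x3_28 g__wQ_26_wN_1_rb80330811x3_34

theorem g__wQ_26_wN_1_rb80330811x3_1 : GoodKC AS k_wQ_26_wN_1_rb80330811x3_1 := p_wQ_26_wN_1_rb80330811x3_1 g__wQ_26_wN_1_rb80330811x3_2 g__wQ_26_wN_1_rb80330811x3_3 g__wQ_26_wN_1_rb80330811x3_21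

theorem g__wQ_26_wN_1_rb80330811x3_0 : GoodKC AS k_wQ_26_wN_1_rb80330811x3_0 := p_wQ_26_wN_1_rb80330811x3_0 g__wQ_26_wN_1_rb80330811x3_1

theorem g__wQ_26_wN_1_rb803308112fx3_4 : GoodKC AS k_wQ_26_wN_1_rb803308112fx3_4 := p_wQ_26_wN_1_rb803308112fx3_4

theorem g__wQ_26_wN_1_rb803308112fx3_3 : GoodKC AS k_wQ_26_wN_1_rb803308112fx3_3 := p_wQ_26_wN_1_rb803308112fx3_3 g__wQ_26_wN_1_rb803308112fx3_4

theorem g__wQ_26_wN_1_rb803308112fx3_2 : GoodKC AS k_wQ_26_wN_1_rb803308112fx3_2 := p_wQ_26_wN_1_rb803308112fx3_2 g__wQ_26_wN_1_rb803308112fx3_3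

theorem g__wQ_26_wN_1_rb803308112fx3_1 : GoodKC AS k_wQ_26_wN_1_rb803308112fx3_1 := p_wQ_26_wN_1_rb803308112fx3_1 g__wQ_26_wN_1_rb803308112fx3_2

theorem g__wQ_26_wN_1_rb803308112fx3_0 : GoodKC AS k_wQ_26_wN_1_rb803308112fx3_0 := p_wQ_26_wN_1_rb803308112fx3_0 g__wQ_26_wN_1_rb803308112fx3_1

theorem g_wQ_26_wN_1_rb803308112fx3 : GoodKC AS c_wQ_26_wN_1_rb803308112fx3 := p_wQ_26_wN_1_rb803308112fx3 g__wQ_26_wN_1_rb803308112fx3_0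

theorem g_wQ_26_wN_1_rb8033081130x3 : GoodKC AS c_wQ_26_wN_1_rb8033081130x3 := p_wQ_26_wN_1_rb8033081130x3

theorem g_wQ_26_wN_1_rb8033081132x3 : GoodKC AS c_wQ_26_wN_1_rb8033081132x3 := p_wQ_26_wN_1_rb8033081132x3

theorem g_wQ_26_wN_1_rb8033081133x3 : GoodKC AS c_wQ_26_wN_1_rb8033081133x3 := p_wQ_26_wN_1_rb8033081133x3

theorem g_wQ_26_wN_1_rb803308113fx3 : GoodKC AS c_wQ_26_wN_1_rb803308113fx3 := p_wQ_26_wN_1_rb803308113fx3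

theorem g_wQ_26_wN_1_rb8033081145x3 : GoodKC AS c_wQ_26_wN_1_rb8033081145x3 := p_wQ_26_wN_1_rb8033081145x3

theorem g_wQ_26_wN_1_rb8033081146x3 : GoodKC AS c_wQ_26_wN_1_rb8033081146x3 := p_wQ_26_wN_1_rb8033081146x3

theorem g_wQ_26_wN_1_rb8033081147x3 : GoodKC AS c_wQ_26_wN_1_rb8033081147x3 := p_wQ_26_wN_1_rb8033081147x3

theorem g_wQ_26_wN_1_rb8033081148x3 : GoodKC AS c_wQ_26_wN_1_rb8033081148x3 := p_wQ_26_wN_1_rb8033081148x3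

theorem g_wQ_26_wN_1_rb8033081149x3 : GoodKC AS c_wQ_26_wN_1_rb8033081149x3 := p_wQ_26_wN_1_rb8033081149x3

theorem g__wQ_26_wN_1_rb803308114a02x2_0 : GoodKC AS k_wQ_26_wN_1_rb803308114a02x2_0 := p_wQ_26_wN_1_rb803308114a02x2_0

theorem g__wQ_26_wN_1_rb803308114a02x2_2 : GoodKC AS k_wQ_26_wN_1_rb803308114a02x2_2 := p_wQ_26_wN_1_rb803308114a02x2_2

theorem g__wQ_26_wN_1_rb803308114a02x2_3 : GoodKC AS k_wQ_26_wN_1_rb803308114a02x2_3 := p_wQ_26_wN_1_rb803308114a02x2_3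

theorem g__wQ_26_wN_1_rb803308114a02x2_4 : GoodKC AS k_wQ_26_wN_1_rb803308114a02x2_4 := p_wQ_26_wN_1_rb803308114a02x2_4

theorem g__wQ_26_wN_1_rb803308114a02x2_1 : GoodKC AS k_wQ_26_wN_1_rb803308114a02x2_1 := p_wQ_26_wN_1_rb803308114a02x2_1 g__wQ_26_wN_1_rb803308114a02x2_2 g__wQ_26_wN_1_rb803308114a02x2_3 g__wQ_26_wN_1_rb803308114a02x2_4

theorem g_wQ_26_wN_1_rb803308114a02x2 : GoodKC AS c_wQ_26_wN_1_rb803308114a02x2 := p_wQ_26_wN_1_rb803308114a02x2 g__wQ_26_wN_1_rb803308114a02x2_0 g__wQ_26_wN_1_rb803308114a02x2_1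

theorem g__wQ_26_wN_1_rb803308114a01x2_1 : GoodKC AS k_wQ_26_wN_1_rb803308114a01x2_1 := p_wQ_26_wN_1_rb803308114a01x2_1

theorem g__wQ_26_wN_1_rb803308114a01x2_0 : GoodKC AS k_wQ_26_wN_1_rb803308114a01x2_0 := p_wQ_26_wN_1_rb803308114a01x2_0 g__wQ_26_wN_1_rb803308114a01x2_1

theorem g__wQ_26_wN_1_rb803308114a01x2_2 : GoodKC AS k_wQ_26_wN_1_rb803308114a01x2_2 := p_wQ_26_wN_1_rb803308114a01x2_2

theorem g__wQ_26_wN_1_rb803308114a01x2_7 : GoodKC AS k_wQ_26_wN_1_rb803308114a01x2_7 := p_wQ_26_wN_1_rb803308114a01x2_7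

theorem g__wQ_26_wN_1_rb803308114a01x2_8 : GoodKC AS k_wQ_26_wN_1_rb803308114a01x2_8 := p_wQ_26_wN_1_rb803308114a01x2_8

theorem g__wQ_26_wN_1_rb803308114a01x2_10 : GoodKC AS k_wQ_26_wN_1_rb803308114a01x2_10 := p_wQ_26_wN_1_rb803308114a01x2_10

theorem g__wQ_26_wN_1_rb803308114a01x2_12 : GoodKC AS k_wQ_26_wN_1_rb803308114a01x2_12 := p_wQ_26_wN_1_rb803308114a01x2_12

theorem g__wQ_26_wN_1_rb803308114a01x2_13 : GoodKC AS k_wQ_26_wN_1_rb803308114a01x2_13 := p_wQ_26_wN_1_rb803308114a01x2_13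

theorem g__wQ_26_wN_1_rb803308114a01x2_11 : GoodKC AS k_wQ_26_wN_1_rb803308114a01x2_11 := p_wQ_26_wN_1_rb803308114a01x2_11 g__wQ_26_wN_1_rb803308114a01x2_12 g__wQ_26_wN_1_rb803308114a01x2_13

theorem g__wQ_26_wN_1_rb803308114a01x2_9 : GoodKC AS k_wQ_26_wN_1_rb803308114a01x2_9 := p_wQ_26_wN_1_rb803308114a01x2_9 g__wQ_26_wN_1_rb803308114a01x2_10 g__wQ_26_wN_1_rb803308114a01x2_11

theorem g__wQ_26_wN_1_rb803308114a01x2_17 : GoodKC AS k_wQ_26_wN_1_rb803308114a01x2_17 := p_wQ_26_wN_1_rb803308114a01x2_17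

theorem g__wQ_26_wN_1_rb803308114a01x2_16 : GoodKC AS k_wQ_26_wN_1_rb803308114a01x2_16 := p_wQ_26_wN_1_rb803308114a01x2_16 g__wQ_26_wN_1_rb803308114a01x2_17

theorem g__wQ_26_wN_1_rb803308114a01x2_15 : GoodKC AS k_wQ_26_wN_1_rb803308114a01x2_15 := p_wQ_26_wN_1_rb803308114a01x2_15 g__wQ_26_wN_1_rb803308114a01x2_16

theorem g__wQ_26_wN_1_rb803308114a01x2_14 : GoodKC AS k_wQ_26_wN_1_rb803308114a01x2_14 := p_wQ_26_wN_1_rb803308114a01x2_14 g__wQ_26_wN_1_rb803308114a01x2_15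

theorem g__wQ_26_wN_1_rb803308114a01x2_6 : GoodKC AS k_wQ_26_wN_1_rb803308114a01x2_6 := p_wQ_26_wN_1_rb803308114a01x2_6 g__wQ_26_wN_1_rb803308114a01x2_7 g__wQ_26_wN_1_rb803308114a01x2_8 g__wQ_26_wN_1_rb803308114a01x2_9 g__wQ_26_wN_1_rb803308114a01x2_14

theorem g__wQ_26_wN_1_rb803308114a01x2_5 : GoodKC AS k_wQ_26_wN_1_rb803308114a01x2_5 := p_wQ_26_wN_1_rb803308114a01x2_5 g__wQ_26_wN_1_rb803308114a01x2_6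

theorem g__wQ_26_wN_1_rb803308114a01x2_4 : GoodKC AS k_wQ_26_wN_1_rb803308114a01x2_4 := p_wQ_26_wN_1_rb803308114a01x2_4 g__wQ_26_wN_1_rb803308114a01x2_5

theorem g__wQ_26_wN_1_rb803308114a01x2_3 : GoodKC AS k_wQ_26_wN_1_rb803308114a01x2_3 := p_wQ_26_wN_1_rb803308114a01x2_3 g__wQ_26_wN_1_rb803308114a01x2_4

theorem g_wQ_26_wN_1_rb803308114a01x2 : GoodKC AS c_wQ_26_wN_1_rb803308114a01x2 := p_wQ_26_wN_1_rb803308114a01x2 g__wQ_26_wN_1_rb803308114a01x2_0 g__wQ_26_wN_1_rb803308114a01x2_2 g__wQ_26_wN_1_rb803308114a01x2_3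

theorem g__wQ_26_wN_1_rb803308114a00v2_0 : GoodKC AS k_wQ_26_wN_1_rb803308114a00v2_0 := p_wQ_26_wN_1_rb803308114a00v2_0

theorem g__wQ_26_wN_1_rb803308114a00v2_2 : GoodKC AS k_wQ_26_wN_1_rb803308114a00v2_2 := p_wQ_26_wN_1_rb803308114a00v2_2

theorem g__wQ_26_wN_1_rb803308114a00v2_1 : GoodKC AS k_wQ_26_wN_1_rb803308114a00v2_1 := p_wQ_26_wN_1_rb803308114a00v2_1 g__wQ_26_wN_1_rb803308114a00v2_2

theorem g_wQ_26_wN_1_rb803308114a00x2 : GoodKC AS c_wQ_26_wN_1_rb803308114a00x2 := p_wQ_26_wN_1_rb803308114a00x2 g__wQ_26_wN_1_rb803308114a00v2_0 g__wQ_26_wN_1_rb803308114a00v2_1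

theorem g__wQ_26_wN_1_rb803308114ax2_2 : GoodKC AS k_wQ_26_wN_1_rb803308114ax2_2 := p_wQ_26_wN_1_rb803308114ax2_2

theorem g__wQ_26_wN_1_rb803308114ax2_4 : GoodKC AS k_wQ_26_wN_1_rb803308114ax2_4 := p_wQ_26_wN_1_rb803308114ax2_4

theorem g__wQ_26_wN_1_rb803308114ax2_7 : GoodKC AS k_wQ_26_wN_1_rb803308114ax2_7 := p_wQ_26_wN_1_rb803308114ax2_7

theorem g__wQ_26_wN_1_rb803308114ax2_6 : GoodKC AS k_wQ_26_wN_1_rb803308114ax2_6 := p_wQ_26_wN_1_rb803308114ax2_6 g__wQ_26_wN_1_rb803308114ax2_7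

theorem g__wQ_26_wN_1_rb803308114ax2_5 : GoodKC AS k_wQ_26_wN_1_rb803308114ax2_5 := p_wQ_26_wN_1_rb803308114ax2_5 g__wQ_26_wN_1_rb803308114ax2_6

theorem g__wQ_26_wN_1_rb803308114ax2_3 : GoodKC AS k_wQ_26_wN_1_rb803308114ax2_3 := p_wQ_26_wN_1_rb803308114ax2_3 g__wQ_26_wN_1_rb803308114ax2_4 g__wQ_26_wN_1_rb803308114ax2_5

theorem g__wQ_26_wN_1_rb803308114ax2_1 : GoodKC AS k_wQ_26_wN_1_rb803308114ax2_1 := p_wQ_26_wN_1_rb803308114ax2_1 g__wQ_26_wN_1_rb803308114ax2_2 g__wQ_26_wN_1_rb803308114ax2_3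

theorem g__wQ_26_wN_1_rb803308114ax2_10 : GoodKC AS k_wQ_26_wN_1_rb803308114ax2_10 := p_wQ_26_wN_1_rb803308114ax2_10

theorem g__wQ_26_wN_1_rb803308114ax2_17 : GoodKC AS k_wQ_26_wN_1_rb803308114ax2_17 := p_wQ_26_wN_1_rb803308114ax2_17

theorem g__wQ_26_wN_1_rb803308114ax2_16 : GoodKC AS k_wQ_26_wN_1_rb803308114ax2_16 := p_wQ_26_wN_1_rb803308114ax2_16 g__wQ_26_wN_1_rb803308114ax2_17

theorem g__wQ_26_wN_1_rb803308114ax2_15 : GoodKC AS k_wQ_26_wN_1_rb803308114ax2_15 := p_wQ_26_wN_1_rb803308114ax2_15 g__wQ_26_wN_1_rb803308114ax2_16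

theorem g__wQ_26_wN_1_rb803308114ax2_14 : GoodKC AS k_wQ_26_wN_1_rb803308114ax2_14 := p_wQ_26_wN_1_rb803308114ax2_14 g__wQ_26_wN_1_rb803308114ax2_15

theorem g__wQ_26_wN_1_rb803308114ax2_13 : GoodKC AS k_wQ_26_wN_1_rb803308114ax2_13 := p_wQ_26_wN_1_rb803308114ax2_13 g__wQ_26_wN_1_rb803308114ax2_14

theorem g__wQ_26_wN_1_rb803308114ax2_18 : GoodKC AS k_wQ_26_wN_1_rb803308114ax2_18 := p_wQ_26_wN_1_rb803308114ax2_18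

theorem g__wQ_26_wN_1_rb803308114ax2_12 : GoodKC AS k_wQ_26_wN_1_rb803308114ax2_12 := p_wQ_26_wN_1_rb803308114ax2_12 g__wQ_26_wN_1_rb803308114ax2_13 g__wQ_26_wN_1_rb803308114ax2_18

theorem g__wQ_26_wN_1_rb803308114ax2_20 : GoodKC AS k_wQ_26_wN_1_rb803308114ax2_20 := p_wQ_26_wN_1_rb803308114ax2_20

theorem g__wQ_26_wN_1_rb803308114ax2_23 : GoodKC AS k_wQ_26_wN_1_rb803308114ax2_23 := p_wQ_26_wN_1_rb803308114ax2_23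

theorem g__wQ_26_wN_1_rb803308114ax2_22 : GoodKC AS k_wQ_26_wN_1_rb803308114ax2_22 := p_wQ_26_wN_1_rb803308114ax2_22 g__wQ_26_wN_1_rb803308114ax2_23

theorem g__wQ_26_wN_1_rb803308114ax2_21 : GoodKC AS k_wQ_26_wN_1_rb803308114ax2_21 := p_wQ_26_wN_1_rb803308114ax2_21 g__wQ_26_wN_1_rb803308114ax2_22

theorem g__wQ_26_wN_1_rb803308114ax2_19 : GoodKC AS k_wQ_26_wN_1_rb803308114ax2_19 := p_wQ_26_wN_1_rb803308114ax2_19 g__wQ_26_wN_1_rb803308114ax2_20 g__wQ_26_wN_1_rb803308114ax2_21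

theorem g__wQ_26_wN_1_rb803308114ax2_27 : GoodKC AS k_wQ_26_wN_1_rb803308114ax2_27 := p_wQ_26_wN_1_rb803308114ax2_27

theorem g__wQ_26_wN_1_rb803308114ax2_26 : GoodKC AS k_wQ_26_wN_1_rb803308114ax2_26 := p_wQ_26_wN_1_rb803308114ax2_26 g__wQ_26_wN_1_rb803308114ax2_27

theorem g__wQ_26_wN_1_rb803308114ax2_28 : GoodKC AS k_wQ_26_wN_1_rb803308114ax2_28 := p_wQ_26_wN_1_rb803308114ax2_28

theorem g__wQ_26_wN_1_rb803308114ax2_30 : GoodKC AS k_wQ_26_wN_1_rb803308114ax2_30 := p_wQ_26_wN_1_rb803308114ax2_30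

theorem g__wQ_26_wN_1_rb803308114ax2_29 : GoodKC AS k_wQ_26_wN_1_rb803308114ax2_29 := p_wQ_26_wN_1_rb803308114ax2_29 g__wQ_26_wN_1_rb803308114ax2_30

theorem g__wQ_26_wN_1_rb803308114ax2_25 : GoodKC AS k_wQ_26_wN_1_rb803308114ax2_25 := p_wQ_26_wN_1_rb803308114ax2_25 g__wQ_26_wN_1_rb803308114ax2_26 g__wQ_26_wN_1_rb803308114ax2_28 g__wQ_26_wN_1_rb803308114ax2_29

theorem g__wQ_26_wN_1_rb803308114ax2_24 : GoodKC AS k_wQ_26_wN_1_rb803308114ax2_24 := p_wQ_26_wN_1_rb803308114ax2_24 g__wQ_26_wN_1_rb803308114ax2_25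

theorem g__wQ_26_wN_1_rb803308114ax2_11 : GoodKC AS k_wQ_26_wN_1_rb803308114ax2_11 := p_wQ_26_wN_1_rb803308114ax2_11 g__wQ_26_wN_1_rb803308114ax2_12 g__wQ_26_wN_1_rb803308114ax2_19 g__wQ_26_wN_1_rb803308114ax2_24

theorem g__wQ_26_wN_1_rb803308114ax2_9 : GoodKC AS k_wQ_26_wN_1_rb803308114ax2_9 := p_wQ_26_wN_1_rb803308114ax2_9 g__wQ_26_wN_1_rb803308114ax2_10 g__wQ_26_wN_1_rb803308114ax2_11

theorem g__wQ_26_wN_1_rb803308114ax2_31 : GoodKC AS k_wQ_26_wN_1_rb803308114ax2_31 := p_wQ_26_wN_1_rb803308114ax2_31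

theorem g__wQ_26_wN_1_rb803308114ax2_8 : GoodKC AS k_wQ_26_wN_1_rb803308114ax2_8 := p_wQ_26_wN_1_rb803308114ax2_8 g__wQ_26_wN_1_rb803308114ax2_9 g__wQ_26_wN_1_rb803308114ax2_31

theorem g__wQ_26_wN_1_rb803308114ax2_0 : GoodKC AS k_wQ_26_wN_1_rb803308114ax2_0 := p_wQ_26_wN_1_rb803308114ax2_0 g_wQ_26_wN_1_rb803308114a01x2 g_wQ_26_wN_1_rb803308114a00x2 g__wQ_26_wN_1_rb803308114ax2_1 g__wQ_26_wN_1_rb803308114ax2_8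

theorem g_wQ_26_wN_1_rb803308114ax3 : GoodKC AS c_wQ_26_wN_1_rb803308114ax3 := p_wQ_26_wN_1_rb803308114ax2 g_wQ_26_wN_1_rb803308114a02x2 g__wQ_26_wN_1_rb803308114ax2_0

theorem g_wQ_26_wN_1_rb803308114cx3 : GoodKC AS c_wQ_26_wN_1_rb803308114cx3 := p_wQ_26_wN_1_rb803308114cx3

theorem g_wQ_26_wN_1_rb803308115041x2 : GoodKC AS c_wQ_26_wN_1_rb803308115041x2 := p_wQ_26_wN_1_rb803308115041x2

theorem g_wQ_26_wN_1_rb803308115040x2 : GoodKC AS c_wQ_26_wN_1_rb803308115040x2 := p_wQ_26_wN_1_rb803308115040x2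

theorem g__wQ_26_wN_1_rb80330811503ex2_1 : GoodKC AS k_wQ_26_wN_1_rb80330811503ex2_1 := p_wQ_26_wN_1_rb80330811503ex2_1

theorem g__wQ_26_wN_1_rb80330811503ex2_2 : GoodKC AS k_wQ_26_wN_1_rb80330811503ex2_2 := p_wQ_26_wN_1_rb80330811503ex2_2

theorem g__wQ_26_wN_1_rb80330811503ex2_0 : GoodKC AS k_wQ_26_wN_1_rb80330811503ex2_0 := p_wQ_26_wN_1_rb80330811503ex2_0 g__wQ_26_wN_1_rb80330811503ex2_1 g__wQ_26_wN_1_rb80330811503ex2_2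

theorem g__wQ_26_wN_1_rb80330811503ex2_4 : GoodKC AS k_wQ_26_wN_1_rb80330811503ex2_4 := p_wQ_26_wN_1_rb80330811503ex2_4

theorem g__wQ_26_wN_1_rb80330811503ex2_7 : GoodKC AS k_wQ_26_wN_1_rb80330811503ex2_7 := p_wQ_26_wN_1_rb80330811503ex2_7

theorem g__wQ_26_wN_1_rb80330811503ex2_6 : GoodKC AS k_wQ_26_wN_1_rb80330811503ex2_6 := p_wQ_26_wN_1_rb80330811503ex2_6 g__wQ_26_wN_1_rb80330811503ex2_7

theorem g__wQ_26_wN_1_rb80330811503ex2_5 : GoodKC AS k_wQ_26_wN_1_rb80330811503ex2_5 := p_wQ_26_wN_1_rb80330811503ex2_5 g__wQ_26_wN_1_rb80330811503ex2_6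

theorem g__wQ_26_wN_1_rb80330811503ex2_3 : GoodKC AS k_wQ_26_wN_1_rb80330811503ex2_3 := p_wQ_26_wN_1_rb80330811503ex2_3 g__wQ_26_wN_1_rb80330811503ex2_4 g__wQ_26_wN_1_rb80330811503ex2_5

theorem g_wQ_26_wN_1_rb80330811503ex2 : GoodKC AS c_wQ_26_wN_1_rb80330811503ex2 := p_wQ_26_wN_1_rb80330811503ex2 g__wQ_26_wN_1_rb80330811503ex2_0 g__wQ_26_wN_1_rb80330811503ex2_3

theorem g__wQ_26_wN_1_rb80330811503cx2_0 : GoodKC AS k_wQ_26_wN_1_rb80330811503cx2_0 := p_wQ_26_wN_1_rb80330811503cx2_0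

theorem g_wQ_26_wN_1_rb80330811503cx2 : GoodKC AS c_wQ_26_wN_1_rb80330811503cx2 := p_wQ_26_wN_1_rb80330811503cx2 g__wQ_26_wN_1_rb80330811503cx2_0

theorem g__wQ_26_wN_1_rb803308115039x2_3 : GoodKC AS k_wQ_26_wN_1_rb803308115039x2_3 := p_wQ_26_wN_1_rb803308115039x2_3

theorem g__wQ_26_wN_1_rb803308115039x2_5 : GoodKC AS k_wQ_26_wN_1_rb803308115039x2_5 := p_wQ_26_wN_1_rb803308115039x2_5

theorem g__wQ_26_wN_1_rb803308115039x2_9 : GoodKC AS k_wQ_26_wN_1_rb803308115039x2_9 := p_wQ_26_wN_1_rb803308115039x2_9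

theorem g__wQ_26_wN_1_rb803308115039x2_8 : GoodKC AS k_wQ_26_wN_1_rb803308115039x2_8 := p_wQ_26_wN_1_rb803308115039x2_8 g__wQ_26_wN_1_rb803308115039x2_9

theorem g__wQ_26_wN_1_rb803308115039x2_7 : GoodKC AS k_wQ_26_wN_1_rb803308115039x2_7 := p_wQ_26_wN_1_rb803308115039x2_7 g__wQ_26_wN_1_rb803308115039x2_8

theorem g__wQ_26_wN_1_rb803308115039x2_6 : GoodKC AS k_wQ_26_wN_1_rb803308115039x2_6 := p_wQ_26_wN_1_rb803308115039x2_6 g__wQ_26_wN_1_rb803308115039x2_7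

theorem g__wQ_26_wN_1_rb803308115039x2_4 : GoodKC AS k_wQ_26_wN_1_rb803308115039x2_4 := p_wQ_26_wN_1_rb803308115039x2_4 g__wQ_26_wN_1_rb803308115039x2_5 g__wQ_26_wN_1_rb803308115039x2_6

theorem g__wQ_26_wN_1_rb803308115039x2_2 : GoodKC AS k_wQ_26_wN_1_rb803308115039x2_2 := p_wQ_26_wN_1_rb803308115039x2_2 g__wQ_26_wN_1_rb803308115039x2_3 g__wQ_26_wN_1_rb803308115039x2_4

theorem g__wQ_26_wN_1_rb803308115039x2_1 : GoodKC AS k_wQ_26_wN_1_rb803308115039x2_1 := p_wQ_26_wN_1_rb803308115039x2_1 g__wQ_26_wN_1_rb803308115039x2_2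

theorem g__wQ_26_wN_1_rb803308115039x2_0 : GoodKC AS k_wQ_26_wN_1_rb803308115039x2_0 := p_wQ_26_wN_1_rb803308115039x2_0 g__wQ_26_wN_1_rb803308115039x2_1

theorem g_wQ_26_wN_1_rb803308115039x2 : GoodKC AS c_wQ_26_wN_1_rb803308115039x2 := p_wQ_26_wN_1_rb803308115039x2 g__wQ_26_wN_1_rb803308115039x2_0

theorem g__wQ_26_wN_1_rb803308115037x2_4 : GoodKC AS k_wQ_26_wN_1_rb803308115037x2_4 := p_wQ_26_wN_1_rb803308115037x2_4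

theorem g__wQ_26_wN_1_rb803308115037x2_3 : GoodKC AS k_wQ_26_wN_1_rb803308115037x2_3 := p_wQ_26_wN_1_rb803308115037x2_3 g__wQ_26_wN_1_rb803308115037x2_4

theorem g__wQ_26_wN_1_rb803308115037x2_2 : GoodKC AS k_wQ_26_wN_1_rb803308115037x2_2 := p_wQ_26_wN_1_rb803308115037x2_2 g__wQ_26_wN_1_rb803308115037x2_3

theorem g__wQ_26_wN_1_rb803308115037x2_1 : GoodKC AS k_wQ_26_wN_1_rb803308115037x2_1 := p_wQ_26_wN_1_rb803308115037x2_1 g__wQ_26_wN_1_rb803308115037x2_2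

theorem g__wQ_26_wN_1_rb803308115037x2_6 : GoodKC AS k_wQ_26_wN_1_rb803308115037x2_6 := p_wQ_26_wN_1_rb803308115037x2_6

theorem g__wQ_26_wN_1_rb803308115037x2_7 : GoodKC AS k_wQ_26_wN_1_rb803308115037x2_7 := p_wQ_26_wN_1_rb803308115037x2_7

theorem g__wQ_26_wN_1_rb803308115037x2_5 : GoodKC AS k_wQ_26_wN_1_rb803308115037x2_5 := p_wQ_26_wN_1_rb803308115037x2_5 g__wQ_26_wN_1_rb803308115037x2_6 g__wQ_26_wN_1_rb803308115037x2_7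

theorem g__wQ_26_wN_1_rb803308115037x2_0 : GoodKC AS k_wQ_26_wN_1_rb803308115037x2_0 := p_wQ_26_wN_1_rb803308115037x2_0 g__wQ_26_wN_1_rb803308115037x2_1 g__wQ_26_wN_1_rb803308115037x2_5

theorem g_wQ_26_wN_1_rb803308115037x2 : GoodKC AS c_wQ_26_wN_1_rb803308115037x2 := p_wQ_26_wN_1_rb803308115037x2 g__wQ_26_wN_1_rb803308115037x2_0

theorem g_wQ_26_wN_1_rb803308115035x2 : GoodKC AS c_wQ_26_wN_1_rb803308115035x2 := p_wQ_26_wN_1_rb803308115035x2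

theorem g__wQ_26_wN_1_rb803308115034x2_1 : GoodKC AS k_wQ_26_wN_1_rb803308115034x2_1 := p_wQ_26_wN_1_rb803308115034x2_1

theorem g__wQ_26_wN_1_rb803308115034x2_3 : GoodKC AS k_wQ_26_wN_1_rb803308115034x2_3 := p_wQ_26_wN_1_rb803308115034x2_3

theorem g__wQ_26_wN_1_rb803308115034x2_5 : GoodKC AS k_wQ_26_wN_1_rb803308115034x2_5 := p_wQ_26_wN_1_rb803308115034x2_5

theorem g__wQ_26_wN_1_rb803308115034x2_4 : GoodKC AS k_wQ_26_wN_1_rb803308115034x2_4 := p_wQ_26_wN_1_rb803308115034x2_4 g__wQ_26_wN_1_rb803308115034x2_5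

theorem g__wQ_26_wN_1_rb803308115034x2_2 : GoodKC AS k_wQ_26_wN_1_rb803308115034x2_2 := p_wQ_26_wN_1_rb803308115034x2_2 g__wQ_26_wN_1_rb803308115034x2_3 g__wQ_26_wN_1_rb803308115034x2_4

theorem g__wQ_26_wN_1_rb803308115034x2_8 : GoodKC AS k_wQ_26_wN_1_rb803308115034x2_8 := p_wQ_26_wN_1_rb803308115034x2_8

theorem g__wQ_26_wN_1_rb803308115034x2_7 : GoodKC AS k_wQ_26_wN_1_rb803308115034x2_7 := p_wQ_26_wN_1_rb803308115034x2_7 g__wQ_26_wN_1_rb803308115034x2_8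

theorem g__wQ_26_wN_1_rb803308115034x2_13 : GoodKC AS k_wQ_26_wN_1_rb803308115034x2_13 := p_wQ_26_wN_1_rb803308115034x2_13

theorem g__wQ_26_wN_1_rb803308115034x2_12 : GoodKC AS k_wQ_26_wN_1_rb803308115034x2_12 := p_wQ_26_wN_1_rb803308115034x2_12 g__wQ_26_wN_1_rb803308115034x2_13

theorem g__wQ_26_wN_1_rb803308115034x2_11 : GoodKC AS k_wQ_26_wN_1_rb803308115034x2_11 := p_wQ_26_wN_1_rb803308115034x2_11 g__wQ_26_wN_1_rb803308115034x2_12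

theorem g__wQ_26_wN_1_rb803308115034x2_15 : GoodKC AS k_wQ_26_wN_1_rb803308115034x2_15 := p_wQ_26_wN_1_rb803308115034x2_15

theorem g__wQ_26_wN_1_rb803308115034x2_17 : GoodKC AS k_wQ_26_wN_1_rb803308115034x2_17 := p_wQ_26_wN_1_rb803308115034x2_17

theorem g__wQ_26_wN_1_rb803308115034x2_16 : GoodKC AS k_wQ_26_wN_1_rb803308115034x2_16 := p_wQ_26_wN_1_rb803308115034x2_16 g__wQ_26_wN_1_rb803308115034x2_17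

theorem g__wQ_26_wN_1_rb803308115034x2_14 : GoodKC AS k_wQ_26_wN_1_rb803308115034x2_14 := p_wQ_26_wN_1_rb803308115034x2_14 g__wQ_26_wN_1_rb803308115034x2_15 g__wQ_26_wN_1_rb803308115034x2_16

theorem g__wQ_26_wN_1_rb803308115034x2_10 : GoodKC AS k_wQ_26_wN_1_rb803308115034x2_10 := p_wQ_26_wN_1_rb803308115034x2_10 g__wQ_26_wN_1_rb803308115034x2_11 g__wQ_26_wN_1_rb803308115034x2_14

theorem g__wQ_26_wN_1_rb803308115034x2_9 : GoodKC AS k_wQ_26_wN_1_rb803308115034x2_9 := p_wQ_26_wN_1_rb803308115034x2_9 g__wQ_26_wN_1_rb803308115034x2_10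

theorem g__wQ_26_wN_1_rb803308115034x2_6 : GoodKC AS k_wQ_26_wN_1_rb803308115034x2_6 := p_wQ_26_wN_1_rb803308115034x2_6 g__wQ_26_wN_1_rb803308115034x2_7 g__wQ_26_wN_1_rb803308115034x2_9

theorem g__wQ_26_wN_1_rb803308115034x2_0 : GoodKC AS k_wQ_26_wN_1_rb803308115034x2_0 := p_wQ_26_wN_1_rb803308115034x2_0 g__wQ_26_wN_1_rb803308115034x2_1 g__wQ_26_wN_1_rb803308115034x2_2 g__wQ_26_wN_1_rb803308115034x2_6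

theorem g__wQ_26_wN_1_rb803308115034x2_18 : GoodKC AS k_wQ_26_wN_1_rb803308115034x2_18 := p_wQ_26_wN_1_rb803308115034x2_18

theorem g_wQ_26_wN_1_rb803308115034x2 : GoodKC AS c_wQ_26_wN_1_rb803308115034x2 := p_wQ_26_wN_1_rb803308115034x2 g__wQ_26_wN_1_rb803308115034x2_0 g__wQ_26_wN_1_rb803308115034x2_18

theorem g_wQ_26_wN_1_rb803308115031x2 : GoodKC AS c_wQ_26_wN_1_rb803308115031x2 := p_wQ_26_wN_1_rb803308115031x2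

theorem g__wQ_26_wN_1_rb80330811502fx2_1 : GoodKC AS k_wQ_26_wN_1_rb80330811502fx2_1 := p_wQ_26_wN_1_rb80330811502fx2_1

theorem g__wQ_26_wN_1_rb80330811502fx2_2 : GoodKC AS k_wQ_26_wN_1_rb80330811502fx2_2 := p_wQ_26_wN_1_rb80330811502fx2_2

theorem g__wQ_26_wN_1_rb80330811502fx2_0 : GoodKC AS k_wQ_26_wN_1_rb80330811502fx2_0 := p_wQ_26_wN_1_rb80330811502fx2_0 g__wQ_26_wN_1_rb80330811502fx2_1 g__wQ_26_wN_1_rb80330811502fx2_2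

theorem g_wQ_26_wN_1_rb80330811502fx2 : GoodKC AS c_wQ_26_wN_1_rb80330811502fx2 := p_wQ_26_wN_1_rb80330811502fx2 g__wQ_26_wN_1_rb80330811502fx2_0

theorem g__wQ_26_wN_1_rb80330811502e02x2_0 : GoodKC AS k_wQ_26_wN_1_rb80330811502e02x2_0 := p_wQ_26_wN_1_rb80330811502e02x2_0

theorem g__wQ_26_wN_1_rb80330811502e02x2_3 : GoodKC AS k_wQ_26_wN_1_rb80330811502e02x2_3 := p_wQ_26_wN_1_rb80330811502e02x2_3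

theorem g__wQ_26_wN_1_rb80330811502e02x2_2 : GoodKC AS k_wQ_26_wN_1_rb80330811502e02x2_2 := p_wQ_26_wN_1_rb80330811502e02x2_2 g__wQ_26_wN_1_rb80330811502e02x2_3

theorem g__wQ_26_wN_1_rb80330811502e02x2_1 : GoodKC AS k_wQ_26_wN_1_rb80330811502e02x2_1 := p_wQ_26_wN_1_rb80330811502e02x2_1 g__wQ_26_wN_1_rb80330811502e02x2_2

theorem g__wQ_26_wN_1_rb80330811502e02x2_4 : GoodKC AS k_wQ_26_wN_1_rb80330811502e02x2_4 := p_wQ_26_wN_1_rb80330811502e02x2_4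

theorem g_wQ_26_wN_1_rb80330811502e02x2 : GoodKC AS c_wQ_26_wN_1_rb80330811502e02x2 := p_wQ_26_wN_1_rb80330811502e02x2 g__wQ_26_wN_1_rb80330811502e02x2_0 g__wQ_26_wN_1_rb80330811502e02x2_1 g__wQ_26_wN_1_rb80330811502e02x2_4

theorem g__wQ_26_wN_1_rb80330811502ex2_2 : GoodKC AS k_wQ_26_wN_1_rb80330811502ex2_2 := p_wQ_26_wN_1_rb80330811502ex2_2

theorem g__wQ_26_wN_1_rb80330811502ex2_1 : GoodKC AS k_wQ_26_wN_1_rb80330811502ex2_1 := p_wQ_26_wN_1_rb80330811502ex2_1 g__wQ_26_wN_1_rb80330811502ex2_2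

theorem g__wQ_26_wN_1_rb80330811502ex2_4 : GoodKC AS k_wQ_26_wN_1_rb80330811502ex2_4 := p_wQ_26_wN_1_rb80330811502ex2_4

theorem g__wQ_26_wN_1_rb80330811502ex2_6 : GoodKC AS k_wQ_26_wN_1_rb80330811502ex2_6 := p_wQ_26_wN_1_rb80330811502ex2_6

theorem g__wQ_26_wN_1_rb80330811502ex2_7 : GoodKC AS k_wQ_26_wN_1_rb80330811502ex2_7 := p_wQ_26_wN_1_rb80330811502ex2_7

theorem g__wQ_26_wN_1_rb80330811502ex2_5 : GoodKC AS k_wQ_26_wN_1_rb80330811502ex2_5 := p_wQ_26_wN_1_rb80330811502ex2_5 g__wQ_26_wN_1_rb80330811502ex2_6 g__wQ_26_wN_1_rb80330811502ex2_7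

theorem g__wQ_26_wN_1_rb80330811502ex2_3 : GoodKC AS k_wQ_26_wN_1_rb80330811502ex2_3 := p_wQ_26_wN_1_rb80330811502ex2_3 g__wQ_26_wN_1_rb80330811502ex2_4 g__wQ_26_wN_1_rb80330811502ex2_5

theorem g__wQ_26_wN_1_rb80330811502ex2_0 : GoodKC AS k_wQ_26_wN_1_rb80330811502ex2_0 := p_wQ_26_wN_1_rb80330811502ex2_0 g__wQ_26_wN_1_rb80330811502ex2_1 g__wQ_26_wN_1_rb80330811502ex2_3

theorem g__wQ_26_wN_1_rb80330811502ex2_9 : GoodKC AS k_wQ_26_wN_1_rb80330811502ex2_9 := p_wQ_26_wN_1_rb80330811502ex2_9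

theorem g__wQ_26_wN_1_rb80330811502ex2_8 : GoodKC AS k_wQ_26_wN_1_rb80330811502ex2_8 := p_wQ_26_wN_1_rb80330811502ex2_8 g__wQ_26_wN_1_rb80330811502ex2_9

theorem g__wQ_26_wN_1_rb80330811502e00v2_0 : GoodKC AS k_wQ_26_wN_1_rb80330811502e00v2_0 := p_wQ_26_wN_1_rb80330811502e00v2_0

theorem g__wQ_26_wN_1_rb80330811502e00v2_1 : GoodKC AS k_wQ_26_wN_1_rb80330811502e00v2_1 := p_wQ_26_wN_1_rb80330811502e00v2_1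

theorem g_wQ_26_wN_1_rb80330811502e00x2 : GoodKC AS c_wQ_26_wN_1_rb80330811502e00x2 := p_wQ_26_wN_1_rb80330811502e00x2 g__wQ_26_wN_1_rb80330811502e00v2_0 g__wQ_26_wN_1_rb80330811502e00v2_1

theorem g__wQ_26_wN_1_rb80330811502ex2_11 : GoodKC AS k_wQ_26_wN_1_rb80330811502ex2_11 := p_wQ_26_wN_1_rb80330811502ex2_11

theorem g__wQ_26_wN_1_rb80330811502ex2_14 : GoodKC AS k_wQ_26_wN_1_rb80330811502ex2_14 := p_wQ_26_wN_1_rb80330811502ex2_14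

theorem g__wQ_26_wN_1_rb80330811502ex2_16 : GoodKC AS k_wQ_26_wN_1_rb80330811502ex2_16 := p_wQ_26_wN_1_rb80330811502ex2_16

theorem g__wQ_26_wN_1_rb80330811502ex2_15 : GoodKC AS k_wQ_26_wN_1_rb80330811502ex2_15 := p_wQ_26_wN_1_rb80330811502ex2_15 g__wQ_26_wN_1_rb80330811502ex2_16

theorem g__wQ_26_wN_1_rb80330811502ex2_17 : GoodKC AS k_wQ_26_wN_1_rb80330811502ex2_17 := p_wQ_26_wN_1_rb80330811502ex2_17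

theorem g__wQ_26_wN_1_rb80330811502ex2_13 : GoodKC AS k_wQ_26_wN_1_rb80330811502ex2_13 := p_wQ_26_wN_1_rb80330811502ex2_13 g__wQ_26_wN_1_rb80330811502ex2_14 g__wQ_26_wN_1_rb80330811502ex2_15 g__wQ_26_wN_1_rb80330811502ex2_17

theorem g__wQ_26_wN_1_rb80330811502ex2_21 : GoodKC AS k_wQ_26_wN_1_rb80330811502ex2_21 := p_wQ_26_wN_1_rb80330811502ex2_21

theorem g__wQ_26_wN_1_rb80330811502ex2_20 : GoodKC AS k_wQ_26_wN_1_rb80330811502ex2_20 := p_wQ_26_wN_1_rb80330811502ex2_20 g__wQ_26_wN_1_rb80330811502ex2_21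

theorem g__wQ_26_wN_1_rb80330811502ex2_19 : GoodKC AS k_wQ_26_wN_1_rb80330811502ex2_19 := p_wQ_26_wN_1_rb80330811502ex2_19 g__wQ_26_wN_1_rb80330811502ex2_20

theorem g__wQ_26_wN_1_rb80330811502ex2_18 : GoodKC AS k_wQ_26_wN_1_rb80330811502ex2_18 := p_wQ_26_wN_1_rb80330811502ex2_18 g__wQ_26_wN_1_rb80330811502ex2_19

theorem g__wQ_26_wN_1_rb80330811502ex2_22 : GoodKC AS k_wQ_26_wN_1_rb80330811502ex2_22 := p_wQ_26_wN_1_rb80330811502ex2_22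

theorem g__wQ_26_wN_1_rb80330811502ex2_26 : GoodKC AS k_wQ_26_wN_1_rb80330811502ex2_26 := p_wQ_26_wN_1_rb80330811502ex2_26

theorem g__wQ_26_wN_1_rb80330811502ex2_25 : GoodKC AS k_wQ_26_wN_1_rb80330811502ex2_25 := p_wQ_26_wN_1_rb80330811502ex2_25 g__wQ_26_wN_1_rb80330811502ex2_26

theorem g__wQ_26_wN_1_rb80330811502ex2_24 : GoodKC AS k_wQ_26_wN_1_rb80330811502ex2_24 := p_wQ_26_wN_1_rb80330811502ex2_24 g__wQ_26_wN_1_rb80330811502ex2_25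

theorem g__wQ_26_wN_1_rb80330811502ex2_29 : GoodKC AS k_wQ_26_wN_1_rb80330811502ex2_29 := p_wQ_26_wN_1_rb80330811502ex2_29

theorem g__wQ_26_wN_1_rb80330811502ex2_28 : GoodKC AS k_wQ_26_wN_1_rb80330811502ex2_28 := p_wQ_26_wN_1_rb80330811502ex2_28 g__wQ_26_wN_1_rb80330811502ex2_29

theorem g__wQ_26_wN_1_rb80330811502ex2_27 : GoodKC AS k_wQ_26_wN_1_rb80330811502ex2_27 := p_wQ_26_wN_1_rb80330811502ex2_27 g__wQ_26_wN_1_rb80330811502ex2_28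

theorem g__wQ_26_wN_1_rb80330811502ex2_23 : GoodKC AS k_wQ_26_wN_1_rb80330811502ex2_23 := p_wQ_26_wN_1_rb80330811502ex2_23 g__wQ_26_wN_1_rb80330811502ex2_24 g__wQ_26_wN_1_rb80330811502ex2_27

theorem g__wQ_26_wN_1_rb80330811502ex2_12 : GoodKC AS k_wQ_26_wN_1_rb80330811502ex2_12 := p_wQ_26_wN_1_rb80330811502ex2_12 g__wQ_26_wN_1_rb80330811502ex2_13 g__wQ_26_wN_1_rb80330811502ex2_18 g__wQ_26_wN_1_rb80330811502ex2_22 g__wQ_26_wN_1_rb80330811502ex2_23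

theorem g__wQ_26_wN_1_rb80330811502ex2_32 : GoodKC AS k_wQ_26_wN_1_rb80330811502ex2_32 := p_wQ_26_wN_1_rb80330811502ex2_32

theorem g__wQ_26_wN_1_rb80330811502ex2_31 : GoodKC AS k_wQ_26_wN_1_rb80330811502ex2_31 := p_wQ_26_wN_1_rb80330811502ex2_31 g__wQ_26_wN_1_rb80330811502ex2_32

theorem g__wQ_26_wN_1_rb80330811502ex2_30 : GoodKC AS k_wQ_26_wN_1_rb80330811502ex2_30 := p_wQ_26_wN_1_rb80330811502ex2_30 g__wQ_26_wN_1_rb80330811502ex2_31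

theorem g__wQ_26_wN_1_rb80330811502ex2_33 : GoodKC AS k_wQ_26_wN_1_rb80330811502ex2_33 := p_wQ_26_wN_1_rb80330811502ex2_33

theorem g__wQ_26_wN_1_rb80330811502ex2_10 : GoodKC AS k_wQ_26_wN_1_rb80330811502ex2_10 := p_wQ_26_wN_1_rb80330811502ex2_10 g__wQ_26_wN_1_rb80330811502ex2_11 g__wQ_26_wN_1_rb80330811502ex2_12 g__wQ_26_wN_1_rb80330811502ex2_30 g__wQ_26_wN_1_rb80330811502ex2_33

theorem g_wQ_26_wN_1_rb80330811502e01x2 : GoodKC AS c_wQ_26_wN_1_rb80330811502e01x2 := p_wQ_26_wN_1_rb80330811502e01x2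

theorem g__wQ_26_wN_1_rb80330811502ex2_34 : GoodKC AS k_wQ_26_wN_1_rb80330811502ex2_34 := p_wQ_26_wN_1_rb80330811502ex2_34

theorem g_wQ_26_wN_1_rb80330811502ex2 : GoodKC AS c_wQ_26_wN_1_rb80330811502ex2 := p_wQ_26_wN_1_rb80330811502ex2 g_wQ_26_wN_1_rb80330811502e02x2 g__wQ_26_wN_1_rb80330811502ex2_0 g__wQ_26_wN_1_rb80330811502ex2_8 g_wQ_26_wN_1_rb80330811502e00x2 g__wQ_26_wN_1_rb80330811502ex2_10 g_wQ_26_wN_1_rb80330811502e01x2 g__wQ_26_wN_1_rb80330811502ex2_34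

theorem g_wQ_26_wN_1_rb80330811502cx2 : GoodKC AS c_wQ_26_wN_1_rb80330811502cx2 := p_wQ_26_wN_1_rb80330811502cx2

theorem g_wQ_26_wN_1_rb80330811502bx2 : GoodKC AS c_wQ_26_wN_1_rb80330811502bx2 := p_wQ_26_wN_1_rb80330811502bx2

theorem g_wQ_26_wN_1_rb80330811502ax2 : GoodKC AS c_wQ_26_wN_1_rb80330811502ax2 := p_wQ_26_wN_1_rb80330811502ax2

theorem g_wQ_26_wN_1_rb803308115028x2 : GoodKC AS c_wQ_26_wN_1_rb803308115028x2 := p_wQ_26_wN_1_rb803308115028x2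

theorem g__wQ_26_wN_1_rb803308115027x2_4 : GoodKC AS k_wQ_26_wN_1_rb803308115027x2_4 := p_wQ_26_wN_1_rb803308115027x2_4

theorem g__wQ_26_wN_1_rb803308115027x2_3 : GoodKC AS k_wQ_26_wN_1_rb803308115027x2_3 := p_wQ_26_wN_1_rb803308115027x2_3 g__wQ_26_wN_1_rb803308115027x2_4

theorem g__wQ_26_wN_1_rb803308115027x2_2 : GoodKC AS k_wQ_26_wN_1_rb803308115027x2_2 := p_wQ_26_wN_1_rb803308115027x2_2 g__wQ_26_wN_1_rb803308115027x2_3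

theorem g__wQ_26_wN_1_rb803308115027x2_7 : GoodKC AS k_wQ_26_wN_1_rb803308115027x2_7 := p_wQ_26_wN_1_rb803308115027x2_7

theorem g__wQ_26_wN_1_rb803308115027x2_8 : GoodKC AS k_wQ_26_wN_1_rb803308115027x2_8 := p_wQ_26_wN_1_rb803308115027x2_8

theorem g__wQ_26_wN_1_rb803308115027x2_6 : GoodKC AS k_wQ_26_wN_1_rb803308115027x2_6 := p_wQ_26_wN_1_rb803308115027x2_6 g__wQ_26_wN_1_rb803308115027x2_7 g__wQ_26_wN_1_rb803308115027x2_8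

theorem g__wQ_26_wN_1_rb803308115027x2_5 : GoodKC AS k_wQ_26_wN_1_rb803308115027x2_5 := p_wQ_26_wN_1_rb803308115027x2_5 g__wQ_26_wN_1_rb803308115027x2_6

theorem g__wQ_26_wN_1_rb803308115027x2_1 : GoodKC AS k_wQ_26_wN_1_rb803308115027x2_1 := p_wQ_26_wN_1_rb803308115027x2_1 g__wQ_26_wN_1_rb803308115027x2_2 g__wQ_26_wN_1_rb803308115027x2_5

theorem g__wQ_26_wN_1_rb803308115027x2_0 : GoodKC AS k_wQ_26_wN_1_rb803308115027x2_0 := p_wQ_26_wN_1_rb803308115027x2_0 g__wQ_26_wN_1_rb803308115027x2_1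

theorem g_wQ_26_wN_1_rb803308115027x2 : GoodKC AS c_wQ_26_wN_1_rb803308115027x2 := p_wQ_26_wN_1_rb803308115027x2 g__wQ_26_wN_1_rb803308115027x2_0

theorem g__wQ_26_wN_1_rb803308115025x2_1 : GoodKC AS k_wQ_26_wN_1_rb803308115025x2_1 := p_wQ_26_wN_1_rb803308115025x2_1

theorem g__wQ_26_wN_1_rb803308115025x2_3 : GoodKC AS k_wQ_26_wN_1_rb803308115025x2_3 := p_wQ_26_wN_1_rb803308115025x2_3

theorem g__wQ_26_wN_1_rb803308115025x2_2 : GoodKC AS k_wQ_26_wN_1_rb803308115025x2_2 := p_wQ_26_wN_1_rb803308115025x2_2 g__wQ_26_wN_1_rb803308115025x2_3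

theorem g__wQ_26_wN_1_rb803308115025x2_0 : GoodKC AS k_wQ_26_wN_1_rb803308115025x2_0 := p_wQ_26_wN_1_rb803308115025x2_0 g__wQ_26_wN_1_rb803308115025x2_1 g__wQ_26_wN_1_rb803308115025x2_2

theorem g__wQ_26_wN_1_rb803308115025x2_4 : GoodKC AS k_wQ_26_wN_1_rb803308115025x2_4 := p_wQ_26_wN_1_rb803308115025x2_4

theorem g_wQ_26_wN_1_rb803308115025x2 : GoodKC AS c_wQ_26_wN_1_rb803308115025x2 := p_wQ_26_wN_1_rb803308115025x2 g__wQ_26_wN_1_rb803308115025x2_0 g__wQ_26_wN_1_rb803308115025x2_4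

theorem g__wQ_26_wN_1_rb803308115023x2_4 : GoodKC AS k_wQ_26_wN_1_rb803308115023x2_4 := p_wQ_26_wN_1_rb803308115023x2_4

theorem g__wQ_26_wN_1_rb803308115023x2_3 : GoodKC AS k_wQ_26_wN_1_rb803308115023x2_3 := p_wQ_26_wN_1_rb803308115023x2_3 g__wQ_26_wN_1_rb803308115023x2_4

theorem g__wQ_26_wN_1_rb803308115023x2_2 : GoodKC AS k_wQ_26_wN_1_rb803308115023x2_2 := p_wQ_26_wN_1_rb803308115023x2_2 g__wQ_26_wN_1_rb803308115023x2_3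

theorem g__wQ_26_wN_1_rb803308115023x2_11 : GoodKC AS k_wQ_26_wN_1_rb803308115023x2_11 := p_wQ_26_wN_1_rb803308115023x2_11

theorem g__wQ_26_wN_1_rb803308115023x2_12 : GoodKC AS k_wQ_26_wN_1_rb803308115023x2_12 := p_wQ_26_wN_1_rb803308115023x2_12

theorem g__wQ_26_wN_1_rb803308115023x2_15 : GoodKC AS k_wQ_26_wN_1_rb803308115023x2_15 := p_wQ_26_wN_1_rb803308115023x2_15

theorem g__wQ_26_wN_1_rb803308115023x2_17 : GoodKC AS k_wQ_26_wN_1_rb803308115023x2_17 := p_wQ_26_wN_1_rb803308115023x2_17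

theorem g__wQ_26_wN_1_rb803308115023x2_16 : GoodKC AS k_wQ_26_wN_1_rb803308115023x2_16 := p_wQ_26_wN_1_rb803308115023x2_16 g__wQ_26_wN_1_rb803308115023x2_17

theorem g__wQ_26_wN_1_rb803308115023x2_14 : GoodKC AS k_wQ_26_wN_1_rb803308115023x2_14 := p_wQ_26_wN_1_rb803308115023x2_14 g__wQ_26_wN_1_rb803308115023x2_15 g__wQ_26_wN_1_rb803308115023x2_16

theorem g__wQ_26_wN_1_rb803308115023x2_13 : GoodKC AS k_wQ_26_wN_1_rb803308115023x2_13 := p_wQ_26_wN_1_rb803308115023x2_13 g__wQ_26_wN_1_rb803308115023x2_14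

theorem g__wQ_26_wN_1_rb803308115023x2_10 : GoodKC AS k_wQ_26_wN_1_rb803308115023x2_10 := p_wQ_26_wN_1_rb803308115023x2_10 g__wQ_26_wN_1_rb803308115023x2_11 g__wQ_26_wN_1_rb803308115023x2_12 g__wQ_26_wN_1_rb803308115023x2_13

theorem g__wQ_26_wN_1_rb803308115023x2_20 : GoodKC AS k_wQ_26_wN_1_rb803308115023x2_20 := p_wQ_26_wN_1_rb803308115023x2_20

theorem g__wQ_26_wN_1_rb803308115023x2_21 : GoodKC AS k_wQ_26_wN_1_rb803308115023x2_21 := p_wQ_26_wN_1_rb803308115023x2_21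

theorem g__wQ_26_wN_1_rb803308115023x2_22 : GoodKC AS k_wQ_26_wN_1_rb803308115023x2_22 := p_wQ_26_wN_1_rb803308115023x2_22

theorem g__wQ_26_wN_1_rb803308115023x2_19 : GoodKC AS k_wQ_26_wN_1_rb803308115023x2_19 := p_wQ_26_wN_1_rb803308115023x2_19 g__wQ_26_wN_1_rb803308115023x2_20 g__wQ_26_wN_1_rb803308115023x2_21 g__wQ_26_wN_1_rb803308115023x2_22

theorem g__wQ_26_wN_1_rb803308115023x2_18 : GoodKC AS k_wQ_26_wN_1_rb803308115023x2_18 := p_wQ_26_wN_1_rb803308115023x2_18 g__wQ_26_wN_1_rb803308115023x2_19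

theorem g__wQ_26_wN_1_rb803308115023x2_23 : GoodKC AS k_wQ_26_wN_1_rb803308115023x2_23 := p_wQ_26_wN_1_rb803308115023x2_23

theorem g__wQ_26_wN_1_rb803308115023x2_24 : GoodKC AS k_wQ_26_wN_1_rb803308115023x2_24 := p_wQ_26_wN_1_rb803308115023x2_24

theorem g__wQ_26_wN_1_rb803308115023x2_9 : GoodKC AS k_wQ_26_wN_1_rb803308115023x2_9 := p_wQ_26_wN_1_rb803308115023x2_9 g__wQ_26_wN_1_rb803308115023x2_10 g__wQ_26_wN_1_rb803308115023x2_18 g__wQ_26_wN_1_rb803308115023x2_23 g__wQ_26_wN_1_rb803308115023x2_24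

theorem g__wQ_26_wN_1_rb803308115023x2_8 : GoodKC AS k_wQ_26_wN_1_rb803308115023x2_8 := p_wQ_26_wN_1_rb803308115023x2_8 g__wQ_26_wN_1_rb803308115023x2_9

theorem g__wQ_26_wN_1_rb803308115023x2_7 : GoodKC AS k_wQ_26_wN_1_rb803308115023x2_7 := p_wQ_26_wN_1_rb803308115023x2_7 g__wQ_26_wN_1_rb803308115023x2_8

theorem g__wQ_26_wN_1_rb803308115023x2_6 : GoodKC AS k_wQ_26_wN_1_rb803308115023x2_6 := p_wQ_26_wN_1_rb803308115023x2_6 g__wQ_26_wN_1_rb803308115023x2_7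

theorem g__wQ_26_wN_1_rb803308115023x2_5 : GoodKC AS k_wQ_26_wN_1_rb803308115023x2_5 := p_wQ_26_wN_1_rb803308115023x2_5 g__wQ_26_wN_1_rb803308115023x2_6

theorem g__wQ_26_wN_1_rb803308115023x2_1 : GoodKC AS k_wQ_26_wN_1_rb803308115023x2_1 := p_wQ_26_wN_1_rb803308115023x2_1 g__wQ_26_wN_1_rb803308115023x2_2 g__wQ_26_wN_1_rb803308115023x2_5

theorem g__wQ_26_wN_1_rb803308115023x2_0 : GoodKC AS k_wQ_26_wN_1_rb803308115023x2_0 := p_wQ_26_wN_1_rb803308115023x2_0 g__wQ_26_wN_1_rb803308115023x2_1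

theorem g__wQ_26_wN_1_rb803308115023x2_25 : GoodKC AS k_wQ_26_wN_1_rb803308115023x2_25 := p_wQ_26_wN_1_rb803308115023x2_25

theorem g__wQ_26_wN_1_rb803308115023x2_27 : GoodKC AS k_wQ_26_wN_1_rb803308115023x2_27 := p_wQ_26_wN_1_rb803308115023x2_27

theorem g__wQ_26_wN_1_rb803308115023x2_26 : GoodKC AS k_wQ_26_wN_1_rb803308115023x2_26 := p_wQ_26_wN_1_rb803308115023x2_26 g__wQ_26_wN_1_rb803308115023x2_27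

theorem g__wQ_26_wN_1_rb803308115023x2_28 : GoodKC AS k_wQ_26_wN_1_rb803308115023x2_28 := p_wQ_26_wN_1_rb803308115023x2_28

theorem g_wQ_26_wN_1_rb803308115023x2 : GoodKC AS c_wQ_26_wN_1_rb803308115023x2 := p_wQ_26_wN_1_rb803308115023x2 g__wQ_26_wN_1_rb803308115023x2_0 g__wQ_26_wN_1_rb803308115023x2_25 g__wQ_26_wN_1_rb803308115023x2_26 g__wQ_26_wN_1_rb803308115023x2_28

theorem g_wQ_26_wN_1_rb80330811501fx2 : GoodKC AS c_wQ_26_wN_1_rb80330811501fx2 := p_wQ_26_wN_1_rb80330811501fx2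

theorem g_wQ_26_wN_1_rb80330811501ex2 : GoodKC AS c_wQ_26_wN_1_rb80330811501ex2 := p_wQ_26_wN_1_rb80330811501ex2

theorem g_wQ_26_wN_1_rb803308115017x2 : GoodKC AS c_wQ_26_wN_1_rb803308115017x2 := p_wQ_26_wN_1_rb803308115017x2

theorem g_wQ_26_wN_1_rb803308115015x2 : GoodKC AS c_wQ_26_wN_1_rb803308115015x2 := p_wQ_26_wN_1_rb803308115015x2

theorem g_wQ_26_wN_1_rb803308115014x2 : GoodKC AS c_wQ_26_wN_1_rb803308115014x2 := p_wQ_26_wN_1_rb803308115014x2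

theorem g_wQ_26_wN_1_rb803308115012x2 : GoodKC AS c_wQ_26_wN_1_rb803308115012x2 := p_wQ_26_wN_1_rb803308115012x2

theorem g_wQ_26_wN_1_rb803308115011x2 : GoodKC AS c_wQ_26_wN_1_rb803308115011x2 := p_wQ_26_wN_1_rb803308115011x2

theorem g__wQ_26_wN_1_rb80330811500fx2_0 : GoodKC AS k_wQ_26_wN_1_rb80330811500fx2_0 := p_wQ_26_wN_1_rb80330811500fx2_0

theorem g_wQ_26_wN_1_rb80330811500fx2 : GoodKC AS c_wQ_26_wN_1_rb80330811500fx2 := p_wQ_26_wN_1_rb80330811500fx2 g__wQ_26_wN_1_rb80330811500fx2_0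

theorem g_wQ_26_wN_1_rb80330811500dx2 : GoodKC AS c_wQ_26_wN_1_rb80330811500dx2 := p_wQ_26_wN_1_rb80330811500dx2

theorem g_wQ_26_wN_1_rb80330811500cx2 : GoodKC AS c_wQ_26_wN_1_rb80330811500cx2 := p_wQ_26_wN_1_rb80330811500cx2

theorem g__wQ_26_wN_1_rb803308115009x2_0 : GoodKC AS k_wQ_26_wN_1_rb803308115009x2_0 := p_wQ_26_wN_1_rb803308115009x2_0

theorem g_wQ_26_wN_1_rb803308115009x2 : GoodKC AS c_wQ_26_wN_1_rb803308115009x2 := p_wQ_26_wN_1_rb803308115009x2 g__wQ_26_wN_1_rb803308115009x2_0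

theorem g__wQ_26_wN_1_rb8033081150v2_6 : GoodKC AS k_wQ_26_wN_1_rb8033081150v2_6 := p_wQ_26_wN_1_rb8033081150v2_6

theorem g__wQ_26_wN_1_rb8033081150v2_7 : GoodKC AS k_wQ_26_wN_1_rb8033081150v2_7 := p_wQ_26_wN_1_rb8033081150v2_7

theorem g__wQ_26_wN_1_rb8033081150v2_5 : GoodKC AS k_wQ_26_wN_1_rb8033081150v2_5 := p_wQ_26_wN_1_rb8033081150v2_5 g__wQ_26_wN_1_rb8033081150v2_6 g__wQ_26_wN_1_rb8033081150v2_7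

theorem g__wQ_26_wN_1_rb8033081150v2_4 : GoodKC AS k_wQ_26_wN_1_rb8033081150v2_4 := p_wQ_26_wN_1_rb8033081150v2_4 g__wQ_26_wN_1_rb8033081150v2_5

theorem g__wQ_26_wN_1_rb8033081150v2_3 : GoodKC AS k_wQ_26_wN_1_rb8033081150v2_3 := p_wQ_26_wN_1_rb8033081150v2_3 g__wQ_26_wN_1_rb8033081150v2_4

theorem g__wQ_26_wN_1_rb8033081150v2_9 : GoodKC AS k_wQ_26_wN_1_rb8033081150v2_9 := p_wQ_26_wN_1_rb8033081150v2_9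

theorem g__wQ_26_wN_1_rb8033081150v2_11 : GoodKC AS k_wQ_26_wN_1_rb8033081150v2_11 := p_wQ_26_wN_1_rb8033081150v2_11

theorem g__wQ_26_wN_1_rb8033081150v2_10 : GoodKC AS k_wQ_26_wN_1_rb8033081150v2_10 := p_wQ_26_wN_1_rb8033081150v2_10 g__wQ_26_wN_1_rb8033081150v2_11

theorem g__wQ_26_wN_1_rb8033081150v2_16 : GoodKC AS k_wQ_26_wN_1_rb8033081150v2_16 := p_wQ_26_wN_1_rb8033081150v2_16

theorem g__wQ_26_wN_1_rb8033081150v2_15 : GoodKC AS k_wQ_26_wN_1_rb8033081150v2_15 := p_wQ_26_wN_1_rb8033081150v2_15 g__wQ_26_wN_1_rb8033081150v2_16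

theorem g__wQ_26_wN_1_rb8033081150v2_14 : GoodKC AS k_wQ_26_wN_1_rb8033081150v2_14 := p_wQ_26_wN_1_rb8033081150v2_14 g__wQ_26_wN_1_rb8033081150v2_15

theorem g__wQ_26_wN_1_rb8033081150v2_13 : GoodKC AS k_wQ_26_wN_1_rb8033081150v2_13 := p_wQ_26_wN_1_rb8033081150v2_13 g__wQ_26_wN_1_rb8033081150v2_14

theorem g__wQ_26_wN_1_rb8033081150v2_12 : GoodKC AS k_wQ_26_wN_1_rb8033081150v2_12 := p_wQ_26_wN_1_rb8033081150v2_12 g__wQ_26_wN_1_rb8033081150v2_13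

theorem g__wQ_26_wN_1_rb8033081150v2_8 : GoodKC AS k_wQ_26_wN_1_rb8033081150v2_8 := p_wQ_26_wN_1_rb8033081150v2_8 g__wQ_26_wN_1_rb8033081150v2_9 g__wQ_26_wN_1_rb8033081150v2_10 g__wQ_26_wN_1_rb8033081150v2_12

theorem g__wQ_26_wN_1_rb8033081150v2_2 : GoodKC AS k_wQ_26_wN_1_rb8033081150v2_2 := p_wQ_26_wN_1_rb8033081150v2_2 g__wQ_26_wN_1_rb8033081150v2_3 g__wQ_26_wN_1_rb8033081150v2_8

theorem g__wQ_26_wN_1_rb8033081150v2_1 : GoodKC AS k_wQ_26_wN_1_rb8033081150v2_1 := p_wQ_26_wN_1_rb8033081150v2_1 g__wQ_26_wN_1_rb8033081150v2_2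

theorem g_wQ_26_wN_1_rb803308115005x2 : GoodKC AS c_wQ_26_wN_1_rb803308115005x2 := p_wQ_26_wN_1_rb803308115005x2

theorem g_wQ_26_wN_1_rb803308115004x2 : GoodKC AS c_wQ_26_wN_1_rb803308115004x2 := p_wQ_26_wN_1_rb803308115004x2

theorem g__wQ_26_wN_1_rb803308115002x2_0 : GoodKC AS k_wQ_26_wN_1_rb803308115002x2_0 := p_wQ_26_wN_1_rb803308115002x2_0

theorem g_wQ_26_wN_1_rb803308115002x2 : GoodKC AS c_wQ_26_wN_1_rb803308115002x2 := p_wQ_26_wN_1_rb803308115002x2 g__wQ_26_wN_1_rb803308115002x2_0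

theorem g_wQ_26_wN_1_rb803308115000x2 : GoodKC AS c_wQ_26_wN_1_rb803308115000x2 := p_wQ_26_wN_1_rb803308115000x2

theorem g__wQ_26_wN_1_rb803308115001x2_1 : GoodKC AS k_wQ_26_wN_1_rb803308115001x2_1 := p_wQ_26_wN_1_rb803308115001x2_1

theorem g__wQ_26_wN_1_rb803308115001x2_0 : GoodKC AS k_wQ_26_wN_1_rb803308115001x2_0 := p_wQ_26_wN_1_rb803308115001x2_0 g__wQ_26_wN_1_rb803308115001x2_1

theorem g_wQ_26_wN_1_rb803308115001x2 : GoodKC AS c_wQ_26_wN_1_rb803308115001x2 := p_wQ_26_wN_1_rb803308115001x2 g__wQ_26_wN_1_rb803308115001x2_0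

theorem g_wQ_26_wN_1_rb803308115003x2 : GoodKC AS c_wQ_26_wN_1_rb803308115003x2 := p_wQ_26_wN_1_rb803308115003x2

theorem g_wQ_26_wN_1_rb803308115006x2 : GoodKC AS c_wQ_26_wN_1_rb803308115006x2 := p_wQ_26_wN_1_rb803308115006x2

theorem g_wQ_26_wN_1_rb803308115007x2 : GoodKC AS c_wQ_26_wN_1_rb803308115007x2 := p_wQ_26_wN_1_rb803308115007x2

theorem g_wQ_26_wN_1_rb803308115008x2 : GoodKC AS c_wQ_26_wN_1_rb803308115008x2 := p_wQ_26_wN_1_rb803308115008x2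

theorem g_wQ_26_wN_1_rb80330811500ax2 : GoodKC AS c_wQ_26_wN_1_rb80330811500ax2 := p_wQ_26_wN_1_rb80330811500ax2

theorem g_wQ_26_wN_1_rb80330811500bx2 : GoodKC AS c_wQ_26_wN_1_rb80330811500bx2 := p_wQ_26_wN_1_rb80330811500bx2

theorem g_wQ_26_wN_1_rb80330811500ex2 : GoodKC AS c_wQ_26_wN_1_rb80330811500ex2 := p_wQ_26_wN_1_rb80330811500ex2

theorem g_wQ_26_wN_1_rb803308115010x2 : GoodKC AS c_wQ_26_wN_1_rb803308115010x2 := p_wQ_26_wN_1_rb803308115010x2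

theorem g__wQ_26_wN_1_rb803308115013x2_0 : GoodKC AS k_wQ_26_wN_1_rb803308115013x2_0 := p_wQ_26_wN_1_rb803308115013x2_0

theorem g_wQ_26_wN_1_rb803308115013x2 : GoodKC AS c_wQ_26_wN_1_rb803308115013x2 := p_wQ_26_wN_1_rb803308115013x2 g__wQ_26_wN_1_rb803308115013x2_0

theorem g_wQ_26_wN_1_rb803308115016x2 : GoodKC AS c_wQ_26_wN_1_rb803308115016x2 := p_wQ_26_wN_1_rb803308115016x2

theorem g_wQ_26_wN_1_rb803308115018x2 : GoodKC AS c_wQ_26_wN_1_rb803308115018x2 := p_wQ_26_wN_1_rb803308115018x2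

theorem g_wQ_26_wN_1_rb803308115019x2 : GoodKC AS c_wQ_26_wN_1_rb803308115019x2 := p_wQ_26_wN_1_rb803308115019x2

theorem g_wQ_26_wN_1_rb80330811501ax2 : GoodKC AS c_wQ_26_wN_1_rb80330811501ax2 := p_wQ_26_wN_1_rb80330811501ax2

theorem g__wQ_26_wN_1_rb80330811501bx2_0 : GoodKC AS k_wQ_26_wN_1_rb80330811501bx2_0 := p_wQ_26_wN_1_rb80330811501bx2_0

theorem g_wQ_26_wN_1_rb80330811501bx2 : GoodKC AS c_wQ_26_wN_1_rb80330811501bx2 := p_wQ_26_wN_1_rb80330811501bx2 g__wQ_26_wN_1_rb80330811501bx2_0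

theorem g_wQ_26_wN_1_rb80330811501cx2 : GoodKC AS c_wQ_26_wN_1_rb80330811501cx2 := p_wQ_26_wN_1_rb80330811501cx2

theorem g_wQ_26_wN_1_rb80330811501dx2 : GoodKC AS c_wQ_26_wN_1_rb80330811501dx2 := p_wQ_26_wN_1_rb80330811501dx2

theorem g_wQ_26_wN_1_rb803308115020x2 : GoodKC AS c_wQ_26_wN_1_rb803308115020x2 := p_wQ_26_wN_1_rb803308115020x2

theorem g_wQ_26_wN_1_rb803308115021x2 : GoodKC AS c_wQ_26_wN_1_rb803308115021x2 := p_wQ_26_wN_1_rb803308115021x2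

theorem g_wQ_26_wN_1_rb803308115022x2 : GoodKC AS c_wQ_26_wN_1_rb803308115022x2 := p_wQ_26_wN_1_rb803308115022x2

theorem g__wQ_26_wN_1_rb803308115024x2_4 : GoodKC AS k_wQ_26_wN_1_rb803308115024x2_4 := p_wQ_26_wN_1_rb803308115024x2_4

theorem g__wQ_26_wN_1_rb803308115024x2_3 : GoodKC AS k_wQ_26_wN_1_rb803308115024x2_3 := p_wQ_26_wN_1_rb803308115024x2_3 g__wQ_26_wN_1_rb803308115024x2_4

theorem g__wQ_26_wN_1_rb803308115024x2_2 : GoodKC AS k_wQ_26_wN_1_rb803308115024x2_2 := p_wQ_26_wN_1_rb803308115024x2_2 g__wQ_26_wN_1_rb803308115024x2_3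

theorem g__wQ_26_wN_1_rb803308115024x2_1 : GoodKC AS k_wQ_26_wN_1_rb803308115024x2_1 := p_wQ_26_wN_1_rb803308115024x2_1 g__wQ_26_wN_1_rb803308115024x2_2

theorem g__wQ_26_wN_1_rb803308115024x2_0 : GoodKC AS k_wQ_26_wN_1_rb803308115024x2_0 := p_wQ_26_wN_1_rb803308115024x2_0 g__wQ_26_wN_1_rb803308115024x2_1

theorem g_wQ_26_wN_1_rb803308115024x2 : GoodKC AS c_wQ_26_wN_1_rb803308115024x2 := p_wQ_26_wN_1_rb803308115024x2 g__wQ_26_wN_1_rb803308115024x2_0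

theorem g_wQ_26_wN_1_rb803308115026x2 : GoodKC AS c_wQ_26_wN_1_rb803308115026x2 := p_wQ_26_wN_1_rb803308115026x2

theorem g_wQ_26_wN_1_rb803308115029x2 : GoodKC AS c_wQ_26_wN_1_rb803308115029x2 := p_wQ_26_wN_1_rb803308115029x2

theorem g_wQ_26_wN_1_rb80330811502dx2 : GoodKC AS c_wQ_26_wN_1_rb80330811502dx2 := p_wQ_26_wN_1_rb80330811502dx2

theorem g_wQ_26_wN_1_rb803308115030x2 : GoodKC AS c_wQ_26_wN_1_rb803308115030x2 := p_wQ_26_wN_1_rb803308115030x2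

theorem g_wQ_26_wN_1_rb803308115032x2 : GoodKC AS c_wQ_26_wN_1_rb803308115032x2 := p_wQ_26_wN_1_rb803308115032x2

theorem g_wQ_26_wN_1_rb803308115033x2 : GoodKC AS c_wQ_26_wN_1_rb803308115033x2 := p_wQ_26_wN_1_rb803308115033x2

theorem g_wQ_26_wN_1_rb803308115036x2 : GoodKC AS c_wQ_26_wN_1_rb803308115036x2 := p_wQ_26_wN_1_rb803308115036x2

theorem g__wQ_26_wN_1_rb803308115038x2_0 : GoodKC AS k_wQ_26_wN_1_rb803308115038x2_0 := p_wQ_26_wN_1_rb803308115038x2_0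

theorem g__wQ_26_wN_1_rb803308115038x2_3 : GoodKC AS k_wQ_26_wN_1_rb803308115038x2_3 := p_wQ_26_wN_1_rb803308115038x2_3

theorem g__wQ_26_wN_1_rb803308115038x2_4 : GoodKC AS k_wQ_26_wN_1_rb803308115038x2_4 := p_wQ_26_wN_1_rb803308115038x2_4

theorem g__wQ_26_wN_1_rb803308115038x2_5 : GoodKC AS k_wQ_26_wN_1_rb803308115038x2_5 := p_wQ_26_wN_1_rb803308115038x2_5

theorem g__wQ_26_wN_1_rb803308115038x2_2 : GoodKC AS k_wQ_26_wN_1_rb803308115038x2_2 := p_wQ_26_wN_1_rb803308115038x2_2 g__wQ_26_wN_1_rb803308115038x2_3 g__wQ_26_wN_1_rb803308115038x2_4 g__wQ_26_wN_1_rb803308115038x2_5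

theorem g__wQ_26_wN_1_rb803308115038x2_6 : GoodKC AS k_wQ_26_wN_1_rb803308115038x2_6 := p_wQ_26_wN_1_rb803308115038x2_6

theorem g__wQ_26_wN_1_rb803308115038x2_7 : GoodKC AS k_wQ_26_wN_1_rb803308115038x2_7 := p_wQ_26_wN_1_rb803308115038x2_7

theorem g__wQ_26_wN_1_rb803308115038x2_1 : GoodKC AS k_wQ_26_wN_1_rb803308115038x2_1 := p_wQ_26_wN_1_rb803308115038x2_1 g__wQ_26_wN_1_rb803308115038x2_2 g__wQ_26_wN_1_rb803308115038x2_6 g__wQ_26_wN_1_rb803308115038x2_7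

theorem g_wQ_26_wN_1_rb803308115038x2 : GoodKC AS c_wQ_26_wN_1_rb803308115038x2 := p_wQ_26_wN_1_rb803308115038x2 g__wQ_26_wN_1_rb803308115038x2_0 g__wQ_26_wN_1_rb803308115038x2_1

theorem g__wQ_26_wN_1_rb8033081150v2_0 : GoodKC AS k_wQ_26_wN_1_rb8033081150v2_0 := p_wQ_26_wN_1_rb8033081150v2_0 g_wQ_26_wN_1_rb803308115037x2 g_wQ_26_wN_1_rb803308115035x2 g_wQ_26_wN_1_rb803308115034x2 g_wQ_26_wN_1_rb803308115031x2 g_wQ_26_wN_1_rb80330811502fx2 g_wQ_26_wN_1_rb80330811502ex2 g_wQ_26_wN_1_rb80330811502cx2 g_wQ_26_wN_1_rb80330811502bx2 g_wQ_26_wN_1_rb80330811502ax2 g_wQ_26_wN_1_rb803308115028x2 g_wQ_26_wN_1_rb803308115027x2 g_wQ_26_wN_1_rb803308115025x2 g_wQ_26_wN_1_rb803308115023x2 g_wQ_26_wN_1_rb80330811501fx2 g_wQ_26_wN_1_rb80330811501ex2 g_wQ_26_wN_1_rb803308115017x2 g_wQ_26_wN_1_rb803308115015x2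 g_wQ_26_wN_1_rb803308115014x2 g_wQ_26_wN_1_rb803308115012x2 g_wQ_26_wN_1_rb803308115011x2 g_wQ_26_wN_1_rb80330811500fx2 g_wQ_26_wN_1_rb80330811500dx2 g_wQ_26_wN_1_rb80330811500cx2 g_wQ_26_wN_1_rb803308115009x2 g__wQ_26_wN_1_rb8033081150v2_1 g_wQ_26_wN_1_rb803308115005x2 g_wQ_26_wN_1_rb803308115004x2 g_wQ_26_wN_1_rb803308115002x2 g_wQ_26_wN_1_rb803308115000x2 g_wQ_26_wN_1_rb803308115001x2 g_wQ_26_wN_1_rb803308115003x2 g_wQ_26_wN_1_rb803308115006x2 g_wQ_26_wN_1_rb803308115007x2 g_wQ_26_wN_1_rb803308115008x2 g_wQ_26_wN_1_rb80330811500ax2 g_wQ_26_wN_1_rb80330811500bx2 g_wQ_26_wN_1_rb80330811500ex2 g_wQ_26_wN_1_rb803308115010x2 g_wQ_26_wN_1_rb803308115013x2 g_wQ_26_wN_1_rb803308115016x2 g_wQ_26_wN_1_rb803308115018x2 g_wQ_26_wN_1_rb803308115019x2 g_wQ_26_wN_1_rb80330811501ax2 g_wQ_26_wN_1_rb80330811501bx2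 g_wQ_26_wN_1_rb80330811501cx2 g_wQ_26_wN_1_rb80330811501dx2 g_wQ_26_wN_1_rb803308115020x2 g_wQ_26_wN_1_rb803308115021x2 g_wQ_26_wN_1_rb803308115022x2 g_wQ_26_wN_1_rb803308115024x2 g_wQ_26_wN_1_rb803308115026x2 g_wQ_26_wN_1_rb803308115029x2 g_wQ_26_wN_1_rb80330811502dx2 g_wQ_26_wN_1_rb803308115030x2 g_wQ_26_wN_1_rb803308115032x2 g_wQ_26_wN_1_rb803308115033x2 g_wQ_26_wN_1_rb803308115036x2 g_wQ_26_wN_1_rb803308115038x2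

theorem g_wQ_26_wN_1_rb80330811503ax2 : GoodKC AS c_wQ_26_wN_1_rb80330811503ax2 := p_wQ_26_wN_1_rb80330811503ax2

theorem g_wQ_26_wN_1_rb80330811503bx2 : GoodKC AS c_wQ_26_wN_1_rb80330811503bx2 := p_wQ_26_wN_1_rb80330811503bx2

theorem g__wQ_26_wN_1_rb80330811503dx2_1 : GoodKC AS k_wQ_26_wN_1_rb80330811503dx2_1 := p_wQ_26_wN_1_rb80330811503dx2_1

theorem g__wQ_26_wN_1_rb80330811503dx2_0 : GoodKC AS k_wQ_26_wN_1_rb80330811503dx2_0 := p_wQ_26_wN_1_rb80330811503dx2_0 g__wQ_26_wN_1_rb80330811503dx2_1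

theorem g_wQ_26_wN_1_rb80330811503dx2 : GoodKC AS c_wQ_26_wN_1_rb80330811503dx2 := p_wQ_26_wN_1_rb80330811503dx2 g__wQ_26_wN_1_rb80330811503dx2_0

theorem g_wQ_26_wN_1_rb80330811503fx2 : GoodKC AS c_wQ_26_wN_1_rb80330811503fx2 := p_wQ_26_wN_1_rb80330811503fx2

theorem g_wQ_26_wN_1_rb8033081150x3 : GoodKC AS c_wQ_26_wN_1_rb8033081150x3 := p_wQ_26_wN_1_rb8033081150x2 g_wQ_26_wN_1_rb803308115041x2 g_wQ_26_wN_1_rb803308115040x2 g_wQ_26_wN_1_rb80330811503ex2 g_wQ_26_wN_1_rb80330811503cx2 g_wQ_26_wN_1_rb803308115039x2 g__wQ_26_wN_1_rb8033081150v2_0 g_wQ_26_wN_1_rb80330811503ax2 g_wQ_26_wN_1_rb80330811503bx2 g_wQ_26_wN_1_rb80330811503dx2 g_wQ_26_wN_1_rb80330811503fx2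

theorem g__wQ_26_wN_1_rb8033081154x2_2 : GoodKC AS k_wQ_26_wN_1_rb8033081154x2_2 := p_wQ_26_wN_1_rb8033081154x2_2

theorem g__wQ_26_wN_1_rb8033081154x2_3 : GoodKC AS k_wQ_26_wN_1_rb8033081154x2_3 := p_wQ_26_wN_1_rb8033081154x2_3

theorem g__wQ_26_wN_1_rb8033081154x2_1 : GoodKC AS k_wQ_26_wN_1_rb8033081154x2_1 := p_wQ_26_wN_1_rb8033081154x2_1 g__wQ_26_wN_1_rb8033081154x2_2 g__wQ_26_wN_1_rb8033081154x2_3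

theorem g__wQ_26_wN_1_rb8033081154x2_0 : GoodKC AS k_wQ_26_wN_1_rb8033081154x2_0 := p_wQ_26_wN_1_rb8033081154x2_0 g__wQ_26_wN_1_rb8033081154x2_1

theorem g__wQ_26_wN_1_rb8033081154x2_6 : GoodKC AS k_wQ_26_wN_1_rb8033081154x2_6 := p_wQ_26_wN_1_rb8033081154x2_6

theorem g__wQ_26_wN_1_rb8033081154x2_5 : GoodKC AS k_wQ_26_wN_1_rb8033081154x2_5 := p_wQ_26_wN_1_rb8033081154x2_5 g__wQ_26_wN_1_rb8033081154x2_6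

theorem g__wQ_26_wN_1_rb8033081154x2_8 : GoodKC AS k_wQ_26_wN_1_rb8033081154x2_8 := p_wQ_26_wN_1_rb8033081154x2_8

theorem g__wQ_26_wN_1_rb8033081154x2_9 : GoodKC AS k_wQ_26_wN_1_rb8033081154x2_9 := p_wQ_26_wN_1_rb8033081154x2_9

theorem g__wQ_26_wN_1_rb8033081154x2_7 : GoodKC AS k_wQ_26_wN_1_rb8033081154x2_7 := p_wQ_26_wN_1_rb8033081154x2_7 g__wQ_26_wN_1_rb8033081154x2_8 g__wQ_26_wN_1_rb8033081154x2_9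

theorem g__wQ_26_wN_1_rb8033081154x2_4 : GoodKC AS k_wQ_26_wN_1_rb8033081154x2_4 := p_wQ_26_wN_1_rb8033081154x2_4 g__wQ_26_wN_1_rb8033081154x2_5 g__wQ_26_wN_1_rb8033081154x2_7

theorem g__wQ_26_wN_1_rb8033081154x2_13 : GoodKC AS k_wQ_26_wN_1_rb8033081154x2_13 := p_wQ_26_wN_1_rb8033081154x2_13

theorem g__wQ_26_wN_1_rb8033081154x2_12 : GoodKC AS k_wQ_26_wN_1_rb8033081154x2_12 := p_wQ_26_wN_1_rb8033081154x2_12 g__wQ_26_wN_1_rb8033081154x2_13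

theorem g__wQ_26_wN_1_rb8033081154x2_11 : GoodKC AS k_wQ_26_wN_1_rb8033081154x2_11 := p_wQ_26_wN_1_rb8033081154x2_11 g__wQ_26_wN_1_rb8033081154x2_12

theorem g__wQ_26_wN_1_rb8033081154x2_10 : GoodKC AS k_wQ_26_wN_1_rb8033081154x2_10 := p_wQ_26_wN_1_rb8033081154x2_10 g__wQ_26_wN_1_rb8033081154x2_11

theorem g_wQ_26_wN_1_rb8033081154x3 : GoodKC AS c_wQ_26_wN_1_rb8033081154x3 := p_wQ_26_wN_1_rb8033081154x2 g__wQ_26_wN_1_rb8033081154x2_0 g__wQ_26_wN_1_rb8033081154x2_4 g__wQ_26_wN_1_rb8033081154x2_10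

theorem g_wQ_26_wN_1_rb8033081155x3 : GoodKC AS c_wQ_26_wN_1_rb8033081155x3 := p_wQ_26_wN_1_rb8033081155x3

theorem g_wQ_26_wN_1_rb80330811x15 : GoodKC AS c_wQ_26_wN_1_rb80330811x15 := p_wQ_26_wN_1_rb80330811x3 g_wQ_26_wN_1_rb8033081153x3 g_wQ_26_wN_1_rb8033081152x3 g_wQ_26_wN_1_rb8033081151x3 g_wQ_26_wN_1_rb803308114fx3 g_wQ_26_wN_1_rb803308114ex3 g_wQ_26_wN_1_rb803308114dx3 g_wQ_26_wN_1_rb803308114bx3 g_wQ_26_wN_1_rb8033081144x3 g_wQ_26_wN_1_rb8033081143x3 g_wQ_26_wN_1_rb8033081142x3 g_wQ_26_wN_1_rb8033081141x3 g_wQ_26_wN_1_rb8033081140x3 g_wQ_26_wN_1_rb803308113ex3 g_wQ_26_wN_1_rb803308113dx3 g_wQ_26_wN_1_rb803308113cx3 g_wQ_26_wN_1_rb803308113bx3 g_wQ_26_wN_1_rb803308113ax3 g_wQ_26_wN_1_rb8033081139x3 g_wQ_26_wN_1_rb8033081138x3 g_wQ_26_wN_1_rb8033081137x3 g_wQ_26_wN_1_rb8033081136x3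 g_wQ_26_wN_1_rb8033081135x3 g_wQ_26_wN_1_rb8033081134x3 g_wQ_26_wN_1_rb8033081131x3 g_wQ_26_wN_1_rb803308112ex3 g_wQ_26_wN_1_rb803308112dx3 g_wQ_26_wN_1_rb803308112cx3 g_wQ_26_wN_1_rb803308112bx3 g_wQ_26_wN_1_rb803308112ax3 g_wQ_26_wN_1_rb8033081128x3 g_wQ_26_wN_1_rb8033081126x3 g_wQ_26_wN_1_rb8033081123x3 g_wQ_26_wN_1_rb8033081121x3 g_wQ_26_wN_1_rb803308111fx3 g_wQ_26_wN_1_rb803308111ex3 g_wQ_26_wN_1_rb803308111dx3 g_wQ_26_wN_1_rb803308111cx3 g_wQ_26_wN_1_rb803308111bx3 g_wQ_26_wN_1_rb803308111ax3 g_wQ_26_wN_1_rb8033081117x3 g_wQ_26_wN_1_rb8033081114x3 g_wQ_26_wN_1_rb8033081113x3 g_wQ_26_wN_1_rb8033081112x3 g_wQ_26_wN_1_rb8033081111x3 g_wQ_26_wN_1_rb803308110ex3 g_wQ_26_wN_1_rb803308110dx3 g_wQ_26_wN_1_rb803308110cx3 g_wQ_26_wN_1_rb8033081108x3 g_wQ_26_wN_1_rb8033081107x3 g_wQ_26_wN_1_rb8033081106x3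 g_wQ_26_wN_1_rb8033081105x3 g_wQ_26_wN_1_rb8033081103x3 g_wQ_26_wN_1_rb8033081102x3 g_wQ_26_wN_1_rb8033081100x3 g_wQ_26_wN_1_rb8033081101x3 g_wQ_26_wN_1_rb8033081104x3 g_wQ_26_wN_1_rb8033081109x3 g_wQ_26_wN_1_rb803308110ax3 g_wQ_26_wN_1_rb803308110bx3 g_wQ_26_wN_1_rb803308110fx3 g_wQ_26_wN_1_rb8033081110x3 g_wQ_26_wN_1_rb8033081115x3 g_wQ_26_wN_1_rb8033081116x3 g_wQ_26_wN_1_rb8033081118x3 g_wQ_26_wN_1_rb8033081119x3 g_wQ_26_wN_1_rb8033081120x3 g_wQ_26_wN_1_rb8033081122x3 g_wQ_26_wN_1_rb8033081124x3 g_wQ_26_wN_1_rb8033081125x3 g_wQ_26_wN_1_rb8033081127x3 g_wQ_26_wN_1_rb8033081129x3 g__wQ_26_wN_1_rb80330811x3_0 g_wQ_26_wN_1_rb803308112fx3 g_wQ_26_wN_1_rb8033081130x3 g_wQ_26_wN_1_rb8033081132x3 g_wQ_26_wN_1_rb8033081133x3 g_wQ_26_wN_1_rb803308113fx3 g_wQ_26_wN_1_rb8033081145x3 g_wQ_26_wN_1_rb8033081146x3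 g_wQ_26_wN_1_rb8033081147x3 g_wQ_26_wN_1_rb8033081148x3 g_wQ_26_wN_1_rb8033081149x3 g_wQ_26_wN_1_rb803308114ax3 g_wQ_26_wN_1_rb803308114cx3 g_wQ_26_wN_1_rb8033081150x3 g_wQ_26_wN_1_rb8033081154x3 g_wQ_26_wN_1_rb8033081155x3

theorem g_wQ_26_wN_1_rb8033081247x3 : GoodKC AS c_wQ_26_wN_1_rb8033081247x3 := p_wQ_26_wN_1_rb8033081247x3

theorem g_wQ_26_wN_1_rb8033081245x3 : GoodKC AS c_wQ_26_wN_1_rb8033081245x3 := p_wQ_26_wN_1_rb8033081245x3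

theorem g_wQ_26_wN_1_rb8033081244x3 : GoodKC AS c_wQ_26_wN_1_rb8033081244x3 := p_wQ_26_wN_1_rb8033081244x3

theorem g__wQ_26_wN_1_rb8033081243x3_0 : GoodKC AS k_wQ_26_wN_1_rb8033081243x3_0 := p_wQ_26_wN_1_rb8033081243x3_0

theorem g_wQ_26_wN_1_rb8033081243x3 : GoodKC AS c_wQ_26_wN_1_rb8033081243x3 := p_wQ_26_wN_1_rb8033081243x3 g__wQ_26_wN_1_rb8033081243x3_0

theorem g_wQ_26_wN_1_rb8033081242x3 : GoodKC AS c_wQ_26_wN_1_rb8033081242x3 := p_wQ_26_wN_1_rb8033081242x3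

theorem g_wQ_26_wN_1_rb8033081240x3 : GoodKC AS c_wQ_26_wN_1_rb8033081240x3 := p_wQ_26_wN_1_rb8033081240x3

theorem g__wQ_26_wN_1_rb803308123fx3_0 : GoodKC AS k_wQ_26_wN_1_rb803308123fx3_0 := p_wQ_26_wN_1_rb803308123fx3_0

theorem g__wQ_26_wN_1_rb803308123fx3_3 : GoodKC AS k_wQ_26_wN_1_rb803308123fx3_3 := p_wQ_26_wN_1_rb803308123fx3_3

theorem g__wQ_26_wN_1_rb803308123fx3_2 : GoodKC AS k_wQ_26_wN_1_rb803308123fx3_2 := p_wQ_26_wN_1_rb803308123fx3_2 g__wQ_26_wN_1_rb803308123fx3_3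

theorem g__wQ_26_wN_1_rb803308123fx3_1 : GoodKC AS k_wQ_26_wN_1_rb803308123fx3_1 := p_wQ_26_wN_1_rb803308123fx3_1 g__wQ_26_wN_1_rb803308123fx3_2

theorem g_wQ_26_wN_1_rb803308123fx3 : GoodKC AS c_wQ_26_wN_1_rb803308123fx3 := p_wQ_26_wN_1_rb803308123fx3 g__wQ_26_wN_1_rb803308123fx3_0 g__wQ_26_wN_1_rb803308123fx3_1

theorem g__wQ_26_wN_1_rb803308123ex3_0 : GoodKC AS k_wQ_26_wN_1_rb803308123ex3_0 := p_wQ_26_wN_1_rb803308123ex3_0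

theorem g__wQ_26_wN_1_rb803308123ex3_2 : GoodKC AS k_wQ_26_wN_1_rb803308123ex3_2 := p_wQ_26_wN_1_rb803308123ex3_2

theorem g__wQ_26_wN_1_rb803308123ex3_3 : GoodKC AS k_wQ_26_wN_1_rb803308123ex3_3 := p_wQ_26_wN_1_rb803308123ex3_3

theorem g__wQ_26_wN_1_rb803308123ex3_1 : GoodKC AS k_wQ_26_wN_1_rb803308123ex3_1 := p_wQ_26_wN_1_rb803308123ex3_1 g__wQ_26_wN_1_rb803308123ex3_2 g__wQ_26_wN_1_rb803308123ex3_3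

theorem g_wQ_26_wN_1_rb803308123ex3 : GoodKC AS c_wQ_26_wN_1_rb803308123ex3 := p_wQ_26_wN_1_rb803308123ex3 g__wQ_26_wN_1_rb803308123ex3_0 g__wQ_26_wN_1_rb803308123ex3_1

theorem g_wQ_26_wN_1_rb803308123dx3 : GoodKC AS c_wQ_26_wN_1_rb803308123dx3 := p_wQ_26_wN_1_rb803308123dx3

theorem g__wQ_26_wN_1_rb803308123cx3_0 : GoodKC AS k_wQ_26_wN_1_rb803308123cx3_0 := p_wQ_26_wN_1_rb803308123cx3_0

theorem g_wQ_26_wN_1_rb803308123cx3 : GoodKC AS c_wQ_26_wN_1_rb803308123cx3 := p_wQ_26_wN_1_rb803308123cx3 g__wQ_26_wN_1_rb803308123cx3_0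

theorem g_wQ_26_wN_1_rb803308123bx3 : GoodKC AS c_wQ_26_wN_1_rb803308123bx3 := p_wQ_26_wN_1_rb803308123bx3

theorem g_wQ_26_wN_1_rb803308123ax3 : GoodKC AS c_wQ_26_wN_1_rb803308123ax3 := p_wQ_26_wN_1_rb803308123ax3

theorem g__wQ_26_wN_1_rb80330812x3_2 : GoodKC AS k_wQ_26_wN_1_rb80330812x3_2 := p_wQ_26_wN_1_rb80330812x3_2

theorem g__wQ_26_wN_1_rb80330812x3_4 : GoodKC AS k_wQ_26_wN_1_rb80330812x3_4 := p_wQ_26_wN_1_rb80330812x3_4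

theorem g__wQ_26_wN_1_rb80330812x3_3 : GoodKC AS k_wQ_26_wN_1_rb80330812x3_3 := p_wQ_26_wN_1_rb80330812x3_3 g__wQ_26_wN_1_rb80330812x3_4

theorem g__wQ_26_wN_1_rb80330812x3_1 : GoodKC AS k_wQ_26_wN_1_rb80330812x3_1 := p_wQ_26_wN_1_rb80330812x3_1 g__wQ_26_wN_1_rb80330812x3_2 g__wQ_26_wN_1_rb80330812x3_3

theorem g__wQ_26_wN_1_rb80330812x3_6 : GoodKC AS k_wQ_26_wN_1_rb80330812x3_6 := p_wQ_26_wN_1_rb80330812x3_6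

theorem g__wQ_26_wN_1_rb80330812x3_5 : GoodKC AS k_wQ_26_wN_1_rb80330812x3_5 := p_wQ_26_wN_1_rb80330812x3_5 g__wQ_26_wN_1_rb80330812x3_6

theorem g__wQ_26_wN_1_rb80330812x3_0 : GoodKC AS k_wQ_26_wN_1_rb80330812x3_0 := p_wQ_26_wN_1_rb80330812x3_0 g__wQ_26_wN_1_rb80330812x3_1 g__wQ_26_wN_1_rb80330812x3_5

theorem g__wQ_26_wN_1_rb803308123846x2_0 : GoodKC AS k_wQ_26_wN_1_rb803308123846x2_0 := p_wQ_26_wN_1_rb803308123846x2_0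

theorem g__wQ_26_wN_1_rb803308123846x2_5 : GoodKC AS k_wQ_26_wN_1_rb803308123846x2_5 := p_wQ_26_wN_1_rb803308123846x2_5

theorem g__wQ_26_wN_1_rb803308123846x2_4 : GoodKC AS k_wQ_26_wN_1_rb803308123846x2_4 := p_wQ_26_wN_1_rb803308123846x2_4 g__wQ_26_wN_1_rb803308123846x2_5

theorem g__wQ_26_wN_1_rb803308123846x2_3 : GoodKC AS k_wQ_26_wN_1_rb803308123846x2_3 := p_wQ_26_wN_1_rb803308123846x2_3 g__wQ_26_wN_1_rb803308123846x2_4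

theorem g__wQ_26_wN_1_rb803308123846x2_2 : GoodKC AS k_wQ_26_wN_1_rb803308123846x2_2 := p_wQ_26_wN_1_rb803308123846x2_2 g__wQ_26_wN_1_rb803308123846x2_3

theorem g__wQ_26_wN_1_rb803308123846x2_1 : GoodKC AS k_wQ_26_wN_1_rb803308123846x2_1 := p_wQ_26_wN_1_rb803308123846x2_1 g__wQ_26_wN_1_rb803308123846x2_2

theorem g__wQ_26_wN_1_rb803308123846x2_7 : GoodKC AS k_wQ_26_wN_1_rb803308123846x2_7 := p_wQ_26_wN_1_rb803308123846x2_7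

theorem g__wQ_26_wN_1_rb803308123846x2_8 : GoodKC AS k_wQ_26_wN_1_rb803308123846x2_8 := p_wQ_26_wN_1_rb803308123846x2_8

theorem g__wQ_26_wN_1_rb803308123846x2_13 : GoodKC AS k_wQ_26_wN_1_rb803308123846x2_13 := p_wQ_26_wN_1_rb803308123846x2_13

theorem g__wQ_26_wN_1_rb803308123846x2_12 : GoodKC AS k_wQ_26_wN_1_rb803308123846x2_12 := p_wQ_26_wN_1_rb803308123846x2_12 g__wQ_26_wN_1_rb803308123846x2_13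

theorem g__wQ_26_wN_1_rb803308123846x2_11 : GoodKC AS k_wQ_26_wN_1_rb803308123846x2_11 := p_wQ_26_wN_1_rb803308123846x2_11 g__wQ_26_wN_1_rb803308123846x2_12

theorem g__wQ_26_wN_1_rb803308123846x2_10 : GoodKC AS k_wQ_26_wN_1_rb803308123846x2_10 := p_wQ_26_wN_1_rb803308123846x2_10 g__wQ_26_wN_1_rb803308123846x2_11

theorem g__wQ_26_wN_1_rb803308123846x2_9 : GoodKC AS k_wQ_26_wN_1_rb803308123846x2_9 := p_wQ_26_wN_1_rb803308123846x2_9 g__wQ_26_wN_1_rb803308123846x2_10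

theorem g__wQ_26_wN_1_rb803308123846x2_6 : GoodKC AS k_wQ_26_wN_1_rb803308123846x2_6 := p_wQ_26_wN_1_rb803308123846x2_6 g__wQ_26_wN_1_rb803308123846x2_7 g__wQ_26_wN_1_rb803308123846x2_8 g__wQ_26_wN_1_rb803308123846x2_9

theorem g_wQ_26_wN_1_rb803308123846x2 : GoodKC AS c_wQ_26_wN_1_rb803308123846x2 := p_wQ_26_wN_1_rb803308123846x2 g__wQ_26_wN_1_rb803308123846x2_0 g__wQ_26_wN_1_rb803308123846x2_1 g__wQ_26_wN_1_rb803308123846x2_6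

theorem g_wQ_26_wN_1_rb803308123844x2 : GoodKC AS c_wQ_26_wN_1_rb803308123844x2 := p_wQ_26_wN_1_rb803308123844x2

theorem g_wQ_26_wN_1_rb803308123843x2 : GoodKC AS c_wQ_26_wN_1_rb803308123843x2 := p_wQ_26_wN_1_rb803308123843x2

theorem g_wQ_26_wN_1_rb803308123842x2 : GoodKC AS c_wQ_26_wN_1_rb803308123842x2 := p_wQ_26_wN_1_rb803308123842x2

theorem g_wQ_26_wN_1_rb803308123841x2 : GoodKC AS c_wQ_26_wN_1_rb803308123841x2 := p_wQ_26_wN_1_rb803308123841x2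

theorem g_wQ_26_wN_1_rb803308123840x2 : GoodKC AS c_wQ_26_wN_1_rb803308123840x2 := p_wQ_26_wN_1_rb803308123840x2

theorem g_wQ_26_wN_1_rb80330812383fx2 : GoodKC AS c_wQ_26_wN_1_rb80330812383fx2 := p_wQ_26_wN_1_rb80330812383fx2

theorem g__wQ_26_wN_1_rb80330812383cx2_0 : GoodKC AS k_wQ_26_wN_1_rb80330812383cx2_0 := p_wQ_26_wN_1_rb80330812383cx2_0

theorem g_wQ_26_wN_1_rb80330812383cx2 : GoodKC AS c_wQ_26_wN_1_rb80330812383cx2 := p_wQ_26_wN_1_rb80330812383cx2 g__wQ_26_wN_1_rb80330812383cx2_0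

theorem g_wQ_26_wN_1_rb80330812383bx2 : GoodKC AS c_wQ_26_wN_1_rb80330812383bx2 := p_wQ_26_wN_1_rb80330812383bx2

theorem g__wQ_26_wN_1_rb803308123839x2_1 : GoodKC AS k_wQ_26_wN_1_rb803308123839x2_1 := p_wQ_26_wN_1_rb803308123839x2_1

theorem g__wQ_26_wN_1_rb803308123839x2_2 : GoodKC AS k_wQ_26_wN_1_rb803308123839x2_2 := p_wQ_26_wN_1_rb803308123839x2_2

theorem g__wQ_26_wN_1_rb803308123839x2_0 : GoodKC AS k_wQ_26_wN_1_rb803308123839x2_0 := p_wQ_26_wN_1_rb803308123839x2_0 g__wQ_26_wN_1_rb803308123839x2_1 g__wQ_26_wN_1_rb803308123839x2_2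

theorem g_wQ_26_wN_1_rb803308123839x2 : GoodKC AS c_wQ_26_wN_1_rb803308123839x2 := p_wQ_26_wN_1_rb803308123839x2 g__wQ_26_wN_1_rb803308123839x2_0

theorem g__wQ_26_wN_1_rb803308123834x2_2 : GoodKC AS k_wQ_26_wN_1_rb803308123834x2_2 := p_wQ_26_wN_1_rb803308123834x2_2

theorem g__wQ_26_wN_1_rb803308123834x2_1 : GoodKC AS k_wQ_26_wN_1_rb803308123834x2_1 := p_wQ_26_wN_1_rb803308123834x2_1 g__wQ_26_wN_1_rb803308123834x2_2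

theorem g__wQ_26_wN_1_rb803308123834x2_6 : GoodKC AS k_wQ_26_wN_1_rb803308123834x2_6 := p_wQ_26_wN_1_rb803308123834x2_6

theorem g__wQ_26_wN_1_rb803308123834x2_5 : GoodKC AS k_wQ_26_wN_1_rb803308123834x2_5 := p_wQ_26_wN_1_rb803308123834x2_5 g__wQ_26_wN_1_rb803308123834x2_6

theorem g__wQ_26_wN_1_rb803308123834x2_4 : GoodKC AS k_wQ_26_wN_1_rb803308123834x2_4 := p_wQ_26_wN_1_rb803308123834x2_4 g__wQ_26_wN_1_rb803308123834x2_5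

theorem g__wQ_26_wN_1_rb803308123834x2_3 : GoodKC AS k_wQ_26_wN_1_rb803308123834x2_3 := p_wQ_26_wN_1_rb803308123834x2_3 g__wQ_26_wN_1_rb803308123834x2_4

theorem g__wQ_26_wN_1_rb803308123834x2_0 : GoodKC AS k_wQ_26_wN_1_rb803308123834x2_0 := p_wQ_26_wN_1_rb803308123834x2_0 g__wQ_26_wN_1_rb803308123834x2_1 g__wQ_26_wN_1_rb803308123834x2_3

theorem g_wQ_26_wN_1_rb803308123834x2 : GoodKC AS c_wQ_26_wN_1_rb803308123834x2 := p_wQ_26_wN_1_rb803308123834x2 g__wQ_26_wN_1_rb803308123834x2_0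

theorem g__wQ_26_wN_1_rb803308123833x2_4 : GoodKC AS k_wQ_26_wN_1_rb803308123833x2_4 := p_wQ_26_wN_1_rb803308123833x2_4

theorem g__wQ_26_wN_1_rb803308123833x2_3 : GoodKC AS k_wQ_26_wN_1_rb803308123833x2_3 := p_wQ_26_wN_1_rb803308123833x2_3 g__wQ_26_wN_1_rb803308123833x2_4

theorem g__wQ_26_wN_1_rb803308123833x2_2 : GoodKC AS k_wQ_26_wN_1_rb803308123833x2_2 := p_wQ_26_wN_1_rb803308123833x2_2 g__wQ_26_wN_1_rb803308123833x2_3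

theorem g__wQ_26_wN_1_rb803308123833x2_6 : GoodKC AS k_wQ_26_wN_1_rb803308123833x2_6 := p_wQ_26_wN_1_rb803308123833x2_6

theorem g__wQ_26_wN_1_rb803308123833x2_11 : GoodKC AS k_wQ_26_wN_1_rb803308123833x2_11 := p_wQ_26_wN_1_rb803308123833x2_11

theorem g__wQ_26_wN_1_rb803308123833x2_13 : GoodKC AS k_wQ_26_wN_1_rb803308123833x2_13 := p_wQ_26_wN_1_rb803308123833x2_13

theorem g__wQ_26_wN_1_rb803308123833x2_12 : GoodKC AS k_wQ_26_wN_1_rb803308123833x2_12 := p_wQ_26_wN_1_rb803308123833x2_12 g__wQ_26_wN_1_rb803308123833x2_13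

theorem g__wQ_26_wN_1_rb803308123833x2_10 : GoodKC AS k_wQ_26_wN_1_rb803308123833x2_10 := p_wQ_26_wN_1_rb803308123833x2_10 g__wQ_26_wN_1_rb803308123833x2_11 g__wQ_26_wN_1_rb803308123833x2_12

theorem g__wQ_26_wN_1_rb803308123833x2_9 : GoodKC AS k_wQ_26_wN_1_rb803308123833x2_9 := p_wQ_26_wN_1_rb803308123833x2_9 g__wQ_26_wN_1_rb803308123833x2_10

theorem g__wQ_26_wN_1_rb803308123833x2_8 : GoodKC AS k_wQ_26_wN_1_rb803308123833x2_8 := p_wQ_26_wN_1_rb803308123833x2_8 g__wQ_26_wN_1_rb803308123833x2_9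

theorem g__wQ_26_wN_1_rb803308123833x2_7 : GoodKC AS k_wQ_26_wN_1_rb803308123833x2_7 := p_wQ_26_wN_1_rb803308123833x2_7 g__wQ_26_wN_1_rb803308123833x2_8

theorem g__wQ_26_wN_1_rb803308123833x2_15 : GoodKC AS k_wQ_26_wN_1_rb803308123833x2_15 := p_wQ_26_wN_1_rb803308123833x2_15

theorem g__wQ_26_wN_1_rb803308123833x2_17 : GoodKC AS k_wQ_26_wN_1_rb803308123833x2_17 := p_wQ_26_wN_1_rb803308123833x2_17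

theorem g__wQ_26_wN_1_rb803308123833x2_24 : GoodKC AS k_wQ_26_wN_1_rb803308123833x2_24 := p_wQ_26_wN_1_rb803308123833x2_24

theorem g__wQ_26_wN_1_rb803308123833x2_25 : GoodKC AS k_wQ_26_wN_1_rb803308123833x2_25 := p_wQ_26_wN_1_rb803308123833x2_25

theorem g__wQ_26_wN_1_rb803308123833x2_23 : GoodKC AS k_wQ_26_wN_1_rb803308123833x2_23 := p_wQ_26_wN_1_rb803308123833x2_23 g__wQ_26_wN_1_rb803308123833x2_24 g__wQ_26_wN_1_rb803308123833x2_25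

theorem g__wQ_26_wN_1_rb803308123833x2_22 : GoodKC AS k_wQ_26_wN_1_rb803308123833x2_22 := p_wQ_26_wN_1_rb803308123833x2_22 g__wQ_26_wN_1_rb803308123833x2_23

theorem g__wQ_26_wN_1_rb803308123833x2_21 : GoodKC AS k_wQ_26_wN_1_rb803308123833x2_21 := p_wQ_26_wN_1_rb803308123833x2_21 g__wQ_26_wN_1_rb803308123833x2_22

theorem g__wQ_26_wN_1_rb803308123833x2_20 : GoodKC AS k_wQ_26_wN_1_rb803308123833x2_20 := p_wQ_26_wN_1_rb803308123833x2_20 g__wQ_26_wN_1_rb803308123833x2_21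

theorem g__wQ_26_wN_1_rb803308123833x2_19 : GoodKC AS k_wQ_26_wN_1_rb803308123833x2_19 := p_wQ_26_wN_1_rb803308123833x2_19 g__wQ_26_wN_1_rb803308123833x2_20

theorem g__wQ_26_wN_1_rb803308123833x2_18 : GoodKC AS k_wQ_26_wN_1_rb803308123833x2_18 := p_wQ_26_wN_1_rb803308123833x2_18 g__wQ_26_wN_1_rb803308123833x2_19

theorem g__wQ_26_wN_1_rb803308123833x2_16 : GoodKC AS k_wQ_26_wN_1_rb803308123833x2_16 := p_wQ_26_wN_1_rb803308123833x2_16 g__wQ_26_wN_1_rb803308123833x2_17 g__wQ_26_wN_1_rb803308123833x2_18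

theorem g__wQ_26_wN_1_rb803308123833x2_26 : GoodKC AS k_wQ_26_wN_1_rb803308123833x2_26 := p_wQ_26_wN_1_rb803308123833x2_26

theorem g__wQ_26_wN_1_rb803308123833x2_14 : GoodKC AS k_wQ_26_wN_1_rb803308123833x2_14 := p_wQ_26_wN_1_rb803308123833x2_14 g__wQ_26_wN_1_rb803308123833x2_15 g__wQ_26_wN_1_rb803308123833x2_16 g__wQ_26_wN_1_rb803308123833x2_26

theorem g__wQ_26_wN_1_rb803308123833x2_5 : GoodKC AS k_wQ_26_wN_1_rb803308123833x2_5 := p_wQ_26_wN_1_rb803308123833x2_5 g__wQ_26_wN_1_rb803308123833x2_6 g__wQ_26_wN_1_rb803308123833x2_7 g__wQ_26_wN_1_rb803308123833x2_14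

theorem g__wQ_26_wN_1_rb803308123833x2_1 : GoodKC AS k_wQ_26_wN_1_rb803308123833x2_1 := p_wQ_26_wN_1_rb803308123833x2_1 g__wQ_26_wN_1_rb803308123833x2_2 g__wQ_26_wN_1_rb803308123833x2_5

theorem g__wQ_26_wN_1_rb803308123833x2_0 : GoodKC AS k_wQ_26_wN_1_rb803308123833x2_0 := p_wQ_26_wN_1_rb803308123833x2_0 g__wQ_26_wN_1_rb803308123833x2_1

theorem g_wQ_26_wN_1_rb80330812383306x2 : GoodKC AS c_wQ_26_wN_1_rb80330812383306x2 := p_wQ_26_wN_1_rb80330812383306x1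

theorem g_wQ_26_wN_1_rb80330812383302x2 : GoodKC AS c_wQ_26_wN_1_rb80330812383302x2 := p_wQ_26_wN_1_rb80330812383302x1

theorem g_wQ_26_wN_1_rb80330812383301x2 : GoodKC AS c_wQ_26_wN_1_rb80330812383301x2 := p_wQ_26_wN_1_rb80330812383301x1

theorem g__wQ_26_wN_1_rb80330812383300v1_6 : GoodKC AS k_wQ_26_wN_1_rb80330812383300v1_6 := p_wQ_26_wN_1_rb80330812383300v1_6

theorem g__wQ_26_wN_1_rb80330812383300v1_5 : GoodKC AS k_wQ_26_wN_1_rb80330812383300v1_5 := p_wQ_26_wN_1_rb80330812383300v1_5 g__wQ_26_wN_1_rb80330812383300v1_6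

theorem g__wQ_26_wN_1_rb80330812383300v1_4 : GoodKC AS k_wQ_26_wN_1_rb80330812383300v1_4 := p_wQ_26_wN_1_rb80330812383300v1_4 g__wQ_26_wN_1_rb80330812383300v1_5

theorem g__wQ_26_wN_1_rb80330812383300v1_3 : GoodKC AS k_wQ_26_wN_1_rb80330812383300v1_3 := p_wQ_26_wN_1_rb80330812383300v1_3 g__wQ_26_wN_1_rb80330812383300v1_4

theorem g__wQ_26_wN_1_rb80330812383300v1_2 : GoodKC AS k_wQ_26_wN_1_rb80330812383300v1_2 := p_wQ_26_wN_1_rb80330812383300v1_2 g__wQ_26_wN_1_rb80330812383300v1_3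

theorem g__wQ_26_wN_1_rb80330812383300v1_1 : GoodKC AS k_wQ_26_wN_1_rb80330812383300v1_1 := p_wQ_26_wN_1_rb80330812383300v1_1 g__wQ_26_wN_1_rb80330812383300v1_2

theorem g__wQ_26_wN_1_rb80330812383300v1_0 : GoodKC AS k_wQ_26_wN_1_rb80330812383300v1_0 := p_wQ_26_wN_1_rb80330812383300v1_0 g__wQ_26_wN_1_rb80330812383300v1_1

theorem g_wQ_26_wN_1_rb8033081238330003x1 : GoodKC AS c_wQ_26_wN_1_rb8033081238330003x1 := p_wQ_26_wN_1_rb8033081238330003x1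

theorem g_wQ_26_wN_1_rb8033081238330002x1 : GoodKC AS c_wQ_26_wN_1_rb8033081238330002x1 := p_wQ_26_wN_1_rb8033081238330002x1

theorem g__wQ_26_wN_1_rb8033081238330000v1_0 : GoodKC AS k_wQ_26_wN_1_rb8033081238330000v1_0 := p_wQ_26_wN_1_rb8033081238330000v1_0

theorem g_wQ_26_wN_1_rb8033081238330000x1 : GoodKC AS c_wQ_26_wN_1_rb8033081238330000x1 := p_wQ_26_wN_1_rb8033081238330000x1 g__wQ_26_wN_1_rb8033081238330000v1_0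

theorem g_wQ_26_wN_1_rb8033081238330001x1 : GoodKC AS c_wQ_26_wN_1_rb8033081238330001x1 := p_wQ_26_wN_1_rb8033081238330001x1

theorem g_wQ_26_wN_1_rb8033081238330004x1 : GoodKC AS c_wQ_26_wN_1_rb8033081238330004x1 := p_wQ_26_wN_1_rb8033081238330004x1

theorem g_wQ_26_wN_1_rb80330812383300x2 : GoodKC AS c_wQ_26_wN_1_rb80330812383300x2 := p_wQ_26_wN_1_rb80330812383300x1 g__wQ_26_wN_1_rb80330812383300v1_0 g_wQ_26_wN_1_rb8033081238330003x1 g_wQ_26_wN_1_rb8033081238330002x1 g_wQ_26_wN_1_rb8033081238330000x1 g_wQ_26_wN_1_rb8033081238330001x1 g_wQ_26_wN_1_rb8033081238330004x1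

theorem g_wQ_26_wN_1_rb80330812383303x2 : GoodKC AS c_wQ_26_wN_1_rb80330812383303x2 := p_wQ_26_wN_1_rb80330812383303x1

theorem g_wQ_26_wN_1_rb80330812383304x2 : GoodKC AS c_wQ_26_wN_1_rb80330812383304x2 := p_wQ_26_wN_1_rb80330812383304x1

theorem g_wQ_26_wN_1_rb80330812383305x2 : GoodKC AS c_wQ_26_wN_1_rb80330812383305x2 := p_wQ_26_wN_1_rb80330812383305x1

theorem g_wQ_26_wN_1_rb803308123833x2 : GoodKC AS c_wQ_26_wN_1_rb803308123833x2 := p_wQ_26_wN_1_rb803308123833x2 g__wQ_26_wN_1_rb803308123833x2_0 g_wQ_26_wN_1_rb80330812383306x2 g_wQ_26_wN_1_rb80330812383302x2 g_wQ_26_wN_1_rb80330812383301x2 g_wQ_26_wN_1_rb80330812383300x2 g_wQ_26_wN_1_rb80330812383303x2 g_wQ_26_wN_1_rb80330812383304x2 g_wQ_26_wN_1_rb80330812383305x2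

theorem g_wQ_26_wN_1_rb803308123832x2 : GoodKC AS c_wQ_26_wN_1_rb803308123832x2 := p_wQ_26_wN_1_rb803308123832x2

theorem g_wQ_26_wN_1_rb803308123831x2 : GoodKC AS c_wQ_26_wN_1_rb803308123831x2 := p_wQ_26_wN_1_rb803308123831x2

theorem g__wQ_26_wN_1_rb803308123830v2_0 : GoodKC AS k_wQ_26_wN_1_rb803308123830v2_0 := p_wQ_26_wN_1_rb803308123830v2_0

theorem g_wQ_26_wN_1_rb803308123830x2 : GoodKC AS c_wQ_26_wN_1_rb803308123830x2 := p_wQ_26_wN_1_rb803308123830x2 g__wQ_26_wN_1_rb803308123830v2_0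

theorem g_wQ_26_wN_1_rb80330812382fx2 : GoodKC AS c_wQ_26_wN_1_rb80330812382fx2 := p_wQ_26_wN_1_rb80330812382fx2

theorem g_wQ_26_wN_1_rb80330812382cx2 : GoodKC AS c_wQ_26_wN_1_rb80330812382cx2 := p_wQ_26_wN_1_rb80330812382cx2

theorem g_wQ_26_wN_1_rb803308123829x2 : GoodKC AS c_wQ_26_wN_1_rb803308123829x2 := p_wQ_26_wN_1_rb803308123829x2

theorem g_wQ_26_wN_1_rb803308123828x2 : GoodKC AS c_wQ_26_wN_1_rb803308123828x2 := p_wQ_26_wN_1_rb803308123828x2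

theorem g_wQ_26_wN_1_rb803308123827x2 : GoodKC AS c_wQ_26_wN_1_rb803308123827x2 := p_wQ_26_wN_1_rb803308123827x2

theorem g__wQ_26_wN_1_rb803308123826x2_7 : GoodKC AS k_wQ_26_wN_1_rb803308123826x2_7 := p_wQ_26_wN_1_rb803308123826x2_7

theorem g__wQ_26_wN_1_rb803308123826x2_6 : GoodKC AS k_wQ_26_wN_1_rb803308123826x2_6 := p_wQ_26_wN_1_rb803308123826x2_6 g__wQ_26_wN_1_rb803308123826x2_7

theorem g__wQ_26_wN_1_rb803308123826x2_5 : GoodKC AS k_wQ_26_wN_1_rb803308123826x2_5 := p_wQ_26_wN_1_rb803308123826x2_5 g__wQ_26_wN_1_rb803308123826x2_6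

theorem g__wQ_26_wN_1_rb803308123826x2_4 : GoodKC AS k_wQ_26_wN_1_rb803308123826x2_4 := p_wQ_26_wN_1_rb803308123826x2_4 g__wQ_26_wN_1_rb803308123826x2_5

theorem g__wQ_26_wN_1_rb803308123826x2_3 : GoodKC AS k_wQ_26_wN_1_rb803308123826x2_3 := p_wQ_26_wN_1_rb803308123826x2_3 g__wQ_26_wN_1_rb803308123826x2_4

theorem g__wQ_26_wN_1_rb803308123826x2_2 : GoodKC AS k_wQ_26_wN_1_rb803308123826x2_2 := p_wQ_26_wN_1_rb803308123826x2_2 g__wQ_26_wN_1_rb803308123826x2_3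

theorem g__wQ_26_wN_1_rb803308123826x2_1 : GoodKC AS k_wQ_26_wN_1_rb803308123826x2_1 := p_wQ_26_wN_1_rb803308123826x2_1 g__wQ_26_wN_1_rb803308123826x2_2

theorem g__wQ_26_wN_1_rb803308123826x2_0 : GoodKC AS k_wQ_26_wN_1_rb803308123826x2_0 := p_wQ_26_wN_1_rb803308123826x2_0 g__wQ_26_wN_1_rb803308123826x2_1

theorem g_wQ_26_wN_1_rb803308123826x2 : GoodKC AS c_wQ_26_wN_1_rb803308123826x2 := p_wQ_26_wN_1_rb803308123826x2 g__wQ_26_wN_1_rb803308123826x2_0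

theorem g_wQ_26_wN_1_rb803308123824x2 : GoodKC AS c_wQ_26_wN_1_rb803308123824x2 := p_wQ_26_wN_1_rb803308123824x2

theorem g_wQ_26_wN_1_rb803308123823x2 : GoodKC AS c_wQ_26_wN_1_rb803308123823x2 := p_wQ_26_wN_1_rb803308123823x2

theorem g_wQ_26_wN_1_rb803308123822x2 : GoodKC AS c_wQ_26_wN_1_rb803308123822x2 := p_wQ_26_wN_1_rb803308123822x2

theorem g_wQ_26_wN_1_rb803308123821x2 : GoodKC AS c_wQ_26_wN_1_rb803308123821x2 := p_wQ_26_wN_1_rb803308123821x2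

theorem g_wQ_26_wN_1_rb803308123820x2 : GoodKC AS c_wQ_26_wN_1_rb803308123820x2 := p_wQ_26_wN_1_rb803308123820x2

theorem g__wQ_26_wN_1_rb80330812381fx2_0 : GoodKC AS k_wQ_26_wN_1_rb80330812381fx2_0 := p_wQ_26_wN_1_rb80330812381fx2_0

theorem g__wQ_26_wN_1_rb80330812381fx2_3 : GoodKC AS k_wQ_26_wN_1_rb80330812381fx2_3 := p_wQ_26_wN_1_rb80330812381fx2_3

theorem g__wQ_26_wN_1_rb80330812381fx2_4 : GoodKC AS k_wQ_26_wN_1_rb80330812381fx2_4 := p_wQ_26_wN_1_rb80330812381fx2_4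

theorem g__wQ_26_wN_1_rb80330812381fx2_2 : GoodKC AS k_wQ_26_wN_1_rb80330812381fx2_2 := p_wQ_26_wN_1_rb80330812381fx2_2 g__wQ_26_wN_1_rb80330812381fx2_3 g__wQ_26_wN_1_rb80330812381fx2_4

theorem g__wQ_26_wN_1_rb80330812381fx2_1 : GoodKC AS k_wQ_26_wN_1_rb80330812381fx2_1 := p_wQ_26_wN_1_rb80330812381fx2_1 g__wQ_26_wN_1_rb80330812381fx2_2

theorem g_wQ_26_wN_1_rb80330812381fx2 : GoodKC AS c_wQ_26_wN_1_rb80330812381fx2 := p_wQ_26_wN_1_rb80330812381fx2 g__wQ_26_wN_1_rb80330812381fx2_0 g__wQ_26_wN_1_rb80330812381fx2_1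

theorem g_wQ_26_wN_1_rb80330812381dx2 : GoodKC AS c_wQ_26_wN_1_rb80330812381dx2 := p_wQ_26_wN_1_rb80330812381dx2

theorem g_wQ_26_wN_1_rb80330812381cx2 : GoodKC AS c_wQ_26_wN_1_rb80330812381cx2 := p_wQ_26_wN_1_rb80330812381cx2

theorem g_wQ_26_wN_1_rb80330812381bx2 : GoodKC AS c_wQ_26_wN_1_rb80330812381bx2 := p_wQ_26_wN_1_rb80330812381bx2

theorem g_wQ_26_wN_1_rb80330812381ax2 : GoodKC AS c_wQ_26_wN_1_rb80330812381ax2 := p_wQ_26_wN_1_rb80330812381ax2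

theorem g_wQ_26_wN_1_rb803308123819x2 : GoodKC AS c_wQ_26_wN_1_rb803308123819x2 := p_wQ_26_wN_1_rb803308123819x2

theorem g_wQ_26_wN_1_rb803308123816x2 : GoodKC AS c_wQ_26_wN_1_rb803308123816x2 := p_wQ_26_wN_1_rb803308123816x2

theorem g_wQ_26_wN_1_rb803308123815x2 : GoodKC AS c_wQ_26_wN_1_rb803308123815x2 := p_wQ_26_wN_1_rb803308123815x2

theorem g__wQ_26_wN_1_rb8033081238x2_3 : GoodKC AS k_wQ_26_wN_1_rb8033081238x2_3 := p_wQ_26_wN_1_rb8033081238x2_3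

theorem g__wQ_26_wN_1_rb803308123800v2_4 : GoodKC AS k_wQ_26_wN_1_rb803308123800v2_4 := p_wQ_26_wN_1_rb803308123800v2_4

theorem g__wQ_26_wN_1_rb803308123800v2_7 : GoodKC AS k_wQ_26_wN_1_rb803308123800v2_7 := p_wQ_26_wN_1_rb803308123800v2_7

theorem g__wQ_26_wN_1_rb803308123800v2_6 : GoodKC AS k_wQ_26_wN_1_rb803308123800v2_6 := p_wQ_26_wN_1_rb803308123800v2_6 g__wQ_26_wN_1_rb803308123800v2_7

theorem g__wQ_26_wN_1_rb803308123800v2_8 : GoodKC AS k_wQ_26_wN_1_rb803308123800v2_8 := p_wQ_26_wN_1_rb803308123800v2_8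

theorem g__wQ_26_wN_1_rb803308123800v2_5 : GoodKC AS k_wQ_26_wN_1_rb803308123800v2_5 := p_wQ_26_wN_1_rb803308123800v2_5 g__wQ_26_wN_1_rb803308123800v2_6 g__wQ_26_wN_1_rb803308123800v2_8

theorem g__wQ_26_wN_1_rb803308123800v2_3 : GoodKC AS k_wQ_26_wN_1_rb803308123800v2_3 := p_wQ_26_wN_1_rb803308123800v2_3 g__wQ_26_wN_1_rb803308123800v2_4 g__wQ_26_wN_1_rb803308123800v2_5

theorem g__wQ_26_wN_1_rb803308123800v2_2 : GoodKC AS k_wQ_26_wN_1_rb803308123800v2_2 := p_wQ_26_wN_1_rb803308123800v2_2 g__wQ_26_wN_1_rb803308123800v2_3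

theorem g__wQ_26_wN_1_rb803308123800v2_10 : GoodKC AS k_wQ_26_wN_1_rb803308123800v2_10 := p_wQ_26_wN_1_rb803308123800v2_10

theorem g__wQ_26_wN_1_rb803308123800v2_12 : GoodKC AS k_wQ_26_wN_1_rb803308123800v2_12 := p_wQ_26_wN_1_rb803308123800v2_12

theorem g__wQ_26_wN_1_rb803308123800v2_11 : GoodKC AS k_wQ_26_wN_1_rb803308123800v2_11 := p_wQ_26_wN_1_rb803308123800v2_11 g__wQ_26_wN_1_rb803308123800v2_12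

theorem g__wQ_26_wN_1_rb803308123800v2_9 : GoodKC AS k_wQ_26_wN_1_rb803308123800v2_9 := p_wQ_26_wN_1_rb803308123800v2_9 g__wQ_26_wN_1_rb803308123800v2_10 g__wQ_26_wN_1_rb803308123800v2_11

theorem g__wQ_26_wN_1_rb803308123800v2_1 : GoodKC AS k_wQ_26_wN_1_rb803308123800v2_1 := p_wQ_26_wN_1_rb803308123800v2_1 g__wQ_26_wN_1_rb803308123800v2_2 g__wQ_26_wN_1_rb803308123800v2_9

theorem g__wQ_26_wN_1_rb803308123800v2_13 : GoodKC AS k_wQ_26_wN_1_rb803308123800v2_13 := p_wQ_26_wN_1_rb803308123800v2_13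

theorem g__wQ_26_wN_1_rb803308123800v2_0 : GoodKC AS k_wQ_26_wN_1_rb803308123800v2_0 := p_wQ_26_wN_1_rb803308123800v2_0 g__wQ_26_wN_1_rb803308123800v2_1 g__wQ_26_wN_1_rb803308123800v2_13

theorem g_wQ_26_wN_1_rb803308123800x2 : GoodKC AS c_wQ_26_wN_1_rb803308123800x2 := p_wQ_26_wN_1_rb803308123800x2 g__wQ_26_wN_1_rb803308123800v2_0

theorem g__wQ_26_wN_1_rb8033081238x2_10 : GoodKC AS k_wQ_26_wN_1_rb8033081238x2_10 := p_wQ_26_wN_1_rb8033081238x2_10 g_wQ_26_wN_1_rb803308123800x2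

theorem g__wQ_26_wN_1_rb8033081238x2_9 : GoodKC AS k_wQ_26_wN_1_rb8033081238x2_9 := p_wQ_26_wN_1_rb8033081238x2_9 g__wQ_26_wN_1_rb8033081238x2_10

theorem g__wQ_26_wN_1_rb8033081238x2_8 : GoodKC AS k_wQ_26_wN_1_rb8033081238x2_8 := p_wQ_26_wN_1_rb8033081238x2_8 g__wQ_26_wN_1_rb8033081238x2_9

theorem g__wQ_26_wN_1_rb8033081238x2_7 : GoodKC AS k_wQ_26_wN_1_rb8033081238x2_7 := p_wQ_26_wN_1_rb8033081238x2_7 g__wQ_26_wN_1_rb8033081238x2_8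

theorem g__wQ_26_wN_1_rb8033081238x2_6 : GoodKC AS k_wQ_26_wN_1_rb8033081238x2_6 := p_wQ_26_wN_1_rb8033081238x2_6 g__wQ_26_wN_1_rb8033081238x2_7

theorem g__wQ_26_wN_1_rb8033081238x2_11 : GoodKC AS k_wQ_26_wN_1_rb8033081238x2_11 := p_wQ_26_wN_1_rb8033081238x2_11

theorem g__wQ_26_wN_1_rb8033081238x2_5 : GoodKC AS k_wQ_26_wN_1_rb8033081238x2_5 := p_wQ_26_wN_1_rb8033081238x2_5 g__wQ_26_wN_1_rb8033081238x2_6 g__wQ_26_wN_1_rb8033081238x2_11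

theorem g__wQ_26_wN_1_rb8033081238x2_4 : GoodKC AS k_wQ_26_wN_1_rb8033081238x2_4 := p_wQ_26_wN_1_rb8033081238x2_4 g__wQ_26_wN_1_rb8033081238x2_5

theorem g__wQ_26_wN_1_rb8033081238x2_2 : GoodKC AS k_wQ_26_wN_1_rb8033081238x2_2 := p_wQ_26_wN_1_rb8033081238x2_2 g__wQ_26_wN_1_rb8033081238x2_3 g__wQ_26_wN_1_rb8033081238x2_4

theorem g__wQ_26_wN_1_rb8033081238x2_1 : GoodKC AS k_wQ_26_wN_1_rb8033081238x2_1 := p_wQ_26_wN_1_rb8033081238x2_1 g__wQ_26_wN_1_rb8033081238x2_2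

theorem g__wQ_26_wN_1_rb8033081238x2_0 : GoodKC AS k_wQ_26_wN_1_rb8033081238x2_0 := p_wQ_26_wN_1_rb8033081238x2_0 g__wQ_26_wN_1_rb8033081238x2_1

theorem g_wQ_26_wN_1_rb803308123813x2 : GoodKC AS c_wQ_26_wN_1_rb803308123813x2 := p_wQ_26_wN_1_rb803308123813x2

theorem g_wQ_26_wN_1_rb803308123810x2 : GoodKC AS c_wQ_26_wN_1_rb803308123810x2 := p_wQ_26_wN_1_rb803308123810x2

theorem g__wQ_26_wN_1_rb80330812380fx2_1 : GoodKC AS k_wQ_26_wN_1_rb80330812380fx2_1 := p_wQ_26_wN_1_rb80330812380fx2_1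

theorem g__wQ_26_wN_1_rb80330812380fx2_0 : GoodKC AS k_wQ_26_wN_1_rb80330812380fx2_0 := p_wQ_26_wN_1_rb80330812380fx2_0 g__wQ_26_wN_1_rb80330812380fx2_1

theorem g__wQ_26_wN_1_rb80330812380fx2_3 : GoodKC AS k_wQ_26_wN_1_rb80330812380fx2_3 := p_wQ_26_wN_1_rb80330812380fx2_3

theorem g__wQ_26_wN_1_rb80330812380fx2_9 : GoodKC AS k_wQ_26_wN_1_rb80330812380fx2_9 := p_wQ_26_wN_1_rb80330812380fx2_9

theorem g__wQ_26_wN_1_rb80330812380fx2_8 : GoodKC AS k_wQ_26_wN_1_rb80330812380fx2_8 := p_wQ_26_wN_1_rb80330812380fx2_8 g__wQ_26_wN_1_rb80330812380fx2_9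

theorem g__wQ_26_wN_1_rb80330812380fx2_7 : GoodKC AS k_wQ_26_wN_1_rb80330812380fx2_7 := p_wQ_26_wN_1_rb80330812380fx2_7 g__wQ_26_wN_1_rb80330812380fx2_8

theorem g__wQ_26_wN_1_rb80330812380fx2_6 : GoodKC AS k_wQ_26_wN_1_rb80330812380fx2_6 := p_wQ_26_wN_1_rb80330812380fx2_6 g__wQ_26_wN_1_rb80330812380fx2_7

theorem g__wQ_26_wN_1_rb80330812380fx2_5 : GoodKC AS k_wQ_26_wN_1_rb80330812380fx2_5 := p_wQ_26_wN_1_rb80330812380fx2_5 g__wQ_26_wN_1_rb80330812380fx2_6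

theorem g__wQ_26_wN_1_rb80330812380fx2_10 : GoodKC AS k_wQ_26_wN_1_rb80330812380fx2_10 := p_wQ_26_wN_1_rb80330812380fx2_10

theorem g__wQ_26_wN_1_rb80330812380fx2_4 : GoodKC AS k_wQ_26_wN_1_rb80330812380fx2_4 := p_wQ_26_wN_1_rb80330812380fx2_4 g__wQ_26_wN_1_rb80330812380fx2_5 g__wQ_26_wN_1_rb80330812380fx2_10

theorem g__wQ_26_wN_1_rb80330812380fx2_2 : GoodKC AS k_wQ_26_wN_1_rb80330812380fx2_2 := p_wQ_26_wN_1_rb80330812380fx2_2 g__wQ_26_wN_1_rb80330812380fx2_3 g__wQ_26_wN_1_rb80330812380fx2_4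

theorem g_wQ_26_wN_1_rb80330812380fx2 : GoodKC AS c_wQ_26_wN_1_rb80330812380fx2 := p_wQ_26_wN_1_rb80330812380fx2 g__wQ_26_wN_1_rb80330812380fx2_0 g__wQ_26_wN_1_rb80330812380fx2_2

theorem g_wQ_26_wN_1_rb80330812380ex2 : GoodKC AS c_wQ_26_wN_1_rb80330812380ex2 := p_wQ_26_wN_1_rb80330812380ex2

theorem g_wQ_26_wN_1_rb80330812380bx2 : GoodKC AS c_wQ_26_wN_1_rb80330812380bx2 := p_wQ_26_wN_1_rb80330812380bx2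

theorem g_wQ_26_wN_1_rb803308123805x2 : GoodKC AS c_wQ_26_wN_1_rb803308123805x2 := p_wQ_26_wN_1_rb803308123805x2

theorem g_wQ_26_wN_1_rb803308123803x2 : GoodKC AS c_wQ_26_wN_1_rb803308123803x2 := p_wQ_26_wN_1_rb803308123803x2

theorem g_wQ_26_wN_1_rb803308123802x2 : GoodKC AS c_wQ_26_wN_1_rb803308123802x2 := p_wQ_26_wN_1_rb803308123802x2

theorem g__wQ_26_wN_1_rb803308123801x2_5 : GoodKC AS k_wQ_26_wN_1_rb803308123801x2_5 := p_wQ_26_wN_1_rb803308123801x2_5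

theorem g__wQ_26_wN_1_rb803308123801x2_4 : GoodKC AS k_wQ_26_wN_1_rb803308123801x2_4 := p_wQ_26_wN_1_rb803308123801x2_4 g__wQ_26_wN_1_rb803308123801x2_5

theorem g__wQ_26_wN_1_rb803308123801x2_6 : GoodKC AS k_wQ_26_wN_1_rb803308123801x2_6 := p_wQ_26_wN_1_rb803308123801x2_6

theorem g__wQ_26_wN_1_rb803308123801x2_7 : GoodKC AS k_wQ_26_wN_1_rb803308123801x2_7 := p_wQ_26_wN_1_rb803308123801x2_7

theorem g__wQ_26_wN_1_rb803308123801x2_3 : GoodKC AS k_wQ_26_wN_1_rb803308123801x2_3 := p_wQ_26_wN_1_rb803308123801x2_3 g__wQ_26_wN_1_rb803308123801x2_4 g__wQ_26_wN_1_rb803308123801x2_6 g__wQ_26_wN_1_rb803308123801x2_7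

theorem g__wQ_26_wN_1_rb803308123801x2_2 : GoodKC AS k_wQ_26_wN_1_rb803308123801x2_2 := p_wQ_26_wN_1_rb803308123801x2_2 g__wQ_26_wN_1_rb803308123801x2_3

theorem g__wQ_26_wN_1_rb803308123801x2_8 : GoodKC AS k_wQ_26_wN_1_rb803308123801x2_8 := p_wQ_26_wN_1_rb803308123801x2_8

theorem g__wQ_26_wN_1_rb803308123801x2_1 : GoodKC AS k_wQ_26_wN_1_rb803308123801x2_1 := p_wQ_26_wN_1_rb803308123801x2_1 g__wQ_26_wN_1_rb803308123801x2_2 g__wQ_26_wN_1_rb803308123801x2_8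

theorem g__wQ_26_wN_1_rb803308123801x2_0 : GoodKC AS k_wQ_26_wN_1_rb803308123801x2_0 := p_wQ_26_wN_1_rb803308123801x2_0 g__wQ_26_wN_1_rb803308123801x2_1

theorem g_wQ_26_wN_1_rb803308123801x2 : GoodKC AS c_wQ_26_wN_1_rb803308123801x2 := p_wQ_26_wN_1_rb803308123801x2 g__wQ_26_wN_1_rb803308123801x2_0

theorem g_wQ_26_wN_1_rb803308123804x2 : GoodKC AS c_wQ_26_wN_1_rb803308123804x2 := p_wQ_26_wN_1_rb803308123804x2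

theorem g_wQ_26_wN_1_rb803308123806x2 : GoodKC AS c_wQ_26_wN_1_rb803308123806x2 := p_wQ_26_wN_1_rb803308123806x2

theorem g_wQ_26_wN_1_rb803308123807x2 : GoodKC AS c_wQ_26_wN_1_rb803308123807x2 := p_wQ_26_wN_1_rb803308123807x2

theorem g_wQ_26_wN_1_rb803308123808x2 : GoodKC AS c_wQ_26_wN_1_rb803308123808x2 := p_wQ_26_wN_1_rb803308123808x2

theorem g_wQ_26_wN_1_rb803308123809x2 : GoodKC AS c_wQ_26_wN_1_rb803308123809x2 := p_wQ_26_wN_1_rb803308123809x2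

theorem g_wQ_26_wN_1_rb80330812380ax2 : GoodKC AS c_wQ_26_wN_1_rb80330812380ax2 := p_wQ_26_wN_1_rb80330812380ax2

theorem g_wQ_26_wN_1_rb80330812380cx2 : GoodKC AS c_wQ_26_wN_1_rb80330812380cx2 := p_wQ_26_wN_1_rb80330812380cx2

theorem g_wQ_26_wN_1_rb80330812380dx2 : GoodKC AS c_wQ_26_wN_1_rb80330812380dx2 := p_wQ_26_wN_1_rb80330812380dx2

theorem g_wQ_26_wN_1_rb803308123811x2 : GoodKC AS c_wQ_26_wN_1_rb803308123811x2 := p_wQ_26_wN_1_rb803308123811x2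

theorem g_wQ_26_wN_1_rb803308123812x2 : GoodKC AS c_wQ_26_wN_1_rb803308123812x2 := p_wQ_26_wN_1_rb803308123812x2

theorem g_wQ_26_wN_1_rb803308123814x2 : GoodKC AS c_wQ_26_wN_1_rb803308123814x2 := p_wQ_26_wN_1_rb803308123814x2

theorem g__wQ_26_wN_1_rb803308123817x2_3 : GoodKC AS k_wQ_26_wN_1_rb803308123817x2_3 := p_wQ_26_wN_1_rb803308123817x2_3

theorem g__wQ_26_wN_1_rb803308123817x2_2 : GoodKC AS k_wQ_26_wN_1_rb803308123817x2_2 := p_wQ_26_wN_1_rb803308123817x2_2 g__wQ_26_wN_1_rb803308123817x2_3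

theorem g__wQ_26_wN_1_rb803308123817x2_7 : GoodKC AS k_wQ_26_wN_1_rb803308123817x2_7 := p_wQ_26_wN_1_rb803308123817x2_7

theorem g__wQ_26_wN_1_rb803308123817x2_11 : GoodKC AS k_wQ_26_wN_1_rb803308123817x2_11 := p_wQ_26_wN_1_rb803308123817x2_11

theorem g__wQ_26_wN_1_rb803308123817x2_10 : GoodKC AS k_wQ_26_wN_1_rb803308123817x2_10 := p_wQ_26_wN_1_rb803308123817x2_10 g__wQ_26_wN_1_rb803308123817x2_11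

theorem g__wQ_26_wN_1_rb803308123817x2_9 : GoodKC AS k_wQ_26_wN_1_rb803308123817x2_9 := p_wQ_26_wN_1_rb803308123817x2_9 g__wQ_26_wN_1_rb803308123817x2_10

theorem g__wQ_26_wN_1_rb803308123817x2_12 : GoodKC AS k_wQ_26_wN_1_rb803308123817x2_12 := p_wQ_26_wN_1_rb803308123817x2_12

theorem g__wQ_26_wN_1_rb803308123817x2_8 : GoodKC AS k_wQ_26_wN_1_rb803308123817x2_8 := p_wQ_26_wN_1_rb803308123817x2_8 g__wQ_26_wN_1_rb803308123817x2_9 g__wQ_26_wN_1_rb803308123817x2_12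

theorem g__wQ_26_wN_1_rb803308123817x2_13 : GoodKC AS k_wQ_26_wN_1_rb803308123817x2_13 := p_wQ_26_wN_1_rb803308123817x2_13

theorem g__wQ_26_wN_1_rb803308123817x2_6 : GoodKC AS k_wQ_26_wN_1_rb803308123817x2_6 := p_wQ_26_wN_1_rb803308123817x2_6 g__wQ_26_wN_1_rb803308123817x2_7 g__wQ_26_wN_1_rb803308123817x2_8 g__wQ_26_wN_1_rb803308123817x2_13

theorem g__wQ_26_wN_1_rb803308123817x2_5 : GoodKC AS k_wQ_26_wN_1_rb803308123817x2_5 := p_wQ_26_wN_1_rb803308123817x2_5 g__wQ_26_wN_1_rb803308123817x2_6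

theorem g__wQ_26_wN_1_rb803308123817x2_4 : GoodKC AS k_wQ_26_wN_1_rb803308123817x2_4 := p_wQ_26_wN_1_rb803308123817x2_4 g__wQ_26_wN_1_rb803308123817x2_5

theorem g__wQ_26_wN_1_rb803308123817x2_1 : GoodKC AS k_wQ_26_wN_1_rb803308123817x2_1 := p_wQ_26_wN_1_rb803308123817x2_1 g__wQ_26_wN_1_rb803308123817x2_2 g__wQ_26_wN_1_rb803308123817x2_4

theorem g__wQ_26_wN_1_rb803308123817x2_0 : GoodKC AS k_wQ_26_wN_1_rb803308123817x2_0 := p_wQ_26_wN_1_rb803308123817x2_0 g__wQ_26_wN_1_rb803308123817x2_1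

theorem g__wQ_26_wN_1_rb803308123817x2_14 : GoodKC AS k_wQ_26_wN_1_rb803308123817x2_14 := p_wQ_26_wN_1_rb803308123817x2_14

theorem g_wQ_26_wN_1_rb803308123817x2 : GoodKC AS c_wQ_26_wN_1_rb803308123817x2 := p_wQ_26_wN_1_rb803308123817x2 g__wQ_26_wN_1_rb803308123817x2_0 g__wQ_26_wN_1_rb803308123817x2_14

theorem g_wQ_26_wN_1_rb803308123818x2 : GoodKC AS c_wQ_26_wN_1_rb803308123818x2 := p_wQ_26_wN_1_rb803308123818x2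

theorem g_wQ_26_wN_1_rb80330812381ex2 : GoodKC AS c_wQ_26_wN_1_rb80330812381ex2 := p_wQ_26_wN_1_rb80330812381ex2

theorem g_wQ_26_wN_1_rb803308123825x2 : GoodKC AS c_wQ_26_wN_1_rb803308123825x2 := p_wQ_26_wN_1_rb803308123825x2

theorem g_wQ_26_wN_1_rb80330812382ax2 : GoodKC AS c_wQ_26_wN_1_rb80330812382ax2 := p_wQ_26_wN_1_rb80330812382ax2

theorem g_wQ_26_wN_1_rb80330812382bx2 : GoodKC AS c_wQ_26_wN_1_rb80330812382bx2 := p_wQ_26_wN_1_rb80330812382bx2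

theorem g_wQ_26_wN_1_rb80330812382dx2 : GoodKC AS c_wQ_26_wN_1_rb80330812382dx2 := p_wQ_26_wN_1_rb80330812382dx2

theorem g_wQ_26_wN_1_rb80330812382ex2 : GoodKC AS c_wQ_26_wN_1_rb80330812382ex2 := p_wQ_26_wN_1_rb80330812382ex2

theorem g_wQ_26_wN_1_rb803308123835x2 : GoodKC AS c_wQ_26_wN_1_rb803308123835x2 := p_wQ_26_wN_1_rb803308123835x2

theorem g_wQ_26_wN_1_rb803308123836x2 : GoodKC AS c_wQ_26_wN_1_rb803308123836x2 := p_wQ_26_wN_1_rb803308123836x2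

theorem g_wQ_26_wN_1_rb803308123837x2 : GoodKC AS c_wQ_26_wN_1_rb803308123837x2 := p_wQ_26_wN_1_rb803308123837x2

theorem g__wQ_26_wN_1_rb803308123838x2_1 : GoodKC AS k_wQ_26_wN_1_rb803308123838x2_1 := p_wQ_26_wN_1_rb803308123838x2_1

theorem g__wQ_26_wN_1_rb803308123838x2_3 : GoodKC AS k_wQ_26_wN_1_rb803308123838x2_3 := p_wQ_26_wN_1_rb803308123838x2_3

theorem g__wQ_26_wN_1_rb803308123838x2_4 : GoodKC AS k_wQ_26_wN_1_rb803308123838x2_4 := p_wQ_26_wN_1_rb803308123838x2_4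

theorem g__wQ_26_wN_1_rb803308123838x2_2 : GoodKC AS k_wQ_26_wN_1_rb803308123838x2_2 := p_wQ_26_wN_1_rb803308123838x2_2 g__wQ_26_wN_1_rb803308123838x2_3 g__wQ_26_wN_1_rb803308123838x2_4

theorem g__wQ_26_wN_1_rb803308123838x2_5 : GoodKC AS k_wQ_26_wN_1_rb803308123838x2_5 := p_wQ_26_wN_1_rb803308123838x2_5

theorem g__wQ_26_wN_1_rb803308123838x2_0 : GoodKC AS k_wQ_26_wN_1_rb803308123838x2_0 := p_wQ_26_wN_1_rb803308123838x2_0 g__wQ_26_wN_1_rb803308123838x2_1 g__wQ_26_wN_1_rb803308123838x2_2 g__wQ_26_wN_1_rb803308123838x2_5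

theorem g_wQ_26_wN_1_rb803308123838x2 : GoodKC AS c_wQ_26_wN_1_rb803308123838x2 := p_wQ_26_wN_1_rb803308123838x2 g__wQ_26_wN_1_rb803308123838x2_0

theorem g_wQ_26_wN_1_rb80330812383ax2 : GoodKC AS c_wQ_26_wN_1_rb80330812383ax2 := p_wQ_26_wN_1_rb80330812383ax2

theorem g_wQ_26_wN_1_rb80330812383dx2 : GoodKC AS c_wQ_26_wN_1_rb80330812383dx2 := p_wQ_26_wN_1_rb80330812383dx2

theorem g_wQ_26_wN_1_rb80330812383ex2 : GoodKC AS c_wQ_26_wN_1_rb80330812383ex2 := p_wQ_26_wN_1_rb80330812383ex2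

theorem g_wQ_26_wN_1_rb803308123845x2 : GoodKC AS c_wQ_26_wN_1_rb803308123845x2 := p_wQ_26_wN_1_rb803308123845x2

theorem g_wQ_26_wN_1_rb8033081238x3 : GoodKC AS c_wQ_26_wN_1_rb8033081238x3 := p_wQ_26_wN_1_rb8033081238x2 g_wQ_26_wN_1_rb803308123846x2 g_wQ_26_wN_1_rb803308123844x2 g_wQ_26_wN_1_rb803308123843x2 g_wQ_26_wN_1_rb803308123842x2 g_wQ_26_wN_1_rb803308123841x2 g_wQ_26_wN_1_rb803308123840x2 g_wQ_26_wN_1_rb80330812383fx2 g_wQ_26_wN_1_rb80330812383cx2 g_wQ_26_wN_1_rb80330812383bx2 g_wQ_26_wN_1_rb803308123839x2 g_wQ_26_wN_1_rb803308123834x2 g_wQ_26_wN_1_rb803308123833x2 g_wQ_26_wN_1_rb803308123832x2 g_wQ_26_wN_1_rb803308123831x2 g_wQ_26_wN_1_rb803308123830x2 g_wQ_26_wN_1_rb80330812382fx2 g_wQ_26_wN_1_rb80330812382cx2 g_wQ_26_wN_1_rb803308123829x2 g_wQ_26_wN_1_rb803308123828x2 g_wQ_26_wN_1_rb803308123827x2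 g_wQ_26_wN_1_rb803308123826x2 g_wQ_26_wN_1_rb803308123824x2 g_wQ_26_wN_1_rb803308123823x2 g_wQ_26_wN_1_rb803308123822x2 g_wQ_26_wN_1_rb803308123821x2 g_wQ_26_wN_1_rb803308123820x2 g_wQ_26_wN_1_rb80330812381fx2 g_wQ_26_wN_1_rb80330812381dx2 g_wQ_26_wN_1_rb80330812381cx2 g_wQ_26_wN_1_rb80330812381bx2 g_wQ_26_wN_1_rb80330812381ax2 g_wQ_26_wN_1_rb803308123819x2 g_wQ_26_wN_1_rb803308123816x2 g_wQ_26_wN_1_rb803308123815x2 g__wQ_26_wN_1_rb8033081238x2_0 g_wQ_26_wN_1_rb803308123813x2 g_wQ_26_wN_1_rb803308123810x2 g_wQ_26_wN_1_rb80330812380fx2 g_wQ_26_wN_1_rb80330812380ex2 g_wQ_26_wN_1_rb80330812380bx2 g_wQ_26_wN_1_rb803308123805x2 g_wQ_26_wN_1_rb803308123803x2 g_wQ_26_wN_1_rb803308123802x2 g_wQ_26_wN_1_rb803308123801x2 g_wQ_26_wN_1_rb803308123804x2 g_wQ_26_wN_1_rb803308123806x2 g_wQ_26_wN_1_rb803308123807x2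 g_wQ_26_wN_1_rb803308123808x2 g_wQ_26_wN_1_rb803308123809x2 g_wQ_26_wN_1_rb80330812380ax2 g_wQ_26_wN_1_rb80330812380cx2 g_wQ_26_wN_1_rb80330812380dx2 g_wQ_26_wN_1_rb803308123811x2 g_wQ_26_wN_1_rb803308123812x2 g_wQ_26_wN_1_rb803308123814x2 g_wQ_26_wN_1_rb803308123817x2 g_wQ_26_wN_1_rb803308123818x2 g_wQ_26_wN_1_rb80330812381ex2 g_wQ_26_wN_1_rb803308123825x2 g_wQ_26_wN_1_rb80330812382ax2 g_wQ_26_wN_1_rb80330812382bx2 g_wQ_26_wN_1_rb80330812382dx2 g_wQ_26_wN_1_rb80330812382ex2 g_wQ_26_wN_1_rb803308123835x2 g_wQ_26_wN_1_rb803308123836x2 g_wQ_26_wN_1_rb803308123837x2 g_wQ_26_wN_1_rb803308123838x2 g_wQ_26_wN_1_rb80330812383ax2 g_wQ_26_wN_1_rb80330812383dx2 g_wQ_26_wN_1_rb80330812383ex2 g_wQ_26_wN_1_rb803308123845x2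

theorem g__wQ_26_wN_1_rb8033081237x3_0 : GoodKC AS k_wQ_26_wN_1_rb8033081237x3_0 := p_wQ_26_wN_1_rb8033081237x3_0

theorem g_wQ_26_wN_1_rb8033081237x3 : GoodKC AS c_wQ_26_wN_1_rb8033081237x3 := p_wQ_26_wN_1_rb8033081237x3 g__wQ_26_wN_1_rb8033081237x3_0

theorem g_wQ_26_wN_1_rb8033081236x3 : GoodKC AS c_wQ_26_wN_1_rb8033081236x3 := p_wQ_26_wN_1_rb8033081236x3

theorem g_wQ_26_wN_1_rb8033081235x3 : GoodKC AS c_wQ_26_wN_1_rb8033081235x3 := p_wQ_26_wN_1_rb8033081235x3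

theorem g__wQ_26_wN_1_rb8033081234x3_0 : GoodKC AS k_wQ_26_wN_1_rb8033081234x3_0 := p_wQ_26_wN_1_rb8033081234x3_0

theorem g_wQ_26_wN_1_rb8033081234x3 : GoodKC AS c_wQ_26_wN_1_rb8033081234x3 := p_wQ_26_wN_1_rb8033081234x3 g__wQ_26_wN_1_rb8033081234x3_0

theorem g_wQ_26_wN_1_rb8033081233x3 : GoodKC AS c_wQ_26_wN_1_rb8033081233x3 := p_wQ_26_wN_1_rb8033081233x3

theorem g__wQ_26_wN_1_rb8033081232x3_0 : GoodKC AS k_wQ_26_wN_1_rb8033081232x3_0 := p_wQ_26_wN_1_rb8033081232x3_0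

theorem g_wQ_26_wN_1_rb8033081232x3 : GoodKC AS c_wQ_26_wN_1_rb8033081232x3 := p_wQ_26_wN_1_rb8033081232x3 g__wQ_26_wN_1_rb8033081232x3_0

theorem g__wQ_26_wN_1_rb8033081230v3_2 : GoodKC AS k_wQ_26_wN_1_rb8033081230v3_2 := p_wQ_26_wN_1_rb8033081230v3_2

theorem g__wQ_26_wN_1_rb8033081230v3_1 : GoodKC AS k_wQ_26_wN_1_rb8033081230v3_1 := p_wQ_26_wN_1_rb8033081230v3_1 g__wQ_26_wN_1_rb8033081230v3_2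

theorem g__wQ_26_wN_1_rb8033081230v3_3 : GoodKC AS k_wQ_26_wN_1_rb8033081230v3_3 := p_wQ_26_wN_1_rb8033081230v3_3

theorem g__wQ_26_wN_1_rb8033081230v3_0 : GoodKC AS k_wQ_26_wN_1_rb8033081230v3_0 := p_wQ_26_wN_1_rb8033081230v3_0 g__wQ_26_wN_1_rb8033081230v3_1 g__wQ_26_wN_1_rb8033081230v3_3

theorem g_wQ_26_wN_1_rb8033081230x3 : GoodKC AS c_wQ_26_wN_1_rb8033081230x3 := p_wQ_26_wN_1_rb8033081230x3 g__wQ_26_wN_1_rb8033081230v3_0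

theorem g_wQ_26_wN_1_rb803308122dx3 : GoodKC AS c_wQ_26_wN_1_rb803308122dx3 := p_wQ_26_wN_1_rb803308122dx3

theorem g_wQ_26_wN_1_rb803308122cx3 : GoodKC AS c_wQ_26_wN_1_rb803308122cx3 := p_wQ_26_wN_1_rb803308122cx3

theorem g_wQ_26_wN_1_rb803308122bx3 : GoodKC AS c_wQ_26_wN_1_rb803308122bx3 := p_wQ_26_wN_1_rb803308122bx3

theorem g_wQ_26_wN_1_rb803308122ax3 : GoodKC AS c_wQ_26_wN_1_rb803308122ax3 := p_wQ_26_wN_1_rb803308122ax3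

theorem g_wQ_26_wN_1_rb8033081229x3 : GoodKC AS c_wQ_26_wN_1_rb8033081229x3 := p_wQ_26_wN_1_rb8033081229x3

theorem g__wQ_26_wN_1_rb8033081227x3_0 : GoodKC AS k_wQ_26_wN_1_rb8033081227x3_0 := p_wQ_26_wN_1_rb8033081227x3_0

theorem g_wQ_26_wN_1_rb8033081227x3 : GoodKC AS c_wQ_26_wN_1_rb8033081227x3 := p_wQ_26_wN_1_rb8033081227x3 g__wQ_26_wN_1_rb8033081227x3_0

theorem g_wQ_26_wN_1_rb8033081226x3 : GoodKC AS c_wQ_26_wN_1_rb8033081226x3 := p_wQ_26_wN_1_rb8033081226x3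

theorem g_wQ_26_wN_1_rb8033081225x3 : GoodKC AS c_wQ_26_wN_1_rb8033081225x3 := p_wQ_26_wN_1_rb8033081225x3

theorem g_wQ_26_wN_1_rb8033081224x3 : GoodKC AS c_wQ_26_wN_1_rb8033081224x3 := p_wQ_26_wN_1_rb8033081224x3

theorem g__wQ_26_wN_1_rb8033081223x2_2 : GoodKC AS k_wQ_26_wN_1_rb8033081223x2_2 := p_wQ_26_wN_1_rb8033081223x2_2

theorem g__wQ_26_wN_1_rb8033081223x2_5 : GoodKC AS k_wQ_26_wN_1_rb8033081223x2_5 := p_wQ_26_wN_1_rb8033081223x2_5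

theorem g__wQ_26_wN_1_rb8033081223x2_7 : GoodKC AS k_wQ_26_wN_1_rb8033081223x2_7 := p_wQ_26_wN_1_rb8033081223x2_7

theorem g__wQ_26_wN_1_rb8033081223x2_6 : GoodKC AS k_wQ_26_wN_1_rb8033081223x2_6 := p_wQ_26_wN_1_rb8033081223x2_6 g__wQ_26_wN_1_rb8033081223x2_7

theorem g__wQ_26_wN_1_rb8033081223x2_9 : GoodKC AS k_wQ_26_wN_1_rb8033081223x2_9 := p_wQ_26_wN_1_rb8033081223x2_9

theorem g__wQ_26_wN_1_rb8033081223x2_8 : GoodKC AS k_wQ_26_wN_1_rb8033081223x2_8 := p_wQ_26_wN_1_rb8033081223x2_8 g__wQ_26_wN_1_rb8033081223x2_9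

theorem g__wQ_26_wN_1_rb8033081223x2_4 : GoodKC AS k_wQ_26_wN_1_rb8033081223x2_4 := p_wQ_26_wN_1_rb8033081223x2_4 g__wQ_26_wN_1_rb8033081223x2_5 g__wQ_26_wN_1_rb8033081223x2_6 g__wQ_26_wN_1_rb8033081223x2_8

theorem g__wQ_26_wN_1_rb8033081223x2_3 : GoodKC AS k_wQ_26_wN_1_rb8033081223x2_3 := p_wQ_26_wN_1_rb8033081223x2_3 g__wQ_26_wN_1_rb8033081223x2_4

theorem g__wQ_26_wN_1_rb8033081223x2_1 : GoodKC AS k_wQ_26_wN_1_rb8033081223x2_1 := p_wQ_26_wN_1_rb8033081223x2_1 g__wQ_26_wN_1_rb8033081223x2_2 g__wQ_26_wN_1_rb8033081223x2_3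

theorem g__wQ_26_wN_1_rb8033081223x2_0 : GoodKC AS k_wQ_26_wN_1_rb8033081223x2_0 := p_wQ_26_wN_1_rb8033081223x2_0 g__wQ_26_wN_1_rb8033081223x2_1

theorem g__wQ_26_wN_1_rb8033081223x2_11 : GoodKC AS k_wQ_26_wN_1_rb8033081223x2_11 := p_wQ_26_wN_1_rb8033081223x2_11

theorem g__wQ_26_wN_1_rb8033081223x2_12 : GoodKC AS k_wQ_26_wN_1_rb8033081223x2_12 := p_wQ_26_wN_1_rb8033081223x2_12

theorem g__wQ_26_wN_1_rb8033081223x2_10 : GoodKC AS k_wQ_26_wN_1_rb8033081223x2_10 := p_wQ_26_wN_1_rb8033081223x2_10 g__wQ_26_wN_1_rb8033081223x2_11 g__wQ_26_wN_1_rb8033081223x2_12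

theorem g_wQ_26_wN_1_rb8033081223x3 : GoodKC AS c_wQ_26_wN_1_rb8033081223x3 := p_wQ_26_wN_1_rb8033081223x2 g__wQ_26_wN_1_rb8033081223x2_0 g__wQ_26_wN_1_rb8033081223x2_10

theorem g_wQ_26_wN_1_rb8033081222x3 : GoodKC AS c_wQ_26_wN_1_rb8033081222x3 := p_wQ_26_wN_1_rb8033081222x3

theorem g_wQ_26_wN_1_rb8033081221x3 : GoodKC AS c_wQ_26_wN_1_rb8033081221x3 := p_wQ_26_wN_1_rb8033081221x3

theorem g_wQ_26_wN_1_rb803308121dx3 : GoodKC AS c_wQ_26_wN_1_rb803308121dx3 := p_wQ_26_wN_1_rb803308121dx3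

theorem g_wQ_26_wN_1_rb803308121cx3 : GoodKC AS c_wQ_26_wN_1_rb803308121cx3 := p_wQ_26_wN_1_rb803308121cx3

theorem g_wQ_26_wN_1_rb8033081218x3 : GoodKC AS c_wQ_26_wN_1_rb8033081218x3 := p_wQ_26_wN_1_rb8033081218x3

theorem g_wQ_26_wN_1_rb8033081217x3 : GoodKC AS c_wQ_26_wN_1_rb8033081217x3 := p_wQ_26_wN_1_rb8033081217x3

theorem g_wQ_26_wN_1_rb8033081216x3 : GoodKC AS c_wQ_26_wN_1_rb8033081216x3 := p_wQ_26_wN_1_rb8033081216x3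

theorem g_wQ_26_wN_1_rb8033081215x3 : GoodKC AS c_wQ_26_wN_1_rb8033081215x3 := p_wQ_26_wN_1_rb8033081215x3

theorem g_wQ_26_wN_1_rb8033081214x3 : GoodKC AS c_wQ_26_wN_1_rb8033081214x3 := p_wQ_26_wN_1_rb8033081214x3

theorem g_wQ_26_wN_1_rb8033081213x3 : GoodKC AS c_wQ_26_wN_1_rb8033081213x3 := p_wQ_26_wN_1_rb8033081213x3

theorem g_wQ_26_wN_1_rb8033081212x3 : GoodKC AS c_wQ_26_wN_1_rb8033081212x3 := p_wQ_26_wN_1_rb8033081212x3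

theorem g_wQ_26_wN_1_rb8033081210x3 : GoodKC AS c_wQ_26_wN_1_rb8033081210x3 := p_wQ_26_wN_1_rb8033081210x3

theorem g_wQ_26_wN_1_rb803308120fx3 : GoodKC AS c_wQ_26_wN_1_rb803308120fx3 := p_wQ_26_wN_1_rb803308120fx3

theorem g_wQ_26_wN_1_rb803308120cx3 : GoodKC AS c_wQ_26_wN_1_rb803308120cx3 := p_wQ_26_wN_1_rb803308120cx3

theorem g_wQ_26_wN_1_rb803308120bx3 : GoodKC AS c_wQ_26_wN_1_rb803308120bx3 := p_wQ_26_wN_1_rb803308120bx3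

theorem g__wQ_26_wN_1_rb80330812x3_8 : GoodKC AS k_wQ_26_wN_1_rb80330812x3_8 := p_wQ_26_wN_1_rb80330812x3_8

theorem g__wQ_26_wN_1_rb80330812x3_10 : GoodKC AS k_wQ_26_wN_1_rb80330812x3_10 := p_wQ_26_wN_1_rb80330812x3_10

theorem g__wQ_26_wN_1_rb80330812x3_14 : GoodKC AS k_wQ_26_wN_1_rb80330812x3_14 := p_wQ_26_wN_1_rb80330812x3_14

theorem g__wQ_26_wN_1_rb80330812x3_15 : GoodKC AS k_wQ_26_wN_1_rb80330812x3_15 := p_wQ_26_wN_1_rb80330812x3_15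

theorem g__wQ_26_wN_1_rb80330812x3_13 : GoodKC AS k_wQ_26_wN_1_rb80330812x3_13 := p_wQ_26_wN_1_rb80330812x3_13 g__wQ_26_wN_1_rb80330812x3_14 g__wQ_26_wN_1_rb80330812x3_15

theorem g__wQ_26_wN_1_rb80330812x3_12 : GoodKC AS k_wQ_26_wN_1_rb80330812x3_12 := p_wQ_26_wN_1_rb80330812x3_12 g__wQ_26_wN_1_rb80330812x3_13

theorem g__wQ_26_wN_1_rb80330812x3_11 : GoodKC AS k_wQ_26_wN_1_rb80330812x3_11 := p_wQ_26_wN_1_rb80330812x3_11 g__wQ_26_wN_1_rb80330812x3_12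

theorem g__wQ_26_wN_1_rb80330812x3_18 : GoodKC AS k_wQ_26_wN_1_rb80330812x3_18 := p_wQ_26_wN_1_rb80330812x3_18

theorem g__wQ_26_wN_1_rb80330812x3_17 : GoodKC AS k_wQ_26_wN_1_rb80330812x3_17 := p_wQ_26_wN_1_rb80330812x3_17 g__wQ_26_wN_1_rb80330812x3_18

theorem g__wQ_26_wN_1_rb80330812x3_16 : GoodKC AS k_wQ_26_wN_1_rb80330812x3_16 := p_wQ_26_wN_1_rb80330812x3_16 g__wQ_26_wN_1_rb80330812x3_17

theorem g__wQ_26_wN_1_rb80330812x3_9 : GoodKC AS k_wQ_26_wN_1_rb80330812x3_9 := p_wQ_26_wN_1_rb80330812x3_9 g__wQ_26_wN_1_rb80330812x3_10 g__wQ_26_wN_1_rb80330812x3_11 g__wQ_26_wN_1_rb80330812x3_16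

theorem g__wQ_26_wN_1_rb80330812x3_7 : GoodKC AS k_wQ_26_wN_1_rb80330812x3_7 := p_wQ_26_wN_1_rb80330812x3_7 g__wQ_26_wN_1_rb80330812x3_8 g__wQ_26_wN_1_rb80330812x3_9

theorem g_wQ_26_wN_1_rb803308120ax3 : GoodKC AS c_wQ_26_wN_1_rb803308120ax3 := p_wQ_26_wN_1_rb803308120ax3

theorem g_wQ_26_wN_1_rb8033081208x3 : GoodKC AS c_wQ_26_wN_1_rb8033081208x3 := p_wQ_26_wN_1_rb8033081208x3

theorem g_wQ_26_wN_1_rb8033081206x3 : GoodKC AS c_wQ_26_wN_1_rb8033081206x3 := p_wQ_26_wN_1_rb8033081206x3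

theorem g__wQ_26_wN_1_rb8033081200v3_1 : GoodKC AS k_wQ_26_wN_1_rb8033081200v3_1 := p_wQ_26_wN_1_rb8033081200v3_1

theorem g__wQ_26_wN_1_rb8033081200v3_2 : GoodKC AS k_wQ_26_wN_1_rb8033081200v3_2 := p_wQ_26_wN_1_rb8033081200v3_2

theorem g__wQ_26_wN_1_rb8033081200v3_0 : GoodKC AS k_wQ_26_wN_1_rb8033081200v3_0 := p_wQ_26_wN_1_rb8033081200v3_0 g__wQ_26_wN_1_rb8033081200v3_1 g__wQ_26_wN_1_rb8033081200v3_2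

theorem g_wQ_26_wN_1_rb8033081200x3 : GoodKC AS c_wQ_26_wN_1_rb8033081200x3 := p_wQ_26_wN_1_rb8033081200x3 g__wQ_26_wN_1_rb8033081200v3_0

theorem g_wQ_26_wN_1_rb8033081201x3 : GoodKC AS c_wQ_26_wN_1_rb8033081201x3 := p_wQ_26_wN_1_rb8033081201x3

theorem g_wQ_26_wN_1_rb8033081202x3 : GoodKC AS c_wQ_26_wN_1_rb8033081202x3 := p_wQ_26_wN_1_rb8033081202x3

theorem g_wQ_26_wN_1_rb8033081203x3 : GoodKC AS c_wQ_26_wN_1_rb8033081203x3 := p_wQ_26_wN_1_rb8033081203x3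

theorem g_wQ_26_wN_1_rb8033081204x3 : GoodKC AS c_wQ_26_wN_1_rb8033081204x3 := p_wQ_26_wN_1_rb8033081204x3

theorem g_wQ_26_wN_1_rb8033081205x3 : GoodKC AS c_wQ_26_wN_1_rb8033081205x3 := p_wQ_26_wN_1_rb8033081205x3

theorem g_wQ_26_wN_1_rb8033081207x3 : GoodKC AS c_wQ_26_wN_1_rb8033081207x3 := p_wQ_26_wN_1_rb8033081207x3

theorem g_wQ_26_wN_1_rb8033081209x3 : GoodKC AS c_wQ_26_wN_1_rb8033081209x3 := p_wQ_26_wN_1_rb8033081209x3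

theorem g_wQ_26_wN_1_rb803308120dx3 : GoodKC AS c_wQ_26_wN_1_rb803308120dx3 := p_wQ_26_wN_1_rb803308120dx3

theorem g_wQ_26_wN_1_rb803308120ex3 : GoodKC AS c_wQ_26_wN_1_rb803308120ex3 := p_wQ_26_wN_1_rb803308120ex3

theorem g_wQ_26_wN_1_rb8033081211x3 : GoodKC AS c_wQ_26_wN_1_rb8033081211x3 := p_wQ_26_wN_1_rb8033081211x3

theorem g_wQ_26_wN_1_rb8033081219x3 : GoodKC AS c_wQ_26_wN_1_rb8033081219x3 := p_wQ_26_wN_1_rb8033081219x3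

theorem g_wQ_26_wN_1_rb803308121ax3 : GoodKC AS c_wQ_26_wN_1_rb803308121ax3 := p_wQ_26_wN_1_rb803308121ax3

theorem g_wQ_26_wN_1_rb803308121bx3 : GoodKC AS c_wQ_26_wN_1_rb803308121bx3 := p_wQ_26_wN_1_rb803308121bx3

theorem g_wQ_26_wN_1_rb803308121ex3 : GoodKC AS c_wQ_26_wN_1_rb803308121ex3 := p_wQ_26_wN_1_rb803308121ex3

theorem g_wQ_26_wN_1_rb803308121f2ax2 : GoodKC AS c_wQ_26_wN_1_rb803308121f2ax2 := p_wQ_26_wN_1_rb803308121f2ax2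

theorem g_wQ_26_wN_1_rb803308121f27x2 : GoodKC AS c_wQ_26_wN_1_rb803308121f27x2 := p_wQ_26_wN_1_rb803308121f27x2

theorem g_wQ_26_wN_1_rb803308121f26x2 : GoodKC AS c_wQ_26_wN_1_rb803308121f26x2 := p_wQ_26_wN_1_rb803308121f26x2

theorem g_wQ_26_wN_1_rb803308121f25x2 : GoodKC AS c_wQ_26_wN_1_rb803308121f25x2 := p_wQ_26_wN_1_rb803308121f25x2

theorem g_wQ_26_wN_1_rb803308121f24x2 : GoodKC AS c_wQ_26_wN_1_rb803308121f24x2 := p_wQ_26_wN_1_rb803308121f24x2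

theorem g_wQ_26_wN_1_rb803308121f22x2 : GoodKC AS c_wQ_26_wN_1_rb803308121f22x2 := p_wQ_26_wN_1_rb803308121f22x2

theorem g_wQ_26_wN_1_rb803308121f21x2 : GoodKC AS c_wQ_26_wN_1_rb803308121f21x2 := p_wQ_26_wN_1_rb803308121f21x2

theorem g_wQ_26_wN_1_rb803308121f20x2 : GoodKC AS c_wQ_26_wN_1_rb803308121f20x2 := p_wQ_26_wN_1_rb803308121f20x2

theorem g_wQ_26_wN_1_rb803308121f1ex2 : GoodKC AS c_wQ_26_wN_1_rb803308121f1ex2 := p_wQ_26_wN_1_rb803308121f1ex2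

theorem g_wQ_26_wN_1_rb803308121f1dx2 : GoodKC AS c_wQ_26_wN_1_rb803308121f1dx2 := p_wQ_26_wN_1_rb803308121f1dx2

theorem g_wQ_26_wN_1_rb803308121f1bx2 : GoodKC AS c_wQ_26_wN_1_rb803308121f1bx2 := p_wQ_26_wN_1_rb803308121f1bx2

theorem g_wQ_26_wN_1_rb803308121f16x2 : GoodKC AS c_wQ_26_wN_1_rb803308121f16x2 := p_wQ_26_wN_1_rb803308121f16x2

theorem g_wQ_26_wN_1_rb803308121f12x2 : GoodKC AS c_wQ_26_wN_1_rb803308121f12x2 := p_wQ_26_wN_1_rb803308121f12x2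

theorem g_wQ_26_wN_1_rb803308121f11x2 : GoodKC AS c_wQ_26_wN_1_rb803308121f11x2 := p_wQ_26_wN_1_rb803308121f11x2

theorem g_wQ_26_wN_1_rb803308121f0f18x2 : GoodKC AS c_wQ_26_wN_1_rb803308121f0f18x2 := p_wQ_26_wN_1_rb803308121f0f18x1

theorem g_wQ_26_wN_1_rb803308121f0f15x2 : GoodKC AS c_wQ_26_wN_1_rb803308121f0f15x2 := p_wQ_26_wN_1_rb803308121f0f15x1

theorem g__wQ_26_wN_1_rb803308121f0f14x1_0 : GoodKC AS k_wQ_26_wN_1_rb803308121f0f14x1_0 := p_wQ_26_wN_1_rb803308121f0f14x1_0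

theorem g_wQ_26_wN_1_rb803308121f0f14x2 : GoodKC AS c_wQ_26_wN_1_rb803308121f0f14x2 := p_wQ_26_wN_1_rb803308121f0f14x1 g__wQ_26_wN_1_rb803308121f0f14x1_0

theorem g_wQ_26_wN_1_rb803308121f0f13x2 : GoodKC AS c_wQ_26_wN_1_rb803308121f0f13x2 := p_wQ_26_wN_1_rb803308121f0f13x1

theorem g_wQ_26_wN_1_rb803308121f0f12x2 : GoodKC AS c_wQ_26_wN_1_rb803308121f0f12x2 := p_wQ_26_wN_1_rb803308121f0f12x1

theorem g_wQ_26_wN_1_rb803308121f0f10x2 : GoodKC AS c_wQ_26_wN_1_rb803308121f0f10x2 := p_wQ_26_wN_1_rb803308121f0f10x1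

theorem g_wQ_26_wN_1_rb803308121f0f0fx2 : GoodKC AS c_wQ_26_wN_1_rb803308121f0f0fx2 := p_wQ_26_wN_1_rb803308121f0f0fx1

theorem g_wQ_26_wN_1_rb803308121f0f0ax2 : GoodKC AS c_wQ_26_wN_1_rb803308121f0f0ax2 := p_wQ_26_wN_1_rb803308121f0f0ax1

theorem g_wQ_26_wN_1_rb803308121f0f09x2 : GoodKC AS c_wQ_26_wN_1_rb803308121f0f09x2 := p_wQ_26_wN_1_rb803308121f0f09x1

theorem g__wQ_26_wN_1_rb803308121f0f08x1_2 : GoodKC AS k_wQ_26_wN_1_rb803308121f0f08x1_2 := p_wQ_26_wN_1_rb803308121f0f08x1_2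

theorem g__wQ_26_wN_1_rb803308121f0f08x1_1 : GoodKC AS k_wQ_26_wN_1_rb803308121f0f08x1_1 := p_wQ_26_wN_1_rb803308121f0f08x1_1 g__wQ_26_wN_1_rb803308121f0f08x1_2

theorem g__wQ_26_wN_1_rb803308121f0f08x1_0 : GoodKC AS k_wQ_26_wN_1_rb803308121f0f08x1_0 := p_wQ_26_wN_1_rb803308121f0f08x1_0 g__wQ_26_wN_1_rb803308121f0f08x1_1

theorem g_wQ_26_wN_1_rb803308121f0f08x2 : GoodKC AS c_wQ_26_wN_1_rb803308121f0f08x2 := p_wQ_26_wN_1_rb803308121f0f08x1 g__wQ_26_wN_1_rb803308121f0f08x1_0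

theorem g_wQ_26_wN_1_rb803308121f0f07x2 : GoodKC AS c_wQ_26_wN_1_rb803308121f0f07x2 := p_wQ_26_wN_1_rb803308121f0f07x1

theorem g_wQ_26_wN_1_rb803308121f0f06x2 : GoodKC AS c_wQ_26_wN_1_rb803308121f0f06x2 := p_wQ_26_wN_1_rb803308121f0f06x1

theorem g_wQ_26_wN_1_rb803308121f0f01x2 : GoodKC AS c_wQ_26_wN_1_rb803308121f0f01x2 := p_wQ_26_wN_1_rb803308121f0f01x1

theorem g__wQ_26_wN_1_rb803308121f0f00v1_2 : GoodKC AS k_wQ_26_wN_1_rb803308121f0f00v1_2 := p_wQ_26_wN_1_rb803308121f0f00v1_2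

theorem g__wQ_26_wN_1_rb803308121f0f00v1_1 : GoodKC AS k_wQ_26_wN_1_rb803308121f0f00v1_1 := p_wQ_26_wN_1_rb803308121f0f00v1_1 g__wQ_26_wN_1_rb803308121f0f00v1_2

theorem g__wQ_26_wN_1_rb803308121f0f00v1_3 : GoodKC AS k_wQ_26_wN_1_rb803308121f0f00v1_3 := p_wQ_26_wN_1_rb803308121f0f00v1_3

theorem g__wQ_26_wN_1_rb803308121f0f00v1_0 : GoodKC AS k_wQ_26_wN_1_rb803308121f0f00v1_0 := p_wQ_26_wN_1_rb803308121f0f00v1_0 g__wQ_26_wN_1_rb803308121f0f00v1_1 g__wQ_26_wN_1_rb803308121f0f00v1_3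

theorem g_wQ_26_wN_1_rb803308121f0f0002x1 : GoodKC AS c_wQ_26_wN_1_rb803308121f0f0002x1 := p_wQ_26_wN_1_rb803308121f0f0002x1

theorem g_wQ_26_wN_1_rb803308121f0f0001x1 : GoodKC AS c_wQ_26_wN_1_rb803308121f0f0001x1 := p_wQ_26_wN_1_rb803308121f0f0001x1

theorem g_wQ_26_wN_1_rb803308121f0f0000x1 : GoodKC AS c_wQ_26_wN_1_rb803308121f0f0000x1 := p_wQ_26_wN_1_rb803308121f0f0000x1

theorem g_wQ_26_wN_1_rb803308121f0f0003x1 : GoodKC AS c_wQ_26_wN_1_rb803308121f0f0003x1 := p_wQ_26_wN_1_rb803308121f0f0003x1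

theorem g_wQ_26_wN_1_rb803308121f0f0004x1 : GoodKC AS c_wQ_26_wN_1_rb803308121f0f0004x1 := p_wQ_26_wN_1_rb803308121f0f0004x1

theorem g_wQ_26_wN_1_rb803308121f0f00x2 : GoodKC AS c_wQ_26_wN_1_rb803308121f0f00x2 := p_wQ_26_wN_1_rb803308121f0f00x1 g__wQ_26_wN_1_rb803308121f0f00v1_0 g_wQ_26_wN_1_rb803308121f0f0002x1 g_wQ_26_wN_1_rb803308121f0f0001x1 g_wQ_26_wN_1_rb803308121f0f0000x1 g_wQ_26_wN_1_rb803308121f0f0003x1 g_wQ_26_wN_1_rb803308121f0f0004x1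

theorem g_wQ_26_wN_1_rb803308121f0f02x2 : GoodKC AS c_wQ_26_wN_1_rb803308121f0f02x2 := p_wQ_26_wN_1_rb803308121f0f02x1

theorem g_wQ_26_wN_1_rb803308121f0f03x2 : GoodKC AS c_wQ_26_wN_1_rb803308121f0f03x2 := p_wQ_26_wN_1_rb803308121f0f03x1

theorem g_wQ_26_wN_1_rb803308121f0f04x2 : GoodKC AS c_wQ_26_wN_1_rb803308121f0f04x2 := p_wQ_26_wN_1_rb803308121f0f04x1

theorem g_wQ_26_wN_1_rb803308121f0f05x2 : GoodKC AS c_wQ_26_wN_1_rb803308121f0f05x2 := p_wQ_26_wN_1_rb803308121f0f05x1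

theorem g__wQ_26_wN_1_rb803308121f0fx2_3 : GoodKC AS k_wQ_26_wN_1_rb803308121f0fx2_3 := p_wQ_26_wN_1_rb803308121f0fx2_3

theorem g__wQ_26_wN_1_rb803308121f0fx2_2 : GoodKC AS k_wQ_26_wN_1_rb803308121f0fx2_2 := p_wQ_26_wN_1_rb803308121f0fx2_2 g__wQ_26_wN_1_rb803308121f0fx2_3

theorem g__wQ_26_wN_1_rb803308121f0fx2_1 : GoodKC AS k_wQ_26_wN_1_rb803308121f0fx2_1 := p_wQ_26_wN_1_rb803308121f0fx2_1 g__wQ_26_wN_1_rb803308121f0fx2_2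

theorem g__wQ_26_wN_1_rb803308121f0fx2_7 : GoodKC AS k_wQ_26_wN_1_rb803308121f0fx2_7 := p_wQ_26_wN_1_rb803308121f0fx2_7

theorem g__wQ_26_wN_1_rb803308121f0fx2_6 : GoodKC AS k_wQ_26_wN_1_rb803308121f0fx2_6 := p_wQ_26_wN_1_rb803308121f0fx2_6 g__wQ_26_wN_1_rb803308121f0fx2_7

theorem g__wQ_26_wN_1_rb803308121f0fx2_10 : GoodKC AS k_wQ_26_wN_1_rb803308121f0fx2_10 := p_wQ_26_wN_1_rb803308121f0fx2_10

theorem g__wQ_26_wN_1_rb803308121f0fx2_15 : GoodKC AS k_wQ_26_wN_1_rb803308121f0fx2_15 := p_wQ_26_wN_1_rb803308121f0fx2_15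

theorem g__wQ_26_wN_1_rb803308121f0fx2_14 : GoodKC AS k_wQ_26_wN_1_rb803308121f0fx2_14 := p_wQ_26_wN_1_rb803308121f0fx2_14 g__wQ_26_wN_1_rb803308121f0fx2_15

theorem g__wQ_26_wN_1_rb803308121f0fx2_16 : GoodKC AS k_wQ_26_wN_1_rb803308121f0fx2_16 := p_wQ_26_wN_1_rb803308121f0fx2_16

theorem g__wQ_26_wN_1_rb803308121f0fx2_13 : GoodKC AS k_wQ_26_wN_1_rb803308121f0fx2_13 := p_wQ_26_wN_1_rb803308121f0fx2_13 g__wQ_26_wN_1_rb803308121f0fx2_14 g__wQ_26_wN_1_rb803308121f0fx2_16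

theorem g__wQ_26_wN_1_rb803308121f0fx2_12 : GoodKC AS k_wQ_26_wN_1_rb803308121f0fx2_12 := p_wQ_26_wN_1_rb803308121f0fx2_12 g__wQ_26_wN_1_rb803308121f0fx2_13

theorem g__wQ_26_wN_1_rb803308121f0fx2_11 : GoodKC AS k_wQ_26_wN_1_rb803308121f0fx2_11 := p_wQ_26_wN_1_rb803308121f0fx2_11 g__wQ_26_wN_1_rb803308121f0fx2_12

theorem g__wQ_26_wN_1_rb803308121f0fx2_9 : GoodKC AS k_wQ_26_wN_1_rb803308121f0fx2_9 := p_wQ_26_wN_1_rb803308121f0fx2_9 g__wQ_26_wN_1_rb803308121f0fx2_10 g__wQ_26_wN_1_rb803308121f0fx2_11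

theorem g__wQ_26_wN_1_rb803308121f0fx2_8 : GoodKC AS k_wQ_26_wN_1_rb803308121f0fx2_8 := p_wQ_26_wN_1_rb803308121f0fx2_8 g__wQ_26_wN_1_rb803308121f0fx2_9

theorem g__wQ_26_wN_1_rb803308121f0fx2_5 : GoodKC AS k_wQ_26_wN_1_rb803308121f0fx2_5 := p_wQ_26_wN_1_rb803308121f0fx2_5 g__wQ_26_wN_1_rb803308121f0fx2_6 g__wQ_26_wN_1_rb803308121f0fx2_8

theorem g__wQ_26_wN_1_rb803308121f0fx2_4 : GoodKC AS k_wQ_26_wN_1_rb803308121f0fx2_4 := p_wQ_26_wN_1_rb803308121f0fx2_4 g__wQ_26_wN_1_rb803308121f0fx2_5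

theorem g__wQ_26_wN_1_rb803308121f0fx2_18 : GoodKC AS k_wQ_26_wN_1_rb803308121f0fx2_18 := p_wQ_26_wN_1_rb803308121f0fx2_18

theorem g__wQ_26_wN_1_rb803308121f0fx2_22 : GoodKC AS k_wQ_26_wN_1_rb803308121f0fx2_22 := p_wQ_26_wN_1_rb803308121f0fx2_22

theorem g__wQ_26_wN_1_rb803308121f0fx2_25 : GoodKC AS k_wQ_26_wN_1_rb803308121f0fx2_25 := p_wQ_26_wN_1_rb803308121f0fx2_25

theorem g__wQ_26_wN_1_rb803308121f0fx2_24 : GoodKC AS k_wQ_26_wN_1_rb803308121f0fx2_24 := p_wQ_26_wN_1_rb803308121f0fx2_24 g__wQ_26_wN_1_rb803308121f0fx2_25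

theorem g__wQ_26_wN_1_rb803308121f0fx2_23 : GoodKC AS k_wQ_26_wN_1_rb803308121f0fx2_23 := p_wQ_26_wN_1_rb803308121f0fx2_23 g__wQ_26_wN_1_rb803308121f0fx2_24

theorem g__wQ_26_wN_1_rb803308121f0fx2_26 : GoodKC AS k_wQ_26_wN_1_rb803308121f0fx2_26 := p_wQ_26_wN_1_rb803308121f0fx2_26

theorem g__wQ_26_wN_1_rb803308121f0fx2_27 : GoodKC AS k_wQ_26_wN_1_rb803308121f0fx2_27 := p_wQ_26_wN_1_rb803308121f0fx2_27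

theorem g__wQ_26_wN_1_rb803308121f0fx2_21 : GoodKC AS k_wQ_26_wN_1_rb803308121f0fx2_21 := p_wQ_26_wN_1_rb803308121f0fx2_21 g__wQ_26_wN_1_rb803308121f0fx2_22 g__wQ_26_wN_1_rb803308121f0fx2_23 g__wQ_26_wN_1_rb803308121f0fx2_26 g__wQ_26_wN_1_rb803308121f0fx2_27

theorem g__wQ_26_wN_1_rb803308121f0fx2_20 : GoodKC AS k_wQ_26_wN_1_rb803308121f0fx2_20 := p_wQ_26_wN_1_rb803308121f0fx2_20 g__wQ_26_wN_1_rb803308121f0fx2_21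

theorem g__wQ_26_wN_1_rb803308121f0fx2_19 : GoodKC AS k_wQ_26_wN_1_rb803308121f0fx2_19 := p_wQ_26_wN_1_rb803308121f0fx2_19 g__wQ_26_wN_1_rb803308121f0fx2_20

theorem g__wQ_26_wN_1_rb803308121f0fx2_17 : GoodKC AS k_wQ_26_wN_1_rb803308121f0fx2_17 := p_wQ_26_wN_1_rb803308121f0fx2_17 g__wQ_26_wN_1_rb803308121f0fx2_18 g__wQ_26_wN_1_rb803308121f0fx2_19

theorem g__wQ_26_wN_1_rb803308121f0fx2_0 : GoodKC AS k_wQ_26_wN_1_rb803308121f0fx2_0 := p_wQ_26_wN_1_rb803308121f0fx2_0 g__wQ_26_wN_1_rb803308121f0fx2_1 g__wQ_26_wN_1_rb803308121f0fx2_4 g__wQ_26_wN_1_rb803308121f0fx2_17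

theorem g_wQ_26_wN_1_rb803308121f0f0bx2 : GoodKC AS c_wQ_26_wN_1_rb803308121f0f0bx2 := p_wQ_26_wN_1_rb803308121f0f0bx1

theorem g_wQ_26_wN_1_rb803308121f0f0cx2 : GoodKC AS c_wQ_26_wN_1_rb803308121f0f0cx2 := p_wQ_26_wN_1_rb803308121f0f0cx1

theorem g_wQ_26_wN_1_rb803308121f0f0dx2 : GoodKC AS c_wQ_26_wN_1_rb803308121f0f0dx2 := p_wQ_26_wN_1_rb803308121f0f0dx1

theorem g_wQ_26_wN_1_rb803308121f0f0ex2 : GoodKC AS c_wQ_26_wN_1_rb803308121f0f0ex2 := p_wQ_26_wN_1_rb803308121f0f0ex1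

theorem g_wQ_26_wN_1_rb803308121f0f11x2 : GoodKC AS c_wQ_26_wN_1_rb803308121f0f11x2 := p_wQ_26_wN_1_rb803308121f0f11x1

theorem g_wQ_26_wN_1_rb803308121f0f16x2 : GoodKC AS c_wQ_26_wN_1_rb803308121f0f16x2 := p_wQ_26_wN_1_rb803308121f0f16x1

theorem g__wQ_26_wN_1_rb803308121f0f17x1_1 : GoodKC AS k_wQ_26_wN_1_rb803308121f0f17x1_1 := p_wQ_26_wN_1_rb803308121f0f17x1_1

theorem g__wQ_26_wN_1_rb803308121f0f17x1_0 : GoodKC AS k_wQ_26_wN_1_rb803308121f0f17x1_0 := p_wQ_26_wN_1_rb803308121f0f17x1_0 g__wQ_26_wN_1_rb803308121f0f17x1_1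

theorem g_wQ_26_wN_1_rb803308121f0f17x2 : GoodKC AS c_wQ_26_wN_1_rb803308121f0f17x2 := p_wQ_26_wN_1_rb803308121f0f17x1 g__wQ_26_wN_1_rb803308121f0f17x1_0

theorem g_wQ_26_wN_1_rb803308121f0fx2 : GoodKC AS c_wQ_26_wN_1_rb803308121f0fx2 := p_wQ_26_wN_1_rb803308121f0fx2 g_wQ_26_wN_1_rb803308121f0f18x2 g_wQ_26_wN_1_rb803308121f0f15x2 g_wQ_26_wN_1_rb803308121f0f14x2 g_wQ_26_wN_1_rb803308121f0f13x2 g_wQ_26_wN_1_rb803308121f0f12x2 g_wQ_26_wN_1_rb803308121f0f10x2 g_wQ_26_wN_1_rb803308121f0f0fx2 g_wQ_26_wN_1_rb803308121f0f0ax2 g_wQ_26_wN_1_rb803308121f0f09x2 g_wQ_26_wN_1_rb803308121f0f08x2 g_wQ_26_wN_1_rb803308121f0f07x2 g_wQ_26_wN_1_rb803308121f0f06x2 g_wQ_26_wN_1_rb803308121f0f01x2 g_wQ_26_wN_1_rb803308121f0f00x2 g_wQ_26_wN_1_rb803308121f0f02x2 g_wQ_26_wN_1_rb803308121f0f03x2 g_wQ_26_wN_1_rb803308121f0f04x2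 g_wQ_26_wN_1_rb803308121f0f05x2 g__wQ_26_wN_1_rb803308121f0fx2_0 g_wQ_26_wN_1_rb803308121f0f0bx2 g_wQ_26_wN_1_rb803308121f0f0cx2 g_wQ_26_wN_1_rb803308121f0f0dx2 g_wQ_26_wN_1_rb803308121f0f0ex2 g_wQ_26_wN_1_rb803308121f0f11x2 g_wQ_26_wN_1_rb803308121f0f16x2 g_wQ_26_wN_1_rb803308121f0f17x2

theorem g__wQ_26_wN_1_rb803308121f0cx2_2 : GoodKC AS k_wQ_26_wN_1_rb803308121f0cx2_2 := p_wQ_26_wN_1_rb803308121f0cx2_2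

theorem g__wQ_26_wN_1_rb803308121f0cx2_3 : GoodKC AS k_wQ_26_wN_1_rb803308121f0cx2_3 := p_wQ_26_wN_1_rb803308121f0cx2_3

theorem g__wQ_26_wN_1_rb803308121f0cx2_5 : GoodKC AS k_wQ_26_wN_1_rb803308121f0cx2_5 := p_wQ_26_wN_1_rb803308121f0cx2_5

theorem g__wQ_26_wN_1_rb803308121f0cx2_4 : GoodKC AS k_wQ_26_wN_1_rb803308121f0cx2_4 := p_wQ_26_wN_1_rb803308121f0cx2_4 g__wQ_26_wN_1_rb803308121f0cx2_5

theorem g__wQ_26_wN_1_rb803308121f0cx2_1 : GoodKC AS k_wQ_26_wN_1_rb803308121f0cx2_1 := p_wQ_26_wN_1_rb803308121f0cx2_1 g__wQ_26_wN_1_rb803308121f0cx2_2 g__wQ_26_wN_1_rb803308121f0cx2_3 g__wQ_26_wN_1_rb803308121f0cx2_4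

theorem g__wQ_26_wN_1_rb803308121f0cx2_0 : GoodKC AS k_wQ_26_wN_1_rb803308121f0cx2_0 := p_wQ_26_wN_1_rb803308121f0cx2_0 g__wQ_26_wN_1_rb803308121f0cx2_1

theorem g__wQ_26_wN_1_rb803308121f0cx2_7 : GoodKC AS k_wQ_26_wN_1_rb803308121f0cx2_7 := p_wQ_26_wN_1_rb803308121f0cx2_7

theorem g__wQ_26_wN_1_rb803308121f0cx2_6 : GoodKC AS k_wQ_26_wN_1_rb803308121f0cx2_6 := p_wQ_26_wN_1_rb803308121f0cx2_6 g__wQ_26_wN_1_rb803308121f0cx2_7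

theorem g_wQ_26_wN_1_rb803308121f0cx2 : GoodKC AS c_wQ_26_wN_1_rb803308121f0cx2 := p_wQ_26_wN_1_rb803308121f0cx2 g__wQ_26_wN_1_rb803308121f0cx2_0 g__wQ_26_wN_1_rb803308121f0cx2_6

theorem g_wQ_26_wN_1_rb803308121f0bx2 : GoodKC AS c_wQ_26_wN_1_rb803308121f0bx2 := p_wQ_26_wN_1_rb803308121f0bx2

theorem g__wQ_26_wN_1_rb803308121fx2_6 : GoodKC AS k_wQ_26_wN_1_rb803308121fx2_6 := p_wQ_26_wN_1_rb803308121fx2_6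

theorem g__wQ_26_wN_1_rb803308121fx2_5 : GoodKC AS k_wQ_26_wN_1_rb803308121fx2_5 := p_wQ_26_wN_1_rb803308121fx2_5 g__wQ_26_wN_1_rb803308121fx2_6

theorem g__wQ_26_wN_1_rb803308121fx2_8 : GoodKC AS k_wQ_26_wN_1_rb803308121fx2_8 := p_wQ_26_wN_1_rb803308121fx2_8

theorem g__wQ_26_wN_1_rb803308121fx2_9 : GoodKC AS k_wQ_26_wN_1_rb803308121fx2_9 := p_wQ_26_wN_1_rb803308121fx2_9

theorem g__wQ_26_wN_1_rb803308121fx2_7 : GoodKC AS k_wQ_26_wN_1_rb803308121fx2_7 := p_wQ_26_wN_1_rb803308121fx2_7 g__wQ_26_wN_1_rb803308121fx2_8 g__wQ_26_wN_1_rb803308121fx2_9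

theorem g__wQ_26_wN_1_rb803308121fx2_4 : GoodKC AS k_wQ_26_wN_1_rb803308121fx2_4 := p_wQ_26_wN_1_rb803308121fx2_4 g__wQ_26_wN_1_rb803308121fx2_5 g__wQ_26_wN_1_rb803308121fx2_7

theorem g__wQ_26_wN_1_rb803308121fx2_3 : GoodKC AS k_wQ_26_wN_1_rb803308121fx2_3 := p_wQ_26_wN_1_rb803308121fx2_3 g__wQ_26_wN_1_rb803308121fx2_4

theorem g__wQ_26_wN_1_rb803308121fx2_2 : GoodKC AS k_wQ_26_wN_1_rb803308121fx2_2 := p_wQ_26_wN_1_rb803308121fx2_2 g__wQ_26_wN_1_rb803308121fx2_3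

theorem g__wQ_26_wN_1_rb803308121fx2_1 : GoodKC AS k_wQ_26_wN_1_rb803308121fx2_1 := p_wQ_26_wN_1_rb803308121fx2_1 g__wQ_26_wN_1_rb803308121fx2_2

theorem g__wQ_26_wN_1_rb803308121fx2_10 : GoodKC AS k_wQ_26_wN_1_rb803308121fx2_10 := p_wQ_26_wN_1_rb803308121fx2_10

theorem g__wQ_26_wN_1_rb803308121fx2_0 : GoodKC AS k_wQ_26_wN_1_rb803308121fx2_0 := p_wQ_26_wN_1_rb803308121fx2_0 g__wQ_26_wN_1_rb803308121fx2_1 g__wQ_26_wN_1_rb803308121fx2_10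

theorem g_wQ_26_wN_1_rb803308121f09x2 : GoodKC AS c_wQ_26_wN_1_rb803308121f09x2 := p_wQ_26_wN_1_rb803308121f09x2

theorem g_wQ_26_wN_1_rb803308121f08x2 : GoodKC AS c_wQ_26_wN_1_rb803308121f08x2 := p_wQ_26_wN_1_rb803308121f08x2

theorem g_wQ_26_wN_1_rb803308121f06x2 : GoodKC AS c_wQ_26_wN_1_rb803308121f06x2 := p_wQ_26_wN_1_rb803308121f06x2

theorem g_wQ_26_wN_1_rb803308121f04x2 : GoodKC AS c_wQ_26_wN_1_rb803308121f04x2 := p_wQ_26_wN_1_rb803308121f04x2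

theorem g__wQ_26_wN_1_rb803308121f03x2_4 : GoodKC AS k_wQ_26_wN_1_rb803308121f03x2_4 := p_wQ_26_wN_1_rb803308121f03x2_4

theorem g__wQ_26_wN_1_rb803308121f03x2_8 : GoodKC AS k_wQ_26_wN_1_rb803308121f03x2_8 := p_wQ_26_wN_1_rb803308121f03x2_8

theorem g__wQ_26_wN_1_rb803308121f03x2_9 : GoodKC AS k_wQ_26_wN_1_rb803308121f03x2_9 := p_wQ_26_wN_1_rb803308121f03x2_9

theorem g__wQ_26_wN_1_rb803308121f03x2_7 : GoodKC AS k_wQ_26_wN_1_rb803308121f03x2_7 := p_wQ_26_wN_1_rb803308121f03x2_7 g__wQ_26_wN_1_rb803308121f03x2_8 g__wQ_26_wN_1_rb803308121f03x2_9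

theorem g__wQ_26_wN_1_rb803308121f03x2_6 : GoodKC AS k_wQ_26_wN_1_rb803308121f03x2_6 := p_wQ_26_wN_1_rb803308121f03x2_6 g__wQ_26_wN_1_rb803308121f03x2_7

theorem g__wQ_26_wN_1_rb803308121f03x2_5 : GoodKC AS k_wQ_26_wN_1_rb803308121f03x2_5 := p_wQ_26_wN_1_rb803308121f03x2_5 g__wQ_26_wN_1_rb803308121f03x2_6

theorem g__wQ_26_wN_1_rb803308121f03x2_3 : GoodKC AS k_wQ_26_wN_1_rb803308121f03x2_3 := p_wQ_26_wN_1_rb803308121f03x2_3 g__wQ_26_wN_1_rb803308121f03x2_4 g__wQ_26_wN_1_rb803308121f03x2_5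

theorem g__wQ_26_wN_1_rb803308121f03x2_2 : GoodKC AS k_wQ_26_wN_1_rb803308121f03x2_2 := p_wQ_26_wN_1_rb803308121f03x2_2 g__wQ_26_wN_1_rb803308121f03x2_3

theorem g__wQ_26_wN_1_rb803308121f03x2_1 : GoodKC AS k_wQ_26_wN_1_rb803308121f03x2_1 := p_wQ_26_wN_1_rb803308121f03x2_1 g__wQ_26_wN_1_rb803308121f03x2_2

theorem g__wQ_26_wN_1_rb803308121f03x2_10 : GoodKC AS k_wQ_26_wN_1_rb803308121f03x2_10 := p_wQ_26_wN_1_rb803308121f03x2_10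

theorem g__wQ_26_wN_1_rb803308121f03x2_0 : GoodKC AS k_wQ_26_wN_1_rb803308121f03x2_0 := p_wQ_26_wN_1_rb803308121f03x2_0 g__wQ_26_wN_1_rb803308121f03x2_1 g__wQ_26_wN_1_rb803308121f03x2_10

theorem g_wQ_26_wN_1_rb803308121f03x2 : GoodKC AS c_wQ_26_wN_1_rb803308121f03x2 := p_wQ_26_wN_1_rb803308121f03x2 g__wQ_26_wN_1_rb803308121f03x2_0

theorem g_wQ_26_wN_1_rb803308121f01x2 : GoodKC AS c_wQ_26_wN_1_rb803308121f01x2 := p_wQ_26_wN_1_rb803308121f01x2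

theorem g__wQ_26_wN_1_rb803308121f00v2_2 : GoodKC AS k_wQ_26_wN_1_rb803308121f00v2_2 := p_wQ_26_wN_1_rb803308121f00v2_2

theorem g__wQ_26_wN_1_rb803308121f00v2_3 : GoodKC AS k_wQ_26_wN_1_rb803308121f00v2_3 := p_wQ_26_wN_1_rb803308121f00v2_3

theorem g__wQ_26_wN_1_rb803308121f00v2_1 : GoodKC AS k_wQ_26_wN_1_rb803308121f00v2_1 := p_wQ_26_wN_1_rb803308121f00v2_1 g__wQ_26_wN_1_rb803308121f00v2_2 g__wQ_26_wN_1_rb803308121f00v2_3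

theorem g__wQ_26_wN_1_rb803308121f00v2_0 : GoodKC AS k_wQ_26_wN_1_rb803308121f00v2_0 := p_wQ_26_wN_1_rb803308121f00v2_0 g__wQ_26_wN_1_rb803308121f00v2_1

theorem g__wQ_26_wN_1_rb803308121f00v2_4 : GoodKC AS k_wQ_26_wN_1_rb803308121f00v2_4 := p_wQ_26_wN_1_rb803308121f00v2_4

theorem g_wQ_26_wN_1_rb803308121f00x2 : GoodKC AS c_wQ_26_wN_1_rb803308121f00x2 := p_wQ_26_wN_1_rb803308121f00x2 g__wQ_26_wN_1_rb803308121f00v2_0 g__wQ_26_wN_1_rb803308121f00v2_4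

theorem g_wQ_26_wN_1_rb803308121f02x2 : GoodKC AS c_wQ_26_wN_1_rb803308121f02x2 := p_wQ_26_wN_1_rb803308121f02x2

theorem g_wQ_26_wN_1_rb803308121f05x2 : GoodKC AS c_wQ_26_wN_1_rb803308121f05x2 := p_wQ_26_wN_1_rb803308121f05x2

theorem g_wQ_26_wN_1_rb803308121f07x2 : GoodKC AS c_wQ_26_wN_1_rb803308121f07x2 := p_wQ_26_wN_1_rb803308121f07x2

theorem g_wQ_26_wN_1_rb803308121f0ax2 : GoodKC AS c_wQ_26_wN_1_rb803308121f0ax2 := p_wQ_26_wN_1_rb803308121f0ax2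

theorem g_wQ_26_wN_1_rb803308121f0dx2 : GoodKC AS c_wQ_26_wN_1_rb803308121f0dx2 := p_wQ_26_wN_1_rb803308121f0dx2

theorem g_wQ_26_wN_1_rb803308121f0ex2 : GoodKC AS c_wQ_26_wN_1_rb803308121f0ex2 := p_wQ_26_wN_1_rb803308121f0ex2

theorem g_wQ_26_wN_1_rb803308121f10x2 : GoodKC AS c_wQ_26_wN_1_rb803308121f10x2 := p_wQ_26_wN_1_rb803308121f10x2

theorem g__wQ_26_wN_1_rb803308121fx2_13 : GoodKC AS k_wQ_26_wN_1_rb803308121fx2_13 := p_wQ_26_wN_1_rb803308121fx2_13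

theorem g__wQ_26_wN_1_rb803308121fx2_12 : GoodKC AS k_wQ_26_wN_1_rb803308121fx2_12 := p_wQ_26_wN_1_rb803308121fx2_12 g__wQ_26_wN_1_rb803308121fx2_13

theorem g__wQ_26_wN_1_rb803308121fx2_18 : GoodKC AS k_wQ_26_wN_1_rb803308121fx2_18 := p_wQ_26_wN_1_rb803308121fx2_18

theorem g__wQ_26_wN_1_rb803308121fx2_17 : GoodKC AS k_wQ_26_wN_1_rb803308121fx2_17 := p_wQ_26_wN_1_rb803308121fx2_17 g__wQ_26_wN_1_rb803308121fx2_18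

theorem g__wQ_26_wN_1_rb803308121fx2_16 : GoodKC AS k_wQ_26_wN_1_rb803308121fx2_16 := p_wQ_26_wN_1_rb803308121fx2_16 g__wQ_26_wN_1_rb803308121fx2_17

theorem g__wQ_26_wN_1_rb803308121fx2_15 : GoodKC AS k_wQ_26_wN_1_rb803308121fx2_15 := p_wQ_26_wN_1_rb803308121fx2_15 g__wQ_26_wN_1_rb803308121fx2_16

theorem g__wQ_26_wN_1_rb803308121fx2_19 : GoodKC AS k_wQ_26_wN_1_rb803308121fx2_19 := p_wQ_26_wN_1_rb803308121fx2_19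

theorem g__wQ_26_wN_1_rb803308121fx2_14 : GoodKC AS k_wQ_26_wN_1_rb803308121fx2_14 := p_wQ_26_wN_1_rb803308121fx2_14 g__wQ_26_wN_1_rb803308121fx2_15 g__wQ_26_wN_1_rb803308121fx2_19

theorem g__wQ_26_wN_1_rb803308121fx2_11 : GoodKC AS k_wQ_26_wN_1_rb803308121fx2_11 := p_wQ_26_wN_1_rb803308121fx2_11 g__wQ_26_wN_1_rb803308121fx2_12 g__wQ_26_wN_1_rb803308121fx2_14

theorem g_wQ_26_wN_1_rb803308121f13x2 : GoodKC AS c_wQ_26_wN_1_rb803308121f13x2 := p_wQ_26_wN_1_rb803308121f13x2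

theorem g_wQ_26_wN_1_rb803308121f14x2 : GoodKC AS c_wQ_26_wN_1_rb803308121f14x2 := p_wQ_26_wN_1_rb803308121f14x2

theorem g_wQ_26_wN_1_rb803308121f15x2 : GoodKC AS c_wQ_26_wN_1_rb803308121f15x2 := p_wQ_26_wN_1_rb803308121f15x2

theorem g_wQ_26_wN_1_rb803308121f17x2 : GoodKC AS c_wQ_26_wN_1_rb803308121f17x2 := p_wQ_26_wN_1_rb803308121f17x2

theorem g_wQ_26_wN_1_rb803308121f18x2 : GoodKC AS c_wQ_26_wN_1_rb803308121f18x2 := p_wQ_26_wN_1_rb803308121f18x2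

theorem g_wQ_26_wN_1_rb803308121f19x2 : GoodKC AS c_wQ_26_wN_1_rb803308121f19x2 := p_wQ_26_wN_1_rb803308121f19x2

theorem g_wQ_26_wN_1_rb803308121f1ax2 : GoodKC AS c_wQ_26_wN_1_rb803308121f1ax2 := p_wQ_26_wN_1_rb803308121f1ax2

theorem g_wQ_26_wN_1_rb803308121f1cx2 : GoodKC AS c_wQ_26_wN_1_rb803308121f1cx2 := p_wQ_26_wN_1_rb803308121f1cx2

theorem g_wQ_26_wN_1_rb803308121f1fx2 : GoodKC AS c_wQ_26_wN_1_rb803308121f1fx2 := p_wQ_26_wN_1_rb803308121f1fx2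

theorem g_wQ_26_wN_1_rb803308121f23x2 : GoodKC AS c_wQ_26_wN_1_rb803308121f23x2 := p_wQ_26_wN_1_rb803308121f23x2

theorem g_wQ_26_wN_1_rb803308121f28x2 : GoodKC AS c_wQ_26_wN_1_rb803308121f28x2 := p_wQ_26_wN_1_rb803308121f28x2

theorem g_wQ_26_wN_1_rb803308121f29x2 : GoodKC AS c_wQ_26_wN_1_rb803308121f29x2 := p_wQ_26_wN_1_rb803308121f29x2

theorem g_wQ_26_wN_1_rb803308121fx3 : GoodKC AS c_wQ_26_wN_1_rb803308121fx3 := p_wQ_26_wN_1_rb803308121fx2 g_wQ_26_wN_1_rb803308121f2ax2 g_wQ_26_wN_1_rb803308121f27x2 g_wQ_26_wN_1_rb803308121f26x2 g_wQ_26_wN_1_rb803308121f25x2 g_wQ_26_wN_1_rb803308121f24x2 g_wQ_26_wN_1_rb803308121f22x2 g_wQ_26_wN_1_rb803308121f21x2 g_wQ_26_wN_1_rb803308121f20x2 g_wQ_26_wN_1_rb803308121f1ex2 g_wQ_26_wN_1_rb803308121f1dx2 g_wQ_26_wN_1_rb803308121f1bx2 g_wQ_26_wN_1_rb803308121f16x2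 g_wQ_26_wN_1_rb803308121f12x2 g_wQ_26_wN_1_rb803308121f11x2 g_wQ_26_wN_1_rb803308121f0fx2 g_wQ_26_wN_1_rb803308121f0cx2 g_wQ_26_wN_1_rb803308121f0bx2 g__wQ_26_wN_1_rb803308121fx2_0 g_wQ_26_wN_1_rb803308121f09x2 g_wQ_26_wN_1_rb803308121f08x2 g_wQ_26_wN_1_rb803308121f06x2 g_wQ_26_wN_1_rb803308121f04x2 g_wQ_26_wN_1_rb803308121f03x2 g_wQ_26_wN_1_rb803308121f01x2 g_wQ_26_wN_1_rb803308121f00x2 g_wQ_26_wN_1_rb803308121f02x2 g_wQ_26_wN_1_rb803308121f05x2 g_wQ_26_wN_1_rb803308121f07x2 g_wQ_26_wN_1_rb803308121f0ax2 g_wQ_26_wN_1_rb803308121f0dx2 g_wQ_26_wN_1_rb803308121f0ex2 g_wQ_26_wN_1_rb803308121f10x2 g__wQ_26_wN_1_rb803308121fx2_11 g_wQ_26_wN_1_rb803308121f13x2 g_wQ_26_wN_1_rb803308121f14x2 g_wQ_26_wN_1_rb803308121f15x2 g_wQ_26_wN_1_rb803308121f17x2 g_wQ_26_wN_1_rb803308121f18x2 g_wQ_26_wN_1_rb803308121f19x2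 g_wQ_26_wN_1_rb803308121f1ax2 g_wQ_26_wN_1_rb803308121f1cx2 g_wQ_26_wN_1_rb803308121f1fx2 g_wQ_26_wN_1_rb803308121f23x2 g_wQ_26_wN_1_rb803308121f28x2 g_wQ_26_wN_1_rb803308121f29x2

theorem g__wQ_26_wN_1_rb8033081220v3_5 : GoodKC AS k_wQ_26_wN_1_rb8033081220v3_5 := p_wQ_26_wN_1_rb8033081220v3_5

theorem g__wQ_26_wN_1_rb8033081220v3_4 : GoodKC AS k_wQ_26_wN_1_rb8033081220v3_4 := p_wQ_26_wN_1_rb8033081220v3_4 g__wQ_26_wN_1_rb8033081220v3_5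

theorem g__wQ_26_wN_1_rb8033081220v3_3 : GoodKC AS k_wQ_26_wN_1_rb8033081220v3_3 := p_wQ_26_wN_1_rb8033081220v3_3 g__wQ_26_wN_1_rb8033081220v3_4

theorem g__wQ_26_wN_1_rb8033081220v3_2 : GoodKC AS k_wQ_26_wN_1_rb8033081220v3_2 := p_wQ_26_wN_1_rb8033081220v3_2 g__wQ_26_wN_1_rb8033081220v3_3

theorem g__wQ_26_wN_1_rb8033081220v3_1 : GoodKC AS k_wQ_26_wN_1_rb8033081220v3_1 := p_wQ_26_wN_1_rb8033081220v3_1 g__wQ_26_wN_1_rb8033081220v3_2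

theorem g__wQ_26_wN_1_rb8033081220v3_0 : GoodKC AS k_wQ_26_wN_1_rb8033081220v3_0 := p_wQ_26_wN_1_rb8033081220v3_0 g__wQ_26_wN_1_rb8033081220v3_1

theorem g_wQ_26_wN_1_rb8033081220x3 : GoodKC AS c_wQ_26_wN_1_rb8033081220x3 := p_wQ_26_wN_1_rb8033081220x3 g__wQ_26_wN_1_rb8033081220v3_0

theorem g__wQ_26_wN_1_rb8033081228x3_0 : GoodKC AS k_wQ_26_wN_1_rb8033081228x3_0 := p_wQ_26_wN_1_rb8033081228x3_0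

theorem g_wQ_26_wN_1_rb8033081228x3 : GoodKC AS c_wQ_26_wN_1_rb8033081228x3 := p_wQ_26_wN_1_rb8033081228x3 g__wQ_26_wN_1_rb8033081228x3_0

theorem g_wQ_26_wN_1_rb803308122ex3 : GoodKC AS c_wQ_26_wN_1_rb803308122ex3 := p_wQ_26_wN_1_rb803308122ex3

theorem g_wQ_26_wN_1_rb803308122fx3 : GoodKC AS c_wQ_26_wN_1_rb803308122fx3 := p_wQ_26_wN_1_rb803308122fx3

theorem g_wQ_26_wN_1_rb8033081231x3 : GoodKC AS c_wQ_26_wN_1_rb8033081231x3 := p_wQ_26_wN_1_rb8033081231x3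

theorem g__wQ_26_wN_1_rb80330812x3_20 : GoodKC AS k_wQ_26_wN_1_rb80330812x3_20 := p_wQ_26_wN_1_rb80330812x3_20

theorem g__wQ_26_wN_1_rb80330812x3_23 : GoodKC AS k_wQ_26_wN_1_rb80330812x3_23 := p_wQ_26_wN_1_rb80330812x3_23

theorem g__wQ_26_wN_1_rb80330812x3_22 : GoodKC AS k_wQ_26_wN_1_rb80330812x3_22 := p_wQ_26_wN_1_rb80330812x3_22 g__wQ_26_wN_1_rb80330812x3_23

theorem g__wQ_26_wN_1_rb80330812x3_21 : GoodKC AS k_wQ_26_wN_1_rb80330812x3_21 := p_wQ_26_wN_1_rb80330812x3_21 g__wQ_26_wN_1_rb80330812x3_22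

theorem g__wQ_26_wN_1_rb80330812x3_19 : GoodKC AS k_wQ_26_wN_1_rb80330812x3_19 := p_wQ_26_wN_1_rb80330812x3_19 g__wQ_26_wN_1_rb80330812x3_20 g__wQ_26_wN_1_rb80330812x3_21

theorem g_wQ_26_wN_1_rb8033081239x3 : GoodKC AS c_wQ_26_wN_1_rb8033081239x3 := p_wQ_26_wN_1_rb8033081239x3

theorem g__wQ_26_wN_1_rb803308124100v3_1 : GoodKC AS k_wQ_26_wN_1_rb803308124100v3_1 := p_wQ_26_wN_1_rb803308124100v3_1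

theorem g__wQ_26_wN_1_rb803308124100v3_0 : GoodKC AS k_wQ_26_wN_1_rb803308124100v3_0 := p_wQ_26_wN_1_rb803308124100v3_0 g__wQ_26_wN_1_rb803308124100v3_1

theorem g_wQ_26_wN_1_rb803308124100x3 : GoodKC AS c_wQ_26_wN_1_rb803308124100x3 := p_wQ_26_wN_1_rb803308124100x3 g__wQ_26_wN_1_rb803308124100v3_0

theorem g__wQ_26_wN_1_rb8033081241x3_2 : GoodKC AS k_wQ_26_wN_1_rb8033081241x3_2 := p_wQ_26_wN_1_rb8033081241x3_2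

theorem g__wQ_26_wN_1_rb8033081241x3_4 : GoodKC AS k_wQ_26_wN_1_rb8033081241x3_4 := p_wQ_26_wN_1_rb8033081241x3_4

theorem g__wQ_26_wN_1_rb8033081241x3_6 : GoodKC AS k_wQ_26_wN_1_rb8033081241x3_6 := p_wQ_26_wN_1_rb8033081241x3_6

theorem g__wQ_26_wN_1_rb8033081241x3_7 : GoodKC AS k_wQ_26_wN_1_rb8033081241x3_7 := p_wQ_26_wN_1_rb8033081241x3_7

theorem g__wQ_26_wN_1_rb8033081241x3_8 : GoodKC AS k_wQ_26_wN_1_rb8033081241x3_8 := p_wQ_26_wN_1_rb8033081241x3_8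

theorem g__wQ_26_wN_1_rb8033081241x3_9 : GoodKC AS k_wQ_26_wN_1_rb8033081241x3_9 := p_wQ_26_wN_1_rb8033081241x3_9

theorem g__wQ_26_wN_1_rb8033081241x3_5 : GoodKC AS k_wQ_26_wN_1_rb8033081241x3_5 := p_wQ_26_wN_1_rb8033081241x3_5 g__wQ_26_wN_1_rb8033081241x3_6 g__wQ_26_wN_1_rb8033081241x3_7 g__wQ_26_wN_1_rb8033081241x3_8 g__wQ_26_wN_1_rb8033081241x3_9

theorem g__wQ_26_wN_1_rb8033081241x3_3 : GoodKC AS k_wQ_26_wN_1_rb8033081241x3_3 := p_wQ_26_wN_1_rb8033081241x3_3 g__wQ_26_wN_1_rb8033081241x3_4 g__wQ_26_wN_1_rb8033081241x3_5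

theorem g__wQ_26_wN_1_rb8033081241x3_12 : GoodKC AS k_wQ_26_wN_1_rb8033081241x3_12 := p_wQ_26_wN_1_rb8033081241x3_12

theorem g__wQ_26_wN_1_rb8033081241x3_13 : GoodKC AS k_wQ_26_wN_1_rb8033081241x3_13 := p_wQ_26_wN_1_rb8033081241x3_13

theorem g__wQ_26_wN_1_rb8033081241x3_16 : GoodKC AS k_wQ_26_wN_1_rb8033081241x3_16 := p_wQ_26_wN_1_rb8033081241x3_16

theorem g__wQ_26_wN_1_rb8033081241x3_15 : GoodKC AS k_wQ_26_wN_1_rb8033081241x3_15 := p_wQ_26_wN_1_rb8033081241x3_15 g__wQ_26_wN_1_rb8033081241x3_16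

theorem g__wQ_26_wN_1_rb8033081241x3_14 : GoodKC AS k_wQ_26_wN_1_rb8033081241x3_14 := p_wQ_26_wN_1_rb8033081241x3_14 g__wQ_26_wN_1_rb8033081241x3_15

theorem g__wQ_26_wN_1_rb8033081241x3_11 : GoodKC AS k_wQ_26_wN_1_rb8033081241x3_11 := p_wQ_26_wN_1_rb8033081241x3_11 g__wQ_26_wN_1_rb8033081241x3_12 g__wQ_26_wN_1_rb8033081241x3_13 g__wQ_26_wN_1_rb8033081241x3_14

theorem g__wQ_26_wN_1_rb8033081241x3_10 : GoodKC AS k_wQ_26_wN_1_rb8033081241x3_10 := p_wQ_26_wN_1_rb8033081241x3_10 g__wQ_26_wN_1_rb8033081241x3_11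

theorem g__wQ_26_wN_1_rb8033081241x3_1 : GoodKC AS k_wQ_26_wN_1_rb8033081241x3_1 := p_wQ_26_wN_1_rb8033081241x3_1 g__wQ_26_wN_1_rb8033081241x3_2 g__wQ_26_wN_1_rb8033081241x3_3 g__wQ_26_wN_1_rb8033081241x3_10

theorem g__wQ_26_wN_1_rb8033081241x3_17 : GoodKC AS k_wQ_26_wN_1_rb8033081241x3_17 := p_wQ_26_wN_1_rb8033081241x3_17

theorem g__wQ_26_wN_1_rb8033081241x3_0 : GoodKC AS k_wQ_26_wN_1_rb8033081241x3_0 := p_wQ_26_wN_1_rb8033081241x3_0 g__wQ_26_wN_1_rb8033081241x3_1 g__wQ_26_wN_1_rb8033081241x3_17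

theorem g_wQ_26_wN_1_rb8033081241x3 : GoodKC AS c_wQ_26_wN_1_rb8033081241x3 := p_wQ_26_wN_1_rb8033081241x3 g_wQ_26_wN_1_rb803308124100x3 g__wQ_26_wN_1_rb8033081241x3_0

theorem g_wQ_26_wN_1_rb8033081246x3 : GoodKC AS c_wQ_26_wN_1_rb8033081246x3 := p_wQ_26_wN_1_rb8033081246x3

theorem g_wQ_26_wN_1_rb80330812x15 : GoodKC AS c_wQ_26_wN_1_rb80330812x15 := p_wQ_26_wN_1_rb80330812x3 g_wQ_26_wN_1_rb8033081247x3 g_wQ_26_wN_1_rb8033081245x3 g_wQ_26_wN_1_rb8033081244x3 g_wQ_26_wN_1_rb8033081243x3 g_wQ_26_wN_1_rb8033081242x3 g_wQ_26_wN_1_rb8033081240x3 g_wQ_26_wN_1_rb803308123fx3 g_wQ_26_wN_1_rb803308123ex3 g_wQ_26_wN_1_rb803308123dx3 g_wQ_26_wN_1_rb803308123cx3 g_wQ_26_wN_1_rb803308123bx3 g_wQ_26_wN_1_rb803308123ax3 g__wQ_26_wN_1_rb80330812x3_0 g_wQ_26_wN_1_rb8033081238x3 g_wQ_26_wN_1_rb8033081237x3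 g_wQ_26_wN_1_rb8033081236x3 g_wQ_26_wN_1_rb8033081235x3 g_wQ_26_wN_1_rb8033081234x3 g_wQ_26_wN_1_rb8033081233x3 g_wQ_26_wN_1_rb8033081232x3 g_wQ_26_wN_1_rb8033081230x3 g_wQ_26_wN_1_rb803308122dx3 g_wQ_26_wN_1_rb803308122cx3 g_wQ_26_wN_1_rb803308122bx3 g_wQ_26_wN_1_rb803308122ax3 g_wQ_26_wN_1_rb8033081229x3 g_wQ_26_wN_1_rb8033081227x3 g_wQ_26_wN_1_rb8033081226x3 g_wQ_26_wN_1_rb8033081225x3 g_wQ_26_wN_1_rb8033081224x3 g_wQ_26_wN_1_rb8033081223x3 g_wQ_26_wN_1_rb8033081222x3 g_wQ_26_wN_1_rb8033081221x3 g_wQ_26_wN_1_rb803308121dx3 g_wQ_26_wN_1_rb803308121cx3 g_wQ_26_wN_1_rb8033081218x3 g_wQ_26_wN_1_rb8033081217x3 g_wQ_26_wN_1_rb8033081216x3 g_wQ_26_wN_1_rb8033081215x3 g_wQ_26_wN_1_rb8033081214x3 g_wQ_26_wN_1_rb8033081213x3 g_wQ_26_wN_1_rb8033081212x3 g_wQ_26_wN_1_rb8033081210x3 g_wQ_26_wN_1_rb803308120fx3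 g_wQ_26_wN_1_rb803308120cx3 g_wQ_26_wN_1_rb803308120bx3 g__wQ_26_wN_1_rb80330812x3_7 g_wQ_26_wN_1_rb803308120ax3 g_wQ_26_wN_1_rb8033081208x3 g_wQ_26_wN_1_rb8033081206x3 g_wQ_26_wN_1_rb8033081200x3 g_wQ_26_wN_1_rb8033081201x3 g_wQ_26_wN_1_rb8033081202x3 g_wQ_26_wN_1_rb8033081203x3 g_wQ_26_wN_1_rb8033081204x3 g_wQ_26_wN_1_rb8033081205x3 g_wQ_26_wN_1_rb8033081207x3 g_wQ_26_wN_1_rb8033081209x3 g_wQ_26_wN_1_rb803308120dx3 g_wQ_26_wN_1_rb803308120ex3 g_wQ_26_wN_1_rb8033081211x3 g_wQ_26_wN_1_rb8033081219x3 g_wQ_26_wN_1_rb803308121ax3 g_wQ_26_wN_1_rb803308121bx3 g_wQ_26_wN_1_rb803308121ex3 g_wQ_26_wN_1_rb803308121fx3 g_wQ_26_wN_1_rb8033081220x3 g_wQ_26_wN_1_rb8033081228x3 g_wQ_26_wN_1_rb803308122ex3 g_wQ_26_wN_1_rb803308122fx3 g_wQ_26_wN_1_rb8033081231x3 g__wQ_26_wN_1_rb80330812x3_19 g_wQ_26_wN_1_rb8033081239x3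 g_wQ_26_wN_1_rb8033081241x3 g_wQ_26_wN_1_rb8033081246x3

theorem g_wQ_26_wN_1_rb803308x2 : GoodKC AS c_wQ_26_wN_1_rb803308x2 := p_wQ_26_wN_1_rb803308x15 g_wQ_26_wN_1_rb80330814x15 g_wQ_26_wN_1_rb80330813x15 g_wQ_26_wN_1_rb80330810x15 g_wQ_26_wN_1_rb8033080ex15 g_wQ_26_wN_1_rb8033080cx15 g_wQ_26_wN_1_rb8033080ax15 g_wQ_26_wN_1_rb80330808x15 g_wQ_26_wN_1_rb80330807x15 g__wQ_26_wN_1_rb803308x15_0 g_wQ_26_wN_1_rb80330806x15 g_wQ_26_wN_1_rb80330809x15 g_wQ_26_wN_1_rb8033080bx15 g_wQ_26_wN_1_rb8033080dx15 g_wQ_26_wN_1_rb8033080fx15 g_wQ_26_wN_1_rb80330811x15 g_wQ_26_wN_1_rb80330812x15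

theorem g_wS_32_wQ_26_wN_1_rb8033053bx17 : GoodKC AS c_wS_32_wQ_26_wN_1_rb8033053bx17 := p_wS_32_wQ_26_wN_1_rb8033053bx7

theorem g__wS_32_wQ_26_wN_1_rb8033053ax7_2 : GoodKC AS k_wS_32_wQ_26_wN_1_rb8033053ax7_2 := p_wS_32_wQ_26_wN_1_rb8033053ax7_2

theorem g__wS_32_wQ_26_wN_1_rb8033053ax7_1 : GoodKC AS k_wS_32_wQ_26_wN_1_rb8033053ax7_1 := p_wS_32_wQ_26_wN_1_rb8033053ax7_1 g__wS_32_wQ_26_wN_1_rb8033053ax7_2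

theorem g__wS_32_wQ_26_wN_1_rb8033053ax7_0 : GoodKC AS k_wS_32_wQ_26_wN_1_rb8033053ax7_0 := p_wS_32_wQ_26_wN_1_rb8033053ax7_0 g__wS_32_wQ_26_wN_1_rb8033053ax7_1

theorem g__wS_32_wQ_26_wN_1_rb8033053ax7_6 : GoodKC AS k_wS_32_wQ_26_wN_1_rb8033053ax7_6 := p_wS_32_wQ_26_wN_1_rb8033053ax7_6

theorem g__wS_32_wQ_26_wN_1_rb8033053ax7_7 : GoodKC AS k_wS_32_wQ_26_wN_1_rb8033053ax7_7 := p_wS_32_wQ_26_wN_1_rb8033053ax7_7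

theorem g__wS_32_wQ_26_wN_1_rb8033053ax7_5 : GoodKC AS k_wS_32_wQ_26_wN_1_rb8033053ax7_5 := p_wS_32_wQ_26_wN_1_rb8033053ax7_5 g__wS_32_wQ_26_wN_1_rb8033053ax7_6 g__wS_32_wQ_26_wN_1_rb8033053ax7_7

theorem g__wS_32_wQ_26_wN_1_rb8033053ax7_4 : GoodKC AS k_wS_32_wQ_26_wN_1_rb8033053ax7_4 := p_wS_32_wQ_26_wN_1_rb8033053ax7_4 g__wS_32_wQ_26_wN_1_rb8033053ax7_5

theorem g__wS_32_wQ_26_wN_1_rb8033053ax7_3 : GoodKC AS k_wS_32_wQ_26_wN_1_rb8033053ax7_3 := p_wS_32_wQ_26_wN_1_rb8033053ax7_3 g__wS_32_wQ_26_wN_1_rb8033053ax7_4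

theorem g_wS_32_wQ_26_wN_1_rb8033053ax17 : GoodKC AS c_wS_32_wQ_26_wN_1_rb8033053ax17 := p_wS_32_wQ_26_wN_1_rb8033053ax7 g__wS_32_wQ_26_wN_1_rb8033053ax7_0 g__wS_32_wQ_26_wN_1_rb8033053ax7_3

theorem g_wS_32_wQ_26_wN_1_rb80330539_d42_d13x7 : GoodKC AS c_wS_32_wQ_26_wN_1_rb80330539_d42_d13x7 := p_wS_32_wQ_26_wN_1_rb80330539_d42_d13x1

theorem g_wS_32_wQ_26_wN_1_rb80330539_d42_d10x7 : GoodKC AS c_wS_32_wQ_26_wN_1_rb80330539_d42_d10x7 := p_wS_32_wQ_26_wN_1_rb80330539_d42_d10x1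

theorem g_wS_32_wQ_26_wN_1_rb80330539_d42_d0dx7 : GoodKC AS c_wS_32_wQ_26_wN_1_rb80330539_d42_d0dx7 := p_wS_32_wQ_26_wN_1_rb80330539_d42_d0dx1

theorem g__wS_32_wQ_26_wN_1_rb80330539_d42_d0c_d51_d14_d51_d12_1 : GoodKC AS k_wS_32_wQ_26_wN_1_rb80330539_d42_d0c_d51_d14_d51_d12_1 := p_wS_32_wQ_26_wN_1_rb80330539_d42_d0c_d51_d14_d51_d12_1

theorem g__wS_32_wQ_26_wN_1_rb80330539_d42_d0c_d51_d14_d51_d12_3 : GoodKC AS k_wS_32_wQ_26_wN_1_rb80330539_d42_d0c_d51_d14_d51_d12_3 := p_wS_32_wQ_26_wN_1_rb80330539_d42_d0c_d51_d14_d51_d12_3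

theorem g__wS_32_wQ_26_wN_1_rb80330539_d42_d0c_d51_d14_d51_d12_2 : GoodKC AS k_wS_32_wQ_26_wN_1_rb80330539_d42_d0c_d51_d14_d51_d12_2 := p_wS_32_wQ_26_wN_1_rb80330539_d42_d0c_d51_d14_d51_d12_2 g__wS_32_wQ_26_wN_1_rb80330539_d42_d0c_d51_d14_d51_d12_3

theorem g__wS_32_wQ_26_wN_1_rb80330539_d42_d0c_d51_d14_d51_d12_0 : GoodKC AS k_wS_32_wQ_26_wN_1_rb80330539_d42_d0c_d51_d14_d51_d12_0 := p_wS_32_wQ_26_wN_1_rb80330539_d42_d0c_d51_d14_d51_d12_0 g__wS_32_wQ_26_wN_1_rb80330539_d42_d0c_d51_d14_d51_d12_1 g__wS_32_wQ_26_wN_1_rb80330539_d42_d0c_d51_d14_d51_d12_2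

theorem g_wS_32_wQ_26_wN_1_rb80330539_d42_d0c_d51_d14_d51_d12 : GoodKC AS c_wS_32_wQ_26_wN_1_rb80330539_d42_d0c_d51_d14_d51_d12 := p_wS_32_wQ_26_wN_1_rb80330539_d42_d0c_d51_d14_d51_d12 g__wS_32_wQ_26_wN_1_rb80330539_d42_d0c_d51_d14_d51_d12_0

theorem g__wS_32_wQ_26_wN_1_rb80330539_d42_d0c_d51_d14_d51_d11_d51_d1b_2 : GoodKC AS k_wS_32_wQ_26_wN_1_rb80330539_d42_d0c_d51_d14_d51_d11_d51_d1b_2 := p_wS_32_wQ_26_wN_1_rb80330539_d42_d0c_d51_d14_d51_d11_d51_d1b_2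

theorem g__wS_32_wQ_26_wN_1_rb80330539_d42_d0c_d51_d14_d51_d11_d51_d1b_1 : GoodKC AS k_wS_32_wQ_26_wN_1_rb80330539_d42_d0c_d51_d14_d51_d11_d51_d1b_1 := p_wS_32_wQ_26_wN_1_rb80330539_d42_d0c_d51_d14_d51_d11_d51_d1b_1 g__wS_32_wQ_26_wN_1_rb80330539_d42_d0c_d51_d14_d51_d11_d51_d1b_2

theorem g__wS_32_wQ_26_wN_1_rb80330539_d42_d0c_d51_d14_d51_d11_d51_d1b_0 : GoodKC AS k_wS_32_wQ_26_wN_1_rb80330539_d42_d0c_d51_d14_d51_d11_d51_d1b_0 := p_wS_32_wQ_26_wN_1_rb80330539_d42_d0c_d51_d14_d51_d11_d51_d1b_0 g__wS_32_wQ_26_wN_1_rb80330539_d42_d0c_d51_d14_d51_d11_d51_d1b_1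

theorem g_wS_32_wQ_26_wN_1_rb80330539_d42_d0c_d51_d14_d51_d11_d51_d1b : GoodKC AS c_wS_32_wQ_26_wN_1_rb80330539_d42_d0c_d51_d14_d51_d11_d51_d1b := p_wS_32_wQ_26_wN_1_rb80330539_d42_d0c_d51_d14_d51_d11_d51_d1b g__wS_32_wQ_26_wN_1_rb80330539_d42_d0c_d51_d14_d51_d11_d51_d1b_0

theorem g_wS_32_wQ_26_wN_1_rb80330539_d42_d0c_d51_d14_d51_d11_d51_d1a : GoodKC AS c_wS_32_wQ_26_wN_1_rb80330539_d42_d0c_d51_d14_d51_d11_d51_d1a := p_wS_32_wQ_26_wN_1_rb80330539_d42_d0c_d51_d14_d51_d11_d51_d1a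

theorem g__wS_32_wQ_26_wN_1_rb80330539_d42_d0c_d51_d14_d51_d11_d51_d19_1 : GoodKC AS k_wS_32_wQ_26_wN_1_rb80330539_d42_d0c_d51_d14_d51_d11_d51_d19_1 := p_wS_32_wQ_26_wN_1_rb80330539_d42_d0c_d51_d14_d51_d11_d51_d19_1

theorem g__wS_32_wQ_26_wN_1_rb80330539_d42_d0c_d51_d14_d51_d11_d51_d19_3 : GoodKC AS k_wS_32_wQ_26_wN_1_rb80330539_d42_d0c_d51_d14_d51_d11_d51_d19_3 := p_wS_32_wQ_26_wN_1_rb80330539_d42_d0c_d51_d14_d51_d11_d51_d19_3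

theorem g__wS_32_wQ_26_wN_1_rb80330539_d42_d0c_d51_d14_d51_d11_d51_d19_7 : GoodKC AS k_wS_32_wQ_26_wN_1_rb80330539_d42_d0c_d51_d14_d51_d11_d51_d19_7 := p_wS_32_wQ_26_wN_1_rb80330539_d42_d0c_d51_d14_d51_d11_d51_d19_7

theorem g__wS_32_wQ_26_wN_1_rb80330539_d42_d0c_d51_d14_d51_d11_d51_d19_6 : GoodKC AS k_wS_32_wQ_26_wN_1_rb80330539_d42_d0c_d51_d14_d51_d11_d51_d19_6 := p_wS_32_wQ_26_wN_1_rb80330539_d42_d0c_d51_d14_d51_d11_d51_d19_6 g__wS_32_wQ_26_wN_1_rb80330539_d42_d0c_d51_d14_d51_d11_d51_d19_7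

theorem g__wS_32_wQ_26_wN_1_rb80330539_d42_d0c_d51_d14_d51_d11_d51_d19_5 : GoodKC AS k_wS_32_wQ_26_wN_1_rb80330539_d42_d0c_d51_d14_d51_d11_d51_d19_5 := p_wS_32_wQ_26_wN_1_rb80330539_d42_d0c_d51_d14_d51_d11_d51_d19_5 g__wS_32_wQ_26_wN_1_rb80330539_d42_d0c_d51_d14_d51_d11_d51_d19_6

theorem g__wS_32_wQ_26_wN_1_rb80330539_d42_d0c_d51_d14_d51_d11_d51_d19_4 : GoodKC AS k_wS_32_wQ_26_wN_1_rb80330539_d42_d0c_d51_d14_d51_d11_d51_d19_4 := p_wS_32_wQ_26_wN_1_rb80330539_d42_d0c_d51_d14_d51_d11_d51_d19_4 g__wS_32_wQ_26_wN_1_rb80330539_d42_d0c_d51_d14_d51_d11_d51_d19_5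

theorem g__wS_32_wQ_26_wN_1_rb80330539_d42_d0c_d51_d14_d51_d11_d51_d19_2 : GoodKC AS k_wS_32_wQ_26_wN_1_rb80330539_d42_d0c_d51_d14_d51_d11_d51_d19_2 := p_wS_32_wQ_26_wN_1_rb80330539_d42_d0c_d51_d14_d51_d11_d51_d19_2 g__wS_32_wQ_26_wN_1_rb80330539_d42_d0c_d51_d14_d51_d11_d51_d19_3 g__wS_32_wQ_26_wN_1_rb80330539_d42_d0c_d51_d14_d51_d11_d51_d19_4

theorem g__wS_32_wQ_26_wN_1_rb80330539_d42_d0c_d51_d14_d51_d11_d51_d19_0 : GoodKC AS k_wS_32_wQ_26_wN_1_rb80330539_d42_d0c_d51_d14_d51_d11_d51_d19_0 := p_wS_32_wQ_26_wN_1_rb80330539_d42_d0c_d51_d14_d51_d11_d51_d19_0 g__wS_32_wQ_26_wN_1_rb80330539_d42_d0c_d51_d14_d51_d11_d51_d19_1 g__wS_32_wQ_26_wN_1_rb80330539_d42_d0c_d51_d14_d51_d11_d51_d19_2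

theorem g_wS_32_wQ_26_wN_1_rb80330539_d42_d0c_d51_d14_d51_d11_d51_d19 : GoodKC AS c_wS_32_wQ_26_wN_1_rb80330539_d42_d0c_d51_d14_d51_d11_d51_d19 := p_wS_32_wQ_26_wN_1_rb80330539_d42_d0c_d51_d14_d51_d11_d51_d19 g__wS_32_wQ_26_wN_1_rb80330539_d42_d0c_d51_d14_d51_d11_d51_d19_0

theorem g_wS_32_wQ_26_wN_1_rb80330539_d42_d0c_d51_d14_d51_d11_d51_d18 : GoodKC AS c_wS_32_wQ_26_wN_1_rb80330539_d42_d0c_d51_d14_d51_d11_d51_d18 := p_wS_32_wQ_26_wN_1_rb80330539_d42_d0c_d51_d14_d51_d11_d51_d18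

theorem g_wS_32_wQ_26_wN_1_rb80330539_d42_d0c_d51_d14_d51_d11_d51_d17 : GoodKC AS c_wS_32_wQ_26_wN_1_rb80330539_d42_d0c_d51_d14_d51_d11_d51_d17 := p_wS_32_wQ_26_wN_1_rb80330539_d42_d0c_d51_d14_d51_d11_d51_d17

theorem g_wS_32_wQ_26_wN_1_rb80330539_d42_d0c_d51_d14_d51_d11_d51_d16 : GoodKC AS c_wS_32_wQ_26_wN_1_rb80330539_d42_d0c_d51_d14_d51_d11_d51_d16 := p_wS_32_wQ_26_wN_1_rb80330539_d42_d0c_d51_d14_d51_d11_d51_d16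

theorem g_wS_32_wQ_26_wN_1_rb80330539_d42_d0c_d51_d14_d51_d11_d51_d15 : GoodKC AS c_wS_32_wQ_26_wN_1_rb80330539_d42_d0c_d51_d14_d51_d11_d51_d15 := p_wS_32_wQ_26_wN_1_rb80330539_d42_d0c_d51_d14_d51_d11_d51_d15

theorem g_wS_32_wQ_26_wN_1_rb80330539_d42_d0c_d51_d14_d51_d11_d51_d14 : GoodKC AS c_wS_32_wQ_26_wN_1_rb80330539_d42_d0c_d51_d14_d51_d11_d51_d14 := p_wS_32_wQ_26_wN_1_rb80330539_d42_d0c_d51_d14_d51_d11_d51_d14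

theorem g_wS_32_wQ_26_wN_1_rb80330539_d42_d0c_d51_d14_d51_d11_d51_d13 : GoodKC AS c_wS_32_wQ_26_wN_1_rb80330539_d42_d0c_d51_d14_d51_d11_d51_d13 := p_wS_32_wQ_26_wN_1_rb80330539_d42_d0c_d51_d14_d51_d11_d51_d13

theorem g_wS_32_wQ_26_wN_1_rb80330539_d42_d0c_d51_d14_d51_d11_d51_d11 : GoodKC AS c_wS_32_wQ_26_wN_1_rb80330539_d42_d0c_d51_d14_d51_d11_d51_d11 := p_wS_32_wQ_26_wN_1_rb80330539_d42_d0c_d51_d14_d51_d11_d51_d11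

theorem g_wS_32_wQ_26_wN_1_rb80330539_d42_d0c_d51_d14_d51_d11_d51_d10 : GoodKC AS c_wS_32_wQ_26_wN_1_rb80330539_d42_d0c_d51_d14_d51_d11_d51_d10 := p_wS_32_wQ_26_wN_1_rb80330539_d42_d0c_d51_d14_d51_d11_d51_d10

theorem g_wS_32_wQ_26_wN_1_rb80330539_d42_d0c_d51_d14_d51_d11_d51_d0f : GoodKC AS c_wS_32_wQ_26_wN_1_rb80330539_d42_d0c_d51_d14_d51_d11_d51_d0f := p_wS_32_wQ_26_wN_1_rb80330539_d42_d0c_d51_d14_d51_d11_d51_d0f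

theorem g_wS_32_wQ_26_wN_1_rb80330539_d42_d0c_d51_d14_d51_d11_d51_d0e : GoodKC AS c_wS_32_wQ_26_wN_1_rb80330539_d42_d0c_d51_d14_d51_d11_d51_d0e := p_wS_32_wQ_26_wN_1_rb80330539_d42_d0c_d51_d14_d51_d11_d51_d0e

theorem g_wS_32_wQ_26_wN_1_rb80330539_d42_d0c_d51_d14_d51_d11_d51_d0d : GoodKC AS c_wS_32_wQ_26_wN_1_rb80330539_d42_d0c_d51_d14_d51_d11_d51_d0d := p_wS_32_wQ_26_wN_1_rb80330539_d42_d0c_d51_d14_d51_d11_d51_d0d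

theorem g_wS_32_wQ_26_wN_1_rb80330539_d42_d0c_d51_d14_d51_d11_d51_d0c : GoodKC AS c_wS_32_wQ_26_wN_1_rb80330539_d42_d0c_d51_d14_d51_d11_d51_d0c := p_wS_32_wQ_26_wN_1_rb80330539_d42_d0c_d51_d14_d51_d11_d51_d0c

theorem g_wS_32_wQ_26_wN_1_rb80330539_d42_d0c_d51_d14_d51_d11_d51_d0b : GoodKC AS c_wS_32_wQ_26_wN_1_rb80330539_d42_d0c_d51_d14_d51_d11_d51_d0b := p_wS_32_wQ_26_wN_1_rb80330539_d42_d0c_d51_d14_d51_d11_d51_d0b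

theorem g__wS_32_wQ_26_wN_1_rb80330539_d42_d0c_d51_d14_d51_d11_d51_d0a_1 : GoodKC AS k_wS_32_wQ_26_wN_1_rb80330539_d42_d0c_d51_d14_d51_d11_d51_d0a_1 := p_wS_32_wQ_26_wN_1_rb80330539_d42_d0c_d51_d14_d51_d11_d51_d0a_1

theorem g__wS_32_wQ_26_wN_1_rb80330539_d42_d0c_d51_d14_d51_d11_d51_d0a_0 : GoodKC AS k_wS_32_wQ_26_wN_1_rb80330539_d42_d0c_d51_d14_d51_d11_d51_d0a_0 := p_wS_32_wQ_26_wN_1_rb80330539_d42_d0c_d51_d14_d51_d11_d51_d0a_0 g__wS_32_wQ_26_wN_1_rb80330539_d42_d0c_d51_d14_d51_d11_d51_d0a_1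

theorem g_wS_32_wQ_26_wN_1_rb80330539_d42_d0c_d51_d14_d51_d11_d51_d0a : GoodKC AS c_wS_32_wQ_26_wN_1_rb80330539_d42_d0c_d51_d14_d51_d11_d51_d0a := p_wS_32_wQ_26_wN_1_rb80330539_d42_d0c_d51_d14_d51_d11_d51_d0a g__wS_32_wQ_26_wN_1_rb80330539_d42_d0c_d51_d14_d51_d11_d51_d0a_0

theorem g_wS_32_wQ_26_wN_1_rb80330539_d42_d0c_d51_d14_d51_d11_d51_d08 : GoodKC AS c_wS_32_wQ_26_wN_1_rb80330539_d42_d0c_d51_d14_d51_d11_d51_d08 := p_wS_32_wQ_26_wN_1_rb80330539_d42_d0c_d51_d14_d51_d11_d51_d08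

theorem g_wS_32_wQ_26_wN_1_rb80330539_d42_d0c_d51_d14_d51_d11_d51_d07 : GoodKC AS c_wS_32_wQ_26_wN_1_rb80330539_d42_d0c_d51_d14_d51_d11_d51_d07 := p_wS_32_wQ_26_wN_1_rb80330539_d42_d0c_d51_d14_d51_d11_d51_d07

theorem g_wS_32_wQ_26_wN_1_rb80330539_d42_d0c_d51_d14_d51_d11_d51_d04 : GoodKC AS c_wS_32_wQ_26_wN_1_rb80330539_d42_d0c_d51_d14_d51_d11_d51_d04 := p_wS_32_wQ_26_wN_1_rb80330539_d42_d0c_d51_d14_d51_d11_d51_d04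

theorem g_wS_32_wQ_26_wN_1_rb80330539_d42_d0c_d51_d14_d51_d11_d51_d03 : GoodKC AS c_wS_32_wQ_26_wN_1_rb80330539_d42_d0c_d51_d14_d51_d11_d51_d03 := p_wS_32_wQ_26_wN_1_rb80330539_d42_d0c_d51_d14_d51_d11_d51_d03

theorem g_wS_32_wQ_26_wN_1_rb80330539_d42_d0c_d51_d14_d51_d11_d51_d00 : GoodKC AS c_wS_32_wQ_26_wN_1_rb80330539_d42_d0c_d51_d14_d51_d11_d51_d00 := p_wS_32_wQ_26_wN_1_rb80330539_d42_d0c_d51_d14_d51_d11_d51_d00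

theorem g_wS_32_wQ_26_wN_1_rb80330539_d42_d0c_d51_d14_d51_d11_d51_d01 : GoodKC AS c_wS_32_wQ_26_wN_1_rb80330539_d42_d0c_d51_d14_d51_d11_d51_d01 := p_wS_32_wQ_26_wN_1_rb80330539_d42_d0c_d51_d14_d51_d11_d51_d01

theorem g_wS_32_wQ_26_wN_1_rb80330539_d42_d0c_d51_d14_d51_d11_d51_d02 : GoodKC AS c_wS_32_wQ_26_wN_1_rb80330539_d42_d0c_d51_d14_d51_d11_d51_d02 := p_wS_32_wQ_26_wN_1_rb80330539_d42_d0c_d51_d14_d51_d11_d51_d02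

theorem g_wS_32_wQ_26_wN_1_rb80330539_d42_d0c_d51_d14_d51_d11_d51_d05 : GoodKC AS c_wS_32_wQ_26_wN_1_rb80330539_d42_d0c_d51_d14_d51_d11_d51_d05 := p_wS_32_wQ_26_wN_1_rb80330539_d42_d0c_d51_d14_d51_d11_d51_d05

theorem g_wS_32_wQ_26_wN_1_rb80330539_d42_d0c_d51_d14_d51_d11_d51_d06 : GoodKC AS c_wS_32_wQ_26_wN_1_rb80330539_d42_d0c_d51_d14_d51_d11_d51_d06 := p_wS_32_wQ_26_wN_1_rb80330539_d42_d0c_d51_d14_d51_d11_d51_d06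

theorem g_wS_32_wQ_26_wN_1_rb80330539_d42_d0c_d51_d14_d51_d11_d51_d09 : GoodKC AS c_wS_32_wQ_26_wN_1_rb80330539_d42_d0c_d51_d14_d51_d11_d51_d09 := p_wS_32_wQ_26_wN_1_rb80330539_d42_d0c_d51_d14_d51_d11_d51_d09

theorem g__wS_32_wQ_26_wN_1_rb80330539_d42_d0c_d51_d14_d51_d11_0 : GoodKC AS k_wS_32_wQ_26_wN_1_rb80330539_d42_d0c_d51_d14_d51_d11_0 := p_wS_32_wQ_26_wN_1_rb80330539_d42_d0c_d51_d14_d51_d11_0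

theorem g_wS_32_wQ_26_wN_1_rb80330539_d42_d0c_d51_d14_d51_d11_d51_d12 : GoodKC AS c_wS_32_wQ_26_wN_1_rb80330539_d42_d0c_d51_d14_d51_d11_d51_d12 := p_wS_32_wQ_26_wN_1_rb80330539_d42_d0c_d51_d14_d51_d11_d51_d12

theorem g_wS_32_wQ_26_wN_1_rb80330539_d42_d0c_d51_d14_d51_d11_d51_d1c : GoodKC AS c_wS_32_wQ_26_wN_1_rb80330539_d42_d0c_d51_d14_d51_d11_d51_d1c := p_wS_32_wQ_26_wN_1_rb80330539_d42_d0c_d51_d14_d51_d11_d51_d1c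

theorem g_wS_32_wQ_26_wN_1_rb80330539_d42_d0c_d51_d14_d51_d11_d51_d1d : GoodKC AS c_wS_32_wQ_26_wN_1_rb80330539_d42_d0c_d51_d14_d51_d11_d51_d1d := p_wS_32_wQ_26_wN_1_rb80330539_d42_d0c_d51_d14_d51_d11_d51_d1d

theorem g_wS_32_wQ_26_wN_1_rb80330539_d42_d0c_d51_d14_d51_d11 : GoodKC AS c_wS_32_wQ_26_wN_1_rb80330539_d42_d0c_d51_d14_d51_d11 := p_wS_32_wQ_26_wN_1_rb80330539_d42_d0c_d51_d14_d51_d11 g_wS_32_wQ_26_wN_1_rb80330539_d42_d0c_d51_d14_d51_d11_d51_d1b g_wS_32_wQ_26_wN_1_rb80330539_d42_d0c_d51_d14_d51_d11_d51_d1a g_wS_32_wQ_26_wN_1_rb80330539_d42_d0c_d51_d14_d51_d11_d51_d19 g_wS_32_wQ_26_wN_1_rb80330539_d42_d0c_d51_d14_d51_d11_d51_d18 g_wS_32_wQ_26_wN_1_rb80330539_d42_d0c_d51_d14_d51_d11_d51_d17 g_wS_32_wQ_26_wN_1_rb80330539_d42_d0c_d51_d14_d51_d11_d51_d16 g_wS_32_wQ_26_wN_1_rb80330539_d42_d0c_d51_d14_d51_d11_d51_d15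 g_wS_32_wQ_26_wN_1_rb80330539_d42_d0c_d51_d14_d51_d11_d51_d14 g_wS_32_wQ_26_wN_1_rb80330539_d42_d0c_d51_d14_d51_d11_d51_d13 g_wS_32_wQ_26_wN_1_rb80330539_d42_d0c_d51_d14_d51_d11_d51_d11 g_wS_32_wQ_26_wN_1_rb80330539_d42_d0c_d51_d14_d51_d11_d51_d10 g_wS_32_wQ_26_wN_1_rb80330539_d42_d0c_d51_d14_d51_d11_d51_d0f g_wS_32_wQ_26_wN_1_rb80330539_d42_d0c_d51_d14_d51_d11_d51_d0e g_wS_32_wQ_26_wN_1_rb80330539_d42_d0c_d51_d14_d51_d11_d51_d0d g_wS_32_wQ_26_wN_1_rb80330539_d42_d0c_d51_d14_d51_d11_d51_d0c g_wS_32_wQ_26_wN_1_rb80330539_d42_d0c_d51_d14_d51_d11_d51_d0b g_wS_32_wQ_26_wN_1_rb80330539_d42_d0c_d51_d14_d51_d11_d51_d0a g_wS_32_wQ_26_wN_1_rb80330539_d42_d0c_d51_d14_d51_d11_d51_d08 g_wS_32_wQ_26_wN_1_rb80330539_d42_d0c_d51_d14_d51_d11_d51_d07 g_wS_32_wQ_26_wN_1_rb80330539_d42_d0c_d51_d14_d51_d11_d51_d04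 g_wS_32_wQ_26_wN_1_rb80330539_d42_d0c_d51_d14_d51_d11_d51_d03 g_wS_32_wQ_26_wN_1_rb80330539_d42_d0c_d51_d14_d51_d11_d51_d00 g_wS_32_wQ_26_wN_1_rb80330539_d42_d0c_d51_d14_d51_d11_d51_d01 g_wS_32_wQ_26_wN_1_rb80330539_d42_d0c_d51_d14_d51_d11_d51_d02 g_wS_32_wQ_26_wN_1_rb80330539_d42_d0c_d51_d14_d51_d11_d51_d05 g_wS_32_wQ_26_wN_1_rb80330539_d42_d0c_d51_d14_d51_d11_d51_d06 g_wS_32_wQ_26_wN_1_rb80330539_d42_d0c_d51_d14_d51_d11_d51_d09 g__wS_32_wQ_26_wN_1_rb80330539_d42_d0c_d51_d14_d51_d11_0 g_wS_32_wQ_26_wN_1_rb80330539_d42_d0c_d51_d14_d51_d11_d51_d12 g_wS_32_wQ_26_wN_1_rb80330539_d42_d0c_d51_d14_d51_d11_d51_d1c g_wS_32_wQ_26_wN_1_rb80330539_d42_d0c_d51_d14_d51_d11_d51_d1d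

theorem g_wS_32_wQ_26_wN_1_rb80330539_d42_d0c_d51_d14_d51_d0e : GoodKC AS c_wS_32_wQ_26_wN_1_rb80330539_d42_d0c_d51_d14_d51_d0e := p_wS_32_wQ_26_wN_1_rb80330539_d42_d0c_d51_d14_d51_d0e

theorem g_wS_32_wQ_26_wN_1_rb80330539_d42_d0c_d51_d14_d51_d0d : GoodKC AS c_wS_32_wQ_26_wN_1_rb80330539_d42_d0c_d51_d14_d51_d0d := p_wS_32_wQ_26_wN_1_rb80330539_d42_d0c_d51_d14_d51_d0d

theorem g_wS_32_wQ_26_wN_1_rb80330539_d42_d0c_d51_d14_d51_d0c : GoodKC AS c_wS_32_wQ_26_wN_1_rb80330539_d42_d0c_d51_d14_d51_d0c := p_wS_32_wQ_26_wN_1_rb80330539_d42_d0c_d51_d14_d51_d0c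

theorem g_wS_32_wQ_26_wN_1_rb80330539_d42_d0c_d51_d14_d51_d0b : GoodKC AS c_wS_32_wQ_26_wN_1_rb80330539_d42_d0c_d51_d14_d51_d0b := p_wS_32_wQ_26_wN_1_rb80330539_d42_d0c_d51_d14_d51_d0b

theorem g_wS_32_wQ_26_wN_1_rb80330539_d42_d0c_d51_d14_d51_d09 : GoodKC AS c_wS_32_wQ_26_wN_1_rb80330539_d42_d0c_d51_d14_d51_d09 := p_wS_32_wQ_26_wN_1_rb80330539_d42_d0c_d51_d14_d51_d09

theorem g_wS_32_wQ_26_wN_1_rb80330539_d42_d0c_d51_d14_d51_d08 : GoodKC AS c_wS_32_wQ_26_wN_1_rb80330539_d42_d0c_d51_d14_d51_d08 := p_wS_32_wQ_26_wN_1_rb80330539_d42_d0c_d51_d14_d51_d08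

theorem g_wS_32_wQ_26_wN_1_rb80330539_d42_d0c_d51_d14_d51_d07 : GoodKC AS c_wS_32_wQ_26_wN_1_rb80330539_d42_d0c_d51_d14_d51_d07 := p_wS_32_wQ_26_wN_1_rb80330539_d42_d0c_d51_d14_d51_d07

theorem g_wS_32_wQ_26_wN_1_rb80330539_d42_d0c_d51_d14_d51_d05 : GoodKC AS c_wS_32_wQ_26_wN_1_rb80330539_d42_d0c_d51_d14_d51_d05 := p_wS_32_wQ_26_wN_1_rb80330539_d42_d0c_d51_d14_d51_d05

theorem g__wS_32_wQ_26_wN_1_rb80330539_d42_d0c_d51_d14_0 : GoodKC AS k_wS_32_wQ_26_wN_1_rb80330539_d42_d0c_d51_d14_0 := p_wS_32_wQ_26_wN_1_rb80330539_d42_d0c_d51_d14_0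

theorem g_wS_32_wQ_26_wN_1_rb80330539_d42_d0c_d51_d14_d51_d04 : GoodKC AS c_wS_32_wQ_26_wN_1_rb80330539_d42_d0c_d51_d14_d51_d04 := p_wS_32_wQ_26_wN_1_rb80330539_d42_d0c_d51_d14_d51_d04

theorem g_wS_32_wQ_26_wN_1_rb80330539_d42_d0c_d51_d14_d51_d03 : GoodKC AS c_wS_32_wQ_26_wN_1_rb80330539_d42_d0c_d51_d14_d51_d03 := p_wS_32_wQ_26_wN_1_rb80330539_d42_d0c_d51_d14_d51_d03

theorem g_wS_32_wQ_26_wN_1_rb80330539_d42_d0c_d51_d14_d51_d01 : GoodKC AS c_wS_32_wQ_26_wN_1_rb80330539_d42_d0c_d51_d14_d51_d01 := p_wS_32_wQ_26_wN_1_rb80330539_d42_d0c_d51_d14_d51_d01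

theorem g_wS_32_wQ_26_wN_1_rb80330539_d42_d0c_d51_d14_d51_d00 : GoodKC AS c_wS_32_wQ_26_wN_1_rb80330539_d42_d0c_d51_d14_d51_d00 := p_wS_32_wQ_26_wN_1_rb80330539_d42_d0c_d51_d14_d51_d00

theorem g_wS_32_wQ_26_wN_1_rb80330539_d42_d0c_d51_d14_d51_d02 : GoodKC AS c_wS_32_wQ_26_wN_1_rb80330539_d42_d0c_d51_d14_d51_d02 := p_wS_32_wQ_26_wN_1_rb80330539_d42_d0c_d51_d14_d51_d02

theorem g_wS_32_wQ_26_wN_1_rb80330539_d42_d0c_d51_d14_d51_d06 : GoodKC AS c_wS_32_wQ_26_wN_1_rb80330539_d42_d0c_d51_d14_d51_d06 := p_wS_32_wQ_26_wN_1_rb80330539_d42_d0c_d51_d14_d51_d06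

theorem g_wS_32_wQ_26_wN_1_rb80330539_d42_d0c_d51_d14_d51_d0a : GoodKC AS c_wS_32_wQ_26_wN_1_rb80330539_d42_d0c_d51_d14_d51_d0a := p_wS_32_wQ_26_wN_1_rb80330539_d42_d0c_d51_d14_d51_d0a

theorem g_wS_32_wQ_26_wN_1_rb80330539_d42_d0c_d51_d14_d51_d0f : GoodKC AS c_wS_32_wQ_26_wN_1_rb80330539_d42_d0c_d51_d14_d51_d0f := p_wS_32_wQ_26_wN_1_rb80330539_d42_d0c_d51_d14_d51_d0f

theorem g_wS_32_wQ_26_wN_1_rb80330539_d42_d0c_d51_d14_d51_d10 : GoodKC AS c_wS_32_wQ_26_wN_1_rb80330539_d42_d0c_d51_d14_d51_d10 := p_wS_32_wQ_26_wN_1_rb80330539_d42_d0c_d51_d14_d51_d10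

theorem g_wS_32_wQ_26_wN_1_rb80330539_d42_d0c_d51_d14_d51_d13 : GoodKC AS c_wS_32_wQ_26_wN_1_rb80330539_d42_d0c_d51_d14_d51_d13 := p_wS_32_wQ_26_wN_1_rb80330539_d42_d0c_d51_d14_d51_d13

theorem g_wS_32_wQ_26_wN_1_rb80330539_d42_d0c_d51_d14x2 : GoodKC AS c_wS_32_wQ_26_wN_1_rb80330539_d42_d0c_d51_d14x2 := p_wS_32_wQ_26_wN_1_rb80330539_d42_d0c_d51_d14 g_wS_32_wQ_26_wN_1_rb80330539_d42_d0c_d51_d14_d51_d12 g_wS_32_wQ_26_wN_1_rb80330539_d42_d0c_d51_d14_d51_d11 g_wS_32_wQ_26_wN_1_rb80330539_d42_d0c_d51_d14_d51_d0e g_wS_32_wQ_26_wN_1_rb80330539_d42_d0c_d51_d14_d51_d0d g_wS_32_wQ_26_wN_1_rb80330539_d42_d0c_d51_d14_d51_d0c g_wS_32_wQ_26_wN_1_rb80330539_d42_d0c_d51_d14_d51_d0b g_wS_32_wQ_26_wN_1_rb80330539_d42_d0c_d51_d14_d51_d09 g_wS_32_wQ_26_wN_1_rb80330539_d42_d0c_d51_d14_d51_d08 g_wS_32_wQ_26_wN_1_rb80330539_d42_d0c_d51_d14_d51_d07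 g_wS_32_wQ_26_wN_1_rb80330539_d42_d0c_d51_d14_d51_d05 g__wS_32_wQ_26_wN_1_rb80330539_d42_d0c_d51_d14_0 g_wS_32_wQ_26_wN_1_rb80330539_d42_d0c_d51_d14_d51_d04 g_wS_32_wQ_26_wN_1_rb80330539_d42_d0c_d51_d14_d51_d03 g_wS_32_wQ_26_wN_1_rb80330539_d42_d0c_d51_d14_d51_d01 g_wS_32_wQ_26_wN_1_rb80330539_d42_d0c_d51_d14_d51_d00 g_wS_32_wQ_26_wN_1_rb80330539_d42_d0c_d51_d14_d51_d02 g_wS_32_wQ_26_wN_1_rb80330539_d42_d0c_d51_d14_d51_d06 g_wS_32_wQ_26_wN_1_rb80330539_d42_d0c_d51_d14_d51_d0a g_wS_32_wQ_26_wN_1_rb80330539_d42_d0c_d51_d14_d51_d0f g_wS_32_wQ_26_wN_1_rb80330539_d42_d0c_d51_d14_d51_d10 g_wS_32_wQ_26_wN_1_rb80330539_d42_d0c_d51_d14_d51_d13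

theorem g_wS_32_wQ_26_wN_1_rb80330539_d42_d0c_d51_d13x2 : GoodKC AS c_wS_32_wQ_26_wN_1_rb80330539_d42_d0c_d51_d13x2 := p_wS_32_wQ_26_wN_1_rb80330539_d42_d0c_d51_d13

theorem g_wS_32_wQ_26_wN_1_rb80330539_d42_d0c_d51_d12x2 : GoodKC AS c_wS_32_wQ_26_wN_1_rb80330539_d42_d0c_d51_d12x2 := p_wS_32_wQ_26_wN_1_rb80330539_d42_d0c_d51_d12

theorem g__wS_32_wQ_26_wN_1_rb80330539_d42_d0c_d51_d11_1 : GoodKC AS k_wS_32_wQ_26_wN_1_rb80330539_d42_d0c_d51_d11_1 := p_wS_32_wQ_26_wN_1_rb80330539_d42_d0c_d51_d11_1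

theorem g__wS_32_wQ_26_wN_1_rb80330539_d42_d0c_d51_d11_0 : GoodKC AS k_wS_32_wQ_26_wN_1_rb80330539_d42_d0c_d51_d11_0 := p_wS_32_wQ_26_wN_1_rb80330539_d42_d0c_d51_d11_0 g__wS_32_wQ_26_wN_1_rb80330539_d42_d0c_d51_d11_1

theorem g_wS_32_wQ_26_wN_1_rb80330539_d42_d0c_d51_d11x2 : GoodKC AS c_wS_32_wQ_26_wN_1_rb80330539_d42_d0c_d51_d11x2 := p_wS_32_wQ_26_wN_1_rb80330539_d42_d0c_d51_d11 g__wS_32_wQ_26_wN_1_rb80330539_d42_d0c_d51_d11_0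

theorem g_wS_32_wQ_26_wN_1_rb80330539_d42_d0c_d51_d0fx2 : GoodKC AS c_wS_32_wQ_26_wN_1_rb80330539_d42_d0c_d51_d0fx2 := p_wS_32_wQ_26_wN_1_rb80330539_d42_d0c_d51_d0f

theorem g_wS_32_wQ_26_wN_1_rb80330539_d42_d0c_d51_d0ex2 : GoodKC AS c_wS_32_wQ_26_wN_1_rb80330539_d42_d0c_d51_d0ex2 := p_wS_32_wQ_26_wN_1_rb80330539_d42_d0c_d51_d0e

theorem g_wS_32_wQ_26_wN_1_rb80330539_d42_d0c_d51_d0dx2 : GoodKC AS c_wS_32_wQ_26_wN_1_rb80330539_d42_d0c_d51_d0dx2 := p_wS_32_wQ_26_wN_1_rb80330539_d42_d0c_d51_d0d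

theorem g_wS_32_wQ_26_wN_1_rb80330539_d42_d0c_d51_d0cx2 : GoodKC AS c_wS_32_wQ_26_wN_1_rb80330539_d42_d0c_d51_d0cx2 := p_wS_32_wQ_26_wN_1_rb80330539_d42_d0c_d51_d0c

theorem g_wS_32_wQ_26_wN_1_rb80330539_d42_d0c_d51_d0bx2 : GoodKC AS c_wS_32_wQ_26_wN_1_rb80330539_d42_d0c_d51_d0bx2 := p_wS_32_wQ_26_wN_1_rb80330539_d42_d0c_d51_d0b

theorem g__wS_32_wQ_26_wN_1_rb80330539_d42_d0c_d51_d09_0 : GoodKC AS k_wS_32_wQ_26_wN_1_rb80330539_d42_d0c_d51_d09_0 := p_wS_32_wQ_26_wN_1_rb80330539_d42_d0c_d51_d09_0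

theorem g__wS_32_wQ_26_wN_1_rb80330539_d42_d0c_d51_d09_2 : GoodKC AS k_wS_32_wQ_26_wN_1_rb80330539_d42_d0c_d51_d09_2 := p_wS_32_wQ_26_wN_1_rb80330539_d42_d0c_d51_d09_2

theorem g__wS_32_wQ_26_wN_1_rb80330539_d42_d0c_d51_d09_1 : GoodKC AS k_wS_32_wQ_26_wN_1_rb80330539_d42_d0c_d51_d09_1 := p_wS_32_wQ_26_wN_1_rb80330539_d42_d0c_d51_d09_1 g__wS_32_wQ_26_wN_1_rb80330539_d42_d0c_d51_d09_2

theorem g_wS_32_wQ_26_wN_1_rb80330539_d42_d0c_d51_d09x2 : GoodKC AS c_wS_32_wQ_26_wN_1_rb80330539_d42_d0c_d51_d09x2 := p_wS_32_wQ_26_wN_1_rb80330539_d42_d0c_d51_d09 g__wS_32_wQ_26_wN_1_rb80330539_d42_d0c_d51_d09_0 g__wS_32_wQ_26_wN_1_rb80330539_d42_d0c_d51_d09_1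

theorem g_wS_32_wQ_26_wN_1_rb80330539_d42_d0c_d51_d05x2 : GoodKC AS c_wS_32_wQ_26_wN_1_rb80330539_d42_d0c_d51_d05x2 := p_wS_32_wQ_26_wN_1_rb80330539_d42_d0c_d51_d05

theorem g_wS_32_wQ_26_wN_1_rb80330539_d42_d0c_d51_d03x2 : GoodKC AS c_wS_32_wQ_26_wN_1_rb80330539_d42_d0c_d51_d03x2 := p_wS_32_wQ_26_wN_1_rb80330539_d42_d0c_d51_d03

theorem g_wS_32_wQ_26_wN_1_rb80330539_d42_d0c_d51_d02x2 : GoodKC AS c_wS_32_wQ_26_wN_1_rb80330539_d42_d0c_d51_d02x2 := p_wS_32_wQ_26_wN_1_rb80330539_d42_d0c_d51_d02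

theorem g_wS_32_wQ_26_wN_1_rb80330539_d42_d0c_d51_d01x2 : GoodKC AS c_wS_32_wQ_26_wN_1_rb80330539_d42_d0c_d51_d01x2 := p_wS_32_wQ_26_wN_1_rb80330539_d42_d0c_d51_d01

theorem g_wS_32_wQ_26_wN_1_rb80330539_d42_d0c_d51_d00x2 : GoodKC AS c_wS_32_wQ_26_wN_1_rb80330539_d42_d0c_d51_d00x2 := p_wS_32_wQ_26_wN_1_rb80330539_d42_d0c_d51_d00

theorem g__wS_32_wQ_26_wN_1_rb80330539_d42_d0cx2_1 : GoodKC AS k_wS_32_wQ_26_wN_1_rb80330539_d42_d0cx2_1 := p_wS_32_wQ_26_wN_1_rb80330539_d42_d0cx2_1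

theorem g__wS_32_wQ_26_wN_1_rb80330539_d42_d0c_d51_d04_1 : GoodKC AS k_wS_32_wQ_26_wN_1_rb80330539_d42_d0c_d51_d04_1 := p_wS_32_wQ_26_wN_1_rb80330539_d42_d0c_d51_d04_1

theorem g__wS_32_wQ_26_wN_1_rb80330539_d42_d0c_d51_d04_0 : GoodKC AS k_wS_32_wQ_26_wN_1_rb80330539_d42_d0c_d51_d04_0 := p_wS_32_wQ_26_wN_1_rb80330539_d42_d0c_d51_d04_0 g__wS_32_wQ_26_wN_1_rb80330539_d42_d0c_d51_d04_1

theorem g_wS_32_wQ_26_wN_1_rb80330539_d42_d0c_d51_d04x2 : GoodKC AS c_wS_32_wQ_26_wN_1_rb80330539_d42_d0c_d51_d04x2 := p_wS_32_wQ_26_wN_1_rb80330539_d42_d0c_d51_d04 g__wS_32_wQ_26_wN_1_rb80330539_d42_d0c_d51_d04_0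

theorem g_wS_32_wQ_26_wN_1_rb80330539_d42_d0c_d51_d06x2 : GoodKC AS c_wS_32_wQ_26_wN_1_rb80330539_d42_d0c_d51_d06x2 := p_wS_32_wQ_26_wN_1_rb80330539_d42_d0c_d51_d06

theorem g__wS_32_wQ_26_wN_1_rb80330539_d42_d0c_d51_d07_1 : GoodKC AS k_wS_32_wQ_26_wN_1_rb80330539_d42_d0c_d51_d07_1 := p_wS_32_wQ_26_wN_1_rb80330539_d42_d0c_d51_d07_1

theorem g__wS_32_wQ_26_wN_1_rb80330539_d42_d0c_d51_d07_0 : GoodKC AS k_wS_32_wQ_26_wN_1_rb80330539_d42_d0c_d51_d07_0 := p_wS_32_wQ_26_wN_1_rb80330539_d42_d0c_d51_d07_0 g__wS_32_wQ_26_wN_1_rb80330539_d42_d0c_d51_d07_1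

theorem g_wS_32_wQ_26_wN_1_rb80330539_d42_d0c_d51_d07x2 : GoodKC AS c_wS_32_wQ_26_wN_1_rb80330539_d42_d0c_d51_d07x2 := p_wS_32_wQ_26_wN_1_rb80330539_d42_d0c_d51_d07 g__wS_32_wQ_26_wN_1_rb80330539_d42_d0c_d51_d07_0

theorem g_wS_32_wQ_26_wN_1_rb80330539_d42_d0c_d51_d08x2 : GoodKC AS c_wS_32_wQ_26_wN_1_rb80330539_d42_d0c_d51_d08x2 := p_wS_32_wQ_26_wN_1_rb80330539_d42_d0c_d51_d08

theorem g_wS_32_wQ_26_wN_1_rb80330539_d42_d0c_d51_d0ax2 : GoodKC AS c_wS_32_wQ_26_wN_1_rb80330539_d42_d0c_d51_d0ax2 := p_wS_32_wQ_26_wN_1_rb80330539_d42_d0c_d51_d0a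

theorem g__wS_32_wQ_26_wN_1_rb80330539_d42_d0cx2_0 : GoodKC AS k_wS_32_wQ_26_wN_1_rb80330539_d42_d0cx2_0 := p_wS_32_wQ_26_wN_1_rb80330539_d42_d0cx2_0 g_wS_32_wQ_26_wN_1_rb80330539_d42_d0c_d51_d0dx2 g_wS_32_wQ_26_wN_1_rb80330539_d42_d0c_d51_d0cx2 g_wS_32_wQ_26_wN_1_rb80330539_d42_d0c_d51_d0bx2 g_wS_32_wQ_26_wN_1_rb80330539_d42_d0c_d51_d09x2 g_wS_32_wQ_26_wN_1_rb80330539_d42_d0c_d51_d05x2 g_wS_32_wQ_26_wN_1_rb80330539_d42_d0c_d51_d03x2 g_wS_32_wQ_26_wN_1_rb80330539_d42_d0c_d51_d02x2 g_wS_32_wQ_26_wN_1_rb80330539_d42_d0c_d51_d01x2 g_wS_32_wQ_26_wN_1_rb80330539_d42_d0c_d51_d00x2 g__wS_32_wQ_26_wN_1_rb80330539_d42_d0cx2_1 g_wS_32_wQ_26_wN_1_rb80330539_d42_d0c_d51_d04x2 g_wS_32_wQ_26_wN_1_rb80330539_d42_d0c_d51_d06x2 g_wS_32_wQ_26_wN_1_rb80330539_d42_d0c_d51_d07x2 g_wS_32_wQ_26_wN_1_rb80330539_d42_d0c_d51_d08x2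 g_wS_32_wQ_26_wN_1_rb80330539_d42_d0c_d51_d0ax2

theorem g_wS_32_wQ_26_wN_1_rb80330539_d42_d0c_d51_d10x2 : GoodKC AS c_wS_32_wQ_26_wN_1_rb80330539_d42_d0c_d51_d10x2 := p_wS_32_wQ_26_wN_1_rb80330539_d42_d0c_d51_d10

theorem g_wS_32_wQ_26_wN_1_rb80330539_d42_d0c_d51_d15x2 : GoodKC AS c_wS_32_wQ_26_wN_1_rb80330539_d42_d0c_d51_d15x2 := p_wS_32_wQ_26_wN_1_rb80330539_d42_d0c_d51_d15

theorem g_wS_32_wQ_26_wN_1_rb80330539_d42_d0cx7 : GoodKC AS c_wS_32_wQ_26_wN_1_rb80330539_d42_d0cx7 := p_wS_32_wQ_26_wN_1_rb80330539_d42_d0cx2 g_wS_32_wQ_26_wN_1_rb80330539_d42_d0c_d51_d14x2 g_wS_32_wQ_26_wN_1_rb80330539_d42_d0c_d51_d13x2 g_wS_32_wQ_26_wN_1_rb80330539_d42_d0c_d51_d12x2 g_wS_32_wQ_26_wN_1_rb80330539_d42_d0c_d51_d11x2 g_wS_32_wQ_26_wN_1_rb80330539_d42_d0c_d51_d0fx2 g_wS_32_wQ_26_wN_1_rb80330539_d42_d0c_d51_d0ex2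 g__wS_32_wQ_26_wN_1_rb80330539_d42_d0cx2_0 g_wS_32_wQ_26_wN_1_rb80330539_d42_d0c_d51_d10x2 g_wS_32_wQ_26_wN_1_rb80330539_d42_d0c_d51_d15x2

theorem g_wS_32_wQ_26_wN_1_rb80330539_d42_d0bx7 : GoodKC AS c_wS_32_wQ_26_wN_1_rb80330539_d42_d0bx7 := p_wS_32_wQ_26_wN_1_rb80330539_d42_d0bx1

theorem g__wS_32_wQ_26_wN_1_rb80330539_d42_d09x1_4 : GoodKC AS k_wS_32_wQ_26_wN_1_rb80330539_d42_d09x1_4 := p_wS_32_wQ_26_wN_1_rb80330539_d42_d09x1_4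

theorem g__wS_32_wQ_26_wN_1_rb80330539_d42_d09x1_3 : GoodKC AS k_wS_32_wQ_26_wN_1_rb80330539_d42_d09x1_3 := p_wS_32_wQ_26_wN_1_rb80330539_d42_d09x1_3 g__wS_32_wQ_26_wN_1_rb80330539_d42_d09x1_4

theorem g__wS_32_wQ_26_wN_1_rb80330539_d42_d09x1_2 : GoodKC AS k_wS_32_wQ_26_wN_1_rb80330539_d42_d09x1_2 := p_wS_32_wQ_26_wN_1_rb80330539_d42_d09x1_2 g__wS_32_wQ_26_wN_1_rb80330539_d42_d09x1_3

theorem g__wS_32_wQ_26_wN_1_rb80330539_d42_d09x1_1 : GoodKC AS k_wS_32_wQ_26_wN_1_rb80330539_d42_d09x1_1 := p_wS_32_wQ_26_wN_1_rb80330539_d42_d09x1_1 g__wS_32_wQ_26_wN_1_rb80330539_d42_d09x1_2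

theorem g__wS_32_wQ_26_wN_1_rb80330539_d42_d09x1_7 : GoodKC AS k_wS_32_wQ_26_wN_1_rb80330539_d42_d09x1_7 := p_wS_32_wQ_26_wN_1_rb80330539_d42_d09x1_7

theorem g__wS_32_wQ_26_wN_1_rb80330539_d42_d09x1_6 : GoodKC AS k_wS_32_wQ_26_wN_1_rb80330539_d42_d09x1_6 := p_wS_32_wQ_26_wN_1_rb80330539_d42_d09x1_6 g__wS_32_wQ_26_wN_1_rb80330539_d42_d09x1_7

theorem g__wS_32_wQ_26_wN_1_rb80330539_d42_d09x1_5 : GoodKC AS k_wS_32_wQ_26_wN_1_rb80330539_d42_d09x1_5 := p_wS_32_wQ_26_wN_1_rb80330539_d42_d09x1_5 g__wS_32_wQ_26_wN_1_rb80330539_d42_d09x1_6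

theorem g__wS_32_wQ_26_wN_1_rb80330539_d42_d09x1_0 : GoodKC AS k_wS_32_wQ_26_wN_1_rb80330539_d42_d09x1_0 := p_wS_32_wQ_26_wN_1_rb80330539_d42_d09x1_0 g__wS_32_wQ_26_wN_1_rb80330539_d42_d09x1_1 g__wS_32_wQ_26_wN_1_rb80330539_d42_d09x1_5

theorem g_wS_32_wQ_26_wN_1_rb80330539_d42_d09x7 : GoodKC AS c_wS_32_wQ_26_wN_1_rb80330539_d42_d09x7 := p_wS_32_wQ_26_wN_1_rb80330539_d42_d09x1 g__wS_32_wQ_26_wN_1_rb80330539_d42_d09x1_0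

theorem g_wS_32_wQ_26_wN_1_rb80330539_d42_d08x7 : GoodKC AS c_wS_32_wQ_26_wN_1_rb80330539_d42_d08x7 := p_wS_32_wQ_26_wN_1_rb80330539_d42_d08x1

theorem g_wS_32_wQ_26_wN_1_rb80330539_d42_d06x7 : GoodKC AS c_wS_32_wQ_26_wN_1_rb80330539_d42_d06x7 := p_wS_32_wQ_26_wN_1_rb80330539_d42_d06x1

theorem g_wS_32_wQ_26_wN_1_rb80330539_d42_d05x7 : GoodKC AS c_wS_32_wQ_26_wN_1_rb80330539_d42_d05x7 := p_wS_32_wQ_26_wN_1_rb80330539_d42_d05x1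

theorem g_wS_32_wQ_26_wN_1_rb80330539_d42_d04x7 : GoodKC AS c_wS_32_wQ_26_wN_1_rb80330539_d42_d04x7 := p_wS_32_wQ_26_wN_1_rb80330539_d42_d04x1

theorem g_wS_32_wQ_26_wN_1_rb80330539_d42_d03x7 : GoodKC AS c_wS_32_wQ_26_wN_1_rb80330539_d42_d03x7 := p_wS_32_wQ_26_wN_1_rb80330539_d42_d03x1

theorem g_wS_32_wQ_26_wN_1_rb80330539_d42_d02x7 : GoodKC AS c_wS_32_wQ_26_wN_1_rb80330539_d42_d02x7 := p_wS_32_wQ_26_wN_1_rb80330539_d42_d02x1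

theorem g_wS_32_wQ_26_wN_1_rb80330539_d42_d01x7 : GoodKC AS c_wS_32_wQ_26_wN_1_rb80330539_d42_d01x7 := p_wS_32_wQ_26_wN_1_rb80330539_d42_d01x1

theorem g_wS_32_wQ_26_wN_1_rb80330539_d42_d00x7 : GoodKC AS c_wS_32_wQ_26_wN_1_rb80330539_d42_d00x7 := p_wS_32_wQ_26_wN_1_rb80330539_d42_d00x1

theorem g__wS_32_wQ_26_wN_1_rb80330539x7_1 : GoodKC AS k_wS_32_wQ_26_wN_1_rb80330539x7_1 := p_wS_32_wQ_26_wN_1_rb80330539x7_1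

theorem g__wS_32_wQ_26_wN_1_rb80330539x7_10 : GoodKC AS k_wS_32_wQ_26_wN_1_rb80330539x7_10 := p_wS_32_wQ_26_wN_1_rb80330539x7_10

theorem g__wS_32_wQ_26_wN_1_rb80330539x7_9 : GoodKC AS k_wS_32_wQ_26_wN_1_rb80330539x7_9 := p_wS_32_wQ_26_wN_1_rb80330539x7_9 g__wS_32_wQ_26_wN_1_rb80330539x7_10

theorem g__wS_32_wQ_26_wN_1_rb80330539x7_8 : GoodKC AS k_wS_32_wQ_26_wN_1_rb80330539x7_8 := p_wS_32_wQ_26_wN_1_rb80330539x7_8 g__wS_32_wQ_26_wN_1_rb80330539x7_9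

theorem g__wS_32_wQ_26_wN_1_rb80330539x7_7 : GoodKC AS k_wS_32_wQ_26_wN_1_rb80330539x7_7 := p_wS_32_wQ_26_wN_1_rb80330539x7_7 g__wS_32_wQ_26_wN_1_rb80330539x7_8

theorem g__wS_32_wQ_26_wN_1_rb80330539x7_6 : GoodKC AS k_wS_32_wQ_26_wN_1_rb80330539x7_6 := p_wS_32_wQ_26_wN_1_rb80330539x7_6 g__wS_32_wQ_26_wN_1_rb80330539x7_7

theorem g__wS_32_wQ_26_wN_1_rb80330539x7_5 : GoodKC AS k_wS_32_wQ_26_wN_1_rb80330539x7_5 := p_wS_32_wQ_26_wN_1_rb80330539x7_5 g__wS_32_wQ_26_wN_1_rb80330539x7_6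

theorem g__wS_32_wQ_26_wN_1_rb80330539x7_4 : GoodKC AS k_wS_32_wQ_26_wN_1_rb80330539x7_4 := p_wS_32_wQ_26_wN_1_rb80330539x7_4 g__wS_32_wQ_26_wN_1_rb80330539x7_5

theorem g__wS_32_wQ_26_wN_1_rb80330539x7_3 : GoodKC AS k_wS_32_wQ_26_wN_1_rb80330539x7_3 := p_wS_32_wQ_26_wN_1_rb80330539x7_3 g__wS_32_wQ_26_wN_1_rb80330539x7_4

theorem g__wS_32_wQ_26_wN_1_rb80330539x7_2 : GoodKC AS k_wS_32_wQ_26_wN_1_rb80330539x7_2 := p_wS_32_wQ_26_wN_1_rb80330539x7_2 g__wS_32_wQ_26_wN_1_rb80330539x7_3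

theorem g__wS_32_wQ_26_wN_1_rb80330539x7_13 : GoodKC AS k_wS_32_wQ_26_wN_1_rb80330539x7_13 := p_wS_32_wQ_26_wN_1_rb80330539x7_13

theorem g__wS_32_wQ_26_wN_1_rb80330539x7_12 : GoodKC AS k_wS_32_wQ_26_wN_1_rb80330539x7_12 := p_wS_32_wQ_26_wN_1_rb80330539x7_12 g__wS_32_wQ_26_wN_1_rb80330539x7_13

theorem g__wS_32_wQ_26_wN_1_rb80330539x7_17 : GoodKC AS k_wS_32_wQ_26_wN_1_rb80330539x7_17 := p_wS_32_wQ_26_wN_1_rb80330539x7_17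

theorem g__wS_32_wQ_26_wN_1_rb80330539x7_16 : GoodKC AS k_wS_32_wQ_26_wN_1_rb80330539x7_16 := p_wS_32_wQ_26_wN_1_rb80330539x7_16 g__wS_32_wQ_26_wN_1_rb80330539x7_17

theorem g__wS_32_wQ_26_wN_1_rb80330539x7_15 : GoodKC AS k_wS_32_wQ_26_wN_1_rb80330539x7_15 := p_wS_32_wQ_26_wN_1_rb80330539x7_15 g__wS_32_wQ_26_wN_1_rb80330539x7_16

theorem g__wS_32_wQ_26_wN_1_rb80330539x7_18 : GoodKC AS k_wS_32_wQ_26_wN_1_rb80330539x7_18 := p_wS_32_wQ_26_wN_1_rb80330539x7_18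

theorem g__wS_32_wQ_26_wN_1_rb80330539x7_20 : GoodKC AS k_wS_32_wQ_26_wN_1_rb80330539x7_20 := p_wS_32_wQ_26_wN_1_rb80330539x7_20

theorem g__wS_32_wQ_26_wN_1_rb80330539x7_19 : GoodKC AS k_wS_32_wQ_26_wN_1_rb80330539x7_19 := p_wS_32_wQ_26_wN_1_rb80330539x7_19 g__wS_32_wQ_26_wN_1_rb80330539x7_20

theorem g__wS_32_wQ_26_wN_1_rb80330539x7_24 : GoodKC AS k_wS_32_wQ_26_wN_1_rb80330539x7_24 := p_wS_32_wQ_26_wN_1_rb80330539x7_24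

theorem g__wS_32_wQ_26_wN_1_rb80330539x7_23 : GoodKC AS k_wS_32_wQ_26_wN_1_rb80330539x7_23 := p_wS_32_wQ_26_wN_1_rb80330539x7_23 g__wS_32_wQ_26_wN_1_rb80330539x7_24

theorem g__wS_32_wQ_26_wN_1_rb80330539x7_25 : GoodKC AS k_wS_32_wQ_26_wN_1_rb80330539x7_25 := p_wS_32_wQ_26_wN_1_rb80330539x7_25

theorem g__wS_32_wQ_26_wN_1_rb80330539x7_28 : GoodKC AS k_wS_32_wQ_26_wN_1_rb80330539x7_28 := p_wS_32_wQ_26_wN_1_rb80330539x7_28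

theorem g__wS_32_wQ_26_wN_1_rb80330539x7_27 : GoodKC AS k_wS_32_wQ_26_wN_1_rb80330539x7_27 := p_wS_32_wQ_26_wN_1_rb80330539x7_27 g__wS_32_wQ_26_wN_1_rb80330539x7_28

theorem g__wS_32_wQ_26_wN_1_rb80330539x7_26 : GoodKC AS k_wS_32_wQ_26_wN_1_rb80330539x7_26 := p_wS_32_wQ_26_wN_1_rb80330539x7_26 g__wS_32_wQ_26_wN_1_rb80330539x7_27

theorem g__wS_32_wQ_26_wN_1_rb80330539x7_22 : GoodKC AS k_wS_32_wQ_26_wN_1_rb80330539x7_22 := p_wS_32_wQ_26_wN_1_rb80330539x7_22 g__wS_32_wQ_26_wN_1_rb80330539x7_23 g__wS_32_wQ_26_wN_1_rb80330539x7_25 g__wS_32_wQ_26_wN_1_rb80330539x7_26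

theorem g__wS_32_wQ_26_wN_1_rb80330539x7_21 : GoodKC AS k_wS_32_wQ_26_wN_1_rb80330539x7_21 := p_wS_32_wQ_26_wN_1_rb80330539x7_21 g__wS_32_wQ_26_wN_1_rb80330539x7_22

theorem g__wS_32_wQ_26_wN_1_rb80330539x7_14 : GoodKC AS k_wS_32_wQ_26_wN_1_rb80330539x7_14 := p_wS_32_wQ_26_wN_1_rb80330539x7_14 g__wS_32_wQ_26_wN_1_rb80330539x7_15 g__wS_32_wQ_26_wN_1_rb80330539x7_18 g__wS_32_wQ_26_wN_1_rb80330539x7_19 g__wS_32_wQ_26_wN_1_rb80330539x7_21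

theorem g__wS_32_wQ_26_wN_1_rb80330539x7_11 : GoodKC AS k_wS_32_wQ_26_wN_1_rb80330539x7_11 := p_wS_32_wQ_26_wN_1_rb80330539x7_11 g__wS_32_wQ_26_wN_1_rb80330539x7_12 g__wS_32_wQ_26_wN_1_rb80330539x7_14

theorem g__wS_32_wQ_26_wN_1_rb80330539x7_0 : GoodKC AS k_wS_32_wQ_26_wN_1_rb80330539x7_0 := p_wS_32_wQ_26_wN_1_rb80330539x7_0 g__wS_32_wQ_26_wN_1_rb80330539x7_1 g__wS_32_wQ_26_wN_1_rb80330539x7_2 g__wS_32_wQ_26_wN_1_rb80330539x7_11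

theorem g__wS_32_wQ_26_wN_1_rb80330539_d42_d07x1_2 : GoodKC AS k_wS_32_wQ_26_wN_1_rb80330539_d42_d07x1_2 := p_wS_32_wQ_26_wN_1_rb80330539_d42_d07x1_2

theorem g__wS_32_wQ_26_wN_1_rb80330539_d42_d07x1_1 : GoodKC AS k_wS_32_wQ_26_wN_1_rb80330539_d42_d07x1_1 := p_wS_32_wQ_26_wN_1_rb80330539_d42_d07x1_1 g__wS_32_wQ_26_wN_1_rb80330539_d42_d07x1_2

theorem g__wS_32_wQ_26_wN_1_rb80330539_d42_d07x1_0 : GoodKC AS k_wS_32_wQ_26_wN_1_rb80330539_d42_d07x1_0 := p_wS_32_wQ_26_wN_1_rb80330539_d42_d07x1_0 g__wS_32_wQ_26_wN_1_rb80330539_d42_d07x1_1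

theorem g_wS_32_wQ_26_wN_1_rb80330539_d42_d07x7 : GoodKC AS c_wS_32_wQ_26_wN_1_rb80330539_d42_d07x7 := p_wS_32_wQ_26_wN_1_rb80330539_d42_d07x1 g__wS_32_wQ_26_wN_1_rb80330539_d42_d07x1_0

theorem g_wS_32_wQ_26_wN_1_rb80330539_d42_d0ax7 : GoodKC AS c_wS_32_wQ_26_wN_1_rb80330539_d42_d0ax7 := p_wS_32_wQ_26_wN_1_rb80330539_d42_d0ax1

theorem g_wS_32_wQ_26_wN_1_rb80330539_d42_d0ex7 : GoodKC AS c_wS_32_wQ_26_wN_1_rb80330539_d42_d0ex7 := p_wS_32_wQ_26_wN_1_rb80330539_d42_d0ex1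

theorem g__wS_32_wQ_26_wN_1_rb80330539_d42_d0fx1_1 : GoodKC AS k_wS_32_wQ_26_wN_1_rb80330539_d42_d0fx1_1 := p_wS_32_wQ_26_wN_1_rb80330539_d42_d0fx1_1

theorem g__wS_32_wQ_26_wN_1_rb80330539_d42_d0fx1_2 : GoodKC AS k_wS_32_wQ_26_wN_1_rb80330539_d42_d0fx1_2 := p_wS_32_wQ_26_wN_1_rb80330539_d42_d0fx1_2

theorem g__wS_32_wQ_26_wN_1_rb80330539_d42_d0fx1_3 : GoodKC AS k_wS_32_wQ_26_wN_1_rb80330539_d42_d0fx1_3 := p_wS_32_wQ_26_wN_1_rb80330539_d42_d0fx1_3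

theorem g__wS_32_wQ_26_wN_1_rb80330539_d42_d0fx1_0 : GoodKC AS k_wS_32_wQ_26_wN_1_rb80330539_d42_d0fx1_0 := p_wS_32_wQ_26_wN_1_rb80330539_d42_d0fx1_0 g__wS_32_wQ_26_wN_1_rb80330539_d42_d0fx1_1 g__wS_32_wQ_26_wN_1_rb80330539_d42_d0fx1_2 g__wS_32_wQ_26_wN_1_rb80330539_d42_d0fx1_3

theorem g__wS_32_wQ_26_wN_1_rb80330539_d42_d0fx1_4 : GoodKC AS k_wS_32_wQ_26_wN_1_rb80330539_d42_d0fx1_4 := p_wS_32_wQ_26_wN_1_rb80330539_d42_d0fx1_4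

theorem g_wS_32_wQ_26_wN_1_rb80330539_d42_d0fx7 : GoodKC AS c_wS_32_wQ_26_wN_1_rb80330539_d42_d0fx7 := p_wS_32_wQ_26_wN_1_rb80330539_d42_d0fx1 g__wS_32_wQ_26_wN_1_rb80330539_d42_d0fx1_0 g__wS_32_wQ_26_wN_1_rb80330539_d42_d0fx1_4

theorem g__wS_32_wQ_26_wN_1_rb80330539_d42_d11x2_0 : GoodKC AS k_wS_32_wQ_26_wN_1_rb80330539_d42_d11x2_0 := p_wS_32_wQ_26_wN_1_rb80330539_d42_d11x2_0

theorem g_wS_32_wQ_26_wN_1_rb80330539_d42_d11x7 : GoodKC AS c_wS_32_wQ_26_wN_1_rb80330539_d42_d11x7 := p_wS_32_wQ_26_wN_1_rb80330539_d42_d11x2 g__wS_32_wQ_26_wN_1_rb80330539_d42_d11x2_0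

theorem g__wS_32_wQ_26_wN_1_rb80330539_d42_d12x1_0 : GoodKC AS k_wS_32_wQ_26_wN_1_rb80330539_d42_d12x1_0 := p_wS_32_wQ_26_wN_1_rb80330539_d42_d12x1_0

theorem g_wS_32_wQ_26_wN_1_rb80330539_d42_d12x7 : GoodKC AS c_wS_32_wQ_26_wN_1_rb80330539_d42_d12x7 := p_wS_32_wQ_26_wN_1_rb80330539_d42_d12x1 g__wS_32_wQ_26_wN_1_rb80330539_d42_d12x1_0

theorem g_wS_32_wQ_26_wN_1_rb80330539_d42_d14x7 : GoodKC AS c_wS_32_wQ_26_wN_1_rb80330539_d42_d14x7 := p_wS_32_wQ_26_wN_1_rb80330539_d42_d14x1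

theorem g_wS_32_wQ_26_wN_1_rb80330539_d42_d15x7 : GoodKC AS c_wS_32_wQ_26_wN_1_rb80330539_d42_d15x7 := p_wS_32_wQ_26_wN_1_rb80330539_d42_d15x1

theorem g_wS_32_wQ_26_wN_1_rb80330539x17 : GoodKC AS c_wS_32_wQ_26_wN_1_rb80330539x17 := p_wS_32_wQ_26_wN_1_rb80330539x7 g_wS_32_wQ_26_wN_1_rb80330539_d42_d13x7 g_wS_32_wQ_26_wN_1_rb80330539_d42_d10x7 g_wS_32_wQ_26_wN_1_rb80330539_d42_d0dx7 g_wS_32_wQ_26_wN_1_rb80330539_d42_d0cx7 g_wS_32_wQ_26_wN_1_rb80330539_d42_d0bx7 g_wS_32_wQ_26_wN_1_rb80330539_d42_d09x7 g_wS_32_wQ_26_wN_1_rb80330539_d42_d08x7 g_wS_32_wQ_26_wN_1_rb80330539_d42_d06x7 g_wS_32_wQ_26_wN_1_rb80330539_d42_d05x7 g_wS_32_wQ_26_wN_1_rb80330539_d42_d04x7 g_wS_32_wQ_26_wN_1_rb80330539_d42_d03x7 g_wS_32_wQ_26_wN_1_rb80330539_d42_d02x7 g_wS_32_wQ_26_wN_1_rb80330539_d42_d01x7 g_wS_32_wQ_26_wN_1_rb80330539_d42_d00x7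 g__wS_32_wQ_26_wN_1_rb80330539x7_0 g_wS_32_wQ_26_wN_1_rb80330539_d42_d07x7 g_wS_32_wQ_26_wN_1_rb80330539_d42_d0ax7 g_wS_32_wQ_26_wN_1_rb80330539_d42_d0ex7 g_wS_32_wQ_26_wN_1_rb80330539_d42_d0fx7 g_wS_32_wQ_26_wN_1_rb80330539_d42_d11x7 g_wS_32_wQ_26_wN_1_rb80330539_d42_d12x7 g_wS_32_wQ_26_wN_1_rb80330539_d42_d14x7 g_wS_32_wQ_26_wN_1_rb80330539_d42_d15x7

theorem g_wS_32_wQ_26_wN_1_rb80330537x17 : GoodKC AS c_wS_32_wQ_26_wN_1_rb80330537x17 := p_wS_32_wQ_26_wN_1_rb80330537x7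

theorem g_wS_32_wQ_26_wN_1_rb80330535x17 : GoodKC AS c_wS_32_wQ_26_wN_1_rb80330535x17 := p_wS_32_wQ_26_wN_1_rb80330535x7

theorem g__wS_32_wQ_26_wN_1_rb8033052f_d41_d11x4_2 : GoodKC AS k_wS_32_wQ_26_wN_1_rb8033052f_d41_d11x4_2 := p_wS_32_wQ_26_wN_1_rb8033052f_d41_d11x4_2

theorem g__wS_32_wQ_26_wN_1_rb8033052f_d41_d11x4_4 : GoodKC AS k_wS_32_wQ_26_wN_1_rb8033052f_d41_d11x4_4 := p_wS_32_wQ_26_wN_1_rb8033052f_d41_d11x4_4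

theorem g__wS_32_wQ_26_wN_1_rb8033052f_d41_d11x4_3 : GoodKC AS k_wS_32_wQ_26_wN_1_rb8033052f_d41_d11x4_3 := p_wS_32_wQ_26_wN_1_rb8033052f_d41_d11x4_3 g__wS_32_wQ_26_wN_1_rb8033052f_d41_d11x4_4

theorem g__wS_32_wQ_26_wN_1_rb8033052f_d41_d11x4_1 : GoodKC AS k_wS_32_wQ_26_wN_1_rb8033052f_d41_d11x4_1 := p_wS_32_wQ_26_wN_1_rb8033052f_d41_d11x4_1 g__wS_32_wQ_26_wN_1_rb8033052f_d41_d11x4_2 g__wS_32_wQ_26_wN_1_rb8033052f_d41_d11x4_3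

theorem g__wS_32_wQ_26_wN_1_rb8033052f_d41_d11x4_0 : GoodKC AS k_wS_32_wQ_26_wN_1_rb8033052f_d41_d11x4_0 := p_wS_32_wQ_26_wN_1_rb8033052f_d41_d11x4_0 g__wS_32_wQ_26_wN_1_rb8033052f_d41_d11x4_1

theorem g_wS_32_wQ_26_wN_1_rb8033052f_d41_d11x8 : GoodKC AS c_wS_32_wQ_26_wN_1_rb8033052f_d41_d11x8 := p_wS_32_wQ_26_wN_1_rb8033052f_d41_d11x4 g__wS_32_wQ_26_wN_1_rb8033052f_d41_d11x4_0

theorem g_wS_32_wQ_26_wN_1_rb8033052f_d41_d0ex8 : GoodKC AS c_wS_32_wQ_26_wN_1_rb8033052f_d41_d0ex8 := p_wS_32_wQ_26_wN_1_rb8033052f_d41_d0ex4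

theorem g_wS_32_wQ_26_wN_1_rb8033052f_d41_d09x8 : GoodKC AS c_wS_32_wQ_26_wN_1_rb8033052f_d41_d09x8 := p_wS_32_wQ_26_wN_1_rb8033052f_d41_d09x4

theorem g__wS_32_wQ_26_wN_1_rb8033052f_d41_d08x4_0 : GoodKC AS k_wS_32_wQ_26_wN_1_rb8033052f_d41_d08x4_0 := p_wS_32_wQ_26_wN_1_rb8033052f_d41_d08x4_0

theorem g_wS_32_wQ_26_wN_1_rb8033052f_d41_d08x8 : GoodKC AS c_wS_32_wQ_26_wN_1_rb8033052f_d41_d08x8 := p_wS_32_wQ_26_wN_1_rb8033052f_d41_d08x4 g__wS_32_wQ_26_wN_1_rb8033052f_d41_d08x4_0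

theorem g_wS_32_wQ_26_wN_1_rb8033052f_d41_d05x8 : GoodKC AS c_wS_32_wQ_26_wN_1_rb8033052f_d41_d05x8 := p_wS_32_wQ_26_wN_1_rb8033052f_d41_d05x4

theorem g_wS_32_wQ_26_wN_1_rb8033052f_d41_d03x8 : GoodKC AS c_wS_32_wQ_26_wN_1_rb8033052f_d41_d03x8 := p_wS_32_wQ_26_wN_1_rb8033052f_d41_d03x4

theorem g_wS_32_wQ_26_wN_1_rb8033052f_d41_d02x8 : GoodKC AS c_wS_32_wQ_26_wN_1_rb8033052f_d41_d02x8 := p_wS_32_wQ_26_wN_1_rb8033052f_d41_d02x4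

theorem g_wS_32_wQ_26_wN_1_rb8033052f_d41_d00x8 : GoodKC AS c_wS_32_wQ_26_wN_1_rb8033052f_d41_d00x8 := p_wS_32_wQ_26_wN_1_rb8033052f_d41_d00x4

theorem g_wS_32_wQ_26_wN_1_rb8033052f_d41_d01x8 : GoodKC AS c_wS_32_wQ_26_wN_1_rb8033052f_d41_d01x8 := p_wS_32_wQ_26_wN_1_rb8033052f_d41_d01x4

theorem g_wS_32_wQ_26_wN_1_rb8033052f_d41_d04x8 : GoodKC AS c_wS_32_wQ_26_wN_1_rb8033052f_d41_d04x8 := p_wS_32_wQ_26_wN_1_rb8033052f_d41_d04x4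

theorem g_wS_32_wQ_26_wN_1_rb8033052f_d41_d06x8 : GoodKC AS c_wS_32_wQ_26_wN_1_rb8033052f_d41_d06x8 := p_wS_32_wQ_26_wN_1_rb8033052f_d41_d06x4

theorem g_wS_32_wQ_26_wN_1_rb8033052f_d41_d07x8 : GoodKC AS c_wS_32_wQ_26_wN_1_rb8033052f_d41_d07x8 := p_wS_32_wQ_26_wN_1_rb8033052f_d41_d07x4

theorem g_wS_32_wQ_26_wN_1_rb8033052f_d41_d0ax8 : GoodKC AS c_wS_32_wQ_26_wN_1_rb8033052f_d41_d0ax8 := p_wS_32_wQ_26_wN_1_rb8033052f_d41_d0ax4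

theorem g__wS_32_wQ_26_wN_1_rb8033052f_d41_d0bx4_1 : GoodKC AS k_wS_32_wQ_26_wN_1_rb8033052f_d41_d0bx4_1 := p_wS_32_wQ_26_wN_1_rb8033052f_d41_d0bx4_1

theorem g__wS_32_wQ_26_wN_1_rb8033052f_d41_d0bx4_0 : GoodKC AS k_wS_32_wQ_26_wN_1_rb8033052f_d41_d0bx4_0 := p_wS_32_wQ_26_wN_1_rb8033052f_d41_d0bx4_0 g__wS_32_wQ_26_wN_1_rb8033052f_d41_d0bx4_1

theorem g_wS_32_wQ_26_wN_1_rb8033052f_d41_d0bx8 : GoodKC AS c_wS_32_wQ_26_wN_1_rb8033052f_d41_d0bx8 := p_wS_32_wQ_26_wN_1_rb8033052f_d41_d0bx4 g__wS_32_wQ_26_wN_1_rb8033052f_d41_d0bx4_0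

theorem g__wS_32_wQ_26_wN_1_rb8033052fx8_0 : GoodKC AS k_wS_32_wQ_26_wN_1_rb8033052fx8_0 := p_wS_32_wQ_26_wN_1_rb8033052fx8_0

theorem g__wS_32_wQ_26_wN_1_rb8033052fx8_1 : GoodKC AS k_wS_32_wQ_26_wN_1_rb8033052fx8_1 := p_wS_32_wQ_26_wN_1_rb8033052fx8_1

theorem g__wS_32_wQ_26_wN_1_rb8033052fx8_7 : GoodKC AS k_wS_32_wQ_26_wN_1_rb8033052fx8_7 := p_wS_32_wQ_26_wN_1_rb8033052fx8_7

theorem g__wS_32_wQ_26_wN_1_rb8033052fx8_6 : GoodKC AS k_wS_32_wQ_26_wN_1_rb8033052fx8_6 := p_wS_32_wQ_26_wN_1_rb8033052fx8_6 g__wS_32_wQ_26_wN_1_rb8033052fx8_7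

theorem g__wS_32_wQ_26_wN_1_rb8033052fx8_5 : GoodKC AS k_wS_32_wQ_26_wN_1_rb8033052fx8_5 := p_wS_32_wQ_26_wN_1_rb8033052fx8_5 g__wS_32_wQ_26_wN_1_rb8033052fx8_6

theorem g__wS_32_wQ_26_wN_1_rb8033052fx8_4 : GoodKC AS k_wS_32_wQ_26_wN_1_rb8033052fx8_4 := p_wS_32_wQ_26_wN_1_rb8033052fx8_4 g__wS_32_wQ_26_wN_1_rb8033052fx8_5

theorem g__wS_32_wQ_26_wN_1_rb8033052fx8_8 : GoodKC AS k_wS_32_wQ_26_wN_1_rb8033052fx8_8 := p_wS_32_wQ_26_wN_1_rb8033052fx8_8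

theorem g__wS_32_wQ_26_wN_1_rb8033052fx8_3 : GoodKC AS k_wS_32_wQ_26_wN_1_rb8033052fx8_3 := p_wS_32_wQ_26_wN_1_rb8033052fx8_3 g__wS_32_wQ_26_wN_1_rb8033052fx8_4 g__wS_32_wQ_26_wN_1_rb8033052fx8_8

theorem g__wS_32_wQ_26_wN_1_rb8033052fx8_9 : GoodKC AS k_wS_32_wQ_26_wN_1_rb8033052fx8_9 := p_wS_32_wQ_26_wN_1_rb8033052fx8_9

theorem g__wS_32_wQ_26_wN_1_rb8033052fx8_2 : GoodKC AS k_wS_32_wQ_26_wN_1_rb8033052fx8_2 := p_wS_32_wQ_26_wN_1_rb8033052fx8_2 g__wS_32_wQ_26_wN_1_rb8033052fx8_3 g__wS_32_wQ_26_wN_1_rb8033052fx8_9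

theorem g__wS_32_wQ_26_wN_1_rb8033052fx8_10 : GoodKC AS k_wS_32_wQ_26_wN_1_rb8033052fx8_10 := p_wS_32_wQ_26_wN_1_rb8033052fx8_10

theorem g__wS_32_wQ_26_wN_1_rb8033052f_d41_d0cx4_2 : GoodKC AS k_wS_32_wQ_26_wN_1_rb8033052f_d41_d0cx4_2 := p_wS_32_wQ_26_wN_1_rb8033052f_d41_d0cx4_2

theorem g__wS_32_wQ_26_wN_1_rb8033052f_d41_d0cx4_1 : GoodKC AS k_wS_32_wQ_26_wN_1_rb8033052f_d41_d0cx4_1 := p_wS_32_wQ_26_wN_1_rb8033052f_d41_d0cx4_1 g__wS_32_wQ_26_wN_1_rb8033052f_d41_d0cx4_2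

theorem g__wS_32_wQ_26_wN_1_rb8033052f_d41_d0cx4_0 : GoodKC AS k_wS_32_wQ_26_wN_1_rb8033052f_d41_d0cx4_0 := p_wS_32_wQ_26_wN_1_rb8033052f_d41_d0cx4_0 g__wS_32_wQ_26_wN_1_rb8033052f_d41_d0cx4_1

theorem g_wS_32_wQ_26_wN_1_rb8033052f_d41_d0cx8 : GoodKC AS c_wS_32_wQ_26_wN_1_rb8033052f_d41_d0cx8 := p_wS_32_wQ_26_wN_1_rb8033052f_d41_d0cx4 g__wS_32_wQ_26_wN_1_rb8033052f_d41_d0cx4_0

theorem g_wS_32_wQ_26_wN_1_rb8033052f_d41_d0dx8 : GoodKC AS c_wS_32_wQ_26_wN_1_rb8033052f_d41_d0dx8 := p_wS_32_wQ_26_wN_1_rb8033052f_d41_d0dx4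

theorem g_wS_32_wQ_26_wN_1_rb8033052f_d41_d0fx8 : GoodKC AS c_wS_32_wQ_26_wN_1_rb8033052f_d41_d0fx8 := p_wS_32_wQ_26_wN_1_rb8033052f_d41_d0fx4

theorem g__wS_32_wQ_26_wN_1_rb8033052f_d41_d10v4_0 : GoodKC AS k_wS_32_wQ_26_wN_1_rb8033052f_d41_d10v4_0 := p_wS_32_wQ_26_wN_1_rb8033052f_d41_d10v4_0

theorem g_wS_32_wQ_26_wN_1_rb8033052f_d41_d10x8 : GoodKC AS c_wS_32_wQ_26_wN_1_rb8033052f_d41_d10x8 := p_wS_32_wQ_26_wN_1_rb8033052f_d41_d10x4 g__wS_32_wQ_26_wN_1_rb8033052f_d41_d10v4_0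

theorem g_wS_32_wQ_26_wN_1_rb8033052fx17 : GoodKC AS c_wS_32_wQ_26_wN_1_rb8033052fx17 := p_wS_32_wQ_26_wN_1_rb8033052fx8 g_wS_32_wQ_26_wN_1_rb8033052f_d41_d11x8 g_wS_32_wQ_26_wN_1_rb8033052f_d41_d0ex8 g_wS_32_wQ_26_wN_1_rb8033052f_d41_d09x8 g_wS_32_wQ_26_wN_1_rb8033052f_d41_d08x8 g_wS_32_wQ_26_wN_1_rb8033052f_d41_d05x8 g_wS_32_wQ_26_wN_1_rb8033052f_d41_d03x8 g_wS_32_wQ_26_wN_1_rb8033052f_d41_d02x8 g_wS_32_wQ_26_wN_1_rb8033052f_d41_d00x8 g_wS_32_wQ_26_wN_1_rb8033052f_d41_d01x8 g_wS_32_wQ_26_wN_1_rb8033052f_d41_d04x8 g_wS_32_wQ_26_wN_1_rb8033052f_d41_d06x8 g_wS_32_wQ_26_wN_1_rb8033052f_d41_d07x8 g_wS_32_wQ_26_wN_1_rb8033052f_d41_d0ax8 g_wS_32_wQ_26_wN_1_rb8033052f_d41_d0bx8 g__wS_32_wQ_26_wN_1_rb8033052fx8_0 g__wS_32_wQ_26_wN_1_rb8033052fx8_1 g__wS_32_wQ_26_wN_1_rb8033052fx8_2 g__wS_32_wQ_26_wN_1_rb8033052fx8_10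 g_wS_32_wQ_26_wN_1_rb8033052f_d41_d0cx8 g_wS_32_wQ_26_wN_1_rb8033052f_d41_d0dx8 g_wS_32_wQ_26_wN_1_rb8033052f_d41_d0fx8 g_wS_32_wQ_26_wN_1_rb8033052f_d41_d10x8

theorem g_wS_32_wQ_26_wN_1_rb8033052dx17 : GoodKC AS c_wS_32_wQ_26_wN_1_rb8033052dx17 := p_wS_32_wQ_26_wN_1_rb8033052dx7

theorem g_wS_32_wQ_26_wN_1_rb803305291514x4 : GoodKC AS c_wS_32_wQ_26_wN_1_rb803305291514x4 := p_wS_32_wQ_26_wN_1_rb803305291514x3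

theorem g_wS_32_wQ_26_wN_1_rb803305291510x4 : GoodKC AS c_wS_32_wQ_26_wN_1_rb803305291510x4 := p_wS_32_wQ_26_wN_1_rb803305291510x3

theorem g_wS_32_wQ_26_wN_1_rb80330529150ex4 : GoodKC AS c_wS_32_wQ_26_wN_1_rb80330529150ex4 := p_wS_32_wQ_26_wN_1_rb80330529150ex3

theorem g__wS_32_wQ_26_wN_1_rb80330529150dx3_1 : GoodKC AS k_wS_32_wQ_26_wN_1_rb80330529150dx3_1 := p_wS_32_wQ_26_wN_1_rb80330529150dx3_1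

theorem g__wS_32_wQ_26_wN_1_rb80330529150dx3_0 : GoodKC AS k_wS_32_wQ_26_wN_1_rb80330529150dx3_0 := p_wS_32_wQ_26_wN_1_rb80330529150dx3_0 g__wS_32_wQ_26_wN_1_rb80330529150dx3_1

theorem g_wS_32_wQ_26_wN_1_rb80330529150dx4 : GoodKC AS c_wS_32_wQ_26_wN_1_rb80330529150dx4 := p_wS_32_wQ_26_wN_1_rb80330529150dx3 g__wS_32_wQ_26_wN_1_rb80330529150dx3_0

theorem g_wS_32_wQ_26_wN_1_rb80330529150cx4 : GoodKC AS c_wS_32_wQ_26_wN_1_rb80330529150cx4 := p_wS_32_wQ_26_wN_1_rb80330529150cx3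

theorem g__wS_32_wQ_26_wN_1_rb8033052915x4_5 : GoodKC AS k_wS_32_wQ_26_wN_1_rb8033052915x4_5 := p_wS_32_wQ_26_wN_1_rb8033052915x4_5

theorem g__wS_32_wQ_26_wN_1_rb8033052915x4_4 : GoodKC AS k_wS_32_wQ_26_wN_1_rb8033052915x4_4 := p_wS_32_wQ_26_wN_1_rb8033052915x4_4 g__wS_32_wQ_26_wN_1_rb8033052915x4_5

theorem g__wS_32_wQ_26_wN_1_rb8033052915x4_3 : GoodKC AS k_wS_32_wQ_26_wN_1_rb8033052915x4_3 := p_wS_32_wQ_26_wN_1_rb8033052915x4_3 g__wS_32_wQ_26_wN_1_rb8033052915x4_4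

theorem g__wS_32_wQ_26_wN_1_rb8033052915x4_2 : GoodKC AS k_wS_32_wQ_26_wN_1_rb8033052915x4_2 := p_wS_32_wQ_26_wN_1_rb8033052915x4_2 g__wS_32_wQ_26_wN_1_rb8033052915x4_3

theorem g__wS_32_wQ_26_wN_1_rb8033052915x4_1 : GoodKC AS k_wS_32_wQ_26_wN_1_rb8033052915x4_1 := p_wS_32_wQ_26_wN_1_rb8033052915x4_1 g__wS_32_wQ_26_wN_1_rb8033052915x4_2

theorem g__wS_32_wQ_26_wN_1_rb8033052915x4_0 : GoodKC AS k_wS_32_wQ_26_wN_1_rb8033052915x4_0 := p_wS_32_wQ_26_wN_1_rb8033052915x4_0 g__wS_32_wQ_26_wN_1_rb8033052915x4_1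

theorem g_wS_32_wQ_26_wN_1_rb80330529150ax4 : GoodKC AS c_wS_32_wQ_26_wN_1_rb80330529150ax4 := p_wS_32_wQ_26_wN_1_rb80330529150ax3

theorem g_wS_32_wQ_26_wN_1_rb803305291508x4 : GoodKC AS c_wS_32_wQ_26_wN_1_rb803305291508x4 := p_wS_32_wQ_26_wN_1_rb803305291508x3

theorem g_wS_32_wQ_26_wN_1_rb803305291506x4 : GoodKC AS c_wS_32_wQ_26_wN_1_rb803305291506x4 := p_wS_32_wQ_26_wN_1_rb803305291506x3

theorem g_wS_32_wQ_26_wN_1_rb803305291505x4 : GoodKC AS c_wS_32_wQ_26_wN_1_rb803305291505x4 := p_wS_32_wQ_26_wN_1_rb803305291505x3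

theorem g_wS_32_wQ_26_wN_1_rb803305291504x4 : GoodKC AS c_wS_32_wQ_26_wN_1_rb803305291504x4 := p_wS_32_wQ_26_wN_1_rb803305291504x3

theorem g_wS_32_wQ_26_wN_1_rb803305291503x4 : GoodKC AS c_wS_32_wQ_26_wN_1_rb803305291503x4 := p_wS_32_wQ_26_wN_1_rb803305291503x3

theorem g_wS_32_wQ_26_wN_1_rb803305291502x4 : GoodKC AS c_wS_32_wQ_26_wN_1_rb803305291502x4 := p_wS_32_wQ_26_wN_1_rb803305291502x3

theorem g_wS_32_wQ_26_wN_1_rb803305291501x4 : GoodKC AS c_wS_32_wQ_26_wN_1_rb803305291501x4 := p_wS_32_wQ_26_wN_1_rb803305291501x3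

theorem g__wS_32_wQ_26_wN_1_rb803305291500v3_1 : GoodKC AS k_wS_32_wQ_26_wN_1_rb803305291500v3_1 := p_wS_32_wQ_26_wN_1_rb803305291500v3_1

theorem g__wS_32_wQ_26_wN_1_rb803305291500v3_0 : GoodKC AS k_wS_32_wQ_26_wN_1_rb803305291500v3_0 := p_wS_32_wQ_26_wN_1_rb803305291500v3_0 g__wS_32_wQ_26_wN_1_rb803305291500v3_1

theorem g_wS_32_wQ_26_wN_1_rb803305291500x4 : GoodKC AS c_wS_32_wQ_26_wN_1_rb803305291500x4 := p_wS_32_wQ_26_wN_1_rb803305291500x3 g__wS_32_wQ_26_wN_1_rb803305291500v3_0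

theorem g_wS_32_wQ_26_wN_1_rb803305291507x4 : GoodKC AS c_wS_32_wQ_26_wN_1_rb803305291507x4 := p_wS_32_wQ_26_wN_1_rb803305291507x3

theorem g_wS_32_wQ_26_wN_1_rb803305291509x4 : GoodKC AS c_wS_32_wQ_26_wN_1_rb803305291509x4 := p_wS_32_wQ_26_wN_1_rb803305291509x3

theorem g__wS_32_wQ_26_wN_1_rb8033052915x4_8 : GoodKC AS k_wS_32_wQ_26_wN_1_rb8033052915x4_8 := p_wS_32_wQ_26_wN_1_rb8033052915x4_8

theorem g__wS_32_wQ_26_wN_1_rb8033052915x4_7 : GoodKC AS k_wS_32_wQ_26_wN_1_rb8033052915x4_7 := p_wS_32_wQ_26_wN_1_rb8033052915x4_7 g__wS_32_wQ_26_wN_1_rb8033052915x4_8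

theorem g__wS_32_wQ_26_wN_1_rb8033052915x4_9 : GoodKC AS k_wS_32_wQ_26_wN_1_rb8033052915x4_9 := p_wS_32_wQ_26_wN_1_rb8033052915x4_9

theorem g__wS_32_wQ_26_wN_1_rb8033052915x4_6 : GoodKC AS k_wS_32_wQ_26_wN_1_rb8033052915x4_6 := p_wS_32_wQ_26_wN_1_rb8033052915x4_6 g__wS_32_wQ_26_wN_1_rb8033052915x4_7 g__wS_32_wQ_26_wN_1_rb8033052915x4_9

theorem g_wS_32_wQ_26_wN_1_rb80330529150bx4 : GoodKC AS c_wS_32_wQ_26_wN_1_rb80330529150bx4 := p_wS_32_wQ_26_wN_1_rb80330529150bx3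

theorem g_wS_32_wQ_26_wN_1_rb80330529150fx4 : GoodKC AS c_wS_32_wQ_26_wN_1_rb80330529150fx4 := p_wS_32_wQ_26_wN_1_rb80330529150fx3

theorem g_wS_32_wQ_26_wN_1_rb803305291511x4 : GoodKC AS c_wS_32_wQ_26_wN_1_rb803305291511x4 := p_wS_32_wQ_26_wN_1_rb803305291511x3

theorem g_wS_32_wQ_26_wN_1_rb803305291512x4 : GoodKC AS c_wS_32_wQ_26_wN_1_rb803305291512x4 := p_wS_32_wQ_26_wN_1_rb803305291512x3

theorem g_wS_32_wQ_26_wN_1_rb803305291513x4 : GoodKC AS c_wS_32_wQ_26_wN_1_rb803305291513x4 := p_wS_32_wQ_26_wN_1_rb803305291513x3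

theorem g_wS_32_wQ_26_wN_1_rb8033052915x6 : GoodKC AS c_wS_32_wQ_26_wN_1_rb8033052915x6 := p_wS_32_wQ_26_wN_1_rb8033052915x4 g_wS_32_wQ_26_wN_1_rb803305291514x4 g_wS_32_wQ_26_wN_1_rb803305291510x4 g_wS_32_wQ_26_wN_1_rb80330529150ex4 g_wS_32_wQ_26_wN_1_rb80330529150dx4 g_wS_32_wQ_26_wN_1_rb80330529150cx4 g__wS_32_wQ_26_wN_1_rb8033052915x4_0 g_wS_32_wQ_26_wN_1_rb80330529150ax4 g_wS_32_wQ_26_wN_1_rb803305291508x4 g_wS_32_wQ_26_wN_1_rb803305291506x4 g_wS_32_wQ_26_wN_1_rb803305291505x4 g_wS_32_wQ_26_wN_1_rb803305291504x4 g_wS_32_wQ_26_wN_1_rb803305291503x4 g_wS_32_wQ_26_wN_1_rb803305291502x4 g_wS_32_wQ_26_wN_1_rb803305291501x4 g_wS_32_wQ_26_wN_1_rb803305291500x4 g_wS_32_wQ_26_wN_1_rb803305291507x4 g_wS_32_wQ_26_wN_1_rb803305291509x4 g__wS_32_wQ_26_wN_1_rb8033052915x4_6 g_wS_32_wQ_26_wN_1_rb80330529150bx4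 g_wS_32_wQ_26_wN_1_rb80330529150fx4 g_wS_32_wQ_26_wN_1_rb803305291511x4 g_wS_32_wQ_26_wN_1_rb803305291512x4 g_wS_32_wQ_26_wN_1_rb803305291513x4

theorem g_wS_32_wQ_26_wN_1_rb8033052914x6 : GoodKC AS c_wS_32_wQ_26_wN_1_rb8033052914x6 := p_wS_32_wQ_26_wN_1_rb8033052914x4

theorem g_wS_32_wQ_26_wN_1_rb8033052910x6 : GoodKC AS c_wS_32_wQ_26_wN_1_rb8033052910x6 := p_wS_32_wQ_26_wN_1_rb8033052910x4

theorem g_wS_32_wQ_26_wN_1_rb803305290f3bx4 : GoodKC AS c_wS_32_wQ_26_wN_1_rb803305290f3bx4 := p_wS_32_wQ_26_wN_1_rb803305290f3bx2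

theorem g__wS_32_wQ_26_wN_1_rb803305290f3ax2_1 : GoodKC AS k_wS_32_wQ_26_wN_1_rb803305290f3ax2_1 := p_wS_32_wQ_26_wN_1_rb803305290f3ax2_1

theorem g__wS_32_wQ_26_wN_1_rb803305290f3ax2_5 : GoodKC AS k_wS_32_wQ_26_wN_1_rb803305290f3ax2_5 := p_wS_32_wQ_26_wN_1_rb803305290f3ax2_5

theorem g__wS_32_wQ_26_wN_1_rb803305290f3ax2_4 : GoodKC AS k_wS_32_wQ_26_wN_1_rb803305290f3ax2_4 := p_wS_32_wQ_26_wN_1_rb803305290f3ax2_4 g__wS_32_wQ_26_wN_1_rb803305290f3ax2_5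

theorem g__wS_32_wQ_26_wN_1_rb803305290f3ax2_3 : GoodKC AS k_wS_32_wQ_26_wN_1_rb803305290f3ax2_3 := p_wS_32_wQ_26_wN_1_rb803305290f3ax2_3 g__wS_32_wQ_26_wN_1_rb803305290f3ax2_4

theorem g__wS_32_wQ_26_wN_1_rb803305290f3ax2_10 : GoodKC AS k_wS_32_wQ_26_wN_1_rb803305290f3ax2_10 := p_wS_32_wQ_26_wN_1_rb803305290f3ax2_10

theorem g__wS_32_wQ_26_wN_1_rb803305290f3ax2_9 : GoodKC AS k_wS_32_wQ_26_wN_1_rb803305290f3ax2_9 := p_wS_32_wQ_26_wN_1_rb803305290f3ax2_9 g__wS_32_wQ_26_wN_1_rb803305290f3ax2_10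

theorem g__wS_32_wQ_26_wN_1_rb803305290f3ax2_8 : GoodKC AS k_wS_32_wQ_26_wN_1_rb803305290f3ax2_8 := p_wS_32_wQ_26_wN_1_rb803305290f3ax2_8 g__wS_32_wQ_26_wN_1_rb803305290f3ax2_9

theorem g__wS_32_wQ_26_wN_1_rb803305290f3ax2_7 : GoodKC AS k_wS_32_wQ_26_wN_1_rb803305290f3ax2_7 := p_wS_32_wQ_26_wN_1_rb803305290f3ax2_7 g__wS_32_wQ_26_wN_1_rb803305290f3ax2_8

theorem g__wS_32_wQ_26_wN_1_rb803305290f3ax2_6 : GoodKC AS k_wS_32_wQ_26_wN_1_rb803305290f3ax2_6 := p_wS_32_wQ_26_wN_1_rb803305290f3ax2_6 g__wS_32_wQ_26_wN_1_rb803305290f3ax2_7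

theorem g__wS_32_wQ_26_wN_1_rb803305290f3ax2_2 : GoodKC AS k_wS_32_wQ_26_wN_1_rb803305290f3ax2_2 := p_wS_32_wQ_26_wN_1_rb803305290f3ax2_2 g__wS_32_wQ_26_wN_1_rb803305290f3ax2_3 g__wS_32_wQ_26_wN_1_rb803305290f3ax2_6

theorem g__wS_32_wQ_26_wN_1_rb803305290f3ax2_0 : GoodKC AS k_wS_32_wQ_26_wN_1_rb803305290f3ax2_0 := p_wS_32_wQ_26_wN_1_rb803305290f3ax2_0 g__wS_32_wQ_26_wN_1_rb803305290f3ax2_1 g__wS_32_wQ_26_wN_1_rb803305290f3ax2_2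

theorem g_wS_32_wQ_26_wN_1_rb803305290f3ax4 : GoodKC AS c_wS_32_wQ_26_wN_1_rb803305290f3ax4 := p_wS_32_wQ_26_wN_1_rb803305290f3ax2 g__wS_32_wQ_26_wN_1_rb803305290f3ax2_0

theorem g__wS_32_wQ_26_wN_1_rb803305290f37x2_0 : GoodKC AS k_wS_32_wQ_26_wN_1_rb803305290f37x2_0 := p_wS_32_wQ_26_wN_1_rb803305290f37x2_0

theorem g_wS_32_wQ_26_wN_1_rb803305290f37x4 : GoodKC AS c_wS_32_wQ_26_wN_1_rb803305290f37x4 := p_wS_32_wQ_26_wN_1_rb803305290f37x2 g__wS_32_wQ_26_wN_1_rb803305290f37x2_0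

theorem g_wS_32_wQ_26_wN_1_rb803305290f36x4 : GoodKC AS c_wS_32_wQ_26_wN_1_rb803305290f36x4 := p_wS_32_wQ_26_wN_1_rb803305290f36x2

theorem g_wS_32_wQ_26_wN_1_rb803305290f35x4 : GoodKC AS c_wS_32_wQ_26_wN_1_rb803305290f35x4 := p_wS_32_wQ_26_wN_1_rb803305290f35x2

theorem g_wS_32_wQ_26_wN_1_rb803305290f33x4 : GoodKC AS c_wS_32_wQ_26_wN_1_rb803305290f33x4 := p_wS_32_wQ_26_wN_1_rb803305290f33x2

theorem g__wS_32_wQ_26_wN_1_rb803305290f32x2_3 : GoodKC AS k_wS_32_wQ_26_wN_1_rb803305290f32x2_3 := p_wS_32_wQ_26_wN_1_rb803305290f32x2_3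

theorem g__wS_32_wQ_26_wN_1_rb803305290f32x2_5 : GoodKC AS k_wS_32_wQ_26_wN_1_rb803305290f32x2_5 := p_wS_32_wQ_26_wN_1_rb803305290f32x2_5

theorem g__wS_32_wQ_26_wN_1_rb803305290f32x2_7 : GoodKC AS k_wS_32_wQ_26_wN_1_rb803305290f32x2_7 := p_wS_32_wQ_26_wN_1_rb803305290f32x2_7

theorem g__wS_32_wQ_26_wN_1_rb803305290f32x2_6 : GoodKC AS k_wS_32_wQ_26_wN_1_rb803305290f32x2_6 := p_wS_32_wQ_26_wN_1_rb803305290f32x2_6 g__wS_32_wQ_26_wN_1_rb803305290f32x2_7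

theorem g__wS_32_wQ_26_wN_1_rb803305290f32x2_4 : GoodKC AS k_wS_32_wQ_26_wN_1_rb803305290f32x2_4 := p_wS_32_wQ_26_wN_1_rb803305290f32x2_4 g__wS_32_wQ_26_wN_1_rb803305290f32x2_5 g__wS_32_wQ_26_wN_1_rb803305290f32x2_6

theorem g__wS_32_wQ_26_wN_1_rb803305290f32x2_2 : GoodKC AS k_wS_32_wQ_26_wN_1_rb803305290f32x2_2 := p_wS_32_wQ_26_wN_1_rb803305290f32x2_2 g__wS_32_wQ_26_wN_1_rb803305290f32x2_3 g__wS_32_wQ_26_wN_1_rb803305290f32x2_4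

theorem g__wS_32_wQ_26_wN_1_rb803305290f32x2_1 : GoodKC AS k_wS_32_wQ_26_wN_1_rb803305290f32x2_1 := p_wS_32_wQ_26_wN_1_rb803305290f32x2_1 g__wS_32_wQ_26_wN_1_rb803305290f32x2_2

theorem g__wS_32_wQ_26_wN_1_rb803305290f32x2_0 : GoodKC AS k_wS_32_wQ_26_wN_1_rb803305290f32x2_0 := p_wS_32_wQ_26_wN_1_rb803305290f32x2_0 g__wS_32_wQ_26_wN_1_rb803305290f32x2_1

theorem g_wS_32_wQ_26_wN_1_rb803305290f32x4 : GoodKC AS c_wS_32_wQ_26_wN_1_rb803305290f32x4 := p_wS_32_wQ_26_wN_1_rb803305290f32x2 g__wS_32_wQ_26_wN_1_rb803305290f32x2_0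

theorem g_wS_32_wQ_26_wN_1_rb803305290f2dx4 : GoodKC AS c_wS_32_wQ_26_wN_1_rb803305290f2dx4 := p_wS_32_wQ_26_wN_1_rb803305290f2dx2

theorem g_wS_32_wQ_26_wN_1_rb803305290f2bx4 : GoodKC AS c_wS_32_wQ_26_wN_1_rb803305290f2bx4 := p_wS_32_wQ_26_wN_1_rb803305290f2bx2

theorem g_wS_32_wQ_26_wN_1_rb803305290f2ax4 : GoodKC AS c_wS_32_wQ_26_wN_1_rb803305290f2ax4 := p_wS_32_wQ_26_wN_1_rb803305290f2ax2

theorem g_wS_32_wQ_26_wN_1_rb803305290f29x4 : GoodKC AS c_wS_32_wQ_26_wN_1_rb803305290f29x4 := p_wS_32_wQ_26_wN_1_rb803305290f29x2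

theorem g_wS_32_wQ_26_wN_1_rb803305290f24x4 : GoodKC AS c_wS_32_wQ_26_wN_1_rb803305290f24x4 := p_wS_32_wQ_26_wN_1_rb803305290f24x2

theorem g_wS_32_wQ_26_wN_1_rb803305290f21x4 : GoodKC AS c_wS_32_wQ_26_wN_1_rb803305290f21x4 := p_wS_32_wQ_26_wN_1_rb803305290f21x2

theorem g_wS_32_wQ_26_wN_1_rb803305290f20x4 : GoodKC AS c_wS_32_wQ_26_wN_1_rb803305290f20x4 := p_wS_32_wQ_26_wN_1_rb803305290f20x2

theorem g_wS_32_wQ_26_wN_1_rb803305290f1ex4 : GoodKC AS c_wS_32_wQ_26_wN_1_rb803305290f1ex4 := p_wS_32_wQ_26_wN_1_rb803305290f1ex2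

theorem g_wS_32_wQ_26_wN_1_rb803305290f1bx4 : GoodKC AS c_wS_32_wQ_26_wN_1_rb803305290f1bx4 := p_wS_32_wQ_26_wN_1_rb803305290f1bx2

theorem g_wS_32_wQ_26_wN_1_rb803305290f1ax4 : GoodKC AS c_wS_32_wQ_26_wN_1_rb803305290f1ax4 := p_wS_32_wQ_26_wN_1_rb803305290f1ax2

theorem g_wS_32_wQ_26_wN_1_rb803305290f19x4 : GoodKC AS c_wS_32_wQ_26_wN_1_rb803305290f19x4 := p_wS_32_wQ_26_wN_1_rb803305290f19x2

theorem g_wS_32_wQ_26_wN_1_rb803305290f18x4 : GoodKC AS c_wS_32_wQ_26_wN_1_rb803305290f18x4 := p_wS_32_wQ_26_wN_1_rb803305290f18x2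

theorem g_wS_32_wQ_26_wN_1_rb803305290f14x4 : GoodKC AS c_wS_32_wQ_26_wN_1_rb803305290f14x4 := p_wS_32_wQ_26_wN_1_rb803305290f14x2

theorem g_wS_32_wQ_26_wN_1_rb803305290f13x4 : GoodKC AS c_wS_32_wQ_26_wN_1_rb803305290f13x4 := p_wS_32_wQ_26_wN_1_rb803305290f13x2

theorem g_wS_32_wQ_26_wN_1_rb803305290f11x4 : GoodKC AS c_wS_32_wQ_26_wN_1_rb803305290f11x4 := p_wS_32_wQ_26_wN_1_rb803305290f11x2

theorem g_wS_32_wQ_26_wN_1_rb803305290f0cx4 : GoodKC AS c_wS_32_wQ_26_wN_1_rb803305290f0cx4 := p_wS_32_wQ_26_wN_1_rb803305290f0cx2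

theorem g_wS_32_wQ_26_wN_1_rb803305290f0bx4 : GoodKC AS c_wS_32_wQ_26_wN_1_rb803305290f0bx4 := p_wS_32_wQ_26_wN_1_rb803305290f0bx2

theorem g_wS_32_wQ_26_wN_1_rb803305290f08x4 : GoodKC AS c_wS_32_wQ_26_wN_1_rb803305290f08x4 := p_wS_32_wQ_26_wN_1_rb803305290f08x2

theorem g__wS_32_wQ_26_wN_1_rb803305290fx4_2 : GoodKC AS k_wS_32_wQ_26_wN_1_rb803305290fx4_2 := p_wS_32_wQ_26_wN_1_rb803305290fx4_2

theorem g__wS_32_wQ_26_wN_1_rb803305290fx4_1 : GoodKC AS k_wS_32_wQ_26_wN_1_rb803305290fx4_1 := p_wS_32_wQ_26_wN_1_rb803305290fx4_1 g__wS_32_wQ_26_wN_1_rb803305290fx4_2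

theorem g_wS_32_wQ_26_wN_1_rb803305290f07x4 : GoodKC AS c_wS_32_wQ_26_wN_1_rb803305290f07x4 := p_wS_32_wQ_26_wN_1_rb803305290f07x2

theorem g_wS_32_wQ_26_wN_1_rb803305290f06x4 : GoodKC AS c_wS_32_wQ_26_wN_1_rb803305290f06x4 := p_wS_32_wQ_26_wN_1_rb803305290f06x2

theorem g_wS_32_wQ_26_wN_1_rb803305290f05x4 : GoodKC AS c_wS_32_wQ_26_wN_1_rb803305290f05x4 := p_wS_32_wQ_26_wN_1_rb803305290f05x2

theorem g_wS_32_wQ_26_wN_1_rb803305290f04x4 : GoodKC AS c_wS_32_wQ_26_wN_1_rb803305290f04x4 := p_wS_32_wQ_26_wN_1_rb803305290f04x2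

theorem g_wS_32_wQ_26_wN_1_rb803305290f03x4 : GoodKC AS c_wS_32_wQ_26_wN_1_rb803305290f03x4 := p_wS_32_wQ_26_wN_1_rb803305290f03x2

theorem g_wS_32_wQ_26_wN_1_rb803305290f02x4 : GoodKC AS c_wS_32_wQ_26_wN_1_rb803305290f02x4 := p_wS_32_wQ_26_wN_1_rb803305290f02x2

theorem g_wS_32_wQ_26_wN_1_rb803305290f00x4 : GoodKC AS c_wS_32_wQ_26_wN_1_rb803305290f00x4 := p_wS_32_wQ_26_wN_1_rb803305290f00x2

theorem g_wS_32_wQ_26_wN_1_rb803305290f01x4 : GoodKC AS c_wS_32_wQ_26_wN_1_rb803305290f01x4 := p_wS_32_wQ_26_wN_1_rb803305290f01x2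

theorem g_wS_32_wQ_26_wN_1_rb803305290f0910 : GoodKC AS c_wS_32_wQ_26_wN_1_rb803305290f0910 := p_wS_32_wQ_26_wN_1_rb803305290f0910

theorem g_wS_32_wQ_26_wN_1_rb803305290f090e : GoodKC AS c_wS_32_wQ_26_wN_1_rb803305290f090e := p_wS_32_wQ_26_wN_1_rb803305290f090e

theorem g_wS_32_wQ_26_wN_1_rb803305290f090c : GoodKC AS c_wS_32_wQ_26_wN_1_rb803305290f090c := p_wS_32_wQ_26_wN_1_rb803305290f090c

theorem g_wS_32_wQ_26_wN_1_rb803305290f090b : GoodKC AS c_wS_32_wQ_26_wN_1_rb803305290f090b := p_wS_32_wQ_26_wN_1_rb803305290f090b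

theorem g_wS_32_wQ_26_wN_1_rb803305290f090a : GoodKC AS c_wS_32_wQ_26_wN_1_rb803305290f090a := p_wS_32_wQ_26_wN_1_rb803305290f090a

theorem g__wS_32_wQ_26_wN_1_rb803305290f0909_0 : GoodKC AS k_wS_32_wQ_26_wN_1_rb803305290f0909_0 := p_wS_32_wQ_26_wN_1_rb803305290f0909_0

theorem g_wS_32_wQ_26_wN_1_rb803305290f0909 : GoodKC AS c_wS_32_wQ_26_wN_1_rb803305290f0909 := p_wS_32_wQ_26_wN_1_rb803305290f0909 g__wS_32_wQ_26_wN_1_rb803305290f0909_0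

theorem g_wS_32_wQ_26_wN_1_rb803305290f0908 : GoodKC AS c_wS_32_wQ_26_wN_1_rb803305290f0908 := p_wS_32_wQ_26_wN_1_rb803305290f0908

theorem g_wS_32_wQ_26_wN_1_rb803305290f0902 : GoodKC AS c_wS_32_wQ_26_wN_1_rb803305290f0902 := p_wS_32_wQ_26_wN_1_rb803305290f0902

theorem g__wS_32_wQ_26_wN_1_rb803305290f09_2 : GoodKC AS k_wS_32_wQ_26_wN_1_rb803305290f09_2 := p_wS_32_wQ_26_wN_1_rb803305290f09_2

theorem g__wS_32_wQ_26_wN_1_rb803305290f09_1 : GoodKC AS k_wS_32_wQ_26_wN_1_rb803305290f09_1 := p_wS_32_wQ_26_wN_1_rb803305290f09_1 g__wS_32_wQ_26_wN_1_rb803305290f09_2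

theorem g__wS_32_wQ_26_wN_1_rb803305290f09_0 : GoodKC AS k_wS_32_wQ_26_wN_1_rb803305290f09_0 := p_wS_32_wQ_26_wN_1_rb803305290f09_0 g__wS_32_wQ_26_wN_1_rb803305290f09_1

theorem g__wS_32_wQ_26_wN_1_rb803305290f0900_0 : GoodKC AS k_wS_32_wQ_26_wN_1_rb803305290f0900_0 := p_wS_32_wQ_26_wN_1_rb803305290f0900_0

theorem g_wS_32_wQ_26_wN_1_rb803305290f0900 : GoodKC AS c_wS_32_wQ_26_wN_1_rb803305290f0900 := p_wS_32_wQ_26_wN_1_rb803305290f0900 g__wS_32_wQ_26_wN_1_rb803305290f0900_0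

theorem g_wS_32_wQ_26_wN_1_rb803305290f0901 : GoodKC AS c_wS_32_wQ_26_wN_1_rb803305290f0901 := p_wS_32_wQ_26_wN_1_rb803305290f0901

theorem g__wS_32_wQ_26_wN_1_rb803305290f09_5 : GoodKC AS k_wS_32_wQ_26_wN_1_rb803305290f09_5 := p_wS_32_wQ_26_wN_1_rb803305290f09_5

theorem g__wS_32_wQ_26_wN_1_rb803305290f09_4 : GoodKC AS k_wS_32_wQ_26_wN_1_rb803305290f09_4 := p_wS_32_wQ_26_wN_1_rb803305290f09_4 g__wS_32_wQ_26_wN_1_rb803305290f09_5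

theorem g__wS_32_wQ_26_wN_1_rb803305290f09_3 : GoodKC AS k_wS_32_wQ_26_wN_1_rb803305290f09_3 := p_wS_32_wQ_26_wN_1_rb803305290f09_3 g__wS_32_wQ_26_wN_1_rb803305290f09_4

theorem g__wS_32_wQ_26_wN_1_rb803305290f09_6 : GoodKC AS k_wS_32_wQ_26_wN_1_rb803305290f09_6 := p_wS_32_wQ_26_wN_1_rb803305290f09_6

theorem g_wS_32_wQ_26_wN_1_rb803305290f0903 : GoodKC AS c_wS_32_wQ_26_wN_1_rb803305290f0903 := p_wS_32_wQ_26_wN_1_rb803305290f0903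

theorem g_wS_32_wQ_26_wN_1_rb803305290f0904 : GoodKC AS c_wS_32_wQ_26_wN_1_rb803305290f0904 := p_wS_32_wQ_26_wN_1_rb803305290f0904

theorem g_wS_32_wQ_26_wN_1_rb803305290f0905 : GoodKC AS c_wS_32_wQ_26_wN_1_rb803305290f0905 := p_wS_32_wQ_26_wN_1_rb803305290f0905

theorem g_wS_32_wQ_26_wN_1_rb803305290f0906 : GoodKC AS c_wS_32_wQ_26_wN_1_rb803305290f0906 := p_wS_32_wQ_26_wN_1_rb803305290f0906

theorem g_wS_32_wQ_26_wN_1_rb803305290f0907 : GoodKC AS c_wS_32_wQ_26_wN_1_rb803305290f0907 := p_wS_32_wQ_26_wN_1_rb803305290f0907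

theorem g_wS_32_wQ_26_wN_1_rb803305290f090d : GoodKC AS c_wS_32_wQ_26_wN_1_rb803305290f090d := p_wS_32_wQ_26_wN_1_rb803305290f090d

theorem g_wS_32_wQ_26_wN_1_rb803305290f090f : GoodKC AS c_wS_32_wQ_26_wN_1_rb803305290f090f := p_wS_32_wQ_26_wN_1_rb803305290f090f

theorem g_wS_32_wQ_26_wN_1_rb803305290f09x4 : GoodKC AS c_wS_32_wQ_26_wN_1_rb803305290f09x4 := p_wS_32_wQ_26_wN_1_rb803305290f09 g_wS_32_wQ_26_wN_1_rb803305290f0910 g_wS_32_wQ_26_wN_1_rb803305290f090e g_wS_32_wQ_26_wN_1_rb803305290f090c g_wS_32_wQ_26_wN_1_rb803305290f090b g_wS_32_wQ_26_wN_1_rb803305290f090a g_wS_32_wQ_26_wN_1_rb803305290f0909 g_wS_32_wQ_26_wN_1_rb803305290f0908 g_wS_32_wQ_26_wN_1_rb803305290f0902 g__wS_32_wQ_26_wN_1_rb803305290f09_0 g_wS_32_wQ_26_wN_1_rb803305290f0900 g_wS_32_wQ_26_wN_1_rb803305290f0901 g__wS_32_wQ_26_wN_1_rb803305290f09_3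 g__wS_32_wQ_26_wN_1_rb803305290f09_6 g_wS_32_wQ_26_wN_1_rb803305290f0903 g_wS_32_wQ_26_wN_1_rb803305290f0904 g_wS_32_wQ_26_wN_1_rb803305290f0905 g_wS_32_wQ_26_wN_1_rb803305290f0906 g_wS_32_wQ_26_wN_1_rb803305290f0907 g_wS_32_wQ_26_wN_1_rb803305290f090d g_wS_32_wQ_26_wN_1_rb803305290f090f

theorem g_wS_32_wQ_26_wN_1_rb803305290f0a18x2 : GoodKC AS c_wS_32_wQ_26_wN_1_rb803305290f0a18x2 := p_wS_32_wQ_26_wN_1_rb803305290f0a18x1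

theorem g_wS_32_wQ_26_wN_1_rb803305290f0a17x2 : GoodKC AS c_wS_32_wQ_26_wN_1_rb803305290f0a17x2 := p_wS_32_wQ_26_wN_1_rb803305290f0a17x1

theorem g_wS_32_wQ_26_wN_1_rb803305290f0a16x2 : GoodKC AS c_wS_32_wQ_26_wN_1_rb803305290f0a16x2 := p_wS_32_wQ_26_wN_1_rb803305290f0a16x2

theorem g_wS_32_wQ_26_wN_1_rb803305290f0a14x2 : GoodKC AS c_wS_32_wQ_26_wN_1_rb803305290f0a14x2 := p_wS_32_wQ_26_wN_1_rb803305290f0a14x1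

theorem g__wS_32_wQ_26_wN_1_rb803305290f0ax2_1 : GoodKC AS k_wS_32_wQ_26_wN_1_rb803305290f0ax2_1 := p_wS_32_wQ_26_wN_1_rb803305290f0ax2_1

theorem g__wS_32_wQ_26_wN_1_rb803305290f0ax2_0 : GoodKC AS k_wS_32_wQ_26_wN_1_rb803305290f0ax2_0 := p_wS_32_wQ_26_wN_1_rb803305290f0ax2_0 g__wS_32_wQ_26_wN_1_rb803305290f0ax2_1

theorem g_wS_32_wQ_26_wN_1_rb803305290f0a13x2 : GoodKC AS c_wS_32_wQ_26_wN_1_rb803305290f0a13x2 := p_wS_32_wQ_26_wN_1_rb803305290f0a13x2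

theorem g_wS_32_wQ_26_wN_1_rb803305290f0a0dx2 : GoodKC AS c_wS_32_wQ_26_wN_1_rb803305290f0a0dx2 := p_wS_32_wQ_26_wN_1_rb803305290f0a0dx2

theorem g_wS_32_wQ_26_wN_1_rb803305290f0a0cx2 : GoodKC AS c_wS_32_wQ_26_wN_1_rb803305290f0a0cx2 := p_wS_32_wQ_26_wN_1_rb803305290f0a0cx1

theorem g_wS_32_wQ_26_wN_1_rb803305290f0a09x2 : GoodKC AS c_wS_32_wQ_26_wN_1_rb803305290f0a09x2 := p_wS_32_wQ_26_wN_1_rb803305290f0a09x1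

theorem g_wS_32_wQ_26_wN_1_rb803305290f0a08x2 : GoodKC AS c_wS_32_wQ_26_wN_1_rb803305290f0a08x2 := p_wS_32_wQ_26_wN_1_rb803305290f0a08x1

theorem g_wS_32_wQ_26_wN_1_rb803305290f0a00x2 : GoodKC AS c_wS_32_wQ_26_wN_1_rb803305290f0a00x2 := p_wS_32_wQ_26_wN_1_rb803305290f0a00x1

theorem g_wS_32_wQ_26_wN_1_rb803305290f0a01x2 : GoodKC AS c_wS_32_wQ_26_wN_1_rb803305290f0a01x2 := p_wS_32_wQ_26_wN_1_rb803305290f0a01x1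

theorem g_wS_32_wQ_26_wN_1_rb803305290f0a02x2 : GoodKC AS c_wS_32_wQ_26_wN_1_rb803305290f0a02x2 := p_wS_32_wQ_26_wN_1_rb803305290f0a02x1

theorem g__wS_32_wQ_26_wN_1_rb803305290f0ax2_4 : GoodKC AS k_wS_32_wQ_26_wN_1_rb803305290f0ax2_4 := p_wS_32_wQ_26_wN_1_rb803305290f0ax2_4

theorem g__wS_32_wQ_26_wN_1_rb803305290f0ax2_3 : GoodKC AS k_wS_32_wQ_26_wN_1_rb803305290f0ax2_3 := p_wS_32_wQ_26_wN_1_rb803305290f0ax2_3 g__wS_32_wQ_26_wN_1_rb803305290f0ax2_4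

theorem g_wS_32_wQ_26_wN_1_rb803305290f0a03x2 : GoodKC AS c_wS_32_wQ_26_wN_1_rb803305290f0a03x2 := p_wS_32_wQ_26_wN_1_rb803305290f0a03x1

theorem g_wS_32_wQ_26_wN_1_rb803305290f0a04x2 : GoodKC AS c_wS_32_wQ_26_wN_1_rb803305290f0a04x2 := p_wS_32_wQ_26_wN_1_rb803305290f0a04x1

theorem g_wS_32_wQ_26_wN_1_rb803305290f0a05x2 : GoodKC AS c_wS_32_wQ_26_wN_1_rb803305290f0a05x2 := p_wS_32_wQ_26_wN_1_rb803305290f0a05x1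

theorem g_wS_32_wQ_26_wN_1_rb803305290f0a06x2 : GoodKC AS c_wS_32_wQ_26_wN_1_rb803305290f0a06x2 := p_wS_32_wQ_26_wN_1_rb803305290f0a06x1

theorem g_wS_32_wQ_26_wN_1_rb803305290f0a07x2 : GoodKC AS c_wS_32_wQ_26_wN_1_rb803305290f0a07x2 := p_wS_32_wQ_26_wN_1_rb803305290f0a07x1

theorem g_wS_32_wQ_26_wN_1_rb803305290f0a0ax2 : GoodKC AS c_wS_32_wQ_26_wN_1_rb803305290f0a0ax2 := p_wS_32_wQ_26_wN_1_rb803305290f0a0ax1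

theorem g_wS_32_wQ_26_wN_1_rb803305290f0a0bx2 : GoodKC AS c_wS_32_wQ_26_wN_1_rb803305290f0a0bx2 := p_wS_32_wQ_26_wN_1_rb803305290f0a0bx2

theorem g_wS_32_wQ_26_wN_1_rb803305290f0a0ex2 : GoodKC AS c_wS_32_wQ_26_wN_1_rb803305290f0a0ex2 := p_wS_32_wQ_26_wN_1_rb803305290f0a0ex2

theorem g_wS_32_wQ_26_wN_1_rb803305290f0a0fx2 : GoodKC AS c_wS_32_wQ_26_wN_1_rb803305290f0a0fx2 := p_wS_32_wQ_26_wN_1_rb803305290f0a0fx1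

theorem g_wS_32_wQ_26_wN_1_rb803305290f0a1000x1 : GoodKC AS c_wS_32_wQ_26_wN_1_rb803305290f0a1000x1 := p_wS_32_wQ_26_wN_1_rb803305290f0a1000x1

theorem g__wS_32_wQ_26_wN_1_rb803305290f0a10v1_4 : GoodKC AS k_wS_32_wQ_26_wN_1_rb803305290f0a10v1_4 := p_wS_32_wQ_26_wN_1_rb803305290f0a10v1_4

theorem g__wS_32_wQ_26_wN_1_rb803305290f0a10v1_5 : GoodKC AS k_wS_32_wQ_26_wN_1_rb803305290f0a10v1_5 := p_wS_32_wQ_26_wN_1_rb803305290f0a10v1_5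

theorem g__wS_32_wQ_26_wN_1_rb803305290f0a10v1_3 : GoodKC AS k_wS_32_wQ_26_wN_1_rb803305290f0a10v1_3 := p_wS_32_wQ_26_wN_1_rb803305290f0a10v1_3 g_wS_32_wQ_26_wN_1_rb803305290f0a1000x1 g__wS_32_wQ_26_wN_1_rb803305290f0a10v1_4 g__wS_32_wQ_26_wN_1_rb803305290f0a10v1_5

theorem g__wS_32_wQ_26_wN_1_rb803305290f0a10v1_2 : GoodKC AS k_wS_32_wQ_26_wN_1_rb803305290f0a10v1_2 := p_wS_32_wQ_26_wN_1_rb803305290f0a10v1_2 g__wS_32_wQ_26_wN_1_rb803305290f0a10v1_3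

theorem g__wS_32_wQ_26_wN_1_rb803305290f0a10v1_1 : GoodKC AS k_wS_32_wQ_26_wN_1_rb803305290f0a10v1_1 := p_wS_32_wQ_26_wN_1_rb803305290f0a10v1_1 g__wS_32_wQ_26_wN_1_rb803305290f0a10v1_2

theorem g__wS_32_wQ_26_wN_1_rb803305290f0a10v1_0 : GoodKC AS k_wS_32_wQ_26_wN_1_rb803305290f0a10v1_0 := p_wS_32_wQ_26_wN_1_rb803305290f0a10v1_0 g__wS_32_wQ_26_wN_1_rb803305290f0a10v1_1

theorem g_wS_32_wQ_26_wN_1_rb803305290f0a10x2 : GoodKC AS c_wS_32_wQ_26_wN_1_rb803305290f0a10x2 := p_wS_32_wQ_26_wN_1_rb803305290f0a10x1 g__wS_32_wQ_26_wN_1_rb803305290f0a10v1_0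

theorem g_wS_32_wQ_26_wN_1_rb803305290f0a11x2 : GoodKC AS c_wS_32_wQ_26_wN_1_rb803305290f0a11x2 := p_wS_32_wQ_26_wN_1_rb803305290f0a11x1

theorem g_wS_32_wQ_26_wN_1_rb803305290f0a12x2 : GoodKC AS c_wS_32_wQ_26_wN_1_rb803305290f0a12x2 := p_wS_32_wQ_26_wN_1_rb803305290f0a12x1

theorem g__wS_32_wQ_26_wN_1_rb803305290f0ax2_2 : GoodKC AS k_wS_32_wQ_26_wN_1_rb803305290f0ax2_2 := p_wS_32_wQ_26_wN_1_rb803305290f0ax2_2 g_wS_32_wQ_26_wN_1_rb803305290f0a13x2 g_wS_32_wQ_26_wN_1_rb803305290f0a0dx2 g_wS_32_wQ_26_wN_1_rb803305290f0a0cx2 g_wS_32_wQ_26_wN_1_rb803305290f0a09x2 g_wS_32_wQ_26_wN_1_rb803305290f0a08x2 g_wS_32_wQ_26_wN_1_rb803305290f0a00x2 g_wS_32_wQ_26_wN_1_rb803305290f0a01x2 g_wS_32_wQ_26_wN_1_rb803305290f0a02x2 g__wS_32_wQ_26_wN_1_rb803305290f0ax2_3 g_wS_32_wQ_26_wN_1_rb803305290f0a03x2 g_wS_32_wQ_26_wN_1_rb803305290f0a04x2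 g_wS_32_wQ_26_wN_1_rb803305290f0a05x2 g_wS_32_wQ_26_wN_1_rb803305290f0a06x2 g_wS_32_wQ_26_wN_1_rb803305290f0a07x2 g_wS_32_wQ_26_wN_1_rb803305290f0a0ax2 g_wS_32_wQ_26_wN_1_rb803305290f0a0bx2 g_wS_32_wQ_26_wN_1_rb803305290f0a0ex2 g_wS_32_wQ_26_wN_1_rb803305290f0a0fx2 g_wS_32_wQ_26_wN_1_rb803305290f0a10x2 g_wS_32_wQ_26_wN_1_rb803305290f0a11x2 g_wS_32_wQ_26_wN_1_rb803305290f0a12x2

theorem g_wS_32_wQ_26_wN_1_rb803305290f0a15x2 : GoodKC AS c_wS_32_wQ_26_wN_1_rb803305290f0a15x2 := p_wS_32_wQ_26_wN_1_rb803305290f0a15x1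

theorem g_wS_32_wQ_26_wN_1_rb803305290f0a19x2 : GoodKC AS c_wS_32_wQ_26_wN_1_rb803305290f0a19x2 := p_wS_32_wQ_26_wN_1_rb803305290f0a19x1

theorem g_wS_32_wQ_26_wN_1_rb803305290f0a1ax2 : GoodKC AS c_wS_32_wQ_26_wN_1_rb803305290f0a1ax2 := p_wS_32_wQ_26_wN_1_rb803305290f0a1ax2

theorem g_wS_32_wQ_26_wN_1_rb803305290f0a1bx2 : GoodKC AS c_wS_32_wQ_26_wN_1_rb803305290f0a1bx2 := p_wS_32_wQ_26_wN_1_rb803305290f0a1bx2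

theorem g_wS_32_wQ_26_wN_1_rb803305290f0ax4 : GoodKC AS c_wS_32_wQ_26_wN_1_rb803305290f0ax4 := p_wS_32_wQ_26_wN_1_rb803305290f0ax2 g_wS_32_wQ_26_wN_1_rb803305290f0a18x2 g_wS_32_wQ_26_wN_1_rb803305290f0a17x2 g_wS_32_wQ_26_wN_1_rb803305290f0a16x2 g_wS_32_wQ_26_wN_1_rb803305290f0a14x2 g__wS_32_wQ_26_wN_1_rb803305290f0ax2_0 g__wS_32_wQ_26_wN_1_rb803305290f0ax2_2 g_wS_32_wQ_26_wN_1_rb803305290f0a15x2 g_wS_32_wQ_26_wN_1_rb803305290f0a19x2 g_wS_32_wQ_26_wN_1_rb803305290f0a1ax2 g_wS_32_wQ_26_wN_1_rb803305290f0a1bx2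

theorem g_wS_32_wQ_26_wN_1_rb803305290f0dx4 : GoodKC AS c_wS_32_wQ_26_wN_1_rb803305290f0dx4 := p_wS_32_wQ_26_wN_1_rb803305290f0dx2

theorem g_wS_32_wQ_26_wN_1_rb803305290f0ex4 : GoodKC AS c_wS_32_wQ_26_wN_1_rb803305290f0ex4 := p_wS_32_wQ_26_wN_1_rb803305290f0ex2

theorem g_wS_32_wQ_26_wN_1_rb803305290f0fx4 : GoodKC AS c_wS_32_wQ_26_wN_1_rb803305290f0fx4 := p_wS_32_wQ_26_wN_1_rb803305290f0fx2

theorem g__wS_32_wQ_26_wN_1_rb803305290f10v2_0 : GoodKC AS k_wS_32_wQ_26_wN_1_rb803305290f10v2_0 := p_wS_32_wQ_26_wN_1_rb803305290f10v2_0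

theorem g_wS_32_wQ_26_wN_1_rb803305290f10x4 : GoodKC AS c_wS_32_wQ_26_wN_1_rb803305290f10x4 := p_wS_32_wQ_26_wN_1_rb803305290f10x2 g__wS_32_wQ_26_wN_1_rb803305290f10v2_0

theorem g_wS_32_wQ_26_wN_1_rb803305290f12x4 : GoodKC AS c_wS_32_wQ_26_wN_1_rb803305290f12x4 := p_wS_32_wQ_26_wN_1_rb803305290f12x2

theorem g_wS_32_wQ_26_wN_1_rb803305290f15x4 : GoodKC AS c_wS_32_wQ_26_wN_1_rb803305290f15x4 := p_wS_32_wQ_26_wN_1_rb803305290f15x2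

theorem g_wS_32_wQ_26_wN_1_rb803305290f16x4 : GoodKC AS c_wS_32_wQ_26_wN_1_rb803305290f16x4 := p_wS_32_wQ_26_wN_1_rb803305290f16x2

theorem g_wS_32_wQ_26_wN_1_rb803305290f17x4 : GoodKC AS c_wS_32_wQ_26_wN_1_rb803305290f17x4 := p_wS_32_wQ_26_wN_1_rb803305290f17x2

theorem g__wS_32_wQ_26_wN_1_rb803305290fx4_0 : GoodKC AS k_wS_32_wQ_26_wN_1_rb803305290fx4_0 := p_wS_32_wQ_26_wN_1_rb803305290fx4_0 g_wS_32_wQ_26_wN_1_rb803305290f1ax4 g_wS_32_wQ_26_wN_1_rb803305290f19x4 g_wS_32_wQ_26_wN_1_rb803305290f18x4 g_wS_32_wQ_26_wN_1_rb803305290f14x4 g_wS_32_wQ_26_wN_1_rb803305290f13x4 g_wS_32_wQ_26_wN_1_rb803305290f11x4 g_wS_32_wQ_26_wN_1_rb803305290f0cx4 g_wS_32_wQ_26_wN_1_rb803305290f0bx4 g_wS_32_wQ_26_wN_1_rb803305290f08x4 g__wS_32_wQ_26_wN_1_rb803305290fx4_1 g_wS_32_wQ_26_wN_1_rb803305290f07x4 g_wS_32_wQ_26_wN_1_rb803305290f06x4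 g_wS_32_wQ_26_wN_1_rb803305290f05x4 g_wS_32_wQ_26_wN_1_rb803305290f04x4 g_wS_32_wQ_26_wN_1_rb803305290f03x4 g_wS_32_wQ_26_wN_1_rb803305290f02x4 g_wS_32_wQ_26_wN_1_rb803305290f00x4 g_wS_32_wQ_26_wN_1_rb803305290f01x4 g_wS_32_wQ_26_wN_1_rb803305290f09x4 g_wS_32_wQ_26_wN_1_rb803305290f0ax4 g_wS_32_wQ_26_wN_1_rb803305290f0dx4 g_wS_32_wQ_26_wN_1_rb803305290f0ex4 g_wS_32_wQ_26_wN_1_rb803305290f0fx4 g_wS_32_wQ_26_wN_1_rb803305290f10x4 g_wS_32_wQ_26_wN_1_rb803305290f12x4 g_wS_32_wQ_26_wN_1_rb803305290f15x4 g_wS_32_wQ_26_wN_1_rb803305290f16x4 g_wS_32_wQ_26_wN_1_rb803305290f17x4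

theorem g__wS_32_wQ_26_wN_1_rb803305290fx4_4 : GoodKC AS k_wS_32_wQ_26_wN_1_rb803305290fx4_4 := p_wS_32_wQ_26_wN_1_rb803305290fx4_4

theorem g__wS_32_wQ_26_wN_1_rb803305290fx4_3 : GoodKC AS k_wS_32_wQ_26_wN_1_rb803305290fx4_3 := p_wS_32_wQ_26_wN_1_rb803305290fx4_3 g__wS_32_wQ_26_wN_1_rb803305290fx4_4

theorem g_wS_32_wQ_26_wN_1_rb803305290f1cx4 : GoodKC AS c_wS_32_wQ_26_wN_1_rb803305290f1cx4 := p_wS_32_wQ_26_wN_1_rb803305290f1cx2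

theorem g_wS_32_wQ_26_wN_1_rb803305290f1dx4 : GoodKC AS c_wS_32_wQ_26_wN_1_rb803305290f1dx4 := p_wS_32_wQ_26_wN_1_rb803305290f1dx2

theorem g_wS_32_wQ_26_wN_1_rb803305290f1fx4 : GoodKC AS c_wS_32_wQ_26_wN_1_rb803305290f1fx4 := p_wS_32_wQ_26_wN_1_rb803305290f1fx2

theorem g__wS_32_wQ_26_wN_1_rb803305290f22x2_0 : GoodKC AS k_wS_32_wQ_26_wN_1_rb803305290f22x2_0 := p_wS_32_wQ_26_wN_1_rb803305290f22x2_0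

theorem g_wS_32_wQ_26_wN_1_rb803305290f22x4 : GoodKC AS c_wS_32_wQ_26_wN_1_rb803305290f22x4 := p_wS_32_wQ_26_wN_1_rb803305290f22x2 g__wS_32_wQ_26_wN_1_rb803305290f22x2_0

theorem g_wS_32_wQ_26_wN_1_rb803305290f23x4 : GoodKC AS c_wS_32_wQ_26_wN_1_rb803305290f23x4 := p_wS_32_wQ_26_wN_1_rb803305290f23x2

theorem g_wS_32_wQ_26_wN_1_rb803305290f25x4 : GoodKC AS c_wS_32_wQ_26_wN_1_rb803305290f25x4 := p_wS_32_wQ_26_wN_1_rb803305290f25x2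

theorem g_wS_32_wQ_26_wN_1_rb803305290f26x4 : GoodKC AS c_wS_32_wQ_26_wN_1_rb803305290f26x4 := p_wS_32_wQ_26_wN_1_rb803305290f26x2

theorem g_wS_32_wQ_26_wN_1_rb803305290f27x4 : GoodKC AS c_wS_32_wQ_26_wN_1_rb803305290f27x4 := p_wS_32_wQ_26_wN_1_rb803305290f27x2

theorem g_wS_32_wQ_26_wN_1_rb803305290f28x4 : GoodKC AS c_wS_32_wQ_26_wN_1_rb803305290f28x4 := p_wS_32_wQ_26_wN_1_rb803305290f28x2

theorem g_wS_32_wQ_26_wN_1_rb803305290f2cx4 : GoodKC AS c_wS_32_wQ_26_wN_1_rb803305290f2cx4 := p_wS_32_wQ_26_wN_1_rb803305290f2cx2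

theorem g__wS_32_wQ_26_wN_1_rb803305290f2ex2_0 : GoodKC AS k_wS_32_wQ_26_wN_1_rb803305290f2ex2_0 := p_wS_32_wQ_26_wN_1_rb803305290f2ex2_0

theorem g_wS_32_wQ_26_wN_1_rb803305290f2ex4 : GoodKC AS c_wS_32_wQ_26_wN_1_rb803305290f2ex4 := p_wS_32_wQ_26_wN_1_rb803305290f2ex2 g__wS_32_wQ_26_wN_1_rb803305290f2ex2_0

theorem g_wS_32_wQ_26_wN_1_rb803305290f2f1dx2 : GoodKC AS c_wS_32_wQ_26_wN_1_rb803305290f2f1dx2 := p_wS_32_wQ_26_wN_1_rb803305290f2f1dx1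

theorem g_wS_32_wQ_26_wN_1_rb803305290f2f1cx2 : GoodKC AS c_wS_32_wQ_26_wN_1_rb803305290f2f1cx2 := p_wS_32_wQ_26_wN_1_rb803305290f2f1cx1

theorem g_wS_32_wQ_26_wN_1_rb803305290f2f1ax2 : GoodKC AS c_wS_32_wQ_26_wN_1_rb803305290f2f1ax2 := p_wS_32_wQ_26_wN_1_rb803305290f2f1ax1

theorem g_wS_32_wQ_26_wN_1_rb803305290f2f18x2 : GoodKC AS c_wS_32_wQ_26_wN_1_rb803305290f2f18x2 := p_wS_32_wQ_26_wN_1_rb803305290f2f18x2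

theorem g_wS_32_wQ_26_wN_1_rb803305290f2f15x2 : GoodKC AS c_wS_32_wQ_26_wN_1_rb803305290f2f15x2 := p_wS_32_wQ_26_wN_1_rb803305290f2f15x1

theorem g_wS_32_wQ_26_wN_1_rb803305290f2f14x2 : GoodKC AS c_wS_32_wQ_26_wN_1_rb803305290f2f14x2 := p_wS_32_wQ_26_wN_1_rb803305290f2f14x2

theorem g_wS_32_wQ_26_wN_1_rb803305290f2f12x2 : GoodKC AS c_wS_32_wQ_26_wN_1_rb803305290f2f12x2 := p_wS_32_wQ_26_wN_1_rb803305290f2f12x1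

theorem g_wS_32_wQ_26_wN_1_rb803305290f2f11x2 : GoodKC AS c_wS_32_wQ_26_wN_1_rb803305290f2f11x2 := p_wS_32_wQ_26_wN_1_rb803305290f2f11x2

theorem g_wS_32_wQ_26_wN_1_rb803305290f2f0fx2 : GoodKC AS c_wS_32_wQ_26_wN_1_rb803305290f2f0fx2 := p_wS_32_wQ_26_wN_1_rb803305290f2f0fx2

theorem g_wS_32_wQ_26_wN_1_rb803305290f2f0cx2 : GoodKC AS c_wS_32_wQ_26_wN_1_rb803305290f2f0cx2 := p_wS_32_wQ_26_wN_1_rb803305290f2f0cx2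

theorem g__wS_32_wQ_26_wN_1_rb803305290f2fx2_1 : GoodKC AS k_wS_32_wQ_26_wN_1_rb803305290f2fx2_1 := p_wS_32_wQ_26_wN_1_rb803305290f2fx2_1

theorem g__wS_32_wQ_26_wN_1_rb803305290f2fx2_0 : GoodKC AS k_wS_32_wQ_26_wN_1_rb803305290f2fx2_0 := p_wS_32_wQ_26_wN_1_rb803305290f2fx2_0 g__wS_32_wQ_26_wN_1_rb803305290f2fx2_1

theorem g_wS_32_wQ_26_wN_1_rb803305290f2f09x2 : GoodKC AS c_wS_32_wQ_26_wN_1_rb803305290f2f09x2 := p_wS_32_wQ_26_wN_1_rb803305290f2f09x1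

theorem g_wS_32_wQ_26_wN_1_rb803305290f2f08x2 : GoodKC AS c_wS_32_wQ_26_wN_1_rb803305290f2f08x2 := p_wS_32_wQ_26_wN_1_rb803305290f2f08x1

theorem g_wS_32_wQ_26_wN_1_rb803305290f2f07x2 : GoodKC AS c_wS_32_wQ_26_wN_1_rb803305290f2f07x2 := p_wS_32_wQ_26_wN_1_rb803305290f2f07x1

theorem g_wS_32_wQ_26_wN_1_rb803305290f2f06x2 : GoodKC AS c_wS_32_wQ_26_wN_1_rb803305290f2f06x2 := p_wS_32_wQ_26_wN_1_rb803305290f2f06x1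

theorem g_wS_32_wQ_26_wN_1_rb803305290f2f04x2 : GoodKC AS c_wS_32_wQ_26_wN_1_rb803305290f2f04x2 := p_wS_32_wQ_26_wN_1_rb803305290f2f04x1

theorem g_wS_32_wQ_26_wN_1_rb803305290f2f03x2 : GoodKC AS c_wS_32_wQ_26_wN_1_rb803305290f2f03x2 := p_wS_32_wQ_26_wN_1_rb803305290f2f03x1

theorem g_wS_32_wQ_26_wN_1_rb803305290f2f00x2 : GoodKC AS c_wS_32_wQ_26_wN_1_rb803305290f2f00x2 := p_wS_32_wQ_26_wN_1_rb803305290f2f00x1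

theorem g_wS_32_wQ_26_wN_1_rb803305290f2f0104x1 : GoodKC AS c_wS_32_wQ_26_wN_1_rb803305290f2f0104x1 := p_wS_32_wQ_26_wN_1_rb803305290f2f0104x1

theorem g__wS_32_wQ_26_wN_1_rb803305290f2f01x1_1 : GoodKC AS k_wS_32_wQ_26_wN_1_rb803305290f2f01x1_1 := p_wS_32_wQ_26_wN_1_rb803305290f2f01x1_1

theorem g__wS_32_wQ_26_wN_1_rb803305290f2f01x1_3 : GoodKC AS k_wS_32_wQ_26_wN_1_rb803305290f2f01x1_3 := p_wS_32_wQ_26_wN_1_rb803305290f2f01x1_3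

theorem g__wS_32_wQ_26_wN_1_rb803305290f2f01x1_6 : GoodKC AS k_wS_32_wQ_26_wN_1_rb803305290f2f01x1_6 := p_wS_32_wQ_26_wN_1_rb803305290f2f01x1_6

theorem g__wS_32_wQ_26_wN_1_rb803305290f2f01x1_5 : GoodKC AS k_wS_32_wQ_26_wN_1_rb803305290f2f01x1_5 := p_wS_32_wQ_26_wN_1_rb803305290f2f01x1_5 g__wS_32_wQ_26_wN_1_rb803305290f2f01x1_6

theorem g__wS_32_wQ_26_wN_1_rb803305290f2f01x1_4 : GoodKC AS k_wS_32_wQ_26_wN_1_rb803305290f2f01x1_4 := p_wS_32_wQ_26_wN_1_rb803305290f2f01x1_4 g__wS_32_wQ_26_wN_1_rb803305290f2f01x1_5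

theorem g__wS_32_wQ_26_wN_1_rb803305290f2f01x1_2 : GoodKC AS k_wS_32_wQ_26_wN_1_rb803305290f2f01x1_2 := p_wS_32_wQ_26_wN_1_rb803305290f2f01x1_2 g__wS_32_wQ_26_wN_1_rb803305290f2f01x1_3 g__wS_32_wQ_26_wN_1_rb803305290f2f01x1_4

theorem g__wS_32_wQ_26_wN_1_rb803305290f2f01x1_0 : GoodKC AS k_wS_32_wQ_26_wN_1_rb803305290f2f01x1_0 := p_wS_32_wQ_26_wN_1_rb803305290f2f01x1_0 g__wS_32_wQ_26_wN_1_rb803305290f2f01x1_1 g__wS_32_wQ_26_wN_1_rb803305290f2f01x1_2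

theorem g__wS_32_wQ_26_wN_1_rb803305290f2f0101x1_1 : GoodKC AS k_wS_32_wQ_26_wN_1_rb803305290f2f0101x1_1 := p_wS_32_wQ_26_wN_1_rb803305290f2f0101x1_1

theorem g__wS_32_wQ_26_wN_1_rb803305290f2f0101x1_0 : GoodKC AS k_wS_32_wQ_26_wN_1_rb803305290f2f0101x1_0 := p_wS_32_wQ_26_wN_1_rb803305290f2f0101x1_0 g__wS_32_wQ_26_wN_1_rb803305290f2f0101x1_1

theorem g_wS_32_wQ_26_wN_1_rb803305290f2f0101x1 : GoodKC AS c_wS_32_wQ_26_wN_1_rb803305290f2f0101x1 := p_wS_32_wQ_26_wN_1_rb803305290f2f0101x1 g__wS_32_wQ_26_wN_1_rb803305290f2f0101x1_0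

theorem g__wS_32_wQ_26_wN_1_rb803305290f2f0100_3 : GoodKC AS k_wS_32_wQ_26_wN_1_rb803305290f2f0100_3 := p_wS_32_wQ_26_wN_1_rb803305290f2f0100_3

theorem g__wS_32_wQ_26_wN_1_rb803305290f2f0100_2 : GoodKC AS k_wS_32_wQ_26_wN_1_rb803305290f2f0100_2 := p_wS_32_wQ_26_wN_1_rb803305290f2f0100_2 g__wS_32_wQ_26_wN_1_rb803305290f2f0100_3

theorem g__wS_32_wQ_26_wN_1_rb803305290f2f0100_1 : GoodKC AS k_wS_32_wQ_26_wN_1_rb803305290f2f0100_1 := p_wS_32_wQ_26_wN_1_rb803305290f2f0100_1 g__wS_32_wQ_26_wN_1_rb803305290f2f0100_2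

theorem g__wS_32_wQ_26_wN_1_rb803305290f2f0100_0 : GoodKC AS k_wS_32_wQ_26_wN_1_rb803305290f2f0100_0 := p_wS_32_wQ_26_wN_1_rb803305290f2f0100_0 g__wS_32_wQ_26_wN_1_rb803305290f2f0100_1

theorem g__wS_32_wQ_26_wN_1_rb803305290f2f0100_4 : GoodKC AS k_wS_32_wQ_26_wN_1_rb803305290f2f0100_4 := p_wS_32_wQ_26_wN_1_rb803305290f2f0100_4

theorem g__wS_32_wQ_26_wN_1_rb803305290f2f0100_9 : GoodKC AS k_wS_32_wQ_26_wN_1_rb803305290f2f0100_9 := p_wS_32_wQ_26_wN_1_rb803305290f2f0100_9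

theorem g__wS_32_wQ_26_wN_1_rb803305290f2f0100_10 : GoodKC AS k_wS_32_wQ_26_wN_1_rb803305290f2f0100_10 := p_wS_32_wQ_26_wN_1_rb803305290f2f0100_10

theorem g__wS_32_wQ_26_wN_1_rb803305290f2f0100_8 : GoodKC AS k_wS_32_wQ_26_wN_1_rb803305290f2f0100_8 := p_wS_32_wQ_26_wN_1_rb803305290f2f0100_8 g__wS_32_wQ_26_wN_1_rb803305290f2f0100_9 g__wS_32_wQ_26_wN_1_rb803305290f2f0100_10

theorem g__wS_32_wQ_26_wN_1_rb803305290f2f0100_11 : GoodKC AS k_wS_32_wQ_26_wN_1_rb803305290f2f0100_11 := p_wS_32_wQ_26_wN_1_rb803305290f2f0100_11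

theorem g__wS_32_wQ_26_wN_1_rb803305290f2f0100_7 : GoodKC AS k_wS_32_wQ_26_wN_1_rb803305290f2f0100_7 := p_wS_32_wQ_26_wN_1_rb803305290f2f0100_7 g__wS_32_wQ_26_wN_1_rb803305290f2f0100_8 g__wS_32_wQ_26_wN_1_rb803305290f2f0100_11

theorem g__wS_32_wQ_26_wN_1_rb803305290f2f0100_6 : GoodKC AS k_wS_32_wQ_26_wN_1_rb803305290f2f0100_6 := p_wS_32_wQ_26_wN_1_rb803305290f2f0100_6 g__wS_32_wQ_26_wN_1_rb803305290f2f0100_7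

theorem g__wS_32_wQ_26_wN_1_rb803305290f2f0100_13 : GoodKC AS k_wS_32_wQ_26_wN_1_rb803305290f2f0100_13 := p_wS_32_wQ_26_wN_1_rb803305290f2f0100_13

theorem g__wS_32_wQ_26_wN_1_rb803305290f2f0100_15 : GoodKC AS k_wS_32_wQ_26_wN_1_rb803305290f2f0100_15 := p_wS_32_wQ_26_wN_1_rb803305290f2f0100_15

theorem g__wS_32_wQ_26_wN_1_rb803305290f2f0100_16 : GoodKC AS k_wS_32_wQ_26_wN_1_rb803305290f2f0100_16 := p_wS_32_wQ_26_wN_1_rb803305290f2f0100_16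

theorem g__wS_32_wQ_26_wN_1_rb803305290f2f0100_14 : GoodKC AS k_wS_32_wQ_26_wN_1_rb803305290f2f0100_14 := p_wS_32_wQ_26_wN_1_rb803305290f2f0100_14 g__wS_32_wQ_26_wN_1_rb803305290f2f0100_15 g__wS_32_wQ_26_wN_1_rb803305290f2f0100_16

theorem g__wS_32_wQ_26_wN_1_rb803305290f2f0100_12 : GoodKC AS k_wS_32_wQ_26_wN_1_rb803305290f2f0100_12 := p_wS_32_wQ_26_wN_1_rb803305290f2f0100_12 g__wS_32_wQ_26_wN_1_rb803305290f2f0100_13 g__wS_32_wQ_26_wN_1_rb803305290f2f0100_14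

theorem g__wS_32_wQ_26_wN_1_rb803305290f2f0100_5 : GoodKC AS k_wS_32_wQ_26_wN_1_rb803305290f2f0100_5 := p_wS_32_wQ_26_wN_1_rb803305290f2f0100_5 g__wS_32_wQ_26_wN_1_rb803305290f2f0100_6 g__wS_32_wQ_26_wN_1_rb803305290f2f0100_12

theorem g_wS_32_wQ_26_wN_1_rb803305290f2f0100x1 : GoodKC AS c_wS_32_wQ_26_wN_1_rb803305290f2f0100x1 := p_wS_32_wQ_26_wN_1_rb803305290f2f0100 g__wS_32_wQ_26_wN_1_rb803305290f2f0100_0 g__wS_32_wQ_26_wN_1_rb803305290f2f0100_4 g__wS_32_wQ_26_wN_1_rb803305290f2f0100_5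

theorem g__wS_32_wQ_26_wN_1_rb803305290f2f01x1_7 : GoodKC AS k_wS_32_wQ_26_wN_1_rb803305290f2f01x1_7 := p_wS_32_wQ_26_wN_1_rb803305290f2f01x1_7 g_wS_32_wQ_26_wN_1_rb803305290f2f0101x1 g_wS_32_wQ_26_wN_1_rb803305290f2f0100x1

theorem g_wS_32_wQ_26_wN_1_rb803305290f2f0102x1 : GoodKC AS c_wS_32_wQ_26_wN_1_rb803305290f2f0102x1 := p_wS_32_wQ_26_wN_1_rb803305290f2f0102x1

theorem g_wS_32_wQ_26_wN_1_rb803305290f2f0103x1 : GoodKC AS c_wS_32_wQ_26_wN_1_rb803305290f2f0103x1 := p_wS_32_wQ_26_wN_1_rb803305290f2f0103x1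

theorem g_wS_32_wQ_26_wN_1_rb803305290f2f01x2 : GoodKC AS c_wS_32_wQ_26_wN_1_rb803305290f2f01x2 := p_wS_32_wQ_26_wN_1_rb803305290f2f01x1 g_wS_32_wQ_26_wN_1_rb803305290f2f0104x1 g__wS_32_wQ_26_wN_1_rb803305290f2f01x1_0 g__wS_32_wQ_26_wN_1_rb803305290f2f01x1_7 g_wS_32_wQ_26_wN_1_rb803305290f2f0102x1 g_wS_32_wQ_26_wN_1_rb803305290f2f0103x1

theorem g_wS_32_wQ_26_wN_1_rb803305290f2f02x2 : GoodKC AS c_wS_32_wQ_26_wN_1_rb803305290f2f02x2 := p_wS_32_wQ_26_wN_1_rb803305290f2f02x1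

theorem g__wS_32_wQ_26_wN_1_rb803305290f2f05x1_2 : GoodKC AS k_wS_32_wQ_26_wN_1_rb803305290f2f05x1_2 := p_wS_32_wQ_26_wN_1_rb803305290f2f05x1_2

theorem g__wS_32_wQ_26_wN_1_rb803305290f2f05x1_3 : GoodKC AS k_wS_32_wQ_26_wN_1_rb803305290f2f05x1_3 := p_wS_32_wQ_26_wN_1_rb803305290f2f05x1_3

theorem g__wS_32_wQ_26_wN_1_rb803305290f2f05x1_1 : GoodKC AS k_wS_32_wQ_26_wN_1_rb803305290f2f05x1_1 := p_wS_32_wQ_26_wN_1_rb803305290f2f05x1_1 g__wS_32_wQ_26_wN_1_rb803305290f2f05x1_2 g__wS_32_wQ_26_wN_1_rb803305290f2f05x1_3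

theorem g__wS_32_wQ_26_wN_1_rb803305290f2f05x1_0 : GoodKC AS k_wS_32_wQ_26_wN_1_rb803305290f2f05x1_0 := p_wS_32_wQ_26_wN_1_rb803305290f2f05x1_0 g__wS_32_wQ_26_wN_1_rb803305290f2f05x1_1

theorem g_wS_32_wQ_26_wN_1_rb803305290f2f05x2 : GoodKC AS c_wS_32_wQ_26_wN_1_rb803305290f2f05x2 := p_wS_32_wQ_26_wN_1_rb803305290f2f05x1 g__wS_32_wQ_26_wN_1_rb803305290f2f05x1_0

theorem g_wS_32_wQ_26_wN_1_rb803305290f2f0ax2 : GoodKC AS c_wS_32_wQ_26_wN_1_rb803305290f2f0ax2 := p_wS_32_wQ_26_wN_1_rb803305290f2f0ax1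

theorem g__wS_32_wQ_26_wN_1_rb803305290f2fx2_2 : GoodKC AS k_wS_32_wQ_26_wN_1_rb803305290f2fx2_2 := p_wS_32_wQ_26_wN_1_rb803305290f2fx2_2

theorem g_wS_32_wQ_26_wN_1_rb803305290f2f0bx2 : GoodKC AS c_wS_32_wQ_26_wN_1_rb803305290f2f0bx2 := p_wS_32_wQ_26_wN_1_rb803305290f2f0bx2

theorem g_wS_32_wQ_26_wN_1_rb803305290f2f0dx2 : GoodKC AS c_wS_32_wQ_26_wN_1_rb803305290f2f0dx2 := p_wS_32_wQ_26_wN_1_rb803305290f2f0dx2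

theorem g_wS_32_wQ_26_wN_1_rb803305290f2f0ex2 : GoodKC AS c_wS_32_wQ_26_wN_1_rb803305290f2f0ex2 := p_wS_32_wQ_26_wN_1_rb803305290f2f0ex2

theorem g_wS_32_wQ_26_wN_1_rb803305290f2f10x2 : GoodKC AS c_wS_32_wQ_26_wN_1_rb803305290f2f10x2 := p_wS_32_wQ_26_wN_1_rb803305290f2f10x1

theorem g__wS_32_wQ_26_wN_1_rb803305290f2f13x1_0 : GoodKC AS k_wS_32_wQ_26_wN_1_rb803305290f2f13x1_0 := p_wS_32_wQ_26_wN_1_rb803305290f2f13x1_0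

theorem g_wS_32_wQ_26_wN_1_rb803305290f2f13x2 : GoodKC AS c_wS_32_wQ_26_wN_1_rb803305290f2f13x2 := p_wS_32_wQ_26_wN_1_rb803305290f2f13x1 g__wS_32_wQ_26_wN_1_rb803305290f2f13x1_0

theorem g_wS_32_wQ_26_wN_1_rb803305290f2f16x2 : GoodKC AS c_wS_32_wQ_26_wN_1_rb803305290f2f16x2 := p_wS_32_wQ_26_wN_1_rb803305290f2f16x2

theorem g_wS_32_wQ_26_wN_1_rb803305290f2f17x2 : GoodKC AS c_wS_32_wQ_26_wN_1_rb803305290f2f17x2 := p_wS_32_wQ_26_wN_1_rb803305290f2f17x2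

theorem g_wS_32_wQ_26_wN_1_rb803305290f2f19x2 : GoodKC AS c_wS_32_wQ_26_wN_1_rb803305290f2f19x2 := p_wS_32_wQ_26_wN_1_rb803305290f2f19x2

theorem g_wS_32_wQ_26_wN_1_rb803305290f2f1bx2 : GoodKC AS c_wS_32_wQ_26_wN_1_rb803305290f2f1bx2 := p_wS_32_wQ_26_wN_1_rb803305290f2f1bx2

theorem g_wS_32_wQ_26_wN_1_rb803305290f2f1ex2 : GoodKC AS c_wS_32_wQ_26_wN_1_rb803305290f2f1ex2 := p_wS_32_wQ_26_wN_1_rb803305290f2f1ex1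

theorem g_wS_32_wQ_26_wN_1_rb803305290f2fx4 : GoodKC AS c_wS_32_wQ_26_wN_1_rb803305290f2fx4 := p_wS_32_wQ_26_wN_1_rb803305290f2fx2 g_wS_32_wQ_26_wN_1_rb803305290f2f1dx2 g_wS_32_wQ_26_wN_1_rb803305290f2f1cx2 g_wS_32_wQ_26_wN_1_rb803305290f2f1ax2 g_wS_32_wQ_26_wN_1_rb803305290f2f18x2 g_wS_32_wQ_26_wN_1_rb803305290f2f15x2 g_wS_32_wQ_26_wN_1_rb803305290f2f14x2 g_wS_32_wQ_26_wN_1_rb803305290f2f12x2 g_wS_32_wQ_26_wN_1_rb803305290f2f11x2 g_wS_32_wQ_26_wN_1_rb803305290f2f0fx2 g_wS_32_wQ_26_wN_1_rb803305290f2f0cx2 g__wS_32_wQ_26_wN_1_rb803305290f2fx2_0 g_wS_32_wQ_26_wN_1_rb803305290f2f09x2 g_wS_32_wQ_26_wN_1_rb803305290f2f08x2 g_wS_32_wQ_26_wN_1_rb803305290f2f07x2 g_wS_32_wQ_26_wN_1_rb803305290f2f06x2 g_wS_32_wQ_26_wN_1_rb803305290f2f04x2 g_wS_32_wQ_26_wN_1_rb803305290f2f03x2 g_wS_32_wQ_26_wN_1_rb803305290f2f00x2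 g_wS_32_wQ_26_wN_1_rb803305290f2f01x2 g_wS_32_wQ_26_wN_1_rb803305290f2f02x2 g_wS_32_wQ_26_wN_1_rb803305290f2f05x2 g_wS_32_wQ_26_wN_1_rb803305290f2f0ax2 g__wS_32_wQ_26_wN_1_rb803305290f2fx2_2 g_wS_32_wQ_26_wN_1_rb803305290f2f0bx2 g_wS_32_wQ_26_wN_1_rb803305290f2f0dx2 g_wS_32_wQ_26_wN_1_rb803305290f2f0ex2 g_wS_32_wQ_26_wN_1_rb803305290f2f10x2 g_wS_32_wQ_26_wN_1_rb803305290f2f13x2 g_wS_32_wQ_26_wN_1_rb803305290f2f16x2 g_wS_32_wQ_26_wN_1_rb803305290f2f17x2 g_wS_32_wQ_26_wN_1_rb803305290f2f19x2 g_wS_32_wQ_26_wN_1_rb803305290f2f1bx2 g_wS_32_wQ_26_wN_1_rb803305290f2f1ex2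

theorem g_wS_32_wQ_26_wN_1_rb803305290f30x4 : GoodKC AS c_wS_32_wQ_26_wN_1_rb803305290f30x4 := p_wS_32_wQ_26_wN_1_rb803305290f30x2

theorem g_wS_32_wQ_26_wN_1_rb803305290f31x4 : GoodKC AS c_wS_32_wQ_26_wN_1_rb803305290f31x4 := p_wS_32_wQ_26_wN_1_rb803305290f31x2

theorem g_wS_32_wQ_26_wN_1_rb803305290f34x4 : GoodKC AS c_wS_32_wQ_26_wN_1_rb803305290f34x4 := p_wS_32_wQ_26_wN_1_rb803305290f34x2

theorem g__wS_32_wQ_26_wN_1_rb803305290f38x2_1 : GoodKC AS k_wS_32_wQ_26_wN_1_rb803305290f38x2_1 := p_wS_32_wQ_26_wN_1_rb803305290f38x2_1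

theorem g__wS_32_wQ_26_wN_1_rb803305290f38x2_2 : GoodKC AS k_wS_32_wQ_26_wN_1_rb803305290f38x2_2 := p_wS_32_wQ_26_wN_1_rb803305290f38x2_2

theorem g__wS_32_wQ_26_wN_1_rb803305290f38x2_0 : GoodKC AS k_wS_32_wQ_26_wN_1_rb803305290f38x2_0 := p_wS_32_wQ_26_wN_1_rb803305290f38x2_0 g__wS_32_wQ_26_wN_1_rb803305290f38x2_1 g__wS_32_wQ_26_wN_1_rb803305290f38x2_2

theorem g_wS_32_wQ_26_wN_1_rb803305290f38x4 : GoodKC AS c_wS_32_wQ_26_wN_1_rb803305290f38x4 := p_wS_32_wQ_26_wN_1_rb803305290f38x2 g__wS_32_wQ_26_wN_1_rb803305290f38x2_0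

theorem g_wS_32_wQ_26_wN_1_rb803305290f39x4 : GoodKC AS c_wS_32_wQ_26_wN_1_rb803305290f39x4 := p_wS_32_wQ_26_wN_1_rb803305290f39x2

theorem g_wS_32_wQ_26_wN_1_rb803305290fx6 : GoodKC AS c_wS_32_wQ_26_wN_1_rb803305290fx6 := p_wS_32_wQ_26_wN_1_rb803305290fx4 g_wS_32_wQ_26_wN_1_rb803305290f3bx4 g_wS_32_wQ_26_wN_1_rb803305290f3ax4 g_wS_32_wQ_26_wN_1_rb803305290f37x4 g_wS_32_wQ_26_wN_1_rb803305290f36x4 g_wS_32_wQ_26_wN_1_rb803305290f35x4 g_wS_32_wQ_26_wN_1_rb803305290f33x4 g_wS_32_wQ_26_wN_1_rb803305290f32x4 g_wS_32_wQ_26_wN_1_rb803305290f2dx4 g_wS_32_wQ_26_wN_1_rb803305290f2bx4 g_wS_32_wQ_26_wN_1_rb803305290f2ax4 g_wS_32_wQ_26_wN_1_rb803305290f29x4 g_wS_32_wQ_26_wN_1_rb803305290f24x4 g_wS_32_wQ_26_wN_1_rb803305290f21x4 g_wS_32_wQ_26_wN_1_rb803305290f20x4 g_wS_32_wQ_26_wN_1_rb803305290f1ex4 g_wS_32_wQ_26_wN_1_rb803305290f1bx4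 g__wS_32_wQ_26_wN_1_rb803305290fx4_0 g__wS_32_wQ_26_wN_1_rb803305290fx4_3 g_wS_32_wQ_26_wN_1_rb803305290f1cx4 g_wS_32_wQ_26_wN_1_rb803305290f1dx4 g_wS_32_wQ_26_wN_1_rb803305290f1fx4 g_wS_32_wQ_26_wN_1_rb803305290f22x4 g_wS_32_wQ_26_wN_1_rb803305290f23x4 g_wS_32_wQ_26_wN_1_rb803305290f25x4 g_wS_32_wQ_26_wN_1_rb803305290f26x4 g_wS_32_wQ_26_wN_1_rb803305290f27x4 g_wS_32_wQ_26_wN_1_rb803305290f28x4 g_wS_32_wQ_26_wN_1_rb803305290f2cx4 g_wS_32_wQ_26_wN_1_rb803305290f2ex4 g_wS_32_wQ_26_wN_1_rb803305290f2fx4 g_wS_32_wQ_26_wN_1_rb803305290f30x4 g_wS_32_wQ_26_wN_1_rb803305290f31x4 g_wS_32_wQ_26_wN_1_rb803305290f34x4 g_wS_32_wQ_26_wN_1_rb803305290f38x4 g_wS_32_wQ_26_wN_1_rb803305290f39x4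

theorem g_wS_32_wQ_26_wN_1_rb803305290ex6 : GoodKC AS c_wS_32_wQ_26_wN_1_rb803305290ex6 := p_wS_32_wQ_26_wN_1_rb803305290ex4

theorem g__wS_32_wQ_26_wN_1_rb803305290dx4_1 : GoodKC AS k_wS_32_wQ_26_wN_1_rb803305290dx4_1 := p_wS_32_wQ_26_wN_1_rb803305290dx4_1

theorem g__wS_32_wQ_26_wN_1_rb803305290dx4_0 : GoodKC AS k_wS_32_wQ_26_wN_1_rb803305290dx4_0 := p_wS_32_wQ_26_wN_1_rb803305290dx4_0 g__wS_32_wQ_26_wN_1_rb803305290dx4_1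

theorem g__wS_32_wQ_26_wN_1_rb803305290dx4_2 : GoodKC AS k_wS_32_wQ_26_wN_1_rb803305290dx4_2 := p_wS_32_wQ_26_wN_1_rb803305290dx4_2

theorem g_wS_32_wQ_26_wN_1_rb803305290dx6 : GoodKC AS c_wS_32_wQ_26_wN_1_rb803305290dx6 := p_wS_32_wQ_26_wN_1_rb803305290dx4 g__wS_32_wQ_26_wN_1_rb803305290dx4_0 g__wS_32_wQ_26_wN_1_rb803305290dx4_2

theorem g__wS_32_wQ_26_wN_1_rb8033052909x4_1 : GoodKC AS k_wS_32_wQ_26_wN_1_rb8033052909x4_1 := p_wS_32_wQ_26_wN_1_rb8033052909x4_1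

theorem g__wS_32_wQ_26_wN_1_rb8033052909x4_0 : GoodKC AS k_wS_32_wQ_26_wN_1_rb8033052909x4_0 := p_wS_32_wQ_26_wN_1_rb8033052909x4_0 g__wS_32_wQ_26_wN_1_rb8033052909x4_1

theorem g_wS_32_wQ_26_wN_1_rb8033052909x6 : GoodKC AS c_wS_32_wQ_26_wN_1_rb8033052909x6 := p_wS_32_wQ_26_wN_1_rb8033052909x4 g__wS_32_wQ_26_wN_1_rb8033052909x4_0

theorem g_wS_32_wQ_26_wN_1_rb8033052906x6 : GoodKC AS c_wS_32_wQ_26_wN_1_rb8033052906x6 := p_wS_32_wQ_26_wN_1_rb8033052906x4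

theorem g_wS_32_wQ_26_wN_1_rb8033052905x6 : GoodKC AS c_wS_32_wQ_26_wN_1_rb8033052905x6 := p_wS_32_wQ_26_wN_1_rb8033052905x4

theorem g_wS_32_wQ_26_wN_1_rb8033052904x6 : GoodKC AS c_wS_32_wQ_26_wN_1_rb8033052904x6 := p_wS_32_wQ_26_wN_1_rb8033052904x4

theorem g_wS_32_wQ_26_wN_1_rb8033052901x6 : GoodKC AS c_wS_32_wQ_26_wN_1_rb8033052901x6 := p_wS_32_wQ_26_wN_1_rb8033052901x4

theorem g_wS_32_wQ_26_wN_1_rb8033052902x6 : GoodKC AS c_wS_32_wQ_26_wN_1_rb8033052902x6 := p_wS_32_wQ_26_wN_1_rb8033052902x4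

theorem g_wS_32_wQ_26_wN_1_rb8033052903x6 : GoodKC AS c_wS_32_wQ_26_wN_1_rb8033052903x6 := p_wS_32_wQ_26_wN_1_rb8033052903x4

theorem g__wS_32_wQ_26_wN_1_rb80330529x6_0 : GoodKC AS k_wS_32_wQ_26_wN_1_rb80330529x6_0 := p_wS_32_wQ_26_wN_1_rb80330529x6_0 g_wS_32_wQ_26_wN_1_rb8033052901x6 g_wS_32_wQ_26_wN_1_rb8033052902x6 g_wS_32_wQ_26_wN_1_rb8033052903x6

theorem g__wS_32_wQ_26_wN_1_rb80330529x6_3 : GoodKC AS k_wS_32_wQ_26_wN_1_rb80330529x6_3 := p_wS_32_wQ_26_wN_1_rb80330529x6_3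

theorem g__wS_32_wQ_26_wN_1_rb80330529x6_5 : GoodKC AS k_wS_32_wQ_26_wN_1_rb80330529x6_5 := p_wS_32_wQ_26_wN_1_rb80330529x6_5

theorem g__wS_32_wQ_26_wN_1_rb80330529x6_7 : GoodKC AS k_wS_32_wQ_26_wN_1_rb80330529x6_7 := p_wS_32_wQ_26_wN_1_rb80330529x6_7

theorem g__wS_32_wQ_26_wN_1_rb80330529x6_6 : GoodKC AS k_wS_32_wQ_26_wN_1_rb80330529x6_6 := p_wS_32_wQ_26_wN_1_rb80330529x6_6 g__wS_32_wQ_26_wN_1_rb80330529x6_7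

theorem g__wS_32_wQ_26_wN_1_rb80330529x6_9 : GoodKC AS k_wS_32_wQ_26_wN_1_rb80330529x6_9 := p_wS_32_wQ_26_wN_1_rb80330529x6_9

theorem g__wS_32_wQ_26_wN_1_rb80330529x6_10 : GoodKC AS k_wS_32_wQ_26_wN_1_rb80330529x6_10 := p_wS_32_wQ_26_wN_1_rb80330529x6_10

theorem g__wS_32_wQ_26_wN_1_rb8033052900v4_3 : GoodKC AS k_wS_32_wQ_26_wN_1_rb8033052900v4_3 := p_wS_32_wQ_26_wN_1_rb8033052900v4_3

theorem g__wS_32_wQ_26_wN_1_rb8033052900v4_2 : GoodKC AS k_wS_32_wQ_26_wN_1_rb8033052900v4_2 := p_wS_32_wQ_26_wN_1_rb8033052900v4_2 g__wS_32_wQ_26_wN_1_rb8033052900v4_3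

theorem g__wS_32_wQ_26_wN_1_rb8033052900v4_4 : GoodKC AS k_wS_32_wQ_26_wN_1_rb8033052900v4_4 := p_wS_32_wQ_26_wN_1_rb8033052900v4_4

theorem g__wS_32_wQ_26_wN_1_rb8033052900v4_1 : GoodKC AS k_wS_32_wQ_26_wN_1_rb8033052900v4_1 := p_wS_32_wQ_26_wN_1_rb8033052900v4_1 g__wS_32_wQ_26_wN_1_rb8033052900v4_2 g__wS_32_wQ_26_wN_1_rb8033052900v4_4

theorem g__wS_32_wQ_26_wN_1_rb8033052900v4_0 : GoodKC AS k_wS_32_wQ_26_wN_1_rb8033052900v4_0 := p_wS_32_wQ_26_wN_1_rb8033052900v4_0 g__wS_32_wQ_26_wN_1_rb8033052900v4_1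

theorem g_wS_32_wQ_26_wN_1_rb8033052900x6 : GoodKC AS c_wS_32_wQ_26_wN_1_rb8033052900x6 := p_wS_32_wQ_26_wN_1_rb8033052900x4 g__wS_32_wQ_26_wN_1_rb8033052900v4_0

theorem g__wS_32_wQ_26_wN_1_rb80330529x6_15 : GoodKC AS k_wS_32_wQ_26_wN_1_rb80330529x6_15 := p_wS_32_wQ_26_wN_1_rb80330529x6_15 g_wS_32_wQ_26_wN_1_rb8033052900x6

theorem g__wS_32_wQ_26_wN_1_rb80330529x6_16 : GoodKC AS k_wS_32_wQ_26_wN_1_rb80330529x6_16 := p_wS_32_wQ_26_wN_1_rb80330529x6_16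

theorem g__wS_32_wQ_26_wN_1_rb80330529x6_14 : GoodKC AS k_wS_32_wQ_26_wN_1_rb80330529x6_14 := p_wS_32_wQ_26_wN_1_rb80330529x6_14 g__wS_32_wQ_26_wN_1_rb80330529x6_15 g__wS_32_wQ_26_wN_1_rb80330529x6_16

theorem g__wS_32_wQ_26_wN_1_rb80330529x6_13 : GoodKC AS k_wS_32_wQ_26_wN_1_rb80330529x6_13 := p_wS_32_wQ_26_wN_1_rb80330529x6_13 g__wS_32_wQ_26_wN_1_rb80330529x6_14

theorem g__wS_32_wQ_26_wN_1_rb80330529x6_12 : GoodKC AS k_wS_32_wQ_26_wN_1_rb80330529x6_12 := p_wS_32_wQ_26_wN_1_rb80330529x6_12 g__wS_32_wQ_26_wN_1_rb80330529x6_13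

theorem g__wS_32_wQ_26_wN_1_rb80330529x6_11 : GoodKC AS k_wS_32_wQ_26_wN_1_rb80330529x6_11 := p_wS_32_wQ_26_wN_1_rb80330529x6_11 g__wS_32_wQ_26_wN_1_rb80330529x6_12

theorem g__wS_32_wQ_26_wN_1_rb80330529x6_8 : GoodKC AS k_wS_32_wQ_26_wN_1_rb80330529x6_8 := p_wS_32_wQ_26_wN_1_rb80330529x6_8 g__wS_32_wQ_26_wN_1_rb80330529x6_9 g__wS_32_wQ_26_wN_1_rb80330529x6_10 g__wS_32_wQ_26_wN_1_rb80330529x6_11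

theorem g__wS_32_wQ_26_wN_1_rb80330529x6_4 : GoodKC AS k_wS_32_wQ_26_wN_1_rb80330529x6_4 := p_wS_32_wQ_26_wN_1_rb80330529x6_4 g__wS_32_wQ_26_wN_1_rb80330529x6_5 g__wS_32_wQ_26_wN_1_rb80330529x6_6 g__wS_32_wQ_26_wN_1_rb80330529x6_8

theorem g__wS_32_wQ_26_wN_1_rb80330529x6_2 : GoodKC AS k_wS_32_wQ_26_wN_1_rb80330529x6_2 := p_wS_32_wQ_26_wN_1_rb80330529x6_2 g__wS_32_wQ_26_wN_1_rb80330529x6_3 g__wS_32_wQ_26_wN_1_rb80330529x6_4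

theorem g__wS_32_wQ_26_wN_1_rb80330529x6_1 : GoodKC AS k_wS_32_wQ_26_wN_1_rb80330529x6_1 := p_wS_32_wQ_26_wN_1_rb80330529x6_1 g__wS_32_wQ_26_wN_1_rb80330529x6_2

theorem g__wS_32_wQ_26_wN_1_rb80330529x6_22 : GoodKC AS k_wS_32_wQ_26_wN_1_rb80330529x6_22 := p_wS_32_wQ_26_wN_1_rb80330529x6_22

theorem g__wS_32_wQ_26_wN_1_rb80330529x6_21 : GoodKC AS k_wS_32_wQ_26_wN_1_rb80330529x6_21 := p_wS_32_wQ_26_wN_1_rb80330529x6_21 g__wS_32_wQ_26_wN_1_rb80330529x6_22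

theorem g__wS_32_wQ_26_wN_1_rb80330529x6_20 : GoodKC AS k_wS_32_wQ_26_wN_1_rb80330529x6_20 := p_wS_32_wQ_26_wN_1_rb80330529x6_20 g__wS_32_wQ_26_wN_1_rb80330529x6_21

theorem g__wS_32_wQ_26_wN_1_rb80330529x6_19 : GoodKC AS k_wS_32_wQ_26_wN_1_rb80330529x6_19 := p_wS_32_wQ_26_wN_1_rb80330529x6_19 g__wS_32_wQ_26_wN_1_rb80330529x6_20

theorem g__wS_32_wQ_26_wN_1_rb80330529x6_25 : GoodKC AS k_wS_32_wQ_26_wN_1_rb80330529x6_25 := p_wS_32_wQ_26_wN_1_rb80330529x6_25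

theorem g__wS_32_wQ_26_wN_1_rb80330529x6_26 : GoodKC AS k_wS_32_wQ_26_wN_1_rb80330529x6_26 := p_wS_32_wQ_26_wN_1_rb80330529x6_26

theorem g__wS_32_wQ_26_wN_1_rb80330529x6_24 : GoodKC AS k_wS_32_wQ_26_wN_1_rb80330529x6_24 := p_wS_32_wQ_26_wN_1_rb80330529x6_24 g__wS_32_wQ_26_wN_1_rb80330529x6_25 g__wS_32_wQ_26_wN_1_rb80330529x6_26

theorem g__wS_32_wQ_26_wN_1_rb80330529x6_23 : GoodKC AS k_wS_32_wQ_26_wN_1_rb80330529x6_23 := p_wS_32_wQ_26_wN_1_rb80330529x6_23 g__wS_32_wQ_26_wN_1_rb80330529x6_24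

theorem g__wS_32_wQ_26_wN_1_rb80330529x6_18 : GoodKC AS k_wS_32_wQ_26_wN_1_rb80330529x6_18 := p_wS_32_wQ_26_wN_1_rb80330529x6_18 g__wS_32_wQ_26_wN_1_rb80330529x6_19 g__wS_32_wQ_26_wN_1_rb80330529x6_23

theorem g__wS_32_wQ_26_wN_1_rb80330529x6_17 : GoodKC AS k_wS_32_wQ_26_wN_1_rb80330529x6_17 := p_wS_32_wQ_26_wN_1_rb80330529x6_17 g__wS_32_wQ_26_wN_1_rb80330529x6_18

theorem g_wS_32_wQ_26_wN_1_rb8033052907x6 : GoodKC AS c_wS_32_wQ_26_wN_1_rb8033052907x6 := p_wS_32_wQ_26_wN_1_rb8033052907x4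

theorem g_wS_32_wQ_26_wN_1_rb8033052908x6 : GoodKC AS c_wS_32_wQ_26_wN_1_rb8033052908x6 := p_wS_32_wQ_26_wN_1_rb8033052908x4

theorem g_wS_32_wQ_26_wN_1_rb803305290a0ex4 : GoodKC AS c_wS_32_wQ_26_wN_1_rb803305290a0ex4 := p_wS_32_wQ_26_wN_1_rb803305290a0ex2

theorem g_wS_32_wQ_26_wN_1_rb803305290a0dx4 : GoodKC AS c_wS_32_wQ_26_wN_1_rb803305290a0dx4 := p_wS_32_wQ_26_wN_1_rb803305290a0dx2

theorem g_wS_32_wQ_26_wN_1_rb803305290a0cx4 : GoodKC AS c_wS_32_wQ_26_wN_1_rb803305290a0cx4 := p_wS_32_wQ_26_wN_1_rb803305290a0cx2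

theorem g_wS_32_wQ_26_wN_1_rb803305290a09x4 : GoodKC AS c_wS_32_wQ_26_wN_1_rb803305290a09x4 := p_wS_32_wQ_26_wN_1_rb803305290a09x2

theorem g_wS_32_wQ_26_wN_1_rb803305290a05x4 : GoodKC AS c_wS_32_wQ_26_wN_1_rb803305290a05x4 := p_wS_32_wQ_26_wN_1_rb803305290a05x2

theorem g_wS_32_wQ_26_wN_1_rb803305290a04x4 : GoodKC AS c_wS_32_wQ_26_wN_1_rb803305290a04x4 := p_wS_32_wQ_26_wN_1_rb803305290a04x2

theorem g_wS_32_wQ_26_wN_1_rb803305290a01x4 : GoodKC AS c_wS_32_wQ_26_wN_1_rb803305290a01x4 := p_wS_32_wQ_26_wN_1_rb803305290a01x2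

theorem g_wS_32_wQ_26_wN_1_rb803305290a00x4 : GoodKC AS c_wS_32_wQ_26_wN_1_rb803305290a00x4 := p_wS_32_wQ_26_wN_1_rb803305290a00x2

theorem g_wS_32_wQ_26_wN_1_rb803305290a02x4 : GoodKC AS c_wS_32_wQ_26_wN_1_rb803305290a02x4 := p_wS_32_wQ_26_wN_1_rb803305290a02x2

theorem g_wS_32_wQ_26_wN_1_rb803305290a03x4 : GoodKC AS c_wS_32_wQ_26_wN_1_rb803305290a03x4 := p_wS_32_wQ_26_wN_1_rb803305290a03x2

theorem g_wS_32_wQ_26_wN_1_rb803305290a06x4 : GoodKC AS c_wS_32_wQ_26_wN_1_rb803305290a06x4 := p_wS_32_wQ_26_wN_1_rb803305290a06x2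

theorem g_wS_32_wQ_26_wN_1_rb803305290a07x4 : GoodKC AS c_wS_32_wQ_26_wN_1_rb803305290a07x4 := p_wS_32_wQ_26_wN_1_rb803305290a07x2

theorem g_wS_32_wQ_26_wN_1_rb803305290a08x4 : GoodKC AS c_wS_32_wQ_26_wN_1_rb803305290a08x4 := p_wS_32_wQ_26_wN_1_rb803305290a08x2

theorem g__wS_32_wQ_26_wN_1_rb803305290ax4_2 : GoodKC AS k_wS_32_wQ_26_wN_1_rb803305290ax4_2 := p_wS_32_wQ_26_wN_1_rb803305290ax4_2

theorem g__wS_32_wQ_26_wN_1_rb803305290ax4_1 : GoodKC AS k_wS_32_wQ_26_wN_1_rb803305290ax4_1 := p_wS_32_wQ_26_wN_1_rb803305290ax4_1 g__wS_32_wQ_26_wN_1_rb803305290ax4_2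

theorem g_wS_32_wQ_26_wN_1_rb803305290a0ax4 : GoodKC AS c_wS_32_wQ_26_wN_1_rb803305290a0ax4 := p_wS_32_wQ_26_wN_1_rb803305290a0ax2

theorem g_wS_32_wQ_26_wN_1_rb803305290a0bx4 : GoodKC AS c_wS_32_wQ_26_wN_1_rb803305290a0bx4 := p_wS_32_wQ_26_wN_1_rb803305290a0bx2

theorem g__wS_32_wQ_26_wN_1_rb803305290ax4_3 : GoodKC AS k_wS_32_wQ_26_wN_1_rb803305290ax4_3 := p_wS_32_wQ_26_wN_1_rb803305290ax4_3

theorem g__wS_32_wQ_26_wN_1_rb803305290ax4_0 : GoodKC AS k_wS_32_wQ_26_wN_1_rb803305290ax4_0 := p_wS_32_wQ_26_wN_1_rb803305290ax4_0 g_wS_32_wQ_26_wN_1_rb803305290a0ex4 g_wS_32_wQ_26_wN_1_rb803305290a0dx4 g_wS_32_wQ_26_wN_1_rb803305290a0cx4 g_wS_32_wQ_26_wN_1_rb803305290a09x4 g_wS_32_wQ_26_wN_1_rb803305290a05x4 g_wS_32_wQ_26_wN_1_rb803305290a04x4 g_wS_32_wQ_26_wN_1_rb803305290a01x4 g_wS_32_wQ_26_wN_1_rb803305290a00x4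 g_wS_32_wQ_26_wN_1_rb803305290a02x4 g_wS_32_wQ_26_wN_1_rb803305290a03x4 g_wS_32_wQ_26_wN_1_rb803305290a06x4 g_wS_32_wQ_26_wN_1_rb803305290a07x4 g_wS_32_wQ_26_wN_1_rb803305290a08x4 g__wS_32_wQ_26_wN_1_rb803305290ax4_1 g_wS_32_wQ_26_wN_1_rb803305290a0ax4 g_wS_32_wQ_26_wN_1_rb803305290a0bx4 g__wS_32_wQ_26_wN_1_rb803305290ax4_3

theorem g__wS_32_wQ_26_wN_1_rb803305290ax4_5 : GoodKC AS k_wS_32_wQ_26_wN_1_rb803305290ax4_5 := p_wS_32_wQ_26_wN_1_rb803305290ax4_5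

theorem g__wS_32_wQ_26_wN_1_rb803305290ax4_4 : GoodKC AS k_wS_32_wQ_26_wN_1_rb803305290ax4_4 := p_wS_32_wQ_26_wN_1_rb803305290ax4_4 g__wS_32_wQ_26_wN_1_rb803305290ax4_5

theorem g__wS_32_wQ_26_wN_1_rb803305290ax4_10 : GoodKC AS k_wS_32_wQ_26_wN_1_rb803305290ax4_10 := p_wS_32_wQ_26_wN_1_rb803305290ax4_10

theorem g__wS_32_wQ_26_wN_1_rb803305290ax4_13 : GoodKC AS k_wS_32_wQ_26_wN_1_rb803305290ax4_13 := p_wS_32_wQ_26_wN_1_rb803305290ax4_13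

theorem g__wS_32_wQ_26_wN_1_rb803305290ax4_12 : GoodKC AS k_wS_32_wQ_26_wN_1_rb803305290ax4_12 := p_wS_32_wQ_26_wN_1_rb803305290ax4_12 g__wS_32_wQ_26_wN_1_rb803305290ax4_13

theorem g__wS_32_wQ_26_wN_1_rb803305290ax4_11 : GoodKC AS k_wS_32_wQ_26_wN_1_rb803305290ax4_11 := p_wS_32_wQ_26_wN_1_rb803305290ax4_11 g__wS_32_wQ_26_wN_1_rb803305290ax4_12

theorem g__wS_32_wQ_26_wN_1_rb803305290ax4_9 : GoodKC AS k_wS_32_wQ_26_wN_1_rb803305290ax4_9 := p_wS_32_wQ_26_wN_1_rb803305290ax4_9 g__wS_32_wQ_26_wN_1_rb803305290ax4_10 g__wS_32_wQ_26_wN_1_rb803305290ax4_11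

theorem g__wS_32_wQ_26_wN_1_rb803305290ax4_8 : GoodKC AS k_wS_32_wQ_26_wN_1_rb803305290ax4_8 := p_wS_32_wQ_26_wN_1_rb803305290ax4_8 g__wS_32_wQ_26_wN_1_rb803305290ax4_9

theorem g__wS_32_wQ_26_wN_1_rb803305290ax4_7 : GoodKC AS k_wS_32_wQ_26_wN_1_rb803305290ax4_7 := p_wS_32_wQ_26_wN_1_rb803305290ax4_7 g__wS_32_wQ_26_wN_1_rb803305290ax4_8

theorem g__wS_32_wQ_26_wN_1_rb803305290ax4_6 : GoodKC AS k_wS_32_wQ_26_wN_1_rb803305290ax4_6 := p_wS_32_wQ_26_wN_1_rb803305290ax4_6 g__wS_32_wQ_26_wN_1_rb803305290ax4_7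

theorem g_wS_32_wQ_26_wN_1_rb803305290ax6 : GoodKC AS c_wS_32_wQ_26_wN_1_rb803305290ax6 := p_wS_32_wQ_26_wN_1_rb803305290ax4 g__wS_32_wQ_26_wN_1_rb803305290ax4_0 g__wS_32_wQ_26_wN_1_rb803305290ax4_4 g__wS_32_wQ_26_wN_1_rb803305290ax4_6

theorem g_wS_32_wQ_26_wN_1_rb803305290bx6 : GoodKC AS c_wS_32_wQ_26_wN_1_rb803305290bx6 := p_wS_32_wQ_26_wN_1_rb803305290bx4

theorem g_wS_32_wQ_26_wN_1_rb803305290cx6 : GoodKC AS c_wS_32_wQ_26_wN_1_rb803305290cx6 := p_wS_32_wQ_26_wN_1_rb803305290cx4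

theorem g__wS_32_wQ_26_wN_1_rb80330529x6_29 : GoodKC AS k_wS_32_wQ_26_wN_1_rb80330529x6_29 := p_wS_32_wQ_26_wN_1_rb80330529x6_29

theorem g__wS_32_wQ_26_wN_1_rb80330529x6_30 : GoodKC AS k_wS_32_wQ_26_wN_1_rb80330529x6_30 := p_wS_32_wQ_26_wN_1_rb80330529x6_30

theorem g__wS_32_wQ_26_wN_1_rb80330529x6_28 : GoodKC AS k_wS_32_wQ_26_wN_1_rb80330529x6_28 := p_wS_32_wQ_26_wN_1_rb80330529x6_28 g__wS_32_wQ_26_wN_1_rb80330529x6_29 g__wS_32_wQ_26_wN_1_rb80330529x6_30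

theorem g__wS_32_wQ_26_wN_1_rb80330529x6_31 : GoodKC AS k_wS_32_wQ_26_wN_1_rb80330529x6_31 := p_wS_32_wQ_26_wN_1_rb80330529x6_31

theorem g__wS_32_wQ_26_wN_1_rb80330529x6_32 : GoodKC AS k_wS_32_wQ_26_wN_1_rb80330529x6_32 := p_wS_32_wQ_26_wN_1_rb80330529x6_32

theorem g__wS_32_wQ_26_wN_1_rb80330529x6_27 : GoodKC AS k_wS_32_wQ_26_wN_1_rb80330529x6_27 := p_wS_32_wQ_26_wN_1_rb80330529x6_27 g__wS_32_wQ_26_wN_1_rb80330529x6_28 g__wS_32_wQ_26_wN_1_rb80330529x6_31 g__wS_32_wQ_26_wN_1_rb80330529x6_32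

theorem g_wS_32_wQ_26_wN_1_rb8033052911x6 : GoodKC AS c_wS_32_wQ_26_wN_1_rb8033052911x6 := p_wS_32_wQ_26_wN_1_rb8033052911x4

theorem g_wS_32_wQ_26_wN_1_rb8033052912x6 : GoodKC AS c_wS_32_wQ_26_wN_1_rb8033052912x6 := p_wS_32_wQ_26_wN_1_rb8033052912x4

theorem g__wS_32_wQ_26_wN_1_rb8033052913x4_0 : GoodKC AS k_wS_32_wQ_26_wN_1_rb8033052913x4_0 := p_wS_32_wQ_26_wN_1_rb8033052913x4_0

theorem g__wS_32_wQ_26_wN_1_rb8033052913x4_2 : GoodKC AS k_wS_32_wQ_26_wN_1_rb8033052913x4_2 := p_wS_32_wQ_26_wN_1_rb8033052913x4_2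

theorem g__wS_32_wQ_26_wN_1_rb8033052913x4_3 : GoodKC AS k_wS_32_wQ_26_wN_1_rb8033052913x4_3 := p_wS_32_wQ_26_wN_1_rb8033052913x4_3

theorem g__wS_32_wQ_26_wN_1_rb8033052913x4_5 : GoodKC AS k_wS_32_wQ_26_wN_1_rb8033052913x4_5 := p_wS_32_wQ_26_wN_1_rb8033052913x4_5

theorem g__wS_32_wQ_26_wN_1_rb8033052913x4_4 : GoodKC AS k_wS_32_wQ_26_wN_1_rb8033052913x4_4 := p_wS_32_wQ_26_wN_1_rb8033052913x4_4 g__wS_32_wQ_26_wN_1_rb8033052913x4_5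

theorem g__wS_32_wQ_26_wN_1_rb8033052913x4_1 : GoodKC AS k_wS_32_wQ_26_wN_1_rb8033052913x4_1 := p_wS_32_wQ_26_wN_1_rb8033052913x4_1 g__wS_32_wQ_26_wN_1_rb8033052913x4_2 g__wS_32_wQ_26_wN_1_rb8033052913x4_3 g__wS_32_wQ_26_wN_1_rb8033052913x4_4

theorem g_wS_32_wQ_26_wN_1_rb8033052913x6 : GoodKC AS c_wS_32_wQ_26_wN_1_rb8033052913x6 := p_wS_32_wQ_26_wN_1_rb8033052913x4 g__wS_32_wQ_26_wN_1_rb8033052913x4_0 g__wS_32_wQ_26_wN_1_rb8033052913x4_1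

theorem g_wS_32_wQ_26_wN_1_rb80330529x17 : GoodKC AS c_wS_32_wQ_26_wN_1_rb80330529x17 := p_wS_32_wQ_26_wN_1_rb80330529x6 g_wS_32_wQ_26_wN_1_rb8033052915x6 g_wS_32_wQ_26_wN_1_rb8033052914x6 g_wS_32_wQ_26_wN_1_rb8033052910x6 g_wS_32_wQ_26_wN_1_rb803305290fx6 g_wS_32_wQ_26_wN_1_rb803305290ex6 g_wS_32_wQ_26_wN_1_rb803305290dx6 g_wS_32_wQ_26_wN_1_rb8033052909x6 g_wS_32_wQ_26_wN_1_rb8033052906x6 g_wS_32_wQ_26_wN_1_rb8033052905x6 g_wS_32_wQ_26_wN_1_rb8033052904x6 g__wS_32_wQ_26_wN_1_rb80330529x6_0 g__wS_32_wQ_26_wN_1_rb80330529x6_1 g__wS_32_wQ_26_wN_1_rb80330529x6_17 g_wS_32_wQ_26_wN_1_rb8033052907x6 g_wS_32_wQ_26_wN_1_rb8033052908x6 g_wS_32_wQ_26_wN_1_rb803305290ax6 g_wS_32_wQ_26_wN_1_rb803305290bx6 g_wS_32_wQ_26_wN_1_rb803305290cx6 g__wS_32_wQ_26_wN_1_rb80330529x6_27 g_wS_32_wQ_26_wN_1_rb8033052911x6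 g_wS_32_wQ_26_wN_1_rb8033052912x6 g_wS_32_wQ_26_wN_1_rb8033052913x6

theorem g__wS_32_wQ_26_wN_1_rb80330528x7_1 : GoodKC AS k_wS_32_wQ_26_wN_1_rb80330528x7_1 := p_wS_32_wQ_26_wN_1_rb80330528x7_1

theorem g__wS_32_wQ_26_wN_1_rb80330528x7_0 : GoodKC AS k_wS_32_wQ_26_wN_1_rb80330528x7_0 := p_wS_32_wQ_26_wN_1_rb80330528x7_0 g__wS_32_wQ_26_wN_1_rb80330528x7_1

theorem g_wS_32_wQ_26_wN_1_rb80330528x17 : GoodKC AS c_wS_32_wQ_26_wN_1_rb80330528x17 := p_wS_32_wQ_26_wN_1_rb80330528x7 g__wS_32_wQ_26_wN_1_rb80330528x7_0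

theorem g_wS_32_wQ_26_wN_1_rb80330527x17 : GoodKC AS c_wS_32_wQ_26_wN_1_rb80330527x17 := p_wS_32_wQ_26_wN_1_rb80330527x7

theorem g__wS_32_wQ_26_wN_1_rb80330526x7_1 : GoodKC AS k_wS_32_wQ_26_wN_1_rb80330526x7_1 := p_wS_32_wQ_26_wN_1_rb80330526x7_1

theorem g__wS_32_wQ_26_wN_1_rb80330526x7_0 : GoodKC AS k_wS_32_wQ_26_wN_1_rb80330526x7_0 := p_wS_32_wQ_26_wN_1_rb80330526x7_0 g__wS_32_wQ_26_wN_1_rb80330526x7_1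

theorem g_wS_32_wQ_26_wN_1_rb80330526x17 : GoodKC AS c_wS_32_wQ_26_wN_1_rb80330526x17 := p_wS_32_wQ_26_wN_1_rb80330526x7 g__wS_32_wQ_26_wN_1_rb80330526x7_0

theorem g_wS_32_wQ_26_wN_1_rb80330525x17 : GoodKC AS c_wS_32_wQ_26_wN_1_rb80330525x17 := p_wS_32_wQ_26_wN_1_rb80330525x7

theorem g__wS_32_wQ_26_wN_1_rb80330524x7_2 : GoodKC AS k_wS_32_wQ_26_wN_1_rb80330524x7_2 := p_wS_32_wQ_26_wN_1_rb80330524x7_2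

theorem g__wS_32_wQ_26_wN_1_rb80330524x7_1 : GoodKC AS k_wS_32_wQ_26_wN_1_rb80330524x7_1 := p_wS_32_wQ_26_wN_1_rb80330524x7_1 g__wS_32_wQ_26_wN_1_rb80330524x7_2

theorem g__wS_32_wQ_26_wN_1_rb80330524x7_3 : GoodKC AS k_wS_32_wQ_26_wN_1_rb80330524x7_3 := p_wS_32_wQ_26_wN_1_rb80330524x7_3

theorem g__wS_32_wQ_26_wN_1_rb80330524x7_0 : GoodKC AS k_wS_32_wQ_26_wN_1_rb80330524x7_0 := p_wS_32_wQ_26_wN_1_rb80330524x7_0 g__wS_32_wQ_26_wN_1_rb80330524x7_1 g__wS_32_wQ_26_wN_1_rb80330524x7_3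

theorem g__wS_32_wQ_26_wN_1_rb80330524x7_4 : GoodKC AS k_wS_32_wQ_26_wN_1_rb80330524x7_4 := p_wS_32_wQ_26_wN_1_rb80330524x7_4

theorem g__wS_32_wQ_26_wN_1_rb80330524x7_6 : GoodKC AS k_wS_32_wQ_26_wN_1_rb80330524x7_6 := p_wS_32_wQ_26_wN_1_rb80330524x7_6

theorem g__wS_32_wQ_26_wN_1_rb80330524x7_5 : GoodKC AS k_wS_32_wQ_26_wN_1_rb80330524x7_5 := p_wS_32_wQ_26_wN_1_rb80330524x7_5 g__wS_32_wQ_26_wN_1_rb80330524x7_6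

theorem g_wS_32_wQ_26_wN_1_rb80330524x17 : GoodKC AS c_wS_32_wQ_26_wN_1_rb80330524x17 := p_wS_32_wQ_26_wN_1_rb80330524x7 g__wS_32_wQ_26_wN_1_rb80330524x7_0 g__wS_32_wQ_26_wN_1_rb80330524x7_4 g__wS_32_wQ_26_wN_1_rb80330524x7_5

theorem g__wS_32_wQ_26_wN_1_rb80330523x7_0 : GoodKC AS k_wS_32_wQ_26_wN_1_rb80330523x7_0 := p_wS_32_wQ_26_wN_1_rb80330523x7_0

theorem g_wS_32_wQ_26_wN_1_rb80330523x17 : GoodKC AS c_wS_32_wQ_26_wN_1_rb80330523x17 := p_wS_32_wQ_26_wN_1_rb80330523x7 g__wS_32_wQ_26_wN_1_rb80330523x7_0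

theorem g_wS_32_wQ_26_wN_1_rb80330522x17 : GoodKC AS c_wS_32_wQ_26_wN_1_rb80330522x17 := p_wS_32_wQ_26_wN_1_rb80330522x7

theorem g_wS_32_wQ_26_wN_1_rb80330521x17 : GoodKC AS c_wS_32_wQ_26_wN_1_rb80330521x17 := p_wS_32_wQ_26_wN_1_rb80330521x7

theorem g__wS_32_wQ_26_wN_1_rb8033051cx7_2 : GoodKC AS k_wS_32_wQ_26_wN_1_rb8033051cx7_2 := p_wS_32_wQ_26_wN_1_rb8033051cx7_2

theorem g__wS_32_wQ_26_wN_1_rb8033051cx7_3 : GoodKC AS k_wS_32_wQ_26_wN_1_rb8033051cx7_3 := p_wS_32_wQ_26_wN_1_rb8033051cx7_3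

theorem g__wS_32_wQ_26_wN_1_rb8033051cx7_1 : GoodKC AS k_wS_32_wQ_26_wN_1_rb8033051cx7_1 := p_wS_32_wQ_26_wN_1_rb8033051cx7_1 g__wS_32_wQ_26_wN_1_rb8033051cx7_2 g__wS_32_wQ_26_wN_1_rb8033051cx7_3

theorem g__wS_32_wQ_26_wN_1_rb8033051cx7_0 : GoodKC AS k_wS_32_wQ_26_wN_1_rb8033051cx7_0 := p_wS_32_wQ_26_wN_1_rb8033051cx7_0 g__wS_32_wQ_26_wN_1_rb8033051cx7_1

theorem g_wS_32_wQ_26_wN_1_rb8033051cx17 : GoodKC AS c_wS_32_wQ_26_wN_1_rb8033051cx17 := p_wS_32_wQ_26_wN_1_rb8033051cx7 g__wS_32_wQ_26_wN_1_rb8033051cx7_0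

theorem g__wS_32_wQ_26_wN_1_rb8033051bx7_4 : GoodKC AS k_wS_32_wQ_26_wN_1_rb8033051bx7_4 := p_wS_32_wQ_26_wN_1_rb8033051bx7_4

theorem g__wS_32_wQ_26_wN_1_rb8033051bx7_3 : GoodKC AS k_wS_32_wQ_26_wN_1_rb8033051bx7_3 := p_wS_32_wQ_26_wN_1_rb8033051bx7_3 g__wS_32_wQ_26_wN_1_rb8033051bx7_4

theorem g__wS_32_wQ_26_wN_1_rb8033051bx7_2 : GoodKC AS k_wS_32_wQ_26_wN_1_rb8033051bx7_2 := p_wS_32_wQ_26_wN_1_rb8033051bx7_2 g__wS_32_wQ_26_wN_1_rb8033051bx7_3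

theorem g__wS_32_wQ_26_wN_1_rb8033051bx7_1 : GoodKC AS k_wS_32_wQ_26_wN_1_rb8033051bx7_1 := p_wS_32_wQ_26_wN_1_rb8033051bx7_1 g__wS_32_wQ_26_wN_1_rb8033051bx7_2

theorem g__wS_32_wQ_26_wN_1_rb8033051bx7_0 : GoodKC AS k_wS_32_wQ_26_wN_1_rb8033051bx7_0 := p_wS_32_wQ_26_wN_1_rb8033051bx7_0 g__wS_32_wQ_26_wN_1_rb8033051bx7_1

theorem g__wS_32_wQ_26_wN_1_rb8033051bx7_5 : GoodKC AS k_wS_32_wQ_26_wN_1_rb8033051bx7_5 := p_wS_32_wQ_26_wN_1_rb8033051bx7_5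

theorem g__wS_32_wQ_26_wN_1_rb8033051bx7_7 : GoodKC AS k_wS_32_wQ_26_wN_1_rb8033051bx7_7 := p_wS_32_wQ_26_wN_1_rb8033051bx7_7

theorem g__wS_32_wQ_26_wN_1_rb8033051bx7_6 : GoodKC AS k_wS_32_wQ_26_wN_1_rb8033051bx7_6 := p_wS_32_wQ_26_wN_1_rb8033051bx7_6 g__wS_32_wQ_26_wN_1_rb8033051bx7_7

theorem g_wS_32_wQ_26_wN_1_rb8033051bx17 : GoodKC AS c_wS_32_wQ_26_wN_1_rb8033051bx17 := p_wS_32_wQ_26_wN_1_rb8033051bx7 g__wS_32_wQ_26_wN_1_rb8033051bx7_0 g__wS_32_wQ_26_wN_1_rb8033051bx7_5 g__wS_32_wQ_26_wN_1_rb8033051bx7_6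

theorem g__wS_32_wQ_26_wN_1_rb80330519x7_1 : GoodKC AS k_wS_32_wQ_26_wN_1_rb80330519x7_1 := p_wS_32_wQ_26_wN_1_rb80330519x7_1

theorem g__wS_32_wQ_26_wN_1_rb80330519x7_0 : GoodKC AS k_wS_32_wQ_26_wN_1_rb80330519x7_0 := p_wS_32_wQ_26_wN_1_rb80330519x7_0 g__wS_32_wQ_26_wN_1_rb80330519x7_1

theorem g_wS_32_wQ_26_wN_1_rb80330519x17 : GoodKC AS c_wS_32_wQ_26_wN_1_rb80330519x17 := p_wS_32_wQ_26_wN_1_rb80330519x7 g__wS_32_wQ_26_wN_1_rb80330519x7_0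

theorem g_wS_32_wQ_26_wN_1_rb80330514x17 : GoodKC AS c_wS_32_wQ_26_wN_1_rb80330514x17 := p_wS_32_wQ_26_wN_1_rb80330514x7

theorem g__wS_32_wQ_26_wN_1_rb80330513x7_1 : GoodKC AS k_wS_32_wQ_26_wN_1_rb80330513x7_1 := p_wS_32_wQ_26_wN_1_rb80330513x7_1

theorem g__wS_32_wQ_26_wN_1_rb80330513x7_0 : GoodKC AS k_wS_32_wQ_26_wN_1_rb80330513x7_0 := p_wS_32_wQ_26_wN_1_rb80330513x7_0 g__wS_32_wQ_26_wN_1_rb80330513x7_1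

theorem g_wS_32_wQ_26_wN_1_rb80330513x17 : GoodKC AS c_wS_32_wQ_26_wN_1_rb80330513x17 := p_wS_32_wQ_26_wN_1_rb80330513x7 g__wS_32_wQ_26_wN_1_rb80330513x7_0

theorem g_wS_32_wQ_26_wN_1_rb80330511x17 : GoodKC AS c_wS_32_wQ_26_wN_1_rb80330511x17 := p_wS_32_wQ_26_wN_1_rb80330511x7

theorem g_wS_32_wQ_26_wN_1_rb8033050fx17 : GoodKC AS c_wS_32_wQ_26_wN_1_rb8033050fx17 := p_wS_32_wQ_26_wN_1_rb8033050fx7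

theorem g_wS_32_wQ_26_wN_1_rb8033050dx17 : GoodKC AS c_wS_32_wQ_26_wN_1_rb8033050dx17 := p_wS_32_wQ_26_wN_1_rb8033050dx7

theorem g_wS_32_wQ_26_wN_1_rb8033050cx17 : GoodKC AS c_wS_32_wQ_26_wN_1_rb8033050cx17 := p_wS_32_wQ_26_wN_1_rb8033050cx7

theorem g__wS_32_wQ_26_wN_1_rb8033050bx7_0 : GoodKC AS k_wS_32_wQ_26_wN_1_rb8033050bx7_0 := p_wS_32_wQ_26_wN_1_rb8033050bx7_0

theorem g_wS_32_wQ_26_wN_1_rb8033050bx17 : GoodKC AS c_wS_32_wQ_26_wN_1_rb8033050bx17 := p_wS_32_wQ_26_wN_1_rb8033050bx7 g__wS_32_wQ_26_wN_1_rb8033050bx7_0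

theorem g_wS_32_wQ_26_wN_1_rb8033050ax17 : GoodKC AS c_wS_32_wQ_26_wN_1_rb8033050ax17 := p_wS_32_wQ_26_wN_1_rb8033050ax7

theorem g_wS_32_wQ_26_wN_1_rb80330508x17 : GoodKC AS c_wS_32_wQ_26_wN_1_rb80330508x17 := p_wS_32_wQ_26_wN_1_rb80330508x7

theorem g_wS_32_wQ_26_wN_1_rb80330505x17 : GoodKC AS c_wS_32_wQ_26_wN_1_rb80330505x17 := p_wS_32_wQ_26_wN_1_rb80330505x7

theorem g_wS_32_wQ_26_wN_1_rb80330504x17 : GoodKC AS c_wS_32_wQ_26_wN_1_rb80330504x17 := p_wS_32_wQ_26_wN_1_rb80330504x7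

theorem g_wS_32_wQ_26_wN_1_rb80330503x17 : GoodKC AS c_wS_32_wQ_26_wN_1_rb80330503x17 := p_wS_32_wQ_26_wN_1_rb80330503x7

theorem g__wS_32_wQ_26_wN_1_rb80330500v7_0 : GoodKC AS k_wS_32_wQ_26_wN_1_rb80330500v7_0 := p_wS_32_wQ_26_wN_1_rb80330500v7_0

theorem g_wS_32_wQ_26_wN_1_rb80330500x17 : GoodKC AS c_wS_32_wQ_26_wN_1_rb80330500x17 := p_wS_32_wQ_26_wN_1_rb80330500x7 g__wS_32_wQ_26_wN_1_rb80330500v7_0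

theorem g_wS_32_wQ_26_wN_1_rb80330501x17 : GoodKC AS c_wS_32_wQ_26_wN_1_rb80330501x17 := p_wS_32_wQ_26_wN_1_rb80330501x7

theorem g_wS_32_wQ_26_wN_1_rb80330502x17 : GoodKC AS c_wS_32_wQ_26_wN_1_rb80330502x17 := p_wS_32_wQ_26_wN_1_rb80330502x7

theorem g_wS_32_wQ_26_wN_1_rb80330506x17 : GoodKC AS c_wS_32_wQ_26_wN_1_rb80330506x17 := p_wS_32_wQ_26_wN_1_rb80330506x7

theorem g_wS_32_wQ_26_wN_1_rb80330507x17 : GoodKC AS c_wS_32_wQ_26_wN_1_rb80330507x17 := p_wS_32_wQ_26_wN_1_rb80330507x7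

theorem g_wS_32_wQ_26_wN_1_rb80330509x17 : GoodKC AS c_wS_32_wQ_26_wN_1_rb80330509x17 := p_wS_32_wQ_26_wN_1_rb80330509x7

theorem g_wS_32_wQ_26_wN_1_rb8033050ex17 : GoodKC AS c_wS_32_wQ_26_wN_1_rb8033050ex17 := p_wS_32_wQ_26_wN_1_rb8033050ex7

theorem g_wS_32_wQ_26_wN_1_rb80330510x17 : GoodKC AS c_wS_32_wQ_26_wN_1_rb80330510x17 := p_wS_32_wQ_26_wN_1_rb80330510x7

theorem g__wQ_26_wN_1_rb803305x17_0 : GoodKC AS k_wQ_26_wN_1_rb803305x17_0 := p_wQ_26_wN_1_rb803305x17_0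

theorem g__wQ_26_wN_1_rb803305x17_2 : GoodKC AS k_wQ_26_wN_1_rb803305x17_2 := p_wQ_26_wN_1_rb803305x17_2

theorem g__wQ_26_wN_1_rb803305x17_6 : GoodKC AS k_wQ_26_wN_1_rb803305x17_6 := p_wQ_26_wN_1_rb803305x17_6

theorem g__wQ_26_wN_1_rb803305x17_5 : GoodKC AS k_wQ_26_wN_1_rb803305x17_5 := p_wQ_26_wN_1_rb803305x17_5 g__wQ_26_wN_1_rb803305x17_6

theorem g__wQ_26_wN_1_rb803305x17_4 : GoodKC AS k_wQ_26_wN_1_rb803305x17_4 := p_wQ_26_wN_1_rb803305x17_4 g__wQ_26_wN_1_rb803305x17_5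

theorem g__wQ_26_wN_1_rb803305x17_3 : GoodKC AS k_wQ_26_wN_1_rb803305x17_3 := p_wQ_26_wN_1_rb803305x17_3 g__wQ_26_wN_1_rb803305x17_4

theorem g__wQ_26_wN_1_rb803305x17_1 : GoodKC AS k_wQ_26_wN_1_rb803305x17_1 := p_wQ_26_wN_1_rb803305x17_1 g__wQ_26_wN_1_rb803305x17_2 g__wQ_26_wN_1_rb803305x17_3

theorem g__wQ_26_wN_1_rb803305x17_10 : GoodKC AS k_wQ_26_wN_1_rb803305x17_10 := p_wQ_26_wN_1_rb803305x17_10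

theorem g__wQ_26_wN_1_rb803305x17_9 : GoodKC AS k_wQ_26_wN_1_rb803305x17_9 := p_wQ_26_wN_1_rb803305x17_9 g__wQ_26_wN_1_rb803305x17_10

theorem g__wQ_26_wN_1_rb803305x17_13 : GoodKC AS k_wQ_26_wN_1_rb803305x17_13 := p_wQ_26_wN_1_rb803305x17_13

theorem g__wQ_26_wN_1_rb803305x17_14 : GoodKC AS k_wQ_26_wN_1_rb803305x17_14 := p_wQ_26_wN_1_rb803305x17_14

theorem g__wQ_26_wN_1_rb803305x17_12 : GoodKC AS k_wQ_26_wN_1_rb803305x17_12 := p_wQ_26_wN_1_rb803305x17_12 g__wQ_26_wN_1_rb803305x17_13 g__wQ_26_wN_1_rb803305x17_14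

theorem g__wQ_26_wN_1_rb803305x17_11 : GoodKC AS k_wQ_26_wN_1_rb803305x17_11 := p_wQ_26_wN_1_rb803305x17_11 g__wQ_26_wN_1_rb803305x17_12

theorem g__wQ_26_wN_1_rb803305x17_24 : GoodKC AS k_wQ_26_wN_1_rb803305x17_24 := p_wQ_26_wN_1_rb803305x17_24

theorem g__wQ_26_wN_1_rb803305x17_26 : GoodKC AS k_wQ_26_wN_1_rb803305x17_26 := p_wQ_26_wN_1_rb803305x17_26

theorem g__wQ_26_wN_1_rb803305x17_30 : GoodKC AS k_wQ_26_wN_1_rb803305x17_30 := p_wQ_26_wN_1_rb803305x17_30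

theorem g__wQ_26_wN_1_rb803305x17_29 : GoodKC AS k_wQ_26_wN_1_rb803305x17_29 := p_wQ_26_wN_1_rb803305x17_29 g__wQ_26_wN_1_rb803305x17_30

theorem g__wQ_26_wN_1_rb803305x17_28 : GoodKC AS k_wQ_26_wN_1_rb803305x17_28 := p_wQ_26_wN_1_rb803305x17_28 g__wQ_26_wN_1_rb803305x17_29

theorem g__wQ_26_wN_1_rb803305x17_33 : GoodKC AS k_wQ_26_wN_1_rb803305x17_33 := p_wQ_26_wN_1_rb803305x17_33

theorem g__wQ_26_wN_1_rb803305x17_32 : GoodKC AS k_wQ_26_wN_1_rb803305x17_32 := p_wQ_26_wN_1_rb803305x17_32 g__wQ_26_wN_1_rb803305x17_33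

theorem g__wQ_26_wN_1_rb803305x17_31 : GoodKC AS k_wQ_26_wN_1_rb803305x17_31 := p_wQ_26_wN_1_rb803305x17_31 g__wQ_26_wN_1_rb803305x17_32

theorem g__wQ_26_wN_1_rb803305x17_27 : GoodKC AS k_wQ_26_wN_1_rb803305x17_27 := p_wQ_26_wN_1_rb803305x17_27 g__wQ_26_wN_1_rb803305x17_28 g__wQ_26_wN_1_rb803305x17_31

theorem g__wQ_26_wN_1_rb803305x17_25 : GoodKC AS k_wQ_26_wN_1_rb803305x17_25 := p_wQ_26_wN_1_rb803305x17_25 g__wQ_26_wN_1_rb803305x17_26 g__wQ_26_wN_1_rb803305x17_27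

theorem g__wQ_26_wN_1_rb803305x17_23 : GoodKC AS k_wQ_26_wN_1_rb803305x17_23 := p_wQ_26_wN_1_rb803305x17_23 g__wQ_26_wN_1_rb803305x17_24 g__wQ_26_wN_1_rb803305x17_25

theorem g__wQ_26_wN_1_rb803305x17_22 : GoodKC AS k_wQ_26_wN_1_rb803305x17_22 := p_wQ_26_wN_1_rb803305x17_22 g__wQ_26_wN_1_rb803305x17_23

theorem g__wQ_26_wN_1_rb803305x17_36 : GoodKC AS k_wQ_26_wN_1_rb803305x17_36 := p_wQ_26_wN_1_rb803305x17_36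

theorem g__wQ_26_wN_1_rb803305x17_35 : GoodKC AS k_wQ_26_wN_1_rb803305x17_35 := p_wQ_26_wN_1_rb803305x17_35 g__wQ_26_wN_1_rb803305x17_36

theorem g__wQ_26_wN_1_rb803305x17_37 : GoodKC AS k_wQ_26_wN_1_rb803305x17_37 := p_wQ_26_wN_1_rb803305x17_37

theorem g__wQ_26_wN_1_rb803305x17_39 : GoodKC AS k_wQ_26_wN_1_rb803305x17_39 := p_wQ_26_wN_1_rb803305x17_39

theorem g__wQ_26_wN_1_rb803305x17_38 : GoodKC AS k_wQ_26_wN_1_rb803305x17_38 := p_wQ_26_wN_1_rb803305x17_38 g__wQ_26_wN_1_rb803305x17_39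

theorem g__wQ_26_wN_1_rb803305x17_34 : GoodKC AS k_wQ_26_wN_1_rb803305x17_34 := p_wQ_26_wN_1_rb803305x17_34 g__wQ_26_wN_1_rb803305x17_35 g__wQ_26_wN_1_rb803305x17_37 g__wQ_26_wN_1_rb803305x17_38

theorem g__wQ_26_wN_1_rb803305x17_21 : GoodKC AS k_wQ_26_wN_1_rb803305x17_21 := p_wQ_26_wN_1_rb803305x17_21 g__wQ_26_wN_1_rb803305x17_22 g__wQ_26_wN_1_rb803305x17_34

theorem g__wQ_26_wN_1_rb803305x17_20 : GoodKC AS k_wQ_26_wN_1_rb803305x17_20 := p_wQ_26_wN_1_rb803305x17_20 g__wQ_26_wN_1_rb803305x17_21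

theorem g__wQ_26_wN_1_rb803305x17_40 : GoodKC AS k_wQ_26_wN_1_rb803305x17_40 := p_wQ_26_wN_1_rb803305x17_40

theorem g__wQ_26_wN_1_rb803305x17_19 : GoodKC AS k_wQ_26_wN_1_rb803305x17_19 := p_wQ_26_wN_1_rb803305x17_19 g__wQ_26_wN_1_rb803305x17_20 g__wQ_26_wN_1_rb803305x17_40

theorem g__wQ_26_wN_1_rb803305x17_18 : GoodKC AS k_wQ_26_wN_1_rb803305x17_18 := p_wQ_26_wN_1_rb803305x17_18 g__wQ_26_wN_1_rb803305x17_19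

theorem g__wQ_26_wN_1_rb803305x17_17 : GoodKC AS k_wQ_26_wN_1_rb803305x17_17 := p_wQ_26_wN_1_rb803305x17_17 g__wQ_26_wN_1_rb803305x17_18

theorem g__wQ_26_wN_1_rb803305x17_16 : GoodKC AS k_wQ_26_wN_1_rb803305x17_16 := p_wQ_26_wN_1_rb803305x17_16 g__wQ_26_wN_1_rb803305x17_17

theorem g__wQ_26_wN_1_rb803305x17_15 : GoodKC AS k_wQ_26_wN_1_rb803305x17_15 := p_wQ_26_wN_1_rb803305x17_15 g__wQ_26_wN_1_rb803305x17_16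

theorem g__wQ_26_wN_1_rb803305x17_8 : GoodKC AS k_wQ_26_wN_1_rb803305x17_8 := p_wQ_26_wN_1_rb803305x17_8 g__wQ_26_wN_1_rb803305x17_9 g__wQ_26_wN_1_rb803305x17_11 g__wQ_26_wN_1_rb803305x17_15

theorem g__wQ_26_wN_1_rb803305x17_44 : GoodKC AS k_wQ_26_wN_1_rb803305x17_44 := p_wQ_26_wN_1_rb803305x17_44

theorem g__wQ_26_wN_1_rb803305x17_43 : GoodKC AS k_wQ_26_wN_1_rb803305x17_43 := p_wQ_26_wN_1_rb803305x17_43 g__wQ_26_wN_1_rb803305x17_44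

theorem g__wQ_26_wN_1_rb803305x17_46 : GoodKC AS k_wQ_26_wN_1_rb803305x17_46 := p_wQ_26_wN_1_rb803305x17_46

theorem g__wQ_26_wN_1_rb803305x17_49 : GoodKC AS k_wQ_26_wN_1_rb803305x17_49 := p_wQ_26_wN_1_rb803305x17_49

theorem g__wQ_26_wN_1_rb803305x17_48 : GoodKC AS k_wQ_26_wN_1_rb803305x17_48 := p_wQ_26_wN_1_rb803305x17_48 g__wQ_26_wN_1_rb803305x17_49

theorem g__wQ_26_wN_1_rb803305x17_50 : GoodKC AS k_wQ_26_wN_1_rb803305x17_50 := p_wQ_26_wN_1_rb803305x17_50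

theorem g__wQ_26_wN_1_rb803305x17_52 : GoodKC AS k_wQ_26_wN_1_rb803305x17_52 := p_wQ_26_wN_1_rb803305x17_52

theorem g__wQ_26_wN_1_rb803305x17_51 : GoodKC AS k_wQ_26_wN_1_rb803305x17_51 := p_wQ_26_wN_1_rb803305x17_51 g__wQ_26_wN_1_rb803305x17_52

theorem g__wQ_26_wN_1_rb803305x17_47 : GoodKC AS k_wQ_26_wN_1_rb803305x17_47 := p_wQ_26_wN_1_rb803305x17_47 g__wQ_26_wN_1_rb803305x17_48 g__wQ_26_wN_1_rb803305x17_50 g__wQ_26_wN_1_rb803305x17_51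

theorem g__wQ_26_wN_1_rb803305x17_54 : GoodKC AS k_wQ_26_wN_1_rb803305x17_54 := p_wQ_26_wN_1_rb803305x17_54

theorem g__wQ_26_wN_1_rb803305x17_53 : GoodKC AS k_wQ_26_wN_1_rb803305x17_53 := p_wQ_26_wN_1_rb803305x17_53 g__wQ_26_wN_1_rb803305x17_54

theorem g__wQ_26_wN_1_rb803305x17_45 : GoodKC AS k_wQ_26_wN_1_rb803305x17_45 := p_wQ_26_wN_1_rb803305x17_45 g__wQ_26_wN_1_rb803305x17_46 g__wQ_26_wN_1_rb803305x17_47 g__wQ_26_wN_1_rb803305x17_53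

theorem g__wQ_26_wN_1_rb803305x17_42 : GoodKC AS k_wQ_26_wN_1_rb803305x17_42 := p_wQ_26_wN_1_rb803305x17_42 g__wQ_26_wN_1_rb803305x17_43 g__wQ_26_wN_1_rb803305x17_45

theorem g__wQ_26_wN_1_rb803305x17_55 : GoodKC AS k_wQ_26_wN_1_rb803305x17_55 := p_wQ_26_wN_1_rb803305x17_55

theorem g__wQ_26_wN_1_rb803305x17_41 : GoodKC AS k_wQ_26_wN_1_rb803305x17_41 := p_wQ_26_wN_1_rb803305x17_41 g__wQ_26_wN_1_rb803305x17_42 g__wQ_26_wN_1_rb803305x17_55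

theorem g__wQ_26_wN_1_rb803305x17_7 : GoodKC AS k_wQ_26_wN_1_rb803305x17_7 := p_wQ_26_wN_1_rb803305x17_7 g__wQ_26_wN_1_rb803305x17_8 g__wQ_26_wN_1_rb803305x17_41

theorem g__wQ_26_wN_1_rb803305x17_56 : GoodKC AS k_wQ_26_wN_1_rb803305x17_56 := p_wQ_26_wN_1_rb803305x17_56

theorem g_wS_32_wQ_26_wN_1_rb80330512x17 : GoodKC AS c_wS_32_wQ_26_wN_1_rb80330512x17 := p_wS_32_wQ_26_wN_1_rb80330512x7

theorem g__wS_32_wQ_26_wN_1_rb8033051546x4_0 : GoodKC AS k_wS_32_wQ_26_wN_1_rb8033051546x4_0 := p_wS_32_wQ_26_wN_1_rb8033051546x4_0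

theorem g_wS_32_wQ_26_wN_1_rb8033051546x6 : GoodKC AS c_wS_32_wQ_26_wN_1_rb8033051546x6 := p_wS_32_wQ_26_wN_1_rb8033051546x4 g__wS_32_wQ_26_wN_1_rb8033051546x4_0

theorem g_wS_32_wQ_26_wN_1_rb8033051545x6 : GoodKC AS c_wS_32_wQ_26_wN_1_rb8033051545x6 := p_wS_32_wQ_26_wN_1_rb8033051545x4

theorem g_wS_32_wQ_26_wN_1_rb8033051544x6 : GoodKC AS c_wS_32_wQ_26_wN_1_rb8033051544x6 := p_wS_32_wQ_26_wN_1_rb8033051544x4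

theorem g_wS_32_wQ_26_wN_1_rb8033051543x6 : GoodKC AS c_wS_32_wQ_26_wN_1_rb8033051543x6 := p_wS_32_wQ_26_wN_1_rb8033051543x4

theorem g__wS_32_wQ_26_wN_1_rb8033051542x4_0 : GoodKC AS k_wS_32_wQ_26_wN_1_rb8033051542x4_0 := p_wS_32_wQ_26_wN_1_rb8033051542x4_0

theorem g_wS_32_wQ_26_wN_1_rb8033051542x6 : GoodKC AS c_wS_32_wQ_26_wN_1_rb8033051542x6 := p_wS_32_wQ_26_wN_1_rb8033051542x4 g__wS_32_wQ_26_wN_1_rb8033051542x4_0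

theorem g__wS_32_wQ_26_wN_1_rb803305153f1ax3_1 : GoodKC AS k_wS_32_wQ_26_wN_1_rb803305153f1ax3_1 := p_wS_32_wQ_26_wN_1_rb803305153f1ax3_1

theorem g__wS_32_wQ_26_wN_1_rb803305153f1ax3_0 : GoodKC AS k_wS_32_wQ_26_wN_1_rb803305153f1ax3_0 := p_wS_32_wQ_26_wN_1_rb803305153f1ax3_0 g__wS_32_wQ_26_wN_1_rb803305153f1ax3_1

theorem g_wS_32_wQ_26_wN_1_rb803305153f1ax4 : GoodKC AS c_wS_32_wQ_26_wN_1_rb803305153f1ax4 := p_wS_32_wQ_26_wN_1_rb803305153f1ax3 g__wS_32_wQ_26_wN_1_rb803305153f1ax3_0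

theorem g_wS_32_wQ_26_wN_1_rb803305153f16x4 : GoodKC AS c_wS_32_wQ_26_wN_1_rb803305153f16x4 := p_wS_32_wQ_26_wN_1_rb803305153f16x3

theorem g_wS_32_wQ_26_wN_1_rb803305153f15x4 : GoodKC AS c_wS_32_wQ_26_wN_1_rb803305153f15x4 := p_wS_32_wQ_26_wN_1_rb803305153f15x3

theorem g_wS_32_wQ_26_wN_1_rb803305153f14x4 : GoodKC AS c_wS_32_wQ_26_wN_1_rb803305153f14x4 := p_wS_32_wQ_26_wN_1_rb803305153f14x3

theorem g_wS_32_wQ_26_wN_1_rb803305153f13x4 : GoodKC AS c_wS_32_wQ_26_wN_1_rb803305153f13x4 := p_wS_32_wQ_26_wN_1_rb803305153f13x3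

theorem g_wS_32_wQ_26_wN_1_rb803305153f12x4 : GoodKC AS c_wS_32_wQ_26_wN_1_rb803305153f12x4 := p_wS_32_wQ_26_wN_1_rb803305153f12x3

theorem g_wS_32_wQ_26_wN_1_rb803305153f10x4 : GoodKC AS c_wS_32_wQ_26_wN_1_rb803305153f10x4 := p_wS_32_wQ_26_wN_1_rb803305153f10x3

theorem g_wS_32_wQ_26_wN_1_rb803305153f0fx4 : GoodKC AS c_wS_32_wQ_26_wN_1_rb803305153f0fx4 := p_wS_32_wQ_26_wN_1_rb803305153f0fx3

theorem g__wS_32_wQ_26_wN_1_rb803305153fx4_0 : GoodKC AS k_wS_32_wQ_26_wN_1_rb803305153fx4_0 := p_wS_32_wQ_26_wN_1_rb803305153fx4_0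

theorem g_wS_32_wQ_26_wN_1_rb803305153f0dx4 : GoodKC AS c_wS_32_wQ_26_wN_1_rb803305153f0dx4 := p_wS_32_wQ_26_wN_1_rb803305153f0dx3

theorem g_wS_32_wQ_26_wN_1_rb803305153f0cx4 : GoodKC AS c_wS_32_wQ_26_wN_1_rb803305153f0cx4 := p_wS_32_wQ_26_wN_1_rb803305153f0cx3

theorem g_wS_32_wQ_26_wN_1_rb803305153f09x4 : GoodKC AS c_wS_32_wQ_26_wN_1_rb803305153f09x4 := p_wS_32_wQ_26_wN_1_rb803305153f09x3

theorem g_wS_32_wQ_26_wN_1_rb803305153f07x4 : GoodKC AS c_wS_32_wQ_26_wN_1_rb803305153f07x4 := p_wS_32_wQ_26_wN_1_rb803305153f07x3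

theorem g_wS_32_wQ_26_wN_1_rb803305153f04x4 : GoodKC AS c_wS_32_wQ_26_wN_1_rb803305153f04x4 := p_wS_32_wQ_26_wN_1_rb803305153f04x3

theorem g_wS_32_wQ_26_wN_1_rb803305153f03x4 : GoodKC AS c_wS_32_wQ_26_wN_1_rb803305153f03x4 := p_wS_32_wQ_26_wN_1_rb803305153f03x3

theorem g_wS_32_wQ_26_wN_1_rb803305153f01x4 : GoodKC AS c_wS_32_wQ_26_wN_1_rb803305153f01x4 := p_wS_32_wQ_26_wN_1_rb803305153f01x3

theorem g_wS_32_wQ_26_wN_1_rb803305153f00x4 : GoodKC AS c_wS_32_wQ_26_wN_1_rb803305153f00x4 := p_wS_32_wQ_26_wN_1_rb803305153f00x3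

theorem g_wS_32_wQ_26_wN_1_rb803305153f02x4 : GoodKC AS c_wS_32_wQ_26_wN_1_rb803305153f02x4 := p_wS_32_wQ_26_wN_1_rb803305153f02x3

theorem g__wS_32_wQ_26_wN_1_rb803305153fx4_2 : GoodKC AS k_wS_32_wQ_26_wN_1_rb803305153fx4_2 := p_wS_32_wQ_26_wN_1_rb803305153fx4_2

theorem g__wS_32_wQ_26_wN_1_rb803305153f05x2_0 : GoodKC AS k_wS_32_wQ_26_wN_1_rb803305153f05x2_0 := p_wS_32_wQ_26_wN_1_rb803305153f05x2_0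

theorem g__wS_32_wQ_26_wN_1_rb803305153f05x2_1 : GoodKC AS k_wS_32_wQ_26_wN_1_rb803305153f05x2_1 := p_wS_32_wQ_26_wN_1_rb803305153f05x2_1

theorem g_wS_32_wQ_26_wN_1_rb803305153f05x4 : GoodKC AS c_wS_32_wQ_26_wN_1_rb803305153f05x4 := p_wS_32_wQ_26_wN_1_rb803305153f05x2 g__wS_32_wQ_26_wN_1_rb803305153f05x2_0 g__wS_32_wQ_26_wN_1_rb803305153f05x2_1

theorem g_wS_32_wQ_26_wN_1_rb803305153f06x4 : GoodKC AS c_wS_32_wQ_26_wN_1_rb803305153f06x4 := p_wS_32_wQ_26_wN_1_rb803305153f06x3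

theorem g_wS_32_wQ_26_wN_1_rb803305153f08x4 : GoodKC AS c_wS_32_wQ_26_wN_1_rb803305153f08x4 := p_wS_32_wQ_26_wN_1_rb803305153f08x3

theorem g_wS_32_wQ_26_wN_1_rb803305153f0ax4 : GoodKC AS c_wS_32_wQ_26_wN_1_rb803305153f0ax4 := p_wS_32_wQ_26_wN_1_rb803305153f0ax3

theorem g_wS_32_wQ_26_wN_1_rb803305153f0bx4 : GoodKC AS c_wS_32_wQ_26_wN_1_rb803305153f0bx4 := p_wS_32_wQ_26_wN_1_rb803305153f0bx3

theorem g__wS_32_wQ_26_wN_1_rb803305153fx4_1 : GoodKC AS k_wS_32_wQ_26_wN_1_rb803305153fx4_1 := p_wS_32_wQ_26_wN_1_rb803305153fx4_1 g_wS_32_wQ_26_wN_1_rb803305153f09x4 g_wS_32_wQ_26_wN_1_rb803305153f07x4 g_wS_32_wQ_26_wN_1_rb803305153f04x4 g_wS_32_wQ_26_wN_1_rb803305153f03x4 g_wS_32_wQ_26_wN_1_rb803305153f01x4 g_wS_32_wQ_26_wN_1_rb803305153f00x4 g_wS_32_wQ_26_wN_1_rb803305153f02x4 g__wS_32_wQ_26_wN_1_rb803305153fx4_2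 g_wS_32_wQ_26_wN_1_rb803305153f05x4 g_wS_32_wQ_26_wN_1_rb803305153f06x4 g_wS_32_wQ_26_wN_1_rb803305153f08x4 g_wS_32_wQ_26_wN_1_rb803305153f0ax4 g_wS_32_wQ_26_wN_1_rb803305153f0bx4

theorem g_wS_32_wQ_26_wN_1_rb803305153f0ex4 : GoodKC AS c_wS_32_wQ_26_wN_1_rb803305153f0ex4 := p_wS_32_wQ_26_wN_1_rb803305153f0ex3

theorem g_wS_32_wQ_26_wN_1_rb803305153f11x4 : GoodKC AS c_wS_32_wQ_26_wN_1_rb803305153f11x4 := p_wS_32_wQ_26_wN_1_rb803305153f11x3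

theorem g_wS_32_wQ_26_wN_1_rb803305153f17x4 : GoodKC AS c_wS_32_wQ_26_wN_1_rb803305153f17x4 := p_wS_32_wQ_26_wN_1_rb803305153f17x3

theorem g_wS_32_wQ_26_wN_1_rb803305153f18x4 : GoodKC AS c_wS_32_wQ_26_wN_1_rb803305153f18x4 := p_wS_32_wQ_26_wN_1_rb803305153f18x3

theorem g_wS_32_wQ_26_wN_1_rb803305153f19x4 : GoodKC AS c_wS_32_wQ_26_wN_1_rb803305153f19x4 := p_wS_32_wQ_26_wN_1_rb803305153f19x3

theorem g_wS_32_wQ_26_wN_1_rb803305153fx6 : GoodKC AS c_wS_32_wQ_26_wN_1_rb803305153fx6 := p_wS_32_wQ_26_wN_1_rb803305153fx4 g_wS_32_wQ_26_wN_1_rb803305153f1ax4 g_wS_32_wQ_26_wN_1_rb803305153f16x4 g_wS_32_wQ_26_wN_1_rb803305153f15x4 g_wS_32_wQ_26_wN_1_rb803305153f14x4 g_wS_32_wQ_26_wN_1_rb803305153f13x4 g_wS_32_wQ_26_wN_1_rb803305153f12x4 g_wS_32_wQ_26_wN_1_rb803305153f10x4 g_wS_32_wQ_26_wN_1_rb803305153f0fx4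 g__wS_32_wQ_26_wN_1_rb803305153fx4_0 g_wS_32_wQ_26_wN_1_rb803305153f0dx4 g_wS_32_wQ_26_wN_1_rb803305153f0cx4 g__wS_32_wQ_26_wN_1_rb803305153fx4_1 g_wS_32_wQ_26_wN_1_rb803305153f0ex4 g_wS_32_wQ_26_wN_1_rb803305153f11x4 g_wS_32_wQ_26_wN_1_rb803305153f17x4 g_wS_32_wQ_26_wN_1_rb803305153f18x4 g_wS_32_wQ_26_wN_1_rb803305153f19x4

theorem g_wS_32_wQ_26_wN_1_rb803305153ex6 : GoodKC AS c_wS_32_wQ_26_wN_1_rb803305153ex6 := p_wS_32_wQ_26_wN_1_rb803305153ex4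

theorem g_wS_32_wQ_26_wN_1_rb803305153bx6 : GoodKC AS c_wS_32_wQ_26_wN_1_rb803305153bx6 := p_wS_32_wQ_26_wN_1_rb803305153bx4

theorem g__wS_32_wQ_26_wN_1_rb8033051537x4_1 : GoodKC AS k_wS_32_wQ_26_wN_1_rb8033051537x4_1 := p_wS_32_wQ_26_wN_1_rb8033051537x4_1

theorem g__wS_32_wQ_26_wN_1_rb8033051537x4_0 : GoodKC AS k_wS_32_wQ_26_wN_1_rb8033051537x4_0 := p_wS_32_wQ_26_wN_1_rb8033051537x4_0 g__wS_32_wQ_26_wN_1_rb8033051537x4_1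

theorem g_wS_32_wQ_26_wN_1_rb8033051537x6 : GoodKC AS c_wS_32_wQ_26_wN_1_rb8033051537x6 := p_wS_32_wQ_26_wN_1_rb8033051537x4 g__wS_32_wQ_26_wN_1_rb8033051537x4_0

theorem g_wS_32_wQ_26_wN_1_rb8033051536x6 : GoodKC AS c_wS_32_wQ_26_wN_1_rb8033051536x6 := p_wS_32_wQ_26_wN_1_rb8033051536x4

theorem g_wS_32_wQ_26_wN_1_rb8033051533x6 : GoodKC AS c_wS_32_wQ_26_wN_1_rb8033051533x6 := p_wS_32_wQ_26_wN_1_rb8033051533x4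

theorem g_wS_32_wQ_26_wN_1_rb8033051531x6 : GoodKC AS c_wS_32_wQ_26_wN_1_rb8033051531x6 := p_wS_32_wQ_26_wN_1_rb8033051531x4

theorem g__wS_32_wQ_26_wN_1_rb803305152ex4_0 : GoodKC AS k_wS_32_wQ_26_wN_1_rb803305152ex4_0 := p_wS_32_wQ_26_wN_1_rb803305152ex4_0

theorem g_wS_32_wQ_26_wN_1_rb803305152ex6 : GoodKC AS c_wS_32_wQ_26_wN_1_rb803305152ex6 := p_wS_32_wQ_26_wN_1_rb803305152ex4 g__wS_32_wQ_26_wN_1_rb803305152ex4_0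

theorem g_wS_32_wQ_26_wN_1_rb803305152dx6 : GoodKC AS c_wS_32_wQ_26_wN_1_rb803305152dx6 := p_wS_32_wQ_26_wN_1_rb803305152dx4

theorem g_wS_32_wQ_26_wN_1_rb803305152ax6 : GoodKC AS c_wS_32_wQ_26_wN_1_rb803305152ax6 := p_wS_32_wQ_26_wN_1_rb803305152ax4

theorem g_wS_32_wQ_26_wN_1_rb8033051529x6 : GoodKC AS c_wS_32_wQ_26_wN_1_rb8033051529x6 := p_wS_32_wQ_26_wN_1_rb8033051529x4

theorem g_wS_32_wQ_26_wN_1_rb8033051525x6 : GoodKC AS c_wS_32_wQ_26_wN_1_rb8033051525x6 := p_wS_32_wQ_26_wN_1_rb8033051525x4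

theorem g_wS_32_wQ_26_wN_1_rb8033051524x6 : GoodKC AS c_wS_32_wQ_26_wN_1_rb8033051524x6 := p_wS_32_wQ_26_wN_1_rb8033051524x4

theorem g_wS_32_wQ_26_wN_1_rb8033051522x6 : GoodKC AS c_wS_32_wQ_26_wN_1_rb8033051522x6 := p_wS_32_wQ_26_wN_1_rb8033051522x4

theorem g_wS_32_wQ_26_wN_1_rb8033051521x6 : GoodKC AS c_wS_32_wQ_26_wN_1_rb8033051521x6 := p_wS_32_wQ_26_wN_1_rb8033051521x4

theorem g__wS_32_wQ_26_wN_1_rb803305151fx4_0 : GoodKC AS k_wS_32_wQ_26_wN_1_rb803305151fx4_0 := p_wS_32_wQ_26_wN_1_rb803305151fx4_0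

theorem g_wS_32_wQ_26_wN_1_rb803305151fx6 : GoodKC AS c_wS_32_wQ_26_wN_1_rb803305151fx6 := p_wS_32_wQ_26_wN_1_rb803305151fx4 g__wS_32_wQ_26_wN_1_rb803305151fx4_0

theorem g_wS_32_wQ_26_wN_1_rb803305151ex6 : GoodKC AS c_wS_32_wQ_26_wN_1_rb803305151ex6 := p_wS_32_wQ_26_wN_1_rb803305151ex4

theorem g_wS_32_wQ_26_wN_1_rb803305151dx6 : GoodKC AS c_wS_32_wQ_26_wN_1_rb803305151dx6 := p_wS_32_wQ_26_wN_1_rb803305151dx4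

theorem g_wS_32_wQ_26_wN_1_rb803305151cx6 : GoodKC AS c_wS_32_wQ_26_wN_1_rb803305151cx6 := p_wS_32_wQ_26_wN_1_rb803305151cx4

theorem g__wS_32_wQ_26_wN_1_rb803305151bx4_1 : GoodKC AS k_wS_32_wQ_26_wN_1_rb803305151bx4_1 := p_wS_32_wQ_26_wN_1_rb803305151bx4_1

theorem g__wS_32_wQ_26_wN_1_rb803305151bx4_0 : GoodKC AS k_wS_32_wQ_26_wN_1_rb803305151bx4_0 := p_wS_32_wQ_26_wN_1_rb803305151bx4_0 g__wS_32_wQ_26_wN_1_rb803305151bx4_1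

theorem g_wS_32_wQ_26_wN_1_rb803305151bx6 : GoodKC AS c_wS_32_wQ_26_wN_1_rb803305151bx6 := p_wS_32_wQ_26_wN_1_rb803305151bx4 g__wS_32_wQ_26_wN_1_rb803305151bx4_0

theorem g__wS_32_wQ_26_wN_1_rb803305151ax4_0 : GoodKC AS k_wS_32_wQ_26_wN_1_rb803305151ax4_0 := p_wS_32_wQ_26_wN_1_rb803305151ax4_0

theorem g_wS_32_wQ_26_wN_1_rb803305151ax6 : GoodKC AS c_wS_32_wQ_26_wN_1_rb803305151ax6 := p_wS_32_wQ_26_wN_1_rb803305151ax4 g__wS_32_wQ_26_wN_1_rb803305151ax4_0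

theorem g_wS_32_wQ_26_wN_1_rb8033051519x6 : GoodKC AS c_wS_32_wQ_26_wN_1_rb8033051519x6 := p_wS_32_wQ_26_wN_1_rb8033051519x4

theorem g_wS_32_wQ_26_wN_1_rb8033051518x6 : GoodKC AS c_wS_32_wQ_26_wN_1_rb8033051518x6 := p_wS_32_wQ_26_wN_1_rb8033051518x4

theorem g_wS_32_wQ_26_wN_1_rb8033051517x6 : GoodKC AS c_wS_32_wQ_26_wN_1_rb8033051517x6 := p_wS_32_wQ_26_wN_1_rb8033051517x4

theorem g__wS_32_wQ_26_wN_1_rb803305151611x3_2 : GoodKC AS k_wS_32_wQ_26_wN_1_rb803305151611x3_2 := p_wS_32_wQ_26_wN_1_rb803305151611x3_2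

theorem g__wS_32_wQ_26_wN_1_rb803305151611x3_1 : GoodKC AS k_wS_32_wQ_26_wN_1_rb803305151611x3_1 := p_wS_32_wQ_26_wN_1_rb803305151611x3_1 g__wS_32_wQ_26_wN_1_rb803305151611x3_2

theorem g__wS_32_wQ_26_wN_1_rb803305151611x3_0 : GoodKC AS k_wS_32_wQ_26_wN_1_rb803305151611x3_0 := p_wS_32_wQ_26_wN_1_rb803305151611x3_0 g__wS_32_wQ_26_wN_1_rb803305151611x3_1

theorem g_wS_32_wQ_26_wN_1_rb803305151611x4 : GoodKC AS c_wS_32_wQ_26_wN_1_rb803305151611x4 := p_wS_32_wQ_26_wN_1_rb803305151611x3 g__wS_32_wQ_26_wN_1_rb803305151611x3_0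

theorem g_wS_32_wQ_26_wN_1_rb80330515160ex4 : GoodKC AS c_wS_32_wQ_26_wN_1_rb80330515160ex4 := p_wS_32_wQ_26_wN_1_rb80330515160ex3

theorem g_wS_32_wQ_26_wN_1_rb80330515160dx4 : GoodKC AS c_wS_32_wQ_26_wN_1_rb80330515160dx4 := p_wS_32_wQ_26_wN_1_rb80330515160dx3

theorem g_wS_32_wQ_26_wN_1_rb80330515160cx4 : GoodKC AS c_wS_32_wQ_26_wN_1_rb80330515160cx4 := p_wS_32_wQ_26_wN_1_rb80330515160cx3

theorem g_wS_32_wQ_26_wN_1_rb803305151608x4 : GoodKC AS c_wS_32_wQ_26_wN_1_rb803305151608x4 := p_wS_32_wQ_26_wN_1_rb803305151608x3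

theorem g_wS_32_wQ_26_wN_1_rb803305151606x4 : GoodKC AS c_wS_32_wQ_26_wN_1_rb803305151606x4 := p_wS_32_wQ_26_wN_1_rb803305151606x3

theorem g_wS_32_wQ_26_wN_1_rb803305151604x4 : GoodKC AS c_wS_32_wQ_26_wN_1_rb803305151604x4 := p_wS_32_wQ_26_wN_1_rb803305151604x3

theorem g_wS_32_wQ_26_wN_1_rb803305151601x4 : GoodKC AS c_wS_32_wQ_26_wN_1_rb803305151601x4 := p_wS_32_wQ_26_wN_1_rb803305151601x3

theorem g__wS_32_wQ_26_wN_1_rb803305151600v2_1 : GoodKC AS k_wS_32_wQ_26_wN_1_rb803305151600v2_1 := p_wS_32_wQ_26_wN_1_rb803305151600v2_1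

theorem g__wS_32_wQ_26_wN_1_rb803305151600v2_5 : GoodKC AS k_wS_32_wQ_26_wN_1_rb803305151600v2_5 := p_wS_32_wQ_26_wN_1_rb803305151600v2_5

theorem g__wS_32_wQ_26_wN_1_rb803305151600v2_4 : GoodKC AS k_wS_32_wQ_26_wN_1_rb803305151600v2_4 := p_wS_32_wQ_26_wN_1_rb803305151600v2_4 g__wS_32_wQ_26_wN_1_rb803305151600v2_5

theorem g__wS_32_wQ_26_wN_1_rb803305151600v2_3 : GoodKC AS k_wS_32_wQ_26_wN_1_rb803305151600v2_3 := p_wS_32_wQ_26_wN_1_rb803305151600v2_3 g__wS_32_wQ_26_wN_1_rb803305151600v2_4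

theorem g__wS_32_wQ_26_wN_1_rb803305151600v2_2 : GoodKC AS k_wS_32_wQ_26_wN_1_rb803305151600v2_2 := p_wS_32_wQ_26_wN_1_rb803305151600v2_2 g__wS_32_wQ_26_wN_1_rb803305151600v2_3

theorem g__wS_32_wQ_26_wN_1_rb803305151600v2_0 : GoodKC AS k_wS_32_wQ_26_wN_1_rb803305151600v2_0 := p_wS_32_wQ_26_wN_1_rb803305151600v2_0 g__wS_32_wQ_26_wN_1_rb803305151600v2_1 g__wS_32_wQ_26_wN_1_rb803305151600v2_2

theorem g_wS_32_wQ_26_wN_1_rb803305151600x4 : GoodKC AS c_wS_32_wQ_26_wN_1_rb803305151600x4 := p_wS_32_wQ_26_wN_1_rb803305151600x2 g__wS_32_wQ_26_wN_1_rb803305151600v2_0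

theorem g_wS_32_wQ_26_wN_1_rb803305151602x4 : GoodKC AS c_wS_32_wQ_26_wN_1_rb803305151602x4 := p_wS_32_wQ_26_wN_1_rb803305151602x3

theorem g_wS_32_wQ_26_wN_1_rb803305151603x4 : GoodKC AS c_wS_32_wQ_26_wN_1_rb803305151603x4 := p_wS_32_wQ_26_wN_1_rb803305151603x3

theorem g_wS_32_wQ_26_wN_1_rb803305151605x4 : GoodKC AS c_wS_32_wQ_26_wN_1_rb803305151605x4 := p_wS_32_wQ_26_wN_1_rb803305151605x3

theorem g_wS_32_wQ_26_wN_1_rb803305151607x4 : GoodKC AS c_wS_32_wQ_26_wN_1_rb803305151607x4 := p_wS_32_wQ_26_wN_1_rb803305151607x3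

theorem g_wS_32_wQ_26_wN_1_rb803305151609x4 : GoodKC AS c_wS_32_wQ_26_wN_1_rb803305151609x4 := p_wS_32_wQ_26_wN_1_rb803305151609x3

theorem g_wS_32_wQ_26_wN_1_rb80330515160ax4 : GoodKC AS c_wS_32_wQ_26_wN_1_rb80330515160ax4 := p_wS_32_wQ_26_wN_1_rb80330515160ax3

theorem g_wS_32_wQ_26_wN_1_rb80330515160bx4 : GoodKC AS c_wS_32_wQ_26_wN_1_rb80330515160bx4 := p_wS_32_wQ_26_wN_1_rb80330515160bx3

theorem g_wS_32_wQ_26_wN_1_rb80330515160fx4 : GoodKC AS c_wS_32_wQ_26_wN_1_rb80330515160fx4 := p_wS_32_wQ_26_wN_1_rb80330515160fx3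

theorem g_wS_32_wQ_26_wN_1_rb803305151610x4 : GoodKC AS c_wS_32_wQ_26_wN_1_rb803305151610x4 := p_wS_32_wQ_26_wN_1_rb803305151610x3

theorem g__wS_32_wQ_26_wN_1_rb8033051516x4_0 : GoodKC AS k_wS_32_wQ_26_wN_1_rb8033051516x4_0 := p_wS_32_wQ_26_wN_1_rb8033051516x4_0 g_wS_32_wQ_26_wN_1_rb803305151611x4 g_wS_32_wQ_26_wN_1_rb80330515160ex4 g_wS_32_wQ_26_wN_1_rb80330515160dx4 g_wS_32_wQ_26_wN_1_rb80330515160cx4 g_wS_32_wQ_26_wN_1_rb803305151608x4 g_wS_32_wQ_26_wN_1_rb803305151606x4 g_wS_32_wQ_26_wN_1_rb803305151604x4 g_wS_32_wQ_26_wN_1_rb803305151601x4 g_wS_32_wQ_26_wN_1_rb803305151600x4 g_wS_32_wQ_26_wN_1_rb803305151602x4 g_wS_32_wQ_26_wN_1_rb803305151603x4 g_wS_32_wQ_26_wN_1_rb803305151605x4 g_wS_32_wQ_26_wN_1_rb803305151607x4 g_wS_32_wQ_26_wN_1_rb803305151609x4 g_wS_32_wQ_26_wN_1_rb80330515160ax4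 g_wS_32_wQ_26_wN_1_rb80330515160bx4 g_wS_32_wQ_26_wN_1_rb80330515160fx4 g_wS_32_wQ_26_wN_1_rb803305151610x4

theorem g__wS_32_wQ_26_wN_1_rb8033051516x4_5 : GoodKC AS k_wS_32_wQ_26_wN_1_rb8033051516x4_5 := p_wS_32_wQ_26_wN_1_rb8033051516x4_5

theorem g__wS_32_wQ_26_wN_1_rb8033051516x4_4 : GoodKC AS k_wS_32_wQ_26_wN_1_rb8033051516x4_4 := p_wS_32_wQ_26_wN_1_rb8033051516x4_4 g__wS_32_wQ_26_wN_1_rb8033051516x4_5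

theorem g__wS_32_wQ_26_wN_1_rb8033051516x4_3 : GoodKC AS k_wS_32_wQ_26_wN_1_rb8033051516x4_3 := p_wS_32_wQ_26_wN_1_rb8033051516x4_3 g__wS_32_wQ_26_wN_1_rb8033051516x4_4

theorem g__wS_32_wQ_26_wN_1_rb8033051516x4_2 : GoodKC AS k_wS_32_wQ_26_wN_1_rb8033051516x4_2 := p_wS_32_wQ_26_wN_1_rb8033051516x4_2 g__wS_32_wQ_26_wN_1_rb8033051516x4_3

theorem g__wS_32_wQ_26_wN_1_rb8033051516x4_1 : GoodKC AS k_wS_32_wQ_26_wN_1_rb8033051516x4_1 := p_wS_32_wQ_26_wN_1_rb8033051516x4_1 g__wS_32_wQ_26_wN_1_rb8033051516x4_2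

theorem g_wS_32_wQ_26_wN_1_rb8033051516x6 : GoodKC AS c_wS_32_wQ_26_wN_1_rb8033051516x6 := p_wS_32_wQ_26_wN_1_rb8033051516x4 g__wS_32_wQ_26_wN_1_rb8033051516x4_0 g__wS_32_wQ_26_wN_1_rb8033051516x4_1

theorem g_wS_32_wQ_26_wN_1_rb8033051515x6 : GoodKC AS c_wS_32_wQ_26_wN_1_rb8033051515x6 := p_wS_32_wQ_26_wN_1_rb8033051515x4

theorem g_wS_32_wQ_26_wN_1_rb8033051513x6 : GoodKC AS c_wS_32_wQ_26_wN_1_rb8033051513x6 := p_wS_32_wQ_26_wN_1_rb8033051513x4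

theorem g_wS_32_wQ_26_wN_1_rb8033051512x6 : GoodKC AS c_wS_32_wQ_26_wN_1_rb8033051512x6 := p_wS_32_wQ_26_wN_1_rb8033051512x4

theorem g__wS_32_wQ_26_wN_1_rb8033051511x4_0 : GoodKC AS k_wS_32_wQ_26_wN_1_rb8033051511x4_0 := p_wS_32_wQ_26_wN_1_rb8033051511x4_0

theorem g_wS_32_wQ_26_wN_1_rb8033051511x6 : GoodKC AS c_wS_32_wQ_26_wN_1_rb8033051511x6 := p_wS_32_wQ_26_wN_1_rb8033051511x4 g__wS_32_wQ_26_wN_1_rb8033051511x4_0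

theorem g_wS_32_wQ_26_wN_1_rb8033051510x6 : GoodKC AS c_wS_32_wQ_26_wN_1_rb8033051510x6 := p_wS_32_wQ_26_wN_1_rb8033051510x4

theorem g_wS_32_wQ_26_wN_1_rb803305150fx6 : GoodKC AS c_wS_32_wQ_26_wN_1_rb803305150fx6 := p_wS_32_wQ_26_wN_1_rb803305150fx4

theorem g_wS_32_wQ_26_wN_1_rb803305150ex6 : GoodKC AS c_wS_32_wQ_26_wN_1_rb803305150ex6 := p_wS_32_wQ_26_wN_1_rb803305150ex4

theorem g_wS_32_wQ_26_wN_1_rb803305150d13x4 : GoodKC AS c_wS_32_wQ_26_wN_1_rb803305150d13x4 := p_wS_32_wQ_26_wN_1_rb803305150d13x3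

theorem g__wS_32_wQ_26_wN_1_rb803305150d10v3_0 : GoodKC AS k_wS_32_wQ_26_wN_1_rb803305150d10v3_0 := p_wS_32_wQ_26_wN_1_rb803305150d10v3_0

theorem g_wS_32_wQ_26_wN_1_rb803305150d10x4 : GoodKC AS c_wS_32_wQ_26_wN_1_rb803305150d10x4 := p_wS_32_wQ_26_wN_1_rb803305150d10x3 g__wS_32_wQ_26_wN_1_rb803305150d10v3_0

theorem g_wS_32_wQ_26_wN_1_rb803305150d0fx4 : GoodKC AS c_wS_32_wQ_26_wN_1_rb803305150d0fx4 := p_wS_32_wQ_26_wN_1_rb803305150d0fx3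

theorem g_wS_32_wQ_26_wN_1_rb803305150d0ex4 : GoodKC AS c_wS_32_wQ_26_wN_1_rb803305150d0ex4 := p_wS_32_wQ_26_wN_1_rb803305150d0ex3

theorem g__wS_32_wQ_26_wN_1_rb803305150dx4_6 : GoodKC AS k_wS_32_wQ_26_wN_1_rb803305150dx4_6 := p_wS_32_wQ_26_wN_1_rb803305150dx4_6

theorem g__wS_32_wQ_26_wN_1_rb803305150dx4_5 : GoodKC AS k_wS_32_wQ_26_wN_1_rb803305150dx4_5 := p_wS_32_wQ_26_wN_1_rb803305150dx4_5 g__wS_32_wQ_26_wN_1_rb803305150dx4_6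

theorem g__wS_32_wQ_26_wN_1_rb803305150dx4_4 : GoodKC AS k_wS_32_wQ_26_wN_1_rb803305150dx4_4 := p_wS_32_wQ_26_wN_1_rb803305150dx4_4 g__wS_32_wQ_26_wN_1_rb803305150dx4_5

theorem g__wS_32_wQ_26_wN_1_rb803305150dx4_3 : GoodKC AS k_wS_32_wQ_26_wN_1_rb803305150dx4_3 := p_wS_32_wQ_26_wN_1_rb803305150dx4_3 g__wS_32_wQ_26_wN_1_rb803305150dx4_4

theorem g__wS_32_wQ_26_wN_1_rb803305150dx4_2 : GoodKC AS k_wS_32_wQ_26_wN_1_rb803305150dx4_2 := p_wS_32_wQ_26_wN_1_rb803305150dx4_2 g__wS_32_wQ_26_wN_1_rb803305150dx4_3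

theorem g__wS_32_wQ_26_wN_1_rb803305150dx4_1 : GoodKC AS k_wS_32_wQ_26_wN_1_rb803305150dx4_1 := p_wS_32_wQ_26_wN_1_rb803305150dx4_1 g__wS_32_wQ_26_wN_1_rb803305150dx4_2

theorem g__wS_32_wQ_26_wN_1_rb803305150dx4_0 : GoodKC AS k_wS_32_wQ_26_wN_1_rb803305150dx4_0 := p_wS_32_wQ_26_wN_1_rb803305150dx4_0 g__wS_32_wQ_26_wN_1_rb803305150dx4_1

theorem g_wS_32_wQ_26_wN_1_rb803305150d0dx4 : GoodKC AS c_wS_32_wQ_26_wN_1_rb803305150d0dx4 := p_wS_32_wQ_26_wN_1_rb803305150d0dx3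

theorem g_wS_32_wQ_26_wN_1_rb803305150d0bx4 : GoodKC AS c_wS_32_wQ_26_wN_1_rb803305150d0bx4 := p_wS_32_wQ_26_wN_1_rb803305150d0bx3

theorem g_wS_32_wQ_26_wN_1_rb803305150d0ax4 : GoodKC AS c_wS_32_wQ_26_wN_1_rb803305150d0ax4 := p_wS_32_wQ_26_wN_1_rb803305150d0ax3

theorem g_wS_32_wQ_26_wN_1_rb803305150d09x4 : GoodKC AS c_wS_32_wQ_26_wN_1_rb803305150d09x4 := p_wS_32_wQ_26_wN_1_rb803305150d09x3

theorem g_wS_32_wQ_26_wN_1_rb803305150d07x4 : GoodKC AS c_wS_32_wQ_26_wN_1_rb803305150d07x4 := p_wS_32_wQ_26_wN_1_rb803305150d07x3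

theorem g_wS_32_wQ_26_wN_1_rb803305150d06x4 : GoodKC AS c_wS_32_wQ_26_wN_1_rb803305150d06x4 := p_wS_32_wQ_26_wN_1_rb803305150d06x3

theorem g_wS_32_wQ_26_wN_1_rb803305150d05x4 : GoodKC AS c_wS_32_wQ_26_wN_1_rb803305150d05x4 := p_wS_32_wQ_26_wN_1_rb803305150d05x3

theorem g__wS_32_wQ_26_wN_1_rb803305150d02x2_1 : GoodKC AS k_wS_32_wQ_26_wN_1_rb803305150d02x2_1 := p_wS_32_wQ_26_wN_1_rb803305150d02x2_1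

theorem g__wS_32_wQ_26_wN_1_rb803305150d02x2_0 : GoodKC AS k_wS_32_wQ_26_wN_1_rb803305150d02x2_0 := p_wS_32_wQ_26_wN_1_rb803305150d02x2_0 g__wS_32_wQ_26_wN_1_rb803305150d02x2_1

theorem g_wS_32_wQ_26_wN_1_rb803305150d02x4 : GoodKC AS c_wS_32_wQ_26_wN_1_rb803305150d02x4 := p_wS_32_wQ_26_wN_1_rb803305150d02x2 g__wS_32_wQ_26_wN_1_rb803305150d02x2_0

theorem g_wS_32_wQ_26_wN_1_rb803305150d01x4 : GoodKC AS c_wS_32_wQ_26_wN_1_rb803305150d01x4 := p_wS_32_wQ_26_wN_1_rb803305150d01x3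

theorem g__wS_32_wQ_26_wN_1_rb803305150d00v2_5 : GoodKC AS k_wS_32_wQ_26_wN_1_rb803305150d00v2_5 := p_wS_32_wQ_26_wN_1_rb803305150d00v2_5

theorem g__wS_32_wQ_26_wN_1_rb803305150d00v2_4 : GoodKC AS k_wS_32_wQ_26_wN_1_rb803305150d00v2_4 := p_wS_32_wQ_26_wN_1_rb803305150d00v2_4 g__wS_32_wQ_26_wN_1_rb803305150d00v2_5

theorem g__wS_32_wQ_26_wN_1_rb803305150d00v2_3 : GoodKC AS k_wS_32_wQ_26_wN_1_rb803305150d00v2_3 := p_wS_32_wQ_26_wN_1_rb803305150d00v2_3 g__wS_32_wQ_26_wN_1_rb803305150d00v2_4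

theorem g__wS_32_wQ_26_wN_1_rb803305150d00v2_7 : GoodKC AS k_wS_32_wQ_26_wN_1_rb803305150d00v2_7 := p_wS_32_wQ_26_wN_1_rb803305150d00v2_7

theorem g__wS_32_wQ_26_wN_1_rb803305150d00v2_10 : GoodKC AS k_wS_32_wQ_26_wN_1_rb803305150d00v2_10 := p_wS_32_wQ_26_wN_1_rb803305150d00v2_10

theorem g__wS_32_wQ_26_wN_1_rb803305150d00v2_9 : GoodKC AS k_wS_32_wQ_26_wN_1_rb803305150d00v2_9 := p_wS_32_wQ_26_wN_1_rb803305150d00v2_9 g__wS_32_wQ_26_wN_1_rb803305150d00v2_10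

theorem g__wS_32_wQ_26_wN_1_rb803305150d00v2_11 : GoodKC AS k_wS_32_wQ_26_wN_1_rb803305150d00v2_11 := p_wS_32_wQ_26_wN_1_rb803305150d00v2_11

theorem g__wS_32_wQ_26_wN_1_rb803305150d00v2_8 : GoodKC AS k_wS_32_wQ_26_wN_1_rb803305150d00v2_8 := p_wS_32_wQ_26_wN_1_rb803305150d00v2_8 g__wS_32_wQ_26_wN_1_rb803305150d00v2_9 g__wS_32_wQ_26_wN_1_rb803305150d00v2_11

theorem g__wS_32_wQ_26_wN_1_rb803305150d00v2_6 : GoodKC AS k_wS_32_wQ_26_wN_1_rb803305150d00v2_6 := p_wS_32_wQ_26_wN_1_rb803305150d00v2_6 g__wS_32_wQ_26_wN_1_rb803305150d00v2_7 g__wS_32_wQ_26_wN_1_rb803305150d00v2_8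

theorem g__wS_32_wQ_26_wN_1_rb803305150d00v2_2 : GoodKC AS k_wS_32_wQ_26_wN_1_rb803305150d00v2_2 := p_wS_32_wQ_26_wN_1_rb803305150d00v2_2 g__wS_32_wQ_26_wN_1_rb803305150d00v2_3 g__wS_32_wQ_26_wN_1_rb803305150d00v2_6

theorem g__wS_32_wQ_26_wN_1_rb803305150d00v2_1 : GoodKC AS k_wS_32_wQ_26_wN_1_rb803305150d00v2_1 := p_wS_32_wQ_26_wN_1_rb803305150d00v2_1 g__wS_32_wQ_26_wN_1_rb803305150d00v2_2

theorem g__wS_32_wQ_26_wN_1_rb803305150d00v2_0 : GoodKC AS k_wS_32_wQ_26_wN_1_rb803305150d00v2_0 := p_wS_32_wQ_26_wN_1_rb803305150d00v2_0 g__wS_32_wQ_26_wN_1_rb803305150d00v2_1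

theorem g_wS_32_wQ_26_wN_1_rb803305150d00x4 : GoodKC AS c_wS_32_wQ_26_wN_1_rb803305150d00x4 := p_wS_32_wQ_26_wN_1_rb803305150d00x2 g__wS_32_wQ_26_wN_1_rb803305150d00v2_0

theorem g_wS_32_wQ_26_wN_1_rb803305150d0334x1 : GoodKC AS c_wS_32_wQ_26_wN_1_rb803305150d0334x1 := p_wS_32_wQ_26_wN_1_rb803305150d0334x1

theorem g_wS_32_wQ_26_wN_1_rb803305150d0333x1 : GoodKC AS c_wS_32_wQ_26_wN_1_rb803305150d0333x1 := p_wS_32_wQ_26_wN_1_rb803305150d0333x1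

theorem g_wS_32_wQ_26_wN_1_rb803305150d0332x1 : GoodKC AS c_wS_32_wQ_26_wN_1_rb803305150d0332x1 := p_wS_32_wQ_26_wN_1_rb803305150d0332x1

theorem g_wS_32_wQ_26_wN_1_rb803305150d0331x1 : GoodKC AS c_wS_32_wQ_26_wN_1_rb803305150d0331x1 := p_wS_32_wQ_26_wN_1_rb803305150d0331x1

theorem g_wS_32_wQ_26_wN_1_rb803305150d0330x1 : GoodKC AS c_wS_32_wQ_26_wN_1_rb803305150d0330x1 := p_wS_32_wQ_26_wN_1_rb803305150d0330x1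

theorem g_wS_32_wQ_26_wN_1_rb803305150d032fx1 : GoodKC AS c_wS_32_wQ_26_wN_1_rb803305150d032fx1 := p_wS_32_wQ_26_wN_1_rb803305150d032fx1

theorem g__wS_32_wQ_26_wN_1_rb803305150d032ex1_0 : GoodKC AS k_wS_32_wQ_26_wN_1_rb803305150d032ex1_0 := p_wS_32_wQ_26_wN_1_rb803305150d032ex1_0

theorem g_wS_32_wQ_26_wN_1_rb803305150d032ex1 : GoodKC AS c_wS_32_wQ_26_wN_1_rb803305150d032ex1 := p_wS_32_wQ_26_wN_1_rb803305150d032ex1 g__wS_32_wQ_26_wN_1_rb803305150d032ex1_0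

theorem g_wS_32_wQ_26_wN_1_rb803305150d032dx1 : GoodKC AS c_wS_32_wQ_26_wN_1_rb803305150d032dx1 := p_wS_32_wQ_26_wN_1_rb803305150d032dx1

theorem g_wS_32_wQ_26_wN_1_rb803305150d032cx1 : GoodKC AS c_wS_32_wQ_26_wN_1_rb803305150d032cx1 := p_wS_32_wQ_26_wN_1_rb803305150d032cx1

theorem g_wS_32_wQ_26_wN_1_rb803305150d032bx1 : GoodKC AS c_wS_32_wQ_26_wN_1_rb803305150d032bx1 := p_wS_32_wQ_26_wN_1_rb803305150d032bx1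

theorem g_wS_32_wQ_26_wN_1_rb803305150d0329x1 : GoodKC AS c_wS_32_wQ_26_wN_1_rb803305150d0329x1 := p_wS_32_wQ_26_wN_1_rb803305150d0329x1

theorem g_wS_32_wQ_26_wN_1_rb803305150d0326x1 : GoodKC AS c_wS_32_wQ_26_wN_1_rb803305150d0326x1 := p_wS_32_wQ_26_wN_1_rb803305150d0326x1

theorem g_wS_32_wQ_26_wN_1_rb803305150d0325x1 : GoodKC AS c_wS_32_wQ_26_wN_1_rb803305150d0325x1 := p_wS_32_wQ_26_wN_1_rb803305150d0325x1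

theorem g_wS_32_wQ_26_wN_1_rb803305150d0324x1 : GoodKC AS c_wS_32_wQ_26_wN_1_rb803305150d0324x1 := p_wS_32_wQ_26_wN_1_rb803305150d0324x1

theorem g_wS_32_wQ_26_wN_1_rb803305150d0323x1 : GoodKC AS c_wS_32_wQ_26_wN_1_rb803305150d0323x1 := p_wS_32_wQ_26_wN_1_rb803305150d0323x1

theorem g_wS_32_wQ_26_wN_1_rb803305150d0320x1 : GoodKC AS c_wS_32_wQ_26_wN_1_rb803305150d0320x1 := p_wS_32_wQ_26_wN_1_rb803305150d0320x1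

theorem g_wS_32_wQ_26_wN_1_rb803305150d031fx1 : GoodKC AS c_wS_32_wQ_26_wN_1_rb803305150d031fx1 := p_wS_32_wQ_26_wN_1_rb803305150d031fx1

theorem g_wS_32_wQ_26_wN_1_rb803305150d031dx1 : GoodKC AS c_wS_32_wQ_26_wN_1_rb803305150d031dx1 := p_wS_32_wQ_26_wN_1_rb803305150d031dx1

theorem g_wS_32_wQ_26_wN_1_rb803305150d0319x1 : GoodKC AS c_wS_32_wQ_26_wN_1_rb803305150d0319x1 := p_wS_32_wQ_26_wN_1_rb803305150d0319x1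

theorem g_wS_32_wQ_26_wN_1_rb803305150d0317x1 : GoodKC AS c_wS_32_wQ_26_wN_1_rb803305150d0317x1 := p_wS_32_wQ_26_wN_1_rb803305150d0317x1

theorem g_wS_32_wQ_26_wN_1_rb803305150d0315x1 : GoodKC AS c_wS_32_wQ_26_wN_1_rb803305150d0315x1 := p_wS_32_wQ_26_wN_1_rb803305150d0315x1

theorem g_wS_32_wQ_26_wN_1_rb803305150d0314x1 : GoodKC AS c_wS_32_wQ_26_wN_1_rb803305150d0314x1 := p_wS_32_wQ_26_wN_1_rb803305150d0314x1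

theorem g_wS_32_wQ_26_wN_1_rb803305150d0312x1 : GoodKC AS c_wS_32_wQ_26_wN_1_rb803305150d0312x1 := p_wS_32_wQ_26_wN_1_rb803305150d0312x1

theorem g_wS_32_wQ_26_wN_1_rb803305150d0311x1 : GoodKC AS c_wS_32_wQ_26_wN_1_rb803305150d0311x1 := p_wS_32_wQ_26_wN_1_rb803305150d0311x1

theorem g__wS_32_wQ_26_wN_1_rb803305150d030ex1_1 : GoodKC AS k_wS_32_wQ_26_wN_1_rb803305150d030ex1_1 := p_wS_32_wQ_26_wN_1_rb803305150d030ex1_1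

theorem g__wS_32_wQ_26_wN_1_rb803305150d030ex1_0 : GoodKC AS k_wS_32_wQ_26_wN_1_rb803305150d030ex1_0 := p_wS_32_wQ_26_wN_1_rb803305150d030ex1_0 g__wS_32_wQ_26_wN_1_rb803305150d030ex1_1

theorem g_wS_32_wQ_26_wN_1_rb803305150d030ex1 : GoodKC AS c_wS_32_wQ_26_wN_1_rb803305150d030ex1 := p_wS_32_wQ_26_wN_1_rb803305150d030ex1 g__wS_32_wQ_26_wN_1_rb803305150d030ex1_0

theorem g__wS_32_wQ_26_wN_1_rb803305150d03x1_1 : GoodKC AS k_wS_32_wQ_26_wN_1_rb803305150d03x1_1 := p_wS_32_wQ_26_wN_1_rb803305150d03x1_1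

theorem g__wS_32_wQ_26_wN_1_rb803305150d03x1_0 : GoodKC AS k_wS_32_wQ_26_wN_1_rb803305150d03x1_0 := p_wS_32_wQ_26_wN_1_rb803305150d03x1_0 g__wS_32_wQ_26_wN_1_rb803305150d03x1_1

theorem g_wS_32_wQ_26_wN_1_rb803305150d030dx1 : GoodKC AS c_wS_32_wQ_26_wN_1_rb803305150d030dx1 := p_wS_32_wQ_26_wN_1_rb803305150d030dx1

theorem g_wS_32_wQ_26_wN_1_rb803305150d030cx1 : GoodKC AS c_wS_32_wQ_26_wN_1_rb803305150d030cx1 := p_wS_32_wQ_26_wN_1_rb803305150d030cx1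

theorem g_wS_32_wQ_26_wN_1_rb803305150d030ax1 : GoodKC AS c_wS_32_wQ_26_wN_1_rb803305150d030ax1 := p_wS_32_wQ_26_wN_1_rb803305150d030ax1

theorem g__wS_32_wQ_26_wN_1_rb803305150d0309x1_3 : GoodKC AS k_wS_32_wQ_26_wN_1_rb803305150d0309x1_3 := p_wS_32_wQ_26_wN_1_rb803305150d0309x1_3

theorem g__wS_32_wQ_26_wN_1_rb803305150d0309x1_2 : GoodKC AS k_wS_32_wQ_26_wN_1_rb803305150d0309x1_2 := p_wS_32_wQ_26_wN_1_rb803305150d0309x1_2 g__wS_32_wQ_26_wN_1_rb803305150d0309x1_3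

theorem g__wS_32_wQ_26_wN_1_rb803305150d0309x1_1 : GoodKC AS k_wS_32_wQ_26_wN_1_rb803305150d0309x1_1 := p_wS_32_wQ_26_wN_1_rb803305150d0309x1_1 g__wS_32_wQ_26_wN_1_rb803305150d0309x1_2

theorem g__wS_32_wQ_26_wN_1_rb803305150d0309x1_0 : GoodKC AS k_wS_32_wQ_26_wN_1_rb803305150d0309x1_0 := p_wS_32_wQ_26_wN_1_rb803305150d0309x1_0 g__wS_32_wQ_26_wN_1_rb803305150d0309x1_1

theorem g_wS_32_wQ_26_wN_1_rb803305150d0309x1 : GoodKC AS c_wS_32_wQ_26_wN_1_rb803305150d0309x1 := p_wS_32_wQ_26_wN_1_rb803305150d0309x1 g__wS_32_wQ_26_wN_1_rb803305150d0309x1_0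

theorem g_wS_32_wQ_26_wN_1_rb803305150d0307x1 : GoodKC AS c_wS_32_wQ_26_wN_1_rb803305150d0307x1 := p_wS_32_wQ_26_wN_1_rb803305150d0307x1

theorem g_wS_32_wQ_26_wN_1_rb803305150d0305x1 : GoodKC AS c_wS_32_wQ_26_wN_1_rb803305150d0305x1 := p_wS_32_wQ_26_wN_1_rb803305150d0305x1

theorem g_wS_32_wQ_26_wN_1_rb803305150d0303x1 : GoodKC AS c_wS_32_wQ_26_wN_1_rb803305150d0303x1 := p_wS_32_wQ_26_wN_1_rb803305150d0303x1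

theorem g_wS_32_wQ_26_wN_1_rb803305150d0302x1 : GoodKC AS c_wS_32_wQ_26_wN_1_rb803305150d0302x1 := p_wS_32_wQ_26_wN_1_rb803305150d0302x1

theorem g_wS_32_wQ_26_wN_1_rb803305150d0300x1 : GoodKC AS c_wS_32_wQ_26_wN_1_rb803305150d0300x1 := p_wS_32_wQ_26_wN_1_rb803305150d0300x1

theorem g_wS_32_wQ_26_wN_1_rb803305150d0301x1 : GoodKC AS c_wS_32_wQ_26_wN_1_rb803305150d0301x1 := p_wS_32_wQ_26_wN_1_rb803305150d0301x1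

theorem g_wS_32_wQ_26_wN_1_rb803305150d0304x1 : GoodKC AS c_wS_32_wQ_26_wN_1_rb803305150d0304x1 := p_wS_32_wQ_26_wN_1_rb803305150d0304x1

theorem g__wS_32_wQ_26_wN_1_rb803305150d03x1_5 : GoodKC AS k_wS_32_wQ_26_wN_1_rb803305150d03x1_5 := p_wS_32_wQ_26_wN_1_rb803305150d03x1_5

theorem g__wS_32_wQ_26_wN_1_rb803305150d03x1_4 : GoodKC AS k_wS_32_wQ_26_wN_1_rb803305150d03x1_4 := p_wS_32_wQ_26_wN_1_rb803305150d03x1_4 g__wS_32_wQ_26_wN_1_rb803305150d03x1_5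

theorem g__wS_32_wQ_26_wN_1_rb803305150d03x1_3 : GoodKC AS k_wS_32_wQ_26_wN_1_rb803305150d03x1_3 := p_wS_32_wQ_26_wN_1_rb803305150d03x1_3 g__wS_32_wQ_26_wN_1_rb803305150d03x1_4

theorem g__wS_32_wQ_26_wN_1_rb803305150d03x1_7 : GoodKC AS k_wS_32_wQ_26_wN_1_rb803305150d03x1_7 := p_wS_32_wQ_26_wN_1_rb803305150d03x1_7

theorem g__wS_32_wQ_26_wN_1_rb803305150d03x1_6 : GoodKC AS k_wS_32_wQ_26_wN_1_rb803305150d03x1_6 := p_wS_32_wQ_26_wN_1_rb803305150d03x1_6 g__wS_32_wQ_26_wN_1_rb803305150d03x1_7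

theorem g__wS_32_wQ_26_wN_1_rb803305150d03x1_2 : GoodKC AS k_wS_32_wQ_26_wN_1_rb803305150d03x1_2 := p_wS_32_wQ_26_wN_1_rb803305150d03x1_2 g__wS_32_wQ_26_wN_1_rb803305150d03x1_3 g__wS_32_wQ_26_wN_1_rb803305150d03x1_6

theorem g_wS_32_wQ_26_wN_1_rb803305150d0306x1 : GoodKC AS c_wS_32_wQ_26_wN_1_rb803305150d0306x1 := p_wS_32_wQ_26_wN_1_rb803305150d0306x1

theorem g_wS_32_wQ_26_wN_1_rb803305150d0308x1 : GoodKC AS c_wS_32_wQ_26_wN_1_rb803305150d0308x1 := p_wS_32_wQ_26_wN_1_rb803305150d0308x1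

theorem g_wS_32_wQ_26_wN_1_rb803305150d030bx1 : GoodKC AS c_wS_32_wQ_26_wN_1_rb803305150d030bx1 := p_wS_32_wQ_26_wN_1_rb803305150d030bx1

theorem g_wS_32_wQ_26_wN_1_rb803305150d030fx1 : GoodKC AS c_wS_32_wQ_26_wN_1_rb803305150d030fx1 := p_wS_32_wQ_26_wN_1_rb803305150d030fx1

theorem g_wS_32_wQ_26_wN_1_rb803305150d0310x1 : GoodKC AS c_wS_32_wQ_26_wN_1_rb803305150d0310x1 := p_wS_32_wQ_26_wN_1_rb803305150d0310x1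

theorem g_wS_32_wQ_26_wN_1_rb803305150d0313x1 : GoodKC AS c_wS_32_wQ_26_wN_1_rb803305150d0313x1 := p_wS_32_wQ_26_wN_1_rb803305150d0313x1

theorem g_wS_32_wQ_26_wN_1_rb803305150d0316x1 : GoodKC AS c_wS_32_wQ_26_wN_1_rb803305150d0316x1 := p_wS_32_wQ_26_wN_1_rb803305150d0316x1

theorem g_wS_32_wQ_26_wN_1_rb803305150d0318x1 : GoodKC AS c_wS_32_wQ_26_wN_1_rb803305150d0318x1 := p_wS_32_wQ_26_wN_1_rb803305150d0318x1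

theorem g_wS_32_wQ_26_wN_1_rb803305150d031ax1 : GoodKC AS c_wS_32_wQ_26_wN_1_rb803305150d031ax1 := p_wS_32_wQ_26_wN_1_rb803305150d031ax1

theorem g_wS_32_wQ_26_wN_1_rb803305150d031bx1 : GoodKC AS c_wS_32_wQ_26_wN_1_rb803305150d031bx1 := p_wS_32_wQ_26_wN_1_rb803305150d031bx1

theorem g_wS_32_wQ_26_wN_1_rb803305150d031cx1 : GoodKC AS c_wS_32_wQ_26_wN_1_rb803305150d031cx1 := p_wS_32_wQ_26_wN_1_rb803305150d031cx1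

theorem g_wS_32_wQ_26_wN_1_rb803305150d031ex1 : GoodKC AS c_wS_32_wQ_26_wN_1_rb803305150d031ex1 := p_wS_32_wQ_26_wN_1_rb803305150d031ex1

theorem g_wS_32_wQ_26_wN_1_rb803305150d0321x1 : GoodKC AS c_wS_32_wQ_26_wN_1_rb803305150d0321x1 := p_wS_32_wQ_26_wN_1_rb803305150d0321x1

theorem g_wS_32_wQ_26_wN_1_rb803305150d0322x1 : GoodKC AS c_wS_32_wQ_26_wN_1_rb803305150d0322x1 := p_wS_32_wQ_26_wN_1_rb803305150d0322x1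

theorem g_wS_32_wQ_26_wN_1_rb803305150d0327x1 : GoodKC AS c_wS_32_wQ_26_wN_1_rb803305150d0327x1 := p_wS_32_wQ_26_wN_1_rb803305150d0327x1

theorem g_wS_32_wQ_26_wN_1_rb803305150d0328x1 : GoodKC AS c_wS_32_wQ_26_wN_1_rb803305150d0328x1 := p_wS_32_wQ_26_wN_1_rb803305150d0328x1

theorem g_wS_32_wQ_26_wN_1_rb803305150d032ax1 : GoodKC AS c_wS_32_wQ_26_wN_1_rb803305150d032ax1 := p_wS_32_wQ_26_wN_1_rb803305150d032ax1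

theorem g_wS_32_wQ_26_wN_1_rb803305150d0335x1 : GoodKC AS c_wS_32_wQ_26_wN_1_rb803305150d0335x1 := p_wS_32_wQ_26_wN_1_rb803305150d0335x1

theorem g_wS_32_wQ_26_wN_1_rb803305150d03x4 : GoodKC AS c_wS_32_wQ_26_wN_1_rb803305150d03x4 := p_wS_32_wQ_26_wN_1_rb803305150d03x1 g_wS_32_wQ_26_wN_1_rb803305150d0334x1 g_wS_32_wQ_26_wN_1_rb803305150d0333x1 g_wS_32_wQ_26_wN_1_rb803305150d0332x1 g_wS_32_wQ_26_wN_1_rb803305150d0331x1 g_wS_32_wQ_26_wN_1_rb803305150d0330x1 g_wS_32_wQ_26_wN_1_rb803305150d032fx1 g_wS_32_wQ_26_wN_1_rb803305150d032ex1 g_wS_32_wQ_26_wN_1_rb803305150d032dx1 g_wS_32_wQ_26_wN_1_rb803305150d032cx1 g_wS_32_wQ_26_wN_1_rb803305150d032bx1 g_wS_32_wQ_26_wN_1_rb803305150d0329x1 g_wS_32_wQ_26_wN_1_rb803305150d0326x1 g_wS_32_wQ_26_wN_1_rb803305150d0325x1 g_wS_32_wQ_26_wN_1_rb803305150d0324x1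 g_wS_32_wQ_26_wN_1_rb803305150d0323x1 g_wS_32_wQ_26_wN_1_rb803305150d0320x1 g_wS_32_wQ_26_wN_1_rb803305150d031fx1 g_wS_32_wQ_26_wN_1_rb803305150d031dx1 g_wS_32_wQ_26_wN_1_rb803305150d0319x1 g_wS_32_wQ_26_wN_1_rb803305150d0317x1 g_wS_32_wQ_26_wN_1_rb803305150d0315x1 g_wS_32_wQ_26_wN_1_rb803305150d0314x1 g_wS_32_wQ_26_wN_1_rb803305150d0312x1 g_wS_32_wQ_26_wN_1_rb803305150d0311x1 g_wS_32_wQ_26_wN_1_rb803305150d030ex1 g__wS_32_wQ_26_wN_1_rb803305150d03x1_0 g_wS_32_wQ_26_wN_1_rb803305150d030dx1 g_wS_32_wQ_26_wN_1_rb803305150d030cx1 g_wS_32_wQ_26_wN_1_rb803305150d030ax1 g_wS_32_wQ_26_wN_1_rb803305150d0309x1 g_wS_32_wQ_26_wN_1_rb803305150d0307x1 g_wS_32_wQ_26_wN_1_rb803305150d0305x1 g_wS_32_wQ_26_wN_1_rb803305150d0303x1 g_wS_32_wQ_26_wN_1_rb803305150d0302x1 g_wS_32_wQ_26_wN_1_rb803305150d0300x1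 g_wS_32_wQ_26_wN_1_rb803305150d0301x1 g_wS_32_wQ_26_wN_1_rb803305150d0304x1 g__wS_32_wQ_26_wN_1_rb803305150d03x1_2 g_wS_32_wQ_26_wN_1_rb803305150d0306x1 g_wS_32_wQ_26_wN_1_rb803305150d0308x1 g_wS_32_wQ_26_wN_1_rb803305150d030bx1 g_wS_32_wQ_26_wN_1_rb803305150d030fx1 g_wS_32_wQ_26_wN_1_rb803305150d0310x1 g_wS_32_wQ_26_wN_1_rb803305150d0313x1 g_wS_32_wQ_26_wN_1_rb803305150d0316x1 g_wS_32_wQ_26_wN_1_rb803305150d0318x1 g_wS_32_wQ_26_wN_1_rb803305150d031ax1 g_wS_32_wQ_26_wN_1_rb803305150d031bx1 g_wS_32_wQ_26_wN_1_rb803305150d031cx1 g_wS_32_wQ_26_wN_1_rb803305150d031ex1 g_wS_32_wQ_26_wN_1_rb803305150d0321x1 g_wS_32_wQ_26_wN_1_rb803305150d0322x1 g_wS_32_wQ_26_wN_1_rb803305150d0327x1 g_wS_32_wQ_26_wN_1_rb803305150d0328x1 g_wS_32_wQ_26_wN_1_rb803305150d032ax1 g_wS_32_wQ_26_wN_1_rb803305150d0335x1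

theorem g_wS_32_wQ_26_wN_1_rb803305150d04x4 : GoodKC AS c_wS_32_wQ_26_wN_1_rb803305150d04x4 := p_wS_32_wQ_26_wN_1_rb803305150d04x3

theorem g_wS_32_wQ_26_wN_1_rb803305150d08x4 : GoodKC AS c_wS_32_wQ_26_wN_1_rb803305150d08x4 := p_wS_32_wQ_26_wN_1_rb803305150d08x3

theorem g_wS_32_wQ_26_wN_1_rb803305150d0cx4 : GoodKC AS c_wS_32_wQ_26_wN_1_rb803305150d0cx4 := p_wS_32_wQ_26_wN_1_rb803305150d0cx3

theorem g_wS_32_wQ_26_wN_1_rb803305150d11x4 : GoodKC AS c_wS_32_wQ_26_wN_1_rb803305150d11x4 := p_wS_32_wQ_26_wN_1_rb803305150d11x3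

theorem g_wS_32_wQ_26_wN_1_rb803305150d12x4 : GoodKC AS c_wS_32_wQ_26_wN_1_rb803305150d12x4 := p_wS_32_wQ_26_wN_1_rb803305150d12x3

theorem g_wS_32_wQ_26_wN_1_rb803305150d14x4 : GoodKC AS c_wS_32_wQ_26_wN_1_rb803305150d14x4 := p_wS_32_wQ_26_wN_1_rb803305150d14x3

theorem g_wS_32_wQ_26_wN_1_rb803305150d15x4 : GoodKC AS c_wS_32_wQ_26_wN_1_rb803305150d15x4 := p_wS_32_wQ_26_wN_1_rb803305150d15x3

theorem g_wS_32_wQ_26_wN_1_rb803305150d16x4 : GoodKC AS c_wS_32_wQ_26_wN_1_rb803305150d16x4 := p_wS_32_wQ_26_wN_1_rb803305150d16x3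

theorem g_wS_32_wQ_26_wN_1_rb803305150dx6 : GoodKC AS c_wS_32_wQ_26_wN_1_rb803305150dx6 := p_wS_32_wQ_26_wN_1_rb803305150dx4 g_wS_32_wQ_26_wN_1_rb803305150d13x4 g_wS_32_wQ_26_wN_1_rb803305150d10x4 g_wS_32_wQ_26_wN_1_rb803305150d0fx4 g_wS_32_wQ_26_wN_1_rb803305150d0ex4 g__wS_32_wQ_26_wN_1_rb803305150dx4_0 g_wS_32_wQ_26_wN_1_rb803305150d0dx4 g_wS_32_wQ_26_wN_1_rb803305150d0bx4 g_wS_32_wQ_26_wN_1_rb803305150d0ax4 g_wS_32_wQ_26_wN_1_rb803305150d09x4 g_wS_32_wQ_26_wN_1_rb803305150d07x4 g_wS_32_wQ_26_wN_1_rb803305150d06x4 g_wS_32_wQ_26_wN_1_rb803305150d05x4 g_wS_32_wQ_26_wN_1_rb803305150d02x4 g_wS_32_wQ_26_wN_1_rb803305150d01x4 g_wS_32_wQ_26_wN_1_rb803305150d00x4 g_wS_32_wQ_26_wN_1_rb803305150d03x4 g_wS_32_wQ_26_wN_1_rb803305150d04x4 g_wS_32_wQ_26_wN_1_rb803305150d08x4 g_wS_32_wQ_26_wN_1_rb803305150d0cx4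 g_wS_32_wQ_26_wN_1_rb803305150d11x4 g_wS_32_wQ_26_wN_1_rb803305150d12x4 g_wS_32_wQ_26_wN_1_rb803305150d14x4 g_wS_32_wQ_26_wN_1_rb803305150d15x4 g_wS_32_wQ_26_wN_1_rb803305150d16x4

theorem g__wS_32_wQ_26_wN_1_rb803305150bx4_0 : GoodKC AS k_wS_32_wQ_26_wN_1_rb803305150bx4_0 := p_wS_32_wQ_26_wN_1_rb803305150bx4_0

theorem g_wS_32_wQ_26_wN_1_rb803305150bx6 : GoodKC AS c_wS_32_wQ_26_wN_1_rb803305150bx6 := p_wS_32_wQ_26_wN_1_rb803305150bx4 g__wS_32_wQ_26_wN_1_rb803305150bx4_0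

theorem g_wS_32_wQ_26_wN_1_rb803305150ax6 : GoodKC AS c_wS_32_wQ_26_wN_1_rb803305150ax6 := p_wS_32_wQ_26_wN_1_rb803305150ax4

theorem g__wS_32_wQ_26_wN_1_rb8033051509x4_0 : GoodKC AS k_wS_32_wQ_26_wN_1_rb8033051509x4_0 := p_wS_32_wQ_26_wN_1_rb8033051509x4_0

theorem g_wS_32_wQ_26_wN_1_rb8033051509x6 : GoodKC AS c_wS_32_wQ_26_wN_1_rb8033051509x6 := p_wS_32_wQ_26_wN_1_rb8033051509x4 g__wS_32_wQ_26_wN_1_rb8033051509x4_0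

theorem g_wS_32_wQ_26_wN_1_rb8033051508x6 : GoodKC AS c_wS_32_wQ_26_wN_1_rb8033051508x6 := p_wS_32_wQ_26_wN_1_rb8033051508x4

theorem g_wS_32_wQ_26_wN_1_rb8033051507x6 : GoodKC AS c_wS_32_wQ_26_wN_1_rb8033051507x6 := p_wS_32_wQ_26_wN_1_rb8033051507x4

theorem g_wS_32_wQ_26_wN_1_rb8033051506x6 : GoodKC AS c_wS_32_wQ_26_wN_1_rb8033051506x6 := p_wS_32_wQ_26_wN_1_rb8033051506x4

theorem g_wS_32_wQ_26_wN_1_rb8033051505x6 : GoodKC AS c_wS_32_wQ_26_wN_1_rb8033051505x6 := p_wS_32_wQ_26_wN_1_rb8033051505x4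

theorem g_wS_32_wQ_26_wN_1_rb8033051503x6 : GoodKC AS c_wS_32_wQ_26_wN_1_rb8033051503x6 := p_wS_32_wQ_26_wN_1_rb8033051503x4

theorem g_wS_32_wQ_26_wN_1_rb8033051501x6 : GoodKC AS c_wS_32_wQ_26_wN_1_rb8033051501x6 := p_wS_32_wQ_26_wN_1_rb8033051501x5

theorem g_wS_32_wQ_26_wN_1_rb8033051500x6 : GoodKC AS c_wS_32_wQ_26_wN_1_rb8033051500x6 := p_wS_32_wQ_26_wN_1_rb8033051500x5

theorem g__wS_32_wQ_26_wN_1_rb80330515x6_1 : GoodKC AS k_wS_32_wQ_26_wN_1_rb80330515x6_1 := p_wS_32_wQ_26_wN_1_rb80330515x6_1 g_wS_32_wQ_26_wN_1_rb8033051501x6 g_wS_32_wQ_26_wN_1_rb8033051500x6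

theorem g_wS_32_wQ_26_wN_1_rb8033051502x6 : GoodKC AS c_wS_32_wQ_26_wN_1_rb8033051502x6 := p_wS_32_wQ_26_wN_1_rb8033051502x4

theorem g_wS_32_wQ_26_wN_1_rb8033051504x6 : GoodKC AS c_wS_32_wQ_26_wN_1_rb8033051504x6 := p_wS_32_wQ_26_wN_1_rb8033051504x4

theorem g__wS_32_wQ_26_wN_1_rb80330515x6_5 : GoodKC AS k_wS_32_wQ_26_wN_1_rb80330515x6_5 := p_wS_32_wQ_26_wN_1_rb80330515x6_5

theorem g__wS_32_wQ_26_wN_1_rb80330515x6_9 : GoodKC AS k_wS_32_wQ_26_wN_1_rb80330515x6_9 := p_wS_32_wQ_26_wN_1_rb80330515x6_9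

theorem g__wS_32_wQ_26_wN_1_rb80330515x6_8 : GoodKC AS k_wS_32_wQ_26_wN_1_rb80330515x6_8 := p_wS_32_wQ_26_wN_1_rb80330515x6_8 g__wS_32_wQ_26_wN_1_rb80330515x6_9

theorem g__wS_32_wQ_26_wN_1_rb80330515x6_7 : GoodKC AS k_wS_32_wQ_26_wN_1_rb80330515x6_7 := p_wS_32_wQ_26_wN_1_rb80330515x6_7 g__wS_32_wQ_26_wN_1_rb80330515x6_8

theorem g__wS_32_wQ_26_wN_1_rb80330515x6_6 : GoodKC AS k_wS_32_wQ_26_wN_1_rb80330515x6_6 := p_wS_32_wQ_26_wN_1_rb80330515x6_6 g__wS_32_wQ_26_wN_1_rb80330515x6_7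

theorem g__wS_32_wQ_26_wN_1_rb80330515x6_4 : GoodKC AS k_wS_32_wQ_26_wN_1_rb80330515x6_4 := p_wS_32_wQ_26_wN_1_rb80330515x6_4 g__wS_32_wQ_26_wN_1_rb80330515x6_5 g__wS_32_wQ_26_wN_1_rb80330515x6_6

theorem g__wS_32_wQ_26_wN_1_rb80330515x6_11 : GoodKC AS k_wS_32_wQ_26_wN_1_rb80330515x6_11 := p_wS_32_wQ_26_wN_1_rb80330515x6_11

theorem g__wS_32_wQ_26_wN_1_rb80330515x6_10 : GoodKC AS k_wS_32_wQ_26_wN_1_rb80330515x6_10 := p_wS_32_wQ_26_wN_1_rb80330515x6_10 g__wS_32_wQ_26_wN_1_rb80330515x6_11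

theorem g__wS_32_wQ_26_wN_1_rb80330515x6_13 : GoodKC AS k_wS_32_wQ_26_wN_1_rb80330515x6_13 := p_wS_32_wQ_26_wN_1_rb80330515x6_13

theorem g__wS_32_wQ_26_wN_1_rb80330515x6_15 : GoodKC AS k_wS_32_wQ_26_wN_1_rb80330515x6_15 := p_wS_32_wQ_26_wN_1_rb80330515x6_15

theorem g__wS_32_wQ_26_wN_1_rb80330515x6_16 : GoodKC AS k_wS_32_wQ_26_wN_1_rb80330515x6_16 := p_wS_32_wQ_26_wN_1_rb80330515x6_16

theorem g__wS_32_wQ_26_wN_1_rb80330515x6_17 : GoodKC AS k_wS_32_wQ_26_wN_1_rb80330515x6_17 := p_wS_32_wQ_26_wN_1_rb80330515x6_17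

theorem g__wS_32_wQ_26_wN_1_rb80330515x6_19 : GoodKC AS k_wS_32_wQ_26_wN_1_rb80330515x6_19 := p_wS_32_wQ_26_wN_1_rb80330515x6_19

theorem g__wS_32_wQ_26_wN_1_rb80330515x6_20 : GoodKC AS k_wS_32_wQ_26_wN_1_rb80330515x6_20 := p_wS_32_wQ_26_wN_1_rb80330515x6_20

theorem g__wS_32_wQ_26_wN_1_rb80330515x6_18 : GoodKC AS k_wS_32_wQ_26_wN_1_rb80330515x6_18 := p_wS_32_wQ_26_wN_1_rb80330515x6_18 g__wS_32_wQ_26_wN_1_rb80330515x6_19 g__wS_32_wQ_26_wN_1_rb80330515x6_20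

theorem g__wS_32_wQ_26_wN_1_rb80330515x6_14 : GoodKC AS k_wS_32_wQ_26_wN_1_rb80330515x6_14 := p_wS_32_wQ_26_wN_1_rb80330515x6_14 g__wS_32_wQ_26_wN_1_rb80330515x6_15 g__wS_32_wQ_26_wN_1_rb80330515x6_16 g__wS_32_wQ_26_wN_1_rb80330515x6_17 g__wS_32_wQ_26_wN_1_rb80330515x6_18

theorem g__wS_32_wQ_26_wN_1_rb80330515x6_12 : GoodKC AS k_wS_32_wQ_26_wN_1_rb80330515x6_12 := p_wS_32_wQ_26_wN_1_rb80330515x6_12 g__wS_32_wQ_26_wN_1_rb80330515x6_13 g__wS_32_wQ_26_wN_1_rb80330515x6_14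

theorem g__wS_32_wQ_26_wN_1_rb80330515x6_3 : GoodKC AS k_wS_32_wQ_26_wN_1_rb80330515x6_3 := p_wS_32_wQ_26_wN_1_rb80330515x6_3 g__wS_32_wQ_26_wN_1_rb80330515x6_4 g__wS_32_wQ_26_wN_1_rb80330515x6_10 g__wS_32_wQ_26_wN_1_rb80330515x6_12

theorem g__wS_32_wQ_26_wN_1_rb80330515x6_2 : GoodKC AS k_wS_32_wQ_26_wN_1_rb80330515x6_2 := p_wS_32_wQ_26_wN_1_rb80330515x6_2 g__wS_32_wQ_26_wN_1_rb80330515x6_3

theorem g__wS_32_wQ_26_wN_1_rb803305150cx4_1 : GoodKC AS k_wS_32_wQ_26_wN_1_rb803305150cx4_1 := p_wS_32_wQ_26_wN_1_rb803305150cx4_1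

theorem g__wS_32_wQ_26_wN_1_rb803305150cx4_0 : GoodKC AS k_wS_32_wQ_26_wN_1_rb803305150cx4_0 := p_wS_32_wQ_26_wN_1_rb803305150cx4_0 g__wS_32_wQ_26_wN_1_rb803305150cx4_1

theorem g__wS_32_wQ_26_wN_1_rb803305150cx4_5 : GoodKC AS k_wS_32_wQ_26_wN_1_rb803305150cx4_5 := p_wS_32_wQ_26_wN_1_rb803305150cx4_5

theorem g__wS_32_wQ_26_wN_1_rb803305150cx4_6 : GoodKC AS k_wS_32_wQ_26_wN_1_rb803305150cx4_6 := p_wS_32_wQ_26_wN_1_rb803305150cx4_6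

theorem g__wS_32_wQ_26_wN_1_rb803305150cx4_4 : GoodKC AS k_wS_32_wQ_26_wN_1_rb803305150cx4_4 := p_wS_32_wQ_26_wN_1_rb803305150cx4_4 g__wS_32_wQ_26_wN_1_rb803305150cx4_5 g__wS_32_wQ_26_wN_1_rb803305150cx4_6

theorem g__wS_32_wQ_26_wN_1_rb803305150cx4_3 : GoodKC AS k_wS_32_wQ_26_wN_1_rb803305150cx4_3 := p_wS_32_wQ_26_wN_1_rb803305150cx4_3 g__wS_32_wQ_26_wN_1_rb803305150cx4_4

theorem g__wS_32_wQ_26_wN_1_rb803305150cx4_7 : GoodKC AS k_wS_32_wQ_26_wN_1_rb803305150cx4_7 := p_wS_32_wQ_26_wN_1_rb803305150cx4_7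

theorem g__wS_32_wQ_26_wN_1_rb803305150cx4_2 : GoodKC AS k_wS_32_wQ_26_wN_1_rb803305150cx4_2 := p_wS_32_wQ_26_wN_1_rb803305150cx4_2 g__wS_32_wQ_26_wN_1_rb803305150cx4_3 g__wS_32_wQ_26_wN_1_rb803305150cx4_7

theorem g_wS_32_wQ_26_wN_1_rb803305150cx6 : GoodKC AS c_wS_32_wQ_26_wN_1_rb803305150cx6 := p_wS_32_wQ_26_wN_1_rb803305150cx4 g__wS_32_wQ_26_wN_1_rb803305150cx4_0 g__wS_32_wQ_26_wN_1_rb803305150cx4_2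

theorem g_wS_32_wQ_26_wN_1_rb8033051514x6 : GoodKC AS c_wS_32_wQ_26_wN_1_rb8033051514x6 := p_wS_32_wQ_26_wN_1_rb8033051514x4

theorem g_wS_32_wQ_26_wN_1_rb8033051520x6 : GoodKC AS c_wS_32_wQ_26_wN_1_rb8033051520x6 := p_wS_32_wQ_26_wN_1_rb8033051520x4

theorem g_wS_32_wQ_26_wN_1_rb8033051523x6 : GoodKC AS c_wS_32_wQ_26_wN_1_rb8033051523x6 := p_wS_32_wQ_26_wN_1_rb8033051523x4

theorem g__wS_32_wQ_26_wN_1_rb80330515x6_0 : GoodKC AS k_wS_32_wQ_26_wN_1_rb80330515x6_0 := p_wS_32_wQ_26_wN_1_rb80330515x6_0 g_wS_32_wQ_26_wN_1_rb8033051524x6 g_wS_32_wQ_26_wN_1_rb8033051522x6 g_wS_32_wQ_26_wN_1_rb8033051521x6 g_wS_32_wQ_26_wN_1_rb803305151fx6 g_wS_32_wQ_26_wN_1_rb803305151ex6 g_wS_32_wQ_26_wN_1_rb803305151dx6 g_wS_32_wQ_26_wN_1_rb803305151cx6 g_wS_32_wQ_26_wN_1_rb803305151bx6 g_wS_32_wQ_26_wN_1_rb803305151ax6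 g_wS_32_wQ_26_wN_1_rb8033051519x6 g_wS_32_wQ_26_wN_1_rb8033051518x6 g_wS_32_wQ_26_wN_1_rb8033051517x6 g_wS_32_wQ_26_wN_1_rb8033051516x6 g_wS_32_wQ_26_wN_1_rb8033051515x6 g_wS_32_wQ_26_wN_1_rb8033051513x6 g_wS_32_wQ_26_wN_1_rb8033051512x6 g_wS_32_wQ_26_wN_1_rb8033051511x6 g_wS_32_wQ_26_wN_1_rb8033051510x6 g_wS_32_wQ_26_wN_1_rb803305150fx6 g_wS_32_wQ_26_wN_1_rb803305150ex6 g_wS_32_wQ_26_wN_1_rb803305150dx6 g_wS_32_wQ_26_wN_1_rb803305150bx6 g_wS_32_wQ_26_wN_1_rb803305150ax6 g_wS_32_wQ_26_wN_1_rb8033051509x6 g_wS_32_wQ_26_wN_1_rb8033051508x6 g_wS_32_wQ_26_wN_1_rb8033051507x6 g_wS_32_wQ_26_wN_1_rb8033051506x6 g_wS_32_wQ_26_wN_1_rb8033051505x6 g_wS_32_wQ_26_wN_1_rb8033051503x6 g__wS_32_wQ_26_wN_1_rb80330515x6_1 g_wS_32_wQ_26_wN_1_rb8033051502x6 g_wS_32_wQ_26_wN_1_rb8033051504x6 g__wS_32_wQ_26_wN_1_rb80330515x6_2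 g_wS_32_wQ_26_wN_1_rb803305150cx6 g_wS_32_wQ_26_wN_1_rb8033051514x6 g_wS_32_wQ_26_wN_1_rb8033051520x6 g_wS_32_wQ_26_wN_1_rb8033051523x6

theorem g__wS_32_wQ_26_wN_1_rb80330515x6_22 : GoodKC AS k_wS_32_wQ_26_wN_1_rb80330515x6_22 := p_wS_32_wQ_26_wN_1_rb80330515x6_22

theorem g__wS_32_wQ_26_wN_1_rb80330515x6_24 : GoodKC AS k_wS_32_wQ_26_wN_1_rb80330515x6_24 := p_wS_32_wQ_26_wN_1_rb80330515x6_24

theorem g__wS_32_wQ_26_wN_1_rb80330515x6_23 : GoodKC AS k_wS_32_wQ_26_wN_1_rb80330515x6_23 := p_wS_32_wQ_26_wN_1_rb80330515x6_23 g__wS_32_wQ_26_wN_1_rb80330515x6_24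

theorem g__wS_32_wQ_26_wN_1_rb80330515x6_21 : GoodKC AS k_wS_32_wQ_26_wN_1_rb80330515x6_21 := p_wS_32_wQ_26_wN_1_rb80330515x6_21 g__wS_32_wQ_26_wN_1_rb80330515x6_22 g__wS_32_wQ_26_wN_1_rb80330515x6_23

theorem g__wS_32_wQ_26_wN_1_rb8033051526x4_0 : GoodKC AS k_wS_32_wQ_26_wN_1_rb8033051526x4_0 := p_wS_32_wQ_26_wN_1_rb8033051526x4_0

theorem g_wS_32_wQ_26_wN_1_rb8033051526x6 : GoodKC AS c_wS_32_wQ_26_wN_1_rb8033051526x6 := p_wS_32_wQ_26_wN_1_rb8033051526x4 g__wS_32_wQ_26_wN_1_rb8033051526x4_0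

theorem g_wS_32_wQ_26_wN_1_rb8033051527x6 : GoodKC AS c_wS_32_wQ_26_wN_1_rb8033051527x6 := p_wS_32_wQ_26_wN_1_rb8033051527x4

theorem g_wS_32_wQ_26_wN_1_rb8033051528x6 : GoodKC AS c_wS_32_wQ_26_wN_1_rb8033051528x6 := p_wS_32_wQ_26_wN_1_rb8033051528x4

theorem g_wS_32_wQ_26_wN_1_rb803305152bx6 : GoodKC AS c_wS_32_wQ_26_wN_1_rb803305152bx6 := p_wS_32_wQ_26_wN_1_rb803305152bx4

theorem g_wS_32_wQ_26_wN_1_rb803305152c12x4 : GoodKC AS c_wS_32_wQ_26_wN_1_rb803305152c12x4 := p_wS_32_wQ_26_wN_1_rb803305152c12x3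

theorem g_wS_32_wQ_26_wN_1_rb803305152c11x4 : GoodKC AS c_wS_32_wQ_26_wN_1_rb803305152c11x4 := p_wS_32_wQ_26_wN_1_rb803305152c11x3

theorem g_wS_32_wQ_26_wN_1_rb803305152c10x4 : GoodKC AS c_wS_32_wQ_26_wN_1_rb803305152c10x4 := p_wS_32_wQ_26_wN_1_rb803305152c10x3

theorem g_wS_32_wQ_26_wN_1_rb803305152c0fx4 : GoodKC AS c_wS_32_wQ_26_wN_1_rb803305152c0fx4 := p_wS_32_wQ_26_wN_1_rb803305152c0fx3

theorem g_wS_32_wQ_26_wN_1_rb803305152c0ex4 : GoodKC AS c_wS_32_wQ_26_wN_1_rb803305152c0ex4 := p_wS_32_wQ_26_wN_1_rb803305152c0ex3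

theorem g_wS_32_wQ_26_wN_1_rb803305152c0dx4 : GoodKC AS c_wS_32_wQ_26_wN_1_rb803305152c0dx4 := p_wS_32_wQ_26_wN_1_rb803305152c0dx3

theorem g_wS_32_wQ_26_wN_1_rb803305152c0cx4 : GoodKC AS c_wS_32_wQ_26_wN_1_rb803305152c0cx4 := p_wS_32_wQ_26_wN_1_rb803305152c0cx3

theorem g_wS_32_wQ_26_wN_1_rb803305152c0ax4 : GoodKC AS c_wS_32_wQ_26_wN_1_rb803305152c0ax4 := p_wS_32_wQ_26_wN_1_rb803305152c0ax3

theorem g_wS_32_wQ_26_wN_1_rb803305152c09x4 : GoodKC AS c_wS_32_wQ_26_wN_1_rb803305152c09x4 := p_wS_32_wQ_26_wN_1_rb803305152c09x3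

theorem g_wS_32_wQ_26_wN_1_rb803305152c08x4 : GoodKC AS c_wS_32_wQ_26_wN_1_rb803305152c08x4 := p_wS_32_wQ_26_wN_1_rb803305152c08x3

theorem g_wS_32_wQ_26_wN_1_rb803305152c06x4 : GoodKC AS c_wS_32_wQ_26_wN_1_rb803305152c06x4 := p_wS_32_wQ_26_wN_1_rb803305152c06x3

theorem g_wS_32_wQ_26_wN_1_rb803305152c04x4 : GoodKC AS c_wS_32_wQ_26_wN_1_rb803305152c04x4 := p_wS_32_wQ_26_wN_1_rb803305152c04x3

theorem g_wS_32_wQ_26_wN_1_rb803305152c02x4 : GoodKC AS c_wS_32_wQ_26_wN_1_rb803305152c02x4 := p_wS_32_wQ_26_wN_1_rb803305152c02x3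

theorem g_wS_32_wQ_26_wN_1_rb803305152c01x4 : GoodKC AS c_wS_32_wQ_26_wN_1_rb803305152c01x4 := p_wS_32_wQ_26_wN_1_rb803305152c01x3

theorem g_wS_32_wQ_26_wN_1_rb803305152c00x4 : GoodKC AS c_wS_32_wQ_26_wN_1_rb803305152c00x4 := p_wS_32_wQ_26_wN_1_rb803305152c00x3

theorem g__wS_32_wQ_26_wN_1_rb803305152cx4_1 : GoodKC AS k_wS_32_wQ_26_wN_1_rb803305152cx4_1 := p_wS_32_wQ_26_wN_1_rb803305152cx4_1

theorem g__wS_32_wQ_26_wN_1_rb803305152cx4_0 : GoodKC AS k_wS_32_wQ_26_wN_1_rb803305152cx4_0 := p_wS_32_wQ_26_wN_1_rb803305152cx4_0 g__wS_32_wQ_26_wN_1_rb803305152cx4_1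

theorem g_wS_32_wQ_26_wN_1_rb803305152c03x4 : GoodKC AS c_wS_32_wQ_26_wN_1_rb803305152c03x4 := p_wS_32_wQ_26_wN_1_rb803305152c03x3

theorem g_wS_32_wQ_26_wN_1_rb803305152c05x4 : GoodKC AS c_wS_32_wQ_26_wN_1_rb803305152c05x4 := p_wS_32_wQ_26_wN_1_rb803305152c05x3

theorem g_wS_32_wQ_26_wN_1_rb803305152c07x4 : GoodKC AS c_wS_32_wQ_26_wN_1_rb803305152c07x4 := p_wS_32_wQ_26_wN_1_rb803305152c07x3

theorem g_wS_32_wQ_26_wN_1_rb803305152c0bx4 : GoodKC AS c_wS_32_wQ_26_wN_1_rb803305152c0bx4 := p_wS_32_wQ_26_wN_1_rb803305152c0bx3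

theorem g__wS_32_wQ_26_wN_1_rb803305152cx4_6 : GoodKC AS k_wS_32_wQ_26_wN_1_rb803305152cx4_6 := p_wS_32_wQ_26_wN_1_rb803305152cx4_6

theorem g__wS_32_wQ_26_wN_1_rb803305152cx4_5 : GoodKC AS k_wS_32_wQ_26_wN_1_rb803305152cx4_5 := p_wS_32_wQ_26_wN_1_rb803305152cx4_5 g__wS_32_wQ_26_wN_1_rb803305152cx4_6

theorem g__wS_32_wQ_26_wN_1_rb803305152cx4_4 : GoodKC AS k_wS_32_wQ_26_wN_1_rb803305152cx4_4 := p_wS_32_wQ_26_wN_1_rb803305152cx4_4 g__wS_32_wQ_26_wN_1_rb803305152cx4_5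

theorem g__wS_32_wQ_26_wN_1_rb803305152cx4_3 : GoodKC AS k_wS_32_wQ_26_wN_1_rb803305152cx4_3 := p_wS_32_wQ_26_wN_1_rb803305152cx4_3 g__wS_32_wQ_26_wN_1_rb803305152cx4_4

theorem g__wS_32_wQ_26_wN_1_rb803305152cx4_2 : GoodKC AS k_wS_32_wQ_26_wN_1_rb803305152cx4_2 := p_wS_32_wQ_26_wN_1_rb803305152cx4_2 g__wS_32_wQ_26_wN_1_rb803305152cx4_3

theorem g__wS_32_wQ_26_wN_1_rb803305152cx4_7 : GoodKC AS k_wS_32_wQ_26_wN_1_rb803305152cx4_7 := p_wS_32_wQ_26_wN_1_rb803305152cx4_7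

theorem g_wS_32_wQ_26_wN_1_rb803305152cx6 : GoodKC AS c_wS_32_wQ_26_wN_1_rb803305152cx6 := p_wS_32_wQ_26_wN_1_rb803305152cx4 g_wS_32_wQ_26_wN_1_rb803305152c12x4 g_wS_32_wQ_26_wN_1_rb803305152c11x4 g_wS_32_wQ_26_wN_1_rb803305152c10x4 g_wS_32_wQ_26_wN_1_rb803305152c0fx4 g_wS_32_wQ_26_wN_1_rb803305152c0ex4 g_wS_32_wQ_26_wN_1_rb803305152c0dx4 g_wS_32_wQ_26_wN_1_rb803305152c0cx4 g_wS_32_wQ_26_wN_1_rb803305152c0ax4 g_wS_32_wQ_26_wN_1_rb803305152c09x4 g_wS_32_wQ_26_wN_1_rb803305152c08x4 g_wS_32_wQ_26_wN_1_rb803305152c06x4 g_wS_32_wQ_26_wN_1_rb803305152c04x4 g_wS_32_wQ_26_wN_1_rb803305152c02x4 g_wS_32_wQ_26_wN_1_rb803305152c01x4 g_wS_32_wQ_26_wN_1_rb803305152c00x4 g__wS_32_wQ_26_wN_1_rb803305152cx4_0 g_wS_32_wQ_26_wN_1_rb803305152c03x4 g_wS_32_wQ_26_wN_1_rb803305152c05x4 g_wS_32_wQ_26_wN_1_rb803305152c07x4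 g_wS_32_wQ_26_wN_1_rb803305152c0bx4 g__wS_32_wQ_26_wN_1_rb803305152cx4_2 g__wS_32_wQ_26_wN_1_rb803305152cx4_7

theorem g__wS_32_wQ_26_wN_1_rb803305152fx4_0 : GoodKC AS k_wS_32_wQ_26_wN_1_rb803305152fx4_0 := p_wS_32_wQ_26_wN_1_rb803305152fx4_0

theorem g__wS_32_wQ_26_wN_1_rb803305152fx4_1 : GoodKC AS k_wS_32_wQ_26_wN_1_rb803305152fx4_1 := p_wS_32_wQ_26_wN_1_rb803305152fx4_1

theorem g_wS_32_wQ_26_wN_1_rb803305152fx6 : GoodKC AS c_wS_32_wQ_26_wN_1_rb803305152fx6 := p_wS_32_wQ_26_wN_1_rb803305152fx4 g__wS_32_wQ_26_wN_1_rb803305152fx4_0 g__wS_32_wQ_26_wN_1_rb803305152fx4_1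

theorem g__wS_32_wQ_26_wN_1_rb8033051530v4_2 : GoodKC AS k_wS_32_wQ_26_wN_1_rb8033051530v4_2 := p_wS_32_wQ_26_wN_1_rb8033051530v4_2

theorem g__wS_32_wQ_26_wN_1_rb8033051530v4_1 : GoodKC AS k_wS_32_wQ_26_wN_1_rb8033051530v4_1 := p_wS_32_wQ_26_wN_1_rb8033051530v4_1 g__wS_32_wQ_26_wN_1_rb8033051530v4_2

theorem g__wS_32_wQ_26_wN_1_rb8033051530v4_0 : GoodKC AS k_wS_32_wQ_26_wN_1_rb8033051530v4_0 := p_wS_32_wQ_26_wN_1_rb8033051530v4_0 g__wS_32_wQ_26_wN_1_rb8033051530v4_1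

theorem g_wS_32_wQ_26_wN_1_rb8033051530x6 : GoodKC AS c_wS_32_wQ_26_wN_1_rb8033051530x6 := p_wS_32_wQ_26_wN_1_rb8033051530x4 g__wS_32_wQ_26_wN_1_rb8033051530v4_0

theorem g_wS_32_wQ_26_wN_1_rb8033051532x6 : GoodKC AS c_wS_32_wQ_26_wN_1_rb8033051532x6 := p_wS_32_wQ_26_wN_1_rb8033051532x4

theorem g_wS_32_wQ_26_wN_1_rb8033051534x6 : GoodKC AS c_wS_32_wQ_26_wN_1_rb8033051534x6 := p_wS_32_wQ_26_wN_1_rb8033051534x4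

theorem g_wS_32_wQ_26_wN_1_rb8033051535x6 : GoodKC AS c_wS_32_wQ_26_wN_1_rb8033051535x6 := p_wS_32_wQ_26_wN_1_rb8033051535x4

theorem g_wS_32_wQ_26_wN_1_rb8033051538x6 : GoodKC AS c_wS_32_wQ_26_wN_1_rb8033051538x6 := p_wS_32_wQ_26_wN_1_rb8033051538x4

theorem g_wS_32_wQ_26_wN_1_rb8033051539x6 : GoodKC AS c_wS_32_wQ_26_wN_1_rb8033051539x6 := p_wS_32_wQ_26_wN_1_rb8033051539x4

theorem g_wS_32_wQ_26_wN_1_rb803305153ax6 : GoodKC AS c_wS_32_wQ_26_wN_1_rb803305153ax6 := p_wS_32_wQ_26_wN_1_rb803305153ax4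

theorem g_wS_32_wQ_26_wN_1_rb803305153cx6 : GoodKC AS c_wS_32_wQ_26_wN_1_rb803305153cx6 := p_wS_32_wQ_26_wN_1_rb803305153cx4

theorem g_wS_32_wQ_26_wN_1_rb803305153dx6 : GoodKC AS c_wS_32_wQ_26_wN_1_rb803305153dx6 := p_wS_32_wQ_26_wN_1_rb803305153dx4

theorem g_wS_32_wQ_26_wN_1_rb803305154007x4 : GoodKC AS c_wS_32_wQ_26_wN_1_rb803305154007x4 := p_wS_32_wQ_26_wN_1_rb803305154007x3

theorem g_wS_32_wQ_26_wN_1_rb803305154006x4 : GoodKC AS c_wS_32_wQ_26_wN_1_rb803305154006x4 := p_wS_32_wQ_26_wN_1_rb803305154006x3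

theorem g_wS_32_wQ_26_wN_1_rb803305154005x4 : GoodKC AS c_wS_32_wQ_26_wN_1_rb803305154005x4 := p_wS_32_wQ_26_wN_1_rb803305154005x3

theorem g_wS_32_wQ_26_wN_1_rb803305154004x4 : GoodKC AS c_wS_32_wQ_26_wN_1_rb803305154004x4 := p_wS_32_wQ_26_wN_1_rb803305154004x3

theorem g_wS_32_wQ_26_wN_1_rb803305154003x4 : GoodKC AS c_wS_32_wQ_26_wN_1_rb803305154003x4 := p_wS_32_wQ_26_wN_1_rb803305154003x3

theorem g_wS_32_wQ_26_wN_1_rb803305154002x4 : GoodKC AS c_wS_32_wQ_26_wN_1_rb803305154002x4 := p_wS_32_wQ_26_wN_1_rb803305154002x3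

theorem g__wS_32_wQ_26_wN_1_rb8033051540v4_2 : GoodKC AS k_wS_32_wQ_26_wN_1_rb8033051540v4_2 := p_wS_32_wQ_26_wN_1_rb8033051540v4_2

theorem g__wS_32_wQ_26_wN_1_rb8033051540v4_1 : GoodKC AS k_wS_32_wQ_26_wN_1_rb8033051540v4_1 := p_wS_32_wQ_26_wN_1_rb8033051540v4_1 g__wS_32_wQ_26_wN_1_rb8033051540v4_2

theorem g__wS_32_wQ_26_wN_1_rb8033051540v4_5 : GoodKC AS k_wS_32_wQ_26_wN_1_rb8033051540v4_5 := p_wS_32_wQ_26_wN_1_rb8033051540v4_5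

theorem g__wS_32_wQ_26_wN_1_rb8033051540v4_7 : GoodKC AS k_wS_32_wQ_26_wN_1_rb8033051540v4_7 := p_wS_32_wQ_26_wN_1_rb8033051540v4_7

theorem g__wS_32_wQ_26_wN_1_rb8033051540v4_6 : GoodKC AS k_wS_32_wQ_26_wN_1_rb8033051540v4_6 := p_wS_32_wQ_26_wN_1_rb8033051540v4_6 g__wS_32_wQ_26_wN_1_rb8033051540v4_7

theorem g__wS_32_wQ_26_wN_1_rb8033051540v4_4 : GoodKC AS k_wS_32_wQ_26_wN_1_rb8033051540v4_4 := p_wS_32_wQ_26_wN_1_rb8033051540v4_4 g__wS_32_wQ_26_wN_1_rb8033051540v4_5 g__wS_32_wQ_26_wN_1_rb8033051540v4_6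

theorem g__wS_32_wQ_26_wN_1_rb8033051540v4_9 : GoodKC AS k_wS_32_wQ_26_wN_1_rb8033051540v4_9 := p_wS_32_wQ_26_wN_1_rb8033051540v4_9

theorem g__wS_32_wQ_26_wN_1_rb8033051540v4_8 : GoodKC AS k_wS_32_wQ_26_wN_1_rb8033051540v4_8 := p_wS_32_wQ_26_wN_1_rb8033051540v4_8 g__wS_32_wQ_26_wN_1_rb8033051540v4_9

theorem g__wS_32_wQ_26_wN_1_rb8033051540v4_10 : GoodKC AS k_wS_32_wQ_26_wN_1_rb8033051540v4_10 := p_wS_32_wQ_26_wN_1_rb8033051540v4_10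

theorem g__wS_32_wQ_26_wN_1_rb8033051540v4_3 : GoodKC AS k_wS_32_wQ_26_wN_1_rb8033051540v4_3 := p_wS_32_wQ_26_wN_1_rb8033051540v4_3 g__wS_32_wQ_26_wN_1_rb8033051540v4_4 g__wS_32_wQ_26_wN_1_rb8033051540v4_8 g__wS_32_wQ_26_wN_1_rb8033051540v4_10

theorem g__wS_32_wQ_26_wN_1_rb8033051540v4_0 : GoodKC AS k_wS_32_wQ_26_wN_1_rb8033051540v4_0 := p_wS_32_wQ_26_wN_1_rb8033051540v4_0 g__wS_32_wQ_26_wN_1_rb8033051540v4_1 g__wS_32_wQ_26_wN_1_rb8033051540v4_3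

theorem g_wS_32_wQ_26_wN_1_rb803305154000x4 : GoodKC AS c_wS_32_wQ_26_wN_1_rb803305154000x4 := p_wS_32_wQ_26_wN_1_rb803305154000x3

theorem g_wS_32_wQ_26_wN_1_rb803305154001x4 : GoodKC AS c_wS_32_wQ_26_wN_1_rb803305154001x4 := p_wS_32_wQ_26_wN_1_rb803305154001x3

theorem g_wS_32_wQ_26_wN_1_rb803305154008x4 : GoodKC AS c_wS_32_wQ_26_wN_1_rb803305154008x4 := p_wS_32_wQ_26_wN_1_rb803305154008x3

theorem g_wS_32_wQ_26_wN_1_rb803305154009x4 : GoodKC AS c_wS_32_wQ_26_wN_1_rb803305154009x4 := p_wS_32_wQ_26_wN_1_rb803305154009x3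

theorem g_wS_32_wQ_26_wN_1_rb8033051540x6 : GoodKC AS c_wS_32_wQ_26_wN_1_rb8033051540x6 := p_wS_32_wQ_26_wN_1_rb8033051540x4 g_wS_32_wQ_26_wN_1_rb803305154007x4 g_wS_32_wQ_26_wN_1_rb803305154006x4 g_wS_32_wQ_26_wN_1_rb803305154005x4 g_wS_32_wQ_26_wN_1_rb803305154004x4 g_wS_32_wQ_26_wN_1_rb803305154003x4 g_wS_32_wQ_26_wN_1_rb803305154002x4 g__wS_32_wQ_26_wN_1_rb8033051540v4_0 g_wS_32_wQ_26_wN_1_rb803305154000x4 g_wS_32_wQ_26_wN_1_rb803305154001x4 g_wS_32_wQ_26_wN_1_rb803305154008x4 g_wS_32_wQ_26_wN_1_rb803305154009x4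

theorem g__wS_32_wQ_26_wN_1_rb8033051541x4_0 : GoodKC AS k_wS_32_wQ_26_wN_1_rb8033051541x4_0 := p_wS_32_wQ_26_wN_1_rb8033051541x4_0

theorem g_wS_32_wQ_26_wN_1_rb8033051541x6 : GoodKC AS c_wS_32_wQ_26_wN_1_rb8033051541x6 := p_wS_32_wQ_26_wN_1_rb8033051541x4 g__wS_32_wQ_26_wN_1_rb8033051541x4_0

theorem g_wS_32_wQ_26_wN_1_rb80330515x17 : GoodKC AS c_wS_32_wQ_26_wN_1_rb80330515x17 := p_wS_32_wQ_26_wN_1_rb80330515x6 g_wS_32_wQ_26_wN_1_rb8033051546x6 g_wS_32_wQ_26_wN_1_rb8033051545x6 g_wS_32_wQ_26_wN_1_rb8033051544x6 g_wS_32_wQ_26_wN_1_rb8033051543x6 g_wS_32_wQ_26_wN_1_rb8033051542x6 g_wS_32_wQ_26_wN_1_rb803305153fx6 g_wS_32_wQ_26_wN_1_rb803305153ex6 g_wS_32_wQ_26_wN_1_rb803305153bx6 g_wS_32_wQ_26_wN_1_rb8033051537x6 g_wS_32_wQ_26_wN_1_rb8033051536x6 g_wS_32_wQ_26_wN_1_rb8033051533x6 g_wS_32_wQ_26_wN_1_rb8033051531x6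 g_wS_32_wQ_26_wN_1_rb803305152ex6 g_wS_32_wQ_26_wN_1_rb803305152dx6 g_wS_32_wQ_26_wN_1_rb803305152ax6 g_wS_32_wQ_26_wN_1_rb8033051529x6 g_wS_32_wQ_26_wN_1_rb8033051525x6 g__wS_32_wQ_26_wN_1_rb80330515x6_0 g__wS_32_wQ_26_wN_1_rb80330515x6_21 g_wS_32_wQ_26_wN_1_rb8033051526x6 g_wS_32_wQ_26_wN_1_rb8033051527x6 g_wS_32_wQ_26_wN_1_rb8033051528x6 g_wS_32_wQ_26_wN_1_rb803305152bx6 g_wS_32_wQ_26_wN_1_rb803305152cx6 g_wS_32_wQ_26_wN_1_rb803305152fx6 g_wS_32_wQ_26_wN_1_rb8033051530x6 g_wS_32_wQ_26_wN_1_rb8033051532x6 g_wS_32_wQ_26_wN_1_rb8033051534x6 g_wS_32_wQ_26_wN_1_rb8033051535x6 g_wS_32_wQ_26_wN_1_rb8033051538x6 g_wS_32_wQ_26_wN_1_rb8033051539x6 g_wS_32_wQ_26_wN_1_rb803305153ax6 g_wS_32_wQ_26_wN_1_rb803305153cx6 g_wS_32_wQ_26_wN_1_rb803305153dx6 g_wS_32_wQ_26_wN_1_rb8033051540x6 g_wS_32_wQ_26_wN_1_rb8033051541x6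

theorem g_wS_32_wQ_26_wN_1_rb80330516x17 : GoodKC AS c_wS_32_wQ_26_wN_1_rb80330516x17 := p_wS_32_wQ_26_wN_1_rb80330516x7

theorem g_wS_32_wQ_26_wN_1_rb80330517x17 : GoodKC AS c_wS_32_wQ_26_wN_1_rb80330517x17 := p_wS_32_wQ_26_wN_1_rb80330517x7

theorem g__wS_32_wQ_26_wN_1_rb80330518x7_0 : GoodKC AS k_wS_32_wQ_26_wN_1_rb80330518x7_0 := p_wS_32_wQ_26_wN_1_rb80330518x7_0

theorem g_wS_32_wQ_26_wN_1_rb80330518x17 : GoodKC AS c_wS_32_wQ_26_wN_1_rb80330518x17 := p_wS_32_wQ_26_wN_1_rb80330518x7 g__wS_32_wQ_26_wN_1_rb80330518x7_0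

theorem g_wS_32_wQ_26_wN_1_rb8033051ax17 : GoodKC AS c_wS_32_wQ_26_wN_1_rb8033051ax17 := p_wS_32_wQ_26_wN_1_rb8033051ax7

theorem g_wS_32_wQ_26_wN_1_rb8033051dx17 : GoodKC AS c_wS_32_wQ_26_wN_1_rb8033051dx17 := p_wS_32_wQ_26_wN_1_rb8033051dx7

theorem g__wS_32_wQ_26_wN_1_rb8033051ex7_1 : GoodKC AS k_wS_32_wQ_26_wN_1_rb8033051ex7_1 := p_wS_32_wQ_26_wN_1_rb8033051ex7_1

theorem g__wS_32_wQ_26_wN_1_rb8033051ex7_0 : GoodKC AS k_wS_32_wQ_26_wN_1_rb8033051ex7_0 := p_wS_32_wQ_26_wN_1_rb8033051ex7_0 g__wS_32_wQ_26_wN_1_rb8033051ex7_1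

theorem g__wS_32_wQ_26_wN_1_rb8033051ex7_3 : GoodKC AS k_wS_32_wQ_26_wN_1_rb8033051ex7_3 := p_wS_32_wQ_26_wN_1_rb8033051ex7_3

theorem g__wS_32_wQ_26_wN_1_rb8033051ex7_2 : GoodKC AS k_wS_32_wQ_26_wN_1_rb8033051ex7_2 := p_wS_32_wQ_26_wN_1_rb8033051ex7_2 g__wS_32_wQ_26_wN_1_rb8033051ex7_3

theorem g_wS_32_wQ_26_wN_1_rb8033051ex17 : GoodKC AS c_wS_32_wQ_26_wN_1_rb8033051ex17 := p_wS_32_wQ_26_wN_1_rb8033051ex7 g__wS_32_wQ_26_wN_1_rb8033051ex7_0 g__wS_32_wQ_26_wN_1_rb8033051ex7_2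

theorem g_wS_32_wQ_26_wN_1_rb8033051fx17 : GoodKC AS c_wS_32_wQ_26_wN_1_rb8033051fx17 := p_wS_32_wQ_26_wN_1_rb8033051fx7

theorem g__wS_32_wQ_26_wN_1_rb80330520v7_1 : GoodKC AS k_wS_32_wQ_26_wN_1_rb80330520v7_1 := p_wS_32_wQ_26_wN_1_rb80330520v7_1

theorem g__wS_32_wQ_26_wN_1_rb80330520v7_0 : GoodKC AS k_wS_32_wQ_26_wN_1_rb80330520v7_0 := p_wS_32_wQ_26_wN_1_rb80330520v7_0 g__wS_32_wQ_26_wN_1_rb80330520v7_1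

theorem g_wS_32_wQ_26_wN_1_rb80330520x17 : GoodKC AS c_wS_32_wQ_26_wN_1_rb80330520x17 := p_wS_32_wQ_26_wN_1_rb80330520x7 g__wS_32_wQ_26_wN_1_rb80330520v7_0

theorem g__wS_32_wQ_26_wN_1_rb8033052ax7_2 : GoodKC AS k_wS_32_wQ_26_wN_1_rb8033052ax7_2 := p_wS_32_wQ_26_wN_1_rb8033052ax7_2

theorem g__wS_32_wQ_26_wN_1_rb8033052ax7_3 : GoodKC AS k_wS_32_wQ_26_wN_1_rb8033052ax7_3 := p_wS_32_wQ_26_wN_1_rb8033052ax7_3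

theorem g__wS_32_wQ_26_wN_1_rb8033052ax7_4 : GoodKC AS k_wS_32_wQ_26_wN_1_rb8033052ax7_4 := p_wS_32_wQ_26_wN_1_rb8033052ax7_4

theorem g__wS_32_wQ_26_wN_1_rb8033052ax7_1 : GoodKC AS k_wS_32_wQ_26_wN_1_rb8033052ax7_1 := p_wS_32_wQ_26_wN_1_rb8033052ax7_1 g__wS_32_wQ_26_wN_1_rb8033052ax7_2 g__wS_32_wQ_26_wN_1_rb8033052ax7_3 g__wS_32_wQ_26_wN_1_rb8033052ax7_4

theorem g__wS_32_wQ_26_wN_1_rb8033052ax7_0 : GoodKC AS k_wS_32_wQ_26_wN_1_rb8033052ax7_0 := p_wS_32_wQ_26_wN_1_rb8033052ax7_0 g__wS_32_wQ_26_wN_1_rb8033052ax7_1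

theorem g__wS_32_wQ_26_wN_1_rb8033052ax7_6 : GoodKC AS k_wS_32_wQ_26_wN_1_rb8033052ax7_6 := p_wS_32_wQ_26_wN_1_rb8033052ax7_6

theorem g__wS_32_wQ_26_wN_1_rb8033052ax7_5 : GoodKC AS k_wS_32_wQ_26_wN_1_rb8033052ax7_5 := p_wS_32_wQ_26_wN_1_rb8033052ax7_5 g__wS_32_wQ_26_wN_1_rb8033052ax7_6

theorem g_wS_32_wQ_26_wN_1_rb8033052ax17 : GoodKC AS c_wS_32_wQ_26_wN_1_rb8033052ax17 := p_wS_32_wQ_26_wN_1_rb8033052ax7 g__wS_32_wQ_26_wN_1_rb8033052ax7_0 g__wS_32_wQ_26_wN_1_rb8033052ax7_5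

theorem g_wS_32_wQ_26_wN_1_rb8033052bx17 : GoodKC AS c_wS_32_wQ_26_wN_1_rb8033052bx17 := p_wS_32_wQ_26_wN_1_rb8033052bx7

theorem g__wS_32_wQ_26_wN_1_rb8033052cx7_0 : GoodKC AS k_wS_32_wQ_26_wN_1_rb8033052cx7_0 := p_wS_32_wQ_26_wN_1_rb8033052cx7_0

theorem g_wS_32_wQ_26_wN_1_rb8033052cx17 : GoodKC AS c_wS_32_wQ_26_wN_1_rb8033052cx17 := p_wS_32_wQ_26_wN_1_rb8033052cx7 g__wS_32_wQ_26_wN_1_rb8033052cx7_0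

theorem g_wS_32_wQ_26_wN_1_rb8033052ex17 : GoodKC AS c_wS_32_wQ_26_wN_1_rb8033052ex17 := p_wS_32_wQ_26_wN_1_rb8033052ex7

theorem g_wS_32_wQ_26_wN_1_rb80330530x17 : GoodKC AS c_wS_32_wQ_26_wN_1_rb80330530x17 := p_wS_32_wQ_26_wN_1_rb80330530x7

theorem g_wS_32_wQ_26_wN_1_rb80330531x17 : GoodKC AS c_wS_32_wQ_26_wN_1_rb80330531x17 := p_wS_32_wQ_26_wN_1_rb80330531x7

theorem g_wS_32_wQ_26_wN_1_rb80330532x17 : GoodKC AS c_wS_32_wQ_26_wN_1_rb80330532x17 := p_wS_32_wQ_26_wN_1_rb80330532x7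

theorem g__wS_32_wQ_26_wN_1_rb80330533x7_0 : GoodKC AS k_wS_32_wQ_26_wN_1_rb80330533x7_0 := p_wS_32_wQ_26_wN_1_rb80330533x7_0

theorem g_wS_32_wQ_26_wN_1_rb80330533x17 : GoodKC AS c_wS_32_wQ_26_wN_1_rb80330533x17 := p_wS_32_wQ_26_wN_1_rb80330533x7 g__wS_32_wQ_26_wN_1_rb80330533x7_0

theorem g_wS_32_wQ_26_wN_1_rb803305342ax8 : GoodKC AS c_wS_32_wQ_26_wN_1_rb803305342ax8 := p_wS_32_wQ_26_wN_1_rb803305342ax4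

theorem g_wS_32_wQ_26_wN_1_rb8033053429x8 : GoodKC AS c_wS_32_wQ_26_wN_1_rb8033053429x8 := p_wS_32_wQ_26_wN_1_rb8033053429x4

theorem g_wS_32_wQ_26_wN_1_rb803305342841x3 : GoodKC AS c_wS_32_wQ_26_wN_1_rb803305342841x3 := p_wS_32_wQ_26_wN_1_rb803305342841x2

theorem g_wS_32_wQ_26_wN_1_rb80330534283fx3 : GoodKC AS c_wS_32_wQ_26_wN_1_rb80330534283fx3 := p_wS_32_wQ_26_wN_1_rb80330534283fx2

theorem g__wS_32_wQ_26_wN_1_rb80330534283ex2_5 : GoodKC AS k_wS_32_wQ_26_wN_1_rb80330534283ex2_5 := p_wS_32_wQ_26_wN_1_rb80330534283ex2_5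

theorem g__wS_32_wQ_26_wN_1_rb80330534283ex2_4 : GoodKC AS k_wS_32_wQ_26_wN_1_rb80330534283ex2_4 := p_wS_32_wQ_26_wN_1_rb80330534283ex2_4 g__wS_32_wQ_26_wN_1_rb80330534283ex2_5

theorem g__wS_32_wQ_26_wN_1_rb80330534283ex2_3 : GoodKC AS k_wS_32_wQ_26_wN_1_rb80330534283ex2_3 := p_wS_32_wQ_26_wN_1_rb80330534283ex2_3 g__wS_32_wQ_26_wN_1_rb80330534283ex2_4

theorem g__wS_32_wQ_26_wN_1_rb80330534283ex2_2 : GoodKC AS k_wS_32_wQ_26_wN_1_rb80330534283ex2_2 := p_wS_32_wQ_26_wN_1_rb80330534283ex2_2 g__wS_32_wQ_26_wN_1_rb80330534283ex2_3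

theorem g__wS_32_wQ_26_wN_1_rb80330534283ex2_1 : GoodKC AS k_wS_32_wQ_26_wN_1_rb80330534283ex2_1 := p_wS_32_wQ_26_wN_1_rb80330534283ex2_1 g__wS_32_wQ_26_wN_1_rb80330534283ex2_2

theorem g__wS_32_wQ_26_wN_1_rb80330534283ex2_6 : GoodKC AS k_wS_32_wQ_26_wN_1_rb80330534283ex2_6 := p_wS_32_wQ_26_wN_1_rb80330534283ex2_6

theorem g__wS_32_wQ_26_wN_1_rb80330534283ex2_0 : GoodKC AS k_wS_32_wQ_26_wN_1_rb80330534283ex2_0 := p_wS_32_wQ_26_wN_1_rb80330534283ex2_0 g__wS_32_wQ_26_wN_1_rb80330534283ex2_1 g__wS_32_wQ_26_wN_1_rb80330534283ex2_6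

theorem g__wS_32_wQ_26_wN_1_rb80330534283ex2_7 : GoodKC AS k_wS_32_wQ_26_wN_1_rb80330534283ex2_7 := p_wS_32_wQ_26_wN_1_rb80330534283ex2_7

theorem g__wS_32_wQ_26_wN_1_rb80330534283ex2_9 : GoodKC AS k_wS_32_wQ_26_wN_1_rb80330534283ex2_9 := p_wS_32_wQ_26_wN_1_rb80330534283ex2_9

theorem g__wS_32_wQ_26_wN_1_rb80330534283ex2_8 : GoodKC AS k_wS_32_wQ_26_wN_1_rb80330534283ex2_8 := p_wS_32_wQ_26_wN_1_rb80330534283ex2_8 g__wS_32_wQ_26_wN_1_rb80330534283ex2_9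

theorem g_wS_32_wQ_26_wN_1_rb80330534283ex3 : GoodKC AS c_wS_32_wQ_26_wN_1_rb80330534283ex3 := p_wS_32_wQ_26_wN_1_rb80330534283ex2 g__wS_32_wQ_26_wN_1_rb80330534283ex2_0 g__wS_32_wQ_26_wN_1_rb80330534283ex2_7 g__wS_32_wQ_26_wN_1_rb80330534283ex2_8

theorem g__wS_32_wQ_26_wN_1_rb80330534283dx2_2 : GoodKC AS k_wS_32_wQ_26_wN_1_rb80330534283dx2_2 := p_wS_32_wQ_26_wN_1_rb80330534283dx2_2

theorem g__wS_32_wQ_26_wN_1_rb80330534283dx2_4 : GoodKC AS k_wS_32_wQ_26_wN_1_rb80330534283dx2_4 := p_wS_32_wQ_26_wN_1_rb80330534283dx2_4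

theorem g__wS_32_wQ_26_wN_1_rb80330534283dx2_3 : GoodKC AS k_wS_32_wQ_26_wN_1_rb80330534283dx2_3 := p_wS_32_wQ_26_wN_1_rb80330534283dx2_3 g__wS_32_wQ_26_wN_1_rb80330534283dx2_4

theorem g__wS_32_wQ_26_wN_1_rb80330534283dx2_1 : GoodKC AS k_wS_32_wQ_26_wN_1_rb80330534283dx2_1 := p_wS_32_wQ_26_wN_1_rb80330534283dx2_1 g__wS_32_wQ_26_wN_1_rb80330534283dx2_2 g__wS_32_wQ_26_wN_1_rb80330534283dx2_3

theorem g__wS_32_wQ_26_wN_1_rb80330534283dx2_6 : GoodKC AS k_wS_32_wQ_26_wN_1_rb80330534283dx2_6 := p_wS_32_wQ_26_wN_1_rb80330534283dx2_6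

theorem g__wS_32_wQ_26_wN_1_rb80330534283dx2_5 : GoodKC AS k_wS_32_wQ_26_wN_1_rb80330534283dx2_5 := p_wS_32_wQ_26_wN_1_rb80330534283dx2_5 g__wS_32_wQ_26_wN_1_rb80330534283dx2_6

theorem g__wS_32_wQ_26_wN_1_rb80330534283dx2_0 : GoodKC AS k_wS_32_wQ_26_wN_1_rb80330534283dx2_0 := p_wS_32_wQ_26_wN_1_rb80330534283dx2_0 g__wS_32_wQ_26_wN_1_rb80330534283dx2_1 g__wS_32_wQ_26_wN_1_rb80330534283dx2_5

theorem g_wS_32_wQ_26_wN_1_rb80330534283dx3 : GoodKC AS c_wS_32_wQ_26_wN_1_rb80330534283dx3 := p_wS_32_wQ_26_wN_1_rb80330534283dx2 g__wS_32_wQ_26_wN_1_rb80330534283dx2_0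

theorem g__wS_32_wQ_26_wN_1_rb80330534283ax2_1 : GoodKC AS k_wS_32_wQ_26_wN_1_rb80330534283ax2_1 := p_wS_32_wQ_26_wN_1_rb80330534283ax2_1

theorem g__wS_32_wQ_26_wN_1_rb80330534283ax2_3 : GoodKC AS k_wS_32_wQ_26_wN_1_rb80330534283ax2_3 := p_wS_32_wQ_26_wN_1_rb80330534283ax2_3

theorem g__wS_32_wQ_26_wN_1_rb80330534283ax2_2 : GoodKC AS k_wS_32_wQ_26_wN_1_rb80330534283ax2_2 := p_wS_32_wQ_26_wN_1_rb80330534283ax2_2 g__wS_32_wQ_26_wN_1_rb80330534283ax2_3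

theorem g__wS_32_wQ_26_wN_1_rb80330534283ax2_6 : GoodKC AS k_wS_32_wQ_26_wN_1_rb80330534283ax2_6 := p_wS_32_wQ_26_wN_1_rb80330534283ax2_6

theorem g__wS_32_wQ_26_wN_1_rb80330534283ax2_5 : GoodKC AS k_wS_32_wQ_26_wN_1_rb80330534283ax2_5 := p_wS_32_wQ_26_wN_1_rb80330534283ax2_5 g__wS_32_wQ_26_wN_1_rb80330534283ax2_6

theorem g__wS_32_wQ_26_wN_1_rb80330534283ax2_11 : GoodKC AS k_wS_32_wQ_26_wN_1_rb80330534283ax2_11 := p_wS_32_wQ_26_wN_1_rb80330534283ax2_11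

theorem g__wS_32_wQ_26_wN_1_rb80330534283ax2_10 : GoodKC AS k_wS_32_wQ_26_wN_1_rb80330534283ax2_10 := p_wS_32_wQ_26_wN_1_rb80330534283ax2_10 g__wS_32_wQ_26_wN_1_rb80330534283ax2_11

theorem g__wS_32_wQ_26_wN_1_rb80330534283ax2_9 : GoodKC AS k_wS_32_wQ_26_wN_1_rb80330534283ax2_9 := p_wS_32_wQ_26_wN_1_rb80330534283ax2_9 g__wS_32_wQ_26_wN_1_rb80330534283ax2_10

theorem g__wS_32_wQ_26_wN_1_rb80330534283ax2_8 : GoodKC AS k_wS_32_wQ_26_wN_1_rb80330534283ax2_8 := p_wS_32_wQ_26_wN_1_rb80330534283ax2_8 g__wS_32_wQ_26_wN_1_rb80330534283ax2_9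

theorem g__wS_32_wQ_26_wN_1_rb80330534283ax2_7 : GoodKC AS k_wS_32_wQ_26_wN_1_rb80330534283ax2_7 := p_wS_32_wQ_26_wN_1_rb80330534283ax2_7 g__wS_32_wQ_26_wN_1_rb80330534283ax2_8

theorem g__wS_32_wQ_26_wN_1_rb80330534283ax2_4 : GoodKC AS k_wS_32_wQ_26_wN_1_rb80330534283ax2_4 := p_wS_32_wQ_26_wN_1_rb80330534283ax2_4 g__wS_32_wQ_26_wN_1_rb80330534283ax2_5 g__wS_32_wQ_26_wN_1_rb80330534283ax2_7

theorem g__wS_32_wQ_26_wN_1_rb80330534283ax2_0 : GoodKC AS k_wS_32_wQ_26_wN_1_rb80330534283ax2_0 := p_wS_32_wQ_26_wN_1_rb80330534283ax2_0 g__wS_32_wQ_26_wN_1_rb80330534283ax2_1 g__wS_32_wQ_26_wN_1_rb80330534283ax2_2 g__wS_32_wQ_26_wN_1_rb80330534283ax2_4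

theorem g_wS_32_wQ_26_wN_1_rb80330534283ax3 : GoodKC AS c_wS_32_wQ_26_wN_1_rb80330534283ax3 := p_wS_32_wQ_26_wN_1_rb80330534283ax2 g__wS_32_wQ_26_wN_1_rb80330534283ax2_0

theorem g_wS_32_wQ_26_wN_1_rb803305342839x3 : GoodKC AS c_wS_32_wQ_26_wN_1_rb803305342839x3 := p_wS_32_wQ_26_wN_1_rb803305342839x2

theorem g_wS_32_wQ_26_wN_1_rb803305342838x3 : GoodKC AS c_wS_32_wQ_26_wN_1_rb803305342838x3 := p_wS_32_wQ_26_wN_1_rb803305342838x2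

theorem g__wS_32_wQ_26_wN_1_rb803305342837x2_2 : GoodKC AS k_wS_32_wQ_26_wN_1_rb803305342837x2_2 := p_wS_32_wQ_26_wN_1_rb803305342837x2_2

theorem g__wS_32_wQ_26_wN_1_rb803305342837x2_1 : GoodKC AS k_wS_32_wQ_26_wN_1_rb803305342837x2_1 := p_wS_32_wQ_26_wN_1_rb803305342837x2_1 g__wS_32_wQ_26_wN_1_rb803305342837x2_2

theorem g__wS_32_wQ_26_wN_1_rb803305342837x2_0 : GoodKC AS k_wS_32_wQ_26_wN_1_rb803305342837x2_0 := p_wS_32_wQ_26_wN_1_rb803305342837x2_0 g__wS_32_wQ_26_wN_1_rb803305342837x2_1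

theorem g__wS_32_wQ_26_wN_1_rb803305342837x2_8 : GoodKC AS k_wS_32_wQ_26_wN_1_rb803305342837x2_8 := p_wS_32_wQ_26_wN_1_rb803305342837x2_8

theorem g__wS_32_wQ_26_wN_1_rb803305342837x2_7 : GoodKC AS k_wS_32_wQ_26_wN_1_rb803305342837x2_7 := p_wS_32_wQ_26_wN_1_rb803305342837x2_7 g__wS_32_wQ_26_wN_1_rb803305342837x2_8

theorem g__wS_32_wQ_26_wN_1_rb803305342837x2_6 : GoodKC AS k_wS_32_wQ_26_wN_1_rb803305342837x2_6 := p_wS_32_wQ_26_wN_1_rb803305342837x2_6 g__wS_32_wQ_26_wN_1_rb803305342837x2_7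

theorem g__wS_32_wQ_26_wN_1_rb803305342837x2_5 : GoodKC AS k_wS_32_wQ_26_wN_1_rb803305342837x2_5 := p_wS_32_wQ_26_wN_1_rb803305342837x2_5 g__wS_32_wQ_26_wN_1_rb803305342837x2_6

theorem g__wS_32_wQ_26_wN_1_rb803305342837x2_4 : GoodKC AS k_wS_32_wQ_26_wN_1_rb803305342837x2_4 := p_wS_32_wQ_26_wN_1_rb803305342837x2_4 g__wS_32_wQ_26_wN_1_rb803305342837x2_5

theorem g__wS_32_wQ_26_wN_1_rb803305342837x2_3 : GoodKC AS k_wS_32_wQ_26_wN_1_rb803305342837x2_3 := p_wS_32_wQ_26_wN_1_rb803305342837x2_3 g__wS_32_wQ_26_wN_1_rb803305342837x2_4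

theorem g_wS_32_wQ_26_wN_1_rb803305342837x3 : GoodKC AS c_wS_32_wQ_26_wN_1_rb803305342837x3 := p_wS_32_wQ_26_wN_1_rb803305342837x2 g__wS_32_wQ_26_wN_1_rb803305342837x2_0 g__wS_32_wQ_26_wN_1_rb803305342837x2_3

theorem g_wS_32_wQ_26_wN_1_rb803305342835x3 : GoodKC AS c_wS_32_wQ_26_wN_1_rb803305342835x3 := p_wS_32_wQ_26_wN_1_rb803305342835x2

theorem g_wS_32_wQ_26_wN_1_rb803305342833x3 : GoodKC AS c_wS_32_wQ_26_wN_1_rb803305342833x3 := p_wS_32_wQ_26_wN_1_rb803305342833x2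

theorem g_wS_32_wQ_26_wN_1_rb803305342831x3 : GoodKC AS c_wS_32_wQ_26_wN_1_rb803305342831x3 := p_wS_32_wQ_26_wN_1_rb803305342831x2

theorem g_wS_32_wQ_26_wN_1_rb803305342830x3 : GoodKC AS c_wS_32_wQ_26_wN_1_rb803305342830x3 := p_wS_32_wQ_26_wN_1_rb803305342830x2

theorem g_wS_32_wQ_26_wN_1_rb80330534282dx3 : GoodKC AS c_wS_32_wQ_26_wN_1_rb80330534282dx3 := p_wS_32_wQ_26_wN_1_rb80330534282dx2

theorem g_wS_32_wQ_26_wN_1_rb80330534282cx3 : GoodKC AS c_wS_32_wQ_26_wN_1_rb80330534282cx3 := p_wS_32_wQ_26_wN_1_rb80330534282cx2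

theorem g_wS_32_wQ_26_wN_1_rb80330534282bx3 : GoodKC AS c_wS_32_wQ_26_wN_1_rb80330534282bx3 := p_wS_32_wQ_26_wN_1_rb80330534282bx2

theorem g__wS_32_wQ_26_wN_1_rb80330534282ax2_1 : GoodKC AS k_wS_32_wQ_26_wN_1_rb80330534282ax2_1 := p_wS_32_wQ_26_wN_1_rb80330534282ax2_1

theorem g__wS_32_wQ_26_wN_1_rb80330534282ax2_0 : GoodKC AS k_wS_32_wQ_26_wN_1_rb80330534282ax2_0 := p_wS_32_wQ_26_wN_1_rb80330534282ax2_0 g__wS_32_wQ_26_wN_1_rb80330534282ax2_1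

theorem g_wS_32_wQ_26_wN_1_rb80330534282ax3 : GoodKC AS c_wS_32_wQ_26_wN_1_rb80330534282ax3 := p_wS_32_wQ_26_wN_1_rb80330534282ax2 g__wS_32_wQ_26_wN_1_rb80330534282ax2_0

theorem g_wS_32_wQ_26_wN_1_rb803305342829x3 : GoodKC AS c_wS_32_wQ_26_wN_1_rb803305342829x3 := p_wS_32_wQ_26_wN_1_rb803305342829x2

theorem g_wS_32_wQ_26_wN_1_rb803305342828x3 : GoodKC AS c_wS_32_wQ_26_wN_1_rb803305342828x3 := p_wS_32_wQ_26_wN_1_rb803305342828x2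

theorem g_wS_32_wQ_26_wN_1_rb803305342827x3 : GoodKC AS c_wS_32_wQ_26_wN_1_rb803305342827x3 := p_wS_32_wQ_26_wN_1_rb803305342827x2

theorem g_wS_32_wQ_26_wN_1_rb803305342824x3 : GoodKC AS c_wS_32_wQ_26_wN_1_rb803305342824x3 := p_wS_32_wQ_26_wN_1_rb803305342824x2

theorem g_wS_32_wQ_26_wN_1_rb803305342823x3 : GoodKC AS c_wS_32_wQ_26_wN_1_rb803305342823x3 := p_wS_32_wQ_26_wN_1_rb803305342823x2

theorem g_wS_32_wQ_26_wN_1_rb80330534281ex3 : GoodKC AS c_wS_32_wQ_26_wN_1_rb80330534281ex3 := p_wS_32_wQ_26_wN_1_rb80330534281ex2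

theorem g_wS_32_wQ_26_wN_1_rb80330534281cx3 : GoodKC AS c_wS_32_wQ_26_wN_1_rb80330534281cx3 := p_wS_32_wQ_26_wN_1_rb80330534281cx2

theorem g_wS_32_wQ_26_wN_1_rb80330534281bx3 : GoodKC AS c_wS_32_wQ_26_wN_1_rb80330534281bx3 := p_wS_32_wQ_26_wN_1_rb80330534281bx2

theorem g_wS_32_wQ_26_wN_1_rb80330534281ax3 : GoodKC AS c_wS_32_wQ_26_wN_1_rb80330534281ax3 := p_wS_32_wQ_26_wN_1_rb80330534281ax2

theorem g_wS_32_wQ_26_wN_1_rb803305342819x3 : GoodKC AS c_wS_32_wQ_26_wN_1_rb803305342819x3 := p_wS_32_wQ_26_wN_1_rb803305342819x2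

theorem g_wS_32_wQ_26_wN_1_rb803305342817x3 : GoodKC AS c_wS_32_wQ_26_wN_1_rb803305342817x3 := p_wS_32_wQ_26_wN_1_rb803305342817x2

theorem g_wS_32_wQ_26_wN_1_rb803305342815x3 : GoodKC AS c_wS_32_wQ_26_wN_1_rb803305342815x3 := p_wS_32_wQ_26_wN_1_rb803305342815x2

theorem g_wS_32_wQ_26_wN_1_rb803305342813x3 : GoodKC AS c_wS_32_wQ_26_wN_1_rb803305342813x3 := p_wS_32_wQ_26_wN_1_rb803305342813x2

theorem g_wS_32_wQ_26_wN_1_rb803305342812x3 : GoodKC AS c_wS_32_wQ_26_wN_1_rb803305342812x3 := p_wS_32_wQ_26_wN_1_rb803305342812x2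

theorem g_wS_32_wQ_26_wN_1_rb803305342811x3 : GoodKC AS c_wS_32_wQ_26_wN_1_rb803305342811x3 := p_wS_32_wQ_26_wN_1_rb803305342811x2

theorem g_wS_32_wQ_26_wN_1_rb803305342810x3 : GoodKC AS c_wS_32_wQ_26_wN_1_rb803305342810x3 := p_wS_32_wQ_26_wN_1_rb803305342810x2

theorem g_wS_32_wQ_26_wN_1_rb80330534280dx3 : GoodKC AS c_wS_32_wQ_26_wN_1_rb80330534280dx3 := p_wS_32_wQ_26_wN_1_rb80330534280dx2

theorem g_wS_32_wQ_26_wN_1_rb80330534280cx3 : GoodKC AS c_wS_32_wQ_26_wN_1_rb80330534280cx3 := p_wS_32_wQ_26_wN_1_rb80330534280cx2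

theorem g_wS_32_wQ_26_wN_1_rb80330534280bx3 : GoodKC AS c_wS_32_wQ_26_wN_1_rb80330534280bx3 := p_wS_32_wQ_26_wN_1_rb80330534280bx2

theorem g_wS_32_wQ_26_wN_1_rb80330534280ax3 : GoodKC AS c_wS_32_wQ_26_wN_1_rb80330534280ax3 := p_wS_32_wQ_26_wN_1_rb80330534280ax2

theorem g_wS_32_wQ_26_wN_1_rb803305342809x3 : GoodKC AS c_wS_32_wQ_26_wN_1_rb803305342809x3 := p_wS_32_wQ_26_wN_1_rb803305342809x2

theorem g_wS_32_wQ_26_wN_1_rb803305342807x3 : GoodKC AS c_wS_32_wQ_26_wN_1_rb803305342807x3 := p_wS_32_wQ_26_wN_1_rb803305342807x2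

theorem g_wS_32_wQ_26_wN_1_rb803305342806x3 : GoodKC AS c_wS_32_wQ_26_wN_1_rb803305342806x3 := p_wS_32_wQ_26_wN_1_rb803305342806x2

theorem g_wS_32_wQ_26_wN_1_rb803305342805x3 : GoodKC AS c_wS_32_wQ_26_wN_1_rb803305342805x3 := p_wS_32_wQ_26_wN_1_rb803305342805x2

theorem g_wS_32_wQ_26_wN_1_rb803305342803x3 : GoodKC AS c_wS_32_wQ_26_wN_1_rb803305342803x3 := p_wS_32_wQ_26_wN_1_rb803305342803x2

theorem g_wS_32_wQ_26_wN_1_rb803305342801x3 : GoodKC AS c_wS_32_wQ_26_wN_1_rb803305342801x3 := p_wS_32_wQ_26_wN_1_rb803305342801x2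

theorem g_wS_32_wQ_26_wN_1_rb803305342800x3 : GoodKC AS c_wS_32_wQ_26_wN_1_rb803305342800x3 := p_wS_32_wQ_26_wN_1_rb803305342800x2

theorem g_wS_32_wQ_26_wN_1_rb803305342802x3 : GoodKC AS c_wS_32_wQ_26_wN_1_rb803305342802x3 := p_wS_32_wQ_26_wN_1_rb803305342802x2

theorem g_wS_32_wQ_26_wN_1_rb803305342804x3 : GoodKC AS c_wS_32_wQ_26_wN_1_rb803305342804x3 := p_wS_32_wQ_26_wN_1_rb803305342804x2

theorem g_wS_32_wQ_26_wN_1_rb803305342808x3 : GoodKC AS c_wS_32_wQ_26_wN_1_rb803305342808x3 := p_wS_32_wQ_26_wN_1_rb803305342808x2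

theorem g_wS_32_wQ_26_wN_1_rb80330534280ex3 : GoodKC AS c_wS_32_wQ_26_wN_1_rb80330534280ex3 := p_wS_32_wQ_26_wN_1_rb80330534280ex2

theorem g_wS_32_wQ_26_wN_1_rb80330534280fx3 : GoodKC AS c_wS_32_wQ_26_wN_1_rb80330534280fx3 := p_wS_32_wQ_26_wN_1_rb80330534280fx2

theorem g__wS_32_wQ_26_wN_1_rb8033053428x3_0 : GoodKC AS k_wS_32_wQ_26_wN_1_rb8033053428x3_0 := p_wS_32_wQ_26_wN_1_rb8033053428x3_0

theorem g__wS_32_wQ_26_wN_1_rb8033053428x3_1 : GoodKC AS k_wS_32_wQ_26_wN_1_rb8033053428x3_1 := p_wS_32_wQ_26_wN_1_rb8033053428x3_1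

theorem g__wS_32_wQ_26_wN_1_rb8033053428x3_3 : GoodKC AS k_wS_32_wQ_26_wN_1_rb8033053428x3_3 := p_wS_32_wQ_26_wN_1_rb8033053428x3_3

theorem g__wS_32_wQ_26_wN_1_rb8033053428x3_2 : GoodKC AS k_wS_32_wQ_26_wN_1_rb8033053428x3_2 := p_wS_32_wQ_26_wN_1_rb8033053428x3_2 g__wS_32_wQ_26_wN_1_rb8033053428x3_3

theorem g_wS_32_wQ_26_wN_1_rb803305342814x3 : GoodKC AS c_wS_32_wQ_26_wN_1_rb803305342814x3 := p_wS_32_wQ_26_wN_1_rb803305342814x2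

theorem g_wS_32_wQ_26_wN_1_rb803305342816x3 : GoodKC AS c_wS_32_wQ_26_wN_1_rb803305342816x3 := p_wS_32_wQ_26_wN_1_rb803305342816x2

theorem g_wS_32_wQ_26_wN_1_rb803305342818x3 : GoodKC AS c_wS_32_wQ_26_wN_1_rb803305342818x3 := p_wS_32_wQ_26_wN_1_rb803305342818x2

theorem g_wS_32_wQ_26_wN_1_rb80330534281dx3 : GoodKC AS c_wS_32_wQ_26_wN_1_rb80330534281dx3 := p_wS_32_wQ_26_wN_1_rb80330534281dx2

theorem g_wS_32_wQ_26_wN_1_rb80330534281fx3 : GoodKC AS c_wS_32_wQ_26_wN_1_rb80330534281fx3 := p_wS_32_wQ_26_wN_1_rb80330534281fx2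

theorem g_wS_32_wQ_26_wN_1_rb803305342820x3 : GoodKC AS c_wS_32_wQ_26_wN_1_rb803305342820x3 := p_wS_32_wQ_26_wN_1_rb803305342820x2

theorem g_wS_32_wQ_26_wN_1_rb803305342821x3 : GoodKC AS c_wS_32_wQ_26_wN_1_rb803305342821x3 := p_wS_32_wQ_26_wN_1_rb803305342821x2

theorem g_wS_32_wQ_26_wN_1_rb803305342822x3 : GoodKC AS c_wS_32_wQ_26_wN_1_rb803305342822x3 := p_wS_32_wQ_26_wN_1_rb803305342822x2

theorem g_wS_32_wQ_26_wN_1_rb803305342825x3 : GoodKC AS c_wS_32_wQ_26_wN_1_rb803305342825x3 := p_wS_32_wQ_26_wN_1_rb803305342825x2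

theorem g_wS_32_wQ_26_wN_1_rb803305342826x3 : GoodKC AS c_wS_32_wQ_26_wN_1_rb803305342826x3 := p_wS_32_wQ_26_wN_1_rb803305342826x2

theorem g_wS_32_wQ_26_wN_1_rb80330534282ex3 : GoodKC AS c_wS_32_wQ_26_wN_1_rb80330534282ex3 := p_wS_32_wQ_26_wN_1_rb80330534282ex2

theorem g_wS_32_wQ_26_wN_1_rb80330534282fx3 : GoodKC AS c_wS_32_wQ_26_wN_1_rb80330534282fx3 := p_wS_32_wQ_26_wN_1_rb80330534282fx2

theorem g__wS_32_wQ_26_wN_1_rb803305342832x2_1 : GoodKC AS k_wS_32_wQ_26_wN_1_rb803305342832x2_1 := p_wS_32_wQ_26_wN_1_rb803305342832x2_1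

theorem g__wS_32_wQ_26_wN_1_rb803305342832x2_0 : GoodKC AS k_wS_32_wQ_26_wN_1_rb803305342832x2_0 := p_wS_32_wQ_26_wN_1_rb803305342832x2_0 g__wS_32_wQ_26_wN_1_rb803305342832x2_1

theorem g_wS_32_wQ_26_wN_1_rb803305342832x3 : GoodKC AS c_wS_32_wQ_26_wN_1_rb803305342832x3 := p_wS_32_wQ_26_wN_1_rb803305342832x2 g__wS_32_wQ_26_wN_1_rb803305342832x2_0

theorem g_wS_32_wQ_26_wN_1_rb803305342834x3 : GoodKC AS c_wS_32_wQ_26_wN_1_rb803305342834x3 := p_wS_32_wQ_26_wN_1_rb803305342834x2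

theorem g_wS_32_wQ_26_wN_1_rb803305342836x3 : GoodKC AS c_wS_32_wQ_26_wN_1_rb803305342836x3 := p_wS_32_wQ_26_wN_1_rb803305342836x2

theorem g_wS_32_wQ_26_wN_1_rb80330534283bx3 : GoodKC AS c_wS_32_wQ_26_wN_1_rb80330534283bx3 := p_wS_32_wQ_26_wN_1_rb80330534283bx2

theorem g_wS_32_wQ_26_wN_1_rb80330534283cx3 : GoodKC AS c_wS_32_wQ_26_wN_1_rb80330534283cx3 := p_wS_32_wQ_26_wN_1_rb80330534283cx2

theorem g_wS_32_wQ_26_wN_1_rb803305342840x3 : GoodKC AS c_wS_32_wQ_26_wN_1_rb803305342840x3 := p_wS_32_wQ_26_wN_1_rb803305342840x2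

theorem g_wS_32_wQ_26_wN_1_rb8033053428x8 : GoodKC AS c_wS_32_wQ_26_wN_1_rb8033053428x8 := p_wS_32_wQ_26_wN_1_rb8033053428x3 g_wS_32_wQ_26_wN_1_rb803305342841x3 g_wS_32_wQ_26_wN_1_rb80330534283fx3 g_wS_32_wQ_26_wN_1_rb80330534283ex3 g_wS_32_wQ_26_wN_1_rb80330534283dx3 g_wS_32_wQ_26_wN_1_rb80330534283ax3 g_wS_32_wQ_26_wN_1_rb803305342839x3 g_wS_32_wQ_26_wN_1_rb803305342838x3 g_wS_32_wQ_26_wN_1_rb803305342837x3 g_wS_32_wQ_26_wN_1_rb803305342835x3 g_wS_32_wQ_26_wN_1_rb803305342833x3 g_wS_32_wQ_26_wN_1_rb803305342831x3 g_wS_32_wQ_26_wN_1_rb803305342830x3 g_wS_32_wQ_26_wN_1_rb80330534282dx3 g_wS_32_wQ_26_wN_1_rb80330534282cx3 g_wS_32_wQ_26_wN_1_rb80330534282bx3 g_wS_32_wQ_26_wN_1_rb80330534282ax3 g_wS_32_wQ_26_wN_1_rb803305342829x3 g_wS_32_wQ_26_wN_1_rb803305342828x3 g_wS_32_wQ_26_wN_1_rb803305342827x3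 g_wS_32_wQ_26_wN_1_rb803305342824x3 g_wS_32_wQ_26_wN_1_rb803305342823x3 g_wS_32_wQ_26_wN_1_rb80330534281ex3 g_wS_32_wQ_26_wN_1_rb80330534281cx3 g_wS_32_wQ_26_wN_1_rb80330534281bx3 g_wS_32_wQ_26_wN_1_rb80330534281ax3 g_wS_32_wQ_26_wN_1_rb803305342819x3 g_wS_32_wQ_26_wN_1_rb803305342817x3 g_wS_32_wQ_26_wN_1_rb803305342815x3 g_wS_32_wQ_26_wN_1_rb803305342813x3 g_wS_32_wQ_26_wN_1_rb803305342812x3 g_wS_32_wQ_26_wN_1_rb803305342811x3 g_wS_32_wQ_26_wN_1_rb803305342810x3 g_wS_32_wQ_26_wN_1_rb80330534280dx3 g_wS_32_wQ_26_wN_1_rb80330534280cx3 g_wS_32_wQ_26_wN_1_rb80330534280bx3 g_wS_32_wQ_26_wN_1_rb80330534280ax3 g_wS_32_wQ_26_wN_1_rb803305342809x3 g_wS_32_wQ_26_wN_1_rb803305342807x3 g_wS_32_wQ_26_wN_1_rb803305342806x3 g_wS_32_wQ_26_wN_1_rb803305342805x3 g_wS_32_wQ_26_wN_1_rb803305342803x3 g_wS_32_wQ_26_wN_1_rb803305342801x3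 g_wS_32_wQ_26_wN_1_rb803305342800x3 g_wS_32_wQ_26_wN_1_rb803305342802x3 g_wS_32_wQ_26_wN_1_rb803305342804x3 g_wS_32_wQ_26_wN_1_rb803305342808x3 g_wS_32_wQ_26_wN_1_rb80330534280ex3 g_wS_32_wQ_26_wN_1_rb80330534280fx3 g__wS_32_wQ_26_wN_1_rb8033053428x3_0 g__wS_32_wQ_26_wN_1_rb8033053428x3_1 g__wS_32_wQ_26_wN_1_rb8033053428x3_2 g_wS_32_wQ_26_wN_1_rb803305342814x3 g_wS_32_wQ_26_wN_1_rb803305342816x3 g_wS_32_wQ_26_wN_1_rb803305342818x3 g_wS_32_wQ_26_wN_1_rb80330534281dx3 g_wS_32_wQ_26_wN_1_rb80330534281fx3 g_wS_32_wQ_26_wN_1_rb803305342820x3 g_wS_32_wQ_26_wN_1_rb803305342821x3 g_wS_32_wQ_26_wN_1_rb803305342822x3 g_wS_32_wQ_26_wN_1_rb803305342825x3 g_wS_32_wQ_26_wN_1_rb803305342826x3 g_wS_32_wQ_26_wN_1_rb80330534282ex3 g_wS_32_wQ_26_wN_1_rb80330534282fx3 g_wS_32_wQ_26_wN_1_rb803305342832x3 g_wS_32_wQ_26_wN_1_rb803305342834x3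 g_wS_32_wQ_26_wN_1_rb803305342836x3 g_wS_32_wQ_26_wN_1_rb80330534283bx3 g_wS_32_wQ_26_wN_1_rb80330534283cx3 g_wS_32_wQ_26_wN_1_rb803305342840x3

theorem g_wS_32_wQ_26_wN_1_rb8033053427x8 : GoodKC AS c_wS_32_wQ_26_wN_1_rb8033053427x8 := p_wS_32_wQ_26_wN_1_rb8033053427x4

theorem g_wS_32_wQ_26_wN_1_rb8033053424x8 : GoodKC AS c_wS_32_wQ_26_wN_1_rb8033053424x8 := p_wS_32_wQ_26_wN_1_rb8033053424x4

theorem g_wS_32_wQ_26_wN_1_rb8033053423x8 : GoodKC AS c_wS_32_wQ_26_wN_1_rb8033053423x8 := p_wS_32_wQ_26_wN_1_rb8033053423x1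

theorem g__wS_32_wQ_26_wN_1_rb8033053422x4_0 : GoodKC AS k_wS_32_wQ_26_wN_1_rb8033053422x4_0 := p_wS_32_wQ_26_wN_1_rb8033053422x4_0

theorem g_wS_32_wQ_26_wN_1_rb8033053422x8 : GoodKC AS c_wS_32_wQ_26_wN_1_rb8033053422x8 := p_wS_32_wQ_26_wN_1_rb8033053422x4 g__wS_32_wQ_26_wN_1_rb8033053422x4_0

theorem g__wS_32_wQ_26_wN_1_rb8033053421x4_0 : GoodKC AS k_wS_32_wQ_26_wN_1_rb8033053421x4_0 := p_wS_32_wQ_26_wN_1_rb8033053421x4_0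

theorem g_wS_32_wQ_26_wN_1_rb8033053421x8 : GoodKC AS c_wS_32_wQ_26_wN_1_rb8033053421x8 := p_wS_32_wQ_26_wN_1_rb8033053421x4 g__wS_32_wQ_26_wN_1_rb8033053421x4_0

theorem g_wS_32_wQ_26_wN_1_rb803305341fx8 : GoodKC AS c_wS_32_wQ_26_wN_1_rb803305341fx8 := p_wS_32_wQ_26_wN_1_rb803305341fx4

theorem g_wS_32_wQ_26_wN_1_rb803305341dx8 : GoodKC AS c_wS_32_wQ_26_wN_1_rb803305341dx8 := p_wS_32_wQ_26_wN_1_rb803305341dx4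

theorem g_wS_32_wQ_26_wN_1_rb803305341bx8 : GoodKC AS c_wS_32_wQ_26_wN_1_rb803305341bx8 := p_wS_32_wQ_26_wN_1_rb803305341bx4

theorem g_wS_32_wQ_26_wN_1_rb803305341ax8 : GoodKC AS c_wS_32_wQ_26_wN_1_rb803305341ax8 := p_wS_32_wQ_26_wN_1_rb803305341ax4

theorem g_wS_32_wQ_26_wN_1_rb8033053413x8 : GoodKC AS c_wS_32_wQ_26_wN_1_rb8033053413x8 := p_wS_32_wQ_26_wN_1_rb8033053413x4

theorem g_wS_32_wQ_26_wN_1_rb8033053412x8 : GoodKC AS c_wS_32_wQ_26_wN_1_rb8033053412x8 := p_wS_32_wQ_26_wN_1_rb8033053412x4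

theorem g_wS_32_wQ_26_wN_1_rb8033053411x8 : GoodKC AS c_wS_32_wQ_26_wN_1_rb8033053411x8 := p_wS_32_wQ_26_wN_1_rb8033053411x4

theorem g__wS_32_wQ_26_wN_1_rb803305340ex4_0 : GoodKC AS k_wS_32_wQ_26_wN_1_rb803305340ex4_0 := p_wS_32_wQ_26_wN_1_rb803305340ex4_0

theorem g_wS_32_wQ_26_wN_1_rb803305340ex8 : GoodKC AS c_wS_32_wQ_26_wN_1_rb803305340ex8 := p_wS_32_wQ_26_wN_1_rb803305340ex4 g__wS_32_wQ_26_wN_1_rb803305340ex4_0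

theorem g_wS_32_wQ_26_wN_1_rb803305340ax8 : GoodKC AS c_wS_32_wQ_26_wN_1_rb803305340ax8 := p_wS_32_wQ_26_wN_1_rb803305340ax4

theorem g_wS_32_wQ_26_wN_1_rb8033053409x8 : GoodKC AS c_wS_32_wQ_26_wN_1_rb8033053409x8 := p_wS_32_wQ_26_wN_1_rb8033053409x4

theorem g__wS_32_wQ_26_wN_1_rb8033053408x4_0 : GoodKC AS k_wS_32_wQ_26_wN_1_rb8033053408x4_0 := p_wS_32_wQ_26_wN_1_rb8033053408x4_0

theorem g_wS_32_wQ_26_wN_1_rb8033053408x8 : GoodKC AS c_wS_32_wQ_26_wN_1_rb8033053408x8 := p_wS_32_wQ_26_wN_1_rb8033053408x4 g__wS_32_wQ_26_wN_1_rb8033053408x4_0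

theorem g_wS_32_wQ_26_wN_1_rb8033053407x8 : GoodKC AS c_wS_32_wQ_26_wN_1_rb8033053407x8 := p_wS_32_wQ_26_wN_1_rb8033053407x4

theorem g_wS_32_wQ_26_wN_1_rb8033053404x8 : GoodKC AS c_wS_32_wQ_26_wN_1_rb8033053404x8 := p_wS_32_wQ_26_wN_1_rb8033053404x4

theorem g_wS_32_wQ_26_wN_1_rb8033053403x8 : GoodKC AS c_wS_32_wQ_26_wN_1_rb8033053403x8 := p_wS_32_wQ_26_wN_1_rb8033053403x4

theorem g_wS_32_wQ_26_wN_1_rb8033053402x8 : GoodKC AS c_wS_32_wQ_26_wN_1_rb8033053402x8 := p_wS_32_wQ_26_wN_1_rb8033053402x4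

theorem g_wS_32_wQ_26_wN_1_rb8033053401x8 : GoodKC AS c_wS_32_wQ_26_wN_1_rb8033053401x8 := p_wS_32_wQ_26_wN_1_rb8033053401x4

theorem g_wS_32_wQ_26_wN_1_rb8033053400x8 : GoodKC AS c_wS_32_wQ_26_wN_1_rb8033053400x8 := p_wS_32_wQ_26_wN_1_rb8033053400x4

theorem g_wS_32_wQ_26_wN_1_rb8033053405x8 : GoodKC AS c_wS_32_wQ_26_wN_1_rb8033053405x8 := p_wS_32_wQ_26_wN_1_rb8033053405x4

theorem g_wS_32_wQ_26_wN_1_rb8033053406x8 : GoodKC AS c_wS_32_wQ_26_wN_1_rb8033053406x8 := p_wS_32_wQ_26_wN_1_rb8033053406x4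

theorem g_wS_32_wQ_26_wN_1_rb803305340bx8 : GoodKC AS c_wS_32_wQ_26_wN_1_rb803305340bx8 := p_wS_32_wQ_26_wN_1_rb803305340bx4

theorem g_wS_32_wQ_26_wN_1_rb803305340cx8 : GoodKC AS c_wS_32_wQ_26_wN_1_rb803305340cx8 := p_wS_32_wQ_26_wN_1_rb803305340cx4

theorem g_wS_32_wQ_26_wN_1_rb803305340dx8 : GoodKC AS c_wS_32_wQ_26_wN_1_rb803305340dx8 := p_wS_32_wQ_26_wN_1_rb803305340dx4

theorem g__wS_32_wQ_26_wN_1_rb80330534x8_3 : GoodKC AS k_wS_32_wQ_26_wN_1_rb80330534x8_3 := p_wS_32_wQ_26_wN_1_rb80330534x8_3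

theorem g__wS_32_wQ_26_wN_1_rb80330534x8_2 : GoodKC AS k_wS_32_wQ_26_wN_1_rb80330534x8_2 := p_wS_32_wQ_26_wN_1_rb80330534x8_2 g__wS_32_wQ_26_wN_1_rb80330534x8_3

theorem g__wS_32_wQ_26_wN_1_rb80330534x8_1 : GoodKC AS k_wS_32_wQ_26_wN_1_rb80330534x8_1 := p_wS_32_wQ_26_wN_1_rb80330534x8_1 g__wS_32_wQ_26_wN_1_rb80330534x8_2

theorem g_wS_32_wQ_26_wN_1_rb803305340fx8 : GoodKC AS c_wS_32_wQ_26_wN_1_rb803305340fx8 := p_wS_32_wQ_26_wN_1_rb803305340fx4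

theorem g_wS_32_wQ_26_wN_1_rb8033053410x8 : GoodKC AS c_wS_32_wQ_26_wN_1_rb8033053410x8 := p_wS_32_wQ_26_wN_1_rb8033053410x4

theorem g_wS_32_wQ_26_wN_1_rb8033053414x8 : GoodKC AS c_wS_32_wQ_26_wN_1_rb8033053414x8 := p_wS_32_wQ_26_wN_1_rb8033053414x4

theorem g_wS_32_wQ_26_wN_1_rb8033053415x8 : GoodKC AS c_wS_32_wQ_26_wN_1_rb8033053415x8 := p_wS_32_wQ_26_wN_1_rb8033053415x4

theorem g_wS_32_wQ_26_wN_1_rb8033053416x8 : GoodKC AS c_wS_32_wQ_26_wN_1_rb8033053416x8 := p_wS_32_wQ_26_wN_1_rb8033053416x4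

theorem g_wS_32_wQ_26_wN_1_rb8033053417x8 : GoodKC AS c_wS_32_wQ_26_wN_1_rb8033053417x8 := p_wS_32_wQ_26_wN_1_rb8033053417x4

theorem g__wS_32_wQ_26_wN_1_rb8033053418x4_0 : GoodKC AS k_wS_32_wQ_26_wN_1_rb8033053418x4_0 := p_wS_32_wQ_26_wN_1_rb8033053418x4_0

theorem g_wS_32_wQ_26_wN_1_rb8033053418x8 : GoodKC AS c_wS_32_wQ_26_wN_1_rb8033053418x8 := p_wS_32_wQ_26_wN_1_rb8033053418x4 g__wS_32_wQ_26_wN_1_rb8033053418x4_0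

theorem g__wS_32_wQ_26_wN_1_rb8033053419x4_2 : GoodKC AS k_wS_32_wQ_26_wN_1_rb8033053419x4_2 := p_wS_32_wQ_26_wN_1_rb8033053419x4_2

theorem g__wS_32_wQ_26_wN_1_rb8033053419x4_5 : GoodKC AS k_wS_32_wQ_26_wN_1_rb8033053419x4_5 := p_wS_32_wQ_26_wN_1_rb8033053419x4_5

theorem g__wS_32_wQ_26_wN_1_rb8033053419x4_6 : GoodKC AS k_wS_32_wQ_26_wN_1_rb8033053419x4_6 := p_wS_32_wQ_26_wN_1_rb8033053419x4_6

theorem g__wS_32_wQ_26_wN_1_rb8033053419x4_4 : GoodKC AS k_wS_32_wQ_26_wN_1_rb8033053419x4_4 := p_wS_32_wQ_26_wN_1_rb8033053419x4_4 g__wS_32_wQ_26_wN_1_rb8033053419x4_5 g__wS_32_wQ_26_wN_1_rb8033053419x4_6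

theorem g__wS_32_wQ_26_wN_1_rb8033053419x4_3 : GoodKC AS k_wS_32_wQ_26_wN_1_rb8033053419x4_3 := p_wS_32_wQ_26_wN_1_rb8033053419x4_3 g__wS_32_wQ_26_wN_1_rb8033053419x4_4

theorem g__wS_32_wQ_26_wN_1_rb8033053419x4_10 : GoodKC AS k_wS_32_wQ_26_wN_1_rb8033053419x4_10 := p_wS_32_wQ_26_wN_1_rb8033053419x4_10

theorem g__wS_32_wQ_26_wN_1_rb8033053419x4_9 : GoodKC AS k_wS_32_wQ_26_wN_1_rb8033053419x4_9 := p_wS_32_wQ_26_wN_1_rb8033053419x4_9 g__wS_32_wQ_26_wN_1_rb8033053419x4_10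

theorem g__wS_32_wQ_26_wN_1_rb8033053419x4_8 : GoodKC AS k_wS_32_wQ_26_wN_1_rb8033053419x4_8 := p_wS_32_wQ_26_wN_1_rb8033053419x4_8 g__wS_32_wQ_26_wN_1_rb8033053419x4_9

theorem g__wS_32_wQ_26_wN_1_rb8033053419x4_7 : GoodKC AS k_wS_32_wQ_26_wN_1_rb8033053419x4_7 := p_wS_32_wQ_26_wN_1_rb8033053419x4_7 g__wS_32_wQ_26_wN_1_rb8033053419x4_8

theorem g__wS_32_wQ_26_wN_1_rb8033053419x4_1 : GoodKC AS k_wS_32_wQ_26_wN_1_rb8033053419x4_1 := p_wS_32_wQ_26_wN_1_rb8033053419x4_1 g__wS_32_wQ_26_wN_1_rb8033053419x4_2 g__wS_32_wQ_26_wN_1_rb8033053419x4_3 g__wS_32_wQ_26_wN_1_rb8033053419x4_7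

theorem g__wS_32_wQ_26_wN_1_rb8033053419x4_0 : GoodKC AS k_wS_32_wQ_26_wN_1_rb8033053419x4_0 := p_wS_32_wQ_26_wN_1_rb8033053419x4_0 g__wS_32_wQ_26_wN_1_rb8033053419x4_1

theorem g_wS_32_wQ_26_wN_1_rb8033053419x8 : GoodKC AS c_wS_32_wQ_26_wN_1_rb8033053419x8 := p_wS_32_wQ_26_wN_1_rb8033053419x4 g__wS_32_wQ_26_wN_1_rb8033053419x4_0

theorem g_wS_32_wQ_26_wN_1_rb803305341cx8 : GoodKC AS c_wS_32_wQ_26_wN_1_rb803305341cx8 := p_wS_32_wQ_26_wN_1_rb803305341cx4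

theorem g__wS_32_wQ_26_wN_1_rb803305341ex1_0 : GoodKC AS k_wS_32_wQ_26_wN_1_rb803305341ex1_0 := p_wS_32_wQ_26_wN_1_rb803305341ex1_0

theorem g_wS_32_wQ_26_wN_1_rb803305341ex8 : GoodKC AS c_wS_32_wQ_26_wN_1_rb803305341ex8 := p_wS_32_wQ_26_wN_1_rb803305341ex1 g__wS_32_wQ_26_wN_1_rb803305341ex1_0

theorem g__wS_32_wQ_26_wN_1_rb80330534x8_0 : GoodKC AS k_wS_32_wQ_26_wN_1_rb80330534x8_0 := p_wS_32_wQ_26_wN_1_rb80330534x8_0 g_wS_32_wQ_26_wN_1_rb803305341fx8 g_wS_32_wQ_26_wN_1_rb803305341dx8 g_wS_32_wQ_26_wN_1_rb803305341bx8 g_wS_32_wQ_26_wN_1_rb803305341ax8 g_wS_32_wQ_26_wN_1_rb8033053413x8 g_wS_32_wQ_26_wN_1_rb8033053412x8 g_wS_32_wQ_26_wN_1_rb8033053411x8 g_wS_32_wQ_26_wN_1_rb803305340ex8 g_wS_32_wQ_26_wN_1_rb803305340ax8 g_wS_32_wQ_26_wN_1_rb8033053409x8 g_wS_32_wQ_26_wN_1_rb8033053408x8 g_wS_32_wQ_26_wN_1_rb8033053407x8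 g_wS_32_wQ_26_wN_1_rb8033053404x8 g_wS_32_wQ_26_wN_1_rb8033053403x8 g_wS_32_wQ_26_wN_1_rb8033053402x8 g_wS_32_wQ_26_wN_1_rb8033053401x8 g_wS_32_wQ_26_wN_1_rb8033053400x8 g_wS_32_wQ_26_wN_1_rb8033053405x8 g_wS_32_wQ_26_wN_1_rb8033053406x8 g_wS_32_wQ_26_wN_1_rb803305340bx8 g_wS_32_wQ_26_wN_1_rb803305340cx8 g_wS_32_wQ_26_wN_1_rb803305340dx8 g__wS_32_wQ_26_wN_1_rb80330534x8_1 g_wS_32_wQ_26_wN_1_rb803305340fx8 g_wS_32_wQ_26_wN_1_rb8033053410x8 g_wS_32_wQ_26_wN_1_rb8033053414x8 g_wS_32_wQ_26_wN_1_rb8033053415x8 g_wS_32_wQ_26_wN_1_rb8033053416x8 g_wS_32_wQ_26_wN_1_rb8033053417x8 g_wS_32_wQ_26_wN_1_rb8033053418x8 g_wS_32_wQ_26_wN_1_rb8033053419x8 g_wS_32_wQ_26_wN_1_rb803305341cx8 g_wS_32_wQ_26_wN_1_rb803305341ex8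

theorem g__wS_32_wQ_26_wN_1_rb80330534x8_8 : GoodKC AS k_wS_32_wQ_26_wN_1_rb80330534x8_8 := p_wS_32_wQ_26_wN_1_rb80330534x8_8

theorem g__wS_32_wQ_26_wN_1_rb80330534x8_7 : GoodKC AS k_wS_32_wQ_26_wN_1_rb80330534x8_7 := p_wS_32_wQ_26_wN_1_rb80330534x8_7 g__wS_32_wQ_26_wN_1_rb80330534x8_8

theorem g__wS_32_wQ_26_wN_1_rb80330534x8_9 : GoodKC AS k_wS_32_wQ_26_wN_1_rb80330534x8_9 := p_wS_32_wQ_26_wN_1_rb80330534x8_9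

theorem g__wS_32_wQ_26_wN_1_rb80330534x8_6 : GoodKC AS k_wS_32_wQ_26_wN_1_rb80330534x8_6 := p_wS_32_wQ_26_wN_1_rb80330534x8_6 g__wS_32_wQ_26_wN_1_rb80330534x8_7 g__wS_32_wQ_26_wN_1_rb80330534x8_9

theorem g__wS_32_wQ_26_wN_1_rb80330534x8_5 : GoodKC AS k_wS_32_wQ_26_wN_1_rb80330534x8_5 := p_wS_32_wQ_26_wN_1_rb80330534x8_5 g__wS_32_wQ_26_wN_1_rb80330534x8_6

theorem g__wS_32_wQ_26_wN_1_rb80330534x8_10 : GoodKC AS k_wS_32_wQ_26_wN_1_rb80330534x8_10 := p_wS_32_wQ_26_wN_1_rb80330534x8_10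

theorem g__wS_32_wQ_26_wN_1_rb80330534x8_14 : GoodKC AS k_wS_32_wQ_26_wN_1_rb80330534x8_14 := p_wS_32_wQ_26_wN_1_rb80330534x8_14

theorem g__wS_32_wQ_26_wN_1_rb80330534x8_13 : GoodKC AS k_wS_32_wQ_26_wN_1_rb80330534x8_13 := p_wS_32_wQ_26_wN_1_rb80330534x8_13 g__wS_32_wQ_26_wN_1_rb80330534x8_14

theorem g__wS_32_wQ_26_wN_1_rb80330534x8_12 : GoodKC AS k_wS_32_wQ_26_wN_1_rb80330534x8_12 := p_wS_32_wQ_26_wN_1_rb80330534x8_12 g__wS_32_wQ_26_wN_1_rb80330534x8_13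

theorem g__wS_32_wQ_26_wN_1_rb80330534x8_17 : GoodKC AS k_wS_32_wQ_26_wN_1_rb80330534x8_17 := p_wS_32_wQ_26_wN_1_rb80330534x8_17

theorem g__wS_32_wQ_26_wN_1_rb80330534x8_16 : GoodKC AS k_wS_32_wQ_26_wN_1_rb80330534x8_16 := p_wS_32_wQ_26_wN_1_rb80330534x8_16 g__wS_32_wQ_26_wN_1_rb80330534x8_17

theorem g__wS_32_wQ_26_wN_1_rb80330534x8_15 : GoodKC AS k_wS_32_wQ_26_wN_1_rb80330534x8_15 := p_wS_32_wQ_26_wN_1_rb80330534x8_15 g__wS_32_wQ_26_wN_1_rb80330534x8_16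

theorem g__wS_32_wQ_26_wN_1_rb80330534x8_11 : GoodKC AS k_wS_32_wQ_26_wN_1_rb80330534x8_11 := p_wS_32_wQ_26_wN_1_rb80330534x8_11 g__wS_32_wQ_26_wN_1_rb80330534x8_12 g__wS_32_wQ_26_wN_1_rb80330534x8_15

theorem g__wS_32_wQ_26_wN_1_rb80330534x8_4 : GoodKC AS k_wS_32_wQ_26_wN_1_rb80330534x8_4 := p_wS_32_wQ_26_wN_1_rb80330534x8_4 g__wS_32_wQ_26_wN_1_rb80330534x8_5 g__wS_32_wQ_26_wN_1_rb80330534x8_10 g__wS_32_wQ_26_wN_1_rb80330534x8_11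

theorem g_wS_32_wQ_26_wN_1_rb8033053420x8 : GoodKC AS c_wS_32_wQ_26_wN_1_rb8033053420x8 := p_wS_32_wQ_26_wN_1_rb8033053420x4

theorem g_wS_32_wQ_26_wN_1_rb8033053425x8 : GoodKC AS c_wS_32_wQ_26_wN_1_rb8033053425x8 := p_wS_32_wQ_26_wN_1_rb8033053425x4

theorem g__wS_32_wQ_26_wN_1_rb80330534x8_19 : GoodKC AS k_wS_32_wQ_26_wN_1_rb80330534x8_19 := p_wS_32_wQ_26_wN_1_rb80330534x8_19

theorem g__wS_32_wQ_26_wN_1_rb80330534x8_21 : GoodKC AS k_wS_32_wQ_26_wN_1_rb80330534x8_21 := p_wS_32_wQ_26_wN_1_rb80330534x8_21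

theorem g__wS_32_wQ_26_wN_1_rb80330534x8_23 : GoodKC AS k_wS_32_wQ_26_wN_1_rb80330534x8_23 := p_wS_32_wQ_26_wN_1_rb80330534x8_23

theorem g__wS_32_wQ_26_wN_1_rb80330534x8_25 : GoodKC AS k_wS_32_wQ_26_wN_1_rb80330534x8_25 := p_wS_32_wQ_26_wN_1_rb80330534x8_25

theorem g__wS_32_wQ_26_wN_1_rb80330534x8_27 : GoodKC AS k_wS_32_wQ_26_wN_1_rb80330534x8_27 := p_wS_32_wQ_26_wN_1_rb80330534x8_27

theorem g__wS_32_wQ_26_wN_1_rb80330534x8_29 : GoodKC AS k_wS_32_wQ_26_wN_1_rb80330534x8_29 := p_wS_32_wQ_26_wN_1_rb80330534x8_29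

theorem g__wS_32_wQ_26_wN_1_rb80330534x8_28 : GoodKC AS k_wS_32_wQ_26_wN_1_rb80330534x8_28 := p_wS_32_wQ_26_wN_1_rb80330534x8_28 g__wS_32_wQ_26_wN_1_rb80330534x8_29

theorem g__wS_32_wQ_26_wN_1_rb80330534x8_26 : GoodKC AS k_wS_32_wQ_26_wN_1_rb80330534x8_26 := p_wS_32_wQ_26_wN_1_rb80330534x8_26 g__wS_32_wQ_26_wN_1_rb80330534x8_27 g__wS_32_wQ_26_wN_1_rb80330534x8_28

theorem g__wS_32_wQ_26_wN_1_rb80330534x8_24 : GoodKC AS k_wS_32_wQ_26_wN_1_rb80330534x8_24 := p_wS_32_wQ_26_wN_1_rb80330534x8_24 g__wS_32_wQ_26_wN_1_rb80330534x8_25 g__wS_32_wQ_26_wN_1_rb80330534x8_26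

theorem g__wS_32_wQ_26_wN_1_rb80330534x8_22 : GoodKC AS k_wS_32_wQ_26_wN_1_rb80330534x8_22 := p_wS_32_wQ_26_wN_1_rb80330534x8_22 g__wS_32_wQ_26_wN_1_rb80330534x8_23 g__wS_32_wQ_26_wN_1_rb80330534x8_24

theorem g__wS_32_wQ_26_wN_1_rb80330534x8_20 : GoodKC AS k_wS_32_wQ_26_wN_1_rb80330534x8_20 := p_wS_32_wQ_26_wN_1_rb80330534x8_20 g__wS_32_wQ_26_wN_1_rb80330534x8_21 g__wS_32_wQ_26_wN_1_rb80330534x8_22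

theorem g__wS_32_wQ_26_wN_1_rb80330534x8_18 : GoodKC AS k_wS_32_wQ_26_wN_1_rb80330534x8_18 := p_wS_32_wQ_26_wN_1_rb80330534x8_18 g__wS_32_wQ_26_wN_1_rb80330534x8_19 g__wS_32_wQ_26_wN_1_rb80330534x8_20

theorem g__wS_32_wQ_26_wN_1_rb8033053426x4_1 : GoodKC AS k_wS_32_wQ_26_wN_1_rb8033053426x4_1 := p_wS_32_wQ_26_wN_1_rb8033053426x4_1

theorem g__wS_32_wQ_26_wN_1_rb8033053426x4_2 : GoodKC AS k_wS_32_wQ_26_wN_1_rb8033053426x4_2 := p_wS_32_wQ_26_wN_1_rb8033053426x4_2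

theorem g__wS_32_wQ_26_wN_1_rb8033053426x4_0 : GoodKC AS k_wS_32_wQ_26_wN_1_rb8033053426x4_0 := p_wS_32_wQ_26_wN_1_rb8033053426x4_0 g__wS_32_wQ_26_wN_1_rb8033053426x4_1 g__wS_32_wQ_26_wN_1_rb8033053426x4_2

theorem g_wS_32_wQ_26_wN_1_rb8033053426x8 : GoodKC AS c_wS_32_wQ_26_wN_1_rb8033053426x8 := p_wS_32_wQ_26_wN_1_rb8033053426x4 g__wS_32_wQ_26_wN_1_rb8033053426x4_0

theorem g_wS_32_wQ_26_wN_1_rb80330534x17 : GoodKC AS c_wS_32_wQ_26_wN_1_rb80330534x17 := p_wS_32_wQ_26_wN_1_rb80330534x8 g_wS_32_wQ_26_wN_1_rb803305342ax8 g_wS_32_wQ_26_wN_1_rb8033053429x8 g_wS_32_wQ_26_wN_1_rb8033053428x8 g_wS_32_wQ_26_wN_1_rb8033053427x8 g_wS_32_wQ_26_wN_1_rb8033053424x8 g_wS_32_wQ_26_wN_1_rb8033053423x8 g_wS_32_wQ_26_wN_1_rb8033053422x8 g_wS_32_wQ_26_wN_1_rb8033053421x8 g__wS_32_wQ_26_wN_1_rb80330534x8_0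 g__wS_32_wQ_26_wN_1_rb80330534x8_4 g_wS_32_wQ_26_wN_1_rb8033053420x8 g_wS_32_wQ_26_wN_1_rb8033053425x8 g__wS_32_wQ_26_wN_1_rb80330534x8_18 g_wS_32_wQ_26_wN_1_rb8033053426x8

theorem g_wS_32_wQ_26_wN_1_rb80330536x17 : GoodKC AS c_wS_32_wQ_26_wN_1_rb80330536x17 := p_wS_32_wQ_26_wN_1_rb80330536x7

theorem g__wS_32_wQ_26_wN_1_rb8033053801x6_3 : GoodKC AS k_wS_32_wQ_26_wN_1_rb8033053801x6_3 := p_wS_32_wQ_26_wN_1_rb8033053801x6_3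

theorem g__wS_32_wQ_26_wN_1_rb8033053801x6_2 : GoodKC AS k_wS_32_wQ_26_wN_1_rb8033053801x6_2 := p_wS_32_wQ_26_wN_1_rb8033053801x6_2 g__wS_32_wQ_26_wN_1_rb8033053801x6_3

theorem g__wS_32_wQ_26_wN_1_rb8033053801x6_1 : GoodKC AS k_wS_32_wQ_26_wN_1_rb8033053801x6_1 := p_wS_32_wQ_26_wN_1_rb8033053801x6_1 g__wS_32_wQ_26_wN_1_rb8033053801x6_2

theorem g__wS_32_wQ_26_wN_1_rb8033053801x6_0 : GoodKC AS k_wS_32_wQ_26_wN_1_rb8033053801x6_0 := p_wS_32_wQ_26_wN_1_rb8033053801x6_0 g__wS_32_wQ_26_wN_1_rb8033053801x6_1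

theorem g__wS_32_wQ_26_wN_1_rb8033053801x6_7 : GoodKC AS k_wS_32_wQ_26_wN_1_rb8033053801x6_7 := p_wS_32_wQ_26_wN_1_rb8033053801x6_7

theorem g__wS_32_wQ_26_wN_1_rb8033053801x6_8 : GoodKC AS k_wS_32_wQ_26_wN_1_rb8033053801x6_8 := p_wS_32_wQ_26_wN_1_rb8033053801x6_8

theorem g__wS_32_wQ_26_wN_1_rb8033053801x6_10 : GoodKC AS k_wS_32_wQ_26_wN_1_rb8033053801x6_10 := p_wS_32_wQ_26_wN_1_rb8033053801x6_10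

theorem g__wS_32_wQ_26_wN_1_rb8033053801x6_9 : GoodKC AS k_wS_32_wQ_26_wN_1_rb8033053801x6_9 := p_wS_32_wQ_26_wN_1_rb8033053801x6_9 g__wS_32_wQ_26_wN_1_rb8033053801x6_10

theorem g__wS_32_wQ_26_wN_1_rb8033053801x6_12 : GoodKC AS k_wS_32_wQ_26_wN_1_rb8033053801x6_12 := p_wS_32_wQ_26_wN_1_rb8033053801x6_12

theorem g__wS_32_wQ_26_wN_1_rb8033053801x6_11 : GoodKC AS k_wS_32_wQ_26_wN_1_rb8033053801x6_11 := p_wS_32_wQ_26_wN_1_rb8033053801x6_11 g__wS_32_wQ_26_wN_1_rb8033053801x6_12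

theorem g__wS_32_wQ_26_wN_1_rb8033053801x6_6 : GoodKC AS k_wS_32_wQ_26_wN_1_rb8033053801x6_6 := p_wS_32_wQ_26_wN_1_rb8033053801x6_6 g__wS_32_wQ_26_wN_1_rb8033053801x6_7 g__wS_32_wQ_26_wN_1_rb8033053801x6_8 g__wS_32_wQ_26_wN_1_rb8033053801x6_9 g__wS_32_wQ_26_wN_1_rb8033053801x6_11

theorem g__wS_32_wQ_26_wN_1_rb8033053801x6_13 : GoodKC AS k_wS_32_wQ_26_wN_1_rb8033053801x6_13 := p_wS_32_wQ_26_wN_1_rb8033053801x6_13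

theorem g__wS_32_wQ_26_wN_1_rb8033053801x6_5 : GoodKC AS k_wS_32_wQ_26_wN_1_rb8033053801x6_5 := p_wS_32_wQ_26_wN_1_rb8033053801x6_5 g__wS_32_wQ_26_wN_1_rb8033053801x6_6 g__wS_32_wQ_26_wN_1_rb8033053801x6_13

theorem g__wS_32_wQ_26_wN_1_rb8033053801x6_4 : GoodKC AS k_wS_32_wQ_26_wN_1_rb8033053801x6_4 := p_wS_32_wQ_26_wN_1_rb8033053801x6_4 g__wS_32_wQ_26_wN_1_rb8033053801x6_5

theorem g_wS_32_wQ_26_wN_1_rb8033053801x7 : GoodKC AS c_wS_32_wQ_26_wN_1_rb8033053801x7 := p_wS_32_wQ_26_wN_1_rb8033053801x6 g__wS_32_wQ_26_wN_1_rb8033053801x6_0 g__wS_32_wQ_26_wN_1_rb8033053801x6_4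

theorem g__wS_32_wQ_26_wN_1_rb80330538x7_1 : GoodKC AS k_wS_32_wQ_26_wN_1_rb80330538x7_1 := p_wS_32_wQ_26_wN_1_rb80330538x7_1

theorem g__wS_32_wQ_26_wN_1_rb8033053800v6_3 : GoodKC AS k_wS_32_wQ_26_wN_1_rb8033053800v6_3 := p_wS_32_wQ_26_wN_1_rb8033053800v6_3

theorem g__wS_32_wQ_26_wN_1_rb8033053800v6_4 : GoodKC AS k_wS_32_wQ_26_wN_1_rb8033053800v6_4 := p_wS_32_wQ_26_wN_1_rb8033053800v6_4

theorem g__wS_32_wQ_26_wN_1_rb8033053800v6_5 : GoodKC AS k_wS_32_wQ_26_wN_1_rb8033053800v6_5 := p_wS_32_wQ_26_wN_1_rb8033053800v6_5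

theorem g__wS_32_wQ_26_wN_1_rb8033053800v6_2 : GoodKC AS k_wS_32_wQ_26_wN_1_rb8033053800v6_2 := p_wS_32_wQ_26_wN_1_rb8033053800v6_2 g__wS_32_wQ_26_wN_1_rb8033053800v6_3 g__wS_32_wQ_26_wN_1_rb8033053800v6_4 g__wS_32_wQ_26_wN_1_rb8033053800v6_5

theorem g__wS_32_wQ_26_wN_1_rb8033053800v6_8 : GoodKC AS k_wS_32_wQ_26_wN_1_rb8033053800v6_8 := p_wS_32_wQ_26_wN_1_rb8033053800v6_8

theorem g__wS_32_wQ_26_wN_1_rb8033053800v6_7 : GoodKC AS k_wS_32_wQ_26_wN_1_rb8033053800v6_7 := p_wS_32_wQ_26_wN_1_rb8033053800v6_7 g__wS_32_wQ_26_wN_1_rb8033053800v6_8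

theorem g__wS_32_wQ_26_wN_1_rb8033053800v6_6 : GoodKC AS k_wS_32_wQ_26_wN_1_rb8033053800v6_6 := p_wS_32_wQ_26_wN_1_rb8033053800v6_6 g__wS_32_wQ_26_wN_1_rb8033053800v6_7

theorem g__wS_32_wQ_26_wN_1_rb8033053800v6_1 : GoodKC AS k_wS_32_wQ_26_wN_1_rb8033053800v6_1 := p_wS_32_wQ_26_wN_1_rb8033053800v6_1 g__wS_32_wQ_26_wN_1_rb8033053800v6_2 g__wS_32_wQ_26_wN_1_rb8033053800v6_6

theorem g__wS_32_wQ_26_wN_1_rb8033053800v6_0 : GoodKC AS k_wS_32_wQ_26_wN_1_rb8033053800v6_0 := p_wS_32_wQ_26_wN_1_rb8033053800v6_0 g__wS_32_wQ_26_wN_1_rb8033053800v6_1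

theorem g__wS_32_wQ_26_wN_1_rb8033053800v6_9 : GoodKC AS k_wS_32_wQ_26_wN_1_rb8033053800v6_9 := p_wS_32_wQ_26_wN_1_rb8033053800v6_9

theorem g__wS_32_wQ_26_wN_1_rb8033053800v6_11 : GoodKC AS k_wS_32_wQ_26_wN_1_rb8033053800v6_11 := p_wS_32_wQ_26_wN_1_rb8033053800v6_11

theorem g__wS_32_wQ_26_wN_1_rb8033053800v6_10 : GoodKC AS k_wS_32_wQ_26_wN_1_rb8033053800v6_10 := p_wS_32_wQ_26_wN_1_rb8033053800v6_10 g__wS_32_wQ_26_wN_1_rb8033053800v6_11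

theorem g__wS_32_wQ_26_wN_1_rb8033053800v6_12 : GoodKC AS k_wS_32_wQ_26_wN_1_rb8033053800v6_12 := p_wS_32_wQ_26_wN_1_rb8033053800v6_12

theorem g__wS_32_wQ_26_wN_1_rb8033053800v6_13 : GoodKC AS k_wS_32_wQ_26_wN_1_rb8033053800v6_13 := p_wS_32_wQ_26_wN_1_rb8033053800v6_13

theorem g_wS_32_wQ_26_wN_1_rb8033053800x7 : GoodKC AS c_wS_32_wQ_26_wN_1_rb8033053800x7 := p_wS_32_wQ_26_wN_1_rb8033053800x6 g__wS_32_wQ_26_wN_1_rb8033053800v6_0 g__wS_32_wQ_26_wN_1_rb8033053800v6_9 g__wS_32_wQ_26_wN_1_rb8033053800v6_10 g__wS_32_wQ_26_wN_1_rb8033053800v6_12 g__wS_32_wQ_26_wN_1_rb8033053800v6_13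

theorem g__wS_32_wQ_26_wN_1_rb80330538x7_4 : GoodKC AS k_wS_32_wQ_26_wN_1_rb80330538x7_4 := p_wS_32_wQ_26_wN_1_rb80330538x7_4

theorem g__wS_32_wQ_26_wN_1_rb80330538x7_3 : GoodKC AS k_wS_32_wQ_26_wN_1_rb80330538x7_3 := p_wS_32_wQ_26_wN_1_rb80330538x7_3 g__wS_32_wQ_26_wN_1_rb80330538x7_4

theorem g__wS_32_wQ_26_wN_1_rb80330538x7_6 : GoodKC AS k_wS_32_wQ_26_wN_1_rb80330538x7_6 := p_wS_32_wQ_26_wN_1_rb80330538x7_6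

theorem g__wS_32_wQ_26_wN_1_rb80330538x7_5 : GoodKC AS k_wS_32_wQ_26_wN_1_rb80330538x7_5 := p_wS_32_wQ_26_wN_1_rb80330538x7_5 g__wS_32_wQ_26_wN_1_rb80330538x7_6

theorem g__wS_32_wQ_26_wN_1_rb80330538x7_9 : GoodKC AS k_wS_32_wQ_26_wN_1_rb80330538x7_9 := p_wS_32_wQ_26_wN_1_rb80330538x7_9

theorem g__wS_32_wQ_26_wN_1_rb80330538x7_8 : GoodKC AS k_wS_32_wQ_26_wN_1_rb80330538x7_8 := p_wS_32_wQ_26_wN_1_rb80330538x7_8 g__wS_32_wQ_26_wN_1_rb80330538x7_9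

theorem g__wS_32_wQ_26_wN_1_rb80330538x7_10 : GoodKC AS k_wS_32_wQ_26_wN_1_rb80330538x7_10 := p_wS_32_wQ_26_wN_1_rb80330538x7_10

theorem g__wS_32_wQ_26_wN_1_rb80330538x7_7 : GoodKC AS k_wS_32_wQ_26_wN_1_rb80330538x7_7 := p_wS_32_wQ_26_wN_1_rb80330538x7_7 g__wS_32_wQ_26_wN_1_rb80330538x7_8 g__wS_32_wQ_26_wN_1_rb80330538x7_10

theorem g__wS_32_wQ_26_wN_1_rb80330538x7_12 : GoodKC AS k_wS_32_wQ_26_wN_1_rb80330538x7_12 := p_wS_32_wQ_26_wN_1_rb80330538x7_12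

theorem g__wS_32_wQ_26_wN_1_rb80330538x7_13 : GoodKC AS k_wS_32_wQ_26_wN_1_rb80330538x7_13 := p_wS_32_wQ_26_wN_1_rb80330538x7_13

theorem g__wS_32_wQ_26_wN_1_rb80330538x7_14 : GoodKC AS k_wS_32_wQ_26_wN_1_rb80330538x7_14 := p_wS_32_wQ_26_wN_1_rb80330538x7_14

theorem g__wS_32_wQ_26_wN_1_rb80330538x7_16 : GoodKC AS k_wS_32_wQ_26_wN_1_rb80330538x7_16 := p_wS_32_wQ_26_wN_1_rb80330538x7_16

theorem g__wS_32_wQ_26_wN_1_rb80330538x7_17 : GoodKC AS k_wS_32_wQ_26_wN_1_rb80330538x7_17 := p_wS_32_wQ_26_wN_1_rb80330538x7_17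

theorem g__wS_32_wQ_26_wN_1_rb80330538x7_18 : GoodKC AS k_wS_32_wQ_26_wN_1_rb80330538x7_18 := p_wS_32_wQ_26_wN_1_rb80330538x7_18

theorem g__wS_32_wQ_26_wN_1_rb80330538x7_15 : GoodKC AS k_wS_32_wQ_26_wN_1_rb80330538x7_15 := p_wS_32_wQ_26_wN_1_rb80330538x7_15 g__wS_32_wQ_26_wN_1_rb80330538x7_16 g__wS_32_wQ_26_wN_1_rb80330538x7_17 g__wS_32_wQ_26_wN_1_rb80330538x7_18

theorem g__wS_32_wQ_26_wN_1_rb80330538x7_11 : GoodKC AS k_wS_32_wQ_26_wN_1_rb80330538x7_11 := p_wS_32_wQ_26_wN_1_rb80330538x7_11 g__wS_32_wQ_26_wN_1_rb80330538x7_12 g__wS_32_wQ_26_wN_1_rb80330538x7_13 g__wS_32_wQ_26_wN_1_rb80330538x7_14 g__wS_32_wQ_26_wN_1_rb80330538x7_15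

theorem g__wS_32_wQ_26_wN_1_rb80330538x7_21 : GoodKC AS k_wS_32_wQ_26_wN_1_rb80330538x7_21 := p_wS_32_wQ_26_wN_1_rb80330538x7_21

theorem g__wS_32_wQ_26_wN_1_rb80330538x7_20 : GoodKC AS k_wS_32_wQ_26_wN_1_rb80330538x7_20 := p_wS_32_wQ_26_wN_1_rb80330538x7_20 g__wS_32_wQ_26_wN_1_rb80330538x7_21

theorem g__wS_32_wQ_26_wN_1_rb80330538x7_23 : GoodKC AS k_wS_32_wQ_26_wN_1_rb80330538x7_23 := p_wS_32_wQ_26_wN_1_rb80330538x7_23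

theorem g__wS_32_wQ_26_wN_1_rb80330538x7_25 : GoodKC AS k_wS_32_wQ_26_wN_1_rb80330538x7_25 := p_wS_32_wQ_26_wN_1_rb80330538x7_25

theorem g__wS_32_wQ_26_wN_1_rb80330538x7_27 : GoodKC AS k_wS_32_wQ_26_wN_1_rb80330538x7_27 := p_wS_32_wQ_26_wN_1_rb80330538x7_27

theorem g__wS_32_wQ_26_wN_1_rb80330538x7_26 : GoodKC AS k_wS_32_wQ_26_wN_1_rb80330538x7_26 := p_wS_32_wQ_26_wN_1_rb80330538x7_26 g__wS_32_wQ_26_wN_1_rb80330538x7_27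

theorem g__wS_32_wQ_26_wN_1_rb80330538x7_24 : GoodKC AS k_wS_32_wQ_26_wN_1_rb80330538x7_24 := p_wS_32_wQ_26_wN_1_rb80330538x7_24 g__wS_32_wQ_26_wN_1_rb80330538x7_25 g__wS_32_wQ_26_wN_1_rb80330538x7_26

theorem g__wS_32_wQ_26_wN_1_rb80330538x7_22 : GoodKC AS k_wS_32_wQ_26_wN_1_rb80330538x7_22 := p_wS_32_wQ_26_wN_1_rb80330538x7_22 g__wS_32_wQ_26_wN_1_rb80330538x7_23 g__wS_32_wQ_26_wN_1_rb80330538x7_24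

theorem g__wS_32_wQ_26_wN_1_rb80330538x7_19 : GoodKC AS k_wS_32_wQ_26_wN_1_rb80330538x7_19 := p_wS_32_wQ_26_wN_1_rb80330538x7_19 g__wS_32_wQ_26_wN_1_rb80330538x7_20 g__wS_32_wQ_26_wN_1_rb80330538x7_22

theorem g__wS_32_wQ_26_wN_1_rb80330538x7_29 : GoodKC AS k_wS_32_wQ_26_wN_1_rb80330538x7_29 := p_wS_32_wQ_26_wN_1_rb80330538x7_29

theorem g__wS_32_wQ_26_wN_1_rb80330538x7_31 : GoodKC AS k_wS_32_wQ_26_wN_1_rb80330538x7_31 := p_wS_32_wQ_26_wN_1_rb80330538x7_31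

theorem g__wS_32_wQ_26_wN_1_rb80330538x7_30 : GoodKC AS k_wS_32_wQ_26_wN_1_rb80330538x7_30 := p_wS_32_wQ_26_wN_1_rb80330538x7_30 g__wS_32_wQ_26_wN_1_rb80330538x7_31

theorem g__wS_32_wQ_26_wN_1_rb80330538x7_28 : GoodKC AS k_wS_32_wQ_26_wN_1_rb80330538x7_28 := p_wS_32_wQ_26_wN_1_rb80330538x7_28 g__wS_32_wQ_26_wN_1_rb80330538x7_29 g__wS_32_wQ_26_wN_1_rb80330538x7_30

theorem g__wS_32_wQ_26_wN_1_rb80330538x7_2 : GoodKC AS k_wS_32_wQ_26_wN_1_rb80330538x7_2 := p_wS_32_wQ_26_wN_1_rb80330538x7_2 g_wS_32_wQ_26_wN_1_rb8033053800x7 g__wS_32_wQ_26_wN_1_rb80330538x7_3 g__wS_32_wQ_26_wN_1_rb80330538x7_5 g__wS_32_wQ_26_wN_1_rb80330538x7_7 g__wS_32_wQ_26_wN_1_rb80330538x7_11 g__wS_32_wQ_26_wN_1_rb80330538x7_19 g__wS_32_wQ_26_wN_1_rb80330538x7_28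

theorem g__wS_32_wQ_26_wN_1_rb80330538x7_33 : GoodKC AS k_wS_32_wQ_26_wN_1_rb80330538x7_33 := p_wS_32_wQ_26_wN_1_rb80330538x7_33

theorem g__wS_32_wQ_26_wN_1_rb80330538x7_34 : GoodKC AS k_wS_32_wQ_26_wN_1_rb80330538x7_34 := p_wS_32_wQ_26_wN_1_rb80330538x7_34

theorem g__wS_32_wQ_26_wN_1_rb80330538x7_32 : GoodKC AS k_wS_32_wQ_26_wN_1_rb80330538x7_32 := p_wS_32_wQ_26_wN_1_rb80330538x7_32 g__wS_32_wQ_26_wN_1_rb80330538x7_33 g__wS_32_wQ_26_wN_1_rb80330538x7_34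

theorem g__wS_32_wQ_26_wN_1_rb80330538x7_0 : GoodKC AS k_wS_32_wQ_26_wN_1_rb80330538x7_0 := p_wS_32_wQ_26_wN_1_rb80330538x7_0 g__wS_32_wQ_26_wN_1_rb80330538x7_1 g__wS_32_wQ_26_wN_1_rb80330538x7_2 g__wS_32_wQ_26_wN_1_rb80330538x7_32

theorem g_wS_32_wQ_26_wN_1_rb80330538x17 : GoodKC AS c_wS_32_wQ_26_wN_1_rb80330538x17 := p_wS_32_wQ_26_wN_1_rb80330538x7 g_wS_32_wQ_26_wN_1_rb8033053801x7 g__wS_32_wQ_26_wN_1_rb80330538x7_0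

theorem g_wQ_26_wN_1_rb803305x2 : GoodKC AS c_wQ_26_wN_1_rb803305x2 := p_wQ_26_wN_1_rb803305x17 g_wS_32_wQ_26_wN_1_rb8033053bx17 g_wS_32_wQ_26_wN_1_rb8033053ax17 g_wS_32_wQ_26_wN_1_rb80330539x17 g_wS_32_wQ_26_wN_1_rb80330537x17 g_wS_32_wQ_26_wN_1_rb80330535x17 g_wS_32_wQ_26_wN_1_rb8033052fx17 g_wS_32_wQ_26_wN_1_rb8033052dx17 g_wS_32_wQ_26_wN_1_rb80330529x17 g_wS_32_wQ_26_wN_1_rb80330528x17 g_wS_32_wQ_26_wN_1_rb80330527x17 g_wS_32_wQ_26_wN_1_rb80330526x17 g_wS_32_wQ_26_wN_1_rb80330525x17 g_wS_32_wQ_26_wN_1_rb80330524x17 g_wS_32_wQ_26_wN_1_rb80330523x17 g_wS_32_wQ_26_wN_1_rb80330522x17 g_wS_32_wQ_26_wN_1_rb80330521x17 g_wS_32_wQ_26_wN_1_rb8033051cx17 g_wS_32_wQ_26_wN_1_rb8033051bx17 g_wS_32_wQ_26_wN_1_rb80330519x17 g_wS_32_wQ_26_wN_1_rb80330514x17 g_wS_32_wQ_26_wN_1_rb80330513x17 g_wS_32_wQ_26_wN_1_rb80330511x17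 g_wS_32_wQ_26_wN_1_rb8033050fx17 g_wS_32_wQ_26_wN_1_rb8033050dx17 g_wS_32_wQ_26_wN_1_rb8033050cx17 g_wS_32_wQ_26_wN_1_rb8033050bx17 g_wS_32_wQ_26_wN_1_rb8033050ax17 g_wS_32_wQ_26_wN_1_rb80330508x17 g_wS_32_wQ_26_wN_1_rb80330505x17 g_wS_32_wQ_26_wN_1_rb80330504x17 g_wS_32_wQ_26_wN_1_rb80330503x17 g_wS_32_wQ_26_wN_1_rb80330500x17 g_wS_32_wQ_26_wN_1_rb80330501x17 g_wS_32_wQ_26_wN_1_rb80330502x17 g_wS_32_wQ_26_wN_1_rb80330506x17 g_wS_32_wQ_26_wN_1_rb80330507x17 g_wS_32_wQ_26_wN_1_rb80330509x17 g_wS_32_wQ_26_wN_1_rb8033050ex17 g_wS_32_wQ_26_wN_1_rb80330510x17 g__wQ_26_wN_1_rb803305x17_0 g__wQ_26_wN_1_rb803305x17_1 g__wQ_26_wN_1_rb803305x17_7 g__wQ_26_wN_1_rb803305x17_56 g_wS_32_wQ_26_wN_1_rb80330512x17 g_wS_32_wQ_26_wN_1_rb80330515x17 g_wS_32_wQ_26_wN_1_rb80330516x17 g_wS_32_wQ_26_wN_1_rb80330517x17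 g_wS_32_wQ_26_wN_1_rb80330518x17 g_wS_32_wQ_26_wN_1_rb8033051ax17 g_wS_32_wQ_26_wN_1_rb8033051dx17 g_wS_32_wQ_26_wN_1_rb8033051ex17 g_wS_32_wQ_26_wN_1_rb8033051fx17 g_wS_32_wQ_26_wN_1_rb80330520x17 g_wS_32_wQ_26_wN_1_rb8033052ax17 g_wS_32_wQ_26_wN_1_rb8033052bx17 g_wS_32_wQ_26_wN_1_rb8033052cx17 g_wS_32_wQ_26_wN_1_rb8033052ex17 g_wS_32_wQ_26_wN_1_rb80330530x17 g_wS_32_wQ_26_wN_1_rb80330531x17 g_wS_32_wQ_26_wN_1_rb80330532x17 g_wS_32_wQ_26_wN_1_rb80330533x17 g_wS_32_wQ_26_wN_1_rb80330534x17 g_wS_32_wQ_26_wN_1_rb80330536x17 g_wS_32_wQ_26_wN_1_rb80330538x17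

theorem g_wS_32_wQ_26_wN_1_rb80330402_d41_d03 : GoodKC AS c_wS_32_wQ_26_wN_1_rb80330402_d41_d03 := p_wS_32_wQ_26_wN_1_rb80330402_d41_d03

theorem g__wS_32_wQ_26_wN_1_rb80330402_d41_d02x1_1 : GoodKC AS k_wS_32_wQ_26_wN_1_rb80330402_d41_d02x1_1 := p_wS_32_wQ_26_wN_1_rb80330402_d41_d02x1_1

theorem g__wS_32_wQ_26_wN_1_rb80330402_d41_d02x1_2 : GoodKC AS k_wS_32_wQ_26_wN_1_rb80330402_d41_d02x1_2 := p_wS_32_wQ_26_wN_1_rb80330402_d41_d02x1_2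

theorem g__wS_32_wQ_26_wN_1_rb80330402_d41_d02x1_0 : GoodKC AS k_wS_32_wQ_26_wN_1_rb80330402_d41_d02x1_0 := p_wS_32_wQ_26_wN_1_rb80330402_d41_d02x1_0 g__wS_32_wQ_26_wN_1_rb80330402_d41_d02x1_1 g__wS_32_wQ_26_wN_1_rb80330402_d41_d02x1_2

theorem g__wS_32_wQ_26_wN_1_rb80330402_d41_d02x1_4 : GoodKC AS k_wS_32_wQ_26_wN_1_rb80330402_d41_d02x1_4 := p_wS_32_wQ_26_wN_1_rb80330402_d41_d02x1_4

theorem g__wS_32_wQ_26_wN_1_rb80330402_d41_d02x1_3 : GoodKC AS k_wS_32_wQ_26_wN_1_rb80330402_d41_d02x1_3 := p_wS_32_wQ_26_wN_1_rb80330402_d41_d02x1_3 g__wS_32_wQ_26_wN_1_rb80330402_d41_d02x1_4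

theorem g__wS_32_wQ_26_wN_1_rb80330402_d41_d02x1_6 : GoodKC AS k_wS_32_wQ_26_wN_1_rb80330402_d41_d02x1_6 := p_wS_32_wQ_26_wN_1_rb80330402_d41_d02x1_6

theorem g__wS_32_wQ_26_wN_1_rb80330402_d41_d02x1_5 : GoodKC AS k_wS_32_wQ_26_wN_1_rb80330402_d41_d02x1_5 := p_wS_32_wQ_26_wN_1_rb80330402_d41_d02x1_5 g__wS_32_wQ_26_wN_1_rb80330402_d41_d02x1_6

theorem g_wS_32_wQ_26_wN_1_rb80330402_d41_d02 : GoodKC AS c_wS_32_wQ_26_wN_1_rb80330402_d41_d02 := p_wS_32_wQ_26_wN_1_rb80330402_d41_d02x1 g__wS_32_wQ_26_wN_1_rb80330402_d41_d02x1_0 g__wS_32_wQ_26_wN_1_rb80330402_d41_d02x1_3 g__wS_32_wQ_26_wN_1_rb80330402_d41_d02x1_5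

theorem g_wS_32_wQ_26_wN_1_rb80330402_d41_d01 : GoodKC AS c_wS_32_wQ_26_wN_1_rb80330402_d41_d01 := p_wS_32_wQ_26_wN_1_rb80330402_d41_d01x2

theorem g__wS_32_wQ_26_wN_1_rb80330402_6 : GoodKC AS k_wS_32_wQ_26_wN_1_rb80330402_6 := p_wS_32_wQ_26_wN_1_rb80330402_6

theorem g__wS_32_wQ_26_wN_1_rb80330402_9 : GoodKC AS k_wS_32_wQ_26_wN_1_rb80330402_9 := p_wS_32_wQ_26_wN_1_rb80330402_9

theorem g__wS_32_wQ_26_wN_1_rb80330402_8 : GoodKC AS k_wS_32_wQ_26_wN_1_rb80330402_8 := p_wS_32_wQ_26_wN_1_rb80330402_8 g__wS_32_wQ_26_wN_1_rb80330402_9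

theorem g__wS_32_wQ_26_wN_1_rb80330402_10 : GoodKC AS k_wS_32_wQ_26_wN_1_rb80330402_10 := p_wS_32_wQ_26_wN_1_rb80330402_10

theorem g__wS_32_wQ_26_wN_1_rb80330402_7 : GoodKC AS k_wS_32_wQ_26_wN_1_rb80330402_7 := p_wS_32_wQ_26_wN_1_rb80330402_7 g__wS_32_wQ_26_wN_1_rb80330402_8 g__wS_32_wQ_26_wN_1_rb80330402_10

theorem g__wS_32_wQ_26_wN_1_rb80330402_5 : GoodKC AS k_wS_32_wQ_26_wN_1_rb80330402_5 := p_wS_32_wQ_26_wN_1_rb80330402_5 g__wS_32_wQ_26_wN_1_rb80330402_6 g__wS_32_wQ_26_wN_1_rb80330402_7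

theorem g__wS_32_wQ_26_wN_1_rb80330402_4 : GoodKC AS k_wS_32_wQ_26_wN_1_rb80330402_4 := p_wS_32_wQ_26_wN_1_rb80330402_4 g__wS_32_wQ_26_wN_1_rb80330402_5

theorem g__wS_32_wQ_26_wN_1_rb80330402_3 : GoodKC AS k_wS_32_wQ_26_wN_1_rb80330402_3 := p_wS_32_wQ_26_wN_1_rb80330402_3 g__wS_32_wQ_26_wN_1_rb80330402_4

theorem g__wS_32_wQ_26_wN_1_rb80330402_2 : GoodKC AS k_wS_32_wQ_26_wN_1_rb80330402_2 := p_wS_32_wQ_26_wN_1_rb80330402_2 g__wS_32_wQ_26_wN_1_rb80330402_3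

theorem g__wS_32_wQ_26_wN_1_rb80330402_1 : GoodKC AS k_wS_32_wQ_26_wN_1_rb80330402_1 := p_wS_32_wQ_26_wN_1_rb80330402_1 g__wS_32_wQ_26_wN_1_rb80330402_2

theorem g__wS_32_wQ_26_wN_1_rb80330402_0 : GoodKC AS k_wS_32_wQ_26_wN_1_rb80330402_0 := p_wS_32_wQ_26_wN_1_rb80330402_0 g__wS_32_wQ_26_wN_1_rb80330402_1

theorem g__wS_32_wQ_26_wN_1_rb80330402_11 : GoodKC AS k_wS_32_wQ_26_wN_1_rb80330402_11 := p_wS_32_wQ_26_wN_1_rb80330402_11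

theorem g__wS_32_wQ_26_wN_1_rb80330402_d41_d00_2 : GoodKC AS k_wS_32_wQ_26_wN_1_rb80330402_d41_d00_2 := p_wS_32_wQ_26_wN_1_rb80330402_d41_d00_2

theorem g__wS_32_wQ_26_wN_1_rb80330402_d41_d00_1 : GoodKC AS k_wS_32_wQ_26_wN_1_rb80330402_d41_d00_1 := p_wS_32_wQ_26_wN_1_rb80330402_d41_d00_1 g__wS_32_wQ_26_wN_1_rb80330402_d41_d00_2

theorem g__wS_32_wQ_26_wN_1_rb80330402_d41_d00_4 : GoodKC AS k_wS_32_wQ_26_wN_1_rb80330402_d41_d00_4 := p_wS_32_wQ_26_wN_1_rb80330402_d41_d00_4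

theorem g__wS_32_wQ_26_wN_1_rb80330402_d41_d00_3 : GoodKC AS k_wS_32_wQ_26_wN_1_rb80330402_d41_d00_3 := p_wS_32_wQ_26_wN_1_rb80330402_d41_d00_3 g__wS_32_wQ_26_wN_1_rb80330402_d41_d00_4

theorem g__wS_32_wQ_26_wN_1_rb80330402_d41_d00_6 : GoodKC AS k_wS_32_wQ_26_wN_1_rb80330402_d41_d00_6 := p_wS_32_wQ_26_wN_1_rb80330402_d41_d00_6

theorem g__wS_32_wQ_26_wN_1_rb80330402_d41_d00_7 : GoodKC AS k_wS_32_wQ_26_wN_1_rb80330402_d41_d00_7 := p_wS_32_wQ_26_wN_1_rb80330402_d41_d00_7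

theorem g__wS_32_wQ_26_wN_1_rb80330402_d41_d00_5 : GoodKC AS k_wS_32_wQ_26_wN_1_rb80330402_d41_d00_5 := p_wS_32_wQ_26_wN_1_rb80330402_d41_d00_5 g__wS_32_wQ_26_wN_1_rb80330402_d41_d00_6 g__wS_32_wQ_26_wN_1_rb80330402_d41_d00_7

theorem g__wS_32_wQ_26_wN_1_rb80330402_d41_d00_8 : GoodKC AS k_wS_32_wQ_26_wN_1_rb80330402_d41_d00_8 := p_wS_32_wQ_26_wN_1_rb80330402_d41_d00_8

theorem g__wS_32_wQ_26_wN_1_rb80330402_d41_d00_9 : GoodKC AS k_wS_32_wQ_26_wN_1_rb80330402_d41_d00_9 := p_wS_32_wQ_26_wN_1_rb80330402_d41_d00_9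

theorem g__wS_32_wQ_26_wN_1_rb80330402_d41_d00_0 : GoodKC AS k_wS_32_wQ_26_wN_1_rb80330402_d41_d00_0 := p_wS_32_wQ_26_wN_1_rb80330402_d41_d00_0 g__wS_32_wQ_26_wN_1_rb80330402_d41_d00_1 g__wS_32_wQ_26_wN_1_rb80330402_d41_d00_3 g__wS_32_wQ_26_wN_1_rb80330402_d41_d00_5 g__wS_32_wQ_26_wN_1_rb80330402_d41_d00_8 g__wS_32_wQ_26_wN_1_rb80330402_d41_d00_9

theorem g__wS_32_wQ_26_wN_1_rb80330402_d41_d00_10 : GoodKC AS k_wS_32_wQ_26_wN_1_rb80330402_d41_d00_10 := p_wS_32_wQ_26_wN_1_rb80330402_d41_d00_10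

theorem g_wS_32_wQ_26_wN_1_rb80330402_d41_d00 : GoodKC AS c_wS_32_wQ_26_wN_1_rb80330402_d41_d00 := p_wS_32_wQ_26_wN_1_rb80330402_d41_d00 g__wS_32_wQ_26_wN_1_rb80330402_d41_d00_0 g__wS_32_wQ_26_wN_1_rb80330402_d41_d00_10

theorem g_wS_32_wQ_26_wN_1_rb80330402x6 : GoodKC AS c_wS_32_wQ_26_wN_1_rb80330402x6 := p_wS_32_wQ_26_wN_1_rb80330402 g_wS_32_wQ_26_wN_1_rb80330402_d41_d03 g_wS_32_wQ_26_wN_1_rb80330402_d41_d02 g_wS_32_wQ_26_wN_1_rb80330402_d41_d01 g__wS_32_wQ_26_wN_1_rb80330402_0 g__wS_32_wQ_26_wN_1_rb80330402_11 g_wS_32_wQ_26_wN_1_rb80330402_d41_d00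

theorem g__wQ_26_wN_1_rb803304x6_5 : GoodKC AS k_wQ_26_wN_1_rb803304x6_5 := p_wQ_26_wN_1_rb803304x6_5

theorem g__wQ_26_wN_1_rb803304x6_4 : GoodKC AS k_wQ_26_wN_1_rb803304x6_4 := p_wQ_26_wN_1_rb803304x6_4 g__wQ_26_wN_1_rb803304x6_5

theorem g__wQ_26_wN_1_rb803304x6_6 : GoodKC AS k_wQ_26_wN_1_rb803304x6_6 := p_wQ_26_wN_1_rb803304x6_6

theorem g__wQ_26_wN_1_rb803304x6_7 : GoodKC AS k_wQ_26_wN_1_rb803304x6_7 := p_wQ_26_wN_1_rb803304x6_7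

theorem g__wQ_26_wN_1_rb803304x6_3 : GoodKC AS k_wQ_26_wN_1_rb803304x6_3 := p_wQ_26_wN_1_rb803304x6_3 g__wQ_26_wN_1_rb803304x6_4 g__wQ_26_wN_1_rb803304x6_6 g__wQ_26_wN_1_rb803304x6_7

theorem g__wQ_26_wN_1_rb803304x6_9 : GoodKC AS k_wQ_26_wN_1_rb803304x6_9 := p_wQ_26_wN_1_rb803304x6_9

theorem g__wQ_26_wN_1_rb803304x6_14 : GoodKC AS k_wQ_26_wN_1_rb803304x6_14 := p_wQ_26_wN_1_rb803304x6_14

theorem g__wQ_26_wN_1_rb803304x6_26 : GoodKC AS k_wQ_26_wN_1_rb803304x6_26 := p_wQ_26_wN_1_rb803304x6_26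

theorem g__wQ_26_wN_1_rb803304x6_29 : GoodKC AS k_wQ_26_wN_1_rb803304x6_29 := p_wQ_26_wN_1_rb803304x6_29

theorem g__wQ_26_wN_1_rb803304x6_28 : GoodKC AS k_wQ_26_wN_1_rb803304x6_28 := p_wQ_26_wN_1_rb803304x6_28 g__wQ_26_wN_1_rb803304x6_29

theorem g__wQ_26_wN_1_rb803304x6_27 : GoodKC AS k_wQ_26_wN_1_rb803304x6_27 := p_wQ_26_wN_1_rb803304x6_27 g__wQ_26_wN_1_rb803304x6_28

theorem g__wQ_26_wN_1_rb803304x6_25 : GoodKC AS k_wQ_26_wN_1_rb803304x6_25 := p_wQ_26_wN_1_rb803304x6_25 g__wQ_26_wN_1_rb803304x6_26 g__wQ_26_wN_1_rb803304x6_27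

theorem g__wQ_26_wN_1_rb803304x6_24 : GoodKC AS k_wQ_26_wN_1_rb803304x6_24 := p_wQ_26_wN_1_rb803304x6_24 g__wQ_26_wN_1_rb803304x6_25

theorem g__wQ_26_wN_1_rb803304x6_23 : GoodKC AS k_wQ_26_wN_1_rb803304x6_23 := p_wQ_26_wN_1_rb803304x6_23 g__wQ_26_wN_1_rb803304x6_24

theorem g__wQ_26_wN_1_rb803304x6_22 : GoodKC AS k_wQ_26_wN_1_rb803304x6_22 := p_wQ_26_wN_1_rb803304x6_22 g__wQ_26_wN_1_rb803304x6_23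

theorem g__wQ_26_wN_1_rb803304x6_21 : GoodKC AS k_wQ_26_wN_1_rb803304x6_21 := p_wQ_26_wN_1_rb803304x6_21 g__wQ_26_wN_1_rb803304x6_22

theorem g__wQ_26_wN_1_rb803304x6_20 : GoodKC AS k_wQ_26_wN_1_rb803304x6_20 := p_wQ_26_wN_1_rb803304x6_20 g__wQ_26_wN_1_rb803304x6_21

theorem g__wQ_26_wN_1_rb803304x6_19 : GoodKC AS k_wQ_26_wN_1_rb803304x6_19 := p_wQ_26_wN_1_rb803304x6_19 g__wQ_26_wN_1_rb803304x6_20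

theorem g__wQ_26_wN_1_rb803304x6_18 : GoodKC AS k_wQ_26_wN_1_rb803304x6_18 := p_wQ_26_wN_1_rb803304x6_18 g__wQ_26_wN_1_rb803304x6_19

theorem g__wQ_26_wN_1_rb803304x6_37 : GoodKC AS k_wQ_26_wN_1_rb803304x6_37 := p_wQ_26_wN_1_rb803304x6_37

theorem g__wQ_26_wN_1_rb803304x6_36 : GoodKC AS k_wQ_26_wN_1_rb803304x6_36 := p_wQ_26_wN_1_rb803304x6_36 g__wQ_26_wN_1_rb803304x6_37

theorem g__wQ_26_wN_1_rb803304x6_35 : GoodKC AS k_wQ_26_wN_1_rb803304x6_35 := p_wQ_26_wN_1_rb803304x6_35 g__wQ_26_wN_1_rb803304x6_36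

theorem g__wQ_26_wN_1_rb803304x6_34 : GoodKC AS k_wQ_26_wN_1_rb803304x6_34 := p_wQ_26_wN_1_rb803304x6_34 g__wQ_26_wN_1_rb803304x6_35

theorem g__wQ_26_wN_1_rb803304x6_33 : GoodKC AS k_wQ_26_wN_1_rb803304x6_33 := p_wQ_26_wN_1_rb803304x6_33 g__wQ_26_wN_1_rb803304x6_34

theorem g__wQ_26_wN_1_rb803304x6_32 : GoodKC AS k_wQ_26_wN_1_rb803304x6_32 := p_wQ_26_wN_1_rb803304x6_32 g__wQ_26_wN_1_rb803304x6_33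

theorem g__wQ_26_wN_1_rb803304x6_31 : GoodKC AS k_wQ_26_wN_1_rb803304x6_31 := p_wQ_26_wN_1_rb803304x6_31 g__wQ_26_wN_1_rb803304x6_32

theorem g__wQ_26_wN_1_rb803304x6_30 : GoodKC AS k_wQ_26_wN_1_rb803304x6_30 := p_wQ_26_wN_1_rb803304x6_30 g__wQ_26_wN_1_rb803304x6_31

theorem g__wQ_26_wN_1_rb803304x6_17 : GoodKC AS k_wQ_26_wN_1_rb803304x6_17 := p_wQ_26_wN_1_rb803304x6_17 g__wQ_26_wN_1_rb803304x6_18 g__wQ_26_wN_1_rb803304x6_30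

theorem g__wQ_26_wN_1_rb803304x6_16 : GoodKC AS k_wQ_26_wN_1_rb803304x6_16 := p_wQ_26_wN_1_rb803304x6_16 g__wQ_26_wN_1_rb803304x6_17

theorem g__wQ_26_wN_1_rb803304x6_15 : GoodKC AS k_wQ_26_wN_1_rb803304x6_15 := p_wQ_26_wN_1_rb803304x6_15 g__wQ_26_wN_1_rb803304x6_16

theorem g__wQ_26_wN_1_rb803304x6_13 : GoodKC AS k_wQ_26_wN_1_rb803304x6_13 := p_wQ_26_wN_1_rb803304x6_13 g__wQ_26_wN_1_rb803304x6_14 g__wQ_26_wN_1_rb803304x6_15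

theorem g__wQ_26_wN_1_rb803304x6_12 : GoodKC AS k_wQ_26_wN_1_rb803304x6_12 := p_wQ_26_wN_1_rb803304x6_12 g__wQ_26_wN_1_rb803304x6_13

theorem g__wQ_26_wN_1_rb803304x6_11 : GoodKC AS k_wQ_26_wN_1_rb803304x6_11 := p_wQ_26_wN_1_rb803304x6_11 g__wQ_26_wN_1_rb803304x6_12

theorem g__wQ_26_wN_1_rb803304x6_10 : GoodKC AS k_wQ_26_wN_1_rb803304x6_10 := p_wQ_26_wN_1_rb803304x6_10 g__wQ_26_wN_1_rb803304x6_11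

theorem g__wQ_26_wN_1_rb803304x6_8 : GoodKC AS k_wQ_26_wN_1_rb803304x6_8 := p_wQ_26_wN_1_rb803304x6_8 g__wQ_26_wN_1_rb803304x6_9 g__wQ_26_wN_1_rb803304x6_10

theorem g__wQ_26_wN_1_rb803304x6_2 : GoodKC AS k_wQ_26_wN_1_rb803304x6_2 := p_wQ_26_wN_1_rb803304x6_2 g__wQ_26_wN_1_rb803304x6_3 g__wQ_26_wN_1_rb803304x6_8

theorem g__wQ_26_wN_1_rb803304x6_38 : GoodKC AS k_wQ_26_wN_1_rb803304x6_38 := p_wQ_26_wN_1_rb803304x6_38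

theorem g__wQ_26_wN_1_rb803304x6_42 : GoodKC AS k_wQ_26_wN_1_rb803304x6_42 := p_wQ_26_wN_1_rb803304x6_42

theorem g__wQ_26_wN_1_rb803304x6_41 : GoodKC AS k_wQ_26_wN_1_rb803304x6_41 := p_wQ_26_wN_1_rb803304x6_41 g__wQ_26_wN_1_rb803304x6_42

theorem g__wQ_26_wN_1_rb803304x6_40 : GoodKC AS k_wQ_26_wN_1_rb803304x6_40 := p_wQ_26_wN_1_rb803304x6_40 g__wQ_26_wN_1_rb803304x6_41

theorem g__wQ_26_wN_1_rb803304x6_39 : GoodKC AS k_wQ_26_wN_1_rb803304x6_39 := p_wQ_26_wN_1_rb803304x6_39 g__wQ_26_wN_1_rb803304x6_40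

theorem g__wQ_26_wN_1_rb803304x6_45 : GoodKC AS k_wQ_26_wN_1_rb803304x6_45 := p_wQ_26_wN_1_rb803304x6_45

theorem g__wQ_26_wN_1_rb803304x6_44 : GoodKC AS k_wQ_26_wN_1_rb803304x6_44 := p_wQ_26_wN_1_rb803304x6_44 g__wQ_26_wN_1_rb803304x6_45

theorem g__wQ_26_wN_1_rb803304x6_43 : GoodKC AS k_wQ_26_wN_1_rb803304x6_43 := p_wQ_26_wN_1_rb803304x6_43 g__wQ_26_wN_1_rb803304x6_44

theorem g__wQ_26_wN_1_rb803304x6_46 : GoodKC AS k_wQ_26_wN_1_rb803304x6_46 := p_wQ_26_wN_1_rb803304x6_46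

theorem g__wS_32_wQ_26_wN_1_rb80330400v1_0 : GoodKC AS k_wS_32_wQ_26_wN_1_rb80330400v1_0 := p_wS_32_wQ_26_wN_1_rb80330400v1_0

theorem g_wS_32_wQ_26_wN_1_rb80330400x6 : GoodKC AS c_wS_32_wQ_26_wN_1_rb80330400x6 := p_wS_32_wQ_26_wN_1_rb80330400x1 g__wS_32_wQ_26_wN_1_rb80330400v1_0

theorem g_wS_32_wQ_26_wN_1_rb80330401x6 : GoodKC AS c_wS_32_wQ_26_wN_1_rb80330401x6 := p_wS_32_wQ_26_wN_1_rb80330401x1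

theorem g__wQ_26_wN_1_rb803304x6_1 : GoodKC AS k_wQ_26_wN_1_rb803304x6_1 := p_wQ_26_wN_1_rb803304x6_1 g__wQ_26_wN_1_rb803304x6_2 g__wQ_26_wN_1_rb803304x6_38 g__wQ_26_wN_1_rb803304x6_39 g__wQ_26_wN_1_rb803304x6_43 g__wQ_26_wN_1_rb803304x6_46 g_wS_32_wQ_26_wN_1_rb80330400x6 g_wS_32_wQ_26_wN_1_rb80330401x6

theorem g__wQ_26_wN_1_rb803304x6_0 : GoodKC AS k_wQ_26_wN_1_rb803304x6_0 := p_wQ_26_wN_1_rb803304x6_0 g_wS_32_wQ_26_wN_1_rb80330402x6 g__wQ_26_wN_1_rb803304x6_1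

theorem g__wS_32_wQ_26_wN_1_rb80330403x1_0 : GoodKC AS k_wS_32_wQ_26_wN_1_rb80330403x1_0 := p_wS_32_wQ_26_wN_1_rb80330403x1_0

theorem g__wS_32_wQ_26_wN_1_rb80330403x1_1 : GoodKC AS k_wS_32_wQ_26_wN_1_rb80330403x1_1 := p_wS_32_wQ_26_wN_1_rb80330403x1_1

theorem g__wS_32_wQ_26_wN_1_rb80330403x1_4 : GoodKC AS k_wS_32_wQ_26_wN_1_rb80330403x1_4 := p_wS_32_wQ_26_wN_1_rb80330403x1_4

theorem g__wS_32_wQ_26_wN_1_rb80330403x1_3 : GoodKC AS k_wS_32_wQ_26_wN_1_rb80330403x1_3 := p_wS_32_wQ_26_wN_1_rb80330403x1_3 g__wS_32_wQ_26_wN_1_rb80330403x1_4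

theorem g__wS_32_wQ_26_wN_1_rb80330403x1_6 : GoodKC AS k_wS_32_wQ_26_wN_1_rb80330403x1_6 := p_wS_32_wQ_26_wN_1_rb80330403x1_6

theorem g__wS_32_wQ_26_wN_1_rb80330403x1_5 : GoodKC AS k_wS_32_wQ_26_wN_1_rb80330403x1_5 := p_wS_32_wQ_26_wN_1_rb80330403x1_5 g__wS_32_wQ_26_wN_1_rb80330403x1_6

theorem g__wS_32_wQ_26_wN_1_rb80330403x1_7 : GoodKC AS k_wS_32_wQ_26_wN_1_rb80330403x1_7 := p_wS_32_wQ_26_wN_1_rb80330403x1_7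

theorem g__wS_32_wQ_26_wN_1_rb80330403x1_2 : GoodKC AS k_wS_32_wQ_26_wN_1_rb80330403x1_2 := p_wS_32_wQ_26_wN_1_rb80330403x1_2 g__wS_32_wQ_26_wN_1_rb80330403x1_3 g__wS_32_wQ_26_wN_1_rb80330403x1_5 g__wS_32_wQ_26_wN_1_rb80330403x1_7

theorem g__wS_32_wQ_26_wN_1_rb80330403x1_10 : GoodKC AS k_wS_32_wQ_26_wN_1_rb80330403x1_10 := p_wS_32_wQ_26_wN_1_rb80330403x1_10

theorem g__wS_32_wQ_26_wN_1_rb80330403x1_9 : GoodKC AS k_wS_32_wQ_26_wN_1_rb80330403x1_9 := p_wS_32_wQ_26_wN_1_rb80330403x1_9 g__wS_32_wQ_26_wN_1_rb80330403x1_10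

theorem g__wS_32_wQ_26_wN_1_rb80330403x1_11 : GoodKC AS k_wS_32_wQ_26_wN_1_rb80330403x1_11 := p_wS_32_wQ_26_wN_1_rb80330403x1_11

theorem g__wS_32_wQ_26_wN_1_rb80330403x1_8 : GoodKC AS k_wS_32_wQ_26_wN_1_rb80330403x1_8 := p_wS_32_wQ_26_wN_1_rb80330403x1_8 g__wS_32_wQ_26_wN_1_rb80330403x1_9 g__wS_32_wQ_26_wN_1_rb80330403x1_11

theorem g_wS_32_wQ_26_wN_1_rb80330403x6 : GoodKC AS c_wS_32_wQ_26_wN_1_rb80330403x6 := p_wS_32_wQ_26_wN_1_rb80330403x1 g__wS_32_wQ_26_wN_1_rb80330403x1_0 g__wS_32_wQ_26_wN_1_rb80330403x1_1 g__wS_32_wQ_26_wN_1_rb80330403x1_2 g__wS_32_wQ_26_wN_1_rb80330403x1_8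

theorem g__wS_32_wQ_26_wN_1_rb80330404x1_3 : GoodKC AS k_wS_32_wQ_26_wN_1_rb80330404x1_3 := p_wS_32_wQ_26_wN_1_rb80330404x1_3

theorem g__wS_32_wQ_26_wN_1_rb80330404x1_2 : GoodKC AS k_wS_32_wQ_26_wN_1_rb80330404x1_2 := p_wS_32_wQ_26_wN_1_rb80330404x1_2 g__wS_32_wQ_26_wN_1_rb80330404x1_3

theorem g__wS_32_wQ_26_wN_1_rb80330404x1_1 : GoodKC AS k_wS_32_wQ_26_wN_1_rb80330404x1_1 := p_wS_32_wQ_26_wN_1_rb80330404x1_1 g__wS_32_wQ_26_wN_1_rb80330404x1_2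

theorem g__wS_32_wQ_26_wN_1_rb80330404x1_5 : GoodKC AS k_wS_32_wQ_26_wN_1_rb80330404x1_5 := p_wS_32_wQ_26_wN_1_rb80330404x1_5

theorem g__wS_32_wQ_26_wN_1_rb80330404x1_4 : GoodKC AS k_wS_32_wQ_26_wN_1_rb80330404x1_4 := p_wS_32_wQ_26_wN_1_rb80330404x1_4 g__wS_32_wQ_26_wN_1_rb80330404x1_5

theorem g__wS_32_wQ_26_wN_1_rb80330404x1_6 : GoodKC AS k_wS_32_wQ_26_wN_1_rb80330404x1_6 := p_wS_32_wQ_26_wN_1_rb80330404x1_6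

theorem g__wS_32_wQ_26_wN_1_rb80330404x1_0 : GoodKC AS k_wS_32_wQ_26_wN_1_rb80330404x1_0 := p_wS_32_wQ_26_wN_1_rb80330404x1_0 g__wS_32_wQ_26_wN_1_rb80330404x1_1 g__wS_32_wQ_26_wN_1_rb80330404x1_4 g__wS_32_wQ_26_wN_1_rb80330404x1_6

theorem g__wS_32_wQ_26_wN_1_rb80330404x1_8 : GoodKC AS k_wS_32_wQ_26_wN_1_rb80330404x1_8 := p_wS_32_wQ_26_wN_1_rb80330404x1_8

theorem g__wS_32_wQ_26_wN_1_rb80330404x1_7 : GoodKC AS k_wS_32_wQ_26_wN_1_rb80330404x1_7 := p_wS_32_wQ_26_wN_1_rb80330404x1_7 g__wS_32_wQ_26_wN_1_rb80330404x1_8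

theorem g__wS_32_wQ_26_wN_1_rb80330404x1_13 : GoodKC AS k_wS_32_wQ_26_wN_1_rb80330404x1_13 := p_wS_32_wQ_26_wN_1_rb80330404x1_13

theorem g__wS_32_wQ_26_wN_1_rb80330404x1_14 : GoodKC AS k_wS_32_wQ_26_wN_1_rb80330404x1_14 := p_wS_32_wQ_26_wN_1_rb80330404x1_14

theorem g__wS_32_wQ_26_wN_1_rb80330404x1_12 : GoodKC AS k_wS_32_wQ_26_wN_1_rb80330404x1_12 := p_wS_32_wQ_26_wN_1_rb80330404x1_12 g__wS_32_wQ_26_wN_1_rb80330404x1_13 g__wS_32_wQ_26_wN_1_rb80330404x1_14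

theorem g__wS_32_wQ_26_wN_1_rb80330404x1_15 : GoodKC AS k_wS_32_wQ_26_wN_1_rb80330404x1_15 := p_wS_32_wQ_26_wN_1_rb80330404x1_15

theorem g__wS_32_wQ_26_wN_1_rb80330404x1_11 : GoodKC AS k_wS_32_wQ_26_wN_1_rb80330404x1_11 := p_wS_32_wQ_26_wN_1_rb80330404x1_11 g__wS_32_wQ_26_wN_1_rb80330404x1_12 g__wS_32_wQ_26_wN_1_rb80330404x1_15

theorem g__wS_32_wQ_26_wN_1_rb80330404x1_10 : GoodKC AS k_wS_32_wQ_26_wN_1_rb80330404x1_10 := p_wS_32_wQ_26_wN_1_rb80330404x1_10 g__wS_32_wQ_26_wN_1_rb80330404x1_11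

theorem g__wS_32_wQ_26_wN_1_rb80330404x1_9 : GoodKC AS k_wS_32_wQ_26_wN_1_rb80330404x1_9 := p_wS_32_wQ_26_wN_1_rb80330404x1_9 g__wS_32_wQ_26_wN_1_rb80330404x1_10

theorem g__wS_32_wQ_26_wN_1_rb80330404x1_21 : GoodKC AS k_wS_32_wQ_26_wN_1_rb80330404x1_21 := p_wS_32_wQ_26_wN_1_rb80330404x1_21

theorem g__wS_32_wQ_26_wN_1_rb80330404x1_20 : GoodKC AS k_wS_32_wQ_26_wN_1_rb80330404x1_20 := p_wS_32_wQ_26_wN_1_rb80330404x1_20 g__wS_32_wQ_26_wN_1_rb80330404x1_21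

theorem g__wS_32_wQ_26_wN_1_rb80330404x1_24 : GoodKC AS k_wS_32_wQ_26_wN_1_rb80330404x1_24 := p_wS_32_wQ_26_wN_1_rb80330404x1_24

theorem g__wS_32_wQ_26_wN_1_rb80330404x1_25 : GoodKC AS k_wS_32_wQ_26_wN_1_rb80330404x1_25 := p_wS_32_wQ_26_wN_1_rb80330404x1_25

theorem g__wS_32_wQ_26_wN_1_rb80330404x1_23 : GoodKC AS k_wS_32_wQ_26_wN_1_rb80330404x1_23 := p_wS_32_wQ_26_wN_1_rb80330404x1_23 g__wS_32_wQ_26_wN_1_rb80330404x1_24 g__wS_32_wQ_26_wN_1_rb80330404x1_25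

theorem g__wS_32_wQ_26_wN_1_rb80330404x1_22 : GoodKC AS k_wS_32_wQ_26_wN_1_rb80330404x1_22 := p_wS_32_wQ_26_wN_1_rb80330404x1_22 g__wS_32_wQ_26_wN_1_rb80330404x1_23

theorem g__wS_32_wQ_26_wN_1_rb80330404x1_19 : GoodKC AS k_wS_32_wQ_26_wN_1_rb80330404x1_19 := p_wS_32_wQ_26_wN_1_rb80330404x1_19 g__wS_32_wQ_26_wN_1_rb80330404x1_20 g__wS_32_wQ_26_wN_1_rb80330404x1_22

theorem g__wS_32_wQ_26_wN_1_rb80330404x1_18 : GoodKC AS k_wS_32_wQ_26_wN_1_rb80330404x1_18 := p_wS_32_wQ_26_wN_1_rb80330404x1_18 g__wS_32_wQ_26_wN_1_rb80330404x1_19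

theorem g__wS_32_wQ_26_wN_1_rb80330404x1_17 : GoodKC AS k_wS_32_wQ_26_wN_1_rb80330404x1_17 := p_wS_32_wQ_26_wN_1_rb80330404x1_17 g__wS_32_wQ_26_wN_1_rb80330404x1_18

theorem g__wS_32_wQ_26_wN_1_rb80330404x1_26 : GoodKC AS k_wS_32_wQ_26_wN_1_rb80330404x1_26 := p_wS_32_wQ_26_wN_1_rb80330404x1_26

theorem g__wS_32_wQ_26_wN_1_rb80330404x1_16 : GoodKC AS k_wS_32_wQ_26_wN_1_rb80330404x1_16 := p_wS_32_wQ_26_wN_1_rb80330404x1_16 g__wS_32_wQ_26_wN_1_rb80330404x1_17 g__wS_32_wQ_26_wN_1_rb80330404x1_26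

theorem g__wS_32_wQ_26_wN_1_rb80330404x1_30 : GoodKC AS k_wS_32_wQ_26_wN_1_rb80330404x1_30 := p_wS_32_wQ_26_wN_1_rb80330404x1_30

theorem g__wS_32_wQ_26_wN_1_rb80330404x1_29 : GoodKC AS k_wS_32_wQ_26_wN_1_rb80330404x1_29 := p_wS_32_wQ_26_wN_1_rb80330404x1_29 g__wS_32_wQ_26_wN_1_rb80330404x1_30

theorem g__wS_32_wQ_26_wN_1_rb80330404x1_28 : GoodKC AS k_wS_32_wQ_26_wN_1_rb80330404x1_28 := p_wS_32_wQ_26_wN_1_rb80330404x1_28 g__wS_32_wQ_26_wN_1_rb80330404x1_29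

theorem g__wS_32_wQ_26_wN_1_rb80330404x1_27 : GoodKC AS k_wS_32_wQ_26_wN_1_rb80330404x1_27 := p_wS_32_wQ_26_wN_1_rb80330404x1_27 g__wS_32_wQ_26_wN_1_rb80330404x1_28

theorem g__wS_32_wQ_26_wN_1_rb80330404x1_31 : GoodKC AS k_wS_32_wQ_26_wN_1_rb80330404x1_31 := p_wS_32_wQ_26_wN_1_rb80330404x1_31

theorem g_wS_32_wQ_26_wN_1_rb80330404x6 : GoodKC AS c_wS_32_wQ_26_wN_1_rb80330404x6 := p_wS_32_wQ_26_wN_1_rb80330404x1 g__wS_32_wQ_26_wN_1_rb80330404x1_0 g__wS_32_wQ_26_wN_1_rb80330404x1_7 g__wS_32_wQ_26_wN_1_rb80330404x1_9 g__wS_32_wQ_26_wN_1_rb80330404x1_16 g__wS_32_wQ_26_wN_1_rb80330404x1_27 g__wS_32_wQ_26_wN_1_rb80330404x1_31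

theorem g_wQ_26_wN_1_rb803304x2 : GoodKC AS c_wQ_26_wN_1_rb803304x2 := p_wQ_26_wN_1_rb803304x6 g__wQ_26_wN_1_rb803304x6_0 g_wS_32_wQ_26_wN_1_rb80330403x6 g_wS_32_wQ_26_wN_1_rb80330404x6

theorem g__xs_42_wQ_26_wN_1_rb80330002_0 : GoodKC AS k_xs_42_wQ_26_wN_1_rb80330002_0 := p_xs_42_wQ_26_wN_1_rb80330002_0

theorem g_xs_42_wQ_26_wN_1_rb80330002x2 : GoodKC AS c_xs_42_wQ_26_wN_1_rb80330002x2 := p_xs_42_wQ_26_wN_1_rb80330002 g__xs_42_wQ_26_wN_1_rb80330002_0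

theorem g__xs_42_wQ_26_wN_1_rb80330001_0 : GoodKC AS k_xs_42_wQ_26_wN_1_rb80330001_0 := p_xs_42_wQ_26_wN_1_rb80330001_0

theorem g_xs_42_wQ_26_wN_1_rb80330001x2 : GoodKC AS c_xs_42_wQ_26_wN_1_rb80330001x2 := p_xs_42_wQ_26_wN_1_rb80330001 g__xs_42_wQ_26_wN_1_rb80330001_0

theorem g__wQ_26_wN_1_rb803300v2_9 : GoodKC AS k_wQ_26_wN_1_rb803300v2_9 := p_wQ_26_wN_1_rb803300v2_9

theorem g__wQ_26_wN_1_rb803300v2_8 : GoodKC AS k_wQ_26_wN_1_rb803300v2_8 := p_wQ_26_wN_1_rb803300v2_8 g__wQ_26_wN_1_rb803300v2_9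

theorem g__wQ_26_wN_1_rb803300v2_11 : GoodKC AS k_wQ_26_wN_1_rb803300v2_11 := p_wQ_26_wN_1_rb803300v2_11

theorem g__wQ_26_wN_1_rb803300v2_13 : GoodKC AS k_wQ_26_wN_1_rb803300v2_13 := p_wQ_26_wN_1_rb803300v2_13

theorem g__wQ_26_wN_1_rb803300v2_12 : GoodKC AS k_wQ_26_wN_1_rb803300v2_12 := p_wQ_26_wN_1_rb803300v2_12 g__wQ_26_wN_1_rb803300v2_13

theorem g__wQ_26_wN_1_rb803300v2_10 : GoodKC AS k_wQ_26_wN_1_rb803300v2_10 := p_wQ_26_wN_1_rb803300v2_10 g__wQ_26_wN_1_rb803300v2_11 g__wQ_26_wN_1_rb803300v2_12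

theorem g__wQ_26_wN_1_rb803300v2_7 : GoodKC AS k_wQ_26_wN_1_rb803300v2_7 := p_wQ_26_wN_1_rb803300v2_7 g__wQ_26_wN_1_rb803300v2_8 g__wQ_26_wN_1_rb803300v2_10

theorem g__wQ_26_wN_1_rb803300v2_6 : GoodKC AS k_wQ_26_wN_1_rb803300v2_6 := p_wQ_26_wN_1_rb803300v2_6 g__wQ_26_wN_1_rb803300v2_7

theorem g__wQ_26_wN_1_rb803300v2_5 : GoodKC AS k_wQ_26_wN_1_rb803300v2_5 := p_wQ_26_wN_1_rb803300v2_5 g__wQ_26_wN_1_rb803300v2_6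

theorem g__wQ_26_wN_1_rb803300v2_4 : GoodKC AS k_wQ_26_wN_1_rb803300v2_4 := p_wQ_26_wN_1_rb803300v2_4 g__wQ_26_wN_1_rb803300v2_5

theorem g__wQ_26_wN_1_rb803300v2_3 : GoodKC AS k_wQ_26_wN_1_rb803300v2_3 := p_wQ_26_wN_1_rb803300v2_3 g__wQ_26_wN_1_rb803300v2_4

theorem g__wQ_26_wN_1_rb803300v2_16 : GoodKC AS k_wQ_26_wN_1_rb803300v2_16 := p_wQ_26_wN_1_rb803300v2_16

theorem g__wQ_26_wN_1_rb803300v2_15 : GoodKC AS k_wQ_26_wN_1_rb803300v2_15 := p_wQ_26_wN_1_rb803300v2_15 g__wQ_26_wN_1_rb803300v2_16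

theorem g__wQ_26_wN_1_rb803300v2_17 : GoodKC AS k_wQ_26_wN_1_rb803300v2_17 := p_wQ_26_wN_1_rb803300v2_17

theorem g__wQ_26_wN_1_rb803300v2_14 : GoodKC AS k_wQ_26_wN_1_rb803300v2_14 := p_wQ_26_wN_1_rb803300v2_14 g__wQ_26_wN_1_rb803300v2_15 g__wQ_26_wN_1_rb803300v2_17

theorem g__wQ_26_wN_1_rb803300v2_2 : GoodKC AS k_wQ_26_wN_1_rb803300v2_2 := p_wQ_26_wN_1_rb803300v2_2 g__wQ_26_wN_1_rb803300v2_3 g__wQ_26_wN_1_rb803300v2_14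

theorem g__wQ_26_wN_1_rb803300v2_20 : GoodKC AS k_wQ_26_wN_1_rb803300v2_20 := p_wQ_26_wN_1_rb803300v2_20

theorem g__wQ_26_wN_1_rb803300v2_19 : GoodKC AS k_wQ_26_wN_1_rb803300v2_19 := p_wQ_26_wN_1_rb803300v2_19 g__wQ_26_wN_1_rb803300v2_20

theorem g__wQ_26_wN_1_rb803300v2_18 : GoodKC AS k_wQ_26_wN_1_rb803300v2_18 := p_wQ_26_wN_1_rb803300v2_18 g__wQ_26_wN_1_rb803300v2_19

theorem g__wQ_26_wN_1_rb803300v2_21 : GoodKC AS k_wQ_26_wN_1_rb803300v2_21 := p_wQ_26_wN_1_rb803300v2_21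

theorem g__wQ_26_wN_1_rb803300v2_1 : GoodKC AS k_wQ_26_wN_1_rb803300v2_1 := p_wQ_26_wN_1_rb803300v2_1 g__wQ_26_wN_1_rb803300v2_2 g__wQ_26_wN_1_rb803300v2_18 g__wQ_26_wN_1_rb803300v2_21

theorem g__xs_42_wQ_26_wN_1_rb80330000_4 : GoodKC AS k_xs_42_wQ_26_wN_1_rb80330000_4 := p_xs_42_wQ_26_wN_1_rb80330000_4

theorem g__xs_42_wQ_26_wN_1_rb80330000_3 : GoodKC AS k_xs_42_wQ_26_wN_1_rb80330000_3 := p_xs_42_wQ_26_wN_1_rb80330000_3 g__xs_42_wQ_26_wN_1_rb80330000_4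

theorem g__xs_42_wQ_26_wN_1_rb80330000_2 : GoodKC AS k_xs_42_wQ_26_wN_1_rb80330000_2 := p_xs_42_wQ_26_wN_1_rb80330000_2 g__xs_42_wQ_26_wN_1_rb80330000_3

theorem g__xs_42_wQ_26_wN_1_rb80330000_1 : GoodKC AS k_xs_42_wQ_26_wN_1_rb80330000_1 := p_xs_42_wQ_26_wN_1_rb80330000_1 g__xs_42_wQ_26_wN_1_rb80330000_2

theorem g__xs_42_wQ_26_wN_1_rb80330000_0 : GoodKC AS k_xs_42_wQ_26_wN_1_rb80330000_0 := p_xs_42_wQ_26_wN_1_rb80330000_0 g__xs_42_wQ_26_wN_1_rb80330000_1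

theorem g__xs_42_wQ_26_wN_1_rb80330000_7 : GoodKC AS k_xs_42_wQ_26_wN_1_rb80330000_7 := p_xs_42_wQ_26_wN_1_rb80330000_7

theorem g__xs_42_wQ_26_wN_1_rb80330000_6 : GoodKC AS k_xs_42_wQ_26_wN_1_rb80330000_6 := p_xs_42_wQ_26_wN_1_rb80330000_6 g__xs_42_wQ_26_wN_1_rb80330000_7

theorem g__xs_42_wQ_26_wN_1_rb80330000_14 : GoodKC AS k_xs_42_wQ_26_wN_1_rb80330000_14 := p_xs_42_wQ_26_wN_1_rb80330000_14

theorem g__xs_42_wQ_26_wN_1_rb80330000_18 : GoodKC AS k_xs_42_wQ_26_wN_1_rb80330000_18 := p_xs_42_wQ_26_wN_1_rb80330000_18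

theorem g__xs_42_wQ_26_wN_1_rb80330000_17 : GoodKC AS k_xs_42_wQ_26_wN_1_rb80330000_17 := p_xs_42_wQ_26_wN_1_rb80330000_17 g__xs_42_wQ_26_wN_1_rb80330000_18

theorem g__xs_42_wQ_26_wN_1_rb80330000_16 : GoodKC AS k_xs_42_wQ_26_wN_1_rb80330000_16 := p_xs_42_wQ_26_wN_1_rb80330000_16 g__xs_42_wQ_26_wN_1_rb80330000_17

theorem g__xs_42_wQ_26_wN_1_rb80330000_19 : GoodKC AS k_xs_42_wQ_26_wN_1_rb80330000_19 := p_xs_42_wQ_26_wN_1_rb80330000_19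

theorem g__xs_42_wQ_26_wN_1_rb80330000_15 : GoodKC AS k_xs_42_wQ_26_wN_1_rb80330000_15 := p_xs_42_wQ_26_wN_1_rb80330000_15 g__xs_42_wQ_26_wN_1_rb80330000_16 g__xs_42_wQ_26_wN_1_rb80330000_19

theorem g__xs_42_wQ_26_wN_1_rb80330000_13 : GoodKC AS k_xs_42_wQ_26_wN_1_rb80330000_13 := p_xs_42_wQ_26_wN_1_rb80330000_13 g__xs_42_wQ_26_wN_1_rb80330000_14 g__xs_42_wQ_26_wN_1_rb80330000_15

theorem g__xs_42_wQ_26_wN_1_rb80330000_20 : GoodKC AS k_xs_42_wQ_26_wN_1_rb80330000_20 := p_xs_42_wQ_26_wN_1_rb80330000_20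

theorem g__xs_42_wQ_26_wN_1_rb80330000_12 : GoodKC AS k_xs_42_wQ_26_wN_1_rb80330000_12 := p_xs_42_wQ_26_wN_1_rb80330000_12 g__xs_42_wQ_26_wN_1_rb80330000_13 g__xs_42_wQ_26_wN_1_rb80330000_20

theorem g__xs_42_wQ_26_wN_1_rb80330000_11 : GoodKC AS k_xs_42_wQ_26_wN_1_rb80330000_11 := p_xs_42_wQ_26_wN_1_rb80330000_11 g__xs_42_wQ_26_wN_1_rb80330000_12

theorem g__xs_42_wQ_26_wN_1_rb80330000_23 : GoodKC AS k_xs_42_wQ_26_wN_1_rb80330000_23 := p_xs_42_wQ_26_wN_1_rb80330000_23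

theorem g__xs_42_wQ_26_wN_1_rb80330000_22 : GoodKC AS k_xs_42_wQ_26_wN_1_rb80330000_22 := p_xs_42_wQ_26_wN_1_rb80330000_22 g__xs_42_wQ_26_wN_1_rb80330000_23

theorem g__xs_42_wQ_26_wN_1_rb80330000_25 : GoodKC AS k_xs_42_wQ_26_wN_1_rb80330000_25 := p_xs_42_wQ_26_wN_1_rb80330000_25

theorem g__xs_42_wQ_26_wN_1_rb80330000_24 : GoodKC AS k_xs_42_wQ_26_wN_1_rb80330000_24 := p_xs_42_wQ_26_wN_1_rb80330000_24 g__xs_42_wQ_26_wN_1_rb80330000_25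

theorem g__xs_42_wQ_26_wN_1_rb80330000_21 : GoodKC AS k_xs_42_wQ_26_wN_1_rb80330000_21 := p_xs_42_wQ_26_wN_1_rb80330000_21 g__xs_42_wQ_26_wN_1_rb80330000_22 g__xs_42_wQ_26_wN_1_rb80330000_24

theorem g__xs_42_wQ_26_wN_1_rb80330000_10 : GoodKC AS k_xs_42_wQ_26_wN_1_rb80330000_10 := p_xs_42_wQ_26_wN_1_rb80330000_10 g__xs_42_wQ_26_wN_1_rb80330000_11 g__xs_42_wQ_26_wN_1_rb80330000_21

theorem g__xs_42_wQ_26_wN_1_rb80330000_9 : GoodKC AS k_xs_42_wQ_26_wN_1_rb80330000_9 := p_xs_42_wQ_26_wN_1_rb80330000_9 g__xs_42_wQ_26_wN_1_rb80330000_10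

theorem g__xs_42_wQ_26_wN_1_rb80330000_8 : GoodKC AS k_xs_42_wQ_26_wN_1_rb80330000_8 := p_xs_42_wQ_26_wN_1_rb80330000_8 g__xs_42_wQ_26_wN_1_rb80330000_9

theorem g__xs_42_wQ_26_wN_1_rb80330000_5 : GoodKC AS k_xs_42_wQ_26_wN_1_rb80330000_5 := p_xs_42_wQ_26_wN_1_rb80330000_5 g__xs_42_wQ_26_wN_1_rb80330000_6 g__xs_42_wQ_26_wN_1_rb80330000_8

theorem g__xs_42_wQ_26_wN_1_rb80330000_26 : GoodKC AS k_xs_42_wQ_26_wN_1_rb80330000_26 := p_xs_42_wQ_26_wN_1_rb80330000_26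

theorem g_xs_42_wQ_26_wN_1_rb80330000x2 : GoodKC AS c_xs_42_wQ_26_wN_1_rb80330000x2 := p_xs_42_wQ_26_wN_1_rb80330000 g__xs_42_wQ_26_wN_1_rb80330000_0 g__xs_42_wQ_26_wN_1_rb80330000_5 g__xs_42_wQ_26_wN_1_rb80330000_26

theorem g__wQ_26_wN_1_rb803300v2_0 : GoodKC AS k_wQ_26_wN_1_rb803300v2_0 := p_wQ_26_wN_1_rb803300v2_0 g_xs_42_wQ_26_wN_1_rb80330001x2 g__wQ_26_wN_1_rb803300v2_1 g_xs_42_wQ_26_wN_1_rb80330000x2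

theorem g__xs_42_wQ_26_wN_1_rb80330003_1 : GoodKC AS k_xs_42_wQ_26_wN_1_rb80330003_1 := p_xs_42_wQ_26_wN_1_rb80330003_1

theorem g__xs_42_wQ_26_wN_1_rb80330003_3 : GoodKC AS k_xs_42_wQ_26_wN_1_rb80330003_3 := p_xs_42_wQ_26_wN_1_rb80330003_3

theorem g__xs_42_wQ_26_wN_1_rb80330003_5 : GoodKC AS k_xs_42_wQ_26_wN_1_rb80330003_5 := p_xs_42_wQ_26_wN_1_rb80330003_5

theorem g__xs_42_wQ_26_wN_1_rb80330003_6 : GoodKC AS k_xs_42_wQ_26_wN_1_rb80330003_6 := p_xs_42_wQ_26_wN_1_rb80330003_6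

theorem g__xs_42_wQ_26_wN_1_rb80330003_4 : GoodKC AS k_xs_42_wQ_26_wN_1_rb80330003_4 := p_xs_42_wQ_26_wN_1_rb80330003_4 g__xs_42_wQ_26_wN_1_rb80330003_5 g__xs_42_wQ_26_wN_1_rb80330003_6

theorem g__xs_42_wQ_26_wN_1_rb80330003_2 : GoodKC AS k_xs_42_wQ_26_wN_1_rb80330003_2 := p_xs_42_wQ_26_wN_1_rb80330003_2 g__xs_42_wQ_26_wN_1_rb80330003_3 g__xs_42_wQ_26_wN_1_rb80330003_4

theorem g__xs_42_wQ_26_wN_1_rb80330003_0 : GoodKC AS k_xs_42_wQ_26_wN_1_rb80330003_0 := p_xs_42_wQ_26_wN_1_rb80330003_0 g__xs_42_wQ_26_wN_1_rb80330003_1 g__xs_42_wQ_26_wN_1_rb80330003_2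

theorem g__xs_42_wQ_26_wN_1_rb80330003_7 : GoodKC AS k_xs_42_wQ_26_wN_1_rb80330003_7 := p_xs_42_wQ_26_wN_1_rb80330003_7

theorem g__xs_42_wQ_26_wN_1_rb80330003_8 : GoodKC AS k_xs_42_wQ_26_wN_1_rb80330003_8 := p_xs_42_wQ_26_wN_1_rb80330003_8

theorem g_xs_42_wQ_26_wN_1_rb80330003x2 : GoodKC AS c_xs_42_wQ_26_wN_1_rb80330003x2 := p_xs_42_wQ_26_wN_1_rb80330003 g__xs_42_wQ_26_wN_1_rb80330003_0 g__xs_42_wQ_26_wN_1_rb80330003_7 g__xs_42_wQ_26_wN_1_rb80330003_8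

theorem g_wQ_26_wN_1_rb803300x2 : GoodKC AS c_wQ_26_wN_1_rb803300x2 := p_wQ_26_wN_1_rb803300x2 g_xs_42_wQ_26_wN_1_rb80330002x2 g__wQ_26_wN_1_rb803300v2_0 g_xs_42_wQ_26_wN_1_rb80330003x2

theorem g__wN_1_rb8033x2_1 : GoodKC AS k_wN_1_rb8033x2_1 := p_wN_1_rb8033x2_1

theorem g__wN_1_rb8033x2_4 : GoodKC AS k_wN_1_rb8033x2_4 := p_wN_1_rb8033x2_4

theorem g__wN_1_rb8033x2_5 : GoodKC AS k_wN_1_rb8033x2_5 := p_wN_1_rb8033x2_5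

theorem g__wN_1_rb8033x2_7 : GoodKC AS k_wN_1_rb8033x2_7 := p_wN_1_rb8033x2_7

theorem g__wN_1_rb8033x2_10 : GoodKC AS k_wN_1_rb8033x2_10 := p_wN_1_rb8033x2_10

theorem g__wN_1_rb8033x2_11 : GoodKC AS k_wN_1_rb8033x2_11 := p_wN_1_rb8033x2_11

theorem g__wN_1_rb8033x2_9 : GoodKC AS k_wN_1_rb8033x2_9 := p_wN_1_rb8033x2_9 g__wN_1_rb8033x2_10 g__wN_1_rb8033x2_11

theorem g__wN_1_rb8033x2_8 : GoodKC AS k_wN_1_rb8033x2_8 := p_wN_1_rb8033x2_8 g__wN_1_rb8033x2_9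

theorem g__wN_1_rb8033x2_12 : GoodKC AS k_wN_1_rb8033x2_12 := p_wN_1_rb8033x2_12

theorem g__wN_1_rb8033x2_6 : GoodKC AS k_wN_1_rb8033x2_6 := p_wN_1_rb8033x2_6 g__wN_1_rb8033x2_7 g__wN_1_rb8033x2_8 g__wN_1_rb8033x2_12

theorem g__wN_1_rb8033x2_3 : GoodKC AS k_wN_1_rb8033x2_3 := p_wN_1_rb8033x2_3 g__wN_1_rb8033x2_4 g__wN_1_rb8033x2_5 g__wN_1_rb8033x2_6

theorem g__wN_1_rb8033x2_2 : GoodKC AS k_wN_1_rb8033x2_2 := p_wN_1_rb8033x2_2 g__wN_1_rb8033x2_3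

theorem g__wN_1_rb8033x2_22 : GoodKC AS k_wN_1_rb8033x2_22 := p_wN_1_rb8033x2_22

theorem g__wN_1_rb8033x2_21 : GoodKC AS k_wN_1_rb8033x2_21 := p_wN_1_rb8033x2_21 g__wN_1_rb8033x2_22

theorem g__wN_1_rb8033x2_20 : GoodKC AS k_wN_1_rb8033x2_20 := p_wN_1_rb8033x2_20 g__wN_1_rb8033x2_21

theorem g__wN_1_rb8033x2_19 : GoodKC AS k_wN_1_rb8033x2_19 := p_wN_1_rb8033x2_19 g__wN_1_rb8033x2_20

theorem g__wN_1_rb8033x2_23 : GoodKC AS k_wN_1_rb8033x2_23 := p_wN_1_rb8033x2_23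

theorem g__wN_1_rb8033x2_18 : GoodKC AS k_wN_1_rb8033x2_18 := p_wN_1_rb8033x2_18 g__wN_1_rb8033x2_19 g__wN_1_rb8033x2_23

theorem g__wN_1_rb8033x2_25 : GoodKC AS k_wN_1_rb8033x2_25 := p_wN_1_rb8033x2_25

theorem g__wN_1_rb8033x2_24 : GoodKC AS k_wN_1_rb8033x2_24 := p_wN_1_rb8033x2_24 g__wN_1_rb8033x2_25

theorem g__wN_1_rb8033x2_17 : GoodKC AS k_wN_1_rb8033x2_17 := p_wN_1_rb8033x2_17 g__wN_1_rb8033x2_18 g__wN_1_rb8033x2_24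

theorem g__wN_1_rb8033x2_28 : GoodKC AS k_wN_1_rb8033x2_28 := p_wN_1_rb8033x2_28

theorem g__wN_1_rb8033x2_27 : GoodKC AS k_wN_1_rb8033x2_27 := p_wN_1_rb8033x2_27 g__wN_1_rb8033x2_28

theorem g__wN_1_rb8033x2_26 : GoodKC AS k_wN_1_rb8033x2_26 := p_wN_1_rb8033x2_26 g__wN_1_rb8033x2_27

theorem g__wN_1_rb8033x2_16 : GoodKC AS k_wN_1_rb8033x2_16 := p_wN_1_rb8033x2_16 g__wN_1_rb8033x2_17 g__wN_1_rb8033x2_26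

theorem g__wN_1_rb8033x2_15 : GoodKC AS k_wN_1_rb8033x2_15 := p_wN_1_rb8033x2_15 g__wN_1_rb8033x2_16

theorem g__wN_1_rb8033x2_31 : GoodKC AS k_wN_1_rb8033x2_31 := p_wN_1_rb8033x2_31

theorem g__wN_1_rb8033x2_30 : GoodKC AS k_wN_1_rb8033x2_30 := p_wN_1_rb8033x2_30 g__wN_1_rb8033x2_31

theorem g__wN_1_rb8033x2_33 : GoodKC AS k_wN_1_rb8033x2_33 := p_wN_1_rb8033x2_33

theorem g__wN_1_rb8033x2_32 : GoodKC AS k_wN_1_rb8033x2_32 := p_wN_1_rb8033x2_32 g__wN_1_rb8033x2_33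

theorem g__wN_1_rb8033x2_29 : GoodKC AS k_wN_1_rb8033x2_29 := p_wN_1_rb8033x2_29 g__wN_1_rb8033x2_30 g__wN_1_rb8033x2_32

theorem g__wN_1_rb8033x2_14 : GoodKC AS k_wN_1_rb8033x2_14 := p_wN_1_rb8033x2_14 g__wN_1_rb8033x2_15 g__wN_1_rb8033x2_29

theorem g__wN_1_rb8033x2_37 : GoodKC AS k_wN_1_rb8033x2_37 := p_wN_1_rb8033x2_37

theorem g__wN_1_rb8033x2_36 : GoodKC AS k_wN_1_rb8033x2_36 := p_wN_1_rb8033x2_36 g__wN_1_rb8033x2_37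

theorem g__wN_1_rb8033x2_40 : GoodKC AS k_wN_1_rb8033x2_40 := p_wN_1_rb8033x2_40

theorem g__wN_1_rb8033x2_39 : GoodKC AS k_wN_1_rb8033x2_39 := p_wN_1_rb8033x2_39 g__wN_1_rb8033x2_40

theorem g__wN_1_rb8033x2_38 : GoodKC AS k_wN_1_rb8033x2_38 := p_wN_1_rb8033x2_38 g__wN_1_rb8033x2_39

theorem g__wN_1_rb8033x2_35 : GoodKC AS k_wN_1_rb8033x2_35 := p_wN_1_rb8033x2_35 g__wN_1_rb8033x2_36 g__wN_1_rb8033x2_38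

theorem g__wN_1_rb8033x2_34 : GoodKC AS k_wN_1_rb8033x2_34 := p_wN_1_rb8033x2_34 g__wN_1_rb8033x2_35

theorem g__wN_1_rb8033x2_13 : GoodKC AS k_wN_1_rb8033x2_13 := p_wN_1_rb8033x2_13 g__wN_1_rb8033x2_14 g__wN_1_rb8033x2_34

theorem g__wN_1_rb8033x2_43 : GoodKC AS k_wN_1_rb8033x2_43 := p_wN_1_rb8033x2_43

theorem g__wN_1_rb8033x2_42 : GoodKC AS k_wN_1_rb8033x2_42 := p_wN_1_rb8033x2_42 g__wN_1_rb8033x2_43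

theorem g__wN_1_rb8033x2_41 : GoodKC AS k_wN_1_rb8033x2_41 := p_wN_1_rb8033x2_41 g__wN_1_rb8033x2_42

theorem g__wQ_26_wN_1_rb803301x1_3 : GoodKC AS k_wQ_26_wN_1_rb803301x1_3 := p_wQ_26_wN_1_rb803301x1_3

theorem g__wQ_26_wN_1_rb803301x1_2 : GoodKC AS k_wQ_26_wN_1_rb803301x1_2 := p_wQ_26_wN_1_rb803301x1_2 g__wQ_26_wN_1_rb803301x1_3

theorem g__wQ_26_wN_1_rb803301x1_1 : GoodKC AS k_wQ_26_wN_1_rb803301x1_1 := p_wQ_26_wN_1_rb803301x1_1 g__wQ_26_wN_1_rb803301x1_2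

theorem g__wQ_26_wN_1_rb803301x1_0 : GoodKC AS k_wQ_26_wN_1_rb803301x1_0 := p_wQ_26_wN_1_rb803301x1_0 g__wQ_26_wN_1_rb803301x1_1

theorem g_wQ_26_wN_1_rb803301x2 : GoodKC AS c_wQ_26_wN_1_rb803301x2 := p_wQ_26_wN_1_rb803301x1 g__wQ_26_wN_1_rb803301x1_0

theorem g_wQ_26_wN_1_rb803302x2 : GoodKC AS c_wQ_26_wN_1_rb803302x2 := p_wQ_26_wN_1_rb803302x1

theorem g__wN_1_rb8033x2_0 : GoodKC AS k_wN_1_rb8033x2_0 := p_wN_1_rb8033x2_0 g_wQ_26_wN_1_rb803300x2 g__wN_1_rb8033x2_1 g__wN_1_rb8033x2_2 g__wN_1_rb8033x2_13 g__wN_1_rb8033x2_41 g_wQ_26_wN_1_rb803301x2 g_wQ_26_wN_1_rb803302x2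

theorem g__wQ_26_wN_1_rb80330300_0 : GoodKC AS k_wQ_26_wN_1_rb80330300_0 := p_wQ_26_wN_1_rb80330300_0

theorem g_wQ_26_wN_1_rb80330300x2 : GoodKC AS c_wQ_26_wN_1_rb80330300x2 := p_wQ_26_wN_1_rb80330300 g__wQ_26_wN_1_rb80330300_0

theorem g__wQ_26_wN_1_rb803303x2_4 : GoodKC AS k_wQ_26_wN_1_rb803303x2_4 := p_wQ_26_wN_1_rb803303x2_4

theorem g__wQ_26_wN_1_rb803303x2_3 : GoodKC AS k_wQ_26_wN_1_rb803303x2_3 := p_wQ_26_wN_1_rb803303x2_3 g__wQ_26_wN_1_rb803303x2_4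

theorem g__wQ_26_wN_1_rb803303x2_6 : GoodKC AS k_wQ_26_wN_1_rb803303x2_6 := p_wQ_26_wN_1_rb803303x2_6

theorem g__wQ_26_wN_1_rb803303x2_5 : GoodKC AS k_wQ_26_wN_1_rb803303x2_5 := p_wQ_26_wN_1_rb803303x2_5 g__wQ_26_wN_1_rb803303x2_6

theorem g__wQ_26_wN_1_rb803303x2_8 : GoodKC AS k_wQ_26_wN_1_rb803303x2_8 := p_wQ_26_wN_1_rb803303x2_8

theorem g__wQ_26_wN_1_rb803303x2_7 : GoodKC AS k_wQ_26_wN_1_rb803303x2_7 := p_wQ_26_wN_1_rb803303x2_7 g__wQ_26_wN_1_rb803303x2_8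

theorem g__wQ_26_wN_1_rb803303x2_2 : GoodKC AS k_wQ_26_wN_1_rb803303x2_2 := p_wQ_26_wN_1_rb803303x2_2 g__wQ_26_wN_1_rb803303x2_3 g__wQ_26_wN_1_rb803303x2_5 g__wQ_26_wN_1_rb803303x2_7

theorem g__wQ_26_wN_1_rb803303x2_1 : GoodKC AS k_wQ_26_wN_1_rb803303x2_1 := p_wQ_26_wN_1_rb803303x2_1 g__wQ_26_wN_1_rb803303x2_2

theorem g__wQ_26_wN_1_rb803303x2_10 : GoodKC AS k_wQ_26_wN_1_rb803303x2_10 := p_wQ_26_wN_1_rb803303x2_10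

theorem g__wQ_26_wN_1_rb803303x2_12 : GoodKC AS k_wQ_26_wN_1_rb803303x2_12 := p_wQ_26_wN_1_rb803303x2_12

theorem g__wQ_26_wN_1_rb803303x2_11 : GoodKC AS k_wQ_26_wN_1_rb803303x2_11 := p_wQ_26_wN_1_rb803303x2_11 g__wQ_26_wN_1_rb803303x2_12

theorem g__wQ_26_wN_1_rb803303x2_13 : GoodKC AS k_wQ_26_wN_1_rb803303x2_13 := p_wQ_26_wN_1_rb803303x2_13

theorem g__wQ_26_wN_1_rb803303x2_16 : GoodKC AS k_wQ_26_wN_1_rb803303x2_16 := p_wQ_26_wN_1_rb803303x2_16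

theorem g__wQ_26_wN_1_rb803303x2_21 : GoodKC AS k_wQ_26_wN_1_rb803303x2_21 := p_wQ_26_wN_1_rb803303x2_21

theorem g__wQ_26_wN_1_rb803303x2_20 : GoodKC AS k_wQ_26_wN_1_rb803303x2_20 := p_wQ_26_wN_1_rb803303x2_20 g__wQ_26_wN_1_rb803303x2_21

theorem g__wQ_26_wN_1_rb803303x2_19 : GoodKC AS k_wQ_26_wN_1_rb803303x2_19 := p_wQ_26_wN_1_rb803303x2_19 g__wQ_26_wN_1_rb803303x2_20

theorem g__wQ_26_wN_1_rb803303x2_18 : GoodKC AS k_wQ_26_wN_1_rb803303x2_18 := p_wQ_26_wN_1_rb803303x2_18 g__wQ_26_wN_1_rb803303x2_19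

theorem g__wQ_26_wN_1_rb803303x2_17 : GoodKC AS k_wQ_26_wN_1_rb803303x2_17 := p_wQ_26_wN_1_rb803303x2_17 g__wQ_26_wN_1_rb803303x2_18

theorem g__wQ_26_wN_1_rb803303x2_22 : GoodKC AS k_wQ_26_wN_1_rb803303x2_22 := p_wQ_26_wN_1_rb803303x2_22

theorem g__wQ_26_wN_1_rb803303x2_15 : GoodKC AS k_wQ_26_wN_1_rb803303x2_15 := p_wQ_26_wN_1_rb803303x2_15 g__wQ_26_wN_1_rb803303x2_16 g__wQ_26_wN_1_rb803303x2_17 g__wQ_26_wN_1_rb803303x2_22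

theorem g__wQ_26_wN_1_rb803303x2_23 : GoodKC AS k_wQ_26_wN_1_rb803303x2_23 := p_wQ_26_wN_1_rb803303x2_23

theorem g__wQ_26_wN_1_rb803303x2_24 : GoodKC AS k_wQ_26_wN_1_rb803303x2_24 := p_wQ_26_wN_1_rb803303x2_24

theorem g__wQ_26_wN_1_rb803303x2_14 : GoodKC AS k_wQ_26_wN_1_rb803303x2_14 := p_wQ_26_wN_1_rb803303x2_14 g__wQ_26_wN_1_rb803303x2_15 g__wQ_26_wN_1_rb803303x2_23 g__wQ_26_wN_1_rb803303x2_24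

theorem g__wQ_26_wN_1_rb803303x2_9 : GoodKC AS k_wQ_26_wN_1_rb803303x2_9 := p_wQ_26_wN_1_rb803303x2_9 g__wQ_26_wN_1_rb803303x2_10 g__wQ_26_wN_1_rb803303x2_11 g__wQ_26_wN_1_rb803303x2_13 g__wQ_26_wN_1_rb803303x2_14

theorem g__wQ_26_wN_1_rb803303x2_25 : GoodKC AS k_wQ_26_wN_1_rb803303x2_25 := p_wQ_26_wN_1_rb803303x2_25

theorem g__wQ_26_wN_1_rb803303x2_27 : GoodKC AS k_wQ_26_wN_1_rb803303x2_27 := p_wQ_26_wN_1_rb803303x2_27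

theorem g__wQ_26_wN_1_rb803303x2_26 : GoodKC AS k_wQ_26_wN_1_rb803303x2_26 := p_wQ_26_wN_1_rb803303x2_26 g__wQ_26_wN_1_rb803303x2_27

theorem g__wQ_26_wN_1_rb803303x2_0 : GoodKC AS k_wQ_26_wN_1_rb803303x2_0 := p_wQ_26_wN_1_rb803303x2_0 g_wQ_26_wN_1_rb80330300x2 g__wQ_26_wN_1_rb803303x2_1 g__wQ_26_wN_1_rb803303x2_9 g__wQ_26_wN_1_rb803303x2_25 g__wQ_26_wN_1_rb803303x2_26

theorem g_wQ_26_wN_1_rb803303x2 : GoodKC AS c_wQ_26_wN_1_rb803303x2 := p_wQ_26_wN_1_rb803303x2 g__wQ_26_wN_1_rb803303x2_0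

theorem g_wS_32_wQ_26_wN_1_rb80330621x17 : GoodKC AS c_wS_32_wQ_26_wN_1_rb80330621x17 := p_wS_32_wQ_26_wN_1_rb80330621x7

theorem g_wS_32_wQ_26_wN_1_rb8033061fx17 : GoodKC AS c_wS_32_wQ_26_wN_1_rb8033061fx17 := p_wS_32_wQ_26_wN_1_rb8033061fx7

theorem g_wS_32_wQ_26_wN_1_rb8033061e28x8 : GoodKC AS c_wS_32_wQ_26_wN_1_rb8033061e28x8 := p_wS_32_wQ_26_wN_1_rb8033061e28x6

theorem g_wS_32_wQ_26_wN_1_rb8033061e27x8 : GoodKC AS c_wS_32_wQ_26_wN_1_rb8033061e27x8 := p_wS_32_wQ_26_wN_1_rb8033061e27x6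

theorem g_wS_32_wQ_26_wN_1_rb8033061e25x8 : GoodKC AS c_wS_32_wQ_26_wN_1_rb8033061e25x8 := p_wS_32_wQ_26_wN_1_rb8033061e25x6

theorem g__wS_32_wQ_26_wN_1_rb8033061e24_d42_d25_d51_d33x1_0 : GoodKC AS k_wS_32_wQ_26_wN_1_rb8033061e24_d42_d25_d51_d33x1_0 := p_wS_32_wQ_26_wN_1_rb8033061e24_d42_d25_d51_d33x1_0

theorem g__wS_32_wQ_26_wN_1_rb8033061e24_d42_d25_d51_d33x1_1 : GoodKC AS k_wS_32_wQ_26_wN_1_rb8033061e24_d42_d25_d51_d33x1_1 := p_wS_32_wQ_26_wN_1_rb8033061e24_d42_d25_d51_d33x1_1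

theorem g_wS_32_wQ_26_wN_1_rb8033061e24_d42_d25_d51_d33x2 : GoodKC AS c_wS_32_wQ_26_wN_1_rb8033061e24_d42_d25_d51_d33x2 := p_wS_32_wQ_26_wN_1_rb8033061e24_d42_d25_d51_d33x1 g__wS_32_wQ_26_wN_1_rb8033061e24_d42_d25_d51_d33x1_0 g__wS_32_wQ_26_wN_1_rb8033061e24_d42_d25_d51_d33x1_1

theorem g_wS_32_wQ_26_wN_1_rb8033061e24_d42_d25_d51_d31x2 : GoodKC AS c_wS_32_wQ_26_wN_1_rb8033061e24_d42_d25_d51_d31x2 := p_wS_32_wQ_26_wN_1_rb8033061e24_d42_d25_d51_d31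

theorem g_wS_32_wQ_26_wN_1_rb8033061e24_d42_d25_d51_d300a : GoodKC AS c_wS_32_wQ_26_wN_1_rb8033061e24_d42_d25_d51_d300a := p_wS_32_wQ_26_wN_1_rb8033061e24_d42_d25_d51_d300a

theorem g_wS_32_wQ_26_wN_1_rb8033061e24_d42_d25_d51_d3009 : GoodKC AS c_wS_32_wQ_26_wN_1_rb8033061e24_d42_d25_d51_d3009 := p_wS_32_wQ_26_wN_1_rb8033061e24_d42_d25_d51_d3009

theorem g__wS_32_wQ_26_wN_1_rb8033061e24_d42_d25_d51_d30_1 : GoodKC AS k_wS_32_wQ_26_wN_1_rb8033061e24_d42_d25_d51_d30_1 := p_wS_32_wQ_26_wN_1_rb8033061e24_d42_d25_d51_d30_1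

theorem g__wS_32_wQ_26_wN_1_rb8033061e24_d42_d25_d51_d30_3 : GoodKC AS k_wS_32_wQ_26_wN_1_rb8033061e24_d42_d25_d51_d30_3 := p_wS_32_wQ_26_wN_1_rb8033061e24_d42_d25_d51_d30_3

theorem g__wS_32_wQ_26_wN_1_rb8033061e24_d42_d25_d51_d30_2 : GoodKC AS k_wS_32_wQ_26_wN_1_rb8033061e24_d42_d25_d51_d30_2 := p_wS_32_wQ_26_wN_1_rb8033061e24_d42_d25_d51_d30_2 g__wS_32_wQ_26_wN_1_rb8033061e24_d42_d25_d51_d30_3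

theorem g__wS_32_wQ_26_wN_1_rb8033061e24_d42_d25_d51_d30_5 : GoodKC AS k_wS_32_wQ_26_wN_1_rb8033061e24_d42_d25_d51_d30_5 := p_wS_32_wQ_26_wN_1_rb8033061e24_d42_d25_d51_d30_5

theorem g__wS_32_wQ_26_wN_1_rb8033061e24_d42_d25_d51_d30_4 : GoodKC AS k_wS_32_wQ_26_wN_1_rb8033061e24_d42_d25_d51_d30_4 := p_wS_32_wQ_26_wN_1_rb8033061e24_d42_d25_d51_d30_4 g__wS_32_wQ_26_wN_1_rb8033061e24_d42_d25_d51_d30_5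

theorem g__wS_32_wQ_26_wN_1_rb8033061e24_d42_d25_d51_d30_7 : GoodKC AS k_wS_32_wQ_26_wN_1_rb8033061e24_d42_d25_d51_d30_7 := p_wS_32_wQ_26_wN_1_rb8033061e24_d42_d25_d51_d30_7

theorem g__wS_32_wQ_26_wN_1_rb8033061e24_d42_d25_d51_d30_6 : GoodKC AS k_wS_32_wQ_26_wN_1_rb8033061e24_d42_d25_d51_d30_6 := p_wS_32_wQ_26_wN_1_rb8033061e24_d42_d25_d51_d30_6 g__wS_32_wQ_26_wN_1_rb8033061e24_d42_d25_d51_d30_7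

theorem g__wS_32_wQ_26_wN_1_rb8033061e24_d42_d25_d51_d30_12 : GoodKC AS k_wS_32_wQ_26_wN_1_rb8033061e24_d42_d25_d51_d30_12 := p_wS_32_wQ_26_wN_1_rb8033061e24_d42_d25_d51_d30_12

theorem g__wS_32_wQ_26_wN_1_rb8033061e24_d42_d25_d51_d30_11 : GoodKC AS k_wS_32_wQ_26_wN_1_rb8033061e24_d42_d25_d51_d30_11 := p_wS_32_wQ_26_wN_1_rb8033061e24_d42_d25_d51_d30_11 g__wS_32_wQ_26_wN_1_rb8033061e24_d42_d25_d51_d30_12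

theorem g__wS_32_wQ_26_wN_1_rb8033061e24_d42_d25_d51_d30_13 : GoodKC AS k_wS_32_wQ_26_wN_1_rb8033061e24_d42_d25_d51_d30_13 := p_wS_32_wQ_26_wN_1_rb8033061e24_d42_d25_d51_d30_13

theorem g__wS_32_wQ_26_wN_1_rb8033061e24_d42_d25_d51_d30_10 : GoodKC AS k_wS_32_wQ_26_wN_1_rb8033061e24_d42_d25_d51_d30_10 := p_wS_32_wQ_26_wN_1_rb8033061e24_d42_d25_d51_d30_10 g__wS_32_wQ_26_wN_1_rb8033061e24_d42_d25_d51_d30_11 g__wS_32_wQ_26_wN_1_rb8033061e24_d42_d25_d51_d30_13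

theorem g__wS_32_wQ_26_wN_1_rb8033061e24_d42_d25_d51_d30_9 : GoodKC AS k_wS_32_wQ_26_wN_1_rb8033061e24_d42_d25_d51_d30_9 := p_wS_32_wQ_26_wN_1_rb8033061e24_d42_d25_d51_d30_9 g__wS_32_wQ_26_wN_1_rb8033061e24_d42_d25_d51_d30_10

theorem g__wS_32_wQ_26_wN_1_rb8033061e24_d42_d25_d51_d30_20 : GoodKC AS k_wS_32_wQ_26_wN_1_rb8033061e24_d42_d25_d51_d30_20 := p_wS_32_wQ_26_wN_1_rb8033061e24_d42_d25_d51_d30_20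

theorem g__wS_32_wQ_26_wN_1_rb8033061e24_d42_d25_d51_d30_19 : GoodKC AS k_wS_32_wQ_26_wN_1_rb8033061e24_d42_d25_d51_d30_19 := p_wS_32_wQ_26_wN_1_rb8033061e24_d42_d25_d51_d30_19 g__wS_32_wQ_26_wN_1_rb8033061e24_d42_d25_d51_d30_20

theorem g__wS_32_wQ_26_wN_1_rb8033061e24_d42_d25_d51_d30_18 : GoodKC AS k_wS_32_wQ_26_wN_1_rb8033061e24_d42_d25_d51_d30_18 := p_wS_32_wQ_26_wN_1_rb8033061e24_d42_d25_d51_d30_18 g__wS_32_wQ_26_wN_1_rb8033061e24_d42_d25_d51_d30_19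

theorem g__wS_32_wQ_26_wN_1_rb8033061e24_d42_d25_d51_d30_17 : GoodKC AS k_wS_32_wQ_26_wN_1_rb8033061e24_d42_d25_d51_d30_17 := p_wS_32_wQ_26_wN_1_rb8033061e24_d42_d25_d51_d30_17 g__wS_32_wQ_26_wN_1_rb8033061e24_d42_d25_d51_d30_18

theorem g__wS_32_wQ_26_wN_1_rb8033061e24_d42_d25_d51_d30_16 : GoodKC AS k_wS_32_wQ_26_wN_1_rb8033061e24_d42_d25_d51_d30_16 := p_wS_32_wQ_26_wN_1_rb8033061e24_d42_d25_d51_d30_16 g__wS_32_wQ_26_wN_1_rb8033061e24_d42_d25_d51_d30_17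

theorem g__wS_32_wQ_26_wN_1_rb8033061e24_d42_d25_d51_d30_22 : GoodKC AS k_wS_32_wQ_26_wN_1_rb8033061e24_d42_d25_d51_d30_22 := p_wS_32_wQ_26_wN_1_rb8033061e24_d42_d25_d51_d30_22

theorem g__wS_32_wQ_26_wN_1_rb8033061e24_d42_d25_d51_d30_21 : GoodKC AS k_wS_32_wQ_26_wN_1_rb8033061e24_d42_d25_d51_d30_21 := p_wS_32_wQ_26_wN_1_rb8033061e24_d42_d25_d51_d30_21 g__wS_32_wQ_26_wN_1_rb8033061e24_d42_d25_d51_d30_22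

theorem g__wS_32_wQ_26_wN_1_rb8033061e24_d42_d25_d51_d30_23 : GoodKC AS k_wS_32_wQ_26_wN_1_rb8033061e24_d42_d25_d51_d30_23 := p_wS_32_wQ_26_wN_1_rb8033061e24_d42_d25_d51_d30_23

theorem g__wS_32_wQ_26_wN_1_rb8033061e24_d42_d25_d51_d30_28 : GoodKC AS k_wS_32_wQ_26_wN_1_rb8033061e24_d42_d25_d51_d30_28 := p_wS_32_wQ_26_wN_1_rb8033061e24_d42_d25_d51_d30_28

theorem g__wS_32_wQ_26_wN_1_rb8033061e24_d42_d25_d51_d30_27 : GoodKC AS k_wS_32_wQ_26_wN_1_rb8033061e24_d42_d25_d51_d30_27 := p_wS_32_wQ_26_wN_1_rb8033061e24_d42_d25_d51_d30_27 g__wS_32_wQ_26_wN_1_rb8033061e24_d42_d25_d51_d30_28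

theorem g__wS_32_wQ_26_wN_1_rb8033061e24_d42_d25_d51_d30_26 : GoodKC AS k_wS_32_wQ_26_wN_1_rb8033061e24_d42_d25_d51_d30_26 := p_wS_32_wQ_26_wN_1_rb8033061e24_d42_d25_d51_d30_26 g__wS_32_wQ_26_wN_1_rb8033061e24_d42_d25_d51_d30_27

theorem g__wS_32_wQ_26_wN_1_rb8033061e24_d42_d25_d51_d30_25 : GoodKC AS k_wS_32_wQ_26_wN_1_rb8033061e24_d42_d25_d51_d30_25 := p_wS_32_wQ_26_wN_1_rb8033061e24_d42_d25_d51_d30_25 g__wS_32_wQ_26_wN_1_rb8033061e24_d42_d25_d51_d30_26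

theorem g__wS_32_wQ_26_wN_1_rb8033061e24_d42_d25_d51_d30_24 : GoodKC AS k_wS_32_wQ_26_wN_1_rb8033061e24_d42_d25_d51_d30_24 := p_wS_32_wQ_26_wN_1_rb8033061e24_d42_d25_d51_d30_24 g__wS_32_wQ_26_wN_1_rb8033061e24_d42_d25_d51_d30_25

theorem g__wS_32_wQ_26_wN_1_rb8033061e24_d42_d25_d51_d30_15 : GoodKC AS k_wS_32_wQ_26_wN_1_rb8033061e24_d42_d25_d51_d30_15 := p_wS_32_wQ_26_wN_1_rb8033061e24_d42_d25_d51_d30_15 g__wS_32_wQ_26_wN_1_rb8033061e24_d42_d25_d51_d30_16 g__wS_32_wQ_26_wN_1_rb8033061e24_d42_d25_d51_d30_21 g__wS_32_wQ_26_wN_1_rb8033061e24_d42_d25_d51_d30_23 g__wS_32_wQ_26_wN_1_rb8033061e24_d42_d25_d51_d30_24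

theorem g__wS_32_wQ_26_wN_1_rb8033061e24_d42_d25_d51_d30_31 : GoodKC AS k_wS_32_wQ_26_wN_1_rb8033061e24_d42_d25_d51_d30_31 := p_wS_32_wQ_26_wN_1_rb8033061e24_d42_d25_d51_d30_31

theorem g__wS_32_wQ_26_wN_1_rb8033061e24_d42_d25_d51_d30_30 : GoodKC AS k_wS_32_wQ_26_wN_1_rb8033061e24_d42_d25_d51_d30_30 := p_wS_32_wQ_26_wN_1_rb8033061e24_d42_d25_d51_d30_30 g__wS_32_wQ_26_wN_1_rb8033061e24_d42_d25_d51_d30_31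

theorem g__wS_32_wQ_26_wN_1_rb8033061e24_d42_d25_d51_d30_33 : GoodKC AS k_wS_32_wQ_26_wN_1_rb8033061e24_d42_d25_d51_d30_33 := p_wS_32_wQ_26_wN_1_rb8033061e24_d42_d25_d51_d30_33

theorem g__wS_32_wQ_26_wN_1_rb8033061e24_d42_d25_d51_d30_34 : GoodKC AS k_wS_32_wQ_26_wN_1_rb8033061e24_d42_d25_d51_d30_34 := p_wS_32_wQ_26_wN_1_rb8033061e24_d42_d25_d51_d30_34

theorem g__wS_32_wQ_26_wN_1_rb8033061e24_d42_d25_d51_d30_32 : GoodKC AS k_wS_32_wQ_26_wN_1_rb8033061e24_d42_d25_d51_d30_32 := p_wS_32_wQ_26_wN_1_rb8033061e24_d42_d25_d51_d30_32 g__wS_32_wQ_26_wN_1_rb8033061e24_d42_d25_d51_d30_33 g__wS_32_wQ_26_wN_1_rb8033061e24_d42_d25_d51_d30_34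

theorem g__wS_32_wQ_26_wN_1_rb8033061e24_d42_d25_d51_d30_29 : GoodKC AS k_wS_32_wQ_26_wN_1_rb8033061e24_d42_d25_d51_d30_29 := p_wS_32_wQ_26_wN_1_rb8033061e24_d42_d25_d51_d30_29 g__wS_32_wQ_26_wN_1_rb8033061e24_d42_d25_d51_d30_30 g__wS_32_wQ_26_wN_1_rb8033061e24_d42_d25_d51_d30_32

theorem g__wS_32_wQ_26_wN_1_rb8033061e24_d42_d25_d51_d30_14 : GoodKC AS k_wS_32_wQ_26_wN_1_rb8033061e24_d42_d25_d51_d30_14 := p_wS_32_wQ_26_wN_1_rb8033061e24_d42_d25_d51_d30_14 g__wS_32_wQ_26_wN_1_rb8033061e24_d42_d25_d51_d30_15 g__wS_32_wQ_26_wN_1_rb8033061e24_d42_d25_d51_d30_29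

theorem g__wS_32_wQ_26_wN_1_rb8033061e24_d42_d25_d51_d30_37 : GoodKC AS k_wS_32_wQ_26_wN_1_rb8033061e24_d42_d25_d51_d30_37 := p_wS_32_wQ_26_wN_1_rb8033061e24_d42_d25_d51_d30_37

theorem g__wS_32_wQ_26_wN_1_rb8033061e24_d42_d25_d51_d30_36 : GoodKC AS k_wS_32_wQ_26_wN_1_rb8033061e24_d42_d25_d51_d30_36 := p_wS_32_wQ_26_wN_1_rb8033061e24_d42_d25_d51_d30_36 g__wS_32_wQ_26_wN_1_rb8033061e24_d42_d25_d51_d30_37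

theorem g__wS_32_wQ_26_wN_1_rb8033061e24_d42_d25_d51_d30_35 : GoodKC AS k_wS_32_wQ_26_wN_1_rb8033061e24_d42_d25_d51_d30_35 := p_wS_32_wQ_26_wN_1_rb8033061e24_d42_d25_d51_d30_35 g__wS_32_wQ_26_wN_1_rb8033061e24_d42_d25_d51_d30_36

theorem g__wS_32_wQ_26_wN_1_rb8033061e24_d42_d25_d51_d30_42 : GoodKC AS k_wS_32_wQ_26_wN_1_rb8033061e24_d42_d25_d51_d30_42 := p_wS_32_wQ_26_wN_1_rb8033061e24_d42_d25_d51_d30_42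

theorem g__wS_32_wQ_26_wN_1_rb8033061e24_d42_d25_d51_d30_43 : GoodKC AS k_wS_32_wQ_26_wN_1_rb8033061e24_d42_d25_d51_d30_43 := p_wS_32_wQ_26_wN_1_rb8033061e24_d42_d25_d51_d30_43

theorem g__wS_32_wQ_26_wN_1_rb8033061e24_d42_d25_d51_d30_41 : GoodKC AS k_wS_32_wQ_26_wN_1_rb8033061e24_d42_d25_d51_d30_41 := p_wS_32_wQ_26_wN_1_rb8033061e24_d42_d25_d51_d30_41 g__wS_32_wQ_26_wN_1_rb8033061e24_d42_d25_d51_d30_42 g__wS_32_wQ_26_wN_1_rb8033061e24_d42_d25_d51_d30_43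

theorem g__wS_32_wQ_26_wN_1_rb8033061e24_d42_d25_d51_d30_44 : GoodKC AS k_wS_32_wQ_26_wN_1_rb8033061e24_d42_d25_d51_d30_44 := p_wS_32_wQ_26_wN_1_rb8033061e24_d42_d25_d51_d30_44

theorem g__wS_32_wQ_26_wN_1_rb8033061e24_d42_d25_d51_d30_40 : GoodKC AS k_wS_32_wQ_26_wN_1_rb8033061e24_d42_d25_d51_d30_40 := p_wS_32_wQ_26_wN_1_rb8033061e24_d42_d25_d51_d30_40 g__wS_32_wQ_26_wN_1_rb8033061e24_d42_d25_d51_d30_41 g__wS_32_wQ_26_wN_1_rb8033061e24_d42_d25_d51_d30_44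

theorem g__wS_32_wQ_26_wN_1_rb8033061e24_d42_d25_d51_d30_39 : GoodKC AS k_wS_32_wQ_26_wN_1_rb8033061e24_d42_d25_d51_d30_39 := p_wS_32_wQ_26_wN_1_rb8033061e24_d42_d25_d51_d30_39 g__wS_32_wQ_26_wN_1_rb8033061e24_d42_d25_d51_d30_40

theorem g__wS_32_wQ_26_wN_1_rb8033061e24_d42_d25_d51_d30_38 : GoodKC AS k_wS_32_wQ_26_wN_1_rb8033061e24_d42_d25_d51_d30_38 := p_wS_32_wQ_26_wN_1_rb8033061e24_d42_d25_d51_d30_38 g__wS_32_wQ_26_wN_1_rb8033061e24_d42_d25_d51_d30_39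

theorem g__wS_32_wQ_26_wN_1_rb8033061e24_d42_d25_d51_d30_8 : GoodKC AS k_wS_32_wQ_26_wN_1_rb8033061e24_d42_d25_d51_d30_8 := p_wS_32_wQ_26_wN_1_rb8033061e24_d42_d25_d51_d30_8 g__wS_32_wQ_26_wN_1_rb8033061e24_d42_d25_d51_d30_9 g__wS_32_wQ_26_wN_1_rb8033061e24_d42_d25_d51_d30_14 g__wS_32_wQ_26_wN_1_rb8033061e24_d42_d25_d51_d30_35 g__wS_32_wQ_26_wN_1_rb8033061e24_d42_d25_d51_d30_38

theorem g__wS_32_wQ_26_wN_1_rb8033061e24_d42_d25_d51_d30_0 : GoodKC AS k_wS_32_wQ_26_wN_1_rb8033061e24_d42_d25_d51_d30_0 := p_wS_32_wQ_26_wN_1_rb8033061e24_d42_d25_d51_d30_0 g__wS_32_wQ_26_wN_1_rb8033061e24_d42_d25_d51_d30_1 g__wS_32_wQ_26_wN_1_rb8033061e24_d42_d25_d51_d30_2 g__wS_32_wQ_26_wN_1_rb8033061e24_d42_d25_d51_d30_4 g__wS_32_wQ_26_wN_1_rb8033061e24_d42_d25_d51_d30_6 g__wS_32_wQ_26_wN_1_rb8033061e24_d42_d25_d51_d30_8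

theorem g__wS_32_wQ_26_wN_1_rb8033061e24_d42_d25_d51_d30_46 : GoodKC AS k_wS_32_wQ_26_wN_1_rb8033061e24_d42_d25_d51_d30_46 := p_wS_32_wQ_26_wN_1_rb8033061e24_d42_d25_d51_d30_46

theorem g__wS_32_wQ_26_wN_1_rb8033061e24_d42_d25_d51_d30_47 : GoodKC AS k_wS_32_wQ_26_wN_1_rb8033061e24_d42_d25_d51_d30_47 := p_wS_32_wQ_26_wN_1_rb8033061e24_d42_d25_d51_d30_47

theorem g__wS_32_wQ_26_wN_1_rb8033061e24_d42_d25_d51_d30_45 : GoodKC AS k_wS_32_wQ_26_wN_1_rb8033061e24_d42_d25_d51_d30_45 := p_wS_32_wQ_26_wN_1_rb8033061e24_d42_d25_d51_d30_45 g__wS_32_wQ_26_wN_1_rb8033061e24_d42_d25_d51_d30_46 g__wS_32_wQ_26_wN_1_rb8033061e24_d42_d25_d51_d30_47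

theorem g_wS_32_wQ_26_wN_1_rb8033061e24_d42_d25_d51_d3008 : GoodKC AS c_wS_32_wQ_26_wN_1_rb8033061e24_d42_d25_d51_d3008 := p_wS_32_wQ_26_wN_1_rb8033061e24_d42_d25_d51_d3008

theorem g_wS_32_wQ_26_wN_1_rb8033061e24_d42_d25_d51_d3007 : GoodKC AS c_wS_32_wQ_26_wN_1_rb8033061e24_d42_d25_d51_d3007 := p_wS_32_wQ_26_wN_1_rb8033061e24_d42_d25_d51_d3007

theorem g_wS_32_wQ_26_wN_1_rb8033061e24_d42_d25_d51_d3004 : GoodKC AS c_wS_32_wQ_26_wN_1_rb8033061e24_d42_d25_d51_d3004 := p_wS_32_wQ_26_wN_1_rb8033061e24_d42_d25_d51_d3004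

theorem g_wS_32_wQ_26_wN_1_rb8033061e24_d42_d25_d51_d3003 : GoodKC AS c_wS_32_wQ_26_wN_1_rb8033061e24_d42_d25_d51_d3003 := p_wS_32_wQ_26_wN_1_rb8033061e24_d42_d25_d51_d3003

theorem g_wS_32_wQ_26_wN_1_rb8033061e24_d42_d25_d51_d3000 : GoodKC AS c_wS_32_wQ_26_wN_1_rb8033061e24_d42_d25_d51_d3000 := p_wS_32_wQ_26_wN_1_rb8033061e24_d42_d25_d51_d3000

theorem g_wS_32_wQ_26_wN_1_rb8033061e24_d42_d25_d51_d3001 : GoodKC AS c_wS_32_wQ_26_wN_1_rb8033061e24_d42_d25_d51_d3001 := p_wS_32_wQ_26_wN_1_rb8033061e24_d42_d25_d51_d3001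

theorem g_wS_32_wQ_26_wN_1_rb8033061e24_d42_d25_d51_d3002 : GoodKC AS c_wS_32_wQ_26_wN_1_rb8033061e24_d42_d25_d51_d3002 := p_wS_32_wQ_26_wN_1_rb8033061e24_d42_d25_d51_d3002

theorem g_wS_32_wQ_26_wN_1_rb8033061e24_d42_d25_d51_d3005 : GoodKC AS c_wS_32_wQ_26_wN_1_rb8033061e24_d42_d25_d51_d3005 := p_wS_32_wQ_26_wN_1_rb8033061e24_d42_d25_d51_d3005

theorem g_wS_32_wQ_26_wN_1_rb8033061e24_d42_d25_d51_d3006 : GoodKC AS c_wS_32_wQ_26_wN_1_rb8033061e24_d42_d25_d51_d3006 := p_wS_32_wQ_26_wN_1_rb8033061e24_d42_d25_d51_d3006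

theorem g_wS_32_wQ_26_wN_1_rb8033061e24_d42_d25_d51_d30x2 : GoodKC AS c_wS_32_wQ_26_wN_1_rb8033061e24_d42_d25_d51_d30x2 := p_wS_32_wQ_26_wN_1_rb8033061e24_d42_d25_d51_d30 g_wS_32_wQ_26_wN_1_rb8033061e24_d42_d25_d51_d300a g_wS_32_wQ_26_wN_1_rb8033061e24_d42_d25_d51_d3009 g__wS_32_wQ_26_wN_1_rb8033061e24_d42_d25_d51_d30_0 g__wS_32_wQ_26_wN_1_rb8033061e24_d42_d25_d51_d30_45 g_wS_32_wQ_26_wN_1_rb8033061e24_d42_d25_d51_d3008 g_wS_32_wQ_26_wN_1_rb8033061e24_d42_d25_d51_d3007 g_wS_32_wQ_26_wN_1_rb8033061e24_d42_d25_d51_d3004 g_wS_32_wQ_26_wN_1_rb8033061e24_d42_d25_d51_d3003 g_wS_32_wQ_26_wN_1_rb8033061e24_d42_d25_d51_d3000 g_wS_32_wQ_26_wN_1_rb8033061e24_d42_d25_d51_d3001 g_wS_32_wQ_26_wN_1_rb8033061e24_d42_d25_d51_d3002 g_wS_32_wQ_26_wN_1_rb8033061e24_d42_d25_d51_d3005 g_wS_32_wQ_26_wN_1_rb8033061e24_d42_d25_d51_d3006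

theorem g_wS_32_wQ_26_wN_1_rb8033061e24_d42_d25_d51_d2f_d51_d13x1 : GoodKC AS c_wS_32_wQ_26_wN_1_rb8033061e24_d42_d25_d51_d2f_d51_d13x1 := p_wS_32_wQ_26_wN_1_rb8033061e24_d42_d25_d51_d2f_d51_d13

theorem g_wS_32_wQ_26_wN_1_rb8033061e24_d42_d25_d51_d2f_d51_d11x1 : GoodKC AS c_wS_32_wQ_26_wN_1_rb8033061e24_d42_d25_d51_d2f_d51_d11x1 := p_wS_32_wQ_26_wN_1_rb8033061e24_d42_d25_d51_d2f_d51_d11

theorem g_wS_32_wQ_26_wN_1_rb8033061e24_d42_d25_d51_d2f_d51_d10x1 : GoodKC AS c_wS_32_wQ_26_wN_1_rb8033061e24_d42_d25_d51_d2f_d51_d10x1 := p_wS_32_wQ_26_wN_1_rb8033061e24_d42_d25_d51_d2f_d51_d10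

theorem g__wS_32_wQ_26_wN_1_rb8033061e24_d42_d25_d51_d2f_d51_d0e_2 : GoodKC AS k_wS_32_wQ_26_wN_1_rb8033061e24_d42_d25_d51_d2f_d51_d0e_2 := p_wS_32_wQ_26_wN_1_rb8033061e24_d42_d25_d51_d2f_d51_d0e_2

theorem g__wS_32_wQ_26_wN_1_rb8033061e24_d42_d25_d51_d2f_d51_d0e_4 : GoodKC AS k_wS_32_wQ_26_wN_1_rb8033061e24_d42_d25_d51_d2f_d51_d0e_4 := p_wS_32_wQ_26_wN_1_rb8033061e24_d42_d25_d51_d2f_d51_d0e_4

theorem g__wS_32_wQ_26_wN_1_rb8033061e24_d42_d25_d51_d2f_d51_d0e_3 : GoodKC AS k_wS_32_wQ_26_wN_1_rb8033061e24_d42_d25_d51_d2f_d51_d0e_3 := p_wS_32_wQ_26_wN_1_rb8033061e24_d42_d25_d51_d2f_d51_d0e_3 g__wS_32_wQ_26_wN_1_rb8033061e24_d42_d25_d51_d2f_d51_d0e_4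

theorem g__wS_32_wQ_26_wN_1_rb8033061e24_d42_d25_d51_d2f_d51_d0e_1 : GoodKC AS k_wS_32_wQ_26_wN_1_rb8033061e24_d42_d25_d51_d2f_d51_d0e_1 := p_wS_32_wQ_26_wN_1_rb8033061e24_d42_d25_d51_d2f_d51_d0e_1 g__wS_32_wQ_26_wN_1_rb8033061e24_d42_d25_d51_d2f_d51_d0e_2 g__wS_32_wQ_26_wN_1_rb8033061e24_d42_d25_d51_d2f_d51_d0e_3

theorem g__wS_32_wQ_26_wN_1_rb8033061e24_d42_d25_d51_d2f_d51_d0e_0 : GoodKC AS k_wS_32_wQ_26_wN_1_rb8033061e24_d42_d25_d51_d2f_d51_d0e_0 := p_wS_32_wQ_26_wN_1_rb8033061e24_d42_d25_d51_d2f_d51_d0e_0 g__wS_32_wQ_26_wN_1_rb8033061e24_d42_d25_d51_d2f_d51_d0e_1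

theorem g__wS_32_wQ_26_wN_1_rb8033061e24_d42_d25_d51_d2f_d51_d0e_5 : GoodKC AS k_wS_32_wQ_26_wN_1_rb8033061e24_d42_d25_d51_d2f_d51_d0e_5 := p_wS_32_wQ_26_wN_1_rb8033061e24_d42_d25_d51_d2f_d51_d0e_5

theorem g_wS_32_wQ_26_wN_1_rb8033061e24_d42_d25_d51_d2f_d51_d0ex1 : GoodKC AS c_wS_32_wQ_26_wN_1_rb8033061e24_d42_d25_d51_d2f_d51_d0ex1 := p_wS_32_wQ_26_wN_1_rb8033061e24_d42_d25_d51_d2f_d51_d0e g__wS_32_wQ_26_wN_1_rb8033061e24_d42_d25_d51_d2f_d51_d0e_0 g__wS_32_wQ_26_wN_1_rb8033061e24_d42_d25_d51_d2f_d51_d0e_5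

theorem g_wS_32_wQ_26_wN_1_rb8033061e24_d42_d25_d51_d2f_d51_d0dx1 : GoodKC AS c_wS_32_wQ_26_wN_1_rb8033061e24_d42_d25_d51_d2f_d51_d0dx1 := p_wS_32_wQ_26_wN_1_rb8033061e24_d42_d25_d51_d2f_d51_d0d

theorem g_wS_32_wQ_26_wN_1_rb8033061e24_d42_d25_d51_d2f_d51_d0bx1 : GoodKC AS c_wS_32_wQ_26_wN_1_rb8033061e24_d42_d25_d51_d2f_d51_d0bx1 := p_wS_32_wQ_26_wN_1_rb8033061e24_d42_d25_d51_d2f_d51_d0b

theorem g_wS_32_wQ_26_wN_1_rb8033061e24_d42_d25_d51_d2f_d51_d09x1 : GoodKC AS c_wS_32_wQ_26_wN_1_rb8033061e24_d42_d25_d51_d2f_d51_d09x1 := p_wS_32_wQ_26_wN_1_rb8033061e24_d42_d25_d51_d2f_d51_d09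

theorem g_wS_32_wQ_26_wN_1_rb8033061e24_d42_d25_d51_d2f_d51_d08x1 : GoodKC AS c_wS_32_wQ_26_wN_1_rb8033061e24_d42_d25_d51_d2f_d51_d08x1 := p_wS_32_wQ_26_wN_1_rb8033061e24_d42_d25_d51_d2f_d51_d08

theorem g__wS_32_wQ_26_wN_1_rb8033061e24_d42_d25_d51_d2fx1_1 : GoodKC AS k_wS_32_wQ_26_wN_1_rb8033061e24_d42_d25_d51_d2fx1_1 := p_wS_32_wQ_26_wN_1_rb8033061e24_d42_d25_d51_d2fx1_1

theorem g__wS_32_wQ_26_wN_1_rb8033061e24_d42_d25_d51_d2fx1_2 : GoodKC AS k_wS_32_wQ_26_wN_1_rb8033061e24_d42_d25_d51_d2fx1_2 := p_wS_32_wQ_26_wN_1_rb8033061e24_d42_d25_d51_d2fx1_2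

theorem g__wS_32_wQ_26_wN_1_rb8033061e24_d42_d25_d51_d2fx1_0 : GoodKC AS k_wS_32_wQ_26_wN_1_rb8033061e24_d42_d25_d51_d2fx1_0 := p_wS_32_wQ_26_wN_1_rb8033061e24_d42_d25_d51_d2fx1_0 g__wS_32_wQ_26_wN_1_rb8033061e24_d42_d25_d51_d2fx1_1 g__wS_32_wQ_26_wN_1_rb8033061e24_d42_d25_d51_d2fx1_2

theorem g_wS_32_wQ_26_wN_1_rb8033061e24_d42_d25_d51_d2f_d51_d05x1 : GoodKC AS c_wS_32_wQ_26_wN_1_rb8033061e24_d42_d25_d51_d2f_d51_d05x1 := p_wS_32_wQ_26_wN_1_rb8033061e24_d42_d25_d51_d2f_d51_d05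

theorem g__wS_32_wQ_26_wN_1_rb8033061e24_d42_d25_d51_d2f_d51_d04_0 : GoodKC AS k_wS_32_wQ_26_wN_1_rb8033061e24_d42_d25_d51_d2f_d51_d04_0 := p_wS_32_wQ_26_wN_1_rb8033061e24_d42_d25_d51_d2f_d51_d04_0

theorem g__wS_32_wQ_26_wN_1_rb8033061e24_d42_d25_d51_d2f_d51_d04_1 : GoodKC AS k_wS_32_wQ_26_wN_1_rb8033061e24_d42_d25_d51_d2f_d51_d04_1 := p_wS_32_wQ_26_wN_1_rb8033061e24_d42_d25_d51_d2f_d51_d04_1

theorem g_wS_32_wQ_26_wN_1_rb8033061e24_d42_d25_d51_d2f_d51_d04x1 : GoodKC AS c_wS_32_wQ_26_wN_1_rb8033061e24_d42_d25_d51_d2f_d51_d04x1 := p_wS_32_wQ_26_wN_1_rb8033061e24_d42_d25_d51_d2f_d51_d04 g__wS_32_wQ_26_wN_1_rb8033061e24_d42_d25_d51_d2f_d51_d04_0 g__wS_32_wQ_26_wN_1_rb8033061e24_d42_d25_d51_d2f_d51_d04_1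

theorem g_wS_32_wQ_26_wN_1_rb8033061e24_d42_d25_d51_d2f_d51_d03x1 : GoodKC AS c_wS_32_wQ_26_wN_1_rb8033061e24_d42_d25_d51_d2f_d51_d03x1 := p_wS_32_wQ_26_wN_1_rb8033061e24_d42_d25_d51_d2f_d51_d03

theorem g_wS_32_wQ_26_wN_1_rb8033061e24_d42_d25_d51_d2f_d51_d02x1 : GoodKC AS c_wS_32_wQ_26_wN_1_rb8033061e24_d42_d25_d51_d2f_d51_d02x1 := p_wS_32_wQ_26_wN_1_rb8033061e24_d42_d25_d51_d2f_d51_d02

theorem g__wS_32_wQ_26_wN_1_rb8033061e24_d42_d25_d51_d2f_d51_d00_0 : GoodKC AS k_wS_32_wQ_26_wN_1_rb8033061e24_d42_d25_d51_d2f_d51_d00_0 := p_wS_32_wQ_26_wN_1_rb8033061e24_d42_d25_d51_d2f_d51_d00_0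

theorem g__wS_32_wQ_26_wN_1_rb8033061e24_d42_d25_d51_d2f_d51_d00_1 : GoodKC AS k_wS_32_wQ_26_wN_1_rb8033061e24_d42_d25_d51_d2f_d51_d00_1 := p_wS_32_wQ_26_wN_1_rb8033061e24_d42_d25_d51_d2f_d51_d00_1

theorem g_wS_32_wQ_26_wN_1_rb8033061e24_d42_d25_d51_d2f_d51_d00x1 : GoodKC AS c_wS_32_wQ_26_wN_1_rb8033061e24_d42_d25_d51_d2f_d51_d00x1 := p_wS_32_wQ_26_wN_1_rb8033061e24_d42_d25_d51_d2f_d51_d00 g__wS_32_wQ_26_wN_1_rb8033061e24_d42_d25_d51_d2f_d51_d00_0 g__wS_32_wQ_26_wN_1_rb8033061e24_d42_d25_d51_d2f_d51_d00_1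

theorem g_wS_32_wQ_26_wN_1_rb8033061e24_d42_d25_d51_d2f_d51_d01x1 : GoodKC AS c_wS_32_wQ_26_wN_1_rb8033061e24_d42_d25_d51_d2f_d51_d01x1 := p_wS_32_wQ_26_wN_1_rb8033061e24_d42_d25_d51_d2f_d51_d01

theorem g_wS_32_wQ_26_wN_1_rb8033061e24_d42_d25_d51_d2f_d51_d06x1 : GoodKC AS c_wS_32_wQ_26_wN_1_rb8033061e24_d42_d25_d51_d2f_d51_d06x1 := p_wS_32_wQ_26_wN_1_rb8033061e24_d42_d25_d51_d2f_d51_d06

theorem g_wS_32_wQ_26_wN_1_rb8033061e24_d42_d25_d51_d2f_d51_d07x1 : GoodKC AS c_wS_32_wQ_26_wN_1_rb8033061e24_d42_d25_d51_d2f_d51_d07x1 := p_wS_32_wQ_26_wN_1_rb8033061e24_d42_d25_d51_d2f_d51_d07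

theorem g_wS_32_wQ_26_wN_1_rb8033061e24_d42_d25_d51_d2f_d51_d0ax1 : GoodKC AS c_wS_32_wQ_26_wN_1_rb8033061e24_d42_d25_d51_d2f_d51_d0ax1 := p_wS_32_wQ_26_wN_1_rb8033061e24_d42_d25_d51_d2f_d51_d0a

theorem g__wS_32_wQ_26_wN_1_rb8033061e24_d42_d25_d51_d2f_d51_d0c_2 : GoodKC AS k_wS_32_wQ_26_wN_1_rb8033061e24_d42_d25_d51_d2f_d51_d0c_2 := p_wS_32_wQ_26_wN_1_rb8033061e24_d42_d25_d51_d2f_d51_d0c_2

theorem g__wS_32_wQ_26_wN_1_rb8033061e24_d42_d25_d51_d2f_d51_d0c_1 : GoodKC AS k_wS_32_wQ_26_wN_1_rb8033061e24_d42_d25_d51_d2f_d51_d0c_1 := p_wS_32_wQ_26_wN_1_rb8033061e24_d42_d25_d51_d2f_d51_d0c_1 g__wS_32_wQ_26_wN_1_rb8033061e24_d42_d25_d51_d2f_d51_d0c_2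

theorem g__wS_32_wQ_26_wN_1_rb8033061e24_d42_d25_d51_d2f_d51_d0c_0 : GoodKC AS k_wS_32_wQ_26_wN_1_rb8033061e24_d42_d25_d51_d2f_d51_d0c_0 := p_wS_32_wQ_26_wN_1_rb8033061e24_d42_d25_d51_d2f_d51_d0c_0 g__wS_32_wQ_26_wN_1_rb8033061e24_d42_d25_d51_d2f_d51_d0c_1

theorem g__wS_32_wQ_26_wN_1_rb8033061e24_d42_d25_d51_d2f_d51_d0c_4 : GoodKC AS k_wS_32_wQ_26_wN_1_rb8033061e24_d42_d25_d51_d2f_d51_d0c_4 := p_wS_32_wQ_26_wN_1_rb8033061e24_d42_d25_d51_d2f_d51_d0c_4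

theorem g__wS_32_wQ_26_wN_1_rb8033061e24_d42_d25_d51_d2f_d51_d0c_3 : GoodKC AS k_wS_32_wQ_26_wN_1_rb8033061e24_d42_d25_d51_d2f_d51_d0c_3 := p_wS_32_wQ_26_wN_1_rb8033061e24_d42_d25_d51_d2f_d51_d0c_3 g__wS_32_wQ_26_wN_1_rb8033061e24_d42_d25_d51_d2f_d51_d0c_4

theorem g_wS_32_wQ_26_wN_1_rb8033061e24_d42_d25_d51_d2f_d51_d0cx1 : GoodKC AS c_wS_32_wQ_26_wN_1_rb8033061e24_d42_d25_d51_d2f_d51_d0cx1 := p_wS_32_wQ_26_wN_1_rb8033061e24_d42_d25_d51_d2f_d51_d0c g__wS_32_wQ_26_wN_1_rb8033061e24_d42_d25_d51_d2f_d51_d0c_0 g__wS_32_wQ_26_wN_1_rb8033061e24_d42_d25_d51_d2f_d51_d0c_3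

theorem g_wS_32_wQ_26_wN_1_rb8033061e24_d42_d25_d51_d2f_d51_d0fx1 : GoodKC AS c_wS_32_wQ_26_wN_1_rb8033061e24_d42_d25_d51_d2f_d51_d0fx1 := p_wS_32_wQ_26_wN_1_rb8033061e24_d42_d25_d51_d2f_d51_d0f

theorem g_wS_32_wQ_26_wN_1_rb8033061e24_d42_d25_d51_d2f_d51_d12x1 : GoodKC AS c_wS_32_wQ_26_wN_1_rb8033061e24_d42_d25_d51_d2f_d51_d12x1 := p_wS_32_wQ_26_wN_1_rb8033061e24_d42_d25_d51_d2f_d51_d12

theorem g_wS_32_wQ_26_wN_1_rb8033061e24_d42_d25_d51_d2fx2 : GoodKC AS c_wS_32_wQ_26_wN_1_rb8033061e24_d42_d25_d51_d2fx2 := p_wS_32_wQ_26_wN_1_rb8033061e24_d42_d25_d51_d2fx1 g_wS_32_wQ_26_wN_1_rb8033061e24_d42_d25_d51_d2f_d51_d13x1 g_wS_32_wQ_26_wN_1_rb8033061e24_d42_d25_d51_d2f_d51_d11x1 g_wS_32_wQ_26_wN_1_rb8033061e24_d42_d25_d51_d2f_d51_d10x1 g_wS_32_wQ_26_wN_1_rb8033061e24_d42_d25_d51_d2f_d51_d0ex1 g_wS_32_wQ_26_wN_1_rb8033061e24_d42_d25_d51_d2f_d51_d0dx1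 g_wS_32_wQ_26_wN_1_rb8033061e24_d42_d25_d51_d2f_d51_d0bx1 g_wS_32_wQ_26_wN_1_rb8033061e24_d42_d25_d51_d2f_d51_d09x1 g_wS_32_wQ_26_wN_1_rb8033061e24_d42_d25_d51_d2f_d51_d08x1 g__wS_32_wQ_26_wN_1_rb8033061e24_d42_d25_d51_d2fx1_0 g_wS_32_wQ_26_wN_1_rb8033061e24_d42_d25_d51_d2f_d51_d05x1 g_wS_32_wQ_26_wN_1_rb8033061e24_d42_d25_d51_d2f_d51_d04x1 g_wS_32_wQ_26_wN_1_rb8033061e24_d42_d25_d51_d2f_d51_d03x1 g_wS_32_wQ_26_wN_1_rb8033061e24_d42_d25_d51_d2f_d51_d02x1 g_wS_32_wQ_26_wN_1_rb8033061e24_d42_d25_d51_d2f_d51_d00x1 g_wS_32_wQ_26_wN_1_rb8033061e24_d42_d25_d51_d2f_d51_d01x1 g_wS_32_wQ_26_wN_1_rb8033061e24_d42_d25_d51_d2f_d51_d06x1 g_wS_32_wQ_26_wN_1_rb8033061e24_d42_d25_d51_d2f_d51_d07x1 g_wS_32_wQ_26_wN_1_rb8033061e24_d42_d25_d51_d2f_d51_d0ax1 g_wS_32_wQ_26_wN_1_rb8033061e24_d42_d25_d51_d2f_d51_d0cx1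 g_wS_32_wQ_26_wN_1_rb8033061e24_d42_d25_d51_d2f_d51_d0fx1 g_wS_32_wQ_26_wN_1_rb8033061e24_d42_d25_d51_d2f_d51_d12x1

theorem g_wS_32_wQ_26_wN_1_rb8033061e24_d42_d25_d51_d2ex2 : GoodKC AS c_wS_32_wQ_26_wN_1_rb8033061e24_d42_d25_d51_d2ex2 := p_wS_32_wQ_26_wN_1_rb8033061e24_d42_d25_d51_d2e

theorem g_wS_32_wQ_26_wN_1_rb8033061e24_d42_d25_d51_d2dx2 : GoodKC AS c_wS_32_wQ_26_wN_1_rb8033061e24_d42_d25_d51_d2dx2 := p_wS_32_wQ_26_wN_1_rb8033061e24_d42_d25_d51_d2d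

theorem g__wS_32_wQ_26_wN_1_rb8033061e24_d42_d25_d51_d2c_0 : GoodKC AS k_wS_32_wQ_26_wN_1_rb8033061e24_d42_d25_d51_d2c_0 := p_wS_32_wQ_26_wN_1_rb8033061e24_d42_d25_d51_d2c_0

theorem g__wS_32_wQ_26_wN_1_rb8033061e24_d42_d25_d51_d2c_1 : GoodKC AS k_wS_32_wQ_26_wN_1_rb8033061e24_d42_d25_d51_d2c_1 := p_wS_32_wQ_26_wN_1_rb8033061e24_d42_d25_d51_d2c_1

theorem g__wS_32_wQ_26_wN_1_rb8033061e24_d42_d25_d51_d2c_2 : GoodKC AS k_wS_32_wQ_26_wN_1_rb8033061e24_d42_d25_d51_d2c_2 := p_wS_32_wQ_26_wN_1_rb8033061e24_d42_d25_d51_d2c_2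

theorem g__wS_32_wQ_26_wN_1_rb8033061e24_d42_d25_d51_d2c_3 : GoodKC AS k_wS_32_wQ_26_wN_1_rb8033061e24_d42_d25_d51_d2c_3 := p_wS_32_wQ_26_wN_1_rb8033061e24_d42_d25_d51_d2c_3

theorem g__wS_32_wQ_26_wN_1_rb8033061e24_d42_d25_d51_d2c_6 : GoodKC AS k_wS_32_wQ_26_wN_1_rb8033061e24_d42_d25_d51_d2c_6 := p_wS_32_wQ_26_wN_1_rb8033061e24_d42_d25_d51_d2c_6

theorem g__wS_32_wQ_26_wN_1_rb8033061e24_d42_d25_d51_d2c_5 : GoodKC AS k_wS_32_wQ_26_wN_1_rb8033061e24_d42_d25_d51_d2c_5 := p_wS_32_wQ_26_wN_1_rb8033061e24_d42_d25_d51_d2c_5 g__wS_32_wQ_26_wN_1_rb8033061e24_d42_d25_d51_d2c_6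

theorem g__wS_32_wQ_26_wN_1_rb8033061e24_d42_d25_d51_d2c_4 : GoodKC AS k_wS_32_wQ_26_wN_1_rb8033061e24_d42_d25_d51_d2c_4 := p_wS_32_wQ_26_wN_1_rb8033061e24_d42_d25_d51_d2c_4 g__wS_32_wQ_26_wN_1_rb8033061e24_d42_d25_d51_d2c_5

theorem g__wS_32_wQ_26_wN_1_rb8033061e24_d42_d25_d51_d2c_7 : GoodKC AS k_wS_32_wQ_26_wN_1_rb8033061e24_d42_d25_d51_d2c_7 := p_wS_32_wQ_26_wN_1_rb8033061e24_d42_d25_d51_d2c_7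

theorem g__wS_32_wQ_26_wN_1_rb8033061e24_d42_d25_d51_d2c_9 : GoodKC AS k_wS_32_wQ_26_wN_1_rb8033061e24_d42_d25_d51_d2c_9 := p_wS_32_wQ_26_wN_1_rb8033061e24_d42_d25_d51_d2c_9

theorem g__wS_32_wQ_26_wN_1_rb8033061e24_d42_d25_d51_d2c_10 : GoodKC AS k_wS_32_wQ_26_wN_1_rb8033061e24_d42_d25_d51_d2c_10 := p_wS_32_wQ_26_wN_1_rb8033061e24_d42_d25_d51_d2c_10

theorem g__wS_32_wQ_26_wN_1_rb8033061e24_d42_d25_d51_d2c_12 : GoodKC AS k_wS_32_wQ_26_wN_1_rb8033061e24_d42_d25_d51_d2c_12 := p_wS_32_wQ_26_wN_1_rb8033061e24_d42_d25_d51_d2c_12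

theorem g__wS_32_wQ_26_wN_1_rb8033061e24_d42_d25_d51_d2c_11 : GoodKC AS k_wS_32_wQ_26_wN_1_rb8033061e24_d42_d25_d51_d2c_11 := p_wS_32_wQ_26_wN_1_rb8033061e24_d42_d25_d51_d2c_11 g__wS_32_wQ_26_wN_1_rb8033061e24_d42_d25_d51_d2c_12

theorem g__wS_32_wQ_26_wN_1_rb8033061e24_d42_d25_d51_d2c_8 : GoodKC AS k_wS_32_wQ_26_wN_1_rb8033061e24_d42_d25_d51_d2c_8 := p_wS_32_wQ_26_wN_1_rb8033061e24_d42_d25_d51_d2c_8 g__wS_32_wQ_26_wN_1_rb8033061e24_d42_d25_d51_d2c_9 g__wS_32_wQ_26_wN_1_rb8033061e24_d42_d25_d51_d2c_10 g__wS_32_wQ_26_wN_1_rb8033061e24_d42_d25_d51_d2c_11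

theorem g_wS_32_wQ_26_wN_1_rb8033061e24_d42_d25_d51_d2cx2 : GoodKC AS c_wS_32_wQ_26_wN_1_rb8033061e24_d42_d25_d51_d2cx2 := p_wS_32_wQ_26_wN_1_rb8033061e24_d42_d25_d51_d2c g__wS_32_wQ_26_wN_1_rb8033061e24_d42_d25_d51_d2c_0 g__wS_32_wQ_26_wN_1_rb8033061e24_d42_d25_d51_d2c_1 g__wS_32_wQ_26_wN_1_rb8033061e24_d42_d25_d51_d2c_2 g__wS_32_wQ_26_wN_1_rb8033061e24_d42_d25_d51_d2c_3 g__wS_32_wQ_26_wN_1_rb8033061e24_d42_d25_d51_d2c_4 g__wS_32_wQ_26_wN_1_rb8033061e24_d42_d25_d51_d2c_7 g__wS_32_wQ_26_wN_1_rb8033061e24_d42_d25_d51_d2c_8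

theorem g__wS_32_wQ_26_wN_1_rb8033061e24_d42_d25_d51_d29_1 : GoodKC AS k_wS_32_wQ_26_wN_1_rb8033061e24_d42_d25_d51_d29_1 := p_wS_32_wQ_26_wN_1_rb8033061e24_d42_d25_d51_d29_1

theorem g__wS_32_wQ_26_wN_1_rb8033061e24_d42_d25_d51_d29_0 : GoodKC AS k_wS_32_wQ_26_wN_1_rb8033061e24_d42_d25_d51_d29_0 := p_wS_32_wQ_26_wN_1_rb8033061e24_d42_d25_d51_d29_0 g__wS_32_wQ_26_wN_1_rb8033061e24_d42_d25_d51_d29_1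

theorem g__wS_32_wQ_26_wN_1_rb8033061e24_d42_d25_d51_d29_4 : GoodKC AS k_wS_32_wQ_26_wN_1_rb8033061e24_d42_d25_d51_d29_4 := p_wS_32_wQ_26_wN_1_rb8033061e24_d42_d25_d51_d29_4

theorem g__wS_32_wQ_26_wN_1_rb8033061e24_d42_d25_d51_d29_5 : GoodKC AS k_wS_32_wQ_26_wN_1_rb8033061e24_d42_d25_d51_d29_5 := p_wS_32_wQ_26_wN_1_rb8033061e24_d42_d25_d51_d29_5

theorem g__wS_32_wQ_26_wN_1_rb8033061e24_d42_d25_d51_d29_3 : GoodKC AS k_wS_32_wQ_26_wN_1_rb8033061e24_d42_d25_d51_d29_3 := p_wS_32_wQ_26_wN_1_rb8033061e24_d42_d25_d51_d29_3 g__wS_32_wQ_26_wN_1_rb8033061e24_d42_d25_d51_d29_4 g__wS_32_wQ_26_wN_1_rb8033061e24_d42_d25_d51_d29_5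

theorem g__wS_32_wQ_26_wN_1_rb8033061e24_d42_d25_d51_d29_6 : GoodKC AS k_wS_32_wQ_26_wN_1_rb8033061e24_d42_d25_d51_d29_6 := p_wS_32_wQ_26_wN_1_rb8033061e24_d42_d25_d51_d29_6

theorem g__wS_32_wQ_26_wN_1_rb8033061e24_d42_d25_d51_d29_2 : GoodKC AS k_wS_32_wQ_26_wN_1_rb8033061e24_d42_d25_d51_d29_2 := p_wS_32_wQ_26_wN_1_rb8033061e24_d42_d25_d51_d29_2 g__wS_32_wQ_26_wN_1_rb8033061e24_d42_d25_d51_d29_3 g__wS_32_wQ_26_wN_1_rb8033061e24_d42_d25_d51_d29_6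

theorem g_wS_32_wQ_26_wN_1_rb8033061e24_d42_d25_d51_d29x2 : GoodKC AS c_wS_32_wQ_26_wN_1_rb8033061e24_d42_d25_d51_d29x2 := p_wS_32_wQ_26_wN_1_rb8033061e24_d42_d25_d51_d29 g__wS_32_wQ_26_wN_1_rb8033061e24_d42_d25_d51_d29_0 g__wS_32_wQ_26_wN_1_rb8033061e24_d42_d25_d51_d29_2

theorem g_wS_32_wQ_26_wN_1_rb8033061e24_d42_d25_d51_d28x2 : GoodKC AS c_wS_32_wQ_26_wN_1_rb8033061e24_d42_d25_d51_d28x2 := p_wS_32_wQ_26_wN_1_rb8033061e24_d42_d25_d51_d28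

theorem g__wS_32_wQ_26_wN_1_rb8033061e24_d42_d25_d51_d26_1 : GoodKC AS k_wS_32_wQ_26_wN_1_rb8033061e24_d42_d25_d51_d26_1 := p_wS_32_wQ_26_wN_1_rb8033061e24_d42_d25_d51_d26_1

theorem g__wS_32_wQ_26_wN_1_rb8033061e24_d42_d25_d51_d26_0 : GoodKC AS k_wS_32_wQ_26_wN_1_rb8033061e24_d42_d25_d51_d26_0 := p_wS_32_wQ_26_wN_1_rb8033061e24_d42_d25_d51_d26_0 g__wS_32_wQ_26_wN_1_rb8033061e24_d42_d25_d51_d26_1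

theorem g__wS_32_wQ_26_wN_1_rb8033061e24_d42_d25_d51_d26_4 : GoodKC AS k_wS_32_wQ_26_wN_1_rb8033061e24_d42_d25_d51_d26_4 := p_wS_32_wQ_26_wN_1_rb8033061e24_d42_d25_d51_d26_4

theorem g__wS_32_wQ_26_wN_1_rb8033061e24_d42_d25_d51_d26_3 : GoodKC AS k_wS_32_wQ_26_wN_1_rb8033061e24_d42_d25_d51_d26_3 := p_wS_32_wQ_26_wN_1_rb8033061e24_d42_d25_d51_d26_3 g__wS_32_wQ_26_wN_1_rb8033061e24_d42_d25_d51_d26_4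

theorem g__wS_32_wQ_26_wN_1_rb8033061e24_d42_d25_d51_d26_2 : GoodKC AS k_wS_32_wQ_26_wN_1_rb8033061e24_d42_d25_d51_d26_2 := p_wS_32_wQ_26_wN_1_rb8033061e24_d42_d25_d51_d26_2 g__wS_32_wQ_26_wN_1_rb8033061e24_d42_d25_d51_d26_3

theorem g_wS_32_wQ_26_wN_1_rb8033061e24_d42_d25_d51_d26x2 : GoodKC AS c_wS_32_wQ_26_wN_1_rb8033061e24_d42_d25_d51_d26x2 := p_wS_32_wQ_26_wN_1_rb8033061e24_d42_d25_d51_d26 g__wS_32_wQ_26_wN_1_rb8033061e24_d42_d25_d51_d26_0 g__wS_32_wQ_26_wN_1_rb8033061e24_d42_d25_d51_d26_2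

theorem g_wS_32_wQ_26_wN_1_rb8033061e24_d42_d25_d51_d25x2 : GoodKC AS c_wS_32_wQ_26_wN_1_rb8033061e24_d42_d25_d51_d25x2 := p_wS_32_wQ_26_wN_1_rb8033061e24_d42_d25_d51_d25

theorem g_wS_32_wQ_26_wN_1_rb8033061e24_d42_d25_d51_d24x2 : GoodKC AS c_wS_32_wQ_26_wN_1_rb8033061e24_d42_d25_d51_d24x2 := p_wS_32_wQ_26_wN_1_rb8033061e24_d42_d25_d51_d24

theorem g__wS_32_wQ_26_wN_1_rb8033061e24_d42_d25_d51_d23_0 : GoodKC AS k_wS_32_wQ_26_wN_1_rb8033061e24_d42_d25_d51_d23_0 := p_wS_32_wQ_26_wN_1_rb8033061e24_d42_d25_d51_d23_0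

theorem g__wS_32_wQ_26_wN_1_rb8033061e24_d42_d25_d51_d23_1 : GoodKC AS k_wS_32_wQ_26_wN_1_rb8033061e24_d42_d25_d51_d23_1 := p_wS_32_wQ_26_wN_1_rb8033061e24_d42_d25_d51_d23_1

theorem g_wS_32_wQ_26_wN_1_rb8033061e24_d42_d25_d51_d23x2 : GoodKC AS c_wS_32_wQ_26_wN_1_rb8033061e24_d42_d25_d51_d23x2 := p_wS_32_wQ_26_wN_1_rb8033061e24_d42_d25_d51_d23 g__wS_32_wQ_26_wN_1_rb8033061e24_d42_d25_d51_d23_0 g__wS_32_wQ_26_wN_1_rb8033061e24_d42_d25_d51_d23_1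

theorem g__wS_32_wQ_26_wN_1_rb8033061e24_d42_d25_d51_d22_1 : GoodKC AS k_wS_32_wQ_26_wN_1_rb8033061e24_d42_d25_d51_d22_1 := p_wS_32_wQ_26_wN_1_rb8033061e24_d42_d25_d51_d22_1

theorem g__wS_32_wQ_26_wN_1_rb8033061e24_d42_d25_d51_d22_3 : GoodKC AS k_wS_32_wQ_26_wN_1_rb8033061e24_d42_d25_d51_d22_3 := p_wS_32_wQ_26_wN_1_rb8033061e24_d42_d25_d51_d22_3

theorem g__wS_32_wQ_26_wN_1_rb8033061e24_d42_d25_d51_d22_2 : GoodKC AS k_wS_32_wQ_26_wN_1_rb8033061e24_d42_d25_d51_d22_2 := p_wS_32_wQ_26_wN_1_rb8033061e24_d42_d25_d51_d22_2 g__wS_32_wQ_26_wN_1_rb8033061e24_d42_d25_d51_d22_3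

theorem g__wS_32_wQ_26_wN_1_rb8033061e24_d42_d25_d51_d22_0 : GoodKC AS k_wS_32_wQ_26_wN_1_rb8033061e24_d42_d25_d51_d22_0 := p_wS_32_wQ_26_wN_1_rb8033061e24_d42_d25_d51_d22_0 g__wS_32_wQ_26_wN_1_rb8033061e24_d42_d25_d51_d22_1 g__wS_32_wQ_26_wN_1_rb8033061e24_d42_d25_d51_d22_2

theorem g_wS_32_wQ_26_wN_1_rb8033061e24_d42_d25_d51_d22x2 : GoodKC AS c_wS_32_wQ_26_wN_1_rb8033061e24_d42_d25_d51_d22x2 := p_wS_32_wQ_26_wN_1_rb8033061e24_d42_d25_d51_d22 g__wS_32_wQ_26_wN_1_rb8033061e24_d42_d25_d51_d22_0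

theorem g__wS_32_wQ_26_wN_1_rb8033061e24_d42_d25_d51_d20_1 : GoodKC AS k_wS_32_wQ_26_wN_1_rb8033061e24_d42_d25_d51_d20_1 := p_wS_32_wQ_26_wN_1_rb8033061e24_d42_d25_d51_d20_1

theorem g__wS_32_wQ_26_wN_1_rb8033061e24_d42_d25_d51_d20_0 : GoodKC AS k_wS_32_wQ_26_wN_1_rb8033061e24_d42_d25_d51_d20_0 := p_wS_32_wQ_26_wN_1_rb8033061e24_d42_d25_d51_d20_0 g__wS_32_wQ_26_wN_1_rb8033061e24_d42_d25_d51_d20_1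

theorem g__wS_32_wQ_26_wN_1_rb8033061e24_d42_d25_d51_d20_2 : GoodKC AS k_wS_32_wQ_26_wN_1_rb8033061e24_d42_d25_d51_d20_2 := p_wS_32_wQ_26_wN_1_rb8033061e24_d42_d25_d51_d20_2

theorem g_wS_32_wQ_26_wN_1_rb8033061e24_d42_d25_d51_d20x2 : GoodKC AS c_wS_32_wQ_26_wN_1_rb8033061e24_d42_d25_d51_d20x2 := p_wS_32_wQ_26_wN_1_rb8033061e24_d42_d25_d51_d20 g__wS_32_wQ_26_wN_1_rb8033061e24_d42_d25_d51_d20_0 g__wS_32_wQ_26_wN_1_rb8033061e24_d42_d25_d51_d20_2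

theorem g_wS_32_wQ_26_wN_1_rb8033061e24_d42_d25_d51_d1fx2 : GoodKC AS c_wS_32_wQ_26_wN_1_rb8033061e24_d42_d25_d51_d1fx2 := p_wS_32_wQ_26_wN_1_rb8033061e24_d42_d25_d51_d1f

theorem g_wS_32_wQ_26_wN_1_rb8033061e24_d42_d25_d51_d1ex2 : GoodKC AS c_wS_32_wQ_26_wN_1_rb8033061e24_d42_d25_d51_d1ex2 := p_wS_32_wQ_26_wN_1_rb8033061e24_d42_d25_d51_d1e

theorem g_wS_32_wQ_26_wN_1_rb8033061e24_d42_d25_d51_d1dx2 : GoodKC AS c_wS_32_wQ_26_wN_1_rb8033061e24_d42_d25_d51_d1dx2 := p_wS_32_wQ_26_wN_1_rb8033061e24_d42_d25_d51_d1d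

theorem g_wS_32_wQ_26_wN_1_rb8033061e24_d42_d25_d51_d1cx2 : GoodKC AS c_wS_32_wQ_26_wN_1_rb8033061e24_d42_d25_d51_d1cx2 := p_wS_32_wQ_26_wN_1_rb8033061e24_d42_d25_d51_d1c

theorem g_wS_32_wQ_26_wN_1_rb8033061e24_d42_d25_d51_d1bx2 : GoodKC AS c_wS_32_wQ_26_wN_1_rb8033061e24_d42_d25_d51_d1bx2 := p_wS_32_wQ_26_wN_1_rb8033061e24_d42_d25_d51_d1b

theorem g__wS_32_wQ_26_wN_1_rb8033061e24_d42_d25_d51_d1a_2 : GoodKC AS k_wS_32_wQ_26_wN_1_rb8033061e24_d42_d25_d51_d1a_2 := p_wS_32_wQ_26_wN_1_rb8033061e24_d42_d25_d51_d1a_2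

theorem g__wS_32_wQ_26_wN_1_rb8033061e24_d42_d25_d51_d1a_1 : GoodKC AS k_wS_32_wQ_26_wN_1_rb8033061e24_d42_d25_d51_d1a_1 := p_wS_32_wQ_26_wN_1_rb8033061e24_d42_d25_d51_d1a_1 g__wS_32_wQ_26_wN_1_rb8033061e24_d42_d25_d51_d1a_2

theorem g__wS_32_wQ_26_wN_1_rb8033061e24_d42_d25_d51_d1a_4 : GoodKC AS k_wS_32_wQ_26_wN_1_rb8033061e24_d42_d25_d51_d1a_4 := p_wS_32_wQ_26_wN_1_rb8033061e24_d42_d25_d51_d1a_4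

theorem g__wS_32_wQ_26_wN_1_rb8033061e24_d42_d25_d51_d1a_8 : GoodKC AS k_wS_32_wQ_26_wN_1_rb8033061e24_d42_d25_d51_d1a_8 := p_wS_32_wQ_26_wN_1_rb8033061e24_d42_d25_d51_d1a_8

theorem g__wS_32_wQ_26_wN_1_rb8033061e24_d42_d25_d51_d1a_13 : GoodKC AS k_wS_32_wQ_26_wN_1_rb8033061e24_d42_d25_d51_d1a_13 := p_wS_32_wQ_26_wN_1_rb8033061e24_d42_d25_d51_d1a_13

theorem g__wS_32_wQ_26_wN_1_rb8033061e24_d42_d25_d51_d1a_12 : GoodKC AS k_wS_32_wQ_26_wN_1_rb8033061e24_d42_d25_d51_d1a_12 := p_wS_32_wQ_26_wN_1_rb8033061e24_d42_d25_d51_d1a_12 g__wS_32_wQ_26_wN_1_rb8033061e24_d42_d25_d51_d1a_13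

theorem g__wS_32_wQ_26_wN_1_rb8033061e24_d42_d25_d51_d1a_11 : GoodKC AS k_wS_32_wQ_26_wN_1_rb8033061e24_d42_d25_d51_d1a_11 := p_wS_32_wQ_26_wN_1_rb8033061e24_d42_d25_d51_d1a_11 g__wS_32_wQ_26_wN_1_rb8033061e24_d42_d25_d51_d1a_12

theorem g__wS_32_wQ_26_wN_1_rb8033061e24_d42_d25_d51_d1a_14 : GoodKC AS k_wS_32_wQ_26_wN_1_rb8033061e24_d42_d25_d51_d1a_14 := p_wS_32_wQ_26_wN_1_rb8033061e24_d42_d25_d51_d1a_14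

theorem g__wS_32_wQ_26_wN_1_rb8033061e24_d42_d25_d51_d1a_18 : GoodKC AS k_wS_32_wQ_26_wN_1_rb8033061e24_d42_d25_d51_d1a_18 := p_wS_32_wQ_26_wN_1_rb8033061e24_d42_d25_d51_d1a_18

theorem g__wS_32_wQ_26_wN_1_rb8033061e24_d42_d25_d51_d1a_17 : GoodKC AS k_wS_32_wQ_26_wN_1_rb8033061e24_d42_d25_d51_d1a_17 := p_wS_32_wQ_26_wN_1_rb8033061e24_d42_d25_d51_d1a_17 g__wS_32_wQ_26_wN_1_rb8033061e24_d42_d25_d51_d1a_18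

theorem g__wS_32_wQ_26_wN_1_rb8033061e24_d42_d25_d51_d1a_16 : GoodKC AS k_wS_32_wQ_26_wN_1_rb8033061e24_d42_d25_d51_d1a_16 := p_wS_32_wQ_26_wN_1_rb8033061e24_d42_d25_d51_d1a_16 g__wS_32_wQ_26_wN_1_rb8033061e24_d42_d25_d51_d1a_17

theorem g__wS_32_wQ_26_wN_1_rb8033061e24_d42_d25_d51_d1a_15 : GoodKC AS k_wS_32_wQ_26_wN_1_rb8033061e24_d42_d25_d51_d1a_15 := p_wS_32_wQ_26_wN_1_rb8033061e24_d42_d25_d51_d1a_15 g__wS_32_wQ_26_wN_1_rb8033061e24_d42_d25_d51_d1a_16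

theorem g__wS_32_wQ_26_wN_1_rb8033061e24_d42_d25_d51_d1a_10 : GoodKC AS k_wS_32_wQ_26_wN_1_rb8033061e24_d42_d25_d51_d1a_10 := p_wS_32_wQ_26_wN_1_rb8033061e24_d42_d25_d51_d1a_10 g__wS_32_wQ_26_wN_1_rb8033061e24_d42_d25_d51_d1a_11 g__wS_32_wQ_26_wN_1_rb8033061e24_d42_d25_d51_d1a_14 g__wS_32_wQ_26_wN_1_rb8033061e24_d42_d25_d51_d1a_15

theorem g__wS_32_wQ_26_wN_1_rb8033061e24_d42_d25_d51_d1a_9 : GoodKC AS k_wS_32_wQ_26_wN_1_rb8033061e24_d42_d25_d51_d1a_9 := p_wS_32_wQ_26_wN_1_rb8033061e24_d42_d25_d51_d1a_9 g__wS_32_wQ_26_wN_1_rb8033061e24_d42_d25_d51_d1a_10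

theorem g__wS_32_wQ_26_wN_1_rb8033061e24_d42_d25_d51_d1a_22 : GoodKC AS k_wS_32_wQ_26_wN_1_rb8033061e24_d42_d25_d51_d1a_22 := p_wS_32_wQ_26_wN_1_rb8033061e24_d42_d25_d51_d1a_22

theorem g__wS_32_wQ_26_wN_1_rb8033061e24_d42_d25_d51_d1a_21 : GoodKC AS k_wS_32_wQ_26_wN_1_rb8033061e24_d42_d25_d51_d1a_21 := p_wS_32_wQ_26_wN_1_rb8033061e24_d42_d25_d51_d1a_21 g__wS_32_wQ_26_wN_1_rb8033061e24_d42_d25_d51_d1a_22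

theorem g__wS_32_wQ_26_wN_1_rb8033061e24_d42_d25_d51_d1a_23 : GoodKC AS k_wS_32_wQ_26_wN_1_rb8033061e24_d42_d25_d51_d1a_23 := p_wS_32_wQ_26_wN_1_rb8033061e24_d42_d25_d51_d1a_23

theorem g__wS_32_wQ_26_wN_1_rb8033061e24_d42_d25_d51_d1a_20 : GoodKC AS k_wS_32_wQ_26_wN_1_rb8033061e24_d42_d25_d51_d1a_20 := p_wS_32_wQ_26_wN_1_rb8033061e24_d42_d25_d51_d1a_20 g__wS_32_wQ_26_wN_1_rb8033061e24_d42_d25_d51_d1a_21 g__wS_32_wQ_26_wN_1_rb8033061e24_d42_d25_d51_d1a_23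

theorem g__wS_32_wQ_26_wN_1_rb8033061e24_d42_d25_d51_d1a_19 : GoodKC AS k_wS_32_wQ_26_wN_1_rb8033061e24_d42_d25_d51_d1a_19 := p_wS_32_wQ_26_wN_1_rb8033061e24_d42_d25_d51_d1a_19 g__wS_32_wQ_26_wN_1_rb8033061e24_d42_d25_d51_d1a_20

theorem g__wS_32_wQ_26_wN_1_rb8033061e24_d42_d25_d51_d1a_7 : GoodKC AS k_wS_32_wQ_26_wN_1_rb8033061e24_d42_d25_d51_d1a_7 := p_wS_32_wQ_26_wN_1_rb8033061e24_d42_d25_d51_d1a_7 g__wS_32_wQ_26_wN_1_rb8033061e24_d42_d25_d51_d1a_8 g__wS_32_wQ_26_wN_1_rb8033061e24_d42_d25_d51_d1a_9 g__wS_32_wQ_26_wN_1_rb8033061e24_d42_d25_d51_d1a_19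

theorem g__wS_32_wQ_26_wN_1_rb8033061e24_d42_d25_d51_d1a_6 : GoodKC AS k_wS_32_wQ_26_wN_1_rb8033061e24_d42_d25_d51_d1a_6 := p_wS_32_wQ_26_wN_1_rb8033061e24_d42_d25_d51_d1a_6 g__wS_32_wQ_26_wN_1_rb8033061e24_d42_d25_d51_d1a_7

theorem g__wS_32_wQ_26_wN_1_rb8033061e24_d42_d25_d51_d1a_5 : GoodKC AS k_wS_32_wQ_26_wN_1_rb8033061e24_d42_d25_d51_d1a_5 := p_wS_32_wQ_26_wN_1_rb8033061e24_d42_d25_d51_d1a_5 g__wS_32_wQ_26_wN_1_rb8033061e24_d42_d25_d51_d1a_6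

theorem g__wS_32_wQ_26_wN_1_rb8033061e24_d42_d25_d51_d1a_3 : GoodKC AS k_wS_32_wQ_26_wN_1_rb8033061e24_d42_d25_d51_d1a_3 := p_wS_32_wQ_26_wN_1_rb8033061e24_d42_d25_d51_d1a_3 g__wS_32_wQ_26_wN_1_rb8033061e24_d42_d25_d51_d1a_4 g__wS_32_wQ_26_wN_1_rb8033061e24_d42_d25_d51_d1a_5

theorem g__wS_32_wQ_26_wN_1_rb8033061e24_d42_d25_d51_d1a_0 : GoodKC AS k_wS_32_wQ_26_wN_1_rb8033061e24_d42_d25_d51_d1a_0 := p_wS_32_wQ_26_wN_1_rb8033061e24_d42_d25_d51_d1a_0 g__wS_32_wQ_26_wN_1_rb8033061e24_d42_d25_d51_d1a_1 g__wS_32_wQ_26_wN_1_rb8033061e24_d42_d25_d51_d1a_3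

theorem g_wS_32_wQ_26_wN_1_rb8033061e24_d42_d25_d51_d1ax2 : GoodKC AS c_wS_32_wQ_26_wN_1_rb8033061e24_d42_d25_d51_d1ax2 := p_wS_32_wQ_26_wN_1_rb8033061e24_d42_d25_d51_d1a g__wS_32_wQ_26_wN_1_rb8033061e24_d42_d25_d51_d1a_0

theorem g_wS_32_wQ_26_wN_1_rb8033061e24_d42_d25_d51_d19x2 : GoodKC AS c_wS_32_wQ_26_wN_1_rb8033061e24_d42_d25_d51_d19x2 := p_wS_32_wQ_26_wN_1_rb8033061e24_d42_d25_d51_d19

theorem g_wS_32_wQ_26_wN_1_rb8033061e24_d42_d25_d51_d15x2 : GoodKC AS c_wS_32_wQ_26_wN_1_rb8033061e24_d42_d25_d51_d15x2 := p_wS_32_wQ_26_wN_1_rb8033061e24_d42_d25_d51_d15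

theorem g_wS_32_wQ_26_wN_1_rb8033061e24_d42_d25_d51_d12x2 : GoodKC AS c_wS_32_wQ_26_wN_1_rb8033061e24_d42_d25_d51_d12x2 := p_wS_32_wQ_26_wN_1_rb8033061e24_d42_d25_d51_d12

theorem g_wS_32_wQ_26_wN_1_rb8033061e24_d42_d25_d51_d11x2 : GoodKC AS c_wS_32_wQ_26_wN_1_rb8033061e24_d42_d25_d51_d11x2 := p_wS_32_wQ_26_wN_1_rb8033061e24_d42_d25_d51_d11

theorem g_wS_32_wQ_26_wN_1_rb8033061e24_d42_d25_d51_d10x2 : GoodKC AS c_wS_32_wQ_26_wN_1_rb8033061e24_d42_d25_d51_d10x2 := p_wS_32_wQ_26_wN_1_rb8033061e24_d42_d25_d51_d10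

theorem g_wS_32_wQ_26_wN_1_rb8033061e24_d42_d25_d51_d0cx2 : GoodKC AS c_wS_32_wQ_26_wN_1_rb8033061e24_d42_d25_d51_d0cx2 := p_wS_32_wQ_26_wN_1_rb8033061e24_d42_d25_d51_d0c

theorem g__wS_32_wQ_26_wN_1_rb8033061e24_d42_d25_d51_d0b_4 : GoodKC AS k_wS_32_wQ_26_wN_1_rb8033061e24_d42_d25_d51_d0b_4 := p_wS_32_wQ_26_wN_1_rb8033061e24_d42_d25_d51_d0b_4

theorem g__wS_32_wQ_26_wN_1_rb8033061e24_d42_d25_d51_d0b_3 : GoodKC AS k_wS_32_wQ_26_wN_1_rb8033061e24_d42_d25_d51_d0b_3 := p_wS_32_wQ_26_wN_1_rb8033061e24_d42_d25_d51_d0b_3 g__wS_32_wQ_26_wN_1_rb8033061e24_d42_d25_d51_d0b_4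

theorem g__wS_32_wQ_26_wN_1_rb8033061e24_d42_d25_d51_d0b_2 : GoodKC AS k_wS_32_wQ_26_wN_1_rb8033061e24_d42_d25_d51_d0b_2 := p_wS_32_wQ_26_wN_1_rb8033061e24_d42_d25_d51_d0b_2 g__wS_32_wQ_26_wN_1_rb8033061e24_d42_d25_d51_d0b_3

theorem g__wS_32_wQ_26_wN_1_rb8033061e24_d42_d25_d51_d0b_1 : GoodKC AS k_wS_32_wQ_26_wN_1_rb8033061e24_d42_d25_d51_d0b_1 := p_wS_32_wQ_26_wN_1_rb8033061e24_d42_d25_d51_d0b_1 g__wS_32_wQ_26_wN_1_rb8033061e24_d42_d25_d51_d0b_2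

theorem g__wS_32_wQ_26_wN_1_rb8033061e24_d42_d25_d51_d0b_0 : GoodKC AS k_wS_32_wQ_26_wN_1_rb8033061e24_d42_d25_d51_d0b_0 := p_wS_32_wQ_26_wN_1_rb8033061e24_d42_d25_d51_d0b_0 g__wS_32_wQ_26_wN_1_rb8033061e24_d42_d25_d51_d0b_1

theorem g_wS_32_wQ_26_wN_1_rb8033061e24_d42_d25_d51_d0bx2 : GoodKC AS c_wS_32_wQ_26_wN_1_rb8033061e24_d42_d25_d51_d0bx2 := p_wS_32_wQ_26_wN_1_rb8033061e24_d42_d25_d51_d0b g__wS_32_wQ_26_wN_1_rb8033061e24_d42_d25_d51_d0b_0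

theorem g__wS_32_wQ_26_wN_1_rb8033061e24_d42_d25x2_0 : GoodKC AS k_wS_32_wQ_26_wN_1_rb8033061e24_d42_d25x2_0 := p_wS_32_wQ_26_wN_1_rb8033061e24_d42_d25x2_0

theorem g_wS_32_wQ_26_wN_1_rb8033061e24_d42_d25_d51_d09x2 : GoodKC AS c_wS_32_wQ_26_wN_1_rb8033061e24_d42_d25_d51_d09x2 := p_wS_32_wQ_26_wN_1_rb8033061e24_d42_d25_d51_d09

theorem g_wS_32_wQ_26_wN_1_rb8033061e24_d42_d25_d51_d08x2 : GoodKC AS c_wS_32_wQ_26_wN_1_rb8033061e24_d42_d25_d51_d08x2 := p_wS_32_wQ_26_wN_1_rb8033061e24_d42_d25_d51_d08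

theorem g_wS_32_wQ_26_wN_1_rb8033061e24_d42_d25_d51_d07x2 : GoodKC AS c_wS_32_wQ_26_wN_1_rb8033061e24_d42_d25_d51_d07x2 := p_wS_32_wQ_26_wN_1_rb8033061e24_d42_d25_d51_d07

theorem g_wS_32_wQ_26_wN_1_rb8033061e24_d42_d25_d51_d02x2 : GoodKC AS c_wS_32_wQ_26_wN_1_rb8033061e24_d42_d25_d51_d02x2 := p_wS_32_wQ_26_wN_1_rb8033061e24_d42_d25_d51_d02

theorem g_wS_32_wQ_26_wN_1_rb8033061e24_d42_d25_d51_d01x2 : GoodKC AS c_wS_32_wQ_26_wN_1_rb8033061e24_d42_d25_d51_d01x2 := p_wS_32_wQ_26_wN_1_rb8033061e24_d42_d25_d51_d01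

theorem g_wS_32_wQ_26_wN_1_rb8033061e24_d42_d25_d51_d00x2 : GoodKC AS c_wS_32_wQ_26_wN_1_rb8033061e24_d42_d25_d51_d00x2 := p_wS_32_wQ_26_wN_1_rb8033061e24_d42_d25_d51_d00

theorem g_wS_32_wQ_26_wN_1_rb8033061e24_d42_d25_d51_d03x2 : GoodKC AS c_wS_32_wQ_26_wN_1_rb8033061e24_d42_d25_d51_d03x2 := p_wS_32_wQ_26_wN_1_rb8033061e24_d42_d25_d51_d03

theorem g_wS_32_wQ_26_wN_1_rb8033061e24_d42_d25_d51_d04x2 : GoodKC AS c_wS_32_wQ_26_wN_1_rb8033061e24_d42_d25_d51_d04x2 := p_wS_32_wQ_26_wN_1_rb8033061e24_d42_d25_d51_d04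

theorem g_wS_32_wQ_26_wN_1_rb8033061e24_d42_d25_d51_d05x2 : GoodKC AS c_wS_32_wQ_26_wN_1_rb8033061e24_d42_d25_d51_d05x2 := p_wS_32_wQ_26_wN_1_rb8033061e24_d42_d25_d51_d05

theorem g_wS_32_wQ_26_wN_1_rb8033061e24_d42_d25_d51_d06x2 : GoodKC AS c_wS_32_wQ_26_wN_1_rb8033061e24_d42_d25_d51_d06x2 := p_wS_32_wQ_26_wN_1_rb8033061e24_d42_d25_d51_d06

theorem g_wS_32_wQ_26_wN_1_rb8033061e24_d42_d25_d51_d0ax2 : GoodKC AS c_wS_32_wQ_26_wN_1_rb8033061e24_d42_d25_d51_d0ax2 := p_wS_32_wQ_26_wN_1_rb8033061e24_d42_d25_d51_d0a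

theorem g_wS_32_wQ_26_wN_1_rb8033061e24_d42_d25_d51_d0dx2 : GoodKC AS c_wS_32_wQ_26_wN_1_rb8033061e24_d42_d25_d51_d0dx2 := p_wS_32_wQ_26_wN_1_rb8033061e24_d42_d25_d51_d0d

theorem g__wS_32_wQ_26_wN_1_rb8033061e24_d42_d25_d51_d0e_0 : GoodKC AS k_wS_32_wQ_26_wN_1_rb8033061e24_d42_d25_d51_d0e_0 := p_wS_32_wQ_26_wN_1_rb8033061e24_d42_d25_d51_d0e_0

theorem g_wS_32_wQ_26_wN_1_rb8033061e24_d42_d25_d51_d0ex2 : GoodKC AS c_wS_32_wQ_26_wN_1_rb8033061e24_d42_d25_d51_d0ex2 := p_wS_32_wQ_26_wN_1_rb8033061e24_d42_d25_d51_d0e g__wS_32_wQ_26_wN_1_rb8033061e24_d42_d25_d51_d0e_0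

theorem g_wS_32_wQ_26_wN_1_rb8033061e24_d42_d25_d51_d0fx2 : GoodKC AS c_wS_32_wQ_26_wN_1_rb8033061e24_d42_d25_d51_d0fx2 := p_wS_32_wQ_26_wN_1_rb8033061e24_d42_d25_d51_d0f

theorem g_wS_32_wQ_26_wN_1_rb8033061e24_d42_d25_d51_d13x2 : GoodKC AS c_wS_32_wQ_26_wN_1_rb8033061e24_d42_d25_d51_d13x2 := p_wS_32_wQ_26_wN_1_rb8033061e24_d42_d25_d51_d13

theorem g_wS_32_wQ_26_wN_1_rb8033061e24_d42_d25_d51_d14x2 : GoodKC AS c_wS_32_wQ_26_wN_1_rb8033061e24_d42_d25_d51_d14x2 := p_wS_32_wQ_26_wN_1_rb8033061e24_d42_d25_d51_d14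

theorem g_wS_32_wQ_26_wN_1_rb8033061e24_d42_d25_d51_d16x2 : GoodKC AS c_wS_32_wQ_26_wN_1_rb8033061e24_d42_d25_d51_d16x2 := p_wS_32_wQ_26_wN_1_rb8033061e24_d42_d25_d51_d16

theorem g_wS_32_wQ_26_wN_1_rb8033061e24_d42_d25_d51_d17x2 : GoodKC AS c_wS_32_wQ_26_wN_1_rb8033061e24_d42_d25_d51_d17x2 := p_wS_32_wQ_26_wN_1_rb8033061e24_d42_d25_d51_d17

theorem g_wS_32_wQ_26_wN_1_rb8033061e24_d42_d25_d51_d18x2 : GoodKC AS c_wS_32_wQ_26_wN_1_rb8033061e24_d42_d25_d51_d18x2 := p_wS_32_wQ_26_wN_1_rb8033061e24_d42_d25_d51_d18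

theorem g__wS_32_wQ_26_wN_1_rb8033061e24_d42_d25_d51_d21_0 : GoodKC AS k_wS_32_wQ_26_wN_1_rb8033061e24_d42_d25_d51_d21_0 := p_wS_32_wQ_26_wN_1_rb8033061e24_d42_d25_d51_d21_0

theorem g__wS_32_wQ_26_wN_1_rb8033061e24_d42_d25_d51_d21_5 : GoodKC AS k_wS_32_wQ_26_wN_1_rb8033061e24_d42_d25_d51_d21_5 := p_wS_32_wQ_26_wN_1_rb8033061e24_d42_d25_d51_d21_5

theorem g__wS_32_wQ_26_wN_1_rb8033061e24_d42_d25_d51_d21_4 : GoodKC AS k_wS_32_wQ_26_wN_1_rb8033061e24_d42_d25_d51_d21_4 := p_wS_32_wQ_26_wN_1_rb8033061e24_d42_d25_d51_d21_4 g__wS_32_wQ_26_wN_1_rb8033061e24_d42_d25_d51_d21_5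

theorem g__wS_32_wQ_26_wN_1_rb8033061e24_d42_d25_d51_d21_3 : GoodKC AS k_wS_32_wQ_26_wN_1_rb8033061e24_d42_d25_d51_d21_3 := p_wS_32_wQ_26_wN_1_rb8033061e24_d42_d25_d51_d21_3 g__wS_32_wQ_26_wN_1_rb8033061e24_d42_d25_d51_d21_4

theorem g__wS_32_wQ_26_wN_1_rb8033061e24_d42_d25_d51_d21_2 : GoodKC AS k_wS_32_wQ_26_wN_1_rb8033061e24_d42_d25_d51_d21_2 := p_wS_32_wQ_26_wN_1_rb8033061e24_d42_d25_d51_d21_2 g__wS_32_wQ_26_wN_1_rb8033061e24_d42_d25_d51_d21_3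

theorem g__wS_32_wQ_26_wN_1_rb8033061e24_d42_d25_d51_d21_6 : GoodKC AS k_wS_32_wQ_26_wN_1_rb8033061e24_d42_d25_d51_d21_6 := p_wS_32_wQ_26_wN_1_rb8033061e24_d42_d25_d51_d21_6

theorem g__wS_32_wQ_26_wN_1_rb8033061e24_d42_d25_d51_d21_7 : GoodKC AS k_wS_32_wQ_26_wN_1_rb8033061e24_d42_d25_d51_d21_7 := p_wS_32_wQ_26_wN_1_rb8033061e24_d42_d25_d51_d21_7

theorem g__wS_32_wQ_26_wN_1_rb8033061e24_d42_d25_d51_d21_1 : GoodKC AS k_wS_32_wQ_26_wN_1_rb8033061e24_d42_d25_d51_d21_1 := p_wS_32_wQ_26_wN_1_rb8033061e24_d42_d25_d51_d21_1 g__wS_32_wQ_26_wN_1_rb8033061e24_d42_d25_d51_d21_2 g__wS_32_wQ_26_wN_1_rb8033061e24_d42_d25_d51_d21_6 g__wS_32_wQ_26_wN_1_rb8033061e24_d42_d25_d51_d21_7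

theorem g_wS_32_wQ_26_wN_1_rb8033061e24_d42_d25_d51_d21x2 : GoodKC AS c_wS_32_wQ_26_wN_1_rb8033061e24_d42_d25_d51_d21x2 := p_wS_32_wQ_26_wN_1_rb8033061e24_d42_d25_d51_d21 g__wS_32_wQ_26_wN_1_rb8033061e24_d42_d25_d51_d21_0 g__wS_32_wQ_26_wN_1_rb8033061e24_d42_d25_d51_d21_1

theorem g__wS_32_wQ_26_wN_1_rb8033061e24_d42_d25_d51_d27_0 : GoodKC AS k_wS_32_wQ_26_wN_1_rb8033061e24_d42_d25_d51_d27_0 := p_wS_32_wQ_26_wN_1_rb8033061e24_d42_d25_d51_d27_0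

theorem g_wS_32_wQ_26_wN_1_rb8033061e24_d42_d25_d51_d27x2 : GoodKC AS c_wS_32_wQ_26_wN_1_rb8033061e24_d42_d25_d51_d27x2 := p_wS_32_wQ_26_wN_1_rb8033061e24_d42_d25_d51_d27 g__wS_32_wQ_26_wN_1_rb8033061e24_d42_d25_d51_d27_0

theorem g__wS_32_wQ_26_wN_1_rb8033061e24_d42_d25_d51_d2a12_1 : GoodKC AS k_wS_32_wQ_26_wN_1_rb8033061e24_d42_d25_d51_d2a12_1 := p_wS_32_wQ_26_wN_1_rb8033061e24_d42_d25_d51_d2a12_1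

theorem g__wS_32_wQ_26_wN_1_rb8033061e24_d42_d25_d51_d2a12_0 : GoodKC AS k_wS_32_wQ_26_wN_1_rb8033061e24_d42_d25_d51_d2a12_0 := p_wS_32_wQ_26_wN_1_rb8033061e24_d42_d25_d51_d2a12_0 g__wS_32_wQ_26_wN_1_rb8033061e24_d42_d25_d51_d2a12_1

theorem g_wS_32_wQ_26_wN_1_rb8033061e24_d42_d25_d51_d2a12 : GoodKC AS c_wS_32_wQ_26_wN_1_rb8033061e24_d42_d25_d51_d2a12 := p_wS_32_wQ_26_wN_1_rb8033061e24_d42_d25_d51_d2a12 g__wS_32_wQ_26_wN_1_rb8033061e24_d42_d25_d51_d2a12_0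

theorem g_wS_32_wQ_26_wN_1_rb8033061e24_d42_d25_d51_d2a11 : GoodKC AS c_wS_32_wQ_26_wN_1_rb8033061e24_d42_d25_d51_d2a11 := p_wS_32_wQ_26_wN_1_rb8033061e24_d42_d25_d51_d2a11

theorem g_wS_32_wQ_26_wN_1_rb8033061e24_d42_d25_d51_d2a0c : GoodKC AS c_wS_32_wQ_26_wN_1_rb8033061e24_d42_d25_d51_d2a0c := p_wS_32_wQ_26_wN_1_rb8033061e24_d42_d25_d51_d2a0c

theorem g_wS_32_wQ_26_wN_1_rb8033061e24_d42_d25_d51_d2a0b : GoodKC AS c_wS_32_wQ_26_wN_1_rb8033061e24_d42_d25_d51_d2a0b := p_wS_32_wQ_26_wN_1_rb8033061e24_d42_d25_d51_d2a0b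

theorem g_wS_32_wQ_26_wN_1_rb8033061e24_d42_d25_d51_d2a09 : GoodKC AS c_wS_32_wQ_26_wN_1_rb8033061e24_d42_d25_d51_d2a09 := p_wS_32_wQ_26_wN_1_rb8033061e24_d42_d25_d51_d2a09

theorem g_wS_32_wQ_26_wN_1_rb8033061e24_d42_d25_d51_d2a08 : GoodKC AS c_wS_32_wQ_26_wN_1_rb8033061e24_d42_d25_d51_d2a08 := p_wS_32_wQ_26_wN_1_rb8033061e24_d42_d25_d51_d2a08

theorem g__wS_32_wQ_26_wN_1_rb8033061e24_d42_d25_d51_d2a_4 : GoodKC AS k_wS_32_wQ_26_wN_1_rb8033061e24_d42_d25_d51_d2a_4 := p_wS_32_wQ_26_wN_1_rb8033061e24_d42_d25_d51_d2a_4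

theorem g__wS_32_wQ_26_wN_1_rb8033061e24_d42_d25_d51_d2a_3 : GoodKC AS k_wS_32_wQ_26_wN_1_rb8033061e24_d42_d25_d51_d2a_3 := p_wS_32_wQ_26_wN_1_rb8033061e24_d42_d25_d51_d2a_3 g__wS_32_wQ_26_wN_1_rb8033061e24_d42_d25_d51_d2a_4

theorem g__wS_32_wQ_26_wN_1_rb8033061e24_d42_d25_d51_d2a_2 : GoodKC AS k_wS_32_wQ_26_wN_1_rb8033061e24_d42_d25_d51_d2a_2 := p_wS_32_wQ_26_wN_1_rb8033061e24_d42_d25_d51_d2a_2 g__wS_32_wQ_26_wN_1_rb8033061e24_d42_d25_d51_d2a_3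

theorem g__wS_32_wQ_26_wN_1_rb8033061e24_d42_d25_d51_d2a_1 : GoodKC AS k_wS_32_wQ_26_wN_1_rb8033061e24_d42_d25_d51_d2a_1 := p_wS_32_wQ_26_wN_1_rb8033061e24_d42_d25_d51_d2a_1 g__wS_32_wQ_26_wN_1_rb8033061e24_d42_d25_d51_d2a_2

theorem g__wS_32_wQ_26_wN_1_rb8033061e24_d42_d25_d51_d2a_6 : GoodKC AS k_wS_32_wQ_26_wN_1_rb8033061e24_d42_d25_d51_d2a_6 := p_wS_32_wQ_26_wN_1_rb8033061e24_d42_d25_d51_d2a_6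

theorem g__wS_32_wQ_26_wN_1_rb8033061e24_d42_d25_d51_d2a_10 : GoodKC AS k_wS_32_wQ_26_wN_1_rb8033061e24_d42_d25_d51_d2a_10 := p_wS_32_wQ_26_wN_1_rb8033061e24_d42_d25_d51_d2a_10

theorem g__wS_32_wQ_26_wN_1_rb8033061e24_d42_d25_d51_d2a_11 : GoodKC AS k_wS_32_wQ_26_wN_1_rb8033061e24_d42_d25_d51_d2a_11 := p_wS_32_wQ_26_wN_1_rb8033061e24_d42_d25_d51_d2a_11

theorem g__wS_32_wQ_26_wN_1_rb8033061e24_d42_d25_d51_d2a_9 : GoodKC AS k_wS_32_wQ_26_wN_1_rb8033061e24_d42_d25_d51_d2a_9 := p_wS_32_wQ_26_wN_1_rb8033061e24_d42_d25_d51_d2a_9 g__wS_32_wQ_26_wN_1_rb8033061e24_d42_d25_d51_d2a_10 g__wS_32_wQ_26_wN_1_rb8033061e24_d42_d25_d51_d2a_11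

theorem g__wS_32_wQ_26_wN_1_rb8033061e24_d42_d25_d51_d2a_8 : GoodKC AS k_wS_32_wQ_26_wN_1_rb8033061e24_d42_d25_d51_d2a_8 := p_wS_32_wQ_26_wN_1_rb8033061e24_d42_d25_d51_d2a_8 g__wS_32_wQ_26_wN_1_rb8033061e24_d42_d25_d51_d2a_9

theorem g__wS_32_wQ_26_wN_1_rb8033061e24_d42_d25_d51_d2a_7 : GoodKC AS k_wS_32_wQ_26_wN_1_rb8033061e24_d42_d25_d51_d2a_7 := p_wS_32_wQ_26_wN_1_rb8033061e24_d42_d25_d51_d2a_7 g__wS_32_wQ_26_wN_1_rb8033061e24_d42_d25_d51_d2a_8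

theorem g__wS_32_wQ_26_wN_1_rb8033061e24_d42_d25_d51_d2a_14 : GoodKC AS k_wS_32_wQ_26_wN_1_rb8033061e24_d42_d25_d51_d2a_14 := p_wS_32_wQ_26_wN_1_rb8033061e24_d42_d25_d51_d2a_14

theorem g__wS_32_wQ_26_wN_1_rb8033061e24_d42_d25_d51_d2a_15 : GoodKC AS k_wS_32_wQ_26_wN_1_rb8033061e24_d42_d25_d51_d2a_15 := p_wS_32_wQ_26_wN_1_rb8033061e24_d42_d25_d51_d2a_15

theorem g__wS_32_wQ_26_wN_1_rb8033061e24_d42_d25_d51_d2a_22 : GoodKC AS k_wS_32_wQ_26_wN_1_rb8033061e24_d42_d25_d51_d2a_22 := p_wS_32_wQ_26_wN_1_rb8033061e24_d42_d25_d51_d2a_22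

theorem g__wS_32_wQ_26_wN_1_rb8033061e24_d42_d25_d51_d2a_21 : GoodKC AS k_wS_32_wQ_26_wN_1_rb8033061e24_d42_d25_d51_d2a_21 := p_wS_32_wQ_26_wN_1_rb8033061e24_d42_d25_d51_d2a_21 g__wS_32_wQ_26_wN_1_rb8033061e24_d42_d25_d51_d2a_22

theorem g__wS_32_wQ_26_wN_1_rb8033061e24_d42_d25_d51_d2a_20 : GoodKC AS k_wS_32_wQ_26_wN_1_rb8033061e24_d42_d25_d51_d2a_20 := p_wS_32_wQ_26_wN_1_rb8033061e24_d42_d25_d51_d2a_20 g__wS_32_wQ_26_wN_1_rb8033061e24_d42_d25_d51_d2a_21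

theorem g__wS_32_wQ_26_wN_1_rb8033061e24_d42_d25_d51_d2a_25 : GoodKC AS k_wS_32_wQ_26_wN_1_rb8033061e24_d42_d25_d51_d2a_25 := p_wS_32_wQ_26_wN_1_rb8033061e24_d42_d25_d51_d2a_25

theorem g__wS_32_wQ_26_wN_1_rb8033061e24_d42_d25_d51_d2a_24 : GoodKC AS k_wS_32_wQ_26_wN_1_rb8033061e24_d42_d25_d51_d2a_24 := p_wS_32_wQ_26_wN_1_rb8033061e24_d42_d25_d51_d2a_24 g__wS_32_wQ_26_wN_1_rb8033061e24_d42_d25_d51_d2a_25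

theorem g__wS_32_wQ_26_wN_1_rb8033061e24_d42_d25_d51_d2a_23 : GoodKC AS k_wS_32_wQ_26_wN_1_rb8033061e24_d42_d25_d51_d2a_23 := p_wS_32_wQ_26_wN_1_rb8033061e24_d42_d25_d51_d2a_23 g__wS_32_wQ_26_wN_1_rb8033061e24_d42_d25_d51_d2a_24

theorem g__wS_32_wQ_26_wN_1_rb8033061e24_d42_d25_d51_d2a_19 : GoodKC AS k_wS_32_wQ_26_wN_1_rb8033061e24_d42_d25_d51_d2a_19 := p_wS_32_wQ_26_wN_1_rb8033061e24_d42_d25_d51_d2a_19 g__wS_32_wQ_26_wN_1_rb8033061e24_d42_d25_d51_d2a_20 g__wS_32_wQ_26_wN_1_rb8033061e24_d42_d25_d51_d2a_23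

theorem g__wS_32_wQ_26_wN_1_rb8033061e24_d42_d25_d51_d2a_18 : GoodKC AS k_wS_32_wQ_26_wN_1_rb8033061e24_d42_d25_d51_d2a_18 := p_wS_32_wQ_26_wN_1_rb8033061e24_d42_d25_d51_d2a_18 g__wS_32_wQ_26_wN_1_rb8033061e24_d42_d25_d51_d2a_19

theorem g__wS_32_wQ_26_wN_1_rb8033061e24_d42_d25_d51_d2a_17 : GoodKC AS k_wS_32_wQ_26_wN_1_rb8033061e24_d42_d25_d51_d2a_17 := p_wS_32_wQ_26_wN_1_rb8033061e24_d42_d25_d51_d2a_17 g__wS_32_wQ_26_wN_1_rb8033061e24_d42_d25_d51_d2a_18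

theorem g__wS_32_wQ_26_wN_1_rb8033061e24_d42_d25_d51_d2a_16 : GoodKC AS k_wS_32_wQ_26_wN_1_rb8033061e24_d42_d25_d51_d2a_16 := p_wS_32_wQ_26_wN_1_rb8033061e24_d42_d25_d51_d2a_16 g__wS_32_wQ_26_wN_1_rb8033061e24_d42_d25_d51_d2a_17

theorem g__wS_32_wQ_26_wN_1_rb8033061e24_d42_d25_d51_d2a_13 : GoodKC AS k_wS_32_wQ_26_wN_1_rb8033061e24_d42_d25_d51_d2a_13 := p_wS_32_wQ_26_wN_1_rb8033061e24_d42_d25_d51_d2a_13 g__wS_32_wQ_26_wN_1_rb8033061e24_d42_d25_d51_d2a_14 g__wS_32_wQ_26_wN_1_rb8033061e24_d42_d25_d51_d2a_15 g__wS_32_wQ_26_wN_1_rb8033061e24_d42_d25_d51_d2a_16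

theorem g__wS_32_wQ_26_wN_1_rb8033061e24_d42_d25_d51_d2a_12 : GoodKC AS k_wS_32_wQ_26_wN_1_rb8033061e24_d42_d25_d51_d2a_12 := p_wS_32_wQ_26_wN_1_rb8033061e24_d42_d25_d51_d2a_12 g__wS_32_wQ_26_wN_1_rb8033061e24_d42_d25_d51_d2a_13

theorem g__wS_32_wQ_26_wN_1_rb8033061e24_d42_d25_d51_d2a_5 : GoodKC AS k_wS_32_wQ_26_wN_1_rb8033061e24_d42_d25_d51_d2a_5 := p_wS_32_wQ_26_wN_1_rb8033061e24_d42_d25_d51_d2a_5 g__wS_32_wQ_26_wN_1_rb8033061e24_d42_d25_d51_d2a_6 g__wS_32_wQ_26_wN_1_rb8033061e24_d42_d25_d51_d2a_7 g__wS_32_wQ_26_wN_1_rb8033061e24_d42_d25_d51_d2a_12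

theorem g__wS_32_wQ_26_wN_1_rb8033061e24_d42_d25_d51_d2a_0 : GoodKC AS k_wS_32_wQ_26_wN_1_rb8033061e24_d42_d25_d51_d2a_0 := p_wS_32_wQ_26_wN_1_rb8033061e24_d42_d25_d51_d2a_0 g__wS_32_wQ_26_wN_1_rb8033061e24_d42_d25_d51_d2a_1 g__wS_32_wQ_26_wN_1_rb8033061e24_d42_d25_d51_d2a_5

theorem g_wS_32_wQ_26_wN_1_rb8033061e24_d42_d25_d51_d2a07 : GoodKC AS c_wS_32_wQ_26_wN_1_rb8033061e24_d42_d25_d51_d2a07 := p_wS_32_wQ_26_wN_1_rb8033061e24_d42_d25_d51_d2a07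

theorem g_wS_32_wQ_26_wN_1_rb8033061e24_d42_d25_d51_d2a01 : GoodKC AS c_wS_32_wQ_26_wN_1_rb8033061e24_d42_d25_d51_d2a01 := p_wS_32_wQ_26_wN_1_rb8033061e24_d42_d25_d51_d2a01

theorem g_wS_32_wQ_26_wN_1_rb8033061e24_d42_d25_d51_d2a0007 : GoodKC AS c_wS_32_wQ_26_wN_1_rb8033061e24_d42_d25_d51_d2a0007 := p_wS_32_wQ_26_wN_1_rb8033061e24_d42_d25_d51_d2a0007

theorem g_wS_32_wQ_26_wN_1_rb8033061e24_d42_d25_d51_d2a0006 : GoodKC AS c_wS_32_wQ_26_wN_1_rb8033061e24_d42_d25_d51_d2a0006 := p_wS_32_wQ_26_wN_1_rb8033061e24_d42_d25_d51_d2a0006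

theorem g_wS_32_wQ_26_wN_1_rb8033061e24_d42_d25_d51_d2a0005 : GoodKC AS c_wS_32_wQ_26_wN_1_rb8033061e24_d42_d25_d51_d2a0005 := p_wS_32_wQ_26_wN_1_rb8033061e24_d42_d25_d51_d2a0005

theorem g_wS_32_wQ_26_wN_1_rb8033061e24_d42_d25_d51_d2a0003 : GoodKC AS c_wS_32_wQ_26_wN_1_rb8033061e24_d42_d25_d51_d2a0003 := p_wS_32_wQ_26_wN_1_rb8033061e24_d42_d25_d51_d2a0003

theorem g_wS_32_wQ_26_wN_1_rb8033061e24_d42_d25_d51_d2a0001 : GoodKC AS c_wS_32_wQ_26_wN_1_rb8033061e24_d42_d25_d51_d2a0001 := p_wS_32_wQ_26_wN_1_rb8033061e24_d42_d25_d51_d2a0001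

theorem g_wS_32_wQ_26_wN_1_rb8033061e24_d42_d25_d51_d2a0000 : GoodKC AS c_wS_32_wQ_26_wN_1_rb8033061e24_d42_d25_d51_d2a0000 := p_wS_32_wQ_26_wN_1_rb8033061e24_d42_d25_d51_d2a0000

theorem g_wS_32_wQ_26_wN_1_rb8033061e24_d42_d25_d51_d2a0002 : GoodKC AS c_wS_32_wQ_26_wN_1_rb8033061e24_d42_d25_d51_d2a0002 := p_wS_32_wQ_26_wN_1_rb8033061e24_d42_d25_d51_d2a0002

theorem g_wS_32_wQ_26_wN_1_rb8033061e24_d42_d25_d51_d2a0004 : GoodKC AS c_wS_32_wQ_26_wN_1_rb8033061e24_d42_d25_d51_d2a0004 := p_wS_32_wQ_26_wN_1_rb8033061e24_d42_d25_d51_d2a0004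

theorem g__wS_32_wQ_26_wN_1_rb8033061e24_d42_d25_d51_d2a00_1 : GoodKC AS k_wS_32_wQ_26_wN_1_rb8033061e24_d42_d25_d51_d2a00_1 := p_wS_32_wQ_26_wN_1_rb8033061e24_d42_d25_d51_d2a00_1

theorem g__wS_32_wQ_26_wN_1_rb8033061e24_d42_d25_d51_d2a00_7 : GoodKC AS k_wS_32_wQ_26_wN_1_rb8033061e24_d42_d25_d51_d2a00_7 := p_wS_32_wQ_26_wN_1_rb8033061e24_d42_d25_d51_d2a00_7

theorem g__wS_32_wQ_26_wN_1_rb8033061e24_d42_d25_d51_d2a00_6 : GoodKC AS k_wS_32_wQ_26_wN_1_rb8033061e24_d42_d25_d51_d2a00_6 := p_wS_32_wQ_26_wN_1_rb8033061e24_d42_d25_d51_d2a00_6 g__wS_32_wQ_26_wN_1_rb8033061e24_d42_d25_d51_d2a00_7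

theorem g__wS_32_wQ_26_wN_1_rb8033061e24_d42_d25_d51_d2a00_9 : GoodKC AS k_wS_32_wQ_26_wN_1_rb8033061e24_d42_d25_d51_d2a00_9 := p_wS_32_wQ_26_wN_1_rb8033061e24_d42_d25_d51_d2a00_9

theorem g__wS_32_wQ_26_wN_1_rb8033061e24_d42_d25_d51_d2a00_8 : GoodKC AS k_wS_32_wQ_26_wN_1_rb8033061e24_d42_d25_d51_d2a00_8 := p_wS_32_wQ_26_wN_1_rb8033061e24_d42_d25_d51_d2a00_8 g__wS_32_wQ_26_wN_1_rb8033061e24_d42_d25_d51_d2a00_9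

theorem g__wS_32_wQ_26_wN_1_rb8033061e24_d42_d25_d51_d2a00_14 : GoodKC AS k_wS_32_wQ_26_wN_1_rb8033061e24_d42_d25_d51_d2a00_14 := p_wS_32_wQ_26_wN_1_rb8033061e24_d42_d25_d51_d2a00_14

theorem g__wS_32_wQ_26_wN_1_rb8033061e24_d42_d25_d51_d2a00_13 : GoodKC AS k_wS_32_wQ_26_wN_1_rb8033061e24_d42_d25_d51_d2a00_13 := p_wS_32_wQ_26_wN_1_rb8033061e24_d42_d25_d51_d2a00_13 g__wS_32_wQ_26_wN_1_rb8033061e24_d42_d25_d51_d2a00_14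

theorem g__wS_32_wQ_26_wN_1_rb8033061e24_d42_d25_d51_d2a00_12 : GoodKC AS k_wS_32_wQ_26_wN_1_rb8033061e24_d42_d25_d51_d2a00_12 := p_wS_32_wQ_26_wN_1_rb8033061e24_d42_d25_d51_d2a00_12 g__wS_32_wQ_26_wN_1_rb8033061e24_d42_d25_d51_d2a00_13

theorem g__wS_32_wQ_26_wN_1_rb8033061e24_d42_d25_d51_d2a00_11 : GoodKC AS k_wS_32_wQ_26_wN_1_rb8033061e24_d42_d25_d51_d2a00_11 := p_wS_32_wQ_26_wN_1_rb8033061e24_d42_d25_d51_d2a00_11 g__wS_32_wQ_26_wN_1_rb8033061e24_d42_d25_d51_d2a00_12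

theorem g__wS_32_wQ_26_wN_1_rb8033061e24_d42_d25_d51_d2a00_10 : GoodKC AS k_wS_32_wQ_26_wN_1_rb8033061e24_d42_d25_d51_d2a00_10 := p_wS_32_wQ_26_wN_1_rb8033061e24_d42_d25_d51_d2a00_10 g__wS_32_wQ_26_wN_1_rb8033061e24_d42_d25_d51_d2a00_11

theorem g__wS_32_wQ_26_wN_1_rb8033061e24_d42_d25_d51_d2a00_5 : GoodKC AS k_wS_32_wQ_26_wN_1_rb8033061e24_d42_d25_d51_d2a00_5 := p_wS_32_wQ_26_wN_1_rb8033061e24_d42_d25_d51_d2a00_5 g__wS_32_wQ_26_wN_1_rb8033061e24_d42_d25_d51_d2a00_6 g__wS_32_wQ_26_wN_1_rb8033061e24_d42_d25_d51_d2a00_8 g__wS_32_wQ_26_wN_1_rb8033061e24_d42_d25_d51_d2a00_10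

theorem g__wS_32_wQ_26_wN_1_rb8033061e24_d42_d25_d51_d2a00_19 : GoodKC AS k_wS_32_wQ_26_wN_1_rb8033061e24_d42_d25_d51_d2a00_19 := p_wS_32_wQ_26_wN_1_rb8033061e24_d42_d25_d51_d2a00_19

theorem g__wS_32_wQ_26_wN_1_rb8033061e24_d42_d25_d51_d2a00_18 : GoodKC AS k_wS_32_wQ_26_wN_1_rb8033061e24_d42_d25_d51_d2a00_18 := p_wS_32_wQ_26_wN_1_rb8033061e24_d42_d25_d51_d2a00_18 g__wS_32_wQ_26_wN_1_rb8033061e24_d42_d25_d51_d2a00_19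

theorem g__wS_32_wQ_26_wN_1_rb8033061e24_d42_d25_d51_d2a00_21 : GoodKC AS k_wS_32_wQ_26_wN_1_rb8033061e24_d42_d25_d51_d2a00_21 := p_wS_32_wQ_26_wN_1_rb8033061e24_d42_d25_d51_d2a00_21

theorem g__wS_32_wQ_26_wN_1_rb8033061e24_d42_d25_d51_d2a00_20 : GoodKC AS k_wS_32_wQ_26_wN_1_rb8033061e24_d42_d25_d51_d2a00_20 := p_wS_32_wQ_26_wN_1_rb8033061e24_d42_d25_d51_d2a00_20 g__wS_32_wQ_26_wN_1_rb8033061e24_d42_d25_d51_d2a00_21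

theorem g__wS_32_wQ_26_wN_1_rb8033061e24_d42_d25_d51_d2a00_17 : GoodKC AS k_wS_32_wQ_26_wN_1_rb8033061e24_d42_d25_d51_d2a00_17 := p_wS_32_wQ_26_wN_1_rb8033061e24_d42_d25_d51_d2a00_17 g__wS_32_wQ_26_wN_1_rb8033061e24_d42_d25_d51_d2a00_18 g__wS_32_wQ_26_wN_1_rb8033061e24_d42_d25_d51_d2a00_20

theorem g__wS_32_wQ_26_wN_1_rb8033061e24_d42_d25_d51_d2a00_16 : GoodKC AS k_wS_32_wQ_26_wN_1_rb8033061e24_d42_d25_d51_d2a00_16 := p_wS_32_wQ_26_wN_1_rb8033061e24_d42_d25_d51_d2a00_16 g__wS_32_wQ_26_wN_1_rb8033061e24_d42_d25_d51_d2a00_17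

theorem g__wS_32_wQ_26_wN_1_rb8033061e24_d42_d25_d51_d2a00_23 : GoodKC AS k_wS_32_wQ_26_wN_1_rb8033061e24_d42_d25_d51_d2a00_23 := p_wS_32_wQ_26_wN_1_rb8033061e24_d42_d25_d51_d2a00_23

theorem g__wS_32_wQ_26_wN_1_rb8033061e24_d42_d25_d51_d2a00_22 : GoodKC AS k_wS_32_wQ_26_wN_1_rb8033061e24_d42_d25_d51_d2a00_22 := p_wS_32_wQ_26_wN_1_rb8033061e24_d42_d25_d51_d2a00_22 g__wS_32_wQ_26_wN_1_rb8033061e24_d42_d25_d51_d2a00_23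

theorem g__wS_32_wQ_26_wN_1_rb8033061e24_d42_d25_d51_d2a00_15 : GoodKC AS k_wS_32_wQ_26_wN_1_rb8033061e24_d42_d25_d51_d2a00_15 := p_wS_32_wQ_26_wN_1_rb8033061e24_d42_d25_d51_d2a00_15 g__wS_32_wQ_26_wN_1_rb8033061e24_d42_d25_d51_d2a00_16 g__wS_32_wQ_26_wN_1_rb8033061e24_d42_d25_d51_d2a00_22

theorem g__wS_32_wQ_26_wN_1_rb8033061e24_d42_d25_d51_d2a00_4 : GoodKC AS k_wS_32_wQ_26_wN_1_rb8033061e24_d42_d25_d51_d2a00_4 := p_wS_32_wQ_26_wN_1_rb8033061e24_d42_d25_d51_d2a00_4 g__wS_32_wQ_26_wN_1_rb8033061e24_d42_d25_d51_d2a00_5 g__wS_32_wQ_26_wN_1_rb8033061e24_d42_d25_d51_d2a00_15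

theorem g__wS_32_wQ_26_wN_1_rb8033061e24_d42_d25_d51_d2a00_3 : GoodKC AS k_wS_32_wQ_26_wN_1_rb8033061e24_d42_d25_d51_d2a00_3 := p_wS_32_wQ_26_wN_1_rb8033061e24_d42_d25_d51_d2a00_3 g__wS_32_wQ_26_wN_1_rb8033061e24_d42_d25_d51_d2a00_4

theorem g__wS_32_wQ_26_wN_1_rb8033061e24_d42_d25_d51_d2a00_2 : GoodKC AS k_wS_32_wQ_26_wN_1_rb8033061e24_d42_d25_d51_d2a00_2 := p_wS_32_wQ_26_wN_1_rb8033061e24_d42_d25_d51_d2a00_2 g__wS_32_wQ_26_wN_1_rb8033061e24_d42_d25_d51_d2a00_3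

theorem g__wS_32_wQ_26_wN_1_rb8033061e24_d42_d25_d51_d2a00_0 : GoodKC AS k_wS_32_wQ_26_wN_1_rb8033061e24_d42_d25_d51_d2a00_0 := p_wS_32_wQ_26_wN_1_rb8033061e24_d42_d25_d51_d2a00_0 g__wS_32_wQ_26_wN_1_rb8033061e24_d42_d25_d51_d2a00_1 g__wS_32_wQ_26_wN_1_rb8033061e24_d42_d25_d51_d2a00_2

theorem g__wS_32_wQ_26_wN_1_rb8033061e24_d42_d25_d51_d2a00_27 : GoodKC AS k_wS_32_wQ_26_wN_1_rb8033061e24_d42_d25_d51_d2a00_27 := p_wS_32_wQ_26_wN_1_rb8033061e24_d42_d25_d51_d2a00_27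

theorem g__wS_32_wQ_26_wN_1_rb8033061e24_d42_d25_d51_d2a00_26 : GoodKC AS k_wS_32_wQ_26_wN_1_rb8033061e24_d42_d25_d51_d2a00_26 := p_wS_32_wQ_26_wN_1_rb8033061e24_d42_d25_d51_d2a00_26 g__wS_32_wQ_26_wN_1_rb8033061e24_d42_d25_d51_d2a00_27

theorem g__wS_32_wQ_26_wN_1_rb8033061e24_d42_d25_d51_d2a00_25 : GoodKC AS k_wS_32_wQ_26_wN_1_rb8033061e24_d42_d25_d51_d2a00_25 := p_wS_32_wQ_26_wN_1_rb8033061e24_d42_d25_d51_d2a00_25 g__wS_32_wQ_26_wN_1_rb8033061e24_d42_d25_d51_d2a00_26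

theorem g__wS_32_wQ_26_wN_1_rb8033061e24_d42_d25_d51_d2a00_31 : GoodKC AS k_wS_32_wQ_26_wN_1_rb8033061e24_d42_d25_d51_d2a00_31 := p_wS_32_wQ_26_wN_1_rb8033061e24_d42_d25_d51_d2a00_31

theorem g__wS_32_wQ_26_wN_1_rb8033061e24_d42_d25_d51_d2a00_30 : GoodKC AS k_wS_32_wQ_26_wN_1_rb8033061e24_d42_d25_d51_d2a00_30 := p_wS_32_wQ_26_wN_1_rb8033061e24_d42_d25_d51_d2a00_30 g__wS_32_wQ_26_wN_1_rb8033061e24_d42_d25_d51_d2a00_31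

theorem g__wS_32_wQ_26_wN_1_rb8033061e24_d42_d25_d51_d2a00_29 : GoodKC AS k_wS_32_wQ_26_wN_1_rb8033061e24_d42_d25_d51_d2a00_29 := p_wS_32_wQ_26_wN_1_rb8033061e24_d42_d25_d51_d2a00_29 g__wS_32_wQ_26_wN_1_rb8033061e24_d42_d25_d51_d2a00_30

theorem g__wS_32_wQ_26_wN_1_rb8033061e24_d42_d25_d51_d2a00_28 : GoodKC AS k_wS_32_wQ_26_wN_1_rb8033061e24_d42_d25_d51_d2a00_28 := p_wS_32_wQ_26_wN_1_rb8033061e24_d42_d25_d51_d2a00_28 g__wS_32_wQ_26_wN_1_rb8033061e24_d42_d25_d51_d2a00_29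

theorem g__wS_32_wQ_26_wN_1_rb8033061e24_d42_d25_d51_d2a00_32 : GoodKC AS k_wS_32_wQ_26_wN_1_rb8033061e24_d42_d25_d51_d2a00_32 := p_wS_32_wQ_26_wN_1_rb8033061e24_d42_d25_d51_d2a00_32

theorem g__wS_32_wQ_26_wN_1_rb8033061e24_d42_d25_d51_d2a00_24 : GoodKC AS k_wS_32_wQ_26_wN_1_rb8033061e24_d42_d25_d51_d2a00_24 := p_wS_32_wQ_26_wN_1_rb8033061e24_d42_d25_d51_d2a00_24 g__wS_32_wQ_26_wN_1_rb8033061e24_d42_d25_d51_d2a00_25 g__wS_32_wQ_26_wN_1_rb8033061e24_d42_d25_d51_d2a00_28 g__wS_32_wQ_26_wN_1_rb8033061e24_d42_d25_d51_d2a00_32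

theorem g__wS_32_wQ_26_wN_1_rb8033061e24_d42_d25_d51_d2a00_33 : GoodKC AS k_wS_32_wQ_26_wN_1_rb8033061e24_d42_d25_d51_d2a00_33 := p_wS_32_wQ_26_wN_1_rb8033061e24_d42_d25_d51_d2a00_33

theorem g_wS_32_wQ_26_wN_1_rb8033061e24_d42_d25_d51_d2a00 : GoodKC AS c_wS_32_wQ_26_wN_1_rb8033061e24_d42_d25_d51_d2a00 := p_wS_32_wQ_26_wN_1_rb8033061e24_d42_d25_d51_d2a00 g_wS_32_wQ_26_wN_1_rb8033061e24_d42_d25_d51_d2a0007 g_wS_32_wQ_26_wN_1_rb8033061e24_d42_d25_d51_d2a0006 g_wS_32_wQ_26_wN_1_rb8033061e24_d42_d25_d51_d2a0005 g_wS_32_wQ_26_wN_1_rb8033061e24_d42_d25_d51_d2a0003 g_wS_32_wQ_26_wN_1_rb8033061e24_d42_d25_d51_d2a0001 g_wS_32_wQ_26_wN_1_rb8033061e24_d42_d25_d51_d2a0000 g_wS_32_wQ_26_wN_1_rb8033061e24_d42_d25_d51_d2a0002 g_wS_32_wQ_26_wN_1_rb8033061e24_d42_d25_d51_d2a0004 g__wS_32_wQ_26_wN_1_rb8033061e24_d42_d25_d51_d2a00_0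 g__wS_32_wQ_26_wN_1_rb8033061e24_d42_d25_d51_d2a00_24 g__wS_32_wQ_26_wN_1_rb8033061e24_d42_d25_d51_d2a00_33

theorem g_wS_32_wQ_26_wN_1_rb8033061e24_d42_d25_d51_d2a02 : GoodKC AS c_wS_32_wQ_26_wN_1_rb8033061e24_d42_d25_d51_d2a02 := p_wS_32_wQ_26_wN_1_rb8033061e24_d42_d25_d51_d2a02

theorem g_wS_32_wQ_26_wN_1_rb8033061e24_d42_d25_d51_d2a03 : GoodKC AS c_wS_32_wQ_26_wN_1_rb8033061e24_d42_d25_d51_d2a03 := p_wS_32_wQ_26_wN_1_rb8033061e24_d42_d25_d51_d2a03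

theorem g_wS_32_wQ_26_wN_1_rb8033061e24_d42_d25_d51_d2a04 : GoodKC AS c_wS_32_wQ_26_wN_1_rb8033061e24_d42_d25_d51_d2a04 := p_wS_32_wQ_26_wN_1_rb8033061e24_d42_d25_d51_d2a04

theorem g_wS_32_wQ_26_wN_1_rb8033061e24_d42_d25_d51_d2a05 : GoodKC AS c_wS_32_wQ_26_wN_1_rb8033061e24_d42_d25_d51_d2a05 := p_wS_32_wQ_26_wN_1_rb8033061e24_d42_d25_d51_d2a05

theorem g__wS_32_wQ_26_wN_1_rb8033061e24_d42_d25_d51_d2a06_2 : GoodKC AS k_wS_32_wQ_26_wN_1_rb8033061e24_d42_d25_d51_d2a06_2 := p_wS_32_wQ_26_wN_1_rb8033061e24_d42_d25_d51_d2a06_2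

theorem g__wS_32_wQ_26_wN_1_rb8033061e24_d42_d25_d51_d2a06_1 : GoodKC AS k_wS_32_wQ_26_wN_1_rb8033061e24_d42_d25_d51_d2a06_1 := p_wS_32_wQ_26_wN_1_rb8033061e24_d42_d25_d51_d2a06_1 g__wS_32_wQ_26_wN_1_rb8033061e24_d42_d25_d51_d2a06_2

theorem g__wS_32_wQ_26_wN_1_rb8033061e24_d42_d25_d51_d2a06_0 : GoodKC AS k_wS_32_wQ_26_wN_1_rb8033061e24_d42_d25_d51_d2a06_0 := p_wS_32_wQ_26_wN_1_rb8033061e24_d42_d25_d51_d2a06_0 g__wS_32_wQ_26_wN_1_rb8033061e24_d42_d25_d51_d2a06_1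

theorem g_wS_32_wQ_26_wN_1_rb8033061e24_d42_d25_d51_d2a06 : GoodKC AS c_wS_32_wQ_26_wN_1_rb8033061e24_d42_d25_d51_d2a06 := p_wS_32_wQ_26_wN_1_rb8033061e24_d42_d25_d51_d2a06 g__wS_32_wQ_26_wN_1_rb8033061e24_d42_d25_d51_d2a06_0

theorem g__wS_32_wQ_26_wN_1_rb8033061e24_d42_d25_d51_d2a_27 : GoodKC AS k_wS_32_wQ_26_wN_1_rb8033061e24_d42_d25_d51_d2a_27 := p_wS_32_wQ_26_wN_1_rb8033061e24_d42_d25_d51_d2a_27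

theorem g__wS_32_wQ_26_wN_1_rb8033061e24_d42_d25_d51_d2a_30 : GoodKC AS k_wS_32_wQ_26_wN_1_rb8033061e24_d42_d25_d51_d2a_30 := p_wS_32_wQ_26_wN_1_rb8033061e24_d42_d25_d51_d2a_30

theorem g__wS_32_wQ_26_wN_1_rb8033061e24_d42_d25_d51_d2a_29 : GoodKC AS k_wS_32_wQ_26_wN_1_rb8033061e24_d42_d25_d51_d2a_29 := p_wS_32_wQ_26_wN_1_rb8033061e24_d42_d25_d51_d2a_29 g__wS_32_wQ_26_wN_1_rb8033061e24_d42_d25_d51_d2a_30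

theorem g__wS_32_wQ_26_wN_1_rb8033061e24_d42_d25_d51_d2a_28 : GoodKC AS k_wS_32_wQ_26_wN_1_rb8033061e24_d42_d25_d51_d2a_28 := p_wS_32_wQ_26_wN_1_rb8033061e24_d42_d25_d51_d2a_28 g__wS_32_wQ_26_wN_1_rb8033061e24_d42_d25_d51_d2a_29

theorem g__wS_32_wQ_26_wN_1_rb8033061e24_d42_d25_d51_d2a_26 : GoodKC AS k_wS_32_wQ_26_wN_1_rb8033061e24_d42_d25_d51_d2a_26 := p_wS_32_wQ_26_wN_1_rb8033061e24_d42_d25_d51_d2a_26 g__wS_32_wQ_26_wN_1_rb8033061e24_d42_d25_d51_d2a_27 g__wS_32_wQ_26_wN_1_rb8033061e24_d42_d25_d51_d2a_28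

theorem g_wS_32_wQ_26_wN_1_rb8033061e24_d42_d25_d51_d2a0a : GoodKC AS c_wS_32_wQ_26_wN_1_rb8033061e24_d42_d25_d51_d2a0a := p_wS_32_wQ_26_wN_1_rb8033061e24_d42_d25_d51_d2a0a

theorem g__wS_32_wQ_26_wN_1_rb8033061e24_d42_d25_d51_d2a0d_1 : GoodKC AS k_wS_32_wQ_26_wN_1_rb8033061e24_d42_d25_d51_d2a0d_1 := p_wS_32_wQ_26_wN_1_rb8033061e24_d42_d25_d51_d2a0d_1

theorem g__wS_32_wQ_26_wN_1_rb8033061e24_d42_d25_d51_d2a0d_0 : GoodKC AS k_wS_32_wQ_26_wN_1_rb8033061e24_d42_d25_d51_d2a0d_0 := p_wS_32_wQ_26_wN_1_rb8033061e24_d42_d25_d51_d2a0d_0 g__wS_32_wQ_26_wN_1_rb8033061e24_d42_d25_d51_d2a0d_1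

theorem g_wS_32_wQ_26_wN_1_rb8033061e24_d42_d25_d51_d2a0d : GoodKC AS c_wS_32_wQ_26_wN_1_rb8033061e24_d42_d25_d51_d2a0d := p_wS_32_wQ_26_wN_1_rb8033061e24_d42_d25_d51_d2a0d g__wS_32_wQ_26_wN_1_rb8033061e24_d42_d25_d51_d2a0d_0

theorem g_wS_32_wQ_26_wN_1_rb8033061e24_d42_d25_d51_d2a0e : GoodKC AS c_wS_32_wQ_26_wN_1_rb8033061e24_d42_d25_d51_d2a0e := p_wS_32_wQ_26_wN_1_rb8033061e24_d42_d25_d51_d2a0e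

theorem g_wS_32_wQ_26_wN_1_rb8033061e24_d42_d25_d51_d2a0f : GoodKC AS c_wS_32_wQ_26_wN_1_rb8033061e24_d42_d25_d51_d2a0f := p_wS_32_wQ_26_wN_1_rb8033061e24_d42_d25_d51_d2a0f

theorem g_wS_32_wQ_26_wN_1_rb8033061e24_d42_d25_d51_d2a10 : GoodKC AS c_wS_32_wQ_26_wN_1_rb8033061e24_d42_d25_d51_d2a10 := p_wS_32_wQ_26_wN_1_rb8033061e24_d42_d25_d51_d2a10

theorem g_wS_32_wQ_26_wN_1_rb8033061e24_d42_d25_d51_d2a13 : GoodKC AS c_wS_32_wQ_26_wN_1_rb8033061e24_d42_d25_d51_d2a13 := p_wS_32_wQ_26_wN_1_rb8033061e24_d42_d25_d51_d2a13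

theorem g_wS_32_wQ_26_wN_1_rb8033061e24_d42_d25_d51_d2ax2 : GoodKC AS c_wS_32_wQ_26_wN_1_rb8033061e24_d42_d25_d51_d2ax2 := p_wS_32_wQ_26_wN_1_rb8033061e24_d42_d25_d51_d2a g_wS_32_wQ_26_wN_1_rb8033061e24_d42_d25_d51_d2a12 g_wS_32_wQ_26_wN_1_rb8033061e24_d42_d25_d51_d2a11 g_wS_32_wQ_26_wN_1_rb8033061e24_d42_d25_d51_d2a0c g_wS_32_wQ_26_wN_1_rb8033061e24_d42_d25_d51_d2a0b g_wS_32_wQ_26_wN_1_rb8033061e24_d42_d25_d51_d2a09 g_wS_32_wQ_26_wN_1_rb8033061e24_d42_d25_d51_d2a08 g__wS_32_wQ_26_wN_1_rb8033061e24_d42_d25_d51_d2a_0 g_wS_32_wQ_26_wN_1_rb8033061e24_d42_d25_d51_d2a07 g_wS_32_wQ_26_wN_1_rb8033061e24_d42_d25_d51_d2a01 g_wS_32_wQ_26_wN_1_rb8033061e24_d42_d25_d51_d2a00 g_wS_32_wQ_26_wN_1_rb8033061e24_d42_d25_d51_d2a02 g_wS_32_wQ_26_wN_1_rb8033061e24_d42_d25_d51_d2a03 g_wS_32_wQ_26_wN_1_rb8033061e24_d42_d25_d51_d2a04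 g_wS_32_wQ_26_wN_1_rb8033061e24_d42_d25_d51_d2a05 g_wS_32_wQ_26_wN_1_rb8033061e24_d42_d25_d51_d2a06 g__wS_32_wQ_26_wN_1_rb8033061e24_d42_d25_d51_d2a_26 g_wS_32_wQ_26_wN_1_rb8033061e24_d42_d25_d51_d2a0a g_wS_32_wQ_26_wN_1_rb8033061e24_d42_d25_d51_d2a0d g_wS_32_wQ_26_wN_1_rb8033061e24_d42_d25_d51_d2a0e g_wS_32_wQ_26_wN_1_rb8033061e24_d42_d25_d51_d2a0f g_wS_32_wQ_26_wN_1_rb8033061e24_d42_d25_d51_d2a10 g_wS_32_wQ_26_wN_1_rb8033061e24_d42_d25_d51_d2a13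

theorem g_wS_32_wQ_26_wN_1_rb8033061e24_d42_d25_d51_d2bx2 : GoodKC AS c_wS_32_wQ_26_wN_1_rb8033061e24_d42_d25_d51_d2bx2 := p_wS_32_wQ_26_wN_1_rb8033061e24_d42_d25_d51_d2b

theorem g__wS_32_wQ_26_wN_1_rb8033061e24_d42_d25_d51_d32_0 : GoodKC AS k_wS_32_wQ_26_wN_1_rb8033061e24_d42_d25_d51_d32_0 := p_wS_32_wQ_26_wN_1_rb8033061e24_d42_d25_d51_d32_0

theorem g_wS_32_wQ_26_wN_1_rb8033061e24_d42_d25_d51_d32x2 : GoodKC AS c_wS_32_wQ_26_wN_1_rb8033061e24_d42_d25_d51_d32x2 := p_wS_32_wQ_26_wN_1_rb8033061e24_d42_d25_d51_d32 g__wS_32_wQ_26_wN_1_rb8033061e24_d42_d25_d51_d32_0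

theorem g_wS_32_wQ_26_wN_1_rb8033061e24_d42_d25x7 : GoodKC AS c_wS_32_wQ_26_wN_1_rb8033061e24_d42_d25x7 := p_wS_32_wQ_26_wN_1_rb8033061e24_d42_d25x2 g_wS_32_wQ_26_wN_1_rb8033061e24_d42_d25_d51_d33x2 g_wS_32_wQ_26_wN_1_rb8033061e24_d42_d25_d51_d31x2 g_wS_32_wQ_26_wN_1_rb8033061e24_d42_d25_d51_d30x2 g_wS_32_wQ_26_wN_1_rb8033061e24_d42_d25_d51_d2fx2 g_wS_32_wQ_26_wN_1_rb8033061e24_d42_d25_d51_d2ex2 g_wS_32_wQ_26_wN_1_rb8033061e24_d42_d25_d51_d2dx2 g_wS_32_wQ_26_wN_1_rb8033061e24_d42_d25_d51_d2cx2 g_wS_32_wQ_26_wN_1_rb8033061e24_d42_d25_d51_d29x2 g_wS_32_wQ_26_wN_1_rb8033061e24_d42_d25_d51_d28x2 g_wS_32_wQ_26_wN_1_rb8033061e24_d42_d25_d51_d26x2 g_wS_32_wQ_26_wN_1_rb8033061e24_d42_d25_d51_d25x2 g_wS_32_wQ_26_wN_1_rb8033061e24_d42_d25_d51_d24x2 g_wS_32_wQ_26_wN_1_rb8033061e24_d42_d25_d51_d23x2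 g_wS_32_wQ_26_wN_1_rb8033061e24_d42_d25_d51_d22x2 g_wS_32_wQ_26_wN_1_rb8033061e24_d42_d25_d51_d20x2 g_wS_32_wQ_26_wN_1_rb8033061e24_d42_d25_d51_d1fx2 g_wS_32_wQ_26_wN_1_rb8033061e24_d42_d25_d51_d1ex2 g_wS_32_wQ_26_wN_1_rb8033061e24_d42_d25_d51_d1dx2 g_wS_32_wQ_26_wN_1_rb8033061e24_d42_d25_d51_d1cx2 g_wS_32_wQ_26_wN_1_rb8033061e24_d42_d25_d51_d1bx2 g_wS_32_wQ_26_wN_1_rb8033061e24_d42_d25_d51_d1ax2 g_wS_32_wQ_26_wN_1_rb8033061e24_d42_d25_d51_d19x2 g_wS_32_wQ_26_wN_1_rb8033061e24_d42_d25_d51_d15x2 g_wS_32_wQ_26_wN_1_rb8033061e24_d42_d25_d51_d12x2 g_wS_32_wQ_26_wN_1_rb8033061e24_d42_d25_d51_d11x2 g_wS_32_wQ_26_wN_1_rb8033061e24_d42_d25_d51_d10x2 g_wS_32_wQ_26_wN_1_rb8033061e24_d42_d25_d51_d0cx2 g_wS_32_wQ_26_wN_1_rb8033061e24_d42_d25_d51_d0bx2 g__wS_32_wQ_26_wN_1_rb8033061e24_d42_d25x2_0 g_wS_32_wQ_26_wN_1_rb8033061e24_d42_d25_d51_d09x2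 g_wS_32_wQ_26_wN_1_rb8033061e24_d42_d25_d51_d08x2 g_wS_32_wQ_26_wN_1_rb8033061e24_d42_d25_d51_d07x2 g_wS_32_wQ_26_wN_1_rb8033061e24_d42_d25_d51_d02x2 g_wS_32_wQ_26_wN_1_rb8033061e24_d42_d25_d51_d01x2 g_wS_32_wQ_26_wN_1_rb8033061e24_d42_d25_d51_d00x2 g_wS_32_wQ_26_wN_1_rb8033061e24_d42_d25_d51_d03x2 g_wS_32_wQ_26_wN_1_rb8033061e24_d42_d25_d51_d04x2 g_wS_32_wQ_26_wN_1_rb8033061e24_d42_d25_d51_d05x2 g_wS_32_wQ_26_wN_1_rb8033061e24_d42_d25_d51_d06x2 g_wS_32_wQ_26_wN_1_rb8033061e24_d42_d25_d51_d0ax2 g_wS_32_wQ_26_wN_1_rb8033061e24_d42_d25_d51_d0dx2 g_wS_32_wQ_26_wN_1_rb8033061e24_d42_d25_d51_d0ex2 g_wS_32_wQ_26_wN_1_rb8033061e24_d42_d25_d51_d0fx2 g_wS_32_wQ_26_wN_1_rb8033061e24_d42_d25_d51_d13x2 g_wS_32_wQ_26_wN_1_rb8033061e24_d42_d25_d51_d14x2 g_wS_32_wQ_26_wN_1_rb8033061e24_d42_d25_d51_d16x2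 g_wS_32_wQ_26_wN_1_rb8033061e24_d42_d25_d51_d17x2 g_wS_32_wQ_26_wN_1_rb8033061e24_d42_d25_d51_d18x2 g_wS_32_wQ_26_wN_1_rb8033061e24_d42_d25_d51_d21x2 g_wS_32_wQ_26_wN_1_rb8033061e24_d42_d25_d51_d27x2 g_wS_32_wQ_26_wN_1_rb8033061e24_d42_d25_d51_d2ax2 g_wS_32_wQ_26_wN_1_rb8033061e24_d42_d25_d51_d2bx2 g_wS_32_wQ_26_wN_1_rb8033061e24_d42_d25_d51_d32x2

theorem g_wS_32_wQ_26_wN_1_rb8033061e24_d42_d24x7 : GoodKC AS c_wS_32_wQ_26_wN_1_rb8033061e24_d42_d24x7 := p_wS_32_wQ_26_wN_1_rb8033061e24_d42_d24x5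

theorem g__wS_32_wQ_26_wN_1_rb8033061e24_d42_d20v5_0 : GoodKC AS k_wS_32_wQ_26_wN_1_rb8033061e24_d42_d20v5_0 := p_wS_32_wQ_26_wN_1_rb8033061e24_d42_d20v5_0

theorem g_wS_32_wQ_26_wN_1_rb8033061e24_d42_d20x7 : GoodKC AS c_wS_32_wQ_26_wN_1_rb8033061e24_d42_d20x7 := p_wS_32_wQ_26_wN_1_rb8033061e24_d42_d20x5 g__wS_32_wQ_26_wN_1_rb8033061e24_d42_d20v5_0

theorem g_wS_32_wQ_26_wN_1_rb8033061e24_d42_d1dx7 : GoodKC AS c_wS_32_wQ_26_wN_1_rb8033061e24_d42_d1dx7 := p_wS_32_wQ_26_wN_1_rb8033061e24_d42_d1dx5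

theorem g_wS_32_wQ_26_wN_1_rb8033061e24_d42_d1cx7 : GoodKC AS c_wS_32_wQ_26_wN_1_rb8033061e24_d42_d1cx7 := p_wS_32_wQ_26_wN_1_rb8033061e24_d42_d1cx5

theorem g_wS_32_wQ_26_wN_1_rb8033061e24_d42_d1ax7 : GoodKC AS c_wS_32_wQ_26_wN_1_rb8033061e24_d42_d1ax7 := p_wS_32_wQ_26_wN_1_rb8033061e24_d42_d1ax5

theorem g_wS_32_wQ_26_wN_1_rb8033061e24_d42_d19x7 : GoodKC AS c_wS_32_wQ_26_wN_1_rb8033061e24_d42_d19x7 := p_wS_32_wQ_26_wN_1_rb8033061e24_d42_d19x5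

theorem g_wS_32_wQ_26_wN_1_rb8033061e24_d42_d16x7 : GoodKC AS c_wS_32_wQ_26_wN_1_rb8033061e24_d42_d16x7 := p_wS_32_wQ_26_wN_1_rb8033061e24_d42_d16x5

theorem g_wS_32_wQ_26_wN_1_rb8033061e24_d42_d15x7 : GoodKC AS c_wS_32_wQ_26_wN_1_rb8033061e24_d42_d15x7 := p_wS_32_wQ_26_wN_1_rb8033061e24_d42_d15x5

theorem g_wS_32_wQ_26_wN_1_rb8033061e24_d42_d14x7 : GoodKC AS c_wS_32_wQ_26_wN_1_rb8033061e24_d42_d14x7 := p_wS_32_wQ_26_wN_1_rb8033061e24_d42_d14x5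

theorem g__wS_32_wQ_26_wN_1_rb8033061e24_d42_d13x5_0 : GoodKC AS k_wS_32_wQ_26_wN_1_rb8033061e24_d42_d13x5_0 := p_wS_32_wQ_26_wN_1_rb8033061e24_d42_d13x5_0

theorem g_wS_32_wQ_26_wN_1_rb8033061e24_d42_d13x7 : GoodKC AS c_wS_32_wQ_26_wN_1_rb8033061e24_d42_d13x7 := p_wS_32_wQ_26_wN_1_rb8033061e24_d42_d13x5 g__wS_32_wQ_26_wN_1_rb8033061e24_d42_d13x5_0

theorem g__wS_32_wQ_26_wN_1_rb8033061e24_d42_d10v5_1 : GoodKC AS k_wS_32_wQ_26_wN_1_rb8033061e24_d42_d10v5_1 := p_wS_32_wQ_26_wN_1_rb8033061e24_d42_d10v5_1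

theorem g__wS_32_wQ_26_wN_1_rb8033061e24_d42_d10v5_0 : GoodKC AS k_wS_32_wQ_26_wN_1_rb8033061e24_d42_d10v5_0 := p_wS_32_wQ_26_wN_1_rb8033061e24_d42_d10v5_0 g__wS_32_wQ_26_wN_1_rb8033061e24_d42_d10v5_1

theorem g_wS_32_wQ_26_wN_1_rb8033061e24_d42_d10x7 : GoodKC AS c_wS_32_wQ_26_wN_1_rb8033061e24_d42_d10x7 := p_wS_32_wQ_26_wN_1_rb8033061e24_d42_d10x5 g__wS_32_wQ_26_wN_1_rb8033061e24_d42_d10v5_0

theorem g_wS_32_wQ_26_wN_1_rb8033061e24_d42_d0fx7 : GoodKC AS c_wS_32_wQ_26_wN_1_rb8033061e24_d42_d0fx7 := p_wS_32_wQ_26_wN_1_rb8033061e24_d42_d0fx5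

theorem g_wS_32_wQ_26_wN_1_rb8033061e24_d42_d0ex7 : GoodKC AS c_wS_32_wQ_26_wN_1_rb8033061e24_d42_d0ex7 := p_wS_32_wQ_26_wN_1_rb8033061e24_d42_d0ex5

theorem g_wS_32_wQ_26_wN_1_rb8033061e24_d42_d0dx7 : GoodKC AS c_wS_32_wQ_26_wN_1_rb8033061e24_d42_d0dx7 := p_wS_32_wQ_26_wN_1_rb8033061e24_d42_d0dx5

theorem g__wS_32_wQ_26_wN_1_rb8033061e24_d42_d0cx5_1 : GoodKC AS k_wS_32_wQ_26_wN_1_rb8033061e24_d42_d0cx5_1 := p_wS_32_wQ_26_wN_1_rb8033061e24_d42_d0cx5_1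

theorem g__wS_32_wQ_26_wN_1_rb8033061e24_d42_d0cx5_0 : GoodKC AS k_wS_32_wQ_26_wN_1_rb8033061e24_d42_d0cx5_0 := p_wS_32_wQ_26_wN_1_rb8033061e24_d42_d0cx5_0 g__wS_32_wQ_26_wN_1_rb8033061e24_d42_d0cx5_1

theorem g_wS_32_wQ_26_wN_1_rb8033061e24_d42_d0cx7 : GoodKC AS c_wS_32_wQ_26_wN_1_rb8033061e24_d42_d0cx7 := p_wS_32_wQ_26_wN_1_rb8033061e24_d42_d0cx5 g__wS_32_wQ_26_wN_1_rb8033061e24_d42_d0cx5_0

theorem g_wS_32_wQ_26_wN_1_rb8033061e24_d42_d0ax7 : GoodKC AS c_wS_32_wQ_26_wN_1_rb8033061e24_d42_d0ax7 := p_wS_32_wQ_26_wN_1_rb8033061e24_d42_d0ax5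

theorem g_wS_32_wQ_26_wN_1_rb8033061e24_d42_d08x7 : GoodKC AS c_wS_32_wQ_26_wN_1_rb8033061e24_d42_d08x7 := p_wS_32_wQ_26_wN_1_rb8033061e24_d42_d08x5

theorem g_wS_32_wQ_26_wN_1_rb8033061e24_d42_d07x7 : GoodKC AS c_wS_32_wQ_26_wN_1_rb8033061e24_d42_d07x7 := p_wS_32_wQ_26_wN_1_rb8033061e24_d42_d07x5

theorem g_wS_32_wQ_26_wN_1_rb8033061e24_d42_d06x7 : GoodKC AS c_wS_32_wQ_26_wN_1_rb8033061e24_d42_d06x7 := p_wS_32_wQ_26_wN_1_rb8033061e24_d42_d06x5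

theorem g_wS_32_wQ_26_wN_1_rb8033061e24_d42_d05x7 : GoodKC AS c_wS_32_wQ_26_wN_1_rb8033061e24_d42_d05x7 := p_wS_32_wQ_26_wN_1_rb8033061e24_d42_d05x5

theorem g_wS_32_wQ_26_wN_1_rb8033061e24_d42_d03x7 : GoodKC AS c_wS_32_wQ_26_wN_1_rb8033061e24_d42_d03x7 := p_wS_32_wQ_26_wN_1_rb8033061e24_d42_d03x5

theorem g_wS_32_wQ_26_wN_1_rb8033061e24_d42_d02x7 : GoodKC AS c_wS_32_wQ_26_wN_1_rb8033061e24_d42_d02x7 := p_wS_32_wQ_26_wN_1_rb8033061e24_d42_d02x5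

theorem g_wS_32_wQ_26_wN_1_rb8033061e24_d42_d01x7 : GoodKC AS c_wS_32_wQ_26_wN_1_rb8033061e24_d42_d01x7 := p_wS_32_wQ_26_wN_1_rb8033061e24_d42_d01x5

theorem g__wS_32_wQ_26_wN_1_rb8033061e24_d42_d00v5_0 : GoodKC AS k_wS_32_wQ_26_wN_1_rb8033061e24_d42_d00v5_0 := p_wS_32_wQ_26_wN_1_rb8033061e24_d42_d00v5_0

theorem g_wS_32_wQ_26_wN_1_rb8033061e24_d42_d00x7 : GoodKC AS c_wS_32_wQ_26_wN_1_rb8033061e24_d42_d00x7 := p_wS_32_wQ_26_wN_1_rb8033061e24_d42_d00x5 g__wS_32_wQ_26_wN_1_rb8033061e24_d42_d00v5_0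

theorem g_wS_32_wQ_26_wN_1_rb8033061e24_d42_d04x7 : GoodKC AS c_wS_32_wQ_26_wN_1_rb8033061e24_d42_d04x7 := p_wS_32_wQ_26_wN_1_rb8033061e24_d42_d04x5

theorem g_wS_32_wQ_26_wN_1_rb8033061e24_d42_d09x7 : GoodKC AS c_wS_32_wQ_26_wN_1_rb8033061e24_d42_d09x7 := p_wS_32_wQ_26_wN_1_rb8033061e24_d42_d09x5

theorem g_wS_32_wQ_26_wN_1_rb8033061e24_d42_d0bx7 : GoodKC AS c_wS_32_wQ_26_wN_1_rb8033061e24_d42_d0bx7 := p_wS_32_wQ_26_wN_1_rb8033061e24_d42_d0bx5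

theorem g__wS_32_wQ_26_wN_1_rb8033061e24x7_5 : GoodKC AS k_wS_32_wQ_26_wN_1_rb8033061e24x7_5 := p_wS_32_wQ_26_wN_1_rb8033061e24x7_5

theorem g__wS_32_wQ_26_wN_1_rb8033061e24x7_9 : GoodKC AS k_wS_32_wQ_26_wN_1_rb8033061e24x7_9 := p_wS_32_wQ_26_wN_1_rb8033061e24x7_9

theorem g__wS_32_wQ_26_wN_1_rb8033061e24x7_8 : GoodKC AS k_wS_32_wQ_26_wN_1_rb8033061e24x7_8 := p_wS_32_wQ_26_wN_1_rb8033061e24x7_8 g__wS_32_wQ_26_wN_1_rb8033061e24x7_9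

theorem g__wS_32_wQ_26_wN_1_rb8033061e24x7_7 : GoodKC AS k_wS_32_wQ_26_wN_1_rb8033061e24x7_7 := p_wS_32_wQ_26_wN_1_rb8033061e24x7_7 g__wS_32_wQ_26_wN_1_rb8033061e24x7_8

theorem g__wS_32_wQ_26_wN_1_rb8033061e24x7_6 : GoodKC AS k_wS_32_wQ_26_wN_1_rb8033061e24x7_6 := p_wS_32_wQ_26_wN_1_rb8033061e24x7_6 g__wS_32_wQ_26_wN_1_rb8033061e24x7_7

theorem g__wS_32_wQ_26_wN_1_rb8033061e24x7_4 : GoodKC AS k_wS_32_wQ_26_wN_1_rb8033061e24x7_4 := p_wS_32_wQ_26_wN_1_rb8033061e24x7_4 g__wS_32_wQ_26_wN_1_rb8033061e24x7_5 g__wS_32_wQ_26_wN_1_rb8033061e24x7_6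

theorem g__wS_32_wQ_26_wN_1_rb8033061e24x7_3 : GoodKC AS k_wS_32_wQ_26_wN_1_rb8033061e24x7_3 := p_wS_32_wQ_26_wN_1_rb8033061e24x7_3 g__wS_32_wQ_26_wN_1_rb8033061e24x7_4

theorem g__wS_32_wQ_26_wN_1_rb8033061e24x7_2 : GoodKC AS k_wS_32_wQ_26_wN_1_rb8033061e24x7_2 := p_wS_32_wQ_26_wN_1_rb8033061e24x7_2 g__wS_32_wQ_26_wN_1_rb8033061e24x7_3

theorem g__wS_32_wQ_26_wN_1_rb8033061e24x7_1 : GoodKC AS k_wS_32_wQ_26_wN_1_rb8033061e24x7_1 := p_wS_32_wQ_26_wN_1_rb8033061e24x7_1 g__wS_32_wQ_26_wN_1_rb8033061e24x7_2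

theorem g__wS_32_wQ_26_wN_1_rb8033061e24x7_0 : GoodKC AS k_wS_32_wQ_26_wN_1_rb8033061e24x7_0 := p_wS_32_wQ_26_wN_1_rb8033061e24x7_0 g__wS_32_wQ_26_wN_1_rb8033061e24x7_1

theorem g_wS_32_wQ_26_wN_1_rb8033061e24_d42_d11x7 : GoodKC AS c_wS_32_wQ_26_wN_1_rb8033061e24_d42_d11x7 := p_wS_32_wQ_26_wN_1_rb8033061e24_d42_d11x5

theorem g_wS_32_wQ_26_wN_1_rb8033061e24_d42_d12x7 : GoodKC AS c_wS_32_wQ_26_wN_1_rb8033061e24_d42_d12x7 := p_wS_32_wQ_26_wN_1_rb8033061e24_d42_d12x5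

theorem g_wS_32_wQ_26_wN_1_rb8033061e24_d42_d17x7 : GoodKC AS c_wS_32_wQ_26_wN_1_rb8033061e24_d42_d17x7 := p_wS_32_wQ_26_wN_1_rb8033061e24_d42_d17x5

theorem g_wS_32_wQ_26_wN_1_rb8033061e24_d42_d18x7 : GoodKC AS c_wS_32_wQ_26_wN_1_rb8033061e24_d42_d18x7 := p_wS_32_wQ_26_wN_1_rb8033061e24_d42_d18x5

theorem g_wS_32_wQ_26_wN_1_rb8033061e24_d42_d1bx7 : GoodKC AS c_wS_32_wQ_26_wN_1_rb8033061e24_d42_d1bx7 := p_wS_32_wQ_26_wN_1_rb8033061e24_d42_d1bx5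

theorem g_wS_32_wQ_26_wN_1_rb8033061e24_d42_d1e2dx5 : GoodKC AS c_wS_32_wQ_26_wN_1_rb8033061e24_d42_d1e2dx5 := p_wS_32_wQ_26_wN_1_rb8033061e24_d42_d1e2dx3

theorem g_wS_32_wQ_26_wN_1_rb8033061e24_d42_d1e2cx5 : GoodKC AS c_wS_32_wQ_26_wN_1_rb8033061e24_d42_d1e2cx5 := p_wS_32_wQ_26_wN_1_rb8033061e24_d42_d1e2cx3

theorem g_wS_32_wQ_26_wN_1_rb8033061e24_d42_d1e2bx5 : GoodKC AS c_wS_32_wQ_26_wN_1_rb8033061e24_d42_d1e2bx5 := p_wS_32_wQ_26_wN_1_rb8033061e24_d42_d1e2bx3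

theorem g_wS_32_wQ_26_wN_1_rb8033061e24_d42_d1e29x5 : GoodKC AS c_wS_32_wQ_26_wN_1_rb8033061e24_d42_d1e29x5 := p_wS_32_wQ_26_wN_1_rb8033061e24_d42_d1e29x3

theorem g_wS_32_wQ_26_wN_1_rb8033061e24_d42_d1e28x5 : GoodKC AS c_wS_32_wQ_26_wN_1_rb8033061e24_d42_d1e28x5 := p_wS_32_wQ_26_wN_1_rb8033061e24_d42_d1e28x3

theorem g_wS_32_wQ_26_wN_1_rb8033061e24_d42_d1e27x5 : GoodKC AS c_wS_32_wQ_26_wN_1_rb8033061e24_d42_d1e27x5 := p_wS_32_wQ_26_wN_1_rb8033061e24_d42_d1e27x3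

theorem g_wS_32_wQ_26_wN_1_rb8033061e24_d42_d1e26x5 : GoodKC AS c_wS_32_wQ_26_wN_1_rb8033061e24_d42_d1e26x5 := p_wS_32_wQ_26_wN_1_rb8033061e24_d42_d1e26x3

theorem g_wS_32_wQ_26_wN_1_rb8033061e24_d42_d1e25x5 : GoodKC AS c_wS_32_wQ_26_wN_1_rb8033061e24_d42_d1e25x5 := p_wS_32_wQ_26_wN_1_rb8033061e24_d42_d1e25x3

theorem g_wS_32_wQ_26_wN_1_rb8033061e24_d42_d1e24x5 : GoodKC AS c_wS_32_wQ_26_wN_1_rb8033061e24_d42_d1e24x5 := p_wS_32_wQ_26_wN_1_rb8033061e24_d42_d1e24x3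

theorem g_wS_32_wQ_26_wN_1_rb8033061e24_d42_d1e23x5 : GoodKC AS c_wS_32_wQ_26_wN_1_rb8033061e24_d42_d1e23x5 := p_wS_32_wQ_26_wN_1_rb8033061e24_d42_d1e23x3

theorem g_wS_32_wQ_26_wN_1_rb8033061e24_d42_d1e22x5 : GoodKC AS c_wS_32_wQ_26_wN_1_rb8033061e24_d42_d1e22x5 := p_wS_32_wQ_26_wN_1_rb8033061e24_d42_d1e22x3

theorem g_wS_32_wQ_26_wN_1_rb8033061e24_d42_d1e1ex5 : GoodKC AS c_wS_32_wQ_26_wN_1_rb8033061e24_d42_d1e1ex5 := p_wS_32_wQ_26_wN_1_rb8033061e24_d42_d1e1ex3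

theorem g__wS_32_wQ_26_wN_1_rb8033061e24_d42_d1e1dx3_1 : GoodKC AS k_wS_32_wQ_26_wN_1_rb8033061e24_d42_d1e1dx3_1 := p_wS_32_wQ_26_wN_1_rb8033061e24_d42_d1e1dx3_1

theorem g__wS_32_wQ_26_wN_1_rb8033061e24_d42_d1e1dx3_0 : GoodKC AS k_wS_32_wQ_26_wN_1_rb8033061e24_d42_d1e1dx3_0 := p_wS_32_wQ_26_wN_1_rb8033061e24_d42_d1e1dx3_0 g__wS_32_wQ_26_wN_1_rb8033061e24_d42_d1e1dx3_1

theorem g_wS_32_wQ_26_wN_1_rb8033061e24_d42_d1e1dx5 : GoodKC AS c_wS_32_wQ_26_wN_1_rb8033061e24_d42_d1e1dx5 := p_wS_32_wQ_26_wN_1_rb8033061e24_d42_d1e1dx3 g__wS_32_wQ_26_wN_1_rb8033061e24_d42_d1e1dx3_0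

theorem g_wS_32_wQ_26_wN_1_rb8033061e24_d42_d1e1cx5 : GoodKC AS c_wS_32_wQ_26_wN_1_rb8033061e24_d42_d1e1cx5 := p_wS_32_wQ_26_wN_1_rb8033061e24_d42_d1e1cx3

theorem g_wS_32_wQ_26_wN_1_rb8033061e24_d42_d1e1ax5 : GoodKC AS c_wS_32_wQ_26_wN_1_rb8033061e24_d42_d1e1ax5 := p_wS_32_wQ_26_wN_1_rb8033061e24_d42_d1e1ax3

theorem g__wS_32_wQ_26_wN_1_rb8033061e24_d42_d1e19x3_1 : GoodKC AS k_wS_32_wQ_26_wN_1_rb8033061e24_d42_d1e19x3_1 := p_wS_32_wQ_26_wN_1_rb8033061e24_d42_d1e19x3_1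

theorem g__wS_32_wQ_26_wN_1_rb8033061e24_d42_d1e19x3_0 : GoodKC AS k_wS_32_wQ_26_wN_1_rb8033061e24_d42_d1e19x3_0 := p_wS_32_wQ_26_wN_1_rb8033061e24_d42_d1e19x3_0 g__wS_32_wQ_26_wN_1_rb8033061e24_d42_d1e19x3_1

theorem g__wS_32_wQ_26_wN_1_rb8033061e24_d42_d1e19x3_2 : GoodKC AS k_wS_32_wQ_26_wN_1_rb8033061e24_d42_d1e19x3_2 := p_wS_32_wQ_26_wN_1_rb8033061e24_d42_d1e19x3_2

theorem g_wS_32_wQ_26_wN_1_rb8033061e24_d42_d1e19x5 : GoodKC AS c_wS_32_wQ_26_wN_1_rb8033061e24_d42_d1e19x5 := p_wS_32_wQ_26_wN_1_rb8033061e24_d42_d1e19x3 g__wS_32_wQ_26_wN_1_rb8033061e24_d42_d1e19x3_0 g__wS_32_wQ_26_wN_1_rb8033061e24_d42_d1e19x3_2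

theorem g_wS_32_wQ_26_wN_1_rb8033061e24_d42_d1e17x5 : GoodKC AS c_wS_32_wQ_26_wN_1_rb8033061e24_d42_d1e17x5 := p_wS_32_wQ_26_wN_1_rb8033061e24_d42_d1e17x3

theorem g_wS_32_wQ_26_wN_1_rb8033061e24_d42_d1e16x5 : GoodKC AS c_wS_32_wQ_26_wN_1_rb8033061e24_d42_d1e16x5 := p_wS_32_wQ_26_wN_1_rb8033061e24_d42_d1e16x3

theorem g_wS_32_wQ_26_wN_1_rb8033061e24_d42_d1e15x5 : GoodKC AS c_wS_32_wQ_26_wN_1_rb8033061e24_d42_d1e15x5 := p_wS_32_wQ_26_wN_1_rb8033061e24_d42_d1e15x3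

theorem g_wS_32_wQ_26_wN_1_rb8033061e24_d42_d1e14x5 : GoodKC AS c_wS_32_wQ_26_wN_1_rb8033061e24_d42_d1e14x5 := p_wS_32_wQ_26_wN_1_rb8033061e24_d42_d1e14x3

theorem g_wS_32_wQ_26_wN_1_rb8033061e24_d42_d1e13x5 : GoodKC AS c_wS_32_wQ_26_wN_1_rb8033061e24_d42_d1e13x5 := p_wS_32_wQ_26_wN_1_rb8033061e24_d42_d1e13x3

theorem g_wS_32_wQ_26_wN_1_rb8033061e24_d42_d1e12x5 : GoodKC AS c_wS_32_wQ_26_wN_1_rb8033061e24_d42_d1e12x5 := p_wS_32_wQ_26_wN_1_rb8033061e24_d42_d1e12x3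

theorem g_wS_32_wQ_26_wN_1_rb8033061e24_d42_d1e11x5 : GoodKC AS c_wS_32_wQ_26_wN_1_rb8033061e24_d42_d1e11x5 := p_wS_32_wQ_26_wN_1_rb8033061e24_d42_d1e11x3

theorem g_wS_32_wQ_26_wN_1_rb8033061e24_d42_d1e10x5 : GoodKC AS c_wS_32_wQ_26_wN_1_rb8033061e24_d42_d1e10x5 := p_wS_32_wQ_26_wN_1_rb8033061e24_d42_d1e10x3

theorem g__wS_32_wQ_26_wN_1_rb8033061e24_d42_d1e0fx3_0 : GoodKC AS k_wS_32_wQ_26_wN_1_rb8033061e24_d42_d1e0fx3_0 := p_wS_32_wQ_26_wN_1_rb8033061e24_d42_d1e0fx3_0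

theorem g_wS_32_wQ_26_wN_1_rb8033061e24_d42_d1e0fx5 : GoodKC AS c_wS_32_wQ_26_wN_1_rb8033061e24_d42_d1e0fx5 := p_wS_32_wQ_26_wN_1_rb8033061e24_d42_d1e0fx3 g__wS_32_wQ_26_wN_1_rb8033061e24_d42_d1e0fx3_0

theorem g_wS_32_wQ_26_wN_1_rb8033061e24_d42_d1e0ex5 : GoodKC AS c_wS_32_wQ_26_wN_1_rb8033061e24_d42_d1e0ex5 := p_wS_32_wQ_26_wN_1_rb8033061e24_d42_d1e0ex3

theorem g_wS_32_wQ_26_wN_1_rb8033061e24_d42_d1e0dx5 : GoodKC AS c_wS_32_wQ_26_wN_1_rb8033061e24_d42_d1e0dx5 := p_wS_32_wQ_26_wN_1_rb8033061e24_d42_d1e0dx3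

theorem g_wS_32_wQ_26_wN_1_rb8033061e24_d42_d1e0cx5 : GoodKC AS c_wS_32_wQ_26_wN_1_rb8033061e24_d42_d1e0cx5 := p_wS_32_wQ_26_wN_1_rb8033061e24_d42_d1e0cx3

theorem g_wS_32_wQ_26_wN_1_rb8033061e24_d42_d1e0ax5 : GoodKC AS c_wS_32_wQ_26_wN_1_rb8033061e24_d42_d1e0ax5 := p_wS_32_wQ_26_wN_1_rb8033061e24_d42_d1e0ax3

theorem g_wS_32_wQ_26_wN_1_rb8033061e24_d42_d1e09x5 : GoodKC AS c_wS_32_wQ_26_wN_1_rb8033061e24_d42_d1e09x5 := p_wS_32_wQ_26_wN_1_rb8033061e24_d42_d1e09x3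

theorem g_wS_32_wQ_26_wN_1_rb8033061e24_d42_d1e08x5 : GoodKC AS c_wS_32_wQ_26_wN_1_rb8033061e24_d42_d1e08x5 := p_wS_32_wQ_26_wN_1_rb8033061e24_d42_d1e08x3

theorem g_wS_32_wQ_26_wN_1_rb8033061e24_d42_d1e07x5 : GoodKC AS c_wS_32_wQ_26_wN_1_rb8033061e24_d42_d1e07x5 := p_wS_32_wQ_26_wN_1_rb8033061e24_d42_d1e07x3

theorem g_wS_32_wQ_26_wN_1_rb8033061e24_d42_d1e05x5 : GoodKC AS c_wS_32_wQ_26_wN_1_rb8033061e24_d42_d1e05x5 := p_wS_32_wQ_26_wN_1_rb8033061e24_d42_d1e05x3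

theorem g__wS_32_wQ_26_wN_1_rb8033061e24_d42_d1ex5_0 : GoodKC AS k_wS_32_wQ_26_wN_1_rb8033061e24_d42_d1ex5_0 := p_wS_32_wQ_26_wN_1_rb8033061e24_d42_d1ex5_0

theorem g_wS_32_wQ_26_wN_1_rb8033061e24_d42_d1e04x5 : GoodKC AS c_wS_32_wQ_26_wN_1_rb8033061e24_d42_d1e04x5 := p_wS_32_wQ_26_wN_1_rb8033061e24_d42_d1e04x3

theorem g_wS_32_wQ_26_wN_1_rb8033061e24_d42_d1e01x5 : GoodKC AS c_wS_32_wQ_26_wN_1_rb8033061e24_d42_d1e01x5 := p_wS_32_wQ_26_wN_1_rb8033061e24_d42_d1e01x3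

theorem g__wS_32_wQ_26_wN_1_rb8033061e24_d42_d1e00v3_0 : GoodKC AS k_wS_32_wQ_26_wN_1_rb8033061e24_d42_d1e00v3_0 := p_wS_32_wQ_26_wN_1_rb8033061e24_d42_d1e00v3_0

theorem g_wS_32_wQ_26_wN_1_rb8033061e24_d42_d1e00x5 : GoodKC AS c_wS_32_wQ_26_wN_1_rb8033061e24_d42_d1e00x5 := p_wS_32_wQ_26_wN_1_rb8033061e24_d42_d1e00x3 g__wS_32_wQ_26_wN_1_rb8033061e24_d42_d1e00v3_0

theorem g_wS_32_wQ_26_wN_1_rb8033061e24_d42_d1e02x5 : GoodKC AS c_wS_32_wQ_26_wN_1_rb8033061e24_d42_d1e02x5 := p_wS_32_wQ_26_wN_1_rb8033061e24_d42_d1e02x3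

theorem g__wS_32_wQ_26_wN_1_rb8033061e24_d42_d1e03x3_0 : GoodKC AS k_wS_32_wQ_26_wN_1_rb8033061e24_d42_d1e03x3_0 := p_wS_32_wQ_26_wN_1_rb8033061e24_d42_d1e03x3_0

theorem g_wS_32_wQ_26_wN_1_rb8033061e24_d42_d1e03x5 : GoodKC AS c_wS_32_wQ_26_wN_1_rb8033061e24_d42_d1e03x5 := p_wS_32_wQ_26_wN_1_rb8033061e24_d42_d1e03x3 g__wS_32_wQ_26_wN_1_rb8033061e24_d42_d1e03x3_0

theorem g_wS_32_wQ_26_wN_1_rb8033061e24_d42_d1e06x5 : GoodKC AS c_wS_32_wQ_26_wN_1_rb8033061e24_d42_d1e06x5 := p_wS_32_wQ_26_wN_1_rb8033061e24_d42_d1e06x3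

theorem g__wS_32_wQ_26_wN_1_rb8033061e24_d42_d1e0bx3_2 : GoodKC AS k_wS_32_wQ_26_wN_1_rb8033061e24_d42_d1e0bx3_2 := p_wS_32_wQ_26_wN_1_rb8033061e24_d42_d1e0bx3_2

theorem g__wS_32_wQ_26_wN_1_rb8033061e24_d42_d1e0bx3_1 : GoodKC AS k_wS_32_wQ_26_wN_1_rb8033061e24_d42_d1e0bx3_1 := p_wS_32_wQ_26_wN_1_rb8033061e24_d42_d1e0bx3_1 g__wS_32_wQ_26_wN_1_rb8033061e24_d42_d1e0bx3_2

theorem g__wS_32_wQ_26_wN_1_rb8033061e24_d42_d1e0bx3_0 : GoodKC AS k_wS_32_wQ_26_wN_1_rb8033061e24_d42_d1e0bx3_0 := p_wS_32_wQ_26_wN_1_rb8033061e24_d42_d1e0bx3_0 g__wS_32_wQ_26_wN_1_rb8033061e24_d42_d1e0bx3_1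

theorem g_wS_32_wQ_26_wN_1_rb8033061e24_d42_d1e0bx5 : GoodKC AS c_wS_32_wQ_26_wN_1_rb8033061e24_d42_d1e0bx5 := p_wS_32_wQ_26_wN_1_rb8033061e24_d42_d1e0bx3 g__wS_32_wQ_26_wN_1_rb8033061e24_d42_d1e0bx3_0

theorem g_wS_32_wQ_26_wN_1_rb8033061e24_d42_d1e18x5 : GoodKC AS c_wS_32_wQ_26_wN_1_rb8033061e24_d42_d1e18x5 := p_wS_32_wQ_26_wN_1_rb8033061e24_d42_d1e18x3

theorem g__wS_32_wQ_26_wN_1_rb8033061e24_d42_d1e1bx3_0 : GoodKC AS k_wS_32_wQ_26_wN_1_rb8033061e24_d42_d1e1bx3_0 := p_wS_32_wQ_26_wN_1_rb8033061e24_d42_d1e1bx3_0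

theorem g_wS_32_wQ_26_wN_1_rb8033061e24_d42_d1e1bx5 : GoodKC AS c_wS_32_wQ_26_wN_1_rb8033061e24_d42_d1e1bx5 := p_wS_32_wQ_26_wN_1_rb8033061e24_d42_d1e1bx3 g__wS_32_wQ_26_wN_1_rb8033061e24_d42_d1e1bx3_0

theorem g_wS_32_wQ_26_wN_1_rb8033061e24_d42_d1e1fx5 : GoodKC AS c_wS_32_wQ_26_wN_1_rb8033061e24_d42_d1e1fx5 := p_wS_32_wQ_26_wN_1_rb8033061e24_d42_d1e1fx3

theorem g_wS_32_wQ_26_wN_1_rb8033061e24_d42_d1e20x5 : GoodKC AS c_wS_32_wQ_26_wN_1_rb8033061e24_d42_d1e20x5 := p_wS_32_wQ_26_wN_1_rb8033061e24_d42_d1e20x3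

theorem g_wS_32_wQ_26_wN_1_rb8033061e24_d42_d1e21x5 : GoodKC AS c_wS_32_wQ_26_wN_1_rb8033061e24_d42_d1e21x5 := p_wS_32_wQ_26_wN_1_rb8033061e24_d42_d1e21x3

theorem g_wS_32_wQ_26_wN_1_rb8033061e24_d42_d1e2ax5 : GoodKC AS c_wS_32_wQ_26_wN_1_rb8033061e24_d42_d1e2ax5 := p_wS_32_wQ_26_wN_1_rb8033061e24_d42_d1e2ax3

theorem g__wS_32_wQ_26_wN_1_rb8033061e24_d42_d1ex5_3 : GoodKC AS k_wS_32_wQ_26_wN_1_rb8033061e24_d42_d1ex5_3 := p_wS_32_wQ_26_wN_1_rb8033061e24_d42_d1ex5_3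

theorem g__wS_32_wQ_26_wN_1_rb8033061e24_d42_d1ex5_5 : GoodKC AS k_wS_32_wQ_26_wN_1_rb8033061e24_d42_d1ex5_5 := p_wS_32_wQ_26_wN_1_rb8033061e24_d42_d1ex5_5

theorem g__wS_32_wQ_26_wN_1_rb8033061e24_d42_d1ex5_4 : GoodKC AS k_wS_32_wQ_26_wN_1_rb8033061e24_d42_d1ex5_4 := p_wS_32_wQ_26_wN_1_rb8033061e24_d42_d1ex5_4 g__wS_32_wQ_26_wN_1_rb8033061e24_d42_d1ex5_5

theorem g__wS_32_wQ_26_wN_1_rb8033061e24_d42_d1ex5_2 : GoodKC AS k_wS_32_wQ_26_wN_1_rb8033061e24_d42_d1ex5_2 := p_wS_32_wQ_26_wN_1_rb8033061e24_d42_d1ex5_2 g__wS_32_wQ_26_wN_1_rb8033061e24_d42_d1ex5_3 g__wS_32_wQ_26_wN_1_rb8033061e24_d42_d1ex5_4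

theorem g__wS_32_wQ_26_wN_1_rb8033061e24_d42_d1ex5_1 : GoodKC AS k_wS_32_wQ_26_wN_1_rb8033061e24_d42_d1ex5_1 := p_wS_32_wQ_26_wN_1_rb8033061e24_d42_d1ex5_1 g__wS_32_wQ_26_wN_1_rb8033061e24_d42_d1ex5_2

theorem g__wS_32_wQ_26_wN_1_rb8033061e24_d42_d1ex5_6 : GoodKC AS k_wS_32_wQ_26_wN_1_rb8033061e24_d42_d1ex5_6 := p_wS_32_wQ_26_wN_1_rb8033061e24_d42_d1ex5_6

theorem g_wS_32_wQ_26_wN_1_rb8033061e24_d42_d1ex7 : GoodKC AS c_wS_32_wQ_26_wN_1_rb8033061e24_d42_d1ex7 := p_wS_32_wQ_26_wN_1_rb8033061e24_d42_d1ex5 g_wS_32_wQ_26_wN_1_rb8033061e24_d42_d1e2dx5 g_wS_32_wQ_26_wN_1_rb8033061e24_d42_d1e2cx5 g_wS_32_wQ_26_wN_1_rb8033061e24_d42_d1e2bx5 g_wS_32_wQ_26_wN_1_rb8033061e24_d42_d1e29x5 g_wS_32_wQ_26_wN_1_rb8033061e24_d42_d1e28x5 g_wS_32_wQ_26_wN_1_rb8033061e24_d42_d1e27x5 g_wS_32_wQ_26_wN_1_rb8033061e24_d42_d1e26x5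 g_wS_32_wQ_26_wN_1_rb8033061e24_d42_d1e25x5 g_wS_32_wQ_26_wN_1_rb8033061e24_d42_d1e24x5 g_wS_32_wQ_26_wN_1_rb8033061e24_d42_d1e23x5 g_wS_32_wQ_26_wN_1_rb8033061e24_d42_d1e22x5 g_wS_32_wQ_26_wN_1_rb8033061e24_d42_d1e1ex5 g_wS_32_wQ_26_wN_1_rb8033061e24_d42_d1e1dx5 g_wS_32_wQ_26_wN_1_rb8033061e24_d42_d1e1cx5 g_wS_32_wQ_26_wN_1_rb8033061e24_d42_d1e1ax5 g_wS_32_wQ_26_wN_1_rb8033061e24_d42_d1e19x5 g_wS_32_wQ_26_wN_1_rb8033061e24_d42_d1e17x5 g_wS_32_wQ_26_wN_1_rb8033061e24_d42_d1e16x5 g_wS_32_wQ_26_wN_1_rb8033061e24_d42_d1e15x5 g_wS_32_wQ_26_wN_1_rb8033061e24_d42_d1e14x5 g_wS_32_wQ_26_wN_1_rb8033061e24_d42_d1e13x5 g_wS_32_wQ_26_wN_1_rb8033061e24_d42_d1e12x5 g_wS_32_wQ_26_wN_1_rb8033061e24_d42_d1e11x5 g_wS_32_wQ_26_wN_1_rb8033061e24_d42_d1e10x5 g_wS_32_wQ_26_wN_1_rb8033061e24_d42_d1e0fx5 g_wS_32_wQ_26_wN_1_rb8033061e24_d42_d1e0ex5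 g_wS_32_wQ_26_wN_1_rb8033061e24_d42_d1e0dx5 g_wS_32_wQ_26_wN_1_rb8033061e24_d42_d1e0cx5 g_wS_32_wQ_26_wN_1_rb8033061e24_d42_d1e0ax5 g_wS_32_wQ_26_wN_1_rb8033061e24_d42_d1e09x5 g_wS_32_wQ_26_wN_1_rb8033061e24_d42_d1e08x5 g_wS_32_wQ_26_wN_1_rb8033061e24_d42_d1e07x5 g_wS_32_wQ_26_wN_1_rb8033061e24_d42_d1e05x5 g__wS_32_wQ_26_wN_1_rb8033061e24_d42_d1ex5_0 g_wS_32_wQ_26_wN_1_rb8033061e24_d42_d1e04x5 g_wS_32_wQ_26_wN_1_rb8033061e24_d42_d1e01x5 g_wS_32_wQ_26_wN_1_rb8033061e24_d42_d1e00x5 g_wS_32_wQ_26_wN_1_rb8033061e24_d42_d1e02x5 g_wS_32_wQ_26_wN_1_rb8033061e24_d42_d1e03x5 g_wS_32_wQ_26_wN_1_rb8033061e24_d42_d1e06x5 g_wS_32_wQ_26_wN_1_rb8033061e24_d42_d1e0bx5 g_wS_32_wQ_26_wN_1_rb8033061e24_d42_d1e18x5 g_wS_32_wQ_26_wN_1_rb8033061e24_d42_d1e1bx5 g_wS_32_wQ_26_wN_1_rb8033061e24_d42_d1e1fx5 g_wS_32_wQ_26_wN_1_rb8033061e24_d42_d1e20x5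 g_wS_32_wQ_26_wN_1_rb8033061e24_d42_d1e21x5 g_wS_32_wQ_26_wN_1_rb8033061e24_d42_d1e2ax5 g__wS_32_wQ_26_wN_1_rb8033061e24_d42_d1ex5_1 g__wS_32_wQ_26_wN_1_rb8033061e24_d42_d1ex5_6

theorem g_wS_32_wQ_26_wN_1_rb8033061e24_d42_d1fx7 : GoodKC AS c_wS_32_wQ_26_wN_1_rb8033061e24_d42_d1fx7 := p_wS_32_wQ_26_wN_1_rb8033061e24_d42_d1fx5

theorem g_wS_32_wQ_26_wN_1_rb8033061e24_d42_d211dx5 : GoodKC AS c_wS_32_wQ_26_wN_1_rb8033061e24_d42_d211dx5 := p_wS_32_wQ_26_wN_1_rb8033061e24_d42_d211dx3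

theorem g_wS_32_wQ_26_wN_1_rb8033061e24_d42_d211cx5 : GoodKC AS c_wS_32_wQ_26_wN_1_rb8033061e24_d42_d211cx5 := p_wS_32_wQ_26_wN_1_rb8033061e24_d42_d211cx3

theorem g_wS_32_wQ_26_wN_1_rb8033061e24_d42_d211ax5 : GoodKC AS c_wS_32_wQ_26_wN_1_rb8033061e24_d42_d211ax5 := p_wS_32_wQ_26_wN_1_rb8033061e24_d42_d211ax3

theorem g_wS_32_wQ_26_wN_1_rb8033061e24_d42_d2118x5 : GoodKC AS c_wS_32_wQ_26_wN_1_rb8033061e24_d42_d2118x5 := p_wS_32_wQ_26_wN_1_rb8033061e24_d42_d2118x3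

theorem g_wS_32_wQ_26_wN_1_rb8033061e24_d42_d21141bx3 : GoodKC AS c_wS_32_wQ_26_wN_1_rb8033061e24_d42_d21141bx3 := p_wS_32_wQ_26_wN_1_rb8033061e24_d42_d21141bx2

theorem g_wS_32_wQ_26_wN_1_rb8033061e24_d42_d21141ax3 : GoodKC AS c_wS_32_wQ_26_wN_1_rb8033061e24_d42_d21141ax3 := p_wS_32_wQ_26_wN_1_rb8033061e24_d42_d21141ax2

theorem g_wS_32_wQ_26_wN_1_rb8033061e24_d42_d211419x3 : GoodKC AS c_wS_32_wQ_26_wN_1_rb8033061e24_d42_d211419x3 := p_wS_32_wQ_26_wN_1_rb8033061e24_d42_d211419x2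

theorem g__wS_32_wQ_26_wN_1_rb8033061e24_d42_d211418x2_0 : GoodKC AS k_wS_32_wQ_26_wN_1_rb8033061e24_d42_d211418x2_0 := p_wS_32_wQ_26_wN_1_rb8033061e24_d42_d211418x2_0

theorem g_wS_32_wQ_26_wN_1_rb8033061e24_d42_d211418x3 : GoodKC AS c_wS_32_wQ_26_wN_1_rb8033061e24_d42_d211418x3 := p_wS_32_wQ_26_wN_1_rb8033061e24_d42_d211418x2 g__wS_32_wQ_26_wN_1_rb8033061e24_d42_d211418x2_0

theorem g_wS_32_wQ_26_wN_1_rb8033061e24_d42_d211415x3 : GoodKC AS c_wS_32_wQ_26_wN_1_rb8033061e24_d42_d211415x3 := p_wS_32_wQ_26_wN_1_rb8033061e24_d42_d211415x2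

theorem g_wS_32_wQ_26_wN_1_rb8033061e24_d42_d2114131cx1 : GoodKC AS c_wS_32_wQ_26_wN_1_rb8033061e24_d42_d2114131cx1 := p_wS_32_wQ_26_wN_1_rb8033061e24_d42_d2114131c

theorem g_wS_32_wQ_26_wN_1_rb8033061e24_d42_d2114131bx1 : GoodKC AS c_wS_32_wQ_26_wN_1_rb8033061e24_d42_d2114131bx1 := p_wS_32_wQ_26_wN_1_rb8033061e24_d42_d2114131b

theorem g_wS_32_wQ_26_wN_1_rb8033061e24_d42_d21141319x1 : GoodKC AS c_wS_32_wQ_26_wN_1_rb8033061e24_d42_d21141319x1 := p_wS_32_wQ_26_wN_1_rb8033061e24_d42_d21141319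

theorem g_wS_32_wQ_26_wN_1_rb8033061e24_d42_d21141318x1 : GoodKC AS c_wS_32_wQ_26_wN_1_rb8033061e24_d42_d21141318x1 := p_wS_32_wQ_26_wN_1_rb8033061e24_d42_d21141318

theorem g_wS_32_wQ_26_wN_1_rb8033061e24_d42_d21141316x1 : GoodKC AS c_wS_32_wQ_26_wN_1_rb8033061e24_d42_d21141316x1 := p_wS_32_wQ_26_wN_1_rb8033061e24_d42_d21141316

theorem g_wS_32_wQ_26_wN_1_rb8033061e24_d42_d21141314x1 : GoodKC AS c_wS_32_wQ_26_wN_1_rb8033061e24_d42_d21141314x1 := p_wS_32_wQ_26_wN_1_rb8033061e24_d42_d21141314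

theorem g_wS_32_wQ_26_wN_1_rb8033061e24_d42_d21141313x1 : GoodKC AS c_wS_32_wQ_26_wN_1_rb8033061e24_d42_d21141313x1 := p_wS_32_wQ_26_wN_1_rb8033061e24_d42_d21141313

theorem g_wS_32_wQ_26_wN_1_rb8033061e24_d42_d21141312x1 : GoodKC AS c_wS_32_wQ_26_wN_1_rb8033061e24_d42_d21141312x1 := p_wS_32_wQ_26_wN_1_rb8033061e24_d42_d21141312

theorem g_wS_32_wQ_26_wN_1_rb8033061e24_d42_d21141311x1 : GoodKC AS c_wS_32_wQ_26_wN_1_rb8033061e24_d42_d21141311x1 := p_wS_32_wQ_26_wN_1_rb8033061e24_d42_d21141311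

theorem g_wS_32_wQ_26_wN_1_rb8033061e24_d42_d21141310x1 : GoodKC AS c_wS_32_wQ_26_wN_1_rb8033061e24_d42_d21141310x1 := p_wS_32_wQ_26_wN_1_rb8033061e24_d42_d21141310

theorem g_wS_32_wQ_26_wN_1_rb8033061e24_d42_d2114130ex1 : GoodKC AS c_wS_32_wQ_26_wN_1_rb8033061e24_d42_d2114130ex1 := p_wS_32_wQ_26_wN_1_rb8033061e24_d42_d2114130e

theorem g__wS_32_wQ_26_wN_1_rb8033061e24_d42_d2114130c_0 : GoodKC AS k_wS_32_wQ_26_wN_1_rb8033061e24_d42_d2114130c_0 := p_wS_32_wQ_26_wN_1_rb8033061e24_d42_d2114130c_0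

theorem g_wS_32_wQ_26_wN_1_rb8033061e24_d42_d2114130cx1 : GoodKC AS c_wS_32_wQ_26_wN_1_rb8033061e24_d42_d2114130cx1 := p_wS_32_wQ_26_wN_1_rb8033061e24_d42_d2114130c g__wS_32_wQ_26_wN_1_rb8033061e24_d42_d2114130c_0

theorem g_wS_32_wQ_26_wN_1_rb8033061e24_d42_d2114130bx1 : GoodKC AS c_wS_32_wQ_26_wN_1_rb8033061e24_d42_d2114130bx1 := p_wS_32_wQ_26_wN_1_rb8033061e24_d42_d2114130b

theorem g_wS_32_wQ_26_wN_1_rb8033061e24_d42_d2114130ax1 : GoodKC AS c_wS_32_wQ_26_wN_1_rb8033061e24_d42_d2114130ax1 := p_wS_32_wQ_26_wN_1_rb8033061e24_d42_d2114130a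

theorem g_wS_32_wQ_26_wN_1_rb8033061e24_d42_d21141309x1 : GoodKC AS c_wS_32_wQ_26_wN_1_rb8033061e24_d42_d21141309x1 := p_wS_32_wQ_26_wN_1_rb8033061e24_d42_d21141309

theorem g_wS_32_wQ_26_wN_1_rb8033061e24_d42_d21141308x1 : GoodKC AS c_wS_32_wQ_26_wN_1_rb8033061e24_d42_d21141308x1 := p_wS_32_wQ_26_wN_1_rb8033061e24_d42_d21141308

theorem g_wS_32_wQ_26_wN_1_rb8033061e24_d42_d21141307x1 : GoodKC AS c_wS_32_wQ_26_wN_1_rb8033061e24_d42_d21141307x1 := p_wS_32_wQ_26_wN_1_rb8033061e24_d42_d21141307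

theorem g_wS_32_wQ_26_wN_1_rb8033061e24_d42_d21141305x1 : GoodKC AS c_wS_32_wQ_26_wN_1_rb8033061e24_d42_d21141305x1 := p_wS_32_wQ_26_wN_1_rb8033061e24_d42_d21141305

theorem g_wS_32_wQ_26_wN_1_rb8033061e24_d42_d21141302x1 : GoodKC AS c_wS_32_wQ_26_wN_1_rb8033061e24_d42_d21141302x1 := p_wS_32_wQ_26_wN_1_rb8033061e24_d42_d21141302

theorem g_wS_32_wQ_26_wN_1_rb8033061e24_d42_d21141301x1 : GoodKC AS c_wS_32_wQ_26_wN_1_rb8033061e24_d42_d21141301x1 := p_wS_32_wQ_26_wN_1_rb8033061e24_d42_d21141301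

theorem g_wS_32_wQ_26_wN_1_rb8033061e24_d42_d21141300x1 : GoodKC AS c_wS_32_wQ_26_wN_1_rb8033061e24_d42_d21141300x1 := p_wS_32_wQ_26_wN_1_rb8033061e24_d42_d21141300

theorem g_wS_32_wQ_26_wN_1_rb8033061e24_d42_d21141303x1 : GoodKC AS c_wS_32_wQ_26_wN_1_rb8033061e24_d42_d21141303x1 := p_wS_32_wQ_26_wN_1_rb8033061e24_d42_d21141303

theorem g_wS_32_wQ_26_wN_1_rb8033061e24_d42_d21141304x1 : GoodKC AS c_wS_32_wQ_26_wN_1_rb8033061e24_d42_d21141304x1 := p_wS_32_wQ_26_wN_1_rb8033061e24_d42_d21141304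

theorem g_wS_32_wQ_26_wN_1_rb8033061e24_d42_d21141306x1 : GoodKC AS c_wS_32_wQ_26_wN_1_rb8033061e24_d42_d21141306x1 := p_wS_32_wQ_26_wN_1_rb8033061e24_d42_d21141306

theorem g_wS_32_wQ_26_wN_1_rb8033061e24_d42_d2114130dx1 : GoodKC AS c_wS_32_wQ_26_wN_1_rb8033061e24_d42_d2114130dx1 := p_wS_32_wQ_26_wN_1_rb8033061e24_d42_d2114130d

theorem g_wS_32_wQ_26_wN_1_rb8033061e24_d42_d2114130fx1 : GoodKC AS c_wS_32_wQ_26_wN_1_rb8033061e24_d42_d2114130fx1 := p_wS_32_wQ_26_wN_1_rb8033061e24_d42_d2114130f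

theorem g_wS_32_wQ_26_wN_1_rb8033061e24_d42_d21141315x1 : GoodKC AS c_wS_32_wQ_26_wN_1_rb8033061e24_d42_d21141315x1 := p_wS_32_wQ_26_wN_1_rb8033061e24_d42_d21141315

theorem g_wS_32_wQ_26_wN_1_rb8033061e24_d42_d21141317x1 : GoodKC AS c_wS_32_wQ_26_wN_1_rb8033061e24_d42_d21141317x1 := p_wS_32_wQ_26_wN_1_rb8033061e24_d42_d21141317

theorem g_wS_32_wQ_26_wN_1_rb8033061e24_d42_d2114131ax1 : GoodKC AS c_wS_32_wQ_26_wN_1_rb8033061e24_d42_d2114131ax1 := p_wS_32_wQ_26_wN_1_rb8033061e24_d42_d2114131a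

theorem g_wS_32_wQ_26_wN_1_rb8033061e24_d42_d2114131dx1 : GoodKC AS c_wS_32_wQ_26_wN_1_rb8033061e24_d42_d2114131dx1 := p_wS_32_wQ_26_wN_1_rb8033061e24_d42_d2114131d

theorem g_wS_32_wQ_26_wN_1_rb8033061e24_d42_d211413x3 : GoodKC AS c_wS_32_wQ_26_wN_1_rb8033061e24_d42_d211413x3 := p_wS_32_wQ_26_wN_1_rb8033061e24_d42_d211413x1 g_wS_32_wQ_26_wN_1_rb8033061e24_d42_d2114131cx1 g_wS_32_wQ_26_wN_1_rb8033061e24_d42_d2114131bx1 g_wS_32_wQ_26_wN_1_rb8033061e24_d42_d21141319x1 g_wS_32_wQ_26_wN_1_rb8033061e24_d42_d21141318x1 g_wS_32_wQ_26_wN_1_rb8033061e24_d42_d21141316x1 g_wS_32_wQ_26_wN_1_rb8033061e24_d42_d21141314x1 g_wS_32_wQ_26_wN_1_rb8033061e24_d42_d21141313x1 g_wS_32_wQ_26_wN_1_rb8033061e24_d42_d21141312x1 g_wS_32_wQ_26_wN_1_rb8033061e24_d42_d21141311x1 g_wS_32_wQ_26_wN_1_rb8033061e24_d42_d21141310x1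 g_wS_32_wQ_26_wN_1_rb8033061e24_d42_d2114130ex1 g_wS_32_wQ_26_wN_1_rb8033061e24_d42_d2114130cx1 g_wS_32_wQ_26_wN_1_rb8033061e24_d42_d2114130bx1 g_wS_32_wQ_26_wN_1_rb8033061e24_d42_d2114130ax1 g_wS_32_wQ_26_wN_1_rb8033061e24_d42_d21141309x1 g_wS_32_wQ_26_wN_1_rb8033061e24_d42_d21141308x1 g_wS_32_wQ_26_wN_1_rb8033061e24_d42_d21141307x1 g_wS_32_wQ_26_wN_1_rb8033061e24_d42_d21141305x1 g_wS_32_wQ_26_wN_1_rb8033061e24_d42_d21141302x1 g_wS_32_wQ_26_wN_1_rb8033061e24_d42_d21141301x1 g_wS_32_wQ_26_wN_1_rb8033061e24_d42_d21141300x1 g_wS_32_wQ_26_wN_1_rb8033061e24_d42_d21141303x1 g_wS_32_wQ_26_wN_1_rb8033061e24_d42_d21141304x1 g_wS_32_wQ_26_wN_1_rb8033061e24_d42_d21141306x1 g_wS_32_wQ_26_wN_1_rb8033061e24_d42_d2114130dx1 g_wS_32_wQ_26_wN_1_rb8033061e24_d42_d2114130fx1 g_wS_32_wQ_26_wN_1_rb8033061e24_d42_d21141315x1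 g_wS_32_wQ_26_wN_1_rb8033061e24_d42_d21141317x1 g_wS_32_wQ_26_wN_1_rb8033061e24_d42_d2114131ax1 g_wS_32_wQ_26_wN_1_rb8033061e24_d42_d2114131dx1

theorem g_wS_32_wQ_26_wN_1_rb8033061e24_d42_d211412x3 : GoodKC AS c_wS_32_wQ_26_wN_1_rb8033061e24_d42_d211412x3 := p_wS_32_wQ_26_wN_1_rb8033061e24_d42_d211412x2

theorem g__wS_32_wQ_26_wN_1_rb8033061e24_d42_d211411x2_0 : GoodKC AS k_wS_32_wQ_26_wN_1_rb8033061e24_d42_d211411x2_0 := p_wS_32_wQ_26_wN_1_rb8033061e24_d42_d211411x2_0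

theorem g_wS_32_wQ_26_wN_1_rb8033061e24_d42_d211411x3 : GoodKC AS c_wS_32_wQ_26_wN_1_rb8033061e24_d42_d211411x3 := p_wS_32_wQ_26_wN_1_rb8033061e24_d42_d211411x2 g__wS_32_wQ_26_wN_1_rb8033061e24_d42_d211411x2_0

theorem g_wS_32_wQ_26_wN_1_rb8033061e24_d42_d21140ex3 : GoodKC AS c_wS_32_wQ_26_wN_1_rb8033061e24_d42_d21140ex3 := p_wS_32_wQ_26_wN_1_rb8033061e24_d42_d21140ex2

theorem g_wS_32_wQ_26_wN_1_rb8033061e24_d42_d21140dx3 : GoodKC AS c_wS_32_wQ_26_wN_1_rb8033061e24_d42_d21140dx3 := p_wS_32_wQ_26_wN_1_rb8033061e24_d42_d21140dx2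

theorem g_wS_32_wQ_26_wN_1_rb8033061e24_d42_d21140cx3 : GoodKC AS c_wS_32_wQ_26_wN_1_rb8033061e24_d42_d21140cx3 := p_wS_32_wQ_26_wN_1_rb8033061e24_d42_d21140cx2

theorem g_wS_32_wQ_26_wN_1_rb8033061e24_d42_d21140ax3 : GoodKC AS c_wS_32_wQ_26_wN_1_rb8033061e24_d42_d21140ax3 := p_wS_32_wQ_26_wN_1_rb8033061e24_d42_d21140ax2

theorem g_wS_32_wQ_26_wN_1_rb8033061e24_d42_d211409x3 : GoodKC AS c_wS_32_wQ_26_wN_1_rb8033061e24_d42_d211409x3 := p_wS_32_wQ_26_wN_1_rb8033061e24_d42_d211409x2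

theorem g_wS_32_wQ_26_wN_1_rb8033061e24_d42_d211407x3 : GoodKC AS c_wS_32_wQ_26_wN_1_rb8033061e24_d42_d211407x3 := p_wS_32_wQ_26_wN_1_rb8033061e24_d42_d211407x2

theorem g_wS_32_wQ_26_wN_1_rb8033061e24_d42_d211405x3 : GoodKC AS c_wS_32_wQ_26_wN_1_rb8033061e24_d42_d211405x3 := p_wS_32_wQ_26_wN_1_rb8033061e24_d42_d211405x2

theorem g_wS_32_wQ_26_wN_1_rb8033061e24_d42_d211401x3 : GoodKC AS c_wS_32_wQ_26_wN_1_rb8033061e24_d42_d211401x3 := p_wS_32_wQ_26_wN_1_rb8033061e24_d42_d211401x2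

theorem g_wS_32_wQ_26_wN_1_rb8033061e24_d42_d211400x3 : GoodKC AS c_wS_32_wQ_26_wN_1_rb8033061e24_d42_d211400x3 := p_wS_32_wQ_26_wN_1_rb8033061e24_d42_d211400x2

theorem g_wS_32_wQ_26_wN_1_rb8033061e24_d42_d211402x3 : GoodKC AS c_wS_32_wQ_26_wN_1_rb8033061e24_d42_d211402x3 := p_wS_32_wQ_26_wN_1_rb8033061e24_d42_d211402x2

theorem g_wS_32_wQ_26_wN_1_rb8033061e24_d42_d211403x3 : GoodKC AS c_wS_32_wQ_26_wN_1_rb8033061e24_d42_d211403x3 := p_wS_32_wQ_26_wN_1_rb8033061e24_d42_d211403x2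

theorem g_wS_32_wQ_26_wN_1_rb8033061e24_d42_d211404x3 : GoodKC AS c_wS_32_wQ_26_wN_1_rb8033061e24_d42_d211404x3 := p_wS_32_wQ_26_wN_1_rb8033061e24_d42_d211404x2

theorem g_wS_32_wQ_26_wN_1_rb8033061e24_d42_d211406x3 : GoodKC AS c_wS_32_wQ_26_wN_1_rb8033061e24_d42_d211406x3 := p_wS_32_wQ_26_wN_1_rb8033061e24_d42_d211406x2

theorem g__wS_32_wQ_26_wN_1_rb8033061e24_d42_d2114x3_0 : GoodKC AS k_wS_32_wQ_26_wN_1_rb8033061e24_d42_d2114x3_0 := p_wS_32_wQ_26_wN_1_rb8033061e24_d42_d2114x3_0 g_wS_32_wQ_26_wN_1_rb8033061e24_d42_d211407x3 g_wS_32_wQ_26_wN_1_rb8033061e24_d42_d211405x3 g_wS_32_wQ_26_wN_1_rb8033061e24_d42_d211401x3 g_wS_32_wQ_26_wN_1_rb8033061e24_d42_d211400x3 g_wS_32_wQ_26_wN_1_rb8033061e24_d42_d211402x3 g_wS_32_wQ_26_wN_1_rb8033061e24_d42_d211403x3 g_wS_32_wQ_26_wN_1_rb8033061e24_d42_d211404x3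 g_wS_32_wQ_26_wN_1_rb8033061e24_d42_d211406x3

theorem g__wS_32_wQ_26_wN_1_rb8033061e24_d42_d2114x3_1 : GoodKC AS k_wS_32_wQ_26_wN_1_rb8033061e24_d42_d2114x3_1 := p_wS_32_wQ_26_wN_1_rb8033061e24_d42_d2114x3_1

theorem g__wS_32_wQ_26_wN_1_rb8033061e24_d42_d2114x3_6 : GoodKC AS k_wS_32_wQ_26_wN_1_rb8033061e24_d42_d2114x3_6 := p_wS_32_wQ_26_wN_1_rb8033061e24_d42_d2114x3_6

theorem g__wS_32_wQ_26_wN_1_rb8033061e24_d42_d2114x3_5 : GoodKC AS k_wS_32_wQ_26_wN_1_rb8033061e24_d42_d2114x3_5 := p_wS_32_wQ_26_wN_1_rb8033061e24_d42_d2114x3_5 g__wS_32_wQ_26_wN_1_rb8033061e24_d42_d2114x3_6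

theorem g__wS_32_wQ_26_wN_1_rb8033061e24_d42_d2114x3_4 : GoodKC AS k_wS_32_wQ_26_wN_1_rb8033061e24_d42_d2114x3_4 := p_wS_32_wQ_26_wN_1_rb8033061e24_d42_d2114x3_4 g__wS_32_wQ_26_wN_1_rb8033061e24_d42_d2114x3_5

theorem g__wS_32_wQ_26_wN_1_rb8033061e24_d42_d2114x3_3 : GoodKC AS k_wS_32_wQ_26_wN_1_rb8033061e24_d42_d2114x3_3 := p_wS_32_wQ_26_wN_1_rb8033061e24_d42_d2114x3_3 g__wS_32_wQ_26_wN_1_rb8033061e24_d42_d2114x3_4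

theorem g__wS_32_wQ_26_wN_1_rb8033061e24_d42_d2114x3_2 : GoodKC AS k_wS_32_wQ_26_wN_1_rb8033061e24_d42_d2114x3_2 := p_wS_32_wQ_26_wN_1_rb8033061e24_d42_d2114x3_2 g__wS_32_wQ_26_wN_1_rb8033061e24_d42_d2114x3_3

theorem g__wS_32_wQ_26_wN_1_rb8033061e24_d42_d2114x3_7 : GoodKC AS k_wS_32_wQ_26_wN_1_rb8033061e24_d42_d2114x3_7 := p_wS_32_wQ_26_wN_1_rb8033061e24_d42_d2114x3_7

theorem g_wS_32_wQ_26_wN_1_rb8033061e24_d42_d211408x3 : GoodKC AS c_wS_32_wQ_26_wN_1_rb8033061e24_d42_d211408x3 := p_wS_32_wQ_26_wN_1_rb8033061e24_d42_d211408x2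

theorem g_wS_32_wQ_26_wN_1_rb8033061e24_d42_d21140bx3 : GoodKC AS c_wS_32_wQ_26_wN_1_rb8033061e24_d42_d21140bx3 := p_wS_32_wQ_26_wN_1_rb8033061e24_d42_d21140bx2

theorem g_wS_32_wQ_26_wN_1_rb8033061e24_d42_d21140fx3 : GoodKC AS c_wS_32_wQ_26_wN_1_rb8033061e24_d42_d21140fx3 := p_wS_32_wQ_26_wN_1_rb8033061e24_d42_d21140fx2

theorem g_wS_32_wQ_26_wN_1_rb8033061e24_d42_d211410x3 : GoodKC AS c_wS_32_wQ_26_wN_1_rb8033061e24_d42_d211410x3 := p_wS_32_wQ_26_wN_1_rb8033061e24_d42_d211410x2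

theorem g_wS_32_wQ_26_wN_1_rb8033061e24_d42_d211414x3 : GoodKC AS c_wS_32_wQ_26_wN_1_rb8033061e24_d42_d211414x3 := p_wS_32_wQ_26_wN_1_rb8033061e24_d42_d211414x2

theorem g__wS_32_wQ_26_wN_1_rb8033061e24_d42_d211416x2_3 : GoodKC AS k_wS_32_wQ_26_wN_1_rb8033061e24_d42_d211416x2_3 := p_wS_32_wQ_26_wN_1_rb8033061e24_d42_d211416x2_3

theorem g__wS_32_wQ_26_wN_1_rb8033061e24_d42_d211416x2_2 : GoodKC AS k_wS_32_wQ_26_wN_1_rb8033061e24_d42_d211416x2_2 := p_wS_32_wQ_26_wN_1_rb8033061e24_d42_d211416x2_2 g__wS_32_wQ_26_wN_1_rb8033061e24_d42_d211416x2_3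

theorem g__wS_32_wQ_26_wN_1_rb8033061e24_d42_d211416x2_1 : GoodKC AS k_wS_32_wQ_26_wN_1_rb8033061e24_d42_d211416x2_1 := p_wS_32_wQ_26_wN_1_rb8033061e24_d42_d211416x2_1 g__wS_32_wQ_26_wN_1_rb8033061e24_d42_d211416x2_2

theorem g__wS_32_wQ_26_wN_1_rb8033061e24_d42_d211416x2_5 : GoodKC AS k_wS_32_wQ_26_wN_1_rb8033061e24_d42_d211416x2_5 := p_wS_32_wQ_26_wN_1_rb8033061e24_d42_d211416x2_5

theorem g__wS_32_wQ_26_wN_1_rb8033061e24_d42_d211416x2_4 : GoodKC AS k_wS_32_wQ_26_wN_1_rb8033061e24_d42_d211416x2_4 := p_wS_32_wQ_26_wN_1_rb8033061e24_d42_d211416x2_4 g__wS_32_wQ_26_wN_1_rb8033061e24_d42_d211416x2_5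

theorem g__wS_32_wQ_26_wN_1_rb8033061e24_d42_d211416x2_0 : GoodKC AS k_wS_32_wQ_26_wN_1_rb8033061e24_d42_d211416x2_0 := p_wS_32_wQ_26_wN_1_rb8033061e24_d42_d211416x2_0 g__wS_32_wQ_26_wN_1_rb8033061e24_d42_d211416x2_1 g__wS_32_wQ_26_wN_1_rb8033061e24_d42_d211416x2_4

theorem g_wS_32_wQ_26_wN_1_rb8033061e24_d42_d211416x3 : GoodKC AS c_wS_32_wQ_26_wN_1_rb8033061e24_d42_d211416x3 := p_wS_32_wQ_26_wN_1_rb8033061e24_d42_d211416x2 g__wS_32_wQ_26_wN_1_rb8033061e24_d42_d211416x2_0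

theorem g_wS_32_wQ_26_wN_1_rb8033061e24_d42_d2114170ex2 : GoodKC AS c_wS_32_wQ_26_wN_1_rb8033061e24_d42_d2114170ex2 := p_wS_32_wQ_26_wN_1_rb8033061e24_d42_d2114170e

theorem g_wS_32_wQ_26_wN_1_rb8033061e24_d42_d2114170dx2 : GoodKC AS c_wS_32_wQ_26_wN_1_rb8033061e24_d42_d2114170dx2 := p_wS_32_wQ_26_wN_1_rb8033061e24_d42_d2114170d

theorem g_wS_32_wQ_26_wN_1_rb8033061e24_d42_d2114170cx2 : GoodKC AS c_wS_32_wQ_26_wN_1_rb8033061e24_d42_d2114170cx2 := p_wS_32_wQ_26_wN_1_rb8033061e24_d42_d2114170c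

theorem g_wS_32_wQ_26_wN_1_rb8033061e24_d42_d2114170ax2 : GoodKC AS c_wS_32_wQ_26_wN_1_rb8033061e24_d42_d2114170ax2 := p_wS_32_wQ_26_wN_1_rb8033061e24_d42_d2114170a

theorem g_wS_32_wQ_26_wN_1_rb8033061e24_d42_d21141709x2 : GoodKC AS c_wS_32_wQ_26_wN_1_rb8033061e24_d42_d21141709x2 := p_wS_32_wQ_26_wN_1_rb8033061e24_d42_d21141709

theorem g_wS_32_wQ_26_wN_1_rb8033061e24_d42_d21141706x2 : GoodKC AS c_wS_32_wQ_26_wN_1_rb8033061e24_d42_d21141706x2 := p_wS_32_wQ_26_wN_1_rb8033061e24_d42_d21141706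

theorem g_wS_32_wQ_26_wN_1_rb8033061e24_d42_d21141702x2 : GoodKC AS c_wS_32_wQ_26_wN_1_rb8033061e24_d42_d21141702x2 := p_wS_32_wQ_26_wN_1_rb8033061e24_d42_d21141702

theorem g_wS_32_wQ_26_wN_1_rb8033061e24_d42_d21141701x2 : GoodKC AS c_wS_32_wQ_26_wN_1_rb8033061e24_d42_d21141701x2 := p_wS_32_wQ_26_wN_1_rb8033061e24_d42_d21141701

theorem g_wS_32_wQ_26_wN_1_rb8033061e24_d42_d21141700x2 : GoodKC AS c_wS_32_wQ_26_wN_1_rb8033061e24_d42_d21141700x2 := p_wS_32_wQ_26_wN_1_rb8033061e24_d42_d21141700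

theorem g_wS_32_wQ_26_wN_1_rb8033061e24_d42_d21141703x2 : GoodKC AS c_wS_32_wQ_26_wN_1_rb8033061e24_d42_d21141703x2 := p_wS_32_wQ_26_wN_1_rb8033061e24_d42_d21141703

theorem g_wS_32_wQ_26_wN_1_rb8033061e24_d42_d21141704x2 : GoodKC AS c_wS_32_wQ_26_wN_1_rb8033061e24_d42_d21141704x2 := p_wS_32_wQ_26_wN_1_rb8033061e24_d42_d21141704

theorem g_wS_32_wQ_26_wN_1_rb8033061e24_d42_d21141705x2 : GoodKC AS c_wS_32_wQ_26_wN_1_rb8033061e24_d42_d21141705x2 := p_wS_32_wQ_26_wN_1_rb8033061e24_d42_d21141705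

theorem g_wS_32_wQ_26_wN_1_rb8033061e24_d42_d21141707x2 : GoodKC AS c_wS_32_wQ_26_wN_1_rb8033061e24_d42_d21141707x2 := p_wS_32_wQ_26_wN_1_rb8033061e24_d42_d21141707

theorem g_wS_32_wQ_26_wN_1_rb8033061e24_d42_d21141708x2 : GoodKC AS c_wS_32_wQ_26_wN_1_rb8033061e24_d42_d21141708x2 := p_wS_32_wQ_26_wN_1_rb8033061e24_d42_d21141708

theorem g_wS_32_wQ_26_wN_1_rb8033061e24_d42_d2114170bx2 : GoodKC AS c_wS_32_wQ_26_wN_1_rb8033061e24_d42_d2114170bx2 := p_wS_32_wQ_26_wN_1_rb8033061e24_d42_d2114170b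

theorem g_wS_32_wQ_26_wN_1_rb8033061e24_d42_d2114170fx2 : GoodKC AS c_wS_32_wQ_26_wN_1_rb8033061e24_d42_d2114170fx2 := p_wS_32_wQ_26_wN_1_rb8033061e24_d42_d2114170f

theorem g__wS_32_wQ_26_wN_1_rb8033061e24_d42_d21141710_0 : GoodKC AS k_wS_32_wQ_26_wN_1_rb8033061e24_d42_d21141710_0 := p_wS_32_wQ_26_wN_1_rb8033061e24_d42_d21141710_0

theorem g_wS_32_wQ_26_wN_1_rb8033061e24_d42_d21141710x2 : GoodKC AS c_wS_32_wQ_26_wN_1_rb8033061e24_d42_d21141710x2 := p_wS_32_wQ_26_wN_1_rb8033061e24_d42_d21141710 g__wS_32_wQ_26_wN_1_rb8033061e24_d42_d21141710_0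

theorem g_wS_32_wQ_26_wN_1_rb8033061e24_d42_d21141711x2 : GoodKC AS c_wS_32_wQ_26_wN_1_rb8033061e24_d42_d21141711x2 := p_wS_32_wQ_26_wN_1_rb8033061e24_d42_d21141711

theorem g_wS_32_wQ_26_wN_1_rb8033061e24_d42_d211417x3 : GoodKC AS c_wS_32_wQ_26_wN_1_rb8033061e24_d42_d211417x3 := p_wS_32_wQ_26_wN_1_rb8033061e24_d42_d211417x2 g_wS_32_wQ_26_wN_1_rb8033061e24_d42_d2114170ex2 g_wS_32_wQ_26_wN_1_rb8033061e24_d42_d2114170dx2 g_wS_32_wQ_26_wN_1_rb8033061e24_d42_d2114170cx2 g_wS_32_wQ_26_wN_1_rb8033061e24_d42_d2114170ax2 g_wS_32_wQ_26_wN_1_rb8033061e24_d42_d21141709x2 g_wS_32_wQ_26_wN_1_rb8033061e24_d42_d21141706x2 g_wS_32_wQ_26_wN_1_rb8033061e24_d42_d21141702x2 g_wS_32_wQ_26_wN_1_rb8033061e24_d42_d21141701x2 g_wS_32_wQ_26_wN_1_rb8033061e24_d42_d21141700x2 g_wS_32_wQ_26_wN_1_rb8033061e24_d42_d21141703x2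 g_wS_32_wQ_26_wN_1_rb8033061e24_d42_d21141704x2 g_wS_32_wQ_26_wN_1_rb8033061e24_d42_d21141705x2 g_wS_32_wQ_26_wN_1_rb8033061e24_d42_d21141707x2 g_wS_32_wQ_26_wN_1_rb8033061e24_d42_d21141708x2 g_wS_32_wQ_26_wN_1_rb8033061e24_d42_d2114170bx2 g_wS_32_wQ_26_wN_1_rb8033061e24_d42_d2114170fx2 g_wS_32_wQ_26_wN_1_rb8033061e24_d42_d21141710x2 g_wS_32_wQ_26_wN_1_rb8033061e24_d42_d21141711x2

theorem g_wS_32_wQ_26_wN_1_rb8033061e24_d42_d2114x5 : GoodKC AS c_wS_32_wQ_26_wN_1_rb8033061e24_d42_d2114x5 := p_wS_32_wQ_26_wN_1_rb8033061e24_d42_d2114x3 g_wS_32_wQ_26_wN_1_rb8033061e24_d42_d21141bx3 g_wS_32_wQ_26_wN_1_rb8033061e24_d42_d21141ax3 g_wS_32_wQ_26_wN_1_rb8033061e24_d42_d211419x3 g_wS_32_wQ_26_wN_1_rb8033061e24_d42_d211418x3 g_wS_32_wQ_26_wN_1_rb8033061e24_d42_d211415x3 g_wS_32_wQ_26_wN_1_rb8033061e24_d42_d211413x3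 g_wS_32_wQ_26_wN_1_rb8033061e24_d42_d211412x3 g_wS_32_wQ_26_wN_1_rb8033061e24_d42_d211411x3 g_wS_32_wQ_26_wN_1_rb8033061e24_d42_d21140ex3 g_wS_32_wQ_26_wN_1_rb8033061e24_d42_d21140dx3 g_wS_32_wQ_26_wN_1_rb8033061e24_d42_d21140cx3 g_wS_32_wQ_26_wN_1_rb8033061e24_d42_d21140ax3 g_wS_32_wQ_26_wN_1_rb8033061e24_d42_d211409x3 g__wS_32_wQ_26_wN_1_rb8033061e24_d42_d2114x3_0 g__wS_32_wQ_26_wN_1_rb8033061e24_d42_d2114x3_1 g__wS_32_wQ_26_wN_1_rb8033061e24_d42_d2114x3_2 g__wS_32_wQ_26_wN_1_rb8033061e24_d42_d2114x3_7 g_wS_32_wQ_26_wN_1_rb8033061e24_d42_d211408x3 g_wS_32_wQ_26_wN_1_rb8033061e24_d42_d21140bx3 g_wS_32_wQ_26_wN_1_rb8033061e24_d42_d21140fx3 g_wS_32_wQ_26_wN_1_rb8033061e24_d42_d211410x3 g_wS_32_wQ_26_wN_1_rb8033061e24_d42_d211414x3 g_wS_32_wQ_26_wN_1_rb8033061e24_d42_d211416x3 g_wS_32_wQ_26_wN_1_rb8033061e24_d42_d211417x3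

theorem g_wS_32_wQ_26_wN_1_rb8033061e24_d42_d2113x5 : GoodKC AS c_wS_32_wQ_26_wN_1_rb8033061e24_d42_d2113x5 := p_wS_32_wQ_26_wN_1_rb8033061e24_d42_d2113x3

theorem g_wS_32_wQ_26_wN_1_rb8033061e24_d42_d2110x5 : GoodKC AS c_wS_32_wQ_26_wN_1_rb8033061e24_d42_d2110x5 := p_wS_32_wQ_26_wN_1_rb8033061e24_d42_d2110x3

theorem g_wS_32_wQ_26_wN_1_rb8033061e24_d42_d210fx5 : GoodKC AS c_wS_32_wQ_26_wN_1_rb8033061e24_d42_d210fx5 := p_wS_32_wQ_26_wN_1_rb8033061e24_d42_d210fx3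

theorem g_wS_32_wQ_26_wN_1_rb8033061e24_d42_d210cx5 : GoodKC AS c_wS_32_wQ_26_wN_1_rb8033061e24_d42_d210cx5 := p_wS_32_wQ_26_wN_1_rb8033061e24_d42_d210cx3

theorem g_wS_32_wQ_26_wN_1_rb8033061e24_d42_d210bx5 : GoodKC AS c_wS_32_wQ_26_wN_1_rb8033061e24_d42_d210bx5 := p_wS_32_wQ_26_wN_1_rb8033061e24_d42_d210bx3

theorem g__wS_32_wQ_26_wN_1_rb8033061e24_d42_d21x5_2 : GoodKC AS k_wS_32_wQ_26_wN_1_rb8033061e24_d42_d21x5_2 := p_wS_32_wQ_26_wN_1_rb8033061e24_d42_d21x5_2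

theorem g__wS_32_wQ_26_wN_1_rb8033061e24_d42_d21x5_1 : GoodKC AS k_wS_32_wQ_26_wN_1_rb8033061e24_d42_d21x5_1 := p_wS_32_wQ_26_wN_1_rb8033061e24_d42_d21x5_1 g__wS_32_wQ_26_wN_1_rb8033061e24_d42_d21x5_2

theorem g_wS_32_wQ_26_wN_1_rb8033061e24_d42_d2107x5 : GoodKC AS c_wS_32_wQ_26_wN_1_rb8033061e24_d42_d2107x5 := p_wS_32_wQ_26_wN_1_rb8033061e24_d42_d2107x3

theorem g_wS_32_wQ_26_wN_1_rb8033061e24_d42_d2105x5 : GoodKC AS c_wS_32_wQ_26_wN_1_rb8033061e24_d42_d2105x5 := p_wS_32_wQ_26_wN_1_rb8033061e24_d42_d2105x3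

theorem g_wS_32_wQ_26_wN_1_rb8033061e24_d42_d2103x5 : GoodKC AS c_wS_32_wQ_26_wN_1_rb8033061e24_d42_d2103x5 := p_wS_32_wQ_26_wN_1_rb8033061e24_d42_d2103x3

theorem g__wS_32_wQ_26_wN_1_rb8033061e24_d42_d21x5_4 : GoodKC AS k_wS_32_wQ_26_wN_1_rb8033061e24_d42_d21x5_4 := p_wS_32_wQ_26_wN_1_rb8033061e24_d42_d21x5_4

theorem g__wS_32_wQ_26_wN_1_rb8033061e24_d42_d21x5_9 : GoodKC AS k_wS_32_wQ_26_wN_1_rb8033061e24_d42_d21x5_9 := p_wS_32_wQ_26_wN_1_rb8033061e24_d42_d21x5_9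

theorem g__wS_32_wQ_26_wN_1_rb8033061e24_d42_d21x5_8 : GoodKC AS k_wS_32_wQ_26_wN_1_rb8033061e24_d42_d21x5_8 := p_wS_32_wQ_26_wN_1_rb8033061e24_d42_d21x5_8 g__wS_32_wQ_26_wN_1_rb8033061e24_d42_d21x5_9

theorem g__wS_32_wQ_26_wN_1_rb8033061e24_d42_d21x5_11 : GoodKC AS k_wS_32_wQ_26_wN_1_rb8033061e24_d42_d21x5_11 := p_wS_32_wQ_26_wN_1_rb8033061e24_d42_d21x5_11

theorem g__wS_32_wQ_26_wN_1_rb8033061e24_d42_d21x5_10 : GoodKC AS k_wS_32_wQ_26_wN_1_rb8033061e24_d42_d21x5_10 := p_wS_32_wQ_26_wN_1_rb8033061e24_d42_d21x5_10 g__wS_32_wQ_26_wN_1_rb8033061e24_d42_d21x5_11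

theorem g__wS_32_wQ_26_wN_1_rb8033061e24_d42_d21x5_7 : GoodKC AS k_wS_32_wQ_26_wN_1_rb8033061e24_d42_d21x5_7 := p_wS_32_wQ_26_wN_1_rb8033061e24_d42_d21x5_7 g__wS_32_wQ_26_wN_1_rb8033061e24_d42_d21x5_8 g__wS_32_wQ_26_wN_1_rb8033061e24_d42_d21x5_10

theorem g__wS_32_wQ_26_wN_1_rb8033061e24_d42_d21x5_6 : GoodKC AS k_wS_32_wQ_26_wN_1_rb8033061e24_d42_d21x5_6 := p_wS_32_wQ_26_wN_1_rb8033061e24_d42_d21x5_6 g__wS_32_wQ_26_wN_1_rb8033061e24_d42_d21x5_7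

theorem g__wS_32_wQ_26_wN_1_rb8033061e24_d42_d21x5_13 : GoodKC AS k_wS_32_wQ_26_wN_1_rb8033061e24_d42_d21x5_13 := p_wS_32_wQ_26_wN_1_rb8033061e24_d42_d21x5_13

theorem g__wS_32_wQ_26_wN_1_rb8033061e24_d42_d21x5_12 : GoodKC AS k_wS_32_wQ_26_wN_1_rb8033061e24_d42_d21x5_12 := p_wS_32_wQ_26_wN_1_rb8033061e24_d42_d21x5_12 g__wS_32_wQ_26_wN_1_rb8033061e24_d42_d21x5_13

theorem g__wS_32_wQ_26_wN_1_rb8033061e24_d42_d21x5_5 : GoodKC AS k_wS_32_wQ_26_wN_1_rb8033061e24_d42_d21x5_5 := p_wS_32_wQ_26_wN_1_rb8033061e24_d42_d21x5_5 g__wS_32_wQ_26_wN_1_rb8033061e24_d42_d21x5_6 g__wS_32_wQ_26_wN_1_rb8033061e24_d42_d21x5_12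

theorem g__wS_32_wQ_26_wN_1_rb8033061e24_d42_d21x5_16 : GoodKC AS k_wS_32_wQ_26_wN_1_rb8033061e24_d42_d21x5_16 := p_wS_32_wQ_26_wN_1_rb8033061e24_d42_d21x5_16

theorem g__wS_32_wQ_26_wN_1_rb8033061e24_d42_d21x5_15 : GoodKC AS k_wS_32_wQ_26_wN_1_rb8033061e24_d42_d21x5_15 := p_wS_32_wQ_26_wN_1_rb8033061e24_d42_d21x5_15 g__wS_32_wQ_26_wN_1_rb8033061e24_d42_d21x5_16

theorem g__wS_32_wQ_26_wN_1_rb8033061e24_d42_d21x5_14 : GoodKC AS k_wS_32_wQ_26_wN_1_rb8033061e24_d42_d21x5_14 := p_wS_32_wQ_26_wN_1_rb8033061e24_d42_d21x5_14 g__wS_32_wQ_26_wN_1_rb8033061e24_d42_d21x5_15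

theorem g_wS_32_wQ_26_wN_1_rb8033061e24_d42_d2100x5 : GoodKC AS c_wS_32_wQ_26_wN_1_rb8033061e24_d42_d2100x5 := p_wS_32_wQ_26_wN_1_rb8033061e24_d42_d2100x3

theorem g_wS_32_wQ_26_wN_1_rb8033061e24_d42_d2101x5 : GoodKC AS c_wS_32_wQ_26_wN_1_rb8033061e24_d42_d2101x5 := p_wS_32_wQ_26_wN_1_rb8033061e24_d42_d2101x3

theorem g_wS_32_wQ_26_wN_1_rb8033061e24_d42_d2102x5 : GoodKC AS c_wS_32_wQ_26_wN_1_rb8033061e24_d42_d2102x5 := p_wS_32_wQ_26_wN_1_rb8033061e24_d42_d2102x3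

theorem g__wS_32_wQ_26_wN_1_rb8033061e24_d42_d21x5_3 : GoodKC AS k_wS_32_wQ_26_wN_1_rb8033061e24_d42_d21x5_3 := p_wS_32_wQ_26_wN_1_rb8033061e24_d42_d21x5_3 g_wS_32_wQ_26_wN_1_rb8033061e24_d42_d2103x5 g__wS_32_wQ_26_wN_1_rb8033061e24_d42_d21x5_4 g__wS_32_wQ_26_wN_1_rb8033061e24_d42_d21x5_5 g__wS_32_wQ_26_wN_1_rb8033061e24_d42_d21x5_14 g_wS_32_wQ_26_wN_1_rb8033061e24_d42_d2100x5 g_wS_32_wQ_26_wN_1_rb8033061e24_d42_d2101x5 g_wS_32_wQ_26_wN_1_rb8033061e24_d42_d2102x5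

theorem g_wS_32_wQ_26_wN_1_rb8033061e24_d42_d2104x5 : GoodKC AS c_wS_32_wQ_26_wN_1_rb8033061e24_d42_d2104x5 := p_wS_32_wQ_26_wN_1_rb8033061e24_d42_d2104x3

theorem g_wS_32_wQ_26_wN_1_rb8033061e24_d42_d2106x5 : GoodKC AS c_wS_32_wQ_26_wN_1_rb8033061e24_d42_d2106x5 := p_wS_32_wQ_26_wN_1_rb8033061e24_d42_d2106x3

theorem g_wS_32_wQ_26_wN_1_rb8033061e24_d42_d2108x5 : GoodKC AS c_wS_32_wQ_26_wN_1_rb8033061e24_d42_d2108x5 := p_wS_32_wQ_26_wN_1_rb8033061e24_d42_d2108x3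

theorem g_wS_32_wQ_26_wN_1_rb8033061e24_d42_d2109x5 : GoodKC AS c_wS_32_wQ_26_wN_1_rb8033061e24_d42_d2109x5 := p_wS_32_wQ_26_wN_1_rb8033061e24_d42_d2109x3

theorem g_wS_32_wQ_26_wN_1_rb8033061e24_d42_d210ax5 : GoodKC AS c_wS_32_wQ_26_wN_1_rb8033061e24_d42_d210ax5 := p_wS_32_wQ_26_wN_1_rb8033061e24_d42_d210ax3

theorem g_wS_32_wQ_26_wN_1_rb8033061e24_d42_d210dx5 : GoodKC AS c_wS_32_wQ_26_wN_1_rb8033061e24_d42_d210dx5 := p_wS_32_wQ_26_wN_1_rb8033061e24_d42_d210dx3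

theorem g_wS_32_wQ_26_wN_1_rb8033061e24_d42_d210ex5 : GoodKC AS c_wS_32_wQ_26_wN_1_rb8033061e24_d42_d210ex5 := p_wS_32_wQ_26_wN_1_rb8033061e24_d42_d210ex3

theorem g__wS_32_wQ_26_wN_1_rb8033061e24_d42_d21x5_0 : GoodKC AS k_wS_32_wQ_26_wN_1_rb8033061e24_d42_d21x5_0 := p_wS_32_wQ_26_wN_1_rb8033061e24_d42_d21x5_0 g_wS_32_wQ_26_wN_1_rb8033061e24_d42_d2110x5 g_wS_32_wQ_26_wN_1_rb8033061e24_d42_d210fx5 g_wS_32_wQ_26_wN_1_rb8033061e24_d42_d210cx5 g_wS_32_wQ_26_wN_1_rb8033061e24_d42_d210bx5 g__wS_32_wQ_26_wN_1_rb8033061e24_d42_d21x5_1 g_wS_32_wQ_26_wN_1_rb8033061e24_d42_d2107x5 g_wS_32_wQ_26_wN_1_rb8033061e24_d42_d2105x5 g__wS_32_wQ_26_wN_1_rb8033061e24_d42_d21x5_3 g_wS_32_wQ_26_wN_1_rb8033061e24_d42_d2104x5 g_wS_32_wQ_26_wN_1_rb8033061e24_d42_d2106x5 g_wS_32_wQ_26_wN_1_rb8033061e24_d42_d2108x5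 g_wS_32_wQ_26_wN_1_rb8033061e24_d42_d2109x5 g_wS_32_wQ_26_wN_1_rb8033061e24_d42_d210ax5 g_wS_32_wQ_26_wN_1_rb8033061e24_d42_d210dx5 g_wS_32_wQ_26_wN_1_rb8033061e24_d42_d210ex5

theorem g_wS_32_wQ_26_wN_1_rb8033061e24_d42_d2111x5 : GoodKC AS c_wS_32_wQ_26_wN_1_rb8033061e24_d42_d2111x5 := p_wS_32_wQ_26_wN_1_rb8033061e24_d42_d2111x3

theorem g__wS_32_wQ_26_wN_1_rb8033061e24_d42_d2112x3_1 : GoodKC AS k_wS_32_wQ_26_wN_1_rb8033061e24_d42_d2112x3_1 := p_wS_32_wQ_26_wN_1_rb8033061e24_d42_d2112x3_1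

theorem g__wS_32_wQ_26_wN_1_rb8033061e24_d42_d2112x3_3 : GoodKC AS k_wS_32_wQ_26_wN_1_rb8033061e24_d42_d2112x3_3 := p_wS_32_wQ_26_wN_1_rb8033061e24_d42_d2112x3_3

theorem g__wS_32_wQ_26_wN_1_rb8033061e24_d42_d2112x3_2 : GoodKC AS k_wS_32_wQ_26_wN_1_rb8033061e24_d42_d2112x3_2 := p_wS_32_wQ_26_wN_1_rb8033061e24_d42_d2112x3_2 g__wS_32_wQ_26_wN_1_rb8033061e24_d42_d2112x3_3

theorem g__wS_32_wQ_26_wN_1_rb8033061e24_d42_d2112x3_0 : GoodKC AS k_wS_32_wQ_26_wN_1_rb8033061e24_d42_d2112x3_0 := p_wS_32_wQ_26_wN_1_rb8033061e24_d42_d2112x3_0 g__wS_32_wQ_26_wN_1_rb8033061e24_d42_d2112x3_1 g__wS_32_wQ_26_wN_1_rb8033061e24_d42_d2112x3_2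

theorem g_wS_32_wQ_26_wN_1_rb8033061e24_d42_d2112x5 : GoodKC AS c_wS_32_wQ_26_wN_1_rb8033061e24_d42_d2112x5 := p_wS_32_wQ_26_wN_1_rb8033061e24_d42_d2112x3 g__wS_32_wQ_26_wN_1_rb8033061e24_d42_d2112x3_0

theorem g_wS_32_wQ_26_wN_1_rb8033061e24_d42_d2115x5 : GoodKC AS c_wS_32_wQ_26_wN_1_rb8033061e24_d42_d2115x5 := p_wS_32_wQ_26_wN_1_rb8033061e24_d42_d2115x3

theorem g__wS_32_wQ_26_wN_1_rb8033061e24_d42_d2116x3_1 : GoodKC AS k_wS_32_wQ_26_wN_1_rb8033061e24_d42_d2116x3_1 := p_wS_32_wQ_26_wN_1_rb8033061e24_d42_d2116x3_1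

theorem g__wS_32_wQ_26_wN_1_rb8033061e24_d42_d2116x3_0 : GoodKC AS k_wS_32_wQ_26_wN_1_rb8033061e24_d42_d2116x3_0 := p_wS_32_wQ_26_wN_1_rb8033061e24_d42_d2116x3_0 g__wS_32_wQ_26_wN_1_rb8033061e24_d42_d2116x3_1

theorem g_wS_32_wQ_26_wN_1_rb8033061e24_d42_d2116x5 : GoodKC AS c_wS_32_wQ_26_wN_1_rb8033061e24_d42_d2116x5 := p_wS_32_wQ_26_wN_1_rb8033061e24_d42_d2116x3 g__wS_32_wQ_26_wN_1_rb8033061e24_d42_d2116x3_0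

theorem g__wS_32_wQ_26_wN_1_rb8033061e24_d42_d2117x3_2 : GoodKC AS k_wS_32_wQ_26_wN_1_rb8033061e24_d42_d2117x3_2 := p_wS_32_wQ_26_wN_1_rb8033061e24_d42_d2117x3_2

theorem g__wS_32_wQ_26_wN_1_rb8033061e24_d42_d2117x3_3 : GoodKC AS k_wS_32_wQ_26_wN_1_rb8033061e24_d42_d2117x3_3 := p_wS_32_wQ_26_wN_1_rb8033061e24_d42_d2117x3_3

theorem g__wS_32_wQ_26_wN_1_rb8033061e24_d42_d2117x3_1 : GoodKC AS k_wS_32_wQ_26_wN_1_rb8033061e24_d42_d2117x3_1 := p_wS_32_wQ_26_wN_1_rb8033061e24_d42_d2117x3_1 g__wS_32_wQ_26_wN_1_rb8033061e24_d42_d2117x3_2 g__wS_32_wQ_26_wN_1_rb8033061e24_d42_d2117x3_3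

theorem g__wS_32_wQ_26_wN_1_rb8033061e24_d42_d2117x3_4 : GoodKC AS k_wS_32_wQ_26_wN_1_rb8033061e24_d42_d2117x3_4 := p_wS_32_wQ_26_wN_1_rb8033061e24_d42_d2117x3_4

theorem g__wS_32_wQ_26_wN_1_rb8033061e24_d42_d2117x3_0 : GoodKC AS k_wS_32_wQ_26_wN_1_rb8033061e24_d42_d2117x3_0 := p_wS_32_wQ_26_wN_1_rb8033061e24_d42_d2117x3_0 g__wS_32_wQ_26_wN_1_rb8033061e24_d42_d2117x3_1 g__wS_32_wQ_26_wN_1_rb8033061e24_d42_d2117x3_4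

theorem g_wS_32_wQ_26_wN_1_rb8033061e24_d42_d2117x5 : GoodKC AS c_wS_32_wQ_26_wN_1_rb8033061e24_d42_d2117x5 := p_wS_32_wQ_26_wN_1_rb8033061e24_d42_d2117x3 g__wS_32_wQ_26_wN_1_rb8033061e24_d42_d2117x3_0

theorem g__wS_32_wQ_26_wN_1_rb8033061e24_d42_d2119x3_3 : GoodKC AS k_wS_32_wQ_26_wN_1_rb8033061e24_d42_d2119x3_3 := p_wS_32_wQ_26_wN_1_rb8033061e24_d42_d2119x3_3

theorem g__wS_32_wQ_26_wN_1_rb8033061e24_d42_d2119x3_5 : GoodKC AS k_wS_32_wQ_26_wN_1_rb8033061e24_d42_d2119x3_5 := p_wS_32_wQ_26_wN_1_rb8033061e24_d42_d2119x3_5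

theorem g__wS_32_wQ_26_wN_1_rb8033061e24_d42_d2119x3_4 : GoodKC AS k_wS_32_wQ_26_wN_1_rb8033061e24_d42_d2119x3_4 := p_wS_32_wQ_26_wN_1_rb8033061e24_d42_d2119x3_4 g__wS_32_wQ_26_wN_1_rb8033061e24_d42_d2119x3_5

theorem g__wS_32_wQ_26_wN_1_rb8033061e24_d42_d2119x3_2 : GoodKC AS k_wS_32_wQ_26_wN_1_rb8033061e24_d42_d2119x3_2 := p_wS_32_wQ_26_wN_1_rb8033061e24_d42_d2119x3_2 g__wS_32_wQ_26_wN_1_rb8033061e24_d42_d2119x3_3 g__wS_32_wQ_26_wN_1_rb8033061e24_d42_d2119x3_4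

theorem g__wS_32_wQ_26_wN_1_rb8033061e24_d42_d2119x3_1 : GoodKC AS k_wS_32_wQ_26_wN_1_rb8033061e24_d42_d2119x3_1 := p_wS_32_wQ_26_wN_1_rb8033061e24_d42_d2119x3_1 g__wS_32_wQ_26_wN_1_rb8033061e24_d42_d2119x3_2

theorem g__wS_32_wQ_26_wN_1_rb8033061e24_d42_d2119x3_0 : GoodKC AS k_wS_32_wQ_26_wN_1_rb8033061e24_d42_d2119x3_0 := p_wS_32_wQ_26_wN_1_rb8033061e24_d42_d2119x3_0 g__wS_32_wQ_26_wN_1_rb8033061e24_d42_d2119x3_1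

theorem g_wS_32_wQ_26_wN_1_rb8033061e24_d42_d2119x5 : GoodKC AS c_wS_32_wQ_26_wN_1_rb8033061e24_d42_d2119x5 := p_wS_32_wQ_26_wN_1_rb8033061e24_d42_d2119x3 g__wS_32_wQ_26_wN_1_rb8033061e24_d42_d2119x3_0

theorem g_wS_32_wQ_26_wN_1_rb8033061e24_d42_d211bx5 : GoodKC AS c_wS_32_wQ_26_wN_1_rb8033061e24_d42_d211bx5 := p_wS_32_wQ_26_wN_1_rb8033061e24_d42_d211bx3

theorem g_wS_32_wQ_26_wN_1_rb8033061e24_d42_d21x7 : GoodKC AS c_wS_32_wQ_26_wN_1_rb8033061e24_d42_d21x7 := p_wS_32_wQ_26_wN_1_rb8033061e24_d42_d21x5 g_wS_32_wQ_26_wN_1_rb8033061e24_d42_d211dx5 g_wS_32_wQ_26_wN_1_rb8033061e24_d42_d211cx5 g_wS_32_wQ_26_wN_1_rb8033061e24_d42_d211ax5 g_wS_32_wQ_26_wN_1_rb8033061e24_d42_d2118x5 g_wS_32_wQ_26_wN_1_rb8033061e24_d42_d2114x5 g_wS_32_wQ_26_wN_1_rb8033061e24_d42_d2113x5 g__wS_32_wQ_26_wN_1_rb8033061e24_d42_d21x5_0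 g_wS_32_wQ_26_wN_1_rb8033061e24_d42_d2111x5 g_wS_32_wQ_26_wN_1_rb8033061e24_d42_d2112x5 g_wS_32_wQ_26_wN_1_rb8033061e24_d42_d2115x5 g_wS_32_wQ_26_wN_1_rb8033061e24_d42_d2116x5 g_wS_32_wQ_26_wN_1_rb8033061e24_d42_d2117x5 g_wS_32_wQ_26_wN_1_rb8033061e24_d42_d2119x5 g_wS_32_wQ_26_wN_1_rb8033061e24_d42_d211bx5

theorem g_wS_32_wQ_26_wN_1_rb8033061e24_d42_d22x7 : GoodKC AS c_wS_32_wQ_26_wN_1_rb8033061e24_d42_d22x7 := p_wS_32_wQ_26_wN_1_rb8033061e24_d42_d22x5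

theorem g__wS_32_wQ_26_wN_1_rb8033061e24_d42_d23x5_0 : GoodKC AS k_wS_32_wQ_26_wN_1_rb8033061e24_d42_d23x5_0 := p_wS_32_wQ_26_wN_1_rb8033061e24_d42_d23x5_0

theorem g__wS_32_wQ_26_wN_1_rb8033061e24_d42_d23x5_1 : GoodKC AS k_wS_32_wQ_26_wN_1_rb8033061e24_d42_d23x5_1 := p_wS_32_wQ_26_wN_1_rb8033061e24_d42_d23x5_1

theorem g_wS_32_wQ_26_wN_1_rb8033061e24_d42_d23x7 : GoodKC AS c_wS_32_wQ_26_wN_1_rb8033061e24_d42_d23x7 := p_wS_32_wQ_26_wN_1_rb8033061e24_d42_d23x5 g__wS_32_wQ_26_wN_1_rb8033061e24_d42_d23x5_0 g__wS_32_wQ_26_wN_1_rb8033061e24_d42_d23x5_1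

theorem g__wS_32_wQ_26_wN_1_rb8033061e24_d42_d26x5_0 : GoodKC AS k_wS_32_wQ_26_wN_1_rb8033061e24_d42_d26x5_0 := p_wS_32_wQ_26_wN_1_rb8033061e24_d42_d26x5_0

theorem g__wS_32_wQ_26_wN_1_rb8033061e24_d42_d26x5_1 : GoodKC AS k_wS_32_wQ_26_wN_1_rb8033061e24_d42_d26x5_1 := p_wS_32_wQ_26_wN_1_rb8033061e24_d42_d26x5_1

theorem g_wS_32_wQ_26_wN_1_rb8033061e24_d42_d26x7 : GoodKC AS c_wS_32_wQ_26_wN_1_rb8033061e24_d42_d26x7 := p_wS_32_wQ_26_wN_1_rb8033061e24_d42_d26x5 g__wS_32_wQ_26_wN_1_rb8033061e24_d42_d26x5_0 g__wS_32_wQ_26_wN_1_rb8033061e24_d42_d26x5_1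

theorem g_wS_32_wQ_26_wN_1_rb8033061e24x8 : GoodKC AS c_wS_32_wQ_26_wN_1_rb8033061e24x8 := p_wS_32_wQ_26_wN_1_rb8033061e24x7 g_wS_32_wQ_26_wN_1_rb8033061e24_d42_d25x7 g_wS_32_wQ_26_wN_1_rb8033061e24_d42_d24x7 g_wS_32_wQ_26_wN_1_rb8033061e24_d42_d20x7 g_wS_32_wQ_26_wN_1_rb8033061e24_d42_d1dx7 g_wS_32_wQ_26_wN_1_rb8033061e24_d42_d1cx7 g_wS_32_wQ_26_wN_1_rb8033061e24_d42_d1ax7 g_wS_32_wQ_26_wN_1_rb8033061e24_d42_d19x7 g_wS_32_wQ_26_wN_1_rb8033061e24_d42_d16x7 g_wS_32_wQ_26_wN_1_rb8033061e24_d42_d15x7 g_wS_32_wQ_26_wN_1_rb8033061e24_d42_d14x7 g_wS_32_wQ_26_wN_1_rb8033061e24_d42_d13x7 g_wS_32_wQ_26_wN_1_rb8033061e24_d42_d10x7 g_wS_32_wQ_26_wN_1_rb8033061e24_d42_d0fx7 g_wS_32_wQ_26_wN_1_rb8033061e24_d42_d0ex7 g_wS_32_wQ_26_wN_1_rb8033061e24_d42_d0dx7 g_wS_32_wQ_26_wN_1_rb8033061e24_d42_d0cx7 g_wS_32_wQ_26_wN_1_rb8033061e24_d42_d0ax7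 g_wS_32_wQ_26_wN_1_rb8033061e24_d42_d08x7 g_wS_32_wQ_26_wN_1_rb8033061e24_d42_d07x7 g_wS_32_wQ_26_wN_1_rb8033061e24_d42_d06x7 g_wS_32_wQ_26_wN_1_rb8033061e24_d42_d05x7 g_wS_32_wQ_26_wN_1_rb8033061e24_d42_d03x7 g_wS_32_wQ_26_wN_1_rb8033061e24_d42_d02x7 g_wS_32_wQ_26_wN_1_rb8033061e24_d42_d01x7 g_wS_32_wQ_26_wN_1_rb8033061e24_d42_d00x7 g_wS_32_wQ_26_wN_1_rb8033061e24_d42_d04x7 g_wS_32_wQ_26_wN_1_rb8033061e24_d42_d09x7 g_wS_32_wQ_26_wN_1_rb8033061e24_d42_d0bx7 g__wS_32_wQ_26_wN_1_rb8033061e24x7_0 g_wS_32_wQ_26_wN_1_rb8033061e24_d42_d11x7 g_wS_32_wQ_26_wN_1_rb8033061e24_d42_d12x7 g_wS_32_wQ_26_wN_1_rb8033061e24_d42_d17x7 g_wS_32_wQ_26_wN_1_rb8033061e24_d42_d18x7 g_wS_32_wQ_26_wN_1_rb8033061e24_d42_d1bx7 g_wS_32_wQ_26_wN_1_rb8033061e24_d42_d1ex7 g_wS_32_wQ_26_wN_1_rb8033061e24_d42_d1fx7 g_wS_32_wQ_26_wN_1_rb8033061e24_d42_d21x7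 g_wS_32_wQ_26_wN_1_rb8033061e24_d42_d22x7 g_wS_32_wQ_26_wN_1_rb8033061e24_d42_d23x7 g_wS_32_wQ_26_wN_1_rb8033061e24_d42_d26x7

theorem g__wS_32_wQ_26_wN_1_rb8033061e230000v3_1 : GoodKC AS k_wS_32_wQ_26_wN_1_rb8033061e230000v3_1 := p_wS_32_wQ_26_wN_1_rb8033061e230000v3_1

theorem g__wS_32_wQ_26_wN_1_rb8033061e230000v3_0 : GoodKC AS k_wS_32_wQ_26_wN_1_rb8033061e230000v3_0 := p_wS_32_wQ_26_wN_1_rb8033061e230000v3_0 g__wS_32_wQ_26_wN_1_rb8033061e230000v3_1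

theorem g__wS_32_wQ_26_wN_1_rb8033061e230000v3_3 : GoodKC AS k_wS_32_wQ_26_wN_1_rb8033061e230000v3_3 := p_wS_32_wQ_26_wN_1_rb8033061e230000v3_3

theorem g__wS_32_wQ_26_wN_1_rb8033061e230000v3_4 : GoodKC AS k_wS_32_wQ_26_wN_1_rb8033061e230000v3_4 := p_wS_32_wQ_26_wN_1_rb8033061e230000v3_4

theorem g__wS_32_wQ_26_wN_1_rb8033061e230000v3_2 : GoodKC AS k_wS_32_wQ_26_wN_1_rb8033061e230000v3_2 := p_wS_32_wQ_26_wN_1_rb8033061e230000v3_2 g__wS_32_wQ_26_wN_1_rb8033061e230000v3_3 g__wS_32_wQ_26_wN_1_rb8033061e230000v3_4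

theorem g__wS_32_wQ_26_wN_1_rb8033061e230000v3_6 : GoodKC AS k_wS_32_wQ_26_wN_1_rb8033061e230000v3_6 := p_wS_32_wQ_26_wN_1_rb8033061e230000v3_6

theorem g__wS_32_wQ_26_wN_1_rb8033061e230000v3_5 : GoodKC AS k_wS_32_wQ_26_wN_1_rb8033061e230000v3_5 := p_wS_32_wQ_26_wN_1_rb8033061e230000v3_5 g__wS_32_wQ_26_wN_1_rb8033061e230000v3_6

theorem g_wS_32_wQ_26_wN_1_rb8033061e230000x4 : GoodKC AS c_wS_32_wQ_26_wN_1_rb8033061e230000x4 := p_wS_32_wQ_26_wN_1_rb8033061e230000x3 g__wS_32_wQ_26_wN_1_rb8033061e230000v3_0 g__wS_32_wQ_26_wN_1_rb8033061e230000v3_2 g__wS_32_wQ_26_wN_1_rb8033061e230000v3_5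

theorem g__wS_32_wQ_26_wN_1_rb8033061e2300v4_5 : GoodKC AS k_wS_32_wQ_26_wN_1_rb8033061e2300v4_5 := p_wS_32_wQ_26_wN_1_rb8033061e2300v4_5

theorem g__wS_32_wQ_26_wN_1_rb8033061e2300v4_9 : GoodKC AS k_wS_32_wQ_26_wN_1_rb8033061e2300v4_9 := p_wS_32_wQ_26_wN_1_rb8033061e2300v4_9

theorem g__wS_32_wQ_26_wN_1_rb8033061e2300v4_10 : GoodKC AS k_wS_32_wQ_26_wN_1_rb8033061e2300v4_10 := p_wS_32_wQ_26_wN_1_rb8033061e2300v4_10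

theorem g__wS_32_wQ_26_wN_1_rb8033061e2300v4_8 : GoodKC AS k_wS_32_wQ_26_wN_1_rb8033061e2300v4_8 := p_wS_32_wQ_26_wN_1_rb8033061e2300v4_8 g__wS_32_wQ_26_wN_1_rb8033061e2300v4_9 g__wS_32_wQ_26_wN_1_rb8033061e2300v4_10

theorem g__wS_32_wQ_26_wN_1_rb8033061e2300v4_7 : GoodKC AS k_wS_32_wQ_26_wN_1_rb8033061e2300v4_7 := p_wS_32_wQ_26_wN_1_rb8033061e2300v4_7 g__wS_32_wQ_26_wN_1_rb8033061e2300v4_8

theorem g__wS_32_wQ_26_wN_1_rb8033061e2300v4_6 : GoodKC AS k_wS_32_wQ_26_wN_1_rb8033061e2300v4_6 := p_wS_32_wQ_26_wN_1_rb8033061e2300v4_6 g__wS_32_wQ_26_wN_1_rb8033061e2300v4_7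

theorem g__wS_32_wQ_26_wN_1_rb8033061e2300v4_4 : GoodKC AS k_wS_32_wQ_26_wN_1_rb8033061e2300v4_4 := p_wS_32_wQ_26_wN_1_rb8033061e2300v4_4 g__wS_32_wQ_26_wN_1_rb8033061e2300v4_5 g__wS_32_wQ_26_wN_1_rb8033061e2300v4_6

theorem g__wS_32_wQ_26_wN_1_rb8033061e2300v4_3 : GoodKC AS k_wS_32_wQ_26_wN_1_rb8033061e2300v4_3 := p_wS_32_wQ_26_wN_1_rb8033061e2300v4_3 g__wS_32_wQ_26_wN_1_rb8033061e2300v4_4

theorem g__wS_32_wQ_26_wN_1_rb8033061e2300v4_11 : GoodKC AS k_wS_32_wQ_26_wN_1_rb8033061e2300v4_11 := p_wS_32_wQ_26_wN_1_rb8033061e2300v4_11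

theorem g__wS_32_wQ_26_wN_1_rb8033061e2300v4_2 : GoodKC AS k_wS_32_wQ_26_wN_1_rb8033061e2300v4_2 := p_wS_32_wQ_26_wN_1_rb8033061e2300v4_2 g__wS_32_wQ_26_wN_1_rb8033061e2300v4_3 g__wS_32_wQ_26_wN_1_rb8033061e2300v4_11

theorem g__wS_32_wQ_26_wN_1_rb8033061e2300v4_1 : GoodKC AS k_wS_32_wQ_26_wN_1_rb8033061e2300v4_1 := p_wS_32_wQ_26_wN_1_rb8033061e2300v4_1 g__wS_32_wQ_26_wN_1_rb8033061e2300v4_2

theorem g__wS_32_wQ_26_wN_1_rb8033061e2300v4_14 : GoodKC AS k_wS_32_wQ_26_wN_1_rb8033061e2300v4_14 := p_wS_32_wQ_26_wN_1_rb8033061e2300v4_14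

theorem g__wS_32_wQ_26_wN_1_rb8033061e2300v4_16 : GoodKC AS k_wS_32_wQ_26_wN_1_rb8033061e2300v4_16 := p_wS_32_wQ_26_wN_1_rb8033061e2300v4_16

theorem g__wS_32_wQ_26_wN_1_rb8033061e2300v4_18 : GoodKC AS k_wS_32_wQ_26_wN_1_rb8033061e2300v4_18 := p_wS_32_wQ_26_wN_1_rb8033061e2300v4_18

theorem g__wS_32_wQ_26_wN_1_rb8033061e2300v4_17 : GoodKC AS k_wS_32_wQ_26_wN_1_rb8033061e2300v4_17 := p_wS_32_wQ_26_wN_1_rb8033061e2300v4_17 g__wS_32_wQ_26_wN_1_rb8033061e2300v4_18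

theorem g__wS_32_wQ_26_wN_1_rb8033061e2300v4_15 : GoodKC AS k_wS_32_wQ_26_wN_1_rb8033061e2300v4_15 := p_wS_32_wQ_26_wN_1_rb8033061e2300v4_15 g__wS_32_wQ_26_wN_1_rb8033061e2300v4_16 g__wS_32_wQ_26_wN_1_rb8033061e2300v4_17

theorem g__wS_32_wQ_26_wN_1_rb8033061e2300v4_13 : GoodKC AS k_wS_32_wQ_26_wN_1_rb8033061e2300v4_13 := p_wS_32_wQ_26_wN_1_rb8033061e2300v4_13 g__wS_32_wQ_26_wN_1_rb8033061e2300v4_14 g__wS_32_wQ_26_wN_1_rb8033061e2300v4_15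

theorem g__wS_32_wQ_26_wN_1_rb8033061e2300v4_12 : GoodKC AS k_wS_32_wQ_26_wN_1_rb8033061e2300v4_12 := p_wS_32_wQ_26_wN_1_rb8033061e2300v4_12 g__wS_32_wQ_26_wN_1_rb8033061e2300v4_13

theorem g__wS_32_wQ_26_wN_1_rb8033061e2300v4_19 : GoodKC AS k_wS_32_wQ_26_wN_1_rb8033061e2300v4_19 := p_wS_32_wQ_26_wN_1_rb8033061e2300v4_19

theorem g__wS_32_wQ_26_wN_1_rb8033061e2300v4_21 : GoodKC AS k_wS_32_wQ_26_wN_1_rb8033061e2300v4_21 := p_wS_32_wQ_26_wN_1_rb8033061e2300v4_21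

theorem g__wS_32_wQ_26_wN_1_rb8033061e2300v4_23 : GoodKC AS k_wS_32_wQ_26_wN_1_rb8033061e2300v4_23 := p_wS_32_wQ_26_wN_1_rb8033061e2300v4_23

theorem g__wS_32_wQ_26_wN_1_rb8033061e2300v4_22 : GoodKC AS k_wS_32_wQ_26_wN_1_rb8033061e2300v4_22 := p_wS_32_wQ_26_wN_1_rb8033061e2300v4_22 g__wS_32_wQ_26_wN_1_rb8033061e2300v4_23

theorem g__wS_32_wQ_26_wN_1_rb8033061e2300v4_20 : GoodKC AS k_wS_32_wQ_26_wN_1_rb8033061e2300v4_20 := p_wS_32_wQ_26_wN_1_rb8033061e2300v4_20 g__wS_32_wQ_26_wN_1_rb8033061e2300v4_21 g__wS_32_wQ_26_wN_1_rb8033061e2300v4_22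

theorem g__wS_32_wQ_26_wN_1_rb8033061e2300v4_0 : GoodKC AS k_wS_32_wQ_26_wN_1_rb8033061e2300v4_0 := p_wS_32_wQ_26_wN_1_rb8033061e2300v4_0 g_wS_32_wQ_26_wN_1_rb8033061e230000x4 g__wS_32_wQ_26_wN_1_rb8033061e2300v4_1 g__wS_32_wQ_26_wN_1_rb8033061e2300v4_12 g__wS_32_wQ_26_wN_1_rb8033061e2300v4_19 g__wS_32_wQ_26_wN_1_rb8033061e2300v4_20

theorem g_wS_32_wQ_26_wN_1_rb8033061e2300x5 : GoodKC AS c_wS_32_wQ_26_wN_1_rb8033061e2300x5 := p_wS_32_wQ_26_wN_1_rb8033061e2300x4 g__wS_32_wQ_26_wN_1_rb8033061e2300v4_0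

theorem g__wS_32_wQ_26_wN_1_rb8033061e23x5_2 : GoodKC AS k_wS_32_wQ_26_wN_1_rb8033061e23x5_2 := p_wS_32_wQ_26_wN_1_rb8033061e23x5_2

theorem g__wS_32_wQ_26_wN_1_rb8033061e23x5_1 : GoodKC AS k_wS_32_wQ_26_wN_1_rb8033061e23x5_1 := p_wS_32_wQ_26_wN_1_rb8033061e23x5_1 g__wS_32_wQ_26_wN_1_rb8033061e23x5_2

theorem g__wS_32_wQ_26_wN_1_rb8033061e23x5_10 : GoodKC AS k_wS_32_wQ_26_wN_1_rb8033061e23x5_10 := p_wS_32_wQ_26_wN_1_rb8033061e23x5_10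

theorem g__wS_32_wQ_26_wN_1_rb8033061e23x5_9 : GoodKC AS k_wS_32_wQ_26_wN_1_rb8033061e23x5_9 := p_wS_32_wQ_26_wN_1_rb8033061e23x5_9 g__wS_32_wQ_26_wN_1_rb8033061e23x5_10

theorem g__wS_32_wQ_26_wN_1_rb8033061e23x5_8 : GoodKC AS k_wS_32_wQ_26_wN_1_rb8033061e23x5_8 := p_wS_32_wQ_26_wN_1_rb8033061e23x5_8 g__wS_32_wQ_26_wN_1_rb8033061e23x5_9

theorem g__wS_32_wQ_26_wN_1_rb8033061e23x5_7 : GoodKC AS k_wS_32_wQ_26_wN_1_rb8033061e23x5_7 := p_wS_32_wQ_26_wN_1_rb8033061e23x5_7 g__wS_32_wQ_26_wN_1_rb8033061e23x5_8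

theorem g__wS_32_wQ_26_wN_1_rb8033061e23x5_6 : GoodKC AS k_wS_32_wQ_26_wN_1_rb8033061e23x5_6 := p_wS_32_wQ_26_wN_1_rb8033061e23x5_6 g__wS_32_wQ_26_wN_1_rb8033061e23x5_7

theorem g__wS_32_wQ_26_wN_1_rb8033061e23x5_5 : GoodKC AS k_wS_32_wQ_26_wN_1_rb8033061e23x5_5 := p_wS_32_wQ_26_wN_1_rb8033061e23x5_5 g__wS_32_wQ_26_wN_1_rb8033061e23x5_6

theorem g__wS_32_wQ_26_wN_1_rb8033061e23x5_11 : GoodKC AS k_wS_32_wQ_26_wN_1_rb8033061e23x5_11 := p_wS_32_wQ_26_wN_1_rb8033061e23x5_11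

theorem g__wS_32_wQ_26_wN_1_rb8033061e23x5_4 : GoodKC AS k_wS_32_wQ_26_wN_1_rb8033061e23x5_4 := p_wS_32_wQ_26_wN_1_rb8033061e23x5_4 g__wS_32_wQ_26_wN_1_rb8033061e23x5_5 g__wS_32_wQ_26_wN_1_rb8033061e23x5_11

theorem g__wS_32_wQ_26_wN_1_rb8033061e23x5_3 : GoodKC AS k_wS_32_wQ_26_wN_1_rb8033061e23x5_3 := p_wS_32_wQ_26_wN_1_rb8033061e23x5_3 g__wS_32_wQ_26_wN_1_rb8033061e23x5_4

theorem g__wS_32_wQ_26_wN_1_rb8033061e23x5_0 : GoodKC AS k_wS_32_wQ_26_wN_1_rb8033061e23x5_0 := p_wS_32_wQ_26_wN_1_rb8033061e23x5_0 g__wS_32_wQ_26_wN_1_rb8033061e23x5_1 g__wS_32_wQ_26_wN_1_rb8033061e23x5_3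

theorem g_wS_32_wQ_26_wN_1_rb8033061e23x8 : GoodKC AS c_wS_32_wQ_26_wN_1_rb8033061e23x8 := p_wS_32_wQ_26_wN_1_rb8033061e23x5 g_wS_32_wQ_26_wN_1_rb8033061e2300x5 g__wS_32_wQ_26_wN_1_rb8033061e23x5_0

theorem g_wS_32_wQ_26_wN_1_rb8033061e22x8 : GoodKC AS c_wS_32_wQ_26_wN_1_rb8033061e22x8 := p_wS_32_wQ_26_wN_1_rb8033061e22x7

theorem g_wS_32_wQ_26_wN_1_rb8033061e1fx8 : GoodKC AS c_wS_32_wQ_26_wN_1_rb8033061e1fx8 := p_wS_32_wQ_26_wN_1_rb8033061e1fx6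

theorem g__wS_32_wQ_26_wN_1_rb8033061e1dx7_0 : GoodKC AS k_wS_32_wQ_26_wN_1_rb8033061e1dx7_0 := p_wS_32_wQ_26_wN_1_rb8033061e1dx7_0

theorem g__wS_32_wQ_26_wN_1_rb8033061e1dx7_2 : GoodKC AS k_wS_32_wQ_26_wN_1_rb8033061e1dx7_2 := p_wS_32_wQ_26_wN_1_rb8033061e1dx7_2

theorem g__wS_32_wQ_26_wN_1_rb8033061e1dx7_1 : GoodKC AS k_wS_32_wQ_26_wN_1_rb8033061e1dx7_1 := p_wS_32_wQ_26_wN_1_rb8033061e1dx7_1 g__wS_32_wQ_26_wN_1_rb8033061e1dx7_2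

theorem g_wS_32_wQ_26_wN_1_rb8033061e1dx8 : GoodKC AS c_wS_32_wQ_26_wN_1_rb8033061e1dx8 := p_wS_32_wQ_26_wN_1_rb8033061e1dx7 g__wS_32_wQ_26_wN_1_rb8033061e1dx7_0 g__wS_32_wQ_26_wN_1_rb8033061e1dx7_1

theorem g_wS_32_wQ_26_wN_1_rb8033061e1cx8 : GoodKC AS c_wS_32_wQ_26_wN_1_rb8033061e1cx8 := p_wS_32_wQ_26_wN_1_rb8033061e1cx6

theorem g_wS_32_wQ_26_wN_1_rb8033061e1ax8 : GoodKC AS c_wS_32_wQ_26_wN_1_rb8033061e1ax8 := p_wS_32_wQ_26_wN_1_rb8033061e1ax6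

theorem g__wS_32_wQ_26_wN_1_rb8033061e18x5_4 : GoodKC AS k_wS_32_wQ_26_wN_1_rb8033061e18x5_4 := p_wS_32_wQ_26_wN_1_rb8033061e18x5_4

theorem g__wS_32_wQ_26_wN_1_rb8033061e18x5_7 : GoodKC AS k_wS_32_wQ_26_wN_1_rb8033061e18x5_7 := p_wS_32_wQ_26_wN_1_rb8033061e18x5_7

theorem g__wS_32_wQ_26_wN_1_rb8033061e18x5_6 : GoodKC AS k_wS_32_wQ_26_wN_1_rb8033061e18x5_6 := p_wS_32_wQ_26_wN_1_rb8033061e18x5_6 g__wS_32_wQ_26_wN_1_rb8033061e18x5_7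

theorem g__wS_32_wQ_26_wN_1_rb8033061e18x5_8 : GoodKC AS k_wS_32_wQ_26_wN_1_rb8033061e18x5_8 := p_wS_32_wQ_26_wN_1_rb8033061e18x5_8

theorem g__wS_32_wQ_26_wN_1_rb8033061e18x5_5 : GoodKC AS k_wS_32_wQ_26_wN_1_rb8033061e18x5_5 := p_wS_32_wQ_26_wN_1_rb8033061e18x5_5 g__wS_32_wQ_26_wN_1_rb8033061e18x5_6 g__wS_32_wQ_26_wN_1_rb8033061e18x5_8

theorem g__wS_32_wQ_26_wN_1_rb8033061e18x5_10 : GoodKC AS k_wS_32_wQ_26_wN_1_rb8033061e18x5_10 := p_wS_32_wQ_26_wN_1_rb8033061e18x5_10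

theorem g__wS_32_wQ_26_wN_1_rb8033061e18x5_9 : GoodKC AS k_wS_32_wQ_26_wN_1_rb8033061e18x5_9 := p_wS_32_wQ_26_wN_1_rb8033061e18x5_9 g__wS_32_wQ_26_wN_1_rb8033061e18x5_10

theorem g__wS_32_wQ_26_wN_1_rb8033061e18x5_3 : GoodKC AS k_wS_32_wQ_26_wN_1_rb8033061e18x5_3 := p_wS_32_wQ_26_wN_1_rb8033061e18x5_3 g__wS_32_wQ_26_wN_1_rb8033061e18x5_4 g__wS_32_wQ_26_wN_1_rb8033061e18x5_5 g__wS_32_wQ_26_wN_1_rb8033061e18x5_9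

theorem g__wS_32_wQ_26_wN_1_rb8033061e18x5_17 : GoodKC AS k_wS_32_wQ_26_wN_1_rb8033061e18x5_17 := p_wS_32_wQ_26_wN_1_rb8033061e18x5_17

theorem g__wS_32_wQ_26_wN_1_rb8033061e18x5_18 : GoodKC AS k_wS_32_wQ_26_wN_1_rb8033061e18x5_18 := p_wS_32_wQ_26_wN_1_rb8033061e18x5_18

theorem g__wS_32_wQ_26_wN_1_rb8033061e18x5_16 : GoodKC AS k_wS_32_wQ_26_wN_1_rb8033061e18x5_16 := p_wS_32_wQ_26_wN_1_rb8033061e18x5_16 g__wS_32_wQ_26_wN_1_rb8033061e18x5_17 g__wS_32_wQ_26_wN_1_rb8033061e18x5_18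

theorem g__wS_32_wQ_26_wN_1_rb8033061e18x5_15 : GoodKC AS k_wS_32_wQ_26_wN_1_rb8033061e18x5_15 := p_wS_32_wQ_26_wN_1_rb8033061e18x5_15 g__wS_32_wQ_26_wN_1_rb8033061e18x5_16

theorem g__wS_32_wQ_26_wN_1_rb8033061e18x5_19 : GoodKC AS k_wS_32_wQ_26_wN_1_rb8033061e18x5_19 := p_wS_32_wQ_26_wN_1_rb8033061e18x5_19

theorem g__wS_32_wQ_26_wN_1_rb8033061e18x5_14 : GoodKC AS k_wS_32_wQ_26_wN_1_rb8033061e18x5_14 := p_wS_32_wQ_26_wN_1_rb8033061e18x5_14 g__wS_32_wQ_26_wN_1_rb8033061e18x5_15 g__wS_32_wQ_26_wN_1_rb8033061e18x5_19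

theorem g__wS_32_wQ_26_wN_1_rb8033061e18x5_13 : GoodKC AS k_wS_32_wQ_26_wN_1_rb8033061e18x5_13 := p_wS_32_wQ_26_wN_1_rb8033061e18x5_13 g__wS_32_wQ_26_wN_1_rb8033061e18x5_14

theorem g__wS_32_wQ_26_wN_1_rb8033061e18x5_12 : GoodKC AS k_wS_32_wQ_26_wN_1_rb8033061e18x5_12 := p_wS_32_wQ_26_wN_1_rb8033061e18x5_12 g__wS_32_wQ_26_wN_1_rb8033061e18x5_13

theorem g__wS_32_wQ_26_wN_1_rb8033061e18x5_11 : GoodKC AS k_wS_32_wQ_26_wN_1_rb8033061e18x5_11 := p_wS_32_wQ_26_wN_1_rb8033061e18x5_11 g__wS_32_wQ_26_wN_1_rb8033061e18x5_12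

theorem g__wS_32_wQ_26_wN_1_rb8033061e18x5_2 : GoodKC AS k_wS_32_wQ_26_wN_1_rb8033061e18x5_2 := p_wS_32_wQ_26_wN_1_rb8033061e18x5_2 g__wS_32_wQ_26_wN_1_rb8033061e18x5_3 g__wS_32_wQ_26_wN_1_rb8033061e18x5_11

theorem g__wS_32_wQ_26_wN_1_rb8033061e18x5_1 : GoodKC AS k_wS_32_wQ_26_wN_1_rb8033061e18x5_1 := p_wS_32_wQ_26_wN_1_rb8033061e18x5_1 g__wS_32_wQ_26_wN_1_rb8033061e18x5_2

theorem g__wS_32_wQ_26_wN_1_rb8033061e18x5_0 : GoodKC AS k_wS_32_wQ_26_wN_1_rb8033061e18x5_0 := p_wS_32_wQ_26_wN_1_rb8033061e18x5_0 g__wS_32_wQ_26_wN_1_rb8033061e18x5_1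

theorem g_wS_32_wQ_26_wN_1_rb8033061e18x8 : GoodKC AS c_wS_32_wQ_26_wN_1_rb8033061e18x8 := p_wS_32_wQ_26_wN_1_rb8033061e18x5 g__wS_32_wQ_26_wN_1_rb8033061e18x5_0

theorem g_wS_32_wQ_26_wN_1_rb8033061e16x8 : GoodKC AS c_wS_32_wQ_26_wN_1_rb8033061e16x8 := p_wS_32_wQ_26_wN_1_rb8033061e16x6

theorem g__wS_32_wQ_26_wN_1_rb8033061e15x6_2 : GoodKC AS k_wS_32_wQ_26_wN_1_rb8033061e15x6_2 := p_wS_32_wQ_26_wN_1_rb8033061e15x6_2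

theorem g__wS_32_wQ_26_wN_1_rb8033061e15x6_6 : GoodKC AS k_wS_32_wQ_26_wN_1_rb8033061e15x6_6 := p_wS_32_wQ_26_wN_1_rb8033061e15x6_6

theorem g__wS_32_wQ_26_wN_1_rb8033061e15x6_5 : GoodKC AS k_wS_32_wQ_26_wN_1_rb8033061e15x6_5 := p_wS_32_wQ_26_wN_1_rb8033061e15x6_5 g__wS_32_wQ_26_wN_1_rb8033061e15x6_6

theorem g__wS_32_wQ_26_wN_1_rb8033061e15x6_4 : GoodKC AS k_wS_32_wQ_26_wN_1_rb8033061e15x6_4 := p_wS_32_wQ_26_wN_1_rb8033061e15x6_4 g__wS_32_wQ_26_wN_1_rb8033061e15x6_5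

theorem g__wS_32_wQ_26_wN_1_rb8033061e15x6_3 : GoodKC AS k_wS_32_wQ_26_wN_1_rb8033061e15x6_3 := p_wS_32_wQ_26_wN_1_rb8033061e15x6_3 g__wS_32_wQ_26_wN_1_rb8033061e15x6_4

theorem g__wS_32_wQ_26_wN_1_rb8033061e15x6_1 : GoodKC AS k_wS_32_wQ_26_wN_1_rb8033061e15x6_1 := p_wS_32_wQ_26_wN_1_rb8033061e15x6_1 g__wS_32_wQ_26_wN_1_rb8033061e15x6_2 g__wS_32_wQ_26_wN_1_rb8033061e15x6_3

theorem g__wS_32_wQ_26_wN_1_rb8033061e15x6_8 : GoodKC AS k_wS_32_wQ_26_wN_1_rb8033061e15x6_8 := p_wS_32_wQ_26_wN_1_rb8033061e15x6_8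

theorem g__wS_32_wQ_26_wN_1_rb8033061e15x6_7 : GoodKC AS k_wS_32_wQ_26_wN_1_rb8033061e15x6_7 := p_wS_32_wQ_26_wN_1_rb8033061e15x6_7 g__wS_32_wQ_26_wN_1_rb8033061e15x6_8

theorem g__wS_32_wQ_26_wN_1_rb8033061e15x6_0 : GoodKC AS k_wS_32_wQ_26_wN_1_rb8033061e15x6_0 := p_wS_32_wQ_26_wN_1_rb8033061e15x6_0 g__wS_32_wQ_26_wN_1_rb8033061e15x6_1 g__wS_32_wQ_26_wN_1_rb8033061e15x6_7

theorem g_wS_32_wQ_26_wN_1_rb8033061e15x8 : GoodKC AS c_wS_32_wQ_26_wN_1_rb8033061e15x8 := p_wS_32_wQ_26_wN_1_rb8033061e15x6 g__wS_32_wQ_26_wN_1_rb8033061e15x6_0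

theorem g__wS_32_wQ_26_wN_1_rb8033061e13x6_0 : GoodKC AS k_wS_32_wQ_26_wN_1_rb8033061e13x6_0 := p_wS_32_wQ_26_wN_1_rb8033061e13x6_0

theorem g_wS_32_wQ_26_wN_1_rb8033061e13x8 : GoodKC AS c_wS_32_wQ_26_wN_1_rb8033061e13x8 := p_wS_32_wQ_26_wN_1_rb8033061e13x6 g__wS_32_wQ_26_wN_1_rb8033061e13x6_0

theorem g_wS_32_wQ_26_wN_1_rb8033061e11x8 : GoodKC AS c_wS_32_wQ_26_wN_1_rb8033061e11x8 := p_wS_32_wQ_26_wN_1_rb8033061e11x6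

theorem g_wS_32_wQ_26_wN_1_rb8033061e10x8 : GoodKC AS c_wS_32_wQ_26_wN_1_rb8033061e10x8 := p_wS_32_wQ_26_wN_1_rb8033061e10x6

theorem g_wS_32_wQ_26_wN_1_rb8033061e0fx8 : GoodKC AS c_wS_32_wQ_26_wN_1_rb8033061e0fx8 := p_wS_32_wQ_26_wN_1_rb8033061e0fx6

theorem g__wS_32_wQ_26_wN_1_rb8033061e0ex6_0 : GoodKC AS k_wS_32_wQ_26_wN_1_rb8033061e0ex6_0 := p_wS_32_wQ_26_wN_1_rb8033061e0ex6_0

theorem g_wS_32_wQ_26_wN_1_rb8033061e0ex8 : GoodKC AS c_wS_32_wQ_26_wN_1_rb8033061e0ex8 := p_wS_32_wQ_26_wN_1_rb8033061e0ex6 g__wS_32_wQ_26_wN_1_rb8033061e0ex6_0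

theorem g_wS_32_wQ_26_wN_1_rb8033061e0dx8 : GoodKC AS c_wS_32_wQ_26_wN_1_rb8033061e0dx8 := p_wS_32_wQ_26_wN_1_rb8033061e0dx6

theorem g_wS_32_wQ_26_wN_1_rb8033061e08x8 : GoodKC AS c_wS_32_wQ_26_wN_1_rb8033061e08x8 := p_wS_32_wQ_26_wN_1_rb8033061e08x6

theorem g_wS_32_wQ_26_wN_1_rb8033061e06x8 : GoodKC AS c_wS_32_wQ_26_wN_1_rb8033061e06x8 := p_wS_32_wQ_26_wN_1_rb8033061e06x6

theorem g_wS_32_wQ_26_wN_1_rb8033061e05x8 : GoodKC AS c_wS_32_wQ_26_wN_1_rb8033061e05x8 := p_wS_32_wQ_26_wN_1_rb8033061e05x6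

theorem g_wS_32_wQ_26_wN_1_rb8033061e03x8 : GoodKC AS c_wS_32_wQ_26_wN_1_rb8033061e03x8 := p_wS_32_wQ_26_wN_1_rb8033061e03x6

theorem g__wS_32_wQ_26_wN_1_rb8033061e00v6_0 : GoodKC AS k_wS_32_wQ_26_wN_1_rb8033061e00v6_0 := p_wS_32_wQ_26_wN_1_rb8033061e00v6_0

theorem g_wS_32_wQ_26_wN_1_rb8033061e00x8 : GoodKC AS c_wS_32_wQ_26_wN_1_rb8033061e00x8 := p_wS_32_wQ_26_wN_1_rb8033061e00x6 g__wS_32_wQ_26_wN_1_rb8033061e00v6_0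

theorem g_wS_32_wQ_26_wN_1_rb8033061e01x8 : GoodKC AS c_wS_32_wQ_26_wN_1_rb8033061e01x8 := p_wS_32_wQ_26_wN_1_rb8033061e01x6

theorem g_wS_32_wQ_26_wN_1_rb8033061e02x8 : GoodKC AS c_wS_32_wQ_26_wN_1_rb8033061e02x8 := p_wS_32_wQ_26_wN_1_rb8033061e02x6

theorem g__wS_32_wQ_26_wN_1_rb8033061e04x7_0 : GoodKC AS k_wS_32_wQ_26_wN_1_rb8033061e04x7_0 := p_wS_32_wQ_26_wN_1_rb8033061e04x7_0

theorem g_wS_32_wQ_26_wN_1_rb8033061e04x8 : GoodKC AS c_wS_32_wQ_26_wN_1_rb8033061e04x8 := p_wS_32_wQ_26_wN_1_rb8033061e04x7 g__wS_32_wQ_26_wN_1_rb8033061e04x7_0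

theorem g_wS_32_wQ_26_wN_1_rb8033061e07x8 : GoodKC AS c_wS_32_wQ_26_wN_1_rb8033061e07x8 := p_wS_32_wQ_26_wN_1_rb8033061e07x6

theorem g_wS_32_wQ_26_wN_1_rb8033061e09x8 : GoodKC AS c_wS_32_wQ_26_wN_1_rb8033061e09x8 := p_wS_32_wQ_26_wN_1_rb8033061e09x6

theorem g__wS_32_wQ_26_wN_1_rb8033061e0ax6_0 : GoodKC AS k_wS_32_wQ_26_wN_1_rb8033061e0ax6_0 := p_wS_32_wQ_26_wN_1_rb8033061e0ax6_0

theorem g_wS_32_wQ_26_wN_1_rb8033061e0ax8 : GoodKC AS c_wS_32_wQ_26_wN_1_rb8033061e0ax8 := p_wS_32_wQ_26_wN_1_rb8033061e0ax6 g__wS_32_wQ_26_wN_1_rb8033061e0ax6_0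

theorem g_wS_32_wQ_26_wN_1_rb8033061e0bx8 : GoodKC AS c_wS_32_wQ_26_wN_1_rb8033061e0bx8 := p_wS_32_wQ_26_wN_1_rb8033061e0bx6

theorem g__wS_32_wQ_26_wN_1_rb8033061e0cx6_0 : GoodKC AS k_wS_32_wQ_26_wN_1_rb8033061e0cx6_0 := p_wS_32_wQ_26_wN_1_rb8033061e0cx6_0

theorem g__wS_32_wQ_26_wN_1_rb8033061e0cx6_7 : GoodKC AS k_wS_32_wQ_26_wN_1_rb8033061e0cx6_7 := p_wS_32_wQ_26_wN_1_rb8033061e0cx6_7

theorem g__wS_32_wQ_26_wN_1_rb8033061e0cx6_6 : GoodKC AS k_wS_32_wQ_26_wN_1_rb8033061e0cx6_6 := p_wS_32_wQ_26_wN_1_rb8033061e0cx6_6 g__wS_32_wQ_26_wN_1_rb8033061e0cx6_7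

theorem g__wS_32_wQ_26_wN_1_rb8033061e0cx6_5 : GoodKC AS k_wS_32_wQ_26_wN_1_rb8033061e0cx6_5 := p_wS_32_wQ_26_wN_1_rb8033061e0cx6_5 g__wS_32_wQ_26_wN_1_rb8033061e0cx6_6

theorem g__wS_32_wQ_26_wN_1_rb8033061e0cx6_4 : GoodKC AS k_wS_32_wQ_26_wN_1_rb8033061e0cx6_4 := p_wS_32_wQ_26_wN_1_rb8033061e0cx6_4 g__wS_32_wQ_26_wN_1_rb8033061e0cx6_5

theorem g__wS_32_wQ_26_wN_1_rb8033061e0cx6_3 : GoodKC AS k_wS_32_wQ_26_wN_1_rb8033061e0cx6_3 := p_wS_32_wQ_26_wN_1_rb8033061e0cx6_3 g__wS_32_wQ_26_wN_1_rb8033061e0cx6_4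

theorem g__wS_32_wQ_26_wN_1_rb8033061e0cx6_2 : GoodKC AS k_wS_32_wQ_26_wN_1_rb8033061e0cx6_2 := p_wS_32_wQ_26_wN_1_rb8033061e0cx6_2 g__wS_32_wQ_26_wN_1_rb8033061e0cx6_3

theorem g__wS_32_wQ_26_wN_1_rb8033061e0cx6_1 : GoodKC AS k_wS_32_wQ_26_wN_1_rb8033061e0cx6_1 := p_wS_32_wQ_26_wN_1_rb8033061e0cx6_1 g__wS_32_wQ_26_wN_1_rb8033061e0cx6_2

theorem g_wS_32_wQ_26_wN_1_rb8033061e0cx8 : GoodKC AS c_wS_32_wQ_26_wN_1_rb8033061e0cx8 := p_wS_32_wQ_26_wN_1_rb8033061e0cx6 g__wS_32_wQ_26_wN_1_rb8033061e0cx6_0 g__wS_32_wQ_26_wN_1_rb8033061e0cx6_1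

theorem g_wS_32_wQ_26_wN_1_rb8033061e12x8 : GoodKC AS c_wS_32_wQ_26_wN_1_rb8033061e12x8 := p_wS_32_wQ_26_wN_1_rb8033061e12x6

theorem g_wS_32_wQ_26_wN_1_rb8033061e14x8 : GoodKC AS c_wS_32_wQ_26_wN_1_rb8033061e14x8 := p_wS_32_wQ_26_wN_1_rb8033061e14x6

theorem g__wS_32_wQ_26_wN_1_rb8033061ex8_4 : GoodKC AS k_wS_32_wQ_26_wN_1_rb8033061ex8_4 := p_wS_32_wQ_26_wN_1_rb8033061ex8_4

theorem g__wS_32_wQ_26_wN_1_rb8033061ex8_5 : GoodKC AS k_wS_32_wQ_26_wN_1_rb8033061ex8_5 := p_wS_32_wQ_26_wN_1_rb8033061ex8_5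

theorem g__wS_32_wQ_26_wN_1_rb8033061ex8_3 : GoodKC AS k_wS_32_wQ_26_wN_1_rb8033061ex8_3 := p_wS_32_wQ_26_wN_1_rb8033061ex8_3 g__wS_32_wQ_26_wN_1_rb8033061ex8_4 g__wS_32_wQ_26_wN_1_rb8033061ex8_5

theorem g__wS_32_wQ_26_wN_1_rb8033061ex8_2 : GoodKC AS k_wS_32_wQ_26_wN_1_rb8033061ex8_2 := p_wS_32_wQ_26_wN_1_rb8033061ex8_2 g__wS_32_wQ_26_wN_1_rb8033061ex8_3

theorem g__wS_32_wQ_26_wN_1_rb8033061ex8_1 : GoodKC AS k_wS_32_wQ_26_wN_1_rb8033061ex8_1 := p_wS_32_wQ_26_wN_1_rb8033061ex8_1 g__wS_32_wQ_26_wN_1_rb8033061ex8_2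

theorem g__wS_32_wQ_26_wN_1_rb8033061ex8_0 : GoodKC AS k_wS_32_wQ_26_wN_1_rb8033061ex8_0 := p_wS_32_wQ_26_wN_1_rb8033061ex8_0 g__wS_32_wQ_26_wN_1_rb8033061ex8_1

theorem g__wS_32_wQ_26_wN_1_rb8033061ex8_15 : GoodKC AS k_wS_32_wQ_26_wN_1_rb8033061ex8_15 := p_wS_32_wQ_26_wN_1_rb8033061ex8_15

theorem g__wS_32_wQ_26_wN_1_rb8033061ex8_16 : GoodKC AS k_wS_32_wQ_26_wN_1_rb8033061ex8_16 := p_wS_32_wQ_26_wN_1_rb8033061ex8_16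

theorem g__wS_32_wQ_26_wN_1_rb8033061ex8_14 : GoodKC AS k_wS_32_wQ_26_wN_1_rb8033061ex8_14 := p_wS_32_wQ_26_wN_1_rb8033061ex8_14 g__wS_32_wQ_26_wN_1_rb8033061ex8_15 g__wS_32_wQ_26_wN_1_rb8033061ex8_16

theorem g__wS_32_wQ_26_wN_1_rb8033061ex8_13 : GoodKC AS k_wS_32_wQ_26_wN_1_rb8033061ex8_13 := p_wS_32_wQ_26_wN_1_rb8033061ex8_13 g__wS_32_wQ_26_wN_1_rb8033061ex8_14

theorem g__wS_32_wQ_26_wN_1_rb8033061ex8_12 : GoodKC AS k_wS_32_wQ_26_wN_1_rb8033061ex8_12 := p_wS_32_wQ_26_wN_1_rb8033061ex8_12 g__wS_32_wQ_26_wN_1_rb8033061ex8_13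

theorem g__wS_32_wQ_26_wN_1_rb8033061ex8_11 : GoodKC AS k_wS_32_wQ_26_wN_1_rb8033061ex8_11 := p_wS_32_wQ_26_wN_1_rb8033061ex8_11 g__wS_32_wQ_26_wN_1_rb8033061ex8_12

theorem g__wS_32_wQ_26_wN_1_rb8033061ex8_10 : GoodKC AS k_wS_32_wQ_26_wN_1_rb8033061ex8_10 := p_wS_32_wQ_26_wN_1_rb8033061ex8_10 g__wS_32_wQ_26_wN_1_rb8033061ex8_11

theorem g__wS_32_wQ_26_wN_1_rb8033061ex8_9 : GoodKC AS k_wS_32_wQ_26_wN_1_rb8033061ex8_9 := p_wS_32_wQ_26_wN_1_rb8033061ex8_9 g__wS_32_wQ_26_wN_1_rb8033061ex8_10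

theorem g__wS_32_wQ_26_wN_1_rb8033061ex8_20 : GoodKC AS k_wS_32_wQ_26_wN_1_rb8033061ex8_20 := p_wS_32_wQ_26_wN_1_rb8033061ex8_20

theorem g__wS_32_wQ_26_wN_1_rb8033061ex8_21 : GoodKC AS k_wS_32_wQ_26_wN_1_rb8033061ex8_21 := p_wS_32_wQ_26_wN_1_rb8033061ex8_21

theorem g__wS_32_wQ_26_wN_1_rb8033061ex8_19 : GoodKC AS k_wS_32_wQ_26_wN_1_rb8033061ex8_19 := p_wS_32_wQ_26_wN_1_rb8033061ex8_19 g__wS_32_wQ_26_wN_1_rb8033061ex8_20 g__wS_32_wQ_26_wN_1_rb8033061ex8_21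

theorem g__wS_32_wQ_26_wN_1_rb8033061ex8_18 : GoodKC AS k_wS_32_wQ_26_wN_1_rb8033061ex8_18 := p_wS_32_wQ_26_wN_1_rb8033061ex8_18 g__wS_32_wQ_26_wN_1_rb8033061ex8_19

theorem g__wS_32_wQ_26_wN_1_rb8033061ex8_22 : GoodKC AS k_wS_32_wQ_26_wN_1_rb8033061ex8_22 := p_wS_32_wQ_26_wN_1_rb8033061ex8_22

theorem g__wS_32_wQ_26_wN_1_rb8033061ex8_17 : GoodKC AS k_wS_32_wQ_26_wN_1_rb8033061ex8_17 := p_wS_32_wQ_26_wN_1_rb8033061ex8_17 g__wS_32_wQ_26_wN_1_rb8033061ex8_18 g__wS_32_wQ_26_wN_1_rb8033061ex8_22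

theorem g__wS_32_wQ_26_wN_1_rb8033061ex8_23 : GoodKC AS k_wS_32_wQ_26_wN_1_rb8033061ex8_23 := p_wS_32_wQ_26_wN_1_rb8033061ex8_23

theorem g__wS_32_wQ_26_wN_1_rb8033061ex8_8 : GoodKC AS k_wS_32_wQ_26_wN_1_rb8033061ex8_8 := p_wS_32_wQ_26_wN_1_rb8033061ex8_8 g__wS_32_wQ_26_wN_1_rb8033061ex8_9 g__wS_32_wQ_26_wN_1_rb8033061ex8_17 g__wS_32_wQ_26_wN_1_rb8033061ex8_23

theorem g__wS_32_wQ_26_wN_1_rb8033061ex8_7 : GoodKC AS k_wS_32_wQ_26_wN_1_rb8033061ex8_7 := p_wS_32_wQ_26_wN_1_rb8033061ex8_7 g__wS_32_wQ_26_wN_1_rb8033061ex8_8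

theorem g__wS_32_wQ_26_wN_1_rb8033061ex8_6 : GoodKC AS k_wS_32_wQ_26_wN_1_rb8033061ex8_6 := p_wS_32_wQ_26_wN_1_rb8033061ex8_6 g__wS_32_wQ_26_wN_1_rb8033061ex8_7

theorem g__wS_32_wQ_26_wN_1_rb8033061ex8_27 : GoodKC AS k_wS_32_wQ_26_wN_1_rb8033061ex8_27 := p_wS_32_wQ_26_wN_1_rb8033061ex8_27

theorem g__wS_32_wQ_26_wN_1_rb8033061ex8_26 : GoodKC AS k_wS_32_wQ_26_wN_1_rb8033061ex8_26 := p_wS_32_wQ_26_wN_1_rb8033061ex8_26 g__wS_32_wQ_26_wN_1_rb8033061ex8_27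

theorem g__wS_32_wQ_26_wN_1_rb8033061ex8_28 : GoodKC AS k_wS_32_wQ_26_wN_1_rb8033061ex8_28 := p_wS_32_wQ_26_wN_1_rb8033061ex8_28

theorem g__wS_32_wQ_26_wN_1_rb8033061ex8_25 : GoodKC AS k_wS_32_wQ_26_wN_1_rb8033061ex8_25 := p_wS_32_wQ_26_wN_1_rb8033061ex8_25 g__wS_32_wQ_26_wN_1_rb8033061ex8_26 g__wS_32_wQ_26_wN_1_rb8033061ex8_28

theorem g__wS_32_wQ_26_wN_1_rb8033061ex8_29 : GoodKC AS k_wS_32_wQ_26_wN_1_rb8033061ex8_29 := p_wS_32_wQ_26_wN_1_rb8033061ex8_29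

theorem g__wS_32_wQ_26_wN_1_rb8033061ex8_32 : GoodKC AS k_wS_32_wQ_26_wN_1_rb8033061ex8_32 := p_wS_32_wQ_26_wN_1_rb8033061ex8_32

theorem g__wS_32_wQ_26_wN_1_rb8033061ex8_31 : GoodKC AS k_wS_32_wQ_26_wN_1_rb8033061ex8_31 := p_wS_32_wQ_26_wN_1_rb8033061ex8_31 g__wS_32_wQ_26_wN_1_rb8033061ex8_32

theorem g__wS_32_wQ_26_wN_1_rb8033061ex8_30 : GoodKC AS k_wS_32_wQ_26_wN_1_rb8033061ex8_30 := p_wS_32_wQ_26_wN_1_rb8033061ex8_30 g__wS_32_wQ_26_wN_1_rb8033061ex8_31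

theorem g__wS_32_wQ_26_wN_1_rb8033061ex8_34 : GoodKC AS k_wS_32_wQ_26_wN_1_rb8033061ex8_34 := p_wS_32_wQ_26_wN_1_rb8033061ex8_34

theorem g__wS_32_wQ_26_wN_1_rb8033061ex8_37 : GoodKC AS k_wS_32_wQ_26_wN_1_rb8033061ex8_37 := p_wS_32_wQ_26_wN_1_rb8033061ex8_37

theorem g__wS_32_wQ_26_wN_1_rb8033061ex8_36 : GoodKC AS k_wS_32_wQ_26_wN_1_rb8033061ex8_36 := p_wS_32_wQ_26_wN_1_rb8033061ex8_36 g__wS_32_wQ_26_wN_1_rb8033061ex8_37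

theorem g__wS_32_wQ_26_wN_1_rb8033061ex8_35 : GoodKC AS k_wS_32_wQ_26_wN_1_rb8033061ex8_35 := p_wS_32_wQ_26_wN_1_rb8033061ex8_35 g__wS_32_wQ_26_wN_1_rb8033061ex8_36

theorem g__wS_32_wQ_26_wN_1_rb8033061ex8_38 : GoodKC AS k_wS_32_wQ_26_wN_1_rb8033061ex8_38 := p_wS_32_wQ_26_wN_1_rb8033061ex8_38

theorem g__wS_32_wQ_26_wN_1_rb8033061ex8_39 : GoodKC AS k_wS_32_wQ_26_wN_1_rb8033061ex8_39 := p_wS_32_wQ_26_wN_1_rb8033061ex8_39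

theorem g__wS_32_wQ_26_wN_1_rb8033061ex8_41 : GoodKC AS k_wS_32_wQ_26_wN_1_rb8033061ex8_41 := p_wS_32_wQ_26_wN_1_rb8033061ex8_41

theorem g__wS_32_wQ_26_wN_1_rb8033061ex8_40 : GoodKC AS k_wS_32_wQ_26_wN_1_rb8033061ex8_40 := p_wS_32_wQ_26_wN_1_rb8033061ex8_40 g__wS_32_wQ_26_wN_1_rb8033061ex8_41

theorem g__wS_32_wQ_26_wN_1_rb8033061ex8_33 : GoodKC AS k_wS_32_wQ_26_wN_1_rb8033061ex8_33 := p_wS_32_wQ_26_wN_1_rb8033061ex8_33 g__wS_32_wQ_26_wN_1_rb8033061ex8_34 g__wS_32_wQ_26_wN_1_rb8033061ex8_35 g__wS_32_wQ_26_wN_1_rb8033061ex8_38 g__wS_32_wQ_26_wN_1_rb8033061ex8_39 g__wS_32_wQ_26_wN_1_rb8033061ex8_40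

theorem g__wS_32_wQ_26_wN_1_rb8033061ex8_24 : GoodKC AS k_wS_32_wQ_26_wN_1_rb8033061ex8_24 := p_wS_32_wQ_26_wN_1_rb8033061ex8_24 g__wS_32_wQ_26_wN_1_rb8033061ex8_25 g__wS_32_wQ_26_wN_1_rb8033061ex8_29 g__wS_32_wQ_26_wN_1_rb8033061ex8_30 g__wS_32_wQ_26_wN_1_rb8033061ex8_33

theorem g__wS_32_wQ_26_wN_1_rb8033061e17x5_2 : GoodKC AS k_wS_32_wQ_26_wN_1_rb8033061e17x5_2 := p_wS_32_wQ_26_wN_1_rb8033061e17x5_2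

theorem g__wS_32_wQ_26_wN_1_rb8033061e17x5_1 : GoodKC AS k_wS_32_wQ_26_wN_1_rb8033061e17x5_1 := p_wS_32_wQ_26_wN_1_rb8033061e17x5_1 g__wS_32_wQ_26_wN_1_rb8033061e17x5_2

theorem g__wS_32_wQ_26_wN_1_rb8033061e17x5_0 : GoodKC AS k_wS_32_wQ_26_wN_1_rb8033061e17x5_0 := p_wS_32_wQ_26_wN_1_rb8033061e17x5_0 g__wS_32_wQ_26_wN_1_rb8033061e17x5_1

theorem g__wS_32_wQ_26_wN_1_rb8033061e17x5_6 : GoodKC AS k_wS_32_wQ_26_wN_1_rb8033061e17x5_6 := p_wS_32_wQ_26_wN_1_rb8033061e17x5_6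

theorem g__wS_32_wQ_26_wN_1_rb8033061e17x5_5 : GoodKC AS k_wS_32_wQ_26_wN_1_rb8033061e17x5_5 := p_wS_32_wQ_26_wN_1_rb8033061e17x5_5 g__wS_32_wQ_26_wN_1_rb8033061e17x5_6

theorem g__wS_32_wQ_26_wN_1_rb8033061e17x5_7 : GoodKC AS k_wS_32_wQ_26_wN_1_rb8033061e17x5_7 := p_wS_32_wQ_26_wN_1_rb8033061e17x5_7

theorem g__wS_32_wQ_26_wN_1_rb8033061e17x5_4 : GoodKC AS k_wS_32_wQ_26_wN_1_rb8033061e17x5_4 := p_wS_32_wQ_26_wN_1_rb8033061e17x5_4 g__wS_32_wQ_26_wN_1_rb8033061e17x5_5 g__wS_32_wQ_26_wN_1_rb8033061e17x5_7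

theorem g__wS_32_wQ_26_wN_1_rb8033061e17x5_8 : GoodKC AS k_wS_32_wQ_26_wN_1_rb8033061e17x5_8 := p_wS_32_wQ_26_wN_1_rb8033061e17x5_8

theorem g__wS_32_wQ_26_wN_1_rb8033061e17x5_3 : GoodKC AS k_wS_32_wQ_26_wN_1_rb8033061e17x5_3 := p_wS_32_wQ_26_wN_1_rb8033061e17x5_3 g__wS_32_wQ_26_wN_1_rb8033061e17x5_4 g__wS_32_wQ_26_wN_1_rb8033061e17x5_8

theorem g__wS_32_wQ_26_wN_1_rb8033061e17x5_10 : GoodKC AS k_wS_32_wQ_26_wN_1_rb8033061e17x5_10 := p_wS_32_wQ_26_wN_1_rb8033061e17x5_10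

theorem g__wS_32_wQ_26_wN_1_rb8033061e17x5_9 : GoodKC AS k_wS_32_wQ_26_wN_1_rb8033061e17x5_9 := p_wS_32_wQ_26_wN_1_rb8033061e17x5_9 g__wS_32_wQ_26_wN_1_rb8033061e17x5_10

theorem g__wS_32_wQ_26_wN_1_rb8033061e17x5_12 : GoodKC AS k_wS_32_wQ_26_wN_1_rb8033061e17x5_12 := p_wS_32_wQ_26_wN_1_rb8033061e17x5_12

theorem g__wS_32_wQ_26_wN_1_rb8033061e17x5_13 : GoodKC AS k_wS_32_wQ_26_wN_1_rb8033061e17x5_13 := p_wS_32_wQ_26_wN_1_rb8033061e17x5_13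

theorem g__wS_32_wQ_26_wN_1_rb8033061e17x5_11 : GoodKC AS k_wS_32_wQ_26_wN_1_rb8033061e17x5_11 := p_wS_32_wQ_26_wN_1_rb8033061e17x5_11 g__wS_32_wQ_26_wN_1_rb8033061e17x5_12 g__wS_32_wQ_26_wN_1_rb8033061e17x5_13

theorem g_wS_32_wQ_26_wN_1_rb8033061e17x8 : GoodKC AS c_wS_32_wQ_26_wN_1_rb8033061e17x8 := p_wS_32_wQ_26_wN_1_rb8033061e17x5 g__wS_32_wQ_26_wN_1_rb8033061e17x5_0 g__wS_32_wQ_26_wN_1_rb8033061e17x5_3 g__wS_32_wQ_26_wN_1_rb8033061e17x5_9 g__wS_32_wQ_26_wN_1_rb8033061e17x5_11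

theorem g_wS_32_wQ_26_wN_1_rb8033061e19_d41_d24v6 : GoodKC AS c_wS_32_wQ_26_wN_1_rb8033061e19_d41_d24v6 := p_wS_32_wQ_26_wN_1_rb8033061e19_d41_d24

theorem g__wS_32_wQ_26_wN_1_rb8033061e19v6_1 : GoodKC AS k_wS_32_wQ_26_wN_1_rb8033061e19v6_1 := p_wS_32_wQ_26_wN_1_rb8033061e19v6_1

theorem g__wS_32_wQ_26_wN_1_rb8033061e19v6_0 : GoodKC AS k_wS_32_wQ_26_wN_1_rb8033061e19v6_0 := p_wS_32_wQ_26_wN_1_rb8033061e19v6_0 g__wS_32_wQ_26_wN_1_rb8033061e19v6_1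

theorem g__wS_32_wQ_26_wN_1_rb8033061e19v6_4 : GoodKC AS k_wS_32_wQ_26_wN_1_rb8033061e19v6_4 := p_wS_32_wQ_26_wN_1_rb8033061e19v6_4

theorem g__wS_32_wQ_26_wN_1_rb8033061e19v6_5 : GoodKC AS k_wS_32_wQ_26_wN_1_rb8033061e19v6_5 := p_wS_32_wQ_26_wN_1_rb8033061e19v6_5

theorem g__wS_32_wQ_26_wN_1_rb8033061e19v6_10 : GoodKC AS k_wS_32_wQ_26_wN_1_rb8033061e19v6_10 := p_wS_32_wQ_26_wN_1_rb8033061e19v6_10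

theorem g__wS_32_wQ_26_wN_1_rb8033061e19v6_9 : GoodKC AS k_wS_32_wQ_26_wN_1_rb8033061e19v6_9 := p_wS_32_wQ_26_wN_1_rb8033061e19v6_9 g__wS_32_wQ_26_wN_1_rb8033061e19v6_10

theorem g__wS_32_wQ_26_wN_1_rb8033061e19v6_8 : GoodKC AS k_wS_32_wQ_26_wN_1_rb8033061e19v6_8 := p_wS_32_wQ_26_wN_1_rb8033061e19v6_8 g__wS_32_wQ_26_wN_1_rb8033061e19v6_9

theorem g__wS_32_wQ_26_wN_1_rb8033061e19v6_7 : GoodKC AS k_wS_32_wQ_26_wN_1_rb8033061e19v6_7 := p_wS_32_wQ_26_wN_1_rb8033061e19v6_7 g__wS_32_wQ_26_wN_1_rb8033061e19v6_8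

theorem g__wS_32_wQ_26_wN_1_rb8033061e19v6_11 : GoodKC AS k_wS_32_wQ_26_wN_1_rb8033061e19v6_11 := p_wS_32_wQ_26_wN_1_rb8033061e19v6_11

theorem g__wS_32_wQ_26_wN_1_rb8033061e19v6_6 : GoodKC AS k_wS_32_wQ_26_wN_1_rb8033061e19v6_6 := p_wS_32_wQ_26_wN_1_rb8033061e19v6_6 g__wS_32_wQ_26_wN_1_rb8033061e19v6_7 g__wS_32_wQ_26_wN_1_rb8033061e19v6_11

theorem g__wS_32_wQ_26_wN_1_rb8033061e19v6_3 : GoodKC AS k_wS_32_wQ_26_wN_1_rb8033061e19v6_3 := p_wS_32_wQ_26_wN_1_rb8033061e19v6_3 g__wS_32_wQ_26_wN_1_rb8033061e19v6_4 g__wS_32_wQ_26_wN_1_rb8033061e19v6_5 g__wS_32_wQ_26_wN_1_rb8033061e19v6_6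

theorem g__wS_32_wQ_26_wN_1_rb8033061e19v6_2 : GoodKC AS k_wS_32_wQ_26_wN_1_rb8033061e19v6_2 := p_wS_32_wQ_26_wN_1_rb8033061e19v6_2 g__wS_32_wQ_26_wN_1_rb8033061e19v6_3

theorem g__wS_32_wQ_26_wN_1_rb8033061e19v6_13 : GoodKC AS k_wS_32_wQ_26_wN_1_rb8033061e19v6_13 := p_wS_32_wQ_26_wN_1_rb8033061e19v6_13

theorem g__wS_32_wQ_26_wN_1_rb8033061e19v6_16 : GoodKC AS k_wS_32_wQ_26_wN_1_rb8033061e19v6_16 := p_wS_32_wQ_26_wN_1_rb8033061e19v6_16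

theorem g__wS_32_wQ_26_wN_1_rb8033061e19v6_15 : GoodKC AS k_wS_32_wQ_26_wN_1_rb8033061e19v6_15 := p_wS_32_wQ_26_wN_1_rb8033061e19v6_15 g__wS_32_wQ_26_wN_1_rb8033061e19v6_16

theorem g__wS_32_wQ_26_wN_1_rb8033061e19v6_19 : GoodKC AS k_wS_32_wQ_26_wN_1_rb8033061e19v6_19 := p_wS_32_wQ_26_wN_1_rb8033061e19v6_19

theorem g__wS_32_wQ_26_wN_1_rb8033061e19v6_18 : GoodKC AS k_wS_32_wQ_26_wN_1_rb8033061e19v6_18 := p_wS_32_wQ_26_wN_1_rb8033061e19v6_18 g__wS_32_wQ_26_wN_1_rb8033061e19v6_19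

theorem g__wS_32_wQ_26_wN_1_rb8033061e19v6_17 : GoodKC AS k_wS_32_wQ_26_wN_1_rb8033061e19v6_17 := p_wS_32_wQ_26_wN_1_rb8033061e19v6_17 g__wS_32_wQ_26_wN_1_rb8033061e19v6_18

theorem g__wS_32_wQ_26_wN_1_rb8033061e19v6_14 : GoodKC AS k_wS_32_wQ_26_wN_1_rb8033061e19v6_14 := p_wS_32_wQ_26_wN_1_rb8033061e19v6_14 g__wS_32_wQ_26_wN_1_rb8033061e19v6_15 g__wS_32_wQ_26_wN_1_rb8033061e19v6_17

theorem g__wS_32_wQ_26_wN_1_rb8033061e19v6_21 : GoodKC AS k_wS_32_wQ_26_wN_1_rb8033061e19v6_21 := p_wS_32_wQ_26_wN_1_rb8033061e19v6_21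

theorem g__wS_32_wQ_26_wN_1_rb8033061e19v6_22 : GoodKC AS k_wS_32_wQ_26_wN_1_rb8033061e19v6_22 := p_wS_32_wQ_26_wN_1_rb8033061e19v6_22

theorem g__wS_32_wQ_26_wN_1_rb8033061e19v6_20 : GoodKC AS k_wS_32_wQ_26_wN_1_rb8033061e19v6_20 := p_wS_32_wQ_26_wN_1_rb8033061e19v6_20 g__wS_32_wQ_26_wN_1_rb8033061e19v6_21 g__wS_32_wQ_26_wN_1_rb8033061e19v6_22

theorem g__wS_32_wQ_26_wN_1_rb8033061e19v6_12 : GoodKC AS k_wS_32_wQ_26_wN_1_rb8033061e19v6_12 := p_wS_32_wQ_26_wN_1_rb8033061e19v6_12 g__wS_32_wQ_26_wN_1_rb8033061e19v6_13 g__wS_32_wQ_26_wN_1_rb8033061e19v6_14 g__wS_32_wQ_26_wN_1_rb8033061e19v6_20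

theorem g_wS_32_wQ_26_wN_1_rb8033061e19_d41_d21v6 : GoodKC AS c_wS_32_wQ_26_wN_1_rb8033061e19_d41_d21v6 := p_wS_32_wQ_26_wN_1_rb8033061e19_d41_d21

theorem g_wS_32_wQ_26_wN_1_rb8033061e19_d41_d20v6 : GoodKC AS c_wS_32_wQ_26_wN_1_rb8033061e19_d41_d20v6 := p_wS_32_wQ_26_wN_1_rb8033061e19_d41_d20

theorem g_wS_32_wQ_26_wN_1_rb8033061e19_d41_d1fv6 : GoodKC AS c_wS_32_wQ_26_wN_1_rb8033061e19_d41_d1fv6 := p_wS_32_wQ_26_wN_1_rb8033061e19_d41_d1f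

theorem g_wS_32_wQ_26_wN_1_rb8033061e19_d41_d1dv6 : GoodKC AS c_wS_32_wQ_26_wN_1_rb8033061e19_d41_d1dv6 := p_wS_32_wQ_26_wN_1_rb8033061e19_d41_d1d

theorem g_wS_32_wQ_26_wN_1_rb8033061e19_d41_d1av6 : GoodKC AS c_wS_32_wQ_26_wN_1_rb8033061e19_d41_d1av6 := p_wS_32_wQ_26_wN_1_rb8033061e19_d41_d1a

theorem g_wS_32_wQ_26_wN_1_rb8033061e19_d41_d19v6 : GoodKC AS c_wS_32_wQ_26_wN_1_rb8033061e19_d41_d19v6 := p_wS_32_wQ_26_wN_1_rb8033061e19_d41_d19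

theorem g_wS_32_wQ_26_wN_1_rb8033061e19_d41_d18v6 : GoodKC AS c_wS_32_wQ_26_wN_1_rb8033061e19_d41_d18v6 := p_wS_32_wQ_26_wN_1_rb8033061e19_d41_d18

theorem g_wS_32_wQ_26_wN_1_rb8033061e19_d41_d17v6 : GoodKC AS c_wS_32_wQ_26_wN_1_rb8033061e19_d41_d17v6 := p_wS_32_wQ_26_wN_1_rb8033061e19_d41_d17

theorem g_wS_32_wQ_26_wN_1_rb8033061e19_d41_d16v6 : GoodKC AS c_wS_32_wQ_26_wN_1_rb8033061e19_d41_d16v6 := p_wS_32_wQ_26_wN_1_rb8033061e19_d41_d16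

theorem g_wS_32_wQ_26_wN_1_rb8033061e19_d41_d15v6 : GoodKC AS c_wS_32_wQ_26_wN_1_rb8033061e19_d41_d15v6 := p_wS_32_wQ_26_wN_1_rb8033061e19_d41_d15

theorem g_wS_32_wQ_26_wN_1_rb8033061e19_d41_d14v6 : GoodKC AS c_wS_32_wQ_26_wN_1_rb8033061e19_d41_d14v6 := p_wS_32_wQ_26_wN_1_rb8033061e19_d41_d14

theorem g_wS_32_wQ_26_wN_1_rb8033061e19_d41_d0ev6 : GoodKC AS c_wS_32_wQ_26_wN_1_rb8033061e19_d41_d0ev6 := p_wS_32_wQ_26_wN_1_rb8033061e19_d41_d0e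

theorem g_wS_32_wQ_26_wN_1_rb8033061e19_d41_d0dv6 : GoodKC AS c_wS_32_wQ_26_wN_1_rb8033061e19_d41_d0dv6 := p_wS_32_wQ_26_wN_1_rb8033061e19_d41_d0d

theorem g_wS_32_wQ_26_wN_1_rb8033061e19_d41_d0bv6 : GoodKC AS c_wS_32_wQ_26_wN_1_rb8033061e19_d41_d0bv6 := p_wS_32_wQ_26_wN_1_rb8033061e19_d41_d0b

theorem g_wS_32_wQ_26_wN_1_rb8033061e19_d41_d0av6 : GoodKC AS c_wS_32_wQ_26_wN_1_rb8033061e19_d41_d0av6 := p_wS_32_wQ_26_wN_1_rb8033061e19_d41_d0a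

theorem g_wS_32_wQ_26_wN_1_rb8033061e19_d41_d09v6 : GoodKC AS c_wS_32_wQ_26_wN_1_rb8033061e19_d41_d09v6 := p_wS_32_wQ_26_wN_1_rb8033061e19_d41_d09

theorem g_wS_32_wQ_26_wN_1_rb8033061e19_d41_d08v6 : GoodKC AS c_wS_32_wQ_26_wN_1_rb8033061e19_d41_d08v6 := p_wS_32_wQ_26_wN_1_rb8033061e19_d41_d08

theorem g_wS_32_wQ_26_wN_1_rb8033061e19_d41_d07v6 : GoodKC AS c_wS_32_wQ_26_wN_1_rb8033061e19_d41_d07v6 := p_wS_32_wQ_26_wN_1_rb8033061e19_d41_d07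

theorem g_wS_32_wQ_26_wN_1_rb8033061e19_d41_d04v6 : GoodKC AS c_wS_32_wQ_26_wN_1_rb8033061e19_d41_d04v6 := p_wS_32_wQ_26_wN_1_rb8033061e19_d41_d04

theorem g_wS_32_wQ_26_wN_1_rb8033061e19_d41_d03v6 : GoodKC AS c_wS_32_wQ_26_wN_1_rb8033061e19_d41_d03v6 := p_wS_32_wQ_26_wN_1_rb8033061e19_d41_d03

theorem g_wS_32_wQ_26_wN_1_rb8033061e19_d41_d02v6 : GoodKC AS c_wS_32_wQ_26_wN_1_rb8033061e19_d41_d02v6 := p_wS_32_wQ_26_wN_1_rb8033061e19_d41_d02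

theorem g_wS_32_wQ_26_wN_1_rb8033061e19_d41_d01v6 : GoodKC AS c_wS_32_wQ_26_wN_1_rb8033061e19_d41_d01v6 := p_wS_32_wQ_26_wN_1_rb8033061e19_d41_d01

theorem g__wS_32_wQ_26_wN_1_rb8033061e19_d41_d00_1 : GoodKC AS k_wS_32_wQ_26_wN_1_rb8033061e19_d41_d00_1 := p_wS_32_wQ_26_wN_1_rb8033061e19_d41_d00_1

theorem g__wS_32_wQ_26_wN_1_rb8033061e19_d41_d00_3 : GoodKC AS k_wS_32_wQ_26_wN_1_rb8033061e19_d41_d00_3 := p_wS_32_wQ_26_wN_1_rb8033061e19_d41_d00_3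

theorem g__wS_32_wQ_26_wN_1_rb8033061e19_d41_d00_2 : GoodKC AS k_wS_32_wQ_26_wN_1_rb8033061e19_d41_d00_2 := p_wS_32_wQ_26_wN_1_rb8033061e19_d41_d00_2 g__wS_32_wQ_26_wN_1_rb8033061e19_d41_d00_3

theorem g__wS_32_wQ_26_wN_1_rb8033061e19_d41_d00_0 : GoodKC AS k_wS_32_wQ_26_wN_1_rb8033061e19_d41_d00_0 := p_wS_32_wQ_26_wN_1_rb8033061e19_d41_d00_0 g__wS_32_wQ_26_wN_1_rb8033061e19_d41_d00_1 g__wS_32_wQ_26_wN_1_rb8033061e19_d41_d00_2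

theorem g_wS_32_wQ_26_wN_1_rb8033061e19_d41_d00v6 : GoodKC AS c_wS_32_wQ_26_wN_1_rb8033061e19_d41_d00v6 := p_wS_32_wQ_26_wN_1_rb8033061e19_d41_d00 g__wS_32_wQ_26_wN_1_rb8033061e19_d41_d00_0

theorem g_wS_32_wQ_26_wN_1_rb8033061e19_d41_d05v6 : GoodKC AS c_wS_32_wQ_26_wN_1_rb8033061e19_d41_d05v6 := p_wS_32_wQ_26_wN_1_rb8033061e19_d41_d05

theorem g_wS_32_wQ_26_wN_1_rb8033061e19_d41_d06v6 : GoodKC AS c_wS_32_wQ_26_wN_1_rb8033061e19_d41_d06v6 := p_wS_32_wQ_26_wN_1_rb8033061e19_d41_d06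

theorem g_wS_32_wQ_26_wN_1_rb8033061e19_d41_d0cv6 : GoodKC AS c_wS_32_wQ_26_wN_1_rb8033061e19_d41_d0cv6 := p_wS_32_wQ_26_wN_1_rb8033061e19_d41_d0c

theorem g_wS_32_wQ_26_wN_1_rb8033061e19_d41_d0fv6 : GoodKC AS c_wS_32_wQ_26_wN_1_rb8033061e19_d41_d0fv6 := p_wS_32_wQ_26_wN_1_rb8033061e19_d41_d0f

theorem g_wS_32_wQ_26_wN_1_rb8033061e19_d41_d10v6 : GoodKC AS c_wS_32_wQ_26_wN_1_rb8033061e19_d41_d10v6 := p_wS_32_wQ_26_wN_1_rb8033061e19_d41_d10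

theorem g_wS_32_wQ_26_wN_1_rb8033061e19_d41_d11v6 : GoodKC AS c_wS_32_wQ_26_wN_1_rb8033061e19_d41_d11v6 := p_wS_32_wQ_26_wN_1_rb8033061e19_d41_d11

theorem g_wS_32_wQ_26_wN_1_rb8033061e19_d41_d12v6 : GoodKC AS c_wS_32_wQ_26_wN_1_rb8033061e19_d41_d12v6 := p_wS_32_wQ_26_wN_1_rb8033061e19_d41_d12

theorem g_wS_32_wQ_26_wN_1_rb8033061e19_d41_d13v6 : GoodKC AS c_wS_32_wQ_26_wN_1_rb8033061e19_d41_d13v6 := p_wS_32_wQ_26_wN_1_rb8033061e19_d41_d13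

theorem g__wS_32_wQ_26_wN_1_rb8033061e19_d41_d1b_0 : GoodKC AS k_wS_32_wQ_26_wN_1_rb8033061e19_d41_d1b_0 := p_wS_32_wQ_26_wN_1_rb8033061e19_d41_d1b_0

theorem g_wS_32_wQ_26_wN_1_rb8033061e19_d41_d1bv6 : GoodKC AS c_wS_32_wQ_26_wN_1_rb8033061e19_d41_d1bv6 := p_wS_32_wQ_26_wN_1_rb8033061e19_d41_d1b g__wS_32_wQ_26_wN_1_rb8033061e19_d41_d1b_0

theorem g_wS_32_wQ_26_wN_1_rb8033061e19_d41_d1cv6 : GoodKC AS c_wS_32_wQ_26_wN_1_rb8033061e19_d41_d1cv6 := p_wS_32_wQ_26_wN_1_rb8033061e19_d41_d1c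

theorem g_wS_32_wQ_26_wN_1_rb8033061e19_d41_d1ev6 : GoodKC AS c_wS_32_wQ_26_wN_1_rb8033061e19_d41_d1ev6 := p_wS_32_wQ_26_wN_1_rb8033061e19_d41_d1e

theorem g_wS_32_wQ_26_wN_1_rb8033061e19_d41_d22v6 : GoodKC AS c_wS_32_wQ_26_wN_1_rb8033061e19_d41_d22v6 := p_wS_32_wQ_26_wN_1_rb8033061e19_d41_d22

theorem g_wS_32_wQ_26_wN_1_rb8033061e19_d41_d23v6 : GoodKC AS c_wS_32_wQ_26_wN_1_rb8033061e19_d41_d23v6 := p_wS_32_wQ_26_wN_1_rb8033061e19_d41_d23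

theorem g_wS_32_wQ_26_wN_1_rb8033061e19_d41_d25v6 : GoodKC AS c_wS_32_wQ_26_wN_1_rb8033061e19_d41_d25v6 := p_wS_32_wQ_26_wN_1_rb8033061e19_d41_d25v2

theorem g_wS_32_wQ_26_wN_1_rb8033061e19x8 : GoodKC AS c_wS_32_wQ_26_wN_1_rb8033061e19x8 := p_wS_32_wQ_26_wN_1_rb8033061e19v6 g_wS_32_wQ_26_wN_1_rb8033061e19_d41_d24v6 g__wS_32_wQ_26_wN_1_rb8033061e19v6_0 g__wS_32_wQ_26_wN_1_rb8033061e19v6_2 g__wS_32_wQ_26_wN_1_rb8033061e19v6_12 g_wS_32_wQ_26_wN_1_rb8033061e19_d41_d21v6 g_wS_32_wQ_26_wN_1_rb8033061e19_d41_d20v6 g_wS_32_wQ_26_wN_1_rb8033061e19_d41_d1fv6 g_wS_32_wQ_26_wN_1_rb8033061e19_d41_d1dv6 g_wS_32_wQ_26_wN_1_rb8033061e19_d41_d1av6 g_wS_32_wQ_26_wN_1_rb8033061e19_d41_d19v6 g_wS_32_wQ_26_wN_1_rb8033061e19_d41_d18v6 g_wS_32_wQ_26_wN_1_rb8033061e19_d41_d17v6 g_wS_32_wQ_26_wN_1_rb8033061e19_d41_d16v6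 g_wS_32_wQ_26_wN_1_rb8033061e19_d41_d15v6 g_wS_32_wQ_26_wN_1_rb8033061e19_d41_d14v6 g_wS_32_wQ_26_wN_1_rb8033061e19_d41_d0ev6 g_wS_32_wQ_26_wN_1_rb8033061e19_d41_d0dv6 g_wS_32_wQ_26_wN_1_rb8033061e19_d41_d0bv6 g_wS_32_wQ_26_wN_1_rb8033061e19_d41_d0av6 g_wS_32_wQ_26_wN_1_rb8033061e19_d41_d09v6 g_wS_32_wQ_26_wN_1_rb8033061e19_d41_d08v6 g_wS_32_wQ_26_wN_1_rb8033061e19_d41_d07v6 g_wS_32_wQ_26_wN_1_rb8033061e19_d41_d04v6 g_wS_32_wQ_26_wN_1_rb8033061e19_d41_d03v6 g_wS_32_wQ_26_wN_1_rb8033061e19_d41_d02v6 g_wS_32_wQ_26_wN_1_rb8033061e19_d41_d01v6 g_wS_32_wQ_26_wN_1_rb8033061e19_d41_d00v6 g_wS_32_wQ_26_wN_1_rb8033061e19_d41_d05v6 g_wS_32_wQ_26_wN_1_rb8033061e19_d41_d06v6 g_wS_32_wQ_26_wN_1_rb8033061e19_d41_d0cv6 g_wS_32_wQ_26_wN_1_rb8033061e19_d41_d0fv6 g_wS_32_wQ_26_wN_1_rb8033061e19_d41_d10v6 g_wS_32_wQ_26_wN_1_rb8033061e19_d41_d11v6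 g_wS_32_wQ_26_wN_1_rb8033061e19_d41_d12v6 g_wS_32_wQ_26_wN_1_rb8033061e19_d41_d13v6 g_wS_32_wQ_26_wN_1_rb8033061e19_d41_d1bv6 g_wS_32_wQ_26_wN_1_rb8033061e19_d41_d1cv6 g_wS_32_wQ_26_wN_1_rb8033061e19_d41_d1ev6 g_wS_32_wQ_26_wN_1_rb8033061e19_d41_d22v6 g_wS_32_wQ_26_wN_1_rb8033061e19_d41_d23v6 g_wS_32_wQ_26_wN_1_rb8033061e19_d41_d25v6

theorem g_wS_32_wQ_26_wN_1_rb8033061e1bx8 : GoodKC AS c_wS_32_wQ_26_wN_1_rb8033061e1bx8 := p_wS_32_wQ_26_wN_1_rb8033061e1bx6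

theorem g_wS_32_wQ_26_wN_1_rb8033061e1e_d42_d10x5 : GoodKC AS c_wS_32_wQ_26_wN_1_rb8033061e1e_d42_d10x5 := p_wS_32_wQ_26_wN_1_rb8033061e1e_d42_d10x4

theorem g_wS_32_wQ_26_wN_1_rb8033061e1e_d42_d0fx5 : GoodKC AS c_wS_32_wQ_26_wN_1_rb8033061e1e_d42_d0fx5 := p_wS_32_wQ_26_wN_1_rb8033061e1e_d42_d0fx4

theorem g_wS_32_wQ_26_wN_1_rb8033061e1e_d42_d0ex5 : GoodKC AS c_wS_32_wQ_26_wN_1_rb8033061e1e_d42_d0ex5 := p_wS_32_wQ_26_wN_1_rb8033061e1e_d42_d0ex4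

theorem g_wS_32_wQ_26_wN_1_rb8033061e1e_d42_d0dx5 : GoodKC AS c_wS_32_wQ_26_wN_1_rb8033061e1e_d42_d0dx5 := p_wS_32_wQ_26_wN_1_rb8033061e1e_d42_d0dx4

theorem g_wS_32_wQ_26_wN_1_rb8033061e1e_d42_d0cx5 : GoodKC AS c_wS_32_wQ_26_wN_1_rb8033061e1e_d42_d0cx5 := p_wS_32_wQ_26_wN_1_rb8033061e1e_d42_d0cx4

theorem g_wS_32_wQ_26_wN_1_rb8033061e1e_d42_d0bx5 : GoodKC AS c_wS_32_wQ_26_wN_1_rb8033061e1e_d42_d0bx5 := p_wS_32_wQ_26_wN_1_rb8033061e1e_d42_d0bx4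

theorem g_wS_32_wQ_26_wN_1_rb8033061e1e_d42_d0ax5 : GoodKC AS c_wS_32_wQ_26_wN_1_rb8033061e1e_d42_d0ax5 := p_wS_32_wQ_26_wN_1_rb8033061e1e_d42_d0ax4

theorem g_wS_32_wQ_26_wN_1_rb8033061e1e_d42_d09x5 : GoodKC AS c_wS_32_wQ_26_wN_1_rb8033061e1e_d42_d09x5 := p_wS_32_wQ_26_wN_1_rb8033061e1e_d42_d09x4

theorem g_wS_32_wQ_26_wN_1_rb8033061e1e_d42_d07x5 : GoodKC AS c_wS_32_wQ_26_wN_1_rb8033061e1e_d42_d07x5 := p_wS_32_wQ_26_wN_1_rb8033061e1e_d42_d07x4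

theorem g_wS_32_wQ_26_wN_1_rb8033061e1e_d42_d05x5 : GoodKC AS c_wS_32_wQ_26_wN_1_rb8033061e1e_d42_d05x5 := p_wS_32_wQ_26_wN_1_rb8033061e1e_d42_d05x4

theorem g_wS_32_wQ_26_wN_1_rb8033061e1e_d42_d02x5 : GoodKC AS c_wS_32_wQ_26_wN_1_rb8033061e1e_d42_d02x5 := p_wS_32_wQ_26_wN_1_rb8033061e1e_d42_d02x4

theorem g__wS_32_wQ_26_wN_1_rb8033061e1e_d42_d00v4_2 : GoodKC AS k_wS_32_wQ_26_wN_1_rb8033061e1e_d42_d00v4_2 := p_wS_32_wQ_26_wN_1_rb8033061e1e_d42_d00v4_2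

theorem g__wS_32_wQ_26_wN_1_rb8033061e1e_d42_d00v4_5 : GoodKC AS k_wS_32_wQ_26_wN_1_rb8033061e1e_d42_d00v4_5 := p_wS_32_wQ_26_wN_1_rb8033061e1e_d42_d00v4_5

theorem g__wS_32_wQ_26_wN_1_rb8033061e1e_d42_d00v4_4 : GoodKC AS k_wS_32_wQ_26_wN_1_rb8033061e1e_d42_d00v4_4 := p_wS_32_wQ_26_wN_1_rb8033061e1e_d42_d00v4_4 g__wS_32_wQ_26_wN_1_rb8033061e1e_d42_d00v4_5

theorem g__wS_32_wQ_26_wN_1_rb8033061e1e_d42_d00v4_3 : GoodKC AS k_wS_32_wQ_26_wN_1_rb8033061e1e_d42_d00v4_3 := p_wS_32_wQ_26_wN_1_rb8033061e1e_d42_d00v4_3 g__wS_32_wQ_26_wN_1_rb8033061e1e_d42_d00v4_4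

theorem g__wS_32_wQ_26_wN_1_rb8033061e1e_d42_d00v4_1 : GoodKC AS k_wS_32_wQ_26_wN_1_rb8033061e1e_d42_d00v4_1 := p_wS_32_wQ_26_wN_1_rb8033061e1e_d42_d00v4_1 g__wS_32_wQ_26_wN_1_rb8033061e1e_d42_d00v4_2 g__wS_32_wQ_26_wN_1_rb8033061e1e_d42_d00v4_3

theorem g__wS_32_wQ_26_wN_1_rb8033061e1e_d42_d00v4_6 : GoodKC AS k_wS_32_wQ_26_wN_1_rb8033061e1e_d42_d00v4_6 := p_wS_32_wQ_26_wN_1_rb8033061e1e_d42_d00v4_6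

theorem g__wS_32_wQ_26_wN_1_rb8033061e1e_d42_d00v4_0 : GoodKC AS k_wS_32_wQ_26_wN_1_rb8033061e1e_d42_d00v4_0 := p_wS_32_wQ_26_wN_1_rb8033061e1e_d42_d00v4_0 g__wS_32_wQ_26_wN_1_rb8033061e1e_d42_d00v4_1 g__wS_32_wQ_26_wN_1_rb8033061e1e_d42_d00v4_6

theorem g_wS_32_wQ_26_wN_1_rb8033061e1e_d42_d00x5 : GoodKC AS c_wS_32_wQ_26_wN_1_rb8033061e1e_d42_d00x5 := p_wS_32_wQ_26_wN_1_rb8033061e1e_d42_d00x4 g__wS_32_wQ_26_wN_1_rb8033061e1e_d42_d00v4_0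

theorem g_wS_32_wQ_26_wN_1_rb8033061e1e_d42_d01x5 : GoodKC AS c_wS_32_wQ_26_wN_1_rb8033061e1e_d42_d01x5 := p_wS_32_wQ_26_wN_1_rb8033061e1e_d42_d01x4

theorem g_wS_32_wQ_26_wN_1_rb8033061e1e_d42_d03x5 : GoodKC AS c_wS_32_wQ_26_wN_1_rb8033061e1e_d42_d03x5 := p_wS_32_wQ_26_wN_1_rb8033061e1e_d42_d03x4

theorem g_wS_32_wQ_26_wN_1_rb8033061e1e_d42_d04x5 : GoodKC AS c_wS_32_wQ_26_wN_1_rb8033061e1e_d42_d04x5 := p_wS_32_wQ_26_wN_1_rb8033061e1e_d42_d04x4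

theorem g__wS_32_wQ_26_wN_1_rb8033061e1ex5_2 : GoodKC AS k_wS_32_wQ_26_wN_1_rb8033061e1ex5_2 := p_wS_32_wQ_26_wN_1_rb8033061e1ex5_2

theorem g__wS_32_wQ_26_wN_1_rb8033061e1ex5_4 : GoodKC AS k_wS_32_wQ_26_wN_1_rb8033061e1ex5_4 := p_wS_32_wQ_26_wN_1_rb8033061e1ex5_4

theorem g__wS_32_wQ_26_wN_1_rb8033061e1ex5_3 : GoodKC AS k_wS_32_wQ_26_wN_1_rb8033061e1ex5_3 := p_wS_32_wQ_26_wN_1_rb8033061e1ex5_3 g__wS_32_wQ_26_wN_1_rb8033061e1ex5_4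

theorem g__wS_32_wQ_26_wN_1_rb8033061e1ex5_1 : GoodKC AS k_wS_32_wQ_26_wN_1_rb8033061e1ex5_1 := p_wS_32_wQ_26_wN_1_rb8033061e1ex5_1 g__wS_32_wQ_26_wN_1_rb8033061e1ex5_2 g__wS_32_wQ_26_wN_1_rb8033061e1ex5_3

theorem g__wS_32_wQ_26_wN_1_rb8033061e1ex5_5 : GoodKC AS k_wS_32_wQ_26_wN_1_rb8033061e1ex5_5 := p_wS_32_wQ_26_wN_1_rb8033061e1ex5_5

theorem g__wS_32_wQ_26_wN_1_rb8033061e1ex5_0 : GoodKC AS k_wS_32_wQ_26_wN_1_rb8033061e1ex5_0 := p_wS_32_wQ_26_wN_1_rb8033061e1ex5_0 g__wS_32_wQ_26_wN_1_rb8033061e1ex5_1 g__wS_32_wQ_26_wN_1_rb8033061e1ex5_5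

theorem g_wS_32_wQ_26_wN_1_rb8033061e1e_d42_d06x5 : GoodKC AS c_wS_32_wQ_26_wN_1_rb8033061e1e_d42_d06x5 := p_wS_32_wQ_26_wN_1_rb8033061e1e_d42_d06x4

theorem g_wS_32_wQ_26_wN_1_rb8033061e1e_d42_d08x5 : GoodKC AS c_wS_32_wQ_26_wN_1_rb8033061e1e_d42_d08x5 := p_wS_32_wQ_26_wN_1_rb8033061e1e_d42_d08x4

theorem g__wS_32_wQ_26_wN_1_rb8033061e1ex5_8 : GoodKC AS k_wS_32_wQ_26_wN_1_rb8033061e1ex5_8 := p_wS_32_wQ_26_wN_1_rb8033061e1ex5_8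

theorem g__wS_32_wQ_26_wN_1_rb8033061e1ex5_7 : GoodKC AS k_wS_32_wQ_26_wN_1_rb8033061e1ex5_7 := p_wS_32_wQ_26_wN_1_rb8033061e1ex5_7 g__wS_32_wQ_26_wN_1_rb8033061e1ex5_8

theorem g__wS_32_wQ_26_wN_1_rb8033061e1ex5_10 : GoodKC AS k_wS_32_wQ_26_wN_1_rb8033061e1ex5_10 := p_wS_32_wQ_26_wN_1_rb8033061e1ex5_10

theorem g__wS_32_wQ_26_wN_1_rb8033061e1ex5_9 : GoodKC AS k_wS_32_wQ_26_wN_1_rb8033061e1ex5_9 := p_wS_32_wQ_26_wN_1_rb8033061e1ex5_9 g__wS_32_wQ_26_wN_1_rb8033061e1ex5_10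

theorem g__wS_32_wQ_26_wN_1_rb8033061e1ex5_13 : GoodKC AS k_wS_32_wQ_26_wN_1_rb8033061e1ex5_13 := p_wS_32_wQ_26_wN_1_rb8033061e1ex5_13

theorem g__wS_32_wQ_26_wN_1_rb8033061e1ex5_12 : GoodKC AS k_wS_32_wQ_26_wN_1_rb8033061e1ex5_12 := p_wS_32_wQ_26_wN_1_rb8033061e1ex5_12 g__wS_32_wQ_26_wN_1_rb8033061e1ex5_13

theorem g__wS_32_wQ_26_wN_1_rb8033061e1ex5_11 : GoodKC AS k_wS_32_wQ_26_wN_1_rb8033061e1ex5_11 := p_wS_32_wQ_26_wN_1_rb8033061e1ex5_11 g__wS_32_wQ_26_wN_1_rb8033061e1ex5_12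

theorem g__wS_32_wQ_26_wN_1_rb8033061e1ex5_6 : GoodKC AS k_wS_32_wQ_26_wN_1_rb8033061e1ex5_6 := p_wS_32_wQ_26_wN_1_rb8033061e1ex5_6 g__wS_32_wQ_26_wN_1_rb8033061e1ex5_7 g__wS_32_wQ_26_wN_1_rb8033061e1ex5_9 g__wS_32_wQ_26_wN_1_rb8033061e1ex5_11

theorem g_wS_32_wQ_26_wN_1_rb8033061e1ex8 : GoodKC AS c_wS_32_wQ_26_wN_1_rb8033061e1ex8 := p_wS_32_wQ_26_wN_1_rb8033061e1ex5 g_wS_32_wQ_26_wN_1_rb8033061e1e_d42_d10x5 g_wS_32_wQ_26_wN_1_rb8033061e1e_d42_d0fx5 g_wS_32_wQ_26_wN_1_rb8033061e1e_d42_d0ex5 g_wS_32_wQ_26_wN_1_rb8033061e1e_d42_d0dx5 g_wS_32_wQ_26_wN_1_rb8033061e1e_d42_d0cx5 g_wS_32_wQ_26_wN_1_rb8033061e1e_d42_d0bx5 g_wS_32_wQ_26_wN_1_rb8033061e1e_d42_d0ax5 g_wS_32_wQ_26_wN_1_rb8033061e1e_d42_d09x5 g_wS_32_wQ_26_wN_1_rb8033061e1e_d42_d07x5 g_wS_32_wQ_26_wN_1_rb8033061e1e_d42_d05x5 g_wS_32_wQ_26_wN_1_rb8033061e1e_d42_d02x5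 g_wS_32_wQ_26_wN_1_rb8033061e1e_d42_d00x5 g_wS_32_wQ_26_wN_1_rb8033061e1e_d42_d01x5 g_wS_32_wQ_26_wN_1_rb8033061e1e_d42_d03x5 g_wS_32_wQ_26_wN_1_rb8033061e1e_d42_d04x5 g__wS_32_wQ_26_wN_1_rb8033061e1ex5_0 g_wS_32_wQ_26_wN_1_rb8033061e1e_d42_d06x5 g_wS_32_wQ_26_wN_1_rb8033061e1e_d42_d08x5 g__wS_32_wQ_26_wN_1_rb8033061e1ex5_6

theorem g_wS_32_wQ_26_wN_1_rb8033061e20x8 : GoodKC AS c_wS_32_wQ_26_wN_1_rb8033061e20x8 := p_wS_32_wQ_26_wN_1_rb8033061e20x7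

theorem g__wS_32_wQ_26_wN_1_rb8033061e21x5_3 : GoodKC AS k_wS_32_wQ_26_wN_1_rb8033061e21x5_3 := p_wS_32_wQ_26_wN_1_rb8033061e21x5_3

theorem g__wS_32_wQ_26_wN_1_rb8033061e21x5_2 : GoodKC AS k_wS_32_wQ_26_wN_1_rb8033061e21x5_2 := p_wS_32_wQ_26_wN_1_rb8033061e21x5_2 g__wS_32_wQ_26_wN_1_rb8033061e21x5_3

theorem g__wS_32_wQ_26_wN_1_rb8033061e21x5_1 : GoodKC AS k_wS_32_wQ_26_wN_1_rb8033061e21x5_1 := p_wS_32_wQ_26_wN_1_rb8033061e21x5_1 g__wS_32_wQ_26_wN_1_rb8033061e21x5_2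

theorem g__wS_32_wQ_26_wN_1_rb8033061e21x5_6 : GoodKC AS k_wS_32_wQ_26_wN_1_rb8033061e21x5_6 := p_wS_32_wQ_26_wN_1_rb8033061e21x5_6

theorem g__wS_32_wQ_26_wN_1_rb8033061e21x5_5 : GoodKC AS k_wS_32_wQ_26_wN_1_rb8033061e21x5_5 := p_wS_32_wQ_26_wN_1_rb8033061e21x5_5 g__wS_32_wQ_26_wN_1_rb8033061e21x5_6

theorem g__wS_32_wQ_26_wN_1_rb8033061e21x5_4 : GoodKC AS k_wS_32_wQ_26_wN_1_rb8033061e21x5_4 := p_wS_32_wQ_26_wN_1_rb8033061e21x5_4 g__wS_32_wQ_26_wN_1_rb8033061e21x5_5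

theorem g__wS_32_wQ_26_wN_1_rb8033061e21x5_0 : GoodKC AS k_wS_32_wQ_26_wN_1_rb8033061e21x5_0 := p_wS_32_wQ_26_wN_1_rb8033061e21x5_0 g__wS_32_wQ_26_wN_1_rb8033061e21x5_1 g__wS_32_wQ_26_wN_1_rb8033061e21x5_4

theorem g__wS_32_wQ_26_wN_1_rb8033061e21x5_11 : GoodKC AS k_wS_32_wQ_26_wN_1_rb8033061e21x5_11 := p_wS_32_wQ_26_wN_1_rb8033061e21x5_11

theorem g__wS_32_wQ_26_wN_1_rb8033061e21x5_10 : GoodKC AS k_wS_32_wQ_26_wN_1_rb8033061e21x5_10 := p_wS_32_wQ_26_wN_1_rb8033061e21x5_10 g__wS_32_wQ_26_wN_1_rb8033061e21x5_11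

theorem g__wS_32_wQ_26_wN_1_rb8033061e21x5_12 : GoodKC AS k_wS_32_wQ_26_wN_1_rb8033061e21x5_12 := p_wS_32_wQ_26_wN_1_rb8033061e21x5_12

theorem g__wS_32_wQ_26_wN_1_rb8033061e21x5_9 : GoodKC AS k_wS_32_wQ_26_wN_1_rb8033061e21x5_9 := p_wS_32_wQ_26_wN_1_rb8033061e21x5_9 g__wS_32_wQ_26_wN_1_rb8033061e21x5_10 g__wS_32_wQ_26_wN_1_rb8033061e21x5_12

theorem g__wS_32_wQ_26_wN_1_rb8033061e21x5_14 : GoodKC AS k_wS_32_wQ_26_wN_1_rb8033061e21x5_14 := p_wS_32_wQ_26_wN_1_rb8033061e21x5_14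

theorem g__wS_32_wQ_26_wN_1_rb8033061e21x5_16 : GoodKC AS k_wS_32_wQ_26_wN_1_rb8033061e21x5_16 := p_wS_32_wQ_26_wN_1_rb8033061e21x5_16

theorem g__wS_32_wQ_26_wN_1_rb8033061e21x5_17 : GoodKC AS k_wS_32_wQ_26_wN_1_rb8033061e21x5_17 := p_wS_32_wQ_26_wN_1_rb8033061e21x5_17

theorem g__wS_32_wQ_26_wN_1_rb8033061e21x5_15 : GoodKC AS k_wS_32_wQ_26_wN_1_rb8033061e21x5_15 := p_wS_32_wQ_26_wN_1_rb8033061e21x5_15 g__wS_32_wQ_26_wN_1_rb8033061e21x5_16 g__wS_32_wQ_26_wN_1_rb8033061e21x5_17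

theorem g__wS_32_wQ_26_wN_1_rb8033061e21x5_13 : GoodKC AS k_wS_32_wQ_26_wN_1_rb8033061e21x5_13 := p_wS_32_wQ_26_wN_1_rb8033061e21x5_13 g__wS_32_wQ_26_wN_1_rb8033061e21x5_14 g__wS_32_wQ_26_wN_1_rb8033061e21x5_15

theorem g__wS_32_wQ_26_wN_1_rb8033061e21x5_8 : GoodKC AS k_wS_32_wQ_26_wN_1_rb8033061e21x5_8 := p_wS_32_wQ_26_wN_1_rb8033061e21x5_8 g__wS_32_wQ_26_wN_1_rb8033061e21x5_9 g__wS_32_wQ_26_wN_1_rb8033061e21x5_13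

theorem g__wS_32_wQ_26_wN_1_rb8033061e21x5_19 : GoodKC AS k_wS_32_wQ_26_wN_1_rb8033061e21x5_19 := p_wS_32_wQ_26_wN_1_rb8033061e21x5_19

theorem g__wS_32_wQ_26_wN_1_rb8033061e21x5_18 : GoodKC AS k_wS_32_wQ_26_wN_1_rb8033061e21x5_18 := p_wS_32_wQ_26_wN_1_rb8033061e21x5_18 g__wS_32_wQ_26_wN_1_rb8033061e21x5_19

theorem g__wS_32_wQ_26_wN_1_rb8033061e21x5_21 : GoodKC AS k_wS_32_wQ_26_wN_1_rb8033061e21x5_21 := p_wS_32_wQ_26_wN_1_rb8033061e21x5_21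

theorem g__wS_32_wQ_26_wN_1_rb8033061e21x5_20 : GoodKC AS k_wS_32_wQ_26_wN_1_rb8033061e21x5_20 := p_wS_32_wQ_26_wN_1_rb8033061e21x5_20 g__wS_32_wQ_26_wN_1_rb8033061e21x5_21

theorem g__wS_32_wQ_26_wN_1_rb8033061e21x5_7 : GoodKC AS k_wS_32_wQ_26_wN_1_rb8033061e21x5_7 := p_wS_32_wQ_26_wN_1_rb8033061e21x5_7 g__wS_32_wQ_26_wN_1_rb8033061e21x5_8 g__wS_32_wQ_26_wN_1_rb8033061e21x5_18 g__wS_32_wQ_26_wN_1_rb8033061e21x5_20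

theorem g_wS_32_wQ_26_wN_1_rb8033061e2102x5 : GoodKC AS c_wS_32_wQ_26_wN_1_rb8033061e2102x5 := p_wS_32_wQ_26_wN_1_rb8033061e2102x4

theorem g_wS_32_wQ_26_wN_1_rb8033061e2101x5 : GoodKC AS c_wS_32_wQ_26_wN_1_rb8033061e2101x5 := p_wS_32_wQ_26_wN_1_rb8033061e2101x4

theorem g__wS_32_wQ_26_wN_1_rb8033061e2100v2_1 : GoodKC AS k_wS_32_wQ_26_wN_1_rb8033061e2100v2_1 := p_wS_32_wQ_26_wN_1_rb8033061e2100v2_1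

theorem g__wS_32_wQ_26_wN_1_rb8033061e2100v2_0 : GoodKC AS k_wS_32_wQ_26_wN_1_rb8033061e2100v2_0 := p_wS_32_wQ_26_wN_1_rb8033061e2100v2_0 g__wS_32_wQ_26_wN_1_rb8033061e2100v2_1

theorem g_wS_32_wQ_26_wN_1_rb8033061e2100x5 : GoodKC AS c_wS_32_wQ_26_wN_1_rb8033061e2100x5 := p_wS_32_wQ_26_wN_1_rb8033061e2100x2 g__wS_32_wQ_26_wN_1_rb8033061e2100v2_0

theorem g__wS_32_wQ_26_wN_1_rb8033061e2103x2_2 : GoodKC AS k_wS_32_wQ_26_wN_1_rb8033061e2103x2_2 := p_wS_32_wQ_26_wN_1_rb8033061e2103x2_2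

theorem g__wS_32_wQ_26_wN_1_rb8033061e2103x2_1 : GoodKC AS k_wS_32_wQ_26_wN_1_rb8033061e2103x2_1 := p_wS_32_wQ_26_wN_1_rb8033061e2103x2_1 g__wS_32_wQ_26_wN_1_rb8033061e2103x2_2

theorem g__wS_32_wQ_26_wN_1_rb8033061e2103x2_3 : GoodKC AS k_wS_32_wQ_26_wN_1_rb8033061e2103x2_3 := p_wS_32_wQ_26_wN_1_rb8033061e2103x2_3

theorem g__wS_32_wQ_26_wN_1_rb8033061e2103x2_5 : GoodKC AS k_wS_32_wQ_26_wN_1_rb8033061e2103x2_5 := p_wS_32_wQ_26_wN_1_rb8033061e2103x2_5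

theorem g__wS_32_wQ_26_wN_1_rb8033061e2103x2_4 : GoodKC AS k_wS_32_wQ_26_wN_1_rb8033061e2103x2_4 := p_wS_32_wQ_26_wN_1_rb8033061e2103x2_4 g__wS_32_wQ_26_wN_1_rb8033061e2103x2_5

theorem g__wS_32_wQ_26_wN_1_rb8033061e2103x2_0 : GoodKC AS k_wS_32_wQ_26_wN_1_rb8033061e2103x2_0 := p_wS_32_wQ_26_wN_1_rb8033061e2103x2_0 g__wS_32_wQ_26_wN_1_rb8033061e2103x2_1 g__wS_32_wQ_26_wN_1_rb8033061e2103x2_3 g__wS_32_wQ_26_wN_1_rb8033061e2103x2_4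

theorem g_wS_32_wQ_26_wN_1_rb8033061e2103x5 : GoodKC AS c_wS_32_wQ_26_wN_1_rb8033061e2103x5 := p_wS_32_wQ_26_wN_1_rb8033061e2103x2 g__wS_32_wQ_26_wN_1_rb8033061e2103x2_0

theorem g_wS_32_wQ_26_wN_1_rb8033061e21x8 : GoodKC AS c_wS_32_wQ_26_wN_1_rb8033061e21x8 := p_wS_32_wQ_26_wN_1_rb8033061e21x5 g__wS_32_wQ_26_wN_1_rb8033061e21x5_0 g__wS_32_wQ_26_wN_1_rb8033061e21x5_7 g_wS_32_wQ_26_wN_1_rb8033061e2102x5 g_wS_32_wQ_26_wN_1_rb8033061e2101x5 g_wS_32_wQ_26_wN_1_rb8033061e2100x5 g_wS_32_wQ_26_wN_1_rb8033061e2103x5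

theorem g_wS_32_wQ_26_wN_1_rb8033061e26x8 : GoodKC AS c_wS_32_wQ_26_wN_1_rb8033061e26x8 := p_wS_32_wQ_26_wN_1_rb8033061e26x6

theorem g_wS_32_wQ_26_wN_1_rb8033061ex17 : GoodKC AS c_wS_32_wQ_26_wN_1_rb8033061ex17 := p_wS_32_wQ_26_wN_1_rb8033061ex8 g_wS_32_wQ_26_wN_1_rb8033061e28x8 g_wS_32_wQ_26_wN_1_rb8033061e27x8 g_wS_32_wQ_26_wN_1_rb8033061e25x8 g_wS_32_wQ_26_wN_1_rb8033061e24x8 g_wS_32_wQ_26_wN_1_rb8033061e23x8 g_wS_32_wQ_26_wN_1_rb8033061e22x8 g_wS_32_wQ_26_wN_1_rb8033061e1fx8 g_wS_32_wQ_26_wN_1_rb8033061e1dx8 g_wS_32_wQ_26_wN_1_rb8033061e1cx8 g_wS_32_wQ_26_wN_1_rb8033061e1ax8 g_wS_32_wQ_26_wN_1_rb8033061e18x8 g_wS_32_wQ_26_wN_1_rb8033061e16x8 g_wS_32_wQ_26_wN_1_rb8033061e15x8 g_wS_32_wQ_26_wN_1_rb8033061e13x8 g_wS_32_wQ_26_wN_1_rb8033061e11x8 g_wS_32_wQ_26_wN_1_rb8033061e10x8 g_wS_32_wQ_26_wN_1_rb8033061e0fx8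 g_wS_32_wQ_26_wN_1_rb8033061e0ex8 g_wS_32_wQ_26_wN_1_rb8033061e0dx8 g_wS_32_wQ_26_wN_1_rb8033061e08x8 g_wS_32_wQ_26_wN_1_rb8033061e06x8 g_wS_32_wQ_26_wN_1_rb8033061e05x8 g_wS_32_wQ_26_wN_1_rb8033061e03x8 g_wS_32_wQ_26_wN_1_rb8033061e00x8 g_wS_32_wQ_26_wN_1_rb8033061e01x8 g_wS_32_wQ_26_wN_1_rb8033061e02x8 g_wS_32_wQ_26_wN_1_rb8033061e04x8 g_wS_32_wQ_26_wN_1_rb8033061e07x8 g_wS_32_wQ_26_wN_1_rb8033061e09x8 g_wS_32_wQ_26_wN_1_rb8033061e0ax8 g_wS_32_wQ_26_wN_1_rb8033061e0bx8 g_wS_32_wQ_26_wN_1_rb8033061e0cx8 g_wS_32_wQ_26_wN_1_rb8033061e12x8 g_wS_32_wQ_26_wN_1_rb8033061e14x8 g__wS_32_wQ_26_wN_1_rb8033061ex8_0 g__wS_32_wQ_26_wN_1_rb8033061ex8_6 g__wS_32_wQ_26_wN_1_rb8033061ex8_24 g_wS_32_wQ_26_wN_1_rb8033061e17x8 g_wS_32_wQ_26_wN_1_rb8033061e19x8 g_wS_32_wQ_26_wN_1_rb8033061e1bx8 g_wS_32_wQ_26_wN_1_rb8033061e1ex8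 g_wS_32_wQ_26_wN_1_rb8033061e20x8 g_wS_32_wQ_26_wN_1_rb8033061e21x8 g_wS_32_wQ_26_wN_1_rb8033061e26x8

theorem g_wS_32_wQ_26_wN_1_rb8033061dx17 : GoodKC AS c_wS_32_wQ_26_wN_1_rb8033061dx17 := p_wS_32_wQ_26_wN_1_rb8033061dx7

theorem g_wS_32_wQ_26_wN_1_rb8033061ax17 : GoodKC AS c_wS_32_wQ_26_wN_1_rb8033061ax17 := p_wS_32_wQ_26_wN_1_rb8033061ax7

theorem g_wS_32_wQ_26_wN_1_rb80330619x17 : GoodKC AS c_wS_32_wQ_26_wN_1_rb80330619x17 := p_wS_32_wQ_26_wN_1_rb80330619x7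

theorem g_wS_32_wQ_26_wN_1_rb80330615x17 : GoodKC AS c_wS_32_wQ_26_wN_1_rb80330615x17 := p_wS_32_wQ_26_wN_1_rb80330615x7

theorem g__wS_32_wQ_26_wN_1_rb8033060fx7_0 : GoodKC AS k_wS_32_wQ_26_wN_1_rb8033060fx7_0 := p_wS_32_wQ_26_wN_1_rb8033060fx7_0

theorem g_wS_32_wQ_26_wN_1_rb8033060fx17 : GoodKC AS c_wS_32_wQ_26_wN_1_rb8033060fx17 := p_wS_32_wQ_26_wN_1_rb8033060fx7 g__wS_32_wQ_26_wN_1_rb8033060fx7_0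

theorem g__wS_32_wQ_26_wN_1_rb8033060ax8_0 : GoodKC AS k_wS_32_wQ_26_wN_1_rb8033060ax8_0 := p_wS_32_wQ_26_wN_1_rb8033060ax8_0

theorem g__wS_32_wQ_26_wN_1_rb8033060ax8_2 : GoodKC AS k_wS_32_wQ_26_wN_1_rb8033060ax8_2 := p_wS_32_wQ_26_wN_1_rb8033060ax8_2

theorem g__wS_32_wQ_26_wN_1_rb8033060ax8_1 : GoodKC AS k_wS_32_wQ_26_wN_1_rb8033060ax8_1 := p_wS_32_wQ_26_wN_1_rb8033060ax8_1 g__wS_32_wQ_26_wN_1_rb8033060ax8_2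

theorem g_wS_32_wQ_26_wN_1_rb8033060ax17 : GoodKC AS c_wS_32_wQ_26_wN_1_rb8033060ax17 := p_wS_32_wQ_26_wN_1_rb8033060ax8 g__wS_32_wQ_26_wN_1_rb8033060ax8_0 g__wS_32_wQ_26_wN_1_rb8033060ax8_1

theorem g__wS_32_wQ_26_wN_1_rb80330608x8_4 : GoodKC AS k_wS_32_wQ_26_wN_1_rb80330608x8_4 := p_wS_32_wQ_26_wN_1_rb80330608x8_4

theorem g__wS_32_wQ_26_wN_1_rb80330608x8_3 : GoodKC AS k_wS_32_wQ_26_wN_1_rb80330608x8_3 := p_wS_32_wQ_26_wN_1_rb80330608x8_3 g__wS_32_wQ_26_wN_1_rb80330608x8_4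

theorem g__wS_32_wQ_26_wN_1_rb80330608x8_2 : GoodKC AS k_wS_32_wQ_26_wN_1_rb80330608x8_2 := p_wS_32_wQ_26_wN_1_rb80330608x8_2 g__wS_32_wQ_26_wN_1_rb80330608x8_3

theorem g__wS_32_wQ_26_wN_1_rb80330608x8_1 : GoodKC AS k_wS_32_wQ_26_wN_1_rb80330608x8_1 := p_wS_32_wQ_26_wN_1_rb80330608x8_1 g__wS_32_wQ_26_wN_1_rb80330608x8_2

theorem g__wS_32_wQ_26_wN_1_rb80330608x8_7 : GoodKC AS k_wS_32_wQ_26_wN_1_rb80330608x8_7 := p_wS_32_wQ_26_wN_1_rb80330608x8_7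

theorem g__wS_32_wQ_26_wN_1_rb80330608x8_6 : GoodKC AS k_wS_32_wQ_26_wN_1_rb80330608x8_6 := p_wS_32_wQ_26_wN_1_rb80330608x8_6 g__wS_32_wQ_26_wN_1_rb80330608x8_7

theorem g__wS_32_wQ_26_wN_1_rb80330608x8_5 : GoodKC AS k_wS_32_wQ_26_wN_1_rb80330608x8_5 := p_wS_32_wQ_26_wN_1_rb80330608x8_5 g__wS_32_wQ_26_wN_1_rb80330608x8_6

theorem g__wS_32_wQ_26_wN_1_rb80330608x8_0 : GoodKC AS k_wS_32_wQ_26_wN_1_rb80330608x8_0 := p_wS_32_wQ_26_wN_1_rb80330608x8_0 g__wS_32_wQ_26_wN_1_rb80330608x8_1 g__wS_32_wQ_26_wN_1_rb80330608x8_5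

theorem g__wS_32_wQ_26_wN_1_rb80330608x8_11 : GoodKC AS k_wS_32_wQ_26_wN_1_rb80330608x8_11 := p_wS_32_wQ_26_wN_1_rb80330608x8_11

theorem g__wS_32_wQ_26_wN_1_rb80330608x8_13 : GoodKC AS k_wS_32_wQ_26_wN_1_rb80330608x8_13 := p_wS_32_wQ_26_wN_1_rb80330608x8_13

theorem g__wS_32_wQ_26_wN_1_rb80330608x8_17 : GoodKC AS k_wS_32_wQ_26_wN_1_rb80330608x8_17 := p_wS_32_wQ_26_wN_1_rb80330608x8_17

theorem g__wS_32_wQ_26_wN_1_rb80330608x8_16 : GoodKC AS k_wS_32_wQ_26_wN_1_rb80330608x8_16 := p_wS_32_wQ_26_wN_1_rb80330608x8_16 g__wS_32_wQ_26_wN_1_rb80330608x8_17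

theorem g__wS_32_wQ_26_wN_1_rb80330608x8_15 : GoodKC AS k_wS_32_wQ_26_wN_1_rb80330608x8_15 := p_wS_32_wQ_26_wN_1_rb80330608x8_15 g__wS_32_wQ_26_wN_1_rb80330608x8_16

theorem g__wS_32_wQ_26_wN_1_rb80330608x8_14 : GoodKC AS k_wS_32_wQ_26_wN_1_rb80330608x8_14 := p_wS_32_wQ_26_wN_1_rb80330608x8_14 g__wS_32_wQ_26_wN_1_rb80330608x8_15

theorem g__wS_32_wQ_26_wN_1_rb80330608x8_12 : GoodKC AS k_wS_32_wQ_26_wN_1_rb80330608x8_12 := p_wS_32_wQ_26_wN_1_rb80330608x8_12 g__wS_32_wQ_26_wN_1_rb80330608x8_13 g__wS_32_wQ_26_wN_1_rb80330608x8_14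

theorem g__wS_32_wQ_26_wN_1_rb80330608x8_10 : GoodKC AS k_wS_32_wQ_26_wN_1_rb80330608x8_10 := p_wS_32_wQ_26_wN_1_rb80330608x8_10 g__wS_32_wQ_26_wN_1_rb80330608x8_11 g__wS_32_wQ_26_wN_1_rb80330608x8_12

theorem g__wS_32_wQ_26_wN_1_rb80330608x8_9 : GoodKC AS k_wS_32_wQ_26_wN_1_rb80330608x8_9 := p_wS_32_wQ_26_wN_1_rb80330608x8_9 g__wS_32_wQ_26_wN_1_rb80330608x8_10

theorem g__wS_32_wQ_26_wN_1_rb80330608x8_8 : GoodKC AS k_wS_32_wQ_26_wN_1_rb80330608x8_8 := p_wS_32_wQ_26_wN_1_rb80330608x8_8 g__wS_32_wQ_26_wN_1_rb80330608x8_9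

theorem g_wS_32_wQ_26_wN_1_rb80330608x17 : GoodKC AS c_wS_32_wQ_26_wN_1_rb80330608x17 := p_wS_32_wQ_26_wN_1_rb80330608x8 g__wS_32_wQ_26_wN_1_rb80330608x8_0 g__wS_32_wQ_26_wN_1_rb80330608x8_8

theorem g__wS_32_wQ_26_wN_1_rb80330603x7_0 : GoodKC AS k_wS_32_wQ_26_wN_1_rb80330603x7_0 := p_wS_32_wQ_26_wN_1_rb80330603x7_0

theorem g_wS_32_wQ_26_wN_1_rb80330603x17 : GoodKC AS c_wS_32_wQ_26_wN_1_rb80330603x17 := p_wS_32_wQ_26_wN_1_rb80330603x7 g__wS_32_wQ_26_wN_1_rb80330603x7_0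

theorem g_wS_32_wQ_26_wN_1_rb80330601_d41_d10x6 : GoodKC AS c_wS_32_wQ_26_wN_1_rb80330601_d41_d10x6 := p_wS_32_wQ_26_wN_1_rb80330601_d41_d10x7

theorem g_wS_32_wQ_26_wN_1_rb80330601_d41_d0ex6 : GoodKC AS c_wS_32_wQ_26_wN_1_rb80330601_d41_d0ex6 := p_wS_32_wQ_26_wN_1_rb80330601_d41_d0ex7

theorem g_wS_32_wQ_26_wN_1_rb80330601_d41_d0dx6 : GoodKC AS c_wS_32_wQ_26_wN_1_rb80330601_d41_d0dx6 := p_wS_32_wQ_26_wN_1_rb80330601_d41_d0dx7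

theorem g_wS_32_wQ_26_wN_1_rb80330601_d41_d0bx6 : GoodKC AS c_wS_32_wQ_26_wN_1_rb80330601_d41_d0bx6 := p_wS_32_wQ_26_wN_1_rb80330601_d41_d0bx7

theorem g__wS_32_wQ_26_wN_1_rb80330601x6_1 : GoodKC AS k_wS_32_wQ_26_wN_1_rb80330601x6_1 := p_wS_32_wQ_26_wN_1_rb80330601x6_1

theorem g_wS_32_wQ_26_wN_1_rb80330601_d41_d09x6 : GoodKC AS c_wS_32_wQ_26_wN_1_rb80330601_d41_d09x6 := p_wS_32_wQ_26_wN_1_rb80330601_d41_d09x7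

theorem g_wS_32_wQ_26_wN_1_rb80330601_d41_d06x6 : GoodKC AS c_wS_32_wQ_26_wN_1_rb80330601_d41_d06x6 := p_wS_32_wQ_26_wN_1_rb80330601_d41_d06x6

theorem g_wS_32_wQ_26_wN_1_rb80330601_d41_d04x6 : GoodKC AS c_wS_32_wQ_26_wN_1_rb80330601_d41_d04x6 := p_wS_32_wQ_26_wN_1_rb80330601_d41_d04x6

theorem g_wS_32_wQ_26_wN_1_rb80330601_d41_d03x6 : GoodKC AS c_wS_32_wQ_26_wN_1_rb80330601_d41_d03x6 := p_wS_32_wQ_26_wN_1_rb80330601_d41_d03x6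

theorem g_wS_32_wQ_26_wN_1_rb80330601_d41_d02x6 : GoodKC AS c_wS_32_wQ_26_wN_1_rb80330601_d41_d02x6 := p_wS_32_wQ_26_wN_1_rb80330601_d41_d02x6

theorem g_wS_32_wQ_26_wN_1_rb80330601_d41_d00x6 : GoodKC AS c_wS_32_wQ_26_wN_1_rb80330601_d41_d00x6 := p_wS_32_wQ_26_wN_1_rb80330601_d41_d00x6

theorem g_wS_32_wQ_26_wN_1_rb80330601_d41_d01x6 : GoodKC AS c_wS_32_wQ_26_wN_1_rb80330601_d41_d01x6 := p_wS_32_wQ_26_wN_1_rb80330601_d41_d01x7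

theorem g__wS_32_wQ_26_wN_1_rb80330601_d41_d05x6_0 : GoodKC AS k_wS_32_wQ_26_wN_1_rb80330601_d41_d05x6_0 := p_wS_32_wQ_26_wN_1_rb80330601_d41_d05x6_0

theorem g_wS_32_wQ_26_wN_1_rb80330601_d41_d05x6 : GoodKC AS c_wS_32_wQ_26_wN_1_rb80330601_d41_d05x6 := p_wS_32_wQ_26_wN_1_rb80330601_d41_d05x6 g__wS_32_wQ_26_wN_1_rb80330601_d41_d05x6_0

theorem g_wS_32_wQ_26_wN_1_rb80330601_d41_d07x6 : GoodKC AS c_wS_32_wQ_26_wN_1_rb80330601_d41_d07x6 := p_wS_32_wQ_26_wN_1_rb80330601_d41_d07x6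

theorem g_wS_32_wQ_26_wN_1_rb80330601_d41_d08x6 : GoodKC AS c_wS_32_wQ_26_wN_1_rb80330601_d41_d08x6 := p_wS_32_wQ_26_wN_1_rb80330601_d41_d08x6

theorem g__wS_32_wQ_26_wN_1_rb80330601x6_0 : GoodKC AS k_wS_32_wQ_26_wN_1_rb80330601x6_0 := p_wS_32_wQ_26_wN_1_rb80330601x6_0 g__wS_32_wQ_26_wN_1_rb80330601x6_1 g_wS_32_wQ_26_wN_1_rb80330601_d41_d09x6 g_wS_32_wQ_26_wN_1_rb80330601_d41_d06x6 g_wS_32_wQ_26_wN_1_rb80330601_d41_d04x6 g_wS_32_wQ_26_wN_1_rb80330601_d41_d03x6 g_wS_32_wQ_26_wN_1_rb80330601_d41_d02x6 g_wS_32_wQ_26_wN_1_rb80330601_d41_d00x6 g_wS_32_wQ_26_wN_1_rb80330601_d41_d01x6 g_wS_32_wQ_26_wN_1_rb80330601_d41_d05x6 g_wS_32_wQ_26_wN_1_rb80330601_d41_d07x6 g_wS_32_wQ_26_wN_1_rb80330601_d41_d08x6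

theorem g__wS_32_wQ_26_wN_1_rb80330601x6_3 : GoodKC AS k_wS_32_wQ_26_wN_1_rb80330601x6_3 := p_wS_32_wQ_26_wN_1_rb80330601x6_3

theorem g__wS_32_wQ_26_wN_1_rb80330601x6_2 : GoodKC AS k_wS_32_wQ_26_wN_1_rb80330601x6_2 := p_wS_32_wQ_26_wN_1_rb80330601x6_2 g__wS_32_wQ_26_wN_1_rb80330601x6_3

theorem g__wS_32_wQ_26_wN_1_rb80330601x6_10 : GoodKC AS k_wS_32_wQ_26_wN_1_rb80330601x6_10 := p_wS_32_wQ_26_wN_1_rb80330601x6_10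

theorem g__wS_32_wQ_26_wN_1_rb80330601x6_9 : GoodKC AS k_wS_32_wQ_26_wN_1_rb80330601x6_9 := p_wS_32_wQ_26_wN_1_rb80330601x6_9 g__wS_32_wQ_26_wN_1_rb80330601x6_10

theorem g__wS_32_wQ_26_wN_1_rb80330601x6_8 : GoodKC AS k_wS_32_wQ_26_wN_1_rb80330601x6_8 := p_wS_32_wQ_26_wN_1_rb80330601x6_8 g__wS_32_wQ_26_wN_1_rb80330601x6_9

theorem g__wS_32_wQ_26_wN_1_rb80330601x6_7 : GoodKC AS k_wS_32_wQ_26_wN_1_rb80330601x6_7 := p_wS_32_wQ_26_wN_1_rb80330601x6_7 g__wS_32_wQ_26_wN_1_rb80330601x6_8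

theorem g__wS_32_wQ_26_wN_1_rb80330601x6_6 : GoodKC AS k_wS_32_wQ_26_wN_1_rb80330601x6_6 := p_wS_32_wQ_26_wN_1_rb80330601x6_6 g__wS_32_wQ_26_wN_1_rb80330601x6_7

theorem g__wS_32_wQ_26_wN_1_rb80330601x6_11 : GoodKC AS k_wS_32_wQ_26_wN_1_rb80330601x6_11 := p_wS_32_wQ_26_wN_1_rb80330601x6_11

theorem g__wS_32_wQ_26_wN_1_rb80330601x6_5 : GoodKC AS k_wS_32_wQ_26_wN_1_rb80330601x6_5 := p_wS_32_wQ_26_wN_1_rb80330601x6_5 g__wS_32_wQ_26_wN_1_rb80330601x6_6 g__wS_32_wQ_26_wN_1_rb80330601x6_11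

theorem g__wS_32_wQ_26_wN_1_rb80330601x6_12 : GoodKC AS k_wS_32_wQ_26_wN_1_rb80330601x6_12 := p_wS_32_wQ_26_wN_1_rb80330601x6_12

theorem g__wS_32_wQ_26_wN_1_rb80330601x6_18 : GoodKC AS k_wS_32_wQ_26_wN_1_rb80330601x6_18 := p_wS_32_wQ_26_wN_1_rb80330601x6_18

theorem g__wS_32_wQ_26_wN_1_rb80330601x6_17 : GoodKC AS k_wS_32_wQ_26_wN_1_rb80330601x6_17 := p_wS_32_wQ_26_wN_1_rb80330601x6_17 g__wS_32_wQ_26_wN_1_rb80330601x6_18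

theorem g__wS_32_wQ_26_wN_1_rb80330601x6_16 : GoodKC AS k_wS_32_wQ_26_wN_1_rb80330601x6_16 := p_wS_32_wQ_26_wN_1_rb80330601x6_16 g__wS_32_wQ_26_wN_1_rb80330601x6_17

theorem g__wS_32_wQ_26_wN_1_rb80330601x6_15 : GoodKC AS k_wS_32_wQ_26_wN_1_rb80330601x6_15 := p_wS_32_wQ_26_wN_1_rb80330601x6_15 g__wS_32_wQ_26_wN_1_rb80330601x6_16

theorem g__wS_32_wQ_26_wN_1_rb80330601x6_21 : GoodKC AS k_wS_32_wQ_26_wN_1_rb80330601x6_21 := p_wS_32_wQ_26_wN_1_rb80330601x6_21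

theorem g__wS_32_wQ_26_wN_1_rb80330601x6_20 : GoodKC AS k_wS_32_wQ_26_wN_1_rb80330601x6_20 := p_wS_32_wQ_26_wN_1_rb80330601x6_20 g__wS_32_wQ_26_wN_1_rb80330601x6_21

theorem g__wS_32_wQ_26_wN_1_rb80330601x6_19 : GoodKC AS k_wS_32_wQ_26_wN_1_rb80330601x6_19 := p_wS_32_wQ_26_wN_1_rb80330601x6_19 g__wS_32_wQ_26_wN_1_rb80330601x6_20

theorem g__wS_32_wQ_26_wN_1_rb80330601x6_14 : GoodKC AS k_wS_32_wQ_26_wN_1_rb80330601x6_14 := p_wS_32_wQ_26_wN_1_rb80330601x6_14 g__wS_32_wQ_26_wN_1_rb80330601x6_15 g__wS_32_wQ_26_wN_1_rb80330601x6_19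

theorem g__wS_32_wQ_26_wN_1_rb80330601x6_22 : GoodKC AS k_wS_32_wQ_26_wN_1_rb80330601x6_22 := p_wS_32_wQ_26_wN_1_rb80330601x6_22

theorem g__wS_32_wQ_26_wN_1_rb80330601x6_13 : GoodKC AS k_wS_32_wQ_26_wN_1_rb80330601x6_13 := p_wS_32_wQ_26_wN_1_rb80330601x6_13 g__wS_32_wQ_26_wN_1_rb80330601x6_14 g__wS_32_wQ_26_wN_1_rb80330601x6_22

theorem g__wS_32_wQ_26_wN_1_rb80330601x6_4 : GoodKC AS k_wS_32_wQ_26_wN_1_rb80330601x6_4 := p_wS_32_wQ_26_wN_1_rb80330601x6_4 g__wS_32_wQ_26_wN_1_rb80330601x6_5 g__wS_32_wQ_26_wN_1_rb80330601x6_12 g__wS_32_wQ_26_wN_1_rb80330601x6_13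

theorem g_wS_32_wQ_26_wN_1_rb80330601_d41_d0ax6 : GoodKC AS c_wS_32_wQ_26_wN_1_rb80330601_d41_d0ax6 := p_wS_32_wQ_26_wN_1_rb80330601_d41_d0ax7

theorem g_wS_32_wQ_26_wN_1_rb80330601_d41_d0cx6 : GoodKC AS c_wS_32_wQ_26_wN_1_rb80330601_d41_d0cx6 := p_wS_32_wQ_26_wN_1_rb80330601_d41_d0cx6

theorem g__wS_32_wQ_26_wN_1_rb80330601_d41_d0fx6_2 : GoodKC AS k_wS_32_wQ_26_wN_1_rb80330601_d41_d0fx6_2 := p_wS_32_wQ_26_wN_1_rb80330601_d41_d0fx6_2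

theorem g__wS_32_wQ_26_wN_1_rb80330601_d41_d0fx6_1 : GoodKC AS k_wS_32_wQ_26_wN_1_rb80330601_d41_d0fx6_1 := p_wS_32_wQ_26_wN_1_rb80330601_d41_d0fx6_1 g__wS_32_wQ_26_wN_1_rb80330601_d41_d0fx6_2

theorem g__wS_32_wQ_26_wN_1_rb80330601_d41_d0fx6_5 : GoodKC AS k_wS_32_wQ_26_wN_1_rb80330601_d41_d0fx6_5 := p_wS_32_wQ_26_wN_1_rb80330601_d41_d0fx6_5

theorem g__wS_32_wQ_26_wN_1_rb80330601_d41_d0fx6_4 : GoodKC AS k_wS_32_wQ_26_wN_1_rb80330601_d41_d0fx6_4 := p_wS_32_wQ_26_wN_1_rb80330601_d41_d0fx6_4 g__wS_32_wQ_26_wN_1_rb80330601_d41_d0fx6_5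

theorem g__wS_32_wQ_26_wN_1_rb80330601_d41_d0fx6_10 : GoodKC AS k_wS_32_wQ_26_wN_1_rb80330601_d41_d0fx6_10 := p_wS_32_wQ_26_wN_1_rb80330601_d41_d0fx6_10

theorem g__wS_32_wQ_26_wN_1_rb80330601_d41_d0fx6_9 : GoodKC AS k_wS_32_wQ_26_wN_1_rb80330601_d41_d0fx6_9 := p_wS_32_wQ_26_wN_1_rb80330601_d41_d0fx6_9 g__wS_32_wQ_26_wN_1_rb80330601_d41_d0fx6_10

theorem g__wS_32_wQ_26_wN_1_rb80330601_d41_d0fx6_8 : GoodKC AS k_wS_32_wQ_26_wN_1_rb80330601_d41_d0fx6_8 := p_wS_32_wQ_26_wN_1_rb80330601_d41_d0fx6_8 g__wS_32_wQ_26_wN_1_rb80330601_d41_d0fx6_9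

theorem g__wS_32_wQ_26_wN_1_rb80330601_d41_d0fx6_7 : GoodKC AS k_wS_32_wQ_26_wN_1_rb80330601_d41_d0fx6_7 := p_wS_32_wQ_26_wN_1_rb80330601_d41_d0fx6_7 g__wS_32_wQ_26_wN_1_rb80330601_d41_d0fx6_8

theorem g__wS_32_wQ_26_wN_1_rb80330601_d41_d0fx6_6 : GoodKC AS k_wS_32_wQ_26_wN_1_rb80330601_d41_d0fx6_6 := p_wS_32_wQ_26_wN_1_rb80330601_d41_d0fx6_6 g__wS_32_wQ_26_wN_1_rb80330601_d41_d0fx6_7

theorem g__wS_32_wQ_26_wN_1_rb80330601_d41_d0fx6_3 : GoodKC AS k_wS_32_wQ_26_wN_1_rb80330601_d41_d0fx6_3 := p_wS_32_wQ_26_wN_1_rb80330601_d41_d0fx6_3 g__wS_32_wQ_26_wN_1_rb80330601_d41_d0fx6_4 g__wS_32_wQ_26_wN_1_rb80330601_d41_d0fx6_6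

theorem g__wS_32_wQ_26_wN_1_rb80330601_d41_d0fx6_0 : GoodKC AS k_wS_32_wQ_26_wN_1_rb80330601_d41_d0fx6_0 := p_wS_32_wQ_26_wN_1_rb80330601_d41_d0fx6_0 g__wS_32_wQ_26_wN_1_rb80330601_d41_d0fx6_1 g__wS_32_wQ_26_wN_1_rb80330601_d41_d0fx6_3

theorem g_wS_32_wQ_26_wN_1_rb80330601_d41_d0fx6 : GoodKC AS c_wS_32_wQ_26_wN_1_rb80330601_d41_d0fx6 := p_wS_32_wQ_26_wN_1_rb80330601_d41_d0fx6 g__wS_32_wQ_26_wN_1_rb80330601_d41_d0fx6_0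

theorem g__wS_32_wQ_26_wN_1_rb80330601_d41_d11x6_1 : GoodKC AS k_wS_32_wQ_26_wN_1_rb80330601_d41_d11x6_1 := p_wS_32_wQ_26_wN_1_rb80330601_d41_d11x6_1

theorem g__wS_32_wQ_26_wN_1_rb80330601_d41_d11x6_3 : GoodKC AS k_wS_32_wQ_26_wN_1_rb80330601_d41_d11x6_3 := p_wS_32_wQ_26_wN_1_rb80330601_d41_d11x6_3

theorem g__wS_32_wQ_26_wN_1_rb80330601_d41_d11x6_2 : GoodKC AS k_wS_32_wQ_26_wN_1_rb80330601_d41_d11x6_2 := p_wS_32_wQ_26_wN_1_rb80330601_d41_d11x6_2 g__wS_32_wQ_26_wN_1_rb80330601_d41_d11x6_3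

theorem g__wS_32_wQ_26_wN_1_rb80330601_d41_d11x6_5 : GoodKC AS k_wS_32_wQ_26_wN_1_rb80330601_d41_d11x6_5 := p_wS_32_wQ_26_wN_1_rb80330601_d41_d11x6_5

theorem g__wS_32_wQ_26_wN_1_rb80330601_d41_d11x6_4 : GoodKC AS k_wS_32_wQ_26_wN_1_rb80330601_d41_d11x6_4 := p_wS_32_wQ_26_wN_1_rb80330601_d41_d11x6_4 g__wS_32_wQ_26_wN_1_rb80330601_d41_d11x6_5

theorem g__wS_32_wQ_26_wN_1_rb80330601_d41_d11x6_0 : GoodKC AS k_wS_32_wQ_26_wN_1_rb80330601_d41_d11x6_0 := p_wS_32_wQ_26_wN_1_rb80330601_d41_d11x6_0 g__wS_32_wQ_26_wN_1_rb80330601_d41_d11x6_1 g__wS_32_wQ_26_wN_1_rb80330601_d41_d11x6_2 g__wS_32_wQ_26_wN_1_rb80330601_d41_d11x6_4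

theorem g_wS_32_wQ_26_wN_1_rb80330601_d41_d11x6 : GoodKC AS c_wS_32_wQ_26_wN_1_rb80330601_d41_d11x6 := p_wS_32_wQ_26_wN_1_rb80330601_d41_d11x6 g__wS_32_wQ_26_wN_1_rb80330601_d41_d11x6_0

theorem g_wS_32_wQ_26_wN_1_rb80330601x17 : GoodKC AS c_wS_32_wQ_26_wN_1_rb80330601x17 := p_wS_32_wQ_26_wN_1_rb80330601x6 g_wS_32_wQ_26_wN_1_rb80330601_d41_d10x6 g_wS_32_wQ_26_wN_1_rb80330601_d41_d0ex6 g_wS_32_wQ_26_wN_1_rb80330601_d41_d0dx6 g_wS_32_wQ_26_wN_1_rb80330601_d41_d0bx6 g__wS_32_wQ_26_wN_1_rb80330601x6_0 g__wS_32_wQ_26_wN_1_rb80330601x6_2 g__wS_32_wQ_26_wN_1_rb80330601x6_4 g_wS_32_wQ_26_wN_1_rb80330601_d41_d0ax6 g_wS_32_wQ_26_wN_1_rb80330601_d41_d0cx6 g_wS_32_wQ_26_wN_1_rb80330601_d41_d0fx6 g_wS_32_wQ_26_wN_1_rb80330601_d41_d11x6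

theorem g__wQ_26_wN_1_rb803306x17_5 : GoodKC AS k_wQ_26_wN_1_rb803306x17_5 := p_wQ_26_wN_1_rb803306x17_5

theorem g__wQ_26_wN_1_rb803306x17_6 : GoodKC AS k_wQ_26_wN_1_rb803306x17_6 := p_wQ_26_wN_1_rb803306x17_6

theorem g__wQ_26_wN_1_rb803306x17_9 : GoodKC AS k_wQ_26_wN_1_rb803306x17_9 := p_wQ_26_wN_1_rb803306x17_9

theorem g__wQ_26_wN_1_rb803306x17_10 : GoodKC AS k_wQ_26_wN_1_rb803306x17_10 := p_wQ_26_wN_1_rb803306x17_10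

theorem g__wQ_26_wN_1_rb803306x17_12 : GoodKC AS k_wQ_26_wN_1_rb803306x17_12 := p_wQ_26_wN_1_rb803306x17_12

theorem g__wQ_26_wN_1_rb803306x17_11 : GoodKC AS k_wQ_26_wN_1_rb803306x17_11 := p_wQ_26_wN_1_rb803306x17_11 g__wQ_26_wN_1_rb803306x17_12

theorem g__wQ_26_wN_1_rb803306x17_8 : GoodKC AS k_wQ_26_wN_1_rb803306x17_8 := p_wQ_26_wN_1_rb803306x17_8 g__wQ_26_wN_1_rb803306x17_9 g__wQ_26_wN_1_rb803306x17_10 g__wQ_26_wN_1_rb803306x17_11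

theorem g__wS_32_wQ_26_wN_1_rb80330600v8_0 : GoodKC AS k_wS_32_wQ_26_wN_1_rb80330600v8_0 := p_wS_32_wQ_26_wN_1_rb80330600v8_0

theorem g__wS_32_wQ_26_wN_1_rb80330600v8_2 : GoodKC AS k_wS_32_wQ_26_wN_1_rb80330600v8_2 := p_wS_32_wQ_26_wN_1_rb80330600v8_2

theorem g__wS_32_wQ_26_wN_1_rb80330600v8_1 : GoodKC AS k_wS_32_wQ_26_wN_1_rb80330600v8_1 := p_wS_32_wQ_26_wN_1_rb80330600v8_1 g__wS_32_wQ_26_wN_1_rb80330600v8_2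

theorem g__wS_32_wQ_26_wN_1_rb80330600v8_5 : GoodKC AS k_wS_32_wQ_26_wN_1_rb80330600v8_5 := p_wS_32_wQ_26_wN_1_rb80330600v8_5

theorem g__wS_32_wQ_26_wN_1_rb80330600v8_6 : GoodKC AS k_wS_32_wQ_26_wN_1_rb80330600v8_6 := p_wS_32_wQ_26_wN_1_rb80330600v8_6

theorem g__wS_32_wQ_26_wN_1_rb80330600v8_4 : GoodKC AS k_wS_32_wQ_26_wN_1_rb80330600v8_4 := p_wS_32_wQ_26_wN_1_rb80330600v8_4 g__wS_32_wQ_26_wN_1_rb80330600v8_5 g__wS_32_wQ_26_wN_1_rb80330600v8_6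

theorem g__wS_32_wQ_26_wN_1_rb80330600v8_7 : GoodKC AS k_wS_32_wQ_26_wN_1_rb80330600v8_7 := p_wS_32_wQ_26_wN_1_rb80330600v8_7

theorem g__wS_32_wQ_26_wN_1_rb80330600v8_11 : GoodKC AS k_wS_32_wQ_26_wN_1_rb80330600v8_11 := p_wS_32_wQ_26_wN_1_rb80330600v8_11

theorem g__wS_32_wQ_26_wN_1_rb80330600v8_10 : GoodKC AS k_wS_32_wQ_26_wN_1_rb80330600v8_10 := p_wS_32_wQ_26_wN_1_rb80330600v8_10 g__wS_32_wQ_26_wN_1_rb80330600v8_11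

theorem g__wS_32_wQ_26_wN_1_rb80330600v8_9 : GoodKC AS k_wS_32_wQ_26_wN_1_rb80330600v8_9 := p_wS_32_wQ_26_wN_1_rb80330600v8_9 g__wS_32_wQ_26_wN_1_rb80330600v8_10

theorem g__wS_32_wQ_26_wN_1_rb80330600v8_8 : GoodKC AS k_wS_32_wQ_26_wN_1_rb80330600v8_8 := p_wS_32_wQ_26_wN_1_rb80330600v8_8 g__wS_32_wQ_26_wN_1_rb80330600v8_9

theorem g__wS_32_wQ_26_wN_1_rb80330600v8_3 : GoodKC AS k_wS_32_wQ_26_wN_1_rb80330600v8_3 := p_wS_32_wQ_26_wN_1_rb80330600v8_3 g__wS_32_wQ_26_wN_1_rb80330600v8_4 g__wS_32_wQ_26_wN_1_rb80330600v8_7 g__wS_32_wQ_26_wN_1_rb80330600v8_8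

theorem g_wS_32_wQ_26_wN_1_rb80330600x17 : GoodKC AS c_wS_32_wQ_26_wN_1_rb80330600x17 := p_wS_32_wQ_26_wN_1_rb80330600x8 g__wS_32_wQ_26_wN_1_rb80330600v8_0 g__wS_32_wQ_26_wN_1_rb80330600v8_1 g__wS_32_wQ_26_wN_1_rb80330600v8_3

theorem g__wQ_26_wN_1_rb803306x17_15 : GoodKC AS k_wQ_26_wN_1_rb803306x17_15 := p_wQ_26_wN_1_rb803306x17_15 g_wS_32_wQ_26_wN_1_rb80330600x17

theorem g__wQ_26_wN_1_rb803306x17_14 : GoodKC AS k_wQ_26_wN_1_rb803306x17_14 := p_wQ_26_wN_1_rb803306x17_14 g__wQ_26_wN_1_rb803306x17_15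

theorem g__wQ_26_wN_1_rb803306x17_13 : GoodKC AS k_wQ_26_wN_1_rb803306x17_13 := p_wQ_26_wN_1_rb803306x17_13 g__wQ_26_wN_1_rb803306x17_14

theorem g__wQ_26_wN_1_rb803306x17_16 : GoodKC AS k_wQ_26_wN_1_rb803306x17_16 := p_wQ_26_wN_1_rb803306x17_16

theorem g__wQ_26_wN_1_rb803306x17_7 : GoodKC AS k_wQ_26_wN_1_rb803306x17_7 := p_wQ_26_wN_1_rb803306x17_7 g__wQ_26_wN_1_rb803306x17_8 g__wQ_26_wN_1_rb803306x17_13 g__wQ_26_wN_1_rb803306x17_16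

theorem g__wQ_26_wN_1_rb803306x17_4 : GoodKC AS k_wQ_26_wN_1_rb803306x17_4 := p_wQ_26_wN_1_rb803306x17_4 g__wQ_26_wN_1_rb803306x17_5 g__wQ_26_wN_1_rb803306x17_6 g__wQ_26_wN_1_rb803306x17_7

theorem g__wQ_26_wN_1_rb803306x17_3 : GoodKC AS k_wQ_26_wN_1_rb803306x17_3 := p_wQ_26_wN_1_rb803306x17_3 g__wQ_26_wN_1_rb803306x17_4

theorem g__wQ_26_wN_1_rb803306x17_19 : GoodKC AS k_wQ_26_wN_1_rb803306x17_19 := p_wQ_26_wN_1_rb803306x17_19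

theorem g__wQ_26_wN_1_rb803306x17_18 : GoodKC AS k_wQ_26_wN_1_rb803306x17_18 := p_wQ_26_wN_1_rb803306x17_18 g__wQ_26_wN_1_rb803306x17_19

theorem g__wQ_26_wN_1_rb803306x17_20 : GoodKC AS k_wQ_26_wN_1_rb803306x17_20 := p_wQ_26_wN_1_rb803306x17_20

theorem g__wQ_26_wN_1_rb803306x17_23 : GoodKC AS k_wQ_26_wN_1_rb803306x17_23 := p_wQ_26_wN_1_rb803306x17_23

theorem g__wQ_26_wN_1_rb803306x17_22 : GoodKC AS k_wQ_26_wN_1_rb803306x17_22 := p_wQ_26_wN_1_rb803306x17_22 g__wQ_26_wN_1_rb803306x17_23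

theorem g__wQ_26_wN_1_rb803306x17_27 : GoodKC AS k_wQ_26_wN_1_rb803306x17_27 := p_wQ_26_wN_1_rb803306x17_27

theorem g__wQ_26_wN_1_rb803306x17_26 : GoodKC AS k_wQ_26_wN_1_rb803306x17_26 := p_wQ_26_wN_1_rb803306x17_26 g__wQ_26_wN_1_rb803306x17_27

theorem g__wQ_26_wN_1_rb803306x17_29 : GoodKC AS k_wQ_26_wN_1_rb803306x17_29 := p_wQ_26_wN_1_rb803306x17_29

theorem g__wQ_26_wN_1_rb803306x17_28 : GoodKC AS k_wQ_26_wN_1_rb803306x17_28 := p_wQ_26_wN_1_rb803306x17_28 g__wQ_26_wN_1_rb803306x17_29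

theorem g__wQ_26_wN_1_rb803306x17_25 : GoodKC AS k_wQ_26_wN_1_rb803306x17_25 := p_wQ_26_wN_1_rb803306x17_25 g__wQ_26_wN_1_rb803306x17_26 g__wQ_26_wN_1_rb803306x17_28

theorem g__wQ_26_wN_1_rb803306x17_24 : GoodKC AS k_wQ_26_wN_1_rb803306x17_24 := p_wQ_26_wN_1_rb803306x17_24 g__wQ_26_wN_1_rb803306x17_25

theorem g__wQ_26_wN_1_rb803306x17_21 : GoodKC AS k_wQ_26_wN_1_rb803306x17_21 := p_wQ_26_wN_1_rb803306x17_21 g__wQ_26_wN_1_rb803306x17_22 g__wQ_26_wN_1_rb803306x17_24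

theorem g__wQ_26_wN_1_rb803306x17_17 : GoodKC AS k_wQ_26_wN_1_rb803306x17_17 := p_wQ_26_wN_1_rb803306x17_17 g__wQ_26_wN_1_rb803306x17_18 g__wQ_26_wN_1_rb803306x17_20 g__wQ_26_wN_1_rb803306x17_21

theorem g__wQ_26_wN_1_rb803306x17_32 : GoodKC AS k_wQ_26_wN_1_rb803306x17_32 := p_wQ_26_wN_1_rb803306x17_32

theorem g__wQ_26_wN_1_rb803306x17_31 : GoodKC AS k_wQ_26_wN_1_rb803306x17_31 := p_wQ_26_wN_1_rb803306x17_31 g__wQ_26_wN_1_rb803306x17_32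

theorem g__wQ_26_wN_1_rb803306x17_30 : GoodKC AS k_wQ_26_wN_1_rb803306x17_30 := p_wQ_26_wN_1_rb803306x17_30 g__wQ_26_wN_1_rb803306x17_31

theorem g__wS_32_wQ_26_wN_1_rb80330602x7_6 : GoodKC AS k_wS_32_wQ_26_wN_1_rb80330602x7_6 := p_wS_32_wQ_26_wN_1_rb80330602x7_6

theorem g__wS_32_wQ_26_wN_1_rb80330602x7_5 : GoodKC AS k_wS_32_wQ_26_wN_1_rb80330602x7_5 := p_wS_32_wQ_26_wN_1_rb80330602x7_5 g__wS_32_wQ_26_wN_1_rb80330602x7_6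

theorem g__wS_32_wQ_26_wN_1_rb80330602x7_8 : GoodKC AS k_wS_32_wQ_26_wN_1_rb80330602x7_8 := p_wS_32_wQ_26_wN_1_rb80330602x7_8

theorem g__wS_32_wQ_26_wN_1_rb80330602x7_11 : GoodKC AS k_wS_32_wQ_26_wN_1_rb80330602x7_11 := p_wS_32_wQ_26_wN_1_rb80330602x7_11

theorem g__wS_32_wQ_26_wN_1_rb80330602x7_10 : GoodKC AS k_wS_32_wQ_26_wN_1_rb80330602x7_10 := p_wS_32_wQ_26_wN_1_rb80330602x7_10 g__wS_32_wQ_26_wN_1_rb80330602x7_11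

theorem g__wS_32_wQ_26_wN_1_rb80330602x7_9 : GoodKC AS k_wS_32_wQ_26_wN_1_rb80330602x7_9 := p_wS_32_wQ_26_wN_1_rb80330602x7_9 g__wS_32_wQ_26_wN_1_rb80330602x7_10

theorem g__wS_32_wQ_26_wN_1_rb80330602x7_14 : GoodKC AS k_wS_32_wQ_26_wN_1_rb80330602x7_14 := p_wS_32_wQ_26_wN_1_rb80330602x7_14

theorem g__wS_32_wQ_26_wN_1_rb80330602x7_13 : GoodKC AS k_wS_32_wQ_26_wN_1_rb80330602x7_13 := p_wS_32_wQ_26_wN_1_rb80330602x7_13 g__wS_32_wQ_26_wN_1_rb80330602x7_14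

theorem g__wS_32_wQ_26_wN_1_rb80330602x7_12 : GoodKC AS k_wS_32_wQ_26_wN_1_rb80330602x7_12 := p_wS_32_wQ_26_wN_1_rb80330602x7_12 g__wS_32_wQ_26_wN_1_rb80330602x7_13

theorem g__wS_32_wQ_26_wN_1_rb80330602x7_7 : GoodKC AS k_wS_32_wQ_26_wN_1_rb80330602x7_7 := p_wS_32_wQ_26_wN_1_rb80330602x7_7 g__wS_32_wQ_26_wN_1_rb80330602x7_8 g__wS_32_wQ_26_wN_1_rb80330602x7_9 g__wS_32_wQ_26_wN_1_rb80330602x7_12

theorem g__wS_32_wQ_26_wN_1_rb80330602x7_4 : GoodKC AS k_wS_32_wQ_26_wN_1_rb80330602x7_4 := p_wS_32_wQ_26_wN_1_rb80330602x7_4 g__wS_32_wQ_26_wN_1_rb80330602x7_5 g__wS_32_wQ_26_wN_1_rb80330602x7_7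

theorem g__wS_32_wQ_26_wN_1_rb80330602x7_3 : GoodKC AS k_wS_32_wQ_26_wN_1_rb80330602x7_3 := p_wS_32_wQ_26_wN_1_rb80330602x7_3 g__wS_32_wQ_26_wN_1_rb80330602x7_4

theorem g__wS_32_wQ_26_wN_1_rb80330602x7_16 : GoodKC AS k_wS_32_wQ_26_wN_1_rb80330602x7_16 := p_wS_32_wQ_26_wN_1_rb80330602x7_16

theorem g__wS_32_wQ_26_wN_1_rb80330602x7_22 : GoodKC AS k_wS_32_wQ_26_wN_1_rb80330602x7_22 := p_wS_32_wQ_26_wN_1_rb80330602x7_22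

theorem g__wS_32_wQ_26_wN_1_rb80330602x7_27 : GoodKC AS k_wS_32_wQ_26_wN_1_rb80330602x7_27 := p_wS_32_wQ_26_wN_1_rb80330602x7_27

theorem g__wS_32_wQ_26_wN_1_rb80330602x7_30 : GoodKC AS k_wS_32_wQ_26_wN_1_rb80330602x7_30 := p_wS_32_wQ_26_wN_1_rb80330602x7_30

theorem g__wS_32_wQ_26_wN_1_rb80330602x7_29 : GoodKC AS k_wS_32_wQ_26_wN_1_rb80330602x7_29 := p_wS_32_wQ_26_wN_1_rb80330602x7_29 g__wS_32_wQ_26_wN_1_rb80330602x7_30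

theorem g__wS_32_wQ_26_wN_1_rb80330602x7_28 : GoodKC AS k_wS_32_wQ_26_wN_1_rb80330602x7_28 := p_wS_32_wQ_26_wN_1_rb80330602x7_28 g__wS_32_wQ_26_wN_1_rb80330602x7_29

theorem g__wS_32_wQ_26_wN_1_rb80330602x7_26 : GoodKC AS k_wS_32_wQ_26_wN_1_rb80330602x7_26 := p_wS_32_wQ_26_wN_1_rb80330602x7_26 g__wS_32_wQ_26_wN_1_rb80330602x7_27 g__wS_32_wQ_26_wN_1_rb80330602x7_28

theorem g__wS_32_wQ_26_wN_1_rb80330602x7_25 : GoodKC AS k_wS_32_wQ_26_wN_1_rb80330602x7_25 := p_wS_32_wQ_26_wN_1_rb80330602x7_25 g__wS_32_wQ_26_wN_1_rb80330602x7_26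

theorem g__wS_32_wQ_26_wN_1_rb80330602x7_24 : GoodKC AS k_wS_32_wQ_26_wN_1_rb80330602x7_24 := p_wS_32_wQ_26_wN_1_rb80330602x7_24 g__wS_32_wQ_26_wN_1_rb80330602x7_25

theorem g__wS_32_wQ_26_wN_1_rb80330602x7_32 : GoodKC AS k_wS_32_wQ_26_wN_1_rb80330602x7_32 := p_wS_32_wQ_26_wN_1_rb80330602x7_32

theorem g__wS_32_wQ_26_wN_1_rb80330602x7_31 : GoodKC AS k_wS_32_wQ_26_wN_1_rb80330602x7_31 := p_wS_32_wQ_26_wN_1_rb80330602x7_31 g__wS_32_wQ_26_wN_1_rb80330602x7_32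

theorem g__wS_32_wQ_26_wN_1_rb80330602x7_23 : GoodKC AS k_wS_32_wQ_26_wN_1_rb80330602x7_23 := p_wS_32_wQ_26_wN_1_rb80330602x7_23 g__wS_32_wQ_26_wN_1_rb80330602x7_24 g__wS_32_wQ_26_wN_1_rb80330602x7_31

theorem g__wS_32_wQ_26_wN_1_rb80330602x7_21 : GoodKC AS k_wS_32_wQ_26_wN_1_rb80330602x7_21 := p_wS_32_wQ_26_wN_1_rb80330602x7_21 g__wS_32_wQ_26_wN_1_rb80330602x7_22 g__wS_32_wQ_26_wN_1_rb80330602x7_23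

theorem g__wS_32_wQ_26_wN_1_rb80330602x7_20 : GoodKC AS k_wS_32_wQ_26_wN_1_rb80330602x7_20 := p_wS_32_wQ_26_wN_1_rb80330602x7_20 g__wS_32_wQ_26_wN_1_rb80330602x7_21

theorem g__wS_32_wQ_26_wN_1_rb80330602x7_19 : GoodKC AS k_wS_32_wQ_26_wN_1_rb80330602x7_19 := p_wS_32_wQ_26_wN_1_rb80330602x7_19 g__wS_32_wQ_26_wN_1_rb80330602x7_20

theorem g__wS_32_wQ_26_wN_1_rb80330602x7_34 : GoodKC AS k_wS_32_wQ_26_wN_1_rb80330602x7_34 := p_wS_32_wQ_26_wN_1_rb80330602x7_34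

theorem g__wS_32_wQ_26_wN_1_rb80330602x7_33 : GoodKC AS k_wS_32_wQ_26_wN_1_rb80330602x7_33 := p_wS_32_wQ_26_wN_1_rb80330602x7_33 g__wS_32_wQ_26_wN_1_rb80330602x7_34

theorem g__wS_32_wQ_26_wN_1_rb80330602x7_18 : GoodKC AS k_wS_32_wQ_26_wN_1_rb80330602x7_18 := p_wS_32_wQ_26_wN_1_rb80330602x7_18 g__wS_32_wQ_26_wN_1_rb80330602x7_19 g__wS_32_wQ_26_wN_1_rb80330602x7_33

theorem g__wS_32_wQ_26_wN_1_rb80330602x7_17 : GoodKC AS k_wS_32_wQ_26_wN_1_rb80330602x7_17 := p_wS_32_wQ_26_wN_1_rb80330602x7_17 g__wS_32_wQ_26_wN_1_rb80330602x7_18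

theorem g__wS_32_wQ_26_wN_1_rb80330602x7_15 : GoodKC AS k_wS_32_wQ_26_wN_1_rb80330602x7_15 := p_wS_32_wQ_26_wN_1_rb80330602x7_15 g__wS_32_wQ_26_wN_1_rb80330602x7_16 g__wS_32_wQ_26_wN_1_rb80330602x7_17

theorem g__wS_32_wQ_26_wN_1_rb80330602x7_2 : GoodKC AS k_wS_32_wQ_26_wN_1_rb80330602x7_2 := p_wS_32_wQ_26_wN_1_rb80330602x7_2 g__wS_32_wQ_26_wN_1_rb80330602x7_3 g__wS_32_wQ_26_wN_1_rb80330602x7_15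

theorem g__wS_32_wQ_26_wN_1_rb80330602x7_35 : GoodKC AS k_wS_32_wQ_26_wN_1_rb80330602x7_35 := p_wS_32_wQ_26_wN_1_rb80330602x7_35

theorem g__wS_32_wQ_26_wN_1_rb80330602x7_1 : GoodKC AS k_wS_32_wQ_26_wN_1_rb80330602x7_1 := p_wS_32_wQ_26_wN_1_rb80330602x7_1 g__wS_32_wQ_26_wN_1_rb80330602x7_2 g__wS_32_wQ_26_wN_1_rb80330602x7_35

theorem g__wS_32_wQ_26_wN_1_rb80330602x7_0 : GoodKC AS k_wS_32_wQ_26_wN_1_rb80330602x7_0 := p_wS_32_wQ_26_wN_1_rb80330602x7_0 g__wS_32_wQ_26_wN_1_rb80330602x7_1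

theorem g__wS_32_wQ_26_wN_1_rb80330602x7_37 : GoodKC AS k_wS_32_wQ_26_wN_1_rb80330602x7_37 := p_wS_32_wQ_26_wN_1_rb80330602x7_37

theorem g__wS_32_wQ_26_wN_1_rb80330602x7_36 : GoodKC AS k_wS_32_wQ_26_wN_1_rb80330602x7_36 := p_wS_32_wQ_26_wN_1_rb80330602x7_36 g__wS_32_wQ_26_wN_1_rb80330602x7_37

theorem g_wS_32_wQ_26_wN_1_rb80330602x17 : GoodKC AS c_wS_32_wQ_26_wN_1_rb80330602x17 := p_wS_32_wQ_26_wN_1_rb80330602x7 g__wS_32_wQ_26_wN_1_rb80330602x7_0 g__wS_32_wQ_26_wN_1_rb80330602x7_36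

theorem g__wS_32_wQ_26_wN_1_rb80330604x7_0 : GoodKC AS k_wS_32_wQ_26_wN_1_rb80330604x7_0 := p_wS_32_wQ_26_wN_1_rb80330604x7_0

theorem g__wS_32_wQ_26_wN_1_rb80330604x7_1 : GoodKC AS k_wS_32_wQ_26_wN_1_rb80330604x7_1 := p_wS_32_wQ_26_wN_1_rb80330604x7_1

theorem g_wS_32_wQ_26_wN_1_rb80330604x17 : GoodKC AS c_wS_32_wQ_26_wN_1_rb80330604x17 := p_wS_32_wQ_26_wN_1_rb80330604x7 g__wS_32_wQ_26_wN_1_rb80330604x7_0 g__wS_32_wQ_26_wN_1_rb80330604x7_1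

theorem g__wS_32_wQ_26_wN_1_rb80330605x7_0 : GoodKC AS k_wS_32_wQ_26_wN_1_rb80330605x7_0 := p_wS_32_wQ_26_wN_1_rb80330605x7_0

theorem g_wS_32_wQ_26_wN_1_rb80330605x17 : GoodKC AS c_wS_32_wQ_26_wN_1_rb80330605x17 := p_wS_32_wQ_26_wN_1_rb80330605x7 g__wS_32_wQ_26_wN_1_rb80330605x7_0

theorem g__wQ_26_wN_1_rb803306x17_33 : GoodKC AS k_wQ_26_wN_1_rb803306x17_33 := p_wQ_26_wN_1_rb803306x17_33

theorem g__wQ_26_wN_1_rb803306x17_34 : GoodKC AS k_wQ_26_wN_1_rb803306x17_34 := p_wQ_26_wN_1_rb803306x17_34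

theorem g__wS_32_wQ_26_wN_1_rb8033060601x7_0 : GoodKC AS k_wS_32_wQ_26_wN_1_rb8033060601x7_0 := p_wS_32_wQ_26_wN_1_rb8033060601x7_0

theorem g_wS_32_wQ_26_wN_1_rb8033060601x7 : GoodKC AS c_wS_32_wQ_26_wN_1_rb8033060601x7 := p_wS_32_wQ_26_wN_1_rb8033060601x7 g__wS_32_wQ_26_wN_1_rb8033060601x7_0

theorem g__wS_32_wQ_26_wN_1_rb80330606x7_3 : GoodKC AS k_wS_32_wQ_26_wN_1_rb80330606x7_3 := p_wS_32_wQ_26_wN_1_rb80330606x7_3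

theorem g__wS_32_wQ_26_wN_1_rb80330606x7_4 : GoodKC AS k_wS_32_wQ_26_wN_1_rb80330606x7_4 := p_wS_32_wQ_26_wN_1_rb80330606x7_4

theorem g__wS_32_wQ_26_wN_1_rb80330606x7_5 : GoodKC AS k_wS_32_wQ_26_wN_1_rb80330606x7_5 := p_wS_32_wQ_26_wN_1_rb80330606x7_5

theorem g__wS_32_wQ_26_wN_1_rb80330606x7_7 : GoodKC AS k_wS_32_wQ_26_wN_1_rb80330606x7_7 := p_wS_32_wQ_26_wN_1_rb80330606x7_7

theorem g__wS_32_wQ_26_wN_1_rb80330606x7_11 : GoodKC AS k_wS_32_wQ_26_wN_1_rb80330606x7_11 := p_wS_32_wQ_26_wN_1_rb80330606x7_11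

theorem g__wS_32_wQ_26_wN_1_rb80330606x7_10 : GoodKC AS k_wS_32_wQ_26_wN_1_rb80330606x7_10 := p_wS_32_wQ_26_wN_1_rb80330606x7_10 g__wS_32_wQ_26_wN_1_rb80330606x7_11

theorem g__wS_32_wQ_26_wN_1_rb80330606x7_9 : GoodKC AS k_wS_32_wQ_26_wN_1_rb80330606x7_9 := p_wS_32_wQ_26_wN_1_rb80330606x7_9 g__wS_32_wQ_26_wN_1_rb80330606x7_10

theorem g__wS_32_wQ_26_wN_1_rb80330606x7_13 : GoodKC AS k_wS_32_wQ_26_wN_1_rb80330606x7_13 := p_wS_32_wQ_26_wN_1_rb80330606x7_13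

theorem g__wS_32_wQ_26_wN_1_rb80330606x7_15 : GoodKC AS k_wS_32_wQ_26_wN_1_rb80330606x7_15 := p_wS_32_wQ_26_wN_1_rb80330606x7_15

theorem g__wS_32_wQ_26_wN_1_rb80330606x7_14 : GoodKC AS k_wS_32_wQ_26_wN_1_rb80330606x7_14 := p_wS_32_wQ_26_wN_1_rb80330606x7_14 g__wS_32_wQ_26_wN_1_rb80330606x7_15

theorem g__wS_32_wQ_26_wN_1_rb80330606x7_12 : GoodKC AS k_wS_32_wQ_26_wN_1_rb80330606x7_12 := p_wS_32_wQ_26_wN_1_rb80330606x7_12 g__wS_32_wQ_26_wN_1_rb80330606x7_13 g__wS_32_wQ_26_wN_1_rb80330606x7_14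

theorem g__wS_32_wQ_26_wN_1_rb80330606x7_16 : GoodKC AS k_wS_32_wQ_26_wN_1_rb80330606x7_16 := p_wS_32_wQ_26_wN_1_rb80330606x7_16

theorem g__wS_32_wQ_26_wN_1_rb80330606x7_8 : GoodKC AS k_wS_32_wQ_26_wN_1_rb80330606x7_8 := p_wS_32_wQ_26_wN_1_rb80330606x7_8 g__wS_32_wQ_26_wN_1_rb80330606x7_9 g__wS_32_wQ_26_wN_1_rb80330606x7_12 g__wS_32_wQ_26_wN_1_rb80330606x7_16

theorem g__wS_32_wQ_26_wN_1_rb80330606x7_6 : GoodKC AS k_wS_32_wQ_26_wN_1_rb80330606x7_6 := p_wS_32_wQ_26_wN_1_rb80330606x7_6 g__wS_32_wQ_26_wN_1_rb80330606x7_7 g__wS_32_wQ_26_wN_1_rb80330606x7_8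

theorem g__wS_32_wQ_26_wN_1_rb80330606x7_18 : GoodKC AS k_wS_32_wQ_26_wN_1_rb80330606x7_18 := p_wS_32_wQ_26_wN_1_rb80330606x7_18

theorem g__wS_32_wQ_26_wN_1_rb80330606x7_17 : GoodKC AS k_wS_32_wQ_26_wN_1_rb80330606x7_17 := p_wS_32_wQ_26_wN_1_rb80330606x7_17 g__wS_32_wQ_26_wN_1_rb80330606x7_18

theorem g__wS_32_wQ_26_wN_1_rb80330606x7_2 : GoodKC AS k_wS_32_wQ_26_wN_1_rb80330606x7_2 := p_wS_32_wQ_26_wN_1_rb80330606x7_2 g__wS_32_wQ_26_wN_1_rb80330606x7_3 g__wS_32_wQ_26_wN_1_rb80330606x7_4 g__wS_32_wQ_26_wN_1_rb80330606x7_5 g__wS_32_wQ_26_wN_1_rb80330606x7_6 g__wS_32_wQ_26_wN_1_rb80330606x7_17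

theorem g__wS_32_wQ_26_wN_1_rb80330606x7_19 : GoodKC AS k_wS_32_wQ_26_wN_1_rb80330606x7_19 := p_wS_32_wQ_26_wN_1_rb80330606x7_19

theorem g__wS_32_wQ_26_wN_1_rb80330606x7_1 : GoodKC AS k_wS_32_wQ_26_wN_1_rb80330606x7_1 := p_wS_32_wQ_26_wN_1_rb80330606x7_1 g__wS_32_wQ_26_wN_1_rb80330606x7_2 g__wS_32_wQ_26_wN_1_rb80330606x7_19

theorem g__wS_32_wQ_26_wN_1_rb8033060600v7_1 : GoodKC AS k_wS_32_wQ_26_wN_1_rb8033060600v7_1 := p_wS_32_wQ_26_wN_1_rb8033060600v7_1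

theorem g__wS_32_wQ_26_wN_1_rb8033060600v7_0 : GoodKC AS k_wS_32_wQ_26_wN_1_rb8033060600v7_0 := p_wS_32_wQ_26_wN_1_rb8033060600v7_0 g__wS_32_wQ_26_wN_1_rb8033060600v7_1

theorem g_wS_32_wQ_26_wN_1_rb8033060600x7 : GoodKC AS c_wS_32_wQ_26_wN_1_rb8033060600x7 := p_wS_32_wQ_26_wN_1_rb8033060600x7 g__wS_32_wQ_26_wN_1_rb8033060600v7_0

theorem g__wS_32_wQ_26_wN_1_rb80330606x7_0 : GoodKC AS k_wS_32_wQ_26_wN_1_rb80330606x7_0 := p_wS_32_wQ_26_wN_1_rb80330606x7_0 g__wS_32_wQ_26_wN_1_rb80330606x7_1 g_wS_32_wQ_26_wN_1_rb8033060600x7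

theorem g_wS_32_wQ_26_wN_1_rb80330606x17 : GoodKC AS c_wS_32_wQ_26_wN_1_rb80330606x17 := p_wS_32_wQ_26_wN_1_rb80330606x7 g_wS_32_wQ_26_wN_1_rb8033060601x7 g__wS_32_wQ_26_wN_1_rb80330606x7_0

theorem g__wQ_26_wN_1_rb803306x17_2 : GoodKC AS k_wQ_26_wN_1_rb803306x17_2 := p_wQ_26_wN_1_rb803306x17_2 g_wS_32_wQ_26_wN_1_rb80330603x17 g_wS_32_wQ_26_wN_1_rb80330601x17 g__wQ_26_wN_1_rb803306x17_3 g__wQ_26_wN_1_rb803306x17_17 g__wQ_26_wN_1_rb803306x17_30 g_wS_32_wQ_26_wN_1_rb80330602x17 g_wS_32_wQ_26_wN_1_rb80330604x17 g_wS_32_wQ_26_wN_1_rb80330605x17 g__wQ_26_wN_1_rb803306x17_33 g__wQ_26_wN_1_rb803306x17_34 g_wS_32_wQ_26_wN_1_rb80330606x17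

theorem g__wQ_26_wN_1_rb803306x17_36 : GoodKC AS k_wQ_26_wN_1_rb803306x17_36 := p_wQ_26_wN_1_rb803306x17_36

theorem g__wQ_26_wN_1_rb803306x17_35 : GoodKC AS k_wQ_26_wN_1_rb803306x17_35 := p_wQ_26_wN_1_rb803306x17_35 g__wQ_26_wN_1_rb803306x17_36

theorem g__wS_32_wQ_26_wN_1_rb80330607x6_5 : GoodKC AS k_wS_32_wQ_26_wN_1_rb80330607x6_5 := p_wS_32_wQ_26_wN_1_rb80330607x6_5

theorem g__wS_32_wQ_26_wN_1_rb80330607x6_6 : GoodKC AS k_wS_32_wQ_26_wN_1_rb80330607x6_6 := p_wS_32_wQ_26_wN_1_rb80330607x6_6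

theorem g__wS_32_wQ_26_wN_1_rb80330607x6_4 : GoodKC AS k_wS_32_wQ_26_wN_1_rb80330607x6_4 := p_wS_32_wQ_26_wN_1_rb80330607x6_4 g__wS_32_wQ_26_wN_1_rb80330607x6_5 g__wS_32_wQ_26_wN_1_rb80330607x6_6

theorem g__wS_32_wQ_26_wN_1_rb80330607x6_3 : GoodKC AS k_wS_32_wQ_26_wN_1_rb80330607x6_3 := p_wS_32_wQ_26_wN_1_rb80330607x6_3 g__wS_32_wQ_26_wN_1_rb80330607x6_4

theorem g__wS_32_wQ_26_wN_1_rb80330607x6_8 : GoodKC AS k_wS_32_wQ_26_wN_1_rb80330607x6_8 := p_wS_32_wQ_26_wN_1_rb80330607x6_8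

theorem g__wS_32_wQ_26_wN_1_rb80330607x6_7 : GoodKC AS k_wS_32_wQ_26_wN_1_rb80330607x6_7 := p_wS_32_wQ_26_wN_1_rb80330607x6_7 g__wS_32_wQ_26_wN_1_rb80330607x6_8

theorem g__wS_32_wQ_26_wN_1_rb80330607x6_2 : GoodKC AS k_wS_32_wQ_26_wN_1_rb80330607x6_2 := p_wS_32_wQ_26_wN_1_rb80330607x6_2 g__wS_32_wQ_26_wN_1_rb80330607x6_3 g__wS_32_wQ_26_wN_1_rb80330607x6_7

theorem g__wS_32_wQ_26_wN_1_rb80330607x6_9 : GoodKC AS k_wS_32_wQ_26_wN_1_rb80330607x6_9 := p_wS_32_wQ_26_wN_1_rb80330607x6_9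

theorem g__wS_32_wQ_26_wN_1_rb80330607x6_1 : GoodKC AS k_wS_32_wQ_26_wN_1_rb80330607x6_1 := p_wS_32_wQ_26_wN_1_rb80330607x6_1 g__wS_32_wQ_26_wN_1_rb80330607x6_2 g__wS_32_wQ_26_wN_1_rb80330607x6_9

theorem g__wS_32_wQ_26_wN_1_rb80330607x6_10 : GoodKC AS k_wS_32_wQ_26_wN_1_rb80330607x6_10 := p_wS_32_wQ_26_wN_1_rb80330607x6_10

theorem g__wS_32_wQ_26_wN_1_rb80330607x6_15 : GoodKC AS k_wS_32_wQ_26_wN_1_rb80330607x6_15 := p_wS_32_wQ_26_wN_1_rb80330607x6_15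

theorem g__wS_32_wQ_26_wN_1_rb80330607x6_18 : GoodKC AS k_wS_32_wQ_26_wN_1_rb80330607x6_18 := p_wS_32_wQ_26_wN_1_rb80330607x6_18

theorem g__wS_32_wQ_26_wN_1_rb80330607x6_17 : GoodKC AS k_wS_32_wQ_26_wN_1_rb80330607x6_17 := p_wS_32_wQ_26_wN_1_rb80330607x6_17 g__wS_32_wQ_26_wN_1_rb80330607x6_18

theorem g__wS_32_wQ_26_wN_1_rb80330607x6_16 : GoodKC AS k_wS_32_wQ_26_wN_1_rb80330607x6_16 := p_wS_32_wQ_26_wN_1_rb80330607x6_16 g__wS_32_wQ_26_wN_1_rb80330607x6_17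

theorem g__wS_32_wQ_26_wN_1_rb80330607x6_19 : GoodKC AS k_wS_32_wQ_26_wN_1_rb80330607x6_19 := p_wS_32_wQ_26_wN_1_rb80330607x6_19

theorem g__wS_32_wQ_26_wN_1_rb80330607x6_14 : GoodKC AS k_wS_32_wQ_26_wN_1_rb80330607x6_14 := p_wS_32_wQ_26_wN_1_rb80330607x6_14 g__wS_32_wQ_26_wN_1_rb80330607x6_15 g__wS_32_wQ_26_wN_1_rb80330607x6_16 g__wS_32_wQ_26_wN_1_rb80330607x6_19

theorem g__wS_32_wQ_26_wN_1_rb80330607x6_13 : GoodKC AS k_wS_32_wQ_26_wN_1_rb80330607x6_13 := p_wS_32_wQ_26_wN_1_rb80330607x6_13 g__wS_32_wQ_26_wN_1_rb80330607x6_14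

theorem g__wS_32_wQ_26_wN_1_rb80330607x6_12 : GoodKC AS k_wS_32_wQ_26_wN_1_rb80330607x6_12 := p_wS_32_wQ_26_wN_1_rb80330607x6_12 g__wS_32_wQ_26_wN_1_rb80330607x6_13

theorem g__wS_32_wQ_26_wN_1_rb80330607x6_11 : GoodKC AS k_wS_32_wQ_26_wN_1_rb80330607x6_11 := p_wS_32_wQ_26_wN_1_rb80330607x6_11 g__wS_32_wQ_26_wN_1_rb80330607x6_12

theorem g__wS_32_wQ_26_wN_1_rb80330607x6_0 : GoodKC AS k_wS_32_wQ_26_wN_1_rb80330607x6_0 := p_wS_32_wQ_26_wN_1_rb80330607x6_0 g__wS_32_wQ_26_wN_1_rb80330607x6_1 g__wS_32_wQ_26_wN_1_rb80330607x6_10 g__wS_32_wQ_26_wN_1_rb80330607x6_11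

theorem g_wS_32_wQ_26_wN_1_rb80330607x17 : GoodKC AS c_wS_32_wQ_26_wN_1_rb80330607x17 := p_wS_32_wQ_26_wN_1_rb80330607x6 g__wS_32_wQ_26_wN_1_rb80330607x6_0

theorem g__wQ_26_wN_1_rb803306x17_39 : GoodKC AS k_wQ_26_wN_1_rb803306x17_39 := p_wQ_26_wN_1_rb803306x17_39

theorem g__wQ_26_wN_1_rb803306x17_38 : GoodKC AS k_wQ_26_wN_1_rb803306x17_38 := p_wQ_26_wN_1_rb803306x17_38 g__wQ_26_wN_1_rb803306x17_39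

theorem g__wQ_26_wN_1_rb803306x17_37 : GoodKC AS k_wQ_26_wN_1_rb803306x17_37 := p_wQ_26_wN_1_rb803306x17_37 g__wQ_26_wN_1_rb803306x17_38

theorem g__wQ_26_wN_1_rb803306x17_40 : GoodKC AS k_wQ_26_wN_1_rb803306x17_40 := p_wQ_26_wN_1_rb803306x17_40

theorem g__wQ_26_wN_1_rb803306x17_1 : GoodKC AS k_wQ_26_wN_1_rb803306x17_1 := p_wQ_26_wN_1_rb803306x17_1 g__wQ_26_wN_1_rb803306x17_2 g__wQ_26_wN_1_rb803306x17_35 g_wS_32_wQ_26_wN_1_rb80330607x17 g__wQ_26_wN_1_rb803306x17_37 g__wQ_26_wN_1_rb803306x17_40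

theorem g__wQ_26_wN_1_rb803306x17_44 : GoodKC AS k_wQ_26_wN_1_rb803306x17_44 := p_wQ_26_wN_1_rb803306x17_44

theorem g__wQ_26_wN_1_rb803306x17_43 : GoodKC AS k_wQ_26_wN_1_rb803306x17_43 := p_wQ_26_wN_1_rb803306x17_43 g__wQ_26_wN_1_rb803306x17_44

theorem g__wQ_26_wN_1_rb803306x17_42 : GoodKC AS k_wQ_26_wN_1_rb803306x17_42 := p_wQ_26_wN_1_rb803306x17_42 g__wQ_26_wN_1_rb803306x17_43

theorem g__wQ_26_wN_1_rb803306x17_41 : GoodKC AS k_wQ_26_wN_1_rb803306x17_41 := p_wQ_26_wN_1_rb803306x17_41 g__wQ_26_wN_1_rb803306x17_42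

theorem g__wS_32_wQ_26_wN_1_rb80330609x8_1 : GoodKC AS k_wS_32_wQ_26_wN_1_rb80330609x8_1 := p_wS_32_wQ_26_wN_1_rb80330609x8_1

theorem g__wS_32_wQ_26_wN_1_rb80330609x8_0 : GoodKC AS k_wS_32_wQ_26_wN_1_rb80330609x8_0 := p_wS_32_wQ_26_wN_1_rb80330609x8_0 g__wS_32_wQ_26_wN_1_rb80330609x8_1

theorem g_wS_32_wQ_26_wN_1_rb80330609x17 : GoodKC AS c_wS_32_wQ_26_wN_1_rb80330609x17 := p_wS_32_wQ_26_wN_1_rb80330609x8 g__wS_32_wQ_26_wN_1_rb80330609x8_0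

theorem g__wQ_26_wN_1_rb803306x17_0 : GoodKC AS k_wQ_26_wN_1_rb803306x17_0 := p_wQ_26_wN_1_rb803306x17_0 g_wS_32_wQ_26_wN_1_rb8033060ax17 g_wS_32_wQ_26_wN_1_rb80330608x17 g__wQ_26_wN_1_rb803306x17_1 g__wQ_26_wN_1_rb803306x17_41 g_wS_32_wQ_26_wN_1_rb80330609x17

theorem g__wS_32_wQ_26_wN_1_rb8033060bx8_0 : GoodKC AS k_wS_32_wQ_26_wN_1_rb8033060bx8_0 := p_wS_32_wQ_26_wN_1_rb8033060bx8_0

theorem g__wS_32_wQ_26_wN_1_rb8033060bx8_2 : GoodKC AS k_wS_32_wQ_26_wN_1_rb8033060bx8_2 := p_wS_32_wQ_26_wN_1_rb8033060bx8_2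

theorem g__wS_32_wQ_26_wN_1_rb8033060bx8_1 : GoodKC AS k_wS_32_wQ_26_wN_1_rb8033060bx8_1 := p_wS_32_wQ_26_wN_1_rb8033060bx8_1 g__wS_32_wQ_26_wN_1_rb8033060bx8_2

theorem g_wS_32_wQ_26_wN_1_rb8033060bx17 : GoodKC AS c_wS_32_wQ_26_wN_1_rb8033060bx17 := p_wS_32_wQ_26_wN_1_rb8033060bx8 g__wS_32_wQ_26_wN_1_rb8033060bx8_0 g__wS_32_wQ_26_wN_1_rb8033060bx8_1

theorem g__wS_32_wQ_26_wN_1_rb8033060cx8_0 : GoodKC AS k_wS_32_wQ_26_wN_1_rb8033060cx8_0 := p_wS_32_wQ_26_wN_1_rb8033060cx8_0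

theorem g_wS_32_wQ_26_wN_1_rb8033060cx17 : GoodKC AS c_wS_32_wQ_26_wN_1_rb8033060cx17 := p_wS_32_wQ_26_wN_1_rb8033060cx8 g__wS_32_wQ_26_wN_1_rb8033060cx8_0

theorem g_wS_32_wQ_26_wN_1_rb8033060dx17 : GoodKC AS c_wS_32_wQ_26_wN_1_rb8033060dx17 := p_wS_32_wQ_26_wN_1_rb8033060dx7

theorem g_wS_32_wQ_26_wN_1_rb8033060ex17 : GoodKC AS c_wS_32_wQ_26_wN_1_rb8033060ex17 := p_wS_32_wQ_26_wN_1_rb8033060ex7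

theorem g_wS_32_wQ_26_wN_1_rb80330610x17 : GoodKC AS c_wS_32_wQ_26_wN_1_rb80330610x17 := p_wS_32_wQ_26_wN_1_rb80330610x7

theorem g_wS_32_wQ_26_wN_1_rb80330611x17 : GoodKC AS c_wS_32_wQ_26_wN_1_rb80330611x17 := p_wS_32_wQ_26_wN_1_rb80330611x8

theorem g__wS_32_wQ_26_wN_1_rb80330612x7_1 : GoodKC AS k_wS_32_wQ_26_wN_1_rb80330612x7_1 := p_wS_32_wQ_26_wN_1_rb80330612x7_1

theorem g__wS_32_wQ_26_wN_1_rb80330612x7_2 : GoodKC AS k_wS_32_wQ_26_wN_1_rb80330612x7_2 := p_wS_32_wQ_26_wN_1_rb80330612x7_2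

theorem g__wS_32_wQ_26_wN_1_rb80330612x7_0 : GoodKC AS k_wS_32_wQ_26_wN_1_rb80330612x7_0 := p_wS_32_wQ_26_wN_1_rb80330612x7_0 g__wS_32_wQ_26_wN_1_rb80330612x7_1 g__wS_32_wQ_26_wN_1_rb80330612x7_2

theorem g_wS_32_wQ_26_wN_1_rb80330612x17 : GoodKC AS c_wS_32_wQ_26_wN_1_rb80330612x17 := p_wS_32_wQ_26_wN_1_rb80330612x7 g__wS_32_wQ_26_wN_1_rb80330612x7_0

theorem g_wS_32_wQ_26_wN_1_rb80330613x17 : GoodKC AS c_wS_32_wQ_26_wN_1_rb80330613x17 := p_wS_32_wQ_26_wN_1_rb80330613x7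

theorem g_wS_32_wQ_26_wN_1_rb80330614x17 : GoodKC AS c_wS_32_wQ_26_wN_1_rb80330614x17 := p_wS_32_wQ_26_wN_1_rb80330614x7

theorem g_wS_32_wQ_26_wN_1_rb80330616x17 : GoodKC AS c_wS_32_wQ_26_wN_1_rb80330616x17 := p_wS_32_wQ_26_wN_1_rb80330616x7

theorem g_wS_32_wQ_26_wN_1_rb80330617x17 : GoodKC AS c_wS_32_wQ_26_wN_1_rb80330617x17 := p_wS_32_wQ_26_wN_1_rb80330617x7

theorem g_wS_32_wQ_26_wN_1_rb80330618x17 : GoodKC AS c_wS_32_wQ_26_wN_1_rb80330618x17 := p_wS_32_wQ_26_wN_1_rb80330618x7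

theorem g_wS_32_wQ_26_wN_1_rb8033061bx17 : GoodKC AS c_wS_32_wQ_26_wN_1_rb8033061bx17 := p_wS_32_wQ_26_wN_1_rb8033061bx7

theorem g__wS_32_wQ_26_wN_1_rb8033061c_d41_d17x6_2 : GoodKC AS k_wS_32_wQ_26_wN_1_rb8033061c_d41_d17x6_2 := p_wS_32_wQ_26_wN_1_rb8033061c_d41_d17x6_2

theorem g__wS_32_wQ_26_wN_1_rb8033061c_d41_d17x6_1 : GoodKC AS k_wS_32_wQ_26_wN_1_rb8033061c_d41_d17x6_1 := p_wS_32_wQ_26_wN_1_rb8033061c_d41_d17x6_1 g__wS_32_wQ_26_wN_1_rb8033061c_d41_d17x6_2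

theorem g__wS_32_wQ_26_wN_1_rb8033061c_d41_d17x6_3 : GoodKC AS k_wS_32_wQ_26_wN_1_rb8033061c_d41_d17x6_3 := p_wS_32_wQ_26_wN_1_rb8033061c_d41_d17x6_3

theorem g__wS_32_wQ_26_wN_1_rb8033061c_d41_d17x6_0 : GoodKC AS k_wS_32_wQ_26_wN_1_rb8033061c_d41_d17x6_0 := p_wS_32_wQ_26_wN_1_rb8033061c_d41_d17x6_0 g__wS_32_wQ_26_wN_1_rb8033061c_d41_d17x6_1 g__wS_32_wQ_26_wN_1_rb8033061c_d41_d17x6_3

theorem g__wS_32_wQ_26_wN_1_rb8033061c_d41_d17x6_4 : GoodKC AS k_wS_32_wQ_26_wN_1_rb8033061c_d41_d17x6_4 := p_wS_32_wQ_26_wN_1_rb8033061c_d41_d17x6_4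

theorem g_wS_32_wQ_26_wN_1_rb8033061c_d41_d17x6 : GoodKC AS c_wS_32_wQ_26_wN_1_rb8033061c_d41_d17x6 := p_wS_32_wQ_26_wN_1_rb8033061c_d41_d17x6 g__wS_32_wQ_26_wN_1_rb8033061c_d41_d17x6_0 g__wS_32_wQ_26_wN_1_rb8033061c_d41_d17x6_4

theorem g_wS_32_wQ_26_wN_1_rb8033061c_d41_d16x6 : GoodKC AS c_wS_32_wQ_26_wN_1_rb8033061c_d41_d16x6 := p_wS_32_wQ_26_wN_1_rb8033061c_d41_d16x7

theorem g_wS_32_wQ_26_wN_1_rb8033061c_d41_d15x6 : GoodKC AS c_wS_32_wQ_26_wN_1_rb8033061c_d41_d15x6 := p_wS_32_wQ_26_wN_1_rb8033061c_d41_d15x6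

theorem g__wS_32_wQ_26_wN_1_rb8033061c_d41_d141cx3_2 : GoodKC AS k_wS_32_wQ_26_wN_1_rb8033061c_d41_d141cx3_2 := p_wS_32_wQ_26_wN_1_rb8033061c_d41_d141cx3_2

theorem g__wS_32_wQ_26_wN_1_rb8033061c_d41_d141cx3_1 : GoodKC AS k_wS_32_wQ_26_wN_1_rb8033061c_d41_d141cx3_1 := p_wS_32_wQ_26_wN_1_rb8033061c_d41_d141cx3_1 g__wS_32_wQ_26_wN_1_rb8033061c_d41_d141cx3_2

theorem g__wS_32_wQ_26_wN_1_rb8033061c_d41_d141cx3_3 : GoodKC AS k_wS_32_wQ_26_wN_1_rb8033061c_d41_d141cx3_3 := p_wS_32_wQ_26_wN_1_rb8033061c_d41_d141cx3_3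

theorem g__wS_32_wQ_26_wN_1_rb8033061c_d41_d141cx3_0 : GoodKC AS k_wS_32_wQ_26_wN_1_rb8033061c_d41_d141cx3_0 := p_wS_32_wQ_26_wN_1_rb8033061c_d41_d141cx3_0 g__wS_32_wQ_26_wN_1_rb8033061c_d41_d141cx3_1 g__wS_32_wQ_26_wN_1_rb8033061c_d41_d141cx3_3

theorem g_wS_32_wQ_26_wN_1_rb8033061c_d41_d141cx4 : GoodKC AS c_wS_32_wQ_26_wN_1_rb8033061c_d41_d141cx4 := p_wS_32_wQ_26_wN_1_rb8033061c_d41_d141cx3 g__wS_32_wQ_26_wN_1_rb8033061c_d41_d141cx3_0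

theorem g_wS_32_wQ_26_wN_1_rb8033061c_d41_d141bx4 : GoodKC AS c_wS_32_wQ_26_wN_1_rb8033061c_d41_d141bx4 := p_wS_32_wQ_26_wN_1_rb8033061c_d41_d141bx3

theorem g_wS_32_wQ_26_wN_1_rb8033061c_d41_d141ax4 : GoodKC AS c_wS_32_wQ_26_wN_1_rb8033061c_d41_d141ax4 := p_wS_32_wQ_26_wN_1_rb8033061c_d41_d141ax3

theorem g_wS_32_wQ_26_wN_1_rb8033061c_d41_d1419x4 : GoodKC AS c_wS_32_wQ_26_wN_1_rb8033061c_d41_d1419x4 := p_wS_32_wQ_26_wN_1_rb8033061c_d41_d1419x3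

theorem g_wS_32_wQ_26_wN_1_rb8033061c_d41_d1418x4 : GoodKC AS c_wS_32_wQ_26_wN_1_rb8033061c_d41_d1418x4 := p_wS_32_wQ_26_wN_1_rb8033061c_d41_d1418x3

theorem g_wS_32_wQ_26_wN_1_rb8033061c_d41_d1415x4 : GoodKC AS c_wS_32_wQ_26_wN_1_rb8033061c_d41_d1415x4 := p_wS_32_wQ_26_wN_1_rb8033061c_d41_d1415x3

theorem g_wS_32_wQ_26_wN_1_rb8033061c_d41_d1413x4 : GoodKC AS c_wS_32_wQ_26_wN_1_rb8033061c_d41_d1413x4 := p_wS_32_wQ_26_wN_1_rb8033061c_d41_d1413x3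

theorem g_wS_32_wQ_26_wN_1_rb8033061c_d41_d1412x4 : GoodKC AS c_wS_32_wQ_26_wN_1_rb8033061c_d41_d1412x4 := p_wS_32_wQ_26_wN_1_rb8033061c_d41_d1412x3

theorem g_wS_32_wQ_26_wN_1_rb8033061c_d41_d1411x4 : GoodKC AS c_wS_32_wQ_26_wN_1_rb8033061c_d41_d1411x4 := p_wS_32_wQ_26_wN_1_rb8033061c_d41_d1411x3

theorem g__wS_32_wQ_26_wN_1_rb8033061c_d41_d1410v3_1 : GoodKC AS k_wS_32_wQ_26_wN_1_rb8033061c_d41_d1410v3_1 := p_wS_32_wQ_26_wN_1_rb8033061c_d41_d1410v3_1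

theorem g__wS_32_wQ_26_wN_1_rb8033061c_d41_d1410v3_5 : GoodKC AS k_wS_32_wQ_26_wN_1_rb8033061c_d41_d1410v3_5 := p_wS_32_wQ_26_wN_1_rb8033061c_d41_d1410v3_5

theorem g__wS_32_wQ_26_wN_1_rb8033061c_d41_d1410v3_4 : GoodKC AS k_wS_32_wQ_26_wN_1_rb8033061c_d41_d1410v3_4 := p_wS_32_wQ_26_wN_1_rb8033061c_d41_d1410v3_4 g__wS_32_wQ_26_wN_1_rb8033061c_d41_d1410v3_5

theorem g__wS_32_wQ_26_wN_1_rb8033061c_d41_d1410v3_7 : GoodKC AS k_wS_32_wQ_26_wN_1_rb8033061c_d41_d1410v3_7 := p_wS_32_wQ_26_wN_1_rb8033061c_d41_d1410v3_7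

theorem g__wS_32_wQ_26_wN_1_rb8033061c_d41_d1410v3_6 : GoodKC AS k_wS_32_wQ_26_wN_1_rb8033061c_d41_d1410v3_6 := p_wS_32_wQ_26_wN_1_rb8033061c_d41_d1410v3_6 g__wS_32_wQ_26_wN_1_rb8033061c_d41_d1410v3_7

theorem g__wS_32_wQ_26_wN_1_rb8033061c_d41_d1410v3_3 : GoodKC AS k_wS_32_wQ_26_wN_1_rb8033061c_d41_d1410v3_3 := p_wS_32_wQ_26_wN_1_rb8033061c_d41_d1410v3_3 g__wS_32_wQ_26_wN_1_rb8033061c_d41_d1410v3_4 g__wS_32_wQ_26_wN_1_rb8033061c_d41_d1410v3_6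

theorem g__wS_32_wQ_26_wN_1_rb8033061c_d41_d1410v3_2 : GoodKC AS k_wS_32_wQ_26_wN_1_rb8033061c_d41_d1410v3_2 := p_wS_32_wQ_26_wN_1_rb8033061c_d41_d1410v3_2 g__wS_32_wQ_26_wN_1_rb8033061c_d41_d1410v3_3

theorem g__wS_32_wQ_26_wN_1_rb8033061c_d41_d1410v3_0 : GoodKC AS k_wS_32_wQ_26_wN_1_rb8033061c_d41_d1410v3_0 := p_wS_32_wQ_26_wN_1_rb8033061c_d41_d1410v3_0 g__wS_32_wQ_26_wN_1_rb8033061c_d41_d1410v3_1 g__wS_32_wQ_26_wN_1_rb8033061c_d41_d1410v3_2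

theorem g__wS_32_wQ_26_wN_1_rb8033061c_d41_d1410v3_10 : GoodKC AS k_wS_32_wQ_26_wN_1_rb8033061c_d41_d1410v3_10 := p_wS_32_wQ_26_wN_1_rb8033061c_d41_d1410v3_10

theorem g__wS_32_wQ_26_wN_1_rb8033061c_d41_d1410v3_11 : GoodKC AS k_wS_32_wQ_26_wN_1_rb8033061c_d41_d1410v3_11 := p_wS_32_wQ_26_wN_1_rb8033061c_d41_d1410v3_11

theorem g__wS_32_wQ_26_wN_1_rb8033061c_d41_d1410v3_9 : GoodKC AS k_wS_32_wQ_26_wN_1_rb8033061c_d41_d1410v3_9 := p_wS_32_wQ_26_wN_1_rb8033061c_d41_d1410v3_9 g__wS_32_wQ_26_wN_1_rb8033061c_d41_d1410v3_10 g__wS_32_wQ_26_wN_1_rb8033061c_d41_d1410v3_11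

theorem g__wS_32_wQ_26_wN_1_rb8033061c_d41_d1410v3_8 : GoodKC AS k_wS_32_wQ_26_wN_1_rb8033061c_d41_d1410v3_8 := p_wS_32_wQ_26_wN_1_rb8033061c_d41_d1410v3_8 g__wS_32_wQ_26_wN_1_rb8033061c_d41_d1410v3_9

theorem g_wS_32_wQ_26_wN_1_rb8033061c_d41_d1410x4 : GoodKC AS c_wS_32_wQ_26_wN_1_rb8033061c_d41_d1410x4 := p_wS_32_wQ_26_wN_1_rb8033061c_d41_d1410x3 g__wS_32_wQ_26_wN_1_rb8033061c_d41_d1410v3_0 g__wS_32_wQ_26_wN_1_rb8033061c_d41_d1410v3_8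

theorem g__wS_32_wQ_26_wN_1_rb8033061c_d41_d140fx3_0 : GoodKC AS k_wS_32_wQ_26_wN_1_rb8033061c_d41_d140fx3_0 := p_wS_32_wQ_26_wN_1_rb8033061c_d41_d140fx3_0

theorem g_wS_32_wQ_26_wN_1_rb8033061c_d41_d140fx4 : GoodKC AS c_wS_32_wQ_26_wN_1_rb8033061c_d41_d140fx4 := p_wS_32_wQ_26_wN_1_rb8033061c_d41_d140fx3 g__wS_32_wQ_26_wN_1_rb8033061c_d41_d140fx3_0

theorem g_wS_32_wQ_26_wN_1_rb8033061c_d41_d140ex4 : GoodKC AS c_wS_32_wQ_26_wN_1_rb8033061c_d41_d140ex4 := p_wS_32_wQ_26_wN_1_rb8033061c_d41_d140ex3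

theorem g_wS_32_wQ_26_wN_1_rb8033061c_d41_d140dx4 : GoodKC AS c_wS_32_wQ_26_wN_1_rb8033061c_d41_d140dx4 := p_wS_32_wQ_26_wN_1_rb8033061c_d41_d140dx3

theorem g_wS_32_wQ_26_wN_1_rb8033061c_d41_d140cx4 : GoodKC AS c_wS_32_wQ_26_wN_1_rb8033061c_d41_d140cx4 := p_wS_32_wQ_26_wN_1_rb8033061c_d41_d140cx3

theorem g_wS_32_wQ_26_wN_1_rb8033061c_d41_d140ax4 : GoodKC AS c_wS_32_wQ_26_wN_1_rb8033061c_d41_d140ax4 := p_wS_32_wQ_26_wN_1_rb8033061c_d41_d140ax3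

theorem g_wS_32_wQ_26_wN_1_rb8033061c_d41_d1408x4 : GoodKC AS c_wS_32_wQ_26_wN_1_rb8033061c_d41_d1408x4 := p_wS_32_wQ_26_wN_1_rb8033061c_d41_d1408x3

theorem g_wS_32_wQ_26_wN_1_rb8033061c_d41_d1406x4 : GoodKC AS c_wS_32_wQ_26_wN_1_rb8033061c_d41_d1406x4 := p_wS_32_wQ_26_wN_1_rb8033061c_d41_d1406x3

theorem g_wS_32_wQ_26_wN_1_rb8033061c_d41_d1405x4 : GoodKC AS c_wS_32_wQ_26_wN_1_rb8033061c_d41_d1405x4 := p_wS_32_wQ_26_wN_1_rb8033061c_d41_d1405x3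

theorem g_wS_32_wQ_26_wN_1_rb8033061c_d41_d1404x4 : GoodKC AS c_wS_32_wQ_26_wN_1_rb8033061c_d41_d1404x4 := p_wS_32_wQ_26_wN_1_rb8033061c_d41_d1404x3

theorem g_wS_32_wQ_26_wN_1_rb8033061c_d41_d1403x4 : GoodKC AS c_wS_32_wQ_26_wN_1_rb8033061c_d41_d1403x4 := p_wS_32_wQ_26_wN_1_rb8033061c_d41_d1403x3

theorem g_wS_32_wQ_26_wN_1_rb8033061c_d41_d1402x4 : GoodKC AS c_wS_32_wQ_26_wN_1_rb8033061c_d41_d1402x4 := p_wS_32_wQ_26_wN_1_rb8033061c_d41_d1402x3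

theorem g_wS_32_wQ_26_wN_1_rb8033061c_d41_d1401x4 : GoodKC AS c_wS_32_wQ_26_wN_1_rb8033061c_d41_d1401x4 := p_wS_32_wQ_26_wN_1_rb8033061c_d41_d1401x3

theorem g__wS_32_wQ_26_wN_1_rb8033061c_d41_d1400v3_0 : GoodKC AS k_wS_32_wQ_26_wN_1_rb8033061c_d41_d1400v3_0 := p_wS_32_wQ_26_wN_1_rb8033061c_d41_d1400v3_0

theorem g_wS_32_wQ_26_wN_1_rb8033061c_d41_d1400x4 : GoodKC AS c_wS_32_wQ_26_wN_1_rb8033061c_d41_d1400x4 := p_wS_32_wQ_26_wN_1_rb8033061c_d41_d1400x3 g__wS_32_wQ_26_wN_1_rb8033061c_d41_d1400v3_0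

theorem g_wS_32_wQ_26_wN_1_rb8033061c_d41_d1407x4 : GoodKC AS c_wS_32_wQ_26_wN_1_rb8033061c_d41_d1407x4 := p_wS_32_wQ_26_wN_1_rb8033061c_d41_d1407x3

theorem g_wS_32_wQ_26_wN_1_rb8033061c_d41_d1409x4 : GoodKC AS c_wS_32_wQ_26_wN_1_rb8033061c_d41_d1409x4 := p_wS_32_wQ_26_wN_1_rb8033061c_d41_d1409x3

theorem g_wS_32_wQ_26_wN_1_rb8033061c_d41_d140bx4 : GoodKC AS c_wS_32_wQ_26_wN_1_rb8033061c_d41_d140bx4 := p_wS_32_wQ_26_wN_1_rb8033061c_d41_d140bx3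

theorem g_wS_32_wQ_26_wN_1_rb8033061c_d41_d1414x4 : GoodKC AS c_wS_32_wQ_26_wN_1_rb8033061c_d41_d1414x4 := p_wS_32_wQ_26_wN_1_rb8033061c_d41_d1414x3

theorem g_wS_32_wQ_26_wN_1_rb8033061c_d41_d141620x3 : GoodKC AS c_wS_32_wQ_26_wN_1_rb8033061c_d41_d141620x3 := p_wS_32_wQ_26_wN_1_rb8033061c_d41_d141620x3

theorem g_wS_32_wQ_26_wN_1_rb8033061c_d41_d14161ex3 : GoodKC AS c_wS_32_wQ_26_wN_1_rb8033061c_d41_d14161ex3 := p_wS_32_wQ_26_wN_1_rb8033061c_d41_d14161ex2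

theorem g__wS_32_wQ_26_wN_1_rb8033061c_d41_d14161dx3_1 : GoodKC AS k_wS_32_wQ_26_wN_1_rb8033061c_d41_d14161dx3_1 := p_wS_32_wQ_26_wN_1_rb8033061c_d41_d14161dx3_1

theorem g__wS_32_wQ_26_wN_1_rb8033061c_d41_d14161dx3_0 : GoodKC AS k_wS_32_wQ_26_wN_1_rb8033061c_d41_d14161dx3_0 := p_wS_32_wQ_26_wN_1_rb8033061c_d41_d14161dx3_0 g__wS_32_wQ_26_wN_1_rb8033061c_d41_d14161dx3_1

theorem g_wS_32_wQ_26_wN_1_rb8033061c_d41_d14161dx3 : GoodKC AS c_wS_32_wQ_26_wN_1_rb8033061c_d41_d14161dx3 := p_wS_32_wQ_26_wN_1_rb8033061c_d41_d14161dx3 g__wS_32_wQ_26_wN_1_rb8033061c_d41_d14161dx3_0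

theorem g_wS_32_wQ_26_wN_1_rb8033061c_d41_d14161cx3 : GoodKC AS c_wS_32_wQ_26_wN_1_rb8033061c_d41_d14161cx3 := p_wS_32_wQ_26_wN_1_rb8033061c_d41_d14161cx2

theorem g_wS_32_wQ_26_wN_1_rb8033061c_d41_d14161bx3 : GoodKC AS c_wS_32_wQ_26_wN_1_rb8033061c_d41_d14161bx3 := p_wS_32_wQ_26_wN_1_rb8033061c_d41_d14161bx2

theorem g_wS_32_wQ_26_wN_1_rb8033061c_d41_d141619x3 : GoodKC AS c_wS_32_wQ_26_wN_1_rb8033061c_d41_d141619x3 := p_wS_32_wQ_26_wN_1_rb8033061c_d41_d141619x2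

theorem g_wS_32_wQ_26_wN_1_rb8033061c_d41_d141618x3 : GoodKC AS c_wS_32_wQ_26_wN_1_rb8033061c_d41_d141618x3 := p_wS_32_wQ_26_wN_1_rb8033061c_d41_d141618x2

theorem g_wS_32_wQ_26_wN_1_rb8033061c_d41_d141617x3 : GoodKC AS c_wS_32_wQ_26_wN_1_rb8033061c_d41_d141617x3 := p_wS_32_wQ_26_wN_1_rb8033061c_d41_d141617x2

theorem g_wS_32_wQ_26_wN_1_rb8033061c_d41_d141616x3 : GoodKC AS c_wS_32_wQ_26_wN_1_rb8033061c_d41_d141616x3 := p_wS_32_wQ_26_wN_1_rb8033061c_d41_d141616x2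

theorem g_wS_32_wQ_26_wN_1_rb8033061c_d41_d141615x3 : GoodKC AS c_wS_32_wQ_26_wN_1_rb8033061c_d41_d141615x3 := p_wS_32_wQ_26_wN_1_rb8033061c_d41_d141615x2

theorem g_wS_32_wQ_26_wN_1_rb8033061c_d41_d141614x3 : GoodKC AS c_wS_32_wQ_26_wN_1_rb8033061c_d41_d141614x3 := p_wS_32_wQ_26_wN_1_rb8033061c_d41_d141614x2

theorem g_wS_32_wQ_26_wN_1_rb8033061c_d41_d141613x3 : GoodKC AS c_wS_32_wQ_26_wN_1_rb8033061c_d41_d141613x3 := p_wS_32_wQ_26_wN_1_rb8033061c_d41_d141613x2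

theorem g_wS_32_wQ_26_wN_1_rb8033061c_d41_d141611x3 : GoodKC AS c_wS_32_wQ_26_wN_1_rb8033061c_d41_d141611x3 := p_wS_32_wQ_26_wN_1_rb8033061c_d41_d141611x2

theorem g_wS_32_wQ_26_wN_1_rb8033061c_d41_d14160fx3 : GoodKC AS c_wS_32_wQ_26_wN_1_rb8033061c_d41_d14160fx3 := p_wS_32_wQ_26_wN_1_rb8033061c_d41_d14160fx2

theorem g_wS_32_wQ_26_wN_1_rb8033061c_d41_d14160ex3 : GoodKC AS c_wS_32_wQ_26_wN_1_rb8033061c_d41_d14160ex3 := p_wS_32_wQ_26_wN_1_rb8033061c_d41_d14160ex2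

theorem g_wS_32_wQ_26_wN_1_rb8033061c_d41_d141608x3 : GoodKC AS c_wS_32_wQ_26_wN_1_rb8033061c_d41_d141608x3 := p_wS_32_wQ_26_wN_1_rb8033061c_d41_d141608x2

theorem g_wS_32_wQ_26_wN_1_rb8033061c_d41_d141604x3 : GoodKC AS c_wS_32_wQ_26_wN_1_rb8033061c_d41_d141604x3 := p_wS_32_wQ_26_wN_1_rb8033061c_d41_d141604x2

theorem g__wS_32_wQ_26_wN_1_rb8033061c_d41_d141600v2_2 : GoodKC AS k_wS_32_wQ_26_wN_1_rb8033061c_d41_d141600v2_2 := p_wS_32_wQ_26_wN_1_rb8033061c_d41_d141600v2_2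

theorem g__wS_32_wQ_26_wN_1_rb8033061c_d41_d141600v2_1 : GoodKC AS k_wS_32_wQ_26_wN_1_rb8033061c_d41_d141600v2_1 := p_wS_32_wQ_26_wN_1_rb8033061c_d41_d141600v2_1 g__wS_32_wQ_26_wN_1_rb8033061c_d41_d141600v2_2

theorem g__wS_32_wQ_26_wN_1_rb8033061c_d41_d141600v2_0 : GoodKC AS k_wS_32_wQ_26_wN_1_rb8033061c_d41_d141600v2_0 := p_wS_32_wQ_26_wN_1_rb8033061c_d41_d141600v2_0 g__wS_32_wQ_26_wN_1_rb8033061c_d41_d141600v2_1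

theorem g_wS_32_wQ_26_wN_1_rb8033061c_d41_d141600x3 : GoodKC AS c_wS_32_wQ_26_wN_1_rb8033061c_d41_d141600x3 := p_wS_32_wQ_26_wN_1_rb8033061c_d41_d141600x2 g__wS_32_wQ_26_wN_1_rb8033061c_d41_d141600v2_0

theorem g_wS_32_wQ_26_wN_1_rb8033061c_d41_d141601x3 : GoodKC AS c_wS_32_wQ_26_wN_1_rb8033061c_d41_d141601x3 := p_wS_32_wQ_26_wN_1_rb8033061c_d41_d141601x2

theorem g_wS_32_wQ_26_wN_1_rb8033061c_d41_d141602x3 : GoodKC AS c_wS_32_wQ_26_wN_1_rb8033061c_d41_d141602x3 := p_wS_32_wQ_26_wN_1_rb8033061c_d41_d141602x2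

theorem g_wS_32_wQ_26_wN_1_rb8033061c_d41_d141603x3 : GoodKC AS c_wS_32_wQ_26_wN_1_rb8033061c_d41_d141603x3 := p_wS_32_wQ_26_wN_1_rb8033061c_d41_d141603x2

theorem g_wS_32_wQ_26_wN_1_rb8033061c_d41_d141605x3 : GoodKC AS c_wS_32_wQ_26_wN_1_rb8033061c_d41_d141605x3 := p_wS_32_wQ_26_wN_1_rb8033061c_d41_d141605x2

theorem g_wS_32_wQ_26_wN_1_rb8033061c_d41_d141606x3 : GoodKC AS c_wS_32_wQ_26_wN_1_rb8033061c_d41_d141606x3 := p_wS_32_wQ_26_wN_1_rb8033061c_d41_d141606x2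

theorem g_wS_32_wQ_26_wN_1_rb8033061c_d41_d141607x3 : GoodKC AS c_wS_32_wQ_26_wN_1_rb8033061c_d41_d141607x3 := p_wS_32_wQ_26_wN_1_rb8033061c_d41_d141607x2

theorem g_wS_32_wQ_26_wN_1_rb8033061c_d41_d141609x3 : GoodKC AS c_wS_32_wQ_26_wN_1_rb8033061c_d41_d141609x3 := p_wS_32_wQ_26_wN_1_rb8033061c_d41_d141609x2

theorem g_wS_32_wQ_26_wN_1_rb8033061c_d41_d14160ax3 : GoodKC AS c_wS_32_wQ_26_wN_1_rb8033061c_d41_d14160ax3 := p_wS_32_wQ_26_wN_1_rb8033061c_d41_d14160ax2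

theorem g_wS_32_wQ_26_wN_1_rb8033061c_d41_d14160bx3 : GoodKC AS c_wS_32_wQ_26_wN_1_rb8033061c_d41_d14160bx3 := p_wS_32_wQ_26_wN_1_rb8033061c_d41_d14160bx2

theorem g_wS_32_wQ_26_wN_1_rb8033061c_d41_d14160cx3 : GoodKC AS c_wS_32_wQ_26_wN_1_rb8033061c_d41_d14160cx3 := p_wS_32_wQ_26_wN_1_rb8033061c_d41_d14160cx2

theorem g_wS_32_wQ_26_wN_1_rb8033061c_d41_d14160dx3 : GoodKC AS c_wS_32_wQ_26_wN_1_rb8033061c_d41_d14160dx3 := p_wS_32_wQ_26_wN_1_rb8033061c_d41_d14160dx2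

theorem g_wS_32_wQ_26_wN_1_rb8033061c_d41_d141610x3 : GoodKC AS c_wS_32_wQ_26_wN_1_rb8033061c_d41_d141610x3 := p_wS_32_wQ_26_wN_1_rb8033061c_d41_d141610x2

theorem g_wS_32_wQ_26_wN_1_rb8033061c_d41_d141612x3 : GoodKC AS c_wS_32_wQ_26_wN_1_rb8033061c_d41_d141612x3 := p_wS_32_wQ_26_wN_1_rb8033061c_d41_d141612x2

theorem g_wS_32_wQ_26_wN_1_rb8033061c_d41_d14161ax3 : GoodKC AS c_wS_32_wQ_26_wN_1_rb8033061c_d41_d14161ax3 := p_wS_32_wQ_26_wN_1_rb8033061c_d41_d14161ax2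

theorem g_wS_32_wQ_26_wN_1_rb8033061c_d41_d14161fx3 : GoodKC AS c_wS_32_wQ_26_wN_1_rb8033061c_d41_d14161fx3 := p_wS_32_wQ_26_wN_1_rb8033061c_d41_d14161fx2

theorem g_wS_32_wQ_26_wN_1_rb8033061c_d41_d1416x4 : GoodKC AS c_wS_32_wQ_26_wN_1_rb8033061c_d41_d1416x4 := p_wS_32_wQ_26_wN_1_rb8033061c_d41_d1416x3 g_wS_32_wQ_26_wN_1_rb8033061c_d41_d141620x3 g_wS_32_wQ_26_wN_1_rb8033061c_d41_d14161ex3 g_wS_32_wQ_26_wN_1_rb8033061c_d41_d14161dx3 g_wS_32_wQ_26_wN_1_rb8033061c_d41_d14161cx3 g_wS_32_wQ_26_wN_1_rb8033061c_d41_d14161bx3 g_wS_32_wQ_26_wN_1_rb8033061c_d41_d141619x3 g_wS_32_wQ_26_wN_1_rb8033061c_d41_d141618x3 g_wS_32_wQ_26_wN_1_rb8033061c_d41_d141617x3 g_wS_32_wQ_26_wN_1_rb8033061c_d41_d141616x3 g_wS_32_wQ_26_wN_1_rb8033061c_d41_d141615x3 g_wS_32_wQ_26_wN_1_rb8033061c_d41_d141614x3 g_wS_32_wQ_26_wN_1_rb8033061c_d41_d141613x3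 g_wS_32_wQ_26_wN_1_rb8033061c_d41_d141611x3 g_wS_32_wQ_26_wN_1_rb8033061c_d41_d14160fx3 g_wS_32_wQ_26_wN_1_rb8033061c_d41_d14160ex3 g_wS_32_wQ_26_wN_1_rb8033061c_d41_d141608x3 g_wS_32_wQ_26_wN_1_rb8033061c_d41_d141604x3 g_wS_32_wQ_26_wN_1_rb8033061c_d41_d141600x3 g_wS_32_wQ_26_wN_1_rb8033061c_d41_d141601x3 g_wS_32_wQ_26_wN_1_rb8033061c_d41_d141602x3 g_wS_32_wQ_26_wN_1_rb8033061c_d41_d141603x3 g_wS_32_wQ_26_wN_1_rb8033061c_d41_d141605x3 g_wS_32_wQ_26_wN_1_rb8033061c_d41_d141606x3 g_wS_32_wQ_26_wN_1_rb8033061c_d41_d141607x3 g_wS_32_wQ_26_wN_1_rb8033061c_d41_d141609x3 g_wS_32_wQ_26_wN_1_rb8033061c_d41_d14160ax3 g_wS_32_wQ_26_wN_1_rb8033061c_d41_d14160bx3 g_wS_32_wQ_26_wN_1_rb8033061c_d41_d14160cx3 g_wS_32_wQ_26_wN_1_rb8033061c_d41_d14160dx3 g_wS_32_wQ_26_wN_1_rb8033061c_d41_d141610x3 g_wS_32_wQ_26_wN_1_rb8033061c_d41_d141612x3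 g_wS_32_wQ_26_wN_1_rb8033061c_d41_d14161ax3 g_wS_32_wQ_26_wN_1_rb8033061c_d41_d14161fx3

theorem g__wS_32_wQ_26_wN_1_rb8033061c_d41_d1417x3_0 : GoodKC AS k_wS_32_wQ_26_wN_1_rb8033061c_d41_d1417x3_0 := p_wS_32_wQ_26_wN_1_rb8033061c_d41_d1417x3_0

theorem g__wS_32_wQ_26_wN_1_rb8033061c_d41_d1417x3_3 : GoodKC AS k_wS_32_wQ_26_wN_1_rb8033061c_d41_d1417x3_3 := p_wS_32_wQ_26_wN_1_rb8033061c_d41_d1417x3_3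

theorem g__wS_32_wQ_26_wN_1_rb8033061c_d41_d1417x3_4 : GoodKC AS k_wS_32_wQ_26_wN_1_rb8033061c_d41_d1417x3_4 := p_wS_32_wQ_26_wN_1_rb8033061c_d41_d1417x3_4

theorem g__wS_32_wQ_26_wN_1_rb8033061c_d41_d1417x3_2 : GoodKC AS k_wS_32_wQ_26_wN_1_rb8033061c_d41_d1417x3_2 := p_wS_32_wQ_26_wN_1_rb8033061c_d41_d1417x3_2 g__wS_32_wQ_26_wN_1_rb8033061c_d41_d1417x3_3 g__wS_32_wQ_26_wN_1_rb8033061c_d41_d1417x3_4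

theorem g__wS_32_wQ_26_wN_1_rb8033061c_d41_d1417x3_5 : GoodKC AS k_wS_32_wQ_26_wN_1_rb8033061c_d41_d1417x3_5 := p_wS_32_wQ_26_wN_1_rb8033061c_d41_d1417x3_5

theorem g__wS_32_wQ_26_wN_1_rb8033061c_d41_d1417x3_1 : GoodKC AS k_wS_32_wQ_26_wN_1_rb8033061c_d41_d1417x3_1 := p_wS_32_wQ_26_wN_1_rb8033061c_d41_d1417x3_1 g__wS_32_wQ_26_wN_1_rb8033061c_d41_d1417x3_2 g__wS_32_wQ_26_wN_1_rb8033061c_d41_d1417x3_5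

theorem g__wS_32_wQ_26_wN_1_rb8033061c_d41_d1417x3_9 : GoodKC AS k_wS_32_wQ_26_wN_1_rb8033061c_d41_d1417x3_9 := p_wS_32_wQ_26_wN_1_rb8033061c_d41_d1417x3_9

theorem g__wS_32_wQ_26_wN_1_rb8033061c_d41_d1417x3_8 : GoodKC AS k_wS_32_wQ_26_wN_1_rb8033061c_d41_d1417x3_8 := p_wS_32_wQ_26_wN_1_rb8033061c_d41_d1417x3_8 g__wS_32_wQ_26_wN_1_rb8033061c_d41_d1417x3_9

theorem g__wS_32_wQ_26_wN_1_rb8033061c_d41_d1417x3_10 : GoodKC AS k_wS_32_wQ_26_wN_1_rb8033061c_d41_d1417x3_10 := p_wS_32_wQ_26_wN_1_rb8033061c_d41_d1417x3_10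

theorem g__wS_32_wQ_26_wN_1_rb8033061c_d41_d1417x3_7 : GoodKC AS k_wS_32_wQ_26_wN_1_rb8033061c_d41_d1417x3_7 := p_wS_32_wQ_26_wN_1_rb8033061c_d41_d1417x3_7 g__wS_32_wQ_26_wN_1_rb8033061c_d41_d1417x3_8 g__wS_32_wQ_26_wN_1_rb8033061c_d41_d1417x3_10

theorem g__wS_32_wQ_26_wN_1_rb8033061c_d41_d1417x3_6 : GoodKC AS k_wS_32_wQ_26_wN_1_rb8033061c_d41_d1417x3_6 := p_wS_32_wQ_26_wN_1_rb8033061c_d41_d1417x3_6 g__wS_32_wQ_26_wN_1_rb8033061c_d41_d1417x3_7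

theorem g_wS_32_wQ_26_wN_1_rb8033061c_d41_d1417x4 : GoodKC AS c_wS_32_wQ_26_wN_1_rb8033061c_d41_d1417x4 := p_wS_32_wQ_26_wN_1_rb8033061c_d41_d1417x3 g__wS_32_wQ_26_wN_1_rb8033061c_d41_d1417x3_0 g__wS_32_wQ_26_wN_1_rb8033061c_d41_d1417x3_1 g__wS_32_wQ_26_wN_1_rb8033061c_d41_d1417x3_6

theorem g__wS_32_wQ_26_wN_1_rb8033061c_d41_d14x4_3 : GoodKC AS k_wS_32_wQ_26_wN_1_rb8033061c_d41_d14x4_3 := p_wS_32_wQ_26_wN_1_rb8033061c_d41_d14x4_3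

theorem g__wS_32_wQ_26_wN_1_rb8033061c_d41_d14x4_2 : GoodKC AS k_wS_32_wQ_26_wN_1_rb8033061c_d41_d14x4_2 := p_wS_32_wQ_26_wN_1_rb8033061c_d41_d14x4_2 g__wS_32_wQ_26_wN_1_rb8033061c_d41_d14x4_3

theorem g__wS_32_wQ_26_wN_1_rb8033061c_d41_d14x4_4 : GoodKC AS k_wS_32_wQ_26_wN_1_rb8033061c_d41_d14x4_4 := p_wS_32_wQ_26_wN_1_rb8033061c_d41_d14x4_4

theorem g__wS_32_wQ_26_wN_1_rb8033061c_d41_d14x4_5 : GoodKC AS k_wS_32_wQ_26_wN_1_rb8033061c_d41_d14x4_5 := p_wS_32_wQ_26_wN_1_rb8033061c_d41_d14x4_5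

theorem g__wS_32_wQ_26_wN_1_rb8033061c_d41_d14x4_1 : GoodKC AS k_wS_32_wQ_26_wN_1_rb8033061c_d41_d14x4_1 := p_wS_32_wQ_26_wN_1_rb8033061c_d41_d14x4_1 g__wS_32_wQ_26_wN_1_rb8033061c_d41_d14x4_2 g__wS_32_wQ_26_wN_1_rb8033061c_d41_d14x4_4 g__wS_32_wQ_26_wN_1_rb8033061c_d41_d14x4_5

theorem g__wS_32_wQ_26_wN_1_rb8033061c_d41_d14x4_7 : GoodKC AS k_wS_32_wQ_26_wN_1_rb8033061c_d41_d14x4_7 := p_wS_32_wQ_26_wN_1_rb8033061c_d41_d14x4_7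

theorem g__wS_32_wQ_26_wN_1_rb8033061c_d41_d14x4_15 : GoodKC AS k_wS_32_wQ_26_wN_1_rb8033061c_d41_d14x4_15 := p_wS_32_wQ_26_wN_1_rb8033061c_d41_d14x4_15

theorem g__wS_32_wQ_26_wN_1_rb8033061c_d41_d14x4_14 : GoodKC AS k_wS_32_wQ_26_wN_1_rb8033061c_d41_d14x4_14 := p_wS_32_wQ_26_wN_1_rb8033061c_d41_d14x4_14 g__wS_32_wQ_26_wN_1_rb8033061c_d41_d14x4_15

theorem g__wS_32_wQ_26_wN_1_rb8033061c_d41_d14x4_13 : GoodKC AS k_wS_32_wQ_26_wN_1_rb8033061c_d41_d14x4_13 := p_wS_32_wQ_26_wN_1_rb8033061c_d41_d14x4_13 g__wS_32_wQ_26_wN_1_rb8033061c_d41_d14x4_14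

theorem g__wS_32_wQ_26_wN_1_rb8033061c_d41_d14x4_12 : GoodKC AS k_wS_32_wQ_26_wN_1_rb8033061c_d41_d14x4_12 := p_wS_32_wQ_26_wN_1_rb8033061c_d41_d14x4_12 g__wS_32_wQ_26_wN_1_rb8033061c_d41_d14x4_13

theorem g__wS_32_wQ_26_wN_1_rb8033061c_d41_d14x4_11 : GoodKC AS k_wS_32_wQ_26_wN_1_rb8033061c_d41_d14x4_11 := p_wS_32_wQ_26_wN_1_rb8033061c_d41_d14x4_11 g__wS_32_wQ_26_wN_1_rb8033061c_d41_d14x4_12

theorem g__wS_32_wQ_26_wN_1_rb8033061c_d41_d14x4_10 : GoodKC AS k_wS_32_wQ_26_wN_1_rb8033061c_d41_d14x4_10 := p_wS_32_wQ_26_wN_1_rb8033061c_d41_d14x4_10 g__wS_32_wQ_26_wN_1_rb8033061c_d41_d14x4_11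

theorem g__wS_32_wQ_26_wN_1_rb8033061c_d41_d14x4_9 : GoodKC AS k_wS_32_wQ_26_wN_1_rb8033061c_d41_d14x4_9 := p_wS_32_wQ_26_wN_1_rb8033061c_d41_d14x4_9 g__wS_32_wQ_26_wN_1_rb8033061c_d41_d14x4_10

theorem g__wS_32_wQ_26_wN_1_rb8033061c_d41_d14x4_8 : GoodKC AS k_wS_32_wQ_26_wN_1_rb8033061c_d41_d14x4_8 := p_wS_32_wQ_26_wN_1_rb8033061c_d41_d14x4_8 g__wS_32_wQ_26_wN_1_rb8033061c_d41_d14x4_9

theorem g__wS_32_wQ_26_wN_1_rb8033061c_d41_d14x4_6 : GoodKC AS k_wS_32_wQ_26_wN_1_rb8033061c_d41_d14x4_6 := p_wS_32_wQ_26_wN_1_rb8033061c_d41_d14x4_6 g__wS_32_wQ_26_wN_1_rb8033061c_d41_d14x4_7 g__wS_32_wQ_26_wN_1_rb8033061c_d41_d14x4_8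

theorem g__wS_32_wQ_26_wN_1_rb8033061c_d41_d14x4_16 : GoodKC AS k_wS_32_wQ_26_wN_1_rb8033061c_d41_d14x4_16 := p_wS_32_wQ_26_wN_1_rb8033061c_d41_d14x4_16

theorem g__wS_32_wQ_26_wN_1_rb8033061c_d41_d14x4_0 : GoodKC AS k_wS_32_wQ_26_wN_1_rb8033061c_d41_d14x4_0 := p_wS_32_wQ_26_wN_1_rb8033061c_d41_d14x4_0 g__wS_32_wQ_26_wN_1_rb8033061c_d41_d14x4_1 g__wS_32_wQ_26_wN_1_rb8033061c_d41_d14x4_6 g__wS_32_wQ_26_wN_1_rb8033061c_d41_d14x4_16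

theorem g_wS_32_wQ_26_wN_1_rb8033061c_d41_d141dx4 : GoodKC AS c_wS_32_wQ_26_wN_1_rb8033061c_d41_d141dx4 := p_wS_32_wQ_26_wN_1_rb8033061c_d41_d141dx3

theorem g_wS_32_wQ_26_wN_1_rb8033061c_d41_d141ex4 : GoodKC AS c_wS_32_wQ_26_wN_1_rb8033061c_d41_d141ex4 := p_wS_32_wQ_26_wN_1_rb8033061c_d41_d141ex3

theorem g_wS_32_wQ_26_wN_1_rb8033061c_d41_d14x6 : GoodKC AS c_wS_32_wQ_26_wN_1_rb8033061c_d41_d14x6 := p_wS_32_wQ_26_wN_1_rb8033061c_d41_d14x4 g_wS_32_wQ_26_wN_1_rb8033061c_d41_d141cx4 g_wS_32_wQ_26_wN_1_rb8033061c_d41_d141bx4 g_wS_32_wQ_26_wN_1_rb8033061c_d41_d141ax4 g_wS_32_wQ_26_wN_1_rb8033061c_d41_d1419x4 g_wS_32_wQ_26_wN_1_rb8033061c_d41_d1418x4 g_wS_32_wQ_26_wN_1_rb8033061c_d41_d1415x4 g_wS_32_wQ_26_wN_1_rb8033061c_d41_d1413x4 g_wS_32_wQ_26_wN_1_rb8033061c_d41_d1412x4 g_wS_32_wQ_26_wN_1_rb8033061c_d41_d1411x4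 g_wS_32_wQ_26_wN_1_rb8033061c_d41_d1410x4 g_wS_32_wQ_26_wN_1_rb8033061c_d41_d140fx4 g_wS_32_wQ_26_wN_1_rb8033061c_d41_d140ex4 g_wS_32_wQ_26_wN_1_rb8033061c_d41_d140dx4 g_wS_32_wQ_26_wN_1_rb8033061c_d41_d140cx4 g_wS_32_wQ_26_wN_1_rb8033061c_d41_d140ax4 g_wS_32_wQ_26_wN_1_rb8033061c_d41_d1408x4 g_wS_32_wQ_26_wN_1_rb8033061c_d41_d1406x4 g_wS_32_wQ_26_wN_1_rb8033061c_d41_d1405x4 g_wS_32_wQ_26_wN_1_rb8033061c_d41_d1404x4 g_wS_32_wQ_26_wN_1_rb8033061c_d41_d1403x4 g_wS_32_wQ_26_wN_1_rb8033061c_d41_d1402x4 g_wS_32_wQ_26_wN_1_rb8033061c_d41_d1401x4 g_wS_32_wQ_26_wN_1_rb8033061c_d41_d1400x4 g_wS_32_wQ_26_wN_1_rb8033061c_d41_d1407x4 g_wS_32_wQ_26_wN_1_rb8033061c_d41_d1409x4 g_wS_32_wQ_26_wN_1_rb8033061c_d41_d140bx4 g_wS_32_wQ_26_wN_1_rb8033061c_d41_d1414x4 g_wS_32_wQ_26_wN_1_rb8033061c_d41_d1416x4 g_wS_32_wQ_26_wN_1_rb8033061c_d41_d1417x4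 g__wS_32_wQ_26_wN_1_rb8033061c_d41_d14x4_0 g_wS_32_wQ_26_wN_1_rb8033061c_d41_d141dx4 g_wS_32_wQ_26_wN_1_rb8033061c_d41_d141ex4

theorem g__wS_32_wQ_26_wN_1_rb8033061c_d41_d12x6_1 : GoodKC AS k_wS_32_wQ_26_wN_1_rb8033061c_d41_d12x6_1 := p_wS_32_wQ_26_wN_1_rb8033061c_d41_d12x6_1

theorem g__wS_32_wQ_26_wN_1_rb8033061c_d41_d12x6_0 : GoodKC AS k_wS_32_wQ_26_wN_1_rb8033061c_d41_d12x6_0 := p_wS_32_wQ_26_wN_1_rb8033061c_d41_d12x6_0 g__wS_32_wQ_26_wN_1_rb8033061c_d41_d12x6_1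

theorem g__wS_32_wQ_26_wN_1_rb8033061c_d41_d12x6_2 : GoodKC AS k_wS_32_wQ_26_wN_1_rb8033061c_d41_d12x6_2 := p_wS_32_wQ_26_wN_1_rb8033061c_d41_d12x6_2

theorem g_wS_32_wQ_26_wN_1_rb8033061c_d41_d12x6 : GoodKC AS c_wS_32_wQ_26_wN_1_rb8033061c_d41_d12x6 := p_wS_32_wQ_26_wN_1_rb8033061c_d41_d12x6 g__wS_32_wQ_26_wN_1_rb8033061c_d41_d12x6_0 g__wS_32_wQ_26_wN_1_rb8033061c_d41_d12x6_2

theorem g_wS_32_wQ_26_wN_1_rb8033061c_d41_d11x6 : GoodKC AS c_wS_32_wQ_26_wN_1_rb8033061c_d41_d11x6 := p_wS_32_wQ_26_wN_1_rb8033061c_d41_d11x7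

theorem g_wS_32_wQ_26_wN_1_rb8033061c_d41_d10x6 : GoodKC AS c_wS_32_wQ_26_wN_1_rb8033061c_d41_d10x6 := p_wS_32_wQ_26_wN_1_rb8033061c_d41_d10x6

theorem g_wS_32_wQ_26_wN_1_rb8033061c_d41_d0fx6 : GoodKC AS c_wS_32_wQ_26_wN_1_rb8033061c_d41_d0fx6 := p_wS_32_wQ_26_wN_1_rb8033061c_d41_d0fx7

theorem g_wS_32_wQ_26_wN_1_rb8033061c_d41_d0dx6 : GoodKC AS c_wS_32_wQ_26_wN_1_rb8033061c_d41_d0dx6 := p_wS_32_wQ_26_wN_1_rb8033061c_d41_d0dx7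

theorem g_wS_32_wQ_26_wN_1_rb8033061c_d41_d0bx6 : GoodKC AS c_wS_32_wQ_26_wN_1_rb8033061c_d41_d0bx6 := p_wS_32_wQ_26_wN_1_rb8033061c_d41_d0bx7

theorem g__wS_32_wQ_26_wN_1_rb8033061c_d41_d0ax5_5 : GoodKC AS k_wS_32_wQ_26_wN_1_rb8033061c_d41_d0ax5_5 := p_wS_32_wQ_26_wN_1_rb8033061c_d41_d0ax5_5

theorem g__wS_32_wQ_26_wN_1_rb8033061c_d41_d0ax5_4 : GoodKC AS k_wS_32_wQ_26_wN_1_rb8033061c_d41_d0ax5_4 := p_wS_32_wQ_26_wN_1_rb8033061c_d41_d0ax5_4 g__wS_32_wQ_26_wN_1_rb8033061c_d41_d0ax5_5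

theorem g__wS_32_wQ_26_wN_1_rb8033061c_d41_d0ax5_3 : GoodKC AS k_wS_32_wQ_26_wN_1_rb8033061c_d41_d0ax5_3 := p_wS_32_wQ_26_wN_1_rb8033061c_d41_d0ax5_3 g__wS_32_wQ_26_wN_1_rb8033061c_d41_d0ax5_4

theorem g__wS_32_wQ_26_wN_1_rb8033061c_d41_d0ax5_2 : GoodKC AS k_wS_32_wQ_26_wN_1_rb8033061c_d41_d0ax5_2 := p_wS_32_wQ_26_wN_1_rb8033061c_d41_d0ax5_2 g__wS_32_wQ_26_wN_1_rb8033061c_d41_d0ax5_3

theorem g__wS_32_wQ_26_wN_1_rb8033061c_d41_d0ax5_1 : GoodKC AS k_wS_32_wQ_26_wN_1_rb8033061c_d41_d0ax5_1 := p_wS_32_wQ_26_wN_1_rb8033061c_d41_d0ax5_1 g__wS_32_wQ_26_wN_1_rb8033061c_d41_d0ax5_2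

theorem g__wS_32_wQ_26_wN_1_rb8033061c_d41_d0ax5_0 : GoodKC AS k_wS_32_wQ_26_wN_1_rb8033061c_d41_d0ax5_0 := p_wS_32_wQ_26_wN_1_rb8033061c_d41_d0ax5_0 g__wS_32_wQ_26_wN_1_rb8033061c_d41_d0ax5_1

theorem g_wS_32_wQ_26_wN_1_rb8033061c_d41_d0ax6 : GoodKC AS c_wS_32_wQ_26_wN_1_rb8033061c_d41_d0ax6 := p_wS_32_wQ_26_wN_1_rb8033061c_d41_d0ax5 g__wS_32_wQ_26_wN_1_rb8033061c_d41_d0ax5_0

theorem g_wS_32_wQ_26_wN_1_rb8033061c_d41_d06x6 : GoodKC AS c_wS_32_wQ_26_wN_1_rb8033061c_d41_d06x6 := p_wS_32_wQ_26_wN_1_rb8033061c_d41_d06x6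

theorem g_wS_32_wQ_26_wN_1_rb8033061c_d41_d05x6 : GoodKC AS c_wS_32_wQ_26_wN_1_rb8033061c_d41_d05x6 := p_wS_32_wQ_26_wN_1_rb8033061c_d41_d05x6

theorem g_wS_32_wQ_26_wN_1_rb8033061c_d41_d04x6 : GoodKC AS c_wS_32_wQ_26_wN_1_rb8033061c_d41_d04x6 := p_wS_32_wQ_26_wN_1_rb8033061c_d41_d04x6

theorem g__wS_32_wQ_26_wN_1_rb8033061cx6_3 : GoodKC AS k_wS_32_wQ_26_wN_1_rb8033061cx6_3 := p_wS_32_wQ_26_wN_1_rb8033061cx6_3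

theorem g__wS_32_wQ_26_wN_1_rb8033061cx6_4 : GoodKC AS k_wS_32_wQ_26_wN_1_rb8033061cx6_4 := p_wS_32_wQ_26_wN_1_rb8033061cx6_4

theorem g__wS_32_wQ_26_wN_1_rb8033061cx6_2 : GoodKC AS k_wS_32_wQ_26_wN_1_rb8033061cx6_2 := p_wS_32_wQ_26_wN_1_rb8033061cx6_2 g__wS_32_wQ_26_wN_1_rb8033061cx6_3 g__wS_32_wQ_26_wN_1_rb8033061cx6_4

theorem g__wS_32_wQ_26_wN_1_rb8033061cx6_1 : GoodKC AS k_wS_32_wQ_26_wN_1_rb8033061cx6_1 := p_wS_32_wQ_26_wN_1_rb8033061cx6_1 g__wS_32_wQ_26_wN_1_rb8033061cx6_2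

theorem g__wS_32_wQ_26_wN_1_rb8033061cx6_8 : GoodKC AS k_wS_32_wQ_26_wN_1_rb8033061cx6_8 := p_wS_32_wQ_26_wN_1_rb8033061cx6_8

theorem g__wS_32_wQ_26_wN_1_rb8033061cx6_7 : GoodKC AS k_wS_32_wQ_26_wN_1_rb8033061cx6_7 := p_wS_32_wQ_26_wN_1_rb8033061cx6_7 g__wS_32_wQ_26_wN_1_rb8033061cx6_8

theorem g__wS_32_wQ_26_wN_1_rb8033061cx6_12 : GoodKC AS k_wS_32_wQ_26_wN_1_rb8033061cx6_12 := p_wS_32_wQ_26_wN_1_rb8033061cx6_12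

theorem g__wS_32_wQ_26_wN_1_rb8033061cx6_13 : GoodKC AS k_wS_32_wQ_26_wN_1_rb8033061cx6_13 := p_wS_32_wQ_26_wN_1_rb8033061cx6_13

theorem g__wS_32_wQ_26_wN_1_rb8033061cx6_11 : GoodKC AS k_wS_32_wQ_26_wN_1_rb8033061cx6_11 := p_wS_32_wQ_26_wN_1_rb8033061cx6_11 g__wS_32_wQ_26_wN_1_rb8033061cx6_12 g__wS_32_wQ_26_wN_1_rb8033061cx6_13

theorem g__wS_32_wQ_26_wN_1_rb8033061cx6_14 : GoodKC AS k_wS_32_wQ_26_wN_1_rb8033061cx6_14 := p_wS_32_wQ_26_wN_1_rb8033061cx6_14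

theorem g__wS_32_wQ_26_wN_1_rb8033061cx6_10 : GoodKC AS k_wS_32_wQ_26_wN_1_rb8033061cx6_10 := p_wS_32_wQ_26_wN_1_rb8033061cx6_10 g__wS_32_wQ_26_wN_1_rb8033061cx6_11 g__wS_32_wQ_26_wN_1_rb8033061cx6_14

theorem g__wS_32_wQ_26_wN_1_rb8033061cx6_9 : GoodKC AS k_wS_32_wQ_26_wN_1_rb8033061cx6_9 := p_wS_32_wQ_26_wN_1_rb8033061cx6_9 g__wS_32_wQ_26_wN_1_rb8033061cx6_10

theorem g__wS_32_wQ_26_wN_1_rb8033061cx6_6 : GoodKC AS k_wS_32_wQ_26_wN_1_rb8033061cx6_6 := p_wS_32_wQ_26_wN_1_rb8033061cx6_6 g__wS_32_wQ_26_wN_1_rb8033061cx6_7 g__wS_32_wQ_26_wN_1_rb8033061cx6_9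

theorem g__wS_32_wQ_26_wN_1_rb8033061cx6_15 : GoodKC AS k_wS_32_wQ_26_wN_1_rb8033061cx6_15 := p_wS_32_wQ_26_wN_1_rb8033061cx6_15

theorem g__wS_32_wQ_26_wN_1_rb8033061cx6_20 : GoodKC AS k_wS_32_wQ_26_wN_1_rb8033061cx6_20 := p_wS_32_wQ_26_wN_1_rb8033061cx6_20

theorem g__wS_32_wQ_26_wN_1_rb8033061cx6_19 : GoodKC AS k_wS_32_wQ_26_wN_1_rb8033061cx6_19 := p_wS_32_wQ_26_wN_1_rb8033061cx6_19 g__wS_32_wQ_26_wN_1_rb8033061cx6_20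

theorem g__wS_32_wQ_26_wN_1_rb8033061cx6_18 : GoodKC AS k_wS_32_wQ_26_wN_1_rb8033061cx6_18 := p_wS_32_wQ_26_wN_1_rb8033061cx6_18 g__wS_32_wQ_26_wN_1_rb8033061cx6_19

theorem g__wS_32_wQ_26_wN_1_rb8033061cx6_17 : GoodKC AS k_wS_32_wQ_26_wN_1_rb8033061cx6_17 := p_wS_32_wQ_26_wN_1_rb8033061cx6_17 g__wS_32_wQ_26_wN_1_rb8033061cx6_18

theorem g__wS_32_wQ_26_wN_1_rb8033061cx6_21 : GoodKC AS k_wS_32_wQ_26_wN_1_rb8033061cx6_21 := p_wS_32_wQ_26_wN_1_rb8033061cx6_21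

theorem g__wS_32_wQ_26_wN_1_rb8033061cx6_16 : GoodKC AS k_wS_32_wQ_26_wN_1_rb8033061cx6_16 := p_wS_32_wQ_26_wN_1_rb8033061cx6_16 g__wS_32_wQ_26_wN_1_rb8033061cx6_17 g__wS_32_wQ_26_wN_1_rb8033061cx6_21

theorem g__wS_32_wQ_26_wN_1_rb8033061cx6_5 : GoodKC AS k_wS_32_wQ_26_wN_1_rb8033061cx6_5 := p_wS_32_wQ_26_wN_1_rb8033061cx6_5 g__wS_32_wQ_26_wN_1_rb8033061cx6_6 g__wS_32_wQ_26_wN_1_rb8033061cx6_15 g__wS_32_wQ_26_wN_1_rb8033061cx6_16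

theorem g__wS_32_wQ_26_wN_1_rb8033061cx6_0 : GoodKC AS k_wS_32_wQ_26_wN_1_rb8033061cx6_0 := p_wS_32_wQ_26_wN_1_rb8033061cx6_0 g__wS_32_wQ_26_wN_1_rb8033061cx6_1 g__wS_32_wQ_26_wN_1_rb8033061cx6_5

theorem g_wS_32_wQ_26_wN_1_rb8033061c_d41_d02x6 : GoodKC AS c_wS_32_wQ_26_wN_1_rb8033061c_d41_d02x6 := p_wS_32_wQ_26_wN_1_rb8033061c_d41_d02x7

theorem g_wS_32_wQ_26_wN_1_rb8033061c_d41_d01x6 : GoodKC AS c_wS_32_wQ_26_wN_1_rb8033061c_d41_d01x6 := p_wS_32_wQ_26_wN_1_rb8033061c_d41_d01x7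

theorem g__wS_32_wQ_26_wN_1_rb8033061c_d41_d00v4_1 : GoodKC AS k_wS_32_wQ_26_wN_1_rb8033061c_d41_d00v4_1 := p_wS_32_wQ_26_wN_1_rb8033061c_d41_d00v4_1

theorem g__wS_32_wQ_26_wN_1_rb8033061c_d41_d00v4_2 : GoodKC AS k_wS_32_wQ_26_wN_1_rb8033061c_d41_d00v4_2 := p_wS_32_wQ_26_wN_1_rb8033061c_d41_d00v4_2

theorem g__wS_32_wQ_26_wN_1_rb8033061c_d41_d00v4_6 : GoodKC AS k_wS_32_wQ_26_wN_1_rb8033061c_d41_d00v4_6 := p_wS_32_wQ_26_wN_1_rb8033061c_d41_d00v4_6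

theorem g__wS_32_wQ_26_wN_1_rb8033061c_d41_d00v4_12 : GoodKC AS k_wS_32_wQ_26_wN_1_rb8033061c_d41_d00v4_12 := p_wS_32_wQ_26_wN_1_rb8033061c_d41_d00v4_12

theorem g__wS_32_wQ_26_wN_1_rb8033061c_d41_d00v4_11 : GoodKC AS k_wS_32_wQ_26_wN_1_rb8033061c_d41_d00v4_11 := p_wS_32_wQ_26_wN_1_rb8033061c_d41_d00v4_11 g__wS_32_wQ_26_wN_1_rb8033061c_d41_d00v4_12

theorem g__wS_32_wQ_26_wN_1_rb8033061c_d41_d00v4_10 : GoodKC AS k_wS_32_wQ_26_wN_1_rb8033061c_d41_d00v4_10 := p_wS_32_wQ_26_wN_1_rb8033061c_d41_d00v4_10 g__wS_32_wQ_26_wN_1_rb8033061c_d41_d00v4_11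

theorem g__wS_32_wQ_26_wN_1_rb8033061c_d41_d00v4_9 : GoodKC AS k_wS_32_wQ_26_wN_1_rb8033061c_d41_d00v4_9 := p_wS_32_wQ_26_wN_1_rb8033061c_d41_d00v4_9 g__wS_32_wQ_26_wN_1_rb8033061c_d41_d00v4_10

theorem g__wS_32_wQ_26_wN_1_rb8033061c_d41_d00v4_8 : GoodKC AS k_wS_32_wQ_26_wN_1_rb8033061c_d41_d00v4_8 := p_wS_32_wQ_26_wN_1_rb8033061c_d41_d00v4_8 g__wS_32_wQ_26_wN_1_rb8033061c_d41_d00v4_9

theorem g__wS_32_wQ_26_wN_1_rb8033061c_d41_d00v4_7 : GoodKC AS k_wS_32_wQ_26_wN_1_rb8033061c_d41_d00v4_7 := p_wS_32_wQ_26_wN_1_rb8033061c_d41_d00v4_7 g__wS_32_wQ_26_wN_1_rb8033061c_d41_d00v4_8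

theorem g__wS_32_wQ_26_wN_1_rb8033061c_d41_d00v4_5 : GoodKC AS k_wS_32_wQ_26_wN_1_rb8033061c_d41_d00v4_5 := p_wS_32_wQ_26_wN_1_rb8033061c_d41_d00v4_5 g__wS_32_wQ_26_wN_1_rb8033061c_d41_d00v4_6 g__wS_32_wQ_26_wN_1_rb8033061c_d41_d00v4_7

theorem g__wS_32_wQ_26_wN_1_rb8033061c_d41_d00v4_4 : GoodKC AS k_wS_32_wQ_26_wN_1_rb8033061c_d41_d00v4_4 := p_wS_32_wQ_26_wN_1_rb8033061c_d41_d00v4_4 g__wS_32_wQ_26_wN_1_rb8033061c_d41_d00v4_5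

theorem g__wS_32_wQ_26_wN_1_rb8033061c_d41_d00v4_3 : GoodKC AS k_wS_32_wQ_26_wN_1_rb8033061c_d41_d00v4_3 := p_wS_32_wQ_26_wN_1_rb8033061c_d41_d00v4_3 g__wS_32_wQ_26_wN_1_rb8033061c_d41_d00v4_4

theorem g__wS_32_wQ_26_wN_1_rb8033061c_d41_d00v4_0 : GoodKC AS k_wS_32_wQ_26_wN_1_rb8033061c_d41_d00v4_0 := p_wS_32_wQ_26_wN_1_rb8033061c_d41_d00v4_0 g__wS_32_wQ_26_wN_1_rb8033061c_d41_d00v4_1 g__wS_32_wQ_26_wN_1_rb8033061c_d41_d00v4_2 g__wS_32_wQ_26_wN_1_rb8033061c_d41_d00v4_3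

theorem g_wS_32_wQ_26_wN_1_rb8033061c_d41_d00x6 : GoodKC AS c_wS_32_wQ_26_wN_1_rb8033061c_d41_d00x6 := p_wS_32_wQ_26_wN_1_rb8033061c_d41_d00x4 g__wS_32_wQ_26_wN_1_rb8033061c_d41_d00v4_0

theorem g_wS_32_wQ_26_wN_1_rb8033061c_d41_d03x6 : GoodKC AS c_wS_32_wQ_26_wN_1_rb8033061c_d41_d03x6 := p_wS_32_wQ_26_wN_1_rb8033061c_d41_d03x7

theorem g__wS_32_wQ_26_wN_1_rb8033061c_d41_d07x6_0 : GoodKC AS k_wS_32_wQ_26_wN_1_rb8033061c_d41_d07x6_0 := p_wS_32_wQ_26_wN_1_rb8033061c_d41_d07x6_0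

theorem g_wS_32_wQ_26_wN_1_rb8033061c_d41_d07x6 : GoodKC AS c_wS_32_wQ_26_wN_1_rb8033061c_d41_d07x6 := p_wS_32_wQ_26_wN_1_rb8033061c_d41_d07x6 g__wS_32_wQ_26_wN_1_rb8033061c_d41_d07x6_0

theorem g__wS_32_wQ_26_wN_1_rb8033061c_d41_d08x6_0 : GoodKC AS k_wS_32_wQ_26_wN_1_rb8033061c_d41_d08x6_0 := p_wS_32_wQ_26_wN_1_rb8033061c_d41_d08x6_0

theorem g_wS_32_wQ_26_wN_1_rb8033061c_d41_d08x6 : GoodKC AS c_wS_32_wQ_26_wN_1_rb8033061c_d41_d08x6 := p_wS_32_wQ_26_wN_1_rb8033061c_d41_d08x6 g__wS_32_wQ_26_wN_1_rb8033061c_d41_d08x6_0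

theorem g_wS_32_wQ_26_wN_1_rb8033061c_d41_d09x6 : GoodKC AS c_wS_32_wQ_26_wN_1_rb8033061c_d41_d09x6 := p_wS_32_wQ_26_wN_1_rb8033061c_d41_d09x6

theorem g_wS_32_wQ_26_wN_1_rb8033061c_d41_d0cx6 : GoodKC AS c_wS_32_wQ_26_wN_1_rb8033061c_d41_d0cx6 := p_wS_32_wQ_26_wN_1_rb8033061c_d41_d0cx7

theorem g_wS_32_wQ_26_wN_1_rb8033061c_d41_d0ex6 : GoodKC AS c_wS_32_wQ_26_wN_1_rb8033061c_d41_d0ex6 := p_wS_32_wQ_26_wN_1_rb8033061c_d41_d0ex7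

theorem g__wS_32_wQ_26_wN_1_rb8033061cx6_25 : GoodKC AS k_wS_32_wQ_26_wN_1_rb8033061cx6_25 := p_wS_32_wQ_26_wN_1_rb8033061cx6_25

theorem g__wS_32_wQ_26_wN_1_rb8033061cx6_24 : GoodKC AS k_wS_32_wQ_26_wN_1_rb8033061cx6_24 := p_wS_32_wQ_26_wN_1_rb8033061cx6_24 g__wS_32_wQ_26_wN_1_rb8033061cx6_25

theorem g__wS_32_wQ_26_wN_1_rb8033061cx6_26 : GoodKC AS k_wS_32_wQ_26_wN_1_rb8033061cx6_26 := p_wS_32_wQ_26_wN_1_rb8033061cx6_26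

theorem g__wS_32_wQ_26_wN_1_rb8033061cx6_29 : GoodKC AS k_wS_32_wQ_26_wN_1_rb8033061cx6_29 := p_wS_32_wQ_26_wN_1_rb8033061cx6_29

theorem g__wS_32_wQ_26_wN_1_rb8033061cx6_28 : GoodKC AS k_wS_32_wQ_26_wN_1_rb8033061cx6_28 := p_wS_32_wQ_26_wN_1_rb8033061cx6_28 g__wS_32_wQ_26_wN_1_rb8033061cx6_29

theorem g__wS_32_wQ_26_wN_1_rb8033061cx6_27 : GoodKC AS k_wS_32_wQ_26_wN_1_rb8033061cx6_27 := p_wS_32_wQ_26_wN_1_rb8033061cx6_27 g__wS_32_wQ_26_wN_1_rb8033061cx6_28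

theorem g__wS_32_wQ_26_wN_1_rb8033061cx6_23 : GoodKC AS k_wS_32_wQ_26_wN_1_rb8033061cx6_23 := p_wS_32_wQ_26_wN_1_rb8033061cx6_23 g__wS_32_wQ_26_wN_1_rb8033061cx6_24 g__wS_32_wQ_26_wN_1_rb8033061cx6_26 g__wS_32_wQ_26_wN_1_rb8033061cx6_27

theorem g__wS_32_wQ_26_wN_1_rb8033061cx6_31 : GoodKC AS k_wS_32_wQ_26_wN_1_rb8033061cx6_31 := p_wS_32_wQ_26_wN_1_rb8033061cx6_31

theorem g__wS_32_wQ_26_wN_1_rb8033061cx6_30 : GoodKC AS k_wS_32_wQ_26_wN_1_rb8033061cx6_30 := p_wS_32_wQ_26_wN_1_rb8033061cx6_30 g__wS_32_wQ_26_wN_1_rb8033061cx6_31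

theorem g__wS_32_wQ_26_wN_1_rb8033061cx6_22 : GoodKC AS k_wS_32_wQ_26_wN_1_rb8033061cx6_22 := p_wS_32_wQ_26_wN_1_rb8033061cx6_22 g__wS_32_wQ_26_wN_1_rb8033061cx6_23 g__wS_32_wQ_26_wN_1_rb8033061cx6_30

theorem g__wS_32_wQ_26_wN_1_rb8033061cx6_35 : GoodKC AS k_wS_32_wQ_26_wN_1_rb8033061cx6_35 := p_wS_32_wQ_26_wN_1_rb8033061cx6_35

theorem g__wS_32_wQ_26_wN_1_rb8033061cx6_41 : GoodKC AS k_wS_32_wQ_26_wN_1_rb8033061cx6_41 := p_wS_32_wQ_26_wN_1_rb8033061cx6_41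

theorem g__wS_32_wQ_26_wN_1_rb8033061cx6_40 : GoodKC AS k_wS_32_wQ_26_wN_1_rb8033061cx6_40 := p_wS_32_wQ_26_wN_1_rb8033061cx6_40 g__wS_32_wQ_26_wN_1_rb8033061cx6_41

theorem g__wS_32_wQ_26_wN_1_rb8033061cx6_39 : GoodKC AS k_wS_32_wQ_26_wN_1_rb8033061cx6_39 := p_wS_32_wQ_26_wN_1_rb8033061cx6_39 g__wS_32_wQ_26_wN_1_rb8033061cx6_40

theorem g__wS_32_wQ_26_wN_1_rb8033061cx6_38 : GoodKC AS k_wS_32_wQ_26_wN_1_rb8033061cx6_38 := p_wS_32_wQ_26_wN_1_rb8033061cx6_38 g__wS_32_wQ_26_wN_1_rb8033061cx6_39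

theorem g__wS_32_wQ_26_wN_1_rb8033061cx6_37 : GoodKC AS k_wS_32_wQ_26_wN_1_rb8033061cx6_37 := p_wS_32_wQ_26_wN_1_rb8033061cx6_37 g__wS_32_wQ_26_wN_1_rb8033061cx6_38

theorem g__wS_32_wQ_26_wN_1_rb8033061cx6_42 : GoodKC AS k_wS_32_wQ_26_wN_1_rb8033061cx6_42 := p_wS_32_wQ_26_wN_1_rb8033061cx6_42

theorem g__wS_32_wQ_26_wN_1_rb8033061cx6_36 : GoodKC AS k_wS_32_wQ_26_wN_1_rb8033061cx6_36 := p_wS_32_wQ_26_wN_1_rb8033061cx6_36 g__wS_32_wQ_26_wN_1_rb8033061cx6_37 g__wS_32_wQ_26_wN_1_rb8033061cx6_42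

theorem g__wS_32_wQ_26_wN_1_rb8033061cx6_34 : GoodKC AS k_wS_32_wQ_26_wN_1_rb8033061cx6_34 := p_wS_32_wQ_26_wN_1_rb8033061cx6_34 g__wS_32_wQ_26_wN_1_rb8033061cx6_35 g__wS_32_wQ_26_wN_1_rb8033061cx6_36

theorem g__wS_32_wQ_26_wN_1_rb8033061cx6_45 : GoodKC AS k_wS_32_wQ_26_wN_1_rb8033061cx6_45 := p_wS_32_wQ_26_wN_1_rb8033061cx6_45

theorem g__wS_32_wQ_26_wN_1_rb8033061cx6_44 : GoodKC AS k_wS_32_wQ_26_wN_1_rb8033061cx6_44 := p_wS_32_wQ_26_wN_1_rb8033061cx6_44 g__wS_32_wQ_26_wN_1_rb8033061cx6_45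

theorem g__wS_32_wQ_26_wN_1_rb8033061cx6_47 : GoodKC AS k_wS_32_wQ_26_wN_1_rb8033061cx6_47 := p_wS_32_wQ_26_wN_1_rb8033061cx6_47

theorem g__wS_32_wQ_26_wN_1_rb8033061cx6_48 : GoodKC AS k_wS_32_wQ_26_wN_1_rb8033061cx6_48 := p_wS_32_wQ_26_wN_1_rb8033061cx6_48

theorem g__wS_32_wQ_26_wN_1_rb8033061cx6_46 : GoodKC AS k_wS_32_wQ_26_wN_1_rb8033061cx6_46 := p_wS_32_wQ_26_wN_1_rb8033061cx6_46 g__wS_32_wQ_26_wN_1_rb8033061cx6_47 g__wS_32_wQ_26_wN_1_rb8033061cx6_48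

theorem g__wS_32_wQ_26_wN_1_rb8033061cx6_43 : GoodKC AS k_wS_32_wQ_26_wN_1_rb8033061cx6_43 := p_wS_32_wQ_26_wN_1_rb8033061cx6_43 g__wS_32_wQ_26_wN_1_rb8033061cx6_44 g__wS_32_wQ_26_wN_1_rb8033061cx6_46

theorem g__wS_32_wQ_26_wN_1_rb8033061cx6_33 : GoodKC AS k_wS_32_wQ_26_wN_1_rb8033061cx6_33 := p_wS_32_wQ_26_wN_1_rb8033061cx6_33 g__wS_32_wQ_26_wN_1_rb8033061cx6_34 g__wS_32_wQ_26_wN_1_rb8033061cx6_43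

theorem g__wS_32_wQ_26_wN_1_rb8033061cx6_32 : GoodKC AS k_wS_32_wQ_26_wN_1_rb8033061cx6_32 := p_wS_32_wQ_26_wN_1_rb8033061cx6_32 g__wS_32_wQ_26_wN_1_rb8033061cx6_33

theorem g__wS_32_wQ_26_wN_1_rb8033061c_d41_d13x6_0 : GoodKC AS k_wS_32_wQ_26_wN_1_rb8033061c_d41_d13x6_0 := p_wS_32_wQ_26_wN_1_rb8033061c_d41_d13x6_0

theorem g__wS_32_wQ_26_wN_1_rb8033061c_d41_d13x6_1 : GoodKC AS k_wS_32_wQ_26_wN_1_rb8033061c_d41_d13x6_1 := p_wS_32_wQ_26_wN_1_rb8033061c_d41_d13x6_1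

theorem g_wS_32_wQ_26_wN_1_rb8033061c_d41_d13x6 : GoodKC AS c_wS_32_wQ_26_wN_1_rb8033061c_d41_d13x6 := p_wS_32_wQ_26_wN_1_rb8033061c_d41_d13x6 g__wS_32_wQ_26_wN_1_rb8033061c_d41_d13x6_0 g__wS_32_wQ_26_wN_1_rb8033061c_d41_d13x6_1

theorem g_wS_32_wQ_26_wN_1_rb8033061cx17 : GoodKC AS c_wS_32_wQ_26_wN_1_rb8033061cx17 := p_wS_32_wQ_26_wN_1_rb8033061cx6 g_wS_32_wQ_26_wN_1_rb8033061c_d41_d17x6 g_wS_32_wQ_26_wN_1_rb8033061c_d41_d16x6 g_wS_32_wQ_26_wN_1_rb8033061c_d41_d15x6 g_wS_32_wQ_26_wN_1_rb8033061c_d41_d14x6 g_wS_32_wQ_26_wN_1_rb8033061c_d41_d12x6 g_wS_32_wQ_26_wN_1_rb8033061c_d41_d11x6 g_wS_32_wQ_26_wN_1_rb8033061c_d41_d10x6 g_wS_32_wQ_26_wN_1_rb8033061c_d41_d0fx6 g_wS_32_wQ_26_wN_1_rb8033061c_d41_d0dx6 g_wS_32_wQ_26_wN_1_rb8033061c_d41_d0bx6 g_wS_32_wQ_26_wN_1_rb8033061c_d41_d0ax6 g_wS_32_wQ_26_wN_1_rb8033061c_d41_d06x6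 g_wS_32_wQ_26_wN_1_rb8033061c_d41_d05x6 g_wS_32_wQ_26_wN_1_rb8033061c_d41_d04x6 g__wS_32_wQ_26_wN_1_rb8033061cx6_0 g_wS_32_wQ_26_wN_1_rb8033061c_d41_d02x6 g_wS_32_wQ_26_wN_1_rb8033061c_d41_d01x6 g_wS_32_wQ_26_wN_1_rb8033061c_d41_d00x6 g_wS_32_wQ_26_wN_1_rb8033061c_d41_d03x6 g_wS_32_wQ_26_wN_1_rb8033061c_d41_d07x6 g_wS_32_wQ_26_wN_1_rb8033061c_d41_d08x6 g_wS_32_wQ_26_wN_1_rb8033061c_d41_d09x6 g_wS_32_wQ_26_wN_1_rb8033061c_d41_d0cx6 g_wS_32_wQ_26_wN_1_rb8033061c_d41_d0ex6 g__wS_32_wQ_26_wN_1_rb8033061cx6_22 g__wS_32_wQ_26_wN_1_rb8033061cx6_32 g_wS_32_wQ_26_wN_1_rb8033061c_d41_d13x6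

theorem g_wS_32_wQ_26_wN_1_rb80330620x17 : GoodKC AS c_wS_32_wQ_26_wN_1_rb80330620x17 := p_wS_32_wQ_26_wN_1_rb80330620x7

theorem g_wS_32_wQ_26_wN_1_rb8033062259_d51_d31 : GoodKC AS c_wS_32_wQ_26_wN_1_rb8033062259_d51_d31 := p_wS_32_wQ_26_wN_1_rb8033062259_d51_d31

theorem g__wS_32_wQ_26_wN_1_rb8033062259_d51_d30_0 : GoodKC AS k_wS_32_wQ_26_wN_1_rb8033062259_d51_d30_0 := p_wS_32_wQ_26_wN_1_rb8033062259_d51_d30_0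

theorem g_wS_32_wQ_26_wN_1_rb8033062259_d51_d30 : GoodKC AS c_wS_32_wQ_26_wN_1_rb8033062259_d51_d30 := p_wS_32_wQ_26_wN_1_rb8033062259_d51_d30 g__wS_32_wQ_26_wN_1_rb8033062259_d51_d30_0

theorem g_wS_32_wQ_26_wN_1_rb8033062259_d51_d2f : GoodKC AS c_wS_32_wQ_26_wN_1_rb8033062259_d51_d2f := p_wS_32_wQ_26_wN_1_rb8033062259_d51_d2f

theorem g_wS_32_wQ_26_wN_1_rb8033062259_d51_d2d : GoodKC AS c_wS_32_wQ_26_wN_1_rb8033062259_d51_d2d := p_wS_32_wQ_26_wN_1_rb8033062259_d51_d2d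

theorem g_wS_32_wQ_26_wN_1_rb8033062259_d51_d2c : GoodKC AS c_wS_32_wQ_26_wN_1_rb8033062259_d51_d2c := p_wS_32_wQ_26_wN_1_rb8033062259_d51_d2c

theorem g__wS_32_wQ_26_wN_1_rb8033062259_d51_d2b_1 : GoodKC AS k_wS_32_wQ_26_wN_1_rb8033062259_d51_d2b_1 := p_wS_32_wQ_26_wN_1_rb8033062259_d51_d2b_1

theorem g__wS_32_wQ_26_wN_1_rb8033062259_d51_d2b_5 : GoodKC AS k_wS_32_wQ_26_wN_1_rb8033062259_d51_d2b_5 := p_wS_32_wQ_26_wN_1_rb8033062259_d51_d2b_5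

theorem g__wS_32_wQ_26_wN_1_rb8033062259_d51_d2b_6 : GoodKC AS k_wS_32_wQ_26_wN_1_rb8033062259_d51_d2b_6 := p_wS_32_wQ_26_wN_1_rb8033062259_d51_d2b_6

theorem g__wS_32_wQ_26_wN_1_rb8033062259_d51_d2b_4 : GoodKC AS k_wS_32_wQ_26_wN_1_rb8033062259_d51_d2b_4 := p_wS_32_wQ_26_wN_1_rb8033062259_d51_d2b_4 g__wS_32_wQ_26_wN_1_rb8033062259_d51_d2b_5 g__wS_32_wQ_26_wN_1_rb8033062259_d51_d2b_6

theorem g__wS_32_wQ_26_wN_1_rb8033062259_d51_d2b_3 : GoodKC AS k_wS_32_wQ_26_wN_1_rb8033062259_d51_d2b_3 := p_wS_32_wQ_26_wN_1_rb8033062259_d51_d2b_3 g__wS_32_wQ_26_wN_1_rb8033062259_d51_d2b_4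

theorem g__wS_32_wQ_26_wN_1_rb8033062259_d51_d2b_8 : GoodKC AS k_wS_32_wQ_26_wN_1_rb8033062259_d51_d2b_8 := p_wS_32_wQ_26_wN_1_rb8033062259_d51_d2b_8

theorem g__wS_32_wQ_26_wN_1_rb8033062259_d51_d2b_7 : GoodKC AS k_wS_32_wQ_26_wN_1_rb8033062259_d51_d2b_7 := p_wS_32_wQ_26_wN_1_rb8033062259_d51_d2b_7 g__wS_32_wQ_26_wN_1_rb8033062259_d51_d2b_8

theorem g__wS_32_wQ_26_wN_1_rb8033062259_d51_d2b_9 : GoodKC AS k_wS_32_wQ_26_wN_1_rb8033062259_d51_d2b_9 := p_wS_32_wQ_26_wN_1_rb8033062259_d51_d2b_9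

theorem g__wS_32_wQ_26_wN_1_rb8033062259_d51_d2b_2 : GoodKC AS k_wS_32_wQ_26_wN_1_rb8033062259_d51_d2b_2 := p_wS_32_wQ_26_wN_1_rb8033062259_d51_d2b_2 g__wS_32_wQ_26_wN_1_rb8033062259_d51_d2b_3 g__wS_32_wQ_26_wN_1_rb8033062259_d51_d2b_7 g__wS_32_wQ_26_wN_1_rb8033062259_d51_d2b_9

theorem g__wS_32_wQ_26_wN_1_rb8033062259_d51_d2b_11 : GoodKC AS k_wS_32_wQ_26_wN_1_rb8033062259_d51_d2b_11 := p_wS_32_wQ_26_wN_1_rb8033062259_d51_d2b_11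

theorem g__wS_32_wQ_26_wN_1_rb8033062259_d51_d2b_10 : GoodKC AS k_wS_32_wQ_26_wN_1_rb8033062259_d51_d2b_10 := p_wS_32_wQ_26_wN_1_rb8033062259_d51_d2b_10 g__wS_32_wQ_26_wN_1_rb8033062259_d51_d2b_11

theorem g__wS_32_wQ_26_wN_1_rb8033062259_d51_d2b_0 : GoodKC AS k_wS_32_wQ_26_wN_1_rb8033062259_d51_d2b_0 := p_wS_32_wQ_26_wN_1_rb8033062259_d51_d2b_0 g__wS_32_wQ_26_wN_1_rb8033062259_d51_d2b_1 g__wS_32_wQ_26_wN_1_rb8033062259_d51_d2b_2 g__wS_32_wQ_26_wN_1_rb8033062259_d51_d2b_10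

theorem g_wS_32_wQ_26_wN_1_rb8033062259_d51_d2b : GoodKC AS c_wS_32_wQ_26_wN_1_rb8033062259_d51_d2b := p_wS_32_wQ_26_wN_1_rb8033062259_d51_d2b g__wS_32_wQ_26_wN_1_rb8033062259_d51_d2b_0

theorem g_wS_32_wQ_26_wN_1_rb8033062259_d51_d2a : GoodKC AS c_wS_32_wQ_26_wN_1_rb8033062259_d51_d2a := p_wS_32_wQ_26_wN_1_rb8033062259_d51_d2a

theorem g_wS_32_wQ_26_wN_1_rb8033062259_d51_d29 : GoodKC AS c_wS_32_wQ_26_wN_1_rb8033062259_d51_d29 := p_wS_32_wQ_26_wN_1_rb8033062259_d51_d29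

theorem g_wS_32_wQ_26_wN_1_rb8033062259_d51_d27 : GoodKC AS c_wS_32_wQ_26_wN_1_rb8033062259_d51_d27 := p_wS_32_wQ_26_wN_1_rb8033062259_d51_d27

theorem g_wS_32_wQ_26_wN_1_rb8033062259_d51_d23 : GoodKC AS c_wS_32_wQ_26_wN_1_rb8033062259_d51_d23 := p_wS_32_wQ_26_wN_1_rb8033062259_d51_d23

theorem g_wS_32_wQ_26_wN_1_rb8033062259_d51_d22 : GoodKC AS c_wS_32_wQ_26_wN_1_rb8033062259_d51_d22 := p_wS_32_wQ_26_wN_1_rb8033062259_d51_d22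

theorem g_wS_32_wQ_26_wN_1_rb8033062259_d51_d21 : GoodKC AS c_wS_32_wQ_26_wN_1_rb8033062259_d51_d21 := p_wS_32_wQ_26_wN_1_rb8033062259_d51_d21

theorem g_wS_32_wQ_26_wN_1_rb8033062259_d51_d1f : GoodKC AS c_wS_32_wQ_26_wN_1_rb8033062259_d51_d1f := p_wS_32_wQ_26_wN_1_rb8033062259_d51_d1f

theorem g_wS_32_wQ_26_wN_1_rb8033062259_d51_d1b : GoodKC AS c_wS_32_wQ_26_wN_1_rb8033062259_d51_d1b := p_wS_32_wQ_26_wN_1_rb8033062259_d51_d1b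

theorem g_wS_32_wQ_26_wN_1_rb8033062259_d51_d19 : GoodKC AS c_wS_32_wQ_26_wN_1_rb8033062259_d51_d19 := p_wS_32_wQ_26_wN_1_rb8033062259_d51_d19

theorem g_wS_32_wQ_26_wN_1_rb8033062259_d51_d18 : GoodKC AS c_wS_32_wQ_26_wN_1_rb8033062259_d51_d18 := p_wS_32_wQ_26_wN_1_rb8033062259_d51_d18

theorem g_wS_32_wQ_26_wN_1_rb8033062259_d51_d17 : GoodKC AS c_wS_32_wQ_26_wN_1_rb8033062259_d51_d17 := p_wS_32_wQ_26_wN_1_rb8033062259_d51_d17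

theorem g_wS_32_wQ_26_wN_1_rb8033062259_d51_d16 : GoodKC AS c_wS_32_wQ_26_wN_1_rb8033062259_d51_d16 := p_wS_32_wQ_26_wN_1_rb8033062259_d51_d16

theorem g__wS_32_wQ_26_wN_1_rb8033062259_d51_d15_0 : GoodKC AS k_wS_32_wQ_26_wN_1_rb8033062259_d51_d15_0 := p_wS_32_wQ_26_wN_1_rb8033062259_d51_d15_0

theorem g_wS_32_wQ_26_wN_1_rb8033062259_d51_d15 : GoodKC AS c_wS_32_wQ_26_wN_1_rb8033062259_d51_d15 := p_wS_32_wQ_26_wN_1_rb8033062259_d51_d15 g__wS_32_wQ_26_wN_1_rb8033062259_d51_d15_0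

theorem g_wS_32_wQ_26_wN_1_rb8033062259_d51_d14 : GoodKC AS c_wS_32_wQ_26_wN_1_rb8033062259_d51_d14 := p_wS_32_wQ_26_wN_1_rb8033062259_d51_d14

theorem g_wS_32_wQ_26_wN_1_rb8033062259_d51_d13 : GoodKC AS c_wS_32_wQ_26_wN_1_rb8033062259_d51_d13 := p_wS_32_wQ_26_wN_1_rb8033062259_d51_d13

theorem g_wS_32_wQ_26_wN_1_rb8033062259_d51_d12 : GoodKC AS c_wS_32_wQ_26_wN_1_rb8033062259_d51_d12 := p_wS_32_wQ_26_wN_1_rb8033062259_d51_d12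

theorem g_wS_32_wQ_26_wN_1_rb8033062259_d51_d11 : GoodKC AS c_wS_32_wQ_26_wN_1_rb8033062259_d51_d11 := p_wS_32_wQ_26_wN_1_rb8033062259_d51_d11

theorem g__wS_32_wQ_26_wN_1_rb8033062259_d51_d10_4 : GoodKC AS k_wS_32_wQ_26_wN_1_rb8033062259_d51_d10_4 := p_wS_32_wQ_26_wN_1_rb8033062259_d51_d10_4

theorem g__wS_32_wQ_26_wN_1_rb8033062259_d51_d10_3 : GoodKC AS k_wS_32_wQ_26_wN_1_rb8033062259_d51_d10_3 := p_wS_32_wQ_26_wN_1_rb8033062259_d51_d10_3 g__wS_32_wQ_26_wN_1_rb8033062259_d51_d10_4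

theorem g__wS_32_wQ_26_wN_1_rb8033062259_d51_d10_2 : GoodKC AS k_wS_32_wQ_26_wN_1_rb8033062259_d51_d10_2 := p_wS_32_wQ_26_wN_1_rb8033062259_d51_d10_2 g__wS_32_wQ_26_wN_1_rb8033062259_d51_d10_3

theorem g__wS_32_wQ_26_wN_1_rb8033062259_d51_d10_1 : GoodKC AS k_wS_32_wQ_26_wN_1_rb8033062259_d51_d10_1 := p_wS_32_wQ_26_wN_1_rb8033062259_d51_d10_1 g__wS_32_wQ_26_wN_1_rb8033062259_d51_d10_2

theorem g__wS_32_wQ_26_wN_1_rb8033062259_d51_d10_5 : GoodKC AS k_wS_32_wQ_26_wN_1_rb8033062259_d51_d10_5 := p_wS_32_wQ_26_wN_1_rb8033062259_d51_d10_5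

theorem g__wS_32_wQ_26_wN_1_rb8033062259_d51_d10_6 : GoodKC AS k_wS_32_wQ_26_wN_1_rb8033062259_d51_d10_6 := p_wS_32_wQ_26_wN_1_rb8033062259_d51_d10_6

theorem g__wS_32_wQ_26_wN_1_rb8033062259_d51_d10_0 : GoodKC AS k_wS_32_wQ_26_wN_1_rb8033062259_d51_d10_0 := p_wS_32_wQ_26_wN_1_rb8033062259_d51_d10_0 g__wS_32_wQ_26_wN_1_rb8033062259_d51_d10_1 g__wS_32_wQ_26_wN_1_rb8033062259_d51_d10_5 g__wS_32_wQ_26_wN_1_rb8033062259_d51_d10_6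

theorem g_wS_32_wQ_26_wN_1_rb8033062259_d51_d10 : GoodKC AS c_wS_32_wQ_26_wN_1_rb8033062259_d51_d10 := p_wS_32_wQ_26_wN_1_rb8033062259_d51_d10 g__wS_32_wQ_26_wN_1_rb8033062259_d51_d10_0

theorem g_wS_32_wQ_26_wN_1_rb8033062259_d51_d0f : GoodKC AS c_wS_32_wQ_26_wN_1_rb8033062259_d51_d0f := p_wS_32_wQ_26_wN_1_rb8033062259_d51_d0f

theorem g_wS_32_wQ_26_wN_1_rb8033062259_d51_d0e : GoodKC AS c_wS_32_wQ_26_wN_1_rb8033062259_d51_d0e := p_wS_32_wQ_26_wN_1_rb8033062259_d51_d0e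

theorem g_wS_32_wQ_26_wN_1_rb8033062259_d51_d0b : GoodKC AS c_wS_32_wQ_26_wN_1_rb8033062259_d51_d0b := p_wS_32_wQ_26_wN_1_rb8033062259_d51_d0b

theorem g_wS_32_wQ_26_wN_1_rb8033062259_d51_d0a : GoodKC AS c_wS_32_wQ_26_wN_1_rb8033062259_d51_d0a := p_wS_32_wQ_26_wN_1_rb8033062259_d51_d0a

theorem g_wS_32_wQ_26_wN_1_rb8033062259_d51_d09 : GoodKC AS c_wS_32_wQ_26_wN_1_rb8033062259_d51_d09 := p_wS_32_wQ_26_wN_1_rb8033062259_d51_d09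

theorem g_wS_32_wQ_26_wN_1_rb8033062259_d51_d08 : GoodKC AS c_wS_32_wQ_26_wN_1_rb8033062259_d51_d08 := p_wS_32_wQ_26_wN_1_rb8033062259_d51_d08

theorem g_wS_32_wQ_26_wN_1_rb8033062259_d51_d07 : GoodKC AS c_wS_32_wQ_26_wN_1_rb8033062259_d51_d07 := p_wS_32_wQ_26_wN_1_rb8033062259_d51_d07

theorem g_wS_32_wQ_26_wN_1_rb8033062259_d51_d06 : GoodKC AS c_wS_32_wQ_26_wN_1_rb8033062259_d51_d06 := p_wS_32_wQ_26_wN_1_rb8033062259_d51_d06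

theorem g_wS_32_wQ_26_wN_1_rb8033062259_d51_d05 : GoodKC AS c_wS_32_wQ_26_wN_1_rb8033062259_d51_d05 := p_wS_32_wQ_26_wN_1_rb8033062259_d51_d05

theorem g_wS_32_wQ_26_wN_1_rb8033062259_d51_d04 : GoodKC AS c_wS_32_wQ_26_wN_1_rb8033062259_d51_d04 := p_wS_32_wQ_26_wN_1_rb8033062259_d51_d04

theorem g_wS_32_wQ_26_wN_1_rb8033062259_d51_d03 : GoodKC AS c_wS_32_wQ_26_wN_1_rb8033062259_d51_d03 := p_wS_32_wQ_26_wN_1_rb8033062259_d51_d03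

theorem g_wS_32_wQ_26_wN_1_rb8033062259_d51_d02 : GoodKC AS c_wS_32_wQ_26_wN_1_rb8033062259_d51_d02 := p_wS_32_wQ_26_wN_1_rb8033062259_d51_d02

theorem g_wS_32_wQ_26_wN_1_rb8033062259_d51_d00 : GoodKC AS c_wS_32_wQ_26_wN_1_rb8033062259_d51_d00 := p_wS_32_wQ_26_wN_1_rb8033062259_d51_d00

theorem g_wS_32_wQ_26_wN_1_rb8033062259_d51_d01 : GoodKC AS c_wS_32_wQ_26_wN_1_rb8033062259_d51_d01 := p_wS_32_wQ_26_wN_1_rb8033062259_d51_d01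

theorem g_wS_32_wQ_26_wN_1_rb8033062259_d51_d0c : GoodKC AS c_wS_32_wQ_26_wN_1_rb8033062259_d51_d0c := p_wS_32_wQ_26_wN_1_rb8033062259_d51_d0c

theorem g_wS_32_wQ_26_wN_1_rb8033062259_d51_d0d : GoodKC AS c_wS_32_wQ_26_wN_1_rb8033062259_d51_d0d := p_wS_32_wQ_26_wN_1_rb8033062259_d51_d0d

theorem g_wS_32_wQ_26_wN_1_rb8033062259_d51_d1a : GoodKC AS c_wS_32_wQ_26_wN_1_rb8033062259_d51_d1a := p_wS_32_wQ_26_wN_1_rb8033062259_d51_d1a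

theorem g__wS_32_wQ_26_wN_1_rb8033062259_d51_d1c_1 : GoodKC AS k_wS_32_wQ_26_wN_1_rb8033062259_d51_d1c_1 := p_wS_32_wQ_26_wN_1_rb8033062259_d51_d1c_1

theorem g__wS_32_wQ_26_wN_1_rb8033062259_d51_d1c_2 : GoodKC AS k_wS_32_wQ_26_wN_1_rb8033062259_d51_d1c_2 := p_wS_32_wQ_26_wN_1_rb8033062259_d51_d1c_2

theorem g__wS_32_wQ_26_wN_1_rb8033062259_d51_d1c_3 : GoodKC AS k_wS_32_wQ_26_wN_1_rb8033062259_d51_d1c_3 := p_wS_32_wQ_26_wN_1_rb8033062259_d51_d1c_3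

theorem g__wS_32_wQ_26_wN_1_rb8033062259_d51_d1c_4 : GoodKC AS k_wS_32_wQ_26_wN_1_rb8033062259_d51_d1c_4 := p_wS_32_wQ_26_wN_1_rb8033062259_d51_d1c_4

theorem g__wS_32_wQ_26_wN_1_rb8033062259_d51_d1c_0 : GoodKC AS k_wS_32_wQ_26_wN_1_rb8033062259_d51_d1c_0 := p_wS_32_wQ_26_wN_1_rb8033062259_d51_d1c_0 g__wS_32_wQ_26_wN_1_rb8033062259_d51_d1c_1 g__wS_32_wQ_26_wN_1_rb8033062259_d51_d1c_2 g__wS_32_wQ_26_wN_1_rb8033062259_d51_d1c_3 g__wS_32_wQ_26_wN_1_rb8033062259_d51_d1c_4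

theorem g_wS_32_wQ_26_wN_1_rb8033062259_d51_d1c : GoodKC AS c_wS_32_wQ_26_wN_1_rb8033062259_d51_d1c := p_wS_32_wQ_26_wN_1_rb8033062259_d51_d1c g__wS_32_wQ_26_wN_1_rb8033062259_d51_d1c_0

theorem g_wS_32_wQ_26_wN_1_rb8033062259_d51_d1d2c : GoodKC AS c_wS_32_wQ_26_wN_1_rb8033062259_d51_d1d2c := p_wS_32_wQ_26_wN_1_rb8033062259_d51_d1d2c

theorem g_wS_32_wQ_26_wN_1_rb8033062259_d51_d1d2b : GoodKC AS c_wS_32_wQ_26_wN_1_rb8033062259_d51_d1d2b := p_wS_32_wQ_26_wN_1_rb8033062259_d51_d1d2b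

theorem g_wS_32_wQ_26_wN_1_rb8033062259_d51_d1d2a : GoodKC AS c_wS_32_wQ_26_wN_1_rb8033062259_d51_d1d2a := p_wS_32_wQ_26_wN_1_rb8033062259_d51_d1d2a

theorem g_wS_32_wQ_26_wN_1_rb8033062259_d51_d1d29 : GoodKC AS c_wS_32_wQ_26_wN_1_rb8033062259_d51_d1d29 := p_wS_32_wQ_26_wN_1_rb8033062259_d51_d1d29

theorem g_wS_32_wQ_26_wN_1_rb8033062259_d51_d1d28 : GoodKC AS c_wS_32_wQ_26_wN_1_rb8033062259_d51_d1d28 := p_wS_32_wQ_26_wN_1_rb8033062259_d51_d1d28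

theorem g__wS_32_wQ_26_wN_1_rb8033062259_d51_d1d27_0 : GoodKC AS k_wS_32_wQ_26_wN_1_rb8033062259_d51_d1d27_0 := p_wS_32_wQ_26_wN_1_rb8033062259_d51_d1d27_0

theorem g_wS_32_wQ_26_wN_1_rb8033062259_d51_d1d27 : GoodKC AS c_wS_32_wQ_26_wN_1_rb8033062259_d51_d1d27 := p_wS_32_wQ_26_wN_1_rb8033062259_d51_d1d27 g__wS_32_wQ_26_wN_1_rb8033062259_d51_d1d27_0

theorem g_wS_32_wQ_26_wN_1_rb8033062259_d51_d1d26 : GoodKC AS c_wS_32_wQ_26_wN_1_rb8033062259_d51_d1d26 := p_wS_32_wQ_26_wN_1_rb8033062259_d51_d1d26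

theorem g_wS_32_wQ_26_wN_1_rb8033062259_d51_d1d22 : GoodKC AS c_wS_32_wQ_26_wN_1_rb8033062259_d51_d1d22 := p_wS_32_wQ_26_wN_1_rb8033062259_d51_d1d22

theorem g_wS_32_wQ_26_wN_1_rb8033062259_d51_d1d21 : GoodKC AS c_wS_32_wQ_26_wN_1_rb8033062259_d51_d1d21 := p_wS_32_wQ_26_wN_1_rb8033062259_d51_d1d21

theorem g__wS_32_wQ_26_wN_1_rb8033062259_d51_d1d20_1 : GoodKC AS k_wS_32_wQ_26_wN_1_rb8033062259_d51_d1d20_1 := p_wS_32_wQ_26_wN_1_rb8033062259_d51_d1d20_1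

theorem g__wS_32_wQ_26_wN_1_rb8033062259_d51_d1d20_0 : GoodKC AS k_wS_32_wQ_26_wN_1_rb8033062259_d51_d1d20_0 := p_wS_32_wQ_26_wN_1_rb8033062259_d51_d1d20_0 g__wS_32_wQ_26_wN_1_rb8033062259_d51_d1d20_1

theorem g_wS_32_wQ_26_wN_1_rb8033062259_d51_d1d20 : GoodKC AS c_wS_32_wQ_26_wN_1_rb8033062259_d51_d1d20 := p_wS_32_wQ_26_wN_1_rb8033062259_d51_d1d20 g__wS_32_wQ_26_wN_1_rb8033062259_d51_d1d20_0

theorem g_wS_32_wQ_26_wN_1_rb8033062259_d51_d1d1f : GoodKC AS c_wS_32_wQ_26_wN_1_rb8033062259_d51_d1d1f := p_wS_32_wQ_26_wN_1_rb8033062259_d51_d1d1f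

theorem g_wS_32_wQ_26_wN_1_rb8033062259_d51_d1d1d : GoodKC AS c_wS_32_wQ_26_wN_1_rb8033062259_d51_d1d1d := p_wS_32_wQ_26_wN_1_rb8033062259_d51_d1d1d

theorem g_wS_32_wQ_26_wN_1_rb8033062259_d51_d1d1c : GoodKC AS c_wS_32_wQ_26_wN_1_rb8033062259_d51_d1d1c := p_wS_32_wQ_26_wN_1_rb8033062259_d51_d1d1c

theorem g_wS_32_wQ_26_wN_1_rb8033062259_d51_d1d1b : GoodKC AS c_wS_32_wQ_26_wN_1_rb8033062259_d51_d1d1b := p_wS_32_wQ_26_wN_1_rb8033062259_d51_d1d1b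

theorem g_wS_32_wQ_26_wN_1_rb8033062259_d51_d1d1a : GoodKC AS c_wS_32_wQ_26_wN_1_rb8033062259_d51_d1d1a := p_wS_32_wQ_26_wN_1_rb8033062259_d51_d1d1a

theorem g_wS_32_wQ_26_wN_1_rb8033062259_d51_d1d19 : GoodKC AS c_wS_32_wQ_26_wN_1_rb8033062259_d51_d1d19 := p_wS_32_wQ_26_wN_1_rb8033062259_d51_d1d19

theorem g__wS_32_wQ_26_wN_1_rb8033062259_d51_d1d18_2 : GoodKC AS k_wS_32_wQ_26_wN_1_rb8033062259_d51_d1d18_2 := p_wS_32_wQ_26_wN_1_rb8033062259_d51_d1d18_2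

theorem g__wS_32_wQ_26_wN_1_rb8033062259_d51_d1d18_1 : GoodKC AS k_wS_32_wQ_26_wN_1_rb8033062259_d51_d1d18_1 := p_wS_32_wQ_26_wN_1_rb8033062259_d51_d1d18_1 g__wS_32_wQ_26_wN_1_rb8033062259_d51_d1d18_2

theorem g__wS_32_wQ_26_wN_1_rb8033062259_d51_d1d18_8 : GoodKC AS k_wS_32_wQ_26_wN_1_rb8033062259_d51_d1d18_8 := p_wS_32_wQ_26_wN_1_rb8033062259_d51_d1d18_8

theorem g__wS_32_wQ_26_wN_1_rb8033062259_d51_d1d18_7 : GoodKC AS k_wS_32_wQ_26_wN_1_rb8033062259_d51_d1d18_7 := p_wS_32_wQ_26_wN_1_rb8033062259_d51_d1d18_7 g__wS_32_wQ_26_wN_1_rb8033062259_d51_d1d18_8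

theorem g__wS_32_wQ_26_wN_1_rb8033062259_d51_d1d18_11 : GoodKC AS k_wS_32_wQ_26_wN_1_rb8033062259_d51_d1d18_11 := p_wS_32_wQ_26_wN_1_rb8033062259_d51_d1d18_11

theorem g__wS_32_wQ_26_wN_1_rb8033062259_d51_d1d18_15 : GoodKC AS k_wS_32_wQ_26_wN_1_rb8033062259_d51_d1d18_15 := p_wS_32_wQ_26_wN_1_rb8033062259_d51_d1d18_15

theorem g__wS_32_wQ_26_wN_1_rb8033062259_d51_d1d18_14 : GoodKC AS k_wS_32_wQ_26_wN_1_rb8033062259_d51_d1d18_14 := p_wS_32_wQ_26_wN_1_rb8033062259_d51_d1d18_14 g__wS_32_wQ_26_wN_1_rb8033062259_d51_d1d18_15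

theorem g__wS_32_wQ_26_wN_1_rb8033062259_d51_d1d18_13 : GoodKC AS k_wS_32_wQ_26_wN_1_rb8033062259_d51_d1d18_13 := p_wS_32_wQ_26_wN_1_rb8033062259_d51_d1d18_13 g__wS_32_wQ_26_wN_1_rb8033062259_d51_d1d18_14

theorem g__wS_32_wQ_26_wN_1_rb8033062259_d51_d1d18_12 : GoodKC AS k_wS_32_wQ_26_wN_1_rb8033062259_d51_d1d18_12 := p_wS_32_wQ_26_wN_1_rb8033062259_d51_d1d18_12 g__wS_32_wQ_26_wN_1_rb8033062259_d51_d1d18_13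

theorem g__wS_32_wQ_26_wN_1_rb8033062259_d51_d1d18_10 : GoodKC AS k_wS_32_wQ_26_wN_1_rb8033062259_d51_d1d18_10 := p_wS_32_wQ_26_wN_1_rb8033062259_d51_d1d18_10 g__wS_32_wQ_26_wN_1_rb8033062259_d51_d1d18_11 g__wS_32_wQ_26_wN_1_rb8033062259_d51_d1d18_12

theorem g__wS_32_wQ_26_wN_1_rb8033062259_d51_d1d18_9 : GoodKC AS k_wS_32_wQ_26_wN_1_rb8033062259_d51_d1d18_9 := p_wS_32_wQ_26_wN_1_rb8033062259_d51_d1d18_9 g__wS_32_wQ_26_wN_1_rb8033062259_d51_d1d18_10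

theorem g__wS_32_wQ_26_wN_1_rb8033062259_d51_d1d18_6 : GoodKC AS k_wS_32_wQ_26_wN_1_rb8033062259_d51_d1d18_6 := p_wS_32_wQ_26_wN_1_rb8033062259_d51_d1d18_6 g__wS_32_wQ_26_wN_1_rb8033062259_d51_d1d18_7 g__wS_32_wQ_26_wN_1_rb8033062259_d51_d1d18_9

theorem g__wS_32_wQ_26_wN_1_rb8033062259_d51_d1d18_5 : GoodKC AS k_wS_32_wQ_26_wN_1_rb8033062259_d51_d1d18_5 := p_wS_32_wQ_26_wN_1_rb8033062259_d51_d1d18_5 g__wS_32_wQ_26_wN_1_rb8033062259_d51_d1d18_6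

theorem g__wS_32_wQ_26_wN_1_rb8033062259_d51_d1d18_4 : GoodKC AS k_wS_32_wQ_26_wN_1_rb8033062259_d51_d1d18_4 := p_wS_32_wQ_26_wN_1_rb8033062259_d51_d1d18_4 g__wS_32_wQ_26_wN_1_rb8033062259_d51_d1d18_5

theorem g__wS_32_wQ_26_wN_1_rb8033062259_d51_d1d18_3 : GoodKC AS k_wS_32_wQ_26_wN_1_rb8033062259_d51_d1d18_3 := p_wS_32_wQ_26_wN_1_rb8033062259_d51_d1d18_3 g__wS_32_wQ_26_wN_1_rb8033062259_d51_d1d18_4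

theorem g__wS_32_wQ_26_wN_1_rb8033062259_d51_d1d18_0 : GoodKC AS k_wS_32_wQ_26_wN_1_rb8033062259_d51_d1d18_0 := p_wS_32_wQ_26_wN_1_rb8033062259_d51_d1d18_0 g__wS_32_wQ_26_wN_1_rb8033062259_d51_d1d18_1 g__wS_32_wQ_26_wN_1_rb8033062259_d51_d1d18_3

theorem g_wS_32_wQ_26_wN_1_rb8033062259_d51_d1d18 : GoodKC AS c_wS_32_wQ_26_wN_1_rb8033062259_d51_d1d18 := p_wS_32_wQ_26_wN_1_rb8033062259_d51_d1d18 g__wS_32_wQ_26_wN_1_rb8033062259_d51_d1d18_0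

theorem g_wS_32_wQ_26_wN_1_rb8033062259_d51_d1d17 : GoodKC AS c_wS_32_wQ_26_wN_1_rb8033062259_d51_d1d17 := p_wS_32_wQ_26_wN_1_rb8033062259_d51_d1d17

theorem g_wS_32_wQ_26_wN_1_rb8033062259_d51_d1d16 : GoodKC AS c_wS_32_wQ_26_wN_1_rb8033062259_d51_d1d16 := p_wS_32_wQ_26_wN_1_rb8033062259_d51_d1d16

theorem g__wS_32_wQ_26_wN_1_rb8033062259_d51_d1d15_1 : GoodKC AS k_wS_32_wQ_26_wN_1_rb8033062259_d51_d1d15_1 := p_wS_32_wQ_26_wN_1_rb8033062259_d51_d1d15_1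

theorem g__wS_32_wQ_26_wN_1_rb8033062259_d51_d1d15_0 : GoodKC AS k_wS_32_wQ_26_wN_1_rb8033062259_d51_d1d15_0 := p_wS_32_wQ_26_wN_1_rb8033062259_d51_d1d15_0 g__wS_32_wQ_26_wN_1_rb8033062259_d51_d1d15_1

theorem g_wS_32_wQ_26_wN_1_rb8033062259_d51_d1d15 : GoodKC AS c_wS_32_wQ_26_wN_1_rb8033062259_d51_d1d15 := p_wS_32_wQ_26_wN_1_rb8033062259_d51_d1d15 g__wS_32_wQ_26_wN_1_rb8033062259_d51_d1d15_0

theorem g_wS_32_wQ_26_wN_1_rb8033062259_d51_d1d14 : GoodKC AS c_wS_32_wQ_26_wN_1_rb8033062259_d51_d1d14 := p_wS_32_wQ_26_wN_1_rb8033062259_d51_d1d14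

theorem g_wS_32_wQ_26_wN_1_rb8033062259_d51_d1d12 : GoodKC AS c_wS_32_wQ_26_wN_1_rb8033062259_d51_d1d12 := p_wS_32_wQ_26_wN_1_rb8033062259_d51_d1d12

theorem g_wS_32_wQ_26_wN_1_rb8033062259_d51_d1d0f : GoodKC AS c_wS_32_wQ_26_wN_1_rb8033062259_d51_d1d0f := p_wS_32_wQ_26_wN_1_rb8033062259_d51_d1d0f

theorem g_wS_32_wQ_26_wN_1_rb8033062259_d51_d1d0e : GoodKC AS c_wS_32_wQ_26_wN_1_rb8033062259_d51_d1d0e := p_wS_32_wQ_26_wN_1_rb8033062259_d51_d1d0e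

theorem g_wS_32_wQ_26_wN_1_rb8033062259_d51_d1d0c : GoodKC AS c_wS_32_wQ_26_wN_1_rb8033062259_d51_d1d0c := p_wS_32_wQ_26_wN_1_rb8033062259_d51_d1d0c

theorem g_wS_32_wQ_26_wN_1_rb8033062259_d51_d1d0b : GoodKC AS c_wS_32_wQ_26_wN_1_rb8033062259_d51_d1d0b := p_wS_32_wQ_26_wN_1_rb8033062259_d51_d1d0b

theorem g_wS_32_wQ_26_wN_1_rb8033062259_d51_d1d0a : GoodKC AS c_wS_32_wQ_26_wN_1_rb8033062259_d51_d1d0a := p_wS_32_wQ_26_wN_1_rb8033062259_d51_d1d0a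

theorem g_wS_32_wQ_26_wN_1_rb8033062259_d51_d1d09 : GoodKC AS c_wS_32_wQ_26_wN_1_rb8033062259_d51_d1d09 := p_wS_32_wQ_26_wN_1_rb8033062259_d51_d1d09

theorem g_wS_32_wQ_26_wN_1_rb8033062259_d51_d1d08 : GoodKC AS c_wS_32_wQ_26_wN_1_rb8033062259_d51_d1d08 := p_wS_32_wQ_26_wN_1_rb8033062259_d51_d1d08

theorem g_wS_32_wQ_26_wN_1_rb8033062259_d51_d1d07 : GoodKC AS c_wS_32_wQ_26_wN_1_rb8033062259_d51_d1d07 := p_wS_32_wQ_26_wN_1_rb8033062259_d51_d1d07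

theorem g_wS_32_wQ_26_wN_1_rb8033062259_d51_d1d06 : GoodKC AS c_wS_32_wQ_26_wN_1_rb8033062259_d51_d1d06 := p_wS_32_wQ_26_wN_1_rb8033062259_d51_d1d06

theorem g_wS_32_wQ_26_wN_1_rb8033062259_d51_d1d05 : GoodKC AS c_wS_32_wQ_26_wN_1_rb8033062259_d51_d1d05 := p_wS_32_wQ_26_wN_1_rb8033062259_d51_d1d05

theorem g_wS_32_wQ_26_wN_1_rb8033062259_d51_d1d03 : GoodKC AS c_wS_32_wQ_26_wN_1_rb8033062259_d51_d1d03 := p_wS_32_wQ_26_wN_1_rb8033062259_d51_d1d03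

theorem g_wS_32_wQ_26_wN_1_rb8033062259_d51_d1d01 : GoodKC AS c_wS_32_wQ_26_wN_1_rb8033062259_d51_d1d01 := p_wS_32_wQ_26_wN_1_rb8033062259_d51_d1d01

theorem g_wS_32_wQ_26_wN_1_rb8033062259_d51_d1d00 : GoodKC AS c_wS_32_wQ_26_wN_1_rb8033062259_d51_d1d00 := p_wS_32_wQ_26_wN_1_rb8033062259_d51_d1d00

theorem g_wS_32_wQ_26_wN_1_rb8033062259_d51_d1d02 : GoodKC AS c_wS_32_wQ_26_wN_1_rb8033062259_d51_d1d02 := p_wS_32_wQ_26_wN_1_rb8033062259_d51_d1d02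

theorem g_wS_32_wQ_26_wN_1_rb8033062259_d51_d1d04 : GoodKC AS c_wS_32_wQ_26_wN_1_rb8033062259_d51_d1d04 := p_wS_32_wQ_26_wN_1_rb8033062259_d51_d1d04

theorem g__wS_32_wQ_26_wN_1_rb8033062259_d51_d1d_1 : GoodKC AS k_wS_32_wQ_26_wN_1_rb8033062259_d51_d1d_1 := p_wS_32_wQ_26_wN_1_rb8033062259_d51_d1d_1

theorem g__wS_32_wQ_26_wN_1_rb8033062259_d51_d1d_8 : GoodKC AS k_wS_32_wQ_26_wN_1_rb8033062259_d51_d1d_8 := p_wS_32_wQ_26_wN_1_rb8033062259_d51_d1d_8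

theorem g__wS_32_wQ_26_wN_1_rb8033062259_d51_d1d_7 : GoodKC AS k_wS_32_wQ_26_wN_1_rb8033062259_d51_d1d_7 := p_wS_32_wQ_26_wN_1_rb8033062259_d51_d1d_7 g__wS_32_wQ_26_wN_1_rb8033062259_d51_d1d_8

theorem g__wS_32_wQ_26_wN_1_rb8033062259_d51_d1d_6 : GoodKC AS k_wS_32_wQ_26_wN_1_rb8033062259_d51_d1d_6 := p_wS_32_wQ_26_wN_1_rb8033062259_d51_d1d_6 g__wS_32_wQ_26_wN_1_rb8033062259_d51_d1d_7

theorem g__wS_32_wQ_26_wN_1_rb8033062259_d51_d1d_10 : GoodKC AS k_wS_32_wQ_26_wN_1_rb8033062259_d51_d1d_10 := p_wS_32_wQ_26_wN_1_rb8033062259_d51_d1d_10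

theorem g__wS_32_wQ_26_wN_1_rb8033062259_d51_d1d_9 : GoodKC AS k_wS_32_wQ_26_wN_1_rb8033062259_d51_d1d_9 := p_wS_32_wQ_26_wN_1_rb8033062259_d51_d1d_9 g__wS_32_wQ_26_wN_1_rb8033062259_d51_d1d_10

theorem g__wS_32_wQ_26_wN_1_rb8033062259_d51_d1d_5 : GoodKC AS k_wS_32_wQ_26_wN_1_rb8033062259_d51_d1d_5 := p_wS_32_wQ_26_wN_1_rb8033062259_d51_d1d_5 g__wS_32_wQ_26_wN_1_rb8033062259_d51_d1d_6 g__wS_32_wQ_26_wN_1_rb8033062259_d51_d1d_9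

theorem g__wS_32_wQ_26_wN_1_rb8033062259_d51_d1d_4 : GoodKC AS k_wS_32_wQ_26_wN_1_rb8033062259_d51_d1d_4 := p_wS_32_wQ_26_wN_1_rb8033062259_d51_d1d_4 g__wS_32_wQ_26_wN_1_rb8033062259_d51_d1d_5

theorem g__wS_32_wQ_26_wN_1_rb8033062259_d51_d1d_3 : GoodKC AS k_wS_32_wQ_26_wN_1_rb8033062259_d51_d1d_3 := p_wS_32_wQ_26_wN_1_rb8033062259_d51_d1d_3 g__wS_32_wQ_26_wN_1_rb8033062259_d51_d1d_4

theorem g__wS_32_wQ_26_wN_1_rb8033062259_d51_d1d_2 : GoodKC AS k_wS_32_wQ_26_wN_1_rb8033062259_d51_d1d_2 := p_wS_32_wQ_26_wN_1_rb8033062259_d51_d1d_2 g__wS_32_wQ_26_wN_1_rb8033062259_d51_d1d_3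

theorem g__wS_32_wQ_26_wN_1_rb8033062259_d51_d1d_11 : GoodKC AS k_wS_32_wQ_26_wN_1_rb8033062259_d51_d1d_11 := p_wS_32_wQ_26_wN_1_rb8033062259_d51_d1d_11

theorem g__wS_32_wQ_26_wN_1_rb8033062259_d51_d1d_0 : GoodKC AS k_wS_32_wQ_26_wN_1_rb8033062259_d51_d1d_0 := p_wS_32_wQ_26_wN_1_rb8033062259_d51_d1d_0 g__wS_32_wQ_26_wN_1_rb8033062259_d51_d1d_1 g__wS_32_wQ_26_wN_1_rb8033062259_d51_d1d_2 g__wS_32_wQ_26_wN_1_rb8033062259_d51_d1d_11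

theorem g_wS_32_wQ_26_wN_1_rb8033062259_d51_d1d0d : GoodKC AS c_wS_32_wQ_26_wN_1_rb8033062259_d51_d1d0d := p_wS_32_wQ_26_wN_1_rb8033062259_d51_d1d0d

theorem g_wS_32_wQ_26_wN_1_rb8033062259_d51_d1d10 : GoodKC AS c_wS_32_wQ_26_wN_1_rb8033062259_d51_d1d10 := p_wS_32_wQ_26_wN_1_rb8033062259_d51_d1d10

theorem g__wS_32_wQ_26_wN_1_rb8033062259_d51_d1d11_1 : GoodKC AS k_wS_32_wQ_26_wN_1_rb8033062259_d51_d1d11_1 := p_wS_32_wQ_26_wN_1_rb8033062259_d51_d1d11_1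

theorem g__wS_32_wQ_26_wN_1_rb8033062259_d51_d1d11_3 : GoodKC AS k_wS_32_wQ_26_wN_1_rb8033062259_d51_d1d11_3 := p_wS_32_wQ_26_wN_1_rb8033062259_d51_d1d11_3

theorem g__wS_32_wQ_26_wN_1_rb8033062259_d51_d1d11_2 : GoodKC AS k_wS_32_wQ_26_wN_1_rb8033062259_d51_d1d11_2 := p_wS_32_wQ_26_wN_1_rb8033062259_d51_d1d11_2 g__wS_32_wQ_26_wN_1_rb8033062259_d51_d1d11_3

theorem g__wS_32_wQ_26_wN_1_rb8033062259_d51_d1d11_0 : GoodKC AS k_wS_32_wQ_26_wN_1_rb8033062259_d51_d1d11_0 := p_wS_32_wQ_26_wN_1_rb8033062259_d51_d1d11_0 g__wS_32_wQ_26_wN_1_rb8033062259_d51_d1d11_1 g__wS_32_wQ_26_wN_1_rb8033062259_d51_d1d11_2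

theorem g_wS_32_wQ_26_wN_1_rb8033062259_d51_d1d11 : GoodKC AS c_wS_32_wQ_26_wN_1_rb8033062259_d51_d1d11 := p_wS_32_wQ_26_wN_1_rb8033062259_d51_d1d11 g__wS_32_wQ_26_wN_1_rb8033062259_d51_d1d11_0

theorem g_wS_32_wQ_26_wN_1_rb8033062259_d51_d1d13 : GoodKC AS c_wS_32_wQ_26_wN_1_rb8033062259_d51_d1d13 := p_wS_32_wQ_26_wN_1_rb8033062259_d51_d1d13

theorem g_wS_32_wQ_26_wN_1_rb8033062259_d51_d1d1e : GoodKC AS c_wS_32_wQ_26_wN_1_rb8033062259_d51_d1d1e := p_wS_32_wQ_26_wN_1_rb8033062259_d51_d1d1e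

theorem g__wS_32_wQ_26_wN_1_rb8033062259_d51_d1d23_0 : GoodKC AS k_wS_32_wQ_26_wN_1_rb8033062259_d51_d1d23_0 := p_wS_32_wQ_26_wN_1_rb8033062259_d51_d1d23_0

theorem g_wS_32_wQ_26_wN_1_rb8033062259_d51_d1d23 : GoodKC AS c_wS_32_wQ_26_wN_1_rb8033062259_d51_d1d23 := p_wS_32_wQ_26_wN_1_rb8033062259_d51_d1d23 g__wS_32_wQ_26_wN_1_rb8033062259_d51_d1d23_0

theorem g_wS_32_wQ_26_wN_1_rb8033062259_d51_d1d24 : GoodKC AS c_wS_32_wQ_26_wN_1_rb8033062259_d51_d1d24 := p_wS_32_wQ_26_wN_1_rb8033062259_d51_d1d24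

theorem g_wS_32_wQ_26_wN_1_rb8033062259_d51_d1d25 : GoodKC AS c_wS_32_wQ_26_wN_1_rb8033062259_d51_d1d25 := p_wS_32_wQ_26_wN_1_rb8033062259_d51_d1d25

theorem g_wS_32_wQ_26_wN_1_rb8033062259_d51_d1d : GoodKC AS c_wS_32_wQ_26_wN_1_rb8033062259_d51_d1d := p_wS_32_wQ_26_wN_1_rb8033062259_d51_d1d g_wS_32_wQ_26_wN_1_rb8033062259_d51_d1d2c g_wS_32_wQ_26_wN_1_rb8033062259_d51_d1d2b g_wS_32_wQ_26_wN_1_rb8033062259_d51_d1d2a g_wS_32_wQ_26_wN_1_rb8033062259_d51_d1d29 g_wS_32_wQ_26_wN_1_rb8033062259_d51_d1d28 g_wS_32_wQ_26_wN_1_rb8033062259_d51_d1d27 g_wS_32_wQ_26_wN_1_rb8033062259_d51_d1d26 g_wS_32_wQ_26_wN_1_rb8033062259_d51_d1d22 g_wS_32_wQ_26_wN_1_rb8033062259_d51_d1d21 g_wS_32_wQ_26_wN_1_rb8033062259_d51_d1d20 g_wS_32_wQ_26_wN_1_rb8033062259_d51_d1d1f g_wS_32_wQ_26_wN_1_rb8033062259_d51_d1d1d g_wS_32_wQ_26_wN_1_rb8033062259_d51_d1d1c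 g_wS_32_wQ_26_wN_1_rb8033062259_d51_d1d1b g_wS_32_wQ_26_wN_1_rb8033062259_d51_d1d1a g_wS_32_wQ_26_wN_1_rb8033062259_d51_d1d19 g_wS_32_wQ_26_wN_1_rb8033062259_d51_d1d18 g_wS_32_wQ_26_wN_1_rb8033062259_d51_d1d17 g_wS_32_wQ_26_wN_1_rb8033062259_d51_d1d16 g_wS_32_wQ_26_wN_1_rb8033062259_d51_d1d15 g_wS_32_wQ_26_wN_1_rb8033062259_d51_d1d14 g_wS_32_wQ_26_wN_1_rb8033062259_d51_d1d12 g_wS_32_wQ_26_wN_1_rb8033062259_d51_d1d0f g_wS_32_wQ_26_wN_1_rb8033062259_d51_d1d0e g_wS_32_wQ_26_wN_1_rb8033062259_d51_d1d0c g_wS_32_wQ_26_wN_1_rb8033062259_d51_d1d0b g_wS_32_wQ_26_wN_1_rb8033062259_d51_d1d0a g_wS_32_wQ_26_wN_1_rb8033062259_d51_d1d09 g_wS_32_wQ_26_wN_1_rb8033062259_d51_d1d08 g_wS_32_wQ_26_wN_1_rb8033062259_d51_d1d07 g_wS_32_wQ_26_wN_1_rb8033062259_d51_d1d06 g_wS_32_wQ_26_wN_1_rb8033062259_d51_d1d05 g_wS_32_wQ_26_wN_1_rb8033062259_d51_d1d03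 g_wS_32_wQ_26_wN_1_rb8033062259_d51_d1d01 g_wS_32_wQ_26_wN_1_rb8033062259_d51_d1d00 g_wS_32_wQ_26_wN_1_rb8033062259_d51_d1d02 g_wS_32_wQ_26_wN_1_rb8033062259_d51_d1d04 g__wS_32_wQ_26_wN_1_rb8033062259_d51_d1d_0 g_wS_32_wQ_26_wN_1_rb8033062259_d51_d1d0d g_wS_32_wQ_26_wN_1_rb8033062259_d51_d1d10 g_wS_32_wQ_26_wN_1_rb8033062259_d51_d1d11 g_wS_32_wQ_26_wN_1_rb8033062259_d51_d1d13 g_wS_32_wQ_26_wN_1_rb8033062259_d51_d1d1e g_wS_32_wQ_26_wN_1_rb8033062259_d51_d1d23 g_wS_32_wQ_26_wN_1_rb8033062259_d51_d1d24 g_wS_32_wQ_26_wN_1_rb8033062259_d51_d1d25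

theorem g_wS_32_wQ_26_wN_1_rb8033062259_d51_d1e22 : GoodKC AS c_wS_32_wQ_26_wN_1_rb8033062259_d51_d1e22 := p_wS_32_wQ_26_wN_1_rb8033062259_d51_d1e22

theorem g_wS_32_wQ_26_wN_1_rb8033062259_d51_d1e21 : GoodKC AS c_wS_32_wQ_26_wN_1_rb8033062259_d51_d1e21 := p_wS_32_wQ_26_wN_1_rb8033062259_d51_d1e21

theorem g__wS_32_wQ_26_wN_1_rb8033062259_d51_d1e_7 : GoodKC AS k_wS_32_wQ_26_wN_1_rb8033062259_d51_d1e_7 := p_wS_32_wQ_26_wN_1_rb8033062259_d51_d1e_7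

theorem g__wS_32_wQ_26_wN_1_rb8033062259_d51_d1e_10 : GoodKC AS k_wS_32_wQ_26_wN_1_rb8033062259_d51_d1e_10 := p_wS_32_wQ_26_wN_1_rb8033062259_d51_d1e_10

theorem g__wS_32_wQ_26_wN_1_rb8033062259_d51_d1e_9 : GoodKC AS k_wS_32_wQ_26_wN_1_rb8033062259_d51_d1e_9 := p_wS_32_wQ_26_wN_1_rb8033062259_d51_d1e_9 g__wS_32_wQ_26_wN_1_rb8033062259_d51_d1e_10

theorem g__wS_32_wQ_26_wN_1_rb8033062259_d51_d1e_8 : GoodKC AS k_wS_32_wQ_26_wN_1_rb8033062259_d51_d1e_8 := p_wS_32_wQ_26_wN_1_rb8033062259_d51_d1e_8 g__wS_32_wQ_26_wN_1_rb8033062259_d51_d1e_9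

theorem g__wS_32_wQ_26_wN_1_rb8033062259_d51_d1e_6 : GoodKC AS k_wS_32_wQ_26_wN_1_rb8033062259_d51_d1e_6 := p_wS_32_wQ_26_wN_1_rb8033062259_d51_d1e_6 g__wS_32_wQ_26_wN_1_rb8033062259_d51_d1e_7 g__wS_32_wQ_26_wN_1_rb8033062259_d51_d1e_8

theorem g__wS_32_wQ_26_wN_1_rb8033062259_d51_d1e_5 : GoodKC AS k_wS_32_wQ_26_wN_1_rb8033062259_d51_d1e_5 := p_wS_32_wQ_26_wN_1_rb8033062259_d51_d1e_5 g__wS_32_wQ_26_wN_1_rb8033062259_d51_d1e_6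

theorem g__wS_32_wQ_26_wN_1_rb8033062259_d51_d1e_4 : GoodKC AS k_wS_32_wQ_26_wN_1_rb8033062259_d51_d1e_4 := p_wS_32_wQ_26_wN_1_rb8033062259_d51_d1e_4 g__wS_32_wQ_26_wN_1_rb8033062259_d51_d1e_5

theorem g__wS_32_wQ_26_wN_1_rb8033062259_d51_d1e_3 : GoodKC AS k_wS_32_wQ_26_wN_1_rb8033062259_d51_d1e_3 := p_wS_32_wQ_26_wN_1_rb8033062259_d51_d1e_3 g__wS_32_wQ_26_wN_1_rb8033062259_d51_d1e_4

theorem g__wS_32_wQ_26_wN_1_rb8033062259_d51_d1e_2 : GoodKC AS k_wS_32_wQ_26_wN_1_rb8033062259_d51_d1e_2 := p_wS_32_wQ_26_wN_1_rb8033062259_d51_d1e_2 g__wS_32_wQ_26_wN_1_rb8033062259_d51_d1e_3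

theorem g__wS_32_wQ_26_wN_1_rb8033062259_d51_d1e_1 : GoodKC AS k_wS_32_wQ_26_wN_1_rb8033062259_d51_d1e_1 := p_wS_32_wQ_26_wN_1_rb8033062259_d51_d1e_1 g__wS_32_wQ_26_wN_1_rb8033062259_d51_d1e_2

theorem g__wS_32_wQ_26_wN_1_rb8033062259_d51_d1e_0 : GoodKC AS k_wS_32_wQ_26_wN_1_rb8033062259_d51_d1e_0 := p_wS_32_wQ_26_wN_1_rb8033062259_d51_d1e_0 g__wS_32_wQ_26_wN_1_rb8033062259_d51_d1e_1

theorem g__wS_32_wQ_26_wN_1_rb8033062259_d51_d1e_14 : GoodKC AS k_wS_32_wQ_26_wN_1_rb8033062259_d51_d1e_14 := p_wS_32_wQ_26_wN_1_rb8033062259_d51_d1e_14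

theorem g__wS_32_wQ_26_wN_1_rb8033062259_d51_d1e_17 : GoodKC AS k_wS_32_wQ_26_wN_1_rb8033062259_d51_d1e_17 := p_wS_32_wQ_26_wN_1_rb8033062259_d51_d1e_17

theorem g__wS_32_wQ_26_wN_1_rb8033062259_d51_d1e_16 : GoodKC AS k_wS_32_wQ_26_wN_1_rb8033062259_d51_d1e_16 := p_wS_32_wQ_26_wN_1_rb8033062259_d51_d1e_16 g__wS_32_wQ_26_wN_1_rb8033062259_d51_d1e_17

theorem g__wS_32_wQ_26_wN_1_rb8033062259_d51_d1e_20 : GoodKC AS k_wS_32_wQ_26_wN_1_rb8033062259_d51_d1e_20 := p_wS_32_wQ_26_wN_1_rb8033062259_d51_d1e_20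

theorem g__wS_32_wQ_26_wN_1_rb8033062259_d51_d1e_19 : GoodKC AS k_wS_32_wQ_26_wN_1_rb8033062259_d51_d1e_19 := p_wS_32_wQ_26_wN_1_rb8033062259_d51_d1e_19 g__wS_32_wQ_26_wN_1_rb8033062259_d51_d1e_20

theorem g__wS_32_wQ_26_wN_1_rb8033062259_d51_d1e_18 : GoodKC AS k_wS_32_wQ_26_wN_1_rb8033062259_d51_d1e_18 := p_wS_32_wQ_26_wN_1_rb8033062259_d51_d1e_18 g__wS_32_wQ_26_wN_1_rb8033062259_d51_d1e_19

theorem g__wS_32_wQ_26_wN_1_rb8033062259_d51_d1e_15 : GoodKC AS k_wS_32_wQ_26_wN_1_rb8033062259_d51_d1e_15 := p_wS_32_wQ_26_wN_1_rb8033062259_d51_d1e_15 g__wS_32_wQ_26_wN_1_rb8033062259_d51_d1e_16 g__wS_32_wQ_26_wN_1_rb8033062259_d51_d1e_18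

theorem g__wS_32_wQ_26_wN_1_rb8033062259_d51_d1e_13 : GoodKC AS k_wS_32_wQ_26_wN_1_rb8033062259_d51_d1e_13 := p_wS_32_wQ_26_wN_1_rb8033062259_d51_d1e_13 g__wS_32_wQ_26_wN_1_rb8033062259_d51_d1e_14 g__wS_32_wQ_26_wN_1_rb8033062259_d51_d1e_15

theorem g__wS_32_wQ_26_wN_1_rb8033062259_d51_d1e_22 : GoodKC AS k_wS_32_wQ_26_wN_1_rb8033062259_d51_d1e_22 := p_wS_32_wQ_26_wN_1_rb8033062259_d51_d1e_22

theorem g__wS_32_wQ_26_wN_1_rb8033062259_d51_d1e_21 : GoodKC AS k_wS_32_wQ_26_wN_1_rb8033062259_d51_d1e_21 := p_wS_32_wQ_26_wN_1_rb8033062259_d51_d1e_21 g__wS_32_wQ_26_wN_1_rb8033062259_d51_d1e_22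

theorem g__wS_32_wQ_26_wN_1_rb8033062259_d51_d1e_23 : GoodKC AS k_wS_32_wQ_26_wN_1_rb8033062259_d51_d1e_23 := p_wS_32_wQ_26_wN_1_rb8033062259_d51_d1e_23

theorem g__wS_32_wQ_26_wN_1_rb8033062259_d51_d1e_24 : GoodKC AS k_wS_32_wQ_26_wN_1_rb8033062259_d51_d1e_24 := p_wS_32_wQ_26_wN_1_rb8033062259_d51_d1e_24

theorem g__wS_32_wQ_26_wN_1_rb8033062259_d51_d1e_12 : GoodKC AS k_wS_32_wQ_26_wN_1_rb8033062259_d51_d1e_12 := p_wS_32_wQ_26_wN_1_rb8033062259_d51_d1e_12 g__wS_32_wQ_26_wN_1_rb8033062259_d51_d1e_13 g__wS_32_wQ_26_wN_1_rb8033062259_d51_d1e_21 g__wS_32_wQ_26_wN_1_rb8033062259_d51_d1e_23 g__wS_32_wQ_26_wN_1_rb8033062259_d51_d1e_24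

theorem g__wS_32_wQ_26_wN_1_rb8033062259_d51_d1e_11 : GoodKC AS k_wS_32_wQ_26_wN_1_rb8033062259_d51_d1e_11 := p_wS_32_wQ_26_wN_1_rb8033062259_d51_d1e_11 g__wS_32_wQ_26_wN_1_rb8033062259_d51_d1e_12

theorem g_wS_32_wQ_26_wN_1_rb8033062259_d51_d1e1f : GoodKC AS c_wS_32_wQ_26_wN_1_rb8033062259_d51_d1e1f := p_wS_32_wQ_26_wN_1_rb8033062259_d51_d1e1f

theorem g_wS_32_wQ_26_wN_1_rb8033062259_d51_d1e1e : GoodKC AS c_wS_32_wQ_26_wN_1_rb8033062259_d51_d1e1e := p_wS_32_wQ_26_wN_1_rb8033062259_d51_d1e1e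

theorem g_wS_32_wQ_26_wN_1_rb8033062259_d51_d1e1c : GoodKC AS c_wS_32_wQ_26_wN_1_rb8033062259_d51_d1e1c := p_wS_32_wQ_26_wN_1_rb8033062259_d51_d1e1c

theorem g_wS_32_wQ_26_wN_1_rb8033062259_d51_d1e1b : GoodKC AS c_wS_32_wQ_26_wN_1_rb8033062259_d51_d1e1b := p_wS_32_wQ_26_wN_1_rb8033062259_d51_d1e1b

theorem g_wS_32_wQ_26_wN_1_rb8033062259_d51_d1e19 : GoodKC AS c_wS_32_wQ_26_wN_1_rb8033062259_d51_d1e19 := p_wS_32_wQ_26_wN_1_rb8033062259_d51_d1e19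

theorem g_wS_32_wQ_26_wN_1_rb8033062259_d51_d1e15 : GoodKC AS c_wS_32_wQ_26_wN_1_rb8033062259_d51_d1e15 := p_wS_32_wQ_26_wN_1_rb8033062259_d51_d1e15

theorem g_wS_32_wQ_26_wN_1_rb8033062259_d51_d1e13 : GoodKC AS c_wS_32_wQ_26_wN_1_rb8033062259_d51_d1e13 := p_wS_32_wQ_26_wN_1_rb8033062259_d51_d1e13

theorem g_wS_32_wQ_26_wN_1_rb8033062259_d51_d1e11 : GoodKC AS c_wS_32_wQ_26_wN_1_rb8033062259_d51_d1e11 := p_wS_32_wQ_26_wN_1_rb8033062259_d51_d1e11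

theorem g_wS_32_wQ_26_wN_1_rb8033062259_d51_d1e10 : GoodKC AS c_wS_32_wQ_26_wN_1_rb8033062259_d51_d1e10 := p_wS_32_wQ_26_wN_1_rb8033062259_d51_d1e10

theorem g_wS_32_wQ_26_wN_1_rb8033062259_d51_d1e0d : GoodKC AS c_wS_32_wQ_26_wN_1_rb8033062259_d51_d1e0d := p_wS_32_wQ_26_wN_1_rb8033062259_d51_d1e0d

theorem g__wS_32_wQ_26_wN_1_rb8033062259_d51_d1e0c_2 : GoodKC AS k_wS_32_wQ_26_wN_1_rb8033062259_d51_d1e0c_2 := p_wS_32_wQ_26_wN_1_rb8033062259_d51_d1e0c_2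

theorem g__wS_32_wQ_26_wN_1_rb8033062259_d51_d1e0c_3 : GoodKC AS k_wS_32_wQ_26_wN_1_rb8033062259_d51_d1e0c_3 := p_wS_32_wQ_26_wN_1_rb8033062259_d51_d1e0c_3

theorem g__wS_32_wQ_26_wN_1_rb8033062259_d51_d1e0c_4 : GoodKC AS k_wS_32_wQ_26_wN_1_rb8033062259_d51_d1e0c_4 := p_wS_32_wQ_26_wN_1_rb8033062259_d51_d1e0c_4

theorem g__wS_32_wQ_26_wN_1_rb8033062259_d51_d1e0c_1 : GoodKC AS k_wS_32_wQ_26_wN_1_rb8033062259_d51_d1e0c_1 := p_wS_32_wQ_26_wN_1_rb8033062259_d51_d1e0c_1 g__wS_32_wQ_26_wN_1_rb8033062259_d51_d1e0c_2 g__wS_32_wQ_26_wN_1_rb8033062259_d51_d1e0c_3 g__wS_32_wQ_26_wN_1_rb8033062259_d51_d1e0c_4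

theorem g__wS_32_wQ_26_wN_1_rb8033062259_d51_d1e0c_0 : GoodKC AS k_wS_32_wQ_26_wN_1_rb8033062259_d51_d1e0c_0 := p_wS_32_wQ_26_wN_1_rb8033062259_d51_d1e0c_0 g__wS_32_wQ_26_wN_1_rb8033062259_d51_d1e0c_1

theorem g_wS_32_wQ_26_wN_1_rb8033062259_d51_d1e0c : GoodKC AS c_wS_32_wQ_26_wN_1_rb8033062259_d51_d1e0c := p_wS_32_wQ_26_wN_1_rb8033062259_d51_d1e0c g__wS_32_wQ_26_wN_1_rb8033062259_d51_d1e0c_0

theorem g_wS_32_wQ_26_wN_1_rb8033062259_d51_d1e0b : GoodKC AS c_wS_32_wQ_26_wN_1_rb8033062259_d51_d1e0b := p_wS_32_wQ_26_wN_1_rb8033062259_d51_d1e0b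

theorem g_wS_32_wQ_26_wN_1_rb8033062259_d51_d1e0a : GoodKC AS c_wS_32_wQ_26_wN_1_rb8033062259_d51_d1e0a := p_wS_32_wQ_26_wN_1_rb8033062259_d51_d1e0a

theorem g_wS_32_wQ_26_wN_1_rb8033062259_d51_d1e09 : GoodKC AS c_wS_32_wQ_26_wN_1_rb8033062259_d51_d1e09 := p_wS_32_wQ_26_wN_1_rb8033062259_d51_d1e09

theorem g__wS_32_wQ_26_wN_1_rb8033062259_d51_d1e08_0 : GoodKC AS k_wS_32_wQ_26_wN_1_rb8033062259_d51_d1e08_0 := p_wS_32_wQ_26_wN_1_rb8033062259_d51_d1e08_0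

theorem g_wS_32_wQ_26_wN_1_rb8033062259_d51_d1e08 : GoodKC AS c_wS_32_wQ_26_wN_1_rb8033062259_d51_d1e08 := p_wS_32_wQ_26_wN_1_rb8033062259_d51_d1e08 g__wS_32_wQ_26_wN_1_rb8033062259_d51_d1e08_0

theorem g_wS_32_wQ_26_wN_1_rb8033062259_d51_d1e07 : GoodKC AS c_wS_32_wQ_26_wN_1_rb8033062259_d51_d1e07 := p_wS_32_wQ_26_wN_1_rb8033062259_d51_d1e07

theorem g_wS_32_wQ_26_wN_1_rb8033062259_d51_d1e06 : GoodKC AS c_wS_32_wQ_26_wN_1_rb8033062259_d51_d1e06 := p_wS_32_wQ_26_wN_1_rb8033062259_d51_d1e06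

theorem g_wS_32_wQ_26_wN_1_rb8033062259_d51_d1e03 : GoodKC AS c_wS_32_wQ_26_wN_1_rb8033062259_d51_d1e03 := p_wS_32_wQ_26_wN_1_rb8033062259_d51_d1e03

theorem g_wS_32_wQ_26_wN_1_rb8033062259_d51_d1e02 : GoodKC AS c_wS_32_wQ_26_wN_1_rb8033062259_d51_d1e02 := p_wS_32_wQ_26_wN_1_rb8033062259_d51_d1e02

theorem g_wS_32_wQ_26_wN_1_rb8033062259_d51_d1e00 : GoodKC AS c_wS_32_wQ_26_wN_1_rb8033062259_d51_d1e00 := p_wS_32_wQ_26_wN_1_rb8033062259_d51_d1e00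

theorem g_wS_32_wQ_26_wN_1_rb8033062259_d51_d1e01 : GoodKC AS c_wS_32_wQ_26_wN_1_rb8033062259_d51_d1e01 := p_wS_32_wQ_26_wN_1_rb8033062259_d51_d1e01

theorem g_wS_32_wQ_26_wN_1_rb8033062259_d51_d1e04 : GoodKC AS c_wS_32_wQ_26_wN_1_rb8033062259_d51_d1e04 := p_wS_32_wQ_26_wN_1_rb8033062259_d51_d1e04

theorem g__wS_32_wQ_26_wN_1_rb8033062259_d51_d1e_26 : GoodKC AS k_wS_32_wQ_26_wN_1_rb8033062259_d51_d1e_26 := p_wS_32_wQ_26_wN_1_rb8033062259_d51_d1e_26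

theorem g__wS_32_wQ_26_wN_1_rb8033062259_d51_d1e_28 : GoodKC AS k_wS_32_wQ_26_wN_1_rb8033062259_d51_d1e_28 := p_wS_32_wQ_26_wN_1_rb8033062259_d51_d1e_28

theorem g__wS_32_wQ_26_wN_1_rb8033062259_d51_d1e_29 : GoodKC AS k_wS_32_wQ_26_wN_1_rb8033062259_d51_d1e_29 := p_wS_32_wQ_26_wN_1_rb8033062259_d51_d1e_29

theorem g__wS_32_wQ_26_wN_1_rb8033062259_d51_d1e_32 : GoodKC AS k_wS_32_wQ_26_wN_1_rb8033062259_d51_d1e_32 := p_wS_32_wQ_26_wN_1_rb8033062259_d51_d1e_32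

theorem g__wS_32_wQ_26_wN_1_rb8033062259_d51_d1e_31 : GoodKC AS k_wS_32_wQ_26_wN_1_rb8033062259_d51_d1e_31 := p_wS_32_wQ_26_wN_1_rb8033062259_d51_d1e_31 g__wS_32_wQ_26_wN_1_rb8033062259_d51_d1e_32

theorem g__wS_32_wQ_26_wN_1_rb8033062259_d51_d1e_34 : GoodKC AS k_wS_32_wQ_26_wN_1_rb8033062259_d51_d1e_34 := p_wS_32_wQ_26_wN_1_rb8033062259_d51_d1e_34

theorem g__wS_32_wQ_26_wN_1_rb8033062259_d51_d1e_33 : GoodKC AS k_wS_32_wQ_26_wN_1_rb8033062259_d51_d1e_33 := p_wS_32_wQ_26_wN_1_rb8033062259_d51_d1e_33 g__wS_32_wQ_26_wN_1_rb8033062259_d51_d1e_34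

theorem g__wS_32_wQ_26_wN_1_rb8033062259_d51_d1e_30 : GoodKC AS k_wS_32_wQ_26_wN_1_rb8033062259_d51_d1e_30 := p_wS_32_wQ_26_wN_1_rb8033062259_d51_d1e_30 g__wS_32_wQ_26_wN_1_rb8033062259_d51_d1e_31 g__wS_32_wQ_26_wN_1_rb8033062259_d51_d1e_33

theorem g__wS_32_wQ_26_wN_1_rb8033062259_d51_d1e_27 : GoodKC AS k_wS_32_wQ_26_wN_1_rb8033062259_d51_d1e_27 := p_wS_32_wQ_26_wN_1_rb8033062259_d51_d1e_27 g__wS_32_wQ_26_wN_1_rb8033062259_d51_d1e_28 g__wS_32_wQ_26_wN_1_rb8033062259_d51_d1e_29 g__wS_32_wQ_26_wN_1_rb8033062259_d51_d1e_30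

theorem g_wS_32_wQ_26_wN_1_rb8033062259_d51_d1e05 : GoodKC AS c_wS_32_wQ_26_wN_1_rb8033062259_d51_d1e05 := p_wS_32_wQ_26_wN_1_rb8033062259_d51_d1e05

theorem g_wS_32_wQ_26_wN_1_rb8033062259_d51_d1e0e : GoodKC AS c_wS_32_wQ_26_wN_1_rb8033062259_d51_d1e0e := p_wS_32_wQ_26_wN_1_rb8033062259_d51_d1e0e

theorem g_wS_32_wQ_26_wN_1_rb8033062259_d51_d1e0f : GoodKC AS c_wS_32_wQ_26_wN_1_rb8033062259_d51_d1e0f := p_wS_32_wQ_26_wN_1_rb8033062259_d51_d1e0f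

theorem g__wS_32_wQ_26_wN_1_rb8033062259_d51_d1e12_0 : GoodKC AS k_wS_32_wQ_26_wN_1_rb8033062259_d51_d1e12_0 := p_wS_32_wQ_26_wN_1_rb8033062259_d51_d1e12_0

theorem g__wS_32_wQ_26_wN_1_rb8033062259_d51_d1e12_1 : GoodKC AS k_wS_32_wQ_26_wN_1_rb8033062259_d51_d1e12_1 := p_wS_32_wQ_26_wN_1_rb8033062259_d51_d1e12_1

theorem g_wS_32_wQ_26_wN_1_rb8033062259_d51_d1e12 : GoodKC AS c_wS_32_wQ_26_wN_1_rb8033062259_d51_d1e12 := p_wS_32_wQ_26_wN_1_rb8033062259_d51_d1e12 g__wS_32_wQ_26_wN_1_rb8033062259_d51_d1e12_0 g__wS_32_wQ_26_wN_1_rb8033062259_d51_d1e12_1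

theorem g__wS_32_wQ_26_wN_1_rb8033062259_d51_d1e14_1 : GoodKC AS k_wS_32_wQ_26_wN_1_rb8033062259_d51_d1e14_1 := p_wS_32_wQ_26_wN_1_rb8033062259_d51_d1e14_1

theorem g__wS_32_wQ_26_wN_1_rb8033062259_d51_d1e14_0 : GoodKC AS k_wS_32_wQ_26_wN_1_rb8033062259_d51_d1e14_0 := p_wS_32_wQ_26_wN_1_rb8033062259_d51_d1e14_0 g__wS_32_wQ_26_wN_1_rb8033062259_d51_d1e14_1

theorem g_wS_32_wQ_26_wN_1_rb8033062259_d51_d1e14 : GoodKC AS c_wS_32_wQ_26_wN_1_rb8033062259_d51_d1e14 := p_wS_32_wQ_26_wN_1_rb8033062259_d51_d1e14 g__wS_32_wQ_26_wN_1_rb8033062259_d51_d1e14_0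

theorem g_wS_32_wQ_26_wN_1_rb8033062259_d51_d1e16 : GoodKC AS c_wS_32_wQ_26_wN_1_rb8033062259_d51_d1e16 := p_wS_32_wQ_26_wN_1_rb8033062259_d51_d1e16

theorem g_wS_32_wQ_26_wN_1_rb8033062259_d51_d1e17 : GoodKC AS c_wS_32_wQ_26_wN_1_rb8033062259_d51_d1e17 := p_wS_32_wQ_26_wN_1_rb8033062259_d51_d1e17

theorem g_wS_32_wQ_26_wN_1_rb8033062259_d51_d1e18 : GoodKC AS c_wS_32_wQ_26_wN_1_rb8033062259_d51_d1e18 := p_wS_32_wQ_26_wN_1_rb8033062259_d51_d1e18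

theorem g_wS_32_wQ_26_wN_1_rb8033062259_d51_d1e1a : GoodKC AS c_wS_32_wQ_26_wN_1_rb8033062259_d51_d1e1a := p_wS_32_wQ_26_wN_1_rb8033062259_d51_d1e1a

theorem g_wS_32_wQ_26_wN_1_rb8033062259_d51_d1e1d : GoodKC AS c_wS_32_wQ_26_wN_1_rb8033062259_d51_d1e1d := p_wS_32_wQ_26_wN_1_rb8033062259_d51_d1e1d

theorem g__wS_32_wQ_26_wN_1_rb8033062259_d51_d1e20_3 : GoodKC AS k_wS_32_wQ_26_wN_1_rb8033062259_d51_d1e20_3 := p_wS_32_wQ_26_wN_1_rb8033062259_d51_d1e20_3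

theorem g__wS_32_wQ_26_wN_1_rb8033062259_d51_d1e20_2 : GoodKC AS k_wS_32_wQ_26_wN_1_rb8033062259_d51_d1e20_2 := p_wS_32_wQ_26_wN_1_rb8033062259_d51_d1e20_2 g__wS_32_wQ_26_wN_1_rb8033062259_d51_d1e20_3

theorem g__wS_32_wQ_26_wN_1_rb8033062259_d51_d1e20_1 : GoodKC AS k_wS_32_wQ_26_wN_1_rb8033062259_d51_d1e20_1 := p_wS_32_wQ_26_wN_1_rb8033062259_d51_d1e20_1 g__wS_32_wQ_26_wN_1_rb8033062259_d51_d1e20_2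

theorem g__wS_32_wQ_26_wN_1_rb8033062259_d51_d1e20_0 : GoodKC AS k_wS_32_wQ_26_wN_1_rb8033062259_d51_d1e20_0 := p_wS_32_wQ_26_wN_1_rb8033062259_d51_d1e20_0 g__wS_32_wQ_26_wN_1_rb8033062259_d51_d1e20_1

theorem g__wS_32_wQ_26_wN_1_rb8033062259_d51_d1e20_7 : GoodKC AS k_wS_32_wQ_26_wN_1_rb8033062259_d51_d1e20_7 := p_wS_32_wQ_26_wN_1_rb8033062259_d51_d1e20_7

theorem g__wS_32_wQ_26_wN_1_rb8033062259_d51_d1e20_6 : GoodKC AS k_wS_32_wQ_26_wN_1_rb8033062259_d51_d1e20_6 := p_wS_32_wQ_26_wN_1_rb8033062259_d51_d1e20_6 g__wS_32_wQ_26_wN_1_rb8033062259_d51_d1e20_7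

theorem g__wS_32_wQ_26_wN_1_rb8033062259_d51_d1e20_5 : GoodKC AS k_wS_32_wQ_26_wN_1_rb8033062259_d51_d1e20_5 := p_wS_32_wQ_26_wN_1_rb8033062259_d51_d1e20_5 g__wS_32_wQ_26_wN_1_rb8033062259_d51_d1e20_6

theorem g__wS_32_wQ_26_wN_1_rb8033062259_d51_d1e20_4 : GoodKC AS k_wS_32_wQ_26_wN_1_rb8033062259_d51_d1e20_4 := p_wS_32_wQ_26_wN_1_rb8033062259_d51_d1e20_4 g__wS_32_wQ_26_wN_1_rb8033062259_d51_d1e20_5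

theorem g_wS_32_wQ_26_wN_1_rb8033062259_d51_d1e20 : GoodKC AS c_wS_32_wQ_26_wN_1_rb8033062259_d51_d1e20 := p_wS_32_wQ_26_wN_1_rb8033062259_d51_d1e20 g__wS_32_wQ_26_wN_1_rb8033062259_d51_d1e20_0 g__wS_32_wQ_26_wN_1_rb8033062259_d51_d1e20_4

theorem g__wS_32_wQ_26_wN_1_rb8033062259_d51_d1e_25 : GoodKC AS k_wS_32_wQ_26_wN_1_rb8033062259_d51_d1e_25 := p_wS_32_wQ_26_wN_1_rb8033062259_d51_d1e_25 g_wS_32_wQ_26_wN_1_rb8033062259_d51_d1e1f g_wS_32_wQ_26_wN_1_rb8033062259_d51_d1e1e g_wS_32_wQ_26_wN_1_rb8033062259_d51_d1e1c g_wS_32_wQ_26_wN_1_rb8033062259_d51_d1e1b g_wS_32_wQ_26_wN_1_rb8033062259_d51_d1e19 g_wS_32_wQ_26_wN_1_rb8033062259_d51_d1e15 g_wS_32_wQ_26_wN_1_rb8033062259_d51_d1e13 g_wS_32_wQ_26_wN_1_rb8033062259_d51_d1e11 g_wS_32_wQ_26_wN_1_rb8033062259_d51_d1e10 g_wS_32_wQ_26_wN_1_rb8033062259_d51_d1e0d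 g_wS_32_wQ_26_wN_1_rb8033062259_d51_d1e0c g_wS_32_wQ_26_wN_1_rb8033062259_d51_d1e0b g_wS_32_wQ_26_wN_1_rb8033062259_d51_d1e0a g_wS_32_wQ_26_wN_1_rb8033062259_d51_d1e09 g_wS_32_wQ_26_wN_1_rb8033062259_d51_d1e08 g_wS_32_wQ_26_wN_1_rb8033062259_d51_d1e07 g_wS_32_wQ_26_wN_1_rb8033062259_d51_d1e06 g_wS_32_wQ_26_wN_1_rb8033062259_d51_d1e03 g_wS_32_wQ_26_wN_1_rb8033062259_d51_d1e02 g_wS_32_wQ_26_wN_1_rb8033062259_d51_d1e00 g_wS_32_wQ_26_wN_1_rb8033062259_d51_d1e01 g_wS_32_wQ_26_wN_1_rb8033062259_d51_d1e04 g__wS_32_wQ_26_wN_1_rb8033062259_d51_d1e_26 g__wS_32_wQ_26_wN_1_rb8033062259_d51_d1e_27 g_wS_32_wQ_26_wN_1_rb8033062259_d51_d1e05 g_wS_32_wQ_26_wN_1_rb8033062259_d51_d1e0e g_wS_32_wQ_26_wN_1_rb8033062259_d51_d1e0f g_wS_32_wQ_26_wN_1_rb8033062259_d51_d1e12 g_wS_32_wQ_26_wN_1_rb8033062259_d51_d1e14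 g_wS_32_wQ_26_wN_1_rb8033062259_d51_d1e16 g_wS_32_wQ_26_wN_1_rb8033062259_d51_d1e17 g_wS_32_wQ_26_wN_1_rb8033062259_d51_d1e18 g_wS_32_wQ_26_wN_1_rb8033062259_d51_d1e1a g_wS_32_wQ_26_wN_1_rb8033062259_d51_d1e1d g_wS_32_wQ_26_wN_1_rb8033062259_d51_d1e20

theorem g_wS_32_wQ_26_wN_1_rb8033062259_d51_d1e23 : GoodKC AS c_wS_32_wQ_26_wN_1_rb8033062259_d51_d1e23 := p_wS_32_wQ_26_wN_1_rb8033062259_d51_d1e23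

theorem g__wS_32_wQ_26_wN_1_rb8033062259_d51_d1e24_5 : GoodKC AS k_wS_32_wQ_26_wN_1_rb8033062259_d51_d1e24_5 := p_wS_32_wQ_26_wN_1_rb8033062259_d51_d1e24_5

theorem g__wS_32_wQ_26_wN_1_rb8033062259_d51_d1e24_6 : GoodKC AS k_wS_32_wQ_26_wN_1_rb8033062259_d51_d1e24_6 := p_wS_32_wQ_26_wN_1_rb8033062259_d51_d1e24_6

theorem g__wS_32_wQ_26_wN_1_rb8033062259_d51_d1e24_4 : GoodKC AS k_wS_32_wQ_26_wN_1_rb8033062259_d51_d1e24_4 := p_wS_32_wQ_26_wN_1_rb8033062259_d51_d1e24_4 g__wS_32_wQ_26_wN_1_rb8033062259_d51_d1e24_5 g__wS_32_wQ_26_wN_1_rb8033062259_d51_d1e24_6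

theorem g__wS_32_wQ_26_wN_1_rb8033062259_d51_d1e24_3 : GoodKC AS k_wS_32_wQ_26_wN_1_rb8033062259_d51_d1e24_3 := p_wS_32_wQ_26_wN_1_rb8033062259_d51_d1e24_3 g__wS_32_wQ_26_wN_1_rb8033062259_d51_d1e24_4

theorem g__wS_32_wQ_26_wN_1_rb8033062259_d51_d1e24_2 : GoodKC AS k_wS_32_wQ_26_wN_1_rb8033062259_d51_d1e24_2 := p_wS_32_wQ_26_wN_1_rb8033062259_d51_d1e24_2 g__wS_32_wQ_26_wN_1_rb8033062259_d51_d1e24_3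

theorem g__wS_32_wQ_26_wN_1_rb8033062259_d51_d1e24_1 : GoodKC AS k_wS_32_wQ_26_wN_1_rb8033062259_d51_d1e24_1 := p_wS_32_wQ_26_wN_1_rb8033062259_d51_d1e24_1 g__wS_32_wQ_26_wN_1_rb8033062259_d51_d1e24_2

theorem g__wS_32_wQ_26_wN_1_rb8033062259_d51_d1e24_8 : GoodKC AS k_wS_32_wQ_26_wN_1_rb8033062259_d51_d1e24_8 := p_wS_32_wQ_26_wN_1_rb8033062259_d51_d1e24_8

theorem g__wS_32_wQ_26_wN_1_rb8033062259_d51_d1e24_7 : GoodKC AS k_wS_32_wQ_26_wN_1_rb8033062259_d51_d1e24_7 := p_wS_32_wQ_26_wN_1_rb8033062259_d51_d1e24_7 g__wS_32_wQ_26_wN_1_rb8033062259_d51_d1e24_8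

theorem g__wS_32_wQ_26_wN_1_rb8033062259_d51_d1e24_0 : GoodKC AS k_wS_32_wQ_26_wN_1_rb8033062259_d51_d1e24_0 := p_wS_32_wQ_26_wN_1_rb8033062259_d51_d1e24_0 g__wS_32_wQ_26_wN_1_rb8033062259_d51_d1e24_1 g__wS_32_wQ_26_wN_1_rb8033062259_d51_d1e24_7

theorem g__wS_32_wQ_26_wN_1_rb8033062259_d51_d1e24_9 : GoodKC AS k_wS_32_wQ_26_wN_1_rb8033062259_d51_d1e24_9 := p_wS_32_wQ_26_wN_1_rb8033062259_d51_d1e24_9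

theorem g_wS_32_wQ_26_wN_1_rb8033062259_d51_d1e24 : GoodKC AS c_wS_32_wQ_26_wN_1_rb8033062259_d51_d1e24 := p_wS_32_wQ_26_wN_1_rb8033062259_d51_d1e24 g__wS_32_wQ_26_wN_1_rb8033062259_d51_d1e24_0 g__wS_32_wQ_26_wN_1_rb8033062259_d51_d1e24_9

theorem g_wS_32_wQ_26_wN_1_rb8033062259_d51_d1e25 : GoodKC AS c_wS_32_wQ_26_wN_1_rb8033062259_d51_d1e25 := p_wS_32_wQ_26_wN_1_rb8033062259_d51_d1e25

theorem g_wS_32_wQ_26_wN_1_rb8033062259_d51_d1e : GoodKC AS c_wS_32_wQ_26_wN_1_rb8033062259_d51_d1e := p_wS_32_wQ_26_wN_1_rb8033062259_d51_d1e g_wS_32_wQ_26_wN_1_rb8033062259_d51_d1e22 g_wS_32_wQ_26_wN_1_rb8033062259_d51_d1e21 g__wS_32_wQ_26_wN_1_rb8033062259_d51_d1e_0 g__wS_32_wQ_26_wN_1_rb8033062259_d51_d1e_11 g__wS_32_wQ_26_wN_1_rb8033062259_d51_d1e_25 g_wS_32_wQ_26_wN_1_rb8033062259_d51_d1e23 g_wS_32_wQ_26_wN_1_rb8033062259_d51_d1e24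 g_wS_32_wQ_26_wN_1_rb8033062259_d51_d1e25

theorem g_wS_32_wQ_26_wN_1_rb8033062259_d51_d20 : GoodKC AS c_wS_32_wQ_26_wN_1_rb8033062259_d51_d20 := p_wS_32_wQ_26_wN_1_rb8033062259_d51_d20

theorem g__wS_32_wQ_26_wN_1_rb8033062259_d51_d24v2_2 : GoodKC AS k_wS_32_wQ_26_wN_1_rb8033062259_d51_d24v2_2 := p_wS_32_wQ_26_wN_1_rb8033062259_d51_d24v2_2

theorem g__wS_32_wQ_26_wN_1_rb8033062259_d51_d24v2_1 : GoodKC AS k_wS_32_wQ_26_wN_1_rb8033062259_d51_d24v2_1 := p_wS_32_wQ_26_wN_1_rb8033062259_d51_d24v2_1 g__wS_32_wQ_26_wN_1_rb8033062259_d51_d24v2_2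

theorem g__wS_32_wQ_26_wN_1_rb8033062259_d51_d24v2_3 : GoodKC AS k_wS_32_wQ_26_wN_1_rb8033062259_d51_d24v2_3 := p_wS_32_wQ_26_wN_1_rb8033062259_d51_d24v2_3

theorem g__wS_32_wQ_26_wN_1_rb8033062259_d51_d24v2_0 : GoodKC AS k_wS_32_wQ_26_wN_1_rb8033062259_d51_d24v2_0 := p_wS_32_wQ_26_wN_1_rb8033062259_d51_d24v2_0 g__wS_32_wQ_26_wN_1_rb8033062259_d51_d24v2_1 g__wS_32_wQ_26_wN_1_rb8033062259_d51_d24v2_3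

theorem g__wS_32_wQ_26_wN_1_rb8033062259_d51_d24v2_6 : GoodKC AS k_wS_32_wQ_26_wN_1_rb8033062259_d51_d24v2_6 := p_wS_32_wQ_26_wN_1_rb8033062259_d51_d24v2_6

theorem g__wS_32_wQ_26_wN_1_rb8033062259_d51_d24v2_9 : GoodKC AS k_wS_32_wQ_26_wN_1_rb8033062259_d51_d24v2_9 := p_wS_32_wQ_26_wN_1_rb8033062259_d51_d24v2_9

theorem g__wS_32_wQ_26_wN_1_rb8033062259_d51_d24v2_8 : GoodKC AS k_wS_32_wQ_26_wN_1_rb8033062259_d51_d24v2_8 := p_wS_32_wQ_26_wN_1_rb8033062259_d51_d24v2_8 g__wS_32_wQ_26_wN_1_rb8033062259_d51_d24v2_9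

theorem g__wS_32_wQ_26_wN_1_rb8033062259_d51_d24v2_7 : GoodKC AS k_wS_32_wQ_26_wN_1_rb8033062259_d51_d24v2_7 := p_wS_32_wQ_26_wN_1_rb8033062259_d51_d24v2_7 g__wS_32_wQ_26_wN_1_rb8033062259_d51_d24v2_8

theorem g__wS_32_wQ_26_wN_1_rb8033062259_d51_d24v2_5 : GoodKC AS k_wS_32_wQ_26_wN_1_rb8033062259_d51_d24v2_5 := p_wS_32_wQ_26_wN_1_rb8033062259_d51_d24v2_5 g__wS_32_wQ_26_wN_1_rb8033062259_d51_d24v2_6 g__wS_32_wQ_26_wN_1_rb8033062259_d51_d24v2_7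

theorem g__wS_32_wQ_26_wN_1_rb8033062259_d51_d24v2_4 : GoodKC AS k_wS_32_wQ_26_wN_1_rb8033062259_d51_d24v2_4 := p_wS_32_wQ_26_wN_1_rb8033062259_d51_d24v2_4 g__wS_32_wQ_26_wN_1_rb8033062259_d51_d24v2_5

theorem g_wS_32_wQ_26_wN_1_rb8033062259_d51_d24 : GoodKC AS c_wS_32_wQ_26_wN_1_rb8033062259_d51_d24 := p_wS_32_wQ_26_wN_1_rb8033062259_d51_d24v2 g__wS_32_wQ_26_wN_1_rb8033062259_d51_d24v2_0 g__wS_32_wQ_26_wN_1_rb8033062259_d51_d24v2_4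

theorem g_wS_32_wQ_26_wN_1_rb8033062259_d51_d2549_d51_d23 : GoodKC AS c_wS_32_wQ_26_wN_1_rb8033062259_d51_d2549_d51_d23 := p_wS_32_wQ_26_wN_1_rb8033062259_d51_d2549_d51_d23

theorem g__wS_32_wQ_26_wN_1_rb8033062259_d51_d2549_d51_d22_0 : GoodKC AS k_wS_32_wQ_26_wN_1_rb8033062259_d51_d2549_d51_d22_0 := p_wS_32_wQ_26_wN_1_rb8033062259_d51_d2549_d51_d22_0

theorem g_wS_32_wQ_26_wN_1_rb8033062259_d51_d2549_d51_d22 : GoodKC AS c_wS_32_wQ_26_wN_1_rb8033062259_d51_d2549_d51_d22 := p_wS_32_wQ_26_wN_1_rb8033062259_d51_d2549_d51_d22 g__wS_32_wQ_26_wN_1_rb8033062259_d51_d2549_d51_d22_0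

theorem g_wS_32_wQ_26_wN_1_rb8033062259_d51_d2549_d51_d21 : GoodKC AS c_wS_32_wQ_26_wN_1_rb8033062259_d51_d2549_d51_d21 := p_wS_32_wQ_26_wN_1_rb8033062259_d51_d2549_d51_d21

theorem g_wS_32_wQ_26_wN_1_rb8033062259_d51_d2549_d51_d1f : GoodKC AS c_wS_32_wQ_26_wN_1_rb8033062259_d51_d2549_d51_d1f := p_wS_32_wQ_26_wN_1_rb8033062259_d51_d2549_d51_d1f

theorem g_wS_32_wQ_26_wN_1_rb8033062259_d51_d2549_d51_d1e : GoodKC AS c_wS_32_wQ_26_wN_1_rb8033062259_d51_d2549_d51_d1e := p_wS_32_wQ_26_wN_1_rb8033062259_d51_d2549_d51_d1e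

theorem g__wS_32_wQ_26_wN_1_rb8033062259_d51_d2549_d51_d1dv1_1 : GoodKC AS k_wS_32_wQ_26_wN_1_rb8033062259_d51_d2549_d51_d1dv1_1 := p_wS_32_wQ_26_wN_1_rb8033062259_d51_d2549_d51_d1dv1_1

theorem g__wS_32_wQ_26_wN_1_rb8033062259_d51_d2549_d51_d1dv1_10 : GoodKC AS k_wS_32_wQ_26_wN_1_rb8033062259_d51_d2549_d51_d1dv1_10 := p_wS_32_wQ_26_wN_1_rb8033062259_d51_d2549_d51_d1dv1_10

theorem g__wS_32_wQ_26_wN_1_rb8033062259_d51_d2549_d51_d1dv1_9 : GoodKC AS k_wS_32_wQ_26_wN_1_rb8033062259_d51_d2549_d51_d1dv1_9 := p_wS_32_wQ_26_wN_1_rb8033062259_d51_d2549_d51_d1dv1_9 g__wS_32_wQ_26_wN_1_rb8033062259_d51_d2549_d51_d1dv1_10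

theorem g__wS_32_wQ_26_wN_1_rb8033062259_d51_d2549_d51_d1dv1_12 : GoodKC AS k_wS_32_wQ_26_wN_1_rb8033062259_d51_d2549_d51_d1dv1_12 := p_wS_32_wQ_26_wN_1_rb8033062259_d51_d2549_d51_d1dv1_12

theorem g__wS_32_wQ_26_wN_1_rb8033062259_d51_d2549_d51_d1dv1_11 : GoodKC AS k_wS_32_wQ_26_wN_1_rb8033062259_d51_d2549_d51_d1dv1_11 := p_wS_32_wQ_26_wN_1_rb8033062259_d51_d2549_d51_d1dv1_11 g__wS_32_wQ_26_wN_1_rb8033062259_d51_d2549_d51_d1dv1_12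

theorem g__wS_32_wQ_26_wN_1_rb8033062259_d51_d2549_d51_d1dv1_8 : GoodKC AS k_wS_32_wQ_26_wN_1_rb8033062259_d51_d2549_d51_d1dv1_8 := p_wS_32_wQ_26_wN_1_rb8033062259_d51_d2549_d51_d1dv1_8 g__wS_32_wQ_26_wN_1_rb8033062259_d51_d2549_d51_d1dv1_9 g__wS_32_wQ_26_wN_1_rb8033062259_d51_d2549_d51_d1dv1_11

theorem g__wS_32_wQ_26_wN_1_rb8033062259_d51_d2549_d51_d1dv1_7 : GoodKC AS k_wS_32_wQ_26_wN_1_rb8033062259_d51_d2549_d51_d1dv1_7 := p_wS_32_wQ_26_wN_1_rb8033062259_d51_d2549_d51_d1dv1_7 g__wS_32_wQ_26_wN_1_rb8033062259_d51_d2549_d51_d1dv1_8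

theorem g__wS_32_wQ_26_wN_1_rb8033062259_d51_d2549_d51_d1dv1_6 : GoodKC AS k_wS_32_wQ_26_wN_1_rb8033062259_d51_d2549_d51_d1dv1_6 := p_wS_32_wQ_26_wN_1_rb8033062259_d51_d2549_d51_d1dv1_6 g__wS_32_wQ_26_wN_1_rb8033062259_d51_d2549_d51_d1dv1_7

theorem g__wS_32_wQ_26_wN_1_rb8033062259_d51_d2549_d51_d1dv1_5 : GoodKC AS k_wS_32_wQ_26_wN_1_rb8033062259_d51_d2549_d51_d1dv1_5 := p_wS_32_wQ_26_wN_1_rb8033062259_d51_d2549_d51_d1dv1_5 g__wS_32_wQ_26_wN_1_rb8033062259_d51_d2549_d51_d1dv1_6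

theorem g__wS_32_wQ_26_wN_1_rb8033062259_d51_d2549_d51_d1dv1_4 : GoodKC AS k_wS_32_wQ_26_wN_1_rb8033062259_d51_d2549_d51_d1dv1_4 := p_wS_32_wQ_26_wN_1_rb8033062259_d51_d2549_d51_d1dv1_4 g__wS_32_wQ_26_wN_1_rb8033062259_d51_d2549_d51_d1dv1_5

theorem g__wS_32_wQ_26_wN_1_rb8033062259_d51_d2549_d51_d1dv1_3 : GoodKC AS k_wS_32_wQ_26_wN_1_rb8033062259_d51_d2549_d51_d1dv1_3 := p_wS_32_wQ_26_wN_1_rb8033062259_d51_d2549_d51_d1dv1_3 g__wS_32_wQ_26_wN_1_rb8033062259_d51_d2549_d51_d1dv1_4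

theorem g__wS_32_wQ_26_wN_1_rb8033062259_d51_d2549_d51_d1dv1_2 : GoodKC AS k_wS_32_wQ_26_wN_1_rb8033062259_d51_d2549_d51_d1dv1_2 := p_wS_32_wQ_26_wN_1_rb8033062259_d51_d2549_d51_d1dv1_2 g__wS_32_wQ_26_wN_1_rb8033062259_d51_d2549_d51_d1dv1_3

theorem g__wS_32_wQ_26_wN_1_rb8033062259_d51_d2549_d51_d1dv1_0 : GoodKC AS k_wS_32_wQ_26_wN_1_rb8033062259_d51_d2549_d51_d1dv1_0 := p_wS_32_wQ_26_wN_1_rb8033062259_d51_d2549_d51_d1dv1_0 g__wS_32_wQ_26_wN_1_rb8033062259_d51_d2549_d51_d1dv1_1 g__wS_32_wQ_26_wN_1_rb8033062259_d51_d2549_d51_d1dv1_2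

theorem g_wS_32_wQ_26_wN_1_rb8033062259_d51_d2549_d51_d1d : GoodKC AS c_wS_32_wQ_26_wN_1_rb8033062259_d51_d2549_d51_d1d := p_wS_32_wQ_26_wN_1_rb8033062259_d51_d2549_d51_d1dv1 g__wS_32_wQ_26_wN_1_rb8033062259_d51_d2549_d51_d1dv1_0

theorem g_wS_32_wQ_26_wN_1_rb8033062259_d51_d2549_d51_d1c : GoodKC AS c_wS_32_wQ_26_wN_1_rb8033062259_d51_d2549_d51_d1c := p_wS_32_wQ_26_wN_1_rb8033062259_d51_d2549_d51_d1c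

theorem g_wS_32_wQ_26_wN_1_rb8033062259_d51_d2549_d51_d1a : GoodKC AS c_wS_32_wQ_26_wN_1_rb8033062259_d51_d2549_d51_d1a := p_wS_32_wQ_26_wN_1_rb8033062259_d51_d2549_d51_d1a

theorem g_wS_32_wQ_26_wN_1_rb8033062259_d51_d2549_d51_d18 : GoodKC AS c_wS_32_wQ_26_wN_1_rb8033062259_d51_d2549_d51_d18 := p_wS_32_wQ_26_wN_1_rb8033062259_d51_d2549_d51_d18

theorem g_wS_32_wQ_26_wN_1_rb8033062259_d51_d2549_d51_d17 : GoodKC AS c_wS_32_wQ_26_wN_1_rb8033062259_d51_d2549_d51_d17 := p_wS_32_wQ_26_wN_1_rb8033062259_d51_d2549_d51_d17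

theorem g_wS_32_wQ_26_wN_1_rb8033062259_d51_d2549_d51_d15 : GoodKC AS c_wS_32_wQ_26_wN_1_rb8033062259_d51_d2549_d51_d15 := p_wS_32_wQ_26_wN_1_rb8033062259_d51_d2549_d51_d15

theorem g_wS_32_wQ_26_wN_1_rb8033062259_d51_d2549_d51_d10 : GoodKC AS c_wS_32_wQ_26_wN_1_rb8033062259_d51_d2549_d51_d10 := p_wS_32_wQ_26_wN_1_rb8033062259_d51_d2549_d51_d10

theorem g_wS_32_wQ_26_wN_1_rb8033062259_d51_d2549_d51_d0f : GoodKC AS c_wS_32_wQ_26_wN_1_rb8033062259_d51_d2549_d51_d0f := p_wS_32_wQ_26_wN_1_rb8033062259_d51_d2549_d51_d0f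

theorem g_wS_32_wQ_26_wN_1_rb8033062259_d51_d2549_d51_d0b : GoodKC AS c_wS_32_wQ_26_wN_1_rb8033062259_d51_d2549_d51_d0b := p_wS_32_wQ_26_wN_1_rb8033062259_d51_d2549_d51_d0b

theorem g__wS_32_wQ_26_wN_1_rb8033062259_d51_d2549_d51_d0a_0 : GoodKC AS k_wS_32_wQ_26_wN_1_rb8033062259_d51_d2549_d51_d0a_0 := p_wS_32_wQ_26_wN_1_rb8033062259_d51_d2549_d51_d0a_0

theorem g_wS_32_wQ_26_wN_1_rb8033062259_d51_d2549_d51_d0a : GoodKC AS c_wS_32_wQ_26_wN_1_rb8033062259_d51_d2549_d51_d0a := p_wS_32_wQ_26_wN_1_rb8033062259_d51_d2549_d51_d0a g__wS_32_wQ_26_wN_1_rb8033062259_d51_d2549_d51_d0a_0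

theorem g_wS_32_wQ_26_wN_1_rb8033062259_d51_d2549_d51_d09 : GoodKC AS c_wS_32_wQ_26_wN_1_rb8033062259_d51_d2549_d51_d09 := p_wS_32_wQ_26_wN_1_rb8033062259_d51_d2549_d51_d09

theorem g_wS_32_wQ_26_wN_1_rb8033062259_d51_d2549_d51_d07 : GoodKC AS c_wS_32_wQ_26_wN_1_rb8033062259_d51_d2549_d51_d07 := p_wS_32_wQ_26_wN_1_rb8033062259_d51_d2549_d51_d07

theorem g_wS_32_wQ_26_wN_1_rb8033062259_d51_d2549_d51_d05 : GoodKC AS c_wS_32_wQ_26_wN_1_rb8033062259_d51_d2549_d51_d05 := p_wS_32_wQ_26_wN_1_rb8033062259_d51_d2549_d51_d05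

theorem g_wS_32_wQ_26_wN_1_rb8033062259_d51_d2549_d51_d03 : GoodKC AS c_wS_32_wQ_26_wN_1_rb8033062259_d51_d2549_d51_d03 := p_wS_32_wQ_26_wN_1_rb8033062259_d51_d2549_d51_d03

theorem g_wS_32_wQ_26_wN_1_rb8033062259_d51_d2549_d51_d01 : GoodKC AS c_wS_32_wQ_26_wN_1_rb8033062259_d51_d2549_d51_d01 := p_wS_32_wQ_26_wN_1_rb8033062259_d51_d2549_d51_d01

theorem g__wS_32_wQ_26_wN_1_rb8033062259_d51_d2549_d51_d00_0 : GoodKC AS k_wS_32_wQ_26_wN_1_rb8033062259_d51_d2549_d51_d00_0 := p_wS_32_wQ_26_wN_1_rb8033062259_d51_d2549_d51_d00_0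

theorem g_wS_32_wQ_26_wN_1_rb8033062259_d51_d2549_d51_d00 : GoodKC AS c_wS_32_wQ_26_wN_1_rb8033062259_d51_d2549_d51_d00 := p_wS_32_wQ_26_wN_1_rb8033062259_d51_d2549_d51_d00 g__wS_32_wQ_26_wN_1_rb8033062259_d51_d2549_d51_d00_0

theorem g_wS_32_wQ_26_wN_1_rb8033062259_d51_d2549_d51_d02 : GoodKC AS c_wS_32_wQ_26_wN_1_rb8033062259_d51_d2549_d51_d02 := p_wS_32_wQ_26_wN_1_rb8033062259_d51_d2549_d51_d02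

theorem g_wS_32_wQ_26_wN_1_rb8033062259_d51_d2549_d51_d04 : GoodKC AS c_wS_32_wQ_26_wN_1_rb8033062259_d51_d2549_d51_d04 := p_wS_32_wQ_26_wN_1_rb8033062259_d51_d2549_d51_d04

theorem g__wS_32_wQ_26_wN_1_rb8033062259_d51_d2549_d51_d06v1_5 : GoodKC AS k_wS_32_wQ_26_wN_1_rb8033062259_d51_d2549_d51_d06v1_5 := p_wS_32_wQ_26_wN_1_rb8033062259_d51_d2549_d51_d06v1_5

theorem g__wS_32_wQ_26_wN_1_rb8033062259_d51_d2549_d51_d06v1_4 : GoodKC AS k_wS_32_wQ_26_wN_1_rb8033062259_d51_d2549_d51_d06v1_4 := p_wS_32_wQ_26_wN_1_rb8033062259_d51_d2549_d51_d06v1_4 g__wS_32_wQ_26_wN_1_rb8033062259_d51_d2549_d51_d06v1_5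

theorem g__wS_32_wQ_26_wN_1_rb8033062259_d51_d2549_d51_d06v1_3 : GoodKC AS k_wS_32_wQ_26_wN_1_rb8033062259_d51_d2549_d51_d06v1_3 := p_wS_32_wQ_26_wN_1_rb8033062259_d51_d2549_d51_d06v1_3 g__wS_32_wQ_26_wN_1_rb8033062259_d51_d2549_d51_d06v1_4

theorem g__wS_32_wQ_26_wN_1_rb8033062259_d51_d2549_d51_d06v1_2 : GoodKC AS k_wS_32_wQ_26_wN_1_rb8033062259_d51_d2549_d51_d06v1_2 := p_wS_32_wQ_26_wN_1_rb8033062259_d51_d2549_d51_d06v1_2 g__wS_32_wQ_26_wN_1_rb8033062259_d51_d2549_d51_d06v1_3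

theorem g__wS_32_wQ_26_wN_1_rb8033062259_d51_d2549_d51_d06v1_1 : GoodKC AS k_wS_32_wQ_26_wN_1_rb8033062259_d51_d2549_d51_d06v1_1 := p_wS_32_wQ_26_wN_1_rb8033062259_d51_d2549_d51_d06v1_1 g__wS_32_wQ_26_wN_1_rb8033062259_d51_d2549_d51_d06v1_2

theorem g__wS_32_wQ_26_wN_1_rb8033062259_d51_d2549_d51_d06v1_0 : GoodKC AS k_wS_32_wQ_26_wN_1_rb8033062259_d51_d2549_d51_d06v1_0 := p_wS_32_wQ_26_wN_1_rb8033062259_d51_d2549_d51_d06v1_0 g__wS_32_wQ_26_wN_1_rb8033062259_d51_d2549_d51_d06v1_1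

theorem g_wS_32_wQ_26_wN_1_rb8033062259_d51_d2549_d51_d06 : GoodKC AS c_wS_32_wQ_26_wN_1_rb8033062259_d51_d2549_d51_d06 := p_wS_32_wQ_26_wN_1_rb8033062259_d51_d2549_d51_d06v1 g__wS_32_wQ_26_wN_1_rb8033062259_d51_d2549_d51_d06v1_0

theorem g_wS_32_wQ_26_wN_1_rb8033062259_d51_d2549_d51_d08 : GoodKC AS c_wS_32_wQ_26_wN_1_rb8033062259_d51_d2549_d51_d08 := p_wS_32_wQ_26_wN_1_rb8033062259_d51_d2549_d51_d08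

theorem g_wS_32_wQ_26_wN_1_rb8033062259_d51_d2549_d51_d0c : GoodKC AS c_wS_32_wQ_26_wN_1_rb8033062259_d51_d2549_d51_d0c := p_wS_32_wQ_26_wN_1_rb8033062259_d51_d2549_d51_d0c

theorem g_wS_32_wQ_26_wN_1_rb8033062259_d51_d2549_d51_d0d : GoodKC AS c_wS_32_wQ_26_wN_1_rb8033062259_d51_d2549_d51_d0d := p_wS_32_wQ_26_wN_1_rb8033062259_d51_d2549_d51_d0d

theorem g_wS_32_wQ_26_wN_1_rb8033062259_d51_d2549_d51_d0e : GoodKC AS c_wS_32_wQ_26_wN_1_rb8033062259_d51_d2549_d51_d0e := p_wS_32_wQ_26_wN_1_rb8033062259_d51_d2549_d51_d0e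

theorem g_wS_32_wQ_26_wN_1_rb8033062259_d51_d2549_d51_d11 : GoodKC AS c_wS_32_wQ_26_wN_1_rb8033062259_d51_d2549_d51_d11 := p_wS_32_wQ_26_wN_1_rb8033062259_d51_d2549_d51_d11

theorem g_wS_32_wQ_26_wN_1_rb8033062259_d51_d2549_d51_d12 : GoodKC AS c_wS_32_wQ_26_wN_1_rb8033062259_d51_d2549_d51_d12 := p_wS_32_wQ_26_wN_1_rb8033062259_d51_d2549_d51_d12

theorem g_wS_32_wQ_26_wN_1_rb8033062259_d51_d2549_d51_d13 : GoodKC AS c_wS_32_wQ_26_wN_1_rb8033062259_d51_d2549_d51_d13 := p_wS_32_wQ_26_wN_1_rb8033062259_d51_d2549_d51_d13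

theorem g_wS_32_wQ_26_wN_1_rb8033062259_d51_d2549_d51_d14 : GoodKC AS c_wS_32_wQ_26_wN_1_rb8033062259_d51_d2549_d51_d14 := p_wS_32_wQ_26_wN_1_rb8033062259_d51_d2549_d51_d14

theorem g_wS_32_wQ_26_wN_1_rb8033062259_d51_d2549_d51_d16 : GoodKC AS c_wS_32_wQ_26_wN_1_rb8033062259_d51_d2549_d51_d16 := p_wS_32_wQ_26_wN_1_rb8033062259_d51_d2549_d51_d16

theorem g__wS_32_wQ_26_wN_1_rb8033062259_d51_d2549_d51_d19_7 : GoodKC AS k_wS_32_wQ_26_wN_1_rb8033062259_d51_d2549_d51_d19_7 := p_wS_32_wQ_26_wN_1_rb8033062259_d51_d2549_d51_d19_7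

theorem g__wS_32_wQ_26_wN_1_rb8033062259_d51_d2549_d51_d19_6 : GoodKC AS k_wS_32_wQ_26_wN_1_rb8033062259_d51_d2549_d51_d19_6 := p_wS_32_wQ_26_wN_1_rb8033062259_d51_d2549_d51_d19_6 g__wS_32_wQ_26_wN_1_rb8033062259_d51_d2549_d51_d19_7

theorem g__wS_32_wQ_26_wN_1_rb8033062259_d51_d2549_d51_d19_10 : GoodKC AS k_wS_32_wQ_26_wN_1_rb8033062259_d51_d2549_d51_d19_10 := p_wS_32_wQ_26_wN_1_rb8033062259_d51_d2549_d51_d19_10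

theorem g__wS_32_wQ_26_wN_1_rb8033062259_d51_d2549_d51_d19_9 : GoodKC AS k_wS_32_wQ_26_wN_1_rb8033062259_d51_d2549_d51_d19_9 := p_wS_32_wQ_26_wN_1_rb8033062259_d51_d2549_d51_d19_9 g__wS_32_wQ_26_wN_1_rb8033062259_d51_d2549_d51_d19_10

theorem g__wS_32_wQ_26_wN_1_rb8033062259_d51_d2549_d51_d19_8 : GoodKC AS k_wS_32_wQ_26_wN_1_rb8033062259_d51_d2549_d51_d19_8 := p_wS_32_wQ_26_wN_1_rb8033062259_d51_d2549_d51_d19_8 g__wS_32_wQ_26_wN_1_rb8033062259_d51_d2549_d51_d19_9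

theorem g__wS_32_wQ_26_wN_1_rb8033062259_d51_d2549_d51_d19_21 : GoodKC AS k_wS_32_wQ_26_wN_1_rb8033062259_d51_d2549_d51_d19_21 := p_wS_32_wQ_26_wN_1_rb8033062259_d51_d2549_d51_d19_21

theorem g__wS_32_wQ_26_wN_1_rb8033062259_d51_d2549_d51_d19_24 : GoodKC AS k_wS_32_wQ_26_wN_1_rb8033062259_d51_d2549_d51_d19_24 := p_wS_32_wQ_26_wN_1_rb8033062259_d51_d2549_d51_d19_24

theorem g__wS_32_wQ_26_wN_1_rb8033062259_d51_d2549_d51_d19_23 : GoodKC AS k_wS_32_wQ_26_wN_1_rb8033062259_d51_d2549_d51_d19_23 := p_wS_32_wQ_26_wN_1_rb8033062259_d51_d2549_d51_d19_23 g__wS_32_wQ_26_wN_1_rb8033062259_d51_d2549_d51_d19_24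

theorem g__wS_32_wQ_26_wN_1_rb8033062259_d51_d2549_d51_d19_22 : GoodKC AS k_wS_32_wQ_26_wN_1_rb8033062259_d51_d2549_d51_d19_22 := p_wS_32_wQ_26_wN_1_rb8033062259_d51_d2549_d51_d19_22 g__wS_32_wQ_26_wN_1_rb8033062259_d51_d2549_d51_d19_23

theorem g__wS_32_wQ_26_wN_1_rb8033062259_d51_d2549_d51_d19_20 : GoodKC AS k_wS_32_wQ_26_wN_1_rb8033062259_d51_d2549_d51_d19_20 := p_wS_32_wQ_26_wN_1_rb8033062259_d51_d2549_d51_d19_20 g__wS_32_wQ_26_wN_1_rb8033062259_d51_d2549_d51_d19_21 g__wS_32_wQ_26_wN_1_rb8033062259_d51_d2549_d51_d19_22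

theorem g__wS_32_wQ_26_wN_1_rb8033062259_d51_d2549_d51_d19_19 : GoodKC AS k_wS_32_wQ_26_wN_1_rb8033062259_d51_d2549_d51_d19_19 := p_wS_32_wQ_26_wN_1_rb8033062259_d51_d2549_d51_d19_19 g__wS_32_wQ_26_wN_1_rb8033062259_d51_d2549_d51_d19_20

theorem g__wS_32_wQ_26_wN_1_rb8033062259_d51_d2549_d51_d19_18 : GoodKC AS k_wS_32_wQ_26_wN_1_rb8033062259_d51_d2549_d51_d19_18 := p_wS_32_wQ_26_wN_1_rb8033062259_d51_d2549_d51_d19_18 g__wS_32_wQ_26_wN_1_rb8033062259_d51_d2549_d51_d19_19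

theorem g__wS_32_wQ_26_wN_1_rb8033062259_d51_d2549_d51_d19_17 : GoodKC AS k_wS_32_wQ_26_wN_1_rb8033062259_d51_d2549_d51_d19_17 := p_wS_32_wQ_26_wN_1_rb8033062259_d51_d2549_d51_d19_17 g__wS_32_wQ_26_wN_1_rb8033062259_d51_d2549_d51_d19_18

theorem g__wS_32_wQ_26_wN_1_rb8033062259_d51_d2549_d51_d19_16 : GoodKC AS k_wS_32_wQ_26_wN_1_rb8033062259_d51_d2549_d51_d19_16 := p_wS_32_wQ_26_wN_1_rb8033062259_d51_d2549_d51_d19_16 g__wS_32_wQ_26_wN_1_rb8033062259_d51_d2549_d51_d19_17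

theorem g__wS_32_wQ_26_wN_1_rb8033062259_d51_d2549_d51_d19_15 : GoodKC AS k_wS_32_wQ_26_wN_1_rb8033062259_d51_d2549_d51_d19_15 := p_wS_32_wQ_26_wN_1_rb8033062259_d51_d2549_d51_d19_15 g__wS_32_wQ_26_wN_1_rb8033062259_d51_d2549_d51_d19_16

theorem g__wS_32_wQ_26_wN_1_rb8033062259_d51_d2549_d51_d19_14 : GoodKC AS k_wS_32_wQ_26_wN_1_rb8033062259_d51_d2549_d51_d19_14 := p_wS_32_wQ_26_wN_1_rb8033062259_d51_d2549_d51_d19_14 g__wS_32_wQ_26_wN_1_rb8033062259_d51_d2549_d51_d19_15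

theorem g__wS_32_wQ_26_wN_1_rb8033062259_d51_d2549_d51_d19_13 : GoodKC AS k_wS_32_wQ_26_wN_1_rb8033062259_d51_d2549_d51_d19_13 := p_wS_32_wQ_26_wN_1_rb8033062259_d51_d2549_d51_d19_13 g__wS_32_wQ_26_wN_1_rb8033062259_d51_d2549_d51_d19_14

theorem g__wS_32_wQ_26_wN_1_rb8033062259_d51_d2549_d51_d19_12 : GoodKC AS k_wS_32_wQ_26_wN_1_rb8033062259_d51_d2549_d51_d19_12 := p_wS_32_wQ_26_wN_1_rb8033062259_d51_d2549_d51_d19_12 g__wS_32_wQ_26_wN_1_rb8033062259_d51_d2549_d51_d19_13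

theorem g__wS_32_wQ_26_wN_1_rb8033062259_d51_d2549_d51_d19_11 : GoodKC AS k_wS_32_wQ_26_wN_1_rb8033062259_d51_d2549_d51_d19_11 := p_wS_32_wQ_26_wN_1_rb8033062259_d51_d2549_d51_d19_11 g__wS_32_wQ_26_wN_1_rb8033062259_d51_d2549_d51_d19_12

theorem g__wS_32_wQ_26_wN_1_rb8033062259_d51_d2549_d51_d19_5 : GoodKC AS k_wS_32_wQ_26_wN_1_rb8033062259_d51_d2549_d51_d19_5 := p_wS_32_wQ_26_wN_1_rb8033062259_d51_d2549_d51_d19_5 g__wS_32_wQ_26_wN_1_rb8033062259_d51_d2549_d51_d19_6 g__wS_32_wQ_26_wN_1_rb8033062259_d51_d2549_d51_d19_8 g__wS_32_wQ_26_wN_1_rb8033062259_d51_d2549_d51_d19_11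

theorem g__wS_32_wQ_26_wN_1_rb8033062259_d51_d2549_d51_d19_4 : GoodKC AS k_wS_32_wQ_26_wN_1_rb8033062259_d51_d2549_d51_d19_4 := p_wS_32_wQ_26_wN_1_rb8033062259_d51_d2549_d51_d19_4 g__wS_32_wQ_26_wN_1_rb8033062259_d51_d2549_d51_d19_5

theorem g__wS_32_wQ_26_wN_1_rb8033062259_d51_d2549_d51_d19_3 : GoodKC AS k_wS_32_wQ_26_wN_1_rb8033062259_d51_d2549_d51_d19_3 := p_wS_32_wQ_26_wN_1_rb8033062259_d51_d2549_d51_d19_3 g__wS_32_wQ_26_wN_1_rb8033062259_d51_d2549_d51_d19_4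

theorem g__wS_32_wQ_26_wN_1_rb8033062259_d51_d2549_d51_d19_2 : GoodKC AS k_wS_32_wQ_26_wN_1_rb8033062259_d51_d2549_d51_d19_2 := p_wS_32_wQ_26_wN_1_rb8033062259_d51_d2549_d51_d19_2 g__wS_32_wQ_26_wN_1_rb8033062259_d51_d2549_d51_d19_3

theorem g__wS_32_wQ_26_wN_1_rb8033062259_d51_d2549_d51_d19_25 : GoodKC AS k_wS_32_wQ_26_wN_1_rb8033062259_d51_d2549_d51_d19_25 := p_wS_32_wQ_26_wN_1_rb8033062259_d51_d2549_d51_d19_25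

theorem g__wS_32_wQ_26_wN_1_rb8033062259_d51_d2549_d51_d19_1 : GoodKC AS k_wS_32_wQ_26_wN_1_rb8033062259_d51_d2549_d51_d19_1 := p_wS_32_wQ_26_wN_1_rb8033062259_d51_d2549_d51_d19_1 g__wS_32_wQ_26_wN_1_rb8033062259_d51_d2549_d51_d19_2 g__wS_32_wQ_26_wN_1_rb8033062259_d51_d2549_d51_d19_25

theorem g__wS_32_wQ_26_wN_1_rb8033062259_d51_d2549_d51_d19_0 : GoodKC AS k_wS_32_wQ_26_wN_1_rb8033062259_d51_d2549_d51_d19_0 := p_wS_32_wQ_26_wN_1_rb8033062259_d51_d2549_d51_d19_0 g__wS_32_wQ_26_wN_1_rb8033062259_d51_d2549_d51_d19_1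

theorem g_wS_32_wQ_26_wN_1_rb8033062259_d51_d2549_d51_d19 : GoodKC AS c_wS_32_wQ_26_wN_1_rb8033062259_d51_d2549_d51_d19 := p_wS_32_wQ_26_wN_1_rb8033062259_d51_d2549_d51_d19 g__wS_32_wQ_26_wN_1_rb8033062259_d51_d2549_d51_d19_0

theorem g__wS_32_wQ_26_wN_1_rb8033062259_d51_d2549_d51_d1b_0 : GoodKC AS k_wS_32_wQ_26_wN_1_rb8033062259_d51_d2549_d51_d1b_0 := p_wS_32_wQ_26_wN_1_rb8033062259_d51_d2549_d51_d1b_0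

theorem g_wS_32_wQ_26_wN_1_rb8033062259_d51_d2549_d51_d1b : GoodKC AS c_wS_32_wQ_26_wN_1_rb8033062259_d51_d2549_d51_d1b := p_wS_32_wQ_26_wN_1_rb8033062259_d51_d2549_d51_d1b g__wS_32_wQ_26_wN_1_rb8033062259_d51_d2549_d51_d1b_0

theorem g_wS_32_wQ_26_wN_1_rb8033062259_d51_d2549_d51_d20 : GoodKC AS c_wS_32_wQ_26_wN_1_rb8033062259_d51_d2549_d51_d20 := p_wS_32_wQ_26_wN_1_rb8033062259_d51_d2549_d51_d20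

theorem g_wS_32_wQ_26_wN_1_rb8033062259_d51_d2549 : GoodKC AS c_wS_32_wQ_26_wN_1_rb8033062259_d51_d2549 := p_wS_32_wQ_26_wN_1_rb8033062259_d51_d2549 g_wS_32_wQ_26_wN_1_rb8033062259_d51_d2549_d51_d23 g_wS_32_wQ_26_wN_1_rb8033062259_d51_d2549_d51_d22 g_wS_32_wQ_26_wN_1_rb8033062259_d51_d2549_d51_d21 g_wS_32_wQ_26_wN_1_rb8033062259_d51_d2549_d51_d1f g_wS_32_wQ_26_wN_1_rb8033062259_d51_d2549_d51_d1e g_wS_32_wQ_26_wN_1_rb8033062259_d51_d2549_d51_d1d g_wS_32_wQ_26_wN_1_rb8033062259_d51_d2549_d51_d1c g_wS_32_wQ_26_wN_1_rb8033062259_d51_d2549_d51_d1a g_wS_32_wQ_26_wN_1_rb8033062259_d51_d2549_d51_d18 g_wS_32_wQ_26_wN_1_rb8033062259_d51_d2549_d51_d17 g_wS_32_wQ_26_wN_1_rb8033062259_d51_d2549_d51_d15 g_wS_32_wQ_26_wN_1_rb8033062259_d51_d2549_d51_d10 g_wS_32_wQ_26_wN_1_rb8033062259_d51_d2549_d51_d0f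 g_wS_32_wQ_26_wN_1_rb8033062259_d51_d2549_d51_d0b g_wS_32_wQ_26_wN_1_rb8033062259_d51_d2549_d51_d0a g_wS_32_wQ_26_wN_1_rb8033062259_d51_d2549_d51_d09 g_wS_32_wQ_26_wN_1_rb8033062259_d51_d2549_d51_d07 g_wS_32_wQ_26_wN_1_rb8033062259_d51_d2549_d51_d05 g_wS_32_wQ_26_wN_1_rb8033062259_d51_d2549_d51_d03 g_wS_32_wQ_26_wN_1_rb8033062259_d51_d2549_d51_d01 g_wS_32_wQ_26_wN_1_rb8033062259_d51_d2549_d51_d00 g_wS_32_wQ_26_wN_1_rb8033062259_d51_d2549_d51_d02 g_wS_32_wQ_26_wN_1_rb8033062259_d51_d2549_d51_d04 g_wS_32_wQ_26_wN_1_rb8033062259_d51_d2549_d51_d06 g_wS_32_wQ_26_wN_1_rb8033062259_d51_d2549_d51_d08 g_wS_32_wQ_26_wN_1_rb8033062259_d51_d2549_d51_d0c g_wS_32_wQ_26_wN_1_rb8033062259_d51_d2549_d51_d0d g_wS_32_wQ_26_wN_1_rb8033062259_d51_d2549_d51_d0e g_wS_32_wQ_26_wN_1_rb8033062259_d51_d2549_d51_d11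 g_wS_32_wQ_26_wN_1_rb8033062259_d51_d2549_d51_d12 g_wS_32_wQ_26_wN_1_rb8033062259_d51_d2549_d51_d13 g_wS_32_wQ_26_wN_1_rb8033062259_d51_d2549_d51_d14 g_wS_32_wQ_26_wN_1_rb8033062259_d51_d2549_d51_d16 g_wS_32_wQ_26_wN_1_rb8033062259_d51_d2549_d51_d19 g_wS_32_wQ_26_wN_1_rb8033062259_d51_d2549_d51_d1b g_wS_32_wQ_26_wN_1_rb8033062259_d51_d2549_d51_d20

theorem g_wS_32_wQ_26_wN_1_rb8033062259_d51_d2548 : GoodKC AS c_wS_32_wQ_26_wN_1_rb8033062259_d51_d2548 := p_wS_32_wQ_26_wN_1_rb8033062259_d51_d2548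

theorem g_wS_32_wQ_26_wN_1_rb8033062259_d51_d2547 : GoodKC AS c_wS_32_wQ_26_wN_1_rb8033062259_d51_d2547 := p_wS_32_wQ_26_wN_1_rb8033062259_d51_d2547

theorem g_wS_32_wQ_26_wN_1_rb8033062259_d51_d2546 : GoodKC AS c_wS_32_wQ_26_wN_1_rb8033062259_d51_d2546 := p_wS_32_wQ_26_wN_1_rb8033062259_d51_d2546

theorem g_wS_32_wQ_26_wN_1_rb8033062259_d51_d2545 : GoodKC AS c_wS_32_wQ_26_wN_1_rb8033062259_d51_d2545 := p_wS_32_wQ_26_wN_1_rb8033062259_d51_d2545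

theorem g_wS_32_wQ_26_wN_1_rb8033062259_d51_d2544 : GoodKC AS c_wS_32_wQ_26_wN_1_rb8033062259_d51_d2544 := p_wS_32_wQ_26_wN_1_rb8033062259_d51_d2544

theorem g__wS_32_wQ_26_wN_1_rb8033062259_d51_d2543_1 : GoodKC AS k_wS_32_wQ_26_wN_1_rb8033062259_d51_d2543_1 := p_wS_32_wQ_26_wN_1_rb8033062259_d51_d2543_1

theorem g__wS_32_wQ_26_wN_1_rb8033062259_d51_d2543_2 : GoodKC AS k_wS_32_wQ_26_wN_1_rb8033062259_d51_d2543_2 := p_wS_32_wQ_26_wN_1_rb8033062259_d51_d2543_2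

theorem g__wS_32_wQ_26_wN_1_rb8033062259_d51_d2543_0 : GoodKC AS k_wS_32_wQ_26_wN_1_rb8033062259_d51_d2543_0 := p_wS_32_wQ_26_wN_1_rb8033062259_d51_d2543_0 g__wS_32_wQ_26_wN_1_rb8033062259_d51_d2543_1 g__wS_32_wQ_26_wN_1_rb8033062259_d51_d2543_2

theorem g__wS_32_wQ_26_wN_1_rb8033062259_d51_d2543_11 : GoodKC AS k_wS_32_wQ_26_wN_1_rb8033062259_d51_d2543_11 := p_wS_32_wQ_26_wN_1_rb8033062259_d51_d2543_11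

theorem g__wS_32_wQ_26_wN_1_rb8033062259_d51_d2543_10 : GoodKC AS k_wS_32_wQ_26_wN_1_rb8033062259_d51_d2543_10 := p_wS_32_wQ_26_wN_1_rb8033062259_d51_d2543_10 g__wS_32_wQ_26_wN_1_rb8033062259_d51_d2543_11

theorem g__wS_32_wQ_26_wN_1_rb8033062259_d51_d2543_12 : GoodKC AS k_wS_32_wQ_26_wN_1_rb8033062259_d51_d2543_12 := p_wS_32_wQ_26_wN_1_rb8033062259_d51_d2543_12

theorem g__wS_32_wQ_26_wN_1_rb8033062259_d51_d2543_9 : GoodKC AS k_wS_32_wQ_26_wN_1_rb8033062259_d51_d2543_9 := p_wS_32_wQ_26_wN_1_rb8033062259_d51_d2543_9 g__wS_32_wQ_26_wN_1_rb8033062259_d51_d2543_10 g__wS_32_wQ_26_wN_1_rb8033062259_d51_d2543_12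

theorem g__wS_32_wQ_26_wN_1_rb8033062259_d51_d2543_8 : GoodKC AS k_wS_32_wQ_26_wN_1_rb8033062259_d51_d2543_8 := p_wS_32_wQ_26_wN_1_rb8033062259_d51_d2543_8 g__wS_32_wQ_26_wN_1_rb8033062259_d51_d2543_9

theorem g__wS_32_wQ_26_wN_1_rb8033062259_d51_d2543_7 : GoodKC AS k_wS_32_wQ_26_wN_1_rb8033062259_d51_d2543_7 := p_wS_32_wQ_26_wN_1_rb8033062259_d51_d2543_7 g__wS_32_wQ_26_wN_1_rb8033062259_d51_d2543_8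

theorem g__wS_32_wQ_26_wN_1_rb8033062259_d51_d2543_6 : GoodKC AS k_wS_32_wQ_26_wN_1_rb8033062259_d51_d2543_6 := p_wS_32_wQ_26_wN_1_rb8033062259_d51_d2543_6 g__wS_32_wQ_26_wN_1_rb8033062259_d51_d2543_7

theorem g__wS_32_wQ_26_wN_1_rb8033062259_d51_d2543_15 : GoodKC AS k_wS_32_wQ_26_wN_1_rb8033062259_d51_d2543_15 := p_wS_32_wQ_26_wN_1_rb8033062259_d51_d2543_15

theorem g__wS_32_wQ_26_wN_1_rb8033062259_d51_d2543_14 : GoodKC AS k_wS_32_wQ_26_wN_1_rb8033062259_d51_d2543_14 := p_wS_32_wQ_26_wN_1_rb8033062259_d51_d2543_14 g__wS_32_wQ_26_wN_1_rb8033062259_d51_d2543_15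

theorem g__wS_32_wQ_26_wN_1_rb8033062259_d51_d2543_13 : GoodKC AS k_wS_32_wQ_26_wN_1_rb8033062259_d51_d2543_13 := p_wS_32_wQ_26_wN_1_rb8033062259_d51_d2543_13 g__wS_32_wQ_26_wN_1_rb8033062259_d51_d2543_14

theorem g__wS_32_wQ_26_wN_1_rb8033062259_d51_d2543_5 : GoodKC AS k_wS_32_wQ_26_wN_1_rb8033062259_d51_d2543_5 := p_wS_32_wQ_26_wN_1_rb8033062259_d51_d2543_5 g__wS_32_wQ_26_wN_1_rb8033062259_d51_d2543_6 g__wS_32_wQ_26_wN_1_rb8033062259_d51_d2543_13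

theorem g__wS_32_wQ_26_wN_1_rb8033062259_d51_d2543_4 : GoodKC AS k_wS_32_wQ_26_wN_1_rb8033062259_d51_d2543_4 := p_wS_32_wQ_26_wN_1_rb8033062259_d51_d2543_4 g__wS_32_wQ_26_wN_1_rb8033062259_d51_d2543_5

theorem g__wS_32_wQ_26_wN_1_rb8033062259_d51_d2543_3 : GoodKC AS k_wS_32_wQ_26_wN_1_rb8033062259_d51_d2543_3 := p_wS_32_wQ_26_wN_1_rb8033062259_d51_d2543_3 g__wS_32_wQ_26_wN_1_rb8033062259_d51_d2543_4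

theorem g_wS_32_wQ_26_wN_1_rb8033062259_d51_d2543 : GoodKC AS c_wS_32_wQ_26_wN_1_rb8033062259_d51_d2543 := p_wS_32_wQ_26_wN_1_rb8033062259_d51_d2543 g__wS_32_wQ_26_wN_1_rb8033062259_d51_d2543_0 g__wS_32_wQ_26_wN_1_rb8033062259_d51_d2543_3

theorem g__wS_32_wQ_26_wN_1_rb8033062259_d51_d2542_2 : GoodKC AS k_wS_32_wQ_26_wN_1_rb8033062259_d51_d2542_2 := p_wS_32_wQ_26_wN_1_rb8033062259_d51_d2542_2

theorem g__wS_32_wQ_26_wN_1_rb8033062259_d51_d2542_1 : GoodKC AS k_wS_32_wQ_26_wN_1_rb8033062259_d51_d2542_1 := p_wS_32_wQ_26_wN_1_rb8033062259_d51_d2542_1 g__wS_32_wQ_26_wN_1_rb8033062259_d51_d2542_2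

theorem g__wS_32_wQ_26_wN_1_rb8033062259_d51_d2542_0 : GoodKC AS k_wS_32_wQ_26_wN_1_rb8033062259_d51_d2542_0 := p_wS_32_wQ_26_wN_1_rb8033062259_d51_d2542_0 g__wS_32_wQ_26_wN_1_rb8033062259_d51_d2542_1

theorem g_wS_32_wQ_26_wN_1_rb8033062259_d51_d2542 : GoodKC AS c_wS_32_wQ_26_wN_1_rb8033062259_d51_d2542 := p_wS_32_wQ_26_wN_1_rb8033062259_d51_d2542 g__wS_32_wQ_26_wN_1_rb8033062259_d51_d2542_0

theorem g_wS_32_wQ_26_wN_1_rb8033062259_d51_d2541 : GoodKC AS c_wS_32_wQ_26_wN_1_rb8033062259_d51_d2541 := p_wS_32_wQ_26_wN_1_rb8033062259_d51_d2541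

theorem g_wS_32_wQ_26_wN_1_rb8033062259_d51_d254010 : GoodKC AS c_wS_32_wQ_26_wN_1_rb8033062259_d51_d254010 := p_wS_32_wQ_26_wN_1_rb8033062259_d51_d254010

theorem g_wS_32_wQ_26_wN_1_rb8033062259_d51_d25400f : GoodKC AS c_wS_32_wQ_26_wN_1_rb8033062259_d51_d25400f := p_wS_32_wQ_26_wN_1_rb8033062259_d51_d25400f

theorem g_wS_32_wQ_26_wN_1_rb8033062259_d51_d25400c : GoodKC AS c_wS_32_wQ_26_wN_1_rb8033062259_d51_d25400c := p_wS_32_wQ_26_wN_1_rb8033062259_d51_d25400c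

theorem g_wS_32_wQ_26_wN_1_rb8033062259_d51_d25400a : GoodKC AS c_wS_32_wQ_26_wN_1_rb8033062259_d51_d25400a := p_wS_32_wQ_26_wN_1_rb8033062259_d51_d25400a

theorem g_wS_32_wQ_26_wN_1_rb8033062259_d51_d254009 : GoodKC AS c_wS_32_wQ_26_wN_1_rb8033062259_d51_d254009 := p_wS_32_wQ_26_wN_1_rb8033062259_d51_d254009

theorem g_wS_32_wQ_26_wN_1_rb8033062259_d51_d254003 : GoodKC AS c_wS_32_wQ_26_wN_1_rb8033062259_d51_d254003 := p_wS_32_wQ_26_wN_1_rb8033062259_d51_d254003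

theorem g_wS_32_wQ_26_wN_1_rb8033062259_d51_d254002 : GoodKC AS c_wS_32_wQ_26_wN_1_rb8033062259_d51_d254002 := p_wS_32_wQ_26_wN_1_rb8033062259_d51_d254002

theorem g_wS_32_wQ_26_wN_1_rb8033062259_d51_d254001 : GoodKC AS c_wS_32_wQ_26_wN_1_rb8033062259_d51_d254001 := p_wS_32_wQ_26_wN_1_rb8033062259_d51_d254001

theorem g_wS_32_wQ_26_wN_1_rb8033062259_d51_d254000 : GoodKC AS c_wS_32_wQ_26_wN_1_rb8033062259_d51_d254000 := p_wS_32_wQ_26_wN_1_rb8033062259_d51_d254000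

theorem g__wS_32_wQ_26_wN_1_rb8033062259_d51_d2540_4 : GoodKC AS k_wS_32_wQ_26_wN_1_rb8033062259_d51_d2540_4 := p_wS_32_wQ_26_wN_1_rb8033062259_d51_d2540_4

theorem g__wS_32_wQ_26_wN_1_rb8033062259_d51_d2540_3 : GoodKC AS k_wS_32_wQ_26_wN_1_rb8033062259_d51_d2540_3 := p_wS_32_wQ_26_wN_1_rb8033062259_d51_d2540_3 g__wS_32_wQ_26_wN_1_rb8033062259_d51_d2540_4

theorem g__wS_32_wQ_26_wN_1_rb8033062259_d51_d2540_2 : GoodKC AS k_wS_32_wQ_26_wN_1_rb8033062259_d51_d2540_2 := p_wS_32_wQ_26_wN_1_rb8033062259_d51_d2540_2 g__wS_32_wQ_26_wN_1_rb8033062259_d51_d2540_3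

theorem g__wS_32_wQ_26_wN_1_rb8033062259_d51_d2540_1 : GoodKC AS k_wS_32_wQ_26_wN_1_rb8033062259_d51_d2540_1 := p_wS_32_wQ_26_wN_1_rb8033062259_d51_d2540_1 g__wS_32_wQ_26_wN_1_rb8033062259_d51_d2540_2

theorem g_wS_32_wQ_26_wN_1_rb8033062259_d51_d254004 : GoodKC AS c_wS_32_wQ_26_wN_1_rb8033062259_d51_d254004 := p_wS_32_wQ_26_wN_1_rb8033062259_d51_d254004

theorem g_wS_32_wQ_26_wN_1_rb8033062259_d51_d254005 : GoodKC AS c_wS_32_wQ_26_wN_1_rb8033062259_d51_d254005 := p_wS_32_wQ_26_wN_1_rb8033062259_d51_d254005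

theorem g_wS_32_wQ_26_wN_1_rb8033062259_d51_d254006 : GoodKC AS c_wS_32_wQ_26_wN_1_rb8033062259_d51_d254006 := p_wS_32_wQ_26_wN_1_rb8033062259_d51_d254006

theorem g_wS_32_wQ_26_wN_1_rb8033062259_d51_d254007 : GoodKC AS c_wS_32_wQ_26_wN_1_rb8033062259_d51_d254007 := p_wS_32_wQ_26_wN_1_rb8033062259_d51_d254007

theorem g_wS_32_wQ_26_wN_1_rb8033062259_d51_d254008 : GoodKC AS c_wS_32_wQ_26_wN_1_rb8033062259_d51_d254008 := p_wS_32_wQ_26_wN_1_rb8033062259_d51_d254008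

theorem g__wS_32_wQ_26_wN_1_rb8033062259_d51_d25400b_0 : GoodKC AS k_wS_32_wQ_26_wN_1_rb8033062259_d51_d25400b_0 := p_wS_32_wQ_26_wN_1_rb8033062259_d51_d25400b_0

theorem g_wS_32_wQ_26_wN_1_rb8033062259_d51_d25400b : GoodKC AS c_wS_32_wQ_26_wN_1_rb8033062259_d51_d25400b := p_wS_32_wQ_26_wN_1_rb8033062259_d51_d25400b g__wS_32_wQ_26_wN_1_rb8033062259_d51_d25400b_0

theorem g_wS_32_wQ_26_wN_1_rb8033062259_d51_d25400d : GoodKC AS c_wS_32_wQ_26_wN_1_rb8033062259_d51_d25400d := p_wS_32_wQ_26_wN_1_rb8033062259_d51_d25400d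

theorem g_wS_32_wQ_26_wN_1_rb8033062259_d51_d25400e : GoodKC AS c_wS_32_wQ_26_wN_1_rb8033062259_d51_d25400e := p_wS_32_wQ_26_wN_1_rb8033062259_d51_d25400e

theorem g_wS_32_wQ_26_wN_1_rb8033062259_d51_d254011 : GoodKC AS c_wS_32_wQ_26_wN_1_rb8033062259_d51_d254011 := p_wS_32_wQ_26_wN_1_rb8033062259_d51_d254011

theorem g_wS_32_wQ_26_wN_1_rb8033062259_d51_d254012 : GoodKC AS c_wS_32_wQ_26_wN_1_rb8033062259_d51_d254012 := p_wS_32_wQ_26_wN_1_rb8033062259_d51_d254012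

theorem g_wS_32_wQ_26_wN_1_rb8033062259_d51_d254013 : GoodKC AS c_wS_32_wQ_26_wN_1_rb8033062259_d51_d254013 := p_wS_32_wQ_26_wN_1_rb8033062259_d51_d254013

theorem g_wS_32_wQ_26_wN_1_rb8033062259_d51_d254014 : GoodKC AS c_wS_32_wQ_26_wN_1_rb8033062259_d51_d254014 := p_wS_32_wQ_26_wN_1_rb8033062259_d51_d254014

theorem g_wS_32_wQ_26_wN_1_rb8033062259_d51_d254015 : GoodKC AS c_wS_32_wQ_26_wN_1_rb8033062259_d51_d254015 := p_wS_32_wQ_26_wN_1_rb8033062259_d51_d254015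

theorem g__wS_32_wQ_26_wN_1_rb8033062259_d51_d2540_0 : GoodKC AS k_wS_32_wQ_26_wN_1_rb8033062259_d51_d2540_0 := p_wS_32_wQ_26_wN_1_rb8033062259_d51_d2540_0 g_wS_32_wQ_26_wN_1_rb8033062259_d51_d254010 g_wS_32_wQ_26_wN_1_rb8033062259_d51_d25400f g_wS_32_wQ_26_wN_1_rb8033062259_d51_d25400c g_wS_32_wQ_26_wN_1_rb8033062259_d51_d25400a g_wS_32_wQ_26_wN_1_rb8033062259_d51_d254009 g_wS_32_wQ_26_wN_1_rb8033062259_d51_d254003 g_wS_32_wQ_26_wN_1_rb8033062259_d51_d254002 g_wS_32_wQ_26_wN_1_rb8033062259_d51_d254001 g_wS_32_wQ_26_wN_1_rb8033062259_d51_d254000 g__wS_32_wQ_26_wN_1_rb8033062259_d51_d2540_1 g_wS_32_wQ_26_wN_1_rb8033062259_d51_d254004 g_wS_32_wQ_26_wN_1_rb8033062259_d51_d254005 g_wS_32_wQ_26_wN_1_rb8033062259_d51_d254006 g_wS_32_wQ_26_wN_1_rb8033062259_d51_d254007 g_wS_32_wQ_26_wN_1_rb8033062259_d51_d254008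 g_wS_32_wQ_26_wN_1_rb8033062259_d51_d25400b g_wS_32_wQ_26_wN_1_rb8033062259_d51_d25400d g_wS_32_wQ_26_wN_1_rb8033062259_d51_d25400e g_wS_32_wQ_26_wN_1_rb8033062259_d51_d254011 g_wS_32_wQ_26_wN_1_rb8033062259_d51_d254012 g_wS_32_wQ_26_wN_1_rb8033062259_d51_d254013 g_wS_32_wQ_26_wN_1_rb8033062259_d51_d254014 g_wS_32_wQ_26_wN_1_rb8033062259_d51_d254015

theorem g__wS_32_wQ_26_wN_1_rb8033062259_d51_d2540_9 : GoodKC AS k_wS_32_wQ_26_wN_1_rb8033062259_d51_d2540_9 := p_wS_32_wQ_26_wN_1_rb8033062259_d51_d2540_9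

theorem g__wS_32_wQ_26_wN_1_rb8033062259_d51_d2540_11 : GoodKC AS k_wS_32_wQ_26_wN_1_rb8033062259_d51_d2540_11 := p_wS_32_wQ_26_wN_1_rb8033062259_d51_d2540_11

theorem g__wS_32_wQ_26_wN_1_rb8033062259_d51_d2540_10 : GoodKC AS k_wS_32_wQ_26_wN_1_rb8033062259_d51_d2540_10 := p_wS_32_wQ_26_wN_1_rb8033062259_d51_d2540_10 g__wS_32_wQ_26_wN_1_rb8033062259_d51_d2540_11

theorem g__wS_32_wQ_26_wN_1_rb8033062259_d51_d2540_8 : GoodKC AS k_wS_32_wQ_26_wN_1_rb8033062259_d51_d2540_8 := p_wS_32_wQ_26_wN_1_rb8033062259_d51_d2540_8 g__wS_32_wQ_26_wN_1_rb8033062259_d51_d2540_9 g__wS_32_wQ_26_wN_1_rb8033062259_d51_d2540_10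

theorem g__wS_32_wQ_26_wN_1_rb8033062259_d51_d2540_7 : GoodKC AS k_wS_32_wQ_26_wN_1_rb8033062259_d51_d2540_7 := p_wS_32_wQ_26_wN_1_rb8033062259_d51_d2540_7 g__wS_32_wQ_26_wN_1_rb8033062259_d51_d2540_8

theorem g__wS_32_wQ_26_wN_1_rb8033062259_d51_d2540_6 : GoodKC AS k_wS_32_wQ_26_wN_1_rb8033062259_d51_d2540_6 := p_wS_32_wQ_26_wN_1_rb8033062259_d51_d2540_6 g__wS_32_wQ_26_wN_1_rb8033062259_d51_d2540_7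

theorem g__wS_32_wQ_26_wN_1_rb8033062259_d51_d2540_5 : GoodKC AS k_wS_32_wQ_26_wN_1_rb8033062259_d51_d2540_5 := p_wS_32_wQ_26_wN_1_rb8033062259_d51_d2540_5 g__wS_32_wQ_26_wN_1_rb8033062259_d51_d2540_6

theorem g_wS_32_wQ_26_wN_1_rb8033062259_d51_d2540 : GoodKC AS c_wS_32_wQ_26_wN_1_rb8033062259_d51_d2540 := p_wS_32_wQ_26_wN_1_rb8033062259_d51_d2540 g__wS_32_wQ_26_wN_1_rb8033062259_d51_d2540_0 g__wS_32_wQ_26_wN_1_rb8033062259_d51_d2540_5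

theorem g_wS_32_wQ_26_wN_1_rb8033062259_d51_d253e : GoodKC AS c_wS_32_wQ_26_wN_1_rb8033062259_d51_d253e := p_wS_32_wQ_26_wN_1_rb8033062259_d51_d253e

theorem g_wS_32_wQ_26_wN_1_rb8033062259_d51_d253d : GoodKC AS c_wS_32_wQ_26_wN_1_rb8033062259_d51_d253d := p_wS_32_wQ_26_wN_1_rb8033062259_d51_d253d

theorem g_wS_32_wQ_26_wN_1_rb8033062259_d51_d253c : GoodKC AS c_wS_32_wQ_26_wN_1_rb8033062259_d51_d253c := p_wS_32_wQ_26_wN_1_rb8033062259_d51_d253c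

theorem g__wS_32_wQ_26_wN_1_rb8033062259_d51_d253b_2 : GoodKC AS k_wS_32_wQ_26_wN_1_rb8033062259_d51_d253b_2 := p_wS_32_wQ_26_wN_1_rb8033062259_d51_d253b_2

theorem g__wS_32_wQ_26_wN_1_rb8033062259_d51_d253b_1 : GoodKC AS k_wS_32_wQ_26_wN_1_rb8033062259_d51_d253b_1 := p_wS_32_wQ_26_wN_1_rb8033062259_d51_d253b_1 g__wS_32_wQ_26_wN_1_rb8033062259_d51_d253b_2

theorem g__wS_32_wQ_26_wN_1_rb8033062259_d51_d253b_0 : GoodKC AS k_wS_32_wQ_26_wN_1_rb8033062259_d51_d253b_0 := p_wS_32_wQ_26_wN_1_rb8033062259_d51_d253b_0 g__wS_32_wQ_26_wN_1_rb8033062259_d51_d253b_1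

theorem g_wS_32_wQ_26_wN_1_rb8033062259_d51_d253b : GoodKC AS c_wS_32_wQ_26_wN_1_rb8033062259_d51_d253b := p_wS_32_wQ_26_wN_1_rb8033062259_d51_d253b g__wS_32_wQ_26_wN_1_rb8033062259_d51_d253b_0

theorem g__wS_32_wQ_26_wN_1_rb8033062259_d51_d2539_1 : GoodKC AS k_wS_32_wQ_26_wN_1_rb8033062259_d51_d2539_1 := p_wS_32_wQ_26_wN_1_rb8033062259_d51_d2539_1

theorem g__wS_32_wQ_26_wN_1_rb8033062259_d51_d2539_3 : GoodKC AS k_wS_32_wQ_26_wN_1_rb8033062259_d51_d2539_3 := p_wS_32_wQ_26_wN_1_rb8033062259_d51_d2539_3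

theorem g__wS_32_wQ_26_wN_1_rb8033062259_d51_d2539_2 : GoodKC AS k_wS_32_wQ_26_wN_1_rb8033062259_d51_d2539_2 := p_wS_32_wQ_26_wN_1_rb8033062259_d51_d2539_2 g__wS_32_wQ_26_wN_1_rb8033062259_d51_d2539_3

theorem g__wS_32_wQ_26_wN_1_rb8033062259_d51_d2539_7 : GoodKC AS k_wS_32_wQ_26_wN_1_rb8033062259_d51_d2539_7 := p_wS_32_wQ_26_wN_1_rb8033062259_d51_d2539_7

theorem g__wS_32_wQ_26_wN_1_rb8033062259_d51_d2539_6 : GoodKC AS k_wS_32_wQ_26_wN_1_rb8033062259_d51_d2539_6 := p_wS_32_wQ_26_wN_1_rb8033062259_d51_d2539_6 g__wS_32_wQ_26_wN_1_rb8033062259_d51_d2539_7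

theorem g__wS_32_wQ_26_wN_1_rb8033062259_d51_d2539_8 : GoodKC AS k_wS_32_wQ_26_wN_1_rb8033062259_d51_d2539_8 := p_wS_32_wQ_26_wN_1_rb8033062259_d51_d2539_8

theorem g__wS_32_wQ_26_wN_1_rb8033062259_d51_d2539_5 : GoodKC AS k_wS_32_wQ_26_wN_1_rb8033062259_d51_d2539_5 := p_wS_32_wQ_26_wN_1_rb8033062259_d51_d2539_5 g__wS_32_wQ_26_wN_1_rb8033062259_d51_d2539_6 g__wS_32_wQ_26_wN_1_rb8033062259_d51_d2539_8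

theorem g__wS_32_wQ_26_wN_1_rb8033062259_d51_d2539_17 : GoodKC AS k_wS_32_wQ_26_wN_1_rb8033062259_d51_d2539_17 := p_wS_32_wQ_26_wN_1_rb8033062259_d51_d2539_17

theorem g__wS_32_wQ_26_wN_1_rb8033062259_d51_d2539_16 : GoodKC AS k_wS_32_wQ_26_wN_1_rb8033062259_d51_d2539_16 := p_wS_32_wQ_26_wN_1_rb8033062259_d51_d2539_16 g__wS_32_wQ_26_wN_1_rb8033062259_d51_d2539_17

theorem g__wS_32_wQ_26_wN_1_rb8033062259_d51_d2539_15 : GoodKC AS k_wS_32_wQ_26_wN_1_rb8033062259_d51_d2539_15 := p_wS_32_wQ_26_wN_1_rb8033062259_d51_d2539_15 g__wS_32_wQ_26_wN_1_rb8033062259_d51_d2539_16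

theorem g__wS_32_wQ_26_wN_1_rb8033062259_d51_d2539_14 : GoodKC AS k_wS_32_wQ_26_wN_1_rb8033062259_d51_d2539_14 := p_wS_32_wQ_26_wN_1_rb8033062259_d51_d2539_14 g__wS_32_wQ_26_wN_1_rb8033062259_d51_d2539_15

theorem g__wS_32_wQ_26_wN_1_rb8033062259_d51_d2539_13 : GoodKC AS k_wS_32_wQ_26_wN_1_rb8033062259_d51_d2539_13 := p_wS_32_wQ_26_wN_1_rb8033062259_d51_d2539_13 g__wS_32_wQ_26_wN_1_rb8033062259_d51_d2539_14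

theorem g__wS_32_wQ_26_wN_1_rb8033062259_d51_d2539_19 : GoodKC AS k_wS_32_wQ_26_wN_1_rb8033062259_d51_d2539_19 := p_wS_32_wQ_26_wN_1_rb8033062259_d51_d2539_19

theorem g__wS_32_wQ_26_wN_1_rb8033062259_d51_d2539_18 : GoodKC AS k_wS_32_wQ_26_wN_1_rb8033062259_d51_d2539_18 := p_wS_32_wQ_26_wN_1_rb8033062259_d51_d2539_18 g__wS_32_wQ_26_wN_1_rb8033062259_d51_d2539_19

theorem g__wS_32_wQ_26_wN_1_rb8033062259_d51_d2539_12 : GoodKC AS k_wS_32_wQ_26_wN_1_rb8033062259_d51_d2539_12 := p_wS_32_wQ_26_wN_1_rb8033062259_d51_d2539_12 g__wS_32_wQ_26_wN_1_rb8033062259_d51_d2539_13 g__wS_32_wQ_26_wN_1_rb8033062259_d51_d2539_18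

theorem g__wS_32_wQ_26_wN_1_rb8033062259_d51_d2539_11 : GoodKC AS k_wS_32_wQ_26_wN_1_rb8033062259_d51_d2539_11 := p_wS_32_wQ_26_wN_1_rb8033062259_d51_d2539_11 g__wS_32_wQ_26_wN_1_rb8033062259_d51_d2539_12

theorem g__wS_32_wQ_26_wN_1_rb8033062259_d51_d2539_10 : GoodKC AS k_wS_32_wQ_26_wN_1_rb8033062259_d51_d2539_10 := p_wS_32_wQ_26_wN_1_rb8033062259_d51_d2539_10 g__wS_32_wQ_26_wN_1_rb8033062259_d51_d2539_11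

theorem g__wS_32_wQ_26_wN_1_rb8033062259_d51_d2539_9 : GoodKC AS k_wS_32_wQ_26_wN_1_rb8033062259_d51_d2539_9 := p_wS_32_wQ_26_wN_1_rb8033062259_d51_d2539_9 g__wS_32_wQ_26_wN_1_rb8033062259_d51_d2539_10

theorem g__wS_32_wQ_26_wN_1_rb8033062259_d51_d2539_20 : GoodKC AS k_wS_32_wQ_26_wN_1_rb8033062259_d51_d2539_20 := p_wS_32_wQ_26_wN_1_rb8033062259_d51_d2539_20

theorem g__wS_32_wQ_26_wN_1_rb8033062259_d51_d2539_4 : GoodKC AS k_wS_32_wQ_26_wN_1_rb8033062259_d51_d2539_4 := p_wS_32_wQ_26_wN_1_rb8033062259_d51_d2539_4 g__wS_32_wQ_26_wN_1_rb8033062259_d51_d2539_5 g__wS_32_wQ_26_wN_1_rb8033062259_d51_d2539_9 g__wS_32_wQ_26_wN_1_rb8033062259_d51_d2539_20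

theorem g__wS_32_wQ_26_wN_1_rb8033062259_d51_d2539_23 : GoodKC AS k_wS_32_wQ_26_wN_1_rb8033062259_d51_d2539_23 := p_wS_32_wQ_26_wN_1_rb8033062259_d51_d2539_23

theorem g__wS_32_wQ_26_wN_1_rb8033062259_d51_d2539_22 : GoodKC AS k_wS_32_wQ_26_wN_1_rb8033062259_d51_d2539_22 := p_wS_32_wQ_26_wN_1_rb8033062259_d51_d2539_22 g__wS_32_wQ_26_wN_1_rb8033062259_d51_d2539_23

theorem g__wS_32_wQ_26_wN_1_rb8033062259_d51_d2539_24 : GoodKC AS k_wS_32_wQ_26_wN_1_rb8033062259_d51_d2539_24 := p_wS_32_wQ_26_wN_1_rb8033062259_d51_d2539_24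

theorem g__wS_32_wQ_26_wN_1_rb8033062259_d51_d2539_25 : GoodKC AS k_wS_32_wQ_26_wN_1_rb8033062259_d51_d2539_25 := p_wS_32_wQ_26_wN_1_rb8033062259_d51_d2539_25

theorem g__wS_32_wQ_26_wN_1_rb8033062259_d51_d2539_21 : GoodKC AS k_wS_32_wQ_26_wN_1_rb8033062259_d51_d2539_21 := p_wS_32_wQ_26_wN_1_rb8033062259_d51_d2539_21 g__wS_32_wQ_26_wN_1_rb8033062259_d51_d2539_22 g__wS_32_wQ_26_wN_1_rb8033062259_d51_d2539_24 g__wS_32_wQ_26_wN_1_rb8033062259_d51_d2539_25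

theorem g__wS_32_wQ_26_wN_1_rb8033062259_d51_d2539_0 : GoodKC AS k_wS_32_wQ_26_wN_1_rb8033062259_d51_d2539_0 := p_wS_32_wQ_26_wN_1_rb8033062259_d51_d2539_0 g__wS_32_wQ_26_wN_1_rb8033062259_d51_d2539_1 g__wS_32_wQ_26_wN_1_rb8033062259_d51_d2539_2 g__wS_32_wQ_26_wN_1_rb8033062259_d51_d2539_4 g__wS_32_wQ_26_wN_1_rb8033062259_d51_d2539_21

theorem g_wS_32_wQ_26_wN_1_rb8033062259_d51_d2539 : GoodKC AS c_wS_32_wQ_26_wN_1_rb8033062259_d51_d2539 := p_wS_32_wQ_26_wN_1_rb8033062259_d51_d2539 g__wS_32_wQ_26_wN_1_rb8033062259_d51_d2539_0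

theorem g_wS_32_wQ_26_wN_1_rb8033062259_d51_d2538 : GoodKC AS c_wS_32_wQ_26_wN_1_rb8033062259_d51_d2538 := p_wS_32_wQ_26_wN_1_rb8033062259_d51_d2538

theorem g_wS_32_wQ_26_wN_1_rb8033062259_d51_d2537 : GoodKC AS c_wS_32_wQ_26_wN_1_rb8033062259_d51_d2537 := p_wS_32_wQ_26_wN_1_rb8033062259_d51_d2537

theorem g__wS_32_wQ_26_wN_1_rb8033062259_d51_d2536v1_2 : GoodKC AS k_wS_32_wQ_26_wN_1_rb8033062259_d51_d2536v1_2 := p_wS_32_wQ_26_wN_1_rb8033062259_d51_d2536v1_2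

theorem g__wS_32_wQ_26_wN_1_rb8033062259_d51_d2536v1_4 : GoodKC AS k_wS_32_wQ_26_wN_1_rb8033062259_d51_d2536v1_4 := p_wS_32_wQ_26_wN_1_rb8033062259_d51_d2536v1_4

theorem g__wS_32_wQ_26_wN_1_rb8033062259_d51_d2536v1_3 : GoodKC AS k_wS_32_wQ_26_wN_1_rb8033062259_d51_d2536v1_3 := p_wS_32_wQ_26_wN_1_rb8033062259_d51_d2536v1_3 g__wS_32_wQ_26_wN_1_rb8033062259_d51_d2536v1_4

theorem g__wS_32_wQ_26_wN_1_rb8033062259_d51_d2536v1_1 : GoodKC AS k_wS_32_wQ_26_wN_1_rb8033062259_d51_d2536v1_1 := p_wS_32_wQ_26_wN_1_rb8033062259_d51_d2536v1_1 g__wS_32_wQ_26_wN_1_rb8033062259_d51_d2536v1_2 g__wS_32_wQ_26_wN_1_rb8033062259_d51_d2536v1_3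

theorem g__wS_32_wQ_26_wN_1_rb8033062259_d51_d2536v1_8 : GoodKC AS k_wS_32_wQ_26_wN_1_rb8033062259_d51_d2536v1_8 := p_wS_32_wQ_26_wN_1_rb8033062259_d51_d2536v1_8

theorem g__wS_32_wQ_26_wN_1_rb8033062259_d51_d2536v1_7 : GoodKC AS k_wS_32_wQ_26_wN_1_rb8033062259_d51_d2536v1_7 := p_wS_32_wQ_26_wN_1_rb8033062259_d51_d2536v1_7 g__wS_32_wQ_26_wN_1_rb8033062259_d51_d2536v1_8

theorem g__wS_32_wQ_26_wN_1_rb8033062259_d51_d2536v1_10 : GoodKC AS k_wS_32_wQ_26_wN_1_rb8033062259_d51_d2536v1_10 := p_wS_32_wQ_26_wN_1_rb8033062259_d51_d2536v1_10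

theorem g__wS_32_wQ_26_wN_1_rb8033062259_d51_d2536v1_9 : GoodKC AS k_wS_32_wQ_26_wN_1_rb8033062259_d51_d2536v1_9 := p_wS_32_wQ_26_wN_1_rb8033062259_d51_d2536v1_9 g__wS_32_wQ_26_wN_1_rb8033062259_d51_d2536v1_10

theorem g__wS_32_wQ_26_wN_1_rb8033062259_d51_d2536v1_11 : GoodKC AS k_wS_32_wQ_26_wN_1_rb8033062259_d51_d2536v1_11 := p_wS_32_wQ_26_wN_1_rb8033062259_d51_d2536v1_11

theorem g__wS_32_wQ_26_wN_1_rb8033062259_d51_d2536v1_6 : GoodKC AS k_wS_32_wQ_26_wN_1_rb8033062259_d51_d2536v1_6 := p_wS_32_wQ_26_wN_1_rb8033062259_d51_d2536v1_6 g__wS_32_wQ_26_wN_1_rb8033062259_d51_d2536v1_7 g__wS_32_wQ_26_wN_1_rb8033062259_d51_d2536v1_9 g__wS_32_wQ_26_wN_1_rb8033062259_d51_d2536v1_11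

theorem g__wS_32_wQ_26_wN_1_rb8033062259_d51_d2536v1_5 : GoodKC AS k_wS_32_wQ_26_wN_1_rb8033062259_d51_d2536v1_5 := p_wS_32_wQ_26_wN_1_rb8033062259_d51_d2536v1_5 g__wS_32_wQ_26_wN_1_rb8033062259_d51_d2536v1_6

theorem g__wS_32_wQ_26_wN_1_rb8033062259_d51_d2536v1_0 : GoodKC AS k_wS_32_wQ_26_wN_1_rb8033062259_d51_d2536v1_0 := p_wS_32_wQ_26_wN_1_rb8033062259_d51_d2536v1_0 g__wS_32_wQ_26_wN_1_rb8033062259_d51_d2536v1_1 g__wS_32_wQ_26_wN_1_rb8033062259_d51_d2536v1_5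

theorem g_wS_32_wQ_26_wN_1_rb8033062259_d51_d2536 : GoodKC AS c_wS_32_wQ_26_wN_1_rb8033062259_d51_d2536 := p_wS_32_wQ_26_wN_1_rb8033062259_d51_d2536v1 g__wS_32_wQ_26_wN_1_rb8033062259_d51_d2536v1_0

theorem g__wS_32_wQ_26_wN_1_rb8033062259_d51_d2535_3 : GoodKC AS k_wS_32_wQ_26_wN_1_rb8033062259_d51_d2535_3 := p_wS_32_wQ_26_wN_1_rb8033062259_d51_d2535_3

theorem g__wS_32_wQ_26_wN_1_rb8033062259_d51_d2535_2 : GoodKC AS k_wS_32_wQ_26_wN_1_rb8033062259_d51_d2535_2 := p_wS_32_wQ_26_wN_1_rb8033062259_d51_d2535_2 g__wS_32_wQ_26_wN_1_rb8033062259_d51_d2535_3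

theorem g__wS_32_wQ_26_wN_1_rb8033062259_d51_d2535_1 : GoodKC AS k_wS_32_wQ_26_wN_1_rb8033062259_d51_d2535_1 := p_wS_32_wQ_26_wN_1_rb8033062259_d51_d2535_1 g__wS_32_wQ_26_wN_1_rb8033062259_d51_d2535_2

theorem g__wS_32_wQ_26_wN_1_rb8033062259_d51_d2535_0 : GoodKC AS k_wS_32_wQ_26_wN_1_rb8033062259_d51_d2535_0 := p_wS_32_wQ_26_wN_1_rb8033062259_d51_d2535_0 g__wS_32_wQ_26_wN_1_rb8033062259_d51_d2535_1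

theorem g_wS_32_wQ_26_wN_1_rb8033062259_d51_d2535 : GoodKC AS c_wS_32_wQ_26_wN_1_rb8033062259_d51_d2535 := p_wS_32_wQ_26_wN_1_rb8033062259_d51_d2535 g__wS_32_wQ_26_wN_1_rb8033062259_d51_d2535_0

theorem g_wS_32_wQ_26_wN_1_rb8033062259_d51_d2534 : GoodKC AS c_wS_32_wQ_26_wN_1_rb8033062259_d51_d2534 := p_wS_32_wQ_26_wN_1_rb8033062259_d51_d2534

theorem g__wS_32_wQ_26_wN_1_rb8033062259_d51_d2533_1 : GoodKC AS k_wS_32_wQ_26_wN_1_rb8033062259_d51_d2533_1 := p_wS_32_wQ_26_wN_1_rb8033062259_d51_d2533_1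

theorem g__wS_32_wQ_26_wN_1_rb8033062259_d51_d2533_0 : GoodKC AS k_wS_32_wQ_26_wN_1_rb8033062259_d51_d2533_0 := p_wS_32_wQ_26_wN_1_rb8033062259_d51_d2533_0 g__wS_32_wQ_26_wN_1_rb8033062259_d51_d2533_1

theorem g__wS_32_wQ_26_wN_1_rb8033062259_d51_d2533_6 : GoodKC AS k_wS_32_wQ_26_wN_1_rb8033062259_d51_d2533_6 := p_wS_32_wQ_26_wN_1_rb8033062259_d51_d2533_6

theorem g__wS_32_wQ_26_wN_1_rb8033062259_d51_d2533_5 : GoodKC AS k_wS_32_wQ_26_wN_1_rb8033062259_d51_d2533_5 := p_wS_32_wQ_26_wN_1_rb8033062259_d51_d2533_5 g__wS_32_wQ_26_wN_1_rb8033062259_d51_d2533_6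

theorem g__wS_32_wQ_26_wN_1_rb8033062259_d51_d2533_4 : GoodKC AS k_wS_32_wQ_26_wN_1_rb8033062259_d51_d2533_4 := p_wS_32_wQ_26_wN_1_rb8033062259_d51_d2533_4 g__wS_32_wQ_26_wN_1_rb8033062259_d51_d2533_5

theorem g__wS_32_wQ_26_wN_1_rb8033062259_d51_d2533_8 : GoodKC AS k_wS_32_wQ_26_wN_1_rb8033062259_d51_d2533_8 := p_wS_32_wQ_26_wN_1_rb8033062259_d51_d2533_8

theorem g__wS_32_wQ_26_wN_1_rb8033062259_d51_d2533_7 : GoodKC AS k_wS_32_wQ_26_wN_1_rb8033062259_d51_d2533_7 := p_wS_32_wQ_26_wN_1_rb8033062259_d51_d2533_7 g__wS_32_wQ_26_wN_1_rb8033062259_d51_d2533_8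

theorem g__wS_32_wQ_26_wN_1_rb8033062259_d51_d2533_3 : GoodKC AS k_wS_32_wQ_26_wN_1_rb8033062259_d51_d2533_3 := p_wS_32_wQ_26_wN_1_rb8033062259_d51_d2533_3 g__wS_32_wQ_26_wN_1_rb8033062259_d51_d2533_4 g__wS_32_wQ_26_wN_1_rb8033062259_d51_d2533_7

theorem g__wS_32_wQ_26_wN_1_rb8033062259_d51_d2533_2 : GoodKC AS k_wS_32_wQ_26_wN_1_rb8033062259_d51_d2533_2 := p_wS_32_wQ_26_wN_1_rb8033062259_d51_d2533_2 g__wS_32_wQ_26_wN_1_rb8033062259_d51_d2533_3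

theorem g__wS_32_wQ_26_wN_1_rb8033062259_d51_d2533_10 : GoodKC AS k_wS_32_wQ_26_wN_1_rb8033062259_d51_d2533_10 := p_wS_32_wQ_26_wN_1_rb8033062259_d51_d2533_10

theorem g__wS_32_wQ_26_wN_1_rb8033062259_d51_d2533_12 : GoodKC AS k_wS_32_wQ_26_wN_1_rb8033062259_d51_d2533_12 := p_wS_32_wQ_26_wN_1_rb8033062259_d51_d2533_12

theorem g__wS_32_wQ_26_wN_1_rb8033062259_d51_d2533_15 : GoodKC AS k_wS_32_wQ_26_wN_1_rb8033062259_d51_d2533_15 := p_wS_32_wQ_26_wN_1_rb8033062259_d51_d2533_15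

theorem g__wS_32_wQ_26_wN_1_rb8033062259_d51_d2533_14 : GoodKC AS k_wS_32_wQ_26_wN_1_rb8033062259_d51_d2533_14 := p_wS_32_wQ_26_wN_1_rb8033062259_d51_d2533_14 g__wS_32_wQ_26_wN_1_rb8033062259_d51_d2533_15

theorem g__wS_32_wQ_26_wN_1_rb8033062259_d51_d2533_13 : GoodKC AS k_wS_32_wQ_26_wN_1_rb8033062259_d51_d2533_13 := p_wS_32_wQ_26_wN_1_rb8033062259_d51_d2533_13 g__wS_32_wQ_26_wN_1_rb8033062259_d51_d2533_14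

theorem g__wS_32_wQ_26_wN_1_rb8033062259_d51_d2533_16 : GoodKC AS k_wS_32_wQ_26_wN_1_rb8033062259_d51_d2533_16 := p_wS_32_wQ_26_wN_1_rb8033062259_d51_d2533_16

theorem g__wS_32_wQ_26_wN_1_rb8033062259_d51_d2533_11 : GoodKC AS k_wS_32_wQ_26_wN_1_rb8033062259_d51_d2533_11 := p_wS_32_wQ_26_wN_1_rb8033062259_d51_d2533_11 g__wS_32_wQ_26_wN_1_rb8033062259_d51_d2533_12 g__wS_32_wQ_26_wN_1_rb8033062259_d51_d2533_13 g__wS_32_wQ_26_wN_1_rb8033062259_d51_d2533_16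

theorem g__wS_32_wQ_26_wN_1_rb8033062259_d51_d2533_9 : GoodKC AS k_wS_32_wQ_26_wN_1_rb8033062259_d51_d2533_9 := p_wS_32_wQ_26_wN_1_rb8033062259_d51_d2533_9 g__wS_32_wQ_26_wN_1_rb8033062259_d51_d2533_10 g__wS_32_wQ_26_wN_1_rb8033062259_d51_d2533_11

theorem g_wS_32_wQ_26_wN_1_rb8033062259_d51_d2533 : GoodKC AS c_wS_32_wQ_26_wN_1_rb8033062259_d51_d2533 := p_wS_32_wQ_26_wN_1_rb8033062259_d51_d2533 g__wS_32_wQ_26_wN_1_rb8033062259_d51_d2533_0 g__wS_32_wQ_26_wN_1_rb8033062259_d51_d2533_2 g__wS_32_wQ_26_wN_1_rb8033062259_d51_d2533_9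

theorem g_wS_32_wQ_26_wN_1_rb8033062259_d51_d2532 : GoodKC AS c_wS_32_wQ_26_wN_1_rb8033062259_d51_d2532 := p_wS_32_wQ_26_wN_1_rb8033062259_d51_d2532

theorem g_wS_32_wQ_26_wN_1_rb8033062259_d51_d2530 : GoodKC AS c_wS_32_wQ_26_wN_1_rb8033062259_d51_d2530 := p_wS_32_wQ_26_wN_1_rb8033062259_d51_d2530

theorem g_wS_32_wQ_26_wN_1_rb8033062259_d51_d252c : GoodKC AS c_wS_32_wQ_26_wN_1_rb8033062259_d51_d252c := p_wS_32_wQ_26_wN_1_rb8033062259_d51_d252c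

theorem g_wS_32_wQ_26_wN_1_rb8033062259_d51_d252b : GoodKC AS c_wS_32_wQ_26_wN_1_rb8033062259_d51_d252b := p_wS_32_wQ_26_wN_1_rb8033062259_d51_d252b

theorem g_wS_32_wQ_26_wN_1_rb8033062259_d51_d2526 : GoodKC AS c_wS_32_wQ_26_wN_1_rb8033062259_d51_d2526 := p_wS_32_wQ_26_wN_1_rb8033062259_d51_d2526

theorem g__wS_32_wQ_26_wN_1_rb8033062259_d51_d2525_2 : GoodKC AS k_wS_32_wQ_26_wN_1_rb8033062259_d51_d2525_2 := p_wS_32_wQ_26_wN_1_rb8033062259_d51_d2525_2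

theorem g__wS_32_wQ_26_wN_1_rb8033062259_d51_d2525_1 : GoodKC AS k_wS_32_wQ_26_wN_1_rb8033062259_d51_d2525_1 := p_wS_32_wQ_26_wN_1_rb8033062259_d51_d2525_1 g__wS_32_wQ_26_wN_1_rb8033062259_d51_d2525_2

theorem g__wS_32_wQ_26_wN_1_rb8033062259_d51_d2525_5 : GoodKC AS k_wS_32_wQ_26_wN_1_rb8033062259_d51_d2525_5 := p_wS_32_wQ_26_wN_1_rb8033062259_d51_d2525_5

theorem g__wS_32_wQ_26_wN_1_rb8033062259_d51_d2525_4 : GoodKC AS k_wS_32_wQ_26_wN_1_rb8033062259_d51_d2525_4 := p_wS_32_wQ_26_wN_1_rb8033062259_d51_d2525_4 g__wS_32_wQ_26_wN_1_rb8033062259_d51_d2525_5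

theorem g__wS_32_wQ_26_wN_1_rb8033062259_d51_d2525_3 : GoodKC AS k_wS_32_wQ_26_wN_1_rb8033062259_d51_d2525_3 := p_wS_32_wQ_26_wN_1_rb8033062259_d51_d2525_3 g__wS_32_wQ_26_wN_1_rb8033062259_d51_d2525_4

theorem g__wS_32_wQ_26_wN_1_rb8033062259_d51_d2525_0 : GoodKC AS k_wS_32_wQ_26_wN_1_rb8033062259_d51_d2525_0 := p_wS_32_wQ_26_wN_1_rb8033062259_d51_d2525_0 g__wS_32_wQ_26_wN_1_rb8033062259_d51_d2525_1 g__wS_32_wQ_26_wN_1_rb8033062259_d51_d2525_3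

theorem g_wS_32_wQ_26_wN_1_rb8033062259_d51_d2525 : GoodKC AS c_wS_32_wQ_26_wN_1_rb8033062259_d51_d2525 := p_wS_32_wQ_26_wN_1_rb8033062259_d51_d2525 g__wS_32_wQ_26_wN_1_rb8033062259_d51_d2525_0

theorem g_wS_32_wQ_26_wN_1_rb8033062259_d51_d2524 : GoodKC AS c_wS_32_wQ_26_wN_1_rb8033062259_d51_d2524 := p_wS_32_wQ_26_wN_1_rb8033062259_d51_d2524

theorem g_wS_32_wQ_26_wN_1_rb8033062259_d51_d2523 : GoodKC AS c_wS_32_wQ_26_wN_1_rb8033062259_d51_d2523 := p_wS_32_wQ_26_wN_1_rb8033062259_d51_d2523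

theorem g_wS_32_wQ_26_wN_1_rb8033062259_d51_d2520 : GoodKC AS c_wS_32_wQ_26_wN_1_rb8033062259_d51_d2520 := p_wS_32_wQ_26_wN_1_rb8033062259_d51_d2520

theorem g_wS_32_wQ_26_wN_1_rb8033062259_d51_d251d : GoodKC AS c_wS_32_wQ_26_wN_1_rb8033062259_d51_d251d := p_wS_32_wQ_26_wN_1_rb8033062259_d51_d251d

theorem g_wS_32_wQ_26_wN_1_rb8033062259_d51_d251a : GoodKC AS c_wS_32_wQ_26_wN_1_rb8033062259_d51_d251a := p_wS_32_wQ_26_wN_1_rb8033062259_d51_d251a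

theorem g_wS_32_wQ_26_wN_1_rb8033062259_d51_d2519 : GoodKC AS c_wS_32_wQ_26_wN_1_rb8033062259_d51_d2519 := p_wS_32_wQ_26_wN_1_rb8033062259_d51_d2519

theorem g_wS_32_wQ_26_wN_1_rb8033062259_d51_d2518 : GoodKC AS c_wS_32_wQ_26_wN_1_rb8033062259_d51_d2518 := p_wS_32_wQ_26_wN_1_rb8033062259_d51_d2518

theorem g_wS_32_wQ_26_wN_1_rb8033062259_d51_d2517 : GoodKC AS c_wS_32_wQ_26_wN_1_rb8033062259_d51_d2517 := p_wS_32_wQ_26_wN_1_rb8033062259_d51_d2517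

theorem g_wS_32_wQ_26_wN_1_rb8033062259_d51_d2516 : GoodKC AS c_wS_32_wQ_26_wN_1_rb8033062259_d51_d2516 := p_wS_32_wQ_26_wN_1_rb8033062259_d51_d2516

theorem g_wS_32_wQ_26_wN_1_rb8033062259_d51_d2515 : GoodKC AS c_wS_32_wQ_26_wN_1_rb8033062259_d51_d2515 := p_wS_32_wQ_26_wN_1_rb8033062259_d51_d2515

theorem g__wS_32_wQ_26_wN_1_rb8033062259_d51_d2513_d53_d0102_0 : GoodKC AS k_wS_32_wQ_26_wN_1_rb8033062259_d51_d2513_d53_d0102_0 := p_wS_32_wQ_26_wN_1_rb8033062259_d51_d2513_d53_d0102_0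

theorem g_wS_32_wQ_26_wN_1_rb8033062259_d51_d2513_d53_d0102 : GoodKC AS c_wS_32_wQ_26_wN_1_rb8033062259_d51_d2513_d53_d0102 := p_wS_32_wQ_26_wN_1_rb8033062259_d51_d2513_d53_d0102 g__wS_32_wQ_26_wN_1_rb8033062259_d51_d2513_d53_d0102_0

theorem g_wS_32_wQ_26_wN_1_rb8033062259_d51_d2513_d53_d0103 : GoodKC AS c_wS_32_wQ_26_wN_1_rb8033062259_d51_d2513_d53_d0103 := p_wS_32_wQ_26_wN_1_rb8033062259_d51_d2513_d53_d0103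

theorem g__wS_32_wQ_26_wN_1_rb8033062259_d51_d2513_d53_d01_1 : GoodKC AS k_wS_32_wQ_26_wN_1_rb8033062259_d51_d2513_d53_d01_1 := p_wS_32_wQ_26_wN_1_rb8033062259_d51_d2513_d53_d01_1

theorem g__wS_32_wQ_26_wN_1_rb8033062259_d51_d2513_d53_d0101_2 : GoodKC AS k_wS_32_wQ_26_wN_1_rb8033062259_d51_d2513_d53_d0101_2 := p_wS_32_wQ_26_wN_1_rb8033062259_d51_d2513_d53_d0101_2

theorem g__wS_32_wQ_26_wN_1_rb8033062259_d51_d2513_d53_d0101_1 : GoodKC AS k_wS_32_wQ_26_wN_1_rb8033062259_d51_d2513_d53_d0101_1 := p_wS_32_wQ_26_wN_1_rb8033062259_d51_d2513_d53_d0101_1 g__wS_32_wQ_26_wN_1_rb8033062259_d51_d2513_d53_d0101_2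

theorem g__wS_32_wQ_26_wN_1_rb8033062259_d51_d2513_d53_d0101_3 : GoodKC AS k_wS_32_wQ_26_wN_1_rb8033062259_d51_d2513_d53_d0101_3 := p_wS_32_wQ_26_wN_1_rb8033062259_d51_d2513_d53_d0101_3

theorem g__wS_32_wQ_26_wN_1_rb8033062259_d51_d2513_d53_d0101_0 : GoodKC AS k_wS_32_wQ_26_wN_1_rb8033062259_d51_d2513_d53_d0101_0 := p_wS_32_wQ_26_wN_1_rb8033062259_d51_d2513_d53_d0101_0 g__wS_32_wQ_26_wN_1_rb8033062259_d51_d2513_d53_d0101_1 g__wS_32_wQ_26_wN_1_rb8033062259_d51_d2513_d53_d0101_3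

theorem g_wS_32_wQ_26_wN_1_rb8033062259_d51_d2513_d53_d0101 : GoodKC AS c_wS_32_wQ_26_wN_1_rb8033062259_d51_d2513_d53_d0101 := p_wS_32_wQ_26_wN_1_rb8033062259_d51_d2513_d53_d0101 g__wS_32_wQ_26_wN_1_rb8033062259_d51_d2513_d53_d0101_0

theorem g__wS_32_wQ_26_wN_1_rb8033062259_d51_d2513_d53_d0100_6 : GoodKC AS k_wS_32_wQ_26_wN_1_rb8033062259_d51_d2513_d53_d0100_6 := p_wS_32_wQ_26_wN_1_rb8033062259_d51_d2513_d53_d0100_6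

theorem g__wS_32_wQ_26_wN_1_rb8033062259_d51_d2513_d53_d0100_7 : GoodKC AS k_wS_32_wQ_26_wN_1_rb8033062259_d51_d2513_d53_d0100_7 := p_wS_32_wQ_26_wN_1_rb8033062259_d51_d2513_d53_d0100_7

theorem g__wS_32_wQ_26_wN_1_rb8033062259_d51_d2513_d53_d0100_5 : GoodKC AS k_wS_32_wQ_26_wN_1_rb8033062259_d51_d2513_d53_d0100_5 := p_wS_32_wQ_26_wN_1_rb8033062259_d51_d2513_d53_d0100_5 g__wS_32_wQ_26_wN_1_rb8033062259_d51_d2513_d53_d0100_6 g__wS_32_wQ_26_wN_1_rb8033062259_d51_d2513_d53_d0100_7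

theorem g__wS_32_wQ_26_wN_1_rb8033062259_d51_d2513_d53_d0100_4 : GoodKC AS k_wS_32_wQ_26_wN_1_rb8033062259_d51_d2513_d53_d0100_4 := p_wS_32_wQ_26_wN_1_rb8033062259_d51_d2513_d53_d0100_4 g__wS_32_wQ_26_wN_1_rb8033062259_d51_d2513_d53_d0100_5

theorem g__wS_32_wQ_26_wN_1_rb8033062259_d51_d2513_d53_d0100_3 : GoodKC AS k_wS_32_wQ_26_wN_1_rb8033062259_d51_d2513_d53_d0100_3 := p_wS_32_wQ_26_wN_1_rb8033062259_d51_d2513_d53_d0100_3 g__wS_32_wQ_26_wN_1_rb8033062259_d51_d2513_d53_d0100_4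

theorem g__wS_32_wQ_26_wN_1_rb8033062259_d51_d2513_d53_d0100_2 : GoodKC AS k_wS_32_wQ_26_wN_1_rb8033062259_d51_d2513_d53_d0100_2 := p_wS_32_wQ_26_wN_1_rb8033062259_d51_d2513_d53_d0100_2 g__wS_32_wQ_26_wN_1_rb8033062259_d51_d2513_d53_d0100_3

theorem g__wS_32_wQ_26_wN_1_rb8033062259_d51_d2513_d53_d0100_8 : GoodKC AS k_wS_32_wQ_26_wN_1_rb8033062259_d51_d2513_d53_d0100_8 := p_wS_32_wQ_26_wN_1_rb8033062259_d51_d2513_d53_d0100_8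

theorem g__wS_32_wQ_26_wN_1_rb8033062259_d51_d2513_d53_d0100_1 : GoodKC AS k_wS_32_wQ_26_wN_1_rb8033062259_d51_d2513_d53_d0100_1 := p_wS_32_wQ_26_wN_1_rb8033062259_d51_d2513_d53_d0100_1 g__wS_32_wQ_26_wN_1_rb8033062259_d51_d2513_d53_d0100_2 g__wS_32_wQ_26_wN_1_rb8033062259_d51_d2513_d53_d0100_8

theorem g__wS_32_wQ_26_wN_1_rb8033062259_d51_d2513_d53_d0100_10 : GoodKC AS k_wS_32_wQ_26_wN_1_rb8033062259_d51_d2513_d53_d0100_10 := p_wS_32_wQ_26_wN_1_rb8033062259_d51_d2513_d53_d0100_10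

theorem g__wS_32_wQ_26_wN_1_rb8033062259_d51_d2513_d53_d0100_11 : GoodKC AS k_wS_32_wQ_26_wN_1_rb8033062259_d51_d2513_d53_d0100_11 := p_wS_32_wQ_26_wN_1_rb8033062259_d51_d2513_d53_d0100_11

theorem g__wS_32_wQ_26_wN_1_rb8033062259_d51_d2513_d53_d0100_9 : GoodKC AS k_wS_32_wQ_26_wN_1_rb8033062259_d51_d2513_d53_d0100_9 := p_wS_32_wQ_26_wN_1_rb8033062259_d51_d2513_d53_d0100_9 g__wS_32_wQ_26_wN_1_rb8033062259_d51_d2513_d53_d0100_10 g__wS_32_wQ_26_wN_1_rb8033062259_d51_d2513_d53_d0100_11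

theorem g__wS_32_wQ_26_wN_1_rb8033062259_d51_d2513_d53_d0100_0 : GoodKC AS k_wS_32_wQ_26_wN_1_rb8033062259_d51_d2513_d53_d0100_0 := p_wS_32_wQ_26_wN_1_rb8033062259_d51_d2513_d53_d0100_0 g__wS_32_wQ_26_wN_1_rb8033062259_d51_d2513_d53_d0100_1 g__wS_32_wQ_26_wN_1_rb8033062259_d51_d2513_d53_d0100_9

theorem g_wS_32_wQ_26_wN_1_rb8033062259_d51_d2513_d53_d0100 : GoodKC AS c_wS_32_wQ_26_wN_1_rb8033062259_d51_d2513_d53_d0100 := p_wS_32_wQ_26_wN_1_rb8033062259_d51_d2513_d53_d0100 g__wS_32_wQ_26_wN_1_rb8033062259_d51_d2513_d53_d0100_0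

theorem g__wS_32_wQ_26_wN_1_rb8033062259_d51_d2513_d53_d01_2 : GoodKC AS k_wS_32_wQ_26_wN_1_rb8033062259_d51_d2513_d53_d01_2 := p_wS_32_wQ_26_wN_1_rb8033062259_d51_d2513_d53_d01_2 g_wS_32_wQ_26_wN_1_rb8033062259_d51_d2513_d53_d0101 g_wS_32_wQ_26_wN_1_rb8033062259_d51_d2513_d53_d0100

theorem g__wS_32_wQ_26_wN_1_rb8033062259_d51_d2513_d53_d01_0 : GoodKC AS k_wS_32_wQ_26_wN_1_rb8033062259_d51_d2513_d53_d01_0 := p_wS_32_wQ_26_wN_1_rb8033062259_d51_d2513_d53_d01_0 g__wS_32_wQ_26_wN_1_rb8033062259_d51_d2513_d53_d01_1 g__wS_32_wQ_26_wN_1_rb8033062259_d51_d2513_d53_d01_2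

theorem g_wS_32_wQ_26_wN_1_rb8033062259_d51_d2513_d53_d01v1 : GoodKC AS c_wS_32_wQ_26_wN_1_rb8033062259_d51_d2513_d53_d01v1 := p_wS_32_wQ_26_wN_1_rb8033062259_d51_d2513_d53_d01 g_wS_32_wQ_26_wN_1_rb8033062259_d51_d2513_d53_d0102 g_wS_32_wQ_26_wN_1_rb8033062259_d51_d2513_d53_d0103 g__wS_32_wQ_26_wN_1_rb8033062259_d51_d2513_d53_d01_0

theorem g_wS_32_wQ_26_wN_1_rb8033062259_d51_d2513_d53_d0007 : GoodKC AS c_wS_32_wQ_26_wN_1_rb8033062259_d51_d2513_d53_d0007 := p_wS_32_wQ_26_wN_1_rb8033062259_d51_d2513_d53_d0007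

theorem g_wS_32_wQ_26_wN_1_rb8033062259_d51_d2513_d53_d0006 : GoodKC AS c_wS_32_wQ_26_wN_1_rb8033062259_d51_d2513_d53_d0006 := p_wS_32_wQ_26_wN_1_rb8033062259_d51_d2513_d53_d0006

theorem g_wS_32_wQ_26_wN_1_rb8033062259_d51_d2513_d53_d0005 : GoodKC AS c_wS_32_wQ_26_wN_1_rb8033062259_d51_d2513_d53_d0005 := p_wS_32_wQ_26_wN_1_rb8033062259_d51_d2513_d53_d0005

theorem g_wS_32_wQ_26_wN_1_rb8033062259_d51_d2513_d53_d0003 : GoodKC AS c_wS_32_wQ_26_wN_1_rb8033062259_d51_d2513_d53_d0003 := p_wS_32_wQ_26_wN_1_rb8033062259_d51_d2513_d53_d0003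

theorem g_wS_32_wQ_26_wN_1_rb8033062259_d51_d2513_d53_d0004 : GoodKC AS c_wS_32_wQ_26_wN_1_rb8033062259_d51_d2513_d53_d0004 := p_wS_32_wQ_26_wN_1_rb8033062259_d51_d2513_d53_d0004

theorem g__wS_32_wQ_26_wN_1_rb8033062259_d51_d2513_d53_d0000_1 : GoodKC AS k_wS_32_wQ_26_wN_1_rb8033062259_d51_d2513_d53_d0000_1 := p_wS_32_wQ_26_wN_1_rb8033062259_d51_d2513_d53_d0000_1

theorem g__wS_32_wQ_26_wN_1_rb8033062259_d51_d2513_d53_d0000_0 : GoodKC AS k_wS_32_wQ_26_wN_1_rb8033062259_d51_d2513_d53_d0000_0 := p_wS_32_wQ_26_wN_1_rb8033062259_d51_d2513_d53_d0000_0 g__wS_32_wQ_26_wN_1_rb8033062259_d51_d2513_d53_d0000_1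

theorem g_wS_32_wQ_26_wN_1_rb8033062259_d51_d2513_d53_d0000 : GoodKC AS c_wS_32_wQ_26_wN_1_rb8033062259_d51_d2513_d53_d0000 := p_wS_32_wQ_26_wN_1_rb8033062259_d51_d2513_d53_d0000 g__wS_32_wQ_26_wN_1_rb8033062259_d51_d2513_d53_d0000_0

theorem g__wS_32_wQ_26_wN_1_rb8033062259_d51_d2513_d53_d00_0 : GoodKC AS k_wS_32_wQ_26_wN_1_rb8033062259_d51_d2513_d53_d00_0 := p_wS_32_wQ_26_wN_1_rb8033062259_d51_d2513_d53_d00_0 g_wS_32_wQ_26_wN_1_rb8033062259_d51_d2513_d53_d0000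

theorem g__wS_32_wQ_26_wN_1_rb8033062259_d51_d2513_d53_d0001_0 : GoodKC AS k_wS_32_wQ_26_wN_1_rb8033062259_d51_d2513_d53_d0001_0 := p_wS_32_wQ_26_wN_1_rb8033062259_d51_d2513_d53_d0001_0

theorem g_wS_32_wQ_26_wN_1_rb8033062259_d51_d2513_d53_d0001 : GoodKC AS c_wS_32_wQ_26_wN_1_rb8033062259_d51_d2513_d53_d0001 := p_wS_32_wQ_26_wN_1_rb8033062259_d51_d2513_d53_d0001 g__wS_32_wQ_26_wN_1_rb8033062259_d51_d2513_d53_d0001_0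

theorem g__wS_32_wQ_26_wN_1_rb8033062259_d51_d2513_d53_d0002_1 : GoodKC AS k_wS_32_wQ_26_wN_1_rb8033062259_d51_d2513_d53_d0002_1 := p_wS_32_wQ_26_wN_1_rb8033062259_d51_d2513_d53_d0002_1

theorem g__wS_32_wQ_26_wN_1_rb8033062259_d51_d2513_d53_d0002_2 : GoodKC AS k_wS_32_wQ_26_wN_1_rb8033062259_d51_d2513_d53_d0002_2 := p_wS_32_wQ_26_wN_1_rb8033062259_d51_d2513_d53_d0002_2

theorem g__wS_32_wQ_26_wN_1_rb8033062259_d51_d2513_d53_d0002_0 : GoodKC AS k_wS_32_wQ_26_wN_1_rb8033062259_d51_d2513_d53_d0002_0 := p_wS_32_wQ_26_wN_1_rb8033062259_d51_d2513_d53_d0002_0 g__wS_32_wQ_26_wN_1_rb8033062259_d51_d2513_d53_d0002_1 g__wS_32_wQ_26_wN_1_rb8033062259_d51_d2513_d53_d0002_2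

theorem g_wS_32_wQ_26_wN_1_rb8033062259_d51_d2513_d53_d0002 : GoodKC AS c_wS_32_wQ_26_wN_1_rb8033062259_d51_d2513_d53_d0002 := p_wS_32_wQ_26_wN_1_rb8033062259_d51_d2513_d53_d0002 g__wS_32_wQ_26_wN_1_rb8033062259_d51_d2513_d53_d0002_0

theorem g_wS_32_wQ_26_wN_1_rb8033062259_d51_d2513_d53_d0008 : GoodKC AS c_wS_32_wQ_26_wN_1_rb8033062259_d51_d2513_d53_d0008 := p_wS_32_wQ_26_wN_1_rb8033062259_d51_d2513_d53_d0008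

theorem g_wS_32_wQ_26_wN_1_rb8033062259_d51_d2513_d53_d0009 : GoodKC AS c_wS_32_wQ_26_wN_1_rb8033062259_d51_d2513_d53_d0009 := p_wS_32_wQ_26_wN_1_rb8033062259_d51_d2513_d53_d0009

theorem g_wS_32_wQ_26_wN_1_rb8033062259_d51_d2513_d53_d00v1 : GoodKC AS c_wS_32_wQ_26_wN_1_rb8033062259_d51_d2513_d53_d00v1 := p_wS_32_wQ_26_wN_1_rb8033062259_d51_d2513_d53_d00 g_wS_32_wQ_26_wN_1_rb8033062259_d51_d2513_d53_d0007 g_wS_32_wQ_26_wN_1_rb8033062259_d51_d2513_d53_d0006 g_wS_32_wQ_26_wN_1_rb8033062259_d51_d2513_d53_d0005 g_wS_32_wQ_26_wN_1_rb8033062259_d51_d2513_d53_d0003 g_wS_32_wQ_26_wN_1_rb8033062259_d51_d2513_d53_d0004 g__wS_32_wQ_26_wN_1_rb8033062259_d51_d2513_d53_d00_0 g_wS_32_wQ_26_wN_1_rb8033062259_d51_d2513_d53_d0001 g_wS_32_wQ_26_wN_1_rb8033062259_d51_d2513_d53_d0002 g_wS_32_wQ_26_wN_1_rb8033062259_d51_d2513_d53_d0008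 g_wS_32_wQ_26_wN_1_rb8033062259_d51_d2513_d53_d0009

theorem g__wS_32_wQ_26_wN_1_rb8033062259_d51_d2513v1_4 : GoodKC AS k_wS_32_wQ_26_wN_1_rb8033062259_d51_d2513v1_4 := p_wS_32_wQ_26_wN_1_rb8033062259_d51_d2513v1_4

theorem g__wS_32_wQ_26_wN_1_rb8033062259_d51_d2513v1_3 : GoodKC AS k_wS_32_wQ_26_wN_1_rb8033062259_d51_d2513v1_3 := p_wS_32_wQ_26_wN_1_rb8033062259_d51_d2513v1_3 g_wS_32_wQ_26_wN_1_rb8033062259_d51_d2513_d53_d00v1 g__wS_32_wQ_26_wN_1_rb8033062259_d51_d2513v1_4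

theorem g__wS_32_wQ_26_wN_1_rb8033062259_d51_d2513v1_7 : GoodKC AS k_wS_32_wQ_26_wN_1_rb8033062259_d51_d2513v1_7 := p_wS_32_wQ_26_wN_1_rb8033062259_d51_d2513v1_7

theorem g__wS_32_wQ_26_wN_1_rb8033062259_d51_d2513v1_6 : GoodKC AS k_wS_32_wQ_26_wN_1_rb8033062259_d51_d2513v1_6 := p_wS_32_wQ_26_wN_1_rb8033062259_d51_d2513v1_6 g__wS_32_wQ_26_wN_1_rb8033062259_d51_d2513v1_7

theorem g__wS_32_wQ_26_wN_1_rb8033062259_d51_d2513v1_5 : GoodKC AS k_wS_32_wQ_26_wN_1_rb8033062259_d51_d2513v1_5 := p_wS_32_wQ_26_wN_1_rb8033062259_d51_d2513v1_5 g__wS_32_wQ_26_wN_1_rb8033062259_d51_d2513v1_6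

theorem g__wS_32_wQ_26_wN_1_rb8033062259_d51_d2513v1_2 : GoodKC AS k_wS_32_wQ_26_wN_1_rb8033062259_d51_d2513v1_2 := p_wS_32_wQ_26_wN_1_rb8033062259_d51_d2513v1_2 g__wS_32_wQ_26_wN_1_rb8033062259_d51_d2513v1_3 g__wS_32_wQ_26_wN_1_rb8033062259_d51_d2513v1_5

theorem g__wS_32_wQ_26_wN_1_rb8033062259_d51_d2513v1_9 : GoodKC AS k_wS_32_wQ_26_wN_1_rb8033062259_d51_d2513v1_9 := p_wS_32_wQ_26_wN_1_rb8033062259_d51_d2513v1_9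

theorem g__wS_32_wQ_26_wN_1_rb8033062259_d51_d2513v1_8 : GoodKC AS k_wS_32_wQ_26_wN_1_rb8033062259_d51_d2513v1_8 := p_wS_32_wQ_26_wN_1_rb8033062259_d51_d2513v1_8 g__wS_32_wQ_26_wN_1_rb8033062259_d51_d2513v1_9

theorem g__wS_32_wQ_26_wN_1_rb8033062259_d51_d2513v1_1 : GoodKC AS k_wS_32_wQ_26_wN_1_rb8033062259_d51_d2513v1_1 := p_wS_32_wQ_26_wN_1_rb8033062259_d51_d2513v1_1 g__wS_32_wQ_26_wN_1_rb8033062259_d51_d2513v1_2 g__wS_32_wQ_26_wN_1_rb8033062259_d51_d2513v1_8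

theorem g__wS_32_wQ_26_wN_1_rb8033062259_d51_d2513v1_0 : GoodKC AS k_wS_32_wQ_26_wN_1_rb8033062259_d51_d2513v1_0 := p_wS_32_wQ_26_wN_1_rb8033062259_d51_d2513v1_0 g_wS_32_wQ_26_wN_1_rb8033062259_d51_d2513_d53_d01v1 g__wS_32_wQ_26_wN_1_rb8033062259_d51_d2513v1_1

theorem g_wS_32_wQ_26_wN_1_rb8033062259_d51_d2513 : GoodKC AS c_wS_32_wQ_26_wN_1_rb8033062259_d51_d2513 := p_wS_32_wQ_26_wN_1_rb8033062259_d51_d2513v1 g__wS_32_wQ_26_wN_1_rb8033062259_d51_d2513v1_0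

theorem g_wS_32_wQ_26_wN_1_rb8033062259_d51_d2511 : GoodKC AS c_wS_32_wQ_26_wN_1_rb8033062259_d51_d2511 := p_wS_32_wQ_26_wN_1_rb8033062259_d51_d2511

theorem g_wS_32_wQ_26_wN_1_rb8033062259_d51_d250d : GoodKC AS c_wS_32_wQ_26_wN_1_rb8033062259_d51_d250d := p_wS_32_wQ_26_wN_1_rb8033062259_d51_d250d

theorem g_wS_32_wQ_26_wN_1_rb8033062259_d51_d250c : GoodKC AS c_wS_32_wQ_26_wN_1_rb8033062259_d51_d250c := p_wS_32_wQ_26_wN_1_rb8033062259_d51_d250c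

theorem g_wS_32_wQ_26_wN_1_rb8033062259_d51_d2508 : GoodKC AS c_wS_32_wQ_26_wN_1_rb8033062259_d51_d2508 := p_wS_32_wQ_26_wN_1_rb8033062259_d51_d2508

theorem g_wS_32_wQ_26_wN_1_rb8033062259_d51_d2507 : GoodKC AS c_wS_32_wQ_26_wN_1_rb8033062259_d51_d2507 := p_wS_32_wQ_26_wN_1_rb8033062259_d51_d2507

theorem g_wS_32_wQ_26_wN_1_rb8033062259_d51_d2502 : GoodKC AS c_wS_32_wQ_26_wN_1_rb8033062259_d51_d2502 := p_wS_32_wQ_26_wN_1_rb8033062259_d51_d2502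

theorem g_wS_32_wQ_26_wN_1_rb8033062259_d51_d2500 : GoodKC AS c_wS_32_wQ_26_wN_1_rb8033062259_d51_d2500 := p_wS_32_wQ_26_wN_1_rb8033062259_d51_d2500v2

theorem g_wS_32_wQ_26_wN_1_rb8033062259_d51_d2501 : GoodKC AS c_wS_32_wQ_26_wN_1_rb8033062259_d51_d2501 := p_wS_32_wQ_26_wN_1_rb8033062259_d51_d2501

theorem g_wS_32_wQ_26_wN_1_rb8033062259_d51_d2503 : GoodKC AS c_wS_32_wQ_26_wN_1_rb8033062259_d51_d2503 := p_wS_32_wQ_26_wN_1_rb8033062259_d51_d2503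

theorem g_wS_32_wQ_26_wN_1_rb8033062259_d51_d2504 : GoodKC AS c_wS_32_wQ_26_wN_1_rb8033062259_d51_d2504 := p_wS_32_wQ_26_wN_1_rb8033062259_d51_d2504

theorem g_wS_32_wQ_26_wN_1_rb8033062259_d51_d2505 : GoodKC AS c_wS_32_wQ_26_wN_1_rb8033062259_d51_d2505 := p_wS_32_wQ_26_wN_1_rb8033062259_d51_d2505

theorem g_wS_32_wQ_26_wN_1_rb8033062259_d51_d2506 : GoodKC AS c_wS_32_wQ_26_wN_1_rb8033062259_d51_d2506 := p_wS_32_wQ_26_wN_1_rb8033062259_d51_d2506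

theorem g_wS_32_wQ_26_wN_1_rb8033062259_d51_d2509 : GoodKC AS c_wS_32_wQ_26_wN_1_rb8033062259_d51_d2509 := p_wS_32_wQ_26_wN_1_rb8033062259_d51_d2509

theorem g__wS_32_wQ_26_wN_1_rb8033062259_d51_d250a_4 : GoodKC AS k_wS_32_wQ_26_wN_1_rb8033062259_d51_d250a_4 := p_wS_32_wQ_26_wN_1_rb8033062259_d51_d250a_4

theorem g__wS_32_wQ_26_wN_1_rb8033062259_d51_d250a_3 : GoodKC AS k_wS_32_wQ_26_wN_1_rb8033062259_d51_d250a_3 := p_wS_32_wQ_26_wN_1_rb8033062259_d51_d250a_3 g__wS_32_wQ_26_wN_1_rb8033062259_d51_d250a_4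

theorem g__wS_32_wQ_26_wN_1_rb8033062259_d51_d250a_2 : GoodKC AS k_wS_32_wQ_26_wN_1_rb8033062259_d51_d250a_2 := p_wS_32_wQ_26_wN_1_rb8033062259_d51_d250a_2 g__wS_32_wQ_26_wN_1_rb8033062259_d51_d250a_3

theorem g__wS_32_wQ_26_wN_1_rb8033062259_d51_d250a_1 : GoodKC AS k_wS_32_wQ_26_wN_1_rb8033062259_d51_d250a_1 := p_wS_32_wQ_26_wN_1_rb8033062259_d51_d250a_1 g__wS_32_wQ_26_wN_1_rb8033062259_d51_d250a_2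

theorem g__wS_32_wQ_26_wN_1_rb8033062259_d51_d250a_0 : GoodKC AS k_wS_32_wQ_26_wN_1_rb8033062259_d51_d250a_0 := p_wS_32_wQ_26_wN_1_rb8033062259_d51_d250a_0 g__wS_32_wQ_26_wN_1_rb8033062259_d51_d250a_1

theorem g_wS_32_wQ_26_wN_1_rb8033062259_d51_d250a : GoodKC AS c_wS_32_wQ_26_wN_1_rb8033062259_d51_d250a := p_wS_32_wQ_26_wN_1_rb8033062259_d51_d250a g__wS_32_wQ_26_wN_1_rb8033062259_d51_d250a_0

theorem g_wS_32_wQ_26_wN_1_rb8033062259_d51_d250b : GoodKC AS c_wS_32_wQ_26_wN_1_rb8033062259_d51_d250b := p_wS_32_wQ_26_wN_1_rb8033062259_d51_d250b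

theorem g_wS_32_wQ_26_wN_1_rb8033062259_d51_d250e : GoodKC AS c_wS_32_wQ_26_wN_1_rb8033062259_d51_d250e := p_wS_32_wQ_26_wN_1_rb8033062259_d51_d250e

theorem g_wS_32_wQ_26_wN_1_rb8033062259_d51_d250f : GoodKC AS c_wS_32_wQ_26_wN_1_rb8033062259_d51_d250f := p_wS_32_wQ_26_wN_1_rb8033062259_d51_d250f

theorem g_wS_32_wQ_26_wN_1_rb8033062259_d51_d2510 : GoodKC AS c_wS_32_wQ_26_wN_1_rb8033062259_d51_d2510 := p_wS_32_wQ_26_wN_1_rb8033062259_d51_d2510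

theorem g_wS_32_wQ_26_wN_1_rb8033062259_d51_d2512 : GoodKC AS c_wS_32_wQ_26_wN_1_rb8033062259_d51_d2512 := p_wS_32_wQ_26_wN_1_rb8033062259_d51_d2512

theorem g_wS_32_wQ_26_wN_1_rb8033062259_d51_d2514 : GoodKC AS c_wS_32_wQ_26_wN_1_rb8033062259_d51_d2514 := p_wS_32_wQ_26_wN_1_rb8033062259_d51_d2514

theorem g_wS_32_wQ_26_wN_1_rb8033062259_d51_d251b : GoodKC AS c_wS_32_wQ_26_wN_1_rb8033062259_d51_d251b := p_wS_32_wQ_26_wN_1_rb8033062259_d51_d251b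

theorem g_wS_32_wQ_26_wN_1_rb8033062259_d51_d251c : GoodKC AS c_wS_32_wQ_26_wN_1_rb8033062259_d51_d251c := p_wS_32_wQ_26_wN_1_rb8033062259_d51_d251c

theorem g_wS_32_wQ_26_wN_1_rb8033062259_d51_d251e : GoodKC AS c_wS_32_wQ_26_wN_1_rb8033062259_d51_d251e := p_wS_32_wQ_26_wN_1_rb8033062259_d51_d251e

theorem g_wS_32_wQ_26_wN_1_rb8033062259_d51_d251f : GoodKC AS c_wS_32_wQ_26_wN_1_rb8033062259_d51_d251f := p_wS_32_wQ_26_wN_1_rb8033062259_d51_d251f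

theorem g_wS_32_wQ_26_wN_1_rb8033062259_d51_d2521 : GoodKC AS c_wS_32_wQ_26_wN_1_rb8033062259_d51_d2521 := p_wS_32_wQ_26_wN_1_rb8033062259_d51_d2521

theorem g_wS_32_wQ_26_wN_1_rb8033062259_d51_d2522 : GoodKC AS c_wS_32_wQ_26_wN_1_rb8033062259_d51_d2522 := p_wS_32_wQ_26_wN_1_rb8033062259_d51_d2522

theorem g_wS_32_wQ_26_wN_1_rb8033062259_d51_d2527 : GoodKC AS c_wS_32_wQ_26_wN_1_rb8033062259_d51_d2527 := p_wS_32_wQ_26_wN_1_rb8033062259_d51_d2527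

theorem g_wS_32_wQ_26_wN_1_rb8033062259_d51_d2528 : GoodKC AS c_wS_32_wQ_26_wN_1_rb8033062259_d51_d2528 := p_wS_32_wQ_26_wN_1_rb8033062259_d51_d2528

theorem g_wS_32_wQ_26_wN_1_rb8033062259_d51_d2529 : GoodKC AS c_wS_32_wQ_26_wN_1_rb8033062259_d51_d2529 := p_wS_32_wQ_26_wN_1_rb8033062259_d51_d2529

theorem g_wS_32_wQ_26_wN_1_rb8033062259_d51_d252a : GoodKC AS c_wS_32_wQ_26_wN_1_rb8033062259_d51_d252a := p_wS_32_wQ_26_wN_1_rb8033062259_d51_d252a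

theorem g_wS_32_wQ_26_wN_1_rb8033062259_d51_d252d : GoodKC AS c_wS_32_wQ_26_wN_1_rb8033062259_d51_d252d := p_wS_32_wQ_26_wN_1_rb8033062259_d51_d252d

theorem g_wS_32_wQ_26_wN_1_rb8033062259_d51_d252e : GoodKC AS c_wS_32_wQ_26_wN_1_rb8033062259_d51_d252e := p_wS_32_wQ_26_wN_1_rb8033062259_d51_d252e

theorem g__wS_32_wQ_26_wN_1_rb8033062259_d51_d252f_2 : GoodKC AS k_wS_32_wQ_26_wN_1_rb8033062259_d51_d252f_2 := p_wS_32_wQ_26_wN_1_rb8033062259_d51_d252f_2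

theorem g__wS_32_wQ_26_wN_1_rb8033062259_d51_d252f_1 : GoodKC AS k_wS_32_wQ_26_wN_1_rb8033062259_d51_d252f_1 := p_wS_32_wQ_26_wN_1_rb8033062259_d51_d252f_1 g__wS_32_wQ_26_wN_1_rb8033062259_d51_d252f_2

theorem g__wS_32_wQ_26_wN_1_rb8033062259_d51_d252f_0 : GoodKC AS k_wS_32_wQ_26_wN_1_rb8033062259_d51_d252f_0 := p_wS_32_wQ_26_wN_1_rb8033062259_d51_d252f_0 g__wS_32_wQ_26_wN_1_rb8033062259_d51_d252f_1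

theorem g_wS_32_wQ_26_wN_1_rb8033062259_d51_d252f : GoodKC AS c_wS_32_wQ_26_wN_1_rb8033062259_d51_d252f := p_wS_32_wQ_26_wN_1_rb8033062259_d51_d252f g__wS_32_wQ_26_wN_1_rb8033062259_d51_d252f_0

theorem g_wS_32_wQ_26_wN_1_rb8033062259_d51_d2531 : GoodKC AS c_wS_32_wQ_26_wN_1_rb8033062259_d51_d2531 := p_wS_32_wQ_26_wN_1_rb8033062259_d51_d2531

theorem g_wS_32_wQ_26_wN_1_rb8033062259_d51_d253a : GoodKC AS c_wS_32_wQ_26_wN_1_rb8033062259_d51_d253a := p_wS_32_wQ_26_wN_1_rb8033062259_d51_d253a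

theorem g_wS_32_wQ_26_wN_1_rb8033062259_d51_d253f : GoodKC AS c_wS_32_wQ_26_wN_1_rb8033062259_d51_d253f := p_wS_32_wQ_26_wN_1_rb8033062259_d51_d253f

theorem g__wS_32_wQ_26_wN_1_rb8033062259_d51_d25_3 : GoodKC AS k_wS_32_wQ_26_wN_1_rb8033062259_d51_d25_3 := p_wS_32_wQ_26_wN_1_rb8033062259_d51_d25_3

theorem g__wS_32_wQ_26_wN_1_rb8033062259_d51_d25_2 : GoodKC AS k_wS_32_wQ_26_wN_1_rb8033062259_d51_d25_2 := p_wS_32_wQ_26_wN_1_rb8033062259_d51_d25_2 g__wS_32_wQ_26_wN_1_rb8033062259_d51_d25_3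

theorem g__wS_32_wQ_26_wN_1_rb8033062259_d51_d25_1 : GoodKC AS k_wS_32_wQ_26_wN_1_rb8033062259_d51_d25_1 := p_wS_32_wQ_26_wN_1_rb8033062259_d51_d25_1 g__wS_32_wQ_26_wN_1_rb8033062259_d51_d25_2

theorem g__wS_32_wQ_26_wN_1_rb8033062259_d51_d25_5 : GoodKC AS k_wS_32_wQ_26_wN_1_rb8033062259_d51_d25_5 := p_wS_32_wQ_26_wN_1_rb8033062259_d51_d25_5

theorem g__wS_32_wQ_26_wN_1_rb8033062259_d51_d25_4 : GoodKC AS k_wS_32_wQ_26_wN_1_rb8033062259_d51_d25_4 := p_wS_32_wQ_26_wN_1_rb8033062259_d51_d25_4 g__wS_32_wQ_26_wN_1_rb8033062259_d51_d25_5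

theorem g__wS_32_wQ_26_wN_1_rb8033062259_d51_d25_0 : GoodKC AS k_wS_32_wQ_26_wN_1_rb8033062259_d51_d25_0 := p_wS_32_wQ_26_wN_1_rb8033062259_d51_d25_0 g__wS_32_wQ_26_wN_1_rb8033062259_d51_d25_1 g__wS_32_wQ_26_wN_1_rb8033062259_d51_d25_4

theorem g_wS_32_wQ_26_wN_1_rb8033062259_d51_d25 : GoodKC AS c_wS_32_wQ_26_wN_1_rb8033062259_d51_d25 := p_wS_32_wQ_26_wN_1_rb8033062259_d51_d25 g_wS_32_wQ_26_wN_1_rb8033062259_d51_d2549 g_wS_32_wQ_26_wN_1_rb8033062259_d51_d2548 g_wS_32_wQ_26_wN_1_rb8033062259_d51_d2547 g_wS_32_wQ_26_wN_1_rb8033062259_d51_d2546 g_wS_32_wQ_26_wN_1_rb8033062259_d51_d2545 g_wS_32_wQ_26_wN_1_rb8033062259_d51_d2544 g_wS_32_wQ_26_wN_1_rb8033062259_d51_d2543 g_wS_32_wQ_26_wN_1_rb8033062259_d51_d2542 g_wS_32_wQ_26_wN_1_rb8033062259_d51_d2541 g_wS_32_wQ_26_wN_1_rb8033062259_d51_d2540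 g_wS_32_wQ_26_wN_1_rb8033062259_d51_d253e g_wS_32_wQ_26_wN_1_rb8033062259_d51_d253d g_wS_32_wQ_26_wN_1_rb8033062259_d51_d253c g_wS_32_wQ_26_wN_1_rb8033062259_d51_d253b g_wS_32_wQ_26_wN_1_rb8033062259_d51_d2539 g_wS_32_wQ_26_wN_1_rb8033062259_d51_d2538 g_wS_32_wQ_26_wN_1_rb8033062259_d51_d2537 g_wS_32_wQ_26_wN_1_rb8033062259_d51_d2536 g_wS_32_wQ_26_wN_1_rb8033062259_d51_d2535 g_wS_32_wQ_26_wN_1_rb8033062259_d51_d2534 g_wS_32_wQ_26_wN_1_rb8033062259_d51_d2533 g_wS_32_wQ_26_wN_1_rb8033062259_d51_d2532 g_wS_32_wQ_26_wN_1_rb8033062259_d51_d2530 g_wS_32_wQ_26_wN_1_rb8033062259_d51_d252c g_wS_32_wQ_26_wN_1_rb8033062259_d51_d252b g_wS_32_wQ_26_wN_1_rb8033062259_d51_d2526 g_wS_32_wQ_26_wN_1_rb8033062259_d51_d2525 g_wS_32_wQ_26_wN_1_rb8033062259_d51_d2524 g_wS_32_wQ_26_wN_1_rb8033062259_d51_d2523 g_wS_32_wQ_26_wN_1_rb8033062259_d51_d2520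 g_wS_32_wQ_26_wN_1_rb8033062259_d51_d251d g_wS_32_wQ_26_wN_1_rb8033062259_d51_d251a g_wS_32_wQ_26_wN_1_rb8033062259_d51_d2519 g_wS_32_wQ_26_wN_1_rb8033062259_d51_d2518 g_wS_32_wQ_26_wN_1_rb8033062259_d51_d2517 g_wS_32_wQ_26_wN_1_rb8033062259_d51_d2516 g_wS_32_wQ_26_wN_1_rb8033062259_d51_d2515 g_wS_32_wQ_26_wN_1_rb8033062259_d51_d2513 g_wS_32_wQ_26_wN_1_rb8033062259_d51_d2511 g_wS_32_wQ_26_wN_1_rb8033062259_d51_d250d g_wS_32_wQ_26_wN_1_rb8033062259_d51_d250c g_wS_32_wQ_26_wN_1_rb8033062259_d51_d2508 g_wS_32_wQ_26_wN_1_rb8033062259_d51_d2507 g_wS_32_wQ_26_wN_1_rb8033062259_d51_d2502 g_wS_32_wQ_26_wN_1_rb8033062259_d51_d2500 g_wS_32_wQ_26_wN_1_rb8033062259_d51_d2501 g_wS_32_wQ_26_wN_1_rb8033062259_d51_d2503 g_wS_32_wQ_26_wN_1_rb8033062259_d51_d2504 g_wS_32_wQ_26_wN_1_rb8033062259_d51_d2505 g_wS_32_wQ_26_wN_1_rb8033062259_d51_d2506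 g_wS_32_wQ_26_wN_1_rb8033062259_d51_d2509 g_wS_32_wQ_26_wN_1_rb8033062259_d51_d250a g_wS_32_wQ_26_wN_1_rb8033062259_d51_d250b g_wS_32_wQ_26_wN_1_rb8033062259_d51_d250e g_wS_32_wQ_26_wN_1_rb8033062259_d51_d250f g_wS_32_wQ_26_wN_1_rb8033062259_d51_d2510 g_wS_32_wQ_26_wN_1_rb8033062259_d51_d2512 g_wS_32_wQ_26_wN_1_rb8033062259_d51_d2514 g_wS_32_wQ_26_wN_1_rb8033062259_d51_d251b g_wS_32_wQ_26_wN_1_rb8033062259_d51_d251c g_wS_32_wQ_26_wN_1_rb8033062259_d51_d251e g_wS_32_wQ_26_wN_1_rb8033062259_d51_d251f g_wS_32_wQ_26_wN_1_rb8033062259_d51_d2521 g_wS_32_wQ_26_wN_1_rb8033062259_d51_d2522 g_wS_32_wQ_26_wN_1_rb8033062259_d51_d2527 g_wS_32_wQ_26_wN_1_rb8033062259_d51_d2528 g_wS_32_wQ_26_wN_1_rb8033062259_d51_d2529 g_wS_32_wQ_26_wN_1_rb8033062259_d51_d252a g_wS_32_wQ_26_wN_1_rb8033062259_d51_d252d g_wS_32_wQ_26_wN_1_rb8033062259_d51_d252e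 g_wS_32_wQ_26_wN_1_rb8033062259_d51_d252f g_wS_32_wQ_26_wN_1_rb8033062259_d51_d2531 g_wS_32_wQ_26_wN_1_rb8033062259_d51_d253a g_wS_32_wQ_26_wN_1_rb8033062259_d51_d253f g__wS_32_wQ_26_wN_1_rb8033062259_d51_d25_0

theorem g__wS_32_wQ_26_wN_1_rb8033062259_d51_d26_d42_d0fv1_0 : GoodKC AS k_wS_32_wQ_26_wN_1_rb8033062259_d51_d26_d42_d0fv1_0 := p_wS_32_wQ_26_wN_1_rb8033062259_d51_d26_d42_d0fv1_0

theorem g__wS_32_wQ_26_wN_1_rb8033062259_d51_d26_d42_d0fv1_5 : GoodKC AS k_wS_32_wQ_26_wN_1_rb8033062259_d51_d26_d42_d0fv1_5 := p_wS_32_wQ_26_wN_1_rb8033062259_d51_d26_d42_d0fv1_5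

theorem g__wS_32_wQ_26_wN_1_rb8033062259_d51_d26_d42_d0fv1_7 : GoodKC AS k_wS_32_wQ_26_wN_1_rb8033062259_d51_d26_d42_d0fv1_7 := p_wS_32_wQ_26_wN_1_rb8033062259_d51_d26_d42_d0fv1_7

theorem g__wS_32_wQ_26_wN_1_rb8033062259_d51_d26_d42_d0fv1_6 : GoodKC AS k_wS_32_wQ_26_wN_1_rb8033062259_d51_d26_d42_d0fv1_6 := p_wS_32_wQ_26_wN_1_rb8033062259_d51_d26_d42_d0fv1_6 g__wS_32_wQ_26_wN_1_rb8033062259_d51_d26_d42_d0fv1_7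

theorem g__wS_32_wQ_26_wN_1_rb8033062259_d51_d26_d42_d0fv1_4 : GoodKC AS k_wS_32_wQ_26_wN_1_rb8033062259_d51_d26_d42_d0fv1_4 := p_wS_32_wQ_26_wN_1_rb8033062259_d51_d26_d42_d0fv1_4 g__wS_32_wQ_26_wN_1_rb8033062259_d51_d26_d42_d0fv1_5 g__wS_32_wQ_26_wN_1_rb8033062259_d51_d26_d42_d0fv1_6

theorem g__wS_32_wQ_26_wN_1_rb8033062259_d51_d26_d42_d0fv1_3 : GoodKC AS k_wS_32_wQ_26_wN_1_rb8033062259_d51_d26_d42_d0fv1_3 := p_wS_32_wQ_26_wN_1_rb8033062259_d51_d26_d42_d0fv1_3 g__wS_32_wQ_26_wN_1_rb8033062259_d51_d26_d42_d0fv1_4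

theorem g__wS_32_wQ_26_wN_1_rb8033062259_d51_d26_d42_d0fv1_2 : GoodKC AS k_wS_32_wQ_26_wN_1_rb8033062259_d51_d26_d42_d0fv1_2 := p_wS_32_wQ_26_wN_1_rb8033062259_d51_d26_d42_d0fv1_2 g__wS_32_wQ_26_wN_1_rb8033062259_d51_d26_d42_d0fv1_3

theorem g__wS_32_wQ_26_wN_1_rb8033062259_d51_d26_d42_d0fv1_14 : GoodKC AS k_wS_32_wQ_26_wN_1_rb8033062259_d51_d26_d42_d0fv1_14 := p_wS_32_wQ_26_wN_1_rb8033062259_d51_d26_d42_d0fv1_14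

theorem g__wS_32_wQ_26_wN_1_rb8033062259_d51_d26_d42_d0fv1_13 : GoodKC AS k_wS_32_wQ_26_wN_1_rb8033062259_d51_d26_d42_d0fv1_13 := p_wS_32_wQ_26_wN_1_rb8033062259_d51_d26_d42_d0fv1_13 g__wS_32_wQ_26_wN_1_rb8033062259_d51_d26_d42_d0fv1_14

theorem g__wS_32_wQ_26_wN_1_rb8033062259_d51_d26_d42_d0fv1_12 : GoodKC AS k_wS_32_wQ_26_wN_1_rb8033062259_d51_d26_d42_d0fv1_12 := p_wS_32_wQ_26_wN_1_rb8033062259_d51_d26_d42_d0fv1_12 g__wS_32_wQ_26_wN_1_rb8033062259_d51_d26_d42_d0fv1_13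

theorem g__wS_32_wQ_26_wN_1_rb8033062259_d51_d26_d42_d0fv1_11 : GoodKC AS k_wS_32_wQ_26_wN_1_rb8033062259_d51_d26_d42_d0fv1_11 := p_wS_32_wQ_26_wN_1_rb8033062259_d51_d26_d42_d0fv1_11 g__wS_32_wQ_26_wN_1_rb8033062259_d51_d26_d42_d0fv1_12

theorem g__wS_32_wQ_26_wN_1_rb8033062259_d51_d26_d42_d0fv1_16 : GoodKC AS k_wS_32_wQ_26_wN_1_rb8033062259_d51_d26_d42_d0fv1_16 := p_wS_32_wQ_26_wN_1_rb8033062259_d51_d26_d42_d0fv1_16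

theorem g__wS_32_wQ_26_wN_1_rb8033062259_d51_d26_d42_d0fv1_15 : GoodKC AS k_wS_32_wQ_26_wN_1_rb8033062259_d51_d26_d42_d0fv1_15 := p_wS_32_wQ_26_wN_1_rb8033062259_d51_d26_d42_d0fv1_15 g__wS_32_wQ_26_wN_1_rb8033062259_d51_d26_d42_d0fv1_16

theorem g__wS_32_wQ_26_wN_1_rb8033062259_d51_d26_d42_d0fv1_10 : GoodKC AS k_wS_32_wQ_26_wN_1_rb8033062259_d51_d26_d42_d0fv1_10 := p_wS_32_wQ_26_wN_1_rb8033062259_d51_d26_d42_d0fv1_10 g__wS_32_wQ_26_wN_1_rb8033062259_d51_d26_d42_d0fv1_11 g__wS_32_wQ_26_wN_1_rb8033062259_d51_d26_d42_d0fv1_15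

theorem g__wS_32_wQ_26_wN_1_rb8033062259_d51_d26_d42_d0fv1_18 : GoodKC AS k_wS_32_wQ_26_wN_1_rb8033062259_d51_d26_d42_d0fv1_18 := p_wS_32_wQ_26_wN_1_rb8033062259_d51_d26_d42_d0fv1_18

theorem g__wS_32_wQ_26_wN_1_rb8033062259_d51_d26_d42_d0fv1_22 : GoodKC AS k_wS_32_wQ_26_wN_1_rb8033062259_d51_d26_d42_d0fv1_22 := p_wS_32_wQ_26_wN_1_rb8033062259_d51_d26_d42_d0fv1_22

theorem g__wS_32_wQ_26_wN_1_rb8033062259_d51_d26_d42_d0fv1_24 : GoodKC AS k_wS_32_wQ_26_wN_1_rb8033062259_d51_d26_d42_d0fv1_24 := p_wS_32_wQ_26_wN_1_rb8033062259_d51_d26_d42_d0fv1_24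

theorem g__wS_32_wQ_26_wN_1_rb8033062259_d51_d26_d42_d0fv1_23 : GoodKC AS k_wS_32_wQ_26_wN_1_rb8033062259_d51_d26_d42_d0fv1_23 := p_wS_32_wQ_26_wN_1_rb8033062259_d51_d26_d42_d0fv1_23 g__wS_32_wQ_26_wN_1_rb8033062259_d51_d26_d42_d0fv1_24

theorem g__wS_32_wQ_26_wN_1_rb8033062259_d51_d26_d42_d0fv1_21 : GoodKC AS k_wS_32_wQ_26_wN_1_rb8033062259_d51_d26_d42_d0fv1_21 := p_wS_32_wQ_26_wN_1_rb8033062259_d51_d26_d42_d0fv1_21 g__wS_32_wQ_26_wN_1_rb8033062259_d51_d26_d42_d0fv1_22 g__wS_32_wQ_26_wN_1_rb8033062259_d51_d26_d42_d0fv1_23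

theorem g__wS_32_wQ_26_wN_1_rb8033062259_d51_d26_d42_d0fv1_20 : GoodKC AS k_wS_32_wQ_26_wN_1_rb8033062259_d51_d26_d42_d0fv1_20 := p_wS_32_wQ_26_wN_1_rb8033062259_d51_d26_d42_d0fv1_20 g__wS_32_wQ_26_wN_1_rb8033062259_d51_d26_d42_d0fv1_21

theorem g__wS_32_wQ_26_wN_1_rb8033062259_d51_d26_d42_d0fv1_19 : GoodKC AS k_wS_32_wQ_26_wN_1_rb8033062259_d51_d26_d42_d0fv1_19 := p_wS_32_wQ_26_wN_1_rb8033062259_d51_d26_d42_d0fv1_19 g__wS_32_wQ_26_wN_1_rb8033062259_d51_d26_d42_d0fv1_20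

theorem g__wS_32_wQ_26_wN_1_rb8033062259_d51_d26_d42_d0fv1_17 : GoodKC AS k_wS_32_wQ_26_wN_1_rb8033062259_d51_d26_d42_d0fv1_17 := p_wS_32_wQ_26_wN_1_rb8033062259_d51_d26_d42_d0fv1_17 g__wS_32_wQ_26_wN_1_rb8033062259_d51_d26_d42_d0fv1_18 g__wS_32_wQ_26_wN_1_rb8033062259_d51_d26_d42_d0fv1_19

theorem g__wS_32_wQ_26_wN_1_rb8033062259_d51_d26_d42_d0fv1_9 : GoodKC AS k_wS_32_wQ_26_wN_1_rb8033062259_d51_d26_d42_d0fv1_9 := p_wS_32_wQ_26_wN_1_rb8033062259_d51_d26_d42_d0fv1_9 g__wS_32_wQ_26_wN_1_rb8033062259_d51_d26_d42_d0fv1_10 g__wS_32_wQ_26_wN_1_rb8033062259_d51_d26_d42_d0fv1_17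

theorem g__wS_32_wQ_26_wN_1_rb8033062259_d51_d26_d42_d0fv1_25 : GoodKC AS k_wS_32_wQ_26_wN_1_rb8033062259_d51_d26_d42_d0fv1_25 := p_wS_32_wQ_26_wN_1_rb8033062259_d51_d26_d42_d0fv1_25

theorem g__wS_32_wQ_26_wN_1_rb8033062259_d51_d26_d42_d0fv1_8 : GoodKC AS k_wS_32_wQ_26_wN_1_rb8033062259_d51_d26_d42_d0fv1_8 := p_wS_32_wQ_26_wN_1_rb8033062259_d51_d26_d42_d0fv1_8 g__wS_32_wQ_26_wN_1_rb8033062259_d51_d26_d42_d0fv1_9 g__wS_32_wQ_26_wN_1_rb8033062259_d51_d26_d42_d0fv1_25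

theorem g__wS_32_wQ_26_wN_1_rb8033062259_d51_d26_d42_d0fv1_27 : GoodKC AS k_wS_32_wQ_26_wN_1_rb8033062259_d51_d26_d42_d0fv1_27 := p_wS_32_wQ_26_wN_1_rb8033062259_d51_d26_d42_d0fv1_27

theorem g__wS_32_wQ_26_wN_1_rb8033062259_d51_d26_d42_d0fv1_26 : GoodKC AS k_wS_32_wQ_26_wN_1_rb8033062259_d51_d26_d42_d0fv1_26 := p_wS_32_wQ_26_wN_1_rb8033062259_d51_d26_d42_d0fv1_26 g__wS_32_wQ_26_wN_1_rb8033062259_d51_d26_d42_d0fv1_27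

theorem g__wS_32_wQ_26_wN_1_rb8033062259_d51_d26_d42_d0fv1_1 : GoodKC AS k_wS_32_wQ_26_wN_1_rb8033062259_d51_d26_d42_d0fv1_1 := p_wS_32_wQ_26_wN_1_rb8033062259_d51_d26_d42_d0fv1_1 g__wS_32_wQ_26_wN_1_rb8033062259_d51_d26_d42_d0fv1_2 g__wS_32_wQ_26_wN_1_rb8033062259_d51_d26_d42_d0fv1_8 g__wS_32_wQ_26_wN_1_rb8033062259_d51_d26_d42_d0fv1_26

theorem g_wS_32_wQ_26_wN_1_rb8033062259_d51_d26_d42_d0fv1 : GoodKC AS c_wS_32_wQ_26_wN_1_rb8033062259_d51_d26_d42_d0fv1 := p_wS_32_wQ_26_wN_1_rb8033062259_d51_d26_d42_d0fv1 g__wS_32_wQ_26_wN_1_rb8033062259_d51_d26_d42_d0fv1_0 g__wS_32_wQ_26_wN_1_rb8033062259_d51_d26_d42_d0fv1_1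

theorem g__wS_32_wQ_26_wN_1_rb8033062259_d51_d26v1_0 : GoodKC AS k_wS_32_wQ_26_wN_1_rb8033062259_d51_d26v1_0 := p_wS_32_wQ_26_wN_1_rb8033062259_d51_d26v1_0

theorem g__wS_32_wQ_26_wN_1_rb8033062259_d51_d26v1_3 : GoodKC AS k_wS_32_wQ_26_wN_1_rb8033062259_d51_d26v1_3 := p_wS_32_wQ_26_wN_1_rb8033062259_d51_d26v1_3

theorem g__wS_32_wQ_26_wN_1_rb8033062259_d51_d26v1_2 : GoodKC AS k_wS_32_wQ_26_wN_1_rb8033062259_d51_d26v1_2 := p_wS_32_wQ_26_wN_1_rb8033062259_d51_d26v1_2 g__wS_32_wQ_26_wN_1_rb8033062259_d51_d26v1_3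

theorem g__wS_32_wQ_26_wN_1_rb8033062259_d51_d26v1_1 : GoodKC AS k_wS_32_wQ_26_wN_1_rb8033062259_d51_d26v1_1 := p_wS_32_wQ_26_wN_1_rb8033062259_d51_d26v1_1 g__wS_32_wQ_26_wN_1_rb8033062259_d51_d26v1_2

theorem g__wS_32_wQ_26_wN_1_rb8033062259_d51_d26v1_4 : GoodKC AS k_wS_32_wQ_26_wN_1_rb8033062259_d51_d26v1_4 := p_wS_32_wQ_26_wN_1_rb8033062259_d51_d26v1_4

theorem g__wS_32_wQ_26_wN_1_rb8033062259_d51_d26_d42_d0c_0 : GoodKC AS k_wS_32_wQ_26_wN_1_rb8033062259_d51_d26_d42_d0c_0 := p_wS_32_wQ_26_wN_1_rb8033062259_d51_d26_d42_d0c_0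

theorem g__wS_32_wQ_26_wN_1_rb8033062259_d51_d26_d42_d0c_1 : GoodKC AS k_wS_32_wQ_26_wN_1_rb8033062259_d51_d26_d42_d0c_1 := p_wS_32_wQ_26_wN_1_rb8033062259_d51_d26_d42_d0c_1

theorem g_wS_32_wQ_26_wN_1_rb8033062259_d51_d26_d42_d0cv1 : GoodKC AS c_wS_32_wQ_26_wN_1_rb8033062259_d51_d26_d42_d0cv1 := p_wS_32_wQ_26_wN_1_rb8033062259_d51_d26_d42_d0c g__wS_32_wQ_26_wN_1_rb8033062259_d51_d26_d42_d0c_0 g__wS_32_wQ_26_wN_1_rb8033062259_d51_d26_d42_d0c_1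

theorem g__wS_32_wQ_26_wN_1_rb8033062259_d51_d26_d42_d0b_4 : GoodKC AS k_wS_32_wQ_26_wN_1_rb8033062259_d51_d26_d42_d0b_4 := p_wS_32_wQ_26_wN_1_rb8033062259_d51_d26_d42_d0b_4

theorem g__wS_32_wQ_26_wN_1_rb8033062259_d51_d26_d42_d0b_8 : GoodKC AS k_wS_32_wQ_26_wN_1_rb8033062259_d51_d26_d42_d0b_8 := p_wS_32_wQ_26_wN_1_rb8033062259_d51_d26_d42_d0b_8

theorem g__wS_32_wQ_26_wN_1_rb8033062259_d51_d26_d42_d0b_7 : GoodKC AS k_wS_32_wQ_26_wN_1_rb8033062259_d51_d26_d42_d0b_7 := p_wS_32_wQ_26_wN_1_rb8033062259_d51_d26_d42_d0b_7 g__wS_32_wQ_26_wN_1_rb8033062259_d51_d26_d42_d0b_8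

theorem g__wS_32_wQ_26_wN_1_rb8033062259_d51_d26_d42_d0b_11 : GoodKC AS k_wS_32_wQ_26_wN_1_rb8033062259_d51_d26_d42_d0b_11 := p_wS_32_wQ_26_wN_1_rb8033062259_d51_d26_d42_d0b_11

theorem g__wS_32_wQ_26_wN_1_rb8033062259_d51_d26_d42_d0b_10 : GoodKC AS k_wS_32_wQ_26_wN_1_rb8033062259_d51_d26_d42_d0b_10 := p_wS_32_wQ_26_wN_1_rb8033062259_d51_d26_d42_d0b_10 g__wS_32_wQ_26_wN_1_rb8033062259_d51_d26_d42_d0b_11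

theorem g__wS_32_wQ_26_wN_1_rb8033062259_d51_d26_d42_d0b_18 : GoodKC AS k_wS_32_wQ_26_wN_1_rb8033062259_d51_d26_d42_d0b_18 := p_wS_32_wQ_26_wN_1_rb8033062259_d51_d26_d42_d0b_18

theorem g__wS_32_wQ_26_wN_1_rb8033062259_d51_d26_d42_d0b_17 : GoodKC AS k_wS_32_wQ_26_wN_1_rb8033062259_d51_d26_d42_d0b_17 := p_wS_32_wQ_26_wN_1_rb8033062259_d51_d26_d42_d0b_17 g__wS_32_wQ_26_wN_1_rb8033062259_d51_d26_d42_d0b_18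

theorem g__wS_32_wQ_26_wN_1_rb8033062259_d51_d26_d42_d0b_16 : GoodKC AS k_wS_32_wQ_26_wN_1_rb8033062259_d51_d26_d42_d0b_16 := p_wS_32_wQ_26_wN_1_rb8033062259_d51_d26_d42_d0b_16 g__wS_32_wQ_26_wN_1_rb8033062259_d51_d26_d42_d0b_17

theorem g__wS_32_wQ_26_wN_1_rb8033062259_d51_d26_d42_d0b_15 : GoodKC AS k_wS_32_wQ_26_wN_1_rb8033062259_d51_d26_d42_d0b_15 := p_wS_32_wQ_26_wN_1_rb8033062259_d51_d26_d42_d0b_15 g__wS_32_wQ_26_wN_1_rb8033062259_d51_d26_d42_d0b_16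

theorem g__wS_32_wQ_26_wN_1_rb8033062259_d51_d26_d42_d0b_14 : GoodKC AS k_wS_32_wQ_26_wN_1_rb8033062259_d51_d26_d42_d0b_14 := p_wS_32_wQ_26_wN_1_rb8033062259_d51_d26_d42_d0b_14 g__wS_32_wQ_26_wN_1_rb8033062259_d51_d26_d42_d0b_15

theorem g__wS_32_wQ_26_wN_1_rb8033062259_d51_d26_d42_d0b_13 : GoodKC AS k_wS_32_wQ_26_wN_1_rb8033062259_d51_d26_d42_d0b_13 := p_wS_32_wQ_26_wN_1_rb8033062259_d51_d26_d42_d0b_13 g__wS_32_wQ_26_wN_1_rb8033062259_d51_d26_d42_d0b_14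

theorem g__wS_32_wQ_26_wN_1_rb8033062259_d51_d26_d42_d0b_12 : GoodKC AS k_wS_32_wQ_26_wN_1_rb8033062259_d51_d26_d42_d0b_12 := p_wS_32_wQ_26_wN_1_rb8033062259_d51_d26_d42_d0b_12 g__wS_32_wQ_26_wN_1_rb8033062259_d51_d26_d42_d0b_13

theorem g__wS_32_wQ_26_wN_1_rb8033062259_d51_d26_d42_d0b_19 : GoodKC AS k_wS_32_wQ_26_wN_1_rb8033062259_d51_d26_d42_d0b_19 := p_wS_32_wQ_26_wN_1_rb8033062259_d51_d26_d42_d0b_19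

theorem g__wS_32_wQ_26_wN_1_rb8033062259_d51_d26_d42_d0b_9 : GoodKC AS k_wS_32_wQ_26_wN_1_rb8033062259_d51_d26_d42_d0b_9 := p_wS_32_wQ_26_wN_1_rb8033062259_d51_d26_d42_d0b_9 g__wS_32_wQ_26_wN_1_rb8033062259_d51_d26_d42_d0b_10 g__wS_32_wQ_26_wN_1_rb8033062259_d51_d26_d42_d0b_12 g__wS_32_wQ_26_wN_1_rb8033062259_d51_d26_d42_d0b_19

theorem g__wS_32_wQ_26_wN_1_rb8033062259_d51_d26_d42_d0b_6 : GoodKC AS k_wS_32_wQ_26_wN_1_rb8033062259_d51_d26_d42_d0b_6 := p_wS_32_wQ_26_wN_1_rb8033062259_d51_d26_d42_d0b_6 g__wS_32_wQ_26_wN_1_rb8033062259_d51_d26_d42_d0b_7 g__wS_32_wQ_26_wN_1_rb8033062259_d51_d26_d42_d0b_9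

theorem g__wS_32_wQ_26_wN_1_rb8033062259_d51_d26_d42_d0b_5 : GoodKC AS k_wS_32_wQ_26_wN_1_rb8033062259_d51_d26_d42_d0b_5 := p_wS_32_wQ_26_wN_1_rb8033062259_d51_d26_d42_d0b_5 g__wS_32_wQ_26_wN_1_rb8033062259_d51_d26_d42_d0b_6

theorem g__wS_32_wQ_26_wN_1_rb8033062259_d51_d26_d42_d0b_3 : GoodKC AS k_wS_32_wQ_26_wN_1_rb8033062259_d51_d26_d42_d0b_3 := p_wS_32_wQ_26_wN_1_rb8033062259_d51_d26_d42_d0b_3 g__wS_32_wQ_26_wN_1_rb8033062259_d51_d26_d42_d0b_4 g__wS_32_wQ_26_wN_1_rb8033062259_d51_d26_d42_d0b_5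

theorem g__wS_32_wQ_26_wN_1_rb8033062259_d51_d26_d42_d0b_2 : GoodKC AS k_wS_32_wQ_26_wN_1_rb8033062259_d51_d26_d42_d0b_2 := p_wS_32_wQ_26_wN_1_rb8033062259_d51_d26_d42_d0b_2 g__wS_32_wQ_26_wN_1_rb8033062259_d51_d26_d42_d0b_3

theorem g__wS_32_wQ_26_wN_1_rb8033062259_d51_d26_d42_d0b_20 : GoodKC AS k_wS_32_wQ_26_wN_1_rb8033062259_d51_d26_d42_d0b_20 := p_wS_32_wQ_26_wN_1_rb8033062259_d51_d26_d42_d0b_20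

theorem g__wS_32_wQ_26_wN_1_rb8033062259_d51_d26_d42_d0b_21 : GoodKC AS k_wS_32_wQ_26_wN_1_rb8033062259_d51_d26_d42_d0b_21 := p_wS_32_wQ_26_wN_1_rb8033062259_d51_d26_d42_d0b_21

theorem g__wS_32_wQ_26_wN_1_rb8033062259_d51_d26_d42_d0b_1 : GoodKC AS k_wS_32_wQ_26_wN_1_rb8033062259_d51_d26_d42_d0b_1 := p_wS_32_wQ_26_wN_1_rb8033062259_d51_d26_d42_d0b_1 g__wS_32_wQ_26_wN_1_rb8033062259_d51_d26_d42_d0b_2 g__wS_32_wQ_26_wN_1_rb8033062259_d51_d26_d42_d0b_20 g__wS_32_wQ_26_wN_1_rb8033062259_d51_d26_d42_d0b_21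

theorem g__wS_32_wQ_26_wN_1_rb8033062259_d51_d26_d42_d0b_22 : GoodKC AS k_wS_32_wQ_26_wN_1_rb8033062259_d51_d26_d42_d0b_22 := p_wS_32_wQ_26_wN_1_rb8033062259_d51_d26_d42_d0b_22

theorem g__wS_32_wQ_26_wN_1_rb8033062259_d51_d26_d42_d0b_24 : GoodKC AS k_wS_32_wQ_26_wN_1_rb8033062259_d51_d26_d42_d0b_24 := p_wS_32_wQ_26_wN_1_rb8033062259_d51_d26_d42_d0b_24

theorem g__wS_32_wQ_26_wN_1_rb8033062259_d51_d26_d42_d0b_23 : GoodKC AS k_wS_32_wQ_26_wN_1_rb8033062259_d51_d26_d42_d0b_23 := p_wS_32_wQ_26_wN_1_rb8033062259_d51_d26_d42_d0b_23 g__wS_32_wQ_26_wN_1_rb8033062259_d51_d26_d42_d0b_24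

theorem g__wS_32_wQ_26_wN_1_rb8033062259_d51_d26_d42_d0b_0 : GoodKC AS k_wS_32_wQ_26_wN_1_rb8033062259_d51_d26_d42_d0b_0 := p_wS_32_wQ_26_wN_1_rb8033062259_d51_d26_d42_d0b_0 g__wS_32_wQ_26_wN_1_rb8033062259_d51_d26_d42_d0b_1 g__wS_32_wQ_26_wN_1_rb8033062259_d51_d26_d42_d0b_22 g__wS_32_wQ_26_wN_1_rb8033062259_d51_d26_d42_d0b_23

theorem g_wS_32_wQ_26_wN_1_rb8033062259_d51_d26_d42_d0bv1 : GoodKC AS c_wS_32_wQ_26_wN_1_rb8033062259_d51_d26_d42_d0bv1 := p_wS_32_wQ_26_wN_1_rb8033062259_d51_d26_d42_d0b g__wS_32_wQ_26_wN_1_rb8033062259_d51_d26_d42_d0b_0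

theorem g_wS_32_wQ_26_wN_1_rb8033062259_d51_d26_d42_d0av1 : GoodKC AS c_wS_32_wQ_26_wN_1_rb8033062259_d51_d26_d42_d0av1 := p_wS_32_wQ_26_wN_1_rb8033062259_d51_d26_d42_d0a

theorem g__wS_32_wQ_26_wN_1_rb8033062259_d51_d26v1_10 : GoodKC AS k_wS_32_wQ_26_wN_1_rb8033062259_d51_d26v1_10 := p_wS_32_wQ_26_wN_1_rb8033062259_d51_d26v1_10

theorem g__wS_32_wQ_26_wN_1_rb8033062259_d51_d26v1_9 : GoodKC AS k_wS_32_wQ_26_wN_1_rb8033062259_d51_d26v1_9 := p_wS_32_wQ_26_wN_1_rb8033062259_d51_d26v1_9 g__wS_32_wQ_26_wN_1_rb8033062259_d51_d26v1_10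

theorem g__wS_32_wQ_26_wN_1_rb8033062259_d51_d26v1_8 : GoodKC AS k_wS_32_wQ_26_wN_1_rb8033062259_d51_d26v1_8 := p_wS_32_wQ_26_wN_1_rb8033062259_d51_d26v1_8 g__wS_32_wQ_26_wN_1_rb8033062259_d51_d26v1_9

theorem g__wS_32_wQ_26_wN_1_rb8033062259_d51_d26v1_15 : GoodKC AS k_wS_32_wQ_26_wN_1_rb8033062259_d51_d26v1_15 := p_wS_32_wQ_26_wN_1_rb8033062259_d51_d26v1_15

theorem g__wS_32_wQ_26_wN_1_rb8033062259_d51_d26v1_18 : GoodKC AS k_wS_32_wQ_26_wN_1_rb8033062259_d51_d26v1_18 := p_wS_32_wQ_26_wN_1_rb8033062259_d51_d26v1_18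

theorem g__wS_32_wQ_26_wN_1_rb8033062259_d51_d26v1_17 : GoodKC AS k_wS_32_wQ_26_wN_1_rb8033062259_d51_d26v1_17 := p_wS_32_wQ_26_wN_1_rb8033062259_d51_d26v1_17 g__wS_32_wQ_26_wN_1_rb8033062259_d51_d26v1_18

theorem g__wS_32_wQ_26_wN_1_rb8033062259_d51_d26v1_16 : GoodKC AS k_wS_32_wQ_26_wN_1_rb8033062259_d51_d26v1_16 := p_wS_32_wQ_26_wN_1_rb8033062259_d51_d26v1_16 g__wS_32_wQ_26_wN_1_rb8033062259_d51_d26v1_17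

theorem g__wS_32_wQ_26_wN_1_rb8033062259_d51_d26v1_14 : GoodKC AS k_wS_32_wQ_26_wN_1_rb8033062259_d51_d26v1_14 := p_wS_32_wQ_26_wN_1_rb8033062259_d51_d26v1_14 g__wS_32_wQ_26_wN_1_rb8033062259_d51_d26v1_15 g__wS_32_wQ_26_wN_1_rb8033062259_d51_d26v1_16

theorem g__wS_32_wQ_26_wN_1_rb8033062259_d51_d26v1_13 : GoodKC AS k_wS_32_wQ_26_wN_1_rb8033062259_d51_d26v1_13 := p_wS_32_wQ_26_wN_1_rb8033062259_d51_d26v1_13 g__wS_32_wQ_26_wN_1_rb8033062259_d51_d26v1_14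

theorem g__wS_32_wQ_26_wN_1_rb8033062259_d51_d26v1_12 : GoodKC AS k_wS_32_wQ_26_wN_1_rb8033062259_d51_d26v1_12 := p_wS_32_wQ_26_wN_1_rb8033062259_d51_d26v1_12 g__wS_32_wQ_26_wN_1_rb8033062259_d51_d26v1_13

theorem g__wS_32_wQ_26_wN_1_rb8033062259_d51_d26v1_11 : GoodKC AS k_wS_32_wQ_26_wN_1_rb8033062259_d51_d26v1_11 := p_wS_32_wQ_26_wN_1_rb8033062259_d51_d26v1_11 g__wS_32_wQ_26_wN_1_rb8033062259_d51_d26v1_12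

theorem g__wS_32_wQ_26_wN_1_rb8033062259_d51_d26v1_19 : GoodKC AS k_wS_32_wQ_26_wN_1_rb8033062259_d51_d26v1_19 := p_wS_32_wQ_26_wN_1_rb8033062259_d51_d26v1_19

theorem g__wS_32_wQ_26_wN_1_rb8033062259_d51_d26v1_22 : GoodKC AS k_wS_32_wQ_26_wN_1_rb8033062259_d51_d26v1_22 := p_wS_32_wQ_26_wN_1_rb8033062259_d51_d26v1_22

theorem g__wS_32_wQ_26_wN_1_rb8033062259_d51_d26v1_21 : GoodKC AS k_wS_32_wQ_26_wN_1_rb8033062259_d51_d26v1_21 := p_wS_32_wQ_26_wN_1_rb8033062259_d51_d26v1_21 g__wS_32_wQ_26_wN_1_rb8033062259_d51_d26v1_22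

theorem g__wS_32_wQ_26_wN_1_rb8033062259_d51_d26v1_20 : GoodKC AS k_wS_32_wQ_26_wN_1_rb8033062259_d51_d26v1_20 := p_wS_32_wQ_26_wN_1_rb8033062259_d51_d26v1_20 g__wS_32_wQ_26_wN_1_rb8033062259_d51_d26v1_21

theorem g__wS_32_wQ_26_wN_1_rb8033062259_d51_d26v1_7 : GoodKC AS k_wS_32_wQ_26_wN_1_rb8033062259_d51_d26v1_7 := p_wS_32_wQ_26_wN_1_rb8033062259_d51_d26v1_7 g__wS_32_wQ_26_wN_1_rb8033062259_d51_d26v1_8 g__wS_32_wQ_26_wN_1_rb8033062259_d51_d26v1_11 g__wS_32_wQ_26_wN_1_rb8033062259_d51_d26v1_19 g__wS_32_wQ_26_wN_1_rb8033062259_d51_d26v1_20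

theorem g__wS_32_wQ_26_wN_1_rb8033062259_d51_d26v1_6 : GoodKC AS k_wS_32_wQ_26_wN_1_rb8033062259_d51_d26v1_6 := p_wS_32_wQ_26_wN_1_rb8033062259_d51_d26v1_6 g__wS_32_wQ_26_wN_1_rb8033062259_d51_d26v1_7

theorem g_wS_32_wQ_26_wN_1_rb8033062259_d51_d26_d42_d09v1 : GoodKC AS c_wS_32_wQ_26_wN_1_rb8033062259_d51_d26_d42_d09v1 := p_wS_32_wQ_26_wN_1_rb8033062259_d51_d26_d42_d09

theorem g_wS_32_wQ_26_wN_1_rb8033062259_d51_d26_d42_d08v1 : GoodKC AS c_wS_32_wQ_26_wN_1_rb8033062259_d51_d26_d42_d08v1 := p_wS_32_wQ_26_wN_1_rb8033062259_d51_d26_d42_d08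

theorem g_wS_32_wQ_26_wN_1_rb8033062259_d51_d26_d42_d07v1 : GoodKC AS c_wS_32_wQ_26_wN_1_rb8033062259_d51_d26_d42_d07v1 := p_wS_32_wQ_26_wN_1_rb8033062259_d51_d26_d42_d07

theorem g_wS_32_wQ_26_wN_1_rb8033062259_d51_d26_d42_d06v1 : GoodKC AS c_wS_32_wQ_26_wN_1_rb8033062259_d51_d26_d42_d06v1 := p_wS_32_wQ_26_wN_1_rb8033062259_d51_d26_d42_d06

theorem g_wS_32_wQ_26_wN_1_rb8033062259_d51_d26_d42_d05v1 : GoodKC AS c_wS_32_wQ_26_wN_1_rb8033062259_d51_d26_d42_d05v1 := p_wS_32_wQ_26_wN_1_rb8033062259_d51_d26_d42_d05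

theorem g_wS_32_wQ_26_wN_1_rb8033062259_d51_d26_d42_d04v1 : GoodKC AS c_wS_32_wQ_26_wN_1_rb8033062259_d51_d26_d42_d04v1 := p_wS_32_wQ_26_wN_1_rb8033062259_d51_d26_d42_d04

theorem g_wS_32_wQ_26_wN_1_rb8033062259_d51_d26_d42_d01v1 : GoodKC AS c_wS_32_wQ_26_wN_1_rb8033062259_d51_d26_d42_d01v1 := p_wS_32_wQ_26_wN_1_rb8033062259_d51_d26_d42_d01

theorem g_wS_32_wQ_26_wN_1_rb8033062259_d51_d26_d42_d00v1 : GoodKC AS c_wS_32_wQ_26_wN_1_rb8033062259_d51_d26_d42_d00v1 := p_wS_32_wQ_26_wN_1_rb8033062259_d51_d26_d42_d00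

theorem g_wS_32_wQ_26_wN_1_rb8033062259_d51_d26_d42_d02v1 : GoodKC AS c_wS_32_wQ_26_wN_1_rb8033062259_d51_d26_d42_d02v1 := p_wS_32_wQ_26_wN_1_rb8033062259_d51_d26_d42_d02

theorem g_wS_32_wQ_26_wN_1_rb8033062259_d51_d26_d42_d03v1 : GoodKC AS c_wS_32_wQ_26_wN_1_rb8033062259_d51_d26_d42_d03v1 := p_wS_32_wQ_26_wN_1_rb8033062259_d51_d26_d42_d03

theorem g__wS_32_wQ_26_wN_1_rb8033062259_d51_d26v1_5 : GoodKC AS k_wS_32_wQ_26_wN_1_rb8033062259_d51_d26v1_5 := p_wS_32_wQ_26_wN_1_rb8033062259_d51_d26v1_5 g_wS_32_wQ_26_wN_1_rb8033062259_d51_d26_d42_d0cv1 g_wS_32_wQ_26_wN_1_rb8033062259_d51_d26_d42_d0bv1 g_wS_32_wQ_26_wN_1_rb8033062259_d51_d26_d42_d0av1 g__wS_32_wQ_26_wN_1_rb8033062259_d51_d26v1_6 g_wS_32_wQ_26_wN_1_rb8033062259_d51_d26_d42_d09v1 g_wS_32_wQ_26_wN_1_rb8033062259_d51_d26_d42_d08v1 g_wS_32_wQ_26_wN_1_rb8033062259_d51_d26_d42_d07v1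 g_wS_32_wQ_26_wN_1_rb8033062259_d51_d26_d42_d06v1 g_wS_32_wQ_26_wN_1_rb8033062259_d51_d26_d42_d05v1 g_wS_32_wQ_26_wN_1_rb8033062259_d51_d26_d42_d04v1 g_wS_32_wQ_26_wN_1_rb8033062259_d51_d26_d42_d01v1 g_wS_32_wQ_26_wN_1_rb8033062259_d51_d26_d42_d00v1 g_wS_32_wQ_26_wN_1_rb8033062259_d51_d26_d42_d02v1 g_wS_32_wQ_26_wN_1_rb8033062259_d51_d26_d42_d03v1

theorem g__wS_32_wQ_26_wN_1_rb8033062259_d51_d26_d42_d0d_2 : GoodKC AS k_wS_32_wQ_26_wN_1_rb8033062259_d51_d26_d42_d0d_2 := p_wS_32_wQ_26_wN_1_rb8033062259_d51_d26_d42_d0d_2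

theorem g__wS_32_wQ_26_wN_1_rb8033062259_d51_d26_d42_d0d_1 : GoodKC AS k_wS_32_wQ_26_wN_1_rb8033062259_d51_d26_d42_d0d_1 := p_wS_32_wQ_26_wN_1_rb8033062259_d51_d26_d42_d0d_1 g__wS_32_wQ_26_wN_1_rb8033062259_d51_d26_d42_d0d_2

theorem g__wS_32_wQ_26_wN_1_rb8033062259_d51_d26_d42_d0d_0 : GoodKC AS k_wS_32_wQ_26_wN_1_rb8033062259_d51_d26_d42_d0d_0 := p_wS_32_wQ_26_wN_1_rb8033062259_d51_d26_d42_d0d_0 g__wS_32_wQ_26_wN_1_rb8033062259_d51_d26_d42_d0d_1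

theorem g_wS_32_wQ_26_wN_1_rb8033062259_d51_d26_d42_d0dv1 : GoodKC AS c_wS_32_wQ_26_wN_1_rb8033062259_d51_d26_d42_d0dv1 := p_wS_32_wQ_26_wN_1_rb8033062259_d51_d26_d42_d0d g__wS_32_wQ_26_wN_1_rb8033062259_d51_d26_d42_d0d_0

theorem g__wS_32_wQ_26_wN_1_rb8033062259_d51_d26_d42_d0e_d51_d1b_0 : GoodKC AS k_wS_32_wQ_26_wN_1_rb8033062259_d51_d26_d42_d0e_d51_d1b_0 := p_wS_32_wQ_26_wN_1_rb8033062259_d51_d26_d42_d0e_d51_d1b_0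

theorem g_wS_32_wQ_26_wN_1_rb8033062259_d51_d26_d42_d0e_d51_d1b : GoodKC AS c_wS_32_wQ_26_wN_1_rb8033062259_d51_d26_d42_d0e_d51_d1b := p_wS_32_wQ_26_wN_1_rb8033062259_d51_d26_d42_d0e_d51_d1b g__wS_32_wQ_26_wN_1_rb8033062259_d51_d26_d42_d0e_d51_d1b_0

theorem g_wS_32_wQ_26_wN_1_rb8033062259_d51_d26_d42_d0e_d51_d19 : GoodKC AS c_wS_32_wQ_26_wN_1_rb8033062259_d51_d26_d42_d0e_d51_d19 := p_wS_32_wQ_26_wN_1_rb8033062259_d51_d26_d42_d0e_d51_d19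

theorem g_wS_32_wQ_26_wN_1_rb8033062259_d51_d26_d42_d0e_d51_d17 : GoodKC AS c_wS_32_wQ_26_wN_1_rb8033062259_d51_d26_d42_d0e_d51_d17 := p_wS_32_wQ_26_wN_1_rb8033062259_d51_d26_d42_d0e_d51_d17

theorem g_wS_32_wQ_26_wN_1_rb8033062259_d51_d26_d42_d0e_d51_d16 : GoodKC AS c_wS_32_wQ_26_wN_1_rb8033062259_d51_d26_d42_d0e_d51_d16 := p_wS_32_wQ_26_wN_1_rb8033062259_d51_d26_d42_d0e_d51_d16

theorem g_wS_32_wQ_26_wN_1_rb8033062259_d51_d26_d42_d0e_d51_d14 : GoodKC AS c_wS_32_wQ_26_wN_1_rb8033062259_d51_d26_d42_d0e_d51_d14 := p_wS_32_wQ_26_wN_1_rb8033062259_d51_d26_d42_d0e_d51_d14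

theorem g_wS_32_wQ_26_wN_1_rb8033062259_d51_d26_d42_d0e_d51_d13 : GoodKC AS c_wS_32_wQ_26_wN_1_rb8033062259_d51_d26_d42_d0e_d51_d13 := p_wS_32_wQ_26_wN_1_rb8033062259_d51_d26_d42_d0e_d51_d13

theorem g_wS_32_wQ_26_wN_1_rb8033062259_d51_d26_d42_d0e_d51_d11 : GoodKC AS c_wS_32_wQ_26_wN_1_rb8033062259_d51_d26_d42_d0e_d51_d11 := p_wS_32_wQ_26_wN_1_rb8033062259_d51_d26_d42_d0e_d51_d11

theorem g_wS_32_wQ_26_wN_1_rb8033062259_d51_d26_d42_d0e_d51_d0f : GoodKC AS c_wS_32_wQ_26_wN_1_rb8033062259_d51_d26_d42_d0e_d51_d0f := p_wS_32_wQ_26_wN_1_rb8033062259_d51_d26_d42_d0e_d51_d0f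

theorem g_wS_32_wQ_26_wN_1_rb8033062259_d51_d26_d42_d0e_d51_d0d : GoodKC AS c_wS_32_wQ_26_wN_1_rb8033062259_d51_d26_d42_d0e_d51_d0d := p_wS_32_wQ_26_wN_1_rb8033062259_d51_d26_d42_d0e_d51_d0d

theorem g_wS_32_wQ_26_wN_1_rb8033062259_d51_d26_d42_d0e_d51_d0b : GoodKC AS c_wS_32_wQ_26_wN_1_rb8033062259_d51_d26_d42_d0e_d51_d0b := p_wS_32_wQ_26_wN_1_rb8033062259_d51_d26_d42_d0e_d51_d0b

theorem g_wS_32_wQ_26_wN_1_rb8033062259_d51_d26_d42_d0e_d51_d0a : GoodKC AS c_wS_32_wQ_26_wN_1_rb8033062259_d51_d26_d42_d0e_d51_d0a := p_wS_32_wQ_26_wN_1_rb8033062259_d51_d26_d42_d0e_d51_d0a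

theorem g_wS_32_wQ_26_wN_1_rb8033062259_d51_d26_d42_d0e_d51_d09 : GoodKC AS c_wS_32_wQ_26_wN_1_rb8033062259_d51_d26_d42_d0e_d51_d09 := p_wS_32_wQ_26_wN_1_rb8033062259_d51_d26_d42_d0e_d51_d09

theorem g_wS_32_wQ_26_wN_1_rb8033062259_d51_d26_d42_d0e_d51_d08 : GoodKC AS c_wS_32_wQ_26_wN_1_rb8033062259_d51_d26_d42_d0e_d51_d08 := p_wS_32_wQ_26_wN_1_rb8033062259_d51_d26_d42_d0e_d51_d08

theorem g_wS_32_wQ_26_wN_1_rb8033062259_d51_d26_d42_d0e_d51_d07 : GoodKC AS c_wS_32_wQ_26_wN_1_rb8033062259_d51_d26_d42_d0e_d51_d07 := p_wS_32_wQ_26_wN_1_rb8033062259_d51_d26_d42_d0e_d51_d07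

theorem g_wS_32_wQ_26_wN_1_rb8033062259_d51_d26_d42_d0e_d51_d05 : GoodKC AS c_wS_32_wQ_26_wN_1_rb8033062259_d51_d26_d42_d0e_d51_d05 := p_wS_32_wQ_26_wN_1_rb8033062259_d51_d26_d42_d0e_d51_d05

theorem g_wS_32_wQ_26_wN_1_rb8033062259_d51_d26_d42_d0e_d51_d04 : GoodKC AS c_wS_32_wQ_26_wN_1_rb8033062259_d51_d26_d42_d0e_d51_d04 := p_wS_32_wQ_26_wN_1_rb8033062259_d51_d26_d42_d0e_d51_d04

theorem g_wS_32_wQ_26_wN_1_rb8033062259_d51_d26_d42_d0e_d51_d03 : GoodKC AS c_wS_32_wQ_26_wN_1_rb8033062259_d51_d26_d42_d0e_d51_d03 := p_wS_32_wQ_26_wN_1_rb8033062259_d51_d26_d42_d0e_d51_d03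

theorem g_wS_32_wQ_26_wN_1_rb8033062259_d51_d26_d42_d0e_d51_d02 : GoodKC AS c_wS_32_wQ_26_wN_1_rb8033062259_d51_d26_d42_d0e_d51_d02 := p_wS_32_wQ_26_wN_1_rb8033062259_d51_d26_d42_d0e_d51_d02

theorem g_wS_32_wQ_26_wN_1_rb8033062259_d51_d26_d42_d0e_d51_d00 : GoodKC AS c_wS_32_wQ_26_wN_1_rb8033062259_d51_d26_d42_d0e_d51_d00 := p_wS_32_wQ_26_wN_1_rb8033062259_d51_d26_d42_d0e_d51_d00

theorem g_wS_32_wQ_26_wN_1_rb8033062259_d51_d26_d42_d0e_d51_d01 : GoodKC AS c_wS_32_wQ_26_wN_1_rb8033062259_d51_d26_d42_d0e_d51_d01 := p_wS_32_wQ_26_wN_1_rb8033062259_d51_d26_d42_d0e_d51_d01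

theorem g__wS_32_wQ_26_wN_1_rb8033062259_d51_d26_d42_d0e_0 : GoodKC AS k_wS_32_wQ_26_wN_1_rb8033062259_d51_d26_d42_d0e_0 := p_wS_32_wQ_26_wN_1_rb8033062259_d51_d26_d42_d0e_0

theorem g_wS_32_wQ_26_wN_1_rb8033062259_d51_d26_d42_d0e_d51_d06 : GoodKC AS c_wS_32_wQ_26_wN_1_rb8033062259_d51_d26_d42_d0e_d51_d06 := p_wS_32_wQ_26_wN_1_rb8033062259_d51_d26_d42_d0e_d51_d06

theorem g__wS_32_wQ_26_wN_1_rb8033062259_d51_d26_d42_d0e_d51_d0c_2 : GoodKC AS k_wS_32_wQ_26_wN_1_rb8033062259_d51_d26_d42_d0e_d51_d0c_2 := p_wS_32_wQ_26_wN_1_rb8033062259_d51_d26_d42_d0e_d51_d0c_2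

theorem g__wS_32_wQ_26_wN_1_rb8033062259_d51_d26_d42_d0e_d51_d0c_1 : GoodKC AS k_wS_32_wQ_26_wN_1_rb8033062259_d51_d26_d42_d0e_d51_d0c_1 := p_wS_32_wQ_26_wN_1_rb8033062259_d51_d26_d42_d0e_d51_d0c_1 g__wS_32_wQ_26_wN_1_rb8033062259_d51_d26_d42_d0e_d51_d0c_2

theorem g__wS_32_wQ_26_wN_1_rb8033062259_d51_d26_d42_d0e_d51_d0c_0 : GoodKC AS k_wS_32_wQ_26_wN_1_rb8033062259_d51_d26_d42_d0e_d51_d0c_0 := p_wS_32_wQ_26_wN_1_rb8033062259_d51_d26_d42_d0e_d51_d0c_0 g__wS_32_wQ_26_wN_1_rb8033062259_d51_d26_d42_d0e_d51_d0c_1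

theorem g_wS_32_wQ_26_wN_1_rb8033062259_d51_d26_d42_d0e_d51_d0c : GoodKC AS c_wS_32_wQ_26_wN_1_rb8033062259_d51_d26_d42_d0e_d51_d0c := p_wS_32_wQ_26_wN_1_rb8033062259_d51_d26_d42_d0e_d51_d0c g__wS_32_wQ_26_wN_1_rb8033062259_d51_d26_d42_d0e_d51_d0c_0

theorem g_wS_32_wQ_26_wN_1_rb8033062259_d51_d26_d42_d0e_d51_d0e : GoodKC AS c_wS_32_wQ_26_wN_1_rb8033062259_d51_d26_d42_d0e_d51_d0e := p_wS_32_wQ_26_wN_1_rb8033062259_d51_d26_d42_d0e_d51_d0e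

theorem g__wS_32_wQ_26_wN_1_rb8033062259_d51_d26_d42_d0e_d51_d10_0 : GoodKC AS k_wS_32_wQ_26_wN_1_rb8033062259_d51_d26_d42_d0e_d51_d10_0 := p_wS_32_wQ_26_wN_1_rb8033062259_d51_d26_d42_d0e_d51_d10_0

theorem g_wS_32_wQ_26_wN_1_rb8033062259_d51_d26_d42_d0e_d51_d10 : GoodKC AS c_wS_32_wQ_26_wN_1_rb8033062259_d51_d26_d42_d0e_d51_d10 := p_wS_32_wQ_26_wN_1_rb8033062259_d51_d26_d42_d0e_d51_d10 g__wS_32_wQ_26_wN_1_rb8033062259_d51_d26_d42_d0e_d51_d10_0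

theorem g_wS_32_wQ_26_wN_1_rb8033062259_d51_d26_d42_d0e_d51_d12 : GoodKC AS c_wS_32_wQ_26_wN_1_rb8033062259_d51_d26_d42_d0e_d51_d12 := p_wS_32_wQ_26_wN_1_rb8033062259_d51_d26_d42_d0e_d51_d12

theorem g__wS_32_wQ_26_wN_1_rb8033062259_d51_d26_d42_d0e_d51_d15_0 : GoodKC AS k_wS_32_wQ_26_wN_1_rb8033062259_d51_d26_d42_d0e_d51_d15_0 := p_wS_32_wQ_26_wN_1_rb8033062259_d51_d26_d42_d0e_d51_d15_0

theorem g__wS_32_wQ_26_wN_1_rb8033062259_d51_d26_d42_d0e_d51_d15_1 : GoodKC AS k_wS_32_wQ_26_wN_1_rb8033062259_d51_d26_d42_d0e_d51_d15_1 := p_wS_32_wQ_26_wN_1_rb8033062259_d51_d26_d42_d0e_d51_d15_1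

theorem g__wS_32_wQ_26_wN_1_rb8033062259_d51_d26_d42_d0e_d51_d15_2 : GoodKC AS k_wS_32_wQ_26_wN_1_rb8033062259_d51_d26_d42_d0e_d51_d15_2 := p_wS_32_wQ_26_wN_1_rb8033062259_d51_d26_d42_d0e_d51_d15_2

theorem g_wS_32_wQ_26_wN_1_rb8033062259_d51_d26_d42_d0e_d51_d15 : GoodKC AS c_wS_32_wQ_26_wN_1_rb8033062259_d51_d26_d42_d0e_d51_d15 := p_wS_32_wQ_26_wN_1_rb8033062259_d51_d26_d42_d0e_d51_d15 g__wS_32_wQ_26_wN_1_rb8033062259_d51_d26_d42_d0e_d51_d15_0 g__wS_32_wQ_26_wN_1_rb8033062259_d51_d26_d42_d0e_d51_d15_1 g__wS_32_wQ_26_wN_1_rb8033062259_d51_d26_d42_d0e_d51_d15_2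

theorem g_wS_32_wQ_26_wN_1_rb8033062259_d51_d26_d42_d0e_d51_d18 : GoodKC AS c_wS_32_wQ_26_wN_1_rb8033062259_d51_d26_d42_d0e_d51_d18 := p_wS_32_wQ_26_wN_1_rb8033062259_d51_d26_d42_d0e_d51_d18

theorem g_wS_32_wQ_26_wN_1_rb8033062259_d51_d26_d42_d0e_d51_d1a : GoodKC AS c_wS_32_wQ_26_wN_1_rb8033062259_d51_d26_d42_d0e_d51_d1a := p_wS_32_wQ_26_wN_1_rb8033062259_d51_d26_d42_d0e_d51_d1a

theorem g_wS_32_wQ_26_wN_1_rb8033062259_d51_d26_d42_d0ev1 : GoodKC AS c_wS_32_wQ_26_wN_1_rb8033062259_d51_d26_d42_d0ev1 := p_wS_32_wQ_26_wN_1_rb8033062259_d51_d26_d42_d0e g_wS_32_wQ_26_wN_1_rb8033062259_d51_d26_d42_d0e_d51_d1b g_wS_32_wQ_26_wN_1_rb8033062259_d51_d26_d42_d0e_d51_d19 g_wS_32_wQ_26_wN_1_rb8033062259_d51_d26_d42_d0e_d51_d17 g_wS_32_wQ_26_wN_1_rb8033062259_d51_d26_d42_d0e_d51_d16 g_wS_32_wQ_26_wN_1_rb8033062259_d51_d26_d42_d0e_d51_d14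 g_wS_32_wQ_26_wN_1_rb8033062259_d51_d26_d42_d0e_d51_d13 g_wS_32_wQ_26_wN_1_rb8033062259_d51_d26_d42_d0e_d51_d11 g_wS_32_wQ_26_wN_1_rb8033062259_d51_d26_d42_d0e_d51_d0f g_wS_32_wQ_26_wN_1_rb8033062259_d51_d26_d42_d0e_d51_d0d g_wS_32_wQ_26_wN_1_rb8033062259_d51_d26_d42_d0e_d51_d0b g_wS_32_wQ_26_wN_1_rb8033062259_d51_d26_d42_d0e_d51_d0a g_wS_32_wQ_26_wN_1_rb8033062259_d51_d26_d42_d0e_d51_d09 g_wS_32_wQ_26_wN_1_rb8033062259_d51_d26_d42_d0e_d51_d08 g_wS_32_wQ_26_wN_1_rb8033062259_d51_d26_d42_d0e_d51_d07 g_wS_32_wQ_26_wN_1_rb8033062259_d51_d26_d42_d0e_d51_d05 g_wS_32_wQ_26_wN_1_rb8033062259_d51_d26_d42_d0e_d51_d04 g_wS_32_wQ_26_wN_1_rb8033062259_d51_d26_d42_d0e_d51_d03 g_wS_32_wQ_26_wN_1_rb8033062259_d51_d26_d42_d0e_d51_d02 g_wS_32_wQ_26_wN_1_rb8033062259_d51_d26_d42_d0e_d51_d00 g_wS_32_wQ_26_wN_1_rb8033062259_d51_d26_d42_d0e_d51_d01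 g__wS_32_wQ_26_wN_1_rb8033062259_d51_d26_d42_d0e_0 g_wS_32_wQ_26_wN_1_rb8033062259_d51_d26_d42_d0e_d51_d06 g_wS_32_wQ_26_wN_1_rb8033062259_d51_d26_d42_d0e_d51_d0c g_wS_32_wQ_26_wN_1_rb8033062259_d51_d26_d42_d0e_d51_d0e g_wS_32_wQ_26_wN_1_rb8033062259_d51_d26_d42_d0e_d51_d10 g_wS_32_wQ_26_wN_1_rb8033062259_d51_d26_d42_d0e_d51_d12 g_wS_32_wQ_26_wN_1_rb8033062259_d51_d26_d42_d0e_d51_d15 g_wS_32_wQ_26_wN_1_rb8033062259_d51_d26_d42_d0e_d51_d18 g_wS_32_wQ_26_wN_1_rb8033062259_d51_d26_d42_d0e_d51_d1a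

theorem g_wS_32_wQ_26_wN_1_rb8033062259_d51_d26_d42_d10v1 : GoodKC AS c_wS_32_wQ_26_wN_1_rb8033062259_d51_d26_d42_d10v1 := p_wS_32_wQ_26_wN_1_rb8033062259_d51_d26_d42_d10

theorem g_wS_32_wQ_26_wN_1_rb8033062259_d51_d26 : GoodKC AS c_wS_32_wQ_26_wN_1_rb8033062259_d51_d26 := p_wS_32_wQ_26_wN_1_rb8033062259_d51_d26v1 g_wS_32_wQ_26_wN_1_rb8033062259_d51_d26_d42_d0fv1 g__wS_32_wQ_26_wN_1_rb8033062259_d51_d26v1_0 g__wS_32_wQ_26_wN_1_rb8033062259_d51_d26v1_1 g__wS_32_wQ_26_wN_1_rb8033062259_d51_d26v1_4 g__wS_32_wQ_26_wN_1_rb8033062259_d51_d26v1_5 g_wS_32_wQ_26_wN_1_rb8033062259_d51_d26_d42_d0dv1 g_wS_32_wQ_26_wN_1_rb8033062259_d51_d26_d42_d0ev1 g_wS_32_wQ_26_wN_1_rb8033062259_d51_d26_d42_d10v1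

theorem g_wS_32_wQ_26_wN_1_rb8033062259_d51_d28 : GoodKC AS c_wS_32_wQ_26_wN_1_rb8033062259_d51_d28 := p_wS_32_wQ_26_wN_1_rb8033062259_d51_d28

theorem g__wS_32_wQ_26_wN_1_rb8033062259_d51_d2e_0 : GoodKC AS k_wS_32_wQ_26_wN_1_rb8033062259_d51_d2e_0 := p_wS_32_wQ_26_wN_1_rb8033062259_d51_d2e_0

theorem g__wS_32_wQ_26_wN_1_rb8033062259_d51_d2e_3 : GoodKC AS k_wS_32_wQ_26_wN_1_rb8033062259_d51_d2e_3 := p_wS_32_wQ_26_wN_1_rb8033062259_d51_d2e_3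

theorem g__wS_32_wQ_26_wN_1_rb8033062259_d51_d2e_2 : GoodKC AS k_wS_32_wQ_26_wN_1_rb8033062259_d51_d2e_2 := p_wS_32_wQ_26_wN_1_rb8033062259_d51_d2e_2 g__wS_32_wQ_26_wN_1_rb8033062259_d51_d2e_3

theorem g__wS_32_wQ_26_wN_1_rb8033062259_d51_d2e_4 : GoodKC AS k_wS_32_wQ_26_wN_1_rb8033062259_d51_d2e_4 := p_wS_32_wQ_26_wN_1_rb8033062259_d51_d2e_4

theorem g__wS_32_wQ_26_wN_1_rb8033062259_d51_d2e_6 : GoodKC AS k_wS_32_wQ_26_wN_1_rb8033062259_d51_d2e_6 := p_wS_32_wQ_26_wN_1_rb8033062259_d51_d2e_6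

theorem g__wS_32_wQ_26_wN_1_rb8033062259_d51_d2e_7 : GoodKC AS k_wS_32_wQ_26_wN_1_rb8033062259_d51_d2e_7 := p_wS_32_wQ_26_wN_1_rb8033062259_d51_d2e_7

theorem g__wS_32_wQ_26_wN_1_rb8033062259_d51_d2e_5 : GoodKC AS k_wS_32_wQ_26_wN_1_rb8033062259_d51_d2e_5 := p_wS_32_wQ_26_wN_1_rb8033062259_d51_d2e_5 g__wS_32_wQ_26_wN_1_rb8033062259_d51_d2e_6 g__wS_32_wQ_26_wN_1_rb8033062259_d51_d2e_7

theorem g__wS_32_wQ_26_wN_1_rb8033062259_d51_d2e_1 : GoodKC AS k_wS_32_wQ_26_wN_1_rb8033062259_d51_d2e_1 := p_wS_32_wQ_26_wN_1_rb8033062259_d51_d2e_1 g__wS_32_wQ_26_wN_1_rb8033062259_d51_d2e_2 g__wS_32_wQ_26_wN_1_rb8033062259_d51_d2e_4 g__wS_32_wQ_26_wN_1_rb8033062259_d51_d2e_5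

theorem g_wS_32_wQ_26_wN_1_rb8033062259_d51_d2e : GoodKC AS c_wS_32_wQ_26_wN_1_rb8033062259_d51_d2e := p_wS_32_wQ_26_wN_1_rb8033062259_d51_d2e g__wS_32_wQ_26_wN_1_rb8033062259_d51_d2e_0 g__wS_32_wQ_26_wN_1_rb8033062259_d51_d2e_1

theorem g_wS_32_wQ_26_wN_1_rb8033062259x13 : GoodKC AS c_wS_32_wQ_26_wN_1_rb8033062259x13 := p_wS_32_wQ_26_wN_1_rb8033062259 g_wS_32_wQ_26_wN_1_rb8033062259_d51_d31 g_wS_32_wQ_26_wN_1_rb8033062259_d51_d30 g_wS_32_wQ_26_wN_1_rb8033062259_d51_d2f g_wS_32_wQ_26_wN_1_rb8033062259_d51_d2d g_wS_32_wQ_26_wN_1_rb8033062259_d51_d2c g_wS_32_wQ_26_wN_1_rb8033062259_d51_d2b g_wS_32_wQ_26_wN_1_rb8033062259_d51_d2a g_wS_32_wQ_26_wN_1_rb8033062259_d51_d29 g_wS_32_wQ_26_wN_1_rb8033062259_d51_d27 g_wS_32_wQ_26_wN_1_rb8033062259_d51_d23 g_wS_32_wQ_26_wN_1_rb8033062259_d51_d22 g_wS_32_wQ_26_wN_1_rb8033062259_d51_d21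 g_wS_32_wQ_26_wN_1_rb8033062259_d51_d1f g_wS_32_wQ_26_wN_1_rb8033062259_d51_d1b g_wS_32_wQ_26_wN_1_rb8033062259_d51_d19 g_wS_32_wQ_26_wN_1_rb8033062259_d51_d18 g_wS_32_wQ_26_wN_1_rb8033062259_d51_d17 g_wS_32_wQ_26_wN_1_rb8033062259_d51_d16 g_wS_32_wQ_26_wN_1_rb8033062259_d51_d15 g_wS_32_wQ_26_wN_1_rb8033062259_d51_d14 g_wS_32_wQ_26_wN_1_rb8033062259_d51_d13 g_wS_32_wQ_26_wN_1_rb8033062259_d51_d12 g_wS_32_wQ_26_wN_1_rb8033062259_d51_d11 g_wS_32_wQ_26_wN_1_rb8033062259_d51_d10 g_wS_32_wQ_26_wN_1_rb8033062259_d51_d0f g_wS_32_wQ_26_wN_1_rb8033062259_d51_d0e g_wS_32_wQ_26_wN_1_rb8033062259_d51_d0b g_wS_32_wQ_26_wN_1_rb8033062259_d51_d0a g_wS_32_wQ_26_wN_1_rb8033062259_d51_d09 g_wS_32_wQ_26_wN_1_rb8033062259_d51_d08 g_wS_32_wQ_26_wN_1_rb8033062259_d51_d07 g_wS_32_wQ_26_wN_1_rb8033062259_d51_d06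 g_wS_32_wQ_26_wN_1_rb8033062259_d51_d05 g_wS_32_wQ_26_wN_1_rb8033062259_d51_d04 g_wS_32_wQ_26_wN_1_rb8033062259_d51_d03 g_wS_32_wQ_26_wN_1_rb8033062259_d51_d02 g_wS_32_wQ_26_wN_1_rb8033062259_d51_d00 g_wS_32_wQ_26_wN_1_rb8033062259_d51_d01 g_wS_32_wQ_26_wN_1_rb8033062259_d51_d0c g_wS_32_wQ_26_wN_1_rb8033062259_d51_d0d g_wS_32_wQ_26_wN_1_rb8033062259_d51_d1a g_wS_32_wQ_26_wN_1_rb8033062259_d51_d1c g_wS_32_wQ_26_wN_1_rb8033062259_d51_d1d g_wS_32_wQ_26_wN_1_rb8033062259_d51_d1e g_wS_32_wQ_26_wN_1_rb8033062259_d51_d20 g_wS_32_wQ_26_wN_1_rb8033062259_d51_d24 g_wS_32_wQ_26_wN_1_rb8033062259_d51_d25 g_wS_32_wQ_26_wN_1_rb8033062259_d51_d26 g_wS_32_wQ_26_wN_1_rb8033062259_d51_d28 g_wS_32_wQ_26_wN_1_rb8033062259_d51_d2e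

theorem g_wS_32_wQ_26_wN_1_rb8033062256x13 : GoodKC AS c_wS_32_wQ_26_wN_1_rb8033062256x13 := p_wS_32_wQ_26_wN_1_rb8033062256

theorem g_wS_32_wQ_26_wN_1_rb8033062254x13 : GoodKC AS c_wS_32_wQ_26_wN_1_rb8033062254x13 := p_wS_32_wQ_26_wN_1_rb8033062254

theorem g_wS_32_wQ_26_wN_1_rb8033062252x13 : GoodKC AS c_wS_32_wQ_26_wN_1_rb8033062252x13 := p_wS_32_wQ_26_wN_1_rb8033062252

theorem g_wS_32_wQ_26_wN_1_rb8033062250x13 : GoodKC AS c_wS_32_wQ_26_wN_1_rb8033062250x13 := p_wS_32_wQ_26_wN_1_rb8033062250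

theorem g_wS_32_wQ_26_wN_1_rb803306224fx13 : GoodKC AS c_wS_32_wQ_26_wN_1_rb803306224fx13 := p_wS_32_wQ_26_wN_1_rb803306224f

theorem g__wS_32_wQ_26_wN_1_rb803306224e_0 : GoodKC AS k_wS_32_wQ_26_wN_1_rb803306224e_0 := p_wS_32_wQ_26_wN_1_rb803306224e_0

theorem g_wS_32_wQ_26_wN_1_rb803306224ex13 : GoodKC AS c_wS_32_wQ_26_wN_1_rb803306224ex13 := p_wS_32_wQ_26_wN_1_rb803306224e g__wS_32_wQ_26_wN_1_rb803306224e_0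

theorem g_wS_32_wQ_26_wN_1_rb803306224bx13 : GoodKC AS c_wS_32_wQ_26_wN_1_rb803306224bx13 := p_wS_32_wQ_26_wN_1_rb803306224b

theorem g_wS_32_wQ_26_wN_1_rb8033062249x13 : GoodKC AS c_wS_32_wQ_26_wN_1_rb8033062249x13 := p_wS_32_wQ_26_wN_1_rb8033062249

theorem g_wS_32_wQ_26_wN_1_rb8033062246x13 : GoodKC AS c_wS_32_wQ_26_wN_1_rb8033062246x13 := p_wS_32_wQ_26_wN_1_rb8033062246

theorem g_wS_32_wQ_26_wN_1_rb8033062242x13 : GoodKC AS c_wS_32_wQ_26_wN_1_rb8033062242x13 := p_wS_32_wQ_26_wN_1_rb8033062242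

theorem g__wS_32_wQ_26_wN_1_rb8033062240_1 : GoodKC AS k_wS_32_wQ_26_wN_1_rb8033062240_1 := p_wS_32_wQ_26_wN_1_rb8033062240_1

theorem g__wS_32_wQ_26_wN_1_rb8033062240_0 : GoodKC AS k_wS_32_wQ_26_wN_1_rb8033062240_0 := p_wS_32_wQ_26_wN_1_rb8033062240_0 g__wS_32_wQ_26_wN_1_rb8033062240_1

theorem g__wS_32_wQ_26_wN_1_rb8033062240_2 : GoodKC AS k_wS_32_wQ_26_wN_1_rb8033062240_2 := p_wS_32_wQ_26_wN_1_rb8033062240_2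

theorem g__wS_32_wQ_26_wN_1_rb8033062240_6 : GoodKC AS k_wS_32_wQ_26_wN_1_rb8033062240_6 := p_wS_32_wQ_26_wN_1_rb8033062240_6

theorem g__wS_32_wQ_26_wN_1_rb8033062240_8 : GoodKC AS k_wS_32_wQ_26_wN_1_rb8033062240_8 := p_wS_32_wQ_26_wN_1_rb8033062240_8

theorem g__wS_32_wQ_26_wN_1_rb8033062240_7 : GoodKC AS k_wS_32_wQ_26_wN_1_rb8033062240_7 := p_wS_32_wQ_26_wN_1_rb8033062240_7 g__wS_32_wQ_26_wN_1_rb8033062240_8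

theorem g__wS_32_wQ_26_wN_1_rb8033062240_5 : GoodKC AS k_wS_32_wQ_26_wN_1_rb8033062240_5 := p_wS_32_wQ_26_wN_1_rb8033062240_5 g__wS_32_wQ_26_wN_1_rb8033062240_6 g__wS_32_wQ_26_wN_1_rb8033062240_7

theorem g__wS_32_wQ_26_wN_1_rb8033062240_4 : GoodKC AS k_wS_32_wQ_26_wN_1_rb8033062240_4 := p_wS_32_wQ_26_wN_1_rb8033062240_4 g__wS_32_wQ_26_wN_1_rb8033062240_5

theorem g__wS_32_wQ_26_wN_1_rb8033062240_3 : GoodKC AS k_wS_32_wQ_26_wN_1_rb8033062240_3 := p_wS_32_wQ_26_wN_1_rb8033062240_3 g__wS_32_wQ_26_wN_1_rb8033062240_4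

theorem g_wS_32_wQ_26_wN_1_rb8033062240x13 : GoodKC AS c_wS_32_wQ_26_wN_1_rb8033062240x13 := p_wS_32_wQ_26_wN_1_rb8033062240 g__wS_32_wQ_26_wN_1_rb8033062240_0 g__wS_32_wQ_26_wN_1_rb8033062240_2 g__wS_32_wQ_26_wN_1_rb8033062240_3

theorem g__wS_32_wQ_26_wN_1_rb803306223f_0 : GoodKC AS k_wS_32_wQ_26_wN_1_rb803306223f_0 := p_wS_32_wQ_26_wN_1_rb803306223f_0

theorem g_wS_32_wQ_26_wN_1_rb803306223fx13 : GoodKC AS c_wS_32_wQ_26_wN_1_rb803306223fx13 := p_wS_32_wQ_26_wN_1_rb803306223f g__wS_32_wQ_26_wN_1_rb803306223f_0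

theorem g__wS_32_wQ_26_wN_1_rb803306223c_1 : GoodKC AS k_wS_32_wQ_26_wN_1_rb803306223c_1 := p_wS_32_wQ_26_wN_1_rb803306223c_1

theorem g__wS_32_wQ_26_wN_1_rb803306223c_0 : GoodKC AS k_wS_32_wQ_26_wN_1_rb803306223c_0 := p_wS_32_wQ_26_wN_1_rb803306223c_0 g__wS_32_wQ_26_wN_1_rb803306223c_1

theorem g_wS_32_wQ_26_wN_1_rb803306223cx13 : GoodKC AS c_wS_32_wQ_26_wN_1_rb803306223cx13 := p_wS_32_wQ_26_wN_1_rb803306223c g__wS_32_wQ_26_wN_1_rb803306223c_0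

theorem g_wS_32_wQ_26_wN_1_rb803306223ax13 : GoodKC AS c_wS_32_wQ_26_wN_1_rb803306223ax13 := p_wS_32_wQ_26_wN_1_rb803306223a

theorem g_wS_32_wQ_26_wN_1_rb8033062239x13 : GoodKC AS c_wS_32_wQ_26_wN_1_rb8033062239x13 := p_wS_32_wQ_26_wN_1_rb8033062239

theorem g_wS_32_wQ_26_wN_1_rb8033062238x13 : GoodKC AS c_wS_32_wQ_26_wN_1_rb8033062238x13 := p_wS_32_wQ_26_wN_1_rb8033062238

theorem g_wS_32_wQ_26_wN_1_rb8033062236x13 : GoodKC AS c_wS_32_wQ_26_wN_1_rb8033062236x13 := p_wS_32_wQ_26_wN_1_rb8033062236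

theorem g__wS_32_wQ_26_wN_1_rb8033062234_1 : GoodKC AS k_wS_32_wQ_26_wN_1_rb8033062234_1 := p_wS_32_wQ_26_wN_1_rb8033062234_1

theorem g__wS_32_wQ_26_wN_1_rb8033062234_0 : GoodKC AS k_wS_32_wQ_26_wN_1_rb8033062234_0 := p_wS_32_wQ_26_wN_1_rb8033062234_0 g__wS_32_wQ_26_wN_1_rb8033062234_1

theorem g_wS_32_wQ_26_wN_1_rb8033062234x13 : GoodKC AS c_wS_32_wQ_26_wN_1_rb8033062234x13 := p_wS_32_wQ_26_wN_1_rb8033062234 g__wS_32_wQ_26_wN_1_rb8033062234_0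

theorem g_wS_32_wQ_26_wN_1_rb8033062233x13 : GoodKC AS c_wS_32_wQ_26_wN_1_rb8033062233x13 := p_wS_32_wQ_26_wN_1_rb8033062233

theorem g_wS_32_wQ_26_wN_1_rb8033062232x13 : GoodKC AS c_wS_32_wQ_26_wN_1_rb8033062232x13 := p_wS_32_wQ_26_wN_1_rb8033062232

theorem g_wS_32_wQ_26_wN_1_rb8033062231x13 : GoodKC AS c_wS_32_wQ_26_wN_1_rb8033062231x13 := p_wS_32_wQ_26_wN_1_rb8033062231

theorem g_wS_32_wQ_26_wN_1_rb8033062230x13 : GoodKC AS c_wS_32_wQ_26_wN_1_rb8033062230x13 := p_wS_32_wQ_26_wN_1_rb8033062230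

theorem g_wS_32_wQ_26_wN_1_rb803306222fx13 : GoodKC AS c_wS_32_wQ_26_wN_1_rb803306222fx13 := p_wS_32_wQ_26_wN_1_rb803306222f

theorem g_wS_32_wQ_26_wN_1_rb803306222ex13 : GoodKC AS c_wS_32_wQ_26_wN_1_rb803306222ex13 := p_wS_32_wQ_26_wN_1_rb803306222e

theorem g_wS_32_wQ_26_wN_1_rb803306222dx13 : GoodKC AS c_wS_32_wQ_26_wN_1_rb803306222dx13 := p_wS_32_wQ_26_wN_1_rb803306222d

theorem g_wS_32_wQ_26_wN_1_rb803306222cx13 : GoodKC AS c_wS_32_wQ_26_wN_1_rb803306222cx13 := p_wS_32_wQ_26_wN_1_rb803306222c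

theorem g_wS_32_wQ_26_wN_1_rb803306222bx13 : GoodKC AS c_wS_32_wQ_26_wN_1_rb803306222bx13 := p_wS_32_wQ_26_wN_1_rb803306222b

theorem g_wS_32_wQ_26_wN_1_rb8033062229x13 : GoodKC AS c_wS_32_wQ_26_wN_1_rb8033062229x13 := p_wS_32_wQ_26_wN_1_rb8033062229

theorem g_wS_32_wQ_26_wN_1_rb8033062228x13 : GoodKC AS c_wS_32_wQ_26_wN_1_rb8033062228x13 := p_wS_32_wQ_26_wN_1_rb8033062228

theorem g_wS_32_wQ_26_wN_1_rb8033062227x13 : GoodKC AS c_wS_32_wQ_26_wN_1_rb8033062227x13 := p_wS_32_wQ_26_wN_1_rb8033062227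

theorem g_wS_32_wQ_26_wN_1_rb8033062226x13 : GoodKC AS c_wS_32_wQ_26_wN_1_rb8033062226x13 := p_wS_32_wQ_26_wN_1_rb8033062226

theorem g_wS_32_wQ_26_wN_1_rb8033062225x13 : GoodKC AS c_wS_32_wQ_26_wN_1_rb8033062225x13 := p_wS_32_wQ_26_wN_1_rb8033062225

theorem g_wS_32_wQ_26_wN_1_rb8033062224x13 : GoodKC AS c_wS_32_wQ_26_wN_1_rb8033062224x13 := p_wS_32_wQ_26_wN_1_rb8033062224

theorem g_wS_32_wQ_26_wN_1_rb8033062223x13 : GoodKC AS c_wS_32_wQ_26_wN_1_rb8033062223x13 := p_wS_32_wQ_26_wN_1_rb8033062223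

theorem g_wS_32_wQ_26_wN_1_rb8033062222x13 : GoodKC AS c_wS_32_wQ_26_wN_1_rb8033062222x13 := p_wS_32_wQ_26_wN_1_rb8033062222

theorem g_wS_32_wQ_26_wN_1_rb8033062221x13 : GoodKC AS c_wS_32_wQ_26_wN_1_rb8033062221x13 := p_wS_32_wQ_26_wN_1_rb8033062221

theorem g_wS_32_wQ_26_wN_1_rb803306221fx13 : GoodKC AS c_wS_32_wQ_26_wN_1_rb803306221fx13 := p_wS_32_wQ_26_wN_1_rb803306221f

theorem g_wS_32_wQ_26_wN_1_rb803306221ex13 : GoodKC AS c_wS_32_wQ_26_wN_1_rb803306221ex13 := p_wS_32_wQ_26_wN_1_rb803306221e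

theorem g_wS_32_wQ_26_wN_1_rb803306221bx13 : GoodKC AS c_wS_32_wQ_26_wN_1_rb803306221bx13 := p_wS_32_wQ_26_wN_1_rb803306221b

theorem g_wS_32_wQ_26_wN_1_rb803306221ax13 : GoodKC AS c_wS_32_wQ_26_wN_1_rb803306221ax13 := p_wS_32_wQ_26_wN_1_rb803306221a

theorem g_wS_32_wQ_26_wN_1_rb8033062217x13 : GoodKC AS c_wS_32_wQ_26_wN_1_rb8033062217x13 := p_wS_32_wQ_26_wN_1_rb8033062217

theorem g_wS_32_wQ_26_wN_1_rb8033062216x13 : GoodKC AS c_wS_32_wQ_26_wN_1_rb8033062216x13 := p_wS_32_wQ_26_wN_1_rb8033062216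

theorem g_wS_32_wQ_26_wN_1_rb8033062215x13 : GoodKC AS c_wS_32_wQ_26_wN_1_rb8033062215x13 := p_wS_32_wQ_26_wN_1_rb8033062215

theorem g_wS_32_wQ_26_wN_1_rb8033062214x13 : GoodKC AS c_wS_32_wQ_26_wN_1_rb8033062214x13 := p_wS_32_wQ_26_wN_1_rb8033062214

theorem g_wS_32_wQ_26_wN_1_rb8033062213x13 : GoodKC AS c_wS_32_wQ_26_wN_1_rb8033062213x13 := p_wS_32_wQ_26_wN_1_rb8033062213

theorem g_wS_32_wQ_26_wN_1_rb8033062212x13 : GoodKC AS c_wS_32_wQ_26_wN_1_rb8033062212x13 := p_wS_32_wQ_26_wN_1_rb8033062212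

theorem g_wS_32_wQ_26_wN_1_rb8033062211x13 : GoodKC AS c_wS_32_wQ_26_wN_1_rb8033062211x13 := p_wS_32_wQ_26_wN_1_rb8033062211

theorem g_wS_32_wQ_26_wN_1_rb8033062210x13 : GoodKC AS c_wS_32_wQ_26_wN_1_rb8033062210x13 := p_wS_32_wQ_26_wN_1_rb8033062210

theorem g_wS_32_wQ_26_wN_1_rb803306220ex13 : GoodKC AS c_wS_32_wQ_26_wN_1_rb803306220ex13 := p_wS_32_wQ_26_wN_1_rb803306220e

theorem g_wS_32_wQ_26_wN_1_rb803306220dx13 : GoodKC AS c_wS_32_wQ_26_wN_1_rb803306220dx13 := p_wS_32_wQ_26_wN_1_rb803306220d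

theorem g_wS_32_wQ_26_wN_1_rb803306220cx13 : GoodKC AS c_wS_32_wQ_26_wN_1_rb803306220cx13 := p_wS_32_wQ_26_wN_1_rb803306220c

theorem g_wS_32_wQ_26_wN_1_rb803306220bx13 : GoodKC AS c_wS_32_wQ_26_wN_1_rb803306220bx13 := p_wS_32_wQ_26_wN_1_rb803306220b

theorem g_wS_32_wQ_26_wN_1_rb803306220ax13 : GoodKC AS c_wS_32_wQ_26_wN_1_rb803306220ax13 := p_wS_32_wQ_26_wN_1_rb803306220a

theorem g_wS_32_wQ_26_wN_1_rb8033062209x13 : GoodKC AS c_wS_32_wQ_26_wN_1_rb8033062209x13 := p_wS_32_wQ_26_wN_1_rb8033062209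

theorem g_wS_32_wQ_26_wN_1_rb8033062208x13 : GoodKC AS c_wS_32_wQ_26_wN_1_rb8033062208x13 := p_wS_32_wQ_26_wN_1_rb8033062208

theorem g_wS_32_wQ_26_wN_1_rb8033062207x13 : GoodKC AS c_wS_32_wQ_26_wN_1_rb8033062207x13 := p_wS_32_wQ_26_wN_1_rb8033062207

theorem g_wS_32_wQ_26_wN_1_rb8033062204x13 : GoodKC AS c_wS_32_wQ_26_wN_1_rb8033062204x13 := p_wS_32_wQ_26_wN_1_rb8033062204

theorem g_wS_32_wQ_26_wN_1_rb8033062203x13 : GoodKC AS c_wS_32_wQ_26_wN_1_rb8033062203x13 := p_wS_32_wQ_26_wN_1_rb8033062203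

theorem g_wS_32_wQ_26_wN_1_rb8033062202x13 : GoodKC AS c_wS_32_wQ_26_wN_1_rb8033062202x13 := p_wS_32_wQ_26_wN_1_rb8033062202

theorem g_wS_32_wQ_26_wN_1_rb8033062201x13 : GoodKC AS c_wS_32_wQ_26_wN_1_rb8033062201x13 := p_wS_32_wQ_26_wN_1_rb8033062201

theorem g__wS_32_wQ_26_wN_1_rb8033062200_3 : GoodKC AS k_wS_32_wQ_26_wN_1_rb8033062200_3 := p_wS_32_wQ_26_wN_1_rb8033062200_3

theorem g__wS_32_wQ_26_wN_1_rb8033062200_2 : GoodKC AS k_wS_32_wQ_26_wN_1_rb8033062200_2 := p_wS_32_wQ_26_wN_1_rb8033062200_2 g__wS_32_wQ_26_wN_1_rb8033062200_3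

theorem g__wS_32_wQ_26_wN_1_rb8033062200_1 : GoodKC AS k_wS_32_wQ_26_wN_1_rb8033062200_1 := p_wS_32_wQ_26_wN_1_rb8033062200_1 g__wS_32_wQ_26_wN_1_rb8033062200_2

theorem g__wS_32_wQ_26_wN_1_rb8033062200_0 : GoodKC AS k_wS_32_wQ_26_wN_1_rb8033062200_0 := p_wS_32_wQ_26_wN_1_rb8033062200_0 g__wS_32_wQ_26_wN_1_rb8033062200_1

theorem g_wS_32_wQ_26_wN_1_rb8033062200x13 : GoodKC AS c_wS_32_wQ_26_wN_1_rb8033062200x13 := p_wS_32_wQ_26_wN_1_rb8033062200 g__wS_32_wQ_26_wN_1_rb8033062200_0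

theorem g_wS_32_wQ_26_wN_1_rb8033062205x13 : GoodKC AS c_wS_32_wQ_26_wN_1_rb8033062205x13 := p_wS_32_wQ_26_wN_1_rb8033062205

theorem g_wS_32_wQ_26_wN_1_rb8033062206x13 : GoodKC AS c_wS_32_wQ_26_wN_1_rb8033062206x13 := p_wS_32_wQ_26_wN_1_rb8033062206

theorem g_wS_32_wQ_26_wN_1_rb803306220fx13 : GoodKC AS c_wS_32_wQ_26_wN_1_rb803306220fx13 := p_wS_32_wQ_26_wN_1_rb803306220f

theorem g_wS_32_wQ_26_wN_1_rb8033062218x13 : GoodKC AS c_wS_32_wQ_26_wN_1_rb8033062218x13 := p_wS_32_wQ_26_wN_1_rb8033062218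

theorem g_wS_32_wQ_26_wN_1_rb8033062219x13 : GoodKC AS c_wS_32_wQ_26_wN_1_rb8033062219x13 := p_wS_32_wQ_26_wN_1_rb8033062219

theorem g_wS_32_wQ_26_wN_1_rb803306221cx13 : GoodKC AS c_wS_32_wQ_26_wN_1_rb803306221cx13 := p_wS_32_wQ_26_wN_1_rb803306221c

theorem g_wS_32_wQ_26_wN_1_rb803306221dx13 : GoodKC AS c_wS_32_wQ_26_wN_1_rb803306221dx13 := p_wS_32_wQ_26_wN_1_rb803306221d

theorem g_wS_32_wQ_26_wN_1_rb8033062220x13 : GoodKC AS c_wS_32_wQ_26_wN_1_rb8033062220x13 := p_wS_32_wQ_26_wN_1_rb8033062220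

theorem g__wS_32_wQ_26_wN_1_rb803306222a_1 : GoodKC AS k_wS_32_wQ_26_wN_1_rb803306222a_1 := p_wS_32_wQ_26_wN_1_rb803306222a_1

theorem g__wS_32_wQ_26_wN_1_rb803306222a_0 : GoodKC AS k_wS_32_wQ_26_wN_1_rb803306222a_0 := p_wS_32_wQ_26_wN_1_rb803306222a_0 g__wS_32_wQ_26_wN_1_rb803306222a_1

theorem g_wS_32_wQ_26_wN_1_rb803306222ax13 : GoodKC AS c_wS_32_wQ_26_wN_1_rb803306222ax13 := p_wS_32_wQ_26_wN_1_rb803306222a g__wS_32_wQ_26_wN_1_rb803306222a_0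

theorem g__wS_32_wQ_26_wN_1_rb80330622x13_1 : GoodKC AS k_wS_32_wQ_26_wN_1_rb80330622x13_1 := p_wS_32_wQ_26_wN_1_rb80330622x13_1

theorem g__wS_32_wQ_26_wN_1_rb80330622x13_2 : GoodKC AS k_wS_32_wQ_26_wN_1_rb80330622x13_2 := p_wS_32_wQ_26_wN_1_rb80330622x13_2

theorem g__wS_32_wQ_26_wN_1_rb80330622x13_4 : GoodKC AS k_wS_32_wQ_26_wN_1_rb80330622x13_4 := p_wS_32_wQ_26_wN_1_rb80330622x13_4

theorem g__wS_32_wQ_26_wN_1_rb80330622x13_3 : GoodKC AS k_wS_32_wQ_26_wN_1_rb80330622x13_3 := p_wS_32_wQ_26_wN_1_rb80330622x13_3 g__wS_32_wQ_26_wN_1_rb80330622x13_4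

theorem g_wS_32_wQ_26_wN_1_rb8033062235x13 : GoodKC AS c_wS_32_wQ_26_wN_1_rb8033062235x13 := p_wS_32_wQ_26_wN_1_rb8033062235

theorem g_wS_32_wQ_26_wN_1_rb8033062237x13 : GoodKC AS c_wS_32_wQ_26_wN_1_rb8033062237x13 := p_wS_32_wQ_26_wN_1_rb8033062237

theorem g__wS_32_wQ_26_wN_1_rb80330622x13_5 : GoodKC AS k_wS_32_wQ_26_wN_1_rb80330622x13_5 := p_wS_32_wQ_26_wN_1_rb80330622x13_5

theorem g__wS_32_wQ_26_wN_1_rb80330622x13_8 : GoodKC AS k_wS_32_wQ_26_wN_1_rb80330622x13_8 := p_wS_32_wQ_26_wN_1_rb80330622x13_8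

theorem g__wS_32_wQ_26_wN_1_rb80330622x13_11 : GoodKC AS k_wS_32_wQ_26_wN_1_rb80330622x13_11 := p_wS_32_wQ_26_wN_1_rb80330622x13_11

theorem g__wS_32_wQ_26_wN_1_rb80330622x13_10 : GoodKC AS k_wS_32_wQ_26_wN_1_rb80330622x13_10 := p_wS_32_wQ_26_wN_1_rb80330622x13_10 g__wS_32_wQ_26_wN_1_rb80330622x13_11

theorem g__wS_32_wQ_26_wN_1_rb80330622x13_9 : GoodKC AS k_wS_32_wQ_26_wN_1_rb80330622x13_9 := p_wS_32_wQ_26_wN_1_rb80330622x13_9 g__wS_32_wQ_26_wN_1_rb80330622x13_10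

theorem g__wS_32_wQ_26_wN_1_rb80330622x13_13 : GoodKC AS k_wS_32_wQ_26_wN_1_rb80330622x13_13 := p_wS_32_wQ_26_wN_1_rb80330622x13_13

theorem g__wS_32_wQ_26_wN_1_rb80330622x13_12 : GoodKC AS k_wS_32_wQ_26_wN_1_rb80330622x13_12 := p_wS_32_wQ_26_wN_1_rb80330622x13_12 g__wS_32_wQ_26_wN_1_rb80330622x13_13

theorem g__wS_32_wQ_26_wN_1_rb80330622x13_7 : GoodKC AS k_wS_32_wQ_26_wN_1_rb80330622x13_7 := p_wS_32_wQ_26_wN_1_rb80330622x13_7 g__wS_32_wQ_26_wN_1_rb80330622x13_8 g__wS_32_wQ_26_wN_1_rb80330622x13_9 g__wS_32_wQ_26_wN_1_rb80330622x13_12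

theorem g__wS_32_wQ_26_wN_1_rb80330622x13_6 : GoodKC AS k_wS_32_wQ_26_wN_1_rb80330622x13_6 := p_wS_32_wQ_26_wN_1_rb80330622x13_6 g__wS_32_wQ_26_wN_1_rb80330622x13_7

theorem g_wS_32_wQ_26_wN_1_rb803306223bx13 : GoodKC AS c_wS_32_wQ_26_wN_1_rb803306223bx13 := p_wS_32_wQ_26_wN_1_rb803306223b

theorem g__wS_32_wQ_26_wN_1_rb803306223d_0 : GoodKC AS k_wS_32_wQ_26_wN_1_rb803306223d_0 := p_wS_32_wQ_26_wN_1_rb803306223d_0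

theorem g_wS_32_wQ_26_wN_1_rb803306223dx13 : GoodKC AS c_wS_32_wQ_26_wN_1_rb803306223dx13 := p_wS_32_wQ_26_wN_1_rb803306223d g__wS_32_wQ_26_wN_1_rb803306223d_0

theorem g__wS_32_wQ_26_wN_1_rb803306223e_1 : GoodKC AS k_wS_32_wQ_26_wN_1_rb803306223e_1 := p_wS_32_wQ_26_wN_1_rb803306223e_1

theorem g__wS_32_wQ_26_wN_1_rb803306223e_2 : GoodKC AS k_wS_32_wQ_26_wN_1_rb803306223e_2 := p_wS_32_wQ_26_wN_1_rb803306223e_2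

theorem g__wS_32_wQ_26_wN_1_rb803306223e_0 : GoodKC AS k_wS_32_wQ_26_wN_1_rb803306223e_0 := p_wS_32_wQ_26_wN_1_rb803306223e_0 g__wS_32_wQ_26_wN_1_rb803306223e_1 g__wS_32_wQ_26_wN_1_rb803306223e_2

theorem g_wS_32_wQ_26_wN_1_rb803306223ex13 : GoodKC AS c_wS_32_wQ_26_wN_1_rb803306223ex13 := p_wS_32_wQ_26_wN_1_rb803306223e g__wS_32_wQ_26_wN_1_rb803306223e_0

theorem g_wS_32_wQ_26_wN_1_rb8033062241x13 : GoodKC AS c_wS_32_wQ_26_wN_1_rb8033062241x13 := p_wS_32_wQ_26_wN_1_rb8033062241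

theorem g_wS_32_wQ_26_wN_1_rb8033062243x13 : GoodKC AS c_wS_32_wQ_26_wN_1_rb8033062243x13 := p_wS_32_wQ_26_wN_1_rb8033062243

theorem g_wS_32_wQ_26_wN_1_rb8033062244x13 : GoodKC AS c_wS_32_wQ_26_wN_1_rb8033062244x13 := p_wS_32_wQ_26_wN_1_rb8033062244

theorem g_wS_32_wQ_26_wN_1_rb8033062245x13 : GoodKC AS c_wS_32_wQ_26_wN_1_rb8033062245x13 := p_wS_32_wQ_26_wN_1_rb8033062245

theorem g__wS_32_wQ_26_wN_1_rb80330622x13_0 : GoodKC AS k_wS_32_wQ_26_wN_1_rb80330622x13_0 := p_wS_32_wQ_26_wN_1_rb80330622x13_0 g_wS_32_wQ_26_wN_1_rb8033062246x13 g_wS_32_wQ_26_wN_1_rb8033062242x13 g_wS_32_wQ_26_wN_1_rb8033062240x13 g_wS_32_wQ_26_wN_1_rb803306223fx13 g_wS_32_wQ_26_wN_1_rb803306223cx13 g_wS_32_wQ_26_wN_1_rb803306223ax13 g_wS_32_wQ_26_wN_1_rb8033062239x13 g_wS_32_wQ_26_wN_1_rb8033062238x13 g_wS_32_wQ_26_wN_1_rb8033062236x13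 g_wS_32_wQ_26_wN_1_rb8033062234x13 g_wS_32_wQ_26_wN_1_rb8033062233x13 g_wS_32_wQ_26_wN_1_rb8033062232x13 g_wS_32_wQ_26_wN_1_rb8033062231x13 g_wS_32_wQ_26_wN_1_rb8033062230x13 g_wS_32_wQ_26_wN_1_rb803306222fx13 g_wS_32_wQ_26_wN_1_rb803306222ex13 g_wS_32_wQ_26_wN_1_rb803306222dx13 g_wS_32_wQ_26_wN_1_rb803306222cx13 g_wS_32_wQ_26_wN_1_rb803306222bx13 g_wS_32_wQ_26_wN_1_rb8033062229x13 g_wS_32_wQ_26_wN_1_rb8033062228x13 g_wS_32_wQ_26_wN_1_rb8033062227x13 g_wS_32_wQ_26_wN_1_rb8033062226x13 g_wS_32_wQ_26_wN_1_rb8033062225x13 g_wS_32_wQ_26_wN_1_rb8033062224x13 g_wS_32_wQ_26_wN_1_rb8033062223x13 g_wS_32_wQ_26_wN_1_rb8033062222x13 g_wS_32_wQ_26_wN_1_rb8033062221x13 g_wS_32_wQ_26_wN_1_rb803306221fx13 g_wS_32_wQ_26_wN_1_rb803306221ex13 g_wS_32_wQ_26_wN_1_rb803306221bx13 g_wS_32_wQ_26_wN_1_rb803306221ax13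 g_wS_32_wQ_26_wN_1_rb8033062217x13 g_wS_32_wQ_26_wN_1_rb8033062216x13 g_wS_32_wQ_26_wN_1_rb8033062215x13 g_wS_32_wQ_26_wN_1_rb8033062214x13 g_wS_32_wQ_26_wN_1_rb8033062213x13 g_wS_32_wQ_26_wN_1_rb8033062212x13 g_wS_32_wQ_26_wN_1_rb8033062211x13 g_wS_32_wQ_26_wN_1_rb8033062210x13 g_wS_32_wQ_26_wN_1_rb803306220ex13 g_wS_32_wQ_26_wN_1_rb803306220dx13 g_wS_32_wQ_26_wN_1_rb803306220cx13 g_wS_32_wQ_26_wN_1_rb803306220bx13 g_wS_32_wQ_26_wN_1_rb803306220ax13 g_wS_32_wQ_26_wN_1_rb8033062209x13 g_wS_32_wQ_26_wN_1_rb8033062208x13 g_wS_32_wQ_26_wN_1_rb8033062207x13 g_wS_32_wQ_26_wN_1_rb8033062204x13 g_wS_32_wQ_26_wN_1_rb8033062203x13 g_wS_32_wQ_26_wN_1_rb8033062202x13 g_wS_32_wQ_26_wN_1_rb8033062201x13 g_wS_32_wQ_26_wN_1_rb8033062200x13 g_wS_32_wQ_26_wN_1_rb8033062205x13 g_wS_32_wQ_26_wN_1_rb8033062206x13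 g_wS_32_wQ_26_wN_1_rb803306220fx13 g_wS_32_wQ_26_wN_1_rb8033062218x13 g_wS_32_wQ_26_wN_1_rb8033062219x13 g_wS_32_wQ_26_wN_1_rb803306221cx13 g_wS_32_wQ_26_wN_1_rb803306221dx13 g_wS_32_wQ_26_wN_1_rb8033062220x13 g_wS_32_wQ_26_wN_1_rb803306222ax13 g__wS_32_wQ_26_wN_1_rb80330622x13_1 g__wS_32_wQ_26_wN_1_rb80330622x13_2 g__wS_32_wQ_26_wN_1_rb80330622x13_3 g_wS_32_wQ_26_wN_1_rb8033062235x13 g_wS_32_wQ_26_wN_1_rb8033062237x13 g__wS_32_wQ_26_wN_1_rb80330622x13_5 g__wS_32_wQ_26_wN_1_rb80330622x13_6 g_wS_32_wQ_26_wN_1_rb803306223bx13 g_wS_32_wQ_26_wN_1_rb803306223dx13 g_wS_32_wQ_26_wN_1_rb803306223ex13 g_wS_32_wQ_26_wN_1_rb8033062241x13 g_wS_32_wQ_26_wN_1_rb8033062243x13 g_wS_32_wQ_26_wN_1_rb8033062244x13 g_wS_32_wQ_26_wN_1_rb8033062245x13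

theorem g__wS_32_wQ_26_wN_1_rb80330622x13_17 : GoodKC AS k_wS_32_wQ_26_wN_1_rb80330622x13_17 := p_wS_32_wQ_26_wN_1_rb80330622x13_17

theorem g__wS_32_wQ_26_wN_1_rb80330622x13_16 : GoodKC AS k_wS_32_wQ_26_wN_1_rb80330622x13_16 := p_wS_32_wQ_26_wN_1_rb80330622x13_16 g__wS_32_wQ_26_wN_1_rb80330622x13_17

theorem g__wS_32_wQ_26_wN_1_rb80330622x13_15 : GoodKC AS k_wS_32_wQ_26_wN_1_rb80330622x13_15 := p_wS_32_wQ_26_wN_1_rb80330622x13_15 g__wS_32_wQ_26_wN_1_rb80330622x13_16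

theorem g__wS_32_wQ_26_wN_1_rb80330622x13_20 : GoodKC AS k_wS_32_wQ_26_wN_1_rb80330622x13_20 := p_wS_32_wQ_26_wN_1_rb80330622x13_20

theorem g__wS_32_wQ_26_wN_1_rb80330622x13_19 : GoodKC AS k_wS_32_wQ_26_wN_1_rb80330622x13_19 := p_wS_32_wQ_26_wN_1_rb80330622x13_19 g__wS_32_wQ_26_wN_1_rb80330622x13_20

theorem g__wS_32_wQ_26_wN_1_rb80330622x13_22 : GoodKC AS k_wS_32_wQ_26_wN_1_rb80330622x13_22 := p_wS_32_wQ_26_wN_1_rb80330622x13_22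

theorem g__wS_32_wQ_26_wN_1_rb80330622x13_23 : GoodKC AS k_wS_32_wQ_26_wN_1_rb80330622x13_23 := p_wS_32_wQ_26_wN_1_rb80330622x13_23

theorem g__wS_32_wQ_26_wN_1_rb80330622x13_25 : GoodKC AS k_wS_32_wQ_26_wN_1_rb80330622x13_25 := p_wS_32_wQ_26_wN_1_rb80330622x13_25

theorem g__wS_32_wQ_26_wN_1_rb80330622x13_30 : GoodKC AS k_wS_32_wQ_26_wN_1_rb80330622x13_30 := p_wS_32_wQ_26_wN_1_rb80330622x13_30

theorem g__wS_32_wQ_26_wN_1_rb80330622x13_29 : GoodKC AS k_wS_32_wQ_26_wN_1_rb80330622x13_29 := p_wS_32_wQ_26_wN_1_rb80330622x13_29 g__wS_32_wQ_26_wN_1_rb80330622x13_30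

theorem g__wS_32_wQ_26_wN_1_rb80330622x13_31 : GoodKC AS k_wS_32_wQ_26_wN_1_rb80330622x13_31 := p_wS_32_wQ_26_wN_1_rb80330622x13_31

theorem g__wS_32_wQ_26_wN_1_rb80330622x13_28 : GoodKC AS k_wS_32_wQ_26_wN_1_rb80330622x13_28 := p_wS_32_wQ_26_wN_1_rb80330622x13_28 g__wS_32_wQ_26_wN_1_rb80330622x13_29 g__wS_32_wQ_26_wN_1_rb80330622x13_31

theorem g__wS_32_wQ_26_wN_1_rb80330622x13_27 : GoodKC AS k_wS_32_wQ_26_wN_1_rb80330622x13_27 := p_wS_32_wQ_26_wN_1_rb80330622x13_27 g__wS_32_wQ_26_wN_1_rb80330622x13_28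

theorem g__wS_32_wQ_26_wN_1_rb80330622x13_36 : GoodKC AS k_wS_32_wQ_26_wN_1_rb80330622x13_36 := p_wS_32_wQ_26_wN_1_rb80330622x13_36

theorem g__wS_32_wQ_26_wN_1_rb80330622x13_39 : GoodKC AS k_wS_32_wQ_26_wN_1_rb80330622x13_39 := p_wS_32_wQ_26_wN_1_rb80330622x13_39

theorem g__wS_32_wQ_26_wN_1_rb80330622x13_41 : GoodKC AS k_wS_32_wQ_26_wN_1_rb80330622x13_41 := p_wS_32_wQ_26_wN_1_rb80330622x13_41

theorem g__wS_32_wQ_26_wN_1_rb80330622x13_40 : GoodKC AS k_wS_32_wQ_26_wN_1_rb80330622x13_40 := p_wS_32_wQ_26_wN_1_rb80330622x13_40 g__wS_32_wQ_26_wN_1_rb80330622x13_41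

theorem g__wS_32_wQ_26_wN_1_rb80330622x13_38 : GoodKC AS k_wS_32_wQ_26_wN_1_rb80330622x13_38 := p_wS_32_wQ_26_wN_1_rb80330622x13_38 g__wS_32_wQ_26_wN_1_rb80330622x13_39 g__wS_32_wQ_26_wN_1_rb80330622x13_40

theorem g__wS_32_wQ_26_wN_1_rb80330622x13_37 : GoodKC AS k_wS_32_wQ_26_wN_1_rb80330622x13_37 := p_wS_32_wQ_26_wN_1_rb80330622x13_37 g__wS_32_wQ_26_wN_1_rb80330622x13_38

theorem g__wS_32_wQ_26_wN_1_rb80330622x13_35 : GoodKC AS k_wS_32_wQ_26_wN_1_rb80330622x13_35 := p_wS_32_wQ_26_wN_1_rb80330622x13_35 g__wS_32_wQ_26_wN_1_rb80330622x13_36 g__wS_32_wQ_26_wN_1_rb80330622x13_37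

theorem g__wS_32_wQ_26_wN_1_rb80330622x13_34 : GoodKC AS k_wS_32_wQ_26_wN_1_rb80330622x13_34 := p_wS_32_wQ_26_wN_1_rb80330622x13_34 g__wS_32_wQ_26_wN_1_rb80330622x13_35

theorem g__wS_32_wQ_26_wN_1_rb80330622x13_33 : GoodKC AS k_wS_32_wQ_26_wN_1_rb80330622x13_33 := p_wS_32_wQ_26_wN_1_rb80330622x13_33 g__wS_32_wQ_26_wN_1_rb80330622x13_34

theorem g__wS_32_wQ_26_wN_1_rb80330622x13_32 : GoodKC AS k_wS_32_wQ_26_wN_1_rb80330622x13_32 := p_wS_32_wQ_26_wN_1_rb80330622x13_32 g__wS_32_wQ_26_wN_1_rb80330622x13_33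

theorem g__wS_32_wQ_26_wN_1_rb80330622x13_26 : GoodKC AS k_wS_32_wQ_26_wN_1_rb80330622x13_26 := p_wS_32_wQ_26_wN_1_rb80330622x13_26 g__wS_32_wQ_26_wN_1_rb80330622x13_27 g__wS_32_wQ_26_wN_1_rb80330622x13_32

theorem g__wS_32_wQ_26_wN_1_rb80330622x13_24 : GoodKC AS k_wS_32_wQ_26_wN_1_rb80330622x13_24 := p_wS_32_wQ_26_wN_1_rb80330622x13_24 g__wS_32_wQ_26_wN_1_rb80330622x13_25 g__wS_32_wQ_26_wN_1_rb80330622x13_26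

theorem g__wS_32_wQ_26_wN_1_rb80330622x13_42 : GoodKC AS k_wS_32_wQ_26_wN_1_rb80330622x13_42 := p_wS_32_wQ_26_wN_1_rb80330622x13_42

theorem g__wS_32_wQ_26_wN_1_rb80330622x13_21 : GoodKC AS k_wS_32_wQ_26_wN_1_rb80330622x13_21 := p_wS_32_wQ_26_wN_1_rb80330622x13_21 g__wS_32_wQ_26_wN_1_rb80330622x13_22 g__wS_32_wQ_26_wN_1_rb80330622x13_23 g__wS_32_wQ_26_wN_1_rb80330622x13_24 g__wS_32_wQ_26_wN_1_rb80330622x13_42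

theorem g__wS_32_wQ_26_wN_1_rb80330622x13_43 : GoodKC AS k_wS_32_wQ_26_wN_1_rb80330622x13_43 := p_wS_32_wQ_26_wN_1_rb80330622x13_43

theorem g__wS_32_wQ_26_wN_1_rb80330622x13_18 : GoodKC AS k_wS_32_wQ_26_wN_1_rb80330622x13_18 := p_wS_32_wQ_26_wN_1_rb80330622x13_18 g__wS_32_wQ_26_wN_1_rb80330622x13_19 g__wS_32_wQ_26_wN_1_rb80330622x13_21 g__wS_32_wQ_26_wN_1_rb80330622x13_43

theorem g__wS_32_wQ_26_wN_1_rb80330622x13_14 : GoodKC AS k_wS_32_wQ_26_wN_1_rb80330622x13_14 := p_wS_32_wQ_26_wN_1_rb80330622x13_14 g__wS_32_wQ_26_wN_1_rb80330622x13_15 g__wS_32_wQ_26_wN_1_rb80330622x13_18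

theorem g_wS_32_wQ_26_wN_1_rb8033062247_d51_d1d : GoodKC AS c_wS_32_wQ_26_wN_1_rb8033062247_d51_d1d := p_wS_32_wQ_26_wN_1_rb8033062247_d51_d1d

theorem g_wS_32_wQ_26_wN_1_rb8033062247_d51_d1c : GoodKC AS c_wS_32_wQ_26_wN_1_rb8033062247_d51_d1c := p_wS_32_wQ_26_wN_1_rb8033062247_d51_d1c

theorem g_wS_32_wQ_26_wN_1_rb8033062247_d51_d1b : GoodKC AS c_wS_32_wQ_26_wN_1_rb8033062247_d51_d1b := p_wS_32_wQ_26_wN_1_rb8033062247_d51_d1b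

theorem g_wS_32_wQ_26_wN_1_rb8033062247_d51_d1a : GoodKC AS c_wS_32_wQ_26_wN_1_rb8033062247_d51_d1a := p_wS_32_wQ_26_wN_1_rb8033062247_d51_d1a

theorem g_wS_32_wQ_26_wN_1_rb8033062247_d51_d18 : GoodKC AS c_wS_32_wQ_26_wN_1_rb8033062247_d51_d18 := p_wS_32_wQ_26_wN_1_rb8033062247_d51_d18

theorem g_wS_32_wQ_26_wN_1_rb8033062247_d51_d17 : GoodKC AS c_wS_32_wQ_26_wN_1_rb8033062247_d51_d17 := p_wS_32_wQ_26_wN_1_rb8033062247_d51_d17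

theorem g_wS_32_wQ_26_wN_1_rb8033062247_d51_d14 : GoodKC AS c_wS_32_wQ_26_wN_1_rb8033062247_d51_d14 := p_wS_32_wQ_26_wN_1_rb8033062247_d51_d14

theorem g_wS_32_wQ_26_wN_1_rb8033062247_d51_d12 : GoodKC AS c_wS_32_wQ_26_wN_1_rb8033062247_d51_d12 := p_wS_32_wQ_26_wN_1_rb8033062247_d51_d12

theorem g_wS_32_wQ_26_wN_1_rb8033062247_d51_d0f : GoodKC AS c_wS_32_wQ_26_wN_1_rb8033062247_d51_d0f := p_wS_32_wQ_26_wN_1_rb8033062247_d51_d0f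

theorem g_wS_32_wQ_26_wN_1_rb8033062247_d51_d0e : GoodKC AS c_wS_32_wQ_26_wN_1_rb8033062247_d51_d0e := p_wS_32_wQ_26_wN_1_rb8033062247_d51_d0e

theorem g_wS_32_wQ_26_wN_1_rb8033062247_d51_d0d : GoodKC AS c_wS_32_wQ_26_wN_1_rb8033062247_d51_d0d := p_wS_32_wQ_26_wN_1_rb8033062247_d51_d0d

theorem g_wS_32_wQ_26_wN_1_rb8033062247_d51_d0b : GoodKC AS c_wS_32_wQ_26_wN_1_rb8033062247_d51_d0b := p_wS_32_wQ_26_wN_1_rb8033062247_d51_d0b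

theorem g_wS_32_wQ_26_wN_1_rb8033062247_d51_d0a : GoodKC AS c_wS_32_wQ_26_wN_1_rb8033062247_d51_d0a := p_wS_32_wQ_26_wN_1_rb8033062247_d51_d0a

theorem g_wS_32_wQ_26_wN_1_rb8033062247_d51_d08 : GoodKC AS c_wS_32_wQ_26_wN_1_rb8033062247_d51_d08 := p_wS_32_wQ_26_wN_1_rb8033062247_d51_d08

theorem g__wS_32_wQ_26_wN_1_rb8033062247_0 : GoodKC AS k_wS_32_wQ_26_wN_1_rb8033062247_0 := p_wS_32_wQ_26_wN_1_rb8033062247_0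

theorem g_wS_32_wQ_26_wN_1_rb8033062247_d51_d05 : GoodKC AS c_wS_32_wQ_26_wN_1_rb8033062247_d51_d05 := p_wS_32_wQ_26_wN_1_rb8033062247_d51_d05

theorem g_wS_32_wQ_26_wN_1_rb8033062247_d51_d04 : GoodKC AS c_wS_32_wQ_26_wN_1_rb8033062247_d51_d04 := p_wS_32_wQ_26_wN_1_rb8033062247_d51_d04

theorem g__wS_32_wQ_26_wN_1_rb8033062247_d51_d00_2 : GoodKC AS k_wS_32_wQ_26_wN_1_rb8033062247_d51_d00_2 := p_wS_32_wQ_26_wN_1_rb8033062247_d51_d00_2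

theorem g__wS_32_wQ_26_wN_1_rb8033062247_d51_d00_4 : GoodKC AS k_wS_32_wQ_26_wN_1_rb8033062247_d51_d00_4 := p_wS_32_wQ_26_wN_1_rb8033062247_d51_d00_4

theorem g__wS_32_wQ_26_wN_1_rb8033062247_d51_d00_3 : GoodKC AS k_wS_32_wQ_26_wN_1_rb8033062247_d51_d00_3 := p_wS_32_wQ_26_wN_1_rb8033062247_d51_d00_3 g__wS_32_wQ_26_wN_1_rb8033062247_d51_d00_4

theorem g__wS_32_wQ_26_wN_1_rb8033062247_d51_d00_1 : GoodKC AS k_wS_32_wQ_26_wN_1_rb8033062247_d51_d00_1 := p_wS_32_wQ_26_wN_1_rb8033062247_d51_d00_1 g__wS_32_wQ_26_wN_1_rb8033062247_d51_d00_2 g__wS_32_wQ_26_wN_1_rb8033062247_d51_d00_3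

theorem g__wS_32_wQ_26_wN_1_rb8033062247_d51_d00_5 : GoodKC AS k_wS_32_wQ_26_wN_1_rb8033062247_d51_d00_5 := p_wS_32_wQ_26_wN_1_rb8033062247_d51_d00_5

theorem g__wS_32_wQ_26_wN_1_rb8033062247_d51_d00_0 : GoodKC AS k_wS_32_wQ_26_wN_1_rb8033062247_d51_d00_0 := p_wS_32_wQ_26_wN_1_rb8033062247_d51_d00_0 g__wS_32_wQ_26_wN_1_rb8033062247_d51_d00_1 g__wS_32_wQ_26_wN_1_rb8033062247_d51_d00_5

theorem g_wS_32_wQ_26_wN_1_rb8033062247_d51_d00 : GoodKC AS c_wS_32_wQ_26_wN_1_rb8033062247_d51_d00 := p_wS_32_wQ_26_wN_1_rb8033062247_d51_d00 g__wS_32_wQ_26_wN_1_rb8033062247_d51_d00_0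

theorem g_wS_32_wQ_26_wN_1_rb8033062247_d51_d01 : GoodKC AS c_wS_32_wQ_26_wN_1_rb8033062247_d51_d01 := p_wS_32_wQ_26_wN_1_rb8033062247_d51_d01

theorem g_wS_32_wQ_26_wN_1_rb8033062247_d51_d02 : GoodKC AS c_wS_32_wQ_26_wN_1_rb8033062247_d51_d02 := p_wS_32_wQ_26_wN_1_rb8033062247_d51_d02

theorem g_wS_32_wQ_26_wN_1_rb8033062247_d51_d03 : GoodKC AS c_wS_32_wQ_26_wN_1_rb8033062247_d51_d03 := p_wS_32_wQ_26_wN_1_rb8033062247_d51_d03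

theorem g_wS_32_wQ_26_wN_1_rb8033062247_d51_d06 : GoodKC AS c_wS_32_wQ_26_wN_1_rb8033062247_d51_d06 := p_wS_32_wQ_26_wN_1_rb8033062247_d51_d06

theorem g_wS_32_wQ_26_wN_1_rb8033062247_d51_d07 : GoodKC AS c_wS_32_wQ_26_wN_1_rb8033062247_d51_d07 := p_wS_32_wQ_26_wN_1_rb8033062247_d51_d07

theorem g_wS_32_wQ_26_wN_1_rb8033062247_d51_d09 : GoodKC AS c_wS_32_wQ_26_wN_1_rb8033062247_d51_d09 := p_wS_32_wQ_26_wN_1_rb8033062247_d51_d09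

theorem g_wS_32_wQ_26_wN_1_rb8033062247_d51_d0c : GoodKC AS c_wS_32_wQ_26_wN_1_rb8033062247_d51_d0c := p_wS_32_wQ_26_wN_1_rb8033062247_d51_d0c

theorem g__wS_32_wQ_26_wN_1_rb8033062247_d51_d10_1 : GoodKC AS k_wS_32_wQ_26_wN_1_rb8033062247_d51_d10_1 := p_wS_32_wQ_26_wN_1_rb8033062247_d51_d10_1

theorem g__wS_32_wQ_26_wN_1_rb8033062247_d51_d10_2 : GoodKC AS k_wS_32_wQ_26_wN_1_rb8033062247_d51_d10_2 := p_wS_32_wQ_26_wN_1_rb8033062247_d51_d10_2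

theorem g__wS_32_wQ_26_wN_1_rb8033062247_d51_d10_5 : GoodKC AS k_wS_32_wQ_26_wN_1_rb8033062247_d51_d10_5 := p_wS_32_wQ_26_wN_1_rb8033062247_d51_d10_5

theorem g__wS_32_wQ_26_wN_1_rb8033062247_d51_d10_4 : GoodKC AS k_wS_32_wQ_26_wN_1_rb8033062247_d51_d10_4 := p_wS_32_wQ_26_wN_1_rb8033062247_d51_d10_4 g__wS_32_wQ_26_wN_1_rb8033062247_d51_d10_5

theorem g__wS_32_wQ_26_wN_1_rb8033062247_d51_d10_3 : GoodKC AS k_wS_32_wQ_26_wN_1_rb8033062247_d51_d10_3 := p_wS_32_wQ_26_wN_1_rb8033062247_d51_d10_3 g__wS_32_wQ_26_wN_1_rb8033062247_d51_d10_4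

theorem g__wS_32_wQ_26_wN_1_rb8033062247_d51_d10_0 : GoodKC AS k_wS_32_wQ_26_wN_1_rb8033062247_d51_d10_0 := p_wS_32_wQ_26_wN_1_rb8033062247_d51_d10_0 g__wS_32_wQ_26_wN_1_rb8033062247_d51_d10_1 g__wS_32_wQ_26_wN_1_rb8033062247_d51_d10_2 g__wS_32_wQ_26_wN_1_rb8033062247_d51_d10_3

theorem g__wS_32_wQ_26_wN_1_rb8033062247_d51_d10_6 : GoodKC AS k_wS_32_wQ_26_wN_1_rb8033062247_d51_d10_6 := p_wS_32_wQ_26_wN_1_rb8033062247_d51_d10_6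

theorem g_wS_32_wQ_26_wN_1_rb8033062247_d51_d10 : GoodKC AS c_wS_32_wQ_26_wN_1_rb8033062247_d51_d10 := p_wS_32_wQ_26_wN_1_rb8033062247_d51_d10 g__wS_32_wQ_26_wN_1_rb8033062247_d51_d10_0 g__wS_32_wQ_26_wN_1_rb8033062247_d51_d10_6

theorem g__wS_32_wQ_26_wN_1_rb8033062247_d51_d11_3 : GoodKC AS k_wS_32_wQ_26_wN_1_rb8033062247_d51_d11_3 := p_wS_32_wQ_26_wN_1_rb8033062247_d51_d11_3

theorem g__wS_32_wQ_26_wN_1_rb8033062247_d51_d11_5 : GoodKC AS k_wS_32_wQ_26_wN_1_rb8033062247_d51_d11_5 := p_wS_32_wQ_26_wN_1_rb8033062247_d51_d11_5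

theorem g__wS_32_wQ_26_wN_1_rb8033062247_d51_d11_4 : GoodKC AS k_wS_32_wQ_26_wN_1_rb8033062247_d51_d11_4 := p_wS_32_wQ_26_wN_1_rb8033062247_d51_d11_4 g__wS_32_wQ_26_wN_1_rb8033062247_d51_d11_5

theorem g__wS_32_wQ_26_wN_1_rb8033062247_d51_d11_2 : GoodKC AS k_wS_32_wQ_26_wN_1_rb8033062247_d51_d11_2 := p_wS_32_wQ_26_wN_1_rb8033062247_d51_d11_2 g__wS_32_wQ_26_wN_1_rb8033062247_d51_d11_3 g__wS_32_wQ_26_wN_1_rb8033062247_d51_d11_4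

theorem g__wS_32_wQ_26_wN_1_rb8033062247_d51_d11_8 : GoodKC AS k_wS_32_wQ_26_wN_1_rb8033062247_d51_d11_8 := p_wS_32_wQ_26_wN_1_rb8033062247_d51_d11_8

theorem g__wS_32_wQ_26_wN_1_rb8033062247_d51_d11_7 : GoodKC AS k_wS_32_wQ_26_wN_1_rb8033062247_d51_d11_7 := p_wS_32_wQ_26_wN_1_rb8033062247_d51_d11_7 g__wS_32_wQ_26_wN_1_rb8033062247_d51_d11_8

theorem g__wS_32_wQ_26_wN_1_rb8033062247_d51_d11_6 : GoodKC AS k_wS_32_wQ_26_wN_1_rb8033062247_d51_d11_6 := p_wS_32_wQ_26_wN_1_rb8033062247_d51_d11_6 g__wS_32_wQ_26_wN_1_rb8033062247_d51_d11_7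

theorem g__wS_32_wQ_26_wN_1_rb8033062247_d51_d11_9 : GoodKC AS k_wS_32_wQ_26_wN_1_rb8033062247_d51_d11_9 := p_wS_32_wQ_26_wN_1_rb8033062247_d51_d11_9

theorem g__wS_32_wQ_26_wN_1_rb8033062247_d51_d11_1 : GoodKC AS k_wS_32_wQ_26_wN_1_rb8033062247_d51_d11_1 := p_wS_32_wQ_26_wN_1_rb8033062247_d51_d11_1 g__wS_32_wQ_26_wN_1_rb8033062247_d51_d11_2 g__wS_32_wQ_26_wN_1_rb8033062247_d51_d11_6 g__wS_32_wQ_26_wN_1_rb8033062247_d51_d11_9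

theorem g__wS_32_wQ_26_wN_1_rb8033062247_d51_d11_11 : GoodKC AS k_wS_32_wQ_26_wN_1_rb8033062247_d51_d11_11 := p_wS_32_wQ_26_wN_1_rb8033062247_d51_d11_11

theorem g__wS_32_wQ_26_wN_1_rb8033062247_d51_d11_10 : GoodKC AS k_wS_32_wQ_26_wN_1_rb8033062247_d51_d11_10 := p_wS_32_wQ_26_wN_1_rb8033062247_d51_d11_10 g__wS_32_wQ_26_wN_1_rb8033062247_d51_d11_11

theorem g__wS_32_wQ_26_wN_1_rb8033062247_d51_d11_0 : GoodKC AS k_wS_32_wQ_26_wN_1_rb8033062247_d51_d11_0 := p_wS_32_wQ_26_wN_1_rb8033062247_d51_d11_0 g__wS_32_wQ_26_wN_1_rb8033062247_d51_d11_1 g__wS_32_wQ_26_wN_1_rb8033062247_d51_d11_10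

theorem g_wS_32_wQ_26_wN_1_rb8033062247_d51_d11 : GoodKC AS c_wS_32_wQ_26_wN_1_rb8033062247_d51_d11 := p_wS_32_wQ_26_wN_1_rb8033062247_d51_d11 g__wS_32_wQ_26_wN_1_rb8033062247_d51_d11_0

theorem g_wS_32_wQ_26_wN_1_rb8033062247_d51_d13 : GoodKC AS c_wS_32_wQ_26_wN_1_rb8033062247_d51_d13 := p_wS_32_wQ_26_wN_1_rb8033062247_d51_d13

theorem g__wS_32_wQ_26_wN_1_rb8033062247_d51_d1521_0 : GoodKC AS k_wS_32_wQ_26_wN_1_rb8033062247_d51_d1521_0 := p_wS_32_wQ_26_wN_1_rb8033062247_d51_d1521_0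

theorem g_wS_32_wQ_26_wN_1_rb8033062247_d51_d1521 : GoodKC AS c_wS_32_wQ_26_wN_1_rb8033062247_d51_d1521 := p_wS_32_wQ_26_wN_1_rb8033062247_d51_d1521 g__wS_32_wQ_26_wN_1_rb8033062247_d51_d1521_0

theorem g__wS_32_wQ_26_wN_1_rb8033062247_d51_d151f_2 : GoodKC AS k_wS_32_wQ_26_wN_1_rb8033062247_d51_d151f_2 := p_wS_32_wQ_26_wN_1_rb8033062247_d51_d151f_2

theorem g__wS_32_wQ_26_wN_1_rb8033062247_d51_d151f_3 : GoodKC AS k_wS_32_wQ_26_wN_1_rb8033062247_d51_d151f_3 := p_wS_32_wQ_26_wN_1_rb8033062247_d51_d151f_3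

theorem g__wS_32_wQ_26_wN_1_rb8033062247_d51_d151f_1 : GoodKC AS k_wS_32_wQ_26_wN_1_rb8033062247_d51_d151f_1 := p_wS_32_wQ_26_wN_1_rb8033062247_d51_d151f_1 g__wS_32_wQ_26_wN_1_rb8033062247_d51_d151f_2 g__wS_32_wQ_26_wN_1_rb8033062247_d51_d151f_3

theorem g__wS_32_wQ_26_wN_1_rb8033062247_d51_d151f_0 : GoodKC AS k_wS_32_wQ_26_wN_1_rb8033062247_d51_d151f_0 := p_wS_32_wQ_26_wN_1_rb8033062247_d51_d151f_0 g__wS_32_wQ_26_wN_1_rb8033062247_d51_d151f_1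

theorem g_wS_32_wQ_26_wN_1_rb8033062247_d51_d151f : GoodKC AS c_wS_32_wQ_26_wN_1_rb8033062247_d51_d151f := p_wS_32_wQ_26_wN_1_rb8033062247_d51_d151f g__wS_32_wQ_26_wN_1_rb8033062247_d51_d151f_0

theorem g_wS_32_wQ_26_wN_1_rb8033062247_d51_d151e : GoodKC AS c_wS_32_wQ_26_wN_1_rb8033062247_d51_d151e := p_wS_32_wQ_26_wN_1_rb8033062247_d51_d151e

theorem g__wS_32_wQ_26_wN_1_rb8033062247_d51_d151d_6 : GoodKC AS k_wS_32_wQ_26_wN_1_rb8033062247_d51_d151d_6 := p_wS_32_wQ_26_wN_1_rb8033062247_d51_d151d_6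

theorem g__wS_32_wQ_26_wN_1_rb8033062247_d51_d151d_7 : GoodKC AS k_wS_32_wQ_26_wN_1_rb8033062247_d51_d151d_7 := p_wS_32_wQ_26_wN_1_rb8033062247_d51_d151d_7

theorem g__wS_32_wQ_26_wN_1_rb8033062247_d51_d151d_5 : GoodKC AS k_wS_32_wQ_26_wN_1_rb8033062247_d51_d151d_5 := p_wS_32_wQ_26_wN_1_rb8033062247_d51_d151d_5 g__wS_32_wQ_26_wN_1_rb8033062247_d51_d151d_6 g__wS_32_wQ_26_wN_1_rb8033062247_d51_d151d_7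

theorem g__wS_32_wQ_26_wN_1_rb8033062247_d51_d151d_4 : GoodKC AS k_wS_32_wQ_26_wN_1_rb8033062247_d51_d151d_4 := p_wS_32_wQ_26_wN_1_rb8033062247_d51_d151d_4 g__wS_32_wQ_26_wN_1_rb8033062247_d51_d151d_5

theorem g__wS_32_wQ_26_wN_1_rb8033062247_d51_d151d_3 : GoodKC AS k_wS_32_wQ_26_wN_1_rb8033062247_d51_d151d_3 := p_wS_32_wQ_26_wN_1_rb8033062247_d51_d151d_3 g__wS_32_wQ_26_wN_1_rb8033062247_d51_d151d_4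

theorem g__wS_32_wQ_26_wN_1_rb8033062247_d51_d151d_2 : GoodKC AS k_wS_32_wQ_26_wN_1_rb8033062247_d51_d151d_2 := p_wS_32_wQ_26_wN_1_rb8033062247_d51_d151d_2 g__wS_32_wQ_26_wN_1_rb8033062247_d51_d151d_3

theorem g__wS_32_wQ_26_wN_1_rb8033062247_d51_d151d_1 : GoodKC AS k_wS_32_wQ_26_wN_1_rb8033062247_d51_d151d_1 := p_wS_32_wQ_26_wN_1_rb8033062247_d51_d151d_1 g__wS_32_wQ_26_wN_1_rb8033062247_d51_d151d_2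

theorem g__wS_32_wQ_26_wN_1_rb8033062247_d51_d151d_9 : GoodKC AS k_wS_32_wQ_26_wN_1_rb8033062247_d51_d151d_9 := p_wS_32_wQ_26_wN_1_rb8033062247_d51_d151d_9

theorem g__wS_32_wQ_26_wN_1_rb8033062247_d51_d151d_12 : GoodKC AS k_wS_32_wQ_26_wN_1_rb8033062247_d51_d151d_12 := p_wS_32_wQ_26_wN_1_rb8033062247_d51_d151d_12

theorem g__wS_32_wQ_26_wN_1_rb8033062247_d51_d151d_14 : GoodKC AS k_wS_32_wQ_26_wN_1_rb8033062247_d51_d151d_14 := p_wS_32_wQ_26_wN_1_rb8033062247_d51_d151d_14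

theorem g__wS_32_wQ_26_wN_1_rb8033062247_d51_d151d_15 : GoodKC AS k_wS_32_wQ_26_wN_1_rb8033062247_d51_d151d_15 := p_wS_32_wQ_26_wN_1_rb8033062247_d51_d151d_15

theorem g__wS_32_wQ_26_wN_1_rb8033062247_d51_d151d_13 : GoodKC AS k_wS_32_wQ_26_wN_1_rb8033062247_d51_d151d_13 := p_wS_32_wQ_26_wN_1_rb8033062247_d51_d151d_13 g__wS_32_wQ_26_wN_1_rb8033062247_d51_d151d_14 g__wS_32_wQ_26_wN_1_rb8033062247_d51_d151d_15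

theorem g__wS_32_wQ_26_wN_1_rb8033062247_d51_d151d_11 : GoodKC AS k_wS_32_wQ_26_wN_1_rb8033062247_d51_d151d_11 := p_wS_32_wQ_26_wN_1_rb8033062247_d51_d151d_11 g__wS_32_wQ_26_wN_1_rb8033062247_d51_d151d_12 g__wS_32_wQ_26_wN_1_rb8033062247_d51_d151d_13

theorem g__wS_32_wQ_26_wN_1_rb8033062247_d51_d151d_17 : GoodKC AS k_wS_32_wQ_26_wN_1_rb8033062247_d51_d151d_17 := p_wS_32_wQ_26_wN_1_rb8033062247_d51_d151d_17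

theorem g__wS_32_wQ_26_wN_1_rb8033062247_d51_d151d_16 : GoodKC AS k_wS_32_wQ_26_wN_1_rb8033062247_d51_d151d_16 := p_wS_32_wQ_26_wN_1_rb8033062247_d51_d151d_16 g__wS_32_wQ_26_wN_1_rb8033062247_d51_d151d_17

theorem g__wS_32_wQ_26_wN_1_rb8033062247_d51_d151d_10 : GoodKC AS k_wS_32_wQ_26_wN_1_rb8033062247_d51_d151d_10 := p_wS_32_wQ_26_wN_1_rb8033062247_d51_d151d_10 g__wS_32_wQ_26_wN_1_rb8033062247_d51_d151d_11 g__wS_32_wQ_26_wN_1_rb8033062247_d51_d151d_16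

theorem g__wS_32_wQ_26_wN_1_rb8033062247_d51_d151d_8 : GoodKC AS k_wS_32_wQ_26_wN_1_rb8033062247_d51_d151d_8 := p_wS_32_wQ_26_wN_1_rb8033062247_d51_d151d_8 g__wS_32_wQ_26_wN_1_rb8033062247_d51_d151d_9 g__wS_32_wQ_26_wN_1_rb8033062247_d51_d151d_10

theorem g__wS_32_wQ_26_wN_1_rb8033062247_d51_d151d_0 : GoodKC AS k_wS_32_wQ_26_wN_1_rb8033062247_d51_d151d_0 := p_wS_32_wQ_26_wN_1_rb8033062247_d51_d151d_0 g__wS_32_wQ_26_wN_1_rb8033062247_d51_d151d_1 g__wS_32_wQ_26_wN_1_rb8033062247_d51_d151d_8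

theorem g_wS_32_wQ_26_wN_1_rb8033062247_d51_d151d : GoodKC AS c_wS_32_wQ_26_wN_1_rb8033062247_d51_d151d := p_wS_32_wQ_26_wN_1_rb8033062247_d51_d151d g__wS_32_wQ_26_wN_1_rb8033062247_d51_d151d_0

theorem g_wS_32_wQ_26_wN_1_rb8033062247_d51_d151b : GoodKC AS c_wS_32_wQ_26_wN_1_rb8033062247_d51_d151b := p_wS_32_wQ_26_wN_1_rb8033062247_d51_d151b

theorem g_wS_32_wQ_26_wN_1_rb8033062247_d51_d151a : GoodKC AS c_wS_32_wQ_26_wN_1_rb8033062247_d51_d151a := p_wS_32_wQ_26_wN_1_rb8033062247_d51_d151a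

theorem g_wS_32_wQ_26_wN_1_rb8033062247_d51_d1518 : GoodKC AS c_wS_32_wQ_26_wN_1_rb8033062247_d51_d1518 := p_wS_32_wQ_26_wN_1_rb8033062247_d51_d1518

theorem g_wS_32_wQ_26_wN_1_rb8033062247_d51_d1516 : GoodKC AS c_wS_32_wQ_26_wN_1_rb8033062247_d51_d1516 := p_wS_32_wQ_26_wN_1_rb8033062247_d51_d1516

theorem g__wS_32_wQ_26_wN_1_rb8033062247_d51_d1515_0 : GoodKC AS k_wS_32_wQ_26_wN_1_rb8033062247_d51_d1515_0 := p_wS_32_wQ_26_wN_1_rb8033062247_d51_d1515_0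

theorem g_wS_32_wQ_26_wN_1_rb8033062247_d51_d1515 : GoodKC AS c_wS_32_wQ_26_wN_1_rb8033062247_d51_d1515 := p_wS_32_wQ_26_wN_1_rb8033062247_d51_d1515 g__wS_32_wQ_26_wN_1_rb8033062247_d51_d1515_0

theorem g_wS_32_wQ_26_wN_1_rb8033062247_d51_d1514 : GoodKC AS c_wS_32_wQ_26_wN_1_rb8033062247_d51_d1514 := p_wS_32_wQ_26_wN_1_rb8033062247_d51_d1514

theorem g_wS_32_wQ_26_wN_1_rb8033062247_d51_d1513 : GoodKC AS c_wS_32_wQ_26_wN_1_rb8033062247_d51_d1513 := p_wS_32_wQ_26_wN_1_rb8033062247_d51_d1513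

theorem g_wS_32_wQ_26_wN_1_rb8033062247_d51_d1512 : GoodKC AS c_wS_32_wQ_26_wN_1_rb8033062247_d51_d1512 := p_wS_32_wQ_26_wN_1_rb8033062247_d51_d1512

theorem g_wS_32_wQ_26_wN_1_rb8033062247_d51_d150d : GoodKC AS c_wS_32_wQ_26_wN_1_rb8033062247_d51_d150d := p_wS_32_wQ_26_wN_1_rb8033062247_d51_d150d

theorem g_wS_32_wQ_26_wN_1_rb8033062247_d51_d150c : GoodKC AS c_wS_32_wQ_26_wN_1_rb8033062247_d51_d150c := p_wS_32_wQ_26_wN_1_rb8033062247_d51_d150c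

theorem g_wS_32_wQ_26_wN_1_rb8033062247_d51_d150b : GoodKC AS c_wS_32_wQ_26_wN_1_rb8033062247_d51_d150b := p_wS_32_wQ_26_wN_1_rb8033062247_d51_d150b

theorem g_wS_32_wQ_26_wN_1_rb8033062247_d51_d1509 : GoodKC AS c_wS_32_wQ_26_wN_1_rb8033062247_d51_d1509 := p_wS_32_wQ_26_wN_1_rb8033062247_d51_d1509

theorem g_wS_32_wQ_26_wN_1_rb8033062247_d51_d1508 : GoodKC AS c_wS_32_wQ_26_wN_1_rb8033062247_d51_d1508 := p_wS_32_wQ_26_wN_1_rb8033062247_d51_d1508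

theorem g_wS_32_wQ_26_wN_1_rb8033062247_d51_d1507 : GoodKC AS c_wS_32_wQ_26_wN_1_rb8033062247_d51_d1507 := p_wS_32_wQ_26_wN_1_rb8033062247_d51_d1507

theorem g__wS_32_wQ_26_wN_1_rb8033062247_d51_d15_3 : GoodKC AS k_wS_32_wQ_26_wN_1_rb8033062247_d51_d15_3 := p_wS_32_wQ_26_wN_1_rb8033062247_d51_d15_3

theorem g__wS_32_wQ_26_wN_1_rb8033062247_d51_d15_2 : GoodKC AS k_wS_32_wQ_26_wN_1_rb8033062247_d51_d15_2 := p_wS_32_wQ_26_wN_1_rb8033062247_d51_d15_2 g__wS_32_wQ_26_wN_1_rb8033062247_d51_d15_3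

theorem g__wS_32_wQ_26_wN_1_rb8033062247_d51_d15_1 : GoodKC AS k_wS_32_wQ_26_wN_1_rb8033062247_d51_d15_1 := p_wS_32_wQ_26_wN_1_rb8033062247_d51_d15_1 g__wS_32_wQ_26_wN_1_rb8033062247_d51_d15_2

theorem g_wS_32_wQ_26_wN_1_rb8033062247_d51_d1506 : GoodKC AS c_wS_32_wQ_26_wN_1_rb8033062247_d51_d1506 := p_wS_32_wQ_26_wN_1_rb8033062247_d51_d1506

theorem g_wS_32_wQ_26_wN_1_rb8033062247_d51_d1505 : GoodKC AS c_wS_32_wQ_26_wN_1_rb8033062247_d51_d1505 := p_wS_32_wQ_26_wN_1_rb8033062247_d51_d1505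

theorem g_wS_32_wQ_26_wN_1_rb8033062247_d51_d1503 : GoodKC AS c_wS_32_wQ_26_wN_1_rb8033062247_d51_d1503 := p_wS_32_wQ_26_wN_1_rb8033062247_d51_d1503

theorem g_wS_32_wQ_26_wN_1_rb8033062247_d51_d1501 : GoodKC AS c_wS_32_wQ_26_wN_1_rb8033062247_d51_d1501 := p_wS_32_wQ_26_wN_1_rb8033062247_d51_d1501

theorem g_wS_32_wQ_26_wN_1_rb8033062247_d51_d1500 : GoodKC AS c_wS_32_wQ_26_wN_1_rb8033062247_d51_d1500 := p_wS_32_wQ_26_wN_1_rb8033062247_d51_d1500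

theorem g_wS_32_wQ_26_wN_1_rb8033062247_d51_d1502 : GoodKC AS c_wS_32_wQ_26_wN_1_rb8033062247_d51_d1502 := p_wS_32_wQ_26_wN_1_rb8033062247_d51_d1502

theorem g_wS_32_wQ_26_wN_1_rb8033062247_d51_d1504 : GoodKC AS c_wS_32_wQ_26_wN_1_rb8033062247_d51_d1504 := p_wS_32_wQ_26_wN_1_rb8033062247_d51_d1504

theorem g_wS_32_wQ_26_wN_1_rb8033062247_d51_d150a : GoodKC AS c_wS_32_wQ_26_wN_1_rb8033062247_d51_d150a := p_wS_32_wQ_26_wN_1_rb8033062247_d51_d150a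

theorem g__wS_32_wQ_26_wN_1_rb8033062247_d51_d15_0 : GoodKC AS k_wS_32_wQ_26_wN_1_rb8033062247_d51_d15_0 := p_wS_32_wQ_26_wN_1_rb8033062247_d51_d15_0 g_wS_32_wQ_26_wN_1_rb8033062247_d51_d150b g_wS_32_wQ_26_wN_1_rb8033062247_d51_d1509 g_wS_32_wQ_26_wN_1_rb8033062247_d51_d1508 g_wS_32_wQ_26_wN_1_rb8033062247_d51_d1507 g__wS_32_wQ_26_wN_1_rb8033062247_d51_d15_1 g_wS_32_wQ_26_wN_1_rb8033062247_d51_d1506 g_wS_32_wQ_26_wN_1_rb8033062247_d51_d1505 g_wS_32_wQ_26_wN_1_rb8033062247_d51_d1503 g_wS_32_wQ_26_wN_1_rb8033062247_d51_d1501 g_wS_32_wQ_26_wN_1_rb8033062247_d51_d1500 g_wS_32_wQ_26_wN_1_rb8033062247_d51_d1502 g_wS_32_wQ_26_wN_1_rb8033062247_d51_d1504 g_wS_32_wQ_26_wN_1_rb8033062247_d51_d150a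

theorem g__wS_32_wQ_26_wN_1_rb8033062247_d51_d15_4 : GoodKC AS k_wS_32_wQ_26_wN_1_rb8033062247_d51_d15_4 := p_wS_32_wQ_26_wN_1_rb8033062247_d51_d15_4

theorem g_wS_32_wQ_26_wN_1_rb8033062247_d51_d150e : GoodKC AS c_wS_32_wQ_26_wN_1_rb8033062247_d51_d150e := p_wS_32_wQ_26_wN_1_rb8033062247_d51_d150e

theorem g_wS_32_wQ_26_wN_1_rb8033062247_d51_d150f : GoodKC AS c_wS_32_wQ_26_wN_1_rb8033062247_d51_d150f := p_wS_32_wQ_26_wN_1_rb8033062247_d51_d150f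

theorem g_wS_32_wQ_26_wN_1_rb8033062247_d51_d1510 : GoodKC AS c_wS_32_wQ_26_wN_1_rb8033062247_d51_d1510 := p_wS_32_wQ_26_wN_1_rb8033062247_d51_d1510

theorem g_wS_32_wQ_26_wN_1_rb8033062247_d51_d1511 : GoodKC AS c_wS_32_wQ_26_wN_1_rb8033062247_d51_d1511 := p_wS_32_wQ_26_wN_1_rb8033062247_d51_d1511

theorem g_wS_32_wQ_26_wN_1_rb8033062247_d51_d1517 : GoodKC AS c_wS_32_wQ_26_wN_1_rb8033062247_d51_d1517 := p_wS_32_wQ_26_wN_1_rb8033062247_d51_d1517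

theorem g_wS_32_wQ_26_wN_1_rb8033062247_d51_d1519 : GoodKC AS c_wS_32_wQ_26_wN_1_rb8033062247_d51_d1519 := p_wS_32_wQ_26_wN_1_rb8033062247_d51_d1519

theorem g__wS_32_wQ_26_wN_1_rb8033062247_d51_d15_14 : GoodKC AS k_wS_32_wQ_26_wN_1_rb8033062247_d51_d15_14 := p_wS_32_wQ_26_wN_1_rb8033062247_d51_d15_14

theorem g__wS_32_wQ_26_wN_1_rb8033062247_d51_d15_13 : GoodKC AS k_wS_32_wQ_26_wN_1_rb8033062247_d51_d15_13 := p_wS_32_wQ_26_wN_1_rb8033062247_d51_d15_13 g__wS_32_wQ_26_wN_1_rb8033062247_d51_d15_14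

theorem g__wS_32_wQ_26_wN_1_rb8033062247_d51_d15_12 : GoodKC AS k_wS_32_wQ_26_wN_1_rb8033062247_d51_d15_12 := p_wS_32_wQ_26_wN_1_rb8033062247_d51_d15_12 g__wS_32_wQ_26_wN_1_rb8033062247_d51_d15_13

theorem g__wS_32_wQ_26_wN_1_rb8033062247_d51_d15_11 : GoodKC AS k_wS_32_wQ_26_wN_1_rb8033062247_d51_d15_11 := p_wS_32_wQ_26_wN_1_rb8033062247_d51_d15_11 g__wS_32_wQ_26_wN_1_rb8033062247_d51_d15_12

theorem g__wS_32_wQ_26_wN_1_rb8033062247_d51_d15_10 : GoodKC AS k_wS_32_wQ_26_wN_1_rb8033062247_d51_d15_10 := p_wS_32_wQ_26_wN_1_rb8033062247_d51_d15_10 g__wS_32_wQ_26_wN_1_rb8033062247_d51_d15_11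

theorem g__wS_32_wQ_26_wN_1_rb8033062247_d51_d15_9 : GoodKC AS k_wS_32_wQ_26_wN_1_rb8033062247_d51_d15_9 := p_wS_32_wQ_26_wN_1_rb8033062247_d51_d15_9 g__wS_32_wQ_26_wN_1_rb8033062247_d51_d15_10

theorem g__wS_32_wQ_26_wN_1_rb8033062247_d51_d15_8 : GoodKC AS k_wS_32_wQ_26_wN_1_rb8033062247_d51_d15_8 := p_wS_32_wQ_26_wN_1_rb8033062247_d51_d15_8 g__wS_32_wQ_26_wN_1_rb8033062247_d51_d15_9

theorem g__wS_32_wQ_26_wN_1_rb8033062247_d51_d15_7 : GoodKC AS k_wS_32_wQ_26_wN_1_rb8033062247_d51_d15_7 := p_wS_32_wQ_26_wN_1_rb8033062247_d51_d15_7 g__wS_32_wQ_26_wN_1_rb8033062247_d51_d15_8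

theorem g__wS_32_wQ_26_wN_1_rb8033062247_d51_d15_16 : GoodKC AS k_wS_32_wQ_26_wN_1_rb8033062247_d51_d15_16 := p_wS_32_wQ_26_wN_1_rb8033062247_d51_d15_16

theorem g__wS_32_wQ_26_wN_1_rb8033062247_d51_d15_15 : GoodKC AS k_wS_32_wQ_26_wN_1_rb8033062247_d51_d15_15 := p_wS_32_wQ_26_wN_1_rb8033062247_d51_d15_15 g__wS_32_wQ_26_wN_1_rb8033062247_d51_d15_16

theorem g__wS_32_wQ_26_wN_1_rb8033062247_d51_d15_6 : GoodKC AS k_wS_32_wQ_26_wN_1_rb8033062247_d51_d15_6 := p_wS_32_wQ_26_wN_1_rb8033062247_d51_d15_6 g__wS_32_wQ_26_wN_1_rb8033062247_d51_d15_7 g__wS_32_wQ_26_wN_1_rb8033062247_d51_d15_15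

theorem g__wS_32_wQ_26_wN_1_rb8033062247_d51_d15_5 : GoodKC AS k_wS_32_wQ_26_wN_1_rb8033062247_d51_d15_5 := p_wS_32_wQ_26_wN_1_rb8033062247_d51_d15_5 g__wS_32_wQ_26_wN_1_rb8033062247_d51_d15_6

theorem g__wS_32_wQ_26_wN_1_rb8033062247_d51_d15_17 : GoodKC AS k_wS_32_wQ_26_wN_1_rb8033062247_d51_d15_17 := p_wS_32_wQ_26_wN_1_rb8033062247_d51_d15_17

theorem g__wS_32_wQ_26_wN_1_rb8033062247_d51_d15_18 : GoodKC AS k_wS_32_wQ_26_wN_1_rb8033062247_d51_d15_18 := p_wS_32_wQ_26_wN_1_rb8033062247_d51_d15_18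

theorem g__wS_32_wQ_26_wN_1_rb8033062247_d51_d15_19 : GoodKC AS k_wS_32_wQ_26_wN_1_rb8033062247_d51_d15_19 := p_wS_32_wQ_26_wN_1_rb8033062247_d51_d15_19

theorem g_wS_32_wQ_26_wN_1_rb8033062247_d51_d151c_d51_d0a_d51_d1c : GoodKC AS c_wS_32_wQ_26_wN_1_rb8033062247_d51_d151c_d51_d0a_d51_d1c := p_wS_32_wQ_26_wN_1_rb8033062247_d51_d151c_d51_d0a_d51_d1c

theorem g_wS_32_wQ_26_wN_1_rb8033062247_d51_d151c_d51_d0a_d51_d1b : GoodKC AS c_wS_32_wQ_26_wN_1_rb8033062247_d51_d151c_d51_d0a_d51_d1b := p_wS_32_wQ_26_wN_1_rb8033062247_d51_d151c_d51_d0a_d51_d1b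

theorem g_wS_32_wQ_26_wN_1_rb8033062247_d51_d151c_d51_d0a_d51_d1a : GoodKC AS c_wS_32_wQ_26_wN_1_rb8033062247_d51_d151c_d51_d0a_d51_d1a := p_wS_32_wQ_26_wN_1_rb8033062247_d51_d151c_d51_d0a_d51_d1a

theorem g__wS_32_wQ_26_wN_1_rb8033062247_d51_d151c_d51_d0a_d51_d16_0 : GoodKC AS k_wS_32_wQ_26_wN_1_rb8033062247_d51_d151c_d51_d0a_d51_d16_0 := p_wS_32_wQ_26_wN_1_rb8033062247_d51_d151c_d51_d0a_d51_d16_0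

theorem g_wS_32_wQ_26_wN_1_rb8033062247_d51_d151c_d51_d0a_d51_d16 : GoodKC AS c_wS_32_wQ_26_wN_1_rb8033062247_d51_d151c_d51_d0a_d51_d16 := p_wS_32_wQ_26_wN_1_rb8033062247_d51_d151c_d51_d0a_d51_d16 g__wS_32_wQ_26_wN_1_rb8033062247_d51_d151c_d51_d0a_d51_d16_0

theorem g_wS_32_wQ_26_wN_1_rb8033062247_d51_d151c_d51_d0a_d51_d15 : GoodKC AS c_wS_32_wQ_26_wN_1_rb8033062247_d51_d151c_d51_d0a_d51_d15 := p_wS_32_wQ_26_wN_1_rb8033062247_d51_d151c_d51_d0a_d51_d15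

theorem g_wS_32_wQ_26_wN_1_rb8033062247_d51_d151c_d51_d0a_d51_d13 : GoodKC AS c_wS_32_wQ_26_wN_1_rb8033062247_d51_d151c_d51_d0a_d51_d13 := p_wS_32_wQ_26_wN_1_rb8033062247_d51_d151c_d51_d0a_d51_d13

theorem g_wS_32_wQ_26_wN_1_rb8033062247_d51_d151c_d51_d0a_d51_d11 : GoodKC AS c_wS_32_wQ_26_wN_1_rb8033062247_d51_d151c_d51_d0a_d51_d11 := p_wS_32_wQ_26_wN_1_rb8033062247_d51_d151c_d51_d0a_d51_d11

theorem g_wS_32_wQ_26_wN_1_rb8033062247_d51_d151c_d51_d0a_d51_d0f : GoodKC AS c_wS_32_wQ_26_wN_1_rb8033062247_d51_d151c_d51_d0a_d51_d0f := p_wS_32_wQ_26_wN_1_rb8033062247_d51_d151c_d51_d0a_d51_d0f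

theorem g_wS_32_wQ_26_wN_1_rb8033062247_d51_d151c_d51_d0a_d51_d0d : GoodKC AS c_wS_32_wQ_26_wN_1_rb8033062247_d51_d151c_d51_d0a_d51_d0d := p_wS_32_wQ_26_wN_1_rb8033062247_d51_d151c_d51_d0a_d51_d0d

theorem g_wS_32_wQ_26_wN_1_rb8033062247_d51_d151c_d51_d0a_d51_d0c : GoodKC AS c_wS_32_wQ_26_wN_1_rb8033062247_d51_d151c_d51_d0a_d51_d0c := p_wS_32_wQ_26_wN_1_rb8033062247_d51_d151c_d51_d0a_d51_d0c

theorem g__wS_32_wQ_26_wN_1_rb8033062247_d51_d151c_d51_d0a_d51_d0b_1 : GoodKC AS k_wS_32_wQ_26_wN_1_rb8033062247_d51_d151c_d51_d0a_d51_d0b_1 := p_wS_32_wQ_26_wN_1_rb8033062247_d51_d151c_d51_d0a_d51_d0b_1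

theorem g__wS_32_wQ_26_wN_1_rb8033062247_d51_d151c_d51_d0a_d51_d0b_3 : GoodKC AS k_wS_32_wQ_26_wN_1_rb8033062247_d51_d151c_d51_d0a_d51_d0b_3 := p_wS_32_wQ_26_wN_1_rb8033062247_d51_d151c_d51_d0a_d51_d0b_3

theorem g__wS_32_wQ_26_wN_1_rb8033062247_d51_d151c_d51_d0a_d51_d0b_2 : GoodKC AS k_wS_32_wQ_26_wN_1_rb8033062247_d51_d151c_d51_d0a_d51_d0b_2 := p_wS_32_wQ_26_wN_1_rb8033062247_d51_d151c_d51_d0a_d51_d0b_2 g__wS_32_wQ_26_wN_1_rb8033062247_d51_d151c_d51_d0a_d51_d0b_3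

theorem g__wS_32_wQ_26_wN_1_rb8033062247_d51_d151c_d51_d0a_d51_d0b_0 : GoodKC AS k_wS_32_wQ_26_wN_1_rb8033062247_d51_d151c_d51_d0a_d51_d0b_0 := p_wS_32_wQ_26_wN_1_rb8033062247_d51_d151c_d51_d0a_d51_d0b_0 g__wS_32_wQ_26_wN_1_rb8033062247_d51_d151c_d51_d0a_d51_d0b_1 g__wS_32_wQ_26_wN_1_rb8033062247_d51_d151c_d51_d0a_d51_d0b_2

theorem g_wS_32_wQ_26_wN_1_rb8033062247_d51_d151c_d51_d0a_d51_d0b : GoodKC AS c_wS_32_wQ_26_wN_1_rb8033062247_d51_d151c_d51_d0a_d51_d0b := p_wS_32_wQ_26_wN_1_rb8033062247_d51_d151c_d51_d0a_d51_d0b g__wS_32_wQ_26_wN_1_rb8033062247_d51_d151c_d51_d0a_d51_d0b_0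

theorem g_wS_32_wQ_26_wN_1_rb8033062247_d51_d151c_d51_d0a_d51_d09 : GoodKC AS c_wS_32_wQ_26_wN_1_rb8033062247_d51_d151c_d51_d0a_d51_d09 := p_wS_32_wQ_26_wN_1_rb8033062247_d51_d151c_d51_d0a_d51_d09

theorem g_wS_32_wQ_26_wN_1_rb8033062247_d51_d151c_d51_d0a_d51_d08 : GoodKC AS c_wS_32_wQ_26_wN_1_rb8033062247_d51_d151c_d51_d0a_d51_d08 := p_wS_32_wQ_26_wN_1_rb8033062247_d51_d151c_d51_d0a_d51_d08

theorem g_wS_32_wQ_26_wN_1_rb8033062247_d51_d151c_d51_d0a_d51_d07 : GoodKC AS c_wS_32_wQ_26_wN_1_rb8033062247_d51_d151c_d51_d0a_d51_d07 := p_wS_32_wQ_26_wN_1_rb8033062247_d51_d151c_d51_d0a_d51_d07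

theorem g__wS_32_wQ_26_wN_1_rb8033062247_d51_d151c_d51_d0a_d51_d04_1 : GoodKC AS k_wS_32_wQ_26_wN_1_rb8033062247_d51_d151c_d51_d0a_d51_d04_1 := p_wS_32_wQ_26_wN_1_rb8033062247_d51_d151c_d51_d0a_d51_d04_1

theorem g__wS_32_wQ_26_wN_1_rb8033062247_d51_d151c_d51_d0a_d51_d04_0 : GoodKC AS k_wS_32_wQ_26_wN_1_rb8033062247_d51_d151c_d51_d0a_d51_d04_0 := p_wS_32_wQ_26_wN_1_rb8033062247_d51_d151c_d51_d0a_d51_d04_0 g__wS_32_wQ_26_wN_1_rb8033062247_d51_d151c_d51_d0a_d51_d04_1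

theorem g_wS_32_wQ_26_wN_1_rb8033062247_d51_d151c_d51_d0a_d51_d04 : GoodKC AS c_wS_32_wQ_26_wN_1_rb8033062247_d51_d151c_d51_d0a_d51_d04 := p_wS_32_wQ_26_wN_1_rb8033062247_d51_d151c_d51_d0a_d51_d04 g__wS_32_wQ_26_wN_1_rb8033062247_d51_d151c_d51_d0a_d51_d04_0

theorem g__wS_32_wQ_26_wN_1_rb8033062247_d51_d151c_d51_d0a_d51_d03_2 : GoodKC AS k_wS_32_wQ_26_wN_1_rb8033062247_d51_d151c_d51_d0a_d51_d03_2 := p_wS_32_wQ_26_wN_1_rb8033062247_d51_d151c_d51_d0a_d51_d03_2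

theorem g__wS_32_wQ_26_wN_1_rb8033062247_d51_d151c_d51_d0a_d51_d03_1 : GoodKC AS k_wS_32_wQ_26_wN_1_rb8033062247_d51_d151c_d51_d0a_d51_d03_1 := p_wS_32_wQ_26_wN_1_rb8033062247_d51_d151c_d51_d0a_d51_d03_1 g__wS_32_wQ_26_wN_1_rb8033062247_d51_d151c_d51_d0a_d51_d03_2

theorem g__wS_32_wQ_26_wN_1_rb8033062247_d51_d151c_d51_d0a_d51_d03_0 : GoodKC AS k_wS_32_wQ_26_wN_1_rb8033062247_d51_d151c_d51_d0a_d51_d03_0 := p_wS_32_wQ_26_wN_1_rb8033062247_d51_d151c_d51_d0a_d51_d03_0 g__wS_32_wQ_26_wN_1_rb8033062247_d51_d151c_d51_d0a_d51_d03_1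

theorem g_wS_32_wQ_26_wN_1_rb8033062247_d51_d151c_d51_d0a_d51_d03 : GoodKC AS c_wS_32_wQ_26_wN_1_rb8033062247_d51_d151c_d51_d0a_d51_d03 := p_wS_32_wQ_26_wN_1_rb8033062247_d51_d151c_d51_d0a_d51_d03 g__wS_32_wQ_26_wN_1_rb8033062247_d51_d151c_d51_d0a_d51_d03_0

theorem g__wS_32_wQ_26_wN_1_rb8033062247_d51_d151c_d51_d0a_d51_d02_3 : GoodKC AS k_wS_32_wQ_26_wN_1_rb8033062247_d51_d151c_d51_d0a_d51_d02_3 := p_wS_32_wQ_26_wN_1_rb8033062247_d51_d151c_d51_d0a_d51_d02_3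

theorem g__wS_32_wQ_26_wN_1_rb8033062247_d51_d151c_d51_d0a_d51_d02_2 : GoodKC AS k_wS_32_wQ_26_wN_1_rb8033062247_d51_d151c_d51_d0a_d51_d02_2 := p_wS_32_wQ_26_wN_1_rb8033062247_d51_d151c_d51_d0a_d51_d02_2 g__wS_32_wQ_26_wN_1_rb8033062247_d51_d151c_d51_d0a_d51_d02_3

theorem g__wS_32_wQ_26_wN_1_rb8033062247_d51_d151c_d51_d0a_d51_d02_1 : GoodKC AS k_wS_32_wQ_26_wN_1_rb8033062247_d51_d151c_d51_d0a_d51_d02_1 := p_wS_32_wQ_26_wN_1_rb8033062247_d51_d151c_d51_d0a_d51_d02_1 g__wS_32_wQ_26_wN_1_rb8033062247_d51_d151c_d51_d0a_d51_d02_2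

theorem g__wS_32_wQ_26_wN_1_rb8033062247_d51_d151c_d51_d0a_d51_d02_0 : GoodKC AS k_wS_32_wQ_26_wN_1_rb8033062247_d51_d151c_d51_d0a_d51_d02_0 := p_wS_32_wQ_26_wN_1_rb8033062247_d51_d151c_d51_d0a_d51_d02_0 g__wS_32_wQ_26_wN_1_rb8033062247_d51_d151c_d51_d0a_d51_d02_1

theorem g_wS_32_wQ_26_wN_1_rb8033062247_d51_d151c_d51_d0a_d51_d02 : GoodKC AS c_wS_32_wQ_26_wN_1_rb8033062247_d51_d151c_d51_d0a_d51_d02 := p_wS_32_wQ_26_wN_1_rb8033062247_d51_d151c_d51_d0a_d51_d02 g__wS_32_wQ_26_wN_1_rb8033062247_d51_d151c_d51_d0a_d51_d02_0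

theorem g__wS_32_wQ_26_wN_1_rb8033062247_d51_d151c_d51_d0a_d51_d00_0 : GoodKC AS k_wS_32_wQ_26_wN_1_rb8033062247_d51_d151c_d51_d0a_d51_d00_0 := p_wS_32_wQ_26_wN_1_rb8033062247_d51_d151c_d51_d0a_d51_d00_0

theorem g__wS_32_wQ_26_wN_1_rb8033062247_d51_d151c_d51_d0a_d51_d00_7 : GoodKC AS k_wS_32_wQ_26_wN_1_rb8033062247_d51_d151c_d51_d0a_d51_d00_7 := p_wS_32_wQ_26_wN_1_rb8033062247_d51_d151c_d51_d0a_d51_d00_7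

theorem g__wS_32_wQ_26_wN_1_rb8033062247_d51_d151c_d51_d0a_d51_d00_6 : GoodKC AS k_wS_32_wQ_26_wN_1_rb8033062247_d51_d151c_d51_d0a_d51_d00_6 := p_wS_32_wQ_26_wN_1_rb8033062247_d51_d151c_d51_d0a_d51_d00_6 g__wS_32_wQ_26_wN_1_rb8033062247_d51_d151c_d51_d0a_d51_d00_7

theorem g__wS_32_wQ_26_wN_1_rb8033062247_d51_d151c_d51_d0a_d51_d00_8 : GoodKC AS k_wS_32_wQ_26_wN_1_rb8033062247_d51_d151c_d51_d0a_d51_d00_8 := p_wS_32_wQ_26_wN_1_rb8033062247_d51_d151c_d51_d0a_d51_d00_8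

theorem g__wS_32_wQ_26_wN_1_rb8033062247_d51_d151c_d51_d0a_d51_d00_5 : GoodKC AS k_wS_32_wQ_26_wN_1_rb8033062247_d51_d151c_d51_d0a_d51_d00_5 := p_wS_32_wQ_26_wN_1_rb8033062247_d51_d151c_d51_d0a_d51_d00_5 g__wS_32_wQ_26_wN_1_rb8033062247_d51_d151c_d51_d0a_d51_d00_6 g__wS_32_wQ_26_wN_1_rb8033062247_d51_d151c_d51_d0a_d51_d00_8

theorem g__wS_32_wQ_26_wN_1_rb8033062247_d51_d151c_d51_d0a_d51_d00_9 : GoodKC AS k_wS_32_wQ_26_wN_1_rb8033062247_d51_d151c_d51_d0a_d51_d00_9 := p_wS_32_wQ_26_wN_1_rb8033062247_d51_d151c_d51_d0a_d51_d00_9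

theorem g__wS_32_wQ_26_wN_1_rb8033062247_d51_d151c_d51_d0a_d51_d00_4 : GoodKC AS k_wS_32_wQ_26_wN_1_rb8033062247_d51_d151c_d51_d0a_d51_d00_4 := p_wS_32_wQ_26_wN_1_rb8033062247_d51_d151c_d51_d0a_d51_d00_4 g__wS_32_wQ_26_wN_1_rb8033062247_d51_d151c_d51_d0a_d51_d00_5 g__wS_32_wQ_26_wN_1_rb8033062247_d51_d151c_d51_d0a_d51_d00_9

theorem g__wS_32_wQ_26_wN_1_rb8033062247_d51_d151c_d51_d0a_d51_d00_3 : GoodKC AS k_wS_32_wQ_26_wN_1_rb8033062247_d51_d151c_d51_d0a_d51_d00_3 := p_wS_32_wQ_26_wN_1_rb8033062247_d51_d151c_d51_d0a_d51_d00_3 g__wS_32_wQ_26_wN_1_rb8033062247_d51_d151c_d51_d0a_d51_d00_4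

theorem g__wS_32_wQ_26_wN_1_rb8033062247_d51_d151c_d51_d0a_d51_d00_2 : GoodKC AS k_wS_32_wQ_26_wN_1_rb8033062247_d51_d151c_d51_d0a_d51_d00_2 := p_wS_32_wQ_26_wN_1_rb8033062247_d51_d151c_d51_d0a_d51_d00_2 g__wS_32_wQ_26_wN_1_rb8033062247_d51_d151c_d51_d0a_d51_d00_3

theorem g__wS_32_wQ_26_wN_1_rb8033062247_d51_d151c_d51_d0a_d51_d00_1 : GoodKC AS k_wS_32_wQ_26_wN_1_rb8033062247_d51_d151c_d51_d0a_d51_d00_1 := p_wS_32_wQ_26_wN_1_rb8033062247_d51_d151c_d51_d0a_d51_d00_1 g__wS_32_wQ_26_wN_1_rb8033062247_d51_d151c_d51_d0a_d51_d00_2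

theorem g_wS_32_wQ_26_wN_1_rb8033062247_d51_d151c_d51_d0a_d51_d00 : GoodKC AS c_wS_32_wQ_26_wN_1_rb8033062247_d51_d151c_d51_d0a_d51_d00 := p_wS_32_wQ_26_wN_1_rb8033062247_d51_d151c_d51_d0a_d51_d00 g__wS_32_wQ_26_wN_1_rb8033062247_d51_d151c_d51_d0a_d51_d00_0 g__wS_32_wQ_26_wN_1_rb8033062247_d51_d151c_d51_d0a_d51_d00_1

theorem g_wS_32_wQ_26_wN_1_rb8033062247_d51_d151c_d51_d0a_d51_d01 : GoodKC AS c_wS_32_wQ_26_wN_1_rb8033062247_d51_d151c_d51_d0a_d51_d01 := p_wS_32_wQ_26_wN_1_rb8033062247_d51_d151c_d51_d0a_d51_d01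

theorem g_wS_32_wQ_26_wN_1_rb8033062247_d51_d151c_d51_d0a_d51_d05 : GoodKC AS c_wS_32_wQ_26_wN_1_rb8033062247_d51_d151c_d51_d0a_d51_d05 := p_wS_32_wQ_26_wN_1_rb8033062247_d51_d151c_d51_d0a_d51_d05

theorem g__wS_32_wQ_26_wN_1_rb8033062247_d51_d151c_d51_d0a_d51_d06_0 : GoodKC AS k_wS_32_wQ_26_wN_1_rb8033062247_d51_d151c_d51_d0a_d51_d06_0 := p_wS_32_wQ_26_wN_1_rb8033062247_d51_d151c_d51_d0a_d51_d06_0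

theorem g_wS_32_wQ_26_wN_1_rb8033062247_d51_d151c_d51_d0a_d51_d06 : GoodKC AS c_wS_32_wQ_26_wN_1_rb8033062247_d51_d151c_d51_d0a_d51_d06 := p_wS_32_wQ_26_wN_1_rb8033062247_d51_d151c_d51_d0a_d51_d06 g__wS_32_wQ_26_wN_1_rb8033062247_d51_d151c_d51_d0a_d51_d06_0

theorem g__wS_32_wQ_26_wN_1_rb8033062247_d51_d151c_d51_d0a_d51_d0a_1 : GoodKC AS k_wS_32_wQ_26_wN_1_rb8033062247_d51_d151c_d51_d0a_d51_d0a_1 := p_wS_32_wQ_26_wN_1_rb8033062247_d51_d151c_d51_d0a_d51_d0a_1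

theorem g__wS_32_wQ_26_wN_1_rb8033062247_d51_d151c_d51_d0a_d51_d0a_0 : GoodKC AS k_wS_32_wQ_26_wN_1_rb8033062247_d51_d151c_d51_d0a_d51_d0a_0 := p_wS_32_wQ_26_wN_1_rb8033062247_d51_d151c_d51_d0a_d51_d0a_0 g__wS_32_wQ_26_wN_1_rb8033062247_d51_d151c_d51_d0a_d51_d0a_1

theorem g_wS_32_wQ_26_wN_1_rb8033062247_d51_d151c_d51_d0a_d51_d0a : GoodKC AS c_wS_32_wQ_26_wN_1_rb8033062247_d51_d151c_d51_d0a_d51_d0a := p_wS_32_wQ_26_wN_1_rb8033062247_d51_d151c_d51_d0a_d51_d0a g__wS_32_wQ_26_wN_1_rb8033062247_d51_d151c_d51_d0a_d51_d0a_0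

theorem g_wS_32_wQ_26_wN_1_rb8033062247_d51_d151c_d51_d0a_d51_d0e : GoodKC AS c_wS_32_wQ_26_wN_1_rb8033062247_d51_d151c_d51_d0a_d51_d0e := p_wS_32_wQ_26_wN_1_rb8033062247_d51_d151c_d51_d0a_d51_d0e

theorem g_wS_32_wQ_26_wN_1_rb8033062247_d51_d151c_d51_d0a_d51_d10 : GoodKC AS c_wS_32_wQ_26_wN_1_rb8033062247_d51_d151c_d51_d0a_d51_d10 := p_wS_32_wQ_26_wN_1_rb8033062247_d51_d151c_d51_d0a_d51_d10

theorem g_wS_32_wQ_26_wN_1_rb8033062247_d51_d151c_d51_d0a_d51_d12 : GoodKC AS c_wS_32_wQ_26_wN_1_rb8033062247_d51_d151c_d51_d0a_d51_d12 := p_wS_32_wQ_26_wN_1_rb8033062247_d51_d151c_d51_d0a_d51_d12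

theorem g_wS_32_wQ_26_wN_1_rb8033062247_d51_d151c_d51_d0a_d51_d14 : GoodKC AS c_wS_32_wQ_26_wN_1_rb8033062247_d51_d151c_d51_d0a_d51_d14 := p_wS_32_wQ_26_wN_1_rb8033062247_d51_d151c_d51_d0a_d51_d14

theorem g_wS_32_wQ_26_wN_1_rb8033062247_d51_d151c_d51_d0a_d51_d17 : GoodKC AS c_wS_32_wQ_26_wN_1_rb8033062247_d51_d151c_d51_d0a_d51_d17 := p_wS_32_wQ_26_wN_1_rb8033062247_d51_d151c_d51_d0a_d51_d17

theorem g_wS_32_wQ_26_wN_1_rb8033062247_d51_d151c_d51_d0a_d51_d18 : GoodKC AS c_wS_32_wQ_26_wN_1_rb8033062247_d51_d151c_d51_d0a_d51_d18 := p_wS_32_wQ_26_wN_1_rb8033062247_d51_d151c_d51_d0a_d51_d18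

theorem g_wS_32_wQ_26_wN_1_rb8033062247_d51_d151c_d51_d0a_d51_d19 : GoodKC AS c_wS_32_wQ_26_wN_1_rb8033062247_d51_d151c_d51_d0a_d51_d19 := p_wS_32_wQ_26_wN_1_rb8033062247_d51_d151c_d51_d0a_d51_d19

theorem g_wS_32_wQ_26_wN_1_rb8033062247_d51_d151c_d51_d0a : GoodKC AS c_wS_32_wQ_26_wN_1_rb8033062247_d51_d151c_d51_d0a := p_wS_32_wQ_26_wN_1_rb8033062247_d51_d151c_d51_d0a g_wS_32_wQ_26_wN_1_rb8033062247_d51_d151c_d51_d0a_d51_d1c g_wS_32_wQ_26_wN_1_rb8033062247_d51_d151c_d51_d0a_d51_d1b g_wS_32_wQ_26_wN_1_rb8033062247_d51_d151c_d51_d0a_d51_d1a g_wS_32_wQ_26_wN_1_rb8033062247_d51_d151c_d51_d0a_d51_d16 g_wS_32_wQ_26_wN_1_rb8033062247_d51_d151c_d51_d0a_d51_d15 g_wS_32_wQ_26_wN_1_rb8033062247_d51_d151c_d51_d0a_d51_d13 g_wS_32_wQ_26_wN_1_rb8033062247_d51_d151c_d51_d0a_d51_d11 g_wS_32_wQ_26_wN_1_rb8033062247_d51_d151c_d51_d0a_d51_d0f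 g_wS_32_wQ_26_wN_1_rb8033062247_d51_d151c_d51_d0a_d51_d0d g_wS_32_wQ_26_wN_1_rb8033062247_d51_d151c_d51_d0a_d51_d0c g_wS_32_wQ_26_wN_1_rb8033062247_d51_d151c_d51_d0a_d51_d0b g_wS_32_wQ_26_wN_1_rb8033062247_d51_d151c_d51_d0a_d51_d09 g_wS_32_wQ_26_wN_1_rb8033062247_d51_d151c_d51_d0a_d51_d08 g_wS_32_wQ_26_wN_1_rb8033062247_d51_d151c_d51_d0a_d51_d07 g_wS_32_wQ_26_wN_1_rb8033062247_d51_d151c_d51_d0a_d51_d04 g_wS_32_wQ_26_wN_1_rb8033062247_d51_d151c_d51_d0a_d51_d03 g_wS_32_wQ_26_wN_1_rb8033062247_d51_d151c_d51_d0a_d51_d02 g_wS_32_wQ_26_wN_1_rb8033062247_d51_d151c_d51_d0a_d51_d00 g_wS_32_wQ_26_wN_1_rb8033062247_d51_d151c_d51_d0a_d51_d01 g_wS_32_wQ_26_wN_1_rb8033062247_d51_d151c_d51_d0a_d51_d05 g_wS_32_wQ_26_wN_1_rb8033062247_d51_d151c_d51_d0a_d51_d06 g_wS_32_wQ_26_wN_1_rb8033062247_d51_d151c_d51_d0a_d51_d0a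 g_wS_32_wQ_26_wN_1_rb8033062247_d51_d151c_d51_d0a_d51_d0e g_wS_32_wQ_26_wN_1_rb8033062247_d51_d151c_d51_d0a_d51_d10 g_wS_32_wQ_26_wN_1_rb8033062247_d51_d151c_d51_d0a_d51_d12 g_wS_32_wQ_26_wN_1_rb8033062247_d51_d151c_d51_d0a_d51_d14 g_wS_32_wQ_26_wN_1_rb8033062247_d51_d151c_d51_d0a_d51_d17 g_wS_32_wQ_26_wN_1_rb8033062247_d51_d151c_d51_d0a_d51_d18 g_wS_32_wQ_26_wN_1_rb8033062247_d51_d151c_d51_d0a_d51_d19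

theorem g_wS_32_wQ_26_wN_1_rb8033062247_d51_d151c_d51_d09 : GoodKC AS c_wS_32_wQ_26_wN_1_rb8033062247_d51_d151c_d51_d09 := p_wS_32_wQ_26_wN_1_rb8033062247_d51_d151c_d51_d09

theorem g_wS_32_wQ_26_wN_1_rb8033062247_d51_d151c_d51_d08 : GoodKC AS c_wS_32_wQ_26_wN_1_rb8033062247_d51_d151c_d51_d08 := p_wS_32_wQ_26_wN_1_rb8033062247_d51_d151c_d51_d08

theorem g__wS_32_wQ_26_wN_1_rb8033062247_d51_d151c_d51_d07_0 : GoodKC AS k_wS_32_wQ_26_wN_1_rb8033062247_d51_d151c_d51_d07_0 := p_wS_32_wQ_26_wN_1_rb8033062247_d51_d151c_d51_d07_0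

theorem g_wS_32_wQ_26_wN_1_rb8033062247_d51_d151c_d51_d07 : GoodKC AS c_wS_32_wQ_26_wN_1_rb8033062247_d51_d151c_d51_d07 := p_wS_32_wQ_26_wN_1_rb8033062247_d51_d151c_d51_d07 g__wS_32_wQ_26_wN_1_rb8033062247_d51_d151c_d51_d07_0

theorem g_wS_32_wQ_26_wN_1_rb8033062247_d51_d151c_d51_d01 : GoodKC AS c_wS_32_wQ_26_wN_1_rb8033062247_d51_d151c_d51_d01 := p_wS_32_wQ_26_wN_1_rb8033062247_d51_d151c_d51_d01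

theorem g__wS_32_wQ_26_wN_1_rb8033062247_d51_d151c_0 : GoodKC AS k_wS_32_wQ_26_wN_1_rb8033062247_d51_d151c_0 := p_wS_32_wQ_26_wN_1_rb8033062247_d51_d151c_0

theorem g_wS_32_wQ_26_wN_1_rb8033062247_d51_d151c_d51_d00 : GoodKC AS c_wS_32_wQ_26_wN_1_rb8033062247_d51_d151c_d51_d00 := p_wS_32_wQ_26_wN_1_rb8033062247_d51_d151c_d51_d00

theorem g__wS_32_wQ_26_wN_1_rb8033062247_d51_d151c_1 : GoodKC AS k_wS_32_wQ_26_wN_1_rb8033062247_d51_d151c_1 := p_wS_32_wQ_26_wN_1_rb8033062247_d51_d151c_1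

theorem g_wS_32_wQ_26_wN_1_rb8033062247_d51_d151c_d51_d02 : GoodKC AS c_wS_32_wQ_26_wN_1_rb8033062247_d51_d151c_d51_d02 := p_wS_32_wQ_26_wN_1_rb8033062247_d51_d151c_d51_d02

theorem g_wS_32_wQ_26_wN_1_rb8033062247_d51_d151c_d51_d03 : GoodKC AS c_wS_32_wQ_26_wN_1_rb8033062247_d51_d151c_d51_d03 := p_wS_32_wQ_26_wN_1_rb8033062247_d51_d151c_d51_d03

theorem g__wS_32_wQ_26_wN_1_rb8033062247_d51_d151c_d51_d04v1_0 : GoodKC AS k_wS_32_wQ_26_wN_1_rb8033062247_d51_d151c_d51_d04v1_0 := p_wS_32_wQ_26_wN_1_rb8033062247_d51_d151c_d51_d04v1_0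

theorem g_wS_32_wQ_26_wN_1_rb8033062247_d51_d151c_d51_d04 : GoodKC AS c_wS_32_wQ_26_wN_1_rb8033062247_d51_d151c_d51_d04 := p_wS_32_wQ_26_wN_1_rb8033062247_d51_d151c_d51_d04v1 g__wS_32_wQ_26_wN_1_rb8033062247_d51_d151c_d51_d04v1_0

theorem g__wS_32_wQ_26_wN_1_rb8033062247_d51_d151c_d51_d05_3 : GoodKC AS k_wS_32_wQ_26_wN_1_rb8033062247_d51_d151c_d51_d05_3 := p_wS_32_wQ_26_wN_1_rb8033062247_d51_d151c_d51_d05_3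

theorem g__wS_32_wQ_26_wN_1_rb8033062247_d51_d151c_d51_d05_2 : GoodKC AS k_wS_32_wQ_26_wN_1_rb8033062247_d51_d151c_d51_d05_2 := p_wS_32_wQ_26_wN_1_rb8033062247_d51_d151c_d51_d05_2 g__wS_32_wQ_26_wN_1_rb8033062247_d51_d151c_d51_d05_3

theorem g__wS_32_wQ_26_wN_1_rb8033062247_d51_d151c_d51_d05_1 : GoodKC AS k_wS_32_wQ_26_wN_1_rb8033062247_d51_d151c_d51_d05_1 := p_wS_32_wQ_26_wN_1_rb8033062247_d51_d151c_d51_d05_1 g__wS_32_wQ_26_wN_1_rb8033062247_d51_d151c_d51_d05_2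

theorem g__wS_32_wQ_26_wN_1_rb8033062247_d51_d151c_d51_d05_0 : GoodKC AS k_wS_32_wQ_26_wN_1_rb8033062247_d51_d151c_d51_d05_0 := p_wS_32_wQ_26_wN_1_rb8033062247_d51_d151c_d51_d05_0 g__wS_32_wQ_26_wN_1_rb8033062247_d51_d151c_d51_d05_1

theorem g_wS_32_wQ_26_wN_1_rb8033062247_d51_d151c_d51_d05 : GoodKC AS c_wS_32_wQ_26_wN_1_rb8033062247_d51_d151c_d51_d05 := p_wS_32_wQ_26_wN_1_rb8033062247_d51_d151c_d51_d05 g__wS_32_wQ_26_wN_1_rb8033062247_d51_d151c_d51_d05_0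

theorem g_wS_32_wQ_26_wN_1_rb8033062247_d51_d151c_d51_d06 : GoodKC AS c_wS_32_wQ_26_wN_1_rb8033062247_d51_d151c_d51_d06 := p_wS_32_wQ_26_wN_1_rb8033062247_d51_d151c_d51_d06

theorem g_wS_32_wQ_26_wN_1_rb8033062247_d51_d151c : GoodKC AS c_wS_32_wQ_26_wN_1_rb8033062247_d51_d151c := p_wS_32_wQ_26_wN_1_rb8033062247_d51_d151c g_wS_32_wQ_26_wN_1_rb8033062247_d51_d151c_d51_d0a g_wS_32_wQ_26_wN_1_rb8033062247_d51_d151c_d51_d09 g_wS_32_wQ_26_wN_1_rb8033062247_d51_d151c_d51_d08 g_wS_32_wQ_26_wN_1_rb8033062247_d51_d151c_d51_d07 g_wS_32_wQ_26_wN_1_rb8033062247_d51_d151c_d51_d01 g__wS_32_wQ_26_wN_1_rb8033062247_d51_d151c_0 g_wS_32_wQ_26_wN_1_rb8033062247_d51_d151c_d51_d00 g__wS_32_wQ_26_wN_1_rb8033062247_d51_d151c_1 g_wS_32_wQ_26_wN_1_rb8033062247_d51_d151c_d51_d02 g_wS_32_wQ_26_wN_1_rb8033062247_d51_d151c_d51_d03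 g_wS_32_wQ_26_wN_1_rb8033062247_d51_d151c_d51_d04 g_wS_32_wQ_26_wN_1_rb8033062247_d51_d151c_d51_d05 g_wS_32_wQ_26_wN_1_rb8033062247_d51_d151c_d51_d06

theorem g__wS_32_wQ_26_wN_1_rb8033062247_d51_d1520_4 : GoodKC AS k_wS_32_wQ_26_wN_1_rb8033062247_d51_d1520_4 := p_wS_32_wQ_26_wN_1_rb8033062247_d51_d1520_4

theorem g__wS_32_wQ_26_wN_1_rb8033062247_d51_d1520_6 : GoodKC AS k_wS_32_wQ_26_wN_1_rb8033062247_d51_d1520_6 := p_wS_32_wQ_26_wN_1_rb8033062247_d51_d1520_6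

theorem g__wS_32_wQ_26_wN_1_rb8033062247_d51_d1520_10 : GoodKC AS k_wS_32_wQ_26_wN_1_rb8033062247_d51_d1520_10 := p_wS_32_wQ_26_wN_1_rb8033062247_d51_d1520_10

theorem g__wS_32_wQ_26_wN_1_rb8033062247_d51_d1520_9 : GoodKC AS k_wS_32_wQ_26_wN_1_rb8033062247_d51_d1520_9 := p_wS_32_wQ_26_wN_1_rb8033062247_d51_d1520_9 g__wS_32_wQ_26_wN_1_rb8033062247_d51_d1520_10

theorem g__wS_32_wQ_26_wN_1_rb8033062247_d51_d1520_8 : GoodKC AS k_wS_32_wQ_26_wN_1_rb8033062247_d51_d1520_8 := p_wS_32_wQ_26_wN_1_rb8033062247_d51_d1520_8 g__wS_32_wQ_26_wN_1_rb8033062247_d51_d1520_9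

theorem g__wS_32_wQ_26_wN_1_rb8033062247_d51_d1520_11 : GoodKC AS k_wS_32_wQ_26_wN_1_rb8033062247_d51_d1520_11 := p_wS_32_wQ_26_wN_1_rb8033062247_d51_d1520_11

theorem g__wS_32_wQ_26_wN_1_rb8033062247_d51_d1520_7 : GoodKC AS k_wS_32_wQ_26_wN_1_rb8033062247_d51_d1520_7 := p_wS_32_wQ_26_wN_1_rb8033062247_d51_d1520_7 g__wS_32_wQ_26_wN_1_rb8033062247_d51_d1520_8 g__wS_32_wQ_26_wN_1_rb8033062247_d51_d1520_11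

theorem g__wS_32_wQ_26_wN_1_rb8033062247_d51_d1520_5 : GoodKC AS k_wS_32_wQ_26_wN_1_rb8033062247_d51_d1520_5 := p_wS_32_wQ_26_wN_1_rb8033062247_d51_d1520_5 g__wS_32_wQ_26_wN_1_rb8033062247_d51_d1520_6 g__wS_32_wQ_26_wN_1_rb8033062247_d51_d1520_7

theorem g__wS_32_wQ_26_wN_1_rb8033062247_d51_d1520_12 : GoodKC AS k_wS_32_wQ_26_wN_1_rb8033062247_d51_d1520_12 := p_wS_32_wQ_26_wN_1_rb8033062247_d51_d1520_12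

theorem g__wS_32_wQ_26_wN_1_rb8033062247_d51_d1520_3 : GoodKC AS k_wS_32_wQ_26_wN_1_rb8033062247_d51_d1520_3 := p_wS_32_wQ_26_wN_1_rb8033062247_d51_d1520_3 g__wS_32_wQ_26_wN_1_rb8033062247_d51_d1520_4 g__wS_32_wQ_26_wN_1_rb8033062247_d51_d1520_5 g__wS_32_wQ_26_wN_1_rb8033062247_d51_d1520_12

theorem g__wS_32_wQ_26_wN_1_rb8033062247_d51_d1520_2 : GoodKC AS k_wS_32_wQ_26_wN_1_rb8033062247_d51_d1520_2 := p_wS_32_wQ_26_wN_1_rb8033062247_d51_d1520_2 g__wS_32_wQ_26_wN_1_rb8033062247_d51_d1520_3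

theorem g__wS_32_wQ_26_wN_1_rb8033062247_d51_d1520_15 : GoodKC AS k_wS_32_wQ_26_wN_1_rb8033062247_d51_d1520_15 := p_wS_32_wQ_26_wN_1_rb8033062247_d51_d1520_15

theorem g__wS_32_wQ_26_wN_1_rb8033062247_d51_d1520_14 : GoodKC AS k_wS_32_wQ_26_wN_1_rb8033062247_d51_d1520_14 := p_wS_32_wQ_26_wN_1_rb8033062247_d51_d1520_14 g__wS_32_wQ_26_wN_1_rb8033062247_d51_d1520_15

theorem g__wS_32_wQ_26_wN_1_rb8033062247_d51_d1520_13 : GoodKC AS k_wS_32_wQ_26_wN_1_rb8033062247_d51_d1520_13 := p_wS_32_wQ_26_wN_1_rb8033062247_d51_d1520_13 g__wS_32_wQ_26_wN_1_rb8033062247_d51_d1520_14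

theorem g__wS_32_wQ_26_wN_1_rb8033062247_d51_d1520_1 : GoodKC AS k_wS_32_wQ_26_wN_1_rb8033062247_d51_d1520_1 := p_wS_32_wQ_26_wN_1_rb8033062247_d51_d1520_1 g__wS_32_wQ_26_wN_1_rb8033062247_d51_d1520_2 g__wS_32_wQ_26_wN_1_rb8033062247_d51_d1520_13

theorem g__wS_32_wQ_26_wN_1_rb8033062247_d51_d1520_16 : GoodKC AS k_wS_32_wQ_26_wN_1_rb8033062247_d51_d1520_16 := p_wS_32_wQ_26_wN_1_rb8033062247_d51_d1520_16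

theorem g__wS_32_wQ_26_wN_1_rb8033062247_d51_d1520_18 : GoodKC AS k_wS_32_wQ_26_wN_1_rb8033062247_d51_d1520_18 := p_wS_32_wQ_26_wN_1_rb8033062247_d51_d1520_18

theorem g__wS_32_wQ_26_wN_1_rb8033062247_d51_d1520_17 : GoodKC AS k_wS_32_wQ_26_wN_1_rb8033062247_d51_d1520_17 := p_wS_32_wQ_26_wN_1_rb8033062247_d51_d1520_17 g__wS_32_wQ_26_wN_1_rb8033062247_d51_d1520_18

theorem g__wS_32_wQ_26_wN_1_rb8033062247_d51_d1520_0 : GoodKC AS k_wS_32_wQ_26_wN_1_rb8033062247_d51_d1520_0 := p_wS_32_wQ_26_wN_1_rb8033062247_d51_d1520_0 g__wS_32_wQ_26_wN_1_rb8033062247_d51_d1520_1 g__wS_32_wQ_26_wN_1_rb8033062247_d51_d1520_16 g__wS_32_wQ_26_wN_1_rb8033062247_d51_d1520_17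

theorem g_wS_32_wQ_26_wN_1_rb8033062247_d51_d1520 : GoodKC AS c_wS_32_wQ_26_wN_1_rb8033062247_d51_d1520 := p_wS_32_wQ_26_wN_1_rb8033062247_d51_d1520 g__wS_32_wQ_26_wN_1_rb8033062247_d51_d1520_0

theorem g_wS_32_wQ_26_wN_1_rb8033062247_d51_d15 : GoodKC AS c_wS_32_wQ_26_wN_1_rb8033062247_d51_d15 := p_wS_32_wQ_26_wN_1_rb8033062247_d51_d15 g_wS_32_wQ_26_wN_1_rb8033062247_d51_d1521 g_wS_32_wQ_26_wN_1_rb8033062247_d51_d151f g_wS_32_wQ_26_wN_1_rb8033062247_d51_d151e g_wS_32_wQ_26_wN_1_rb8033062247_d51_d151d g_wS_32_wQ_26_wN_1_rb8033062247_d51_d151b g_wS_32_wQ_26_wN_1_rb8033062247_d51_d151a g_wS_32_wQ_26_wN_1_rb8033062247_d51_d1518 g_wS_32_wQ_26_wN_1_rb8033062247_d51_d1516 g_wS_32_wQ_26_wN_1_rb8033062247_d51_d1515 g_wS_32_wQ_26_wN_1_rb8033062247_d51_d1514 g_wS_32_wQ_26_wN_1_rb8033062247_d51_d1513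 g_wS_32_wQ_26_wN_1_rb8033062247_d51_d1512 g_wS_32_wQ_26_wN_1_rb8033062247_d51_d150d g_wS_32_wQ_26_wN_1_rb8033062247_d51_d150c g__wS_32_wQ_26_wN_1_rb8033062247_d51_d15_0 g__wS_32_wQ_26_wN_1_rb8033062247_d51_d15_4 g_wS_32_wQ_26_wN_1_rb8033062247_d51_d150e g_wS_32_wQ_26_wN_1_rb8033062247_d51_d150f g_wS_32_wQ_26_wN_1_rb8033062247_d51_d1510 g_wS_32_wQ_26_wN_1_rb8033062247_d51_d1511 g_wS_32_wQ_26_wN_1_rb8033062247_d51_d1517 g_wS_32_wQ_26_wN_1_rb8033062247_d51_d1519 g__wS_32_wQ_26_wN_1_rb8033062247_d51_d15_5 g__wS_32_wQ_26_wN_1_rb8033062247_d51_d15_17 g__wS_32_wQ_26_wN_1_rb8033062247_d51_d15_18 g__wS_32_wQ_26_wN_1_rb8033062247_d51_d15_19 g_wS_32_wQ_26_wN_1_rb8033062247_d51_d151c g_wS_32_wQ_26_wN_1_rb8033062247_d51_d1520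

theorem g_wS_32_wQ_26_wN_1_rb8033062247_d51_d16 : GoodKC AS c_wS_32_wQ_26_wN_1_rb8033062247_d51_d16 := p_wS_32_wQ_26_wN_1_rb8033062247_d51_d16

theorem g_wS_32_wQ_26_wN_1_rb8033062247_d51_d19 : GoodKC AS c_wS_32_wQ_26_wN_1_rb8033062247_d51_d19 := p_wS_32_wQ_26_wN_1_rb8033062247_d51_d19

theorem g_wS_32_wQ_26_wN_1_rb8033062247x13 : GoodKC AS c_wS_32_wQ_26_wN_1_rb8033062247x13 := p_wS_32_wQ_26_wN_1_rb8033062247 g_wS_32_wQ_26_wN_1_rb8033062247_d51_d1d g_wS_32_wQ_26_wN_1_rb8033062247_d51_d1c g_wS_32_wQ_26_wN_1_rb8033062247_d51_d1b g_wS_32_wQ_26_wN_1_rb8033062247_d51_d1a g_wS_32_wQ_26_wN_1_rb8033062247_d51_d18 g_wS_32_wQ_26_wN_1_rb8033062247_d51_d17 g_wS_32_wQ_26_wN_1_rb8033062247_d51_d14 g_wS_32_wQ_26_wN_1_rb8033062247_d51_d12 g_wS_32_wQ_26_wN_1_rb8033062247_d51_d0f g_wS_32_wQ_26_wN_1_rb8033062247_d51_d0e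 g_wS_32_wQ_26_wN_1_rb8033062247_d51_d0d g_wS_32_wQ_26_wN_1_rb8033062247_d51_d0b g_wS_32_wQ_26_wN_1_rb8033062247_d51_d0a g_wS_32_wQ_26_wN_1_rb8033062247_d51_d08 g__wS_32_wQ_26_wN_1_rb8033062247_0 g_wS_32_wQ_26_wN_1_rb8033062247_d51_d05 g_wS_32_wQ_26_wN_1_rb8033062247_d51_d04 g_wS_32_wQ_26_wN_1_rb8033062247_d51_d00 g_wS_32_wQ_26_wN_1_rb8033062247_d51_d01 g_wS_32_wQ_26_wN_1_rb8033062247_d51_d02 g_wS_32_wQ_26_wN_1_rb8033062247_d51_d03 g_wS_32_wQ_26_wN_1_rb8033062247_d51_d06 g_wS_32_wQ_26_wN_1_rb8033062247_d51_d07 g_wS_32_wQ_26_wN_1_rb8033062247_d51_d09 g_wS_32_wQ_26_wN_1_rb8033062247_d51_d0c g_wS_32_wQ_26_wN_1_rb8033062247_d51_d10 g_wS_32_wQ_26_wN_1_rb8033062247_d51_d11 g_wS_32_wQ_26_wN_1_rb8033062247_d51_d13 g_wS_32_wQ_26_wN_1_rb8033062247_d51_d15 g_wS_32_wQ_26_wN_1_rb8033062247_d51_d16 g_wS_32_wQ_26_wN_1_rb8033062247_d51_d19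

theorem g_wS_32_wQ_26_wN_1_rb8033062248x13 : GoodKC AS c_wS_32_wQ_26_wN_1_rb8033062248x13 := p_wS_32_wQ_26_wN_1_rb8033062248

theorem g__wS_32_wQ_26_wN_1_rb803306224a_d41_d18v1_3 : GoodKC AS k_wS_32_wQ_26_wN_1_rb803306224a_d41_d18v1_3 := p_wS_32_wQ_26_wN_1_rb803306224a_d41_d18v1_3

theorem g__wS_32_wQ_26_wN_1_rb803306224a_d41_d18v1_2 : GoodKC AS k_wS_32_wQ_26_wN_1_rb803306224a_d41_d18v1_2 := p_wS_32_wQ_26_wN_1_rb803306224a_d41_d18v1_2 g__wS_32_wQ_26_wN_1_rb803306224a_d41_d18v1_3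

theorem g__wS_32_wQ_26_wN_1_rb803306224a_d41_d18v1_1 : GoodKC AS k_wS_32_wQ_26_wN_1_rb803306224a_d41_d18v1_1 := p_wS_32_wQ_26_wN_1_rb803306224a_d41_d18v1_1 g__wS_32_wQ_26_wN_1_rb803306224a_d41_d18v1_2

theorem g__wS_32_wQ_26_wN_1_rb803306224a_d41_d18v1_5 : GoodKC AS k_wS_32_wQ_26_wN_1_rb803306224a_d41_d18v1_5 := p_wS_32_wQ_26_wN_1_rb803306224a_d41_d18v1_5

theorem g__wS_32_wQ_26_wN_1_rb803306224a_d41_d18v1_4 : GoodKC AS k_wS_32_wQ_26_wN_1_rb803306224a_d41_d18v1_4 := p_wS_32_wQ_26_wN_1_rb803306224a_d41_d18v1_4 g__wS_32_wQ_26_wN_1_rb803306224a_d41_d18v1_5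

theorem g__wS_32_wQ_26_wN_1_rb803306224a_d41_d18v1_10 : GoodKC AS k_wS_32_wQ_26_wN_1_rb803306224a_d41_d18v1_10 := p_wS_32_wQ_26_wN_1_rb803306224a_d41_d18v1_10

theorem g__wS_32_wQ_26_wN_1_rb803306224a_d41_d18v1_9 : GoodKC AS k_wS_32_wQ_26_wN_1_rb803306224a_d41_d18v1_9 := p_wS_32_wQ_26_wN_1_rb803306224a_d41_d18v1_9 g__wS_32_wQ_26_wN_1_rb803306224a_d41_d18v1_10

theorem g__wS_32_wQ_26_wN_1_rb803306224a_d41_d18v1_8 : GoodKC AS k_wS_32_wQ_26_wN_1_rb803306224a_d41_d18v1_8 := p_wS_32_wQ_26_wN_1_rb803306224a_d41_d18v1_8 g__wS_32_wQ_26_wN_1_rb803306224a_d41_d18v1_9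

theorem g__wS_32_wQ_26_wN_1_rb803306224a_d41_d18v1_12 : GoodKC AS k_wS_32_wQ_26_wN_1_rb803306224a_d41_d18v1_12 := p_wS_32_wQ_26_wN_1_rb803306224a_d41_d18v1_12

theorem g__wS_32_wQ_26_wN_1_rb803306224a_d41_d18v1_15 : GoodKC AS k_wS_32_wQ_26_wN_1_rb803306224a_d41_d18v1_15 := p_wS_32_wQ_26_wN_1_rb803306224a_d41_d18v1_15

theorem g__wS_32_wQ_26_wN_1_rb803306224a_d41_d18v1_14 : GoodKC AS k_wS_32_wQ_26_wN_1_rb803306224a_d41_d18v1_14 := p_wS_32_wQ_26_wN_1_rb803306224a_d41_d18v1_14 g__wS_32_wQ_26_wN_1_rb803306224a_d41_d18v1_15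

theorem g__wS_32_wQ_26_wN_1_rb803306224a_d41_d18v1_13 : GoodKC AS k_wS_32_wQ_26_wN_1_rb803306224a_d41_d18v1_13 := p_wS_32_wQ_26_wN_1_rb803306224a_d41_d18v1_13 g__wS_32_wQ_26_wN_1_rb803306224a_d41_d18v1_14

theorem g__wS_32_wQ_26_wN_1_rb803306224a_d41_d18v1_11 : GoodKC AS k_wS_32_wQ_26_wN_1_rb803306224a_d41_d18v1_11 := p_wS_32_wQ_26_wN_1_rb803306224a_d41_d18v1_11 g__wS_32_wQ_26_wN_1_rb803306224a_d41_d18v1_12 g__wS_32_wQ_26_wN_1_rb803306224a_d41_d18v1_13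

theorem g__wS_32_wQ_26_wN_1_rb803306224a_d41_d18v1_20 : GoodKC AS k_wS_32_wQ_26_wN_1_rb803306224a_d41_d18v1_20 := p_wS_32_wQ_26_wN_1_rb803306224a_d41_d18v1_20

theorem g__wS_32_wQ_26_wN_1_rb803306224a_d41_d18v1_23 : GoodKC AS k_wS_32_wQ_26_wN_1_rb803306224a_d41_d18v1_23 := p_wS_32_wQ_26_wN_1_rb803306224a_d41_d18v1_23

theorem g__wS_32_wQ_26_wN_1_rb803306224a_d41_d18v1_24 : GoodKC AS k_wS_32_wQ_26_wN_1_rb803306224a_d41_d18v1_24 := p_wS_32_wQ_26_wN_1_rb803306224a_d41_d18v1_24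

theorem g__wS_32_wQ_26_wN_1_rb803306224a_d41_d18v1_22 : GoodKC AS k_wS_32_wQ_26_wN_1_rb803306224a_d41_d18v1_22 := p_wS_32_wQ_26_wN_1_rb803306224a_d41_d18v1_22 g__wS_32_wQ_26_wN_1_rb803306224a_d41_d18v1_23 g__wS_32_wQ_26_wN_1_rb803306224a_d41_d18v1_24

theorem g__wS_32_wQ_26_wN_1_rb803306224a_d41_d18v1_27 : GoodKC AS k_wS_32_wQ_26_wN_1_rb803306224a_d41_d18v1_27 := p_wS_32_wQ_26_wN_1_rb803306224a_d41_d18v1_27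

theorem g__wS_32_wQ_26_wN_1_rb803306224a_d41_d18v1_26 : GoodKC AS k_wS_32_wQ_26_wN_1_rb803306224a_d41_d18v1_26 := p_wS_32_wQ_26_wN_1_rb803306224a_d41_d18v1_26 g__wS_32_wQ_26_wN_1_rb803306224a_d41_d18v1_27

theorem g__wS_32_wQ_26_wN_1_rb803306224a_d41_d18v1_25 : GoodKC AS k_wS_32_wQ_26_wN_1_rb803306224a_d41_d18v1_25 := p_wS_32_wQ_26_wN_1_rb803306224a_d41_d18v1_25 g__wS_32_wQ_26_wN_1_rb803306224a_d41_d18v1_26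

theorem g__wS_32_wQ_26_wN_1_rb803306224a_d41_d18v1_21 : GoodKC AS k_wS_32_wQ_26_wN_1_rb803306224a_d41_d18v1_21 := p_wS_32_wQ_26_wN_1_rb803306224a_d41_d18v1_21 g__wS_32_wQ_26_wN_1_rb803306224a_d41_d18v1_22 g__wS_32_wQ_26_wN_1_rb803306224a_d41_d18v1_25

theorem g__wS_32_wQ_26_wN_1_rb803306224a_d41_d18v1_19 : GoodKC AS k_wS_32_wQ_26_wN_1_rb803306224a_d41_d18v1_19 := p_wS_32_wQ_26_wN_1_rb803306224a_d41_d18v1_19 g__wS_32_wQ_26_wN_1_rb803306224a_d41_d18v1_20 g__wS_32_wQ_26_wN_1_rb803306224a_d41_d18v1_21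

theorem g__wS_32_wQ_26_wN_1_rb803306224a_d41_d18v1_18 : GoodKC AS k_wS_32_wQ_26_wN_1_rb803306224a_d41_d18v1_18 := p_wS_32_wQ_26_wN_1_rb803306224a_d41_d18v1_18 g__wS_32_wQ_26_wN_1_rb803306224a_d41_d18v1_19

theorem g__wS_32_wQ_26_wN_1_rb803306224a_d41_d18v1_17 : GoodKC AS k_wS_32_wQ_26_wN_1_rb803306224a_d41_d18v1_17 := p_wS_32_wQ_26_wN_1_rb803306224a_d41_d18v1_17 g__wS_32_wQ_26_wN_1_rb803306224a_d41_d18v1_18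

theorem g__wS_32_wQ_26_wN_1_rb803306224a_d41_d18v1_16 : GoodKC AS k_wS_32_wQ_26_wN_1_rb803306224a_d41_d18v1_16 := p_wS_32_wQ_26_wN_1_rb803306224a_d41_d18v1_16 g__wS_32_wQ_26_wN_1_rb803306224a_d41_d18v1_17

theorem g__wS_32_wQ_26_wN_1_rb803306224a_d41_d18v1_7 : GoodKC AS k_wS_32_wQ_26_wN_1_rb803306224a_d41_d18v1_7 := p_wS_32_wQ_26_wN_1_rb803306224a_d41_d18v1_7 g__wS_32_wQ_26_wN_1_rb803306224a_d41_d18v1_8 g__wS_32_wQ_26_wN_1_rb803306224a_d41_d18v1_11 g__wS_32_wQ_26_wN_1_rb803306224a_d41_d18v1_16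

theorem g__wS_32_wQ_26_wN_1_rb803306224a_d41_d18v1_6 : GoodKC AS k_wS_32_wQ_26_wN_1_rb803306224a_d41_d18v1_6 := p_wS_32_wQ_26_wN_1_rb803306224a_d41_d18v1_6 g__wS_32_wQ_26_wN_1_rb803306224a_d41_d18v1_7

theorem g__wS_32_wQ_26_wN_1_rb803306224a_d41_d18v1_0 : GoodKC AS k_wS_32_wQ_26_wN_1_rb803306224a_d41_d18v1_0 := p_wS_32_wQ_26_wN_1_rb803306224a_d41_d18v1_0 g__wS_32_wQ_26_wN_1_rb803306224a_d41_d18v1_1 g__wS_32_wQ_26_wN_1_rb803306224a_d41_d18v1_4 g__wS_32_wQ_26_wN_1_rb803306224a_d41_d18v1_6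

theorem g_wS_32_wQ_26_wN_1_rb803306224a_d41_d18v2 : GoodKC AS c_wS_32_wQ_26_wN_1_rb803306224a_d41_d18v2 := p_wS_32_wQ_26_wN_1_rb803306224a_d41_d18v1 g__wS_32_wQ_26_wN_1_rb803306224a_d41_d18v1_0

theorem g_wS_32_wQ_26_wN_1_rb803306224a_d41_d17_d51_d13 : GoodKC AS c_wS_32_wQ_26_wN_1_rb803306224a_d41_d17_d51_d13 := p_wS_32_wQ_26_wN_1_rb803306224a_d41_d17_d51_d13

theorem g_wS_32_wQ_26_wN_1_rb803306224a_d41_d17_d51_d12 : GoodKC AS c_wS_32_wQ_26_wN_1_rb803306224a_d41_d17_d51_d12 := p_wS_32_wQ_26_wN_1_rb803306224a_d41_d17_d51_d12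

theorem g__wS_32_wQ_26_wN_1_rb803306224a_d41_d17_d51_d0f_4 : GoodKC AS k_wS_32_wQ_26_wN_1_rb803306224a_d41_d17_d51_d0f_4 := p_wS_32_wQ_26_wN_1_rb803306224a_d41_d17_d51_d0f_4

theorem g__wS_32_wQ_26_wN_1_rb803306224a_d41_d17_d51_d0f_3 : GoodKC AS k_wS_32_wQ_26_wN_1_rb803306224a_d41_d17_d51_d0f_3 := p_wS_32_wQ_26_wN_1_rb803306224a_d41_d17_d51_d0f_3 g__wS_32_wQ_26_wN_1_rb803306224a_d41_d17_d51_d0f_4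

theorem g__wS_32_wQ_26_wN_1_rb803306224a_d41_d17_d51_d0f_5 : GoodKC AS k_wS_32_wQ_26_wN_1_rb803306224a_d41_d17_d51_d0f_5 := p_wS_32_wQ_26_wN_1_rb803306224a_d41_d17_d51_d0f_5

theorem g__wS_32_wQ_26_wN_1_rb803306224a_d41_d17_d51_d0f_6 : GoodKC AS k_wS_32_wQ_26_wN_1_rb803306224a_d41_d17_d51_d0f_6 := p_wS_32_wQ_26_wN_1_rb803306224a_d41_d17_d51_d0f_6

theorem g__wS_32_wQ_26_wN_1_rb803306224a_d41_d17_d51_d0f_7 : GoodKC AS k_wS_32_wQ_26_wN_1_rb803306224a_d41_d17_d51_d0f_7 := p_wS_32_wQ_26_wN_1_rb803306224a_d41_d17_d51_d0f_7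

theorem g__wS_32_wQ_26_wN_1_rb803306224a_d41_d17_d51_d0f_2 : GoodKC AS k_wS_32_wQ_26_wN_1_rb803306224a_d41_d17_d51_d0f_2 := p_wS_32_wQ_26_wN_1_rb803306224a_d41_d17_d51_d0f_2 g__wS_32_wQ_26_wN_1_rb803306224a_d41_d17_d51_d0f_3 g__wS_32_wQ_26_wN_1_rb803306224a_d41_d17_d51_d0f_5 g__wS_32_wQ_26_wN_1_rb803306224a_d41_d17_d51_d0f_6 g__wS_32_wQ_26_wN_1_rb803306224a_d41_d17_d51_d0f_7

theorem g__wS_32_wQ_26_wN_1_rb803306224a_d41_d17_d51_d0f_1 : GoodKC AS k_wS_32_wQ_26_wN_1_rb803306224a_d41_d17_d51_d0f_1 := p_wS_32_wQ_26_wN_1_rb803306224a_d41_d17_d51_d0f_1 g__wS_32_wQ_26_wN_1_rb803306224a_d41_d17_d51_d0f_2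

theorem g__wS_32_wQ_26_wN_1_rb803306224a_d41_d17_d51_d0f_0 : GoodKC AS k_wS_32_wQ_26_wN_1_rb803306224a_d41_d17_d51_d0f_0 := p_wS_32_wQ_26_wN_1_rb803306224a_d41_d17_d51_d0f_0 g__wS_32_wQ_26_wN_1_rb803306224a_d41_d17_d51_d0f_1

theorem g_wS_32_wQ_26_wN_1_rb803306224a_d41_d17_d51_d0f : GoodKC AS c_wS_32_wQ_26_wN_1_rb803306224a_d41_d17_d51_d0f := p_wS_32_wQ_26_wN_1_rb803306224a_d41_d17_d51_d0f g__wS_32_wQ_26_wN_1_rb803306224a_d41_d17_d51_d0f_0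

theorem g__wS_32_wQ_26_wN_1_rb803306224a_d41_d17_d51_d0ev1_3 : GoodKC AS k_wS_32_wQ_26_wN_1_rb803306224a_d41_d17_d51_d0ev1_3 := p_wS_32_wQ_26_wN_1_rb803306224a_d41_d17_d51_d0ev1_3

theorem g__wS_32_wQ_26_wN_1_rb803306224a_d41_d17_d51_d0ev1_5 : GoodKC AS k_wS_32_wQ_26_wN_1_rb803306224a_d41_d17_d51_d0ev1_5 := p_wS_32_wQ_26_wN_1_rb803306224a_d41_d17_d51_d0ev1_5

theorem g__wS_32_wQ_26_wN_1_rb803306224a_d41_d17_d51_d0ev1_4 : GoodKC AS k_wS_32_wQ_26_wN_1_rb803306224a_d41_d17_d51_d0ev1_4 := p_wS_32_wQ_26_wN_1_rb803306224a_d41_d17_d51_d0ev1_4 g__wS_32_wQ_26_wN_1_rb803306224a_d41_d17_d51_d0ev1_5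

theorem g__wS_32_wQ_26_wN_1_rb803306224a_d41_d17_d51_d0ev1_2 : GoodKC AS k_wS_32_wQ_26_wN_1_rb803306224a_d41_d17_d51_d0ev1_2 := p_wS_32_wQ_26_wN_1_rb803306224a_d41_d17_d51_d0ev1_2 g__wS_32_wQ_26_wN_1_rb803306224a_d41_d17_d51_d0ev1_3 g__wS_32_wQ_26_wN_1_rb803306224a_d41_d17_d51_d0ev1_4

theorem g__wS_32_wQ_26_wN_1_rb803306224a_d41_d17_d51_d0ev1_1 : GoodKC AS k_wS_32_wQ_26_wN_1_rb803306224a_d41_d17_d51_d0ev1_1 := p_wS_32_wQ_26_wN_1_rb803306224a_d41_d17_d51_d0ev1_1 g__wS_32_wQ_26_wN_1_rb803306224a_d41_d17_d51_d0ev1_2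

theorem g__wS_32_wQ_26_wN_1_rb803306224a_d41_d17_d51_d0ev1_8 : GoodKC AS k_wS_32_wQ_26_wN_1_rb803306224a_d41_d17_d51_d0ev1_8 := p_wS_32_wQ_26_wN_1_rb803306224a_d41_d17_d51_d0ev1_8

theorem g__wS_32_wQ_26_wN_1_rb803306224a_d41_d17_d51_d0ev1_10 : GoodKC AS k_wS_32_wQ_26_wN_1_rb803306224a_d41_d17_d51_d0ev1_10 := p_wS_32_wQ_26_wN_1_rb803306224a_d41_d17_d51_d0ev1_10

theorem g__wS_32_wQ_26_wN_1_rb803306224a_d41_d17_d51_d0ev1_9 : GoodKC AS k_wS_32_wQ_26_wN_1_rb803306224a_d41_d17_d51_d0ev1_9 := p_wS_32_wQ_26_wN_1_rb803306224a_d41_d17_d51_d0ev1_9 g__wS_32_wQ_26_wN_1_rb803306224a_d41_d17_d51_d0ev1_10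

theorem g__wS_32_wQ_26_wN_1_rb803306224a_d41_d17_d51_d0ev1_11 : GoodKC AS k_wS_32_wQ_26_wN_1_rb803306224a_d41_d17_d51_d0ev1_11 := p_wS_32_wQ_26_wN_1_rb803306224a_d41_d17_d51_d0ev1_11

theorem g__wS_32_wQ_26_wN_1_rb803306224a_d41_d17_d51_d0ev1_7 : GoodKC AS k_wS_32_wQ_26_wN_1_rb803306224a_d41_d17_d51_d0ev1_7 := p_wS_32_wQ_26_wN_1_rb803306224a_d41_d17_d51_d0ev1_7 g__wS_32_wQ_26_wN_1_rb803306224a_d41_d17_d51_d0ev1_8 g__wS_32_wQ_26_wN_1_rb803306224a_d41_d17_d51_d0ev1_9 g__wS_32_wQ_26_wN_1_rb803306224a_d41_d17_d51_d0ev1_11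

theorem g__wS_32_wQ_26_wN_1_rb803306224a_d41_d17_d51_d0ev1_6 : GoodKC AS k_wS_32_wQ_26_wN_1_rb803306224a_d41_d17_d51_d0ev1_6 := p_wS_32_wQ_26_wN_1_rb803306224a_d41_d17_d51_d0ev1_6 g__wS_32_wQ_26_wN_1_rb803306224a_d41_d17_d51_d0ev1_7

theorem g__wS_32_wQ_26_wN_1_rb803306224a_d41_d17_d51_d0ev1_0 : GoodKC AS k_wS_32_wQ_26_wN_1_rb803306224a_d41_d17_d51_d0ev1_0 := p_wS_32_wQ_26_wN_1_rb803306224a_d41_d17_d51_d0ev1_0 g__wS_32_wQ_26_wN_1_rb803306224a_d41_d17_d51_d0ev1_1 g__wS_32_wQ_26_wN_1_rb803306224a_d41_d17_d51_d0ev1_6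

theorem g_wS_32_wQ_26_wN_1_rb803306224a_d41_d17_d51_d0e : GoodKC AS c_wS_32_wQ_26_wN_1_rb803306224a_d41_d17_d51_d0e := p_wS_32_wQ_26_wN_1_rb803306224a_d41_d17_d51_d0ev1 g__wS_32_wQ_26_wN_1_rb803306224a_d41_d17_d51_d0ev1_0

theorem g_wS_32_wQ_26_wN_1_rb803306224a_d41_d17_d51_d0d : GoodKC AS c_wS_32_wQ_26_wN_1_rb803306224a_d41_d17_d51_d0d := p_wS_32_wQ_26_wN_1_rb803306224a_d41_d17_d51_d0d

theorem g_wS_32_wQ_26_wN_1_rb803306224a_d41_d17_d51_d0c : GoodKC AS c_wS_32_wQ_26_wN_1_rb803306224a_d41_d17_d51_d0c := p_wS_32_wQ_26_wN_1_rb803306224a_d41_d17_d51_d0c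

theorem g_wS_32_wQ_26_wN_1_rb803306224a_d41_d17_d51_d0b : GoodKC AS c_wS_32_wQ_26_wN_1_rb803306224a_d41_d17_d51_d0b := p_wS_32_wQ_26_wN_1_rb803306224a_d41_d17_d51_d0b

theorem g_wS_32_wQ_26_wN_1_rb803306224a_d41_d17_d51_d0a : GoodKC AS c_wS_32_wQ_26_wN_1_rb803306224a_d41_d17_d51_d0a := p_wS_32_wQ_26_wN_1_rb803306224a_d41_d17_d51_d0a

theorem g_wS_32_wQ_26_wN_1_rb803306224a_d41_d17_d51_d07 : GoodKC AS c_wS_32_wQ_26_wN_1_rb803306224a_d41_d17_d51_d07 := p_wS_32_wQ_26_wN_1_rb803306224a_d41_d17_d51_d07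

theorem g__wS_32_wQ_26_wN_1_rb803306224a_d41_d17_d51_d06_0 : GoodKC AS k_wS_32_wQ_26_wN_1_rb803306224a_d41_d17_d51_d06_0 := p_wS_32_wQ_26_wN_1_rb803306224a_d41_d17_d51_d06_0

theorem g_wS_32_wQ_26_wN_1_rb803306224a_d41_d17_d51_d06 : GoodKC AS c_wS_32_wQ_26_wN_1_rb803306224a_d41_d17_d51_d06 := p_wS_32_wQ_26_wN_1_rb803306224a_d41_d17_d51_d06 g__wS_32_wQ_26_wN_1_rb803306224a_d41_d17_d51_d06_0

theorem g__wS_32_wQ_26_wN_1_rb803306224a_d41_d17_d51_d05_3 : GoodKC AS k_wS_32_wQ_26_wN_1_rb803306224a_d41_d17_d51_d05_3 := p_wS_32_wQ_26_wN_1_rb803306224a_d41_d17_d51_d05_3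

theorem g__wS_32_wQ_26_wN_1_rb803306224a_d41_d17_d51_d05_9 : GoodKC AS k_wS_32_wQ_26_wN_1_rb803306224a_d41_d17_d51_d05_9 := p_wS_32_wQ_26_wN_1_rb803306224a_d41_d17_d51_d05_9

theorem g__wS_32_wQ_26_wN_1_rb803306224a_d41_d17_d51_d05_10 : GoodKC AS k_wS_32_wQ_26_wN_1_rb803306224a_d41_d17_d51_d05_10 := p_wS_32_wQ_26_wN_1_rb803306224a_d41_d17_d51_d05_10

theorem g__wS_32_wQ_26_wN_1_rb803306224a_d41_d17_d51_d05_8 : GoodKC AS k_wS_32_wQ_26_wN_1_rb803306224a_d41_d17_d51_d05_8 := p_wS_32_wQ_26_wN_1_rb803306224a_d41_d17_d51_d05_8 g__wS_32_wQ_26_wN_1_rb803306224a_d41_d17_d51_d05_9 g__wS_32_wQ_26_wN_1_rb803306224a_d41_d17_d51_d05_10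

theorem g__wS_32_wQ_26_wN_1_rb803306224a_d41_d17_d51_d05_7 : GoodKC AS k_wS_32_wQ_26_wN_1_rb803306224a_d41_d17_d51_d05_7 := p_wS_32_wQ_26_wN_1_rb803306224a_d41_d17_d51_d05_7 g__wS_32_wQ_26_wN_1_rb803306224a_d41_d17_d51_d05_8

theorem g__wS_32_wQ_26_wN_1_rb803306224a_d41_d17_d51_d05_6 : GoodKC AS k_wS_32_wQ_26_wN_1_rb803306224a_d41_d17_d51_d05_6 := p_wS_32_wQ_26_wN_1_rb803306224a_d41_d17_d51_d05_6 g__wS_32_wQ_26_wN_1_rb803306224a_d41_d17_d51_d05_7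

theorem g__wS_32_wQ_26_wN_1_rb803306224a_d41_d17_d51_d05_11 : GoodKC AS k_wS_32_wQ_26_wN_1_rb803306224a_d41_d17_d51_d05_11 := p_wS_32_wQ_26_wN_1_rb803306224a_d41_d17_d51_d05_11

theorem g__wS_32_wQ_26_wN_1_rb803306224a_d41_d17_d51_d05_5 : GoodKC AS k_wS_32_wQ_26_wN_1_rb803306224a_d41_d17_d51_d05_5 := p_wS_32_wQ_26_wN_1_rb803306224a_d41_d17_d51_d05_5 g__wS_32_wQ_26_wN_1_rb803306224a_d41_d17_d51_d05_6 g__wS_32_wQ_26_wN_1_rb803306224a_d41_d17_d51_d05_11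

theorem g__wS_32_wQ_26_wN_1_rb803306224a_d41_d17_d51_d05_4 : GoodKC AS k_wS_32_wQ_26_wN_1_rb803306224a_d41_d17_d51_d05_4 := p_wS_32_wQ_26_wN_1_rb803306224a_d41_d17_d51_d05_4 g__wS_32_wQ_26_wN_1_rb803306224a_d41_d17_d51_d05_5

theorem g__wS_32_wQ_26_wN_1_rb803306224a_d41_d17_d51_d05_2 : GoodKC AS k_wS_32_wQ_26_wN_1_rb803306224a_d41_d17_d51_d05_2 := p_wS_32_wQ_26_wN_1_rb803306224a_d41_d17_d51_d05_2 g__wS_32_wQ_26_wN_1_rb803306224a_d41_d17_d51_d05_3 g__wS_32_wQ_26_wN_1_rb803306224a_d41_d17_d51_d05_4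

theorem g__wS_32_wQ_26_wN_1_rb803306224a_d41_d17_d51_d05_1 : GoodKC AS k_wS_32_wQ_26_wN_1_rb803306224a_d41_d17_d51_d05_1 := p_wS_32_wQ_26_wN_1_rb803306224a_d41_d17_d51_d05_1 g__wS_32_wQ_26_wN_1_rb803306224a_d41_d17_d51_d05_2

theorem g__wS_32_wQ_26_wN_1_rb803306224a_d41_d17_d51_d05_12 : GoodKC AS k_wS_32_wQ_26_wN_1_rb803306224a_d41_d17_d51_d05_12 := p_wS_32_wQ_26_wN_1_rb803306224a_d41_d17_d51_d05_12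

theorem g__wS_32_wQ_26_wN_1_rb803306224a_d41_d17_d51_d05_15 : GoodKC AS k_wS_32_wQ_26_wN_1_rb803306224a_d41_d17_d51_d05_15 := p_wS_32_wQ_26_wN_1_rb803306224a_d41_d17_d51_d05_15

theorem g__wS_32_wQ_26_wN_1_rb803306224a_d41_d17_d51_d05_18 : GoodKC AS k_wS_32_wQ_26_wN_1_rb803306224a_d41_d17_d51_d05_18 := p_wS_32_wQ_26_wN_1_rb803306224a_d41_d17_d51_d05_18

theorem g__wS_32_wQ_26_wN_1_rb803306224a_d41_d17_d51_d05_17 : GoodKC AS k_wS_32_wQ_26_wN_1_rb803306224a_d41_d17_d51_d05_17 := p_wS_32_wQ_26_wN_1_rb803306224a_d41_d17_d51_d05_17 g__wS_32_wQ_26_wN_1_rb803306224a_d41_d17_d51_d05_18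

theorem g__wS_32_wQ_26_wN_1_rb803306224a_d41_d17_d51_d05_16 : GoodKC AS k_wS_32_wQ_26_wN_1_rb803306224a_d41_d17_d51_d05_16 := p_wS_32_wQ_26_wN_1_rb803306224a_d41_d17_d51_d05_16 g__wS_32_wQ_26_wN_1_rb803306224a_d41_d17_d51_d05_17

theorem g__wS_32_wQ_26_wN_1_rb803306224a_d41_d17_d51_d05_14 : GoodKC AS k_wS_32_wQ_26_wN_1_rb803306224a_d41_d17_d51_d05_14 := p_wS_32_wQ_26_wN_1_rb803306224a_d41_d17_d51_d05_14 g__wS_32_wQ_26_wN_1_rb803306224a_d41_d17_d51_d05_15 g__wS_32_wQ_26_wN_1_rb803306224a_d41_d17_d51_d05_16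

theorem g__wS_32_wQ_26_wN_1_rb803306224a_d41_d17_d51_d05_19 : GoodKC AS k_wS_32_wQ_26_wN_1_rb803306224a_d41_d17_d51_d05_19 := p_wS_32_wQ_26_wN_1_rb803306224a_d41_d17_d51_d05_19

theorem g__wS_32_wQ_26_wN_1_rb803306224a_d41_d17_d51_d05_13 : GoodKC AS k_wS_32_wQ_26_wN_1_rb803306224a_d41_d17_d51_d05_13 := p_wS_32_wQ_26_wN_1_rb803306224a_d41_d17_d51_d05_13 g__wS_32_wQ_26_wN_1_rb803306224a_d41_d17_d51_d05_14 g__wS_32_wQ_26_wN_1_rb803306224a_d41_d17_d51_d05_19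

theorem g__wS_32_wQ_26_wN_1_rb803306224a_d41_d17_d51_d05_0 : GoodKC AS k_wS_32_wQ_26_wN_1_rb803306224a_d41_d17_d51_d05_0 := p_wS_32_wQ_26_wN_1_rb803306224a_d41_d17_d51_d05_0 g__wS_32_wQ_26_wN_1_rb803306224a_d41_d17_d51_d05_1 g__wS_32_wQ_26_wN_1_rb803306224a_d41_d17_d51_d05_12 g__wS_32_wQ_26_wN_1_rb803306224a_d41_d17_d51_d05_13

theorem g_wS_32_wQ_26_wN_1_rb803306224a_d41_d17_d51_d05 : GoodKC AS c_wS_32_wQ_26_wN_1_rb803306224a_d41_d17_d51_d05 := p_wS_32_wQ_26_wN_1_rb803306224a_d41_d17_d51_d05 g__wS_32_wQ_26_wN_1_rb803306224a_d41_d17_d51_d05_0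

theorem g_wS_32_wQ_26_wN_1_rb803306224a_d41_d17_d51_d04 : GoodKC AS c_wS_32_wQ_26_wN_1_rb803306224a_d41_d17_d51_d04 := p_wS_32_wQ_26_wN_1_rb803306224a_d41_d17_d51_d04

theorem g_wS_32_wQ_26_wN_1_rb803306224a_d41_d17_d51_d03 : GoodKC AS c_wS_32_wQ_26_wN_1_rb803306224a_d41_d17_d51_d03 := p_wS_32_wQ_26_wN_1_rb803306224a_d41_d17_d51_d03

theorem g_wS_32_wQ_26_wN_1_rb803306224a_d41_d17_d51_d01 : GoodKC AS c_wS_32_wQ_26_wN_1_rb803306224a_d41_d17_d51_d01 := p_wS_32_wQ_26_wN_1_rb803306224a_d41_d17_d51_d01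

theorem g_wS_32_wQ_26_wN_1_rb803306224a_d41_d17_d51_d00_d51_d22 : GoodKC AS c_wS_32_wQ_26_wN_1_rb803306224a_d41_d17_d51_d00_d51_d22 := p_wS_32_wQ_26_wN_1_rb803306224a_d41_d17_d51_d00_d51_d22

theorem g__wS_32_wQ_26_wN_1_rb803306224a_d41_d17_d51_d00_d51_d20_0 : GoodKC AS k_wS_32_wQ_26_wN_1_rb803306224a_d41_d17_d51_d00_d51_d20_0 := p_wS_32_wQ_26_wN_1_rb803306224a_d41_d17_d51_d00_d51_d20_0

theorem g__wS_32_wQ_26_wN_1_rb803306224a_d41_d17_d51_d00_d51_d20_2 : GoodKC AS k_wS_32_wQ_26_wN_1_rb803306224a_d41_d17_d51_d00_d51_d20_2 := p_wS_32_wQ_26_wN_1_rb803306224a_d41_d17_d51_d00_d51_d20_2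

theorem g__wS_32_wQ_26_wN_1_rb803306224a_d41_d17_d51_d00_d51_d20_1 : GoodKC AS k_wS_32_wQ_26_wN_1_rb803306224a_d41_d17_d51_d00_d51_d20_1 := p_wS_32_wQ_26_wN_1_rb803306224a_d41_d17_d51_d00_d51_d20_1 g__wS_32_wQ_26_wN_1_rb803306224a_d41_d17_d51_d00_d51_d20_2

theorem g_wS_32_wQ_26_wN_1_rb803306224a_d41_d17_d51_d00_d51_d20 : GoodKC AS c_wS_32_wQ_26_wN_1_rb803306224a_d41_d17_d51_d00_d51_d20 := p_wS_32_wQ_26_wN_1_rb803306224a_d41_d17_d51_d00_d51_d20 g__wS_32_wQ_26_wN_1_rb803306224a_d41_d17_d51_d00_d51_d20_0 g__wS_32_wQ_26_wN_1_rb803306224a_d41_d17_d51_d00_d51_d20_1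

theorem g_wS_32_wQ_26_wN_1_rb803306224a_d41_d17_d51_d00_d51_d1f : GoodKC AS c_wS_32_wQ_26_wN_1_rb803306224a_d41_d17_d51_d00_d51_d1f := p_wS_32_wQ_26_wN_1_rb803306224a_d41_d17_d51_d00_d51_d1f

theorem g__wS_32_wQ_26_wN_1_rb803306224a_d41_d17_d51_d00_d51_d1e_1 : GoodKC AS k_wS_32_wQ_26_wN_1_rb803306224a_d41_d17_d51_d00_d51_d1e_1 := p_wS_32_wQ_26_wN_1_rb803306224a_d41_d17_d51_d00_d51_d1e_1

theorem g__wS_32_wQ_26_wN_1_rb803306224a_d41_d17_d51_d00_d51_d1e_4 : GoodKC AS k_wS_32_wQ_26_wN_1_rb803306224a_d41_d17_d51_d00_d51_d1e_4 := p_wS_32_wQ_26_wN_1_rb803306224a_d41_d17_d51_d00_d51_d1e_4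

theorem g__wS_32_wQ_26_wN_1_rb803306224a_d41_d17_d51_d00_d51_d1e_6 : GoodKC AS k_wS_32_wQ_26_wN_1_rb803306224a_d41_d17_d51_d00_d51_d1e_6 := p_wS_32_wQ_26_wN_1_rb803306224a_d41_d17_d51_d00_d51_d1e_6

theorem g__wS_32_wQ_26_wN_1_rb803306224a_d41_d17_d51_d00_d51_d1e_5 : GoodKC AS k_wS_32_wQ_26_wN_1_rb803306224a_d41_d17_d51_d00_d51_d1e_5 := p_wS_32_wQ_26_wN_1_rb803306224a_d41_d17_d51_d00_d51_d1e_5 g__wS_32_wQ_26_wN_1_rb803306224a_d41_d17_d51_d00_d51_d1e_6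

theorem g__wS_32_wQ_26_wN_1_rb803306224a_d41_d17_d51_d00_d51_d1e_3 : GoodKC AS k_wS_32_wQ_26_wN_1_rb803306224a_d41_d17_d51_d00_d51_d1e_3 := p_wS_32_wQ_26_wN_1_rb803306224a_d41_d17_d51_d00_d51_d1e_3 g__wS_32_wQ_26_wN_1_rb803306224a_d41_d17_d51_d00_d51_d1e_4 g__wS_32_wQ_26_wN_1_rb803306224a_d41_d17_d51_d00_d51_d1e_5

theorem g__wS_32_wQ_26_wN_1_rb803306224a_d41_d17_d51_d00_d51_d1e_2 : GoodKC AS k_wS_32_wQ_26_wN_1_rb803306224a_d41_d17_d51_d00_d51_d1e_2 := p_wS_32_wQ_26_wN_1_rb803306224a_d41_d17_d51_d00_d51_d1e_2 g__wS_32_wQ_26_wN_1_rb803306224a_d41_d17_d51_d00_d51_d1e_3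

theorem g__wS_32_wQ_26_wN_1_rb803306224a_d41_d17_d51_d00_d51_d1e_8 : GoodKC AS k_wS_32_wQ_26_wN_1_rb803306224a_d41_d17_d51_d00_d51_d1e_8 := p_wS_32_wQ_26_wN_1_rb803306224a_d41_d17_d51_d00_d51_d1e_8

theorem g__wS_32_wQ_26_wN_1_rb803306224a_d41_d17_d51_d00_d51_d1e_9 : GoodKC AS k_wS_32_wQ_26_wN_1_rb803306224a_d41_d17_d51_d00_d51_d1e_9 := p_wS_32_wQ_26_wN_1_rb803306224a_d41_d17_d51_d00_d51_d1e_9

theorem g__wS_32_wQ_26_wN_1_rb803306224a_d41_d17_d51_d00_d51_d1e_7 : GoodKC AS k_wS_32_wQ_26_wN_1_rb803306224a_d41_d17_d51_d00_d51_d1e_7 := p_wS_32_wQ_26_wN_1_rb803306224a_d41_d17_d51_d00_d51_d1e_7 g__wS_32_wQ_26_wN_1_rb803306224a_d41_d17_d51_d00_d51_d1e_8 g__wS_32_wQ_26_wN_1_rb803306224a_d41_d17_d51_d00_d51_d1e_9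

theorem g__wS_32_wQ_26_wN_1_rb803306224a_d41_d17_d51_d00_d51_d1e_0 : GoodKC AS k_wS_32_wQ_26_wN_1_rb803306224a_d41_d17_d51_d00_d51_d1e_0 := p_wS_32_wQ_26_wN_1_rb803306224a_d41_d17_d51_d00_d51_d1e_0 g__wS_32_wQ_26_wN_1_rb803306224a_d41_d17_d51_d00_d51_d1e_1 g__wS_32_wQ_26_wN_1_rb803306224a_d41_d17_d51_d00_d51_d1e_2 g__wS_32_wQ_26_wN_1_rb803306224a_d41_d17_d51_d00_d51_d1e_7

theorem g_wS_32_wQ_26_wN_1_rb803306224a_d41_d17_d51_d00_d51_d1e : GoodKC AS c_wS_32_wQ_26_wN_1_rb803306224a_d41_d17_d51_d00_d51_d1e := p_wS_32_wQ_26_wN_1_rb803306224a_d41_d17_d51_d00_d51_d1e g__wS_32_wQ_26_wN_1_rb803306224a_d41_d17_d51_d00_d51_d1e_0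

theorem g_wS_32_wQ_26_wN_1_rb803306224a_d41_d17_d51_d00_d51_d1a : GoodKC AS c_wS_32_wQ_26_wN_1_rb803306224a_d41_d17_d51_d00_d51_d1a := p_wS_32_wQ_26_wN_1_rb803306224a_d41_d17_d51_d00_d51_d1a

theorem g__wS_32_wQ_26_wN_1_rb803306224a_d41_d17_d51_d00_d51_d19_0 : GoodKC AS k_wS_32_wQ_26_wN_1_rb803306224a_d41_d17_d51_d00_d51_d19_0 := p_wS_32_wQ_26_wN_1_rb803306224a_d41_d17_d51_d00_d51_d19_0

theorem g__wS_32_wQ_26_wN_1_rb803306224a_d41_d17_d51_d00_d51_d19_1 : GoodKC AS k_wS_32_wQ_26_wN_1_rb803306224a_d41_d17_d51_d00_d51_d19_1 := p_wS_32_wQ_26_wN_1_rb803306224a_d41_d17_d51_d00_d51_d19_1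

theorem g_wS_32_wQ_26_wN_1_rb803306224a_d41_d17_d51_d00_d51_d19 : GoodKC AS c_wS_32_wQ_26_wN_1_rb803306224a_d41_d17_d51_d00_d51_d19 := p_wS_32_wQ_26_wN_1_rb803306224a_d41_d17_d51_d00_d51_d19 g__wS_32_wQ_26_wN_1_rb803306224a_d41_d17_d51_d00_d51_d19_0 g__wS_32_wQ_26_wN_1_rb803306224a_d41_d17_d51_d00_d51_d19_1

theorem g_wS_32_wQ_26_wN_1_rb803306224a_d41_d17_d51_d00_d51_d18 : GoodKC AS c_wS_32_wQ_26_wN_1_rb803306224a_d41_d17_d51_d00_d51_d18 := p_wS_32_wQ_26_wN_1_rb803306224a_d41_d17_d51_d00_d51_d18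

theorem g_wS_32_wQ_26_wN_1_rb803306224a_d41_d17_d51_d00_d51_d16 : GoodKC AS c_wS_32_wQ_26_wN_1_rb803306224a_d41_d17_d51_d00_d51_d16 := p_wS_32_wQ_26_wN_1_rb803306224a_d41_d17_d51_d00_d51_d16

theorem g_wS_32_wQ_26_wN_1_rb803306224a_d41_d17_d51_d00_d51_d12 : GoodKC AS c_wS_32_wQ_26_wN_1_rb803306224a_d41_d17_d51_d00_d51_d12 := p_wS_32_wQ_26_wN_1_rb803306224a_d41_d17_d51_d00_d51_d12

theorem g_wS_32_wQ_26_wN_1_rb803306224a_d41_d17_d51_d00_d51_d11 : GoodKC AS c_wS_32_wQ_26_wN_1_rb803306224a_d41_d17_d51_d00_d51_d11 := p_wS_32_wQ_26_wN_1_rb803306224a_d41_d17_d51_d00_d51_d11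

theorem g__wS_32_wQ_26_wN_1_rb803306224a_d41_d17_d51_d00_d51_d10_0 : GoodKC AS k_wS_32_wQ_26_wN_1_rb803306224a_d41_d17_d51_d00_d51_d10_0 := p_wS_32_wQ_26_wN_1_rb803306224a_d41_d17_d51_d00_d51_d10_0

theorem g_wS_32_wQ_26_wN_1_rb803306224a_d41_d17_d51_d00_d51_d10 : GoodKC AS c_wS_32_wQ_26_wN_1_rb803306224a_d41_d17_d51_d00_d51_d10 := p_wS_32_wQ_26_wN_1_rb803306224a_d41_d17_d51_d00_d51_d10 g__wS_32_wQ_26_wN_1_rb803306224a_d41_d17_d51_d00_d51_d10_0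

theorem g_wS_32_wQ_26_wN_1_rb803306224a_d41_d17_d51_d00_d51_d0f : GoodKC AS c_wS_32_wQ_26_wN_1_rb803306224a_d41_d17_d51_d00_d51_d0f := p_wS_32_wQ_26_wN_1_rb803306224a_d41_d17_d51_d00_d51_d0f

theorem g_wS_32_wQ_26_wN_1_rb803306224a_d41_d17_d51_d00_d51_d0e : GoodKC AS c_wS_32_wQ_26_wN_1_rb803306224a_d41_d17_d51_d00_d51_d0e := p_wS_32_wQ_26_wN_1_rb803306224a_d41_d17_d51_d00_d51_d0e

theorem g_wS_32_wQ_26_wN_1_rb803306224a_d41_d17_d51_d00_d51_d0d : GoodKC AS c_wS_32_wQ_26_wN_1_rb803306224a_d41_d17_d51_d00_d51_d0d := p_wS_32_wQ_26_wN_1_rb803306224a_d41_d17_d51_d00_d51_d0d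

theorem g__wS_32_wQ_26_wN_1_rb803306224a_d41_d17_d51_d00_d51_d0cv1_1 : GoodKC AS k_wS_32_wQ_26_wN_1_rb803306224a_d41_d17_d51_d00_d51_d0cv1_1 := p_wS_32_wQ_26_wN_1_rb803306224a_d41_d17_d51_d00_d51_d0cv1_1

theorem g__wS_32_wQ_26_wN_1_rb803306224a_d41_d17_d51_d00_d51_d0cv1_0 : GoodKC AS k_wS_32_wQ_26_wN_1_rb803306224a_d41_d17_d51_d00_d51_d0cv1_0 := p_wS_32_wQ_26_wN_1_rb803306224a_d41_d17_d51_d00_d51_d0cv1_0 g__wS_32_wQ_26_wN_1_rb803306224a_d41_d17_d51_d00_d51_d0cv1_1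

theorem g__wS_32_wQ_26_wN_1_rb803306224a_d41_d17_d51_d00_d51_d0cv1_2 : GoodKC AS k_wS_32_wQ_26_wN_1_rb803306224a_d41_d17_d51_d00_d51_d0cv1_2 := p_wS_32_wQ_26_wN_1_rb803306224a_d41_d17_d51_d00_d51_d0cv1_2

theorem g_wS_32_wQ_26_wN_1_rb803306224a_d41_d17_d51_d00_d51_d0c : GoodKC AS c_wS_32_wQ_26_wN_1_rb803306224a_d41_d17_d51_d00_d51_d0c := p_wS_32_wQ_26_wN_1_rb803306224a_d41_d17_d51_d00_d51_d0cv1 g__wS_32_wQ_26_wN_1_rb803306224a_d41_d17_d51_d00_d51_d0cv1_0 g__wS_32_wQ_26_wN_1_rb803306224a_d41_d17_d51_d00_d51_d0cv1_2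

theorem g_wS_32_wQ_26_wN_1_rb803306224a_d41_d17_d51_d00_d51_d0b : GoodKC AS c_wS_32_wQ_26_wN_1_rb803306224a_d41_d17_d51_d00_d51_d0b := p_wS_32_wQ_26_wN_1_rb803306224a_d41_d17_d51_d00_d51_d0b

theorem g__wS_32_wQ_26_wN_1_rb803306224a_d41_d17_d51_d00_d51_d08_3 : GoodKC AS k_wS_32_wQ_26_wN_1_rb803306224a_d41_d17_d51_d00_d51_d08_3 := p_wS_32_wQ_26_wN_1_rb803306224a_d41_d17_d51_d00_d51_d08_3

theorem g__wS_32_wQ_26_wN_1_rb803306224a_d41_d17_d51_d00_d51_d08_2 : GoodKC AS k_wS_32_wQ_26_wN_1_rb803306224a_d41_d17_d51_d00_d51_d08_2 := p_wS_32_wQ_26_wN_1_rb803306224a_d41_d17_d51_d00_d51_d08_2 g__wS_32_wQ_26_wN_1_rb803306224a_d41_d17_d51_d00_d51_d08_3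

theorem g__wS_32_wQ_26_wN_1_rb803306224a_d41_d17_d51_d00_d51_d08_5 : GoodKC AS k_wS_32_wQ_26_wN_1_rb803306224a_d41_d17_d51_d00_d51_d08_5 := p_wS_32_wQ_26_wN_1_rb803306224a_d41_d17_d51_d00_d51_d08_5

theorem g__wS_32_wQ_26_wN_1_rb803306224a_d41_d17_d51_d00_d51_d08_4 : GoodKC AS k_wS_32_wQ_26_wN_1_rb803306224a_d41_d17_d51_d00_d51_d08_4 := p_wS_32_wQ_26_wN_1_rb803306224a_d41_d17_d51_d00_d51_d08_4 g__wS_32_wQ_26_wN_1_rb803306224a_d41_d17_d51_d00_d51_d08_5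

theorem g__wS_32_wQ_26_wN_1_rb803306224a_d41_d17_d51_d00_d51_d08_1 : GoodKC AS k_wS_32_wQ_26_wN_1_rb803306224a_d41_d17_d51_d00_d51_d08_1 := p_wS_32_wQ_26_wN_1_rb803306224a_d41_d17_d51_d00_d51_d08_1 g__wS_32_wQ_26_wN_1_rb803306224a_d41_d17_d51_d00_d51_d08_2 g__wS_32_wQ_26_wN_1_rb803306224a_d41_d17_d51_d00_d51_d08_4

theorem g__wS_32_wQ_26_wN_1_rb803306224a_d41_d17_d51_d00_d51_d08_8 : GoodKC AS k_wS_32_wQ_26_wN_1_rb803306224a_d41_d17_d51_d00_d51_d08_8 := p_wS_32_wQ_26_wN_1_rb803306224a_d41_d17_d51_d00_d51_d08_8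

theorem g__wS_32_wQ_26_wN_1_rb803306224a_d41_d17_d51_d00_d51_d08_7 : GoodKC AS k_wS_32_wQ_26_wN_1_rb803306224a_d41_d17_d51_d00_d51_d08_7 := p_wS_32_wQ_26_wN_1_rb803306224a_d41_d17_d51_d00_d51_d08_7 g__wS_32_wQ_26_wN_1_rb803306224a_d41_d17_d51_d00_d51_d08_8

theorem g__wS_32_wQ_26_wN_1_rb803306224a_d41_d17_d51_d00_d51_d08_6 : GoodKC AS k_wS_32_wQ_26_wN_1_rb803306224a_d41_d17_d51_d00_d51_d08_6 := p_wS_32_wQ_26_wN_1_rb803306224a_d41_d17_d51_d00_d51_d08_6 g__wS_32_wQ_26_wN_1_rb803306224a_d41_d17_d51_d00_d51_d08_7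

theorem g__wS_32_wQ_26_wN_1_rb803306224a_d41_d17_d51_d00_d51_d08_0 : GoodKC AS k_wS_32_wQ_26_wN_1_rb803306224a_d41_d17_d51_d00_d51_d08_0 := p_wS_32_wQ_26_wN_1_rb803306224a_d41_d17_d51_d00_d51_d08_0 g__wS_32_wQ_26_wN_1_rb803306224a_d41_d17_d51_d00_d51_d08_1 g__wS_32_wQ_26_wN_1_rb803306224a_d41_d17_d51_d00_d51_d08_6

theorem g_wS_32_wQ_26_wN_1_rb803306224a_d41_d17_d51_d00_d51_d08 : GoodKC AS c_wS_32_wQ_26_wN_1_rb803306224a_d41_d17_d51_d00_d51_d08 := p_wS_32_wQ_26_wN_1_rb803306224a_d41_d17_d51_d00_d51_d08 g__wS_32_wQ_26_wN_1_rb803306224a_d41_d17_d51_d00_d51_d08_0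

theorem g__wS_32_wQ_26_wN_1_rb803306224a_d41_d17_d51_d00_d51_d05_2 : GoodKC AS k_wS_32_wQ_26_wN_1_rb803306224a_d41_d17_d51_d00_d51_d05_2 := p_wS_32_wQ_26_wN_1_rb803306224a_d41_d17_d51_d00_d51_d05_2

theorem g__wS_32_wQ_26_wN_1_rb803306224a_d41_d17_d51_d00_d51_d05_3 : GoodKC AS k_wS_32_wQ_26_wN_1_rb803306224a_d41_d17_d51_d00_d51_d05_3 := p_wS_32_wQ_26_wN_1_rb803306224a_d41_d17_d51_d00_d51_d05_3

theorem g__wS_32_wQ_26_wN_1_rb803306224a_d41_d17_d51_d00_d51_d05_1 : GoodKC AS k_wS_32_wQ_26_wN_1_rb803306224a_d41_d17_d51_d00_d51_d05_1 := p_wS_32_wQ_26_wN_1_rb803306224a_d41_d17_d51_d00_d51_d05_1 g__wS_32_wQ_26_wN_1_rb803306224a_d41_d17_d51_d00_d51_d05_2 g__wS_32_wQ_26_wN_1_rb803306224a_d41_d17_d51_d00_d51_d05_3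

theorem g__wS_32_wQ_26_wN_1_rb803306224a_d41_d17_d51_d00_d51_d05_0 : GoodKC AS k_wS_32_wQ_26_wN_1_rb803306224a_d41_d17_d51_d00_d51_d05_0 := p_wS_32_wQ_26_wN_1_rb803306224a_d41_d17_d51_d00_d51_d05_0 g__wS_32_wQ_26_wN_1_rb803306224a_d41_d17_d51_d00_d51_d05_1

theorem g_wS_32_wQ_26_wN_1_rb803306224a_d41_d17_d51_d00_d51_d05 : GoodKC AS c_wS_32_wQ_26_wN_1_rb803306224a_d41_d17_d51_d00_d51_d05 := p_wS_32_wQ_26_wN_1_rb803306224a_d41_d17_d51_d00_d51_d05 g__wS_32_wQ_26_wN_1_rb803306224a_d41_d17_d51_d00_d51_d05_0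

theorem g_wS_32_wQ_26_wN_1_rb803306224a_d41_d17_d51_d00_d51_d04_d55_d08v1 : GoodKC AS c_wS_32_wQ_26_wN_1_rb803306224a_d41_d17_d51_d00_d51_d04_d55_d08v1 := p_wS_32_wQ_26_wN_1_rb803306224a_d41_d17_d51_d00_d51_d04_d55_d08

theorem g__wS_32_wQ_26_wN_1_rb803306224a_d41_d17_d51_d00_d51_d04_d55_d0504_2 : GoodKC AS k_wS_32_wQ_26_wN_1_rb803306224a_d41_d17_d51_d00_d51_d04_d55_d0504_2 := p_wS_32_wQ_26_wN_1_rb803306224a_d41_d17_d51_d00_d51_d04_d55_d0504_2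

theorem g__wS_32_wQ_26_wN_1_rb803306224a_d41_d17_d51_d00_d51_d04_d55_d0504_1 : GoodKC AS k_wS_32_wQ_26_wN_1_rb803306224a_d41_d17_d51_d00_d51_d04_d55_d0504_1 := p_wS_32_wQ_26_wN_1_rb803306224a_d41_d17_d51_d00_d51_d04_d55_d0504_1 g__wS_32_wQ_26_wN_1_rb803306224a_d41_d17_d51_d00_d51_d04_d55_d0504_2

theorem g__wS_32_wQ_26_wN_1_rb803306224a_d41_d17_d51_d00_d51_d04_d55_d0504_0 : GoodKC AS k_wS_32_wQ_26_wN_1_rb803306224a_d41_d17_d51_d00_d51_d04_d55_d0504_0 := p_wS_32_wQ_26_wN_1_rb803306224a_d41_d17_d51_d00_d51_d04_d55_d0504_0 g__wS_32_wQ_26_wN_1_rb803306224a_d41_d17_d51_d00_d51_d04_d55_d0504_1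

theorem g__wS_32_wQ_26_wN_1_rb803306224a_d41_d17_d51_d00_d51_d04_d55_d0504_3 : GoodKC AS k_wS_32_wQ_26_wN_1_rb803306224a_d41_d17_d51_d00_d51_d04_d55_d0504_3 := p_wS_32_wQ_26_wN_1_rb803306224a_d41_d17_d51_d00_d51_d04_d55_d0504_3

theorem g_wS_32_wQ_26_wN_1_rb803306224a_d41_d17_d51_d00_d51_d04_d55_d0504 : GoodKC AS c_wS_32_wQ_26_wN_1_rb803306224a_d41_d17_d51_d00_d51_d04_d55_d0504 := p_wS_32_wQ_26_wN_1_rb803306224a_d41_d17_d51_d00_d51_d04_d55_d0504 g__wS_32_wQ_26_wN_1_rb803306224a_d41_d17_d51_d00_d51_d04_d55_d0504_0 g__wS_32_wQ_26_wN_1_rb803306224a_d41_d17_d51_d00_d51_d04_d55_d0504_3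

theorem g__wS_32_wQ_26_wN_1_rb803306224a_d41_d17_d51_d00_d51_d04_d55_d0503_0 : GoodKC AS k_wS_32_wQ_26_wN_1_rb803306224a_d41_d17_d51_d00_d51_d04_d55_d0503_0 := p_wS_32_wQ_26_wN_1_rb803306224a_d41_d17_d51_d00_d51_d04_d55_d0503_0

theorem g__wS_32_wQ_26_wN_1_rb803306224a_d41_d17_d51_d00_d51_d04_d55_d0503_1 : GoodKC AS k_wS_32_wQ_26_wN_1_rb803306224a_d41_d17_d51_d00_d51_d04_d55_d0503_1 := p_wS_32_wQ_26_wN_1_rb803306224a_d41_d17_d51_d00_d51_d04_d55_d0503_1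

theorem g__wS_32_wQ_26_wN_1_rb803306224a_d41_d17_d51_d00_d51_d04_d55_d0503_3 : GoodKC AS k_wS_32_wQ_26_wN_1_rb803306224a_d41_d17_d51_d00_d51_d04_d55_d0503_3 := p_wS_32_wQ_26_wN_1_rb803306224a_d41_d17_d51_d00_d51_d04_d55_d0503_3

theorem g__wS_32_wQ_26_wN_1_rb803306224a_d41_d17_d51_d00_d51_d04_d55_d0503_2 : GoodKC AS k_wS_32_wQ_26_wN_1_rb803306224a_d41_d17_d51_d00_d51_d04_d55_d0503_2 := p_wS_32_wQ_26_wN_1_rb803306224a_d41_d17_d51_d00_d51_d04_d55_d0503_2 g__wS_32_wQ_26_wN_1_rb803306224a_d41_d17_d51_d00_d51_d04_d55_d0503_3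

theorem g_wS_32_wQ_26_wN_1_rb803306224a_d41_d17_d51_d00_d51_d04_d55_d0503 : GoodKC AS c_wS_32_wQ_26_wN_1_rb803306224a_d41_d17_d51_d00_d51_d04_d55_d0503 := p_wS_32_wQ_26_wN_1_rb803306224a_d41_d17_d51_d00_d51_d04_d55_d0503 g__wS_32_wQ_26_wN_1_rb803306224a_d41_d17_d51_d00_d51_d04_d55_d0503_0 g__wS_32_wQ_26_wN_1_rb803306224a_d41_d17_d51_d00_d51_d04_d55_d0503_1 g__wS_32_wQ_26_wN_1_rb803306224a_d41_d17_d51_d00_d51_d04_d55_d0503_2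

theorem g__wS_32_wQ_26_wN_1_rb803306224a_d41_d17_d51_d00_d51_d04_d55_d0500_d55_d02_0 : GoodKC AS k_wS_32_wQ_26_wN_1_rb803306224a_d41_d17_d51_d00_d51_d04_d55_d0500_d55_d02_0 := p_wS_32_wQ_26_wN_1_rb803306224a_d41_d17_d51_d00_d51_d04_d55_d0500_d55_d02_0

theorem g_wS_32_wQ_26_wN_1_rb803306224a_d41_d17_d51_d00_d51_d04_d55_d0500_d55_d02 : GoodKC AS c_wS_32_wQ_26_wN_1_rb803306224a_d41_d17_d51_d00_d51_d04_d55_d0500_d55_d02 := p_wS_32_wQ_26_wN_1_rb803306224a_d41_d17_d51_d00_d51_d04_d55_d0500_d55_d02 g__wS_32_wQ_26_wN_1_rb803306224a_d41_d17_d51_d00_d51_d04_d55_d0500_d55_d02_0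

theorem g__wS_32_wQ_26_wN_1_rb803306224a_d41_d17_d51_d00_d51_d04_d55_d0500_4 : GoodKC AS k_wS_32_wQ_26_wN_1_rb803306224a_d41_d17_d51_d00_d51_d04_d55_d0500_4 := p_wS_32_wQ_26_wN_1_rb803306224a_d41_d17_d51_d00_d51_d04_d55_d0500_4

theorem g__wS_32_wQ_26_wN_1_rb803306224a_d41_d17_d51_d00_d51_d04_d55_d0500_3 : GoodKC AS k_wS_32_wQ_26_wN_1_rb803306224a_d41_d17_d51_d00_d51_d04_d55_d0500_3 := p_wS_32_wQ_26_wN_1_rb803306224a_d41_d17_d51_d00_d51_d04_d55_d0500_3 g__wS_32_wQ_26_wN_1_rb803306224a_d41_d17_d51_d00_d51_d04_d55_d0500_4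

theorem g__wS_32_wQ_26_wN_1_rb803306224a_d41_d17_d51_d00_d51_d04_d55_d0500_2 : GoodKC AS k_wS_32_wQ_26_wN_1_rb803306224a_d41_d17_d51_d00_d51_d04_d55_d0500_2 := p_wS_32_wQ_26_wN_1_rb803306224a_d41_d17_d51_d00_d51_d04_d55_d0500_2 g__wS_32_wQ_26_wN_1_rb803306224a_d41_d17_d51_d00_d51_d04_d55_d0500_3

theorem g__wS_32_wQ_26_wN_1_rb803306224a_d41_d17_d51_d00_d51_d04_d55_d0500_5 : GoodKC AS k_wS_32_wQ_26_wN_1_rb803306224a_d41_d17_d51_d00_d51_d04_d55_d0500_5 := p_wS_32_wQ_26_wN_1_rb803306224a_d41_d17_d51_d00_d51_d04_d55_d0500_5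

theorem g__wS_32_wQ_26_wN_1_rb803306224a_d41_d17_d51_d00_d51_d04_d55_d0500_d55_d00_1 : GoodKC AS k_wS_32_wQ_26_wN_1_rb803306224a_d41_d17_d51_d00_d51_d04_d55_d0500_d55_d00_1 := p_wS_32_wQ_26_wN_1_rb803306224a_d41_d17_d51_d00_d51_d04_d55_d0500_d55_d00_1

theorem g__wS_32_wQ_26_wN_1_rb803306224a_d41_d17_d51_d00_d51_d04_d55_d0500_d55_d00_0 : GoodKC AS k_wS_32_wQ_26_wN_1_rb803306224a_d41_d17_d51_d00_d51_d04_d55_d0500_d55_d00_0 := p_wS_32_wQ_26_wN_1_rb803306224a_d41_d17_d51_d00_d51_d04_d55_d0500_d55_d00_0 g__wS_32_wQ_26_wN_1_rb803306224a_d41_d17_d51_d00_d51_d04_d55_d0500_d55_d00_1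

theorem g__wS_32_wQ_26_wN_1_rb803306224a_d41_d17_d51_d00_d51_d04_d55_d0500_d55_d00_2 : GoodKC AS k_wS_32_wQ_26_wN_1_rb803306224a_d41_d17_d51_d00_d51_d04_d55_d0500_d55_d00_2 := p_wS_32_wQ_26_wN_1_rb803306224a_d41_d17_d51_d00_d51_d04_d55_d0500_d55_d00_2

theorem g_wS_32_wQ_26_wN_1_rb803306224a_d41_d17_d51_d00_d51_d04_d55_d0500_d55_d00 : GoodKC AS c_wS_32_wQ_26_wN_1_rb803306224a_d41_d17_d51_d00_d51_d04_d55_d0500_d55_d00 := p_wS_32_wQ_26_wN_1_rb803306224a_d41_d17_d51_d00_d51_d04_d55_d0500_d55_d00 g__wS_32_wQ_26_wN_1_rb803306224a_d41_d17_d51_d00_d51_d04_d55_d0500_d55_d00_0 g__wS_32_wQ_26_wN_1_rb803306224a_d41_d17_d51_d00_d51_d04_d55_d0500_d55_d00_2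

theorem g__wS_32_wQ_26_wN_1_rb803306224a_d41_d17_d51_d00_d51_d04_d55_d0500_d55_d01_1 : GoodKC AS k_wS_32_wQ_26_wN_1_rb803306224a_d41_d17_d51_d00_d51_d04_d55_d0500_d55_d01_1 := p_wS_32_wQ_26_wN_1_rb803306224a_d41_d17_d51_d00_d51_d04_d55_d0500_d55_d01_1

theorem g__wS_32_wQ_26_wN_1_rb803306224a_d41_d17_d51_d00_d51_d04_d55_d0500_d55_d01_0 : GoodKC AS k_wS_32_wQ_26_wN_1_rb803306224a_d41_d17_d51_d00_d51_d04_d55_d0500_d55_d01_0 := p_wS_32_wQ_26_wN_1_rb803306224a_d41_d17_d51_d00_d51_d04_d55_d0500_d55_d01_0 g__wS_32_wQ_26_wN_1_rb803306224a_d41_d17_d51_d00_d51_d04_d55_d0500_d55_d01_1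

theorem g__wS_32_wQ_26_wN_1_rb803306224a_d41_d17_d51_d00_d51_d04_d55_d0500_d55_d01_2 : GoodKC AS k_wS_32_wQ_26_wN_1_rb803306224a_d41_d17_d51_d00_d51_d04_d55_d0500_d55_d01_2 := p_wS_32_wQ_26_wN_1_rb803306224a_d41_d17_d51_d00_d51_d04_d55_d0500_d55_d01_2

theorem g_wS_32_wQ_26_wN_1_rb803306224a_d41_d17_d51_d00_d51_d04_d55_d0500_d55_d01 : GoodKC AS c_wS_32_wQ_26_wN_1_rb803306224a_d41_d17_d51_d00_d51_d04_d55_d0500_d55_d01 := p_wS_32_wQ_26_wN_1_rb803306224a_d41_d17_d51_d00_d51_d04_d55_d0500_d55_d01 g__wS_32_wQ_26_wN_1_rb803306224a_d41_d17_d51_d00_d51_d04_d55_d0500_d55_d01_0 g__wS_32_wQ_26_wN_1_rb803306224a_d41_d17_d51_d00_d51_d04_d55_d0500_d55_d01_2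

theorem g__wS_32_wQ_26_wN_1_rb803306224a_d41_d17_d51_d00_d51_d04_d55_d0500_7 : GoodKC AS k_wS_32_wQ_26_wN_1_rb803306224a_d41_d17_d51_d00_d51_d04_d55_d0500_7 := p_wS_32_wQ_26_wN_1_rb803306224a_d41_d17_d51_d00_d51_d04_d55_d0500_7

theorem g__wS_32_wQ_26_wN_1_rb803306224a_d41_d17_d51_d00_d51_d04_d55_d0500_6 : GoodKC AS k_wS_32_wQ_26_wN_1_rb803306224a_d41_d17_d51_d00_d51_d04_d55_d0500_6 := p_wS_32_wQ_26_wN_1_rb803306224a_d41_d17_d51_d00_d51_d04_d55_d0500_6 g__wS_32_wQ_26_wN_1_rb803306224a_d41_d17_d51_d00_d51_d04_d55_d0500_7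

theorem g__wS_32_wQ_26_wN_1_rb803306224a_d41_d17_d51_d00_d51_d04_d55_d0500_1 : GoodKC AS k_wS_32_wQ_26_wN_1_rb803306224a_d41_d17_d51_d00_d51_d04_d55_d0500_1 := p_wS_32_wQ_26_wN_1_rb803306224a_d41_d17_d51_d00_d51_d04_d55_d0500_1 g__wS_32_wQ_26_wN_1_rb803306224a_d41_d17_d51_d00_d51_d04_d55_d0500_2 g__wS_32_wQ_26_wN_1_rb803306224a_d41_d17_d51_d00_d51_d04_d55_d0500_5 g_wS_32_wQ_26_wN_1_rb803306224a_d41_d17_d51_d00_d51_d04_d55_d0500_d55_d00 g_wS_32_wQ_26_wN_1_rb803306224a_d41_d17_d51_d00_d51_d04_d55_d0500_d55_d01 g__wS_32_wQ_26_wN_1_rb803306224a_d41_d17_d51_d00_d51_d04_d55_d0500_6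

theorem g__wS_32_wQ_26_wN_1_rb803306224a_d41_d17_d51_d00_d51_d04_d55_d0500_8 : GoodKC AS k_wS_32_wQ_26_wN_1_rb803306224a_d41_d17_d51_d00_d51_d04_d55_d0500_8 := p_wS_32_wQ_26_wN_1_rb803306224a_d41_d17_d51_d00_d51_d04_d55_d0500_8

theorem g__wS_32_wQ_26_wN_1_rb803306224a_d41_d17_d51_d00_d51_d04_d55_d0500_0 : GoodKC AS k_wS_32_wQ_26_wN_1_rb803306224a_d41_d17_d51_d00_d51_d04_d55_d0500_0 := p_wS_32_wQ_26_wN_1_rb803306224a_d41_d17_d51_d00_d51_d04_d55_d0500_0 g_wS_32_wQ_26_wN_1_rb803306224a_d41_d17_d51_d00_d51_d04_d55_d0500_d55_d02 g__wS_32_wQ_26_wN_1_rb803306224a_d41_d17_d51_d00_d51_d04_d55_d0500_1 g__wS_32_wQ_26_wN_1_rb803306224a_d41_d17_d51_d00_d51_d04_d55_d0500_8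

theorem g_wS_32_wQ_26_wN_1_rb803306224a_d41_d17_d51_d00_d51_d04_d55_d0500_d55_d03_d96_d06 : GoodKC AS c_wS_32_wQ_26_wN_1_rb803306224a_d41_d17_d51_d00_d51_d04_d55_d0500_d55_d03_d96_d06 := p_wS_32_wQ_26_wN_1_rb803306224a_d41_d17_d51_d00_d51_d04_d55_d0500_d55_d03_d96_d06

theorem g_wS_32_wQ_26_wN_1_rb803306224a_d41_d17_d51_d00_d51_d04_d55_d0500_d55_d03_d96_d01 : GoodKC AS c_wS_32_wQ_26_wN_1_rb803306224a_d41_d17_d51_d00_d51_d04_d55_d0500_d55_d03_d96_d01 := p_wS_32_wQ_26_wN_1_rb803306224a_d41_d17_d51_d00_d51_d04_d55_d0500_d55_d03_d96_d01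

theorem g_wS_32_wQ_26_wN_1_rb803306224a_d41_d17_d51_d00_d51_d04_d55_d0500_d55_d03_d96_d00 : GoodKC AS c_wS_32_wQ_26_wN_1_rb803306224a_d41_d17_d51_d00_d51_d04_d55_d0500_d55_d03_d96_d00 := p_wS_32_wQ_26_wN_1_rb803306224a_d41_d17_d51_d00_d51_d04_d55_d0500_d55_d03_d96_d00

theorem g_wS_32_wQ_26_wN_1_rb803306224a_d41_d17_d51_d00_d51_d04_d55_d0500_d55_d03_d96_d02 : GoodKC AS c_wS_32_wQ_26_wN_1_rb803306224a_d41_d17_d51_d00_d51_d04_d55_d0500_d55_d03_d96_d02 := p_wS_32_wQ_26_wN_1_rb803306224a_d41_d17_d51_d00_d51_d04_d55_d0500_d55_d03_d96_d02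

theorem g_wS_32_wQ_26_wN_1_rb803306224a_d41_d17_d51_d00_d51_d04_d55_d0500_d55_d03_d96_d03 : GoodKC AS c_wS_32_wQ_26_wN_1_rb803306224a_d41_d17_d51_d00_d51_d04_d55_d0500_d55_d03_d96_d03 := p_wS_32_wQ_26_wN_1_rb803306224a_d41_d17_d51_d00_d51_d04_d55_d0500_d55_d03_d96_d03

theorem g__wS_32_wQ_26_wN_1_rb803306224a_d41_d17_d51_d00_d51_d04_d55_d0500_d55_d03_d96_d04_0 : GoodKC AS k_wS_32_wQ_26_wN_1_rb803306224a_d41_d17_d51_d00_d51_d04_d55_d0500_d55_d03_d96_d04_0 := p_wS_32_wQ_26_wN_1_rb803306224a_d41_d17_d51_d00_d51_d04_d55_d0500_d55_d03_d96_d04_0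

theorem g_wS_32_wQ_26_wN_1_rb803306224a_d41_d17_d51_d00_d51_d04_d55_d0500_d55_d03_d96_d04 : GoodKC AS c_wS_32_wQ_26_wN_1_rb803306224a_d41_d17_d51_d00_d51_d04_d55_d0500_d55_d03_d96_d04 := p_wS_32_wQ_26_wN_1_rb803306224a_d41_d17_d51_d00_d51_d04_d55_d0500_d55_d03_d96_d04 g__wS_32_wQ_26_wN_1_rb803306224a_d41_d17_d51_d00_d51_d04_d55_d0500_d55_d03_d96_d04_0

theorem g_wS_32_wQ_26_wN_1_rb803306224a_d41_d17_d51_d00_d51_d04_d55_d0500_d55_d03_d96_d05 : GoodKC AS c_wS_32_wQ_26_wN_1_rb803306224a_d41_d17_d51_d00_d51_d04_d55_d0500_d55_d03_d96_d05 := p_wS_32_wQ_26_wN_1_rb803306224a_d41_d17_d51_d00_d51_d04_d55_d0500_d55_d03_d96_d05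

theorem g_wS_32_wQ_26_wN_1_rb803306224a_d41_d17_d51_d00_d51_d04_d55_d0500_d55_d03 : GoodKC AS c_wS_32_wQ_26_wN_1_rb803306224a_d41_d17_d51_d00_d51_d04_d55_d0500_d55_d03 := p_wS_32_wQ_26_wN_1_rb803306224a_d41_d17_d51_d00_d51_d04_d55_d0500_d55_d03 g_wS_32_wQ_26_wN_1_rb803306224a_d41_d17_d51_d00_d51_d04_d55_d0500_d55_d03_d96_d06 g_wS_32_wQ_26_wN_1_rb803306224a_d41_d17_d51_d00_d51_d04_d55_d0500_d55_d03_d96_d01 g_wS_32_wQ_26_wN_1_rb803306224a_d41_d17_d51_d00_d51_d04_d55_d0500_d55_d03_d96_d00 g_wS_32_wQ_26_wN_1_rb803306224a_d41_d17_d51_d00_d51_d04_d55_d0500_d55_d03_d96_d02 g_wS_32_wQ_26_wN_1_rb803306224a_d41_d17_d51_d00_d51_d04_d55_d0500_d55_d03_d96_d03 g_wS_32_wQ_26_wN_1_rb803306224a_d41_d17_d51_d00_d51_d04_d55_d0500_d55_d03_d96_d04 g_wS_32_wQ_26_wN_1_rb803306224a_d41_d17_d51_d00_d51_d04_d55_d0500_d55_d03_d96_d05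

theorem g_wS_32_wQ_26_wN_1_rb803306224a_d41_d17_d51_d00_d51_d04_d55_d0500 : GoodKC AS c_wS_32_wQ_26_wN_1_rb803306224a_d41_d17_d51_d00_d51_d04_d55_d0500 := p_wS_32_wQ_26_wN_1_rb803306224a_d41_d17_d51_d00_d51_d04_d55_d0500 g__wS_32_wQ_26_wN_1_rb803306224a_d41_d17_d51_d00_d51_d04_d55_d0500_0 g_wS_32_wQ_26_wN_1_rb803306224a_d41_d17_d51_d00_d51_d04_d55_d0500_d55_d03

theorem g__wS_32_wQ_26_wN_1_rb803306224a_d41_d17_d51_d00_d51_d04_d55_d0501_0 : GoodKC AS k_wS_32_wQ_26_wN_1_rb803306224a_d41_d17_d51_d00_d51_d04_d55_d0501_0 := p_wS_32_wQ_26_wN_1_rb803306224a_d41_d17_d51_d00_d51_d04_d55_d0501_0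

theorem g_wS_32_wQ_26_wN_1_rb803306224a_d41_d17_d51_d00_d51_d04_d55_d0501 : GoodKC AS c_wS_32_wQ_26_wN_1_rb803306224a_d41_d17_d51_d00_d51_d04_d55_d0501 := p_wS_32_wQ_26_wN_1_rb803306224a_d41_d17_d51_d00_d51_d04_d55_d0501 g__wS_32_wQ_26_wN_1_rb803306224a_d41_d17_d51_d00_d51_d04_d55_d0501_0

theorem g__wS_32_wQ_26_wN_1_rb803306224a_d41_d17_d51_d00_d51_d04_d55_d05_3 : GoodKC AS k_wS_32_wQ_26_wN_1_rb803306224a_d41_d17_d51_d00_d51_d04_d55_d05_3 := p_wS_32_wQ_26_wN_1_rb803306224a_d41_d17_d51_d00_d51_d04_d55_d05_3 g_wS_32_wQ_26_wN_1_rb803306224a_d41_d17_d51_d00_d51_d04_d55_d0500 g_wS_32_wQ_26_wN_1_rb803306224a_d41_d17_d51_d00_d51_d04_d55_d0501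

theorem g_wS_32_wQ_26_wN_1_rb803306224a_d41_d17_d51_d00_d51_d04_d55_d0502 : GoodKC AS c_wS_32_wQ_26_wN_1_rb803306224a_d41_d17_d51_d00_d51_d04_d55_d0502 := p_wS_32_wQ_26_wN_1_rb803306224a_d41_d17_d51_d00_d51_d04_d55_d0502

theorem g__wS_32_wQ_26_wN_1_rb803306224a_d41_d17_d51_d00_d51_d04_d55_d05_2 : GoodKC AS k_wS_32_wQ_26_wN_1_rb803306224a_d41_d17_d51_d00_d51_d04_d55_d05_2 := p_wS_32_wQ_26_wN_1_rb803306224a_d41_d17_d51_d00_d51_d04_d55_d05_2 g_wS_32_wQ_26_wN_1_rb803306224a_d41_d17_d51_d00_d51_d04_d55_d0504 g_wS_32_wQ_26_wN_1_rb803306224a_d41_d17_d51_d00_d51_d04_d55_d0503 g__wS_32_wQ_26_wN_1_rb803306224a_d41_d17_d51_d00_d51_d04_d55_d05_3 g_wS_32_wQ_26_wN_1_rb803306224a_d41_d17_d51_d00_d51_d04_d55_d0502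

theorem g__wS_32_wQ_26_wN_1_rb803306224a_d41_d17_d51_d00_d51_d04_d55_d0505_2 : GoodKC AS k_wS_32_wQ_26_wN_1_rb803306224a_d41_d17_d51_d00_d51_d04_d55_d0505_2 := p_wS_32_wQ_26_wN_1_rb803306224a_d41_d17_d51_d00_d51_d04_d55_d0505_2

theorem g__wS_32_wQ_26_wN_1_rb803306224a_d41_d17_d51_d00_d51_d04_d55_d0505_1 : GoodKC AS k_wS_32_wQ_26_wN_1_rb803306224a_d41_d17_d51_d00_d51_d04_d55_d0505_1 := p_wS_32_wQ_26_wN_1_rb803306224a_d41_d17_d51_d00_d51_d04_d55_d0505_1 g__wS_32_wQ_26_wN_1_rb803306224a_d41_d17_d51_d00_d51_d04_d55_d0505_2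

theorem g__wS_32_wQ_26_wN_1_rb803306224a_d41_d17_d51_d00_d51_d04_d55_d0505_3 : GoodKC AS k_wS_32_wQ_26_wN_1_rb803306224a_d41_d17_d51_d00_d51_d04_d55_d0505_3 := p_wS_32_wQ_26_wN_1_rb803306224a_d41_d17_d51_d00_d51_d04_d55_d0505_3

theorem g__wS_32_wQ_26_wN_1_rb803306224a_d41_d17_d51_d00_d51_d04_d55_d0505_5 : GoodKC AS k_wS_32_wQ_26_wN_1_rb803306224a_d41_d17_d51_d00_d51_d04_d55_d0505_5 := p_wS_32_wQ_26_wN_1_rb803306224a_d41_d17_d51_d00_d51_d04_d55_d0505_5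

theorem g__wS_32_wQ_26_wN_1_rb803306224a_d41_d17_d51_d00_d51_d04_d55_d0505_4 : GoodKC AS k_wS_32_wQ_26_wN_1_rb803306224a_d41_d17_d51_d00_d51_d04_d55_d0505_4 := p_wS_32_wQ_26_wN_1_rb803306224a_d41_d17_d51_d00_d51_d04_d55_d0505_4 g__wS_32_wQ_26_wN_1_rb803306224a_d41_d17_d51_d00_d51_d04_d55_d0505_5

theorem g__wS_32_wQ_26_wN_1_rb803306224a_d41_d17_d51_d00_d51_d04_d55_d0505_0 : GoodKC AS k_wS_32_wQ_26_wN_1_rb803306224a_d41_d17_d51_d00_d51_d04_d55_d0505_0 := p_wS_32_wQ_26_wN_1_rb803306224a_d41_d17_d51_d00_d51_d04_d55_d0505_0 g__wS_32_wQ_26_wN_1_rb803306224a_d41_d17_d51_d00_d51_d04_d55_d0505_1 g__wS_32_wQ_26_wN_1_rb803306224a_d41_d17_d51_d00_d51_d04_d55_d0505_3 g__wS_32_wQ_26_wN_1_rb803306224a_d41_d17_d51_d00_d51_d04_d55_d0505_4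

theorem g_wS_32_wQ_26_wN_1_rb803306224a_d41_d17_d51_d00_d51_d04_d55_d0505 : GoodKC AS c_wS_32_wQ_26_wN_1_rb803306224a_d41_d17_d51_d00_d51_d04_d55_d0505 := p_wS_32_wQ_26_wN_1_rb803306224a_d41_d17_d51_d00_d51_d04_d55_d0505 g__wS_32_wQ_26_wN_1_rb803306224a_d41_d17_d51_d00_d51_d04_d55_d0505_0

theorem g__wS_32_wQ_26_wN_1_rb803306224a_d41_d17_d51_d00_d51_d04_d55_d05_4 : GoodKC AS k_wS_32_wQ_26_wN_1_rb803306224a_d41_d17_d51_d00_d51_d04_d55_d05_4 := p_wS_32_wQ_26_wN_1_rb803306224a_d41_d17_d51_d00_d51_d04_d55_d05_4 g_wS_32_wQ_26_wN_1_rb803306224a_d41_d17_d51_d00_d51_d04_d55_d0505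

theorem g__wS_32_wQ_26_wN_1_rb803306224a_d41_d17_d51_d00_d51_d04_d55_d05_1 : GoodKC AS k_wS_32_wQ_26_wN_1_rb803306224a_d41_d17_d51_d00_d51_d04_d55_d05_1 := p_wS_32_wQ_26_wN_1_rb803306224a_d41_d17_d51_d00_d51_d04_d55_d05_1 g__wS_32_wQ_26_wN_1_rb803306224a_d41_d17_d51_d00_d51_d04_d55_d05_2 g__wS_32_wQ_26_wN_1_rb803306224a_d41_d17_d51_d00_d51_d04_d55_d05_4

theorem g__wS_32_wQ_26_wN_1_rb803306224a_d41_d17_d51_d00_d51_d04_d55_d05_0 : GoodKC AS k_wS_32_wQ_26_wN_1_rb803306224a_d41_d17_d51_d00_d51_d04_d55_d05_0 := p_wS_32_wQ_26_wN_1_rb803306224a_d41_d17_d51_d00_d51_d04_d55_d05_0 g__wS_32_wQ_26_wN_1_rb803306224a_d41_d17_d51_d00_d51_d04_d55_d05_1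

theorem g_wS_32_wQ_26_wN_1_rb803306224a_d41_d17_d51_d00_d51_d04_d55_d050b : GoodKC AS c_wS_32_wQ_26_wN_1_rb803306224a_d41_d17_d51_d00_d51_d04_d55_d050b := p_wS_32_wQ_26_wN_1_rb803306224a_d41_d17_d51_d00_d51_d04_d55_d050b

theorem g_wS_32_wQ_26_wN_1_rb803306224a_d41_d17_d51_d00_d51_d04_d55_d0509 : GoodKC AS c_wS_32_wQ_26_wN_1_rb803306224a_d41_d17_d51_d00_d51_d04_d55_d0509 := p_wS_32_wQ_26_wN_1_rb803306224a_d41_d17_d51_d00_d51_d04_d55_d0509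

theorem g_wS_32_wQ_26_wN_1_rb803306224a_d41_d17_d51_d00_d51_d04_d55_d0508 : GoodKC AS c_wS_32_wQ_26_wN_1_rb803306224a_d41_d17_d51_d00_d51_d04_d55_d0508 := p_wS_32_wQ_26_wN_1_rb803306224a_d41_d17_d51_d00_d51_d04_d55_d0508

theorem g__wS_32_wQ_26_wN_1_rb803306224a_d41_d17_d51_d00_d51_d04_d55_d0507_1 : GoodKC AS k_wS_32_wQ_26_wN_1_rb803306224a_d41_d17_d51_d00_d51_d04_d55_d0507_1 := p_wS_32_wQ_26_wN_1_rb803306224a_d41_d17_d51_d00_d51_d04_d55_d0507_1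

theorem g__wS_32_wQ_26_wN_1_rb803306224a_d41_d17_d51_d00_d51_d04_d55_d0507_0 : GoodKC AS k_wS_32_wQ_26_wN_1_rb803306224a_d41_d17_d51_d00_d51_d04_d55_d0507_0 := p_wS_32_wQ_26_wN_1_rb803306224a_d41_d17_d51_d00_d51_d04_d55_d0507_0 g__wS_32_wQ_26_wN_1_rb803306224a_d41_d17_d51_d00_d51_d04_d55_d0507_1

theorem g_wS_32_wQ_26_wN_1_rb803306224a_d41_d17_d51_d00_d51_d04_d55_d0507 : GoodKC AS c_wS_32_wQ_26_wN_1_rb803306224a_d41_d17_d51_d00_d51_d04_d55_d0507 := p_wS_32_wQ_26_wN_1_rb803306224a_d41_d17_d51_d00_d51_d04_d55_d0507 g__wS_32_wQ_26_wN_1_rb803306224a_d41_d17_d51_d00_d51_d04_d55_d0507_0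

theorem g_wS_32_wQ_26_wN_1_rb803306224a_d41_d17_d51_d00_d51_d04_d55_d0506_d81_d0e : GoodKC AS c_wS_32_wQ_26_wN_1_rb803306224a_d41_d17_d51_d00_d51_d04_d55_d0506_d81_d0e := p_wS_32_wQ_26_wN_1_rb803306224a_d41_d17_d51_d00_d51_d04_d55_d0506_d81_d0e

theorem g_wS_32_wQ_26_wN_1_rb803306224a_d41_d17_d51_d00_d51_d04_d55_d0506_d81_d0c : GoodKC AS c_wS_32_wQ_26_wN_1_rb803306224a_d41_d17_d51_d00_d51_d04_d55_d0506_d81_d0c := p_wS_32_wQ_26_wN_1_rb803306224a_d41_d17_d51_d00_d51_d04_d55_d0506_d81_d0c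

theorem g_wS_32_wQ_26_wN_1_rb803306224a_d41_d17_d51_d00_d51_d04_d55_d0506_d81_d06 : GoodKC AS c_wS_32_wQ_26_wN_1_rb803306224a_d41_d17_d51_d00_d51_d04_d55_d0506_d81_d06 := p_wS_32_wQ_26_wN_1_rb803306224a_d41_d17_d51_d00_d51_d04_d55_d0506_d81_d06

theorem g_wS_32_wQ_26_wN_1_rb803306224a_d41_d17_d51_d00_d51_d04_d55_d0506_d81_d04 : GoodKC AS c_wS_32_wQ_26_wN_1_rb803306224a_d41_d17_d51_d00_d51_d04_d55_d0506_d81_d04 := p_wS_32_wQ_26_wN_1_rb803306224a_d41_d17_d51_d00_d51_d04_d55_d0506_d81_d04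

theorem g_wS_32_wQ_26_wN_1_rb803306224a_d41_d17_d51_d00_d51_d04_d55_d0506_d81_d03 : GoodKC AS c_wS_32_wQ_26_wN_1_rb803306224a_d41_d17_d51_d00_d51_d04_d55_d0506_d81_d03 := p_wS_32_wQ_26_wN_1_rb803306224a_d41_d17_d51_d00_d51_d04_d55_d0506_d81_d03

theorem g_wS_32_wQ_26_wN_1_rb803306224a_d41_d17_d51_d00_d51_d04_d55_d0506_d81_d02 : GoodKC AS c_wS_32_wQ_26_wN_1_rb803306224a_d41_d17_d51_d00_d51_d04_d55_d0506_d81_d02 := p_wS_32_wQ_26_wN_1_rb803306224a_d41_d17_d51_d00_d51_d04_d55_d0506_d81_d02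

theorem g__wS_32_wQ_26_wN_1_rb803306224a_d41_d17_d51_d00_d51_d04_d55_d0506_d81_d00v1_3 : GoodKC AS k_wS_32_wQ_26_wN_1_rb803306224a_d41_d17_d51_d00_d51_d04_d55_d0506_d81_d00v1_3 := p_wS_32_wQ_26_wN_1_rb803306224a_d41_d17_d51_d00_d51_d04_d55_d0506_d81_d00v1_3

theorem g__wS_32_wQ_26_wN_1_rb803306224a_d41_d17_d51_d00_d51_d04_d55_d0506_d81_d00v1_4 : GoodKC AS k_wS_32_wQ_26_wN_1_rb803306224a_d41_d17_d51_d00_d51_d04_d55_d0506_d81_d00v1_4 := p_wS_32_wQ_26_wN_1_rb803306224a_d41_d17_d51_d00_d51_d04_d55_d0506_d81_d00v1_4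

theorem g__wS_32_wQ_26_wN_1_rb803306224a_d41_d17_d51_d00_d51_d04_d55_d0506_d81_d00v1_2 : GoodKC AS k_wS_32_wQ_26_wN_1_rb803306224a_d41_d17_d51_d00_d51_d04_d55_d0506_d81_d00v1_2 := p_wS_32_wQ_26_wN_1_rb803306224a_d41_d17_d51_d00_d51_d04_d55_d0506_d81_d00v1_2 g__wS_32_wQ_26_wN_1_rb803306224a_d41_d17_d51_d00_d51_d04_d55_d0506_d81_d00v1_3 g__wS_32_wQ_26_wN_1_rb803306224a_d41_d17_d51_d00_d51_d04_d55_d0506_d81_d00v1_4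

theorem g__wS_32_wQ_26_wN_1_rb803306224a_d41_d17_d51_d00_d51_d04_d55_d0506_d81_d00v1_1 : GoodKC AS k_wS_32_wQ_26_wN_1_rb803306224a_d41_d17_d51_d00_d51_d04_d55_d0506_d81_d00v1_1 := p_wS_32_wQ_26_wN_1_rb803306224a_d41_d17_d51_d00_d51_d04_d55_d0506_d81_d00v1_1 g__wS_32_wQ_26_wN_1_rb803306224a_d41_d17_d51_d00_d51_d04_d55_d0506_d81_d00v1_2

theorem g__wS_32_wQ_26_wN_1_rb803306224a_d41_d17_d51_d00_d51_d04_d55_d0506_d81_d00v1_0 : GoodKC AS k_wS_32_wQ_26_wN_1_rb803306224a_d41_d17_d51_d00_d51_d04_d55_d0506_d81_d00v1_0 := p_wS_32_wQ_26_wN_1_rb803306224a_d41_d17_d51_d00_d51_d04_d55_d0506_d81_d00v1_0 g__wS_32_wQ_26_wN_1_rb803306224a_d41_d17_d51_d00_d51_d04_d55_d0506_d81_d00v1_1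

theorem g_wS_32_wQ_26_wN_1_rb803306224a_d41_d17_d51_d00_d51_d04_d55_d0506_d81_d00 : GoodKC AS c_wS_32_wQ_26_wN_1_rb803306224a_d41_d17_d51_d00_d51_d04_d55_d0506_d81_d00 := p_wS_32_wQ_26_wN_1_rb803306224a_d41_d17_d51_d00_d51_d04_d55_d0506_d81_d00v1 g__wS_32_wQ_26_wN_1_rb803306224a_d41_d17_d51_d00_d51_d04_d55_d0506_d81_d00v1_0

theorem g_wS_32_wQ_26_wN_1_rb803306224a_d41_d17_d51_d00_d51_d04_d55_d0506_d81_d01 : GoodKC AS c_wS_32_wQ_26_wN_1_rb803306224a_d41_d17_d51_d00_d51_d04_d55_d0506_d81_d01 := p_wS_32_wQ_26_wN_1_rb803306224a_d41_d17_d51_d00_d51_d04_d55_d0506_d81_d01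

theorem g__wS_32_wQ_26_wN_1_rb803306224a_d41_d17_d51_d00_d51_d04_d55_d0506_d81_d05_0 : GoodKC AS k_wS_32_wQ_26_wN_1_rb803306224a_d41_d17_d51_d00_d51_d04_d55_d0506_d81_d05_0 := p_wS_32_wQ_26_wN_1_rb803306224a_d41_d17_d51_d00_d51_d04_d55_d0506_d81_d05_0

theorem g_wS_32_wQ_26_wN_1_rb803306224a_d41_d17_d51_d00_d51_d04_d55_d0506_d81_d05 : GoodKC AS c_wS_32_wQ_26_wN_1_rb803306224a_d41_d17_d51_d00_d51_d04_d55_d0506_d81_d05 := p_wS_32_wQ_26_wN_1_rb803306224a_d41_d17_d51_d00_d51_d04_d55_d0506_d81_d05 g__wS_32_wQ_26_wN_1_rb803306224a_d41_d17_d51_d00_d51_d04_d55_d0506_d81_d05_0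

theorem g_wS_32_wQ_26_wN_1_rb803306224a_d41_d17_d51_d00_d51_d04_d55_d0506_d81_d07 : GoodKC AS c_wS_32_wQ_26_wN_1_rb803306224a_d41_d17_d51_d00_d51_d04_d55_d0506_d81_d07 := p_wS_32_wQ_26_wN_1_rb803306224a_d41_d17_d51_d00_d51_d04_d55_d0506_d81_d07

theorem g_wS_32_wQ_26_wN_1_rb803306224a_d41_d17_d51_d00_d51_d04_d55_d0506_d81_d08 : GoodKC AS c_wS_32_wQ_26_wN_1_rb803306224a_d41_d17_d51_d00_d51_d04_d55_d0506_d81_d08 := p_wS_32_wQ_26_wN_1_rb803306224a_d41_d17_d51_d00_d51_d04_d55_d0506_d81_d08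

theorem g_wS_32_wQ_26_wN_1_rb803306224a_d41_d17_d51_d00_d51_d04_d55_d0506_d81_d09 : GoodKC AS c_wS_32_wQ_26_wN_1_rb803306224a_d41_d17_d51_d00_d51_d04_d55_d0506_d81_d09 := p_wS_32_wQ_26_wN_1_rb803306224a_d41_d17_d51_d00_d51_d04_d55_d0506_d81_d09

theorem g_wS_32_wQ_26_wN_1_rb803306224a_d41_d17_d51_d00_d51_d04_d55_d0506_d81_d0a : GoodKC AS c_wS_32_wQ_26_wN_1_rb803306224a_d41_d17_d51_d00_d51_d04_d55_d0506_d81_d0a := p_wS_32_wQ_26_wN_1_rb803306224a_d41_d17_d51_d00_d51_d04_d55_d0506_d81_d0a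

theorem g_wS_32_wQ_26_wN_1_rb803306224a_d41_d17_d51_d00_d51_d04_d55_d0506_d81_d0b : GoodKC AS c_wS_32_wQ_26_wN_1_rb803306224a_d41_d17_d51_d00_d51_d04_d55_d0506_d81_d0b := p_wS_32_wQ_26_wN_1_rb803306224a_d41_d17_d51_d00_d51_d04_d55_d0506_d81_d0b

theorem g_wS_32_wQ_26_wN_1_rb803306224a_d41_d17_d51_d00_d51_d04_d55_d0506_d81_d0d : GoodKC AS c_wS_32_wQ_26_wN_1_rb803306224a_d41_d17_d51_d00_d51_d04_d55_d0506_d81_d0d := p_wS_32_wQ_26_wN_1_rb803306224a_d41_d17_d51_d00_d51_d04_d55_d0506_d81_d0d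

theorem g_wS_32_wQ_26_wN_1_rb803306224a_d41_d17_d51_d00_d51_d04_d55_d0506 : GoodKC AS c_wS_32_wQ_26_wN_1_rb803306224a_d41_d17_d51_d00_d51_d04_d55_d0506 := p_wS_32_wQ_26_wN_1_rb803306224a_d41_d17_d51_d00_d51_d04_d55_d0506 g_wS_32_wQ_26_wN_1_rb803306224a_d41_d17_d51_d00_d51_d04_d55_d0506_d81_d0e g_wS_32_wQ_26_wN_1_rb803306224a_d41_d17_d51_d00_d51_d04_d55_d0506_d81_d0c g_wS_32_wQ_26_wN_1_rb803306224a_d41_d17_d51_d00_d51_d04_d55_d0506_d81_d06 g_wS_32_wQ_26_wN_1_rb803306224a_d41_d17_d51_d00_d51_d04_d55_d0506_d81_d04 g_wS_32_wQ_26_wN_1_rb803306224a_d41_d17_d51_d00_d51_d04_d55_d0506_d81_d03 g_wS_32_wQ_26_wN_1_rb803306224a_d41_d17_d51_d00_d51_d04_d55_d0506_d81_d02 g_wS_32_wQ_26_wN_1_rb803306224a_d41_d17_d51_d00_d51_d04_d55_d0506_d81_d00 g_wS_32_wQ_26_wN_1_rb803306224a_d41_d17_d51_d00_d51_d04_d55_d0506_d81_d01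 g_wS_32_wQ_26_wN_1_rb803306224a_d41_d17_d51_d00_d51_d04_d55_d0506_d81_d05 g_wS_32_wQ_26_wN_1_rb803306224a_d41_d17_d51_d00_d51_d04_d55_d0506_d81_d07 g_wS_32_wQ_26_wN_1_rb803306224a_d41_d17_d51_d00_d51_d04_d55_d0506_d81_d08 g_wS_32_wQ_26_wN_1_rb803306224a_d41_d17_d51_d00_d51_d04_d55_d0506_d81_d09 g_wS_32_wQ_26_wN_1_rb803306224a_d41_d17_d51_d00_d51_d04_d55_d0506_d81_d0a g_wS_32_wQ_26_wN_1_rb803306224a_d41_d17_d51_d00_d51_d04_d55_d0506_d81_d0b g_wS_32_wQ_26_wN_1_rb803306224a_d41_d17_d51_d00_d51_d04_d55_d0506_d81_d0d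

theorem g_wS_32_wQ_26_wN_1_rb803306224a_d41_d17_d51_d00_d51_d04_d55_d050a : GoodKC AS c_wS_32_wQ_26_wN_1_rb803306224a_d41_d17_d51_d00_d51_d04_d55_d050a := p_wS_32_wQ_26_wN_1_rb803306224a_d41_d17_d51_d00_d51_d04_d55_d050a

theorem g__wS_32_wQ_26_wN_1_rb803306224a_d41_d17_d51_d00_d51_d04_d55_d050c_0 : GoodKC AS k_wS_32_wQ_26_wN_1_rb803306224a_d41_d17_d51_d00_d51_d04_d55_d050c_0 := p_wS_32_wQ_26_wN_1_rb803306224a_d41_d17_d51_d00_d51_d04_d55_d050c_0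

theorem g_wS_32_wQ_26_wN_1_rb803306224a_d41_d17_d51_d00_d51_d04_d55_d050c : GoodKC AS c_wS_32_wQ_26_wN_1_rb803306224a_d41_d17_d51_d00_d51_d04_d55_d050c := p_wS_32_wQ_26_wN_1_rb803306224a_d41_d17_d51_d00_d51_d04_d55_d050c g__wS_32_wQ_26_wN_1_rb803306224a_d41_d17_d51_d00_d51_d04_d55_d050c_0

theorem g_wS_32_wQ_26_wN_1_rb803306224a_d41_d17_d51_d00_d51_d04_d55_d05v1 : GoodKC AS c_wS_32_wQ_26_wN_1_rb803306224a_d41_d17_d51_d00_d51_d04_d55_d05v1 := p_wS_32_wQ_26_wN_1_rb803306224a_d41_d17_d51_d00_d51_d04_d55_d05 g__wS_32_wQ_26_wN_1_rb803306224a_d41_d17_d51_d00_d51_d04_d55_d05_0 g_wS_32_wQ_26_wN_1_rb803306224a_d41_d17_d51_d00_d51_d04_d55_d050b g_wS_32_wQ_26_wN_1_rb803306224a_d41_d17_d51_d00_d51_d04_d55_d0509 g_wS_32_wQ_26_wN_1_rb803306224a_d41_d17_d51_d00_d51_d04_d55_d0508 g_wS_32_wQ_26_wN_1_rb803306224a_d41_d17_d51_d00_d51_d04_d55_d0507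 g_wS_32_wQ_26_wN_1_rb803306224a_d41_d17_d51_d00_d51_d04_d55_d0506 g_wS_32_wQ_26_wN_1_rb803306224a_d41_d17_d51_d00_d51_d04_d55_d050a g_wS_32_wQ_26_wN_1_rb803306224a_d41_d17_d51_d00_d51_d04_d55_d050c

theorem g_wS_32_wQ_26_wN_1_rb803306224a_d41_d17_d51_d00_d51_d04_d55_d000f : GoodKC AS c_wS_32_wQ_26_wN_1_rb803306224a_d41_d17_d51_d00_d51_d04_d55_d000f := p_wS_32_wQ_26_wN_1_rb803306224a_d41_d17_d51_d00_d51_d04_d55_d000f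

theorem g__wS_32_wQ_26_wN_1_rb803306224a_d41_d17_d51_d00_d51_d04_d55_d000b_2 : GoodKC AS k_wS_32_wQ_26_wN_1_rb803306224a_d41_d17_d51_d00_d51_d04_d55_d000b_2 := p_wS_32_wQ_26_wN_1_rb803306224a_d41_d17_d51_d00_d51_d04_d55_d000b_2

theorem g__wS_32_wQ_26_wN_1_rb803306224a_d41_d17_d51_d00_d51_d04_d55_d000b_1 : GoodKC AS k_wS_32_wQ_26_wN_1_rb803306224a_d41_d17_d51_d00_d51_d04_d55_d000b_1 := p_wS_32_wQ_26_wN_1_rb803306224a_d41_d17_d51_d00_d51_d04_d55_d000b_1 g__wS_32_wQ_26_wN_1_rb803306224a_d41_d17_d51_d00_d51_d04_d55_d000b_2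

theorem g__wS_32_wQ_26_wN_1_rb803306224a_d41_d17_d51_d00_d51_d04_d55_d000b_0 : GoodKC AS k_wS_32_wQ_26_wN_1_rb803306224a_d41_d17_d51_d00_d51_d04_d55_d000b_0 := p_wS_32_wQ_26_wN_1_rb803306224a_d41_d17_d51_d00_d51_d04_d55_d000b_0 g__wS_32_wQ_26_wN_1_rb803306224a_d41_d17_d51_d00_d51_d04_d55_d000b_1

theorem g_wS_32_wQ_26_wN_1_rb803306224a_d41_d17_d51_d00_d51_d04_d55_d000b : GoodKC AS c_wS_32_wQ_26_wN_1_rb803306224a_d41_d17_d51_d00_d51_d04_d55_d000b := p_wS_32_wQ_26_wN_1_rb803306224a_d41_d17_d51_d00_d51_d04_d55_d000b g__wS_32_wQ_26_wN_1_rb803306224a_d41_d17_d51_d00_d51_d04_d55_d000b_0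

theorem g_wS_32_wQ_26_wN_1_rb803306224a_d41_d17_d51_d00_d51_d04_d55_d0009 : GoodKC AS c_wS_32_wQ_26_wN_1_rb803306224a_d41_d17_d51_d00_d51_d04_d55_d0009 := p_wS_32_wQ_26_wN_1_rb803306224a_d41_d17_d51_d00_d51_d04_d55_d0009

theorem g_wS_32_wQ_26_wN_1_rb803306224a_d41_d17_d51_d00_d51_d04_d55_d0005 : GoodKC AS c_wS_32_wQ_26_wN_1_rb803306224a_d41_d17_d51_d00_d51_d04_d55_d0005 := p_wS_32_wQ_26_wN_1_rb803306224a_d41_d17_d51_d00_d51_d04_d55_d0005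

theorem g_wS_32_wQ_26_wN_1_rb803306224a_d41_d17_d51_d00_d51_d04_d55_d0003 : GoodKC AS c_wS_32_wQ_26_wN_1_rb803306224a_d41_d17_d51_d00_d51_d04_d55_d0003 := p_wS_32_wQ_26_wN_1_rb803306224a_d41_d17_d51_d00_d51_d04_d55_d0003

theorem g_wS_32_wQ_26_wN_1_rb803306224a_d41_d17_d51_d00_d51_d04_d55_d0000 : GoodKC AS c_wS_32_wQ_26_wN_1_rb803306224a_d41_d17_d51_d00_d51_d04_d55_d0000 := p_wS_32_wQ_26_wN_1_rb803306224a_d41_d17_d51_d00_d51_d04_d55_d0000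

theorem g_wS_32_wQ_26_wN_1_rb803306224a_d41_d17_d51_d00_d51_d04_d55_d0001 : GoodKC AS c_wS_32_wQ_26_wN_1_rb803306224a_d41_d17_d51_d00_d51_d04_d55_d0001 := p_wS_32_wQ_26_wN_1_rb803306224a_d41_d17_d51_d00_d51_d04_d55_d0001

theorem g_wS_32_wQ_26_wN_1_rb803306224a_d41_d17_d51_d00_d51_d04_d55_d0002 : GoodKC AS c_wS_32_wQ_26_wN_1_rb803306224a_d41_d17_d51_d00_d51_d04_d55_d0002 := p_wS_32_wQ_26_wN_1_rb803306224a_d41_d17_d51_d00_d51_d04_d55_d0002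

theorem g_wS_32_wQ_26_wN_1_rb803306224a_d41_d17_d51_d00_d51_d04_d55_d0004 : GoodKC AS c_wS_32_wQ_26_wN_1_rb803306224a_d41_d17_d51_d00_d51_d04_d55_d0004 := p_wS_32_wQ_26_wN_1_rb803306224a_d41_d17_d51_d00_d51_d04_d55_d0004

theorem g_wS_32_wQ_26_wN_1_rb803306224a_d41_d17_d51_d00_d51_d04_d55_d0006 : GoodKC AS c_wS_32_wQ_26_wN_1_rb803306224a_d41_d17_d51_d00_d51_d04_d55_d0006 := p_wS_32_wQ_26_wN_1_rb803306224a_d41_d17_d51_d00_d51_d04_d55_d0006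

theorem g_wS_32_wQ_26_wN_1_rb803306224a_d41_d17_d51_d00_d51_d04_d55_d0007 : GoodKC AS c_wS_32_wQ_26_wN_1_rb803306224a_d41_d17_d51_d00_d51_d04_d55_d0007 := p_wS_32_wQ_26_wN_1_rb803306224a_d41_d17_d51_d00_d51_d04_d55_d0007

theorem g_wS_32_wQ_26_wN_1_rb803306224a_d41_d17_d51_d00_d51_d04_d55_d0008 : GoodKC AS c_wS_32_wQ_26_wN_1_rb803306224a_d41_d17_d51_d00_d51_d04_d55_d0008 := p_wS_32_wQ_26_wN_1_rb803306224a_d41_d17_d51_d00_d51_d04_d55_d0008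

theorem g__wS_32_wQ_26_wN_1_rb803306224a_d41_d17_d51_d00_d51_d04_d55_d00_0 : GoodKC AS k_wS_32_wQ_26_wN_1_rb803306224a_d41_d17_d51_d00_d51_d04_d55_d00_0 := p_wS_32_wQ_26_wN_1_rb803306224a_d41_d17_d51_d00_d51_d04_d55_d00_0

theorem g__wS_32_wQ_26_wN_1_rb803306224a_d41_d17_d51_d00_d51_d04_d55_d00_1 : GoodKC AS k_wS_32_wQ_26_wN_1_rb803306224a_d41_d17_d51_d00_d51_d04_d55_d00_1 := p_wS_32_wQ_26_wN_1_rb803306224a_d41_d17_d51_d00_d51_d04_d55_d00_1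

theorem g__wS_32_wQ_26_wN_1_rb803306224a_d41_d17_d51_d00_d51_d04_d55_d00_2 : GoodKC AS k_wS_32_wQ_26_wN_1_rb803306224a_d41_d17_d51_d00_d51_d04_d55_d00_2 := p_wS_32_wQ_26_wN_1_rb803306224a_d41_d17_d51_d00_d51_d04_d55_d00_2

theorem g_wS_32_wQ_26_wN_1_rb803306224a_d41_d17_d51_d00_d51_d04_d55_d000a : GoodKC AS c_wS_32_wQ_26_wN_1_rb803306224a_d41_d17_d51_d00_d51_d04_d55_d000a := p_wS_32_wQ_26_wN_1_rb803306224a_d41_d17_d51_d00_d51_d04_d55_d000a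

theorem g_wS_32_wQ_26_wN_1_rb803306224a_d41_d17_d51_d00_d51_d04_d55_d000c : GoodKC AS c_wS_32_wQ_26_wN_1_rb803306224a_d41_d17_d51_d00_d51_d04_d55_d000c := p_wS_32_wQ_26_wN_1_rb803306224a_d41_d17_d51_d00_d51_d04_d55_d000c

theorem g_wS_32_wQ_26_wN_1_rb803306224a_d41_d17_d51_d00_d51_d04_d55_d000d : GoodKC AS c_wS_32_wQ_26_wN_1_rb803306224a_d41_d17_d51_d00_d51_d04_d55_d000d := p_wS_32_wQ_26_wN_1_rb803306224a_d41_d17_d51_d00_d51_d04_d55_d000d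

theorem g_wS_32_wQ_26_wN_1_rb803306224a_d41_d17_d51_d00_d51_d04_d55_d000e : GoodKC AS c_wS_32_wQ_26_wN_1_rb803306224a_d41_d17_d51_d00_d51_d04_d55_d000e := p_wS_32_wQ_26_wN_1_rb803306224a_d41_d17_d51_d00_d51_d04_d55_d000e

theorem g_wS_32_wQ_26_wN_1_rb803306224a_d41_d17_d51_d00_d51_d04_d55_d00v1 : GoodKC AS c_wS_32_wQ_26_wN_1_rb803306224a_d41_d17_d51_d00_d51_d04_d55_d00v1 := p_wS_32_wQ_26_wN_1_rb803306224a_d41_d17_d51_d00_d51_d04_d55_d00 g_wS_32_wQ_26_wN_1_rb803306224a_d41_d17_d51_d00_d51_d04_d55_d000f g_wS_32_wQ_26_wN_1_rb803306224a_d41_d17_d51_d00_d51_d04_d55_d000b g_wS_32_wQ_26_wN_1_rb803306224a_d41_d17_d51_d00_d51_d04_d55_d0009 g_wS_32_wQ_26_wN_1_rb803306224a_d41_d17_d51_d00_d51_d04_d55_d0005 g_wS_32_wQ_26_wN_1_rb803306224a_d41_d17_d51_d00_d51_d04_d55_d0003 g_wS_32_wQ_26_wN_1_rb803306224a_d41_d17_d51_d00_d51_d04_d55_d0000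 g_wS_32_wQ_26_wN_1_rb803306224a_d41_d17_d51_d00_d51_d04_d55_d0001 g_wS_32_wQ_26_wN_1_rb803306224a_d41_d17_d51_d00_d51_d04_d55_d0002 g_wS_32_wQ_26_wN_1_rb803306224a_d41_d17_d51_d00_d51_d04_d55_d0004 g_wS_32_wQ_26_wN_1_rb803306224a_d41_d17_d51_d00_d51_d04_d55_d0006 g_wS_32_wQ_26_wN_1_rb803306224a_d41_d17_d51_d00_d51_d04_d55_d0007 g_wS_32_wQ_26_wN_1_rb803306224a_d41_d17_d51_d00_d51_d04_d55_d0008 g__wS_32_wQ_26_wN_1_rb803306224a_d41_d17_d51_d00_d51_d04_d55_d00_0 g__wS_32_wQ_26_wN_1_rb803306224a_d41_d17_d51_d00_d51_d04_d55_d00_1 g__wS_32_wQ_26_wN_1_rb803306224a_d41_d17_d51_d00_d51_d04_d55_d00_2 g_wS_32_wQ_26_wN_1_rb803306224a_d41_d17_d51_d00_d51_d04_d55_d000a g_wS_32_wQ_26_wN_1_rb803306224a_d41_d17_d51_d00_d51_d04_d55_d000c g_wS_32_wQ_26_wN_1_rb803306224a_d41_d17_d51_d00_d51_d04_d55_d000d g_wS_32_wQ_26_wN_1_rb803306224a_d41_d17_d51_d00_d51_d04_d55_d000e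

theorem g_wS_32_wQ_26_wN_1_rb803306224a_d41_d17_d51_d00_d51_d04_d55_d01v1 : GoodKC AS c_wS_32_wQ_26_wN_1_rb803306224a_d41_d17_d51_d00_d51_d04_d55_d01v1 := p_wS_32_wQ_26_wN_1_rb803306224a_d41_d17_d51_d00_d51_d04_d55_d01

theorem g_wS_32_wQ_26_wN_1_rb803306224a_d41_d17_d51_d00_d51_d04_d55_d02v1 : GoodKC AS c_wS_32_wQ_26_wN_1_rb803306224a_d41_d17_d51_d00_d51_d04_d55_d02v1 := p_wS_32_wQ_26_wN_1_rb803306224a_d41_d17_d51_d00_d51_d04_d55_d02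

theorem g_wS_32_wQ_26_wN_1_rb803306224a_d41_d17_d51_d00_d51_d04_d55_d03v1 : GoodKC AS c_wS_32_wQ_26_wN_1_rb803306224a_d41_d17_d51_d00_d51_d04_d55_d03v1 := p_wS_32_wQ_26_wN_1_rb803306224a_d41_d17_d51_d00_d51_d04_d55_d03

theorem g_wS_32_wQ_26_wN_1_rb803306224a_d41_d17_d51_d00_d51_d04_d55_d04v1 : GoodKC AS c_wS_32_wQ_26_wN_1_rb803306224a_d41_d17_d51_d00_d51_d04_d55_d04v1 := p_wS_32_wQ_26_wN_1_rb803306224a_d41_d17_d51_d00_d51_d04_d55_d04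

theorem g__wS_32_wQ_26_wN_1_rb803306224a_d41_d17_d51_d00_d51_d04_d55_d06v1_2 : GoodKC AS k_wS_32_wQ_26_wN_1_rb803306224a_d41_d17_d51_d00_d51_d04_d55_d06v1_2 := p_wS_32_wQ_26_wN_1_rb803306224a_d41_d17_d51_d00_d51_d04_d55_d06v1_2

theorem g__wS_32_wQ_26_wN_1_rb803306224a_d41_d17_d51_d00_d51_d04_d55_d06v1_1 : GoodKC AS k_wS_32_wQ_26_wN_1_rb803306224a_d41_d17_d51_d00_d51_d04_d55_d06v1_1 := p_wS_32_wQ_26_wN_1_rb803306224a_d41_d17_d51_d00_d51_d04_d55_d06v1_1 g__wS_32_wQ_26_wN_1_rb803306224a_d41_d17_d51_d00_d51_d04_d55_d06v1_2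

theorem g__wS_32_wQ_26_wN_1_rb803306224a_d41_d17_d51_d00_d51_d04_d55_d06v1_4 : GoodKC AS k_wS_32_wQ_26_wN_1_rb803306224a_d41_d17_d51_d00_d51_d04_d55_d06v1_4 := p_wS_32_wQ_26_wN_1_rb803306224a_d41_d17_d51_d00_d51_d04_d55_d06v1_4

theorem g__wS_32_wQ_26_wN_1_rb803306224a_d41_d17_d51_d00_d51_d04_d55_d06v1_3 : GoodKC AS k_wS_32_wQ_26_wN_1_rb803306224a_d41_d17_d51_d00_d51_d04_d55_d06v1_3 := p_wS_32_wQ_26_wN_1_rb803306224a_d41_d17_d51_d00_d51_d04_d55_d06v1_3 g__wS_32_wQ_26_wN_1_rb803306224a_d41_d17_d51_d00_d51_d04_d55_d06v1_4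

theorem g__wS_32_wQ_26_wN_1_rb803306224a_d41_d17_d51_d00_d51_d04_d55_d06v1_0 : GoodKC AS k_wS_32_wQ_26_wN_1_rb803306224a_d41_d17_d51_d00_d51_d04_d55_d06v1_0 := p_wS_32_wQ_26_wN_1_rb803306224a_d41_d17_d51_d00_d51_d04_d55_d06v1_0 g__wS_32_wQ_26_wN_1_rb803306224a_d41_d17_d51_d00_d51_d04_d55_d06v1_1 g__wS_32_wQ_26_wN_1_rb803306224a_d41_d17_d51_d00_d51_d04_d55_d06v1_3

theorem g_wS_32_wQ_26_wN_1_rb803306224a_d41_d17_d51_d00_d51_d04_d55_d06v1 : GoodKC AS c_wS_32_wQ_26_wN_1_rb803306224a_d41_d17_d51_d00_d51_d04_d55_d06v1 := p_wS_32_wQ_26_wN_1_rb803306224a_d41_d17_d51_d00_d51_d04_d55_d06v1 g__wS_32_wQ_26_wN_1_rb803306224a_d41_d17_d51_d00_d51_d04_d55_d06v1_0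

theorem g_wS_32_wQ_26_wN_1_rb803306224a_d41_d17_d51_d00_d51_d04_d55_d07v1 : GoodKC AS c_wS_32_wQ_26_wN_1_rb803306224a_d41_d17_d51_d00_d51_d04_d55_d07v1 := p_wS_32_wQ_26_wN_1_rb803306224a_d41_d17_d51_d00_d51_d04_d55_d07

theorem g_wS_32_wQ_26_wN_1_rb803306224a_d41_d17_d51_d00_d51_d04 : GoodKC AS c_wS_32_wQ_26_wN_1_rb803306224a_d41_d17_d51_d00_d51_d04 := p_wS_32_wQ_26_wN_1_rb803306224a_d41_d17_d51_d00_d51_d04v1 g_wS_32_wQ_26_wN_1_rb803306224a_d41_d17_d51_d00_d51_d04_d55_d08v1 g_wS_32_wQ_26_wN_1_rb803306224a_d41_d17_d51_d00_d51_d04_d55_d05v1 g_wS_32_wQ_26_wN_1_rb803306224a_d41_d17_d51_d00_d51_d04_d55_d00v1 g_wS_32_wQ_26_wN_1_rb803306224a_d41_d17_d51_d00_d51_d04_d55_d01v1 g_wS_32_wQ_26_wN_1_rb803306224a_d41_d17_d51_d00_d51_d04_d55_d02v1 g_wS_32_wQ_26_wN_1_rb803306224a_d41_d17_d51_d00_d51_d04_d55_d03v1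 g_wS_32_wQ_26_wN_1_rb803306224a_d41_d17_d51_d00_d51_d04_d55_d04v1 g_wS_32_wQ_26_wN_1_rb803306224a_d41_d17_d51_d00_d51_d04_d55_d06v1 g_wS_32_wQ_26_wN_1_rb803306224a_d41_d17_d51_d00_d51_d04_d55_d07v1

theorem g__wS_32_wQ_26_wN_1_rb803306224a_d41_d17_d51_d00_d51_d03v1_4 : GoodKC AS k_wS_32_wQ_26_wN_1_rb803306224a_d41_d17_d51_d00_d51_d03v1_4 := p_wS_32_wQ_26_wN_1_rb803306224a_d41_d17_d51_d00_d51_d03v1_4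

theorem g__wS_32_wQ_26_wN_1_rb803306224a_d41_d17_d51_d00_d51_d03v1_5 : GoodKC AS k_wS_32_wQ_26_wN_1_rb803306224a_d41_d17_d51_d00_d51_d03v1_5 := p_wS_32_wQ_26_wN_1_rb803306224a_d41_d17_d51_d00_d51_d03v1_5

theorem g__wS_32_wQ_26_wN_1_rb803306224a_d41_d17_d51_d00_d51_d03v1_3 : GoodKC AS k_wS_32_wQ_26_wN_1_rb803306224a_d41_d17_d51_d00_d51_d03v1_3 := p_wS_32_wQ_26_wN_1_rb803306224a_d41_d17_d51_d00_d51_d03v1_3 g__wS_32_wQ_26_wN_1_rb803306224a_d41_d17_d51_d00_d51_d03v1_4 g__wS_32_wQ_26_wN_1_rb803306224a_d41_d17_d51_d00_d51_d03v1_5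

theorem g__wS_32_wQ_26_wN_1_rb803306224a_d41_d17_d51_d00_d51_d03v1_8 : GoodKC AS k_wS_32_wQ_26_wN_1_rb803306224a_d41_d17_d51_d00_d51_d03v1_8 := p_wS_32_wQ_26_wN_1_rb803306224a_d41_d17_d51_d00_d51_d03v1_8

theorem g__wS_32_wQ_26_wN_1_rb803306224a_d41_d17_d51_d00_d51_d03v1_7 : GoodKC AS k_wS_32_wQ_26_wN_1_rb803306224a_d41_d17_d51_d00_d51_d03v1_7 := p_wS_32_wQ_26_wN_1_rb803306224a_d41_d17_d51_d00_d51_d03v1_7 g__wS_32_wQ_26_wN_1_rb803306224a_d41_d17_d51_d00_d51_d03v1_8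

theorem g__wS_32_wQ_26_wN_1_rb803306224a_d41_d17_d51_d00_d51_d03v1_6 : GoodKC AS k_wS_32_wQ_26_wN_1_rb803306224a_d41_d17_d51_d00_d51_d03v1_6 := p_wS_32_wQ_26_wN_1_rb803306224a_d41_d17_d51_d00_d51_d03v1_6 g__wS_32_wQ_26_wN_1_rb803306224a_d41_d17_d51_d00_d51_d03v1_7

theorem g__wS_32_wQ_26_wN_1_rb803306224a_d41_d17_d51_d00_d51_d03v1_2 : GoodKC AS k_wS_32_wQ_26_wN_1_rb803306224a_d41_d17_d51_d00_d51_d03v1_2 := p_wS_32_wQ_26_wN_1_rb803306224a_d41_d17_d51_d00_d51_d03v1_2 g__wS_32_wQ_26_wN_1_rb803306224a_d41_d17_d51_d00_d51_d03v1_3 g__wS_32_wQ_26_wN_1_rb803306224a_d41_d17_d51_d00_d51_d03v1_6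

theorem g__wS_32_wQ_26_wN_1_rb803306224a_d41_d17_d51_d00_d51_d03v1_9 : GoodKC AS k_wS_32_wQ_26_wN_1_rb803306224a_d41_d17_d51_d00_d51_d03v1_9 := p_wS_32_wQ_26_wN_1_rb803306224a_d41_d17_d51_d00_d51_d03v1_9

theorem g__wS_32_wQ_26_wN_1_rb803306224a_d41_d17_d51_d00_d51_d03v1_1 : GoodKC AS k_wS_32_wQ_26_wN_1_rb803306224a_d41_d17_d51_d00_d51_d03v1_1 := p_wS_32_wQ_26_wN_1_rb803306224a_d41_d17_d51_d00_d51_d03v1_1 g__wS_32_wQ_26_wN_1_rb803306224a_d41_d17_d51_d00_d51_d03v1_2 g__wS_32_wQ_26_wN_1_rb803306224a_d41_d17_d51_d00_d51_d03v1_9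

theorem g__wS_32_wQ_26_wN_1_rb803306224a_d41_d17_d51_d00_d51_d03v1_0 : GoodKC AS k_wS_32_wQ_26_wN_1_rb803306224a_d41_d17_d51_d00_d51_d03v1_0 := p_wS_32_wQ_26_wN_1_rb803306224a_d41_d17_d51_d00_d51_d03v1_0 g__wS_32_wQ_26_wN_1_rb803306224a_d41_d17_d51_d00_d51_d03v1_1

theorem g_wS_32_wQ_26_wN_1_rb803306224a_d41_d17_d51_d00_d51_d03 : GoodKC AS c_wS_32_wQ_26_wN_1_rb803306224a_d41_d17_d51_d00_d51_d03 := p_wS_32_wQ_26_wN_1_rb803306224a_d41_d17_d51_d00_d51_d03v1 g__wS_32_wQ_26_wN_1_rb803306224a_d41_d17_d51_d00_d51_d03v1_0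

theorem g_wS_32_wQ_26_wN_1_rb803306224a_d41_d17_d51_d00_d51_d01 : GoodKC AS c_wS_32_wQ_26_wN_1_rb803306224a_d41_d17_d51_d00_d51_d01 := p_wS_32_wQ_26_wN_1_rb803306224a_d41_d17_d51_d00_d51_d01

theorem g_wS_32_wQ_26_wN_1_rb803306224a_d41_d17_d51_d00_d51_d00_d51_d02 : GoodKC AS c_wS_32_wQ_26_wN_1_rb803306224a_d41_d17_d51_d00_d51_d00_d51_d02 := p_wS_32_wQ_26_wN_1_rb803306224a_d41_d17_d51_d00_d51_d00_d51_d02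

theorem g_wS_32_wQ_26_wN_1_rb803306224a_d41_d17_d51_d00_d51_d00_d51_d00_d56_d0cv1 : GoodKC AS c_wS_32_wQ_26_wN_1_rb803306224a_d41_d17_d51_d00_d51_d00_d51_d00_d56_d0cv1 := p_wS_32_wQ_26_wN_1_rb803306224a_d41_d17_d51_d00_d51_d00_d51_d00_d56_d0c

theorem g_wS_32_wQ_26_wN_1_rb803306224a_d41_d17_d51_d00_d51_d00_d51_d00_d56_d0bv1 : GoodKC AS c_wS_32_wQ_26_wN_1_rb803306224a_d41_d17_d51_d00_d51_d00_d51_d00_d56_d0bv1 := p_wS_32_wQ_26_wN_1_rb803306224a_d41_d17_d51_d00_d51_d00_d51_d00_d56_d0b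

theorem g_wS_32_wQ_26_wN_1_rb803306224a_d41_d17_d51_d00_d51_d00_d51_d00_d56_d07v1 : GoodKC AS c_wS_32_wQ_26_wN_1_rb803306224a_d41_d17_d51_d00_d51_d00_d51_d00_d56_d07v1 := p_wS_32_wQ_26_wN_1_rb803306224a_d41_d17_d51_d00_d51_d00_d51_d00_d56_d07

theorem g_wS_32_wQ_26_wN_1_rb803306224a_d41_d17_d51_d00_d51_d00_d51_d00_d56_d06v1 : GoodKC AS c_wS_32_wQ_26_wN_1_rb803306224a_d41_d17_d51_d00_d51_d00_d51_d00_d56_d06v1 := p_wS_32_wQ_26_wN_1_rb803306224a_d41_d17_d51_d00_d51_d00_d51_d00_d56_d06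

theorem g_wS_32_wQ_26_wN_1_rb803306224a_d41_d17_d51_d00_d51_d00_d51_d00_d56_d03v1 : GoodKC AS c_wS_32_wQ_26_wN_1_rb803306224a_d41_d17_d51_d00_d51_d00_d51_d00_d56_d03v1 := p_wS_32_wQ_26_wN_1_rb803306224a_d41_d17_d51_d00_d51_d00_d51_d00_d56_d03

theorem g_wS_32_wQ_26_wN_1_rb803306224a_d41_d17_d51_d00_d51_d00_d51_d00_d56_d00v1 : GoodKC AS c_wS_32_wQ_26_wN_1_rb803306224a_d41_d17_d51_d00_d51_d00_d51_d00_d56_d00v1 := p_wS_32_wQ_26_wN_1_rb803306224a_d41_d17_d51_d00_d51_d00_d51_d00_d56_d00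

theorem g_wS_32_wQ_26_wN_1_rb803306224a_d41_d17_d51_d00_d51_d00_d51_d00_d56_d01v1 : GoodKC AS c_wS_32_wQ_26_wN_1_rb803306224a_d41_d17_d51_d00_d51_d00_d51_d00_d56_d01v1 := p_wS_32_wQ_26_wN_1_rb803306224a_d41_d17_d51_d00_d51_d00_d51_d00_d56_d01

theorem g__wS_32_wQ_26_wN_1_rb803306224a_d41_d17_d51_d00_d51_d00_d51_d00_d56_d02_1 : GoodKC AS k_wS_32_wQ_26_wN_1_rb803306224a_d41_d17_d51_d00_d51_d00_d51_d00_d56_d02_1 := p_wS_32_wQ_26_wN_1_rb803306224a_d41_d17_d51_d00_d51_d00_d51_d00_d56_d02_1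

theorem g__wS_32_wQ_26_wN_1_rb803306224a_d41_d17_d51_d00_d51_d00_d51_d00_d56_d02_0 : GoodKC AS k_wS_32_wQ_26_wN_1_rb803306224a_d41_d17_d51_d00_d51_d00_d51_d00_d56_d02_0 := p_wS_32_wQ_26_wN_1_rb803306224a_d41_d17_d51_d00_d51_d00_d51_d00_d56_d02_0 g__wS_32_wQ_26_wN_1_rb803306224a_d41_d17_d51_d00_d51_d00_d51_d00_d56_d02_1

theorem g_wS_32_wQ_26_wN_1_rb803306224a_d41_d17_d51_d00_d51_d00_d51_d00_d56_d02v1 : GoodKC AS c_wS_32_wQ_26_wN_1_rb803306224a_d41_d17_d51_d00_d51_d00_d51_d00_d56_d02v1 := p_wS_32_wQ_26_wN_1_rb803306224a_d41_d17_d51_d00_d51_d00_d51_d00_d56_d02 g__wS_32_wQ_26_wN_1_rb803306224a_d41_d17_d51_d00_d51_d00_d51_d00_d56_d02_0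

theorem g__wS_32_wQ_26_wN_1_rb803306224a_d41_d17_d51_d00_d51_d00_d51_d00_d56_d04_1 : GoodKC AS k_wS_32_wQ_26_wN_1_rb803306224a_d41_d17_d51_d00_d51_d00_d51_d00_d56_d04_1 := p_wS_32_wQ_26_wN_1_rb803306224a_d41_d17_d51_d00_d51_d00_d51_d00_d56_d04_1

theorem g__wS_32_wQ_26_wN_1_rb803306224a_d41_d17_d51_d00_d51_d00_d51_d00_d56_d04_3 : GoodKC AS k_wS_32_wQ_26_wN_1_rb803306224a_d41_d17_d51_d00_d51_d00_d51_d00_d56_d04_3 := p_wS_32_wQ_26_wN_1_rb803306224a_d41_d17_d51_d00_d51_d00_d51_d00_d56_d04_3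

theorem g__wS_32_wQ_26_wN_1_rb803306224a_d41_d17_d51_d00_d51_d00_d51_d00_d56_d04_2 : GoodKC AS k_wS_32_wQ_26_wN_1_rb803306224a_d41_d17_d51_d00_d51_d00_d51_d00_d56_d04_2 := p_wS_32_wQ_26_wN_1_rb803306224a_d41_d17_d51_d00_d51_d00_d51_d00_d56_d04_2 g__wS_32_wQ_26_wN_1_rb803306224a_d41_d17_d51_d00_d51_d00_d51_d00_d56_d04_3

theorem g__wS_32_wQ_26_wN_1_rb803306224a_d41_d17_d51_d00_d51_d00_d51_d00_d56_d04_0 : GoodKC AS k_wS_32_wQ_26_wN_1_rb803306224a_d41_d17_d51_d00_d51_d00_d51_d00_d56_d04_0 := p_wS_32_wQ_26_wN_1_rb803306224a_d41_d17_d51_d00_d51_d00_d51_d00_d56_d04_0 g__wS_32_wQ_26_wN_1_rb803306224a_d41_d17_d51_d00_d51_d00_d51_d00_d56_d04_1 g__wS_32_wQ_26_wN_1_rb803306224a_d41_d17_d51_d00_d51_d00_d51_d00_d56_d04_2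

theorem g_wS_32_wQ_26_wN_1_rb803306224a_d41_d17_d51_d00_d51_d00_d51_d00_d56_d04v1 : GoodKC AS c_wS_32_wQ_26_wN_1_rb803306224a_d41_d17_d51_d00_d51_d00_d51_d00_d56_d04v1 := p_wS_32_wQ_26_wN_1_rb803306224a_d41_d17_d51_d00_d51_d00_d51_d00_d56_d04 g__wS_32_wQ_26_wN_1_rb803306224a_d41_d17_d51_d00_d51_d00_d51_d00_d56_d04_0

theorem g_wS_32_wQ_26_wN_1_rb803306224a_d41_d17_d51_d00_d51_d00_d51_d00_d56_d05v1 : GoodKC AS c_wS_32_wQ_26_wN_1_rb803306224a_d41_d17_d51_d00_d51_d00_d51_d00_d56_d05v1 := p_wS_32_wQ_26_wN_1_rb803306224a_d41_d17_d51_d00_d51_d00_d51_d00_d56_d05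

theorem g__wS_32_wQ_26_wN_1_rb803306224a_d41_d17_d51_d00_d51_d00_d51_d00_d56_d08_0 : GoodKC AS k_wS_32_wQ_26_wN_1_rb803306224a_d41_d17_d51_d00_d51_d00_d51_d00_d56_d08_0 := p_wS_32_wQ_26_wN_1_rb803306224a_d41_d17_d51_d00_d51_d00_d51_d00_d56_d08_0

theorem g__wS_32_wQ_26_wN_1_rb803306224a_d41_d17_d51_d00_d51_d00_d51_d00_d56_d08_3 : GoodKC AS k_wS_32_wQ_26_wN_1_rb803306224a_d41_d17_d51_d00_d51_d00_d51_d00_d56_d08_3 := p_wS_32_wQ_26_wN_1_rb803306224a_d41_d17_d51_d00_d51_d00_d51_d00_d56_d08_3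

theorem g__wS_32_wQ_26_wN_1_rb803306224a_d41_d17_d51_d00_d51_d00_d51_d00_d56_d08_4 : GoodKC AS k_wS_32_wQ_26_wN_1_rb803306224a_d41_d17_d51_d00_d51_d00_d51_d00_d56_d08_4 := p_wS_32_wQ_26_wN_1_rb803306224a_d41_d17_d51_d00_d51_d00_d51_d00_d56_d08_4

theorem g__wS_32_wQ_26_wN_1_rb803306224a_d41_d17_d51_d00_d51_d00_d51_d00_d56_d08_2 : GoodKC AS k_wS_32_wQ_26_wN_1_rb803306224a_d41_d17_d51_d00_d51_d00_d51_d00_d56_d08_2 := p_wS_32_wQ_26_wN_1_rb803306224a_d41_d17_d51_d00_d51_d00_d51_d00_d56_d08_2 g__wS_32_wQ_26_wN_1_rb803306224a_d41_d17_d51_d00_d51_d00_d51_d00_d56_d08_3 g__wS_32_wQ_26_wN_1_rb803306224a_d41_d17_d51_d00_d51_d00_d51_d00_d56_d08_4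

theorem g__wS_32_wQ_26_wN_1_rb803306224a_d41_d17_d51_d00_d51_d00_d51_d00_d56_d08_1 : GoodKC AS k_wS_32_wQ_26_wN_1_rb803306224a_d41_d17_d51_d00_d51_d00_d51_d00_d56_d08_1 := p_wS_32_wQ_26_wN_1_rb803306224a_d41_d17_d51_d00_d51_d00_d51_d00_d56_d08_1 g__wS_32_wQ_26_wN_1_rb803306224a_d41_d17_d51_d00_d51_d00_d51_d00_d56_d08_2

theorem g_wS_32_wQ_26_wN_1_rb803306224a_d41_d17_d51_d00_d51_d00_d51_d00_d56_d08v1 : GoodKC AS c_wS_32_wQ_26_wN_1_rb803306224a_d41_d17_d51_d00_d51_d00_d51_d00_d56_d08v1 := p_wS_32_wQ_26_wN_1_rb803306224a_d41_d17_d51_d00_d51_d00_d51_d00_d56_d08 g__wS_32_wQ_26_wN_1_rb803306224a_d41_d17_d51_d00_d51_d00_d51_d00_d56_d08_0 g__wS_32_wQ_26_wN_1_rb803306224a_d41_d17_d51_d00_d51_d00_d51_d00_d56_d08_1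

theorem g_wS_32_wQ_26_wN_1_rb803306224a_d41_d17_d51_d00_d51_d00_d51_d00_d56_d09v1 : GoodKC AS c_wS_32_wQ_26_wN_1_rb803306224a_d41_d17_d51_d00_d51_d00_d51_d00_d56_d09v1 := p_wS_32_wQ_26_wN_1_rb803306224a_d41_d17_d51_d00_d51_d00_d51_d00_d56_d09

theorem g_wS_32_wQ_26_wN_1_rb803306224a_d41_d17_d51_d00_d51_d00_d51_d00_d56_d0av1 : GoodKC AS c_wS_32_wQ_26_wN_1_rb803306224a_d41_d17_d51_d00_d51_d00_d51_d00_d56_d0av1 := p_wS_32_wQ_26_wN_1_rb803306224a_d41_d17_d51_d00_d51_d00_d51_d00_d56_d0a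

theorem g__wS_32_wQ_26_wN_1_rb803306224a_d41_d17_d51_d00_d51_d00_d51_d00_d56_d0d_2 : GoodKC AS k_wS_32_wQ_26_wN_1_rb803306224a_d41_d17_d51_d00_d51_d00_d51_d00_d56_d0d_2 := p_wS_32_wQ_26_wN_1_rb803306224a_d41_d17_d51_d00_d51_d00_d51_d00_d56_d0d_2

theorem g__wS_32_wQ_26_wN_1_rb803306224a_d41_d17_d51_d00_d51_d00_d51_d00_d56_d0d_1 : GoodKC AS k_wS_32_wQ_26_wN_1_rb803306224a_d41_d17_d51_d00_d51_d00_d51_d00_d56_d0d_1 := p_wS_32_wQ_26_wN_1_rb803306224a_d41_d17_d51_d00_d51_d00_d51_d00_d56_d0d_1 g__wS_32_wQ_26_wN_1_rb803306224a_d41_d17_d51_d00_d51_d00_d51_d00_d56_d0d_2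

theorem g__wS_32_wQ_26_wN_1_rb803306224a_d41_d17_d51_d00_d51_d00_d51_d00_d56_d0d_0 : GoodKC AS k_wS_32_wQ_26_wN_1_rb803306224a_d41_d17_d51_d00_d51_d00_d51_d00_d56_d0d_0 := p_wS_32_wQ_26_wN_1_rb803306224a_d41_d17_d51_d00_d51_d00_d51_d00_d56_d0d_0 g__wS_32_wQ_26_wN_1_rb803306224a_d41_d17_d51_d00_d51_d00_d51_d00_d56_d0d_1

theorem g__wS_32_wQ_26_wN_1_rb803306224a_d41_d17_d51_d00_d51_d00_d51_d00_d56_d0d_5 : GoodKC AS k_wS_32_wQ_26_wN_1_rb803306224a_d41_d17_d51_d00_d51_d00_d51_d00_d56_d0d_5 := p_wS_32_wQ_26_wN_1_rb803306224a_d41_d17_d51_d00_d51_d00_d51_d00_d56_d0d_5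

theorem g__wS_32_wQ_26_wN_1_rb803306224a_d41_d17_d51_d00_d51_d00_d51_d00_d56_d0d_4 : GoodKC AS k_wS_32_wQ_26_wN_1_rb803306224a_d41_d17_d51_d00_d51_d00_d51_d00_d56_d0d_4 := p_wS_32_wQ_26_wN_1_rb803306224a_d41_d17_d51_d00_d51_d00_d51_d00_d56_d0d_4 g__wS_32_wQ_26_wN_1_rb803306224a_d41_d17_d51_d00_d51_d00_d51_d00_d56_d0d_5

theorem g__wS_32_wQ_26_wN_1_rb803306224a_d41_d17_d51_d00_d51_d00_d51_d00_d56_d0d_3 : GoodKC AS k_wS_32_wQ_26_wN_1_rb803306224a_d41_d17_d51_d00_d51_d00_d51_d00_d56_d0d_3 := p_wS_32_wQ_26_wN_1_rb803306224a_d41_d17_d51_d00_d51_d00_d51_d00_d56_d0d_3 g__wS_32_wQ_26_wN_1_rb803306224a_d41_d17_d51_d00_d51_d00_d51_d00_d56_d0d_4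

theorem g_wS_32_wQ_26_wN_1_rb803306224a_d41_d17_d51_d00_d51_d00_d51_d00_d56_d0d_d51_d00 : GoodKC AS c_wS_32_wQ_26_wN_1_rb803306224a_d41_d17_d51_d00_d51_d00_d51_d00_d56_d0d_d51_d00 := p_wS_32_wQ_26_wN_1_rb803306224a_d41_d17_d51_d00_d51_d00_d51_d00_d56_d0d_d51_d00

theorem g_wS_32_wQ_26_wN_1_rb803306224a_d41_d17_d51_d00_d51_d00_d51_d00_d56_d0dv1 : GoodKC AS c_wS_32_wQ_26_wN_1_rb803306224a_d41_d17_d51_d00_d51_d00_d51_d00_d56_d0dv1 := p_wS_32_wQ_26_wN_1_rb803306224a_d41_d17_d51_d00_d51_d00_d51_d00_d56_d0d g__wS_32_wQ_26_wN_1_rb803306224a_d41_d17_d51_d00_d51_d00_d51_d00_d56_d0d_0 g__wS_32_wQ_26_wN_1_rb803306224a_d41_d17_d51_d00_d51_d00_d51_d00_d56_d0d_3 g_wS_32_wQ_26_wN_1_rb803306224a_d41_d17_d51_d00_d51_d00_d51_d00_d56_d0d_d51_d00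

theorem g_wS_32_wQ_26_wN_1_rb803306224a_d41_d17_d51_d00_d51_d00_d51_d00 : GoodKC AS c_wS_32_wQ_26_wN_1_rb803306224a_d41_d17_d51_d00_d51_d00_d51_d00 := p_wS_32_wQ_26_wN_1_rb803306224a_d41_d17_d51_d00_d51_d00_d51_d00v1 g_wS_32_wQ_26_wN_1_rb803306224a_d41_d17_d51_d00_d51_d00_d51_d00_d56_d0cv1 g_wS_32_wQ_26_wN_1_rb803306224a_d41_d17_d51_d00_d51_d00_d51_d00_d56_d0bv1 g_wS_32_wQ_26_wN_1_rb803306224a_d41_d17_d51_d00_d51_d00_d51_d00_d56_d07v1 g_wS_32_wQ_26_wN_1_rb803306224a_d41_d17_d51_d00_d51_d00_d51_d00_d56_d06v1 g_wS_32_wQ_26_wN_1_rb803306224a_d41_d17_d51_d00_d51_d00_d51_d00_d56_d03v1 g_wS_32_wQ_26_wN_1_rb803306224a_d41_d17_d51_d00_d51_d00_d51_d00_d56_d00v1 g_wS_32_wQ_26_wN_1_rb803306224a_d41_d17_d51_d00_d51_d00_d51_d00_d56_d01v1 g_wS_32_wQ_26_wN_1_rb803306224a_d41_d17_d51_d00_d51_d00_d51_d00_d56_d02v1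 g_wS_32_wQ_26_wN_1_rb803306224a_d41_d17_d51_d00_d51_d00_d51_d00_d56_d04v1 g_wS_32_wQ_26_wN_1_rb803306224a_d41_d17_d51_d00_d51_d00_d51_d00_d56_d05v1 g_wS_32_wQ_26_wN_1_rb803306224a_d41_d17_d51_d00_d51_d00_d51_d00_d56_d08v1 g_wS_32_wQ_26_wN_1_rb803306224a_d41_d17_d51_d00_d51_d00_d51_d00_d56_d09v1 g_wS_32_wQ_26_wN_1_rb803306224a_d41_d17_d51_d00_d51_d00_d51_d00_d56_d0av1 g_wS_32_wQ_26_wN_1_rb803306224a_d41_d17_d51_d00_d51_d00_d51_d00_d56_d0dv1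

theorem g__wS_32_wQ_26_wN_1_rb803306224a_d41_d17_d51_d00_d51_d00_d51_d01_d55_d01_d51_d0d_0 : GoodKC AS k_wS_32_wQ_26_wN_1_rb803306224a_d41_d17_d51_d00_d51_d00_d51_d01_d55_d01_d51_d0d_0 := p_wS_32_wQ_26_wN_1_rb803306224a_d41_d17_d51_d00_d51_d00_d51_d01_d55_d01_d51_d0d_0

theorem g__wS_32_wQ_26_wN_1_rb803306224a_d41_d17_d51_d00_d51_d00_d51_d01_d55_d01_d51_d0d_2 : GoodKC AS k_wS_32_wQ_26_wN_1_rb803306224a_d41_d17_d51_d00_d51_d00_d51_d01_d55_d01_d51_d0d_2 := p_wS_32_wQ_26_wN_1_rb803306224a_d41_d17_d51_d00_d51_d00_d51_d01_d55_d01_d51_d0d_2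

theorem g__wS_32_wQ_26_wN_1_rb803306224a_d41_d17_d51_d00_d51_d00_d51_d01_d55_d01_d51_d0d_1 : GoodKC AS k_wS_32_wQ_26_wN_1_rb803306224a_d41_d17_d51_d00_d51_d00_d51_d01_d55_d01_d51_d0d_1 := p_wS_32_wQ_26_wN_1_rb803306224a_d41_d17_d51_d00_d51_d00_d51_d01_d55_d01_d51_d0d_1 g__wS_32_wQ_26_wN_1_rb803306224a_d41_d17_d51_d00_d51_d00_d51_d01_d55_d01_d51_d0d_2

theorem g_wS_32_wQ_26_wN_1_rb803306224a_d41_d17_d51_d00_d51_d00_d51_d01_d55_d01_d51_d0d : GoodKC AS c_wS_32_wQ_26_wN_1_rb803306224a_d41_d17_d51_d00_d51_d00_d51_d01_d55_d01_d51_d0d := p_wS_32_wQ_26_wN_1_rb803306224a_d41_d17_d51_d00_d51_d00_d51_d01_d55_d01_d51_d0d g__wS_32_wQ_26_wN_1_rb803306224a_d41_d17_d51_d00_d51_d00_d51_d01_d55_d01_d51_d0d_0 g__wS_32_wQ_26_wN_1_rb803306224a_d41_d17_d51_d00_d51_d00_d51_d01_d55_d01_d51_d0d_1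

theorem g_wS_32_wQ_26_wN_1_rb803306224a_d41_d17_d51_d00_d51_d00_d51_d01_d55_d01_d51_d0c : GoodKC AS c_wS_32_wQ_26_wN_1_rb803306224a_d41_d17_d51_d00_d51_d00_d51_d01_d55_d01_d51_d0c := p_wS_32_wQ_26_wN_1_rb803306224a_d41_d17_d51_d00_d51_d00_d51_d01_d55_d01_d51_d0c

theorem g_wS_32_wQ_26_wN_1_rb803306224a_d41_d17_d51_d00_d51_d00_d51_d01_d55_d01_d51_d0b : GoodKC AS c_wS_32_wQ_26_wN_1_rb803306224a_d41_d17_d51_d00_d51_d00_d51_d01_d55_d01_d51_d0b := p_wS_32_wQ_26_wN_1_rb803306224a_d41_d17_d51_d00_d51_d00_d51_d01_d55_d01_d51_d0b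

theorem g_wS_32_wQ_26_wN_1_rb803306224a_d41_d17_d51_d00_d51_d00_d51_d01_d55_d01_d51_d0a : GoodKC AS c_wS_32_wQ_26_wN_1_rb803306224a_d41_d17_d51_d00_d51_d00_d51_d01_d55_d01_d51_d0a := p_wS_32_wQ_26_wN_1_rb803306224a_d41_d17_d51_d00_d51_d00_d51_d01_d55_d01_d51_d0a

theorem g__wS_32_wQ_26_wN_1_rb803306224a_d41_d17_d51_d00_d51_d00_d51_d01_d55_d01_d51_d09_2 : GoodKC AS k_wS_32_wQ_26_wN_1_rb803306224a_d41_d17_d51_d00_d51_d00_d51_d01_d55_d01_d51_d09_2 := p_wS_32_wQ_26_wN_1_rb803306224a_d41_d17_d51_d00_d51_d00_d51_d01_d55_d01_d51_d09_2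

theorem g__wS_32_wQ_26_wN_1_rb803306224a_d41_d17_d51_d00_d51_d00_d51_d01_d55_d01_d51_d09_1 : GoodKC AS k_wS_32_wQ_26_wN_1_rb803306224a_d41_d17_d51_d00_d51_d00_d51_d01_d55_d01_d51_d09_1 := p_wS_32_wQ_26_wN_1_rb803306224a_d41_d17_d51_d00_d51_d00_d51_d01_d55_d01_d51_d09_1 g__wS_32_wQ_26_wN_1_rb803306224a_d41_d17_d51_d00_d51_d00_d51_d01_d55_d01_d51_d09_2

theorem g__wS_32_wQ_26_wN_1_rb803306224a_d41_d17_d51_d00_d51_d00_d51_d01_d55_d01_d51_d09_0 : GoodKC AS k_wS_32_wQ_26_wN_1_rb803306224a_d41_d17_d51_d00_d51_d00_d51_d01_d55_d01_d51_d09_0 := p_wS_32_wQ_26_wN_1_rb803306224a_d41_d17_d51_d00_d51_d00_d51_d01_d55_d01_d51_d09_0 g__wS_32_wQ_26_wN_1_rb803306224a_d41_d17_d51_d00_d51_d00_d51_d01_d55_d01_d51_d09_1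

theorem g_wS_32_wQ_26_wN_1_rb803306224a_d41_d17_d51_d00_d51_d00_d51_d01_d55_d01_d51_d09 : GoodKC AS c_wS_32_wQ_26_wN_1_rb803306224a_d41_d17_d51_d00_d51_d00_d51_d01_d55_d01_d51_d09 := p_wS_32_wQ_26_wN_1_rb803306224a_d41_d17_d51_d00_d51_d00_d51_d01_d55_d01_d51_d09 g__wS_32_wQ_26_wN_1_rb803306224a_d41_d17_d51_d00_d51_d00_d51_d01_d55_d01_d51_d09_0

theorem g__wS_32_wQ_26_wN_1_rb803306224a_d41_d17_d51_d00_d51_d00_d51_d01_d55_d01_d51_d08_2 : GoodKC AS k_wS_32_wQ_26_wN_1_rb803306224a_d41_d17_d51_d00_d51_d00_d51_d01_d55_d01_d51_d08_2 := p_wS_32_wQ_26_wN_1_rb803306224a_d41_d17_d51_d00_d51_d00_d51_d01_d55_d01_d51_d08_2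

theorem g__wS_32_wQ_26_wN_1_rb803306224a_d41_d17_d51_d00_d51_d00_d51_d01_d55_d01_d51_d08_1 : GoodKC AS k_wS_32_wQ_26_wN_1_rb803306224a_d41_d17_d51_d00_d51_d00_d51_d01_d55_d01_d51_d08_1 := p_wS_32_wQ_26_wN_1_rb803306224a_d41_d17_d51_d00_d51_d00_d51_d01_d55_d01_d51_d08_1 g__wS_32_wQ_26_wN_1_rb803306224a_d41_d17_d51_d00_d51_d00_d51_d01_d55_d01_d51_d08_2

theorem g__wS_32_wQ_26_wN_1_rb803306224a_d41_d17_d51_d00_d51_d00_d51_d01_d55_d01_d51_d08_0 : GoodKC AS k_wS_32_wQ_26_wN_1_rb803306224a_d41_d17_d51_d00_d51_d00_d51_d01_d55_d01_d51_d08_0 := p_wS_32_wQ_26_wN_1_rb803306224a_d41_d17_d51_d00_d51_d00_d51_d01_d55_d01_d51_d08_0 g__wS_32_wQ_26_wN_1_rb803306224a_d41_d17_d51_d00_d51_d00_d51_d01_d55_d01_d51_d08_1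

theorem g_wS_32_wQ_26_wN_1_rb803306224a_d41_d17_d51_d00_d51_d00_d51_d01_d55_d01_d51_d08 : GoodKC AS c_wS_32_wQ_26_wN_1_rb803306224a_d41_d17_d51_d00_d51_d00_d51_d01_d55_d01_d51_d08 := p_wS_32_wQ_26_wN_1_rb803306224a_d41_d17_d51_d00_d51_d00_d51_d01_d55_d01_d51_d08 g__wS_32_wQ_26_wN_1_rb803306224a_d41_d17_d51_d00_d51_d00_d51_d01_d55_d01_d51_d08_0

theorem g_wS_32_wQ_26_wN_1_rb803306224a_d41_d17_d51_d00_d51_d00_d51_d01_d55_d01_d51_d05 : GoodKC AS c_wS_32_wQ_26_wN_1_rb803306224a_d41_d17_d51_d00_d51_d00_d51_d01_d55_d01_d51_d05 := p_wS_32_wQ_26_wN_1_rb803306224a_d41_d17_d51_d00_d51_d00_d51_d01_d55_d01_d51_d05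

theorem g__wS_32_wQ_26_wN_1_rb803306224a_d41_d17_d51_d00_d51_d00_d51_d01_d55_d01_1 : GoodKC AS k_wS_32_wQ_26_wN_1_rb803306224a_d41_d17_d51_d00_d51_d00_d51_d01_d55_d01_1 := p_wS_32_wQ_26_wN_1_rb803306224a_d41_d17_d51_d00_d51_d00_d51_d01_d55_d01_1

theorem g__wS_32_wQ_26_wN_1_rb803306224a_d41_d17_d51_d00_d51_d00_d51_d01_d55_d01_2 : GoodKC AS k_wS_32_wQ_26_wN_1_rb803306224a_d41_d17_d51_d00_d51_d00_d51_d01_d55_d01_2 := p_wS_32_wQ_26_wN_1_rb803306224a_d41_d17_d51_d00_d51_d00_d51_d01_d55_d01_2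

theorem g__wS_32_wQ_26_wN_1_rb803306224a_d41_d17_d51_d00_d51_d00_d51_d01_d55_d01_0 : GoodKC AS k_wS_32_wQ_26_wN_1_rb803306224a_d41_d17_d51_d00_d51_d00_d51_d01_d55_d01_0 := p_wS_32_wQ_26_wN_1_rb803306224a_d41_d17_d51_d00_d51_d00_d51_d01_d55_d01_0 g__wS_32_wQ_26_wN_1_rb803306224a_d41_d17_d51_d00_d51_d00_d51_d01_d55_d01_1 g__wS_32_wQ_26_wN_1_rb803306224a_d41_d17_d51_d00_d51_d00_d51_d01_d55_d01_2

theorem g_wS_32_wQ_26_wN_1_rb803306224a_d41_d17_d51_d00_d51_d00_d51_d01_d55_d01_d51_d04 : GoodKC AS c_wS_32_wQ_26_wN_1_rb803306224a_d41_d17_d51_d00_d51_d00_d51_d01_d55_d01_d51_d04 := p_wS_32_wQ_26_wN_1_rb803306224a_d41_d17_d51_d00_d51_d00_d51_d01_d55_d01_d51_d04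

theorem g_wS_32_wQ_26_wN_1_rb803306224a_d41_d17_d51_d00_d51_d00_d51_d01_d55_d01_d51_d03 : GoodKC AS c_wS_32_wQ_26_wN_1_rb803306224a_d41_d17_d51_d00_d51_d00_d51_d01_d55_d01_d51_d03 := p_wS_32_wQ_26_wN_1_rb803306224a_d41_d17_d51_d00_d51_d00_d51_d01_d55_d01_d51_d03

theorem g_wS_32_wQ_26_wN_1_rb803306224a_d41_d17_d51_d00_d51_d00_d51_d01_d55_d01_d51_d02 : GoodKC AS c_wS_32_wQ_26_wN_1_rb803306224a_d41_d17_d51_d00_d51_d00_d51_d01_d55_d01_d51_d02 := p_wS_32_wQ_26_wN_1_rb803306224a_d41_d17_d51_d00_d51_d00_d51_d01_d55_d01_d51_d02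

theorem g_wS_32_wQ_26_wN_1_rb803306224a_d41_d17_d51_d00_d51_d00_d51_d01_d55_d01_d51_d01 : GoodKC AS c_wS_32_wQ_26_wN_1_rb803306224a_d41_d17_d51_d00_d51_d00_d51_d01_d55_d01_d51_d01 := p_wS_32_wQ_26_wN_1_rb803306224a_d41_d17_d51_d00_d51_d00_d51_d01_d55_d01_d51_d01

theorem g_wS_32_wQ_26_wN_1_rb803306224a_d41_d17_d51_d00_d51_d00_d51_d01_d55_d01_d51_d00 : GoodKC AS c_wS_32_wQ_26_wN_1_rb803306224a_d41_d17_d51_d00_d51_d00_d51_d01_d55_d01_d51_d00 := p_wS_32_wQ_26_wN_1_rb803306224a_d41_d17_d51_d00_d51_d00_d51_d01_d55_d01_d51_d00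

theorem g__wS_32_wQ_26_wN_1_rb803306224a_d41_d17_d51_d00_d51_d00_d51_d01_d55_d01_3 : GoodKC AS k_wS_32_wQ_26_wN_1_rb803306224a_d41_d17_d51_d00_d51_d00_d51_d01_d55_d01_3 := p_wS_32_wQ_26_wN_1_rb803306224a_d41_d17_d51_d00_d51_d00_d51_d01_d55_d01_3 g_wS_32_wQ_26_wN_1_rb803306224a_d41_d17_d51_d00_d51_d00_d51_d01_d55_d01_d51_d04 g_wS_32_wQ_26_wN_1_rb803306224a_d41_d17_d51_d00_d51_d00_d51_d01_d55_d01_d51_d03 g_wS_32_wQ_26_wN_1_rb803306224a_d41_d17_d51_d00_d51_d00_d51_d01_d55_d01_d51_d02 g_wS_32_wQ_26_wN_1_rb803306224a_d41_d17_d51_d00_d51_d00_d51_d01_d55_d01_d51_d01 g_wS_32_wQ_26_wN_1_rb803306224a_d41_d17_d51_d00_d51_d00_d51_d01_d55_d01_d51_d00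

theorem g_wS_32_wQ_26_wN_1_rb803306224a_d41_d17_d51_d00_d51_d00_d51_d01_d55_d01_d51_d06 : GoodKC AS c_wS_32_wQ_26_wN_1_rb803306224a_d41_d17_d51_d00_d51_d00_d51_d01_d55_d01_d51_d06 := p_wS_32_wQ_26_wN_1_rb803306224a_d41_d17_d51_d00_d51_d00_d51_d01_d55_d01_d51_d06

theorem g_wS_32_wQ_26_wN_1_rb803306224a_d41_d17_d51_d00_d51_d00_d51_d01_d55_d01_d51_d07 : GoodKC AS c_wS_32_wQ_26_wN_1_rb803306224a_d41_d17_d51_d00_d51_d00_d51_d01_d55_d01_d51_d07 := p_wS_32_wQ_26_wN_1_rb803306224a_d41_d17_d51_d00_d51_d00_d51_d01_d55_d01_d51_d07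

theorem g_wS_32_wQ_26_wN_1_rb803306224a_d41_d17_d51_d00_d51_d00_d51_d01_d55_d01 : GoodKC AS c_wS_32_wQ_26_wN_1_rb803306224a_d41_d17_d51_d00_d51_d00_d51_d01_d55_d01 := p_wS_32_wQ_26_wN_1_rb803306224a_d41_d17_d51_d00_d51_d00_d51_d01_d55_d01 g_wS_32_wQ_26_wN_1_rb803306224a_d41_d17_d51_d00_d51_d00_d51_d01_d55_d01_d51_d0d g_wS_32_wQ_26_wN_1_rb803306224a_d41_d17_d51_d00_d51_d00_d51_d01_d55_d01_d51_d0c g_wS_32_wQ_26_wN_1_rb803306224a_d41_d17_d51_d00_d51_d00_d51_d01_d55_d01_d51_d0b g_wS_32_wQ_26_wN_1_rb803306224a_d41_d17_d51_d00_d51_d00_d51_d01_d55_d01_d51_d0a g_wS_32_wQ_26_wN_1_rb803306224a_d41_d17_d51_d00_d51_d00_d51_d01_d55_d01_d51_d09 g_wS_32_wQ_26_wN_1_rb803306224a_d41_d17_d51_d00_d51_d00_d51_d01_d55_d01_d51_d08 g_wS_32_wQ_26_wN_1_rb803306224a_d41_d17_d51_d00_d51_d00_d51_d01_d55_d01_d51_d05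 g__wS_32_wQ_26_wN_1_rb803306224a_d41_d17_d51_d00_d51_d00_d51_d01_d55_d01_0 g__wS_32_wQ_26_wN_1_rb803306224a_d41_d17_d51_d00_d51_d00_d51_d01_d55_d01_3 g_wS_32_wQ_26_wN_1_rb803306224a_d41_d17_d51_d00_d51_d00_d51_d01_d55_d01_d51_d06 g_wS_32_wQ_26_wN_1_rb803306224a_d41_d17_d51_d00_d51_d00_d51_d01_d55_d01_d51_d07

theorem g__wS_32_wQ_26_wN_1_rb803306224a_d41_d17_d51_d00_d51_d00_d51_d01_d55_d00v1_0 : GoodKC AS k_wS_32_wQ_26_wN_1_rb803306224a_d41_d17_d51_d00_d51_d00_d51_d01_d55_d00v1_0 := p_wS_32_wQ_26_wN_1_rb803306224a_d41_d17_d51_d00_d51_d00_d51_d01_d55_d00v1_0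

theorem g__wS_32_wQ_26_wN_1_rb803306224a_d41_d17_d51_d00_d51_d00_d51_d01_d55_d00v1_1 : GoodKC AS k_wS_32_wQ_26_wN_1_rb803306224a_d41_d17_d51_d00_d51_d00_d51_d01_d55_d00v1_1 := p_wS_32_wQ_26_wN_1_rb803306224a_d41_d17_d51_d00_d51_d00_d51_d01_d55_d00v1_1

theorem g__wS_32_wQ_26_wN_1_rb803306224a_d41_d17_d51_d00_d51_d00_d51_d01_d55_d00v1_2 : GoodKC AS k_wS_32_wQ_26_wN_1_rb803306224a_d41_d17_d51_d00_d51_d00_d51_d01_d55_d00v1_2 := p_wS_32_wQ_26_wN_1_rb803306224a_d41_d17_d51_d00_d51_d00_d51_d01_d55_d00v1_2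

theorem g__wS_32_wQ_26_wN_1_rb803306224a_d41_d17_d51_d00_d51_d00_d51_d01_d55_d00v1_3 : GoodKC AS k_wS_32_wQ_26_wN_1_rb803306224a_d41_d17_d51_d00_d51_d00_d51_d01_d55_d00v1_3 := p_wS_32_wQ_26_wN_1_rb803306224a_d41_d17_d51_d00_d51_d00_d51_d01_d55_d00v1_3

theorem g__wS_32_wQ_26_wN_1_rb803306224a_d41_d17_d51_d00_d51_d00_d51_d01_d55_d00v1_6 : GoodKC AS k_wS_32_wQ_26_wN_1_rb803306224a_d41_d17_d51_d00_d51_d00_d51_d01_d55_d00v1_6 := p_wS_32_wQ_26_wN_1_rb803306224a_d41_d17_d51_d00_d51_d00_d51_d01_d55_d00v1_6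

theorem g__wS_32_wQ_26_wN_1_rb803306224a_d41_d17_d51_d00_d51_d00_d51_d01_d55_d00v1_5 : GoodKC AS k_wS_32_wQ_26_wN_1_rb803306224a_d41_d17_d51_d00_d51_d00_d51_d01_d55_d00v1_5 := p_wS_32_wQ_26_wN_1_rb803306224a_d41_d17_d51_d00_d51_d00_d51_d01_d55_d00v1_5 g__wS_32_wQ_26_wN_1_rb803306224a_d41_d17_d51_d00_d51_d00_d51_d01_d55_d00v1_6

theorem g__wS_32_wQ_26_wN_1_rb803306224a_d41_d17_d51_d00_d51_d00_d51_d01_d55_d00v1_7 : GoodKC AS k_wS_32_wQ_26_wN_1_rb803306224a_d41_d17_d51_d00_d51_d00_d51_d01_d55_d00v1_7 := p_wS_32_wQ_26_wN_1_rb803306224a_d41_d17_d51_d00_d51_d00_d51_d01_d55_d00v1_7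

theorem g__wS_32_wQ_26_wN_1_rb803306224a_d41_d17_d51_d00_d51_d00_d51_d01_d55_d00v1_4 : GoodKC AS k_wS_32_wQ_26_wN_1_rb803306224a_d41_d17_d51_d00_d51_d00_d51_d01_d55_d00v1_4 := p_wS_32_wQ_26_wN_1_rb803306224a_d41_d17_d51_d00_d51_d00_d51_d01_d55_d00v1_4 g__wS_32_wQ_26_wN_1_rb803306224a_d41_d17_d51_d00_d51_d00_d51_d01_d55_d00v1_5 g__wS_32_wQ_26_wN_1_rb803306224a_d41_d17_d51_d00_d51_d00_d51_d01_d55_d00v1_7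

theorem g_wS_32_wQ_26_wN_1_rb803306224a_d41_d17_d51_d00_d51_d00_d51_d01_d55_d00 : GoodKC AS c_wS_32_wQ_26_wN_1_rb803306224a_d41_d17_d51_d00_d51_d00_d51_d01_d55_d00 := p_wS_32_wQ_26_wN_1_rb803306224a_d41_d17_d51_d00_d51_d00_d51_d01_d55_d00v1 g__wS_32_wQ_26_wN_1_rb803306224a_d41_d17_d51_d00_d51_d00_d51_d01_d55_d00v1_0 g__wS_32_wQ_26_wN_1_rb803306224a_d41_d17_d51_d00_d51_d00_d51_d01_d55_d00v1_1 g__wS_32_wQ_26_wN_1_rb803306224a_d41_d17_d51_d00_d51_d00_d51_d01_d55_d00v1_2 g__wS_32_wQ_26_wN_1_rb803306224a_d41_d17_d51_d00_d51_d00_d51_d01_d55_d00v1_3 g__wS_32_wQ_26_wN_1_rb803306224a_d41_d17_d51_d00_d51_d00_d51_d01_d55_d00v1_4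

theorem g__wS_32_wQ_26_wN_1_rb803306224a_d41_d17_d51_d00_d51_d00_d51_d01_0 : GoodKC AS k_wS_32_wQ_26_wN_1_rb803306224a_d41_d17_d51_d00_d51_d00_d51_d01_0 := p_wS_32_wQ_26_wN_1_rb803306224a_d41_d17_d51_d00_d51_d00_d51_d01_0

theorem g__wS_32_wQ_26_wN_1_rb803306224a_d41_d17_d51_d00_d51_d00_d51_d01_d55_d02_1 : GoodKC AS k_wS_32_wQ_26_wN_1_rb803306224a_d41_d17_d51_d00_d51_d00_d51_d01_d55_d02_1 := p_wS_32_wQ_26_wN_1_rb803306224a_d41_d17_d51_d00_d51_d00_d51_d01_d55_d02_1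

theorem g__wS_32_wQ_26_wN_1_rb803306224a_d41_d17_d51_d00_d51_d00_d51_d01_d55_d02_0 : GoodKC AS k_wS_32_wQ_26_wN_1_rb803306224a_d41_d17_d51_d00_d51_d00_d51_d01_d55_d02_0 := p_wS_32_wQ_26_wN_1_rb803306224a_d41_d17_d51_d00_d51_d00_d51_d01_d55_d02_0 g__wS_32_wQ_26_wN_1_rb803306224a_d41_d17_d51_d00_d51_d00_d51_d01_d55_d02_1

theorem g__wS_32_wQ_26_wN_1_rb803306224a_d41_d17_d51_d00_d51_d00_d51_d01_d55_d02_2 : GoodKC AS k_wS_32_wQ_26_wN_1_rb803306224a_d41_d17_d51_d00_d51_d00_d51_d01_d55_d02_2 := p_wS_32_wQ_26_wN_1_rb803306224a_d41_d17_d51_d00_d51_d00_d51_d01_d55_d02_2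

theorem g__wS_32_wQ_26_wN_1_rb803306224a_d41_d17_d51_d00_d51_d00_d51_d01_d55_d02_6 : GoodKC AS k_wS_32_wQ_26_wN_1_rb803306224a_d41_d17_d51_d00_d51_d00_d51_d01_d55_d02_6 := p_wS_32_wQ_26_wN_1_rb803306224a_d41_d17_d51_d00_d51_d00_d51_d01_d55_d02_6

theorem g__wS_32_wQ_26_wN_1_rb803306224a_d41_d17_d51_d00_d51_d00_d51_d01_d55_d02_5 : GoodKC AS k_wS_32_wQ_26_wN_1_rb803306224a_d41_d17_d51_d00_d51_d00_d51_d01_d55_d02_5 := p_wS_32_wQ_26_wN_1_rb803306224a_d41_d17_d51_d00_d51_d00_d51_d01_d55_d02_5 g__wS_32_wQ_26_wN_1_rb803306224a_d41_d17_d51_d00_d51_d00_d51_d01_d55_d02_6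

theorem g__wS_32_wQ_26_wN_1_rb803306224a_d41_d17_d51_d00_d51_d00_d51_d01_d55_d02_8 : GoodKC AS k_wS_32_wQ_26_wN_1_rb803306224a_d41_d17_d51_d00_d51_d00_d51_d01_d55_d02_8 := p_wS_32_wQ_26_wN_1_rb803306224a_d41_d17_d51_d00_d51_d00_d51_d01_d55_d02_8

theorem g__wS_32_wQ_26_wN_1_rb803306224a_d41_d17_d51_d00_d51_d00_d51_d01_d55_d02_7 : GoodKC AS k_wS_32_wQ_26_wN_1_rb803306224a_d41_d17_d51_d00_d51_d00_d51_d01_d55_d02_7 := p_wS_32_wQ_26_wN_1_rb803306224a_d41_d17_d51_d00_d51_d00_d51_d01_d55_d02_7 g__wS_32_wQ_26_wN_1_rb803306224a_d41_d17_d51_d00_d51_d00_d51_d01_d55_d02_8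

theorem g__wS_32_wQ_26_wN_1_rb803306224a_d41_d17_d51_d00_d51_d00_d51_d01_d55_d02_4 : GoodKC AS k_wS_32_wQ_26_wN_1_rb803306224a_d41_d17_d51_d00_d51_d00_d51_d01_d55_d02_4 := p_wS_32_wQ_26_wN_1_rb803306224a_d41_d17_d51_d00_d51_d00_d51_d01_d55_d02_4 g__wS_32_wQ_26_wN_1_rb803306224a_d41_d17_d51_d00_d51_d00_d51_d01_d55_d02_5 g__wS_32_wQ_26_wN_1_rb803306224a_d41_d17_d51_d00_d51_d00_d51_d01_d55_d02_7

theorem g__wS_32_wQ_26_wN_1_rb803306224a_d41_d17_d51_d00_d51_d00_d51_d01_d55_d02_9 : GoodKC AS k_wS_32_wQ_26_wN_1_rb803306224a_d41_d17_d51_d00_d51_d00_d51_d01_d55_d02_9 := p_wS_32_wQ_26_wN_1_rb803306224a_d41_d17_d51_d00_d51_d00_d51_d01_d55_d02_9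

theorem g__wS_32_wQ_26_wN_1_rb803306224a_d41_d17_d51_d00_d51_d00_d51_d01_d55_d02_3 : GoodKC AS k_wS_32_wQ_26_wN_1_rb803306224a_d41_d17_d51_d00_d51_d00_d51_d01_d55_d02_3 := p_wS_32_wQ_26_wN_1_rb803306224a_d41_d17_d51_d00_d51_d00_d51_d01_d55_d02_3 g__wS_32_wQ_26_wN_1_rb803306224a_d41_d17_d51_d00_d51_d00_d51_d01_d55_d02_4 g__wS_32_wQ_26_wN_1_rb803306224a_d41_d17_d51_d00_d51_d00_d51_d01_d55_d02_9

theorem g_wS_32_wQ_26_wN_1_rb803306224a_d41_d17_d51_d00_d51_d00_d51_d01_d55_d02 : GoodKC AS c_wS_32_wQ_26_wN_1_rb803306224a_d41_d17_d51_d00_d51_d00_d51_d01_d55_d02 := p_wS_32_wQ_26_wN_1_rb803306224a_d41_d17_d51_d00_d51_d00_d51_d01_d55_d02 g__wS_32_wQ_26_wN_1_rb803306224a_d41_d17_d51_d00_d51_d00_d51_d01_d55_d02_0 g__wS_32_wQ_26_wN_1_rb803306224a_d41_d17_d51_d00_d51_d00_d51_d01_d55_d02_2 g__wS_32_wQ_26_wN_1_rb803306224a_d41_d17_d51_d00_d51_d00_d51_d01_d55_d02_3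

theorem g_wS_32_wQ_26_wN_1_rb803306224a_d41_d17_d51_d00_d51_d00_d51_d01 : GoodKC AS c_wS_32_wQ_26_wN_1_rb803306224a_d41_d17_d51_d00_d51_d00_d51_d01 := p_wS_32_wQ_26_wN_1_rb803306224a_d41_d17_d51_d00_d51_d00_d51_d01 g_wS_32_wQ_26_wN_1_rb803306224a_d41_d17_d51_d00_d51_d00_d51_d01_d55_d01 g_wS_32_wQ_26_wN_1_rb803306224a_d41_d17_d51_d00_d51_d00_d51_d01_d55_d00 g__wS_32_wQ_26_wN_1_rb803306224a_d41_d17_d51_d00_d51_d00_d51_d01_0 g_wS_32_wQ_26_wN_1_rb803306224a_d41_d17_d51_d00_d51_d00_d51_d01_d55_d02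

theorem g_wS_32_wQ_26_wN_1_rb803306224a_d41_d17_d51_d00_d51_d00 : GoodKC AS c_wS_32_wQ_26_wN_1_rb803306224a_d41_d17_d51_d00_d51_d00 := p_wS_32_wQ_26_wN_1_rb803306224a_d41_d17_d51_d00_d51_d00 g_wS_32_wQ_26_wN_1_rb803306224a_d41_d17_d51_d00_d51_d00_d51_d02 g_wS_32_wQ_26_wN_1_rb803306224a_d41_d17_d51_d00_d51_d00_d51_d00 g_wS_32_wQ_26_wN_1_rb803306224a_d41_d17_d51_d00_d51_d00_d51_d01

theorem g_wS_32_wQ_26_wN_1_rb803306224a_d41_d17_d51_d00_d51_d02 : GoodKC AS c_wS_32_wQ_26_wN_1_rb803306224a_d41_d17_d51_d00_d51_d02 := p_wS_32_wQ_26_wN_1_rb803306224a_d41_d17_d51_d00_d51_d02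

theorem g_wS_32_wQ_26_wN_1_rb803306224a_d41_d17_d51_d00_d51_d06 : GoodKC AS c_wS_32_wQ_26_wN_1_rb803306224a_d41_d17_d51_d00_d51_d06 := p_wS_32_wQ_26_wN_1_rb803306224a_d41_d17_d51_d00_d51_d06

theorem g_wS_32_wQ_26_wN_1_rb803306224a_d41_d17_d51_d00_d51_d07 : GoodKC AS c_wS_32_wQ_26_wN_1_rb803306224a_d41_d17_d51_d00_d51_d07 := p_wS_32_wQ_26_wN_1_rb803306224a_d41_d17_d51_d00_d51_d07

theorem g_wS_32_wQ_26_wN_1_rb803306224a_d41_d17_d51_d00_d51_d09 : GoodKC AS c_wS_32_wQ_26_wN_1_rb803306224a_d41_d17_d51_d00_d51_d09 := p_wS_32_wQ_26_wN_1_rb803306224a_d41_d17_d51_d00_d51_d09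

theorem g_wS_32_wQ_26_wN_1_rb803306224a_d41_d17_d51_d00_d51_d0a : GoodKC AS c_wS_32_wQ_26_wN_1_rb803306224a_d41_d17_d51_d00_d51_d0a := p_wS_32_wQ_26_wN_1_rb803306224a_d41_d17_d51_d00_d51_d0a

theorem g_wS_32_wQ_26_wN_1_rb803306224a_d41_d17_d51_d00_d51_d13 : GoodKC AS c_wS_32_wQ_26_wN_1_rb803306224a_d41_d17_d51_d00_d51_d13 := p_wS_32_wQ_26_wN_1_rb803306224a_d41_d17_d51_d00_d51_d13

theorem g_wS_32_wQ_26_wN_1_rb803306224a_d41_d17_d51_d00_d51_d14 : GoodKC AS c_wS_32_wQ_26_wN_1_rb803306224a_d41_d17_d51_d00_d51_d14 := p_wS_32_wQ_26_wN_1_rb803306224a_d41_d17_d51_d00_d51_d14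

theorem g_wS_32_wQ_26_wN_1_rb803306224a_d41_d17_d51_d00_d51_d15 : GoodKC AS c_wS_32_wQ_26_wN_1_rb803306224a_d41_d17_d51_d00_d51_d15 := p_wS_32_wQ_26_wN_1_rb803306224a_d41_d17_d51_d00_d51_d15

theorem g__wS_32_wQ_26_wN_1_rb803306224a_d41_d17_d51_d00_d51_d17_3 : GoodKC AS k_wS_32_wQ_26_wN_1_rb803306224a_d41_d17_d51_d00_d51_d17_3 := p_wS_32_wQ_26_wN_1_rb803306224a_d41_d17_d51_d00_d51_d17_3

theorem g__wS_32_wQ_26_wN_1_rb803306224a_d41_d17_d51_d00_d51_d17_2 : GoodKC AS k_wS_32_wQ_26_wN_1_rb803306224a_d41_d17_d51_d00_d51_d17_2 := p_wS_32_wQ_26_wN_1_rb803306224a_d41_d17_d51_d00_d51_d17_2 g__wS_32_wQ_26_wN_1_rb803306224a_d41_d17_d51_d00_d51_d17_3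

theorem g__wS_32_wQ_26_wN_1_rb803306224a_d41_d17_d51_d00_d51_d17_1 : GoodKC AS k_wS_32_wQ_26_wN_1_rb803306224a_d41_d17_d51_d00_d51_d17_1 := p_wS_32_wQ_26_wN_1_rb803306224a_d41_d17_d51_d00_d51_d17_1 g__wS_32_wQ_26_wN_1_rb803306224a_d41_d17_d51_d00_d51_d17_2

theorem g__wS_32_wQ_26_wN_1_rb803306224a_d41_d17_d51_d00_d51_d17_0 : GoodKC AS k_wS_32_wQ_26_wN_1_rb803306224a_d41_d17_d51_d00_d51_d17_0 := p_wS_32_wQ_26_wN_1_rb803306224a_d41_d17_d51_d00_d51_d17_0 g__wS_32_wQ_26_wN_1_rb803306224a_d41_d17_d51_d00_d51_d17_1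

theorem g_wS_32_wQ_26_wN_1_rb803306224a_d41_d17_d51_d00_d51_d17 : GoodKC AS c_wS_32_wQ_26_wN_1_rb803306224a_d41_d17_d51_d00_d51_d17 := p_wS_32_wQ_26_wN_1_rb803306224a_d41_d17_d51_d00_d51_d17 g__wS_32_wQ_26_wN_1_rb803306224a_d41_d17_d51_d00_d51_d17_0

theorem g__wS_32_wQ_26_wN_1_rb803306224a_d41_d17_d51_d00_d51_d1b_4 : GoodKC AS k_wS_32_wQ_26_wN_1_rb803306224a_d41_d17_d51_d00_d51_d1b_4 := p_wS_32_wQ_26_wN_1_rb803306224a_d41_d17_d51_d00_d51_d1b_4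

theorem g__wS_32_wQ_26_wN_1_rb803306224a_d41_d17_d51_d00_d51_d1b_3 : GoodKC AS k_wS_32_wQ_26_wN_1_rb803306224a_d41_d17_d51_d00_d51_d1b_3 := p_wS_32_wQ_26_wN_1_rb803306224a_d41_d17_d51_d00_d51_d1b_3 g__wS_32_wQ_26_wN_1_rb803306224a_d41_d17_d51_d00_d51_d1b_4

theorem g__wS_32_wQ_26_wN_1_rb803306224a_d41_d17_d51_d00_d51_d1b_2 : GoodKC AS k_wS_32_wQ_26_wN_1_rb803306224a_d41_d17_d51_d00_d51_d1b_2 := p_wS_32_wQ_26_wN_1_rb803306224a_d41_d17_d51_d00_d51_d1b_2 g__wS_32_wQ_26_wN_1_rb803306224a_d41_d17_d51_d00_d51_d1b_3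

theorem g__wS_32_wQ_26_wN_1_rb803306224a_d41_d17_d51_d00_d51_d1b_5 : GoodKC AS k_wS_32_wQ_26_wN_1_rb803306224a_d41_d17_d51_d00_d51_d1b_5 := p_wS_32_wQ_26_wN_1_rb803306224a_d41_d17_d51_d00_d51_d1b_5

theorem g__wS_32_wQ_26_wN_1_rb803306224a_d41_d17_d51_d00_d51_d1b_1 : GoodKC AS k_wS_32_wQ_26_wN_1_rb803306224a_d41_d17_d51_d00_d51_d1b_1 := p_wS_32_wQ_26_wN_1_rb803306224a_d41_d17_d51_d00_d51_d1b_1 g__wS_32_wQ_26_wN_1_rb803306224a_d41_d17_d51_d00_d51_d1b_2 g__wS_32_wQ_26_wN_1_rb803306224a_d41_d17_d51_d00_d51_d1b_5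

theorem g__wS_32_wQ_26_wN_1_rb803306224a_d41_d17_d51_d00_d51_d1b_0 : GoodKC AS k_wS_32_wQ_26_wN_1_rb803306224a_d41_d17_d51_d00_d51_d1b_0 := p_wS_32_wQ_26_wN_1_rb803306224a_d41_d17_d51_d00_d51_d1b_0 g__wS_32_wQ_26_wN_1_rb803306224a_d41_d17_d51_d00_d51_d1b_1

theorem g_wS_32_wQ_26_wN_1_rb803306224a_d41_d17_d51_d00_d51_d1b : GoodKC AS c_wS_32_wQ_26_wN_1_rb803306224a_d41_d17_d51_d00_d51_d1b := p_wS_32_wQ_26_wN_1_rb803306224a_d41_d17_d51_d00_d51_d1b g__wS_32_wQ_26_wN_1_rb803306224a_d41_d17_d51_d00_d51_d1b_0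

theorem g_wS_32_wQ_26_wN_1_rb803306224a_d41_d17_d51_d00_d51_d1c : GoodKC AS c_wS_32_wQ_26_wN_1_rb803306224a_d41_d17_d51_d00_d51_d1c := p_wS_32_wQ_26_wN_1_rb803306224a_d41_d17_d51_d00_d51_d1c

theorem g_wS_32_wQ_26_wN_1_rb803306224a_d41_d17_d51_d00_d51_d1d : GoodKC AS c_wS_32_wQ_26_wN_1_rb803306224a_d41_d17_d51_d00_d51_d1d := p_wS_32_wQ_26_wN_1_rb803306224a_d41_d17_d51_d00_d51_d1d

theorem g_wS_32_wQ_26_wN_1_rb803306224a_d41_d17_d51_d00_d51_d21 : GoodKC AS c_wS_32_wQ_26_wN_1_rb803306224a_d41_d17_d51_d00_d51_d21 := p_wS_32_wQ_26_wN_1_rb803306224a_d41_d17_d51_d00_d51_d21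

theorem g_wS_32_wQ_26_wN_1_rb803306224a_d41_d17_d51_d00 : GoodKC AS c_wS_32_wQ_26_wN_1_rb803306224a_d41_d17_d51_d00 := p_wS_32_wQ_26_wN_1_rb803306224a_d41_d17_d51_d00 g_wS_32_wQ_26_wN_1_rb803306224a_d41_d17_d51_d00_d51_d22 g_wS_32_wQ_26_wN_1_rb803306224a_d41_d17_d51_d00_d51_d20 g_wS_32_wQ_26_wN_1_rb803306224a_d41_d17_d51_d00_d51_d1f g_wS_32_wQ_26_wN_1_rb803306224a_d41_d17_d51_d00_d51_d1e g_wS_32_wQ_26_wN_1_rb803306224a_d41_d17_d51_d00_d51_d1a g_wS_32_wQ_26_wN_1_rb803306224a_d41_d17_d51_d00_d51_d19 g_wS_32_wQ_26_wN_1_rb803306224a_d41_d17_d51_d00_d51_d18 g_wS_32_wQ_26_wN_1_rb803306224a_d41_d17_d51_d00_d51_d16 g_wS_32_wQ_26_wN_1_rb803306224a_d41_d17_d51_d00_d51_d12 g_wS_32_wQ_26_wN_1_rb803306224a_d41_d17_d51_d00_d51_d11 g_wS_32_wQ_26_wN_1_rb803306224a_d41_d17_d51_d00_d51_d10 g_wS_32_wQ_26_wN_1_rb803306224a_d41_d17_d51_d00_d51_d0f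 g_wS_32_wQ_26_wN_1_rb803306224a_d41_d17_d51_d00_d51_d0e g_wS_32_wQ_26_wN_1_rb803306224a_d41_d17_d51_d00_d51_d0d g_wS_32_wQ_26_wN_1_rb803306224a_d41_d17_d51_d00_d51_d0c g_wS_32_wQ_26_wN_1_rb803306224a_d41_d17_d51_d00_d51_d0b g_wS_32_wQ_26_wN_1_rb803306224a_d41_d17_d51_d00_d51_d08 g_wS_32_wQ_26_wN_1_rb803306224a_d41_d17_d51_d00_d51_d05 g_wS_32_wQ_26_wN_1_rb803306224a_d41_d17_d51_d00_d51_d04 g_wS_32_wQ_26_wN_1_rb803306224a_d41_d17_d51_d00_d51_d03 g_wS_32_wQ_26_wN_1_rb803306224a_d41_d17_d51_d00_d51_d01 g_wS_32_wQ_26_wN_1_rb803306224a_d41_d17_d51_d00_d51_d00 g_wS_32_wQ_26_wN_1_rb803306224a_d41_d17_d51_d00_d51_d02 g_wS_32_wQ_26_wN_1_rb803306224a_d41_d17_d51_d00_d51_d06 g_wS_32_wQ_26_wN_1_rb803306224a_d41_d17_d51_d00_d51_d07 g_wS_32_wQ_26_wN_1_rb803306224a_d41_d17_d51_d00_d51_d09 g_wS_32_wQ_26_wN_1_rb803306224a_d41_d17_d51_d00_d51_d0a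 g_wS_32_wQ_26_wN_1_rb803306224a_d41_d17_d51_d00_d51_d13 g_wS_32_wQ_26_wN_1_rb803306224a_d41_d17_d51_d00_d51_d14 g_wS_32_wQ_26_wN_1_rb803306224a_d41_d17_d51_d00_d51_d15 g_wS_32_wQ_26_wN_1_rb803306224a_d41_d17_d51_d00_d51_d17 g_wS_32_wQ_26_wN_1_rb803306224a_d41_d17_d51_d00_d51_d1b g_wS_32_wQ_26_wN_1_rb803306224a_d41_d17_d51_d00_d51_d1c g_wS_32_wQ_26_wN_1_rb803306224a_d41_d17_d51_d00_d51_d1d g_wS_32_wQ_26_wN_1_rb803306224a_d41_d17_d51_d00_d51_d21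

theorem g_wS_32_wQ_26_wN_1_rb803306224a_d41_d17_d51_d02 : GoodKC AS c_wS_32_wQ_26_wN_1_rb803306224a_d41_d17_d51_d02 := p_wS_32_wQ_26_wN_1_rb803306224a_d41_d17_d51_d02

theorem g__wS_32_wQ_26_wN_1_rb803306224a_d41_d17_d51_d08_1 : GoodKC AS k_wS_32_wQ_26_wN_1_rb803306224a_d41_d17_d51_d08_1 := p_wS_32_wQ_26_wN_1_rb803306224a_d41_d17_d51_d08_1

theorem g__wS_32_wQ_26_wN_1_rb803306224a_d41_d17_d51_d08_2 : GoodKC AS k_wS_32_wQ_26_wN_1_rb803306224a_d41_d17_d51_d08_2 := p_wS_32_wQ_26_wN_1_rb803306224a_d41_d17_d51_d08_2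

theorem g__wS_32_wQ_26_wN_1_rb803306224a_d41_d17_d51_d08_0 : GoodKC AS k_wS_32_wQ_26_wN_1_rb803306224a_d41_d17_d51_d08_0 := p_wS_32_wQ_26_wN_1_rb803306224a_d41_d17_d51_d08_0 g__wS_32_wQ_26_wN_1_rb803306224a_d41_d17_d51_d08_1 g__wS_32_wQ_26_wN_1_rb803306224a_d41_d17_d51_d08_2

theorem g__wS_32_wQ_26_wN_1_rb803306224a_d41_d17_d51_d08_4 : GoodKC AS k_wS_32_wQ_26_wN_1_rb803306224a_d41_d17_d51_d08_4 := p_wS_32_wQ_26_wN_1_rb803306224a_d41_d17_d51_d08_4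

theorem g__wS_32_wQ_26_wN_1_rb803306224a_d41_d17_d51_d08_3 : GoodKC AS k_wS_32_wQ_26_wN_1_rb803306224a_d41_d17_d51_d08_3 := p_wS_32_wQ_26_wN_1_rb803306224a_d41_d17_d51_d08_3 g__wS_32_wQ_26_wN_1_rb803306224a_d41_d17_d51_d08_4

theorem g_wS_32_wQ_26_wN_1_rb803306224a_d41_d17_d51_d08 : GoodKC AS c_wS_32_wQ_26_wN_1_rb803306224a_d41_d17_d51_d08 := p_wS_32_wQ_26_wN_1_rb803306224a_d41_d17_d51_d08 g__wS_32_wQ_26_wN_1_rb803306224a_d41_d17_d51_d08_0 g__wS_32_wQ_26_wN_1_rb803306224a_d41_d17_d51_d08_3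

theorem g__wS_32_wQ_26_wN_1_rb803306224a_d41_d17_d51_d09_0 : GoodKC AS k_wS_32_wQ_26_wN_1_rb803306224a_d41_d17_d51_d09_0 := p_wS_32_wQ_26_wN_1_rb803306224a_d41_d17_d51_d09_0

theorem g__wS_32_wQ_26_wN_1_rb803306224a_d41_d17_d51_d09_1 : GoodKC AS k_wS_32_wQ_26_wN_1_rb803306224a_d41_d17_d51_d09_1 := p_wS_32_wQ_26_wN_1_rb803306224a_d41_d17_d51_d09_1

theorem g_wS_32_wQ_26_wN_1_rb803306224a_d41_d17_d51_d09 : GoodKC AS c_wS_32_wQ_26_wN_1_rb803306224a_d41_d17_d51_d09 := p_wS_32_wQ_26_wN_1_rb803306224a_d41_d17_d51_d09 g__wS_32_wQ_26_wN_1_rb803306224a_d41_d17_d51_d09_0 g__wS_32_wQ_26_wN_1_rb803306224a_d41_d17_d51_d09_1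

theorem g__wS_32_wQ_26_wN_1_rb803306224a_d41_d17_d51_d10_2 : GoodKC AS k_wS_32_wQ_26_wN_1_rb803306224a_d41_d17_d51_d10_2 := p_wS_32_wQ_26_wN_1_rb803306224a_d41_d17_d51_d10_2

theorem g__wS_32_wQ_26_wN_1_rb803306224a_d41_d17_d51_d10_3 : GoodKC AS k_wS_32_wQ_26_wN_1_rb803306224a_d41_d17_d51_d10_3 := p_wS_32_wQ_26_wN_1_rb803306224a_d41_d17_d51_d10_3

theorem g__wS_32_wQ_26_wN_1_rb803306224a_d41_d17_d51_d10_1 : GoodKC AS k_wS_32_wQ_26_wN_1_rb803306224a_d41_d17_d51_d10_1 := p_wS_32_wQ_26_wN_1_rb803306224a_d41_d17_d51_d10_1 g__wS_32_wQ_26_wN_1_rb803306224a_d41_d17_d51_d10_2 g__wS_32_wQ_26_wN_1_rb803306224a_d41_d17_d51_d10_3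

theorem g__wS_32_wQ_26_wN_1_rb803306224a_d41_d17_d51_d10_0 : GoodKC AS k_wS_32_wQ_26_wN_1_rb803306224a_d41_d17_d51_d10_0 := p_wS_32_wQ_26_wN_1_rb803306224a_d41_d17_d51_d10_0 g__wS_32_wQ_26_wN_1_rb803306224a_d41_d17_d51_d10_1

theorem g_wS_32_wQ_26_wN_1_rb803306224a_d41_d17_d51_d10 : GoodKC AS c_wS_32_wQ_26_wN_1_rb803306224a_d41_d17_d51_d10 := p_wS_32_wQ_26_wN_1_rb803306224a_d41_d17_d51_d10 g__wS_32_wQ_26_wN_1_rb803306224a_d41_d17_d51_d10_0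

theorem g_wS_32_wQ_26_wN_1_rb803306224a_d41_d17_d51_d11 : GoodKC AS c_wS_32_wQ_26_wN_1_rb803306224a_d41_d17_d51_d11 := p_wS_32_wQ_26_wN_1_rb803306224a_d41_d17_d51_d11

theorem g__wS_32_wQ_26_wN_1_rb803306224a_d41_d17_d51_d14_3 : GoodKC AS k_wS_32_wQ_26_wN_1_rb803306224a_d41_d17_d51_d14_3 := p_wS_32_wQ_26_wN_1_rb803306224a_d41_d17_d51_d14_3

theorem g__wS_32_wQ_26_wN_1_rb803306224a_d41_d17_d51_d14_2 : GoodKC AS k_wS_32_wQ_26_wN_1_rb803306224a_d41_d17_d51_d14_2 := p_wS_32_wQ_26_wN_1_rb803306224a_d41_d17_d51_d14_2 g__wS_32_wQ_26_wN_1_rb803306224a_d41_d17_d51_d14_3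

theorem g__wS_32_wQ_26_wN_1_rb803306224a_d41_d17_d51_d14_1 : GoodKC AS k_wS_32_wQ_26_wN_1_rb803306224a_d41_d17_d51_d14_1 := p_wS_32_wQ_26_wN_1_rb803306224a_d41_d17_d51_d14_1 g__wS_32_wQ_26_wN_1_rb803306224a_d41_d17_d51_d14_2

theorem g__wS_32_wQ_26_wN_1_rb803306224a_d41_d17_d51_d14_0 : GoodKC AS k_wS_32_wQ_26_wN_1_rb803306224a_d41_d17_d51_d14_0 := p_wS_32_wQ_26_wN_1_rb803306224a_d41_d17_d51_d14_0 g__wS_32_wQ_26_wN_1_rb803306224a_d41_d17_d51_d14_1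

theorem g_wS_32_wQ_26_wN_1_rb803306224a_d41_d17_d51_d14 : GoodKC AS c_wS_32_wQ_26_wN_1_rb803306224a_d41_d17_d51_d14 := p_wS_32_wQ_26_wN_1_rb803306224a_d41_d17_d51_d14 g__wS_32_wQ_26_wN_1_rb803306224a_d41_d17_d51_d14_0

theorem g_wS_32_wQ_26_wN_1_rb803306224a_d41_d17v2 : GoodKC AS c_wS_32_wQ_26_wN_1_rb803306224a_d41_d17v2 := p_wS_32_wQ_26_wN_1_rb803306224a_d41_d17 g_wS_32_wQ_26_wN_1_rb803306224a_d41_d17_d51_d13 g_wS_32_wQ_26_wN_1_rb803306224a_d41_d17_d51_d12 g_wS_32_wQ_26_wN_1_rb803306224a_d41_d17_d51_d0f g_wS_32_wQ_26_wN_1_rb803306224a_d41_d17_d51_d0e g_wS_32_wQ_26_wN_1_rb803306224a_d41_d17_d51_d0d g_wS_32_wQ_26_wN_1_rb803306224a_d41_d17_d51_d0c g_wS_32_wQ_26_wN_1_rb803306224a_d41_d17_d51_d0b g_wS_32_wQ_26_wN_1_rb803306224a_d41_d17_d51_d0a g_wS_32_wQ_26_wN_1_rb803306224a_d41_d17_d51_d07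 g_wS_32_wQ_26_wN_1_rb803306224a_d41_d17_d51_d06 g_wS_32_wQ_26_wN_1_rb803306224a_d41_d17_d51_d05 g_wS_32_wQ_26_wN_1_rb803306224a_d41_d17_d51_d04 g_wS_32_wQ_26_wN_1_rb803306224a_d41_d17_d51_d03 g_wS_32_wQ_26_wN_1_rb803306224a_d41_d17_d51_d01 g_wS_32_wQ_26_wN_1_rb803306224a_d41_d17_d51_d00 g_wS_32_wQ_26_wN_1_rb803306224a_d41_d17_d51_d02 g_wS_32_wQ_26_wN_1_rb803306224a_d41_d17_d51_d08 g_wS_32_wQ_26_wN_1_rb803306224a_d41_d17_d51_d09 g_wS_32_wQ_26_wN_1_rb803306224a_d41_d17_d51_d10 g_wS_32_wQ_26_wN_1_rb803306224a_d41_d17_d51_d11 g_wS_32_wQ_26_wN_1_rb803306224a_d41_d17_d51_d14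

theorem g__wS_32_wQ_26_wN_1_rb803306224av2_1 : GoodKC AS k_wS_32_wQ_26_wN_1_rb803306224av2_1 := p_wS_32_wQ_26_wN_1_rb803306224av2_1

theorem g__wS_32_wQ_26_wN_1_rb803306224av2_2 : GoodKC AS k_wS_32_wQ_26_wN_1_rb803306224av2_2 := p_wS_32_wQ_26_wN_1_rb803306224av2_2

theorem g__wS_32_wQ_26_wN_1_rb803306224av2_5 : GoodKC AS k_wS_32_wQ_26_wN_1_rb803306224av2_5 := p_wS_32_wQ_26_wN_1_rb803306224av2_5

theorem g__wS_32_wQ_26_wN_1_rb803306224av2_6 : GoodKC AS k_wS_32_wQ_26_wN_1_rb803306224av2_6 := p_wS_32_wQ_26_wN_1_rb803306224av2_6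

theorem g__wS_32_wQ_26_wN_1_rb803306224av2_7 : GoodKC AS k_wS_32_wQ_26_wN_1_rb803306224av2_7 := p_wS_32_wQ_26_wN_1_rb803306224av2_7

theorem g__wS_32_wQ_26_wN_1_rb803306224av2_4 : GoodKC AS k_wS_32_wQ_26_wN_1_rb803306224av2_4 := p_wS_32_wQ_26_wN_1_rb803306224av2_4 g__wS_32_wQ_26_wN_1_rb803306224av2_5 g__wS_32_wQ_26_wN_1_rb803306224av2_6 g__wS_32_wQ_26_wN_1_rb803306224av2_7

theorem g__wS_32_wQ_26_wN_1_rb803306224av2_3 : GoodKC AS k_wS_32_wQ_26_wN_1_rb803306224av2_3 := p_wS_32_wQ_26_wN_1_rb803306224av2_3 g__wS_32_wQ_26_wN_1_rb803306224av2_4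

theorem g__wS_32_wQ_26_wN_1_rb803306224av2_0 : GoodKC AS k_wS_32_wQ_26_wN_1_rb803306224av2_0 := p_wS_32_wQ_26_wN_1_rb803306224av2_0 g__wS_32_wQ_26_wN_1_rb803306224av2_1 g__wS_32_wQ_26_wN_1_rb803306224av2_2 g__wS_32_wQ_26_wN_1_rb803306224av2_3

theorem g_wS_32_wQ_26_wN_1_rb803306224a_d41_d14v2 : GoodKC AS c_wS_32_wQ_26_wN_1_rb803306224a_d41_d14v2 := p_wS_32_wQ_26_wN_1_rb803306224a_d41_d14

theorem g_wS_32_wQ_26_wN_1_rb803306224a_d41_d13v2 : GoodKC AS c_wS_32_wQ_26_wN_1_rb803306224a_d41_d13v2 := p_wS_32_wQ_26_wN_1_rb803306224a_d41_d13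

theorem g_wS_32_wQ_26_wN_1_rb803306224a_d41_d12v2 : GoodKC AS c_wS_32_wQ_26_wN_1_rb803306224a_d41_d12v2 := p_wS_32_wQ_26_wN_1_rb803306224a_d41_d12

theorem g_wS_32_wQ_26_wN_1_rb803306224a_d41_d11v2 : GoodKC AS c_wS_32_wQ_26_wN_1_rb803306224a_d41_d11v2 := p_wS_32_wQ_26_wN_1_rb803306224a_d41_d11

theorem g_wS_32_wQ_26_wN_1_rb803306224a_d41_d10v2 : GoodKC AS c_wS_32_wQ_26_wN_1_rb803306224a_d41_d10v2 := p_wS_32_wQ_26_wN_1_rb803306224a_d41_d10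

theorem g_wS_32_wQ_26_wN_1_rb803306224a_d41_d0fv2 : GoodKC AS c_wS_32_wQ_26_wN_1_rb803306224a_d41_d0fv2 := p_wS_32_wQ_26_wN_1_rb803306224a_d41_d0f

theorem g_wS_32_wQ_26_wN_1_rb803306224a_d41_d0ev2 : GoodKC AS c_wS_32_wQ_26_wN_1_rb803306224a_d41_d0ev2 := p_wS_32_wQ_26_wN_1_rb803306224a_d41_d0e

theorem g_wS_32_wQ_26_wN_1_rb803306224a_d41_d08v2 : GoodKC AS c_wS_32_wQ_26_wN_1_rb803306224a_d41_d08v2 := p_wS_32_wQ_26_wN_1_rb803306224a_d41_d08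

theorem g_wS_32_wQ_26_wN_1_rb803306224a_d41_d07v2 : GoodKC AS c_wS_32_wQ_26_wN_1_rb803306224a_d41_d07v2 := p_wS_32_wQ_26_wN_1_rb803306224a_d41_d07

theorem g_wS_32_wQ_26_wN_1_rb803306224a_d41_d04v2 : GoodKC AS c_wS_32_wQ_26_wN_1_rb803306224a_d41_d04v2 := p_wS_32_wQ_26_wN_1_rb803306224a_d41_d04

theorem g__wS_32_wQ_26_wN_1_rb803306224av2_10 : GoodKC AS k_wS_32_wQ_26_wN_1_rb803306224av2_10 := p_wS_32_wQ_26_wN_1_rb803306224av2_10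

theorem g__wS_32_wQ_26_wN_1_rb803306224av2_14 : GoodKC AS k_wS_32_wQ_26_wN_1_rb803306224av2_14 := p_wS_32_wQ_26_wN_1_rb803306224av2_14

theorem g__wS_32_wQ_26_wN_1_rb803306224av2_13 : GoodKC AS k_wS_32_wQ_26_wN_1_rb803306224av2_13 := p_wS_32_wQ_26_wN_1_rb803306224av2_13 g__wS_32_wQ_26_wN_1_rb803306224av2_14

theorem g__wS_32_wQ_26_wN_1_rb803306224av2_12 : GoodKC AS k_wS_32_wQ_26_wN_1_rb803306224av2_12 := p_wS_32_wQ_26_wN_1_rb803306224av2_12 g__wS_32_wQ_26_wN_1_rb803306224av2_13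

theorem g__wS_32_wQ_26_wN_1_rb803306224av2_11 : GoodKC AS k_wS_32_wQ_26_wN_1_rb803306224av2_11 := p_wS_32_wQ_26_wN_1_rb803306224av2_11 g__wS_32_wQ_26_wN_1_rb803306224av2_12

theorem g__wS_32_wQ_26_wN_1_rb803306224av2_9 : GoodKC AS k_wS_32_wQ_26_wN_1_rb803306224av2_9 := p_wS_32_wQ_26_wN_1_rb803306224av2_9 g__wS_32_wQ_26_wN_1_rb803306224av2_10 g__wS_32_wQ_26_wN_1_rb803306224av2_11

theorem g__wS_32_wQ_26_wN_1_rb803306224av2_8 : GoodKC AS k_wS_32_wQ_26_wN_1_rb803306224av2_8 := p_wS_32_wQ_26_wN_1_rb803306224av2_8 g__wS_32_wQ_26_wN_1_rb803306224av2_9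

theorem g_wS_32_wQ_26_wN_1_rb803306224a_d41_d03v2 : GoodKC AS c_wS_32_wQ_26_wN_1_rb803306224a_d41_d03v2 := p_wS_32_wQ_26_wN_1_rb803306224a_d41_d03

theorem g_wS_32_wQ_26_wN_1_rb803306224a_d41_d01v2 : GoodKC AS c_wS_32_wQ_26_wN_1_rb803306224a_d41_d01v2 := p_wS_32_wQ_26_wN_1_rb803306224a_d41_d01

theorem g_wS_32_wQ_26_wN_1_rb803306224a_d41_d00v2 : GoodKC AS c_wS_32_wQ_26_wN_1_rb803306224a_d41_d00v2 := p_wS_32_wQ_26_wN_1_rb803306224a_d41_d00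

theorem g__wS_32_wQ_26_wN_1_rb803306224av2_15 : GoodKC AS k_wS_32_wQ_26_wN_1_rb803306224av2_15 := p_wS_32_wQ_26_wN_1_rb803306224av2_15

theorem g_wS_32_wQ_26_wN_1_rb803306224a_d41_d02v2 : GoodKC AS c_wS_32_wQ_26_wN_1_rb803306224a_d41_d02v2 := p_wS_32_wQ_26_wN_1_rb803306224a_d41_d02

theorem g_wS_32_wQ_26_wN_1_rb803306224a_d41_d05v2 : GoodKC AS c_wS_32_wQ_26_wN_1_rb803306224a_d41_d05v2 := p_wS_32_wQ_26_wN_1_rb803306224a_d41_d05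

theorem g_wS_32_wQ_26_wN_1_rb803306224a_d41_d06v2 : GoodKC AS c_wS_32_wQ_26_wN_1_rb803306224a_d41_d06v2 := p_wS_32_wQ_26_wN_1_rb803306224a_d41_d06

theorem g_wS_32_wQ_26_wN_1_rb803306224a_d41_d09v2 : GoodKC AS c_wS_32_wQ_26_wN_1_rb803306224a_d41_d09v2 := p_wS_32_wQ_26_wN_1_rb803306224a_d41_d09

theorem g_wS_32_wQ_26_wN_1_rb803306224a_d41_d0av2 : GoodKC AS c_wS_32_wQ_26_wN_1_rb803306224a_d41_d0av2 := p_wS_32_wQ_26_wN_1_rb803306224a_d41_d0a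

theorem g_wS_32_wQ_26_wN_1_rb803306224a_d41_d0bv2 : GoodKC AS c_wS_32_wQ_26_wN_1_rb803306224a_d41_d0bv2 := p_wS_32_wQ_26_wN_1_rb803306224a_d41_d0b

theorem g_wS_32_wQ_26_wN_1_rb803306224a_d41_d0cv2 : GoodKC AS c_wS_32_wQ_26_wN_1_rb803306224a_d41_d0cv2 := p_wS_32_wQ_26_wN_1_rb803306224a_d41_d0c

theorem g_wS_32_wQ_26_wN_1_rb803306224a_d41_d0dv2 : GoodKC AS c_wS_32_wQ_26_wN_1_rb803306224a_d41_d0dv2 := p_wS_32_wQ_26_wN_1_rb803306224a_d41_d0d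

theorem g_wS_32_wQ_26_wN_1_rb803306224a_d41_d15v2 : GoodKC AS c_wS_32_wQ_26_wN_1_rb803306224a_d41_d15v2 := p_wS_32_wQ_26_wN_1_rb803306224a_d41_d15

theorem g_wS_32_wQ_26_wN_1_rb803306224a_d41_d16v2 : GoodKC AS c_wS_32_wQ_26_wN_1_rb803306224a_d41_d16v2 := p_wS_32_wQ_26_wN_1_rb803306224a_d41_d16

theorem g_wS_32_wQ_26_wN_1_rb803306224ax13 : GoodKC AS c_wS_32_wQ_26_wN_1_rb803306224ax13 := p_wS_32_wQ_26_wN_1_rb803306224av2 g_wS_32_wQ_26_wN_1_rb803306224a_d41_d18v2 g_wS_32_wQ_26_wN_1_rb803306224a_d41_d17v2 g__wS_32_wQ_26_wN_1_rb803306224av2_0 g_wS_32_wQ_26_wN_1_rb803306224a_d41_d14v2 g_wS_32_wQ_26_wN_1_rb803306224a_d41_d13v2 g_wS_32_wQ_26_wN_1_rb803306224a_d41_d12v2 g_wS_32_wQ_26_wN_1_rb803306224a_d41_d11v2 g_wS_32_wQ_26_wN_1_rb803306224a_d41_d10v2 g_wS_32_wQ_26_wN_1_rb803306224a_d41_d0fv2 g_wS_32_wQ_26_wN_1_rb803306224a_d41_d0ev2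 g_wS_32_wQ_26_wN_1_rb803306224a_d41_d08v2 g_wS_32_wQ_26_wN_1_rb803306224a_d41_d07v2 g_wS_32_wQ_26_wN_1_rb803306224a_d41_d04v2 g__wS_32_wQ_26_wN_1_rb803306224av2_8 g_wS_32_wQ_26_wN_1_rb803306224a_d41_d03v2 g_wS_32_wQ_26_wN_1_rb803306224a_d41_d01v2 g_wS_32_wQ_26_wN_1_rb803306224a_d41_d00v2 g__wS_32_wQ_26_wN_1_rb803306224av2_15 g_wS_32_wQ_26_wN_1_rb803306224a_d41_d02v2 g_wS_32_wQ_26_wN_1_rb803306224a_d41_d05v2 g_wS_32_wQ_26_wN_1_rb803306224a_d41_d06v2 g_wS_32_wQ_26_wN_1_rb803306224a_d41_d09v2 g_wS_32_wQ_26_wN_1_rb803306224a_d41_d0av2 g_wS_32_wQ_26_wN_1_rb803306224a_d41_d0bv2 g_wS_32_wQ_26_wN_1_rb803306224a_d41_d0cv2 g_wS_32_wQ_26_wN_1_rb803306224a_d41_d0dv2 g_wS_32_wQ_26_wN_1_rb803306224a_d41_d15v2 g_wS_32_wQ_26_wN_1_rb803306224a_d41_d16v2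

theorem g__wS_32_wQ_26_wN_1_rb803306224c_1 : GoodKC AS k_wS_32_wQ_26_wN_1_rb803306224c_1 := p_wS_32_wQ_26_wN_1_rb803306224c_1

theorem g__wS_32_wQ_26_wN_1_rb803306224c_2 : GoodKC AS k_wS_32_wQ_26_wN_1_rb803306224c_2 := p_wS_32_wQ_26_wN_1_rb803306224c_2

theorem g__wS_32_wQ_26_wN_1_rb803306224c_0 : GoodKC AS k_wS_32_wQ_26_wN_1_rb803306224c_0 := p_wS_32_wQ_26_wN_1_rb803306224c_0 g__wS_32_wQ_26_wN_1_rb803306224c_1 g__wS_32_wQ_26_wN_1_rb803306224c_2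

theorem g__wS_32_wQ_26_wN_1_rb803306224c_3 : GoodKC AS k_wS_32_wQ_26_wN_1_rb803306224c_3 := p_wS_32_wQ_26_wN_1_rb803306224c_3

theorem g_wS_32_wQ_26_wN_1_rb803306224cx13 : GoodKC AS c_wS_32_wQ_26_wN_1_rb803306224cx13 := p_wS_32_wQ_26_wN_1_rb803306224c g__wS_32_wQ_26_wN_1_rb803306224c_0 g__wS_32_wQ_26_wN_1_rb803306224c_3

theorem g_wS_32_wQ_26_wN_1_rb803306224dx13 : GoodKC AS c_wS_32_wQ_26_wN_1_rb803306224dx13 := p_wS_32_wQ_26_wN_1_rb803306224d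

theorem g__wS_32_wQ_26_wN_1_rb8033062251v1_1 : GoodKC AS k_wS_32_wQ_26_wN_1_rb8033062251v1_1 := p_wS_32_wQ_26_wN_1_rb8033062251v1_1

theorem g__wS_32_wQ_26_wN_1_rb8033062251v1_2 : GoodKC AS k_wS_32_wQ_26_wN_1_rb8033062251v1_2 := p_wS_32_wQ_26_wN_1_rb8033062251v1_2

theorem g__wS_32_wQ_26_wN_1_rb8033062251v1_0 : GoodKC AS k_wS_32_wQ_26_wN_1_rb8033062251v1_0 := p_wS_32_wQ_26_wN_1_rb8033062251v1_0 g__wS_32_wQ_26_wN_1_rb8033062251v1_1 g__wS_32_wQ_26_wN_1_rb8033062251v1_2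

theorem g__wS_32_wQ_26_wN_1_rb8033062251v1_3 : GoodKC AS k_wS_32_wQ_26_wN_1_rb8033062251v1_3 := p_wS_32_wQ_26_wN_1_rb8033062251v1_3

theorem g__wS_32_wQ_26_wN_1_rb8033062251v1_5 : GoodKC AS k_wS_32_wQ_26_wN_1_rb8033062251v1_5 := p_wS_32_wQ_26_wN_1_rb8033062251v1_5

theorem g__wS_32_wQ_26_wN_1_rb8033062251v1_8 : GoodKC AS k_wS_32_wQ_26_wN_1_rb8033062251v1_8 := p_wS_32_wQ_26_wN_1_rb8033062251v1_8

theorem g__wS_32_wQ_26_wN_1_rb8033062251v1_7 : GoodKC AS k_wS_32_wQ_26_wN_1_rb8033062251v1_7 := p_wS_32_wQ_26_wN_1_rb8033062251v1_7 g__wS_32_wQ_26_wN_1_rb8033062251v1_8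

theorem g__wS_32_wQ_26_wN_1_rb8033062251v1_6 : GoodKC AS k_wS_32_wQ_26_wN_1_rb8033062251v1_6 := p_wS_32_wQ_26_wN_1_rb8033062251v1_6 g__wS_32_wQ_26_wN_1_rb8033062251v1_7

theorem g__wS_32_wQ_26_wN_1_rb8033062251v1_10 : GoodKC AS k_wS_32_wQ_26_wN_1_rb8033062251v1_10 := p_wS_32_wQ_26_wN_1_rb8033062251v1_10

theorem g__wS_32_wQ_26_wN_1_rb8033062251v1_14 : GoodKC AS k_wS_32_wQ_26_wN_1_rb8033062251v1_14 := p_wS_32_wQ_26_wN_1_rb8033062251v1_14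

theorem g__wS_32_wQ_26_wN_1_rb8033062251v1_13 : GoodKC AS k_wS_32_wQ_26_wN_1_rb8033062251v1_13 := p_wS_32_wQ_26_wN_1_rb8033062251v1_13 g__wS_32_wQ_26_wN_1_rb8033062251v1_14

theorem g__wS_32_wQ_26_wN_1_rb8033062251v1_12 : GoodKC AS k_wS_32_wQ_26_wN_1_rb8033062251v1_12 := p_wS_32_wQ_26_wN_1_rb8033062251v1_12 g__wS_32_wQ_26_wN_1_rb8033062251v1_13

theorem g__wS_32_wQ_26_wN_1_rb8033062251v1_17 : GoodKC AS k_wS_32_wQ_26_wN_1_rb8033062251v1_17 := p_wS_32_wQ_26_wN_1_rb8033062251v1_17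

theorem g__wS_32_wQ_26_wN_1_rb8033062251v1_16 : GoodKC AS k_wS_32_wQ_26_wN_1_rb8033062251v1_16 := p_wS_32_wQ_26_wN_1_rb8033062251v1_16 g__wS_32_wQ_26_wN_1_rb8033062251v1_17

theorem g__wS_32_wQ_26_wN_1_rb8033062251v1_15 : GoodKC AS k_wS_32_wQ_26_wN_1_rb8033062251v1_15 := p_wS_32_wQ_26_wN_1_rb8033062251v1_15 g__wS_32_wQ_26_wN_1_rb8033062251v1_16

theorem g__wS_32_wQ_26_wN_1_rb8033062251v1_11 : GoodKC AS k_wS_32_wQ_26_wN_1_rb8033062251v1_11 := p_wS_32_wQ_26_wN_1_rb8033062251v1_11 g__wS_32_wQ_26_wN_1_rb8033062251v1_12 g__wS_32_wQ_26_wN_1_rb8033062251v1_15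

theorem g__wS_32_wQ_26_wN_1_rb8033062251v1_9 : GoodKC AS k_wS_32_wQ_26_wN_1_rb8033062251v1_9 := p_wS_32_wQ_26_wN_1_rb8033062251v1_9 g__wS_32_wQ_26_wN_1_rb8033062251v1_10 g__wS_32_wQ_26_wN_1_rb8033062251v1_11

theorem g__wS_32_wQ_26_wN_1_rb8033062251v1_4 : GoodKC AS k_wS_32_wQ_26_wN_1_rb8033062251v1_4 := p_wS_32_wQ_26_wN_1_rb8033062251v1_4 g__wS_32_wQ_26_wN_1_rb8033062251v1_5 g__wS_32_wQ_26_wN_1_rb8033062251v1_6 g__wS_32_wQ_26_wN_1_rb8033062251v1_9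

theorem g_wS_32_wQ_26_wN_1_rb8033062251x13 : GoodKC AS c_wS_32_wQ_26_wN_1_rb8033062251x13 := p_wS_32_wQ_26_wN_1_rb8033062251v1 g__wS_32_wQ_26_wN_1_rb8033062251v1_0 g__wS_32_wQ_26_wN_1_rb8033062251v1_3 g__wS_32_wQ_26_wN_1_rb8033062251v1_4

theorem g_wS_32_wQ_26_wN_1_rb8033062253x13 : GoodKC AS c_wS_32_wQ_26_wN_1_rb8033062253x13 := p_wS_32_wQ_26_wN_1_rb8033062253

theorem g_wS_32_wQ_26_wN_1_rb8033062255x13 : GoodKC AS c_wS_32_wQ_26_wN_1_rb8033062255x13 := p_wS_32_wQ_26_wN_1_rb8033062255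

theorem g_wS_32_wQ_26_wN_1_rb8033062257x13 : GoodKC AS c_wS_32_wQ_26_wN_1_rb8033062257x13 := p_wS_32_wQ_26_wN_1_rb8033062257

theorem g__wS_32_wQ_26_wN_1_rb8033062258_1 : GoodKC AS k_wS_32_wQ_26_wN_1_rb8033062258_1 := p_wS_32_wQ_26_wN_1_rb8033062258_1

theorem g__wS_32_wQ_26_wN_1_rb8033062258_0 : GoodKC AS k_wS_32_wQ_26_wN_1_rb8033062258_0 := p_wS_32_wQ_26_wN_1_rb8033062258_0 g__wS_32_wQ_26_wN_1_rb8033062258_1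

theorem g_wS_32_wQ_26_wN_1_rb8033062258x13 : GoodKC AS c_wS_32_wQ_26_wN_1_rb8033062258x13 := p_wS_32_wQ_26_wN_1_rb8033062258 g__wS_32_wQ_26_wN_1_rb8033062258_0

theorem g_wS_32_wQ_26_wN_1_rb80330622x17 : GoodKC AS c_wS_32_wQ_26_wN_1_rb80330622x17 := p_wS_32_wQ_26_wN_1_rb80330622x13 g_wS_32_wQ_26_wN_1_rb8033062259x13 g_wS_32_wQ_26_wN_1_rb8033062256x13 g_wS_32_wQ_26_wN_1_rb8033062254x13 g_wS_32_wQ_26_wN_1_rb8033062252x13 g_wS_32_wQ_26_wN_1_rb8033062250x13 g_wS_32_wQ_26_wN_1_rb803306224fx13 g_wS_32_wQ_26_wN_1_rb803306224ex13 g_wS_32_wQ_26_wN_1_rb803306224bx13 g_wS_32_wQ_26_wN_1_rb8033062249x13 g__wS_32_wQ_26_wN_1_rb80330622x13_0 g__wS_32_wQ_26_wN_1_rb80330622x13_14 g_wS_32_wQ_26_wN_1_rb8033062247x13 g_wS_32_wQ_26_wN_1_rb8033062248x13 g_wS_32_wQ_26_wN_1_rb803306224ax13 g_wS_32_wQ_26_wN_1_rb803306224cx13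 g_wS_32_wQ_26_wN_1_rb803306224dx13 g_wS_32_wQ_26_wN_1_rb8033062251x13 g_wS_32_wQ_26_wN_1_rb8033062253x13 g_wS_32_wQ_26_wN_1_rb8033062255x13 g_wS_32_wQ_26_wN_1_rb8033062257x13 g_wS_32_wQ_26_wN_1_rb8033062258x13

theorem g_wQ_26_wN_1_rb803306x2 : GoodKC AS c_wQ_26_wN_1_rb803306x2 := p_wQ_26_wN_1_rb803306x17 g_wS_32_wQ_26_wN_1_rb80330621x17 g_wS_32_wQ_26_wN_1_rb8033061fx17 g_wS_32_wQ_26_wN_1_rb8033061ex17 g_wS_32_wQ_26_wN_1_rb8033061dx17 g_wS_32_wQ_26_wN_1_rb8033061ax17 g_wS_32_wQ_26_wN_1_rb80330619x17 g_wS_32_wQ_26_wN_1_rb80330615x17 g_wS_32_wQ_26_wN_1_rb8033060fx17 g__wQ_26_wN_1_rb803306x17_0 g_wS_32_wQ_26_wN_1_rb8033060bx17 g_wS_32_wQ_26_wN_1_rb8033060cx17 g_wS_32_wQ_26_wN_1_rb8033060dx17 g_wS_32_wQ_26_wN_1_rb8033060ex17 g_wS_32_wQ_26_wN_1_rb80330610x17 g_wS_32_wQ_26_wN_1_rb80330611x17 g_wS_32_wQ_26_wN_1_rb80330612x17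 g_wS_32_wQ_26_wN_1_rb80330613x17 g_wS_32_wQ_26_wN_1_rb80330614x17 g_wS_32_wQ_26_wN_1_rb80330616x17 g_wS_32_wQ_26_wN_1_rb80330617x17 g_wS_32_wQ_26_wN_1_rb80330618x17 g_wS_32_wQ_26_wN_1_rb8033061bx17 g_wS_32_wQ_26_wN_1_rb8033061cx17 g_wS_32_wQ_26_wN_1_rb80330620x17 g_wS_32_wQ_26_wN_1_rb80330622x17

theorem g_wQ_26_wN_1_rb803307060241x3 : GoodKC AS c_wQ_26_wN_1_rb803307060241x3 := p_wQ_26_wN_1_rb803307060241x3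

theorem g__wQ_26_wN_1_rb80330706023ex2_0 : GoodKC AS k_wQ_26_wN_1_rb80330706023ex2_0 := p_wQ_26_wN_1_rb80330706023ex2_0

theorem g__wQ_26_wN_1_rb80330706023ex2_6 : GoodKC AS k_wQ_26_wN_1_rb80330706023ex2_6 := p_wQ_26_wN_1_rb80330706023ex2_6

theorem g__wQ_26_wN_1_rb80330706023ex2_5 : GoodKC AS k_wQ_26_wN_1_rb80330706023ex2_5 := p_wQ_26_wN_1_rb80330706023ex2_5 g__wQ_26_wN_1_rb80330706023ex2_6

theorem g__wQ_26_wN_1_rb80330706023ex2_4 : GoodKC AS k_wQ_26_wN_1_rb80330706023ex2_4 := p_wQ_26_wN_1_rb80330706023ex2_4 g__wQ_26_wN_1_rb80330706023ex2_5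

theorem g__wQ_26_wN_1_rb80330706023ex2_7 : GoodKC AS k_wQ_26_wN_1_rb80330706023ex2_7 := p_wQ_26_wN_1_rb80330706023ex2_7

theorem g__wQ_26_wN_1_rb80330706023ex2_3 : GoodKC AS k_wQ_26_wN_1_rb80330706023ex2_3 := p_wQ_26_wN_1_rb80330706023ex2_3 g__wQ_26_wN_1_rb80330706023ex2_4 g__wQ_26_wN_1_rb80330706023ex2_7

theorem g__wQ_26_wN_1_rb80330706023ex2_2 : GoodKC AS k_wQ_26_wN_1_rb80330706023ex2_2 := p_wQ_26_wN_1_rb80330706023ex2_2 g__wQ_26_wN_1_rb80330706023ex2_3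

theorem g__wQ_26_wN_1_rb80330706023ex2_1 : GoodKC AS k_wQ_26_wN_1_rb80330706023ex2_1 := p_wQ_26_wN_1_rb80330706023ex2_1 g__wQ_26_wN_1_rb80330706023ex2_2

theorem g_wQ_26_wN_1_rb80330706023ex3 : GoodKC AS c_wQ_26_wN_1_rb80330706023ex3 := p_wQ_26_wN_1_rb80330706023ex2 g__wQ_26_wN_1_rb80330706023ex2_0 g__wQ_26_wN_1_rb80330706023ex2_1

theorem g__wQ_26_wN_1_rb80330706023dx3_0 : GoodKC AS k_wQ_26_wN_1_rb80330706023dx3_0 := p_wQ_26_wN_1_rb80330706023dx3_0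

theorem g_wQ_26_wN_1_rb80330706023dx3 : GoodKC AS c_wQ_26_wN_1_rb80330706023dx3 := p_wQ_26_wN_1_rb80330706023dx3 g__wQ_26_wN_1_rb80330706023dx3_0

theorem g_wQ_26_wN_1_rb80330706023cx3 : GoodKC AS c_wQ_26_wN_1_rb80330706023cx3 := p_wQ_26_wN_1_rb80330706023cx3

theorem g__wQ_26_wN_1_rb80330706023bx2_0 : GoodKC AS k_wQ_26_wN_1_rb80330706023bx2_0 := p_wQ_26_wN_1_rb80330706023bx2_0

theorem g_wQ_26_wN_1_rb80330706023bx3 : GoodKC AS c_wQ_26_wN_1_rb80330706023bx3 := p_wQ_26_wN_1_rb80330706023bx2 g__wQ_26_wN_1_rb80330706023bx2_0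

theorem g__wQ_26_wN_1_rb80330706023ax2_0 : GoodKC AS k_wQ_26_wN_1_rb80330706023ax2_0 := p_wQ_26_wN_1_rb80330706023ax2_0

theorem g__wQ_26_wN_1_rb80330706023ax2_2 : GoodKC AS k_wQ_26_wN_1_rb80330706023ax2_2 := p_wQ_26_wN_1_rb80330706023ax2_2

theorem g__wQ_26_wN_1_rb80330706023ax2_1 : GoodKC AS k_wQ_26_wN_1_rb80330706023ax2_1 := p_wQ_26_wN_1_rb80330706023ax2_1 g__wQ_26_wN_1_rb80330706023ax2_2

theorem g_wQ_26_wN_1_rb80330706023ax3 : GoodKC AS c_wQ_26_wN_1_rb80330706023ax3 := p_wQ_26_wN_1_rb80330706023ax2 g__wQ_26_wN_1_rb80330706023ax2_0 g__wQ_26_wN_1_rb80330706023ax2_1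

theorem g_wQ_26_wN_1_rb803307060239x3 : GoodKC AS c_wQ_26_wN_1_rb803307060239x3 := p_wQ_26_wN_1_rb803307060239x3

theorem g_wQ_26_wN_1_rb803307060237x3 : GoodKC AS c_wQ_26_wN_1_rb803307060237x3 := p_wQ_26_wN_1_rb803307060237x3

theorem g_wQ_26_wN_1_rb803307060236x3 : GoodKC AS c_wQ_26_wN_1_rb803307060236x3 := p_wQ_26_wN_1_rb803307060236x3

theorem g__wQ_26_wN_1_rb803307060234x3_0 : GoodKC AS k_wQ_26_wN_1_rb803307060234x3_0 := p_wQ_26_wN_1_rb803307060234x3_0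

theorem g_wQ_26_wN_1_rb803307060234x3 : GoodKC AS c_wQ_26_wN_1_rb803307060234x3 := p_wQ_26_wN_1_rb803307060234x3 g__wQ_26_wN_1_rb803307060234x3_0

theorem g_wQ_26_wN_1_rb803307060233x3 : GoodKC AS c_wQ_26_wN_1_rb803307060233x3 := p_wQ_26_wN_1_rb803307060233x3

theorem g__wQ_26_wN_1_rb803307060232x2_3 : GoodKC AS k_wQ_26_wN_1_rb803307060232x2_3 := p_wQ_26_wN_1_rb803307060232x2_3

theorem g__wQ_26_wN_1_rb803307060232x2_2 : GoodKC AS k_wQ_26_wN_1_rb803307060232x2_2 := p_wQ_26_wN_1_rb803307060232x2_2 g__wQ_26_wN_1_rb803307060232x2_3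

theorem g__wQ_26_wN_1_rb803307060232x2_1 : GoodKC AS k_wQ_26_wN_1_rb803307060232x2_1 := p_wQ_26_wN_1_rb803307060232x2_1 g__wQ_26_wN_1_rb803307060232x2_2

theorem g__wQ_26_wN_1_rb803307060232x2_0 : GoodKC AS k_wQ_26_wN_1_rb803307060232x2_0 := p_wQ_26_wN_1_rb803307060232x2_0 g__wQ_26_wN_1_rb803307060232x2_1

theorem g_wQ_26_wN_1_rb803307060232x3 : GoodKC AS c_wQ_26_wN_1_rb803307060232x3 := p_wQ_26_wN_1_rb803307060232x2 g__wQ_26_wN_1_rb803307060232x2_0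

theorem g_wQ_26_wN_1_rb803307060231x3 : GoodKC AS c_wQ_26_wN_1_rb803307060231x3 := p_wQ_26_wN_1_rb803307060231x3

theorem g_wQ_26_wN_1_rb803307060230x3 : GoodKC AS c_wQ_26_wN_1_rb803307060230x3 := p_wQ_26_wN_1_rb803307060230x3

theorem g_wQ_26_wN_1_rb80330706022fx3 : GoodKC AS c_wQ_26_wN_1_rb80330706022fx3 := p_wQ_26_wN_1_rb80330706022fx3

theorem g_wQ_26_wN_1_rb80330706022ex3 : GoodKC AS c_wQ_26_wN_1_rb80330706022ex3 := p_wQ_26_wN_1_rb80330706022ex3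

theorem g_wQ_26_wN_1_rb80330706022dx3 : GoodKC AS c_wQ_26_wN_1_rb80330706022dx3 := p_wQ_26_wN_1_rb80330706022dx3

theorem g__wQ_26_wN_1_rb80330706022cx2_0 : GoodKC AS k_wQ_26_wN_1_rb80330706022cx2_0 := p_wQ_26_wN_1_rb80330706022cx2_0

theorem g_wQ_26_wN_1_rb80330706022cx3 : GoodKC AS c_wQ_26_wN_1_rb80330706022cx3 := p_wQ_26_wN_1_rb80330706022cx2 g__wQ_26_wN_1_rb80330706022cx2_0

theorem g_wQ_26_wN_1_rb80330706022ax3 : GoodKC AS c_wQ_26_wN_1_rb80330706022ax3 := p_wQ_26_wN_1_rb80330706022ax3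

theorem g_wQ_26_wN_1_rb803307060229x3 : GoodKC AS c_wQ_26_wN_1_rb803307060229x3 := p_wQ_26_wN_1_rb803307060229x3

theorem g_wQ_26_wN_1_rb803307060228x3 : GoodKC AS c_wQ_26_wN_1_rb803307060228x3 := p_wQ_26_wN_1_rb803307060228x3

theorem g__wQ_26_wN_1_rb803307060226x2_4 : GoodKC AS k_wQ_26_wN_1_rb803307060226x2_4 := p_wQ_26_wN_1_rb803307060226x2_4

theorem g__wQ_26_wN_1_rb803307060226x2_6 : GoodKC AS k_wQ_26_wN_1_rb803307060226x2_6 := p_wQ_26_wN_1_rb803307060226x2_6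

theorem g__wQ_26_wN_1_rb803307060226x2_5 : GoodKC AS k_wQ_26_wN_1_rb803307060226x2_5 := p_wQ_26_wN_1_rb803307060226x2_5 g__wQ_26_wN_1_rb803307060226x2_6

theorem g__wQ_26_wN_1_rb803307060226x2_3 : GoodKC AS k_wQ_26_wN_1_rb803307060226x2_3 := p_wQ_26_wN_1_rb803307060226x2_3 g__wQ_26_wN_1_rb803307060226x2_4 g__wQ_26_wN_1_rb803307060226x2_5

theorem g__wQ_26_wN_1_rb803307060226x2_2 : GoodKC AS k_wQ_26_wN_1_rb803307060226x2_2 := p_wQ_26_wN_1_rb803307060226x2_2 g__wQ_26_wN_1_rb803307060226x2_3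

theorem g__wQ_26_wN_1_rb803307060226x2_1 : GoodKC AS k_wQ_26_wN_1_rb803307060226x2_1 := p_wQ_26_wN_1_rb803307060226x2_1 g__wQ_26_wN_1_rb803307060226x2_2

theorem g__wQ_26_wN_1_rb803307060226x2_0 : GoodKC AS k_wQ_26_wN_1_rb803307060226x2_0 := p_wQ_26_wN_1_rb803307060226x2_0 g__wQ_26_wN_1_rb803307060226x2_1

theorem g_wQ_26_wN_1_rb803307060226x3 : GoodKC AS c_wQ_26_wN_1_rb803307060226x3 := p_wQ_26_wN_1_rb803307060226x2 g__wQ_26_wN_1_rb803307060226x2_0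

theorem g_wQ_26_wN_1_rb803307060224x3 : GoodKC AS c_wQ_26_wN_1_rb803307060224x3 := p_wQ_26_wN_1_rb803307060224x3

theorem g_wQ_26_wN_1_rb803307060223x3 : GoodKC AS c_wQ_26_wN_1_rb803307060223x3 := p_wQ_26_wN_1_rb803307060223x3

theorem g_wQ_26_wN_1_rb803307060222x3 : GoodKC AS c_wQ_26_wN_1_rb803307060222x3 := p_wQ_26_wN_1_rb803307060222x3

theorem g_wQ_26_wN_1_rb803307060221x3 : GoodKC AS c_wQ_26_wN_1_rb803307060221x3 := p_wQ_26_wN_1_rb803307060221x3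

theorem g_wQ_26_wN_1_rb80330706021fx3 : GoodKC AS c_wQ_26_wN_1_rb80330706021fx3 := p_wQ_26_wN_1_rb80330706021fx3

theorem g_wQ_26_wN_1_rb80330706021ex3 : GoodKC AS c_wQ_26_wN_1_rb80330706021ex3 := p_wQ_26_wN_1_rb80330706021ex3

theorem g_wQ_26_wN_1_rb80330706021bx3 : GoodKC AS c_wQ_26_wN_1_rb80330706021bx3 := p_wQ_26_wN_1_rb80330706021bx3

theorem g_wQ_26_wN_1_rb803307060216x3 : GoodKC AS c_wQ_26_wN_1_rb803307060216x3 := p_wQ_26_wN_1_rb803307060216x3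

theorem g_wQ_26_wN_1_rb803307060215x3 : GoodKC AS c_wQ_26_wN_1_rb803307060215x3 := p_wQ_26_wN_1_rb803307060215x3

theorem g_wQ_26_wN_1_rb803307060213x3 : GoodKC AS c_wQ_26_wN_1_rb803307060213x3 := p_wQ_26_wN_1_rb803307060213x3

theorem g_wQ_26_wN_1_rb803307060212x3 : GoodKC AS c_wQ_26_wN_1_rb803307060212x3 := p_wQ_26_wN_1_rb803307060212x3

theorem g_wQ_26_wN_1_rb803307060211x3 : GoodKC AS c_wQ_26_wN_1_rb803307060211x3 := p_wQ_26_wN_1_rb803307060211x3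

theorem g_wQ_26_wN_1_rb803307060210x3 : GoodKC AS c_wQ_26_wN_1_rb803307060210x3 := p_wQ_26_wN_1_rb803307060210x3

theorem g_wQ_26_wN_1_rb80330706020fx3 : GoodKC AS c_wQ_26_wN_1_rb80330706020fx3 := p_wQ_26_wN_1_rb80330706020fx3

theorem g_wQ_26_wN_1_rb80330706020cx3 : GoodKC AS c_wQ_26_wN_1_rb80330706020cx3 := p_wQ_26_wN_1_rb80330706020cx3

theorem g_wQ_26_wN_1_rb803307060209x3 : GoodKC AS c_wQ_26_wN_1_rb803307060209x3 := p_wQ_26_wN_1_rb803307060209x3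

theorem g_wQ_26_wN_1_rb803307060208x3 : GoodKC AS c_wQ_26_wN_1_rb803307060208x3 := p_wQ_26_wN_1_rb803307060208x3

theorem g_wQ_26_wN_1_rb803307060206x3 : GoodKC AS c_wQ_26_wN_1_rb803307060206x3 := p_wQ_26_wN_1_rb803307060206x3

theorem g_wQ_26_wN_1_rb803307060205x3 : GoodKC AS c_wQ_26_wN_1_rb803307060205x3 := p_wQ_26_wN_1_rb803307060205x3

theorem g_wQ_26_wN_1_rb803307060203x3 : GoodKC AS c_wQ_26_wN_1_rb803307060203x3 := p_wQ_26_wN_1_rb803307060203x3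

theorem g_wQ_26_wN_1_rb803307060202x3 : GoodKC AS c_wQ_26_wN_1_rb803307060202x3 := p_wQ_26_wN_1_rb803307060202x3

theorem g_wQ_26_wN_1_rb803307060200x3 : GoodKC AS c_wQ_26_wN_1_rb803307060200x3 := p_wQ_26_wN_1_rb803307060200x2

theorem g_wQ_26_wN_1_rb803307060201x3 : GoodKC AS c_wQ_26_wN_1_rb803307060201x3 := p_wQ_26_wN_1_rb803307060201x3

theorem g_wQ_26_wN_1_rb803307060204x3 : GoodKC AS c_wQ_26_wN_1_rb803307060204x3 := p_wQ_26_wN_1_rb803307060204x3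

theorem g_wQ_26_wN_1_rb803307060207x3 : GoodKC AS c_wQ_26_wN_1_rb803307060207x3 := p_wQ_26_wN_1_rb803307060207x3

theorem g_wQ_26_wN_1_rb80330706020ax3 : GoodKC AS c_wQ_26_wN_1_rb80330706020ax3 := p_wQ_26_wN_1_rb80330706020ax3

theorem g_wQ_26_wN_1_rb80330706020bx3 : GoodKC AS c_wQ_26_wN_1_rb80330706020bx3 := p_wQ_26_wN_1_rb80330706020bx3

theorem g_wQ_26_wN_1_rb80330706020dx3 : GoodKC AS c_wQ_26_wN_1_rb80330706020dx3 := p_wQ_26_wN_1_rb80330706020dx3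

theorem g_wQ_26_wN_1_rb80330706020ex3 : GoodKC AS c_wQ_26_wN_1_rb80330706020ex3 := p_wQ_26_wN_1_rb80330706020ex3

theorem g_wQ_26_wN_1_rb803307060214x3 : GoodKC AS c_wQ_26_wN_1_rb803307060214x3 := p_wQ_26_wN_1_rb803307060214x3

theorem g_wQ_26_wN_1_rb803307060217x3 : GoodKC AS c_wQ_26_wN_1_rb803307060217x3 := p_wQ_26_wN_1_rb803307060217x3

theorem g_wQ_26_wN_1_rb803307060218x3 : GoodKC AS c_wQ_26_wN_1_rb803307060218x3 := p_wQ_26_wN_1_rb803307060218x3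

theorem g_wQ_26_wN_1_rb803307060219x3 : GoodKC AS c_wQ_26_wN_1_rb803307060219x3 := p_wQ_26_wN_1_rb803307060219x3

theorem g_wQ_26_wN_1_rb80330706021ax3 : GoodKC AS c_wQ_26_wN_1_rb80330706021ax3 := p_wQ_26_wN_1_rb80330706021ax3

theorem g_wQ_26_wN_1_rb80330706021cx3 : GoodKC AS c_wQ_26_wN_1_rb80330706021cx3 := p_wQ_26_wN_1_rb80330706021cx3

theorem g_wQ_26_wN_1_rb80330706021dx3 : GoodKC AS c_wQ_26_wN_1_rb80330706021dx3 := p_wQ_26_wN_1_rb80330706021dx3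

theorem g_wQ_26_wN_1_rb803307060220x3 : GoodKC AS c_wQ_26_wN_1_rb803307060220x3 := p_wQ_26_wN_1_rb803307060220x3

theorem g_wQ_26_wN_1_rb803307060225x3 : GoodKC AS c_wQ_26_wN_1_rb803307060225x3 := p_wQ_26_wN_1_rb803307060225x3

theorem g_wQ_26_wN_1_rb803307060227x3 : GoodKC AS c_wQ_26_wN_1_rb803307060227x3 := p_wQ_26_wN_1_rb803307060227x3

theorem g_wQ_26_wN_1_rb80330706022bx3 : GoodKC AS c_wQ_26_wN_1_rb80330706022bx3 := p_wQ_26_wN_1_rb80330706022bx3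

theorem g_wQ_26_wN_1_rb803307060235x3 : GoodKC AS c_wQ_26_wN_1_rb803307060235x3 := p_wQ_26_wN_1_rb803307060235x3

theorem g_wQ_26_wN_1_rb803307060238x3 : GoodKC AS c_wQ_26_wN_1_rb803307060238x3 := p_wQ_26_wN_1_rb803307060238x3

theorem g__wQ_26_wN_1_rb80330706023fx2_0 : GoodKC AS k_wQ_26_wN_1_rb80330706023fx2_0 := p_wQ_26_wN_1_rb80330706023fx2_0

theorem g__wQ_26_wN_1_rb80330706023fx2_1 : GoodKC AS k_wQ_26_wN_1_rb80330706023fx2_1 := p_wQ_26_wN_1_rb80330706023fx2_1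

theorem g__wQ_26_wN_1_rb80330706023fx2_4 : GoodKC AS k_wQ_26_wN_1_rb80330706023fx2_4 := p_wQ_26_wN_1_rb80330706023fx2_4

theorem g__wQ_26_wN_1_rb80330706023fx2_3 : GoodKC AS k_wQ_26_wN_1_rb80330706023fx2_3 := p_wQ_26_wN_1_rb80330706023fx2_3 g__wQ_26_wN_1_rb80330706023fx2_4

theorem g__wQ_26_wN_1_rb80330706023fx2_5 : GoodKC AS k_wQ_26_wN_1_rb80330706023fx2_5 := p_wQ_26_wN_1_rb80330706023fx2_5

theorem g__wQ_26_wN_1_rb80330706023fx2_2 : GoodKC AS k_wQ_26_wN_1_rb80330706023fx2_2 := p_wQ_26_wN_1_rb80330706023fx2_2 g__wQ_26_wN_1_rb80330706023fx2_3 g__wQ_26_wN_1_rb80330706023fx2_5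

theorem g__wQ_26_wN_1_rb80330706023fx2_6 : GoodKC AS k_wQ_26_wN_1_rb80330706023fx2_6 := p_wQ_26_wN_1_rb80330706023fx2_6

theorem g_wQ_26_wN_1_rb80330706023fx3 : GoodKC AS c_wQ_26_wN_1_rb80330706023fx3 := p_wQ_26_wN_1_rb80330706023fx2 g__wQ_26_wN_1_rb80330706023fx2_0 g__wQ_26_wN_1_rb80330706023fx2_1 g__wQ_26_wN_1_rb80330706023fx2_2 g__wQ_26_wN_1_rb80330706023fx2_6

theorem g_wQ_26_wN_1_rb803307060240x3 : GoodKC AS c_wQ_26_wN_1_rb803307060240x3 := p_wQ_26_wN_1_rb803307060240x3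

theorem g_wQ_26_wN_1_rb8033070602x5 : GoodKC AS c_wQ_26_wN_1_rb8033070602x5 := p_wQ_26_wN_1_rb8033070602x3 g_wQ_26_wN_1_rb803307060241x3 g_wQ_26_wN_1_rb80330706023ex3 g_wQ_26_wN_1_rb80330706023dx3 g_wQ_26_wN_1_rb80330706023cx3 g_wQ_26_wN_1_rb80330706023bx3 g_wQ_26_wN_1_rb80330706023ax3 g_wQ_26_wN_1_rb803307060239x3 g_wQ_26_wN_1_rb803307060237x3 g_wQ_26_wN_1_rb803307060236x3 g_wQ_26_wN_1_rb803307060234x3 g_wQ_26_wN_1_rb803307060233x3 g_wQ_26_wN_1_rb803307060232x3 g_wQ_26_wN_1_rb803307060231x3 g_wQ_26_wN_1_rb803307060230x3 g_wQ_26_wN_1_rb80330706022fx3 g_wQ_26_wN_1_rb80330706022ex3 g_wQ_26_wN_1_rb80330706022dx3 g_wQ_26_wN_1_rb80330706022cx3 g_wQ_26_wN_1_rb80330706022ax3 g_wQ_26_wN_1_rb803307060229x3 g_wQ_26_wN_1_rb803307060228x3 g_wQ_26_wN_1_rb803307060226x3 g_wQ_26_wN_1_rb803307060224x3 g_wQ_26_wN_1_rb803307060223x3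 g_wQ_26_wN_1_rb803307060222x3 g_wQ_26_wN_1_rb803307060221x3 g_wQ_26_wN_1_rb80330706021fx3 g_wQ_26_wN_1_rb80330706021ex3 g_wQ_26_wN_1_rb80330706021bx3 g_wQ_26_wN_1_rb803307060216x3 g_wQ_26_wN_1_rb803307060215x3 g_wQ_26_wN_1_rb803307060213x3 g_wQ_26_wN_1_rb803307060212x3 g_wQ_26_wN_1_rb803307060211x3 g_wQ_26_wN_1_rb803307060210x3 g_wQ_26_wN_1_rb80330706020fx3 g_wQ_26_wN_1_rb80330706020cx3 g_wQ_26_wN_1_rb803307060209x3 g_wQ_26_wN_1_rb803307060208x3 g_wQ_26_wN_1_rb803307060206x3 g_wQ_26_wN_1_rb803307060205x3 g_wQ_26_wN_1_rb803307060203x3 g_wQ_26_wN_1_rb803307060202x3 g_wQ_26_wN_1_rb803307060200x3 g_wQ_26_wN_1_rb803307060201x3 g_wQ_26_wN_1_rb803307060204x3 g_wQ_26_wN_1_rb803307060207x3 g_wQ_26_wN_1_rb80330706020ax3 g_wQ_26_wN_1_rb80330706020bx3 g_wQ_26_wN_1_rb80330706020dx3 g_wQ_26_wN_1_rb80330706020ex3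 g_wQ_26_wN_1_rb803307060214x3 g_wQ_26_wN_1_rb803307060217x3 g_wQ_26_wN_1_rb803307060218x3 g_wQ_26_wN_1_rb803307060219x3 g_wQ_26_wN_1_rb80330706021ax3 g_wQ_26_wN_1_rb80330706021cx3 g_wQ_26_wN_1_rb80330706021dx3 g_wQ_26_wN_1_rb803307060220x3 g_wQ_26_wN_1_rb803307060225x3 g_wQ_26_wN_1_rb803307060227x3 g_wQ_26_wN_1_rb80330706022bx3 g_wQ_26_wN_1_rb803307060235x3 g_wQ_26_wN_1_rb803307060238x3 g_wQ_26_wN_1_rb80330706023fx3 g_wQ_26_wN_1_rb803307060240x3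

theorem g__wQ_26_wN_1_rb8033070601x4_2 : GoodKC AS k_wQ_26_wN_1_rb8033070601x4_2 := p_wQ_26_wN_1_rb8033070601x4_2

theorem g__wQ_26_wN_1_rb8033070601x4_3 : GoodKC AS k_wQ_26_wN_1_rb8033070601x4_3 := p_wQ_26_wN_1_rb8033070601x4_3

theorem g__wQ_26_wN_1_rb8033070601x4_1 : GoodKC AS k_wQ_26_wN_1_rb8033070601x4_1 := p_wQ_26_wN_1_rb8033070601x4_1 g__wQ_26_wN_1_rb8033070601x4_2 g__wQ_26_wN_1_rb8033070601x4_3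

theorem g__wQ_26_wN_1_rb8033070601x4_6 : GoodKC AS k_wQ_26_wN_1_rb8033070601x4_6 := p_wQ_26_wN_1_rb8033070601x4_6

theorem g__wQ_26_wN_1_rb8033070601x4_7 : GoodKC AS k_wQ_26_wN_1_rb8033070601x4_7 := p_wQ_26_wN_1_rb8033070601x4_7

theorem g__wQ_26_wN_1_rb8033070601x4_5 : GoodKC AS k_wQ_26_wN_1_rb8033070601x4_5 := p_wQ_26_wN_1_rb8033070601x4_5 g__wQ_26_wN_1_rb8033070601x4_6 g__wQ_26_wN_1_rb8033070601x4_7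

theorem g__wQ_26_wN_1_rb8033070601x4_4 : GoodKC AS k_wQ_26_wN_1_rb8033070601x4_4 := p_wQ_26_wN_1_rb8033070601x4_4 g__wQ_26_wN_1_rb8033070601x4_5

theorem g__wQ_26_wN_1_rb8033070601x4_0 : GoodKC AS k_wQ_26_wN_1_rb8033070601x4_0 := p_wQ_26_wN_1_rb8033070601x4_0 g__wQ_26_wN_1_rb8033070601x4_1 g__wQ_26_wN_1_rb8033070601x4_4

theorem g__wQ_26_wN_1_rb8033070601x4_8 : GoodKC AS k_wQ_26_wN_1_rb8033070601x4_8 := p_wQ_26_wN_1_rb8033070601x4_8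

theorem g_wQ_26_wN_1_rb8033070601x5 : GoodKC AS c_wQ_26_wN_1_rb8033070601x5 := p_wQ_26_wN_1_rb8033070601x4 g__wQ_26_wN_1_rb8033070601x4_0 g__wQ_26_wN_1_rb8033070601x4_8

theorem g__wQ_26_wN_1_rb8033070600v3_0 : GoodKC AS k_wQ_26_wN_1_rb8033070600v3_0 := p_wQ_26_wN_1_rb8033070600v3_0

theorem g__wQ_26_wN_1_rb8033070600v3_2 : GoodKC AS k_wQ_26_wN_1_rb8033070600v3_2 := p_wQ_26_wN_1_rb8033070600v3_2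

theorem g__wQ_26_wN_1_rb8033070600v3_4 : GoodKC AS k_wQ_26_wN_1_rb8033070600v3_4 := p_wQ_26_wN_1_rb8033070600v3_4

theorem g__wQ_26_wN_1_rb8033070600v3_3 : GoodKC AS k_wQ_26_wN_1_rb8033070600v3_3 := p_wQ_26_wN_1_rb8033070600v3_3 g__wQ_26_wN_1_rb8033070600v3_4

theorem g__wQ_26_wN_1_rb8033070600v3_9 : GoodKC AS k_wQ_26_wN_1_rb8033070600v3_9 := p_wQ_26_wN_1_rb8033070600v3_9

theorem g__wQ_26_wN_1_rb8033070600v3_8 : GoodKC AS k_wQ_26_wN_1_rb8033070600v3_8 := p_wQ_26_wN_1_rb8033070600v3_8 g__wQ_26_wN_1_rb8033070600v3_9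

theorem g__wQ_26_wN_1_rb8033070600v3_7 : GoodKC AS k_wQ_26_wN_1_rb8033070600v3_7 := p_wQ_26_wN_1_rb8033070600v3_7 g__wQ_26_wN_1_rb8033070600v3_8

theorem g__wQ_26_wN_1_rb8033070600v3_6 : GoodKC AS k_wQ_26_wN_1_rb8033070600v3_6 := p_wQ_26_wN_1_rb8033070600v3_6 g__wQ_26_wN_1_rb8033070600v3_7

theorem g__wQ_26_wN_1_rb8033070600v3_10 : GoodKC AS k_wQ_26_wN_1_rb8033070600v3_10 := p_wQ_26_wN_1_rb8033070600v3_10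

theorem g__wQ_26_wN_1_rb8033070600v3_11 : GoodKC AS k_wQ_26_wN_1_rb8033070600v3_11 := p_wQ_26_wN_1_rb8033070600v3_11

theorem g__wQ_26_wN_1_rb8033070600v3_5 : GoodKC AS k_wQ_26_wN_1_rb8033070600v3_5 := p_wQ_26_wN_1_rb8033070600v3_5 g__wQ_26_wN_1_rb8033070600v3_6 g__wQ_26_wN_1_rb8033070600v3_10 g__wQ_26_wN_1_rb8033070600v3_11

theorem g__wQ_26_wN_1_rb8033070600v3_14 : GoodKC AS k_wQ_26_wN_1_rb8033070600v3_14 := p_wQ_26_wN_1_rb8033070600v3_14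

theorem g__wQ_26_wN_1_rb8033070600v3_17 : GoodKC AS k_wQ_26_wN_1_rb8033070600v3_17 := p_wQ_26_wN_1_rb8033070600v3_17

theorem g__wQ_26_wN_1_rb8033070600v3_16 : GoodKC AS k_wQ_26_wN_1_rb8033070600v3_16 := p_wQ_26_wN_1_rb8033070600v3_16 g__wQ_26_wN_1_rb8033070600v3_17

theorem g__wQ_26_wN_1_rb8033070600v3_15 : GoodKC AS k_wQ_26_wN_1_rb8033070600v3_15 := p_wQ_26_wN_1_rb8033070600v3_15 g__wQ_26_wN_1_rb8033070600v3_16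

theorem g__wQ_26_wN_1_rb8033070600v3_13 : GoodKC AS k_wQ_26_wN_1_rb8033070600v3_13 := p_wQ_26_wN_1_rb8033070600v3_13 g__wQ_26_wN_1_rb8033070600v3_14 g__wQ_26_wN_1_rb8033070600v3_15

theorem g__wQ_26_wN_1_rb8033070600v3_12 : GoodKC AS k_wQ_26_wN_1_rb8033070600v3_12 := p_wQ_26_wN_1_rb8033070600v3_12 g__wQ_26_wN_1_rb8033070600v3_13

theorem g__wQ_26_wN_1_rb8033070600v3_18 : GoodKC AS k_wQ_26_wN_1_rb8033070600v3_18 := p_wQ_26_wN_1_rb8033070600v3_18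

theorem g__wQ_26_wN_1_rb8033070600v3_20 : GoodKC AS k_wQ_26_wN_1_rb8033070600v3_20 := p_wQ_26_wN_1_rb8033070600v3_20

theorem g__wQ_26_wN_1_rb8033070600v3_26 : GoodKC AS k_wQ_26_wN_1_rb8033070600v3_26 := p_wQ_26_wN_1_rb8033070600v3_26

theorem g__wQ_26_wN_1_rb8033070600v3_25 : GoodKC AS k_wQ_26_wN_1_rb8033070600v3_25 := p_wQ_26_wN_1_rb8033070600v3_25 g__wQ_26_wN_1_rb8033070600v3_26

theorem g__wQ_26_wN_1_rb8033070600v3_27 : GoodKC AS k_wQ_26_wN_1_rb8033070600v3_27 := p_wQ_26_wN_1_rb8033070600v3_27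

theorem g__wQ_26_wN_1_rb8033070600v3_33 : GoodKC AS k_wQ_26_wN_1_rb8033070600v3_33 := p_wQ_26_wN_1_rb8033070600v3_33

theorem g__wQ_26_wN_1_rb8033070600v3_34 : GoodKC AS k_wQ_26_wN_1_rb8033070600v3_34 := p_wQ_26_wN_1_rb8033070600v3_34

theorem g__wQ_26_wN_1_rb8033070600v3_32 : GoodKC AS k_wQ_26_wN_1_rb8033070600v3_32 := p_wQ_26_wN_1_rb8033070600v3_32 g__wQ_26_wN_1_rb8033070600v3_33 g__wQ_26_wN_1_rb8033070600v3_34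

theorem g__wQ_26_wN_1_rb8033070600v3_31 : GoodKC AS k_wQ_26_wN_1_rb8033070600v3_31 := p_wQ_26_wN_1_rb8033070600v3_31 g__wQ_26_wN_1_rb8033070600v3_32

theorem g__wQ_26_wN_1_rb8033070600v3_30 : GoodKC AS k_wQ_26_wN_1_rb8033070600v3_30 := p_wQ_26_wN_1_rb8033070600v3_30 g__wQ_26_wN_1_rb8033070600v3_31

theorem g__wQ_26_wN_1_rb8033070600v3_29 : GoodKC AS k_wQ_26_wN_1_rb8033070600v3_29 := p_wQ_26_wN_1_rb8033070600v3_29 g__wQ_26_wN_1_rb8033070600v3_30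

theorem g__wQ_26_wN_1_rb8033070600v3_28 : GoodKC AS k_wQ_26_wN_1_rb8033070600v3_28 := p_wQ_26_wN_1_rb8033070600v3_28 g__wQ_26_wN_1_rb8033070600v3_29

theorem g__wQ_26_wN_1_rb8033070600v3_24 : GoodKC AS k_wQ_26_wN_1_rb8033070600v3_24 := p_wQ_26_wN_1_rb8033070600v3_24 g__wQ_26_wN_1_rb8033070600v3_25 g__wQ_26_wN_1_rb8033070600v3_27 g__wQ_26_wN_1_rb8033070600v3_28

theorem g__wQ_26_wN_1_rb8033070600v3_23 : GoodKC AS k_wQ_26_wN_1_rb8033070600v3_23 := p_wQ_26_wN_1_rb8033070600v3_23 g__wQ_26_wN_1_rb8033070600v3_24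

theorem g__wQ_26_wN_1_rb8033070600v3_35 : GoodKC AS k_wQ_26_wN_1_rb8033070600v3_35 := p_wQ_26_wN_1_rb8033070600v3_35

theorem g__wQ_26_wN_1_rb8033070600v3_22 : GoodKC AS k_wQ_26_wN_1_rb8033070600v3_22 := p_wQ_26_wN_1_rb8033070600v3_22 g__wQ_26_wN_1_rb8033070600v3_23 g__wQ_26_wN_1_rb8033070600v3_35

theorem g__wQ_26_wN_1_rb8033070600v3_21 : GoodKC AS k_wQ_26_wN_1_rb8033070600v3_21 := p_wQ_26_wN_1_rb8033070600v3_21 g__wQ_26_wN_1_rb8033070600v3_22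

theorem g__wQ_26_wN_1_rb8033070600v3_36 : GoodKC AS k_wQ_26_wN_1_rb8033070600v3_36 := p_wQ_26_wN_1_rb8033070600v3_36

theorem g__wQ_26_wN_1_rb8033070600v3_19 : GoodKC AS k_wQ_26_wN_1_rb8033070600v3_19 := p_wQ_26_wN_1_rb8033070600v3_19 g__wQ_26_wN_1_rb8033070600v3_20 g__wQ_26_wN_1_rb8033070600v3_21 g__wQ_26_wN_1_rb8033070600v3_36

theorem g__wQ_26_wN_1_rb8033070600v3_1 : GoodKC AS k_wQ_26_wN_1_rb8033070600v3_1 := p_wQ_26_wN_1_rb8033070600v3_1 g__wQ_26_wN_1_rb8033070600v3_2 g__wQ_26_wN_1_rb8033070600v3_3 g__wQ_26_wN_1_rb8033070600v3_5 g__wQ_26_wN_1_rb8033070600v3_12 g__wQ_26_wN_1_rb8033070600v3_18 g__wQ_26_wN_1_rb8033070600v3_19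

theorem g__wQ_26_wN_1_rb8033070600v3_37 : GoodKC AS k_wQ_26_wN_1_rb8033070600v3_37 := p_wQ_26_wN_1_rb8033070600v3_37

theorem g__wQ_26_wN_1_rb80330706000019x1_0 : GoodKC AS k_wQ_26_wN_1_rb80330706000019x1_0 := p_wQ_26_wN_1_rb80330706000019x1_0

theorem g__wQ_26_wN_1_rb80330706000019x1_1 : GoodKC AS k_wQ_26_wN_1_rb80330706000019x1_1 := p_wQ_26_wN_1_rb80330706000019x1_1

theorem g_wQ_26_wN_1_rb80330706000019x1 : GoodKC AS c_wQ_26_wN_1_rb80330706000019x1 := p_wQ_26_wN_1_rb80330706000019x1 g__wQ_26_wN_1_rb80330706000019x1_0 g__wQ_26_wN_1_rb80330706000019x1_1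

theorem g_wQ_26_wN_1_rb80330706000018x1 : GoodKC AS c_wQ_26_wN_1_rb80330706000018x1 := p_wQ_26_wN_1_rb80330706000018x1

theorem g_wQ_26_wN_1_rb80330706000017x1 : GoodKC AS c_wQ_26_wN_1_rb80330706000017x1 := p_wQ_26_wN_1_rb80330706000017x1

theorem g_wQ_26_wN_1_rb80330706000016x1 : GoodKC AS c_wQ_26_wN_1_rb80330706000016x1 := p_wQ_26_wN_1_rb80330706000016x1

theorem g_wQ_26_wN_1_rb80330706000015x1 : GoodKC AS c_wQ_26_wN_1_rb80330706000015x1 := p_wQ_26_wN_1_rb80330706000015x1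

theorem g_wQ_26_wN_1_rb80330706000014x1 : GoodKC AS c_wQ_26_wN_1_rb80330706000014x1 := p_wQ_26_wN_1_rb80330706000014x1

theorem g_wQ_26_wN_1_rb80330706000013x1 : GoodKC AS c_wQ_26_wN_1_rb80330706000013x1 := p_wQ_26_wN_1_rb80330706000013x1

theorem g_wQ_26_wN_1_rb80330706000012x1 : GoodKC AS c_wQ_26_wN_1_rb80330706000012x1 := p_wQ_26_wN_1_rb80330706000012x1

theorem g__wQ_26_wN_1_rb80330706000011x1_0 : GoodKC AS k_wQ_26_wN_1_rb80330706000011x1_0 := p_wQ_26_wN_1_rb80330706000011x1_0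

theorem g_wQ_26_wN_1_rb80330706000011x1 : GoodKC AS c_wQ_26_wN_1_rb80330706000011x1 := p_wQ_26_wN_1_rb80330706000011x1 g__wQ_26_wN_1_rb80330706000011x1_0

theorem g_wQ_26_wN_1_rb8033070600000fx1 : GoodKC AS c_wQ_26_wN_1_rb8033070600000fx1 := p_wQ_26_wN_1_rb8033070600000fx1

theorem g_wQ_26_wN_1_rb8033070600000bx1 : GoodKC AS c_wQ_26_wN_1_rb8033070600000bx1 := p_wQ_26_wN_1_rb8033070600000bx1

theorem g_wQ_26_wN_1_rb80330706000009x1 : GoodKC AS c_wQ_26_wN_1_rb80330706000009x1 := p_wQ_26_wN_1_rb80330706000009x1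

theorem g_wQ_26_wN_1_rb80330706000007x1 : GoodKC AS c_wQ_26_wN_1_rb80330706000007x1 := p_wQ_26_wN_1_rb80330706000007x1

theorem g_wQ_26_wN_1_rb80330706000006x1 : GoodKC AS c_wQ_26_wN_1_rb80330706000006x1 := p_wQ_26_wN_1_rb80330706000006x1

theorem g_wQ_26_wN_1_rb80330706000004x1 : GoodKC AS c_wQ_26_wN_1_rb80330706000004x1 := p_wQ_26_wN_1_rb80330706000004x1

theorem g_wQ_26_wN_1_rb80330706000001x1 : GoodKC AS c_wQ_26_wN_1_rb80330706000001x1 := p_wQ_26_wN_1_rb80330706000001x1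

theorem g_wQ_26_wN_1_rb80330706000000x1 : GoodKC AS c_wQ_26_wN_1_rb80330706000000x1 := p_wQ_26_wN_1_rb80330706000000x1

theorem g_wQ_26_wN_1_rb80330706000002x1 : GoodKC AS c_wQ_26_wN_1_rb80330706000002x1 := p_wQ_26_wN_1_rb80330706000002x1

theorem g_wQ_26_wN_1_rb80330706000003x1 : GoodKC AS c_wQ_26_wN_1_rb80330706000003x1 := p_wQ_26_wN_1_rb80330706000003x1

theorem g_wQ_26_wN_1_rb80330706000005x1 : GoodKC AS c_wQ_26_wN_1_rb80330706000005x1 := p_wQ_26_wN_1_rb80330706000005x1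

theorem g__wQ_26_wN_1_rb803307060000v1_1 : GoodKC AS k_wQ_26_wN_1_rb803307060000v1_1 := p_wQ_26_wN_1_rb803307060000v1_1

theorem g__wQ_26_wN_1_rb803307060000v1_3 : GoodKC AS k_wQ_26_wN_1_rb803307060000v1_3 := p_wQ_26_wN_1_rb803307060000v1_3

theorem g__wQ_26_wN_1_rb803307060000v1_2 : GoodKC AS k_wQ_26_wN_1_rb803307060000v1_2 := p_wQ_26_wN_1_rb803307060000v1_2 g__wQ_26_wN_1_rb803307060000v1_3

theorem g_wQ_26_wN_1_rb80330706000008x1 : GoodKC AS c_wQ_26_wN_1_rb80330706000008x1 := p_wQ_26_wN_1_rb80330706000008x1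

theorem g__wQ_26_wN_1_rb8033070600000ax1_2 : GoodKC AS k_wQ_26_wN_1_rb8033070600000ax1_2 := p_wQ_26_wN_1_rb8033070600000ax1_2

theorem g__wQ_26_wN_1_rb8033070600000ax1_1 : GoodKC AS k_wQ_26_wN_1_rb8033070600000ax1_1 := p_wQ_26_wN_1_rb8033070600000ax1_1 g__wQ_26_wN_1_rb8033070600000ax1_2

theorem g__wQ_26_wN_1_rb8033070600000ax1_0 : GoodKC AS k_wQ_26_wN_1_rb8033070600000ax1_0 := p_wQ_26_wN_1_rb8033070600000ax1_0 g__wQ_26_wN_1_rb8033070600000ax1_1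

theorem g_wQ_26_wN_1_rb8033070600000ax1 : GoodKC AS c_wQ_26_wN_1_rb8033070600000ax1 := p_wQ_26_wN_1_rb8033070600000ax1 g__wQ_26_wN_1_rb8033070600000ax1_0

theorem g_wQ_26_wN_1_rb8033070600000cx1 : GoodKC AS c_wQ_26_wN_1_rb8033070600000cx1 := p_wQ_26_wN_1_rb8033070600000cx1

theorem g_wQ_26_wN_1_rb8033070600000dx1 : GoodKC AS c_wQ_26_wN_1_rb8033070600000dx1 := p_wQ_26_wN_1_rb8033070600000dx1

theorem g_wQ_26_wN_1_rb8033070600000ex1 : GoodKC AS c_wQ_26_wN_1_rb8033070600000ex1 := p_wQ_26_wN_1_rb8033070600000ex1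

theorem g_wQ_26_wN_1_rb80330706000010x1 : GoodKC AS c_wQ_26_wN_1_rb80330706000010x1 := p_wQ_26_wN_1_rb80330706000010x1

theorem g__wQ_26_wN_1_rb803307060000v1_0 : GoodKC AS k_wQ_26_wN_1_rb803307060000v1_0 := p_wQ_26_wN_1_rb803307060000v1_0 g_wQ_26_wN_1_rb80330706000011x1 g_wQ_26_wN_1_rb8033070600000fx1 g_wQ_26_wN_1_rb8033070600000bx1 g_wQ_26_wN_1_rb80330706000009x1 g_wQ_26_wN_1_rb80330706000007x1 g_wQ_26_wN_1_rb80330706000006x1 g_wQ_26_wN_1_rb80330706000004x1 g_wQ_26_wN_1_rb80330706000001x1 g_wQ_26_wN_1_rb80330706000000x1 g_wQ_26_wN_1_rb80330706000002x1 g_wQ_26_wN_1_rb80330706000003x1 g_wQ_26_wN_1_rb80330706000005x1 g__wQ_26_wN_1_rb803307060000v1_1 g__wQ_26_wN_1_rb803307060000v1_2 g_wQ_26_wN_1_rb80330706000008x1 g_wQ_26_wN_1_rb8033070600000ax1 g_wQ_26_wN_1_rb8033070600000cx1 g_wQ_26_wN_1_rb8033070600000dx1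 g_wQ_26_wN_1_rb8033070600000ex1 g_wQ_26_wN_1_rb80330706000010x1

theorem g__wQ_26_wN_1_rb803307060000v1_5 : GoodKC AS k_wQ_26_wN_1_rb803307060000v1_5 := p_wQ_26_wN_1_rb803307060000v1_5

theorem g__wQ_26_wN_1_rb803307060000v1_6 : GoodKC AS k_wQ_26_wN_1_rb803307060000v1_6 := p_wQ_26_wN_1_rb803307060000v1_6

theorem g__wQ_26_wN_1_rb803307060000v1_14 : GoodKC AS k_wQ_26_wN_1_rb803307060000v1_14 := p_wQ_26_wN_1_rb803307060000v1_14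

theorem g__wQ_26_wN_1_rb803307060000v1_13 : GoodKC AS k_wQ_26_wN_1_rb803307060000v1_13 := p_wQ_26_wN_1_rb803307060000v1_13 g__wQ_26_wN_1_rb803307060000v1_14

theorem g__wQ_26_wN_1_rb803307060000v1_12 : GoodKC AS k_wQ_26_wN_1_rb803307060000v1_12 := p_wQ_26_wN_1_rb803307060000v1_12 g__wQ_26_wN_1_rb803307060000v1_13

theorem g__wQ_26_wN_1_rb803307060000v1_11 : GoodKC AS k_wQ_26_wN_1_rb803307060000v1_11 := p_wQ_26_wN_1_rb803307060000v1_11 g__wQ_26_wN_1_rb803307060000v1_12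

theorem g__wQ_26_wN_1_rb803307060000v1_15 : GoodKC AS k_wQ_26_wN_1_rb803307060000v1_15 := p_wQ_26_wN_1_rb803307060000v1_15

theorem g__wQ_26_wN_1_rb803307060000v1_18 : GoodKC AS k_wQ_26_wN_1_rb803307060000v1_18 := p_wQ_26_wN_1_rb803307060000v1_18

theorem g__wQ_26_wN_1_rb803307060000v1_17 : GoodKC AS k_wQ_26_wN_1_rb803307060000v1_17 := p_wQ_26_wN_1_rb803307060000v1_17 g__wQ_26_wN_1_rb803307060000v1_18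

theorem g__wQ_26_wN_1_rb803307060000v1_16 : GoodKC AS k_wQ_26_wN_1_rb803307060000v1_16 := p_wQ_26_wN_1_rb803307060000v1_16 g__wQ_26_wN_1_rb803307060000v1_17

theorem g__wQ_26_wN_1_rb803307060000v1_19 : GoodKC AS k_wQ_26_wN_1_rb803307060000v1_19 := p_wQ_26_wN_1_rb803307060000v1_19

theorem g__wQ_26_wN_1_rb803307060000v1_21 : GoodKC AS k_wQ_26_wN_1_rb803307060000v1_21 := p_wQ_26_wN_1_rb803307060000v1_21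

theorem g__wQ_26_wN_1_rb803307060000v1_27 : GoodKC AS k_wQ_26_wN_1_rb803307060000v1_27 := p_wQ_26_wN_1_rb803307060000v1_27

theorem g__wQ_26_wN_1_rb803307060000v1_26 : GoodKC AS k_wQ_26_wN_1_rb803307060000v1_26 := p_wQ_26_wN_1_rb803307060000v1_26 g__wQ_26_wN_1_rb803307060000v1_27

theorem g__wQ_26_wN_1_rb803307060000v1_30 : GoodKC AS k_wQ_26_wN_1_rb803307060000v1_30 := p_wQ_26_wN_1_rb803307060000v1_30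

theorem g__wQ_26_wN_1_rb803307060000v1_29 : GoodKC AS k_wQ_26_wN_1_rb803307060000v1_29 := p_wQ_26_wN_1_rb803307060000v1_29 g__wQ_26_wN_1_rb803307060000v1_30

theorem g__wQ_26_wN_1_rb803307060000v1_28 : GoodKC AS k_wQ_26_wN_1_rb803307060000v1_28 := p_wQ_26_wN_1_rb803307060000v1_28 g__wQ_26_wN_1_rb803307060000v1_29

theorem g__wQ_26_wN_1_rb803307060000v1_25 : GoodKC AS k_wQ_26_wN_1_rb803307060000v1_25 := p_wQ_26_wN_1_rb803307060000v1_25 g__wQ_26_wN_1_rb803307060000v1_26 g__wQ_26_wN_1_rb803307060000v1_28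

theorem g__wQ_26_wN_1_rb803307060000v1_24 : GoodKC AS k_wQ_26_wN_1_rb803307060000v1_24 := p_wQ_26_wN_1_rb803307060000v1_24 g__wQ_26_wN_1_rb803307060000v1_25

theorem g__wQ_26_wN_1_rb803307060000v1_23 : GoodKC AS k_wQ_26_wN_1_rb803307060000v1_23 := p_wQ_26_wN_1_rb803307060000v1_23 g__wQ_26_wN_1_rb803307060000v1_24

theorem g__wQ_26_wN_1_rb803307060000v1_33 : GoodKC AS k_wQ_26_wN_1_rb803307060000v1_33 := p_wQ_26_wN_1_rb803307060000v1_33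

theorem g__wQ_26_wN_1_rb803307060000v1_32 : GoodKC AS k_wQ_26_wN_1_rb803307060000v1_32 := p_wQ_26_wN_1_rb803307060000v1_32 g__wQ_26_wN_1_rb803307060000v1_33

theorem g__wQ_26_wN_1_rb803307060000v1_31 : GoodKC AS k_wQ_26_wN_1_rb803307060000v1_31 := p_wQ_26_wN_1_rb803307060000v1_31 g__wQ_26_wN_1_rb803307060000v1_32

theorem g__wQ_26_wN_1_rb803307060000v1_22 : GoodKC AS k_wQ_26_wN_1_rb803307060000v1_22 := p_wQ_26_wN_1_rb803307060000v1_22 g__wQ_26_wN_1_rb803307060000v1_23 g__wQ_26_wN_1_rb803307060000v1_31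

theorem g__wQ_26_wN_1_rb803307060000v1_20 : GoodKC AS k_wQ_26_wN_1_rb803307060000v1_20 := p_wQ_26_wN_1_rb803307060000v1_20 g__wQ_26_wN_1_rb803307060000v1_21 g__wQ_26_wN_1_rb803307060000v1_22

theorem g__wQ_26_wN_1_rb803307060000v1_10 : GoodKC AS k_wQ_26_wN_1_rb803307060000v1_10 := p_wQ_26_wN_1_rb803307060000v1_10 g__wQ_26_wN_1_rb803307060000v1_11 g__wQ_26_wN_1_rb803307060000v1_15 g__wQ_26_wN_1_rb803307060000v1_16 g__wQ_26_wN_1_rb803307060000v1_19 g__wQ_26_wN_1_rb803307060000v1_20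

theorem g__wQ_26_wN_1_rb803307060000v1_9 : GoodKC AS k_wQ_26_wN_1_rb803307060000v1_9 := p_wQ_26_wN_1_rb803307060000v1_9 g__wQ_26_wN_1_rb803307060000v1_10

theorem g__wQ_26_wN_1_rb803307060000v1_8 : GoodKC AS k_wQ_26_wN_1_rb803307060000v1_8 := p_wQ_26_wN_1_rb803307060000v1_8 g__wQ_26_wN_1_rb803307060000v1_9

theorem g__wQ_26_wN_1_rb803307060000v1_7 : GoodKC AS k_wQ_26_wN_1_rb803307060000v1_7 := p_wQ_26_wN_1_rb803307060000v1_7 g__wQ_26_wN_1_rb803307060000v1_8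

theorem g__wQ_26_wN_1_rb803307060000v1_34 : GoodKC AS k_wQ_26_wN_1_rb803307060000v1_34 := p_wQ_26_wN_1_rb803307060000v1_34

theorem g__wQ_26_wN_1_rb803307060000v1_4 : GoodKC AS k_wQ_26_wN_1_rb803307060000v1_4 := p_wQ_26_wN_1_rb803307060000v1_4 g__wQ_26_wN_1_rb803307060000v1_5 g__wQ_26_wN_1_rb803307060000v1_6 g__wQ_26_wN_1_rb803307060000v1_7 g__wQ_26_wN_1_rb803307060000v1_34

theorem g_wQ_26_wN_1_rb803307060000x3 : GoodKC AS c_wQ_26_wN_1_rb803307060000x3 := p_wQ_26_wN_1_rb803307060000x1 g_wQ_26_wN_1_rb80330706000019x1 g_wQ_26_wN_1_rb80330706000018x1 g_wQ_26_wN_1_rb80330706000017x1 g_wQ_26_wN_1_rb80330706000016x1 g_wQ_26_wN_1_rb80330706000015x1 g_wQ_26_wN_1_rb80330706000014x1 g_wQ_26_wN_1_rb80330706000013x1 g_wQ_26_wN_1_rb80330706000012x1 g__wQ_26_wN_1_rb803307060000v1_0 g__wQ_26_wN_1_rb803307060000v1_4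

theorem g_wQ_26_wN_1_rb8033070600x5 : GoodKC AS c_wQ_26_wN_1_rb8033070600x5 := p_wQ_26_wN_1_rb8033070600x3 g__wQ_26_wN_1_rb8033070600v3_0 g__wQ_26_wN_1_rb8033070600v3_1 g__wQ_26_wN_1_rb8033070600v3_37 g_wQ_26_wN_1_rb803307060000x3

theorem g__wQ_26_wN_1_rb80330706x5_3 : GoodKC AS k_wQ_26_wN_1_rb80330706x5_3 := p_wQ_26_wN_1_rb80330706x5_3

theorem g__wQ_26_wN_1_rb80330706x5_2 : GoodKC AS k_wQ_26_wN_1_rb80330706x5_2 := p_wQ_26_wN_1_rb80330706x5_2 g__wQ_26_wN_1_rb80330706x5_3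

theorem g__wQ_26_wN_1_rb80330706x5_8 : GoodKC AS k_wQ_26_wN_1_rb80330706x5_8 := p_wQ_26_wN_1_rb80330706x5_8

theorem g__wQ_26_wN_1_rb80330706x5_7 : GoodKC AS k_wQ_26_wN_1_rb80330706x5_7 := p_wQ_26_wN_1_rb80330706x5_7 g__wQ_26_wN_1_rb80330706x5_8

theorem g__wQ_26_wN_1_rb80330706x5_6 : GoodKC AS k_wQ_26_wN_1_rb80330706x5_6 := p_wQ_26_wN_1_rb80330706x5_6 g__wQ_26_wN_1_rb80330706x5_7

theorem g__wQ_26_wN_1_rb80330706x5_11 : GoodKC AS k_wQ_26_wN_1_rb80330706x5_11 := p_wQ_26_wN_1_rb80330706x5_11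

theorem g__wQ_26_wN_1_rb80330706x5_10 : GoodKC AS k_wQ_26_wN_1_rb80330706x5_10 := p_wQ_26_wN_1_rb80330706x5_10 g__wQ_26_wN_1_rb80330706x5_11

theorem g__wQ_26_wN_1_rb80330706x5_9 : GoodKC AS k_wQ_26_wN_1_rb80330706x5_9 := p_wQ_26_wN_1_rb80330706x5_9 g__wQ_26_wN_1_rb80330706x5_10

theorem g__wQ_26_wN_1_rb80330706x5_5 : GoodKC AS k_wQ_26_wN_1_rb80330706x5_5 := p_wQ_26_wN_1_rb80330706x5_5 g__wQ_26_wN_1_rb80330706x5_6 g__wQ_26_wN_1_rb80330706x5_9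

theorem g__wQ_26_wN_1_rb80330706x5_16 : GoodKC AS k_wQ_26_wN_1_rb80330706x5_16 := p_wQ_26_wN_1_rb80330706x5_16

theorem g__wQ_26_wN_1_rb80330706x5_15 : GoodKC AS k_wQ_26_wN_1_rb80330706x5_15 := p_wQ_26_wN_1_rb80330706x5_15 g__wQ_26_wN_1_rb80330706x5_16

theorem g__wQ_26_wN_1_rb80330706x5_14 : GoodKC AS k_wQ_26_wN_1_rb80330706x5_14 := p_wQ_26_wN_1_rb80330706x5_14 g__wQ_26_wN_1_rb80330706x5_15

theorem g__wQ_26_wN_1_rb80330706x5_13 : GoodKC AS k_wQ_26_wN_1_rb80330706x5_13 := p_wQ_26_wN_1_rb80330706x5_13 g__wQ_26_wN_1_rb80330706x5_14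

theorem g__wQ_26_wN_1_rb80330706x5_12 : GoodKC AS k_wQ_26_wN_1_rb80330706x5_12 := p_wQ_26_wN_1_rb80330706x5_12 g__wQ_26_wN_1_rb80330706x5_13

theorem g__wQ_26_wN_1_rb80330706x5_20 : GoodKC AS k_wQ_26_wN_1_rb80330706x5_20 := p_wQ_26_wN_1_rb80330706x5_20

theorem g__wQ_26_wN_1_rb80330706x5_19 : GoodKC AS k_wQ_26_wN_1_rb80330706x5_19 := p_wQ_26_wN_1_rb80330706x5_19 g__wQ_26_wN_1_rb80330706x5_20

theorem g__wQ_26_wN_1_rb80330706x5_18 : GoodKC AS k_wQ_26_wN_1_rb80330706x5_18 := p_wQ_26_wN_1_rb80330706x5_18 g__wQ_26_wN_1_rb80330706x5_19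

theorem g__wQ_26_wN_1_rb80330706x5_23 : GoodKC AS k_wQ_26_wN_1_rb80330706x5_23 := p_wQ_26_wN_1_rb80330706x5_23

theorem g__wQ_26_wN_1_rb80330706x5_22 : GoodKC AS k_wQ_26_wN_1_rb80330706x5_22 := p_wQ_26_wN_1_rb80330706x5_22 g__wQ_26_wN_1_rb80330706x5_23

theorem g__wQ_26_wN_1_rb80330706x5_21 : GoodKC AS k_wQ_26_wN_1_rb80330706x5_21 := p_wQ_26_wN_1_rb80330706x5_21 g__wQ_26_wN_1_rb80330706x5_22

theorem g__wQ_26_wN_1_rb80330706x5_17 : GoodKC AS k_wQ_26_wN_1_rb80330706x5_17 := p_wQ_26_wN_1_rb80330706x5_17 g__wQ_26_wN_1_rb80330706x5_18 g__wQ_26_wN_1_rb80330706x5_21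

theorem g__wQ_26_wN_1_rb80330706x5_4 : GoodKC AS k_wQ_26_wN_1_rb80330706x5_4 := p_wQ_26_wN_1_rb80330706x5_4 g__wQ_26_wN_1_rb80330706x5_5 g__wQ_26_wN_1_rb80330706x5_12 g__wQ_26_wN_1_rb80330706x5_17

theorem g__wQ_26_wN_1_rb80330706x5_26 : GoodKC AS k_wQ_26_wN_1_rb80330706x5_26 := p_wQ_26_wN_1_rb80330706x5_26

theorem g__wQ_26_wN_1_rb80330706x5_25 : GoodKC AS k_wQ_26_wN_1_rb80330706x5_25 := p_wQ_26_wN_1_rb80330706x5_25 g__wQ_26_wN_1_rb80330706x5_26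

theorem g__wQ_26_wN_1_rb80330706x5_30 : GoodKC AS k_wQ_26_wN_1_rb80330706x5_30 := p_wQ_26_wN_1_rb80330706x5_30

theorem g__wQ_26_wN_1_rb80330706x5_29 : GoodKC AS k_wQ_26_wN_1_rb80330706x5_29 := p_wQ_26_wN_1_rb80330706x5_29 g__wQ_26_wN_1_rb80330706x5_30

theorem g__wQ_26_wN_1_rb80330706x5_32 : GoodKC AS k_wQ_26_wN_1_rb80330706x5_32 := p_wQ_26_wN_1_rb80330706x5_32

theorem g__wQ_26_wN_1_rb80330706x5_35 : GoodKC AS k_wQ_26_wN_1_rb80330706x5_35 := p_wQ_26_wN_1_rb80330706x5_35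

theorem g__wQ_26_wN_1_rb80330706x5_34 : GoodKC AS k_wQ_26_wN_1_rb80330706x5_34 := p_wQ_26_wN_1_rb80330706x5_34 g__wQ_26_wN_1_rb80330706x5_35

theorem g__wQ_26_wN_1_rb80330706x5_38 : GoodKC AS k_wQ_26_wN_1_rb80330706x5_38 := p_wQ_26_wN_1_rb80330706x5_38

theorem g__wQ_26_wN_1_rb80330706x5_37 : GoodKC AS k_wQ_26_wN_1_rb80330706x5_37 := p_wQ_26_wN_1_rb80330706x5_37 g__wQ_26_wN_1_rb80330706x5_38

theorem g__wQ_26_wN_1_rb80330706x5_36 : GoodKC AS k_wQ_26_wN_1_rb80330706x5_36 := p_wQ_26_wN_1_rb80330706x5_36 g__wQ_26_wN_1_rb80330706x5_37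

theorem g__wQ_26_wN_1_rb80330706x5_40 : GoodKC AS k_wQ_26_wN_1_rb80330706x5_40 := p_wQ_26_wN_1_rb80330706x5_40

theorem g__wQ_26_wN_1_rb80330706x5_42 : GoodKC AS k_wQ_26_wN_1_rb80330706x5_42 := p_wQ_26_wN_1_rb80330706x5_42

theorem g__wQ_26_wN_1_rb80330706x5_41 : GoodKC AS k_wQ_26_wN_1_rb80330706x5_41 := p_wQ_26_wN_1_rb80330706x5_41 g__wQ_26_wN_1_rb80330706x5_42

theorem g__wQ_26_wN_1_rb80330706x5_39 : GoodKC AS k_wQ_26_wN_1_rb80330706x5_39 := p_wQ_26_wN_1_rb80330706x5_39 g__wQ_26_wN_1_rb80330706x5_40 g__wQ_26_wN_1_rb80330706x5_41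

theorem g__wQ_26_wN_1_rb80330706x5_33 : GoodKC AS k_wQ_26_wN_1_rb80330706x5_33 := p_wQ_26_wN_1_rb80330706x5_33 g__wQ_26_wN_1_rb80330706x5_34 g__wQ_26_wN_1_rb80330706x5_36 g__wQ_26_wN_1_rb80330706x5_39

theorem g__wQ_26_wN_1_rb80330706x5_31 : GoodKC AS k_wQ_26_wN_1_rb80330706x5_31 := p_wQ_26_wN_1_rb80330706x5_31 g__wQ_26_wN_1_rb80330706x5_32 g__wQ_26_wN_1_rb80330706x5_33

theorem g__wQ_26_wN_1_rb80330706x5_28 : GoodKC AS k_wQ_26_wN_1_rb80330706x5_28 := p_wQ_26_wN_1_rb80330706x5_28 g__wQ_26_wN_1_rb80330706x5_29 g__wQ_26_wN_1_rb80330706x5_31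

theorem g__wQ_26_wN_1_rb80330706x5_27 : GoodKC AS k_wQ_26_wN_1_rb80330706x5_27 := p_wQ_26_wN_1_rb80330706x5_27 g__wQ_26_wN_1_rb80330706x5_28

theorem g__wQ_26_wN_1_rb80330706x5_24 : GoodKC AS k_wQ_26_wN_1_rb80330706x5_24 := p_wQ_26_wN_1_rb80330706x5_24 g__wQ_26_wN_1_rb80330706x5_25 g__wQ_26_wN_1_rb80330706x5_27

theorem g__wQ_26_wN_1_rb80330706x5_1 : GoodKC AS k_wQ_26_wN_1_rb80330706x5_1 := p_wQ_26_wN_1_rb80330706x5_1 g__wQ_26_wN_1_rb80330706x5_2 g__wQ_26_wN_1_rb80330706x5_4 g__wQ_26_wN_1_rb80330706x5_24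

theorem g__wQ_26_wN_1_rb80330706x5_43 : GoodKC AS k_wQ_26_wN_1_rb80330706x5_43 := p_wQ_26_wN_1_rb80330706x5_43

theorem g__wQ_26_wN_1_rb80330706x5_0 : GoodKC AS k_wQ_26_wN_1_rb80330706x5_0 := p_wQ_26_wN_1_rb80330706x5_0 g_wQ_26_wN_1_rb8033070602x5 g_wQ_26_wN_1_rb8033070601x5 g_wQ_26_wN_1_rb8033070600x5 g__wQ_26_wN_1_rb80330706x5_1 g__wQ_26_wN_1_rb80330706x5_43

theorem g_wQ_26_wN_1_rb80330706x11 : GoodKC AS c_wQ_26_wN_1_rb80330706x11 := p_wQ_26_wN_1_rb80330706x5 g__wQ_26_wN_1_rb80330706x5_0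

theorem g__wQ_26_wN_1_rb80330704x6_1 : GoodKC AS k_wQ_26_wN_1_rb80330704x6_1 := p_wQ_26_wN_1_rb80330704x6_1

theorem g__wQ_26_wN_1_rb80330704x6_2 : GoodKC AS k_wQ_26_wN_1_rb80330704x6_2 := p_wQ_26_wN_1_rb80330704x6_2

theorem g__wQ_26_wN_1_rb80330704x6_0 : GoodKC AS k_wQ_26_wN_1_rb80330704x6_0 := p_wQ_26_wN_1_rb80330704x6_0 g__wQ_26_wN_1_rb80330704x6_1 g__wQ_26_wN_1_rb80330704x6_2

theorem g__wQ_26_wN_1_rb80330704x6_6 : GoodKC AS k_wQ_26_wN_1_rb80330704x6_6 := p_wQ_26_wN_1_rb80330704x6_6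

theorem g__wQ_26_wN_1_rb80330704x6_5 : GoodKC AS k_wQ_26_wN_1_rb80330704x6_5 := p_wQ_26_wN_1_rb80330704x6_5 g__wQ_26_wN_1_rb80330704x6_6

theorem g__wQ_26_wN_1_rb80330704x6_8 : GoodKC AS k_wQ_26_wN_1_rb80330704x6_8 := p_wQ_26_wN_1_rb80330704x6_8

theorem g__wQ_26_wN_1_rb80330704x6_9 : GoodKC AS k_wQ_26_wN_1_rb80330704x6_9 := p_wQ_26_wN_1_rb80330704x6_9

theorem g__wQ_26_wN_1_rb80330704x6_13 : GoodKC AS k_wQ_26_wN_1_rb80330704x6_13 := p_wQ_26_wN_1_rb80330704x6_13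

theorem g__wQ_26_wN_1_rb80330704x6_12 : GoodKC AS k_wQ_26_wN_1_rb80330704x6_12 := p_wQ_26_wN_1_rb80330704x6_12 g__wQ_26_wN_1_rb80330704x6_13

theorem g__wQ_26_wN_1_rb80330704x6_11 : GoodKC AS k_wQ_26_wN_1_rb80330704x6_11 := p_wQ_26_wN_1_rb80330704x6_11 g__wQ_26_wN_1_rb80330704x6_12

theorem g__wQ_26_wN_1_rb80330704x6_10 : GoodKC AS k_wQ_26_wN_1_rb80330704x6_10 := p_wQ_26_wN_1_rb80330704x6_10 g__wQ_26_wN_1_rb80330704x6_11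

theorem g__wQ_26_wN_1_rb80330704x6_14 : GoodKC AS k_wQ_26_wN_1_rb80330704x6_14 := p_wQ_26_wN_1_rb80330704x6_14

theorem g__wQ_26_wN_1_rb80330704x6_7 : GoodKC AS k_wQ_26_wN_1_rb80330704x6_7 := p_wQ_26_wN_1_rb80330704x6_7 g__wQ_26_wN_1_rb80330704x6_8 g__wQ_26_wN_1_rb80330704x6_9 g__wQ_26_wN_1_rb80330704x6_10 g__wQ_26_wN_1_rb80330704x6_14

theorem g__wQ_26_wN_1_rb80330704x6_4 : GoodKC AS k_wQ_26_wN_1_rb80330704x6_4 := p_wQ_26_wN_1_rb80330704x6_4 g__wQ_26_wN_1_rb80330704x6_5 g__wQ_26_wN_1_rb80330704x6_7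

theorem g__wQ_26_wN_1_rb80330704x6_3 : GoodKC AS k_wQ_26_wN_1_rb80330704x6_3 := p_wQ_26_wN_1_rb80330704x6_3 g__wQ_26_wN_1_rb80330704x6_4

theorem g_wQ_26_wN_1_rb80330704x11 : GoodKC AS c_wQ_26_wN_1_rb80330704x11 := p_wQ_26_wN_1_rb80330704x6 g__wQ_26_wN_1_rb80330704x6_0 g__wQ_26_wN_1_rb80330704x6_3

theorem g__wQ_26_wN_1_rb80330703x6_3 : GoodKC AS k_wQ_26_wN_1_rb80330703x6_3 := p_wQ_26_wN_1_rb80330703x6_3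

theorem g__wQ_26_wN_1_rb80330703x6_2 : GoodKC AS k_wQ_26_wN_1_rb80330703x6_2 := p_wQ_26_wN_1_rb80330703x6_2 g__wQ_26_wN_1_rb80330703x6_3

theorem g__wQ_26_wN_1_rb80330703x6_1 : GoodKC AS k_wQ_26_wN_1_rb80330703x6_1 := p_wQ_26_wN_1_rb80330703x6_1 g__wQ_26_wN_1_rb80330703x6_2

theorem g__wQ_26_wN_1_rb80330703x6_0 : GoodKC AS k_wQ_26_wN_1_rb80330703x6_0 := p_wQ_26_wN_1_rb80330703x6_0 g__wQ_26_wN_1_rb80330703x6_1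

theorem g__wQ_26_wN_1_rb80330703x6_6 : GoodKC AS k_wQ_26_wN_1_rb80330703x6_6 := p_wQ_26_wN_1_rb80330703x6_6

theorem g__wQ_26_wN_1_rb80330703x6_5 : GoodKC AS k_wQ_26_wN_1_rb80330703x6_5 := p_wQ_26_wN_1_rb80330703x6_5 g__wQ_26_wN_1_rb80330703x6_6

theorem g__wQ_26_wN_1_rb80330703x6_4 : GoodKC AS k_wQ_26_wN_1_rb80330703x6_4 := p_wQ_26_wN_1_rb80330703x6_4 g__wQ_26_wN_1_rb80330703x6_5

theorem g_wQ_26_wN_1_rb80330703x11 : GoodKC AS c_wQ_26_wN_1_rb80330703x11 := p_wQ_26_wN_1_rb80330703x6 g__wQ_26_wN_1_rb80330703x6_0 g__wQ_26_wN_1_rb80330703x6_4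

theorem g__wQ_26_wN_1_rb80330702x6_1 : GoodKC AS k_wQ_26_wN_1_rb80330702x6_1 := p_wQ_26_wN_1_rb80330702x6_1

theorem g__wQ_26_wN_1_rb80330702x6_3 : GoodKC AS k_wQ_26_wN_1_rb80330702x6_3 := p_wQ_26_wN_1_rb80330702x6_3

theorem g__wQ_26_wN_1_rb80330702x6_2 : GoodKC AS k_wQ_26_wN_1_rb80330702x6_2 := p_wQ_26_wN_1_rb80330702x6_2 g__wQ_26_wN_1_rb80330702x6_3

theorem g__wQ_26_wN_1_rb80330702x6_0 : GoodKC AS k_wQ_26_wN_1_rb80330702x6_0 := p_wQ_26_wN_1_rb80330702x6_0 g__wQ_26_wN_1_rb80330702x6_1 g__wQ_26_wN_1_rb80330702x6_2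

theorem g__wQ_26_wN_1_rb80330702x6_7 : GoodKC AS k_wQ_26_wN_1_rb80330702x6_7 := p_wQ_26_wN_1_rb80330702x6_7

theorem g__wQ_26_wN_1_rb80330702x6_6 : GoodKC AS k_wQ_26_wN_1_rb80330702x6_6 := p_wQ_26_wN_1_rb80330702x6_6 g__wQ_26_wN_1_rb80330702x6_7

theorem g__wQ_26_wN_1_rb80330702x6_8 : GoodKC AS k_wQ_26_wN_1_rb80330702x6_8 := p_wQ_26_wN_1_rb80330702x6_8

theorem g__wQ_26_wN_1_rb80330702x6_5 : GoodKC AS k_wQ_26_wN_1_rb80330702x6_5 := p_wQ_26_wN_1_rb80330702x6_5 g__wQ_26_wN_1_rb80330702x6_6 g__wQ_26_wN_1_rb80330702x6_8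

theorem g__wQ_26_wN_1_rb80330702x6_4 : GoodKC AS k_wQ_26_wN_1_rb80330702x6_4 := p_wQ_26_wN_1_rb80330702x6_4 g__wQ_26_wN_1_rb80330702x6_5

theorem g__wQ_26_wN_1_rb80330702x6_10 : GoodKC AS k_wQ_26_wN_1_rb80330702x6_10 := p_wQ_26_wN_1_rb80330702x6_10

theorem g__wQ_26_wN_1_rb80330702x6_9 : GoodKC AS k_wQ_26_wN_1_rb80330702x6_9 := p_wQ_26_wN_1_rb80330702x6_9 g__wQ_26_wN_1_rb80330702x6_10

theorem g_wQ_26_wN_1_rb80330702x11 : GoodKC AS c_wQ_26_wN_1_rb80330702x11 := p_wQ_26_wN_1_rb80330702x6 g__wQ_26_wN_1_rb80330702x6_0 g__wQ_26_wN_1_rb80330702x6_4 g__wQ_26_wN_1_rb80330702x6_9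

theorem g__wQ_26_wN_1_rb80330701x6_0 : GoodKC AS k_wQ_26_wN_1_rb80330701x6_0 := p_wQ_26_wN_1_rb80330701x6_0

theorem g__wQ_26_wN_1_rb80330701x6_3 : GoodKC AS k_wQ_26_wN_1_rb80330701x6_3 := p_wQ_26_wN_1_rb80330701x6_3

theorem g__wQ_26_wN_1_rb80330701x6_2 : GoodKC AS k_wQ_26_wN_1_rb80330701x6_2 := p_wQ_26_wN_1_rb80330701x6_2 g__wQ_26_wN_1_rb80330701x6_3

theorem g__wQ_26_wN_1_rb80330701x6_8 : GoodKC AS k_wQ_26_wN_1_rb80330701x6_8 := p_wQ_26_wN_1_rb80330701x6_8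

theorem g__wQ_26_wN_1_rb80330701x6_7 : GoodKC AS k_wQ_26_wN_1_rb80330701x6_7 := p_wQ_26_wN_1_rb80330701x6_7 g__wQ_26_wN_1_rb80330701x6_8

theorem g__wQ_26_wN_1_rb80330701x6_6 : GoodKC AS k_wQ_26_wN_1_rb80330701x6_6 := p_wQ_26_wN_1_rb80330701x6_6 g__wQ_26_wN_1_rb80330701x6_7

theorem g__wQ_26_wN_1_rb80330701x6_9 : GoodKC AS k_wQ_26_wN_1_rb80330701x6_9 := p_wQ_26_wN_1_rb80330701x6_9

theorem g__wQ_26_wN_1_rb80330701x6_5 : GoodKC AS k_wQ_26_wN_1_rb80330701x6_5 := p_wQ_26_wN_1_rb80330701x6_5 g__wQ_26_wN_1_rb80330701x6_6 g__wQ_26_wN_1_rb80330701x6_9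

theorem g__wQ_26_wN_1_rb80330701x6_4 : GoodKC AS k_wQ_26_wN_1_rb80330701x6_4 := p_wQ_26_wN_1_rb80330701x6_4 g__wQ_26_wN_1_rb80330701x6_5

theorem g__wQ_26_wN_1_rb80330701x6_1 : GoodKC AS k_wQ_26_wN_1_rb80330701x6_1 := p_wQ_26_wN_1_rb80330701x6_1 g__wQ_26_wN_1_rb80330701x6_2 g__wQ_26_wN_1_rb80330701x6_4

theorem g_wQ_26_wN_1_rb80330701x11 : GoodKC AS c_wQ_26_wN_1_rb80330701x11 := p_wQ_26_wN_1_rb80330701x6 g__wQ_26_wN_1_rb80330701x6_0 g__wQ_26_wN_1_rb80330701x6_1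

theorem g__wQ_26_wN_1_rb803307x11_5 : GoodKC AS k_wQ_26_wN_1_rb803307x11_5 := p_wQ_26_wN_1_rb803307x11_5

theorem g__wQ_26_wN_1_rb803307x11_4 : GoodKC AS k_wQ_26_wN_1_rb803307x11_4 := p_wQ_26_wN_1_rb803307x11_4 g__wQ_26_wN_1_rb803307x11_5

theorem g__wQ_26_wN_1_rb803307x11_7 : GoodKC AS k_wQ_26_wN_1_rb803307x11_7 := p_wQ_26_wN_1_rb803307x11_7

theorem g__wQ_26_wN_1_rb803307x11_9 : GoodKC AS k_wQ_26_wN_1_rb803307x11_9 := p_wQ_26_wN_1_rb803307x11_9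

theorem g__wQ_26_wN_1_rb803307x11_8 : GoodKC AS k_wQ_26_wN_1_rb803307x11_8 := p_wQ_26_wN_1_rb803307x11_8 g__wQ_26_wN_1_rb803307x11_9

theorem g__wQ_26_wN_1_rb803307x11_6 : GoodKC AS k_wQ_26_wN_1_rb803307x11_6 := p_wQ_26_wN_1_rb803307x11_6 g__wQ_26_wN_1_rb803307x11_7 g__wQ_26_wN_1_rb803307x11_8

theorem g__wQ_26_wN_1_rb803307x11_10 : GoodKC AS k_wQ_26_wN_1_rb803307x11_10 := p_wQ_26_wN_1_rb803307x11_10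

theorem g__wQ_26_wN_1_rb803307x11_3 : GoodKC AS k_wQ_26_wN_1_rb803307x11_3 := p_wQ_26_wN_1_rb803307x11_3 g__wQ_26_wN_1_rb803307x11_4 g__wQ_26_wN_1_rb803307x11_6 g__wQ_26_wN_1_rb803307x11_10

theorem g__wQ_26_wN_1_rb803307x11_2 : GoodKC AS k_wQ_26_wN_1_rb803307x11_2 := p_wQ_26_wN_1_rb803307x11_2 g__wQ_26_wN_1_rb803307x11_3

theorem g__wQ_26_wN_1_rb803307x11_14 : GoodKC AS k_wQ_26_wN_1_rb803307x11_14 := p_wQ_26_wN_1_rb803307x11_14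

theorem g__wQ_26_wN_1_rb803307x11_13 : GoodKC AS k_wQ_26_wN_1_rb803307x11_13 := p_wQ_26_wN_1_rb803307x11_13 g__wQ_26_wN_1_rb803307x11_14

theorem g__wQ_26_wN_1_rb803307x11_23 : GoodKC AS k_wQ_26_wN_1_rb803307x11_23 := p_wQ_26_wN_1_rb803307x11_23

theorem g__wQ_26_wN_1_rb803307x11_22 : GoodKC AS k_wQ_26_wN_1_rb803307x11_22 := p_wQ_26_wN_1_rb803307x11_22 g__wQ_26_wN_1_rb803307x11_23

theorem g__wQ_26_wN_1_rb803307x11_25 : GoodKC AS k_wQ_26_wN_1_rb803307x11_25 := p_wQ_26_wN_1_rb803307x11_25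

theorem g__wQ_26_wN_1_rb803307x11_24 : GoodKC AS k_wQ_26_wN_1_rb803307x11_24 := p_wQ_26_wN_1_rb803307x11_24 g__wQ_26_wN_1_rb803307x11_25

theorem g__wQ_26_wN_1_rb803307x11_21 : GoodKC AS k_wQ_26_wN_1_rb803307x11_21 := p_wQ_26_wN_1_rb803307x11_21 g__wQ_26_wN_1_rb803307x11_22 g__wQ_26_wN_1_rb803307x11_24

theorem g__wQ_26_wN_1_rb803307x11_20 : GoodKC AS k_wQ_26_wN_1_rb803307x11_20 := p_wQ_26_wN_1_rb803307x11_20 g__wQ_26_wN_1_rb803307x11_21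

theorem g__wQ_26_wN_1_rb803307x11_19 : GoodKC AS k_wQ_26_wN_1_rb803307x11_19 := p_wQ_26_wN_1_rb803307x11_19 g__wQ_26_wN_1_rb803307x11_20

theorem g__wQ_26_wN_1_rb803307x11_18 : GoodKC AS k_wQ_26_wN_1_rb803307x11_18 := p_wQ_26_wN_1_rb803307x11_18 g__wQ_26_wN_1_rb803307x11_19

theorem g__wQ_26_wN_1_rb803307x11_17 : GoodKC AS k_wQ_26_wN_1_rb803307x11_17 := p_wQ_26_wN_1_rb803307x11_17 g__wQ_26_wN_1_rb803307x11_18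

theorem g__wQ_26_wN_1_rb803307x11_16 : GoodKC AS k_wQ_26_wN_1_rb803307x11_16 := p_wQ_26_wN_1_rb803307x11_16 g__wQ_26_wN_1_rb803307x11_17

theorem g__wQ_26_wN_1_rb803307x11_30 : GoodKC AS k_wQ_26_wN_1_rb803307x11_30 := p_wQ_26_wN_1_rb803307x11_30

theorem g__wQ_26_wN_1_rb803307x11_31 : GoodKC AS k_wQ_26_wN_1_rb803307x11_31 := p_wQ_26_wN_1_rb803307x11_31

theorem g__wQ_26_wN_1_rb803307x11_29 : GoodKC AS k_wQ_26_wN_1_rb803307x11_29 := p_wQ_26_wN_1_rb803307x11_29 g__wQ_26_wN_1_rb803307x11_30 g__wQ_26_wN_1_rb803307x11_31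

theorem g__wQ_26_wN_1_rb803307x11_28 : GoodKC AS k_wQ_26_wN_1_rb803307x11_28 := p_wQ_26_wN_1_rb803307x11_28 g__wQ_26_wN_1_rb803307x11_29

theorem g__wQ_26_wN_1_rb803307x11_27 : GoodKC AS k_wQ_26_wN_1_rb803307x11_27 := p_wQ_26_wN_1_rb803307x11_27 g__wQ_26_wN_1_rb803307x11_28

theorem g__wQ_26_wN_1_rb803307x11_26 : GoodKC AS k_wQ_26_wN_1_rb803307x11_26 := p_wQ_26_wN_1_rb803307x11_26 g__wQ_26_wN_1_rb803307x11_27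

theorem g__wQ_26_wN_1_rb803307x11_15 : GoodKC AS k_wQ_26_wN_1_rb803307x11_15 := p_wQ_26_wN_1_rb803307x11_15 g__wQ_26_wN_1_rb803307x11_16 g__wQ_26_wN_1_rb803307x11_26

theorem g__wQ_26_wN_1_rb803307x11_12 : GoodKC AS k_wQ_26_wN_1_rb803307x11_12 := p_wQ_26_wN_1_rb803307x11_12 g__wQ_26_wN_1_rb803307x11_13 g__wQ_26_wN_1_rb803307x11_15

theorem g__wQ_26_wN_1_rb803307x11_11 : GoodKC AS k_wQ_26_wN_1_rb803307x11_11 := p_wQ_26_wN_1_rb803307x11_11 g__wQ_26_wN_1_rb803307x11_12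

theorem g__wQ_26_wN_1_rb803307x11_1 : GoodKC AS k_wQ_26_wN_1_rb803307x11_1 := p_wQ_26_wN_1_rb803307x11_1 g__wQ_26_wN_1_rb803307x11_2 g__wQ_26_wN_1_rb803307x11_11

theorem g__wQ_26_wN_1_rb803307x11_33 : GoodKC AS k_wQ_26_wN_1_rb803307x11_33 := p_wQ_26_wN_1_rb803307x11_33

theorem g__wQ_26_wN_1_rb803307x11_32 : GoodKC AS k_wQ_26_wN_1_rb803307x11_32 := p_wQ_26_wN_1_rb803307x11_32 g__wQ_26_wN_1_rb803307x11_33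

theorem g__wQ_26_wN_1_rb80330700v5_0 : GoodKC AS k_wQ_26_wN_1_rb80330700v5_0 := p_wQ_26_wN_1_rb80330700v5_0

theorem g__wQ_26_wN_1_rb80330700v5_2 : GoodKC AS k_wQ_26_wN_1_rb80330700v5_2 := p_wQ_26_wN_1_rb80330700v5_2

theorem g__wQ_26_wN_1_rb80330700v5_6 : GoodKC AS k_wQ_26_wN_1_rb80330700v5_6 := p_wQ_26_wN_1_rb80330700v5_6

theorem g__wQ_26_wN_1_rb80330700v5_7 : GoodKC AS k_wQ_26_wN_1_rb80330700v5_7 := p_wQ_26_wN_1_rb80330700v5_7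

theorem g__wQ_26_wN_1_rb80330700v5_9 : GoodKC AS k_wQ_26_wN_1_rb80330700v5_9 := p_wQ_26_wN_1_rb80330700v5_9

theorem g__wQ_26_wN_1_rb80330700v5_10 : GoodKC AS k_wQ_26_wN_1_rb80330700v5_10 := p_wQ_26_wN_1_rb80330700v5_10

theorem g__wQ_26_wN_1_rb80330700v5_8 : GoodKC AS k_wQ_26_wN_1_rb80330700v5_8 := p_wQ_26_wN_1_rb80330700v5_8 g__wQ_26_wN_1_rb80330700v5_9 g__wQ_26_wN_1_rb80330700v5_10

theorem g__wQ_26_wN_1_rb80330700v5_14 : GoodKC AS k_wQ_26_wN_1_rb80330700v5_14 := p_wQ_26_wN_1_rb80330700v5_14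

theorem g__wQ_26_wN_1_rb80330700v5_13 : GoodKC AS k_wQ_26_wN_1_rb80330700v5_13 := p_wQ_26_wN_1_rb80330700v5_13 g__wQ_26_wN_1_rb80330700v5_14

theorem g__wQ_26_wN_1_rb80330700v5_12 : GoodKC AS k_wQ_26_wN_1_rb80330700v5_12 := p_wQ_26_wN_1_rb80330700v5_12 g__wQ_26_wN_1_rb80330700v5_13

theorem g__wQ_26_wN_1_rb80330700v5_17 : GoodKC AS k_wQ_26_wN_1_rb80330700v5_17 := p_wQ_26_wN_1_rb80330700v5_17

theorem g__wQ_26_wN_1_rb80330700v5_16 : GoodKC AS k_wQ_26_wN_1_rb80330700v5_16 := p_wQ_26_wN_1_rb80330700v5_16 g__wQ_26_wN_1_rb80330700v5_17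

theorem g__wQ_26_wN_1_rb80330700v5_15 : GoodKC AS k_wQ_26_wN_1_rb80330700v5_15 := p_wQ_26_wN_1_rb80330700v5_15 g__wQ_26_wN_1_rb80330700v5_16

theorem g__wQ_26_wN_1_rb80330700v5_11 : GoodKC AS k_wQ_26_wN_1_rb80330700v5_11 := p_wQ_26_wN_1_rb80330700v5_11 g__wQ_26_wN_1_rb80330700v5_12 g__wQ_26_wN_1_rb80330700v5_15

theorem g__wQ_26_wN_1_rb80330700v5_5 : GoodKC AS k_wQ_26_wN_1_rb80330700v5_5 := p_wQ_26_wN_1_rb80330700v5_5 g__wQ_26_wN_1_rb80330700v5_6 g__wQ_26_wN_1_rb80330700v5_7 g__wQ_26_wN_1_rb80330700v5_8 g__wQ_26_wN_1_rb80330700v5_11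

theorem g__wQ_26_wN_1_rb80330700v5_4 : GoodKC AS k_wQ_26_wN_1_rb80330700v5_4 := p_wQ_26_wN_1_rb80330700v5_4 g__wQ_26_wN_1_rb80330700v5_5

theorem g__wQ_26_wN_1_rb80330700v5_3 : GoodKC AS k_wQ_26_wN_1_rb80330700v5_3 := p_wQ_26_wN_1_rb80330700v5_3 g__wQ_26_wN_1_rb80330700v5_4

theorem g__wQ_26_wN_1_rb80330700v5_1 : GoodKC AS k_wQ_26_wN_1_rb80330700v5_1 := p_wQ_26_wN_1_rb80330700v5_1 g__wQ_26_wN_1_rb80330700v5_2 g__wQ_26_wN_1_rb80330700v5_3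

theorem g_wQ_26_wN_1_rb80330700x11 : GoodKC AS c_wQ_26_wN_1_rb80330700x11 := p_wQ_26_wN_1_rb80330700x5 g__wQ_26_wN_1_rb80330700v5_0 g__wQ_26_wN_1_rb80330700v5_1

theorem g__wQ_26_wN_1_rb803307x11_34 : GoodKC AS k_wQ_26_wN_1_rb803307x11_34 := p_wQ_26_wN_1_rb803307x11_34

theorem g__wQ_26_wN_1_rb80330705x6_1 : GoodKC AS k_wQ_26_wN_1_rb80330705x6_1 := p_wQ_26_wN_1_rb80330705x6_1

theorem g__wQ_26_wN_1_rb80330705x6_0 : GoodKC AS k_wQ_26_wN_1_rb80330705x6_0 := p_wQ_26_wN_1_rb80330705x6_0 g__wQ_26_wN_1_rb80330705x6_1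

theorem g__wQ_26_wN_1_rb80330705x6_3 : GoodKC AS k_wQ_26_wN_1_rb80330705x6_3 := p_wQ_26_wN_1_rb80330705x6_3

theorem g__wQ_26_wN_1_rb80330705x6_2 : GoodKC AS k_wQ_26_wN_1_rb80330705x6_2 := p_wQ_26_wN_1_rb80330705x6_2 g__wQ_26_wN_1_rb80330705x6_3

theorem g__wQ_26_wN_1_rb80330705x6_4 : GoodKC AS k_wQ_26_wN_1_rb80330705x6_4 := p_wQ_26_wN_1_rb80330705x6_4

theorem g_wQ_26_wN_1_rb80330705x11 : GoodKC AS c_wQ_26_wN_1_rb80330705x11 := p_wQ_26_wN_1_rb80330705x6 g__wQ_26_wN_1_rb80330705x6_0 g__wQ_26_wN_1_rb80330705x6_2 g__wQ_26_wN_1_rb80330705x6_4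

theorem g__wQ_26_wN_1_rb803307x11_0 : GoodKC AS k_wQ_26_wN_1_rb803307x11_0 := p_wQ_26_wN_1_rb803307x11_0 g_wQ_26_wN_1_rb80330704x11 g_wQ_26_wN_1_rb80330703x11 g_wQ_26_wN_1_rb80330702x11 g_wQ_26_wN_1_rb80330701x11 g__wQ_26_wN_1_rb803307x11_1 g__wQ_26_wN_1_rb803307x11_32 g_wQ_26_wN_1_rb80330700x11 g__wQ_26_wN_1_rb803307x11_34 g_wQ_26_wN_1_rb80330705x11

theorem g__xs_41_wQ_26_wN_1_rb8033070700v4_0 : GoodKC AS k_xs_41_wQ_26_wN_1_rb8033070700v4_0 := p_xs_41_wQ_26_wN_1_rb8033070700v4_0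

theorem g__xs_41_wQ_26_wN_1_rb8033070700v4_1 : GoodKC AS k_xs_41_wQ_26_wN_1_rb8033070700v4_1 := p_xs_41_wQ_26_wN_1_rb8033070700v4_1

theorem g__xs_41_wQ_26_wN_1_rb8033070700v4_3 : GoodKC AS k_xs_41_wQ_26_wN_1_rb8033070700v4_3 := p_xs_41_wQ_26_wN_1_rb8033070700v4_3

theorem g__xs_41_wQ_26_wN_1_rb8033070700v4_4 : GoodKC AS k_xs_41_wQ_26_wN_1_rb8033070700v4_4 := p_xs_41_wQ_26_wN_1_rb8033070700v4_4

theorem g__xs_41_wQ_26_wN_1_rb8033070700v4_5 : GoodKC AS k_xs_41_wQ_26_wN_1_rb8033070700v4_5 := p_xs_41_wQ_26_wN_1_rb8033070700v4_5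

theorem g__xs_41_wQ_26_wN_1_rb8033070700v4_2 : GoodKC AS k_xs_41_wQ_26_wN_1_rb8033070700v4_2 := p_xs_41_wQ_26_wN_1_rb8033070700v4_2 g__xs_41_wQ_26_wN_1_rb8033070700v4_3 g__xs_41_wQ_26_wN_1_rb8033070700v4_4 g__xs_41_wQ_26_wN_1_rb8033070700v4_5

theorem g_xs_41_wQ_26_wN_1_rb8033070700x7 : GoodKC AS c_xs_41_wQ_26_wN_1_rb8033070700x7 := p_xs_41_wQ_26_wN_1_rb8033070700x4 g__xs_41_wQ_26_wN_1_rb8033070700v4_0 g__xs_41_wQ_26_wN_1_rb8033070700v4_1 g__xs_41_wQ_26_wN_1_rb8033070700v4_2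

theorem g__wQ_26_wN_1_rb80330707x7_0 : GoodKC AS k_wQ_26_wN_1_rb80330707x7_0 := p_wQ_26_wN_1_rb80330707x7_0

theorem g__wQ_26_wN_1_rb80330707x7_4 : GoodKC AS k_wQ_26_wN_1_rb80330707x7_4 := p_wQ_26_wN_1_rb80330707x7_4

theorem g__wQ_26_wN_1_rb80330707x7_3 : GoodKC AS k_wQ_26_wN_1_rb80330707x7_3 := p_wQ_26_wN_1_rb80330707x7_3 g__wQ_26_wN_1_rb80330707x7_4

theorem g__wQ_26_wN_1_rb80330707x7_2 : GoodKC AS k_wQ_26_wN_1_rb80330707x7_2 := p_wQ_26_wN_1_rb80330707x7_2 g__wQ_26_wN_1_rb80330707x7_3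

theorem g__wQ_26_wN_1_rb80330707x7_8 : GoodKC AS k_wQ_26_wN_1_rb80330707x7_8 := p_wQ_26_wN_1_rb80330707x7_8

theorem g__wQ_26_wN_1_rb80330707x7_7 : GoodKC AS k_wQ_26_wN_1_rb80330707x7_7 := p_wQ_26_wN_1_rb80330707x7_7 g__wQ_26_wN_1_rb80330707x7_8

theorem g__wQ_26_wN_1_rb80330707x7_9 : GoodKC AS k_wQ_26_wN_1_rb80330707x7_9 := p_wQ_26_wN_1_rb80330707x7_9

theorem g__wQ_26_wN_1_rb80330707x7_10 : GoodKC AS k_wQ_26_wN_1_rb80330707x7_10 := p_wQ_26_wN_1_rb80330707x7_10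

theorem g__wQ_26_wN_1_rb80330707x7_11 : GoodKC AS k_wQ_26_wN_1_rb80330707x7_11 := p_wQ_26_wN_1_rb80330707x7_11

theorem g__wQ_26_wN_1_rb80330707x7_6 : GoodKC AS k_wQ_26_wN_1_rb80330707x7_6 := p_wQ_26_wN_1_rb80330707x7_6 g__wQ_26_wN_1_rb80330707x7_7 g__wQ_26_wN_1_rb80330707x7_9 g__wQ_26_wN_1_rb80330707x7_10 g__wQ_26_wN_1_rb80330707x7_11

theorem g__wQ_26_wN_1_rb80330707x7_5 : GoodKC AS k_wQ_26_wN_1_rb80330707x7_5 := p_wQ_26_wN_1_rb80330707x7_5 g__wQ_26_wN_1_rb80330707x7_6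

theorem g__wQ_26_wN_1_rb80330707x7_1 : GoodKC AS k_wQ_26_wN_1_rb80330707x7_1 := p_wQ_26_wN_1_rb80330707x7_1 g__wQ_26_wN_1_rb80330707x7_2 g__wQ_26_wN_1_rb80330707x7_5

theorem g_wQ_26_wN_1_rb80330707x11 : GoodKC AS c_wQ_26_wN_1_rb80330707x11 := p_wQ_26_wN_1_rb80330707x7 g_xs_41_wQ_26_wN_1_rb8033070700x7 g__wQ_26_wN_1_rb80330707x7_0 g__wQ_26_wN_1_rb80330707x7_1

theorem g_wQ_26_wN_1_rb803307x2 : GoodKC AS c_wQ_26_wN_1_rb803307x2 := p_wQ_26_wN_1_rb803307x11 g_wQ_26_wN_1_rb80330706x11 g__wQ_26_wN_1_rb803307x11_0 g_wQ_26_wN_1_rb80330707x11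

theorem g_wN_1_rb8033x9 : GoodKC AS c_wN_1_rb8033x9 := p_wN_1_rb8033x2 g_wQ_26_wN_1_rb803309x2 g_wQ_26_wN_1_rb803308x2 g_wQ_26_wN_1_rb803305x2 g_wQ_26_wN_1_rb803304x2 g__wN_1_rb8033x2_0 g_wQ_26_wN_1_rb803303x2 g_wQ_26_wN_1_rb803306x2 g_wQ_26_wN_1_rb803307x2

theorem g_wN_1_rb802ex9 : GoodKC AS c_wN_1_rb802ex9 := p_wN_1_rb802e

theorem g__wN_1_rb802b_0 : GoodKC AS k_wN_1_rb802b_0 := p_wN_1_rb802b_0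

theorem g_wN_1_rb802bx9 : GoodKC AS c_wN_1_rb802bx9 := p_wN_1_rb802b g__wN_1_rb802b_0

theorem g__wN_1_rb802918_1 : GoodKC AS k_wN_1_rb802918_1 := p_wN_1_rb802918_1

theorem g__wN_1_rb802918_0 : GoodKC AS k_wN_1_rb802918_0 := p_wN_1_rb802918_0 g__wN_1_rb802918_1

theorem g_wN_1_rb802918 : GoodKC AS c_wN_1_rb802918 := p_wN_1_rb802918 g__wN_1_rb802918_0

theorem g_wN_1_rb802917 : GoodKC AS c_wN_1_rb802917 := p_wN_1_rb802917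

theorem g_wN_1_rb802916 : GoodKC AS c_wN_1_rb802916 := p_wN_1_rb802916

theorem g_wN_1_rb80290f : GoodKC AS c_wN_1_rb80290f := p_wN_1_rb80290f

theorem g__wN_1_rb802907_1 : GoodKC AS k_wN_1_rb802907_1 := p_wN_1_rb802907_1

theorem g__wN_1_rb802907_0 : GoodKC AS k_wN_1_rb802907_0 := p_wN_1_rb802907_0 g__wN_1_rb802907_1

theorem g__wN_1_rb802907_3 : GoodKC AS k_wN_1_rb802907_3 := p_wN_1_rb802907_3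

theorem g__wN_1_rb802907_2 : GoodKC AS k_wN_1_rb802907_2 := p_wN_1_rb802907_2 g__wN_1_rb802907_3

theorem g_wN_1_rb802907 : GoodKC AS c_wN_1_rb802907 := p_wN_1_rb802907 g__wN_1_rb802907_0 g__wN_1_rb802907_2

theorem g_wN_1_rb802906 : GoodKC AS c_wN_1_rb802906 := p_wN_1_rb802906

theorem g_wN_1_rb802904 : GoodKC AS c_wN_1_rb802904 := p_wN_1_rb802904

theorem g_wN_1_rb802903 : GoodKC AS c_wN_1_rb802903 := p_wN_1_rb802903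

theorem g_wN_1_rb802902 : GoodKC AS c_wN_1_rb802902 := p_wN_1_rb802902

theorem g_wN_1_rb802901 : GoodKC AS c_wN_1_rb802901 := p_wN_1_rb802901

theorem g_wN_1_rb802900 : GoodKC AS c_wN_1_rb802900 := p_wN_1_rb802900

theorem g__wN_1_rb8029_3 : GoodKC AS k_wN_1_rb8029_3 := p_wN_1_rb8029_3

theorem g__wN_1_rb8029_2 : GoodKC AS k_wN_1_rb8029_2 := p_wN_1_rb8029_2 g__wN_1_rb8029_3

theorem g__wN_1_rb8029_1 : GoodKC AS k_wN_1_rb8029_1 := p_wN_1_rb8029_1 g__wN_1_rb8029_2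

theorem g__wN_1_rb8029_6 : GoodKC AS k_wN_1_rb8029_6 := p_wN_1_rb8029_6

theorem g__wN_1_rb8029_7 : GoodKC AS k_wN_1_rb8029_7 := p_wN_1_rb8029_7

theorem g__wN_1_rb8029_5 : GoodKC AS k_wN_1_rb8029_5 := p_wN_1_rb8029_5 g__wN_1_rb8029_6 g__wN_1_rb8029_7

theorem g__wN_1_rb8029_4 : GoodKC AS k_wN_1_rb8029_4 := p_wN_1_rb8029_4 g__wN_1_rb8029_5

theorem g__wN_1_rb8029_0 : GoodKC AS k_wN_1_rb8029_0 := p_wN_1_rb8029_0 g__wN_1_rb8029_1 g__wN_1_rb8029_4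

theorem g__wN_1_rb8029_9 : GoodKC AS k_wN_1_rb8029_9 := p_wN_1_rb8029_9

theorem g__wN_1_rb8029_8 : GoodKC AS k_wN_1_rb8029_8 := p_wN_1_rb8029_8 g__wN_1_rb8029_9

theorem g__wN_1_rb802905_2 : GoodKC AS k_wN_1_rb802905_2 := p_wN_1_rb802905_2

theorem g__wN_1_rb802905_1 : GoodKC AS k_wN_1_rb802905_1 := p_wN_1_rb802905_1 g__wN_1_rb802905_2

theorem g__wN_1_rb802905_0 : GoodKC AS k_wN_1_rb802905_0 := p_wN_1_rb802905_0 g__wN_1_rb802905_1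

theorem g__wN_1_rb802905_3 : GoodKC AS k_wN_1_rb802905_3 := p_wN_1_rb802905_3

theorem g_wN_1_rb802905 : GoodKC AS c_wN_1_rb802905 := p_wN_1_rb802905 g__wN_1_rb802905_0 g__wN_1_rb802905_3

theorem g_wN_1_rb802908 : GoodKC AS c_wN_1_rb802908 := p_wN_1_rb802908

theorem g_wN_1_rb802909 : GoodKC AS c_wN_1_rb802909 := p_wN_1_rb802909

theorem g_wN_1_rb80290a : GoodKC AS c_wN_1_rb80290a := p_wN_1_rb80290a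

theorem g__wN_1_rb80290b_1 : GoodKC AS k_wN_1_rb80290b_1 := p_wN_1_rb80290b_1

theorem g__wN_1_rb80290b_0 : GoodKC AS k_wN_1_rb80290b_0 := p_wN_1_rb80290b_0 g__wN_1_rb80290b_1

theorem g__wN_1_rb80290b_2 : GoodKC AS k_wN_1_rb80290b_2 := p_wN_1_rb80290b_2

theorem g__wN_1_rb80290b_4 : GoodKC AS k_wN_1_rb80290b_4 := p_wN_1_rb80290b_4

theorem g__wN_1_rb80290b_3 : GoodKC AS k_wN_1_rb80290b_3 := p_wN_1_rb80290b_3 g__wN_1_rb80290b_4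

theorem g_wN_1_rb80290b : GoodKC AS c_wN_1_rb80290b := p_wN_1_rb80290b g__wN_1_rb80290b_0 g__wN_1_rb80290b_2 g__wN_1_rb80290b_3

theorem g_wN_1_rb80290c : GoodKC AS c_wN_1_rb80290c := p_wN_1_rb80290c

theorem g_wN_1_rb80290d : GoodKC AS c_wN_1_rb80290d := p_wN_1_rb80290d

theorem g_wN_1_rb80290e : GoodKC AS c_wN_1_rb80290e := p_wN_1_rb80290e

theorem g_wN_1_rb802910 : GoodKC AS c_wN_1_rb802910 := p_wN_1_rb802910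

theorem g__wN_1_rb802911_1 : GoodKC AS k_wN_1_rb802911_1 := p_wN_1_rb802911_1

theorem g__wN_1_rb802911_0 : GoodKC AS k_wN_1_rb802911_0 := p_wN_1_rb802911_0 g__wN_1_rb802911_1

theorem g_wN_1_rb802911 : GoodKC AS c_wN_1_rb802911 := p_wN_1_rb802911 g__wN_1_rb802911_0

theorem g_wN_1_rb802912 : GoodKC AS c_wN_1_rb802912 := p_wN_1_rb802912

theorem g_wN_1_rb802913 : GoodKC AS c_wN_1_rb802913 := p_wN_1_rb802913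

theorem g_wN_1_rb802914 : GoodKC AS c_wN_1_rb802914 := p_wN_1_rb802914

theorem g_wN_1_rb802915 : GoodKC AS c_wN_1_rb802915 := p_wN_1_rb802915

theorem g_wN_1_rb8029x9 : GoodKC AS c_wN_1_rb8029x9 := p_wN_1_rb8029 g_wN_1_rb802918 g_wN_1_rb802917 g_wN_1_rb802916 g_wN_1_rb80290f g_wN_1_rb802907 g_wN_1_rb802906 g_wN_1_rb802904 g_wN_1_rb802903 g_wN_1_rb802902 g_wN_1_rb802901 g_wN_1_rb802900 g__wN_1_rb8029_0 g__wN_1_rb8029_8 g_wN_1_rb802905 g_wN_1_rb802908 g_wN_1_rb802909 g_wN_1_rb80290a g_wN_1_rb80290b g_wN_1_rb80290c g_wN_1_rb80290d g_wN_1_rb80290e g_wN_1_rb802910 g_wN_1_rb802911 g_wN_1_rb802912 g_wN_1_rb802913 g_wN_1_rb802914 g_wN_1_rb802915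

theorem g_wN_1_rb8027x9 : GoodKC AS c_wN_1_rb8027x9 := p_wN_1_rb8027x1

theorem g_wN_1_rb8024x9 : GoodKC AS c_wN_1_rb8024x9 := p_wN_1_rb8024x1

theorem g_wN_1_rb8020x9 : GoodKC AS c_wN_1_rb8020x9 := p_wN_1_rb8020x1

theorem g_wN_1_rb801fx9 : GoodKC AS c_wN_1_rb801fx9 := p_wN_1_rb801fx1

theorem g__wN_1_rb801d_0 : GoodKC AS k_wN_1_rb801d_0 := p_wN_1_rb801d_0

theorem g_wN_1_rb801dx9 : GoodKC AS c_wN_1_rb801dx9 := p_wN_1_rb801d g__wN_1_rb801d_0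

theorem g_wN_1_rb801ax9 : GoodKC AS c_wN_1_rb801ax9 := p_wN_1_rb801ax1

theorem g__wN_1_rb8019_0 : GoodKC AS k_wN_1_rb8019_0 := p_wN_1_rb8019_0

theorem g__wN_1_rb8019_2 : GoodKC AS k_wN_1_rb8019_2 := p_wN_1_rb8019_2

theorem g__wN_1_rb8019_4 : GoodKC AS k_wN_1_rb8019_4 := p_wN_1_rb8019_4

theorem g__wN_1_rb8019_3 : GoodKC AS k_wN_1_rb8019_3 := p_wN_1_rb8019_3 g__wN_1_rb8019_4

theorem g__wN_1_rb8019_1 : GoodKC AS k_wN_1_rb8019_1 := p_wN_1_rb8019_1 g__wN_1_rb8019_2 g__wN_1_rb8019_3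

theorem g_wN_1_rb8019x9 : GoodKC AS c_wN_1_rb8019x9 := p_wN_1_rb8019 g__wN_1_rb8019_0 g__wN_1_rb8019_1

theorem g_wN_1_rb8018x9 : GoodKC AS c_wN_1_rb8018x9 := p_wN_1_rb8018x1

theorem g__wN_1_rb8017_1 : GoodKC AS k_wN_1_rb8017_1 := p_wN_1_rb8017_1

theorem g__wN_1_rb8017_0 : GoodKC AS k_wN_1_rb8017_0 := p_wN_1_rb8017_0 g__wN_1_rb8017_1

theorem g_wN_1_rb8017x9 : GoodKC AS c_wN_1_rb8017x9 := p_wN_1_rb8017 g__wN_1_rb8017_0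

theorem g__wN_1_rb801207_1 : GoodKC AS k_wN_1_rb801207_1 := p_wN_1_rb801207_1

theorem g__wN_1_rb801207_0 : GoodKC AS k_wN_1_rb801207_0 := p_wN_1_rb801207_0 g__wN_1_rb801207_1

theorem g_wN_1_rb801207 : GoodKC AS c_wN_1_rb801207 := p_wN_1_rb801207 g__wN_1_rb801207_0

theorem g_wN_1_rb801204 : GoodKC AS c_wN_1_rb801204 := p_wN_1_rb801204

theorem g__wN_1_rb8012_0 : GoodKC AS k_wN_1_rb8012_0 := p_wN_1_rb8012_0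

theorem g_wN_1_rb801201 : GoodKC AS c_wN_1_rb801201 := p_wN_1_rb801201

theorem g_wN_1_rb801200 : GoodKC AS c_wN_1_rb801200 := p_wN_1_rb801200

theorem g_wN_1_rb801202 : GoodKC AS c_wN_1_rb801202 := p_wN_1_rb801202

theorem g__wN_1_rb801203_3 : GoodKC AS k_wN_1_rb801203_3 := p_wN_1_rb801203_3

theorem g__wN_1_rb801203_2 : GoodKC AS k_wN_1_rb801203_2 := p_wN_1_rb801203_2 g__wN_1_rb801203_3

theorem g__wN_1_rb801203_1 : GoodKC AS k_wN_1_rb801203_1 := p_wN_1_rb801203_1 g__wN_1_rb801203_2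

theorem g__wN_1_rb801203_0 : GoodKC AS k_wN_1_rb801203_0 := p_wN_1_rb801203_0 g__wN_1_rb801203_1

theorem g_wN_1_rb801203 : GoodKC AS c_wN_1_rb801203 := p_wN_1_rb801203 g__wN_1_rb801203_0

theorem g__wN_1_rb8012_7 : GoodKC AS k_wN_1_rb8012_7 := p_wN_1_rb8012_7

theorem g__wN_1_rb8012_6 : GoodKC AS k_wN_1_rb8012_6 := p_wN_1_rb8012_6 g__wN_1_rb8012_7

theorem g__wN_1_rb8012_5 : GoodKC AS k_wN_1_rb8012_5 := p_wN_1_rb8012_5 g__wN_1_rb8012_6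

theorem g__wN_1_rb8012_4 : GoodKC AS k_wN_1_rb8012_4 := p_wN_1_rb8012_4 g__wN_1_rb8012_5

theorem g__wN_1_rb8012_3 : GoodKC AS k_wN_1_rb8012_3 := p_wN_1_rb8012_3 g__wN_1_rb8012_4

theorem g__wN_1_rb8012_2 : GoodKC AS k_wN_1_rb8012_2 := p_wN_1_rb8012_2 g__wN_1_rb8012_3

theorem g__wN_1_rb8012_1 : GoodKC AS k_wN_1_rb8012_1 := p_wN_1_rb8012_1 g__wN_1_rb8012_2

theorem g_wN_1_rb801205 : GoodKC AS c_wN_1_rb801205 := p_wN_1_rb801205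

theorem g_wN_1_rb801206 : GoodKC AS c_wN_1_rb801206 := p_wN_1_rb801206

theorem g_wN_1_rb8012x9 : GoodKC AS c_wN_1_rb8012x9 := p_wN_1_rb8012 g_wN_1_rb801207 g_wN_1_rb801204 g__wN_1_rb8012_0 g_wN_1_rb801201 g_wN_1_rb801200 g_wN_1_rb801202 g_wN_1_rb801203 g__wN_1_rb8012_1 g_wN_1_rb801205 g_wN_1_rb801206

theorem g__xs_42_wN_1_rb801001_1 : GoodKC AS k_xs_42_wN_1_rb801001_1 := p_xs_42_wN_1_rb801001_1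

theorem g__xs_42_wN_1_rb801001_4 : GoodKC AS k_xs_42_wN_1_rb801001_4 := p_xs_42_wN_1_rb801001_4

theorem g__xs_42_wN_1_rb801001_5 : GoodKC AS k_xs_42_wN_1_rb801001_5 := p_xs_42_wN_1_rb801001_5

theorem g__xs_42_wN_1_rb801001_3 : GoodKC AS k_xs_42_wN_1_rb801001_3 := p_xs_42_wN_1_rb801001_3 g__xs_42_wN_1_rb801001_4 g__xs_42_wN_1_rb801001_5

theorem g__xs_42_wN_1_rb801001_2 : GoodKC AS k_xs_42_wN_1_rb801001_2 := p_xs_42_wN_1_rb801001_2 g__xs_42_wN_1_rb801001_3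

theorem g__xs_42_wN_1_rb801001_0 : GoodKC AS k_xs_42_wN_1_rb801001_0 := p_xs_42_wN_1_rb801001_0 g__xs_42_wN_1_rb801001_1 g__xs_42_wN_1_rb801001_2

theorem g_xs_42_wN_1_rb801001x1 : GoodKC AS c_xs_42_wN_1_rb801001x1 := p_xs_42_wN_1_rb801001 g__xs_42_wN_1_rb801001_0

theorem g__wN_1_rb8010v1_6 : GoodKC AS k_wN_1_rb8010v1_6 := p_wN_1_rb8010v1_6

theorem g__wN_1_rb8010v1_5 : GoodKC AS k_wN_1_rb8010v1_5 := p_wN_1_rb8010v1_5 g__wN_1_rb8010v1_6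

theorem g__wN_1_rb8010v1_4 : GoodKC AS k_wN_1_rb8010v1_4 := p_wN_1_rb8010v1_4 g__wN_1_rb8010v1_5

theorem g__wN_1_rb8010v1_3 : GoodKC AS k_wN_1_rb8010v1_3 := p_wN_1_rb8010v1_3 g__wN_1_rb8010v1_4

theorem g__wN_1_rb8010v1_2 : GoodKC AS k_wN_1_rb8010v1_2 := p_wN_1_rb8010v1_2 g__wN_1_rb8010v1_3

theorem g__wN_1_rb8010v1_10 : GoodKC AS k_wN_1_rb8010v1_10 := p_wN_1_rb8010v1_10

theorem g__wN_1_rb8010v1_9 : GoodKC AS k_wN_1_rb8010v1_9 := p_wN_1_rb8010v1_9 g__wN_1_rb8010v1_10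

theorem g__wN_1_rb8010v1_13 : GoodKC AS k_wN_1_rb8010v1_13 := p_wN_1_rb8010v1_13

theorem g__wN_1_rb8010v1_12 : GoodKC AS k_wN_1_rb8010v1_12 := p_wN_1_rb8010v1_12 g__wN_1_rb8010v1_13

theorem g__wN_1_rb8010v1_14 : GoodKC AS k_wN_1_rb8010v1_14 := p_wN_1_rb8010v1_14

theorem g__wN_1_rb8010v1_11 : GoodKC AS k_wN_1_rb8010v1_11 := p_wN_1_rb8010v1_11 g__wN_1_rb8010v1_12 g__wN_1_rb8010v1_14

theorem g__wN_1_rb8010v1_16 : GoodKC AS k_wN_1_rb8010v1_16 := p_wN_1_rb8010v1_16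

theorem g__wN_1_rb8010v1_18 : GoodKC AS k_wN_1_rb8010v1_18 := p_wN_1_rb8010v1_18

theorem g__wN_1_rb8010v1_17 : GoodKC AS k_wN_1_rb8010v1_17 := p_wN_1_rb8010v1_17 g__wN_1_rb8010v1_18

theorem g__wN_1_rb8010v1_15 : GoodKC AS k_wN_1_rb8010v1_15 := p_wN_1_rb8010v1_15 g__wN_1_rb8010v1_16 g__wN_1_rb8010v1_17

theorem g__wN_1_rb8010v1_8 : GoodKC AS k_wN_1_rb8010v1_8 := p_wN_1_rb8010v1_8 g__wN_1_rb8010v1_9 g__wN_1_rb8010v1_11 g__wN_1_rb8010v1_15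

theorem g__wN_1_rb8010v1_7 : GoodKC AS k_wN_1_rb8010v1_7 := p_wN_1_rb8010v1_7 g__wN_1_rb8010v1_8

theorem g__wN_1_rb8010v1_19 : GoodKC AS k_wN_1_rb8010v1_19 := p_wN_1_rb8010v1_19

theorem g__wN_1_rb8010v1_1 : GoodKC AS k_wN_1_rb8010v1_1 := p_wN_1_rb8010v1_1 g__wN_1_rb8010v1_2 g__wN_1_rb8010v1_7 g__wN_1_rb8010v1_19

theorem g__wN_1_rb8010v1_22 : GoodKC AS k_wN_1_rb8010v1_22 := p_wN_1_rb8010v1_22

theorem g__wN_1_rb8010v1_25 : GoodKC AS k_wN_1_rb8010v1_25 := p_wN_1_rb8010v1_25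

theorem g__wN_1_rb8010v1_26 : GoodKC AS k_wN_1_rb8010v1_26 := p_wN_1_rb8010v1_26

theorem g__wN_1_rb8010v1_24 : GoodKC AS k_wN_1_rb8010v1_24 := p_wN_1_rb8010v1_24 g__wN_1_rb8010v1_25 g__wN_1_rb8010v1_26

theorem g__wN_1_rb8010v1_23 : GoodKC AS k_wN_1_rb8010v1_23 := p_wN_1_rb8010v1_23 g__wN_1_rb8010v1_24

theorem g__wN_1_rb8010v1_21 : GoodKC AS k_wN_1_rb8010v1_21 := p_wN_1_rb8010v1_21 g__wN_1_rb8010v1_22 g__wN_1_rb8010v1_23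

theorem g__wN_1_rb8010v1_20 : GoodKC AS k_wN_1_rb8010v1_20 := p_wN_1_rb8010v1_20 g__wN_1_rb8010v1_21

theorem g__wN_1_rb8010v1_27 : GoodKC AS k_wN_1_rb8010v1_27 := p_wN_1_rb8010v1_27

theorem g__wN_1_rb8010v1_29 : GoodKC AS k_wN_1_rb8010v1_29 := p_wN_1_rb8010v1_29

theorem g__wN_1_rb8010v1_32 : GoodKC AS k_wN_1_rb8010v1_32 := p_wN_1_rb8010v1_32

theorem g__wN_1_rb8010v1_31 : GoodKC AS k_wN_1_rb8010v1_31 := p_wN_1_rb8010v1_31 g__wN_1_rb8010v1_32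

theorem g__wN_1_rb8010v1_34 : GoodKC AS k_wN_1_rb8010v1_34 := p_wN_1_rb8010v1_34

theorem g__wN_1_rb8010v1_33 : GoodKC AS k_wN_1_rb8010v1_33 := p_wN_1_rb8010v1_33 g__wN_1_rb8010v1_34

theorem g__wN_1_rb8010v1_30 : GoodKC AS k_wN_1_rb8010v1_30 := p_wN_1_rb8010v1_30 g__wN_1_rb8010v1_31 g__wN_1_rb8010v1_33

theorem g__wN_1_rb8010v1_35 : GoodKC AS k_wN_1_rb8010v1_35 := p_wN_1_rb8010v1_35

theorem g__wN_1_rb8010v1_37 : GoodKC AS k_wN_1_rb8010v1_37 := p_wN_1_rb8010v1_37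

theorem g__wN_1_rb8010v1_36 : GoodKC AS k_wN_1_rb8010v1_36 := p_wN_1_rb8010v1_36 g__wN_1_rb8010v1_37

theorem g__wN_1_rb8010v1_28 : GoodKC AS k_wN_1_rb8010v1_28 := p_wN_1_rb8010v1_28 g__wN_1_rb8010v1_29 g__wN_1_rb8010v1_30 g__wN_1_rb8010v1_35 g__wN_1_rb8010v1_36

theorem g__xs_42_wN_1_rb801000_1 : GoodKC AS k_xs_42_wN_1_rb801000_1 := p_xs_42_wN_1_rb801000_1

theorem g__xs_42_wN_1_rb801000_4 : GoodKC AS k_xs_42_wN_1_rb801000_4 := p_xs_42_wN_1_rb801000_4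

theorem g__xs_42_wN_1_rb801000_3 : GoodKC AS k_xs_42_wN_1_rb801000_3 := p_xs_42_wN_1_rb801000_3 g__xs_42_wN_1_rb801000_4

theorem g__xs_42_wN_1_rb801000_2 : GoodKC AS k_xs_42_wN_1_rb801000_2 := p_xs_42_wN_1_rb801000_2 g__xs_42_wN_1_rb801000_3

theorem g__xs_42_wN_1_rb801000_0 : GoodKC AS k_xs_42_wN_1_rb801000_0 := p_xs_42_wN_1_rb801000_0 g__xs_42_wN_1_rb801000_1 g__xs_42_wN_1_rb801000_2

theorem g__xs_42_wN_1_rb801000_6 : GoodKC AS k_xs_42_wN_1_rb801000_6 := p_xs_42_wN_1_rb801000_6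

theorem g__xs_42_wN_1_rb801000_5 : GoodKC AS k_xs_42_wN_1_rb801000_5 := p_xs_42_wN_1_rb801000_5 g__xs_42_wN_1_rb801000_6

theorem g__xs_42_wN_1_rb801000_7 : GoodKC AS k_xs_42_wN_1_rb801000_7 := p_xs_42_wN_1_rb801000_7

theorem g__xs_42_wN_1_rb801000_10 : GoodKC AS k_xs_42_wN_1_rb801000_10 := p_xs_42_wN_1_rb801000_10

theorem g__xs_42_wN_1_rb801000_11 : GoodKC AS k_xs_42_wN_1_rb801000_11 := p_xs_42_wN_1_rb801000_11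

theorem g__xs_42_wN_1_rb801000_9 : GoodKC AS k_xs_42_wN_1_rb801000_9 := p_xs_42_wN_1_rb801000_9 g__xs_42_wN_1_rb801000_10 g__xs_42_wN_1_rb801000_11

theorem g__xs_42_wN_1_rb801000_12 : GoodKC AS k_xs_42_wN_1_rb801000_12 := p_xs_42_wN_1_rb801000_12

theorem g__xs_42_wN_1_rb801000_14 : GoodKC AS k_xs_42_wN_1_rb801000_14 := p_xs_42_wN_1_rb801000_14

theorem g__xs_42_wN_1_rb801000_15 : GoodKC AS k_xs_42_wN_1_rb801000_15 := p_xs_42_wN_1_rb801000_15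

theorem g__xs_42_wN_1_rb801000_13 : GoodKC AS k_xs_42_wN_1_rb801000_13 := p_xs_42_wN_1_rb801000_13 g__xs_42_wN_1_rb801000_14 g__xs_42_wN_1_rb801000_15

theorem g__xs_42_wN_1_rb801000_8 : GoodKC AS k_xs_42_wN_1_rb801000_8 := p_xs_42_wN_1_rb801000_8 g__xs_42_wN_1_rb801000_9 g__xs_42_wN_1_rb801000_12 g__xs_42_wN_1_rb801000_13

theorem g_xs_42_wN_1_rb801000x1 : GoodKC AS c_xs_42_wN_1_rb801000x1 := p_xs_42_wN_1_rb801000 g__xs_42_wN_1_rb801000_0 g__xs_42_wN_1_rb801000_5 g__xs_42_wN_1_rb801000_7 g__xs_42_wN_1_rb801000_8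

theorem g__wN_1_rb8010v1_0 : GoodKC AS k_wN_1_rb8010v1_0 := p_wN_1_rb8010v1_0 g_xs_42_wN_1_rb801001x1 g__wN_1_rb8010v1_1 g__wN_1_rb8010v1_20 g__wN_1_rb8010v1_27 g__wN_1_rb8010v1_28 g_xs_42_wN_1_rb801000x1

theorem g__xs_42_wN_1_rb801002_1 : GoodKC AS k_xs_42_wN_1_rb801002_1 := p_xs_42_wN_1_rb801002_1

theorem g__xs_42_wN_1_rb801002_0 : GoodKC AS k_xs_42_wN_1_rb801002_0 := p_xs_42_wN_1_rb801002_0 g__xs_42_wN_1_rb801002_1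

theorem g_xs_42_wN_1_rb801002x1 : GoodKC AS c_xs_42_wN_1_rb801002x1 := p_xs_42_wN_1_rb801002 g__xs_42_wN_1_rb801002_0

theorem g__xs_42_wN_1_rb80100300v1_4 : GoodKC AS k_xs_42_wN_1_rb80100300v1_4 := p_xs_42_wN_1_rb80100300v1_4

theorem g__xs_42_wN_1_rb80100300v1_3 : GoodKC AS k_xs_42_wN_1_rb80100300v1_3 := p_xs_42_wN_1_rb80100300v1_3 g__xs_42_wN_1_rb80100300v1_4

theorem g__xs_42_wN_1_rb80100300v1_2 : GoodKC AS k_xs_42_wN_1_rb80100300v1_2 := p_xs_42_wN_1_rb80100300v1_2 g__xs_42_wN_1_rb80100300v1_3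

theorem g__xs_42_wN_1_rb80100300v1_5 : GoodKC AS k_xs_42_wN_1_rb80100300v1_5 := p_xs_42_wN_1_rb80100300v1_5

theorem g__xs_42_wN_1_rb80100300v1_6 : GoodKC AS k_xs_42_wN_1_rb80100300v1_6 := p_xs_42_wN_1_rb80100300v1_6

theorem g__xs_42_wN_1_rb80100300v1_1 : GoodKC AS k_xs_42_wN_1_rb80100300v1_1 := p_xs_42_wN_1_rb80100300v1_1 g__xs_42_wN_1_rb80100300v1_2 g__xs_42_wN_1_rb80100300v1_5 g__xs_42_wN_1_rb80100300v1_6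

theorem g__xs_42_wN_1_rb80100300v1_9 : GoodKC AS k_xs_42_wN_1_rb80100300v1_9 := p_xs_42_wN_1_rb80100300v1_9

theorem g__xs_42_wN_1_rb80100300v1_8 : GoodKC AS k_xs_42_wN_1_rb80100300v1_8 := p_xs_42_wN_1_rb80100300v1_8 g__xs_42_wN_1_rb80100300v1_9

theorem g__xs_42_wN_1_rb80100300v1_7 : GoodKC AS k_xs_42_wN_1_rb80100300v1_7 := p_xs_42_wN_1_rb80100300v1_7 g__xs_42_wN_1_rb80100300v1_8

theorem g__xs_42_wN_1_rb80100300v1_0 : GoodKC AS k_xs_42_wN_1_rb80100300v1_0 := p_xs_42_wN_1_rb80100300v1_0 g__xs_42_wN_1_rb80100300v1_1 g__xs_42_wN_1_rb80100300v1_7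

theorem g__xs_42_wN_1_rb80100300v1_11 : GoodKC AS k_xs_42_wN_1_rb80100300v1_11 := p_xs_42_wN_1_rb80100300v1_11

theorem g__xs_42_wN_1_rb80100300v1_14 : GoodKC AS k_xs_42_wN_1_rb80100300v1_14 := p_xs_42_wN_1_rb80100300v1_14

theorem g__xs_42_wN_1_rb80100300v1_13 : GoodKC AS k_xs_42_wN_1_rb80100300v1_13 := p_xs_42_wN_1_rb80100300v1_13 g__xs_42_wN_1_rb80100300v1_14

theorem g__xs_42_wN_1_rb80100300v1_12 : GoodKC AS k_xs_42_wN_1_rb80100300v1_12 := p_xs_42_wN_1_rb80100300v1_12 g__xs_42_wN_1_rb80100300v1_13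

theorem g__xs_42_wN_1_rb80100300v1_10 : GoodKC AS k_xs_42_wN_1_rb80100300v1_10 := p_xs_42_wN_1_rb80100300v1_10 g__xs_42_wN_1_rb80100300v1_11 g__xs_42_wN_1_rb80100300v1_12

theorem g_xs_42_wN_1_rb80100300 : GoodKC AS c_xs_42_wN_1_rb80100300 := p_xs_42_wN_1_rb80100300x1 g__xs_42_wN_1_rb80100300v1_0 g__xs_42_wN_1_rb80100300v1_10

theorem g__xs_42_wN_1_rb801003_3 : GoodKC AS k_xs_42_wN_1_rb801003_3 := p_xs_42_wN_1_rb801003_3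

theorem g__xs_42_wN_1_rb801003_2 : GoodKC AS k_xs_42_wN_1_rb801003_2 := p_xs_42_wN_1_rb801003_2 g__xs_42_wN_1_rb801003_3

theorem g__xs_42_wN_1_rb801003_5 : GoodKC AS k_xs_42_wN_1_rb801003_5 := p_xs_42_wN_1_rb801003_5

theorem g__xs_42_wN_1_rb801003_7 : GoodKC AS k_xs_42_wN_1_rb801003_7 := p_xs_42_wN_1_rb801003_7

theorem g__xs_42_wN_1_rb801003_6 : GoodKC AS k_xs_42_wN_1_rb801003_6 := p_xs_42_wN_1_rb801003_6 g__xs_42_wN_1_rb801003_7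

theorem g__xs_42_wN_1_rb801003_8 : GoodKC AS k_xs_42_wN_1_rb801003_8 := p_xs_42_wN_1_rb801003_8

theorem g__xs_42_wN_1_rb801003_13 : GoodKC AS k_xs_42_wN_1_rb801003_13 := p_xs_42_wN_1_rb801003_13

theorem g__xs_42_wN_1_rb801003_12 : GoodKC AS k_xs_42_wN_1_rb801003_12 := p_xs_42_wN_1_rb801003_12 g__xs_42_wN_1_rb801003_13

theorem g__xs_42_wN_1_rb801003_11 : GoodKC AS k_xs_42_wN_1_rb801003_11 := p_xs_42_wN_1_rb801003_11 g__xs_42_wN_1_rb801003_12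

theorem g__xs_42_wN_1_rb801003_10 : GoodKC AS k_xs_42_wN_1_rb801003_10 := p_xs_42_wN_1_rb801003_10 g__xs_42_wN_1_rb801003_11

theorem g__xs_42_wN_1_rb801003_9 : GoodKC AS k_xs_42_wN_1_rb801003_9 := p_xs_42_wN_1_rb801003_9 g__xs_42_wN_1_rb801003_10

theorem g__xs_42_wN_1_rb801003_14 : GoodKC AS k_xs_42_wN_1_rb801003_14 := p_xs_42_wN_1_rb801003_14

theorem g__xs_42_wN_1_rb801003_15 : GoodKC AS k_xs_42_wN_1_rb801003_15 := p_xs_42_wN_1_rb801003_15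

theorem g__xs_42_wN_1_rb801003_4 : GoodKC AS k_xs_42_wN_1_rb801003_4 := p_xs_42_wN_1_rb801003_4 g__xs_42_wN_1_rb801003_5 g__xs_42_wN_1_rb801003_6 g__xs_42_wN_1_rb801003_8 g__xs_42_wN_1_rb801003_9 g__xs_42_wN_1_rb801003_14 g__xs_42_wN_1_rb801003_15

theorem g__xs_42_wN_1_rb801003_1 : GoodKC AS k_xs_42_wN_1_rb801003_1 := p_xs_42_wN_1_rb801003_1 g__xs_42_wN_1_rb801003_2 g__xs_42_wN_1_rb801003_4

theorem g__xs_42_wN_1_rb801003_0 : GoodKC AS k_xs_42_wN_1_rb801003_0 := p_xs_42_wN_1_rb801003_0 g__xs_42_wN_1_rb801003_1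

theorem g__xs_42_wN_1_rb801003_23 : GoodKC AS k_xs_42_wN_1_rb801003_23 := p_xs_42_wN_1_rb801003_23

theorem g__xs_42_wN_1_rb801003_24 : GoodKC AS k_xs_42_wN_1_rb801003_24 := p_xs_42_wN_1_rb801003_24

theorem g__xs_42_wN_1_rb801003_28 : GoodKC AS k_xs_42_wN_1_rb801003_28 := p_xs_42_wN_1_rb801003_28

theorem g__xs_42_wN_1_rb801003_27 : GoodKC AS k_xs_42_wN_1_rb801003_27 := p_xs_42_wN_1_rb801003_27 g__xs_42_wN_1_rb801003_28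

theorem g__xs_42_wN_1_rb801003_26 : GoodKC AS k_xs_42_wN_1_rb801003_26 := p_xs_42_wN_1_rb801003_26 g__xs_42_wN_1_rb801003_27

theorem g__xs_42_wN_1_rb801003_25 : GoodKC AS k_xs_42_wN_1_rb801003_25 := p_xs_42_wN_1_rb801003_25 g__xs_42_wN_1_rb801003_26

theorem g__xs_42_wN_1_rb801003_22 : GoodKC AS k_xs_42_wN_1_rb801003_22 := p_xs_42_wN_1_rb801003_22 g__xs_42_wN_1_rb801003_23 g__xs_42_wN_1_rb801003_24 g__xs_42_wN_1_rb801003_25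

theorem g__xs_42_wN_1_rb801003_21 : GoodKC AS k_xs_42_wN_1_rb801003_21 := p_xs_42_wN_1_rb801003_21 g__xs_42_wN_1_rb801003_22

theorem g__xs_42_wN_1_rb801003_20 : GoodKC AS k_xs_42_wN_1_rb801003_20 := p_xs_42_wN_1_rb801003_20 g__xs_42_wN_1_rb801003_21

theorem g__xs_42_wN_1_rb801003_31 : GoodKC AS k_xs_42_wN_1_rb801003_31 := p_xs_42_wN_1_rb801003_31

theorem g__xs_42_wN_1_rb801003_34 : GoodKC AS k_xs_42_wN_1_rb801003_34 := p_xs_42_wN_1_rb801003_34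

theorem g__xs_42_wN_1_rb801003_33 : GoodKC AS k_xs_42_wN_1_rb801003_33 := p_xs_42_wN_1_rb801003_33 g__xs_42_wN_1_rb801003_34

theorem g__xs_42_wN_1_rb801003_32 : GoodKC AS k_xs_42_wN_1_rb801003_32 := p_xs_42_wN_1_rb801003_32 g__xs_42_wN_1_rb801003_33

theorem g__xs_42_wN_1_rb801003_35 : GoodKC AS k_xs_42_wN_1_rb801003_35 := p_xs_42_wN_1_rb801003_35

theorem g__xs_42_wN_1_rb801003_30 : GoodKC AS k_xs_42_wN_1_rb801003_30 := p_xs_42_wN_1_rb801003_30 g__xs_42_wN_1_rb801003_31 g__xs_42_wN_1_rb801003_32 g__xs_42_wN_1_rb801003_35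

theorem g__xs_42_wN_1_rb801003_29 : GoodKC AS k_xs_42_wN_1_rb801003_29 := p_xs_42_wN_1_rb801003_29 g__xs_42_wN_1_rb801003_30

theorem g__xs_42_wN_1_rb801003_19 : GoodKC AS k_xs_42_wN_1_rb801003_19 := p_xs_42_wN_1_rb801003_19 g__xs_42_wN_1_rb801003_20 g__xs_42_wN_1_rb801003_29

theorem g__xs_42_wN_1_rb801003_18 : GoodKC AS k_xs_42_wN_1_rb801003_18 := p_xs_42_wN_1_rb801003_18 g__xs_42_wN_1_rb801003_19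

theorem g__xs_42_wN_1_rb801003_37 : GoodKC AS k_xs_42_wN_1_rb801003_37 := p_xs_42_wN_1_rb801003_37

theorem g__xs_42_wN_1_rb801003_38 : GoodKC AS k_xs_42_wN_1_rb801003_38 := p_xs_42_wN_1_rb801003_38

theorem g__xs_42_wN_1_rb801003_36 : GoodKC AS k_xs_42_wN_1_rb801003_36 := p_xs_42_wN_1_rb801003_36 g__xs_42_wN_1_rb801003_37 g__xs_42_wN_1_rb801003_38

theorem g__xs_42_wN_1_rb801003_17 : GoodKC AS k_xs_42_wN_1_rb801003_17 := p_xs_42_wN_1_rb801003_17 g__xs_42_wN_1_rb801003_18 g__xs_42_wN_1_rb801003_36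

theorem g__xs_42_wN_1_rb801003_16 : GoodKC AS k_xs_42_wN_1_rb801003_16 := p_xs_42_wN_1_rb801003_16 g__xs_42_wN_1_rb801003_17

theorem g__xs_42_wN_1_rb801003_39 : GoodKC AS k_xs_42_wN_1_rb801003_39 := p_xs_42_wN_1_rb801003_39

theorem g_xs_42_wN_1_rb801003x1 : GoodKC AS c_xs_42_wN_1_rb801003x1 := p_xs_42_wN_1_rb801003 g_xs_42_wN_1_rb80100300 g__xs_42_wN_1_rb801003_0 g__xs_42_wN_1_rb801003_16 g__xs_42_wN_1_rb801003_39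

theorem g_wN_1_rb8010x9 : GoodKC AS c_wN_1_rb8010x9 := p_wN_1_rb8010x1 g__wN_1_rb8010v1_0 g_xs_42_wN_1_rb801002x1 g_xs_42_wN_1_rb801003x1

theorem g__wN_1_rb800f_2 : GoodKC AS k_wN_1_rb800f_2 := p_wN_1_rb800f_2

theorem g__wN_1_rb800f_1 : GoodKC AS k_wN_1_rb800f_1 := p_wN_1_rb800f_1 g__wN_1_rb800f_2

theorem g__wN_1_rb800f_0 : GoodKC AS k_wN_1_rb800f_0 := p_wN_1_rb800f_0 g__wN_1_rb800f_1

theorem g_wN_1_rb800fx9 : GoodKC AS c_wN_1_rb800fx9 := p_wN_1_rb800f g__wN_1_rb800f_0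

theorem g__wN_1_rb800ex1_0 : GoodKC AS k_wN_1_rb800ex1_0 := p_wN_1_rb800ex1_0

theorem g_wN_1_rb800ex9 : GoodKC AS c_wN_1_rb800ex9 := p_wN_1_rb800ex1 g__wN_1_rb800ex1_0

theorem g__wN_1_rb800d_1 : GoodKC AS k_wN_1_rb800d_1 := p_wN_1_rb800d_1

theorem g__wN_1_rb800d_0 : GoodKC AS k_wN_1_rb800d_0 := p_wN_1_rb800d_0 g__wN_1_rb800d_1

theorem g__wN_1_rb800d_2 : GoodKC AS k_wN_1_rb800d_2 := p_wN_1_rb800d_2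

theorem g__wN_1_rb800d_3 : GoodKC AS k_wN_1_rb800d_3 := p_wN_1_rb800d_3

theorem g_wN_1_rb800dx9 : GoodKC AS c_wN_1_rb800dx9 := p_wN_1_rb800d g__wN_1_rb800d_0 g__wN_1_rb800d_2 g__wN_1_rb800d_3

theorem g__wN_1_rb800cx4_1 : GoodKC AS k_wN_1_rb800cx4_1 := p_wN_1_rb800cx4_1

theorem g__wN_1_rb800cx4_3 : GoodKC AS k_wN_1_rb800cx4_3 := p_wN_1_rb800cx4_3

theorem g__wN_1_rb800cx4_2 : GoodKC AS k_wN_1_rb800cx4_2 := p_wN_1_rb800cx4_2 g__wN_1_rb800cx4_3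

theorem g__wN_1_rb800cx4_0 : GoodKC AS k_wN_1_rb800cx4_0 := p_wN_1_rb800cx4_0 g__wN_1_rb800cx4_1 g__wN_1_rb800cx4_2

theorem g__wN_1_rb800cx4_4 : GoodKC AS k_wN_1_rb800cx4_4 := p_wN_1_rb800cx4_4

theorem g__wN_1_rb800cx4_5 : GoodKC AS k_wN_1_rb800cx4_5 := p_wN_1_rb800cx4_5

theorem g_wN_1_rb800cx9 : GoodKC AS c_wN_1_rb800cx9 := p_wN_1_rb800cx4 g__wN_1_rb800cx4_0 g__wN_1_rb800cx4_4 g__wN_1_rb800cx4_5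

theorem g__wN_1_rb800b_1 : GoodKC AS k_wN_1_rb800b_1 := p_wN_1_rb800b_1

theorem g__wN_1_rb800b_0 : GoodKC AS k_wN_1_rb800b_0 := p_wN_1_rb800b_0 g__wN_1_rb800b_1

theorem g_wN_1_rb800bx9 : GoodKC AS c_wN_1_rb800bx9 := p_wN_1_rb800b g__wN_1_rb800b_0

theorem g__rb80v9_3 : GoodKC AS k_rb80v9_3 := p_rb80v9_3

theorem g__rb80v9_2 : GoodKC AS k_rb80v9_2 := p_rb80v9_2 g__rb80v9_3

theorem g__rb80v9_5 : GoodKC AS k_rb80v9_5 := p_rb80v9_5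

theorem g__rb80v9_4 : GoodKC AS k_rb80v9_4 := p_rb80v9_4 g__rb80v9_5

theorem g__rb80v9_8 : GoodKC AS k_rb80v9_8 := p_rb80v9_8

theorem g__rb80v9_7 : GoodKC AS k_rb80v9_7 := p_rb80v9_7 g__rb80v9_8

theorem g__rb80v9_9 : GoodKC AS k_rb80v9_9 := p_rb80v9_9

theorem g__rb80v9_16 : GoodKC AS k_rb80v9_16 := p_rb80v9_16

theorem g__rb80v9_17 : GoodKC AS k_rb80v9_17 := p_rb80v9_17

theorem g__rb80v9_15 : GoodKC AS k_rb80v9_15 := p_rb80v9_15 g__rb80v9_16 g__rb80v9_17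

theorem g__rb80v9_14 : GoodKC AS k_rb80v9_14 := p_rb80v9_14 g__rb80v9_15

theorem g__rb80v9_13 : GoodKC AS k_rb80v9_13 := p_rb80v9_13 g__rb80v9_14

theorem g__rb80v9_12 : GoodKC AS k_rb80v9_12 := p_rb80v9_12 g__rb80v9_13

theorem g__rb80v9_11 : GoodKC AS k_rb80v9_11 := p_rb80v9_11 g__rb80v9_12

theorem g__rb80v9_24 : GoodKC AS k_rb80v9_24 := p_rb80v9_24

theorem g__rb80v9_23 : GoodKC AS k_rb80v9_23 := p_rb80v9_23 g__rb80v9_24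

theorem g__rb80v9_26 : GoodKC AS k_rb80v9_26 := p_rb80v9_26

theorem g__rb80v9_25 : GoodKC AS k_rb80v9_25 := p_rb80v9_25 g__rb80v9_26

theorem g__rb80v9_22 : GoodKC AS k_rb80v9_22 := p_rb80v9_22 g__rb80v9_23 g__rb80v9_25

theorem g__rb80v9_21 : GoodKC AS k_rb80v9_21 := p_rb80v9_21 g__rb80v9_22

theorem g__rb80v9_20 : GoodKC AS k_rb80v9_20 := p_rb80v9_20 g__rb80v9_21

theorem g__rb80v9_19 : GoodKC AS k_rb80v9_19 := p_rb80v9_19 g__rb80v9_20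

theorem g__rb80v9_27 : GoodKC AS k_rb80v9_27 := p_rb80v9_27

theorem g__rb80v9_18 : GoodKC AS k_rb80v9_18 := p_rb80v9_18 g__rb80v9_19 g__rb80v9_27

theorem g__rb80v9_10 : GoodKC AS k_rb80v9_10 := p_rb80v9_10 g__rb80v9_11 g__rb80v9_18

theorem g__wN_1_rb8000v1_0 : GoodKC AS k_wN_1_rb8000v1_0 := p_wN_1_rb8000v1_0

theorem g__wN_1_rb8000v1_1 : GoodKC AS k_wN_1_rb8000v1_1 := p_wN_1_rb8000v1_1

theorem g_wN_1_rb8000x9 : GoodKC AS c_wN_1_rb8000x9 := p_wN_1_rb8000x1 g__wN_1_rb8000v1_0 g__wN_1_rb8000v1_1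

theorem g__rb80v9_6 : GoodKC AS k_rb80v9_6 := p_rb80v9_6 g__rb80v9_7 g__rb80v9_9 g__rb80v9_10 g_wN_1_rb8000x9

theorem g__rb80v9_1 : GoodKC AS k_rb80v9_1 := p_rb80v9_1 g__rb80v9_2 g__rb80v9_4 g__rb80v9_6

theorem g__rb80v9_0 : GoodKC AS k_rb80v9_0 := p_rb80v9_0 g__rb80v9_1

theorem g_wN_1_rb800ax9 : GoodKC AS c_wN_1_rb800ax9 := p_wN_1_rb800ax1

theorem g_wN_1_rb8009x9 : GoodKC AS c_wN_1_rb8009x9 := p_wN_1_rb8009x1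

theorem g_wN_1_rb8008x9 : GoodKC AS c_wN_1_rb8008x9 := p_wN_1_rb8008x1

theorem g__rb80v9_29 : GoodKC AS k_rb80v9_29 := p_rb80v9_29

theorem g__rb80v9_28 : GoodKC AS k_rb80v9_28 := p_rb80v9_28 g__rb80v9_29

theorem g_wN_1_rb8006x9 : GoodKC AS c_wN_1_rb8006x9 := p_wN_1_rb8006x1

theorem g_wN_1_rb8004x9 : GoodKC AS c_wN_1_rb8004x9 := p_wN_1_rb8004x1

theorem g_wN_1_rb8001x9 : GoodKC AS c_wN_1_rb8001x9 := p_wN_1_rb8001x1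

theorem g_wN_1_rb8002x9 : GoodKC AS c_wN_1_rb8002x9 := p_wN_1_rb8002x1

theorem g_wN_1_rb8003x9 : GoodKC AS c_wN_1_rb8003x9 := p_wN_1_rb8003x1

theorem g_wN_1_rb8005x9 : GoodKC AS c_wN_1_rb8005x9 := p_wN_1_rb8005x1

theorem g_wN_1_rb8007x9 : GoodKC AS c_wN_1_rb8007x9 := p_wN_1_rb8007x1

theorem g__wN_1_rb8011x1_0 : GoodKC AS k_wN_1_rb8011x1_0 := p_wN_1_rb8011x1_0

theorem g_wN_1_rb8011x9 : GoodKC AS c_wN_1_rb8011x9 := p_wN_1_rb8011x1 g__wN_1_rb8011x1_0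

theorem g_wN_1_rb8013x9 : GoodKC AS c_wN_1_rb8013x9 := p_wN_1_rb8013x1

theorem g__wN_1_rb8014_2 : GoodKC AS k_wN_1_rb8014_2 := p_wN_1_rb8014_2

theorem g__wN_1_rb8014_1 : GoodKC AS k_wN_1_rb8014_1 := p_wN_1_rb8014_1 g__wN_1_rb8014_2

theorem g__wN_1_rb8014_0 : GoodKC AS k_wN_1_rb8014_0 := p_wN_1_rb8014_0 g__wN_1_rb8014_1

theorem g__wN_1_rb8014_3 : GoodKC AS k_wN_1_rb8014_3 := p_wN_1_rb8014_3

theorem g__wN_1_rb8014_4 : GoodKC AS k_wN_1_rb8014_4 := p_wN_1_rb8014_4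

theorem g_wN_1_rb8014x9 : GoodKC AS c_wN_1_rb8014x9 := p_wN_1_rb8014 g__wN_1_rb8014_0 g__wN_1_rb8014_3 g__wN_1_rb8014_4

theorem g__wN_1_rb8015_1 : GoodKC AS k_wN_1_rb8015_1 := p_wN_1_rb8015_1

theorem g__wN_1_rb8015_3 : GoodKC AS k_wN_1_rb8015_3 := p_wN_1_rb8015_3

theorem g__wN_1_rb8015_2 : GoodKC AS k_wN_1_rb8015_2 := p_wN_1_rb8015_2 g__wN_1_rb8015_3

theorem g__wN_1_rb8015_4 : GoodKC AS k_wN_1_rb8015_4 := p_wN_1_rb8015_4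

theorem g__wN_1_rb8015_6 : GoodKC AS k_wN_1_rb8015_6 := p_wN_1_rb8015_6

theorem g__wN_1_rb8015_5 : GoodKC AS k_wN_1_rb8015_5 := p_wN_1_rb8015_5 g__wN_1_rb8015_6

theorem g__wN_1_rb8015_0 : GoodKC AS k_wN_1_rb8015_0 := p_wN_1_rb8015_0 g__wN_1_rb8015_1 g__wN_1_rb8015_2 g__wN_1_rb8015_4 g__wN_1_rb8015_5

theorem g_wN_1_rb8015x9 : GoodKC AS c_wN_1_rb8015x9 := p_wN_1_rb8015 g__wN_1_rb8015_0

theorem g_wN_1_rb8016x9 : GoodKC AS c_wN_1_rb8016x9 := p_wN_1_rb8016x1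

theorem g_wN_1_rb801bx9 : GoodKC AS c_wN_1_rb801bx9 := p_wN_1_rb801bx1

theorem g__wN_1_rb801cx1_0 : GoodKC AS k_wN_1_rb801cx1_0 := p_wN_1_rb801cx1_0

theorem g_wN_1_rb801cx9 : GoodKC AS c_wN_1_rb801cx9 := p_wN_1_rb801cx1 g__wN_1_rb801cx1_0

theorem g_wN_1_rb801ex9 : GoodKC AS c_wN_1_rb801ex9 := p_wN_1_rb801ex1

theorem g_wN_1_rb8021x9 : GoodKC AS c_wN_1_rb8021x9 := p_wN_1_rb8021x1

theorem g__wN_1_rb8022_0 : GoodKC AS k_wN_1_rb8022_0 := p_wN_1_rb8022_0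

theorem g_wN_1_rb8022x9 : GoodKC AS c_wN_1_rb8022x9 := p_wN_1_rb8022 g__wN_1_rb8022_0

theorem g_wN_1_rb8023x9 : GoodKC AS c_wN_1_rb8023x9 := p_wN_1_rb8023x1

theorem g_wN_1_rb8025x9 : GoodKC AS c_wN_1_rb8025x9 := p_wN_1_rb8025x1

theorem g__wN_1_rb8026_0 : GoodKC AS k_wN_1_rb8026_0 := p_wN_1_rb8026_0

theorem g_wN_1_rb8026x9 : GoodKC AS c_wN_1_rb8026x9 := p_wN_1_rb8026 g__wN_1_rb8026_0

theorem g_wN_1_rb8028x9 : GoodKC AS c_wN_1_rb8028x9 := p_wN_1_rb8028x1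

theorem g_wN_1_rb802ax9 : GoodKC AS c_wN_1_rb802ax9 := p_wN_1_rb802ax1

theorem g_wN_1_rb802cx9 : GoodKC AS c_wN_1_rb802cx9 := p_wN_1_rb802c

theorem g_wN_1_rb802dx9 : GoodKC AS c_wN_1_rb802dx9 := p_wN_1_rb802d

theorem g_wN_1_rb802f2cx3 : GoodKC AS c_wN_1_rb802f2cx3 := p_wN_1_rb802f2cx1

theorem g_wN_1_rb802f2bx3 : GoodKC AS c_wN_1_rb802f2bx3 := p_wN_1_rb802f2bx1

theorem g__wN_1_rb802f2ax1_0 : GoodKC AS k_wN_1_rb802f2ax1_0 := p_wN_1_rb802f2ax1_0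

theorem g_wN_1_rb802f2ax3 : GoodKC AS c_wN_1_rb802f2ax3 := p_wN_1_rb802f2ax1 g__wN_1_rb802f2ax1_0

theorem g_wN_1_rb802f28x3 : GoodKC AS c_wN_1_rb802f28x3 := p_wN_1_rb802f28x1

theorem g_wN_1_rb802f27x3 : GoodKC AS c_wN_1_rb802f27x3 := p_wN_1_rb802f27x1

theorem g_wN_1_rb802f26x3 : GoodKC AS c_wN_1_rb802f26x3 := p_wN_1_rb802f26x1

theorem g_wN_1_rb802f24x3 : GoodKC AS c_wN_1_rb802f24x3 := p_wN_1_rb802f24x1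

theorem g_wN_1_rb802f23x3 : GoodKC AS c_wN_1_rb802f23x3 := p_wN_1_rb802f23x1

theorem g__wN_1_rb802f2202x2_0 : GoodKC AS k_wN_1_rb802f2202x2_0 := p_wN_1_rb802f2202x2_0

theorem g__wN_1_rb802f2202x2_1 : GoodKC AS k_wN_1_rb802f2202x2_1 := p_wN_1_rb802f2202x2_1

theorem g__wN_1_rb802f2202x2_4 : GoodKC AS k_wN_1_rb802f2202x2_4 := p_wN_1_rb802f2202x2_4

theorem g__wN_1_rb802f2202x2_3 : GoodKC AS k_wN_1_rb802f2202x2_3 := p_wN_1_rb802f2202x2_3 g__wN_1_rb802f2202x2_4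

theorem g__wN_1_rb802f2202x2_2 : GoodKC AS k_wN_1_rb802f2202x2_2 := p_wN_1_rb802f2202x2_2 g__wN_1_rb802f2202x2_3

theorem g_wN_1_rb802f2202x1 : GoodKC AS c_wN_1_rb802f2202x1 := p_wN_1_rb802f2202x2 g__wN_1_rb802f2202x2_0 g__wN_1_rb802f2202x2_1 g__wN_1_rb802f2202x2_2

theorem g__wN_1_rb802f2201x1_1 : GoodKC AS k_wN_1_rb802f2201x1_1 := p_wN_1_rb802f2201x1_1

theorem g__wN_1_rb802f2201x1_0 : GoodKC AS k_wN_1_rb802f2201x1_0 := p_wN_1_rb802f2201x1_0 g__wN_1_rb802f2201x1_1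

theorem g_wN_1_rb802f2201x1 : GoodKC AS c_wN_1_rb802f2201x1 := p_wN_1_rb802f2201x1 g__wN_1_rb802f2201x1_0

theorem g__wN_1_rb802f2200v2_0 : GoodKC AS k_wN_1_rb802f2200v2_0 := p_wN_1_rb802f2200v2_0

theorem g_wN_1_rb802f2200x1 : GoodKC AS c_wN_1_rb802f2200x1 := p_wN_1_rb802f2200x2 g__wN_1_rb802f2200v2_0

theorem g__wN_1_rb802f22x1_0 : GoodKC AS k_wN_1_rb802f22x1_0 := p_wN_1_rb802f22x1_0

theorem g__wN_1_rb802f22x1_1 : GoodKC AS k_wN_1_rb802f22x1_1 := p_wN_1_rb802f22x1_1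

theorem g__wN_1_rb802f22x1_6 : GoodKC AS k_wN_1_rb802f22x1_6 := p_wN_1_rb802f22x1_6

theorem g__wN_1_rb802f22x1_5 : GoodKC AS k_wN_1_rb802f22x1_5 := p_wN_1_rb802f22x1_5 g__wN_1_rb802f22x1_6

theorem g__wN_1_rb802f22x1_4 : GoodKC AS k_wN_1_rb802f22x1_4 := p_wN_1_rb802f22x1_4 g__wN_1_rb802f22x1_5

theorem g__wN_1_rb802f22x1_3 : GoodKC AS k_wN_1_rb802f22x1_3 := p_wN_1_rb802f22x1_3 g__wN_1_rb802f22x1_4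

theorem g__wN_1_rb802f22x1_8 : GoodKC AS k_wN_1_rb802f22x1_8 := p_wN_1_rb802f22x1_8

theorem g__wN_1_rb802f22x1_7 : GoodKC AS k_wN_1_rb802f22x1_7 := p_wN_1_rb802f22x1_7 g__wN_1_rb802f22x1_8

theorem g__wN_1_rb802f22x1_9 : GoodKC AS k_wN_1_rb802f22x1_9 := p_wN_1_rb802f22x1_9

theorem g__wN_1_rb802f22x1_2 : GoodKC AS k_wN_1_rb802f22x1_2 := p_wN_1_rb802f22x1_2 g__wN_1_rb802f22x1_3 g__wN_1_rb802f22x1_7 g__wN_1_rb802f22x1_9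

theorem g__wN_1_rb802f2203x2_0 : GoodKC AS k_wN_1_rb802f2203x2_0 := p_wN_1_rb802f2203x2_0

theorem g__wN_1_rb802f2203x2_1 : GoodKC AS k_wN_1_rb802f2203x2_1 := p_wN_1_rb802f2203x2_1

theorem g_wN_1_rb802f2203x1 : GoodKC AS c_wN_1_rb802f2203x1 := p_wN_1_rb802f2203x2 g__wN_1_rb802f2203x2_0 g__wN_1_rb802f2203x2_1

theorem g__wN_1_rb802f2204x2_1 : GoodKC AS k_wN_1_rb802f2204x2_1 := p_wN_1_rb802f2204x2_1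

theorem g__wN_1_rb802f2204x2_0 : GoodKC AS k_wN_1_rb802f2204x2_0 := p_wN_1_rb802f2204x2_0 g__wN_1_rb802f2204x2_1

theorem g__wN_1_rb802f2204x2_4 : GoodKC AS k_wN_1_rb802f2204x2_4 := p_wN_1_rb802f2204x2_4

theorem g__wN_1_rb802f2204x2_3 : GoodKC AS k_wN_1_rb802f2204x2_3 := p_wN_1_rb802f2204x2_3 g__wN_1_rb802f2204x2_4

theorem g__wN_1_rb802f2204x2_6 : GoodKC AS k_wN_1_rb802f2204x2_6 := p_wN_1_rb802f2204x2_6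

theorem g__wN_1_rb802f2204x2_7 : GoodKC AS k_wN_1_rb802f2204x2_7 := p_wN_1_rb802f2204x2_7

theorem g__wN_1_rb802f2204x2_5 : GoodKC AS k_wN_1_rb802f2204x2_5 := p_wN_1_rb802f2204x2_5 g__wN_1_rb802f2204x2_6 g__wN_1_rb802f2204x2_7

theorem g__wN_1_rb802f2204x2_2 : GoodKC AS k_wN_1_rb802f2204x2_2 := p_wN_1_rb802f2204x2_2 g__wN_1_rb802f2204x2_3 g__wN_1_rb802f2204x2_5

theorem g_wN_1_rb802f2204x1 : GoodKC AS c_wN_1_rb802f2204x1 := p_wN_1_rb802f2204x2 g__wN_1_rb802f2204x2_0 g__wN_1_rb802f2204x2_2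

theorem g__wN_1_rb802f2205x1_2 : GoodKC AS k_wN_1_rb802f2205x1_2 := p_wN_1_rb802f2205x1_2

theorem g__wN_1_rb802f2205x1_4 : GoodKC AS k_wN_1_rb802f2205x1_4 := p_wN_1_rb802f2205x1_4

theorem g__wN_1_rb802f2205x1_6 : GoodKC AS k_wN_1_rb802f2205x1_6 := p_wN_1_rb802f2205x1_6

theorem g__wN_1_rb802f2205x1_5 : GoodKC AS k_wN_1_rb802f2205x1_5 := p_wN_1_rb802f2205x1_5 g__wN_1_rb802f2205x1_6

theorem g__wN_1_rb802f2205x1_3 : GoodKC AS k_wN_1_rb802f2205x1_3 := p_wN_1_rb802f2205x1_3 g__wN_1_rb802f2205x1_4 g__wN_1_rb802f2205x1_5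

theorem g__wN_1_rb802f2205x1_1 : GoodKC AS k_wN_1_rb802f2205x1_1 := p_wN_1_rb802f2205x1_1 g__wN_1_rb802f2205x1_2 g__wN_1_rb802f2205x1_3

theorem g__wN_1_rb802f2205x1_8 : GoodKC AS k_wN_1_rb802f2205x1_8 := p_wN_1_rb802f2205x1_8

theorem g__wN_1_rb802f2205x1_7 : GoodKC AS k_wN_1_rb802f2205x1_7 := p_wN_1_rb802f2205x1_7 g__wN_1_rb802f2205x1_8

theorem g__wN_1_rb802f2205x1_9 : GoodKC AS k_wN_1_rb802f2205x1_9 := p_wN_1_rb802f2205x1_9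

theorem g__wN_1_rb802f2205x1_10 : GoodKC AS k_wN_1_rb802f2205x1_10 := p_wN_1_rb802f2205x1_10

theorem g__wN_1_rb802f2205x1_0 : GoodKC AS k_wN_1_rb802f2205x1_0 := p_wN_1_rb802f2205x1_0 g__wN_1_rb802f2205x1_1 g__wN_1_rb802f2205x1_7 g__wN_1_rb802f2205x1_9 g__wN_1_rb802f2205x1_10

theorem g_wN_1_rb802f2205x1 : GoodKC AS c_wN_1_rb802f2205x1 := p_wN_1_rb802f2205x1 g__wN_1_rb802f2205x1_0

theorem g_wN_1_rb802f22x3 : GoodKC AS c_wN_1_rb802f22x3 := p_wN_1_rb802f22x1 g_wN_1_rb802f2202x1 g_wN_1_rb802f2201x1 g_wN_1_rb802f2200x1 g__wN_1_rb802f22x1_0 g__wN_1_rb802f22x1_1 g__wN_1_rb802f22x1_2 g_wN_1_rb802f2203x1 g_wN_1_rb802f2204x1 g_wN_1_rb802f2205x1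

theorem g_wN_1_rb802f1fx3 : GoodKC AS c_wN_1_rb802f1fx3 := p_wN_1_rb802f1fx1

theorem g_wN_1_rb802f1dx3 : GoodKC AS c_wN_1_rb802f1dx3 := p_wN_1_rb802f1dx1

theorem g_wN_1_rb802f1cx3 : GoodKC AS c_wN_1_rb802f1cx3 := p_wN_1_rb802f1cx1

theorem g_wN_1_rb802f1bx3 : GoodKC AS c_wN_1_rb802f1bx3 := p_wN_1_rb802f1bx1

theorem g_wN_1_rb802f1ax3 : GoodKC AS c_wN_1_rb802f1ax3 := p_wN_1_rb802f1ax1

theorem g_wN_1_rb802f19x3 : GoodKC AS c_wN_1_rb802f19x3 := p_wN_1_rb802f19x1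

theorem g_wN_1_rb802f16x3 : GoodKC AS c_wN_1_rb802f16x3 := p_wN_1_rb802f16x1

theorem g_wN_1_rb802f14x3 : GoodKC AS c_wN_1_rb802f14x3 := p_wN_1_rb802f14x1

theorem g_wN_1_rb802f12x3 : GoodKC AS c_wN_1_rb802f12x3 := p_wN_1_rb802f12x1

theorem g__wN_1_rb802f11x1_0 : GoodKC AS k_wN_1_rb802f11x1_0 := p_wN_1_rb802f11x1_0

theorem g_wN_1_rb802f11x3 : GoodKC AS c_wN_1_rb802f11x3 := p_wN_1_rb802f11x1 g__wN_1_rb802f11x1_0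

theorem g_wN_1_rb802f0fx3 : GoodKC AS c_wN_1_rb802f0fx3 := p_wN_1_rb802f0fx4

theorem g_wN_1_rb802f0ex3 : GoodKC AS c_wN_1_rb802f0ex3 := p_wN_1_rb802f0ex4

theorem g_wN_1_rb802f0cx3 : GoodKC AS c_wN_1_rb802f0cx3 := p_wN_1_rb802f0cx1

theorem g_wN_1_rb802f0bx3 : GoodKC AS c_wN_1_rb802f0bx3 := p_wN_1_rb802f0bx1

theorem g__wN_1_rb802f0ax1_4 : GoodKC AS k_wN_1_rb802f0ax1_4 := p_wN_1_rb802f0ax1_4

theorem g__wN_1_rb802f0ax1_5 : GoodKC AS k_wN_1_rb802f0ax1_5 := p_wN_1_rb802f0ax1_5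

theorem g__wN_1_rb802f0ax1_3 : GoodKC AS k_wN_1_rb802f0ax1_3 := p_wN_1_rb802f0ax1_3 g__wN_1_rb802f0ax1_4 g__wN_1_rb802f0ax1_5

theorem g__wN_1_rb802f0ax1_2 : GoodKC AS k_wN_1_rb802f0ax1_2 := p_wN_1_rb802f0ax1_2 g__wN_1_rb802f0ax1_3

theorem g__wN_1_rb802f0ax1_1 : GoodKC AS k_wN_1_rb802f0ax1_1 := p_wN_1_rb802f0ax1_1 g__wN_1_rb802f0ax1_2

theorem g__wN_1_rb802f0ax1_0 : GoodKC AS k_wN_1_rb802f0ax1_0 := p_wN_1_rb802f0ax1_0 g__wN_1_rb802f0ax1_1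

theorem g_wN_1_rb802f0ax3 : GoodKC AS c_wN_1_rb802f0ax3 := p_wN_1_rb802f0ax1 g__wN_1_rb802f0ax1_0

theorem g__wN_1_rb802f09x1_4 : GoodKC AS k_wN_1_rb802f09x1_4 := p_wN_1_rb802f09x1_4

theorem g__wN_1_rb802f09x1_3 : GoodKC AS k_wN_1_rb802f09x1_3 := p_wN_1_rb802f09x1_3 g__wN_1_rb802f09x1_4

theorem g__wN_1_rb802f09x1_2 : GoodKC AS k_wN_1_rb802f09x1_2 := p_wN_1_rb802f09x1_2 g__wN_1_rb802f09x1_3

theorem g__wN_1_rb802f09x1_1 : GoodKC AS k_wN_1_rb802f09x1_1 := p_wN_1_rb802f09x1_1 g__wN_1_rb802f09x1_2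

theorem g__wN_1_rb802f09x1_10 : GoodKC AS k_wN_1_rb802f09x1_10 := p_wN_1_rb802f09x1_10

theorem g__wN_1_rb802f09x1_9 : GoodKC AS k_wN_1_rb802f09x1_9 := p_wN_1_rb802f09x1_9 g__wN_1_rb802f09x1_10

theorem g__wN_1_rb802f09x1_8 : GoodKC AS k_wN_1_rb802f09x1_8 := p_wN_1_rb802f09x1_8 g__wN_1_rb802f09x1_9

theorem g__wN_1_rb802f09x1_7 : GoodKC AS k_wN_1_rb802f09x1_7 := p_wN_1_rb802f09x1_7 g__wN_1_rb802f09x1_8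

theorem g__wN_1_rb802f09x1_6 : GoodKC AS k_wN_1_rb802f09x1_6 := p_wN_1_rb802f09x1_6 g__wN_1_rb802f09x1_7

theorem g__wN_1_rb802f09x1_5 : GoodKC AS k_wN_1_rb802f09x1_5 := p_wN_1_rb802f09x1_5 g__wN_1_rb802f09x1_6

theorem g__wN_1_rb802f09x1_11 : GoodKC AS k_wN_1_rb802f09x1_11 := p_wN_1_rb802f09x1_11

theorem g__wN_1_rb802f09x1_0 : GoodKC AS k_wN_1_rb802f09x1_0 := p_wN_1_rb802f09x1_0 g__wN_1_rb802f09x1_1 g__wN_1_rb802f09x1_5 g__wN_1_rb802f09x1_11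

theorem g__wN_1_rb802f09x1_12 : GoodKC AS k_wN_1_rb802f09x1_12 := p_wN_1_rb802f09x1_12

theorem g__wN_1_rb802f09x1_13 : GoodKC AS k_wN_1_rb802f09x1_13 := p_wN_1_rb802f09x1_13

theorem g_wN_1_rb802f09x3 : GoodKC AS c_wN_1_rb802f09x3 := p_wN_1_rb802f09x1 g__wN_1_rb802f09x1_0 g__wN_1_rb802f09x1_12 g__wN_1_rb802f09x1_13

theorem g_wN_1_rb802f05x3 : GoodKC AS c_wN_1_rb802f05x3 := p_wN_1_rb802f05x1

theorem g_wN_1_rb802f03x3 : GoodKC AS c_wN_1_rb802f03x3 := p_wN_1_rb802f03x1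

theorem g_wN_1_rb802f01x3 : GoodKC AS c_wN_1_rb802f01x3 := p_wN_1_rb802f01x1

theorem g_wN_1_rb802f00x3 : GoodKC AS c_wN_1_rb802f00x3 := p_wN_1_rb802f00x1

theorem g__wN_1_rb802fx3_2 : GoodKC AS k_wN_1_rb802fx3_2 := p_wN_1_rb802fx3_2

theorem g__wN_1_rb802fx3_4 : GoodKC AS k_wN_1_rb802fx3_4 := p_wN_1_rb802fx3_4

theorem g__wN_1_rb802fx3_6 : GoodKC AS k_wN_1_rb802fx3_6 := p_wN_1_rb802fx3_6

theorem g__wN_1_rb802fx3_7 : GoodKC AS k_wN_1_rb802fx3_7 := p_wN_1_rb802fx3_7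

theorem g__wN_1_rb802fx3_5 : GoodKC AS k_wN_1_rb802fx3_5 := p_wN_1_rb802fx3_5 g__wN_1_rb802fx3_6 g__wN_1_rb802fx3_7

theorem g__wN_1_rb802fx3_3 : GoodKC AS k_wN_1_rb802fx3_3 := p_wN_1_rb802fx3_3 g__wN_1_rb802fx3_4 g__wN_1_rb802fx3_5

theorem g__wN_1_rb802fx3_11 : GoodKC AS k_wN_1_rb802fx3_11 := p_wN_1_rb802fx3_11

theorem g__wN_1_rb802fx3_10 : GoodKC AS k_wN_1_rb802fx3_10 := p_wN_1_rb802fx3_10 g__wN_1_rb802fx3_11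

theorem g__wN_1_rb802fx3_9 : GoodKC AS k_wN_1_rb802fx3_9 := p_wN_1_rb802fx3_9 g__wN_1_rb802fx3_10

theorem g__wN_1_rb802fx3_8 : GoodKC AS k_wN_1_rb802fx3_8 := p_wN_1_rb802fx3_8 g__wN_1_rb802fx3_9

theorem g__wN_1_rb802fx3_12 : GoodKC AS k_wN_1_rb802fx3_12 := p_wN_1_rb802fx3_12

theorem g__wN_1_rb802fx3_1 : GoodKC AS k_wN_1_rb802fx3_1 := p_wN_1_rb802fx3_1 g__wN_1_rb802fx3_2 g__wN_1_rb802fx3_3 g__wN_1_rb802fx3_8 g__wN_1_rb802fx3_12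

theorem g__wN_1_rb802fx3_0 : GoodKC AS k_wN_1_rb802fx3_0 := p_wN_1_rb802fx3_0 g__wN_1_rb802fx3_1

theorem g_wN_1_rb802f02x3 : GoodKC AS c_wN_1_rb802f02x3 := p_wN_1_rb802f02x1

theorem g_wN_1_rb802f04x3 : GoodKC AS c_wN_1_rb802f04x3 := p_wN_1_rb802f04x1

theorem g_wN_1_rb802f06x3 : GoodKC AS c_wN_1_rb802f06x3 := p_wN_1_rb802f06x1

theorem g_wN_1_rb802f07x3 : GoodKC AS c_wN_1_rb802f07x3 := p_wN_1_rb802f07x1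

theorem g__wN_1_rb802f08x1_1 : GoodKC AS k_wN_1_rb802f08x1_1 := p_wN_1_rb802f08x1_1

theorem g__wN_1_rb802f08x1_2 : GoodKC AS k_wN_1_rb802f08x1_2 := p_wN_1_rb802f08x1_2

theorem g__wN_1_rb802f08x1_3 : GoodKC AS k_wN_1_rb802f08x1_3 := p_wN_1_rb802f08x1_3

theorem g__wN_1_rb802f08x1_0 : GoodKC AS k_wN_1_rb802f08x1_0 := p_wN_1_rb802f08x1_0 g__wN_1_rb802f08x1_1 g__wN_1_rb802f08x1_2 g__wN_1_rb802f08x1_3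

theorem g_wN_1_rb802f08x3 : GoodKC AS c_wN_1_rb802f08x3 := p_wN_1_rb802f08x1 g__wN_1_rb802f08x1_0

theorem g_wN_1_rb802f0dx3 : GoodKC AS c_wN_1_rb802f0dx3 := p_wN_1_rb802f0dx1

theorem g_wN_1_rb802f10x3 : GoodKC AS c_wN_1_rb802f10x3 := p_wN_1_rb802f10x1

theorem g_wN_1_rb802f13x3 : GoodKC AS c_wN_1_rb802f13x3 := p_wN_1_rb802f13x1

theorem g_wN_1_rb802f15x3 : GoodKC AS c_wN_1_rb802f15x3 := p_wN_1_rb802f15x1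

theorem g__wN_1_rb802f17x1_2 : GoodKC AS k_wN_1_rb802f17x1_2 := p_wN_1_rb802f17x1_2

theorem g__wN_1_rb802f17x1_1 : GoodKC AS k_wN_1_rb802f17x1_1 := p_wN_1_rb802f17x1_1 g__wN_1_rb802f17x1_2

theorem g__wN_1_rb802f17x1_6 : GoodKC AS k_wN_1_rb802f17x1_6 := p_wN_1_rb802f17x1_6

theorem g__wN_1_rb802f17x1_5 : GoodKC AS k_wN_1_rb802f17x1_5 := p_wN_1_rb802f17x1_5 g__wN_1_rb802f17x1_6

theorem g__wN_1_rb802f17x1_4 : GoodKC AS k_wN_1_rb802f17x1_4 := p_wN_1_rb802f17x1_4 g__wN_1_rb802f17x1_5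

theorem g__wN_1_rb802f17x1_7 : GoodKC AS k_wN_1_rb802f17x1_7 := p_wN_1_rb802f17x1_7

theorem g__wN_1_rb802f17x1_3 : GoodKC AS k_wN_1_rb802f17x1_3 := p_wN_1_rb802f17x1_3 g__wN_1_rb802f17x1_4 g__wN_1_rb802f17x1_7

theorem g__wN_1_rb802f17x1_0 : GoodKC AS k_wN_1_rb802f17x1_0 := p_wN_1_rb802f17x1_0 g__wN_1_rb802f17x1_1 g__wN_1_rb802f17x1_3

theorem g_wN_1_rb802f17x3 : GoodKC AS c_wN_1_rb802f17x3 := p_wN_1_rb802f17x1 g__wN_1_rb802f17x1_0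

theorem g_wN_1_rb802f18x3 : GoodKC AS c_wN_1_rb802f18x3 := p_wN_1_rb802f18x1

theorem g__wN_1_rb802f1ex5_2 : GoodKC AS k_wN_1_rb802f1ex5_2 := p_wN_1_rb802f1ex5_2

theorem g__wN_1_rb802f1ex5_5 : GoodKC AS k_wN_1_rb802f1ex5_5 := p_wN_1_rb802f1ex5_5

theorem g__wN_1_rb802f1ex5_4 : GoodKC AS k_wN_1_rb802f1ex5_4 := p_wN_1_rb802f1ex5_4 g__wN_1_rb802f1ex5_5

theorem g__wN_1_rb802f1ex5_6 : GoodKC AS k_wN_1_rb802f1ex5_6 := p_wN_1_rb802f1ex5_6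

theorem g__wN_1_rb802f1ex5_3 : GoodKC AS k_wN_1_rb802f1ex5_3 := p_wN_1_rb802f1ex5_3 g__wN_1_rb802f1ex5_4 g__wN_1_rb802f1ex5_6

theorem g__wN_1_rb802f1ex5_9 : GoodKC AS k_wN_1_rb802f1ex5_9 := p_wN_1_rb802f1ex5_9

theorem g__wN_1_rb802f1ex5_8 : GoodKC AS k_wN_1_rb802f1ex5_8 := p_wN_1_rb802f1ex5_8 g__wN_1_rb802f1ex5_9

theorem g__wN_1_rb802f1ex5_12 : GoodKC AS k_wN_1_rb802f1ex5_12 := p_wN_1_rb802f1ex5_12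

theorem g__wN_1_rb802f1ex5_11 : GoodKC AS k_wN_1_rb802f1ex5_11 := p_wN_1_rb802f1ex5_11 g__wN_1_rb802f1ex5_12

theorem g__wN_1_rb802f1ex5_10 : GoodKC AS k_wN_1_rb802f1ex5_10 := p_wN_1_rb802f1ex5_10 g__wN_1_rb802f1ex5_11

theorem g__wN_1_rb802f1ex5_7 : GoodKC AS k_wN_1_rb802f1ex5_7 := p_wN_1_rb802f1ex5_7 g__wN_1_rb802f1ex5_8 g__wN_1_rb802f1ex5_10

theorem g__wN_1_rb802f1ex5_1 : GoodKC AS k_wN_1_rb802f1ex5_1 := p_wN_1_rb802f1ex5_1 g__wN_1_rb802f1ex5_2 g__wN_1_rb802f1ex5_3 g__wN_1_rb802f1ex5_7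

theorem g__wN_1_rb802f1ex5_0 : GoodKC AS k_wN_1_rb802f1ex5_0 := p_wN_1_rb802f1ex5_0 g__wN_1_rb802f1ex5_1

theorem g__wN_1_rb802f1ex5_14 : GoodKC AS k_wN_1_rb802f1ex5_14 := p_wN_1_rb802f1ex5_14

theorem g__wN_1_rb802f1ex5_15 : GoodKC AS k_wN_1_rb802f1ex5_15 := p_wN_1_rb802f1ex5_15

theorem g__wN_1_rb802f1ex5_13 : GoodKC AS k_wN_1_rb802f1ex5_13 := p_wN_1_rb802f1ex5_13 g__wN_1_rb802f1ex5_14 g__wN_1_rb802f1ex5_15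

theorem g__wN_1_rb802f1ex5_17 : GoodKC AS k_wN_1_rb802f1ex5_17 := p_wN_1_rb802f1ex5_17

theorem g__wN_1_rb802f1ex5_16 : GoodKC AS k_wN_1_rb802f1ex5_16 := p_wN_1_rb802f1ex5_16 g__wN_1_rb802f1ex5_17

theorem g_wN_1_rb802f1ex3 : GoodKC AS c_wN_1_rb802f1ex3 := p_wN_1_rb802f1ex5 g__wN_1_rb802f1ex5_0 g__wN_1_rb802f1ex5_13 g__wN_1_rb802f1ex5_16

theorem g__wN_1_rb802f200fx2_3 : GoodKC AS k_wN_1_rb802f200fx2_3 := p_wN_1_rb802f200fx2_3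

theorem g__wN_1_rb802f200fx2_2 : GoodKC AS k_wN_1_rb802f200fx2_2 := p_wN_1_rb802f200fx2_2 g__wN_1_rb802f200fx2_3

theorem g__wN_1_rb802f200fx2_4 : GoodKC AS k_wN_1_rb802f200fx2_4 := p_wN_1_rb802f200fx2_4

theorem g__wN_1_rb802f200fx2_7 : GoodKC AS k_wN_1_rb802f200fx2_7 := p_wN_1_rb802f200fx2_7

theorem g__wN_1_rb802f200fx2_6 : GoodKC AS k_wN_1_rb802f200fx2_6 := p_wN_1_rb802f200fx2_6 g__wN_1_rb802f200fx2_7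

theorem g__wN_1_rb802f200fx2_5 : GoodKC AS k_wN_1_rb802f200fx2_5 := p_wN_1_rb802f200fx2_5 g__wN_1_rb802f200fx2_6

theorem g__wN_1_rb802f200fx2_1 : GoodKC AS k_wN_1_rb802f200fx2_1 := p_wN_1_rb802f200fx2_1 g__wN_1_rb802f200fx2_2 g__wN_1_rb802f200fx2_4 g__wN_1_rb802f200fx2_5

theorem g__wN_1_rb802f200fx2_0 : GoodKC AS k_wN_1_rb802f200fx2_0 := p_wN_1_rb802f200fx2_0 g__wN_1_rb802f200fx2_1

theorem g_wN_1_rb802f200fx3 : GoodKC AS c_wN_1_rb802f200fx3 := p_wN_1_rb802f200fx2 g__wN_1_rb802f200fx2_0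

theorem g_wN_1_rb802f200ax3 : GoodKC AS c_wN_1_rb802f200ax3 := p_wN_1_rb802f200ax1

theorem g_wN_1_rb802f2008x3 : GoodKC AS c_wN_1_rb802f2008x3 := p_wN_1_rb802f2008x1

theorem g__wN_1_rb802f2007x1_0 : GoodKC AS k_wN_1_rb802f2007x1_0 := p_wN_1_rb802f2007x1_0

theorem g_wN_1_rb802f2007x3 : GoodKC AS c_wN_1_rb802f2007x3 := p_wN_1_rb802f2007x1 g__wN_1_rb802f2007x1_0

theorem g_wN_1_rb802f2003x3 : GoodKC AS c_wN_1_rb802f2003x3 := p_wN_1_rb802f2003x1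

theorem g__wN_1_rb802f20v3_5 : GoodKC AS k_wN_1_rb802f20v3_5 := p_wN_1_rb802f20v3_5

theorem g__wN_1_rb802f20v3_4 : GoodKC AS k_wN_1_rb802f20v3_4 := p_wN_1_rb802f20v3_4 g__wN_1_rb802f20v3_5

theorem g__wN_1_rb802f20v3_6 : GoodKC AS k_wN_1_rb802f20v3_6 := p_wN_1_rb802f20v3_6

theorem g__wN_1_rb802f20v3_3 : GoodKC AS k_wN_1_rb802f20v3_3 := p_wN_1_rb802f20v3_3 g__wN_1_rb802f20v3_4 g__wN_1_rb802f20v3_6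

theorem g__wN_1_rb802f20v3_9 : GoodKC AS k_wN_1_rb802f20v3_9 := p_wN_1_rb802f20v3_9

theorem g__wN_1_rb802f20v3_8 : GoodKC AS k_wN_1_rb802f20v3_8 := p_wN_1_rb802f20v3_8 g__wN_1_rb802f20v3_9

theorem g__wN_1_rb802f20v3_7 : GoodKC AS k_wN_1_rb802f20v3_7 := p_wN_1_rb802f20v3_7 g__wN_1_rb802f20v3_8

theorem g__wN_1_rb802f20v3_2 : GoodKC AS k_wN_1_rb802f20v3_2 := p_wN_1_rb802f20v3_2 g__wN_1_rb802f20v3_3 g__wN_1_rb802f20v3_7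

theorem g__wN_1_rb802f20v3_1 : GoodKC AS k_wN_1_rb802f20v3_1 := p_wN_1_rb802f20v3_1 g__wN_1_rb802f20v3_2

theorem g__wN_1_rb802f20v3_10 : GoodKC AS k_wN_1_rb802f20v3_10 := p_wN_1_rb802f20v3_10

theorem g_wN_1_rb802f2002x3 : GoodKC AS c_wN_1_rb802f2002x3 := p_wN_1_rb802f2002x1

theorem g_wN_1_rb802f2000x3 : GoodKC AS c_wN_1_rb802f2000x3 := p_wN_1_rb802f2000x1

theorem g_wN_1_rb802f2001x3 : GoodKC AS c_wN_1_rb802f2001x3 := p_wN_1_rb802f2001x1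

theorem g_wN_1_rb802f2004x3 : GoodKC AS c_wN_1_rb802f2004x3 := p_wN_1_rb802f2004x1

theorem g_wN_1_rb802f2005x3 : GoodKC AS c_wN_1_rb802f2005x3 := p_wN_1_rb802f2005x1

theorem g_wN_1_rb802f2006x3 : GoodKC AS c_wN_1_rb802f2006x3 := p_wN_1_rb802f2006x1

theorem g_wN_1_rb802f2009x3 : GoodKC AS c_wN_1_rb802f2009x3 := p_wN_1_rb802f2009x1

theorem g_wN_1_rb802f200bx3 : GoodKC AS c_wN_1_rb802f200bx3 := p_wN_1_rb802f200bx1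

theorem g_wN_1_rb802f200cx3 : GoodKC AS c_wN_1_rb802f200cx3 := p_wN_1_rb802f200cx1

theorem g__wN_1_rb802f20v3_0 : GoodKC AS k_wN_1_rb802f20v3_0 := p_wN_1_rb802f20v3_0 g_wN_1_rb802f200ax3 g_wN_1_rb802f2008x3 g_wN_1_rb802f2007x3 g_wN_1_rb802f2003x3 g__wN_1_rb802f20v3_1 g__wN_1_rb802f20v3_10 g_wN_1_rb802f2002x3 g_wN_1_rb802f2000x3 g_wN_1_rb802f2001x3 g_wN_1_rb802f2004x3 g_wN_1_rb802f2005x3 g_wN_1_rb802f2006x3 g_wN_1_rb802f2009x3 g_wN_1_rb802f200bx3 g_wN_1_rb802f200cx3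

theorem g__wN_1_rb802f20v3_11 : GoodKC AS k_wN_1_rb802f20v3_11 := p_wN_1_rb802f20v3_11

theorem g__wN_1_rb802f20v3_14 : GoodKC AS k_wN_1_rb802f20v3_14 := p_wN_1_rb802f20v3_14

theorem g__wN_1_rb802f20v3_13 : GoodKC AS k_wN_1_rb802f20v3_13 := p_wN_1_rb802f20v3_13 g__wN_1_rb802f20v3_14

theorem g__wN_1_rb802f20v3_17 : GoodKC AS k_wN_1_rb802f20v3_17 := p_wN_1_rb802f20v3_17

theorem g__wN_1_rb802f20v3_16 : GoodKC AS k_wN_1_rb802f20v3_16 := p_wN_1_rb802f20v3_16 g__wN_1_rb802f20v3_17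

theorem g__wN_1_rb802f20v3_18 : GoodKC AS k_wN_1_rb802f20v3_18 := p_wN_1_rb802f20v3_18

theorem g__wN_1_rb802f20v3_19 : GoodKC AS k_wN_1_rb802f20v3_19 := p_wN_1_rb802f20v3_19

theorem g__wN_1_rb802f20v3_20 : GoodKC AS k_wN_1_rb802f20v3_20 := p_wN_1_rb802f20v3_20

theorem g__wN_1_rb802f20v3_15 : GoodKC AS k_wN_1_rb802f20v3_15 := p_wN_1_rb802f20v3_15 g__wN_1_rb802f20v3_16 g__wN_1_rb802f20v3_18 g__wN_1_rb802f20v3_19 g__wN_1_rb802f20v3_20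

theorem g__wN_1_rb802f20v3_12 : GoodKC AS k_wN_1_rb802f20v3_12 := p_wN_1_rb802f20v3_12 g__wN_1_rb802f20v3_13 g__wN_1_rb802f20v3_15

theorem g__wN_1_rb802f20v3_22 : GoodKC AS k_wN_1_rb802f20v3_22 := p_wN_1_rb802f20v3_22

theorem g__wN_1_rb802f20v3_21 : GoodKC AS k_wN_1_rb802f20v3_21 := p_wN_1_rb802f20v3_21 g__wN_1_rb802f20v3_22

theorem g_wN_1_rb802f200dx3 : GoodKC AS c_wN_1_rb802f200dx3 := p_wN_1_rb802f200dx1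

theorem g_wN_1_rb802f200ex3 : GoodKC AS c_wN_1_rb802f200ex3 := p_wN_1_rb802f200ex1

theorem g_wN_1_rb802f2010x3 : GoodKC AS c_wN_1_rb802f2010x3 := p_wN_1_rb802f2010x1

theorem g_wN_1_rb802f20111cx1 : GoodKC AS c_wN_1_rb802f20111cx1 := p_wN_1_rb802f20111c

theorem g_wN_1_rb802f201119x1 : GoodKC AS c_wN_1_rb802f201119x1 := p_wN_1_rb802f201119

theorem g_wN_1_rb802f201118x1 : GoodKC AS c_wN_1_rb802f201118x1 := p_wN_1_rb802f201118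

theorem g_wN_1_rb802f201116x1 : GoodKC AS c_wN_1_rb802f201116x1 := p_wN_1_rb802f201116

theorem g_wN_1_rb802f201115x1 : GoodKC AS c_wN_1_rb802f201115x1 := p_wN_1_rb802f201115

theorem g_wN_1_rb802f201113x1 : GoodKC AS c_wN_1_rb802f201113x1 := p_wN_1_rb802f201113

theorem g_wN_1_rb802f201112x1 : GoodKC AS c_wN_1_rb802f201112x1 := p_wN_1_rb802f201112

theorem g_wN_1_rb802f201111x1 : GoodKC AS c_wN_1_rb802f201111x1 := p_wN_1_rb802f201111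

theorem g_wN_1_rb802f201110x1 : GoodKC AS c_wN_1_rb802f201110x1 := p_wN_1_rb802f201110

theorem g_wN_1_rb802f20110ex1 : GoodKC AS c_wN_1_rb802f20110ex1 := p_wN_1_rb802f20110e

theorem g_wN_1_rb802f20110dx1 : GoodKC AS c_wN_1_rb802f20110dx1 := p_wN_1_rb802f20110d

theorem g_wN_1_rb802f20110ax1 : GoodKC AS c_wN_1_rb802f20110ax1 := p_wN_1_rb802f20110a

theorem g_wN_1_rb802f201109x1 : GoodKC AS c_wN_1_rb802f201109x1 := p_wN_1_rb802f201109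

theorem g_wN_1_rb802f201108x1 : GoodKC AS c_wN_1_rb802f201108x1 := p_wN_1_rb802f201108

theorem g_wN_1_rb802f201105x1 : GoodKC AS c_wN_1_rb802f201105x1 := p_wN_1_rb802f201105

theorem g_wN_1_rb802f201104x1 : GoodKC AS c_wN_1_rb802f201104x1 := p_wN_1_rb802f201104

theorem g_wN_1_rb802f201103x1 : GoodKC AS c_wN_1_rb802f201103x1 := p_wN_1_rb802f201103

theorem g_wN_1_rb802f201101x1 : GoodKC AS c_wN_1_rb802f201101x1 := p_wN_1_rb802f201101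

theorem g_wN_1_rb802f201100x1 : GoodKC AS c_wN_1_rb802f201100x1 := p_wN_1_rb802f201100

theorem g_wN_1_rb802f201102x1 : GoodKC AS c_wN_1_rb802f201102x1 := p_wN_1_rb802f201102

theorem g_wN_1_rb802f201106x1 : GoodKC AS c_wN_1_rb802f201106x1 := p_wN_1_rb802f201106

theorem g_wN_1_rb802f201107x1 : GoodKC AS c_wN_1_rb802f201107x1 := p_wN_1_rb802f201107

theorem g_wN_1_rb802f20110bx1 : GoodKC AS c_wN_1_rb802f20110bx1 := p_wN_1_rb802f20110b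

theorem g_wN_1_rb802f20110cx1 : GoodKC AS c_wN_1_rb802f20110cx1 := p_wN_1_rb802f20110c

theorem g_wN_1_rb802f20110fx1 : GoodKC AS c_wN_1_rb802f20110fx1 := p_wN_1_rb802f20110f

theorem g_wN_1_rb802f201114x1 : GoodKC AS c_wN_1_rb802f201114x1 := p_wN_1_rb802f201114

theorem g__wN_1_rb802f2011x1_1 : GoodKC AS k_wN_1_rb802f2011x1_1 := p_wN_1_rb802f2011x1_1

theorem g__wN_1_rb802f2011x1_3 : GoodKC AS k_wN_1_rb802f2011x1_3 := p_wN_1_rb802f2011x1_3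

theorem g__wN_1_rb802f2011x1_4 : GoodKC AS k_wN_1_rb802f2011x1_4 := p_wN_1_rb802f2011x1_4

theorem g__wN_1_rb802f2011x1_6 : GoodKC AS k_wN_1_rb802f2011x1_6 := p_wN_1_rb802f2011x1_6

theorem g__wN_1_rb802f2011x1_8 : GoodKC AS k_wN_1_rb802f2011x1_8 := p_wN_1_rb802f2011x1_8

theorem g__wN_1_rb802f2011x1_7 : GoodKC AS k_wN_1_rb802f2011x1_7 := p_wN_1_rb802f2011x1_7 g__wN_1_rb802f2011x1_8

theorem g__wN_1_rb802f2011x1_5 : GoodKC AS k_wN_1_rb802f2011x1_5 := p_wN_1_rb802f2011x1_5 g__wN_1_rb802f2011x1_6 g__wN_1_rb802f2011x1_7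

theorem g__wN_1_rb802f2011x1_13 : GoodKC AS k_wN_1_rb802f2011x1_13 := p_wN_1_rb802f2011x1_13

theorem g__wN_1_rb802f2011x1_15 : GoodKC AS k_wN_1_rb802f2011x1_15 := p_wN_1_rb802f2011x1_15

theorem g__wN_1_rb802f2011x1_19 : GoodKC AS k_wN_1_rb802f2011x1_19 := p_wN_1_rb802f2011x1_19

theorem g__wN_1_rb802f2011x1_20 : GoodKC AS k_wN_1_rb802f2011x1_20 := p_wN_1_rb802f2011x1_20

theorem g__wN_1_rb802f2011x1_18 : GoodKC AS k_wN_1_rb802f2011x1_18 := p_wN_1_rb802f2011x1_18 g__wN_1_rb802f2011x1_19 g__wN_1_rb802f2011x1_20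

theorem g__wN_1_rb802f2011x1_22 : GoodKC AS k_wN_1_rb802f2011x1_22 := p_wN_1_rb802f2011x1_22

theorem g__wN_1_rb802f2011x1_21 : GoodKC AS k_wN_1_rb802f2011x1_21 := p_wN_1_rb802f2011x1_21 g__wN_1_rb802f2011x1_22

theorem g__wN_1_rb802f2011x1_17 : GoodKC AS k_wN_1_rb802f2011x1_17 := p_wN_1_rb802f2011x1_17 g__wN_1_rb802f2011x1_18 g__wN_1_rb802f2011x1_21

theorem g__wN_1_rb802f2011x1_24 : GoodKC AS k_wN_1_rb802f2011x1_24 := p_wN_1_rb802f2011x1_24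

theorem g__wN_1_rb802f2011x1_25 : GoodKC AS k_wN_1_rb802f2011x1_25 := p_wN_1_rb802f2011x1_25

theorem g__wN_1_rb802f2011x1_23 : GoodKC AS k_wN_1_rb802f2011x1_23 := p_wN_1_rb802f2011x1_23 g__wN_1_rb802f2011x1_24 g__wN_1_rb802f2011x1_25

theorem g__wN_1_rb802f2011x1_26 : GoodKC AS k_wN_1_rb802f2011x1_26 := p_wN_1_rb802f2011x1_26

theorem g__wN_1_rb802f2011x1_16 : GoodKC AS k_wN_1_rb802f2011x1_16 := p_wN_1_rb802f2011x1_16 g__wN_1_rb802f2011x1_17 g__wN_1_rb802f2011x1_23 g__wN_1_rb802f2011x1_26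

theorem g__wN_1_rb802f2011x1_14 : GoodKC AS k_wN_1_rb802f2011x1_14 := p_wN_1_rb802f2011x1_14 g__wN_1_rb802f2011x1_15 g__wN_1_rb802f2011x1_16

theorem g__wN_1_rb802f2011x1_12 : GoodKC AS k_wN_1_rb802f2011x1_12 := p_wN_1_rb802f2011x1_12 g__wN_1_rb802f2011x1_13 g__wN_1_rb802f2011x1_14

theorem g__wN_1_rb802f2011x1_27 : GoodKC AS k_wN_1_rb802f2011x1_27 := p_wN_1_rb802f2011x1_27

theorem g__wN_1_rb802f2011x1_11 : GoodKC AS k_wN_1_rb802f2011x1_11 := p_wN_1_rb802f2011x1_11 g__wN_1_rb802f2011x1_12 g__wN_1_rb802f2011x1_27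

theorem g__wN_1_rb802f2011x1_28 : GoodKC AS k_wN_1_rb802f2011x1_28 := p_wN_1_rb802f2011x1_28

theorem g__wN_1_rb802f2011x1_10 : GoodKC AS k_wN_1_rb802f2011x1_10 := p_wN_1_rb802f2011x1_10 g__wN_1_rb802f2011x1_11 g__wN_1_rb802f2011x1_28

theorem g__wN_1_rb802f2011x1_9 : GoodKC AS k_wN_1_rb802f2011x1_9 := p_wN_1_rb802f2011x1_9 g__wN_1_rb802f2011x1_10

theorem g__wN_1_rb802f2011x1_2 : GoodKC AS k_wN_1_rb802f2011x1_2 := p_wN_1_rb802f2011x1_2 g__wN_1_rb802f2011x1_3 g__wN_1_rb802f2011x1_4 g__wN_1_rb802f2011x1_5 g__wN_1_rb802f2011x1_9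

theorem g__wN_1_rb802f2011x1_0 : GoodKC AS k_wN_1_rb802f2011x1_0 := p_wN_1_rb802f2011x1_0 g__wN_1_rb802f2011x1_1 g__wN_1_rb802f2011x1_2

theorem g_wN_1_rb802f201117x1 : GoodKC AS c_wN_1_rb802f201117x1 := p_wN_1_rb802f201117

theorem g_wN_1_rb802f20111ax1 : GoodKC AS c_wN_1_rb802f20111ax1 := p_wN_1_rb802f20111a

theorem g_wN_1_rb802f20111bx1 : GoodKC AS c_wN_1_rb802f20111bx1 := p_wN_1_rb802f20111b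

theorem g_wN_1_rb802f2011x3 : GoodKC AS c_wN_1_rb802f2011x3 := p_wN_1_rb802f2011x1 g_wN_1_rb802f20111cx1 g_wN_1_rb802f201119x1 g_wN_1_rb802f201118x1 g_wN_1_rb802f201116x1 g_wN_1_rb802f201115x1 g_wN_1_rb802f201113x1 g_wN_1_rb802f201112x1 g_wN_1_rb802f201111x1 g_wN_1_rb802f201110x1 g_wN_1_rb802f20110ex1 g_wN_1_rb802f20110dx1 g_wN_1_rb802f20110ax1 g_wN_1_rb802f201109x1 g_wN_1_rb802f201108x1 g_wN_1_rb802f201105x1 g_wN_1_rb802f201104x1 g_wN_1_rb802f201103x1 g_wN_1_rb802f201101x1 g_wN_1_rb802f201100x1 g_wN_1_rb802f201102x1 g_wN_1_rb802f201106x1 g_wN_1_rb802f201107x1 g_wN_1_rb802f20110bx1 g_wN_1_rb802f20110cx1 g_wN_1_rb802f20110fx1 g_wN_1_rb802f201114x1 g__wN_1_rb802f2011x1_0 g_wN_1_rb802f201117x1 g_wN_1_rb802f20111ax1 g_wN_1_rb802f20111bx1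

theorem g_wN_1_rb802f20x3 : GoodKC AS c_wN_1_rb802f20x3 := p_wN_1_rb802f20x3 g_wN_1_rb802f200fx3 g__wN_1_rb802f20v3_0 g__wN_1_rb802f20v3_11 g__wN_1_rb802f20v3_12 g__wN_1_rb802f20v3_21 g_wN_1_rb802f200dx3 g_wN_1_rb802f200ex3 g_wN_1_rb802f2010x3 g_wN_1_rb802f2011x3

theorem g_wN_1_rb802f21x3 : GoodKC AS c_wN_1_rb802f21x3 := p_wN_1_rb802f21x1

theorem g_wN_1_rb802f25x3 : GoodKC AS c_wN_1_rb802f25x3 := p_wN_1_rb802f25x1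

theorem g_wN_1_rb802f29x3 : GoodKC AS c_wN_1_rb802f29x3 := p_wN_1_rb802f29x1

theorem g_wN_1_rb802fx9 : GoodKC AS c_wN_1_rb802fx9 := p_wN_1_rb802fx3 g_wN_1_rb802f2cx3 g_wN_1_rb802f2bx3 g_wN_1_rb802f2ax3 g_wN_1_rb802f28x3 g_wN_1_rb802f27x3 g_wN_1_rb802f26x3 g_wN_1_rb802f24x3 g_wN_1_rb802f23x3 g_wN_1_rb802f22x3 g_wN_1_rb802f1fx3 g_wN_1_rb802f1dx3 g_wN_1_rb802f1cx3 g_wN_1_rb802f1bx3 g_wN_1_rb802f1ax3 g_wN_1_rb802f19x3 g_wN_1_rb802f16x3 g_wN_1_rb802f14x3 g_wN_1_rb802f12x3 g_wN_1_rb802f11x3 g_wN_1_rb802f0fx3 g_wN_1_rb802f0ex3 g_wN_1_rb802f0cx3 g_wN_1_rb802f0bx3 g_wN_1_rb802f0ax3 g_wN_1_rb802f09x3 g_wN_1_rb802f05x3 g_wN_1_rb802f03x3 g_wN_1_rb802f01x3 g_wN_1_rb802f00x3 g__wN_1_rb802fx3_0 g_wN_1_rb802f02x3 g_wN_1_rb802f04x3 g_wN_1_rb802f06x3 g_wN_1_rb802f07x3 g_wN_1_rb802f08x3 g_wN_1_rb802f0dx3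 g_wN_1_rb802f10x3 g_wN_1_rb802f13x3 g_wN_1_rb802f15x3 g_wN_1_rb802f17x3 g_wN_1_rb802f18x3 g_wN_1_rb802f1ex3 g_wN_1_rb802f20x3 g_wN_1_rb802f21x3 g_wN_1_rb802f25x3 g_wN_1_rb802f29x3

theorem g__wN_1_rb8030040100_1 : GoodKC AS k_wN_1_rb8030040100_1 := p_wN_1_rb8030040100_1

theorem g__wN_1_rb8030040100_0 : GoodKC AS k_wN_1_rb8030040100_0 := p_wN_1_rb8030040100_0 g__wN_1_rb8030040100_1

theorem g_wN_1_rb8030040100 : GoodKC AS c_wN_1_rb8030040100 := p_wN_1_rb8030040100 g__wN_1_rb8030040100_0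

theorem g__wN_1_rb80300401_0 : GoodKC AS k_wN_1_rb80300401_0 := p_wN_1_rb80300401_0

theorem g__wN_1_rb80300401_2 : GoodKC AS k_wN_1_rb80300401_2 := p_wN_1_rb80300401_2

theorem g__wN_1_rb80300401_6 : GoodKC AS k_wN_1_rb80300401_6 := p_wN_1_rb80300401_6

theorem g__wN_1_rb80300401_7 : GoodKC AS k_wN_1_rb80300401_7 := p_wN_1_rb80300401_7

theorem g__wN_1_rb80300401_5 : GoodKC AS k_wN_1_rb80300401_5 := p_wN_1_rb80300401_5 g__wN_1_rb80300401_6 g__wN_1_rb80300401_7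

theorem g__wN_1_rb80300401_4 : GoodKC AS k_wN_1_rb80300401_4 := p_wN_1_rb80300401_4 g__wN_1_rb80300401_5

theorem g__wN_1_rb80300401_3 : GoodKC AS k_wN_1_rb80300401_3 := p_wN_1_rb80300401_3 g__wN_1_rb80300401_4

theorem g__wN_1_rb80300401_1 : GoodKC AS k_wN_1_rb80300401_1 := p_wN_1_rb80300401_1 g__wN_1_rb80300401_2 g__wN_1_rb80300401_3

theorem g__wN_1_rb80300401_8 : GoodKC AS k_wN_1_rb80300401_8 := p_wN_1_rb80300401_8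

theorem g_wN_1_rb80300401 : GoodKC AS c_wN_1_rb80300401 := p_wN_1_rb80300401 g_wN_1_rb8030040100 g__wN_1_rb80300401_0 g__wN_1_rb80300401_1 g__wN_1_rb80300401_8

theorem g__wN_1_rb80300400_2 : GoodKC AS k_wN_1_rb80300400_2 := p_wN_1_rb80300400_2

theorem g__wN_1_rb80300400_4 : GoodKC AS k_wN_1_rb80300400_4 := p_wN_1_rb80300400_4

theorem g__wN_1_rb80300400_3 : GoodKC AS k_wN_1_rb80300400_3 := p_wN_1_rb80300400_3 g__wN_1_rb80300400_4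

theorem g__wN_1_rb80300400_1 : GoodKC AS k_wN_1_rb80300400_1 := p_wN_1_rb80300400_1 g__wN_1_rb80300400_2 g__wN_1_rb80300400_3

theorem g__wN_1_rb80300400_0 : GoodKC AS k_wN_1_rb80300400_0 := p_wN_1_rb80300400_0 g__wN_1_rb80300400_1

theorem g_wN_1_rb80300400 : GoodKC AS c_wN_1_rb80300400 := p_wN_1_rb80300400 g__wN_1_rb80300400_0

theorem g__wN_1_rb803004_4 : GoodKC AS k_wN_1_rb803004_4 := p_wN_1_rb803004_4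

theorem g__wN_1_rb803004_3 : GoodKC AS k_wN_1_rb803004_3 := p_wN_1_rb803004_3 g__wN_1_rb803004_4

theorem g__wN_1_rb803004_2 : GoodKC AS k_wN_1_rb803004_2 := p_wN_1_rb803004_2 g__wN_1_rb803004_3

theorem g__wN_1_rb803004_1 : GoodKC AS k_wN_1_rb803004_1 := p_wN_1_rb803004_1 g__wN_1_rb803004_2

theorem g__wN_1_rb803004_5 : GoodKC AS k_wN_1_rb803004_5 := p_wN_1_rb803004_5

theorem g__wN_1_rb803004_8 : GoodKC AS k_wN_1_rb803004_8 := p_wN_1_rb803004_8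

theorem g__wN_1_rb803004_7 : GoodKC AS k_wN_1_rb803004_7 := p_wN_1_rb803004_7 g__wN_1_rb803004_8

theorem g__wN_1_rb803004_6 : GoodKC AS k_wN_1_rb803004_6 := p_wN_1_rb803004_6 g__wN_1_rb803004_7

theorem g__wN_1_rb803004_9 : GoodKC AS k_wN_1_rb803004_9 := p_wN_1_rb803004_9

theorem g__wN_1_rb803004_0 : GoodKC AS k_wN_1_rb803004_0 := p_wN_1_rb803004_0 g__wN_1_rb803004_1 g__wN_1_rb803004_5 g__wN_1_rb803004_6 g__wN_1_rb803004_9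

theorem g_wN_1_rb803004 : GoodKC AS c_wN_1_rb803004 := p_wN_1_rb803004 g_wN_1_rb80300401 g_wN_1_rb80300400 g__wN_1_rb803004_0

theorem g__wN_1_rb803003_0 : GoodKC AS k_wN_1_rb803003_0 := p_wN_1_rb803003_0

theorem g__wN_1_rb803003_1 : GoodKC AS k_wN_1_rb803003_1 := p_wN_1_rb803003_1

theorem g__wN_1_rb803003_3 : GoodKC AS k_wN_1_rb803003_3 := p_wN_1_rb803003_3

theorem g__wN_1_rb803003_4 : GoodKC AS k_wN_1_rb803003_4 := p_wN_1_rb803003_4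

theorem g__wN_1_rb803003_2 : GoodKC AS k_wN_1_rb803003_2 := p_wN_1_rb803003_2 g__wN_1_rb803003_3 g__wN_1_rb803003_4

theorem g_wN_1_rb803003 : GoodKC AS c_wN_1_rb803003 := p_wN_1_rb803003 g__wN_1_rb803003_0 g__wN_1_rb803003_1 g__wN_1_rb803003_2

theorem g__wN_1_rb8030_6 : GoodKC AS k_wN_1_rb8030_6 := p_wN_1_rb8030_6

theorem g__wN_1_rb8030_5 : GoodKC AS k_wN_1_rb8030_5 := p_wN_1_rb8030_5 g__wN_1_rb8030_6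

theorem g__wN_1_rb8030_4 : GoodKC AS k_wN_1_rb8030_4 := p_wN_1_rb8030_4 g__wN_1_rb8030_5

theorem g__wN_1_rb8030_3 : GoodKC AS k_wN_1_rb8030_3 := p_wN_1_rb8030_3 g__wN_1_rb8030_4

theorem g__wN_1_rb8030_2 : GoodKC AS k_wN_1_rb8030_2 := p_wN_1_rb8030_2 g__wN_1_rb8030_3

theorem g__wN_1_rb803000_1 : GoodKC AS k_wN_1_rb803000_1 := p_wN_1_rb803000_1

theorem g__wN_1_rb803000_2 : GoodKC AS k_wN_1_rb803000_2 := p_wN_1_rb803000_2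

theorem g__wN_1_rb803000_0 : GoodKC AS k_wN_1_rb803000_0 := p_wN_1_rb803000_0 g__wN_1_rb803000_1 g__wN_1_rb803000_2

theorem g_wN_1_rb803000 : GoodKC AS c_wN_1_rb803000 := p_wN_1_rb803000 g__wN_1_rb803000_0

theorem g__wN_1_rb8030_1 : GoodKC AS k_wN_1_rb8030_1 := p_wN_1_rb8030_1 g__wN_1_rb8030_2 g_wN_1_rb803000

theorem g__wN_1_rb8030_0 : GoodKC AS k_wN_1_rb8030_0 := p_wN_1_rb8030_0 g__wN_1_rb8030_1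

theorem g_wN_1_rb803001 : GoodKC AS c_wN_1_rb803001 := p_wN_1_rb803001

theorem g__wN_1_rb803002_0 : GoodKC AS k_wN_1_rb803002_0 := p_wN_1_rb803002_0

theorem g__wN_1_rb803002_1 : GoodKC AS k_wN_1_rb803002_1 := p_wN_1_rb803002_1

theorem g_wN_1_rb803002 : GoodKC AS c_wN_1_rb803002 := p_wN_1_rb803002 g__wN_1_rb803002_0 g__wN_1_rb803002_1

theorem g__wN_1_rb803005x1_2 : GoodKC AS k_wN_1_rb803005x1_2 := p_wN_1_rb803005x1_2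

theorem g__wN_1_rb803005x1_4 : GoodKC AS k_wN_1_rb803005x1_4 := p_wN_1_rb803005x1_4

theorem g__wN_1_rb803005x1_3 : GoodKC AS k_wN_1_rb803005x1_3 := p_wN_1_rb803005x1_3 g__wN_1_rb803005x1_4

theorem g__wN_1_rb803005x1_10 : GoodKC AS k_wN_1_rb803005x1_10 := p_wN_1_rb803005x1_10

theorem g__wN_1_rb803005x1_9 : GoodKC AS k_wN_1_rb803005x1_9 := p_wN_1_rb803005x1_9 g__wN_1_rb803005x1_10

theorem g__wN_1_rb803005x1_8 : GoodKC AS k_wN_1_rb803005x1_8 := p_wN_1_rb803005x1_8 g__wN_1_rb803005x1_9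

theorem g__wN_1_rb803005x1_13 : GoodKC AS k_wN_1_rb803005x1_13 := p_wN_1_rb803005x1_13

theorem g__wN_1_rb803005x1_12 : GoodKC AS k_wN_1_rb803005x1_12 := p_wN_1_rb803005x1_12 g__wN_1_rb803005x1_13

theorem g__wN_1_rb803005x1_11 : GoodKC AS k_wN_1_rb803005x1_11 := p_wN_1_rb803005x1_11 g__wN_1_rb803005x1_12

theorem g__wN_1_rb803005x1_7 : GoodKC AS k_wN_1_rb803005x1_7 := p_wN_1_rb803005x1_7 g__wN_1_rb803005x1_8 g__wN_1_rb803005x1_11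

theorem g__wN_1_rb803005x1_6 : GoodKC AS k_wN_1_rb803005x1_6 := p_wN_1_rb803005x1_6 g__wN_1_rb803005x1_7

theorem g__wN_1_rb803005x1_5 : GoodKC AS k_wN_1_rb803005x1_5 := p_wN_1_rb803005x1_5 g__wN_1_rb803005x1_6

theorem g__wN_1_rb803005x1_1 : GoodKC AS k_wN_1_rb803005x1_1 := p_wN_1_rb803005x1_1 g__wN_1_rb803005x1_2 g__wN_1_rb803005x1_3 g__wN_1_rb803005x1_5

theorem g__wN_1_rb803005x1_16 : GoodKC AS k_wN_1_rb803005x1_16 := p_wN_1_rb803005x1_16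

theorem g__wN_1_rb803005x1_22 : GoodKC AS k_wN_1_rb803005x1_22 := p_wN_1_rb803005x1_22

theorem g__wN_1_rb803005x1_23 : GoodKC AS k_wN_1_rb803005x1_23 := p_wN_1_rb803005x1_23

theorem g__wN_1_rb803005x1_21 : GoodKC AS k_wN_1_rb803005x1_21 := p_wN_1_rb803005x1_21 g__wN_1_rb803005x1_22 g__wN_1_rb803005x1_23

theorem g__wN_1_rb803005x1_24 : GoodKC AS k_wN_1_rb803005x1_24 := p_wN_1_rb803005x1_24

theorem g__wN_1_rb803005x1_20 : GoodKC AS k_wN_1_rb803005x1_20 := p_wN_1_rb803005x1_20 g__wN_1_rb803005x1_21 g__wN_1_rb803005x1_24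

theorem g__wN_1_rb803005x1_19 : GoodKC AS k_wN_1_rb803005x1_19 := p_wN_1_rb803005x1_19 g__wN_1_rb803005x1_20

theorem g__wN_1_rb803005x1_18 : GoodKC AS k_wN_1_rb803005x1_18 := p_wN_1_rb803005x1_18 g__wN_1_rb803005x1_19

theorem g__wN_1_rb803005x1_17 : GoodKC AS k_wN_1_rb803005x1_17 := p_wN_1_rb803005x1_17 g__wN_1_rb803005x1_18

theorem g__wN_1_rb803005x1_15 : GoodKC AS k_wN_1_rb803005x1_15 := p_wN_1_rb803005x1_15 g__wN_1_rb803005x1_16 g__wN_1_rb803005x1_17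

theorem g__wN_1_rb803005x1_14 : GoodKC AS k_wN_1_rb803005x1_14 := p_wN_1_rb803005x1_14 g__wN_1_rb803005x1_15

theorem g__wN_1_rb803005x1_26 : GoodKC AS k_wN_1_rb803005x1_26 := p_wN_1_rb803005x1_26

theorem g__wN_1_rb803005x1_27 : GoodKC AS k_wN_1_rb803005x1_27 := p_wN_1_rb803005x1_27

theorem g__wN_1_rb803005x1_25 : GoodKC AS k_wN_1_rb803005x1_25 := p_wN_1_rb803005x1_25 g__wN_1_rb803005x1_26 g__wN_1_rb803005x1_27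

theorem g__wN_1_rb803005x1_0 : GoodKC AS k_wN_1_rb803005x1_0 := p_wN_1_rb803005x1_0 g__wN_1_rb803005x1_1 g__wN_1_rb803005x1_14 g__wN_1_rb803005x1_25

theorem g__wN_1_rb803005x1_31 : GoodKC AS k_wN_1_rb803005x1_31 := p_wN_1_rb803005x1_31

theorem g__wN_1_rb803005x1_30 : GoodKC AS k_wN_1_rb803005x1_30 := p_wN_1_rb803005x1_30 g__wN_1_rb803005x1_31

theorem g__wN_1_rb803005x1_29 : GoodKC AS k_wN_1_rb803005x1_29 := p_wN_1_rb803005x1_29 g__wN_1_rb803005x1_30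

theorem g__wN_1_rb803005x1_28 : GoodKC AS k_wN_1_rb803005x1_28 := p_wN_1_rb803005x1_28 g__wN_1_rb803005x1_29

theorem g__wN_1_rb803005x1_34 : GoodKC AS k_wN_1_rb803005x1_34 := p_wN_1_rb803005x1_34

theorem g__wN_1_rb803005x1_33 : GoodKC AS k_wN_1_rb803005x1_33 := p_wN_1_rb803005x1_33 g__wN_1_rb803005x1_34

theorem g__wN_1_rb803005x1_32 : GoodKC AS k_wN_1_rb803005x1_32 := p_wN_1_rb803005x1_32 g__wN_1_rb803005x1_33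

theorem g__wN_1_rb803005x1_36 : GoodKC AS k_wN_1_rb803005x1_36 := p_wN_1_rb803005x1_36

theorem g__wN_1_rb803005x1_35 : GoodKC AS k_wN_1_rb803005x1_35 := p_wN_1_rb803005x1_35 g__wN_1_rb803005x1_36

theorem g__xs_41_wN_1_rb80300500_1 : GoodKC AS k_xs_41_wN_1_rb80300500_1 := p_xs_41_wN_1_rb80300500_1

theorem g__xs_41_wN_1_rb80300500_4 : GoodKC AS k_xs_41_wN_1_rb80300500_4 := p_xs_41_wN_1_rb80300500_4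

theorem g__xs_41_wN_1_rb80300500_3 : GoodKC AS k_xs_41_wN_1_rb80300500_3 := p_xs_41_wN_1_rb80300500_3 g__xs_41_wN_1_rb80300500_4

theorem g__xs_41_wN_1_rb80300500_5 : GoodKC AS k_xs_41_wN_1_rb80300500_5 := p_xs_41_wN_1_rb80300500_5

theorem g__xs_41_wN_1_rb80300500_2 : GoodKC AS k_xs_41_wN_1_rb80300500_2 := p_xs_41_wN_1_rb80300500_2 g__xs_41_wN_1_rb80300500_3 g__xs_41_wN_1_rb80300500_5

theorem g__xs_41_wN_1_rb80300500_7 : GoodKC AS k_xs_41_wN_1_rb80300500_7 := p_xs_41_wN_1_rb80300500_7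

theorem g__xs_41_wN_1_rb80300500_6 : GoodKC AS k_xs_41_wN_1_rb80300500_6 := p_xs_41_wN_1_rb80300500_6 g__xs_41_wN_1_rb80300500_7

theorem g__xs_41_wN_1_rb80300500_0 : GoodKC AS k_xs_41_wN_1_rb80300500_0 := p_xs_41_wN_1_rb80300500_0 g__xs_41_wN_1_rb80300500_1 g__xs_41_wN_1_rb80300500_2 g__xs_41_wN_1_rb80300500_6

theorem g__xs_41_wN_1_rb80300500_8 : GoodKC AS k_xs_41_wN_1_rb80300500_8 := p_xs_41_wN_1_rb80300500_8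

theorem g__xs_41_wN_1_rb80300500_9 : GoodKC AS k_xs_41_wN_1_rb80300500_9 := p_xs_41_wN_1_rb80300500_9

theorem g_xs_41_wN_1_rb80300500x1 : GoodKC AS c_xs_41_wN_1_rb80300500x1 := p_xs_41_wN_1_rb80300500 g__xs_41_wN_1_rb80300500_0 g__xs_41_wN_1_rb80300500_8 g__xs_41_wN_1_rb80300500_9

theorem g_wN_1_rb803005 : GoodKC AS c_wN_1_rb803005 := p_wN_1_rb803005x1 g__wN_1_rb803005x1_0 g__wN_1_rb803005x1_28 g__wN_1_rb803005x1_32 g__wN_1_rb803005x1_35 g_xs_41_wN_1_rb80300500x1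

theorem g_wN_1_rb8030x9 : GoodKC AS c_wN_1_rb8030x9 := p_wN_1_rb8030 g_wN_1_rb803004 g_wN_1_rb803003 g__wN_1_rb8030_0 g_wN_1_rb803001 g_wN_1_rb803002 g_wN_1_rb803005

theorem g__xs_42_xs_43_wN_1_rb80310103_0 : GoodKC AS k_xs_42_xs_43_wN_1_rb80310103_0 := p_xs_42_xs_43_wN_1_rb80310103_0

theorem g__xs_42_xs_43_wN_1_rb8031010300_0 : GoodKC AS k_xs_42_xs_43_wN_1_rb8031010300_0 := p_xs_42_xs_43_wN_1_rb8031010300_0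

theorem g__xs_42_xs_43_wN_1_rb8031010300_6 : GoodKC AS k_xs_42_xs_43_wN_1_rb8031010300_6 := p_xs_42_xs_43_wN_1_rb8031010300_6

theorem g__xs_42_xs_43_wN_1_rb8031010300_5 : GoodKC AS k_xs_42_xs_43_wN_1_rb8031010300_5 := p_xs_42_xs_43_wN_1_rb8031010300_5 g__xs_42_xs_43_wN_1_rb8031010300_6

theorem g__xs_42_xs_43_wN_1_rb8031010300_4 : GoodKC AS k_xs_42_xs_43_wN_1_rb8031010300_4 := p_xs_42_xs_43_wN_1_rb8031010300_4 g__xs_42_xs_43_wN_1_rb8031010300_5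

theorem g__xs_42_xs_43_wN_1_rb8031010300_3 : GoodKC AS k_xs_42_xs_43_wN_1_rb8031010300_3 := p_xs_42_xs_43_wN_1_rb8031010300_3 g__xs_42_xs_43_wN_1_rb8031010300_4

theorem g__xs_42_xs_43_wN_1_rb8031010300_2 : GoodKC AS k_xs_42_xs_43_wN_1_rb8031010300_2 := p_xs_42_xs_43_wN_1_rb8031010300_2 g__xs_42_xs_43_wN_1_rb8031010300_3

theorem g__xs_42_xs_43_wN_1_rb8031010300_1 : GoodKC AS k_xs_42_xs_43_wN_1_rb8031010300_1 := p_xs_42_xs_43_wN_1_rb8031010300_1 g__xs_42_xs_43_wN_1_rb8031010300_2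

theorem g_xs_42_xs_43_wN_1_rb8031010300 : GoodKC AS c_xs_42_xs_43_wN_1_rb8031010300 := p_xs_42_xs_43_wN_1_rb8031010300 g__xs_42_xs_43_wN_1_rb8031010300_0 g__xs_42_xs_43_wN_1_rb8031010300_1

theorem g__xs_42_xs_43_wN_1_rb80310103_6 : GoodKC AS k_xs_42_xs_43_wN_1_rb80310103_6 := p_xs_42_xs_43_wN_1_rb80310103_6

theorem g__xs_42_xs_43_wN_1_rb80310103_8 : GoodKC AS k_xs_42_xs_43_wN_1_rb80310103_8 := p_xs_42_xs_43_wN_1_rb80310103_8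

theorem g__xs_42_xs_43_wN_1_rb80310103_7 : GoodKC AS k_xs_42_xs_43_wN_1_rb80310103_7 := p_xs_42_xs_43_wN_1_rb80310103_7 g__xs_42_xs_43_wN_1_rb80310103_8

theorem g__xs_42_xs_43_wN_1_rb80310103_5 : GoodKC AS k_xs_42_xs_43_wN_1_rb80310103_5 := p_xs_42_xs_43_wN_1_rb80310103_5 g__xs_42_xs_43_wN_1_rb80310103_6 g__xs_42_xs_43_wN_1_rb80310103_7

theorem g__xs_42_xs_43_wN_1_rb80310103_11 : GoodKC AS k_xs_42_xs_43_wN_1_rb80310103_11 := p_xs_42_xs_43_wN_1_rb80310103_11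

theorem g__xs_42_xs_43_wN_1_rb80310103_12 : GoodKC AS k_xs_42_xs_43_wN_1_rb80310103_12 := p_xs_42_xs_43_wN_1_rb80310103_12

theorem g__xs_42_xs_43_wN_1_rb80310103_10 : GoodKC AS k_xs_42_xs_43_wN_1_rb80310103_10 := p_xs_42_xs_43_wN_1_rb80310103_10 g__xs_42_xs_43_wN_1_rb80310103_11 g__xs_42_xs_43_wN_1_rb80310103_12

theorem g__xs_42_xs_43_wN_1_rb80310103_14 : GoodKC AS k_xs_42_xs_43_wN_1_rb80310103_14 := p_xs_42_xs_43_wN_1_rb80310103_14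

theorem g__xs_42_xs_43_wN_1_rb80310103_13 : GoodKC AS k_xs_42_xs_43_wN_1_rb80310103_13 := p_xs_42_xs_43_wN_1_rb80310103_13 g__xs_42_xs_43_wN_1_rb80310103_14

theorem g__xs_42_xs_43_wN_1_rb80310103_9 : GoodKC AS k_xs_42_xs_43_wN_1_rb80310103_9 := p_xs_42_xs_43_wN_1_rb80310103_9 g__xs_42_xs_43_wN_1_rb80310103_10 g__xs_42_xs_43_wN_1_rb80310103_13

theorem g__xs_42_xs_43_wN_1_rb80310103_4 : GoodKC AS k_xs_42_xs_43_wN_1_rb80310103_4 := p_xs_42_xs_43_wN_1_rb80310103_4 g__xs_42_xs_43_wN_1_rb80310103_5 g__xs_42_xs_43_wN_1_rb80310103_9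

theorem g__xs_42_xs_43_wN_1_rb80310103_15 : GoodKC AS k_xs_42_xs_43_wN_1_rb80310103_15 := p_xs_42_xs_43_wN_1_rb80310103_15

theorem g__xs_42_xs_43_wN_1_rb80310103_3 : GoodKC AS k_xs_42_xs_43_wN_1_rb80310103_3 := p_xs_42_xs_43_wN_1_rb80310103_3 g__xs_42_xs_43_wN_1_rb80310103_4 g__xs_42_xs_43_wN_1_rb80310103_15

theorem g__xs_42_xs_43_wN_1_rb80310103_17 : GoodKC AS k_xs_42_xs_43_wN_1_rb80310103_17 := p_xs_42_xs_43_wN_1_rb80310103_17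

theorem g__xs_42_xs_43_wN_1_rb80310103_16 : GoodKC AS k_xs_42_xs_43_wN_1_rb80310103_16 := p_xs_42_xs_43_wN_1_rb80310103_16 g__xs_42_xs_43_wN_1_rb80310103_17

theorem g__xs_42_xs_43_wN_1_rb80310103_19 : GoodKC AS k_xs_42_xs_43_wN_1_rb80310103_19 := p_xs_42_xs_43_wN_1_rb80310103_19

theorem g__xs_42_xs_43_wN_1_rb80310103_18 : GoodKC AS k_xs_42_xs_43_wN_1_rb80310103_18 := p_xs_42_xs_43_wN_1_rb80310103_18 g__xs_42_xs_43_wN_1_rb80310103_19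

theorem g__xs_42_xs_43_wN_1_rb80310103_21 : GoodKC AS k_xs_42_xs_43_wN_1_rb80310103_21 := p_xs_42_xs_43_wN_1_rb80310103_21

theorem g__xs_42_xs_43_wN_1_rb80310103_22 : GoodKC AS k_xs_42_xs_43_wN_1_rb80310103_22 := p_xs_42_xs_43_wN_1_rb80310103_22

theorem g__xs_42_xs_43_wN_1_rb80310103_20 : GoodKC AS k_xs_42_xs_43_wN_1_rb80310103_20 := p_xs_42_xs_43_wN_1_rb80310103_20 g__xs_42_xs_43_wN_1_rb80310103_21 g__xs_42_xs_43_wN_1_rb80310103_22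

theorem g__xs_42_xs_43_wN_1_rb80310103_23 : GoodKC AS k_xs_42_xs_43_wN_1_rb80310103_23 := p_xs_42_xs_43_wN_1_rb80310103_23

theorem g__xs_42_xs_43_wN_1_rb80310103_2 : GoodKC AS k_xs_42_xs_43_wN_1_rb80310103_2 := p_xs_42_xs_43_wN_1_rb80310103_2 g__xs_42_xs_43_wN_1_rb80310103_3 g__xs_42_xs_43_wN_1_rb80310103_16 g__xs_42_xs_43_wN_1_rb80310103_18 g__xs_42_xs_43_wN_1_rb80310103_20 g__xs_42_xs_43_wN_1_rb80310103_23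

theorem g__xs_42_xs_43_wN_1_rb80310103_1 : GoodKC AS k_xs_42_xs_43_wN_1_rb80310103_1 := p_xs_42_xs_43_wN_1_rb80310103_1 g__xs_42_xs_43_wN_1_rb80310103_2

theorem g_xs_42_xs_43_wN_1_rb80310103x2 : GoodKC AS c_xs_42_xs_43_wN_1_rb80310103x2 := p_xs_42_xs_43_wN_1_rb80310103 g__xs_42_xs_43_wN_1_rb80310103_0 g_xs_42_xs_43_wN_1_rb8031010300 g__xs_42_xs_43_wN_1_rb80310103_1

theorem g__xs_43_wN_1_rb803101x2_1 : GoodKC AS k_xs_43_wN_1_rb803101x2_1 := p_xs_43_wN_1_rb803101x2_1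

theorem g__xs_42_xs_43_wN_1_rb80310102_0 : GoodKC AS k_xs_42_xs_43_wN_1_rb80310102_0 := p_xs_42_xs_43_wN_1_rb80310102_0

theorem g_xs_42_xs_43_wN_1_rb80310102x2 : GoodKC AS c_xs_42_xs_43_wN_1_rb80310102x2 := p_xs_42_xs_43_wN_1_rb80310102 g__xs_42_xs_43_wN_1_rb80310102_0

theorem g__xs_42_xs_43_wN_1_rb80310100_1 : GoodKC AS k_xs_42_xs_43_wN_1_rb80310100_1 := p_xs_42_xs_43_wN_1_rb80310100_1

theorem g__xs_42_xs_43_wN_1_rb80310100_0 : GoodKC AS k_xs_42_xs_43_wN_1_rb80310100_0 := p_xs_42_xs_43_wN_1_rb80310100_0 g__xs_42_xs_43_wN_1_rb80310100_1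

theorem g_xs_42_xs_43_wN_1_rb80310100x2 : GoodKC AS c_xs_42_xs_43_wN_1_rb80310100x2 := p_xs_42_xs_43_wN_1_rb80310100 g__xs_42_xs_43_wN_1_rb80310100_0

theorem g__xs_43_wN_1_rb803101x2_8 : GoodKC AS k_xs_43_wN_1_rb803101x2_8 := p_xs_43_wN_1_rb803101x2_8

theorem g__xs_43_wN_1_rb803101x2_10 : GoodKC AS k_xs_43_wN_1_rb803101x2_10 := p_xs_43_wN_1_rb803101x2_10

theorem g__xs_43_wN_1_rb803101x2_13 : GoodKC AS k_xs_43_wN_1_rb803101x2_13 := p_xs_43_wN_1_rb803101x2_13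

theorem g__xs_43_wN_1_rb803101x2_12 : GoodKC AS k_xs_43_wN_1_rb803101x2_12 := p_xs_43_wN_1_rb803101x2_12 g__xs_43_wN_1_rb803101x2_13

theorem g__xs_43_wN_1_rb803101x2_14 : GoodKC AS k_xs_43_wN_1_rb803101x2_14 := p_xs_43_wN_1_rb803101x2_14

theorem g__xs_43_wN_1_rb803101x2_11 : GoodKC AS k_xs_43_wN_1_rb803101x2_11 := p_xs_43_wN_1_rb803101x2_11 g__xs_43_wN_1_rb803101x2_12 g__xs_43_wN_1_rb803101x2_14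

theorem g__xs_43_wN_1_rb803101x2_9 : GoodKC AS k_xs_43_wN_1_rb803101x2_9 := p_xs_43_wN_1_rb803101x2_9 g__xs_43_wN_1_rb803101x2_10 g__xs_43_wN_1_rb803101x2_11

theorem g__xs_43_wN_1_rb803101x2_7 : GoodKC AS k_xs_43_wN_1_rb803101x2_7 := p_xs_43_wN_1_rb803101x2_7 g__xs_43_wN_1_rb803101x2_8 g__xs_43_wN_1_rb803101x2_9

theorem g__xs_43_wN_1_rb803101x2_15 : GoodKC AS k_xs_43_wN_1_rb803101x2_15 := p_xs_43_wN_1_rb803101x2_15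

theorem g__xs_43_wN_1_rb803101x2_16 : GoodKC AS k_xs_43_wN_1_rb803101x2_16 := p_xs_43_wN_1_rb803101x2_16

theorem g__xs_43_wN_1_rb803101x2_6 : GoodKC AS k_xs_43_wN_1_rb803101x2_6 := p_xs_43_wN_1_rb803101x2_6 g__xs_43_wN_1_rb803101x2_7 g__xs_43_wN_1_rb803101x2_15 g__xs_43_wN_1_rb803101x2_16

theorem g__xs_43_wN_1_rb803101x2_5 : GoodKC AS k_xs_43_wN_1_rb803101x2_5 := p_xs_43_wN_1_rb803101x2_5 g_xs_42_xs_43_wN_1_rb80310100x2 g__xs_43_wN_1_rb803101x2_6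

theorem g_xs_42_xs_43_wN_1_rb80310101x2 : GoodKC AS c_xs_42_xs_43_wN_1_rb80310101x2 := p_xs_42_xs_43_wN_1_rb80310101

theorem g__xs_43_wN_1_rb803101x2_4 : GoodKC AS k_xs_43_wN_1_rb803101x2_4 := p_xs_43_wN_1_rb803101x2_4 g_xs_42_xs_43_wN_1_rb80310102x2 g__xs_43_wN_1_rb803101x2_5 g_xs_42_xs_43_wN_1_rb80310101x2

theorem g__xs_43_wN_1_rb803101x2_3 : GoodKC AS k_xs_43_wN_1_rb803101x2_3 := p_xs_43_wN_1_rb803101x2_3 g__xs_43_wN_1_rb803101x2_4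

theorem g__xs_43_wN_1_rb803101x2_2 : GoodKC AS k_xs_43_wN_1_rb803101x2_2 := p_xs_43_wN_1_rb803101x2_2 g__xs_43_wN_1_rb803101x2_3

theorem g__xs_43_wN_1_rb803101x2_19 : GoodKC AS k_xs_43_wN_1_rb803101x2_19 := p_xs_43_wN_1_rb803101x2_19

theorem g__xs_43_wN_1_rb803101x2_21 : GoodKC AS k_xs_43_wN_1_rb803101x2_21 := p_xs_43_wN_1_rb803101x2_21

theorem g__xs_43_wN_1_rb803101x2_22 : GoodKC AS k_xs_43_wN_1_rb803101x2_22 := p_xs_43_wN_1_rb803101x2_22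

theorem g__xs_43_wN_1_rb803101x2_23 : GoodKC AS k_xs_43_wN_1_rb803101x2_23 := p_xs_43_wN_1_rb803101x2_23

theorem g__xs_43_wN_1_rb803101x2_20 : GoodKC AS k_xs_43_wN_1_rb803101x2_20 := p_xs_43_wN_1_rb803101x2_20 g__xs_43_wN_1_rb803101x2_21 g__xs_43_wN_1_rb803101x2_22 g__xs_43_wN_1_rb803101x2_23

theorem g__xs_43_wN_1_rb803101x2_18 : GoodKC AS k_xs_43_wN_1_rb803101x2_18 := p_xs_43_wN_1_rb803101x2_18 g__xs_43_wN_1_rb803101x2_19 g__xs_43_wN_1_rb803101x2_20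

theorem g__xs_43_wN_1_rb803101x2_24 : GoodKC AS k_xs_43_wN_1_rb803101x2_24 := p_xs_43_wN_1_rb803101x2_24

theorem g__xs_43_wN_1_rb803101x2_17 : GoodKC AS k_xs_43_wN_1_rb803101x2_17 := p_xs_43_wN_1_rb803101x2_17 g__xs_43_wN_1_rb803101x2_18 g__xs_43_wN_1_rb803101x2_24

theorem g__xs_43_wN_1_rb803101x2_0 : GoodKC AS k_xs_43_wN_1_rb803101x2_0 := p_xs_43_wN_1_rb803101x2_0 g_xs_42_xs_43_wN_1_rb80310103x2 g__xs_43_wN_1_rb803101x2_1 g__xs_43_wN_1_rb803101x2_2 g__xs_43_wN_1_rb803101x2_17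

theorem g_xs_42_xs_43_wN_1_rb80310104x2 : GoodKC AS c_xs_42_xs_43_wN_1_rb80310104x2 := p_xs_42_xs_43_wN_1_rb80310104

theorem g_xs_43_wN_1_rb803101x5 : GoodKC AS c_xs_43_wN_1_rb803101x5 := p_xs_43_wN_1_rb803101x2 g__xs_43_wN_1_rb803101x2_0 g_xs_42_xs_43_wN_1_rb80310104x2

theorem g__wN_1_rb8031x5_1 : GoodKC AS k_wN_1_rb8031x5_1 := p_wN_1_rb8031x5_1

theorem g__wN_1_rb8031x5_2 : GoodKC AS k_wN_1_rb8031x5_2 := p_wN_1_rb8031x5_2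

theorem g__wN_1_rb8031x5_4 : GoodKC AS k_wN_1_rb8031x5_4 := p_wN_1_rb8031x5_4

theorem g__wN_1_rb8031x5_5 : GoodKC AS k_wN_1_rb8031x5_5 := p_wN_1_rb8031x5_5

theorem g__wN_1_rb8031x5_6 : GoodKC AS k_wN_1_rb8031x5_6 := p_wN_1_rb8031x5_6

theorem g__wN_1_rb8031x5_9 : GoodKC AS k_wN_1_rb8031x5_9 := p_wN_1_rb8031x5_9

theorem g__wN_1_rb8031x5_10 : GoodKC AS k_wN_1_rb8031x5_10 := p_wN_1_rb8031x5_10

theorem g__wN_1_rb8031x5_8 : GoodKC AS k_wN_1_rb8031x5_8 := p_wN_1_rb8031x5_8 g__wN_1_rb8031x5_9 g__wN_1_rb8031x5_10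

theorem g__wN_1_rb8031x5_7 : GoodKC AS k_wN_1_rb8031x5_7 := p_wN_1_rb8031x5_7 g__wN_1_rb8031x5_8

theorem g__wN_1_rb8031x5_11 : GoodKC AS k_wN_1_rb8031x5_11 := p_wN_1_rb8031x5_11

theorem g__wN_1_rb8031x5_3 : GoodKC AS k_wN_1_rb8031x5_3 := p_wN_1_rb8031x5_3 g__wN_1_rb8031x5_4 g__wN_1_rb8031x5_5 g__wN_1_rb8031x5_6 g__wN_1_rb8031x5_7 g__wN_1_rb8031x5_11

theorem g__wN_1_rb8031x5_0 : GoodKC AS k_wN_1_rb8031x5_0 := p_wN_1_rb8031x5_0 g__wN_1_rb8031x5_1 g__wN_1_rb8031x5_2 g__wN_1_rb8031x5_3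

theorem g__wN_1_rb8031x5_12 : GoodKC AS k_wN_1_rb8031x5_12 := p_wN_1_rb8031x5_12

theorem g__wN_1_rb8031x5_14 : GoodKC AS k_wN_1_rb8031x5_14 := p_wN_1_rb8031x5_14

theorem g__wN_1_rb8031x5_13 : GoodKC AS k_wN_1_rb8031x5_13 := p_wN_1_rb8031x5_13 g__wN_1_rb8031x5_14

theorem g__wN_1_rb8031x5_17 : GoodKC AS k_wN_1_rb8031x5_17 := p_wN_1_rb8031x5_17

theorem g__wN_1_rb8031x5_18 : GoodKC AS k_wN_1_rb8031x5_18 := p_wN_1_rb8031x5_18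

theorem g__wN_1_rb8031x5_19 : GoodKC AS k_wN_1_rb8031x5_19 := p_wN_1_rb8031x5_19

theorem g__wN_1_rb8031x5_20 : GoodKC AS k_wN_1_rb8031x5_20 := p_wN_1_rb8031x5_20

theorem g__wN_1_rb8031x5_22 : GoodKC AS k_wN_1_rb8031x5_22 := p_wN_1_rb8031x5_22

theorem g__wN_1_rb8031x5_24 : GoodKC AS k_wN_1_rb8031x5_24 := p_wN_1_rb8031x5_24

theorem g__wN_1_rb8031x5_23 : GoodKC AS k_wN_1_rb8031x5_23 := p_wN_1_rb8031x5_23 g__wN_1_rb8031x5_24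

theorem g__wN_1_rb8031x5_25 : GoodKC AS k_wN_1_rb8031x5_25 := p_wN_1_rb8031x5_25

theorem g__wN_1_rb8031x5_21 : GoodKC AS k_wN_1_rb8031x5_21 := p_wN_1_rb8031x5_21 g__wN_1_rb8031x5_22 g__wN_1_rb8031x5_23 g__wN_1_rb8031x5_25

theorem g__wN_1_rb8031x5_16 : GoodKC AS k_wN_1_rb8031x5_16 := p_wN_1_rb8031x5_16 g__wN_1_rb8031x5_17 g__wN_1_rb8031x5_18 g__wN_1_rb8031x5_19 g__wN_1_rb8031x5_20 g__wN_1_rb8031x5_21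

theorem g__wN_1_rb8031x5_26 : GoodKC AS k_wN_1_rb8031x5_26 := p_wN_1_rb8031x5_26

theorem g__wN_1_rb8031x5_27 : GoodKC AS k_wN_1_rb8031x5_27 := p_wN_1_rb8031x5_27

theorem g__wN_1_rb8031x5_15 : GoodKC AS k_wN_1_rb8031x5_15 := p_wN_1_rb8031x5_15 g__wN_1_rb8031x5_16 g__wN_1_rb8031x5_26 g__wN_1_rb8031x5_27

theorem g__xs_43_wN_1_rb803100v2_2 : GoodKC AS k_xs_43_wN_1_rb803100v2_2 := p_xs_43_wN_1_rb803100v2_2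

theorem g__xs_43_wN_1_rb803100v2_1 : GoodKC AS k_xs_43_wN_1_rb803100v2_1 := p_xs_43_wN_1_rb803100v2_1 g__xs_43_wN_1_rb803100v2_2

theorem g__xs_43_wN_1_rb803100v2_3 : GoodKC AS k_xs_43_wN_1_rb803100v2_3 := p_xs_43_wN_1_rb803100v2_3

theorem g__xs_43_wN_1_rb803100v2_0 : GoodKC AS k_xs_43_wN_1_rb803100v2_0 := p_xs_43_wN_1_rb803100v2_0 g__xs_43_wN_1_rb803100v2_1 g__xs_43_wN_1_rb803100v2_3

theorem g_xs_43_wN_1_rb803100x5 : GoodKC AS c_xs_43_wN_1_rb803100x5 := p_xs_43_wN_1_rb803100x2 g__xs_43_wN_1_rb803100v2_0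

theorem g_wN_1_rb8031x9 : GoodKC AS c_wN_1_rb8031x9 := p_wN_1_rb8031x5 g_xs_43_wN_1_rb803101x5 g__wN_1_rb8031x5_0 g__wN_1_rb8031x5_12 g__wN_1_rb8031x5_13 g__wN_1_rb8031x5_15 g_xs_43_wN_1_rb803100x5

theorem g__wN_1_rb8032_0 : GoodKC AS k_wN_1_rb8032_0 := p_wN_1_rb8032_0

theorem g__wN_1_rb8032_1 : GoodKC AS k_wN_1_rb8032_1 := p_wN_1_rb8032_1

theorem g_wN_1_rb8032x9 : GoodKC AS c_wN_1_rb8032x9 := p_wN_1_rb8032 g__wN_1_rb8032_0 g__wN_1_rb8032_1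

theorem g_rb80 : GoodKC AS c_rb80 := p_rb80x9 g_wN_1_rb8033x9 g_wN_1_rb802ex9 g_wN_1_rb802bx9 g_wN_1_rb8029x9 g_wN_1_rb8027x9 g_wN_1_rb8024x9 g_wN_1_rb8020x9 g_wN_1_rb801fx9 g_wN_1_rb801dx9 g_wN_1_rb801ax9 g_wN_1_rb8019x9 g_wN_1_rb8018x9 g_wN_1_rb8017x9 g_wN_1_rb8012x9 g_wN_1_rb8010x9 g_wN_1_rb800fx9 g_wN_1_rb800ex9 g_wN_1_rb800dx9 g_wN_1_rb800cx9 g_wN_1_rb800bx9 g__rb80v9_0 g_wN_1_rb800ax9 g_wN_1_rb8009x9 g_wN_1_rb8008x9 g__rb80v9_28 g_wN_1_rb8006x9 g_wN_1_rb8004x9 g_wN_1_rb8001x9 g_wN_1_rb8002x9 g_wN_1_rb8003x9 g_wN_1_rb8005x9 g_wN_1_rb8007x9 g_wN_1_rb8011x9 g_wN_1_rb8013x9 g_wN_1_rb8014x9 g_wN_1_rb8015x9 g_wN_1_rb8016x9 g_wN_1_rb801bx9 g_wN_1_rb801cx9 g_wN_1_rb801ex9 g_wN_1_rb8021x9 g_wN_1_rb8022x9 g_wN_1_rb8023x9 g_wN_1_rb8025x9 g_wN_1_rb8026x9 g_wN_1_rb8028x9 g_wN_1_rb802ax9 g_wN_1_rb802cx9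 g_wN_1_rb802dx9 g_wN_1_rb802fx9 g_wN_1_rb8030x9 g_wN_1_rb8031x9 g_wN_1_rb8032x9

theorem g_wN_1_rb7f0e : GoodKC AS c_wN_1_rb7f0e := p_wN_1_rb7f0e

theorem g_wN_1_rb7f0d : GoodKC AS c_wN_1_rb7f0d := p_wN_1_rb7f0d

theorem g_wN_1_rb7f07 : GoodKC AS c_wN_1_rb7f07 := p_wN_1_rb7f07

theorem g__wN_1_rb7f02_0 : GoodKC AS k_wN_1_rb7f02_0 := p_wN_1_rb7f02_0

theorem g__wN_1_rb7f02_1 : GoodKC AS k_wN_1_rb7f02_1 := p_wN_1_rb7f02_1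

theorem g_wN_1_rb7f02 : GoodKC AS c_wN_1_rb7f02 := p_wN_1_rb7f02 g__wN_1_rb7f02_0 g__wN_1_rb7f02_1

theorem g__rb7f_4 : GoodKC AS k_rb7f_4 := p_rb7f_4

theorem g__rb7f_3 : GoodKC AS k_rb7f_3 := p_rb7f_3 g__rb7f_4

theorem g__rb7f_9 : GoodKC AS k_rb7f_9 := p_rb7f_9

theorem g__rb7f_8 : GoodKC AS k_rb7f_8 := p_rb7f_8 g__rb7f_9

theorem g__rb7f_12 : GoodKC AS k_rb7f_12 := p_rb7f_12

theorem g__rb7f_11 : GoodKC AS k_rb7f_11 := p_rb7f_11 g__rb7f_12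

theorem g__rb7f_15 : GoodKC AS k_rb7f_15 := p_rb7f_15

theorem g__rb7f_14 : GoodKC AS k_rb7f_14 := p_rb7f_14 g__rb7f_15

theorem g__rb7f_13 : GoodKC AS k_rb7f_13 := p_rb7f_13 g__rb7f_14

theorem g__rb7f_10 : GoodKC AS k_rb7f_10 := p_rb7f_10 g__rb7f_11 g__rb7f_13

theorem g__rb7f_7 : GoodKC AS k_rb7f_7 := p_rb7f_7 g__rb7f_8 g__rb7f_10

theorem g__rb7f_6 : GoodKC AS k_rb7f_6 := p_rb7f_6 g__rb7f_7

theorem g__rb7f_5 : GoodKC AS k_rb7f_5 := p_rb7f_5 g__rb7f_6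

theorem g__rb7f_2 : GoodKC AS k_rb7f_2 := p_rb7f_2 g__rb7f_3 g__rb7f_5

theorem g__rb7f_16 : GoodKC AS k_rb7f_16 := p_rb7f_16

theorem g__rb7f_19 : GoodKC AS k_rb7f_19 := p_rb7f_19

theorem g__rb7f_20 : GoodKC AS k_rb7f_20 := p_rb7f_20

theorem g__rb7f_23 : GoodKC AS k_rb7f_23 := p_rb7f_23

theorem g__rb7f_25 : GoodKC AS k_rb7f_25 := p_rb7f_25

theorem g__rb7f_24 : GoodKC AS k_rb7f_24 := p_rb7f_24 g__rb7f_25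

theorem g__rb7f_22 : GoodKC AS k_rb7f_22 := p_rb7f_22 g__rb7f_23 g__rb7f_24

theorem g__rb7f_21 : GoodKC AS k_rb7f_21 := p_rb7f_21 g__rb7f_22

theorem g__rb7f_18 : GoodKC AS k_rb7f_18 := p_rb7f_18 g__rb7f_19 g__rb7f_20 g__rb7f_21

theorem g__rb7f_17 : GoodKC AS k_rb7f_17 := p_rb7f_17 g__rb7f_18

theorem g__wN_1_rb7f00_1 : GoodKC AS k_wN_1_rb7f00_1 := p_wN_1_rb7f00_1

theorem g__wN_1_rb7f00_0 : GoodKC AS k_wN_1_rb7f00_0 := p_wN_1_rb7f00_0 g__wN_1_rb7f00_1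

theorem g__wN_1_rb7f00_2 : GoodKC AS k_wN_1_rb7f00_2 := p_wN_1_rb7f00_2

theorem g_wN_1_rb7f00 : GoodKC AS c_wN_1_rb7f00 := p_wN_1_rb7f00 g__wN_1_rb7f00_0 g__wN_1_rb7f00_2

theorem g__rb7f_27 : GoodKC AS k_rb7f_27 := p_rb7f_27

theorem g__rb7f_29 : GoodKC AS k_rb7f_29 := p_rb7f_29

theorem g__rb7f_28 : GoodKC AS k_rb7f_28 := p_rb7f_28 g__rb7f_29

theorem g__rb7f_30 : GoodKC AS k_rb7f_30 := p_rb7f_30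

theorem g__rb7f_32 : GoodKC AS k_rb7f_32 := p_rb7f_32

theorem g__rb7f_31 : GoodKC AS k_rb7f_31 := p_rb7f_31 g__rb7f_32

theorem g__rb7f_33 : GoodKC AS k_rb7f_33 := p_rb7f_33

theorem g__rb7f_26 : GoodKC AS k_rb7f_26 := p_rb7f_26 g_wN_1_rb7f00 g__rb7f_27 g__rb7f_28 g__rb7f_30 g__rb7f_31 g__rb7f_33

theorem g__wN_1_rb7f01_2 : GoodKC AS k_wN_1_rb7f01_2 := p_wN_1_rb7f01_2

theorem g__wN_1_rb7f01_3 : GoodKC AS k_wN_1_rb7f01_3 := p_wN_1_rb7f01_3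

theorem g__wN_1_rb7f01_7 : GoodKC AS k_wN_1_rb7f01_7 := p_wN_1_rb7f01_7

theorem g__wN_1_rb7f01_8 : GoodKC AS k_wN_1_rb7f01_8 := p_wN_1_rb7f01_8

theorem g__wN_1_rb7f01_6 : GoodKC AS k_wN_1_rb7f01_6 := p_wN_1_rb7f01_6 g__wN_1_rb7f01_7 g__wN_1_rb7f01_8

theorem g__wN_1_rb7f01_5 : GoodKC AS k_wN_1_rb7f01_5 := p_wN_1_rb7f01_5 g__wN_1_rb7f01_6

theorem g__wN_1_rb7f01_4 : GoodKC AS k_wN_1_rb7f01_4 := p_wN_1_rb7f01_4 g__wN_1_rb7f01_5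

theorem g__wN_1_rb7f01_1 : GoodKC AS k_wN_1_rb7f01_1 := p_wN_1_rb7f01_1 g__wN_1_rb7f01_2 g__wN_1_rb7f01_3 g__wN_1_rb7f01_4

theorem g__wN_1_rb7f01_0 : GoodKC AS k_wN_1_rb7f01_0 := p_wN_1_rb7f01_0 g__wN_1_rb7f01_1

theorem g__wN_1_rb7f01_9 : GoodKC AS k_wN_1_rb7f01_9 := p_wN_1_rb7f01_9

theorem g_wN_1_rb7f01 : GoodKC AS c_wN_1_rb7f01 := p_wN_1_rb7f01 g__wN_1_rb7f01_0 g__wN_1_rb7f01_9

theorem g__rb7f_1 : GoodKC AS k_rb7f_1 := p_rb7f_1 g__rb7f_2 g__rb7f_16 g__rb7f_17 g__rb7f_26 g_wN_1_rb7f01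

theorem g_wN_1_rb7f030d : GoodKC AS c_wN_1_rb7f030d := p_wN_1_rb7f030d

theorem g_wN_1_rb7f030c : GoodKC AS c_wN_1_rb7f030c := p_wN_1_rb7f030c

theorem g_wN_1_rb7f030b : GoodKC AS c_wN_1_rb7f030b := p_wN_1_rb7f030b

theorem g__wN_1_rb7f03_0 : GoodKC AS k_wN_1_rb7f03_0 := p_wN_1_rb7f03_0

theorem g__wN_1_rb7f03_5 : GoodKC AS k_wN_1_rb7f03_5 := p_wN_1_rb7f03_5

theorem g__wN_1_rb7f03_4 : GoodKC AS k_wN_1_rb7f03_4 := p_wN_1_rb7f03_4 g__wN_1_rb7f03_5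

theorem g__wN_1_rb7f03_3 : GoodKC AS k_wN_1_rb7f03_3 := p_wN_1_rb7f03_3 g__wN_1_rb7f03_4

theorem g__wN_1_rb7f03_2 : GoodKC AS k_wN_1_rb7f03_2 := p_wN_1_rb7f03_2 g__wN_1_rb7f03_3

theorem g__wN_1_rb7f03_1 : GoodKC AS k_wN_1_rb7f03_1 := p_wN_1_rb7f03_1 g__wN_1_rb7f03_2

theorem g__wN_1_rb7f03_6 : GoodKC AS k_wN_1_rb7f03_6 := p_wN_1_rb7f03_6

theorem g__wN_1_rb7f0308_0 : GoodKC AS k_wN_1_rb7f0308_0 := p_wN_1_rb7f0308_0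

theorem g__wN_1_rb7f0308_3 : GoodKC AS k_wN_1_rb7f0308_3 := p_wN_1_rb7f0308_3

theorem g__wN_1_rb7f0308_4 : GoodKC AS k_wN_1_rb7f0308_4 := p_wN_1_rb7f0308_4

theorem g__wN_1_rb7f0308_5 : GoodKC AS k_wN_1_rb7f0308_5 := p_wN_1_rb7f0308_5

theorem g__wN_1_rb7f0308_2 : GoodKC AS k_wN_1_rb7f0308_2 := p_wN_1_rb7f0308_2 g__wN_1_rb7f0308_3 g__wN_1_rb7f0308_4 g__wN_1_rb7f0308_5

theorem g__wN_1_rb7f0308_6 : GoodKC AS k_wN_1_rb7f0308_6 := p_wN_1_rb7f0308_6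

theorem g__wN_1_rb7f0308_1 : GoodKC AS k_wN_1_rb7f0308_1 := p_wN_1_rb7f0308_1 g__wN_1_rb7f0308_2 g__wN_1_rb7f0308_6

theorem g_wN_1_rb7f0308 : GoodKC AS c_wN_1_rb7f0308 := p_wN_1_rb7f0308 g__wN_1_rb7f0308_0 g__wN_1_rb7f0308_1

theorem g_wN_1_rb7f0305 : GoodKC AS c_wN_1_rb7f0305 := p_wN_1_rb7f0305

theorem g_wN_1_rb7f0303 : GoodKC AS c_wN_1_rb7f0303 := p_wN_1_rb7f0303

theorem g_wN_1_rb7f0301 : GoodKC AS c_wN_1_rb7f0301 := p_wN_1_rb7f0301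

theorem g_wN_1_rb7f0300 : GoodKC AS c_wN_1_rb7f0300 := p_wN_1_rb7f0300

theorem g__wN_1_rb7f03_8 : GoodKC AS k_wN_1_rb7f03_8 := p_wN_1_rb7f03_8

theorem g_wN_1_rb7f0302 : GoodKC AS c_wN_1_rb7f0302 := p_wN_1_rb7f0302

theorem g_wN_1_rb7f0304 : GoodKC AS c_wN_1_rb7f0304 := p_wN_1_rb7f0304

theorem g__wN_1_rb7f03_17 : GoodKC AS k_wN_1_rb7f03_17 := p_wN_1_rb7f03_17

theorem g__wN_1_rb7f03_18 : GoodKC AS k_wN_1_rb7f03_18 := p_wN_1_rb7f03_18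

theorem g__wN_1_rb7f03_16 : GoodKC AS k_wN_1_rb7f03_16 := p_wN_1_rb7f03_16 g__wN_1_rb7f03_17 g__wN_1_rb7f03_18

theorem g__wN_1_rb7f03_15 : GoodKC AS k_wN_1_rb7f03_15 := p_wN_1_rb7f03_15 g__wN_1_rb7f03_16

theorem g__wN_1_rb7f03_14 : GoodKC AS k_wN_1_rb7f03_14 := p_wN_1_rb7f03_14 g__wN_1_rb7f03_15

theorem g__wN_1_rb7f03_13 : GoodKC AS k_wN_1_rb7f03_13 := p_wN_1_rb7f03_13 g__wN_1_rb7f03_14

theorem g__wN_1_rb7f03_12 : GoodKC AS k_wN_1_rb7f03_12 := p_wN_1_rb7f03_12 g__wN_1_rb7f03_13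

theorem g__wN_1_rb7f03_11 : GoodKC AS k_wN_1_rb7f03_11 := p_wN_1_rb7f03_11 g__wN_1_rb7f03_12

theorem g__wN_1_rb7f03_10 : GoodKC AS k_wN_1_rb7f03_10 := p_wN_1_rb7f03_10 g__wN_1_rb7f03_11

theorem g__wN_1_rb7f03_9 : GoodKC AS k_wN_1_rb7f03_9 := p_wN_1_rb7f03_9 g__wN_1_rb7f03_10

theorem g__wN_1_rb7f03_19 : GoodKC AS k_wN_1_rb7f03_19 := p_wN_1_rb7f03_19

theorem g_wN_1_rb7f0306 : GoodKC AS c_wN_1_rb7f0306 := p_wN_1_rb7f0306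

theorem g_wN_1_rb7f0307 : GoodKC AS c_wN_1_rb7f0307 := p_wN_1_rb7f0307

theorem g__wN_1_rb7f03_7 : GoodKC AS k_wN_1_rb7f03_7 := p_wN_1_rb7f03_7 g_wN_1_rb7f0308 g_wN_1_rb7f0305 g_wN_1_rb7f0303 g_wN_1_rb7f0301 g_wN_1_rb7f0300 g__wN_1_rb7f03_8 g_wN_1_rb7f0302 g_wN_1_rb7f0304 g__wN_1_rb7f03_9 g__wN_1_rb7f03_19 g_wN_1_rb7f0306 g_wN_1_rb7f0307

theorem g_wN_1_rb7f0309 : GoodKC AS c_wN_1_rb7f0309 := p_wN_1_rb7f0309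

theorem g_wN_1_rb7f030a : GoodKC AS c_wN_1_rb7f030a := p_wN_1_rb7f030a

theorem g_wN_1_rb7f03 : GoodKC AS c_wN_1_rb7f03 := p_wN_1_rb7f03 g_wN_1_rb7f030d g_wN_1_rb7f030c g_wN_1_rb7f030b g__wN_1_rb7f03_0 g__wN_1_rb7f03_1 g__wN_1_rb7f03_6 g__wN_1_rb7f03_7 g_wN_1_rb7f0309 g_wN_1_rb7f030a

theorem g_wN_1_rb7f04 : GoodKC AS c_wN_1_rb7f04 := p_wN_1_rb7f04

theorem g__wN_1_rb7f05_1 : GoodKC AS k_wN_1_rb7f05_1 := p_wN_1_rb7f05_1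

theorem g__wN_1_rb7f05_2 : GoodKC AS k_wN_1_rb7f05_2 := p_wN_1_rb7f05_2

theorem g__wN_1_rb7f05_0 : GoodKC AS k_wN_1_rb7f05_0 := p_wN_1_rb7f05_0 g__wN_1_rb7f05_1 g__wN_1_rb7f05_2

theorem g_wN_1_rb7f05 : GoodKC AS c_wN_1_rb7f05 := p_wN_1_rb7f05 g__wN_1_rb7f05_0

theorem g_wN_1_rb7f0616 : GoodKC AS c_wN_1_rb7f0616 := p_wN_1_rb7f0616

theorem g_wN_1_rb7f0615 : GoodKC AS c_wN_1_rb7f0615 := p_wN_1_rb7f0615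

theorem g_wN_1_rb7f0613 : GoodKC AS c_wN_1_rb7f0613 := p_wN_1_rb7f0613

theorem g_wN_1_rb7f0612 : GoodKC AS c_wN_1_rb7f0612 := p_wN_1_rb7f0612

theorem g_wN_1_rb7f0610 : GoodKC AS c_wN_1_rb7f0610 := p_wN_1_rb7f0610

theorem g_wN_1_rb7f060e : GoodKC AS c_wN_1_rb7f060e := p_wN_1_rb7f060e

theorem g_wN_1_rb7f0609 : GoodKC AS c_wN_1_rb7f0609 := p_wN_1_rb7f0609

theorem g_wN_1_rb7f0608 : GoodKC AS c_wN_1_rb7f0608 := p_wN_1_rb7f0608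

theorem g_wN_1_rb7f0607 : GoodKC AS c_wN_1_rb7f0607 := p_wN_1_rb7f0607

theorem g_wN_1_rb7f0605 : GoodKC AS c_wN_1_rb7f0605 := p_wN_1_rb7f0605

theorem g_wN_1_rb7f0603 : GoodKC AS c_wN_1_rb7f0603 := p_wN_1_rb7f0603

theorem g_wN_1_rb7f0604 : GoodKC AS c_wN_1_rb7f0604 := p_wN_1_rb7f0604

theorem g_wN_1_rb7f0606 : GoodKC AS c_wN_1_rb7f0606 := p_wN_1_rb7f0606

theorem g_wN_1_rb7f06010a : GoodKC AS c_wN_1_rb7f06010a := p_wN_1_rb7f06010a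

theorem g__wN_1_rb7f060109_0 : GoodKC AS k_wN_1_rb7f060109_0 := p_wN_1_rb7f060109_0

theorem g__wN_1_rb7f060109_2 : GoodKC AS k_wN_1_rb7f060109_2 := p_wN_1_rb7f060109_2

theorem g__wN_1_rb7f060109_1 : GoodKC AS k_wN_1_rb7f060109_1 := p_wN_1_rb7f060109_1 g__wN_1_rb7f060109_2

theorem g_wN_1_rb7f060109 : GoodKC AS c_wN_1_rb7f060109 := p_wN_1_rb7f060109 g__wN_1_rb7f060109_0 g__wN_1_rb7f060109_1

theorem g__wN_1_rb7f060108_1 : GoodKC AS k_wN_1_rb7f060108_1 := p_wN_1_rb7f060108_1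

theorem g__wN_1_rb7f060108_0 : GoodKC AS k_wN_1_rb7f060108_0 := p_wN_1_rb7f060108_0 g__wN_1_rb7f060108_1

theorem g__wN_1_rb7f060108_5 : GoodKC AS k_wN_1_rb7f060108_5 := p_wN_1_rb7f060108_5

theorem g__wN_1_rb7f060108_6 : GoodKC AS k_wN_1_rb7f060108_6 := p_wN_1_rb7f060108_6

theorem g__wN_1_rb7f060108_4 : GoodKC AS k_wN_1_rb7f060108_4 := p_wN_1_rb7f060108_4 g__wN_1_rb7f060108_5 g__wN_1_rb7f060108_6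

theorem g__wN_1_rb7f060108_3 : GoodKC AS k_wN_1_rb7f060108_3 := p_wN_1_rb7f060108_3 g__wN_1_rb7f060108_4

theorem g__wN_1_rb7f060108_2 : GoodKC AS k_wN_1_rb7f060108_2 := p_wN_1_rb7f060108_2 g__wN_1_rb7f060108_3

theorem g_wN_1_rb7f060108 : GoodKC AS c_wN_1_rb7f060108 := p_wN_1_rb7f060108 g__wN_1_rb7f060108_0 g__wN_1_rb7f060108_2

theorem g__wN_1_rb7f060107_0 : GoodKC AS k_wN_1_rb7f060107_0 := p_wN_1_rb7f060107_0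

theorem g__wN_1_rb7f060107_2 : GoodKC AS k_wN_1_rb7f060107_2 := p_wN_1_rb7f060107_2

theorem g__wN_1_rb7f060107_4 : GoodKC AS k_wN_1_rb7f060107_4 := p_wN_1_rb7f060107_4

theorem g__wN_1_rb7f060107_3 : GoodKC AS k_wN_1_rb7f060107_3 := p_wN_1_rb7f060107_3 g__wN_1_rb7f060107_4

theorem g__wN_1_rb7f060107_1 : GoodKC AS k_wN_1_rb7f060107_1 := p_wN_1_rb7f060107_1 g__wN_1_rb7f060107_2 g__wN_1_rb7f060107_3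

theorem g_wN_1_rb7f060107 : GoodKC AS c_wN_1_rb7f060107 := p_wN_1_rb7f060107 g__wN_1_rb7f060107_0 g__wN_1_rb7f060107_1

theorem g_wN_1_rb7f060106 : GoodKC AS c_wN_1_rb7f060106 := p_wN_1_rb7f060106

theorem g_wN_1_rb7f060103 : GoodKC AS c_wN_1_rb7f060103 := p_wN_1_rb7f060103

theorem g_wN_1_rb7f060102 : GoodKC AS c_wN_1_rb7f060102 := p_wN_1_rb7f060102

theorem g_wN_1_rb7f060104 : GoodKC AS c_wN_1_rb7f060104 := p_wN_1_rb7f060104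

theorem g_wN_1_rb7f060105 : GoodKC AS c_wN_1_rb7f060105 := p_wN_1_rb7f060105

theorem g__wN_1_rb7f060101_0 : GoodKC AS k_wN_1_rb7f060101_0 := p_wN_1_rb7f060101_0

theorem g__wN_1_rb7f060101_3 : GoodKC AS k_wN_1_rb7f060101_3 := p_wN_1_rb7f060101_3

theorem g__wN_1_rb7f060101_2 : GoodKC AS k_wN_1_rb7f060101_2 := p_wN_1_rb7f060101_2 g__wN_1_rb7f060101_3

theorem g__wN_1_rb7f060101_5 : GoodKC AS k_wN_1_rb7f060101_5 := p_wN_1_rb7f060101_5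

theorem g__wN_1_rb7f060101_4 : GoodKC AS k_wN_1_rb7f060101_4 := p_wN_1_rb7f060101_4 g__wN_1_rb7f060101_5

theorem g__wN_1_rb7f060101_1 : GoodKC AS k_wN_1_rb7f060101_1 := p_wN_1_rb7f060101_1 g__wN_1_rb7f060101_2 g__wN_1_rb7f060101_4

theorem g_wN_1_rb7f060101 : GoodKC AS c_wN_1_rb7f060101 := p_wN_1_rb7f060101 g__wN_1_rb7f060101_0 g__wN_1_rb7f060101_1

theorem g_wN_1_rb7f060100 : GoodKC AS c_wN_1_rb7f060100 := p_wN_1_rb7f060100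

theorem g__wN_1_rb7f0601_2 : GoodKC AS k_wN_1_rb7f0601_2 := p_wN_1_rb7f0601_2

theorem g__wN_1_rb7f0601_4 : GoodKC AS k_wN_1_rb7f0601_4 := p_wN_1_rb7f0601_4

theorem g__wN_1_rb7f0601_9 : GoodKC AS k_wN_1_rb7f0601_9 := p_wN_1_rb7f0601_9

theorem g__wN_1_rb7f0601_8 : GoodKC AS k_wN_1_rb7f0601_8 := p_wN_1_rb7f0601_8 g__wN_1_rb7f0601_9

theorem g__wN_1_rb7f0601_7 : GoodKC AS k_wN_1_rb7f0601_7 := p_wN_1_rb7f0601_7 g__wN_1_rb7f0601_8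

theorem g__wN_1_rb7f0601_6 : GoodKC AS k_wN_1_rb7f0601_6 := p_wN_1_rb7f0601_6 g__wN_1_rb7f0601_7

theorem g__wN_1_rb7f0601_5 : GoodKC AS k_wN_1_rb7f0601_5 := p_wN_1_rb7f0601_5 g__wN_1_rb7f0601_6

theorem g__wN_1_rb7f0601_3 : GoodKC AS k_wN_1_rb7f0601_3 := p_wN_1_rb7f0601_3 g__wN_1_rb7f0601_4 g__wN_1_rb7f0601_5

theorem g__wN_1_rb7f0601_1 : GoodKC AS k_wN_1_rb7f0601_1 := p_wN_1_rb7f0601_1 g__wN_1_rb7f0601_2 g__wN_1_rb7f0601_3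

theorem g__wN_1_rb7f0601_0 : GoodKC AS k_wN_1_rb7f0601_0 := p_wN_1_rb7f0601_0 g__wN_1_rb7f0601_1

theorem g__wN_1_rb7f0601_11 : GoodKC AS k_wN_1_rb7f0601_11 := p_wN_1_rb7f0601_11

theorem g__wN_1_rb7f0601_10 : GoodKC AS k_wN_1_rb7f0601_10 := p_wN_1_rb7f0601_10 g__wN_1_rb7f0601_11

theorem g__wN_1_rb7f0601_12 : GoodKC AS k_wN_1_rb7f0601_12 := p_wN_1_rb7f0601_12

theorem g__wN_1_rb7f0601_13 : GoodKC AS k_wN_1_rb7f0601_13 := p_wN_1_rb7f0601_13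

theorem g__wN_1_rb7f0601_14 : GoodKC AS k_wN_1_rb7f0601_14 := p_wN_1_rb7f0601_14

theorem g__wN_1_rb7f0601_17 : GoodKC AS k_wN_1_rb7f0601_17 := p_wN_1_rb7f0601_17

theorem g__wN_1_rb7f0601_18 : GoodKC AS k_wN_1_rb7f0601_18 := p_wN_1_rb7f0601_18

theorem g__wN_1_rb7f0601_16 : GoodKC AS k_wN_1_rb7f0601_16 := p_wN_1_rb7f0601_16 g__wN_1_rb7f0601_17 g__wN_1_rb7f0601_18

theorem g__wN_1_rb7f0601_15 : GoodKC AS k_wN_1_rb7f0601_15 := p_wN_1_rb7f0601_15 g__wN_1_rb7f0601_16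

theorem g_wN_1_rb7f06010b : GoodKC AS c_wN_1_rb7f06010b := p_wN_1_rb7f06010b

theorem g_wN_1_rb7f0601 : GoodKC AS c_wN_1_rb7f0601 := p_wN_1_rb7f0601 g_wN_1_rb7f06010a g_wN_1_rb7f060109 g_wN_1_rb7f060108 g_wN_1_rb7f060107 g_wN_1_rb7f060106 g_wN_1_rb7f060103 g_wN_1_rb7f060102 g_wN_1_rb7f060104 g_wN_1_rb7f060105 g_wN_1_rb7f060101 g_wN_1_rb7f060100 g__wN_1_rb7f0601_0 g__wN_1_rb7f0601_10 g__wN_1_rb7f0601_12 g__wN_1_rb7f0601_13 g__wN_1_rb7f0601_14 g__wN_1_rb7f0601_15 g_wN_1_rb7f06010b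

theorem g__wN_1_rb7f06_3 : GoodKC AS k_wN_1_rb7f06_3 := p_wN_1_rb7f06_3

theorem g__wN_1_rb7f06_2 : GoodKC AS k_wN_1_rb7f06_2 := p_wN_1_rb7f06_2 g__wN_1_rb7f06_3

theorem g__wN_1_rb7f06_6 : GoodKC AS k_wN_1_rb7f06_6 := p_wN_1_rb7f06_6

theorem g__wN_1_rb7f06_7 : GoodKC AS k_wN_1_rb7f06_7 := p_wN_1_rb7f06_7

theorem g__wN_1_rb7f06_9 : GoodKC AS k_wN_1_rb7f06_9 := p_wN_1_rb7f06_9

theorem g__wN_1_rb7f06_8 : GoodKC AS k_wN_1_rb7f06_8 := p_wN_1_rb7f06_8 g__wN_1_rb7f06_9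

theorem g__wN_1_rb7f06_5 : GoodKC AS k_wN_1_rb7f06_5 := p_wN_1_rb7f06_5 g__wN_1_rb7f06_6 g__wN_1_rb7f06_7 g__wN_1_rb7f06_8

theorem g__wN_1_rb7f06_4 : GoodKC AS k_wN_1_rb7f06_4 := p_wN_1_rb7f06_4 g__wN_1_rb7f06_5

theorem g__wN_1_rb7f06_1 : GoodKC AS k_wN_1_rb7f06_1 := p_wN_1_rb7f06_1 g__wN_1_rb7f06_2 g__wN_1_rb7f06_4

theorem g__wN_1_rb7f06_10 : GoodKC AS k_wN_1_rb7f06_10 := p_wN_1_rb7f06_10

theorem g__wN_1_rb7f06_0 : GoodKC AS k_wN_1_rb7f06_0 := p_wN_1_rb7f06_0 g__wN_1_rb7f06_1 g__wN_1_rb7f06_10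

theorem g__wN_1_rb7f0600_4 : GoodKC AS k_wN_1_rb7f0600_4 := p_wN_1_rb7f0600_4

theorem g__wN_1_rb7f0600_3 : GoodKC AS k_wN_1_rb7f0600_3 := p_wN_1_rb7f0600_3 g__wN_1_rb7f0600_4

theorem g__wN_1_rb7f0600_2 : GoodKC AS k_wN_1_rb7f0600_2 := p_wN_1_rb7f0600_2 g__wN_1_rb7f0600_3

theorem g__wN_1_rb7f0600_5 : GoodKC AS k_wN_1_rb7f0600_5 := p_wN_1_rb7f0600_5

theorem g__wN_1_rb7f0600_1 : GoodKC AS k_wN_1_rb7f0600_1 := p_wN_1_rb7f0600_1 g__wN_1_rb7f0600_2 g__wN_1_rb7f0600_5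

theorem g__wN_1_rb7f0600_6 : GoodKC AS k_wN_1_rb7f0600_6 := p_wN_1_rb7f0600_6

theorem g__wN_1_rb7f0600_0 : GoodKC AS k_wN_1_rb7f0600_0 := p_wN_1_rb7f0600_0 g__wN_1_rb7f0600_1 g__wN_1_rb7f0600_6

theorem g__wN_1_rb7f0600_7 : GoodKC AS k_wN_1_rb7f0600_7 := p_wN_1_rb7f0600_7

theorem g_wN_1_rb7f0600 : GoodKC AS c_wN_1_rb7f0600 := p_wN_1_rb7f0600 g__wN_1_rb7f0600_0 g__wN_1_rb7f0600_7

theorem g_wN_1_rb7f0602 : GoodKC AS c_wN_1_rb7f0602 := p_wN_1_rb7f0602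

theorem g_wN_1_rb7f060a : GoodKC AS c_wN_1_rb7f060a := p_wN_1_rb7f060a

theorem g_wN_1_rb7f060b : GoodKC AS c_wN_1_rb7f060b := p_wN_1_rb7f060b

theorem g_wN_1_rb7f060c : GoodKC AS c_wN_1_rb7f060c := p_wN_1_rb7f060c

theorem g_wN_1_rb7f060d : GoodKC AS c_wN_1_rb7f060d := p_wN_1_rb7f060d

theorem g__wN_1_rb7f060f_0 : GoodKC AS k_wN_1_rb7f060f_0 := p_wN_1_rb7f060f_0

theorem g_wN_1_rb7f060f : GoodKC AS c_wN_1_rb7f060f := p_wN_1_rb7f060f g__wN_1_rb7f060f_0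

theorem g__wN_1_rb7f0611_0 : GoodKC AS k_wN_1_rb7f0611_0 := p_wN_1_rb7f0611_0

theorem g_wN_1_rb7f0611 : GoodKC AS c_wN_1_rb7f0611 := p_wN_1_rb7f0611 g__wN_1_rb7f0611_0

theorem g__wN_1_rb7f0614_1 : GoodKC AS k_wN_1_rb7f0614_1 := p_wN_1_rb7f0614_1

theorem g__wN_1_rb7f0614_0 : GoodKC AS k_wN_1_rb7f0614_0 := p_wN_1_rb7f0614_0 g__wN_1_rb7f0614_1

theorem g_wN_1_rb7f0614 : GoodKC AS c_wN_1_rb7f0614 := p_wN_1_rb7f0614 g__wN_1_rb7f0614_0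

theorem g_wN_1_rb7f06 : GoodKC AS c_wN_1_rb7f06 := p_wN_1_rb7f06 g_wN_1_rb7f0616 g_wN_1_rb7f0615 g_wN_1_rb7f0613 g_wN_1_rb7f0612 g_wN_1_rb7f0610 g_wN_1_rb7f060e g_wN_1_rb7f0609 g_wN_1_rb7f0608 g_wN_1_rb7f0607 g_wN_1_rb7f0605 g_wN_1_rb7f0603 g_wN_1_rb7f0604 g_wN_1_rb7f0606 g_wN_1_rb7f0601 g__wN_1_rb7f06_0 g_wN_1_rb7f0600 g_wN_1_rb7f0602 g_wN_1_rb7f060a g_wN_1_rb7f060b g_wN_1_rb7f060c g_wN_1_rb7f060d g_wN_1_rb7f060f g_wN_1_rb7f0611 g_wN_1_rb7f0614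

theorem g__rb7f_0 : GoodKC AS k_rb7f_0 := p_rb7f_0 g_wN_1_rb7f07 g_wN_1_rb7f02 g__rb7f_1 g_wN_1_rb7f03 g_wN_1_rb7f04 g_wN_1_rb7f05 g_wN_1_rb7f06

theorem g__wN_1_rb7f08_0 : GoodKC AS k_wN_1_rb7f08_0 := p_wN_1_rb7f08_0

theorem g__wN_1_rb7f08_1 : GoodKC AS k_wN_1_rb7f08_1 := p_wN_1_rb7f08_1

theorem g__wN_1_rb7f08_4 : GoodKC AS k_wN_1_rb7f08_4 := p_wN_1_rb7f08_4

theorem g__wN_1_rb7f08_3 : GoodKC AS k_wN_1_rb7f08_3 := p_wN_1_rb7f08_3 g__wN_1_rb7f08_4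

theorem g__wN_1_rb7f08_5 : GoodKC AS k_wN_1_rb7f08_5 := p_wN_1_rb7f08_5

theorem g__wN_1_rb7f08_2 : GoodKC AS k_wN_1_rb7f08_2 := p_wN_1_rb7f08_2 g__wN_1_rb7f08_3 g__wN_1_rb7f08_5

theorem g__wN_1_rb7f08_6 : GoodKC AS k_wN_1_rb7f08_6 := p_wN_1_rb7f08_6

theorem g_wN_1_rb7f08 : GoodKC AS c_wN_1_rb7f08 := p_wN_1_rb7f08 g__wN_1_rb7f08_0 g__wN_1_rb7f08_1 g__wN_1_rb7f08_2 g__wN_1_rb7f08_6

theorem g__rb7f_34 : GoodKC AS k_rb7f_34 := p_rb7f_34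

theorem g_wN_1_rb7f092e : GoodKC AS c_wN_1_rb7f092e := p_wN_1_rb7f092e

theorem g_wN_1_rb7f092a00 : GoodKC AS c_wN_1_rb7f092a00 := p_wN_1_rb7f092a00

theorem g__wN_1_rb7f092a_0 : GoodKC AS k_wN_1_rb7f092a_0 := p_wN_1_rb7f092a_0

theorem g__wN_1_rb7f092a_2 : GoodKC AS k_wN_1_rb7f092a_2 := p_wN_1_rb7f092a_2

theorem g__wN_1_rb7f092a_1 : GoodKC AS k_wN_1_rb7f092a_1 := p_wN_1_rb7f092a_1 g__wN_1_rb7f092a_2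

theorem g__wN_1_rb7f092a_6 : GoodKC AS k_wN_1_rb7f092a_6 := p_wN_1_rb7f092a_6

theorem g__wN_1_rb7f092a_13 : GoodKC AS k_wN_1_rb7f092a_13 := p_wN_1_rb7f092a_13

theorem g__wN_1_rb7f092a_14 : GoodKC AS k_wN_1_rb7f092a_14 := p_wN_1_rb7f092a_14

theorem g__wN_1_rb7f092a_12 : GoodKC AS k_wN_1_rb7f092a_12 := p_wN_1_rb7f092a_12 g__wN_1_rb7f092a_13 g__wN_1_rb7f092a_14

theorem g__wN_1_rb7f092a_11 : GoodKC AS k_wN_1_rb7f092a_11 := p_wN_1_rb7f092a_11 g__wN_1_rb7f092a_12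

theorem g__wN_1_rb7f092a_15 : GoodKC AS k_wN_1_rb7f092a_15 := p_wN_1_rb7f092a_15

theorem g__wN_1_rb7f092a_16 : GoodKC AS k_wN_1_rb7f092a_16 := p_wN_1_rb7f092a_16

theorem g__wN_1_rb7f092a_10 : GoodKC AS k_wN_1_rb7f092a_10 := p_wN_1_rb7f092a_10 g__wN_1_rb7f092a_11 g__wN_1_rb7f092a_15 g__wN_1_rb7f092a_16

theorem g__wN_1_rb7f092a_9 : GoodKC AS k_wN_1_rb7f092a_9 := p_wN_1_rb7f092a_9 g__wN_1_rb7f092a_10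

theorem g__wN_1_rb7f092a_8 : GoodKC AS k_wN_1_rb7f092a_8 := p_wN_1_rb7f092a_8 g__wN_1_rb7f092a_9

theorem g__wN_1_rb7f092a_7 : GoodKC AS k_wN_1_rb7f092a_7 := p_wN_1_rb7f092a_7 g__wN_1_rb7f092a_8

theorem g__wN_1_rb7f092a_5 : GoodKC AS k_wN_1_rb7f092a_5 := p_wN_1_rb7f092a_5 g__wN_1_rb7f092a_6 g__wN_1_rb7f092a_7

theorem g__wN_1_rb7f092a_4 : GoodKC AS k_wN_1_rb7f092a_4 := p_wN_1_rb7f092a_4 g__wN_1_rb7f092a_5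

theorem g__wN_1_rb7f092a_3 : GoodKC AS k_wN_1_rb7f092a_3 := p_wN_1_rb7f092a_3 g__wN_1_rb7f092a_4

theorem g__wN_1_rb7f092a01_1 : GoodKC AS k_wN_1_rb7f092a01_1 := p_wN_1_rb7f092a01_1

theorem g__wN_1_rb7f092a01_2 : GoodKC AS k_wN_1_rb7f092a01_2 := p_wN_1_rb7f092a01_2

theorem g__wN_1_rb7f092a01_0 : GoodKC AS k_wN_1_rb7f092a01_0 := p_wN_1_rb7f092a01_0 g__wN_1_rb7f092a01_1 g__wN_1_rb7f092a01_2

theorem g_wN_1_rb7f092a01 : GoodKC AS c_wN_1_rb7f092a01 := p_wN_1_rb7f092a01 g__wN_1_rb7f092a01_0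

theorem g_wN_1_rb7f092a : GoodKC AS c_wN_1_rb7f092a := p_wN_1_rb7f092a g_wN_1_rb7f092a00 g__wN_1_rb7f092a_0 g__wN_1_rb7f092a_1 g__wN_1_rb7f092a_3 g_wN_1_rb7f092a01

theorem g__wN_1_rb7f0929_0 : GoodKC AS k_wN_1_rb7f0929_0 := p_wN_1_rb7f0929_0

theorem g_wN_1_rb7f0929 : GoodKC AS c_wN_1_rb7f0929 := p_wN_1_rb7f0929 g__wN_1_rb7f0929_0

theorem g_wN_1_rb7f0928 : GoodKC AS c_wN_1_rb7f0928 := p_wN_1_rb7f0928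

theorem g_wN_1_rb7f0926 : GoodKC AS c_wN_1_rb7f0926 := p_wN_1_rb7f0926

theorem g_wN_1_rb7f0925 : GoodKC AS c_wN_1_rb7f0925 := p_wN_1_rb7f0925

theorem g_wN_1_rb7f091f : GoodKC AS c_wN_1_rb7f091f := p_wN_1_rb7f091f

theorem g_wN_1_rb7f091c : GoodKC AS c_wN_1_rb7f091c := p_wN_1_rb7f091c

theorem g_wN_1_rb7f0919 : GoodKC AS c_wN_1_rb7f0919 := p_wN_1_rb7f0919

theorem g_wN_1_rb7f0915 : GoodKC AS c_wN_1_rb7f0915 := p_wN_1_rb7f0915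

theorem g__wN_1_rb7f0913_4 : GoodKC AS k_wN_1_rb7f0913_4 := p_wN_1_rb7f0913_4

theorem g__wN_1_rb7f0913_3 : GoodKC AS k_wN_1_rb7f0913_3 := p_wN_1_rb7f0913_3 g__wN_1_rb7f0913_4

theorem g__wN_1_rb7f0913_2 : GoodKC AS k_wN_1_rb7f0913_2 := p_wN_1_rb7f0913_2 g__wN_1_rb7f0913_3

theorem g__wN_1_rb7f0913_1 : GoodKC AS k_wN_1_rb7f0913_1 := p_wN_1_rb7f0913_1 g__wN_1_rb7f0913_2

theorem g__wN_1_rb7f0913_0 : GoodKC AS k_wN_1_rb7f0913_0 := p_wN_1_rb7f0913_0 g__wN_1_rb7f0913_1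

theorem g_wN_1_rb7f091305 : GoodKC AS c_wN_1_rb7f091305 := p_wN_1_rb7f091305

theorem g_wN_1_rb7f091302 : GoodKC AS c_wN_1_rb7f091302 := p_wN_1_rb7f091302

theorem g_wN_1_rb7f091301 : GoodKC AS c_wN_1_rb7f091301 := p_wN_1_rb7f091301

theorem g_wN_1_rb7f091300 : GoodKC AS c_wN_1_rb7f091300 := p_wN_1_rb7f091300

theorem g_wN_1_rb7f091303 : GoodKC AS c_wN_1_rb7f091303 := p_wN_1_rb7f091303

theorem g_wN_1_rb7f091304 : GoodKC AS c_wN_1_rb7f091304 := p_wN_1_rb7f091304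

theorem g_wN_1_rb7f091306 : GoodKC AS c_wN_1_rb7f091306 := p_wN_1_rb7f091306

theorem g_wN_1_rb7f091307 : GoodKC AS c_wN_1_rb7f091307 := p_wN_1_rb7f091307

theorem g_wN_1_rb7f0913 : GoodKC AS c_wN_1_rb7f0913 := p_wN_1_rb7f0913 g__wN_1_rb7f0913_0 g_wN_1_rb7f091305 g_wN_1_rb7f091302 g_wN_1_rb7f091301 g_wN_1_rb7f091300 g_wN_1_rb7f091303 g_wN_1_rb7f091304 g_wN_1_rb7f091306 g_wN_1_rb7f091307

theorem g__wN_1_rb7f0911_0 : GoodKC AS k_wN_1_rb7f0911_0 := p_wN_1_rb7f0911_0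

theorem g_wN_1_rb7f0911 : GoodKC AS c_wN_1_rb7f0911 := p_wN_1_rb7f0911 g__wN_1_rb7f0911_0

theorem g_wN_1_rb7f090d : GoodKC AS c_wN_1_rb7f090d := p_wN_1_rb7f090d

theorem g_wN_1_rb7f090c : GoodKC AS c_wN_1_rb7f090c := p_wN_1_rb7f090c

theorem g__wN_1_rb7f090b_1 : GoodKC AS k_wN_1_rb7f090b_1 := p_wN_1_rb7f090b_1

theorem g__wN_1_rb7f090b_0 : GoodKC AS k_wN_1_rb7f090b_0 := p_wN_1_rb7f090b_0 g__wN_1_rb7f090b_1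

theorem g_wN_1_rb7f090b : GoodKC AS c_wN_1_rb7f090b := p_wN_1_rb7f090b g__wN_1_rb7f090b_0

theorem g__wN_1_rb7f090a_0 : GoodKC AS k_wN_1_rb7f090a_0 := p_wN_1_rb7f090a_0

theorem g_wN_1_rb7f090a : GoodKC AS c_wN_1_rb7f090a := p_wN_1_rb7f090a g__wN_1_rb7f090a_0

theorem g_wN_1_rb7f0909 : GoodKC AS c_wN_1_rb7f0909 := p_wN_1_rb7f0909

theorem g_wN_1_rb7f0906 : GoodKC AS c_wN_1_rb7f0906 := p_wN_1_rb7f0906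

theorem g_wN_1_rb7f0905 : GoodKC AS c_wN_1_rb7f0905 := p_wN_1_rb7f0905

theorem g_wN_1_rb7f0903 : GoodKC AS c_wN_1_rb7f0903 := p_wN_1_rb7f0903

theorem g_wN_1_rb7f0902 : GoodKC AS c_wN_1_rb7f0902 := p_wN_1_rb7f0902

theorem g_wN_1_rb7f0901 : GoodKC AS c_wN_1_rb7f0901 := p_wN_1_rb7f0901

theorem g_wN_1_rb7f0900 : GoodKC AS c_wN_1_rb7f0900 := p_wN_1_rb7f0900

theorem g_wN_1_rb7f0904 : GoodKC AS c_wN_1_rb7f0904 := p_wN_1_rb7f0904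

theorem g_wN_1_rb7f0907 : GoodKC AS c_wN_1_rb7f0907 := p_wN_1_rb7f0907

theorem g_wN_1_rb7f0908 : GoodKC AS c_wN_1_rb7f0908 := p_wN_1_rb7f0908

theorem g_wN_1_rb7f090e : GoodKC AS c_wN_1_rb7f090e := p_wN_1_rb7f090e

theorem g_wN_1_rb7f090f : GoodKC AS c_wN_1_rb7f090f := p_wN_1_rb7f090f

theorem g_wN_1_rb7f0910 : GoodKC AS c_wN_1_rb7f0910 := p_wN_1_rb7f0910

theorem g_wN_1_rb7f0912 : GoodKC AS c_wN_1_rb7f0912 := p_wN_1_rb7f0912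

theorem g_wN_1_rb7f0914 : GoodKC AS c_wN_1_rb7f0914 := p_wN_1_rb7f0914

theorem g_wN_1_rb7f0916 : GoodKC AS c_wN_1_rb7f0916 := p_wN_1_rb7f0916

theorem g_wN_1_rb7f0917 : GoodKC AS c_wN_1_rb7f0917 := p_wN_1_rb7f0917

theorem g_wN_1_rb7f0918 : GoodKC AS c_wN_1_rb7f0918 := p_wN_1_rb7f0918

theorem g_wN_1_rb7f091a : GoodKC AS c_wN_1_rb7f091a := p_wN_1_rb7f091a

theorem g_wN_1_rb7f091b : GoodKC AS c_wN_1_rb7f091b := p_wN_1_rb7f091b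

theorem g__wN_1_rb7f091d_1 : GoodKC AS k_wN_1_rb7f091d_1 := p_wN_1_rb7f091d_1

theorem g__wN_1_rb7f091d_2 : GoodKC AS k_wN_1_rb7f091d_2 := p_wN_1_rb7f091d_2

theorem g__wN_1_rb7f091d_0 : GoodKC AS k_wN_1_rb7f091d_0 := p_wN_1_rb7f091d_0 g__wN_1_rb7f091d_1 g__wN_1_rb7f091d_2

theorem g__wN_1_rb7f091d_3 : GoodKC AS k_wN_1_rb7f091d_3 := p_wN_1_rb7f091d_3

theorem g_wN_1_rb7f091d : GoodKC AS c_wN_1_rb7f091d := p_wN_1_rb7f091d g__wN_1_rb7f091d_0 g__wN_1_rb7f091d_3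

theorem g_wN_1_rb7f091e : GoodKC AS c_wN_1_rb7f091e := p_wN_1_rb7f091e

theorem g_wN_1_rb7f0920 : GoodKC AS c_wN_1_rb7f0920 := p_wN_1_rb7f0920

theorem g__wN_1_rb7f0921_1 : GoodKC AS k_wN_1_rb7f0921_1 := p_wN_1_rb7f0921_1

theorem g__wN_1_rb7f0921_0 : GoodKC AS k_wN_1_rb7f0921_0 := p_wN_1_rb7f0921_0 g__wN_1_rb7f0921_1

theorem g_wN_1_rb7f0921 : GoodKC AS c_wN_1_rb7f0921 := p_wN_1_rb7f0921 g__wN_1_rb7f0921_0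

theorem g_wN_1_rb7f0922 : GoodKC AS c_wN_1_rb7f0922 := p_wN_1_rb7f0922

theorem g_wN_1_rb7f0923 : GoodKC AS c_wN_1_rb7f0923 := p_wN_1_rb7f0923

theorem g_wN_1_rb7f0924 : GoodKC AS c_wN_1_rb7f0924 := p_wN_1_rb7f0924

theorem g__wN_1_rb7f0927_2 : GoodKC AS k_wN_1_rb7f0927_2 := p_wN_1_rb7f0927_2

theorem g__wN_1_rb7f0927_3 : GoodKC AS k_wN_1_rb7f0927_3 := p_wN_1_rb7f0927_3

theorem g__wN_1_rb7f0927_1 : GoodKC AS k_wN_1_rb7f0927_1 := p_wN_1_rb7f0927_1 g__wN_1_rb7f0927_2 g__wN_1_rb7f0927_3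

theorem g__wN_1_rb7f0927_4 : GoodKC AS k_wN_1_rb7f0927_4 := p_wN_1_rb7f0927_4

theorem g__wN_1_rb7f0927_5 : GoodKC AS k_wN_1_rb7f0927_5 := p_wN_1_rb7f0927_5

theorem g__wN_1_rb7f0927_6 : GoodKC AS k_wN_1_rb7f0927_6 := p_wN_1_rb7f0927_6

theorem g__wN_1_rb7f0927_0 : GoodKC AS k_wN_1_rb7f0927_0 := p_wN_1_rb7f0927_0 g__wN_1_rb7f0927_1 g__wN_1_rb7f0927_4 g__wN_1_rb7f0927_5 g__wN_1_rb7f0927_6

theorem g__wN_1_rb7f0927_9 : GoodKC AS k_wN_1_rb7f0927_9 := p_wN_1_rb7f0927_9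

theorem g__wN_1_rb7f0927_10 : GoodKC AS k_wN_1_rb7f0927_10 := p_wN_1_rb7f0927_10

theorem g__wN_1_rb7f0927_11 : GoodKC AS k_wN_1_rb7f0927_11 := p_wN_1_rb7f0927_11

theorem g__wN_1_rb7f0927_8 : GoodKC AS k_wN_1_rb7f0927_8 := p_wN_1_rb7f0927_8 g__wN_1_rb7f0927_9 g__wN_1_rb7f0927_10 g__wN_1_rb7f0927_11

theorem g__wN_1_rb7f0927_7 : GoodKC AS k_wN_1_rb7f0927_7 := p_wN_1_rb7f0927_7 g__wN_1_rb7f0927_8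

theorem g_wN_1_rb7f0927 : GoodKC AS c_wN_1_rb7f0927 := p_wN_1_rb7f0927 g__wN_1_rb7f0927_0 g__wN_1_rb7f0927_7

theorem g__wN_1_rb7f092b_2 : GoodKC AS k_wN_1_rb7f092b_2 := p_wN_1_rb7f092b_2

theorem g__wN_1_rb7f092b_1 : GoodKC AS k_wN_1_rb7f092b_1 := p_wN_1_rb7f092b_1 g__wN_1_rb7f092b_2

theorem g__wN_1_rb7f092b_3 : GoodKC AS k_wN_1_rb7f092b_3 := p_wN_1_rb7f092b_3

theorem g__wN_1_rb7f092b_0 : GoodKC AS k_wN_1_rb7f092b_0 := p_wN_1_rb7f092b_0 g__wN_1_rb7f092b_1 g__wN_1_rb7f092b_3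

theorem g__wN_1_rb7f092b_4 : GoodKC AS k_wN_1_rb7f092b_4 := p_wN_1_rb7f092b_4

theorem g_wN_1_rb7f092b : GoodKC AS c_wN_1_rb7f092b := p_wN_1_rb7f092b g__wN_1_rb7f092b_0 g__wN_1_rb7f092b_4

theorem g_wN_1_rb7f092c : GoodKC AS c_wN_1_rb7f092c := p_wN_1_rb7f092c

theorem g__wN_1_rb7f092d_0 : GoodKC AS k_wN_1_rb7f092d_0 := p_wN_1_rb7f092d_0

theorem g_wN_1_rb7f092d : GoodKC AS c_wN_1_rb7f092d := p_wN_1_rb7f092d g__wN_1_rb7f092d_0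

theorem g_wN_1_rb7f09 : GoodKC AS c_wN_1_rb7f09 := p_wN_1_rb7f09 g_wN_1_rb7f092e g_wN_1_rb7f092a g_wN_1_rb7f0929 g_wN_1_rb7f0928 g_wN_1_rb7f0926 g_wN_1_rb7f0925 g_wN_1_rb7f091f g_wN_1_rb7f091c g_wN_1_rb7f0919 g_wN_1_rb7f0915 g_wN_1_rb7f0913 g_wN_1_rb7f0911 g_wN_1_rb7f090d g_wN_1_rb7f090c g_wN_1_rb7f090b g_wN_1_rb7f090a g_wN_1_rb7f0909 g_wN_1_rb7f0906 g_wN_1_rb7f0905 g_wN_1_rb7f0903 g_wN_1_rb7f0902 g_wN_1_rb7f0901 g_wN_1_rb7f0900 g_wN_1_rb7f0904 g_wN_1_rb7f0907 g_wN_1_rb7f0908 g_wN_1_rb7f090e g_wN_1_rb7f090f g_wN_1_rb7f0910 g_wN_1_rb7f0912 g_wN_1_rb7f0914 g_wN_1_rb7f0916 g_wN_1_rb7f0917 g_wN_1_rb7f0918 g_wN_1_rb7f091a g_wN_1_rb7f091b g_wN_1_rb7f091d g_wN_1_rb7f091e g_wN_1_rb7f0920 g_wN_1_rb7f0921 g_wN_1_rb7f0922 g_wN_1_rb7f0923 g_wN_1_rb7f0924 g_wN_1_rb7f0927 g_wN_1_rb7f092b g_wN_1_rb7f092c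 g_wN_1_rb7f092d

theorem g__wN_1_rb7f0a03_4 : GoodKC AS k_wN_1_rb7f0a03_4 := p_wN_1_rb7f0a03_4

theorem g__wN_1_rb7f0a03_3 : GoodKC AS k_wN_1_rb7f0a03_3 := p_wN_1_rb7f0a03_3 g__wN_1_rb7f0a03_4

theorem g__wN_1_rb7f0a03_6 : GoodKC AS k_wN_1_rb7f0a03_6 := p_wN_1_rb7f0a03_6

theorem g__wN_1_rb7f0a03_8 : GoodKC AS k_wN_1_rb7f0a03_8 := p_wN_1_rb7f0a03_8

theorem g__wN_1_rb7f0a03_7 : GoodKC AS k_wN_1_rb7f0a03_7 := p_wN_1_rb7f0a03_7 g__wN_1_rb7f0a03_8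

theorem g__wN_1_rb7f0a03_5 : GoodKC AS k_wN_1_rb7f0a03_5 := p_wN_1_rb7f0a03_5 g__wN_1_rb7f0a03_6 g__wN_1_rb7f0a03_7

theorem g__wN_1_rb7f0a03_2 : GoodKC AS k_wN_1_rb7f0a03_2 := p_wN_1_rb7f0a03_2 g__wN_1_rb7f0a03_3 g__wN_1_rb7f0a03_5

theorem g__wN_1_rb7f0a03_1 : GoodKC AS k_wN_1_rb7f0a03_1 := p_wN_1_rb7f0a03_1 g__wN_1_rb7f0a03_2

theorem g__wN_1_rb7f0a03_9 : GoodKC AS k_wN_1_rb7f0a03_9 := p_wN_1_rb7f0a03_9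

theorem g__wN_1_rb7f0a03_0 : GoodKC AS k_wN_1_rb7f0a03_0 := p_wN_1_rb7f0a03_0 g__wN_1_rb7f0a03_1 g__wN_1_rb7f0a03_9

theorem g__wN_1_rb7f0a0300_0 : GoodKC AS k_wN_1_rb7f0a0300_0 := p_wN_1_rb7f0a0300_0

theorem g__wN_1_rb7f0a0300_4 : GoodKC AS k_wN_1_rb7f0a0300_4 := p_wN_1_rb7f0a0300_4

theorem g__wN_1_rb7f0a0300_5 : GoodKC AS k_wN_1_rb7f0a0300_5 := p_wN_1_rb7f0a0300_5

theorem g__wN_1_rb7f0a0300_3 : GoodKC AS k_wN_1_rb7f0a0300_3 := p_wN_1_rb7f0a0300_3 g__wN_1_rb7f0a0300_4 g__wN_1_rb7f0a0300_5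

theorem g__wN_1_rb7f0a0300_2 : GoodKC AS k_wN_1_rb7f0a0300_2 := p_wN_1_rb7f0a0300_2 g__wN_1_rb7f0a0300_3

theorem g__wN_1_rb7f0a0300_1 : GoodKC AS k_wN_1_rb7f0a0300_1 := p_wN_1_rb7f0a0300_1 g__wN_1_rb7f0a0300_2

theorem g_wN_1_rb7f0a0300 : GoodKC AS c_wN_1_rb7f0a0300 := p_wN_1_rb7f0a0300 g__wN_1_rb7f0a0300_0 g__wN_1_rb7f0a0300_1

theorem g_wN_1_rb7f0a03 : GoodKC AS c_wN_1_rb7f0a03 := p_wN_1_rb7f0a03 g__wN_1_rb7f0a03_0 g_wN_1_rb7f0a0300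

theorem g_wN_1_rb7f0a02 : GoodKC AS c_wN_1_rb7f0a02 := p_wN_1_rb7f0a02

theorem g__wN_1_rb7f0a01_1 : GoodKC AS k_wN_1_rb7f0a01_1 := p_wN_1_rb7f0a01_1

theorem g__wN_1_rb7f0a01_0 : GoodKC AS k_wN_1_rb7f0a01_0 := p_wN_1_rb7f0a01_0 g__wN_1_rb7f0a01_1

theorem g_wN_1_rb7f0a01 : GoodKC AS c_wN_1_rb7f0a01 := p_wN_1_rb7f0a01 g__wN_1_rb7f0a01_0

theorem g__wN_1_rb7f0a_2 : GoodKC AS k_wN_1_rb7f0a_2 := p_wN_1_rb7f0a_2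

theorem g__wN_1_rb7f0a_3 : GoodKC AS k_wN_1_rb7f0a_3 := p_wN_1_rb7f0a_3

theorem g__wN_1_rb7f0a_5 : GoodKC AS k_wN_1_rb7f0a_5 := p_wN_1_rb7f0a_5

theorem g__wN_1_rb7f0a_4 : GoodKC AS k_wN_1_rb7f0a_4 := p_wN_1_rb7f0a_4 g__wN_1_rb7f0a_5

theorem g__wN_1_rb7f0a_1 : GoodKC AS k_wN_1_rb7f0a_1 := p_wN_1_rb7f0a_1 g__wN_1_rb7f0a_2 g__wN_1_rb7f0a_3 g__wN_1_rb7f0a_4

theorem g__wN_1_rb7f0a_6 : GoodKC AS k_wN_1_rb7f0a_6 := p_wN_1_rb7f0a_6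

theorem g__wN_1_rb7f0a_0 : GoodKC AS k_wN_1_rb7f0a_0 := p_wN_1_rb7f0a_0 g__wN_1_rb7f0a_1 g__wN_1_rb7f0a_6

theorem g__wN_1_rb7f0a_8 : GoodKC AS k_wN_1_rb7f0a_8 := p_wN_1_rb7f0a_8

theorem g__wN_1_rb7f0a_10 : GoodKC AS k_wN_1_rb7f0a_10 := p_wN_1_rb7f0a_10

theorem g__wN_1_rb7f0a_9 : GoodKC AS k_wN_1_rb7f0a_9 := p_wN_1_rb7f0a_9 g__wN_1_rb7f0a_10

theorem g__wN_1_rb7f0a_7 : GoodKC AS k_wN_1_rb7f0a_7 := p_wN_1_rb7f0a_7 g__wN_1_rb7f0a_8 g__wN_1_rb7f0a_9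

theorem g__wN_1_rb7f0a_11 : GoodKC AS k_wN_1_rb7f0a_11 := p_wN_1_rb7f0a_11

theorem g__wN_1_rb7f0a00_2 : GoodKC AS k_wN_1_rb7f0a00_2 := p_wN_1_rb7f0a00_2

theorem g__wN_1_rb7f0a00_3 : GoodKC AS k_wN_1_rb7f0a00_3 := p_wN_1_rb7f0a00_3

theorem g__wN_1_rb7f0a00_1 : GoodKC AS k_wN_1_rb7f0a00_1 := p_wN_1_rb7f0a00_1 g__wN_1_rb7f0a00_2 g__wN_1_rb7f0a00_3

theorem g__wN_1_rb7f0a00_4 : GoodKC AS k_wN_1_rb7f0a00_4 := p_wN_1_rb7f0a00_4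

theorem g__wN_1_rb7f0a00_0 : GoodKC AS k_wN_1_rb7f0a00_0 := p_wN_1_rb7f0a00_0 g__wN_1_rb7f0a00_1 g__wN_1_rb7f0a00_4

theorem g_wN_1_rb7f0a00 : GoodKC AS c_wN_1_rb7f0a00 := p_wN_1_rb7f0a00 g__wN_1_rb7f0a00_0

theorem g_wN_1_rb7f0a04 : GoodKC AS c_wN_1_rb7f0a04 := p_wN_1_rb7f0a04

theorem g_wN_1_rb7f0a : GoodKC AS c_wN_1_rb7f0a := p_wN_1_rb7f0a g_wN_1_rb7f0a03 g_wN_1_rb7f0a02 g_wN_1_rb7f0a01 g__wN_1_rb7f0a_0 g__wN_1_rb7f0a_7 g__wN_1_rb7f0a_11 g_wN_1_rb7f0a00 g_wN_1_rb7f0a04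

theorem g__wN_1_rb7f0b_2 : GoodKC AS k_wN_1_rb7f0b_2 := p_wN_1_rb7f0b_2

theorem g__wN_1_rb7f0b_1 : GoodKC AS k_wN_1_rb7f0b_1 := p_wN_1_rb7f0b_1 g__wN_1_rb7f0b_2

theorem g__wN_1_rb7f0b_3 : GoodKC AS k_wN_1_rb7f0b_3 := p_wN_1_rb7f0b_3

theorem g__wN_1_rb7f0b_4 : GoodKC AS k_wN_1_rb7f0b_4 := p_wN_1_rb7f0b_4

theorem g__wN_1_rb7f0b_6 : GoodKC AS k_wN_1_rb7f0b_6 := p_wN_1_rb7f0b_6

theorem g__wN_1_rb7f0b_7 : GoodKC AS k_wN_1_rb7f0b_7 := p_wN_1_rb7f0b_7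

theorem g__wN_1_rb7f0b_5 : GoodKC AS k_wN_1_rb7f0b_5 := p_wN_1_rb7f0b_5 g__wN_1_rb7f0b_6 g__wN_1_rb7f0b_7

theorem g__wN_1_rb7f0b_0 : GoodKC AS k_wN_1_rb7f0b_0 := p_wN_1_rb7f0b_0 g__wN_1_rb7f0b_1 g__wN_1_rb7f0b_3 g__wN_1_rb7f0b_4 g__wN_1_rb7f0b_5

theorem g__wN_1_rb7f0b_8 : GoodKC AS k_wN_1_rb7f0b_8 := p_wN_1_rb7f0b_8

theorem g_wN_1_rb7f0b08 : GoodKC AS c_wN_1_rb7f0b08 := p_wN_1_rb7f0b08

theorem g_wN_1_rb7f0b06 : GoodKC AS c_wN_1_rb7f0b06 := p_wN_1_rb7f0b06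

theorem g_wN_1_rb7f0b05 : GoodKC AS c_wN_1_rb7f0b05 := p_wN_1_rb7f0b05

theorem g_wN_1_rb7f0b03 : GoodKC AS c_wN_1_rb7f0b03 := p_wN_1_rb7f0b03

theorem g_wN_1_rb7f0b02 : GoodKC AS c_wN_1_rb7f0b02 := p_wN_1_rb7f0b02

theorem g_wN_1_rb7f0b00 : GoodKC AS c_wN_1_rb7f0b00 := p_wN_1_rb7f0b00

theorem g_wN_1_rb7f0b01 : GoodKC AS c_wN_1_rb7f0b01 := p_wN_1_rb7f0b01

theorem g_wN_1_rb7f0b04 : GoodKC AS c_wN_1_rb7f0b04 := p_wN_1_rb7f0b04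

theorem g_wN_1_rb7f0b07 : GoodKC AS c_wN_1_rb7f0b07 := p_wN_1_rb7f0b07

theorem g_wN_1_rb7f0b : GoodKC AS c_wN_1_rb7f0b := p_wN_1_rb7f0b g__wN_1_rb7f0b_0 g__wN_1_rb7f0b_8 g_wN_1_rb7f0b08 g_wN_1_rb7f0b06 g_wN_1_rb7f0b05 g_wN_1_rb7f0b03 g_wN_1_rb7f0b02 g_wN_1_rb7f0b00 g_wN_1_rb7f0b01 g_wN_1_rb7f0b04 g_wN_1_rb7f0b07

theorem g_wN_1_rb7f0c0203 : GoodKC AS c_wN_1_rb7f0c0203 := p_wN_1_rb7f0c0203

theorem g__wN_1_rb7f0c0202_3 : GoodKC AS k_wN_1_rb7f0c0202_3 := p_wN_1_rb7f0c0202_3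

theorem g__wN_1_rb7f0c0202_2 : GoodKC AS k_wN_1_rb7f0c0202_2 := p_wN_1_rb7f0c0202_2 g__wN_1_rb7f0c0202_3

theorem g__wN_1_rb7f0c0202_1 : GoodKC AS k_wN_1_rb7f0c0202_1 := p_wN_1_rb7f0c0202_1 g__wN_1_rb7f0c0202_2

theorem g__wN_1_rb7f0c0202_4 : GoodKC AS k_wN_1_rb7f0c0202_4 := p_wN_1_rb7f0c0202_4

theorem g__wN_1_rb7f0c0202_5 : GoodKC AS k_wN_1_rb7f0c0202_5 := p_wN_1_rb7f0c0202_5

theorem g__wN_1_rb7f0c0202_0 : GoodKC AS k_wN_1_rb7f0c0202_0 := p_wN_1_rb7f0c0202_0 g__wN_1_rb7f0c0202_1 g__wN_1_rb7f0c0202_4 g__wN_1_rb7f0c0202_5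

theorem g__wN_1_rb7f0c0202_8 : GoodKC AS k_wN_1_rb7f0c0202_8 := p_wN_1_rb7f0c0202_8

theorem g__wN_1_rb7f0c0202_7 : GoodKC AS k_wN_1_rb7f0c0202_7 := p_wN_1_rb7f0c0202_7 g__wN_1_rb7f0c0202_8

theorem g__wN_1_rb7f0c0202_6 : GoodKC AS k_wN_1_rb7f0c0202_6 := p_wN_1_rb7f0c0202_6 g__wN_1_rb7f0c0202_7

theorem g__wN_1_rb7f0c0202_10 : GoodKC AS k_wN_1_rb7f0c0202_10 := p_wN_1_rb7f0c0202_10

theorem g__wN_1_rb7f0c0202_12 : GoodKC AS k_wN_1_rb7f0c0202_12 := p_wN_1_rb7f0c0202_12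

theorem g__wN_1_rb7f0c0202_11 : GoodKC AS k_wN_1_rb7f0c0202_11 := p_wN_1_rb7f0c0202_11 g__wN_1_rb7f0c0202_12

theorem g__wN_1_rb7f0c0202_9 : GoodKC AS k_wN_1_rb7f0c0202_9 := p_wN_1_rb7f0c0202_9 g__wN_1_rb7f0c0202_10 g__wN_1_rb7f0c0202_11

theorem g_wN_1_rb7f0c0202 : GoodKC AS c_wN_1_rb7f0c0202 := p_wN_1_rb7f0c0202 g__wN_1_rb7f0c0202_0 g__wN_1_rb7f0c0202_6 g__wN_1_rb7f0c0202_9

theorem g__wN_1_rb7f0c0201_0 : GoodKC AS k_wN_1_rb7f0c0201_0 := p_wN_1_rb7f0c0201_0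

theorem g_wN_1_rb7f0c0201 : GoodKC AS c_wN_1_rb7f0c0201 := p_wN_1_rb7f0c0201 g__wN_1_rb7f0c0201_0

theorem g__wN_1_rb7f0c02_3 : GoodKC AS k_wN_1_rb7f0c02_3 := p_wN_1_rb7f0c02_3

theorem g__wN_1_rb7f0c02_2 : GoodKC AS k_wN_1_rb7f0c02_2 := p_wN_1_rb7f0c02_2 g__wN_1_rb7f0c02_3

theorem g__wN_1_rb7f0c02_1 : GoodKC AS k_wN_1_rb7f0c02_1 := p_wN_1_rb7f0c02_1 g__wN_1_rb7f0c02_2

theorem g__wN_1_rb7f0c02_5 : GoodKC AS k_wN_1_rb7f0c02_5 := p_wN_1_rb7f0c02_5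

theorem g__wN_1_rb7f0c02_7 : GoodKC AS k_wN_1_rb7f0c02_7 := p_wN_1_rb7f0c02_7

theorem g__wN_1_rb7f0c02_6 : GoodKC AS k_wN_1_rb7f0c02_6 := p_wN_1_rb7f0c02_6 g__wN_1_rb7f0c02_7

theorem g__wN_1_rb7f0c02_4 : GoodKC AS k_wN_1_rb7f0c02_4 := p_wN_1_rb7f0c02_4 g__wN_1_rb7f0c02_5 g__wN_1_rb7f0c02_6

theorem g__wN_1_rb7f0c0200_1 : GoodKC AS k_wN_1_rb7f0c0200_1 := p_wN_1_rb7f0c0200_1

theorem g__wN_1_rb7f0c0200_3 : GoodKC AS k_wN_1_rb7f0c0200_3 := p_wN_1_rb7f0c0200_3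

theorem g__wN_1_rb7f0c0200_2 : GoodKC AS k_wN_1_rb7f0c0200_2 := p_wN_1_rb7f0c0200_2 g__wN_1_rb7f0c0200_3

theorem g__wN_1_rb7f0c0200_0 : GoodKC AS k_wN_1_rb7f0c0200_0 := p_wN_1_rb7f0c0200_0 g__wN_1_rb7f0c0200_1 g__wN_1_rb7f0c0200_2

theorem g__wN_1_rb7f0c0200_6 : GoodKC AS k_wN_1_rb7f0c0200_6 := p_wN_1_rb7f0c0200_6

theorem g__wN_1_rb7f0c0200_7 : GoodKC AS k_wN_1_rb7f0c0200_7 := p_wN_1_rb7f0c0200_7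

theorem g__wN_1_rb7f0c0200_5 : GoodKC AS k_wN_1_rb7f0c0200_5 := p_wN_1_rb7f0c0200_5 g__wN_1_rb7f0c0200_6 g__wN_1_rb7f0c0200_7

theorem g__wN_1_rb7f0c0200_4 : GoodKC AS k_wN_1_rb7f0c0200_4 := p_wN_1_rb7f0c0200_4 g__wN_1_rb7f0c0200_5

theorem g__wN_1_rb7f0c0200_11 : GoodKC AS k_wN_1_rb7f0c0200_11 := p_wN_1_rb7f0c0200_11

theorem g__wN_1_rb7f0c0200_10 : GoodKC AS k_wN_1_rb7f0c0200_10 := p_wN_1_rb7f0c0200_10 g__wN_1_rb7f0c0200_11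

theorem g__wN_1_rb7f0c0200_9 : GoodKC AS k_wN_1_rb7f0c0200_9 := p_wN_1_rb7f0c0200_9 g__wN_1_rb7f0c0200_10

theorem g__wN_1_rb7f0c0200_8 : GoodKC AS k_wN_1_rb7f0c0200_8 := p_wN_1_rb7f0c0200_8 g__wN_1_rb7f0c0200_9

theorem g_wN_1_rb7f0c0200 : GoodKC AS c_wN_1_rb7f0c0200 := p_wN_1_rb7f0c0200 g__wN_1_rb7f0c0200_0 g__wN_1_rb7f0c0200_4 g__wN_1_rb7f0c0200_8

theorem g__wN_1_rb7f0c02_0 : GoodKC AS k_wN_1_rb7f0c02_0 := p_wN_1_rb7f0c02_0 g_wN_1_rb7f0c0201 g__wN_1_rb7f0c02_1 g__wN_1_rb7f0c02_4 g_wN_1_rb7f0c0200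

theorem g__wN_1_rb7f0c0204_3 : GoodKC AS k_wN_1_rb7f0c0204_3 := p_wN_1_rb7f0c0204_3

theorem g__wN_1_rb7f0c0204_2 : GoodKC AS k_wN_1_rb7f0c0204_2 := p_wN_1_rb7f0c0204_2 g__wN_1_rb7f0c0204_3

theorem g__wN_1_rb7f0c0204_5 : GoodKC AS k_wN_1_rb7f0c0204_5 := p_wN_1_rb7f0c0204_5

theorem g__wN_1_rb7f0c0204_4 : GoodKC AS k_wN_1_rb7f0c0204_4 := p_wN_1_rb7f0c0204_4 g__wN_1_rb7f0c0204_5

theorem g__wN_1_rb7f0c0204_1 : GoodKC AS k_wN_1_rb7f0c0204_1 := p_wN_1_rb7f0c0204_1 g__wN_1_rb7f0c0204_2 g__wN_1_rb7f0c0204_4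

theorem g__wN_1_rb7f0c0204_0 : GoodKC AS k_wN_1_rb7f0c0204_0 := p_wN_1_rb7f0c0204_0 g__wN_1_rb7f0c0204_1

theorem g__wN_1_rb7f0c0204_6 : GoodKC AS k_wN_1_rb7f0c0204_6 := p_wN_1_rb7f0c0204_6

theorem g_wN_1_rb7f0c0204 : GoodKC AS c_wN_1_rb7f0c0204 := p_wN_1_rb7f0c0204 g__wN_1_rb7f0c0204_0 g__wN_1_rb7f0c0204_6

theorem g__wN_1_rb7f0c0205_1 : GoodKC AS k_wN_1_rb7f0c0205_1 := p_wN_1_rb7f0c0205_1

theorem g__wN_1_rb7f0c0205_2 : GoodKC AS k_wN_1_rb7f0c0205_2 := p_wN_1_rb7f0c0205_2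

theorem g__wN_1_rb7f0c0205_0 : GoodKC AS k_wN_1_rb7f0c0205_0 := p_wN_1_rb7f0c0205_0 g__wN_1_rb7f0c0205_1 g__wN_1_rb7f0c0205_2

theorem g__wN_1_rb7f0c0205_4 : GoodKC AS k_wN_1_rb7f0c0205_4 := p_wN_1_rb7f0c0205_4

theorem g__wN_1_rb7f0c0205_3 : GoodKC AS k_wN_1_rb7f0c0205_3 := p_wN_1_rb7f0c0205_3 g__wN_1_rb7f0c0205_4

theorem g_wN_1_rb7f0c0205 : GoodKC AS c_wN_1_rb7f0c0205 := p_wN_1_rb7f0c0205 g__wN_1_rb7f0c0205_0 g__wN_1_rb7f0c0205_3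

theorem g_wN_1_rb7f0c02 : GoodKC AS c_wN_1_rb7f0c02 := p_wN_1_rb7f0c02 g_wN_1_rb7f0c0203 g_wN_1_rb7f0c0202 g__wN_1_rb7f0c02_0 g_wN_1_rb7f0c0204 g_wN_1_rb7f0c0205

theorem g__wN_1_rb7f0c00_0 : GoodKC AS k_wN_1_rb7f0c00_0 := p_wN_1_rb7f0c00_0

theorem g_wN_1_rb7f0c00 : GoodKC AS c_wN_1_rb7f0c00 := p_wN_1_rb7f0c00 g__wN_1_rb7f0c00_0

theorem g__wN_1_rb7f0c_0 : GoodKC AS k_wN_1_rb7f0c_0 := p_wN_1_rb7f0c_0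

theorem g__wN_1_rb7f0c_1 : GoodKC AS k_wN_1_rb7f0c_1 := p_wN_1_rb7f0c_1

theorem g__wN_1_rb7f0c_3 : GoodKC AS k_wN_1_rb7f0c_3 := p_wN_1_rb7f0c_3

theorem g__wN_1_rb7f0c_4 : GoodKC AS k_wN_1_rb7f0c_4 := p_wN_1_rb7f0c_4

theorem g__wN_1_rb7f0c_2 : GoodKC AS k_wN_1_rb7f0c_2 := p_wN_1_rb7f0c_2 g__wN_1_rb7f0c_3 g__wN_1_rb7f0c_4

theorem g__wN_1_rb7f0c_6 : GoodKC AS k_wN_1_rb7f0c_6 := p_wN_1_rb7f0c_6

theorem g__wN_1_rb7f0c_7 : GoodKC AS k_wN_1_rb7f0c_7 := p_wN_1_rb7f0c_7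

theorem g__wN_1_rb7f0c_5 : GoodKC AS k_wN_1_rb7f0c_5 := p_wN_1_rb7f0c_5 g__wN_1_rb7f0c_6 g__wN_1_rb7f0c_7

theorem g_wN_1_rb7f0c01 : GoodKC AS c_wN_1_rb7f0c01 := p_wN_1_rb7f0c01

theorem g_wN_1_rb7f0c : GoodKC AS c_wN_1_rb7f0c := p_wN_1_rb7f0c g_wN_1_rb7f0c02 g_wN_1_rb7f0c00 g__wN_1_rb7f0c_0 g__wN_1_rb7f0c_1 g__wN_1_rb7f0c_2 g__wN_1_rb7f0c_5 g_wN_1_rb7f0c01

theorem g_rb7f : GoodKC AS c_rb7f := p_rb7f g_wN_1_rb7f0e g_wN_1_rb7f0d g__rb7f_0 g_wN_1_rb7f08 g__rb7f_34 g_wN_1_rb7f09 g_wN_1_rb7f0a g_wN_1_rb7f0b g_wN_1_rb7f0c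

theorem g_rb7e : GoodKC AS c_rb7e := p_rb7e

theorem g_rb7d : GoodKC AS c_rb7d := p_rb7d

theorem g_rb7c : GoodKC AS c_rb7c := p_rb7c

theorem g__rb7b_1 : GoodKC AS k_rb7b_1 := p_rb7b_1

theorem g__rb7b_0 : GoodKC AS k_rb7b_0 := p_rb7b_0 g__rb7b_1

theorem g_rb7b : GoodKC AS c_rb7b := p_rb7b g__rb7b_0

theorem g_rb79 : GoodKC AS c_rb79 := p_rb79

theorem g_rb78 : GoodKC AS c_rb78 := p_rb78

theorem g_rb76 : GoodKC AS c_rb76 := p_rb76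

theorem g_rb74 : GoodKC AS c_rb74 := p_rb74

theorem g_rb73 : GoodKC AS c_rb73 := p_rb73

theorem g_rb72 : GoodKC AS c_rb72 := p_rb72

theorem g_rb71 : GoodKC AS c_rb71 := p_rb71

theorem g_rb70 : GoodKC AS c_rb70 := p_rb70

theorem g_rb6f : GoodKC AS c_rb6f := p_rb6f

theorem g_rb6e : GoodKC AS c_rb6e := p_rb6e

theorem g_rb6d : GoodKC AS c_rb6d := p_rb6d

theorem g__rb69_0 : GoodKC AS k_rb69_0 := p_rb69_0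

theorem g_rb69 : GoodKC AS c_rb69 := p_rb69 g__rb69_0

theorem g__rb68_0 : GoodKC AS k_rb68_0 := p_rb68_0

theorem g_rb68 : GoodKC AS c_rb68 := p_rb68 g__rb68_0

theorem g_rb67 : GoodKC AS c_rb67 := p_rb67

theorem g_rb65 : GoodKC AS c_rb65 := p_rb65

theorem g_rb64 : GoodKC AS c_rb64 := p_rb64

theorem g_rb60 : GoodKC AS c_rb60 := p_rb60

theorem g_rb5d : GoodKC AS c_rb5d := p_rb5d

theorem g_rb5c : GoodKC AS c_rb5c := p_rb5c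

theorem g_rb59 : GoodKC AS c_rb59 := p_rb59

theorem g_rb55 : GoodKC AS c_rb55 := p_rb55

theorem g__rb52_0 : GoodKC AS k_rb52_0 := p_rb52_0

theorem g_rb52 : GoodKC AS c_rb52 := p_rb52 g__rb52_0

theorem g_rb51 : GoodKC AS c_rb51 := p_rb51

theorem g__rb4f_0 : GoodKC AS k_rb4f_0 := p_rb4f_0

theorem g_rb4f : GoodKC AS c_rb4f := p_rb4f g__rb4f_0

theorem g_rb4d26 : GoodKC AS c_rb4d26 := p_rb4d26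

theorem g_rb4d25 : GoodKC AS c_rb4d25 := p_rb4d25

theorem g_rb4d20 : GoodKC AS c_rb4d20 := p_rb4d20

theorem g__rb4d1e_1 : GoodKC AS k_rb4d1e_1 := p_rb4d1e_1

theorem g__rb4d1e_0 : GoodKC AS k_rb4d1e_0 := p_rb4d1e_0 g__rb4d1e_1

theorem g_rb4d1e : GoodKC AS c_rb4d1e := p_rb4d1e g__rb4d1e_0

theorem g_rb4d1d : GoodKC AS c_rb4d1d := p_rb4d1d

theorem g_rb4d1b : GoodKC AS c_rb4d1b := p_rb4d1b

theorem g_rb4d1a : GoodKC AS c_rb4d1a := p_rb4d1a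

theorem g_rb4d18 : GoodKC AS c_rb4d18 := p_rb4d18

theorem g_rb4d16 : GoodKC AS c_rb4d16 := p_rb4d16

theorem g_rb4d15 : GoodKC AS c_rb4d15 := p_rb4d15

theorem g_rb4d14 : GoodKC AS c_rb4d14 := p_rb4d14

theorem g_rb4d13 : GoodKC AS c_rb4d13 := p_rb4d13

theorem g_rb4d12 : GoodKC AS c_rb4d12 := p_rb4d12

theorem g_rb4d11 : GoodKC AS c_rb4d11 := p_rb4d11

theorem g_rb4d10 : GoodKC AS c_rb4d10 := p_rb4d10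

theorem g_rb4d0f : GoodKC AS c_rb4d0f := p_rb4d0f

theorem g_rb4d0d : GoodKC AS c_rb4d0d := p_rb4d0d

theorem g_rb4d0b : GoodKC AS c_rb4d0b := p_rb4d0b

theorem g__rb4d_3 : GoodKC AS k_rb4d_3 := p_rb4d_3

theorem g__rb4d_2 : GoodKC AS k_rb4d_2 := p_rb4d_2 g__rb4d_3

theorem g__rb4d_1 : GoodKC AS k_rb4d_1 := p_rb4d_1 g__rb4d_2

theorem g__rb4d_0 : GoodKC AS k_rb4d_0 := p_rb4d_0 g__rb4d_1

theorem g_rb4d03 : GoodKC AS c_rb4d03 := p_rb4d03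

theorem g_rb4d02 : GoodKC AS c_rb4d02 := p_rb4d02

theorem g_rb4d00 : GoodKC AS c_rb4d00 := p_rb4d00

theorem g_rb4d01 : GoodKC AS c_rb4d01 := p_rb4d01

theorem g_rb4d04 : GoodKC AS c_rb4d04 := p_rb4d04

theorem g_rb4d05 : GoodKC AS c_rb4d05 := p_rb4d05

theorem g_rb4d06 : GoodKC AS c_rb4d06 := p_rb4d06

theorem g_rb4d07 : GoodKC AS c_rb4d07 := p_rb4d07

theorem g_rb4d08 : GoodKC AS c_rb4d08 := p_rb4d08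

theorem g_rb4d09 : GoodKC AS c_rb4d09 := p_rb4d09

theorem g_rb4d0a : GoodKC AS c_rb4d0a := p_rb4d0a

theorem g__rb4d0c_2 : GoodKC AS k_rb4d0c_2 := p_rb4d0c_2

theorem g__rb4d0c_1 : GoodKC AS k_rb4d0c_1 := p_rb4d0c_1 g__rb4d0c_2

theorem g__rb4d0c_0 : GoodKC AS k_rb4d0c_0 := p_rb4d0c_0 g__rb4d0c_1

theorem g_rb4d0c : GoodKC AS c_rb4d0c := p_rb4d0c g__rb4d0c_0

theorem g_rb4d0e : GoodKC AS c_rb4d0e := p_rb4d0e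

theorem g_rb4d17 : GoodKC AS c_rb4d17 := p_rb4d17

theorem g_rb4d19 : GoodKC AS c_rb4d19 := p_rb4d19

theorem g_rb4d1c : GoodKC AS c_rb4d1c := p_rb4d1c

theorem g_rb4d1f : GoodKC AS c_rb4d1f := p_rb4d1f

theorem g_rb4d21 : GoodKC AS c_rb4d21 := p_rb4d21

theorem g_rb4d22 : GoodKC AS c_rb4d22 := p_rb4d22

theorem g_rb4d23 : GoodKC AS c_rb4d23 := p_rb4d23

theorem g_rb4d24 : GoodKC AS c_rb4d24 := p_rb4d24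

theorem g_rb4d : GoodKC AS c_rb4d := p_rb4d g_rb4d26 g_rb4d25 g_rb4d20 g_rb4d1e g_rb4d1d g_rb4d1b g_rb4d1a g_rb4d18 g_rb4d16 g_rb4d15 g_rb4d14 g_rb4d13 g_rb4d12 g_rb4d11 g_rb4d10 g_rb4d0f g_rb4d0d g_rb4d0b g__rb4d_0 g_rb4d03 g_rb4d02 g_rb4d00 g_rb4d01 g_rb4d04 g_rb4d05 g_rb4d06 g_rb4d07 g_rb4d08 g_rb4d09 g_rb4d0a g_rb4d0c g_rb4d0e g_rb4d17 g_rb4d19 g_rb4d1c g_rb4d1f g_rb4d21 g_rb4d22 g_rb4d23 g_rb4d24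

theorem g_rb4c : GoodKC AS c_rb4c := p_rb4c

theorem g_rb4b : GoodKC AS c_rb4b := p_rb4b

theorem g_rb4a : GoodKC AS c_rb4a := p_rb4a

theorem g_rb49 : GoodKC AS c_rb49 := p_rb49

theorem g_rb48 : GoodKC AS c_rb48 := p_rb48

theorem g_rb47 : GoodKC AS c_rb47 := p_rb47

theorem g_rb43 : GoodKC AS c_rb43 := p_rb43

theorem g_rb42 : GoodKC AS c_rb42 := p_rb42

theorem g_rb41 : GoodKC AS c_rb41 := p_rb41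

theorem g_rb40 : GoodKC AS c_rb40 := p_rb40

theorem g_rb3f : GoodKC AS c_rb3f := p_rb3f

theorem g_rb3e : GoodKC AS c_rb3e := p_rb3e

theorem g_rb3d : GoodKC AS c_rb3d := p_rb3d

theorem g_rb3c : GoodKC AS c_rb3c := p_rb3c

theorem g_rb3a : GoodKC AS c_rb3a := p_rb3a

theorem g_rb39 : GoodKC AS c_rb39 := p_rb39

theorem g_rb38 : GoodKC AS c_rb38 := p_rb38

theorem g__rb37_0 : GoodKC AS k_rb37_0 := p_rb37_0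

theorem g_rb37 : GoodKC AS c_rb37 := p_rb37 g__rb37_0

theorem g_rb35 : GoodKC AS c_rb35 := p_rb35

theorem g_rb32 : GoodKC AS c_rb32 := p_rb32

theorem g_rb30 : GoodKC AS c_rb30 := p_rb30

theorem g_rb2d : GoodKC AS c_rb2d := p_rb2d

theorem g_rb2c : GoodKC AS c_rb2c := p_rb2c

theorem g_rb2b : GoodKC AS c_rb2b := p_rb2b

theorem g_rb29 : GoodKC AS c_rb29 := p_rb29

theorem g_rb27 : GoodKC AS c_rb27 := p_rb27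

theorem g_rb26 : GoodKC AS c_rb26 := p_rb26

theorem g_rb25 : GoodKC AS c_rb25 := p_rb25

theorem g_rb24 : GoodKC AS c_rb24 := p_rb24

theorem g_rb23 : GoodKC AS c_rb23 := p_rb23

theorem g_rb22 : GoodKC AS c_rb22 := p_rb22

theorem g_rb21 : GoodKC AS c_rb21 := p_rb21

theorem g_rb1d : GoodKC AS c_rb1d := p_rb1d

theorem g_rb1b : GoodKC AS c_rb1b := p_rb1b

theorem g_rb1a : GoodKC AS c_rb1a := p_rb1a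

theorem g_rb19 : GoodKC AS c_rb19 := p_rb19

theorem g_rb17 : GoodKC AS c_rb17 := p_rb17

theorem g_rb16 : GoodKC AS c_rb16 := p_rb16

theorem g_rb14 : GoodKC AS c_rb14 := p_rb14

theorem g_rb0e : GoodKC AS c_rb0e := p_rb0e

theorem g_rb0c : GoodKC AS c_rb0c := p_rb0c

theorem g_rb0b : GoodKC AS c_rb0b := p_rb0b

theorem g_rb09 : GoodKC AS c_rb09 := p_rb09

theorem g_rb07 : GoodKC AS c_rb07 := p_rb07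

theorem g_rb06 : GoodKC AS c_rb06 := p_rb06

theorem g_rb05 : GoodKC AS c_rb05 := p_rb05

theorem g_rb03 : GoodKC AS c_rb03 := p_rb03

theorem g_rb02 : GoodKC AS c_rb02 := p_rb02

theorem g_rb00 : GoodKC AS c_rb00 := p_rb00

theorem g_rb01 : GoodKC AS c_rb01 := p_rb01

theorem g_rb04 : GoodKC AS c_rb04 := p_rb04

theorem g_rb08 : GoodKC AS c_rb08 := p_rb08

theorem g_rb0a : GoodKC AS c_rb0a := p_rb0a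

theorem g__rb_1 : GoodKC AS k_rb_1 := p_rb_1 g_rb09 g_rb07 g_rb06 g_rb05 g_rb03 g_rb02 g_rb00 g_rb01 g_rb04 g_rb08 g_rb0a

theorem g__rb_2 : GoodKC AS k_rb_2 := p_rb_2

theorem g__rb_3 : GoodKC AS k_rb_3 := p_rb_3

theorem g_rb0d : GoodKC AS c_rb0d := p_rb0d

theorem g_rb0f : GoodKC AS c_rb0f := p_rb0f

theorem g_rb10 : GoodKC AS c_rb10 := p_rb10

theorem g_rb11 : GoodKC AS c_rb11 := p_rb11

theorem g_rb12 : GoodKC AS c_rb12 := p_rb12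

theorem g_rb13 : GoodKC AS c_rb13 := p_rb13

theorem g_rb15 : GoodKC AS c_rb15 := p_rb15

theorem g_rb18 : GoodKC AS c_rb18 := p_rb18

theorem g_rb1c : GoodKC AS c_rb1c := p_rb1c

theorem g_rb1e : GoodKC AS c_rb1e := p_rb1e

theorem g_rb1f : GoodKC AS c_rb1f := p_rb1f

theorem g_rb20 : GoodKC AS c_rb20 := p_rb20

theorem g_rb28 : GoodKC AS c_rb28 := p_rb28

theorem g_rb2a : GoodKC AS c_rb2a := p_rb2a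

theorem g_rb2e : GoodKC AS c_rb2e := p_rb2e

theorem g_rb2f : GoodKC AS c_rb2f := p_rb2f

theorem g_rb31 : GoodKC AS c_rb31 := p_rb31

theorem g_rb33 : GoodKC AS c_rb33 := p_rb33

theorem g_rb34 : GoodKC AS c_rb34 := p_rb34

theorem g__rb_0 : GoodKC AS k_rb_0 := p_rb_0 g_rb35 g_rb32 g_rb30 g_rb2d g_rb2c g_rb2b g_rb29 g_rb27 g_rb26 g_rb25 g_rb24 g_rb23 g_rb22 g_rb21 g_rb1d g_rb1b g_rb1a g_rb19 g_rb17 g_rb16 g_rb14 g_rb0e g_rb0c g_rb0b g__rb_1 g__rb_2 g__rb_3 g_rb0d g_rb0f g_rb10 g_rb11 g_rb12 g_rb13 g_rb15 g_rb18 g_rb1c g_rb1e g_rb1f g_rb20 g_rb28 g_rb2a g_rb2e g_rb2f g_rb31 g_rb33 g_rb34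

theorem g_rb36 : GoodKC AS c_rb36 := p_rb36

theorem g_rb3b : GoodKC AS c_rb3b := p_rb3b

theorem g_rb44 : GoodKC AS c_rb44 := p_rb44

theorem g_rb450f : GoodKC AS c_rb450f := p_rb450f

theorem g_rb450e : GoodKC AS c_rb450e := p_rb450e

theorem g_rb450d : GoodKC AS c_rb450d := p_rb450d

theorem g_rb450c : GoodKC AS c_rb450c := p_rb450c

theorem g_rb450a : GoodKC AS c_rb450a := p_rb450a

theorem g_rb4507 : GoodKC AS c_rb4507 := p_rb4507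

theorem g_rb4506 : GoodKC AS c_rb4506 := p_rb4506

theorem g_rb4505 : GoodKC AS c_rb4505 := p_rb4505

theorem g_rb450004 : GoodKC AS c_rb450004 := p_rb450004

theorem g_rb450003 : GoodKC AS c_rb450003 := p_rb450003

theorem g__rb4500_0 : GoodKC AS k_rb4500_0 := p_rb4500_0

theorem g_rb450000 : GoodKC AS c_rb450000 := p_rb450000

theorem g_rb450001 : GoodKC AS c_rb450001 := p_rb450001

theorem g_rb450002 : GoodKC AS c_rb450002 := p_rb450002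

theorem g_rb450005 : GoodKC AS c_rb450005 := p_rb450005

theorem g_rb450006 : GoodKC AS c_rb450006 := p_rb450006

theorem g_rb4500 : GoodKC AS c_rb4500 := p_rb4500 g_rb450004 g_rb450003 g__rb4500_0 g_rb450000 g_rb450001 g_rb450002 g_rb450005 g_rb450006

theorem g__rb45_1 : GoodKC AS k_rb45_1 := p_rb45_1 g_rb4500

theorem g__rb45_0 : GoodKC AS k_rb45_0 := p_rb45_0 g__rb45_1

theorem g_rb4503 : GoodKC AS c_rb4503 := p_rb4503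

theorem g_rb4501 : GoodKC AS c_rb4501 := p_rb4501

theorem g_rb4502 : GoodKC AS c_rb4502 := p_rb4502

theorem g_rb4504 : GoodKC AS c_rb4504 := p_rb4504

theorem g_rb4508 : GoodKC AS c_rb4508 := p_rb4508

theorem g_rb4509 : GoodKC AS c_rb4509 := p_rb4509

theorem g_rb450b : GoodKC AS c_rb450b := p_rb450b

theorem g_rb45 : GoodKC AS c_rb45 := p_rb45 g_rb450f g_rb450e g_rb450d g_rb450c g_rb450a g_rb4507 g_rb4506 g_rb4505 g__rb45_0 g_rb4503 g_rb4501 g_rb4502 g_rb4504 g_rb4508 g_rb4509 g_rb450b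

theorem g_rb46 : GoodKC AS c_rb46 := p_rb46

theorem g__rb4e_1 : GoodKC AS k_rb4e_1 := p_rb4e_1

theorem g__rb4e_0 : GoodKC AS k_rb4e_0 := p_rb4e_0 g__rb4e_1

theorem g_rb4e : GoodKC AS c_rb4e := p_rb4e g__rb4e_0

theorem g_rb50 : GoodKC AS c_rb50 := p_rb50

theorem g_rb53 : GoodKC AS c_rb53 := p_rb53

theorem g_rb54 : GoodKC AS c_rb54 := p_rb54

theorem g__rb56_0 : GoodKC AS k_rb56_0 := p_rb56_0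

theorem g_rb56 : GoodKC AS c_rb56 := p_rb56 g__rb56_0

theorem g__rb57_2 : GoodKC AS k_rb57_2 := p_rb57_2

theorem g__rb57_1 : GoodKC AS k_rb57_1 := p_rb57_1 g__rb57_2

theorem g__rb57_0 : GoodKC AS k_rb57_0 := p_rb57_0 g__rb57_1

theorem g_rb57 : GoodKC AS c_rb57 := p_rb57 g__rb57_0

theorem g_rb58 : GoodKC AS c_rb58 := p_rb58

theorem g_rb5a : GoodKC AS c_rb5a := p_rb5a

theorem g_rb5b : GoodKC AS c_rb5b := p_rb5b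

theorem g_rb5e : GoodKC AS c_rb5e := p_rb5e

theorem g_rb5f : GoodKC AS c_rb5f := p_rb5f

theorem g_rb61 : GoodKC AS c_rb61 := p_rb61

theorem g_rb62 : GoodKC AS c_rb62 := p_rb62

theorem g_rb63 : GoodKC AS c_rb63 := p_rb63

theorem g_rb66 : GoodKC AS c_rb66 := p_rb66

theorem g__rb6a_3 : GoodKC AS k_rb6a_3 := p_rb6a_3

theorem g__rb6a_2 : GoodKC AS k_rb6a_2 := p_rb6a_2 g__rb6a_3

theorem g__rb6a_1 : GoodKC AS k_rb6a_1 := p_rb6a_1 g__rb6a_2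

theorem g__rb6a_0 : GoodKC AS k_rb6a_0 := p_rb6a_0 g__rb6a_1

theorem g_rb6a : GoodKC AS c_rb6a := p_rb6a g__rb6a_0

theorem g__rb6b_3 : GoodKC AS k_rb6b_3 := p_rb6b_3

theorem g__rb6b_2 : GoodKC AS k_rb6b_2 := p_rb6b_2 g__rb6b_3

theorem g__rb6b_1 : GoodKC AS k_rb6b_1 := p_rb6b_1 g__rb6b_2

theorem g__rb6b_0 : GoodKC AS k_rb6b_0 := p_rb6b_0 g__rb6b_1

theorem g__rb6b_6 : GoodKC AS k_rb6b_6 := p_rb6b_6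

theorem g__rb6b_5 : GoodKC AS k_rb6b_5 := p_rb6b_5 g__rb6b_6

theorem g__rb6b_7 : GoodKC AS k_rb6b_7 := p_rb6b_7

theorem g__rb6b_4 : GoodKC AS k_rb6b_4 := p_rb6b_4 g__rb6b_5 g__rb6b_7

theorem g_rb6b : GoodKC AS c_rb6b := p_rb6b g__rb6b_0 g__rb6b_4

theorem g_rb6c : GoodKC AS c_rb6c := p_rb6c

theorem g_rb75 : GoodKC AS c_rb75 := p_rb75

theorem g_rb77 : GoodKC AS c_rb77 := p_rb77

theorem g_rb7a14 : GoodKC AS c_rb7a14 := p_rb7a14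

theorem g_rb7a13 : GoodKC AS c_rb7a13 := p_rb7a13

theorem g_rb7a12 : GoodKC AS c_rb7a12 := p_rb7a12

theorem g_rb7a10 : GoodKC AS c_rb7a10 := p_rb7a10

theorem g_rb7a0e : GoodKC AS c_rb7a0e := p_rb7a0e

theorem g_rb7a0b : GoodKC AS c_rb7a0b := p_rb7a0b

theorem g_rb7a09 : GoodKC AS c_rb7a09 := p_rb7a09

theorem g_rb7a08 : GoodKC AS c_rb7a08 := p_rb7a08

theorem g_rb7a06 : GoodKC AS c_rb7a06 := p_rb7a06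

theorem g_rb7a05 : GoodKC AS c_rb7a05 := p_rb7a05

theorem g_rb7a04 : GoodKC AS c_rb7a04 := p_rb7a04

theorem g_rb7a03 : GoodKC AS c_rb7a03 := p_rb7a03

theorem g_rb7a02 : GoodKC AS c_rb7a02 := p_rb7a02

theorem g_rb7a00 : GoodKC AS c_rb7a00 := p_rb7a00

theorem g_rb7a01 : GoodKC AS c_rb7a01 := p_rb7a01

theorem g__rb7a_4 : GoodKC AS k_rb7a_4 := p_rb7a_4

theorem g__rb7a_3 : GoodKC AS k_rb7a_3 := p_rb7a_3 g__rb7a_4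

theorem g__rb7a_2 : GoodKC AS k_rb7a_2 := p_rb7a_2 g__rb7a_3

theorem g__rb7a_1 : GoodKC AS k_rb7a_1 := p_rb7a_1 g__rb7a_2

theorem g__rb7a_0 : GoodKC AS k_rb7a_0 := p_rb7a_0 g__rb7a_1

theorem g_rb7a07 : GoodKC AS c_rb7a07 := p_rb7a07

theorem g_rb7a0a : GoodKC AS c_rb7a0a := p_rb7a0a

theorem g_rb7a0c : GoodKC AS c_rb7a0c := p_rb7a0c

theorem g_rb7a0d : GoodKC AS c_rb7a0d := p_rb7a0d

theorem g_rb7a0f : GoodKC AS c_rb7a0f := p_rb7a0f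

theorem g_rb7a11 : GoodKC AS c_rb7a11 := p_rb7a11

theorem g_rb7a15 : GoodKC AS c_rb7a15 := p_rb7a15

theorem g_rb7a16 : GoodKC AS c_rb7a16 := p_rb7a16

theorem g_rb7a17 : GoodKC AS c_rb7a17 := p_rb7a17

theorem g_rb7a18 : GoodKC AS c_rb7a18 := p_rb7a18

theorem g_rb7a : GoodKC AS c_rb7a := p_rb7a g_rb7a14 g_rb7a13 g_rb7a12 g_rb7a10 g_rb7a0e g_rb7a0b g_rb7a09 g_rb7a08 g_rb7a06 g_rb7a05 g_rb7a04 g_rb7a03 g_rb7a02 g_rb7a00 g_rb7a01 g__rb7a_0 g_rb7a07 g_rb7a0a g_rb7a0c g_rb7a0d g_rb7a0f g_rb7a11 g_rb7a15 g_rb7a16 g_rb7a17 g_rb7a18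

theorem g__rb82_0 : GoodKC AS k_rb82_0 := p_rb82_0

theorem g__rb82_4 : GoodKC AS k_rb82_4 := p_rb82_4

theorem g__rb82_3 : GoodKC AS k_rb82_3 := p_rb82_3 g__rb82_4

theorem g__rb82_6 : GoodKC AS k_rb82_6 := p_rb82_6

theorem g__rb82_5 : GoodKC AS k_rb82_5 := p_rb82_5 g__rb82_6

theorem g__rb82_8 : GoodKC AS k_rb82_8 := p_rb82_8

theorem g__rb82_7 : GoodKC AS k_rb82_7 := p_rb82_7 g__rb82_8

theorem g__rb82_2 : GoodKC AS k_rb82_2 := p_rb82_2 g__rb82_3 g__rb82_5 g__rb82_7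

theorem g__rb82_1 : GoodKC AS k_rb82_1 := p_rb82_1 g__rb82_2

theorem g_wE_1_rb8201 : GoodKC AS c_wE_1_rb8201 := p_wE_1_rb8201

theorem g__wE_1_rb8200_0 : GoodKC AS k_wE_1_rb8200_0 := p_wE_1_rb8200_0

theorem g_wE_1_rb8200 : GoodKC AS c_wE_1_rb8200 := p_wE_1_rb8200 g__wE_1_rb8200_0

theorem g__rb82_9 : GoodKC AS k_rb82_9 := p_rb82_9 g_wE_1_rb8201 g_wE_1_rb8200

theorem g_rb82 : GoodKC AS c_rb82 := p_rb82 g__rb82_0 g__rb82_1 g__rb82_9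

theorem g__rb83_0 : GoodKC AS k_rb83_0 := p_rb83_0

theorem g_rb83 : GoodKC AS c_rb83 := p_rb83 g__rb83_0

theorem g_rb8402 : GoodKC AS c_rb8402 := p_rb8402

theorem g_rb840051 : GoodKC AS c_rb840051 := p_rb840051

theorem g_rb840050 : GoodKC AS c_rb840050 := p_rb840050

theorem g_rb84004f : GoodKC AS c_rb84004f := p_rb84004f

theorem g_rb84004e : GoodKC AS c_rb84004e := p_rb84004e

theorem g_rb84004d : GoodKC AS c_rb84004d := p_rb84004d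

theorem g_rb84004c : GoodKC AS c_rb84004c := p_rb84004c

theorem g_rb84004a : GoodKC AS c_rb84004a := p_rb84004a

theorem g_rb840048 : GoodKC AS c_rb840048 := p_rb840048

theorem g_rb840047 : GoodKC AS c_rb840047 := p_rb840047

theorem g_rb840046 : GoodKC AS c_rb840046 := p_rb840046

theorem g_rb840045 : GoodKC AS c_rb840045 := p_rb840045

theorem g_rb840042 : GoodKC AS c_rb840042 := p_rb840042

theorem g_rb840040 : GoodKC AS c_rb840040 := p_rb840040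

theorem g_rb84003e : GoodKC AS c_rb84003e := p_rb84003e

theorem g_rb84003d : GoodKC AS c_rb84003d := p_rb84003d

theorem g_rb840039 : GoodKC AS c_rb840039 := p_rb840039

theorem g_rb840037 : GoodKC AS c_rb840037 := p_rb840037

theorem g_rb840036 : GoodKC AS c_rb840036 := p_rb840036

theorem g_rb840034 : GoodKC AS c_rb840034 := p_rb840034

theorem g_rb840033 : GoodKC AS c_rb840033 := p_rb840033

theorem g_rb840032 : GoodKC AS c_rb840032 := p_rb840032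

theorem g_rb840030 : GoodKC AS c_rb840030 := p_rb840030

theorem g_rb84002e : GoodKC AS c_rb84002e := p_rb84002e

theorem g_rb84002d : GoodKC AS c_rb84002d := p_rb84002d

theorem g_rb84002c : GoodKC AS c_rb84002c := p_rb84002c

theorem g_rb84002b : GoodKC AS c_rb84002b := p_rb84002b

theorem g_rb84002a : GoodKC AS c_rb84002a := p_rb84002a

theorem g_rb840026 : GoodKC AS c_rb840026 := p_rb840026

theorem g_rb840024 : GoodKC AS c_rb840024 := p_rb840024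

theorem g_rb840022 : GoodKC AS c_rb840022 := p_rb840022

theorem g_rb840020 : GoodKC AS c_rb840020 := p_rb840020

theorem g_rb84001e : GoodKC AS c_rb84001e := p_rb84001e

theorem g_rb84001d : GoodKC AS c_rb84001d := p_rb84001d

theorem g_rb84001b : GoodKC AS c_rb84001b := p_rb84001b

theorem g_rb84001a : GoodKC AS c_rb84001a := p_rb84001a

theorem g_rb840019 : GoodKC AS c_rb840019 := p_rb840019

theorem g_rb840018 : GoodKC AS c_rb840018 := p_rb840018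

theorem g_rb840017 : GoodKC AS c_rb840017 := p_rb840017

theorem g_rb840016 : GoodKC AS c_rb840016 := p_rb840016

theorem g_rb840015 : GoodKC AS c_rb840015 := p_rb840015

theorem g_rb840012 : GoodKC AS c_rb840012 := p_rb840012

theorem g_rb840010 : GoodKC AS c_rb840010 := p_rb840010

theorem g_rb84000f : GoodKC AS c_rb84000f := p_rb84000f

theorem g_rb84000e : GoodKC AS c_rb84000e := p_rb84000e

theorem g_rb84000d : GoodKC AS c_rb84000d := p_rb84000d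

theorem g_rb84000a : GoodKC AS c_rb84000a := p_rb84000a

theorem g_rb84000003 : GoodKC AS c_rb84000003 := p_rb84000003

theorem g__rb840000_4 : GoodKC AS k_rb840000_4 := p_rb840000_4

theorem g__rb840000_5 : GoodKC AS k_rb840000_5 := p_rb840000_5

theorem g__rb840000_3 : GoodKC AS k_rb840000_3 := p_rb840000_3 g__rb840000_4 g__rb840000_5

theorem g__rb840000_2 : GoodKC AS k_rb840000_2 := p_rb840000_2 g__rb840000_3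

theorem g__rb840000_1 : GoodKC AS k_rb840000_1 := p_rb840000_1 g__rb840000_2

theorem g__rb840000_0 : GoodKC AS k_rb840000_0 := p_rb840000_0 g__rb840000_1

theorem g__rb840000_6 : GoodKC AS k_rb840000_6 := p_rb840000_6

theorem g_rb84000000 : GoodKC AS c_rb84000000 := p_rb84000000

theorem g_rb84000001 : GoodKC AS c_rb84000001 := p_rb84000001

theorem g_rb84000002 : GoodKC AS c_rb84000002 := p_rb84000002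

theorem g_rb84000004 : GoodKC AS c_rb84000004 := p_rb84000004

theorem g_rb84000005 : GoodKC AS c_rb84000005 := p_rb84000005

theorem g_rb84000006 : GoodKC AS c_rb84000006 := p_rb84000006

theorem g_rb840000 : GoodKC AS c_rb840000 := p_rb840000 g_rb84000003 g__rb840000_0 g__rb840000_6 g_rb84000000 g_rb84000001 g_rb84000002 g_rb84000004 g_rb84000005 g_rb84000006

theorem g__rb8400_0 : GoodKC AS k_rb8400_0 := p_rb8400_0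

theorem g_rb840008 : GoodKC AS c_rb840008 := p_rb840008

theorem g_rb840007 : GoodKC AS c_rb840007 := p_rb840007

theorem g_rb840005 : GoodKC AS c_rb840005 := p_rb840005

theorem g_rb840001 : GoodKC AS c_rb840001 := p_rb840001

theorem g_rb840002 : GoodKC AS c_rb840002 := p_rb840002

theorem g_rb840003 : GoodKC AS c_rb840003 := p_rb840003

theorem g_rb840004 : GoodKC AS c_rb840004 := p_rb840004

theorem g_rb840006 : GoodKC AS c_rb840006 := p_rb840006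

theorem g_rb840009 : GoodKC AS c_rb840009 := p_rb840009

theorem g_rb84000b : GoodKC AS c_rb84000b := p_rb84000b

theorem g_rb84000c : GoodKC AS c_rb84000c := p_rb84000c

theorem g_rb840011 : GoodKC AS c_rb840011 := p_rb840011

theorem g__rb840013_1 : GoodKC AS k_rb840013_1 := p_rb840013_1

theorem g__rb840013_2 : GoodKC AS k_rb840013_2 := p_rb840013_2

theorem g__rb840013_3 : GoodKC AS k_rb840013_3 := p_rb840013_3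

theorem g__rb840013_0 : GoodKC AS k_rb840013_0 := p_rb840013_0 g__rb840013_1 g__rb840013_2 g__rb840013_3

theorem g_rb840013 : GoodKC AS c_rb840013 := p_rb840013 g__rb840013_0

theorem g_rb840014 : GoodKC AS c_rb840014 := p_rb840014

theorem g_rb84001c : GoodKC AS c_rb84001c := p_rb84001c

theorem g__rb84001f_0 : GoodKC AS k_rb84001f_0 := p_rb84001f_0

theorem g_rb84001f : GoodKC AS c_rb84001f := p_rb84001f g__rb84001f_0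

theorem g_rb840021 : GoodKC AS c_rb840021 := p_rb840021

theorem g_rb840023 : GoodKC AS c_rb840023 := p_rb840023

theorem g_rb840025 : GoodKC AS c_rb840025 := p_rb840025

theorem g_rb840027 : GoodKC AS c_rb840027 := p_rb840027

theorem g_rb840028 : GoodKC AS c_rb840028 := p_rb840028

theorem g_rb840029 : GoodKC AS c_rb840029 := p_rb840029

theorem g_rb84002f : GoodKC AS c_rb84002f := p_rb84002f

theorem g__rb840031_0 : GoodKC AS k_rb840031_0 := p_rb840031_0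

theorem g_rb840031 : GoodKC AS c_rb840031 := p_rb840031 g__rb840031_0

theorem g_rb840035 : GoodKC AS c_rb840035 := p_rb840035

theorem g__rb8400386f_1 : GoodKC AS k_rb8400386f_1 := p_rb8400386f_1

theorem g__rb8400386f_0 : GoodKC AS k_rb8400386f_0 := p_rb8400386f_0 g__rb8400386f_1

theorem g__rb8400386f_2 : GoodKC AS k_rb8400386f_2 := p_rb8400386f_2

theorem g_rb8400386f : GoodKC AS c_rb8400386f := p_rb8400386f g__rb8400386f_0 g__rb8400386f_2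

theorem g_rb8400386e : GoodKC AS c_rb8400386e := p_rb8400386e

theorem g_rb8400386d : GoodKC AS c_rb8400386d := p_rb8400386d

theorem g_rb84003869 : GoodKC AS c_rb84003869 := p_rb84003869

theorem g_rb84003866 : GoodKC AS c_rb84003866 := p_rb84003866

theorem g_rb84003865 : GoodKC AS c_rb84003865 := p_rb84003865

theorem g_rb84003864 : GoodKC AS c_rb84003864 := p_rb84003864

theorem g_rb84003860 : GoodKC AS c_rb84003860 := p_rb84003860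

theorem g_rb8400385f : GoodKC AS c_rb8400385f := p_rb8400385f

theorem g_rb8400385d : GoodKC AS c_rb8400385d := p_rb8400385d

theorem g_rb8400385c : GoodKC AS c_rb8400385c := p_rb8400385c

theorem g_rb8400385b : GoodKC AS c_rb8400385b := p_rb8400385b

theorem g_rb84003859 : GoodKC AS c_rb84003859 := p_rb84003859

theorem g_rb84003858 : GoodKC AS c_rb84003858 := p_rb84003858

theorem g_rb84003857 : GoodKC AS c_rb84003857 := p_rb84003857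

theorem g_rb84003856 : GoodKC AS c_rb84003856 := p_rb84003856

theorem g_rb84003855 : GoodKC AS c_rb84003855 := p_rb84003855

theorem g_rb84003854 : GoodKC AS c_rb84003854 := p_rb84003854

theorem g_rb84003852 : GoodKC AS c_rb84003852 := p_rb84003852

theorem g_rb8400384f : GoodKC AS c_rb8400384f := p_rb8400384f

theorem g_rb8400384e : GoodKC AS c_rb8400384e := p_rb8400384e

theorem g_rb8400384d : GoodKC AS c_rb8400384d := p_rb8400384d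

theorem g_rb8400384c : GoodKC AS c_rb8400384c := p_rb8400384c

theorem g_rb8400384b : GoodKC AS c_rb8400384b := p_rb8400384b

theorem g_rb8400384a : GoodKC AS c_rb8400384a := p_rb8400384a

theorem g_rb84003848 : GoodKC AS c_rb84003848 := p_rb84003848

theorem g_rb84003847 : GoodKC AS c_rb84003847 := p_rb84003847

theorem g_rb84003846 : GoodKC AS c_rb84003846 := p_rb84003846

theorem g_rb84003845 : GoodKC AS c_rb84003845 := p_rb84003845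

theorem g_rb84003844 : GoodKC AS c_rb84003844 := p_rb84003844

theorem g_rb84003842 : GoodKC AS c_rb84003842 := p_rb84003842

theorem g_rb8400383c : GoodKC AS c_rb8400383c := p_rb8400383c

theorem g_rb8400383b : GoodKC AS c_rb8400383b := p_rb8400383b

theorem g_rb84003839 : GoodKC AS c_rb84003839 := p_rb84003839

theorem g_rb84003831 : GoodKC AS c_rb84003831 := p_rb84003831

theorem g_rb8400382f : GoodKC AS c_rb8400382f := p_rb8400382f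

theorem g_rb8400382e : GoodKC AS c_rb8400382e := p_rb8400382e

theorem g_rb8400382c : GoodKC AS c_rb8400382c := p_rb8400382c

theorem g_rb8400382b : GoodKC AS c_rb8400382b := p_rb8400382b

theorem g_rb8400382a : GoodKC AS c_rb8400382a := p_rb8400382a

theorem g_rb84003826 : GoodKC AS c_rb84003826 := p_rb84003826

theorem g_rb84003820 : GoodKC AS c_rb84003820 := p_rb84003820

theorem g_rb8400381e : GoodKC AS c_rb8400381e := p_rb8400381e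

theorem g_rb8400381c : GoodKC AS c_rb8400381c := p_rb8400381c

theorem g_rb84003817 : GoodKC AS c_rb84003817 := p_rb84003817

theorem g_rb84003813 : GoodKC AS c_rb84003813 := p_rb84003813

theorem g__rb840038_1 : GoodKC AS k_rb840038_1 := p_rb840038_1

theorem g__rb840038_2 : GoodKC AS k_rb840038_2 := p_rb840038_2

theorem g_rb84003812 : GoodKC AS c_rb84003812 := p_rb84003812

theorem g_rb84003811 : GoodKC AS c_rb84003811 := p_rb84003811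

theorem g_rb84003810 : GoodKC AS c_rb84003810 := p_rb84003810

theorem g_rb8400380d : GoodKC AS c_rb8400380d := p_rb8400380d

theorem g_rb8400380c : GoodKC AS c_rb8400380c := p_rb8400380c

theorem g_rb8400380b : GoodKC AS c_rb8400380b := p_rb8400380b

theorem g_rb8400380a : GoodKC AS c_rb8400380a := p_rb8400380a

theorem g_rb84003806 : GoodKC AS c_rb84003806 := p_rb84003806

theorem g_rb84003805 : GoodKC AS c_rb84003805 := p_rb84003805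

theorem g_rb84003804 : GoodKC AS c_rb84003804 := p_rb84003804

theorem g_rb84003803 : GoodKC AS c_rb84003803 := p_rb84003803

theorem g_rb84003802 : GoodKC AS c_rb84003802 := p_rb84003802

theorem g_rb84003801 : GoodKC AS c_rb84003801 := p_rb84003801

theorem g_rb84003800 : GoodKC AS c_rb84003800 := p_rb84003800

theorem g_rb84003807 : GoodKC AS c_rb84003807 := p_rb84003807

theorem g_rb84003808 : GoodKC AS c_rb84003808 := p_rb84003808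

theorem g_rb84003809 : GoodKC AS c_rb84003809 := p_rb84003809

theorem g_rb8400380e : GoodKC AS c_rb8400380e := p_rb8400380e

theorem g_rb8400380f : GoodKC AS c_rb8400380f := p_rb8400380f

theorem g_rb84003814 : GoodKC AS c_rb84003814 := p_rb84003814

theorem g_rb84003815 : GoodKC AS c_rb84003815 := p_rb84003815

theorem g_rb84003816 : GoodKC AS c_rb84003816 := p_rb84003816

theorem g_rb84003818 : GoodKC AS c_rb84003818 := p_rb84003818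

theorem g_rb84003819 : GoodKC AS c_rb84003819 := p_rb84003819

theorem g_rb8400381a : GoodKC AS c_rb8400381a := p_rb8400381a

theorem g_rb8400381b : GoodKC AS c_rb8400381b := p_rb8400381b

theorem g_rb8400381d : GoodKC AS c_rb8400381d := p_rb8400381d

theorem g_rb8400381f : GoodKC AS c_rb8400381f := p_rb8400381f

theorem g_rb84003821 : GoodKC AS c_rb84003821 := p_rb84003821

theorem g_rb84003822 : GoodKC AS c_rb84003822 := p_rb84003822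

theorem g_rb84003823 : GoodKC AS c_rb84003823 := p_rb84003823

theorem g_rb84003824 : GoodKC AS c_rb84003824 := p_rb84003824

theorem g_rb84003825 : GoodKC AS c_rb84003825 := p_rb84003825

theorem g_rb84003827 : GoodKC AS c_rb84003827 := p_rb84003827

theorem g_rb84003828 : GoodKC AS c_rb84003828 := p_rb84003828

theorem g_rb84003829 : GoodKC AS c_rb84003829 := p_rb84003829

theorem g_rb8400382d : GoodKC AS c_rb8400382d := p_rb8400382d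

theorem g_rb84003830 : GoodKC AS c_rb84003830 := p_rb84003830

theorem g_rb84003832 : GoodKC AS c_rb84003832 := p_rb84003832

theorem g_rb84003833 : GoodKC AS c_rb84003833 := p_rb84003833

theorem g_rb84003834 : GoodKC AS c_rb84003834 := p_rb84003834

theorem g_rb84003835 : GoodKC AS c_rb84003835 := p_rb84003835

theorem g_rb84003836 : GoodKC AS c_rb84003836 := p_rb84003836

theorem g__rb840038_0 : GoodKC AS k_rb840038_0 := p_rb840038_0 g_rb84003831 g_rb8400382f g_rb8400382e g_rb8400382c g_rb8400382b g_rb8400382a g_rb84003826 g_rb84003820 g_rb8400381e g_rb8400381c g_rb84003817 g_rb84003813 g__rb840038_1 g__rb840038_2 g_rb84003812 g_rb84003811 g_rb84003810 g_rb8400380d g_rb8400380c g_rb8400380b g_rb8400380a g_rb84003806 g_rb84003805 g_rb84003804 g_rb84003803 g_rb84003802 g_rb84003801 g_rb84003800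 g_rb84003807 g_rb84003808 g_rb84003809 g_rb8400380e g_rb8400380f g_rb84003814 g_rb84003815 g_rb84003816 g_rb84003818 g_rb84003819 g_rb8400381a g_rb8400381b g_rb8400381d g_rb8400381f g_rb84003821 g_rb84003822 g_rb84003823 g_rb84003824 g_rb84003825 g_rb84003827 g_rb84003828 g_rb84003829 g_rb8400382d g_rb84003830 g_rb84003832 g_rb84003833 g_rb84003834 g_rb84003835 g_rb84003836

theorem g_rb84003837 : GoodKC AS c_rb84003837 := p_rb84003837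

theorem g_rb84003838 : GoodKC AS c_rb84003838 := p_rb84003838

theorem g_rb8400383a : GoodKC AS c_rb8400383a := p_rb8400383a

theorem g_rb8400383d : GoodKC AS c_rb8400383d := p_rb8400383d

theorem g_rb8400383e : GoodKC AS c_rb8400383e := p_rb8400383e

theorem g_rb8400383f : GoodKC AS c_rb8400383f := p_rb8400383f

theorem g_rb84003840 : GoodKC AS c_rb84003840 := p_rb84003840

theorem g_rb84003841 : GoodKC AS c_rb84003841 := p_rb84003841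

theorem g_rb84003843 : GoodKC AS c_rb84003843 := p_rb84003843

theorem g_rb84003849 : GoodKC AS c_rb84003849 := p_rb84003849

theorem g_rb84003850 : GoodKC AS c_rb84003850 := p_rb84003850

theorem g_rb84003851 : GoodKC AS c_rb84003851 := p_rb84003851

theorem g_rb84003853 : GoodKC AS c_rb84003853 := p_rb84003853

theorem g_rb8400385a : GoodKC AS c_rb8400385a := p_rb8400385a

theorem g_rb8400385e : GoodKC AS c_rb8400385e := p_rb8400385e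

theorem g_rb84003861 : GoodKC AS c_rb84003861 := p_rb84003861

theorem g_rb84003862 : GoodKC AS c_rb84003862 := p_rb84003862

theorem g_rb84003863 : GoodKC AS c_rb84003863 := p_rb84003863

theorem g_rb84003867 : GoodKC AS c_rb84003867 := p_rb84003867

theorem g_rb84003868 : GoodKC AS c_rb84003868 := p_rb84003868

theorem g_rb8400386a : GoodKC AS c_rb8400386a := p_rb8400386a

theorem g_rb8400386b : GoodKC AS c_rb8400386b := p_rb8400386b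

theorem g_rb8400386c : GoodKC AS c_rb8400386c := p_rb8400386c

theorem g_rb840038 : GoodKC AS c_rb840038 := p_rb840038 g_rb8400386f g_rb8400386e g_rb8400386d g_rb84003869 g_rb84003866 g_rb84003865 g_rb84003864 g_rb84003860 g_rb8400385f g_rb8400385d g_rb8400385c g_rb8400385b g_rb84003859 g_rb84003858 g_rb84003857 g_rb84003856 g_rb84003855 g_rb84003854 g_rb84003852 g_rb8400384f g_rb8400384e g_rb8400384d g_rb8400384c g_rb8400384b g_rb8400384a g_rb84003848 g_rb84003847 g_rb84003846 g_rb84003845 g_rb84003844 g_rb84003842 g_rb8400383c g_rb8400383b g_rb84003839 g__rb840038_0 g_rb84003837 g_rb84003838 g_rb8400383a g_rb8400383d g_rb8400383e g_rb8400383f g_rb84003840 g_rb84003841 g_rb84003843 g_rb84003849 g_rb84003850 g_rb84003851 g_rb84003853 g_rb8400385a g_rb8400385e g_rb84003861 g_rb84003862 g_rb84003863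 g_rb84003867 g_rb84003868 g_rb8400386a g_rb8400386b g_rb8400386c

theorem g_rb84003a : GoodKC AS c_rb84003a := p_rb84003a

theorem g_rb84003b : GoodKC AS c_rb84003b := p_rb84003b

theorem g_rb84003c : GoodKC AS c_rb84003c := p_rb84003c

theorem g_rb84003f : GoodKC AS c_rb84003f := p_rb84003f

theorem g_rb840041 : GoodKC AS c_rb840041 := p_rb840041

theorem g_rb840043 : GoodKC AS c_rb840043 := p_rb840043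

theorem g_rb840044 : GoodKC AS c_rb840044 := p_rb840044

theorem g_rb840049 : GoodKC AS c_rb840049 := p_rb840049

theorem g_rb84004b : GoodKC AS c_rb84004b := p_rb84004b

theorem g_rb8400 : GoodKC AS c_rb8400 := p_rb8400 g_rb840051 g_rb840050 g_rb84004f g_rb84004e g_rb84004d g_rb84004c g_rb84004a g_rb840048 g_rb840047 g_rb840046 g_rb840045 g_rb840042 g_rb840040 g_rb84003e g_rb84003d g_rb840039 g_rb840037 g_rb840036 g_rb840034 g_rb840033 g_rb840032 g_rb840030 g_rb84002e g_rb84002d g_rb84002c g_rb84002b g_rb84002a g_rb840026 g_rb840024 g_rb840022 g_rb840020 g_rb84001e g_rb84001d g_rb84001b g_rb84001a g_rb840019 g_rb840018 g_rb840017 g_rb840016 g_rb840015 g_rb840012 g_rb840010 g_rb84000f g_rb84000e g_rb84000d g_rb84000a g_rb840000 g__rb8400_0 g_rb840008 g_rb840007 g_rb840005 g_rb840001 g_rb840002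 g_rb840003 g_rb840004 g_rb840006 g_rb840009 g_rb84000b g_rb84000c g_rb840011 g_rb840013 g_rb840014 g_rb84001c g_rb84001f g_rb840021 g_rb840023 g_rb840025 g_rb840027 g_rb840028 g_rb840029 g_rb84002f g_rb840031 g_rb840035 g_rb840038 g_rb84003a g_rb84003b g_rb84003c g_rb84003f g_rb840041 g_rb840043 g_rb840044 g_rb840049 g_rb84004b

theorem g_rb8401 : GoodKC AS c_rb8401 := p_rb8401

theorem g_rb84 : GoodKC AS c_rb84 := p_rb84 g_rb8402 g_rb8400 g_rb8401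

theorem g_top : GoodKC AS rootKC := p_rb g_rb85 g_rb81 g_rb80 g_rb7f g_rb7e g_rb7d g_rb7c g_rb7b g_rb79 g_rb78 g_rb76 g_rb74 g_rb73 g_rb72 g_rb71 g_rb70 g_rb6f g_rb6e g_rb6d g_rb69 g_rb68 g_rb67 g_rb65 g_rb64 g_rb60 g_rb5d g_rb5c g_rb59 g_rb55 g_rb52 g_rb51 g_rb4f g_rb4d g_rb4c g_rb4b g_rb4a g_rb49 g_rb48 g_rb47 g_rb43 g_rb42 g_rb41 g_rb40 g_rb3f g_rb3e g_rb3d g_rb3c g_rb3a g_rb39 g_rb38 g_rb37 g__rb_0 g_rb36 g_rb3b g_rb44 g_rb45 g_rb46 g_rb4e g_rb50 g_rb53 g_rb54 g_rb56 g_rb57 g_rb58 g_rb5a g_rb5b g_rb5e g_rb5f g_rb61 g_rb62 g_rb63 g_rb66 g_rb6a g_rb6b g_rb6c g_rb75 g_rb77 g_rb7a g_rb82 g_rb83 g_rb84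

end Pool.Agent.MOS.V6.S244
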